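import Pool.Agent.Lib.H1M.RV2.D_Goldbach_Defs

/-!
# Project H18R (MP_443e5f_co): vertices which are rich at some scale, definitions
-/

open Finset

namespace Pool.Agent.Lib.H18R

/-- The number of representations of `u` as an ordered sum of two primes. -/
def reps (u : ℕ) : ℕ := ((range (u + 1)).filter (fun p => p.Prime ∧ (u - p).Prime)).card

/-- `u` is rich: for some scale `m` with `n0 ≤ m ≤ n` it is a vertex of `G m` with at least
`m ^ (1 - b)` neighbours in `G m`, or `u ≥ n0` has at least `u ^ (1 - b)` representations as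
an (ordered) sum of two primes. -/
def Rich (V : ℕ → Set ℕ) (G : ∀ n, SimpleGraph (V n)) (b : ℝ) (n0 n u : ℕ) : Prop :=
  (∃ m : ℕ, n0 ≤ m ∧ m ≤ n ∧ ∃ h : u ∈ V m,
    (m : ℝ) ^ (1 - b) ≤ ((G m).neighborSet ⟨u, h⟩).ncard) ∨
  (n0 ≤ u ∧ (u : ℝ) ^ (1 - b) ≤ reps u)

/-- Every even `u ≥ 8` is the sum of two different primes, and every large even `u` in at least
`u ^ (1 - b)` ways. -/
def QuantGoldbach (b : ℝ) : Prop :=
  (∀ u : ℕ, Even u → 8 ≤ u → ∃ p q : ℕ, p.Prime ∧ q.Prime ∧ p ≠ q ∧ p + q = u) ∧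
  ∃ U : ℕ, ∀ u : ℕ, U ≤ u → Even u → (u : ℝ) ^ (1 - b) ≤ reps u

/-- All vertices outside of `E` are pairwise at distance at most `11`; at most `5` if they are comparable (`u ≤ v ^ (1 + δ)`
and `v ≤ u ^ (1 + δ)`), and then at most `4` if `u ≡ v` modulo `4`, at most `3` if `u` and `v` differ modulo `4` and
exactly one of them is divisible by `3`. -/
def Off (E : Set ℕ) (δ : ℝ) {V : Set ℕ} (G : SimpleGraph V) : Prop :=
  ∀ u v : V, (u : ℕ) ∉ E → (v : ℕ) ∉ E → G.edist u v ≤ 11 ∧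
    (((u : ℕ) : ℝ) ≤ ((v : ℕ) : ℝ) ^ (1 + δ) → ((v : ℕ) : ℝ) ≤ ((u : ℕ) : ℝ) ^ (1 + δ) → G.edist u v ≤ 5 ∧
      ((u : ℕ) % 4 = v % 4 → G.edist u v ≤ 4) ∧
      ((u : ℕ) % 4 ≠ v % 4 → (3 ∣ (u : ℕ) ↔ ¬ 3 ∣ (v : ℕ)) → G.edist u v ≤ 3))

end Pool.Agent.Lib.H18R
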