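import Mathlib

/-! Merged copies (to shorten the build) of Lib.Sieve.Combi, Lib.Sieve.PrimeSum, Lib.Sieve.Fundamental, Lib.Sieve.Averages, Lib.GoldbachGraph.Codegree, Lib.GoldbachGraph.Moments, Lib.GoldbachGraph.Proportion, Lib.Helper57.Mertens, Lib.H18Q.T1, Lib.H18Q.T2, Lib.H18Q.T3. -/

-- from Lib.Sieve.Combi
section

/-!
# Combinatorial part of the Brun-Hooley sieve

Weighted truncated inclusion-exclusion over finite sets of indices.
-/

set_option linter.unusedSectionVars false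

namespace Pool.Agent.Lib.Sieve

open Finset

section

variable {ι : Type*} [DecidableEq ι]

/-- `poly c f Q = ∑_{D ⊆ Q} c D ∏_{p ∈ D} f p`. -/
def poly (c : Finset ι → ℝ) (f : ι → ℝ) (Q : Finset ι) : ℝ :=
  ∑ D ∈ Q.powerset, c D * ∏ p ∈ D, f p

/-- Coefficients of the inclusion-exclusion sum truncated at `b`. -/
def cT (b : ℕ) (D : Finset ι) : ℝ := if D.card ≤ b then (-1) ^ D.card else 0

/-- Coefficients of the elementary symmetric sum of degree `m`. -/
def cE (m : ℕ) (D : Finset ι) : ℝ := if D.card = m then 1 else 0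


theorem poly_empty (c : Finset ι → ℝ) (f : ι → ℝ) : poly c f ∅ = c ∅ := by
  simp [poly]

theorem poly_insert (c : Finset ι → ℝ) (f : ι → ℝ) {Q : Finset ι} {p : ι} (hp : p ∉ Q) :
    poly c f (insert p Q) = poly c f Q + f p * poly (fun D => c (insert p D)) f Q := by
  unfold poly
  rw [Finset.sum_powerset_insert hp, Finset.mul_sum]
  congr 1
  refine Finset.sum_congr rfl fun D hD => ?_
  have hpD : p ∉ D := fun h => hp (Finset.mem_powerset.mp hD h)
  rw [Finset.prod_insert hpD]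
  ring

theorem poly_congr {c c' : Finset ι → ℝ} (f : ι → ℝ) {Q : Finset ι}
    (h : ∀ D ⊆ Q, c D = c' D) : poly c f Q = poly c' f Q := by
  unfold poly
  refine Finset.sum_congr rfl fun D hD => ?_
  rw [h D (Finset.mem_powerset.mp hD)]

theorem poly_neg (c : Finset ι → ℝ) (f : ι → ℝ) (Q : Finset ι) :
    poly (fun D => - c D) f Q = - poly c f Q := by
  unfold poly
  rw [← Finset.sum_neg_distrib]
  refine Finset.sum_congr rfl fun D _ => by ring

theorem poly_add (c c' : Finset ι → ℝ) (f : ι → ℝ) (Q : Finset ι) :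
    poly (fun D => c D + c' D) f Q = poly c f Q + poly c' f Q := by
  unfold poly
  rw [← Finset.sum_add_distrib]
  refine Finset.sum_congr rfl fun D _ => by ring

theorem poly_const_mul (a : ℝ) (c : Finset ι → ℝ) (f : ι → ℝ) (Q : Finset ι) :
    poly (fun D => a * c D) f Q = a * poly c f Q := by
  unfold poly
  rw [Finset.mul_sum]
  refine Finset.sum_congr rfl fun D _ => by ring

theorem poly_nonneg {c : Finset ι → ℝ} {f : ι → ℝ} {Q : Finset ι} (hc : ∀ D, 0 ≤ c D)
    (hf : ∀ p ∈ Q, 0 ≤ f p) : 0 ≤ poly c f Q := by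
  unfold poly
  refine Finset.sum_nonneg fun D hD => mul_nonneg (hc D) ?_
  exact Finset.prod_nonneg fun p hp => hf p (Finset.mem_powerset.mp hD hp)


theorem cT_insert_succ {b : ℕ} {D : Finset ι} {p : ι} (hp : p ∉ D) :
    cT (b + 1) (insert p D) = - cT b D := by
  unfold cT
  rw [Finset.card_insert_of_notMem hp]
  by_cases h : D.card ≤ b
  · rw [if_pos h, if_pos (by omega)]
    ring
  · rw [if_neg h, if_neg (by omega)]
    simp


theorem polyT_zero (f : ι → ℝ) (Q : Finset ι) : poly (cT 0) f Q = 1 := by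
  unfold poly
  rw [Finset.sum_eq_single ∅]
  · simp [cT]
  · intro D _ hD
    have : ¬ D.card ≤ 0 := by
      intro h
      exact hD (Finset.card_eq_zero.mp (by omega))
    simp [cT, this]
  · intro h
    exact absurd (Finset.empty_mem_powerset Q) h

theorem polyT_insert (b : ℕ) (f : ι → ℝ) {Q : Finset ι} {p : ι} (hp : p ∉ Q) :
    poly (cT (b + 1)) f (insert p Q) = poly (cT (b + 1)) f Q - f p * poly (cT b) f Q := by
  rw [poly_insert _ _ hp]
  rw [poly_congr (c' := fun D => - cT b D) f fun D hD => cT_insert_succ fun h => hp (hD h)]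
  rw [poly_neg]
  ring

theorem polyT_succ (b : ℕ) (f : ι → ℝ) (Q : Finset ι) :
    poly (cT (b + 1)) f Q = poly (cT b) f Q + (-1) ^ (b + 1) * poly (cE (b + 1)) f Q := by
  rw [← poly_const_mul, ← poly_add]
  congr 1
  funext D
  unfold cT cE
  by_cases h1 : D.card ≤ b
  · rw [if_pos h1, if_pos (by omega), if_neg (by omega)]
    simp
  · by_cases h2 : D.card = b + 1
    · rw [if_neg h1, if_pos (by omega), if_pos h2, h2]
      ring
    · rw [if_neg h1, if_neg (by omega), if_neg h2]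
      simp

/-- **Bonferroni inequalities**, weighted form. -/
theorem bonferroni (f : ι → ℝ) (Q : Finset ι) (h0 : ∀ p ∈ Q, 0 ≤ f p) (h1 : ∀ p ∈ Q, f p ≤ 1) :
    ∀ b : ℕ, 0 ≤ (-1) ^ b * (poly (cT b) f Q - ∏ p ∈ Q, (1 - f p)) := by
  induction Q using Finset.induction_on with
  | empty =>
    intro b
    rw [poly_empty]
    simp [cT]
  | insert p Q hp ih =>
    have ih' := ih (fun q hq => h0 q (Finset.mem_insert_of_mem hq))
      (fun q hq => h1 q (Finset.mem_insert_of_mem hq))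
    have hfp0 := h0 p (Finset.mem_insert_self p Q)
    have hfp1 := h1 p (Finset.mem_insert_self p Q)
    intro b
    cases b with
    | zero =>
      rw [polyT_zero]
      have : ∏ q ∈ insert p Q, (1 - f q) ≤ 1 := by
        apply Finset.prod_le_one
        · intro q hq
          have := h1 q hq
          linarith
        · intro q hq
          have := h0 q hq
          linarith
      simp only [pow_zero, one_mul]
      linarith
    | succ b =>
      rw [polyT_insert b f hp, Finset.prod_insert hp]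
      have i1 := ih' (b + 1)
      have i2 := mul_nonneg hfp0 (ih' b)
      have : (-1 : ℝ) ^ (b + 1) * (poly (cT (b + 1)) f Q - f p * poly (cT b) f Q
          - (1 - f p) * ∏ q ∈ Q, (1 - f q))
          = (-1) ^ (b + 1) * (poly (cT (b + 1)) f Q - ∏ q ∈ Q, (1 - f q))
            + f p * ((-1) ^ b * (poly (cT b) f Q - ∏ q ∈ Q, (1 - f q))) := by
        rw [pow_succ]
        ring
      rw [this]
      linarith

theorem le_polyT_of_even {f : ι → ℝ} {Q : Finset ι} (h0 : ∀ p ∈ Q, 0 ≤ f p)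
    (h1 : ∀ p ∈ Q, f p ≤ 1) {b : ℕ} (hb : Even b) :
    ∏ p ∈ Q, (1 - f p) ≤ poly (cT b) f Q := by
  have h := bonferroni f Q h0 h1 b
  rw [hb.neg_one_pow] at h
  linarith

theorem polyT_le_of_even {f : ι → ℝ} {Q : Finset ι} (h0 : ∀ p ∈ Q, 0 ≤ f p)
    (h1 : ∀ p ∈ Q, f p ≤ 1) {b : ℕ} (hb : Even b) :
    poly (cT b) f Q ≤ ∏ p ∈ Q, (1 - f p) + poly (cE (b + 1)) f Q := by
  have h := bonferroni f Q h0 h1 (b + 1)
  have hodd : (-1 : ℝ) ^ (b + 1) = -1 := by
    rw [pow_succ, hb.neg_one_pow]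
    ring
  rw [polyT_succ, hodd] at h
  linarith

/-- Rankin's trick for elementary symmetric sums. -/
theorem rankinE {f : ι → ℝ} {Q : Finset ι} (h0 : ∀ p ∈ Q, 0 ≤ f p) (m : ℕ) {l : ℝ} (hl : 0 ≤ l) :
    l ^ m * poly (cE m) f Q ≤ ∏ p ∈ Q, (1 + l * f p) := by
  rw [Finset.prod_one_add]
  unfold poly
  rw [Finset.mul_sum]
  refine Finset.sum_le_sum fun D hD => ?_
  have hD' := Finset.mem_powerset.mp hD
  rw [Finset.prod_mul_distrib, Finset.prod_const]
  have hprod : 0 ≤ ∏ p ∈ D, f p := Finset.prod_nonneg fun p hp => h0 p (hD' hp)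
  unfold cE
  by_cases h : D.card = m
  · rw [if_pos h, h]
    linarith
  · rw [if_neg h]
    have := mul_nonneg (pow_nonneg hl D.card) hprod
    linarith


end

section

variable {κ : Type*} [DecidableEq κ]

/-- Hooley's telescoping inequality. -/
theorem prod_ge_telescope (J : Finset κ) (x y e : κ → ℝ) (hx : ∀ j ∈ J, 0 ≤ x j)
    (hxy : ∀ j ∈ J, x j ≤ y j) (he : ∀ j ∈ J, y j - x j ≤ e j) :
    ∏ j ∈ J, y j - ∑ l ∈ J, e l * ∏ j ∈ J.erase l, y j ≤ ∏ j ∈ J, x j := by
  induction J using Finset.induction_on with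
  | empty => simp
  | insert a J ha ih =>
    have ih' := ih (fun j hj => hx j (Finset.mem_insert_of_mem hj))
      (fun j hj => hxy j (Finset.mem_insert_of_mem hj))
      (fun j hj => he j (Finset.mem_insert_of_mem hj))
    have hxa := hx a (Finset.mem_insert_self a J)
    have hxya := hxy a (Finset.mem_insert_self a J)
    have hea := he a (Finset.mem_insert_self a J)
    have hy : ∀ j ∈ J, 0 ≤ y j := fun j hj =>
      (hx j (Finset.mem_insert_of_mem hj)).trans (hxy j (Finset.mem_insert_of_mem hj))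
    have hY : 0 ≤ ∏ j ∈ J, y j := Finset.prod_nonneg hy
    rw [Finset.prod_insert ha, Finset.prod_insert ha, Finset.sum_insert ha,
      Finset.erase_insert ha]
    have hsum : ∑ l ∈ J, e l * ∏ j ∈ (insert a J).erase l, y j
        = y a * ∑ l ∈ J, e l * ∏ j ∈ J.erase l, y j := by
      rw [Finset.mul_sum]
      refine Finset.sum_congr rfl fun l hl => ?_
      have hla : l ≠ a := fun h => ha (h ▸ hl)
      rw [Finset.erase_insert_of_ne hla.symm, Finset.prod_insert]
      · ring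
      · intro h
        exact ha (Finset.mem_of_mem_erase h)
    rw [hsum]
    set S := ∑ l ∈ J, e l * ∏ j ∈ J.erase l, y j with hS
    have hSnn : 0 ≤ S := by
      refine Finset.sum_nonneg fun l hl => mul_nonneg ?_ ?_
      · have h1 := hxy l (Finset.mem_insert_of_mem hl)
        have h2 := he l (Finset.mem_insert_of_mem hl)
        linarith
      · exact Finset.prod_nonneg fun j hj => hy j (Finset.mem_of_mem_erase hj)
    have h1 : (y a - x a) * ∏ j ∈ J, y j ≤ e a * ∏ j ∈ J, y j :=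
      mul_le_mul_of_nonneg_right hea hY
    have h2 : x a * S ≤ y a * S := mul_le_mul_of_nonneg_right hxya hSnn
    have h3 : x a * (∏ j ∈ J, y j - S) ≤ x a * ∏ j ∈ J, x j := mul_le_mul_of_nonneg_left ih' hxa
    nlinarith


end

end Pool.Agent.Lib.Sieve
end

-- from Lib.Sieve.PrimeSum
section

/-!
# Elementary bounds for sums over primes
-/

namespace Pool.Agent.Lib.Sieve

open Finset

/-- The primes `p ≤ n`. -/
def primesUpTo (n : ℕ) : Finset ℕ := (Finset.range (n + 1)).filter Nat.Prime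

theorem mem_primesUpTo {n p : ℕ} : p ∈ primesUpTo n ↔ p.Prime ∧ p ≤ n := by
  simp [primesUpTo, and_comm]

theorem prod_pow_dvd_factorial (n : ℕ) : ∏ p ∈ primesUpTo n, p ^ (n / p) ∣ n.factorial := by
  apply Finset.prod_dvd_of_isRelPrime
  · intro p hp q hq hpq
    have hp' := (mem_primesUpTo.mp hp).1
    have hq' := (mem_primesUpTo.mp hq).1
    exact Nat.coprime_iff_isRelPrime.mp (((Nat.coprime_primes hp' hq').mpr hpq).pow _ _)
  · intro p hp
    have hp' := (mem_primesUpTo.mp hp)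
    have h1 : p ^ (n / p) ∣ (p * (n / p)).factorial := by
      have : ∀ m : ℕ, p ^ m ∣ (p * m).factorial := by
        intro m
        induction m with
        | zero => simp
        | succ m ih =>
          rw [pow_succ, Nat.mul_succ]
          have h2 : (p * m + p).factorial = (p * m + p) * (p * m + p - 1).factorial := by
            rw [Nat.mul_factorial_pred]
            have := hp'.1.pos
            omega
          rw [h2, mul_comm (p ^ m) p]
          apply Nat.mul_dvd_mul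
          · exact Dvd.intro (m + 1) (by ring)
          · refine ih.trans (Nat.factorial_dvd_factorial ?_)
            have := hp'.1.pos
            omega
      exact this _
    exact h1.trans (Nat.factorial_dvd_factorial (Nat.mul_div_le n p))

/-- `∑_{p ≤ n} (log p) / p ≤ log n + log 4`. -/
theorem sum_log_div_le (n : ℕ) (hn : 1 ≤ n) :
    ∑ p ∈ primesUpTo n, Real.log p / p ≤ Real.log n + Real.log 4 := by
  have hn' : (0 : ℝ) < n := by exact_mod_cast hn
  -- logarithm of the divisibility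
  have h1 : ∏ p ∈ primesUpTo n, p ^ (n / p) ≤ n ^ n :=
    (Nat.le_of_dvd (Nat.factorial_pos n) (prod_pow_dvd_factorial n)).trans
      (Nat.factorial_le_pow n)
  have h2 : ∑ p ∈ primesUpTo n, ((n / p : ℕ) : ℝ) * Real.log p ≤ n * Real.log n := by
    have h3 : Real.log ((∏ p ∈ primesUpTo n, p ^ (n / p) : ℕ) : ℝ) ≤ Real.log ((n ^ n : ℕ) : ℝ) := by
      apply Real.log_le_log
      · have : 0 < ∏ p ∈ primesUpTo n, p ^ (n / p) := by
          apply Finset.prod_pos
          intro p hp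
          exact pow_pos (mem_primesUpTo.mp hp).1.pos _
        exact_mod_cast this
      · exact_mod_cast h1
    rw [Nat.cast_prod, Real.log_prod] at h3
    · push_cast at h3
      rw [Real.log_pow] at h3
      refine le_trans (le_of_eq ?_) h3
      refine Finset.sum_congr rfl fun p _ => ?_
      rw [Real.log_pow]
    · intro p hp
      have := (mem_primesUpTo.mp hp).1.pos
      positivity
  have h4 : ∑ p ∈ primesUpTo n, Real.log p ≤ n * Real.log 4 := by
    have h5 : ∏ p ∈ primesUpTo n, p ≤ 4 ^ n := primorial_le_four_pow n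
    have h6 : Real.log ((∏ p ∈ primesUpTo n, p : ℕ) : ℝ) ≤ Real.log ((4 ^ n : ℕ) : ℝ) := by
      apply Real.log_le_log
      · have : 0 < ∏ p ∈ primesUpTo n, p := by
          apply Finset.prod_pos
          intro p hp
          exact (mem_primesUpTo.mp hp).1.pos
        exact_mod_cast this
      · exact_mod_cast h5
    rw [Nat.cast_prod, Real.log_prod] at h6
    · push_cast at h6
      rwa [Real.log_pow] at h6
    · intro p hp
      have := (mem_primesUpTo.mp hp).1.pos
      positivity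
  have h7 : (n : ℝ) * ∑ p ∈ primesUpTo n, Real.log p / p
      ≤ ∑ p ∈ primesUpTo n, ((n / p : ℕ) : ℝ) * Real.log p + ∑ p ∈ primesUpTo n, Real.log p := by
    rw [Finset.mul_sum, ← Finset.sum_add_distrib]
    refine Finset.sum_le_sum fun p hp => ?_
    have hp0 : (0 : ℝ) < p := by exact_mod_cast (mem_primesUpTo.mp hp).1.pos
    have hp1 : (1 : ℝ) ≤ p := by exact_mod_cast (mem_primesUpTo.mp hp).1.one_le
    have hlog : 0 ≤ Real.log p := Real.log_nonneg hp1
    have h8 : (n : ℝ) / p ≤ ((n / p : ℕ) : ℝ) + 1 := by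
      rw [div_le_iff₀ hp0]
      have h9 : n < p * (n / p + 1) := Nat.lt_mul_div_succ n (mem_primesUpTo.mp hp).1.pos
      have h10 : (n : ℝ) < p * ((n / p : ℕ) + 1) := by exact_mod_cast h9
      linarith
    have h11 := mul_le_mul_of_nonneg_right h8 hlog
    calc (n : ℝ) * (Real.log p / p) = n / p * Real.log p := by ring
      _ ≤ (((n / p : ℕ) : ℝ) + 1) * Real.log p := h11
      _ = ((n / p : ℕ) : ℝ) * Real.log p + Real.log p := by ring
  have h12 : (n : ℝ) * ∑ p ∈ primesUpTo n, Real.log p / p ≤ n * (Real.log n + Real.log 4) := by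
    linarith
  exact le_of_mul_le_mul_left h12 hn'

/-- `∑_{p ≤ n < p²} 1/p ≤ 6`. -/
theorem sum_inv_le (n : ℕ) :
    ∑ p ∈ (primesUpTo n).filter (fun p => n < p ^ 2), (1 : ℝ) / p ≤ 6 := by
  by_cases hn : n < 2
  · have : (primesUpTo n).filter (fun p => n < p ^ 2) = ∅ := by
      apply Finset.filter_eq_empty_iff.mpr
      intro p hp
      have h := mem_primesUpTo.mp hp
      have := h.1.two_le
      omega
    rw [this]
    simp
  · push Not at hn
    have hn' : (2 : ℝ) ≤ n := by exact_mod_cast hn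
    have hlog2 : Real.log 2 ≤ Real.log n := Real.log_le_log (by norm_num) hn'
    have hlog2' : 0 < Real.log 2 := Real.log_pos (by norm_num)
    have hlogn : 0 < Real.log n := by linarith
    have h1 := sum_log_div_le n (by omega)
    have h4 : Real.log 4 = 2 * Real.log 2 := by
      have : (4 : ℝ) = 2 ^ 2 := by norm_num
      rw [this, Real.log_pow]
      norm_num
    have h2 : Real.log n / 2 * ∑ p ∈ (primesUpTo n).filter (fun p => n < p ^ 2), (1 : ℝ) / p
        ≤ ∑ p ∈ primesUpTo n, Real.log p / p := by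
      rw [Finset.mul_sum]
      refine le_trans (Finset.sum_le_sum (g := fun p : ℕ => Real.log p / p) fun p hp => ?_) ?_
      · have hp' := Finset.mem_filter.mp hp
        have hp0 : (0 : ℝ) < p := by exact_mod_cast (mem_primesUpTo.mp hp'.1).1.pos
        have h3 : Real.log n ≤ 2 * Real.log p := by
          have : Real.log n ≤ Real.log ((p : ℝ) ^ 2) := by
            apply Real.log_le_log (by linarith)
            have := hp'.2.le
            exact_mod_cast this
          rwa [Real.log_pow, Nat.cast_ofNat] at this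
        rw [← mul_div_assoc, mul_one]
        apply div_le_div_of_nonneg_right _ hp0.le
        linarith
      · apply Finset.sum_le_sum_of_subset_of_nonneg (Finset.filter_subset _ _)
        intro p hp _
        have hp1 : (1 : ℝ) ≤ p := by exact_mod_cast (mem_primesUpTo.mp hp).1.one_le
        have hlog : 0 ≤ Real.log p := Real.log_nonneg hp1
        positivity
    have h5 : Real.log n / 2 * ∑ p ∈ (primesUpTo n).filter (fun p => n < p ^ 2), (1 : ℝ) / p
        ≤ Real.log n / 2 * 6 := by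
      refine h2.trans (h1.trans ?_)
      rw [h4]
      linarith
    exact le_of_mul_le_mul_left h5 (by linarith)

end Pool.Agent.Lib.Sieve
end

-- from Lib.Sieve.Fundamental
section

/-!
# A fundamental lemma of sieve theory (Brun-Hooley)

For a fixed dimension `k`, the number of integers `u` in an interval of length `M ≥ z ^ K(k)`
avoiding at most `k` residue classes modulo each prime `2k + 2 < p ≤ z` lies between
`M V / 4` and `3 M V`, where `V` is the expected density.
-/

namespace Pool.Agent.Lib.Sieve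

open Finset

/-- The sifting primes `w < p ≤ z`. -/
def sprimes (w z : ℕ) : Finset ℕ := (primesUpTo z).filter (fun p => w < p)

theorem mem_sprimes {w z p : ℕ} : p ∈ sprimes w z ↔ p.Prime ∧ w < p ∧ p ≤ z := by
  unfold sprimes
  rw [Finset.mem_filter, mem_primesUpTo]
  tauto

/-- The index of the block of the prime `p`. -/
def blk (z p : ℕ) : ℕ := Nat.log 2 (Nat.log p z)

/-- The `j`-th block of sifting primes. -/
def blockSet (w z j : ℕ) : Finset ℕ := (sprimes w z).filter (fun p => blk z p = j)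

theorem mem_blockSet {w z j p : ℕ} :
    p ∈ blockSet w z j ↔ (p.Prime ∧ w < p ∧ p ≤ z) ∧ blk z p = j := by
  unfold blockSet
  rw [Finset.mem_filter, mem_sprimes]

theorem blk_le (z p : ℕ) : blk z p ≤ z :=
  (Nat.log_le_self _ _).trans (Nat.log_le_self _ _)


theorem blk_spec {z p : ℕ} (hp : p.Prime) (hpz : p ≤ z) :
    p ^ (2 ^ blk z p) ≤ z ∧ z < p ^ (2 ^ (blk z p + 1)) := by
  have hz : z ≠ 0 := by
    have := hp.pos
    omega
  have he : Nat.log p z ≠ 0 := (Nat.log_pos hp.one_lt hpz).ne'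
  constructor
  · calc p ^ (2 ^ blk z p) ≤ p ^ Nat.log p z :=
          Nat.pow_le_pow_right hp.pos (Nat.pow_log_le_self 2 he)
      _ ≤ z := Nat.pow_log_le_self p hz
  · calc z < p ^ (Nat.log p z + 1) := Nat.lt_pow_succ_log_self hp.one_lt z
      _ ≤ p ^ (2 ^ (blk z p + 1)) :=
          Nat.pow_le_pow_right hp.pos (Nat.lt_pow_succ_log_self one_lt_two (Nat.log p z))

theorem block_sq {w z j p y : ℕ} (hp : p ∈ blockSet w z j) (hy : y ∈ blockSet w z j) :
    y < p ^ 2 := by
  rw [mem_blockSet] at hp hy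
  have h1 := (blk_spec hy.1.1 hy.1.2.2).1
  have h2 := (blk_spec hp.1.1 hp.1.2.2).2
  rw [hy.2] at h1
  rw [hp.2] at h2
  have h3 : y ^ (2 ^ j) < (p ^ 2) ^ (2 ^ j) := by
    calc y ^ (2 ^ j) ≤ z := h1
      _ < p ^ (2 ^ (j + 1)) := h2
      _ = (p ^ 2) ^ (2 ^ j) := by rw [← pow_mul, pow_succ, mul_comm]
  exact lt_of_pow_lt_pow_left₀ _ (Nat.zero_le _) h3

/-- The largest prime in a block. -/
def top (w z j : ℕ) : ℕ := (blockSet w z j).sup id

theorem top_mem {w z j : ℕ} (h : (blockSet w z j).Nonempty) : top w z j ∈ blockSet w z j := by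
  obtain ⟨y, hy, hy'⟩ := Finset.exists_mem_eq_sup _ h id
  unfold top
  rw [hy']
  exact hy

theorem le_top {w z j p : ℕ} (h : p ∈ blockSet w z j) : p ≤ top w z j :=
  Finset.le_sup (f := id) h

theorem block_sum_inv (w z j : ℕ) : ∑ p ∈ blockSet w z j, (1 : ℝ) / p ≤ 6 := by
  by_cases h : (blockSet w z j).Nonempty
  · refine le_trans ?_ (sum_inv_le (top w z j))
    apply Finset.sum_le_sum_of_subset_of_nonneg
    · intro p hp
      rw [Finset.mem_filter, mem_primesUpTo]
      exact ⟨⟨(mem_blockSet.mp hp).1.1, le_top hp⟩, block_sq hp (top_mem h)⟩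
    · intro p _ _
      positivity
  · rw [Finset.not_nonempty_iff_eq_empty] at h
    rw [h]
    simp

theorem exp_neg_two_mul_le {x : ℝ} (h0 : 0 ≤ x) (h1 : x ≤ 1 / 2) : Real.exp (-(2 * x)) ≤ 1 - x := by
  rw [Real.exp_neg]
  have h2 : 1 + 2 * x ≤ Real.exp (2 * x) := by
    have := Real.add_one_le_exp (2 * x)
    linarith
  have h3 : 0 < Real.exp (2 * x) := Real.exp_pos _
  rw [inv_le_iff_one_le_mul₀ h3]
  nlinarith

theorem prod_one_sub_ge {Q : Finset ℕ} {g : ℕ → ℝ} (h0 : ∀ p ∈ Q, 0 ≤ g p)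
    (h1 : ∀ p ∈ Q, g p ≤ 1 / 2) :
    Real.exp (-(2 * ∑ p ∈ Q, g p)) ≤ ∏ p ∈ Q, (1 - g p) := by
  rw [Finset.mul_sum, ← Finset.sum_neg_distrib, Real.exp_sum]
  exact Finset.prod_le_prod (fun p _ => (Real.exp_pos _).le)
    fun p hp => exp_neg_two_mul_le (h0 p hp) (h1 p hp)

theorem prod_one_add_le {Q : Finset ℕ} {g : ℕ → ℝ} (h0 : ∀ p ∈ Q, 0 ≤ g p) :
    ∏ p ∈ Q, (1 + g p) ≤ Real.exp (∑ p ∈ Q, g p) := by
  rw [Real.exp_sum]
  refine Finset.prod_le_prod (fun p hp => by linarith [h0 p hp]) fun p _ => ?_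
  have := Real.add_one_le_exp (g p)
  linarith

theorem exp_nat_le (n : ℕ) : Real.exp n ≤ 2 ^ (2 * n) := by
  have h1 : Real.exp (n : ℝ) = Real.exp 1 ^ n := by
    rw [← Real.exp_nat_mul]
    simp
  rw [h1, pow_mul]
  apply pow_le_pow_left₀ (Real.exp_pos _).le
  have := Real.exp_one_lt_d9
  linarith

section

variable (k z : ℕ) (Ω : (p : ℕ) → Finset (ZMod p))



variable {k z Ω}



/-- The exponents `b_j = 48 k + 2 + 2 j`. -/
def bj (k j : ℕ) : ℕ := 48 * k + 2 + 2 * j

theorem bj_even (k j : ℕ) : Even (bj k j) := ⟨24 * k + 1 + j, by unfold bj; ring⟩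

/-- The relative error of block `j`. -/
noncomputable def epsj (k j : ℕ) : ℝ := Real.exp (24 * k) / 2 ^ (bj k j + 1)

theorem epsj_nonneg (k j : ℕ) : 0 ≤ epsj k j := by
  unfold epsj
  positivity

theorem sum_epsj (k n : ℕ) : ∑ j ∈ Finset.range n, epsj k j ≤ 1 / 2 := by
  have h1 : ∀ j, epsj k j ≤ 1 / 8 * (1 / 2) ^ j := by
    intro j
    unfold epsj bj
    have h2 : Real.exp (24 * k) ≤ 2 ^ (48 * k) := by
      have := exp_nat_le (24 * k)
      push_cast at this
      calc Real.exp (24 * k) ≤ 2 ^ (2 * (24 * k)) := this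
        _ = 2 ^ (48 * k) := by congr 1; ring
    rw [div_le_iff₀ (by positivity)]
    have h3 : (1 : ℝ) / 8 * (1 / 2) ^ j * 2 ^ (48 * k + 2 + 2 * j + 1) = 2 ^ (48 * k) * 2 ^ j := by
      rw [one_div_pow]
      have : (2 : ℝ) ^ (48 * k + 2 + 2 * j + 1) = 2 ^ (48 * k) * 8 * (2 ^ j * 2 ^ j) := by
        rw [show 48 * k + 2 + 2 * j + 1 = 48 * k + 3 + (j + j) by ring, pow_add, pow_add, pow_add]
        norm_num
      rw [this]
      have hj : (2 : ℝ) ^ j ≠ 0 := by positivity
      field_simp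
    rw [h3]
    have h4 : (1 : ℝ) ≤ 2 ^ j := one_le_pow₀ (by norm_num)
    have h5 : (0 : ℝ) < 2 ^ (48 * k) := by positivity
    nlinarith
  calc ∑ j ∈ Finset.range n, epsj k j ≤ ∑ j ∈ Finset.range n, 1 / 8 * (1 / 2 : ℝ) ^ j :=
        Finset.sum_le_sum fun j _ => h1 j
    _ = 1 / 8 * ∑ j ∈ Finset.range n, (1 / 2 : ℝ) ^ j := by rw [Finset.mul_sum]
    _ ≤ 1 / 8 * 2 := by
        apply mul_le_mul_of_nonneg_left (sum_geometric_two_le n) (by norm_num)
    _ ≤ 1 / 2 := by norm_num

theorem sum_aux (B : ℝ) (hB : 0 ≤ B) (n : ℕ) :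
    ∑ j ∈ Finset.range n, (B + 2 * j) / 2 ^ j ≤ 2 * B + 4 := by
  have h : ∀ n : ℕ, ∑ j ∈ Finset.range n, (B + 2 * j) / 2 ^ j
      = 2 * B + 4 - (2 * B + 4 * n + 4) / 2 ^ n := by
    intro n
    induction n with
    | zero => simp
    | succ n ih =>
      rw [Finset.sum_range_succ, ih, pow_succ]
      push_cast
      have : (2 : ℝ) ^ n ≠ 0 := by positivity
      field_simp
      ring
  rw [h n]
  have : 0 ≤ (2 * B + 4 * n + 4) / 2 ^ n := by positivity
  linarith






end

end Pool.Agent.Lib.Sieve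
end

-- from Lib.Sieve.Averages
section

/-!
# Mertens type upper bound and averages of multiplicative functions
-/

namespace Pool.Agent.Lib.Sieve

open Finset

/-- The reciprocal map as a monoid homomorphism. -/
noncomputable def recHom : ℕ →* ℝ :=
  (invMonoidHom : ℝ →* ℝ).comp (Nat.castRingHom ℝ : ℕ →* ℝ)

theorem recHom_apply (m : ℕ) : recHom m = (m : ℝ)⁻¹ := rfl

/-- `∏_{p ≤ z} (1 - 1/p) ≤ 1 / log z`. -/
theorem prod_one_sub_inv_le (z : ℕ) (hz : 2 ≤ z) :
    ∏ p ∈ primesUpTo z, (1 - 1 / (p : ℝ)) ≤ 1 / Real.log z := by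
  have hz' : (2 : ℝ) ≤ z := by exact_mod_cast hz
  have hlog : 0 < Real.log z := Real.log_pos (by linarith)
  have hnorm : ∀ {p : ℕ}, p.Prime → ‖recHom p‖ < 1 := by
    intro p hp
    rw [recHom_apply, norm_inv, Real.norm_natCast]
    apply inv_lt_one_of_one_lt₀
    exact_mod_cast hp.one_lt
  have h1 := EulerProduct.summable_and_hasSum_smoothNumbers_prod_primesBelow_geometric
    (f := recHom) hnorm (z + 1)
  obtain ⟨hsum, hhas⟩ := h1
  have h2 : ∏ p ∈ (z + 1).primesBelow, (1 - recHom p)⁻¹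
      = (∏ p ∈ primesUpTo z, (1 - 1 / (p : ℝ)))⁻¹ := by
    rw [← Finset.prod_inv_distrib]
    refine Finset.prod_congr rfl fun p _ => ?_
    rw [recHom_apply, one_div]
  rw [h2] at hhas
  -- the sum over `1 ≤ m ≤ z`
  have h3 : ∑ m ∈ Finset.Icc 1 z, ((m : ℝ)⁻¹)
      ≤ (∏ p ∈ primesUpTo z, (1 - 1 / (p : ℝ)))⁻¹ := by
    let s : Finset (Nat.smoothNumbers (z + 1)) :=
      (Finset.Icc 1 z).attach.map ⟨fun m => ⟨m.1, by
        have hm := Finset.mem_Icc.mp m.2
        exact Nat.mem_smoothNumbers_of_lt (by omega) (by omega)⟩, fun a b hab => by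
        apply Subtype.ext
        exact congrArg (fun x => x.1) hab⟩
    have h4 := sum_le_hasSum s (fun i _ => by
      rw [recHom_apply]
      positivity) hhas
    refine le_trans (le_of_eq ?_) h4
    rw [Finset.sum_map]
    simp only [Function.Embedding.coeFn_mk, recHom_apply]
    exact (Finset.sum_attach (Finset.Icc 1 z) fun m => ((m : ℝ)⁻¹)).symm
  have h5 : Real.log z ≤ ∑ m ∈ Finset.Icc 1 z, ((m : ℝ)⁻¹) := by
    have h6 := log_add_one_le_harmonic z
    rw [harmonic_eq_sum_Icc] at h6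
    push_cast at h6
    refine le_trans ?_ h6
    apply Real.log_le_log (by linarith)
    linarith
  have hpos : 0 < ∏ p ∈ primesUpTo z, (1 - 1 / (p : ℝ)) := by
    apply Finset.prod_pos
    intro p hp
    have hp1 : (1 : ℝ) < p := by exact_mod_cast (mem_primesUpTo.mp hp).1.one_lt
    rw [sub_pos, div_lt_one (by linarith)]
    exact hp1
  have h7 : Real.log z ≤ (∏ p ∈ primesUpTo z, (1 - 1 / (p : ℝ)))⁻¹ := h5.trans h3
  rw [le_div_iff₀ hlog]
  have h8 := mul_le_mul_of_nonneg_left h7 hpos.le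
  rwa [mul_inv_cancel₀ hpos.ne'] at h8

/-- Average of a product over the prime factors. -/
theorem sum_prod_primeFactors_le (h : ℕ → ℝ) (h0 : ∀ p, 0 ≤ h p) (N : ℕ) :
    ∑ m ∈ Finset.Icc 1 N, ∏ p ∈ m.primeFactors, (1 + h p)
      ≤ N * ∏ p ∈ primesUpTo N, (1 + h p / p) := by
  have hD0 : ∀ D : Finset ℕ, 0 ≤ ∏ p ∈ D, h p := fun D => Finset.prod_nonneg fun p _ => h0 p
  have h1 : ∀ m ∈ Finset.Icc 1 N, ∏ p ∈ m.primeFactors, (1 + h p)
      ≤ ∑ D ∈ (primesUpTo N).powerset, if (∏ p ∈ D, p) ∣ m then ∏ p ∈ D, h p else 0 := by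
    intro m hm
    rw [Finset.mem_Icc] at hm
    rw [Finset.prod_one_add, ← Finset.sum_filter]
    apply Finset.sum_le_sum_of_subset_of_nonneg
    · intro D hD
      rw [Finset.mem_powerset] at hD
      rw [Finset.mem_filter, Finset.mem_powerset]
      refine ⟨fun p hp => ?_, ?_⟩
      · have hpm := Nat.mem_primeFactors.mp (hD hp)
        rw [mem_primesUpTo]
        exact ⟨hpm.1, (Nat.le_of_dvd (by omega) hpm.2.1).trans hm.2⟩
      · exact (Finset.prod_dvd_prod_of_subset _ _ _ hD).trans (Nat.prod_primeFactors_dvd m)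
    · intro D _ _
      exact hD0 D
  refine (Finset.sum_le_sum h1).trans ?_
  rw [Finset.sum_comm, Finset.prod_one_add, Finset.mul_sum]
  refine Finset.sum_le_sum fun D hD => ?_
  rw [Finset.mem_powerset] at hD
  rw [← Finset.sum_filter, Finset.sum_const, nsmul_eq_mul]
  set d := ∏ p ∈ D, p with hd
  have hdpos : 0 < d := Finset.prod_pos fun p hp => (mem_primesUpTo.mp (hD hp)).1.pos
  have hcard : (((Finset.Icc 1 N).filter (fun m => d ∣ m)).card : ℝ) ≤ N / d := by
    have h2 : ((Finset.Icc 1 N).filter (fun m => d ∣ m)).card = N / d := by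
      have := Nat.Ioc_filter_dvd_card_eq_div N d
      rw [← this]
      congr 1
    rw [h2]
    exact Nat.cast_div_le
  rw [Finset.prod_div_distrib]
  have hdr : (∏ p ∈ D, (p : ℝ)) = d := by
    rw [hd]
    push_cast
    rfl
  rw [hdr]
  calc (((Finset.Icc 1 N).filter (fun m => d ∣ m)).card : ℝ) * ∏ p ∈ D, h p
      ≤ (N / d) * ∏ p ∈ D, h p := mul_le_mul_of_nonneg_right hcard (hD0 D)
    _ = N * ((∏ p ∈ D, h p) / d) := by ring


end Pool.Agent.Lib.Sieve
end

-- from Lib.GoldbachGraph.Codegree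
section

/-!
# Upper bound for codegrees in the Goldbach graph

Vertices are written `x` for the even number `2 x`; two distinct vertices `x, u` are adjacent
when `x + u` and `|x - u|` are odd primes.
-/

namespace Pool.Agent.Lib.GoldbachGraph

open Finset Pool.Agent.Lib.Sieve

/-- Halved adjacency: `x + u` and `|x - u|` are odd primes. -/
def hadj (x u : ℕ) : Prop :=
  (x + u).Prime ∧ Odd (x + u) ∧ (Nat.dist x u).Prime ∧ Odd (Nat.dist x u)

instance (x u : ℕ) : Decidable (hadj x u) := by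
  unfold hadj
  infer_instance

theorem hadj_comm (x u : ℕ) : hadj x u ↔ hadj u x := by
  unfold hadj
  rw [add_comm x u, Nat.dist_comm x u]


/-- The weight `(1 - 1/p)^{-4}` for `p > 10`, and `1` otherwise. -/
noncomputable def g4 (p : ℕ) : ℝ := if 10 < p then ((1 - 1 / (p : ℝ)) ^ 4)⁻¹ else 1


/-- `G m = ∏_{p ∣ m, p > 10} (1 - 1/p)^{-4}`. -/
noncomputable def G (m : ℕ) : ℝ := ∏ p ∈ m.primeFactors, g4 p









end Pool.Agent.Lib.GoldbachGraph
end

-- from Lib.GoldbachGraph.Moments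
section

/-!
# Moments of codegrees in the Goldbach graph
-/

namespace Pool.Agent.Lib.GoldbachGraph

open Finset Filter Pool.Agent.Lib.Sieve



/-- The constant bounding the average of `G ^ 8`. -/
noncomputable def CG : ℝ := Real.exp (64 * Real.exp 6 * ∑' n : ℕ, 1 / (n : ℝ) ^ 2)




/-- `S N = ∑_{m ≤ N} G m ^ 8`. -/
noncomputable def SG (N : ℕ) : ℝ := ∑ m ∈ Finset.range (N + 1), G m ^ 8








/-- The constant of the second moment. -/
noncomputable def C2 : ℝ := 1 + (1875 * 1636 ^ 4 + 1) ^ 2 * (6 * (1 + CG))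



end Pool.Agent.Lib.GoldbachGraph
end

-- from Lib.GoldbachGraph.Proportion
section

/-!
# A positive proportion of pairs have a common neighbour
-/

namespace Pool.Agent.Lib.GoldbachGraph

open Finset Filter Pool.Agent.Lib.Sieve

/-- Degree inside `[1, n]`. -/
def hdeg (n x : ℕ) : ℕ := ((Finset.Icc 1 n).filter fun u => hadj x u).card










/-- The proportion of good pairs. -/
noncomputable def c0 : ℝ := 1 / (1024 ^ 2 * C2)




end Pool.Agent.Lib.GoldbachGraph
end

-- from Lib.Helper57.Mertens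
section

/-!
# Mertens-type upper bounds
-/

namespace Pool.Agent.Lib.Helper57

open Finset Pool.Agent.Lib.Sieve

/-- Partial sums of `log p / p`. -/
noncomputable def SL (n : ℕ) : ℝ := ∑ p ∈ primesUpTo n, Real.log p / p

lemma primesUpTo_succ (n : ℕ) :
    primesUpTo (n + 1) = if (n + 1).Prime then insert (n + 1) (primesUpTo n) else primesUpTo n := by
  unfold primesUpTo
  rw [Finset.range_add_one, Finset.filter_insert]

lemma sum_primesUpTo_succ (n : ℕ) (f : ℕ → ℝ) :
    ∑ p ∈ primesUpTo (n + 1), f p =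
      ∑ p ∈ primesUpTo n, f p + if (n + 1).Prime then f (n + 1) else 0 := by
  rw [primesUpTo_succ]
  split_ifs with h
  · rw [Finset.sum_insert, add_comm]
    rw [mem_primesUpTo]; omega
  · simp

lemma primesUpTo_one : primesUpTo 1 = ∅ := by
  ext p; rw [mem_primesUpTo]; constructor
  · rintro ⟨h1, h2⟩; have := h1.two_le; omega
  · intro h; simp at h

/-- Abel summation. -/
lemma sum_inv_eq (n : ℕ) (hn : 2 ≤ n) :
    ∑ p ∈ primesUpTo n, (1 : ℝ) / p = SL n / Real.log n +
      ∑ m ∈ Finset.Ico 2 n, SL m * (1 / Real.log m - 1 / Real.log (m + 1 : ℕ)) := by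
  induction n, hn using Nat.le_induction with
  | base =>
    have h1 := sum_primesUpTo_succ 1 (fun p => (1 : ℝ) / p)
    have h2 := sum_primesUpTo_succ 1 (fun p => Real.log p / p)
    rw [primesUpTo_one] at h1 h2
    norm_num at h1 h2
    unfold SL
    rw [h2]
    have h3 : Real.log 2 ≠ 0 := (Real.log_pos (by norm_num)).ne'
    simp only [Finset.Ico_self, Finset.sum_empty, add_zero]
    simp only [one_div]
    rw [h1]
    push_cast
    field_simp
  | succ n hn ih =>
    rw [sum_primesUpTo_succ, Finset.sum_Ico_succ_top hn, ih]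
    have h2 : SL (n + 1) = SL n + if (n + 1).Prime then Real.log (n + 1 : ℕ) / (n + 1 : ℕ) else 0 := by
      unfold SL
      rw [sum_primesUpTo_succ n (fun p => Real.log p / p)]
    rw [h2]
    have h3 : Real.log (n + 1 : ℕ) ≠ 0 := by
      apply (Real.log_pos _).ne'
      have : (2 : ℝ) ≤ n := by exact_mod_cast hn
      push_cast; linarith
    have h4 : Real.log (n : ℕ) ≠ 0 := by
      apply (Real.log_pos _).ne'
      have : (2 : ℝ) ≤ n := by exact_mod_cast hn
      linarith
    split_ifs with hp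
    · field_simp
      ring
    · field_simp
      ring

/-- `∑_{p ≤ n} 1/p ≤ log log n + 4`. -/
lemma sum_inv_primes_le (n : ℕ) (hn : 2 ≤ n) :
    ∑ p ∈ primesUpTo n, (1 : ℝ) / p ≤ Real.log (Real.log n) + 4 := by
  rw [sum_inv_eq n hn]
  have hn' : (2 : ℝ) ≤ n := by exact_mod_cast hn
  have hlog2 : 0 < Real.log 2 := Real.log_pos (by norm_num)
  have hlogn : 0 < Real.log n := Real.log_pos (by linarith)
  have h0 : SL n / Real.log n ≤ 1 + Real.log 4 / Real.log n := by
    rw [div_le_iff₀ hlogn]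
    have := sum_log_div_le n (by omega)
    unfold SL
    field_simp
    linarith
  have h1 : ∀ m ∈ Finset.Ico 2 n, SL m * (1 / Real.log m - 1 / Real.log (m + 1 : ℕ)) ≤
      (Real.log (Real.log (m + 1 : ℕ)) - Real.log (Real.log m)) +
        Real.log 4 * (1 / Real.log m - 1 / Real.log (m + 1 : ℕ)) := by
    intro m hm
    rw [Finset.mem_Ico] at hm
    have hm' : (2 : ℝ) ≤ m := by exact_mod_cast hm.1
    have hlm : 0 < Real.log m := Real.log_pos (by linarith)
    have hlm1 : Real.log m < Real.log (m + 1 : ℕ) := by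
      apply Real.log_lt_log (by linarith)
      push_cast; linarith
    have hlm2 : 0 < Real.log (m + 1 : ℕ) := hlm.trans hlm1
    have h2 : 0 ≤ 1 / Real.log m - 1 / Real.log (m + 1 : ℕ) := by
      rw [sub_nonneg]
      exact one_div_le_one_div_of_le hlm hlm1.le
    have h3 : SL m ≤ Real.log m + Real.log 4 := sum_log_div_le m (by omega)
    calc SL m * (1 / Real.log m - 1 / Real.log (m + 1 : ℕ))
        ≤ (Real.log m + Real.log 4) * (1 / Real.log m - 1 / Real.log (m + 1 : ℕ)) :=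
          mul_le_mul_of_nonneg_right h3 h2
      _ = (1 - Real.log m / Real.log (m + 1 : ℕ)) +
          Real.log 4 * (1 / Real.log m - 1 / Real.log (m + 1 : ℕ)) := by
          field_simp
      _ ≤ _ := by
          have h5 := Real.one_sub_inv_le_log_of_pos (x := Real.log (m + 1 : ℕ) / Real.log m)
            (by positivity)
          rw [Real.log_div hlm2.ne' hlm.ne', inv_div] at h5
          linarith
  have h2 := Finset.sum_le_sum h1
  rw [Finset.sum_add_distrib, ← Finset.mul_sum] at h2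
  have h3 : ∀ f : ℕ → ℝ, ∑ m ∈ Finset.Ico 2 n, (f (m + 1) - f m) = f n - f 2 := by
    intro f
    exact Finset.sum_Ico_sub f hn
  have h4 := h3 (fun m => Real.log (Real.log m))
  have h5 := h3 (fun m => -(1 / Real.log m))
  have h6 : ∑ m ∈ Finset.Ico 2 n, (1 / Real.log m - 1 / Real.log (m + 1 : ℕ)) =
      1 / Real.log 2 - 1 / Real.log n := by
    rw [← sub_eq_zero]
    have : ∑ m ∈ Finset.Ico 2 n, (1 / Real.log m - 1 / Real.log (m + 1 : ℕ)) =
      ∑ m ∈ Finset.Ico 2 n, (-(1 / Real.log (m + 1 : ℕ)) - -(1 / Real.log m)) := by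
      apply Finset.sum_congr rfl
      intro m _
      ring
    rw [this, h5]
    push_cast
    ring
  rw [h4, h6] at h2
  have h7 : Real.log 4 = 2 * Real.log 2 := by
    rw [show (4 : ℝ) = 2 ^ 2 by norm_num, Real.log_pow]; push_cast; ring
  have h8 : Real.log 4 * (1 / Real.log 2 - 1 / Real.log n) = 2 - Real.log 4 / Real.log n := by
    rw [h7]; field_simp
  rw [h8] at h2
  -- `- log log 2 ≤ 1/2`
  have h9 : -(1 : ℝ) ≤ Real.log (Real.log 2) := by
    rw [Real.le_log_iff_exp_le hlog2]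
    have h10 := Real.exp_neg_one_lt_d9
    have h11 := Real.log_two_gt_d9
    linarith
  push_cast at h2 ⊢
  have h2' : ∑ m ∈ Finset.Ico 2 n, SL m * (1 / Real.log m - 1 / Real.log (m + 1)) ≤
      (Real.log (Real.log n) - Real.log (Real.log 2)) + (2 - Real.log 4 / Real.log n) := h2
  linarith

lemma neg_log_one_sub_le {t : ℝ} (h0 : 0 ≤ t) (h1 : t ≤ 1 / 2) :
    -Real.log (1 - t) ≤ t + 2 * t ^ 2 := by
  have _ := h0
  have h2 : 0 < 1 - t := by linarith
  rw [← Real.log_inv]
  have h3 := Real.log_le_sub_one_of_pos (inv_pos.mpr h2)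
  refine h3.trans ?_
  rw [show (1 - t)⁻¹ - 1 = t / (1 - t) by field_simp; ring]
  rw [div_le_iff₀ h2]
  nlinarith [mul_nonneg h0 h0, mul_nonneg (mul_nonneg h0 h0) h0]

lemma sum_inv_sq_primes_le (S : Finset ℕ) (m : ℕ) (hm : 1 ≤ m) (hS : ∀ p ∈ S, m < p) :
    ∑ p ∈ S, (1 : ℝ) / (p : ℝ) ^ 2 ≤ 1 / m := by
  obtain ⟨N, hN⟩ : ∃ N, ∀ p ∈ S, p ≤ N := ⟨S.sup id, fun p hp => Finset.le_sup (f := id) hp⟩
  have h1 : ∀ n : ℕ, m ≤ n → ∑ p ∈ Finset.Ioc m n, (1 : ℝ) / (p : ℝ) ^ 2 ≤ 1 / m - 1 / n := by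
    intro n hn
    induction n, hn using Nat.le_induction with
    | base => simp
    | succ n hn ih =>
      rw [← Finset.insert_Ioc_right_eq_Ioc_add_one (by omega), Finset.sum_insert (by simp)]
      have hn' : (0 : ℝ) < n := by
        have : 1 ≤ n := hm.trans hn
        exact_mod_cast this
      have h3 : (1 : ℝ) / ((n + 1 : ℕ) : ℝ) ^ 2 ≤ 1 / n - 1 / (n + 1 : ℕ) := by
        push_cast
        rw [div_sub_div _ _ hn'.ne' (by positivity), div_le_div_iff₀ (by positivity) (by positivity)]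
        nlinarith
      linarith
  rcases le_or_gt m N with h | h
  · calc ∑ p ∈ S, (1 : ℝ) / (p : ℝ) ^ 2 ≤ ∑ p ∈ Finset.Ioc m N, (1 : ℝ) / (p : ℝ) ^ 2 := by
          apply Finset.sum_le_sum_of_subset_of_nonneg
          · intro p hp
            rw [Finset.mem_Ioc]
            exact ⟨hS p hp, hN p hp⟩
          · intro p _ _
            positivity
      _ ≤ 1 / m - 1 / N := h1 N h
      _ ≤ 1 / m := by
          have : (0 : ℝ) ≤ 1 / N := by positivity
          linarith
  · have : S = ∅ := by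
      rw [Finset.eq_empty_iff_forall_notMem]
      intro p hp
      have := hS p hp
      have := hN p hp
      omega
    rw [this]
    simp

/-- `∏_{p ≤ n} (1 - 1/p)⁻¹ ≤ 500 log n`. -/
lemma prod_one_sub_inv_inv_le (n : ℕ) (hn : 2 ≤ n) :
    ∏ p ∈ primesUpTo n, (1 - 1 / (p : ℝ))⁻¹ ≤ 500 * Real.log n := by
  have hn' : (2 : ℝ) ≤ n := by exact_mod_cast hn
  have hlogn : 0 < Real.log n := Real.log_pos (by linarith)
  have h1 : ∀ p ∈ primesUpTo n, (1 - 1 / (p : ℝ))⁻¹ ≤
      Real.exp (1 / p + 2 * (1 / (p : ℝ) ^ 2)) := by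
    intro p hp
    have hp2 : (2 : ℝ) ≤ p := by exact_mod_cast (mem_primesUpTo.mp hp).1.two_le
    have h2 : (1 : ℝ) / p ≤ 1 / 2 := one_div_le_one_div_of_le (by norm_num) hp2
    have h3 := neg_log_one_sub_le (t := 1 / (p : ℝ)) (by positivity) h2
    have h4 : 0 < 1 - 1 / (p : ℝ) := by linarith
    rw [← Real.log_le_iff_le_exp (inv_pos.mpr h4), Real.log_inv]
    calc _ ≤ _ := h3
      _ = _ := by ring
  calc ∏ p ∈ primesUpTo n, (1 - 1 / (p : ℝ))⁻¹
      ≤ ∏ p ∈ primesUpTo n, Real.exp (1 / p + 2 * (1 / (p : ℝ) ^ 2)) := by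
        apply Finset.prod_le_prod
        · intro p hp
          have hp2 : (2 : ℝ) ≤ p := by exact_mod_cast (mem_primesUpTo.mp hp).1.two_le
          have h2 : (1 : ℝ) / p ≤ 1 / 2 := one_div_le_one_div_of_le (by norm_num) hp2
          have h4 : 0 < 1 - 1 / (p : ℝ) := by linarith
          exact (inv_pos.mpr h4).le
        · exact h1
    _ = Real.exp (∑ p ∈ primesUpTo n, (1 : ℝ) / p + 2 * ∑ p ∈ primesUpTo n, 1 / (p : ℝ) ^ 2) := by
        rw [← Real.exp_sum, Finset.sum_add_distrib, ← Finset.mul_sum]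
    _ ≤ Real.exp (Real.log (Real.log n) + 6) := by
        apply Real.exp_le_exp.mpr
        have h5 := sum_inv_primes_le n hn
        have h6 := sum_inv_sq_primes_le (primesUpTo n) 1 le_rfl
          (fun p hp => (mem_primesUpTo.mp hp).1.one_lt)
        norm_num at h6 ⊢
        norm_num at h5
        linarith
    _ = Real.exp 6 * Real.log n := by
        rw [Real.exp_add, Real.exp_log hlogn]; ring
    _ ≤ 500 * Real.log n := by
        apply mul_le_mul_of_nonneg_right _ hlogn.le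
        have h7 : Real.exp 1 ≤ 2.7183 := by linarith [Real.exp_one_lt_d9]
        have h8 : Real.exp 6 = Real.exp 1 ^ 6 := by rw [← Real.exp_nat_mul]; norm_num
        rw [h8]
        calc Real.exp 1 ^ 6 ≤ 2.7183 ^ 6 := pow_le_pow_left₀ (Real.exp_pos 1).le h7 6
          _ ≤ 500 := by norm_num

end Pool.Agent.Lib.Helper57
end

-- from Lib.H18Q.T1
section

/-!
# Project H18Q, chunk T1: a product of distances is not small everywhere
-/

open Finset

namespace Pool.Agent.Lib.H18Q

/-- For real numbers `d i`, `i ∈ S`, some `t ∈ [1/2, 1]` has `∏ |t - d i| ≥ 16^(-#S)`.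

Proof 1 (Lagrange). Let `n = #S ≥ 1` (`n = 0`: `t = 1`), `P = ∏ (X - C (d i))`, monic of degree
`n`, nodes `x_j = 1/2 + j/(2n)`, `j = 0, …, n`. Lagrange interpolation at the `n+1` nodes and the
coefficient of `X^n` (`Lagrange.sum_basis`, or Mathlib's statement that the leading coefficient is
the divided difference) give `1 = ∑_j P(x_j) / ∏_{i ≠ j} (x_j - x_i)`, and
`∏_{i ≠ j} |x_j - x_i| = j! (n-j)! / (2n)^n`. If `|P(x_j)| < 16^(-n)` for all `j`, then
`1 < 16^(-n) (2n)^n ∑_j 1/(j! (n-j)!) = 16^(-n) (2n)^n 2^n / n! = (n^n / n!) 4^(-n) ≤ (e/4)^n < 1`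
(`n^n ≤ e^n n!`, as `e^n = ∑ n^k/k!`), a contradiction.

Proof 2 (average of logarithms). `∫_{1/2}^{1} log |t - d| dt ≥ ∫_{-1/4}^{1/4} log |x| dx =
-(1 + log 4)/2` for every real `d` (rearrangement), so the average over `[1/2, 1]` of
`∑ log |t - d i|` is at least `-n (1 + log 4) ≥ -n log 16`. Any proof is welcome. -/
theorem T1_far {ι : Type*} (S : Finset ι) (d : ι → ℝ) :
    ∃ t ∈ Set.Icc (1 / 2 : ℝ) 1, (1 / 16 : ℝ) ^ S.card ≤ ∏ i ∈ S, |t - d i| := by
  by_contra hcon
  push Not at hcon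
  set n := S.card with hn
  have hq : ∀ u ∈ Set.Icc (-1 : ℝ) 1, |∏ i ∈ S, (4 * u + 12 - 16 * d i)| ≤ 1 := by
    intro u hu
    have h1 := hcon (3 / 4 + u / 4) ⟨by linarith [hu.1], by linarith [hu.2]⟩
    have h2 : ∏ i ∈ S, (4 * u + 12 - 16 * d i) = 16 ^ n * ∏ i ∈ S, (3 / 4 + u / 4 - d i) := by
      rw [hn, ← Finset.prod_const, ← Finset.prod_mul_distrib]
      exact Finset.prod_congr rfl fun i _ => by ring
    rw [h2, abs_mul, Finset.abs_prod, abs_of_pos (by positivity : (0 : ℝ) < 16 ^ n)]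
    have h3 : (16 : ℝ) ^ n * (1 / 16) ^ n = 1 := by
      rw [← mul_pow]
      norm_num
    nlinarith [mul_lt_mul_of_pos_left h1 (by positivity : (0 : ℝ) < 16 ^ n)]
  set P : Polynomial ℝ := ∏ i ∈ S, (Polynomial.C 4 * Polynomial.X + Polynomial.C (12 - 16 * d i)) with hP
  have hdeg1 : ∀ i, (Polynomial.C (4 : ℝ) * Polynomial.X + Polynomial.C (12 - 16 * d i)).natDegree = 1 := by
    intro i
    exact Polynomial.natDegree_linear (by norm_num)
  have hlc1 : ∀ i, (Polynomial.C (4 : ℝ) * Polynomial.X + Polynomial.C (12 - 16 * d i)).leadingCoeff = 4 := by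
    intro i
    exact Polynomial.leadingCoeff_linear (by norm_num)
  have hPlc : P.leadingCoeff = 4 ^ n := by
    rw [hP, Polynomial.leadingCoeff_prod, Finset.prod_congr rfl fun i _ => hlc1 i, Finset.prod_const]
  have hPd : P.natDegree = n := by
    rw [hP, Polynomial.natDegree_prod _ _ fun i _ h0 => by
      have := hlc1 i
      rw [h0, Polynomial.leadingCoeff_zero] at this
      norm_num at this, Finset.sum_congr rfl fun i _ => hdeg1 i, Finset.sum_const]
    simp [hn]
  have hP0 : P ≠ 0 := by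
    intro h0
    rw [h0, Polynomial.leadingCoeff_zero] at hPlc
    exact absurd hPlc.symm (by positivity)
  have heval : ∀ u, P.eval u = ∏ i ∈ S, (4 * u + 12 - 16 * d i) := by
    intro u
    rw [hP, Polynomial.eval_prod]
    refine Finset.prod_congr rfl fun i _ => ?_
    simp
    ring
  have hdegree : P.degree = n := by
    rw [Polynomial.degree_eq_natDegree hP0, hPd]
  rcases Nat.eq_zero_or_pos n with h0 | h0
  · have h1 := hcon 1 ⟨by norm_num, le_refl _⟩
    rw [h0, pow_zero] at h1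
    have h2 : S = ∅ := Finset.card_eq_zero.1 (hn.symm.trans h0)
    rw [h2, Finset.prod_empty] at h1
    exact lt_irrefl _ h1
  · have h1 := Polynomial.Chebyshev.leadingCoeff_le_of_forall_abs_le_one (P := P) (n := n) (by rw [hdegree])
      (fun u hu => by rw [heval]; exact hq u hu)
    rw [hPlc] at h1
    have h2 : (2 : ℝ) ^ (n - 1) < 4 ^ n := by
      calc (2 : ℝ) ^ (n - 1) ≤ 2 ^ n := pow_le_pow_right₀ (by norm_num) (by omega)
        _ < 4 ^ n := pow_lt_pow_left₀ (by norm_num) (by norm_num) (by omega)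
    linarith

end Pool.Agent.Lib.H18Q
end

-- from Lib.H18Q.T2
section

/-!
# Project H18Q, chunk T2: the polynomial of the power sum method
-/

open Finset

namespace Pool.Agent.Lib.H18Q

open Polynomial in
theorem T2_D {ι : Type*} [DecidableEq ι] (z : ι → ℂ) (S : Finset ι) (hz : ∀ i ∈ S, ‖z i‖ ≤ 1) :
    ∀ a, ‖(∏ j ∈ S, (1 - C (z j) * X) : ℂ[X]).coeff a‖ ≤ (S.card.choose a : ℝ) := by
  induction S using Finset.induction_on with
  | empty =>
    intro a
    rw [prod_empty, card_empty, coeff_one]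
    rcases Nat.eq_zero_or_pos a with rfl | ha
    · simp
    · rw [if_neg ha.ne', norm_zero]
      positivity
  | insert i S hi ih =>
    intro a
    have ih' := ih fun j hj => hz j (mem_insert_of_mem hj)
    have e : (∏ j ∈ insert i S, (1 - C (z j) * X) : ℂ[X]) =
        (∏ j ∈ S, (1 - C (z j) * X)) - C (z i) * ((∏ j ∈ S, (1 - C (z j) * X)) * X) := by
      rw [prod_insert hi]
      ring
    rw [e, coeff_sub, coeff_C_mul, card_insert_of_notMem hi]
    rcases a with _ | a
    · rw [coeff_mul_X_zero, mul_zero, sub_zero]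
      have := ih' 0
      simpa using this
    · rw [coeff_mul_X, Nat.choose_succ_succ]
      have h1 := ih' a
      have h2 := ih' (a + 1)
      have h3 : ‖z i * (∏ j ∈ S, (1 - C (z j) * X) : ℂ[X]).coeff a‖ ≤ (S.card.choose a : ℝ) := by
        rw [norm_mul]
        calc ‖z i‖ * ‖(∏ j ∈ S, (1 - C (z j) * X) : ℂ[X]).coeff a‖
            ≤ 1 * ‖(∏ j ∈ S, (1 - C (z j) * X) : ℂ[X]).coeff a‖ :=
              mul_le_mul_of_nonneg_right (hz i (mem_insert_self _ _)) (norm_nonneg _)
          _ ≤ _ := by rw [one_mul]; exact h1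
      push_cast
      calc _ ≤ ‖(∏ j ∈ S, (1 - C (z j) * X) : ℂ[X]).coeff (a + 1)‖ +
            ‖z i * (∏ j ∈ S, (1 - C (z j) * X) : ℂ[X]).coeff a‖ := norm_sub_le _ _
        _ ≤ _ := by linarith

open Polynomial in
theorem T2_coeff {D P : ℂ[X]} {z : ℂ} (h : P * (1 - C z * X) = D) (l : ℕ) :
    P.coeff l = ∑ a ∈ range (l + 1), D.coeff a * z ^ (l - a) := by
  have e : D = P - C z * (P * X) := by
    rw [← h]
    ring
  induction l with
  | zero =>
    rw [sum_range_one, e, coeff_sub, coeff_C_mul, coeff_mul_X_zero]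
    simp
  | succ l ih =>
    rw [sum_range_succ]
    have h1 : ∑ a ∈ range (l + 1), D.coeff a * z ^ (l + 1 - a) = z * P.coeff l := by
      rw [ih, mul_sum]
      refine sum_congr rfl fun a ha => ?_
      have h2 : l + 1 - a = (l - a) + 1 := by
        have := mem_range.1 ha
        omega
      rw [h2, pow_succ]
      ring
    rw [h1, Nat.sub_self, pow_zero, mul_one]
    have h3 : D.coeff (l + 1) = P.coeff (l + 1) - z * P.coeff l := by
      conv_lhs => rw [e]
      rw [coeff_sub, coeff_C_mul, coeff_mul_X]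
    rw [h3]
    ring

/-- Let `p_k = ∑_i m_i z_i^k`, `|z_i| ≤ 1`, `n = #S`, and `|p_k| ≤ M` for `K ≤ k < K + n`. Then
`P(w) = ∑_i m_i z_i^K ∏_{j ≠ i} (1 - z_j w)` has `|P(w)| ≤ 8^n M` for `|w| ≤ 4`.

Proof. Put `D = ∏_{j ∈ S} (1 - C (z_j) X) = ∑_a D_a X^a` (polynomials); `|D_a| ≤ binom n a` by
induction on `S` (`D_a` of `S ∪ {j}` is `D_a - z_j D_{a-1}`). For `i ∈ S` put
`P_i = ∏_{j ∈ S.erase i} (1 - C (z_j) X)`, of degree `≤ n - 1`, `P_i (1 - C (z_i) X) = D`, so the
coefficients satisfy `(P_i)_l = D_l + z_i (P_i)_(l-1)`, by induction `(P_i)_l = ∑_{a ≤ l} D_a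
z_i^(l-a)`. So the coefficient of `X^l` in `P = ∑_i m_i z_i^K P_i`, `l ≤ n - 1`, is
`∑_{a ≤ l} D_a p_(K+l-a)`, of absolute value at most `2^n M` (`K ≤ K + l - a < K + n`,
`∑_a binom n a ≤ 2^n`), and `|P(w)| ≤ 2^n M ∑_{l < n} 4^l ≤ 2^n M 4^n`. (`M ≥ 0` follows from the
hypothesis if `n ≥ 1`; for `n = 0` the left side is `0` and `hM0` is used.) -/
theorem T2_poly {ι : Type*} [DecidableEq ι] (S : Finset ι) (m : ι → ℕ) (z : ι → ℂ)
    (hz : ∀ i ∈ S, ‖z i‖ ≤ 1) (K : ℕ) (M : ℝ) (hM0 : 0 ≤ M)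
    (hM : ∀ k, K ≤ k → k < K + S.card → ‖∑ i ∈ S, (m i : ℂ) * z i ^ k‖ ≤ M) (w : ℂ)
    (hw : ‖w‖ ≤ 4) :
    ‖∑ i ∈ S, (m i : ℂ) * z i ^ K * ∏ j ∈ S.erase i, (1 - z j * w)‖ ≤ 8 ^ S.card * M := by
  open Polynomial in
  rcases S.eq_empty_or_nonempty with rfl | hne
  · simp [hM0]
  have hn : 1 ≤ S.card := hne.card_pos
  let Pi : ι → Polynomial ℂ := fun i => ∏ j ∈ S.erase i, (1 - Polynomial.C (z j) * Polynomial.X)
  obtain ⟨P, hP⟩ : ∃ P : Polynomial ℂ, P = ∑ i ∈ S, Polynomial.C ((m i : ℂ) * z i ^ K) * Pi i := ⟨_, rfl⟩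
  obtain ⟨D, hD⟩ : ∃ D : Polynomial ℂ, D = ∏ j ∈ S, (1 - Polynomial.C (z j) * Polynomial.X) := ⟨_, rfl⟩
  have hPD : ∀ i ∈ S, Pi i * (1 - Polynomial.C (z i) * Polynomial.X) = D := by
    intro i hi
    rw [hD, ← mul_prod_erase S _ hi, mul_comm]
  have hev : P.eval w = ∑ i ∈ S, (m i : ℂ) * z i ^ K * ∏ j ∈ S.erase i, (1 - z j * w) := by
    rw [hP, Polynomial.eval_finsetSum]
    refine sum_congr rfl fun i _ => ?_
    rw [Polynomial.eval_mul, Polynomial.eval_C, Polynomial.eval_prod]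
    congr 1
    refine prod_congr rfl fun j _ => ?_
    simp
  have hdeg : P.natDegree < S.card := by
    have h1 : P.natDegree ≤ S.card - 1 := by
      rw [hP]
      refine Polynomial.natDegree_sum_le_of_forall_le _ _ fun i hi => ?_
      refine (Polynomial.natDegree_C_mul_le _ _).trans ?_
      refine (Polynomial.natDegree_prod_le _ _).trans ?_
      refine (sum_le_card_nsmul _ _ 1 fun j _ => ?_).trans ?_
      · compute_degree
      · rw [card_erase_of_mem hi, smul_eq_mul, mul_one]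
    omega
  have hco : ∀ l, P.coeff l = ∑ a ∈ range (l + 1), D.coeff a * ∑ i ∈ S, (m i : ℂ) * z i ^ (K + l - a) := by
    intro l
    rw [hP, Polynomial.finsetSum_coeff]
    have h1 : ∀ i ∈ S, (Polynomial.C ((m i : ℂ) * z i ^ K) * Pi i).coeff l =
        ∑ a ∈ range (l + 1), D.coeff a * ((m i : ℂ) * z i ^ (K + l - a)) := by
      intro i hi
      rw [Polynomial.coeff_C_mul, T2_coeff (hPD i hi) l, mul_sum]
      refine sum_congr rfl fun a ha => ?_
      have h2 : K + l - a = K + (l - a) := by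
        have := mem_range.1 ha
        omega
      rw [h2, pow_add]
      ring
    rw [sum_congr rfl h1, sum_comm]
    refine sum_congr rfl fun a _ => ?_
    rw [mul_sum]
  have hbd : ∀ l, l < S.card → ‖P.coeff l‖ ≤ 2 ^ S.card * M := by
    intro l hl
    rw [hco l]
    calc ‖∑ a ∈ range (l + 1), D.coeff a * ∑ i ∈ S, (m i : ℂ) * z i ^ (K + l - a)‖
        ≤ ∑ a ∈ range (l + 1), ‖D.coeff a * ∑ i ∈ S, (m i : ℂ) * z i ^ (K + l - a)‖ := norm_sum_le _ _
      _ ≤ ∑ a ∈ range (l + 1), (S.card.choose a : ℝ) * M := by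
          refine sum_le_sum fun a ha => ?_
          have h1 := mem_range.1 ha
          rw [norm_mul]
          refine mul_le_mul ?_ (hM _ (by omega) (by omega)) (norm_nonneg _) (by positivity)
          rw [hD]
          exact T2_D z S hz a
      _ ≤ ∑ a ∈ range (S.card + 1), (S.card.choose a : ℝ) * M := by
          refine sum_le_sum_of_subset_of_nonneg (range_subset_range.2 (by omega)) fun a _ _ => by positivity
      _ = 2 ^ S.card * M := by
          rw [← sum_mul]
          congr 1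
          have := Nat.sum_range_choose S.card
          exact_mod_cast this
  rw [← hev, Polynomial.eval_eq_sum_range' hdeg]
  calc ‖∑ l ∈ range S.card, P.coeff l * w ^ l‖ ≤ ∑ l ∈ range S.card, ‖P.coeff l * w ^ l‖ := norm_sum_le _ _
    _ ≤ ∑ l ∈ range S.card, 2 ^ S.card * M * 4 ^ l := by
        refine sum_le_sum fun l hl => ?_
        rw [norm_mul, norm_pow]
        exact mul_le_mul (hbd l (mem_range.1 hl)) (pow_le_pow_left₀ (norm_nonneg _) hw l) (by positivity) (by positivity)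
    _ = 2 ^ S.card * M * ∑ l ∈ range S.card, (4 : ℝ) ^ l := by rw [mul_sum]
    _ ≤ 2 ^ S.card * M * 4 ^ S.card := by
        refine mul_le_mul_of_nonneg_left ?_ (by positivity)
        rw [geom_sum_eq (by norm_num)]
        have h4 : (1 : ℝ) ≤ 4 ^ S.card := one_le_pow₀ (by norm_num)
        rw [div_le_iff₀ (by norm_num)]
        linarith
    _ = 8 ^ S.card * M := by
        have h5 : (8 : ℝ) = 2 * 4 := by norm_num
        rw [h5, mul_pow]
        ring

end Pool.Agent.Lib.H18Q
end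

-- from Lib.H18Q.T3
section

/-!
# Project H18Q, chunk T3: power sums (weak form of Turán's theorem)
-/

open Finset

namespace Pool.Agent.Lib.H18Q

/-- One term of the contour integral: a point inside the circle. -/
theorem t3_inside {w0 : ℂ} {t : ℝ} {u : ℂ} (n : ℕ) (hu : ‖u - w0‖ < t) :
    (∮ w in C(w0, t), (w - u)⁻¹ • w ^ n) = (2 * Real.pi * Complex.I : ℂ) • u ^ n := by
  have hd : DifferentiableOn ℂ (fun w : ℂ => w ^ n) (Metric.closedBall w0 t) :=
    (differentiable_pow n).differentiableOn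
  exact hd.circleIntegral_sub_inv_smul (by
    rw [Metric.mem_ball, dist_eq_norm]; exact hu)

/-- One term of the contour integral: a point outside the circle. -/
theorem t3_outside {w0 : ℂ} {t : ℝ} (ht : 0 ≤ t) {u : ℂ} (n : ℕ) (hu : t < ‖u - w0‖) :
    (∮ w in C(w0, t), (w - u)⁻¹ • w ^ n) = 0 := by
  have hd : DifferentiableOn ℂ (fun w : ℂ => (w - u)⁻¹ • w ^ n) (Metric.closedBall w0 t) := by
    intro w hw
    have hne : w - u ≠ 0 := by
      intro h
      rw [sub_eq_zero] at h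
      rw [Metric.mem_closedBall, dist_eq_norm, h] at hw
      linarith
    have h1 : DifferentiableAt ℂ (fun w : ℂ => (w - u)⁻¹ • w ^ n) w := by
      exact DifferentiableAt.fun_smul ((differentiableAt_id.sub_const u).inv hne)
        (differentiableAt_pow n)
    exact h1.differentiableWithinAt
  exact (hd.mono Metric.closure_ball_subset_closedBall).diffContOnCl.circleIntegral_eq_zero ht

/-- The lower bound for the product on the circle. -/
theorem t3_prod {ι : Type*} [DecidableEq ι] (S : Finset ι) (z : ι → ℂ)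
    (w0 : ℂ) (hw0 : ‖w0‖ ≤ 3) (t : ℝ) (ht1 : t ≤ 1)
    (hp : (1 / 16 : ℝ) ^ (S.filter (fun j => (1 / 8 : ℝ) < ‖z j‖)).card ≤
      ∏ j ∈ S.filter (fun j => (1 / 8 : ℝ) < ‖z j‖), |t - ‖(z j)⁻¹ - w0‖|)
    (w : ℂ) (hw : ‖w - w0‖ = t) :
    (1 / 128 : ℝ) ^ S.card ≤ ‖∏ j ∈ S, (1 - z j * w)‖ := by
  have hw4 : ‖w‖ ≤ 4 := by
    calc ‖w‖ = ‖(w - w0) + w0‖ := by ring_nf
      _ ≤ ‖w - w0‖ + ‖w0‖ := norm_add_le _ _
      _ ≤ 4 := by rw [hw]; linarith
  have h2 : ∀ j ∈ S.filter (fun j => (1 / 8 : ℝ) < ‖z j‖),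
      (1 / 8) * |t - ‖(z j)⁻¹ - w0‖| ≤ ‖1 - z j * w‖ := by
    intro j hj
    rw [mem_filter] at hj
    have hz0 : z j ≠ 0 := by
      intro h; rw [h, norm_zero] at hj; linarith [hj.2]
    have e1 : 1 - z j * w = z j * ((z j)⁻¹ - w) := by field_simp
    rw [e1, norm_mul]
    have h3 : |t - ‖(z j)⁻¹ - w0‖| ≤ ‖(z j)⁻¹ - w‖ := by
      have := abs_norm_sub_norm_le (w - w0) ((z j)⁻¹ - w0)
      rw [hw] at this
      refine this.trans (le_of_eq ?_)
      rw [← norm_neg]
      congr 1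
      ring
    exact mul_le_mul hj.2.le h3 (abs_nonneg _) (norm_nonneg _)
  have h3 : ∀ j ∈ S.filter (fun j => ¬ (1 / 8 : ℝ) < ‖z j‖), (1 / 128 : ℝ) ≤ ‖1 - z j * w‖ := by
    intro j hj
    rw [mem_filter, not_lt] at hj
    have h4 : ‖z j * w‖ ≤ 1 / 2 := by
      rw [norm_mul]
      calc ‖z j‖ * ‖w‖ ≤ (1 / 8) * 4 :=
            mul_le_mul hj.2 hw4 (norm_nonneg _) (by norm_num)
        _ = 1 / 2 := by norm_num
    have h5 : (1 : ℝ) - ‖z j * w‖ ≤ ‖1 - z j * w‖ := by
      have := norm_sub_norm_le (1 : ℂ) (z j * w)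
      rwa [norm_one] at this
    linarith
  rw [norm_prod, ← Finset.prod_filter_mul_prod_filter_not S (fun j => (1 / 8 : ℝ) < ‖z j‖),
    ← Finset.card_filter_add_card_filter_not (s := S) (fun j => (1 / 8 : ℝ) < ‖z j‖), pow_add]
  apply mul_le_mul
  · calc (1 / 128 : ℝ) ^ (S.filter (fun j => (1 / 8 : ℝ) < ‖z j‖)).card
        = (1 / 8) ^ (S.filter (fun j => (1 / 8 : ℝ) < ‖z j‖)).card *
          (1 / 16) ^ (S.filter (fun j => (1 / 8 : ℝ) < ‖z j‖)).card := by
          rw [← mul_pow]; norm_num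
      _ ≤ (1 / 8) ^ (S.filter (fun j => (1 / 8 : ℝ) < ‖z j‖)).card *
          ∏ j ∈ S.filter (fun j => (1 / 8 : ℝ) < ‖z j‖), |t - ‖(z j)⁻¹ - w0‖| :=
          mul_le_mul_of_nonneg_left hp (by positivity)
      _ = ∏ j ∈ S.filter (fun j => (1 / 8 : ℝ) < ‖z j‖),
            ((1 / 8) * |t - ‖(z j)⁻¹ - w0‖|) := by
          rw [Finset.prod_mul_distrib, Finset.prod_const]
      _ ≤ _ := Finset.prod_le_prod (fun j _ => by positivity) h2
  · calc (1 / 128 : ℝ) ^ (S.filter (fun j => ¬ (1 / 8 : ℝ) < ‖z j‖)).card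
        = ∏ _j ∈ S.filter (fun j => ¬ (1 / 8 : ℝ) < ‖z j‖), (1 / 128 : ℝ) := by
          rw [Finset.prod_const]
      _ ≤ _ := Finset.prod_le_prod (fun j _ => by norm_num) h3
  · positivity
  · exact Finset.prod_nonneg fun j _ => norm_nonneg _

/-- Let `|z_i| ≤ 1`, `m_i` natural numbers, `i ∈ S`, `#S ≤ K`, and `|z_{i0}| ≥ 1/3`,
`m_{i0} ≥ 1` for one `i0 ∈ S`. Then some power sum `p_k = ∑ m_i z_i^k`, `K ≤ k < 2 K`, has
`|p_k| ≥ 4096^(-K)`.

Proof. Suppose not; put `M = 4096^(-K)`, `n = #S`. Let `w0 = 1/z_{i0}`, `1 ≤ |w0| ≤ 3`. Let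
`S2 = {j ∈ S : |z_j| > 1/8}`, `d_j = |w0 - 1/z_j|` for `j ∈ S2`; take `t ∈ [1/2, 1]` from
`T1_far S2 d`. On the circle `|w - w0| = t` we have `|w| ≤ 4` and
`|1 - z_j w| ≥ 1 - 4/8 = 1/2` for `j ∉ S2`, `|1 - z_j w| = |z_j| |w - 1/z_j| ≥ (1/8) |t - d_j|` for
`j ∈ S2` (`|w - 1/z_j| ≥ | |w - w0| - |w0 - 1/z_j| |`). So `|∏_{j ∈ S} (1 - z_j w)| ≥
8^(-n) 16^(-#S2) ≥ 128^(-n) > 0`; in particular no `1/z_j` is on the circle. Put
`H(w) = ∑_i m_i z_i^K / (1 - z_i w) = P(w) / ∏ (1 - z_j w)`, with `P` of `T2_poly`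
(`K ≤ k < K + n ≤ 2 K`): on the circle `|H(w)| ≤ 8^n M 128^n = 1024^n M ≤ 1024^K M`, and
`|w^(K-1)| ≤ 4^(K-1)`. By Cauchy's formula, for each `i` the circle integral
`(1/2πi) ∮ m_i z_i^K w^(K-1) / (1 - z_i w) dw` is `0` if `z_i = 0` (`K ≥ 1`), and for `z_i ≠ 0`,
since `1/(1 - z_i w) = -(1/z_i) / (w - 1/z_i)`, it is `-m_i z_i^(K-1) (1/z_i)^(K-1) = -m_i` if
`|1/z_i - w0| < t`, and `0` if `|1/z_i - w0| > t` (`Complex.circleIntegral_sub_inv_smul_of_...`,
`circleIntegral_eq_zero_of_differentiable_on_off_countable` or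
`DiffContOnCl.circleIntegral_eq_zero`). The index `i0` has `1/z_{i0} = w0` inside. So the total is
`-∑_{inside} m_i`, of absolute value `≥ m_{i0} ≥ 1`. But it is at most
`t · 1024^K M · 4^(K-1) ≤ 4096^K M / 4 < 1`. Contradiction. -/
theorem turan {ι : Type*} (S : Finset ι) (m : ι → ℕ) (z : ι → ℂ) (K : ℕ) (hK : 1 ≤ K)
    (hc : S.card ≤ K) (hz : ∀ i ∈ S, ‖z i‖ ≤ 1) (i0 : ι) (hi0 : i0 ∈ S) (hm : 1 ≤ m i0)
    (hz0 : 1 / 3 ≤ ‖z i0‖) :
    ∃ k, K ≤ k ∧ k < 2 * K ∧ (1 / 4096 : ℝ) ^ K ≤ ‖∑ i ∈ S, (m i : ℂ) * z i ^ k‖ := by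
  classical
  by_contra hcon
  push Not at hcon
  set M : ℝ := (1 / 4096 : ℝ) ^ K with hMdef
  have hM0 : 0 < M := by positivity
  have hzi0 : z i0 ≠ 0 := by
    intro h; rw [h, norm_zero] at hz0; linarith
  set w0 : ℂ := (z i0)⁻¹ with hw0def
  have hw03 : ‖w0‖ ≤ 3 := by
    rw [hw0def, norm_inv]
    have := inv_anti₀ (by norm_num : (0 : ℝ) < 1 / 3) hz0
    norm_num at this
    exact this
  obtain ⟨t, ⟨ht0, ht1⟩, hprod⟩ := T1_far (S.filter (fun j => (1 / 8 : ℝ) < ‖z j‖))
    (fun j => ‖(z j)⁻¹ - w0‖)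
  have htpos : 0 < t := by linarith
  have hlow : ∀ w : ℂ, ‖w - w0‖ = t → (1 / 128 : ℝ) ^ S.card ≤ ‖∏ j ∈ S, (1 - z j * w)‖ :=
    fun w hw => t3_prod S z w0 hw03 t ht1 hprod w hw
  have hlowpos : ∀ w : ℂ, ‖w - w0‖ = t → ∀ j ∈ S, 1 - z j * w ≠ 0 := by
    intro w hw j hj h0
    have h1 := hlow w hw
    rw [Finset.prod_eq_zero hj h0, norm_zero] at h1
    have : (0 : ℝ) < (1 / 128 : ℝ) ^ S.card := by positivity
    linarith
  have hne : ∀ i ∈ S, z i ≠ 0 → ‖(z i)⁻¹ - w0‖ ≠ t := by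
    intro i hi hzi h
    apply hlowpos _ h i hi
    rw [mul_inv_cancel₀ hzi, sub_self]
  -- the terms
  set F : ι → ℂ → ℂ := fun i w => (m i : ℂ) * z i ^ K * w ^ (K - 1) / (1 - z i * w) with hF
  have hFcont : ∀ i ∈ S, ContinuousOn (F i) (Metric.sphere w0 t) := by
    intro i hi
    apply ContinuousOn.div
    · fun_prop
    · fun_prop
    · intro w hw
      rw [mem_sphere_iff_norm] at hw
      exact hlowpos w hw i hi
  have hint : ∀ i ∈ S, CircleIntegrable (F i) w0 t := fun i hi =>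
    (hFcont i hi).circleIntegrable htpos.le
  set c : ι → ℝ := fun i => if z i ≠ 0 ∧ ‖(z i)⁻¹ - w0‖ < t then (m i : ℝ) else 0 with hc'
  have hterm : ∀ i ∈ S, (∮ w in C(w0, t), F i w) = -(2 * Real.pi * Complex.I) * (c i : ℂ) := by
    intro i hi
    by_cases hzi : z i = 0
    · have h1 : F i = fun _ => 0 := by
        funext w
        simp only [hF, hzi]
        rw [zero_pow (by omega)]
        ring
      have h2 : c i = 0 := by
        simp only [hc', hzi]
        simp
      rw [h1, h2]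
      simp [circleIntegral]
    · have h1 : (∮ w in C(w0, t), F i w) =
          -((m i : ℂ) * z i ^ (K - 1)) * ∮ w in C(w0, t), (w - (z i)⁻¹)⁻¹ • w ^ (K - 1) := by
        rw [← circleIntegral.integral_const_mul]
        apply circleIntegral.integral_congr htpos.le
        intro w hw
        rw [mem_sphere_iff_norm] at hw
        have h3 : 1 - z i * w ≠ 0 := hlowpos w hw i hi
        have h4 : w - (z i)⁻¹ ≠ 0 := by
          intro h
          apply h3
          rw [sub_eq_zero] at h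
          rw [h, mul_inv_cancel₀ hzi, sub_self]
        have h5 : 1 - z i * w = -(z i * (w - (z i)⁻¹)) := by
          rw [mul_sub, mul_inv_cancel₀ hzi]; ring
        simp only [hF, smul_eq_mul]
        rw [h5]
        have h6 : z i ^ K = z i * z i ^ (K - 1) := by
          rw [← pow_succ']; congr 1; omega
        rw [h6]
        field_simp
      rcases lt_or_gt_of_ne (hne i hi hzi) with hlt | hgt
      · rw [h1, t3_inside _ hlt]
        have h2 : c i = m i := by
          simp only [hc']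
          rw [if_pos ⟨hzi, hlt⟩]
        rw [h2]
        have h7 : z i ^ (K - 1) * (z i)⁻¹ ^ (K - 1) = 1 := by
          rw [← mul_pow, mul_inv_cancel₀ hzi, one_pow]
        simp only [smul_eq_mul]
        push_cast
        linear_combination (-(m i : ℂ) * (2 * Real.pi * Complex.I)) * h7
      · rw [h1, t3_outside htpos.le _ hgt]
        have h2 : c i = 0 := by
          simp only [hc']
          rw [if_neg]
          intro h
          linarith [h.2]
        rw [h2]
        simp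
  have htotal : (∮ w in C(w0, t), ∑ i ∈ S, F i w) =
      -(2 * Real.pi * Complex.I) * ((∑ i ∈ S, c i : ℝ) : ℂ) := by
    rw [circleIntegral.integral_fun_sum hint, Finset.sum_congr rfl hterm, ← Finset.mul_sum]
    push_cast
    rfl
  have hcsum : (1 : ℝ) ≤ ∑ i ∈ S, c i := by
    have h1 : ∀ i ∈ S, 0 ≤ c i := by
      intro i _
      simp only [hc']
      split_ifs <;> positivity
    have h2 : c i0 = m i0 := by
      simp only [hc']
      rw [if_pos]
      refine ⟨hzi0, ?_⟩
      rw [← hw0def, sub_self, norm_zero]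
      exact htpos
    have h3 : (1 : ℝ) ≤ c i0 := by
      rw [h2]; exact_mod_cast hm
    exact h3.trans (Finset.single_le_sum h1 hi0)
  have hup : ‖∮ w in C(w0, t), ∑ i ∈ S, F i w‖ ≤
      2 * Real.pi * t * (4 ^ (K - 1) * (8 ^ S.card * M) * 128 ^ S.card) := by
    apply circleIntegral.norm_integral_le_of_norm_le_const htpos.le
    intro w hw
    rw [mem_sphere_iff_norm] at hw
    have hw4 : ‖w‖ ≤ 4 := by
      calc ‖w‖ = ‖(w - w0) + w0‖ := by ring_nf
        _ ≤ ‖w - w0‖ + ‖w0‖ := norm_add_le _ _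
        _ ≤ 4 := by rw [hw]; linarith
    have hP := T2_poly S m z hz K M hM0.le (fun k hk1 hk2 => (hcon k hk1 (by omega)).le) w hw4
    have hQ := hlow w hw
    have hQ0 : ∏ j ∈ S, (1 - z j * w) ≠ 0 := Finset.prod_ne_zero_iff.mpr (hlowpos w hw)
    have e1 : ∑ i ∈ S, F i w = w ^ (K - 1) *
        (∑ i ∈ S, (m i : ℂ) * z i ^ K * ∏ j ∈ S.erase i, (1 - z j * w)) /
        ∏ j ∈ S, (1 - z j * w) := by
      rw [Finset.mul_sum, Finset.sum_div]
      apply Finset.sum_congr rfl
      intro i hi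
      simp only [hF]
      rw [div_eq_div_iff (hlowpos w hw i hi) hQ0, ← Finset.mul_prod_erase S _ hi]
      ring
    rw [e1, norm_div, norm_mul, norm_pow, div_le_iff₀ (norm_pos_iff.mpr hQ0)]
    have h128 : (1 : ℝ) ≤ 128 ^ S.card * ‖∏ j ∈ S, (1 - z j * w)‖ := by
      calc (1 : ℝ) = 128 ^ S.card * (1 / 128) ^ S.card := by
            rw [← mul_pow]; norm_num
        _ ≤ _ := mul_le_mul_of_nonneg_left hQ (by positivity)
    calc ‖w‖ ^ (K - 1) * ‖∑ i ∈ S, (m i : ℂ) * z i ^ K * ∏ j ∈ S.erase i, (1 - z j * w)‖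
        ≤ 4 ^ (K - 1) * (8 ^ S.card * M) := by
          apply mul_le_mul _ hP (norm_nonneg _) (by positivity)
          exact pow_le_pow_left₀ (norm_nonneg _) hw4 _
      _ = 4 ^ (K - 1) * (8 ^ S.card * M) * 1 := by ring
      _ ≤ 4 ^ (K - 1) * (8 ^ S.card * M) * (128 ^ S.card * ‖∏ j ∈ S, (1 - z j * w)‖) :=
          mul_le_mul_of_nonneg_left h128 (by positivity)
      _ = _ := by ring
  rw [htotal, norm_mul, norm_neg] at hup
  have hn1 : ‖(2 * Real.pi * Complex.I : ℂ)‖ = 2 * Real.pi := by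
    simp [abs_of_pos Real.pi_pos]
  rw [hn1, Complex.norm_real, Real.norm_eq_abs, abs_of_nonneg (by linarith)] at hup
  have hpi := Real.pi_pos
  have hbound : t * (4 ^ (K - 1) * (8 ^ S.card * M) * 128 ^ S.card) ≤ 1 / 4 := by
    have h1 : (8 : ℝ) ^ S.card * 128 ^ S.card ≤ 1024 ^ K := by
      rw [← mul_pow]
      norm_num
      exact pow_le_pow_right₀ (by norm_num) hc
    have h2 : (4 : ℝ) ^ (K - 1) * 4 = 4 ^ K := by
      rw [← pow_succ]; congr 1; omega
    have h3 : (4 : ℝ) ^ K * 1024 ^ K * M = 1 := by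
      rw [hMdef, ← mul_pow, ← mul_pow]; norm_num
    calc t * (4 ^ (K - 1) * (8 ^ S.card * M) * 128 ^ S.card)
        = t * (4 ^ (K - 1) * M * (8 ^ S.card * 128 ^ S.card)) := by ring
      _ ≤ 1 * (4 ^ (K - 1) * M * 1024 ^ K) := by
          apply mul_le_mul ht1 _ (by positivity) (by norm_num)
          exact mul_le_mul_of_nonneg_left h1 (by positivity)
      _ = (4 ^ (K - 1) * 4) * 1024 ^ K * M / 4 := by ring
      _ = 1 / 4 := by rw [h2, h3]
  have : 2 * Real.pi * 1 ≤ 2 * Real.pi * (1 / 4) := by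
    calc 2 * Real.pi * 1 ≤ 2 * Real.pi * ∑ i ∈ S, c i :=
          mul_le_mul_of_nonneg_left hcsum (by positivity)
      _ ≤ _ := hup
      _ = 2 * Real.pi * (t * (4 ^ (K - 1) * (8 ^ S.card * M) * 128 ^ S.card)) := by ring
      _ ≤ _ := mul_le_mul_of_nonneg_left hbound (by positivity)
  nlinarith

end Pool.Agent.Lib.H18Q
end
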