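import Mathlib

/-! Merged copies (to shorten the build) of Lib.H18E.BC, Lib.H18E.CO, Lib.H18E.CL, Lib.H18Q.CB, Lib.H59T.Defs, Lib.H59T.K3, Lib.H59T.K1, Lib.H59T.K2, Lib.SZW.D0, Lib.SZW.A1, Lib.SZW.A2, Lib.SZW.A3, Lib.SZW.A4, Lib.SZW.A5, Lib.SZW.A6, Lib.H21T.Defs, Lib.H21T.F2, Lib.H21T.S2, Lib.H59T.G2, Lib.H59T.G3, Lib.H59T.G4. -/

-- from Lib.H18E.BC
section

/-!
# Chunk BC: the counting argument for the exceptional vertices
-/

open Finset

namespace Pool.Agent.Lib.H18E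

/-- The abstract counting argument: each bad `x ∈ P` gives at least `h` pairs `(s,t)` with
`e s t > θ`, and these pairs are different for different `(x, j)`. -/
theorem bad_count (I : Finset ℕ) (e : ℕ → ℕ → ℝ) (V θ : ℝ) (hθ : 0 < θ)
    (he : ∑ s ∈ I, ∑ t ∈ I, (e s t) ^ 2 ≤ V) (P : Finset ℕ) (J : ℕ → Finset ℕ) (h : ℕ)
    (hJ : ∀ x ∈ P, h ≤ (J x).card) (f g : ℕ → ℕ → ℕ)
    (hI : ∀ x ∈ P, ∀ j ∈ J x, f x j ∈ I ∧ g x j ∈ I)
    (hinj : ∀ x ∈ P, ∀ j ∈ J x, ∀ x' ∈ P, ∀ j' ∈ J x', f x j = f x' j' → g x j = g x' j' →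
      x = x' ∧ j = j')
    (hbad : ∀ x ∈ P, ∀ j ∈ J x, θ < e (f x j) (g x j)) :
    (P.card : ℝ) * h * θ ^ 2 ≤ V := by
  classical
  refine le_trans ?_ he
  rw [← sum_product']
  have h1 : ∑ q ∈ (P.sigma J), (e (f q.1 q.2) (g q.1 q.2)) ^ 2 ≤
      ∑ q ∈ I ×ˢ I, (e q.1 q.2) ^ 2 := by
    have h2 : ∑ q ∈ (P.sigma J), (e (f q.1 q.2) (g q.1 q.2)) ^ 2 =
        ∑ q ∈ (P.sigma J).image (fun q => (f q.1 q.2, g q.1 q.2)), (e q.1 q.2) ^ 2 := by
      rw [sum_image]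
      rintro ⟨x, j⟩ hx ⟨x', j'⟩ hx' heq
      have hx1 := mem_sigma.1 (mem_coe.1 hx)
      have hx2 := mem_sigma.1 (mem_coe.1 hx')
      simp only at hx1 hx2
      have heq' := Prod.mk.inj heq
      obtain ⟨ha, hb⟩ := hinj x hx1.1 j hx1.2 x' hx2.1 j' hx2.2 heq'.1 heq'.2
      subst ha; subst hb; rfl
    rw [h2]
    refine sum_le_sum_of_subset_of_nonneg ?_ (fun q _ _ => sq_nonneg _)
    intro q hq
    obtain ⟨⟨x, j⟩, hx, rfl⟩ := mem_image.1 hq
    have hx1 := mem_sigma.1 hx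
    exact mem_product.2 (hI x hx1.1 j hx1.2)
  refine le_trans ?_ h1
  have h3 : ∑ q ∈ (P.sigma J), θ ^ 2 ≤ ∑ q ∈ (P.sigma J), (e (f q.1 q.2) (g q.1 q.2)) ^ 2 := by
    refine sum_le_sum ?_
    rintro ⟨x, j⟩ hx
    have hx1 := mem_sigma.1 hx
    exact pow_le_pow_left₀ hθ.le (hbad x hx1.1 j hx1.2).le 2
  refine le_trans ?_ h3
  rw [sum_const, nsmul_eq_mul, card_sigma]
  have h4 : P.card * h ≤ ∑ x ∈ P, (J x).card := by
    rw [← smul_eq_mul, ← sum_const]
    exact sum_le_sum hJ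
  have h5 : (P.card : ℝ) * h ≤ ((∑ x ∈ P, (J x).card : ℕ) : ℝ) := by exact_mod_cast h4
  exact mul_le_mul_of_nonneg_right h5 (by positivity)

end Pool.Agent.Lib.H18E
end

-- from Lib.H18E.CO
section

/-!
# Chunk CO: conductors of quadratic characters
-/

open Finset

namespace Pool.Agent.Lib.H18E

theorem CO_factor (r : ℕ) [NeZero r] (ψ : DirichletCharacter ℂ r) (hψ : ψ.IsPrimitive)
    (h2 : ψ ^ 2 = 1) (m : ℕ) (hm : m ∣ r) (hlt : m < r)
    (H : ∀ k : ZMod r, ∃ v : ZMod r, 1 + k * (m : ZMod r) = v ^ 2) : False := by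
  have hm0 : 0 < m := Nat.pos_of_dvd_of_pos hm (NeZero.pos r)
  have hf : DirichletCharacter.FactorsThrough ψ m := by
    rw [DirichletCharacter.factorsThrough_iff_ker_unitsMap hm]
    intro u hu
    rw [MonoidHom.mem_ker] at hu ⊢
    have h1 : ((u : ZMod r).cast : ZMod m) = 1 := by
      have := congrArg (fun z : (ZMod m)ˣ => (z : ZMod m)) hu
      simpa [ZMod.unitsMap_def] using this
    obtain ⟨k, hk⟩ : ∃ k : ZMod r, (u : ZMod r) = 1 + k * (m : ZMod r) := by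
      rw [ZMod.cast_eq_val] at h1
      have h3 : (((u : ZMod r).val : ℤ) : ZMod m) = ((1 : ℤ) : ZMod m) := by
        push_cast; exact h1
      rw [ZMod.intCast_eq_intCast_iff_dvd_sub] at h3
      obtain ⟨j, hj⟩ := h3
      refine ⟨((-j : ℤ) : ZMod r), ?_⟩
      have h4 : ((u : ZMod r).val : ℤ) = 1 + (-j) * m := by linarith
      have h5 : (((u : ZMod r).val : ℤ) : ZMod r) = ((1 + (-j) * m : ℤ) : ZMod r) := by rw [h4]
      push_cast at h5 ⊢
      rw [← h5]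
      simp
    obtain ⟨v, hv⟩ := H k
    rw [← hk] at hv
    have hvu : IsUnit v := by
      have : IsUnit (v ^ 2) := hv ▸ u.isUnit
      exact (isUnit_pow_iff two_ne_zero).1 this
    obtain ⟨w, rfl⟩ := hvu
    have hw : u = w ^ 2 := by
      apply Units.ext
      simpa using hv
    have h6 := congrArg (fun f : DirichletCharacter ℂ r => f (w : ZMod r)) h2
    simp only [MulChar.pow_apply_coe, MulChar.one_apply_coe] at h6
    apply Units.ext
    rw [hw, map_pow]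
    simpa using h6
  have h7 : ψ.conductor ≤ m :=
    Nat.le_of_dvd hm0 (DirichletCharacter.conductor_dvd_of_mem_conductorSet _ hf)
  rw [(DirichletCharacter.isPrimitive_def ψ).1 hψ] at h7
  omega

/-- Let `ψ` be primitive modulo `r`, `ψ ^ 2 = 1`, `p ∣ r` a prime. If every unit `≡ 1` modulo `r / p`
is a square modulo `r`, then `ψ` is trivial on these units, and factors through `r / p`
(`DirichletCharacter.factorsThrough_iff_ker_unitsMap`), which contradicts primitivity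
(`DirichletCharacter.conductor_dvd_of_mem_conductorSet`). If `p` is odd and `p ^ 2 ∣ r`, then
`1 + k r/p ≡ (1 + k (p+1)/2 · r/p)^2` modulo `r`, since `r ∣ (r/p)^2`. -/
theorem sq_not_dvd (r : ℕ) [NeZero r] (ψ : DirichletCharacter ℂ r) (hψ : ψ.IsPrimitive)
    (h2 : ψ ^ 2 = 1) (p : ℕ) (hp : p.Prime) (hodd : p ≠ 2) : ¬ p ^ 2 ∣ r := by
  rintro ⟨q, hq⟩
  have hr : 0 < r := NeZero.pos r
  have hq0 : 0 < q := by
    rcases Nat.eq_zero_or_pos q with h | h
    · rw [h] at hq; omega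
    · exact h
  obtain ⟨b, hb⟩ := hp.odd_of_ne_two hodd
  refine CO_factor r ψ hψ h2 (p * q) ⟨p, by rw [hq]; ring⟩ ?_ ?_
  · rw [hq]
    have := hp.two_le
    have h3 : 0 < p * q := Nat.mul_pos hp.pos hq0
    calc p * q < p * (p * q) := by nlinarith
      _ = p ^ 2 * q := by ring
  · intro k
    refine ⟨1 + k * ((b + 1 : ℕ) : ZMod r) * ((p * q : ℕ) : ZMod r), ?_⟩
    have hrz : ((p ^ 2 * q : ℕ) : ZMod r) = 0 := by
      rw [← hq]; exact ZMod.natCast_self r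
    have hpb : (p : ZMod r) = 2 * b + 1 := by
      have : ((p : ℕ) : ZMod r) = ((2 * b + 1 : ℕ) : ZMod r) := by rw [← hb]
      push_cast at this; exact this
    push_cast at hrz ⊢
    have e1 : ((p : ZMod r) * q) ^ 2 = 0 := by
      have : ((p : ZMod r) * q) ^ 2 = (p ^ 2 * q) * q := by ring
      rw [this, hrz, zero_mul]
    have e2 : 2 * ((b : ZMod r) + 1) = p + 1 := by rw [hpb]; ring
    have e3 : (p : ZMod r) * (p * q) = 0 := by
      have : (p : ZMod r) * (p * q) = p ^ 2 * q := by ring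
      rw [this, hrz]
    calc 1 + k * ((p : ZMod r) * q) = 1 + k * (p * q) + k * (p * (p * q)) +
          (k * (b + 1)) ^ 2 * (p * q) ^ 2 := by rw [e3, e1]; ring
      _ = 1 + k * ((p + 1) * (p * q)) + (k * (b + 1)) ^ 2 * (p * q) ^ 2 := by ring
      _ = 1 + k * (2 * (b + 1) * (p * q)) + (k * (b + 1)) ^ 2 * (p * q) ^ 2 := by rw [e2]
      _ = _ := by ring

/-- If `16 ∣ r`, then `1 + k r/2 ≡ (1 + k r/4)^2` modulo `r` since `r ∣ (r/4)^2`. -/
theorem sixteen_not_dvd (r : ℕ) [NeZero r] (ψ : DirichletCharacter ℂ r) (hψ : ψ.IsPrimitive)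
    (h2 : ψ ^ 2 = 1) : ¬ 16 ∣ r := by
  rintro ⟨q, hq⟩
  have hr : 0 < r := NeZero.pos r
  refine CO_factor r ψ hψ h2 (8 * q) ⟨2, by rw [hq]; ring⟩ (by omega) ?_
  intro k
  refine ⟨1 + k * ((4 * q : ℕ) : ZMod r), ?_⟩
  have hrz : ((16 * q : ℕ) : ZMod r) = 0 := by
    rw [← hq]; exact ZMod.natCast_self r
  push_cast at hrz ⊢
  have e1 : k ^ 2 * ((16 : ZMod r) * q) * q = 0 := by rw [hrz]; ring
  calc 1 + k * ((8 : ZMod r) * q) = 1 + k * (8 * q) + k ^ 2 * ((16 : ZMod r) * q) * q := by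
        rw [e1, add_zero]
    _ = _ := by ring

/-- If no prime `p ≥ 7` divides `r`, then `r ∣ 8 * 3 * 5`. -/
theorem cond_big (r : ℕ) [NeZero r] (ψ : DirichletCharacter ℂ r) (hψ : ψ.IsPrimitive)
    (h2 : ψ ^ 2 = 1) (hr : 120 < r) : ∃ p : ℕ, p.Prime ∧ 7 ≤ p ∧ p ∣ r := by
  by_contra hcon
  push Not at hcon
  have hd : r ∣ 120 := by
    rw [Nat.dvd_iff_prime_pow_dvd_dvd]
    intro p k hp hk
    rcases Nat.eq_zero_or_pos k with rfl | hk0
    · simp
    have hpr : p ∣ r := (dvd_pow_self p hk0.ne').trans hk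
    have hp7 : p < 7 := by
      by_contra h
      exact hcon p hp (by omega) hpr
    have hp2 := hp.two_le
    have hsq : p ≠ 2 → k = 1 := by
      intro hne
      by_contra hk1
      exact sq_not_dvd r ψ hψ h2 p hp hne ((pow_dvd_pow p (by omega)).trans hk)
    interval_cases p
    · have hk3 : k ≤ 3 := by
        by_contra h
        have h16 : (16 : ℕ) ∣ 2 ^ k := by
          have : (2 : ℕ) ^ 4 ∣ 2 ^ k := pow_dvd_pow 2 (by omega)
          simpa using this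
        exact sixteen_not_dvd r ψ hψ h2 (h16.trans hk)
      exact (pow_dvd_pow 2 hk3).trans (by norm_num)
    · rw [hsq (by norm_num)]; norm_num
    · exact absurd hp (by norm_num)
    · rw [hsq (by norm_num)]; norm_num
    · exact absurd hp (by norm_num)
  have := Nat.le_of_dvd (by norm_num) hd
  omega

end Pool.Agent.Lib.H18E
end

-- from Lib.H18E.CL
section

/-!
# Chunk CL: pairs of values of a quadratic character
-/

open Finset

namespace Pool.Agent.Lib.H18E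

/-- Let `θ` be the quadratic character modulo `p ≥ 7`. As `1 + a z ∈ {0, 1, 2}` detects `z = a` among
`z ∈ {0, 1, -1}`, the number of `y` is
`(1/4) ∑_{y ≠ ± x} (1 + a θ(x + y)) (1 + b θ(s (x - y)))`. Here `∑_{y ≠ ±x} 1 = p - 2`,
`∑_{y ≠ ±x} θ(x + y) = - θ(2 x)`, `∑_{y ≠ ±x} θ(s (x - y)) = - θ(s) θ(2 x)` (`MulChar.sum_eq_zero_of_ne_one`),
and `∑_y θ(x + y) θ(x - y) = θ(4 x^2) jacobiSum θ θ = - θ(-1)` by the substitution `y = x (2 t - 1)`
(`jacobiSum_nontrivial_inv`, `θ⁻¹ = θ`). So the number is an integer at least `(p - 2 - 3)/4`; this is at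
least `(p - 2)/10`. -/
theorem cl_local (p : ℕ) [Fact p.Prime] (hp : 7 ≤ p) (θ : MulChar (ZMod p) ℂ) (h1 : θ ≠ 1)
    (h2 : θ ^ 2 = 1) (x : ZMod p) (hx : x ≠ 0) (s : ZMod p) (hs : s = 1 ∨ s = -1) (a b : ℂ)
    (ha : a = 1 ∨ a = -1) (hb : b = 1 ∨ b = -1) :
    open Classical in
    ((p : ℝ) - 2) / 10 ≤
      ((univ.filter (fun y : ZMod p => θ (x + y) = a ∧ θ (s * (x - y)) = b)).card : ℝ) := by
  classical
  have hs0 : s ≠ 0 := by rcases hs with rfl | rfl <;> simp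
  have h20 : (2 : ZMod p) ≠ 0 := by
    intro h
    have h3 : ((2 : ℕ) : ZMod p) = 0 := by exact_mod_cast h
    rw [ZMod.natCast_eq_zero_iff] at h3
    have := Nat.le_of_dvd (by norm_num) h3
    omega
  have hval : ∀ z : ZMod p, z ≠ 0 → θ z = 1 ∨ θ z = -1 := by
    intro z hz
    have h3 : (θ ^ 2) z = 1 := by
      rw [h2]; exact MulChar.one_apply (isUnit_iff_ne_zero.2 hz)
    rw [MulChar.pow_apply' _ two_ne_zero] at h3
    have h4 : (θ z - 1) * (θ z + 1) = 0 := by linear_combination h3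
    rcases mul_eq_zero.1 h4 with h5 | h5
    · left; linear_combination h5
    · right; linear_combination h5
  have h00 : θ 0 = 0 := MulChar.map_zero θ
  have hnorm : ∀ z : ZMod p, ‖θ z‖ ≤ 1 := by
    intro z
    by_cases hz : z = 0
    · rw [hz, h00]; simp
    · rcases hval z hz with h | h <;> rw [h] <;> simp
  have hna : ‖a‖ = 1 := by rcases ha with rfl | rfl <;> simp
  have hnb : ‖b‖ = 1 := by rcases hb with rfl | rfl <;> simp
  -- the three sums
  have hS1 : ∑ y, θ (x + y) = 0 := by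
    rw [← MulChar.sum_eq_zero_of_ne_one h1]
    exact Fintype.sum_equiv (Equiv.addLeft x) _ _ (fun y => rfl)
  have hS2 : ∑ y, θ (s * (x - y)) = 0 := by
    have : ∀ y, θ (s * (x - y)) = θ s * θ (x - y) := fun y => map_mul θ _ _
    simp_rw [this]
    rw [← mul_sum]
    have h3 : ∑ y, θ (x - y) = 0 := by
      rw [← MulChar.sum_eq_zero_of_ne_one h1]
      exact Fintype.sum_equiv (Equiv.subLeft x) _ _ (fun y => rfl)
    rw [h3, mul_zero]
  have hinv : θ⁻¹ = θ := inv_eq_of_mul_eq_one_right (by rw [← sq, h2])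
  have hJ : jacobiSum θ θ = -θ (-1) := by
    have := jacobiSum_nontrivial_inv h1
    rwa [hinv] at this
  have h2x : (2 : ZMod p) * x ≠ 0 := mul_ne_zero h20 hx
  have hS3 : ∑ y, θ (x + y) * θ (s * (x - y)) = θ s * (θ (2 * x) ^ 2 * jacobiSum θ θ) := by
    have hbij : Function.Bijective (fun t : ZMod p => x * (2 * t - 1)) := by
      constructor
      · intro t t' h
        have h3 := mul_left_cancel₀ hx h
        have h4 : (2 : ZMod p) * t = 2 * t' := by linear_combination h3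
        exact mul_left_cancel₀ h20 h4
      · intro y
        refine ⟨(y / x + 1) / 2, ?_⟩
        simp only
        field_simp
        ring
    rw [← hbij.sum_comp (fun y => θ (x + y) * θ (s * (x - y)))]
    unfold jacobiSum
    rw [mul_sum, mul_sum]
    refine sum_congr rfl fun t _ => ?_
    rw [show x + x * (2 * t - 1) = 2 * x * t by ring,
      show s * (x - x * (2 * t - 1)) = s * (2 * x) * (1 - t) by ring]
    simp only [map_mul]
    ring
  -- the sum over all `y`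
  have hall : ∑ y, (1 + a * θ (x + y)) * (1 + b * θ (s * (x - y))) =
      p + a * b * (θ s * (θ (2 * x) ^ 2 * jacobiSum θ θ)) := by
    have h3 : ∀ y, (1 + a * θ (x + y)) * (1 + b * θ (s * (x - y))) =
        1 + a * θ (x + y) + b * θ (s * (x - y)) + a * b * (θ (x + y) * θ (s * (x - y))) :=
      fun y => by ring
    simp_rw [h3]
    rw [sum_add_distrib, sum_add_distrib, sum_add_distrib, ← mul_sum, ← mul_sum, ← mul_sum, hS1, hS2,
      hS3]
    simp [ZMod.card]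
  -- the two exceptional points
  have hxx : x ≠ -x := by
    intro h
    apply h2x
    linear_combination h
  have hsplit : ∑ y, (1 + a * θ (x + y)) * (1 + b * θ (s * (x - y))) =
      (∑ y ∈ (univ.erase x).erase (-x), (1 + a * θ (x + y)) * (1 + b * θ (s * (x - y)))) +
        (1 + b * θ (s * (2 * x))) + (1 + a * θ (2 * x)) := by
    rw [← sum_erase_add _ _ (mem_univ x), ← sum_erase_add _ _
      (mem_erase.2 ⟨hxx.symm, mem_univ (-x)⟩)]
    rw [show x + x = 2 * x by ring, show x - x = 0 by ring, show x + -x = 0 by ring,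
      show x - -x = 2 * x by ring, mul_zero, h00]
    ring
  -- the count
  have hcount : (4 : ℂ) * ((univ.filter (fun y : ZMod p => θ (x + y) = a ∧
      θ (s * (x - y)) = b)).card : ℂ) =
      ∑ y ∈ (univ.erase x).erase (-x), (1 + a * θ (x + y)) * (1 + b * θ (s * (x - y))) := by
    have hfac : ∀ c z : ℂ, (c = 1 ∨ c = -1) → (z = 1 ∨ z = -1) →
        1 + c * z = if z = c then 2 else 0 := by
      intro c z hc hz
      rcases hc with rfl | rfl <;> rcases hz with rfl | rfl <;> norm_num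
    have h3 : univ.filter (fun y : ZMod p => θ (x + y) = a ∧ θ (s * (x - y)) = b) =
        ((univ.erase x).erase (-x)).filter
          (fun y : ZMod p => θ (x + y) = a ∧ θ (s * (x - y)) = b) := by
      ext y
      simp only [mem_filter, mem_univ, true_and, mem_erase, and_true]
      constructor
      · rintro ⟨h4, h5⟩
        refine ⟨⟨?_, ?_⟩, h4, h5⟩
        · rintro rfl
          rw [show x + -x = 0 by ring, h00] at h4
          rcases ha with rfl | rfl <;> norm_num at h4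
        · rintro rfl
          rw [show y - y = 0 by ring, mul_zero, h00] at h5
          rcases hb with rfl | rfl <;> norm_num at h5
      · rintro ⟨-, h4⟩; exact h4
    rw [h3, card_filter]
    push_cast
    rw [mul_sum]
    refine sum_congr rfl fun y hy => ?_
    rw [mem_erase, mem_erase] at hy
    have h4 : x + y ≠ 0 := fun h => hy.1 (by linear_combination h)
    have h5 : s * (x - y) ≠ 0 := mul_ne_zero hs0 (fun h => hy.2.1 (by linear_combination -h))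
    rw [hfac a _ ha (hval _ h4), hfac b _ hb (hval _ h5)]
    generalize θ (x + y) = u1
    generalize θ (s * (x - y)) = v1
    by_cases h6 : u1 = a
    · by_cases h7 : v1 = b
      · rw [if_pos h6, if_pos h7, if_pos ⟨h6, h7⟩]; norm_num
      · rw [if_neg h7, if_neg (fun h => h7 h.2)]; ring
    · rw [if_neg h6, if_neg (fun h => h6 h.1)]; ring
  have hfin : (4 : ℂ) * ((univ.filter (fun y : ZMod p => θ (x + y) = a ∧
      θ (s * (x - y)) = b)).card : ℂ) - ((p : ℂ) - 2) =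
      a * b * (θ s * (θ (2 * x) ^ 2 * jacobiSum θ θ)) - b * θ (s * (2 * x)) - a * θ (2 * x) := by
    rw [hcount]
    rw [hall] at hsplit
    linear_combination -hsplit
  have hle : ‖(4 : ℂ) * ((univ.filter (fun y : ZMod p => θ (x + y) = a ∧
      θ (s * (x - y)) = b)).card : ℂ) - ((p : ℂ) - 2)‖ ≤ 3 := by
    rw [hfin]
    have e1 : ‖a * b * (θ s * (θ (2 * x) ^ 2 * jacobiSum θ θ))‖ ≤ 1 := by
      rw [norm_mul, norm_mul, norm_mul, norm_mul, norm_pow, hna, hnb, hJ, norm_neg]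
      have n1 := hnorm s
      have n2 := hnorm (2 * x)
      have n3 := hnorm (-1)
      have n4 : ‖θ (2 * x)‖ ^ 2 ≤ 1 := pow_le_one₀ (norm_nonneg _) n2
      calc 1 * 1 * (‖θ s‖ * (‖θ (2 * x)‖ ^ 2 * ‖θ (-1)‖)) ≤ 1 * 1 * (1 * (1 * 1)) := by
            gcongr
        _ = 1 := by norm_num
    have e2 : ‖b * θ (s * (2 * x))‖ ≤ 1 := by
      rw [norm_mul, hnb, one_mul]; exact hnorm _
    have e3 : ‖a * θ (2 * x)‖ ≤ 1 := by
      rw [norm_mul, hna, one_mul]; exact hnorm _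
    calc _ ≤ ‖a * b * (θ s * (θ (2 * x) ^ 2 * jacobiSum θ θ)) - b * θ (s * (2 * x))‖ +
          ‖a * θ (2 * x)‖ := norm_sub_le _ _
      _ ≤ ‖a * b * (θ s * (θ (2 * x) ^ 2 * jacobiSum θ θ))‖ + ‖b * θ (s * (2 * x))‖ +
          ‖a * θ (2 * x)‖ := by gcongr; exact norm_sub_le _ _
      _ ≤ 3 := by linarith
  have hre : ‖(4 : ℂ) * ((univ.filter (fun y : ZMod p => θ (x + y) = a ∧
      θ (s * (x - y)) = b)).card : ℂ) - ((p : ℂ) - 2)‖ =
      |4 * ((univ.filter (fun y : ZMod p => θ (x + y) = a ∧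
      θ (s * (x - y)) = b)).card : ℝ) - ((p : ℝ) - 2)| := by
    rw [← Real.norm_eq_abs, ← Complex.norm_real]
    push_cast
    rfl
  rw [hre] at hle
  have h8 := (abs_le.1 hle).1
  have h9 : (7 : ℝ) ≤ p := by exact_mod_cast hp
  linarith

end Pool.Agent.Lib.H18E
end

-- from Lib.H18Q.CB
section

/-!
# Project H18Q, chunk CB: orthogonality of primitive periodic functions
-/

open Finset

namespace Pool.Agent.Lib.H18Q

/-- The sum of a function of period `P` over `P` consecutive integers does not change if the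
argument is shifted (auxiliary; any period multiple). -/
theorem CB_shift (f : ℤ → ℂ) (P : ℕ) (hP : 0 < P) (hf : ∀ m, f (m + P) = f m) (N : ℤ) :
    ∑ c ∈ range P, f ((c : ℤ) + N) = ∑ c ∈ range P, f (c : ℤ) := by
  have hstep : ∀ N : ℤ, ∑ c ∈ range P, f ((c : ℤ) + (N + 1)) = ∑ c ∈ range P, f ((c : ℤ) + N) := by
    intro N
    have h1 : ∑ c ∈ range (P + 1), f ((c : ℤ) + N) =
        ∑ c ∈ range P, f ((c : ℤ) + N) + f ((P : ℤ) + N) := Finset.sum_range_succ _ _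
    have h2 : ∑ c ∈ range (P + 1), f ((c : ℤ) + N) =
        ∑ c ∈ range P, f (((c + 1 : ℕ) : ℤ) + N) + f (((0 : ℕ) : ℤ) + N) :=
      Finset.sum_range_succ' _ _
    have h3 : f ((P : ℤ) + N) = f (((0 : ℕ) : ℤ) + N) := by
      rw [show (P : ℤ) + N = N + P by ring, hf]
      simp
    have h4 : ∑ c ∈ range P, f (((c + 1 : ℕ) : ℤ) + N) = ∑ c ∈ range P, f ((c : ℤ) + (N + 1)) := by
      apply Finset.sum_congr rfl
      intro c _
      congr 1
      push_cast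
      ring
    rw [← h4]
    have h5 := h1.symm.trans h2
    rw [h3] at h5
    exact (add_right_cancel h5).symm
  induction N using Int.induction_on with
  | zero => simp
  | succ i ih => rw [hstep, ih]
  | pred i ih =>
    have := hstep (-(i : ℤ) - 1)
    rw [← this, show -(i : ℤ) - 1 + 1 = -(i : ℤ) by ring, ih]

theorem cb_mul (f : ℤ → ℂ) (q : ℕ) (hf : ∀ m, f (m + q) = f m) (m k : ℤ) :
    f (m + k * q) = f m := by
  induction k using Int.induction_on with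
  | zero => simp
  | succ i ih =>
    rw [show m + ((i : ℤ) + 1) * q = m + i * q + q by ring, hf, ih]
  | pred i ih =>
    have := hf (m + (-(i : ℤ) - 1) * q)
    rw [← this, show m + (-(i : ℤ) - 1) * q + q = m + -(i : ℤ) * q by ring, ih]

theorem cb_unit (G : ℤ → ℂ) (l : ℕ) (hl : l.Prime) (hG : ∀ m, G (m + l) = G m) (u : ℤ)
    (hu : ¬ (l : ℤ) ∣ u) : ∑ j ∈ range l, G ((j : ℤ) * u) = ∑ j ∈ range l, G (j : ℤ) := by
  have hl0 : (0 : ℤ) < l := by exact_mod_cast hl.pos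
  have hnn : ∀ j : ℕ, 0 ≤ ((j : ℤ) * u) % l := fun j => Int.emod_nonneg _ hl0.ne'
  have hlt : ∀ j : ℕ, ((j : ℤ) * u) % l < l := fun j => Int.emod_lt_of_pos _ hl0
  have hcast : ∀ j : ℕ, (((((j : ℤ) * u) % l).toNat : ℕ) : ℤ) = ((j : ℤ) * u) % l :=
    fun j => Int.toNat_of_nonneg (hnn j)
  have hper : ∀ j : ℕ, G ((j : ℤ) * u) = G ((((((j : ℤ) * u) % l).toNat : ℕ) : ℤ)) := by
    intro j
    rw [hcast]
    have h1 := Int.emod_add_mul_ediv ((j : ℤ) * u) l
    conv_lhs => rw [← h1]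
    rw [mul_comm (l : ℤ), cb_mul G l hG]
  have hmaps : ∀ j ∈ range l, (((j : ℤ) * u) % l).toNat ∈ range l := by
    intro j _
    rw [Finset.mem_range]
    have := hlt j
    have h2 := hcast j
    omega
  have hinj : Set.InjOn (fun j : ℕ => (((j : ℤ) * u) % l).toNat) (range l : Finset ℕ) := by
    intro a ha b hb hab
    simp only at hab
    have h1 : ((a : ℤ) * u) % l = ((b : ℤ) * u) % l := by
      rw [← hcast a, ← hcast b, hab]
    have h2 : (l : ℤ) ∣ (a : ℤ) * u - b * u := (Int.emod_emod_of_dvd _ dvd_rfl ▸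
      Int.emod_eq_emod_iff_emod_sub_eq_zero.mp h1 |> Int.dvd_of_emod_eq_zero)
    rw [← sub_mul] at h2
    have hlp : Prime (l : ℤ) := Nat.prime_iff_prime_int.mp hl
    rcases hlp.dvd_or_dvd h2 with h3 | h3
    · have ha' := Finset.mem_range.mp (Finset.mem_coe.mp ha)
      have hb' := Finset.mem_range.mp (Finset.mem_coe.mp hb)
      have h4 : (a : ℤ) - b = 0 := by
        apply Int.eq_zero_of_abs_lt_dvd h3
        rw [abs_lt]
        constructor <;> omega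
      omega
    · exact absurd h3 hu
  have hsurj : Set.SurjOn (fun j : ℕ => (((j : ℤ) * u) % l).toNat) (range l : Finset ℕ)
      (range l : Finset ℕ) :=
    Finset.surjOn_of_injOn_of_card_le _ (fun j hj => hmaps j hj) hinj le_rfl
  rw [Finset.sum_congr rfl fun j _ => hper j]
  exact Finset.sum_nbij (fun j : ℕ => (((j : ℤ) * u) % l).toNat) hmaps hinj hsurj
    (fun j _ => rfl)

theorem cb_aux (φ1 φ2 : ℤ → ℂ) (q1 q2 : ℕ) (h1 : 0 < q1) (h2 : 0 < q2)
    (p1 : ∀ m, φ1 (m + q1) = φ1 m) (p2 : ∀ m, φ2 (m + q2) = φ2 m) (l : ℕ) (hl : l.Prime)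
    (r1 : ∀ m : ℤ, ∑ j ∈ range l, φ1 (m + (j : ℤ) * (q1 / l : ℕ)) = 0)
    (hlt : q2.factorization l < q1.factorization l)
    (s t τ1 τ2 : ℤ) (hτ : τ1 = 1 ∨ τ1 = -1) :
    ∑ c ∈ range (q1 * q2), φ1 (s + τ1 * (c : ℤ)) * φ2 (t + τ2 * (c : ℤ)) = 0 := by
  set b := q2.factorization l with hb
  obtain ⟨q2', hq2'⟩ : ∃ q', q2 = l ^ b * q' := Nat.ordProj_dvd q2 l
  have hco : ¬ l ∣ q2' := by
    intro h
    have h3 : l ^ (b + 1) ∣ q2 := by
      rw [hq2', pow_succ]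
      exact Nat.mul_dvd_mul_left _ h
    have h4 := (hl.pow_dvd_iff_le_factorization h2.ne').mp h3
    omega
  obtain ⟨w, hw⟩ : l ^ (b + 1) ∣ q1 := (hl.pow_dvd_iff_le_factorization h1.ne').mpr hlt
  have hlq : q1 / l = l ^ b * w := by
    rw [hw, pow_succ, mul_assoc, mul_comm l w, ← mul_assoc, Nat.mul_div_cancel _ hl.pos]
  have hq1 : q1 = l * (q1 / l) := by
    rw [hlq, hw, pow_succ]
    ring
  have hN : (q1 / l) * q2' = w * q2 := by
    rw [hlq, hq2']
    ring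
  set F : ℤ → ℂ := fun c => φ1 (s + τ1 * c) * φ2 (t + τ2 * c) with hF
  have hFper : ∀ m, F (m + ((q1 * q2 : ℕ) : ℤ)) = F m := by
    intro m
    simp only [hF]
    rw [show s + τ1 * (m + ((q1 * q2 : ℕ) : ℤ)) = (s + τ1 * m) + (τ1 * q2) * q1 by
      push_cast; ring, show t + τ2 * (m + ((q1 * q2 : ℕ) : ℤ)) = (t + τ2 * m) + (τ2 * q1) * q2 by
      push_cast; ring, cb_mul φ1 q1 p1, cb_mul φ2 q2 p2]
  have hsum : ∀ j : ℕ, ∑ c ∈ range (q1 * q2), F (c : ℤ) =
      ∑ c ∈ range (q1 * q2), φ1 (s + τ1 * (c : ℤ) + (j : ℤ) * (τ1 * q2') * ((q1 / l : ℕ) : ℤ)) *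
        φ2 (t + τ2 * (c : ℤ)) := by
    intro j
    rw [← CB_shift F (q1 * q2) (Nat.mul_pos h1 h2) hFper ((j : ℤ) * (((q1 / l) * q2' : ℕ) : ℤ))]
    apply Finset.sum_congr rfl
    intro c _
    simp only [hF]
    congr 1
    · congr 1
      push_cast
      ring
    · rw [hN, show t + τ2 * ((c : ℤ) + (j : ℤ) * ((w * q2 : ℕ) : ℤ)) =
        (t + τ2 * c) + (τ2 * j * w) * q2 by push_cast; ring, cb_mul φ2 q2 p2]
  have hinner : ∀ x : ℤ, ∑ j ∈ range l, φ1 (x + (j : ℤ) * (τ1 * q2') * ((q1 / l : ℕ) : ℤ)) = 0 := by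
    intro x
    have hper : ∀ m : ℤ, (fun i : ℤ => φ1 (x + i * ((q1 / l : ℕ) : ℤ))) (m + l) =
        (fun i : ℤ => φ1 (x + i * ((q1 / l : ℕ) : ℤ))) m := by
      intro m
      simp only
      rw [show x + (m + (l : ℤ)) * ((q1 / l : ℕ) : ℤ) =
        x + m * ((q1 / l : ℕ) : ℤ) + ((l * (q1 / l) : ℕ) : ℤ) by push_cast; ring, ← hq1, p1]
    have hu : ¬ (l : ℤ) ∣ τ1 * q2' := by
      intro h
      apply hco
      rcases hτ with h3 | h3
      · rw [h3, one_mul] at h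
        exact_mod_cast h
      · rw [h3, neg_one_mul, dvd_neg] at h
        exact_mod_cast h
    have h3 := cb_unit (fun i : ℤ => φ1 (x + i * ((q1 / l : ℕ) : ℤ))) l hl hper (τ1 * q2') hu
    rw [h3]
    exact r1 x
  have htot : (l : ℂ) * ∑ c ∈ range (q1 * q2), F (c : ℤ) = 0 := by
    have h3 : ∑ _j ∈ range l, ∑ c ∈ range (q1 * q2), F (c : ℤ) =
        (l : ℂ) * ∑ c ∈ range (q1 * q2), F (c : ℤ) := by
      rw [Finset.sum_const, Finset.card_range, nsmul_eq_mul]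
    rw [← h3, Finset.sum_congr rfl fun j _ => hsum j, Finset.sum_comm]
    apply Finset.sum_eq_zero
    intro c _
    rw [← Finset.sum_mul, hinner, zero_mul]
  rcases mul_eq_zero.mp htot with h3 | h3
  · exact absurd (by exact_mod_cast h3) hl.pos.ne'
  · exact h3

/-- **Orthogonality.** Proof. By symmetry (substituting `c → τ c`, and exchanging the roles) let `l`
be a prime with `v_l(q1) > v_l(q2)` (exists as `q1 ≠ q2`; if only `v_l(q2) > v_l(q1)` occurs, exchange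
the functions). Let `q2 = l^b q2'`, `l ∤ q2'`, and `N = (q1/l) q2'`. `q2 ∣ N` because
`l^(b+1) ∣ q1`. The function `F(c) = φ1(s + c) φ2(t + τ c)` has period `q1 q2`. For `j = 0, …, l-1`,
by `CB_shift` `∑_c F(c) = ∑_c F(c + j N)`, and `F(c + jN) = φ1(s + c + j N) φ2(t + τ c)`. Sum over
`j`: `l ∑_c F(c) = ∑_c φ2(t + τ c) ∑_j φ1(s + c + j (q1/l) q2')`, and as `q2'` is a unit modulo `l` and
`φ1` has period `q1`, the inner sum is `∑_j φ1(s + c + j (q1/l)) = 0`. -/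
theorem orth (φ1 φ2 : ℤ → ℂ) (q1 q2 : ℕ) (h1 : 0 < q1) (h2 : 0 < q2)
    (p1 : ∀ m, φ1 (m + q1) = φ1 m) (p2 : ∀ m, φ2 (m + q2) = φ2 m)
    (r1 : ∀ l : ℕ, l.Prime → l ∣ q1 → ∀ m : ℤ,
      ∑ j ∈ range l, φ1 (m + (j : ℤ) * (q1 / l : ℕ)) = 0)
    (r2 : ∀ l : ℕ, l.Prime → l ∣ q2 → ∀ m : ℤ,
      ∑ j ∈ range l, φ2 (m + (j : ℤ) * (q2 / l : ℕ)) = 0)
    (hne : q1 ≠ q2) (s t τ : ℤ) (hτ : τ = 1 ∨ τ = -1) :
    ∑ c ∈ range (q1 * q2), φ1 (s + (c : ℤ)) * φ2 (t + τ * (c : ℤ)) = 0 := by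
  obtain ⟨l, hl⟩ : ∃ l, q1.factorization l ≠ q2.factorization l := by
    by_contra h
    push Not at h
    exact hne (Nat.eq_of_factorization_eq h1.ne' h2.ne' h)
  have hlp : l.Prime := by
    by_contra h
    exact hl (by rw [Nat.factorization_eq_zero_of_not_prime _ h,
      Nat.factorization_eq_zero_of_not_prime _ h])
  rcases Nat.lt_or_gt_of_ne hl with h | h
  · have hd : l ∣ q2 := Nat.dvd_of_factorization_pos (by omega)
    have h3 := cb_aux φ2 φ1 q2 q1 h2 h1 p2 p1 l hlp (r2 l hlp hd) h t s τ 1 hτ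
    rw [mul_comm q1 q2, ← h3]
    apply Finset.sum_congr rfl
    intro c _
    rw [one_mul, mul_comm]
  · have hd : l ∣ q1 := Nat.dvd_of_factorization_pos (by omega)
    have h3 := cb_aux φ1 φ2 q1 q2 h1 h2 p1 p2 l hlp (r1 l hlp hd) h s t 1 τ (Or.inl rfl)
    rw [← h3]
    apply Finset.sum_congr rfl
    intro c _
    rw [one_mul]

theorem cb_per (φ : ℕ → ℂ) (P : ℕ) (per : ∀ c, φ (c + P) = φ c) (n c : ℕ) :
    φ (n * P + c) = φ c := by
  induction n with
  | zero => simp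
  | succ n ih =>
    rw [show (n + 1) * P + c = n * P + c + P by ring, per, ih]

theorem cb_slow (f : ℕ → ℂ) (H : ℕ) (Λ : ℝ) (fl : ∀ c, c + 1 < H → ‖f (c + 1) - f c‖ ≤ Λ)
    (a r : ℕ) (h : a + r < H) : ‖f (a + r) - f a‖ ≤ r * Λ := by
  induction r with
  | zero => simp
  | succ r ih =>
    have h1 := ih (by omega)
    have h2 := fl (a + r) (by omega)
    calc ‖f (a + (r + 1)) - f a‖ = ‖(f (a + r + 1) - f (a + r)) + (f (a + r) - f a)‖ := by
          congr 1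
          rw [← add_assoc]
          ring
      _ ≤ ‖f (a + r + 1) - f (a + r)‖ + ‖f (a + r) - f a‖ := norm_add_le _ _
      _ ≤ Λ + r * Λ := add_le_add h2 h1
      _ = ((r + 1 : ℕ) : ℝ) * Λ := by push_cast; ring

/-- Periodic times slowly varying. Proof: split `[0, H)` into `⌊H/P⌋` blocks of length `P` and a
rest of length `< P`. In a block starting at `c0`, `|f(c) - f(c0)| ≤ P Λ`, so the block sum is
`f(c0) ∑_{one period} φ` up to `Φ P · P Λ`. Total: `(H/P) F |∑_{period} φ| + (H/P) Φ P² Λ + Φ P F`. -/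
theorem per_slow (φ f : ℕ → ℂ) (P H : ℕ) (hP : 0 < P) (Φ F Λ : ℝ) (hΦ : 0 ≤ Φ) (hF : 0 ≤ F)
    (hΛ : 0 ≤ Λ) (per : ∀ c, φ (c + P) = φ c) (bd : ∀ c, ‖φ c‖ ≤ Φ)
    (fb : ∀ c < H, ‖f c‖ ≤ F) (fl : ∀ c, c + 1 < H → ‖f (c + 1) - f c‖ ≤ Λ) :
    ‖∑ c ∈ range H, φ c * f c‖ ≤
      ‖∑ c ∈ range P, φ c‖ / P * F * H + Φ * P * (F + H * Λ) := by
  set S := ‖∑ c ∈ range P, φ c‖ with hS
  have hS0 : 0 ≤ S := norm_nonneg _
  have hP0 : (0 : ℝ) < P := by exact_mod_cast hP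
  have hblock : ∀ n : ℕ, (n + 1) * P ≤ H →
      ‖∑ r ∈ range P, φ (n * P + r) * f (n * P + r)‖ ≤ S * F + P * (Φ * (P * Λ)) := by
    intro n hn
    have hn' : n * P + P ≤ H := by
      have : (n + 1) * P = n * P + P := by ring
      omega
    have h1 : ∑ r ∈ range P, φ (n * P + r) * f (n * P + r) =
        (∑ r ∈ range P, φ r) * f (n * P) +
          ∑ r ∈ range P, φ r * (f (n * P + r) - f (n * P)) := by
      rw [Finset.sum_mul, ← Finset.sum_add_distrib]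
      apply Finset.sum_congr rfl
      intro r _
      rw [cb_per φ P per]
      ring
    rw [h1]
    refine (norm_add_le _ _).trans (add_le_add ?_ ?_)
    · rw [norm_mul]
      exact mul_le_mul_of_nonneg_left (fb _ (by omega)) hS0
    · calc ‖∑ r ∈ range P, φ r * (f (n * P + r) - f (n * P))‖
          ≤ ∑ r ∈ range P, ‖φ r * (f (n * P + r) - f (n * P))‖ := norm_sum_le _ _
        _ ≤ ∑ _r ∈ range P, Φ * (P * Λ) := by
            apply Finset.sum_le_sum
            intro r hr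
            have hr' := Finset.mem_range.mp hr
            rw [norm_mul]
            apply mul_le_mul (bd r) _ (norm_nonneg _) hΦ
            refine (cb_slow f H Λ fl (n * P) r (by omega)).trans ?_
            apply mul_le_mul_of_nonneg_right _ hΛ
            exact_mod_cast hr'.le
        _ = P * (Φ * (P * Λ)) := by
            rw [Finset.sum_const, Finset.card_range, nsmul_eq_mul]
  have hblocks : ∀ n : ℕ, n * P ≤ H →
      ‖∑ c ∈ range (n * P), φ c * f c‖ ≤ n * (S * F + P * (Φ * (P * Λ))) := by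
    intro n
    induction n with
    | zero => simp
    | succ n ih =>
      intro hn
      have hn' : n * P ≤ H := by
        have : (n + 1) * P = n * P + P := by ring
        omega
      rw [show (n + 1) * P = n * P + P by ring, Finset.sum_range_add]
      refine (norm_add_le _ _).trans ?_
      have h1 := ih hn'
      have h2 := hblock n hn
      push_cast
      linarith
  have hHd : H = H / P * P + H % P := by
    rw [mul_comm]
    exact (Nat.div_add_mod H P).symm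
  have hrest : ‖∑ r ∈ range (H % P), φ (H / P * P + r) * f (H / P * P + r)‖ ≤ P * (Φ * F) := by
    calc ‖∑ r ∈ range (H % P), φ (H / P * P + r) * f (H / P * P + r)‖
        ≤ ∑ r ∈ range (H % P), ‖φ (H / P * P + r) * f (H / P * P + r)‖ := norm_sum_le _ _
      _ ≤ ∑ _r ∈ range (H % P), Φ * F := by
          apply Finset.sum_le_sum
          intro r hr
          have hr' := Finset.mem_range.mp hr
          rw [norm_mul]
          exact mul_le_mul (bd _) (fb _ (by omega)) (norm_nonneg _) hΦ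
      _ = (H % P : ℕ) * (Φ * F) := by
          rw [Finset.sum_const, Finset.card_range, nsmul_eq_mul]
      _ ≤ P * (Φ * F) := by
          apply mul_le_mul_of_nonneg_right _ (mul_nonneg hΦ hF)
          exact_mod_cast (Nat.mod_lt H hP).le
  have hdiv : ((H / P : ℕ) : ℝ) ≤ H / P := Nat.cast_div_le
  have hmain := hblocks (H / P) (Nat.div_mul_le_self H P)
  have hsplit : ∑ c ∈ range H, φ c * f c = ∑ c ∈ range (H / P * P), φ c * f c +
      ∑ r ∈ range (H % P), φ (H / P * P + r) * f (H / P * P + r) := by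
    conv_lhs => rw [hHd]
    rw [Finset.sum_range_add]
  rw [hsplit]
  refine (norm_add_le _ _).trans ?_
  have hnn : 0 ≤ S * F + P * (Φ * (P * Λ)) := by positivity
  calc ‖∑ c ∈ range (H / P * P), φ c * f c‖ +
        ‖∑ r ∈ range (H % P), φ (H / P * P + r) * f (H / P * P + r)‖
      ≤ (H / P : ℕ) * (S * F + P * (Φ * (P * Λ))) + P * (Φ * F) := add_le_add hmain hrest
    _ ≤ (H / P : ℝ) * (S * F + P * (Φ * (P * Λ))) + P * (Φ * F) := by
        have := mul_le_mul_of_nonneg_right hdiv hnn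
        linarith
    _ = S / P * F * H + Φ * P * (F + H * Λ) := by
        field_simp
        ring

end Pool.Agent.Lib.H18Q
end

-- from Lib.H59T.Defs
section

/-!
# Project H59T (MP_443e5f_co, main terms): definitions for the local estimates
-/

open Finset

namespace Pool.Agent.Lib.H59T

noncomputable section

/-- The four-point sum of `χ` over a parallelogram. -/
def U4 {q : ℕ} [NeZero q] (χ : DirichletCharacter ℂ q) (a b : ZMod q) : ℂ :=
  ∑ s : ZMod q, χ s * star (χ (s + a)) * star (χ (s + b)) * χ (s + a + b)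

/-- The additive energy of `v ↦ χ(v - α) conj χ(v - β)`. -/
def En {q : ℕ} [NeZero q] (χ : DirichletCharacter ℂ q) (α β : ZMod q) : ℝ :=
  ∑ b : ZMod q, ‖∑ v : ZMod q, (χ (v - α) * star (χ (v - β))) *
    star (χ (v + b - α) * star (χ (v + b - β)))‖ ^ 2

/-- `∑_γ χ(γ² - P) conj χ(γ² - R)` -/
def Wc {q : ℕ} [NeZero q] (χ : DirichletCharacter ℂ q) (P R : ZMod q) : ℂ :=
  ∑ γ : ZMod q, χ (γ ^ 2 - P) * star (χ (γ ^ 2 - R))

/-- The sum of Lemma G. -/
def GS {q : ℕ} [NeZero q] (χ : DirichletCharacter ℂ q) (W W' : ZMod q → ℂ) : ℝ :=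
  ∑ z1 : ZMod q, ∑ z2 : ZMod q,
    ‖∑ y : ZMod q, χ (z1 + y) * star (χ (z2 + y)) * W (z1 - y) * W' (z2 - y)‖ ^ 2

end

end Pool.Agent.Lib.H59T
end

-- from Lib.H59T.K3
section

/-!
# Project H59T, chunk K3 (M): Kloosterman's fourth moment
-/

open Finset

namespace Pool.Agent.Lib.H59T

theorem k3_sq (z : ℂ) : ((‖z‖ ^ 2 : ℝ) : ℂ) = z * star z := by
  rw [Complex.star_def, Complex.mul_conj, Complex.normSq_eq_norm_sq]

/-- Proof. Expand the square in `En`: with `g(v) = χ(v-α) star χ(v-β)` it is the sum over `b, v, v'` of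
`g(v) star g(v+b) star g(v') g(v'+b)`. Sum over `α, β`: the sum over `α` is
`A(b,v,v') = ∑_α χ(v-α) star χ(v+b-α) star χ(v'-α) χ(v'+b-α)`, the sum over `β` its conjugate, so the left side is
`∑_{b,v,v'} ‖A‖²`. Substitute `v = c + p`, `v' = c - r`, `b = r - p` (bijection, since `2` is invertible:
`c = (v + v' + b)/2`, `p = v - c`, `r = c - v'`): the arguments are `c+p-α`, `c+r-α`, `c-r-α`, `c-p-α`, and with `γ = c - α`
`A = ∑_γ χ(γ² - p²) star χ(γ² - r²) = Wc χ (p²) (r²)`. The sum over `c` gives the factor `l`. -/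
theorem K3 (l : ℕ) [Fact l.Prime] (hl : l ≠ 2) (χ : DirichletCharacter ℂ l) :
    ∑ α : ZMod l, ∑ β : ZMod l, En χ α β =
      l * ∑ p : ZMod l, ∑ r : ZMod l, ‖Wc χ (p ^ 2) (r ^ 2)‖ ^ 2 := by
  -- the four point function
  let F : ZMod l → ZMod l → ZMod l → ZMod l → ℂ := fun b v v' x =>
    χ (v - x) * star (χ (v + b - x)) * star (χ (v' - x)) * χ (v' + b - x)
  have hE : ∀ α β : ZMod l, ((En χ α β : ℝ) : ℂ) =
      ∑ b : ZMod l, ∑ v : ZMod l, ∑ v' : ZMod l, F b v v' α * star (F b v v' β) := by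
    intro α β
    unfold En
    rw [Complex.ofReal_sum]
    refine sum_congr rfl fun b _ => ?_
    rw [k3_sq, star_sum, sum_mul_sum]
    refine sum_congr rfl fun v _ => sum_congr rfl fun v' _ => ?_
    simp only [F, star_mul', star_star]
    ring
  have hA : ((∑ α : ZMod l, ∑ β : ZMod l, En χ α β : ℝ) : ℂ) =
      ∑ b : ZMod l, ∑ v : ZMod l, ∑ v' : ZMod l, ((‖∑ x : ZMod l, F b v v' x‖ ^ 2 : ℝ) : ℂ) := by
    push_cast
    have h1 : ∀ α β : ZMod l, ((En χ α β : ℝ) : ℂ) =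
        ∑ t : ZMod l × ZMod l × ZMod l, F t.1 t.2.1 t.2.2 α * star (F t.1 t.2.1 t.2.2 β) := by
      intro α β
      rw [hE, Fintype.sum_prod_type]
      exact sum_congr rfl fun b _ => by rw [Fintype.sum_prod_type]
    have h2 : ∑ b : ZMod l, ∑ v : ZMod l, ∑ v' : ZMod l, ((‖∑ x : ZMod l, F b v v' x‖ : ℂ)) ^ 2 =
        ∑ t : ZMod l × ZMod l × ZMod l, ((‖∑ x : ZMod l, F t.1 t.2.1 t.2.2 x‖ : ℂ)) ^ 2 := by
      rw [Fintype.sum_prod_type]
      exact sum_congr rfl fun b _ => by rw [Fintype.sum_prod_type]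
    rw [h2]
    simp only [h1]
    rw [sum_comm_cycle]
    refine sum_congr rfl fun t _ => ?_
    have h3 := k3_sq (∑ x : ZMod l, F t.1 t.2.1 t.2.2 x)
    push_cast at h3
    rw [h3, star_sum, sum_mul_sum]
  have h2ne : (2 : ZMod l) ≠ 0 := by
    intro h
    have h1 : ((2 : ℕ) : ZMod l) = 0 := by exact_mod_cast h
    rw [ZMod.natCast_eq_zero_iff] at h1
    have := (Nat.prime_dvd_prime_iff_eq (Fact.out : l.Prime) Nat.prime_two).1 h1
    exact hl this
  -- substitution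
  have hA' : ∀ c p r : ZMod l, ∑ x : ZMod l, F (r - p) (c + p) (c - r) x = Wc χ (p ^ 2) (r ^ 2) := by
    intro c p r
    unfold Wc
    rw [← Equiv.sum_comp (Equiv.subLeft c)]
    refine sum_congr rfl fun x _ => ?_
    simp only [F, Equiv.subLeft_apply]
    have e1 : χ (x ^ 2 - p ^ 2) = χ (c + p - (c - x)) * χ (c - r + (r - p) - (c - x)) := by
      rw [← map_mul]
      congr 1
      ring
    have e2 : χ (x ^ 2 - r ^ 2) = χ (c + p + (r - p) - (c - x)) * χ (c - r - (c - x)) := by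
      rw [← map_mul]
      congr 1
      ring
    rw [e1, e2, star_mul']
    ring
  let φ : ZMod l × ZMod l × ZMod l → ZMod l × ZMod l × ZMod l :=
    fun t => (t.2.2 - t.2.1, t.1 + t.2.1, t.1 - t.2.2)
  have hφ : Function.Bijective φ := by
    rw [← Finite.injective_iff_bijective]
    rintro ⟨c, p, r⟩ ⟨c', p', r'⟩ h
    simp only [φ, Prod.mk.injEq] at h
    obtain ⟨h1, h2, h3⟩ := h
    have h4 : 2 * (c - c') = 0 := by linear_combination h1 + h2 + h3
    have h5 : c = c' := by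
      rcases mul_eq_zero.1 h4 with h | h
      · exact absurd h h2ne
      · exact sub_eq_zero.1 h
    subst h5
    have h6 : p = p' := by linear_combination h2
    have h7 : r = r' := by linear_combination -h3
    rw [h6, h7]
  have hfin : ((∑ α : ZMod l, ∑ β : ZMod l, En χ α β : ℝ) : ℂ) =
      ((l * ∑ p : ZMod l, ∑ r : ZMod l, ‖Wc χ (p ^ 2) (r ^ 2)‖ ^ 2 : ℝ) : ℂ) := by
    rw [hA]
    have h2 : ∑ b : ZMod l, ∑ v : ZMod l, ∑ v' : ZMod l, ((‖∑ x : ZMod l, F b v v' x‖ ^ 2 : ℝ) : ℂ) =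
        ∑ t : ZMod l × ZMod l × ZMod l, ((‖∑ x : ZMod l, F t.1 t.2.1 t.2.2 x‖ ^ 2 : ℝ) : ℂ) := by
      rw [Fintype.sum_prod_type]
      exact sum_congr rfl fun b _ => by rw [Fintype.sum_prod_type]
    rw [h2, ← hφ.sum_comp]
    have h3 : ∀ t : ZMod l × ZMod l × ZMod l,
        ((‖∑ x : ZMod l, F (φ t).1 (φ t).2.1 (φ t).2.2 x‖ ^ 2 : ℝ) : ℂ) =
        ((‖Wc χ (t.2.1 ^ 2) (t.2.2 ^ 2)‖ ^ 2 : ℝ) : ℂ) := by
      intro t
      simp only [φ]
      rw [hA']
    simp only [h3]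
    rw [Fintype.sum_prod_type]
    simp only [Fintype.sum_prod_type]
    rw [sum_const, card_univ, ZMod.card, nsmul_eq_mul]
    push_cast
    rfl
  exact_mod_cast hfin

/-- Proof. Substitute `v = α + (β - α) v'`, `b = (β - α) b'`:
`χ(v - α) star χ(v - β) = ‖χ(β - α)‖² χ(v') star χ(v' - 1)`, and `‖χ(β - α)‖ = 1`. -/
theorem K3_inv (l : ℕ) [Fact l.Prime] (χ : DirichletCharacter ℂ l) (α β : ZMod l) (h : α ≠ β) :
    En χ α β = En χ 0 1 := by
  have hδ : β - α ≠ 0 := sub_ne_zero.2 h.symm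
  set δ := β - α with hδdef
  have hn : χ δ * star (χ δ) = 1 := by
    rw [← k3_sq]
    have h1 : ‖χ δ‖ = 1 := by
      have := χ.unit_norm_eq_one (Units.mk0 δ hδ)
      rwa [Units.val_mk0] at this
    rw [h1]
    norm_num
  have hg : ∀ v : ZMod l, χ (α + δ * v - α) * star (χ (α + δ * v - β)) =
      χ (v - 0) * star (χ (v - 1)) := by
    intro v
    have e1 : α + δ * v - α = δ * (v - 0) := by ring
    have e2 : α + δ * v - β = δ * (v - 1) := by
      rw [hδdef]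
      ring
    rw [e1, e2, map_mul, map_mul, star_mul']
    linear_combination (χ (v - 0) * star (χ (v - 1))) * hn
  unfold En
  rw [← Equiv.sum_comp (Equiv.mulLeft₀ δ hδ)]
  refine sum_congr rfl fun b _ => ?_
  rw [← Equiv.sum_comp ((Equiv.mulLeft₀ δ hδ).trans (Equiv.addLeft α))]
  congr 2
  refine sum_congr rfl fun v _ => ?_
  simp only [Equiv.trans_apply, Equiv.coe_addLeft, Equiv.mulLeft₀_apply]
  rw [hg]
  have e3 : α + δ * v + δ * b = α + δ * (v + b) := by ring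
  rw [e3, hg]

end Pool.Agent.Lib.H59T
end

-- from Lib.H59T.K1
section

/-!
# Project H59T, chunk K1 (S/M): correlations of a character
-/

open Finset

namespace Pool.Agent.Lib.H59T

/-- `χ t * star (χ t)` is `1` off zero. -/
private theorem k1_norm (l : ℕ) [Fact l.Prime] (χ : DirichletCharacter ℂ l) (t : ZMod l)
    (ht : t ≠ 0) : χ t * star (χ t) = 1 := by
  have h1 : ‖χ t‖ = 1 := by
    have := DirichletCharacter.unit_norm_eq_one χ (Units.mk0 t ht)
    simpa using this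
  have h2 : star (χ t) = (starRingEnd ℂ) (χ t) := rfl
  rw [h2, Complex.mul_conj, Complex.normSq_eq_norm_sq, h1]
  norm_num

/-- `star (χ t) = χ t⁻¹`. -/
private theorem k1_star (l : ℕ) [Fact l.Prime] (χ : DirichletCharacter ℂ l) (t : ZMod l) :
    star (χ t) = χ (t⁻¹) := by
  by_cases ht : t = 0
  · subst ht
    rw [inv_zero]
    have : χ (0 : ZMod l) = 0 := MulChar.map_zero χ
    rw [this, star_zero]
  · have h1 := k1_norm l χ t ht
    have h2 : χ t * χ (t⁻¹) = 1 := by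
      rw [← map_mul, mul_inv_cancel₀ ht, map_one]
    have h3 : χ t ≠ 0 := by
      intro h0
      rw [h0, zero_mul] at h2
      exact zero_ne_one h2
    exact mul_left_cancel₀ h3 (h1.trans h2.symm)

/-- Proof. `δ = 0`: `χ t star (χ t) = ‖χ t‖² = 1` for `t ≠ 0` (`DirichletCharacter.unit_norm_eq_one`), `0` for `t = 0`. `δ ≠ 0`:
for `t ≠ 0` the term is `χ (1 + δ/t)` (`star (χ t) = χ (t⁻¹)`: `MulChar.star_apply`/`MulChar.inv_apply`), `t ↦ 1 + δ/t` is a
bijection from `t ≠ 0` to the elements `≠ 1`, and `∑_u χ u = 0` (`MulChar.sum_eq_zero_of_ne_one`). -/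
theorem K1_J (l : ℕ) [Fact l.Prime] (χ : DirichletCharacter ℂ l) (hχ : χ ≠ 1) (δ : ZMod l) :
    ∑ t : ZMod l, χ (t + δ) * star (χ t) = if δ = 0 then (l : ℂ) - 1 else -1 := by
  have h0 : χ (0 : ZMod l) = 0 := MulChar.map_zero χ
  by_cases hδ : δ = 0
  · subst hδ
    rw [if_pos rfl]
    have h1 : ∀ t : ZMod l, χ (t + 0) * star (χ t) = 1 - (if t = 0 then (1 : ℂ) else 0) := by
      intro t
      rw [add_zero]
      by_cases ht : t = 0
      · subst ht
        rw [h0, if_pos rfl]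
        simp
      · rw [if_neg ht, k1_norm l χ t ht, sub_zero]
    rw [Finset.sum_congr rfl (fun t _ => h1 t), Finset.sum_sub_distrib, Finset.sum_ite_eq']
    simp [ZMod.card]
  · rw [if_neg hδ]
    have h1 : ∀ t : ZMod l, χ (t + δ) * star (χ t)
        = χ (1 + δ * t⁻¹) - (if t = 0 then (1 : ℂ) else 0) := by
      intro t
      rw [k1_star]
      by_cases ht : t = 0
      · subst ht
        rw [inv_zero, h0, if_pos rfl, mul_zero, mul_zero, add_zero, map_one, sub_self]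
      · rw [if_neg ht, sub_zero, ← map_mul, add_mul, mul_inv_cancel₀ ht]
    rw [Finset.sum_congr rfl (fun t _ => h1 t), Finset.sum_sub_distrib, Finset.sum_ite_eq']
    have h2 : ∑ t : ZMod l, χ (1 + δ * t⁻¹) = ∑ u : ZMod l, χ u := by
      refine Fintype.sum_equiv
        ((Equiv.inv (ZMod l)).trans ((Equiv.mulLeft₀ δ hδ).trans (Equiv.addLeft (1 : ZMod l))))
        _ _ (fun t => ?_)
      simp
    rw [h2, MulChar.sum_eq_zero_of_ne_one hχ]
    simp

/-- Proof. For each `γ` at most two `γ'` (`γ' = γ` or `γ' = -γ`). -/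
theorem K1_sq (l : ℕ) [Fact l.Prime] :
    ((univ : Finset (ZMod l × ZMod l)).filter (fun x => x.1 ^ 2 = x.2 ^ 2)).card ≤ 2 * l := by
  have h1 : ((univ : Finset (ZMod l × ZMod l)).filter (fun x => x.1 ^ 2 = x.2 ^ 2))
      ⊆ ((univ : Finset (ZMod l)).image (fun γ => (γ, γ)))
        ∪ ((univ : Finset (ZMod l)).image (fun γ => (γ, -γ))) := by
    intro x hx
    rw [Finset.mem_filter] at hx
    rw [Finset.mem_union, Finset.mem_image, Finset.mem_image]
    rcases sq_eq_sq_iff_eq_or_eq_neg.mp hx.2 with h | h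
    · left
      exact ⟨x.1, Finset.mem_univ _, Prod.ext rfl h⟩
    · right
      refine ⟨x.1, Finset.mem_univ _, Prod.ext rfl ?_⟩
      show -x.1 = x.2
      rw [h, neg_neg]
  calc _ ≤ _ := Finset.card_le_card h1
    _ ≤ _ := Finset.card_union_le _ _
    _ ≤ l + l := by
        refine add_le_add ?_ ?_
        · refine Finset.card_image_le.trans ?_
          simp [ZMod.card]
        · refine Finset.card_image_le.trans ?_
          simp [ZMod.card]
    _ = 2 * l := by ring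

end Pool.Agent.Lib.H59T
end

-- from Lib.H59T.K2
section

/-!
# Project H59T, chunk K2 (M): the second moment
-/

open Finset

namespace Pool.Agent.Lib.H59T

theorem k2_sq (z : ℂ) : ((‖z‖ ^ 2 : ℝ) : ℂ) = z * star z := by
  rw [Complex.star_def, Complex.mul_conj, Complex.normSq_eq_norm_sq]

/-- Proof. Expand the square and exchange the sums: the sum over `P` of `χ(γ² - P) star χ(γ'² - P)` is
`J(γ² - γ'²)`, `J(δ) = ∑_t χ(t + δ) star χ(t)` (substitute `t = γ'² - P`), the sum over `R` is its conjugate. So the left side is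
`∑_{γ,γ'} ‖J(γ² - γ'²)‖²`, at most `2 l (l-1)² + l²` (`K1_J`, `K1_sq`; at most `2l` pairs with `J = l - 1`, the others
have `|J| = 1`), and `2 l (l-1)² + l² ≤ 2 l³`. -/
theorem K2 (l : ℕ) [Fact l.Prime] (χ : DirichletCharacter ℂ l) (hχ : χ ≠ 1) :
    ∑ P : ZMod l, ∑ R : ZMod l, ‖Wc χ P R‖ ^ 2 ≤ 2 * (l : ℝ) ^ 3 := by
  have hl2 : 2 ≤ l := (Fact.out : l.Prime).two_le
  have hlr : (2 : ℝ) ≤ l := by exact_mod_cast hl2
  let G : ZMod l → ZMod l → ZMod l → ℂ := fun γ γ' P => χ (γ ^ 2 - P) * star (χ (γ' ^ 2 - P))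
  have hJ : ∀ γ γ' : ZMod l, ∑ P : ZMod l, G γ γ' P =
      if γ ^ 2 = γ' ^ 2 then (l : ℂ) - 1 else -1 := by
    intro γ γ'
    rw [← Equiv.sum_comp (Equiv.subLeft (γ' ^ 2))]
    have h1 := K1_J l χ hχ (γ ^ 2 - γ' ^ 2)
    have h2 : ∑ t : ZMod l, G γ γ' (Equiv.subLeft (γ' ^ 2) t) =
        ∑ t : ZMod l, χ (t + (γ ^ 2 - γ' ^ 2)) * star (χ t) := by
      refine sum_congr rfl fun t _ => ?_
      simp only [G, Equiv.subLeft_apply]
      have e1 : γ ^ 2 - (γ' ^ 2 - t) = t + (γ ^ 2 - γ' ^ 2) := by ring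
      have e2 : γ' ^ 2 - (γ' ^ 2 - t) = t := by ring
      rw [e1, e2]
    rw [h2, h1]
    simp only [sub_eq_zero]
  have hA : ((∑ P : ZMod l, ∑ R : ZMod l, ‖Wc χ P R‖ ^ 2 : ℝ) : ℂ) =
      ((∑ x : ZMod l × ZMod l, ‖∑ P : ZMod l, G x.1 x.2 P‖ ^ 2 : ℝ) : ℂ) := by
    have h1 : ∀ P R : ZMod l, ((‖Wc χ P R‖ ^ 2 : ℝ) : ℂ) =
        ∑ x : ZMod l × ZMod l, G x.1 x.2 P * star (G x.1 x.2 R) := by
      intro P R
      rw [k2_sq]
      unfold Wc
      rw [star_sum, sum_mul_sum, Fintype.sum_prod_type]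
      refine sum_congr rfl fun γ _ => sum_congr rfl fun γ' _ => ?_
      simp only [G, star_mul', star_star]
      ring
    rw [Complex.ofReal_sum, Complex.ofReal_sum]
    have h2 : ∀ P : ZMod l, ((∑ R : ZMod l, ‖Wc χ P R‖ ^ 2 : ℝ) : ℂ) =
        ∑ R : ZMod l, ∑ x : ZMod l × ZMod l, G x.1 x.2 P * star (G x.1 x.2 R) := by
      intro P
      rw [Complex.ofReal_sum]
      exact sum_congr rfl fun R _ => h1 P R
    simp only [h2]
    rw [sum_comm_cycle]
    refine sum_congr rfl fun x _ => ?_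
    rw [k2_sq, star_sum, sum_mul_sum]
  have hB : ∑ P : ZMod l, ∑ R : ZMod l, ‖Wc χ P R‖ ^ 2 =
      ∑ x : ZMod l × ZMod l, ‖∑ P : ZMod l, G x.1 x.2 P‖ ^ 2 := by exact_mod_cast hA
  rw [hB]
  have hpt : ∀ x : ZMod l × ZMod l, ‖∑ P : ZMod l, G x.1 x.2 P‖ ^ 2 ≤
      (if x.1 ^ 2 = x.2 ^ 2 then ((l : ℝ) - 1) ^ 2 else 0) + 1 := by
    intro x
    rw [hJ]
    split_ifs with h
    · have h3 : ((l : ℂ) - 1) = (((l : ℝ) - 1 : ℝ) : ℂ) := by push_cast; rfl
      rw [h3, Complex.norm_real, Real.norm_eq_abs, sq_abs]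
      linarith
    · rw [norm_neg, norm_one]
      norm_num
  refine (sum_le_sum fun x _ => hpt x).trans ?_
  rw [sum_add_distrib, ← sum_filter, sum_const, sum_const, nsmul_eq_mul, nsmul_eq_mul, mul_one,
    card_univ, Fintype.card_prod, ZMod.card]
  have h4 : ((((univ : Finset (ZMod l × ZMod l)).filter (fun x => x.1 ^ 2 = x.2 ^ 2)).card : ℕ) : ℝ) ≤
      2 * l := by exact_mod_cast K1_sq l
  have h5 : 0 ≤ ((l : ℝ) - 1) ^ 2 := sq_nonneg _
  push_cast
  nlinarith [mul_le_mul_of_nonneg_right h4 h5]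

theorem k2_fib (l : ℕ) [Fact l.Prime] (f : ZMod l → ℝ) (hf : ∀ x, 0 ≤ f x) :
    ∑ p : ZMod l, f (p ^ 2) ≤ 2 * ∑ P : ZMod l, f P := by
  classical
  rw [← sum_fiberwise_of_maps_to (g := fun p : ZMod l => p ^ 2) (t := univ) (fun _ _ => mem_univ _),
    mul_sum]
  refine sum_le_sum fun P _ => ?_
  have h1 : ∀ p ∈ (univ : Finset (ZMod l)).filter (fun p => p ^ 2 = P), f (p ^ 2) = f P := by
    intro p hp
    rw [(mem_filter.1 hp).2]
  rw [sum_congr rfl h1, sum_const, nsmul_eq_mul]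
  refine mul_le_mul_of_nonneg_right ?_ (hf P)
  have h2 : ((univ : Finset (ZMod l)).filter (fun p => p ^ 2 = P)).card ≤ 2 := by
    by_cases hex : ∃ q : ZMod l, q ^ 2 = P
    · obtain ⟨q, hq⟩ := hex
      refine (card_le_card (t := {q, -q}) ?_).trans card_le_two
      intro p hp
      have h3 := (mem_filter.1 hp).2
      rw [← hq] at h3
      rw [mem_insert, mem_singleton]
      exact sq_eq_sq_iff_eq_or_eq_neg.1 h3
    · push Not at hex
      have h4 : (univ : Finset (ZMod l)).filter (fun p => p ^ 2 = P) = ∅ := by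
        rw [filter_eq_empty_iff]
        exact fun q _ => hex q
      rw [h4, card_empty]
      omega
  exact_mod_cast h2

/-- Proof. The map `(p, r) ↦ (p², r²)` has fibres with at most four elements. -/
theorem K2_sq (l : ℕ) [Fact l.Prime] (χ : DirichletCharacter ℂ l) (hχ : χ ≠ 1) :
    ∑ p : ZMod l, ∑ r : ZMod l, ‖Wc χ (p ^ 2) (r ^ 2)‖ ^ 2 ≤ 8 * (l : ℝ) ^ 3 := by
  have h1 : ∀ P : ZMod l, ∑ r : ZMod l, ‖Wc χ P (r ^ 2)‖ ^ 2 ≤ 2 * ∑ R : ZMod l, ‖Wc χ P R‖ ^ 2 :=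
    fun P => k2_fib l (fun R => ‖Wc χ P R‖ ^ 2) (fun _ => by positivity)
  calc ∑ p : ZMod l, ∑ r : ZMod l, ‖Wc χ (p ^ 2) (r ^ 2)‖ ^ 2
      ≤ ∑ p : ZMod l, 2 * ∑ R : ZMod l, ‖Wc χ (p ^ 2) R‖ ^ 2 := sum_le_sum fun p _ => h1 _
    _ ≤ 2 * ∑ P : ZMod l, 2 * ∑ R : ZMod l, ‖Wc χ P R‖ ^ 2 :=
        k2_fib l (fun P => 2 * ∑ R : ZMod l, ‖Wc χ P R‖ ^ 2)
          (fun _ => mul_nonneg zero_le_two (sum_nonneg fun _ _ => by positivity))
    _ = 4 * ∑ P : ZMod l, ∑ R : ZMod l, ‖Wc χ P R‖ ^ 2 := by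
        rw [← mul_sum]
        ring
    _ ≤ 8 * (l : ℝ) ^ 3 := by linarith [K2 l χ hχ]

end Pool.Agent.Lib.H59T
end

-- from Lib.SZW.D0
section

/-!
# Weyl sums over a commutative ring with a finite basis over the integers: definitions

`R` is a commutative ring with a `ℤ`-basis `b : Basis ι ℤ R`, `ι` finite, `d = card ι`. For
`x : ι → ℤ` let `E b x = ∑ x i • b i`. Boxes are products of intervals `a i ≤ x i < c i`. The phases
are values of additive maps `θ : R →+ ℝ`, modulo `1`; `nn t` is the distance from `t` to the nearest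
integer, `ee t = exp (2 π i t)`.
-/

set_option autoImplicit false

namespace Pool.Agent.SZW

/-- `exp (2 π i t)` -/
noncomputable def ee (t : ℝ) : ℂ := Complex.exp (2 * Real.pi * t * Complex.I)

/-- the distance from `t` to the nearest integer -/
noncomputable def nn (t : ℝ) : ℝ := |t - round t|

variable {ι : Type*} [Fintype ι] [DecidableEq ι]

/-- the box `a i ≤ x i < c i` -/
noncomputable def box (a c : ι → ℤ) : Finset (ι → ℤ) := Fintype.piFinset fun i => Finset.Ico (a i) (c i)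

/-- the sides of the box are at most `P` -/
def Side (a c : ι → ℤ) (P : ℕ) : Prop := ∀ i, c i - a i ≤ P

/-- the element with coordinates `x` -/
noncomputable def E {R : Type*} [CommRing R] (b : Module.Basis ι ℤ R) (x : ι → ℤ) : R := ∑ i, x i • b i

/-- the value of the affine form with coefficients `γ` and constant term `γ₀` -/
def aff (γ : ι → ℝ) (γ₀ : ℝ) (x : ι → ℤ) : ℝ := ∑ i, (x i : ℝ) * γ i + γ₀

/-- the exponential sum with phase `φ` over a box -/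
noncomputable def sm (a c : ι → ℤ) (φ : (ι → ℤ) → ℝ) : ℂ := ∑ x ∈ box a c, ee (φ x)

end Pool.Agent.SZW
end

-- from Lib.SZW.A1
section

/-!
# A1 (S): the distance to the nearest integer
-/

set_option autoImplicit false

namespace Pool.Agent.SZW

theorem nn_nonneg (t : ℝ) : 0 ≤ nn t := abs_nonneg _

theorem nn_le_half (t : ℝ) : nn t ≤ 1 / 2 := abs_sub_round t

/-- `round_le` -/
theorem nn_le (t : ℝ) (k : ℤ) : nn t ≤ |t - k| := round_le t k

theorem nn_neg (t : ℝ) : nn (-t) = nn t := by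
  have h1 : ∀ t : ℝ, nn (-t) ≤ nn t := by
    intro t
    have h2 := nn_le (-t) (-round t)
    have h3 : (-t) - ((-round t : ℤ) : ℝ) = -(t - (round t : ℝ)) := by push_cast; ring
    rw [h3, abs_neg] at h2
    exact h2
  refine le_antisymm (h1 t) ?_
  have h4 := h1 (-t)
  rwa [neg_neg] at h4

theorem nn_add (s t : ℝ) : nn (s + t) ≤ nn s + nn t := by
  have h2 := nn_le (s + t) (round s + round t)
  have h3 : (s + t) - ((round s + round t : ℤ) : ℝ) = (s - (round s : ℝ)) + (t - (round t : ℝ)) := by push_cast; ring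
  rw [h3] at h2
  exact h2.trans (abs_add_le _ _)

theorem nn_sub (s t : ℝ) : nn (s - t) ≤ nn s + nn t := by
  have h := nn_add s (-t)
  rwa [nn_neg, ← sub_eq_add_neg] at h

theorem nn_int_add (t : ℝ) (k : ℤ) : nn (t + k) = nn t := by
  unfold nn
  rw [round_add_intCast]
  congr 1
  push_cast
  ring

theorem a1_small {s : ℝ} (hs : |s| ≤ 1 / 2) : nn s = |s| := by
  refine le_antisymm ?_ ?_
  · have h3 := nn_le s 0
    rwa [Int.cast_zero, sub_zero] at h3
  · by_cases h0 : round s = 0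
    · unfold nn
      rw [h0, Int.cast_zero, sub_zero]
    · have h1 : (1 : ℝ) ≤ |(round s : ℝ)| := by
        have h2 : (1 : ℤ) ≤ |round s| := Int.one_le_abs h0
        have h3 : ((1 : ℤ) : ℝ) ≤ ((|round s| : ℤ) : ℝ) := by exact_mod_cast h2
        rwa [Int.cast_one, Int.cast_abs] at h3
      have h4 : |(round s : ℝ)| ≤ |s| + |s - (round s : ℝ)| := by
        have h5 := abs_sub_abs_le_abs_sub (round s : ℝ) s
        rw [abs_sub_comm (round s : ℝ) s] at h5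
        linarith
      unfold nn
      linarith

/-- multiples: for `k * nn t ≤ 1 / 2` the distance is multiplied exactly -/
theorem nn_mul (t : ℝ) (k : ℕ) (h : k * nn t ≤ 1 / 2) : nn (k * t) = k * nn t := by
  have h1 : (k : ℝ) * t = (k : ℝ) * (t - (round t : ℝ)) + (((k : ℤ) * round t : ℤ) : ℝ) := by push_cast; ring
  have h2 : |(k : ℝ) * (t - (round t : ℝ))| = (k : ℝ) * nn t := by
    rw [abs_mul, Nat.abs_cast]
    rfl
  rw [h1, nn_int_add, ← h2]
  exact a1_small (by rw [h2]; exact h)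


end Pool.Agent.SZW
end

-- from Lib.SZW.A2
section

/-!
# A2 (S/M): the exponential function and geometric sums
-/

set_option autoImplicit false

namespace Pool.Agent.SZW

theorem ee_add (s t : ℝ) : ee (s + t) = ee s * ee t := by
  unfold ee
  rw [← Complex.exp_add]
  congr 1
  push_cast
  ring

theorem ee_zero : ee 0 = 1 := by
  unfold ee
  simp

theorem norm_ee (t : ℝ) : ‖ee t‖ = 1 := by
  unfold ee
  have h : 2 * (Real.pi : ℂ) * (t : ℂ) * Complex.I = ((2 * Real.pi * t : ℝ) : ℂ) * Complex.I := by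
    push_cast
    ring
  rw [h, Complex.norm_exp_ofReal_mul_I]

theorem ee_int (k : ℤ) : ee k = 1 := by
  unfold ee
  have h : 2 * (Real.pi : ℂ) * ((k : ℝ) : ℂ) * Complex.I = k * (2 * Real.pi * Complex.I) := by
    push_cast
    ring
  rw [h, Complex.exp_int_mul_two_pi_mul_I]

/-- complex conjugation -/
theorem conj_ee (t : ℝ) : (starRingEnd ℂ) (ee t) = ee (-t) := by
  unfold ee
  rw [← Complex.exp_conj]
  congr 1
  have h2 : (starRingEnd ℂ) 2 = 2 := Complex.conj_ofNat 2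
  rw [map_mul, map_mul, map_mul, h2, Complex.conj_ofReal, Complex.conj_ofReal, Complex.conj_I]
  push_cast
  ring

theorem ee_sum {κ : Type*} (s : Finset κ) (f : κ → ℝ) : ee (∑ i ∈ s, f i) = ∏ i ∈ s, ee (f i) := by
  classical
  induction s using Finset.induction_on with
  | empty => simp [ee_zero]
  | insert a s ha ih => rw [Finset.sum_insert ha, Finset.prod_insert ha, ee_add, ih]

/-- `‖1 - ee t‖ = 2 |sin (π t)| ≥ 4 nn t` (Jordan's inequality `Real.mul_le_sin`) -/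
theorem norm_one_sub_ee (t : ℝ) : 4 * nn t ≤ ‖1 - ee t‖ := by
  have h1 : ee t = ee (t - round t) := by
    have h2 : t = (t - round t) + ((round t : ℤ) : ℝ) := by ring
    conv_lhs => rw [h2]
    rw [ee_add, ee_int, mul_one]
  have h3 : |t - round t| ≤ 1 / 2 := abs_sub_round t
  rw [h1]
  unfold nn
  set s := t - round t with hs
  have h4 : ‖1 - ee s‖ = ‖2 * Real.sin (Real.pi * s)‖ := by
    rw [norm_sub_rev]
    have h5 := Complex.norm_exp_I_mul_ofReal_sub_one (2 * Real.pi * s)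
    have h6 : 2 * Real.pi * s / 2 = Real.pi * s := by ring
    rw [h6] at h5
    rw [← h5]
    unfold ee
    congr 3
    push_cast
    ring
  rw [h4, Real.norm_eq_abs, abs_mul, abs_two]
  have h7 : |Real.sin (Real.pi * s)| = |Real.sin (Real.pi * |s|)| := by
    rcases le_or_gt 0 s with h | h
    · rw [abs_of_nonneg h]
    · rw [abs_of_neg h, mul_neg, Real.sin_neg, abs_neg]
  have h8 : 2 / Real.pi * (Real.pi * |s|) ≤ Real.sin (Real.pi * |s|) := by
    refine Real.mul_le_sin (by positivity) ?_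
    have := Real.pi_pos
    nlinarith
  have h9 : 2 / Real.pi * (Real.pi * |s|) = 2 * |s| := by
    field_simp
  rw [h9] at h8
  rw [h7]
  have h10 := le_abs_self (Real.sin (Real.pi * |s|))
  linarith

/-- Geometric sums: `S (1 - ee t) = ee (a t) - ee (c t)`. -/
theorem geom_bound (a c : ℤ) (t : ℝ) : ‖∑ n ∈ Finset.Ico a c, ee (n * t)‖ * (2 * nn t) ≤ 1 := by
  have key : ∀ k : ℕ, (∑ n ∈ Finset.Ico a (a + k), ee (n * t)) * (1 - ee t) =
      ee (a * t) - ee ((a + k : ℝ) * t) := by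
    intro k
    induction k with
    | zero => simp
    | succ k ih =>
      have h1 : Finset.Ico a (a + ((k + 1 : ℕ) : ℤ)) = insert (a + (k : ℤ)) (Finset.Ico a (a + k)) := by
        ext n
        simp only [Finset.mem_Ico, Finset.mem_insert]
        push_cast
        omega
      rw [h1, Finset.sum_insert (by simp), add_mul, ih]
      have h2 : ee ((a + ((k + 1 : ℕ) : ℝ)) * t) = ee ((a + k : ℝ) * t) * ee t := by
        rw [← ee_add]
        congr 1
        push_cast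
        ring
      rw [h2]
      push_cast
      ring
  rcases le_or_gt c a with h | h
  · rw [Finset.Ico_eq_empty (by omega), Finset.sum_empty, norm_zero, zero_mul]
    exact zero_le_one
  · obtain ⟨k, hk⟩ : ∃ k : ℕ, c = a + k := ⟨(c - a).toNat, by omega⟩
    subst hk
    have h1 := norm_one_sub_ee t
    have h2 : ‖∑ n ∈ Finset.Ico a (a + k), ee (n * t)‖ * ‖1 - ee t‖ ≤ 2 := by
      rw [← norm_mul, key k]
      refine (norm_sub_le _ _).trans ?_
      rw [norm_ee, norm_ee]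
      norm_num
    have h3 := mul_le_mul_of_nonneg_left h1 (norm_nonneg (∑ n ∈ Finset.Ico a (a + k), ee (n * t)))
    linarith

/-- trivial bound -/
theorem geom_le (a c : ℤ) (t : ℝ) (P : ℕ) (h : c - a ≤ P) :
    ‖∑ n ∈ Finset.Ico a c, ee (n * t)‖ ≤ P := by
  refine (norm_sum_le _ _).trans ?_
  have h1 : ∀ n ∈ Finset.Ico a c, ‖ee (n * t)‖ = 1 := fun n _ => norm_ee _
  rw [Finset.sum_congr rfl h1, Finset.sum_const, nsmul_eq_mul, mul_one, Int.card_Ico]
  have h2 : (c - a).toNat ≤ P := by omega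
  exact_mod_cast h2

end Pool.Agent.SZW
end

-- from Lib.SZW.A3
section

/-!
# A3 (S/M): two elements of a dense set with a small difference
-/

set_option autoImplicit false

namespace Pool.Agent.SZW

/-- Let `s = ⌊2 / ρ⌋ + 1`. If no two elements of `A` are in the same interval
`[k s, (k + 1) s)`, then `|A| ≤ N / s + 1 < ρ N / 2 + 1 ≤ ρ N`. (Pigeonhole for the map `n ↦ n / s`.) -/
theorem exists_gap {A : Finset ℕ} {N : ℕ} {ρ : ℝ} (hρ : 0 < ρ) (h2 : 2 ≤ ρ * N)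
    (hA : ∀ n ∈ A, n < N) (hc : ρ * N ≤ A.card) :
    ∃ n ∈ A, ∃ n' ∈ A, n < n' ∧ ((n' - n : ℕ) : ℝ) ≤ 2 / ρ := by
  obtain ⟨s, hs⟩ : ∃ s : ℕ, s = ⌊2 / ρ⌋₊ + 1 := ⟨_, rfl⟩
  have hs0 : 0 < s := by omega
  have hs1 : 2 / ρ < (s : ℝ) := by
    rw [hs]
    push_cast
    exact Nat.lt_floor_add_one _
  have hN : (0 : ℝ) < (N : ℝ) := by
    by_contra hcon
    have h3 : ρ * (N : ℝ) ≤ 0 := mul_nonpos_of_nonneg_of_nonpos hρ.le (not_lt.1 hcon)
    linarith
  have hmap : ∀ n ∈ A, n / s ∈ Finset.range (N / s + 1) := by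
    intro n hn
    rw [Finset.mem_range]
    have h4 : n / s ≤ N / s := Nat.div_le_div_right (hA n hn).le
    omega
  have hcard : (Finset.range (N / s + 1)).card < A.card := by
    rw [Finset.card_range]
    have h5 : ((N / s : ℕ) : ℝ) ≤ (N : ℝ) / (s : ℝ) := Nat.cast_div_le
    have hs0' : (0 : ℝ) < (s : ℝ) := by exact_mod_cast hs0
    have h6 : (N : ℝ) / (s : ℝ) < ρ * N / 2 := by
      rw [div_lt_iff₀ hs0']
      have h7 : 2 < (s : ℝ) * ρ := (div_lt_iff₀ hρ).1 hs1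
      nlinarith
    have h8 : (((N / s + 1 : ℕ) : ℕ) : ℝ) < (A.card : ℝ) := by
      push_cast
      linarith
    exact_mod_cast h8
  obtain ⟨x, hx, y, hy, hxy, hxy'⟩ := Finset.exists_ne_map_eq_of_card_lt_of_maps_to hcard hmap
  have key : ∀ x ∈ A, ∀ y ∈ A, x < y → x / s = y / s → ∃ n ∈ A, ∃ n' ∈ A, n < n' ∧ ((n' - n : ℕ) : ℝ) ≤ 2 / ρ := by
    intro x hx y hy hlt heq
    refine ⟨x, hx, y, hy, hlt, ?_⟩
    have h1 := Nat.div_add_mod x s
    have h2 := Nat.div_add_mod y s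
    have h3 := Nat.mod_lt x hs0
    have h4 := Nat.mod_lt y hs0
    rw [heq] at h1
    have h5 : y - x ≤ ⌊2 / ρ⌋₊ := by omega
    have h6 : ((y - x : ℕ) : ℝ) ≤ ((⌊2 / ρ⌋₊ : ℕ) : ℝ) := by exact_mod_cast h5
    exact h6.trans (Nat.floor_le (by positivity))
  rcases lt_or_gt_of_ne hxy with h | h
  · exact key x hx y hy h hxy'
  · exact key y hy x hx h hxy'.symm

end Pool.Agent.SZW
end

-- from Lib.SZW.A4
section

/-!
# A4 (M): elements of `A` in one window
-/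

set_option autoImplicit false

namespace Pool.Agent.SZW

/-- Let `η = nn (q α) > 0`, `w = ⌊1 / (2 η)⌋`. Elements `n < n'` of `A` with `n ≡ n' mod q` and
`n / q / w = n' / q / w` have `n' = n + t q` with `t < w`, so `t η ≤ 1 / 2`, and
`t η = nn (t q α) ≤ nn (n' α + β) + nn (n α + β) ≤ 2 ε`. So the elements of `A` with given
`n % q` and `n / q / w` are among `n₀, n₀ + q, ..., n₀ + ⌊2 ε / η⌋ q`, `n₀` the smallest of them. -/
theorem fibre_card {A : Finset ℕ} {q : ℕ} {α β ε : ℝ} (hq : 1 ≤ q) (hη : 0 < nn (q * α))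
    (hε : 0 ≤ ε) (hA : ∀ n ∈ A, nn (n * α + β) ≤ ε) (r k : ℕ) :
    ((A.filter fun n => n % q = r ∧ n / q / ⌊1 / (2 * nn (q * α))⌋₊ = k).card : ℝ) ≤
      2 * ε / nn (q * α) + 1 := by
  classical
  set η : ℝ := nn (q * α) with hηd
  set w : ℕ := ⌊1 / (2 * η)⌋₊ with hw
  set S : Finset ℕ := A.filter fun n => n % q = r ∧ n / q / w = k with hS
  have hq0 : 0 < q := hq
  have hwη : (w : ℝ) * η ≤ 1 / 2 := by
    have h1 : (w : ℝ) ≤ 1 / (2 * η) := Nat.floor_le (by positivity)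
    calc (w : ℝ) * η ≤ 1 / (2 * η) * η := mul_le_mul_of_nonneg_right h1 hη.le
      _ = 1 / 2 := by field_simp
  have hw1 : 1 ≤ w := by
    rw [hw]
    refine Nat.le_floor ?_
    rw [Nat.cast_one, le_div_iff₀ (by positivity)]
    have := nn_le_half (q * α)
    linarith
  rcases S.eq_empty_or_nonempty with h | h
  · rw [h, Finset.card_empty, Nat.cast_zero]
    positivity
  set n₀ : ℕ := S.min' h with hn₀
  have hn₀S : n₀ ∈ S := S.min'_mem h
  have hmin : ∀ n ∈ S, n₀ ≤ n := fun n hn => S.min'_le n hn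
  have hmem : ∀ n ∈ S, n ∈ A ∧ n % q = r ∧ n / q / w = k := by
    intro n hn
    rw [hS, Finset.mem_filter] at hn
    exact hn
  obtain ⟨h1, h2, h3⟩ := hmem n₀ hn₀S
  have hkey : ∀ n ∈ S, n / q - n₀ / q ∈ Finset.range (⌊2 * ε / η⌋₊ + 1) := by
    intro n hn
    obtain ⟨g1, g2, g3⟩ := hmem n hn
    have hle : n₀ / q ≤ n / q := Nat.div_le_div_right (hmin n hn)
    set t : ℕ := n / q - n₀ / q with ht
    have htw : t ≤ w := by
      have e1 := Nat.div_add_mod (n / q) w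
      have e2 := Nat.div_add_mod (n₀ / q) w
      rw [g3] at e1
      rw [h3] at e2
      have e3 := Nat.mod_lt (n / q) (by omega : w > 0)
      omega
    have hnt : (n : ℝ) = n₀ + t * q := by
      have e1 := Nat.div_add_mod n q
      have e2 := Nat.div_add_mod n₀ q
      rw [g2] at e1
      rw [h2] at e2
      have e4 : n = n₀ + t * q := by
        have e5 : n / q = n₀ / q + t := by omega
        rw [e5] at e1
        rw [← e1]
        nth_rewrite 2 [← e2]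
        ring
      exact_mod_cast e4
    have hth : (t : ℝ) * η ≤ 1 / 2 := by
      have : (t : ℝ) ≤ w := by exact_mod_cast htw
      exact (mul_le_mul_of_nonneg_right this hη.le).trans hwη
    have hmul := nn_mul (q * α) t hth
    have hsub := nn_sub (n * α + β) (n₀ * α + β)
    have e : (n : ℝ) * α + β - (n₀ * α + β) = t * (q * α) := by
      rw [hnt]
      ring
    rw [e, hmul] at hsub
    have h5 := hA n g1
    have h6 := hA n₀ h1
    have h7 : (t : ℝ) * η ≤ 2 * ε := by linarith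
    rw [Finset.mem_range]
    refine Nat.lt_succ_of_le (Nat.le_floor ?_)
    rw [le_div_iff₀ hη]
    exact h7
  have hcard : S.card ≤ ⌊2 * ε / η⌋₊ + 1 := by
    have h4 := Finset.card_le_card_of_injOn (s := S) (t := Finset.range (⌊2 * ε / η⌋₊ + 1))
      (fun n => n / q - n₀ / q) (fun n hn => hkey n hn) ?_
    · rwa [Finset.card_range] at h4
    · intro n hn n' hn' hnn
      obtain ⟨g1, g2, g3⟩ := hmem n hn
      obtain ⟨g1', g2', g3'⟩ := hmem n' hn'
      have hle : n₀ / q ≤ n / q := Nat.div_le_div_right (hmin n hn)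
      have hle' : n₀ / q ≤ n' / q := Nat.div_le_div_right (hmin n' hn')
      have e0 : n / q - n₀ / q = n' / q - n₀ / q := hnn
      have e1 := Nat.div_add_mod n q
      have e2 := Nat.div_add_mod n' q
      have e3 : n / q = n' / q := by omega
      rw [← e1, ← e2, e3, g2, g2']
  have h8 : (⌊2 * ε / η⌋₊ : ℝ) ≤ 2 * ε / η := Nat.floor_le (by positivity)
  have h9 : (S.card : ℝ) ≤ ⌊2 * ε / η⌋₊ + 1 := by exact_mod_cast hcard
  linarith

end Pool.Agent.SZW
end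

-- from Lib.SZW.A5
section

/-!
# A5 (M): the number of elements of `A`
-/

set_option autoImplicit false

namespace Pool.Agent.SZW

/-- Count `A` by the pairs `(n % q, n / q / w)`, `w = ⌊1 / (2 η)⌋ ≥ 1`: there are at most
`q ((N / q) / w + 1)` of them (`N / q`, `/ w` natural divisions), so
`|A| ≤ (2 ε / η + 1) (N / w + q) ≤ (2 ε / η + 1) (4 η N + q)`, as `1 / w ≤ 4 η` (`⌊x⌋ ≥ x / 2` for
`x ≥ 1`). -/
theorem card_bound {A : Finset ℕ} {N q : ℕ} {α β ε : ℝ} (hq : 1 ≤ q) (hη : 0 < nn (q * α))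
    (hN : ∀ n ∈ A, n < N) (hε : 0 ≤ ε) (hA : ∀ n ∈ A, nn (n * α + β) ≤ ε) :
    (A.card : ℝ) ≤ (2 * ε / nn (q * α) + 1) * (4 * nn (q * α) * N + q) := by
  classical
  set η : ℝ := nn (q * α) with hηd
  set w : ℕ := ⌊1 / (2 * η)⌋₊ with hw
  have hq0 : (0 : ℝ) < q := by exact_mod_cast hq
  have hηh : η ≤ 1 / 2 := nn_le_half (q * α)
  have hx1 : 1 ≤ 1 / (2 * η) := by
    rw [le_div_iff₀ (by positivity)]
    linarith
  have hw1 : 1 ≤ w := by
    rw [hw]
    exact Nat.le_floor (by simpa using hx1)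
  have hw1' : (1 : ℝ) ≤ w := by exact_mod_cast hw1
  have hw2 : 1 / (4 * η) ≤ w := by
    have h1 := Nat.lt_floor_add_one (1 / (2 * η))
    have h2 : 1 / (2 * η) = 2 * (1 / (4 * η)) := by
      field_simp
      ring
    rw [← hw, h2] at h1
    linarith
  have hmaps : ∀ n ∈ A, (n % q, n / q / w) ∈ Finset.range q ×ˢ Finset.range (N / q / w + 1) := by
    intro n hn
    rw [Finset.mem_product, Finset.mem_range, Finset.mem_range]
    refine ⟨Nat.mod_lt _ hq, Nat.lt_succ_of_le ?_⟩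
    exact Nat.div_le_div_right (Nat.div_le_div_right (hN n hn).le)
  have hcard := Finset.card_eq_sum_card_fiberwise (f := fun n => (n % q, n / q / w)) (s := A)
    (t := Finset.range q ×ˢ Finset.range (N / q / w + 1)) hmaps
  have hfib : ∀ p ∈ Finset.range q ×ˢ Finset.range (N / q / w + 1),
      ((A.filter fun n => (n % q, n / q / w) = p).card : ℝ) ≤ 2 * ε / η + 1 := by
    intro p _
    have h1 := fibre_card (A := A) (q := q) (α := α) (β := β) (ε := ε) hq hη hε hA p.1 p.2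
    have h2 : (A.filter fun n => (n % q, n / q / w) = p) =
        A.filter fun n => n % q = p.1 ∧ n / q / w = p.2 := by
      refine Finset.filter_congr (fun n _ => ?_)
      rw [Prod.ext_iff]
    rw [h2]
    exact h1
  have hB : 0 ≤ 2 * ε / η + 1 := by positivity
  have h3 : (A.card : ℝ) ≤ ((q * (N / q / w + 1) : ℕ) : ℝ) * (2 * ε / η + 1) := by
    rw [hcard]
    push_cast
    calc ∑ p ∈ Finset.range q ×ˢ Finset.range (N / q / w + 1),
          ((A.filter fun n => (n % q, n / q / w) = p).card : ℝ)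
        ≤ ∑ _p ∈ Finset.range q ×ˢ Finset.range (N / q / w + 1), (2 * ε / η + 1) :=
          Finset.sum_le_sum hfib
      _ = (q : ℝ) * (((N / q / w : ℕ) : ℝ) + 1) * (2 * ε / η + 1) := by
          rw [Finset.sum_const, Finset.card_product, Finset.card_range, Finset.card_range,
            nsmul_eq_mul]
          push_cast
          ring
  have h4 : ((q * (N / q / w + 1) : ℕ) : ℝ) ≤ 4 * η * N + q := by
    push_cast
    have h5 : ((N / q / w : ℕ) : ℝ) ≤ ((N / q : ℕ) : ℝ) / w := Nat.cast_div_le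
    have h6 : ((N / q : ℕ) : ℝ) ≤ (N : ℝ) / q := Nat.cast_div_le
    have h7 : ((N / q : ℕ) : ℝ) / w ≤ (N : ℝ) / q / w :=
      div_le_div_of_nonneg_right h6 (by linarith)
    have h8 : (q : ℝ) * ((N : ℝ) / q / w) = N / w := by
      field_simp
    have h9 : (N : ℝ) / w ≤ 4 * η * N := by
      rw [div_le_iff₀ (by linarith)]
      have h10 : 1 ≤ 4 * η * w := by
        rw [div_le_iff₀ (by positivity)] at hw2
        linarith
      have h11 : (0 : ℝ) ≤ N := Nat.cast_nonneg _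
      nlinarith
    have h12 : (q : ℝ) * ((N / q / w : ℕ) : ℝ) ≤ 4 * η * N := by
      calc (q : ℝ) * ((N / q / w : ℕ) : ℝ) ≤ q * ((N : ℝ) / q / w) :=
            mul_le_mul_of_nonneg_left (h5.trans h7) hq0.le
        _ = N / w := h8
        _ ≤ _ := h9
    linarith
  calc (A.card : ℝ) ≤ ((q * (N / q / w + 1) : ℕ) : ℝ) * (2 * ε / η + 1) := h3
    _ ≤ (4 * η * N + q) * (2 * ε / η + 1) := mul_le_mul_of_nonneg_right h4 hB
    _ = (2 * ε / η + 1) * (4 * η * N + q) := by ring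

end Pool.Agent.SZW
end

-- from Lib.SZW.A6
section

/-!
# A6 (M): the one-dimensional recurrence lemma
-/

set_option autoImplicit false

namespace Pool.Agent.SZW

/-- Take `n < n'` in `A` with `q = n' - n ≤ 2 / ρ` (`exists_gap`). Then `η = nn (q α_j) ≤ 2 ε` for all
`j` (`nn_sub`). If `η > 0`, `card_bound` gives
`ρ N ≤ (2 ε / η + 1) (4 η N + q) = 8 ε N + 4 η N + 2 ε q / η + q ≤ 16 ε N + q + 2 ε q / η`, where
`16 ε N ≤ ρ N / 2` and `q ≤ 2 / ρ ≤ ρ N / 4`; so `ρ N / 4 ≤ 2 ε q / η` and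
`η ≤ 8 ε q / (ρ N) ≤ 16 ε / (ρ ^ 2 N)`. -/
theorem recurrence {κ : Type*} {A : Finset ℕ} {N : ℕ} {ρ ε : ℝ} {α β : κ → ℝ} (hρ : 0 < ρ)
    (hρ1 : ρ ≤ 1) (hN : 8 / ρ ^ 2 ≤ N) (hε : 0 ≤ ε) (hε' : 32 * ε ≤ ρ) (hA : ∀ n ∈ A, n < N)
    (hc : ρ * N ≤ A.card) (h : ∀ n ∈ A, ∀ j, nn (n * α j + β j) ≤ ε) :
    ∃ q : ℕ, 1 ≤ q ∧ (q : ℝ) ≤ 2 / ρ ∧ ∀ j, nn (q * α j) ≤ 16 * ε / (ρ ^ 2 * N) := by
  have hN0 : (0 : ℝ) < N := lt_of_lt_of_le (by positivity) hN
  have hN1 : 8 ≤ N * ρ ^ 2 := by rwa [div_le_iff₀ (by positivity)] at hN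
  have hN2 : 8 ≤ ρ * N := by nlinarith [mul_pos hρ hN0]
  obtain ⟨n, hn, n', hn', hlt, hq⟩ := exists_gap hρ (by linarith) hA hc
  refine ⟨n' - n, by omega, hq, ?_⟩
  intro j
  set q : ℕ := n' - n with hqd
  have hqc : (q : ℝ) = n' - n := by
    rw [hqd, Nat.cast_sub hlt.le]
  have hη2 : nn (q * α j) ≤ 2 * ε := by
    have h1 := nn_sub (n' * α j + β j) (n * α j + β j)
    have h2 : (n' * α j + β j) - (n * α j + β j) = q * α j := by
      rw [hqc]
      ring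
    rw [h2] at h1
    have h3 := h n' hn' j
    have h4 := h n hn j
    linarith
  rcases (nn_nonneg (q * α j)).eq_or_lt with h0 | h0
  · rw [← h0]
    positivity
  · have hq1 : 1 ≤ q := by omega
    have hq0 : (0 : ℝ) < q := by exact_mod_cast hq1
    have hcb := card_bound hq1 h0 hA hε (fun n hn => h n hn j)
    set η : ℝ := nn (q * α j) with hη
    have h1 : ρ * N ≤ (2 * ε / η + 1) * (4 * η * N + q) := hc.trans hcb
    have h2 : (2 * ε / η + 1) * (4 * η * N + q) = 8 * ε * N + 4 * η * N + 2 * ε * q / η + q := by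
      field_simp
      ring
    rw [h2] at h1
    have h3 : 4 * η * N ≤ 8 * ε * N := by nlinarith
    have h4 : 16 * ε * N ≤ ρ * N / 2 := by nlinarith
    have h5 : (q : ℝ) ≤ ρ * N / 4 := by
      refine hq.trans ?_
      rw [div_le_iff₀ hρ]
      nlinarith
    have h6 : ρ * N / 4 ≤ 2 * ε * q / η := by linarith
    rw [le_div_iff₀ h0] at h6
    rw [le_div_iff₀ (by positivity)]
    have h7 : (q : ℝ) * ρ ≤ 2 := by rwa [le_div_iff₀ hρ] at hq
    have h8 : η * (ρ * N) ≤ 8 * ε * q := by linarith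
    have h9 : ρ * (η * (ρ * N)) ≤ ρ * (8 * ε * q) := mul_le_mul_of_nonneg_left h8 hρ.le
    have h10 : 8 * ε * (q * ρ) ≤ 8 * ε * 2 := mul_le_mul_of_nonneg_left h7 (by positivity)
    calc η * (ρ ^ 2 * N) = ρ * (η * (ρ * N)) := by ring
      _ ≤ ρ * (8 * ε * q) := h9
      _ = 8 * ε * (q * ρ) := by ring
      _ ≤ 8 * ε * 2 := h10
      _ = 16 * ε := by ring

end Pool.Agent.SZW
end

-- from Lib.H21T.Defs
section

/-!
# H21T (MP_443e5f, candidate T, module D, parts D3 + D4): exponential sums over pieces of the divisor function in intervals of length about the square root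

`ee x = exp (2 π i x)` and `nn x = |x - round x|` are those of `Lib/SZW/D0.lean` (lemmas `nn_le`, `nn_add`, `nn_sub`, `nn_int_add`, `nn_mul_le`
in `SZW/A1`, `ee_add`, `norm_ee`, `ee_int`, `norm_one_sub_ee`, `geom_bound` in `SZW/A2`, Vinogradov's lemma `recurrence` in `SZW/A6`).

* `dbox A1 A2 B1 B2 m`: number of pairs `A1 ≤ a < A2`, `B1 ≤ b < B2` with `a b = m`.
* `lbox`: logarithmic length of the interval of the possible `a` (`m / B2 < a ≤ m / B1`, `A1 ≤ a < A2`).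
* `lam Q d = ∑_{r ≤ Q / d} μ(r) / r`, `gQ Q m = ∑_{d ∣ m, d ≤ Q} lam Q d`, `Mbox Q A1 A2 B1 B2 m = lbox m * gQ Q m`.
* `Rg A1 A2 x H`: the pairs `(a, b)` with `A1 ≤ a < A2`, `x ≤ a b < x + H`; `SR α` the sum of `ee (α a b)` over it.
* `Geo A x X S Λ`: the conditions on the parameters: `A` size of `a`, `x` position of the interval, `x ≤ X A²`, `S` bound of the
  directions, `Λ` (about `A³ / (2 x S²)`) length of the pieces of the range of `a`.
* `Dir A1 Λ x S n s t`: for `i < n` the direction `(s i, t i)` of the `i`-th piece: `|s ρ - t| ≤ 1 / S`, `ρ = x / (A1 + i Λ)²`.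
-/

namespace Pool.Agent.Lib.H21T

open Finset Pool.Agent.SZW

/-- the number of pairs `A1 ≤ a < A2`, `B1 ≤ b < B2` with `a b = m` -/
def dbox (A1 A2 B1 B2 m : ℕ) : ℕ := (((Ico A1 A2) ×ˢ (Ico B1 B2)).filter fun p => p.1 * p.2 = m).card

/-- the logarithmic length of the range of `a` -/
noncomputable def lbox (A1 A2 B1 B2 m : ℕ) : ℝ :=
  max 0 (min (Real.log A2) (Real.log m - Real.log B1) - max (Real.log A1) (Real.log m - Real.log B2))

/-- `∑_{r ≤ Q / d} μ(r) / r` -/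
noncomputable def lam (Q d : ℕ) : ℝ := ∑ r ∈ Icc 1 (Q / d), (ArithmeticFunction.moebius r : ℝ) / r

/-- `∑_{d ∣ m, d ≤ Q} lam Q d` -/
noncomputable def gQ (Q m : ℕ) : ℝ := ∑ d ∈ (Icc 1 Q).filter (fun d => d ∣ m), lam Q d

/-- the model of `dbox` -/
noncomputable def Mbox (Q A1 A2 B1 B2 m : ℕ) : ℝ := lbox A1 A2 B1 B2 m * gQ Q m

/-- the pairs `(a, b)` with `A1 ≤ a < A2`, `x ≤ a b < x + H` (used for `1 ≤ A1`, `1 ≤ x`) -/
def Rg (A1 A2 x H : ℕ) : Finset (ℕ × ℕ) :=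
  ((Ico A1 A2) ×ˢ (range (x + H))).filter fun p => x ≤ p.1 * p.2 ∧ p.1 * p.2 < x + H

/-- the exponential sum over `Rg` -/
noncomputable def SR (α : ℝ) (A1 A2 x H : ℕ) : ℂ := ∑ p ∈ Rg A1 A2 x H, ee (α * ((p.1 : ℝ) * p.2))

/-- conditions on the parameters -/
structure Geo (A x X S Λ : ℕ) : Prop where
  hA : 1 ≤ A
  hX1 : 1 ≤ X
  hS : 1 ≤ S
  hΛ : 1 ≤ Λ
  hx : A ^ 2 ≤ 2 * x
  hX : x ≤ X * A ^ 2
  hup : 2 * x * Λ * S ^ 2 ≤ A ^ 3
  hlo : A ^ 3 ≤ 4 * x * Λ * S ^ 2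

/-- left end of the `i`-th piece -/
def pa (A1 Λ i : ℕ) : ℕ := A1 + i * Λ

/-- right end of the `i`-th piece -/
def pb (A1 A2 Λ i : ℕ) : ℕ := min A2 (A1 + (i + 1) * Λ)

/-- number of pieces -/
def nJ (A1 A2 Λ : ℕ) : ℕ := (A2 - A1) / Λ + 1

/-- the direction `(s, t)` is good for the point `a` -/
def Ap (x S a s t : ℕ) : Prop := |(s : ℝ) * (x / (a : ℝ) ^ 2) - t| ≤ 1 / S

/-- directions of the first `n` pieces -/
structure Dir (A1 Λ x S n : ℕ) (s t : ℕ → ℕ) : Prop where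
  s1 : ∀ i < n, 1 ≤ s i
  sS : ∀ i < n, s i ≤ S
  co : ∀ i < n, Nat.Coprime (s i) (t i)
  ap : ∀ i < n, Ap x S (pa A1 Λ i) (s i) (t i)

/-- `⌈y⌉ - y` -/
noncomputable def Fr (y : ℝ) : ℝ := (⌈y⌉ : ℝ) - y

/-- `(x / a - r) / q` -/
noncomputable def yv (x q r a : ℕ) : ℝ := ((x : ℝ) / a - r) / q

/-- `α` is close to a rational with small denominator; `u` is `N ^ (1 / 20000)` -/
def Maj (u α : ℝ) : Prop := ∃ q : ℕ, 1 ≤ q ∧ (q : ℝ) ≤ u ^ 131 ∧ nn (q * α) * u ^ 9754 ≤ 1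

/-- the number of pairs of `Rg` in the residue classes `r1`, `r2` modulo `q` -/
def cnt (A1 A2 x H q r1 r2 : ℕ) : ℕ := ((Rg A1 A2 x H).filter fun p => p.1 % q = r1 ∧ p.2 % q = r2).card

/-- `Rg` as a set of pairs of integers -/
def RZ (A1 A2 x H : ℕ) : Finset (ℤ × ℤ) := (Rg A1 A2 x H).image fun p => ((p.1 : ℤ), (p.2 : ℤ))

theorem mem_Rg {A1 A2 x H : ℕ} (hA : 1 ≤ A1) {p : ℕ × ℕ} :
    p ∈ Rg A1 A2 x H ↔ A1 ≤ p.1 ∧ p.1 < A2 ∧ x ≤ p.1 * p.2 ∧ p.1 * p.2 < x + H := by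
  unfold Rg
  rw [mem_filter, mem_product, mem_Ico, mem_range]
  constructor
  · rintro ⟨⟨⟨h1, h2⟩, _⟩, h4, h5⟩
    exact ⟨h1, h2, h4, h5⟩
  · rintro ⟨h1, h2, h3, h4⟩
    exact ⟨⟨⟨h1, h2⟩, lt_of_le_of_lt (Nat.le_mul_of_pos_left _ (by omega)) h4⟩, h3, h4⟩

theorem mem_RZ {A1 A2 x H : ℕ} (hA : 1 ≤ A1) (hx : 1 ≤ x) {p : ℤ × ℤ} :
    p ∈ RZ A1 A2 x H ↔ (A1 : ℤ) ≤ p.1 ∧ p.1 < A2 ∧ (x : ℤ) ≤ p.1 * p.2 ∧ p.1 * p.2 < x + H := by
  unfold RZ
  rw [mem_image]
  constructor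
  · rintro ⟨r, hr, rfl⟩
    obtain ⟨h1, h2, h3, h4⟩ := (mem_Rg hA).1 hr
    simp only
    exact ⟨by exact_mod_cast h1, by exact_mod_cast h2, by exact_mod_cast h3, by exact_mod_cast h4⟩
  · rintro ⟨h1, h2, h3, h4⟩
    have h5 : 0 < p.1 := by omega
    have h6 : 0 < p.2 := by
      by_contra hcon
      have h7 : p.1 * p.2 ≤ 0 := mul_nonpos_of_nonneg_of_nonpos h5.le (not_lt.1 hcon)
      omega
    obtain ⟨a, ha⟩ := Int.eq_ofNat_of_zero_le h5.le
    obtain ⟨b, hb⟩ := Int.eq_ofNat_of_zero_le h6.le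
    refine ⟨(a, b), (mem_Rg hA).2 ⟨?_, ?_, ?_, ?_⟩, ?_⟩
    · rw [ha] at h1; exact_mod_cast h1
    · rw [ha] at h2; exact_mod_cast h2
    · rw [ha, hb] at h3; exact_mod_cast h3
    · rw [ha, hb] at h4; exact_mod_cast h4
    · exact Prod.ext ha.symm hb.symm

end Pool.Agent.Lib.H21T
end

-- from Lib.H21T.F2
section

/-!
# Chunk F2 (S/M): variation of the slope x / a^2
-/

namespace Pool.Agent.Lib.H21T

open Finset Pool.Agent.SZW

/-- From `hup` and `hx`: `A ^ 2 Λ S ^ 2 ≤ 2 x Λ S ^ 2 ≤ A ^ 3`, and `A ≥ 1`. -/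
theorem f2_small {A x X S Λ : ℕ} (G : Geo A x X S Λ) : Λ * S ^ 2 ≤ A := by
  have h1 := G.hup
  have h2 := G.hx
  have h3 := G.hA
  have h4 : A ^ 2 * (Λ * S ^ 2) ≤ A ^ 2 * A := by
    calc A ^ 2 * (Λ * S ^ 2) ≤ (2 * x) * (Λ * S ^ 2) := Nat.mul_le_mul_right _ h2
      _ = 2 * x * Λ * S ^ 2 := by ring
      _ ≤ A ^ 3 := h1
      _ = A ^ 2 * A := by ring
  exact Nat.le_of_mul_le_mul_left h4 (by positivity)

theorem f2_real {A x X S Λ : ℕ} (G : Geo A x X S Λ) : (1 : ℝ) ≤ A ∧ (1 : ℝ) ≤ S ∧ (1 : ℝ) ≤ Λ ∧ (Λ : ℝ) ≤ A ∧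
    2 * (x : ℝ) * Λ * S ^ 2 ≤ (A : ℝ) ^ 3 ∧ (A : ℝ) ^ 3 ≤ 4 * x * Λ * S ^ 2 := by
  have hS := G.hS
  have h5 : Λ ≤ A := by
    have h6 := f2_small G
    have h7 : Λ * 1 ≤ Λ * S ^ 2 := Nat.mul_le_mul_left _ (Nat.one_le_pow _ _ hS)
    omega
  have h1 := G.hA
  have h2 := G.hΛ
  have h3 := G.hup
  have h4 := G.hlo
  exact ⟨by exact_mod_cast h1, by exact_mod_cast hS, by exact_mod_cast h2, by exact_mod_cast h5, by exact_mod_cast h3,
    by exact_mod_cast h4⟩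

/-- `x / a ^ 2 - x / (a + Λ) ^ 2 = x Λ (2 a + Λ) / (a ^ 2 (a + Λ) ^ 2) ≥ x Λ / (a ^ 2 (a + Λ)) ≥ x Λ / (4 A ^ 2 * 3 A)` (`Λ ≤ A` by `f2_small`)
`≥ 1 / (48 S ^ 2)` by `hlo`. -/
theorem f2_gap {A x X S Λ : ℕ} (G : Geo A x X S Λ) {a : ℕ} (h1 : A ≤ a) (h2 : a ≤ 2 * A) :
    1 / (48 * (S : ℝ) ^ 2) ≤ (x : ℝ) / (a : ℝ) ^ 2 - (x : ℝ) / ((a : ℝ) + Λ) ^ 2 := by
  obtain ⟨hA, hS, hΛ, hΛA, hup, hlo⟩ := f2_real G
  have h1' : (A : ℝ) ≤ a := by exact_mod_cast h1
  have h2' : (a : ℝ) ≤ 2 * A := by exact_mod_cast h2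
  have hx0 : (0 : ℝ) ≤ x := Nat.cast_nonneg x
  have ha0 : (0 : ℝ) < a := by linarith
  have haΛ : (0 : ℝ) < (a : ℝ) + Λ := by linarith
  have hS0 : (0 : ℝ) < S := by linarith
  have e1 : (x : ℝ) / (a : ℝ) ^ 2 - (x : ℝ) / ((a : ℝ) + Λ) ^ 2 =
      x * Λ * (2 * a + Λ) / ((a : ℝ) ^ 2 * ((a : ℝ) + Λ) ^ 2) := by
    field_simp
    ring
  rw [e1]
  have e2 : (x : ℝ) * Λ / ((a : ℝ) ^ 2 * ((a : ℝ) + Λ)) ≤
      x * Λ * (2 * a + Λ) / ((a : ℝ) ^ 2 * ((a : ℝ) + Λ) ^ 2) := by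
    rw [div_le_div_iff₀ (by positivity) (by positivity)]
    have h3 : (0 : ℝ) ≤ x * Λ * (a : ℝ) ^ 2 * ((a : ℝ) + Λ) * a := by positivity
    nlinarith [h3]
  refine le_trans ?_ e2
  have e3 : (a : ℝ) ^ 2 * ((a : ℝ) + Λ) ≤ 4 * A ^ 2 * (3 * A) := by
    apply mul_le_mul
    · calc (a : ℝ) ^ 2 ≤ (2 * A) ^ 2 := pow_le_pow_left₀ ha0.le h2' 2
        _ = 4 * A ^ 2 := by ring
    · linarith
    · linarith
    · positivity
  rw [div_le_div_iff₀ (by positivity) (by positivity)]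
  have e4 : (4 : ℝ) * A ^ 2 * (3 * A) = 12 * (A : ℝ) ^ 3 := by ring
  have e5 : (x : ℝ) * Λ * (48 * (S : ℝ) ^ 2) = 12 * (4 * (x : ℝ) * Λ * (S : ℝ) ^ 2) := by ring
  rw [e4] at e3
  rw [e5]
  linarith

/-- `x / (a a')` lies between `x / (a0 + Λ) ^ 2` and `x / a0 ^ 2`, whose difference is
`x Λ (2 a0 + Λ) / (a0 ^ 2 (a0 + Λ) ^ 2) ≤ 2 x Λ / (a0 ^ 2 (a0 + Λ)) ≤ 2 x Λ / A ^ 3 ≤ 1 / S ^ 2` (`hup`). -/
theorem f2_var {A x X S Λ : ℕ} (G : Geo A x X S Λ) {a0 a a' : ℕ} (h1 : A ≤ a0) (h2 : a0 ≤ a) (h3 : a ≤ a0 + Λ) (h4 : a0 ≤ a')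
    (h5 : a' ≤ a0 + Λ) : |(x : ℝ) / (a0 : ℝ) ^ 2 - (x : ℝ) / ((a : ℝ) * a')| ≤ 1 / (S : ℝ) ^ 2 := by
  obtain ⟨hA, hS, hΛ, hΛA, hup, hlo⟩ := f2_real G
  have h1' : (A : ℝ) ≤ a0 := by exact_mod_cast h1
  have h2' : (a0 : ℝ) ≤ a := by exact_mod_cast h2
  have h3' : (a : ℝ) ≤ a0 + Λ := by exact_mod_cast h3
  have h4' : (a0 : ℝ) ≤ a' := by exact_mod_cast h4
  have h5' : (a' : ℝ) ≤ a0 + Λ := by exact_mod_cast h5
  have hx0 : (0 : ℝ) ≤ x := Nat.cast_nonneg x
  have ha0 : (0 : ℝ) < a0 := by linarith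
  have ha : (0 : ℝ) < a := by linarith
  have ha' : (0 : ℝ) < a' := by linarith
  have haΛ : (0 : ℝ) < (a0 : ℝ) + Λ := by linarith
  have hS0 : (0 : ℝ) < S := by linarith
  have hA0 : (0 : ℝ) < A := by linarith
  have u1 : (x : ℝ) / ((a : ℝ) * a') ≤ (x : ℝ) / (a0 : ℝ) ^ 2 := by
    apply div_le_div_of_nonneg_left hx0 (by positivity)
    calc (a0 : ℝ) ^ 2 = a0 * a0 := by ring
      _ ≤ a * a' := mul_le_mul h2' h4' ha0.le ha.le
  have u2 : (x : ℝ) / ((a0 : ℝ) + Λ) ^ 2 ≤ (x : ℝ) / ((a : ℝ) * a') := by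
    apply div_le_div_of_nonneg_left hx0 (by positivity)
    calc (a : ℝ) * a' ≤ ((a0 : ℝ) + Λ) * ((a0 : ℝ) + Λ) := mul_le_mul h3' h5' ha'.le haΛ.le
      _ = ((a0 : ℝ) + Λ) ^ 2 := by ring
  have e1 : (x : ℝ) / (a0 : ℝ) ^ 2 - (x : ℝ) / ((a0 : ℝ) + Λ) ^ 2 =
      x * Λ * (2 * a0 + Λ) / ((a0 : ℝ) ^ 2 * ((a0 : ℝ) + Λ) ^ 2) := by
    field_simp
    ring
  have e2 : x * Λ * (2 * a0 + Λ) / ((a0 : ℝ) ^ 2 * ((a0 : ℝ) + Λ) ^ 2) ≤
      2 * (x : ℝ) * Λ / ((a0 : ℝ) ^ 2 * ((a0 : ℝ) + Λ)) := by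
    rw [div_le_div_iff₀ (by positivity) (by positivity)]
    have h3 : (0 : ℝ) ≤ x * Λ * (a0 : ℝ) ^ 2 * ((a0 : ℝ) + Λ) * Λ := by positivity
    nlinarith [h3]
  have e3 : 2 * (x : ℝ) * Λ / ((a0 : ℝ) ^ 2 * ((a0 : ℝ) + Λ)) ≤ 1 / (S : ℝ) ^ 2 := by
    rw [div_le_div_iff₀ (by positivity) (by positivity)]
    calc 2 * (x : ℝ) * Λ * S ^ 2 ≤ A ^ 3 := hup
      _ = A ^ 2 * A := by ring
      _ ≤ (a0 : ℝ) ^ 2 * ((a0 : ℝ) + Λ) := by
          apply mul_le_mul
          · exact pow_le_pow_left₀ hA0.le h1' 2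
          · linarith
          · exact hA0.le
          · positivity
      _ = 1 * ((a0 : ℝ) ^ 2 * ((a0 : ℝ) + Λ)) := by ring
  rw [abs_of_nonneg (by linarith)]
  linarith

end Pool.Agent.Lib.H21T
end

-- from Lib.H21T.S2
section

/-!
# Chunk S2 (S/M): the size of s b - t a
-/

namespace Pool.Agent.Lib.H21T

open Finset Pool.Agent.SZW

/-- `s b - t a = s (b - x / a) + a (s x / a ^ 2 - t)`, `0 ≤ b - x / a ≤ H / a ≤ H / A`, `a ≤ 2 A` and
`|s x / a ^ 2 - t| ≤ 1 / S + s |x / a0 ^ 2 - x / a ^ 2| ≤ 1 / S + S / S ^ 2 = 2 / S` (`Ap`, `f2_var` with `a = a'`). -/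
theorem s2 {A x X S Λ : ℕ} (G : Geo A x X S Λ) {a0 s t a b H : ℕ} (h0 : A ≤ a0) (hsS : s ≤ S) (hap : Ap x S a0 s t)
    (h1 : a0 ≤ a) (h2 : a ≤ a0 + Λ) (h3 : a ≤ 2 * A) (h4 : x ≤ a * b) (h5 : a * b ≤ x + H) :
    |(s : ℝ) * b - t * a| ≤ 4 * A / S + S * H / A := by
  have hA : (1 : ℝ) ≤ A := by exact_mod_cast G.hA
  have hS : (1 : ℝ) ≤ S := by exact_mod_cast G.hS
  have hA0 : (0 : ℝ) < A := by linarith
  have hS0 : (0 : ℝ) < S := by linarith
  have hAa : (A : ℝ) ≤ a := by exact_mod_cast h0.trans h1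
  have ha0 : (0 : ℝ) < a := by linarith
  have haA : (a : ℝ) ≤ 2 * A := by exact_mod_cast h3
  have hs0 : (0 : ℝ) ≤ s := Nat.cast_nonneg s
  have hsS' : (s : ℝ) ≤ S := by exact_mod_cast hsS
  have hH0 : (0 : ℝ) ≤ H := Nat.cast_nonneg H
  have h4' : (x : ℝ) ≤ a * b := by exact_mod_cast h4
  have h5' : (a : ℝ) * b ≤ x + H := by exact_mod_cast h5
  have e : (s : ℝ) * b - t * a = s * (b - x / a) + a * (s * (x / ((a : ℝ) * a)) - t) := by
    field_simp
    ring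
  have k1 : (0 : ℝ) ≤ b - x / a := by
    rw [sub_nonneg, div_le_iff₀ ha0]
    linarith [mul_comm (a : ℝ) b]
  have k2 : (b : ℝ) - x / a ≤ H / A := by
    have k3 : (b : ℝ) - x / a ≤ H / a := by
      rw [sub_le_iff_le_add, ← add_div, le_div_iff₀ ha0]
      linarith [mul_comm (a : ℝ) b]
    exact k3.trans (div_le_div_of_nonneg_left hH0 hA0 hAa)
  have k4 : |(s : ℝ) * (b - x / a)| ≤ S * H / A := by
    rw [abs_of_nonneg (mul_nonneg hs0 k1), mul_div_assoc]
    exact mul_le_mul hsS' k2 k1 hS0.le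
  have k5 := f2_var G h0 h1 h2 h1 h2
  have k6 : |(s : ℝ) * (x / ((a : ℝ) * a)) - t| ≤ 2 / S := by
    have k7 : (s : ℝ) * (x / ((a : ℝ) * a)) - t = (s * (x / (a0 : ℝ) ^ 2) - t) - s * (x / (a0 : ℝ) ^ 2 - x / ((a : ℝ) * a)) := by
      ring
    rw [k7]
    refine (abs_sub _ _).trans ?_
    have k8 : |(s : ℝ) * (x / (a0 : ℝ) ^ 2 - x / ((a : ℝ) * a))| ≤ 1 / S := by
      rw [abs_mul, abs_of_nonneg hs0]
      refine (mul_le_mul hsS' k5 (abs_nonneg _) hS0.le).trans (le_of_eq ?_)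
      field_simp
    have k9 : |(s : ℝ) * (x / (a0 : ℝ) ^ 2) - t| ≤ 1 / S := hap
    have k10 : (2 : ℝ) / S = 1 / S + 1 / S := by ring
    rw [k10]
    exact add_le_add k9 k8
  have k11 : |(a : ℝ) * (s * (x / ((a : ℝ) * a)) - t)| ≤ 4 * A / S := by
    rw [abs_mul, abs_of_pos ha0]
    refine (mul_le_mul haA k6 (abs_nonneg _) (by linarith)).trans (le_of_eq ?_)
    ring
  rw [e, add_comm (4 * (A : ℝ) / S)]
  exact (abs_add_le _ _).trans (add_le_add k4 k11)

/-- `t ≤ s x / a0 ^ 2 + 1 / S ≤ S X + 1 ≤ 2 X S` (`hX`, `A ≤ a0`). -/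
theorem s2_t {A x X S Λ : ℕ} (G : Geo A x X S Λ) {a0 s t : ℕ} (h0 : A ≤ a0) (hsS : s ≤ S) (hap : Ap x S a0 s t) :
    t ≤ 2 * X * S := by
  have hA : (1 : ℝ) ≤ A := by exact_mod_cast G.hA
  have hS : (1 : ℝ) ≤ S := by exact_mod_cast G.hS
  have hX1 : (1 : ℝ) ≤ X := by exact_mod_cast G.hX1
  have hX : (x : ℝ) ≤ X * (A : ℝ) ^ 2 := by exact_mod_cast G.hX
  have hAa : (A : ℝ) ≤ a0 := by exact_mod_cast h0
  have hs0 : (0 : ℝ) ≤ s := Nat.cast_nonneg s
  have hsS' : (s : ℝ) ≤ S := by exact_mod_cast hsS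
  have ha0 : (0 : ℝ) < (a0 : ℝ) ^ 2 := by
    have : (0 : ℝ) < a0 := by linarith
    positivity
  have k1 : (x : ℝ) / (a0 : ℝ) ^ 2 ≤ X := by
    rw [div_le_iff₀ ha0]
    have k2 : (A : ℝ) ^ 2 ≤ (a0 : ℝ) ^ 2 := pow_le_pow_left₀ (by linarith) hAa 2
    nlinarith
  have k2 : |(s : ℝ) * (x / (a0 : ℝ) ^ 2) - t| ≤ 1 / S := hap
  have k3 := (abs_le.1 k2).1
  have k4 : 1 / (S : ℝ) ≤ 1 := by
    rw [div_le_one (by linarith)]
    exact hS
  have k5 : (s : ℝ) * (x / (a0 : ℝ) ^ 2) ≤ S * X :=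
    mul_le_mul hsS' k1 (by positivity) (by linarith)
  have k6 : (t : ℝ) ≤ 2 * X * S := by nlinarith
  exact_mod_cast k6

/-- `x / a0 ^ 2 ≥ x / (4 A ^ 2) ≥ 1 / 8` (`hx`), so `t ≥ s / 8 - 1 / S > 0` for `s ≥ 9`. -/
theorem s2_t1 {A x X S Λ : ℕ} (G : Geo A x X S Λ) {a0 s t : ℕ} (h0 : A ≤ a0) (h1 : a0 ≤ 2 * A) (hs : 9 ≤ s) (hap : Ap x S a0 s t) :
    1 ≤ t := by
  have hA : (1 : ℝ) ≤ A := by exact_mod_cast G.hA
  have hS : (1 : ℝ) ≤ S := by exact_mod_cast G.hS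
  have hx : (A : ℝ) ^ 2 ≤ 2 * x := by exact_mod_cast G.hx
  have hAa : (A : ℝ) ≤ a0 := by exact_mod_cast h0
  have haA : (a0 : ℝ) ≤ 2 * A := by exact_mod_cast h1
  have hs9 : (9 : ℝ) ≤ s := by exact_mod_cast hs
  have ha0 : (0 : ℝ) < (a0 : ℝ) ^ 2 := by
    have : (0 : ℝ) < a0 := by linarith
    positivity
  have k1 : 1 / 8 ≤ (x : ℝ) / (a0 : ℝ) ^ 2 := by
    rw [le_div_iff₀ ha0]
    have k2 : (a0 : ℝ) ^ 2 ≤ (2 * A) ^ 2 := pow_le_pow_left₀ (by linarith) haA 2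
    nlinarith
  have k2 : |(s : ℝ) * (x / (a0 : ℝ) ^ 2) - t| ≤ 1 / S := hap
  have k3 := (abs_le.1 k2).2
  have k4 : 1 / (S : ℝ) ≤ 1 := by
    rw [div_le_one (by linarith)]
    exact hS
  have k5 : 9 * (1 / 8) ≤ (s : ℝ) * (x / (a0 : ℝ) ^ 2) :=
    mul_le_mul hs9 k1 (by norm_num) (by linarith)
  have k6 : (0 : ℝ) < t := by linarith
  exact_mod_cast k6

end Pool.Agent.Lib.H21T
end

-- from Lib.H59T.G2
section

/-!
# Project H59T, chunk G2 (M): characters modulo prime powers near 1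
-/

open Finset

namespace Pool.Agent.Lib.H59T

theorem g2_pow (l a k : ℕ) (h : a ≤ k) : (l : ZMod (l ^ a)) ^ k = 0 := by
  have h1 : ((l ^ k : ℕ) : ZMod (l ^ a)) = 0 := (ZMod.natCast_eq_zero_iff _ _).2 (pow_dvd_pow l h)
  rw [← h1]
  push_cast
  rfl

/-- `t ↦ χ(1 + l^m t)` is additive if `l^(2m) = 0`. Proof. `(1 + l^m t)(1 + l^m t') = 1 + l^m (t + t')`. -/
theorem G2_add (l a m : ℕ) (h2 : a ≤ 2 * m) (χ : DirichletCharacter ℂ (l ^ a)) (t t' : ZMod (l ^ a)) :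
    χ (1 + (l : ZMod (l ^ a)) ^ m * (t + t')) =
      χ (1 + (l : ZMod (l ^ a)) ^ m * t) * χ (1 + (l : ZMod (l ^ a)) ^ m * t') := by
  have h : (l : ZMod (l ^ a)) ^ m * (l : ZMod (l ^ a)) ^ m = 0 := by
    rw [← pow_add]
    exact g2_pow l a (m + m) (by omega)
  rw [← map_mul]
  congr 1
  linear_combination (-(t * t')) * h

theorem g2_top (l a : ℕ) (hl : l.Prime) (ha : 1 ≤ a) [NeZero (l ^ a)] (χ : DirichletCharacter ℂ (l ^ a)) (hχ : χ.IsPrimitive)
    (h : ∀ t : ZMod (l ^ a), χ (1 + (l : ZMod (l ^ a)) ^ (a - 1) * t) = 1) : False := by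
  have hd : l ^ (a - 1) ∣ l ^ a := pow_dvd_pow l (by omega)
  have hf : χ.FactorsThrough (l ^ (a - 1)) := by
    rw [DirichletCharacter.factorsThrough_iff_ker_unitsMap hd]
    intro u hu
    rw [MonoidHom.mem_ker] at hu ⊢
    have h1 : (ZMod.castHom hd (ZMod (l ^ (a - 1)))) (u : ZMod (l ^ a)) = 1 := by
      have h2 := congrArg (fun w : (ZMod (l ^ (a - 1)))ˣ => (w : ZMod (l ^ (a - 1)))) hu
      exact h2
    have h3 : (ZMod.castHom hd (ZMod (l ^ (a - 1)))) ((u : ZMod (l ^ a)) - 1) = 0 := by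
      rw [map_sub, h1, map_one, sub_self]
    obtain ⟨w, hw⟩ : ∃ w : ZMod (l ^ a), w = (u : ZMod (l ^ a)) - 1 := ⟨_, rfl⟩
    rw [← hw] at h3
    have h4 : ((w.val : ℕ) : ZMod (l ^ (a - 1))) = 0 := by
      have h5 : (ZMod.castHom hd (ZMod (l ^ (a - 1)))) ((w.val : ℕ) : ZMod (l ^ a)) = 0 := by
        rw [ZMod.natCast_zmod_val]
        exact h3
      rw [map_natCast] at h5
      exact h5
    obtain ⟨t, ht⟩ := (ZMod.natCast_eq_zero_iff _ _).1 h4
    have h6 : w = (l : ZMod (l ^ a)) ^ (a - 1) * (t : ZMod (l ^ a)) := by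
      rw [← ZMod.natCast_zmod_val w, ht]
      push_cast
      rfl
    have h7 : (u : ZMod (l ^ a)) = 1 + (l : ZMod (l ^ a)) ^ (a - 1) * (t : ZMod (l ^ a)) := by
      rw [← h6, hw]
      ring
    have h8 := h t
    rw [← h7] at h8
    exact Units.ext h8
  have h1 : χ.conductor ≤ l ^ (a - 1) := Nat.sInf_le hf
  rw [(DirichletCharacter.isPrimitive_def χ).1 hχ] at h1
  have h2 : l ^ (a - 1) < l ^ a := Nat.pow_lt_pow_right hl.one_lt (by omega)
  omega

/-- The mean over `v` vanishes unless `l^n ∣ K`, `a = m + n`. Proof. `ψ(v) = χ(1 + l^m K v)` is additive in `v` (`G2_add`), with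
values of absolute value `1` (`1 + l^m K v` is a unit since `l` is nilpotent, `m ≥ 1`). If `ψ(v0) ≠ 1` for some `v0`, the sum `S`
satisfies `ψ(v0) S = S` (shift `v` by `v0`), so `S = 0`. If `ψ = 1` identically and `l^n ∤ K.val`, then `K = l^j u` with
`j < n`, `u` a unit (`K.val = l^j u'`, `l ∤ u'`), so `χ(1 + l^(a-1) t) = 1` for all `t` (take
`v = l^(n-1-j) u⁻¹ t`); hence `χ` factors through `l^(a-1)` (`DirichletCharacter.factorsThrough_iff_ker_unitsMap`: the kernel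
of `(ZMod (l^a))ˣ → (ZMod (l^(a-1)))ˣ` consists of the units `≡ 1` modulo `l^(a-1)`), contradicting primitivity
(`DirichletCharacter.isPrimitive_def`, `conductor_dvd...`/`FactorsThrough`). -/
theorem G2_mean (l a m n : ℕ) (hl : l.Prime) (ha : a = m + n) (hn : 1 ≤ n) (hmn : n ≤ m)
    [NeZero (l ^ a)] (χ : DirichletCharacter ℂ (l ^ a)) (hχ : χ.IsPrimitive) (K : ZMod (l ^ a))
    (hK : ¬ l ^ n ∣ K.val) :
    ∑ v : ZMod (l ^ a), χ (1 + (l : ZMod (l ^ a)) ^ m * (K * v)) = 0 := by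
  by_cases hall : ∀ v : ZMod (l ^ a), χ (1 + (l : ZMod (l ^ a)) ^ m * (K * v)) = 1
  · exfalso
    refine g2_top l a hl (by omega) χ hχ fun t => ?_
    have hK0 : K.val ≠ 0 := fun h => hK (h ▸ dvd_zero _)
    obtain ⟨j, u, hu, hKu⟩ := Nat.exists_eq_pow_mul_and_not_dvd hK0 l hl.ne_one
    have hj : j < n := by
      by_contra hj
      exact hK (hKu ▸ (pow_dvd_pow l (not_lt.1 hj)).trans (dvd_mul_right _ _))
    have hcop : Nat.Coprime u (l ^ a) := ((hl.coprime_iff_not_dvd.2 hu).symm).pow_right a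
    obtain ⟨w, hw⟩ : ∃ w : (ZMod (l ^ a))ˣ, w = ZMod.unitOfCoprime u hcop := ⟨_, rfl⟩
    have hwu : (w : ZMod (l ^ a)) = (u : ZMod (l ^ a)) := by rw [hw, ZMod.coe_unitOfCoprime]
    have hKe : K = (l : ZMod (l ^ a)) ^ j * (w : ZMod (l ^ a)) := by
      rw [← ZMod.natCast_zmod_val K, hKu, hwu]
      push_cast
      rfl
    have h1 := hall ((l : ZMod (l ^ a)) ^ (n - 1 - j) * ((w⁻¹ : (ZMod (l ^ a))ˣ) : ZMod (l ^ a)) * t)
    have h2 : (l : ZMod (l ^ a)) ^ m * (K * ((l : ZMod (l ^ a)) ^ (n - 1 - j) * ((w⁻¹ : (ZMod (l ^ a))ˣ) : ZMod (l ^ a)) * t)) =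
        (l : ZMod (l ^ a)) ^ (a - 1) * t := by
      have h3 : (l : ZMod (l ^ a)) ^ (a - 1) = (l : ZMod (l ^ a)) ^ m * ((l : ZMod (l ^ a)) ^ j * (l : ZMod (l ^ a)) ^ (n - 1 - j)) := by
        rw [← pow_add, ← pow_add]
        congr 1
        omega
      have h4 : (w : ZMod (l ^ a)) * ((w⁻¹ : (ZMod (l ^ a))ˣ) : ZMod (l ^ a)) = 1 := Units.mul_inv w
      rw [hKe, h3]
      linear_combination ((l : ZMod (l ^ a)) ^ m * (l : ZMod (l ^ a)) ^ j * (l : ZMod (l ^ a)) ^ (n - 1 - j) * t) * h4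
    rw [h2] at h1
    exact h1
  · push Not at hall
    obtain ⟨v0, hv0⟩ := hall
    obtain ⟨S, hS⟩ : ∃ S : ℂ, S = ∑ v : ZMod (l ^ a), χ (1 + (l : ZMod (l ^ a)) ^ m * (K * v)) := ⟨_, rfl⟩
    rw [← hS]
    have h1 : S = χ (1 + (l : ZMod (l ^ a)) ^ m * (K * v0)) * S := by
      rw [hS, Finset.mul_sum]
      rw [← Equiv.sum_comp (Equiv.addLeft v0)]
      refine Finset.sum_congr rfl fun v _ => ?_
      rw [← G2_add l a m (by omega), Equiv.coe_addLeft, mul_add]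
    have h2 : (1 - χ (1 + (l : ZMod (l ^ a)) ^ m * (K * v0))) * S = 0 := by
      linear_combination h1
    rcases mul_eq_zero.1 h2 with h3 | h3
    · exact absurd (sub_eq_zero.1 h3).symm hv0
    · exact h3

end Pool.Agent.Lib.H59T
end

-- from Lib.H59T.G3
section

/-!
# Project H59T, chunk G3 (M): the shift in the four corners
-/

open Finset

namespace Pool.Agent.Lib.H59T

private theorem g3_sq (l a m n : ℕ) (ha : a = m + n) (hmn : n ≤ m) :
    (l : ZMod (l ^ a)) ^ m * (l : ZMod (l ^ a)) ^ m = 0 := by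
  have h1 : ((l ^ a : ℕ) : ZMod (l ^ a)) = 0 := ZMod.natCast_self _
  have h2 : (l : ZMod (l ^ a)) ^ a = 0 := by
    rw [← Nat.cast_pow]; exact h1
  rw [← pow_add]
  have h3 : m + m = a + (m - n) := by omega
  rw [h3, pow_add, h2, zero_mul]

/-- units are stable under the shift by multiples of `l ^ m` -/
private theorem g3_unit (l a m n : ℕ) (ha : a = m + n) (hmn : n ≤ m) (s t : ZMod (l ^ a)) :
    IsUnit (s + (l : ZMod (l ^ a)) ^ m * t) ↔ IsUnit s := by
  have key : ∀ s t : ZMod (l ^ a), IsUnit s → IsUnit (s + (l : ZMod (l ^ a)) ^ m * t) := by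
    intro s t hs
    obtain ⟨u, hu⟩ := hs
    have hsu : s * (↑(u⁻¹) : ZMod (l ^ a)) = 1 := by rw [← hu]; exact u.mul_inv
    refine IsUnit.of_mul_eq_one (((↑(u⁻¹) : ZMod (l ^ a))
      - (l : ZMod (l ^ a)) ^ m * t * (↑(u⁻¹) : ZMod (l ^ a)) * (↑(u⁻¹) : ZMod (l ^ a)))) ?_
    have hq := g3_sq l a m n ha hmn
    set L := (l : ZMod (l ^ a)) ^ m
    set w := (↑(u⁻¹) : ZMod (l ^ a))
    linear_combination (1 - L * t * w) * hsu - t ^ 2 * w ^ 2 * hq
  constructor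
  · intro h
    have h1 := key _ (-t) h
    have h2 : s + (l : ZMod (l ^ a)) ^ m * t + (l : ZMod (l ^ a)) ^ m * -t = s := by ring
    rwa [h2] at h1
  · exact key s t

private theorem g3_star (q : ℕ) [NeZero q] (χ : DirichletCharacter ℂ q) (w w' : ZMod q)
    (h : χ w * χ w' = 1) : star (χ w) = χ w' := by
  have h3 : χ w ≠ 0 := by
    intro h0
    rw [h0, zero_mul] at h
    exact zero_ne_one h
  have hu : IsUnit w := by
    by_contra hw
    exact h3 (MulChar.map_nonunit χ hw)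
  obtain ⟨u, rfl⟩ := hu
  have h1 : ‖χ (u : ZMod q)‖ = 1 := DirichletCharacter.unit_norm_eq_one χ u
  have h2 : χ (u : ZMod q) * star (χ (u : ZMod q)) = 1 := by
    have h2 : star (χ (u : ZMod q)) = (starRingEnd ℂ) (χ (u : ZMod q)) := rfl
    rw [h2, Complex.mul_conj, Complex.normSq_eq_norm_sq, h1]
    norm_num
  exact mul_left_cancel₀ h3 (h2.trans h.symm)

/-- The sum over the common shift. Proof. If one of the four arguments `s_ij = z_i + y_j` is not a unit, all terms vanish (`s_ij + 2 l^m v` is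
not a unit either, `m ≥ 1`). Otherwise `χ(s + 2 l^m v) = χ(s) χ(1 + l^m (2 s⁻¹ v))`, `star χ(s + ..)` similarly with
`-2 s⁻¹` (`star χ(u) = χ(u)⁻¹`; `χ(1 + l^m t)⁻¹ = χ(1 - l^m t)` by `G2_add`), so by `G2_add` the product of the four is a
constant times `χ(1 + l^m (K v))`, `K = 2 (1/s11 - 1/s12 - 1/s21 + 1/s22)`, and
`K s11 s12 s21 s22 = 2 (z1+z2+y1+y2)(z1-z2)(y1-y2)` (`field_simp; ring` is not available in `ZMod`: use units and
`linear_combination`). So if `l^n` does not divide `2 (z1+z2+y1+y2)(z1-z2)(y1-y2)` it does not divide `K` and `G2_mean`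
applies. -/
theorem G3 (l a m n : ℕ) (hl : l.Prime) (ha : a = m + n) (hn : 1 ≤ n) (hmn : n ≤ m)
    [NeZero (l ^ a)] (χ : DirichletCharacter ℂ (l ^ a)) (hχ : χ.IsPrimitive)
    (z1 z2 y1 y2 : ZMod (l ^ a))
    (hK : ¬ l ^ n ∣ (2 * (z1 + z2 + y1 + y2) * (z1 - z2) * (y1 - y2)).val) :
    ∑ v : ZMod (l ^ a), χ (z1 + y1 + 2 * (l : ZMod (l ^ a)) ^ m * v) *
      star (χ (z2 + y1 + 2 * (l : ZMod (l ^ a)) ^ m * v)) *
      star (χ (z1 + y2 + 2 * (l : ZMod (l ^ a)) ^ m * v)) *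
      χ (z2 + y2 + 2 * (l : ZMod (l ^ a)) ^ m * v) = 0 := by
  have hz : ∀ s v : ZMod (l ^ a), ¬ IsUnit s →
      χ (s + 2 * (l : ZMod (l ^ a)) ^ m * v) = 0 := by
    intro s v hs
    refine MulChar.map_nonunit χ ?_
    have e : s + 2 * (l : ZMod (l ^ a)) ^ m * v = s + (l : ZMod (l ^ a)) ^ m * (2 * v) := by ring
    rw [e, g3_unit l a m n ha hmn]
    exact hs
  by_cases h11 : IsUnit (z1 + y1)
  swap
  · refine Finset.sum_eq_zero (fun v _ => ?_)
    rw [hz _ v h11]; simp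
  by_cases h21 : IsUnit (z2 + y1)
  swap
  · refine Finset.sum_eq_zero (fun v _ => ?_)
    rw [hz _ v h21]; simp
  by_cases h12 : IsUnit (z1 + y2)
  swap
  · refine Finset.sum_eq_zero (fun v _ => ?_)
    rw [hz _ v h12]; simp
  by_cases h22 : IsUnit (z2 + y2)
  swap
  · refine Finset.sum_eq_zero (fun v _ => ?_)
    rw [hz _ v h22]; simp
  have hinv : ∀ s : ZMod (l ^ a), IsUnit s → ∃ u : ZMod (l ^ a), s * u = 1 := by
    rintro s ⟨u, rfl⟩
    exact ⟨_, u.mul_inv⟩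
  obtain ⟨u11, e11⟩ := hinv _ h11
  obtain ⟨u21, e21⟩ := hinv _ h21
  obtain ⟨u12, e12⟩ := hinv _ h12
  obtain ⟨u22, e22⟩ := hinv _ h22
  have hadd := G2_add l a m (by omega) χ
  have hsplit : ∀ s u v : ZMod (l ^ a), s * u = 1 →
      χ (s + 2 * (l : ZMod (l ^ a)) ^ m * v)
        = χ s * χ (1 + (l : ZMod (l ^ a)) ^ m * (2 * u * v)) := by
    intro s u v hsu
    rw [← map_mul]
    refine congrArg χ ?_
    linear_combination (-2 * (l : ZMod (l ^ a)) ^ m * v) * hsu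
  have hst : ∀ t : ZMod (l ^ a), star (χ (1 + (l : ZMod (l ^ a)) ^ m * t))
      = χ (1 + (l : ZMod (l ^ a)) ^ m * (-t)) := by
    intro t
    refine g3_star _ χ _ _ ?_
    rw [← hadd, add_neg_cancel, mul_zero, add_zero, map_one]
  have hterm : ∀ v : ZMod (l ^ a), χ (z1 + y1 + 2 * (l : ZMod (l ^ a)) ^ m * v) *
      star (χ (z2 + y1 + 2 * (l : ZMod (l ^ a)) ^ m * v)) *
      star (χ (z1 + y2 + 2 * (l : ZMod (l ^ a)) ^ m * v)) *
      χ (z2 + y2 + 2 * (l : ZMod (l ^ a)) ^ m * v)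
      = (χ (z1 + y1) * star (χ (z2 + y1)) * star (χ (z1 + y2)) * χ (z2 + y2)) *
        χ (1 + (l : ZMod (l ^ a)) ^ m * ((2 * (u11 - u21 - u12 + u22)) * v)) := by
    intro v
    have hs : (2 * (u11 - u21 - u12 + u22)) * v
        = ((2 * u11 * v + -(2 * u21 * v)) + -(2 * u12 * v)) + 2 * u22 * v := by ring
    rw [hs, hadd, hadd, hadd, hsplit _ _ v e11, hsplit _ _ v e21, hsplit _ _ v e12,
      hsplit _ _ v e22, star_mul', star_mul', hst, hst]
    ring
  rw [Finset.sum_congr rfl (fun v _ => hterm v), ← Finset.mul_sum]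
  have hK' : ¬ l ^ n ∣ (2 * (u11 - u21 - u12 + u22)).val := by
    intro hd
    apply hK
    have e : 2 * (z1 + z2 + y1 + y2) * (z1 - z2) * (y1 - y2)
        = (2 * (u11 - u21 - u12 + u22)) * ((z1 + y1) * (z2 + y1) * (z1 + y2) * (z2 + y2)) := by
      have f1 : (z1 + y1) * (z2 + y1) * (u11 - u21) = z2 - z1 := by
        linear_combination (z2 + y1) * e11 - (z1 + y1) * e21
      have f2 : (z1 + y2) * (z2 + y2) * (u22 - u12) = z1 - z2 := by
        linear_combination (z1 + y2) * e22 - (z2 + y2) * e12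
      linear_combination (-2 * (z1 + y2) * (z2 + y2)) * f1 - 2 * (z1 + y1) * (z2 + y1) * f2
    rw [e, ZMod.val_mul]
    have hna : l ^ n ∣ l ^ a := pow_dvd_pow l (by omega)
    exact (Nat.dvd_mod_iff hna).mpr (Dvd.dvd.mul_right hd _)
  rw [G2_mean l a m n hl ha hn hmn χ hχ _ hK', mul_zero]

end Pool.Agent.Lib.H59T
end

-- from Lib.H59T.G4
section

/-!
# Project H59T, chunk G4 (M): counting
-/

open Finset

namespace Pool.Agent.Lib.H59T

/-- Proof. Multiples of `l^j` in `ZMod (l^a)`: `l^(a-j)` of them (`ZMod.val` between `0` and `l^a`). -/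
theorem G4_one (l a j : ℕ) (hl : l.Prime) (hj : j ≤ a) [NeZero (l ^ a)] :
    ((univ : Finset (ZMod (l ^ a))).filter (fun x => l ^ j ∣ x.val)).card = l ^ (a - j) := by
  have hlj : 0 < l ^ j := Nat.pow_pos hl.pos
  have hsplit : l ^ a = l ^ j * l ^ (a - j) := by
    rw [← pow_add]
    congr 1
    omega
  rw [← card_range (l ^ (a - j))]
  refine Finset.card_bij' (fun x _ => x.val / l ^ j) (fun m _ => ((l ^ j * m : ℕ) : ZMod (l ^ a))) ?_ ?_ ?_ ?_
  · intro x _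
    rw [mem_range, Nat.div_lt_iff_lt_mul hlj, mul_comm, ← hsplit]
    exact ZMod.val_lt x
  · intro m hm
    rw [mem_range] at hm
    rw [mem_filter]
    refine ⟨mem_univ _, ?_⟩
    have h1 : l ^ j * m < l ^ a := by
      rw [hsplit]
      exact Nat.mul_lt_mul_of_pos_left hm hlj
    rw [ZMod.val_natCast, Nat.mod_eq_of_lt h1]
    exact Dvd.intro m rfl
  · intro x hx
    have h1 := (mem_filter.1 hx).2
    rw [Nat.mul_div_cancel' h1]
    exact ZMod.natCast_zmod_val x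
  · intro m hm
    rw [mem_range] at hm
    have h1 : l ^ j * m < l ^ a := by
      rw [hsplit]
      exact Nat.mul_lt_mul_of_pos_left hm hlj
    rw [ZMod.val_natCast, Nat.mod_eq_of_lt h1, Nat.mul_div_cancel_left _ hlj]

/-- one of three factors is divisible by a large power -/
theorem g4_three (l n j u1 u2 u3 : ℕ) (hl : l.Prime)
    (hj : 3 * j ≤ n + 2) (hj2 : l = 2 → 3 * j ≤ n + 1) (h : l ^ n ∣ 2 * u1 * u2 * u3) :
    l ^ j ∣ u1 ∨ l ^ j ∣ u2 ∨ l ^ j ∣ u3 := by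
  by_contra hcon
  push Not at hcon
  obtain ⟨h1, h2, h3⟩ := hcon
  have : Fact l.Prime := ⟨hl⟩
  have hj0 : 1 ≤ j := by
    rcases Nat.eq_zero_or_pos j with h0 | h0
    · rw [h0, pow_zero] at h1
      exact absurd (one_dvd _) h1
    · exact h0
  have hne : ∀ u, ¬ l ^ j ∣ u → u ≠ 0 ∧ padicValNat l u < j := by
    intro u hu
    have hu0 : u ≠ 0 := fun h0 => hu (h0 ▸ dvd_zero _)
    refine ⟨hu0, ?_⟩
    rw [padicValNat_dvd_iff_le hu0, not_le] at hu
    exact hu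
  obtain ⟨a1, b1⟩ := hne u1 h1
  obtain ⟨a2, b2⟩ := hne u2 h2
  obtain ⟨a3, b3⟩ := hne u3 h3
  have h20 : (2 : ℕ) ≠ 0 := by norm_num
  rw [padicValNat_dvd_iff_le (mul_ne_zero (mul_ne_zero (mul_ne_zero h20 a1) a2) a3),
    padicValNat.mul (mul_ne_zero (mul_ne_zero h20 a1) a2) a3,
    padicValNat.mul (mul_ne_zero h20 a1) a2, padicValNat.mul h20 a1] at h
  by_cases hl2 : l = 2
  · have h4 := hj2 hl2
    have h5 : padicValNat l 2 = 1 := by
      rw [hl2]
      exact padicValNat_self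
    omega
  · have h5 : padicValNat l 2 = 0 := by
      refine padicValNat.eq_zero_of_not_dvd fun h6 => ?_
      exact hl2 ((Nat.prime_dvd_prime_iff_eq hl Nat.prime_two).1 h6)
    omega


theorem g4_val2 (l a n : ℕ) (hn : n ≤ a) (x y z : ZMod (l ^ a))
    (h : l ^ n ∣ (2 * x * y * z).val) : l ^ n ∣ 2 * x.val * y.val * z.val := by
  have h2 : (2 : ZMod (l ^ a)) = ((2 : ℕ) : ZMod (l ^ a)) := by norm_num
  have hd : l ^ n ∣ l ^ a := pow_dvd_pow l hn
  rw [h2] at h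
  have h3 : (((2 : ℕ) : ZMod (l ^ a)) * x * y * z).val = 2 * x.val * y.val * z.val % l ^ a := by
    rw [ZMod.val_mul, ZMod.val_mul, ZMod.val_mul, ZMod.val_natCast]
    simp only [Nat.mod_mul_mod, Nat.mod_mul_mod]
  rw [h3] at h
  exact (Nat.dvd_mod_iff hd).1 h

/-- Proof. If `l^n ∣ 2 x1 x2 x3` with `l^n ∣ l^a` then (for `l` odd; for `l = 2` with `n - 1` in place of `n`) one of
the `x_i` is divisible by `l^j`, `j = ⌈n/3⌉` (`⌈(n-1)/3⌉`); each of the three linear forms takes each value `(l^a)³`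
times: so the count is at most `3 l^(3a) l^(a - j)` (`G4_one`), and `l^(-j) ≤ 2 l^(-n/3)` in both cases. -/
theorem G4 (l a n : ℕ) (hl : l.Prime) (hn : n ≤ a) [NeZero (l ^ a)] :
    (((univ : Finset (ZMod (l ^ a) × ZMod (l ^ a) × ZMod (l ^ a) × ZMod (l ^ a))).filter
      (fun x => l ^ n ∣ (2 * (x.1 + x.2.1 + x.2.2.1 + x.2.2.2) * (x.1 - x.2.1) *
        (x.2.2.1 - x.2.2.2)).val)).card : ℝ) ≤ 6 * ((l ^ a : ℕ) : ℝ) ^ 4 * (l : ℝ) ^ (-(n / 3 : ℝ)) := by
  classical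
  obtain ⟨j, hj1, hj2, hj3⟩ : ∃ j : ℕ, 3 * j ≤ n + 2 ∧ (l = 2 → 3 * j ≤ n + 1) ∧
      n ≤ 3 * j + (if l = 2 then 1 else 0) := by
    by_cases h2 : l = 2
    · refine ⟨(n + 1) / 3, by omega, fun _ => by omega, ?_⟩
      rw [if_pos h2]
      omega
    · refine ⟨(n + 2) / 3, by omega, fun h => absurd h h2, ?_⟩
      rw [if_neg h2]
      omega
  have hja : j ≤ a := by
    rcases Nat.eq_zero_or_pos n with h0 | h0
    · omega
    · omega
  have hlr : (2 : ℝ) ≤ l := by exact_mod_cast hl.two_le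
  have hl0 : (0 : ℝ) < l := by linarith
  set T := ZMod (l ^ a) × ZMod (l ^ a) × ZMod (l ^ a) × ZMod (l ^ a) with hT
  set S : Finset (ZMod (l ^ a)) := univ.filter (fun x => l ^ j ∣ x.val) with hS
  have hSc : S.card = l ^ (a - j) := G4_one l a j hl hja
  -- one linear form
  have hform : ∀ (L : T → ZMod (l ^ a)) (R : T → ZMod (l ^ a) × ZMod (l ^ a) × ZMod (l ^ a)),
      Function.Injective (fun x => (L x, R x)) →
      ((univ : Finset T).filter (fun x => l ^ j ∣ (L x).val)).card ≤ l ^ (a - j) * (l ^ a) ^ 3 := by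
    intro L R hLR
    have h1 : ((univ : Finset T).filter (fun x => l ^ j ∣ (L x).val)).card ≤
        (S ×ˢ (univ : Finset (ZMod (l ^ a) × ZMod (l ^ a) × ZMod (l ^ a)))).card := by
      refine card_le_card_of_injOn (fun x => (L x, R x)) ?_ hLR.injOn
      intro x hx
      rw [mem_coe, mem_filter] at hx
      rw [mem_coe, mem_product, hS, mem_filter]
      exact ⟨⟨mem_univ _, hx.2⟩, mem_univ _⟩
    rw [card_product, hSc, card_univ, Fintype.card_prod, Fintype.card_prod, ZMod.card] at h1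
    calc _ ≤ _ := h1
      _ = _ := by ring
  have i1 : Function.Injective (fun x : T => (x.1 + x.2.1 + x.2.2.1 + x.2.2.2, (x.2.1, x.2.2.1, x.2.2.2))) := by
    rintro ⟨z1, z2, y1, y2⟩ ⟨z1', z2', y1', y2'⟩ h
    simp only [Prod.mk.injEq] at h
    obtain ⟨h1, rfl, rfl, rfl⟩ := h
    have : z1 = z1' := by linear_combination h1
    rw [this]
  have i2 : Function.Injective (fun x : T => (x.1 - x.2.1, (x.2.1, x.2.2.1, x.2.2.2))) := by
    rintro ⟨z1, z2, y1, y2⟩ ⟨z1', z2', y1', y2'⟩ h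
    simp only [Prod.mk.injEq] at h
    obtain ⟨h1, rfl, rfl, rfl⟩ := h
    have : z1 = z1' := by linear_combination h1
    rw [this]
  have i3 : Function.Injective (fun x : T => (x.2.2.1 - x.2.2.2, (x.1, x.2.1, x.2.2.2))) := by
    rintro ⟨z1, z2, y1, y2⟩ ⟨z1', z2', y1', y2'⟩ h
    simp only [Prod.mk.injEq] at h
    obtain ⟨h1, rfl, rfl, rfl⟩ := h
    have : y1 = y1' := by linear_combination h1
    rw [this]
  have hsub : (univ : Finset T).filter
      (fun x => l ^ n ∣ (2 * (x.1 + x.2.1 + x.2.2.1 + x.2.2.2) * (x.1 - x.2.1) *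
        (x.2.2.1 - x.2.2.2)).val) ⊆
      (univ : Finset T).filter (fun x => l ^ j ∣ (x.1 + x.2.1 + x.2.2.1 + x.2.2.2).val) ∪
      ((univ : Finset T).filter (fun x => l ^ j ∣ (x.1 - x.2.1).val) ∪
      (univ : Finset T).filter (fun x => l ^ j ∣ (x.2.2.1 - x.2.2.2).val)) := by
    intro x hx
    rw [mem_filter] at hx
    rw [mem_union, mem_union, mem_filter, mem_filter, mem_filter]
    rcases g4_three l n j _ _ _ hl hj1 hj2 (g4_val2 l a n hn _ _ _ hx.2) with h | h | h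
    · exact Or.inl ⟨mem_univ _, h⟩
    · exact Or.inr (Or.inl ⟨mem_univ _, h⟩)
    · exact Or.inr (Or.inr ⟨mem_univ _, h⟩)
  have hcard : ((univ : Finset T).filter
      (fun x => l ^ n ∣ (2 * (x.1 + x.2.1 + x.2.2.1 + x.2.2.2) * (x.1 - x.2.1) *
        (x.2.2.1 - x.2.2.2)).val)).card ≤ 3 * (l ^ (a - j) * (l ^ a) ^ 3) := by
    refine (card_le_card hsub).trans ((card_union_le _ _).trans ?_)
    have h1 := hform _ _ i1
    have h2 := hform _ _ i2
    have h3 := hform _ _ i3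
    have h4 := card_union_le ((univ : Finset T).filter (fun x => l ^ j ∣ (x.1 - x.2.1).val))
      ((univ : Finset T).filter (fun x => l ^ j ∣ (x.2.2.1 - x.2.2.2).val))
    omega
  have hcard' : (((univ : Finset T).filter
      (fun x => l ^ n ∣ (2 * (x.1 + x.2.1 + x.2.2.1 + x.2.2.2) * (x.1 - x.2.1) *
        (x.2.2.1 - x.2.2.2)).val)).card : ℝ) ≤ 3 * ((l : ℝ) ^ (a - j) * ((l : ℝ) ^ a) ^ 3) := by
    exact_mod_cast hcard
  refine hcard'.trans ?_
  have h5 : (l : ℝ) ^ (a - j) = (l : ℝ) ^ a * (l : ℝ) ^ (-(j : ℝ)) := by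
    rw [← Real.rpow_natCast, ← Real.rpow_natCast, ← Real.rpow_add hl0]
    congr 1
    rw [Nat.cast_sub hja]
    ring
  have h6 : (l : ℝ) ^ (-(j : ℝ)) ≤ 2 * (l : ℝ) ^ (-(n / 3 : ℝ)) := by
    by_cases h2 : l = 2
    · rw [if_pos h2] at hj3
      have h7 : (n : ℝ) ≤ 3 * j + 1 := by exact_mod_cast hj3
      have h8 : (l : ℝ) ^ (-(j : ℝ)) ≤ (l : ℝ) ^ (1 - (n / 3 : ℝ)) :=
        Real.rpow_le_rpow_of_exponent_le (by linarith) (by linarith)
      refine h8.trans (le_of_eq ?_)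
      rw [sub_eq_add_neg, Real.rpow_add hl0, Real.rpow_one, h2]
      norm_num
    · rw [if_neg h2] at hj3
      have h7 : (n : ℝ) ≤ 3 * j := by exact_mod_cast hj3
      have h8 : (l : ℝ) ^ (-(j : ℝ)) ≤ (l : ℝ) ^ (-(n / 3 : ℝ)) :=
        Real.rpow_le_rpow_of_exponent_le (by linarith) (by linarith)
      have h9 : 0 ≤ (l : ℝ) ^ (-(n / 3 : ℝ)) := Real.rpow_nonneg hl0.le _
      linarith
  rw [h5]
  push_cast
  have h10 : 0 ≤ 3 * ((l : ℝ) ^ a) ^ 4 := by positivity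
  calc 3 * ((l : ℝ) ^ a * (l : ℝ) ^ (-(j : ℝ)) * ((l : ℝ) ^ a) ^ 3)
      = 3 * ((l : ℝ) ^ a) ^ 4 * (l : ℝ) ^ (-(j : ℝ)) := by ring
    _ ≤ 3 * ((l : ℝ) ^ a) ^ 4 * (2 * (l : ℝ) ^ (-(n / 3 : ℝ))) := mul_le_mul_of_nonneg_left h6 h10
    _ = _ := by ring

end Pool.Agent.Lib.H59T
end
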