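import Mathlib

/-! Merged copies (to shorten the build) of Lib.H18Q.PB1, Lib.H18Q.Z7, Lib.H18Q.S4, Lib.H18Q.PG1, Lib.H44W.W0, Lib.H44W.E1, Lib.H44W.E2, Lib.H81A.Defs, Lib.H81A.BD, Lib.H81A.SU, Lib.H81A.GR, Lib.H81A.T1, Lib.H81A.T3, Lib.H81A.T2. -/

-- from Lib.H18Q.PB1
section

/-!
# Project H18Q, chunk PB1: decay of a Fourier transform, three derivatives
-/

open Finset MeasureTheory

namespace Pool.Agent.Lib.H18Q

theorem PB1_int (h : ℝ → ℝ) (a b : ℝ) (hc : Continuous h) (z : ∀ y, y ∉ Set.Icc a b → h y = 0) (ξ : ℝ) :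
    Integrable (fun y : ℝ => (h y : ℂ) * Complex.exp (-(ξ * y * Complex.I))) := by
  have hcont : Continuous (fun y : ℝ => (h y : ℂ) * Complex.exp (-(ξ * y * Complex.I))) := by
    fun_prop
  refine hcont.integrable_of_hasCompactSupport ?_
  refine HasCompactSupport.intro (K := Set.Icc a b) isCompact_Icc ?_
  intro y hy
  simp only [z y hy, Complex.ofReal_zero, zero_mul]

theorem PB1_norm (ξ y : ℝ) : ‖Complex.exp (-(ξ * y * Complex.I))‖ = 1 := by
  have e : -((ξ : ℂ) * y * Complex.I) = ((-(ξ * y) : ℝ) : ℂ) * Complex.I := by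
    push_cast
    ring
  rw [e, Complex.norm_exp_ofReal_mul_I]

theorem PB1_bd (h : ℝ → ℝ) (a b M : ℝ) (hab : a ≤ b) (z : ∀ y, y ∉ Set.Icc a b → h y = 0)
    (hb : ∀ y, |h y| ≤ M) (ξ : ℝ) :
    ‖∫ y : ℝ, (h y : ℂ) * Complex.exp (-(ξ * y * Complex.I))‖ ≤ (b - a) * M := by
  rw [← setIntegral_eq_integral_of_forall_compl_eq_zero (s := Set.Icc a b) (fun y hy => by
    simp only [z y hy, Complex.ofReal_zero, zero_mul])]
  have h1 := norm_setIntegral_le_of_norm_le_const (μ := volume) (s := Set.Icc a b) (C := M)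
    (f := fun y : ℝ => (h y : ℂ) * Complex.exp (-(ξ * y * Complex.I)))
    (by rw [Real.volume_Icc]; exact ENNReal.ofReal_lt_top)
    (fun y _ => by
      rw [norm_mul, PB1_norm, mul_one, Complex.norm_real, Real.norm_eq_abs]
      exact hb y)
  refine h1.trans (le_of_eq ?_)
  rw [Real.volume_real_Icc_of_le hab, mul_comm]

theorem PB1_step (h h' : ℝ → ℝ) (a b : ℝ) (hd : ∀ y, HasDerivAt h (h' y) y) (hc : Continuous h')
    (z : ∀ y, y ∉ Set.Icc a b → h y = 0) (z' : ∀ y, y ∉ Set.Icc a b → h' y = 0) (ξ : ℝ) :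
    ((ξ : ℂ) * Complex.I) * ∫ y : ℝ, (h y : ℂ) * Complex.exp (-(ξ * y * Complex.I)) =
      ∫ y : ℝ, (h' y : ℂ) * Complex.exp (-(ξ * y * Complex.I)) := by
  have hcont : Continuous h := continuous_iff_continuousAt.2 fun y => (hd y).continuousAt
  have i1 := PB1_int h a b hcont z ξ
  have i2 := PB1_int h' a b hc z' ξ
  have hv : ∀ y : ℝ, HasDerivAt (fun y : ℝ => Complex.exp (-(ξ * y * Complex.I)))
      (-((ξ : ℂ) * Complex.I) * Complex.exp (-(ξ * y * Complex.I))) y := by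
    intro y
    have e1 : HasDerivAt (fun y : ℝ => -((ξ : ℂ) * y * Complex.I)) (-((ξ : ℂ) * 1 * Complex.I)) y := by
      exact (((Complex.ofRealCLM.hasDerivAt (x := y)).const_mul (ξ : ℂ)).mul_const Complex.I).neg
    have e2 := e1.cexp
    refine e2.congr_deriv ?_
    ring
  have key := integral_mul_deriv_eq_deriv_mul_of_integrable (A := ℂ)
    (u := fun y : ℝ => (h y : ℂ)) (u' := fun y : ℝ => (h' y : ℂ))
    (v := fun y : ℝ => Complex.exp (-(ξ * y * Complex.I)))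
    (v' := fun y : ℝ => -((ξ : ℂ) * Complex.I) * Complex.exp (-(ξ * y * Complex.I)))
    (fun y _ => (hd y).ofReal_comp) (fun y _ => hv y)
    (by
      refine (i1.const_mul (-((ξ : ℂ) * Complex.I))).congr (Filter.Eventually.of_forall fun y => ?_)
      simp only [Pi.mul_apply]
      ring) i2 i1
  have e3 : (∫ y : ℝ, (h y : ℂ) * (-((ξ : ℂ) * Complex.I) * Complex.exp (-(ξ * y * Complex.I)))) =
      -((ξ : ℂ) * Complex.I) * ∫ y : ℝ, (h y : ℂ) * Complex.exp (-(ξ * y * Complex.I)) := by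
    rw [← integral_const_mul]
    refine integral_congr_ae (Filter.Eventually.of_forall fun y => ?_)
    simp only
    ring
  rw [e3] at key
  linear_combination -key

theorem PB1_real {X t B : ℝ} (hX : 0 ≤ X) (ht : 0 ≤ t) (h1 : X ≤ B) (h2 : t ^ 3 * X ≤ B) :
    X * (1 + t) ^ 3 ≤ 8 * B := by
  have h3 : (1 + t) ^ 3 ≤ 4 * (1 + t ^ 3) := by
    nlinarith [mul_nonneg (sq_nonneg (1 - t)) (by linarith : (0 : ℝ) ≤ 1 + t)]
  have h4 : X * (1 + t) ^ 3 ≤ X * (4 * (1 + t ^ 3)) := mul_le_mul_of_nonneg_left h3 hX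
  nlinarith

/-- Decay of order three. Proof: `|∫| ≤ (b-a) M` trivially, and integrating by parts three times
(compact support) `|ξ|³ |∫ f e^(-iξy)| = |∫ f3 e^(-iξy)| ≤ (b - a) M`; so the integral is at most
`(b-a) M min(1, |ξ|^(-3)) ≤ 8 (b-a) M/(1+|ξ|)³`. -/
theorem fourier_decay3 (f f1 f2 f3 : ℝ → ℝ) (a b M : ℝ) (hab : a ≤ b) (hM : 0 ≤ M)
    (h0 : ∀ y, HasDerivAt f (f1 y) y) (h1 : ∀ y, HasDerivAt f1 (f2 y) y)
    (h2 : ∀ y, HasDerivAt f2 (f3 y) y) (hc : Continuous f3)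
    (z0 : ∀ y, y ∉ Set.Icc a b → f y = 0) (z1 : ∀ y, y ∉ Set.Icc a b → f1 y = 0)
    (z2 : ∀ y, y ∉ Set.Icc a b → f2 y = 0) (z3 : ∀ y, y ∉ Set.Icc a b → f3 y = 0)
    (b0 : ∀ y, |f y| ≤ M) (b3 : ∀ y, |f3 y| ≤ M) (ξ : ℝ) :
    ‖∫ y : ℝ, (f y : ℂ) * Complex.exp (-(ξ * y * Complex.I))‖ ≤
      8 * (b - a) * M / (1 + |ξ|) ^ 3 := by
  have c2 : Continuous f2 := continuous_iff_continuousAt.2 fun y => (h2 y).continuousAt
  have c1 : Continuous f1 := continuous_iff_continuousAt.2 fun y => (h1 y).continuousAt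
  have s0 := PB1_step f f1 a b h0 c1 z0 z1 ξ
  have s1 := PB1_step f1 f2 a b h1 c2 z1 z2 ξ
  have s2 := PB1_step f2 f3 a b h2 hc z2 z3 ξ
  have B0 := PB1_bd f a b M hab z0 b0 ξ
  have B3 := PB1_bd f3 a b M hab z3 b3 ξ
  have e : ‖(ξ : ℂ)‖ = |ξ| := by
    rw [Complex.norm_real, Real.norm_eq_abs]
  rw [← s2, ← s1, ← s0] at B3
  simp only [norm_mul, Complex.norm_I, mul_one, e] at B3
  have hpos : 0 < (1 + |ξ|) ^ 3 := by positivity
  rw [le_div_iff₀ hpos]
  have := PB1_real (norm_nonneg _) (abs_nonneg ξ) B0 (by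
    calc _ = _ := ?_
      _ ≤ _ := B3
    ring)
  linarith

/-- Fourier inversion in the form used. Proof: the integral of `PB1` is Mathlib's Fourier transform
at `ξ/(2π)`; it is integrable by `fourier_decay3` (continuity of the Fourier transform of an
integrable function), so `MeasureTheory`'s inversion theorem
(`Continuous.fourierInv_fourier_eq` or its present name) applies; substitute `ξ = 2π x`. -/
theorem fourier_inv3 (f f1 f2 f3 : ℝ → ℝ) (a b M : ℝ) (hab : a ≤ b) (hM : 0 ≤ M)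
    (h0 : ∀ y, HasDerivAt f (f1 y) y) (h1 : ∀ y, HasDerivAt f1 (f2 y) y)
    (h2 : ∀ y, HasDerivAt f2 (f3 y) y) (hc : Continuous f3)
    (z0 : ∀ y, y ∉ Set.Icc a b → f y = 0) (z1 : ∀ y, y ∉ Set.Icc a b → f1 y = 0)
    (z2 : ∀ y, y ∉ Set.Icc a b → f2 y = 0) (z3 : ∀ y, y ∉ Set.Icc a b → f3 y = 0)
    (b0 : ∀ y, |f y| ≤ M) (b3 : ∀ y, |f3 y| ≤ M) :
    ∃ g : ℝ → ℂ, Continuous g ∧ (∀ ξ, ‖g ξ‖ ≤ 2 * (b - a) * M / (1 + |ξ|) ^ 3) ∧
      ∀ u : ℝ, (f u : ℂ) = ∫ ξ : ℝ, g ξ * Complex.exp (u * ξ * Complex.I) := by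
  have hcont : Continuous f := continuous_iff_continuousAt.2 fun y => (h0 y).continuousAt
  have hdec := fourier_decay3 f f1 f2 f3 a b M hab hM h0 h1 h2 hc z0 z1 z2 z3 b0 b3
  obtain ⟨G, hG⟩ : ∃ G : ℝ → ℂ, ∀ ξ, G ξ = ∫ y : ℝ, (f y : ℂ) * Complex.exp (-(ξ * y * Complex.I)) :=
    ⟨_, fun _ => rfl⟩
  have hGc : Continuous G := by
    have e : G = fun ξ : ℝ => ∫ y : ℝ, (f y : ℂ) * Complex.exp (-(ξ * y * Complex.I)) := funext hG
    rw [e]
    refine continuous_of_dominated (bound := fun y => ‖(f y : ℂ)‖) ?_ ?_ ?_ ?_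
    · intro ξ
      exact (PB1_int f a b hcont z0 ξ).aestronglyMeasurable
    · intro ξ
      refine Filter.Eventually.of_forall fun y => ?_
      rw [norm_mul, PB1_norm, mul_one]
    · have := (PB1_int f a b hcont z0 0).norm
      refine this.congr (Filter.Eventually.of_forall fun y => ?_)
      simp only [norm_mul, PB1_norm, mul_one]
    · refine Filter.Eventually.of_forall fun y => ?_
      fun_prop
  have hGb : ∀ ξ, ‖G ξ‖ ≤ 8 * (b - a) * M / (1 + |ξ|) ^ 3 := fun ξ => by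
    rw [hG]
    exact hdec ξ
  have hba : 0 ≤ (b - a) * M := mul_nonneg (by linarith) hM
  obtain ⟨fc, hfc⟩ : ∃ fc : ℝ → ℂ, ∀ y, fc y = (f y : ℂ) := ⟨_, fun _ => rfl⟩
  have hfc' : fc = fun y => (f y : ℂ) := funext hfc
  have hF : ∀ x : ℝ, FourierTransform.fourier fc x = G (2 * Real.pi * x) := by
    intro x
    rw [Real.fourier_real_eq_integral_exp_smul, hG]
    refine integral_congr_ae (Filter.Eventually.of_forall fun y => ?_)
    simp only [hfc, smul_eq_mul]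
    rw [mul_comm]
    congr 2
    push_cast
    ring
  have hfint : Integrable fc := by
    have := PB1_int f a b hcont z0 0
    refine this.congr (Filter.Eventually.of_forall fun y => ?_)
    simp only [hfc, Complex.ofReal_zero, zero_mul, neg_zero, Complex.exp_zero, mul_one]
  have hFfun : FourierTransform.fourier fc = fun x : ℝ => G (2 * Real.pi * x) := funext hF
  have hFint : Integrable (FourierTransform.fourier fc) := by
    rw [hFfun]
    have h3 := (integrable_inv_one_add_sq).const_mul (8 * (b - a) * M)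
    refine h3.mono' (hGc.comp (continuous_const.mul continuous_id)).aestronglyMeasurable ?_
    refine Filter.Eventually.of_forall fun x => ?_
    refine (hGb _).trans ?_
    rw [div_eq_mul_inv]
    refine mul_le_mul_of_nonneg_left ?_ (by nlinarith)
    refine inv_anti₀ (by positivity) ?_
    have hpi : 1 ≤ 2 * Real.pi := by nlinarith [Real.pi_gt_three]
    have h4 : |x| ≤ |2 * Real.pi * x| := by
      rw [abs_mul, abs_of_nonneg (by linarith : (0 : ℝ) ≤ 2 * Real.pi)]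
      nlinarith [abs_nonneg x]
    have h5 : (1 + |x|) ^ 3 ≤ (1 + |2 * Real.pi * x|) ^ 3 := by
      gcongr
    have h6 : 1 + x ^ 2 ≤ (1 + |x|) ^ 3 := by
      have h7 := abs_nonneg x
      have h8 : x ^ 2 = |x| ^ 2 := (sq_abs x).symm
      rw [h8]
      nlinarith [mul_nonneg h7 h7, mul_nonneg h7 (mul_nonneg h7 h7)]
    exact h6.trans h5
  have hinv := Continuous.fourierInv_fourier_eq (f := fc) (by rw [hfc']; fun_prop) hfint hFint
  refine ⟨fun ξ => ((1 / (2 * Real.pi) : ℝ) : ℂ) * G ξ, by fun_prop, ?_, ?_⟩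
  · intro ξ
    rw [norm_mul, Complex.norm_real, Real.norm_eq_abs, abs_of_nonneg (by positivity)]
    have h3 := hGb ξ
    have hpos : 0 < (1 + |ξ|) ^ 3 := by positivity
    have h4 : 1 / (2 * Real.pi) ≤ 1 / 4 := by
      apply one_div_le_one_div_of_le (by norm_num)
      nlinarith [Real.pi_gt_three]
    calc 1 / (2 * Real.pi) * ‖G ξ‖ ≤ 1 / 4 * (8 * (b - a) * M / (1 + |ξ|) ^ 3) :=
          mul_le_mul h4 h3 (norm_nonneg _) (by norm_num)
      _ = 2 * (b - a) * M / (1 + |ξ|) ^ 3 := by ring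
  · intro u
    have h3 := congrFun hinv u
    rw [Real.fourierInv_eq', hfc] at h3
    rw [← h3]
    obtain ⟨Q, hQ⟩ : ∃ Q : ℝ → ℂ, ∀ x, Q x = G x * Complex.exp (u * x * Complex.I) := ⟨_, fun _ => rfl⟩
    have e1 : (∫ ξ : ℝ, ((1 / (2 * Real.pi) : ℝ) : ℂ) * G ξ * Complex.exp (u * ξ * Complex.I)) =
        ((1 / (2 * Real.pi) : ℝ) : ℂ) * ∫ ξ : ℝ, Q ξ := by
      rw [← integral_const_mul]
      refine integral_congr_ae (Filter.Eventually.of_forall fun y => ?_)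
      simp only [hQ]
      ring
    have e2 := Measure.integral_comp_mul_left Q (2 * Real.pi)
    rw [e1]
    have e3 : (∫ x : ℝ, Q (2 * Real.pi * x)) = ∫ v : ℝ, Complex.exp (↑(2 * Real.pi * inner ℝ v u) * Complex.I) •
        FourierTransform.fourier fc v := by
      refine integral_congr_ae (Filter.Eventually.of_forall fun x => ?_)
      simp only [hQ, hF, smul_eq_mul]
      rw [mul_comm]
      congr 2
      simp only [RCLike.inner_apply, conj_trivial]
      push_cast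
      ring
    rw [← e3, e2, abs_of_pos (by positivity), Complex.real_smul]
    simp only [one_div]

end Pool.Agent.Lib.H18Q
end

-- from Lib.H18Q.Z7
section

/-!
# Project H18Q, chunk Z7: counting points by measure
-/

open Finset

namespace Pool.Agent.Lib.H18Q

/-- Let `γ i`, `i ∈ S`, be reals with weights `m i ≥ 0`, `lam > 0`, all `[γ i - lam, γ i + lam]`
contained in `[a, b]`; suppose the points within `lam` of any `v` have total weight at most `B`,
and `g ≥ 0` is continuous with `g v ≥ 1` whenever some `γ i` is within `lam` of `v ∈ [a, b]`. Then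
`∑ m i ≤ B/(2 lam) ∫_a^b g`.

Proof: `2 lam m i = ∫_a^b m i 1[|γ i - v| ≤ lam] dv`; sum over `i`; the integrand
`∑_i m i 1[|γ i - v| ≤ lam]` is at most `B` and is `0` if no `γ i` is within `lam` of `v`, so it is at
most `B g(v)`. -/
theorem count_by_measure {ι : Type*} (S : Finset ι) (γ m : ι → ℝ) (lam a b B : ℝ) (g : ℝ → ℝ)
    (hlam : 0 < lam) (hm : ∀ i ∈ S, 0 ≤ m i) (hB : 0 ≤ B)
    (ha : ∀ i ∈ S, a ≤ γ i - lam) (hb : ∀ i ∈ S, γ i + lam ≤ b) (hab : a ≤ b)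
    (hloc : ∀ v ∈ Set.Icc a b, ∑ i ∈ S with |γ i - v| ≤ lam, m i ≤ B)
    (hg : Continuous g) (hg0 : ∀ v, 0 ≤ g v)
    (hg1 : ∀ v ∈ Set.Icc a b, (∃ i ∈ S, |γ i - v| ≤ lam) → 1 ≤ g v) :
    ∑ i ∈ S, m i ≤ B / (2 * lam) * ∫ v in a..b, g v := by
  classical
  have hind : ∀ i v, (if |γ i - v| ≤ lam then m i else 0) =
      (Set.Icc (γ i - lam) (γ i + lam)).indicator (fun _ => m i) v := by
    intro i v
    rw [Set.indicator_apply]
    have h1 : |γ i - v| ≤ lam ↔ v ∈ Set.Icc (γ i - lam) (γ i + lam) := by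
      rw [abs_le, Set.mem_Icc]
      constructor
      · rintro ⟨h1, h2⟩
        constructor <;> linarith
      · rintro ⟨h1, h2⟩
        constructor <;> linarith
    by_cases h : |γ i - v| ≤ lam
    · rw [if_pos h, if_pos (h1.1 h)]
    · rw [if_neg h, if_neg fun h2 => h (h1.2 h2)]
  have hint : ∀ i, MeasureTheory.Integrable (fun v : ℝ => if |γ i - v| ≤ lam then m i else 0) := by
    intro i
    simp only [hind]
    rw [MeasureTheory.integrable_indicator_iff measurableSet_Icc]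
    exact MeasureTheory.integrableOn_const (by rw [Real.volume_Icc]; exact ENNReal.ofReal_ne_top)
  have hval : ∀ i ∈ S, ∫ v in a..b, (if |γ i - v| ≤ lam then m i else 0) = 2 * lam * m i := by
    intro i hi
    rw [intervalIntegral.integral_of_le hab, ← MeasureTheory.integral_Icc_eq_integral_Ioc]
    simp only [hind]
    rw [MeasureTheory.setIntegral_indicator measurableSet_Icc]
    have h1 : Set.Icc a b ∩ Set.Icc (γ i - lam) (γ i + lam) = Set.Icc (γ i - lam) (γ i + lam) :=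
      Set.inter_eq_right.2 (Set.Icc_subset_Icc (ha i hi) (hb i hi))
    rw [h1, MeasureTheory.setIntegral_const, MeasureTheory.measureReal_def, Real.volume_Icc,
      ENNReal.toReal_ofReal (by linarith), smul_eq_mul]
    ring
  have hsum : ∑ i ∈ S, 2 * lam * m i = ∫ v in a..b, ∑ i ∈ S, (if |γ i - v| ≤ lam then m i else 0) := by
    rw [intervalIntegral.integral_finsetSum fun i _ => (hint i).intervalIntegrable]
    exact sum_congr rfl fun i hi => (hval i hi).symm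
  have hle : ∫ v in a..b, ∑ i ∈ S, (if |γ i - v| ≤ lam then m i else 0) ≤ ∫ v in a..b, B * g v := by
    refine intervalIntegral.integral_mono_on hab ?_ ?_ fun v hv => ?_
    · exact (MeasureTheory.integrable_finsetSum _ fun i _ => hint i).intervalIntegrable
    · exact (continuous_const.mul hg).intervalIntegrable _ _
    · by_cases h : ∃ i ∈ S, |γ i - v| ≤ lam
      · have h1 := hloc v hv
        rw [sum_filter] at h1
        exact h1.trans (le_mul_of_one_le_right hB (hg1 v hv h))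
      · rw [sum_eq_zero]
        · exact mul_nonneg hB (hg0 v)
        · intro i hi
          exact if_neg fun h2 => h ⟨i, hi, h2⟩
  rw [intervalIntegral.integral_const_mul, ← hsum, ← mul_sum] at hle
  rw [div_mul_eq_mul_div, le_div_iff₀ (by positivity)]
  linarith

end Pool.Agent.Lib.H18Q
end

-- from Lib.H18Q.S4
section

/-!
# Project H18Q, chunk S4: the Gaussian identity for Dirichlet polynomials
-/

open Finset

namespace Pool.Agent.Lib.H18Q

theorem S4_sq {ι : Type*} (s : Finset ι) (f : ι → ℂ) :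
    ((‖∑ i ∈ s, f i‖ ^ 2 : ℝ) : ℂ) = ∑ i ∈ s, ∑ j ∈ s, f i * (starRingEnd ℂ) (f j) := by
  rw [← Complex.normSq_eq_norm_sq, ← Complex.mul_conj, map_sum, sum_mul_sum]

/-- The terms of the left side. -/
theorem S4_left {ι : Type*} (s : Finset ι) (a : ι → ℝ) (b : ι → ℂ) (T : ℝ) (v : ℝ) :
    ((Real.exp (-(v ^ 2 / T ^ 2)) * ‖∑ i ∈ s, b i * Complex.exp (-(v * a i * Complex.I))‖ ^ 2 : ℝ) : ℂ) =
      ∑ i ∈ s, ∑ j ∈ s, b i * (starRingEnd ℂ) (b j) *
        Complex.exp (-(1 / (T : ℂ) ^ 2) * (v : ℂ) ^ 2 + (-(((a i - a j : ℝ)) : ℂ) * Complex.I) * v + 0) := by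
  rw [Complex.ofReal_mul, S4_sq, mul_sum]
  refine sum_congr rfl fun i _ => ?_
  rw [mul_sum]
  refine sum_congr rfl fun j _ => ?_
  have h1 : (starRingEnd ℂ) (b j * Complex.exp (-(v * a j * Complex.I))) =
      (starRingEnd ℂ) (b j) * Complex.exp (v * a j * Complex.I) := by
    rw [map_mul, ← Complex.exp_conj]
    congr 2
    simp
  rw [h1, Complex.ofReal_exp]
  have h2 : Complex.exp (-(1 / (T : ℂ) ^ 2) * (v : ℂ) ^ 2 + (-(((a i - a j : ℝ)) : ℂ) * Complex.I) * v + 0) =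
      Complex.exp (((-(v ^ 2 / T ^ 2) : ℝ)) : ℂ) * Complex.exp (-(v * a i * Complex.I)) * Complex.exp (v * a j * Complex.I) := by
    rw [← Complex.exp_add, ← Complex.exp_add]
    congr 1
    push_cast
    ring
  rw [h2]
  ring

/-- The terms of the right side. -/
theorem S4_right {ι : Type*} (s : Finset ι) (a : ι → ℝ) (b : ι → ℂ) (T : ℝ) (y : ℝ) :
    ((‖∑ i ∈ s, b i * Real.exp (-(T ^ 2 * (y - a i) ^ 2 / 2))‖ ^ 2 : ℝ) : ℂ) =
      ∑ i ∈ s, ∑ j ∈ s, b i * (starRingEnd ℂ) (b j) *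
        Complex.exp (-(T : ℂ) ^ 2 * (y : ℂ) ^ 2 + ((T : ℂ) ^ 2 * (a i + a j)) * y +
          -((T : ℂ) ^ 2 * ((a i : ℂ) ^ 2 + (a j : ℂ) ^ 2) / 2)) := by
  rw [S4_sq]
  refine sum_congr rfl fun i _ => sum_congr rfl fun j _ => ?_
  have h1 : (starRingEnd ℂ) (b j * Real.exp (-(T ^ 2 * (y - a j) ^ 2 / 2))) =
      (starRingEnd ℂ) (b j) * Real.exp (-(T ^ 2 * (y - a j) ^ 2 / 2)) := by
    rw [map_mul, Complex.conj_ofReal]
  rw [h1, Complex.ofReal_exp, Complex.ofReal_exp]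
  have h2 : Complex.exp (-(T : ℂ) ^ 2 * (y : ℂ) ^ 2 + ((T : ℂ) ^ 2 * (a i + a j)) * y +
          -((T : ℂ) ^ 2 * ((a i : ℂ) ^ 2 + (a j : ℂ) ^ 2) / 2)) =
      Complex.exp (((-(T ^ 2 * (y - a i) ^ 2 / 2) : ℝ)) : ℂ) * Complex.exp (((-(T ^ 2 * (y - a j) ^ 2 / 2) : ℝ)) : ℂ) := by
    rw [← Complex.exp_add]
    congr 1
    push_cast
    ring
  rw [h2]
  ring

theorem S4_b1 {T : ℝ} (hT : 0 < T) : (-(1 / (T : ℂ) ^ 2)).re < 0 := by
  have h : -(1 / (T : ℂ) ^ 2) = ((-(1 / T ^ 2) : ℝ) : ℂ) := by push_cast; rfl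
  rw [h, Complex.ofReal_re, neg_lt_zero]
  positivity

theorem S4_b2 {T : ℝ} (hT : 0 < T) : (-(T : ℂ) ^ 2).re < 0 := by
  have h : -(T : ℂ) ^ 2 = ((-(T ^ 2) : ℝ) : ℂ) := by push_cast; rfl
  rw [h, Complex.ofReal_re, neg_lt_zero]
  positivity

/-- The constants. -/
theorem S4_const {T : ℝ} (hT : 0 < T) :
    ((Real.pi : ℂ) / -(-(1 / (T : ℂ) ^ 2))) ^ (1 / 2 : ℂ) = (T : ℂ) ^ 2 * ((Real.pi : ℂ) / -(-(T : ℂ) ^ 2)) ^ (1 / 2 : ℂ) := by
  have hT' : (T : ℂ) ≠ 0 := Complex.ofReal_ne_zero.2 hT.ne'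
  have e1 : ((Real.pi : ℂ) / -(-(1 / (T : ℂ) ^ 2))) = ((Real.pi * T ^ 2 : ℝ) : ℂ) := by
    push_cast
    field_simp
  have e2 : ((Real.pi : ℂ) / -(-(T : ℂ) ^ 2)) = ((Real.pi / T ^ 2 : ℝ) : ℂ) := by
    push_cast
    rw [neg_neg]
  have e3 : (1 / 2 : ℂ) = ((1 / 2 : ℝ) : ℂ) := by push_cast; rfl
  rw [e1, e2, e3, ← Complex.ofReal_cpow (by positivity), ← Complex.ofReal_cpow (by positivity), ← Complex.ofReal_pow,
    ← Complex.ofReal_mul]
  congr 1
  rw [← Real.sqrt_eq_rpow, ← Real.sqrt_eq_rpow, Real.sqrt_mul Real.pi_pos.le, Real.sqrt_div Real.pi_pos.le,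
    Real.sqrt_sq hT.le]
  field_simp

/-- `∫ e^(-v²/T²) |∑ b_i e^(-i v a_i)|² dv = T² ∫ |∑ b_i e^(-T² (y - a_i)²/2)|² dy`.

Proof. Expand both sides as double sums over `i, j`. Left: `b_i conj b_j ∫ e^(-v²/T²)
e^(-i v (a_i - a_j)) dv = b_i conj b_j √π T e^(-T² (a_i - a_j)²/4)` (Gaussian integral
`integral_cexp_quadratic` or `fourierIntegral_gaussian`). Right: `T² b_i conj b_j
∫ e^(-T² (y-a_i)²/2 - T² (y-a_j)²/2) dy`, and `(y-a)²/2 + (y-b)²/2 = (y - (a+b)/2)² + (a-b)²/4`, so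
it is `T² b_i conj b_j e^(-T² (a_i-a_j)²/4) √π/T`. -/
theorem gauss_identity {ι : Type*} (s : Finset ι) (a : ι → ℝ) (b : ι → ℂ) (T : ℝ) (hT : 0 < T) :
    ∫ v : ℝ, Real.exp (-(v ^ 2 / T ^ 2)) * ‖∑ i ∈ s, b i * Complex.exp (-(v * a i * Complex.I))‖ ^ 2
      = T ^ 2 * ∫ y : ℝ, ‖∑ i ∈ s, b i * Real.exp (-(T ^ 2 * (y - a i) ^ 2 / 2))‖ ^ 2 := by
  have hT' : (T : ℂ) ≠ 0 := Complex.ofReal_ne_zero.2 hT.ne'
  apply Complex.ofReal_injective
  rw [Complex.ofReal_mul, ← integral_complex_ofReal, ← integral_complex_ofReal]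
  simp only [S4_left s a b T, S4_right s a b T]
  have i1 : ∀ i j, MeasureTheory.Integrable (fun v : ℝ => b i * (starRingEnd ℂ) (b j) *
        Complex.exp (-(1 / (T : ℂ) ^ 2) * (v : ℂ) ^ 2 + (-(((a i - a j : ℝ)) : ℂ) * Complex.I) * v + 0)) :=
    fun i j => (integrable_cexp_quadratic' (S4_b1 hT) _ _).const_mul _
  have i2 : ∀ i j, MeasureTheory.Integrable (fun y : ℝ => b i * (starRingEnd ℂ) (b j) *
        Complex.exp (-(T : ℂ) ^ 2 * (y : ℂ) ^ 2 + ((T : ℂ) ^ 2 * (a i + a j)) * y +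
          -((T : ℂ) ^ 2 * ((a i : ℂ) ^ 2 + (a j : ℂ) ^ 2) / 2))) :=
    fun i j => (integrable_cexp_quadratic' (S4_b2 hT) _ _).const_mul _
  rw [MeasureTheory.integral_finsetSum _ fun i _ => MeasureTheory.integrable_finsetSum _ fun j _ => i1 i j,
    MeasureTheory.integral_finsetSum _ fun i _ => MeasureTheory.integrable_finsetSum _ fun j _ => i2 i j, mul_sum]
  refine sum_congr rfl fun i _ => ?_
  rw [MeasureTheory.integral_finsetSum _ fun j _ => i1 i j, MeasureTheory.integral_finsetSum _ fun j _ => i2 i j, mul_sum]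
  refine sum_congr rfl fun j _ => ?_
  rw [MeasureTheory.integral_const_mul, MeasureTheory.integral_const_mul, integral_cexp_quadratic (S4_b1 hT),
    integral_cexp_quadratic (S4_b2 hT), S4_const hT]
  have e : (0 : ℂ) - (-(((a i - a j : ℝ)) : ℂ) * Complex.I) ^ 2 / (4 * -(1 / (T : ℂ) ^ 2)) =
      -((T : ℂ) ^ 2 * ((a i : ℂ) ^ 2 + (a j : ℂ) ^ 2) / 2) - ((T : ℂ) ^ 2 * (a i + a j)) ^ 2 / (4 * -(T : ℂ) ^ 2) := by
    push_cast
    rw [neg_mul, neg_sq, mul_pow, Complex.I_sq]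
    field_simp
    ring
  rw [e, Complex.ofReal_pow]
  ring

/-- Both integrands are integrable (continuous, dominated by Gaussians; the sum in the second
integrand is bounded and each term is a Gaussian). -/
theorem gauss_integrable {ι : Type*} (s : Finset ι) (a : ι → ℝ) (b : ι → ℂ) (T : ℝ)
    (hT : 0 < T) :
    MeasureTheory.Integrable (fun v : ℝ => Real.exp (-(v ^ 2 / T ^ 2)) *
      ‖∑ i ∈ s, b i * Complex.exp (-(v * a i * Complex.I))‖ ^ 2) ∧
    MeasureTheory.Integrable (fun y : ℝ =>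
      ‖∑ i ∈ s, b i * Real.exp (-(T ^ 2 * (y - a i) ^ 2 / 2))‖ ^ 2) := by
  have i1 : ∀ i j, MeasureTheory.Integrable (fun v : ℝ => b i * (starRingEnd ℂ) (b j) *
        Complex.exp (-(1 / (T : ℂ) ^ 2) * (v : ℂ) ^ 2 + (-(((a i - a j : ℝ)) : ℂ) * Complex.I) * v + 0)) :=
    fun i j => (integrable_cexp_quadratic' (S4_b1 hT) _ _).const_mul _
  have i2 : ∀ i j, MeasureTheory.Integrable (fun y : ℝ => b i * (starRingEnd ℂ) (b j) *
        Complex.exp (-(T : ℂ) ^ 2 * (y : ℂ) ^ 2 + ((T : ℂ) ^ 2 * (a i + a j)) * y +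
          -((T : ℂ) ^ 2 * ((a i : ℂ) ^ 2 + (a j : ℂ) ^ 2) / 2))) :=
    fun i j => (integrable_cexp_quadratic' (S4_b2 hT) _ _).const_mul _
  constructor
  · have h : MeasureTheory.Integrable (fun v : ℝ => (((Real.exp (-(v ^ 2 / T ^ 2)) *
        ‖∑ i ∈ s, b i * Complex.exp (-(v * a i * Complex.I))‖ ^ 2 : ℝ)) : ℂ)) := by
      simp only [S4_left s a b T]
      exact MeasureTheory.integrable_finsetSum _ fun i _ => MeasureTheory.integrable_finsetSum _ fun j _ => i1 i j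
    exact h.re
  · have h : MeasureTheory.Integrable (fun y : ℝ => (((‖∑ i ∈ s, b i * Real.exp (-(T ^ 2 * (y - a i) ^ 2 / 2))‖ ^ 2 : ℝ)) : ℂ)) := by
      simp only [S4_right s a b T]
      exact MeasureTheory.integrable_finsetSum _ fun i _ => MeasureTheory.integrable_finsetSum _ fun j _ => i2 i j
    exact h.re

/-- Hence the integral over `[-T, T]`, where `e^(-v²/T²) ≥ e^(-1) ≥ 1/3`. -/
theorem gauss_interval {ι : Type*} (s : Finset ι) (a : ι → ℝ) (b : ι → ℂ) (T : ℝ) (hT : 0 < T) :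
    ∫ v in (-T)..T, ‖∑ i ∈ s, b i * Complex.exp (-(v * a i * Complex.I))‖ ^ 2 ≤
      3 * T ^ 2 * ∫ y : ℝ, ‖∑ i ∈ s, b i * Real.exp (-(T ^ 2 * (y - a i) ^ 2 / 2))‖ ^ 2 := by
  have hint := (gauss_integrable s a b T hT).1
  have hab : -T ≤ T := by linarith
  rw [mul_assoc, ← gauss_identity s a b T hT]
  have hcont : Continuous fun v : ℝ => ‖∑ i ∈ s, b i * Complex.exp (-(v * a i * Complex.I))‖ ^ 2 := by fun_prop
  calc ∫ v in (-T)..T, ‖∑ i ∈ s, b i * Complex.exp (-(v * a i * Complex.I))‖ ^ 2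
      ≤ ∫ v in (-T)..T, 3 * (Real.exp (-(v ^ 2 / T ^ 2)) * ‖∑ i ∈ s, b i * Complex.exp (-(v * a i * Complex.I))‖ ^ 2) := by
        refine intervalIntegral.integral_mono_on hab (hcont.intervalIntegrable _ _)
          (hint.const_mul 3).intervalIntegrable fun v hv => ?_
        have h1 : v ^ 2 / T ^ 2 ≤ 1 := by
          rw [div_le_one (by positivity)]
          exact sq_le_sq' hv.1 hv.2
        have h2 : (1 : ℝ) ≤ 3 * Real.exp (-(v ^ 2 / T ^ 2)) := by
          have h3 : Real.exp (-1) ≤ Real.exp (-(v ^ 2 / T ^ 2)) := Real.exp_le_exp.2 (by linarith)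
          have h4 : Real.exp 1 < 3 := Real.exp_one_lt_three
          have h5 : 1 / 3 < Real.exp (-1) := by
            rw [Real.exp_neg, ← one_div]
            exact one_div_lt_one_div_of_lt (Real.exp_pos 1) h4
          linarith
        rw [← mul_assoc]
        exact le_mul_of_one_le_left (by positivity) h2
    _ = ∫ v in Set.Ioc (-T) T, 3 * (Real.exp (-(v ^ 2 / T ^ 2)) * ‖∑ i ∈ s, b i * Complex.exp (-(v * a i * Complex.I))‖ ^ 2) :=
        intervalIntegral.integral_of_le hab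
    _ ≤ ∫ v : ℝ, 3 * (Real.exp (-(v ^ 2 / T ^ 2)) * ‖∑ i ∈ s, b i * Complex.exp (-(v * a i * Complex.I))‖ ^ 2) :=
        MeasureTheory.setIntegral_le_integral (hint.const_mul 3) (Filter.Eventually.of_forall fun v => by positivity)
    _ = _ := MeasureTheory.integral_const_mul _ _

end Pool.Agent.Lib.H18Q
end

-- from Lib.H18Q.PG1
section

/-!
# Project H18Q, chunk PG1: the convolution estimate
-/

open Finset MeasureTheory

namespace Pool.Agent.Lib.H18Q

theorem pg1_int : Integrable (fun ξ : ℝ => 1 / (1 + |ξ|) ^ 3) := by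
  have h := integrable_one_add_norm (E := ℝ) (μ := volume) (r := 3) (by simp)
  refine h.congr (Filter.Eventually.of_forall fun x => ?_)
  have h1 : (0:ℝ) < 1 + |x| := by positivity
  have : (1 + ‖x‖) ^ (-(3:ℝ)) = 1 / (1 + |x|) ^ 3 := by
    rw [Real.norm_eq_abs, Real.rpow_neg h1.le]
    rw [show (3:ℝ) = ((3:ℕ):ℝ) by norm_num, Real.rpow_natCast]
    rw [one_div]
  exact this

theorem pg1_Ioi (c : ℝ) (hc : 0 ≤ c) :
    ∫ x in Set.Ioi c, 1 / (1 + x) ^ 3 = 1 / (2 * (1 + c) ^ 2) := by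
  have hd : ∀ x ∈ Set.Ici c, HasDerivAt (fun y : ℝ => -(1 / (2 * (1 + y) ^ 2)))
      (1 / (1 + x) ^ 3) x := by
    intro x hx
    have hx0 : 0 < 1 + x := by
      have : c ≤ x := hx
      linarith
    have h1 : HasDerivAt (fun y : ℝ => 2 * (1 + y) ^ 2) (2 * (2 * (1 + x))) x := by
      have h2 := ((hasDerivAt_id x).const_add (1:ℝ)).pow 2
      have h3 := h2.const_mul (2:ℝ)
      refine h3.congr_deriv ?_
      simp
    have h4 := (h1.inv (by positivity)).neg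
    have h5 : (fun y : ℝ => -(1 / (2 * (1 + y) ^ 2))) = fun y => -(2 * (1 + y) ^ 2)⁻¹ := by
      funext y
      rw [one_div]
    rw [h5]
    refine h4.congr_deriv ?_
    field_simp
  have hint : IntegrableOn (fun x : ℝ => 1 / (1 + x) ^ 3) (Set.Ioi c) := by
    refine (pg1_int.integrableOn (s := Set.Ioi c)).congr_fun ?_ measurableSet_Ioi
    intro x hx
    have : c < x := hx
    have h0 : |x| = x := abs_of_pos (by linarith)
    simp only [h0]
  have hlim : Filter.Tendsto (fun y : ℝ => -(1 / (2 * (1 + y) ^ 2))) Filter.atTop (nhds 0) := by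
    rw [← neg_zero]
    refine Filter.Tendsto.neg ?_
    have h1 : Filter.Tendsto (fun y : ℝ => 2 * (1 + y) ^ 2) Filter.atTop Filter.atTop := by
      have h2 : Filter.Tendsto (fun y : ℝ => 1 + y) Filter.atTop Filter.atTop :=
        Filter.tendsto_atTop_add_const_left _ _ Filter.tendsto_id
      have h3 := (Filter.tendsto_pow_atTop (n := 2) (by norm_num)).comp h2
      exact Filter.Tendsto.const_mul_atTop (by norm_num) h3
    have h4 := h1.inv_tendsto_atTop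
    refine h4.congr fun y => ?_
    simp
  rw [integral_Ioi_of_hasDerivAt_of_tendsto' hd hint hlim]
  ring

/-- `∫ (1 + |ξ|)^(-3) dξ = 1`, and the tail `|ξ| > R` is at most `1/R²`. -/
theorem PG1_kernel : Integrable (fun ξ : ℝ => 1 / (1 + |ξ|) ^ 3) ∧
    ∫ ξ : ℝ, 1 / (1 + |ξ|) ^ 3 = 1 ∧
    ∀ R : ℝ, 0 < R → ∫ ξ in {ξ : ℝ | R < |ξ|}, 1 / (1 + |ξ|) ^ 3 ≤ 1 / R ^ 2 := by
  refine ⟨pg1_int, ?_, ?_⟩
  · have h := integral_comp_abs (f := fun x : ℝ => 1 / (1 + x) ^ 3)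
    rw [h, pg1_Ioi 0 le_rfl]
    norm_num
  · intro R hR
    have hm : MeasurableSet {ξ : ℝ | R < |ξ|} := measurableSet_lt measurable_const (by fun_prop)
    rw [← integral_indicator hm]
    have h := integral_comp_abs (f := fun x : ℝ => (Set.Ioi R).indicator (fun y => 1 / (1 + y) ^ 3) x)
    have h2 : (fun x : ℝ => ({ξ : ℝ | R < |ξ|}).indicator (fun y : ℝ => 1 / (1 + |y|) ^ 3) x)
        = fun x : ℝ => (Set.Ioi R).indicator (fun y => 1 / (1 + y) ^ 3) |x| := by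
      funext x
      by_cases hx : R < |x|
      · rw [Set.indicator_of_mem (by exact hx), Set.indicator_of_mem (by exact hx)]
      · rw [Set.indicator_of_notMem (by exact hx), Set.indicator_of_notMem (by exact hx)]
    rw [h2, h]
    have h3 : ∫ x in Set.Ioi (0:ℝ), (Set.Ioi R).indicator (fun y : ℝ => 1 / (1 + y) ^ 3) x
        = ∫ x in Set.Ioi R, 1 / (1 + x) ^ 3 := by
      rw [setIntegral_indicator measurableSet_Ioi]
      congr 1
      have : Set.Ioi (0:ℝ) ∩ Set.Ioi R = Set.Ioi R := by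
        rw [Set.Ioi_inter_Ioi, max_eq_right hR.le]
      rw [this]
    rw [h3, pg1_Ioi R hR.le]
    have e : 2 * (1 / (2 * (1 + R) ^ 2)) = 1 / (1 + R) ^ 2 := by
      field_simp
    rw [e]
    apply one_div_le_one_div_of_le (by positivity)
    gcongr
    linarith

/-- Proof. `‖∫ kh(ξ) D(t-ξ) dξ‖ ≤ ∫_{|t-ξ| ≤ R} ‖kh(ξ)‖ ‖D(t-ξ)‖ + M ∫_{|t-ξ| > R} ‖kh(ξ)‖`; for
`|t| ≤ S` the second part is at most `M B/(R-S)²` (`|ξ| > R - S`); the first integrated over `t`
(Fubini) is at most `∫ ‖kh‖ ∫_{|v| ≤ R} ‖D(v)‖ dv ≤ B ∫_{-R}^R ‖D‖`. -/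
theorem PG1_conv (kh D : ℝ → ℂ) (B M S R : ℝ) (hB : 0 ≤ B) (hM : 0 ≤ M) (hS : 0 < S)
    (hSR : S < R) (hkc : Continuous kh) (hkb : ∀ ξ, ‖kh ξ‖ ≤ B / (1 + |ξ|) ^ 3)
    (hDc : Continuous D) (hDb : ∀ v, ‖D v‖ ≤ M) :
    ∫ t in (-S)..S, ‖∫ ξ : ℝ, kh ξ * D (t - ξ)‖ ≤
      B * (∫ v in (-R)..R, ‖D v‖) + 2 * S * B * M / (R - S) ^ 2 := by
  obtain ⟨hKi, hK1, hKt⟩ := PG1_kernel
  have hkbi : Integrable (fun ξ : ℝ => B / (1 + |ξ|) ^ 3) := by
    refine (hKi.const_mul B).congr (Filter.Eventually.of_forall fun x => ?_)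
    simp only
    rw [mul_one_div]
  have hki : Integrable (fun ξ => ‖kh ξ‖) := by
    refine hkbi.mono' hkc.norm.aestronglyMeasurable (Filter.Eventually.of_forall fun x => ?_)
    rw [norm_norm]
    exact hkb x
  set I : ℝ := ∫ v in (-R)..R, ‖D v‖ with hI
  have hI0 : 0 ≤ I := by
    rw [hI]
    exact intervalIntegral.integral_nonneg (by linarith) (fun _ _ => norm_nonneg _)
  -- the function of two variables
  set F : ℝ → ℝ → ℝ := fun t ξ => ‖kh ξ‖ * ‖D (t - ξ)‖ with hF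
  have hFc : Continuous (Function.uncurry F) := by
    have : Function.uncurry F = fun p : ℝ × ℝ => ‖kh p.2‖ * ‖D (p.1 - p.2)‖ := by
      funext p
      rfl
    rw [this]
    fun_prop
  have hFi : Integrable (Function.uncurry F)
      ((volume.restrict (Set.Ioc (-S) S)).prod volume) := by
    have h1 : Integrable (fun p : ℝ × ℝ => (fun _ : ℝ => M) p.1 * (fun ξ => ‖kh ξ‖) p.2)
        ((volume.restrict (Set.Ioc (-S) S)).prod volume) :=
      Integrable.mul_prod (f := fun _ : ℝ => M) (g := fun ξ => ‖kh ξ‖) (integrable_const M) hki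
    refine h1.mono' hFc.aestronglyMeasurable (Filter.Eventually.of_forall fun p => ?_)
    have hp : Function.uncurry F p = ‖kh p.2‖ * ‖D (p.1 - p.2)‖ := rfl
    rw [hp, norm_mul, norm_norm, norm_norm, mul_comm]
    exact mul_le_mul_of_nonneg_right (hDb _) (norm_nonneg _)
  -- step 1
  have step1 : ∫ t in (-S)..S, ‖∫ ξ : ℝ, kh ξ * D (t - ξ)‖ ≤
      ∫ t in Set.Ioc (-S) S, ∫ ξ : ℝ, F t ξ := by
    rw [intervalIntegral.integral_of_le (by linarith)]
    refine integral_mono_of_nonneg (Filter.Eventually.of_forall fun t => norm_nonneg _) ?_ ?_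
    · exact hFi.integral_prod_left
    · refine Filter.Eventually.of_forall fun t => ?_
      refine (norm_integral_le_integral_norm _).trans (le_of_eq ?_)
      refine integral_congr_ae (Filter.Eventually.of_forall fun ξ => ?_)
      simp only [hF, norm_mul]
  have step2 : ∫ t in Set.Ioc (-S) S, ∫ ξ : ℝ, F t ξ =
      ∫ ξ : ℝ, ∫ t in Set.Ioc (-S) S, F t ξ := integral_integral_swap hFi
  have hm : MeasurableSet {ξ : ℝ | R - S < |ξ|} := measurableSet_lt measurable_const (by fun_prop)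
  have inner : ∀ ξ : ℝ, ∫ t in Set.Ioc (-S) S, F t ξ ≤
      I * (B / (1 + |ξ|) ^ 3) + 2 * S * M * B * ({ξ : ℝ | R - S < |ξ|}).indicator (fun y : ℝ => 1 / (1 + |y|) ^ 3) ξ := by
    intro ξ
    have e1 : ∫ t in Set.Ioc (-S) S, F t ξ = ‖kh ξ‖ * ∫ t in (-S)..S, ‖D (t - ξ)‖ := by
      rw [intervalIntegral.integral_of_le (by linarith)]
      simp only [hF]
      rw [integral_const_mul]
    rw [e1]
    have hJ0 : 0 ≤ ∫ t in (-S)..S, ‖D (t - ξ)‖ :=
      intervalIntegral.integral_nonneg (by linarith) (fun _ _ => norm_nonneg _)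
    have hkξ := hkb ξ
    have hk0 : 0 ≤ B / (1 + |ξ|) ^ 3 := by positivity
    by_cases hξ : R - S < |ξ|
    · rw [Set.indicator_of_mem (by exact hξ)]
      have hJ : ∫ t in (-S)..S, ‖D (t - ξ)‖ ≤ 2 * S * M := by
        have h1 : ∫ t in (-S)..S, ‖D (t - ξ)‖ ≤ ∫ t in (-S)..S, M := by
          refine intervalIntegral.integral_mono_on (by linarith) ?_ ?_ (fun t _ => hDb _)
          · exact Continuous.intervalIntegrable (by fun_prop) _ _
          · exact intervalIntegrable_const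
        refine h1.trans (le_of_eq ?_)
        rw [intervalIntegral.integral_const, smul_eq_mul]
        ring
      have h2 : ‖kh ξ‖ * ∫ t in (-S)..S, ‖D (t - ξ)‖ ≤ B / (1 + |ξ|) ^ 3 * (2 * S * M) := by
        refine mul_le_mul hkξ hJ hJ0 hk0
      have h3 : 0 ≤ I * (B / (1 + |ξ|) ^ 3) := mul_nonneg hI0 hk0
      have h4 : B / (1 + |ξ|) ^ 3 * (2 * S * M) = 2 * S * M * B * (1 / (1 + |ξ|) ^ 3) := by ring
      linarith
    · rw [Set.indicator_of_notMem (by exact hξ)]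
      have hJ : ∫ t in (-S)..S, ‖D (t - ξ)‖ ≤ I := by
        rw [intervalIntegral.integral_comp_sub_right (fun t => ‖D t‖) ξ, hI]
        have hb := abs_le.mp (not_lt.mp hξ)
        refine intervalIntegral.integral_mono_interval (by linarith [hb.1, hb.2]) (by linarith)
          (by linarith [hb.1, hb.2]) (Filter.Eventually.of_forall fun _ => norm_nonneg _) ?_
        exact Continuous.intervalIntegrable (by fun_prop) _ _
      have h2 : ‖kh ξ‖ * ∫ t in (-S)..S, ‖D (t - ξ)‖ ≤ B / (1 + |ξ|) ^ 3 * I :=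
        mul_le_mul hkξ hJ hJ0 hk0
      have h3 : B / (1 + |ξ|) ^ 3 * I = I * (B / (1 + |ξ|) ^ 3) := by ring
      linarith
  have hind : Integrable (({ξ : ℝ | R - S < |ξ|}).indicator (fun y : ℝ => 1 / (1 + |y|) ^ 3)) :=
    hKi.indicator hm
  have step3 : ∫ ξ : ℝ, ∫ t in Set.Ioc (-S) S, F t ξ ≤
      ∫ ξ : ℝ, (I * (B / (1 + |ξ|) ^ 3) + 2 * S * M * B * ({ξ : ℝ | R - S < |ξ|}).indicator (fun y : ℝ => 1 / (1 + |y|) ^ 3) ξ) := by
    refine integral_mono_of_nonneg (Filter.Eventually.of_forall fun ξ => ?_) ?_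
      (Filter.Eventually.of_forall inner)
    · refine integral_nonneg fun t => ?_
      exact mul_nonneg (norm_nonneg _) (norm_nonneg _)
    · exact (hkbi.const_mul I).add (hind.const_mul _)
  have step4 : ∫ ξ : ℝ, (I * (B / (1 + |ξ|) ^ 3) + 2 * S * M * B * ({ξ : ℝ | R - S < |ξ|}).indicator (fun y : ℝ => 1 / (1 + |y|) ^ 3) ξ)
      ≤ B * I + 2 * S * B * M / (R - S) ^ 2 := by
    rw [integral_add (hkbi.const_mul I) (hind.const_mul _), integral_const_mul, integral_const_mul,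
      integral_indicator hm]
    have e1 : ∫ ξ : ℝ, B / (1 + |ξ|) ^ 3 = B := by
      have : (fun ξ : ℝ => B / (1 + |ξ|) ^ 3) = fun ξ => B * (1 / (1 + |ξ|) ^ 3) := by
        funext ξ
        rw [mul_one_div]
      rw [this, integral_const_mul, hK1, mul_one]
    rw [e1]
    have h2 := hKt (R - S) (by linarith)
    have h3 : 0 ≤ 2 * S * M * B := by positivity
    have h4 := mul_le_mul_of_nonneg_left h2 h3
    have h5 : 2 * S * M * B * (1 / (R - S) ^ 2) = 2 * S * B * M / (R - S) ^ 2 := by ring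
    linarith [h4, h5, mul_comm I B]
  calc _ ≤ _ := step1
    _ = _ := step2
    _ ≤ _ := step3
    _ ≤ _ := step4

end Pool.Agent.Lib.H18Q
end

-- from Lib.H44W.W0
section
/-!
H44W: near-diagonal pieces, part D1 + D2 (MP_443e5f, candidate T). Definitions.

TF n F W f g is the bilinear form sum over x, y in [1,n] of f x * g y * F (x+y) * W (x-y).
pd q I1 I2 is the near-diagonal piece: m is sent to the number of (a,b) in I1 x I2 with q*a*b = m.
WL l w: w is locally linear on the windows of length l of a partition of the integers.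
-/
namespace Pool.Agent.H44W
open Finset

/-- e(x) = exp(2 pi i x). -/
noncomputable def ee (x : ℝ) : ℂ := Complex.exp (2 * Real.pi * x * Complex.I)

/-- The bilinear form. -/
noncomputable def TF (n : ℕ) (F W f g : ℤ → ℂ) : ℂ :=
  ∑ x ∈ Icc (1:ℤ) n, ∑ y ∈ Icc (1:ℤ) n, f x * g y * F (x + y) * W (x - y)

/-- The near-diagonal piece. -/
noncomputable def pd (q : ℕ) (I1 I2 : Finset ℤ) (m : ℤ) : ℂ :=
  (((I1 ×ˢ I2).filter (fun p => (q:ℤ) * p.1 * p.2 = m)).card : ℂ)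

/-- Window-linear functions: windows of length l, one linear phase on each window. -/
def WL (l : ℕ) (w : ℤ → ℂ) : Prop :=
  ∃ (r : ℤ) (ep : ℤ → ℂ) (th : ℤ → ℝ), (∀ k, ‖ep k‖ ≤ 1) ∧
    ∀ y, w y = ep ((y - r) / l) * ee (th ((y - r) / l) * y)

/-- Truncation to [1,n]. -/
noncomputable def cut (n : ℕ) (f : ℤ → ℂ) (x : ℤ) : ℂ := if x ∈ Icc (1:ℤ) n then f x else 0

/-- Correlation of Th with its translate by t. -/
noncomputable def Cor (S : Finset (ℤ × ℤ)) (V : Finset ℤ) (Th : ℤ × ℤ → ℤ → ℂ) (t : ℤ × ℤ) : ℂ :=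
  ∑ p ∈ S, ∑ v ∈ V, Th (p + t) v * (starRingEnd ℂ) (Th p v)

/-- Largest Fourier coefficient (frequencies k/l) of G on the window [z, z+l). -/
noncomputable def amp (l : ℕ) (G : ℤ → ℂ) (z : ℤ) : ℝ :=
  ⨆ k : Fin l, ‖∑ w ∈ range l, G (z + w) * ee ((k:ℝ) * w / l)‖

/-- C_G(D, D'), the fourfold correlation. -/
noncomputable def CG (n : ℕ) (G : ℤ → ℂ) (D E : ℤ) : ℂ :=
  ∑ y ∈ Icc (1:ℤ) n, G y * (starRingEnd ℂ) (G (y + D)) * (starRingEnd ℂ) (G (y + E)) * G (y + D + E)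

/-- The shift D of the first van der Corput step. -/
def sD (q : ℕ) (s t : ℤ) (p : ℤ × ℤ) : ℤ := (q:ℤ) * (p.1 * t + p.2 * s + 2 * s * t)

/-- The shift D' of the second van der Corput step. -/
def sE (q : ℕ) (s t h : ℤ) (p : ℤ × ℤ) : ℤ := (q:ℤ) * (h * (s * p.2 - t * p.1) - h ^ 2 * s * t)

/-- The function of the first step (v = x - y; the parity condition makes x, y integers). -/
noncomputable def Th1 (n q : ℕ) (S : Finset (ℤ × ℤ)) (f g : ℤ → ℂ) (p : ℤ × ℤ) (v : ℤ) : ℂ :=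
  if p ∈ S ∧ Even ((q:ℤ) * p.1 * p.2 + v) then
    cut n f (((q:ℤ) * p.1 * p.2 + v) / 2) * cut n g (((q:ℤ) * p.1 * p.2 - v) / 2) else 0

/-- The weight of the second step. -/
noncomputable def w2 (n q : ℕ) (s t : ℤ) (f : ℤ → ℂ) (p : ℤ × ℤ) (x : ℤ) : ℂ :=
  cut n f (x + sD q s t p) * (starRingEnd ℂ) (cut n f x)

/-- The function of the second step. -/
noncomputable def Th2 (n q : ℕ) (S : Finset (ℤ × ℤ)) (s t : ℤ) (g : ℤ → ℂ) (p : ℤ × ℤ) (x : ℤ) : ℂ :=
  if p ∈ S then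
    cut n g ((q:ℤ) * p.1 * p.2 - x + sD q s t p) *
      (starRingEnd ℂ) (cut n g ((q:ℤ) * p.1 * p.2 - x)) else 0

/-- A box. -/
noncomputable def bx (a1 b1 a2 b2 : ℤ) : Finset (ℤ × ℤ) := Ico a1 b1 ×ˢ Ico a2 b2

end Pool.Agent.H44W
end

-- from Lib.H44W.E1
section
/-!
CHUNK E1 (S). Rules for ee.
Proof: all by unfolding ee, Complex.exp_add, Complex.norm_exp (real part of 2 pi x I is 0), Complex.exp_int_mul_two_pi_mul_I,
Complex.exp_conj. ee_orth: if l does not divide m the sum is geometric with ratio ee(m/l), which is not 1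
(Complex.exp_eq_one_iff) and ratio^l = ee(m) = 1 (geom_sum / mul_neg_geom_sum); if l divides m every term is 1.
-/
namespace Pool.Agent.H44W
open Finset

theorem norm_ee (x : ℝ) : ‖ee x‖ = 1 := by
  have h : (2 * Real.pi * x * Complex.I : ℂ) = ((2 * Real.pi * x : ℝ) : ℂ) * Complex.I := by
    push_cast; ring
  rw [ee, h, Complex.norm_exp_ofReal_mul_I]

theorem ee_add (x y : ℝ) : ee (x + y) = ee x * ee y := by
  rw [ee, ee, ee, ← Complex.exp_add]
  congr 1
  push_cast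
  ring

theorem ee_neg (x : ℝ) : ee (-x) = (starRingEnd ℂ) (ee x) := by
  rw [ee, ee, ← Complex.exp_conj]
  congr 1
  simp only [map_mul, Complex.conj_ofReal, Complex.conj_I, map_ofNat]
  push_cast
  ring

theorem ee_zero : ee 0 = 1 := by
  simp [ee]

theorem ee_int (m : ℤ) : ee m = 1 := by
  rw [ee, Complex.exp_eq_one_iff]
  exact ⟨m, by push_cast; ring⟩

theorem ee_half (m : ℤ) : ee ((m:ℝ) / 2) = if Even m then 1 else -1 := by
  by_cases h : Even m
  · rw [if_pos h]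
    obtain ⟨k, rfl⟩ := h
    have : (((k + k : ℤ):ℝ) / 2) = ((k:ℤ):ℝ) := by push_cast; ring
    rw [this, ee_int]
  · rw [if_neg h]
    obtain ⟨k, rfl⟩ := Int.not_even_iff_odd.1 h
    have : (((2 * k + 1 : ℤ):ℝ) / 2) = ((k:ℤ):ℝ) + 1 / 2 := by push_cast; ring
    rw [this, ee_add, ee_int, one_mul, ee]
    have h2 : (2 * Real.pi * ((1 / 2 : ℝ) : ℂ) * Complex.I : ℂ) = Real.pi * Complex.I := by
      push_cast; ring
    rw [h2, Complex.exp_pi_mul_I]

theorem ee_orth (l : ℕ) (hl : 0 < l) (m : ℤ) :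
    ∑ k ∈ range l, ee ((k:ℝ) * m / l) = if (l:ℤ) ∣ m then (l:ℂ) else 0 := by
  have hl' : (l:ℝ) ≠ 0 := by positivity
  have hpow : ∀ k : ℕ, ee ((k:ℝ) * m / l) = (ee ((m:ℝ) / l)) ^ k := by
    intro k
    induction k with
    | zero => simp [ee_zero]
    | succ k ih =>
      have : (((k + 1 : ℕ):ℝ) * m / l) = (k:ℝ) * m / l + (m:ℝ) / l := by push_cast; ring
      rw [this, ee_add, ih, pow_succ]
  rw [Finset.sum_congr rfl fun k _ => hpow k]
  by_cases h : (l:ℤ) ∣ m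
  · rw [if_pos h]
    obtain ⟨t, rfl⟩ := h
    have h1 : (((l:ℤ) * t : ℤ):ℝ) / l = ((t:ℤ):ℝ) := by push_cast; field_simp
    rw [h1, ee_int]
    simp
  · rw [if_neg h]
    have hne : ee ((m:ℝ) / l) ≠ 1 := by
      intro h1
      apply h
      rw [ee, Complex.exp_eq_one_iff] at h1
      obtain ⟨t, ht⟩ := h1
      refine ⟨t, ?_⟩
      have hpi : (2 * Real.pi * Complex.I : ℂ) ≠ 0 := Complex.two_pi_I_ne_zero
      have h2 : (((m:ℝ) / l : ℝ) : ℂ) = (t : ℂ) := by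
        have h3 : (2 * Real.pi * Complex.I : ℂ) * (((m:ℝ) / l : ℝ) : ℂ) = (2 * Real.pi * Complex.I) * t := by
          rw [mul_comm _ (t:ℂ), ← ht]; ring
        exact mul_left_cancel₀ hpi h3
      have h4 : ((m:ℝ) / l) = (t:ℝ) := by exact_mod_cast h2
      rw [div_eq_iff hl'] at h4
      have h5 : (m:ℝ) = ((l * t : ℤ):ℝ) := by rw [h4]; push_cast; ring
      exact_mod_cast h5
    have hp : (ee ((m:ℝ) / l)) ^ l = 1 := by
      rw [← hpow l]
      have : ((l:ℝ) * m / l) = ((m:ℤ):ℝ) := by field_simp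
      rw [this, ee_int]
    have := mul_neg_geom_sum (ee ((m:ℝ) / l)) l
    rw [hp, sub_self] at this
    rcases mul_eq_zero.1 this with h1 | h1
    · exact absurd (sub_eq_zero.1 h1).symm hne
    · exact h1

end Pool.Agent.H44W
end

-- from Lib.H44W.E2
section
/-!
CHUNK E2 (S/M). Discrete Parseval for a sparse progression and Fourier inversion on a window.
(a) parseval_prog: expand the square: the sum over k of |sum_j A j * ee(k P j / l)|^2 is the sum over j, j' of A j * conj (A j')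
times sum_k ee(k P (j - j') / l) = l if l divides P (j - j'), else 0 (ee_orth). Since |P (j-j')| < l and P is not 0, only j = j'
contributes: the total is l * sum |A j|^2 <= l * N. (use Complex.mul_conj / Complex.normSq_eq_norm_sq, finite sums commute.)
(b) inversion: G (z+w) = (1/l) sum_k (sum_w' G (z+w') ee(k w'/l)) * ee(-(k w/l)) for w < l: exchange the sums, ee_orth with
m = w' - w, and |w' - w| < l, so only w' = w contributes.
-/
namespace Pool.Agent.H44W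
open Finset

theorem parseval_prog (l N : ℕ) (hl : 0 < l) (P : ℤ) (hP : P ≠ 0) (hPl : (N:ℤ) * |P| ≤ l)
    (A : ℕ → ℂ) (hA : ∀ j, ‖A j‖ ≤ 1) :
    ∑ k ∈ range l, ‖∑ j ∈ range N, A j * ee (-((k:ℝ) * (P * j) / l))‖ ^ 2 ≤ (l:ℝ) * N := by
  have key : ∀ j j' : ℕ, ∑ k ∈ range l, ee (-((k:ℝ) * (P * j) / l)) * (starRingEnd ℂ) (ee (-((k:ℝ) * (P * j') / l))) =
      if (l:ℤ) ∣ P * ((j':ℤ) - j) then (l:ℂ) else 0 := by
    intro j j'
    rw [← ee_orth l hl]
    refine sum_congr rfl fun k _ => ?_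
    rw [← ee_neg, ← ee_add]
    congr 1
    push_cast
    ring
  have hdiag : ∀ j ∈ range N, ∀ j' ∈ range N, (l:ℤ) ∣ P * ((j':ℤ) - j) → j' = j := by
    intro j hj j' hj' hd
    rw [mem_range] at hj hj'
    by_contra hne
    have h1 : P * ((j':ℤ) - j) ≠ 0 := by
      refine mul_ne_zero hP ?_
      intro h0
      exact hne (by omega)
    have h2 := Int.le_of_dvd (abs_pos.2 h1) ((dvd_abs _ _).2 hd)
    rw [abs_mul] at h2
    have h3 : |((j':ℤ) - j)| < N := by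
      rw [abs_lt]
      constructor <;> omega
    have h4 : 0 < |P| := abs_pos.2 hP
    nlinarith
  have h0 : ((∑ k ∈ range l, ‖∑ j ∈ range N, A j * ee (-((k:ℝ) * (P * j) / l))‖ ^ 2 : ℝ) : ℂ) =
      ((∑ j ∈ range N, (l:ℝ) * ‖A j‖ ^ 2 : ℝ) : ℂ) := by
    push_cast
    have h1 : ∀ k ∈ range l, ((‖∑ j ∈ range N, A j * ee (-((k:ℝ) * (P * j) / l))‖ : ℂ)) ^ 2 =
        ∑ j ∈ range N, ∑ j' ∈ range N, A j * (starRingEnd ℂ) (A j') *
          (ee (-((k:ℝ) * (P * j) / l)) * (starRingEnd ℂ) (ee (-((k:ℝ) * (P * j') / l)))) := by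
      intro k _
      rw [← Complex.mul_conj', map_sum, sum_mul_sum]
      refine sum_congr rfl fun j _ => sum_congr rfl fun j' _ => ?_
      rw [map_mul]
      ring
    rw [sum_congr rfl h1, sum_comm]
    refine sum_congr rfl fun j hj => ?_
    rw [sum_comm]
    have h2 : ∀ j' ∈ range N, ∑ k ∈ range l, A j * (starRingEnd ℂ) (A j') *
          (ee (-((k:ℝ) * (P * j) / l)) * (starRingEnd ℂ) (ee (-((k:ℝ) * (P * j') / l)))) =
        if j' = j then (l:ℂ) * (‖A j‖ : ℂ) ^ 2 else 0 := by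
      intro j' hj'
      rw [← mul_sum, key j j']
      by_cases h3 : j' = j
      · subst h3
        rw [if_pos rfl, sub_self, mul_zero, if_pos (dvd_zero _), Complex.mul_conj']
        ring
      · rw [if_neg h3, if_neg (fun hd => h3 (hdiag j hj j' hj' hd)), mul_zero]
    rw [sum_congr rfl h2, sum_ite_eq' (range N) j, if_pos hj]
  have h1 : ∑ k ∈ range l, ‖∑ j ∈ range N, A j * ee (-((k:ℝ) * (P * j) / l))‖ ^ 2 = ∑ j ∈ range N, (l:ℝ) * ‖A j‖ ^ 2 := by
    exact_mod_cast h0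
  rw [h1]
  have h2 : ∀ j ∈ range N, (l:ℝ) * ‖A j‖ ^ 2 ≤ (l:ℝ) := by
    intro j _
    have h3 : ‖A j‖ ^ 2 ≤ 1 := pow_le_one₀ (norm_nonneg _) (hA j)
    have h4 : (0:ℝ) ≤ l := Nat.cast_nonneg l
    nlinarith
  refine (sum_le_sum h2).trans ?_
  rw [sum_const, card_range, nsmul_eq_mul, mul_comm]

theorem inversion (l : ℕ) (hl : 0 < l) (G : ℤ → ℂ) (z : ℤ) (w : ℤ) (h0 : 0 ≤ w) (hw : w < l) :
    G (z + w) = (1 / (l:ℂ)) * ∑ k ∈ range l,
      (∑ w' ∈ range l, G (z + w') * ee ((k:ℝ) * w' / l)) * ee (-((k:ℝ) * w / l)) := by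
  have hl0 : (l:ℂ) ≠ 0 := Nat.cast_ne_zero.2 hl.ne'
  obtain ⟨w₀, rfl⟩ := Int.eq_ofNat_of_zero_le h0
  have hw₀ : w₀ < l := by exact_mod_cast hw
  have h1 : ∑ k ∈ range l, (∑ w' ∈ range l, G (z + w') * ee ((k:ℝ) * w' / l)) * ee (-((k:ℝ) * ((w₀:ℤ):ℝ) / l)) =
      ∑ w' ∈ range l, G (z + w') * ∑ k ∈ range l, ee ((k:ℝ) * (((w':ℤ) - (w₀:ℤ) : ℤ) : ℝ) / l) := by
    have h2 : ∀ k ∈ range l, (∑ w' ∈ range l, G (z + w') * ee ((k:ℝ) * w' / l)) * ee (-((k:ℝ) * ((w₀:ℤ):ℝ) / l)) =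
        ∑ w' ∈ range l, G (z + w') * ee ((k:ℝ) * (((w':ℤ) - (w₀:ℤ) : ℤ) : ℝ) / l) := by
      intro k _
      rw [sum_mul]
      refine sum_congr rfl fun w' _ => ?_
      rw [mul_assoc, ← ee_add]
      congr 2
      push_cast
      ring
    rw [sum_congr rfl h2, sum_comm]
    exact sum_congr rfl fun w' _ => by rw [mul_sum]
  rw [h1]
  have h3 : ∀ w' ∈ range l, G (z + w') * ∑ k ∈ range l, ee ((k:ℝ) * (((w':ℤ) - (w₀:ℤ) : ℤ) : ℝ) / l) =
      if w' = w₀ then (l:ℂ) * G (z + w₀) else 0 := by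
    intro w' hw'
    rw [mem_range] at hw'
    rw [ee_orth l hl]
    by_cases h4 : w' = w₀
    · subst h4
      rw [if_pos rfl, sub_self, if_pos (dvd_zero _), mul_comm]
    · rw [if_neg h4, if_neg, mul_zero]
      intro hd
      have h5 : (w':ℤ) - w₀ ≠ 0 := by
        intro h6
        exact h4 (by omega)
      have h6 := Int.le_of_dvd (abs_pos.2 h5) ((dvd_abs _ _).2 hd)
      have h7 : |((w':ℤ) - w₀)| < l := by
        rw [abs_lt]
        constructor <;> omega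
      omega
  rw [sum_congr rfl h3, sum_ite_eq' (range l) w₀, if_pos (mem_range.2 hw₀)]
  field_simp

end Pool.Agent.H44W
end

-- from Lib.H81A.Defs
section

/-!
# H81A (MP_443e5f, candidate T, module A): Heath-Brown's identity in seminorm form. Definitions

`N` is a natural number, `p` a seminorm on the functions `ℕ → ℝ` which only sees the values at `1, …, N`. If `p` is small (`≤ X`) on all pieces of the three kinds

* `H2`: Dirichlet convolutions of two bounded coefficient sequences in dyadic intervals, one of them in the range `[N ^ c, N ^ (1 / 2 - η)]`,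
* `H1`: (bounded coefficients up to `N ^ (2 c)`) times (indicator of an interval),
* `H3`: (bounded coefficients up to `N ^ (2 c)`) times two indicators of intervals in `[N ^ (1 / 2 - 2 η), N ^ (1 / 2 + 2 η)]`,

then `p Λ ≤ N ^ ε X` (file `Final.lean`). See `PROOF.md`.
-/

namespace Pool.Agent.Lib.H81A

open Finset ArithmeticFunction

/-- The arithmetic function with the values `f n`, `n ≥ 1`. -/
noncomputable def af (f : ℕ → ℝ) : ArithmeticFunction ℝ := ⟨fun n => if n = 0 then 0 else f n, by simp⟩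

theorem af_apply (f : ℕ → ℝ) {n : ℕ} (hn : n ≠ 0) : af f n = f n := by
  show (if n = 0 then 0 else f n) = f n
  rw [if_neg hn]

/-- The truncated Möbius function. -/
noncomputable def muV (z : ℕ) : ArithmeticFunction ℝ := af (fun a => if a ≤ z then (moebius a : ℝ) else 0)

/-- The constant function `1`. -/
noncomputable def one1 : ArithmeticFunction ℝ := af (fun _ => 1)

/-- The logarithm. -/
noncomputable def logf : ArithmeticFunction ℝ := af (fun n => Real.log n)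

/-- The restriction to the dyadic interval `[2 ^ k, 2 ^ (k + 1))`. -/
noncomputable def dy (k : ℕ) (f : ArithmeticFunction ℝ) : ArithmeticFunction ℝ := af (fun n => if 2 ^ k ≤ n ∧ n < 2 ^ (k + 1) then f n else 0)

theorem dy_apply (k : ℕ) (f : ArithmeticFunction ℝ) (n : ℕ) : dy k f n = if 2 ^ k ≤ n ∧ n < 2 ^ (k + 1) then f n else 0 := by
  rcases eq_or_ne n 0 with rfl | hn
  · rw [ArithmeticFunction.map_zero, ArithmeticFunction.map_zero, ite_self]
  · exact af_apply _ hn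

/-- The seminorm sees only the values at `1, …, N`. -/
def Loc (N : ℕ) (p : Seminorm ℝ (ℕ → ℝ)) : Prop := ∀ P : ℕ → ℝ, (∀ m, 1 ≤ m → m ≤ N → P m = 0) → p P = 0

/-- The bound for the pieces with two variables and bounded coefficients (`Type II`). -/
def H2 (c η : ℝ) (N : ℕ) (p : Seminorm ℝ (ℕ → ℝ)) (X : ℝ) : Prop :=
  ∀ K M : ℝ, (N : ℝ) ^ c ≤ K → K ≤ (N : ℝ) ^ (1 / 2 - η) → 1 ≤ M → ∀ α β : ℕ → ℝ, (∀ a, |α a| ≤ 1) → (∀ b, |β b| ≤ 1) →
    (∀ a : ℕ, α a ≠ 0 → K ≤ a ∧ (a : ℝ) ≤ 2 * K) → (∀ b : ℕ, β b ≠ 0 → M ≤ b ∧ (b : ℝ) ≤ 2 * M) →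
      p (fun m => ∑ x ∈ m.divisorsAntidiagonal, α x.1 * β x.2) ≤ X

/-- The bound for the pieces with one smooth variable (`Type I`). -/
def H1 (c : ℝ) (N : ℕ) (p : Seminorm ℝ (ℕ → ℝ)) (X : ℝ) : Prop :=
  ∀ B₁ B₂ : ℕ, 1 ≤ B₁ → B₂ ≤ 2 * B₁ → ∀ γ : ℕ → ℝ, (∀ q, |γ q| ≤ 1) → (∀ q : ℕ, γ q ≠ 0 → 1 ≤ q ∧ (q : ℝ) ≤ (N : ℝ) ^ (2 * c)) →
    p (fun m => ∑ x ∈ m.divisorsAntidiagonal, γ x.1 * (if B₁ ≤ x.2 ∧ x.2 < B₂ then 1 else 0)) ≤ X

/-- The bound for the pieces with two smooth variables near `N ^ (1 / 2)` (near-diagonal pieces). -/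
def H3 (c η : ℝ) (N : ℕ) (p : Seminorm ℝ (ℕ → ℝ)) (X : ℝ) : Prop :=
  ∀ A₁ A₂ B₁ B₂ : ℕ, (N : ℝ) ^ (1 / 2 - 2 * η) ≤ A₁ → (A₂ : ℝ) ≤ (N : ℝ) ^ (1 / 2 + 2 * η) → (N : ℝ) ^ (1 / 2 - 2 * η) ≤ B₁ →
    (B₂ : ℝ) ≤ (N : ℝ) ^ (1 / 2 + 2 * η) → A₂ ≤ 2 * A₁ → B₂ ≤ 2 * B₁ → ∀ γ : ℕ → ℝ, (∀ q, |γ q| ≤ 1) → (∀ q : ℕ, γ q ≠ 0 → 1 ≤ q ∧ (q : ℝ) ≤ (N : ℝ) ^ (2 * c)) →
      p (fun m => ∑ x ∈ m.divisorsAntidiagonal, γ x.1 *
        ∑ y ∈ x.2.divisorsAntidiagonal, (if A₁ ≤ y.1 ∧ y.1 < A₂ then 1 else 0) * (if B₁ ≤ y.2 ∧ y.2 < B₂ then 1 else 0)) ≤ X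

theorem Loc.congr {N : ℕ} {p : Seminorm ℝ (ℕ → ℝ)} (h : Loc N p) {P Q : ℕ → ℝ} (hPQ : ∀ m, 1 ≤ m → m ≤ N → P m = Q m) : p P = p Q := by
  have key : ∀ P Q : ℕ → ℝ, (∀ m, 1 ≤ m → m ≤ N → P m = Q m) → p P ≤ p Q := by
    intro P Q hPQ
    have h1 : p (P - Q) = 0 := h _ fun m h1 h2 => by rw [Pi.sub_apply, hPQ m h1 h2, sub_self]
    have h2 := map_add_le_add p (P - Q) Q
    rw [sub_add_cancel, h1, zero_add] at h2
    exact h2
  exact le_antisymm (key P Q hPQ) (key Q P fun m h1 h2 => (hPQ m h1 h2).symm)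

/-- The conditions on the parameters: `2 ^ L > N`, `2 ^ u` is about `N ^ c`, `2 ^ v` about `N ^ (1 / 2 - η)`, at most `r` factors, `V = N ^ (small)`. -/
structure Par (c η : ℝ) (N L u v r : ℕ) (V : ℝ) : Prop where
  hN : 1 ≤ N
  hL : N < 2 ^ L
  hu : 0 < u
  hc : (N : ℝ) ^ c ≤ 2 ^ u
  hv : (2 : ℝ) ^ (v + r) ≤ (N : ℝ) ^ (1 / 2 - η)
  hq : (2 : ℝ) ^ (u + r) ≤ (N : ℝ) ^ (2 * c)
  hqN : (N : ℝ) ^ (2 * c) ≤ N
  hA : (N : ℝ) ^ (1 / 2 - 2 * η) ≤ 2 ^ (v + 1)
  hB : (2 : ℝ) ^ (L - v) ≤ (N : ℝ) ^ (1 / 2 + 2 * η)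
  huv : 2 * u ≤ v + 1
  h3v : L ≤ 3 * (v + 1)
  hV : 1 ≤ V
  hVL : (L : ℝ) + 1 ≤ V
  hVr : (r : ℝ) + 1 ≤ V
  hVd : ∀ n : ℕ, 1 ≤ n → n ≤ N → (n.divisors.card : ℝ) ≤ V
  hVlog : Real.log N ≤ V

end Pool.Agent.Lib.H81A
end

-- from Lib.H81A.BD
section

/-!
# H81A, chunk BD (S/M): bounds for products
-/

namespace Pool.Agent.Lib.H81A

open Finset ArithmeticFunction

/-- PROOF. Induction over `S`: `|(f * g) n| ≤ ∑ |f a| |g b| ≤ (card of divisors of n) sup |f| sup |g|` (`mul_apply`, `Nat.card_divisorsAntidiagonal` or `Nat.divisorsAntidiagonal` as image of the divisors), the divisors of `n` are in `[1, N]`. -/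
theorem bound {ι : Type} (S : Finset ι) (G : ι → ArithmeticFunction ℝ) {B D : ℝ} {N : ℕ} (hB : 1 ≤ B) (hD : 1 ≤ D)
    (hG : ∀ i ∈ S, ∀ n, 1 ≤ n → n ≤ N → |G i n| ≤ B) (hd : ∀ n : ℕ, 1 ≤ n → n ≤ N → (n.divisors.card : ℝ) ≤ D) {n : ℕ} (hn : 1 ≤ n) (hnN : n ≤ N) :
    |(∏ i ∈ S, G i) n| ≤ (B * D) ^ S.card := by
  classical
  have hBD : 1 ≤ B * D := one_le_mul_of_one_le_of_one_le hB hD
  induction S using Finset.induction_on generalizing n with
  | empty =>
    rw [Finset.prod_empty, Finset.card_empty, pow_zero, ArithmeticFunction.one_apply]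
    split_ifs
    · rw [abs_one]
    · rw [abs_zero]
      exact zero_le_one
  | insert a S ha ih =>
    rw [Finset.prod_insert ha, Finset.card_insert_of_notMem ha, ArithmeticFunction.mul_apply]
    refine (Finset.abs_sum_le_sum_abs _ _).trans ?_
    have h1 : ∀ x ∈ n.divisorsAntidiagonal, |G a x.1 * (∏ i ∈ S, G i) x.2| ≤ B * (B * D) ^ S.card := by
      intro x hx
      obtain ⟨h2, h3⟩ := Nat.mem_divisorsAntidiagonal.1 hx
      have hx1 : x.1 ≠ 0 := by
        intro h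
        rw [h, zero_mul] at h2
        exact h3 h2.symm
      have hx2 : x.2 ≠ 0 := by
        intro h
        rw [h, mul_zero] at h2
        exact h3 h2.symm
      have hl1 : x.1 ≤ n := Nat.le_of_dvd hn ⟨x.2, h2.symm⟩
      have hl2 : x.2 ≤ n := Nat.le_of_dvd hn ⟨x.1, by rw [mul_comm]; exact h2.symm⟩
      rw [abs_mul]
      exact mul_le_mul (hG a (Finset.mem_insert_self a S) x.1 (Nat.one_le_iff_ne_zero.2 hx1) (hl1.trans hnN))
        (ih (fun i hi => hG i (Finset.mem_insert_of_mem hi)) (Nat.one_le_iff_ne_zero.2 hx2) (hl2.trans hnN)) (abs_nonneg _)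
        (zero_le_one.trans hB)
    refine (Finset.sum_le_sum h1).trans ?_
    rw [Finset.sum_const, nsmul_eq_mul]
    have h4 : (n.divisorsAntidiagonal.card : ℝ) ≤ D := by
      have h5 : n.divisorsAntidiagonal.card = n.divisors.card := by
        rw [← Nat.map_div_right_divisors, Finset.card_map]
      rw [h5]
      exact hd n hn hnN
    have h6 : 0 ≤ B * (B * D) ^ S.card := mul_nonneg (zero_le_one.trans hB) (pow_nonneg (zero_le_one.trans hBD) _)
    calc (n.divisorsAntidiagonal.card : ℝ) * (B * (B * D) ^ S.card) ≤ D * (B * (B * D) ^ S.card) := mul_le_mul_of_nonneg_right h4 h6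
      _ = (B * D) ^ (S.card + 1) := by ring

theorem bd_dy (k : ℕ) (f : ArithmeticFunction ℝ) {B : ℝ} {n : ℕ} (h : |f n| ≤ B) : |dy k f n| ≤ B := by
  rw [dy_apply]
  split_ifs
  · exact h
  · rw [abs_zero]
    exact (abs_nonneg _).trans h

end Pool.Agent.Lib.H81A
end

-- from Lib.H81A.SU
section

/-!
# H81A, chunk SU (S/M): supports of products
-/

namespace Pool.Agent.Lib.H81A

open Finset ArithmeticFunction

theorem su_dy {k n : ℕ} {f : ArithmeticFunction ℝ} (h : dy k f n ≠ 0) : 2 ^ k ≤ n ∧ n < 2 ^ (k + 1) := by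
  rw [dy_apply] at h
  by_contra h1
  exact h (if_neg h1)

/-- PROOF. Induction over `S` (`Finset.induction_on`): a nonzero value of a product `f * g` at `n` gives `n = a b` with `f a ≠ 0`, `g b ≠ 0` (`mul_apply`, `Finset.exists_ne_zero_of_sum_ne_zero`); the empty product is `1`, nonzero only at `1`. -/
theorem supp {ι : Type} (S : Finset ι) (k : ι → ℕ) (F : ι → ArithmeticFunction ℝ) {n : ℕ} (h : (∏ i ∈ S, dy (k i) (F i)) n ≠ 0) :
    2 ^ (∑ i ∈ S, k i) ≤ n ∧ n ≤ 2 ^ (∑ i ∈ S, k i + S.card) := by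
  classical
  induction S using Finset.induction_on generalizing n with
  | empty =>
    rw [Finset.prod_empty] at h
    have h1 : n = 1 := by
      by_contra h2
      exact h (ArithmeticFunction.one_apply_ne h2)
    rw [h1, Finset.sum_empty, Finset.card_empty]
    exact ⟨le_refl _, le_refl _⟩
  | insert a S ha ih =>
    rw [Finset.prod_insert ha, ArithmeticFunction.mul_apply] at h
    obtain ⟨x, hx, hx'⟩ := Finset.exists_ne_zero_of_sum_ne_zero h
    obtain ⟨h1, h2⟩ := su_dy (left_ne_zero_of_mul hx')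
    obtain ⟨h3, h4⟩ := ih (right_ne_zero_of_mul hx')
    have h5 := (Nat.mem_divisorsAntidiagonal.1 hx).1
    rw [Finset.sum_insert ha, Finset.card_insert_of_notMem ha, ← h5]
    constructor
    · rw [pow_add]
      exact Nat.mul_le_mul h1 h3
    · have e : k a + ∑ i ∈ S, k i + (S.card + 1) = (k a + 1) + (∑ i ∈ S, k i + S.card) := by ring
      rw [e, pow_add]
      exact Nat.mul_le_mul h2.le h4

end Pool.Agent.Lib.H81A
end

-- from Lib.H81A.GR
section

/-!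
# H81A, chunk GR (S/M): greedy choice; Abel summation
-/

namespace Pool.Agent.Lib.H81A

open Finset ArithmeticFunction

/-- PROOF. Take `S ⊆ S₀` with `u ≤ ∑ S` of least cardinality (or induction over `S₀`); `S` is not empty; removing one element `i` gives a sum `< u`, and `k i < u`. -/
theorem greedy {ι : Type} [DecidableEq ι] (k : ι → ℕ) (u : ℕ) (hu : 0 < u) (S₀ : Finset ι) (h1 : ∀ i ∈ S₀, k i < u) (h2 : u ≤ ∑ i ∈ S₀, k i) :
    ∃ S ⊆ S₀, u ≤ ∑ i ∈ S, k i ∧ ∑ i ∈ S, k i < 2 * u := by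
  induction S₀ using Finset.induction_on with
  | empty =>
    rw [Finset.sum_empty] at h2
    omega
  | insert i s hi ih =>
    by_cases h : u ≤ ∑ j ∈ s, k j
    · obtain ⟨S, hS, h3⟩ := ih (fun j hj => h1 j (Finset.mem_insert_of_mem hj)) h
      exact ⟨S, hS.trans (Finset.subset_insert i s), h3⟩
    · refine ⟨insert i s, subset_rfl, h2, ?_⟩
      rw [Finset.sum_insert hi]
      have := h1 i (Finset.mem_insert_self i s)
      omega

/-- PROOF. `B₁ ≥ B₂`: the function is `0`; `X ≥ 0` since `X ≥ p ..` (`apply_nonneg`). `B₁ < B₂`: for all `b`, `(if B₁ ≤ b ∧ b < B₂ then w b else 0) = w B₁ (if B₁ ≤ b ∧ b < B₂ then 1 else 0) + ∑ t ∈ Ico (B₁ + 1) B₂, (w t - w (t - 1)) (if t ≤ b ∧ b < B₂ then 1 else 0)`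
(telescoping sum over `t ∈ Ioc B₁ b`); `Q` is linear, `p` subadditive and homogeneous, the coefficients are `≥ 0` with sum `w (B₂ - 1) ≤ V`. -/
theorem abel (p : Seminorm ℝ (ℕ → ℝ)) (Q : (ℕ → ℝ) →ₗ[ℝ] (ℕ → ℝ)) (X : ℝ) (B₁ B₂ : ℕ)
    (hX : ∀ B, B₁ ≤ B → p (Q (fun b => if B ≤ b ∧ b < B₂ then 1 else 0)) ≤ X) (w : ℕ → ℝ) (hw : Monotone w) (hw0 : 0 ≤ w 0) {V : ℝ} (hV0 : 0 ≤ V)
    (hV : ∀ b, b < B₂ → w b ≤ V) : p (Q (fun b => if B₁ ≤ b ∧ b < B₂ then w b else 0)) ≤ V * X := by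
  have hX0 : 0 ≤ X := (apply_nonneg p _).trans (hX B₁ le_rfl)
  have hw0' : ∀ b, 0 ≤ w b := fun b => hw0.trans (hw (Nat.zero_le b))
  rcases le_or_gt B₂ B₁ with hB | hB
  · have h0 : (fun b : ℕ => if B₁ ≤ b ∧ b < B₂ then w b else 0) = 0 := by
      funext b
      rw [if_neg (by omega)]
      rfl
    rw [h0, _root_.map_zero, _root_.map_zero]
    positivity
  · have key : (fun b : ℕ => if B₁ ≤ b ∧ b < B₂ then w b else 0) =
        w B₁ • (fun b : ℕ => if B₁ ≤ b ∧ b < B₂ then (1 : ℝ) else 0) +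
          ∑ t ∈ Finset.Ico (B₁ + 1) B₂, (w t - w (t - 1)) • (fun b : ℕ => if t ≤ b ∧ b < B₂ then (1 : ℝ) else 0) := by
      funext b
      simp only [Pi.add_apply, Pi.smul_apply, Finset.sum_apply, smul_eq_mul]
      by_cases hb : B₁ ≤ b ∧ b < B₂
      · rw [if_pos hb, if_pos hb, mul_one]
        have h1 : ∑ t ∈ Finset.Ico (B₁ + 1) B₂, (w t - w (t - 1)) * (if t ≤ b ∧ b < B₂ then (1 : ℝ) else 0) =
            ∑ t ∈ Finset.Ico (B₁ + 1) (b + 1), (w t - w (t - 1)) := by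
          rw [← Finset.sum_subset (s₁ := Finset.Ico (B₁ + 1) (b + 1)) (s₂ := Finset.Ico (B₁ + 1) B₂)]
          · refine Finset.sum_congr rfl fun t ht => ?_
            rw [Finset.mem_Ico] at ht
            rw [if_pos ⟨by omega, hb.2⟩, mul_one]
          · intro t ht
            rw [Finset.mem_Ico] at ht ⊢
            omega
          · intro t ht ht'
            rw [Finset.mem_Ico] at ht ht'
            rw [if_neg (by omega), mul_zero]
        rw [h1, Finset.sum_Ico_eq_sum_range]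
        have h2 : ∀ m, ∑ i ∈ Finset.range m, (w (B₁ + 1 + i) - w (B₁ + 1 + i - 1)) = w (B₁ + m) - w B₁ := by
          intro m
          induction m with
          | zero => simp
          | succ m ih =>
            rw [Finset.sum_range_succ, ih]
            have e1 : B₁ + 1 + m - 1 = B₁ + m := by omega
            have e2 : B₁ + 1 + m = B₁ + (m + 1) := by omega
            rw [e1, e2]
            ring
        rw [h2]
        have e3 : B₁ + (b + 1 - (B₁ + 1)) = b := by omega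
        rw [e3]
        ring
      · rw [if_neg hb, if_neg hb, mul_zero, zero_add]
        symm
        refine Finset.sum_eq_zero fun t ht => ?_
        rw [Finset.mem_Ico] at ht
        rw [if_neg (by omega), mul_zero]
    rw [key, map_add, map_smul, map_sum]
    refine (map_add_le_add p _ _).trans ?_
    have h1 : p (w B₁ • Q (fun b : ℕ => if B₁ ≤ b ∧ b < B₂ then (1 : ℝ) else 0)) ≤ w B₁ * X := by
      rw [map_smul_eq_mul, Real.norm_of_nonneg (hw0' _)]
      exact mul_le_mul_of_nonneg_left (hX B₁ le_rfl) (hw0' _)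
    have h2 : p (∑ t ∈ Finset.Ico (B₁ + 1) B₂, Q ((w t - w (t - 1)) • (fun b : ℕ => if t ≤ b ∧ b < B₂ then (1 : ℝ) else 0))) ≤
        ∑ t ∈ Finset.Ico (B₁ + 1) B₂, (w t - w (t - 1)) * X := by
      refine (Finset.le_sum_of_subadditive p (_root_.map_zero p).le (map_add_le_add p) _ _).trans ?_
      refine Finset.sum_le_sum fun t ht => ?_
      rw [Finset.mem_Ico] at ht
      have h3 : 0 ≤ w t - w (t - 1) := sub_nonneg.2 (hw (by omega))
      rw [map_smul, map_smul_eq_mul, Real.norm_of_nonneg h3]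
      exact mul_le_mul_of_nonneg_left (hX t (by omega)) h3
    refine (add_le_add h1 h2).trans ?_
    rw [← Finset.sum_mul, ← add_mul]
    refine mul_le_mul_of_nonneg_right ?_ hX0
    have h4 : ∑ t ∈ Finset.Ico (B₁ + 1) B₂, (w t - w (t - 1)) = w (B₂ - 1) - w B₁ := by
      rw [Finset.sum_Ico_eq_sum_range]
      have h2 : ∀ m, ∑ i ∈ Finset.range m, (w (B₁ + 1 + i) - w (B₁ + 1 + i - 1)) = w (B₁ + m) - w B₁ := by
        intro m
        induction m with
        | zero => simp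
        | succ m ih =>
          rw [Finset.sum_range_succ, ih]
          have e1 : B₁ + 1 + m - 1 = B₁ + m := by omega
          have e2 : B₁ + 1 + m = B₁ + (m + 1) := by omega
          rw [e1, e2]
          ring
      rw [h2]
      congr 2
      omega
    rw [h4]
    have := hV (B₂ - 1) (by omega)
    linarith

end Pool.Agent.Lib.H81A
end

-- from Lib.H81A.T1
section

/-!
# H81A, chunk T1 (M): boxes with at most one long variable
-/

namespace Pool.Agent.Lib.H81A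

open Finset ArithmeticFunction

/-- The coefficients of a short product, normalised. -/
theorem t1_gam {ι : Type} [DecidableEq ι] {c η : ℝ} {N L u v r : ℕ} {V : ℝ} (par : Par c η N L u v r V) (k : ι → ℕ) (G : ι → ArithmeticFunction ℝ)
    (hG : ∀ i, ∀ n, 1 ≤ n → n ≤ N → |G i n| ≤ V) (S : Finset ι) (hr : S.card ≤ r) (hS : ∑ i ∈ S, k i < u) :
    ∃ γ : ℕ → ℝ, (∀ q, |γ q| ≤ 1) ∧ (∀ q : ℕ, γ q ≠ 0 → 1 ≤ q ∧ (q : ℝ) ≤ (N : ℝ) ^ (2 * c)) ∧
      ∀ q, 1 ≤ q → q ≤ N → (∏ i ∈ S, dy (k i) (G i)) q = V ^ (2 * r) * γ q := by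
  have hV0 : 0 < V ^ (2 * r) := pow_pos (lt_of_lt_of_le zero_lt_one par.hV) _
  refine ⟨fun q => if 1 ≤ q ∧ q ≤ N then (∏ i ∈ S, dy (k i) (G i)) q / V ^ (2 * r) else 0, ?_, ?_, ?_⟩
  · intro q
    show |if 1 ≤ q ∧ q ≤ N then (∏ i ∈ S, dy (k i) (G i)) q / V ^ (2 * r) else 0| ≤ 1
    split_ifs with h
    · rw [abs_div, abs_of_pos hV0, div_le_one hV0]
      refine (bound S (fun i => dy (k i) (G i)) par.hV par.hV (fun i _ n h1 h2 => bd_dy _ _ (hG i n h1 h2)) par.hVd h.1 h.2).trans ?_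
      rw [← pow_two, ← pow_mul]
      exact pow_le_pow_right₀ par.hV (Nat.mul_le_mul_left 2 hr)
    · rw [abs_zero]
      exact zero_le_one
  · intro q hq
    by_cases h : 1 ≤ q ∧ q ≤ N
    · refine ⟨h.1, ?_⟩
      have h1 : (∏ i ∈ S, dy (k i) (G i)) q ≠ 0 := by
        intro h0
        apply hq
        show (if 1 ≤ q ∧ q ≤ N then (∏ i ∈ S, dy (k i) (G i)) q / V ^ (2 * r) else 0) = 0
        rw [if_pos h, h0, zero_div]
      have h2 := (supp S k G h1).2
      have h3 : 2 ^ (∑ i ∈ S, k i + S.card) ≤ 2 ^ (u + r) := Nat.pow_le_pow_right (by norm_num) (by omega)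
      calc (q : ℝ) ≤ ((2 ^ (u + r) : ℕ) : ℝ) := by exact_mod_cast h2.trans h3
        _ = (2 : ℝ) ^ (u + r) := by push_cast; rfl
        _ ≤ _ := par.hq
    · exact absurd (if_neg h) hq
  · intro q h1 h2
    show _ = V ^ (2 * r) * (if 1 ≤ q ∧ q ≤ N then (∏ i ∈ S, dy (k i) (G i)) q / V ^ (2 * r) else 0)
    rw [if_pos ⟨h1, h2⟩, mul_div_cancel₀ _ hV0.ne']

/-- Convolution with `γ`. -/
noncomputable def t1_Q (γ : ℕ → ℝ) : (ℕ → ℝ) →ₗ[ℝ] (ℕ → ℝ) where
  toFun h := fun m => ∑ x ∈ m.divisorsAntidiagonal, γ x.1 * h x.2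
  map_add' h h' := by
    funext m
    rw [Pi.add_apply, ← Finset.sum_add_distrib]
    exact Finset.sum_congr rfl fun x _ => by rw [Pi.add_apply, mul_add]
  map_smul' a h := by
    funext m
    rw [RingHom.id_apply, Pi.smul_apply, smul_eq_mul, Finset.mul_sum]
    exact Finset.sum_congr rfl fun x _ => by rw [Pi.smul_apply, smul_eq_mul]; ring

/-- The smooth weights. -/
theorem t1_w {f : ArithmeticFunction ℝ} (hf : f = one1 ∨ f = logf) {N : ℕ} {V : ℝ} (hV : 1 ≤ V) (hVlog : Real.log N ≤ V) :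
    ∃ w : ℕ → ℝ, Monotone w ∧ 0 ≤ w 0 ∧ (∀ b, b ≤ N → w b ≤ V) ∧ ∀ n, 1 ≤ n → f n = w n := by
  rcases hf with rfl | rfl
  · exact ⟨fun _ => 1, fun _ _ _ => le_rfl, zero_le_one, fun _ _ => hV, fun n hn => af_apply _ (by omega)⟩
  · have hm : Monotone fun n : ℕ => Real.log (n : ℝ) := by
      intro a b hab
      show Real.log (a : ℝ) ≤ Real.log (b : ℝ)
      rcases Nat.eq_zero_or_pos a with rfl | ha
      · rw [Nat.cast_zero, Real.log_zero]
        exact Real.log_natCast_nonneg b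
      · exact Real.log_le_log (by exact_mod_cast ha) (by exact_mod_cast hab)
    refine ⟨fun n => Real.log n, hm, ?_, fun b hb => (hm hb).trans hVlog, fun n hn => af_apply _ (by omega)⟩
    show 0 ≤ Real.log ((0 : ℕ) : ℝ)
    rw [Nat.cast_zero, Real.log_zero]

theorem t1_X {c : ℝ} {N : ℕ} {p : Seminorm ℝ (ℕ → ℝ)} {X : ℝ} (h1 : H1 c N p X) : 0 ≤ X := by
  refine le_trans ?_ (h1 1 1 le_rfl (by norm_num) (fun _ => 0) (fun _ => by rw [abs_zero]; exact zero_le_one) (fun q hq => absurd rfl hq))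
  exact apply_nonneg p _

theorem t1_div {m N : ℕ} (hm : m ≤ N) {x : ℕ × ℕ} (hx : x ∈ m.divisorsAntidiagonal) : (1 ≤ x.1 ∧ x.1 ≤ N) ∧ (1 ≤ x.2 ∧ x.2 ≤ N) := by
  obtain ⟨h2, h3⟩ := Nat.mem_divisorsAntidiagonal.1 hx
  have hx1 : x.1 ≠ 0 := by
    intro h
    rw [h, zero_mul] at h2
    exact h3 h2.symm
  have hx2 : x.2 ≠ 0 := by
    intro h
    rw [h, mul_zero] at h2
    exact h3 h2.symm
  have hm0 : 0 < m := Nat.pos_of_ne_zero h3
  have hl1 : x.1 ≤ m := Nat.le_of_dvd hm0 ⟨x.2, h2.symm⟩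
  have hl2 : x.2 ≤ m := Nat.le_of_dvd hm0 ⟨x.1, by rw [mul_comm]; exact h2.symm⟩
  exact ⟨⟨Nat.one_le_iff_ne_zero.2 hx1, hl1.trans hm⟩, ⟨Nat.one_le_iff_ne_zero.2 hx2, hl2.trans hm⟩⟩

/-- PROOF. `γ q = (∏ i, dy (k i) (G i)) q` for `q ≤ N` and `0` for `q > N`: `|γ| ≤ (V * V) ^ (card ι) ≤ V ^ (2 r)` (`bound`, `bd_dy`), `γ q ≠ 0` gives `1 ≤ q ≤ 2 ^ (u + r) ≤ N ^ (2 c)` (`supp`). For `1 ≤ m ≤ N` the value at `m` is `∑ x ∈ m.divisorsAntidiagonal, γ x.1 * (if 1 ≤ x.2 ∧ x.2 < 2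
then 1 else 0)` (only `x = (m, 1)` counts). `H1` for `γ / V ^ (2 r)`; `0 ≤ X` from `H1` with `γ = 0`, `B₁ = B₂ = 1`. (`H1` wants `1 ≤ B₁`, `B₂ ≤ 2 B₁`.) -/
theorem type0 {ι : Type} [Fintype ι] [DecidableEq ι] {c η : ℝ} {N L u v r : ℕ} {V : ℝ} (par : Par c η N L u v r V) (hr : Fintype.card ι ≤ r) (p : Seminorm ℝ (ℕ → ℝ)) (hp : Loc N p)
    {X : ℝ} (h1 : H1 c N p X) (k : ι → ℕ) (G : ι → ArithmeticFunction ℝ) (hG : ∀ i, ∀ n, 1 ≤ n → n ≤ N → |G i n| ≤ V)
    (hk : ∑ i, k i < u) : p (fun m => (∏ i, dy (k i) (G i)) m) ≤ V ^ (2 * r + 2) * X := by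
  have hX := t1_X h1
  have hV0 : 0 ≤ V := zero_le_one.trans par.hV
  obtain ⟨γ, hγ1, hγ2, hγ3⟩ := t1_gam par k G hG univ hr hk
  have h4 : p (fun m => (∏ i, dy (k i) (G i)) m) =
      p (V ^ (2 * r) • fun m : ℕ => ∑ x ∈ m.divisorsAntidiagonal, γ x.1 * (if 1 ≤ x.2 ∧ x.2 < 2 then 1 else 0)) := by
    refine hp.congr fun m hm1 hm2 => ?_
    rw [Pi.smul_apply, smul_eq_mul, hγ3 m hm1 hm2, Finset.sum_eq_single (m, 1)]
    · rw [if_pos ⟨le_rfl, by norm_num⟩, mul_one]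
    · intro x hx hne
      have h5 : ¬ (1 ≤ x.2 ∧ x.2 < 2) := by
        intro h
        have h6 : x.2 = 1 := by omega
        obtain ⟨h7, _⟩ := Nat.mem_divisorsAntidiagonal.1 hx
        apply hne
        rw [h6, mul_one] at h7
        exact Prod.ext h7 h6
      rw [if_neg h5, mul_zero]
    · intro h
      exact absurd (Nat.mem_divisorsAntidiagonal.2 ⟨mul_one m, by omega⟩) h
  rw [h4, map_smul_eq_mul, Real.norm_of_nonneg (pow_nonneg hV0 _)]
  have h5 := h1 1 2 le_rfl (by norm_num) γ hγ1 hγ2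
  calc V ^ (2 * r) * _ ≤ V ^ (2 * r) * X := mul_le_mul_of_nonneg_left h5 (pow_nonneg hV0 _)
    _ ≤ V ^ (2 * r + 2) * X := mul_le_mul_of_nonneg_right (pow_le_pow_right₀ par.hV (by omega)) hX

/-- PROOF. `∏ j, dy (k j) (G j) = γ₀ * dy (k i) (G i)`, `γ₀ = ∏ j ∈ univ.erase i`; `γ q = γ₀ q` for `q ≤ N`, `0` for `q > N`; `|γ| ≤ V ^ (2 r)`, `γ q ≠ 0` gives `1 ≤ q ≤ 2 ^ (u + r) ≤ N ^ (2 c)`. If `G i = one1`: `H1` with `B₁ = 2 ^ k i`, `B₂ = 2 ^ (k i + 1)` (`Loc.congr` to replace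
`γ₀` by `γ`). If `G i = logf`: `abel` with the linear map `Q h = fun m => ∑ x ∈ m.divisorsAntidiagonal, γ x.1 * h x.2`, `B₁ = 2 ^ k i`, `B₂ = min (2 ^ (k i + 1)) (N + 1)` (for `m ≤ N` only `x.2 ≤ N` counts), `w b = log b` (`Real.log 0 = 0`; monotone on the
natural numbers), `w b ≤ log N ≤ V` for `b < B₂`; the intervals `[B, B₂)` with `B ≥ 2 ^ k i` satisfy `B₂ ≤ 2 B`. Total `V ^ (2 r) V X`. -/
theorem type1 {ι : Type} [Fintype ι] [DecidableEq ι] {c η : ℝ} {N L u v r : ℕ} {V : ℝ} (par : Par c η N L u v r V) (hr : Fintype.card ι ≤ r) (p : Seminorm ℝ (ℕ → ℝ)) (hp : Loc N p)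
    {X : ℝ} (h1 : H1 c N p X) (k : ι → ℕ) (G : ι → ArithmeticFunction ℝ) (hG : ∀ i, ∀ n, 1 ≤ n → n ≤ N → |G i n| ≤ V)
    (i : ι) (hi : G i = one1 ∨ G i = logf) (hk : ∑ j ∈ univ.erase i, k j < u) : p (fun m => (∏ j, dy (k j) (G j)) m) ≤ V ^ (2 * r + 2) * X := by
  have hX := t1_X h1
  have hV0 : 0 ≤ V := zero_le_one.trans par.hV
  obtain ⟨w, hw1, hw2, hw3, hw4⟩ := t1_w hi (N := N) par.hV par.hVlog
  obtain ⟨γ, hγ1, hγ2, hγ3⟩ := t1_gam par k G hG (univ.erase i) ((Finset.card_erase_le).trans hr) hk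
  have h4 : p (fun m => (∏ j, dy (k j) (G j)) m) =
      p (V ^ (2 * r) • t1_Q γ (fun b => if 2 ^ k i ≤ b ∧ b < min (2 ^ (k i + 1)) (N + 1) then w b else 0)) := by
    refine hp.congr fun m hm1 hm2 => ?_
    rw [← Finset.prod_erase_mul univ (fun j => dy (k j) (G j)) (Finset.mem_univ i), ArithmeticFunction.mul_apply, Pi.smul_apply, smul_eq_mul]
    show _ = V ^ (2 * r) * ∑ x ∈ m.divisorsAntidiagonal, γ x.1 * (if 2 ^ k i ≤ x.2 ∧ x.2 < min (2 ^ (k i + 1)) (N + 1) then w x.2 else 0)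
    rw [Finset.mul_sum]
    refine Finset.sum_congr rfl fun x hx => ?_
    obtain ⟨⟨a1, a2⟩, ⟨b1, b2⟩⟩ := t1_div hm2 hx
    rw [hγ3 x.1 a1 a2, dy_apply, hw4 x.2 b1, mul_assoc]
    congr 2
    have h5 : (x.2 < min (2 ^ (k i + 1)) (N + 1)) ↔ x.2 < 2 ^ (k i + 1) := by
      rw [lt_min_iff]
      exact ⟨fun h => h.1, fun h => ⟨h, by omega⟩⟩
    simp only [h5]
  rw [h4, map_smul_eq_mul, Real.norm_of_nonneg (pow_nonneg hV0 _)]
  have h5 : p (t1_Q γ (fun b => if 2 ^ k i ≤ b ∧ b < min (2 ^ (k i + 1)) (N + 1) then w b else 0)) ≤ V * X := by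
    refine abel p (t1_Q γ) X _ _ (fun B hB => ?_) w hw1 hw2 hV0 (fun b hb => hw3 b ?_)
    · refine h1 B _ ((Nat.one_le_two_pow).trans hB) ?_ γ hγ1 hγ2
      refine (min_le_left _ _).trans ?_
      rw [pow_succ, mul_comm]
      exact Nat.mul_le_mul_left 2 hB
    · have h6 := lt_of_lt_of_le hb (min_le_right _ _)
      omega
  calc V ^ (2 * r) * _ ≤ V ^ (2 * r) * (V * X) := mul_le_mul_of_nonneg_left h5 (pow_nonneg hV0 _)
    _ = V ^ (2 * r + 1) * X := by ring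
    _ ≤ V ^ (2 * r + 2) * X := mul_le_mul_of_nonneg_right (pow_le_pow_right₀ par.hV (by omega)) hX

end Pool.Agent.Lib.H81A
end

-- from Lib.H81A.T3
section

/-!
# H81A, chunk T3 (M/L): boxes with two long variables
-/

namespace Pool.Agent.Lib.H81A

open Finset ArithmeticFunction

noncomputable def t3_Q (γ h h' : ℕ → ℝ) : ℕ → ℝ :=
  fun m => ∑ x ∈ m.divisorsAntidiagonal, γ x.1 * ∑ y ∈ x.2.divisorsAntidiagonal, h y.1 * h' y.2

noncomputable def t3_L1 (γ h' : ℕ → ℝ) : (ℕ → ℝ) →ₗ[ℝ] (ℕ → ℝ) where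
  toFun h := t3_Q γ h h'
  map_add' h1 h2 := by
    funext m
    simp only [t3_Q, Pi.add_apply, add_mul, Finset.sum_add_distrib, mul_add]
  map_smul' c h := by
    funext m
    simp only [t3_Q, Pi.smul_apply, smul_eq_mul, RingHom.id_apply, Finset.mul_sum]
    refine Finset.sum_congr rfl fun x _ => Finset.sum_congr rfl fun y _ => ?_
    ring

noncomputable def t3_L2 (γ h : ℕ → ℝ) : (ℕ → ℝ) →ₗ[ℝ] (ℕ → ℝ) where
  toFun h' := t3_Q γ h h'
  map_add' h1 h2 := by
    funext m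
    simp only [t3_Q, Pi.add_apply, Finset.sum_add_distrib, mul_add]
  map_smul' c h := by
    funext m
    simp only [t3_Q, Pi.smul_apply, smul_eq_mul, RingHom.id_apply, Finset.mul_sum]
    refine Finset.sum_congr rfl fun x _ => Finset.sum_congr rfl fun y _ => ?_
    ring

theorem t3_w {G : ArithmeticFunction ℝ} {N : ℕ} {V : ℝ} (hV : 1 ≤ V) (hlog : Real.log N ≤ V) (hG : G = one1 ∨ G = logf) :
    ∃ w : ℕ → ℝ, Monotone w ∧ 0 ≤ w 0 ∧ (∀ b, b ≤ N → w b ≤ V) ∧ ∀ n, n ≠ 0 → G n = w n := by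
  rcases hG with rfl | rfl
  · exact ⟨fun _ => 1, monotone_const, zero_le_one, fun _ _ => hV, fun n hn => af_apply _ hn⟩
  · have hmono : Monotone fun n : ℕ => Real.log n := by
      intro a b hab
      show Real.log a ≤ Real.log b
      rcases Nat.eq_zero_or_pos a with rfl | ha
      · rw [Nat.cast_zero, Real.log_zero]
        exact Real.log_natCast_nonneg b
      · exact Real.log_le_log (by exact_mod_cast ha) (by exact_mod_cast hab)
    exact ⟨fun n => Real.log n, hmono, by simp, fun b hb => (hmono hb).trans hlog, fun n hn => af_apply _ hn⟩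

/-- PROOF. `s = ∑ j, k j`. If `s ≥ L` the function vanishes on `[1, N]` (`supp`, `N < 2 ^ L`), `p .. = 0` and `0 ≤ X` (`H3` with `γ = 0`, `A₁ = B₁ = 2 ^ (v + 1)`, `A₂ = B₂ = 0`). Otherwise `k i, k j ≥ v + 1` and `k i + k j < L`, so `N ^ (1 / 2 - 2 η) ≤ 2 ^ (v + 1) ≤ 2 ^ k i` and
`2 ^ (k i + 1) ≤ 2 ^ (L - v) ≤ N ^ (1 / 2 + 2 η)`, the same for `j`. `∏ = γ₀ * (dy (k i) (G i) * dy (k j) (G j))`, `γ₀ = ∏ l ∈ (univ.erase i).erase j`; `γ q = γ₀ q` for `q ≤ N`, `0` for `q > N`: `|γ| ≤ V ^ (2 (card - 2))`, support in `[1, 2 ^ (u + r)]`, `2 ^ (u + r) ≤ N ^ (2 c)`.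
If `G i = G j = one1`: `H3`. For `logf`: `abel` once or twice with the linear maps `Q h = fun m => ∑ x ∈ m.divisorsAntidiagonal, γ x.1 * ∑ y ∈ x.2.divisorsAntidiagonal, h y.1 * h' y.2` (in `h` for fixed `h'`, then in `h'` for fixed `h = ` indicator of an interval), upper
ends `min (2 ^ (k + 1)) (N + 1)`, `w = log`, each costs a factor `V`; the intervals satisfy `A₂ ≤ 2 A₁`, `B₂ ≤ 2 B₁` because they lie in `[2 ^ k, 2 ^ (k + 1))`. Total `V ^ (2 (card - 2)) V ^ 2 X ≤ V ^ (2 r + 2) X`. -/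
theorem type3 {ι : Type} [Fintype ι] [DecidableEq ι] {c η : ℝ} {N L u v r : ℕ} {V : ℝ} (par : Par c η N L u v r V) (hr : Fintype.card ι ≤ r) (p : Seminorm ℝ (ℕ → ℝ)) (hp : Loc N p)
    {X : ℝ} (h3 : H3 c η N p X) (k : ι → ℕ) (G : ι → ArithmeticFunction ℝ) (hG : ∀ i, ∀ n, 1 ≤ n → n ≤ N → |G i n| ≤ V)
    (i j : ι) (hij : i ≠ j) (hi : G i = one1 ∨ G i = logf) (hj : G j = one1 ∨ G j = logf) (hki : v < k i) (hkj : v < k j)
    (hk : ∑ l ∈ (univ.erase i).erase j, k l < u) : p (fun m => (∏ j, dy (k j) (G j)) m) ≤ V ^ (2 * r + 2) * X := by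
  have hV0 : (0 : ℝ) ≤ V := zero_le_one.trans par.hV
  set S := (univ.erase i).erase j with hS
  have hji : j ∈ (univ.erase i : Finset ι) := Finset.mem_erase.2 ⟨hij.symm, Finset.mem_univ j⟩
  have hcard : S.card + 2 = Fintype.card ι := by
    have h1 := Finset.card_erase_add_one hji
    have h2 := Finset.card_erase_add_one (Finset.mem_univ i)
    rw [← hS] at h1
    rw [← Finset.card_univ]
    omega
  have hprod : ∏ l, dy (k l) (G l) = (∏ l ∈ S, dy (k l) (G l)) * (dy (k i) (G i) * dy (k j) (G j)) := by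
    rw [← Finset.mul_prod_erase _ _ (Finset.mem_univ i), ← Finset.mul_prod_erase _ _ hji, ← hS]
    ring
  have hsum : ∑ l, k l = ∑ l ∈ S, k l + (k i + k j) := by
    rw [← Finset.add_sum_erase _ _ (Finset.mem_univ i), ← Finset.add_sum_erase _ _ hji, ← hS]
    ring
  have hX0 : 0 ≤ X := by
    refine (apply_nonneg p _).trans (h3 (2 ^ (v + 1)) 0 (2 ^ (v + 1)) 0 ?_ ?_ ?_ ?_ (by simp) (by simp) (fun _ => 0)
      (fun q => by simp) (fun q hq => absurd rfl hq))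
    · push_cast; exact par.hA
    · push_cast; positivity
    · push_cast; exact par.hA
    · push_cast; positivity
  rcases le_or_gt L (∑ l, k l) with hL | hL
  · have h0 : p (fun m => (∏ j, dy (k j) (G j)) m) = 0 := by
      refine hp _ fun m hm hmN => ?_
      by_contra hne
      have h1 := (supp univ k G hne).1
      have h2 : 2 ^ L ≤ 2 ^ (∑ l, k l) := Nat.pow_le_pow_right (by norm_num) hL
      have h4 := par.hL
      omega
    rw [h0]
    positivity
  · set W : ℝ := (V * V) ^ S.card with hW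
    have hVV : 1 ≤ V * V := by nlinarith [par.hV]
    have hW1 : 1 ≤ W := one_le_pow₀ hVV
    have hW0 : 0 < W := by linarith
    set γ₀ := ∏ l ∈ S, dy (k l) (G l) with hγ₀
    set γ : ℕ → ℝ := fun q => if q ≤ N then W⁻¹ * γ₀ q else 0 with hγ
    have hγ1 : ∀ q, |γ q| ≤ 1 := by
      intro q
      show |if q ≤ N then W⁻¹ * γ₀ q else 0| ≤ 1
      split_ifs with hq
      · rcases Nat.eq_zero_or_pos q with rfl | hq0
        · rw [ArithmeticFunction.map_zero, mul_zero, abs_zero]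
          exact zero_le_one
        · rw [abs_mul, abs_of_pos (inv_pos.2 hW0), inv_mul_le_iff₀ hW0, mul_one]
          exact bound S _ par.hV par.hV (fun l _ n hn hnN => bd_dy _ _ (hG l n hn hnN)) par.hVd hq0 hq
      · rw [abs_zero]
        exact zero_le_one
    have hγ2 : ∀ q : ℕ, γ q ≠ 0 → 1 ≤ q ∧ (q : ℝ) ≤ (N : ℝ) ^ (2 * c) := by
      intro q hq
      have h1 : q ≤ N ∧ γ₀ q ≠ 0 := by
        by_contra h
        apply hq
        show (if q ≤ N then W⁻¹ * γ₀ q else 0) = 0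
        split_ifs with h2
        · by_contra h4
          exact h ⟨h2, fun h5 => h4 (by rw [h5, mul_zero])⟩
        · rfl
      obtain ⟨h2, h4⟩ := supp S k G h1.2
      refine ⟨?_, ?_⟩
      · exact le_trans Nat.one_le_two_pow h2
      · have h5 : q ≤ 2 ^ (u + r) := h4.trans (Nat.pow_le_pow_right (by norm_num) (by omega))
        have h6 : (q : ℝ) ≤ 2 ^ (u + r) := by exact_mod_cast h5
        exact h6.trans par.hq
    obtain ⟨wi, hwi1, hwi2, hwi3, hwi4⟩ := t3_w par.hV par.hVlog hi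
    obtain ⟨wj, hwj1, hwj2, hwj3, hwj4⟩ := t3_w par.hV par.hVlog hj
    set A₁ := 2 ^ (k i) with hA₁
    set A₂ := min (2 ^ (k i + 1)) (N + 1) with hA₂
    set B₁ := 2 ^ (k j) with hB₁
    set B₂ := min (2 ^ (k j + 1)) (N + 1) with hB₂
    have hdy : ∀ (l : ι) (w : ℕ → ℝ), (∀ n, n ≠ 0 → G l n = w n) → ∀ n, n ≠ 0 → n ≤ N →
        dy (k l) (G l) n = if 2 ^ (k l) ≤ n ∧ n < min (2 ^ (k l + 1)) (N + 1) then w n else 0 := by
      intro l w hw n hn hnN
      rw [dy_apply]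
      have h1 : (2 ^ (k l) ≤ n ∧ n < 2 ^ (k l + 1)) ↔ (2 ^ (k l) ≤ n ∧ n < min (2 ^ (k l + 1)) (N + 1)) := by
        rw [lt_min_iff]
        constructor
        · rintro ⟨a, b⟩
          exact ⟨a, b, by omega⟩
        · rintro ⟨a, b, -⟩
          exact ⟨a, b⟩
      by_cases h2 : 2 ^ (k l) ≤ n ∧ n < 2 ^ (k l + 1)
      · rw [if_pos h2, if_pos (h1.1 h2), hw n hn]
      · rw [if_neg h2, if_neg fun h => h2 (h1.2 h)]
    have hfun : p (fun m => (∏ l, dy (k l) (G l)) m) = W * p (t3_Q γ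
        (fun a => if A₁ ≤ a ∧ a < A₂ then wi a else 0) (fun b => if B₁ ≤ b ∧ b < B₂ then wj b else 0)) := by
      rw [← Real.norm_of_nonneg hW0.le, ← map_smul_eq_mul p]
      refine hp.congr fun m hm hmN => ?_
      rw [hprod, ArithmeticFunction.mul_apply, Pi.smul_apply, smul_eq_mul, t3_Q, Finset.mul_sum]
      refine Finset.sum_congr rfl fun x hx => ?_
      have hx' := Nat.mem_divisorsAntidiagonal.1 hx
      have hx1 : x.1 ≤ m := Nat.divisor_le (Nat.fst_mem_divisors_of_mem_antidiagonal hx)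
      have hx2 : x.2 ≤ m := Nat.divisor_le (Nat.snd_mem_divisors_of_mem_antidiagonal hx)
      have hγx : γ x.1 = W⁻¹ * γ₀ x.1 := if_pos (hx1.trans hmN)
      rw [hγx, ArithmeticFunction.mul_apply]
      have h1 : ∑ y ∈ x.2.divisorsAntidiagonal, dy (k i) (G i) y.1 * dy (k j) (G j) y.2 =
          ∑ y ∈ x.2.divisorsAntidiagonal, (if A₁ ≤ y.1 ∧ y.1 < A₂ then wi y.1 else 0) *
            (if B₁ ≤ y.2 ∧ y.2 < B₂ then wj y.2 else 0) := by
        refine Finset.sum_congr rfl fun y hy => ?_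
        have hy' := Nat.mem_divisorsAntidiagonal.1 hy
        have hy1 : y.1 ≤ x.2 := Nat.divisor_le (Nat.fst_mem_divisors_of_mem_antidiagonal hy)
        have hy2 : y.2 ≤ x.2 := Nat.divisor_le (Nat.snd_mem_divisors_of_mem_antidiagonal hy)
        have hn1 : y.1 ≠ 0 := fun h => hy'.2 (by rw [← hy'.1, h, zero_mul])
        have hn2 : y.2 ≠ 0 := fun h => hy'.2 (by rw [← hy'.1, h, mul_zero])
        rw [hdy i wi hwi4 _ hn1 (by omega), hdy j wj hwj4 _ hn2 (by omega)]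
      rw [h1]
      have h2 : W * W⁻¹ = 1 := mul_inv_cancel₀ hW0.ne'
      calc γ₀ x.1 * _ = (W * W⁻¹) * (γ₀ x.1 * _) := by rw [h2, one_mul]
        _ = _ := by ring
    have hin : ∀ A B, A₁ ≤ A → B₁ ≤ B → p (t3_Q γ (fun a => if A ≤ a ∧ a < A₂ then 1 else 0)
        (fun b => if B ≤ b ∧ b < B₂ then 1 else 0)) ≤ X := by
      intro A B hA hB
      have hlow : ∀ l, v < k l → ∀ A : ℕ, 2 ^ (k l) ≤ A → (N : ℝ) ^ (1 / 2 - 2 * η) ≤ (A : ℝ) := by
        intro l hl A hA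
        refine par.hA.trans ?_
        have h1 : 2 ^ (v + 1) ≤ A := (Nat.pow_le_pow_right (by norm_num) (by omega)).trans hA
        exact_mod_cast h1
      have hupp : ∀ l, k l + 1 ≤ L - v → ((min (2 ^ (k l + 1)) (N + 1) : ℕ) : ℝ) ≤ (N : ℝ) ^ (1 / 2 + 2 * η) := by
        intro l hl
        refine le_trans ?_ par.hB
        have h1 : min (2 ^ (k l + 1)) (N + 1) ≤ 2 ^ (L - v) :=
          (min_le_left _ _).trans (Nat.pow_le_pow_right (by norm_num) hl)
        exact_mod_cast h1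
      have hdbl : ∀ l A, 2 ^ (k l) ≤ A → min (2 ^ (k l + 1)) (N + 1) ≤ 2 * A := by
        intro l A hA
        refine (min_le_left _ _).trans ?_
        rw [pow_succ]
        omega
      exact h3 A A₂ B B₂ (hlow i hki A hA) (hupp i (by omega)) (hlow j hkj B hB) (hupp j (by omega))
        (hdbl i A hA) (hdbl j B hB) γ hγ1 hγ2
    have hin2 : ∀ A, A₁ ≤ A → p (t3_L1 γ (fun b => if B₁ ≤ b ∧ b < B₂ then wj b else 0)
        (fun a => if A ≤ a ∧ a < A₂ then 1 else 0)) ≤ V * X := by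
      intro A hA
      exact abel p (t3_L2 γ (fun a => if A ≤ a ∧ a < A₂ then 1 else 0)) X B₁ B₂ (fun B hB => hin A B hA hB)
        wj hwj1 hwj2 hV0 (fun b hb => hwj3 b (by rw [hB₂, lt_min_iff] at hb; omega))
    have hin3 : p (t3_L1 γ (fun b => if B₁ ≤ b ∧ b < B₂ then wj b else 0)
        (fun a => if A₁ ≤ a ∧ a < A₂ then wi a else 0)) ≤ V * (V * X) :=
      abel p (t3_L1 γ (fun b => if B₁ ≤ b ∧ b < B₂ then wj b else 0)) (V * X) A₁ A₂ hin2
        wi hwi1 hwi2 hV0 (fun b hb => hwi3 b (by rw [hA₂, lt_min_iff] at hb; omega))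
    rw [hfun]
    calc W * p _ ≤ W * (V * (V * X)) := mul_le_mul_of_nonneg_left hin3 hW0.le
      _ = V ^ (2 * S.card + 2) * X := by
        rw [hW, ← sq, ← pow_mul, pow_add]
        ring
      _ ≤ V ^ (2 * r + 2) * X := mul_le_mul_of_nonneg_right (pow_le_pow_right₀ par.hV (by omega)) hX0

end Pool.Agent.Lib.H81A
end

-- from Lib.H81A.T2
section

/-!
# H81A, chunk T2 (M): boxes with a sub-product in the range
-/

namespace Pool.Agent.Lib.H81A

open Finset ArithmeticFunction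

theorem t2_part (A : ℕ → ℝ) {N s r : ℕ} (hA : ∀ a, A a ≠ 0 → 2 ^ s ≤ a ∧ a ≤ 2 ^ (s + r)) {a : ℕ} (ha : 1 ≤ a) (haN : a ≤ N) :
    A a = ∑ t ∈ range (r + 1), (if 2 ^ (s + t) ≤ a ∧ a < 2 ^ (s + t + 1) ∧ a ≤ N then A a else 0) := by
  by_cases h0 : A a = 0
  · rw [h0]
    symm
    exact Finset.sum_eq_zero (fun t _ => by rw [ite_self])
  · obtain ⟨h1, h2⟩ := hA a h0
    have h3 : s ≤ Nat.log 2 a := (Nat.le_log_iff_pow_le (by norm_num) (by omega)).2 h1
    have h4 : Nat.log 2 a ≤ s + r := by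
      have := Nat.log_mono_right (b := 2) h2
      rwa [Nat.log_pow (by norm_num)] at this
    obtain ⟨h5, h6⟩ := (Nat.log_eq_iff (b := 2) (m := Nat.log 2 a) (n := a) (Or.inr ⟨by norm_num, by omega⟩)).1 rfl
    have h7 : s + (Nat.log 2 a - s) = Nat.log 2 a := by omega
    rw [Finset.sum_eq_single (Nat.log 2 a - s)]
    · rw [if_pos]
      rw [h7]
      exact ⟨h5, h6, haN⟩
    · intro t _ ht
      rw [if_neg]
      rintro ⟨h8, h9, -⟩
      apply ht
      have h10 : Nat.log 2 a = s + t :=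
        (Nat.log_eq_iff (Or.inr ⟨by norm_num, by omega⟩)).2 ⟨h8, h9⟩
      omega
    · intro h
      exact absurd (Finset.mem_range.2 (by omega)) h

theorem t2_nonneg {c η : ℝ} {N L u v r : ℕ} {V : ℝ} (par : Par c η N L u v r V) {p : Seminorm ℝ (ℕ → ℝ)} {X : ℝ}
    (h2 : H2 c η N p X) (huv : u ≤ v + r) : 0 ≤ X := by
  have h := h2 (2 ^ u) 1 par.hc ((pow_le_pow_right₀ (by norm_num) huv).trans par.hv) (le_refl _) (fun _ => 0) (fun _ => 0)
    (fun a => by rw [abs_zero]; exact zero_le_one) (fun a => by rw [abs_zero]; exact zero_le_one)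
    (fun a h => absurd rfl h) (fun a h => absurd rfl h)
  exact (apply_nonneg p _).trans h

/-- PROOF. `∏ i, dy (k i) (G i) = A * E`, `A = ∏ i ∈ S`, `E = ∏ i ∈ Sᶜ` (`Finset.prod_mul_prod_compl`). `A` is supported in `[2 ^ s, 2 ^ (s + r)]`, `s = ∑ S` (`supp`; `S.card ≤ r`); on `1 ≤ m ≤ N` (`Loc.congr`) one has
`(A * E) m = ∑ t ∈ range (r + 1), ∑ l ∈ range L, ∑ x ∈ m.divisorsAntidiagonal, A_t x.1 * E_l x.2`, `A_t a = if 2 ^ (s + t) ≤ a ∧ a < 2 ^ (s + t + 1) ∧ a ≤ N then A a else 0`, `E_l b = if 2 ^ l ≤ b ∧ b < 2 ^ (l + 1) ∧ b ≤ N then E b else 0` (divisors of `m` are in `[1, N]`,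
`N < 2 ^ L`). `|A_t| ≤ (V * V) ^ S.card`, `|E_l| ≤ (V * V) ^ (Sᶜ).card` (`bound`, `bd_dy`): divide by these constants (`p` homogeneous) and apply `H2` with `K = 2 ^ (s + t)` (`N ^ c ≤ 2 ^ u ≤ K ≤ 2 ^ (v + r) ≤ N ^ (1 / 2 - η)`), `M = 2 ^ l`. Total
`(r + 1) L (V * V) ^ (card ι) X ≤ V ^ (2 r + 2) X`; `0 ≤ X` since `H2` holds for `α = β = 0`. (`map_sum_le` for seminorms: `Seminorm` is subadditive, induction, or `map_sum_le_sum`.) -/
theorem type2 {ι : Type} [Fintype ι] [DecidableEq ι] {c η : ℝ} {N L u v r : ℕ} {V : ℝ} (par : Par c η N L u v r V) (hr : Fintype.card ι ≤ r) (p : Seminorm ℝ (ℕ → ℝ)) (hp : Loc N p)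
    {X : ℝ} (h2 : H2 c η N p X) (k : ι → ℕ) (G : ι → ArithmeticFunction ℝ) (hG : ∀ i, ∀ n, 1 ≤ n → n ≤ N → |G i n| ≤ V)
    (S : Finset ι) (hS1 : u ≤ ∑ i ∈ S, k i) (hS2 : ∑ i ∈ S, k i ≤ v) : p (fun m => (∏ i, dy (k i) (G i)) m) ≤ V ^ (2 * r + 2) * X := by
  have hX : 0 ≤ X := t2_nonneg par h2 (by omega)
  have hV0 : 0 < V := lt_of_lt_of_le zero_lt_one par.hV
  obtain ⟨s, hs⟩ : ∃ s, s = ∑ i ∈ S, k i := ⟨_, rfl⟩
  obtain ⟨A, hA⟩ : ∃ A : ArithmeticFunction ℝ, A = ∏ i ∈ S, dy (k i) (G i) := ⟨_, rfl⟩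
  obtain ⟨E, hE⟩ : ∃ E : ArithmeticFunction ℝ, E = ∏ i ∈ Sᶜ, dy (k i) (G i) := ⟨_, rfl⟩
  have hprod : ∏ i, dy (k i) (G i) = A * E := by
    rw [hA, hE, Finset.prod_mul_prod_compl]
  have hScard : S.card ≤ r := (Finset.card_le_univ S).trans hr
  have hsupp : ∀ a, A a ≠ 0 → 2 ^ s ≤ a ∧ a ≤ 2 ^ (s + r) := by
    intro a ha
    rw [hA] at ha
    obtain ⟨h3, h4⟩ := supp S k G ha
    rw [← hs] at h3 h4
    exact ⟨h3, h4.trans (Nat.pow_le_pow_right (by norm_num) (by omega))⟩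
  obtain ⟨C1, hC1⟩ : ∃ C1 : ℝ, C1 = (V * V) ^ S.card := ⟨_, rfl⟩
  obtain ⟨C2, hC2⟩ : ∃ C2 : ℝ, C2 = (V * V) ^ (Sᶜ).card := ⟨_, rfl⟩
  have hC1p : 0 < C1 := by rw [hC1]; positivity
  have hC2p : 0 < C2 := by rw [hC2]; positivity
  have hAb : ∀ n, 1 ≤ n → n ≤ N → |A n| ≤ C1 := by
    intro n h3 h4
    rw [hA, hC1]
    exact bound S _ par.hV par.hV (fun i _ m h5 h6 => bd_dy _ _ (hG i m h5 h6)) par.hVd h3 h4
  have hEb : ∀ n, 1 ≤ n → n ≤ N → |E n| ≤ C2 := by
    intro n h3 h4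
    rw [hE, hC2]
    exact bound Sᶜ _ par.hV par.hV (fun i _ m h5 h6 => bd_dy _ _ (hG i m h5 h6)) par.hVd h3 h4
  let α : ℕ → ℕ → ℝ := fun t a => if 2 ^ (s + t) ≤ a ∧ a < 2 ^ (s + t + 1) ∧ a ≤ N then A a else 0
  let β : ℕ → ℕ → ℝ := fun l a => if 2 ^ l ≤ a ∧ a < 2 ^ (l + 1) ∧ a ≤ N then E a else 0
  have key : p (fun m => (∏ i, dy (k i) (G i)) m) =
      p (∑ t ∈ range (r + 1), ∑ l ∈ range L, fun m => ∑ x ∈ m.divisorsAntidiagonal, α t x.1 * β l x.2) := by
    apply hp.congr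
    intro m hm hmN
    rw [hprod, ArithmeticFunction.mul_apply, Finset.sum_apply]
    have e1 : ∀ x ∈ m.divisorsAntidiagonal, A x.1 * E x.2 =
        ∑ t ∈ range (r + 1), ∑ l ∈ range L, α t x.1 * β l x.2 := by
      intro x hx
      obtain ⟨h3, h4⟩ := Nat.mem_divisorsAntidiagonal.1 hx
      have h5 : 1 ≤ x.1 := by
        rcases Nat.eq_zero_or_pos x.1 with h | h
        · rw [h, zero_mul] at h3
          omega
        · exact h
      have h6 : 1 ≤ x.2 := by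
        rcases Nat.eq_zero_or_pos x.2 with h | h
        · rw [h, mul_zero] at h3
          omega
        · exact h
      have h7 : x.1 ≤ N := by nlinarith
      have h8 : x.2 ≤ N := by nlinarith
      have h9 : A x.1 = ∑ t ∈ range (r + 1), α t x.1 := t2_part (fun a => A a) hsupp h5 h7
      have hL1 : 1 ≤ L := by
        rcases Nat.eq_zero_or_pos L with h | h
        · have := par.hL
          rw [h] at this
          have h10 := par.hN
          omega
        · exact h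
      have h10 : E x.2 = ∑ l ∈ range L, β l x.2 := by
        obtain ⟨h13, h14⟩ := (Nat.log_eq_iff (b := 2) (m := Nat.log 2 x.2) (n := x.2)
          (Or.inr ⟨by norm_num, by omega⟩)).1 rfl
        have h15 : Nat.log 2 x.2 < L := by
          rw [Nat.log_lt_iff_lt_pow (by norm_num) (by omega)]
          exact lt_of_le_of_lt h8 par.hL
        rw [Finset.sum_eq_single (Nat.log 2 x.2)]
        · show E x.2 = if _ then _ else _
          rw [if_pos ⟨h13, h14, h8⟩]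
        · intro t _ ht
          show (if _ then _ else _) = (0 : ℝ)
          rw [if_neg]
          rintro ⟨h16, h17, -⟩
          exact ht ((Nat.log_eq_iff (Or.inr ⟨by norm_num, by omega⟩)).2 ⟨h16, h17⟩).symm
        · intro h
          exact absurd (Finset.mem_range.2 h15) h
      rw [h9, h10, Finset.sum_mul_sum]
    rw [Finset.sum_congr rfl e1, Finset.sum_comm]
    refine Finset.sum_congr rfl (fun t _ => ?_)
    rw [Finset.sum_apply, Finset.sum_comm]
  have hone : ∀ t ∈ range (r + 1), ∀ l ∈ range L,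
      p (fun m => ∑ x ∈ m.divisorsAntidiagonal, α t x.1 * β l x.2) ≤ C1 * C2 * X := by
    intro t ht l _
    have ht' := Finset.mem_range.1 ht
    have h3 := h2 (2 ^ (s + t)) (2 ^ l)
      (par.hc.trans (pow_le_pow_right₀ (by norm_num) (by omega)))
      ((pow_le_pow_right₀ (by norm_num) (by omega)).trans par.hv)
      (one_le_pow₀ (by norm_num)) (fun a => α t a / C1) (fun b => β l b / C2) ?_ ?_ ?_ ?_
    · have e : (fun m : ℕ => ∑ x ∈ m.divisorsAntidiagonal, α t x.1 * β l x.2) =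
          (C1 * C2) • (fun m : ℕ => ∑ x ∈ m.divisorsAntidiagonal, α t x.1 / C1 * (β l x.2 / C2)) := by
        funext m
        rw [Pi.smul_apply, smul_eq_mul, Finset.mul_sum]
        refine Finset.sum_congr rfl (fun x _ => ?_)
        field_simp
      rw [e, map_smul_eq_mul, Real.norm_of_nonneg (mul_pos hC1p hC2p).le]
      exact mul_le_mul_of_nonneg_left h3 (mul_pos hC1p hC2p).le
    · intro a
      rw [abs_div, abs_of_pos hC1p]
      apply div_le_one_of_le₀ _ hC1p.le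
      show |if _ then _ else _| ≤ _
      split_ifs with h
      · exact hAb a ((Nat.one_le_two_pow).trans h.1) h.2.2
      · rw [abs_zero]
        exact hC1p.le
    · intro a
      rw [abs_div, abs_of_pos hC2p]
      apply div_le_one_of_le₀ _ hC2p.le
      show |if _ then _ else _| ≤ _
      split_ifs with h
      · exact hEb a ((Nat.one_le_two_pow).trans h.1) h.2.2
      · rw [abs_zero]
        exact hC2p.le
    · intro a ha
      have h4 : 2 ^ (s + t) ≤ a ∧ a < 2 ^ (s + t + 1) ∧ a ≤ N := by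
        by_contra h5
        apply ha
        show (if _ then _ else _) / C1 = 0
        rw [if_neg h5, zero_div]
      constructor
      · exact_mod_cast h4.1
      · have h5 : (a : ℝ) ≤ 2 ^ (s + t + 1) := by exact_mod_cast h4.2.1.le
        rw [pow_succ] at h5
        linarith
    · intro a ha
      have h4 : 2 ^ l ≤ a ∧ a < 2 ^ (l + 1) ∧ a ≤ N := by
        by_contra h5
        apply ha
        show (if _ then _ else _) / C2 = 0
        rw [if_neg h5, zero_div]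
      constructor
      · exact_mod_cast h4.1
      · have h5 : (a : ℝ) ≤ 2 ^ (l + 1) := by exact_mod_cast h4.2.1.le
        rw [pow_succ] at h5
        linarith
  rw [key]
  have hC : C1 * C2 ≤ V ^ (2 * r) := by
    rw [hC1, hC2, ← pow_add, Finset.card_add_card_compl, ← pow_two, ← pow_mul]
    exact pow_le_pow_right₀ par.hV (by omega)
  calc p (∑ t ∈ range (r + 1), ∑ l ∈ range L, fun m => ∑ x ∈ m.divisorsAntidiagonal, α t x.1 * β l x.2)
      ≤ ∑ t ∈ range (r + 1), p (∑ l ∈ range L, fun m => ∑ x ∈ m.divisorsAntidiagonal, α t x.1 * β l x.2) :=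
        Finset.le_sum_of_subadditive p (_root_.map_zero p).le (map_add_le_add p) _ _
    _ ≤ ∑ t ∈ range (r + 1), ∑ l ∈ range L, p (fun m => ∑ x ∈ m.divisorsAntidiagonal, α t x.1 * β l x.2) :=
        Finset.sum_le_sum (fun t _ => Finset.le_sum_of_subadditive p (_root_.map_zero p).le (map_add_le_add p) _ _)
    _ ≤ ∑ t ∈ range (r + 1), ∑ l ∈ range L, C1 * C2 * X :=
        Finset.sum_le_sum (fun t ht => Finset.sum_le_sum (fun l hl => hone t ht l hl))
    _ = ((r : ℝ) + 1) * L * (C1 * C2 * X) := by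
        rw [Finset.sum_const, Finset.sum_const, Finset.card_range, Finset.card_range, nsmul_eq_mul, nsmul_eq_mul]
        push_cast
        ring
    _ ≤ V * V * (V ^ (2 * r) * X) := by
        have h5 : (L : ℝ) ≤ V := by linarith [par.hVL]
        have h6 := par.hVr
        have h7 : C1 * C2 * X ≤ V ^ (2 * r) * X := mul_le_mul_of_nonneg_right hC hX
        refine mul_le_mul (mul_le_mul h6 h5 (Nat.cast_nonneg _) hV0.le) h7 ?_ (mul_pos hV0 hV0).le
        exact mul_nonneg (mul_pos hC1p hC2p).le hX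
    _ = V ^ (2 * r + 2) * X := by ring

end Pool.Agent.Lib.H81A
end
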