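import Mathlib

/-! Merged copies (to shorten the build) of Lib.H68T.Defs, Lib.H68T.VB, Lib.H68T.V2, Lib.H68T.V1. -/

-- from Lib.H68T.Defs
section

/-!
# Project H68T (MP_f686a1_nt): definitions

See `PROOF.md` in this folder. Everything is stated for three parameters: the level `Q`, the
length `X` (both natural numbers), related by `Reg K Q X`, and a constant `c > 0` with
`Good c Q` (no real zero of a real primitive character of conductor at most `Q` in
`[1 - c / log Q, 1]`).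
-/

open Finset

namespace Pool.Agent.Lib.H68T

noncomputable section

/-! ## The problem -/

/-- A finite set of non-negative integers is admissible if for every prime `p` some residue class
modulo `p` contains none of its elements. -/
def Admissible (A : Finset ℕ) : Prop :=
  ∀ p : ℕ, p.Prime → ∃ r : ZMod p, ∀ a ∈ A, (a : ZMod p) ≠ r


/-! ## Parameters -/

/-- The regime of the parameters: `(log X)^K ≤ Q` and `Q ≤ X^(1/(K log log X))`, `X` large. -/
def Reg (K : ℝ) (Q X : ℕ) : Prop :=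
  K ≤ Real.log (Real.log X) ∧ K * Real.log (Real.log X) ≤ Real.log Q ∧
    K * (Real.log Q * Real.log (Real.log X)) ≤ Real.log X

/-- `Q` is a good level: no real primitive character `ψ ≠ 1` of conductor at most `Q` has a real
zero in `[1 - c / log Q, 1]`. -/
def Good (c : ℝ) (Q : ℕ) : Prop :=
  ∀ (r : ℕ) [NeZero r] (ψ : DirichletCharacter ℂ r), r ≤ Q → ψ.IsPrimitive → ψ ≠ 1 →
    ψ ^ 2 = 1 → ∀ σ : ℝ, 1 - c / Real.log Q ≤ σ → σ ≤ 1 → ψ.LFunction (σ : ℂ) ≠ 0

/-! ## Additive side -/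

/-- `e x = exp (2 π i x)` -/
def e (x : ℝ) : ℂ := Complex.exp (2 * Real.pi * x * Complex.I)

/-- `lp m = log m` if `m` is a prime, and `0` otherwise. -/
def lp (m : ℤ) : ℝ := if m.toNat.Prime then Real.log m else 0

/-- Ramanujan's sum `c_q(m)`, by its divisor formula. -/
def cq (q : ℕ) (m : ℤ) : ℝ :=
  ∑ d ∈ q.divisors.filter (fun d : ℕ => (d : ℤ) ∣ m),
    (d : ℝ) * (ArithmeticFunction.moebius (q / d) : ℝ)

/-- The truncated Ramanujan expansion of the von Mangoldt function, the structured model. -/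
def G (Q : ℕ) (m : ℤ) : ℝ :=
  ∑ q ∈ Icc 1 Q, (ArithmeticFunction.moebius q : ℝ) / (Nat.totient q : ℝ) * cq q m

/-- The number of divisors of `m` in `[1, Q]`. -/
def dQ (Q : ℕ) (m : ℤ) : ℝ := (((Icc 1 Q).filter (fun d : ℕ => (d : ℤ) ∣ m)).card : ℝ)

/-- The tent of width `Y` and total mass `1` (for `Y ≥ 1`). -/
def tent (Y : ℕ) (z : ℤ) : ℝ := max 0 ((Y : ℝ) - |(z : ℝ)|) / (Y : ℝ) ^ 2

/-- The kernel of the projection: tent times the sum of the Ramanujan sums. -/
def kern (Q Y : ℕ) (z : ℤ) : ℝ := tent Y z * ∑ q ∈ Icc 1 Q, cq q z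

/-- The projection `lp * kern`. -/
def Lk (Q Y : ℕ) (m : ℤ) : ℝ := ∑ z ∈ Ioo (-(Y : ℤ)) Y, kern Q Y z * lp (m - z)

/-! ## Singular series factors -/

/-- `∏_{p ≤ P, p ∤ W} (1 + 1/(p-1)^2)` -/
def G0 (P W : ℕ) : ℝ :=
  ∏ p ∈ (Icc 1 P).filter (fun p => p.Prime ∧ ¬ p ∣ W), (1 + 1 / ((p : ℝ) - 1) ^ 2)

/-- `∏_{p ≤ P, p ∤ W, p ∣ d} (1 + 1/(p-1))` -/
def gp (P W : ℕ) (d : ℤ) : ℝ :=
  ∏ p ∈ (Icc 1 P).filter (fun p => p.Prime ∧ ¬ p ∣ W ∧ (p : ℤ) ∣ d), (1 + 1 / ((p : ℝ) - 1))


/-! ## Multiplicative side -/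

/-- The primitive characters of conductor between `1` and `Q`. -/
def PCset (Q : ℕ) : Set (Σ r : ℕ, DirichletCharacter ℂ r) :=
  {p | 1 ≤ p.1 ∧ p.1 ≤ Q ∧ p.2.IsPrimitive}

theorem PCset_finite (Q : ℕ) : (PCset Q).Finite := by
  have h : PCset Q ⊆ ⋃ r ∈ Set.Icc 1 Q, Sigma.mk r '' (Set.univ : Set (DirichletCharacter ℂ r)) := by
    intro p hp
    simp only [Set.mem_iUnion]
    exact ⟨p.1, ⟨hp.1, hp.2.1⟩, p.2, trivial, rfl⟩
  refine Set.Finite.subset (Set.Finite.biUnion (Set.finite_Icc 1 Q) fun r hr => ?_) h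
  have : NeZero r := ⟨by have := hr.1; omega⟩
  have : Finite (DirichletCharacter ℂ r) := inferInstance
  exact Set.Finite.image _ Set.finite_univ

/-- The primitive characters of conductor between `1` and `Q`, as a finite set. -/
def PC (Q : ℕ) : Finset (Σ r : ℕ, DirichletCharacter ℂ r) := (PCset_finite Q).toFinset

/-- The trivial character. -/
def p0 : Σ r : ℕ, DirichletCharacter ℂ r := ⟨1, 1⟩

theorem mem_PC {Q : ℕ} {p : Σ r : ℕ, DirichletCharacter ℂ r} :
    p ∈ PC Q ↔ 1 ≤ p.1 ∧ p.1 ≤ Q ∧ p.2.IsPrimitive := by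
  unfold PC
  rw [Set.Finite.mem_toFinset]
  rfl

theorem p0_mem {Q : ℕ} (hQ : 1 ≤ Q) : p0 ∈ PC Q :=
  mem_PC.mpr ⟨le_refl _, hQ, DirichletCharacter.isPrimitive_one_level_one⟩

/-- There are at most `Q^2` primitive characters of conductor at most `Q`. -/
theorem card_PC_le (Q : ℕ) : (PC Q).card ≤ Q ^ 2 := by
  have key : ∀ r ∈ Icc 1 Q, ((PC Q).filter (fun p => p.1 = r)).card ≤ Q := by
    intro r hr
    rw [mem_Icc] at hr
    have hne : NeZero r := ⟨by omega⟩
    have hfin : Fintype (DirichletCharacter ℂ r) := Fintype.ofFinite _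
    have h1 : ((PC Q).filter (fun p => p.1 = r)) ⊆
        (univ : Finset (DirichletCharacter ℂ r)).map (Function.Embedding.sigmaMk r) := by
      intro p hp
      rw [mem_filter] at hp
      obtain ⟨-, hp⟩ := hp
      obtain ⟨r', ψ⟩ := p
      subst hp
      simp
    refine (card_le_card h1).trans ?_
    rw [card_map, card_univ]
    have h2 := DirichletCharacter.card_eq_totient_of_hasEnoughRootsOfUnity ℂ r
    rw [Nat.card_eq_fintype_card] at h2
    rw [h2]
    exact (Nat.totient_le r).trans hr.2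
  have hmaps : Set.MapsTo (fun p : (Σ r : ℕ, DirichletCharacter ℂ r) => p.1) (PC Q : Set _)
      (Icc 1 Q : Set _) := by
    intro p hp
    have := mem_PC.mp hp
    rw [coe_Icc]
    exact ⟨this.1, this.2.1⟩
  have h := Finset.card_eq_sum_card_fiberwise hmaps
  rw [h]
  refine (Finset.sum_le_sum key).trans ?_
  rw [sum_const, Nat.card_Icc, smul_eq_mul]
  simp [pow_two]

/-- The coefficient of `ψ(n) conj ψ(m)` (`ψ` primitive of conductor `r`) in the expansion of
`∑_{q ≤ Q} c_q(n - m)`, `n` coprime to all `q ≤ Q`. -/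
def Gam (Q r : ℕ) (m : ℤ) : ℝ :=
  ∑ q ∈ (Icc 1 Q).filter (fun q => r ∣ q),
    ∑ d ∈ q.divisors.filter (fun d => r ∣ d ∧ IsCoprime (d : ℤ) m),
      (ArithmeticFunction.moebius (q / d) : ℝ) * ((d : ℝ) / (Nat.totient d : ℝ))

/-- The smooth bump: `1` on `[-1, 3]`, `0` outside `[-2, 4]`. -/
def w (y : ℝ) : ℝ := Real.smoothTransition (y + 2) * Real.smoothTransition (4 - y)

/-- The smooth weight: `1` on `[X/e, e^3 X]`, `0` outside `[X/e^2, e^4 X]`. -/
def v (X : ℕ) (m : ℕ) : ℝ := w (Real.log ((m : ℝ) / X))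

/-- The weighted Dirichlet polynomial of `h`. -/
def FF (X : ℕ) (h : ℕ → ℂ) (t : ℝ) : ℂ :=
  ∑ m ∈ Icc 1 (60 * X), h m * (v X m : ℂ) * (m : ℂ) ^ (-(1 + t * Complex.I))

/-- `F_ψ(t) = ∑ Λ(m) ψ(m) v(m) m^(-1-it)` -/
def FL (X : ℕ) (p : Σ r : ℕ, DirichletCharacter ℂ r) (t : ℝ) : ℂ :=
  FF X (fun m => (ArithmeticFunction.vonMangoldt m : ℂ) * p.2 (m : ZMod p.1)) t

/-- `F_0(t) = ∑ v(m) m^(-1-it)` -/
def F0 (X : ℕ) (t : ℝ) : ℂ := FF X (fun _ => 1) t

/-- Upper end of the Möbius factors. -/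
def VV (X : ℕ) : ℕ := ⌊((60 * X : ℕ) : ℝ) ^ ((1 : ℝ) / 3)⌋₊

/-- Lower end of the Möbius factors. -/
def AA (X : ℕ) : ℕ := ⌈(X : ℝ) ^ ((1 : ℝ) / 4)⌉₊


/-- The cutoff selecting the short smooth variables: `1` for `n ≤ Q^20`, `0` for `n ≥ e Q^20`. -/
def rho (Q : ℕ) (n : ℕ) : ℝ := 1 - Real.smoothTransition (Real.log ((n : ℝ) / (Q : ℝ) ^ 20))

/-- The long smooth sum `∑_n (1 - ρ(n)) (log n)^j ψ(n) v(a n) n^(-1-it)`. -/
def Long (Q X : ℕ) (p : Σ r : ℕ, DirichletCharacter ℂ r) (j a : ℕ) (t : ℝ) : ℂ :=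
  ∑ n ∈ Icc 1 (60 * X), (((1 - rho Q n) * Real.log n ^ j * v X (a * n) : ℝ) : ℂ) *
    p.2 (n : ZMod p.1) * (n : ℂ) ^ (-(1 + t * Complex.I))

/-- An arithmetic function given by a function (value `0` at `0`). -/
def af (f : ℕ → ℝ) : ArithmeticFunction ℝ := ⟨fun n => if n = 0 then 0 else f n, by simp⟩

/-- The main part of Heath-Brown's identity: three Möbius factors in `[A, V]`, three short smooth
variables. -/
def hmain (Q X : ℕ) : ArithmeticFunction ℝ :=
  (af (fun a => if AA X ≤ a ∧ a ≤ VV X then (ArithmeticFunction.moebius a : ℝ) else 0)) ^ 3 *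
    (af (rho Q)) ^ 2 * af (fun n => rho Q n * Real.log n)

/-- The rectangle in which `1/L` is controlled. -/
def Rg (c : ℝ) (Q : ℕ) : Set ℂ :=
  {s | 1 - c / Real.log Q ≤ s.re ∧ s.re ≤ 2 ∧ |s.im| ≤ (Q : ℝ) ^ 12}

end

end Pool.Agent.Lib.H68T
end

-- from Lib.H68T.VB
section

/-!
# Chunk VB: sums over geometric progressions (the block lemma)
-/

open Finset

namespace Pool.Agent.Lib.H68T

/-- Distance to the nearest integer. -/
noncomputable def nd (x : ℝ) : ℝ := |x - round x|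

theorem VB_e_add (x y : ℝ) : e (x + y) = e x * e y := by
  unfold e
  rw [← Complex.exp_add]
  congr 1
  push_cast
  ring

theorem VB_norm_e (x : ℝ) : ‖e x‖ = 1 := by
  unfold e
  have : (2 * Real.pi * x * Complex.I : ℂ) = ((2 * Real.pi * x : ℝ) : ℂ) * Complex.I := by
    push_cast
    ring
  rw [this, Complex.norm_exp_ofReal_mul_I]

theorem VB_e_int (n : ℤ) : e n = 1 := by
  unfold e
  rw [Complex.exp_eq_one_iff]
  refine ⟨n, ?_⟩
  push_cast
  ring

theorem VB_tele (a : ℤ) (ξ : ℝ) (n : ℕ) :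
    (e ξ - 1) * ∑ x ∈ Finset.Ico a (a + n), e (x * ξ) = e (((a + n : ℤ) : ℝ) * ξ) - e (a * ξ) := by
  induction n with
  | zero => simp
  | succ n ih =>
    have h1 : Finset.Ico a (a + ((n + 1 : ℕ) : ℤ)) = insert (a + n) (Finset.Ico a (a + n)) := by
      ext x
      simp only [Finset.mem_insert, Finset.mem_Ico]
      push_cast
      omega
    have h2 : (a + n : ℤ) ∉ Finset.Ico a (a + n) := by simp
    rw [h1, Finset.sum_insert h2, mul_add, ih]
    have h3 : e (((a + ((n + 1 : ℕ) : ℤ) : ℤ) : ℝ) * ξ) = e ξ * e (((a + n : ℤ) : ℝ) * ξ) := by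
      rw [← VB_e_add]
      congr 1
      push_cast
      ring
    rw [h3]
    ring

theorem VB_four_nd_le (ξ : ℝ) : 4 * nd ξ ≤ ‖e ξ - 1‖ := by
  have h1 : e ξ = e (ξ - round ξ) := by
    have h : ξ = (ξ - round ξ) + (round ξ : ℤ) := by ring
    conv_lhs => rw [h, VB_e_add, VB_e_int, mul_one]
  rw [h1]
  set t : ℝ := ξ - round ξ with ht
  have htn : nd ξ = |t| := rfl
  have ht2 : |t| ≤ 1 / 2 := abs_sub_round ξ
  have h2 : e t = Complex.exp (Complex.I * ((2 * Real.pi * t : ℝ) : ℂ)) := by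
    unfold e
    congr 1
    push_cast
    ring
  rw [h2, Complex.norm_exp_I_mul_ofReal_sub_one, htn]
  have h3 : |2 * Real.pi * t / 2| ≤ Real.pi / 2 := by
    have : 2 * Real.pi * t / 2 = Real.pi * t := by ring
    rw [this, abs_mul, abs_of_pos Real.pi_pos]
    nlinarith [Real.pi_pos]
  have h4 := Real.mul_abs_le_abs_sin h3
  have h5 : 2 / Real.pi * |2 * Real.pi * t / 2| = 2 * |t| := by
    have : 2 * Real.pi * t / 2 = Real.pi * t := by ring
    rw [this, abs_mul, abs_of_pos Real.pi_pos]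
    field_simp
  rw [h5] at h4
  rw [norm_mul, Real.norm_eq_abs, Real.norm_eq_abs, abs_of_pos (by norm_num : (0 : ℝ) < 2)]
  linarith

/-- `|∑_{n ∈ [u,v)} e(nα)| ≤ min (v - u, 1/(2‖α‖))`. (See also `H18GB.Vl.geo`.) -/
theorem geo_le (u v : ℤ) (huv : u ≤ v) (α : ℝ) :
    ‖∑ n ∈ Ico u v, e (n * α)‖ ≤ v - u ∧ ‖∑ n ∈ Ico u v, e (n * α)‖ * (2 * nd α) ≤ 1 := by
  constructor
  · refine (norm_sum_le _ _).trans ?_
    simp_rw [VB_norm_e]
    rw [sum_const, Int.card_Ico, nsmul_eq_mul, mul_one]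
    have : (((v - u).toNat : ℤ) : ℝ) = ((v - u : ℤ) : ℝ) := by
      rw [Int.toNat_of_nonneg (by omega)]
    push_cast at this
    rw [this]
  · obtain ⟨n, rfl⟩ : ∃ n : ℕ, v = u + n := ⟨(v - u).toNat, by omega⟩
    have h1 := congrArg norm (VB_tele u α n)
    rw [norm_mul] at h1
    have h2 : ‖e (((u + n : ℤ) : ℝ) * α) - e (u * α)‖ ≤ 2 := by
      refine (norm_sub_le _ _).trans ?_
      rw [VB_norm_e, VB_norm_e]
      norm_num
    have h3 := VB_four_nd_le α
    have h4 : 4 * nd α * ‖∑ x ∈ Finset.Ico u (u + n), e (x * α)‖ ≤ 2 := by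
      calc 4 * nd α * ‖∑ x ∈ Finset.Ico u (u + n), e (x * α)‖
          ≤ ‖e α - 1‖ * ‖∑ x ∈ Finset.Ico u (u + n), e (x * α)‖ := by gcongr
        _ ≤ 2 := by rw [h1]; exact h2
    linarith

/-- the cell of `x` modulo `1` in the partition into `q` intervals -/
noncomputable def VB_cell (q : ℕ) (x : ℝ) : ℤ := ⌊(q : ℝ) * Int.fract x⌋

theorem VB_cell_mem {q : ℕ} (hq : 1 ≤ q) (x : ℝ) : 0 ≤ VB_cell q x ∧ VB_cell q x < q := by
  have hq' : (0 : ℝ) < q := by exact_mod_cast hq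
  constructor
  · exact Int.floor_nonneg.mpr (mul_nonneg hq'.le (Int.fract_nonneg x))
  · unfold VB_cell
    rw [Int.floor_lt]
    push_cast
    nlinarith [Int.fract_lt_one x]

/-- At most three of `q` consecutive multiples of `θ` fall in one cell. -/
theorem VB_fiber {θ : ℝ} {q : ℕ} {a : ℤ} (hq : 1 ≤ q) (hco : IsCoprime a (q : ℤ))
    (hθ : |θ - a / q| ≤ 1 / (q : ℝ) ^ 2) (n0 : ℤ) (k : ℤ) :
    ((Ico n0 (n0 + q)).filter (fun n : ℤ => VB_cell q (n * θ) = k)).card ≤ 3 := by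
  have hq' : (0 : ℝ) < q := by exact_mod_cast hq
  rcases ((Ico n0 (n0 + q)).filter (fun n : ℤ => VB_cell q (n * θ) = k)).eq_empty_or_nonempty with
    h0 | ⟨r', hr'⟩
  · rw [h0]; simp
  rw [mem_filter, mem_Ico] at hr'
  obtain ⟨⟨hr1, hr2⟩, hr3⟩ := hr'
  set t : ℤ → ℤ := fun r => (r - r') * a - q * (⌊(r : ℝ) * θ⌋ - ⌊(r' : ℝ) * θ⌋) with ht
  have hmem : ∀ r ∈ (Ico n0 (n0 + q)).filter (fun n : ℤ => VB_cell q (n * θ) = k),
      t r ∈ Icc (-1 : ℤ) 1 := by
    intro r hr
    rw [mem_filter, mem_Ico] at hr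
    obtain ⟨⟨h1, h2⟩, h3⟩ := hr
    have hcell : VB_cell q (r * θ) = VB_cell q (r' * θ) := by rw [h3, hr3]
    have hab : |(q : ℝ) * Int.fract ((r : ℝ) * θ) - (q : ℝ) * Int.fract ((r' : ℝ) * θ)| < 1 :=
      Int.abs_sub_lt_one_of_floor_eq_floor hcell
    have hrr : |((r : ℝ) - r')| ≤ q - 1 := by
      rw [abs_le]
      have e1 : (r : ℝ) ≤ n0 + q - 1 := by
        have : r ≤ n0 + q - 1 := by omega
        exact_mod_cast this
      have e2 : (n0 : ℝ) ≤ r := by exact_mod_cast h1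
      have e3 : (r' : ℝ) ≤ n0 + q - 1 := by
        have : r' ≤ n0 + q - 1 := by omega
        exact_mod_cast this
      have e4 : (n0 : ℝ) ≤ r' := by exact_mod_cast hr1
      constructor <;> linarith
    have hkey : |(t r : ℝ)| < 2 := by
      have e1 : (t r : ℝ) = ((q : ℝ) * Int.fract ((r : ℝ) * θ) - (q : ℝ) * Int.fract ((r' : ℝ) * θ)) -
          ((r : ℝ) - r') * (q * (θ - a / q)) := by
        rw [ht]
        have f1 : Int.fract ((r : ℝ) * θ) = r * θ - ⌊(r : ℝ) * θ⌋ := rfl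
        have f2 : Int.fract ((r' : ℝ) * θ) = r' * θ - ⌊(r' : ℝ) * θ⌋ := rfl
        rw [f1, f2]
        push_cast
        field_simp
        ring
      have e2 : |((r : ℝ) - r') * (q * (θ - a / q))| ≤ (q - 1) * (1 / q) := by
        rw [abs_mul, abs_mul, abs_of_pos hq']
        have : (q : ℝ) * |θ - a / q| ≤ 1 / q := by
          calc (q : ℝ) * |θ - a / q| ≤ q * (1 / (q : ℝ) ^ 2) :=
                mul_le_mul_of_nonneg_left hθ hq'.le
            _ = 1 / q := by field_simp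
        exact mul_le_mul hrr this (by positivity) (le_trans (abs_nonneg _) hrr)
      have e3 : ((q : ℝ) - 1) * (1 / q) < 1 := by
        rw [mul_one_div, div_lt_one hq']
        linarith
      rw [e1]
      calc _ ≤ |(q : ℝ) * Int.fract ((r : ℝ) * θ) - (q : ℝ) * Int.fract ((r' : ℝ) * θ)| +
            |((r : ℝ) - r') * (q * (θ - a / q))| := abs_sub _ _
        _ < 2 := by linarith
    rw [abs_lt] at hkey
    have h4 : (-2 : ℤ) < t r := by exact_mod_cast hkey.1
    have h5 : t r < (2 : ℤ) := by exact_mod_cast hkey.2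
    rw [mem_Icc]
    omega
  have hinj : Set.InjOn t ((Ico n0 (n0 + q)).filter (fun n : ℤ => VB_cell q (n * θ) = k) : Set ℤ) := by
    intro r1 h1 r2 h2 h12
    rw [coe_filter, Set.mem_setOf_eq, mem_Ico] at h1 h2
    have h3 : (q : ℤ) ∣ (r1 - r2) * a := by
      refine ⟨(⌊(r1 : ℝ) * θ⌋ - ⌊(r' : ℝ) * θ⌋) - (⌊(r2 : ℝ) * θ⌋ - ⌊(r' : ℝ) * θ⌋), ?_⟩
      have h12' : (r1 - r') * a - q * (⌊(r1 : ℝ) * θ⌋ - ⌊(r' : ℝ) * θ⌋) =
        (r2 - r') * a - q * (⌊(r2 : ℝ) * θ⌋ - ⌊(r' : ℝ) * θ⌋) := h12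
      linear_combination h12'
    have h4 : (q : ℤ) ∣ (r1 - r2) := (hco.symm).dvd_of_dvd_mul_right h3
    have h5 : |r1 - r2| < q := by
      rw [abs_lt]
      omega
    have h6 := Int.eq_zero_of_abs_lt_dvd h4 h5
    omega
  have := card_le_card_of_injOn t hmem hinj
  simpa using this

/-- The weight of the block lemma. -/
noncomputable def VB_f (B x : ℝ) : ℝ := if nd x = 0 then B else min B (1 / (2 * nd x))

theorem VB_nd_nonneg (x : ℝ) : 0 ≤ nd x := abs_nonneg _

theorem VB_f_nonneg {B : ℝ} (hB : 0 ≤ B) (x : ℝ) : 0 ≤ VB_f B x := by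
  unfold VB_f
  split_ifs
  · exact hB
  · exact le_min hB (by have := VB_nd_nonneg x; positivity)

theorem VB_f_le {B : ℝ} (x : ℝ) : VB_f B x ≤ B := by
  unfold VB_f
  split_ifs
  · exact le_rfl
  · exact min_le_left _ _

/-- distance to the nearest integer in terms of the fractional part -/
theorem VB_nd_eq (x : ℝ) : nd x = min (Int.fract x) (1 - Int.fract x) := by
  unfold nd
  exact abs_sub_round_eq_min x

theorem VB_nd_ge {q : ℕ} (hq : 1 ≤ q) (x : ℝ) (j : ℝ) (h1 : j ≤ VB_cell q x)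
    (h2 : j ≤ q - 1 - VB_cell q x) : j / q ≤ nd x := by
  have hq' : (0 : ℝ) < q := by exact_mod_cast hq
  rw [VB_nd_eq, div_le_iff₀ hq']
  have h3 : (VB_cell q x : ℝ) ≤ (q : ℝ) * Int.fract x := Int.floor_le _
  have h4 : (q : ℝ) * Int.fract x < VB_cell q x + 1 := Int.lt_floor_add_one _
  rcases le_total (Int.fract x) (1 - Int.fract x) with h | h
  · rw [min_eq_left h]; linarith
  · rw [min_eq_right h]; nlinarith

/-- the bound of the weight in a cell -/
noncomputable def VB_g (q : ℕ) (B : ℝ) (k : ℤ) : ℝ :=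
  (if k = 0 then B else (q : ℝ) / (2 * k)) + (if k = q - 1 then B else (q : ℝ) / (2 * (q - 1 - k)))

theorem VB_f_le_g {q : ℕ} (hq : 1 ≤ q) {B : ℝ} (hB : 0 ≤ B) (x : ℝ) :
    VB_f B x ≤ VB_g q B (VB_cell q x) := by
  have hq' : (0 : ℝ) < q := by exact_mod_cast hq
  obtain ⟨h1, h2⟩ := VB_cell_mem hq x
  set k := VB_cell q x with hk
  have hk0 : (0 : ℝ) ≤ k := by exact_mod_cast h1
  have hk1 : (k : ℝ) ≤ q - 1 := by
    have : k ≤ (q : ℤ) - 1 := by omega
    exact_mod_cast this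
  have n1 : 0 ≤ (if k = 0 then B else (q : ℝ) / (2 * k)) := by
    split_ifs
    · exact hB
    · positivity
  have n2 : 0 ≤ (if k = q - 1 then B else (q : ℝ) / (2 * (q - 1 - k))) := by
    split_ifs
    · exact hB
    · exact div_nonneg hq'.le (by linarith)
  unfold VB_g
  by_cases hk00 : k = 0
  · rw [if_pos hk00]
    rw [hk00] at n2 ⊢
    linarith [VB_f_le (B := B) x]
  by_cases hk11 : k = q - 1
  · rw [if_pos hk11]
    linarith [VB_f_le (B := B) x]
  rw [if_neg hk00, if_neg hk11]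
  rw [if_neg hk00] at n1
  rw [if_neg hk11] at n2
  have hk0' : (1 : ℝ) ≤ k := by
    have : (1 : ℤ) ≤ k := by omega
    exact_mod_cast this
  have hk1' : (1 : ℝ) ≤ q - 1 - k := by
    have : (1 : ℤ) ≤ (q : ℤ) - 1 - k := by omega
    exact_mod_cast this
  rcases le_total (k : ℝ) (q - 1 - k) with h | h
  · have h3 := VB_nd_ge hq x k le_rfl h
    have hpos : 0 < nd x := lt_of_lt_of_le (by positivity) h3
    have h4 : VB_f B x ≤ 1 / (2 * nd x) := by
      unfold VB_f
      rw [if_neg hpos.ne']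
      exact min_le_right _ _
    have h5 : 1 / (2 * nd x) ≤ q / (2 * k) := by
      rw [div_le_div_iff₀ (by positivity) (by positivity)]
      rw [div_le_iff₀ hq'] at h3
      linarith
    linarith
  · have h3 := VB_nd_ge hq x (q - 1 - k) h le_rfl
    have hpos : 0 < nd x := lt_of_lt_of_le (by positivity) h3
    have h4 : VB_f B x ≤ 1 / (2 * nd x) := by
      unfold VB_f
      rw [if_neg hpos.ne']
      exact min_le_right _ _
    have h5 : 1 / (2 * nd x) ≤ q / (2 * (q - 1 - k)) := by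
      rw [div_le_div_iff₀ (by positivity) (by positivity)]
      rw [div_le_iff₀ hq'] at h3
      linarith
    linarith

theorem VB_harm (q : ℕ) (hq : 1 ≤ q) : ∑ k ∈ range q, (1 / (k : ℝ)) ≤ 1 + Real.log q := by
  obtain ⟨m, rfl⟩ : ∃ m, q = m + 1 := ⟨q - 1, by omega⟩
  rw [Finset.sum_range_succ']
  simp only [Nat.cast_add, Nat.cast_one, Nat.cast_zero, div_zero, add_zero]
  have h := harmonic_le_one_add_log m
  have h1 : ((harmonic m : ℚ) : ℝ) = ∑ k ∈ range m, (1 / ((k : ℝ) + 1)) := by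
    unfold harmonic
    push_cast
    exact Finset.sum_congr rfl fun i _ => by rw [one_div]
  rw [h1] at h
  refine h.trans ?_
  have : Real.log m ≤ Real.log ((m : ℝ) + 1) := by
    rcases Nat.eq_zero_or_pos m with h0 | h0
    · rw [h0]; simp
    · exact Real.log_le_log (by exact_mod_cast h0) (by linarith)
  linarith

theorem VB_g_sum {q : ℕ} (hq : 1 ≤ q) {B : ℝ} (hB : 0 ≤ B) :
    ∑ k ∈ range q, VB_g q B k ≤ 2 * B + q * (1 + Real.log q) := by
  have hq' : (0 : ℝ) < q := by exact_mod_cast hq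
  have hH := VB_harm q hq
  unfold VB_g
  rw [Finset.sum_add_distrib]
  have h1 : ∑ k ∈ range q, (if ((k : ℕ) : ℤ) = 0 then B else (q : ℝ) / (2 * ((k : ℤ) : ℝ))) ≤
      B + q / 2 * ∑ k ∈ range q, (1 / (k : ℝ)) := by
    rw [Finset.mul_sum]
    have : B = ∑ k ∈ range q, (if k = 0 then B else 0) := by
      rw [Finset.sum_ite_eq' (range q) 0 (fun _ => B), if_pos (mem_range.mpr (by omega))]
    conv_rhs => rw [this]
    rw [← Finset.sum_add_distrib]
    refine Finset.sum_le_sum fun k _ => ?_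
    by_cases hk : k = 0
    · subst hk; simp
    · rw [if_neg (by exact_mod_cast hk), if_neg hk]
      have : (k : ℝ) ≠ 0 := by exact_mod_cast hk
      refine le_of_eq ?_
      push_cast
      field_simp
      ring
  have h2 : ∑ k ∈ range q, (if ((k : ℕ) : ℤ) = q - 1 then B else
      (q : ℝ) / (2 * ((q : ℝ) - 1 - ((k : ℤ) : ℝ)))) ≤ B + q / 2 * ∑ k ∈ range q, (1 / (k : ℝ)) := by
    refine le_trans (le_of_eq ?_) h1
    rw [← Finset.sum_range_reflect]
    refine Finset.sum_congr rfl fun k hk => ?_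
    rw [mem_range] at hk
    have e1 : (((q - 1 - k : ℕ) : ℤ)) = (q : ℤ) - 1 - k := by omega
    rw [e1]
    by_cases hk0 : k = 0
    · subst hk0
      rw [if_pos (by push_cast; ring), if_pos (by simp)]
    · rw [if_neg (by omega), if_neg (by exact_mod_cast hk0)]
      congr 1
      push_cast
      ring
  have := add_le_add h1 h2
  nlinarith

/-- One block of the block lemma. -/
theorem VB_one {θ : ℝ} {q : ℕ} {a : ℤ} (hq : 1 ≤ q) (hco : IsCoprime a (q : ℤ))
    (hθ : |θ - a / q| ≤ 1 / (q : ℝ) ^ 2) (n0 : ℤ) {B : ℝ} (hB : 0 ≤ B) :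
    ∑ n ∈ Ico n0 (n0 + q), VB_f B (n * θ) ≤ 6 * B + 3 * q * (1 + Real.log q) := by
  have hq' : (0 : ℝ) < q := by exact_mod_cast hq
  have h1 : ∑ n ∈ Ico n0 (n0 + q), VB_f B (n * θ) ≤
      ∑ n ∈ Ico n0 (n0 + q), VB_g q B (VB_cell q (n * θ)) :=
    Finset.sum_le_sum fun n _ => VB_f_le_g hq hB _
  refine h1.trans ?_
  have hmaps : ∀ n ∈ Ico n0 (n0 + q), (VB_cell q (n * θ)).toNat ∈ range q := by
    intro n _
    obtain ⟨h2, h3⟩ := VB_cell_mem hq ((n : ℝ) * θ)
    rw [mem_range]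
    omega
  rw [← Finset.sum_fiberwise_of_maps_to hmaps]
  have hg0 : ∀ k ∈ range q, 0 ≤ VB_g q B k := by
    intro k hk
    rw [mem_range] at hk
    unfold VB_g
    have hk1 : (k : ℝ) ≤ q - 1 := by
      have : (k : ℤ) ≤ (q : ℤ) - 1 := by omega
      exact_mod_cast this
    refine add_nonneg ?_ ?_
    · split_ifs
      · exact hB
      · positivity
    · split_ifs
      · exact hB
      · refine div_nonneg hq'.le ?_
        push_cast
        linarith
  have h4 : ∀ k ∈ range q, ∑ n ∈ (Ico n0 (n0 + q)).filter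
      (fun n : ℤ => (VB_cell q ((n : ℝ) * θ)).toNat = k), VB_g q B (VB_cell q (n * θ)) ≤
      3 * VB_g q B k := by
    intro k hk
    have hsub : (Ico n0 (n0 + q)).filter (fun n : ℤ => (VB_cell q ((n : ℝ) * θ)).toNat = k) =
        (Ico n0 (n0 + q)).filter (fun n : ℤ => VB_cell q (n * θ) = k) := by
      refine Finset.filter_congr fun n _ => ?_
      obtain ⟨h2, h3⟩ := VB_cell_mem hq ((n : ℝ) * θ)
      omega
    rw [hsub]
    have h5 : ∑ n ∈ (Ico n0 (n0 + q)).filter (fun n : ℤ => VB_cell q (n * θ) = k),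
        VB_g q B (VB_cell q (n * θ)) =
        ∑ n ∈ (Ico n0 (n0 + q)).filter (fun n : ℤ => VB_cell q (n * θ) = k), VB_g q B k := by
      refine Finset.sum_congr rfl fun n hn => ?_
      rw [(mem_filter.mp hn).2]
    rw [h5, Finset.sum_const, nsmul_eq_mul]
    refine mul_le_mul_of_nonneg_right ?_ (hg0 k hk)
    exact_mod_cast VB_fiber hq hco hθ n0 k
  refine (Finset.sum_le_sum h4).trans ?_
  rw [← Finset.mul_sum]
  have := VB_g_sum hq hB
  nlinarith

theorem VB_one_add_log_le {q : ℕ} (hq : 1 ≤ q) : 1 + Real.log q ≤ 2 * Real.log (2 * q) := by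
  have hq' : (1 : ℝ) ≤ q := by exact_mod_cast hq
  have h1 : 0 ≤ Real.log q := Real.log_nonneg hq'
  rw [Real.log_mul (by norm_num) (by positivity)]
  have h2 := Real.log_two_gt_d9
  linarith

/-- **Block lemma.** `∑_{n ∈ [u, u + A)} min (B, 1/(2‖nθ‖)) ≤ C (A/q + 1) (B + q log(2q))`.
Split into blocks of `q` consecutive `n`; in a block `nθ = n₀θ + j a/q + O(1/q)`, so at most
a bounded number of `n` have `‖nθ‖` in each interval `[i/q, (i+1)/q]`. (`1/0 = 0` in the ratio
is why we write `min B (1/(2 nd))` only for `nd ≠ 0`.) -/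
theorem block : ∃ C : ℝ, 0 < C ∧ ∀ (θ : ℝ) (q : ℕ) (a : ℤ), 1 ≤ q → IsCoprime a (q : ℤ) →
    |θ - a / q| ≤ 1 / (q : ℝ) ^ 2 → ∀ (u : ℤ) (A : ℕ) (B : ℝ), 1 ≤ B →
    ∑ n ∈ Ico u (u + A), (if nd (n * θ) = 0 then B else min B (1 / (2 * nd (n * θ)))) ≤
      C * ((A : ℝ) / q + 1) * (B + q * Real.log (2 * q)) := by
  refine ⟨6, by norm_num, ?_⟩
  intro θ q a hq hco hθ u A B hB
  have hq' : (0 : ℝ) < q := by exact_mod_cast hq
  have hB0 : 0 ≤ B := by linarith
  change ∑ n ∈ Ico u (u + A), VB_f B (n * θ) ≤ _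
  have hlog : 0 ≤ Real.log (2 * q) := Real.log_nonneg (by
    have : (1 : ℝ) ≤ q := by exact_mod_cast hq
    linarith)
  -- sum over `m` blocks
  have hblocks : ∀ m : ℕ, ∑ n ∈ Ico u (u + (m * q : ℕ)), VB_f B (n * θ) ≤
      m * (6 * B + 3 * q * (1 + Real.log q)) := by
    intro m
    induction m with
    | zero => simp
    | succ m ih =>
      have hsplit : Ico u (u + ((m + 1) * q : ℕ)) =
          Ico u (u + (m * q : ℕ)) ∪ Ico (u + (m * q : ℕ)) (u + (m * q : ℕ) + q) := by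
        ext x
        simp only [mem_union, mem_Ico]
        push_cast
        constructor
        · intro h
          by_cases hx : x < u + m * q
          · left; exact ⟨h.1, hx⟩
          · right
            refine ⟨by omega, ?_⟩
            have := h.2
            nlinarith
        · rintro (h | h)
          · refine ⟨h.1, ?_⟩
            have := h.2
            nlinarith
          · refine ⟨?_, ?_⟩
            · have := h.1
              have : (0 : ℤ) ≤ m * q := by positivity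
              omega
            · have := h.2
              nlinarith
      rw [hsplit]
      have h2 := VB_one hq hco hθ (u + (m * q : ℕ)) hB0
      have h3 : ∑ n ∈ Ico u (u + (m * q : ℕ)) ∪ Ico (u + (m * q : ℕ)) (u + (m * q : ℕ) + q),
          VB_f B (n * θ) ≤ ∑ n ∈ Ico u (u + (m * q : ℕ)), VB_f B (n * θ) +
          ∑ n ∈ Ico (u + (m * q : ℕ)) (u + (m * q : ℕ) + q), VB_f B (n * θ) := by
        rw [Finset.sum_union]
        rw [Finset.disjoint_left]
        intro x hx hx'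
        rw [mem_Ico] at hx hx'
        omega
      push_cast
      push_cast at h3 h2 ih
      linarith
  have hsub : Ico u (u + A) ⊆ Ico u (u + ((A / q + 1) * q : ℕ)) := by
    refine Finset.Ico_subset_Ico_right ?_
    have h1 : A < (A / q + 1) * q := by
      have := Nat.div_add_mod A q
      have h2 := Nat.mod_lt A hq
      nlinarith
    have h2 : (A : ℤ) ≤ (((A / q + 1) * q : ℕ) : ℤ) := by exact_mod_cast h1.le
    linarith
  have h1 := Finset.sum_le_sum_of_subset_of_nonneg hsub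
    (fun n _ _ => VB_f_nonneg hB0 ((n : ℝ) * θ))
  refine h1.trans ((hblocks (A / q + 1)).trans ?_)
  have h2 : (((A / q + 1 : ℕ)) : ℝ) ≤ (A : ℝ) / q + 1 := by
    push_cast
    have : ((A / q : ℕ) : ℝ) ≤ (A : ℝ) / q := Nat.cast_div_le
    linarith
  have h3 : 6 * B + 3 * q * (1 + Real.log q) ≤ 6 * (B + q * Real.log (2 * q)) := by
    have := VB_one_add_log_le hq
    nlinarith
  have h4 : 0 ≤ 6 * (B + q * Real.log (2 * q)) := by positivity
  calc (((A / q + 1 : ℕ)) : ℝ) * (6 * B + 3 * q * (1 + Real.log q))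
      ≤ (((A / q + 1 : ℕ)) : ℝ) * (6 * (B + q * Real.log (2 * q))) :=
        mul_le_mul_of_nonneg_left h3 (by positivity)
    _ ≤ ((A : ℝ) / q + 1) * (6 * (B + q * Real.log (2 * q))) :=
        mul_le_mul_of_nonneg_right h2 h4
    _ = _ := by ring

end Pool.Agent.Lib.H68T
end

-- from Lib.H68T.V2
section

/-!
# Chunk V2: type II sums
-/

open Finset

namespace Pool.Agent.Lib.H68T

theorem V2_interval {B : ℕ} (S : Finset ℕ) (hS : ∀ x ∈ S, ∀ z ∈ S, ∀ y, x ≤ y → y ≤ z → y ∈ S)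
    (hB : S ⊆ Icc 1 B) (θ : ℝ) : ‖∑ y ∈ S, e (y * θ)‖ ≤ VB_f B θ := by
  rcases S.eq_empty_or_nonempty with rfl | hne
  · simp only [sum_empty, norm_zero]
    exact VB_f_nonneg (by positivity) _
  set m := S.min' hne with hm
  set M := S.max' hne with hM
  have hmM : m ≤ M := S.min'_le_max' hne
  have hSeq : ∑ y ∈ S, e (y * θ) = ∑ n ∈ Ico (m : ℤ) (M + 1 : ℤ), e (n * θ) := by
    refine Finset.sum_bij (fun y _ => (y : ℤ)) ?_ ?_ ?_ ?_
    · intro y hy
      rw [mem_Ico]
      have h1 := S.min'_le y hy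
      have h2 := S.le_max' y hy
      rw [← hm] at h1
      rw [← hM] at h2
      omega
    · intro y _ z _ h
      exact_mod_cast h
    · intro n hn
      rw [mem_Ico] at hn
      refine ⟨n.toNat, ?_, ?_⟩
      · exact hS m (S.min'_mem hne) M (S.max'_mem hne) _ (by omega) (by omega)
      · omega
    · intro y _
      push_cast
      rfl
  rw [hSeq]
  obtain ⟨h1, h2⟩ := geo_le (m : ℤ) (M + 1 : ℤ) (by omega) θ
  have h3 : ((M + 1 : ℤ) : ℝ) - ((m : ℤ) : ℝ) ≤ B := by
    have e1 := hB (S.min'_mem hne)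
    have e2 := hB (S.max'_mem hne)
    rw [mem_Icc] at e1 e2
    rw [← hm] at e1
    rw [← hM] at e2
    have e3 : ((m : ℕ) : ℝ) ≥ 1 := by exact_mod_cast e1.1
    have e4 : ((M : ℕ) : ℝ) ≤ B := by exact_mod_cast e2.2
    push_cast
    linarith
  unfold VB_f
  split_ifs with h0
  · exact h1.trans h3
  · refine le_min (h1.trans h3) ?_
    have hpos : 0 < nd θ := lt_of_le_of_ne (VB_nd_nonneg θ) (Ne.symm h0)
    rw [le_div_iff₀ (by positivity)]
    exact h2

/-- **Type II**, one dyadic block `a ∈ [A, 2A)`, `b ≤ B`, `u ≤ a b < v`. Cauchy-Schwarz over `b`: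
`|T|² ≤ ∑_b |β_b|² ∑_{b ≤ B} |∑_a α_a e(abθ)|²`, open the square: for each pair `a, a'` the sum
over `b` runs over an interval of length at most `B`, hence is at most
`min (B, 1/(2‖(a-a')θ‖))`; `∑_{|h| < A}` by `block`. -/
theorem type_two : ∃ C : ℝ, 0 < C ∧ ∀ (θ : ℝ) (q : ℕ) (a : ℤ), 1 ≤ q → IsCoprime a (q : ℤ) →
    |θ - a / q| ≤ 1 / (q : ℝ) ^ 2 → ∀ (A B u v : ℕ), 1 ≤ A → 1 ≤ B → ∀ (α β : ℕ → ℂ),
    (∀ n, ‖α n‖ ≤ 1) →
    ‖∑ x ∈ Ico A (2 * A), ∑ y ∈ (Icc 1 B).filter (fun y => u ≤ x * y ∧ x * y < v),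
      α x * β y * e (x * y * θ)‖ ^ 2 ≤
      C * A * ((A : ℝ) / q + 1) * (B + q * Real.log (2 * q)) * ∑ y ∈ Icc 1 B, ‖β y‖ ^ 2 := by
  obtain ⟨C, hC, hblock⟩ := block
  refine ⟨C, hC, ?_⟩
  intro θ q a hq hco hθ A B u v hA hB α β hα
  set g : ℕ → ℂ := fun y => ∑ x ∈ (Ico A (2 * A)).filter (fun x => u ≤ x * y ∧ x * y < v),
    α x * e (x * y * θ) with hg
  have hT : ∑ x ∈ Ico A (2 * A), ∑ y ∈ (Icc 1 B).filter (fun y => u ≤ x * y ∧ x * y < v),
      α x * β y * e (x * y * θ) = ∑ y ∈ Icc 1 B, β y * g y := by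
    simp_rw [Finset.sum_filter]
    rw [Finset.sum_comm]
    refine Finset.sum_congr rfl fun y _ => ?_
    rw [hg]
    simp only
    rw [Finset.sum_filter, Finset.mul_sum]
    refine Finset.sum_congr rfl fun x _ => ?_
    split_ifs
    · ring
    · simp
  rw [hT]
  have hCS : ‖∑ y ∈ Icc 1 B, β y * g y‖ ^ 2 ≤ (∑ y ∈ Icc 1 B, ‖β y‖ ^ 2) *
      ∑ y ∈ Icc 1 B, ‖g y‖ ^ 2 := by
    have h1 : ‖∑ y ∈ Icc 1 B, β y * g y‖ ≤ ∑ y ∈ Icc 1 B, ‖β y‖ * ‖g y‖ := by
      refine (norm_sum_le _ _).trans (le_of_eq ?_)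
      simp_rw [norm_mul]
    refine (pow_le_pow_left₀ (norm_nonneg _) h1 2).trans ?_
    exact Finset.sum_mul_sq_le_sq_mul_sq _ _ _
  refine hCS.trans ?_
  have hsum : ∑ y ∈ Icc 1 B, ‖g y‖ ^ 2 ≤ A * (C * ((A : ℝ) / q + 1) * (B + q * Real.log (2 * q))) := by
    -- open the square
    have h1 : ((∑ y ∈ Icc 1 B, ‖g y‖ ^ 2 : ℝ) : ℂ) = ∑ x' ∈ Ico A (2 * A), ∑ x ∈ Ico A (2 * A),
        (α x * (starRingEnd ℂ) (α x')) * ∑ y ∈ (Icc 1 B).filter (fun y => (u ≤ x * y ∧ x * y < v) ∧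
          (u ≤ x' * y ∧ x' * y < v)), e (y * (((x : ℝ) - x') * θ)) := by
      push_cast
      have h2 : ∀ y ∈ Icc 1 B, ((‖g y‖ : ℂ)) ^ 2 = ∑ x' ∈ Ico A (2 * A), ∑ x ∈ Ico A (2 * A),
          if (u ≤ x * y ∧ x * y < v) ∧ (u ≤ x' * y ∧ x' * y < v) then
            (α x * (starRingEnd ℂ) (α x')) * e (y * (((x : ℝ) - x') * θ)) else 0 := by
        intro y _
        rw [← Complex.mul_conj']
        rw [hg]
        simp only
        rw [map_sum, Finset.sum_mul_sum, Finset.sum_comm, Finset.sum_filter]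
        refine Finset.sum_congr rfl fun x' _ => ?_
        by_cases hx' : u ≤ x' * y ∧ x' * y < v
        · rw [if_pos hx', Finset.sum_filter]
          refine Finset.sum_congr rfl fun x _ => ?_
          by_cases hx : u ≤ x * y ∧ x * y < v
          · rw [if_pos hx, if_pos ⟨hx, hx'⟩]
            rw [map_mul]
            have hconj : (starRingEnd ℂ) (e (x' * y * θ)) = e (-(x' * y * θ)) := by
              unfold e
              rw [← Complex.exp_conj]
              congr 1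
              simp only [map_mul, Complex.conj_ofReal, Complex.conj_I, map_ofNat]
              push_cast
              ring
            rw [hconj]
            have hee : e (y * (((x : ℝ) - x') * θ)) = e (x * y * θ) * e (-(x' * y * θ)) := by
              rw [← VB_e_add]
              congr 1
              ring
            rw [hee]
            ring
          · rw [if_neg hx, if_neg (fun h => hx h.1)]
        · rw [if_neg hx']
          symm
          refine Finset.sum_eq_zero fun x _ => ?_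
          rw [if_neg (fun h => hx' h.2)]
      rw [Finset.sum_congr rfl h2, Finset.sum_comm]
      refine Finset.sum_congr rfl fun x' _ => ?_
      rw [Finset.sum_comm]
      refine Finset.sum_congr rfl fun x _ => ?_
      rw [← Finset.sum_filter, Finset.mul_sum]
    have h3 : ∑ y ∈ Icc 1 B, ‖g y‖ ^ 2 = ‖((∑ y ∈ Icc 1 B, ‖g y‖ ^ 2 : ℝ) : ℂ)‖ := by
      rw [Complex.norm_real, Real.norm_eq_abs, abs_of_nonneg]
      positivity
    rw [h3, h1]
    refine (norm_sum_le _ _).trans ?_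
    have h4 : ∀ x' ∈ Ico A (2 * A), ‖∑ x ∈ Ico A (2 * A),
        (α x * (starRingEnd ℂ) (α x')) * ∑ y ∈ (Icc 1 B).filter (fun y => (u ≤ x * y ∧ x * y < v) ∧
          (u ≤ x' * y ∧ x' * y < v)), e (y * (((x : ℝ) - x') * θ))‖ ≤
          C * ((A : ℝ) / q + 1) * (B + q * Real.log (2 * q)) := by
      intro x' _
      refine (norm_sum_le _ _).trans ?_
      have h5 : ∀ x ∈ Ico A (2 * A), ‖(α x * (starRingEnd ℂ) (α x')) *
          ∑ y ∈ (Icc 1 B).filter (fun y => (u ≤ x * y ∧ x * y < v) ∧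
          (u ≤ x' * y ∧ x' * y < v)), e (y * (((x : ℝ) - x') * θ))‖ ≤
          VB_f B ((((x : ℤ) - x' : ℤ) : ℝ) * θ) := by
        intro x _
        rw [norm_mul, norm_mul, RCLike.norm_conj]
        have e1 : ‖α x‖ * ‖α x'‖ ≤ 1 := by
          have := hα x
          have := hα x'
          nlinarith [norm_nonneg (α x), norm_nonneg (α x')]
        have e2 := V2_interval (B := B) ((Icc 1 B).filter (fun y => (u ≤ x * y ∧ x * y < v) ∧
          (u ≤ x' * y ∧ x' * y < v))) (by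
            intro y1 h1 y3 h3 y2 h12 h23
            rw [mem_filter, mem_Icc] at h1 h3 ⊢
            obtain ⟨⟨a1, a2⟩, ⟨a3, a4⟩, a5, a6⟩ := h1
            obtain ⟨⟨b1, b2⟩, ⟨b3, b4⟩, b5, b6⟩ := h3
            have c1 : x * y1 ≤ x * y2 := Nat.mul_le_mul_left _ h12
            have c2 : x * y2 ≤ x * y3 := Nat.mul_le_mul_left _ h23
            have c3 : x' * y1 ≤ x' * y2 := Nat.mul_le_mul_left _ h12
            have c4 : x' * y2 ≤ x' * y3 := Nat.mul_le_mul_left _ h23
            exact ⟨⟨by omega, by omega⟩, ⟨by omega, by omega⟩, by omega, by omega⟩)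
          (Finset.filter_subset _ _) (((x : ℝ) - x') * θ)
        have e3 : (((x : ℤ) - x' : ℤ) : ℝ) * θ = ((x : ℝ) - x') * θ := by push_cast; ring
        rw [e3]
        calc ‖α x‖ * ‖α x'‖ * _ ≤ 1 * VB_f B (((x : ℝ) - x') * θ) := by
              refine mul_le_mul e1 e2 (norm_nonneg _) zero_le_one
          _ = _ := one_mul _
      refine (Finset.sum_le_sum h5).trans ?_
      have h6 : ∑ x ∈ Ico A (2 * A), VB_f B ((((x : ℤ) - x' : ℤ) : ℝ) * θ) =
          ∑ n ∈ Ico ((A : ℤ) - x') ((A : ℤ) - x' + A), VB_f B (n * θ) := by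
        refine Finset.sum_bij (fun x _ => (x : ℤ) - x') ?_ ?_ ?_ ?_
        · intro x hx
          rw [mem_Ico] at hx ⊢
          omega
        · intro x _ z _ h
          have : (x : ℤ) - x' = (z : ℤ) - x' := h
          omega
        · intro n hn
          rw [mem_Ico] at hn
          refine ⟨(n + x').toNat, ?_, ?_⟩
          · rw [mem_Ico]; omega
          · show ((n + x').toNat : ℤ) - x' = n
            omega
        · intro x _
          rfl
      rw [h6]
      exact hblock θ q a hq hco hθ _ A B (by exact_mod_cast hB)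
    refine (Finset.sum_le_sum h4).trans ?_
    rw [Finset.sum_const, Nat.card_Ico, nsmul_eq_mul]
    have : ((2 * A - A : ℕ) : ℝ) = A := by
      congr 1
      omega
    rw [this]
  have h0 : 0 ≤ ∑ y ∈ Icc 1 B, ‖β y‖ ^ 2 := by positivity
  calc (∑ y ∈ Icc 1 B, ‖β y‖ ^ 2) * ∑ y ∈ Icc 1 B, ‖g y‖ ^ 2
      ≤ (∑ y ∈ Icc 1 B, ‖β y‖ ^ 2) * (A * (C * ((A : ℝ) / q + 1) * (B + q * Real.log (2 * q)))) :=
        mul_le_mul_of_nonneg_left hsum h0
    _ = _ := by ring

end Pool.Agent.Lib.H68T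
end

-- from Lib.H68T.V1
section

/-!
# Chunk V1: type I sums
-/

open Finset

namespace Pool.Agent.Lib.H68T


/-- For `2 d ≤ q` the multiple `d θ` is at distance at least `1/(2q)` from the integers. -/
theorem V1_nd_ge {θ : ℝ} {q : ℕ} {a : ℤ} (hco : IsCoprime a (q : ℤ))
    (hθ : |θ - a / q| ≤ 1 / (q : ℝ) ^ 2) {d : ℕ} (hd : 1 ≤ d) (hdq : 2 * d ≤ q) :
    1 / (2 * q : ℝ) ≤ nd (d * θ) := by
  have hq' : (0 : ℝ) < q := by
    have : 0 < q := by omega
    exact_mod_cast this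
  set m : ℤ := round ((d : ℝ) * θ) with hm
  have h1 : (1 : ℝ) ≤ |(d : ℝ) * a - m * q| := by
    have h2 : (d : ℤ) * a - m * q ≠ 0 := by
      intro h
      have h3 : (q : ℤ) ∣ (d : ℤ) * a := ⟨m, by linarith [mul_comm m (q : ℤ)]⟩
      have h4 : (q : ℤ) ∣ (d : ℤ) := (hco.symm).dvd_of_dvd_mul_right h3
      have h5 := Int.le_of_dvd (by omega) h4
      omega
    have h3 : (1 : ℤ) ≤ |(d : ℤ) * a - m * q| := Int.one_le_abs h2
    have h4 : ((1 : ℤ) : ℝ) ≤ ((|(d : ℤ) * a - m * q| : ℤ) : ℝ) := by exact_mod_cast h3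
    push_cast at h4
    exact h4
  have h2 : |(d : ℝ) * a - m * q| ≤ q * nd (d * θ) + d / q := by
    have e1 : (d : ℝ) * a - m * q = q * ((d : ℝ) * θ - m) - d * (q * (θ - a / q)) := by
      field_simp
      ring
    rw [e1]
    refine (abs_sub _ _).trans ?_
    rw [abs_mul, abs_of_pos hq', abs_mul, abs_mul, abs_of_pos hq', abs_of_nonneg (by positivity :
      (0 : ℝ) ≤ d)]
    have e2 : (q : ℝ) * |θ - a / q| ≤ 1 / q := by
      calc (q : ℝ) * |θ - a / q| ≤ q * (1 / (q : ℝ) ^ 2) :=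
            mul_le_mul_of_nonneg_left hθ hq'.le
        _ = 1 / q := by field_simp
    have e3 : (d : ℝ) * (q * |θ - a / q|) ≤ d / q := by
      calc (d : ℝ) * (q * |θ - a / q|) ≤ d * (1 / q) := by gcongr
        _ = d / q := by ring
    unfold nd
    rw [← hm]
    linarith
  have h3 : (d : ℝ) / q ≤ 1 / 2 := by
    rw [div_le_div_iff₀ hq' (by norm_num)]
    have : ((2 * d : ℕ) : ℝ) ≤ q := by exact_mod_cast hdq
    push_cast at this
    linarith
  rw [div_le_iff₀ (by positivity)]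
  linarith

/-- **Type I.** For `A ≤ N` and any intervals `[u_a, v_a)` of length at most `N/a`:
`∑_{a ≤ A} |∑_{n ∈ [u_a, v_a)} e(a n θ)| ≤ C (N/q + A + q) (log N)²`. Split `a` dyadically,
`a ∈ [2^j, 2^(j+1))`: each inner sum is at most `min (N/2^j, 1/(2‖aθ‖))`, and `block` gives
`C (2^j/q + 1)(N/2^j + q log 2q)`; sum over `j ≤ log A/log 2`. This loses the term `N` from small
`j` when `2^j < q`: for `a ≤ q/2` one has `‖aθ‖ ≥ 1/(2q)`, and the values `aθ` are `1/(2q)`-spaced,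
so `∑_{a ≤ q/2} 1/‖aθ‖ ≤ C q log q`; use `block` only for `2^j ≥ q/4`, where `1 ≤ 4·2^j/q`. -/
theorem type_one : ∃ C : ℝ, 0 < C ∧ ∀ (θ : ℝ) (q : ℕ) (a : ℤ), 1 ≤ q → IsCoprime a (q : ℤ) →
    |θ - a / q| ≤ 1 / (q : ℝ) ^ 2 → ∀ (N A : ℕ), 2 ≤ N → q ≤ N → A ≤ N → ∀ (u v : ℕ → ℤ),
    (∀ d, u d ≤ v d) → (∀ d, (v d - u d : ℝ) ≤ N / d + 1) →
    ∑ d ∈ Icc 1 A, ‖∑ n ∈ Ico (u d) (v d), e (d * n * θ)‖ ≤
      C * ((N : ℝ) / q + A + q) * (Real.log N) ^ 2 := by
  obtain ⟨C, hC, hblock⟩ := block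
  refine ⟨2 * (24 + 50 * C), by positivity, ?_⟩
  intro θ q a hq hco hθ N A hN hqN hAN u v huv hlen
  have hq' : (0 : ℝ) < q := by exact_mod_cast hq
  have hN' : (2 : ℝ) ≤ N := by exact_mod_cast hN
  have hN0 : (0 : ℝ) < N := by linarith
  have hlogN : Real.log 2 ≤ Real.log N := Real.log_le_log (by norm_num) hN'
  have hlog2 := Real.log_two_gt_d9
  have hlog2' := Real.log_two_lt_d9
  have hL : 1 ≤ 2 * Real.log N := by linarith
  have hlog2q : Real.log (2 * q) ≤ 2 * Real.log N := by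
    rw [Real.log_mul (by norm_num) hq'.ne']
    have : Real.log q ≤ Real.log N := Real.log_le_log hq' (by exact_mod_cast hqN)
    linarith
  have hlog2q0 : 0 ≤ Real.log (2 * q) := Real.log_nonneg (by
    have : (1 : ℝ) ≤ q := by exact_mod_cast hq
    linarith)
  set F : ℕ → ℝ := fun d => ‖∑ n ∈ Ico (u d) (v d), e (d * n * θ)‖ with hF
  have hF0 : ∀ d, 0 ≤ F d := fun d => norm_nonneg _
  have hgeo : ∀ d : ℕ, F d ≤ N / d + 1 ∧ F d * (2 * nd (d * θ)) ≤ 1 := by
    intro d
    have h1 : ∑ n ∈ Ico (u d) (v d), e (d * n * θ) = ∑ n ∈ Ico (u d) (v d), e (n * (d * θ)) := by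
      refine Finset.sum_congr rfl fun n _ => ?_
      congr 1
      ring
    obtain ⟨h2, h3⟩ := geo_le (u d) (v d) (huv d) ((d : ℝ) * θ)
    rw [← h1] at h2 h3
    exact ⟨h2.trans (hlen d), h3⟩
  have hFf : ∀ (d : ℕ) (B : ℝ), F d ≤ B → F d ≤ VB_f B (d * θ) := by
    intro d B hdB
    unfold VB_f
    split_ifs with h0
    · exact hdB
    · refine le_min hdB ?_
      have hpos : 0 < nd (d * θ) := lt_of_le_of_ne (VB_nd_nonneg _) (Ne.symm h0)
      rw [le_div_iff₀ (by positivity)]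
      exact (hgeo d).2
  -- split
  have hsplit : ∑ d ∈ Icc 1 A, F d = ∑ d ∈ (Icc 1 A).filter (fun d => 2 * d ≤ q), F d +
      ∑ d ∈ (Icc 1 A).filter (fun d => ¬ 2 * d ≤ q), F d :=
    (Finset.sum_filter_add_sum_filter_not _ _ _).symm
  -- part 1
  have hpart1 : ∑ d ∈ (Icc 1 A).filter (fun d => 2 * d ≤ q), F d ≤ 24 * (q * Real.log N) := by
    have h1 : ∀ d ∈ (Icc 1 A).filter (fun d => 2 * d ≤ q), F d ≤ VB_f q (((d : ℤ) : ℝ) * θ) := by
      intro d hd
      rw [mem_filter, mem_Icc] at hd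
      have h2 := V1_nd_ge hco hθ hd.1.1 hd.2
      have hpos : 0 < nd (d * θ) := lt_of_lt_of_le (by positivity) h2
      have h3 : F d ≤ q := by
        have h4 := (hgeo d).2
        have h5 : F d ≤ 1 / (2 * nd (d * θ)) := by
          rw [le_div_iff₀ (by positivity)]
          exact h4
        refine h5.trans ?_
        rw [div_le_iff₀ (by positivity)]
        rw [div_le_iff₀ (by positivity)] at h2
        linarith
      have := hFf d q h3
      push_cast
      exact this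
    refine (Finset.sum_le_sum h1).trans ?_
    have h2 : ∑ d ∈ (Icc 1 A).filter (fun d => 2 * d ≤ q), VB_f q (((d : ℤ) : ℝ) * θ) ≤
        ∑ n ∈ Ico (1 : ℤ) (1 + q), VB_f q (n * θ) := by
      rw [← Finset.sum_image (f := fun n : ℤ => VB_f q ((n : ℝ) * θ))
        (g := fun d : ℕ => (d : ℤ)) (s := (Icc 1 A).filter (fun d => 2 * d ≤ q))
        (fun x _ y _ h => Nat.cast_injective h)]
      refine Finset.sum_le_sum_of_subset_of_nonneg ?_ (fun n _ _ => VB_f_nonneg (by positivity) _)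
      intro n hn
      rw [mem_image] at hn
      obtain ⟨d, hd, rfl⟩ := hn
      rw [mem_filter, mem_Icc] at hd
      rw [mem_Ico]
      omega
    refine h2.trans ?_
    have h3 := VB_one hq hco hθ 1 (B := (q : ℝ)) (by positivity)
    refine h3.trans ?_
    have h4 := VB_one_add_log_le hq
    nlinarith
  -- part 2
  have hpart2 : ∑ d ∈ (Icc 1 A).filter (fun d => ¬ 2 * d ≤ q), F d ≤
      C * (30 * (N / q) + 20 * A) * Real.log N := by
    rcases Nat.eq_zero_or_pos A with hA0 | hA0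
    · subst hA0
      simp only [Nat.cast_zero]
      have : (Icc 1 0).filter (fun d => ¬ 2 * d ≤ q) = ∅ := by simp
      rw [this, Finset.sum_empty]
      have : 0 ≤ Real.log N := by linarith
      positivity
    set J := Nat.log 2 A with hJ
    have hmaps : ∀ d ∈ (Icc 1 A).filter (fun d => ¬ 2 * d ≤ q), Nat.log 2 d ∈ range (J + 1) := by
      intro d hd
      rw [mem_filter, mem_Icc] at hd
      rw [mem_range]
      have := Nat.log_mono_right (b := 2) hd.1.2
      omega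
    rw [← Finset.sum_fiberwise_of_maps_to hmaps]
    have hj : ∀ j ∈ range (J + 1), ∑ d ∈ ((Icc 1 A).filter (fun d => ¬ 2 * d ≤ q)).filter
        (fun d => Nat.log 2 d = j), F d ≤ C * (10 * (N / q) + 10 * 2 ^ j * Real.log N) := by
      intro j hj
      rw [mem_range] at hj
      have h2j : 2 ^ j ≤ A := by
        calc 2 ^ j ≤ 2 ^ J := Nat.pow_le_pow_right (by norm_num) (by omega)
          _ ≤ A := Nat.pow_log_le_self 2 (by omega)
      have h2jN : ((2 : ℝ) ^ j) ≤ N := by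
        have : 2 ^ j ≤ N := h2j.trans hAN
        exact_mod_cast this
      have h2j0 : (0 : ℝ) < 2 ^ j := by positivity
      have hBge : (1 : ℝ) ≤ N / 2 ^ j + 1 := by
        have : (0 : ℝ) ≤ N / 2 ^ j := by positivity
        linarith
      rcases (((Icc 1 A).filter (fun d => ¬ 2 * d ≤ q)).filter
        (fun d => Nat.log 2 d = j)).eq_empty_or_nonempty with h0 | ⟨d0, hd0⟩
      · rw [h0, Finset.sum_empty]
        have : 0 ≤ Real.log N := by linarith
        positivity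
      rw [mem_filter, mem_filter, mem_Icc] at hd0
      obtain ⟨⟨⟨hd1, hd2⟩, hd3⟩, hd4⟩ := hd0
      have hq4 : (q : ℝ) ≤ 4 * 2 ^ j := by
        have h1 : d0 < 2 ^ (j + 1) := by
          rw [← hd4]
          exact Nat.lt_pow_succ_log_self (by norm_num) d0
        have h2 : q ≤ 4 * 2 ^ j := by
          rw [pow_succ] at h1
          omega
        exact_mod_cast h2
      have h1 : ∑ d ∈ ((Icc 1 A).filter (fun d => ¬ 2 * d ≤ q)).filter
        (fun d => Nat.log 2 d = j), F d ≤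
          ∑ n ∈ Ico ((2 ^ j : ℕ) : ℤ) (((2 ^ j : ℕ) : ℤ) + (2 ^ j : ℕ)),
            VB_f (N / 2 ^ j + 1) (n * θ) := by
        have h2 : ∀ d ∈ ((Icc 1 A).filter (fun d => ¬ 2 * d ≤ q)).filter
            (fun d => Nat.log 2 d = j), F d ≤ VB_f (N / 2 ^ j + 1) (((d : ℤ) : ℝ) * θ) := by
          intro d hd
          rw [mem_filter, mem_filter, mem_Icc] at hd
          obtain ⟨⟨⟨he1, he2⟩, he3⟩, he4⟩ := hd
          have h3 : 2 ^ j ≤ d := by
            rw [← he4]
            exact Nat.pow_log_le_self 2 (by omega)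
          have h3' : (2 : ℝ) ^ j ≤ d := by exact_mod_cast h3
          have h4 : F d ≤ N / 2 ^ j + 1 := by
            refine (hgeo d).1.trans ?_
            gcongr
          have := hFf d _ h4
          push_cast
          exact this
        refine (Finset.sum_le_sum h2).trans ?_
        rw [← Finset.sum_image (f := fun n : ℤ => VB_f (N / 2 ^ j + 1) ((n : ℝ) * θ))
          (g := fun d : ℕ => (d : ℤ)) (s := ((Icc 1 A).filter (fun d => ¬ 2 * d ≤ q)).filter
            (fun d => Nat.log 2 d = j)) (fun x _ y _ h => Nat.cast_injective h)]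
        refine Finset.sum_le_sum_of_subset_of_nonneg ?_
          (fun n _ _ => VB_f_nonneg (by linarith) _)
        intro n hn
        rw [mem_image] at hn
        obtain ⟨d, hd, rfl⟩ := hn
        rw [mem_filter, mem_filter, mem_Icc] at hd
        obtain ⟨⟨⟨he1, he2⟩, he3⟩, he4⟩ := hd
        have h3 : 2 ^ j ≤ d := by
          rw [← he4]
          exact Nat.pow_log_le_self 2 (by omega)
        have h4 : d < 2 ^ (j + 1) := by
          rw [← he4]
          exact Nat.lt_pow_succ_log_self (by norm_num) d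
        rw [pow_succ] at h4
        rw [mem_Ico]
        omega
      refine h1.trans ((hblock θ q a hq hco hθ _ _ _ hBge).trans ?_)
      have h5 : ((2 ^ j : ℕ) : ℝ) / q + 1 ≤ 5 * 2 ^ j / q := by
        push_cast
        rw [le_div_iff₀ hq', add_mul, div_mul_cancel₀ _ hq'.ne']
        linarith
      have h6 : (N : ℝ) / 2 ^ j + 1 + q * Real.log (2 * q) ≤ 2 * (N / 2 ^ j) + q * (2 * Real.log N) := by
        have e1 : (1 : ℝ) ≤ N / 2 ^ j := by
          rw [le_div_iff₀ h2j0]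
          linarith
        have e2 : (q : ℝ) * Real.log (2 * q) ≤ q * (2 * Real.log N) := by gcongr
        linarith
      have h7 : 0 ≤ (N : ℝ) / 2 ^ j + 1 + q * Real.log (2 * q) := by positivity
      calc C * (((2 ^ j : ℕ) : ℝ) / q + 1) * (N / 2 ^ j + 1 + q * Real.log (2 * q))
          ≤ C * (5 * 2 ^ j / q) * (2 * (N / 2 ^ j) + q * (2 * Real.log N)) := by
            refine mul_le_mul (mul_le_mul_of_nonneg_left h5 hC.le) h6 h7 (by positivity)
        _ = C * (10 * (N / q) + 10 * 2 ^ j * Real.log N) := by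
            field_simp
            ring
    refine (Finset.sum_le_sum hj).trans ?_
    rw [← Finset.mul_sum, Finset.sum_add_distrib, Finset.sum_const, card_range, nsmul_eq_mul]
    have hgeom : ∑ j ∈ range (J + 1), (10 * (2 : ℝ) ^ j * Real.log N) ≤ 20 * A * Real.log N := by
      have h1 : ∑ j ∈ range (J + 1), (2 : ℝ) ^ j ≤ 2 * A := by
        have h2 : ∑ j ∈ range (J + 1), (2 : ℝ) ^ j = 2 ^ (J + 1) - 1 := by
          rw [geom_sum_eq (by norm_num)]
          norm_num
        rw [h2]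
        have h3 : 2 ^ J ≤ A := Nat.pow_log_le_self 2 (by omega)
        have h4 : ((2 : ℝ) ^ J) ≤ A := by exact_mod_cast h3
        rw [pow_succ]
        linarith
      have h3 : ∑ j ∈ range (J + 1), (10 * (2 : ℝ) ^ j * Real.log N) =
          10 * Real.log N * ∑ j ∈ range (J + 1), (2 : ℝ) ^ j := by
        rw [Finset.mul_sum]
        exact Finset.sum_congr rfl fun j _ => by ring
      rw [h3]
      have h4 : 0 ≤ Real.log N := by linarith
      nlinarith
    have hJ1 : ((J + 1 : ℕ) : ℝ) ≤ 3 * Real.log N := by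
      have h1 : 2 ^ J ≤ N := (Nat.pow_log_le_self 2 (by omega)).trans hAN
      have h2 : ((2 : ℝ) ^ J) ≤ N := by exact_mod_cast h1
      have h3 : (J : ℝ) * Real.log 2 ≤ Real.log N := by
        rw [← Real.log_pow]
        exact Real.log_le_log (by positivity) h2
      push_cast
      nlinarith
    have hNq : 0 ≤ (N : ℝ) / q := by positivity
    have hlogN0 : 0 ≤ Real.log N := by linarith
    have h8 : ((J + 1 : ℕ) : ℝ) * (10 * (N / q)) ≤ 3 * Real.log N * (10 * (N / q)) :=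
      mul_le_mul_of_nonneg_right hJ1 (by positivity)
    calc C * (((J + 1 : ℕ) : ℝ) * (10 * (N / q)) + ∑ j ∈ range (J + 1), (10 * (2 : ℝ) ^ j * Real.log N))
        ≤ C * (3 * Real.log N * (10 * (N / q)) + 20 * A * Real.log N) := by
          refine mul_le_mul_of_nonneg_left (add_le_add h8 hgeom) hC.le
      _ = C * (30 * (N / q) + 20 * A) * Real.log N := by ring
  change ∑ d ∈ Icc 1 A, F d ≤ _
  rw [hsplit]
  have hlogN0 : 0 ≤ Real.log N := by linarith
  have hNq : 0 ≤ (N : ℝ) / q := by positivity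
  have hA0 : (0 : ℝ) ≤ A := by positivity
  have htot : 24 * (q * Real.log N) + C * (30 * (N / q) + 20 * A) * Real.log N ≤
      (24 + 50 * C) * (N / q + A + q) * Real.log N := by
    have h1 : 24 * (q : ℝ) + C * (30 * (N / q) + 20 * A) ≤ (24 + 50 * C) * (N / q + A + q) := by
      have e1 : 0 ≤ C * (N / q) := by positivity
      have e2 : 0 ≤ C * A := by positivity
      have e3 : 0 ≤ C * (q : ℝ) := by positivity
      nlinarith
    calc 24 * (q * Real.log N) + C * (30 * (N / q) + 20 * A) * Real.log N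
        = (24 * (q : ℝ) + C * (30 * (N / q) + 20 * A)) * Real.log N := by ring
      _ ≤ _ := mul_le_mul_of_nonneg_right h1 hlogN0
  refine (add_le_add hpart1 hpart2).trans (htot.trans ?_)
  have h2 : Real.log N ≤ 2 * (Real.log N) ^ 2 := by nlinarith
  calc (24 + 50 * C) * (N / q + A + q) * Real.log N
      ≤ (24 + 50 * C) * (N / q + A + q) * (2 * (Real.log N) ^ 2) := by
        refine mul_le_mul_of_nonneg_left h2 (by positivity)
    _ = _ := by ring

end Pool.Agent.Lib.H68T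
end
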