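import Mathlib
import Pool.Agent.Lib.H1M.RV2.M004

/-! Merged copies (to shorten the build) of Lib.H68T.CQ1, Lib.H68T.CQ2, Lib.H68T.RegL, Lib.H68T.GL1, Lib.H68T.GL2, Lib.H68T.LAN, Lib.H68T.LAB1, Lib.H68T.T341. -/

-- from Lib.H68T.CQ1
section

/-!
# Chunk CQ1; part of CQ: Ramanujan sums
-/

open Finset

namespace Pool.Agent.Lib.H68T

theorem CQ1_moebius (n : ℕ) :
    ∑ d ∈ n.divisors, (ArithmeticFunction.moebius d : ℂ) = if n = 1 then 1 else 0 := by
  have h := ArithmeticFunction.coe_mul_zeta_apply (R := ℂ)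
    (f := ((ArithmeticFunction.moebius : ArithmeticFunction ℤ) : ArithmeticFunction ℂ)) (x := n)
  rw [ArithmeticFunction.coe_moebius_mul_coe_zeta] at h
  rw [ArithmeticFunction.one_apply] at h
  simp only [ArithmeticFunction.intCoe_apply] at h
  exact h.symm

theorem CQ1_e_add (x y : ℝ) : e (x + y) = e x * e y := by
  unfold e
  rw [← Complex.exp_add]
  congr 1
  push_cast
  ring

theorem CQ1_e_int (m : ℤ) : e m = 1 := by
  unfold e
  rw [Complex.exp_eq_one_iff]
  exact ⟨m, by push_cast; ring⟩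

theorem CQ1_e_eq_one (x : ℝ) (h : e x = 1) : ∃ m : ℤ, x = m := by
  unfold e at h
  rw [Complex.exp_eq_one_iff] at h
  obtain ⟨m, hm⟩ := h
  refine ⟨m, ?_⟩
  have h1 : (2 * Real.pi * Complex.I : ℂ) ≠ 0 := Complex.two_pi_I_ne_zero
  have h2 : (x : ℂ) = m := by
    apply mul_right_cancel₀ h1
    rw [← hm]
    ring
  exact_mod_cast h2

theorem CQ1_e_nat_mul (x : ℝ) (n : ℕ) : e (n * x) = e x ^ n := by
  unfold e
  rw [← Complex.exp_nat_mul]
  congr 1
  push_cast
  ring

theorem CQ1_geom (n : ℕ) (hn : 0 < n) (m : ℤ) :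
    ∑ b ∈ range n, e (b * (m / n)) = if (n : ℤ) ∣ m then (n : ℂ) else 0 := by
  have hn0 : (n : ℝ) ≠ 0 := by exact_mod_cast hn.ne'
  have h1 : ∀ b ∈ range n, e (b * (m / n)) = (e (m / n)) ^ b := fun b _ => CQ1_e_nat_mul _ _
  rw [sum_congr rfl h1]
  have h2 : (e ((m : ℝ) / n)) ^ n = 1 := by
    rw [← CQ1_e_nat_mul, mul_div_cancel₀ _ hn0]
    exact CQ1_e_int m
  split_ifs with h
  · obtain ⟨k, hk⟩ := h
    have h3 : e ((m : ℝ) / n) = 1 := by
      rw [hk]
      have : (((n : ℤ) * k : ℤ) : ℝ) / n = ((k : ℤ) : ℝ) := by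
        push_cast
        field_simp
      rw [this]
      exact CQ1_e_int k
    rw [h3]
    simp
  · have h3 : e ((m : ℝ) / n) ≠ 1 := by
      intro h4
      obtain ⟨k, hk⟩ := CQ1_e_eq_one _ h4
      apply h
      refine ⟨k, ?_⟩
      rw [div_eq_iff hn0] at hk
      have : (m : ℝ) = ((n * k : ℤ) : ℝ) := by rw [hk]; push_cast; ring
      exact_mod_cast this
    rw [geom_sum_eq h3, h2, sub_self, zero_div]

/-- `c_q(m) = ∑_{a mod q, (a,q) = 1} e(a m / q)`: Möbius inversion from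
`∑_{a mod q} e(a m/q) = q [q ∣ m]`. -/
theorem cq_eq_sum (q : ℕ) (hq : 0 < q) (m : ℤ) :
    (cq q m : ℂ) = ∑ a ∈ (range q).filter (fun a => Nat.Coprime a q), e (a * m / q) := by
  have hind : ∀ a : ℕ, ∑ d ∈ q.divisors.filter (fun d => d ∣ a),
      (ArithmeticFunction.moebius d : ℂ) = if Nat.Coprime a q then 1 else 0 := by
    intro a
    have hg : 0 < Nat.gcd a q := Nat.gcd_pos_of_pos_right _ hq
    have h1 : q.divisors.filter (fun d => d ∣ a) = (Nat.gcd a q).divisors := by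
      ext d
      simp only [mem_filter, Nat.mem_divisors, Nat.dvd_gcd_iff]
      constructor
      · rintro ⟨⟨h1, _⟩, h3⟩
        exact ⟨⟨h3, h1⟩, hg.ne'⟩
      · rintro ⟨⟨h1, h2⟩, _⟩
        exact ⟨⟨h2, hq.ne'⟩, h1⟩
    rw [h1, CQ1_moebius _]
  have h1 : ∑ a ∈ (range q).filter (fun a => Nat.Coprime a q), e (a * m / q)
      = ∑ a ∈ range q, ∑ d ∈ q.divisors, if d ∣ a then
        (ArithmeticFunction.moebius d : ℂ) * e (a * m / q) else 0 := by
    rw [sum_filter]
    refine sum_congr rfl fun a _ => ?_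
    have h2 := hind a
    rw [← sum_filter, ← sum_mul, h2]
    split_ifs <;> simp
  rw [h1, sum_comm]
  have h3 : ∀ d ∈ q.divisors, (∑ a ∈ range q, if d ∣ a then
      (ArithmeticFunction.moebius d : ℂ) * e (a * m / q) else 0)
      = (ArithmeticFunction.moebius d : ℂ) * (if ((q / d : ℕ) : ℤ) ∣ m then ((q / d : ℕ) : ℂ) else 0) := by
    intro d hd
    rw [Nat.mem_divisors] at hd
    obtain ⟨k, hk⟩ := hd.1
    have hd0 : 0 < d := Nat.pos_of_dvd_of_pos hd.1 hq
    have hk0 : 0 < k := by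
      rcases Nat.eq_zero_or_pos k with h | h
      · rw [h, mul_zero] at hk
        exact absurd hk hq.ne'
      · exact h
    have hqd : q / d = k := by rw [hk]; exact Nat.mul_div_cancel_left _ hd0
    rw [hqd, ← CQ1_geom k hk0 m, mul_sum, ← sum_filter]
    symm
    refine sum_bij (fun b _ => d * b) ?_ ?_ ?_ ?_
    · intro b hb
      rw [mem_range] at hb
      rw [mem_filter, mem_range]
      refine ⟨?_, dvd_mul_right _ _⟩
      rw [hk]
      exact Nat.mul_lt_mul_of_pos_left hb hd0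
    · intro a _ b _ h
      exact Nat.eq_of_mul_eq_mul_left hd0 h
    · intro a ha
      rw [mem_filter, mem_range] at ha
      obtain ⟨b, hb⟩ := ha.2
      refine ⟨b, ?_, hb.symm⟩
      rw [mem_range]
      rw [hb, hk] at ha
      exact Nat.lt_of_mul_lt_mul_left ha.1
    · intro b _
      congr 2
      rw [hk]
      have : (d : ℝ) ≠ 0 := by exact_mod_cast hd0.ne'
      have : (k : ℝ) ≠ 0 := by exact_mod_cast hk0.ne'
      push_cast
      field_simp
  rw [sum_congr rfl h3]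
  rw [← Nat.sum_div_divisors q (fun d => (ArithmeticFunction.moebius d : ℂ)
    * (if ((q / d : ℕ) : ℤ) ∣ m then ((q / d : ℕ) : ℂ) else 0))]
  unfold cq
  rw [sum_filter, Complex.ofReal_sum]
  refine sum_congr rfl fun d hd => ?_
  rw [Nat.mem_divisors] at hd
  have h4 : q / (q / d) = d := Nat.div_div_self hd.1 hd.2
  simp only [h4]
  split_ifs with h
  · push_cast
    ring
  · simp

/-- `c_q` is even. -/
theorem cq_neg (q : ℕ) (m : ℤ) : cq q (-m) = cq q m := by
  unfold cq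
  simp only [dvd_neg]

end Pool.Agent.Lib.H68T
end

-- from Lib.H68T.CQ2
section

/-!
# Chunk CQ2; part of CQ: Ramanujan sums
-/

open Finset

namespace Pool.Agent.Lib.H68T

/-- `φ(n) = ∑_{d ∣ n} d μ(n/d)` -/
theorem CQ2_totient (n : ℕ) (hn : 0 < n) :
    ∑ d ∈ n.divisors, (d : ℝ) * (ArithmeticFunction.moebius (n / d) : ℝ) = Nat.totient n := by
  have h := (ArithmeticFunction.sum_eq_iff_sum_mul_moebius_eq (R := ℝ)
    (f := fun n => (Nat.totient n : ℝ)) (g := fun n => (n : ℝ))).1 (fun n _ => by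
      have := Nat.sum_totient n
      exact_mod_cast this) n hn
  rw [← h, Nat.sum_divisorsAntidiagonal' (fun a b => (ArithmeticFunction.moebius a : ℝ) * (b : ℝ))]
  exact sum_congr rfl fun d _ => mul_comm _ _

/-- For squarefree `q`: `c_q(m) = μ(q/g) φ(g)`, `g = gcd(q, m)`. -/
theorem cq_squarefree (q : ℕ) (hq : Squarefree q) (m : ℤ) :
    cq q m = (ArithmeticFunction.moebius (q / Nat.gcd q m.natAbs) : ℝ) *
      Nat.totient (Nat.gcd q m.natAbs) := by
  set g := Nat.gcd q m.natAbs with hg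
  have hq0 : q ≠ 0 := hq.ne_zero
  have hgq : g ∣ q := Nat.gcd_dvd_left _ _
  have hg0 : 0 < g := Nat.pos_of_ne_zero (fun h => hq0 (by rw [h] at hgq; exact Nat.eq_zero_of_zero_dvd hgq))
  obtain ⟨h, hh⟩ := hgq
  have hcop : Nat.Coprime g h := by
    rw [hh] at hq
    exact Nat.coprime_of_squarefree_mul hq
  have hqg : q / g = h := by rw [hh]; exact Nat.mul_div_cancel_left _ hg0
  unfold cq
  have h1 : q.divisors.filter (fun d : ℕ => (d : ℤ) ∣ m) = g.divisors := by
    ext d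
    simp only [mem_filter, Nat.mem_divisors]
    rw [hg, Nat.dvd_gcd_iff, Int.natCast_dvd]
    constructor
    · rintro ⟨⟨a, _⟩, b⟩
      exact ⟨⟨a, b⟩, hg0.ne'⟩
    · rintro ⟨⟨a, b⟩, _⟩
      exact ⟨⟨a, hq0⟩, b⟩
  rw [h1, hqg, ← CQ2_totient g hg0, mul_sum]
  refine sum_congr rfl fun d hd => ?_
  rw [Nat.mem_divisors] at hd
  obtain ⟨k, hk⟩ := hd.1
  have hd0 : 0 < d := Nat.pos_of_dvd_of_pos hd.1 hg0
  have e1 : g / d = k := by rw [hk]; exact Nat.mul_div_cancel_left _ hd0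
  have e2 : q / d = k * h := by
    rw [hh, hk, mul_assoc]; exact Nat.mul_div_cancel_left _ hd0
  have hkh : Nat.Coprime k h := Nat.Coprime.coprime_dvd_left ⟨d, by rw [hk]; ring⟩ hcop
  rw [e1, e2, ArithmeticFunction.isMultiplicative_moebius.map_mul_of_coprime hkh]
  push_cast
  ring

/-- product of `P/(P-1)` over a finite set of integers `≥ 2` -/
theorem CQ2_prod (S : Finset ℕ) (hS : ∀ p ∈ S, 2 ≤ p) :
    ∏ p ∈ S, ((p : ℝ) / (p - 1)) ≤ S.card + 1 := by
  induction S using Finset.induction_on_max with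
  | empty => simp
  | insert P s hmax ih =>
    have hP : P ∉ s := fun h => lt_irrefl _ (hmax P h)
    rw [prod_insert hP, card_insert_of_notMem hP]
    have h1 := ih fun p hp => hS p (mem_insert_of_mem hp)
    have h2 : 2 ≤ P := hS P (mem_insert_self _ _)
    have h3 : s.card + 1 ≤ P - 1 := by
      have h4 : s ⊆ Ico 2 P := by
        intro p hp
        rw [mem_Ico]
        exact ⟨hS p (mem_insert_of_mem hp), hmax p hp⟩
      have h5 := card_le_card h4
      rw [Nat.card_Ico] at h5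
      omega
    have h6 : ((s.card : ℝ) + 1) ≤ (P : ℝ) - 1 := by
      have : ((s.card + 1 : ℕ) : ℝ) ≤ ((P - 1 : ℕ) : ℝ) := by exact_mod_cast h3
      rw [Nat.cast_sub (by omega)] at this
      push_cast at this
      exact this
    have h7 : (0 : ℝ) < s.card + 1 := by positivity
    have h8 : (P : ℝ) / (P - 1) ≤ (s.card + 1 + 1) / (s.card + 1) := by
      rw [div_le_div_iff₀ (by linarith) h7]
      nlinarith
    calc (P : ℝ) / (P - 1) * ∏ p ∈ s, ((p : ℝ) / (p - 1))
        ≤ (s.card + 1 + 1) / (s.card + 1) * (s.card + 1) := by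
          apply mul_le_mul h8 h1 _ (by positivity)
          exact prod_nonneg fun p hp => by
            have : (2 : ℝ) ≤ p := by exact_mod_cast hS p (mem_insert_of_mem hp)
            apply div_nonneg <;> linarith
      _ = ((s.card + 1 : ℕ) : ℝ) + 1 := by
          rw [div_mul_cancel₀ _ h7.ne']
          push_cast
          ring

theorem CQ2_card (q : ℕ) (hq : 0 < q) : (q.primeFactors.card : ℝ) ≤ 3 / 2 * Real.log q := by
  have h1 : 2 ^ q.primeFactors.card ≤ q := by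
    have h2 : ∏ p ∈ q.primeFactors, 2 ≤ ∏ p ∈ q.primeFactors, p :=
      prod_le_prod' fun p hp => (Nat.prime_of_mem_primeFactors hp).two_le
    rw [prod_const] at h2
    exact h2.trans (Nat.le_of_dvd hq (Nat.prod_primeFactors_dvd q))
  have h3 : (2 : ℝ) ^ q.primeFactors.card ≤ q := by exact_mod_cast h1
  have h4 := Real.log_le_log (by positivity) h3
  rw [Real.log_pow] at h4
  have h5 := Real.log_two_gt_d9
  have h6 : (0 : ℝ) ≤ q.primeFactors.card := by positivity
  nlinarith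

theorem CQ2_ratio (q : ℕ) (hq : 0 < q) : (1 : ℝ) / Nat.totient q ≤ 3 / 2 * (1 + Real.log q) / q := by
  have hq' : (0 : ℝ) < q := by exact_mod_cast hq
  have h1 : (Nat.totient q : ℝ) = q * ∏ p ∈ q.primeFactors, (1 - (p : ℝ)⁻¹) := by
    have := Nat.totient_eq_mul_prod_factors q
    have h2 : ((Nat.totient q : ℚ) : ℝ) = ((q * ∏ p ∈ q.primeFactors, (1 - (p : ℚ)⁻¹) : ℚ) : ℝ) := by
      rw [this]
    push_cast at h2
    exact h2
  have h2 : (∏ p ∈ q.primeFactors, ((p : ℝ) / (p - 1))) * ∏ p ∈ q.primeFactors, (1 - (p : ℝ)⁻¹) = 1 := by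
    rw [← prod_mul_distrib]
    refine prod_eq_one fun p hp => ?_
    have h3 : (2 : ℝ) ≤ p := by exact_mod_cast (Nat.prime_of_mem_primeFactors hp).two_le
    have h4 : (p : ℝ) ≠ 0 := by linarith
    have h5 : (p : ℝ) - 1 ≠ 0 := by intro h; linarith
    field_simp
  have h3 := CQ2_prod q.primeFactors fun p hp => (Nat.prime_of_mem_primeFactors hp).two_le
  have h4 := CQ2_card q hq
  have h5 : 0 < (Nat.totient q : ℝ) := by exact_mod_cast Nat.totient_pos.2 hq
  have h6 : 0 ≤ Real.log q := Real.log_natCast_nonneg q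
  have h7 : (q : ℝ) / Nat.totient q = ∏ p ∈ q.primeFactors, ((p : ℝ) / (p - 1)) := by
    rw [div_eq_iff h5.ne', h1]
    calc (q : ℝ) = q * ((∏ p ∈ q.primeFactors, ((p : ℝ) / (p - 1))) *
          ∏ p ∈ q.primeFactors, (1 - (p : ℝ)⁻¹)) := by rw [h2, mul_one]
      _ = _ := by ring
  rw [div_le_div_iff₀ h5 hq']
  have h8 : (q : ℝ) / Nat.totient q ≤ 3 / 2 * (1 + Real.log q) := by
    rw [h7]
    linarith
  rw [div_le_iff₀ h5] at h8
  linarith

/-- `∑_{q ≤ Q} 1/φ(q) ≤ 10 (1 + log Q)^2` (crude). For instance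
`q/φ(q) = ∑_{d ∣ q} μ²(d)/φ(d)` and `φ(d) ≥ c d/(1 + log d)`, or
`q/φ(q) = ∏_{p ∣ q} (1 + 1/(p-1)) ≤ 4 (1 + log q)` etc. Any constant instead of `10` is fine
as long as it is absolute. -/
theorem sum_inv_totient (Q : ℕ) :
    ∑ q ∈ Icc 1 Q, (1 : ℝ) / Nat.totient q ≤ 10 * (1 + Real.log Q) ^ 2 := by
  have h0 : 0 ≤ Real.log Q := Real.log_natCast_nonneg Q
  have h1 : ∑ q ∈ Icc 1 Q, (1 : ℝ) / Nat.totient q
      ≤ ∑ q ∈ Icc 1 Q, 3 / 2 * (1 + Real.log Q) * (1 / q) := by
    refine sum_le_sum fun q hq => ?_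
    rw [mem_Icc] at hq
    have hq' : (0 : ℝ) < q := by exact_mod_cast hq.1
    refine (CQ2_ratio q hq.1).trans ?_
    rw [div_eq_mul_one_div]
    apply mul_le_mul_of_nonneg_right _ (by positivity)
    have : Real.log q ≤ Real.log Q := Real.log_le_log hq' (by exact_mod_cast hq.2)
    linarith
  rw [← mul_sum] at h1
  have h2 : ∑ q ∈ Icc 1 Q, (1 : ℝ) / q ≤ 1 + Real.log Q := by
    have h3 := harmonic_le_one_add_log Q
    have h4 : ((harmonic Q : ℚ) : ℝ) = ∑ q ∈ Icc 1 Q, (1 : ℝ) / q := by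
      rw [harmonic_eq_sum_Icc]
      push_cast
      exact sum_congr rfl fun q _ => by rw [one_div]
    rw [← h4]
    exact h3
  refine h1.trans ?_
  calc 3 / 2 * (1 + Real.log Q) * ∑ q ∈ Icc 1 Q, (1 : ℝ) / q
      ≤ 3 / 2 * (1 + Real.log Q) * (1 + Real.log Q) :=
        mul_le_mul_of_nonneg_left h2 (by positivity)
    _ ≤ 10 * (1 + Real.log Q) ^ 2 := by nlinarith


end Pool.Agent.Lib.H68T
end

-- from Lib.H68T.RegL
section

/-!
# Project H68T: consequences of `Reg K Q X`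

Use these lemmas to absorb constants and powers: every statement of the project has the form
`∃ K, ∀ Q X, Reg K Q X → ...`; take `K` to be the sum (or maximum) of the constants you need,
and `Reg.mono`.
-/

namespace Pool.Agent.Lib.H68T

open Real

theorem Reg.mono {K K' : ℝ} {Q X : ℕ} (h : Reg K Q X) (h0 : 0 ≤ K) (hK : K' ≤ K) :
    Reg K' Q X := by
  obtain ⟨h1, h2, h3⟩ := h
  have hll : 0 ≤ log (log X) := h0.trans h1
  have hQ : 0 ≤ log Q := by positivity
  exact ⟨hK.trans h1, (mul_le_mul_of_nonneg_right hK hll).trans h2,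
    (mul_le_mul_of_nonneg_right hK (mul_nonneg hQ hll)).trans h3⟩


theorem Reg.logX_ge {K : ℝ} {Q X : ℕ} (h : Reg K Q X) (hK : 0 < K) : exp K ≤ log X := by
  have h1 : 0 < log (log X) := hK.trans_le h.1
  have h2 : 0 < log X := by
    by_contra hc
    push Not at hc
    have h3 : (0:ℝ) ≤ log X := by positivity
    have h4 : log (X:ℝ) = 0 := le_antisymm hc h3
    rw [h4] at h1
    simp at h1
  exact (Real.le_log_iff_exp_le h2).mp h.1

theorem Reg.logX_pos {K : ℝ} {Q X : ℕ} (h : Reg K Q X) (hK : 0 < K) : 0 < log X :=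
  (exp_pos K).trans_le (h.logX_ge hK)

theorem Reg.X_pos {K : ℝ} {Q X : ℕ} (h : Reg K Q X) (hK : 0 < K) : 0 < X := by
  rcases Nat.eq_zero_or_pos X with h0 | h0
  · have := h.logX_pos hK
    rw [h0] at this
    simp at this
  · exact h0

theorem Reg.logX_ge_one {K : ℝ} {Q X : ℕ} (h : Reg K Q X) (hK : 0 < K) : 1 ≤ log X := by
  have h1 := h.logX_ge hK
  have h2 : (1:ℝ) ≤ exp K := Real.one_le_exp hK.le
  linarith

theorem Reg.X_ge {K : ℝ} {Q X : ℕ} (h : Reg K Q X) (hK : 0 < K) : K ≤ X := by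
  have h1 := h.logX_ge hK
  have h2 : K + 1 ≤ exp K := Real.add_one_le_exp K
  have h3 : log X ≤ X := (Real.log_le_sub_one_of_pos (by exact_mod_cast h.X_pos hK)).trans
    (by linarith)
  linarith


theorem Reg.logQ_ge {K : ℝ} {Q X : ℕ} (h : Reg K Q X) (hK : 1 ≤ K) : K ≤ log Q := by
  have h1 : 1 ≤ log (log X) := hK.trans h.1
  have := h.2.1
  nlinarith

theorem Reg.Q_ge {K : ℝ} {Q X : ℕ} (h : Reg K Q X) (hK : 1 ≤ K) : K ≤ Q := by
  have h1 := h.logQ_ge hK
  have h3 : log Q ≤ Q := by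
    rcases Nat.eq_zero_or_pos Q with h0 | h0
    · rw [h0]; simp
    · exact (Real.log_le_sub_one_of_pos (by exact_mod_cast h0)).trans (by linarith)
  linarith

theorem Reg.Q_pos {K : ℝ} {Q X : ℕ} (h : Reg K Q X) (hK : 1 ≤ K) : 0 < Q := by
  have h1 := h.Q_ge hK
  have h2 : (0:ℝ) < Q := by linarith
  exact_mod_cast h2

/-- `K log Q ≤ log X` -/
theorem Reg.logQ_le {K : ℝ} {Q X : ℕ} (h : Reg K Q X) (hK : 1 ≤ K) : K * log Q ≤ log X := by
  have h1 : 1 ≤ log (log X) := hK.trans h.1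
  have h2 := h.logQ_ge hK
  have h3 := h.2.2
  have h4 : K * log Q ≤ K * (log Q * log (log X)) := by
    apply mul_le_mul_of_nonneg_left _ (by linarith)
    nlinarith
  linarith

/-- Absorb constants and powers of `log X` into a power of `Q`. -/
theorem reg_log_le (C A ε : ℝ) (hε : 0 < ε) : ∃ K : ℝ, 1 ≤ K ∧ ∀ Q X : ℕ, Reg K Q X →
    C * (log X) ^ A ≤ (Q : ℝ) ^ ε := by
  refine ⟨1 + |A| / ε + (1 + |C|) / ε, by
    have : 0 ≤ |A| / ε := by positivity
    have : 0 ≤ (1 + |C|) / ε := by positivity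
    linarith, fun Q X h => ?_⟩
  set K := 1 + |A| / ε + (1 + |C|) / ε with hKdef
  have hA : 0 ≤ |A| / ε := by positivity
  have hC : 0 ≤ (1 + |C|) / ε := by positivity
  have hK : 1 ≤ K := by rw [hKdef]; linarith
  have hK0 : 0 < K := by linarith
  have hlX := h.logX_pos hK0
  have hll : 1 ≤ log (log X) := hK.trans h.1
  have hQ : (0:ℝ) < Q := by exact_mod_cast h.Q_pos hK
  rcases le_or_gt C 0 with hC0 | hC0
  · have : C * (log X) ^ A ≤ 0 :=
      mul_nonpos_of_nonpos_of_nonneg hC0 (Real.rpow_nonneg hlX.le _)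
    exact this.trans (Real.rpow_nonneg hQ.le _)
  rw [Real.rpow_def_of_pos hlX, Real.rpow_def_of_pos hQ]
  have h1 : C ≤ exp (log (log X) * (1 + |C|)) := by
    have : C ≤ exp C := by linarith [Real.add_one_le_exp C]
    refine this.trans (Real.exp_le_exp.mpr ?_)
    have : C ≤ |C| := le_abs_self C
    nlinarith [abs_nonneg C]
  calc C * exp (log (log X) * A) ≤ exp (log (log X) * (1 + |C|)) * exp (log (log X) * A) :=
        mul_le_mul_of_nonneg_right h1 (exp_pos _).le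
    _ = exp (log (log X) * (1 + |C| + A)) := by rw [← Real.exp_add]; ring_nf
    _ ≤ exp (log Q * ε) := by
        apply Real.exp_le_exp.mpr
        have h2 : K * log (log X) ≤ log Q := h.2.1
        have h3 : (1 + |C| + A) ≤ K * ε := by
          rw [hKdef]
          have e1 : |A| / ε * ε = |A| := div_mul_cancel₀ _ hε.ne'
          have e2 : (1 + |C|) / ε * ε = 1 + |C| := div_mul_cancel₀ _ hε.ne'
          have : A ≤ |A| := le_abs_self A
          nlinarith
        calc log (log X) * (1 + |C| + A) ≤ log (log X) * (K * ε) :=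
              mul_le_mul_of_nonneg_left h3 (by linarith)
          _ = (K * log (log X)) * ε := by ring
          _ ≤ log Q * ε := mul_le_mul_of_nonneg_right h2 hε.le

/-- Absorb constants and powers of `Q` into a power of `X`. -/
theorem reg_pow_le (C A ε : ℝ) (hε : 0 < ε) : ∃ K : ℝ, 1 ≤ K ∧ ∀ Q X : ℕ, Reg K Q X →
    C * (Q : ℝ) ^ A ≤ (X : ℝ) ^ ε := by
  refine ⟨1 + |A| / ε + (1 + |C|) / ε, by
    have : 0 ≤ |A| / ε := by positivity
    have : 0 ≤ (1 + |C|) / ε := by positivity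
    linarith, fun Q X h => ?_⟩
  set K := 1 + |A| / ε + (1 + |C|) / ε with hKdef
  have hA : 0 ≤ |A| / ε := by positivity
  have hC : 0 ≤ (1 + |C|) / ε := by positivity
  have hK : 1 ≤ K := by rw [hKdef]; linarith
  have hK0 : 0 < K := by linarith
  have hQ : (0:ℝ) < Q := by exact_mod_cast h.Q_pos hK
  have hX : (0:ℝ) < X := by exact_mod_cast h.X_pos hK0
  have hlQ : 1 ≤ log Q := hK.trans (h.logQ_ge hK)
  rcases le_or_gt C 0 with hC0 | hC0
  · have : C * (Q:ℝ) ^ A ≤ 0 :=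
      mul_nonpos_of_nonpos_of_nonneg hC0 (Real.rpow_nonneg hQ.le _)
    exact this.trans (Real.rpow_nonneg hX.le _)
  rw [Real.rpow_def_of_pos hQ, Real.rpow_def_of_pos hX]
  have h1 : C ≤ exp (log Q * (1 + |C|)) := by
    have : C ≤ exp C := by linarith [Real.add_one_le_exp C]
    refine this.trans (Real.exp_le_exp.mpr ?_)
    have : C ≤ |C| := le_abs_self C
    nlinarith [abs_nonneg C]
  calc C * exp (log Q * A) ≤ exp (log Q * (1 + |C|)) * exp (log Q * A) :=
        mul_le_mul_of_nonneg_right h1 (exp_pos _).le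
    _ = exp (log Q * (1 + |C| + A)) := by rw [← Real.exp_add]; ring_nf
    _ ≤ exp (log X * ε) := by
        apply Real.exp_le_exp.mpr
        have h2 : K * log Q ≤ log X := h.logQ_le hK
        have h3 : (1 + |C| + A) ≤ K * ε := by
          rw [hKdef]
          have e1 : |A| / ε * ε = |A| := div_mul_cancel₀ _ hε.ne'
          have e2 : (1 + |C|) / ε * ε = 1 + |C| := div_mul_cancel₀ _ hε.ne'
          have : A ≤ |A| := le_abs_self A
          nlinarith
        calc log Q * (1 + |C| + A) ≤ log Q * (K * ε) :=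
              mul_le_mul_of_nonneg_left h3 (by linarith)
          _ = (K * log Q) * ε := by ring
          _ ≤ log X * ε := mul_le_mul_of_nonneg_right h2 hε.le

/-- The saving of the zero-free region: `C (log X)^A exp (-c log X / log Q) ≤ 1`. -/
theorem reg_exp_le (C A c : ℝ) (hc : 0 < c) : ∃ K : ℝ, 1 ≤ K ∧ ∀ Q X : ℕ, Reg K Q X →
    C * (log X) ^ A * exp (-(c * (log X / log Q))) ≤ 1 := by
  refine ⟨1 + |A| / c + (1 + |C|) / c, by
    have : 0 ≤ |A| / c := by positivity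
    have : 0 ≤ (1 + |C|) / c := by positivity
    linarith, fun Q X h => ?_⟩
  set K := 1 + |A| / c + (1 + |C|) / c with hKdef
  have hA : 0 ≤ |A| / c := by positivity
  have hC : 0 ≤ (1 + |C|) / c := by positivity
  have hK : 1 ≤ K := by rw [hKdef]; linarith
  have hK0 : 0 < K := by linarith
  have hlX := h.logX_pos hK0
  have hll : 1 ≤ log (log X) := hK.trans h.1
  have hlQ : 1 ≤ log Q := hK.trans (h.logQ_ge hK)
  rcases le_or_gt C 0 with hC0 | hC0
  · have h1 : C * (log X) ^ A ≤ 0 :=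
      mul_nonpos_of_nonpos_of_nonneg hC0 (Real.rpow_nonneg hlX.le _)
    have h2 := mul_nonpos_of_nonpos_of_nonneg h1 (exp_pos (-(c * (log X / log Q)))).le
    linarith
  have h1 : C ≤ exp (log (log X) * (1 + |C|)) := by
    have : C ≤ exp C := by linarith [Real.add_one_le_exp C]
    refine this.trans (Real.exp_le_exp.mpr ?_)
    have : C ≤ |C| := le_abs_self C
    nlinarith [abs_nonneg C]
  rw [Real.rpow_def_of_pos hlX]
  calc C * exp (log (log X) * A) * exp (-(c * (log X / log Q)))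
      ≤ exp (log (log X) * (1 + |C|)) * exp (log (log X) * A) * exp (-(c * (log X / log Q))) := by
        gcongr
    _ = exp (log (log X) * (1 + |C| + A) - c * (log X / log Q)) := by
        rw [← Real.exp_add, ← Real.exp_add]; ring_nf
    _ ≤ exp 0 := by
        apply Real.exp_le_exp.mpr
        have h2 : K * log (log X) ≤ log X / log Q := by
          rw [le_div_iff₀ (by linarith)]
          have := h.2.2
          linarith [mul_comm (log Q) (log (log X)), mul_assoc K (log (log X)) (log Q)]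
        have h3 : (1 + |C| + A) ≤ K * c := by
          rw [hKdef]
          have e1 : |A| / c * c = |A| := div_mul_cancel₀ _ hc.ne'
          have e2 : (1 + |C|) / c * c = 1 + |C| := div_mul_cancel₀ _ hc.ne'
          have : A ≤ |A| := le_abs_self A
          nlinarith
        have h4 : log (log X) * (1 + |C| + A) ≤ log (log X) * (K * c) :=
          mul_le_mul_of_nonneg_left h3 (by linarith)
        have h5 : (K * log (log X)) * c ≤ (log X / log Q) * c :=
          mul_le_mul_of_nonneg_right h2 hc.le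
        nlinarith
    _ = 1 := Real.exp_zero

end Pool.Agent.Lib.H68T
end

-- from Lib.H68T.GL1
section

/-!
# Chunk GL1; part of GL: growth of L-functions and zeta
-/

open Finset

namespace Pool.Agent.Lib.H68T

/-! ### Differences of powers -/

theorem gl1_hasDerivAt (s : ℂ) {x : ℝ} (hx : 0 < x) :
    HasDerivAt (fun x : ℝ => (x : ℂ) ^ (-s)) (-s * (x : ℂ) ^ (-s - 1)) x := by
  have h1 : HasDerivAt (fun z : ℂ => z ^ (-s)) (-s * (x : ℂ) ^ (-s - 1)) (x : ℂ) := by
    have := (hasDerivAt_id (x : ℂ)).cpow_const (c := -s) (by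
      left
      simpa using hx)
    simpa using this
  exact h1.comp_ofReal

theorem gl1_norm_deriv (s : ℂ) {x : ℝ} (hx : 0 < x) :
    ‖-s * (x : ℂ) ^ (-s - 1)‖ = ‖s‖ * x ^ (-s.re - 1) := by
  rw [norm_mul, norm_neg, Complex.norm_cpow_eq_rpow_re_of_pos hx]
  simp

/-- `‖a^(-s) - b^(-s)‖ ≤ |s|/σ (a^(-σ) - b^(-σ))` -/
theorem gl1_diff (s : ℂ) (hs : 0 < s.re) {a b : ℝ} (ha : 0 < a) (hab : a ≤ b) :
    ‖(b : ℂ) ^ (-s) - (a : ℂ) ^ (-s)‖ ≤ ‖s‖ / s.re * (a ^ (-s.re) - b ^ (-s.re)) := by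
  have hpos : ∀ x ∈ Set.Icc a b, 0 < x := fun x hx => lt_of_lt_of_le ha hx.1
  have key := image_norm_le_of_norm_deriv_right_le_deriv_boundary'
    (f := fun x : ℝ => (x : ℂ) ^ (-s) - (a : ℂ) ^ (-s)) (a := a) (b := b)
    (f' := fun x => -s * (x : ℂ) ^ (-s - 1))
    (B := fun x => ‖s‖ / s.re * (a ^ (-s.re) - x ^ (-s.re)))
    (B' := fun x => ‖s‖ * x ^ (-s.re - 1)) ?_ ?_ ?_ ?_ ?_ ?_
  · exact key ⟨hab, le_rfl⟩
  · intro x hx
    exact ((gl1_hasDerivAt s (hpos x hx)).sub_const _).continuousAt.continuousWithinAt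
  · intro x hx
    exact ((gl1_hasDerivAt s (hpos x ⟨hx.1, hx.2.le⟩)).sub_const _).hasDerivWithinAt
  · simp
  · intro x hx
    have h1 : HasDerivAt (fun x : ℝ => x ^ (-s.re)) (-s.re * x ^ (-s.re - 1)) x :=
      Real.hasDerivAt_rpow_const (Or.inl (hpos x hx).ne')
    exact ((h1.const_sub _).const_mul _).continuousAt.continuousWithinAt
  · intro x hx
    have h1 : HasDerivAt (fun x : ℝ => x ^ (-s.re)) (-s.re * x ^ (-s.re - 1)) x :=
      Real.hasDerivAt_rpow_const (Or.inl (hpos x ⟨hx.1, hx.2.le⟩).ne')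
    have h2 := ((h1.const_sub (a ^ (-s.re))).const_mul (‖s‖ / s.re)).hasDerivWithinAt
      (s := Set.Ici x)
    have h3 : ‖s‖ / s.re * -(-s.re * x ^ (-s.re - 1)) = ‖s‖ * x ^ (-s.re - 1) := by
      field_simp
    rw [h3] at h2
    exact h2
  · intro x hx
    rw [gl1_norm_deriv s (hpos x ⟨hx.1, hx.2.le⟩)]

/-- `‖a^(-s) - b^(-s)‖ ≤ |s| a^(-σ-1) (b - a)` -/
theorem gl1_diff' (s : ℂ) (hs : 0 < s.re) {a b : ℝ} (ha : 0 < a) (hab : a ≤ b) :
    ‖(b : ℂ) ^ (-s) - (a : ℂ) ^ (-s)‖ ≤ ‖s‖ * a ^ (-s.re - 1) * (b - a) := by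
  have hpos : ∀ x ∈ Set.Icc a b, 0 < x := fun x hx => lt_of_lt_of_le ha hx.1
  refine norm_image_sub_le_of_norm_deriv_le_segment' (f := fun x : ℝ => (x : ℂ) ^ (-s))
    (a := a) (b := b) (f' := fun x => -s * (x : ℂ) ^ (-s - 1))
    (fun x hx => (gl1_hasDerivAt s (hpos x hx)).hasDerivWithinAt) (fun x hx => ?_) b ⟨hab, le_rfl⟩
  have hx' := hpos x ⟨hx.1, hx.2.le⟩
  rw [gl1_norm_deriv s hx']
  refine mul_le_mul_of_nonneg_left ?_ (norm_nonneg _)
  exact Real.rpow_le_rpow_of_nonpos ha hx.1 (by linarith)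

/-! ### Series of functions on the right half plane -/

/-- A series dominated by `(n+1)^(-σ-1)`, locally uniformly, is analytic for `σ > 0`. -/
theorem gl1_analytic (F : ℕ → ℂ → ℂ) (hF : ∀ n, Differentiable ℂ (F n))
    (hb : ∀ R : ℝ, ∃ C : ℝ, ∀ n s, 0 < s.re → ‖s‖ ≤ R →
      ‖F n s‖ ≤ C * ((n : ℝ) + 1) ^ (-s.re - 1)) :
    DifferentiableOn ℂ (fun s => ∑' n, F n s) {s | 0 < s.re} := by
  intro s₀ hs₀
  have hs₀' : 0 < s₀.re := hs₀
  obtain ⟨C, hC⟩ := hb (‖s₀‖ + 1)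
  let U : Set ℂ := {s | s₀.re / 2 < s.re} ∩ {s | ‖s‖ < ‖s₀‖ + 1}
  have hU : IsOpen U := by
    apply IsOpen.inter
    · exact isOpen_lt continuous_const Complex.continuous_re
    · exact isOpen_lt continuous_norm continuous_const
  have hmem : s₀ ∈ U := by
    constructor
    · change s₀.re / 2 < s₀.re
      linarith
    · change ‖s₀‖ < ‖s₀‖ + 1
      linarith
  have hu : Summable fun n : ℕ => |C| * ((n : ℝ) + 1) ^ (-(s₀.re / 2) - 1) := by
    apply Summable.mul_left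
    have h1 : Summable fun n : ℕ => (n : ℝ) ^ (-(s₀.re / 2) - 1) :=
      Real.summable_nat_rpow.2 (by linarith)
    have h2 := (summable_nat_add_iff 1).2 h1
    simpa using h2
  have h1 := Complex.differentiableOn_tsum_of_summable_norm (F := F) hu
    (fun n => (hF n).differentiableOn) hU (fun n s hs => ?_)
  · exact (h1.differentiableAt (hU.mem_nhds hmem)).differentiableWithinAt
  · have h2 : s₀.re / 2 < s.re := hs.1
    have h3 : ‖s‖ < ‖s₀‖ + 1 := hs.2
    refine (hC n s (by linarith) h3.le).trans ?_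
    have h4 : ((n : ℝ) + 1) ^ (-s.re - 1) ≤ ((n : ℝ) + 1) ^ (-(s₀.re / 2) - 1) :=
      Real.rpow_le_rpow_of_exponent_le (by linarith [Nat.cast_nonneg (α := ℝ) n]) (by linarith)
    have h5 : 0 ≤ ((n : ℝ) + 1) ^ (-s.re - 1) := Real.rpow_nonneg (by positivity) _
    calc C * ((n : ℝ) + 1) ^ (-s.re - 1) ≤ |C| * ((n : ℝ) + 1) ^ (-s.re - 1) :=
          mul_le_mul_of_nonneg_right (le_abs_self C) h5
      _ ≤ |C| * ((n : ℝ) + 1) ^ (-(s₀.re / 2) - 1) :=
          mul_le_mul_of_nonneg_left h4 (abs_nonneg C)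

/-- telescoping -/
theorem gl1_tele (σ : ℝ) (hσ : 0 < σ) (D : ℝ) (hD : 0 ≤ D) (f : ℕ → ℂ)
    (hf : ∀ n : ℕ, ‖f n‖ ≤ D * (((n : ℝ) + 1) ^ (-σ) - ((n : ℝ) + 2) ^ (-σ))) :
    Summable f ∧ ‖∑' n, f n‖ ≤ D := by
  have hsum : ∀ K : ℕ, ∑ n ∈ range K, ‖f n‖ ≤ D := by
    intro K
    have h1 : ∑ n ∈ range K, ‖f n‖ ≤ D * (1 - ((K : ℝ) + 1) ^ (-σ)) := by
      induction K with
      | zero => simp
      | succ K ih =>
        rw [sum_range_succ]
        have h2 := hf K
        push_cast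
        have e : (K : ℝ) + 1 + 1 = (K : ℝ) + 2 := by ring
        rw [e]
        linarith
    have h3 : 0 ≤ ((K : ℝ) + 1) ^ (-σ) := Real.rpow_nonneg (by positivity) _
    nlinarith
  have hs : Summable fun n => ‖f n‖ := summable_of_sum_range_le (fun n => norm_nonneg _) hsum
  refine ⟨hs.of_norm, ?_⟩
  refine (norm_tsum_le_tsum_norm hs).trans ?_
  exact hs.tsum_le_of_sum_range_le hsum

/-! ### Partial sums of characters -/

/-- `χ(1) + ... + χ(n)` -/
noncomputable def gl1_T {N : ℕ} (χ : DirichletCharacter ℂ N) (n : ℕ) : ℂ :=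
  ∑ k ∈ range n, χ ((k + 1 : ℕ) : ZMod N)

theorem gl1_period (N : ℕ) [NeZero N] (χ : DirichletCharacter ℂ N) (hχ : χ ≠ 1) (n : ℕ) :
    ∑ k ∈ range N, χ ((n + k + 1 : ℕ) : ZMod N) = 0 := by
  rw [← MulChar.sum_eq_zero_of_ne_one hχ]
  refine sum_nbij' (fun k => ((n + k + 1 : ℕ) : ZMod N)) (fun a => (a - n - 1).val) ?_ ?_ ?_ ?_ ?_
  · intro k _
    exact mem_univ _
  · intro a _
    exact mem_range.2 (ZMod.val_lt _)
  · intro k hk
    have h1 : (((n + k + 1 : ℕ) : ZMod N) - n - 1) = (k : ZMod N) := by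
      push_cast
      ring
    rw [h1, ZMod.val_natCast, Nat.mod_eq_of_lt (mem_range.1 hk)]
  · intro a _
    push_cast
    rw [ZMod.natCast_val, ZMod.cast_id]
    ring
  · intro k _
    rfl

theorem gl1_T_bound (N : ℕ) [NeZero N] (χ : DirichletCharacter ℂ N) (hχ : χ ≠ 1) (n : ℕ) :
    ‖gl1_T χ n‖ ≤ N := by
  have hN : 0 < N := Nat.pos_of_ne_zero (NeZero.ne N)
  induction n using Nat.strong_induction_on with
  | _ n ih =>
    rcases lt_or_ge n N with h | h
    · refine (norm_sum_le _ _).trans ?_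
      refine (sum_le_sum fun k _ => DirichletCharacter.norm_le_one χ _).trans ?_
      rw [sum_const, card_range, nsmul_eq_mul, mul_one]
      exact_mod_cast h.le
    · obtain ⟨m, rfl⟩ := Nat.exists_eq_add_of_le' h
      have h1 : gl1_T χ (m + N) = gl1_T χ m := by
        rw [gl1_T, sum_range_add, gl1_period N χ hχ, add_zero]
        rfl
      rw [h1]
      exact ih m (by omega)

theorem gl1_parts {N : ℕ} (χ : DirichletCharacter ℂ N) (a : ℕ → ℂ) (K : ℕ) :
    ∑ n ∈ range K, χ ((n + 1 : ℕ) : ZMod N) * a n =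
      gl1_T χ K * a K + ∑ n ∈ range K, gl1_T χ (n + 1) * (a n - a (n + 1)) := by
  induction K with
  | zero => simp [gl1_T]
  | succ K ih =>
    rw [sum_range_succ, ih, sum_range_succ]
    have h1 : gl1_T χ (K + 1) = gl1_T χ K + χ ((K + 1 : ℕ) : ZMod N) := by
      rw [gl1_T, sum_range_succ]
      rfl
    rw [h1]
    ring

/-- the analytic continuation -/
noncomputable def gl1_A {N : ℕ} (χ : DirichletCharacter ℂ N) (n : ℕ) (s : ℂ) : ℂ :=
  gl1_T χ (n + 1) * ((((n : ℝ) + 1 : ℝ) : ℂ) ^ (-s) - (((n : ℝ) + 2 : ℝ) : ℂ) ^ (-s))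

theorem gl1_A_norm (N : ℕ) [NeZero N] (χ : DirichletCharacter ℂ N) (hχ : χ ≠ 1) (n : ℕ) (s : ℂ)
    (hs : 0 < s.re) : ‖gl1_A χ n s‖ ≤
      N * ‖s‖ / s.re * (((n : ℝ) + 1) ^ (-s.re) - ((n : ℝ) + 2) ^ (-s.re)) := by
  rw [gl1_A, norm_mul, norm_sub_rev]
  have h1 := gl1_T_bound N χ hχ (n + 1)
  have h2 := gl1_diff s hs (a := (n : ℝ) + 1) (b := (n : ℝ) + 2) (by positivity) (by linarith)
  calc _ ≤ (N : ℝ) * (‖s‖ / s.re * (((n : ℝ) + 1) ^ (-s.re) - ((n : ℝ) + 2) ^ (-s.re))) :=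
        mul_le_mul h1 h2 (norm_nonneg _) (Nat.cast_nonneg _)
    _ = _ := by ring

theorem gl1_A_norm' (N : ℕ) [NeZero N] (χ : DirichletCharacter ℂ N) (hχ : χ ≠ 1) (n : ℕ) (s : ℂ)
    (hs : 0 < s.re) : ‖gl1_A χ n s‖ ≤ N * ‖s‖ * ((n : ℝ) + 1) ^ (-s.re - 1) := by
  rw [gl1_A, norm_mul, norm_sub_rev]
  have h1 := gl1_T_bound N χ hχ (n + 1)
  have h2 := gl1_diff' s hs (a := (n : ℝ) + 1) (b := (n : ℝ) + 2) (by positivity) (by linarith)
  have e : (n : ℝ) + 2 - ((n : ℝ) + 1) = 1 := by ring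
  rw [e, mul_one] at h2
  calc _ ≤ (N : ℝ) * (‖s‖ * ((n : ℝ) + 1) ^ (-s.re - 1)) :=
        mul_le_mul h1 h2 (norm_nonneg _) (Nat.cast_nonneg _)
    _ = _ := by ring

theorem gl1_eq (N : ℕ) [NeZero N] (χ : DirichletCharacter ℂ N) (hχ : χ ≠ 1) (s : ℂ)
    (hs : 1 < s.re) : χ.LFunction s = ∑' n, gl1_A χ n s := by
  have hs0 : 0 < s.re := by linarith
  rw [DirichletCharacter.LFunction_eq_LSeries χ hs]
  have hsumA := (gl1_tele s.re hs0 (N * ‖s‖ / s.re) (by positivity) (fun n => gl1_A χ n s)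
    (fun n => gl1_A_norm N χ hχ n s hs0)).1
  have h1 : Summable (LSeries.term (fun n => χ (n : ZMod N)) s) :=
    DirichletCharacter.LSeriesSummable_of_one_lt_re χ hs
  have h2 : Filter.Tendsto (fun K => ∑ n ∈ range K,
      LSeries.term (fun n => χ (n : ZMod N)) s (n + 1)) Filter.atTop
      (nhds (LSeries (fun n => χ (n : ZMod N)) s)) := by
    have h3 := h1.hasSum.tendsto_sum_nat
    have h4 := (Filter.tendsto_add_atTop_iff_nat 1).2 h3
    refine h4.congr fun K => ?_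
    rw [sum_range_succ']
    simp
  have h5 : Filter.Tendsto (fun K => gl1_T χ K * (((K : ℝ) + 1 : ℝ) : ℂ) ^ (-s) +
      ∑ n ∈ range K, gl1_A χ n s) Filter.atTop (nhds (0 + ∑' n, gl1_A χ n s)) := by
    refine Filter.Tendsto.add ?_ hsumA.hasSum.tendsto_sum_nat
    have h6 : Filter.Tendsto (fun K : ℕ => (N : ℝ) * ((K : ℝ) + 1) ^ (-s.re)) Filter.atTop
        (nhds ((N : ℝ) * 0)) := by
      refine Filter.Tendsto.const_mul _ ?_
      have h7 := tendsto_rpow_neg_atTop hs0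
      have h8 : Filter.Tendsto (fun K : ℕ => (K : ℝ) + 1) Filter.atTop Filter.atTop :=
        Filter.tendsto_atTop_add_const_right _ _ tendsto_natCast_atTop_atTop
      exact h7.comp h8
    rw [mul_zero] at h6
    refine squeeze_zero_norm (fun K => ?_) h6
    rw [norm_mul, Complex.norm_cpow_eq_rpow_re_of_pos (by positivity)]
    exact mul_le_mul_of_nonneg_right (gl1_T_bound N χ hχ K) (Real.rpow_nonneg (by positivity) _)
  rw [zero_add] at h5
  refine tendsto_nhds_unique h2 (h5.congr fun K => ?_)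
  have h9 := gl1_parts χ (fun n => (((n : ℝ) + 1 : ℝ) : ℂ) ^ (-s)) K
  have h10 : ∀ n : ℕ, LSeries.term (fun n => χ (n : ZMod N)) s (n + 1) =
      χ ((n + 1 : ℕ) : ZMod N) * (((n : ℝ) + 1 : ℝ) : ℂ) ^ (-s) := by
    intro n
    rw [LSeries.term_of_ne_zero (by omega), Complex.cpow_neg, div_eq_mul_inv]
    push_cast
    rfl
  simp only [h10]
  rw [h9]
  congr 1
  refine sum_congr rfl fun n _ => ?_
  rw [gl1_A]
  congr 3
  push_cast
  ring_nf

theorem gl1_eqOn (N : ℕ) [NeZero N] (χ : DirichletCharacter ℂ N) (hχ : χ ≠ 1) (s : ℂ)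
    (hs : 0 < s.re) : χ.LFunction s = ∑' n, gl1_A χ n s := by
  have hop : IsOpen {s : ℂ | 0 < s.re} := isOpen_lt continuous_const Complex.continuous_re
  have h1 : AnalyticOnNhd ℂ (fun s => ∑' n, gl1_A χ n s) {s | 0 < s.re} := by
    apply DifferentiableOn.analyticOnNhd _ hop
    apply gl1_analytic
    · intro n
      unfold gl1_A
      have h : ∀ x : ℝ, 0 < x → Differentiable ℂ fun s : ℂ => (x : ℂ) ^ (-s) := by
        intro x hx s
        refine DifferentiableAt.const_cpow (differentiableAt_id.neg) (Or.inl ?_)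
        exact_mod_cast hx.ne'
      exact ((h _ (by positivity)).sub (h _ (by positivity))).const_mul _
    · intro R
      refine ⟨N * R, fun n s hs hR => ?_⟩
      refine (gl1_A_norm' N χ hχ n s hs).trans ?_
      apply mul_le_mul_of_nonneg_right _ (Real.rpow_nonneg (by positivity) _)
      exact mul_le_mul_of_nonneg_left hR (Nat.cast_nonneg _)
  have h2 : AnalyticOnNhd ℂ χ.LFunction {s | 0 < s.re} :=
    ((DirichletCharacter.differentiable_LFunction hχ).differentiableOn).analyticOnNhd hop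
  have h3 : IsPreconnected {s : ℂ | 0 < s.re} :=
    (convex_halfSpace_re_gt 0).isPreconnected
  have h4 := h2.eqOn_of_preconnected_of_eventuallyEq h1 h3 (z₀ := 2) (by simp) ?_
  · exact h4 hs
  · have h5 : {s : ℂ | 1 < s.re} ∈ nhds (2 : ℂ) :=
      (isOpen_lt continuous_const Complex.continuous_re).mem_nhds (by simp)
    filter_upwards [h5] with s hs
    exact gl1_eq N χ hχ s hs

/-- `‖L(s,χ)‖ ≤ 2 N ‖s‖` for `Re s ≥ 1/2`, `χ ≠ 1` mod `N`. Partial sums of `χ` are bounded by `N`;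
`L(s,χ) = s ∫_1^∞ S(u) u^(-s-1) du` for `Re s > 1` (`LSeries_eq_mul_integral`), both sides are
analytic for `Re s > 0` (differentiate under the integral, or locally uniform limits of the
integrals over `[1, n]`), so they agree there (`AnalyticOnNhd.eqOn_of_preconnected_of_eventuallyEq`);
`|s| N ∫_1^∞ u^(-3/2) du = 2 N |s|`. -/
theorem LFunction_bound (N : ℕ) [NeZero N] (χ : DirichletCharacter ℂ N) (hχ : χ ≠ 1) (s : ℂ)
    (hs : 1 / 2 ≤ s.re) : ‖χ.LFunction s‖ ≤ 2 * N * ‖s‖ := by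
  have hs0 : 0 < s.re := by linarith
  rw [gl1_eqOn N χ hχ s hs0]
  refine (gl1_tele s.re hs0 (N * ‖s‖ / s.re) (by positivity) (fun n => gl1_A χ n s)
    (fun n => gl1_A_norm N χ hχ n s hs0)).2.trans ?_
  rw [div_le_iff₀ hs0]
  have h1 : 0 ≤ (N : ℝ) * ‖s‖ := by positivity
  nlinarith

end Pool.Agent.Lib.H68T
end

-- from Lib.H68T.GL2
section

/-!
# Chunk GL2; part of GL: growth of L-functions and zeta
-/

open Finset

namespace Pool.Agent.Lib.H68T

/-- the terms of the continuation of `(s-1) ζ(s) - 1` -/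
noncomputable def gl2_B (n : ℕ) (s : ℂ) : ℂ :=
  (s - 1) * (((n : ℝ) + 1 : ℝ) : ℂ) ^ (-s) +
    ((((n : ℝ) + 2 : ℝ) : ℂ) ^ (-(s - 1)) - (((n : ℝ) + 1 : ℝ) : ℂ) ^ (-(s - 1)))

theorem gl2_aux (s : ℂ) (a : ℝ) (ha : 0 < a) (D : ℝ)
    (hD : ∀ x ∈ Set.Icc a (a + 1), ‖(x : ℂ) ^ (-s) - (a : ℂ) ^ (-s)‖ ≤ D) :
    ‖(s - 1) * (a : ℂ) ^ (-s) + (((a + 1 : ℝ) : ℂ) ^ (-(s - 1)) - (a : ℂ) ^ (-(s - 1)))‖ ≤
      ‖s - 1‖ * D := by
  have hpos : ∀ x ∈ Set.Icc a (a + 1), 0 < x := fun x hx => lt_of_lt_of_le ha hx.1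
  have key := norm_image_sub_le_of_norm_deriv_le_segment'
    (f := fun x : ℝ => (s - 1) * (a : ℂ) ^ (-s) * (x : ℂ) + (x : ℂ) ^ (-(s - 1)))
    (a := a) (b := a + 1) (f' := fun x => (s - 1) * (a : ℂ) ^ (-s) * 1 +
      -(s - 1) * (x : ℂ) ^ (-(s - 1) - 1)) (C := ‖s - 1‖ * D) ?_ ?_ (a + 1) ⟨by linarith, le_rfl⟩
  · have e1 : a + 1 - a = 1 := by ring
    rw [e1, mul_one] at key
    refine le_trans (le_of_eq ?_) key
    congr 1
    push_cast
    ring
  · intro x hx
    apply HasDerivAt.hasDerivWithinAt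
    apply HasDerivAt.add
    · exact (Complex.ofRealCLM.hasDerivAt (x := x)).const_mul _
    · exact gl1_hasDerivAt (s - 1) (hpos x hx)
  · intro x hx
    have h1 : (s - 1) * (a : ℂ) ^ (-s) * 1 + -(s - 1) * (x : ℂ) ^ (-(s - 1) - 1) =
        (s - 1) * ((a : ℂ) ^ (-s) - (x : ℂ) ^ (-s)) := by
      have e : -(s - 1) - 1 = -s := by ring
      rw [e]
      ring
    rw [h1, norm_mul, norm_sub_rev ((a : ℂ) ^ (-s))]
    exact mul_le_mul_of_nonneg_left (hD x ⟨hx.1, hx.2.le⟩) (norm_nonneg _)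

theorem gl2_B_norm (n : ℕ) (s : ℂ) (hs : 0 < s.re) : ‖gl2_B n s‖ ≤
    ‖s - 1‖ * ‖s‖ / s.re * (((n : ℝ) + 1) ^ (-s.re) - ((n : ℝ) + 2) ^ (-s.re)) := by
  have h1 := gl2_aux s ((n : ℝ) + 1) (by positivity)
    (‖s‖ / s.re * (((n : ℝ) + 1) ^ (-s.re) - ((n : ℝ) + 2) ^ (-s.re))) (by
      intro x hx
      refine (gl1_diff s hs (by positivity) hx.1).trans ?_
      refine mul_le_mul_of_nonneg_left ?_ (by positivity)
      have h2 : ((n : ℝ) + 2) ^ (-s.re) ≤ x ^ (-s.re) := by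
        apply Real.rpow_le_rpow_of_nonpos
        · have : 0 < (n : ℝ) + 1 := by positivity
          linarith [hx.1]
        · linarith [hx.2]
        · linarith
      linarith)
  have e : (n : ℝ) + 1 + 1 = (n : ℝ) + 2 := by ring
  rw [e] at h1
  rw [gl2_B]
  refine h1.trans (le_of_eq ?_)
  ring

theorem gl2_B_norm' (n : ℕ) (s : ℂ) (hs : 0 < s.re) : ‖gl2_B n s‖ ≤
    ‖s - 1‖ * ‖s‖ * ((n : ℝ) + 1) ^ (-s.re - 1) := by
  have h1 := gl2_aux s ((n : ℝ) + 1) (by positivity)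
    (‖s‖ * ((n : ℝ) + 1) ^ (-s.re - 1)) (by
      intro x hx
      refine (gl1_diff' s hs (by positivity) hx.1).trans ?_
      have h2 : 0 ≤ ‖s‖ * ((n : ℝ) + 1) ^ (-s.re - 1) := by positivity
      have h3 : x - ((n : ℝ) + 1) ≤ 1 := by linarith [hx.2]
      nlinarith)
  have e : (n : ℝ) + 1 + 1 = (n : ℝ) + 2 := by ring
  rw [e] at h1
  rw [gl2_B]
  refine h1.trans (le_of_eq ?_)
  ring

theorem gl2_eq (s : ℂ) (hs : 1 < s.re) : (s - 1) * riemannZeta s = 1 + ∑' n, gl2_B n s := by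
  have hs0 : 0 < s.re := by linarith
  have hsumB := (gl1_tele s.re hs0 (‖s - 1‖ * ‖s‖ / s.re) (by positivity) (fun n => gl2_B n s)
    (fun n => gl2_B_norm n s hs0)).1
  have h1 : Summable fun n : ℕ => 1 / ((n : ℂ) + 1) ^ s := by
    have h2 := Complex.summable_one_div_nat_cpow.2 hs
    have h3 := (summable_nat_add_iff 1).2 h2
    simpa using h3
  have h2 : Filter.Tendsto (fun K => ∑ n ∈ range K, 1 / ((n : ℂ) + 1) ^ s) Filter.atTop
      (nhds (riemannZeta s)) := by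
    rw [zeta_eq_tsum_one_div_nat_add_one_cpow hs]
    exact h1.hasSum.tendsto_sum_nat
  have h3 : Filter.Tendsto (fun K : ℕ => (((K : ℝ) + 1 : ℝ) : ℂ) ^ (-(s - 1))) Filter.atTop
      (nhds 0) := by
    have h6 : Filter.Tendsto (fun K : ℕ => ((K : ℝ) + 1) ^ (-(s.re - 1))) Filter.atTop
        (nhds 0) := by
      have h7 := tendsto_rpow_neg_atTop (y := s.re - 1) (by linarith)
      have h8 : Filter.Tendsto (fun K : ℕ => (K : ℝ) + 1) Filter.atTop Filter.atTop :=
        Filter.tendsto_atTop_add_const_right _ _ tendsto_natCast_atTop_atTop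
      exact h7.comp h8
    refine squeeze_zero_norm (fun K => ?_) h6
    rw [Complex.norm_cpow_eq_rpow_re_of_pos (by positivity)]
    simp
  have h4 : ∀ K : ℕ, ∑ n ∈ range K, gl2_B n s = (s - 1) * ∑ n ∈ range K, 1 / ((n : ℂ) + 1) ^ s +
      ((((K : ℝ) + 1 : ℝ) : ℂ) ^ (-(s - 1)) - 1) := by
    intro K
    induction K with
    | zero => simp
    | succ K ih =>
      rw [sum_range_succ, sum_range_succ, ih, gl2_B]
      have e1 : (((K : ℝ) + 1 : ℝ) : ℂ) ^ (-s) = 1 / ((K : ℂ) + 1) ^ s := by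
        rw [Complex.cpow_neg, one_div]
        push_cast
        rfl
      have e2 : (((K + 1 : ℕ) : ℝ) + 1 : ℝ) = (K : ℝ) + 2 := by
        push_cast
        ring
      rw [e1, e2]
      ring
  have h5 : Filter.Tendsto (fun K => ∑ n ∈ range K, gl2_B n s) Filter.atTop
      (nhds ((s - 1) * riemannZeta s + (0 - 1))) := by
    refine ((h2.const_mul (s - 1)).add (h3.sub_const 1)).congr fun K => ?_
    rw [h4]
  have h6 := tendsto_nhds_unique hsumB.hasSum.tendsto_sum_nat h5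
  rw [h6]
  ring

/-- `(s-1) ζ(s)`, the entire function -/
noncomputable def gl2_Z : ℂ → ℂ := DirichletCharacter.LFunctionTrivChar₁ 1

theorem gl2_Z_differentiable : Differentiable ℂ gl2_Z :=
  DirichletCharacter.differentiable_LFunctionTrivChar₁ 1

theorem gl2_Z_eq (s : ℂ) (hs : s ≠ 1) : gl2_Z s = (s - 1) * riemannZeta s := by
  unfold gl2_Z
  rw [DirichletCharacter.LFunctionTrivChar₁, Function.update_of_ne hs,
    DirichletCharacter.LFunctionTrivChar, DirichletCharacter.LFunction_modOne_eq]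

theorem gl2_Z_one : gl2_Z 1 = 1 := by
  unfold gl2_Z
  rw [DirichletCharacter.LFunctionTrivChar₁, Function.update_self]
  simp

theorem gl2_eqOn (s : ℂ) (hs : 0 < s.re) : gl2_Z s = 1 + ∑' n, gl2_B n s := by
  have hop : IsOpen {s : ℂ | 0 < s.re} := isOpen_lt continuous_const Complex.continuous_re
  have h1 : AnalyticOnNhd ℂ (fun s => 1 + ∑' n, gl2_B n s) {s | 0 < s.re} := by
    apply DifferentiableOn.analyticOnNhd _ hop
    refine DifferentiableOn.const_add 1 ?_
    apply gl1_analytic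
    · intro n
      unfold gl2_B
      have h : ∀ (x : ℝ) (a : ℂ), 0 < x → Differentiable ℂ fun s : ℂ => (x : ℂ) ^ (-(s - a)) := by
        intro x a hx s
        refine DifferentiableAt.const_cpow ((differentiableAt_id.sub_const a).neg) (Or.inl ?_)
        exact_mod_cast hx.ne'
      have h0 : ∀ (x : ℝ), 0 < x → Differentiable ℂ fun s : ℂ => (x : ℂ) ^ (-s) := by
        intro x hx
        simpa using h x 0 hx
      exact ((differentiable_id.sub_const 1).mul (h0 _ (by positivity))).add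
        ((h _ 1 (by positivity)).sub (h _ 1 (by positivity)))
    · intro R
      refine ⟨(|R| + 1) * |R|, fun n s hs hR => ?_⟩
      refine (gl2_B_norm' n s hs).trans ?_
      apply mul_le_mul_of_nonneg_right _ (Real.rpow_nonneg (by positivity) _)
      have hR' : ‖s‖ ≤ |R| := hR.trans (le_abs_self R)
      have h2 : ‖s - 1‖ ≤ |R| + 1 := by
        refine (norm_sub_le _ _).trans ?_
        rw [norm_one]
        linarith
      exact mul_le_mul h2 hR' (norm_nonneg _) (by positivity)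
  have h2 : AnalyticOnNhd ℂ gl2_Z {s | 0 < s.re} :=
    (gl2_Z_differentiable.differentiableOn).analyticOnNhd hop
  have h3 : IsPreconnected {s : ℂ | 0 < s.re} :=
    (convex_halfSpace_re_gt 0).isPreconnected
  have h4 := h2.eqOn_of_preconnected_of_eventuallyEq h1 h3 (z₀ := 2) (by simp) ?_
  · exact h4 hs
  · have h5 : {s : ℂ | 1 < s.re} ∈ nhds (2 : ℂ) :=
      (isOpen_lt continuous_const Complex.continuous_re).mem_nhds (by simp)
    filter_upwards [h5] with s hs
    have hs' : 1 < s.re := hs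
    rw [gl2_Z_eq s (by rintro rfl; simp at hs'), gl2_eq s hs]

theorem gl2_Z_bound (s : ℂ) (h1 : 1 / 2 ≤ s.re) (h3 : s.re ≤ 3) :
    ‖gl2_Z s‖ ≤ 4 * (|s.im| + 3) ^ 2 := by
  have hs0 : 0 < s.re := by linarith
  rw [gl2_eqOn s hs0]
  have h4 := (gl1_tele s.re hs0 (‖s - 1‖ * ‖s‖ / s.re) (by positivity) (fun n => gl2_B n s)
    (fun n => gl2_B_norm n s hs0)).2
  have h5 : ‖s‖ ≤ |s.im| + 3 := by
    refine (Complex.norm_le_abs_re_add_abs_im s).trans ?_
    rw [abs_of_pos hs0]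
    linarith
  have h6 : ‖s - 1‖ ≤ |s.im| + 4 := by
    refine (norm_sub_le _ _).trans ?_
    rw [norm_one]
    linarith
  have h7 : ‖s - 1‖ * ‖s‖ / s.re ≤ 2 * ((|s.im| + 4) * (|s.im| + 3)) := by
    rw [div_le_iff₀ hs0]
    have h8 : ‖s - 1‖ * ‖s‖ ≤ (|s.im| + 4) * (|s.im| + 3) :=
      mul_le_mul h6 h5 (norm_nonneg _) (by positivity)
    have h9 : 0 ≤ (|s.im| + 4) * (|s.im| + 3) := by positivity
    nlinarith
  have h8 : ‖1 + ∑' n, gl2_B n s‖ ≤ 1 + 2 * ((|s.im| + 4) * (|s.im| + 3)) := by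
    refine (norm_add_le _ _).trans ?_
    rw [norm_one]
    linarith
  have h9 : 0 ≤ |s.im| := abs_nonneg _
  nlinarith


end Pool.Agent.Lib.H68T
end

-- from Lib.H68T.LAN
section

/-!
# Chunk LAN: Landau's local lemma
-/

open Finset Metric

namespace Pool.Agent.Lib.H68T

theorem LAN_remove {U : Set ℂ} {f : ℂ → ℂ} (hf : AnalyticOnNhd ℂ f U) {ρ : ℂ} (hρ : ρ ∈ U)
    (hne : ¬ ∀ᶠ z in nhds ρ, f z = 0) :
    ∃ (n : ℕ) (h : ℂ → ℂ), AnalyticOnNhd ℂ h U ∧ h ρ ≠ 0 ∧ ∀ s, f s = (s - ρ) ^ n * h s := by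
  obtain ⟨n, g, hg, hg0, hev⟩ :=
    (AnalyticAt.exists_eventuallyEq_pow_smul_nonzero_iff (hf ρ hρ)).mpr hne
  classical
  refine ⟨n, fun s => if s = ρ then g ρ else f s / (s - ρ) ^ n, ?_, ?_, ?_⟩
  · intro s hs
    by_cases hsρ : s = ρ
    · subst hsρ
      refine hg.congr ?_
      filter_upwards [hev] with z hz
      by_cases hz1 : z = s
      · simp [hz1]
      · have h1 : (z - s) ^ n ≠ 0 := pow_ne_zero _ (sub_ne_zero.mpr hz1)
        simp only [hz1, if_false]
        rw [hz, smul_eq_mul]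
        field_simp
    · have h1 : AnalyticAt ℂ (fun z => f z / (z - ρ) ^ n) s := by
        refine (hf s hs).div ?_ ?_
        · fun_prop
        · exact pow_ne_zero _ (sub_ne_zero.mpr hsρ)
      refine h1.congr ?_
      filter_upwards [isOpen_ne.mem_nhds hsρ] with z hz
      have hz' : z ≠ ρ := hz
      simp [hz']
  · simpa using hg0
  · intro s
    by_cases hs : s = ρ
    · subst hs
      simp only [if_true]
      have := hev.self_of_nhds
      simpa [smul_eq_mul] using this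
    · have h1 : (s - ρ) ^ n ≠ 0 := pow_ne_zero _ (sub_ne_zero.mpr hs)
      simp only [hs, if_false]
      field_simp

theorem LAN_factor {U : Set ℂ} (f : ℂ → ℂ) (hf : AnalyticOnNhd ℂ f U)
    (hne : ∀ ρ ∈ U, ¬ ∀ᶠ z in nhds ρ, f z = 0) (T : Finset ℂ) (hT : ∀ t ∈ T, t ∈ U) :
    ∃ (Z : Multiset ℂ) (h : ℂ → ℂ), AnalyticOnNhd ℂ h U ∧ (∀ t ∈ T, h t ≠ 0) ∧
      (∀ ρ ∈ Z, ρ ∈ T ∧ f ρ = 0) ∧ (∀ ρ ∈ T, f ρ = 0 → ρ ∈ Z) ∧
      ∀ s, f s = (Z.map (fun ρ => s - ρ)).prod * h s := by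
  classical
  induction T using Finset.induction_on with
  | empty => exact ⟨0, f, hf, by simp, by simp, by simp, by simp⟩
  | insert ρ T' hρT' ih =>
    obtain ⟨Z, h, hh, hh0, hZ, hZ', hfac⟩ := ih (fun t ht => hT t (mem_insert_of_mem ht))
    have hρU : ρ ∈ U := hT ρ (mem_insert_self _ _)
    have hne' : ¬ ∀ᶠ z in nhds ρ, h z = 0 := by
      intro hev
      apply hne ρ hρU
      filter_upwards [hev] with z hz
      rw [hfac, hz, mul_zero]
    obtain ⟨n, g, hg, hg0, hfac2⟩ := LAN_remove hh hρU hne'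
    refine ⟨Multiset.replicate n ρ + Z, g, hg, ?_, ?_, ?_, ?_⟩
    · intro t ht
      rcases mem_insert.mp ht with rfl | ht
      · exact hg0
      · intro h0
        apply hh0 t ht
        rw [hfac2, h0, mul_zero]
    · intro t ht
      rcases Multiset.mem_add.mp ht with ht | ht
      · obtain ⟨hn, rfl⟩ := Multiset.mem_replicate.mp ht
        refine ⟨mem_insert_self _ _, ?_⟩
        rw [hfac, hfac2, sub_self, zero_pow hn, zero_mul, mul_zero]
      · exact ⟨mem_insert_of_mem (hZ t ht).1, (hZ t ht).2⟩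
    · intro t ht h0
      rcases mem_insert.mp ht with rfl | ht
      · rw [Multiset.mem_add, Multiset.mem_replicate]
        left
        refine ⟨?_, rfl⟩
        rintro rfl
        have h1 : h t ≠ 0 := by
          rw [hfac2]; simpa using hg0
        rw [hfac] at h0
        rcases mul_eq_zero.mp h0 with h2 | h2
        · rw [Multiset.prod_eq_zero_iff, Multiset.mem_map] at h2
          obtain ⟨a, ha, hat⟩ := h2
          have : t = a := sub_eq_zero.mp hat
          exact hρT' (this ▸ (hZ a ha).1)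
        · exact h1 h2
      · exact Multiset.mem_add.mpr (Or.inr (hZ' t ht h0))
    · intro s
      rw [hfac, hfac2, Multiset.map_add, Multiset.prod_add, Multiset.map_replicate,
        Multiset.prod_replicate]
      ring

theorem LAN_logDeriv_prod (Z : Multiset ℂ) (s : ℂ) (hs : ∀ ρ ∈ Z, s ≠ ρ) :
    logDeriv (fun z => (Z.map (fun ρ => z - ρ)).prod) s = (Z.map (fun ρ => 1 / (s - ρ))).sum ∧
      (Z.map (fun ρ => s - ρ)).prod ≠ 0 ∧
      DifferentiableAt ℂ (fun z => (Z.map (fun ρ => z - ρ)).prod) s := by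
  induction Z using Multiset.induction_on with
  | empty => simp [logDeriv]
  | cons a Z ih =>
    obtain ⟨h1, h2, h3⟩ := ih (fun ρ hρ => hs ρ (Multiset.mem_cons_of_mem hρ))
    have ha : s - a ≠ 0 := sub_ne_zero.mpr (hs a (Multiset.mem_cons_self a Z))
    simp only [Multiset.map_cons, Multiset.prod_cons, Multiset.sum_cons]
    have hd : DifferentiableAt ℂ (fun z : ℂ => z - a) s := by fun_prop
    refine ⟨?_, mul_ne_zero ha h2, hd.mul h3⟩
    have := logDeriv_mul (f := fun z : ℂ => z - a) (g := fun z => (Z.map (fun ρ => z - ρ)).prod) s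
      ha h2 hd h3
    rw [this, h1]
    congr 1
    simp [logDeriv]

/-- Borel–Carathéodory part. -/
theorem LAN_zero_free (g : ℂ → ℂ) (s₀ : ℂ) (R M : ℝ) (hR : 0 < R) (hM : 0 ≤ M)
    (hg : AnalyticOnNhd ℂ g (closedBall s₀ R)) (hg0 : ∀ s ∈ closedBall s₀ (R / 2), g s ≠ 0)
    (hb : ∀ s ∈ closedBall s₀ R, ‖g s‖ ≤ Real.exp M * ‖g s₀‖) :
    ∀ s ∈ closedBall s₀ (R / 4), ‖deriv g s / g s‖ ≤ 48 * (M + 1) / R := by
  have hsub : ball s₀ (R / 2) ⊆ closedBall s₀ R :=
    (ball_subset_closedBall).trans (closedBall_subset_closedBall (by linarith))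
  have hs0 : s₀ ∈ ball s₀ (R / 2) := mem_ball_self (by positivity)
  have hq : DifferentiableOn ℂ (fun s => deriv g s / g s) (ball s₀ (R / 2)) := by
    intro s hs
    refine DifferentiableAt.differentiableWithinAt ?_
    refine DifferentiableAt.div ((hg s (hsub hs)).deriv.differentiableAt)
      (hg s (hsub hs)).differentiableAt (hg0 s (ball_subset_closedBall hs))
  obtain ⟨φ, hφ0, hφ⟩ := Complex.IsExactOn.with_val_at hq.isExactOn_ball s₀ 0
  -- g = g s₀ * exp φ
  have hgs0 : g s₀ ≠ 0 := hg0 s₀ (ball_subset_closedBall hs0)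
  have hexp : ∀ s ∈ ball s₀ (R / 2), g s = g s₀ * Complex.exp (φ s) := by
    intro s hs
    have hconst : ∀ x ∈ ball s₀ (R / 2), g x * Complex.exp (-φ x) = g s₀ * Complex.exp (-φ s₀) := by
      intro x hx
      refine (convex_ball s₀ (R / 2)).is_const_of_fderivWithin_eq_zero (𝕜 := ℂ)
        (f := fun x => g x * Complex.exp (-φ x)) ?_ ?_ hx hs0
      · intro y hy
        exact ((hg y (hsub hy)).differentiableAt.mul
          ((hφ y hy).differentiableAt.neg.cexp)).differentiableWithinAt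
      · intro y hy
        have hd : HasDerivAt (fun x => g x * Complex.exp (-φ x)) 0 y := by
          have h1 := (hg y (hsub hy)).differentiableAt.hasDerivAt
          have h2 := (hφ y hy).neg.cexp
          have h3 := h1.mul h2
          have h4 : deriv g y * Complex.exp (-φ y) +
              g y * (Complex.exp (-φ y) * -(deriv g y / g y)) = 0 := by
            have := hg0 y (ball_subset_closedBall hy)
            field_simp
            ring
          rw [← h4]
          exact h3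
        have h5 := (hd.hasFDerivAt.hasFDerivWithinAt (s := ball s₀ (R / 2))).fderivWithin
          (isOpen_ball.uniqueDiffWithinAt hy)
        rw [h5]
        ext
        simp
    have h1 := hconst s hs
    rw [hφ0, neg_zero, Complex.exp_zero, mul_one] at h1
    rw [← h1, mul_assoc, ← Complex.exp_add, neg_add_cancel, Complex.exp_zero, mul_one]
  have hre : ∀ s ∈ ball s₀ (R / 2), (φ s).re ≤ M + 1 := by
    intro s hs
    have h1 := hb s (hsub hs)
    rw [hexp s hs, norm_mul, Complex.norm_exp, mul_comm] at h1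
    have h2 : Real.exp (φ s).re ≤ Real.exp M := le_of_mul_le_mul_right h1 (norm_pos_iff.mpr hgs0)
    have := Real.exp_le_exp.mp h2
    linarith
  have hφb : ∀ s ∈ closedBall s₀ (3 * R / 8), ‖φ s‖ ≤ 6 * (M + 1) := by
    intro s hs
    have hn : ‖s - s₀‖ ≤ 3 * R / 8 := by rwa [mem_closedBall_iff_norm] at hs
    have h := Complex.borelCaratheodory_zero (M := M + 1) (R := R / 2) (z := s - s₀)
      (f := fun z => φ (s₀ + z)) (by linarith) ?_ ?_ (by linarith) ?_ ?_
    · simp only [add_sub_cancel] at h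
      refine h.trans ?_
      have hpos : 0 < R / 2 - ‖s - s₀‖ := by linarith
      rw [div_le_iff₀ hpos]
      nlinarith
    · intro z hz
      have hz' : s₀ + z ∈ ball s₀ (R / 2) := by
        rw [mem_ball_iff_norm] at hz ⊢
        simpa using hz
      have h1 : DifferentiableAt ℂ φ (s₀ + z) := (hφ _ hz').differentiableAt
      have h2 : DifferentiableAt ℂ (fun z => s₀ + z) z := by fun_prop
      exact (h1.comp z h2).differentiableWithinAt
    · intro z hz
      have hz' : s₀ + z ∈ ball s₀ (R / 2) := by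
        rw [mem_ball_iff_norm] at hz ⊢
        simpa using hz
      exact hre _ hz'
    · rw [mem_ball_iff_norm, sub_zero]; linarith
    · simpa using hφ0
  intro s hs
  have hs4 : ‖s - s₀‖ ≤ R / 4 := by rwa [mem_closedBall_iff_norm] at hs
  have hsb : s ∈ ball s₀ (R / 2) := by rw [mem_ball_iff_norm]; linarith
  have hcau := Complex.norm_deriv_le_of_forall_mem_sphere_norm_le (c := s) (R := R / 8)
    (C := 6 * (M + 1)) (f := φ) (by linarith) ?_ ?_
  · rw [(hφ s hsb).deriv] at hcau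
    refine hcau.trans (le_of_eq ?_)
    field_simp
    ring
  · refine DifferentiableOn.diffContOnCl ?_
    rw [closure_ball _ (by positivity)]
    intro z hz
    have hz' : z ∈ ball s₀ (R / 2) := by
      rw [mem_closedBall_iff_norm] at hz
      rw [mem_ball_iff_norm]
      calc ‖z - s₀‖ = ‖(z - s) + (s - s₀)‖ := by ring_nf
        _ ≤ ‖z - s‖ + ‖s - s₀‖ := norm_add_le _ _
        _ < R / 2 := by linarith
    exact (hφ z hz').differentiableAt.differentiableWithinAt
  · intro z hz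
    apply hφb
    rw [mem_sphere_iff_norm] at hz
    rw [mem_closedBall_iff_norm]
    calc ‖z - s₀‖ = ‖(z - s) + (s - s₀)‖ := by ring_nf
      _ ≤ ‖z - s‖ + ‖s - s₀‖ := norm_add_le _ _
      _ ≤ 3 * R / 8 := by linarith

/-- **Landau's lemma** (Titchmarsh, 3.9, Lemma α). `f` analytic on the closed disc of radius `R`
about `s₀`, `‖f(s)/f(s₀)‖ ≤ e^M` there, `M ≥ 0`... then in the disc of radius `R/4` the logarithmic
derivative differs from `∑ 1/(s-ρ)`, over the zeros in the disc of radius `R/2` (with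
multiplicity), by at most `A M/R`.

Proof. `g(s) = f(s) ∏ (s-ρ)^(-1)` over the zeros `|ρ - s₀| ≤ R/2` (finitely many, with
multiplicity; e.g. `MeromorphicOn.extract_zeros_poles` or induction on the order, removing one zero
at a time with `dslope`), analytic on the big disc, non-zero for `|s - s₀| ≤ R/2`. On
`|s - s₀| = R`: `|s - ρ| ≥ R/2 ≥ |s₀ - ρ|`, so `|g(s)/g(s₀)| ≤ e^M`, hence everywhere in the disc
(maximum modulus). On the disc of radius `R/2`, `h = log (g/g(s₀))` exists, `h(s₀) = 0`, `Re h ≤ M`;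
Borel-Carathéodory (`Complex.borelCaratheodory_zero`): `|h| ≤ 6 M'` for `|s-s₀| ≤ 3R/8` (any
`M' > M`, e.g. `M' = M + 1`; that is why `M + 1` appears), Cauchy: `|h'| ≤ 48 M'/R` for
`|s-s₀| ≤ R/4`, and `h' = f'/f - ∑ 1/(s-ρ)`. -/
theorem landau : ∃ A : ℝ, 0 < A ∧ ∀ (f : ℂ → ℂ) (s₀ : ℂ) (R M : ℝ), 0 < R → 0 ≤ M →
    AnalyticOnNhd ℂ f (closedBall s₀ R) → f s₀ ≠ 0 →
    (∀ s ∈ closedBall s₀ R, ‖f s‖ ≤ Real.exp M * ‖f s₀‖) →
    ∃ Z : Multiset ℂ, (∀ ρ ∈ Z, ‖ρ - s₀‖ ≤ R / 2 ∧ f ρ = 0) ∧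
      (∀ ρ, ‖ρ - s₀‖ ≤ R / 2 → f ρ = 0 → ρ ∈ Z) ∧
      ∀ s ∈ closedBall s₀ (R / 4), f s ≠ 0 →
        ‖deriv f s / f s - (Z.map (fun ρ => 1 / (s - ρ))).sum‖ ≤ A * (M + 1) / R := by
  refine ⟨48, by norm_num, ?_⟩
  intro f s₀ R M hR hM hf hf0 hb
  have hs0 : s₀ ∈ closedBall s₀ R := mem_closedBall_self hR.le
  have hpre : IsPreconnected (closedBall s₀ R) := (convex_closedBall s₀ R).isPreconnected
  have hne : ∀ ρ ∈ closedBall s₀ R, ¬ ∀ᶠ z in nhds ρ, f z = 0 := by
    intro ρ hρ hev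
    exact hf0 (hf.eqOn_zero_of_preconnected_of_eventuallyEq_zero hpre hρ hev hs0)
  -- finiteness of the zeros
  have hfin : {ρ : ℂ | ρ ∈ closedBall s₀ (R / 2) ∧ f ρ = 0}.Finite := by
    by_contra hinf
    obtain ⟨x, hx, hacc⟩ := Set.Infinite.exists_accPt_of_subset_isCompact hinf
      (isCompact_closedBall s₀ (R / 2)) (fun ρ hρ => hρ.1)
    rw [accPt_iff_frequently_nhdsNE] at hacc
    have hx' : x ∈ closedBall s₀ R := closedBall_subset_closedBall (by linarith) hx
    exact hf0 (hf.eqOn_zero_of_preconnected_of_frequently_eq_zero hpre hx'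
      (hacc.mono fun y hy => hy.2) hs0)
  obtain ⟨Z, g, hg, hgT, hZ, hZ', hfac⟩ := LAN_factor f hf hne hfin.toFinset (fun t ht =>
    closedBall_subset_closedBall (by linarith) ((Set.Finite.mem_toFinset hfin).mp ht).1)
  refine ⟨Z, ?_, ?_, ?_⟩
  · intro ρ hρ
    refine ⟨?_, (hZ ρ hρ).2⟩
    have := ((Set.Finite.mem_toFinset hfin).mp (hZ ρ hρ).1).1
    rwa [mem_closedBall_iff_norm] at this
  · intro ρ h1 h2
    exact hZ' ρ ((Set.Finite.mem_toFinset hfin).mpr ⟨by rwa [mem_closedBall_iff_norm], h2⟩) h2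
  · have hZn : ∀ ρ ∈ Z, ‖ρ - s₀‖ ≤ R / 2 := by
      intro ρ hρ
      have := ((Set.Finite.mem_toFinset hfin).mp (hZ ρ hρ).1).1
      rwa [mem_closedBall_iff_norm] at this
    have hg0 : ∀ s ∈ closedBall s₀ (R / 2), g s ≠ 0 := by
      intro s hs h0
      have hfs : f s = 0 := by rw [hfac, h0, mul_zero]
      exact hgT s ((Set.Finite.mem_toFinset hfin).mpr ⟨hs, hfs⟩) h0
    -- bound on the sphere
    have hsph : ∀ s ∈ sphere s₀ R, ‖g s‖ ≤ Real.exp M * ‖g s₀‖ := by
      intro s hs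
      have hns : ‖s - s₀‖ = R := by rwa [mem_sphere_iff_norm] at hs
      have h1 := hb s (sphere_subset_closedBall hs)
      rw [hfac s, hfac s₀, norm_mul, norm_mul] at h1
      have hle : ‖(Z.map (fun ρ => s₀ - ρ)).prod‖ ≤ ‖(Z.map (fun ρ => s - ρ)).prod‖ ∧
          0 < ‖(Z.map (fun ρ => s - ρ)).prod‖ := by
        clear hZ hZ' hfac h1
        induction Z using Multiset.induction_on with
        | empty => simp
        | cons a Z ih =>
          obtain ⟨h2, h3⟩ := ih (fun ρ hρ => hZn ρ (Multiset.mem_cons_of_mem hρ))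
          have ha := hZn a (Multiset.mem_cons_self a Z)
          have h4 : R / 2 ≤ ‖s - a‖ := by
            have h5 : ‖s - s₀‖ ≤ ‖s - a‖ + ‖a - s₀‖ := by
              calc ‖s - s₀‖ = ‖(s - a) + (a - s₀)‖ := by ring_nf
                _ ≤ _ := norm_add_le _ _
            linarith
          simp only [Multiset.map_cons, Multiset.prod_cons, norm_mul]
          refine ⟨?_, mul_pos (by linarith) h3⟩
          refine mul_le_mul ?_ h2 (norm_nonneg _) (norm_nonneg _)
          rw [norm_sub_rev]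
          linarith
      obtain ⟨h2, h3⟩ := hle
      have h4 : ‖(Z.map (fun ρ => s - ρ)).prod‖ * ‖g s‖ ≤
          ‖(Z.map (fun ρ => s - ρ)).prod‖ * (Real.exp M * ‖g s₀‖) := by
        refine h1.trans ?_
        calc Real.exp M * (‖(Z.map (fun ρ => s₀ - ρ)).prod‖ * ‖g s₀‖)
            = ‖(Z.map (fun ρ => s₀ - ρ)).prod‖ * (Real.exp M * ‖g s₀‖) := by ring
          _ ≤ _ := mul_le_mul_of_nonneg_right h2 (by positivity)
      exact le_of_mul_le_mul_left h4 h3
    have hball : ∀ s ∈ closedBall s₀ R, ‖g s‖ ≤ Real.exp M * ‖g s₀‖ := by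
      intro s hs
      refine Complex.norm_le_of_forall_mem_frontier_norm_le (U := ball s₀ R) isBounded_ball ?_ ?_ ?_
      · refine DifferentiableOn.diffContOnCl ?_
        rw [closure_ball _ hR.ne']
        exact fun z hz => (hg z hz).differentiableAt.differentiableWithinAt
      · intro z hz
        rw [frontier_ball _ hR.ne'] at hz
        exact hsph z hz
      · rwa [closure_ball _ hR.ne']
    have hfinal := LAN_zero_free g s₀ R M hR hM hg hg0 hball
    intro s hs hfs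
    have hsR : s ∈ closedBall s₀ R := closedBall_subset_closedBall (by linarith) hs
    have hZs : ∀ ρ ∈ Z, s ≠ ρ := by
      rintro ρ hρ rfl
      exact hfs (hZ s hρ).2
    obtain ⟨h1, h2, h3⟩ := LAN_logDeriv_prod Z s hZs
    have hgs : g s ≠ 0 := by
      intro h0
      exact hfs (by rw [hfac, h0, mul_zero])
    have hff : f = fun z => (Z.map (fun ρ => z - ρ)).prod * g z := funext hfac
    have h4 := logDeriv_mul (f := fun z => (Z.map (fun ρ => z - ρ)).prod) (g := g) s h2 hgs h3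
      (hg s hsR).differentiableAt
    have h5 : deriv f s / f s = (Z.map (fun ρ => 1 / (s - ρ))).sum + deriv g s / g s := by
      rw [← h1]
      have : logDeriv f s = deriv f s / f s := by rw [logDeriv_apply]
      rw [← this]
      have h6 : logDeriv g s = deriv g s / g s := by rw [logDeriv_apply]
      rw [← h6, ← h4, hff]
    rw [h5, add_sub_cancel_left]
    exact hfinal s hs

end Pool.Agent.Lib.H68T
end

-- from Lib.H68T.LAB1
section

/-!
# Chunk LAB1; part of LAB: real parts of logarithmic derivatives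
-/

open Finset ArithmeticFunction

namespace Pool.Agent.Lib.H68T

/-! ### The series of the von Mangoldt function and the logarithmic derivatives -/

theorem lab1_zeta (s : ℂ) (hs : 1 < s.re) :
    LSeries (fun n => (vonMangoldt n : ℂ)) s = - logDeriv riemannZeta s := by
  rw [logDeriv_apply, ← neg_div]
  exact ArithmeticFunction.LSeries_vonMangoldt_eq_deriv_riemannZeta_div hs

theorem lab1_Z (s : ℂ) (hs : 1 < s.re) :
    LSeries (fun n => (vonMangoldt n : ℂ)) s = 1 / (s - 1) - logDeriv gl2_Z s := by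
  have hs1 : s ≠ 1 := by
    rintro rfl
    simp at hs
  have hz : riemannZeta s ≠ 0 := riemannZeta_ne_zero_of_one_le_re hs.le
  have h1 : gl2_Z =ᶠ[nhds s] fun z => (z - 1) * riemannZeta z := by
    filter_upwards [isOpen_compl_singleton.mem_nhds (show s ∈ ({1}ᶜ : Set ℂ) from hs1)] with z hz
    exact gl2_Z_eq z hz
  have h2 := (logDeriv_congr_nhds h1).eq_of_nhds
  rw [h2, logDeriv_mul (f := fun z : ℂ => z - 1) (g := riemannZeta) s (sub_ne_zero.2 hs1) hz
    (by fun_prop) (differentiableAt_riemannZeta hs1), lab1_zeta s hs]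
  have h3 : logDeriv (fun z : ℂ => z - 1) s = 1 / (s - 1) := by
    rw [logDeriv_apply]
    simp
  rw [h3]
  ring

theorem lab1_char (N : ℕ) [NeZero N] (χ : DirichletCharacter ℂ N) (s : ℂ) (hs : 1 < s.re) :
    LSeries (fun n => (vonMangoldt n : ℂ) * χ (n : ZMod N)) s = - logDeriv χ.LFunction s := by
  have h1 := DirichletCharacter.LSeries_twist_vonMangoldt_eq χ hs
  have h2 : (fun n : ℕ => (vonMangoldt n : ℂ) * χ (n : ZMod N)) =
      (fun n : ℕ => χ (n : ZMod N)) * fun n : ℕ => (vonMangoldt n : ℂ) := by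
    funext n
    simp [mul_comm]
  rw [h2, h1, logDeriv_apply, DirichletCharacter.deriv_LFunction_eq_deriv_LSeries χ hs,
    DirichletCharacter.LFunction_eq_LSeries χ hs, neg_div]

theorem lab1_term_norm (N : ℕ) (χ : DirichletCharacter ℂ N) (s : ℂ) (n : ℕ) :
    ‖LSeries.term (fun n => (vonMangoldt n : ℂ) * χ (n : ZMod N)) s n‖ ≤
      ‖LSeries.term (fun n => (vonMangoldt n : ℂ)) s n‖ := by
  apply LSeries.norm_term_le
  rw [norm_mul]
  calc ‖(vonMangoldt n : ℂ)‖ * ‖χ (n : ZMod N)‖ ≤ ‖(vonMangoldt n : ℂ)‖ * 1 :=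
        mul_le_mul_of_nonneg_left (DirichletCharacter.norm_le_one χ _) (norm_nonneg _)
    _ = _ := mul_one _

theorem lab1_term_re (s : ℂ) (n : ℕ) :
    ‖LSeries.term (fun n => (vonMangoldt n : ℂ)) s n‖ =
      (LSeries.term (fun n => (vonMangoldt n : ℂ)) s.re n).re := by
  rcases Nat.eq_zero_or_pos n with rfl | hn
  · simp
  · rw [LSeries.term_of_ne_zero hn.ne', LSeries.term_of_ne_zero hn.ne', norm_div,
      Complex.norm_natCast_cpow_of_pos hn, Complex.norm_real, Real.norm_of_nonneg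
      vonMangoldt_nonneg]
    have h1 : ((n : ℂ) ^ ((s.re : ℝ) : ℂ)) = (((n : ℝ) ^ s.re : ℝ) : ℂ) := by
      rw [Complex.ofReal_cpow (Nat.cast_nonneg n)]
      simp
    rw [h1, ← Complex.ofReal_div, Complex.ofReal_re]

/-- `|L_Λχ(s)| ≤ L_Λ(σ)` -/
theorem norm_LSeries_vM_le (N : ℕ) (χ : DirichletCharacter ℂ N) (s : ℂ) (hs : 1 < s.re) :
    ‖LSeries (fun n => (vonMangoldt n : ℂ) * χ (n : ZMod N)) s‖ ≤
      (LSeries (fun n => (vonMangoldt n : ℂ)) s.re).re := by
  have h1 : Summable (LSeries.term (fun n => (vonMangoldt n : ℂ)) s) :=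
    ArithmeticFunction.LSeriesSummable_vonMangoldt hs
  have h2 : Summable (LSeries.term (fun n => (vonMangoldt n : ℂ)) (s.re : ℂ)) :=
    ArithmeticFunction.LSeriesSummable_vonMangoldt (by simpa using hs)
  have h3 : Summable fun n => ‖LSeries.term (fun n => (vonMangoldt n : ℂ) * χ (n : ZMod N)) s n‖ :=
    Summable.of_nonneg_of_le (fun n => norm_nonneg _) (lab1_term_norm N χ s) h1.norm
  have h4 : (LSeries (fun n => (vonMangoldt n : ℂ)) s.re).re =
      ∑' n, (LSeries.term (fun n => (vonMangoldt n : ℂ)) s.re n).re := Complex.re_tsum h2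
  rw [h4]
  refine (norm_tsum_le_tsum_norm h3).trans ?_
  have h5 : (fun n => (LSeries.term (fun n => (vonMangoldt n : ℂ)) s.re n).re) =
      fun n => ‖LSeries.term (fun n => (vonMangoldt n : ℂ)) s n‖ := by
    funext n
    rw [lab1_term_re]
  rw [h5]
  exact Summable.tsum_le_tsum (lab1_term_norm N χ s) h3 h1.norm

/-- `∑ Λ(n) n^(-σ) ≤ 1/(σ-1) + C` for `1 < σ ≤ 2` (`ζ(σ)(σ-1)` is continuous and positive on
`[1, 2]`, Mathlib has `riemannZeta` near `1`; or special case `t = 0`, `S = ∅` of a cruder lemma). -/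
theorem vonMangoldt_le : ∃ C : ℝ, 0 < C ∧ ∀ σ : ℝ, 1 < σ → σ ≤ 2 →
    (LSeries (fun n => (vonMangoldt n : ℂ)) σ).re ≤ 1 / (σ - 1) + C := by
  have hcont : ContinuousOn (fun σ : ℝ => logDeriv gl2_Z (σ : ℂ)) (Set.Icc 1 2) := by
    have h1 := DirichletCharacter.continuousOn_neg_logDeriv_LFunctionTrivChar₁ 1
    have h2 : ContinuousOn (fun σ : ℝ => (σ : ℂ)) (Set.Icc 1 2) :=
      Complex.continuous_ofReal.continuousOn
    have h3 := (h1.comp h2 (fun σ hσ => ?_)).neg
    · refine h3.congr fun σ _ => ?_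
      simp only [logDeriv_apply, Pi.neg_apply, Function.comp_apply, neg_div, neg_neg]
      rfl
    · by_cases h4 : σ = 1
      · left
        rw [h4]
        simp
      · right
        rw [DirichletCharacter.LFunctionTrivChar, DirichletCharacter.LFunction_modOne_eq]
        exact riemannZeta_ne_zero_of_one_le_re (by simpa using hσ.1)
  obtain ⟨C, hC⟩ := (isCompact_Icc.exists_bound_of_continuousOn hcont)
  refine ⟨|C| + 1, by positivity, fun σ h1 h2 => ?_⟩
  rw [lab1_Z (σ : ℂ) (by simpa using h1), Complex.sub_re]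
  have h3 : (1 / ((σ : ℂ) - 1)).re = 1 / (σ - 1) := by
    have : (1 / ((σ : ℂ) - 1)) = ((1 / (σ - 1) : ℝ) : ℂ) := by push_cast; rfl
    rw [this, Complex.ofReal_re]
  rw [h3]
  have h4 := hC σ ⟨h1.le, h2⟩
  have h5 : -(logDeriv gl2_Z (σ : ℂ)).re ≤ ‖logDeriv gl2_Z (σ : ℂ)‖ := by
    have := Complex.abs_re_le_norm (logDeriv gl2_Z (σ : ℂ))
    linarith [neg_abs_le (logDeriv gl2_Z (σ : ℂ)).re]
  linarith [le_abs_self C]

/-! ### Principal characters -/

theorem lab1_factor (p : ℕ) (hp : 2 ≤ p) (s : ℂ) (hs : 1 < s.re) :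
    ‖(p : ℂ) ^ (-s)‖ ≤ 1 / 2 := by
  rw [Complex.norm_natCast_cpow_of_pos (by omega)]
  have h1 : (p : ℝ) ^ (-s).re ≤ (p : ℝ) ^ (-1 : ℝ) := by
    apply Real.rpow_le_rpow_of_exponent_le
    · exact_mod_cast (by omega : 1 ≤ p)
    · simp
      linarith
  refine h1.trans ?_
  rw [Real.rpow_neg_one]
  have h2 : (2 : ℝ) ≤ p := by exact_mod_cast hp
  rw [inv_eq_one_div]
  exact one_div_le_one_div_of_le (by norm_num) h2

theorem lab1_factor_ne (p : ℕ) (hp : 2 ≤ p) (s : ℂ) (hs : 1 < s.re) :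
    1 - (p : ℂ) ^ (-s) ≠ 0 := by
  intro h
  have h1 := lab1_factor p hp s hs
  rw [← sub_eq_zero.1 h, norm_one] at h1
  norm_num at h1

theorem lab1_factor_deriv (p : ℕ) (hp : 2 ≤ p) (s : ℂ) :
    HasDerivAt (fun s : ℂ => 1 - (p : ℂ) ^ (-s)) ((p : ℂ) ^ (-s) * Complex.log p) s := by
  have hp0 : (p : ℂ) ≠ 0 := by
    have : p ≠ 0 := by omega
    exact_mod_cast this
  have h1 := ((hasDerivAt_id s).neg.const_cpow (c := (p : ℂ)) (Or.inl hp0)).const_sub 1
  have e : -((p : ℂ) ^ (-s) * Complex.log p * -1) = (p : ℂ) ^ (-s) * Complex.log p := by ring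
  simp only [Pi.neg_apply, id_eq] at h1
  rw [← e]
  exact h1

theorem lab1_factor_log (p : ℕ) (hp : 2 ≤ p) (s : ℂ) (hs : 1 < s.re) :
    ‖logDeriv (fun s : ℂ => 1 - (p : ℂ) ^ (-s)) s‖ ≤ Real.log p := by
  rw [logDeriv_apply, (lab1_factor_deriv p hp s).deriv, norm_div, norm_mul]
  have h1 := lab1_factor p hp s hs
  have h2 : 1 / 2 ≤ ‖1 - (p : ℂ) ^ (-s)‖ := by
    have := norm_sub_norm_le (1 : ℂ) ((p : ℂ) ^ (-s))
    rw [norm_one] at this
    linarith
  have h3 : ‖Complex.log p‖ = Real.log p := by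
    rw [← Complex.natCast_log, Complex.norm_real, Real.norm_of_nonneg]
    exact Real.log_natCast_nonneg p
  have h4 : 0 ≤ Real.log p := Real.log_natCast_nonneg p
  rw [h3, div_le_iff₀ (by linarith)]
  nlinarith

/-- Principal characters: the Euler factors at `p ∣ r` change `L_Λ` by at most
`∑_{p ∣ r} log p/(p-1) ≤ log r`. -/
theorem principal_sub (r : ℕ) [NeZero r] (s : ℂ) (hs : 1 < s.re) :
    ‖LSeries (fun n => (vonMangoldt n : ℂ) * (1 : DirichletCharacter ℂ r) (n : ZMod r)) s -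
      LSeries (fun n => (vonMangoldt n : ℂ)) s‖ ≤ Real.log r := by
  have hs1 : s ≠ 1 := by
    rintro rfl
    simp at hs
  have hz : riemannZeta s ≠ 0 := riemannZeta_ne_zero_of_one_le_re hs.le
  have hp2 : ∀ p ∈ r.primeFactors, 2 ≤ p := fun p hp => (Nat.prime_of_mem_primeFactors hp).two_le
  rw [lab1_char r 1 s hs, lab1_zeta s hs]
  have h1 : (1 : DirichletCharacter ℂ r).LFunction =ᶠ[nhds s]
      fun z => (∏ p ∈ r.primeFactors, (1 - (p : ℂ) ^ (-z))) * riemannZeta z := by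
    filter_upwards [isOpen_compl_singleton.mem_nhds (show s ∈ ({1}ᶜ : Set ℂ) from hs1)] with z hz
    exact DirichletCharacter.LFunctionTrivChar_eq_mul_riemannZeta hz
  have h2 := (logDeriv_congr_nhds h1).eq_of_nhds
  have hprod : (∏ p ∈ r.primeFactors, (1 - (p : ℂ) ^ (-s))) ≠ 0 :=
    prod_ne_zero_iff.2 fun p hp => lab1_factor_ne p (hp2 p hp) s hs
  have hdiff : ∀ p ∈ r.primeFactors, DifferentiableAt ℂ (fun z : ℂ => 1 - (p : ℂ) ^ (-z)) s :=
    fun p hp => (lab1_factor_deriv p (hp2 p hp) s).differentiableAt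
  have hdiffp : DifferentiableAt ℂ (fun z : ℂ => ∏ p ∈ r.primeFactors, (1 - (p : ℂ) ^ (-z))) s := by
    have := DifferentiableAt.fun_finsetProd hdiff
    exact this
  rw [h2, logDeriv_mul s hprod hz hdiffp (differentiableAt_riemannZeta hs1),
    logDeriv_prod (fun p hp => lab1_factor_ne p (hp2 p hp) s hs) hdiff]
  have h3 : -((∑ p ∈ r.primeFactors, logDeriv (fun z : ℂ => 1 - (p : ℂ) ^ (-z)) s) +
      logDeriv riemannZeta s) - -logDeriv riemannZeta s =
      -∑ p ∈ r.primeFactors, logDeriv (fun z : ℂ => 1 - (p : ℂ) ^ (-z)) s := by ring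
  rw [h3, norm_neg]
  refine (norm_sum_le _ _).trans ?_
  refine (sum_le_sum fun p hp => lab1_factor_log p (hp2 p hp) s hs).trans ?_
  rw [← Real.log_prod (fun p hp => by
    have := hp2 p hp
    have : p ≠ 0 := by omega
    exact_mod_cast this)]
  apply Real.log_le_log
  · refine prod_pos fun p hp => ?_
    have := hp2 p hp
    exact_mod_cast (by omega : 0 < p)
  · have h4 := Nat.le_of_dvd (Nat.pos_of_ne_zero (NeZero.ne r)) (Nat.prod_primeFactors_dvd r)
    have h5 : ((∏ p ∈ r.primeFactors, p : ℕ) : ℝ) ≤ (r : ℝ) := Nat.cast_le.2 h4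
    rw [Nat.cast_prod] at h5
    exact h5

end Pool.Agent.Lib.H68T
end

-- from Lib.H68T.T341
section

/-!
# Chunk T341: positivity
-/

open Finset ArithmeticFunction

namespace Pool.Agent.Lib.H68T

theorem T341_summable (h : ℕ → ℂ) (hh : ∀ n, ‖h n‖ ≤ 1) (s : ℂ) (hs : 1 < s.re) :
    LSeriesSummable (fun n => (vonMangoldt n : ℂ) * h n) s := by
  have h1 := (LSeriesSummable_vonMangoldt hs).norm
  refine Summable.of_norm_bounded h1 (fun n => ?_)
  rcases eq_or_ne n 0 with rfl | hn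
  · simp
  · rw [LSeries.term_of_ne_zero hn, LSeries.term_of_ne_zero hn, norm_div, norm_div, norm_mul]
    have : ‖((vonMangoldt n : ℝ) : ℂ)‖ * ‖h n‖ ≤ ‖((vonMangoldt n : ℝ) : ℂ)‖ * 1 :=
      mul_le_mul_of_nonneg_left (hh n) (norm_nonneg _)
    rw [mul_one] at this
    exact div_le_div_of_nonneg_right this (norm_nonneg _)

theorem T341_hasSum (h : ℕ → ℂ) (hh : ∀ n, ‖h n‖ ≤ 1) (σ u : ℝ) (hσ : 1 < σ) :
    HasSum (fun n : ℕ => ((vonMangoldt n : ℝ) * (n : ℝ) ^ (-σ)) *
      (h n * (n : ℂ) ^ (-(u * Complex.I))).re)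
      (LSeries (fun n => (vonMangoldt n : ℂ) * h n) (σ + u * Complex.I)).re := by
  have hs : 1 < ((σ : ℂ) + u * Complex.I).re := by simpa using hσ
  have h1 : HasSum (LSeries.term (fun n => (vonMangoldt n : ℂ) * h n) (σ + u * Complex.I))
      (LSeries (fun n => (vonMangoldt n : ℂ) * h n) (σ + u * Complex.I)) :=
    (T341_summable h hh _ hs).hasSum
  have h2 := Complex.hasSum_re h1
  convert h2 using 1
  funext n
  rcases eq_or_ne n 0 with rfl | hn
  · simp
  · rw [LSeries.term_of_ne_zero hn]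
    have hn0 : (n : ℂ) ≠ 0 := by exact_mod_cast hn
    have e1 : (vonMangoldt n : ℂ) * h n / (n : ℂ) ^ ((σ : ℂ) + u * Complex.I) =
        (((vonMangoldt n : ℝ) * (n : ℝ) ^ (-σ) : ℝ) : ℂ) * (h n * (n : ℂ) ^ (-(u * Complex.I))) := by
      rw [Complex.cpow_add _ _ hn0, Complex.cpow_neg]
      push_cast
      rw [Complex.ofReal_cpow (Nat.cast_nonneg n)]
      push_cast
      rw [Complex.cpow_neg]
      have a1 : (n : ℂ) ^ (σ : ℂ) ≠ 0 := by
        rw [Complex.cpow_ne_zero_iff]; left; exact hn0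
      have a2 : (n : ℂ) ^ ((u : ℂ) * Complex.I) ≠ 0 := by
        rw [Complex.cpow_ne_zero_iff]; left; exact hn0
      field_simp
    rw [e1, Complex.re_ofReal_mul]

theorem T341_weight_nonneg (σ : ℝ) (n : ℕ) : 0 ≤ (vonMangoldt n : ℝ) * (n : ℝ) ^ (-σ) :=
  mul_nonneg vonMangoldt_nonneg (Real.rpow_nonneg (Nat.cast_nonneg n) _)

theorem T341_alg (z : ℂ) (hz : ‖z‖ ≤ 1) : 0 ≤ 3 + 4 * z.re + (z ^ 2).re := by
  have h1 : z.re ^ 2 + z.im ^ 2 ≤ 1 := by
    have := Complex.sq_norm z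
    rw [Complex.normSq_apply] at this
    have h3 : ‖z‖ ^ 2 ≤ 1 := by
      have := norm_nonneg z
      nlinarith
    nlinarith
  have h2 : (z ^ 2).re = z.re ^ 2 - z.im ^ 2 := by
    rw [pow_two, Complex.mul_re]; ring
  rw [h2]
  nlinarith [sq_nonneg (z.re + 1)]

theorem T341_norm_cpow (n : ℕ) (u : ℝ) : ‖(n : ℂ) ^ (-((u : ℂ) * Complex.I))‖ ≤ 1 := by
  rcases eq_or_ne n 0 with rfl | hn
  · rcases eq_or_ne u 0 with rfl | hu
    · simp
    · rw [Nat.cast_zero, Complex.zero_cpow]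
      · simp
      · intro h
        rw [neg_eq_zero, mul_eq_zero] at h
        rcases h with h | h
        · exact hu (by exact_mod_cast h)
        · exact Complex.I_ne_zero h
  · have hpos : 0 < n := Nat.pos_of_ne_zero hn
    rw [Complex.norm_natCast_cpow_of_pos hpos]
    simp

theorem T341_main (h₁ h₂ : ℕ → ℂ) (hh₁ : ∀ n, ‖h₁ n‖ ≤ 1) (hh₂ : ∀ n, h₂ n = h₁ n ^ 2)
    (σ t : ℝ) (hσ : 1 < σ) :
    0 ≤ 3 * (LSeries (fun n => (vonMangoldt n : ℂ)) σ).re +
      4 * (LSeries (fun n => (vonMangoldt n : ℂ) * h₁ n) (σ + t * Complex.I)).re +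
      (LSeries (fun n => (vonMangoldt n : ℂ) * h₂ n) (σ + 2 * t * Complex.I)).re := by
  have A0 := T341_hasSum (fun _ => 1) (fun n => by simp) σ 0 hσ
  have A1 := T341_hasSum h₁ hh₁ σ t hσ
  have A2 := T341_hasSum h₂ (fun n => by
    rw [hh₂, norm_pow]
    exact pow_le_one₀ (norm_nonneg _) (hh₁ n)) σ (2 * t) hσ
  have e0 : (fun n : ℕ => (vonMangoldt n : ℂ) * (fun _ : ℕ => (1 : ℂ)) n) =
      (fun n => (vonMangoldt n : ℂ)) := by
    funext n; simp
  simp only [Complex.ofReal_zero, zero_mul, add_zero, mul_one, one_mul] at A0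
  push_cast at A2
  have A := ((A0.mul_left 3).add (A1.mul_left 4)).add A2
  refine A.nonneg (fun n => ?_)
  rcases eq_or_ne n 0 with rfl | hn
  · simp
  have hn0 : (n : ℂ) ≠ 0 := by exact_mod_cast hn
  set z : ℂ := h₁ n * (n : ℂ) ^ (-((t : ℂ) * Complex.I)) with hz
  have hz1 : ‖z‖ ≤ 1 := by
    rw [hz, norm_mul]
    exact mul_le_one₀ (hh₁ n) (norm_nonneg _) (T341_norm_cpow n t)
  have hz2 : h₂ n * (n : ℂ) ^ (-(2 * (t : ℂ) * Complex.I)) = z ^ 2 := by
    rw [hz, mul_pow, hh₂, ← Complex.cpow_nat_mul]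
    congr 2
    push_cast
    ring
  have h3 := T341_alg z hz1
  have h4 := mul_nonneg (T341_weight_nonneg σ n) h3
  have e5 : ((n : ℂ) ^ (-(0 : ℂ))).re = 1 := by simp
  simp only [hz2, e5]
  nlinarith [h4]

/-- `3 + 4 cos θ + cos 2θ ≥ 0` summed against `Λ(n) n^(-σ)`; for `(n, N) > 1` the terms are
`3 Λ(n) n^(-σ) ≥ 0`. -/
theorem three_four_one (N : ℕ) [NeZero N] (χ : DirichletCharacter ℂ N) (σ t : ℝ) (hσ : 1 < σ) :
    0 ≤ 3 * (LSeries (fun n => (vonMangoldt n : ℂ)) σ).re +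
      4 * (LSeries (fun n => (vonMangoldt n : ℂ) * χ (n : ZMod N)) (σ + t * Complex.I)).re +
      (LSeries (fun n => (vonMangoldt n : ℂ) * (χ ^ 2) (n : ZMod N))
        (σ + 2 * t * Complex.I)).re := by
  exact T341_main (fun n => χ (n : ZMod N)) (fun n => (χ ^ 2) (n : ZMod N))
    (fun n => DirichletCharacter.norm_le_one χ _)
    (fun n => MulChar.pow_apply' χ two_ne_zero _) σ t hσ

/-- The same for `ζ`. -/
theorem three_four_one_zeta (σ t : ℝ) (hσ : 1 < σ) :
    0 ≤ 3 * (LSeries (fun n => (vonMangoldt n : ℂ)) σ).re +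
      4 * (LSeries (fun n => (vonMangoldt n : ℂ)) (σ + t * Complex.I)).re +
      (LSeries (fun n => (vonMangoldt n : ℂ)) (σ + 2 * t * Complex.I)).re := by
  have h := T341_main (fun _ => 1) (fun _ => 1) (fun n => by simp) (fun n => by simp) σ t hσ
  simpa using h

theorem T341_real_value (N : ℕ) (ψ : DirichletCharacter ℂ N) (hψ : ψ ^ 2 = 1) (n : ℕ) :
    ∃ x : ℝ, -1 ≤ x ∧ x ≤ 1 ∧ ψ (n : ZMod N) = (x : ℂ) := by
  by_cases hu : IsUnit (n : ZMod N)
  · have h1 : (ψ ^ 2) (n : ZMod N) = 1 := by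
      rw [hψ]; exact MulChar.one_apply hu
    rw [MulChar.pow_apply' ψ two_ne_zero] at h1
    have h2 : ψ (n : ZMod N) = 1 ∨ ψ (n : ZMod N) = -1 := sq_eq_one_iff.mp h1
    rcases h2 with h | h
    · exact ⟨1, by norm_num, le_refl _, by rw [h]; simp⟩
    · exact ⟨-1, le_refl _, by norm_num, by rw [h]; simp⟩
  · exact ⟨0, by norm_num, by norm_num, by rw [MulChar.map_nonunit ψ hu]; simp⟩

/-- `1 + ψ(n) ≥ 0` for real `ψ`. -/
theorem one_add_real (N : ℕ) [NeZero N] (ψ : DirichletCharacter ℂ N) (hψ : ψ ^ 2 = 1) (σ : ℝ)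
    (hσ : 1 < σ) :
    0 ≤ (LSeries (fun n => (vonMangoldt n : ℂ)) σ).re +
      (LSeries (fun n => (vonMangoldt n : ℂ) * ψ (n : ZMod N)) σ).re := by
  have A0 := T341_hasSum (fun _ => 1) (fun n => by simp) σ 0 hσ
  have A1 := T341_hasSum (fun n => ψ (n : ZMod N)) (fun n => DirichletCharacter.norm_le_one ψ _)
    σ 0 hσ
  simp only [Complex.ofReal_zero, zero_mul, add_zero, mul_one, one_mul] at A0 A1
  refine (A0.add A1).nonneg (fun n => ?_)
  obtain ⟨x, hx, -, hx2⟩ := T341_real_value N ψ hψ n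
  have e5 : (n : ℂ) ^ (-(0 : ℂ)) = 1 := by simp
  have h4 := mul_nonneg (T341_weight_nonneg σ n) (by linarith : 0 ≤ 1 + x)
  simp only [e5, hx2, mul_one, Complex.ofReal_re, Complex.one_re]
  nlinarith [h4]

/-- `(1 + ψ₁(n)) (1 + ψ₂(n)) ≥ 0` for real characters; the product character has level `r₁ r₂`. -/
theorem product_real (r₁ r₂ : ℕ) [NeZero r₁] [NeZero r₂] (ψ₁ : DirichletCharacter ℂ r₁)
    (ψ₂ : DirichletCharacter ℂ r₂) (h₁ : ψ₁ ^ 2 = 1) (h₂ : ψ₂ ^ 2 = 1) (σ : ℝ) (hσ : 1 < σ) :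
    0 ≤ (LSeries (fun n => (vonMangoldt n : ℂ)) σ).re +
      (LSeries (fun n => (vonMangoldt n : ℂ) * ψ₁ (n : ZMod r₁)) σ).re +
      (LSeries (fun n => (vonMangoldt n : ℂ) * ψ₂ (n : ZMod r₂)) σ).re +
      (LSeries (fun n => (vonMangoldt n : ℂ) *
        (DirichletCharacter.changeLevel (Dvd.intro r₂ rfl) ψ₁ *
          DirichletCharacter.changeLevel (Dvd.intro_left r₁ rfl) ψ₂ :
            DirichletCharacter ℂ (r₁ * r₂)) (n : ZMod (r₁ * r₂))) σ).re := by
  set ψ₃ : DirichletCharacter ℂ (r₁ * r₂) :=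
    DirichletCharacter.changeLevel (Dvd.intro r₂ rfl) ψ₁ *
          DirichletCharacter.changeLevel (Dvd.intro_left r₁ rfl) ψ₂ with hψ₃
  have key : ∀ n : ℕ, ψ₃ (n : ZMod (r₁ * r₂)) = ψ₁ (n : ZMod r₁) * ψ₂ (n : ZMod r₂) := by
    intro n
    rw [hψ₃, MulChar.mul_apply]
    by_cases hu : IsUnit (n : ZMod (r₁ * r₂))
    · have e1 := DirichletCharacter.changeLevel_eq_cast_of_dvd ψ₁ (Dvd.intro r₂ rfl) hu.unit
      have e2 := DirichletCharacter.changeLevel_eq_cast_of_dvd ψ₂ (Dvd.intro_left r₁ rfl) hu.unit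
      rw [IsUnit.unit_spec] at e1 e2
      rw [e1, e2]
      simp [ZMod.cast_natCast]
    · rw [MulChar.map_nonunit _ hu, zero_mul]
      rw [ZMod.isUnit_iff_coprime, Nat.coprime_mul_iff_right] at hu
      rcases not_and_or.mp hu with h | h
      · rw [MulChar.map_nonunit ψ₁ (fun h' => h ((ZMod.isUnit_iff_coprime _ _).mp h')), zero_mul]
      · rw [MulChar.map_nonunit ψ₂ (fun h' => h ((ZMod.isUnit_iff_coprime _ _).mp h')), mul_zero]
  have A0 := T341_hasSum (fun _ => 1) (fun n => by simp) σ 0 hσ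
  have A1 := T341_hasSum (fun n => ψ₁ (n : ZMod r₁))
    (fun n => DirichletCharacter.norm_le_one ψ₁ _) σ 0 hσ
  have A2 := T341_hasSum (fun n => ψ₂ (n : ZMod r₂))
    (fun n => DirichletCharacter.norm_le_one ψ₂ _) σ 0 hσ
  have A3 := T341_hasSum (fun n => ψ₃ (n : ZMod (r₁ * r₂)))
    (fun n => DirichletCharacter.norm_le_one ψ₃ _) σ 0 hσ
  simp only [Complex.ofReal_zero, zero_mul, add_zero, mul_one, one_mul] at A0 A1 A2 A3
  refine (((A0.add A1).add A2).add A3).nonneg (fun n => ?_)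
  obtain ⟨x, hx, -, hx2⟩ := T341_real_value r₁ ψ₁ h₁ n
  obtain ⟨y, hy, -, hy2⟩ := T341_real_value r₂ ψ₂ h₂ n
  have e5 : (n : ℂ) ^ (-(0 : ℂ)) = 1 := by simp
  have e6 : ψ₃ (n : ZMod (r₁ * r₂)) = ((x * y : ℝ) : ℂ) := by
    rw [key, hx2, hy2]; push_cast; ring
  have h4 := mul_nonneg (T341_weight_nonneg σ n)
    (mul_nonneg (by linarith : 0 ≤ 1 + x) (by linarith : 0 ≤ 1 + y))
  simp only [e5, e6, hx2, hy2, mul_one, Complex.ofReal_re, Complex.one_re]
  nlinarith [h4]

end Pool.Agent.Lib.H68T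
end
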