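import Mathlib
import Pool.Agent.Lib.H1M.RV2.D_Goldbach_Defs
import Pool.Agent.Lib.H1M.RV2.M001
import Pool.Agent.Lib.H1M.RV2.M002
import Pool.Agent.Lib.H1M.RV2.M003
import Pool.Agent.Lib.H1M.RV2.M004
import Pool.Agent.Lib.H1M.RV2.M014

/-! Merged copies (to shorten the build) of Lib.H21T.B4, Lib.H44W.W1, Lib.H3B.Defs, Lib.H3B.D0, Lib.H3B.S0B, Lib.H96G.Tr, Lib.H21T.F3, Lib.H21T.F4, Lib.H21T.S7, Lib.H21T.S4, Lib.H21T.S3, Lib.H21T.S1, Lib.H21T.S5, Lib.H21T.S6, Lib.H21T.F1, Lib.H59.PolyKey, Lib.H59.SchinzelDefs, Lib.H33B.Defs, Lib.SZW.C1, Lib.H33N.S1, Lib.SZW.B1, Lib.SZW.B2, Lib.SZW.B3, Lib.SZW.B4, Lib.H3B.A2, Lib.H68T.FINP. -/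

-- from Lib.H21T.B4
section

/-!
# Chunk B4 (S/M): the slope along a progression
-/

namespace Pool.Agent.Lib.H21T

open Finset Pool.Agent.SZW

/-- For `a' = a + q j`: `yv x' q r a' - yv x' q r a = (x' / a' - x' / a) / q = - x' j / (a a')`, so the expression is `(j / s) (t - s x' / (a a'))`, at most
`|t - s x' / (a a')| ≤ |t - s x / a0 ^ 2| + s |x / a0 ^ 2 - x / (a a')| + s (x' - x) / (a a') ≤ 1 / S + S / S ^ 2 + S H / A ^ 2 ≤ 3 / S`
(`Ap`, `f2_var`, `hH`). Here `x' = x` or `x' = x + H`, so `0 ≤ x' - x ≤ H`. -/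
theorem b4 {A x X S Λ : ℕ} (G : Geo A x X S Λ) {a0 s t x' H q r a j : ℕ} (h0 : A ≤ a0) (hs1 : 1 ≤ s) (hsS : s ≤ S) (hap : Ap x S a0 s t)
    (hx1 : x ≤ x') (hx2 : x' ≤ x + H) (hH : H * S ^ 2 ≤ A ^ 2) (hq : 1 ≤ q) (h1 : a0 ≤ a) (h2 : a + q * j ≤ a0 + Λ) (hj : j ≤ s) :
    |yv x' q r (a + q * j) - (yv x' q r a - (t : ℝ) * j / s)| ≤ 3 / S := by
  have hA := G.hA
  have hS := G.hS
  have hq' : (0 : ℝ) < q := by exact_mod_cast hq
  have hs' : (0 : ℝ) < s := by exact_mod_cast hs1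
  have hS' : (0 : ℝ) < S := by exact_mod_cast hS
  have hA' : (0 : ℝ) < A := by exact_mod_cast hA
  have hAa : (A : ℝ) ≤ a := by exact_mod_cast h0.trans h1
  have ha' : (0 : ℝ) < a := lt_of_lt_of_le hA' hAa
  have hsS' : (s : ℝ) ≤ S := by exact_mod_cast hsS
  have hj' : (j : ℝ) ≤ s := by exact_mod_cast hj
  have hj0 : (0 : ℝ) ≤ j := by positivity
  obtain ⟨b, hb⟩ : ∃ b : ℕ, b = a + q * j := ⟨_, rfl⟩
  have hbr : (b : ℝ) = a + q * j := by
    rw [hb]
    push_cast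
    ring
  rw [← hb] at h2 ⊢
  have hab : a ≤ b := by
    rw [hb]
    exact Nat.le_add_right _ _
  have hab' : (a : ℝ) ≤ b := by exact_mod_cast hab
  have hb0 : (0 : ℝ) < b := lt_of_lt_of_le ha' hab'
  have e1 : yv x' q r b - (yv x' q r a - (t : ℝ) * j / s) = (j / s) * (t - s * ((x' : ℝ) / (a * b))) := by
    unfold yv
    have e2 : (x' : ℝ) / b - x' / a = - (x' * (q * j)) / (a * b) := by
      field_simp
      rw [hbr]
      ring
    have e3 : ((x' : ℝ) / b - r) / q - ((x' / a - r) / q - (t : ℝ) * j / s) = ((x' : ℝ) / b - x' / a) / q + (t : ℝ) * j / s := by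
      ring
    rw [e3, e2]
    field_simp
    ring
  have hv := f2_var G h0 h1 (by omega : a ≤ a0 + Λ) (h1.trans hab) h2
  unfold Ap at hap
  have hxx : (0 : ℝ) ≤ (x' : ℝ) - x := by
    have : (x : ℝ) ≤ x' := by exact_mod_cast hx1
    linarith
  have hxH : (x' : ℝ) - x ≤ H := by
    have : (x' : ℝ) ≤ ((x + H : ℕ) : ℝ) := by exact_mod_cast hx2
    push_cast at this
    linarith
  have hH' : (H : ℝ) * S ^ 2 ≤ A ^ 2 := by exact_mod_cast hH
  have hAA : (A : ℝ) ^ 2 ≤ a * b := by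
    have := mul_le_mul hAa (hAa.trans hab') hA'.le ha'.le
    nlinarith
  have h3 : s * (((x' : ℝ) - x) / (a * b)) ≤ 1 / S := by
    have h4 : ((x' : ℝ) - x) / (a * b) ≤ H / A ^ 2 := by
      apply div_le_div₀ (by positivity) hxH (by positivity) hAA
    have h5 : (H : ℝ) / A ^ 2 ≤ 1 / S ^ 2 := by
      rw [div_le_div_iff₀ (by positivity) (by positivity)]
      linarith
    have h6 : (0 : ℝ) ≤ ((x' : ℝ) - x) / (a * b) := by positivity
    calc s * (((x' : ℝ) - x) / (a * b)) ≤ S * (1 / S ^ 2) := mul_le_mul hsS' (h4.trans h5) h6 hS'.le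
      _ = 1 / S := by field_simp
  have h3' : 0 ≤ s * (((x' : ℝ) - x) / (a * b)) := by positivity
  have h7 : |(s : ℝ) * ((x : ℝ) / (a0 : ℝ) ^ 2 - (x : ℝ) / ((a : ℝ) * b))| ≤ 1 / S := by
    rw [abs_mul, abs_of_pos hs']
    calc (s : ℝ) * |(x : ℝ) / (a0 : ℝ) ^ 2 - (x : ℝ) / ((a : ℝ) * b)| ≤ S * (1 / S ^ 2) :=
          mul_le_mul hsS' hv (abs_nonneg _) hS'.le
      _ = 1 / S := by field_simp
  have e4 : (t : ℝ) - s * ((x' : ℝ) / (a * b)) = - (s * (x / (a0 : ℝ) ^ 2) - t) +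
      s * ((x : ℝ) / (a0 : ℝ) ^ 2 - (x : ℝ) / ((a : ℝ) * b)) - s * (((x' : ℝ) - x) / (a * b)) := by
    rw [sub_div]
    ring
  have h8 : |(t : ℝ) - s * ((x' : ℝ) / (a * b))| ≤ 3 / S := by
    have e5 : (3 : ℝ) / S = 1 / S + 1 / S + 1 / S := by ring
    rw [e4, e5]
    rw [abs_le] at hap h7 ⊢
    constructor
    · linarith [hap.1, hap.2, h7.1, h7.2]
    · linarith [hap.1, hap.2, h7.1, h7.2]
  rw [e1, abs_mul]
  have h9 : |(j : ℝ) / s| ≤ 1 := by
    rw [abs_of_nonneg (by positivity), div_le_one hs']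
    exact hj'
  calc |(j : ℝ) / s| * |(t : ℝ) - s * ((x' : ℝ) / (a * b))| ≤ 1 * |(t : ℝ) - s * ((x' : ℝ) / (a * b))| :=
        mul_le_mul_of_nonneg_right h9 (abs_nonneg _)
    _ ≤ 3 / S := by rw [one_mul]; exact h8

end Pool.Agent.Lib.H21T
end

-- from Lib.H44W.W1
section
/-!
H44W: Type II pieces and the interface of module B (class_two).
-/
namespace Pool.Agent.H44W
open Finset

/-- Type II piece: a in [K, 2K), b in [M, 2M), arbitrary coefficients. -/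
noncomputable def tII (K M : ℕ) (al be : ℕ → ℂ) (m : ℤ) : ℂ :=
  ∑ a ∈ Ico K (2 * K), ∑ b ∈ Ico M (2 * M), if ((a * b : ℕ) : ℤ) = m then al a * be b else 0

/-- Type I sum with divisors up to A. -/
noncomputable def psi (A : ℕ) (al : ℕ → ℂ) (m : ℤ) : ℂ :=
  ∑ a ∈ Icc 1 A, if (a:ℤ) ∣ m then al a else 0

/-- The statement of module B (helper3's form, with the divisor hypothesis). -/
def ClassTwo (C : ℕ) : Prop :=
  ∀ (n K M : ℕ) (D : ℝ), 2 ≤ D → (∀ m : ℕ, 1 ≤ m → m ≤ 2 * n → (m.divisors.card : ℝ) ≤ D) →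
    D ^ C ≤ K → (K:ℝ) ^ 2 * D ^ C ≤ n →
    ∀ al be : ℕ → ℂ, (∀ a, ‖al a‖ ≤ 1) → (∀ b, ‖be b‖ ≤ 1) →
    ∀ W f g : ℤ → ℂ, (∀ x, ‖W x‖ ≤ 1) → (∀ x, ‖f x‖ ≤ 1) → (∀ x, ‖g x‖ ≤ 1) →
    (n:ℝ) ^ 2 / D ≤ ‖TF n (tII K M al be) W f g‖ →
    ∃ th : ℝ, (n:ℝ) / D ^ C ≤ ‖∑ z ∈ Icc (1:ℤ) n, g z * ee (th * z)‖

end Pool.Agent.H44W
end

-- from Lib.H3B.Defs
section

/-!
# H3B (MP_443e5f, candidate T, module B): the inverse theorem for class II kernels. Definitions.

All sums over the integers are `tsum`s of finitely supported functions. `ee x = exp (2 pi i x)`.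
See `PROOF.md`.
-/

namespace Pool.Agent.H3B

open Finset
open Pool.Agent.H44W (ee TF cut)

noncomputable section

/-- `u` vanishes outside `[-N, N]`. -/
def Sp (N : ℕ) (u : ℤ → ℂ) : Prop := ∀ y : ℤ, u y ≠ 0 → |y| ≤ (N : ℤ)

/-- `G_d(y) = g(y) conj g(y + d)`. -/
def Gd (g : ℤ → ℂ) (d y : ℤ) : ℂ := g y * (starRingEnd ℂ) (g (y + d))

/-- The modulation `u(y) e(-θ y)`. -/
def tw (θ : ℝ) (u : ℤ → ℂ) (y : ℤ) : ℂ := u y * ee (-(θ * y))

/-- The autocorrelation. -/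
def R (u : ℤ → ℂ) (k : ℤ) : ℂ := ∑' y : ℤ, u y * (starRingEnd ℂ) (u (y + k))

/-- `E_m(u)`: the sum over the residue classes modulo `m` of the squares of the sums of `u`. -/
def E (m : ℕ) (u : ℤ → ℂ) : ℝ := ∑ r ∈ range m, ‖∑' v : ℤ, u (r + m * v)‖ ^ 2

/-- The `a` in `[K, 2K)` with `a + j` in `[K, 2K)`. -/
def Ij (K : ℕ) (j : ℤ) : Finset ℕ :=
  (Ico K (2 * K)).filter (fun a => (K : ℤ) ≤ a + j ∧ (a : ℤ) + j < 2 * K)


theorem Sp.finite {N : ℕ} {u : ℤ → ℂ} (h : Sp N u) : (Function.support u).Finite := by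
  refine (Set.finite_Icc (-(N : ℤ)) N).subset fun y hy => ?_
  exact abs_le.1 (h y hy)

theorem Sp.summable {N : ℕ} {u : ℤ → ℂ} (h : Sp N u) : Summable u := summable_of_hasFiniteSupport h.finite

theorem Sp.zero {N : ℕ} {u : ℤ → ℂ} (h : Sp N u) {y : ℤ} (hy : (N : ℤ) < |y|) : u y = 0 := by
  by_contra h0
  exact absurd (h y h0) (not_le.2 hy)

theorem Sp.mono {N N' : ℕ} {u : ℤ → ℂ} (h : Sp N u) (hN : N ≤ N') : Sp N' u := fun y hy =>
  (h y hy).trans (by exact_mod_cast hN)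

theorem Sp.mul_left {N : ℕ} {u : ℤ → ℂ} (h : Sp N u) (w : ℤ → ℂ) : Sp N (fun y => w y * u y) :=
  fun y hy => h y (right_ne_zero_of_mul hy)

theorem Sp.mul_right {N : ℕ} {u : ℤ → ℂ} (h : Sp N u) (w : ℤ → ℂ) : Sp N (fun y => u y * w y) :=
  fun y hy => h y (left_ne_zero_of_mul hy)

theorem Sp.Gd {N : ℕ} {g : ℤ → ℂ} (h : Sp N g) (d : ℤ) : Sp N (Gd g d) := h.mul_right _

theorem Sp.tw {N : ℕ} {u : ℤ → ℂ} (h : Sp N u) (θ : ℝ) : Sp N (tw θ u) := h.mul_right _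

theorem Sp.shift {N : ℕ} {u : ℤ → ℂ} (h : Sp N u) (t : ℤ) : Sp (N + t.natAbs) (fun y => u (y + t)) := by
  intro y hy
  have h1 := h (y + t) hy
  have h2 : |y| ≤ |y + t| + |t| := by
    have := abs_sub (y + t) t
    simpa using this
  push_cast
  linarith

theorem Sp.tsum_eq {N : ℕ} {u : ℤ → ℂ} (h : Sp N u) : ∑' y, u y = ∑ y ∈ Icc (-(N : ℤ)) N, u y := by
  refine tsum_eq_sum fun y hy => ?_
  by_contra h0
  exact hy (mem_Icc.2 (abs_le.1 (h y h0)))

theorem Sp.norm_tsum_le {N : ℕ} {u : ℤ → ℂ} (h : Sp N u) {b : ℝ} (hb : ∀ y, ‖u y‖ ≤ b) :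
    ‖∑' y, u y‖ ≤ (2 * N + 1) * b := by
  rw [h.tsum_eq]
  refine (norm_sum_le_of_le _ fun y _ => hb y).trans ?_
  rw [sum_const, Int.card_Icc, nsmul_eq_mul]
  have h1 : (N : ℤ) + 1 - -(N : ℤ) = ((2 * N + 1 : ℕ) : ℤ) := by push_cast; ring
  rw [h1, Int.toNat_natCast]
  push_cast
  exact le_rfl

theorem ee_zero : ee 0 = 1 := by simp [ee]

theorem ee_add (x y : ℝ) : ee (x + y) = ee x * ee y := by
  unfold ee
  rw [← Complex.exp_add]
  congr 1
  push_cast
  ring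

theorem ee_norm (x : ℝ) : ‖ee x‖ = 1 := by
  unfold ee
  have : (2 * Real.pi * x * Complex.I : ℂ) = ((2 * Real.pi * x : ℝ) : ℂ) * Complex.I := by push_cast; ring
  rw [this, Complex.norm_exp_ofReal_mul_I]

theorem ee_conj (x : ℝ) : (starRingEnd ℂ) (ee x) = ee (-x) := by
  unfold ee
  rw [← Complex.exp_conj]
  congr 1
  have h2 : (starRingEnd ℂ) 2 = 2 := by
    have := Complex.conj_ofReal 2
    exact_mod_cast this
  rw [map_mul, map_mul, map_mul, h2, Complex.conj_ofReal, Complex.conj_ofReal, Complex.conj_I]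
  push_cast
  ring

theorem ee_int (k : ℤ) : ee k = 1 := by
  unfold ee
  rw [Complex.exp_eq_one_iff]
  exact ⟨k, by push_cast; ring⟩

theorem tw_norm (θ : ℝ) (u : ℤ → ℂ) (y : ℤ) : ‖tw θ u y‖ = ‖u y‖ := by
  unfold tw
  rw [norm_mul, ee_norm, mul_one]

theorem Gd_norm {g : ℤ → ℂ} (h : ∀ z, ‖g z‖ ≤ 1) (d y : ℤ) : ‖Gd g d y‖ ≤ 1 := by
  unfold Gd
  rw [norm_mul, RCLike.norm_conj]
  exact mul_le_one₀ (h _) (norm_nonneg _) (h _)

theorem E_nonneg (m : ℕ) (u : ℤ → ℂ) : 0 ≤ E m u := sum_nonneg fun _ _ => sq_nonneg _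

theorem cut_Sp (n : ℕ) (g : ℤ → ℂ) : Sp n (cut n g) := by
  intro y hy
  unfold cut at hy
  split_ifs at hy with h
  · rw [mem_Icc] at h
    rw [abs_le]
    omega
  · exact absurd rfl hy

theorem cut_norm {n : ℕ} {g : ℤ → ℂ} (h : ∀ z, ‖g z‖ ≤ 1) (z : ℤ) : ‖cut n g z‖ ≤ 1 := by
  unfold cut
  split_ifs
  · exact h z
  · simp

end

end Pool.Agent.H3B
end

-- from Lib.H3B.D0
section

/-! # H3B: definitions for step 0 -/

namespace Pool.Agent.H3B

open Finset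
open Pool.Agent.H44W (ee TF cut tII)

noncomputable section

/-- The β with M ≤ 2β + ε < 2M. -/
def SS (M : ℕ) (ε : ℤ) : Finset ℤ := (Ico (0 : ℤ) (2 * M)).filter (fun b => (M : ℤ) ≤ 2 * b + ε ∧ 2 * b + ε < 2 * M)

/-- The part of the form with given `a` and `b = 2β + ε`. -/
def Tt (M : ℕ) (a ε : ℤ) (be W f g : ℤ → ℂ) : ℂ :=
  ∑ b ∈ SS M ε, be (2 * b + ε) * ∑' x : ℤ, f x * g (a * (2 * b + ε) - x) * W (2 * x - a * (2 * b + ε))

/-- `β_b conj β_{b + 2h}`, `b = 2β + ε`. -/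
def BB (M : ℕ) (ε : ℤ) (be : ℤ → ℂ) (h b : ℤ) : ℂ :=
  if b + h ∈ SS M ε then be (2 * b + ε) * (starRingEnd ℂ) (be (2 * (b + h) + ε)) else 0

/-- The inner sum after the first Cauchy-Schwarz inequality. -/
def Zh (M : ℕ) (a ε : ℤ) (be g : ℤ → ℂ) (h w : ℤ) : ℂ :=
  ∑ b ∈ SS M ε, if (2 : ℤ) ∣ a * (2 * b + ε) - w then
    BB M ε be h b * Gd g (a * (2 * h)) ((a * (2 * b + ε) - w) / 2) else 0

/-- The quantity `val(j, k)` of step 1. -/
def val (g : ℤ → ℂ) (K M : ℕ) (ψ : ℤ → ℝ) (j k : ℤ) : ℂ :=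
  ∑ h ∈ Ioo (-(M : ℤ)) M, ee (-(ψ h * j * k)) * ∑ a ∈ Ij K j, R (Gd g (a * (a + j) * k)) (j * (2 * h))

end

end Pool.Agent.H3B
end

-- from Lib.H3B.S0B
section

/-! # H3B (MP_443e5f, candidate T, module B), chunk S0B -/

namespace Pool.Agent.H3B

open Finset
open Pool.Agent.H44W (ee TF cut tII)

theorem s0b_SS {M : ℕ} {ε b : ℤ} (hb : b ∈ SS M ε) : (M : ℤ) ≤ 2 * b + ε ∧ 2 * b + ε < 2 * M :=
  (mem_filter.1 hb).2

theorem s0b_A {n M : ℕ} {a ε b : ℤ} (ha : 1 ≤ a) (haM : a * (2 * M) ≤ 8 * n) (hb : b ∈ SS M ε) :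
    0 ≤ a * (2 * b + ε) ∧ a * (2 * b + ε) ≤ 8 * n := by
  obtain ⟨h1, h2⟩ := s0b_SS hb
  constructor
  · exact mul_nonneg (by omega) (by omega)
  · exact (mul_le_mul_of_nonneg_left h2.le (by omega)).trans haM

theorem s0b_re {M : ℕ} {ε : ℤ} (F : ℤ → ℂ) {b : ℤ} (hb : b ∈ SS M ε) :
    ∑ b' ∈ SS M ε, F b' = ∑ h ∈ Ioo (-(M : ℤ)) M, if b + h ∈ SS M ε then F (b + h) else 0 := by
  rw [← sum_filter]
  symm
  refine Finset.sum_nbij' (fun h => b + h) (fun b' => b' - b) ?_ ?_ ?_ ?_ ?_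
  · intro h hh
    exact (mem_filter.1 hh).2
  · intro b' hb'
    have h1 := s0b_SS hb
    have h2 := s0b_SS hb'
    rw [mem_filter, mem_Ioo]
    refine ⟨by constructor <;> omega, ?_⟩
    have h3 : b + (b' - b) = b' := by ring
    rw [h3]
    exact hb'
  · intro h _
    ring
  · intro b' _
    ring
  · intro h _
    rfl

theorem s0b_tsum (A : ℤ) (H : ℤ → ℂ) :
    ∑' x : ℤ, H (2 * x - A) = ∑' w : ℤ, if (2 : ℤ) ∣ A - w then H w else 0 := by
  have hinj : Function.Injective (fun x : ℤ => 2 * x - A) := by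
    intro x y hxy
    simp only at hxy
    omega
  have h1 := hinj.tsum_eq (f := fun w : ℤ => if (2 : ℤ) ∣ A - w then H w else 0) (by
    intro w hw
    rw [Function.mem_support] at hw
    have h2 : (2 : ℤ) ∣ A - w := by
      by_contra h3
      rw [if_neg h3] at hw
      exact hw rfl
    obtain ⟨y, hy⟩ := h2
    refine ⟨A - y, ?_⟩
    simp only
    omega)
  rw [← h1]
  refine tsum_congr fun x => ?_
  have h2 : (2 : ℤ) ∣ A - (2 * x - A) := ⟨A - x, by ring⟩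
  rw [if_pos h2]

/-- One pair `b, b + h`. -/
theorem s0b_pair {n M : ℕ} {a ε : ℤ} (ha : 1 ≤ a) (haM : a * (2 * M) ≤ 8 * n) {W g : ℤ → ℂ}
    (hgs : Sp n g) {b : ℤ} (hb : b ∈ SS M ε) (h : ℤ) :
    ∑ x ∈ Icc (-(9 * n : ℤ)) (9 * n), (g (a * (2 * b + ε) - x) * W (2 * x - a * (2 * b + ε))) *
      (starRingEnd ℂ) (g (a * (2 * (b + h) + ε) - x) * W (2 * x - a * (2 * (b + h) + ε))) =
    ∑ w ∈ Icc (-(10 * n : ℤ)) (10 * n), (W w * (starRingEnd ℂ) (W (w - a * (2 * h)))) *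
      (if (2 : ℤ) ∣ a * (2 * b + ε) - w then Gd g (a * (2 * h)) ((a * (2 * b + ε) - w) / 2) else 0) := by
  obtain ⟨A, hA⟩ : ∃ A : ℤ, A = a * (2 * b + ε) := ⟨_, rfl⟩
  have hA0 := s0b_A ha haM hb
  have hA' : a * (2 * (b + h) + ε) = A + a * (2 * h) := by rw [hA]; ring
  rw [hA', ← hA]
  rw [← hA] at hA0
  have e1 : ∀ x : ℤ, (g (A - x) * W (2 * x - A)) *
      (starRingEnd ℂ) (g (A + a * (2 * h) - x) * W (2 * x - (A + a * (2 * h)))) =
      (fun w : ℤ => (W w * (starRingEnd ℂ) (W (w - a * (2 * h)))) * Gd g (a * (2 * h)) ((A - w) / 2)) (2 * x - A) := by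
    intro x
    have h1 : (A - (2 * x - A)) / 2 = A - x := by omega
    have h2 : A + a * (2 * h) - x = A - x + a * (2 * h) := by ring
    have h3 : 2 * x - (A + a * (2 * h)) = 2 * x - A - a * (2 * h) := by ring
    simp only [h1, h2, h3, Gd, map_mul]
    ring
  have e2 : ∑ x ∈ Icc (-(9 * n : ℤ)) (9 * n), (g (A - x) * W (2 * x - A)) *
      (starRingEnd ℂ) (g (A + a * (2 * h) - x) * W (2 * x - (A + a * (2 * h)))) =
      ∑' x : ℤ, (g (A - x) * W (2 * x - A)) *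
      (starRingEnd ℂ) (g (A + a * (2 * h) - x) * W (2 * x - (A + a * (2 * h)))) := by
    symm
    refine tsum_eq_sum fun x hx => ?_
    have h1 : g (A - x) = 0 := by
      refine hgs.zero ?_
      by_contra h2
      rw [not_lt, abs_le] at h2
      apply hx
      rw [mem_Icc]
      constructor <;> omega
    rw [h1, zero_mul, zero_mul]
  rw [e2, (tsum_congr e1).trans (s0b_tsum A (fun w : ℤ =>
    (W w * (starRingEnd ℂ) (W (w - a * (2 * h)))) * Gd g (a * (2 * h)) ((A - w) / 2)))]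
  rw [tsum_eq_sum (s := Icc (-(10 * n : ℤ)) (10 * n))]
  · refine sum_congr rfl fun w _ => ?_
    split_ifs
    · rfl
    · rw [mul_zero]
  · intro w hw
    split_ifs with h1
    · have h3 : g ((A - w) / 2) = 0 := by
        refine hgs.zero ?_
        by_contra h2
        rw [not_lt, abs_le] at h2
        apply hw
        rw [mem_Icc]
        constructor <;> omega
      unfold Gd
      rw [h3, zero_mul, mul_zero]
    · rfl

/-- Chunk S0B (M). The first two steps: Cauchy-Schwarz in x, expansion. PROOF. Tt = ∑' x, f x * U x with U x = ∑_{b in SS} be(2b+ε) g(a(2b+ε) - x) W(2x - a(2b+ε)) (finite sums; exchange).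
Cauchy-Schwarz: |Tt|² ≤ (∑ |f|²)(∑' x, |U x|²), ∑ |f|² ≤ 2 n + 1 ≤ 3 n. |U x|² = ∑_{b, b'} ..; put b' = b + h (h in Ioo (-M) M: the elements of SS lie in an interval of length less than M), A = a(2b+ε),
y = A - x, w = 2x - A = A - 2y: g(A - x) conj g(A + 2ah - x) = Gd g (2ah) y, W(2x - A) conj W(2x - A - 2ah) = W w conj W(w - 2ah). For given b the map x ↦ w = 2x - A is a bijection of ℤ onto
the w with 2 | A - w, and y = (A - w)/2. So ∑' x, |U x|² = ∑_h ∑' w, W w conj W(w - 2ah) Zh h w ≤ ∑_h ∑_w |Zh h w|, and Zh h w ≠ 0 only if |y| ≤ n for some b, that is |w| ≤ A + 2n ≤ 10 n. -/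
theorem s0_cs1 {n M : ℕ} (hn : 1 ≤ n) {a ε : ℤ} (ha : 1 ≤ a) (haM : a * (2 * M) ≤ 8 * n) (hε : ε = 0 ∨ ε = 1) {be W f g : ℤ → ℂ}
    (hW : ∀ x, ‖W x‖ ≤ 1) (hf : ∀ x, ‖f x‖ ≤ 1) (hfs : Sp n f) (hgs : Sp n g) :
    ‖Tt M a ε be W f g‖ ^ 2 ≤ 3 * n * ∑ h ∈ Ioo (-(M : ℤ)) M, ∑ w ∈ Icc (-(10 * n : ℤ)) (10 * n), ‖Zh M a ε be g h w‖ := by
  classical
  have hnR : (1 : ℝ) ≤ n := by exact_mod_cast hn
  obtain ⟨u, hu⟩ : ∃ u : ℤ → ℤ → ℂ, u = fun b x => g (a * (2 * b + ε) - x) * W (2 * x - a * (2 * b + ε)) := ⟨_, rfl⟩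
  obtain ⟨U, hU⟩ : ∃ U : ℤ → ℂ, U = fun x => ∑ b ∈ SS M ε, be (2 * b + ε) * u b x := ⟨_, rfl⟩
  -- the form as a finite sum
  have hTt : Tt M a ε be W f g = ∑ x ∈ Icc (-(n : ℤ)) n, f x * U x := by
    unfold Tt
    have e1 : ∀ b : ℤ, ∑' x : ℤ, f x * g (a * (2 * b + ε) - x) * W (2 * x - a * (2 * b + ε)) =
        ∑ x ∈ Icc (-(n : ℤ)) n, f x * u b x := by
      intro b
      have h1 : Sp n (fun x => f x * g (a * (2 * b + ε) - x) * W (2 * x - a * (2 * b + ε))) :=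
        (hfs.mul_right _).mul_right _
      rw [h1.tsum_eq]
      refine sum_congr rfl fun x _ => ?_
      rw [hu]
      ring
    simp only [e1, mul_sum]
    rw [sum_comm]
    refine sum_congr rfl fun x _ => ?_
    rw [hU]
    simp only [mul_sum]
    refine sum_congr rfl fun b _ => ?_
    ring
  -- Cauchy-Schwarz
  have hcs : ‖Tt M a ε be W f g‖ ^ 2 ≤ 3 * n * ∑ x ∈ Icc (-(9 * n : ℤ)) (9 * n), ‖U x‖ ^ 2 := by
    rw [hTt]
    have h1 : ‖∑ x ∈ Icc (-(n : ℤ)) n, f x * U x‖ ≤ ∑ x ∈ Icc (-(n : ℤ)) n, ‖f x‖ * ‖U x‖ := by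
      refine norm_sum_le_of_le _ fun x _ => ?_
      rw [norm_mul]
    have h2 := sum_mul_sq_le_sq_mul_sq (Icc (-(n : ℤ)) n) (fun x => ‖f x‖) (fun x => ‖U x‖)
    have h3 : ∑ x ∈ Icc (-(n : ℤ)) n, ‖f x‖ ^ 2 ≤ 3 * n := by
      refine (sum_le_sum (g := fun _ => (1 : ℝ)) fun x _ => ?_).trans ?_
      · exact pow_le_one₀ (norm_nonneg _) (hf x)
      · rw [sum_const, Int.card_Icc, nsmul_eq_mul, mul_one]
        have h4 : (n : ℤ) + 1 - -(n : ℤ) = ((2 * n + 1 : ℕ) : ℤ) := by push_cast; ring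
        rw [h4, Int.toNat_natCast]
        push_cast
        linarith
    have h5 : ∑ x ∈ Icc (-(n : ℤ)) n, ‖U x‖ ^ 2 ≤ ∑ x ∈ Icc (-(9 * n : ℤ)) (9 * n), ‖U x‖ ^ 2 := by
      refine sum_le_sum_of_subset_of_nonneg ?_ fun x _ _ => sq_nonneg _
      intro x hx
      rw [mem_Icc] at hx ⊢
      constructor <;> omega
    calc _ ≤ (∑ x ∈ Icc (-(n : ℤ)) n, ‖f x‖ * ‖U x‖) ^ 2 := pow_le_pow_left₀ (norm_nonneg _) h1 2
      _ ≤ _ := h2
      _ ≤ _ := mul_le_mul h3 h5 (sum_nonneg fun x _ => sq_nonneg _) (by positivity)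
  refine hcs.trans (mul_le_mul_of_nonneg_left ?_ (by positivity))
  -- expansion
  have hexp : ((∑ x ∈ Icc (-(9 * n : ℤ)) (9 * n), ‖U x‖ ^ 2 : ℝ) : ℂ) =
      ∑ h ∈ Ioo (-(M : ℤ)) M, ∑ w ∈ Icc (-(10 * n : ℤ)) (10 * n),
        (W w * (starRingEnd ℂ) (W (w - a * (2 * h)))) * Zh M a ε be g h w := by
    rw [Complex.ofReal_sum]
    have e1 : ∀ x : ℤ, ((‖U x‖ ^ 2 : ℝ) : ℂ) = ∑ b ∈ SS M ε, ∑ b' ∈ SS M ε,
        (be (2 * b + ε) * (starRingEnd ℂ) (be (2 * b' + ε))) * (u b x * (starRingEnd ℂ) (u b' x)) := by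
      intro x
      rw [← Complex.normSq_eq_norm_sq, ← Complex.mul_conj, hU]
      simp only [map_sum, sum_mul_sum, map_mul]
      refine sum_congr rfl fun b _ => sum_congr rfl fun b' _ => ?_
      ring
    simp only [e1]
    rw [sum_comm]
    have e2 : ∀ b ∈ SS M ε, ∑ x ∈ Icc (-(9 * n : ℤ)) (9 * n), ∑ b' ∈ SS M ε,
        (be (2 * b + ε) * (starRingEnd ℂ) (be (2 * b' + ε))) * (u b x * (starRingEnd ℂ) (u b' x)) =
        ∑ h ∈ Ioo (-(M : ℤ)) M, ∑ w ∈ Icc (-(10 * n : ℤ)) (10 * n),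
          (W w * (starRingEnd ℂ) (W (w - a * (2 * h)))) *
          (if (2 : ℤ) ∣ a * (2 * b + ε) - w then BB M ε be h b * Gd g (a * (2 * h)) ((a * (2 * b + ε) - w) / 2) else 0) := by
      intro b hb
      rw [sum_comm]
      rw [s0b_re (fun b' => ∑ x ∈ Icc (-(9 * n : ℤ)) (9 * n),
        (be (2 * b + ε) * (starRingEnd ℂ) (be (2 * b' + ε))) * (u b x * (starRingEnd ℂ) (u b' x))) hb]
      refine sum_congr rfl fun h _ => ?_
      unfold BB
      by_cases hh : b + h ∈ SS M ε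
      · simp only [if_pos hh]
        rw [← mul_sum, hu]
        dsimp only
        rw [s0b_pair ha haM hgs hb h, mul_sum]
        refine sum_congr rfl fun w _ => ?_
        split_ifs
        · ring
        · ring
      · simp only [if_neg hh, zero_mul, ite_self, mul_zero, sum_const_zero]
    rw [sum_congr rfl e2, sum_comm]
    refine sum_congr rfl fun h _ => ?_
    rw [sum_comm]
    refine sum_congr rfl fun w _ => ?_
    unfold Zh
    rw [mul_sum]
  have hnorm : (∑ x ∈ Icc (-(9 * n : ℤ)) (9 * n), ‖U x‖ ^ 2 : ℝ) =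
      ‖((∑ x ∈ Icc (-(9 * n : ℤ)) (9 * n), ‖U x‖ ^ 2 : ℝ) : ℂ)‖ := by
    rw [Complex.norm_real, Real.norm_of_nonneg (sum_nonneg fun x _ => sq_nonneg _)]
  rw [hnorm, hexp]
  refine norm_sum_le_of_le _ fun h _ => norm_sum_le_of_le _ fun w _ => ?_
  rw [norm_mul, norm_mul, RCLike.norm_conj]
  exact mul_le_of_le_one_left (norm_nonneg _) (mul_le_one₀ (hW _) (norm_nonneg _) (hW _))

end Pool.Agent.H3B
end

-- from Lib.H96G.Tr
section

/-!
# Project H96G: degrees of the Goldbach graphs (copy of three lemmas of `H18GB/Transfer.lean`, in order to have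
fewer imports)
-/

namespace Pool.Agent.Lib.H96G.Tr

open Finset Pool.Agent.Goldbach Pool.Agent.Lib.GoldbachGraph

section

variable {V S : Set ℕ} {n : ℕ}

theorem finite_of_le (hV : ∀ a ∈ V, Even a ∧ a ≤ 2 * n) : V.Finite :=
  (Set.finite_Iic (2 * n)).subset fun a ha => (hV a ha).2

/-- degrees -/
theorem deg_le (hV : ∀ a ∈ V, Even a ∧ a ≤ 2 * n)
    (hS' : ∀ m ∈ S, m = 1 ∨ (m.Prime ∧ Odd m)) (x : ℕ) (hx : 2 * x ∈ V) :
    ((halfGraph V S).neighborSet ⟨2 * x, hx⟩).ncard ≤ hdeg n x + 4 := by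
  have : Finite V := finite_of_le hV
  set T : Finset ℕ := ((Finset.Icc 1 n).filter fun u => hadj x u) ∪ {0, 1 - x, x + 1, x - 1}
    with hT
  have hTcard : T.card ≤ hdeg n x + 4 :=
    (Finset.card_union_le _ _).trans (Nat.add_le_add_left Finset.card_le_four _)
  refine le_trans ?_ hTcard
  rw [← Set.ncard_coe_finset]
  apply Set.ncard_le_ncard_of_injOn (fun b : V => (b : ℕ) / 2)
  · rintro ⟨b, hb⟩ hadj1
    obtain ⟨⟨s, hs⟩, hbn⟩ := hV b hb
    have hbs : b = 2 * s := by omega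
    subst hbs
    rw [SimpleGraph.mem_neighborSet, halfGraph_adj_iff (x := x) (y := s) rfl rfl] at hadj1
    obtain ⟨h1, h2, h3⟩ := hadj1
    simp only [Nat.mul_div_cancel_left _ (by norm_num : 0 < 2)]
    rw [Finset.mem_coe, hT, Finset.mem_union, Finset.mem_filter, Finset.mem_Icc]
    by_cases hs0 : s = 0
    · right; simp [hs0]
    by_cases h4 : x + s = 1
    · right
      simp only [Finset.mem_insert, Finset.mem_singleton]
      omega
    by_cases h5 : ((x : ℤ) - s).natAbs = 1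
    · right
      simp only [Finset.mem_insert, Finset.mem_singleton]
      omega
    left
    have hd : ((x : ℤ) - s).natAbs = Nat.dist x s := by
      unfold Nat.dist
      omega
    rw [hd] at h3 h5
    obtain ⟨h6, h7⟩ := (hS' _ h2).resolve_left h4
    obtain ⟨h8, h9⟩ := (hS' _ h3).resolve_left h5
    exact ⟨⟨by omega, by omega⟩, h6, h7, h8, h9⟩
  · rintro ⟨b, hb⟩ - ⟨b', hb'⟩ - hbb
    have h1 := (hV b hb).1
    have h2 := (hV b' hb').1
    simp only at hbb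
    ext
    simp only
    obtain ⟨k, hk⟩ := h1
    obtain ⟨l, hl⟩ := h2
    omega

theorem le_deg (hV : ∀ a ∈ V, Even a ∧ a ≤ 2 * n) (hV2 : ∀ x ∈ Finset.Icc 1 n, 2 * x ∈ V)
    (hS : ∀ m, m.Prime → Odd m → m < 2 * n → m ∈ S) (x : ℕ) (hx1 : x ∈ Finset.Icc 1 n)
    (hx : 2 * x ∈ V) :
    hdeg n x ≤ ((halfGraph V S).neighborSet ⟨2 * x, hx⟩).ncard := by
  have : Finite V := finite_of_le hV
  unfold hdeg
  rw [← Set.ncard_coe_finset]
  have hfin : ((halfGraph V S).neighborSet ⟨2 * x, hx⟩).Finite := Set.toFinite _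
  refine le_trans ?_ (Set.ncard_image_le (f := fun b : V => (b : ℕ) / 2) hfin)
  apply Set.ncard_le_ncard _ (hfin.image _)
  intro u hu
  rw [Finset.mem_coe, Finset.mem_filter] at hu
  obtain ⟨hu1, a1, a2, a3, a4⟩ := hu
  refine ⟨⟨2 * u, hV2 u hu1⟩, ?_, ?_⟩
  · rw [SimpleGraph.mem_neighborSet, halfGraph_adj_iff (x := x) (y := u) rfl rfl]
    rw [Finset.mem_Icc] at hu1 hx1
    have hne : x ≠ u := by
      rintro rfl
      rw [Nat.dist_self] at a3
      exact Nat.not_prime_zero a3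
    have hd : ((x : ℤ) - u).natAbs = Nat.dist x u := by
      unfold Nat.dist
      omega
    refine ⟨hne, hS _ a1 a2 (by omega), ?_⟩
    rw [hd]
    refine hS _ a3 a4 ?_
    unfold Nat.dist
    omega
  · simp

end

end Pool.Agent.Lib.H96G.Tr
end

-- from Lib.H21T.F3
section

/-!
# Chunk F3 (S/M): values of a sequence with gaps in a short interval
-/

namespace Pool.Agent.Lib.H21T

open Finset Pool.Agent.SZW

/-- Let `i < j` be the smallest and the largest element of the set (if it has at least two elements). Summing `hf`: `f j + (j - i) g ≤ f i`, and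
`f i - f j ≤ 2 r`; so `(j - i) g ≤ 2 r`, and the set is contained in `Icc i j`, of cardinality `j - i + 1`. -/
theorem f3 (f : ℕ → ℝ) (g r c : ℝ) (n : ℕ) (hg : 0 < g) (hr : 0 ≤ r) (hf : ∀ i, i + 1 < n → f (i + 1) + g ≤ f i) :
    (((range n).filter fun i => |f i - c| ≤ r).card : ℝ) ≤ 2 * r / g + 1 := by
  rcases Finset.eq_empty_or_nonempty ((range n).filter fun i => |f i - c| ≤ r) with he | hne
  · rw [he, card_empty, Nat.cast_zero]
    positivity
  have hsum : ∀ d i : ℕ, i + d < n → f (i + d) + d * g ≤ f i := by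
    intro d
    induction d with
    | zero => intro i _; simp
    | succ d ih =>
      intro i hi
      have h1 := ih i (by omega)
      have h2 := hf (i + d) (by omega)
      have h3 : i + (d + 1) = i + d + 1 := by ring
      rw [h3]
      push_cast
      linarith
  set T := (range n).filter fun i => |f i - c| ≤ r with hT
  obtain ⟨h1, h2⟩ := mem_filter.1 (T.min'_mem hne)
  obtain ⟨h3, h4⟩ := mem_filter.1 (T.max'_mem hne)
  have hle : T.min' hne ≤ T.max' hne := T.min'_le_max' hne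
  obtain ⟨d, hd⟩ := Nat.exists_eq_add_of_le hle
  have h5 : f (T.min' hne + d) + d * g ≤ f (T.min' hne) := by
    apply hsum
    rw [← hd]
    exact mem_range.1 h3
  rw [← hd] at h5
  have h6 := (abs_le.1 h2).2
  have h7 := (abs_le.1 h4).1
  have h8 : (d : ℝ) ≤ 2 * r / g := by
    rw [le_div_iff₀ hg]
    linarith
  have h9 : T ⊆ Icc (T.min' hne) (T.max' hne) := fun i hi => mem_Icc.2 ⟨T.min'_le i hi, T.le_max' i hi⟩
  have h10 : T.card ≤ d + 1 := by
    refine (card_le_card h9).trans ?_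
    rw [Nat.card_Icc]
    omega
  have h11 : (T.card : ℝ) ≤ d + 1 := by exact_mod_cast h10
  linarith

end Pool.Agent.Lib.H21T
end

-- from Lib.H21T.F4
section

/-!
# Chunk F4 (M): how many pieces have a given direction
-/

namespace Pool.Agent.Lib.H21T

open Finset Pool.Agent.SZW

/-- `f3` with `f i = x / (pa A1 Λ i) ^ 2`, `c = t1 / s1`, `r = 1 / (s1 S)`, `g = 1 / (48 S ^ 2)`, `n = nJ A1 A2 Λ`. If `i < n` then `i ≤ (A2 - A1) / Λ`, so
`pa A1 Λ i = A1 + i Λ ≤ A2 ≤ 2 A`; `hf` is `f2_gap` for `a = pa A1 Λ i` (`pa A1 Λ (i + 1) = pa A1 Λ i + Λ`). If `s i = s1`, `t i = t1`, then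
`|f i - t1 / s1| ≤ 1 / (s1 S)` from `Ap`. `2 r / g = 96 S / s1`. -/
theorem f4 {A x X S Λ A1 A2 : ℕ} (G : Geo A x X S Λ) (h1 : A ≤ A1) (h2 : A1 ≤ A2) (h3 : A2 ≤ 2 * A) {s t : ℕ → ℕ}
    (hD : Dir A1 Λ x S (nJ A1 A2 Λ) s t) (s1 t1 : ℕ) (hs1 : 1 ≤ s1) :
    (((range (nJ A1 A2 Λ)).filter fun i => s i = s1 ∧ t i = t1).card : ℝ) ≤ 96 * S / s1 + 1 := by
  have hS0 : (0 : ℝ) < S := by exact_mod_cast G.hS
  have hs0 : (0 : ℝ) < s1 := by exact_mod_cast hs1
  have h := f3 (fun i => (x : ℝ) / ((pa A1 Λ i : ℕ) : ℝ) ^ 2) (1 / (48 * (S : ℝ) ^ 2))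
    (1 / (s1 * S)) ((t1 : ℝ) / s1) (nJ A1 A2 Λ) (by positivity) (by positivity) (fun i hi => by
      have h4 : i + 1 ≤ (A2 - A1) / Λ := by
        unfold nJ at hi
        omega
      have h5 : (i + 1) * Λ ≤ A2 - A1 := (Nat.le_div_iff_mul_le G.hΛ).1 h4
      have h6 : pa A1 Λ i ≤ 2 * A := by
        unfold pa
        have : i * Λ ≤ (i + 1) * Λ := Nat.mul_le_mul_right _ (Nat.le_succ i)
        omega
      have h7 : A ≤ pa A1 Λ i := by
        unfold pa
        omega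
      have h8 := f2_gap G h7 h6
      have e : ((pa A1 Λ (i + 1) : ℕ) : ℝ) = ((pa A1 Λ i : ℕ) : ℝ) + Λ := by
        unfold pa
        push_cast
        ring
      rw [e]
      linarith)
  have e : 2 * (1 / ((s1 : ℝ) * S)) / (1 / (48 * (S : ℝ) ^ 2)) = 96 * S / s1 := by
    field_simp
    ring
  rw [e] at h
  refine le_trans ?_ h
  have hsub : (range (nJ A1 A2 Λ)).filter (fun i => s i = s1 ∧ t i = t1) ⊆
      (range (nJ A1 A2 Λ)).filter
        (fun i => |(x : ℝ) / ((pa A1 Λ i : ℕ) : ℝ) ^ 2 - (t1 : ℝ) / s1| ≤ 1 / (s1 * S)) := by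
    intro i hi
    rw [mem_filter, mem_range] at hi
    refine mem_filter.2 ⟨mem_range.2 hi.1, ?_⟩
    have h4 := hD.ap i hi.1
    unfold Ap at h4
    rw [hi.2.1, hi.2.2] at h4
    have e2 : (x : ℝ) / ((pa A1 Λ i : ℕ) : ℝ) ^ 2 - (t1 : ℝ) / s1 =
        ((s1 : ℝ) * (x / ((pa A1 Λ i : ℕ) : ℝ) ^ 2) - t1) / s1 := by
      rw [sub_div, mul_div_cancel_left₀ _ hs0.ne']
    have e3 : 1 / ((s1 : ℝ) * S) = 1 / S / s1 := by
      rw [div_div, mul_comm]
    rw [e2, abs_div, abs_of_pos hs0, e3]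
    exact div_le_div_of_nonneg_right h4 hs0.le
  exact_mod_cast card_le_card hsub

/-- `t i ≤ s i x / a ^ 2 + 1 / S ≤ s i X + 1` (`a = pa A1 Λ i ≥ A`, `hX`). So for `s i = s1` there are at most `s1 X + 2 ≤ 3 s1 X` values `t1` of `t i`, each
(`f4`) for at most `96 S / s1 + 1` indices: at most `288 X S + 3 s1 X ≤ 291 X S` indices with `s i = s1` (`s1 ≤ S`), and there are fewer than
`s0` values `s1 < s0`. -/
theorem f4_small {A x X S Λ A1 A2 : ℕ} (G : Geo A x X S Λ) (h1 : A ≤ A1) (h2 : A1 ≤ A2) (h3 : A2 ≤ 2 * A) {s t : ℕ → ℕ}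
    (hD : Dir A1 Λ x S (nJ A1 A2 Λ) s t) (s0 : ℕ) :
    (((range (nJ A1 A2 Λ)).filter fun i => s i < s0).card : ℝ) ≤ 291 * X * s0 * S := by
  have hS0 : (0 : ℝ) < S := by exact_mod_cast G.hS
  have hS1 : (1 : ℝ) ≤ S := by exact_mod_cast G.hS
  have hX1 : (1 : ℝ) ≤ X := by exact_mod_cast G.hX1
  have hA0 : (0 : ℝ) < A := by exact_mod_cast G.hA
  have hone : ∀ s1 : ℕ, (((range (nJ A1 A2 Λ)).filter fun i => s i = s1).card : ℝ) ≤
      291 * X * S := by
    intro s1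
    by_cases hs : 1 ≤ s1 ∧ s1 ≤ S
    · have hs0 : (1 : ℝ) ≤ s1 := by exact_mod_cast hs.1
      have hsS : (s1 : ℝ) ≤ S := by exact_mod_cast hs.2
      have h4 := card_eq_sum_card_fiberwise (f := t)
        (s := (range (nJ A1 A2 Λ)).filter fun i => s i = s1) (t := range (s1 * X + 2)) (by
          intro i hi
          rw [mem_coe, mem_filter, mem_range] at hi
          rw [mem_coe, mem_range]
          have h5 := hD.ap i hi.1
          unfold Ap at h5
          rw [hi.2] at h5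
          have h6 := (abs_le.1 h5).1
          have h7 : (1 : ℝ) / S ≤ 1 := by
            rw [div_le_one hS0]
            exact hS1
          have h8 : (A : ℝ) ≤ ((pa A1 Λ i : ℕ) : ℝ) := by
            have : A ≤ pa A1 Λ i := by
              unfold pa
              omega
            exact_mod_cast this
          have h9 : (x : ℝ) / ((pa A1 Λ i : ℕ) : ℝ) ^ 2 ≤ X := by
            rw [div_le_iff₀ (pow_pos (lt_of_lt_of_le hA0 h8) 2)]
            have h10 : (x : ℝ) ≤ X * (A : ℝ) ^ 2 := by exact_mod_cast G.hX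
            refine h10.trans ?_
            exact mul_le_mul_of_nonneg_left (pow_le_pow_left₀ hA0.le h8 2) (by linarith)
          have h11 : (t i : ℝ) ≤ s1 * X + 1 := by
            have := mul_le_mul_of_nonneg_left h9 (by linarith : (0 : ℝ) ≤ s1)
            linarith
          have h12 : t i ≤ s1 * X + 1 := by exact_mod_cast h11
          omega)
      rw [h4]
      push_cast
      have h5 : ∀ t1 ∈ range (s1 * X + 2),
          ((((range (nJ A1 A2 Λ)).filter fun i => s i = s1).filter fun i => t i = t1).card : ℝ) ≤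
            96 * S / s1 + 1 := by
        intro t1 _
        rw [filter_filter]
        exact f4 G h1 h2 h3 hD s1 t1 hs.1
      refine (sum_le_card_nsmul _ _ _ h5).trans ?_
      rw [card_range, nsmul_eq_mul]
      push_cast
      have h6 : (s1 : ℝ) * X + 2 ≤ 3 * (s1 * X) := by nlinarith
      have h7 : 0 ≤ 96 * (S : ℝ) / s1 + 1 := by positivity
      refine (mul_le_mul_of_nonneg_right h6 h7).trans ?_
      have e : 3 * ((s1 : ℝ) * X) * (96 * S / s1 + 1) = 288 * X * S + 3 * s1 * X := by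
        field_simp
        ring
      rw [e]
      nlinarith
    · have h4 : (range (nJ A1 A2 Λ)).filter (fun i => s i = s1) = ∅ := by
        rw [filter_eq_empty_iff]
        intro i hi hi2
        rw [mem_range] at hi
        apply hs
        rw [← hi2]
        exact ⟨hD.s1 i hi, hD.sS i hi⟩
      rw [h4, card_empty]
      push_cast
      positivity
  have h4 := card_eq_sum_card_fiberwise (f := s)
    (s := (range (nJ A1 A2 Λ)).filter fun i => s i < s0) (t := range s0) (by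
      intro i hi
      rw [mem_coe, mem_filter] at hi
      exact mem_coe.2 (mem_range.2 hi.2))
  rw [h4]
  push_cast
  have h5 : ∀ s1 ∈ range s0,
      ((((range (nJ A1 A2 Λ)).filter fun i => s i < s0).filter fun i => s i = s1).card : ℝ) ≤
        291 * X * S := by
    intro s1 _
    refine le_trans ?_ (hone s1)
    have : ((range (nJ A1 A2 Λ)).filter fun i => s i < s0).filter (fun i => s i = s1) ⊆
        (range (nJ A1 A2 Λ)).filter fun i => s i = s1 :=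
      filter_subset_filter _ (filter_subset _ _)
    exact_mod_cast card_le_card this
  refine (sum_le_card_nsmul _ _ _ h5).trans (le_of_eq ?_)
  rw [card_range, nsmul_eq_mul]
  ring

end Pool.Agent.Lib.H21T
end

-- from Lib.H21T.S7
section

/-!
# Chunk S7 (S/M): the bad directions
-/

namespace Pool.Agent.Lib.H21T

open Finset Pool.Agent.SZW

/-- `Bd` = image of `{i ∈ Bs : s0 ≤ s i}` under `i ↦ (s i, t i)`. `1 ≤ s i ≤ S`; `1 ≤ t i ≤ 2 X S` by `s2_t`, `s2_t1` (`pa A1 Λ i ≤ A2 ≤ 2 A` for `i < nJ`). At most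
`291 X s0 S ≤ |Bs| / 2` of the `i` have `s i < s0` (`f4_small`), each pair `(s1, t1)` with `s1 ≥ s0` comes from at most `96 S / s1 + 1 ≤ 96 S / s0 + 1` indices (`f4`). -/
theorem s7 {A x X S Λ A1 A2 : ℕ} (G : Geo A x X S Λ) (h1 : A ≤ A1) (h2 : A1 ≤ A2) (h3 : A2 ≤ 2 * A) {s t : ℕ → ℕ}
    (hDir : Dir A1 Λ x S (nJ A1 A2 Λ) s t) {s0 : ℕ} (hs0 : 9 ≤ s0) (Bs : Finset ℕ) (hBs : Bs ⊆ range (nJ A1 A2 Λ))
    (hbig : 582 * (X : ℝ) * s0 * S ≤ Bs.card) :
    ∃ Bd : Finset (ℕ × ℕ), (∀ p ∈ Bd, 1 ≤ p.1 ∧ p.1 ≤ S ∧ 1 ≤ p.2 ∧ p.2 ≤ 2 * X * S) ∧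
      (∀ p ∈ Bd, ∃ i ∈ Bs, p = (s i, t i)) ∧ (Bs.card : ℝ) ≤ 2 * (96 * S / s0 + 1) * Bd.card := by
  classical
  have hA : ∀ i, A ≤ pa A1 Λ i := fun i => by
    unfold pa
    exact h1.trans (Nat.le_add_right _ _)
  have hpa : ∀ i < nJ A1 A2 Λ, pa A1 Λ i ≤ 2 * A := by
    intro i hi
    unfold nJ at hi
    have h4 : i ≤ (A2 - A1) / Λ := by omega
    have h5 : i * Λ ≤ A2 - A1 := (Nat.le_div_iff_mul_le G.hΛ).1 h4
    unfold pa
    omega
  have hlt : ∀ i ∈ Bs, i < nJ A1 A2 Λ := fun i hi => mem_range.1 (hBs hi)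
  have hcard1 : (Bs.card : ℝ) ≤ 2 * (Bs.filter fun i => s0 ≤ s i).card := by
    have h4 : (Bs.filter fun i => s0 ≤ s i).card + (Bs.filter fun i => ¬ s0 ≤ s i).card = Bs.card :=
      card_filter_add_card_filter_not _
    have h5 : (Bs.filter fun i => ¬ s0 ≤ s i).card ≤ ((range (nJ A1 A2 Λ)).filter fun i => s i < s0).card := by
      refine card_le_card fun i hi => ?_
      rw [mem_filter] at hi ⊢
      exact ⟨hBs hi.1, not_le.1 hi.2⟩
    have h6 := f4_small G h1 h2 h3 hDir s0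
    have h7 : (((Bs.filter fun i => ¬ s0 ≤ s i).card : ℕ) : ℝ) ≤ 291 * X * s0 * S :=
      le_trans (by exact_mod_cast h5) h6
    have h8 : (((Bs.filter fun i => s0 ≤ s i).card : ℕ) : ℝ) + ((Bs.filter fun i => ¬ s0 ≤ s i).card : ℕ) = Bs.card := by
      exact_mod_cast h4
    linarith
  refine ⟨(Bs.filter fun i => s0 ≤ s i).image fun i => (s i, t i), ?_, ?_, ?_⟩
  · intro p hp
    rw [mem_image] at hp
    obtain ⟨i, hi, rfl⟩ := hp
    rw [mem_filter] at hi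
    have hin := hlt i hi.1
    exact ⟨hDir.s1 i hin, hDir.sS i hin, s2_t1 G (hA i) (hpa i hin) (hs0.trans hi.2) (hDir.ap i hin),
      s2_t G (hA i) (hDir.sS i hin) (hDir.ap i hin)⟩
  · intro p hp
    rw [mem_image] at hp
    obtain ⟨i, hi, rfl⟩ := hp
    exact ⟨i, (mem_filter.1 hi).1, rfl⟩
  · have hs00 : (0 : ℝ) < s0 := by
      have : (9 : ℝ) ≤ s0 := by exact_mod_cast hs0
      linarith
    have h4 : (((Bs.filter fun i => s0 ≤ s i).card : ℕ) : ℝ) ≤
        (96 * S / s0 + 1) * ((Bs.filter fun i => s0 ≤ s i).image fun i => (s i, t i)).card := by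
      rw [card_eq_sum_card_image (fun i => (s i, t i)) (Bs.filter fun i => s0 ≤ s i)]
      rw [Nat.cast_sum, mul_comm, ← nsmul_eq_mul, ← sum_const]
      refine sum_le_sum fun p hp => ?_
      rw [mem_image] at hp
      obtain ⟨i, hi, rfl⟩ := hp
      rw [mem_filter] at hi
      have hin := hlt i hi.1
      have h5 : ((Bs.filter fun i => s0 ≤ s i).filter fun j => (s j, t j) = (s i, t i)).card ≤
          ((range (nJ A1 A2 Λ)).filter fun j => s j = s i ∧ t j = t i).card := by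
        refine card_le_card fun j hj => ?_
        rw [mem_filter, mem_filter] at hj
        rw [mem_filter]
        exact ⟨hBs hj.1.1, (Prod.mk.injEq _ _ _ _ ▸ hj.2 : s j = s i ∧ t j = t i)⟩
      have h6 := f4 G h1 h2 h3 hDir (s i) (t i) (hDir.s1 i hin)
      refine le_trans (by exact_mod_cast h5) (h6.trans ?_)
      have h7 : (s0 : ℝ) ≤ s i := by exact_mod_cast hi.2
      have h8 : 96 * (S : ℝ) / s i ≤ 96 * S / s0 := div_le_div_of_nonneg_left (by positivity) hs00 h7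
      linarith
    linarith

end Pool.Agent.Lib.H21T
end

-- from Lib.H21T.S4
section

/-!
# Chunk S4 (S/M): counting pairs
-/

namespace Pool.Agent.Lib.H21T

open Finset Pool.Agent.SZW

/-- The `b` are the integers of the half open interval from `x / a` to `(x + H) / a`, of length `H / a`. -/
theorem s4_fib (x H a : ℕ) (ha : 1 ≤ a) :
    (((range (x + H)).filter fun b => x ≤ a * b ∧ a * b < x + H).card : ℝ) ≤ (H : ℝ) / a + 1 := by
  classical
  set S := (range (x + H)).filter fun b => x ≤ a * b ∧ a * b < x + H with hS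
  have ha' : (0 : ℝ) < a := by exact_mod_cast ha
  rcases S.eq_empty_or_nonempty with h | h
  · rw [h, card_empty, Nat.cast_zero]
    positivity
  · have h0 := S.min'_mem h
    have h1 := S.max'_mem h
    set b0 := S.min' h with hb0
    set b1 := S.max' h with hb1
    have hle : b0 ≤ b1 := S.min'_le_max' h
    have hsub : S ⊆ Icc b0 b1 := fun b hb => mem_Icc.2 ⟨S.min'_le b hb, S.le_max' b hb⟩
    have hc : S.card ≤ b1 + 1 - b0 := by
      have := card_le_card hsub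
      rwa [Nat.card_Icc] at this
    rw [hS, mem_filter] at h0 h1
    have h2 : a * b1 < a * b0 + H := by
      have := h1.2.2
      have := h0.2.1
      omega
    have h3 : (a : ℝ) * b1 < a * b0 + H := by exact_mod_cast h2
    have h4 : (b1 : ℝ) - b0 < H / a := by
      rw [lt_div_iff₀ ha']
      nlinarith
    have h5 : (S.card : ℝ) ≤ (b1 : ℝ) + 1 - b0 := by
      have : S.card + b0 ≤ b1 + 1 := by omega
      have h6 : ((S.card : ℝ)) + b0 ≤ b1 + 1 := by exact_mod_cast this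
      linarith
    linarith

/-- Fibres over the first coordinate: for each `a ∈ T` with `A ≤ A1 ≤ a` at most `H / a + 1 ≤ H / A + 1` values of `b` (`s4_fib`). -/
theorem s4_card {A A1 A2 x H : ℕ} (hA : 1 ≤ A) (h1 : A ≤ A1) (T : Finset ℕ) :
    (((Rg A1 A2 x H).filter fun p => p.1 ∈ T).card : ℝ) ≤ T.card * ((H : ℝ) / A + 1) := by
  classical
  have hA' : (0 : ℝ) < A := by exact_mod_cast hA
  have h2 : ((Rg A1 A2 x H).filter fun p => p.1 ∈ T).card =
      ∑ a ∈ T, (((Rg A1 A2 x H).filter fun p => p.1 ∈ T).filter fun p => p.1 = a).card :=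
    card_eq_sum_card_fiberwise (fun p hp => (mem_filter.1 hp).2)
  rw [h2, Nat.cast_sum, ← nsmul_eq_mul]
  refine sum_le_card_nsmul _ _ _ fun a haT => ?_
  by_cases ha : A1 ≤ a
  · have h3 : (((Rg A1 A2 x H).filter fun p => p.1 ∈ T).filter fun p => p.1 = a).card ≤
        ((range (x + H)).filter fun b => x ≤ a * b ∧ a * b < x + H).card := by
      refine card_le_card_of_injOn (fun p => p.2) ?_ ?_
      · intro p hp
        have hp' := mem_filter.1 (mem_coe.1 hp)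
        have hp'' := mem_filter.1 hp'.1
        have h4 := hp''.1
        rw [Rg, mem_filter, mem_product] at h4
        rw [mem_coe, mem_filter]
        have h5 := hp'.2
        subst h5
        exact ⟨h4.1.2, h4.2⟩
      · intro p hp q hq hpq
        have hp' := (mem_filter.1 (mem_coe.1 hp)).2
        have hq' := (mem_filter.1 (mem_coe.1 hq)).2
        exact Prod.ext (hp'.trans hq'.symm) hpq
    have h4 : ((((Rg A1 A2 x H).filter fun p => p.1 ∈ T).filter fun p => p.1 = a).card : ℝ) ≤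
        (H : ℝ) / a + 1 := le_trans (by exact_mod_cast h3) (s4_fib x H a (by omega))
    refine h4.trans ?_
    have h5 : (H : ℝ) / a ≤ H / A := by
      apply div_le_div_of_nonneg_left (by positivity) hA'
      exact_mod_cast h1.trans ha
    linarith
  · have h3 : (((Rg A1 A2 x H).filter fun p => p.1 ∈ T).filter fun p => p.1 = a) = ∅ := by
      rw [filter_eq_empty_iff]
      intro p hp hpa
      have h4 := (mem_filter.1 hp).1
      rw [Rg, mem_filter, mem_product, mem_Ico] at h4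
      have h5 := h4.1.1.1
      omega
    rw [h3, card_empty, Nat.cast_zero]
    positivity

/-- The case `T = Ico A1 A2`. -/
theorem s4_all {A A1 A2 x H : ℕ} (hA : 1 ≤ A) (h1 : A ≤ A1) (h2 : A1 ≤ A2) :
    ((Rg A1 A2 x H).card : ℝ) ≤ ((A2 : ℝ) - A1) * ((H : ℝ) / A + 1) := by
  classical
  have h := s4_card (A2 := A2) (x := x) (H := H) hA h1 (Ico A1 A2)
  rw [Nat.card_Ico, Nat.cast_sub h2] at h
  have h3 : (Rg A1 A2 x H).filter (fun p => p.1 ∈ Ico A1 A2) = Rg A1 A2 x H := by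
    rw [filter_eq_self]
    intro p hp
    rw [Rg, mem_filter, mem_product] at hp
    exact hp.1.1
  rwa [h3] at h

/-- Fibres over the product: for `m ∈ U` (with `x ≤ m < x + H`) the pairs with `a b = m` inject into the divisors of `m` by `(a, b) ↦ a`. -/
theorem s4_div {A1 A2 x H τ : ℕ} (hA : 1 ≤ A1) (hx : 1 ≤ x) (hτ : ∀ m : ℕ, 1 ≤ m → m < x + H → m.divisors.card ≤ τ) (U : Finset ℕ) :
    ((Rg A1 A2 x H).filter fun p => p.1 * p.2 ∈ U).card ≤ τ * U.card := by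
  classical
  have h2 : ((Rg A1 A2 x H).filter fun p => p.1 * p.2 ∈ U).card =
      ∑ m ∈ U, (((Rg A1 A2 x H).filter fun p => p.1 * p.2 ∈ U).filter fun p => p.1 * p.2 = m).card :=
    card_eq_sum_card_fiberwise (fun p hp => (mem_filter.1 hp).2)
  rw [h2, mul_comm, ← smul_eq_mul]
  refine sum_le_card_nsmul _ _ _ fun m hmU => ?_
  by_cases hm : x ≤ m ∧ m < x + H
  · refine le_trans ?_ (hτ m (hx.trans hm.1) hm.2)
    refine card_le_card_of_injOn (fun p => p.1) ?_ ?_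
    · intro p hp
      have h3 := (mem_filter.1 (mem_coe.1 hp)).2
      rw [mem_coe, Nat.mem_divisors]
      exact ⟨⟨p.2, h3.symm⟩, by omega⟩
    · intro p hp q hq hpq
      have h3 := (mem_filter.1 (mem_coe.1 hp)).2
      have h4 := (mem_filter.1 (mem_coe.1 hq)).2
      have h5 := (mem_filter.1 (mem_filter.1 (mem_coe.1 hp)).1).1
      rw [Rg, mem_filter, mem_product, mem_Ico] at h5
      have h6 : 0 < p.1 := by have := h5.1.1.1; omega
      have hpq' : p.1 = q.1 := hpq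
      refine Prod.ext hpq' ?_
      rw [← hpq'] at h4
      exact Nat.eq_of_mul_eq_mul_left h6 (h3.trans h4.symm)
  · have h3 : (((Rg A1 A2 x H).filter fun p => p.1 * p.2 ∈ U).filter fun p => p.1 * p.2 = m) = ∅ := by
      rw [filter_eq_empty_iff]
      intro p hp hpm
      have h4 := (mem_filter.1 hp).1
      rw [Rg, mem_filter] at h4
      exact hm (hpm ▸ h4.2)
    rw [h3, card_empty]
    exact Nat.zero_le _

/-- `s4_div` with `U = Ico x (x + D) ∪ Ico (x + H - D) (x + H)`, `|U| ≤ 2 D`. -/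
theorem s4_bdry {A1 A2 x H τ : ℕ} (hA : 1 ≤ A1) (hx : 1 ≤ x) (hτ : ∀ m : ℕ, 1 ≤ m → m < x + H → m.divisors.card ≤ τ) (D : ℕ) :
    ((Rg A1 A2 x H).filter fun p => p.1 * p.2 < x + D ∨ x + H ≤ p.1 * p.2 + D).card ≤ 2 * τ * D := by
  classical
  have h1 := s4_div (A2 := A2) hA hx hτ (Ico x (x + D) ∪ Ico (x + H - D) (x + H))
  have h2 : (Ico x (x + D) ∪ Ico (x + H - D) (x + H)).card ≤ 2 * D := by
    refine (card_union_le _ _).trans ?_
    rw [Nat.card_Ico, Nat.card_Ico]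
    omega
  refine le_trans (card_le_card ?_) (h1.trans ?_)
  · intro p hp
    rw [mem_filter] at hp ⊢
    have h3 := hp.1
    rw [Rg, mem_filter] at h3
    refine ⟨hp.1, ?_⟩
    rw [mem_union, mem_Ico, mem_Ico]
    rcases hp.2 with h | h
    · exact Or.inl ⟨h3.2.1, h⟩
    · exact Or.inr ⟨by omega, h3.2.2⟩
  · calc τ * (Ico x (x + D) ∪ Ico (x + H - D) (x + H)).card ≤ τ * (2 * D) := Nat.mul_le_mul_left _ h2
      _ = 2 * τ * D := by ring

end Pool.Agent.Lib.H21T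
end

-- from Lib.H21T.S3
section

/-!
# Chunk S3 (M): the pairs which leave the region
-/

namespace Pool.Agent.Lib.H21T

open Finset Pool.Agent.SZW

/-- The change of the product. -/
theorem s3_dev {A x X S Λ : ℕ} (G : Geo A x X S Λ) {a0 a1 s t H K D k a b : ℕ} (h0 : A ≤ a0) (h1 : a1 ≤ a0 + Λ)
    (h2 : a1 ≤ 2 * A) (hsS : s ≤ S) (hap : Ap x S a0 s t)
    (hD : (K : ℝ) * (4 * A / S + S * H / A) + 2 * (K : ℝ) ^ 2 * (S : ℝ) ^ 2 * X ≤ D) (hk : k < K)
    (ha0 : a0 ≤ a) (ha1 : a < a1) (hx1 : x ≤ a * b) (hx2 : a * b < x + H) :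
    |(k : ℤ) * ((s : ℤ) * b - t * a)| + (k : ℤ) ^ 2 * s * t ≤ D := by
  have r1 := s2 G h0 hsS hap ha0 (by omega) (by omega) hx1 hx2.le
  have r2 := s2_t G h0 hsS hap
  have hkK : (k : ℝ) ≤ K := by exact_mod_cast hk.le
  have hk0 : (0 : ℝ) ≤ k := Nat.cast_nonneg _
  have hs : (s : ℝ) ≤ S := by exact_mod_cast hsS
  have hs0 : (0 : ℝ) ≤ s := Nat.cast_nonneg _
  have ht : (t : ℝ) ≤ 2 * X * S := by exact_mod_cast r2
  have ht0 : (0 : ℝ) ≤ t := Nat.cast_nonneg _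
  have r3 : |(k : ℝ) * ((s : ℝ) * b - t * a)| ≤ K * (4 * A / S + S * H / A) := by
    rw [abs_mul, abs_of_nonneg hk0]
    exact mul_le_mul hkK r1 (abs_nonneg _) (Nat.cast_nonneg _)
  have r4 : (k : ℝ) ^ 2 * s * t ≤ 2 * (K : ℝ) ^ 2 * (S : ℝ) ^ 2 * X := by
    calc (k : ℝ) ^ 2 * s * t ≤ (K : ℝ) ^ 2 * S * (2 * X * S) := by gcongr
      _ = 2 * (K : ℝ) ^ 2 * (S : ℝ) ^ 2 * X := by ring
  have r5 : |(k : ℝ) * ((s : ℝ) * b - t * a)| + (k : ℝ) ^ 2 * s * t ≤ D := by linarith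
  have r6 : ((|(k : ℤ) * ((s : ℤ) * b - t * a)| + (k : ℤ) ^ 2 * s * t : ℤ) : ℝ) ≤ ((D : ℤ) : ℝ) := by
    push_cast
    exact r5
  exact_mod_cast r6

/-- `RZ` as an image: number of the pairs with a property. -/
theorem s3_card {a0 a1 x H : ℕ} (P : ℤ × ℤ → Prop) [DecidablePred P] :
    ((RZ a0 a1 x H).filter P).card = ((Rg a0 a1 x H).filter fun p => P ((p.1 : ℤ), (p.2 : ℤ))).card := by
  unfold RZ
  rw [Finset.filter_image, Finset.card_image_of_injective]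
  rintro ⟨a, b⟩ ⟨c, d⟩ h
  rw [Prod.mk.injEq] at h
  simp only [Nat.cast_inj] at h
  rw [h.1, h.2]

/-- `(a + k s) (b - k t) = a b + k (s b - t a) - k ^ 2 s t`, and `|k (s b - t a) - k ^ 2 s t| ≤ K (4 A / S + S H / A) + K ^ 2 S (2 X S) ≤ D` by `s2`, `s2_t`
and `hD`. If `(a, b) ∈ RZ a0 a1 x H` (`mem_RZ`), `a + k s < a1`, `x + D ≤ a b` and `a b + D < x + H`, then the shifted pair is in `RZ`. So a pair which leaves
has `a1 - k s ≤ a < a1` (at most `k s ≤ K S` values of `a`: `s4_card`) or is in the boundary set. (`RZ` is the image of `Rg` under the injective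
map to `ℤ × ℤ`.) -/
theorem s3p {A x X S Λ : ℕ} (G : Geo A x X S Λ) {a0 a1 s t H K D k : ℕ} (h0 : A ≤ a0) (h1 : a1 ≤ a0 + Λ) (h2 : a1 ≤ 2 * A)
    (hsS : s ≤ S) (hap : Ap x S a0 s t)
    (hD : (K : ℝ) * (4 * A / S + S * H / A) + 2 * (K : ℝ) ^ 2 * (S : ℝ) ^ 2 * X ≤ D) (hk : k < K) :
    (((RZ a0 a1 x H).filter fun p => (p.1 + (k : ℤ) * s, p.2 - (k : ℤ) * t) ∉ RZ a0 a1 x H).card : ℝ) ≤
      K * S * ((H : ℝ) / A + 1) + ((Rg a0 a1 x H).filter fun p => p.1 * p.2 < x + D ∨ x + H ≤ p.1 * p.2 + D).card := by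
  classical
  have hx : 1 ≤ x := by
    have := G.hx
    have h3 : 1 ≤ A ^ 2 := Nat.one_le_pow _ _ G.hA
    omega
  have ha01 : 1 ≤ a0 := G.hA.trans h0
  rw [s3_card]
  have hsub : (Rg a0 a1 x H).filter (fun p => (((p.1 : ℤ) + (k : ℤ) * s, (p.2 : ℤ) - (k : ℤ) * t) : ℤ × ℤ) ∉ RZ a0 a1 x H) ⊆
      ((Rg a0 a1 x H).filter fun p => p.1 ∈ Ico (a1 - k * s) a1) ∪
        ((Rg a0 a1 x H).filter fun p => p.1 * p.2 < x + D ∨ x + H ≤ p.1 * p.2 + D) := by
    rintro ⟨a, b⟩ hp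
    rw [mem_filter] at hp
    obtain ⟨hp1, hp2⟩ := hp
    have hp3 := (mem_Rg ha01).1 hp1
    simp only at hp2 hp3
    obtain ⟨g1, g2, g3, g4⟩ := hp3
    rw [mem_union, mem_filter, mem_filter]
    by_contra hcon
    rw [not_or] at hcon
    obtain ⟨c1, c2⟩ := hcon
    have c3 : a + k * s < a1 := by
      by_contra hc
      apply c1
      refine ⟨hp1, ?_⟩
      simp only [mem_Ico]
      omega
    have c4 : x + D ≤ a * b ∧ a * b + D < x + H := by
      by_contra hc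
      apply c2
      refine ⟨hp1, ?_⟩
      simp only
      by_contra hc2
      exact hc (by omega)
    have hdev := s3_dev G h0 h1 h2 hsS hap hD hk g1 g2 g3 g4
    apply hp2
    rw [mem_RZ ha01 hx]
    simp only
    have e1 : ((a : ℤ) + (k : ℤ) * s) * ((b : ℤ) - (k : ℤ) * t) =
        (a : ℤ) * b + (k : ℤ) * ((s : ℤ) * b - t * a) - (k : ℤ) ^ 2 * s * t := by ring
    have e2 := neg_abs_le ((k : ℤ) * ((s : ℤ) * b - t * a))
    have e3 := le_abs_self ((k : ℤ) * ((s : ℤ) * b - t * a))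
    have e4 : (0 : ℤ) ≤ (k : ℤ) ^ 2 * s * t := by positivity
    have c5 : (x : ℤ) + D ≤ (a : ℤ) * b := by exact_mod_cast c4.1
    have c6 : (a : ℤ) * b + D < (x : ℤ) + H := by exact_mod_cast c4.2
    have c7 : (a : ℤ) + (k : ℤ) * s < a1 := by exact_mod_cast c3
    have c8 : (0 : ℤ) ≤ (k : ℤ) * s := by positivity
    have c9 : (a0 : ℤ) ≤ a := by exact_mod_cast g1
    rw [e1]
    refine ⟨by linarith, c7, by linarith, by linarith⟩
  have hc := (card_le_card hsub).trans (card_union_le _ _)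
  have hc2 : ((((Rg a0 a1 x H).filter fun p => p.1 ∈ Ico (a1 - k * s) a1).card : ℕ) : ℝ) ≤ K * S * ((H : ℝ) / A + 1) := by
    refine (s4_card G.hA h0 _).trans ?_
    refine mul_le_mul_of_nonneg_right ?_ (by positivity)
    rw [Nat.card_Ico]
    have h3 : a1 - (a1 - k * s) ≤ K * S := by
      have h4 : k * s ≤ K * S := Nat.mul_le_mul hk.le hsS
      omega
    exact_mod_cast h3
  have hc3 : ((((Rg a0 a1 x H).filter (fun p => (((p.1 : ℤ) + (k : ℤ) * s, (p.2 : ℤ) - (k : ℤ) * t) : ℤ × ℤ) ∉ RZ a0 a1 x H)).card : ℕ) : ℝ) ≤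
      (((Rg a0 a1 x H).filter fun p => p.1 ∈ Ico (a1 - k * s) a1).card : ℝ) +
        (((Rg a0 a1 x H).filter fun p => p.1 * p.2 < x + D ∨ x + H ≤ p.1 * p.2 + D).card : ℝ) := by
    exact_mod_cast hc
  linarith

/-- The same for the inverse shift: a pair which leaves has `a0 ≤ a < a0 + k s` or is in the boundary set. -/
theorem s3m {A x X S Λ : ℕ} (G : Geo A x X S Λ) {a0 a1 s t H K D k : ℕ} (h0 : A ≤ a0) (h1 : a1 ≤ a0 + Λ) (h2 : a1 ≤ 2 * A)
    (hsS : s ≤ S) (hap : Ap x S a0 s t)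
    (hD : (K : ℝ) * (4 * A / S + S * H / A) + 2 * (K : ℝ) ^ 2 * (S : ℝ) ^ 2 * X ≤ D) (hk : k < K) :
    (((RZ a0 a1 x H).filter fun p => (p.1 - (k : ℤ) * s, p.2 + (k : ℤ) * t) ∉ RZ a0 a1 x H).card : ℝ) ≤
      K * S * ((H : ℝ) / A + 1) + ((Rg a0 a1 x H).filter fun p => p.1 * p.2 < x + D ∨ x + H ≤ p.1 * p.2 + D).card := by
  classical
  have hx : 1 ≤ x := by
    have := G.hx
    have h3 : 1 ≤ A ^ 2 := Nat.one_le_pow _ _ G.hA
    omega
  have ha01 : 1 ≤ a0 := G.hA.trans h0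
  rw [s3_card]
  have hsub : (Rg a0 a1 x H).filter (fun p => (((p.1 : ℤ) - (k : ℤ) * s, (p.2 : ℤ) + (k : ℤ) * t) : ℤ × ℤ) ∉ RZ a0 a1 x H) ⊆
      ((Rg a0 a1 x H).filter fun p => p.1 ∈ Ico a0 (a0 + k * s)) ∪
        ((Rg a0 a1 x H).filter fun p => p.1 * p.2 < x + D ∨ x + H ≤ p.1 * p.2 + D) := by
    rintro ⟨a, b⟩ hp
    rw [mem_filter] at hp
    obtain ⟨hp1, hp2⟩ := hp
    have hp3 := (mem_Rg ha01).1 hp1
    simp only at hp2 hp3
    obtain ⟨g1, g2, g3, g4⟩ := hp3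
    rw [mem_union, mem_filter, mem_filter]
    by_contra hcon
    rw [not_or] at hcon
    obtain ⟨c1, c2⟩ := hcon
    have c3 : a0 + k * s ≤ a := by
      by_contra hc
      apply c1
      refine ⟨hp1, ?_⟩
      simp only [mem_Ico]
      omega
    have c4 : x + D ≤ a * b ∧ a * b + D < x + H := by
      by_contra hc
      apply c2
      refine ⟨hp1, ?_⟩
      simp only
      by_contra hc2
      exact hc (by omega)
    have hdev := s3_dev G h0 h1 h2 hsS hap hD hk g1 g2 g3 g4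
    apply hp2
    rw [mem_RZ ha01 hx]
    simp only
    have e1 : ((a : ℤ) - (k : ℤ) * s) * ((b : ℤ) + (k : ℤ) * t) =
        (a : ℤ) * b - (k : ℤ) * ((s : ℤ) * b - t * a) - (k : ℤ) ^ 2 * s * t := by ring
    have e2 := neg_abs_le ((k : ℤ) * ((s : ℤ) * b - t * a))
    have e3 := le_abs_self ((k : ℤ) * ((s : ℤ) * b - t * a))
    have e4 : (0 : ℤ) ≤ (k : ℤ) ^ 2 * s * t := by positivity
    have c5 : (x : ℤ) + D ≤ (a : ℤ) * b := by exact_mod_cast c4.1
    have c6 : (a : ℤ) * b + D < (x : ℤ) + H := by exact_mod_cast c4.2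
    have c7 : (a0 : ℤ) + (k : ℤ) * s ≤ a := by exact_mod_cast c3
    have c8 : (0 : ℤ) ≤ (k : ℤ) * s := by positivity
    have c9 : (a : ℤ) < a1 := by exact_mod_cast g2
    rw [e1]
    refine ⟨by linarith, by linarith, by linarith, by linarith⟩
  have hc := (card_le_card hsub).trans (card_union_le _ _)
  have hc2 : ((((Rg a0 a1 x H).filter fun p => p.1 ∈ Ico a0 (a0 + k * s)).card : ℕ) : ℝ) ≤ K * S * ((H : ℝ) / A + 1) := by
    refine (s4_card G.hA h0 _).trans ?_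
    refine mul_le_mul_of_nonneg_right ?_ (by positivity)
    rw [Nat.card_Ico]
    have h3 : a0 + k * s - a0 ≤ K * S := by
      have h4 : k * s ≤ K * S := Nat.mul_le_mul hk.le hsS
      omega
    exact_mod_cast h3
  have hc3 : ((((Rg a0 a1 x H).filter (fun p => (((p.1 : ℤ) - (k : ℤ) * s, (p.2 : ℤ) + (k : ℤ) * t) : ℤ × ℤ) ∉ RZ a0 a1 x H)).card : ℕ) : ℝ) ≤
      (((Rg a0 a1 x H).filter fun p => p.1 ∈ Ico a0 (a0 + k * s)).card : ℝ) +
        (((Rg a0 a1 x H).filter fun p => p.1 * p.2 < x + D ∨ x + H ≤ p.1 * p.2 + D).card : ℝ) := by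
    exact_mod_cast hc
  linarith

end Pool.Agent.Lib.H21T
end

-- from Lib.H21T.S1
section

/-!
# Chunk S1 (M): averaging over shifts
-/

namespace Pool.Agent.Lib.H21T

open Finset Pool.Agent.SZW

theorem s1_one (R : Finset (ℤ × ℤ)) (φ : ℤ × ℤ → ℂ) (hφ : ∀ p, ‖φ p‖ ≤ 1) (τ : (ℤ × ℤ) ≃ (ℤ × ℤ)) (E : ℝ)
    (h1 : ((R.filter fun p => τ p ∉ R).card : ℝ) ≤ E)
    (h2 : ((R.filter fun p => τ.symm p ∉ R).card : ℝ) ≤ E) :
    ‖∑ p ∈ R, φ p - ∑ p ∈ R, φ (τ p)‖ ≤ 2 * E := by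
  have e1 : ∑ p ∈ R, φ (τ p) = ∑ p ∈ R.map τ.toEmbedding, φ p := by
    rw [Finset.sum_map]
    rfl
  have e2 : (R.map τ.toEmbedding \ R).card = (R.filter fun p => τ p ∉ R).card := by
    have h3 : R.map τ.toEmbedding \ R = (R.filter fun p => τ p ∉ R).map τ.toEmbedding := by
      ext p
      simp only [Finset.mem_sdiff, Finset.mem_map, Finset.mem_filter, Equiv.coe_toEmbedding]
      constructor
      · rintro ⟨⟨a, ha, rfl⟩, h⟩
        exact ⟨a, ⟨ha, h⟩, rfl⟩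
      · rintro ⟨a, ⟨ha, h⟩, rfl⟩
        exact ⟨⟨a, ha, rfl⟩, h⟩
    rw [h3, Finset.card_map]
  have e3 : R \ R.map τ.toEmbedding = R.filter fun p => τ.symm p ∉ R := by
    ext p
    rw [Finset.mem_sdiff, Finset.mem_filter, Finset.mem_map_equiv]
  have hb : ∀ T : Finset (ℤ × ℤ), ‖∑ p ∈ T, φ p‖ ≤ T.card := by
    intro T
    calc ‖∑ p ∈ T, φ p‖ ≤ ∑ p ∈ T, ‖φ p‖ := norm_sum_le _ _
      _ ≤ ∑ p ∈ T, (1 : ℝ) := Finset.sum_le_sum fun p _ => hφ p
      _ = T.card := by simp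
  rw [e1, ← Finset.sum_sdiff_sub_sum_sdiff]
  have h5 := norm_sub_le (∑ p ∈ R \ R.map τ.toEmbedding, φ p) (∑ p ∈ R.map τ.toEmbedding \ R, φ p)
  have h6 := hb (R \ R.map τ.toEmbedding)
  have h7 := hb (R.map τ.toEmbedding \ R)
  rw [e2] at h7
  rw [e3] at h6 h5 ⊢
  linarith

/-- For fixed `k < K` let `τ p = (p.1 + k s, p.2 - k t)` (a bijection of `ℤ × ℤ`). `∑_{p ∈ R} φ (τ p) = ∑_{p ∈ τ R} φ p`, and
`∑_{p ∈ R} φ p - ∑_{p ∈ τ R} φ p = ∑_{R \ τ R} φ - ∑_{τ R \ R} φ`, where `|R \ τ R| = |{p ∈ R : τ⁻¹ p ∉ R}| ≤ E` (`h2`) and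
`|τ R \ R| = |{p ∈ R : τ p ∉ R}| ≤ E` (`h1`). So `‖∑_R φ p - ∑_R φ (τ p)‖ ≤ 2 E`; sum over `k < K`, exchange the two sums. -/
theorem s1 (R : Finset (ℤ × ℤ)) (φ : ℤ × ℤ → ℂ) (hφ : ∀ p, ‖φ p‖ ≤ 1) (s t : ℤ) (K : ℕ) (E : ℝ)
    (h1 : ∀ k : ℕ, k < K → ((R.filter fun p => (p.1 + (k : ℤ) * s, p.2 - (k : ℤ) * t) ∉ R).card : ℝ) ≤ E)
    (h2 : ∀ k : ℕ, k < K → ((R.filter fun p => (p.1 - (k : ℤ) * s, p.2 + (k : ℤ) * t) ∉ R).card : ℝ) ≤ E) :
    (K : ℝ) * ‖∑ p ∈ R, φ p‖ ≤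
      ∑ p ∈ R, ‖∑ k ∈ range K, φ (p.1 + (k : ℤ) * s, p.2 - (k : ℤ) * t)‖ + 2 * K * E := by
  have key : ∀ k ∈ range K, ‖∑ p ∈ R, φ p - ∑ p ∈ R, φ (p.1 + (k : ℤ) * s, p.2 - (k : ℤ) * t)‖ ≤ 2 * E := by
    intro k hk
    rw [Finset.mem_range] at hk
    let τ : (ℤ × ℤ) ≃ (ℤ × ℤ) :=
      { toFun := fun p => (p.1 + (k : ℤ) * s, p.2 - (k : ℤ) * t)
        invFun := fun p => (p.1 - (k : ℤ) * s, p.2 + (k : ℤ) * t)
        left_inv := fun p => by simp
        right_inv := fun p => by simp }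
    exact s1_one R φ hφ τ E (h1 k hk) (h2 k hk)
  have e1 : (K : ℂ) * ∑ p ∈ R, φ p = ∑ k ∈ range K, (∑ p ∈ R, φ p - ∑ p ∈ R, φ (p.1 + (k : ℤ) * s, p.2 - (k : ℤ) * t)) +
      ∑ p ∈ R, ∑ k ∈ range K, φ (p.1 + (k : ℤ) * s, p.2 - (k : ℤ) * t) := by
    rw [Finset.sum_sub_distrib, Finset.sum_comm (s := R), Finset.sum_const, Finset.card_range, nsmul_eq_mul]
    ring
  have e2 : (K : ℝ) * ‖∑ p ∈ R, φ p‖ = ‖(K : ℂ) * ∑ p ∈ R, φ p‖ := by
    rw [norm_mul, Complex.norm_natCast]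
  rw [e2, e1]
  have h3 := norm_add_le (∑ k ∈ range K, (∑ p ∈ R, φ p - ∑ p ∈ R, φ (p.1 + (k : ℤ) * s, p.2 - (k : ℤ) * t)))
    (∑ p ∈ R, ∑ k ∈ range K, φ (p.1 + (k : ℤ) * s, p.2 - (k : ℤ) * t))
  have h4 : ‖∑ k ∈ range K, (∑ p ∈ R, φ p - ∑ p ∈ R, φ (p.1 + (k : ℤ) * s, p.2 - (k : ℤ) * t))‖ ≤ K * (2 * E) := by
    refine (norm_sum_le _ _).trans ((Finset.sum_le_sum key).trans (le_of_eq ?_))
    rw [Finset.sum_const, Finset.card_range, nsmul_eq_mul]
  have h5 := norm_sum_le R (fun p => ∑ k ∈ range K, φ (p.1 + (k : ℤ) * s, p.2 - (k : ℤ) * t))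
  linarith

end Pool.Agent.Lib.H21T
end

-- from Lib.H21T.S5
section

/-!
# Chunk S5 (S/M): the exponential sum over one piece
-/

namespace Pool.Agent.Lib.H21T

open Finset Pool.Agent.SZW

/-- `SR α a0 a1 x H = ∑_{p ∈ RZ a0 a1 x H} φ p`, `φ p = ee (α p.1 p.2)`. `s1` with `E` = the right side of `s3p`, `s3m`; for `p = (a, b)`:
`φ (a + k s, b - k t) = ee (α a b) ee (α (s b - t a) k - α s t k ^ 2)`, so by `hgood` (`β = α (s b - t a)`) the inner sum has norm `≤ δ K`. Divide by `K`. -/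
theorem s5 {A x X S Λ : ℕ} (G : Geo A x X S Λ) {a0 a1 s t H K D : ℕ} (h0 : A ≤ a0) (h1 : a1 ≤ a0 + Λ) (h2 : a1 ≤ 2 * A)
    (hsS : s ≤ S) (hap : Ap x S a0 s t) (hK : 1 ≤ K)
    (hD : (K : ℝ) * (4 * A / S + S * H / A) + 2 * (K : ℝ) ^ 2 * (S : ℝ) ^ 2 * X ≤ D) (α δ : ℝ)
    (hgood : ∀ β : ℝ, ‖∑ k ∈ range K, ee (β * k + (-(((s : ℝ) * t) * α)) * (k : ℝ) ^ 2)‖ ≤ δ * K) :
    ‖SR α a0 a1 x H‖ ≤ δ * (Rg a0 a1 x H).card + 2 * (K * S * ((H : ℝ) / A + 1) +
      ((Rg a0 a1 x H).filter fun p => p.1 * p.2 < x + D ∨ x + H ≤ p.1 * p.2 + D).card) := by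
  classical
  have hinj : Function.Injective (fun p : ℕ × ℕ => (((p.1 : ℤ), (p.2 : ℤ)) : ℤ × ℤ)) := by
    rintro ⟨a, b⟩ ⟨c, d⟩ h
    rw [Prod.mk.injEq] at h
    simp only [Nat.cast_inj] at h
    rw [h.1, h.2]
  have hcard : (RZ a0 a1 x H).card = (Rg a0 a1 x H).card := by
    unfold RZ
    exact Finset.card_image_of_injective _ hinj
  have hSR : SR α a0 a1 x H = ∑ p ∈ RZ a0 a1 x H, ee (α * ((p.1 : ℝ) * p.2)) := by
    unfold SR RZ
    rw [Finset.sum_image fun a _ b _ h => hinj h]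
    refine Finset.sum_congr rfl fun p _ => ?_
    push_cast
    rfl
  have hK0 : (0 : ℝ) < K := by exact_mod_cast hK
  have hmain := s1 (RZ a0 a1 x H) (fun p => ee (α * ((p.1 : ℝ) * p.2))) (fun p => (norm_ee _).le) (s : ℤ) (t : ℤ) K
    (K * S * ((H : ℝ) / A + 1) + ((Rg a0 a1 x H).filter fun p => p.1 * p.2 < x + D ∨ x + H ≤ p.1 * p.2 + D).card)
    (fun k hk => s3p G h0 h1 h2 hsS hap hD hk) (fun k hk => s3m G h0 h1 h2 hsS hap hD hk)
  have hin : ∀ p ∈ RZ a0 a1 x H, ‖∑ k ∈ range K,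
      (fun p : ℤ × ℤ => ee (α * ((p.1 : ℝ) * p.2))) (p.1 + (k : ℤ) * s, p.2 - (k : ℤ) * t)‖ ≤ δ * K := by
    intro p _
    have e1 : ∑ k ∈ range K, (fun p : ℤ × ℤ => ee (α * ((p.1 : ℝ) * p.2))) (p.1 + (k : ℤ) * s, p.2 - (k : ℤ) * t) =
        ee (α * ((p.1 : ℝ) * p.2)) * ∑ k ∈ range K,
          ee ((α * ((s : ℝ) * p.2 - t * p.1)) * k + (-(((s : ℝ) * t) * α)) * (k : ℝ) ^ 2) := by
      rw [Finset.mul_sum]
      refine Finset.sum_congr rfl fun k _ => ?_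
      rw [← ee_add]
      change ee (α * (((p.1 + (k : ℤ) * s : ℤ) : ℝ) * ((p.2 - (k : ℤ) * t : ℤ) : ℝ))) = _
      congr 1
      push_cast
      ring
    rw [e1, norm_mul, norm_ee, one_mul]
    exact hgood _
  have h5 := Finset.sum_le_sum hin
  rw [Finset.sum_const, nsmul_eq_mul, hcard] at h5
  rw [hSR]
  have h6 := hmain.trans (add_le_add h5 le_rfl)
  refine le_of_mul_le_mul_left ?_ hK0
  refine h6.trans (le_of_eq ?_)
  ring

end Pool.Agent.Lib.H21T
end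

-- from Lib.H21T.S6
section

/-!
# Chunk S6 (M): the exponential sum over all pieces
-/

namespace Pool.Agent.Lib.H21T

open Finset Pool.Agent.SZW

/-- The pieces `Ico (pa A1 Λ i) (pb A1 A2 Λ i)`, `i < nJ A1 A2 Λ`, are a partition of `Ico A1 A2` (`i = (a - A1) / Λ`). -/
theorem s6_part {A1 A2 Λ : ℕ} (hΛ : 1 ≤ Λ) (h : A1 ≤ A2) {M : Type*} [AddCommMonoid M] (f : ℕ → M) :
    ∑ a ∈ Ico A1 A2, f a = ∑ i ∈ range (nJ A1 A2 Λ), ∑ a ∈ Ico (pa A1 Λ i) (pb A1 A2 Λ i), f a := by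
  classical
  have hL : 0 < Λ := hΛ
  rw [← sum_fiberwise_of_maps_to (g := fun a => (a - A1) / Λ) (t := range (nJ A1 A2 Λ))
    (s := Ico A1 A2) (fun a ha => by
      rw [mem_Ico] at ha
      rw [mem_range]
      unfold nJ
      exact Nat.lt_succ_of_le (Nat.div_le_div_right (by omega)))]
  refine sum_congr rfl fun i _ => ?_
  refine sum_congr ?_ fun _ _ => rfl
  ext a
  have e1 : (i + 1) * Λ = i * Λ + Λ := by ring
  rw [mem_filter, mem_Ico, mem_Ico]
  unfold pa pb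
  rw [lt_min_iff]
  constructor
  · rintro ⟨⟨h1, h2⟩, h3⟩
    have h4 : i * Λ ≤ a - A1 := (Nat.le_div_iff_mul_le hL).1 (le_of_eq h3.symm)
    have h5 : a - A1 < (i + 1) * Λ := (Nat.div_lt_iff_lt_mul hL).1 (by omega)
    exact ⟨by omega, h2, by omega⟩
  · rintro ⟨h1, h2, h3⟩
    have h4 : i ≤ (a - A1) / Λ := (Nat.le_div_iff_mul_le hL).2 (by omega)
    have h5 : (a - A1) / Λ < i + 1 := (Nat.div_lt_iff_lt_mul hL).2 (by omega)
    exact ⟨⟨by omega, h2⟩, by omega⟩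

/-- The same for sums over `Rg` (`Rg` is a union of fibres over the first coordinate; `mem_Rg`). -/
theorem s6_Rg {A1 A2 Λ x H : ℕ} (hΛ : 1 ≤ Λ) (hA : 1 ≤ A1) (h : A1 ≤ A2) {M : Type*} [AddCommMonoid M] (f : ℕ × ℕ → M) :
    ∑ p ∈ Rg A1 A2 x H, f p = ∑ i ∈ range (nJ A1 A2 Λ), ∑ p ∈ Rg (pa A1 Λ i) (pb A1 A2 Λ i) x H, f p := by
  unfold Rg
  simp only [sum_filter, sum_product]
  exact s6_part hΛ h (fun a => ∑ b ∈ range (x + H),
    if x ≤ a * b ∧ a * b < x + H then f (a, b) else 0)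

/-- Good pieces (`i ∉ Bs`): `s5`; the other pieces: `‖SR‖ ≤ |Rg| ≤ Λ (H / A + 1)` (`s4_all`; `pb - pa ≤ Λ`; if `pb < pa` the set is empty, here `pa ≤ A2`). Sum over `i`:
`∑ |Rg_i| = |Rg| ≤ A (H / A + 1)` (`A2 - A1 ≤ A`), and the boundary sets add up to the boundary set of `Rg A1 A2 x H`, at most `2 τ D` (`s4_bdry`). -/
theorem s6 {A x X S Λ A1 A2 : ℕ} (G : Geo A x X S Λ) (h1 : A ≤ A1) (h2 : A1 ≤ A2) (h3 : A2 ≤ 2 * A) {s t : ℕ → ℕ}
    (hDir : Dir A1 Λ x S (nJ A1 A2 Λ) s t) {H K D τ : ℕ} (hK : 1 ≤ K)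
    (hτ : ∀ m : ℕ, 1 ≤ m → m < x + H → m.divisors.card ≤ τ)
    (hD : (K : ℝ) * (4 * A / S + S * H / A) + 2 * (K : ℝ) ^ 2 * (S : ℝ) ^ 2 * X ≤ D) (α δ : ℝ) (hδ : 0 ≤ δ) (Bs : Finset ℕ)
    (hgood : ∀ i ∈ range (nJ A1 A2 Λ), i ∉ Bs →
      ∀ β : ℝ, ‖∑ k ∈ range K, ee (β * k + (-(((s i : ℝ) * t i) * α)) * (k : ℝ) ^ 2)‖ ≤ δ * K) :
    ‖SR α A1 A2 x H‖ ≤ Bs.card * (Λ * ((H : ℝ) / A + 1)) + δ * (A * ((H : ℝ) / A + 1)) +
      2 * (nJ A1 A2 Λ * (K * S * ((H : ℝ) / A + 1))) + 4 * τ * D := by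
  classical
  have hA1 : 1 ≤ A := G.hA
  have hA1' : 1 ≤ A1 := by omega
  have hx1 : 1 ≤ x := by
    have h4 := G.hx
    have h5 : 1 ≤ A ^ 2 := Nat.one_le_pow _ _ hA1
    omega
  obtain ⟨W, hW⟩ : ∃ W : ℝ, W = (H : ℝ) / A + 1 := ⟨_, rfl⟩
  have hW0 : 0 ≤ W := by
    rw [hW]
    positivity
  have hpab : ∀ i ∈ range (nJ A1 A2 Λ), pa A1 Λ i ≤ pb A1 A2 Λ i := by
    intro i hi
    rw [mem_range] at hi
    unfold nJ at hi
    have h4 : i ≤ (A2 - A1) / Λ := by omega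
    have h5 : i * Λ ≤ A2 - A1 := (Nat.le_div_iff_mul_le G.hΛ).1 h4
    have e1 : (i + 1) * Λ = i * Λ + Λ := by ring
    unfold pa pb
    refine le_min ?_ ?_
    · omega
    · omega
  have hpbL : ∀ i, pb A1 A2 Λ i ≤ pa A1 Λ i + Λ := by
    intro i
    have e1 : (i + 1) * Λ = i * Λ + Λ := by ring
    unfold pa pb
    exact (min_le_right _ _).trans (by omega)
  have hpbA : ∀ i, pb A1 A2 Λ i ≤ A2 := fun i => min_le_left _ _
  have hpaA : ∀ i, A ≤ pa A1 Λ i := by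
    intro i
    unfold pa
    omega
  obtain ⟨bd, hbd⟩ : ∃ bd : ℕ → ℕ, bd = fun i => ((Rg (pa A1 Λ i) (pb A1 A2 Λ i) x H).filter
    fun p => p.1 * p.2 < x + D ∨ x + H ≤ p.1 * p.2 + D).card := ⟨_, rfl⟩
  have hstep : ∀ i ∈ range (nJ A1 A2 Λ), ‖SR α (pa A1 Λ i) (pb A1 A2 Λ i) x H‖ ≤
      (if i ∈ Bs then (Λ : ℝ) * W else 0) + δ * (Rg (pa A1 Λ i) (pb A1 A2 Λ i) x H).card +
        2 * (K * S * W) + 2 * (bd i : ℝ) := by
    intro i hi
    have hc0 : (0 : ℝ) ≤ (Rg (pa A1 Λ i) (pb A1 A2 Λ i) x H).card := Nat.cast_nonneg _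
    have hb0 : (0 : ℝ) ≤ bd i := Nat.cast_nonneg _
    by_cases hB : i ∈ Bs
    · rw [if_pos hB]
      have h4 : ‖SR α (pa A1 Λ i) (pb A1 A2 Λ i) x H‖ ≤
          (Rg (pa A1 Λ i) (pb A1 A2 Λ i) x H).card := by
        unfold SR
        refine (norm_sum_le _ _).trans (le_of_eq ?_)
        rw [sum_congr rfl fun p _ => norm_ee _, sum_const, nsmul_eq_mul, mul_one]
      have h5 := s4_all (x := x) (H := H) hA1 (hpaA i) (hpab i hi)
      rw [← hW] at h5
      have h6 : ((pb A1 A2 Λ i : ℕ) : ℝ) - (pa A1 Λ i : ℕ) ≤ Λ := by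
        have : ((pb A1 A2 Λ i : ℕ) : ℝ) ≤ ((pa A1 Λ i + Λ : ℕ) : ℝ) := by exact_mod_cast hpbL i
        push_cast at this
        linarith
      have h7 := mul_le_mul_of_nonneg_right h6 hW0
      have h8 := mul_nonneg hδ hc0
      have h9 : (0 : ℝ) ≤ K * S * W := by positivity
      linarith
    · rw [if_neg hB]
      rw [mem_range] at hi
      have h4 := s5 G (hpaA i) (hpbL i) ((hpbA i).trans h3) (hDir.sS i hi) (hDir.ap i hi) hK hD α δ
        (hgood i (mem_range.2 hi) hB)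
      rw [← hW] at h4
      have h5 : (bd i : ℝ) = (((Rg (pa A1 Λ i) (pb A1 A2 Λ i) x H).filter
        fun p => p.1 * p.2 < x + D ∨ x + H ≤ p.1 * p.2 + D).card : ℝ) := by rw [hbd]
      rw [h5]
      linarith
  have hSR : SR α A1 A2 x H = ∑ i ∈ range (nJ A1 A2 Λ), SR α (pa A1 Λ i) (pb A1 A2 Λ i) x H := by
    unfold SR
    exact s6_Rg G.hΛ hA1' h2 _
  have hcard : ((Rg A1 A2 x H).card : ℝ) =
      ∑ i ∈ range (nJ A1 A2 Λ), ((Rg (pa A1 Λ i) (pb A1 A2 Λ i) x H).card : ℝ) := by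
    have h4 := s6_Rg (x := x) (H := H) G.hΛ hA1' h2 (fun _ : ℕ × ℕ => (1 : ℝ))
    simp only [sum_const, nsmul_eq_mul, mul_one] at h4
    exact h4
  have hbdc : (((Rg A1 A2 x H).filter
      fun p => p.1 * p.2 < x + D ∨ x + H ≤ p.1 * p.2 + D).card : ℝ) =
      ∑ i ∈ range (nJ A1 A2 Λ), (bd i : ℝ) := by
    have h4 := s6_Rg (x := x) (H := H) G.hΛ hA1' h2 (fun p : ℕ × ℕ =>
      if p.1 * p.2 < x + D ∨ x + H ≤ p.1 * p.2 + D then (1 : ℝ) else 0)
    simp only [sum_boole] at h4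
    rw [hbd]
    exact h4
  have hc1 := s4_all (x := x) (H := H) hA1 h1 h2
  rw [← hW] at hc1
  have hc2 : ((A2 : ℝ) - A1) * W ≤ A * W := by
    refine mul_le_mul_of_nonneg_right ?_ hW0
    have h4 : (A2 : ℝ) ≤ 2 * A := by exact_mod_cast h3
    have h5 : (A : ℝ) ≤ A1 := by exact_mod_cast h1
    linarith
  have hb1 : (((Rg A1 A2 x H).filter
      fun p => p.1 * p.2 < x + D ∨ x + H ≤ p.1 * p.2 + D).card : ℝ) ≤ 2 * τ * D := by
    have := s4_bdry (A2 := A2) hA1' hx1 hτ D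
    exact_mod_cast this
  have hBs : ∑ i ∈ range (nJ A1 A2 Λ), (if i ∈ Bs then (Λ : ℝ) * W else 0) ≤ Bs.card * (Λ * W) := by
    rw [← sum_filter, sum_const, nsmul_eq_mul]
    refine mul_le_mul_of_nonneg_right ?_ (by positivity)
    have : (range (nJ A1 A2 Λ)).filter (fun i => i ∈ Bs) ⊆ Bs := fun i hi => (mem_filter.1 hi).2
    exact_mod_cast card_le_card this
  rw [hSR]
  refine (norm_sum_le _ _).trans ((sum_le_sum hstep).trans ?_)
  have hs : ∑ i ∈ range (nJ A1 A2 Λ), ((if i ∈ Bs then (Λ : ℝ) * W else 0) +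
      δ * (Rg (pa A1 Λ i) (pb A1 A2 Λ i) x H).card + 2 * (K * S * W) + 2 * (bd i : ℝ)) =
      ∑ i ∈ range (nJ A1 A2 Λ), (if i ∈ Bs then (Λ : ℝ) * W else 0) +
      δ * (∑ i ∈ range (nJ A1 A2 Λ), ((Rg (pa A1 Λ i) (pb A1 A2 Λ i) x H).card : ℝ)) +
      nJ A1 A2 Λ * (2 * (K * S * W)) + 2 * ∑ i ∈ range (nJ A1 A2 Λ), (bd i : ℝ) := by
    rw [sum_add_distrib, sum_add_distrib, sum_add_distrib, mul_sum, mul_sum, sum_const, card_range,
      nsmul_eq_mul]
  rw [hs, ← hcard, ← hbdc]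
  have h6 := mul_le_mul_of_nonneg_left (hc1.trans hc2) hδ
  rw [← hW]
  nlinarith [hBs, hb1, h6]

end Pool.Agent.Lib.H21T
end

-- from Lib.H21T.F1
section

/-!
# Chunk F1 (S): Dirichlet directions
-/

namespace Pool.Agent.Lib.H21T

open Finset Pool.Agent.SZW

/-- `Real.exists_nat_abs_mul_sub_round_le` gives `k` with `0 < k ≤ S` and `|k ρ - round (k ρ)| ≤ 1 / (S + 1)`. `round (k ρ) ≥ 0` because `k ρ ≥ 0`.
Divide `k` and `round (k ρ)` by their gcd `g ≥ 1`: `|s ρ - t| ≤ 1 / (g (S + 1)) ≤ 1 / S`. -/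
theorem f1 (ρ : ℝ) (hρ : 0 ≤ ρ) (S : ℕ) (hS : 1 ≤ S) :
    ∃ s t : ℕ, 1 ≤ s ∧ s ≤ S ∧ Nat.Coprime s t ∧ |(s : ℝ) * ρ - t| ≤ 1 / S := by
  obtain ⟨k, hk0, hkS, hk⟩ := Real.exists_nat_abs_mul_sub_round_le ρ (n := S) (by omega)
  have hr : 0 ≤ round ((k : ℝ) * ρ) := by
    rw [round_eq]
    apply Int.floor_nonneg.2
    positivity
  obtain ⟨m, hm⟩ := Int.eq_ofNat_of_zero_le hr
  rw [hm] at hk
  have hg : 0 < Nat.gcd k m := Nat.gcd_pos_of_pos_left _ hk0
  have hSr : (1 : ℝ) ≤ S := by exact_mod_cast hS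
  refine ⟨k / Nat.gcd k m, m / Nat.gcd k m, ?_, ?_, ?_, ?_⟩
  · exact Nat.div_pos (Nat.le_of_dvd hk0 (Nat.gcd_dvd_left k m)) hg
  · exact (Nat.div_le_self _ _).trans hkS
  · exact Nat.coprime_div_gcd_div_gcd hg
  · have hg1 : (1 : ℝ) ≤ (Nat.gcd k m : ℕ) := by exact_mod_cast hg
    have hg0 : (0 : ℝ) < (Nat.gcd k m : ℕ) := by linarith
    rw [Nat.cast_div (Nat.gcd_dvd_left k m) hg0.ne', Nat.cast_div (Nat.gcd_dvd_right k m) hg0.ne']
    have he : (k : ℝ) / (Nat.gcd k m : ℕ) * ρ - (m : ℝ) / (Nat.gcd k m : ℕ) = (k * ρ - m) / (Nat.gcd k m : ℕ) := by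
      field_simp
    rw [he, abs_div, abs_of_pos hg0]
    have hk' : |(k : ℝ) * ρ - m| ≤ 1 / (S + 1) := by
      have h2 : (((m : ℕ) : ℤ) : ℝ) = (m : ℝ) := by push_cast; rfl
      rw [← h2]
      exact hk
    calc |(k : ℝ) * ρ - m| / (Nat.gcd k m : ℕ) ≤ |(k : ℝ) * ρ - m| := div_le_self (abs_nonneg _) hg1
      _ ≤ 1 / (S + 1) := hk'
      _ ≤ 1 / S := one_div_le_one_div_of_le (by linarith) (by linarith)

theorem exists_dir (A1 Λ x S : ℕ) (hS : 1 ≤ S) : ∃ s t : ℕ → ℕ, ∀ n, Dir A1 Λ x S n s t := by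
  have h : ∀ i : ℕ, ∃ p : ℕ × ℕ, 1 ≤ p.1 ∧ p.1 ≤ S ∧ Nat.Coprime p.1 p.2 ∧ Ap x S (pa A1 Λ i) p.1 p.2 := by
    intro i
    obtain ⟨s, t, h1, h2, h3, h4⟩ := f1 ((x : ℝ) / ((pa A1 Λ i : ℕ) : ℝ) ^ 2) (by positivity) S hS
    exact ⟨(s, t), h1, h2, h3, h4⟩
  choose p hp using h
  exact ⟨fun i => (p i).1, fun i => (p i).2, fun n => ⟨fun i _ => (hp i).1, fun i _ => (hp i).2.1, fun i _ => (hp i).2.2.1,
    fun i _ => (hp i).2.2.2⟩⟩

end Pool.Agent.Lib.H21T
end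

-- from Lib.H59.PolyKey
section

/-!
# A uniform Mertens upper bound for the roots modulo primes of an irreducible polynomial

-/

open Set Module Filter Topology NumberField IsDedekindDomain Polynomial
open scoped NNReal nonZeroDivisors ENNReal
open Ideal (absNorm)

noncomputable section

namespace Pool.Agent.Lib.H59

/-- The number of residues `a` modulo `p` with `f a ≡ 0`. -/
def rootCount (f : ℤ[X]) (p : ℕ) : ℕ :=
  ((Finset.range p).filter fun a : ℕ => (p : ℤ) ∣ f.eval (a : ℤ)).card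








end Pool.Agent.Lib.H59
end
end

-- from Lib.H59.SchinzelDefs
section

/-!
# The objects of the quantitative Goldbach-type hypothesis of Schinzel

-/

open Finset Polynomial

noncomputable section

namespace Pool.Agent.Lib.H59

/-- The set of the positive integers `n` with `N - G(n) > 0`. -/
def argSet (G : ℤ[X]) (N : ℕ) : Set ℕ := {n | 0 < n ∧ 0 < (N : ℤ) - G.eval (n : ℤ)}

/-- Their number `X(N)`. -/
def argCount (G : ℤ[X]) (N : ℕ) : ℕ := (argSet G N).ncard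

/-- `N` is admissible for `F, G`: the polynomial `N - G` is irreducible in `ℤ[x]`, and
`F_1 ⋯ F_g (N - G)` has no fixed prime divisor. -/
def Admissible {g : ℕ} (F : Fin g → ℤ[X]) (G : ℤ[X]) (N : ℕ) : Prop :=
  Irreducible (C (N : ℤ) - G) ∧
    ∀ p : ℕ, p.Prime → ¬ ∀ n : ℤ, (p : ℤ) ∣ ((∏ i, F i) * (C (N : ℤ) - G)).eval n

/-- `Q_1(N)`: the number of the positive integers `n` with `N - G(n) > 0` for which all the
`F_i(n)` and `N - G(n)` are (positive) primes. -/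
def primeCount {g : ℕ} (F : Fin g → ℤ[X]) (G : ℤ[X]) (N : ℕ) : ℕ :=
  {n : ℕ | n ∈ argSet G N ∧ (∀ i, ∃ q : ℕ, q.Prime ∧ (F i).eval (n : ℤ) = q) ∧
    ∃ q : ℕ, q.Prime ∧ (N : ℤ) - G.eval (n : ℤ) = q}.ncard

/-- `ω_N(p)`: the number of the residues `a` modulo `p` with
`F_1(a) ⋯ F_g(a) (N - G(a)) ≡ 0 (mod p)`. -/
def omegaN {g : ℕ} (F : Fin g → ℤ[X]) (G : ℤ[X]) (N p : ℕ) : ℕ :=
  ((Finset.range p).filter fun a : ℕ =>
    (p : ℤ) ∣ ((∏ i, F i) * (C (N : ℤ) - G)).eval (a : ℤ)).card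

/-- The partial product over the primes `p < z` of the singular series `𝔖(N)`. -/
def seriesTrunc {g : ℕ} (F : Fin g → ℤ[X]) (G : ℤ[X]) (N z : ℕ) : ℝ :=
  ∏ p ∈ Nat.primesBelow z, ((1 - (omegaN F G N p : ℝ) / p) * ((1 - 1 / (p : ℝ)) ^ (g + 1))⁻¹)

end Pool.Agent.Lib.H59
end
end

-- from Lib.H33B.Defs
section

/-!
# Project H33B (MP_0bf1d2_nt): definitions

See `PROOF.md` in this folder.
-/

open Finset Polynomial Filter Topology

namespace Pool.Agent.Lib.H33B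

open Pool.Agent.Lib.H59 (argSet argCount Admissible primeCount omegaN seriesTrunc rootCount)
open Pool.Agent.Lib.H68T (lp e cq Lk dQ Reg Good)

noncomputable section









/-- `F_1 ⋯ F_g` has no fixed prime divisor. -/
def NoFix {g : ℕ} (F : Fin g → ℤ[X]) : Prop :=
  ∀ p : ℕ, p.Prime → ∃ n : ℤ, ¬ (p : ℤ) ∣ (∏ i, F i).eval n













end

end Pool.Agent.Lib.H33B
end

-- from Lib.SZW.C1
section

/-!
# C1 (S/M): algebra of the phases
-/

set_option autoImplicit false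

namespace Pool.Agent.SZW

variable {ι : Type*} [Fintype ι] [DecidableEq ι] {R : Type*} [CommRing R]
  (b : Module.Basis ι ℤ R)

theorem E_add (x y : ι → ℤ) : E b (x + y) = E b x + E b y := by
  simp only [E, Pi.add_apply, add_smul, Finset.sum_add_distrib]

theorem E_smul (n : ℤ) (x : ι → ℤ) : E b (n • x) = n • E b x := by
  simp only [E, Pi.smul_apply, smul_eq_mul, mul_smul, Finset.smul_sum]

/-- coordinates of one -/
theorem E_repr (r : R) : E b (fun i => b.repr r i) = r := by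
  exact b.sum_repr r

/-- an additive map, in coordinates -/
theorem map_E (θ : R →+ ℝ) (r : R) (x : ι → ℤ) :
    θ (r * E b x) = ∑ i, (x i : ℝ) * θ (r * b i) := by
  rw [E, Finset.mul_sum, map_sum]
  refine Finset.sum_congr rfl fun i _ => ?_
  rw [mul_smul_comm, map_zsmul, zsmul_eq_mul]

/-- the difference of a quadratic phase is affine -/
theorem diff_two (θ : R →+ ℝ) (γ : ι → ℝ) (γ₀ : ℝ) (k : ι → ℤ) :
    ∃ γ' : ℝ, (fun x : ι → ℤ => (θ (E b (x + k) ^ 2) + aff γ γ₀ (x + k)) -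
      (θ (E b x ^ 2) + aff γ γ₀ x)) = aff (fun i => θ (2 * E b k * b i)) γ' := by
  refine ⟨θ (E b k ^ 2) + ∑ i, (k i : ℝ) * γ i, ?_⟩
  funext x
  have h1 : E b (x + k) ^ 2 = 2 * E b k * E b x + E b k ^ 2 + E b x ^ 2 := by
    rw [E_add]; ring
  have h2 : ∑ i, (((x + k) i : ℤ) : ℝ) * γ i = ∑ i, (x i : ℝ) * γ i + ∑ i, (k i : ℝ) * γ i := by
    rw [← Finset.sum_add_distrib]
    refine Finset.sum_congr rfl fun i _ => ?_
    rw [Pi.add_apply]; push_cast; ring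
  have h3 := map_E b θ (2 * E b k) x
  simp only [aff]
  rw [h1, map_add, map_add, h2, h3]
  ring


end Pool.Agent.SZW
end

-- from Lib.H33N.S1
section

/-!
# Chunk S1: divisor bounds
-/

namespace Pool.Agent.Lib.H33N

noncomputable section

theorem s1_fac {K ε : ℝ} (hε : 0 < ε) (hK1 : 1 ≤ K) (hK2 : 1 ≤ K * (ε * Real.log 2)) {P : ℕ}
    (hP : (2 : ℝ) ^ (1 / ε) < P) (p v : ℕ) (hp : 2 ≤ p) :
    ((v : ℝ) + 1) ≤ (if p < P then K else 1) * ((p : ℝ) ^ ε) ^ v := by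
  have hp' : (2 : ℝ) ≤ p := by exact_mod_cast hp
  have hp0 : (0 : ℝ) < p := by linarith
  have hv : (0 : ℝ) ≤ v := Nat.cast_nonneg v
  split_ifs with h
  · -- Bernoulli
    have h1 : 1 + (v : ℝ) * (ε * Real.log 2) ≤ ((p : ℝ) ^ ε) ^ v := by
      have h2 : ((p : ℝ) ^ ε) ^ v = Real.exp ((v : ℝ) * (ε * Real.log p)) := by
        rw [Real.exp_nat_mul, Real.rpow_def_of_pos hp0, mul_comm (Real.log _)]
      have h3 : (v : ℝ) * (ε * Real.log 2) ≤ (v : ℝ) * (ε * Real.log p) := by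
        refine mul_le_mul_of_nonneg_left (mul_le_mul_of_nonneg_left ?_ hε.le) hv
        exact Real.log_le_log (by norm_num) hp'
      rw [h2]
      have h4 := Real.add_one_le_exp ((v : ℝ) * (ε * Real.log p))
      linarith
    have h5 : K * (1 + (v : ℝ) * (ε * Real.log 2)) ≤ K * ((p : ℝ) ^ ε) ^ v :=
      mul_le_mul_of_nonneg_left h1 (by linarith)
    nlinarith
  · have h1 : (2 : ℝ) ≤ (p : ℝ) ^ ε := by
      have h2 : (2 : ℝ) ^ (1 / ε) ≤ p := by
        have : (P : ℝ) ≤ p := by exact_mod_cast not_lt.1 h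
        linarith
      have h3 := Real.rpow_le_rpow (by positivity) h2 hε.le
      rwa [← Real.rpow_mul (by norm_num), one_div, inv_mul_cancel₀ hε.ne', Real.rpow_one] at h3
    rw [one_mul]
    have h4 : (2 : ℝ) ^ v ≤ ((p : ℝ) ^ ε) ^ v := pow_le_pow_left₀ (by norm_num) h1 v
    have h5 : ((v : ℝ) + 1) ≤ 2 ^ v := by
      have : v + 1 ≤ 2 ^ v := Nat.succ_le_of_lt Nat.lt_two_pow_self
      exact_mod_cast this
    linarith

/-- The divisor bound. `τ(m) / m ^ ε = ∏_p (v_p + 1) / p ^ (ε v_p)`; the factors with `p ^ ε ≥ 2` are at most `1` (`v + 1 ≤ 2 ^ v`), the others (finitely many primes) are at most `sup_v (v + 1) 2 ^ (-ε v)`, finite. -/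
theorem s1_div {ε : ℝ} (hε : 0 < ε) : ∃ C : ℝ, 1 ≤ C ∧ ∀ m : ℕ, 0 < m → (m.divisors.card : ℝ) ≤ C * (m : ℝ) ^ ε := by
  have hl : 0 < Real.log 2 := Real.log_pos (by norm_num)
  obtain ⟨K, hK1, hK2⟩ : ∃ K : ℝ, 1 ≤ K ∧ 1 ≤ K * (ε * Real.log 2) := by
    refine ⟨max 1 (1 / (ε * Real.log 2)), le_max_left _ _, ?_⟩
    have h := mul_le_mul_of_nonneg_right (le_max_right 1 (1 / (ε * Real.log 2))) (mul_pos hε hl).le
    have e : 1 / (ε * Real.log 2) * (ε * Real.log 2) = 1 := by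
      rw [one_div, inv_mul_cancel₀ (mul_pos hε hl).ne']
    rw [e] at h
    exact h
  obtain ⟨P, hP⟩ := exists_nat_gt ((2 : ℝ) ^ (1 / ε))
  refine ⟨K ^ P, one_le_pow₀ hK1, fun m hm => ?_⟩
  have h1 : (m.divisors.card : ℝ) = ∏ p ∈ m.primeFactors, ((m.factorization p : ℝ) + 1) := by
    rw [Nat.card_divisors hm.ne']
    push_cast
    rfl
  have h2 : (m : ℝ) ^ ε = ∏ p ∈ m.primeFactors, ((p : ℝ) ^ ε) ^ (m.factorization p) := by
    have e : (m : ℝ) = ∏ p ∈ m.primeFactors, (p : ℝ) ^ (m.factorization p) := by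
      conv_lhs => rw [← Nat.prod_factorization_pow_eq_self hm.ne']
      rw [Finsupp.prod, Nat.support_factorization]
      push_cast
      rfl
    rw [e, ← Real.finsetProd_rpow _ _ (fun p _ => by positivity)]
    refine Finset.prod_congr rfl fun p _ => ?_
    rw [← Real.rpow_natCast, ← Real.rpow_natCast, ← Real.rpow_mul (Nat.cast_nonneg p),
      ← Real.rpow_mul (Nat.cast_nonneg p), mul_comm]
  have h3 : ∏ p ∈ m.primeFactors, (if p < P then K else 1) ≤ K ^ P := by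
    rw [Finset.prod_ite, Finset.prod_const_one, mul_one, Finset.prod_const]
    refine pow_le_pow_right₀ hK1 ?_
    calc (m.primeFactors.filter fun p => p < P).card ≤ (Finset.range P).card := by
          refine Finset.card_le_card fun p hp => ?_
          rw [Finset.mem_filter] at hp
          exact Finset.mem_range.2 hp.2
      _ = P := Finset.card_range P
  calc (m.divisors.card : ℝ) = ∏ p ∈ m.primeFactors, ((m.factorization p : ℝ) + 1) := h1
    _ ≤ ∏ p ∈ m.primeFactors, ((if p < P then K else 1) * ((p : ℝ) ^ ε) ^ (m.factorization p)) :=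
        Finset.prod_le_prod (fun p _ => by positivity)
          fun p hp => s1_fac hε hK1 hK2 hP p _ (Nat.prime_of_mem_primeFactors hp).two_le
    _ = (∏ p ∈ m.primeFactors, (if p < P then K else 1)) * (m : ℝ) ^ ε := by
        rw [Finset.prod_mul_distrib, h2]
    _ ≤ K ^ P * (m : ℝ) ^ ε := mul_le_mul_of_nonneg_right h3 (by positivity)



end

end Pool.Agent.Lib.H33N
end

-- from Lib.SZW.B1
section

/-!
# B1 (M): linear phases
-/

set_option autoImplicit false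

namespace Pool.Agent.SZW

variable {ι : Type*} [Fintype ι] [DecidableEq ι]

/-- `Finset.prod_univ_sum` -/
theorem sm_aff (a c : ι → ℤ) (γ : ι → ℝ) (γ₀ : ℝ) :
    sm a c (aff γ γ₀) = ee γ₀ * ∏ i, ∑ n ∈ Finset.Ico (a i) (c i), ee (n * γ i) := by
  unfold sm box
  rw [Finset.prod_univ_sum, Finset.mul_sum]
  apply Finset.sum_congr rfl
  intro x _
  unfold aff
  rw [ee_add, ee_sum, mul_comm]

/-- trivial bound for a box with sides at most `P` -/
theorem box_card {a c : ι → ℤ} {P : ℕ} (h : Side a c P) :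
    (box a c).card ≤ P ^ Fintype.card ι := by
  unfold box
  rw [Fintype.card_piFinset]
  calc ∏ i, (Finset.Ico (a i) (c i)).card ≤ ∏ _i : ι, P := by
        apply Finset.prod_le_prod'
        intro i _
        rw [Int.card_Ico]
        have := h i
        omega
    _ = P ^ Fintype.card ι := by rw [Finset.prod_const, Finset.card_univ]

theorem sm_le {a c : ι → ℤ} {P : ℕ} (h : Side a c P) (φ : (ι → ℤ) → ℝ) :
    ‖sm a c φ‖ ≤ (P : ℝ) ^ Fintype.card ι := by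
  unfold sm
  refine (norm_sum_le _ _).trans ?_
  have h1 : ∀ x ∈ box a c, ‖ee (φ x)‖ = 1 := fun x _ => norm_ee _
  rw [Finset.sum_congr rfl h1, Finset.sum_const, nsmul_eq_mul, mul_one]
  exact_mod_cast box_card h

/-- The modulus of the sum is the product of the moduli of the one-dimensional sums; all of them are
at most `P`, so each of them is at least `δ P`; use `geom_bound`. -/
theorem lin_inv {a c : ι → ℤ} {P : ℕ} (hP : 1 ≤ P) (h : Side a c P) {γ : ι → ℝ} {γ₀ δ : ℝ}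
    (hδ : 0 < δ) (hs : δ * (P : ℝ) ^ Fintype.card ι ≤ ‖sm a c (aff γ γ₀)‖) (j : ι) :
    nn (γ j) ≤ 1 / (2 * δ * P) := by
  have hP0 : (0 : ℝ) < P := by exact_mod_cast hP
  rw [sm_aff, norm_mul, norm_ee, one_mul, norm_prod, ← Finset.mul_prod_erase _ _ (Finset.mem_univ j)] at hs
  set S : ℝ := ‖∑ n ∈ Finset.Ico (a j) (c j), ee (n * γ j)‖ with hS
  have h1 : ∏ i ∈ Finset.univ.erase j, ‖∑ n ∈ Finset.Ico (a i) (c i), ee (n * γ i)‖ ≤
      (P : ℝ) ^ (Fintype.card ι - 1) := by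
    calc ∏ i ∈ Finset.univ.erase j, ‖∑ n ∈ Finset.Ico (a i) (c i), ee (n * γ i)‖ ≤
          ∏ _i ∈ Finset.univ.erase j, (P : ℝ) := by
          apply Finset.prod_le_prod
          · intro i _
            exact norm_nonneg _
          · intro i _
            exact geom_le _ _ _ _ (h i)
      _ = (P : ℝ) ^ (Fintype.card ι - 1) := by
          rw [Finset.prod_const, Finset.card_erase_of_mem (Finset.mem_univ j), Finset.card_univ]
  have h2 : δ * (P : ℝ) ^ Fintype.card ι ≤ S * (P : ℝ) ^ (Fintype.card ι - 1) :=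
    hs.trans (mul_le_mul_of_nonneg_left h1 (norm_nonneg _))
  have hd : 1 ≤ Fintype.card ι := Fintype.card_pos_iff.mpr ⟨j⟩
  have h3 : (P : ℝ) ^ Fintype.card ι = P * (P : ℝ) ^ (Fintype.card ι - 1) := by
    rw [← pow_succ']
    congr 1
    omega
  rw [h3, ← mul_assoc] at h2
  have h4 : δ * P ≤ S := le_of_mul_le_mul_right h2 (by positivity)
  have h5 := geom_bound (a j) (c j) (γ j)
  have h6 : δ * P * (2 * nn (γ j)) ≤ 1 :=
    (mul_le_mul_of_nonneg_right h4 (by have := nn_nonneg (γ j); positivity)).trans h5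
  rw [le_div_iff₀ (by positivity)]
  linarith

end Pool.Agent.SZW
end

-- from Lib.SZW.B2
section

/-!
# B2 (M): Weyl differencing on a box
-/

set_option autoImplicit false

namespace Pool.Agent.SZW

variable {ι : Type*} [Fintype ι] [DecidableEq ι]

/-- the intersection of a box and its translate -/
theorem box_inter (a c h : ι → ℤ) :
    ((box a c).filter fun x => x + h ∈ box a c) =
      box (fun i => max (a i) (a i - h i)) (fun i => min (c i) (c i - h i)) := by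
  ext x
  unfold box
  simp only [Finset.mem_filter, Fintype.mem_piFinset, Finset.mem_Ico, Pi.add_apply]
  constructor
  · rintro ⟨h1, h2⟩ i
    have := h1 i
    have := h2 i
    constructor
    · rw [max_le_iff]
      omega
    · rw [lt_min_iff]
      omega
  · intro h1
    constructor
    · intro i
      have := h1 i
      rw [max_le_iff, lt_min_iff] at this
      omega
    · intro i
      have := h1 i
      rw [max_le_iff, lt_min_iff] at this
      omega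

theorem side_inter {a c : ι → ℤ} {P : ℕ} (h : Side a c P) (k : ι → ℤ) :
    Side (fun i => max (a i) (a i - k i)) (fun i => min (c i) (c i - k i)) P := by
  intro i
  have h1 := h i
  have h2 : min (c i) (c i - k i) ≤ c i := min_le_left _ _
  have h3 : a i ≤ max (a i) (a i - k i) := le_max_left _ _
  show min (c i) (c i - k i) - max (a i) (a i - k i) ≤ P
  omega

/-- `‖S‖ ^ 2 = ∑ x y, ee (φ y - φ x)`, and `y = x + h` with `h` in the box with sides from `- P` to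
`P`; for given `h` the `x` are those of `box_inter`. -/
theorem differencing {a c : ι → ℤ} {P : ℕ} (h : Side a c P) (φ : (ι → ℤ) → ℝ) :
    ‖sm a c φ‖ ^ 2 ≤ ∑ k ∈ box (fun _ => -(P : ℤ)) (fun _ => (P : ℤ)),
      ‖sm (fun i => max (a i) (a i - k i)) (fun i => min (c i) (c i - k i))
        (fun x => φ (x + k) - φ x)‖ := by
  set K : Finset (ι → ℤ) := box (fun _ => -(P : ℤ)) (fun _ => (P : ℤ)) with hK
  have hmemK : ∀ x ∈ box a c, ∀ y ∈ box a c, y - x ∈ K := by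
    intro x hx y hy
    rw [hK]
    unfold box at hx hy ⊢
    rw [Fintype.mem_piFinset] at hx hy ⊢
    intro i
    have h1 := hx i
    have h2 := hy i
    have h3 := h i
    rw [Finset.mem_Ico] at h1 h2 ⊢
    rw [Pi.sub_apply]
    show -(P : ℤ) ≤ y i - x i ∧ y i - x i < (P : ℤ)
    omega
  have hinner : ∀ x ∈ box a c, ∑ y ∈ box a c, ee (φ y - φ x) =
      ∑ k ∈ K, if x + k ∈ box a c then ee (φ (x + k) - φ x) else 0 := by
    intro x hx
    rw [← Finset.sum_filter]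
    symm
    refine Finset.sum_nbij' (fun k => x + k) (fun y => y - x) ?_ ?_ ?_ ?_ ?_
    · intro k hk
      exact (Finset.mem_filter.1 hk).2
    · intro y hy
      rw [Finset.mem_filter]
      refine ⟨hmemK x hx y hy, ?_⟩
      rw [add_sub_cancel]
      exact hy
    · intro k _
      show x + k - x = k
      rw [add_sub_cancel_left]
    · intro y _
      show x + (y - x) = y
      rw [add_sub_cancel]
    · intro k _
      rfl
  have hsq : ((‖sm a c φ‖ ^ 2 : ℝ) : ℂ) = ∑ x ∈ box a c, ∑ y ∈ box a c, ee (φ y - φ x) := by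
    have h1 : ((‖sm a c φ‖ ^ 2 : ℝ) : ℂ) = sm a c φ * (starRingEnd ℂ) (sm a c φ) := by
      rw [Complex.mul_conj, Complex.normSq_eq_norm_sq]
    rw [h1]
    unfold sm
    rw [map_sum, Finset.sum_mul_sum, Finset.sum_comm]
    refine Finset.sum_congr rfl (fun x _ => Finset.sum_congr rfl (fun y _ => ?_))
    rw [conj_ee, ← ee_add, sub_eq_add_neg]
  have hfin : ((‖sm a c φ‖ ^ 2 : ℝ) : ℂ) = ∑ k ∈ K,
      sm (fun i => max (a i) (a i - k i)) (fun i => min (c i) (c i - k i))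
        (fun x => φ (x + k) - φ x) := by
    rw [hsq, Finset.sum_congr rfl hinner, Finset.sum_comm]
    refine Finset.sum_congr rfl (fun k _ => ?_)
    unfold sm
    rw [← box_inter, Finset.sum_filter]
  have h2 : ‖((‖sm a c φ‖ ^ 2 : ℝ) : ℂ)‖ = ‖sm a c φ‖ ^ 2 := by
    rw [Complex.norm_real, Real.norm_of_nonneg (by positivity)]
  rw [← h2, hfin]
  exact norm_sum_le _ _

end Pool.Agent.SZW
end

-- from Lib.SZW.B3
section

/-!
# B3 (M): many shifts with a large sum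
-/

set_option autoImplicit false

namespace Pool.Agent.SZW

variable {ι : Type*} [Fintype ι] [DecidableEq ι]

/-- the box of the shifts -/
noncomputable def shifts (ι : Type*) [Fintype ι] [DecidableEq ι] (P : ℕ) : Finset (ι → ℤ) :=
  box (fun _ => -(P : ℤ)) (fun _ => (P : ℤ))

theorem shifts_card (P : ℕ) : (shifts ι P).card = (2 * P) ^ Fintype.card ι := by
  unfold shifts box
  rw [Fintype.card_piFinset]
  have h1 : ∀ i : ι, (Finset.Ico (-(P : ℤ)) (P : ℤ)).card = 2 * P := by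
    intro _
    rw [Int.card_Ico]
    omega
  rw [Finset.prod_congr rfl (fun i _ => h1 i), Finset.prod_const, Finset.card_univ]

/-- Averaging: if `∑ T ≥ δ ^ 2 P ^ (2 d)`, `T ≤ P ^ d` and there are `(2 P) ^ d` shifts, then
`T ≥ δ ^ 2 P ^ d / 2 ^ (d + 1)` for at least `δ ^ 2 P ^ d / 2` shifts. (The sum over the other shifts is
at most `δ ^ 2 P ^ (2 d) / 2`.) -/
theorem popular {a c : ι → ℤ} {P : ℕ} (hP : 1 ≤ P) (h : Side a c P) {φ : (ι → ℤ) → ℝ} {δ : ℝ}
    (hδ : 0 < δ) (hs : δ * (P : ℝ) ^ Fintype.card ι ≤ ‖sm a c φ‖) :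
    δ ^ 2 / 2 * (P : ℝ) ^ Fintype.card ι ≤ (((shifts ι P).filter fun k =>
      δ ^ 2 / 2 ^ (Fintype.card ι + 1) * (P : ℝ) ^ Fintype.card ι ≤
      ‖sm (fun i => max (a i) (a i - k i)) (fun i => min (c i) (c i - k i))
        (fun x => φ (x + k) - φ x)‖).card : ℝ) := by
  classical
  set d : ℕ := Fintype.card ι with hd
  set T : (ι → ℤ) → ℝ := fun k => ‖sm (fun i => max (a i) (a i - k i))
    (fun i => min (c i) (c i - k i)) (fun x => φ (x + k) - φ x)‖ with hT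
  have hP0 : (0 : ℝ) < (P : ℝ) ^ d := by
    have : (0 : ℝ) < P := by exact_mod_cast hP
    positivity
  set θ : ℝ := δ ^ 2 / 2 ^ (d + 1) * (P : ℝ) ^ d with hθ
  have hθ0 : 0 ≤ θ := by positivity
  show δ ^ 2 / 2 * (P : ℝ) ^ d ≤ (((shifts ι P).filter fun k => θ ≤ T k).card : ℝ)
  have h1 : ‖sm a c φ‖ ^ 2 ≤ ∑ k ∈ shifts ι P, T k := differencing h φ
  have h2 : (δ * (P : ℝ) ^ d) ^ 2 ≤ ‖sm a c φ‖ ^ 2 := pow_le_pow_left₀ (by positivity) hs 2
  have h3 : ∑ k ∈ shifts ι P, T k =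
      ∑ k ∈ (shifts ι P).filter (fun k => θ ≤ T k), T k +
        ∑ k ∈ (shifts ι P).filter (fun k => ¬ θ ≤ T k), T k :=
    (Finset.sum_filter_add_sum_filter_not _ _ _).symm
  have h4 : ∑ k ∈ (shifts ι P).filter (fun k => θ ≤ T k), T k ≤
      (((shifts ι P).filter fun k => θ ≤ T k).card : ℝ) * (P : ℝ) ^ d := by
    rw [← nsmul_eq_mul, ← Finset.sum_const]
    refine Finset.sum_le_sum (fun k _ => ?_)
    exact sm_le (side_inter h k) _
  have h5 : ∑ k ∈ (shifts ι P).filter (fun k => ¬ θ ≤ T k), T k ≤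
      (2 * (P : ℝ)) ^ d * θ := by
    calc ∑ k ∈ (shifts ι P).filter (fun k => ¬ θ ≤ T k), T k
        ≤ ∑ _k ∈ (shifts ι P).filter (fun k => ¬ θ ≤ T k), θ := by
          refine Finset.sum_le_sum (fun k hk => ?_)
          have := (Finset.mem_filter.1 hk).2
          exact (not_le.1 this).le
      _ = (((shifts ι P).filter (fun k => ¬ θ ≤ T k)).card : ℝ) * θ := by
          rw [Finset.sum_const, nsmul_eq_mul]
      _ ≤ (2 * (P : ℝ)) ^ d * θ := by
          refine mul_le_mul_of_nonneg_right ?_ hθ0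
          have h6 := Finset.card_filter_le (shifts ι P) (fun k => ¬ θ ≤ T k)
          rw [shifts_card, ← hd] at h6
          exact_mod_cast h6
  have h7 : (2 * (P : ℝ)) ^ d * θ = δ ^ 2 / 2 * ((P : ℝ) ^ d) ^ 2 := by
    have e0 : (2 : ℝ) ^ (d + 1) = 2 ^ d * 2 := pow_succ 2 d
    rw [hθ, e0, mul_pow]
    field_simp
  have h8 : δ ^ 2 / 2 * (P : ℝ) ^ d * (P : ℝ) ^ d ≤
      (((shifts ι P).filter fun k => θ ≤ T k).card : ℝ) * (P : ℝ) ^ d := by
    have e1 : (δ * (P : ℝ) ^ d) ^ 2 = δ ^ 2 * ((P : ℝ) ^ d) ^ 2 := by ring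
    have e2 : δ ^ 2 / 2 * (P : ℝ) ^ d * (P : ℝ) ^ d = δ ^ 2 / 2 * ((P : ℝ) ^ d) ^ 2 := by ring
    rw [e2]
    rw [h7] at h5
    rw [e1] at h2
    linarith
  exact le_of_mul_le_mul_right h8 hP0

end Pool.Agent.SZW
end

-- from Lib.SZW.B4
section

/-!
# B4 (M): a line with many points of a dense set
-/

set_option autoImplicit false

namespace Pool.Agent.SZW

variable {ι : Type*} [Fintype ι] [DecidableEq ι]

/-- Count the pairs `(h₀, n)` with `n < P` and `h₀ + n u ∈ H`, for `h₀` in the box with sides from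
`- (1 + U) P` to `(1 + U) P`: for every `n` there are `|H|` of them (translates of points of `H`), so
some `h₀` has at least `P |H| / ((2 + 2 U) P) ^ d` numbers `n`. -/
theorem exists_line {P U : ℕ} (hP : 1 ≤ P) {u : ι → ℤ} (hu : ∀ i, |u i| ≤ U)
    {H : Finset (ι → ℤ)} (hH : H ⊆ shifts ι P) {ρ : ℝ}
    (hρ : ρ * (P : ℝ) ^ Fintype.card ι ≤ H.card) :
    ∃ h₀ : ι → ℤ, ρ / (2 + 2 * U) ^ Fintype.card ι * P ≤
      (((Finset.range P).filter fun n : ℕ => h₀ + (n : ℤ) • u ∈ H).card : ℝ) := by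
  classical
  set B : Finset (ι → ℤ) := box (fun _ => -((1 + (U : ℤ)) * P)) (fun _ => (1 + (U : ℤ)) * P) with hB
  have hcard : B.card = ((2 + 2 * U) * P) ^ Fintype.card ι := by
    rw [hB, box, Fintype.card_piFinset, Finset.prod_const, Finset.card_univ]
    congr 1
    rw [Int.card_Ico]
    have : (1 + (U : ℤ)) * P - -((1 + (U : ℤ)) * P) = (((2 + 2 * U) * P : ℕ) : ℤ) := by push_cast; ring
    rw [this, Int.toNat_natCast]
  have hBne : B.Nonempty := by
    rw [← Finset.card_pos, hcard]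
    positivity
  have hslice : ∀ n ∈ Finset.range P, (B.filter fun h₀ => h₀ + (n : ℤ) • u ∈ H).card = H.card := by
    intro n hn
    rw [Finset.mem_range] at hn
    have : (B.filter fun h₀ => h₀ + (n : ℤ) • u ∈ H) = H.image (fun h => h - (n : ℤ) • u) := by
      ext x
      rw [Finset.mem_filter, Finset.mem_image]
      constructor
      · rintro ⟨-, h⟩
        exact ⟨_, h, add_sub_cancel_right _ _⟩
      · rintro ⟨h, hh, rfl⟩
        refine ⟨?_, by rwa [sub_add_cancel]⟩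
        have h1 := hH hh
        rw [shifts, box, Fintype.mem_piFinset] at h1
        rw [hB, box, Fintype.mem_piFinset]
        intro i
        have h2 := Finset.mem_Ico.1 (h1 i)
        have h3 := abs_le.1 (hu i)
        rw [Finset.mem_Ico, Pi.sub_apply, Pi.smul_apply, smul_eq_mul]
        have hn' : (n : ℤ) ≤ P := by exact_mod_cast hn.le
        have hn0 : (0 : ℤ) ≤ n := by positivity
        have h4 : (n : ℤ) * u i ≤ P * U := by
          calc (n : ℤ) * u i ≤ n * U := mul_le_mul_of_nonneg_left h3.2 hn0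
            _ ≤ P * U := mul_le_mul_of_nonneg_right hn' (by positivity)
        have h5 : -((P : ℤ) * U) ≤ (n : ℤ) * u i := by
          have h6 : (n : ℤ) * (-U) ≤ n * u i := mul_le_mul_of_nonneg_left h3.1 hn0
          have h7 : (n : ℤ) * U ≤ P * U := mul_le_mul_of_nonneg_right hn' (by positivity)
          linarith
        constructor <;> nlinarith [h2.1, h2.2]
    rw [this, Finset.card_image_of_injective _ (sub_left_injective)]
  have hsum : ∑ h₀ ∈ B, (((Finset.range P).filter fun n : ℕ => h₀ + (n : ℤ) • u ∈ H).card : ℝ) = P * H.card := by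
    have h1 : ∑ h₀ ∈ B, ((Finset.range P).filter fun n : ℕ => h₀ + (n : ℤ) • u ∈ H).card = P * H.card := by
      simp only [Finset.card_filter]
      rw [Finset.sum_comm]
      simp only [← Finset.card_filter]
      rw [Finset.sum_congr rfl hslice, Finset.sum_const, Finset.card_range, smul_eq_mul]
    exact_mod_cast h1
  have hP0 : (0 : ℝ) < P := by exact_mod_cast hP
  obtain ⟨h₀, -, h⟩ := Finset.exists_le_of_sum_le (f := fun _ => ρ / (2 + 2 * U) ^ Fintype.card ι * (P : ℝ)) hBne (by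
    rw [hsum, Finset.sum_const, hcard, nsmul_eq_mul]
    have h1 : (0 : ℝ) < (2 + 2 * U) ^ Fintype.card ι := by positivity
    have h2 : (((((2 + 2 * U) * P) ^ Fintype.card ι : ℕ)) : ℝ) * (ρ / (2 + 2 * U) ^ Fintype.card ι * P) = P * (ρ * (P : ℝ) ^ Fintype.card ι) := by
      push_cast
      rw [mul_pow]
      field_simp
    rw [h2]
    exact mul_le_mul_of_nonneg_left hρ hP0.le)
  exact ⟨h₀, h⟩

end Pool.Agent.SZW
end

-- from Lib.H3B.A2
section

/-! # H3B (MP_443e5f, candidate T, module B), chunk A2 -/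

namespace Pool.Agent.H3B

open Finset
open Pool.Agent.H44W (ee TF cut)

/-- Chunk A2a (S/M). The sum over the residue classes modulo m. PROOF. `Int.divModEquiv` (or: both sides are finite sums; the map (r, v) ↦ r + m v from range m × ℤ to ℤ is a
bijection, inverse y ↦ (y mod m, y / m)). Summability: everything has finite support (Sp). -/
theorem tsum_res {N : ℕ} {u : ℤ → ℂ} (h : Sp N u) {m : ℕ} (hm : 0 < m) :
    ∑' y, u y = ∑ r ∈ range m, ∑' v : ℤ, u (r + m * v) := by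
  have hne : NeZero m := ⟨hm.ne'⟩
  have e1 : ∑' y, u y = ∑' p : Fin m × ℤ, u (((Int.divModEquiv m).symm.trans (Equiv.refl ℤ)) (p.2, p.1)) := by
    rw [← Equiv.tsum_eq ((Equiv.prodComm (Fin m) ℤ).trans (Int.divModEquiv m).symm)]
    rfl
  have hs : Summable fun p : Fin m × ℤ => u (((Int.divModEquiv m).symm.trans (Equiv.refl ℤ)) (p.2, p.1)) := by
    have h1 := (Equiv.summable_iff ((Equiv.prodComm (Fin m) ℤ).trans (Int.divModEquiv m).symm)).2 h.summable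
    exact h1
  rw [e1, hs.tsum_prod, tsum_fintype, Finset.sum_range]
  refine Finset.sum_congr rfl fun r _ => tsum_congr fun v => ?_
  congr 1
  simp only [Int.divModEquiv, Equiv.trans_apply, Equiv.refl_apply, Equiv.coe_fn_symm_mk]
  ring

/-- the sum over a range as a sum over `ZMod m` -/
theorem a2_range (m : ℕ) [NeZero m] (F : ZMod m → ℝ) : ∑ r ∈ range m, F (r : ZMod m) = ∑ x, F x := by
  refine Finset.sum_bij' (fun (j : ℕ) _ => (j : ZMod m)) (fun (z : ZMod m) _ => z.val)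
    (fun _ _ => mem_univ _) (fun z _ => mem_range.2 (ZMod.val_lt z)) (fun j hj => ?_)
    (fun z _ => ZMod.natCast_zmod_val z) (fun _ _ => rfl)
  rw [ZMod.val_natCast, Nat.mod_eq_of_lt (mem_range.1 hj)]

/-- the inner sum depends on the residue class only -/
theorem a2_class (m : ℕ) [NeZero m] (u : ℤ → ℂ) (s : ℤ) :
    ‖∑' v : ℤ, u (s + m * v)‖ ^ 2 = ‖∑' v : ℤ, u (((s : ZMod m).val : ℤ) + m * v)‖ ^ 2 := by
  have e1 : ((s : ZMod m).val : ℤ) = s % m := by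
    rw [ZMod.val_intCast]
  have e2 : ∑' v : ℤ, u (s + m * v) = ∑' v : ℤ, u (s % m + m * v) := by
    rw [← Equiv.tsum_eq (Equiv.addRight (s / m)) (fun v => u (s % m + m * v))]
    refine tsum_congr fun v => ?_
    congr 1
    simp only [Equiv.coe_addRight]
    have := Int.emod_add_mul_ediv s m
    linear_combination -this
  rw [e1, e2]

theorem a2_E (m : ℕ) [NeZero m] (u : ℤ → ℂ) (t : ℤ) : E m (fun y => u (y + t)) =
    ∑ x : ZMod m, ‖∑' v : ℤ, u (((x + (t : ZMod m)).val : ℤ) + m * v)‖ ^ 2 := by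
  rw [← a2_range]
  unfold E
  refine Finset.sum_congr rfl fun r _ => ?_
  have e1 : ((r : ZMod m) + (t : ZMod m)) = (((r : ℤ) + t : ℤ) : ZMod m) := by push_cast; rfl
  rw [e1, ← a2_class]
  have e2 : ∀ v : ℤ, (r : ℤ) + m * v + t = (r : ℤ) + t + m * v := fun v => by ring
  simp only [e2]

/-- Chunk A2b (S/M). `E` does not change under translation. PROOF. It suffices to treat t = 1 and t = -1, or: r + t = r' + m s with r' = (r + t) mod m; r ↦ r' is a permutation of range m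
and ∑' v, u (r + t + m v) = ∑' v, u (r' + m (v + s)) = ∑' v, u (r' + m v) (Equiv.addRight, tsum_eq). No support condition is needed. -/
theorem E_shift (m : ℕ) (u : ℤ → ℂ) (t : ℤ) : E m (fun y => u (y + t)) = E m u := by
  rcases Nat.eq_zero_or_pos m with hm | hm
  · subst hm
    simp [E]
  have hne : NeZero m := ⟨hm.ne'⟩
  have h0 : E m u = ∑ x : ZMod m, ‖∑' v : ℤ, u ((x.val : ℤ) + m * v)‖ ^ 2 := by
    have h1 := a2_E m u 0
    simpa using h1
  rw [a2_E, h0]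
  exact Equiv.sum_comp (Equiv.addRight (t : ZMod m)) (fun x : ZMod m => ‖∑' v : ℤ, u ((x.val : ℤ) + m * v)‖ ^ 2)

/-- Chunk A2c (S). -/
theorem E_conj (m : ℕ) (u : ℤ → ℂ) : E m (fun y => (starRingEnd ℂ) (u y)) = E m u := by
  unfold E
  refine Finset.sum_congr rfl fun r _ => ?_
  rw [← Complex.conj_tsum, RCLike.norm_conj]

/-- Chunk A2d (S). -/
theorem E_const (m : ℕ) (u : ℤ → ℂ) {c : ℂ} (hc : ‖c‖ = 1) : E m (fun y => c * u y) = E m u := by
  unfold E
  refine Finset.sum_congr rfl fun r _ => ?_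
  rw [tsum_mul_left, norm_mul, hc, one_mul]

end Pool.Agent.H3B
end

-- from Lib.H68T.FINP
section

/-!
# Chunk FIN, part 1: choice of the parameters
-/

open Finset Filter Real

namespace Pool.Agent.Lib.H68T


theorem ev_log (C r : ℝ) (h : 0 < r) : ∀ᶠ L : ℝ in atTop, C * Real.log L ≤ L ^ r := by
  have h1 := (isLittleO_log_rpow_atTop h).bound (c := (|C| + 1)⁻¹) (by positivity)
  filter_upwards [h1, eventually_ge_atTop (1:ℝ)] with L hL hL1
  have hL0 : 0 < L := by linarith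
  rw [Real.norm_of_nonneg (Real.log_nonneg hL1), Real.norm_of_nonneg (rpow_nonneg hL0.le _)] at hL
  have hlog := Real.log_nonneg hL1
  have hC : C ≤ |C| + 1 := by linarith [le_abs_self C]
  calc C * Real.log L ≤ (|C| + 1) * Real.log L := mul_le_mul_of_nonneg_right hC hlog
    _ ≤ (|C| + 1) * ((|C| + 1)⁻¹ * L ^ r) := mul_le_mul_of_nonneg_left hL (by positivity)
    _ = L ^ r := by
        rw [← mul_assoc, mul_inv_cancel₀ (by positivity), one_mul]



end Pool.Agent.Lib.H68T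
end
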