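import Pool.Agent.Lib.H1M.RV2.M016
import Pool.Agent.Lib.H1M.RV2.M018

/-!
# Project H96G, chunk E2 (M): transfer to the Goldbach graphs
-/

open Finset

namespace Pool.Agent.Lib.H96G

open Pool.Agent.Goldbach
open Pool.Agent.Lib.GoldbachGraph (hadj hdeg)
open Pool.Agent.Lib.H96G.Tr (finite_of_le deg_le le_deg)

section

variable {V S : Set ℕ} {lo n : ℕ}

/-- walks of the halved graph give walks of the Goldbach graph -/
theorem e2_walk (hV2 : ∀ x ∈ Finset.Icc lo n, 2 * x ∈ V)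
    (hS : ∀ m, m.Prime → Odd m → m < 2 * n → m ∈ S) {x y : ℕ} (p : (HL lo n).Walk x y) :
    ∀ (hx : x ∈ Finset.Icc lo n), ∃ hy : y ∈ Finset.Icc lo n,
    ∃ q : (halfGraph V S).Walk ⟨2 * x, hV2 x hx⟩ ⟨2 * y, hV2 y hy⟩, q.length = p.length := by
  induction p with
  | nil => exact fun hx => ⟨hx, .nil, rfl⟩
  | @cons u v w h p ih =>
    intro hx
    have h' : hadj u v ∧ u ∈ Finset.Icc lo n ∧ v ∈ Finset.Icc lo n := h
    obtain ⟨hadj1, h1, h2⟩ := h'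
    obtain ⟨hy, q, hq⟩ := ih h2
    refine ⟨hy, .cons ?_ q, ?_⟩
    · rw [halfGraph_adj_iff (x := u) (y := v) rfl rfl]
      obtain ⟨a1, a2, a3, a4⟩ := hadj1
      rw [Finset.mem_Icc] at h1 h2
      have hne : u ≠ v := by
        rintro rfl
        rw [Nat.dist_self] at a3
        exact Nat.not_prime_zero a3
      have hd : ((u : ℤ) - v).natAbs = Nat.dist u v := by
        unfold Nat.dist
        omega
      obtain ⟨k, hk⟩ := a2
      refine ⟨hne, hS _ a1 ⟨k, hk⟩ (by omega), ?_⟩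
      rw [hd]
      refine hS _ a3 a4 ?_
      unfold Nat.dist
      omega
    · rw [SimpleGraph.Walk.length_cons, SimpleGraph.Walk.length_cons, hq]

/-- Proof. As `H18GB.edist_transfer` (`Lib/H18GB/Transfer.lean`, with `walk_map`), with `HL lo n` and `Icc lo n` instead of
`HG n` and `Icc 1 n`. (An edge `hadj x y` with `x, y ≤ n`: the two primes are `< 2 n`: `x + y = 2n` is even or not
prime; `|x - y| ≤ n`, and `< 2 n` as `n ≥ 1`.) -/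
theorem E2_edist (hV2 : ∀ x ∈ Finset.Icc lo n, 2 * x ∈ V)
    (hS : ∀ m, m.Prime → Odd m → m < 2 * n → m ∈ S) {x y : ℕ} (hx : x ∈ Finset.Icc lo n)
    (hy : y ∈ Finset.Icc lo n) {k : ℕ} (h : (HL lo n).edist x y ≤ k) :
    (halfGraph V S).edist ⟨2 * x, hV2 x hx⟩ ⟨2 * y, hV2 y hy⟩ ≤ k := by
  have hr : (HL lo n).Reachable x y := by
    apply SimpleGraph.reachable_of_edist_ne_top
    intro h0
    rw [h0] at h
    exact absurd h (by simp)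
  obtain ⟨p, hp⟩ := hr.exists_walk_length_eq_edist
  obtain ⟨hy', q, hq⟩ := e2_walk hV2 hS p hx
  refine (SimpleGraph.edist_le q).trans ?_
  rw [hq, hp]
  exact h

/-- The conclusion for a graph on a set `V` of even numbers: with `δ > 0`, all but `n^(1-δ)` vertices are pairwise at
distance at most `5` (`4` if they are congruent modulo `4`, `3` if they differ modulo `4` and exactly one is divisible by
`3`) and have degree at least `n^(1-2δ)`; any two vertices of degree at least `n^(1-2δ)` are at distance at most `7`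
(`6` if they are congruent modulo `4`; `5` if they differ modulo `4` and exactly one is divisible by `3`; `4` if they are
congruent modulo `4` and both or none are divisible by `3`). -/
def Fin5 (n : ℕ) (δ : ℝ) {V : Set ℕ} (G : SimpleGraph V) : Prop :=
  (∃ Γ : Set V, (Γᶜ.ncard : ℝ) ≤ (n : ℝ) ^ (1 - δ) ∧
    (∀ a ∈ Γ, (n : ℝ) ^ (1 - 2 * δ) ≤ ((G.neighborSet a).ncard : ℝ)) ∧
    ∀ a ∈ Γ, ∀ b ∈ Γ, G.edist a b ≤ 5 ∧ ((a : ℕ) % 4 = b % 4 → G.edist a b ≤ 4) ∧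
      ((a : ℕ) % 4 ≠ b % 4 → (3 ∣ (a : ℕ) ↔ ¬ 3 ∣ (b : ℕ)) → G.edist a b ≤ 3)) ∧
  ∀ a b : V, (n : ℝ) ^ (1 - 2 * δ) ≤ ((G.neighborSet a).ncard : ℝ) →
    (n : ℝ) ^ (1 - 2 * δ) ≤ ((G.neighborSet b).ncard : ℝ) →
    G.edist a b ≤ 7 ∧ ((a : ℕ) % 4 = b % 4 → G.edist a b ≤ 6) ∧
      ((a : ℕ) % 4 ≠ b % 4 → (3 ∣ (a : ℕ) ↔ ¬ 3 ∣ (b : ℕ)) → G.edist a b ≤ 5) ∧
      ((a : ℕ) % 4 = b % 4 → (3 ∣ (a : ℕ) ↔ 3 ∣ (b : ℕ)) → G.edist a b ≤ 4)

theorem e2_half (hV : ∀ a ∈ V, Even a ∧ a ≤ 2 * n) (hV' : ∀ a ∈ V, 2 * lo ≤ a)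
    (hV2 : ∀ x ∈ Finset.Icc lo n, 2 * x ∈ V) (a : V) :
    ∃ x : ℕ, ∃ hx : x ∈ Finset.Icc lo n, a = ⟨2 * x, hV2 x hx⟩ := by
  obtain ⟨a, ha⟩ := a
  obtain ⟨⟨k, hk⟩, h2⟩ := hV a ha
  have h3 := hV' a ha
  refine ⟨k, ?_, ?_⟩
  · rw [mem_Icc]
    omega
  · apply Subtype.ext
    change a = 2 * k
    omega

theorem e2_compl {Γ : Finset ℕ} (hΓ : Γ ⊆ Icc 1 n) (hV : ∀ a ∈ V, Even a ∧ a ≤ 2 * n) :
    (({a : V | (a : ℕ) / 2 ∈ Γ}ᶜ.ncard : ℕ) : ℝ) ≤ (n : ℝ) - Γ.card + 1 := by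
  have : Finite V := finite_of_le hV
  have h1 : {a : V | (a : ℕ) / 2 ∈ Γ}ᶜ.ncard ≤ (insert 0 (Icc 1 n \ Γ)).card := by
    rw [← Set.ncard_coe_finset]
    apply Set.ncard_le_ncard_of_injOn (fun a : V => (a : ℕ) / 2)
    · rintro ⟨a, ha⟩ h
      obtain ⟨h2, h3⟩ := hV a ha
      have h4 : a / 2 ∉ Γ := h
      rw [Finset.mem_coe, mem_insert, mem_sdiff, mem_Icc]
      change a / 2 = 0 ∨ (1 ≤ a / 2 ∧ a / 2 ≤ n) ∧ a / 2 ∉ Γ
      by_cases h5 : a / 2 = 0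
      · exact Or.inl h5
      · exact Or.inr ⟨by omega, h4⟩
    · rintro ⟨a, ha⟩ - ⟨a', ha'⟩ - haa
      obtain ⟨k, hk⟩ := (hV a ha).1
      obtain ⟨l, hl⟩ := (hV a' ha').1
      simp only at haa
      apply Subtype.ext
      change a = a'
      omega
  have h2 : (insert 0 (Icc 1 n \ Γ)).card ≤ (n - Γ.card) + 1 := by
    refine (card_insert_le _ _).trans ?_
    rw [card_sdiff_of_subset hΓ, Nat.card_Icc]
    omega
  have h3 : Γ.card ≤ n := by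
    have := card_le_card hΓ
    rw [Nat.card_Icc] at this
    omega
  have h4 : {a : V | (a : ℕ) / 2 ∈ Γ}ᶜ.ncard + Γ.card ≤ n + 1 := by omega
  have h5 : (({a : V | (a : ℕ) / 2 ∈ Γ}ᶜ.ncard : ℕ) : ℝ) + Γ.card ≤ n + 1 := by exact_mod_cast h4
  linarith

/-- **E2.** Proof. `δ = B/11`. `Γ' = {a : V | a/2 ∈ Γ}`; its complement in `V` injects (by `a ↦ a/2`) into
`Icc 1 n \ Γ` and `{0}`: at most `n^(1-B/10) + 1 ≤ n^(1-B/11)`. Degrees: `le_deg` (for `x ∈ Γ ⊆ Icc 1 n`; `hV2` restricted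
to `Icc 1 n`) and `1 - 2B/11 ≤ 1 - 17B/100`. Distances: `E2_edist`; for `a = 2x`, `b = 2y`: `a % 4 = b % 4` iff
`x % 2 = y % 2`, and `3 ∣ 2x` iff `3 ∣ x`. Rich vertices: `deg_le`: `hdeg n x ≥ n^(1-2B/11) - 4 ≥ n^(1-B/5)`
(`Nm.cst`). `a ∈ V` is `2 x` with `x ∈ Icc lo n` (`hV'`). -/
theorem E2 (hn : 1 ≤ n) (hlo : lo ≤ 1) {B b : ℝ} (hN : Nm n b) (hb : 100 * b ≤ B) (hB : B ≤ 1)
    (h : GOut lo n B) (hV : ∀ a ∈ V, Even a ∧ a ≤ 2 * n) (hV' : ∀ a ∈ V, 2 * lo ≤ a)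
    (hV2 : ∀ x ∈ Finset.Icc lo n, 2 * x ∈ V) (hS : ∀ m, m.Prime → Odd m → m < 2 * n → m ∈ S)
    (hS' : ∀ m ∈ S, m = 1 ∨ (m.Prime ∧ Odd m)) : Fin5 n (B / 11) (halfGraph V S) := by
  obtain ⟨⟨Γ, hΓ1, hΓ2, hΓ3, hΓ4⟩, hR⟩ := h
  have hb0 := hN.b_pos
  have hV1 : ∀ x ∈ Finset.Icc 1 n, 2 * x ∈ V := by
    intro x hx
    apply hV2
    rw [mem_Icc] at hx ⊢
    omega
  have hlo' : ∀ x ∈ Γ, x ∈ Finset.Icc lo n := by
    intro x hx
    have := hΓ1 hx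
    rw [mem_Icc] at this ⊢
    omega
  refine ⟨⟨{a : V | (a : ℕ) / 2 ∈ Γ}, ?_, ?_, ?_⟩, ?_⟩
  · refine (e2_compl hΓ1 hV).trans ?_
    have h1 : 2 * (n : ℝ) ^ (1 - B / 10) ≤ (n : ℝ) ^ (1 - B / 11) := hN.cst (by norm_num) (by linarith)
    have h2 : (1 : ℝ) ≤ (n : ℝ) ^ (1 - B / 10) := Real.one_le_rpow hN.one_le (by linarith)
    linarith
  · intro a ha
    obtain ⟨x, hx, rfl⟩ := e2_half hV hV' hV2 a
    have hx' : x ∈ Γ := by
      have h1 : 2 * x / 2 ∈ Γ := ha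
      rwa [Nat.mul_div_cancel_left _ (by norm_num : 0 < 2)] at h1
    have h2 := le_deg hV hV1 hS x (hΓ1 hx') (hV2 x hx)
    have h3 : (hdeg n x : ℝ) ≤ (((halfGraph V S).neighborSet ⟨2 * x, hV2 x hx⟩).ncard : ℝ) := by exact_mod_cast h2
    have h4 : (n : ℝ) ^ (1 - 2 * (B / 11)) ≤ (n : ℝ) ^ (1 - 17 * B / 100) := hN.mono (by linarith)
    exact (h4.trans (hΓ3 x hx')).trans h3
  · intro a ha b hb'
    obtain ⟨x, hx, rfl⟩ := e2_half hV hV' hV2 a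
    obtain ⟨y, hy, rfl⟩ := e2_half hV hV' hV2 b
    have hx' : x ∈ Γ := by
      have h1 : 2 * x / 2 ∈ Γ := ha
      rwa [Nat.mul_div_cancel_left _ (by norm_num : 0 < 2)] at h1
    have hy' : y ∈ Γ := by
      have h1 : 2 * y / 2 ∈ Γ := hb'
      rwa [Nat.mul_div_cancel_left _ (by norm_num : 0 < 2)] at h1
    obtain ⟨h1, h2, h3⟩ := hΓ4 x hx' y hy'
    refine ⟨E2_edist hV2 hS hx hy h1, ?_, ?_⟩
    · intro h4
      refine E2_edist hV2 hS hx hy (h2 ?_)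
      simp only at h4
      omega
    · intro h4 h5
      refine E2_edist hV2 hS hx hy (h3 ?_)
      simp only at h4 h5
      unfold OT
      omega
  · intro a b' ha hb'
    obtain ⟨x, hx, rfl⟩ := e2_half hV hV' hV2 a
    obtain ⟨y, hy, rfl⟩ := e2_half hV hV' hV2 b'
    have hrich : ∀ z : ℕ, ∀ hz : z ∈ Finset.Icc lo n,
        (n : ℝ) ^ (1 - 2 * (B / 11)) ≤ (((halfGraph V S).neighborSet ⟨2 * z, hV2 z hz⟩).ncard : ℝ) →
        (n : ℝ) ^ (1 - B / 5) ≤ hdeg n z := by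
      intro z hz hzd
      have h1 := deg_le hV hS' z (hV2 z hz)
      have h2 : (((halfGraph V S).neighborSet ⟨2 * z, hV2 z hz⟩).ncard : ℝ) ≤ hdeg n z + 4 := by exact_mod_cast h1
      have h3 : 5 * (n : ℝ) ^ (1 - B / 5) ≤ (n : ℝ) ^ (1 - 2 * (B / 11)) := hN.cst (by norm_num) (by linarith)
      have h4 : (1 : ℝ) ≤ (n : ℝ) ^ (1 - B / 5) := Real.one_le_rpow hN.one_le (by linarith)
      linarith
    obtain ⟨h1, h2, h3, h4⟩ := hR x hx y hy (hrich x hx ha) (hrich y hy hb')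
    refine ⟨E2_edist hV2 hS hx hy h1, ?_, ?_, ?_⟩
    · intro h5
      refine E2_edist hV2 hS hx hy (h2 ?_)
      simp only at h5
      omega
    · intro h5 h6
      refine E2_edist hV2 hS hx hy (h3 ?_)
      simp only at h5 h6
      unfold OT
      omega
    · intro h5 h6
      refine E2_edist hV2 hS hx hy (h4 ?_)
      simp only at h5 h6
      unfold ST
      omega

end

end Pool.Agent.Lib.H96G
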