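import Mathlib
import Pool.Agent.Lib.H1M.RV2.D_Goldbach_Defs

/-! Merged copies (to shorten the build) of Lib.Goldbach.Lower, Lib.Goldbach.Count, Lib.H18GB2.DD, Lib.H18GB2.DistL, Lib.H18GB2.Sharp. -/

-- from Lib.Goldbach.Lower
section

/-!
# Pairs of vertices at distance at least five
-/

namespace Pool.Agent.Goldbach


lemma exists_half {V : Set ℕ} (hV : ∀ a ∈ V, Even a) (a : V) : ∃ x : ℕ, (a : ℕ) = 2 * x := by
  obtain ⟨r, hr⟩ := hV a a.2
  exact ⟨r, by omega⟩

/-- All neighbours of a good vertex are multiples of three. -/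
lemma three_dvd_of_adj_good {V S : Set ℕ} (hS3 : ∀ m ∈ S, 3 ∣ m → m = 3) {a u : V} {x t : ℕ}
    (ha : (a : ℕ) = 2 * x) (hu : (u : ℕ) = 2 * t) (hx : ¬ 3 ∣ x) (hx4 : 4 ≤ x)
    (hx1 : 2 * x + 3 ∉ S) (hx2 : 2 * x - 3 ∉ S)
    (h : (halfGraph V S).Adj a u) : 3 ∣ t := by
  rw [halfGraph_adj_iff ha hu] at h
  obtain ⟨hne, hs, hd⟩ := h
  by_contra ht
  have hcase : 3 ∣ x + t ∨ 3 ∣ ((x : ℤ) - t).natAbs := by
    have hx' : x % 3 = 1 ∨ x % 3 = 2 := by omega
    have ht' : t % 3 = 1 ∨ t % 3 = 2 := by omega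
    rcases le_total x t with hle | hle
    · have h6 : ((x : ℤ) - t).natAbs = t - x := by omega
      rw [h6]
      rcases hx' with hx' | hx' <;> rcases ht' with ht' | ht' <;>
        first | (left; omega) | (right; omega)
    · have h6 : ((x : ℤ) - t).natAbs = x - t := by omega
      rw [h6]
      rcases hx' with hx' | hx' <;> rcases ht' with ht' | ht' <;>
        first | (left; omega) | (right; omega)
  rcases hcase with h3 | h3
  · have := hS3 _ hs h3
    omega
  · have h4 := hS3 _ hd h3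
    rcases Nat.lt_or_gt_of_ne hne with h5 | h5
    · have : t = x + 3 := by omega
      rw [this] at hs
      apply hx1
      have h6 : 2 * x + 3 = x + (x + 3) := by ring
      rwa [h6]
    · have : t = x - 3 := by omega
      rw [this] at hs
      apply hx2
      have h6 : 2 * x - 3 = x + (x - 3) := by omega
      rwa [h6]

theorem five_le_of_good {V S : Set ℕ} (hV : ∀ a ∈ V, Even a) (hS1 : ∀ m ∈ S, Odd m)
    (hS3 : ∀ m ∈ S, 3 ∣ m → m = 3) {a b : V} {x y : ℕ} (ha : (a : ℕ) = 2 * x)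
    (hb : (b : ℕ) = 2 * y) (hx : ¬ 3 ∣ x) (hx4 : 4 ≤ x) (hx1 : 2 * x + 3 ∉ S)
    (hx2 : 2 * x - 3 ∉ S) (hx0 : 0 ∈ V → x ∉ S) (hy : ¬ 3 ∣ y) (hy4 : 4 ≤ y)
    (hy1 : 2 * y + 3 ∉ S) (hy2 : 2 * y - 3 ∉ S) (hy0 : 0 ∈ V → y ∉ S) (hxy : Odd (x + y)) :
    5 ≤ (halfGraph V S).edist a b := by
  apply five_le_edist
  · intro w
    have hc : ∀ u v : V, (halfGraph V S).Adj u v → Odd ((u : ℕ) / 2 + (v : ℕ) / 2) := by
      intro u v huv
      obtain ⟨s, hs⟩ := exists_half hV u
      obtain ⟨t, ht⟩ := exists_half hV v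
      rw [halfGraph_adj_iff hs ht] at huv
      have := hS1 _ huv.2.1
      have h1 : (u : ℕ) / 2 = s := by omega
      have h2 : (v : ℕ) / 2 = t := by omega
      rwa [h1, h2]
    rw [walk_parity (fun u : V => (u : ℕ) / 2) hc w]
    have h1 : (a : ℕ) / 2 = x := by omega
    have h2 : (b : ℕ) / 2 = y := by omega
    show Odd ((a : ℕ) / 2 + (b : ℕ) / 2)
    rwa [h1, h2]
  · intro h
    exact hy (three_dvd_of_adj_good hS3 ha hb hx hx4 hx1 hx2 h)
  · intro u v h1 h2 h3
    obtain ⟨s, hs⟩ := exists_half hV u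
    obtain ⟨t, ht⟩ := exists_half hV v
    have hs3 := three_dvd_of_adj_good hS3 ha hs hx hx4 hx1 hx2 h1
    have ht3 := three_dvd_of_adj_good hS3 hb ht hy hy4 hy1 hy2 h3.symm
    rw [halfGraph_adj_iff hs ht] at h2
    have h4 := hS3 _ h2.2.1 (Dvd.dvd.add hs3 ht3)
    have h5 := hS3 _ h2.2.2 (by
      rcases le_total s t with hle | hle
      · have h6 : ((s : ℤ) - t).natAbs = t - s := by omega
        rw [h6]; omega
      · have h6 : ((s : ℤ) - t).natAbs = s - t := by omega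
        rw [h6]; omega)
    rcases Nat.eq_zero_or_pos s with h6 | h6
    · subst h6
      rw [halfGraph_adj_iff ha hs] at h1
      refine hx0 ?_ (by simpa using h1.2.1)
      have : (u : ℕ) = 0 := by omega
      rw [← this]; exact u.2
    · have h7 : t = 0 := by omega
      subst h7
      rw [halfGraph_adj_iff ht hb] at h3
      refine hy0 ?_ (by simpa using h3.2.1)
      have : (v : ℕ) = 0 := by omega
      rw [← this]; exact v.2

/-- The second family: both halves are multiples of `3` and congruent to `±2` modulo `5`. -/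
theorem five_le_of_good' {V S : Set ℕ} (hV : ∀ a ∈ V, Even a) (hS1 : ∀ m ∈ S, Odd m)
    (hS3 : ∀ m ∈ S, 3 ∣ m → m = 3) (hS5 : ∀ m ∈ S, 5 ∣ m → m = 5) {a b : V} {x y : ℕ}
    (ha : (a : ℕ) = 2 * x) (hb : (b : ℕ) = 2 * y)
    (hx : 3 ∣ x) (hx5 : x % 5 = 2 ∨ x % 5 = 3) (hx6 : 6 ≤ x) (hx1 : 2 * x + 3 ∉ S)
    (hx2 : 2 * x - 3 ∉ S) (hx3 : 2 * x + 5 ∉ S) (hx4 : 2 * x - 5 ∉ S) (hx0 : x + 1 ∉ S)
    (hy : 3 ∣ y) (hy5 : y % 5 = 2 ∨ y % 5 = 3) (hy6 : 6 ≤ y) (hy1 : 2 * y + 3 ∉ S)
    (hy2 : 2 * y - 3 ∉ S) (hy3 : 2 * y + 5 ∉ S) (hy4 : 2 * y - 5 ∉ S) (hy0 : y + 1 ∉ S)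
    (hxy : Odd (x + y)) :
    5 ≤ (halfGraph V S).edist a b := by
  -- neighbours of such vertices
  have nb : ∀ {c u : V} {z t : ℕ}, (c : ℕ) = 2 * z → (u : ℕ) = 2 * t → 3 ∣ z →
      (z % 5 = 2 ∨ z % 5 = 3) → 6 ≤ z → 2 * z + 3 ∉ S → 2 * z - 3 ∉ S → 2 * z + 5 ∉ S →
      2 * z - 5 ∉ S → z + 1 ∉ S → (halfGraph V S).Adj c u →
      ¬ 3 ∣ t ∧ (t % 5 = 0 ∨ t % 5 = 1 ∨ t % 5 = 4) ∧ t ≠ 1 := by
    intro c u z t hc hu h3 h5 h6 h7 h8 h9 h10 h11 hadj
    rw [halfGraph_adj_iff hc hu] at hadj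
    obtain ⟨hne, hs, hd⟩ := hadj
    refine ⟨?_, ?_, ?_⟩
    · intro ht
      have h12 := hS3 _ hs (Dvd.dvd.add h3 ht)
      omega
    · by_contra hcon
      have ht : t % 5 = 2 ∨ t % 5 = 3 := by omega
      have hcase : 5 ∣ z + t ∨ 5 ∣ ((z : ℤ) - t).natAbs := by
        rcases le_total z t with hle | hle
        · have h12 : ((z : ℤ) - t).natAbs = t - z := by omega
          rw [h12]
          rcases h5 with h5 | h5 <;> rcases ht with ht | ht <;>
            first | (left; omega) | (right; omega)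
        · have h12 : ((z : ℤ) - t).natAbs = z - t := by omega
          rw [h12]
          rcases h5 with h5 | h5 <;> rcases ht with ht | ht <;>
            first | (left; omega) | (right; omega)
      rcases hcase with h | h
      · have := hS5 _ hs h
        omega
      · have h12 := hS5 _ hd h
        rcases Nat.lt_or_gt_of_ne hne with h13 | h13
        · have h14 : z + t = 2 * z + 5 := by omega
          rw [h14] at hs
          exact h9 hs
        · have h14 : z + t = 2 * z - 5 := by omega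
          rw [h14] at hs
          exact h10 hs
    · intro ht
      rw [ht] at hs
      exact h11 hs
  apply five_le_edist
  · intro w
    have hc : ∀ u v : V, (halfGraph V S).Adj u v → Odd ((u : ℕ) / 2 + (v : ℕ) / 2) := by
      intro u v huv
      obtain ⟨s, hs⟩ := exists_half hV u
      obtain ⟨t, ht⟩ := exists_half hV v
      rw [halfGraph_adj_iff hs ht] at huv
      have := hS1 _ huv.2.1
      have h1 : (u : ℕ) / 2 = s := by omega
      have h2 : (v : ℕ) / 2 = t := by omega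
      rwa [h1, h2]
    rw [walk_parity (fun u : V => (u : ℕ) / 2) hc w]
    have h1 : (a : ℕ) / 2 = x := by omega
    have h2 : (b : ℕ) / 2 = y := by omega
    show Odd ((a : ℕ) / 2 + (b : ℕ) / 2)
    rwa [h1, h2]
  · intro h
    exact (nb ha hb hx hx5 hx6 hx1 hx2 hx3 hx4 hx0 h).1 hy
  · intro u v h1 h2 h3
    obtain ⟨s, hs⟩ := exists_half hV u
    obtain ⟨t, ht⟩ := exists_half hV v
    obtain ⟨hs3, hs5, hs1⟩ := nb ha hs hx hx5 hx6 hx1 hx2 hx3 hx4 hx0 h1
    obtain ⟨ht3, ht5, ht1⟩ := nb hb ht hy hy5 hy6 hy1 hy2 hy3 hy4 hy0 h3.symm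
    rw [halfGraph_adj_iff hs ht] at h2
    obtain ⟨hne, hsum, hd⟩ := h2
    have hcase : 3 ∣ s + t ∨ 3 ∣ ((s : ℤ) - t).natAbs := by
      have hx' : s % 3 = 1 ∨ s % 3 = 2 := by omega
      have ht' : t % 3 = 1 ∨ t % 3 = 2 := by omega
      rcases le_total s t with hle | hle
      · have h6 : ((s : ℤ) - t).natAbs = t - s := by omega
        rw [h6]
        rcases hx' with hx' | hx' <;> rcases ht' with ht' | ht' <;>
          first | (left; omega) | (right; omega)
      · have h6 : ((s : ℤ) - t).natAbs = s - t := by omega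
        rw [h6]
        rcases hx' with hx' | hx' <;> rcases ht' with ht' | ht' <;>
          first | (left; omega) | (right; omega)
    rcases hcase with h | h
    · have := hS3 _ hsum h
      omega
    · have h4 := hS3 _ hd h
      have h5 : 5 ∣ s + t := by
        rcases Nat.lt_or_gt_of_ne hne with h6 | h6
        · have : t = s + 3 := by omega
          omega
        · have : s = t + 3 := by omega
          omega
      have := hS5 _ hsum h5
      omega

end Pool.Agent.Goldbach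
end

-- from Lib.Goldbach.Count
section

/-!
# Counting the pairs at distance at least five
-/

open Filter Topology
open scoped Nat.Prime

namespace Pool.Agent.Goldbach

/-- Exceptional halves. -/
def Bad (x : ℕ) : Prop :=
  x < 6 ∨ (2 * x + 3).Prime ∨ (2 * x - 3).Prime ∨ (2 * x + 5).Prime ∨ (2 * x - 5).Prime ∨
    x.Prime ∨ (x + 1).Prime

instance : DecidablePred Bad := fun x => by unfold Bad; infer_instance

lemma card_filter_le_primeCounting (N M : ℕ) (f : ℕ → ℕ) (hf : ∀ x < N, 6 ≤ x → f x ≤ M)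
    (hinj : ∀ x y, 6 ≤ x → 6 ≤ y → f x = f y → x = y) :
    ((Finset.range N).filter (fun x => 6 ≤ x ∧ (f x).Prime)).card ≤ π M := by
  rw [Nat.primeCounting, Nat.primeCounting', Nat.count_eq_card_filter_range]
  apply Finset.card_le_card_of_injOn f
  · intro x hx
    simp only [Finset.coe_filter, Finset.mem_range, Set.mem_ofPred_eq] at hx ⊢
    exact ⟨Nat.lt_succ_of_le (hf x hx.1 hx.2.1), hx.2.2⟩
  · intro x hx y hy hxy
    simp only [Finset.coe_filter, Finset.mem_range, Set.mem_ofPred_eq] at hx hy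
    exact hinj x y hx.2.1 hy.2.1 hxy

lemma card_bad_le (N : ℕ) : ((Finset.range N).filter Bad).card ≤ 6 + 6 * π (2 * N + 5) := by
  have h0 : (Finset.range N).filter Bad ⊆ Finset.range 6 ∪
      ((Finset.range N).filter (fun x => 6 ≤ x ∧ (2 * x + 3).Prime) ∪
      ((Finset.range N).filter (fun x => 6 ≤ x ∧ (2 * x - 3).Prime) ∪
      ((Finset.range N).filter (fun x => 6 ≤ x ∧ (2 * x + 5).Prime) ∪
      ((Finset.range N).filter (fun x => 6 ≤ x ∧ (2 * x - 5).Prime) ∪
      ((Finset.range N).filter (fun x => 6 ≤ x ∧ (x).Prime) ∪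
      ((Finset.range N).filter (fun x => 6 ≤ x ∧ (x + 1).Prime))))))) := by
    intro x hx
    simp only [Finset.mem_filter, Finset.mem_range, Finset.mem_union, Bad] at hx ⊢
    by_cases h6 : x < 6
    · left; exact h6
    · have h7 : 6 ≤ x := by omega
      tauto
  have h1 := card_filter_le_primeCounting N (2 * N + 5) (fun x => 2 * x + 3)
    (by intro x _ _; omega) (by intro x y _ _ h; omega)
  have h2 := card_filter_le_primeCounting N (2 * N + 5) (fun x => 2 * x - 3)
    (by intro x _ _; omega) (by intro x y _ _ h; omega)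
  have h3 := card_filter_le_primeCounting N (2 * N + 5) (fun x => 2 * x + 5)
    (by intro x _ _; omega) (by intro x y _ _ h; omega)
  have h4 := card_filter_le_primeCounting N (2 * N + 5) (fun x => 2 * x - 5)
    (by intro x _ _; omega) (by intro x y _ _ h; omega)
  have h5 := card_filter_le_primeCounting N (2 * N + 5) (fun x => x)
    (by intro x _ _; omega) (by intro x y _ _ h; omega)
  have h6 := card_filter_le_primeCounting N (2 * N + 5) (fun x => x + 1)
    (by intro x _ _; omega) (by intro x y _ _ h; omega)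
  refine (Finset.card_le_card h0).trans ?_
  refine (Finset.card_union_le _ _).trans ?_
  rw [Finset.card_range]
  refine (add_le_add le_rfl ((Finset.card_union_le _ _).trans (add_le_add h1
    ((Finset.card_union_le _ _).trans (add_le_add h2
    ((Finset.card_union_le _ _).trans (add_le_add h3
    ((Finset.card_union_le _ _).trans (add_le_add h4
    ((Finset.card_union_le _ _).trans (add_le_add h5 h6))))))))))).trans ?_
  omega

lemma bad_isLittle {δ : ℝ} (hδ : 0 < δ) :
    ∃ N₀ : ℕ, ∀ N ≥ N₀, (((Finset.range N).filter Bad).card : ℝ) ≤ δ * N := by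
  have h1 := Chebyshev.eventually_primeCounting_le (ε := 1) one_pos
  have h2 : Tendsto (fun N : ℕ => ((2 * N + 5 : ℕ) : ℝ)) atTop atTop := by
    apply tendsto_natCast_atTop_atTop.comp
    apply tendsto_atTop_mono (f := fun N : ℕ => N) (fun N => by omega)
    exact tendsto_id
  have h3 := h2.eventually h1
  have h4 : Tendsto (fun N : ℕ => Real.log ((2 * N + 5 : ℕ) : ℝ)) atTop atTop :=
    Real.tendsto_log_atTop.comp h2
  have h5 := h4.eventually_ge_atTop (6 * (Real.log 4 + 1) * 7 * 2 / δ)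
  have h6 : Tendsto (fun N : ℕ => (N : ℝ)) atTop atTop := tendsto_natCast_atTop_atTop
  have h7 := h6.eventually_ge_atTop (12 / δ)
  have h8 := eventually_ge_atTop (1 : ℕ)
  obtain ⟨N₀, hN₀⟩ := eventually_atTop.mp (h3.and (h5.and (h7.and h8)))
  refine ⟨N₀, fun N hN => ?_⟩
  obtain ⟨g1, g2, g3, g4⟩ := hN₀ N hN
  rw [Nat.floor_natCast] at g1
  have hlog : (0 : ℝ) < Real.log ((2 * N + 5 : ℕ) : ℝ) := by
    apply Real.log_pos
    have : (1 : ℕ) < 2 * N + 5 := by omega
    exact_mod_cast this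
  have hN1 : (1 : ℝ) ≤ N := by exact_mod_cast g4
  have hl4 : (0 : ℝ) < Real.log 4 + 1 := by
    have : (0 : ℝ) < Real.log 4 := Real.log_pos (by norm_num)
    linarith
  have e1 : (π (2 * N + 5) : ℝ) ≤ (Real.log 4 + 1) * (7 * N) /
      Real.log ((2 * N + 5 : ℕ) : ℝ) := by
    refine g1.trans ?_
    gcongr
    push_cast
    linarith
  have e2 : (6 : ℝ) * π (2 * N + 5) ≤ δ / 2 * N := by
    have : (6 : ℝ) * ((Real.log 4 + 1) * (7 * N) / Real.log ((2 * N + 5 : ℕ) : ℝ)) ≤
        δ / 2 * N := by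
      rw [← mul_div_assoc, div_le_iff₀ hlog]
      rw [div_le_iff₀ hδ] at g2
      nlinarith
    linarith [mul_le_mul_of_nonneg_left e1 (by norm_num : (0 : ℝ) ≤ 6)]
  have e3 : (6 : ℝ) ≤ δ / 2 * N := by
    rw [div_le_iff₀ hδ] at g3
    linarith
  have e4 : (((Finset.range N).filter Bad).card : ℝ) ≤ 6 + 6 * π (2 * N + 5) := by
    exact_mod_cast card_bad_le N
  linarith



/-- The condition defining the pairs. -/
def PairCond (x y : ℕ) : Prop :=
  (x + y) % 2 = 1 ∧ ((x % 3 ≠ 0 ∧ y % 3 ≠ 0) ∨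
      (x % 3 = 0 ∧ y % 3 = 0 ∧ (x % 5 = 2 ∨ x % 5 = 3) ∧ (y % 5 = 2 ∨ y % 5 = 3)))

instance (x y : ℕ) : Decidable (PairCond x y) := by unfold PairCond; infer_instance



end Pool.Agent.Goldbach
end

-- from Lib.H18GB2.DD
section

/-!
# Project GB2: the typical distance
-/

namespace Pool.Agent.Lib.H18GB

/-- the typical distance of two vertices, in halved coordinates -/
def dd (x y : ℕ) : ℕ :=
  if x % 2 = y % 2 then (if x % 3 = 0 ↔ y % 3 = 0 then 2 else 4)
  else if x % 3 = 0 ∧ y % 3 = 0 then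
    (if (x % 5 = 2 ∨ x % 5 = 3) ∧ (y % 5 = 2 ∨ y % 5 = 3) then 5 else 3)
  else if x % 3 ≠ 0 ∧ y % 3 ≠ 0 then 5 else 3

end Pool.Agent.Lib.H18GB
end

-- from Lib.H18GB2.DistL
section

/-!
# Project GB2: DISTL (typical distances, lower bounds)
-/

namespace Pool.Agent.Lib.H18GB

open Finset Pool.Agent.Goldbach

/-- walks have the parity of the sum of the halves of the ends -/
theorem distL_par {V S : Set ℕ} (hV : ∀ a ∈ V, Even a) (hS1 : ∀ m ∈ S, Odd m) {a b : V} {x y : ℕ}
    (ha : (a : ℕ) = 2 * x) (hb : (b : ℕ) = 2 * y) (w : (halfGraph V S).Walk a b) :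
    (Odd w.length ↔ Odd (x + y)) := by
  have hc : ∀ u v : V, (halfGraph V S).Adj u v → Odd ((u : ℕ) / 2 + (v : ℕ) / 2) := by
    intro u v huv
    obtain ⟨s, hs⟩ := exists_half hV u
    obtain ⟨t, ht⟩ := exists_half hV v
    rw [halfGraph_adj_iff hs ht] at huv
    have := hS1 _ huv.2.1
    have h1 : (u : ℕ) / 2 = s := by omega
    have h2 : (v : ℕ) / 2 = t := by omega
    rwa [h1, h2]
  rw [walk_parity (fun u : V => (u : ℕ) / 2) hc w]
  have h1 : (a : ℕ) / 2 = x := by omega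
  have h2 : (b : ℕ) / 2 = y := by omega
  show Odd ((a : ℕ) / 2 + (b : ℕ) / 2) ↔ _
  rw [h1, h2]

theorem distL_two {V : Type*} {G : SimpleGraph V} {a b : V}
    (hpar : ∀ w : G.Walk a b, ¬ Odd w.length) (h0 : a ≠ b) : 2 ≤ G.edist a b := by
  refine le_iInf fun w => ?_
  have hodd := hpar w
  have key : 2 ≤ w.length := by
    by_contra hlt
    have hcases : w.length = 0 ∨ w.length = 1 := by omega
    rcases hcases with h | h
    · exact h0 (SimpleGraph.Walk.eq_of_length_eq_zero h)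
    · rw [h] at hodd
      exact hodd odd_one
  exact_mod_cast key

theorem distL_three {V : Type*} {G : SimpleGraph V} {a b : V}
    (hpar : ∀ w : G.Walk a b, Odd w.length) (h1 : ¬ G.Adj a b) : 3 ≤ G.edist a b := by
  refine le_iInf fun w => ?_
  have hodd := hpar w
  have key : 3 ≤ w.length := by
    by_contra hlt
    have h : w.length = 1 := by
      obtain ⟨k, hk⟩ := hodd
      omega
    cases w with
    | nil => simp at h
    | cons hadj q =>
      have hq : q.length = 0 := by simpa using h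
      have := SimpleGraph.Walk.eq_of_length_eq_zero hq
      subst this
      exact h1 hadj
  exact_mod_cast key

theorem distL_four {V : Type*} {G : SimpleGraph V} {a b : V}
    (hpar : ∀ w : G.Walk a b, ¬ Odd w.length) (h0 : a ≠ b)
    (h2 : ∀ u, G.Adj a u → G.Adj u b → False) : 4 ≤ G.edist a b := by
  refine le_iInf fun w => ?_
  have hodd := hpar w
  have key : 4 ≤ w.length := by
    by_contra hlt
    have hcases : w.length = 0 ∨ w.length = 2 := by
      rw [Nat.not_odd_iff_even] at hodd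
      obtain ⟨k, hk⟩ := hodd
      omega
    rcases hcases with h | h
    · exact h0 (SimpleGraph.Walk.eq_of_length_eq_zero h)
    · cases w with
      | nil => simp at h
      | cons e1 q1 =>
        cases q1 with
        | nil => simp at h
        | cons e2 q2 =>
          have hq : q2.length = 0 := by simpa using h
          have := SimpleGraph.Walk.eq_of_length_eq_zero hq
          subst this
          exact h2 _ e1 e2
  exact_mod_cast key

/-- a good multiple of three and a good non-multiple of three have no common neighbour -/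
theorem distL_nocommon {V S : Set ℕ} (hV : ∀ a ∈ V, Even a)
    (hS3 : ∀ m ∈ S, 3 ∣ m → m = 3) {a b u : V} {x y : ℕ} (ha : (a : ℕ) = 2 * x)
    (hb : (b : ℕ) = 2 * y) (hx : 3 ∣ x) (hx6 : 6 ≤ x) (hy : ¬ 3 ∣ y) (hy4 : 4 ≤ y)
    (hy1 : 2 * y + 3 ∉ S) (hy2 : 2 * y - 3 ∉ S)
    (h1 : (halfGraph V S).Adj a u) (h2 : (halfGraph V S).Adj b u) : False := by
  obtain ⟨t, ht⟩ := exists_half hV u
  have h3 := three_dvd_of_adj_good hS3 hb ht hy hy4 hy1 hy2 h2
  rw [halfGraph_adj_iff ha ht] at h1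
  have := hS3 _ h1.2.1 (Dvd.dvd.add hx h3)
  omega

/-- the pointwise lower bound -/
theorem distL_point {V S : Set ℕ} (hV : ∀ a ∈ V, Even a)
    (hS : ∀ m ∈ S, m = 1 ∨ (m.Prime ∧ Odd m)) {a b : V} {x y : ℕ} (ha : (a : ℕ) = 2 * x)
    (hb : (b : ℕ) = 2 * y) (hbx : ¬ Bad x) (hby : ¬ Bad y) (hxy : x ≠ y)
    (hs : ¬ (x + y).Prime) : (dd x y : ℕ∞) ≤ (halfGraph V S).edist a b := by
  have hS1 : ∀ m ∈ S, Odd m := by
    intro m hm
    rcases hS m hm with h | h
    · rw [h]; exact odd_one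
    · exact h.2
  have hS3 : ∀ m ∈ S, 3 ∣ m → m = 3 := by
    intro m hm h3
    rcases hS m hm with h | h
    · rw [h] at h3; omega
    · exact ((Nat.prime_dvd_prime_iff_eq Nat.prime_three h.1).mp h3).symm
  have hS5 : ∀ m ∈ S, 5 ∣ m → m = 5 := by
    intro m hm h3
    rcases hS m hm with h | h
    · rw [h] at h3; omega
    · exact ((Nat.prime_dvd_prime_iff_eq Nat.prime_five h.1).mp h3).symm
  have hSn : ∀ m, 1 < m → ¬ m.Prime → m ∉ S := by
    intro m h1 h2 h3
    rcases hS m h3 with h | h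
    · omega
    · exact h2 h.1
  unfold Bad at hbx hby
  push Not at hbx hby
  obtain ⟨hx6, hx1, hx2, hx3, hx4, hx5, hx7⟩ := hbx
  obtain ⟨hy6, hy1, hy2, hy3, hy4, hy5, hy7⟩ := hby
  have hne : a ≠ b := by
    intro h
    rw [h, hb] at ha
    omega
  have hnadj : ¬ (halfGraph V S).Adj a b := by
    intro h
    rw [halfGraph_adj_iff ha hb] at h
    exact hSn _ (by omega) hs h.2.1
  have hpar := distL_par hV hS1 ha hb
  unfold dd
  by_cases hp : x % 2 = y % 2
  · have hev : ∀ w : (halfGraph V S).Walk a b, ¬ Odd w.length := by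
      intro w
      rw [hpar w, Nat.odd_iff]
      omega
    rw [if_pos hp]
    split_ifs with h3
    · exact_mod_cast distL_two hev hne
    · have : (4 : ℕ∞) ≤ (halfGraph V S).edist a b := by
        apply distL_four hev hne
        intro u h1 h2
        by_cases hx30 : x % 3 = 0
        · exact distL_nocommon hV hS3 ha hb (by omega) hx6 (by omega) (by omega)
            (hSn _ (by omega) hy1) (hSn _ (by omega) hy2) h1 h2.symm
        · exact distL_nocommon hV hS3 hb ha (by omega) hy6 (by omega) (by omega)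
            (hSn _ (by omega) hx1) (hSn _ (by omega) hx2) h2.symm h1
      exact_mod_cast this
  · have hod : ∀ w : (halfGraph V S).Walk a b, Odd w.length := by
      intro w
      rw [hpar w, Nat.odd_iff]
      omega
    have h3' : (3 : ℕ∞) ≤ (halfGraph V S).edist a b := distL_three hod hnadj
    rw [if_neg hp]
    split_ifs with h3 h5 h6
    · have : (5 : ℕ∞) ≤ (halfGraph V S).edist a b := by
        apply five_le_of_good' hV hS1 hS3 hS5 ha hb (by omega) h5.1 hx6
          (hSn _ (by omega) hx1) (hSn _ (by omega) hx2) (hSn _ (by omega) hx3)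
          (hSn _ (by omega) hx4) (hSn _ (by omega) hx7) (by omega) h5.2 hy6
          (hSn _ (by omega) hy1) (hSn _ (by omega) hy2) (hSn _ (by omega) hy3)
          (hSn _ (by omega) hy4) (hSn _ (by omega) hy7) (Nat.odd_iff.mpr (by omega))
      exact_mod_cast this
    · exact_mod_cast h3'
    · have : (5 : ℕ∞) ≤ (halfGraph V S).edist a b := by
        apply five_le_of_good hV hS1 hS3 ha hb (by omega) (by omega)
          (hSn _ (by omega) hx1) (hSn _ (by omega) hx2) (fun _ => hSn _ (by omega) hx5)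
          (by omega) (by omega) (hSn _ (by omega) hy1) (hSn _ (by omega) hy2)
          (fun _ => hSn _ (by omega) hy5) (Nat.odd_iff.mpr (by omega))
      exact_mod_cast this
    · exact_mod_cast h3'

/-- the number of exceptional pairs -/
theorem distL_count {V S : Set ℕ} {n : ℕ} (hV : ∀ a ∈ V, Even a ∧ a ≤ 2 * n)
    (hS : ∀ m ∈ S, m = 1 ∨ (m.Prime ∧ Odd m)) :
    {p : V × V | (halfGraph V S).edist p.1 p.2 < (dd ((p.1 : ℕ) / 2) ((p.2 : ℕ) / 2) : ℕ∞)}.ncard ≤
      2 * (n + 1) * ((Finset.range (n + 1)).filter Bad).card + (n + 1) +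
      (n + 1) * ((Finset.range (2 * n + 1)).filter Bad).card := by
  set R := Finset.range (n + 1) with hR
  set B : Finset (ℕ × ℕ) := ((R.filter Bad) ×ˢ R ∪ R ×ˢ (R.filter Bad)) ∪
    ((R ×ˢ R).filter (fun q => q.1 = q.2) ∪ (R ×ˢ R).filter (fun q => (q.1 + q.2).Prime)) with hB
  have : Finite V := (Set.finite_Iic (2 * n)).subset fun a ha => (hV a ha).2
  have h6 : {p : V × V | (halfGraph V S).edist p.1 p.2 <
      (dd ((p.1 : ℕ) / 2) ((p.2 : ℕ) / 2) : ℕ∞)}.ncard ≤ B.card := by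
    rw [← Set.ncard_coe_finset]
    apply Set.ncard_le_ncard_of_injOn (fun p : V × V => ((p.1 : ℕ) / 2, (p.2 : ℕ) / 2))
    · rintro ⟨⟨a, ha⟩, ⟨b, hb⟩⟩ hab
      obtain ⟨⟨x, hx⟩, han⟩ := hV a ha
      obtain ⟨⟨y, hy⟩, hbn⟩ := hV b hb
      have hax : a = 2 * x := by omega
      have hby : b = 2 * y := by omega
      subst hax hby
      simp only [Set.mem_ofPred_eq] at hab
      simp only [Nat.mul_div_cancel_left _ (by norm_num : 0 < 2)] at hab ⊢
      rw [Finset.mem_coe, hB]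
      have hxR : x ∈ R := by rw [hR, Finset.mem_range]; omega
      have hyR : y ∈ R := by rw [hR, Finset.mem_range]; omega
      simp only [Finset.mem_union, Finset.mem_filter, Finset.mem_product]
      by_contra hcon
      have h1 : ¬ Bad x := fun h => hcon (Or.inl (Or.inl ⟨⟨hxR, h⟩, hyR⟩))
      have h2 : ¬ Bad y := fun h => hcon (Or.inl (Or.inr ⟨hxR, ⟨hyR, h⟩⟩))
      have h3 : x ≠ y := fun h => hcon (Or.inr (Or.inl ⟨⟨hxR, hyR⟩, h⟩))
      have h4 : ¬ (x + y).Prime := fun h => hcon (Or.inr (Or.inr ⟨⟨hxR, hyR⟩, h⟩))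
      exact absurd (distL_point (fun a ha => (hV a ha).1) hS (a := ⟨2 * x, ha⟩) (b := ⟨2 * y, hb⟩)
        rfl rfl h1 h2 h3 h4) (not_le.mpr hab)
    · rintro ⟨⟨a, ha⟩, ⟨b, hb⟩⟩ - ⟨⟨a', ha'⟩, ⟨b', hb'⟩⟩ - hab
      have h1 := (hV a ha).1
      have h2 := (hV b hb).1
      have h3 := (hV a' ha').1
      have h4 := (hV b' hb').1
      simp only [Prod.mk.injEq] at hab
      obtain ⟨k1, e1⟩ := h1
      obtain ⟨k2, e2⟩ := h2
      obtain ⟨k3, e3⟩ := h3
      obtain ⟨k4, e4⟩ := h4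
      ext
      · simp only
        omega
      · simp only
        omega
  refine h6.trans ?_
  have hRc : R.card = n + 1 := Finset.card_range _
  have c1 : ((R.filter Bad) ×ˢ R ∪ R ×ˢ (R.filter Bad)).card ≤ 2 * (n + 1) * (R.filter Bad).card := by
    refine (Finset.card_union_le _ _).trans ?_
    rw [Finset.card_product, Finset.card_product, hRc]
    apply le_of_eq
    ring
  have c2 : ((R ×ˢ R).filter (fun q => q.1 = q.2)).card ≤ n + 1 := by
    rw [← hRc]
    apply Finset.card_le_card_of_injOn (fun q => q.1)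
    · intro q hq
      simp only [Finset.coe_filter, Finset.mem_product, Set.mem_ofPred_eq] at hq
      exact hq.1.1
    · rintro ⟨q1, q2⟩ hq ⟨q3, q4⟩ hq' h
      simp only [Finset.coe_filter, Finset.mem_product, Set.mem_ofPred_eq] at hq hq' h
      simp only [Prod.mk.injEq]
      omega
  have c3 : ((R ×ˢ R).filter (fun q => (q.1 + q.2).Prime)).card ≤
      (n + 1) * ((Finset.range (2 * n + 1)).filter Bad).card := by
    rw [← hRc, ← Finset.card_product]
    apply Finset.card_le_card_of_injOn (fun q => (q.1, q.1 + q.2))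
    · intro q hq
      simp only [Finset.coe_filter, Finset.mem_product, Set.mem_ofPred_eq, hR, Finset.mem_range] at hq
      simp only [Finset.coe_product, Set.mem_prod, Finset.mem_coe, Finset.mem_filter, hR,
        Finset.mem_range]
      refine ⟨hq.1.1, by omega, ?_⟩
      unfold Bad
      tauto
    · rintro ⟨q1, q2⟩ hq ⟨q3, q4⟩ hq' h
      simp only [Prod.mk.injEq] at h ⊢
      omega
  calc B.card ≤ ((R.filter Bad) ×ˢ R ∪ R ×ˢ (R.filter Bad)).card +
        (((R ×ˢ R).filter (fun q => q.1 = q.2)).card +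
        ((R ×ˢ R).filter (fun q => (q.1 + q.2).Prime)).card) :=
        (Finset.card_union_le _ _).trans (Nat.add_le_add_left (Finset.card_union_le _ _) _)
    _ ≤ _ := by omega

/-- Chunk DISTL. In both Goldbach graphs almost all pairs are at distance at least `dd`: the vertices
`x` for which one of a few numbers (`2 x ± 3`, `x ± 1`, `x ± 3`, ... see `Bad` in
`Pool.Agent.Lib.Goldbach.Count`) is prime, and the adjacent pairs, are few (`bad_isLittle`;
the pairs with `x + y` prime are `O(n^2 / log n)`, e.g. by `bad_isLittle` or Chebyshev).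
Distance `5`: `five_le_of_good`, `five_le_of_good'` in `Pool.Agent.Lib.Goldbach`. Distance `4` (same
parity, exactly one divisible by `3`): the distance is even (parity of walks), the vertices are
different, and a common neighbour `u` would have (mod `3`) `|y - u|` or `y + u` or `|x - u|` or `x + u`
in `{1, 3}`, impossible for good vertices. Distance `3`: odd, not adjacent. Distance `2`: even, different.
`V`, `S` as in `main` of `AlmostAllVertices.lean`. -/
theorem dist_lower (ε : ℝ) (hε : 0 < ε) : ∃ n0 : ℕ, ∀ n ≥ n0, ∀ V S : Set ℕ,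
    (∀ a ∈ V, Even a ∧ a ≤ 2 * n) → (∀ m ∈ S, m = 1 ∨ (m.Prime ∧ Odd m)) →
    ({p : V × V | (halfGraph V S).edist p.1 p.2 < (dd ((p.1 : ℕ) / 2) ((p.2 : ℕ) / 2) : ℕ∞)}.ncard :
      ℝ) ≤ ε * n ^ 2 := by
  obtain ⟨n1, h1⟩ := bad_isLittle (δ := ε / 32) (by positivity)
  obtain ⟨n2, h2⟩ := exists_nat_gt (8 / ε)
  refine ⟨max n1 (max n2 1), fun n hn V S hV hS => ?_⟩
  have hn1 : n1 ≤ n := le_trans (le_max_left _ _) hn
  have hn2 : n2 ≤ n := le_trans (le_max_left _ _) (le_trans (le_max_right _ _) hn)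
  have hn3 : 1 ≤ n := le_trans (le_max_right _ _) (le_trans (le_max_right _ _) hn)
  have h3 := h1 (n + 1) (by omega)
  have h4 := h1 (2 * n + 1) (by omega)
  have h5 := distL_count hV hS
  set b1 := ((Finset.range (n + 1)).filter Bad).card
  set b2 := ((Finset.range (2 * n + 1)).filter Bad).card
  have h6 : ({p : V × V | (halfGraph V S).edist p.1 p.2 <
      (dd ((p.1 : ℕ) / 2) ((p.2 : ℕ) / 2) : ℕ∞)}.ncard : ℝ) ≤
      2 * ((n : ℝ) + 1) * b1 + (n + 1) + (n + 1) * b2 := by
    exact_mod_cast h5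
  refine h6.trans ?_
  have h9 : (1 : ℝ) ≤ n := by exact_mod_cast hn3
  have h10 : 8 < ε * n := by
    have : 8 / ε < (n : ℝ) := lt_of_lt_of_le h2 (by exact_mod_cast hn2)
    rw [div_lt_iff₀ hε] at this
    linarith
  push_cast at h3 h4
  have e1 : 2 * ((n : ℝ) + 1) * b1 ≤ ε / 4 * n ^ 2 := by
    calc 2 * ((n : ℝ) + 1) * b1 ≤ 2 * ((n : ℝ) + 1) * (ε / 32 * (n + 1)) := by gcongr
      _ ≤ 2 * ((n : ℝ) + n) * (ε / 32 * (n + n)) := by gcongr
      _ = ε / 4 * n ^ 2 := by ring
  have e2 : (n : ℝ) + 1 ≤ ε / 4 * n ^ 2 := by nlinarith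
  have e3 : ((n : ℝ) + 1) * b2 ≤ ε / 4 * n ^ 2 := by
    calc ((n : ℝ) + 1) * b2 ≤ ((n : ℝ) + 1) * (ε / 32 * (2 * n + 1)) := by gcongr
      _ ≤ ((n : ℝ) + n) * (ε / 32 * (2 * n + 2 * n)) := by gcongr; linarith
      _ = ε / 4 * n ^ 2 := by ring
  have : 0 ≤ ε / 4 * (n : ℝ) ^ 2 := by positivity
  linarith

end Pool.Agent.Lib.H18GB
end

-- from Lib.H18GB2.Sharp
section

/-!
# Project GB2: SHARP (sets of more than `3/5` of the vertices contain pairs at distance `5`)
-/

namespace Pool.Agent.Lib.H18GB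

open Finset Pool.Agent.Goldbach

theorem sharp_count (n : ℕ) (T : Finset ℕ) (hT : T ⊆ Finset.range (n + 1)) (P : ℕ → Prop)
    [DecidablePred P] (R : Finset ℕ) (hP : ∀ x, P x → x % 30 ∈ R) :
    (T.filter P).card ≤ R.card * (n / 30 + 1) := by
  calc (T.filter P).card ≤ (R ×ˢ Finset.range (n / 30 + 1)).card := by
        apply Finset.card_le_card_of_injOn (fun x => (x % 30, x / 30))
        · intro x hx
          rw [Finset.mem_coe, Finset.mem_filter] at hx
          have h1 := Finset.mem_range.mp (hT hx.1)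
          simp only [Finset.mem_coe, Finset.mem_product, Finset.mem_range]
          exact ⟨hP x hx.2, by omega⟩
        · intro x _ y _ h
          simp only [Prod.mk.injEq] at h
          omega
    _ = R.card * (n / 30 + 1) := by rw [Finset.card_product, Finset.card_range]

theorem sharp_split (n : ℕ) (T : Finset ℕ) (hT : T ⊆ Finset.range (n + 1)) (δ : ℝ)
    (h : 2 * δ * n + 3 / 5 * n + 18 < T.card) :
    ∃ U U' : Finset ℕ, U ⊆ T ∧ U' ⊆ T ∧ δ * n < U.card ∧ δ * n < U'.card ∧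
      ∀ x ∈ U, ∀ y ∈ U', dd x y = 5 := by
  set T1 := T.filter (fun x => x % 2 = 1 ∧ x % 3 ≠ 0) with hT1
  set T2 := T.filter (fun x => x % 2 = 0 ∧ x % 3 ≠ 0) with hT2
  set T3 := T.filter (fun x => x % 2 = 0 ∧ x % 3 = 0 ∧ (x % 5 = 2 ∨ x % 5 = 3)) with hT3
  set T4 := T.filter (fun x => x % 2 = 1 ∧ x % 3 = 0 ∧ (x % 5 = 2 ∨ x % 5 = 3)) with hT4
  set T5 := T.filter (fun x => x % 3 = 0 ∧ ¬ (x % 5 = 2 ∨ x % 5 = 3)) with hT5
  have hsub : T ⊆ T1 ∪ T2 ∪ T3 ∪ T4 ∪ T5 := by
    intro x hx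
    simp only [hT1, hT2, hT3, hT4, hT5, Finset.mem_union, Finset.mem_filter]
    have h2 : x % 2 = 0 ∨ x % 2 = 1 := by omega
    by_cases h3 : x % 3 = 0
    · by_cases h5 : x % 5 = 2 ∨ x % 5 = 3
      · rcases h2 with h2 | h2
        · exact Or.inl (Or.inl (Or.inr ⟨hx, h2, h3, h5⟩))
        · exact Or.inl (Or.inr ⟨hx, h2, h3, h5⟩)
      · exact Or.inr ⟨hx, h3, h5⟩
    · rcases h2 with h2 | h2
      · exact Or.inl (Or.inl (Or.inl (Or.inr ⟨hx, h2, h3⟩)))
      · exact Or.inl (Or.inl (Or.inl (Or.inl ⟨hx, h2, h3⟩)))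
  have hcard : T.card ≤ T1.card + T2.card + T3.card + T4.card + T5.card := by
    refine (Finset.card_le_card hsub).trans ?_
    have a1 := Finset.card_union_le (T1 ∪ T2 ∪ T3 ∪ T4) T5
    have a2 := Finset.card_union_le (T1 ∪ T2 ∪ T3) T4
    have a3 := Finset.card_union_le (T1 ∪ T2) T3
    have a4 := Finset.card_union_le T1 T2
    omega
  have c1 := sharp_count n T hT (fun x => x % 2 = 1 ∧ x % 3 ≠ 0)
    ((Finset.range 30).filter fun x => x % 2 = 1 ∧ x % 3 ≠ 0) (by
      intro x hx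
      rw [Finset.mem_filter, Finset.mem_range]
      omega)
  have c2 := sharp_count n T hT (fun x => x % 2 = 0 ∧ x % 3 ≠ 0)
    ((Finset.range 30).filter fun x => x % 2 = 0 ∧ x % 3 ≠ 0) (by
      intro x hx
      rw [Finset.mem_filter, Finset.mem_range]
      omega)
  have c3 := sharp_count n T hT (fun x => x % 2 = 0 ∧ x % 3 = 0 ∧ (x % 5 = 2 ∨ x % 5 = 3))
    ((Finset.range 30).filter fun x => x % 2 = 0 ∧ x % 3 = 0 ∧ (x % 5 = 2 ∨ x % 5 = 3)) (by
      intro x hx
      rw [Finset.mem_filter, Finset.mem_range]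
      omega)
  have c4 := sharp_count n T hT (fun x => x % 2 = 1 ∧ x % 3 = 0 ∧ (x % 5 = 2 ∨ x % 5 = 3))
    ((Finset.range 30).filter fun x => x % 2 = 1 ∧ x % 3 = 0 ∧ (x % 5 = 2 ∨ x % 5 = 3)) (by
      intro x hx
      rw [Finset.mem_filter, Finset.mem_range]
      omega)
  have c5 := sharp_count n T hT (fun x => x % 3 = 0 ∧ ¬ (x % 5 = 2 ∨ x % 5 = 3))
    ((Finset.range 30).filter fun x => x % 3 = 0 ∧ ¬ (x % 5 = 2 ∨ x % 5 = 3)) (by
      intro x hx
      rw [Finset.mem_filter, Finset.mem_range]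
      omega)
  have d1 : ((Finset.range 30).filter fun x => x % 2 = 1 ∧ x % 3 ≠ 0).card = 10 := by decide
  have d2 : ((Finset.range 30).filter fun x => x % 2 = 0 ∧ x % 3 ≠ 0).card = 10 := by decide
  have d3 : ((Finset.range 30).filter fun x =>
    x % 2 = 0 ∧ x % 3 = 0 ∧ (x % 5 = 2 ∨ x % 5 = 3)).card = 2 := by decide
  have d4 : ((Finset.range 30).filter fun x =>
    x % 2 = 1 ∧ x % 3 = 0 ∧ (x % 5 = 2 ∨ x % 5 = 3)).card = 2 := by decide
  have d5 : ((Finset.range 30).filter fun x =>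
    x % 3 = 0 ∧ ¬ (x % 5 = 2 ∨ x % 5 = 3)).card = 6 := by decide
  rw [d1] at c1
  rw [d2] at c2
  rw [d3] at c3
  rw [d4] at c4
  rw [d5] at c5
  have hn : ((n / 30 : ℕ) : ℝ) ≤ n / 30 := by
    have : n / 30 * 30 ≤ n := Nat.div_mul_le_self n 30
    have : ((n / 30 : ℕ) : ℝ) * 30 ≤ n := by exact_mod_cast this
    linarith
  have c1' : (T1.card : ℝ) ≤ 10 * (n / 30 + 1) := by
    have : (T1.card : ℝ) ≤ 10 * (((n / 30 : ℕ) : ℝ) + 1) := by exact_mod_cast c1
    linarith
  have c2' : (T2.card : ℝ) ≤ 10 * (n / 30 + 1) := by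
    have : (T2.card : ℝ) ≤ 10 * (((n / 30 : ℕ) : ℝ) + 1) := by exact_mod_cast c2
    linarith
  have c3' : (T3.card : ℝ) ≤ 2 * (n / 30 + 1) := by
    have : (T3.card : ℝ) ≤ 2 * (((n / 30 : ℕ) : ℝ) + 1) := by exact_mod_cast c3
    linarith
  have c4' : (T4.card : ℝ) ≤ 2 * (n / 30 + 1) := by
    have : (T4.card : ℝ) ≤ 2 * (((n / 30 : ℕ) : ℝ) + 1) := by exact_mod_cast c4
    linarith
  have c5' : (T5.card : ℝ) ≤ 6 * (n / 30 + 1) := by
    have : (T5.card : ℝ) ≤ 6 * (((n / 30 : ℕ) : ℝ) + 1) := by exact_mod_cast c5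
    linarith
  have hcard' : (T.card : ℝ) ≤ T1.card + T2.card + T3.card + T4.card + T5.card := by
    exact_mod_cast hcard
  by_cases hA : δ * n < T1.card ∧ δ * n < T2.card
  · refine ⟨T1, T2, Finset.filter_subset _ _, Finset.filter_subset _ _, hA.1, hA.2, ?_⟩
    intro x hx y hy
    rw [hT1, Finset.mem_filter] at hx
    rw [hT2, Finset.mem_filter] at hy
    unfold dd
    rw [if_neg (by omega), if_neg (by omega), if_pos ⟨hx.2.2, hy.2.2⟩]
  by_cases hB : δ * n < T3.card ∧ δ * n < T4.card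
  · refine ⟨T3, T4, Finset.filter_subset _ _, Finset.filter_subset _ _, hB.1, hB.2, ?_⟩
    intro x hx y hy
    rw [hT3, Finset.mem_filter] at hx
    rw [hT4, Finset.mem_filter] at hy
    unfold dd
    rw [if_neg (by omega), if_pos ⟨hx.2.2.1, hy.2.2.1⟩, if_pos ⟨hx.2.2.2, hy.2.2.2⟩]
  exfalso
  rw [not_and_or, not_lt, not_lt] at hA hB
  rcases hA with hA | hA <;> rcases hB with hB | hB <;> linarith

/-- Every set of at least `(3/5 + ε) n` vertices contains two vertices at distance at least `5`. -/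
theorem sharp (ε : ℝ) (hε : 0 < ε) : ∃ n0 : ℕ, ∀ n ≥ n0, ∀ V S : Set ℕ,
    (∀ a ∈ V, Even a ∧ a ≤ 2 * n) → (∀ m ∈ S, m = 1 ∨ (m.Prime ∧ Odd m)) →
    ∀ Γ : Set V, (3 / 5 + ε) * n ≤ (Γ.ncard : ℝ) →
    ∃ a ∈ Γ, ∃ b ∈ Γ, 5 ≤ (halfGraph V S).edist a b := by
  obtain ⟨n1, h1⟩ := dist_lower ((ε / 4) ^ 2) (by positivity)
  obtain ⟨n2, h2⟩ := exists_nat_gt (36 / ε)
  refine ⟨max n1 (max n2 1), fun n hn V S hV hS Γ hΓ => ?_⟩
  have hn1 : n1 ≤ n := le_trans (le_max_left _ _) hn
  have hn2 : n2 ≤ n := le_trans (le_max_left _ _) (le_trans (le_max_right _ _) hn)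
  have hn3 : 1 ≤ n := le_trans (le_max_right _ _) (le_trans (le_max_right _ _) hn)
  have hn4 : (1 : ℝ) ≤ n := by exact_mod_cast hn3
  have hn5 : 36 < ε * n := by
    have h3 : (n2 : ℝ) ≤ n := by exact_mod_cast hn2
    have h4 : 36 / ε < n := lt_of_lt_of_le h2 h3
    rw [div_lt_iff₀ hε] at h4
    linarith
  have h3 := h1 n hn1 V S hV hS
  have hfin : Finite V := (Set.finite_Iic (2 * n)).subset fun a ha => (hV a ha).2
  classical
  have hΓf : Γ.Finite := Set.toFinite _
  set T : Finset ℕ := hΓf.toFinset.image (fun a : V => (a : ℕ) / 2) with hT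
  have hTr : T ⊆ Finset.range (n + 1) := by
    intro x hx
    rw [hT, Finset.mem_image] at hx
    obtain ⟨a, -, rfl⟩ := hx
    have := (hV a a.2).2
    rw [Finset.mem_range]
    omega
  have hinj : Function.Injective (fun a : V => (a : ℕ) / 2) := by
    rintro ⟨a, ha⟩ ⟨b, hb⟩ h
    obtain ⟨k, hk⟩ := (hV a ha).1
    obtain ⟨l, hl⟩ := (hV b hb).1
    simp only at h
    ext
    simp only
    omega
  have hTc : T.card = Γ.ncard := by
    rw [hT, Finset.card_image_of_injective _ hinj, Set.ncard_eq_toFinset_card Γ hΓf]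
  obtain ⟨U, U', hU, hU', hUc, hUc', hdd⟩ := sharp_split n T hTr (ε / 4) (by
    rw [hTc]
    nlinarith)
  by_contra hcon
  push Not at hcon
  have hmem : ∀ x ∈ T, ∃ a ∈ Γ, (a : ℕ) / 2 = x := by
    intro x hx
    rw [hT, Finset.mem_image] at hx
    obtain ⟨a, ha, rfl⟩ := hx
    exact ⟨a, hΓf.mem_toFinset.mp ha, rfl⟩
  set D : Set (V × V) := {p : V × V | (halfGraph V S).edist p.1 p.2 <
    (dd ((p.1 : ℕ) / 2) ((p.2 : ℕ) / 2) : ℕ∞)} with hD
  have h5 : (U ×ˢ U').card ≤ D.ncard := by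
    rw [← Set.ncard_coe_finset]
    refine le_trans ?_ (Set.ncard_image_le (f := fun p : V × V => ((p.1 : ℕ) / 2, (p.2 : ℕ) / 2))
      (Set.toFinite D))
    apply Set.ncard_le_ncard _ ((Set.toFinite D).image _)
    rintro ⟨x, y⟩ hxy
    rw [Finset.mem_coe, Finset.mem_product] at hxy
    obtain ⟨a, ha, hax⟩ := hmem x (hU hxy.1)
    obtain ⟨b, hb, hby⟩ := hmem y (hU' hxy.2)
    refine ⟨(a, b), ?_, by simp [hax, hby]⟩
    rw [hD, Set.mem_ofPred_eq]
    simp only [hax, hby]
    rw [hdd x hxy.1 y hxy.2]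
    exact hcon a ha b hb
  rw [Finset.card_product] at h5
  have h6 : (U.card : ℝ) * U'.card ≤ (ε / 4) ^ 2 * n ^ 2 := by
    refine le_trans ?_ h3
    exact_mod_cast h5
  have h7 : (ε / 4 * n) * (ε / 4 * n) < (U.card : ℝ) * U'.card :=
    mul_lt_mul'' hUc hUc' (by positivity) (by positivity)
  nlinarith

end Pool.Agent.Lib.H18GB
end
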