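import Mathlib
import Pool.Agent.Lib.H1M.RV2.M001

/-! Merged copies (to shorten the build) of Lib.H59C.CTN, Lib.H59C.SW3, Lib.H59C.LSA0, Lib.H59C.SEP, Lib.H59C.MER0, Lib.H59C.PVI, Lib.PNT.Fejer, Lib.PNT.WienerIkehara, Lib.PNT.Dirichlet, Lib.PNT.PNT. -/

-- from Lib.H59C.CTN
section

/-!
# CTN: a numerical integral
-/

open Finset MeasureTheory

namespace Pool.Agent.Lib.H59C

theorem CTN_log {u : ℝ} (hu : 0 ≤ u) : Real.log (1 + u) ≤ u - u ^ 2 / 2 + u ^ 3 / 3 := by
  have hd : ∀ x : ℝ, 0 ≤ x → HasDerivAt (fun x : ℝ => x - x ^ 2 / 2 + x ^ 3 / 3 - Real.log (1 + x))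
      (x ^ 3 / (1 + x)) x := by
    intro x hx
    have h1 : (1 + x) ≠ 0 := by positivity
    have h2 : HasDerivAt (fun x : ℝ => Real.log (1 + x)) (1 / (1 + x)) x :=
      ((hasDerivAt_id x).const_add 1).log h1
    have h3 : HasDerivAt (fun x : ℝ => x - x ^ 2 / 2 + x ^ 3 / 3) (1 - x + x ^ 2) x := by
      have e := ((hasDerivAt_id x).sub (((hasDerivAt_id x).pow 2).div_const 2)).add
        (((hasDerivAt_id x).pow 3).div_const 3)
      refine e.congr_deriv ?_
      simp only [id]
      push_cast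
      ring
    refine (h3.sub h2).congr_deriv ?_
    field_simp
    ring
  have hm : MonotoneOn (fun x : ℝ => x - x ^ 2 / 2 + x ^ 3 / 3 - Real.log (1 + x)) (Set.Ici 0) := by
    apply monotoneOn_of_deriv_nonneg (convex_Ici 0)
    · intro x hx
      exact (hd x hx).continuousAt.continuousWithinAt
    · intro x hx
      rw [interior_Ici] at hx
      exact (hd x hx.le).differentiableAt.differentiableWithinAt
    · intro x hx
      rw [interior_Ici] at hx
      have hx' : (0 : ℝ) < x := hx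
      rw [(hd x hx'.le).deriv]
      positivity
  have h := hm (show (0 : ℝ) ∈ Set.Ici 0 from Set.mem_Ici.2 le_rfl) (show u ∈ Set.Ici 0 from hu) hu
  simp at h
  linarith

theorem CTN_A : 2 * (1 / 7 + (1 / 7) ^ 3 / 3 + (1 / 7) ^ 5 / 5) ≤ Real.log (4 / 3) := by
  have h := Real.hasSum_log_sub_log_of_abs_lt_one (x := 1 / 7) (by rw [abs_of_pos] <;> norm_num)
  have h1 := sum_le_hasSum (Finset.range 3) (fun k _ => by positivity) h
  have h2 : Real.log (4 / 3) = Real.log (1 + 1 / 7) - Real.log (1 - 1 / 7) := by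
    rw [← Real.log_div (by norm_num) (by norm_num)]
    norm_num
  rw [h2]
  refine le_trans (le_of_eq ?_) h1
  simp [Finset.sum_range_succ]
  norm_num

/-- Proof. With `u = 1 - 3x ∈ [0, 5/8]`: `log (2 - 3x) = log (1 + u) ≤ u - u²/2 + u³/3`, and
`u - u²/2 + u³/3 = 5/6 - 3 x + (9/2) x² - 9 x³` (`= g(x)`), `g(x)/(x (1 - x)) = (5/6)/x - (20/3)/(1 - x) + 9/2 + 9 x`
(`g(0) = 5/6`, `g(1) = -20/3`). So the integral is at most
`(5/6) log (8/3) + (20/3) log ((2/3)/(7/8)) + (9/2)(5/24) + (9/2)(1/9 - 1/64) = 0.37165...`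
(`log (16/21)`); bounds for `log 2`, `log 3`, `log 7` to `5` digits, or rational bounds for `exp`. -/
theorem switch_int :
    ∫ x in (1 / 8 : ℝ)..(1 / 3 : ℝ), Real.log (2 - 3 * x) / (x * (1 - x)) ≤ 372 / 1000 := by
  have hmem : ∀ x ∈ Set.uIcc (1 / 8 : ℝ) (1 / 3), 1 / 8 ≤ x ∧ x ≤ 1 / 3 := by
    intro x hx
    rw [Set.uIcc_of_le (by norm_num)] at hx
    exact ⟨hx.1, hx.2⟩
  have hc1 : ContinuousOn (fun x : ℝ => Real.log (2 - 3 * x) / (x * (1 - x)))
      (Set.uIcc (1 / 8 : ℝ) (1 / 3)) := by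
    apply ContinuousOn.div
    · apply ContinuousOn.log
      · fun_prop
      · intro x hx
        obtain ⟨h1, h2⟩ := hmem x hx
        linarith
    · fun_prop
    · intro x hx
      obtain ⟨h1, h2⟩ := hmem x hx
      have : 0 < x * (1 - x) := mul_pos (by linarith) (by linarith)
      exact this.ne'
  have hc2 : ContinuousOn (fun x : ℝ => (5 / 6) / x - (20 / 3) / (1 - x) + 9 / 2 + 9 * x)
      (Set.uIcc (1 / 8 : ℝ) (1 / 3)) := by
    apply ContinuousOn.add
    · apply ContinuousOn.add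
      · apply ContinuousOn.sub
        · apply ContinuousOn.div continuousOn_const continuousOn_id
          intro x hx
          obtain ⟨h1, h2⟩ := hmem x hx
          show x ≠ 0
          linarith
        · apply ContinuousOn.div continuousOn_const (by fun_prop)
          intro x hx
          obtain ⟨h1, h2⟩ := hmem x hx
          linarith
      · fun_prop
    · fun_prop
  have hle : ∫ x in (1 / 8 : ℝ)..(1 / 3 : ℝ), Real.log (2 - 3 * x) / (x * (1 - x)) ≤
      ∫ x in (1 / 8 : ℝ)..(1 / 3 : ℝ), ((5 / 6) / x - (20 / 3) / (1 - x) + 9 / 2 + 9 * x) := by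
    apply intervalIntegral.integral_mono_on (by norm_num) hc1.intervalIntegrable
      hc2.intervalIntegrable
    intro x hx
    obtain ⟨h1, h2⟩ := hx
    have hx0 : 0 < x := by linarith
    have hx1 : 0 < 1 - x := by linarith
    have h3 := CTN_log (u := 1 - 3 * x) (by linarith)
    have e : (1 : ℝ) + (1 - 3 * x) = 2 - 3 * x := by ring
    rw [e] at h3
    rw [div_le_iff₀ (mul_pos hx0 hx1)]
    refine h3.trans (le_of_eq ?_)
    field_simp
    ring
  refine hle.trans ?_
  have hd : ∀ x ∈ Set.uIcc (1 / 8 : ℝ) (1 / 3), HasDerivAt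
      (fun x : ℝ => (5 / 6) * Real.log x + (20 / 3) * Real.log (1 - x) + 9 / 2 * x + 9 / 2 * x ^ 2)
      ((5 / 6) / x - (20 / 3) / (1 - x) + 9 / 2 + 9 * x) x := by
    intro x hx
    obtain ⟨h1, h2⟩ := hmem x hx
    have hx0 : x ≠ 0 := by linarith
    have hx1 : 1 - x ≠ 0 := by linarith
    have a1 := (Real.hasDerivAt_log hx0).const_mul (5 / 6)
    have a2 := (((hasDerivAt_id x).const_sub 1).log hx1).const_mul (20 / 3)
    have a3 := (hasDerivAt_id x).const_mul (9 / 2)
    have a4 := ((hasDerivAt_id x).pow 2).const_mul (9 / 2)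
    refine (((a1.add a2).add a3).add a4).congr_deriv ?_
    simp only [id]
    push_cast
    field_simp
    ring
  rw [intervalIntegral.integral_eq_sub_of_hasDerivAt hd hc2.intervalIntegrable]
  have l2 := Real.log_two_lt_d9
  have lA := CTN_A
  have l63 : Real.log (64 / 63) ≤ 1 / 63 - (1 / 63) ^ 2 / 2 + (1 / 63) ^ 3 / 3 := by
    have := CTN_log (u := 1 / 63) (by norm_num)
    have e : (1 : ℝ) + 1 / 63 = 64 / 63 := by norm_num
    rwa [e] at this
  have n2 : (0 : ℝ) < 2 := by norm_num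
  have e1 : Real.log (1 / 3) - Real.log (1 / 8) = Real.log (4 / 3) + Real.log 2 := by
    rw [← Real.log_div (by norm_num) (by norm_num), ← Real.log_mul (by norm_num) (by norm_num)]
    norm_num
  have e2 : Real.log (1 - 1 / 3) - Real.log (1 - 1 / 8) =
      Real.log (64 / 63) - Real.log (4 / 3) := by
    rw [← Real.log_div (by norm_num) (by norm_num), ← Real.log_div (by norm_num) (by norm_num)]
    norm_num
  have e : (5 / 6 * Real.log (1 / 3) + 20 / 3 * Real.log (1 - 1 / 3) + 9 / 2 * (1 / 3) +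
      9 / 2 * (1 / 3) ^ 2) - (5 / 6 * Real.log (1 / 8) + 20 / 3 * Real.log (1 - 1 / 8) +
      9 / 2 * (1 / 8) + 9 / 2 * (1 / 8) ^ 2) = 5 / 6 * (Real.log (4 / 3) + Real.log 2) +
      20 / 3 * (Real.log (64 / 63) - Real.log (4 / 3)) + 175 / 128 := by
    rw [← e1, ← e2]
    ring
  rw [e]
  norm_num at *
  linarith

end Pool.Agent.Lib.H59C
end

-- from Lib.H59C.SW3
section

/-!
# SW3: the conductor of a real primitive character has a large prime factor
-/

open Finset

namespace Pool.Agent.Lib.H59C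

theorem SW3_aux (r d : ℕ) [NeZero r] (hd : d ∣ r) (hdr : d < r) (ψ : DirichletCharacter ℂ r)
    (hψ : ψ.IsPrimitive) (h2 : ψ ^ 2 = 1)
    (h : ∀ t : ℤ, ∃ y : ZMod r, y ^ 2 = 1 + (d : ZMod r) * (t : ZMod r)) : False := by
  have hfac : ψ.FactorsThrough d := by
    rw [DirichletCharacter.factorsThrough_iff_ker_unitsMap hd]
    intro x hx
    rw [MonoidHom.mem_ker] at hx ⊢
    have h1 : (((x : ZMod r).val : ℤ) : ZMod d) = 1 := by
      have h3 := congrArg Units.val hx
      rw [ZMod.unitsMap_val, Units.val_one, ZMod.cast_eq_val] at h3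
      rw [Int.cast_natCast]
      exact h3
    have h4 : (d : ℤ) ∣ ((x : ZMod r).val : ℤ) - 1 := by
      rw [← ZMod.intCast_zmod_eq_zero_iff_dvd]
      rw [Int.cast_sub, h1, Int.cast_one, sub_self]
    obtain ⟨t, ht⟩ := h4
    have h5 : (x : ZMod r) = 1 + (d : ZMod r) * (t : ZMod r) := by
      have h6 := congrArg (fun z : ℤ => (z : ZMod r)) ht
      simp only [Int.cast_sub, Int.cast_natCast, Int.cast_one, Int.cast_mul] at h6
      rw [ZMod.natCast_zmod_val] at h6
      linear_combination h6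
    obtain ⟨y, hy⟩ := h t
    rw [← h5] at hy
    have hyu : IsUnit y := by
      have : IsUnit (y ^ 2) := by rw [hy]; exact x.isUnit
      exact (isUnit_pow_iff two_ne_zero).1 this
    apply Units.ext
    rw [MulChar.coe_toUnitHom, Units.val_one, ← hy, map_pow, ← MulChar.pow_apply' ψ two_ne_zero, h2]
    exact MulChar.one_apply hyu
  have h7 : ψ.conductor ≤ d := Nat.sInf_le hfac
  have h8 : ψ.conductor = r := hψ
  omega

/-- If `q = p²`-divisible for an odd prime `p`, or `16 ∣ r`, a real character mod `r` is not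
primitive.

Proof. Let `p² ∣ r`, `p` odd (resp. `p = 2`, `16 ∣ r`), `r' = r/p`. If `x ≡ 1 mod r'`, `x = 1 + r' t`, then `x`
is a square mod `r`: for odd `p` choose `t'` with `2 t' ≡ t mod p`; `(1 + r' t')² = 1 + 2 r' t' + r'² t'²`,
and `r ∣ r'²` since `p² ∣ r`, `2 r' t' ≡ r' t mod r`. For `p = 2`: `(1 + (r/4) t)² = 1 + (r/2) t + (r/4)² t²`,
`r ∣ (r/4)²` as `16 ∣ r`. So `ψ(x) = ψ(y)² = 1` for all units `x ≡ 1 mod r'`, i.e. `ψ` factors through
`r' < r` (`DirichletCharacter.factorsThrough_iff_ker_unitsMap`, `conductor_le...`), contradicting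
`IsPrimitive`. -/
theorem cond_sq (r : ℕ) [NeZero r] (ψ : DirichletCharacter ℂ r) (hψ : ψ.IsPrimitive)
    (h2 : ψ ^ 2 = 1) : (∀ p : ℕ, p.Prime → p ≠ 2 → ¬ p ^ 2 ∣ r) ∧ ¬ 16 ∣ r := by
  have hr : r ≠ 0 := NeZero.ne r
  have h0 : ((r : ℕ) : ZMod r) = 0 := ZMod.natCast_self r
  constructor
  · rintro p hp hp2 ⟨k, hk⟩
    have hk0 : 0 < k := Nat.pos_of_ne_zero (by rintro rfl; rw [mul_zero] at hk; exact hr hk)
    obtain ⟨s, hs⟩ := hp.odd_of_ne_two hp2
    refine SW3_aux r (p * k) ⟨p, by rw [hk]; ring⟩ ?_ ψ hψ h2 fun t => ?_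
    · rw [hk]
      have := hp.two_le
      nlinarith
    · refine ⟨1 + ((p * k : ℕ) : ZMod r) * (((s : ℤ) + 1) * t : ℤ), ?_⟩
      have h3 : (p : ZMod r) ^ 2 * (k : ZMod r) = 0 := by
        have e := congrArg (fun n : ℕ => (n : ZMod r)) hk
        push_cast at e
        rw [← e]
        exact h0
      have h4 : (p : ZMod r) = 2 * (s : ZMod r) + 1 := by
        have := congrArg (fun n : ℕ => (n : ZMod r)) hs
        push_cast at this
        exact this
      push_cast
      linear_combination ((t : ZMod r) + (k : ZMod r) * (((s : ZMod r) + 1) * (t : ZMod r)) ^ 2) * h3 -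
        (p : ZMod r) * (k : ZMod r) * (t : ZMod r) * h4
  · rintro ⟨k, hk⟩
    have hk0 : 0 < k := Nat.pos_of_ne_zero (by rintro rfl; rw [mul_zero] at hk; exact hr hk)
    refine SW3_aux r (8 * k) ⟨2, by rw [hk]; ring⟩ (by omega) ψ hψ h2 fun t => ?_
    refine ⟨1 + ((4 * k : ℕ) : ZMod r) * (t : ZMod r), ?_⟩
    have h3 : 16 * (k : ZMod r) = 0 := by
      have e := congrArg (fun n : ℕ => (n : ZMod r)) hk
      push_cast at e
      rw [← e]
      exact h0
    push_cast
    linear_combination (k : ZMod r) * (t : ZMod r) ^ 2 * h3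

/-- So `r` divides `8 ∏_{q ∣ r} q`, and if all prime factors of `r` are `< K` then `r ≤ 8 K^K`
(`primorial`). -/
theorem large_prime (K : ℕ) : ∃ r0 : ℕ, ∀ r : ℕ, r0 ≤ r → ∀ [NeZero r],
    ∀ ψ : DirichletCharacter ℂ r, ψ.IsPrimitive → ψ ^ 2 = 1 →
    ∃ q : ℕ, q.Prime ∧ K ≤ q ∧ q ∣ r := by
  refine ⟨(K ^ 3) ^ K + 1, fun r hr _ ψ hψ h2 => ?_⟩
  by_contra hno
  push Not at hno
  have hr0 : r ≠ 0 := NeZero.ne r
  obtain ⟨c1, c2⟩ := cond_sq r ψ hψ h2
  have hlt : ∀ q ∈ r.primeFactors, q < K := by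
    intro q hq
    by_contra hK
    exact hno q (Nat.prime_of_mem_primeFactors hq) (not_lt.1 hK) (Nat.dvd_of_mem_primeFactors hq)
  have hv : ∀ q ∈ r.primeFactors, r.factorization q ≤ 3 := by
    intro q hq
    have hqp := Nat.prime_of_mem_primeFactors hq
    by_contra h3
    have h4 : q ^ 4 ∣ r := (hqp.pow_dvd_iff_le_factorization hr0).2 (by omega)
    by_cases hq2 : q = 2
    · subst hq2
      exact c2 (by simpa using h4)
    · exact c1 q hqp hq2 ((pow_dvd_pow q (by norm_num)).trans h4)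
  have h1 : r ≤ (K ^ 3) ^ r.primeFactors.card := by
    conv_lhs => rw [← Nat.prod_factorization_pow_eq_self hr0]
    rw [Finsupp.prod, Nat.support_factorization]
    rw [← Finset.prod_const]
    apply Finset.prod_le_prod'
    intro q hq
    have hqp := Nat.prime_of_mem_primeFactors hq
    calc q ^ r.factorization q ≤ q ^ 3 := Nat.pow_le_pow_right hqp.pos (hv q hq)
      _ ≤ K ^ 3 := Nat.pow_le_pow_left (hlt q hq).le 3
  have h5 : r.primeFactors.card ≤ K := by
    have : r.primeFactors ⊆ range K := fun q hq => mem_range.2 (hlt q hq)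
    simpa using card_le_card this
  rcases Nat.eq_zero_or_pos K with rfl | hK
  · have h6 : r.primeFactors.card = 0 := by omega
    rw [h6] at h1
    simp only [pow_zero] at h1 hr
    omega
  · have h6 : (K ^ 3) ^ r.primeFactors.card ≤ (K ^ 3) ^ K :=
      Nat.pow_le_pow_right (by positivity) h5
    omega

end Pool.Agent.Lib.H59C
end

-- from Lib.H59C.LSA0
section

/-!
# LSA0: duality
-/

open Finset

namespace Pool.Agent.Lib.H59C

/-- Duality principle for finite matrices: a bound for the matrix gives the same bound for the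
transposed one.

Proof. Let `x j = ∑_i conj (T i) K i j` with `T i = ∑_j a j K i j`. Then
`∑_i |T i|² = ∑_j a j x j ≤ (∑ |a|²)^(1/2) (∑_j |x j|²)^(1/2)`, and the hypothesis with
`c i = conj (T i)` gives `∑_j |x j|² ≤ B ∑_i |T i|²`. -/
theorem lsa_dual {ι κ : Type*} (I : Finset ι) (J : Finset κ) (K : ι → κ → ℂ) (B : ℝ) (hB : 0 ≤ B)
    (h : ∀ c : ι → ℂ, ∑ j ∈ J, ‖∑ i ∈ I, c i * K i j‖ ^ 2 ≤ B * ∑ i ∈ I, ‖c i‖ ^ 2) (a : κ → ℂ) :
    ∑ i ∈ I, ‖∑ j ∈ J, a j * K i j‖ ^ 2 ≤ B * ∑ j ∈ J, ‖a j‖ ^ 2 := by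
  obtain ⟨T, hT⟩ : ∃ T : ι → ℂ, ∀ i, T i = ∑ j ∈ J, a j * K i j := ⟨_, fun _ => rfl⟩
  obtain ⟨x, hx⟩ : ∃ x : κ → ℂ, ∀ j, x j = ∑ i ∈ I, star (T i) * K i j := ⟨_, fun _ => rfl⟩
  simp only [← hT]
  obtain ⟨S, hS⟩ : ∃ S : ℝ, S = ∑ i ∈ I, ‖T i‖ ^ 2 := ⟨_, rfl⟩
  obtain ⟨A, hA⟩ : ∃ A : ℝ, A = ∑ j ∈ J, ‖a j‖ ^ 2 := ⟨_, rfl⟩
  have hS0 : 0 ≤ S := by rw [hS]; positivity
  have hA0 : 0 ≤ A := by rw [hA]; positivity
  have h1 : ((S : ℝ) : ℂ) = ∑ j ∈ J, a j * x j := by
    have e1 : ∑ j ∈ J, a j * x j = ∑ i ∈ I, ∑ j ∈ J, a j * (star (T i) * K i j) := by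
      rw [sum_comm]
      exact sum_congr rfl fun j _ => by rw [hx, mul_sum]
    rw [e1, hS, Complex.ofReal_sum]
    refine sum_congr rfl fun i _ => ?_
    have e2 : ∑ j ∈ J, a j * (star (T i) * K i j) = star (T i) * T i := by
      conv_rhs => rw [hT i, mul_sum]
      refine sum_congr rfl fun j _ => ?_
      rw [hT i]
      ring
    rw [e2, Complex.ofReal_pow]
    exact (Complex.conj_mul' (T i)).symm
  have h2 : S ≤ ∑ j ∈ J, ‖a j‖ * ‖x j‖ := by
    have e1 : S = ‖((S : ℝ) : ℂ)‖ := by rw [Complex.norm_real, Real.norm_of_nonneg hS0]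
    rw [e1, h1]
    refine (norm_sum_le _ _).trans (le_of_eq ?_)
    exact sum_congr rfl fun j _ => norm_mul _ _
  have h3 : S ^ 2 ≤ A * ∑ j ∈ J, ‖x j‖ ^ 2 := by
    rw [hA]
    exact (pow_le_pow_left₀ hS0 h2 2).trans (sum_mul_sq_le_sq_mul_sq _ _ _)
  have h4 : ∑ j ∈ J, ‖x j‖ ^ 2 ≤ B * S := by
    have := h (fun i => star (T i))
    simp only [norm_star, ← hx] at this
    rwa [← hS] at this
  rw [← hS, ← hA]
  have h5 : S * S ≤ (B * A) * S := by
    have := h3.trans (mul_le_mul_of_nonneg_left h4 hA0)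
    nlinarith
  rcases hS0.eq_or_lt with h6 | h6
  · rw [← h6]
    positivity
  · exact le_of_mul_le_mul_right h5 h6

end Pool.Agent.Lib.H59C
end

-- from Lib.H59C.SEP
section

/-!
# SEP: exact separation of variables
-/

open MeasureTheory FourierTransform

namespace Pool.Agent.Lib.H59C

theorem sep_ft_eq (a b : ℝ) (hab : a ≤ b) (c : ℂ) (t : ℝ) :
    𝓕 (Set.indicator (Set.Icc a b) (fun _ => c)) t =
      (∫ v in a..b, Complex.exp ((-(2 * Real.pi * t) * Complex.I) * v)) * c := by
  rw [Real.fourier_real_eq_integral_exp_smul]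
  have h1 : ∀ v : ℝ, Complex.exp (((-2 * Real.pi * v * t : ℝ) : ℂ) * Complex.I) •
      Set.indicator (Set.Icc a b) (fun _ => c) v =
      Set.indicator (Set.Icc a b) (fun v : ℝ =>
        Complex.exp ((-(2 * Real.pi * t) * Complex.I) * v) * c) v := by
    intro v
    by_cases hv : v ∈ Set.Icc a b
    · rw [Set.indicator_of_mem hv, Set.indicator_of_mem hv, smul_eq_mul]
      congr 2
      push_cast
      ring
    · rw [Set.indicator_of_notMem hv, Set.indicator_of_notMem hv, smul_zero]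
  rw [integral_congr_ae (Filter.Eventually.of_forall h1), integral_indicator measurableSet_Icc,
    integral_Icc_eq_integral_Ioc, ← intervalIntegral.integral_of_le hab,
    intervalIntegral.integral_mul_const]

theorem sep_norm_exp (t v : ℝ) : ‖Complex.exp ((-(2 * Real.pi * t) * Complex.I) * v)‖ = 1 := by
  rw [Complex.norm_exp]
  have : ((-(2 * Real.pi * t) * Complex.I) * v : ℂ).re = 0 := by simp
  rw [this, Real.exp_zero]

theorem sep_ft_le (a b : ℝ) (hab : a ≤ b) (c : ℂ) (t : ℝ) :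
    ‖𝓕 (Set.indicator (Set.Icc a b) (fun _ => c)) t‖ ≤ (b - a) * ‖c‖ := by
  rw [sep_ft_eq a b hab, norm_mul]
  refine mul_le_mul_of_nonneg_right ?_ (norm_nonneg _)
  have h := intervalIntegral.norm_integral_le_of_norm_le_const (a := a) (b := b) (C := 1)
    (f := fun v : ℝ => Complex.exp ((-(2 * Real.pi * t) * Complex.I) * v))
    (fun v _ => (sep_norm_exp t v).le)
  rwa [one_mul, abs_of_nonneg (by linarith)] at h

theorem sep_ft_le' (a b : ℝ) (hab : a ≤ b) (c : ℂ) {t : ℝ} (ht : t ≠ 0) :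
    ‖𝓕 (Set.indicator (Set.Icc a b) (fun _ => c)) t‖ ≤ 1 / (Real.pi * |t|) * ‖c‖ := by
  rw [sep_ft_eq a b hab, norm_mul]
  refine mul_le_mul_of_nonneg_right ?_ (norm_nonneg _)
  have hc : (-(2 * Real.pi * t) * Complex.I : ℂ) ≠ 0 := by
    apply mul_ne_zero _ Complex.I_ne_zero
    rw [neg_ne_zero]
    exact_mod_cast mul_ne_zero (mul_ne_zero two_ne_zero Real.pi_ne_zero) ht
  rw [integral_exp_mul_complex hc, norm_div]
  have h1 : ‖(-(2 * Real.pi * t) * Complex.I : ℂ)‖ = 2 * Real.pi * |t| := by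
    rw [norm_mul, Complex.norm_I, mul_one, norm_neg]
    have : (2 * Real.pi * t : ℂ) = ((2 * Real.pi * t : ℝ) : ℂ) := by push_cast; ring
    rw [this, Complex.norm_real, Real.norm_eq_abs, abs_mul, abs_of_pos Real.two_pi_pos]
  have h2 : ‖Complex.exp ((-(2 * Real.pi * t) * Complex.I) * b) -
      Complex.exp ((-(2 * Real.pi * t) * Complex.I) * a)‖ ≤ 2 := by
    refine (norm_sub_le _ _).trans ?_
    rw [sep_norm_exp, sep_norm_exp]
    norm_num
  have h3 : 0 < Real.pi * |t| := mul_pos Real.pi_pos (abs_pos.2 ht)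
  rw [h1, div_le_div_iff₀ (by linarith) h3]
  nlinarith

/-- the trapezoid -/
theorem sep_conv (a b w : ℝ) (u : ℝ) :
    convolution (Set.indicator (Set.Icc a b) (fun _ => (1 : ℂ)))
      (Set.indicator (Set.Icc (-(w / 2)) (w / 2)) (fun _ => ((1 / w : ℝ) : ℂ)))
      (ContinuousLinearMap.mul ℂ ℂ) volume u =
      ((max (min b (u + w / 2) - max a (u - w / 2)) 0 * (1 / w) : ℝ) : ℂ) := by
  rw [convolution_def]
  have h1 : ∀ t : ℝ, (ContinuousLinearMap.mul ℂ ℂ) (Set.indicator (Set.Icc a b) (fun _ => (1 : ℂ)) t)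
      (Set.indicator (Set.Icc (-(w / 2)) (w / 2)) (fun _ => ((1 / w : ℝ) : ℂ)) (u - t)) =
      Set.indicator (Set.Icc (max a (u - w / 2)) (min b (u + w / 2)))
        (fun _ => ((1 / w : ℝ) : ℂ)) t := by
    intro t
    rw [ContinuousLinearMap.mul_apply']
    by_cases h1 : t ∈ Set.Icc (max a (u - w / 2)) (min b (u + w / 2))
    · rw [Set.indicator_of_mem h1]
      rw [Set.mem_Icc, max_le_iff, le_min_iff] at h1
      rw [Set.indicator_of_mem (Set.mem_Icc.2 ⟨h1.1.1, h1.2.1⟩),
        Set.indicator_of_mem (Set.mem_Icc.2 ⟨by linarith, by linarith⟩), one_mul]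
    · rw [Set.indicator_of_notMem h1]
      by_cases h2 : t ∈ Set.Icc a b
      · have h3 : u - t ∉ Set.Icc (-(w / 2)) (w / 2) := by
          intro h3
          apply h1
          rw [Set.mem_Icc] at h2 h3
          rw [Set.mem_Icc, max_le_iff, le_min_iff]
          exact ⟨⟨h2.1, by linarith⟩, ⟨h2.2, by linarith⟩⟩
        rw [Set.indicator_of_notMem h3, mul_zero]
      · rw [Set.indicator_of_notMem h2, zero_mul]
  rw [integral_congr_ae (Filter.Eventually.of_forall h1), integral_indicator measurableSet_Icc,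
    setIntegral_const, Real.volume_real_Icc, Complex.real_smul, ← Complex.ofReal_mul]

theorem sep_abs {f : ℝ → ℝ} (hf : IntegrableOn f (Set.Ioi 0)) :
    Integrable (fun x => f |x|) := by
  have hf' : IntegrableOn (fun x => f |x|) (Set.Ioi 0) := by
    refine hf.congr_fun (fun x hx => ?_) measurableSet_Ioi
    rw [abs_of_pos hx]
  have int_Iic : IntegrableOn (fun x ↦ f |x|) (Set.Iic 0) := by
    rw [← Measure.map_neg_eq_self (volume : Measure ℝ)]
    let m : MeasurableEmbedding fun x : ℝ => -x := (Homeomorph.neg ℝ).measurableEmbedding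
    rw [m.integrableOn_map_iff]
    simp_rw [Function.comp_def, abs_neg, Set.neg_preimage, Set.neg_Iic, neg_zero]
    exact Iff.mpr integrableOn_Ici_iff_integrableOn_Ioi hf'
  rw [← integrableOn_univ, ← Set.Iic_union_Ioi (a := (0 : ℝ))]
  exact int_Iic.union hf'

/-- the majorant -/
noncomputable def sepH (A D ε : ℝ) (x : ℝ) : ℝ := if x ≤ 1 then A else D * x ^ (-1 - ε)

theorem sepH_int (A D ε : ℝ) (hε : 0 < ε) : IntegrableOn (sepH A D ε) (Set.Ioi 0) ∧
    ∫ x in Set.Ioi 0, sepH A D ε x = A + D / ε := by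
  have hu : Set.Ioi (0 : ℝ) = Set.Ioc 0 1 ∪ Set.Ioi 1 := by
    rw [Set.Ioc_union_Ioi_eq_Ioi zero_le_one]
  have hd : Disjoint (Set.Ioc (0 : ℝ) 1) (Set.Ioi 1) := by
    rw [Set.disjoint_left]
    intro x hx hx2
    exact absurd hx.2 (not_le.2 hx2)
  have e1 : Set.EqOn (fun _ => A) (sepH A D ε) (Set.Ioc 0 1) := by
    intro x hx
    show A = sepH A D ε x
    rw [sepH, if_pos hx.2]
  have e2 : Set.EqOn (fun x => D * x ^ (-1 - ε)) (sepH A D ε) (Set.Ioi 1) := by
    intro x hx
    show D * x ^ (-1 - ε) = sepH A D ε x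
    rw [sepH, if_neg (not_le.2 hx)]
  have i1 : IntegrableOn (sepH A D ε) (Set.Ioc 0 1) := by
    refine IntegrableOn.congr_fun ?_ e1 measurableSet_Ioc
    exact integrableOn_const (by simp)
  have i2 : IntegrableOn (sepH A D ε) (Set.Ioi 1) := by
    refine IntegrableOn.congr_fun ?_ e2 measurableSet_Ioi
    exact (integrableOn_Ioi_rpow_of_lt (by linarith) zero_lt_one).const_mul D
  refine ⟨?_, ?_⟩
  · rw [hu]
    exact i1.union i2
  · rw [hu, setIntegral_union hd measurableSet_Ioi i1 i2,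
      ← setIntegral_congr_fun measurableSet_Ioc e1, ← setIntegral_congr_fun measurableSet_Ioi e2,
      integral_const_mul, integral_Ioi_rpow_of_lt (by linarith) zero_lt_one, Real.one_rpow,
      setIntegral_const, Real.volume_real_Ioc]
    have : -1 - ε + 1 = -ε := by ring
    rw [this, neg_div_neg_eq, max_eq_left (by norm_num)]
    simp
    ring

theorem sep_cont {f : ℝ → ℂ} (hf : Integrable f) : Continuous (𝓕 f) :=
  VectorFourier.fourierIntegral_continuous Real.continuous_fourierChar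
    (innerSL ℝ).continuous₂ hf

theorem sep_ind (a b : ℝ) (c : ℂ) : Integrable (Set.indicator (Set.Icc a b) (fun _ => c)) := by
  rw [integrable_indicator_iff measurableSet_Icc]
  exact integrableOn_const (by simp)

/-- the pointwise bound -/
theorem sep_bound (a b w : ℝ) (hab : a ≤ b) (hw : 0 < w) (ε : ℝ) (hε : 0 < ε) (hε1 : ε ≤ 1)
    (t : ℝ) :
    ‖𝓕 (Set.indicator (Set.Icc a b) (fun _ => (1 : ℂ))) t *
      𝓕 (Set.indicator (Set.Icc (-(w / 2)) (w / 2)) (fun _ => ((1 / w : ℝ) : ℂ))) t‖ ≤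
      sepH (b - a) ((1 / w) ^ ε) ε |t| := by
  have hc : ‖((1 / w : ℝ) : ℂ)‖ = 1 / w := by
    rw [Complex.norm_real, Real.norm_of_nonneg (by positivity)]
  have h2 := sep_ft_le (-(w / 2)) (w / 2) (by linarith) ((1 / w : ℝ) : ℂ) t
  have h2' : ‖𝓕 (Set.indicator (Set.Icc (-(w / 2)) (w / 2)) (fun _ => ((1 / w : ℝ) : ℂ))) t‖ ≤ 1 := by
    refine h2.trans (le_of_eq ?_)
    rw [hc]
    field_simp
    ring
  rw [norm_mul, sepH]
  split_ifs with ht
  · have h1 := sep_ft_le a b hab 1 t
    rw [norm_one, mul_one] at h1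
    calc _ ≤ (b - a) * 1 := mul_le_mul h1 h2' (norm_nonneg _) (by linarith)
      _ = b - a := mul_one _
  · push Not at ht
    have ht0 : t ≠ 0 := by
      rintro rfl
      rw [abs_zero] at ht
      linarith
    have hat : 0 < |t| := abs_pos.2 ht0
    have h1 := sep_ft_le' a b hab 1 ht0
    rw [norm_one, mul_one] at h1
    have h3 := sep_ft_le' (-(w / 2)) (w / 2) (by linarith) ((1 / w : ℝ) : ℂ) ht0
    rw [hc] at h3
    have hpi : 1 ≤ Real.pi := by linarith [Real.pi_gt_three]
    have h4 : 1 / (Real.pi * |t|) ≤ 1 / |t| := by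
      apply one_div_le_one_div_of_le hat
      nlinarith
    have h5 : ‖𝓕 (Set.indicator (Set.Icc (-(w / 2)) (w / 2)) (fun _ => ((1 / w : ℝ) : ℂ))) t‖ ≤
        (1 / |t| * (1 / w)) ^ ε := by
      have h6 : ‖𝓕 (Set.indicator (Set.Icc (-(w / 2)) (w / 2)) (fun _ => ((1 / w : ℝ) : ℂ))) t‖ ≤
          1 / |t| * (1 / w) := h3.trans (mul_le_mul_of_nonneg_right h4 (by positivity))
      rcases le_total (1 / |t| * (1 / w)) 1 with h7 | h7
      · refine h6.trans ?_
        conv_lhs => rw [← Real.rpow_one (1 / |t| * (1 / w))]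
        exact Real.rpow_le_rpow_of_exponent_ge (by positivity) h7 hε1
      · exact h2'.trans (Real.one_le_rpow h7 hε.le)
    calc _ ≤ 1 / |t| * (1 / |t| * (1 / w)) ^ ε :=
          mul_le_mul (h1.trans h4) h5 (norm_nonneg _) (by positivity)
      _ = (1 / w) ^ ε * |t| ^ (-1 - ε) := by
        rw [Real.mul_rpow (by positivity) (by positivity), Real.rpow_sub hat, Real.rpow_neg_one,
          Real.div_rpow zero_le_one hat.le, Real.one_rpow]
        field_simp

/-- For every `y ≥ 2` the indicator function of the integers `k ≤ y` is a combination of the functions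
`k^(it)` with total weight `O(log y)`.

Proof. Let `Φ : ℝ → ℝ` be the trapezoid with `Φ = 1` on `[0, log y]`, `Φ = 0` outside
`[-w, log y + w]`, `w = log (y+1) - log y ≥ 1/(2y)`, linear in between. Then `Φ(log k) = 1` for
`1 ≤ k ≤ y` and `= 0` for the integers `k ≥ y + 1`. `Φ = (1/w) 1_[-w/2, log y + w/2] * 1_[-w/2, w/2]`
(convolution), so `|Φ̂(t)| ≤ min (log y + w, 1/(π|t|), 1/(π² t² w))` (Fourier transform, `e^(-2πi t u)`;
one can compute it directly, by two integrations by parts on the linear pieces), which is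
integrable with `∫ |Φ̂| ≤ C (1 + log (1/w) ...) ≤ C' log y`: split at `|t| = 1` and `|t| = 1/w`.
`Φ` is continuous and integrable, `Φ̂` integrable, hence Fourier inversion (Mathlib:
`MeasureTheory.Integrable.fourierInv_fourier_eq` or similar names, `Continuous.fourierInv_fourier_eq`):
`Φ(log k) = ∫ Φ̂(t) e^(2πi t log k) dt`; substitute `t ↦ t/(2π)`. -/
theorem sep : ∃ C : ℝ, 0 < C ∧ ∀ y : ℕ, 2 ≤ y → ∃ g : ℝ → ℂ, Integrable g ∧
    ∫ t, ‖g t‖ ≤ C * Real.log y ∧ ∀ k : ℕ, 1 ≤ k →
      ∫ t, g t * (k : ℂ) ^ ((t : ℂ) * Complex.I) = if k ≤ y then 1 else 0 := by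
  refine ⟨16, by norm_num, fun y hy => ?_⟩
  have hy2 : (2 : ℝ) ≤ y := by exact_mod_cast hy
  obtain ⟨L, hL⟩ : ∃ L, L = Real.log y := ⟨_, rfl⟩
  obtain ⟨w, hw⟩ : ∃ w, w = Real.log (y + 1) - Real.log y := ⟨_, rfl⟩
  have hL0 : 0.6 < L := by
    have := Real.log_two_gt_d9
    have h2 := Real.log_le_log (by norm_num) hy2
    rw [hL]
    linarith
  have hw1 : w = Real.log (1 + 1 / y) := by
    rw [hw, ← Real.log_div (by positivity) (by positivity)]
    congr 1
    field_simp
  have hwlow : 1 / (2 * (y : ℝ)) ≤ w := by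
    rw [hw1]
    have h1 := Real.one_sub_inv_le_log_of_pos (x := 1 + 1 / (y : ℝ)) (by positivity)
    refine le_trans ?_ h1
    have h2 : 1 - (1 + 1 / (y : ℝ))⁻¹ = 1 / (y + 1) := by
      field_simp
      ring
    rw [h2]
    apply one_div_le_one_div_of_le (by positivity)
    linarith
  have hw0 : 0 < w := lt_of_lt_of_le (by positivity) hwlow
  have hwup : w ≤ 1 / 2 := by
    rw [hw1]
    have h1 := Real.log_le_sub_one_of_pos (x := 1 + 1 / (y : ℝ)) (by positivity)
    have h2 : 1 / (y : ℝ) ≤ 1 / 2 := one_div_le_one_div_of_le (by norm_num) hy2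
    linarith
  have hl2 : Real.log (2 * y) ≤ 2 * L := by
    rw [Real.log_mul (by norm_num) (by positivity), hL]
    have h2 := Real.log_le_log (by norm_num) hy2
    linarith
  have hl1 : 1 ≤ Real.log (2 * y) := by
    rw [Real.log_mul (by norm_num) (by positivity), ← hL]
    have := Real.log_two_gt_d9
    linarith
  obtain ⟨ε, hε⟩ : ∃ ε, ε = 1 / Real.log (2 * y) := ⟨_, rfl⟩
  have hε0 : 0 < ε := by rw [hε]; positivity
  have hε1 : ε ≤ 1 := by
    rw [hε, div_le_one (by linarith)]
    exact hl1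
  obtain ⟨f₁, hf₁⟩ : ∃ f₁ : ℝ → ℂ, f₁ = Set.indicator (Set.Icc (-(w / 2)) (L + w / 2))
    (fun _ => (1 : ℂ)) := ⟨_, rfl⟩
  obtain ⟨f₂, hf₂⟩ : ∃ f₂ : ℝ → ℂ, f₂ = Set.indicator (Set.Icc (-(w / 2)) (w / 2))
    (fun _ => ((1 / w : ℝ) : ℂ)) := ⟨_, rfl⟩
  have hi₁ : Integrable f₁ := by rw [hf₁]; exact sep_ind _ _ _
  have hi₂ : Integrable f₂ := by rw [hf₂]; exact sep_ind _ _ _
  obtain ⟨Φ, hΦ⟩ : ∃ Φ : ℝ → ℂ, Φ = convolution f₁ f₂ (ContinuousLinearMap.mul ℂ ℂ) volume :=
    ⟨_, rfl⟩
  have hΦe : ∀ u, Φ u = ((max (min (L + w / 2) (u + w / 2) - max (-(w / 2)) (u - w / 2)) 0 *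
      (1 / w) : ℝ) : ℂ) := by
    intro u
    rw [hΦ, hf₁, hf₂]
    exact sep_conv _ _ _ _
  have hΦc : Continuous Φ := by
    have : Φ = fun u => ((max (min (L + w / 2) (u + w / 2) - max (-(w / 2)) (u - w / 2)) 0 *
      (1 / w) : ℝ) : ℂ) := funext hΦe
    rw [this]
    fun_prop
  have hΦi : Integrable Φ := by
    rw [hΦ]
    exact hi₁.integrable_convolution _ hi₂
  have hΦF : ∀ t, 𝓕 Φ t = 𝓕 f₁ t * 𝓕 f₂ t := by
    intro t
    rw [hΦ]
    exact Real.fourier_mul_convolution_eq hi₁ hi₂ t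
  have hbd : ∀ t, ‖𝓕 Φ t‖ ≤ sepH (L + w) ((1 / w) ^ ε) ε |t| := by
    intro t
    rw [hΦF, hf₁, hf₂]
    have h := sep_bound (-(w / 2)) (L + w / 2) w (by linarith) hw0 ε hε0 hε1 t
    have e1 : L + w / 2 - -(w / 2) = L + w := by ring
    rwa [e1] at h
  obtain ⟨hH1, hH2⟩ := sepH_int (L + w) ((1 / w) ^ ε) ε hε0
  have hH3 := sep_abs hH1
  have hFi : Integrable (𝓕 Φ) :=
    hH3.mono' (sep_cont hΦi).aestronglyMeasurable (Filter.Eventually.of_forall hbd)
  have hFn : ∫ t, ‖𝓕 Φ t‖ ≤ 16 * L := by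
    have h1 : ∫ t, ‖𝓕 Φ t‖ ≤ ∫ t, sepH (L + w) ((1 / w) ^ ε) ε |t| :=
      integral_mono hFi.norm hH3 hbd
    rw [integral_comp_abs, hH2] at h1
    have h2 : (1 / w) ^ ε ≤ 3 := by
      have h3 : 1 / w ≤ 2 * y := by
        rw [div_le_iff₀ hw0]
        rw [div_le_iff₀ (by positivity)] at hwlow
        linarith
      have h4 : (1 / w) ^ ε ≤ (2 * (y : ℝ)) ^ ε :=
        Real.rpow_le_rpow (by positivity) h3 hε0.le
      have h5 : (2 * (y : ℝ)) ^ ε = Real.exp 1 := by
        rw [Real.rpow_def_of_pos (by positivity), hε]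
        congr 1
        field_simp
      have h6 := Real.exp_one_lt_d9
      linarith
    have h3 : (1 / w) ^ ε / ε ≤ 3 * (2 * L) := by
      have h4 : (1 / w) ^ ε / ε = (1 / w) ^ ε * Real.log (2 * y) := by
        rw [hε]
        field_simp
      rw [h4]
      exact mul_le_mul h2 hl2 (by linarith) (by norm_num)
    linarith
  have hpi : (2 * Real.pi : ℝ) ≠ 0 := Real.two_pi_pos.ne'
  refine ⟨fun t => (((2 * Real.pi)⁻¹ : ℝ) : ℂ) * 𝓕 Φ (t / (2 * Real.pi)), ?_, ?_, ?_⟩
  · exact (hFi.comp_div hpi).const_mul _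
  · have h1 : ∀ t : ℝ, ‖(((2 * Real.pi)⁻¹ : ℝ) : ℂ) * 𝓕 Φ (t / (2 * Real.pi))‖ =
        (2 * Real.pi)⁻¹ * ‖𝓕 Φ (t / (2 * Real.pi))‖ := by
      intro t
      rw [norm_mul, Complex.norm_real, Real.norm_of_nonneg (by positivity)]
    rw [integral_congr_ae (Filter.Eventually.of_forall h1), integral_const_mul,
      Measure.integral_comp_div (fun s => ‖𝓕 Φ s‖), abs_of_pos Real.two_pi_pos, smul_eq_mul,
      ← mul_assoc, inv_mul_cancel₀ hpi, one_mul, ← hL]
    exact hFn
  · intro k hk
    have hk0 : (k : ℂ) ≠ 0 := by exact_mod_cast (by omega : k ≠ 0)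
    have hkr : (1 : ℝ) ≤ k := by exact_mod_cast hk
    have h1 : ∀ t : ℝ, (((2 * Real.pi)⁻¹ : ℝ) : ℂ) * 𝓕 Φ (t / (2 * Real.pi)) *
        (k : ℂ) ^ ((t : ℂ) * Complex.I) = (((2 * Real.pi)⁻¹ : ℝ) : ℂ) *
        (fun s : ℝ => Complex.exp ((((2 * Real.pi * (s * Real.log k)) : ℝ) : ℂ) * Complex.I) *
          𝓕 Φ s) (t / (2 * Real.pi)) := by
      intro t
      have e1 : (k : ℂ) ^ ((t : ℂ) * Complex.I) =
          Complex.exp ((((2 * Real.pi * (t / (2 * Real.pi) * Real.log k)) : ℝ) : ℂ) * Complex.I) := by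
        rw [Complex.cpow_def_of_ne_zero hk0, ← Complex.natCast_log]
        congr 1
        have e2 : 2 * Real.pi * (t / (2 * Real.pi) * Real.log k) = t * Real.log k := by
          field_simp
        rw [e2]
        push_cast
        ring
      rw [e1]
      ring
    rw [integral_congr_ae (Filter.Eventually.of_forall h1), integral_const_mul,
      Measure.integral_comp_div (fun s : ℝ => Complex.exp ((((2 * Real.pi * (s * Real.log k)) : ℝ) :
        ℂ) * Complex.I) * 𝓕 Φ s), abs_of_pos Real.two_pi_pos, Complex.real_smul, ← mul_assoc,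
      ← Complex.ofReal_mul, inv_mul_cancel₀ hpi, Complex.ofReal_one, one_mul]
    have h2 := congrFun (hΦc.fourierInv_fourier_eq hΦi hFi) (Real.log k)
    rw [Real.fourierInv_eq'] at h2
    have h3 : ∫ s : ℝ, Complex.exp ((((2 * Real.pi * (s * Real.log k)) : ℝ) : ℂ) * Complex.I) *
        𝓕 Φ s = Φ (Real.log k) := by
      rw [← h2]
      apply integral_congr_ae
      refine Filter.Eventually.of_forall fun s => ?_
      simp only [smul_eq_mul]
      congr 5
      simp [mul_comm]
    rw [h3, hΦe]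
    have hlk : 0 ≤ Real.log k := Real.log_nonneg hkr
    split_ifs with hky
    · have h4 : Real.log k ≤ L := by
        rw [hL]
        exact Real.log_le_log (by linarith) (by exact_mod_cast hky)
      rw [min_eq_right (by linarith), max_eq_right (a := -(w / 2)) (by linarith)]
      have h5 : Real.log k + w / 2 - (Real.log k - w / 2) = w := by ring
      rw [h5, max_eq_left hw0.le, mul_one_div_cancel hw0.ne', Complex.ofReal_one]
    · have h4 : L + w ≤ Real.log k := by
        rw [hL, hw]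
        have h5 : (y : ℝ) + 1 ≤ k := by exact_mod_cast (by omega : y + 1 ≤ k)
        have := Real.log_le_log (by positivity) h5
        linarith
      rw [min_eq_left (by linarith), max_eq_right (a := -(w / 2)) (by linarith),
        max_eq_right (by linarith), zero_mul, Complex.ofReal_zero]

end Pool.Agent.Lib.H59C
end

-- from Lib.H59C.MER0
section

/-!
# MER0: Mertens' second theorem
-/

open Finset

namespace Pool.Agent.Lib.H59C

/-- The primes in `[u, v)`. -/
noncomputable def PR (u v : ℝ) : Finset ℕ :=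
  open Classical in (range ⌈v⌉₊).filter (fun q : ℕ => q.Prime ∧ u ≤ (q : ℝ))

theorem mem_PR {u v : ℝ} {q : ℕ} : q ∈ PR u v ↔ q.Prime ∧ u ≤ (q : ℝ) ∧ (q : ℝ) < v := by
  unfold PR
  rw [Finset.mem_filter, Finset.mem_range, Nat.lt_ceil]
  tauto

open Pool.Agent.Lib.Sieve (primesUpTo mem_primesUpTo sum_log_div_le)

theorem MER0_sq : ∃ B : ℝ, 0 ≤ B ∧ ∀ s : Finset ℕ, ∑ p ∈ s, Real.log p / (p : ℝ) ^ 2 ≤ B := by
  have hs : Summable (fun n : ℕ => 2 * (1 / (n : ℝ) ^ (3 / 2 : ℝ))) :=
    (Real.summable_one_div_nat_rpow.2 (by norm_num)).mul_left 2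
  refine ⟨∑' n : ℕ, 2 * (1 / (n : ℝ) ^ (3 / 2 : ℝ)), tsum_nonneg fun n => by positivity,
    fun s => ?_⟩
  refine (Finset.sum_le_sum fun p _ => ?_).trans (hs.sum_le_tsum s fun n _ => by positivity)
  rcases Nat.eq_zero_or_pos p with rfl | hp
  · simp
  · have hp0 : (0 : ℝ) < p := by exact_mod_cast hp
    have h1 := Real.log_le_rpow_div hp0.le (show (0 : ℝ) < 1 / 2 by norm_num)
    have h2 : (p : ℝ) ^ 2 = (p : ℝ) ^ (3 / 2 : ℝ) * (p : ℝ) ^ (1 / 2 : ℝ) := by
      rw [← Real.rpow_add hp0]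
      norm_num
    rw [h2, div_le_iff₀ (by positivity)]
    have h3 : (0 : ℝ) < (p : ℝ) ^ (3 / 2 : ℝ) := by positivity
    calc Real.log p ≤ (p : ℝ) ^ (1 / 2 : ℝ) / (1 / 2) := h1
      _ = 2 * (1 / (p : ℝ) ^ (3 / 2 : ℝ)) * ((p : ℝ) ^ (3 / 2 : ℝ) * (p : ℝ) ^ (1 / 2 : ℝ)) := by
        field_simp

theorem MER0_fac (n : ℕ) (hn : 1 ≤ n) : n * Real.log n - n ≤ Real.log (n.factorial : ℝ) := by
  have hn0 : (0 : ℝ) < n := by exact_mod_cast hn
  have h1 := Real.pow_div_factorial_le_exp (n : ℝ) hn0.le n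
  have h2 : (0 : ℝ) < n.factorial := by exact_mod_cast n.factorial_pos
  have h3 := Real.log_le_log (by positivity) h1
  rw [Real.log_exp, Real.log_div (by positivity) h2.ne', Real.log_pow] at h3
  linarith

theorem MER0_val (n p : ℕ) (hp : p.Prime) :
    (n.factorial.factorization p : ℝ) ≤ n / ((p : ℝ) - 1) := by
  haveI : Fact p.Prime := ⟨hp⟩
  have h1 := sub_one_mul_padicValNat_factorial (p := p) n
  rw [Nat.factorization_def _ hp]
  have h2 : (p - 1) * padicValNat p n.factorial ≤ n := by omega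
  have hp1 : (1 : ℝ) < p := by exact_mod_cast hp.one_lt
  rw [le_div_iff₀ (by linarith)]
  have h3 : ((p - 1 : ℕ) : ℝ) * (padicValNat p n.factorial : ℝ) ≤ n := by exact_mod_cast h2
  rw [Nat.cast_sub hp.one_le] at h3
  push_cast at h3
  linarith

theorem MER0_logfac (n : ℕ) : Real.log (n.factorial : ℝ) =
    ∑ p ∈ primesUpTo n, (n.factorial.factorization p : ℝ) * Real.log p := by
  have h0 : n.factorial ≠ 0 := n.factorial_ne_zero
  have h1 : ∏ p ∈ primesUpTo n, p ^ n.factorial.factorization p = n.factorial := by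
    conv_rhs => rw [← Nat.prod_factorization_pow_eq_self h0]
    symm
    apply Finsupp.prod_of_support_subset
    · intro p hp
      rw [Nat.support_factorization, Nat.mem_primeFactors] at hp
      rw [mem_primesUpTo]
      exact ⟨hp.1, (hp.1.dvd_factorial).1 hp.2.1⟩
    · intro p _
      exact pow_zero p
  conv_lhs => rw [← h1]
  push_cast
  rw [Real.log_prod]
  · exact Finset.sum_congr rfl fun p _ => Real.log_pow _ _
  · intro p hp
    have : (p : ℝ) ≠ 0 := by exact_mod_cast (mem_primesUpTo.1 hp).1.ne_zero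
    positivity

theorem MER0_lower : ∃ C : ℝ, 0 ≤ C ∧ ∀ n : ℕ, 1 ≤ n →
    Real.log n - C ≤ ∑ p ∈ primesUpTo n, Real.log p / p := by
  obtain ⟨B, hB, hB1⟩ := MER0_sq
  refine ⟨1 + 2 * B, by linarith, fun n hn => ?_⟩
  have hn0 : (0 : ℝ) < n := by exact_mod_cast hn
  have h1 := MER0_fac n hn
  rw [MER0_logfac] at h1
  have h2 : ∑ p ∈ primesUpTo n, (n.factorial.factorization p : ℝ) * Real.log p ≤
      ∑ p ∈ primesUpTo n, (n * (Real.log p / p) + n * (2 * (Real.log p / (p : ℝ) ^ 2))) := by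
    refine Finset.sum_le_sum fun p hp => ?_
    have hp' := (mem_primesUpTo.1 hp).1
    have hp2 : (2 : ℝ) ≤ p := by exact_mod_cast hp'.two_le
    have hlog : 0 ≤ Real.log p := Real.log_nonneg (by linarith)
    have h3 := mul_le_mul_of_nonneg_right (MER0_val n p hp') hlog
    refine h3.trans ?_
    have h4 : (n : ℝ) / ((p : ℝ) - 1) ≤ n / p + n * (2 / (p : ℝ) ^ 2) := by
      rw [div_le_iff₀ (by linarith)]
      have h5 : (n : ℝ) / p + n * (2 / (p : ℝ) ^ 2) = n * ((p + 2) / (p : ℝ) ^ 2) := by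
        field_simp
      rw [h5, mul_assoc]
      have h6 : 1 ≤ ((p : ℝ) + 2) / (p : ℝ) ^ 2 * (p - 1) := by
        rw [div_mul_eq_mul_div, le_div_iff₀ (by positivity)]
        nlinarith
      nlinarith
    calc (n : ℝ) / ((p : ℝ) - 1) * Real.log p ≤ (n / p + n * (2 / (p : ℝ) ^ 2)) * Real.log p :=
          mul_le_mul_of_nonneg_right h4 hlog
      _ = _ := by ring
  rw [Finset.sum_add_distrib, ← Finset.mul_sum, ← Finset.mul_sum, ← Finset.mul_sum] at h2
  have h3 := hB1 (primesUpTo n)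
  have h4 : (n : ℝ) * Real.log n - n ≤ n * ∑ p ∈ primesUpTo n, Real.log p / p + n * (2 * B) := by
    have : (n : ℝ) * (2 * ∑ p ∈ primesUpTo n, Real.log p / (p : ℝ) ^ 2) ≤ n * (2 * B) := by
      gcongr
    linarith
  have h5 : (n : ℝ) * (Real.log n - (1 + 2 * B)) ≤ n * ∑ p ∈ primesUpTo n, Real.log p / p := by
    linarith
  exact le_of_mul_le_mul_left h5 hn0

/-- the coefficients -/
noncomputable def MER0_c (n : ℕ) : ℝ := open Classical in if n.Prime then Real.log n / n else 0

theorem MER0_sumc (n : ℕ) : ∑ k ∈ Icc 0 n, MER0_c k = ∑ p ∈ primesUpTo n, Real.log p / p := by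
  unfold primesUpTo
  rw [Finset.sum_filter]
  have : Icc 0 n = range (n + 1) := by
    ext k; simp
  rw [this]
  unfold MER0_c
  refine Finset.sum_congr rfl fun k _ => ?_
  split_ifs <;> rfl

theorem MER0_first : ∃ C : ℝ, 0 < C ∧ ∀ t : ℝ, 1 ≤ t →
    |∑ k ∈ Icc 0 ⌊t⌋₊, MER0_c k - Real.log t| ≤ C := by
  obtain ⟨C, hC, h⟩ := MER0_lower
  refine ⟨C + Real.log 4 + 2, by positivity, fun t ht => ?_⟩
  rw [MER0_sumc]
  have hn : 1 ≤ ⌊t⌋₊ := (Nat.one_le_floor_iff t).2 ht
  have hn0 : (1 : ℝ) ≤ ⌊t⌋₊ := by exact_mod_cast hn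
  have h1 := h ⌊t⌋₊ hn
  have h2 := sum_log_div_le ⌊t⌋₊ hn
  have h3 : Real.log (⌊t⌋₊ : ℝ) ≤ Real.log t :=
    Real.log_le_log (by linarith) (Nat.floor_le (by linarith))
  have h4 : Real.log t ≤ Real.log (⌊t⌋₊ : ℝ) + 1 := by
    have h5 : t ≤ ⌊t⌋₊ * 2 := by
      have := Nat.lt_floor_add_one t
      linarith
    have h6 := Real.log_le_log (by linarith) h5
    rw [Real.log_mul (by linarith) (by norm_num)] at h6
    have h7 : Real.log 2 ≤ 1 := by
      have := Real.log_two_lt_d9
      linarith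
    linarith
  have h8 : 0 ≤ Real.log 4 := Real.log_nonneg (by norm_num)
  rw [abs_le]
  constructor <;> linarith

open MeasureTheory in
theorem MER0_abel : ∃ C : ℝ, 0 < C ∧ ∀ u v : ℝ, 2 ≤ u → u ≤ v →
    |∑ k ∈ Ioc ⌊u⌋₊ ⌊v⌋₊, (1 / Real.log k) * MER0_c k -
      (Real.log (Real.log v) - Real.log (Real.log u))| ≤ C / Real.log u := by
  obtain ⟨C, hC, h⟩ := MER0_first
  refine ⟨2 * C, by linarith, fun u v hu huv => ?_⟩
  have hd : ∀ t : ℝ, 1 < t → HasDerivAt (fun x => 1 / Real.log x) (-(1 / (t * Real.log t ^ 2))) t := by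
    intro t ht
    have h0 : Real.log t ≠ 0 := (Real.log_pos ht).ne'
    have h1 := (Real.hasDerivAt_log (show t ≠ 0 by linarith)).inv h0
    have h2 : (fun x => 1 / Real.log x) = fun x => (Real.log x)⁻¹ := by
      ext x; rw [one_div]
    have h3 : -(1 / (t * Real.log t ^ 2)) = -t⁻¹ / Real.log t ^ 2 := by
      rw [one_div, mul_inv, neg_div, div_eq_mul_inv]
    rw [h2, h3]
    exact h1
  have hdd : ∀ t : ℝ, 1 < t → HasDerivAt (fun x => Real.log (Real.log x)) (1 / (t * Real.log t)) t := by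
    intro t ht
    have h0 : Real.log t ≠ 0 := (Real.log_pos ht).ne'
    have h1 := (Real.hasDerivAt_log (show t ≠ 0 by linarith)).log h0
    have h2 : 1 / (t * Real.log t) = t⁻¹ / Real.log t := by
      rw [one_div, mul_inv, div_eq_mul_inv]
    rw [h2]
    exact h1
  have hder : ∀ t : ℝ, 1 < t → deriv (fun x => 1 / Real.log x) t = -(1 / (t * Real.log t ^ 2)) :=
    fun t ht => (hd t ht).deriv
  have hcont : ContinuousOn (fun t : ℝ => -(1 / (t * Real.log t ^ 2))) (Set.Icc u v) := by
    refine ContinuousOn.neg (ContinuousOn.div continuousOn_const ?_ ?_)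
    · exact continuousOn_id.mul ((Real.continuousOn_log.mono (by
        intro t ht
        have := ht.1
        simp only [Set.mem_compl_iff, Set.mem_singleton_iff]
        linarith)).pow 2)
    · intro t ht
      have h1 : 1 < t := by have := ht.1; linarith
      have := Real.log_pos h1
      positivity
  have hcont2 : ContinuousOn (fun t : ℝ => 1 / (t * Real.log t)) (Set.Icc u v) := by
    refine ContinuousOn.div continuousOn_const ?_ ?_
    · exact continuousOn_id.mul (Real.continuousOn_log.mono (by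
        intro t ht
        have := ht.1
        simp only [Set.mem_compl_iff, Set.mem_singleton_iff]
        linarith))
    · intro t ht
      have h1 : 1 < t := by have := ht.1; linarith
      have := Real.log_pos h1
      positivity
  have hint : IntegrableOn (deriv (fun x : ℝ => 1 / Real.log x)) (Set.Icc u v) := by
    refine (hcont.integrableOn_Icc).congr_fun ?_ measurableSet_Icc
    intro t ht
    rw [hder t (by have := ht.1; linarith)]
  have hab := sum_mul_eq_sub_sub_integral_mul MER0_c (f := fun x : ℝ => 1 / Real.log x)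
    (a := u) (b := v) (by linarith) huv
    (fun t ht => (hd t (by have := ht.1; linarith)).differentiableAt) hint
  have hint2 := integrableOn_mul_sum_Icc (m := 0) MER0_c (a := u) (b := v) (by linarith) hint
  rw [hab]
  -- the two boundary terms
  have hlu : 0 < Real.log u := Real.log_pos (by linarith)
  have hlv : 0 < Real.log v := Real.log_pos (by linarith)
  have hluv : Real.log u ≤ Real.log v := Real.log_le_log (by linarith) huv
  -- integrals
  have i1 : ∫ t in Set.Ioc u v, 1 / (t * Real.log t) =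
      Real.log (Real.log v) - Real.log (Real.log u) := by
    rw [← intervalIntegral.integral_of_le huv]
    refine intervalIntegral.integral_eq_sub_of_hasDerivAt (f := fun x => Real.log (Real.log x))
      (fun t ht => hdd t ?_) ?_
    · rw [Set.uIcc_of_le huv] at ht
      have := ht.1
      linarith
    · rw [intervalIntegrable_iff_integrableOn_Ioc_of_le huv]
      exact hcont2.integrableOn_Icc.mono_set Set.Ioc_subset_Icc_self
  have i2 : ∫ t in Set.Ioc u v, C * -(-(1 / (t * Real.log t ^ 2))) =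
      C * (1 / Real.log u - 1 / Real.log v) := by
    rw [integral_const_mul, integral_neg, ← intervalIntegral.integral_of_le huv,
      intervalIntegral.integral_eq_sub_of_hasDerivAt (f := fun x => 1 / Real.log x)]
    · ring
    · intro t ht
      rw [Set.uIcc_of_le huv] at ht
      have := ht.1
      exact hd t (by linarith)
    · rw [intervalIntegrable_iff_integrableOn_Ioc_of_le huv]
      exact hcont.integrableOn_Icc.mono_set Set.Ioc_subset_Icc_self
  have i3 : |∫ t in Set.Ioc u v, (deriv (fun x : ℝ => 1 / Real.log x) t *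
      ∑ k ∈ Icc 0 ⌊t⌋₊, MER0_c k + 1 / (t * Real.log t))| ≤ C * (1 / Real.log u - 1 / Real.log v) := by
    rw [← i2, ← Real.norm_eq_abs]
    refine norm_integral_le_of_norm_le ?_ ?_
    · exact ((hcont.integrableOn_Icc.mono_set Set.Ioc_subset_Icc_self).neg).const_mul C
    · rw [ae_restrict_iff' measurableSet_Ioc]
      refine ae_of_all _ fun t ht => ?_
      have ht1 : 1 < t := by have := ht.1; linarith
      have hl := Real.log_pos ht1
      rw [hder t ht1, Real.norm_eq_abs]
      have e : -(1 / (t * Real.log t ^ 2)) * ∑ k ∈ Icc 0 ⌊t⌋₊, MER0_c k + 1 / (t * Real.log t) =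
          -(1 / (t * Real.log t ^ 2)) * (∑ k ∈ Icc 0 ⌊t⌋₊, MER0_c k - Real.log t) := by
        field_simp
        ring
      rw [e, abs_mul, abs_neg, abs_of_pos (by positivity), neg_neg, mul_comm C]
      exact mul_le_mul_of_nonneg_left (h t ht1.le) (by positivity)
  rw [integral_add (hint2.mono_set Set.Ioc_subset_Icc_self)
    (hcont2.integrableOn_Icc.mono_set Set.Ioc_subset_Icc_self), i1] at i3
  have b1 := h u (by linarith)
  have b2 := h v (by linarith)
  rw [abs_le] at b1 b2 i3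
  have c1 : |1 / Real.log v * ∑ k ∈ Icc 0 ⌊v⌋₊, MER0_c k - 1| ≤ C / Real.log v := by
    have e : 1 / Real.log v * ∑ k ∈ Icc 0 ⌊v⌋₊, MER0_c k - 1 =
        (∑ k ∈ Icc 0 ⌊v⌋₊, MER0_c k - Real.log v) / Real.log v := by field_simp
    rw [e, abs_div, abs_of_pos hlv]
    exact div_le_div_of_nonneg_right (h v (by linarith)) hlv.le
  have c2 : |1 / Real.log u * ∑ k ∈ Icc 0 ⌊u⌋₊, MER0_c k - 1| ≤ C / Real.log u := by
    have e : 1 / Real.log u * ∑ k ∈ Icc 0 ⌊u⌋₊, MER0_c k - 1 =
        (∑ k ∈ Icc 0 ⌊u⌋₊, MER0_c k - Real.log u) / Real.log u := by field_simp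
    rw [e, abs_div, abs_of_pos hlu]
    exact div_le_div_of_nonneg_right (h u (by linarith)) hlu.le
  rw [abs_le] at c1 c2 ⊢
  have e1 : C * (1 / Real.log u - 1 / Real.log v) = C / Real.log u - C / Real.log v := by ring
  have e2 : 2 * C / Real.log u = C / Real.log u + C / Real.log u := by ring
  rw [e1] at i3
  rw [e2]
  constructor <;> linarith [i3.1, i3.2, c1.1, c1.2, c2.1, c2.2]

/-- **Mertens.** `∑_{u ≤ q < v} 1/q = log log v - log log u + O(1/log u)`.

Proof. `∑_{n ≤ x} Λ(n)/n = log x + O(1)` (from `∑_{n ≤ x} Λ(n) ⌊x/n⌋ = log ⌊x⌋!`, Stirling, and Chebyshev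
`ψ(x) ≤ C x`, `Chebyshev.psi_le_const_mul_self`), hence `∑_{q ≤ x} log q/q = log x + O(1)`, and partial summation
with `1/log q`. -/
theorem mertens : ∃ C : ℝ, 0 < C ∧ ∀ u v : ℝ, 2 ≤ u → u ≤ v →
    |∑ q ∈ PR u v, 1 / (q : ℝ) - (Real.log (Real.log v) - Real.log (Real.log u))| ≤
      C / Real.log u := by
  classical
  obtain ⟨C, hC, h⟩ := MER0_abel
  refine ⟨C + 2, by linarith, fun u v hu huv => ?_⟩
  have hlu : 0 < Real.log u := Real.log_pos (by linarith)
  have h1 : ∑ k ∈ Ioc ⌊u⌋₊ ⌊v⌋₊, (1 / Real.log k) * MER0_c k =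
      ∑ k ∈ (Ioc ⌊u⌋₊ ⌊v⌋₊).filter Nat.Prime, 1 / (k : ℝ) := by
    rw [Finset.sum_filter]
    refine Finset.sum_congr rfl fun k _ => ?_
    unfold MER0_c
    split_ifs with hk
    · have h2 : (1 : ℝ) < k := by exact_mod_cast hk.one_lt
      have h3 := (Real.log_pos h2).ne'
      field_simp
    · rw [mul_zero]
  have h2 := h u v hu huv
  rw [h1] at h2
  have hle1 : ∑ q ∈ PR u v, 1 / (q : ℝ) ≤
      ∑ k ∈ (Ioc ⌊u⌋₊ ⌊v⌋₊).filter Nat.Prime, 1 / (k : ℝ) + 1 / u := by
    have hsub : PR u v ⊆ insert ⌊u⌋₊ ((Ioc ⌊u⌋₊ ⌊v⌋₊).filter Nat.Prime) := by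
      intro q hq
      rw [mem_PR] at hq
      rw [Finset.mem_insert, Finset.mem_filter, Finset.mem_Ioc]
      by_cases hqu : q ≤ ⌊u⌋₊
      · left
        have h3 : (⌊u⌋₊ : ℝ) ≤ q := (Nat.floor_le (by linarith)).trans hq.2.1
        have h4 : ⌊u⌋₊ ≤ q := by exact_mod_cast h3
        omega
      · right
        refine ⟨⟨by omega, Nat.le_floor hq.2.2.le⟩, hq.1⟩
    by_cases hmem : ⌊u⌋₊ ∈ PR u v
    · refine (Finset.sum_le_sum_of_subset_of_nonneg hsub fun k _ _ => by positivity).trans ?_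
      rw [Finset.sum_insert (by simp)]
      have h3 := (mem_PR.1 hmem).2.1
      have h4 : 1 / (⌊u⌋₊ : ℝ) ≤ 1 / u := one_div_le_one_div_of_le (by linarith) h3
      linarith
    · have hsub' : PR u v ⊆ (Ioc ⌊u⌋₊ ⌊v⌋₊).filter Nat.Prime := by
        intro q hq
        rcases Finset.mem_insert.1 (hsub hq) with h3 | h3
        · exact absurd (h3 ▸ hq) hmem
        · exact h3
      have h3 := Finset.sum_le_sum_of_subset_of_nonneg (f := fun k : ℕ => 1 / (k : ℝ)) hsub'
        fun k _ _ => by positivity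
      have h4 : 0 ≤ 1 / u := by positivity
      linarith
  have hle2 : ∑ k ∈ (Ioc ⌊u⌋₊ ⌊v⌋₊).filter Nat.Prime, 1 / (k : ℝ) ≤
      ∑ q ∈ PR u v, 1 / (q : ℝ) + 1 / u := by
    have hsub : (Ioc ⌊u⌋₊ ⌊v⌋₊).filter Nat.Prime ⊆ insert ⌊v⌋₊ (PR u v) := by
      intro q hq
      rw [Finset.mem_filter, Finset.mem_Ioc] at hq
      rw [Finset.mem_insert, mem_PR]
      by_cases hqv : (q : ℝ) < v
      · right
        exact ⟨hq.2, (Nat.lt_of_floor_lt hq.1.1).le, hqv⟩
      · left
        have h3 : (q : ℝ) ≤ v := (Nat.le_floor_iff (by linarith)).1 hq.1.2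
        have h4 : (q : ℝ) = v := le_antisymm h3 (not_lt.1 hqv)
        rw [← h4, Nat.floor_natCast]
    by_cases hmem : ⌊v⌋₊ ∈ (Ioc ⌊u⌋₊ ⌊v⌋₊).filter Nat.Prime
    · refine (Finset.sum_le_sum_of_subset_of_nonneg hsub fun k _ _ => by positivity).trans ?_
      have h5 : 1 / (⌊v⌋₊ : ℝ) ≤ 1 / u := by
        refine one_div_le_one_div_of_le (by linarith) ?_
        exact (Nat.lt_of_floor_lt (Finset.mem_Ioc.1 (Finset.mem_filter.1 hmem).1).1).le
      by_cases h6 : ⌊v⌋₊ ∈ PR u v
      · rw [Finset.insert_eq_of_mem h6]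
        have : 0 ≤ 1 / u := by positivity
        linarith
      · rw [Finset.sum_insert h6]
        linarith
    · have hsub' : (Ioc ⌊u⌋₊ ⌊v⌋₊).filter Nat.Prime ⊆ PR u v := by
        intro q hq
        rcases Finset.mem_insert.1 (hsub hq) with h3 | h3
        · exact absurd (h3 ▸ hq) hmem
        · exact h3
      have h3 := Finset.sum_le_sum_of_subset_of_nonneg (f := fun k : ℕ => 1 / (k : ℝ)) hsub'
        fun k _ _ => by positivity
      have h4 : 0 ≤ 1 / u := by positivity
      linarith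
  have h3 : 1 / u ≤ 2 / Real.log u := by
    rw [div_le_div_iff₀ (by linarith) hlu]
    have := Real.log_le_sub_one_of_pos (show (0 : ℝ) < u by linarith)
    linarith
  rw [abs_le] at h2 ⊢
  have e : (C + 2) / Real.log u = C / Real.log u + 2 / Real.log u := by ring
  rw [e]
  constructor <;> linarith [h2.1, h2.2]

end Pool.Agent.Lib.H59C
end

-- from Lib.H59C.PVI
section

/-!
# PVI: the inequality of Pólya and Vinogradov
-/

open Finset

namespace Pool.Agent.Lib.H59C

/-- The norm of the Gauss sum of a primitive character. -/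
theorem PVI_tau (r : ℕ) [NeZero r] (χ : DirichletCharacter ℂ r) (hχ : χ.IsPrimitive) :
    ‖gaussSum χ (ZMod.stdAddChar (N := r))‖ ^ 2 = r := by
  classical
  set e : AddChar (ZMod r) ℂ := ZMod.stdAddChar with he
  set τ : ℂ := gaussSum χ e with hτ
  have hprim : e.IsPrimitive := ZMod.isPrimitive_stdAddChar r
  have hconj : ∀ x : ZMod r, (starRingEnd ℂ) (e x) = e (-x) := by
    intro x
    rw [AddChar.map_neg_eq_inv, Complex.inv_eq_conj (AddChar.norm_apply e x)]
  have hinv : ∀ a : ZMod r, ‖χ⁻¹ a‖ = ‖χ a‖ := by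
    intro a
    rw [← MulChar.star_apply' χ a, norm_star]
  set Q : ℝ := ∑ a : ZMod r, ‖χ a‖ ^ 2 with hQ
  have hQ0 : 0 < Q := by
    refine Finset.sum_pos' (fun a _ => by positivity) ⟨1, Finset.mem_univ _, ?_⟩
    rw [map_one, norm_one]
    norm_num
  have h1 : ∑ a : ZMod r, ‖gaussSum χ (e.mulShift a)‖ ^ 2 = Q * ‖τ‖ ^ 2 := by
    rw [hQ, Finset.sum_mul]
    refine Finset.sum_congr rfl fun a _ => ?_
    rw [gaussSum_mulShift_of_isPrimitive e hχ a, norm_mul, hinv, mul_pow]
  have h2 : ((∑ a : ZMod r, ‖gaussSum χ (e.mulShift a)‖ ^ 2 : ℝ) : ℂ) = r * (Q : ℂ) := by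
    have e1 : ∀ a : ZMod r, ((‖gaussSum χ (e.mulShift a)‖ ^ 2 : ℝ) : ℂ) =
        ∑ b : ZMod r, ∑ c : ZMod r, χ b * (starRingEnd ℂ) (χ c) * e (a * (b - c)) := by
      intro a
      have h3 : ((‖gaussSum χ (e.mulShift a)‖ ^ 2 : ℝ) : ℂ) =
          gaussSum χ (e.mulShift a) * (starRingEnd ℂ) (gaussSum χ (e.mulShift a)) := by
        rw [Complex.mul_conj']
        push_cast
        rfl
      rw [h3, gaussSum, map_sum, Finset.sum_mul_sum]
      refine Finset.sum_congr rfl fun b _ => Finset.sum_congr rfl fun c _ => ?_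
      have h5 : (starRingEnd ℂ) (χ c * (e.mulShift a) c) =
          (starRingEnd ℂ) (χ c) * e (-(a * c)) := by
        rw [AddChar.mulShift_apply, ← hconj]
        exact map_mul (starRingEnd ℂ) _ _
      rw [h5, AddChar.mulShift_apply]
      have h4 : e (a * (b - c)) = e (a * b) * e (-(a * c)) := by
        rw [← AddChar.map_add_eq_mul]
        congr 1
        ring
      rw [h4]
      ring
    rw [Complex.ofReal_sum, Finset.sum_congr rfl fun a _ => e1 a, Finset.sum_comm]
    have e2 : ∀ b : ZMod r, ∑ a : ZMod r, ∑ c : ZMod r,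
        χ b * (starRingEnd ℂ) (χ c) * e (a * (b - c)) = r * ((‖χ b‖ ^ 2 : ℝ) : ℂ) := by
      intro b
      rw [Finset.sum_comm, Finset.sum_eq_single b]
      · rw [← Finset.mul_sum, AddChar.sum_mulShift _ hprim, sub_self, if_pos rfl, ZMod.card,
          Complex.mul_conj']
        push_cast
        ring
      · intro c _ hcb
        rw [← Finset.mul_sum, AddChar.sum_mulShift _ hprim, if_neg (sub_ne_zero.mpr hcb.symm)]
        simp
      · intro h
        exact absurd (Finset.mem_univ b) h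
    rw [Finset.sum_congr rfl fun b _ => e2 b, ← Finset.mul_sum, hQ, Complex.ofReal_sum]
  rw [h1] at h2
  have h3 : Q * ‖τ‖ ^ 2 = r * Q := by
    have : ((Q * ‖τ‖ ^ 2 : ℝ) : ℂ) = ((r * Q : ℝ) : ℂ) := by
      rw [h2]
      push_cast
      rfl
    exact_mod_cast this
  have h4 : Q * ‖τ‖ ^ 2 = Q * r := by rw [h3]; ring
  exact mul_left_cancel₀ hQ0.ne' h4

theorem PVI_sin (t : ℝ) (h0 : 0 ≤ t) (h1 : t ≤ 1) :
    2 * (t * (1 - t)) ≤ Real.sin (Real.pi * t) := by
  have hpi := Real.pi_pos
  have key : ∀ s : ℝ, 0 ≤ s → s ≤ 1 / 2 → 2 * (s * (1 - s)) ≤ Real.sin (Real.pi * s) := by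
    intro s hs0 hs1
    have h := Real.mul_le_sin (x := Real.pi * s) (by positivity) (by nlinarith)
    have e : 2 / Real.pi * (Real.pi * s) = 2 * s := by
      field_simp
    rw [e] at h
    nlinarith
  rcases le_total t (1 / 2) with h | h
  · exact key t h0 h
  · have h2 := key (1 - t) (by linarith) (by linarith)
    have e : Real.sin (Real.pi * (1 - t)) = Real.sin (Real.pi * t) := by
      rw [mul_sub, mul_one, Real.sin_pi_sub]
    rw [e] at h2
    nlinarith

/-- Geometric sums of a nontrivial additive character. -/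
theorem PVI_geom (r : ℕ) [NeZero r] (b : ZMod r) (hb : b ≠ 0) (u v : ℕ) :
    ‖∑ n ∈ Ico u v, ZMod.stdAddChar ((n : ZMod r) * b)‖ ≤
      r / 2 * ((b.val : ℝ)⁻¹ + ((r - b.val : ℕ) : ℝ)⁻¹) := by
  have hr : 0 < r := Nat.pos_of_ne_zero (NeZero.ne r)
  have hbr : b.val < r := ZMod.val_lt b
  have hb0 : 0 < b.val := Nat.pos_of_ne_zero fun h => hb ((ZMod.val_eq_zero b).mp h)
  have hbr' : ((r - b.val : ℕ) : ℝ) = (r : ℝ) - b.val := by
    rw [Nat.cast_sub hbr.le]
  have hrR : (0 : ℝ) < r := by exact_mod_cast hr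
  have hbR : (0 : ℝ) < b.val := by exact_mod_cast hb0
  have hbrR : (b.val : ℝ) < r := by exact_mod_cast hbr
  have hrhs : 0 ≤ (r : ℝ) / 2 * ((b.val : ℝ)⁻¹ + ((r - b.val : ℕ) : ℝ)⁻¹) := by positivity
  rcases le_or_gt v u with huv | huv
  · rw [Finset.Ico_eq_empty_of_le huv, Finset.sum_empty, norm_zero]
    exact hrhs
  set z : ℂ := ZMod.stdAddChar b with hz
  have hzn : ‖z‖ = 1 := AddChar.norm_apply _ _
  have h1 : ∑ n ∈ Ico u v, ZMod.stdAddChar ((n : ZMod r) * b) = ∑ n ∈ Ico u v, z ^ n := by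
    refine Finset.sum_congr rfl fun n _ => ?_
    rw [← nsmul_eq_mul, AddChar.map_nsmul_eq_pow]
  set t : ℝ := b.val / r with ht
  have ht0 : 0 < t := by positivity
  have ht1 : t < 1 := by rw [ht, div_lt_one hrR]; exact hbrR
  have hzt : z = Complex.exp (Complex.I * ((2 * Real.pi * t : ℝ) : ℂ)) := by
    have h2 : z = ZMod.stdAddChar (((b.val : ℤ)) : ZMod r) := by
      rw [hz]
      congr 1
      rw [Int.cast_natCast, ZMod.natCast_zmod_val]
    rw [h2, ZMod.stdAddChar_coe]
    congr 1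
    rw [ht]
    push_cast
    ring
  have hsin := PVI_sin t ht0.le ht1.le
  have hpos : 0 < t * (1 - t) := mul_pos ht0 (by linarith)
  have hz1 : 4 * (t * (1 - t)) ≤ ‖z - 1‖ := by
    rw [hzt, Complex.norm_exp_I_mul_ofReal_sub_one, Real.norm_eq_abs]
    have e : 2 * Real.pi * t / 2 = Real.pi * t := by ring
    rw [e]
    refine le_trans ?_ (le_abs_self _)
    linarith
  have hz1' : 0 < ‖z - 1‖ := lt_of_lt_of_le (by linarith) hz1
  have hgeom : (∑ n ∈ Ico u v, z ^ n) * (z - 1) = z ^ v - z ^ u := geom_sum_Ico_mul z huv.le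
  have hnorm : ‖∑ n ∈ Ico u v, z ^ n‖ * ‖z - 1‖ ≤ 2 := by
    rw [← norm_mul, hgeom]
    refine (norm_sub_le _ _).trans ?_
    rw [norm_pow, norm_pow, hzn, one_pow, one_pow]
    norm_num
  rw [h1]
  have h5 : ‖∑ n ∈ Ico u v, z ^ n‖ * (4 * (t * (1 - t))) ≤ 2 :=
    (mul_le_mul_of_nonneg_left hz1 (norm_nonneg _)).trans hnorm
  have h6 : ‖∑ n ∈ Ico u v, z ^ n‖ ≤ 2 / (4 * (t * (1 - t))) := by
    rw [le_div_iff₀ (by linarith)]
    exact h5
  refine h6.trans (le_of_eq ?_)
  rw [hbr', ht]
  have hne : (r : ℝ) - b.val ≠ 0 := by linarith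
  field_simp
  ring

/-- `|∑_{u ≤ n < v} χ(n)| ≤ C √r log r` for primitive `χ` mod `r > 1`.

Proof. `χ(n) = τ(χ̄)⁻¹ ∑_{b mod r} χ̄(b) e(b n/r)` (`gaussSum_mulShift_of_isPrimitive`), `|τ|² = r` (as in
`LSB`: Parseval), and `|∑_{u ≤ n < v} e(b n/r)| ≤ 1/|sin(π b/r)| ≤ r/(2 min(b, r-b))` for `0 < b < r`
(`b = 0` does not contribute, `χ̄(0) = 0`); so the sum is at most
`r^(-1/2) ∑_{0<b<r} r/(2 min(b, r - b)) ≤ √r (1 + log r)`. -/
theorem polya_vinogradov : ∃ C : ℝ, 0 < C ∧ ∀ (r : ℕ) [NeZero r] (χ : DirichletCharacter ℂ r),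
    1 < r → χ.IsPrimitive → ∀ u v : ℕ,
    ‖∑ n ∈ Ico u v, χ (n : ZMod r)‖ ≤ C * Real.sqrt r * Real.log r := by
  refine ⟨1 / Real.log 2 + 1, by positivity, ?_⟩
  intro r _ χ hr hχ u v
  classical
  set e : AddChar (ZMod r) ℂ := ZMod.stdAddChar with he
  set τ : ℂ := gaussSum χ e with hτ
  have hτ2 : ‖τ‖ ^ 2 = r := PVI_tau r χ hχ
  have hrR : (1 : ℝ) < r := by exact_mod_cast hr
  have hτs : ‖τ‖ = Real.sqrt r := by
    rw [← hτ2, Real.sqrt_sq (norm_nonneg _)]
  have hconj : ‖∑ n ∈ Ico u v, χ (n : ZMod r)‖ = ‖∑ n ∈ Ico u v, χ⁻¹ (n : ZMod r)‖ := by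
    rw [← norm_star (∑ n ∈ Ico u v, χ (n : ZMod r)), star_sum]
    congr 1
    exact Finset.sum_congr rfl fun n _ => MulChar.star_apply' χ _
  have hmain : (∑ n ∈ Ico u v, χ⁻¹ (n : ZMod r)) * τ =
      ∑ b : ZMod r, χ b * ∑ n ∈ Ico u v, e ((n : ZMod r) * b) := by
    rw [Finset.sum_mul]
    have h1 : ∀ n ∈ Ico u v, χ⁻¹ (n : ZMod r) * τ = ∑ b : ZMod r, χ b * e ((n : ZMod r) * b) := by
      intro n _
      rw [hτ, ← gaussSum_mulShift_of_isPrimitive e hχ, gaussSum]
      exact Finset.sum_congr rfl fun b _ => by rw [AddChar.mulShift_apply]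
    rw [Finset.sum_congr rfl h1, Finset.sum_comm]
    exact Finset.sum_congr rfl fun b _ => by rw [Finset.mul_sum]
  set G : ℕ → ℝ := fun k => (r : ℝ) / 2 * ((k : ℝ)⁻¹ + ((r - k : ℕ) : ℝ)⁻¹) with hG
  set F : ℕ → ℝ := fun k => if k = 0 then 0 else G k with hF
  have hbound : ‖∑ b : ZMod r, χ b * ∑ n ∈ Ico u v, e ((n : ZMod r) * b)‖ ≤
      ∑ b : ZMod r, F b.val := by
    refine (norm_sum_le _ _).trans (Finset.sum_le_sum fun b _ => ?_)
    rw [norm_mul]
    by_cases hb : b = 0
    · rw [hb, DirichletCharacter.map_zero' χ (by omega), norm_zero, zero_mul, hF]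
      simp
    · have hb' : b.val ≠ 0 := fun h => hb ((ZMod.val_eq_zero b).mp h)
      rw [hF]
      simp only [if_neg hb', hG]
      calc ‖χ b‖ * ‖∑ n ∈ Ico u v, e ((n : ZMod r) * b)‖
          ≤ 1 * ‖∑ n ∈ Ico u v, e ((n : ZMod r) * b)‖ :=
            mul_le_mul_of_nonneg_right (DirichletCharacter.norm_le_one χ b) (norm_nonneg _)
        _ = ‖∑ n ∈ Ico u v, e ((n : ZMod r) * b)‖ := one_mul _
        _ ≤ _ := PVI_geom r b hb u v
  have hsum1 : ∑ b : ZMod r, F b.val = ∑ k ∈ range r, F k := by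
    refine Finset.sum_nbij' (fun b : ZMod r => b.val) (fun k : ℕ => (k : ZMod r)) ?_ ?_ ?_ ?_ ?_
    · intro b _
      exact Finset.mem_range.mpr (ZMod.val_lt b)
    · intro k _
      exact Finset.mem_univ _
    · intro b _
      exact ZMod.natCast_zmod_val b
    · intro k hk
      exact ZMod.val_cast_of_lt (Finset.mem_range.mp hk)
    · intro b _
      rfl
  have hsum2 : ∑ k ∈ range r, F k = ∑ k ∈ Ico 1 r, G k := by
    rw [Finset.range_eq_Ico, Finset.sum_eq_sum_Ico_succ_bot (by omega)]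
    have : F 0 = 0 := by rw [hF]; simp
    rw [this, zero_add]
    refine Finset.sum_congr rfl fun k hk => ?_
    have hk0 : k ≠ 0 := by
      have := (Finset.mem_Ico.mp hk).1
      omega
    rw [hF]
    simp only [if_neg hk0]
  have hsum3 : ∑ k ∈ Ico 1 r, G k = r * ∑ k ∈ Ico 1 r, (k : ℝ)⁻¹ := by
    rw [hG, ← Finset.mul_sum, Finset.sum_add_distrib]
    have h1 := Finset.sum_Ico_reflect (fun k : ℕ => (k : ℝ)⁻¹) 1 (m := r) (n := r) (by omega)
    rw [h1]
    have e1 : r + 1 - r = 1 := by omega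
    have e2 : r + 1 - 1 = r := by omega
    rw [e1, e2]
    ring
  have hharm : ∑ k ∈ Ico 1 r, (k : ℝ)⁻¹ ≤ 1 + Real.log r := by
    have h1 : ∑ k ∈ Ico 1 r, (k : ℝ)⁻¹ = ((harmonic (r - 1) : ℚ) : ℝ) := by
      rw [harmonic_eq_sum_Icc]
      push_cast
      refine Finset.sum_congr ?_ fun _ _ => rfl
      ext k
      simp only [Finset.mem_Ico, Finset.mem_Icc]
      omega
    rw [h1]
    refine (harmonic_le_one_add_log (r - 1)).trans ?_
    have h2 : Real.log ((r - 1 : ℕ) : ℝ) ≤ Real.log r := by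
      apply Real.log_le_log
      · have : 0 < r - 1 := by omega
        exact_mod_cast this
      · exact_mod_cast Nat.sub_le r 1
    linarith
  have hτpos : 0 < ‖τ‖ := by
    rw [hτs]
    exact Real.sqrt_pos.mpr (by linarith)
  have h5 : ‖∑ n ∈ Ico u v, χ⁻¹ (n : ZMod r)‖ * ‖τ‖ ≤ r * (1 + Real.log r) := by
    rw [← norm_mul, hmain]
    refine hbound.trans ?_
    rw [hsum1, hsum2, hsum3]
    exact mul_le_mul_of_nonneg_left hharm (by linarith)
  have hsq : Real.sqrt r * Real.sqrt r = r := Real.mul_self_sqrt (by linarith)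
  have h6 : ‖∑ n ∈ Ico u v, χ⁻¹ (n : ZMod r)‖ ≤ Real.sqrt r * (1 + Real.log r) := by
    rw [hτs] at h5 hτpos
    have h7 : ‖∑ n ∈ Ico u v, χ⁻¹ (n : ZMod r)‖ * Real.sqrt r ≤
        (Real.sqrt r * (1 + Real.log r)) * Real.sqrt r := by
      refine h5.trans (le_of_eq ?_)
      calc (r : ℝ) * (1 + Real.log r) = (Real.sqrt r * Real.sqrt r) * (1 + Real.log r) := by
            rw [hsq]
        _ = (Real.sqrt r * (1 + Real.log r)) * Real.sqrt r := by ring
    exact le_of_mul_le_mul_right h7 hτpos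
  rw [hconj]
  refine h6.trans ?_
  have hlog2 : 0 < Real.log 2 := Real.log_pos (by norm_num)
  have hlogr : Real.log 2 ≤ Real.log r := by
    apply Real.log_le_log (by norm_num)
    exact_mod_cast hr
  have h8 : 1 ≤ 1 / Real.log 2 * Real.log r := by
    rw [one_div, inv_mul_eq_div, le_div_iff₀ hlog2]
    linarith
  have h9 : 1 + Real.log r ≤ (1 / Real.log 2 + 1) * Real.log r := by
    rw [add_mul, one_mul]
    linarith
  calc Real.sqrt r * (1 + Real.log r) ≤ Real.sqrt r * ((1 / Real.log 2 + 1) * Real.log r) :=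
        mul_le_mul_of_nonneg_left h9 (Real.sqrt_nonneg _)
    _ = (1 / Real.log 2 + 1) * Real.sqrt r * Real.log r := by ring

end Pool.Agent.Lib.H59C
end

-- from Lib.PNT.Fejer
section

/-!
# The Fejer kernel and its Fourier transform
-/

open Complex MeasureTheory Filter Topology Set FourierTransform

namespace Pool.Agent.Lib.PNT

/-- The tent function. -/
noncomputable def tent (t : ℝ) : ℝ := max 0 (1 - |t|)

/-- The Fejer kernel, normalised to have integral one. -/
noncomputable def fejer (u : ℝ) : ℝ := (Real.sinc (u / 2)) ^ 2 / (2 * Real.pi)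

theorem continuous_tent : Continuous tent := by
  unfold tent; fun_prop

theorem tent_nonneg (t : ℝ) : 0 ≤ tent t := le_max_left _ _

theorem tent_eq_zero {t : ℝ} (ht : 1 ≤ |t|) : tent t = 0 :=
  max_eq_left (by linarith)

theorem tent_zero : tent 0 = 1 := by simp [tent]

theorem hasCompactSupport_tent : HasCompactSupport tent := by
  refine HasCompactSupport.intro (K := Icc (-1) 1) isCompact_Icc ?_
  intro t ht
  apply tent_eq_zero
  by_contra h
  push Not at h
  exact ht (abs_le.mp h.le)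

theorem integrable_tent : Integrable tent :=
  continuous_tent.integrable_of_hasCompactSupport hasCompactSupport_tent

theorem continuous_fejer : Continuous fejer := by
  unfold fejer
  have := Real.continuous_sinc
  fun_prop

theorem fejer_nonneg (u : ℝ) : 0 ≤ fejer u := by
  unfold fejer
  have := Real.pi_pos
  positivity

theorem fejer_le_one (u : ℝ) : fejer u ≤ 1 := by
  unfold fejer
  have h3 := Real.pi_gt_three
  have h1 : (Real.sinc (u / 2)) ^ 2 ≤ 1 := by
    have := Real.abs_sinc_le_one (u / 2)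
    rw [← sq_abs]
    exact pow_le_one₀ (abs_nonneg _) this
  rw [div_le_one (by positivity)]
  linarith

theorem tent_fourier (u : ℝ) :
    ∫ t : ℝ, (tent t : ℂ) * cexp (-(t * u) * I) = ((Real.sinc (u / 2)) ^ 2 : ℝ) := by
  have h1 : ∫ t : ℝ, (tent t : ℂ) * cexp (-(t * u) * I)
      = ∫ t in (-1 : ℝ)..1, (tent t : ℂ) * cexp (-(t * u) * I) := by
    rw [intervalIntegral.integral_of_le (by norm_num)]
    symm
    apply setIntegral_eq_integral_of_forall_compl_eq_zero
    intro t ht
    have : tent t = 0 := by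
      apply tent_eq_zero
      by_contra h
      push Not at h
      rw [abs_lt] at h
      exact ht ⟨h.1, h.2.le⟩
    simp [this]
  have hc : Continuous fun t : ℝ => (tent t : ℂ) * cexp (-(t * u) * I) := by
    have := continuous_tent
    fun_prop
  have h2 : ∫ t in (-1 : ℝ)..1, (tent t : ℂ) * cexp (-(t * u) * I)
      = (∫ t in (-1 : ℝ)..0, (tent t : ℂ) * cexp (-(t * u) * I))
        + ∫ t in (0 : ℝ)..1, (tent t : ℂ) * cexp (-(t * u) * I) :=
    (intervalIntegral.integral_add_adjacent_intervals (hc.intervalIntegrable _ _)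
      (hc.intervalIntegrable _ _)).symm
  have h3 : ∫ t in (-1 : ℝ)..0, (tent t : ℂ) * cexp (-(t * u) * I)
      = ∫ t in (-1 : ℝ)..0, ((1 + t : ℝ) : ℂ) * cexp (-(t * u) * I) := by
    apply intervalIntegral.integral_congr
    intro t ht
    rw [uIcc_of_le (by norm_num)] at ht
    have : tent t = 1 + t := by
      unfold tent
      rw [abs_of_nonpos ht.2, max_eq_right (by linarith [ht.1])]; ring
    simp only [this]
  have h4 : ∫ t in (0 : ℝ)..1, (tent t : ℂ) * cexp (-(t * u) * I)
      = ∫ t in (0 : ℝ)..1, ((1 - t : ℝ) : ℂ) * cexp (-(t * u) * I) := by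
    apply intervalIntegral.integral_congr
    intro t ht
    rw [uIcc_of_le (by norm_num)] at ht
    have : tent t = 1 - t := by
      unfold tent
      rw [abs_of_nonneg ht.1, max_eq_right (by linarith [ht.2])]
    simp only [this]
  rw [h1, h2, h3, h4]
  rcases eq_or_ne u 0 with rfl | hu
  · simp only [ofReal_zero, mul_zero, neg_zero, zero_mul, Complex.exp_zero, mul_one, zero_div,
      Real.sinc_zero, one_pow, ofReal_one]
    rw [intervalIntegral.integral_ofReal, intervalIntegral.integral_ofReal]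
    have e1 : ∫ t in (-1 : ℝ)..0, (1 + t) = 1 / 2 := by
      rw [intervalIntegral.integral_add (by simp) (by simp)]
      simp; norm_num
    have e2 : ∫ t in (0 : ℝ)..1, (1 - t) = 1 / 2 := by
      rw [intervalIntegral.integral_sub (by simp) (by simp)]
      simp; norm_num
    rw [e1, e2]; norm_num
  · set c : ℂ := -(u * I) with hcdef
    have hc0 : c ≠ 0 := by
      rw [hcdef, neg_ne_zero]
      exact mul_ne_zero (by exact_mod_cast hu) I_ne_zero
    have hexp : ∀ t : ℝ, cexp (-(t * u) * I) = cexp (c * t) := by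
      intro t; rw [hcdef]; congr 1; ring
    have hd : ∀ t : ℝ, HasDerivAt (fun t : ℝ => cexp (c * t)) (c * cexp (c * t)) t := by
      intro t
      have h := ((hasDerivAt_id (t : ℂ)).const_mul c).cexp.comp_ofReal
      simpa [mul_comm] using h
    have hid : ∀ t : ℝ, HasDerivAt (fun t : ℝ => (t : ℂ)) 1 t := fun t =>
      (hasDerivAt_id (t : ℂ)).comp_ofReal
    have e1 : ∫ t in (-1 : ℝ)..0, ((1 + t : ℝ) : ℂ) * cexp (-(t * u) * I)
        = 1 / c - 1 / c ^ 2 + cexp (-c) / c ^ 2 := by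
      have hder : ∀ t ∈ uIcc (-1 : ℝ) 0, HasDerivAt
          (fun t : ℝ => (1 + (t : ℂ)) * cexp (c * t) / c - cexp (c * t) / c ^ 2)
          (((1 + t : ℝ) : ℂ) * cexp (-(t * u) * I)) t := by
        intro t _
        rw [hexp]
        have h := ((((hid t).const_add 1).mul (hd t)).div_const c).sub ((hd t).div_const (c ^ 2))
        convert! h using 1
        push_cast
        field_simp
        ring
      rw [intervalIntegral.integral_eq_sub_of_hasDerivAt hder
        (Continuous.intervalIntegrable (by fun_prop) _ _)]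
      simp
    have e2 : ∫ t in (0 : ℝ)..1, ((1 - t : ℝ) : ℂ) * cexp (-(t * u) * I)
        = cexp c / c ^ 2 - 1 / c - 1 / c ^ 2 := by
      have hder : ∀ t ∈ uIcc (0 : ℝ) 1, HasDerivAt
          (fun t : ℝ => (1 - (t : ℂ)) * cexp (c * t) / c + cexp (c * t) / c ^ 2)
          (((1 - t : ℝ) : ℂ) * cexp (-(t * u) * I)) t := by
        intro t _
        rw [hexp]
        have h := ((((hid t).const_sub 1).mul (hd t)).div_const c).add ((hd t).div_const (c ^ 2))
        convert! h using 1
        push_cast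
        field_simp
        ring
      rw [intervalIntegral.integral_eq_sub_of_hasDerivAt hder
        (Continuous.intervalIntegrable (by fun_prop) _ _)]
      simp
      ring
    rw [e1, e2]
    have hsum : cexp (-c) + cexp c = 2 * (Real.cos u : ℂ) := by
      rw [hcdef, neg_neg]
      rw [ofReal_cos, Complex.cos]
      ring_nf
    have hc2 : c ^ 2 = -((u : ℂ) ^ 2) := by
      rw [hcdef, neg_sq, mul_pow, I_sq]; ring
    have hu' : (u : ℂ) ≠ 0 := by exact_mod_cast hu
    have hs : (Real.sinc (u / 2)) ^ 2 = 2 * (1 - Real.cos u) / u ^ 2 := by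
      rw [Real.sinc_of_ne_zero (by simpa using hu), div_pow]
      have : Real.cos u = 1 - 2 * Real.sin (u / 2) ^ 2 := by
        have h := Real.cos_two_mul (u / 2)
        rw [Real.cos_sq', show 2 * (u / 2) = u by ring] at h
        linarith
      rw [this]
      field_simp
      ring
    have : 1 / c - 1 / c ^ 2 + cexp (-c) / c ^ 2 + (cexp c / c ^ 2 - 1 / c - 1 / c ^ 2)
        = ((cexp (-c) + cexp c) - 2) / c ^ 2 := by ring
    rw [this, hsum, hc2, hs]
    push_cast
    field_simp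
    ring

theorem sinc_sq_le (x : ℝ) : (Real.sinc x) ^ 2 ≤ 2 * (1 + x ^ 2)⁻¹ := by
  have h1 : (Real.sinc x) ^ 2 ≤ 1 := by
    have := Real.abs_sinc_le_one x
    rw [← sq_abs]
    exact pow_le_one₀ (abs_nonneg _) this
  have h2 : x ^ 2 * (Real.sinc x) ^ 2 ≤ 1 := by
    rcases eq_or_ne x 0 with rfl | hx
    · simp
    · rw [Real.sinc_of_ne_zero hx, div_pow]
      have : x ^ 2 * (Real.sin x ^ 2 / x ^ 2) = Real.sin x ^ 2 := by field_simp
      rw [this]
      exact Real.sin_sq_le_one x
  rw [← div_eq_mul_inv, le_div_iff₀ (by positivity)]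
  nlinarith

theorem integrable_fejer : Integrable fejer := by
  have h1 : Integrable fun x : ℝ => (1 + x ^ 2)⁻¹ := integrable_inv_one_add_sq
  have h2 : Integrable fun x : ℝ => (1 + (x / 2) ^ 2)⁻¹ := h1.comp_div (by norm_num)
  refine Integrable.mono' (g := fun x : ℝ => (2 * (1 + (x / 2) ^ 2)⁻¹) / (2 * Real.pi))
    ((h2.const_mul 2).div_const _) continuous_fejer.aestronglyMeasurable ?_
  refine Eventually.of_forall fun x => ?_
  rw [Real.norm_of_nonneg (fejer_nonneg x), fejer]
  exact div_le_div_of_nonneg_right (sinc_sq_le _) (by positivity)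

theorem fourier_tent (w : ℝ) : 𝓕 (fun t : ℝ => (tent t : ℂ)) w = ((2 * Real.pi * fejer (2 * Real.pi * w) : ℝ) : ℂ) := by
  rw [Real.fourier_eq']
  have := tent_fourier (2 * Real.pi * w)
  have hpi := Real.pi_pos
  rw [fejer, mul_div_cancel₀ _ (by positivity), ← this]
  apply integral_congr_ae
  refine Eventually.of_forall fun t => ?_
  simp only [smul_eq_mul]
  rw [mul_comm]
  congr 1
  simp
  ring_nf

theorem integral_fejer : ∫ u, fejer u = 1 := by
  have hpi := Real.pi_pos
  have hF : (𝓕 (fun t : ℝ => (tent t : ℂ)))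
      = fun w : ℝ => ((2 * Real.pi * fejer (2 * Real.pi * w) : ℝ) : ℂ) := by
    ext w; exact fourier_tent w
  have hint : Integrable (𝓕 (fun t : ℝ => (tent t : ℂ))) := by
    rw [hF]
    apply Integrable.ofReal
    exact (integrable_fejer.comp_mul_left' (by positivity : 2 * Real.pi ≠ 0)).const_mul _
  have hinv := Continuous.fourierInv_fourier_eq (f := fun t : ℝ => (tent t : ℂ))
    (by have := continuous_tent; fun_prop) integrable_tent.ofReal hint
  have h0 := congrFun hinv 0
  rw [Real.fourierInv_eq'] at h0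
  simp only [inner_zero_right, mul_zero, ofReal_zero, zero_mul, Complex.exp_zero, one_smul,
    tent_zero, ofReal_one] at h0
  rw [hF] at h0
  beta_reduce at h0
  rw [integral_complex_ofReal] at h0
  have h1 : ∫ w : ℝ, 2 * Real.pi * fejer (2 * Real.pi * w) = 1 := by exact_mod_cast h0
  rw [integral_const_mul, Measure.integral_comp_mul_left] at h1
  rw [abs_of_pos (by positivity), smul_eq_mul, ← mul_assoc, mul_inv_cancel₀ (by positivity),
    one_mul] at h1
  exact h1

/-- Scaled Fejer kernel. -/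
noncomputable def fejerS (l u : ℝ) : ℝ := l * fejer (l * u)

/-- Scaled tent. -/
noncomputable def tentS (l t : ℝ) : ℝ := tent (t / l)

theorem continuous_fejerS (l : ℝ) : Continuous (fejerS l) := by
  unfold fejerS
  have := continuous_fejer
  fun_prop

theorem continuous_tentS (l : ℝ) : Continuous (tentS l) := by
  unfold tentS
  have := continuous_tent
  fun_prop

theorem fejerS_nonneg {l : ℝ} (hl : 0 < l) (u : ℝ) : 0 ≤ fejerS l u :=
  mul_nonneg hl.le (fejer_nonneg _)

theorem fejerS_le {l : ℝ} (hl : 0 < l) (u : ℝ) : fejerS l u ≤ l := by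
  unfold fejerS
  have := fejer_le_one (l * u)
  nlinarith

theorem tentS_nonneg (l t : ℝ) : 0 ≤ tentS l t := tent_nonneg _

theorem tentS_eq_zero {l t : ℝ} (hl : 0 < l) (ht : l ≤ |t|) : tentS l t = 0 := by
  apply tent_eq_zero
  rwa [abs_div, abs_of_pos hl, le_div_iff₀ hl, one_mul]

theorem integrable_tentS {l : ℝ} (hl : 0 < l) : Integrable (tentS l) := by
  unfold tentS
  exact integrable_tent.comp_div hl.ne'

theorem integrable_fejerS {l : ℝ} (hl : 0 < l) : Integrable (fejerS l) := by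
  unfold fejerS
  exact (integrable_fejer.comp_mul_left' hl.ne').const_mul _

theorem integral_fejerS {l : ℝ} (hl : 0 < l) : ∫ u, fejerS l u = 1 := by
  unfold fejerS
  rw [integral_const_mul, Measure.integral_comp_mul_left, integral_fejer, abs_of_pos
    (by positivity), smul_eq_mul, mul_one, mul_inv_cancel₀ hl.ne']

theorem tentS_fourier {l : ℝ} (hl : 0 < l) (u : ℝ) :
    ∫ t : ℝ, (tentS l t : ℂ) * cexp (-(t * u) * I) = ((2 * Real.pi * fejerS l u : ℝ) : ℂ) := by
  have h := tent_fourier (l * u)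
  have h2 := Measure.integral_comp_div (fun t : ℝ => (tent t : ℂ) * cexp (-(t * (l * u : ℝ)) * I)) l
  rw [h, abs_of_pos hl] at h2
  have h3 : ∫ t : ℝ, (tentS l t : ℂ) * cexp (-(t * u) * I)
      = ∫ x : ℝ, (tent (x / l) : ℂ) * cexp (-(((x / l : ℝ) : ℂ) * (l * u : ℝ)) * I) := by
    apply integral_congr_ae
    refine Eventually.of_forall fun t => ?_
    simp only [tentS]
    congr 2
    push_cast
    have : (l : ℂ) ≠ 0 := by exact_mod_cast hl.ne'
    field_simp
  rw [h3, h2, fejerS, fejer]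
  have hpi := Real.pi_pos
  rw [real_smul, ← ofReal_mul]
  congr 1
  field_simp

end Pool.Agent.Lib.PNT
end

-- from Lib.PNT.WienerIkehara
section

/-!
# The Wiener-Ikehara theorem, Laplace transform form
-/

open Complex MeasureTheory Filter Topology Set

namespace Pool.Agent.Lib.PNT

/-- Hypotheses of the Wiener-Ikehara theorem in Laplace form. -/
structure WIData (α : ℝ → ℝ) (A : ℝ) (H : ℂ → ℂ) : Prop where
  mono : MonotoneOn α (Ici 0)
  nonneg : ∀ u, 0 ≤ u → 0 ≤ α u
  int : ∀ σ : ℝ, 1 < σ → IntegrableOn (fun u => α u * Real.exp (-(σ * u))) (Ioi 0)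
  cont : ContinuousOn H {s | 1 ≤ s.re}
  lap : ∀ s : ℂ, 1 < s.re →
    ∫ u in Ioi (0 : ℝ), (α u : ℂ) * cexp (-(s * u)) = H s + A / (s - 1)

/-- The damped difference. -/
noncomputable def wiG (α : ℝ → ℝ) (A δ u : ℝ) : ℝ :=
  (α u * Real.exp (-u) - A) * Real.exp (-(δ * u))

variable {α : ℝ → ℝ} {A : ℝ} {H : ℂ → ℂ}

theorem WIData.integrable_exp {δ : ℝ} (hδ : 0 < δ) :
    IntegrableOn (fun u : ℝ => Real.exp (-(δ * u))) (Ioi 0) := by
  have := integrableOn_exp_mul_Ioi (a := -δ) (by linarith) 0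
  refine this.congr_fun (fun u _ => ?_) measurableSet_Ioi
  simp

theorem WIData.integrable_damped (h : WIData α A H) {δ : ℝ} (hδ : 0 < δ) :
    IntegrableOn (fun u : ℝ => α u * Real.exp (-u) * Real.exp (-(δ * u))) (Ioi 0) := by
  refine (h.int (1 + δ) (by linarith)).congr_fun (fun u _ => ?_) measurableSet_Ioi
  simp only []
  rw [mul_assoc, ← Real.exp_add]
  ring_nf

theorem WIData.integrable_g (h : WIData α A H) {δ : ℝ} (hδ : 0 < δ) :
    IntegrableOn (wiG α A δ) (Ioi 0) := by
  have h1 := h.integrable_damped hδ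
  have h2 := (WIData.integrable_exp hδ).const_mul A
  refine (h1.sub h2).congr (Eventually.of_forall fun u => ?_)
  simp only [wiG, Pi.sub_apply]
  ring

theorem WIData.lap' (h : WIData α A H) {δ : ℝ} (hδ : 0 < δ) (t : ℝ) :
    ∫ u in Ioi (0 : ℝ), (wiG α A δ u : ℂ) * cexp (-(t * u) * I) = H (1 + δ + t * I) := by
  have hs : 1 < (1 + δ + t * I : ℂ).re := by simp [hδ]
  have h1 := h.lap _ hs
  have hre : (-(δ + t * I) : ℂ).re < 0 := by simp [hδ]
  have hint1 : IntegrableOn (fun u : ℝ => (α u : ℂ) * cexp (-((1 + δ + t * I) * u))) (Ioi 0) := by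
    have hi := (h.int (1 + δ) (by linarith)).ofReal (𝕜 := ℂ)
    have := hi.mul_bdd (g := fun u : ℝ => cexp (-(t * u) * I)) (c := 1)
      (by fun_prop) (Eventually.of_forall fun u => by
        rw [show (-(t * u : ℂ) * I) = ((-(t * u) : ℝ) : ℂ) * I by push_cast; ring]
        rw [Complex.norm_exp_ofReal_mul_I])
    refine Integrable.congr this (Eventually.of_forall fun u => ?_)
    simp only [coe_algebraMap]
    push_cast
    rw [mul_assoc, ← Complex.exp_add]
    congr 2
    ring
  have hint2 : IntegrableOn (fun u : ℝ => cexp (-(δ + t * I) * u)) (Ioi 0) :=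
    integrableOn_exp_mul_complex_Ioi hre 0
  have h2 := integral_exp_mul_complex_Ioi hre 0
  have h3 : ∫ u in Ioi (0 : ℝ), (wiG α A δ u : ℂ) * cexp (-(t * u) * I)
      = ∫ u in Ioi (0 : ℝ), ((α u : ℂ) * cexp (-((1 + δ + t * I) * u))
        - A * cexp (-(δ + t * I) * u)) := by
    apply integral_congr_ae
    refine Eventually.of_forall fun u => ?_
    simp only [wiG]
    push_cast
    have e1 : cexp (-((1 + δ + t * I) * u)) = cexp (-(u : ℂ)) * cexp (-(δ * u)) * cexp (-(t * u) * I) := by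
      rw [← Complex.exp_add, ← Complex.exp_add]; congr 1; ring
    have e2 : cexp (-(δ + t * I) * u) = cexp (-(δ * u)) * cexp (-(t * u) * I) := by
      rw [← Complex.exp_add]; congr 1; ring
    rw [e1, e2]
    ring
  rw [h3, integral_sub hint1 (hint2.const_mul _), h1, integral_const_mul, h2]
  have hne : (δ + t * I : ℂ) ≠ 0 := by
    intro h0
    rw [h0] at hre
    simp at hre
  rw [show (1 + δ + t * I - 1 : ℂ) = δ + t * I by ring]
  simp only [ofReal_zero, mul_zero, Complex.exp_zero]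
  field_simp
  ring

theorem WIData.fub (h : WIData α A H) {l : ℝ} (hl : 0 < l) {δ : ℝ} (hδ : 0 < δ) (y : ℝ) :
    ∫ t : ℝ, (tentS l t : ℂ) * cexp (t * y * I) * H (1 + δ + t * I)
      = ((∫ u in Ioi (0 : ℝ), wiG α A δ u * (2 * Real.pi * fejerS l (u - y)) : ℝ) : ℂ) := by
  have hint : Integrable (Function.uncurry fun (t : ℝ) (u : ℝ) =>
      ((tentS l t : ℂ) * (wiG α A δ u : ℂ)) * cexp (-(t * (u - y)) * I))
      ((volume : Measure ℝ).prod (volume.restrict (Ioi (0 : ℝ)))) := by
    have h1 := Integrable.mul_prod ((integrable_tentS hl).ofReal (𝕜 := ℂ))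
      ((h.integrable_g hδ).ofReal (𝕜 := ℂ))
    have := h1.mul_bdd (g := fun z : ℝ × ℝ => cexp (-(z.1 * (z.2 - y)) * I)) (c := 1)
      (by fun_prop) (Eventually.of_forall fun z => by
        rw [show (-(z.1 * (z.2 - y) : ℂ) * I) = ((-(z.1 * (z.2 - y)) : ℝ) : ℂ) * I by push_cast; ring]
        rw [Complex.norm_exp_ofReal_mul_I])
    exact this
  have key := integral_integral_swap hint
  have e1 : ∫ t : ℝ, (tentS l t : ℂ) * cexp (t * y * I) * H (1 + δ + t * I)
      = ∫ t : ℝ, ∫ u in Ioi (0 : ℝ),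
        ((tentS l t : ℂ) * (wiG α A δ u : ℂ)) * cexp (-(t * (u - y)) * I) := by
    apply integral_congr_ae
    refine Eventually.of_forall fun t => ?_
    simp only []
    rw [← h.lap' hδ t, ← integral_const_mul]
    apply integral_congr_ae
    refine Eventually.of_forall fun u => ?_
    simp only []
    have : cexp (-(t * (u - y)) * I) = cexp (t * y * I) * cexp (-(t * u) * I) := by
      rw [← Complex.exp_add]; congr 1; ring
    rw [this]; ring
  have e2 : ∫ u in Ioi (0 : ℝ), ∫ t : ℝ,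
        ((tentS l t : ℂ) * (wiG α A δ u : ℂ)) * cexp (-(t * (u - y)) * I)
      = ((∫ u in Ioi (0 : ℝ), wiG α A δ u * (2 * Real.pi * fejerS l (u - y)) : ℝ) : ℂ) := by
    rw [← integral_complex_ofReal]
    apply integral_congr_ae
    refine Eventually.of_forall fun u => ?_
    simp only []
    rw [ofReal_mul, ← tentS_fourier hl, ← integral_const_mul]
    apply integral_congr_ae
    refine Eventually.of_forall fun t => ?_
    simp only []
    push_cast
    ring
  rw [e1, key, e2]

/-- The smoothed damped function. -/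
noncomputable def wiJ (α : ℝ → ℝ) (l δ y : ℝ) : ℝ :=
  ∫ u in Ioi (0 : ℝ), α u * Real.exp (-u) * Real.exp (-(δ * u)) * fejerS l (u - y)

/-- The limit of the smoothed damped function. -/
noncomputable def wiL (A : ℝ) (H : ℂ → ℂ) (l y : ℝ) : ℝ :=
  A * (∫ u in Ioi (0 : ℝ), fejerS l (u - y))
    + (1 / (2 * Real.pi)) * (∫ t : ℝ, (tentS l t : ℂ) * cexp (t * y * I) * H (1 + t * I)).re

theorem integrable_shift {l : ℝ} (hl : 0 < l) (y : ℝ) :
    Integrable fun u : ℝ => fejerS l (u - y) :=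
  (integrable_fejerS hl).comp_sub_right y

theorem WIData.integrable_J (h : WIData α A H) {l : ℝ} (hl : 0 < l) {δ : ℝ} (hδ : 0 < δ) (y : ℝ) :
    IntegrableOn (fun u : ℝ => α u * Real.exp (-u) * Real.exp (-(δ * u)) * fejerS l (u - y))
      (Ioi 0) := by
  refine (h.integrable_damped hδ).mul_bdd (c := l) ?_ (Eventually.of_forall fun u => ?_)
  · have := continuous_fejerS l
    fun_prop
  · rw [Real.norm_of_nonneg (fejerS_nonneg hl _)]
    exact fejerS_le hl _

theorem WIData.J_eq (h : WIData α A H) {l : ℝ} (hl : 0 < l) {δ : ℝ} (hδ : 0 < δ) (y : ℝ) :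
    wiJ α l δ y = A * (∫ u in Ioi (0 : ℝ), Real.exp (-(δ * u)) * fejerS l (u - y))
      + (1 / (2 * Real.pi)) *
        (∫ t : ℝ, (tentS l t : ℂ) * cexp (t * y * I) * H (1 + δ + t * I)).re := by
  have hpi := Real.pi_pos
  rw [h.fub hl hδ y, ofReal_re]
  have h1 := h.integrable_J hl hδ y
  have h2 : IntegrableOn (fun u : ℝ => Real.exp (-(δ * u)) * fejerS l (u - y)) (Ioi 0) := by
    refine (WIData.integrable_exp hδ).mul_bdd (c := l) ?_ (Eventually.of_forall fun u => ?_)
    · have := continuous_fejerS l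
      fun_prop
    · rw [Real.norm_of_nonneg (fejerS_nonneg hl _)]
      exact fejerS_le hl _
  have h3 : ∫ u in Ioi (0 : ℝ), wiG α A δ u * (2 * Real.pi * fejerS l (u - y))
      = 2 * Real.pi * (wiJ α l δ y
        - A * (∫ u in Ioi (0 : ℝ), Real.exp (-(δ * u)) * fejerS l (u - y))) := by
    unfold wiJ
    rw [← integral_const_mul, ← integral_sub h1 (h2.const_mul A), ← integral_const_mul]
    apply integral_congr_ae
    refine Eventually.of_forall fun u => ?_
    simp only [wiG]
    ring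
  rw [h3]
  field_simp
  ring

theorem WIData.tendsto_J (h : WIData α A H) {l : ℝ} (hl : 0 < l) (y : ℝ) :
    Tendsto (fun δ => wiJ α l δ y) (𝓝[>] 0) (𝓝 (wiL A H l y)) := by
  have hpi := Real.pi_pos
  have hA : Tendsto (fun δ : ℝ => ∫ u in Ioi (0 : ℝ), Real.exp (-(δ * u)) * fejerS l (u - y))
      (𝓝[>] 0) (𝓝 (∫ u in Ioi (0 : ℝ), fejerS l (u - y))) := by
    apply tendsto_integral_filter_of_dominated_convergence (fun u => fejerS l (u - y))
    · refine Eventually.of_forall fun δ => ?_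
      have := continuous_fejerS l
      exact Continuous.aestronglyMeasurable (by fun_prop)
    · filter_upwards [self_mem_nhdsWithin] with δ hδ
      filter_upwards [ae_restrict_mem measurableSet_Ioi] with u hu
      have hδ' : 0 < δ := hδ
      have hu' : 0 < u := hu
      rw [norm_mul, Real.norm_of_nonneg (fejerS_nonneg hl _), Real.norm_of_nonneg (Real.exp_pos _).le]
      have : Real.exp (-(δ * u)) ≤ 1 := by
        rw [Real.exp_le_one_iff]
        have := mul_pos hδ' hu'
        linarith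
      exact mul_le_of_le_one_left (fejerS_nonneg hl _) this
    · exact (integrable_shift hl y).integrableOn
    · refine Eventually.of_forall fun u => ?_
      have : Continuous fun δ : ℝ => Real.exp (-(δ * u)) * fejerS l (u - y) := by fun_prop
      have h0 := (this.tendsto 0).mono_left (nhdsWithin_le_nhds (s := Ioi (0 : ℝ)))
      simpa using h0
  have hB : Tendsto (fun δ : ℝ => ∫ t : ℝ, (tentS l t : ℂ) * cexp (t * y * I) * H (1 + δ + t * I))
      (𝓝[>] 0) (𝓝 (∫ t : ℝ, (tentS l t : ℂ) * cexp (t * y * I) * H (1 + t * I))) := by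
    have hcomp : IsCompact (Icc (1 : ℝ) 2 ×ℂ Icc (-l) l) := isCompact_Icc.reProdIm isCompact_Icc
    have hsub : (Icc (1 : ℝ) 2 ×ℂ Icc (-l) l) ⊆ {s : ℂ | 1 ≤ s.re} := by
      intro s hs
      exact (Complex.mem_reProdIm.mp hs).1.1
    obtain ⟨C, hC⟩ := hcomp.exists_bound_of_continuousOn (h.cont.mono hsub)
    have hcont : ∀ δ : ℝ, 0 ≤ δ → Continuous fun t : ℝ => H (1 + δ + t * I) := by
      intro δ hδ
      apply h.cont.comp_continuous (by fun_prop)
      intro t
      simp [hδ]
    apply tendsto_integral_filter_of_dominated_convergence (fun t => C * tentS l t)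
    · filter_upwards [self_mem_nhdsWithin] with δ hδ
      have h1 := hcont δ (le_of_lt hδ)
      have h2 := continuous_tentS l
      refine Continuous.aestronglyMeasurable (Continuous.mul ?_ h1)
      fun_prop
    · have hmem : Ioo (0 : ℝ) 1 ∈ 𝓝[>] (0 : ℝ) := Ioo_mem_nhdsGT one_pos
      filter_upwards [hmem] with δ hδ
      refine Eventually.of_forall fun t => ?_
      rw [norm_mul, norm_mul, show ((t : ℂ) * y * I) = ((t * y : ℝ) : ℂ) * I by push_cast; ring,
        Complex.norm_exp_ofReal_mul_I, mul_one, Complex.norm_real,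
        Real.norm_of_nonneg (tentS_nonneg _ _), mul_comm]
      rcases le_or_gt l |t| with ht | ht
      · rw [tentS_eq_zero hl ht]; simp
      · apply mul_le_mul_of_nonneg_right _ (tentS_nonneg _ _)
        apply hC
        rw [Complex.mem_reProdIm]
        rw [abs_lt] at ht
        simp only [add_re, one_re, ofReal_re, mul_re, I_re, mul_zero, ofReal_im, I_im, mul_one,
          sub_self, add_zero, add_im, one_im, mul_im, zero_add, mem_Icc]
        exact ⟨⟨by linarith [hδ.1], by linarith [hδ.2]⟩, ht.1.le, ht.2.le⟩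
    · exact (integrable_tentS hl).const_mul C
    · refine Eventually.of_forall fun t => ?_
      apply Tendsto.const_mul
      have hc := h.cont (1 + t * I) (by simp)
      refine Tendsto.comp hc ?_
      rw [tendsto_nhdsWithin_iff]
      constructor
      · have : Continuous fun δ : ℝ => (1 + δ + t * I : ℂ) := by fun_prop
        have h0 := (this.tendsto 0).mono_left (nhdsWithin_le_nhds (s := Ioi (0 : ℝ)))
        simpa using h0
      · filter_upwards [self_mem_nhdsWithin] with δ hδ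
        have hδ' : 0 < δ := hδ
        simp [hδ'.le]
  have hsum := (hA.const_mul A).add (((continuous_re.tendsto _).comp hB).const_mul (1 / (2 * Real.pi)))
  refine Tendsto.congr' ?_ hsum
  filter_upwards [self_mem_nhdsWithin] with δ hδ
  rw [h.J_eq hl hδ y]
  rfl

theorem WIData.tendsto_L (_h : WIData α A H) {l : ℝ} (hl : 0 < l) :
    Tendsto (wiL A H l) atTop (𝓝 A) := by
  have hA : Tendsto (fun y : ℝ => ∫ u in Ioi (0 : ℝ), fejerS l (u - y)) atTop (𝓝 1) := by
    have h1 : ∀ y : ℝ, ∫ u in Ioi (0 : ℝ), fejerS l (u - y) = ∫ v in Ioi (-y), fejerS l v := by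
      intro y
      rw [← integral_indicator measurableSet_Ioi, ← integral_indicator measurableSet_Ioi,
        ← integral_sub_right_eq_self (fun v => (Ioi (-y)).indicator (fejerS l) v) y]
      apply integral_congr_ae
      refine Eventually.of_forall fun u => ?_
      simp only [indicator, mem_Ioi]
      by_cases hu : 0 < u
      · rw [if_pos hu, if_pos (by linarith)]
      · rw [if_neg hu, if_neg (by intro h; exact hu (by linarith))]
    simp_rw [h1]
    have hc : AECover (volume : Measure ℝ) atTop (fun y : ℝ => Ioi (-y)) :=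
      aecover_Ioi tendsto_neg_atTop_atBot
    have := hc.integral_tendsto_of_countably_generated (integrable_fejerS hl)
    rwa [integral_fejerS hl] at this
  have hB : Tendsto (fun y : ℝ => ∫ t : ℝ, (tentS l t : ℂ) * cexp (t * y * I) * H (1 + t * I))
      atTop (𝓝 0) := by
    have hRL := Real.tendsto_integral_exp_smul_cocompact
      (fun t : ℝ => (tentS l t : ℂ) * H (1 + t * I))
    have hy : Tendsto (fun y : ℝ => -(y / (2 * Real.pi))) atTop (cocompact ℝ) := by
      have h1 : Tendsto (fun y : ℝ => -(y / (2 * Real.pi))) atTop atBot :=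
        tendsto_neg_atTop_atBot.comp (tendsto_id.atTop_div_const (by positivity))
      exact h1.mono_right atBot_le_cocompact
    refine (hRL.comp hy).congr fun y => ?_
    simp only [Function.comp]
    apply integral_congr_ae
    refine Eventually.of_forall fun t => ?_
    simp only [Real.fourierChar_apply, Circle.smul_def, smul_eq_mul]
    have hpi := Real.pi_pos
    have : ((2 * Real.pi * (-(t * -(y / (2 * Real.pi)))) : ℝ) : ℂ) * I = t * y * I := by
      push_cast
      have : (Real.pi : ℂ) ≠ 0 := by exact_mod_cast hpi.ne'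
      field_simp
    rw [this]
    ring
  have hsum := (hA.const_mul A).add (((continuous_re.tendsto _).comp hB).const_mul (1 / (2 * Real.pi)))
  simp only [zero_re, mul_zero, add_zero, mul_one] at hsum
  exact hsum

/-- Mass of the kernel on `[-η, η]`. -/
noncomputable def wiP (l η : ℝ) : ℝ := ∫ u in (-η)..η, fejerS l u

theorem tendsto_P {η : ℝ} (hη : 0 < η) : Tendsto (fun l => wiP l η) atTop (𝓝 1) := by
  have h1 : ∀ l, wiP l η = ∫ u in (l * (-η))..(l * η), fejer u := by
    intro l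
    unfold wiP fejerS
    rw [intervalIntegral.integral_const_mul, intervalIntegral.mul_integral_comp_mul_left]
  simp_rw [h1]
  rw [← integral_fejer]
  apply intervalIntegral_tendsto_integral integrable_fejer
  · exact tendsto_id.atTop_mul_const_of_neg (by linarith)
  · exact tendsto_id.atTop_mul_const hη

theorem wiP_le_one {l η : ℝ} (hl : 0 < l) (hη : 0 < η) : wiP l η ≤ 1 := by
  unfold wiP
  rw [intervalIntegral.integral_of_le (by linarith), ← integral_fejerS hl]
  exact setIntegral_le_integral (integrable_fejerS hl)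
    (Eventually.of_forall fun u => fejerS_nonneg hl u)

theorem wiP_shift (l η y : ℝ) (hη : 0 < η) :
    ∫ u in Ioc (y - η) (y + η), fejerS l (u - y) = wiP l η := by
  rw [← intervalIntegral.integral_of_le (by linarith), intervalIntegral.integral_comp_sub_right]
  unfold wiP
  congr 1 <;> ring

theorem WIData.upper (h : WIData α A H) {l η y : ℝ} (hl : 0 < l) (hη : 0 < η) (hy : η ≤ y) :
    α (y - η) * Real.exp (-(y + η)) * wiP l η ≤ wiL A H l y := by
  have h0 : 0 ≤ α (y - η) := h.nonneg _ (by linarith)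
  have h1 : ∀ δ > 0, α (y - η) * Real.exp (-(y + η)) * Real.exp (-(δ * (y + η))) * wiP l η
      ≤ wiJ α l δ y := by
    intro δ hδ
    have hint := h.integrable_J hl hδ y
    have hsub : Ioc (y - η) (y + η) ⊆ Ioi 0 := fun u hu => lt_of_le_of_lt (by linarith) hu.1
    have h2 : ∫ u in Ioc (y - η) (y + η),
        α u * Real.exp (-u) * Real.exp (-(δ * u)) * fejerS l (u - y) ≤ wiJ α l δ y := by
      unfold wiJ
      apply setIntegral_mono_set hint
      · filter_upwards [ae_restrict_mem measurableSet_Ioi] with u hu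
        have hu' : (0 : ℝ) < u := hu
        have h3 := h.nonneg u hu'.le
        have h4 := fejerS_nonneg hl (u - y)
        simp only [Pi.zero_apply]
        positivity
      · exact hsub.eventuallyLE
    refine le_trans ?_ h2
    rw [← wiP_shift l η y hη, ← integral_const_mul]
    apply setIntegral_mono_on ((integrable_shift hl y).integrableOn.const_mul _)
      (hint.mono_set hsub) measurableSet_Ioc
    intro u hu
    have hu0 : 0 < u := hsub hu
    apply mul_le_mul_of_nonneg_right _ (fejerS_nonneg hl _)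
    have hm : α (y - η) ≤ α u := h.mono (by simp only [mem_Ici]; linarith) hu0.le hu.1.le
    have he : Real.exp (-(y + η)) ≤ Real.exp (-u) := Real.exp_le_exp.mpr (by linarith [hu.2])
    have he2 : Real.exp (-(δ * (y + η))) ≤ Real.exp (-(δ * u)) := by
      apply Real.exp_le_exp.mpr
      have := mul_le_mul_of_nonneg_left hu.2 hδ.le
      linarith
    have h3 := h.nonneg u hu0.le
    gcongr
  have h2 : Tendsto (fun δ : ℝ => α (y - η) * Real.exp (-(y + η)) * Real.exp (-(δ * (y + η)))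
      * wiP l η) (𝓝[>] 0) (𝓝 (α (y - η) * Real.exp (-(y + η)) * wiP l η)) := by
    have : Continuous fun δ : ℝ => α (y - η) * Real.exp (-(y + η)) * Real.exp (-(δ * (y + η)))
      * wiP l η := by fun_prop
    have h0 := (this.tendsto 0).mono_left (nhdsWithin_le_nhds (s := Ioi (0 : ℝ)))
    simpa using h0
  refine le_of_tendsto_of_tendsto h2 (h.tendsto_J hl y) ?_
  filter_upwards [self_mem_nhdsWithin] with δ hδ
  exact h1 δ hδ

theorem WIData.lower (h : WIData α A H) {l η y M : ℝ} (hl : 0 < l) (hη : 0 < η) (hy : η ≤ y)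
    (hM : ∀ u, 0 ≤ u → α u * Real.exp (-u) ≤ M) :
    wiL A H l y ≤ α (y + η) * Real.exp (-(y - η)) * wiP l η + M * (1 - wiP l η) := by
  have h0 : 0 ≤ α (y + η) := h.nonneg _ (by linarith)
  have hM0 : 0 ≤ M := le_trans (mul_nonneg (h.nonneg 0 le_rfl) (Real.exp_pos _).le) (hM 0 le_rfl)
  set c : ℝ := α (y + η) * Real.exp (-(y - η)) with hc
  have hc0 : 0 ≤ c := mul_nonneg h0 (Real.exp_pos _).le
  have h1 : ∀ δ > 0, wiJ α l δ y ≤ c * wiP l η + M * (1 - wiP l η) := by
    intro δ hδ
    have hint := h.integrable_J hl hδ y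
    set Bd : ℝ → ℝ := fun u => M * fejerS l (u - y)
      + (Ioc (y - η) (y + η)).indicator (fun u => (c - M) * fejerS l (u - y)) u with hBd
    have hi1 : Integrable fun u => M * fejerS l (u - y) := (integrable_shift hl y).const_mul M
    have hi2 : Integrable ((Ioc (y - η) (y + η)).indicator
        (fun u => (c - M) * fejerS l (u - y))) :=
      ((integrable_shift hl y).const_mul _).indicator measurableSet_Ioc
    have hBdi : Integrable Bd := hi1.add hi2
    have hBd_eq : ∀ u, Bd u = (if u ∈ Ioc (y - η) (y + η) then c else M) * fejerS l (u - y) := by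
      intro u
      simp only [hBd, indicator]
      split_ifs
      · ring
      · ring
    have hBd0 : ∀ u, 0 ≤ Bd u := by
      intro u
      rw [hBd_eq]
      apply mul_nonneg _ (fejerS_nonneg hl _)
      split_ifs
      · exact hc0
      · exact hM0
    have h2 : wiJ α l δ y ≤ ∫ u in Ioi (0 : ℝ), Bd u := by
      unfold wiJ
      apply setIntegral_mono_on hint hBdi.integrableOn measurableSet_Ioi
      intro u hu
      have hu0 : (0 : ℝ) < u := hu
      have h3 := h.nonneg u hu0.le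
      rw [hBd_eq]
      apply mul_le_mul_of_nonneg_right _ (fejerS_nonneg hl _)
      have he : Real.exp (-(δ * u)) ≤ 1 := by
        rw [Real.exp_le_one_iff]
        have := mul_pos hδ hu0
        linarith
      have hle : α u * Real.exp (-u) * Real.exp (-(δ * u)) ≤ α u * Real.exp (-u) :=
        mul_le_of_le_one_right (by positivity) he
      refine hle.trans ?_
      split_ifs with hu1
      · rw [hc]
        have hm : α u ≤ α (y + η) := h.mono hu0.le (by simp only [mem_Ici]; linarith) hu1.2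
        have he : Real.exp (-u) ≤ Real.exp (-(y - η)) := Real.exp_le_exp.mpr (by linarith [hu1.1])
        gcongr
      · exact hM u hu0.le
    have h3 : ∫ u in Ioi (0 : ℝ), Bd u ≤ ∫ u, Bd u :=
      setIntegral_le_integral hBdi (Eventually.of_forall hBd0)
    have h4 : ∫ u, Bd u = c * wiP l η + M * (1 - wiP l η) := by
      rw [hBd, integral_add hi1 hi2, integral_indicator measurableSet_Ioc, integral_const_mul,
        integral_const_mul, wiP_shift l η y hη,
        integral_sub_right_eq_self (fun v => fejerS l v) y, integral_fejerS hl]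
      ring
    linarith
  refine le_of_tendsto (h.tendsto_J hl y) ?_
  filter_upwards [self_mem_nhdsWithin] with δ hδ
  exact h1 δ hδ

theorem WIData.A_nonneg (h : WIData α A H) : 0 ≤ A := by
  have hP : ∃ l : ℝ, 0 < l ∧ 0 < wiP l 1 := by
    have h1 := (tendsto_P one_pos).eventually (lt_mem_nhds (show (0 : ℝ) < 1 by norm_num))
    obtain ⟨l, hl, hl2⟩ := (h1.and (eventually_gt_atTop 0)).exists
    exact ⟨l, hl2, hl⟩
  obtain ⟨l, hl, hP⟩ := hP
  refine ge_of_tendsto (h.tendsto_L hl) ?_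
  filter_upwards [eventually_ge_atTop (1 : ℝ)] with y hy
  refine le_trans ?_ (h.upper hl one_pos hy)
  have := h.nonneg (y - 1) (by linarith)
  positivity

theorem WIData.exists_bound (h : WIData α A H) :
    ∃ M, ∀ u, 0 ≤ u → α u * Real.exp (-u) ≤ M := by
  have hP : ∃ l : ℝ, 0 < l ∧ 1 / 2 < wiP l 1 := by
    have h1 := (tendsto_P one_pos).eventually (lt_mem_nhds (show (1 / 2 : ℝ) < 1 by norm_num))
    obtain ⟨l, hl, hl2⟩ := (h1.and (eventually_gt_atTop 0)).exists
    exact ⟨l, hl2, hl⟩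
  obtain ⟨l, hl, hP⟩ := hP
  have hL := (h.tendsto_L hl).eventually (gt_mem_nhds (show A < A + 1 by linarith))
  obtain ⟨Y, hY⟩ := eventually_atTop.mp hL
  set U := max Y 0 with hU
  refine ⟨max (α U) (2 * Real.exp 2 * (A + 1)), fun u hu => ?_⟩
  rcases le_or_gt u U with h1 | h1
  · apply le_max_of_le_left
    have h2 : α u ≤ α U := h.mono hu (by simp [hU]) h1
    have h3 : Real.exp (-u) ≤ 1 := by rw [Real.exp_le_one_iff]; linarith
    calc α u * Real.exp (-u) ≤ α u := mul_le_of_le_one_right (h.nonneg u hu) h3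
      _ ≤ α U := h2
  · apply le_max_of_le_right
    have hyY : Y ≤ u + 1 := by
      have := le_max_left Y 0
      linarith
    have h2 := h.upper hl one_pos (y := u + 1) (by linarith)
    have h3 := hY (u + 1) hyY
    rw [show u + 1 - 1 = u by ring, show -(u + 1 + 1) = -u + -2 by ring, Real.exp_add] at h2
    have h4 := h.nonneg u hu
    have h5 : 0 ≤ α u * (Real.exp (-u) * Real.exp (-2)) := by positivity
    have h6 : α u * (Real.exp (-u) * Real.exp (-2)) * (1 / 2) ≤ A + 1 := by
      calc α u * (Real.exp (-u) * Real.exp (-2)) * (1 / 2)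
          ≤ α u * (Real.exp (-u) * Real.exp (-2)) * wiP l 1 := by gcongr
        _ ≤ A + 1 := by linarith
    have h7 : Real.exp 2 * Real.exp (-2) = 1 := by rw [← Real.exp_add]; simp
    calc α u * Real.exp (-u) = 2 * Real.exp 2 * (α u * (Real.exp (-u) * Real.exp (-2)) * (1 / 2)) := by
          linear_combination (-(α u * Real.exp (-u))) * h7
      _ ≤ 2 * Real.exp 2 * (A + 1) := by gcongr

/-- **Wiener-Ikehara theorem**, Laplace transform form. -/
theorem WIData.tendsto (h : WIData α A H) :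
    Tendsto (fun u => α u * Real.exp (-u)) atTop (𝓝 A) := by
  have hA := h.A_nonneg
  obtain ⟨M, hM⟩ := h.exists_bound
  have hM0 : 0 ≤ M := le_trans (mul_nonneg (h.nonneg 0 le_rfl) (Real.exp_pos _).le) (hM 0 le_rfl)
  rw [tendsto_order]
  constructor
  · intro a ha
    have hc : Continuous fun η : ℝ => Real.exp (-(2 * η)) * (A - η - M * η) := by fun_prop
    have h1 : ∀ᶠ η in 𝓝[>] (0 : ℝ), a < Real.exp (-(2 * η)) * (A - η - M * η) := by
      have := (hc.tendsto 0).mono_left (nhdsWithin_le_nhds (s := Ioi (0 : ℝ)))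
      simp only [mul_zero, neg_zero, Real.exp_zero, sub_zero, one_mul] at this
      exact this.eventually (lt_mem_nhds ha)
    obtain ⟨η, hη1, hη2⟩ := (h1.and (Ioo_mem_nhdsGT (show (0 : ℝ) < 1 by norm_num))).exists
    have hP := (tendsto_P hη2.1).eventually (lt_mem_nhds (show 1 - η < 1 by linarith [hη2.1]))
    obtain ⟨l, hPl, hl⟩ := (hP.and (eventually_gt_atTop 0)).exists
    have hL := (h.tendsto_L hl).eventually (lt_mem_nhds (show A - η < A by linarith [hη2.1]))
    obtain ⟨Y, hY⟩ := eventually_atTop.mp hL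
    filter_upwards [eventually_ge_atTop (max Y 0 + 2)] with u hu
    have hY0 := le_max_left Y 0
    have hY1 := le_max_right Y 0
    have h2 := hY (u - η) (by linarith [hη2.2])
    have h3 := h.lower hl hη2.1 (y := u - η) (by linarith [hη2.2]) hM
    rw [show u - η + η = u by ring, show -(u - η - η) = -u + 2 * η by ring, Real.exp_add] at h3
    have hP1 := wiP_le_one hl hη2.1
    have hu0 : 0 ≤ α u := h.nonneg u (by linarith)
    have h4 : α u * (Real.exp (-u) * Real.exp (2 * η)) * wiP l η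
        ≤ α u * Real.exp (-u) * Real.exp (2 * η) := by
      rw [← mul_assoc]
      exact mul_le_of_le_one_right (by positivity) hP1
    have h5 : M * (1 - wiP l η) ≤ M * η := by
      apply mul_le_mul_of_nonneg_left _ hM0
      linarith
    have h6 : A - η - M * η ≤ α u * Real.exp (-u) * Real.exp (2 * η) := by linarith
    have h7 : Real.exp (-(2 * η)) * Real.exp (2 * η) = 1 := by rw [← Real.exp_add]; simp
    calc a < Real.exp (-(2 * η)) * (A - η - M * η) := hη1
      _ ≤ Real.exp (-(2 * η)) * (α u * Real.exp (-u) * Real.exp (2 * η)) := by gcongr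
      _ = α u * Real.exp (-u) := by linear_combination (α u * Real.exp (-u)) * h7
  · intro a ha
    have hc : ContinuousAt (fun η : ℝ => Real.exp (2 * η) * (A + η) / (1 - η)) 0 := by
      apply ContinuousAt.div (by fun_prop) (by fun_prop) (by norm_num)
    have h1 : ∀ᶠ η in 𝓝[>] (0 : ℝ), Real.exp (2 * η) * (A + η) / (1 - η) < a := by
      have := hc.tendsto.mono_left (nhdsWithin_le_nhds (s := Ioi (0 : ℝ)))
      simp only [mul_zero, Real.exp_zero, sub_zero, one_mul, add_zero, div_one] at this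
      exact this.eventually (gt_mem_nhds ha)
    obtain ⟨η, hη1, hη2⟩ := (h1.and (Ioo_mem_nhdsGT (show (0 : ℝ) < 1 by norm_num))).exists
    have hP := (tendsto_P hη2.1).eventually (lt_mem_nhds (show 1 - η < 1 by linarith [hη2.1]))
    obtain ⟨l, hPl, hl⟩ := (hP.and (eventually_gt_atTop 0)).exists
    have hL := (h.tendsto_L hl).eventually (gt_mem_nhds (show A < A + η by linarith [hη2.1]))
    obtain ⟨Y, hY⟩ := eventually_atTop.mp hL
    filter_upwards [eventually_ge_atTop (max Y 0)] with u hu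
    have hY0 := le_max_left Y 0
    have hY1 := le_max_right Y 0
    have h2 := hY (u + η) (by linarith [hη2.1])
    have h3 := h.upper hl hη2.1 (y := u + η) (by linarith)
    rw [show u + η - η = u by ring, show -(u + η + η) = -u + -(2 * η) by ring, Real.exp_add] at h3
    have hu0 : 0 ≤ α u := h.nonneg u (by linarith)
    have h4 : α u * (Real.exp (-u) * Real.exp (-(2 * η))) * (1 - η)
        ≤ α u * (Real.exp (-u) * Real.exp (-(2 * η))) * wiP l η := by
      apply mul_le_mul_of_nonneg_left hPl.le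
      positivity
    have h6 : α u * (Real.exp (-u) * Real.exp (-(2 * η))) * (1 - η) ≤ A + η := by linarith
    have h7 : Real.exp (2 * η) * Real.exp (-(2 * η)) = 1 := by rw [← Real.exp_add]; simp
    have h8 : 0 < 1 - η := by linarith [hη2.2]
    calc α u * Real.exp (-u)
        = Real.exp (2 * η) * (α u * (Real.exp (-u) * Real.exp (-(2 * η))) * (1 - η)) / (1 - η) := by
          rw [eq_div_iff h8.ne']
          linear_combination (-(α u * Real.exp (-u) * (1 - η))) * h7
      _ ≤ Real.exp (2 * η) * (A + η) / (1 - η) := by gcongr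
      _ < a := hη1

end Pool.Agent.Lib.PNT
end

-- from Lib.PNT.Dirichlet
section

/-!
# The Wiener-Ikehara theorem for Dirichlet series
-/

open Complex MeasureTheory Filter Topology Set

namespace Pool.Agent.Lib.PNT

/-- The summatory function. -/
noncomputable def summ (a : ℕ → ℝ) (x : ℝ) : ℝ := ∑ k ∈ Finset.Icc 1 ⌊x⌋₊, a k

theorem summ_mono {a : ℕ → ℝ} (ha : ∀ n, 0 ≤ a n) : Monotone (summ a) := by
  intro x y hxy
  unfold summ
  apply Finset.sum_le_sum_of_subset_of_nonneg
  · exact Finset.Icc_subset_Icc_right (Nat.floor_le_floor hxy)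
  · intro i _ _
    exact ha i

theorem summ_nonneg {a : ℕ → ℝ} (ha : ∀ n, 0 ≤ a n) (x : ℝ) : 0 ≤ summ a x :=
  Finset.sum_nonneg fun i _ => ha i

theorem summ_le_rpow {a : ℕ → ℝ} (ha : ∀ n, 0 ≤ a n) {r : ℝ} (hr : 0 ≤ r)
    (hS : LSeriesSummable (fun n => (a n : ℂ)) r) :
    ∃ C, 0 ≤ C ∧ ∀ x : ℝ, 1 ≤ x → summ a x ≤ C * x ^ r := by
  have h1 : Summable fun n : ℕ => ‖LSeries.term (fun n => (a n : ℂ)) r n‖ := hS.norm
  refine ⟨∑' n : ℕ, ‖LSeries.term (fun n => (a n : ℂ)) r n‖, tsum_nonneg fun n => norm_nonneg _,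
    fun x hx => ?_⟩
  have h2 : ∀ k ∈ Finset.Icc 1 ⌊x⌋₊, a k ≤ x ^ r * ‖LSeries.term (fun n => (a n : ℂ)) r k‖ := by
    intro k hk
    rw [Finset.mem_Icc] at hk
    have hk0 : k ≠ 0 := by omega
    have hkpos : (0 : ℝ) < k := by exact_mod_cast hk.1
    have hkx : (k : ℝ) ≤ x := (Nat.le_floor_iff (by linarith)).mp hk.2
    rw [LSeries.norm_term_eq, if_neg hk0, Complex.norm_real, Real.norm_of_nonneg (ha k), ofReal_re]
    rw [mul_div_assoc', le_div_iff₀ (Real.rpow_pos_of_pos hkpos _), mul_comm]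
    exact mul_le_mul_of_nonneg_right (Real.rpow_le_rpow hkpos.le hkx hr) (ha k)
  calc summ a x ≤ ∑ k ∈ Finset.Icc 1 ⌊x⌋₊, x ^ r * ‖LSeries.term (fun n => (a n : ℂ)) r k‖ :=
        Finset.sum_le_sum h2
    _ = x ^ r * ∑ k ∈ Finset.Icc 1 ⌊x⌋₊, ‖LSeries.term (fun n => (a n : ℂ)) r k‖ := by
        rw [Finset.mul_sum]
    _ ≤ x ^ r * ∑' n : ℕ, ‖LSeries.term (fun n => (a n : ℂ)) r n‖ := by
        apply mul_le_mul_of_nonneg_left _ (by positivity)
        exact h1.sum_le_tsum _ fun i _ => norm_nonneg _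
    _ = _ := mul_comm _ _

theorem wiData_of_dirichlet (a : ℕ → ℝ) (ha : ∀ n, 0 ≤ a n) (A : ℝ) (G : ℂ → ℂ)
    (hS : ∀ σ : ℝ, 1 < σ → LSeriesSummable (fun n => (a n : ℂ)) σ)
    (hG : ContinuousOn G {s | 1 ≤ s.re})
    (hE : ∀ s : ℂ, 1 < s.re → LSeries (fun n => (a n : ℂ)) s = G s + A / (s - 1)) :
    WIData (fun u => summ a (Real.exp u)) A (fun s => (G s - A) / s) where
  mono := by
    intro u _ v _ huv
    exact summ_mono ha (Real.exp_le_exp.mpr huv)
  nonneg := fun u _ => summ_nonneg ha _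
  int := by
    intro σ hσ
    obtain ⟨C, hC0, hC⟩ := summ_le_rpow ha (r := (1 + σ) / 2) (by linarith)
      (hS _ (by linarith))
    have hm : Measurable fun u => summ a (Real.exp u) :=
      Monotone.measurable fun u v huv => summ_mono ha (Real.exp_le_exp.mpr huv)
    refine Integrable.mono' (g := fun u => C * Real.exp (-((σ - 1) / 2) * u))
      ((integrableOn_exp_mul_Ioi (by linarith) 0).const_mul C) ?_ ?_
    · exact Measurable.aestronglyMeasurable (by fun_prop)
    · filter_upwards [ae_restrict_mem measurableSet_Ioi] with u hu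
      have hu0 : (0 : ℝ) < u := hu
      rw [Real.norm_of_nonneg (mul_nonneg (summ_nonneg ha _) (Real.exp_pos _).le)]
      have h1 := hC (Real.exp u) (by rw [Real.one_le_exp_iff]; exact hu0.le)
      rw [← Real.exp_mul] at h1
      calc summ a (Real.exp u) * Real.exp (-(σ * u))
          ≤ C * Real.exp (u * ((1 + σ) / 2)) * Real.exp (-(σ * u)) := by gcongr
        _ = C * Real.exp (-((σ - 1) / 2) * u) := by
            rw [mul_assoc, ← Real.exp_add]; ring_nf
  cont := by
    apply ContinuousOn.div (hG.sub continuousOn_const) continuousOn_id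
    intro s hs h0
    have : (1 : ℝ) ≤ s.re := hs
    rw [id] at h0
    rw [h0] at this
    simp at this
    linarith
  lap := by
    intro s hs
    have hs0 : s ≠ 0 := by
      intro h0; rw [h0] at hs; simp at hs; linarith
    have hs1 : s - 1 ≠ 0 := by
      intro h0
      have : s = 1 := by linear_combination h0
      rw [this] at hs; simp at hs
    obtain ⟨C, hC0, hC⟩ := summ_le_rpow ha (r := (1 + s.re) / 2) (by linarith)
      (hS _ (by linarith))
    have hO : (fun n : ℕ => ∑ k ∈ Finset.Icc 1 n, a k) =O[atTop]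
        fun n : ℕ => (n : ℝ) ^ ((1 + s.re) / 2) := by
      apply Asymptotics.IsBigO.of_bound C
      filter_upwards [eventually_ge_atTop 1] with n hn
      have h1 := hC n (by exact_mod_cast hn)
      unfold summ at h1
      rw [Nat.floor_natCast] at h1
      rw [Real.norm_of_nonneg (Finset.sum_nonneg fun i _ => ha i),
        Real.norm_of_nonneg (by positivity)]
      exact h1
    have h1 := LSeries_eq_mul_integral_of_nonneg a (r := (1 + s.re) / 2) (by linarith)
      (s := s) (by linarith) hO ha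
    have h2 := integral_comp_exp_Ioi
      (fun t : ℝ => (∑ k ∈ Finset.Icc 1 ⌊t⌋₊, (a k : ℂ)) * (t : ℂ) ^ (-(s + 1))) 0
    rw [Real.exp_zero] at h2
    rw [← h2] at h1
    have h3 : ∫ x in Ioi (0 : ℝ), Real.exp x • ((∑ k ∈ Finset.Icc 1 ⌊Real.exp x⌋₊, (a k : ℂ)) *
        ((Real.exp x : ℝ) : ℂ) ^ (-(s + 1)))
        = ∫ u in Ioi (0 : ℝ), ((summ a (Real.exp u) : ℝ) : ℂ) * cexp (-(s * u)) := by
      apply integral_congr_ae
      refine Eventually.of_forall fun u => ?_
      simp only [summ, real_smul]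
      push_cast
      have h4 : (cexp u) ^ (-(s + 1)) = cexp (-(s + 1) * u) := by
        rw [← ofReal_exp, Complex.cpow_def_of_ne_zero (by exact_mod_cast (Real.exp_pos u).ne'),
          ← Complex.ofReal_log (Real.exp_pos u).le, Real.log_exp, mul_comm]
      rw [h4]
      have h5 : cexp (-(s * u)) = cexp u * cexp (-(s + 1) * u) := by
        rw [← Complex.exp_add]; ring_nf
      rw [h5]
      ring
    rw [h3, hE s hs] at h1
    have h6 : ∫ u in Ioi (0 : ℝ), ((summ a (Real.exp u) : ℝ) : ℂ) * cexp (-(s * u))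
        = (G s + A / (s - 1)) / s := by
      rw [h1]; field_simp
    rw [h6]
    field_simp
    ring

/-- **Wiener-Ikehara theorem** for Dirichlet series with nonnegative coefficients. -/
theorem wiener_ikehara (a : ℕ → ℝ) (ha : ∀ n, 0 ≤ a n) (A : ℝ) (G : ℂ → ℂ)
    (hS : ∀ σ : ℝ, 1 < σ → LSeriesSummable (fun n => (a n : ℂ)) σ)
    (hG : ContinuousOn G {s | 1 ≤ s.re})
    (hE : ∀ s : ℂ, 1 < s.re → LSeries (fun n => (a n : ℂ)) s = G s + A / (s - 1)) :
    Tendsto (fun x : ℝ => summ a x / x) atTop (𝓝 A) := by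
  have h := (wiData_of_dirichlet a ha A G hS hG hE).tendsto
  refine (h.comp Real.tendsto_log_atTop).congr' ?_
  filter_upwards [eventually_gt_atTop 0] with x hx
  simp only [Function.comp]
  rw [Real.exp_neg, Real.exp_log hx, div_eq_mul_inv]


end Pool.Agent.Lib.PNT
end

-- from Lib.PNT.PNT
section

/-!
# The prime number theorem, also in arithmetic progressions
-/

open Complex MeasureTheory Filter Topology Set

namespace Pool.Agent.Lib.PNT

/-- Chebyshev's theta function for the primes with property `P`. -/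
noncomputable def thetaP (P : ℕ → Prop) [DecidablePred P] (x : ℝ) : ℝ :=
  ∑ p ∈ Finset.Ioc 0 ⌊x⌋₊ with p.Prime ∧ P p, Real.log p


variable {P : ℕ → Prop} [DecidablePred P]












section AP

variable {q : ℕ} [NeZero q] {a : ZMod q}

open ArithmeticFunction ArithmeticFunction.vonMangoldt

theorem summ_residueClass_tendsto (ha : IsUnit a) :
    Tendsto (fun x : ℝ => summ (residueClass a) x / x) atTop (𝓝 (q.totient : ℝ)⁻¹) := by
  apply wiener_ikehara _ (fun n => residueClass_nonneg a n) _ (LFunctionResidueClassAux a)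
  · intro σ hσ
    apply LSeriesSummable_of_abscissaOfAbsConv_lt_re
    refine (abscissaOfAbsConv_residueClass_le_one a).trans_lt ?_
    rw [ofReal_re]
    exact_mod_cast hσ
  · exact continuousOn_LFunctionResidueClassAux a
  · intro s hs
    have h := eqOn_LFunctionResidueClassAux ha hs
    rw [h]
    push_cast
    ring

theorem summ_residueClass_sub_thetaP (x : ℝ) :
    |summ (residueClass a) x - thetaP (fun p => (p : ZMod q) = a) x|
      ≤ Chebyshev.psi x - Chebyshev.theta x := by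
  have h1 : summ (residueClass a) x - thetaP (fun p => (p : ZMod q) = a) x
      = ∑ n ∈ Finset.Ioc 0 ⌊x⌋₊ with ¬ n.Prime, residueClass a n := by
    unfold summ thetaP
    rw [show Finset.Icc 1 ⌊x⌋₊ = Finset.Ioc 0 ⌊x⌋₊ from rfl,
      ← Finset.sum_filter_add_sum_filter_not (Finset.Ioc 0 ⌊x⌋₊) (fun p => p.Prime)]
    have : ∑ n ∈ Finset.Ioc 0 ⌊x⌋₊ with n.Prime, residueClass a n
        = ∑ p ∈ Finset.filter (fun p : ℕ => p.Prime ∧ (p : ZMod q) = a) (Finset.Ioc 0 ⌊x⌋₊),
          Real.log p := by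
      rw [Finset.sum_filter, Finset.sum_filter]
      apply Finset.sum_congr rfl
      intro p _
      by_cases hp : p.Prime
      · by_cases h2 : (p : ZMod q) = a
        · rw [if_pos hp, if_pos ⟨hp, h2⟩]
          simp only [residueClass]
          rw [Set.indicator_of_mem (by exact h2), vonMangoldt_apply_prime hp]
        · rw [if_pos hp, if_neg (fun h => h2 h.2)]
          simp only [residueClass]
          rw [Set.indicator_of_notMem (by exact h2)]
      · rw [if_neg hp, if_neg (fun h => hp h.1)]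
    rw [this]
    ring
  rw [h1, Chebyshev.psi_sub_theta_eq_sum_not_prime, abs_of_nonneg
    (Finset.sum_nonneg fun n _ => residueClass_nonneg a n)]
  exact Finset.sum_le_sum fun n _ => residueClass_le a n

theorem psi_sub_theta_div_tendsto :
    Tendsto (fun x : ℝ => (Chebyshev.psi x - Chebyshev.theta x) / x) atTop (𝓝 0) := by
  obtain ⟨C, hC⟩ := Chebyshev.psi_sub_theta_le_mul_sqrt
  have h1 : Tendsto (fun x : ℝ => C * (x ^ (1 / 2 : ℝ))⁻¹) atTop (𝓝 (C * 0)) :=
    ((tendsto_rpow_atTop (by norm_num)).inv_tendsto_atTop).const_mul C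
  rw [mul_zero] at h1
  refine squeeze_zero' ?_ ?_ h1
  · filter_upwards [eventually_gt_atTop 0] with x hx
    have := Chebyshev.theta_le_psi x
    exact div_nonneg (by linarith) hx.le
  · filter_upwards [eventually_gt_atTop 0] with x hx
    rw [← Real.sqrt_eq_rpow, div_le_iff₀ hx]
    refine (hC x).trans (le_of_eq ?_)
    have h2 : √x ≠ 0 := (Real.sqrt_pos.mpr hx).ne'
    have h3 : √x * √x = x := Real.mul_self_sqrt hx.le
    field_simp
    linear_combination C * h3

/-- **Prime number theorem in arithmetic progressions**, theta form. -/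
theorem thetaAP_tendsto (ha : IsUnit a) :
    Tendsto (fun x : ℝ => thetaP (fun p => (p : ZMod q) = a) x / x) atTop
      (𝓝 (q.totient : ℝ)⁻¹) := by
  have h1 := summ_residueClass_tendsto ha
  have h2 : Tendsto (fun x : ℝ => (summ (residueClass a) x
      - thetaP (fun p => (p : ZMod q) = a) x) / x) atTop (𝓝 0) := by
    rw [tendsto_zero_iff_abs_tendsto_zero]
    refine squeeze_zero' (Eventually.of_forall fun x => abs_nonneg _) ?_ psi_sub_theta_div_tendsto
    filter_upwards [eventually_gt_atTop 0] with x hx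
    simp only [Function.comp]
    rw [abs_div, abs_of_pos hx]
    exact div_le_div_of_nonneg_right (summ_residueClass_sub_thetaP x) hx.le
  have h3 := h1.sub h2
  rw [sub_zero] at h3
  refine h3.congr fun x => ?_
  ring



end AP

/-- **Prime number theorem**, theta form. -/
theorem theta_tendsto : Tendsto (fun x : ℝ => Chebyshev.theta x / x) atTop (𝓝 1) := by
  have h := thetaAP_tendsto (q := 1) (a := 0) (by rw [isUnit_iff_eq_one]; rfl)
  simp only [Nat.totient_one, Nat.cast_one, inv_one] at h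
  refine h.congr fun x => ?_
  congr 1
  unfold thetaP Chebyshev.theta
  apply Finset.sum_congr _ fun _ _ => rfl
  ext p
  rw [Finset.mem_filter, Finset.mem_filter]
  constructor
  · rintro ⟨h1, h2, _⟩; exact ⟨h1, h2⟩
  · rintro ⟨h1, h2⟩; exact ⟨h1, h2, Subsingleton.elim _ _⟩









end Pool.Agent.Lib.PNT
end
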