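import Mathlib
import Pool.Agent.Lib.H1M.RV2.M002

/-! Merged copies (to shorten the build) of Lib.H21AP.DivisorBound, Lib.H24P.T4, Lib.H21T.B1, Lib.H21T.B2, Lib.H21T.B3, Lib.H21T.B10, Lib.H21T.B7, Lib.H21T.B8, Lib.H21T.G1, Lib.H21T.Z5A. -/

-- from Lib.H21AP.DivisorBound
section

/-!
# The divisor bound
-/

namespace Pool.Agent.Lib.H21AP

open Finset

theorem succ_le_pow {ε : ℝ} (hε : 0 < ε) {p : ℕ} (hp : 2 ≤ p) (a : ℕ) :
    ((a : ℝ) + 1) ≤ (1 + 1 / (ε * Real.log 2)) * (((p ^ a : ℕ) : ℝ) ^ ε) := by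
  have hl : 0 < Real.log 2 := Real.log_pos (by norm_num)
  have hel : 0 < ε * Real.log 2 := by positivity
  have h1 : (1 : ℝ) + a * (ε * Real.log 2) ≤ ((p ^ a : ℕ) : ℝ) ^ ε := by
    have h2 : ((2 : ℝ) ^ a) ^ ε ≤ ((p ^ a : ℕ) : ℝ) ^ ε := by
      apply Real.rpow_le_rpow (by positivity) _ hε.le
      push_cast
      exact pow_le_pow_left₀ (by norm_num) (by exact_mod_cast hp) a
    have h3 : ((2 : ℝ) ^ a) ^ ε = Real.exp (a * (ε * Real.log 2)) := by
      rw [← Real.rpow_natCast, ← Real.rpow_mul (by norm_num), Real.rpow_def_of_pos (by norm_num)]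
      congr 1
      ring
    have h4 := Real.add_one_le_exp ((a : ℝ) * (ε * Real.log 2))
    rw [← h3] at h4
    linarith
  have h5 : (1 + 1 / (ε * Real.log 2)) * (1 + a * (ε * Real.log 2)) =
      a + 1 + (a * (ε * Real.log 2) + 1 / (ε * Real.log 2)) := by
    field_simp
    ring
  have h6 : 0 ≤ (a : ℝ) * (ε * Real.log 2) + 1 / (ε * Real.log 2) := by positivity
  have h7 : (1 + 1 / (ε * Real.log 2)) * (1 + a * (ε * Real.log 2)) ≤
      (1 + 1 / (ε * Real.log 2)) * (((p ^ a : ℕ) : ℝ) ^ ε) :=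
    mul_le_mul_of_nonneg_left h1 (by positivity)
  linarith

theorem succ_le_pow_of_large {ε : ℝ} (hε : 0 < ε) {p : ℕ} (hp : (2 : ℝ) ^ (1 / ε) ≤ p) (a : ℕ) :
    ((a : ℝ) + 1) ≤ ((p ^ a : ℕ) : ℝ) ^ ε := by
  have h1 : (2 : ℝ) ≤ (p : ℝ) ^ ε := by
    have h2 : ((2 : ℝ) ^ (1 / ε)) ^ ε ≤ (p : ℝ) ^ ε :=
      Real.rpow_le_rpow (by positivity) hp hε.le
    rw [← Real.rpow_mul (by norm_num), one_div, inv_mul_cancel₀ hε.ne', Real.rpow_one] at h2
    exact h2
  have h3 : ((p ^ a : ℕ) : ℝ) ^ ε = ((p : ℝ) ^ ε) ^ a := by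
    push_cast
    rw [← Real.rpow_natCast, ← Real.rpow_mul (Nat.cast_nonneg p), ← Real.rpow_natCast,
      ← Real.rpow_mul (Nat.cast_nonneg p), mul_comm]
  rw [h3]
  have h4 : (2 : ℝ) ^ a ≤ ((p : ℝ) ^ ε) ^ a := pow_le_pow_left₀ (by norm_num) h1 a
  have h5 : ((a : ℝ) + 1) ≤ (2 : ℝ) ^ a := by
    have h6 : a + 1 ≤ 2 ^ a := Nat.lt_two_pow_self
    exact_mod_cast h6
  exact h5.trans h4

/-- For every `ε > 0` there is a constant `C` such that every positive integer `n` has at most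
`C n ^ ε` divisors. -/
theorem divisor_bound {ε : ℝ} (hε : 0 < ε) : ∃ C : ℝ, 0 < C ∧ ∀ n : ℕ, 1 ≤ n →
    (n.divisors.card : ℝ) ≤ C * (n : ℝ) ^ ε := by
  obtain ⟨K, hK⟩ : ∃ K : ℝ, K = 1 + 1 / (ε * Real.log 2) := ⟨_, rfl⟩
  have hl : 0 < Real.log 2 := Real.log_pos (by norm_num)
  have hK1 : 1 ≤ K := by
    rw [hK]
    have : 0 < 1 / (ε * Real.log 2) := by positivity
    linarith
  obtain ⟨P, hP⟩ : ∃ P : ℕ, P = ⌈(2 : ℝ) ^ (1 / ε)⌉₊ := ⟨_, rfl⟩
  refine ⟨K ^ P, by positivity, ?_⟩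
  intro n hn
  have hn0 : n ≠ 0 := by omega
  rw [Nat.card_divisors hn0]
  push_cast
  have h1 : ∀ p ∈ n.primeFactors, ((n.factorization p : ℝ) + 1) ≤
      (if p < P then K else 1) * (((p ^ n.factorization p : ℕ) : ℝ) ^ ε) := by
    intro p hp
    have hpp := Nat.prime_of_mem_primeFactors hp
    split_ifs with h
    · rw [hK]
      exact succ_le_pow hε hpp.two_le _
    · rw [one_mul]
      apply succ_le_pow_of_large hε
      have h2 : (2 : ℝ) ^ (1 / ε) ≤ P := by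
        rw [hP]
        exact Nat.le_ceil _
      have h3 : (P : ℝ) ≤ p := by exact_mod_cast not_lt.1 h
      linarith
  have h2 : ∏ p ∈ n.primeFactors, ((n.factorization p : ℝ) + 1) ≤
      ∏ p ∈ n.primeFactors, ((if p < P then K else 1) *
        (((p ^ n.factorization p : ℕ) : ℝ) ^ ε)) :=
    prod_le_prod (fun p _ => by positivity) h1
  refine h2.trans ?_
  rw [prod_mul_distrib]
  have h3 : ∏ p ∈ n.primeFactors, (((p ^ n.factorization p : ℕ) : ℝ) ^ ε) = (n : ℝ) ^ ε := by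
    rw [Real.finsetProd_rpow _ _ (fun p _ => Nat.cast_nonneg _)]
    congr 1
    have h4 : n.factorization.prod (fun p a => p ^ a) = n := Nat.prod_factorization_pow_eq_self hn0
    rw [Finsupp.prod, Nat.support_factorization] at h4
    conv_rhs => rw [← h4]
    push_cast
    rfl
  rw [h3]
  apply mul_le_mul_of_nonneg_right _ (by positivity)
  have h4 : ∏ p ∈ n.primeFactors, (if p < P then K else 1) =
      K ^ (n.primeFactors.filter fun p => p < P).card := by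
    rw [prod_ite, prod_const, prod_const_one, mul_one]
  rw [h4]
  apply pow_le_pow_right₀ hK1
  calc (n.primeFactors.filter fun p => p < P).card ≤ (range P).card := by
        apply card_le_card
        intro p hp
        rw [mem_filter] at hp
        exact mem_range.2 hp.2
    _ = P := card_range P

end Pool.Agent.Lib.H21AP
end

-- from Lib.H24P.T4
section

/-!
# Project H24P, chunk T4 (M): a combinatorial identity (elementary, self-contained)

`t : ℕ → ℝ` arbitrary, `P` a finite set of primes. `td d = ∏_{l ∣ d} t l`.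
-/

open Finset

namespace Pool.Agent.Lib.H24P

/-- The squarefree `d ≤ E` with all prime factors in `P`, at most `j`. -/
def dv (P : Finset ℕ) (j E : ℕ) : Finset ℕ :=
  open Classical in (Icc 1 E).filter (fun d => Squarefree d ∧ ∀ l ∈ d.primeFactors, l ∈ P ∧ l ≤ j)

/-- The squarefree `m > E` with all prime factors in `P`, at most `j`, such that `m/q ≤ E` for the largest
prime factor `q` of `m`. -/
def mv (P : Finset ℕ) (j E : ℕ) : Finset ℕ :=
  open Classical in (Ioc E (E * j)).filter (fun m => Squarefree m ∧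
    (∀ l ∈ m.primeFactors, l ∈ P ∧ l ≤ j) ∧
    ∃ q ∈ m.primeFactors, (∀ l ∈ m.primeFactors, l ≤ q) ∧ m / q ≤ E)

/-- `∏_{l ∣ d} t l` -/
noncomputable def tt (t : ℕ → ℝ) (d : ℕ) : ℝ := ∏ l ∈ d.primeFactors, t l

theorem t4_mem_dv {P : Finset ℕ} {j E d : ℕ} : d ∈ dv P j E ↔
    (1 ≤ d ∧ d ≤ E) ∧ Squarefree d ∧ ∀ l ∈ d.primeFactors, l ∈ P ∧ l ≤ j := by
  unfold dv
  rw [Finset.mem_filter, Finset.mem_Icc]

theorem t4_mem_mv {P : Finset ℕ} {j E m : ℕ} : m ∈ mv P j E ↔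
    (E < m ∧ m ≤ E * j) ∧ Squarefree m ∧ (∀ l ∈ m.primeFactors, l ∈ P ∧ l ≤ j) ∧
      ∃ q ∈ m.primeFactors, (∀ l ∈ m.primeFactors, l ≤ q) ∧ m / q ≤ E := by
  unfold mv
  rw [Finset.mem_filter, Finset.mem_Ioc]

/-- The prime factors of `q d`. -/
theorem t4_pf {q d : ℕ} (hq : q.Prime) (hd : d ≠ 0) : (q * d).primeFactors = insert q d.primeFactors := by
  rw [Nat.primeFactors_mul hq.ne_zero hd, hq.primeFactors, Finset.insert_eq]

theorem t4_tt {t : ℕ → ℝ} {q d : ℕ} (hq : q.Prime) (hd : d ≠ 0) (h : q ∉ d.primeFactors) :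
    tt t (q * d) = t q * tt t d := by
  unfold tt
  rw [t4_pf hq hd, Finset.prod_insert h]

/-- Squarefree `q d`. -/
theorem t4_sf {q d : ℕ} (hq : q.Prime) (hd : d ≠ 0) (h : q ∉ d.primeFactors) (hs : Squarefree d) :
    Squarefree (q * d) := by
  have hc : Nat.Coprime q d := by
    rw [Nat.Prime.coprime_iff_not_dvd hq]
    intro h1
    exact h (Nat.mem_primeFactors.2 ⟨hq, h1, hd⟩)
  rw [Nat.squarefree_mul hc]
  exact ⟨hq.squarefree, hs⟩

/-- Decomposition of a squarefree number divisible by `q`. -/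
theorem t4_dec {q m : ℕ} (hq : q.Prime) (hm : Squarefree m) (h : q ∈ m.primeFactors) :
    ∃ d : ℕ, m = q * d ∧ d ≠ 0 ∧ Squarefree d ∧ q ∉ d.primeFactors ∧ m.primeFactors = insert q d.primeFactors := by
  obtain ⟨_, ⟨d, hd⟩, hm0⟩ := Nat.mem_primeFactors.1 h
  have hd0 : d ≠ 0 := by
    rintro rfl
    exact hm0 (by rw [hd, mul_zero])
  have hs : Squarefree d := hm.squarefree_of_dvd ⟨q, by rw [hd, mul_comm]⟩
  refine ⟨d, hd, hd0, hs, ?_, by rw [hd]; exact t4_pf hq hd0⟩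
  intro h1
  have h2 : q ∣ d := (Nat.mem_primeFactors.1 h1).2.1
  have h3 : q * q ∣ m := by
    rw [hd]
    exact mul_dvd_mul_left q h2
  have h4 := hm q h3
  exact hq.one_lt.ne' (Nat.isUnit_iff.1 h4)

theorem t4_dv_sub {P : Finset ℕ} {j E E' : ℕ} (h : E' ≤ E) : dv P j E' = (dv P j E).filter (fun d => d ≤ E') := by
  ext d
  rw [Finset.mem_filter, t4_mem_dv, t4_mem_dv]
  constructor
  · rintro ⟨⟨h1, h2⟩, h3⟩
    exact ⟨⟨⟨h1, h2.trans h⟩, h3⟩, h2⟩
  · rintro ⟨⟨⟨h1, _⟩, h3⟩, h2⟩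
    exact ⟨⟨h1, h2⟩, h3⟩

/-- Proof. The elements of `dv P q E` not divisible by `q = j + 1` are those of `dv P j E`; the others are `q d'`,
`d' ∈ dv P j (E/q)`, `tt t (q d') = t q tt t d'`. -/
theorem T4_dv (t : ℕ → ℝ) (P : Finset ℕ) (hP : ∀ l ∈ P, l.Prime) (j E : ℕ) (hj : j + 1 ∈ P) :
    ∑ d ∈ dv P (j + 1) E, tt t d =
      ∑ d ∈ dv P j E, tt t d + t (j + 1) * ∑ d ∈ dv P j (E / (j + 1)), tt t d := by
  classical
  have hq := hP _ hj
  have hnot : ∀ d : ℕ, (∀ l ∈ d.primeFactors, l ∈ P ∧ l ≤ j) → j + 1 ∉ d.primeFactors := by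
    intro d h1 h2
    have := (h1 _ h2).2
    omega
  have hset : dv P (j + 1) E = dv P j E ∪ (dv P j (E / (j + 1))).image (fun d => (j + 1) * d) := by
    ext m
    rw [Finset.mem_union, Finset.mem_image, t4_mem_dv, t4_mem_dv]
    constructor
    · rintro ⟨⟨h1, h2⟩, h3, h4⟩
      by_cases hm : j + 1 ∈ m.primeFactors
      · right
        obtain ⟨d, hd, hd0, hds, hdq, hdp⟩ := t4_dec hq h3 hm
        refine ⟨d, t4_mem_dv.2 ⟨⟨Nat.one_le_iff_ne_zero.2 hd0, ?_⟩, hds, ?_⟩, hd.symm⟩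
        · rw [Nat.le_div_iff_mul_le hq.pos, mul_comm, ← hd]
          exact h2
        · intro l hl
          have h5 := h4 l (by rw [hdp]; exact Finset.mem_insert_of_mem hl)
          refine ⟨h5.1, ?_⟩
          have h6 : l ≠ j + 1 := by
            rintro rfl
            exact hdq hl
          omega
      · left
        refine ⟨⟨h1, h2⟩, h3, fun l hl => ⟨(h4 l hl).1, ?_⟩⟩
        have h6 : l ≠ j + 1 := by
          rintro rfl
          exact hm hl
        have := (h4 l hl).2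
        omega
    · rintro (⟨⟨h1, h2⟩, h3, h4⟩ | ⟨d, hd, rfl⟩)
      · exact ⟨⟨h1, h2⟩, h3, fun l hl => ⟨(h4 l hl).1, (h4 l hl).2.trans (Nat.le_succ j)⟩⟩
      · obtain ⟨⟨h1, h2⟩, h3, h4⟩ := t4_mem_dv.1 hd
        have hd0 : d ≠ 0 := by omega
        refine ⟨⟨?_, ?_⟩, t4_sf hq hd0 (hnot d h4) h3, ?_⟩
        · exact Nat.mul_pos hq.pos h1
        · rw [Nat.le_div_iff_mul_le hq.pos] at h2
          rw [mul_comm]
          exact h2
        · intro l hl
          rw [t4_pf hq hd0, Finset.mem_insert] at hl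
          rcases hl with rfl | hl
          · exact ⟨hj, le_rfl⟩
          · exact ⟨(h4 l hl).1, (h4 l hl).2.trans (Nat.le_succ j)⟩
  have hdis : Disjoint (dv P j E) ((dv P j (E / (j + 1))).image (fun d => (j + 1) * d)) := by
    rw [Finset.disjoint_left]
    intro m h1 h2
    obtain ⟨d, hd, rfl⟩ := Finset.mem_image.1 h2
    obtain ⟨⟨h3, _⟩, _, _⟩ := t4_mem_dv.1 hd
    have hd0 : d ≠ 0 := by omega
    have h4 := (t4_mem_dv.1 h1).2.2
    exact hnot _ h4 (by rw [t4_pf hq hd0]; exact Finset.mem_insert_self _ _)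
  rw [hset, Finset.sum_union hdis, Finset.sum_image (fun a _ b _ hab => Nat.eq_of_mul_eq_mul_left hq.pos hab),
    Finset.mul_sum]
  congr 1
  refine Finset.sum_congr rfl fun d hd => ?_
  obtain ⟨⟨h3, _⟩, _, h4⟩ := t4_mem_dv.1 hd
  exact t4_tt hq (by omega) (hnot d h4)

/-- Proof. The elements of `mv P q E` not divisible by `q = j + 1` are those of `mv P j E` (`m = (m/q') q' ≤ E j`); the others are
`q d'`, `d' ∈ dv P j E` with `q d' > E`, i.e. `d' ∉ dv P j (E/q)`. -/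
theorem T4_mv (t : ℕ → ℝ) (P : Finset ℕ) (hP : ∀ l ∈ P, l.Prime) (j E : ℕ) (hj : j + 1 ∈ P) :
    ∑ m ∈ mv P (j + 1) E, tt t m = ∑ m ∈ mv P j E, tt t m +
      t (j + 1) * (∑ d ∈ dv P j E, tt t d - ∑ d ∈ dv P j (E / (j + 1)), tt t d) := by
  classical
  have hq := hP _ hj
  have hnot : ∀ d : ℕ, (∀ l ∈ d.primeFactors, l ∈ P ∧ l ≤ j) → j + 1 ∉ d.primeFactors := by
    intro d h1 h2
    have := (h1 _ h2).2
    omega
  have hset : mv P (j + 1) E = mv P j E ∪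
      ((dv P j E).filter (fun d => ¬ d ≤ E / (j + 1))).image (fun d => (j + 1) * d) := by
    ext m
    rw [Finset.mem_union, Finset.mem_image, t4_mem_mv, t4_mem_mv]
    constructor
    · rintro ⟨⟨h1, h2⟩, h3, h4, r, hr, hr1, hr2⟩
      by_cases hm : j + 1 ∈ m.primeFactors
      · right
        have hrq : r = j + 1 := le_antisymm (h4 r hr).2 (hr1 _ hm)
        obtain ⟨d, hd, hd0, hds, hdq, hdp⟩ := t4_dec hq h3 hm
        have hmd : m / r = d := by
          rw [hrq, hd, Nat.mul_div_cancel_left _ hq.pos]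
        rw [hmd] at hr2
        refine ⟨d, Finset.mem_filter.2 ⟨t4_mem_dv.2 ⟨⟨Nat.one_le_iff_ne_zero.2 hd0, hr2⟩, hds, ?_⟩, ?_⟩, hd.symm⟩
        · intro l hl
          have h5 := h4 l (by rw [hdp]; exact Finset.mem_insert_of_mem hl)
          refine ⟨h5.1, ?_⟩
          have h6 : l ≠ j + 1 := by
            rintro rfl
            exact hdq hl
          omega
        · rw [Nat.le_div_iff_mul_le hq.pos, mul_comm, ← hd]
          omega
      · left
        have h7 : ∀ l ∈ m.primeFactors, l ∈ P ∧ l ≤ j := by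
          intro l hl
          refine ⟨(h4 l hl).1, ?_⟩
          have h6 : l ≠ j + 1 := by
            rintro rfl
            exact hm hl
          have := (h4 l hl).2
          omega
        refine ⟨⟨h1, ?_⟩, h3, h7, r, hr, hr1, hr2⟩
        have h8 : m / r * r = m := Nat.div_mul_cancel (Nat.mem_primeFactors.1 hr).2.1
        rw [← h8]
        exact Nat.mul_le_mul hr2 (h7 r hr).2
    · rintro (⟨⟨h1, h2⟩, h3, h4, r, hr, hr1, hr2⟩ | ⟨d, hd, rfl⟩)
      · exact ⟨⟨h1, h2.trans (Nat.mul_le_mul_left _ (Nat.le_succ j))⟩, h3,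
          fun l hl => ⟨(h4 l hl).1, (h4 l hl).2.trans (Nat.le_succ j)⟩, r, hr, hr1, hr2⟩
      · obtain ⟨hd1, hd2⟩ := Finset.mem_filter.1 hd
        obtain ⟨⟨h1, h2⟩, h3, h4⟩ := t4_mem_dv.1 hd1
        have hd0 : d ≠ 0 := by omega
        have h5 : ∀ l ∈ ((j + 1) * d).primeFactors, l ∈ P ∧ l ≤ j + 1 := by
          intro l hl
          rw [t4_pf hq hd0, Finset.mem_insert] at hl
          rcases hl with rfl | hl
          · exact ⟨hj, le_rfl⟩
          · exact ⟨(h4 l hl).1, (h4 l hl).2.trans (Nat.le_succ j)⟩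
        refine ⟨⟨?_, ?_⟩, t4_sf hq hd0 (hnot d h4) h3, h5, j + 1, ?_, fun l hl => (h5 l hl).2, ?_⟩
        · rw [Nat.le_div_iff_mul_le hq.pos, mul_comm] at hd2
          omega
        · rw [mul_comm]
          exact Nat.mul_le_mul_right _ h2
        · rw [t4_pf hq hd0]
          exact Finset.mem_insert_self _ _
        · rw [Nat.mul_div_cancel_left _ hq.pos]
          exact h2
  have hdis : Disjoint (mv P j E) (((dv P j E).filter (fun d => ¬ d ≤ E / (j + 1))).image (fun d => (j + 1) * d)) := by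
    rw [Finset.disjoint_left]
    intro m h1 h2
    obtain ⟨d, hd, rfl⟩ := Finset.mem_image.1 h2
    obtain ⟨⟨h3, _⟩, _, _⟩ := t4_mem_dv.1 (Finset.mem_filter.1 hd).1
    have hd0 : d ≠ 0 := by omega
    have h4 := (t4_mem_mv.1 h1).2.2.1
    exact hnot _ h4 (by rw [t4_pf hq hd0]; exact Finset.mem_insert_self _ _)
  have hsum : ∑ d ∈ dv P j E, tt t d - ∑ d ∈ dv P j (E / (j + 1)), tt t d =
      ∑ d ∈ (dv P j E).filter (fun d => ¬ d ≤ E / (j + 1)), tt t d := by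
    rw [t4_dv_sub (Nat.div_le_self E (j + 1)), ← Finset.sum_filter_add_sum_filter_not (dv P j E) (fun d => d ≤ E / (j + 1))]
    ring
  rw [hset, Finset.sum_union hdis, Finset.sum_image (fun a _ b _ hab => Nat.eq_of_mul_eq_mul_left hq.pos hab),
    hsum, Finset.mul_sum]
  congr 1
  refine Finset.sum_congr rfl fun d hd => ?_
  obtain ⟨⟨h3, _⟩, _, h4⟩ := t4_mem_dv.1 (Finset.mem_filter.1 hd).1
  exact t4_tt hq (by omega) (hnot d h4)

/-- Proof. The conditions are the same; for `mv`: `m = (m/q) q ≤ E j` for the largest prime factor `q ≤ j`. -/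
theorem T4_not (P : Finset ℕ) (j E : ℕ) (hj : j + 1 ∉ P) :
    dv P (j + 1) E = dv P j E ∧ mv P (j + 1) E = mv P j E := by
  have hiff : ∀ l, (l ∈ P ∧ l ≤ j + 1) ↔ (l ∈ P ∧ l ≤ j) := by
    intro l
    constructor
    · rintro ⟨h1, h2⟩
      refine ⟨h1, ?_⟩
      have : l ≠ j + 1 := by
        rintro rfl
        exact hj h1
      omega
    · rintro ⟨h1, h2⟩
      exact ⟨h1, by omega⟩
  constructor
  · ext d
    rw [t4_mem_dv, t4_mem_dv]
    simp only [hiff]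
  · ext m
    rw [t4_mem_mv, t4_mem_mv]
    simp only [hiff]
    constructor
    · rintro ⟨⟨h1, h2⟩, h3, h4, r, hr, hr1, hr2⟩
      refine ⟨⟨h1, ?_⟩, h3, h4, r, hr, hr1, hr2⟩
      have h8 : m / r * r = m := Nat.div_mul_cancel (Nat.mem_primeFactors.1 hr).2.1
      rw [← h8]
      exact Nat.mul_le_mul hr2 (h4 r hr).2
    · rintro ⟨⟨h1, h2⟩, h3, h4, r, hr, hr1, hr2⟩
      exact ⟨⟨h1, h2.trans (Nat.mul_le_mul_left _ (Nat.le_succ j))⟩, h3, h4, r, hr, hr1, hr2⟩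

/-- **T4.** Proof. Induction on `Q`. `Q = 0`: `dv P 0 E = {1}`, `mv P 0 E = ∅`, and the filters are empty (primes are
positive): `1 - 1 = 0`. Step: `Ψ(j) = ∏_{l ≤ j} (1 + t l) - ∑ dv - ∑ mv` satisfies
`Ψ(j+1) = (1 + t_{j+1}) Ψ(j) + t_{j+1} ∑_{mv P j E} tt` if `j + 1 ∈ P` (`T4_dv`, `T4_mv`), and `Ψ(j+1) = Ψ(j)` else
(`T4_not`). -/
theorem T4_main (t : ℕ → ℝ) (P : Finset ℕ) (hP : ∀ l ∈ P, l.Prime) (E : ℕ) (hE : 1 ≤ E) (Q : ℕ) :
    ∏ l ∈ P.filter (fun l => l ≤ Q), (1 + t l) - ∑ d ∈ dv P Q E, tt t d =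
      ∑ m ∈ mv P Q E, tt t m +
      ∑ q ∈ P.filter (fun l => l ≤ Q), t q * (∑ m ∈ mv P (q - 1) E, tt t m) *
        ∏ l ∈ P.filter (fun l => q < l ∧ l ≤ Q), (1 + t l) := by
  classical
  induction Q with
  | zero =>
    have h1 : P.filter (fun l => l ≤ 0) = ∅ := by
      apply Finset.filter_eq_empty_iff.2
      intro l hl h
      exact absurd (hP l hl).pos (by omega)
    have h2 : mv P 0 E = ∅ := by
      apply Finset.eq_empty_of_forall_notMem
      intro m hm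
      obtain ⟨⟨h3, h4⟩, _⟩ := t4_mem_mv.1 hm
      omega
    have h3 : dv P 0 E = {1} := by
      ext d
      rw [t4_mem_dv, Finset.mem_singleton]
      constructor
      · rintro ⟨⟨h4, _⟩, _, h5⟩
        have h6 : d.primeFactors = ∅ := by
          apply Finset.eq_empty_of_forall_notMem
          intro l hl
          have h7 := (h5 l hl).2
          have h8 := (Nat.prime_of_mem_primeFactors hl).pos
          omega
        rcases Nat.primeFactors_eq_empty.1 h6 with h7 | h7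
        · omega
        · exact h7
      · rintro rfl
        exact ⟨⟨le_rfl, hE⟩, squarefree_one, by simp⟩
    rw [h1, h2, h3]
    simp [tt]
  | succ Q ih =>
    by_cases hj : Q + 1 ∈ P
    · have h1 : P.filter (fun l => l ≤ Q + 1) = insert (Q + 1) (P.filter (fun l => l ≤ Q)) := by
        ext l
        rw [Finset.mem_insert, Finset.mem_filter, Finset.mem_filter]
        constructor
        · rintro ⟨h2, h3⟩
          by_cases h4 : l = Q + 1
          · exact Or.inl h4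
          · exact Or.inr ⟨h2, by omega⟩
        · rintro (rfl | ⟨h2, h3⟩)
          · exact ⟨hj, le_rfl⟩
          · exact ⟨h2, by omega⟩
      have h2 : Q + 1 ∉ P.filter (fun l => l ≤ Q) := by
        rw [Finset.mem_filter]
        rintro ⟨_, h⟩
        omega
      have h3 : ∀ q ∈ P.filter (fun l => l ≤ Q), P.filter (fun l => q < l ∧ l ≤ Q + 1) =
          insert (Q + 1) (P.filter (fun l => q < l ∧ l ≤ Q)) := by
        intro q hq
        have hq2 := (Finset.mem_filter.1 hq).2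
        ext l
        rw [Finset.mem_insert, Finset.mem_filter, Finset.mem_filter]
        constructor
        · rintro ⟨h2, h3, h5⟩
          by_cases h4 : l = Q + 1
          · exact Or.inl h4
          · exact Or.inr ⟨h2, h3, by omega⟩
        · rintro (rfl | ⟨h2, h3, h5⟩)
          · exact ⟨hj, by omega, le_rfl⟩
          · exact ⟨h2, h3, by omega⟩
      have h4 : ∀ q, Q + 1 ∉ P.filter (fun l => q < l ∧ l ≤ Q) := by
        intro q
        rw [Finset.mem_filter]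
        rintro ⟨_, _, h⟩
        omega
      have h5 : P.filter (fun l => Q + 1 < l ∧ l ≤ Q + 1) = ∅ := by
        apply Finset.filter_eq_empty_iff.2
        rintro l _ ⟨h6, h7⟩
        omega
      have h6 : ∑ q ∈ P.filter (fun l => l ≤ Q), t q * (∑ m ∈ mv P (q - 1) E, tt t m) *
          ∏ l ∈ P.filter (fun l => q < l ∧ l ≤ Q + 1), (1 + t l) = (1 + t (Q + 1)) *
          ∑ q ∈ P.filter (fun l => l ≤ Q), t q * (∑ m ∈ mv P (q - 1) E, tt t m) *
          ∏ l ∈ P.filter (fun l => q < l ∧ l ≤ Q), (1 + t l) := by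
        rw [Finset.mul_sum]
        refine Finset.sum_congr rfl fun q hq => ?_
        rw [h3 q hq, Finset.prod_insert (h4 q)]
        ring
      rw [T4_dv t P hP Q E hj, T4_mv t P hP Q E hj, h1, Finset.prod_insert h2, Finset.sum_insert h2, h5,
        Finset.prod_empty, h6, Nat.add_sub_cancel]
      linear_combination (1 + t (Q + 1)) * ih
    · have h1 : P.filter (fun l => l ≤ Q + 1) = P.filter (fun l => l ≤ Q) := by
        ext l
        rw [Finset.mem_filter, Finset.mem_filter]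
        constructor
        · rintro ⟨h2, h3⟩
          have h4 : l ≠ Q + 1 := by
            rintro rfl
            exact hj h2
          exact ⟨h2, by omega⟩
        · rintro ⟨h2, h3⟩
          exact ⟨h2, by omega⟩
      have h3 : ∀ q, P.filter (fun l => q < l ∧ l ≤ Q + 1) = P.filter (fun l => q < l ∧ l ≤ Q) := by
        intro q
        ext l
        rw [Finset.mem_filter, Finset.mem_filter]
        constructor
        · rintro ⟨h2, h3, h5⟩
          have h4 : l ≠ Q + 1 := by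
            rintro rfl
            exact hj h2
          exact ⟨h2, h3, by omega⟩
        · rintro ⟨h2, h3, h5⟩
          exact ⟨h2, h3, by omega⟩
      obtain ⟨h4, h5⟩ := T4_not P Q E hj
      rw [h4, h5, h1]
      simp only [h3]
      exact ih

end Pool.Agent.Lib.H24P
end

-- from Lib.H21T.B1
section

/-!
# Chunk B1 (S/M): a ceiling identity
-/

namespace Pool.Agent.Lib.H21T

open Finset Pool.Agent.SZW

/-- `⌈(u - t j) / s⌉` depends only on `⌈u⌉`. -/
theorem b1_red (s : ℕ) (hs : 1 ≤ s) (m : ℤ) (u : ℝ) : ⌈(u - m) / s⌉ = ⌈((⌈u⌉ : ℝ) - m) / s⌉ := by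
  have hs0 : (0 : ℝ) < s := by exact_mod_cast hs
  apply eq_of_forall_ge_iff
  intro k
  rw [Int.ceil_le, Int.ceil_le, div_le_iff₀ hs0, div_le_iff₀ hs0, sub_le_iff_le_add, sub_le_iff_le_add]
  have h1 : (k : ℝ) * s + m = ((k * s + m : ℤ) : ℝ) := by push_cast; ring
  rw [h1, Int.cast_le, Int.ceil_le]

/-- the ceiling of an integer quotient -/
theorem b1_int (s : ℕ) (hs : 1 ≤ s) (n : ℤ) : ⌈(n : ℝ) / s⌉ = -((-n) / (s : ℤ)) := by
  have hs0 : (0 : ℝ) < s := by exact_mod_cast hs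
  have hs1 : (0 : ℤ) < s := by exact_mod_cast hs
  apply eq_of_forall_ge_iff
  intro k
  rw [Int.ceil_le, div_le_iff₀ hs0]
  have h1 : (k : ℝ) * s = ((k * s : ℤ) : ℝ) := by push_cast; ring
  rw [h1, Int.cast_le, neg_le, Int.le_ediv_iff_mul_le hs1, neg_mul, neg_le_neg_iff]

/-- one step -/
theorem b1_step (s : ℕ) (hs : 1 ≤ s) (n : ℤ) :
    ⌈((n + 1 : ℤ) : ℝ) / s⌉ - ⌈(n : ℝ) / s⌉ = if (s : ℤ) ∣ n then 1 else 0 := by
  have hs1 : (0 : ℤ) < s := by exact_mod_cast hs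
  rw [b1_int s hs, b1_int s hs]
  split_ifs with h
  · obtain ⟨k, rfl⟩ := h
    have h1 : (-((s : ℤ) * k)) / (s : ℤ) = -k := by
      rw [← mul_neg, Int.mul_ediv_cancel_left _ hs1.ne']
    have h2 : (-((s : ℤ) * k + 1)) / (s : ℤ) = -k - 1 := by
      have h3 : -((s : ℤ) * k + 1) = (s - 1) + (-k - 1) * s := by ring
      rw [h3, Int.add_mul_ediv_right _ _ hs1.ne', Int.ediv_eq_zero_of_lt (by omega) (by omega), zero_add]
    rw [h1, h2]
    ring
  · have h4 := Int.emod_add_mul_ediv (-n) s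
    have h5 := Int.emod_nonneg (-n) hs1.ne'
    have h6 : (-n) % (s : ℤ) ≠ 0 := by
      intro h7
      apply h
      exact (dvd_neg).1 (Int.dvd_of_emod_eq_zero h7)
    have h8 := Int.emod_lt_of_pos (-n) hs1
    have h2 : (-(n + 1)) / (s : ℤ) = (-n) / s := by
      have h3 : -(n + 1) = ((-n) % s - 1) + ((-n) / s) * s := by linarith [h4, mul_comm (s : ℤ) ((-n) / s)]
      rw [h3, Int.add_mul_ediv_right _ _ hs1.ne', Int.ediv_eq_zero_of_lt (by omega) (by omega), zero_add]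
    rw [h2]
    ring

/-- exactly one `j < s` has `s ∣ n - t j` -/
theorem b1_one (s t : ℕ) (hs : 1 ≤ s) (hco : Nat.Coprime s t) (n : ℤ) :
    ∑ j ∈ range s, (if (s : ℤ) ∣ n - t * j then (1 : ℤ) else 0) = 1 := by
  have hs1 : (0 : ℤ) < s := by exact_mod_cast hs
  rw [Finset.sum_boole]
  have hco' : IsCoprime (t : ℤ) (s : ℤ) := (Nat.isCoprime_iff_coprime.2 hco).symm
  obtain ⟨a, b, hab⟩ := hco'
  have h1 : (range s).filter (fun j : ℕ => (s : ℤ) ∣ n - t * j) = {((n * a) % s).toNat} := by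
    have h5 := Int.emod_nonneg (n * a) hs1.ne'
    have h6 := Int.emod_lt_of_pos (n * a) hs1
    ext j
    rw [mem_filter, mem_range, mem_singleton]
    constructor
    · rintro ⟨h2, h3⟩
      have h4 : (j : ℤ) % s = (n * a) % s := by
        apply Int.emod_emod_of_dvd _ (dvd_refl _) |>.symm.trans
        rw [Int.emod_emod_of_dvd _ (dvd_refl _)]
        apply (Int.emod_emod_of_dvd _ (dvd_refl _)).symm.trans
        rw [Int.emod_emod_of_dvd _ (dvd_refl _)]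
        apply Int.ModEq.symm
        rw [Int.modEq_iff_dvd]
        have h7 : (j : ℤ) - n * a = (s : ℤ) * (b * j) - a * (n - t * j) := by
          linear_combination (-(j : ℤ)) * hab
        rw [h7]
        exact dvd_sub (Dvd.intro _ rfl) (Dvd.dvd.mul_left h3 _)
      have h8 : (j : ℤ) % s = j := Int.emod_eq_of_lt (by omega) (by exact_mod_cast h2)
      omega
    · rintro rfl
      refine ⟨by omega, ?_⟩
      rw [Int.toNat_of_nonneg h5]
      have h9 := Int.emod_add_mul_ediv (n * a) s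
      have h10 : n - t * ((n * a) % s) = (s : ℤ) * (n * b + t * ((n * a) / s)) := by
        linear_combination (-n) * hab - t * h9
      rw [h10]
      exact Dvd.intro _ rfl
  rw [h1, card_singleton]
  rfl

/-- `c = ∑_{j < s} ⌈- t j / s⌉`. For an integer `k`: `s k ≥ u - t j` iff `s k ≥ ⌈u⌉ - t j`, so `⌈(u - t j) / s⌉ = ⌈(⌈u⌉ - t j) / s⌉` and one may assume `u = n ∈ ℤ`.
For integers `⌈(n + 1 - t j) / s⌉ - ⌈(n - t j) / s⌉` is `1` if `s ∣ n - t j` and `0` otherwise, and as `t` is prime to `s` exactly one `j < s` has `s ∣ n - t j`.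
Induction (in both directions) from `n = 0`. -/
theorem b1 (s t : ℕ) (hs : 1 ≤ s) (hco : Nat.Coprime s t) :
    ∃ c : ℤ, ∀ u : ℝ, ∑ j ∈ range s, ⌈(u - t * j) / s⌉ = ⌈u⌉ + c := by
  have hstep : ∀ n : ℤ, ∑ j ∈ range s, ⌈(((n + 1 : ℤ) : ℝ) - ((t * j : ℤ) : ℝ)) / s⌉ =
      ∑ j ∈ range s, ⌈((n : ℝ) - ((t * j : ℤ) : ℝ)) / s⌉ + 1 := by
    intro n
    have h0 : ∑ j ∈ range s, ⌈(((n + 1 : ℤ) : ℝ) - ((t * j : ℤ) : ℝ)) / s⌉ =
        ∑ j ∈ range s, (⌈((n : ℝ) - ((t * j : ℤ) : ℝ)) / s⌉ + (if (s : ℤ) ∣ n - t * j then (1 : ℤ) else 0)) := by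
      refine Finset.sum_congr rfl fun j _ => ?_
      have h1 := b1_step s hs (n - t * j)
      have h2 : ((n - t * j + 1 : ℤ) : ℝ) = ((n + 1 : ℤ) : ℝ) - ((t * j : ℤ) : ℝ) := by push_cast; ring
      have h3 : ((n - t * j : ℤ) : ℝ) = (n : ℝ) - ((t * j : ℤ) : ℝ) := by push_cast; ring
      rw [h2, h3] at h1
      omega
    rw [h0, Finset.sum_add_distrib, b1_one s t hs hco n]
  have hall : ∀ n : ℤ, ∑ j ∈ range s, ⌈((n : ℝ) - ((t * j : ℤ) : ℝ)) / s⌉ =
      n + ∑ j ∈ range s, ⌈(((0 : ℤ) : ℝ) - ((t * j : ℤ) : ℝ)) / s⌉ := by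
    intro n
    induction n using Int.induction_on with
    | zero => rw [zero_add]
    | succ n ih =>
      rw [hstep, ih]
      ring
    | pred n ih =>
      have h1 := hstep (-(n : ℤ) - 1)
      have h2 : (-(n : ℤ) - 1 + 1) = -(n : ℤ) := by ring
      rw [h2, ih] at h1
      linarith
  refine ⟨∑ j ∈ range s, ⌈(((0 : ℤ) : ℝ) - ((t * j : ℤ) : ℝ)) / s⌉, fun u => ?_⟩
  rw [← hall]
  refine Finset.sum_congr rfl fun j _ => ?_
  have h1 := b1_red s hs (t * j) u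
  have h2 : ((t * j : ℤ) : ℝ) = (t : ℝ) * j := by push_cast; ring
  rw [h2] at h1
  rw [h1, h2]

end Pool.Agent.Lib.H21T
end

-- from Lib.H21T.B2
section

/-!
# Chunk B2 (S): one block
-/

namespace Pool.Agent.Lib.H21T

open Finset Pool.Agent.SZW

/-- With `c` of `b1` let `C = c + t (s - 1) / 2`. `y j ≤ y0 + η - t j / s = (s (y0 + η) - t j) / s`, so `∑ ⌈y j⌉ ≤ ⌈s (y0 + η)⌉ + c ≤ s (y0 + η) + 1 + c`, and
`∑ y j ≥ s y0 - t (s - 1) / 2 - s η`. Lower bound: `∑ ⌈y j⌉ ≥ ⌈s (y0 - η)⌉ + c ≥ s (y0 - η) + c`, `∑ y j ≤ s y0 - t (s - 1) / 2 + s η`. -/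
theorem b2 (s t : ℕ) (hs : 1 ≤ s) (hco : Nat.Coprime s t) :
    ∃ C : ℝ, ∀ (y : ℕ → ℝ) (y0 η : ℝ), (∀ j < s, |y j - (y0 - (t : ℝ) * j / s)| ≤ η) →
      C - 2 * s * η ≤ ∑ j ∈ range s, Fr (y j) ∧ ∑ j ∈ range s, Fr (y j) ≤ C + 1 + 2 * s * η := by
  obtain ⟨c, hc⟩ := b1 s t hs hco
  have hs0 : (0:ℝ) < s := by exact_mod_cast hs
  have hsum : ∑ j ∈ range s, ((t : ℝ) * j / s) = t * (s - 1) / 2 := by
    have h1 : ∑ j ∈ range s, ((t : ℝ) * j / s) = (t : ℝ) / s * ∑ j ∈ range s, (j : ℝ) := by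
      rw [Finset.mul_sum]
      refine Finset.sum_congr rfl fun j _ => ?_
      ring
    have h2 : (∑ j ∈ range s, (j : ℝ)) * 2 = s * (s - 1) := by
      have h3 := Finset.sum_range_id_mul_two s
      have h4 : (((∑ j ∈ range s, j) * 2 : ℕ) : ℝ) = ((s * (s - 1) : ℕ) : ℝ) := by rw [h3]
      rw [Nat.cast_mul, Nat.cast_mul, Nat.cast_sub hs, Nat.cast_sum] at h4
      exact_mod_cast h4
    have h3 : ∑ j ∈ range s, (j : ℝ) = s * (s - 1) / 2 := by linarith
    rw [h1, h3]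
    field_simp
  refine ⟨c + t * (s - 1) / 2, fun y y0 η hy => ?_⟩
  have hup : ∑ j ∈ range s, y j ≤ s * y0 - t * (s - 1) / 2 + s * η := by
    have h1 : ∀ j ∈ range s, y j ≤ y0 - (t : ℝ) * j / s + η := by
      intro j hj
      have := (abs_le.1 (hy j (Finset.mem_range.1 hj))).2
      linarith
    refine (Finset.sum_le_sum h1).trans ?_
    rw [Finset.sum_add_distrib, Finset.sum_sub_distrib, hsum, Finset.sum_const, Finset.sum_const, Finset.card_range,
      nsmul_eq_mul, nsmul_eq_mul]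
  have hlo : s * y0 - t * (s - 1) / 2 - s * η ≤ ∑ j ∈ range s, y j := by
    have h1 : ∀ j ∈ range s, y0 - (t : ℝ) * j / s - η ≤ y j := by
      intro j hj
      have := (abs_le.1 (hy j (Finset.mem_range.1 hj))).1
      linarith
    refine le_trans ?_ (Finset.sum_le_sum h1)
    rw [Finset.sum_sub_distrib, Finset.sum_sub_distrib, hsum, Finset.sum_const, Finset.sum_const, Finset.card_range,
      nsmul_eq_mul, nsmul_eq_mul]
  have hcup : ∑ j ∈ range s, ((⌈y j⌉ : ℤ) : ℝ) ≤ s * (y0 + η) + 1 + c := by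
    have h1 : ∑ j ∈ range s, ⌈y j⌉ ≤ ∑ j ∈ range s, ⌈(s * (y0 + η) - t * j) / (s : ℝ)⌉ := by
      refine Finset.sum_le_sum fun j hj => Int.ceil_le_ceil ?_
      have := (abs_le.1 (hy j (Finset.mem_range.1 hj))).2
      have h2 : (s * (y0 + η) - t * j) / (s : ℝ) = y0 - (t : ℝ) * j / s + η := by field_simp; ring
      rw [h2]
      linarith
    rw [hc] at h1
    have h2 : ∑ j ∈ range s, ((⌈y j⌉ : ℤ) : ℝ) ≤ ((⌈(s : ℝ) * (y0 + η)⌉ : ℤ) : ℝ) + c := by exact_mod_cast h1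
    have h3 := Int.ceil_lt_add_one ((s : ℝ) * (y0 + η))
    linarith
  have hclo : s * (y0 - η) + c ≤ ∑ j ∈ range s, ((⌈y j⌉ : ℤ) : ℝ) := by
    have h1 : ∑ j ∈ range s, ⌈(s * (y0 - η) - t * j) / (s : ℝ)⌉ ≤ ∑ j ∈ range s, ⌈y j⌉ := by
      refine Finset.sum_le_sum fun j hj => Int.ceil_le_ceil ?_
      have := (abs_le.1 (hy j (Finset.mem_range.1 hj))).1
      have h2 : (s * (y0 - η) - t * j) / (s : ℝ) = y0 - (t : ℝ) * j / s - η := by field_simp; ring
      rw [h2]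
      linarith
    rw [hc] at h1
    have h2 : ((⌈(s : ℝ) * (y0 - η)⌉ : ℤ) : ℝ) + c ≤ ∑ j ∈ range s, ((⌈y j⌉ : ℤ) : ℝ) := by exact_mod_cast h1
    have h3 := Int.le_ceil ((s : ℝ) * (y0 - η))
    linarith
  have hF : ∑ j ∈ range s, Fr (y j) = ∑ j ∈ range s, ((⌈y j⌉ : ℤ) : ℝ) - ∑ j ∈ range s, y j := by
    rw [← Finset.sum_sub_distrib]
    rfl
  rw [hF]
  constructor <;> nlinarith

end Pool.Agent.Lib.H21T
end

-- from Lib.H21T.B3
section

/-!
# Chunk B3 (S/M): a sequence of blocks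
-/

namespace Pool.Agent.Lib.H21T

open Finset Pool.Agent.SZW

theorem b3_fr (y z : ℝ) : |Fr z - Fr y| ≤ 1 := by
  unfold Fr
  have h1 := Int.le_ceil y
  have h2 := Int.ceil_lt_add_one y
  have h3 := Int.le_ceil z
  have h4 := Int.ceil_lt_add_one z
  rw [abs_le]
  constructor <;> linarith

theorem b3_blocks (s : ℕ) (f : ℕ → ℝ) (B : ℝ) (n : ℕ) (h : ∀ l < n, |∑ j ∈ range s, f (l * s + j)| ≤ B) :
    |∑ j ∈ range (n * s), f j| ≤ n * B := by
  induction n with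
  | zero => simp
  | succ n ih =>
    have h1 := ih fun l hl => h l (by omega)
    have h2 := h n (by omega)
    rw [Nat.succ_mul, Finset.sum_range_add]
    refine (abs_add_le _ _).trans ?_
    push_cast
    linarith

/-- Cut `range W` into `W / s` blocks of length `s` and a rest of fewer than `s` terms. On a block `b2` holds for `z` and for `y` with the same constant `C`
(`y0 = y (l s)`), so the difference is at most `1 + 4 s η` in absolute value; every single term is at most `1` in absolute value (`0 ≤ Fr < 1`). -/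
theorem b3 (s t W : ℕ) (hs : 1 ≤ s) (hco : Nat.Coprime s t) (y z : ℕ → ℝ) (η : ℝ) (hη : 0 ≤ η)
    (hy : ∀ l j, (l + 1) * s ≤ W → j < s → |y (l * s + j) - (y (l * s) - (t : ℝ) * j / s)| ≤ η)
    (hz : ∀ l j, (l + 1) * s ≤ W → j < s → |z (l * s + j) - (z (l * s) - (t : ℝ) * j / s)| ≤ η) :
    |∑ j ∈ range W, (Fr (z j) - Fr (y j))| ≤ (W : ℝ) / s * (1 + 4 * s * η) + s := by
  obtain ⟨C, hC⟩ := b2 s t hs hco
  have hs' : (0 : ℝ) < s := by exact_mod_cast hs
  have hbl : ∀ l < W / s, |∑ j ∈ range s, (Fr (z (l * s + j)) - Fr (y (l * s + j)))| ≤ 1 + 4 * s * η := by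
    intro l hl
    have hl2 : (l + 1) * s ≤ W := by
      calc (l + 1) * s ≤ (W / s) * s := Nat.mul_le_mul_right s hl
        _ ≤ W := Nat.div_mul_le_self W s
    have h1 := hC (fun j => y (l * s + j)) (y (l * s)) η fun j hj => hy l j hl2 hj
    have h2 := hC (fun j => z (l * s + j)) (z (l * s)) η fun j hj => hz l j hl2 hj
    rw [Finset.sum_sub_distrib, abs_le]
    constructor
    · linarith [h1.1, h1.2, h2.1, h2.2]
    · linarith [h1.1, h1.2, h2.1, h2.2]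
  have h3 := b3_blocks s (fun j => Fr (z j) - Fr (y j)) (1 + 4 * s * η) (W / s) hbl
  have h4 : |∑ j ∈ range (W % s), (Fr (z (W / s * s + j)) - Fr (y (W / s * s + j)))| ≤ s := by
    refine (Finset.abs_sum_le_sum_abs _ _).trans ?_
    have h5 : ∑ j ∈ range (W % s), |Fr (z (W / s * s + j)) - Fr (y (W / s * s + j))| ≤ ∑ _j ∈ range (W % s), (1 : ℝ) :=
      Finset.sum_le_sum fun j _ => b3_fr _ _
    refine h5.trans ?_
    rw [Finset.sum_const, card_range, nsmul_eq_mul, mul_one]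
    exact_mod_cast (Nat.mod_lt W hs).le
  have h6 : W = W / s * s + W % s := by
    rw [Nat.mul_comm]
    exact (Nat.div_add_mod W s).symm
  have h7 : ∑ j ∈ range W, (Fr (z j) - Fr (y j)) = ∑ j ∈ range (W / s * s), (Fr (z j) - Fr (y j)) +
      ∑ j ∈ range (W % s), (Fr (z (W / s * s + j)) - Fr (y (W / s * s + j))) := by
    rw [← Finset.sum_range_add (fun j => Fr (z j) - Fr (y j)), ← h6]
  rw [h7]
  refine (abs_add_le _ _).trans ?_
  have h8 : ((W / s : ℕ) : ℝ) ≤ (W : ℝ) / s := Nat.cast_div_le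
  have h9 : (0 : ℝ) ≤ 1 + 4 * s * η := by positivity
  have h10 := mul_le_mul_of_nonneg_right h8 h9
  linarith

end Pool.Agent.Lib.H21T
end

-- from Lib.H21T.B10
section

/-!
# Chunk B10 (S/M): a complete sum
-/

namespace Pool.Agent.Lib.H21T

open Finset Pool.Agent.SZW

theorem b10_pow (t : ℝ) (n : ℕ) : ee (t * n) = ee t ^ n := by
  induction n with
  | zero => rw [Nat.cast_zero, mul_zero, ee_zero, pow_zero]
  | succ n ih => rw [Nat.cast_succ, mul_add, mul_one, ee_add, ih, pow_succ]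

/-- For fixed `r1` the inner sum over `r2` is `q` if `q ∣ p r1` (iff `q ∣ r1` iff `r1 = 0`) and `0` otherwise (geometric sum with ratio `ee (p r1 / q) ≠ 1`,
`ee (p r1 / q) ^ q = 1`; or `norm_one_sub_ee`). -/
theorem b10 (q : ℕ) (p : ℤ) (hq : 1 ≤ q) (hp : IsCoprime p (q : ℤ)) :
    ∑ r1 ∈ range q, ∑ r2 ∈ range q, ee ((p : ℝ) / q * ((r1 : ℝ) * r2)) = q := by
  have hq0 : (q : ℝ) ≠ 0 := by positivity
  have h1 : ∀ r1 ∈ range q, ∑ r2 ∈ range q, ee ((p : ℝ) / q * ((r1 : ℝ) * r2)) = if r1 = 0 then (q : ℂ) else 0 := by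
    intro r1 hr1
    have h2 : ∀ r2 ∈ range q, ee ((p : ℝ) / q * ((r1 : ℝ) * r2)) = ee ((p : ℝ) / q * r1) ^ r2 := by
      intro r2 _
      rw [← b10_pow, mul_assoc]
    rw [Finset.sum_congr rfl h2]
    split_ifs with h0
    · rw [h0]
      simp [ee_zero]
    · have hz : ee ((p : ℝ) / q * r1) ^ q = 1 := by
        rw [← b10_pow]
        have h3 : (p : ℝ) / q * r1 * q = ((p * r1 : ℤ) : ℝ) := by
          push_cast
          field_simp
        rw [h3, ee_int]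
      have hne : ee ((p : ℝ) / q * r1) ≠ 1 := by
        intro h3
        have h4 := norm_one_sub_ee ((p : ℝ) / q * r1)
        rw [h3, sub_self, norm_zero] at h4
        have h5 : nn ((p : ℝ) / q * r1) = 0 := le_antisymm (by linarith) (abs_nonneg _)
        unfold nn at h5
        rw [abs_eq_zero, sub_eq_zero] at h5
        set k := round ((p : ℝ) / q * r1) with hk
        have h6 : ((p * r1 : ℤ) : ℝ) = ((q * k : ℤ) : ℝ) := by
          push_cast
          rw [← h5]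
          field_simp
        have h7 : p * r1 = q * k := by exact_mod_cast h6
        have h8 : (q : ℤ) ∣ p * r1 := ⟨k, h7⟩
        have h9 : (q : ℤ) ∣ r1 := hp.symm.dvd_of_dvd_mul_left h8
        have h10 : q ∣ r1 := by exact_mod_cast h9
        have h11 := Finset.mem_range.1 hr1
        exact h0 (Nat.eq_zero_of_dvd_of_lt h10 h11)
      have h3 := geom_sum_mul (ee ((p : ℝ) / q * r1)) q
      rw [hz, sub_self] at h3
      exact (mul_eq_zero.1 h3).resolve_right (sub_ne_zero.2 hne)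
  rw [Finset.sum_congr rfl h1, Finset.sum_ite_eq', if_pos (Finset.mem_range.2 hq)]

end Pool.Agent.Lib.H21T
end

-- from Lib.H21T.B7
section

/-!
# Chunk B7 (S/M): counting in a residue class
-/

namespace Pool.Agent.Lib.H21T

open Finset Pool.Agent.SZW

theorem b7_le (x q r a : ℕ) (hq : 1 ≤ q) (ha : 1 ≤ a) (k : ℕ) : yv x q r a ≤ (k : ℝ) ↔ x ≤ a * (q * k + r) := by
  have hq' : (0 : ℝ) < q := by exact_mod_cast hq
  have ha' : (0 : ℝ) < a := by exact_mod_cast ha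
  have e : ((k : ℝ) * q + r) * a = ((a * (q * k + r) : ℕ) : ℝ) := by
    push_cast
    ring
  unfold yv
  rw [div_le_iff₀ hq', sub_le_iff_le_add, div_le_iff₀ ha', e]
  exact Nat.cast_le

theorem b7_lt (x q r a : ℕ) (hq : 1 ≤ q) (ha : 1 ≤ a) (k : ℕ) : (k : ℝ) < yv x q r a ↔ a * (q * k + r) < x := by
  rw [← not_le, b7_le x q r a hq ha k, not_le]

theorem b7_nonneg (x q r a : ℕ) (hr : r < q) (k : ℤ) (hk : yv x q r a ≤ (k : ℝ)) : 0 ≤ k := by
  by_contra hcon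
  have h1 : k ≤ -1 := by omega
  have h2 : (k : ℝ) ≤ -1 := by exact_mod_cast h1
  have hq' : (0 : ℝ) < q := by
    have : 0 < q := by omega
    exact_mod_cast this
  unfold yv at hk
  rw [div_le_iff₀ hq'] at hk
  have h3 : (0 : ℝ) ≤ (x : ℝ) / a := by positivity
  have h4 : (r : ℝ) < q := by exact_mod_cast hr
  nlinarith

/-- `b = r + q k` with `k : ℕ` (`b % q = r < q`); `x ≤ a b < x + H` iff `yv x q r a ≤ k < yv (x + H) q r a`; every integer `k` in this range gives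
`b = r + q k ≥ x / a > 0`, so `k ≥ 0` (`r < q`). The number of integers `k` with `y ≤ k < z` is `⌈z⌉ - ⌈y⌉` (`y ≤ z`). -/
theorem b7 (x H q r a : ℕ) (hx : 1 ≤ x) (hq : 1 ≤ q) (hr : r < q) (ha : 1 ≤ a) :
    ((((range (x + H)).filter fun b => (x ≤ a * b ∧ a * b < x + H) ∧ b % q = r).card : ℕ) : ℝ) =
      ((H : ℝ) / (q * a) + (Fr (yv (x + H) q r a) - Fr (yv x q r a))) := by
  have hq' : (0 : ℝ) < q := by exact_mod_cast hq
  have ha' : (0 : ℝ) < a := by exact_mod_cast ha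
  have e1 : yv (x + H) q r a = yv x q r a + (H : ℝ) / (q * a) := by
    unfold yv
    push_cast
    field_simp
    ring
  have e2 : yv x q r a ≤ yv (x + H) q r a := by
    rw [e1]
    have : 0 ≤ (H : ℝ) / (q * a) := by positivity
    linarith
  have hc : ((range (x + H)).filter fun b => (x ≤ a * b ∧ a * b < x + H) ∧ b % q = r).card =
      (Ico ⌈yv x q r a⌉ ⌈yv (x + H) q r a⌉).card := by
    refine Finset.card_bij (fun b _ => ((b / q : ℕ) : ℤ)) ?_ ?_ ?_
    · intro b hb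
      rw [mem_filter] at hb
      obtain ⟨_, ⟨h1, h2⟩, h3⟩ := hb
      have h4 : q * (b / q) + r = b := by
        rw [← h3]
        exact Nat.div_add_mod b q
      rw [mem_Ico, Int.ceil_le, Int.lt_ceil]
      constructor
      · have := (b7_le x q r a hq ha (b / q)).2 (by rw [h4]; exact h1)
        exact_mod_cast this
      · have := (b7_lt (x + H) q r a hq ha (b / q)).2 (by rw [h4]; exact h2)
        exact_mod_cast this
    · intro b1 hb1 b2 hb2 h
      rw [mem_filter] at hb1 hb2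
      have h' : b1 / q = b2 / q := by exact_mod_cast h
      rw [← Nat.div_add_mod b1 q, ← Nat.div_add_mod b2 q, h', hb1.2.2, hb2.2.2]
    · intro k hk
      rw [mem_Ico, Int.ceil_le, Int.lt_ceil] at hk
      obtain ⟨h1, h2⟩ := hk
      have h3 : 0 ≤ k := b7_nonneg x q r a hr k h1
      obtain ⟨n, rfl⟩ := Int.eq_ofNat_of_zero_le h3
      have h1' : yv x q r a ≤ (n : ℝ) := by exact_mod_cast h1
      have h2' : (n : ℝ) < yv (x + H) q r a := by exact_mod_cast h2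
      rw [b7_le x q r a hq ha] at h1'
      rw [b7_lt (x + H) q r a hq ha] at h2'
      refine ⟨q * n + r, ?_, ?_⟩
      · rw [mem_filter, mem_range]
        refine ⟨?_, ⟨h1', h2'⟩, ?_⟩
        · exact lt_of_le_of_lt (Nat.le_mul_of_pos_left _ (by omega)) h2'
        · rw [Nat.mul_add_mod, Nat.mod_eq_of_lt hr]
      · have : (q * n + r) / q = n := by
          rw [Nat.mul_add_div (by omega), Nat.div_eq_of_lt hr, Nat.add_zero]
        rw [this]
  rw [hc, Int.card_Ico]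
  have h5 : ⌈yv x q r a⌉ ≤ ⌈yv (x + H) q r a⌉ := Int.ceil_le_ceil e2
  have h6 : (((⌈yv (x + H) q r a⌉ - ⌈yv x q r a⌉).toNat : ℕ) : ℝ) = (⌈yv (x + H) q r a⌉ : ℝ) - ⌈yv x q r a⌉ := by
    have : (((⌈yv (x + H) q r a⌉ - ⌈yv x q r a⌉).toNat : ℕ) : ℤ) = ⌈yv (x + H) q r a⌉ - ⌈yv x q r a⌉ :=
      Int.toNat_of_nonneg (by omega)
    exact_mod_cast this
  rw [h6]
  unfold Fr
  have e3 : (H : ℝ) / (q * a) = yv (x + H) q r a - yv x q r a := by
    rw [e1]
    ring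
  rw [e3]
  ring

end Pool.Agent.Lib.H21T
end

-- from Lib.H21T.B8
section

/-!
# Chunk B8 (M): sum of 1 / a over a residue class
-/

namespace Pool.Agent.Lib.H21T

open Finset Pool.Agent.SZW

theorem b8_ex (n q r : ℕ) (hq : 1 ≤ q) (hr : r < q) : ∃ c, n ≤ c ∧ c < n + q ∧ c % q = r := by
  refine ⟨q * ((n + q - 1 - r) / q) + r, ?_, ?_, ?_⟩
  · have h1 := Nat.div_add_mod (n + q - 1 - r) q
    have h2 := Nat.mod_lt (n + q - 1 - r) (show q > 0 by omega)
    omega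
  · have h1 := Nat.div_add_mod (n + q - 1 - r) q
    omega
  · rw [Nat.mul_add_mod, Nat.mod_eq_of_lt hr]

/-- the two bounds for one term -/
theorem b8_term (n q : ℕ) (hq : 1 ≤ q) (hn : q < n) :
    (Real.log (n + q) - Real.log n) / q ≤ 1 / (n : ℝ) ∧
      1 / (n : ℝ) ≤ (Real.log n - Real.log (n - q)) / q := by
  have hq0 : (0 : ℝ) < q := by exact_mod_cast hq
  have hn0 : (0 : ℝ) < n := by exact_mod_cast (by omega : 0 < n)
  have hnq : (0 : ℝ) < (n : ℝ) - q := by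
    have : (q : ℝ) < n := by exact_mod_cast hn
    linarith
  constructor
  · rw [div_le_iff₀ hq0, ← Real.log_div (by positivity) hn0.ne']
    have h1 := Real.log_le_sub_one_of_pos (show (0 : ℝ) < (n + q) / n by positivity)
    have h2 : ((n : ℝ) + q) / n - 1 = 1 / n * q := by
      field_simp
      ring
    linarith
  · rw [le_div_iff₀ hq0]
    have h1 := Real.log_le_sub_one_of_pos (show (0 : ℝ) < ((n : ℝ) - q) / n by positivity)
    rw [Real.log_div hnq.ne' hn0.ne'] at h1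
    have h2 : ((n : ℝ) - q) / n - 1 = -(1 / n * q) := by
      field_simp
      ring
    linarith

theorem b8_ind (A1 q r : ℕ) (hq : 1 ≤ q) (hr : r < q) (h1 : 2 * q ≤ A1) (c0 : ℕ) (hc0 : A1 ≤ c0) (hc0' : c0 < A1 + q)
    (hc0r : c0 % q = r) (n : ℕ) (hn : A1 ≤ n) :
    ∃ c, n ≤ c ∧ c < n + q ∧ c % q = r ∧
      (Real.log c - Real.log c0) / q ≤ ∑ a ∈ (Ico A1 n).filter (fun a => a % q = r), 1 / (a : ℝ) ∧
      ∑ a ∈ (Ico A1 n).filter (fun a => a % q = r), 1 / (a : ℝ) ≤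
        (Real.log (c - q) - Real.log (c0 - q)) / q := by
  induction n, hn using Nat.le_induction with
  | base => exact ⟨c0, hc0, hc0', hc0r, by simp, by simp⟩
  | succ n hn ih =>
    obtain ⟨c, e1, e2, e3, e4, e5⟩ := ih
    rw [← Finset.insert_Ico_right_eq_Ico_add_one hn, Finset.filter_insert]
    by_cases h : n % q = r
    · have hcn : c = n := by
        have h6 : (c - n) % q = 0 := Nat.sub_mod_eq_zero_of_mod_eq (e3.trans h.symm)
        rw [Nat.mod_eq_of_lt (by omega)] at h6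
        omega
      rw [if_pos h, Finset.sum_insert (by simp)]
      obtain ⟨t1, t2⟩ := b8_term n q hq (by omega)
      subst hcn
      refine ⟨c + q, by omega, by omega, by rw [Nat.add_mod_right]; exact h, ?_, ?_⟩
      · push_cast
        have h7 : (Real.log ((c : ℝ) + q) - Real.log c0) / q =
            (Real.log (c + q) - Real.log c) / q + (Real.log c - Real.log c0) / q := by ring
        rw [h7]
        linarith
      · push_cast
        have h7 : (Real.log ((c : ℝ) + q - q) - Real.log (c0 - q)) / q =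
            (Real.log c - Real.log (c - q)) / q + (Real.log (c - q) - Real.log (c0 - q)) / q := by
          rw [add_sub_cancel_right]
          ring
        rw [h7]
        linarith
    · rw [if_neg h]
      have hcn : c ≠ n := fun h' => h (h' ▸ e3)
      exact ⟨c, by omega, by omega, e3, e4, e5⟩

/-- If the set is empty then `A2 - A1 < q` (an interval of `q` consecutive integers contains a multiple class), so `log (A2 / A1) ≤ q / A1`, and the claim holds. Otherwise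
the elements are `a_0 < .. < a_k`, consecutive differences `q`, `A1 ≤ a_0 < A1 + q`, `A2 ≤ a_k + q`, `a_k < A2`. From `(1 / q) log ((a + q) / a) ≤ 1 / a ≤ (1 / q) log (a / (a - q))`
and telescoping: `(1 / q) log ((a_k + q) / a_0) ≤ ∑ 1 / a ≤ (1 / q) log (a_k / (a_0 - q))`. Lower bound: `≥ (1 / q) log (A2 / (A1 + q)) ≥ (1 / q) log (A2 / A1) - 1 / A1`.
Upper bound: `≤ (1 / q) log (A2 / (A1 - q)) ≤ (1 / q) log (A2 / A1) + 1 / (A1 - q) ≤ (1 / q) log (A2 / A1) + 2 / A1` (`2 q ≤ A1`). -/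
theorem b8 (A1 A2 q r : ℕ) (hq : 1 ≤ q) (hr : r < q) (h1 : 2 * q ≤ A1) (h2 : A1 ≤ A2) :
    |∑ a ∈ (Ico A1 A2).filter (fun a => a % q = r), 1 / (a : ℝ) - (Real.log A2 - Real.log A1) / q| ≤ 2 / A1 := by
  obtain ⟨c0, hc0, hc0', hc0r⟩ := b8_ex A1 q r hq hr
  obtain ⟨c, e1, e2, e3, e4, e5⟩ := b8_ind A1 q r hq hr h1 c0 hc0 hc0' hc0r A2 h2
  have hq0 : (0 : ℝ) < q := by exact_mod_cast hq
  have hA1 : (0 : ℝ) < A1 := by exact_mod_cast (by omega : 0 < A1)
  have hA12 : (A1 : ℝ) ≤ A2 := by exact_mod_cast h2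
  have hA2 : (0 : ℝ) < A2 := by linarith
  have hqA : 2 * (q : ℝ) ≤ A1 := by exact_mod_cast h1
  have k1 : (A2 : ℝ) ≤ c := by exact_mod_cast e1
  have k2 : (c : ℝ) < A2 + q := by exact_mod_cast e2
  have k3 : (A1 : ℝ) ≤ c0 := by exact_mod_cast hc0
  have k4 : (c0 : ℝ) < A1 + q := by exact_mod_cast hc0'
  -- lower bound
  have l1 : Real.log A2 ≤ Real.log c := Real.log_le_log hA2 k1
  have l2 : Real.log c0 ≤ Real.log (A1 + q) := Real.log_le_log (by linarith) k4.le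
  have l3 : Real.log (A1 + q) - Real.log A1 ≤ q / A1 := by
    rw [← Real.log_div (by positivity) hA1.ne']
    have h3 := Real.log_le_sub_one_of_pos (show (0 : ℝ) < ((A1 : ℝ) + q) / A1 by positivity)
    have h4 : ((A1 : ℝ) + q) / A1 - 1 = q / A1 := by
      field_simp
      ring
    linarith
  have l4 : (Real.log A2 - Real.log A1) / q - 1 / A1 ≤ (Real.log c - Real.log c0) / q := by
    rw [le_div_iff₀ hq0, sub_mul, div_mul_cancel₀ _ hq0.ne']
    have h5 : 1 / (A1 : ℝ) * q = q / A1 := by ring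
    rw [h5]
    linarith
  -- upper bound
  have u0 : (0 : ℝ) < (A1 : ℝ) - q := by linarith
  have u1 : Real.log (c - q) ≤ Real.log A2 := Real.log_le_log (by linarith) (by linarith)
  have u2 : Real.log (A1 - q) ≤ Real.log (c0 - q) := Real.log_le_log u0 (by linarith)
  have u3 : Real.log A1 - Real.log (A1 - q) ≤ 2 * q / A1 := by
    rw [← Real.log_div hA1.ne' u0.ne']
    have h3 := Real.log_le_sub_one_of_pos (show (0 : ℝ) < (A1 : ℝ) / (A1 - q) by positivity)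
    have h4 : (A1 : ℝ) / (A1 - q) - 1 = q / (A1 - q) := by
      field_simp
      ring
    have h5 : (q : ℝ) / (A1 - q) ≤ 2 * q / A1 := by
      rw [div_le_div_iff₀ u0 hA1]
      nlinarith
    linarith
  have u4 : (Real.log (c - q) - Real.log (c0 - q)) / q ≤ (Real.log A2 - Real.log A1) / q + 2 / A1 := by
    rw [div_le_iff₀ hq0, add_mul, div_mul_cancel₀ _ hq0.ne']
    have h5 : 2 / (A1 : ℝ) * q = 2 * q / A1 := by ring
    rw [h5]
    linarith
  have h6 : 1 / (A1 : ℝ) ≤ 2 / A1 := by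
    rw [div_le_div_iff_of_pos_right hA1]
    norm_num
  rw [abs_le]
  constructor <;> linarith

end Pool.Agent.Lib.H21T
end

-- from Lib.H21T.G1
section

/-!
# Chunk G1 (S/M): the geometric parameters
-/

namespace Pool.Agent.Lib.H21T

open Finset Pool.Agent.SZW

/-- `X = ⌈4 u ^ 2⌉₊`, `S = ⌊u ^ 2500⌋₊` (at least `u ^ 2500 / 2`), `Λ = A ^ 3 / (2 * x * S ^ 2)` (natural division). `2 x S ^ 2 ≤ 8 u ^ 5002 A ^ 2 ≤ A ^ 3` as `A ≥ u ^ 9999`, so `Λ ≥ 1`, and
`⌊y⌋ ≥ y / 2` for `y ≥ 1` gives `hlo`. `Λ ≤ A ^ 3 / (2 x S ^ 2) ≤ A / S ^ 2 ≤ 4 u ^ 5000`; `hlo` gives `A ^ 3 ≤ 4 x Λ S ^ 2 ≤ 16 u ^ 2 A ^ 2 Λ u ^ 5000`. (Never unfold the powers;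
products with `← pow_add`, comparisons with `pow_le_pow_right₀`.) -/
theorem g1 (u : ℝ) (hu : 10 ≤ u) (A x : ℕ) (h1 : u ^ 9999 ≤ A) (h2 : (A : ℝ) ≤ u ^ 10000) (h3 : A ^ 2 ≤ 2 * x)
    (h4 : (x : ℝ) ≤ 4 * u ^ 2 * (A : ℝ) ^ 2) :
    ∃ X S Λ : ℕ, Geo A x X S Λ ∧ 4 * u ^ 2 ≤ X ∧ (X : ℝ) ≤ 5 * u ^ 2 ∧ (S : ℝ) ≤ u ^ 2500 ∧ u ^ 2500 ≤ 2 * S ∧
      (Λ : ℝ) ≤ 4 * u ^ 5000 ∧ (A : ℝ) ≤ 16 * u ^ 5002 * Λ := by
  have hu0 : (0 : ℝ) < u := by linarith
  have hu1 : (1 : ℝ) ≤ u := by linarith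
  obtain ⟨v, hv⟩ : ∃ v : ℝ, v = u ^ 2500 := ⟨_, rfl⟩
  have hv1 : 1 ≤ v := by rw [hv]; exact one_le_pow₀ hu1
  have hv0 : 0 < v := by linarith
  have hvv : v ^ 2 = u ^ 5000 := by rw [hv, ← pow_mul]
  obtain ⟨X, hXd⟩ : ∃ X : ℕ, X = ⌈4 * u ^ 2⌉₊ := ⟨_, rfl⟩
  obtain ⟨S, hSd⟩ : ∃ S : ℕ, S = ⌊v⌋₊ := ⟨_, rfl⟩
  have hX1 : 4 * u ^ 2 ≤ X := by rw [hXd]; exact Nat.le_ceil _
  have hX2 : (X : ℝ) ≤ 5 * u ^ 2 := by
    have h := (Nat.ceil_lt_add_one (show 0 ≤ 4 * u ^ 2 by positivity)).le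
    rw [← hXd] at h
    nlinarith
  have hS1 : (S : ℝ) ≤ v := by rw [hSd]; exact Nat.floor_le hv0.le
  have hS2 : v < S + 1 := by rw [hSd]; exact Nat.lt_floor_add_one v
  have hSn : 1 ≤ S := by
    have : (0 : ℝ) < S := by linarith
    have h2 : 0 < S := by exact_mod_cast this
    omega
  have hSr : (1 : ℝ) ≤ S := by exact_mod_cast hSn
  have hS3 : v ≤ 2 * S := by linarith
  have hA0 : (0 : ℝ) < A := lt_of_lt_of_le (by positivity) h1
  have hAn : 1 ≤ A := by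
    have h2 : 0 < A := by exact_mod_cast hA0
    omega
  have h3' : (A : ℝ) ^ 2 ≤ 2 * x := by exact_mod_cast h3
  have hx0 : (0 : ℝ) < x := by
    have : (0 : ℝ) < (A : ℝ) ^ 2 := by positivity
    linarith
  have hxn : 0 < x := by exact_mod_cast hx0
  have hM0 : 0 < 2 * x * S ^ 2 := by positivity
  have key : 2 * (x : ℝ) * (S : ℝ) ^ 2 ≤ (A : ℝ) ^ 3 := by
    have k1 : (S : ℝ) ^ 2 ≤ u ^ 5000 := by
      rw [← hvv]
      exact pow_le_pow_left₀ (by linarith) hS1 2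
    have k2 : 2 * (x : ℝ) * (S : ℝ) ^ 2 ≤ 2 * (4 * u ^ 2 * (A : ℝ) ^ 2) * u ^ 5000 := by
      apply mul_le_mul _ k1 (by positivity) (by positivity)
      linarith
    have k3 : 8 * u ^ 5002 ≤ (A : ℝ) := by
      have k4 : (8 : ℝ) * u ^ 5002 ≤ u * u ^ 5002 := by
        apply mul_le_mul_of_nonneg_right (by linarith) (by positivity)
      have k5 : u * u ^ 5002 = u ^ 5003 := by rw [← pow_succ']
      have k6 : u ^ 5003 ≤ u ^ 9999 := pow_le_pow_right₀ hu1 (by norm_num)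
      linarith
    have k7 : 2 * (4 * u ^ 2 * (A : ℝ) ^ 2) * u ^ 5000 = 8 * u ^ 5002 * (A : ℝ) ^ 2 := by
      have : u ^ 5002 = u ^ 2 * u ^ 5000 := by rw [← pow_add]
      rw [this]
      ring
    have k8 : 8 * u ^ 5002 * (A : ℝ) ^ 2 ≤ (A : ℝ) * (A : ℝ) ^ 2 :=
      mul_le_mul_of_nonneg_right k3 (by positivity)
    calc 2 * (x : ℝ) * (S : ℝ) ^ 2 ≤ 2 * (4 * u ^ 2 * (A : ℝ) ^ 2) * u ^ 5000 := k2
      _ = 8 * u ^ 5002 * (A : ℝ) ^ 2 := k7
      _ ≤ (A : ℝ) * (A : ℝ) ^ 2 := k8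
      _ = (A : ℝ) ^ 3 := by ring
  have keyn : 2 * x * S ^ 2 ≤ A ^ 3 := by exact_mod_cast key
  obtain ⟨L, hLd⟩ : ∃ L : ℕ, L = A ^ 3 / (2 * x * S ^ 2) := ⟨_, rfl⟩
  have hL1 : 1 ≤ L := by
    rw [hLd]
    exact Nat.div_pos keyn hM0
  have hL2 : L * (2 * x * S ^ 2) ≤ A ^ 3 := by
    rw [hLd]
    exact Nat.div_mul_le_self _ _
  have hL3 : A ^ 3 < (L + 1) * (2 * x * S ^ 2) := by
    rw [hLd, mul_comm]
    exact Nat.lt_mul_div_succ _ hM0
  have hL4 : A ^ 3 ≤ 4 * x * L * S ^ 2 := by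
    have h5 : (L + 1) * (2 * x * S ^ 2) ≤ (2 * L) * (2 * x * S ^ 2) := Nat.mul_le_mul_right _ (by omega)
    have h6 : (2 * L) * (2 * x * S ^ 2) = 4 * x * L * S ^ 2 := by ring
    omega
  have hL2r : (L : ℝ) * (2 * x * S ^ 2) ≤ (A : ℝ) ^ 3 := by exact_mod_cast hL2
  have hL4r : (A : ℝ) ^ 3 ≤ 4 * x * L * S ^ 2 := by exact_mod_cast hL4
  have hLr : (1 : ℝ) ≤ L := by exact_mod_cast hL1
  refine ⟨X, S, L, ⟨hAn, ?_, hSn, hL1, h3, ?_, ?_, hL4⟩, hX1, hX2, ?_, ?_, ?_, ?_⟩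
  · have : (0 : ℝ) < X := lt_of_lt_of_le (by positivity) hX1
    have h2 : 0 < X := by exact_mod_cast this
    omega
  · have : (x : ℝ) ≤ X * (A : ℝ) ^ 2 := h4.trans (mul_le_mul_of_nonneg_right hX1 (by positivity))
    exact_mod_cast this
  · calc 2 * x * L * S ^ 2 = L * (2 * x * S ^ 2) := by ring
      _ ≤ A ^ 3 := hL2
  · rw [← hv]; exact hS1
  · rw [← hv]; exact hS3
  · -- L ≤ 4 u ^ 5000
    have m1 : (L : ℝ) * (S : ℝ) ^ 2 * (A : ℝ) ^ 2 ≤ (A : ℝ) * (A : ℝ) ^ 2 := by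
      calc (L : ℝ) * (S : ℝ) ^ 2 * (A : ℝ) ^ 2 ≤ (L : ℝ) * (S : ℝ) ^ 2 * (2 * x) :=
            mul_le_mul_of_nonneg_left h3' (by positivity)
        _ = L * (2 * x * S ^ 2) := by ring
        _ ≤ (A : ℝ) ^ 3 := hL2r
        _ = (A : ℝ) * (A : ℝ) ^ 2 := by ring
    have m2 : (L : ℝ) * (S : ℝ) ^ 2 ≤ A := le_of_mul_le_mul_right m1 (by positivity)
    have m3 : v ^ 2 ≤ 4 * (S : ℝ) ^ 2 := by
      calc v ^ 2 ≤ (2 * (S : ℝ)) ^ 2 := pow_le_pow_left₀ hv0.le hS3 2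
        _ = 4 * (S : ℝ) ^ 2 := by ring
    have m4 : (L : ℝ) * v ^ 2 ≤ 4 * u ^ 5000 * v ^ 2 := by
      calc (L : ℝ) * v ^ 2 ≤ L * (4 * (S : ℝ) ^ 2) := mul_le_mul_of_nonneg_left m3 (by linarith)
        _ = 4 * (L * (S : ℝ) ^ 2) := by ring
        _ ≤ 4 * u ^ 10000 := by linarith
        _ = 4 * u ^ 5000 * v ^ 2 := by
            rw [hvv, mul_assoc, ← pow_add]
    exact le_of_mul_le_mul_right m4 (by positivity)
  · -- A ≤ 16 u ^ 5002 L
    have k1 : (S : ℝ) ^ 2 ≤ u ^ 5000 := by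
      rw [← hvv]
      exact pow_le_pow_left₀ (by linarith) hS1 2
    have m1 : (A : ℝ) * (A : ℝ) ^ 2 ≤ 16 * u ^ 5002 * L * (A : ℝ) ^ 2 := by
      have m0 : (A : ℝ) * (A : ℝ) ^ 2 = (A : ℝ) ^ 3 := by ring
      rw [m0]
      calc (A : ℝ) ^ (3 : ℕ) ≤ 4 * (x : ℝ) * L * (S : ℝ) ^ (2 : ℕ) := hL4r
        _ ≤ 4 * (x : ℝ) * L * u ^ (5000 : ℕ) := mul_le_mul_of_nonneg_left k1 (by positivity)
        _ = (x : ℝ) * (4 * L * u ^ (5000 : ℕ)) := by ring
        _ ≤ 4 * u ^ 2 * (A : ℝ) ^ 2 * (4 * L * u ^ 5000) := mul_le_mul_of_nonneg_right h4 (by positivity)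
        _ = 16 * (u ^ 2 * u ^ 5000) * L * (A : ℝ) ^ 2 := by ring
        _ = 16 * u ^ 5002 * L * (A : ℝ) ^ 2 := by rw [← pow_add]
    exact le_of_mul_le_mul_right m1 (by positivity)

end Pool.Agent.Lib.H21T
end

-- from Lib.H21T.Z5A
section

/-!
# Chunk Z5A (S/M): numbers for the major arcs
-/

namespace Pool.Agent.Lib.H21T

open Finset Pool.Agent.SZW

/-- `X`, `S`, `Λ` from `g1`, `s0 = ⌊u ^ 1250⌋₊`. `H S ^ 2 ≤ 3 u ^ 14740 ≤ u ^ 19998 ≤ A ^ 2`. The sum is at most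
`4 u ^ 8750 + 48 u ^ 7500 + 32 u ^ 7502 + 291 * 5 u ^ 2 u ^ 1250 u ^ 2500 4 u ^ 5000 + 6 ≤ u ^ 8753`. -/
theorem z5_num : ∃ U0 : ℝ, 1 ≤ U0 ∧ ∀ u : ℝ, U0 ≤ u → ∀ A x H : ℕ, u ^ 9999 ≤ A → (A : ℝ) ≤ u ^ 10000 →
    A ^ 2 ≤ 2 * x → (x : ℝ) ≤ 4 * u ^ 2 * (A : ℝ) ^ 2 → (H : ℝ) ≤ 3 * u ^ 9740 →
    ∃ X S Λ s0 : ℕ, Geo A x X S Λ ∧ H * S ^ 2 ≤ A ^ 2 ∧ 1 ≤ s0 ∧
      2 * A * (1 / (s0 : ℝ) + 12 / S) + 2 * A * S / Λ + 291 * X * s0 * S * Λ + 2 * H / A ≤ u ^ 8753 := by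
  refine ⟨10000, by norm_num, ?_⟩
  intro u hu A x H hA1 hA2 hAx hxA hH
  have hu1 : (1 : ℝ) ≤ u := by linarith
  have hu0 : (0 : ℝ) < u := by linarith
  obtain ⟨X, S, Λ, hG, hX1, hX2, hS1, hS2, hL1, hL2⟩ := g1 u (by linarith) A x hA1 hA2 hAx hxA
  have hP1250 : 1 ≤ u ^ 1250 := one_le_pow₀ hu1
  have hP2500 : 1 ≤ u ^ 2500 := one_le_pow₀ hu1
  have hP5000 : 1 ≤ u ^ 5000 := one_le_pow₀ hu1
  have hs0a : ((⌊u ^ 1250⌋₊ : ℕ) : ℝ) ≤ u ^ 1250 := Nat.floor_le (by positivity)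
  have hs0b : u ^ 1250 < (⌊u ^ 1250⌋₊ : ℕ) + 1 := Nat.lt_floor_add_one _
  have hs0c : 1 ≤ ⌊u ^ 1250⌋₊ := by
    rw [Nat.one_le_floor_iff]
    exact hP1250
  obtain ⟨s0, hs0⟩ : ∃ s0 : ℕ, s0 = ⌊u ^ 1250⌋₊ := ⟨_, rfl⟩
  rw [← hs0] at hs0a hs0b hs0c
  have hs0r : (1 : ℝ) ≤ s0 := by exact_mod_cast hs0c
  have hs0d : u ^ 1250 ≤ 2 * s0 := by linarith
  have hSr : (1 : ℝ) ≤ S := by exact_mod_cast hG.hS
  have hLr : (1 : ℝ) ≤ Λ := by exact_mod_cast hG.hΛ
  have hXr : (1 : ℝ) ≤ X := by exact_mod_cast hG.hX1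
  have hA0 : (1 : ℝ) ≤ A := le_trans (one_le_pow₀ hu1) hA1
  have hpos : 0 < u ^ 8752 := pow_pos hu0 _
  have hp1 : u ^ 8750 ≤ u ^ 8752 := pow_le_pow_right₀ hu1 (by norm_num)
  have hp2 : u ^ 7500 ≤ u ^ 8752 := pow_le_pow_right₀ hu1 (by norm_num)
  have hp3 : u ^ 7502 ≤ u ^ 8752 := pow_le_pow_right₀ hu1 (by norm_num)
  have hp4 : 1 ≤ u ^ 8752 := one_le_pow₀ hu1
  have hp5 : u ^ 8753 = u * u ^ 8752 := by rw [← pow_succ']
  refine ⟨X, S, Λ, s0, hG, ?_, hs0c, ?_⟩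
  · have h1 : (H : ℝ) * (S : ℝ) ^ 2 ≤ (A : ℝ) ^ 2 := by
      calc (H : ℝ) * (S : ℝ) ^ 2 ≤ (3 * u ^ 9740) * (u ^ 2500) ^ 2 := by
            apply mul_le_mul hH _ (by positivity) (by positivity)
            exact pow_le_pow_left₀ (by linarith) hS1 2
        _ = 3 * u ^ 14740 := by
            rw [← pow_mul, mul_assoc, ← pow_add]
        _ ≤ u * u ^ 14740 := by
            apply mul_le_mul_of_nonneg_right (by linarith) (by positivity)
        _ = u ^ 14741 := by rw [← pow_succ']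
        _ ≤ u ^ 19998 := pow_le_pow_right₀ hu1 (by norm_num)
        _ = (u ^ 9999) ^ 2 := by rw [← pow_mul]
        _ ≤ (A : ℝ) ^ 2 := pow_le_pow_left₀ (by positivity) hA1 2
    exact_mod_cast h1
  · have t1 : 2 * (A : ℝ) * (1 / (s0 : ℝ)) ≤ 4 * u ^ 8750 := by
      rw [mul_one_div, div_le_iff₀ (by linarith)]
      calc 2 * (A : ℝ) ≤ 2 * u ^ 10000 := by linarith
        _ = 2 * u ^ 8750 * u ^ 1250 := by rw [mul_assoc, ← pow_add]
        _ ≤ 2 * u ^ 8750 * (2 * s0) := by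
            apply mul_le_mul_of_nonneg_left hs0d (by positivity)
        _ = 4 * u ^ 8750 * s0 := by ring
    have t2 : 2 * (A : ℝ) * (12 / (S : ℝ)) ≤ 48 * u ^ 7500 := by
      rw [← mul_div_assoc, div_le_iff₀ (by linarith)]
      calc 2 * (A : ℝ) * 12 ≤ 2 * u ^ 10000 * 12 := by linarith
        _ = 24 * u ^ 7500 * u ^ 2500 := by
            have : u ^ 10000 = u ^ 7500 * u ^ 2500 := by rw [← pow_add]
            rw [this]; ring
        _ ≤ 24 * u ^ 7500 * (2 * S) := by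
            apply mul_le_mul_of_nonneg_left hS2 (by positivity)
        _ = 48 * u ^ 7500 * S := by ring
    have t3 : 2 * (A : ℝ) * S / Λ ≤ 32 * u ^ 7502 := by
      rw [div_le_iff₀ (by linarith)]
      calc 2 * (A : ℝ) * S ≤ 2 * (16 * u ^ 5002 * Λ) * u ^ 2500 := by
            apply mul_le_mul (by linarith) hS1 (by linarith) (by positivity)
        _ = 32 * u ^ 7502 * Λ := by
            have : u ^ 7502 = u ^ 5002 * u ^ 2500 := by rw [← pow_add]
            rw [this]; ring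
    have t4 : 291 * (X : ℝ) * s0 * S * Λ ≤ 5820 * u ^ 8752 := by
      calc 291 * (X : ℝ) * s0 * S * Λ ≤ 291 * (5 * u ^ 2) * u ^ 1250 * u ^ 2500 * (4 * u ^ 5000) := by
            have a1 : 291 * (X : ℝ) ≤ 291 * (5 * u ^ 2) := by linarith
            have a2 : 291 * (X : ℝ) * s0 ≤ 291 * (5 * u ^ 2) * u ^ 1250 :=
              mul_le_mul a1 hs0a (by linarith) (by positivity)
            have a3 : 291 * (X : ℝ) * s0 * S ≤ 291 * (5 * u ^ 2) * u ^ 1250 * u ^ 2500 :=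
              mul_le_mul a2 hS1 (by linarith) (by positivity)
            exact mul_le_mul a3 hL1 (by linarith) (by positivity)
        _ = 5820 * u ^ 8752 := by
            have : u ^ 8752 = u ^ 2 * u ^ 1250 * u ^ 2500 * u ^ 5000 := by
              rw [← pow_add, ← pow_add, ← pow_add]
            rw [this]; ring
    have t5 : 2 * (H : ℝ) / A ≤ 6 := by
      rw [div_le_iff₀ (by linarith)]
      have : u ^ 9740 ≤ u ^ 9999 := pow_le_pow_right₀ hu1 (by norm_num)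
      linarith
    have hfin : 5910 * u ^ 8752 ≤ u ^ 8753 := by
      rw [hp5]
      exact mul_le_mul_of_nonneg_right (by linarith) hpos.le
    have hsplit : 2 * (A : ℝ) * (1 / (s0 : ℝ) + 12 / S) = 2 * (A : ℝ) * (1 / (s0 : ℝ)) + 2 * (A : ℝ) * (12 / (S : ℝ)) := by
      ring
    rw [hsplit]
    linarith

end Pool.Agent.Lib.H21T
end
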