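import Pool.Agent.Lib.H1M.RV2.M002
import Pool.Agent.Lib.H1M.RV2.M003

/-! Merged copies (to shorten the build) of Lib.H21T.M1, Lib.H21T.M3, Lib.H21T.M7, Lib.H21T.M6, Lib.H21T.Z0, Lib.H21T.Z2, Lib.H21T.V1, Lib.H21T.V2, Lib.H44W.U1, Lib.H44W.U3, Lib.H44W.U4, Lib.H44W.U2. -/

-- from Lib.H21T.M1
section

/-!
# Chunk M1 (S/M): the coefficients of the model
-/

namespace Pool.Agent.Lib.H21T

open Finset Pool.Agent.SZW

/-- `|μ| ≤ 1` and the harmonic sum up to `Q / d ≤ Q`. -/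
theorem m1 (Q d : ℕ) (hQ : 1 ≤ Q) : |lam Q d| ≤ 1 + Real.log Q := by
  have h1 : |lam Q d| ≤ ∑ r ∈ Icc 1 (Q / d), 1 / (r : ℝ) := by
    refine (Finset.abs_sum_le_sum_abs _ _).trans (Finset.sum_le_sum fun r hr => ?_)
    have hr0 : (0 : ℝ) < r := by exact_mod_cast (mem_Icc.1 hr).1
    rw [abs_div, abs_of_pos hr0]
    have h2 : |((ArithmeticFunction.moebius r : ℤ) : ℝ)| ≤ 1 := by
      have h3 : |ArithmeticFunction.moebius r| ≤ 1 := ArithmeticFunction.abs_moebius_le_one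
      exact_mod_cast h3
    gcongr
  have h2 : ∑ r ∈ Icc 1 (Q / d), 1 / (r : ℝ) ≤ ∑ r ∈ Icc 1 Q, 1 / (r : ℝ) := by
    apply Finset.sum_le_sum_of_subset_of_nonneg
    · exact Finset.Icc_subset_Icc_right (Nat.div_le_self _ _)
    · intro i _ _
      positivity
  have h3 : ∑ r ∈ Icc 1 Q, 1 / (r : ℝ) ≤ 1 + Real.log Q := by
    have h4 := harmonic_le_one_add_log Q
    rw [harmonic_eq_sum_Icc] at h4
    push_cast at h4
    simpa only [one_div] using h4
  linarith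

/-- `|gQ Q m| ≤ (number of divisors of m) (1 + log Q)`. -/
theorem m1_g (Q m : ℕ) (hQ : 1 ≤ Q) (hm : 1 ≤ m) : |gQ Q m| ≤ m.divisors.card * (1 + Real.log Q) := by
  unfold gQ
  refine (Finset.abs_sum_le_sum_abs _ _).trans ?_
  refine (Finset.sum_le_sum fun d _ => m1 Q d hQ).trans ?_
  rw [Finset.sum_const, nsmul_eq_mul]
  have hlog : 0 ≤ 1 + Real.log Q := by
    have : 0 ≤ Real.log Q := Real.log_natCast_nonneg Q
    linarith
  refine mul_le_mul_of_nonneg_right ?_ hlog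
  exact_mod_cast Finset.card_le_card (fun d hd => by
    rw [mem_filter] at hd
    exact Nat.mem_divisors.2 ⟨hd.2, by omega⟩)

/-- `∑_{d ≤ Q, q ∣ d} (1 / d) ∑_{r ≤ Q / d} μ(r) / r = ∑_{n ≤ Q, q ∣ n} (1 / n) ∑_{r ∣ n / q} μ(r)` (`n = d r`; `q ∣ d` means that `r` divides `n / q`), and the inner sum is
`1` if `n = q` and `0` otherwise. -/
theorem m2 (Q q : ℕ) (hq : 1 ≤ q) :
    ∑ d ∈ (Icc 1 Q).filter (fun d => q ∣ d), lam Q d / d = if q ≤ Q then 1 / (q : ℝ) else 0 := by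
  have h1 : ∑ d ∈ (Icc 1 Q).filter (fun d => q ∣ d), lam Q d / d =
      ∑ p ∈ ((Icc 1 Q).filter (fun d => q ∣ d)).sigma (fun d => Icc 1 (Q / d)),
        (ArithmeticFunction.moebius p.2 : ℝ) / (p.1 * p.2) := by
    rw [Finset.sum_sigma]
    refine Finset.sum_congr rfl fun d _ => ?_
    unfold lam
    rw [Finset.sum_div]
    refine Finset.sum_congr rfl fun r _ => ?_
    rw [div_div, mul_comm (r : ℝ)]
  have h2 : ∑ n ∈ (Icc 1 Q).filter (fun n => q ∣ n), (1 / (n : ℝ)) * ∑ r ∈ (n / q).divisors, (ArithmeticFunction.moebius r : ℝ) =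
      ∑ p ∈ ((Icc 1 Q).filter (fun n => q ∣ n)).sigma (fun n => (n / q).divisors),
        (ArithmeticFunction.moebius p.2 : ℝ) / p.1 := by
    rw [Finset.sum_sigma]
    refine Finset.sum_congr rfl fun n _ => ?_
    rw [Finset.mul_sum]
    refine Finset.sum_congr rfl fun r _ => ?_
    ring
  have h3 : ∑ p ∈ ((Icc 1 Q).filter (fun d => q ∣ d)).sigma (fun d => Icc 1 (Q / d)),
        (ArithmeticFunction.moebius p.2 : ℝ) / (p.1 * p.2) =
      ∑ p ∈ ((Icc 1 Q).filter (fun n => q ∣ n)).sigma (fun n => (n / q).divisors),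
        (ArithmeticFunction.moebius p.2 : ℝ) / p.1 := by
    refine Finset.sum_bij' (fun p _ => (⟨p.1 * p.2, p.2⟩ : Σ _ : ℕ, ℕ)) (fun p _ => (⟨p.1 / p.2, p.2⟩ : Σ _ : ℕ, ℕ)) ?_ ?_ ?_ ?_ ?_
    · rintro ⟨d, r⟩ hp
      simp only [mem_sigma, mem_filter, mem_Icc] at hp ⊢
      obtain ⟨⟨⟨h4, h5⟩, h6⟩, h7, h8⟩ := hp
      have h9 : d * r ≤ Q := by
        rw [mul_comm]
        exact (Nat.le_div_iff_mul_le (by omega)).1 h8
      refine ⟨⟨⟨Nat.mul_pos h4 h7, h9⟩, Dvd.dvd.mul_right h6 r⟩, ?_⟩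
      obtain ⟨k, rfl⟩ := h6
      have hk : 0 < k := Nat.pos_of_ne_zero (by rintro rfl; simp at h4)
      rw [mul_assoc, Nat.mul_div_cancel_left _ hq]
      exact Nat.mem_divisors.2 ⟨Dvd.intro_left k rfl, (Nat.mul_pos hk h7).ne'⟩
    · rintro ⟨n, r⟩ hp
      simp only [mem_sigma, mem_filter, mem_Icc] at hp ⊢
      obtain ⟨⟨⟨h4, h5⟩, h6⟩, h7⟩ := hp
      obtain ⟨k, rfl⟩ := h6
      rw [Nat.mul_div_cancel_left _ hq, Nat.mem_divisors] at h7
      obtain ⟨⟨l, rfl⟩, h8⟩ := h7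
      have hr : 0 < r := Nat.pos_of_ne_zero (by rintro rfl; simp at h8)
      have hl : 0 < l := Nat.pos_of_ne_zero (by rintro rfl; simp at h8)
      have h9 : q * (r * l) / r = q * l := by
        rw [show q * (r * l) = r * (q * l) by ring, Nat.mul_div_cancel_left _ hr]
      rw [h9]
      have h10 : q * l * r ≤ Q := by
        rw [show q * l * r = q * (r * l) by ring]
        exact h5
      have h11 : 0 < q * l := Nat.mul_pos hq hl
      refine ⟨⟨⟨h11, (Nat.le_mul_of_pos_right _ hr).trans h10⟩, Dvd.intro l rfl⟩, hr, ?_⟩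
      rw [Nat.le_div_iff_mul_le h11, mul_comm]
      exact h10
    · rintro ⟨d, r⟩ hp
      simp only [mem_sigma, mem_filter, mem_Icc] at hp
      have hr : 0 < r := hp.2.1
      simp only [Nat.mul_div_cancel _ hr]
    · rintro ⟨n, r⟩ hp
      simp only [mem_sigma, mem_filter, mem_Icc, Nat.mem_divisors] at hp
      obtain ⟨⟨_, h6⟩, h7, _⟩ := hp
      have h8 : r ∣ n := h7.trans (Nat.div_dvd_of_dvd h6)
      simp only [Nat.div_mul_cancel h8]
    · rintro ⟨d, r⟩ _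
      simp only
      push_cast
      rfl
  rw [h1, h3, ← h2]
  have h4 : ∀ n ∈ (Icc 1 Q).filter (fun n => q ∣ n), (1 / (n : ℝ)) * ∑ r ∈ (n / q).divisors, (ArithmeticFunction.moebius r : ℝ) =
      if n = q then 1 / (n : ℝ) else 0 := by
    intro n hn
    rw [mem_filter, mem_Icc] at hn
    obtain ⟨⟨h5, h6⟩, k, rfl⟩ := hn
    have hk : 0 < k := Nat.pos_of_ne_zero (by rintro rfl; simp at h5)
    rw [Nat.mul_div_cancel_left _ hq]
    have h7 : ∑ r ∈ k.divisors, (ArithmeticFunction.moebius r : ℝ) = if k = 1 then 1 else 0 := by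
      have h8 : ∑ r ∈ k.divisors, ArithmeticFunction.moebius r = if k = 1 then 1 else 0 := by
        have h9 := congrArg (fun f => f k) ArithmeticFunction.coe_zeta_mul_moebius
        simp only [ArithmeticFunction.coe_zeta_mul_apply, ArithmeticFunction.one_apply] at h9
        exact h9
      have h10 := congrArg (fun z : ℤ => (z : ℝ)) h8
      push_cast at h10
      exact h10
    rw [h7]
    by_cases hk1 : k = 1
    · subst hk1
      simp
    · rw [if_neg hk1, mul_zero, if_neg]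
      intro h
      apply hk1
      have : q * k = q * 1 := by rw [h, mul_one]
      exact Nat.eq_of_mul_eq_mul_left hq this
  rw [Finset.sum_congr rfl h4, Finset.sum_ite_eq']
  by_cases hqQ : q ≤ Q
  · rw [if_pos hqQ, if_pos]
    exact mem_filter.2 ⟨mem_Icc.2 ⟨hq, hqQ⟩, dvd_refl _⟩
  · rw [if_neg hqQ, if_neg]
    intro h
    exact hqQ (mem_Icc.1 (mem_filter.1 h).1).2

end Pool.Agent.Lib.H21T
end

-- from Lib.H21T.M3
section

/-!
# Chunk M3 (S/M): the model at a rational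
-/

namespace Pool.Agent.Lib.H21T

open Finset Pool.Agent.SZW

theorem m3_ceil (x d : ℕ) (hd : 1 ≤ d) : ∃ a : ℕ, x ≤ a * d ∧ a * d < x + d ∧ ∀ j, x ≤ j * d ↔ a ≤ j := by
  refine ⟨(x + d - 1) / d, ?_, ?_, fun j => ?_⟩
  · have h1 := Nat.lt_div_mul_add (a := x + d - 1) hd
    omega
  · have h1 := Nat.div_mul_le_self (x + d - 1) d
    omega
  · have e1 : (x + d - 1) / d ≤ j ↔ (x + d - 1) / d < j + 1 := Nat.lt_succ_iff.symm
    rw [e1, Nat.div_lt_iff_lt_mul hd, Nat.succ_mul]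
    omega

theorem m3_nn (d q : ℕ) (p : ℤ) (hq : 1 ≤ q) (hp : IsCoprime p (q : ℤ)) (h : ¬ q ∣ d) :
    1 / (q : ℝ) ≤ nn ((p : ℝ) / q * d) := by
  have hq0 : (0 : ℝ) < q := by exact_mod_cast hq
  unfold nn
  generalize round ((p : ℝ) / q * d) = k
  have e1 : (p : ℝ) / q * d - k = ((p * d - k * q : ℤ) : ℝ) / q := by
    push_cast
    field_simp
  rw [e1, abs_div, abs_of_pos hq0]
  refine div_le_div_of_nonneg_right ?_ hq0.le
  have h1 : p * d - k * q ≠ 0 := by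
    intro h0
    apply h
    have h2 : (q : ℤ) ∣ p * d := ⟨k, by linarith⟩
    have h3 := hp.symm.dvd_of_dvd_mul_left h2
    exact_mod_cast h3
  have h2 := Int.one_le_abs h1
  exact_mod_cast h2

theorem m3_par (x H d : ℕ) (hd : 1 ≤ d) : ∃ a c : ℕ, a ≤ c ∧ |((c : ℝ) - a) - (H : ℝ) / d| ≤ 1 ∧
    ∀ f : ℕ → ℂ, ∑ m ∈ (Ico x (x + H)).filter (fun m => d ∣ m), f m = ∑ j ∈ Ico a c, f (j * d) := by
  obtain ⟨a, ha1, ha2, ha3⟩ := m3_ceil x d hd
  obtain ⟨c, hc1, hc2, hc3⟩ := m3_ceil (x + H) d hd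
  have hac : a ≤ c := (ha3 c).1 (by omega)
  refine ⟨a, c, hac, ?_, fun f => ?_⟩
  · have hd0 : (0 : ℝ) < d := by exact_mod_cast hd
    have h1 : (x : ℝ) ≤ a * d := by exact_mod_cast ha1
    have h2 : (a : ℝ) * d < x + d := by exact_mod_cast ha2
    have h3 : (x : ℝ) + H ≤ c * d := by exact_mod_cast hc1
    have h4 : (c : ℝ) * d < x + H + d := by exact_mod_cast hc2
    have e1 : ((c : ℝ) - a) - (H : ℝ) / d = (c * d - a * d - H) / d := by
      field_simp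
    rw [e1, abs_div, abs_of_pos hd0, div_le_one hd0, abs_le]
    constructor <;> linarith
  · have e1 : (Ico x (x + H)).filter (fun m => d ∣ m) = (Ico a c).image (fun j => j * d) := by
      ext m
      rw [mem_filter, mem_Ico, mem_image]
      constructor
      · rintro ⟨⟨h1, h2⟩, j, rfl⟩
        refine ⟨j, ?_, Nat.mul_comm _ _⟩
        rw [mem_Ico]
        refine ⟨(ha3 j).1 (by rwa [Nat.mul_comm]), ?_⟩
        by_contra hcon
        have h3 := (hc3 j).2 (not_lt.1 hcon)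
        rw [Nat.mul_comm] at h3
        omega
      · rintro ⟨j, hj, rfl⟩
        rw [mem_Ico] at hj
        refine ⟨⟨(ha3 j).2 hj.1, ?_⟩, Dvd.intro_left _ rfl⟩
        by_contra hcon
        have h3 := (hc3 j).1 (not_lt.1 hcon)
        omega
    rw [e1, sum_image]
    intro j _ k _ hjk
    exact Nat.eq_of_mul_eq_mul_right hd hjk

/-- If `q ∣ d` all terms are `1` (`ee_int`: `p m / q` is an integer) and the number of multiples of `d` in the interval is `H / d` up to `1`. If not: `m = d j`,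
`j` in an interval of integers, geometric sum with `nn (p d / q) ≥ 1 / q` (`geom_bound`): norm at most `q / 2`. -/
theorem m3 (x H d q : ℕ) (p : ℤ) (hd : 1 ≤ d) (hq : 1 ≤ q) (hp : IsCoprime p (q : ℤ)) :
    ‖∑ m ∈ (Ico x (x + H)).filter (fun m => d ∣ m), ee ((p : ℝ) / q * m) - (((if q ∣ d then (H : ℝ) / d else 0) : ℝ) : ℂ)‖ ≤ q := by
  have hq0 : (0 : ℝ) < q := by exact_mod_cast hq
  have hq1 : (1 : ℝ) ≤ q := by exact_mod_cast hq
  obtain ⟨a, c, hac, hcount, hpar⟩ := m3_par x H d hd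
  rw [hpar]
  by_cases hqd : q ∣ d
  · rw [if_pos hqd]
    have h1 : ∀ j ∈ Ico a c, ee ((p : ℝ) / q * ((j * d : ℕ) : ℝ)) = 1 := by
      intro j _
      obtain ⟨k, hk⟩ := hqd
      have e1 : (p : ℝ) / q * ((j * d : ℕ) : ℝ) = ((p * (j * k : ℕ) : ℤ) : ℝ) := by
        rw [hk]
        push_cast
        field_simp
      rw [e1, ee_int]
    rw [sum_congr rfl h1, sum_const, Nat.card_Ico, nsmul_eq_mul, mul_one]
    have e2 : ((c - a : ℕ) : ℂ) - (((H : ℝ) / d : ℝ) : ℂ) = ((((c : ℝ) - a) - (H : ℝ) / d : ℝ) : ℂ) := by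
      rw [Nat.cast_sub hac]
      push_cast
      ring
    rw [e2, Complex.norm_real, Real.norm_eq_abs]
    linarith
  · rw [if_neg hqd]
    have e1 : ∑ j ∈ Ico a c, ee ((p : ℝ) / q * ((j * d : ℕ) : ℝ)) =
        ∑ n ∈ Ico (a : ℤ) (c : ℤ), ee ((n : ℝ) * ((p : ℝ) / q * d)) := by
      have e9 : Ico (a : ℤ) (c : ℤ) = (Ico a c).image (fun j : ℕ => (j : ℤ)) := by
        ext n
        rw [mem_Ico, mem_image]
        constructor
        · rintro ⟨h1, h2⟩
          obtain ⟨k, hk⟩ := Int.eq_ofNat_of_zero_le (le_trans (Int.natCast_nonneg a) h1)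
          refine ⟨k, ?_, hk.symm⟩
          rw [mem_Ico]
          omega
        · rintro ⟨k, hk, rfl⟩
          rw [mem_Ico] at hk
          omega
      rw [e9, sum_image]
      · refine sum_congr rfl fun j _ => ?_
        congr 1
        push_cast
        ring
      · intro j _ k _ hjk
        have h8 : (j : ℤ) = (k : ℤ) := hjk
        exact_mod_cast h8
    rw [e1, Complex.ofReal_zero, sub_zero]
    have h1 := geom_bound (a : ℤ) (c : ℤ) ((p : ℝ) / q * d)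
    have h2 := m3_nn d q p hq hp hqd
    generalize ‖∑ n ∈ Ico (a : ℤ) (c : ℤ), ee ((n : ℝ) * ((p : ℝ) / q * d))‖ = M at h1 ⊢
    by_contra hcon
    have h3 : (q : ℝ) < M := not_le.1 hcon
    have h4 : (q : ℝ) * (2 * (1 / q)) ≤ M * (2 * nn ((p : ℝ) / q * d)) := by
      refine mul_le_mul h3.le (by linarith) (by positivity) (by linarith)
    have h5 : (q : ℝ) * (2 * (1 / q)) = 2 := by
      field_simp
    linarith

/-- Exchange the sums over `m` and `d`, `m3` for each `d`, `m1` for the coefficients, `m2` for the main term. -/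
theorem m4 (x H Q q : ℕ) (p : ℤ) (hQ : 1 ≤ Q) (hq : 1 ≤ q) (hp : IsCoprime p (q : ℤ)) :
    ‖∑ m ∈ Ico x (x + H), (gQ Q m : ℂ) * ee ((p : ℝ) / q * m) - (((if q ≤ Q then (H : ℝ) / q else 0) : ℝ) : ℂ)‖ ≤
      Q * (1 + Real.log Q) * q := by
  have e1 : ∑ m ∈ Ico x (x + H), (gQ Q m : ℂ) * ee ((p : ℝ) / q * m) =
      ∑ d ∈ Icc 1 Q, (lam Q d : ℂ) * ∑ m ∈ (Ico x (x + H)).filter (fun m => d ∣ m), ee ((p : ℝ) / q * m) := by
    have e2 : ∀ m ∈ Ico x (x + H), (gQ Q m : ℂ) * ee ((p : ℝ) / q * m) =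
        ∑ d ∈ Icc 1 Q, (if d ∣ m then (lam Q d : ℂ) * ee ((p : ℝ) / q * m) else 0) := by
      intro m _
      unfold gQ
      rw [← sum_filter, ← sum_mul, Complex.ofReal_sum]
    rw [sum_congr rfl e2, sum_comm]
    refine sum_congr rfl fun d _ => ?_
    rw [mul_sum, sum_filter]
  have e3 : (((if q ≤ Q then (H : ℝ) / q else 0) : ℝ) : ℂ) =
      ∑ d ∈ Icc 1 Q, (lam Q d : ℂ) * (((if q ∣ d then (H : ℝ) / d else 0) : ℝ) : ℂ) := by
    have e4 : (if q ≤ Q then (H : ℝ) / q else 0) = ∑ d ∈ Icc 1 Q, lam Q d * (if q ∣ d then (H : ℝ) / d else 0) := by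
      have e5 := m2 Q q hq
      have e6 : ∑ d ∈ Icc 1 Q, lam Q d * (if q ∣ d then (H : ℝ) / d else 0) =
          H * ∑ d ∈ (Icc 1 Q).filter (fun d => q ∣ d), lam Q d / d := by
        rw [mul_sum, sum_filter]
        refine sum_congr rfl fun d _ => ?_
        split_ifs
        · ring
        · ring
      rw [e6, e5]
      split_ifs
      · ring
      · ring
    rw [e4, Complex.ofReal_sum]
    refine sum_congr rfl fun d _ => ?_
    rw [Complex.ofReal_mul]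
  rw [e1, e3, ← sum_sub_distrib]
  have h1 : ∀ d ∈ Icc 1 Q, ‖(lam Q d : ℂ) * ∑ m ∈ (Ico x (x + H)).filter (fun m => d ∣ m), ee ((p : ℝ) / q * m) -
      (lam Q d : ℂ) * (((if q ∣ d then (H : ℝ) / d else 0) : ℝ) : ℂ)‖ ≤ (1 + Real.log Q) * q := by
    intro d hd
    rw [← mul_sub, norm_mul, Complex.norm_real, Real.norm_eq_abs]
    exact mul_le_mul (m1 Q d hQ) (m3 x H d q p (mem_Icc.1 hd).1 hq hp) (norm_nonneg _)
      (add_nonneg zero_le_one (Real.log_nonneg (by exact_mod_cast hQ)))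
  refine (norm_sum_le _ _).trans ((sum_le_sum h1).trans (le_of_eq ?_))
  rw [sum_const, nsmul_eq_mul, Nat.card_Icc, Nat.add_sub_cancel]
  ring

end Pool.Agent.Lib.H21T
end

-- from Lib.H21T.M7
section

/-!
# Chunk M7 (S/M): the model away from rationals
-/

namespace Pool.Agent.Lib.H21T

open Finset Pool.Agent.SZW

/-- the sum over the multiples of `d` in an interval -/
theorem m7_mult (x H d : ℕ) (α : ℝ) (hd : 1 ≤ d) :
    ∃ a c : ℤ, ∑ m ∈ (Ico x (x + H)).filter (fun m => d ∣ m), ee (α * m) = ∑ n ∈ Finset.Ico a c, ee (n * (d * α)) := by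
  refine ⟨((x + d - 1) / d : ℕ), ((x + H + d - 1) / d : ℕ), ?_⟩
  symm
  refine Finset.sum_bij (fun (n : ℤ) _ => (d * n).toNat) ?_ ?_ ?_ ?_
  · intro n hn
    rw [Finset.mem_Ico] at hn
    obtain ⟨k, hk⟩ := Int.eq_ofNat_of_zero_le (le_trans (Nat.cast_nonneg _) hn.1)
    subst hk
    have h1 : (x + d - 1) / d ≤ k := by exact_mod_cast hn.1
    have h2 : k < (x + H + d - 1) / d := by exact_mod_cast hn.2
    have h3 : ((d : ℤ) * (k : ℤ)).toNat = d * k := by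
      rw [← Nat.cast_mul]
      exact Int.toNat_natCast _
    show ((d : ℤ) * (k : ℤ)).toNat ∈ _
    rw [h3, mem_filter, mem_Ico]
    refine ⟨⟨?_, ?_⟩, Dvd.intro k rfl⟩
    · have h4 : x + d - 1 < d * (k + 1) := by
        have h5 : (x + d - 1) / d < k + 1 := by omega
        rw [mul_comm]
        exact (Nat.div_lt_iff_lt_mul (by omega)).1 h5
      rw [mul_add, mul_one] at h4
      omega
    · have h4 : (k + 1) * d ≤ x + H + d - 1 := (Nat.le_div_iff_mul_le (by omega)).1 h2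
      rw [add_mul, one_mul, mul_comm] at h4
      omega
  · intro n hn n' hn' h
    rw [Finset.mem_Ico] at hn hn'
    have h0 : 0 ≤ n := le_trans (Nat.cast_nonneg _) hn.1
    have h0' : 0 ≤ n' := le_trans (Nat.cast_nonneg _) hn'.1
    have hd0 : (0 : ℤ) < d := by exact_mod_cast hd
    have h1 : (d : ℤ) * n = d * n' := by
      have h2 : (((d * n).toNat : ℕ) : ℤ) = (((d * n').toNat : ℕ) : ℤ) := congrArg (fun z : ℕ => (z : ℤ)) h
      rwa [Int.toNat_of_nonneg (by positivity), Int.toNat_of_nonneg (by positivity)] at h2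
    exact mul_left_cancel₀ hd0.ne' h1
  · intro m hm
    rw [mem_filter, mem_Ico] at hm
    obtain ⟨⟨h1, h2⟩, k, rfl⟩ := hm
    refine ⟨(k : ℤ), ?_, ?_⟩
    · rw [Finset.mem_Ico]
      constructor
      · have h3 : (x + d - 1) / d < k + 1 := by
          rw [Nat.div_lt_iff_lt_mul (by omega)]
          rw [add_mul, one_mul, mul_comm]
          omega
        exact_mod_cast Nat.lt_succ_iff.1 h3
      · have h3 : k + 1 ≤ (x + H + d - 1) / d := by
          rw [Nat.le_div_iff_mul_le (by omega), add_mul, one_mul, mul_comm]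
          omega
        exact_mod_cast h3
    · rw [← Nat.cast_mul]
      exact Int.toNat_natCast _
  · intro n hn
    rw [Finset.mem_Ico] at hn
    have h0 : 0 ≤ n := le_trans (Nat.cast_nonneg _) hn.1
    have h1 : (((d * n).toNat : ℕ) : ℝ) = (d : ℝ) * n := by
      have h2 : (((d * n).toNat : ℕ) : ℤ) = d * n := Int.toNat_of_nonneg (by positivity)
      exact_mod_cast congrArg (fun z : ℤ => (z : ℝ)) h2
    rw [h1]
    congr 1
    ring

/-- `m = d j` with `j` in an interval of integers; `geom_bound` for `d α`; `m1`. -/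
theorem m7 (x H Q : ℕ) (α c : ℝ) (hQ : 1 ≤ Q) (hc : 0 < c) (hα : ∀ d : ℕ, 1 ≤ d → d ≤ Q → c ≤ nn (d * α)) :
    ‖∑ m ∈ Ico x (x + H), (gQ Q m : ℂ) * ee (α * m)‖ ≤ Q * (1 + Real.log Q) / (2 * c) := by
  have h1 : ∑ m ∈ Ico x (x + H), (gQ Q m : ℂ) * ee (α * m) =
      ∑ d ∈ Icc 1 Q, (lam Q d : ℂ) * ∑ m ∈ (Ico x (x + H)).filter (fun m => d ∣ m), ee (α * m) := by
    simp only [gQ, Finset.sum_filter, Complex.ofReal_sum, Finset.sum_mul, Finset.mul_sum]
    rw [Finset.sum_comm]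
    refine Finset.sum_congr rfl fun d _ => Finset.sum_congr rfl fun m _ => ?_
    by_cases h : d ∣ m
    · rw [if_pos h, if_pos h]
    · rw [if_neg h, if_neg h, Complex.ofReal_zero, zero_mul, mul_zero]
  rw [h1]
  have hlog : 0 ≤ 1 + Real.log Q := by
    have : 0 ≤ Real.log Q := Real.log_natCast_nonneg Q
    linarith
  have h2 : ∀ d ∈ Icc 1 Q, ‖(lam Q d : ℂ) * ∑ m ∈ (Ico x (x + H)).filter (fun m => d ∣ m), ee (α * m)‖ ≤
      (1 + Real.log Q) * (1 / (2 * c)) := by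
    intro d hd
    rw [mem_Icc] at hd
    rw [norm_mul]
    refine mul_le_mul ?_ ?_ (norm_nonneg _) hlog
    · rw [Complex.norm_real, Real.norm_eq_abs]
      exact m1 Q d hQ
    · obtain ⟨a, b, hab⟩ := m7_mult x H d α hd.1
      rw [hab]
      have h3 := geom_bound a b (d * α)
      have h4 := hα d hd.1 hd.2
      rw [le_div_iff₀ (by positivity)]
      refine le_trans ?_ h3
      exact mul_le_mul_of_nonneg_left (by linarith) (norm_nonneg _)
  refine (norm_sum_le _ _).trans ((Finset.sum_le_sum h2).trans ?_)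
  rw [Finset.sum_const, Nat.card_Icc, nsmul_eq_mul]
  apply le_of_eq
  push_cast [Nat.add_sub_cancel]
  ring

end Pool.Agent.Lib.H21T
end

-- from Lib.H21T.M6
section

/-!
# Chunk M6 (S): freezing
-/

namespace Pool.Agent.Lib.H21T

open Finset Pool.Agent.SZW

theorem m6_ee (s t : ℝ) : ‖ee s - ee t‖ ≤ 2 * Real.pi * |s - t| := by
  have h1 : ee s - ee t = ee t * (ee (s - t) - 1) := by
    rw [mul_sub, ← ee_add, mul_one]
    congr 2
    ring
  rw [h1, norm_mul, norm_ee, one_mul]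
  have h2 : ee (s - t) = Complex.exp (Complex.I * ((2 * Real.pi * (s - t) : ℝ) : ℂ)) := by
    unfold ee
    congr 1
    push_cast
    ring
  rw [h2]
  refine Real.norm_exp_I_mul_ofReal_sub_one_le.trans (le_of_eq ?_)
  rw [Real.norm_eq_abs, abs_mul, abs_of_pos (by positivity : (0 : ℝ) < 2 * Real.pi)]

theorem m6_freeze (x H : ℕ) (θ : ℝ) (m : ℕ) (h1 : x ≤ m) (h2 : m < x + H) :
    ‖ee (θ * m) - ee (θ * x)‖ ≤ 2 * Real.pi * |θ| * H := by
  refine (m6_ee _ _).trans ?_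
  have e1 : θ * (m : ℝ) - θ * x = θ * ((m : ℝ) - x) := by ring
  rw [e1, abs_mul]
  have h3 : |(m : ℝ) - x| ≤ H := by
    have h4 : (x : ℝ) ≤ m := by exact_mod_cast h1
    have h5 : (m : ℝ) < x + H := by exact_mod_cast h2
    rw [abs_le]
    constructor <;> linarith [Nat.cast_nonneg (α := ℝ) H]
  have h4 : |θ| * |(m : ℝ) - x| ≤ |θ| * H := mul_le_mul_of_nonneg_left h3 (abs_nonneg _)
  calc 2 * Real.pi * (|θ| * |(m : ℝ) - x|) ≤ 2 * Real.pi * (|θ| * H) :=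
        mul_le_mul_of_nonneg_left h4 (by positivity)
    _ = 2 * Real.pi * |θ| * H := by ring

/-- `‖ee (θ m) - ee (θ x)‖ ≤ 2 π |θ| H` for `x ≤ m < x + H`; `ee ((β + θ) m) = ee (β m) ee (θ m)`; `|l m - L| ≤ ε`, `|g m| ≤ B`, `|L| ≤ 1`. -/
theorem m6 (x H : ℕ) (β θ L ε B : ℝ) (l g : ℕ → ℝ) (hL : |L| ≤ 1) (hε : 0 ≤ ε) (hB : 0 ≤ B)
    (hl : ∀ m, x ≤ m → m < x + H → |l m - L| ≤ ε) (hg : ∀ m, x ≤ m → m < x + H → |g m| ≤ B) :
    ‖∑ m ∈ Ico x (x + H), ((l m * g m : ℝ) : ℂ) * ee ((β + θ) * m) -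
      (L : ℂ) * ee (θ * x) * ∑ m ∈ Ico x (x + H), (g m : ℂ) * ee (β * m)‖ ≤ H * B * (ε + 2 * Real.pi * |θ| * H) := by
  rw [mul_sum, ← sum_sub_distrib]
  have h1 : ∀ m ∈ Ico x (x + H), ‖((l m * g m : ℝ) : ℂ) * ee ((β + θ) * m) -
      (L : ℂ) * ee (θ * x) * ((g m : ℂ) * ee (β * m))‖ ≤ B * (ε + 2 * Real.pi * |θ| * H) := by
    intro m hm
    rw [mem_Ico] at hm
    have e1 : ((l m * g m : ℝ) : ℂ) * ee ((β + θ) * m) - (L : ℂ) * ee (θ * x) * ((g m : ℂ) * ee (β * m)) =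
        (g m : ℂ) * ee (β * m) * (((l m - L : ℝ) : ℂ) * ee (θ * m) + (L : ℂ) * (ee (θ * m) - ee (θ * x))) := by
      have e2 : ee ((β + θ) * m) = ee (β * m) * ee (θ * m) := by
        rw [← ee_add]
        congr 1
        ring
      rw [e2]
      push_cast
      ring
    rw [e1, norm_mul, norm_mul, norm_ee, mul_one, Complex.norm_real, Real.norm_eq_abs]
    have h2 : ‖((l m - L : ℝ) : ℂ) * ee (θ * m) + (L : ℂ) * (ee (θ * m) - ee (θ * x))‖ ≤
        ε + 2 * Real.pi * |θ| * H := by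
      refine (norm_add_le _ _).trans (add_le_add ?_ ?_)
      · rw [norm_mul, norm_ee, mul_one, Complex.norm_real, Real.norm_eq_abs]
        exact hl m hm.1 hm.2
      · rw [norm_mul, Complex.norm_real, Real.norm_eq_abs]
        calc |L| * ‖ee (θ * m) - ee (θ * x)‖ ≤ 1 * (2 * Real.pi * |θ| * H) :=
              mul_le_mul hL (m6_freeze x H θ m hm.1 hm.2) (norm_nonneg _) zero_le_one
          _ = 2 * Real.pi * |θ| * H := one_mul _
    exact mul_le_mul (hg m hm.1 hm.2) h2 (norm_nonneg _) hB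
  refine (norm_sum_le _ _).trans ((sum_le_sum h1).trans (le_of_eq ?_))
  rw [sum_const, nsmul_eq_mul, Nat.card_Ico, Nat.add_sub_cancel_left]
  ring

/-- The same for the pairs: `‖ee (θ a b) - ee (θ x)‖ ≤ 2 π |θ| H`. -/
theorem m6_SR (A1 A2 x H : ℕ) (hA : 1 ≤ A1) (β θ : ℝ) :
    ‖SR (β + θ) A1 A2 x H - ee (θ * x) * SR β A1 A2 x H‖ ≤ (Rg A1 A2 x H).card * (2 * Real.pi * |θ| * H) := by
  unfold SR
  rw [mul_sum, ← sum_sub_distrib]
  have h1 : ∀ p ∈ Rg A1 A2 x H, ‖ee ((β + θ) * ((p.1 : ℝ) * p.2)) - ee (θ * x) * ee (β * ((p.1 : ℝ) * p.2))‖ ≤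
      2 * Real.pi * |θ| * H := by
    intro p hp
    obtain ⟨_, _, h3, h4⟩ := (mem_Rg hA).1 hp
    have e1 : ee ((β + θ) * ((p.1 : ℝ) * p.2)) - ee (θ * x) * ee (β * ((p.1 : ℝ) * p.2)) =
        ee (β * ((p.1 : ℝ) * p.2)) * (ee (θ * ((p.1 * p.2 : ℕ) : ℝ)) - ee (θ * x)) := by
      have e2 : ee ((β + θ) * ((p.1 : ℝ) * p.2)) = ee (β * ((p.1 : ℝ) * p.2)) * ee (θ * ((p.1 * p.2 : ℕ) : ℝ)) := by
        rw [← ee_add]
        congr 1
        push_cast
        ring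
      rw [e2]
      ring
    rw [e1, norm_mul, norm_ee, one_mul]
    exact m6_freeze x H θ _ h3 h4
  refine (norm_sum_le _ _).trans ((sum_le_sum h1).trans (le_of_eq ?_))
  rw [sum_const, nsmul_eq_mul]

end Pool.Agent.Lib.H21T
end

-- from Lib.H21T.Z0
section

/-!
# Chunk Z0 (S): symmetry and vanishing outside
-/

namespace Pool.Agent.Lib.H21T

open Finset Pool.Agent.SZW

theorem dbox_symm (A1 A2 B1 B2 m : ℕ) : dbox A1 A2 B1 B2 m = dbox B1 B2 A1 A2 m := by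
  unfold dbox
  refine Finset.card_bij (fun p _ => p.swap) ?_ ?_ ?_
  · intro p hp
    rw [mem_filter, mem_product] at hp ⊢
    refine ⟨⟨hp.1.2, hp.1.1⟩, ?_⟩
    rw [← hp.2]
    exact Nat.mul_comm _ _
  · intro p _ q _ h
    exact Prod.swap_injective h
  · intro p hp
    refine ⟨p.swap, ?_, Prod.swap_swap p⟩
    rw [mem_filter, mem_product] at hp ⊢
    refine ⟨⟨hp.1.2, hp.1.1⟩, ?_⟩
    rw [← hp.2]
    exact Nat.mul_comm _ _

theorem z0_aux (a a' b b' t : ℝ) : min a (t - b) - max a' (t - b') = min b' (t - a') - max b (t - a) := by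
  rw [min_def, max_def, min_def, max_def]
  split_ifs <;> linarith

theorem z0_pos {A B m : ℕ} (hA : 1 ≤ A) (hB : 1 ≤ B) (h : m < A * B) : Real.log m ≤ Real.log A + Real.log B := by
  have hA0 : (A : ℝ) ≠ 0 := by
    have : (1 : ℝ) ≤ A := by exact_mod_cast hA
    positivity
  have hB0 : (B : ℝ) ≠ 0 := by
    have : (1 : ℝ) ≤ B := by exact_mod_cast hB
    positivity
  rw [← Real.log_mul hA0 hB0]
  rcases Nat.eq_zero_or_pos m with hm | hm
  · rw [hm, Nat.cast_zero, Real.log_zero]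
    refine Real.log_nonneg ?_
    have : 1 ≤ A * B := Nat.mul_pos hA hB
    exact_mod_cast this
  · refine Real.log_le_log (by exact_mod_cast hm) ?_
    exact_mod_cast h.le

/-- `min (log A2) (t - log B1) = t - max (t - log A2) (log B1)`, and so on (`t = log m`). -/
theorem lbox_symm (A1 A2 B1 B2 m : ℕ) : lbox A1 A2 B1 B2 m = lbox B1 B2 A1 A2 m := by
  unfold lbox
  rw [z0_aux]

theorem Mbox_symm (Q A1 A2 B1 B2 m : ℕ) : Mbox Q A1 A2 B1 B2 m = Mbox Q B1 B2 A1 A2 m := by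
  unfold Mbox
  rw [lbox_symm]

/-- If `m < A1 B1` there are no pairs, and `min (..) - max (..) ≤ (log m - log B1) - log A1 ≤ 0` (also for `m = 0`, `log 0 = 0`). -/
theorem z0_low {A1 A2 B1 B2 m : ℕ} (hA : 1 ≤ A1) (hB : 1 ≤ B1) (h : m < A1 * B1) : dbox A1 A2 B1 B2 m = 0 ∧ lbox A1 A2 B1 B2 m = 0 := by
  constructor
  · unfold dbox
    rw [card_eq_zero, filter_eq_empty_iff]
    intro p hp hpm
    rw [mem_product, mem_Ico, mem_Ico] at hp
    have h1 : A1 * B1 ≤ p.1 * p.2 := Nat.mul_le_mul hp.1.1 hp.2.1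
    omega
  · unfold lbox
    refine max_eq_left ?_
    have h1 := z0_pos hA hB h
    have h2 := min_le_right (Real.log A2) (Real.log m - Real.log B1)
    have h3 := le_max_left (Real.log A1) (Real.log m - Real.log B2)
    linarith

/-- If `m ≥ A2 B2` there are no pairs, and `min (..) - max (..) ≤ log A2 - (log m - log B2) ≤ 0`. -/
theorem z0_high {A1 A2 B1 B2 m : ℕ} (hA : 1 ≤ A2) (hB : 1 ≤ B2) (h : A2 * B2 ≤ m) : dbox A1 A2 B1 B2 m = 0 ∧ lbox A1 A2 B1 B2 m = 0 := by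
  constructor
  · unfold dbox
    rw [card_eq_zero, filter_eq_empty_iff]
    intro p hp hpm
    rw [mem_product, mem_Ico, mem_Ico] at hp
    have h1 : p.1 * p.2 < A2 * B2 := Nat.mul_lt_mul'' hp.1.2 hp.2.2
    omega
  · unfold lbox
    refine max_eq_left ?_
    have hA0 : (0 : ℝ) < A2 := by exact_mod_cast hA
    have hB0 : (0 : ℝ) < B2 := by exact_mod_cast hB
    have h1 : Real.log A2 + Real.log B2 ≤ Real.log m := by
      rw [← Real.log_mul hA0.ne' hB0.ne']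
      refine Real.log_le_log (mul_pos hA0 hB0) ?_
      exact_mod_cast h
    have h2 := min_le_left (Real.log A2) (Real.log m - Real.log B1)
    have h3 := le_max_right (Real.log A1) (Real.log m - Real.log B2)
    linarith

end Pool.Agent.Lib.H21T
end

-- from Lib.H21T.Z2
section

/-!
# Chunk Z2 (S/M): the logarithmic length is almost constant
-/

namespace Pool.Agent.Lib.H21T

open Finset Pool.Agent.SZW

theorem z2_add {x h : ℝ} (hx : 0 < x) (hh : 0 ≤ h) : Real.log (x + h) ≤ Real.log x + h / x := by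
  have h1 : x + h = x * (1 + h / x) := by field_simp
  have h2 : 0 ≤ h / x := by positivity
  rw [h1, Real.log_mul hx.ne' (by positivity)]
  have h3 := Real.log_le_sub_one_of_pos (show 0 < 1 + h / x by positivity)
  linarith

theorem z2_log {x m B H : ℕ} (hB : 1 ≤ B) (hx : 1 ≤ x) (h1 : x ≤ m) (h2 : m < x + H) :
    |(Real.log m - Real.log B) - Real.log ((x / B + 1 : ℕ) : ℝ)| ≤ (B : ℝ) / x + H / x := by
  have hBr : (0 : ℝ) < B := by exact_mod_cast hB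
  have hxr : (0 : ℝ) < x := by exact_mod_cast hx
  have hf : (0 : ℝ) < ((x / B + 1 : ℕ) : ℝ) := by positivity
  have a1 : (x : ℝ) ≤ ((x / B + 1 : ℕ) : ℝ) * B := by
    have := (Nat.div_lt_iff_lt_mul hB).1 (Nat.lt_succ_self (x / B))
    exact_mod_cast this.le
  have a2 : ((x / B + 1 : ℕ) : ℝ) * B ≤ x + B := by
    have h3 : x / B * B ≤ x := Nat.div_mul_le_self x B
    have h4 : (x / B + 1) * B ≤ x + B := by
      rw [add_mul, one_mul]
      omega
    exact_mod_cast h4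
  have a3 : Real.log x ≤ Real.log ((x / B + 1 : ℕ) : ℝ) + Real.log B := by
    rw [← Real.log_mul hf.ne' hBr.ne']
    exact Real.log_le_log hxr a1
  have a4 : Real.log ((x / B + 1 : ℕ) : ℝ) + Real.log B ≤ Real.log x + B / x := by
    rw [← Real.log_mul hf.ne' hBr.ne']
    exact (Real.log_le_log (by positivity) a2).trans (z2_add hxr hBr.le)
  have a5 : Real.log x ≤ Real.log m := Real.log_le_log hxr (by exact_mod_cast h1)
  have a6 : Real.log m ≤ Real.log x + H / x := by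
    refine (Real.log_le_log (by exact_mod_cast (lt_of_lt_of_le hx h1)) ?_).trans (z2_add hxr (Nat.cast_nonneg H))
    exact_mod_cast h2.le
  have a7 : 0 ≤ (B : ℝ) / x := by positivity
  have a8 : 0 ≤ (H : ℝ) / x := by positivity
  rw [abs_le]
  constructor <;> linarith

/-- `log` is monotone, so `log (max A1 (x / B2 + 1)) = max (log A1) (log (⌊x / B2⌋ + 1))`, the same for `min`; `max 0`, `min`, `max` are 1-Lipschitz. For `y = x / B2 ≥ A1 / 4`:
`0 ≤ log (⌊y⌋ + 1) - log y ≤ 1 / y ≤ 4 / A1`; for `y = x / B1 ≥ A1 / 2`: `≤ 2 / A1`; `0 ≤ log m - log x ≤ H / x ≤ 6 / A1` (`x ≥ A1 B1 / 2`, `A1 ≤ B1`, `H ≤ 3 A1`). Total at most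
`(4 + 6 + 2 + 6) / A1`. -/
theorem z2 (A1 A2 B1 B2 x H m : ℕ) (hA : 8 ≤ A1) (hAB : A1 ≤ B1) (hA2 : A1 ≤ A2) (hB2 : B1 ≤ B2) (hB2' : B2 ≤ 2 * B1) (hx : A1 * B1 ≤ 2 * x)
    (hH : H ≤ 3 * A1) (h1 : x ≤ m) (h2 : m < x + H) :
    |lbox A1 A2 B1 B2 m - max 0 (Real.log (min A2 (x / B1 + 1) : ℕ) - Real.log (max A1 (x / B2 + 1) : ℕ))| ≤ 24 / A1 := by
  have hxpos : 1 ≤ x := by
    have h3 : 1 * 1 ≤ A1 * B1 := Nat.mul_le_mul (by omega) (by omega)
    omega
  have hxr : (0 : ℝ) < x := by exact_mod_cast hxpos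
  have hAr : (0 : ℝ) < A1 := by
    have : 0 < A1 := by omega
    exact_mod_cast this
  have hmax : Real.log ((max A1 (x / B2 + 1) : ℕ) : ℝ) = max (Real.log A1) (Real.log ((x / B2 + 1 : ℕ) : ℝ)) := by
    rcases le_total A1 (x / B2 + 1) with h | h
    · rw [max_eq_right h, max_eq_right]
      exact Real.log_le_log hAr (by exact_mod_cast h)
    · rw [max_eq_left h, max_eq_left]
      exact Real.log_le_log (by positivity) (by exact_mod_cast h)
  have hA2r : (0 : ℝ) < A2 := by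
    have : 0 < A2 := by omega
    exact_mod_cast this
  have hmin : Real.log ((min A2 (x / B1 + 1) : ℕ) : ℝ) = min (Real.log A2) (Real.log ((x / B1 + 1 : ℕ) : ℝ)) := by
    rcases le_total A2 (x / B1 + 1) with h | h
    · rw [min_eq_left h, min_eq_left]
      exact Real.log_le_log hA2r (by exact_mod_cast h)
    · rw [min_eq_right h, min_eq_right]
      exact Real.log_le_log (by positivity) (by exact_mod_cast h)
  rw [hmax, hmin]
  have e1 := z2_log (B := B1) (by omega) hxpos h1 h2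
  have e2 := z2_log (B := B2) (by omega) hxpos h1 h2
  have hxAB : (A1 : ℝ) * B1 ≤ 2 * x := by exact_mod_cast hx
  have hABr : (A1 : ℝ) ≤ B1 := by exact_mod_cast hAB
  have hB2r : (B2 : ℝ) ≤ 2 * B1 := by exact_mod_cast hB2'
  have hHr : (H : ℝ) ≤ 3 * A1 := by exact_mod_cast hH
  have f1 : (B1 : ℝ) / x ≤ 2 / A1 := by
    rw [div_le_div_iff₀ hxr hAr]
    linarith
  have f2 : (B2 : ℝ) / x ≤ 4 / A1 := by
    rw [div_le_div_iff₀ hxr hAr]
    nlinarith
  have f3 : (H : ℝ) / x ≤ 6 / A1 := by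
    rw [div_le_div_iff₀ hxr hAr]
    have h3 : (H : ℝ) * A1 ≤ 3 * A1 * B1 := mul_le_mul hHr hABr hAr.le (by positivity)
    linarith
  have g1 : |min (Real.log A2) (Real.log m - Real.log B1) - min (Real.log A2) (Real.log ((x / B1 + 1 : ℕ) : ℝ))| ≤
      |(Real.log m - Real.log B1) - Real.log ((x / B1 + 1 : ℕ) : ℝ)| := by
    have h3 := abs_min_sub_min_le_max (Real.log A2) (Real.log m - Real.log B1) (Real.log A2) (Real.log ((x / B1 + 1 : ℕ) : ℝ))
    rw [sub_self, abs_zero, max_eq_right (abs_nonneg _)] at h3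
    exact h3
  have g2 : |max (Real.log A1) (Real.log m - Real.log B2) - max (Real.log A1) (Real.log ((x / B2 + 1 : ℕ) : ℝ))| ≤
      |(Real.log m - Real.log B2) - Real.log ((x / B2 + 1 : ℕ) : ℝ)| := by
    have h3 := abs_max_sub_max_le_max (Real.log A1) (Real.log m - Real.log B2) (Real.log A1) (Real.log ((x / B2 + 1 : ℕ) : ℝ))
    refine h3.trans (max_le ?_ le_rfl)
    rw [sub_self, abs_zero]
    exact abs_nonneg _
  unfold lbox
  set a := min (Real.log A2) (Real.log m - Real.log B1) with ha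
  set a' := min (Real.log A2) (Real.log ((x / B1 + 1 : ℕ) : ℝ)) with ha'
  set b := max (Real.log A1) (Real.log m - Real.log B2) with hb
  set b' := max (Real.log A1) (Real.log ((x / B2 + 1 : ℕ) : ℝ)) with hb'
  have g3 : |max 0 (a - b) - max 0 (a' - b')| ≤ |(a - b) - (a' - b')| := by
    refine (abs_max_sub_max_le_max 0 (a - b) 0 (a' - b')).trans (max_le ?_ le_rfl)
    rw [sub_self, abs_zero]
    exact abs_nonneg _
  have g4 : |(a - b) - (a' - b')| ≤ |a - a'| + |b - b'| := by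
    have h3 : (a - b) - (a' - b') = (a - a') - (b - b') := by ring
    rw [h3]
    exact abs_sub _ _
  have f4 : (2 : ℝ) / A1 + 6 / A1 + (4 / A1 + 6 / A1) ≤ 24 / A1 := by
    rw [← add_div, ← add_div, ← add_div, div_le_div_iff_of_pos_right hAr]
    norm_num
  linarith

end Pool.Agent.Lib.H21T
end

-- from Lib.H21T.V1
section

/-!
# Chunk V1 (M): Vinogradov lemma in one variable, with a varying denominator
-/

namespace Pool.Agent.Lib.H21T

open Finset Pool.Agent.SZW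

/-- Pigeonhole: some `q ≤ Q1` serves at least `η T / Q1` elements `t` of `Bd`; let `G` be the set of these `t`. Apply
`Pool.Agent.SZW.recurrence` (with `κ = Unit`, `β = 0`) to `A = G`, `N = T + 1`, `ρ = η / (2 Q1)` (`ρ (T + 1) ≤ η T / Q1` as `T ≥ 1`), `ε = δ1` and
`α j = q α` (for `t ∈ G`: `nn (t * (q * α)) ≤ δ1` by commutativity). `8 / ρ ^ 2 = 32 Q1 ^ 2 / η ^ 2 ≤ T`, `32 δ1 ≤ ρ`. It gives `q'` with
`1 ≤ q' ≤ 2 / ρ = 4 Q1 / η` and `nn (q' * (q * α)) ≤ 16 δ1 / (ρ ^ 2 (T + 1)) ≤ 64 Q1 ^ 2 δ1 / (η ^ 2 T)`; take `r = q' q`. -/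
theorem v1 (Q1 T : ℕ) (η δ1 α : ℝ) (Bd : Finset ℕ) (hQ : 1 ≤ Q1) (hT : 1 ≤ T) (hη : 0 < η) (hη1 : η ≤ 1) (hδ : 0 ≤ δ1)
    (h8 : 32 * (Q1 : ℝ) ^ 2 / η ^ 2 ≤ T) (h32 : 64 * (Q1 : ℝ) * δ1 ≤ η) (hB : ∀ t ∈ Bd, 1 ≤ t ∧ t ≤ T)
    (hc : η * T ≤ Bd.card) (hq : ∀ t ∈ Bd, ∃ q : ℕ, 1 ≤ q ∧ q ≤ Q1 ∧ nn (q * (t * α)) ≤ δ1) :
    ∃ r : ℕ, 1 ≤ r ∧ (r : ℝ) ≤ 4 * (Q1 : ℝ) ^ 2 / η ∧ nn (r * α) ≤ 64 * (Q1 : ℝ) ^ 2 * δ1 / (η ^ 2 * T) := by
  classical
  have hQ0 : (0 : ℝ) < Q1 := by exact_mod_cast hQ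
  have hQ1 : (1 : ℝ) ≤ Q1 := by exact_mod_cast hQ
  have hT1 : (1 : ℝ) ≤ T := by exact_mod_cast hT
  choose! q hq1 hq2 hq3 using hq
  obtain ⟨y, hy, hyc⟩ := Finset.exists_le_card_fiber_of_nsmul_le_card_of_maps_to (M := ℝ)
    (s := Bd) (t := Icc 1 Q1) (f := q) (b := η * T / Q1)
    (fun t ht => mem_Icc.2 ⟨hq1 t ht, hq2 t ht⟩) (nonempty_Icc.2 hQ) (by
      rw [Nat.card_Icc, Nat.add_sub_cancel, nsmul_eq_mul, mul_div_cancel₀ _ hQ0.ne']
      exact hc)
  rw [mem_Icc] at hy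
  have hy0 : (1 : ℝ) ≤ y := by exact_mod_cast hy.1
  have hyQ : (y : ℝ) ≤ Q1 := by exact_mod_cast hy.2
  obtain ⟨ρ, hρ⟩ : ∃ ρ, ρ = η / (2 * Q1) := ⟨_, rfl⟩
  have hρ0 : 0 < ρ := by
    rw [hρ]
    positivity
  have hρQ : ρ * (2 * Q1) = η := by
    rw [hρ]
    field_simp
  have hρ1 : ρ ≤ 1 := by
    rw [hρ, div_le_one (by positivity)]
    linarith
  obtain ⟨q', h1, h2, h3⟩ := recurrence (κ := Unit) (A := Bd.filter fun t => q t = y) (N := T + 1)
    (ρ := ρ) (ε := δ1) (α := fun _ => y * α) (β := fun _ => 0) hρ0 hρ1 (by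
      have e : 8 / ρ ^ 2 = 32 * (Q1 : ℝ) ^ 2 / η ^ 2 := by
        rw [hρ]
        field_simp
        ring
      rw [e]
      push_cast
      linarith) hδ (by
      nlinarith) (fun n hn => by
      have := hB n (mem_filter.1 hn).1
      omega) (by
      refine le_trans ?_ hyc
      rw [le_div_iff₀ hQ0]
      push_cast
      have : ρ * (T + 1) * Q1 = η * (T + 1) / 2 := by
        rw [← hρQ]
        ring
      rw [this]
      nlinarith) (fun n hn _ => by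
      rw [mem_filter] at hn
      have := hq3 n hn.1
      rw [hn.2] at this
      have e : (n : ℝ) * (y * α) + 0 = y * (n * α) := by ring
      rw [e]
      exact this)
  have h4 := h3 ()
  refine ⟨q' * y, Nat.mul_pos h1 hy.1, ?_, ?_⟩
  · push_cast
    have e : 2 / ρ * Q1 = 4 * (Q1 : ℝ) ^ 2 / η := by
      rw [hρ]
      field_simp
      ring
    rw [← e]
    exact mul_le_mul h2 hyQ (by linarith) (by positivity)
  · push_cast
    rw [mul_assoc]
    refine h4.trans ?_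
    have e : 64 * (Q1 : ℝ) ^ 2 * δ1 / (η ^ 2 * T) = 16 * δ1 / (ρ ^ 2 * T) := by
      rw [hρ]
      field_simp
      ring
    rw [e]
    refine div_le_div_of_nonneg_left (by positivity) (by positivity) ?_
    push_cast
    exact mul_le_mul_of_nonneg_left (by linarith) (by positivity)

end Pool.Agent.Lib.H21T
end

-- from Lib.H21T.V2
section

/-!
# Chunk V2 (M): Vinogradov lemma in two variables
-/

namespace Pool.Agent.Lib.H21T

open Finset Pool.Agent.SZW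

/-- For `s ≤ S` let `Bd_s = {t : (s, t) ∈ Bd}` and `S' = {s : |Bd_s| ≥ (η / 2) T}`. As `η S T ≤ |Bd| = ∑_{s} |Bd_s| ≤ |S'| T + S (η / 2) T`,
`|S'| ≥ (η / 2) S`. For `s ∈ S'` apply `v1` to `Bd_s`, `η / 2`, `δ1` and `s α` in place of `α` (`q * ((s * t) * α) = q * (t * (s * α))`;
conditions: `32 Q1 ^ 2 / (η / 2) ^ 2 = 128 Q1 ^ 2 / η ^ 2 ≤ 2 ^ 13 Q1 ^ 4 / η ^ 4 ≤ T`; `64 Q1 δ1 ≤ η / 2` is `h7`): there is `r` with `1 ≤ r`,
`r ≤ 8 Q1 ^ 2 / η`, so `r ≤ Q2 := ⌊8 Q1 ^ 2 / η⌋₊`, and `nn (r * (s * α)) ≤ δ2 := 256 Q1 ^ 2 δ1 / (η ^ 2 T)`. Apply `v1` to `S'`, `Q2`, `S`, `η / 2`, `δ2`: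
`32 Q2 ^ 2 / (η / 2) ^ 2 ≤ 128 * 64 Q1 ^ 4 / η ^ 4 ≤ S`; `64 Q2 δ2 ≤ 2 ^ 17 Q1 ^ 4 δ1 / (η ^ 3 T) ≤ η / 2` by `h18`. The result is `r'` with
`r' ≤ 4 Q2 ^ 2 / (η / 2) ≤ 512 Q1 ^ 4 / η ^ 3` and `nn (r' * α) ≤ 64 Q2 ^ 2 δ2 / ((η / 2) ^ 2 S) ≤ 2 ^ 22 Q1 ^ 6 δ1 / (η ^ 6 S T)`. -/
theorem v2 (Q1 S T : ℕ) (η δ1 α : ℝ) (Bd : Finset (ℕ × ℕ)) (hQ : 1 ≤ Q1) (hS1 : 1 ≤ S) (hT1 : 1 ≤ T) (hη : 0 < η) (hη1 : η ≤ 1)
    (hδ : 0 ≤ δ1) (hS : 2 ^ 13 * (Q1 : ℝ) ^ 4 / η ^ 4 ≤ S) (hT : 2 ^ 13 * (Q1 : ℝ) ^ 4 / η ^ 4 ≤ T) (h7 : 128 * (Q1 : ℝ) * δ1 ≤ η)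
    (h18 : 2 ^ 18 * (Q1 : ℝ) ^ 4 * δ1 ≤ η ^ 4 * T) (hB : ∀ p ∈ Bd, 1 ≤ p.1 ∧ p.1 ≤ S ∧ 1 ≤ p.2 ∧ p.2 ≤ T)
    (hc : η * (S * T) ≤ Bd.card) (hq : ∀ p ∈ Bd, ∃ q : ℕ, 1 ≤ q ∧ q ≤ Q1 ∧ nn (q * (((p.1 : ℝ) * p.2) * α)) ≤ δ1) :
    ∃ r : ℕ, 1 ≤ r ∧ (r : ℝ) ≤ 512 * (Q1 : ℝ) ^ 4 / η ^ 3 ∧ nn (r * α) ≤ 2 ^ 22 * (Q1 : ℝ) ^ 6 * δ1 / (η ^ 6 * S * T) := by
  classical
  have hQ1 : (1 : ℝ) ≤ Q1 := by exact_mod_cast hQ
  have hSr : (1 : ℝ) ≤ S := by exact_mod_cast hS1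
  have hTr : (1 : ℝ) ≤ T := by exact_mod_cast hT1
  obtain ⟨F, hF⟩ : ∃ F : ℕ → Finset ℕ, F = fun s => (Bd.filter fun p => p.1 = s).image Prod.snd :=
    ⟨_, rfl⟩
  have hmemF : ∀ s t, t ∈ F s ↔ (s, t) ∈ Bd := by
    intro s t
    rw [hF]
    simp only [mem_image, mem_filter]
    constructor
    · rintro ⟨p, ⟨hp, rfl⟩, rfl⟩
      exact hp
    · intro h
      exact ⟨(s, t), ⟨h, rfl⟩, rfl⟩
  have hFc : ∀ s, (F s).card = (Bd.filter fun p => p.1 = s).card := by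
    intro s
    rw [hF]
    refine card_image_of_injOn ?_
    intro p hp p' hp' h
    rw [mem_coe, mem_filter] at hp hp'
    exact Prod.ext (hp.2.trans hp'.2.symm) h
  have hFT : ∀ s, ((F s).card : ℝ) ≤ T := by
    intro s
    have h1 : F s ⊆ Icc 1 T := by
      intro t ht
      have := hB _ ((hmemF s t).1 ht)
      exact mem_Icc.2 ⟨this.2.2.1, this.2.2.2⟩
    have h2 := card_le_card h1
    rw [Nat.card_Icc, Nat.add_sub_cancel] at h2
    exact_mod_cast h2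
  have hsum : (Bd.card : ℝ) = ∑ s ∈ Icc 1 S, ((F s).card : ℝ) := by
    have h1 := card_eq_sum_card_fiberwise (f := Prod.fst) (s := Bd) (t := Icc 1 S) fun p hp => by
      have := hB p hp
      exact mem_coe.2 (mem_Icc.2 ⟨this.1, this.2.1⟩)
    rw [h1]
    push_cast
    refine sum_congr rfl fun s _ => ?_
    rw [hFc]
  obtain ⟨S', hS'⟩ : ∃ S', S' = (Icc 1 S).filter fun s => η / 2 * T ≤ (F s).card := ⟨_, rfl⟩
  have hS'c : η / 2 * S ≤ S'.card := by
    have h1 : (Bd.card : ℝ) ≤ S'.card * T + S * (η / 2 * T) := by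
      rw [hsum, ← sum_filter_add_sum_filter_not (Icc 1 S) (fun s => η / 2 * T ≤ (F s).card),
        ← hS']
      refine add_le_add ?_ ?_
      · rw [← nsmul_eq_mul]
        exact sum_le_card_nsmul _ _ _ fun s _ => hFT s
      · have h2 : ∑ s ∈ (Icc 1 S).filter (fun s => ¬ η / 2 * T ≤ (F s).card), ((F s).card : ℝ) ≤
            ((Icc 1 S).filter (fun s => ¬ η / 2 * T ≤ (F s).card)).card • (η / 2 * T) :=
          sum_le_card_nsmul _ _ _ fun s hs => (not_le.1 (mem_filter.1 hs).2).le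
        refine h2.trans ?_
        rw [nsmul_eq_mul]
        refine mul_le_mul_of_nonneg_right ?_ (by positivity)
        have h3 := card_filter_le (Icc 1 S) (fun s => ¬ η / 2 * T ≤ (F s).card)
        rw [Nat.card_Icc, Nat.add_sub_cancel] at h3
        exact_mod_cast h3
    have h2 : η / 2 * S * T ≤ S'.card * T := by nlinarith
    exact le_of_mul_le_mul_right h2 (by linarith)
  obtain ⟨Q2, hQ2⟩ : ∃ Q2 : ℕ, Q2 = ⌊8 * (Q1 : ℝ) ^ 2 / η⌋₊ := ⟨_, rfl⟩
  have hQ2r : (Q2 : ℝ) ≤ 8 * (Q1 : ℝ) ^ 2 / η := by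
    rw [hQ2]
    exact Nat.floor_le (by positivity)
  have h8 : (1 : ℝ) ≤ 8 * (Q1 : ℝ) ^ 2 / η := by
    rw [le_div_iff₀ hη]
    nlinarith
  have hQ21 : 1 ≤ Q2 := by
    rw [hQ2]
    exact Nat.le_floor (by exact_mod_cast h8)
  have hQ2r1 : (1 : ℝ) ≤ Q2 := by exact_mod_cast hQ21
  obtain ⟨δ2, hδ2⟩ : ∃ δ2, δ2 = 256 * (Q1 : ℝ) ^ 2 * δ1 / (η ^ 2 * T) := ⟨_, rfl⟩
  have hδ20 : 0 ≤ δ2 := by
    rw [hδ2]
    positivity
  have hQ4 : (Q1 : ℝ) ^ 2 ≤ (Q1 : ℝ) ^ 4 := pow_le_pow_right₀ hQ1 (by norm_num)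
  have hη4 : η ^ 4 ≤ η ^ 2 := pow_le_pow_of_le_one hη.le hη1 (by norm_num)
  have step : ∀ s ∈ S', ∃ r : ℕ, 1 ≤ r ∧ r ≤ Q2 ∧ nn (r * (s * α)) ≤ δ2 := by
    intro s hs
    rw [hS', mem_filter] at hs
    obtain ⟨r, h1, h2, h3⟩ := v1 Q1 T (η / 2) δ1 (s * α) (F s) hQ hT1 (by positivity) (by linarith) hδ
      (by
        refine le_trans ?_ hT
        have e : 32 * (Q1 : ℝ) ^ 2 / (η / 2) ^ 2 = 128 * (Q1 : ℝ) ^ 2 / η ^ 2 := by
          field_simp
          ring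
        rw [e, div_le_div_iff₀ (by positivity) (by positivity)]
        have h4 : 128 * (Q1 : ℝ) ^ 2 ≤ 2 ^ 13 * (Q1 : ℝ) ^ 4 := by nlinarith
        exact mul_le_mul h4 hη4 (by positivity) (by positivity))
      (by linarith)
      (fun t ht => by
        have := hB _ ((hmemF s t).1 ht)
        exact ⟨this.2.2.1, this.2.2.2⟩)
      hs.2
      (fun t ht => by
        obtain ⟨q, h5, h6, h7⟩ := hq _ ((hmemF s t).1 ht)
        refine ⟨q, h5, h6, ?_⟩
        have e : (q : ℝ) * ((t : ℝ) * ((s : ℝ) * α)) = q * (((s : ℝ) * t) * α) := by ring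
        rw [e]
        exact h7)
    refine ⟨r, h1, ?_, h3.trans (le_of_eq ?_)⟩
    · rw [hQ2]
      refine Nat.le_floor (h2.trans (le_of_eq ?_))
      field_simp
      ring
    · rw [hδ2]
      field_simp
      ring
  have hQ2sq : (Q2 : ℝ) ^ 2 ≤ 64 * (Q1 : ℝ) ^ 4 / η ^ 2 := by
    have h1 := pow_le_pow_left₀ (by linarith) hQ2r 2
    have e : (8 * (Q1 : ℝ) ^ 2 / η) ^ 2 = 64 * (Q1 : ℝ) ^ 4 / η ^ 2 := by
      field_simp
      ring
    rwa [e] at h1
  obtain ⟨r, h1, h2, h3⟩ := v1 Q2 S (η / 2) δ2 α S' hQ21 hS1 (by positivity) (by linarith) hδ20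
    (by
      refine le_trans ?_ hS
      have e : 32 * (Q2 : ℝ) ^ 2 / (η / 2) ^ 2 = 128 / η ^ 2 * (Q2 : ℝ) ^ 2 := by
        field_simp
        ring
      rw [e]
      refine (mul_le_mul_of_nonneg_left hQ2sq (by positivity)).trans (le_of_eq ?_)
      field_simp
      ring)
    (by
      have h4 : 64 * (Q2 : ℝ) * δ2 ≤ 64 * (8 * (Q1 : ℝ) ^ 2 / η) * δ2 :=
        mul_le_mul_of_nonneg_right (mul_le_mul_of_nonneg_left hQ2r (by norm_num)) hδ20
      refine h4.trans ?_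
      have e : 64 * (8 * (Q1 : ℝ) ^ 2 / η) * δ2 = 2 ^ 17 * (Q1 : ℝ) ^ 4 * δ1 / (η ^ 3 * T) := by
        rw [hδ2]
        field_simp
        ring
      rw [e, div_le_div_iff₀ (by positivity) (by norm_num)]
      have e2 : η * (η ^ 3 * T) = η ^ 4 * T := by ring
      rw [e2]
      nlinarith)
    (fun s hs => by
      rw [hS', mem_filter, mem_Icc] at hs
      exact hs.1)
    (by linarith) step
  refine ⟨r, h1, h2.trans ?_, h3.trans ?_⟩
  · have e : 4 * (Q2 : ℝ) ^ 2 / (η / 2) = 8 / η * (Q2 : ℝ) ^ 2 := by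
      field_simp
      ring
    rw [e]
    refine (mul_le_mul_of_nonneg_left hQ2sq (by positivity)).trans (le_of_eq ?_)
    field_simp
    ring
  · have e : 64 * (Q2 : ℝ) ^ 2 * δ2 / ((η / 2) ^ 2 * S) = 256 * δ2 / (η ^ 2 * S) * (Q2 : ℝ) ^ 2 := by
      field_simp
      ring
    rw [e]
    refine (mul_le_mul_of_nonneg_left hQ2sq (by positivity)).trans (le_of_eq ?_)
    rw [hδ2]
    field_simp
    ring

end Pool.Agent.Lib.H21T
end

-- from Lib.H44W.U1
section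
/-!
CHUNK U1 (M). Replacement of g by a dual function (abstract kernel TF).
D(y) := sum_{x in [1,n]} f x * F(x+y) * W(x-y), so TF n F W f g = sum_{y in [1,n]} g y * D y. For y in [1,n]:
|D y| <= sum_{x in [1,n]} |F(x+y)| <= sum_{m in [1,2n]} |F m| <= ka n (x -> x + y injective into Icc 1 (2n)).
g' y := conj(D y)/(ka n) if y in [1,n], else 0: |g'| <= 1. TF n F W f g' = sum_y |D y|^2/(ka n) (real and nonnegative).
Cauchy-Schwarz: (de n^2)^2 <= |sum g D|^2 <= n * sum |D|^2 (|g| <= 1, card (Icc 1 n) = n). Hence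
|TF n F W f g'| >= de^2 n^4/(n * ka n) = (de^2/ka) n^2. By hypothesis hinv there is w, WL l w, with ph * n <= |sum g' w|.
conj w is again WL l (WL_conj: ep -> conj ep, th -> -th, ee_neg), and TF n F W f (conj w) = sum_y conj(w y) D y, whose norm is
|sum_y w y * conj(D y)| = ka n |sum_y g' y * w y| >= ka ph n^2.
-/
namespace Pool.Agent.H44W
open Finset

/-- The dual function. -/
noncomputable def u1D (n : ℕ) (F W f : ℤ → ℂ) (y : ℤ) : ℂ := ∑ x ∈ Icc (1:ℤ) n, f x * F (x + y) * W (x - y)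

theorem u1_TF (n : ℕ) (F W f g : ℤ → ℂ) : TF n F W f g = ∑ y ∈ Icc (1:ℤ) n, g y * u1D n F W f y := by
  rw [TF, Finset.sum_comm]
  refine Finset.sum_congr rfl fun y _ => ?_
  rw [u1D, Finset.mul_sum]
  exact Finset.sum_congr rfl fun x _ => by ring

theorem u1_bd (n : ℕ) (F W f : ℤ → ℂ) (hW : ∀ x, ‖W x‖ ≤ 1) (hf : ∀ x, ‖f x‖ ≤ 1) (K : ℝ)
    (hF : ∑ m ∈ Icc (1:ℤ) (2 * n), ‖F m‖ ≤ K) (y : ℤ) (hy : y ∈ Icc (1:ℤ) n) : ‖u1D n F W f y‖ ≤ K := by
  have hy' := Finset.mem_Icc.1 hy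
  calc ‖u1D n F W f y‖ ≤ ∑ x ∈ Icc (1:ℤ) n, ‖f x * F (x + y) * W (x - y)‖ := norm_sum_le _ _
    _ ≤ ∑ x ∈ Icc (1:ℤ) n, ‖F (x + y)‖ := by
        refine Finset.sum_le_sum fun x _ => ?_
        rw [norm_mul, norm_mul]
        calc ‖f x‖ * ‖F (x + y)‖ * ‖W (x - y)‖ ≤ 1 * ‖F (x + y)‖ * 1 := by
              gcongr
              · exact hf x
              · exact hW _
          _ = ‖F (x + y)‖ := by ring
    _ = ∑ m ∈ (Icc (1:ℤ) n).image (fun x => x + y), ‖F m‖ := by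
        rw [Finset.sum_image]
        intro a _ b _ h
        exact add_right_cancel h
    _ ≤ ∑ m ∈ Icc (1:ℤ) (2 * n), ‖F m‖ := by
        refine Finset.sum_le_sum_of_subset_of_nonneg ?_ fun _ _ _ => norm_nonneg _
        intro m hm
        obtain ⟨x, hx, rfl⟩ := Finset.mem_image.1 hm
        have hx' := Finset.mem_Icc.1 hx
        exact Finset.mem_Icc.2 ⟨by omega, by omega⟩
    _ ≤ K := hF

theorem u1_sq (z : ℂ) : (starRingEnd ℂ) z * z = ((‖z‖ ^ 2 : ℝ) : ℂ) := by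
  rw [mul_comm, Complex.mul_conj, Complex.normSq_eq_norm_sq]

theorem WL_conj (l : ℕ) (w : ℤ → ℂ) (h : WL l w) : WL l (fun y => (starRingEnd ℂ) (w y)) := by
  obtain ⟨r, ep, th, h1, h2⟩ := h
  refine ⟨r, fun k => (starRingEnd ℂ) (ep k), fun k => -th k, fun k => ?_, fun y => ?_⟩
  · rw [Complex.norm_conj]
    exact h1 k
  · show (starRingEnd ℂ) (w y) = (starRingEnd ℂ) (ep ((y - r) / l)) * ee (-th ((y - r) / l) * y)
    rw [h2 y, map_mul, ← ee_neg, neg_mul]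

theorem norm_WL (l : ℕ) (w : ℤ → ℂ) (h : WL l w) (y : ℤ) : ‖w y‖ ≤ 1 := by
  obtain ⟨r, ep, th, h1, h2⟩ := h
  rw [h2 y, norm_mul, norm_ee, mul_one]
  exact h1 _

theorem dual_step (n l : ℕ) (hn : 1 ≤ n) (F W f : ℤ → ℂ) (hW : ∀ x, ‖W x‖ ≤ 1)
    (hf : ∀ x, ‖f x‖ ≤ 1) (ka : ℝ) (hka : 0 < ka)
    (hF : ∑ m ∈ Icc (1:ℤ) (2 * n), ‖F m‖ ≤ ka * n) (de ph : ℝ) (hde : 0 ≤ de)
    (hinv : ∀ g : ℤ → ℂ, (∀ x, ‖g x‖ ≤ 1) → de ^ 2 / ka * (n:ℝ) ^ 2 ≤ ‖TF n F W f g‖ →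
      ∃ w : ℤ → ℂ, WL l w ∧ ph * n ≤ ‖∑ y ∈ Icc (1:ℤ) n, g y * w y‖)
    (g : ℤ → ℂ) (hg : ∀ x, ‖g x‖ ≤ 1) (hT : de * (n:ℝ) ^ 2 ≤ ‖TF n F W f g‖) :
    ∃ w : ℤ → ℂ, WL l w ∧ ka * ph * (n:ℝ) ^ 2 ≤ ‖TF n F W f w‖ := by
  have hn0 : (0:ℝ) < n := by exact_mod_cast hn
  have hK : 0 < ka * n := mul_pos hka hn0
  set D : ℤ → ℂ := u1D n F W f with hD
  have hDb : ∀ y ∈ Icc (1:ℤ) n, ‖D y‖ ≤ ka * n := fun y hy => u1_bd n F W f hW hf _ hF y hy
  set S : ℝ := ∑ y ∈ Icc (1:ℤ) n, ‖D y‖ ^ 2 with hS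
  have hS0 : 0 ≤ S := Finset.sum_nonneg fun _ _ => by positivity
  obtain ⟨g', hg'⟩ : ∃ g' : ℤ → ℂ, ∀ y, g' y = if y ∈ Icc (1:ℤ) n then (starRingEnd ℂ) (D y) / ((ka * n : ℝ) : ℂ) else 0 :=
    ⟨_, fun _ => rfl⟩
  have h1 : ∀ y, ‖g' y‖ ≤ 1 := by
    intro y
    rw [hg' y]
    split_ifs with hy
    · rw [norm_div, Complex.norm_conj, Complex.norm_real, Real.norm_of_nonneg hK.le, div_le_one hK]
      exact hDb y hy
    · rw [norm_zero]
      exact zero_le_one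
  have h2 : TF n F W f g' = ((S / (ka * n) : ℝ) : ℂ) := by
    rw [u1_TF, Complex.ofReal_div, hS, Complex.ofReal_sum, Finset.sum_div]
    refine Finset.sum_congr rfl fun y hy => ?_
    rw [hg' y, if_pos hy, ← hD, div_mul_eq_mul_div, u1_sq]
  have h3 : ‖TF n F W f g'‖ = S / (ka * n) := by
    rw [h2, Complex.norm_real, Real.norm_of_nonneg (div_nonneg hS0 hK.le)]
  have h4 : (de * (n:ℝ) ^ 2) ^ 2 ≤ n * S := by
    have h5 : ‖TF n F W f g‖ ≤ ∑ y ∈ Icc (1:ℤ) n, ‖D y‖ := by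
      rw [u1_TF]
      refine (norm_sum_le _ _).trans (Finset.sum_le_sum fun y _ => ?_)
      rw [norm_mul]
      exact mul_le_of_le_one_left (norm_nonneg _) (hg y)
    have h6 : (∑ y ∈ Icc (1:ℤ) n, ‖D y‖) ^ 2 ≤ ((Icc (1:ℤ) n).card : ℝ) * S := sq_sum_le_card_mul_sum_sq
    have h7 : ((Icc (1:ℤ) n).card : ℝ) = n := by
      rw [Int.card_Icc]
      simp
    rw [h7] at h6
    exact (pow_le_pow_left₀ (by positivity) (hT.trans h5) 2).trans h6
  have h8 : de ^ 2 / ka * (n:ℝ) ^ 2 ≤ ‖TF n F W f g'‖ := by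
    rw [h3, le_div_iff₀ hK]
    have h9 : de ^ 2 / ka * (n:ℝ) ^ 2 * (ka * n) = de ^ 2 * (n:ℝ) ^ 3 := by
      field_simp
    rw [h9]
    have h10 : (n:ℝ) * (de ^ 2 * (n:ℝ) ^ 3) ≤ n * S := by
      calc (n:ℝ) * (de ^ 2 * (n:ℝ) ^ 3) = (de * (n:ℝ) ^ 2) ^ 2 := by ring
        _ ≤ _ := h4
    exact le_of_mul_le_mul_left h10 hn0
  obtain ⟨w, hw, h11⟩ := hinv g' h1 h8
  refine ⟨fun y => (starRingEnd ℂ) (w y), WL_conj l w hw, ?_⟩
  have h12 : TF n F W f (fun y => (starRingEnd ℂ) (w y)) =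
      (starRingEnd ℂ) (((ka * n : ℝ) : ℂ) * ∑ y ∈ Icc (1:ℤ) n, g' y * w y) := by
    rw [u1_TF, map_mul, Complex.conj_ofReal, map_sum, Finset.mul_sum]
    refine Finset.sum_congr rfl fun y hy => ?_
    have h13 : ((ka * n : ℝ) : ℂ) ≠ 0 := Complex.ofReal_ne_zero.2 hK.ne'
    rw [hg' y, if_pos hy, map_mul, map_div₀, Complex.conj_conj, Complex.conj_ofReal, ← hD]
    field_simp
  rw [h12, Complex.norm_conj, norm_mul, Complex.norm_real, Real.norm_of_nonneg hK.le]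
  calc ka * ph * (n:ℝ) ^ 2 = (ka * n) * (ph * n) := by ring
    _ ≤ _ := mul_le_mul_of_nonneg_left h11 hK.le

end Pool.Agent.H44W
end

-- from Lib.H44W.U3
section
/-!
CHUNK U3 (M). One pair of windows.
Let v be fixed. Claim (one_pair_v): for windows J = Ico u1 (u1 + l), I = Ico u2 (u2 + l) (meaning x in J, y in I) and real al, be,
|sum over x in [1,n] cap J, with x - v in [1,n] cap I, of F(2x - v) * ee(al x + be (x - v))| <= l * tau.
Proof: x runs over an interval Ico c (c + r) with 0 <= r <= l (intersection of intervals), m = 2x - v runs over the m in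
Ico (2c - v) (2c + 2r - v) with m = v mod 2 and x + y = m in [2, 2n]. If the x-interval is empty the sum is 0. Otherwise cut the
m-interval to u = 2c - v >= 1 and v' = 2(c + r) - v - 1 <= 2n + 1 (the last m is 2(c+r-1) - v <= 2n): the sum over m in Ico u v' with
m = v mod 2 of F m * ee(al (m+v)/2 + be (m-v)/2) = ee((al-be) v/2) * sum of F m ee((al+be)/2 * m) [m = v mod 2], and the indicator
of m = v mod 2 is (1 + ee((m-v)/2))/2 (ee_half), so the sum is the mean of two sums of the type in hF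
(gamma = (al+be)/2 and gamma = (al+be)/2 + 1/2), each <= l tau, v' - u <= 2 l.
-/
namespace Pool.Agent.H44W
open Finset

theorem u3_term (v m : ℤ) (al be : ℝ) (z : ℂ) :
    (if Even (m - v) then z * ee (al * ((m + v) / 2) + be * ((m - v) / 2)) else 0)
      = (1 / 2) * ee ((al - be) * (v / 2)) * (z * ee ((al + be) / 2 * m))
        + (1 / 2) * (ee ((al - be) * (v / 2)) * ee (-((v:ℝ) / 2))) * (z * ee (((al + be) / 2 + 1 / 2) * m)) := by
  have e1 : ee (((al + be) / 2 + 1 / 2) * m) = ee ((al + be) / 2 * m) * ee ((m:ℝ) / 2) := by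
    rw [← ee_add]
    congr 1
    ring
  have e2 : ee (-((v:ℝ) / 2)) * ee ((m:ℝ) / 2) = if Even (m - v) then 1 else -1 := by
    rw [← ee_half, ← ee_add]
    congr 1
    push_cast
    ring
  have e3 : ee (al * ((m + v) / 2) + be * ((m - v) / 2)) = ee ((al - be) * (v / 2)) * ee ((al + be) / 2 * m) := by
    rw [← ee_add]
    congr 1
    ring
  have e4 : (1 / 2) * (ee ((al - be) * (v / 2)) * ee (-((v:ℝ) / 2))) * (z * (ee ((al + be) / 2 * m) * ee ((m:ℝ) / 2)))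
      = (1 / 2) * ee ((al - be) * (v / 2)) * (z * ee ((al + be) / 2 * m)) * (ee (-((v:ℝ) / 2)) * ee ((m:ℝ) / 2)) := by
    ring
  rw [e1, e4, e2, e3]
  split_ifs
  · ring
  · ring

theorem one_pair_v (n l : ℕ) (F : ℤ → ℂ) (tau : ℝ) (htau : 0 ≤ tau)
    (hF : ∀ u v : ℤ, 1 ≤ u → u ≤ v → v ≤ 2 * n + 1 → v - u ≤ 2 * l → ∀ ga : ℝ,
      ‖∑ m ∈ Ico u v, F m * ee (ga * m)‖ ≤ l * tau)
    (v u1 u2 : ℤ) (al be : ℝ) :
    ‖∑ x ∈ (Icc (1:ℤ) n).filter (fun x => x ∈ Ico u1 (u1 + l) ∧ x - v ∈ Icc (1:ℤ) n ∧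
        x - v ∈ Ico u2 (u2 + l)), F (2 * x - v) * ee (al * x + be * (x - v))‖ ≤ l * tau := by
  have hlt : 0 ≤ (l:ℝ) * tau := mul_nonneg (Nat.cast_nonneg _) htau
  obtain ⟨c, hc⟩ : ∃ c : ℤ, c = max (max 1 u1) (max (v + 1) (v + u2)) := ⟨_, rfl⟩
  obtain ⟨d, hd⟩ : ∃ d : ℤ, d = min (min ((n:ℤ) + 1) (u1 + l)) (min (v + n + 1) (v + u2 + l)) := ⟨_, rfl⟩
  have hcd : (Icc (1:ℤ) n).filter (fun x => x ∈ Ico u1 (u1 + l) ∧ x - v ∈ Icc (1:ℤ) n ∧
        x - v ∈ Ico u2 (u2 + l)) = Ico c d := by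
    ext x
    simp only [Finset.mem_filter, Finset.mem_Icc, Finset.mem_Ico]
    omega
  rw [hcd]
  rcases le_or_gt d c with hle | hgt
  · rw [Finset.Ico_eq_empty (by omega), Finset.sum_empty, norm_zero]
    exact hlt
  have e1 : ∑ x ∈ Ico c d, F (2 * x - v) * ee (al * x + be * (x - v))
      = ∑ m ∈ (Ico (2 * c - v) (2 * d - v - 1)).filter (fun m => Even (m - v)),
          F m * ee (al * ((m + v) / 2) + be * ((m - v) / 2)) := by
    refine Finset.sum_nbij' (fun x => 2 * x - v) (fun m => (m + v) / 2) ?_ ?_ ?_ ?_ ?_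
    · intro x hx
      have h3 := Finset.mem_Ico.1 hx
      refine Finset.mem_filter.2 ⟨Finset.mem_Ico.2 ⟨by omega, by omega⟩, ?_⟩
      exact ⟨x - v, by ring⟩
    · intro m hm
      obtain ⟨h3, k, hk⟩ := Finset.mem_filter.1 hm
      have h4 := Finset.mem_Ico.1 h3
      exact Finset.mem_Ico.2 ⟨by omega, by omega⟩
    · intro x _
      omega
    · intro m hm
      obtain ⟨h3, k, hk⟩ := Finset.mem_filter.1 hm
      omega
    · intro x _
      congr 2
      push_cast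
      ring
  rw [e1, Finset.sum_filter, Finset.sum_congr rfl fun m _ => u3_term v m al be (F m), Finset.sum_add_distrib,
    ← Finset.mul_sum, ← Finset.mul_sum]
  have h5 := hF (2 * c - v) (2 * d - v - 1) (by omega) (by omega) (by omega) (by omega)
  refine (norm_add_le _ _).trans ?_
  rw [norm_mul, norm_mul, norm_mul, norm_mul, norm_mul, norm_ee, norm_ee, norm_div, norm_one, Complex.norm_ofNat]
  have h6 := h5 ((al + be) / 2)
  have h7 := h5 ((al + be) / 2 + 1 / 2)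
  linarith

end Pool.Agent.H44W
end

-- from Lib.H44W.U4
section
/-!
CHUNK U4 (M). The form at two window-linear functions.
w1 y = ep1 (j) ee(th1 j * y), j = (y - r1)/l; w2 y = ep2 (k) ee(th2 k * y), k = (y - r2)/l (floor division by l >= 1).
The sum over x in [1,n], y in [1,n] is split according to j = (x - r1)/l, k = (y - r2)/l and v = x - y:
for given j, k: x in Ico (r1 + j l) (r1 + (j+1) l) and y in Ico (r2 + k l) (r2 + (k+1) l), so v = x - y takes at most 2 l values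
(v lies in Ico (c - l) (c + l), c = r1 + j l - r2 - k l), and for given j, k, v the sum over x is
ep1 j * ep2 k * W v * sum of F (2x - v) ee(th1 j x + th2 k (x - v)) over the set of one_pair_v: norm <= l tau (|W| <= 1, |ep| <= 1).
The number of j (windows meeting [1,n]) is at most n/l + 2 <= 3 n/l (l <= n), the same for k. Total <= (3n/l)^2 * 2l * l tau
= 18 n^2 tau.
Suggestion: image of Icc 1 n under x -> (x - r1)/l is contained in Icc ((1-r1)/l) ((n-r1)/l), whose cardinality is <= n/l + 2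
(Int.ediv facts); use Finset.sum_fiberwise_of_maps_to for (x,y) -> (j,k,v) on the product Icc x Icc, and card of a set of triples
contained in a sigma/product.
-/
namespace Pool.Agent.H44W
open Finset

theorem u4_div (l : ℕ) (hl : 1 ≤ l) (a j : ℤ) : a / (l:ℤ) = j ↔ j * l ≤ a ∧ a < j * l + l := by
  have hl' : (0:ℤ) < l := by exact_mod_cast hl
  constructor
  · rintro rfl
    constructor
    · exact Int.ediv_mul_le a hl'.ne'
    · have := Int.lt_ediv_add_one_mul_self a hl'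
      linarith
  · rintro ⟨h1, h2⟩
    apply le_antisymm
    · have : a / (l:ℤ) < j + 1 := Int.ediv_lt_of_lt_mul hl' (by linarith)
      omega
    · exact Int.le_ediv_of_mul_le hl' h1

theorem u4_card (n l : ℕ) (hl : 1 ≤ l) (hln : l ≤ n) (r : ℤ) :
    ((Icc ((1 - r) / (l:ℤ)) (((n:ℤ) - r) / l)).card : ℝ) ≤ 3 * n / l := by
  have hl' : (0:ℤ) < l := by exact_mod_cast hl
  have hlr : (0:ℝ) < l := by exact_mod_cast hl
  rw [le_div_iff₀ hlr, Int.card_Icc]
  obtain ⟨A, hAd⟩ : ∃ A, A = ((n:ℤ) - r) / l := ⟨_, rfl⟩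
  obtain ⟨B, hBd⟩ : ∃ B, B = (1 - r) / (l:ℤ) := ⟨_, rfl⟩
  rw [← hAd, ← hBd]
  have hA : A * l ≤ n - r := by
    rw [hAd]
    exact Int.ediv_mul_le _ hl'.ne'
  have hB : 1 - r < (B + 1) * l := by
    rw [hBd]
    exact Int.lt_ediv_add_one_mul_self _ hl'
  have hln' : (l:ℤ) ≤ n := by exact_mod_cast hln
  have key : ((A + 1 - B).toNat : ℤ) * l ≤ 3 * n := by
    rcases le_total 0 (A + 1 - B) with h | h
    · rw [Int.toNat_of_nonneg h]
      have e1 : (A + 1 - B) * (l:ℤ) = A * l + l - B * l := by ring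
      have e2 : (B + 1) * (l:ℤ) = B * l + l := by ring
      rw [e1]
      rw [e2] at hB
      linarith
    · rw [Int.toNat_of_nonpos h]
      simp
  exact_mod_cast key

theorem TF_WL (n l : ℕ) (hl : 1 ≤ l) (hln : l ≤ n) (F W : ℤ → ℂ) (hW : ∀ x, ‖W x‖ ≤ 1) (tau : ℝ)
    (htau : 0 ≤ tau)
    (hF : ∀ u v : ℤ, 1 ≤ u → u ≤ v → v ≤ 2 * n + 1 → v - u ≤ 2 * l → ∀ ga : ℝ,
      ‖∑ m ∈ Ico u v, F m * ee (ga * m)‖ ≤ l * tau)
    (w1 w2 : ℤ → ℂ) (h1 : WL l w1) (h2 : WL l w2) :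
    ‖TF n F W w1 w2‖ ≤ 18 * (n:ℝ) ^ 2 * tau := by
  classical
  obtain ⟨r1, ep1, th1, he1, hw1⟩ := h1
  obtain ⟨r2, ep2, th2, he2, hw2⟩ := h2
  have hl' : (0:ℤ) < l := by exact_mod_cast hl
  have hlr : (0:ℝ) < l := by exact_mod_cast hl
  let S : Finset (ℤ × ℤ) := Icc (1:ℤ) n ×ˢ Icc (1:ℤ) n
  let f : ℤ × ℤ → ℂ := fun p => w1 p.1 * w2 p.2 * F (p.1 + p.2) * W (p.1 - p.2)
  let cc : ℤ → ℤ → ℤ := fun j k => (r1 + j * l) - (r2 + k * l)
  let g : ℤ × ℤ → ℤ × ℤ × ℤ := fun p =>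
    ((p.1 - r1) / l, (p.2 - r2) / l, p.1 - p.2 - cc ((p.1 - r1) / l) ((p.2 - r2) / l))
  let J := Icc ((1 - r1) / (l:ℤ)) (((n:ℤ) - r1) / l)
  let K := Icc ((1 - r2) / (l:ℤ)) (((n:ℤ) - r2) / l)
  let T : Finset (ℤ × ℤ × ℤ) := J ×ˢ K ×ˢ Ico (-(l:ℤ)) l
  have hTF : TF n F W w1 w2 = ∑ p ∈ S, f p := by
    unfold TF
    simp only [S, f]
    rw [Finset.sum_product]
  have hmaps : ∀ p ∈ S, g p ∈ T := by
    intro p hp
    rw [Finset.mem_product, mem_Icc, mem_Icc] at hp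
    obtain ⟨⟨a1, a2⟩, b1, b2⟩ := hp
    have e1 := (u4_div l hl (p.1 - r1) _).1 rfl
    have e2 := (u4_div l hl (p.2 - r2) _).1 rfl
    simp only [T, g, J, K, Finset.mem_product, mem_Icc, mem_Ico]
    refine ⟨⟨Int.ediv_le_ediv hl' (by linarith), Int.ediv_le_ediv hl' (by linarith)⟩,
      ⟨Int.ediv_le_ediv hl' (by linarith), Int.ediv_le_ediv hl' (by linarith)⟩, ?_, ?_⟩
    · simp only [cc]
      linarith [e1.1, e1.2, e2.1, e2.2]
    · simp only [cc]
      linarith [e1.1, e1.2, e2.1, e2.2]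
  have hfib : ∀ τ ∈ T, ‖∑ p ∈ S with g p = τ, f p‖ ≤ l * tau := by
    rintro ⟨j, k, u⟩ _
    obtain ⟨v, hv⟩ : ∃ v, v = u + cc j k := ⟨_, rfl⟩
    have hsum : ∑ p ∈ S with g p = (j, k, u), f p = (ep1 j * ep2 k * W v) *
        ∑ x ∈ (Icc (1:ℤ) n).filter (fun x => x ∈ Ico (r1 + j * l) (r1 + j * l + l) ∧
          x - v ∈ Icc (1:ℤ) n ∧ x - v ∈ Ico (r2 + k * l) (r2 + k * l + l)),
          F (2 * x - v) * ee (th1 j * x + th2 k * (x - v)) := by
      rw [Finset.mul_sum]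
      have hkey : ∀ p : ℤ × ℤ, g p = (j, k, u) ↔ ((p.1 - r1) / l = j ∧ (p.2 - r2) / l = k ∧
          p.2 = p.1 - v) := by
        intro p
        simp only [g, Prod.mk.injEq]
        constructor
        · rintro ⟨c1, c2, c3⟩
          refine ⟨c1, c2, ?_⟩
          rw [c1, c2] at c3
          rw [hv]
          linarith
        · rintro ⟨c1, c2, c3⟩
          refine ⟨c1, c2, ?_⟩
          rw [c1, c2, c3, hv]
          ring
      refine Finset.sum_bij' (fun p _ => p.1) (fun x _ => (x, x - v)) ?_ ?_ ?_ ?_ ?_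
      · intro p hp
        rw [Finset.mem_filter, hkey] at hp
        obtain ⟨hpS, c1, c2, c3⟩ := hp
        rw [Finset.mem_product] at hpS
        have d1 := (u4_div l hl _ _).1 c1
        have d2 := (u4_div l hl _ _).1 c2
        rw [Finset.mem_filter, mem_Ico, mem_Ico, ← c3]
        refine ⟨hpS.1, ⟨by linarith [d1.1], by linarith [d1.2]⟩, hpS.2,
          by linarith [d2.1], by linarith [d2.2]⟩
      · intro x hx
        rw [Finset.mem_filter, mem_Ico, mem_Ico] at hx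
        obtain ⟨hx1, ⟨hx2, hx3⟩, hx4, hx5, hx6⟩ := hx
        rw [Finset.mem_filter, hkey]
        refine ⟨Finset.mem_product.2 ⟨hx1, hx4⟩, ?_, ?_, rfl⟩
        · exact (u4_div l hl _ _).2 ⟨by linarith, by linarith⟩
        · exact (u4_div l hl _ _).2 ⟨by linarith, by linarith⟩
      · intro p hp
        rw [Finset.mem_filter, hkey] at hp
        exact Prod.ext rfl hp.2.2.2.symm
      · intro x hx
        rfl
      · intro p hp
        rw [Finset.mem_filter, hkey] at hp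
        obtain ⟨hpS, c1, c2, c3⟩ := hp
        simp only [f]
        rw [hw1 p.1, hw2 p.2, c1, c2, ee_add]
        have g1 : p.1 + p.2 = 2 * p.1 - v := by
          rw [c3]
          ring
        have g2 : p.1 - p.2 = v := by
          rw [c3]
          ring
        have g3 : (p.2 : ℝ) = (p.1 : ℝ) - (v : ℝ) := by
          rw [c3]
          push_cast
          ring
        rw [g1, g2, g3]
        ring
    rw [hsum, norm_mul, norm_mul, norm_mul]
    have hone := one_pair_v n l F tau htau hF v (r1 + j * l) (r2 + k * l) (th1 j) (th2 k)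
    have hc : ‖ep1 j‖ * ‖ep2 k‖ * ‖W v‖ ≤ 1 :=
      mul_le_one₀ (mul_le_one₀ (he1 j) (norm_nonneg _) (he2 k)) (norm_nonneg _) (hW v)
    calc ‖ep1 j‖ * ‖ep2 k‖ * ‖W v‖ * _ ≤ 1 * (l * tau) := by
          exact mul_le_mul hc hone (norm_nonneg _) zero_le_one
      _ = l * tau := one_mul _
  rw [hTF, ← Finset.sum_fiberwise_of_maps_to hmaps f]
  refine (norm_sum_le _ _).trans ?_
  refine (Finset.sum_le_sum hfib).trans ?_
  rw [Finset.sum_const, nsmul_eq_mul]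
  have hJ : (J.card : ℝ) ≤ 3 * n / l := u4_card n l hl hln r1
  have hK : (K.card : ℝ) ≤ 3 * n / l := u4_card n l hl hln r2
  have hTc : (T.card : ℝ) = J.card * (K.card * (2 * l)) := by
    simp only [T]
    rw [Finset.card_product, Finset.card_product, Int.card_Ico]
    have : ((l:ℤ) - -(l:ℤ)).toNat = 2 * l := by omega
    rw [this]
    push_cast
    ring
  rw [hTc]
  calc (J.card : ℝ) * (K.card * (2 * l)) * (l * tau)
      ≤ (3 * n / l) * ((3 * n / l) * (2 * l)) * (l * tau) := by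
        gcongr
    _ = 18 * (n:ℝ) ^ 2 * tau := by
        field_simp
        ring

end Pool.Agent.H44W
end

-- from Lib.H44W.U2
section
/-!
CHUNK U2 (S). Algebra of TF.
TF_swap: exchange the sums, x + y = y + x, W' v = W (-v). TF_add / TF_sub / TF_smul / TF_sum: linearity in F.
-/
namespace Pool.Agent.H44W
open Finset

theorem TF_swap (n : ℕ) (F W f g : ℤ → ℂ) :
    TF n F W f g = TF n F (fun v => W (-v)) g f := by
  unfold TF
  rw [Finset.sum_comm]
  refine Finset.sum_congr rfl fun y _ => Finset.sum_congr rfl fun x _ => ?_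
  have h1 : x + y = y + x := add_comm x y
  have h2 : x - y = -(y - x) := by ring
  rw [h1, h2]
  ring

theorem TF_sum_sub {ι : Type*} (n : ℕ) (Q : Finset ι) (ga : ι → ℂ) (P M : ι → ℤ → ℂ)
    (W f g : ℤ → ℂ) :
    TF n (fun m => ∑ q ∈ Q, ga q * (P q m - M q m)) W f g =
      ∑ q ∈ Q, ga q * (TF n (P q) W f g - TF n (M q) W f g) := by
  unfold TF
  have h : ∀ q ∈ Q, ga q * ((∑ x ∈ Icc (1:ℤ) n, ∑ y ∈ Icc (1:ℤ) n, f x * g y * P q (x + y) * W (x - y)) -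
      ∑ x ∈ Icc (1:ℤ) n, ∑ y ∈ Icc (1:ℤ) n, f x * g y * M q (x + y) * W (x - y)) =
      ∑ x ∈ Icc (1:ℤ) n, ∑ y ∈ Icc (1:ℤ) n, ga q * (f x * g y * (P q (x + y) - M q (x + y)) * W (x - y)) := by
    intro q _
    rw [← Finset.sum_sub_distrib, Finset.mul_sum]
    refine Finset.sum_congr rfl fun x _ => ?_
    rw [← Finset.sum_sub_distrib, Finset.mul_sum]
    refine Finset.sum_congr rfl fun y _ => ?_
    ring
  rw [Finset.sum_congr rfl h]
  refine Eq.trans ?_ Finset.sum_comm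
  refine Finset.sum_congr rfl fun x _ => ?_
  refine Eq.trans ?_ Finset.sum_comm
  refine Finset.sum_congr rfl fun y _ => ?_
  rw [Finset.mul_sum, Finset.sum_mul]
  refine Finset.sum_congr rfl fun q _ => ?_
  ring

end Pool.Agent.H44W
end
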