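import Pool.Agent.Lib.H1M.RV2.M003

/-! Merged copies (to shorten the build) of Lib.H81A.BX. -/

-- from Lib.H81A.BX
section

/-!
# H81A, chunk BX (M): all boxes
-/

namespace Pool.Agent.Lib.H81A

open Finset ArithmeticFunction

/-- PROOF. `S₀ = univ.filter (k i < u)`. If `u ≤ ∑ S₀`: `greedy` gives `S` with `u ≤ ∑ S < 2 u ≤ v + 1`: `type2`. Otherwise `∑ S₀ < u`. If some `i ∉ S₀` has `k i ≤ v`: `type2` with `S = {i}`. Otherwise all `i ∉ S₀` have `k i ≥ v + 1` and `G i` is `one1` or `logf`. The complement `T` of `S₀`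
has at most two elements, or the product vanishes on `[1, N]`: `3 (v + 1) ≥ L`, so `∑ k ≥ L` and `supp`, `N < 2 ^ L` (then `p .. = 0 ≤ V ^ .. X`, `0 ≤ X` from `H1` with `γ = 0`, `B₁ = B₂ = 1`). `T = ∅`: `type0`; `T = {i}`: `type1` (`univ.erase i = S₀`); `T = {i, j}`: `type3`. -/
theorem box {ι : Type} [Fintype ι] [DecidableEq ι] {c η : ℝ} {N L u v r : ℕ} {V : ℝ} (par : Par c η N L u v r V) (hr : Fintype.card ι ≤ r) (p : Seminorm ℝ (ℕ → ℝ)) (hp : Loc N p)
    {X : ℝ} (h2 : H2 c η N p X) (h1 : H1 c N p X) (h3 : H3 c η N p X) (k : ι → ℕ) (G : ι → ArithmeticFunction ℝ) (hG : ∀ i, ∀ n, 1 ≤ n → n ≤ N → |G i n| ≤ V)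
    (hk : ∀ i, G i = one1 ∨ G i = logf ∨ k i < u) : p (fun m => (∏ j, dy (k j) (G j)) m) ≤ V ^ (2 * r + 2) * X := by
  have hu := par.hu
  have huv := par.huv
  obtain ⟨S₀, hS₀⟩ : ∃ S₀ : Finset ι, S₀ = univ.filter (fun i => k i < u) := ⟨_, rfl⟩
  have hmem : ∀ i, i ∈ S₀ ↔ k i < u := by
    intro i
    rw [hS₀, Finset.mem_filter]
    exact ⟨fun h => h.2, fun h => ⟨Finset.mem_univ _, h⟩⟩
  by_cases hA : u ≤ ∑ i ∈ S₀, k i
  · obtain ⟨S, -, hS1, hS2⟩ := greedy k u hu S₀ (fun i hi => (hmem i).1 hi) hA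
    exact type2 par hr p hp h2 k G hG S hS1 (by omega)
  by_cases hB : ∃ i, u ≤ k i ∧ k i ≤ v
  · obtain ⟨i, hi1, hi2⟩ := hB
    exact type2 par hr p hp h2 k G hG {i} (by rw [Finset.sum_singleton]; exact hi1)
      (by rw [Finset.sum_singleton]; exact hi2)
  have hlong : ∀ i, i ∉ S₀ → v < k i := by
    intro i hi
    rw [hmem] at hi
    by_contra h
    exact hB ⟨i, by omega, by omega⟩
  have hsm : ∀ i, i ∉ S₀ → G i = one1 ∨ G i = logf := by
    intro i hi
    rw [hmem] at hi
    rcases hk i with h | h | h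
    · exact Or.inl h
    · exact Or.inr h
    · exact absurd h hi
  have hlt : ∑ i ∈ S₀, k i < u := by omega
  rcases Nat.lt_or_ge 2 (S₀ᶜ).card with h4 | h4
  · have h5 : L ≤ ∑ i, k i := by
      calc L ≤ 3 * (v + 1) := par.h3v
        _ ≤ (S₀ᶜ).card * (v + 1) := Nat.mul_le_mul_right _ h4
        _ = ∑ i ∈ S₀ᶜ, (v + 1) := by rw [Finset.sum_const, smul_eq_mul]
        _ ≤ ∑ i ∈ S₀ᶜ, k i := Finset.sum_le_sum (fun i hi => hlong i (Finset.mem_compl.1 hi))
        _ ≤ ∑ i, k i := Finset.sum_le_sum_of_subset (Finset.subset_univ _)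
    have h6 : p (fun m => (∏ j, dy (k j) (G j)) m) = 0 := by
      apply hp
      intro m hm hmN
      by_contra h7
      obtain ⟨h8, -⟩ := supp univ k G h7
      have h9 : 2 ^ L ≤ 2 ^ ∑ i, k i := Nat.pow_le_pow_right (by norm_num) h5
      have h10 := par.hL
      omega
    rw [h6]
    have hX : 0 ≤ X := t2_nonneg par h2 (by omega)
    have hV0 : 0 ≤ V := zero_le_one.trans par.hV
    positivity
  · have h5 : (S₀ᶜ).card = 0 ∨ (S₀ᶜ).card = 1 ∨ (S₀ᶜ).card = 2 := by omega
    rcases h5 with h5 | h5 | h5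
    · rw [Finset.card_eq_zero] at h5
      have h6 : S₀ = univ := by
        rw [← compl_compl S₀, h5, Finset.compl_empty]
      rw [h6] at hlt
      exact type0 par hr p hp h1 k G hG hlt
    · obtain ⟨i, hi⟩ := Finset.card_eq_one.1 h5
      have h6 : S₀ = univ.erase i := by
        rw [← compl_compl S₀, hi]
        ext x
        rw [Finset.mem_compl, Finset.mem_singleton, Finset.mem_erase]
        exact ⟨fun h => ⟨h, Finset.mem_univ _⟩, fun h => h.1⟩
      have h7 : i ∉ S₀ := by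
        rw [h6]
        exact Finset.notMem_erase i _
      have h8 := hsm i h7
      rw [h6] at hlt
      exact type1 par hr p hp h1 k G hG i h8 hlt
    · obtain ⟨i, j, hij, hi⟩ := Finset.card_eq_two.1 h5
      have h6 : S₀ = (univ.erase i).erase j := by
        rw [← compl_compl S₀, hi]
        ext x
        rw [Finset.mem_compl, Finset.mem_insert, Finset.mem_singleton, Finset.mem_erase, Finset.mem_erase]
        push Not
        exact ⟨fun h => ⟨h.2, h.1, Finset.mem_univ _⟩, fun h => ⟨h.2.1, h.1⟩⟩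
      have h7 : i ∉ S₀ := by
        rw [← Finset.mem_compl, hi]
        exact Finset.mem_insert_self _ _
      have h8 : j ∉ S₀ := by
        rw [← Finset.mem_compl, hi]
        exact Finset.mem_insert_of_mem (Finset.mem_singleton_self _)
      have h9 := hsm i h7
      have h10 := hsm j h8
      have h11 := hlong i h7
      have h12 := hlong j h8
      rw [h6] at hlt
      exact type3 par hr p hp h3 k G hG i j hij h9 h10 h11 h12 hlt

end Pool.Agent.Lib.H81A
end
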