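import Mathlib
import Pool.Agent.Lib.H1M.RV2.M001
import Pool.Agent.Lib.H1M.RV2.M004

/-! Merged copies (to shorten the build) of Lib.H15P.Defs, Lib.H15P.PB1, Lib.H56G.Defs, Lib.H56G.Crt, Lib.H15P.TR1, Lib.H15P.TR2, Lib.Helper57.Bonferroni, Lib.Helper57.Count, Lib.Helper57.Transfer, Lib.Helper57.Sieve, Lib.H15P.LV1, Lib.H15P.PB3, Lib.H15P.PB6, Lib.H92G.Defs, Lib.H92G.G2, Lib.H92G.G0, Lib.H92G.G3, Lib.H92G.WG, Lib.Helper57.PairCount, Lib.H92G.CDefs, Lib.H92G.G1, Lib.H92G.G5, Lib.H15P.TR3, Lib.H92G.W1, Lib.H15P.NT2, Lib.H15P.NT1, Lib.H92G.E6, Lib.H57M.Defs. -/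

-- from Lib.H15P.Defs
section

/-!
# H15P: definitions

`ι` = index type of the primes, `J` = index type of the forms `b j + M t`, `I` = labels (scales).
-/

open Finset

namespace Pool.Agent.Lib.H15P

/-- Bernoulli weight of the set `A` (the element `i` is chosen with probability `q i`). -/
noncomputable def bw {ι : Type} [Fintype ι] [DecidableEq ι] (q : ι → ℝ) (A : Finset ι) : ℝ :=
  ∏ i, if i ∈ A then q i else 1 - q i

/-- Expectation of a function of one random set. -/
noncomputable def ex {ι : Type} [Fintype ι] [DecidableEq ι] (q : ι → ℝ)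
    (F : Finset ι → ℝ) : ℝ := ∑ A : Finset ι, F A * bw q A

/-- Expectation of a function of a family of independent random sets. -/
noncomputable def EX {ι J : Type} [Fintype ι] [DecidableEq ι] [Fintype J] [DecidableEq J]
    (q : ι → ℝ) (F : (J → Finset ι) → ℝ) : ℝ :=
  ∑ S : J → Finset ι, F S * ∏ j, bw q (S j)

/-- Number of the forms with label `i`. -/
def cnt {J I : Type} [Fintype J] [DecidableEq I] (l : J → Option I) (i : I) : ℕ :=
  (univ.filter (fun j => l j = some i)).card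

/-- Admissible labelings: only forms of `B` are labelled, at most `m i` of them with label `i`. -/
def adm {J I : Type} [Fintype J] [DecidableEq J] [Fintype I] [DecidableEq I]
    (B : Finset J) (m : I → ℕ) : Finset (J → Option I) :=
  univ.filter (fun l => (∀ j, j ∉ B → l j = none) ∧ ∀ i, cnt l i ≤ m i)





/-- Second moments of the factors. -/
noncomputable def GG {ι I : Type} [Fintype ι] [DecidableEq ι] [Fintype I] (q : ι → ℝ)
    (D : I → Finset ι → ℝ) : Option I → ℝ
  | none => 1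
  | some i => ex q (fun A => D i A ^ 2) / (Fintype.card I : ℝ) ^ 2

/-- Total weight of all labelings of `k` forms. -/
noncomputable def ZZ {ι I : Type} [Fintype ι] [DecidableEq ι] [Fintype I] (q : ι → ℝ)
    (D : I → Finset ι → ℝ) (k : ℕ) : ℝ := (1 + ∑ i, GG q D (some i)) ^ k

/-- The hypotheses on the one form functions `D i`. -/
structure Good {ι I : Type} [Fintype ι] [DecidableEq ι] (q : ι → ℝ)
    (D : I → Finset ι → ℝ) (h : ℝ) : Prop where
  q0 : ∀ i, 0 ≤ q i
  q1 : ∀ i, q i ≤ 1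
  empty : ∀ i, D i ∅ = 1
  mean : ∀ i, ex q (D i) = 0
  orth : ∀ i i', i ≠ i' → ex q (fun A => D i A * D i' A) = 0
  sq : ∀ i, ex q (fun A => D i A ^ 2) ≤ h
  fourth : ∀ i, ex q (fun A => D i A ^ 4) ≤ h

/-! ## Forms -/

/-- The primes of `P` which divide `e`. -/
def hit (P : Finset ℕ) (e : ℕ) : Finset {p // p ∈ P} := univ.filter (fun p => p.1 ∣ e)

/-- The probabilities: `1/p`, slightly increased (`K` = bound for the number of forms). -/
noncomputable def qq (P : Finset ℕ) (K : ℕ) (p : {p // p ∈ P}) : ℝ :=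
  (1 / (p.1 : ℝ) + 2 * K / (p.1 : ℝ) ^ 2) / (1 + 2 * K / (p.1 : ℝ) ^ 2)

/-- Hypotheses on the primes `P` and the forms `b j + M t`. -/
structure Forms {J : Type} [Fintype J] (P : Finset ℕ) (W K M : ℕ) (b : J → ℕ) : Prop where
  prime : ∀ p ∈ P, p.Prime
  big : ∀ p ∈ P, W < p
  cop : ∀ p ∈ P, ¬ p ∣ M
  dist : ∀ p ∈ P, ∀ j j', j ≠ j' → ¬ (b j ≡ b j' [MOD p])
  one_le : 1 ≤ K
  card : Fintype.card J ≤ K
  KW : 4 * K ^ 2 ≤ W

/-- Mean value over a full period. -/
noncomputable def EP {J : Type} (P : Finset ℕ) (M : ℕ) (b : J → ℕ)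
    (F : (J → Finset {p // p ∈ P}) → ℝ) : ℝ :=
  (∑ t ∈ range (∏ p ∈ P, p), F (fun j => hit P (b j + M * t))) / ((∏ p ∈ P, p : ℕ) : ℝ)

/-- `G` is a finite sum of functions `g` with periods `d ∣ Q` such that `Σ d ‖g‖ ≤ K`. -/
inductive Lev (Q : ℕ) : (ℕ → ℝ) → ℝ → Prop
  | base (g : ℕ → ℝ) (d : ℕ) (c : ℝ) (hd0 : 0 < d) (hd : d ∣ Q) (hper : Function.Periodic g d)
      (hc : ∀ t, |g t| ≤ c) : Lev Q g (d * c)
  | add (G G' : ℕ → ℝ) (K K' : ℝ) (h : Lev Q G K) (h' : Lev Q G' K') :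
      Lev Q (fun t => G t + G' t) (K + K')
  | mono (G : ℕ → ℝ) (K K' : ℝ) (h : Lev Q G K) (hK : K ≤ K') : Lev Q G K'

/-- Level of a function of the set of the primes dividing a form. -/
def LevS (P : Finset ℕ) (F : Finset {p // p ∈ P} → ℝ) (K : ℝ) : Prop :=
  ∀ M b : ℕ, Lev (∏ p ∈ P, p) (fun t => F (hit P (b + M * t))) K

/-! ## Blocks of primes and Brun-Hooley functions -/

/-- The part of `A` in the block `b`. -/
def AB {ι : Type} (blk : ι → ℕ) (b : ℕ) (A : Finset ι) : Finset ι := A.filter (fun i => blk i = b)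

/-- `Σ_{l ≤ 2r} (-1)^l (s choose l)` -/
noncomputable def TT (r s : ℕ) : ℝ := ∑ l ∈ range (2 * r + 1), (-1 : ℝ) ^ l * (s.choose l : ℝ)

/-- Probability that no element of the block `b` is chosen. -/
noncomputable def p0 {ι : Type} [Fintype ι] (q : ι → ℝ) (blk : ι → ℕ) (b : ℕ) : ℝ :=
  ∏ i ∈ univ.filter (fun i => blk i = b), (1 - q i)


/-- Mean value of the factor of the block `i`. -/
noncomputable def tau {ι : Type} [Fintype ι] [DecidableEq ι] (q : ι → ℝ) (blk : ι → ℕ)
    (r0 i : ℕ) : ℝ := ex q (fun A => TT r0 (AB blk i A).card)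

/-- The one form function of the scale `i`. -/
noncomputable def DB {ι : Type} [Fintype ι] [DecidableEq ι] (q : ι → ℝ) (blk : ι → ℕ)
    (r0 N i : ℕ) (A : Finset ι) : ℝ :=
  (∏ b ∈ Ico (i + 1) N, TT (r0 + (b - i)) (AB blk b A).card) *
    ((TT r0 (AB blk i A).card - tau q blk r0 i) / (1 - tau q blk r0 i))

/-- Sum of the primes of a block. -/
noncomputable def XB {ι : Type} [Fintype ι] (pr : ι → ℕ) (blk : ι → ℕ) (b : ℕ) : ℝ :=
  ∑ i ∈ univ.filter (fun i => blk i = b), (pr i : ℝ)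

/-! ## The concrete choice -/

/-- The primes `p` with `W < p`, `log p ≤ T`. -/
noncomputable def PP (W : ℕ) (T : ℝ) : Finset ℕ := (Ioc W ⌊Real.exp T⌋₊).filter Nat.Prime

/-- The block of `p`: `T / κ^(b+1) < log p ≤ T / κ^b`. -/
noncomputable def bk (κ : ℕ) (T : ℝ) (p : ℕ) : ℕ := Nat.log κ ⌊T / Real.log p⌋₊

end Pool.Agent.Lib.H15P
end

-- from Lib.H15P.PB1
section

/-!
# Chunk PB1: expectations
-/

open Finset

namespace Pool.Agent.Lib.H15P

variable {ι J : Type} [Fintype ι] [DecidableEq ι] [Fintype J] [DecidableEq J]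

theorem bw_nonneg (q : ι → ℝ) (h0 : ∀ i, 0 ≤ q i) (h1 : ∀ i, q i ≤ 1) (A : Finset ι) :
    0 ≤ bw q A := by
  unfold bw
  refine prod_nonneg fun i _ => ?_
  split_ifs
  · exact h0 i
  · linarith [h1 i]

/-- `∏ (q i + (1 - q i)) = 1` (`Finset.prod_add`). -/
theorem sum_bw (q : ι → ℝ) : ∑ A : Finset ι, bw q A = 1 := by
  have h := Finset.prod_add (fun i => q i) (fun i => 1 - q i) (univ : Finset ι)
  have h1 : ∏ i : ι, (q i + (1 - q i)) = 1 := prod_eq_one fun i _ => by ring
  rw [h1, powerset_univ] at h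
  rw [h]
  refine sum_congr rfl fun A _ => ?_
  unfold bw
  rw [← prod_mul_prod_compl A (fun i => if i ∈ A then q i else 1 - q i), compl_eq_univ_sdiff]
  congr 1
  · exact prod_congr rfl fun i hi => by rw [if_pos hi]
  · exact prod_congr rfl fun i hi => by rw [if_neg (mem_sdiff.1 hi).2]

theorem ex_one (q : ι → ℝ) : ex q (fun _ => 1) = 1 := by
  unfold ex
  simp only [one_mul]
  exact sum_bw q

theorem ex_const_mul (q : ι → ℝ) (c : ℝ) (F : Finset ι → ℝ) :
    ex q (fun A => c * F A) = c * ex q F := by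
  unfold ex
  rw [mul_sum]
  exact sum_congr rfl fun A _ => by ring

theorem ex_add (q : ι → ℝ) (F G : Finset ι → ℝ) :
    ex q (fun A => F A + G A) = ex q F + ex q G := by
  unfold ex
  rw [← sum_add_distrib]
  exact sum_congr rfl fun A _ => by ring

theorem ex_mono (q : ι → ℝ) (h0 : ∀ i, 0 ≤ q i) (h1 : ∀ i, q i ≤ 1) (F G : Finset ι → ℝ)
    (h : ∀ A, F A ≤ G A) : ex q F ≤ ex q G := by
  unfold ex
  exact sum_le_sum fun A _ => mul_le_mul_of_nonneg_right (h A) (bw_nonneg q h0 h1 A)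

theorem ex_nonneg (q : ι → ℝ) (h0 : ∀ i, 0 ≤ q i) (h1 : ∀ i, q i ≤ 1) (F : Finset ι → ℝ)
    (h : ∀ A, 0 ≤ F A) : 0 ≤ ex q F := by
  unfold ex
  exact sum_nonneg fun A _ => mul_nonneg (h A) (bw_nonneg q h0 h1 A)

/-- Independence (`Finset.prod_univ_sum`, `Fintype.piFinset_univ`). -/
theorem EX_prod (q : ι → ℝ) (F : J → Finset ι → ℝ) :
    EX q (fun S : J → Finset ι => ∏ j, F j (S j)) = ∏ j, ex q (F j) := by
  unfold EX ex
  rw [Finset.prod_univ_sum, Fintype.piFinset_univ]
  exact sum_congr rfl fun S _ => by rw [prod_mul_distrib]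


theorem EX_sum {α : Type} (q : ι → ℝ) (s : Finset α) (F : α → (J → Finset ι) → ℝ) :
    EX q (fun S => ∑ a ∈ s, F a S) = ∑ a ∈ s, EX q (F a) := by
  unfold EX
  rw [sum_comm]
  exact sum_congr rfl fun S _ => by rw [sum_mul]

theorem EX_const_mul (q : ι → ℝ) (c : ℝ) (F : (J → Finset ι) → ℝ) :
    EX q (fun S => c * F S) = c * EX q F := by
  unfold EX
  rw [mul_sum]
  exact sum_congr rfl fun A _ => by ring

theorem EX_mono (q : ι → ℝ) (h0 : ∀ i, 0 ≤ q i) (h1 : ∀ i, q i ≤ 1)
    (F G : (J → Finset ι) → ℝ) (h : ∀ S, F S ≤ G S) : EX q F ≤ EX q G := by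
  unfold EX
  exact sum_le_sum fun S _ => mul_le_mul_of_nonneg_right (h S)
    (prod_nonneg fun j _ => bw_nonneg q h0 h1 (S j))

theorem EX_nonneg (q : ι → ℝ) (h0 : ∀ i, 0 ≤ q i) (h1 : ∀ i, q i ≤ 1)
    (F : (J → Finset ι) → ℝ) (h : ∀ S, 0 ≤ F S) : 0 ≤ EX q F := by
  unfold EX
  exact sum_nonneg fun S _ => mul_nonneg (h S)
    (prod_nonneg fun j _ => bw_nonneg q h0 h1 (S j))


end Pool.Agent.Lib.H15P
end

-- from Lib.H56G.Defs
section

/-!
# H56G: definitions (linear forms `b j + M t`, `t = 1, 2, ..`, and divisor-type functions of them)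

`ι` = (index type of) a finite set of primes `pr i`; `J` = index type of the linear forms.
A configuration `κ : ι → Option J` gives to a form `j` the primes `i` with `κ i = some j`;
`κ i = none` means that the prime `i` is not used.
-/

open Finset

namespace Pool.Agent.Lib.H56G

/-- Distinct primes `pr i` and linear forms `b j + M * t` such that no `pr i` divides `M` or
one of the differences `b j - b j'`. -/
structure Sys (ι J : Type) where
  pr : ι → ℕ
  prime : ∀ i, (pr i).Prime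
  inj : Function.Injective pr
  M : ℕ
  b : J → ℕ
  copM : ∀ i, ¬ pr i ∣ M
  dist : ∀ i j j', j ≠ j' → ¬ (b j ≡ b j' [MOD pr i])

variable {ι J : Type} [Fintype ι] [DecidableEq ι] [Fintype J] [DecidableEq J]

/-- the primes which are used -/
def supp (κ : ι → Option J) : Finset ι := univ.filter (fun i => (κ i).isSome)

/-- the primes which are not used -/
def free (κ : ι → Option J) : Finset ι := univ.filter (fun i => κ i = none)

/-- the primes given to the form `j` -/
def part (κ : ι → Option J) (j : J) : Finset ι := univ.filter (fun i => κ i = some j)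



namespace Sys

variable (s : Sys ι J)

/-- `u_p^j(t) = 1 - p [p ∣ f_j(t)]` -/
noncomputable def u (i : ι) (j : J) (t : ℕ) : ℝ :=
  if s.pr i ∣ s.b j + s.M * t then 1 - (s.pr i : ℝ) else 1

/-- product of the `u_p^j` over the used primes -/
noncomputable def U (κ : ι → Option J) (t : ℕ) : ℝ :=
  ∏ i, (κ i).elim 1 (fun j => s.u i j t)

/-- product of a set of primes -/
noncomputable def rho (A : Finset ι) : ℝ := ∏ i ∈ A, (s.pr i : ℝ)

/-- Euler function of a product of primes -/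
noncomputable def phi (A : Finset ι) : ℝ := ∏ i ∈ A, ((s.pr i : ℝ) - 1)

/-- level of a configuration -/
noncomputable def r (κ : ι → Option J) : ℝ := s.rho (supp κ)




/-- `Σ_A 1/φ(A)` over the sets of free primes with product at most `D` -/
noncomputable def VV (D : ℝ) (κ : ι → Option J) : ℝ :=
  ∑ A ∈ (free κ).powerset.filter (fun A => s.rho A ≤ D), 1 / s.phi A

end Sys


/-- one form part of the coefficients -/
noncomputable def gam (bb : Finset ι → ℝ) (A : Finset ι) : ℝ := if A = ∅ then 1 else - bb A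


/-- weight of one part -/
noncomputable def vv (s : Sys ι J) (bb : Finset ι → ℝ) (A : Finset ι) : ℝ :=
  (gam bb A) ^ 2 * s.phi A

/-- weight of a configuration -/
noncomputable def wt (s : Sys ι J) (bb : Finset ι → ℝ) (κ : ι → Option J) : ℝ :=
  ∏ j, vv s bb (part κ j)

/-- total weight -/
noncomputable def ZZ (s : Sys ι J) (bb : Finset ι → ℝ) : ℝ := ∑ κ, wt s bb κ

/-- `Σ 1/(φ(A) log ρ(A))` over the nonempty sets of primes with product at most `z` -/
noncomputable def SS (s : Sys ι J) (z : ℝ) : ℝ :=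
  ∑ A ∈ (univ : Finset (Finset ι)).filter (fun A => A ≠ ∅ ∧ s.rho A ≤ z),
    1 / (s.phi A * Real.log (s.rho A))

/-- the weight `1/(S φ(A) log ρ(A))` -/
noncomputable def bw (s : Sys ι J) (z : ℝ) (A : Finset ι) : ℝ :=
  if A ≠ ∅ ∧ s.rho A ≤ z then 1 / (SS s z * (s.phi A * Real.log (s.rho A))) else 0

end Pool.Agent.Lib.H56G
end

-- from Lib.H56G.Crt
section

/-!
# Chunk CRT: sums of periodic functions with coprime periods
-/

open Finset

namespace Pool.Agent.Lib.H56G

/-- Chinese remainder theorem. Proof: `t ↦ (t mod m, t mod n)` is a bijection from `range (m*n)`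
to `range m ×ˢ range n` (`Nat.chineseRemainder`, or injectivity + cardinality); `f t = f (t % m)`,
`g t = g (t % n)` (`Function.Periodic.map_mod_nat`); then `Finset.sum_mul_sum`. -/
theorem sum_range_mul {m n : ℕ} (hmn : Nat.Coprime m n) (hm : 0 < m) (hn : 0 < n)
    (f g : ℕ → ℝ) (hf : Function.Periodic f m) (hg : Function.Periodic g n) :
    ∑ t ∈ range (m * n), f t * g t = (∑ t ∈ range m, f t) * ∑ t ∈ range n, g t := by
  rw [Finset.sum_mul_sum, ← Finset.sum_product']
  refine Finset.sum_bij' (fun t _ => (t % m, t % n))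
    (fun x _ => (Nat.chineseRemainder hmn x.1 x.2 : ℕ)) ?_ ?_ ?_ ?_ ?_
  · intro t _
    simp only [Finset.mem_product, Finset.mem_range]
    exact ⟨Nat.mod_lt _ hm, Nat.mod_lt _ hn⟩
  · intro x _
    simp only [Finset.mem_range]
    exact Nat.chineseRemainder_lt_mul hmn x.1 x.2 hm.ne' hn.ne'
  · intro t ht
    simp only [Finset.mem_range] at ht
    have h := (Nat.chineseRemainder hmn (t % m) (t % n)).2
    have h1 : (Nat.chineseRemainder hmn (t % m) (t % n) : ℕ) ≡ t [MOD m] :=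
      h.1.trans (Nat.mod_modEq t m)
    have h2 : (Nat.chineseRemainder hmn (t % m) (t % n) : ℕ) ≡ t [MOD n] :=
      h.2.trans (Nat.mod_modEq t n)
    have h3 := (Nat.modEq_and_modEq_iff_modEq_mul hmn).1 ⟨h1, h2⟩
    exact Nat.ModEq.eq_of_lt_of_lt h3 (Nat.chineseRemainder_lt_mul hmn _ _ hm.ne' hn.ne') ht
  · intro x hx
    simp only [Finset.mem_product, Finset.mem_range] at hx
    have h := (Nat.chineseRemainder hmn x.1 x.2).2
    apply Prod.ext
    · have := h.1
      rw [Nat.ModEq, Nat.mod_eq_of_lt hx.1] at this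
      exact this
    · have := h.2
      rw [Nat.ModEq, Nat.mod_eq_of_lt hx.2] at this
      exact this
  · intro t _
    simp only
    rw [hf.map_mod_nat, hg.map_mod_nat]

/-- Product version. Induction on `A` with `sum_range_mul` (the product over `A` is periodic with
period `∏ p i`; coprimality: distinct primes, `Nat.Coprime.prod_right`). -/
theorem sum_range_prod {ι : Type} [DecidableEq ι] (p : ι → ℕ) (hp : ∀ i, (p i).Prime)
    (hinj : Function.Injective p) (A : Finset ι) (F : ι → ℕ → ℝ)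
    (hF : ∀ i, Function.Periodic (F i) (p i)) :
    ∑ t ∈ range (∏ i ∈ A, p i), ∏ i ∈ A, F i t = ∏ i ∈ A, ∑ t ∈ range (p i), F i t := by
  induction A using Finset.induction_on with
  | empty => simp
  | insert a A ha ih =>
    rw [Finset.prod_insert ha, Finset.prod_insert ha, ← ih]
    have hcop : Nat.Coprime (p a) (∏ i ∈ A, p i) := by
      apply Nat.Coprime.prod_right
      intro i hi
      rw [Nat.coprime_primes (hp a) (hp i)]
      intro h
      exact ha (hinj h ▸ hi)
    have hper : Function.Periodic (fun t => ∏ i ∈ A, F i t) (∏ i ∈ A, p i) := by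
      intro t
      apply Finset.prod_congr rfl
      intro i hi
      obtain ⟨k, hk⟩ := Finset.dvd_prod_of_mem p hi
      rw [hk]
      have := (hF i).nat_mul k
      have h2 := this t
      simpa [mul_comm] using h2
    rw [← sum_range_mul hcop (hp a).pos (Finset.prod_pos fun i _ => (hp i).pos) (F a)
      (fun t => ∏ i ∈ A, F i t) (hF a) hper]
    apply Finset.sum_congr rfl
    intro t _
    rw [Finset.prod_insert ha]

theorem crt_sum_Icc_period (q : ℕ) (F : ℕ → ℝ) (hF : Function.Periodic F q) (a : ℕ) :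
    ∑ t ∈ Ico a (a + q), F t = ∑ t ∈ range q, F t := by
  induction a with
  | zero => simp [Nat.Ico_zero_eq_range]
  | succ a ih =>
    rcases Nat.eq_zero_or_pos q with hq | hq
    · subst hq; simp
    · have h1 : ∑ t ∈ Ico a (a + 1 + q), F t = F a + ∑ t ∈ Ico (a + 1) (a + 1 + q), F t :=
        Finset.sum_eq_sum_Ico_succ_bot (by omega) F
      have h2 : ∑ t ∈ Ico a (a + q + 1), F t = ∑ t ∈ Ico a (a + q), F t + F (a + q) :=
        Finset.sum_Ico_succ_top (by omega) F
      have h3 : a + 1 + q = a + q + 1 := by omega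
      have h4 : F (a + q) = F a := hF a
      rw [h3] at h1
      rw [h3]
      linarith

theorem crt_sum_Icc_mul (q : ℕ) (F : ℕ → ℝ) (hF : Function.Periodic F q) (k : ℕ) :
    ∑ t ∈ Ico 1 (1 + k * q), F t = k * ∑ t ∈ range q, F t := by
  induction k with
  | zero => simp
  | succ k ih =>
    have h1 : 1 + (k + 1) * q = (1 + k * q) + q := by ring
    rw [h1, ← Finset.sum_Ico_consecutive F (by omega : 1 ≤ 1 + k * q) (by omega), ih,
      crt_sum_Icc_period q F hF]
    push_cast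
    ring

/-- Incomplete sums of a periodic function. Proof: write `Y = k q + l`, `l < q`; the sum over
`Icc 1 (k q)` is `k` times the full period sum `Σ` (`|Σ| ≤ q K`), the remaining `l` terms are
at most `l K`; `|Y/q - k| ≤ 1`. -/
theorem abs_sum_Icc_sub_le (q : ℕ) (hq : 0 < q) (F : ℕ → ℝ) (hF : Function.Periodic F q)
    (K : ℝ) (hK : ∀ t, |F t| ≤ K) (Y : ℕ) :
    |∑ t ∈ Icc 1 Y, F t - Y * ((∑ t ∈ range q, F t) / q)| ≤ 2 * q * K := by
  have hq' : (0 : ℝ) < q := by exact_mod_cast hq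
  have hK0 : 0 ≤ K := le_trans (abs_nonneg _) (hK 0)
  obtain ⟨k, l, hl, hY⟩ : ∃ k l, l < q ∧ Y = k * q + l :=
    ⟨Y / q, Y % q, Nat.mod_lt _ hq, by rw [mul_comm]; exact (Nat.div_add_mod Y q).symm⟩
  have hI : Icc 1 Y = Ico 1 (1 + Y) := by
    ext t; simp only [Finset.mem_Icc, Finset.mem_Ico]; omega
  have hS : |∑ t ∈ range q, F t| ≤ q * K := by
    calc |∑ t ∈ range q, F t| ≤ ∑ t ∈ range q, |F t| := Finset.abs_sum_le_sum_abs _ _
      _ ≤ ∑ t ∈ range q, K := Finset.sum_le_sum fun t _ => hK t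
      _ = q * K := by simp
  have hR : |∑ t ∈ Ico (1 + k * q) (1 + Y), F t| ≤ l * K := by
    calc |∑ t ∈ Ico (1 + k * q) (1 + Y), F t| ≤ ∑ t ∈ Ico (1 + k * q) (1 + Y), |F t| :=
          Finset.abs_sum_le_sum_abs _ _
      _ ≤ ∑ t ∈ Ico (1 + k * q) (1 + Y), K := Finset.sum_le_sum fun t _ => hK t
      _ = l * K := by
        rw [Finset.sum_const, Nat.card_Ico, nsmul_eq_mul]
        congr 2
        omega
  have hsum : ∑ t ∈ Icc 1 Y, F t
      = k * ∑ t ∈ range q, F t + ∑ t ∈ Ico (1 + k * q) (1 + Y), F t := by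
    rw [hI, ← Finset.sum_Ico_consecutive F (by omega : 1 ≤ 1 + k * q) (by omega),
      crt_sum_Icc_mul q F hF]
  have hYr : (Y : ℝ) = k * q + l := by rw [hY]; push_cast; ring
  have hlq : (l : ℝ) ≤ q := by exact_mod_cast hl.le
  have hl0 : (0 : ℝ) ≤ l := by positivity
  set S := ∑ t ∈ range q, F t with hSdef
  set R := ∑ t ∈ Ico (1 + k * q) (1 + Y), F t with hRdef
  have hid : k * S + R - Y * (S / q) = R - (l / q) * S := by
    rw [hYr]
    field_simp
    ring
  rw [hsum, hid]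
  calc |R - (l / q) * S| ≤ |R| + |(l / q) * S| := abs_sub _ _
    _ = |R| + (l / q) * |S| := by rw [abs_mul, abs_of_nonneg (by positivity : (0:ℝ) ≤ l / q)]
    _ ≤ l * K + (l / q) * (q * K) := by gcongr
    _ = 2 * (l * K) := by field_simp; ring
    _ ≤ 2 * (q * K) := by gcongr
    _ = 2 * q * K := by ring

end Pool.Agent.Lib.H56G
end

-- from Lib.H15P.TR1
section

/-!
# Chunk TR1: the mean value over a full period, as a sum over exclusive configurations
-/

open Finset

namespace Pool.Agent.Lib.H15P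

variable {J : Type} [Fintype J] [DecidableEq J]

/-- Probabilities at the prime `p`: `1/p` for each form, the rest for none of them. -/
noncomputable def ww (J : Type) [Fintype J] (p : ℕ) : Option J → ℝ
  | none => 1 - (Fintype.card J : ℝ) / p
  | some _ => 1 / p

/-- The sets of primes of the forms in the configuration `κ`. -/
def cfg {P : Finset ℕ} (κ : {p // p ∈ P} → Option J) (j : J) : Finset {p // p ∈ P} :=
  univ.filter (fun i => κ i = some j)

theorem tr1_T (M b p : ℕ) (hp : p.Prime) (hM : ¬ p ∣ M) : ∃ T, T < p ∧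
    ∀ t < p, (p ∣ b + M * t ↔ t = T) := by
  have : Fact p.Prime := ⟨hp⟩
  have hM' : (M : ZMod p) ≠ 0 := by
    rw [Ne, ZMod.natCast_eq_zero_iff]
    exact hM
  refine ⟨(-(b : ZMod p) * (M : ZMod p)⁻¹).val, ZMod.val_lt _, fun t ht => ?_⟩
  rw [← ZMod.natCast_eq_zero_iff]
  push_cast
  constructor
  · intro h
    have h1 : (t : ZMod p) = -(b : ZMod p) * (M : ZMod p)⁻¹ := by
      field_simp
      linear_combination h
    rw [← h1, ZMod.val_cast_of_lt ht]
  · intro h
    have h1 : (t : ZMod p) = -(b : ZMod p) * (M : ZMod p)⁻¹ := by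
      rw [h, ZMod.natCast_zmod_val]
    rw [h1]
    field_simp
    ring

/-- Indicator that the prime `p` has the state `o` at `t`. -/
noncomputable def tr1_ind (M : ℕ) (b : J → ℕ) (p : ℕ) (t : ℕ) : Option J → ℝ
  | none => 1 - ∑ j, (if p ∣ b j + M * t then (1 : ℝ) else 0)
  | some j => if p ∣ b j + M * t then 1 else 0

/-- At most one form is divisible by a prime of `P`. -/
theorem tr1_unique {P : Finset ℕ} {W K M : ℕ} {b : J → ℕ} (hF : Forms P W K M b)
    {p : ℕ} (hp : p ∈ P) (t : ℕ) {j j' : J} (h1 : p ∣ b j + M * t) (h2 : p ∣ b j' + M * t) :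
    j = j' := by
  by_contra hne
  apply hF.dist p hp j j' hne
  have h3 : b j + M * t ≡ b j' + M * t [MOD p] :=
    ((Nat.modEq_zero_iff_dvd.2 h1).trans (Nat.modEq_zero_iff_dvd.2 h2).symm)
  exact Nat.ModEq.add_right_cancel' _ h3

theorem tr1_sum_one {P : Finset ℕ} {W K M : ℕ} {b : J → ℕ} (hF : Forms P W K M b)
    {p : ℕ} (hp : p ∈ P) (t : ℕ) {j : J} (h1 : p ∣ b j + M * t) :
    ∑ j', (if p ∣ b j' + M * t then (1 : ℝ) else 0) = 1 := by
  rw [Finset.sum_eq_single j]
  · rw [if_pos h1]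
  · intro j' _ hj'
    rw [if_neg]
    intro h2
    exact hj' (tr1_unique hF hp t h2 h1)
  · intro h
    exact absurd (Finset.mem_univ j) h

theorem tr1_expand {P : Finset ℕ} {W K M : ℕ} {b : J → ℕ} (hF : Forms P W K M b)
    (F : (J → Finset {p // p ∈ P}) → ℝ) (t : ℕ) :
    F (fun j => hit P (b j + M * t)) = ∑ κ : {p // p ∈ P} → Option J, F (cfg κ) *
      ∏ i, tr1_ind M b i.1 t (κ i) := by
  classical
  set κ0 : {p // p ∈ P} → Option J := fun i =>
    if h : ∃ j, i.1 ∣ b j + M * t then some h.choose else none with hκ0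
  have hsome : ∀ i j, κ0 i = some j ↔ i.1 ∣ b j + M * t := by
    intro i j
    by_cases h : ∃ j, i.1 ∣ b j + M * t
    · have e : κ0 i = some h.choose := by simp only [hκ0]; rw [dif_pos h]
      rw [e, Option.some_inj]
      constructor
      · intro hj
        rw [← hj]
        exact h.choose_spec
      · intro hj
        exact tr1_unique hF i.2 t h.choose_spec hj
    · have e : κ0 i = none := by simp only [hκ0]; rw [dif_neg h]
      rw [e]
      constructor
      · intro h'; exact absurd h' (by simp)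
      · intro hj; exact absurd ⟨j, hj⟩ h
  have hnone : ∀ i, κ0 i = none → ∀ j, ¬ i.1 ∣ b j + M * t := by
    intro i hi j hj
    rw [← hsome i j, hi] at hj
    exact absurd hj (by simp)
  rw [Finset.sum_eq_single κ0]
  · have h1 : (fun j => hit P (b j + M * t)) = cfg κ0 := by
      funext j
      unfold hit cfg
      apply Finset.filter_congr
      intro i _
      exact (hsome i j).symm
    have h2 : ∏ i, tr1_ind M b i.1 t (κ0 i) = 1 := by
      apply Finset.prod_eq_one
      intro i _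
      rcases h : κ0 i with _ | j
      · unfold tr1_ind
        simp only
        rw [Finset.sum_eq_zero]
        · ring
        · intro j _
          rw [if_neg (hnone i h j)]
      · unfold tr1_ind
        simp only
        rw [if_pos ((hsome i j).1 h)]
    rw [h1, h2, mul_one]
  · intro κ _ hκ
    obtain ⟨i, hi⟩ : ∃ i, κ i ≠ κ0 i := by
      by_contra hcon
      push Not at hcon
      exact hκ (funext hcon)
    have : tr1_ind M b i.1 t (κ i) = 0 := by
      rcases h : κ i with _ | j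
      · rcases h' : κ0 i with _ | j'
        · rw [h, h'] at hi
          exact absurd rfl hi
        · unfold tr1_ind
          simp only
          rw [tr1_sum_one hF i.2 t ((hsome i j').1 h')]
          ring
      · unfold tr1_ind
        simp only
        rw [if_neg]
        intro hd
        rw [h, (hsome i j).2 hd] at hi
        exact absurd rfl hi
    rw [Finset.prod_eq_zero (Finset.mem_univ i) this, mul_zero]
  · intro h
    exact absurd (Finset.mem_univ κ0) h

theorem tr1_periodic (M : ℕ) (b : J → ℕ) (p : ℕ) (o : Option J) :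
    Function.Periodic (fun t => tr1_ind M b p t o) p := by
  intro t
  have h : ∀ j, (p ∣ b j + M * (t + p)) ↔ (p ∣ b j + M * t) := by
    intro j
    have e : b j + M * (t + p) = (b j + M * t) + p * M := by ring
    rw [e]
    exact (Nat.dvd_add_left (Dvd.intro M rfl))
  rcases o with _ | j
  · simp only [tr1_ind, h]
  · simp only [tr1_ind, h]

theorem tr1_sum_some {P : Finset ℕ} {W K M : ℕ} {b : J → ℕ} (hF : Forms P W K M b)
    {p : ℕ} (hp : p ∈ P) (j : J) :
    ∑ t ∈ range p, (if p ∣ b j + M * t then (1 : ℝ) else 0) = 1 := by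
  obtain ⟨T, hT, hT'⟩ := tr1_T M (b j) p (hF.prime p hp) (hF.cop p hp)
  rw [Finset.sum_eq_single T]
  · rw [if_pos ((hT' T hT).2 rfl)]
  · intro t ht hne
    rw [if_neg]
    intro h
    exact hne ((hT' t (Finset.mem_range.1 ht)).1 h)
  · intro h
    exact absurd (Finset.mem_range.2 hT) h

theorem tr1_sum_period {P : Finset ℕ} {W K M : ℕ} {b : J → ℕ} (hF : Forms P W K M b)
    {p : ℕ} (hp : p ∈ P) (o : Option J) :
    ∑ t ∈ range p, tr1_ind M b p t o = p * ww J p o := by
  have hp0 : (p : ℝ) ≠ 0 := by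
    have := (hF.prime p hp).pos
    positivity
  rcases o with _ | j
  · simp only [tr1_ind, ww]
    rw [Finset.sum_sub_distrib, Finset.sum_comm]
    rw [Finset.sum_congr rfl (fun j _ => tr1_sum_some hF hp j)]
    simp only [sum_const, card_range, nsmul_eq_mul, mul_one, card_univ]
    field_simp
  · simp only [tr1_ind, ww]
    rw [tr1_sum_some hF hp j]
    field_simp

/-- Let `κ_t(p)` be the form divisible by `p` at `t` (at most one by `dist`), or `none`. Then
`F(hit ..) = Σ_κ F(cfg κ) ∏_p 1[κ_t(p) = κ p]`; the factor of `p` has period `p`, and by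
`H56G.sum_range_prod` (index type `{p // p ∈ P}`) the sum over a full period is
`∏_p #{t < p : κ_t(p) = κ p}`, where the factor is `1` if `κ p = some j` (`p ∤ M`: exactly one class,
see `H56G.gram1_T`), and `p - |J|` if `κ p = none`. -/
theorem EP_eq (P : Finset ℕ) (W K M : ℕ) (b : J → ℕ) (hF : Forms P W K M b)
    (F : (J → Finset {p // p ∈ P}) → ℝ) :
    EP P M b F = ∑ κ : {p // p ∈ P} → Option J, F (cfg κ) * ∏ i, ww J i.1 (κ i) := by
  classical
  have hprod : (∏ p ∈ P, p) = ∏ i : {p // p ∈ P}, i.1 := by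
    rw [← Finset.prod_coe_sort P (fun p => p)]
  have hpos : (0 : ℝ) < ((∏ p ∈ P, p : ℕ) : ℝ) := by
    have : 0 < ∏ p ∈ P, p := Finset.prod_pos (fun p hp => (hF.prime p hp).pos)
    exact_mod_cast this
  unfold EP
  rw [div_eq_iff hpos.ne', Finset.sum_mul]
  rw [Finset.sum_congr rfl (fun t _ => tr1_expand hF F t), Finset.sum_comm]
  refine Finset.sum_congr rfl (fun κ _ => ?_)
  rw [← Finset.mul_sum, mul_assoc]
  congr 1
  rw [hprod, H56G.sum_range_prod (fun i : {p // p ∈ P} => i.1) (fun i => hF.prime i.1 i.2)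
    Subtype.val_injective univ (fun i t => tr1_ind M b i.1 t (κ i))
    (fun i => tr1_periodic M b i.1 (κ i))]
  rw [Finset.prod_congr rfl (fun i _ => tr1_sum_period hF i.2 (κ i))]
  rw [Finset.prod_mul_distrib]
  push_cast
  ring

end Pool.Agent.Lib.H15P
end

-- from Lib.H15P.TR2
section

/-!
# Chunk TR2: upper bound for the mean value over a period by the independent model
-/

open Finset

namespace Pool.Agent.Lib.H15P

variable {J : Type} [Fintype J] [DecidableEq J]

/-- The numbers of `P` are distinct and `> W`: `Σ p^-2 ≤ 1/W` (see `H56G.cnt_sum_inv_sq`). -/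
theorem sum_inv_sq_le (P : Finset ℕ) (W : ℕ) (hW : 1 ≤ W) (hb : ∀ p ∈ P, W < p) :
    ∑ p ∈ P, 1 / (p : ℝ) ^ 2 ≤ 1 / (W : ℝ) := by
  obtain ⟨N, hN⟩ : ∃ N, W ≤ N ∧ ∀ p ∈ P, p ≤ N :=
    ⟨max W (P.sup id), le_max_left _ _, fun p hp =>
      (Finset.le_sup (f := id) hp).trans (le_max_right _ _)⟩
  have hsub : P ⊆ Ioc W N := fun n hn => Finset.mem_Ioc.2 ⟨hb n hn, hN.2 n hn⟩
  have h0 : ∑ p ∈ P, 1 / (p : ℝ) ^ 2 = ∑ p ∈ P, ((p : ℝ) ^ 2)⁻¹ :=
    Finset.sum_congr rfl (fun p _ => one_div _)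
  rw [h0, one_div]
  calc ∑ n ∈ P, ((n : ℝ) ^ 2)⁻¹
      ≤ ∑ n ∈ Ioc W N, ((n : ℝ) ^ 2)⁻¹ :=
        Finset.sum_le_sum_of_subset_of_nonneg hsub (fun _ _ _ => by positivity)
    _ ≤ (W : ℝ)⁻¹ - (N : ℝ)⁻¹ := sum_Ioc_inv_sq_le_sub (by omega) hN.1
    _ ≤ (W : ℝ)⁻¹ := by
        have : (0 : ℝ) ≤ (N : ℝ)⁻¹ := by positivity
        linarith

theorem qq_nonneg (P : Finset ℕ) (K : ℕ) (p : {p // p ∈ P}) : 0 ≤ qq P K p := by
  unfold qq
  positivity

theorem tr2_big (P : Finset ℕ) (W K : ℕ) (hK : 1 ≤ K) (hKW : 4 * K ^ 2 ≤ W)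
    (hb : ∀ p ∈ P, W < p) (p : {p // p ∈ P}) : 4 * (K : ℝ) ≤ (p.1 : ℝ) ∧ (1 : ℝ) ≤ (p.1 : ℝ) := by
  have h1 := hb p.1 p.2
  have h2 : 4 * K ≤ p.1 := by nlinarith
  have h3 : 1 ≤ p.1 := by omega
  exact ⟨by exact_mod_cast h2, by exact_mod_cast h3⟩

/-- `qq ≤ 2/p`, in particular `≤ 1` (`p ≥ W ≥ 4 K^2 ≥ 4 K`). -/
theorem qq_le (P : Finset ℕ) (W K : ℕ) (hK : 1 ≤ K) (hKW : 4 * K ^ 2 ≤ W)
    (hb : ∀ p ∈ P, W < p) (p : {p // p ∈ P}) : qq P K p ≤ 2 / (p.1 : ℝ) := by
  obtain ⟨h1, h2⟩ := tr2_big P W K hK hKW hb p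
  unfold qq
  have hp : (0 : ℝ) < (p.1 : ℝ) := by linarith
  have hK0 : (0 : ℝ) ≤ K := by positivity
  have hc : (1 : ℝ) ≤ 1 + 2 * K / (p.1 : ℝ) ^ 2 := by
    have : (0 : ℝ) ≤ 2 * K / (p.1 : ℝ) ^ 2 := by positivity
    linarith
  have ha : 1 / (p.1 : ℝ) + 2 * K / (p.1 : ℝ) ^ 2 ≤ 2 / (p.1 : ℝ) := by
    have e : 2 / (p.1 : ℝ) - (1 / (p.1 : ℝ) + 2 * K / (p.1 : ℝ) ^ 2)
        = ((p.1 : ℝ) - 2 * K) / (p.1 : ℝ) ^ 2 := by
      field_simp
      ring
    have : (0 : ℝ) ≤ ((p.1 : ℝ) - 2 * K) / (p.1 : ℝ) ^ 2 :=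
      div_nonneg (by linarith) (by positivity)
    linarith
  refine (div_le_self (by positivity) hc).trans ha

theorem tr2_qq_le_one (P : Finset ℕ) (W K : ℕ) (hK : 1 ≤ K) (hKW : 4 * K ^ 2 ≤ W)
    (hb : ∀ p ∈ P, W < p) (p : {p // p ∈ P}) : qq P K p ≤ 1 := by
  obtain ⟨h1, h2⟩ := tr2_big P W K hK hKW hb p
  refine (qq_le P W K hK hKW hb p).trans ?_
  have hp : (0 : ℝ) < (p.1 : ℝ) := by linarith
  rw [div_le_one hp]
  have : (1 : ℝ) ≤ K := by exact_mod_cast hK
  linarith

/-- One prime: `ww (κ p) ≤ ∏_j (factor of j)`, where the factor is `α = 1/p + 2K/p^2` for the form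
`κ p` and `β = 1 - 1/p` for the other forms: `1 - k/p ≤ (1 - 1/p)^k` (Bernoulli) and
`1/p ≤ α (1 - 1/p)^(k-1)` since `(1 + 2K/p)(1 - 1/p)^(k-1) ≥ (1 + 2K/p)(1 - K/p) ≥ 1` for
`2 K ≤ p`. -/
theorem ww_le (P : Finset ℕ) (W K : ℕ) (hK : 1 ≤ K) (hKW : 4 * K ^ 2 ≤ W)
    (hb : ∀ p ∈ P, W < p) (hJ : Fintype.card J ≤ K) (p : {p // p ∈ P}) (o : Option J) :
    ww J p.1 o ≤ ∏ j : J, (if o = some j then 1 / (p.1 : ℝ) + 2 * K / (p.1 : ℝ) ^ 2
      else 1 - 1 / (p.1 : ℝ)) := by
  obtain ⟨h1, h2⟩ := tr2_big P W K hK hKW hb p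
  have hp : (0 : ℝ) < (p.1 : ℝ) := by linarith
  have hinv : 1 / (p.1 : ℝ) ≤ 1 := by rw [div_le_one hp]; exact h2
  have hinv0 : 0 ≤ 1 / (p.1 : ℝ) := by positivity
  have hJr : (Fintype.card J : ℝ) ≤ K := by exact_mod_cast hJ
  have hK0 : (0 : ℝ) ≤ K := by positivity
  rcases o with _ | j0
  · have e : ∏ j : J, (if (none : Option J) = some j then 1 / (p.1 : ℝ) + 2 * K / (p.1 : ℝ) ^ 2
        else 1 - 1 / (p.1 : ℝ)) = (1 - 1 / (p.1 : ℝ)) ^ Fintype.card J := by
      rw [Finset.prod_congr rfl (g := fun _ => 1 - 1 / (p.1 : ℝ))]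
      · rw [Finset.prod_const, Finset.card_univ]
      · intro j _
        rw [if_neg (by simp)]
    rw [e]
    have hB := one_add_mul_le_pow (a := -(1 / (p.1 : ℝ))) (by linarith) (Fintype.card J)
    have e2 : ww J p.1 none = 1 + (Fintype.card J : ℝ) * (-(1 / (p.1 : ℝ))) := by
      unfold ww
      ring
    rw [e2]
    calc 1 + (Fintype.card J : ℝ) * (-(1 / (p.1 : ℝ))) ≤ (1 + -(1 / (p.1 : ℝ))) ^ Fintype.card J := hB
      _ = (1 - 1 / (p.1 : ℝ)) ^ Fintype.card J := by rw [← sub_eq_add_neg]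
  · have e : ∏ j : J, (if (some j0 : Option J) = some j then 1 / (p.1 : ℝ) + 2 * K / (p.1 : ℝ) ^ 2
        else 1 - 1 / (p.1 : ℝ)) = (1 / (p.1 : ℝ) + 2 * K / (p.1 : ℝ) ^ 2) *
          (1 - 1 / (p.1 : ℝ)) ^ (Fintype.card J - 1) := by
      rw [← Finset.mul_prod_erase univ _ (Finset.mem_univ j0), if_pos rfl]
      congr 1
      rw [Finset.prod_congr rfl (g := fun _ => 1 - 1 / (p.1 : ℝ))]
      · rw [Finset.prod_const, Finset.card_erase_of_mem (Finset.mem_univ j0), Finset.card_univ]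
      · intro j hj
        rw [if_neg]
        intro h
        exact (Finset.ne_of_mem_erase hj) (Option.some_inj.1 h).symm
    rw [e]
    have hB := one_add_mul_le_pow (a := -(1 / (p.1 : ℝ))) (by linarith) (Fintype.card J - 1)
    have hc1 : ((Fintype.card J - 1 : ℕ) : ℝ) ≤ K := by
      have : Fintype.card J - 1 ≤ K := by omega
      exact_mod_cast this
    have hlow : 1 - K * (1 / (p.1 : ℝ)) ≤ (1 - 1 / (p.1 : ℝ)) ^ (Fintype.card J - 1) := by
      have h3 : 1 - K * (1 / (p.1 : ℝ)) ≤ 1 + ((Fintype.card J - 1 : ℕ) : ℝ) * (-(1 / (p.1 : ℝ))) := by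
        nlinarith
      have h4 : (1 + -(1 / (p.1 : ℝ))) = 1 - 1 / (p.1 : ℝ) := by ring
      rw [h4] at hB
      exact h3.trans hB
    have hα : 0 ≤ 1 / (p.1 : ℝ) + 2 * K / (p.1 : ℝ) ^ 2 := by positivity
    have e2 : ww J p.1 (some j0) = 1 / (p.1 : ℝ) := rfl
    rw [e2]
    refine le_trans ?_ (mul_le_mul_of_nonneg_left hlow hα)
    have e3 : (1 / (p.1 : ℝ) + 2 * K / (p.1 : ℝ) ^ 2) * (1 - K * (1 / (p.1 : ℝ))) - 1 / (p.1 : ℝ)
        = K * ((p.1 : ℝ) - 2 * K) / (p.1 : ℝ) ^ 3 := by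
      field_simp
      ring
    have : 0 ≤ K * ((p.1 : ℝ) - 2 * K) / (p.1 : ℝ) ^ 3 :=
      div_nonneg (mul_nonneg hK0 (by linarith)) (by positivity)
    linarith

omit [Fintype J] in
theorem tr2_cfg_injective {P : Finset ℕ} :
    Function.Injective (cfg : ({p // p ∈ P} → Option J) → J → Finset {p // p ∈ P}) := by
  intro κ κ' h
  funext i
  apply Option.ext
  intro j
  have h1 : i ∈ cfg κ j ↔ i ∈ cfg κ' j := by rw [h]
  unfold cfg at h1
  simp only [mem_filter, mem_univ, true_and] at h1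
  exact h1

theorem tr2_factor (P : Finset ℕ) (K : ℕ) (hb : ∀ p ∈ P, 0 < p) (κ : {p // p ∈ P} → Option J) :
    ∏ i : {p // p ∈ P}, ∏ j : J, (if κ i = some j then 1 / (i.1 : ℝ) + 2 * K / (i.1 : ℝ) ^ 2
      else 1 - 1 / (i.1 : ℝ))
      = (∏ i : {p // p ∈ P}, (1 + 2 * K / (i.1 : ℝ) ^ 2)) ^ Fintype.card J *
        ∏ j, bw (qq P K) (cfg κ j) := by
  rw [Finset.prod_comm, ← Finset.card_univ, ← Finset.prod_const, ← Finset.prod_mul_distrib]
  refine Finset.prod_congr rfl (fun j _ => ?_)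
  unfold bw
  rw [← Finset.prod_mul_distrib]
  refine Finset.prod_congr rfl (fun i _ => ?_)
  have hi : (0 : ℝ) < (i.1 : ℝ) := by exact_mod_cast hb i.1 i.2
  have hc : (1 + 2 * K / (i.1 : ℝ) ^ 2) ≠ 0 := by
    have : (0 : ℝ) ≤ 2 * K / (i.1 : ℝ) ^ 2 := by positivity
    linarith
  have hmem : i ∈ cfg κ j ↔ κ i = some j := by
    unfold cfg
    simp only [mem_filter, mem_univ, true_and]
  by_cases h : κ i = some j
  · rw [if_pos h, if_pos (hmem.2 h)]
    unfold qq
    rw [mul_div_cancel₀]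
    exact hc
  · rw [if_neg h, if_neg (fun h' => h (hmem.1 h'))]
    unfold qq
    rw [mul_sub, mul_one, mul_div_cancel₀]
    · ring
    · exact hc

/-- `α = (1 + 2K/p^2) qq`, `β = (1 + 2K/p^2) (1 - qq)`. Multiply `ww_le` over the primes:
`∏_p ww (κ p) ≤ ∏_p (1 + 2K/p^2)^|J| ∏_j bw (cfg κ j)`, the first factor is at most
`exp (2 K |J| Σ p^-2) ≤ exp (2 K^2/W)`; `κ ↦ cfg κ` is injective and all terms are
nonnegative. -/
theorem EP_le (P : Finset ℕ) (W K M : ℕ) (b : J → ℕ) (hF : Forms P W K M b)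
    (F : (J → Finset {p // p ∈ P}) → ℝ) (h0 : ∀ S, 0 ≤ F S) :
    EP P M b F ≤ Real.exp (2 * (K : ℝ) ^ 2 / W) * EX (qq P K) F := by
  classical
  have hW1 : 1 ≤ W := by
    have := hF.KW
    have := hF.one_le
    nlinarith
  have hWr : (0 : ℝ) < W := by exact_mod_cast hW1
  have hpos : ∀ p ∈ P, 0 < p := fun p hp => (hF.prime p hp).pos
  have hbw : ∀ A, 0 ≤ bw (qq P K) A := bw_nonneg _ (qq_nonneg P K)
    (tr2_qq_le_one P W K hF.one_le hF.KW hF.big)
  have hc : (∏ i : {p // p ∈ P}, (1 + 2 * K / (i.1 : ℝ) ^ 2)) ^ Fintype.card J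
      ≤ Real.exp (2 * (K : ℝ) ^ 2 / W) := by
    have h1 : ∏ i : {p // p ∈ P}, (1 + 2 * K / (i.1 : ℝ) ^ 2) ≤ Real.exp (2 * K / W) := by
      calc ∏ i : {p // p ∈ P}, (1 + 2 * K / (i.1 : ℝ) ^ 2)
          ≤ ∏ i : {p // p ∈ P}, Real.exp (2 * K / (i.1 : ℝ) ^ 2) := by
            apply Finset.prod_le_prod
            · intro i _
              positivity
            · intro i _
              rw [add_comm]
              exact Real.add_one_le_exp _
        _ = Real.exp (∑ i : {p // p ∈ P}, 2 * K / (i.1 : ℝ) ^ 2) := by rw [Real.exp_sum]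
        _ ≤ Real.exp (2 * K / W) := by
            apply Real.exp_le_exp.2
            have e1 : ∑ i : {p // p ∈ P}, 2 * (K : ℝ) / (i.1 : ℝ) ^ 2
                = ∑ p ∈ P, 2 * (K : ℝ) / (p : ℝ) ^ 2 :=
              Finset.sum_coe_sort P (fun p => 2 * (K : ℝ) / (p : ℝ) ^ 2)
            rw [e1]
            have e2 : ∑ p ∈ P, 2 * (K : ℝ) / (p : ℝ) ^ 2 = 2 * (K : ℝ) * ∑ p ∈ P, 1 / (p : ℝ) ^ 2 := by
              rw [Finset.mul_sum]
              refine Finset.sum_congr rfl (fun p _ => ?_)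
              ring
            rw [e2]
            calc 2 * (K : ℝ) * ∑ p ∈ P, 1 / (p : ℝ) ^ 2 ≤ 2 * K * (1 / W) :=
                  mul_le_mul_of_nonneg_left (sum_inv_sq_le P W hW1 hF.big) (by positivity)
              _ = 2 * K / W := by ring
    calc (∏ i : {p // p ∈ P}, (1 + 2 * K / (i.1 : ℝ) ^ 2)) ^ Fintype.card J
        ≤ (Real.exp (2 * K / W)) ^ Fintype.card J := by
          apply pow_le_pow_left₀ _ h1
          apply Finset.prod_nonneg
          intro i _
          positivity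
      _ = Real.exp (Fintype.card J * (2 * K / W)) := by rw [← Real.exp_nat_mul]
      _ ≤ Real.exp (2 * (K : ℝ) ^ 2 / W) := by
          apply Real.exp_le_exp.2
          have hJr : (Fintype.card J : ℝ) ≤ K := by exact_mod_cast hF.card
          calc (Fintype.card J : ℝ) * (2 * K / W) ≤ K * (2 * K / W) :=
                mul_le_mul_of_nonneg_right hJr (by positivity)
            _ = 2 * (K : ℝ) ^ 2 / W := by ring
  have hww : ∀ κ : {p // p ∈ P} → Option J, ∏ i, ww J i.1 (κ i)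
      ≤ Real.exp (2 * (K : ℝ) ^ 2 / W) * ∏ j, bw (qq P K) (cfg κ j) := by
    intro κ
    calc ∏ i, ww J i.1 (κ i)
        ≤ ∏ i : {p // p ∈ P}, ∏ j : J, (if κ i = some j then
            1 / (i.1 : ℝ) + 2 * K / (i.1 : ℝ) ^ 2 else 1 - 1 / (i.1 : ℝ)) := by
          apply Finset.prod_le_prod
          · intro i _
            have h2 := tr2_big P W K hF.one_le hF.KW hF.big i
            have hJr : (Fintype.card J : ℝ) ≤ K := by exact_mod_cast hF.card
            rcases h : κ i with _ | j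
            · have hp : (0 : ℝ) < (i.1 : ℝ) := by linarith [h2.2]
              have : (Fintype.card J : ℝ) / (i.1 : ℝ) ≤ 1 := by
                rw [div_le_one hp]
                linarith [h2.1, (Nat.cast_nonneg K : (0 : ℝ) ≤ K)]
              simp only [ww]
              linarith
            · simp only [ww]
              positivity
          · intro i _
            exact ww_le P W K hF.one_le hF.KW hF.big hF.card i (κ i)
      _ = _ := tr2_factor P K hpos κ
      _ ≤ _ := mul_le_mul_of_nonneg_right hc (Finset.prod_nonneg (fun j _ => hbw _))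
  rw [EP_eq P W K M b hF F]
  calc ∑ κ : {p // p ∈ P} → Option J, F (cfg κ) * ∏ i, ww J i.1 (κ i)
      ≤ ∑ κ : {p // p ∈ P} → Option J, F (cfg κ) *
          (Real.exp (2 * (K : ℝ) ^ 2 / W) * ∏ j, bw (qq P K) (cfg κ j)) :=
        Finset.sum_le_sum (fun κ _ => mul_le_mul_of_nonneg_left (hww κ) (h0 _))
    _ = Real.exp (2 * (K : ℝ) ^ 2 / W) *
          ∑ κ : {p // p ∈ P} → Option J, F (cfg κ) * ∏ j, bw (qq P K) (cfg κ j) := by
        rw [Finset.mul_sum]
        refine Finset.sum_congr rfl (fun κ _ => ?_)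
        ring
    _ ≤ Real.exp (2 * (K : ℝ) ^ 2 / W) * EX (qq P K) F := by
        apply mul_le_mul_of_nonneg_left _ (Real.exp_pos _).le
        unfold EX
        have e : ∑ κ : {p // p ∈ P} → Option J, F (cfg κ) * ∏ j, bw (qq P K) (cfg κ j)
            = ∑ S ∈ (univ : Finset ({p // p ∈ P} → Option J)).image cfg,
                F S * ∏ j, bw (qq P K) (S j) := by
          rw [Finset.sum_image (fun a _ b _ h => tr2_cfg_injective h)]
        rw [e]
        exact Finset.sum_le_sum_of_subset_of_nonneg (Finset.subset_univ _)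
          (fun S _ _ => mul_nonneg (h0 S) (Finset.prod_nonneg (fun j _ => hbw _)))

end Pool.Agent.Lib.H15P
end

-- from Lib.Helper57.Bonferroni
section

/-!
Truncated inclusion-exclusion, and an abstract combinatorial sieve in the style of Hooley:
the sieving set is cut into blocks, and inclusion-exclusion is truncated in each block.
-/

open Finset

namespace Pool.Agent.Lib.Helper57

set_option linter.unusedSectionVars false
set_option linter.unusedSimpArgs false

variable {ι : Type*} [DecidableEq ι]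

/-- The general finite expression `∑_{S ∈ F} c(S) ∏_{p ∈ S} f p`. -/
def ev (F : Finset (Finset ι)) (c : Finset ι → ℝ) (f : ι → ℝ) : ℝ :=
  ∑ S ∈ F, c S * ∏ p ∈ S, f p

/-- Subsets of `P` with at most `t` elements. -/
def small (P : Finset ι) (t : ℕ) : Finset (Finset ι) := P.powerset.filter fun S => S.card ≤ t

/-- The sign `(-1)^{|S|}`. -/
def sgn (S : Finset ι) : ℝ := (-1) ^ S.card

/-- The inclusion-exclusion sum over subsets of size at most `t`. -/
def T (P : Finset ι) (t : ℕ) (f : ι → ℝ) : ℝ := ev (small P t) sgn f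

/-- The elementary symmetric sum of degree `t`. -/
def E (P : Finset ι) (t : ℕ) (f : ι → ℝ) : ℝ := ev (P.powersetCard t) (fun _ => 1) f

/-- The full product. -/
def V (P : Finset ι) (f : ι → ℝ) : ℝ := ∏ p ∈ P, (1 - f p)

lemma T_eq_ite (P : Finset ι) (t : ℕ) (f : ι → ℝ) :
    T P t f = ∑ S ∈ P.powerset, if S.card ≤ t then sgn S * ∏ p ∈ S, f p else 0 := by
  unfold T ev small
  rw [Finset.sum_filter]

lemma E_eq_ite (P : Finset ι) (t : ℕ) (f : ι → ℝ) :
    E P t f = ∑ S ∈ P.powerset, if S.card = t then ∏ p ∈ S, f p else 0 := by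
  unfold E ev
  rw [← Finset.sum_filter, Finset.powersetCard_eq_filter]
  simp

lemma T_zero (P : Finset ι) (f : ι → ℝ) : T P 0 f = 1 := by
  rw [T_eq_ite]
  rw [Finset.sum_eq_single (∅ : Finset ι)]
  · simp [sgn]
  · intro S _ hS
    have : ¬ S.card ≤ 0 := by
      rw [Nat.le_zero, Finset.card_eq_zero]; exact hS
    simp [this]
  · intro h; exact absurd (Finset.empty_mem_powerset P) h

lemma T_insert {P : Finset ι} {q : ι} (hq : q ∉ P) (t : ℕ) (f : ι → ℝ) :
    T (insert q P) (t + 1) f = T P (t + 1) f - f q * T P t f := by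
  rw [T_eq_ite, T_eq_ite, T_eq_ite, Finset.sum_powerset_insert hq, Finset.mul_sum, sub_eq_add_neg,
    ← Finset.sum_neg_distrib]
  congr 1
  apply Finset.sum_congr rfl
  intro S hS
  have hqS : q ∉ S := fun h => hq (Finset.mem_powerset.mp hS h)
  rw [Finset.card_insert_of_notMem hqS]
  by_cases h : S.card ≤ t
  · have h' : S.card + 1 ≤ t + 1 := by omega
    simp only [h, h', if_true]
    rw [Finset.prod_insert hqS]
    unfold sgn
    rw [Finset.card_insert_of_notMem hqS]
    ring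
  · have h' : ¬ S.card + 1 ≤ t + 1 := by omega
    simp only [h, h', if_false]
    ring

lemma T_empty (t : ℕ) (f : ι → ℝ) : T (∅ : Finset ι) t f = 1 := by
  rw [T_eq_ite]
  simp [sgn]

lemma E_zero (P : Finset ι) (f : ι → ℝ) : E P 0 f = 1 := by
  unfold E ev; simp


/-- Bonferroni inequalities. -/
lemma bonferroni (P : Finset ι) (f : ι → ℝ) (hf : ∀ p ∈ P, 0 ≤ f p ∧ f p ≤ 1) (t : ℕ) :
    0 ≤ (-1) ^ t * (T P t f - V P f) := by
  induction P using Finset.induction_on generalizing t with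
  | empty => rw [T_empty]; simp [V]
  | insert q P hq ih =>
    have hf' : ∀ p ∈ P, 0 ≤ f p ∧ f p ≤ 1 := fun p hp => hf p (Finset.mem_insert_of_mem hp)
    have hfq := hf q (Finset.mem_insert_self q P)
    have hV : V (insert q P) f = (1 - f q) * V P f := by
      unfold V; rw [Finset.prod_insert hq]
    cases t with
    | zero =>
      rw [T_zero]
      have : V (insert q P) f ≤ 1 := by
        unfold V
        apply Finset.prod_le_one
        · intro p hp; linarith [(hf p hp).2]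
        · intro p hp; linarith [(hf p hp).1]
      simp; exact this
    | succ t =>
      rw [T_insert hq, hV]
      have h1 := ih hf' (t + 1)
      have h2 := ih hf' t
      have e : (-1 : ℝ) ^ (t + 1) * (T P (t + 1) f - f q * T P t f - (1 - f q) * V P f) =
          (-1) ^ (t + 1) * (T P (t + 1) f - V P f) + f q * ((-1) ^ t * (T P t f - V P f)) := by
        rw [pow_succ]; ring
      rw [e]
      have := mul_nonneg hfq.1 h2
      linarith

lemma V_le_T {P : Finset ι} {f : ι → ℝ} (hf : ∀ p ∈ P, 0 ≤ f p ∧ f p ≤ 1) {t : ℕ} (ht : Even t) :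
    V P f ≤ T P t f := by
  have := bonferroni P f hf t
  rw [ht.neg_one_pow, one_mul] at this
  linarith

lemma T_succ (P : Finset ι) (t : ℕ) (f : ι → ℝ) :
    T P (t + 1) f = T P t f + (-1) ^ (t + 1) * E P (t + 1) f := by
  rw [T_eq_ite, T_eq_ite, E_eq_ite, Finset.mul_sum, ← Finset.sum_add_distrib]
  apply Finset.sum_congr rfl
  intro S _
  by_cases h : S.card ≤ t
  · have h1 : S.card ≤ t + 1 := by omega
    have h2 : ¬ S.card = t + 1 := by omega
    simp [h, h1, h2]
  · by_cases h2 : S.card = t + 1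
    · have h1 : S.card ≤ t + 1 := by omega
      simp only [h, h1, h2, if_true, if_false, sgn]
      simp
    · have h1 : ¬ S.card ≤ t + 1 := by omega
      simp [h, h1, h2]

lemma T_sub_E_le {P : Finset ι} {f : ι → ℝ} (hf : ∀ p ∈ P, 0 ≤ f p ∧ f p ≤ 1) {t : ℕ}
    (ht : Even t) : T P t f - E P t f ≤ V P f := by
  cases t with
  | zero =>
    rw [T_zero, E_zero]
    have : 0 ≤ V P f := Finset.prod_nonneg fun p hp => by linarith [(hf p hp).2]
    linarith
  | succ t =>
    have hodd : Odd t := by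
      rcases Nat.even_or_odd t with h | h
      · exact absurd ht (by simpa [Nat.even_add_one] using h)
      · exact h
    rw [T_succ, ht.neg_one_pow]
    have := bonferroni P f hf t
    rw [hodd.neg_one_pow] at this
    linarith

lemma V_nonneg {P : Finset ι} {f : ι → ℝ} (hf : ∀ p ∈ P, 0 ≤ f p ∧ f p ≤ 1) : 0 ≤ V P f :=
  Finset.prod_nonneg fun p hp => by linarith [(hf p hp).2]





/-- Telescoping upper bound for the difference of two products. -/
lemma prod_sub_prod_le {κ : Type*} [DecidableEq κ] (J : Finset κ) (u v : κ → ℝ)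
    (h : ∀ j ∈ J, 0 ≤ v j ∧ v j ≤ u j) :
    ∏ j ∈ J, u j - ∏ j ∈ J, v j ≤ ∑ j ∈ J, (u j - v j) * ∏ i ∈ J.erase j, u i := by
  induction J using Finset.induction_on with
  | empty => simp
  | insert a J ha ih =>
    have h' : ∀ j ∈ J, 0 ≤ v j ∧ v j ≤ u j := fun j hj => h j (Finset.mem_insert_of_mem hj)
    have ha' := h a (Finset.mem_insert_self a J)
    rw [Finset.prod_insert ha, Finset.prod_insert ha, Finset.sum_insert ha,
      Finset.erase_insert ha]
    have e : ∑ j ∈ J, (u j - v j) * ∏ i ∈ (insert a J).erase j, u i =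
        u a * ∑ j ∈ J, (u j - v j) * ∏ i ∈ J.erase j, u i := by
      rw [Finset.mul_sum]
      apply Finset.sum_congr rfl
      intro j hj
      have hja : j ≠ a := fun h => ha (h ▸ hj)
      rw [Finset.erase_insert_of_ne hja.symm, Finset.prod_insert (by
        intro hmem; exact ha (Finset.mem_of_mem_erase hmem))]
      ring
    rw [e]
    have h1 := mul_le_mul_of_nonneg_left (ih h') (ha'.1.trans ha'.2)
    have h2 : ∏ j ∈ J, v j ≤ ∏ j ∈ J, u j :=
      Finset.prod_le_prod (fun j hj => (h' j hj).1) fun j hj => (h' j hj).2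
    have h3 : (u a - v a) * ∏ j ∈ J, v j ≤ (u a - v a) * ∏ j ∈ J, u j :=
      mul_le_mul_of_nonneg_left h2 (by linarith [ha'.2])
    nlinarith

end Pool.Agent.Lib.Helper57
end

-- from Lib.Helper57.Count
section

/-!
Counting integers in an initial segment subject to congruence conditions modulo distinct primes.
-/

open Finset

namespace Pool.Agent.Lib.Helper57

/-- Counting function of a predicate. -/
noncomputable def cnt (P : ℕ → Prop) (M : ℕ) : ℕ := by
  classical exact ((range M).filter P).card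
















end Pool.Agent.Lib.Helper57
end

-- from Lib.Helper57.Transfer
section

/-!
The abstract combinatorial sieve: upper and lower bounds for the number of unsieved elements.
-/

open Finset

namespace Pool.Agent.Lib.Helper57

set_option linter.unusedSectionVars false

variable {ι κ α : Type*} [DecidableEq ι] [DecidableEq κ] [DecidableEq α]

/-- The indicator function of `B`. -/
def ind (B : Finset ι) (p : ι) : ℝ := if p ∈ B then 1 else 0

lemma ind_bounds (B : Finset ι) (p : ι) : 0 ≤ ind B p ∧ ind B p ≤ 1 := by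
  unfold ind; split_ifs <;> norm_num

lemma prod_ind (B S : Finset ι) : ∏ p ∈ S, ind B p = if S ⊆ B then 1 else 0 := by
  unfold ind
  by_cases h : S ⊆ B
  · rw [if_pos h]
    apply Finset.prod_eq_one
    intro p hp
    rw [if_pos (h hp)]
  · rw [if_neg h]
    obtain ⟨p, hp, hpB⟩ := Finset.not_subset.mp h
    exact Finset.prod_eq_zero hp (by rw [if_neg hpB])

/-- `ev` commutes with products over disjoint blocks. -/
lemma prod_ev (J : Finset κ) (F : κ → Finset (Finset ι)) (c : κ → Finset ι → ℝ)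
    (P : κ → Finset ι) (hdisj : ∀ i ∈ J, ∀ j ∈ J, i ≠ j → Disjoint (P i) (P j))
    (hF : ∀ j ∈ J, ∀ S ∈ F j, S ⊆ P j) (f : ι → ℝ) :
    ∏ j ∈ J, ev (F j) (c j) f = ∑ φ ∈ J.pi F,
      (∏ x ∈ J.attach, c x.1 (φ x.1 x.2)) * ∏ p ∈ J.attach.biUnion (fun x => φ x.1 x.2), f p := by
  unfold ev
  rw [Finset.prod_sum]
  apply Finset.sum_congr rfl
  intro φ hφ
  rw [Finset.prod_mul_distrib]
  congr 1
  rw [Finset.prod_biUnion]
  intro x _ y _ hxy
  have hmem := Finset.mem_pi.mp hφ
  have h1 := hF x.1 x.2 _ (hmem x.1 x.2)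
  have h2 := hF y.1 y.2 _ (hmem y.1 y.2)
  have hne : x.1 ≠ y.1 := fun h => hxy (Subtype.ext h)
  exact Finset.disjoint_of_subset_left h1 (Finset.disjoint_of_subset_right h2
    (hdisj x.1 x.2 y.1 y.2 hne))

/-- The transfer principle. -/
lemma transfer (J : Finset κ) (F : κ → Finset (Finset ι)) (c : κ → Finset ι → ℝ)
    (P : κ → Finset ι) (hdisj : ∀ i ∈ J, ∀ j ∈ J, i ≠ j → Disjoint (P i) (P j))
    (hF : ∀ j ∈ J, ∀ S ∈ F j, S ⊆ P j) (hc : ∀ j ∈ J, ∀ S ∈ F j, |c j S| ≤ 1)
    (Ω : Finset α) (B : α → Finset ι) (X : ℝ) (g ν : ι → ℝ)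
    (hν : ∀ j ∈ J, ∀ p ∈ P j, 0 ≤ ν p)
    (hcount : ∀ S : Finset ι, (∀ p ∈ S, ∃ j ∈ J, p ∈ P j) →
      |((Ω.filter fun m => S ⊆ B m).card : ℝ) - X * ∏ p ∈ S, g p| ≤ ∏ p ∈ S, ν p) :
    |∑ m ∈ Ω, ∏ j ∈ J, ev (F j) (c j) (ind (B m)) - X * ∏ j ∈ J, ev (F j) (c j) g| ≤
      ∏ j ∈ J, ∑ S ∈ F j, ∏ p ∈ S, ν p := by
  have e1 : ∑ m ∈ Ω, ∏ j ∈ J, ev (F j) (c j) (ind (B m)) = ∑ φ ∈ J.pi F,
      (∏ x ∈ J.attach, c x.1 (φ x.1 x.2)) *
        ((Ω.filter fun m => J.attach.biUnion (fun x => φ x.1 x.2) ⊆ B m).card : ℝ) := by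
    simp_rw [prod_ev J F c P hdisj hF]
    rw [Finset.sum_comm]
    apply Finset.sum_congr rfl
    intro φ _
    rw [← Finset.mul_sum]
    congr 1
    simp_rw [prod_ind]
    rw [Finset.sum_ite]
    simp
  rw [e1, prod_ev J F c P hdisj hF, Finset.mul_sum, ← Finset.sum_sub_distrib]
  have e2 : ∏ j ∈ J, ∑ S ∈ F j, ∏ p ∈ S, ν p = ∑ φ ∈ J.pi F,
      ∏ p ∈ J.attach.biUnion (fun x => φ x.1 x.2), ν p := by
    have := prod_ev J F (fun _ _ => 1) P hdisj hF ν
    simp only [ev, one_mul, Finset.prod_const_one] at this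
    exact this
  rw [e2]
  refine (Finset.abs_sum_le_sum_abs _ _).trans ?_
  apply Finset.sum_le_sum
  intro φ hφ
  have hmem := Finset.mem_pi.mp hφ
  set U := J.attach.biUnion (fun x => φ x.1 x.2) with hU
  have hUmem : ∀ p ∈ U, ∃ j ∈ J, p ∈ P j := by
    intro p hp
    rw [hU, Finset.mem_biUnion] at hp
    obtain ⟨x, _, hx⟩ := hp
    exact ⟨x.1, x.2, hF x.1 x.2 _ (hmem x.1 x.2) hx⟩
  have h1 := hcount U hUmem
  have h2 : |∏ x ∈ J.attach, c x.1 (φ x.1 x.2)| ≤ 1 := by
    rw [Finset.abs_prod]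
    apply Finset.prod_le_one
    · intro x _; exact abs_nonneg _
    · intro x _; exact hc x.1 x.2 _ (hmem x.1 x.2)
  have h3 : (∏ x ∈ J.attach, c x.1 (φ x.1 x.2)) * ((Ω.filter fun m => U ⊆ B m).card : ℝ) -
      X * ((∏ x ∈ J.attach, c x.1 (φ x.1 x.2)) * ∏ p ∈ U, g p) =
      (∏ x ∈ J.attach, c x.1 (φ x.1 x.2)) *
        (((Ω.filter fun m => U ⊆ B m).card : ℝ) - X * ∏ p ∈ U, g p) := by ring
  rw [h3, abs_mul]
  have h4 : 0 ≤ ∏ p ∈ U, ν p := Finset.prod_nonneg fun p hp => by
    obtain ⟨j, hj, hpj⟩ := hUmem p hp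
    exact hν j hj p hpj
  calc _ ≤ 1 * ∏ p ∈ U, ν p := mul_le_mul h2 h1 (abs_nonneg _) zero_le_one
    _ = _ := one_mul _

/-- The number of elements of `Ω` which are unsieved by all blocks. -/
def good (J : Finset κ) (P : κ → Finset ι) (Ω : Finset α) (B : α → Finset ι) : Finset α :=
  Ω.filter fun m => ∀ j ∈ J, ∀ p ∈ P j, p ∉ B m

lemma V_ind (P : Finset ι) (B : Finset ι) :
    V P (ind B) = if (∀ p ∈ P, p ∉ B) then 1 else 0 := by
  unfold V ind
  by_cases h : ∀ p ∈ P, p ∉ B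
  · rw [if_pos h]
    apply Finset.prod_eq_one
    intro p hp
    rw [if_neg (h p hp)]; ring
  · rw [if_neg h]
    push Not at h
    obtain ⟨p, hp, hpB⟩ := h
    exact Finset.prod_eq_zero hp (by rw [if_pos hpB]; ring)

lemma card_good (J : Finset κ) (P : κ → Finset ι) (Ω : Finset α) (B : α → Finset ι) :
    ((good J P Ω B).card : ℝ) = ∑ m ∈ Ω, ∏ j ∈ J, V (P j) (ind (B m)) := by
  unfold good
  rw [Finset.card_filter]
  push_cast
  apply Finset.sum_congr rfl
  intro m _
  simp_rw [V_ind]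
  by_cases h : ∀ j ∈ J, ∀ p ∈ P j, p ∉ B m
  · rw [if_pos h]
    symm
    apply Finset.prod_eq_one
    intro j hj
    rw [if_pos (h j hj)]
  · rw [if_neg h]
    symm
    push Not at h
    obtain ⟨j, hj, p, hp, hpB⟩ := h
    apply Finset.prod_eq_zero hj
    rw [if_neg]
    intro h'; exact h' p hp hpB

/-- Hypotheses of the abstract sieve, bundled. -/
structure SieveData (κ ι α : Type*) [DecidableEq κ] [DecidableEq ι] where
  /-- the index set of blocks -/
  J : Finset κ
  /-- the blocks -/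
  P : κ → Finset ι
  /-- truncation levels -/
  t : κ → ℕ
  /-- the set to be sieved -/
  Ω : Finset α
  /-- the bad primes of an element -/
  B : α → Finset ι
  /-- the main quantity -/
  X : ℝ
  /-- the density -/
  g : ι → ℝ
  /-- the error function -/
  ν : ι → ℝ
  X_nonneg : 0 ≤ X
  even : ∀ j ∈ J, Even (t j)
  disj : ∀ i ∈ J, ∀ j ∈ J, i ≠ j → Disjoint (P i) (P j)
  g_bd : ∀ j ∈ J, ∀ p ∈ P j, 0 ≤ g p ∧ g p ≤ 1
  ν_nonneg : ∀ j ∈ J, ∀ p ∈ P j, 0 ≤ ν p
  count : ∀ S : Finset ι, (∀ p ∈ S, ∃ j ∈ J, p ∈ P j) →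
      |((Ω.filter fun m => S ⊆ B m).card : ℝ) - X * ∏ p ∈ S, g p| ≤ ∏ p ∈ S, ν p

namespace SieveData

variable (D : SieveData κ ι α)

/-- the error term -/
def N : ℝ := ∏ j ∈ D.J, ∑ S ∈ small (D.P j) (D.t j), ∏ p ∈ S, D.ν p

lemma sgn_abs (S : Finset ι) : |sgn S| ≤ 1 := by
  unfold sgn; rw [abs_pow]; simp

lemma small_sub (P : Finset ι) (t : ℕ) : ∀ S ∈ small P t, S ⊆ P := by
  intro S hS
  unfold small at hS
  exact Finset.mem_powerset.mp (Finset.mem_filter.mp hS).1

/-- Upper bound. -/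
lemma upper : ((good D.J D.P D.Ω D.B).card : ℝ) ≤ D.X * ∏ j ∈ D.J, T (D.P j) (D.t j) D.g + D.N := by
  rw [card_good]
  have h1 : ∑ m ∈ D.Ω, ∏ j ∈ D.J, V (D.P j) (ind (D.B m)) ≤
      ∑ m ∈ D.Ω, ∏ j ∈ D.J, ev (small (D.P j) (D.t j)) sgn (ind (D.B m)) := by
    apply Finset.sum_le_sum
    intro m _
    apply Finset.prod_le_prod
    · intro j _
      exact V_nonneg fun p _ => ind_bounds _ p
    · intro j hj
      exact V_le_T (fun p _ => ind_bounds _ p) (D.even j hj)
  have h2 := transfer D.J (fun j => small (D.P j) (D.t j)) (fun _ => sgn) D.P D.disj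
    (fun j _ => small_sub _ _) (fun j _ S _ => sgn_abs S) D.Ω D.B D.X D.g D.ν D.ν_nonneg D.count
  have h3 := (abs_le.mp h2).2
  unfold T N
  linarith

/-- Lower bound. -/
lemma lower : D.X * (∏ j ∈ D.J, T (D.P j) (D.t j) D.g -
    ∑ j ∈ D.J, E (D.P j) (D.t j) D.g * ∏ i ∈ D.J.erase j, T (D.P i) (D.t i) D.g) -
    (D.J.card + 1) * D.N ≤ ((good D.J D.P D.Ω D.B).card : ℝ) := by
  rw [card_good]
  -- pointwise inequality
  have hpt : ∀ m ∈ D.Ω, ∏ j ∈ D.J, T (D.P j) (D.t j) (ind (D.B m)) -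
      ∑ j ∈ D.J, E (D.P j) (D.t j) (ind (D.B m)) *
        ∏ i ∈ D.J.erase j, T (D.P i) (D.t i) (ind (D.B m)) ≤
      ∏ j ∈ D.J, V (D.P j) (ind (D.B m)) := by
    intro m _
    have h1 := prod_sub_prod_le D.J (fun j => T (D.P j) (D.t j) (ind (D.B m)))
      (fun j => V (D.P j) (ind (D.B m))) (fun j hj =>
        ⟨V_nonneg fun p _ => ind_bounds _ p, V_le_T (fun p _ => ind_bounds _ p) (D.even j hj)⟩)
    have h2 : ∑ j ∈ D.J, (T (D.P j) (D.t j) (ind (D.B m)) - V (D.P j) (ind (D.B m))) *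
        ∏ i ∈ D.J.erase j, T (D.P i) (D.t i) (ind (D.B m)) ≤
        ∑ j ∈ D.J, E (D.P j) (D.t j) (ind (D.B m)) *
        ∏ i ∈ D.J.erase j, T (D.P i) (D.t i) (ind (D.B m)) := by
      apply Finset.sum_le_sum
      intro j hj
      apply mul_le_mul_of_nonneg_right
      · have := T_sub_E_le (P := D.P j) (f := ind (D.B m)) (fun p _ => ind_bounds _ p) (D.even j hj)
        linarith
      · apply Finset.prod_nonneg
        intro i hi
        exact (V_nonneg fun p _ => ind_bounds _ p).trans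
          (V_le_T (fun p _ => ind_bounds _ p) (D.even i (Finset.mem_of_mem_erase hi)))
    linarith
  -- transfer for the main term
  have hmain := transfer D.J (fun j => small (D.P j) (D.t j)) (fun _ => sgn) D.P D.disj
    (fun j _ => small_sub _ _) (fun j _ S _ => sgn_abs S) D.Ω D.B D.X D.g D.ν D.ν_nonneg D.count
  -- transfer for the error terms
  have herr : ∀ j ∈ D.J, ∑ m ∈ D.Ω, E (D.P j) (D.t j) (ind (D.B m)) *
        ∏ i ∈ D.J.erase j, T (D.P i) (D.t i) (ind (D.B m)) ≤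
      D.X * (E (D.P j) (D.t j) D.g * ∏ i ∈ D.J.erase j, T (D.P i) (D.t i) D.g) + D.N := by
    intro j hj
    -- families
    set F : κ → Finset (Finset ι) := fun i =>
      if i = j then (D.P i).powersetCard (D.t i) else small (D.P i) (D.t i) with hF
    set c : κ → Finset ι → ℝ := fun i => if i = j then fun _ => 1 else sgn with hc
    have hprod : ∀ f : ι → ℝ, ∏ i ∈ D.J, ev (F i) (c i) f =
        E (D.P j) (D.t j) f * ∏ i ∈ D.J.erase j, T (D.P i) (D.t i) f := by
      intro f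
      rw [← Finset.mul_prod_erase _ _ hj]
      congr 1
      · simp [hF, hc, E]
      · apply Finset.prod_congr rfl
        intro i hi
        have hne : i ≠ j := Finset.ne_of_mem_erase hi
        simp [hF, hc, hne, T]
    have hsub : ∀ i, F i ⊆ small (D.P i) (D.t i) := by
      intro i S hS
      simp only [hF] at hS
      split_ifs at hS with h
      · unfold small
        rw [Finset.mem_filter, Finset.mem_powerset]
        rw [Finset.mem_powersetCard] at hS
        exact ⟨hS.1, hS.2.le⟩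
      · exact hS
    have h := transfer D.J F c D.P D.disj (fun i _ S hS => small_sub _ _ S (hsub i hS))
      (fun i _ S _ => by
        simp only [hc]
        split_ifs
        · simp
        · exact sgn_abs S) D.Ω D.B D.X D.g D.ν D.ν_nonneg D.count
    have h3 := (abs_le.mp h).2
    simp_rw [hprod] at h3
    have h4 : ∏ i ∈ D.J, ∑ S ∈ F i, ∏ p ∈ S, D.ν p ≤ D.N := by
      unfold N
      apply Finset.prod_le_prod
      · intro i hi
        apply Finset.sum_nonneg
        intro S hS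
        apply Finset.prod_nonneg
        intro p hp
        exact D.ν_nonneg i hi p (small_sub _ _ S (hsub i hS) hp)
      · intro i hi
        apply Finset.sum_le_sum_of_subset_of_nonneg (hsub i)
        intro S hS _
        apply Finset.prod_nonneg
        intro p hp
        exact D.ν_nonneg i hi p (small_sub _ _ S hS hp)
    linarith
  have h5 : ∑ m ∈ D.Ω, (∏ j ∈ D.J, T (D.P j) (D.t j) (ind (D.B m)) -
      ∑ j ∈ D.J, E (D.P j) (D.t j) (ind (D.B m)) *
        ∏ i ∈ D.J.erase j, T (D.P i) (D.t i) (ind (D.B m))) ≤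
      ∑ m ∈ D.Ω, ∏ j ∈ D.J, V (D.P j) (ind (D.B m)) := Finset.sum_le_sum hpt
  rw [Finset.sum_sub_distrib, Finset.sum_comm] at h5
  have h6 := Finset.sum_le_sum herr
  rw [Finset.sum_add_distrib, Finset.sum_const, nsmul_eq_mul, ← Finset.mul_sum] at h6
  have h7 := (abs_le.mp hmain).1
  have h8 : ∏ j ∈ D.J, ∑ S ∈ small (D.P j) (D.t j), ∏ p ∈ S, D.ν p = D.N := rfl
  rw [h8] at h7
  have h9 : ∀ m, ∏ j ∈ D.J, ev (small (D.P j) (D.t j)) sgn (ind (D.B m)) =
    ∏ j ∈ D.J, T (D.P j) (D.t j) (ind (D.B m)) := fun m => rfl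
  simp_rw [h9] at h7
  have h10 : ∏ j ∈ D.J, ev (small (D.P j) (D.t j)) sgn D.g =
    ∏ j ∈ D.J, T (D.P j) (D.t j) D.g := rfl
  rw [h10] at h7
  rw [mul_sub]
  linarith

/-- The full density. -/
def W : ℝ := ∏ j ∈ D.J, V (D.P j) D.g

variable {D} in
/-- Final form of the abstract sieve, when the truncation errors are small. -/
lemma main {ε : κ → ℝ} {η : ℝ} (hε0 : ∀ j ∈ D.J, 0 ≤ ε j)
    (hε : ∀ j ∈ D.J, E (D.P j) (D.t j) D.g ≤ ε j * V (D.P j) D.g)
    (hη : ∑ j ∈ D.J, ε j ≤ η) :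
    D.X * D.W * (1 - η * Real.exp η) - (D.J.card + 1) * D.N ≤
      ((good D.J D.P D.Ω D.B).card : ℝ) ∧
    ((good D.J D.P D.Ω D.B).card : ℝ) ≤ D.X * D.W * Real.exp η + D.N := by
  have hV0 : ∀ j ∈ D.J, 0 ≤ V (D.P j) D.g := fun j hj => V_nonneg (D.g_bd j hj)
  have hVT : ∀ j ∈ D.J, V (D.P j) D.g ≤ T (D.P j) (D.t j) D.g := fun j hj =>
    V_le_T (D.g_bd j hj) (D.even j hj)
  have hTV : ∀ j ∈ D.J, T (D.P j) (D.t j) D.g ≤ V (D.P j) D.g * Real.exp (ε j) := by
    intro j hj
    have h1 := T_sub_E_le (D.g_bd j hj) (D.even j hj)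
    have h2 := hε j hj
    have h3 := Real.add_one_le_exp (ε j)
    nlinarith [hV0 j hj]
  have hη0 : 0 ≤ η := (Finset.sum_nonneg hε0).trans hη
  have hW0 : 0 ≤ D.W := Finset.prod_nonneg hV0
  have hprodT : ∏ j ∈ D.J, T (D.P j) (D.t j) D.g ≤ D.W * Real.exp η := by
    calc ∏ j ∈ D.J, T (D.P j) (D.t j) D.g ≤ ∏ j ∈ D.J, (V (D.P j) D.g * Real.exp (ε j)) :=
          Finset.prod_le_prod (fun j hj => (hV0 j hj).trans (hVT j hj)) hTV
      _ = D.W * Real.exp (∑ j ∈ D.J, ε j) := by
          rw [Finset.prod_mul_distrib, Real.exp_sum]; rfl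
      _ ≤ D.W * Real.exp η := mul_le_mul_of_nonneg_left (Real.exp_le_exp.mpr hη) hW0
  have hWT : D.W ≤ ∏ j ∈ D.J, T (D.P j) (D.t j) D.g := Finset.prod_le_prod hV0 hVT
  have hsum : ∑ j ∈ D.J, E (D.P j) (D.t j) D.g * ∏ i ∈ D.J.erase j, T (D.P i) (D.t i) D.g ≤
      η * (D.W * Real.exp η) := by
    calc _ ≤ ∑ j ∈ D.J, ε j * (D.W * Real.exp η) := by
          apply Finset.sum_le_sum
          intro j hj
          have h1 : ∏ i ∈ D.J.erase j, T (D.P i) (D.t i) D.g ≤
              ∏ i ∈ D.J.erase j, (V (D.P i) D.g * Real.exp (ε i)) :=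
            Finset.prod_le_prod (fun i hi => (hV0 i (Finset.mem_of_mem_erase hi)).trans
              (hVT i (Finset.mem_of_mem_erase hi))) fun i hi => hTV i (Finset.mem_of_mem_erase hi)
          have h0 : 0 ≤ ∏ i ∈ D.J.erase j, T (D.P i) (D.t i) D.g :=
            Finset.prod_nonneg fun i hi => (hV0 i (Finset.mem_of_mem_erase hi)).trans
              (hVT i (Finset.mem_of_mem_erase hi))
          have h0' : 0 ≤ ∏ i ∈ D.J.erase j, V (D.P i) D.g :=
            Finset.prod_nonneg fun i hi => (hV0 i (Finset.mem_of_mem_erase hi))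
          rw [Finset.prod_mul_distrib, ← Real.exp_sum] at h1
          have h2 : Real.exp (∑ i ∈ D.J.erase j, ε i) ≤ Real.exp η := by
            apply Real.exp_le_exp.mpr
            refine le_trans ?_ hη
            exact Finset.sum_le_sum_of_subset_of_nonneg (Finset.erase_subset _ _)
              fun i hi _ => hε0 i hi
          calc E (D.P j) (D.t j) D.g * ∏ i ∈ D.J.erase j, T (D.P i) (D.t i) D.g
              ≤ (ε j * V (D.P j) D.g) * ((∏ i ∈ D.J.erase j, V (D.P i) D.g) *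
                Real.exp (∑ i ∈ D.J.erase j, ε i)) :=
                mul_le_mul (hε j hj) h1 h0 (mul_nonneg (hε0 j hj) (hV0 j hj))
            _ ≤ (ε j * V (D.P j) D.g) * ((∏ i ∈ D.J.erase j, V (D.P i) D.g) * Real.exp η) := by
                apply mul_le_mul_of_nonneg_left _ (mul_nonneg (hε0 j hj) (hV0 j hj))
                exact mul_le_mul_of_nonneg_left h2 h0'
            _ = ε j * ((V (D.P j) D.g * ∏ i ∈ D.J.erase j, V (D.P i) D.g) * Real.exp η) := by ring
            _ = ε j * (D.W * Real.exp η) := by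
                rw [Finset.mul_prod_erase D.J (fun j => V (D.P j) D.g) hj]; rfl
      _ = (∑ j ∈ D.J, ε j) * (D.W * Real.exp η) := by rw [Finset.sum_mul]
      _ ≤ η * (D.W * Real.exp η) := mul_le_mul_of_nonneg_right hη (by positivity)
  constructor
  · refine le_trans ?_ D.lower
    have : D.X * D.W * (1 - η * Real.exp η) ≤ D.X * (∏ j ∈ D.J, T (D.P j) (D.t j) D.g -
        ∑ j ∈ D.J, E (D.P j) (D.t j) D.g * ∏ i ∈ D.J.erase j, T (D.P i) (D.t i) D.g) := by
      rw [mul_assoc]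
      apply mul_le_mul_of_nonneg_left _ D.X_nonneg
      nlinarith
    linarith
  · refine D.upper.trans ?_
    have := mul_le_mul_of_nonneg_left hprodT D.X_nonneg
    nlinarith

end SieveData

end Pool.Agent.Lib.Helper57
end

-- from Lib.Helper57.Sieve
section

/-!
A fundamental lemma for the sieve of dimension `k`, uniform in `k`.
-/

open Finset

namespace Pool.Agent.Lib.Helper57









/-- Truncation levels. -/
def lev (k j : ℕ) : ℕ := 2 * (100 * k + j)








end Pool.Agent.Lib.Helper57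
end

-- from Lib.H15P.LV1
section

/-!
# Chunk LV1: the level norm
-/

open Finset

namespace Pool.Agent.Lib.H15P

variable {Q : ℕ}

theorem Lev.nonneg {G : ℕ → ℝ} {K : ℝ} (h : Lev Q G K) : 0 ≤ K := by
  induction h with
  | base g d c hd0 hd hper hc =>
    have hc0 : 0 ≤ c := le_trans (abs_nonneg _) (hc 0)
    positivity
  | add G G' K K' h h' ih ih' => exact add_nonneg ih ih'
  | mono G K K' h hK ih => exact ih.trans hK

theorem Lev.const (hQ : 0 < Q) (c : ℝ) : Lev Q (fun _ => c) |c| := by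
  have h := Lev.base (Q := Q) (fun _ => c) 1 |c| one_pos (one_dvd Q) (fun _ => rfl)
    (fun _ => le_rfl)
  exact Lev.mono _ _ _ h (by simp)

theorem Lev.const_mul {G : ℕ → ℝ} {K : ℝ} (h : Lev Q G K) (c : ℝ) :
    Lev Q (fun t => c * G t) (|c| * K) := by
  induction h with
  | base g d c' hd0 hd hper hc =>
    have h1 := Lev.base (Q := Q) (fun t => c * g t) d (|c| * c') hd0 hd
      (fun t => by simp only [hper t]) (fun t => by
        rw [abs_mul]
        exact mul_le_mul_of_nonneg_left (hc t) (abs_nonneg c))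
    exact Lev.mono _ _ _ h1 (by nlinarith)
  | add G G' K K' h h' ih ih' =>
    have h1 := Lev.add _ _ _ _ ih ih'
    have h2 : (fun t => c * G t + c * G' t) = fun t => c * (G t + G' t) := by
      funext t
      ring
    rw [h2] at h1
    exact Lev.mono _ _ _ h1 (by nlinarith)
  | mono G K K' h hK ih =>
    exact Lev.mono _ _ _ ih (mul_le_mul_of_nonneg_left hK (abs_nonneg c))

theorem lv1_mul_base {g : ℕ → ℝ} {d : ℕ} {c : ℝ} (hd0 : 0 < d) (hd : d ∣ Q)
    (hper : Function.Periodic g d) (hc : ∀ t, |g t| ≤ c) {G' : ℕ → ℝ} {K' : ℝ}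
    (h' : Lev Q G' K') : Lev Q (fun t => g t * G' t) (d * c * K') := by
  have hc0 : 0 ≤ c := le_trans (abs_nonneg _) (hc 0)
  induction h' with
  | base g' d' c' hd0' hd' hper' hc' =>
    have hc0' : 0 ≤ c' := le_trans (abs_nonneg _) (hc' 0)
    have hl : 0 < Nat.lcm d d' := Nat.lcm_pos hd0 hd0'
    have hl' : Nat.lcm d d' ∣ Q := Nat.lcm_dvd hd hd'
    have hp : Function.Periodic (fun t => g t * g' t) (Nat.lcm d d') := by
      intro t
      obtain ⟨k, hk⟩ := Nat.dvd_lcm_left d d'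
      obtain ⟨k', hk'⟩ := Nat.dvd_lcm_right d d'
      have h1 : g (t + Nat.lcm d d') = g t := by
        rw [hk, mul_comm]
        simpa using (hper.nat_mul k) t
      have h2 : g' (t + Nat.lcm d d') = g' t := by
        rw [hk', mul_comm]
        simpa using (hper'.nat_mul k') t
      show g (t + Nat.lcm d d') * g' (t + Nat.lcm d d') = g t * g' t
      rw [h1, h2]
    have h1 := Lev.base (Q := Q) (fun t => g t * g' t) (Nat.lcm d d') (c * c') hl hl' hp
      (fun t => by
        rw [abs_mul]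
        exact mul_le_mul (hc t) (hc' t) (abs_nonneg _) hc0)
    refine Lev.mono _ _ _ h1 ?_
    have h2 : ((Nat.lcm d d' : ℕ) : ℝ) ≤ d * d' := by
      exact_mod_cast Nat.le_of_dvd (Nat.mul_pos hd0 hd0') (Nat.lcm_dvd_mul d d')
    calc ((Nat.lcm d d' : ℕ) : ℝ) * (c * c') ≤ (d * d') * (c * c') :=
          mul_le_mul_of_nonneg_right h2 (mul_nonneg hc0 hc0')
      _ = d * c * (d' * c') := by ring
  | add G G' K K' h h' ih ih' =>
    have h1 := Lev.add _ _ _ _ ih ih'
    have h2 : (fun t => g t * G t + g t * G' t) = fun t => g t * (G t + G' t) := by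
      funext t
      ring
    rw [h2] at h1
    exact Lev.mono _ _ _ h1 (by nlinarith)
  | mono G K K' h hK ih =>
    exact Lev.mono _ _ _ ih (mul_le_mul_of_nonneg_left hK (by positivity))

/-- Double induction; the product of functions with periods `d, d' ∣ Q` has the period
`lcm d d' ∣ Q`, `lcm d d' ≤ d d'`. -/
theorem Lev.mul (hQ : 0 < Q) {G G' : ℕ → ℝ} {K K' : ℝ} (h : Lev Q G K) (h' : Lev Q G' K') :
    Lev Q (fun t => G t * G' t) (K * K') := by
  have hK0' := h'.nonneg
  induction h with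
  | base g d c hd0 hd hper hc => exact lv1_mul_base hd0 hd hper hc h'
  | add G1 G2 K1 K2 h1 h2 ih1 ih2 =>
    have h3 := Lev.add _ _ _ _ ih1 ih2
    have h4 : (fun t => G1 t * G' t + G2 t * G' t) = fun t => (G1 t + G2 t) * G' t := by
      funext t
      ring
    rw [h4] at h3
    exact Lev.mono _ _ _ h3 (by nlinarith)
  | mono G K1 K2 h hK ih =>
    exact Lev.mono _ _ _ ih (mul_le_mul_of_nonneg_right hK hK0')

theorem Lev.sum {α : Type} (s : Finset α) (G : α → ℕ → ℝ) (K : α → ℝ)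
    (hQ : 0 < Q) (h : ∀ a ∈ s, Lev Q (G a) (K a)) :
    Lev Q (fun t => ∑ a ∈ s, G a t) (∑ a ∈ s, K a) := by
  classical
  induction s using Finset.induction_on with
  | empty =>
    have h1 := Lev.const hQ 0
    rw [abs_zero] at h1
    simpa using h1
  | insert a s ha ih =>
    have h1 := Lev.add _ _ _ _ (h a (Finset.mem_insert_self a s))
      (ih fun b hb => h b (Finset.mem_insert_of_mem hb))
    rw [Finset.sum_insert ha]
    have h2 : (fun t => ∑ b ∈ insert a s, G b t) = fun t => G a t + ∑ b ∈ s, G b t := by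
      funext t
      rw [Finset.sum_insert ha]
    rw [h2]
    exact h1

theorem Lev.prod {α : Type} (s : Finset α) (G : α → ℕ → ℝ) (K : α → ℝ)
    (hQ : 0 < Q) (h : ∀ a ∈ s, Lev Q (G a) (K a)) :
    Lev Q (fun t => ∏ a ∈ s, G a t) (∏ a ∈ s, K a) := by
  classical
  induction s using Finset.induction_on with
  | empty =>
    have h1 := Lev.const hQ 1
    rw [abs_one] at h1
    simpa using h1
  | insert a s ha ih =>
    have h1 := Lev.mul hQ (h a (Finset.mem_insert_self a s))
      (ih fun b hb => h b (Finset.mem_insert_of_mem hb))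
    rw [Finset.prod_insert ha]
    have h2 : (fun t => ∏ b ∈ insert a s, G b t) = fun t => G a t * ∏ b ∈ s, G b t := by
      funext t
      rw [Finset.prod_insert ha]
    rw [h2]
    exact h1

theorem Lev.pow (hQ : 0 < Q) {G : ℕ → ℝ} {K : ℝ} (h : Lev Q G K) (n : ℕ) :
    Lev Q (fun t => G t ^ n) (K ^ n) := by
  have h1 := Lev.prod (Finset.range n) (fun _ => G) (fun _ => K) hQ (fun _ _ => h)
  simpa using h1

theorem lv1_range_mul (d : ℕ) (g : ℕ → ℝ) (hg : Function.Periodic g d) (k : ℕ) :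
    ∑ t ∈ range (k * d), g t = k * ∑ t ∈ range d, g t := by
  rw [← H56G.crt_sum_Icc_mul d g hg k]
  have h1 : Function.Periodic g (k * d) := by
    have := hg.nat_mul k
    simpa using this
  rw [← H56G.crt_sum_Icc_period (k * d) g h1 1]

theorem lv1_avg_base {g : ℕ → ℝ} {d : ℕ} {c : ℝ} (hQ : 0 < Q) (hd0 : 0 < d) (hd : d ∣ Q)
    (hper : Function.Periodic g d) (hc : ∀ t, |g t| ≤ c) (a Y : ℕ) :
    |∑ t ∈ Ico a (a + Y), g t - Y * ((∑ t ∈ range Q, g t) / Q)| ≤ 2 * (d * c) := by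
  have hF : Function.Periodic (fun t => g (t + (a + (d - 1)))) d := by
    intro t
    show g (t + d + (a + (d - 1))) = g (t + (a + (d - 1)))
    have h1 : t + d + (a + (d - 1)) = t + (a + (d - 1)) + d := by ring
    rw [h1]
    exact hper _
  have h := H56G.abs_sum_Icc_sub_le d hd0 (fun t => g (t + (a + (d - 1)))) hF c
    (fun t => hc _) Y
  have h1 : ∑ t ∈ Icc 1 Y, g (t + (a + (d - 1))) = ∑ t ∈ Ico a (a + Y), g t := by
    have h2 : Ico a (a + Y) = (range Y).image (fun t => t + a) := by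
      ext t
      simp only [Finset.mem_Ico, Finset.mem_image, Finset.mem_range]
      constructor
      · rintro ⟨h3, h4⟩
        exact ⟨t - a, by omega, by omega⟩
      · rintro ⟨u, h3, rfl⟩
        omega
    have h3 : Icc 1 Y = (range Y).image (fun t => t + 1) := by
      ext t
      simp only [Finset.mem_Icc, Finset.mem_image, Finset.mem_range]
      constructor
      · rintro ⟨h3, h4⟩
        exact ⟨t - 1, by omega, by omega⟩
      · rintro ⟨u, h3, rfl⟩
        omega
    rw [h2, h3, Finset.sum_image (fun x _ y _ h => by simpa using h),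
      Finset.sum_image (fun x _ y _ h => by simpa using h)]
    apply Finset.sum_congr rfl
    intro t _
    have h4 : t + 1 + (a + (d - 1)) = t + a + d := by omega
    rw [h4]
    exact hper _
  have h2 : ∑ t ∈ range d, g (t + (a + (d - 1))) = ∑ t ∈ range d, g t := by
    rw [← H56G.crt_sum_Icc_period d g hper (a + (d - 1))]
    have h3 : Ico (a + (d - 1)) (a + (d - 1) + d) =
        (range d).image (fun t => t + (a + (d - 1))) := by
      ext t
      simp only [Finset.mem_Ico, Finset.mem_image, Finset.mem_range]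
      constructor
      · rintro ⟨h3, h4⟩
        exact ⟨t - (a + (d - 1)), by omega, by omega⟩
      · rintro ⟨u, h3, rfl⟩
        omega
    rw [h3, Finset.sum_image (fun x _ y _ h => by simpa using h)]
  obtain ⟨k, hk⟩ := hd
  have hk0 : 0 < k := by
    rcases Nat.eq_zero_or_pos k with h3 | h3
    · subst h3
      omega
    · exact h3
  have h3 : (∑ t ∈ range Q, g t) / (Q : ℝ) = (∑ t ∈ range d, g t) / d := by
    rw [hk, mul_comm d k, lv1_range_mul d g hper k]
    push_cast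
    have hk' : (k : ℝ) ≠ 0 := by exact_mod_cast hk0.ne'
    have hd' : (d : ℝ) ≠ 0 := by exact_mod_cast hd0.ne'
    field_simp
  rw [h1, h2] at h
  rw [h3]
  refine h.trans (le_of_eq ?_)
  ring

/-- Incomplete sums. Each term `g` (period `d`, `|g| ≤ c`) contributes at most `2 d c`:
`H56G.abs_sum_Icc_sub_le` for the translate `t ↦ g (t + a - 1)` (or directly), and the mean value
over `range Q` is the mean value over `range d` as `d ∣ Q`. Induction over `Lev`. -/
theorem Lev.avg (hQ : 0 < Q) {G : ℕ → ℝ} {K : ℝ} (h : Lev Q G K) (a Y : ℕ) :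
    |∑ t ∈ Ico a (a + Y), G t - Y * ((∑ t ∈ range Q, G t) / Q)| ≤ 2 * K := by
  induction h with
  | base g d c hd0 hd hper hc => exact lv1_avg_base hQ hd0 hd hper hc a Y
  | add G G' K K' h h' ih ih' =>
    have h1 : ∑ t ∈ Ico a (a + Y), (G t + G' t) -
        Y * ((∑ t ∈ range Q, (G t + G' t)) / Q) =
        (∑ t ∈ Ico a (a + Y), G t - Y * ((∑ t ∈ range Q, G t) / Q)) +
        (∑ t ∈ Ico a (a + Y), G' t - Y * ((∑ t ∈ range Q, G' t) / Q)) := by
      rw [Finset.sum_add_distrib, Finset.sum_add_distrib]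
      ring
    rw [h1]
    refine (abs_add_le _ _).trans ?_
    linarith
  | mono G K K' h hK ih => linarith

end Pool.Agent.Lib.H15P
end

-- from Lib.H15P.PB3
section

/-!
# Chunk PB3: sums over labelings, Chernoff bound
-/

open Finset

namespace Pool.Agent.Lib.H15P

variable {J : Type} [Fintype J] [DecidableEq J]

/-- `Σ_l ∏_j a (l j)` over the `l : J → Ω` which are `ω0` outside `B` is
`∏_{j ∈ B} (Σ_ω a ω) ∏_{j ∉ B} a ω0` (`Finset.prod_univ_sum` with the sets `univ` (`j ∈ B`) and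
`{ω0}` (`j ∉ B`)). -/
theorem sum_supp {Ω : Type} [Fintype Ω] [DecidableEq Ω] (ω0 : Ω) (a : Ω → ℝ) (h0 : a ω0 = 1)
    (B : Finset J) :
    ∑ l ∈ univ.filter (fun l : J → Ω => ∀ j, j ∉ B → l j = ω0), ∏ j, a (l j)
      = (∑ ω, a ω) ^ B.card := by
  classical
  set t : J → Finset Ω := fun j => if j ∈ B then univ else {ω0} with ht
  have h1 : univ.filter (fun l : J → Ω => ∀ j, j ∉ B → l j = ω0) = Fintype.piFinset t := by
    ext l
    simp only [mem_filter, mem_univ, true_and, Fintype.mem_piFinset, ht]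
    constructor
    · intro h j
      by_cases hj : j ∈ B
      · rw [if_pos hj]; exact mem_univ _
      · rw [if_neg hj, mem_singleton]; exact h j hj
    · intro h j hj
      have := h j
      rw [if_neg hj, mem_singleton] at this
      exact this
  rw [h1, ← Finset.prod_univ_sum t (fun _ ω => a ω)]
  have h2 : ∀ j, ∑ ω ∈ t j, a ω = if j ∈ B then ∑ ω, a ω else 1 := by
    intro j
    by_cases hj : j ∈ B
    · simp only [ht, if_pos hj]
    · simp only [ht, if_neg hj, sum_singleton, h0]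
  rw [Finset.prod_congr rfl (fun j _ => h2 j), Finset.prod_ite_mem, Finset.univ_inter,
    Finset.prod_const]

variable {I : Type} [Fintype I] [DecidableEq I]

omit [DecidableEq J] [Fintype I] in
theorem pb3_exp_cnt (l : J → Option I) (i0 : I) (e : ℝ) :
    ∏ j, (if l j = some i0 then e else 1) = e ^ cnt l i0 := by
  unfold cnt
  rw [Finset.prod_ite, Finset.prod_const, Finset.prod_const_one, mul_one]


end Pool.Agent.Lib.H15P
end

-- from Lib.H15P.PB6
section

/-!
# Chunk PB6: the fourth moment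
-/

open Finset

namespace Pool.Agent.Lib.H15P

variable {ι J I : Type} [Fintype ι] [DecidableEq ι] [Fintype J] [DecidableEq J]
  [Fintype I] [DecidableEq I]

theorem pb6_abs_ex_le (q : ι → ℝ) (h0 : ∀ i, 0 ≤ q i) (h1 : ∀ i, q i ≤ 1) (F G : Finset ι → ℝ)
    (h : ∀ A, |F A| ≤ G A) : |ex q F| ≤ ex q G := by
  unfold ex
  refine (Finset.abs_sum_le_sum_abs _ _).trans (Finset.sum_le_sum (fun A _ => ?_))
  rw [abs_mul, abs_of_nonneg (bw_nonneg q h0 h1 A)]
  exact mul_le_mul_of_nonneg_right (h A) (bw_nonneg q h0 h1 A)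


theorem pb6_two (a b : ℝ) : |a| * |b| ≤ (1 / 2) * a ^ 2 + (1 / 2) * b ^ 2 := by
  have h := sq_nonneg (|a| - |b|)
  have ha := sq_abs a
  have hb := sq_abs b
  nlinarith

theorem pb6_three (a b c : ℝ) :
    |a| * |b| * |c| ≤ (1 / 2) * a ^ 2 + ((1 / 4) * b ^ 4 + (1 / 4) * c ^ 4) := by
  have h := sq_nonneg (|a| - |b| * |c|)
  have h2 := sq_nonneg (b ^ 2 - c ^ 2)
  have ha := sq_abs a
  have hbc : (|b| * |c|) ^ 2 = b ^ 2 * c ^ 2 := by
    rw [mul_pow, sq_abs, sq_abs]
  nlinarith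

theorem pb6_four (a b c d : ℝ) :
    |a| * |b| * |c| * |d| ≤ ((1 / 4) * a ^ 4 + (1 / 4) * b ^ 4) +
      ((1 / 4) * c ^ 4 + (1 / 4) * d ^ 4) := by
  have h := sq_nonneg (|a| * |b| - |c| * |d|)
  have h2 := sq_nonneg (a ^ 2 - b ^ 2)
  have h3 := sq_nonneg (c ^ 2 - d ^ 2)
  have hab : (|a| * |b|) ^ 2 = a ^ 2 * b ^ 2 := by
    rw [mul_pow, sq_abs, sq_abs]
  have hcd : (|c| * |d|) ^ 2 = c ^ 2 * d ^ 2 := by
    rw [mul_pow, sq_abs, sq_abs]
  nlinarith







end Pool.Agent.Lib.H15P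
end

-- from Lib.H92G.Defs
section

/-!
# H92G: definitions

Weights with form dependent one form functions. `ι` = index type of the primes, `J` = index type of
the forms `b j + M t`, `I` = labels. `ex`, `EX`, `bw`, `cnt`, `adm`, `hit`, `qq`, `Forms`, `EP`,
`Lev`, `LevS` are those of `Lib/H15P/Defs`; `PC`, `p0`, `v` those of `Lib/H68T/Defs`.
-/

open Finset

namespace Pool.Agent.Lib.H92G

open Pool.Agent.Lib.H15P

/-! ## Weights (Part II) -/

/-- Factor of the form `j` with the label `o`. -/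
noncomputable def dg {ι J I : Type} (D : J → I → Finset ι → ℝ) (j : J) :
    Option I → Finset ι → ℝ
  | none, _ => 1
  | some i, A => D j i A

/-- Sum over the labelings of `s` with coefficients `w`. -/
noncomputable def LW {ι J I : Type} [Fintype J] (D : J → I → Finset ι → ℝ)
    (s : Finset (J → Option I)) (w : (J → Option I) → ℝ) (S : J → Finset ι) : ℝ :=
  ∑ l ∈ s, w l * ∏ j, dg D j (l j) (S j)

/-- The weight function (before squaring). -/
noncomputable def LG {ι J I : Type} [Fintype J] [DecidableEq J] [Fintype I] [DecidableEq I]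
    (D : J → I → Finset ι → ℝ) (m : I → ℕ) (B : Finset J) (S : J → Finset ι) : ℝ :=
  LW D (adm B m) (fun _ => 1) S

/-- Second moments of the factors of the form `j`. -/
noncomputable def GJ {ι J I : Type} [Fintype ι] [DecidableEq ι] (q : ι → ℝ)
    (D : J → I → Finset ι → ℝ) (j : J) : Option I → ℝ
  | none => 1
  | some i => ex q (fun A => D j i A ^ 2)

/-- Total weight of all labelings of `B`. -/
noncomputable def ZG {ι J I : Type} [Fintype ι] [DecidableEq ι] [Fintype I] (q : ι → ℝ)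
    (D : J → I → Finset ι → ℝ) (B : Finset J) : ℝ :=
  ∏ j ∈ B, (1 + ∑ i, GJ q D j (some i))

/-- The hypotheses on the one form functions `D j i` (some of them may be `0`). -/
structure GoodJ {ι J I : Type} [Fintype ι] [DecidableEq ι] (q : ι → ℝ)
    (D : J → I → Finset ι → ℝ) (h : ℝ) : Prop where
  q0 : ∀ i, 0 ≤ q i
  q1 : ∀ i, q i ≤ 1
  mean : ∀ j i, ex q (D j i) = 0
  orth : ∀ j i i', i ≠ i' → ex q (fun A => D j i A * D j i' A) = 0
  sq : ∀ j i, ex q (fun A => D j i A ^ 2) ≤ h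
  fourth : ∀ j i, ex q (fun A => D j i A ^ 4) ≤ h

/-- Coefficient of the labeling `l` (outside `Z`) if no prime divides the forms of `Z`: sum over
the labelings `o` of `Z` such that `l` and `o` together are admissible. -/
noncomputable def wZ {ι J I : Type} [Fintype J] [DecidableEq J] [Fintype I] [DecidableEq I]
    (D : J → I → Finset ι → ℝ) (m : I → ℕ) (Z : Finset J) (l : J → Option I) : ℝ :=
  ∑ o ∈ univ.filter (fun o : J → Option I => (∀ j, j ∉ Z → o j = none) ∧
      ∀ i, cnt l i + cnt o i ≤ m i), ∏ j ∈ Z, dg D j (o j) ∅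




/-- Mean value over the `t` for which no prime of `P` divides `b + M t`. -/
noncomputable def EU (P : Finset ℕ) (M b : ℕ) (G : ℕ → ℝ) : ℝ :=
  (∑ t ∈ (range (∏ p ∈ P, p)).filter (fun t => (b + M * t).Coprime (∏ p ∈ P, p)), G t) /
    ((∏ p ∈ P, p).totient : ℝ)




end Pool.Agent.Lib.H92G
end

-- from Lib.H92G.G2
section

/-!
# Chunk G2: the fourth moment

Compare `H15P/PB6` (`EX_LL_four_le`).
-/

open Finset

namespace Pool.Agent.Lib.H92G

open Pool.Agent.Lib.H15P

variable {ι J I : Type} [Fintype ι] [DecidableEq ι] [Fintype J] [DecidableEq J] [Fintype I]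
  [DecidableEq I]

omit [Fintype J] [DecidableEq J] [Fintype I] [DecidableEq I] in
theorem g2_L1 (q : ι → ℝ) (D : J → I → Finset ι → ℝ) (h : ℝ) (hg : GoodJ q D h)
    (hh : 0 ≤ h) (j : J) (i : I) : |ex q (fun A => D j i A)| ≤ h := by
  have e : ex q (fun A => D j i A) = 0 := hg.mean j i
  rw [e, abs_zero]
  exact hh

omit [Fintype J] [DecidableEq J] [Fintype I] [DecidableEq I] in
theorem g2_L2 (q : ι → ℝ) (D : J → I → Finset ι → ℝ) (h : ℝ) (hg : GoodJ q D h)
    (j : J) (i i' : I) : |ex q (fun A => D j i A * D j i' A)| ≤ h := by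
  refine (pb6_abs_ex_le q hg.q0 hg.q1 _ (fun A => (1 / 2) * D j i A ^ 2 + (1 / 2) * D j i' A ^ 2)
    (fun A => ?_)).trans ?_
  · rw [abs_mul]
    exact pb6_two _ _
  · rw [ex_add, ex_const_mul, ex_const_mul]
    have h1 := hg.sq j i
    have h2 := hg.sq j i'
    linarith

omit [Fintype J] [DecidableEq J] [Fintype I] [DecidableEq I] in
theorem g2_L3 (q : ι → ℝ) (D : J → I → Finset ι → ℝ) (h : ℝ) (hg : GoodJ q D h)
    (j : J) (i i' i'' : I) : |ex q (fun A => D j i A * D j i' A * D j i'' A)| ≤ h := by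
  refine (pb6_abs_ex_le q hg.q0 hg.q1 _ (fun A => (1 / 2) * D j i A ^ 2 +
    ((1 / 4) * D j i' A ^ 4 + (1 / 4) * D j i'' A ^ 4)) (fun A => ?_)).trans ?_
  · rw [abs_mul, abs_mul]
    exact pb6_three _ _ _
  · rw [ex_add, ex_const_mul, ex_add, ex_const_mul, ex_const_mul]
    have h1 := hg.sq j i
    have h2 := hg.fourth j i'
    have h3 := hg.fourth j i''
    linarith

omit [Fintype J] [DecidableEq J] [Fintype I] [DecidableEq I] in
theorem g2_L4 (q : ι → ℝ) (D : J → I → Finset ι → ℝ) (h : ℝ) (hg : GoodJ q D h)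
    (j : J) (i i' i'' i''' : I) :
    |ex q (fun A => D j i A * D j i' A * D j i'' A * D j i''' A)| ≤ h := by
  refine (pb6_abs_ex_le q hg.q0 hg.q1 _ (fun A => ((1 / 4) * D j i A ^ 4 +
    (1 / 4) * D j i' A ^ 4) + ((1 / 4) * D j i'' A ^ 4 + (1 / 4) * D j i''' A ^ 4))
    (fun A => ?_)).trans ?_
  · rw [abs_mul, abs_mul, abs_mul]
    exact pb6_four _ _ _ _
  · rw [ex_add, ex_add, ex_const_mul, ex_const_mul, ex_add, ex_const_mul, ex_const_mul]
    have h1 := hg.fourth j i
    have h2 := hg.fourth j i'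
    have h3 := hg.fourth j i''
    have h4 := hg.fourth j i'''
    linarith

omit [Fintype J] [DecidableEq J] [Fintype I] [DecidableEq I] in
/-- Moments of products of at most four factors of the same form, not all of them trivial. One
factor: mean `0`. Two, three, four factors: `|ab| ≤ (a^2 + b^2)/2`, `|abc| ≤ (a^2 + (bc)^2)/2`,
`(bc)^2 ≤ (b^4 + c^4)/2`, `|abcd| ≤ (a^4 + b^4 + c^4 + d^4)/4` (`pb6_two`, `pb6_three`,
`pb6_four`). -/
theorem abs_ex_four_leJ (q : ι → ℝ) (D : J → I → Finset ι → ℝ) (h : ℝ) (hg : GoodJ q D h)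
    (hh : 0 ≤ h) (j : J) (o : Fin 4 → Option I) (ho : ∃ k, o k ≠ none) :
    |ex q (fun A => ∏ k, dg D j (o k) A)| ≤ h := by
  simp only [Fin.prod_univ_four]
  rcases h0 : o 0 with _ | i0 <;> rcases h1 : o 1 with _ | i1 <;>
    rcases h2 : o 2 with _ | i2 <;> rcases h3 : o 3 with _ | i3 <;>
    simp only [dg, one_mul, mul_one]
  · exfalso
    obtain ⟨k, hk⟩ := ho
    fin_cases k
    · exact hk h0
    · exact hk h1
    · exact hk h2
    · exact hk h3
  · exact g2_L1 q D h hg hh j i3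
  · exact g2_L1 q D h hg hh j i2
  · exact g2_L2 q D h hg j i2 i3
  · exact g2_L1 q D h hg hh j i1
  · exact g2_L2 q D h hg j i1 i3
  · exact g2_L2 q D h hg j i1 i2
  · exact g2_L3 q D h hg j i1 i2 i3
  · exact g2_L1 q D h hg hh j i0
  · exact g2_L2 q D h hg j i0 i3
  · exact g2_L2 q D h hg j i0 i2
  · exact g2_L3 q D h hg j i0 i2 i3
  · exact g2_L2 q D h hg j i0 i1
  · exact g2_L3 q D h hg j i0 i1 i3
  · exact g2_L3 q D h hg j i0 i1 i2
  · exact g2_L4 q D h hg j i0 i1 i2 i3


end Pool.Agent.Lib.H92G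
end

-- from Lib.H92G.G0
section

/-!
# Chunk G0: sums over labelings with form dependent factors, tails

Compare `H15P/PB3` (`sum_supp`, `tail_supp`: the same with factors independent of the form).
-/

open Finset

namespace Pool.Agent.Lib.H92G

open Pool.Agent.Lib.H15P

variable {J I : Type} [Fintype J] [DecidableEq J] [Fintype I] [DecidableEq I]

/-- `Finset.prod_univ_sum` with the sets `univ` (`j ∈ B`) and `{none}` (`j ∉ B`). -/
theorem sum_suppJ (a : J → Option I → ℝ) (h0 : ∀ j, a j none = 1) (B : Finset J) :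
    ∑ l ∈ univ.filter (fun l : J → Option I => ∀ j, j ∉ B → l j = none), ∏ j, a j (l j)
      = ∏ j ∈ B, (1 + ∑ i, a j (some i)) := by
  classical
  set t : J → Finset (Option I) := fun j => if j ∈ B then univ else {none} with ht
  have h1 : univ.filter (fun l : J → Option I => ∀ j, j ∉ B → l j = none) =
      Fintype.piFinset t := by
    ext l
    simp only [mem_filter, mem_univ, true_and, Fintype.mem_piFinset, ht]
    constructor
    · intro h j
      by_cases hj : j ∈ B
      · rw [if_pos hj]; exact mem_univ _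
      · rw [if_neg hj, mem_singleton]; exact h j hj
    · intro h j hj
      have := h j
      rw [if_neg hj, mem_singleton] at this
      exact this
  rw [h1, ← Finset.prod_univ_sum t (fun j o => a j o)]
  have h2 : ∀ j, ∑ o ∈ t j, a j o = if j ∈ B then (1 + ∑ i, a j (some i)) else 1 := by
    intro j
    by_cases hj : j ∈ B
    · simp only [ht, if_pos hj]
      rw [Fintype.sum_option, h0]
    · simp only [ht, if_neg hj, sum_singleton, h0]
  rw [Finset.prod_congr rfl (fun j _ => h2 j), Finset.prod_ite_mem, Finset.univ_inter]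

/-- Chernoff: `1[m0 ≤ cnt l i0] ≤ e^(cnt l i0 - m0)` and `e^(cnt l i0) = ∏_j (e if l j = some i0
else 1)` (`pb3_exp_cnt`), so by `sum_suppJ` the sum is at most
`e^(-m0) ∏_{j ∈ B} (1 + ∑_i a_j i + (e - 1) a_j i0)
 ≤ e^(-m0) ∏_{j ∈ B} (1 + ∑_i a_j i) e^(2 a_j i0)`. -/
theorem tail_suppJ (a : J → Option I → ℝ) (ha : ∀ j o, 0 ≤ a j o) (h0 : ∀ j, a j none = 1)
    (B : Finset J) (i0 : I) (m0 : ℕ) (R : ℝ)
    (hm : 2 * ∑ j ∈ B, a j (some i0) + R ≤ m0) :
    ∑ l ∈ univ.filter (fun l : J → Option I => (∀ j, j ∉ B → l j = none) ∧ m0 ≤ cnt l i0),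
        ∏ j, a j (l j)
      ≤ Real.exp (-R) * ∏ j ∈ B, (1 + ∑ i, a j (some i)) := by
  classical
  set e : ℝ := Real.exp 1 with he
  have he2 : e - 1 ≤ 2 := by
    have := Real.exp_one_lt_d9
    rw [he]; linarith
  have he1 : 1 ≤ e := by
    rw [he]; exact Real.one_le_exp (by norm_num)
  set a' : J → Option I → ℝ := fun j o => a j o * (if o = some i0 then e else 1) with ha'
  have hprod : ∀ l : J → Option I, ∏ j, a' j (l j) = (∏ j, a j (l j)) * e ^ cnt l i0 := by
    intro l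
    simp only [ha']
    rw [Finset.prod_mul_distrib, pb3_exp_cnt]
  have hP0 : ∀ l : J → Option I, 0 ≤ ∏ j, a j (l j) := fun l =>
    Finset.prod_nonneg (fun j _ => ha _ _)
  have hexp : ∀ n : ℕ, e ^ n = Real.exp n := by
    intro n
    rw [he, ← Real.exp_nat_mul, mul_one]
  have step1 : ∑ l ∈ univ.filter (fun l : J → Option I => (∀ j, j ∉ B → l j = none) ∧
        m0 ≤ cnt l i0), ∏ j, a j (l j)
      ≤ ∑ l ∈ univ.filter (fun l : J → Option I => ∀ j, j ∉ B → l j = none),
        Real.exp (-(m0 : ℝ)) * ∏ j, a' j (l j) := by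
    calc ∑ l ∈ univ.filter (fun l : J → Option I => (∀ j, j ∉ B → l j = none) ∧
          m0 ≤ cnt l i0), ∏ j, a j (l j)
        ≤ ∑ l ∈ univ.filter (fun l : J → Option I => (∀ j, j ∉ B → l j = none) ∧
          m0 ≤ cnt l i0), Real.exp (-(m0 : ℝ)) * ∏ j, a' j (l j) := by
          apply Finset.sum_le_sum
          intro l hl
          have hl2 := (Finset.mem_filter.1 hl).2.2
          rw [hprod, hexp]
          have h1 : 1 ≤ Real.exp (-(m0 : ℝ)) * Real.exp (cnt l i0) := by
            rw [← Real.exp_add]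
            apply Real.one_le_exp
            have : (m0 : ℝ) ≤ cnt l i0 := by exact_mod_cast hl2
            linarith
          calc ∏ j, a j (l j) = 1 * ∏ j, a j (l j) := by ring
            _ ≤ (Real.exp (-(m0 : ℝ)) * Real.exp (cnt l i0)) * ∏ j, a j (l j) :=
                mul_le_mul_of_nonneg_right h1 (hP0 l)
            _ = _ := by ring
      _ ≤ ∑ l ∈ univ.filter (fun l : J → Option I => ∀ j, j ∉ B → l j = none),
            Real.exp (-(m0 : ℝ)) * ∏ j, a' j (l j) := by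
          apply Finset.sum_le_sum_of_subset_of_nonneg
          · intro l hl
            have := (Finset.mem_filter.1 hl).2.1
            exact Finset.mem_filter.2 ⟨Finset.mem_univ _, this⟩
          · intro l _ _
            rw [hprod]
            exact mul_nonneg (Real.exp_pos _).le
              (mul_nonneg (hP0 l) (pow_nonneg (by linarith) _))
  refine step1.trans ?_
  rw [← Finset.mul_sum, sum_suppJ a' (fun j => by simp [ha', h0]) B]
  have hsum : ∀ j, 1 + ∑ i, a' j (some i) = 1 + ∑ i, a j (some i) + (e - 1) * a j (some i0) := by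
    intro j
    have h2 : ∀ i, a' j (some i) = a j (some i) +
        (if i = i0 then (e - 1) * a j (some i0) else 0) := by
      intro i
      by_cases hi : i = i0
      · subst hi
        simp only [ha', if_true]
        ring
      · have : ¬ ((some i : Option I) = some i0) := fun h => hi (Option.some_inj.1 h)
        simp only [ha', if_neg hi, if_neg this]
        ring
    rw [Finset.sum_congr rfl (fun i _ => h2 i), Finset.sum_add_distrib,
      Finset.sum_ite_eq' univ i0 (fun _ => (e - 1) * a j (some i0)), if_pos (Finset.mem_univ _)]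
    ring
  have h3 : ∏ j ∈ B, (1 + ∑ i, a' j (some i)) ≤
      (∏ j ∈ B, (1 + ∑ i, a j (some i))) * Real.exp (2 * ∑ j ∈ B, a j (some i0)) := by
    rw [Finset.mul_sum, Real.exp_sum, ← Finset.prod_mul_distrib]
    apply Finset.prod_le_prod
    · intro j _
      have : 0 ≤ ∑ i, a' j (some i) := by
        apply Finset.sum_nonneg
        intro i _
        simp only [ha']
        have := ha j (some i)
        split_ifs
        · positivity
        · positivity
      linarith
    · intro j _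
      rw [hsum]
      have hS1 : 1 ≤ 1 + ∑ i, a j (some i) := by
        have : 0 ≤ ∑ i, a j (some i) := Finset.sum_nonneg (fun i _ => ha _ _)
        linarith
      set S : ℝ := 1 + ∑ i, a j (some i) with hS
      set α := a j (some i0) with hα
      have hα0 : 0 ≤ α := ha _ _
      have h4 : (e - 1) * α ≤ 2 * α := mul_le_mul_of_nonneg_right he2 hα0
      calc S + (e - 1) * α ≤ S * (1 + 2 * α) := by nlinarith
        _ ≤ S * Real.exp (2 * α) := by
            apply mul_le_mul_of_nonneg_left _ (by linarith)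
            rw [add_comm]
            exact Real.add_one_le_exp _
  have hP : 0 ≤ ∏ j ∈ B, (1 + ∑ i, a j (some i)) := by
    apply Finset.prod_nonneg
    intro j _
    have : 0 ≤ ∑ i, a j (some i) := Finset.sum_nonneg (fun i _ => ha _ _)
    linarith
  calc Real.exp (-(m0 : ℝ)) * ∏ j ∈ B, (1 + ∑ i, a' j (some i))
      ≤ Real.exp (-(m0 : ℝ)) * ((∏ j ∈ B, (1 + ∑ i, a j (some i))) *
          Real.exp (2 * ∑ j ∈ B, a j (some i0))) :=
        mul_le_mul_of_nonneg_left h3 (Real.exp_pos _).le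
    _ = Real.exp (-(m0 : ℝ) + 2 * ∑ j ∈ B, a j (some i0)) *
          ∏ j ∈ B, (1 + ∑ i, a j (some i)) := by
        rw [Real.exp_add]
        ring
    _ ≤ Real.exp (-R) * ∏ j ∈ B, (1 + ∑ i, a j (some i)) := by
        apply mul_le_mul_of_nonneg_right _ hP
        apply Real.exp_le_exp.2
        linarith

/-- Union bound: the labelings with a saturated label (`m i ≤ cnt l i` for some `i`) are removed. -/
theorem sum_unsat_ge (a : J → Option I → ℝ) (ha : ∀ j o, 0 ≤ a j o) (h0 : ∀ j, a j none = 1)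
    (B : Finset J) (m : I → ℕ) (R : I → ℝ)
    (hm : ∀ i, 2 * ∑ j ∈ B, a j (some i) + R i ≤ m i) :
    (1 - ∑ i, Real.exp (-R i)) * ∏ j ∈ B, (1 + ∑ i, a j (some i)) ≤
      ∑ l ∈ univ.filter (fun l : J → Option I => (∀ j, j ∉ B → l j = none) ∧
        ∀ i, cnt l i < m i), ∏ j, a j (l j) := by
  classical
  have hP0 : ∀ l : J → Option I, 0 ≤ ∏ j, a j (l j) := fun l =>
    Finset.prod_nonneg (fun j _ => ha _ _)
  have h1 : ∑ l ∈ univ.filter (fun l : J → Option I => ∀ j, j ∉ B → l j = none), ∏ j, a j (l j) ≤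
      ∑ l ∈ univ.filter (fun l : J → Option I => (∀ j, j ∉ B → l j = none) ∧
        ∀ i, cnt l i < m i), ∏ j, a j (l j) +
      ∑ i, ∑ l ∈ univ.filter (fun l : J → Option I => (∀ j, j ∉ B → l j = none) ∧
        m i ≤ cnt l i), ∏ j, a j (l j) := by
    have e1 : ∑ i, ∑ l ∈ univ.filter (fun l : J → Option I => (∀ j, j ∉ B → l j = none) ∧
        m i ≤ cnt l i), ∏ j, a j (l j) =
        ∑ l ∈ univ.filter (fun l : J → Option I => ∀ j, j ∉ B → l j = none),
          ∑ i, if m i ≤ cnt l i then ∏ j, a j (l j) else 0 := by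
      rw [Finset.sum_comm]
      apply Finset.sum_congr rfl
      intro i _
      rw [← Finset.sum_filter, Finset.filter_filter]
    have e2 : ∑ l ∈ univ.filter (fun l : J → Option I => (∀ j, j ∉ B → l j = none) ∧
        ∀ i, cnt l i < m i), ∏ j, a j (l j) =
        ∑ l ∈ univ.filter (fun l : J → Option I => ∀ j, j ∉ B → l j = none),
          if ∀ i, cnt l i < m i then ∏ j, a j (l j) else 0 := by
      rw [← Finset.sum_filter, Finset.filter_filter]
    rw [e1, e2, ← Finset.sum_add_distrib]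
    apply Finset.sum_le_sum
    intro l _
    by_cases hl : ∀ i, cnt l i < m i
    · rw [if_pos hl]
      have : 0 ≤ ∑ i, if m i ≤ cnt l i then ∏ j, a j (l j) else 0 := by
        apply Finset.sum_nonneg
        intro i _
        split_ifs
        · exact hP0 l
        · exact le_rfl
      linarith
    · rw [if_neg hl, zero_add]
      push Not at hl
      obtain ⟨i, hi⟩ := hl
      have h2 := Finset.single_le_sum (f := fun i => if m i ≤ cnt l i then ∏ j, a j (l j) else 0)
        (fun i _ => by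
          show 0 ≤ if m i ≤ cnt l i then ∏ j, a j (l j) else 0
          split_ifs
          · exact hP0 l
          · exact le_rfl) (mem_univ i)
      simp only [if_pos hi] at h2
      exact h2
  have h2 : ∑ i, ∑ l ∈ univ.filter (fun l : J → Option I => (∀ j, j ∉ B → l j = none) ∧
        m i ≤ cnt l i), ∏ j, a j (l j) ≤
      ∑ i, Real.exp (-R i) * ∏ j ∈ B, (1 + ∑ i, a j (some i)) :=
    Finset.sum_le_sum fun i _ => tail_suppJ a ha h0 B i (m i) (R i) (hm i)
  rw [sum_suppJ a h0 B] at h1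
  rw [← Finset.sum_mul] at h2
  rw [sub_mul, one_mul]
  linarith

end Pool.Agent.Lib.H92G
end

-- from Lib.H92G.G3
section

/-!
# Chunk G3: configurations where no prime divides the forms of `Z`
-/

open Finset

namespace Pool.Agent.Lib.H92G

open Pool.Agent.Lib.H15P

variable {ι J I : Type} [Fintype J] [DecidableEq J] [Fintype I] [DecidableEq I]

omit [DecidableEq J] [Fintype I] in
theorem g3_cnt (Z : Finset J) (L l o : J → Option I) (h1 : ∀ j ∈ Z, l j = none)
    (h2 : ∀ j, j ∉ Z → l j = L j) (h3 : ∀ j ∈ Z, o j = L j) (h4 : ∀ j, j ∉ Z → o j = none) (i : I) :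
    cnt L i = cnt l i + cnt o i := by
  classical
  unfold cnt
  rw [← Finset.card_union_of_disjoint]
  · congr 1
    ext j
    simp only [mem_union, mem_filter, mem_univ, true_and]
    by_cases hj : j ∈ Z
    · rw [h1 j hj, h3 j hj]
      simp
    · rw [h2 j hj, h4 j hj]
      simp
  · rw [Finset.disjoint_left]
    intro j hj hj'
    simp only [mem_filter, mem_univ, true_and] at hj hj'
    by_cases hjZ : j ∈ Z
    · rw [h1 j hjZ] at hj
      simp at hj
    · rw [h4 j hjZ] at hj'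
      simp at hj'

/-- A labeling `L ∈ adm B m` is the same as a pair (`l` = `L` outside `Z`, `none` in `Z`; `o` = `L`
in `Z`, `none` outside `Z`) with `l` supported in `B \ Z`, `o` supported in `Z` and
`cnt L = cnt l + cnt o ≤ m`; then `l ∈ adm (B \ Z) m`. The product over all `j` of the factors of `L`
is the product of the factors of `l` over all `j` (`1` on `Z`) times the product of the factors of
`o` over `Z`, where `S j = ∅`. -/
theorem LG_restrict (D : J → I → Finset ι → ℝ) (m : I → ℕ) (B Z : Finset J) (hZ : Z ⊆ B)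
    (S : J → Finset ι) (hS : ∀ j ∈ Z, S j = ∅) :
    LG D m B S = LW D (adm (B \ Z) m) (wZ D m Z) S := by
  classical
  unfold LG LW wZ
  simp only [one_mul]
  have e1 : ∀ l : J → Option I, (∑ o ∈ univ.filter (fun o : J → Option I =>
      (∀ j, j ∉ Z → o j = none) ∧ ∀ i, cnt l i + cnt o i ≤ m i), ∏ j ∈ Z, dg D j (o j) ∅) *
      ∏ j, dg D j (l j) (S j) =
      ∑ o ∈ univ.filter (fun o : J → Option I =>
      (∀ j, j ∉ Z → o j = none) ∧ ∀ i, cnt l i + cnt o i ≤ m i),
        (∏ j ∈ Z, dg D j (o j) ∅) * ∏ j, dg D j (l j) (S j) := fun l => Finset.sum_mul _ _ _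
  rw [Finset.sum_congr rfl (fun l _ => e1 l), Finset.sum_sigma']
  refine Finset.sum_bij' (fun L _ => ⟨fun j => if j ∈ Z then none else L j,
    fun j => if j ∈ Z then L j else none⟩) (fun p _ => fun j => if j ∈ Z then p.2 j else p.1 j)
    ?_ ?_ ?_ ?_ ?_
  · intro L hL
    unfold adm at hL
    rw [mem_filter] at hL
    have hc := fun i => g3_cnt Z L (fun j => if j ∈ Z then none else L j)
      (fun j => if j ∈ Z then L j else none) (fun j hj => if_pos hj) (fun j hj => if_neg hj)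
      (fun j hj => if_pos hj) (fun j hj => if_neg hj) i
    rw [mem_sigma]
    constructor
    · unfold adm
      rw [mem_filter]
      refine ⟨mem_univ _, ?_, ?_⟩
      · intro j hj
        show (if j ∈ Z then none else L j) = none
        by_cases hjZ : j ∈ Z
        · rw [if_pos hjZ]
        · rw [if_neg hjZ]
          apply hL.2.1
          intro hjB
          exact hj (mem_sdiff.2 ⟨hjB, hjZ⟩)
      · intro i
        have := hL.2.2 i
        rw [hc i] at this
        show cnt (fun j => if j ∈ Z then none else L j) i ≤ m i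
        omega
    · rw [mem_filter]
      refine ⟨mem_univ _, fun j hj => if_neg hj, ?_⟩
      intro i
      have := hL.2.2 i
      rw [hc i] at this
      exact this
  · rintro ⟨l, o⟩ hp
    rw [mem_sigma] at hp
    obtain ⟨hl, ho⟩ := hp
    simp only at hl ho
    unfold adm at hl
    rw [mem_filter] at hl ho
    have hl0 : ∀ j ∈ Z, l j = none := fun j hj => hl.2.1 j (fun h => (mem_sdiff.1 h).2 hj)
    have hc := fun i => g3_cnt Z (fun j => if j ∈ Z then o j else l j) l o hl0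
      (fun j hj => (if_neg hj).symm) (fun j hj => (if_pos hj).symm) ho.2.1 i
    unfold adm
    rw [mem_filter]
    refine ⟨mem_univ _, ?_, ?_⟩
    · intro j hj
      show (if j ∈ Z then o j else l j) = none
      have hjZ : j ∉ Z := fun h => hj (hZ h)
      rw [if_neg hjZ]
      exact hl.2.1 j (fun h => hj (mem_sdiff.1 h).1)
    · intro i
      show cnt (fun j => if j ∈ Z then o j else l j) i ≤ m i
      rw [hc i]
      exact ho.2.2 i
  · intro L hL
    funext j
    show (if j ∈ Z then (if j ∈ Z then L j else none) else (if j ∈ Z then none else L j)) = L j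
    by_cases hj : j ∈ Z
    · rw [if_pos hj, if_pos hj]
    · rw [if_neg hj, if_neg hj]
  · rintro ⟨l, o⟩ hp
    rw [mem_sigma] at hp
    obtain ⟨hl, ho⟩ := hp
    simp only at hl ho
    unfold adm at hl
    rw [mem_filter] at hl ho
    have hl0 : ∀ j ∈ Z, l j = none := fun j hj => hl.2.1 j (fun h => (mem_sdiff.1 h).2 hj)
    have e2 : (fun j => if j ∈ Z then none else if j ∈ Z then o j else l j) = l := by
      funext j
      by_cases hj : j ∈ Z
      · rw [if_pos hj, hl0 j hj]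
      · rw [if_neg hj, if_neg hj]
    have e3 : (fun j => if j ∈ Z then (if j ∈ Z then o j else l j) else none) = o := by
      funext j
      by_cases hj : j ∈ Z
      · rw [if_pos hj, if_pos hj]
      · rw [if_neg hj, ho.2.1 j hj]
    simp only [e2, e3]
  · intro L hL
    show ∏ j, dg D j (L j) (S j) = (∏ j ∈ Z, dg D j (if j ∈ Z then L j else none) ∅) *
      ∏ j, dg D j (if j ∈ Z then none else L j) (S j)
    rw [← Finset.prod_mul_prod_compl Z (fun j => dg D j (L j) (S j)),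
      ← Finset.prod_mul_prod_compl Z (fun j => dg D j (if j ∈ Z then none else L j) (S j))]
    have a1 : ∏ j ∈ Z, dg D j (if j ∈ Z then none else L j) (S j) = 1 := by
      apply Finset.prod_eq_one
      intro j hj
      rw [if_pos hj]
      rfl
    have a2 : ∏ j ∈ Zᶜ, dg D j (if j ∈ Z then none else L j) (S j) =
        ∏ j ∈ Zᶜ, dg D j (L j) (S j) := by
      apply Finset.prod_congr rfl
      intro j hj
      rw [if_neg (mem_compl.1 hj)]
    have a3 : ∏ j ∈ Z, dg D j (if j ∈ Z then L j else none) ∅ =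
        ∏ j ∈ Z, dg D j (L j) (S j) := by
      apply Finset.prod_congr rfl
      intro j hj
      rw [if_pos hj, hS j hj]
    rw [a1, a2, a3, one_mul]

/-- If the values `D j i ∅` are nonnegative (`j ∈ Z`), all terms are nonnegative and the sum is at
most the sum over all labelings `o` supported in `Z`, which is the product
(`Finset.prod_univ_sum`, compare `sum_suppJ` in `G0`). -/
theorem wZ_bounds (D : J → I → Finset ι → ℝ) (m : I → ℕ) (Z : Finset J) (l : J → Option I)
    (hD : ∀ j ∈ Z, ∀ i, 0 ≤ D j i ∅) :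
    0 ≤ wZ D m Z l ∧ wZ D m Z l ≤ ∏ j ∈ Z, (1 + ∑ i, D j i ∅) := by
  classical
  have h0 : ∀ o : J → Option I, 0 ≤ ∏ j ∈ Z, dg D j (o j) ∅ := by
    intro o
    apply Finset.prod_nonneg
    intro j hj
    cases o j with
    | none => exact zero_le_one
    | some i => exact hD j hj i
  unfold wZ
  constructor
  · exact Finset.sum_nonneg fun o _ => h0 o
  · have h1 := sum_suppJ (fun j o => dg D j o ∅) (fun j => rfl) Z
    have h2 : ∏ j ∈ Z, (1 + ∑ i, D j i ∅) =
        ∑ o ∈ univ.filter (fun o : J → Option I => ∀ j, j ∉ Z → o j = none),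
          ∏ j ∈ Z, dg D j (o j) ∅ := by
      refine h1.symm.trans ?_
      apply Finset.sum_congr rfl
      intro o ho
      rw [mem_filter] at ho
      rw [← Finset.prod_mul_prod_compl Z (fun j => dg D j (o j) ∅)]
      have : ∏ j ∈ Zᶜ, dg D j (o j) ∅ = 1 := by
        apply Finset.prod_eq_one
        intro j hj
        rw [ho.2 j (mem_compl.1 hj)]
        rfl
      rw [this, mul_one]
    rw [h2]
    apply Finset.sum_le_sum_of_subset_of_nonneg
    · intro o ho
      rw [mem_filter] at ho ⊢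
      exact ⟨ho.1, ho.2.1⟩
    · intro o _ _
      exact h0 o

/-- One form: the labelings `o` of `{j0}` are `none` and the labels `i` with `cnt l i < m i`. -/
theorem wZ_single (D : J → I → Finset ι → ℝ) (m : I → ℕ) (j0 : J) (l : J → Option I)
    (hl : ∀ i, cnt l i ≤ m i) :
    wZ D m {j0} l = 1 + ∑ i ∈ univ.filter (fun i => cnt l i < m i), D j0 i ∅ := by
  classical
  set φ : Option I → (J → Option I) := fun x => Function.update (fun _ => none) j0 x with hφ
  have hφi : Function.Injective φ := by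
    intro x y h
    have := congrFun h j0
    simpa [hφ] using this
  have hcnt : ∀ (x : Option I) (i : I), cnt (φ x) i = if x = some i then 1 else 0 := by
    intro x i
    unfold cnt
    by_cases hx : x = some i
    · rw [if_pos hx]
      have : univ.filter (fun j => φ x j = some i) = {j0} := by
        ext j
        rw [mem_filter, mem_singleton]
        constructor
        · rintro ⟨_, h⟩
          by_contra hj
          rw [hφ] at h
          simp only [Function.update_of_ne hj] at h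
          simp at h
        · intro h
          subst h
          refine ⟨mem_univ _, ?_⟩
          rw [hφ]
          simp only [Function.update_self]
          exact hx
      rw [this, card_singleton]
    · rw [if_neg hx]
      rw [Finset.card_eq_zero, Finset.filter_eq_empty_iff]
      intro j _ h
      by_cases hj : j = j0
      · subst hj
        rw [hφ] at h
        simp only [Function.update_self] at h
        exact hx h
      · rw [hφ] at h
        simp only [Function.update_of_ne hj] at h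
        simp at h
  have hset : univ.filter (fun o : J → Option I => (∀ j, j ∉ ({j0} : Finset J) → o j = none) ∧
      ∀ i, cnt l i + cnt o i ≤ m i) =
      (univ.filter (fun x : Option I => ∀ i, x = some i → cnt l i < m i)).image φ := by
    ext o
    rw [mem_filter, mem_image]
    constructor
    · rintro ⟨_, h1, h2⟩
      have e : φ (o j0) = o := by
        funext j
        by_cases hj : j = j0
        · subst hj
          rw [hφ]
          simp only [Function.update_self]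
        · rw [hφ]
          simp only [Function.update_of_ne hj]
          exact (h1 j (by rw [mem_singleton]; exact hj)).symm
      refine ⟨o j0, ?_, e⟩
      rw [mem_filter]
      refine ⟨mem_univ _, ?_⟩
      intro i hi
      have h3 := h2 i
      rw [← e, hcnt, if_pos hi] at h3
      omega
    · rintro ⟨x, hx, rfl⟩
      rw [mem_filter] at hx
      refine ⟨mem_univ _, ?_, ?_⟩
      · intro j hj
        rw [mem_singleton] at hj
        rw [hφ]
        simp only [Function.update_of_ne hj]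
      · intro i
        rw [hcnt]
        by_cases h : x = some i
        · rw [if_pos h]
          exact hx.2 i h
        · rw [if_neg h, add_zero]
          exact hl i
  unfold wZ
  rw [hset, Finset.sum_image (fun a _ b _ h => hφi h), Finset.sum_filter, Fintype.sum_option]
  congr 1
  · rw [if_pos (by intro i hi; simp at hi), Finset.prod_singleton]
    rw [hφ]
    simp only [Function.update_self]
    rfl
  · rw [Finset.sum_filter]
    apply Finset.sum_congr rfl
    intro i _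
    have hiff : (∀ i', (some i : Option I) = some i' → cnt l i' < m i') ↔ cnt l i < m i := by
      constructor
      · intro h
        exact h i rfl
      · intro h i' hi'
        rw [← Option.some_inj.1 hi']
        exact h
    by_cases h : cnt l i < m i
    · rw [if_pos (hiff.2 h), if_pos h, Finset.prod_singleton]
      rw [hφ]
      simp only [Function.update_self]
      rfl
    · rw [if_neg (fun h' => h (hiff.1 h')), if_neg h]

end Pool.Agent.Lib.H92G
end

-- from Lib.H92G.WG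
section

/-!
# The data of the weights for one value of `x`, the weight `nu`, the classes
-/

open Finset

namespace Pool.Agent.Lib.H92G

open Pool.Agent.Lib.H15P

/-- All data of the weight function and the inequalities between them. `KA` = bound for the number
of allowed forms, `K` = bound for the number of all forms. Allowed forms (`true`) use the labels
`inl i`, disallowed forms (`false`) the labels `inr i`. -/
structure WG where
  P : Finset ℕ
  W : ℕ
  KA : ℕ
  K : ℕ
  nA : ℕ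
  nD : ℕ
  DJ : Bool → (Fin nA ⊕ Fin nD) → Finset {p // p ∈ P} → ℝ
  m : (Fin nA ⊕ Fin nD) → ℕ
  R : (Fin nA ⊕ Fin nD) → ℝ
  lm : Finset {p // p ∈ P} → ℝ
  cA : ℝ
  h : ℝ
  C : ℝ
  lv : ℝ
  e : ℝ
  el : ℝ
  prime : ∀ p ∈ P, p.Prime
  big : ∀ p ∈ P, W < p
  nDpos : 0 < nD
  Kpos : 1 ≤ K
  KW : 4 * K ^ 2 ≤ W
  cA0 : 0 ≤ cA
  good : GoodJ (qq P K) DJ h
  h0 : 0 ≤ h
  trl : ∀ i, DJ true (Sum.inl i) ∅ = cA
  trr : ∀ i A, DJ true (Sum.inr i) A = 0
  fll : ∀ i A, DJ false (Sum.inl i) A = 0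
  flr : ∀ i, DJ false (Sum.inr i) ∅ = -1 / (nD : ℝ)
  hm : ∀ i, 2 * (KA * GJ (qq P K) DJ true (some i) + K * GJ (qq P K) DJ false (some i)) + R i
    ≤ m i
  hR : ∑ i, Real.exp (-R i) ≤ 1 / 4
  hG : ∀ a, ∑ i, GJ (qq P K) DJ a (some i) ≤ 1
  lm0 : ∀ A, 0 ≤ lm A
  lm1 : lm ∅ = 1
  lmel : ex (qq P K) lm ≤ el
  el0 : 0 < el
  el1 : el ≤ 1
  e0 : 0 < e
  e1 : e ≤ 1 / 10
  hlm : K * (∑ i : Fin nD, Real.exp (-R (Sum.inr i))) * el ≤ e
  hC : Real.exp ((((nA + nD : ℕ) : ℝ) + 1) ^ 4 * h * K) ≤ C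
  hKW : Real.exp (2 * (K : ℝ) ^ 2 / W) ≤ 1 + e
  lv1 : 1 ≤ lv
  levL : ∀ (J : Type) [Fintype J] [DecidableEq J] (al : J → Bool) (B : Finset J) (M : ℕ)
    (b : J → ℕ) (wt : (J → Option (Fin nA ⊕ Fin nD)) → ℝ),
    Fintype.card J ≤ K → (∀ l, |wt l| ≤ 1) →
      Lev (∏ p ∈ P, p)
        (fun t => LW (fun j => DJ (al j)) (adm B m) wt (fun j => hit P (b j + M * t))) lv
  levlm : LevS P lm lv

/-- The factors of the forms `b + M t`, `b ∈ B`, if the elements of `A` are allowed. -/
def WG.Df (w : WG) (A B : Finset ℕ) :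
    {b // b ∈ B} → (Fin w.nA ⊕ Fin w.nD) → Finset {p // p ∈ w.P} → ℝ :=
  fun j => w.DJ (decide (j.1 ∈ A))

/-- The weight at `t` of the system of the forms `b + M t`, `b ∈ B`. -/
noncomputable def WG.nu (w : WG) (A B : Finset ℕ) (M t : ℕ) : ℝ :=
  LG (w.Df A B) w.m univ (fun j : {b // b ∈ B} => hit w.P (j.1 + M * t)) ^ 2 /
    ZG (qq w.P w.K) (w.Df A B) univ

/-- The value `1 + nA cA`: the gain at a prime of an allowed form. -/
noncomputable def WG.g (w : WG) : ℝ := 1 + w.nA * w.cA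

/-- Hypotheses on a system of forms. -/
structure WG.Sys (w : WG) (A B : Finset ℕ) (M : ℕ) : Prop where
  AB : A ⊆ B
  cardA : A.card ≤ w.KA
  cardB : B.card ≤ w.K
  dist : ∀ b ∈ B, ∀ b' ∈ B, b ≤ b' + w.W
  cop : ∀ p ∈ w.P, ¬ p ∣ M

/-- Hypothesis on the length of the sums. -/
def WG.Long (w : WG) (Y : ℕ) : Prop := 8 * w.K * w.g ^ 4 * w.lv ^ 4 ≤ w.e * w.el ^ 2 * Y

end Pool.Agent.Lib.H92G
end

-- from Lib.Helper57.PairCount
section

/-!
# Counting primes and pairs of primes in short intervals, and moments of `h / φ(h)`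
-/

namespace Pool.Agent.Lib.Helper57

open Finset Pool.Agent.Lib.Sieve

/-- `h / φ(h)`, written as a product over the prime factors. -/
noncomputable def G (h : ℕ) : ℝ := ∏ p ∈ h.primeFactors, (1 - 1 / (p : ℝ))⁻¹

lemma inv_one_sub_ge_one {p : ℕ} (hp : 2 ≤ p) : 1 ≤ (1 - 1 / (p : ℝ))⁻¹ := by
  have hp2 : (2 : ℝ) ≤ p := by exact_mod_cast hp
  have h2 : (1 : ℝ) / p ≤ 1 / 2 := one_div_le_one_div_of_le (by norm_num) hp2
  have h3 : 0 < 1 - 1 / (p : ℝ) := by linarith
  rw [one_le_inv₀ h3]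
  have : (0 : ℝ) ≤ 1 / p := by positivity
  linarith


lemma moment_le (k N : ℕ) (hk : 1 ≤ k) :
    ∑ h ∈ Finset.Icc 1 N, G h ^ k ≤ 3 * (N * (500 * Real.log (2 * k : ℕ)) ^ k) := by
  have hk' : (1 : ℝ) ≤ k := by exact_mod_cast hk
  set f : ℕ → ℝ := fun p => if p.Prime then ((1 - 1 / (p : ℝ))⁻¹) ^ k - 1 else 0 with hf
  have hf0 : ∀ p, 0 ≤ f p := by
    intro p
    simp only [hf]
    split_ifs with hp
    · have := one_le_pow₀ (n := k) (inv_one_sub_ge_one hp.two_le)
      linarith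
    · exact le_rfl
  have h1 : ∀ h ∈ Finset.Icc 1 N, G h ^ k = ∏ p ∈ h.primeFactors, (1 + f p) := by
    intro h _
    unfold G
    rw [← Finset.prod_pow]
    apply Finset.prod_congr rfl
    intro p hp
    have := Nat.prime_of_mem_primeFactors hp
    simp only [hf, if_pos this]
    ring
  rw [Finset.sum_congr rfl h1]
  refine (sum_prod_primeFactors_le f hf0 N).trans ?_
  -- split the primes at `2 k`
  have h2 : ∏ p ∈ primesUpTo N, (1 + f p / p) =
      (∏ p ∈ (primesUpTo N).filter (fun p => p ≤ 2 * k), (1 + f p / p)) *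
      ∏ p ∈ (primesUpTo N).filter (fun p => ¬ p ≤ 2 * k), (1 + f p / p) :=
    (Finset.prod_filter_mul_prod_filter_not _ _ _).symm
  have h3 : ∏ p ∈ (primesUpTo N).filter (fun p => p ≤ 2 * k), (1 + f p / p) ≤
      (500 * Real.log (2 * k : ℕ)) ^ k := by
    calc ∏ p ∈ (primesUpTo N).filter (fun p => p ≤ 2 * k), (1 + f p / p)
        ≤ ∏ p ∈ primesUpTo (2 * k), (1 + f p / p) := by
          apply Finset.prod_le_prod_of_subset_of_one_le
          · intro p hp
            rw [mem_filter, mem_primesUpTo] at hp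
            rw [mem_primesUpTo]
            exact ⟨hp.1.1, hp.2⟩
          · intro p _
            have := hf0 p
            positivity
          · intro p _ _
            have := hf0 p
            have : 0 ≤ f p / p := by positivity
            linarith
      _ ≤ ∏ p ∈ primesUpTo (2 * k), ((1 - 1 / (p : ℝ))⁻¹) ^ k := by
          apply Finset.prod_le_prod
          · intro p _
            have := hf0 p
            positivity
          · intro p hp
            have hpp := (mem_primesUpTo.mp hp).1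
            have hp1 : (1 : ℝ) ≤ p := by exact_mod_cast hpp.one_le
            have h4 : f p / p ≤ f p := div_le_self (hf0 p) hp1
            have h5 : f p = ((1 - 1 / (p : ℝ))⁻¹) ^ k - 1 := by simp only [hf, if_pos hpp]
            linarith
      _ = (∏ p ∈ primesUpTo (2 * k), (1 - 1 / (p : ℝ))⁻¹) ^ k := Finset.prod_pow _ _ _
      _ ≤ (500 * Real.log (2 * k : ℕ)) ^ k := by
          apply pow_le_pow_left₀
          · apply Finset.prod_nonneg
            intro p hp
            exact zero_le_one.trans (inv_one_sub_ge_one (mem_primesUpTo.mp hp).1.two_le)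
          · exact prod_one_sub_inv_inv_le (2 * k) (by omega)
  have h4 : ∏ p ∈ (primesUpTo N).filter (fun p => ¬ p ≤ 2 * k), (1 + f p / p) ≤ 3 := by
    calc ∏ p ∈ (primesUpTo N).filter (fun p => ¬ p ≤ 2 * k), (1 + f p / p)
        ≤ ∏ p ∈ (primesUpTo N).filter (fun p => ¬ p ≤ 2 * k),
            Real.exp (2 * k * (1 / (p : ℝ) ^ 2)) := by
          apply Finset.prod_le_prod
          · intro p _
            have := hf0 p
            positivity
          · intro p hp
            rw [mem_filter, mem_primesUpTo] at hp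
            obtain ⟨⟨hpp, _⟩, hpk⟩ := hp
            push Not at hpk
            have hpk' : (2 * k : ℝ) < p := by exact_mod_cast hpk
            have hp0 : (0 : ℝ) < p := by exact_mod_cast hpp.pos
            -- Bernoulli
            have h5 : 1 - k / (p : ℝ) ≤ (1 - 1 / (p : ℝ)) ^ k := by
              have h6 : (1 : ℝ) / p ≤ 1 := by
                rw [div_le_one hp0]; linarith
              have := one_add_mul_le_pow (a := -(1 / (p : ℝ))) (by linarith) k
              calc 1 - k / (p : ℝ) = 1 + k * (-(1 / (p : ℝ))) := by ring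
                _ ≤ (1 + -(1 / (p : ℝ))) ^ k := this
                _ = _ := by ring_nf
            have h6 : (k : ℝ) / p ≤ 1 / 2 := by
              rw [div_le_div_iff₀ hp0 (by norm_num)]; linarith
            have h7 : 0 < 1 - (k : ℝ) / p := by linarith
            have h8 : ((1 - 1 / (p : ℝ))⁻¹) ^ k ≤ 1 + 2 * (k / p) := by
              rw [inv_pow]
              calc ((1 - 1 / (p : ℝ)) ^ k)⁻¹ ≤ (1 - (k : ℝ) / p)⁻¹ := by
                    apply inv_anti₀ h7 h5
                _ ≤ 1 + 2 * (k / p) := by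
                    rw [inv_le_iff_one_le_mul₀ h7]
                    have : 0 ≤ (k : ℝ) / p := by positivity
                    nlinarith
            have h9 : f p ≤ 2 * (k / p) := by
              have : f p = ((1 - 1 / (p : ℝ))⁻¹) ^ k - 1 := by simp only [hf, if_pos hpp]
              linarith
            calc 1 + f p / p ≤ 1 + 2 * k * (1 / (p : ℝ) ^ 2) := by
                  have : f p / p ≤ 2 * (k / p) / p := by gcongr
                  have h10 : 2 * ((k : ℝ) / p) / p = 2 * k * (1 / (p : ℝ) ^ 2) := by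
                    field_simp
                  linarith
              _ ≤ _ := by
                  have := Real.add_one_le_exp (2 * k * (1 / (p : ℝ) ^ 2))
                  linarith
      _ = Real.exp (2 * k * ∑ p ∈ (primesUpTo N).filter (fun p => ¬ p ≤ 2 * k),
            1 / (p : ℝ) ^ 2) := by
          rw [← Real.exp_sum, Finset.mul_sum]
      _ ≤ Real.exp 1 := by
          apply Real.exp_le_exp.mpr
          have h5 := sum_inv_sq_primes_le ((primesUpTo N).filter (fun p => ¬ p ≤ 2 * k)) (2 * k)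
            (by omega) (fun p hp => by
              have := (mem_filter.mp hp).2
              omega)
          push_cast at h5
          calc 2 * (k : ℝ) * ∑ p ∈ (primesUpTo N).filter (fun p => ¬ p ≤ 2 * k), 1 / (p : ℝ) ^ 2
              ≤ 2 * k * (1 / (2 * k)) := by gcongr
            _ = 1 := by field_simp
      _ ≤ 3 := by linarith [Real.exp_one_lt_d9]
  rw [h2]
  have hlog : 0 ≤ Real.log (2 * k : ℕ) := Real.log_natCast_nonneg _
  calc (N : ℝ) * ((∏ p ∈ (primesUpTo N).filter (fun p => p ≤ 2 * k), (1 + f p / p)) *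
      ∏ p ∈ (primesUpTo N).filter (fun p => ¬ p ≤ 2 * k), (1 + f p / p))
      ≤ N * ((500 * Real.log (2 * k : ℕ)) ^ k * 3) := by
        gcongr
        apply Finset.prod_nonneg
        intro p _
        have := hf0 p
        positivity
    _ = _ := by ring













end Pool.Agent.Lib.Helper57
end

-- from Lib.H92G.CDefs
section

/-!
# Definitions for the second half: the modulus, the classes, the allowed intervals
-/

open Finset

namespace Pool.Agent.Lib.H92G

open Pool.Agent.Lib.H15P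


/-- The numbers `a + h`, `h ∈ S`, which are prime to `M`. -/
def Ac (M : ℕ) (S : Finset ℕ) (a : ℕ) : Finset ℕ :=
  (S.filter (fun h => (a + h).Coprime M)).image (fun h => a + h)

/-- `h/φ(h)` for the difference of two elements. -/
noncomputable def Gd (h h' : ℕ) : ℝ := Helper57.G (Nat.dist h h')


/-- The class of `a` is good: not too many forms, `S` = allowed shifts. -/
def okc (w : WG) (M H : ℕ) (S : Finset ℕ) (a : ℕ) : Prop :=
  (Ac M S a).card ≤ w.KA ∧ (Ac M (Icc 1 H) a).card ≤ w.K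

instance (w : WG) (M H : ℕ) (S : Finset ℕ) (a : ℕ) : Decidable (okc w M H S a) := by
  unfold okc; infer_instance


/-- `n + h` is prime to `M` and to the primes of `P`. -/
def rg (w : WG) (M n h : ℕ) : Prop := (n + h).Coprime M ∧ hit w.P (n + h) = ∅

instance (w : WG) (M n h : ℕ) : Decidable (rg w M n h) := by
  unfold rg; infer_instance








end Pool.Agent.Lib.H92G
end

-- from Lib.H92G.G1
section

/-!
# Chunk G1: second moments

Compare `H15P/PB2` (`ex_dd_dd`, `EX_sq_mul`).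
-/

open Finset

namespace Pool.Agent.Lib.H92G

open Pool.Agent.Lib.H15P

variable {ι J I : Type} [Fintype ι] [DecidableEq ι] [Fintype J] [DecidableEq J] [Fintype I]
  [DecidableEq I]

omit [Fintype J] [DecidableEq J] [Fintype I] in
/-- Mean `0`, orthogonality. -/
theorem ex_dg_dg (q : ι → ℝ) (D : J → I → Finset ι → ℝ) (h : ℝ) (hg : GoodJ q D h) (j : J)
    (o o' : Option I) :
    ex q (fun A => dg D j o A * dg D j o' A) = if o = o' then GJ q D j o else 0 := by
  rcases o with _ | i <;> rcases o' with _ | i'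
  · simp only [dg, mul_one, if_true, GJ]
    exact ex_one q
  · simp only [dg, one_mul, reduceCtorEq, if_false]
    exact hg.mean j i'
  · simp only [dg, mul_one, reduceCtorEq, if_false]
    exact hg.mean j i
  · simp only [dg, Option.some.injEq, GJ]
    by_cases hii : i = i'
    · subst hii
      rw [if_pos rfl]
      congr 1
      funext A
      ring
    · rw [if_neg hii]
      exact hg.orth j i i' hii

omit [Fintype J] [DecidableEq J] [Fintype I] [DecidableEq I] in
theorem GJ_nonneg (q : ι → ℝ) (D : J → I → Finset ι → ℝ) (h : ℝ) (hg : GoodJ q D h) (j : J)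
    (o : Option I) : 0 ≤ GJ q D j o := by
  rcases o with _ | i
  · exact zero_le_one
  · exact ex_nonneg q hg.q0 hg.q1 _ fun A => sq_nonneg _

omit [DecidableEq I] in
theorem one_le_ZG (q : ι → ℝ) (D : J → I → Finset ι → ℝ) (h : ℝ) (hg : GoodJ q D h)
    (B : Finset J) : 1 ≤ ZG q D B := by
  unfold ZG
  have h1 : ∀ j ∈ B, (1 : ℝ) ≤ 1 + ∑ i, GJ q D j (some i) := by
    intro j _
    have : 0 ≤ ∑ i, GJ q D j (some i) := Finset.sum_nonneg fun i _ => GJ_nonneg q D h hg j _
    linarith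
  calc (1 : ℝ) = ∏ _j ∈ B, 1 := Finset.prod_const_one.symm
    _ ≤ ∏ j ∈ B, (1 + ∑ i, GJ q D j (some i)) :=
        Finset.prod_le_prod (fun _ _ => zero_le_one) h1

omit [DecidableEq I] in
theorem ZG_mono (q : ι → ℝ) (D : J → I → Finset ι → ℝ) (h : ℝ) (hg : GoodJ q D h)
    {B B' : Finset J} (hB : B ⊆ B') : ZG q D B ≤ ZG q D B' := by
  unfold ZG
  have h1 : ∀ j, (1 : ℝ) ≤ 1 + ∑ i, GJ q D j (some i) := by
    intro j
    have : 0 ≤ ∑ i, GJ q D j (some i) := Finset.sum_nonneg fun i _ => GJ_nonneg q D h hg j _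
    linarith
  apply Finset.prod_le_prod_of_subset_of_one_le hB
  · intro j _
    exact zero_le_one.trans (h1 j)
  · intro j _ _
    exact h1 j

/-- Square out, exchange, `EX_prod`; for `l ≠ l'` some factor `ex_dg_dg` is `0` (at the forms of
`Z` both labels are `none`, the factor is `ex F`). -/
theorem EX_LW_sq_mul (q : ι → ℝ) (D : J → I → Finset ι → ℝ) (h : ℝ) (hg : GoodJ q D h)
    (s : Finset (J → Option I)) (w : (J → Option I) → ℝ) (Z : Finset J)
    (hZ : ∀ l ∈ s, ∀ j ∈ Z, l j = none) (F : Finset ι → ℝ) :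
    EX q (fun S : J → Finset ι => LW D s w S ^ 2 * ∏ j ∈ Z, F (S j))
      = (∑ l ∈ s, w l ^ 2 * ∏ j, GJ q D j (l j)) * ex q F ^ Z.card := by
  have h1 : ∀ S : J → Finset ι,
      LW D s w S ^ 2 * ∏ j ∈ Z, F (S j) =
      ∑ l ∈ s, ∑ l' ∈ s, w l * w l' * ∏ j,
        (dg D j (l j) (S j) * dg D j (l' j) (S j) * if j ∈ Z then F (S j) else 1) := by
    intro S
    unfold LW
    rw [sq, sum_mul_sum, sum_mul]
    refine sum_congr rfl fun l _ => ?_
    rw [sum_mul]
    refine sum_congr rfl fun l' _ => ?_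
    rw [prod_mul_distrib, prod_mul_distrib]
    have e : ∏ j, (if j ∈ Z then F (S j) else 1) = ∏ j ∈ Z, F (S j) := by
      rw [Finset.prod_ite_mem, Finset.univ_inter]
    rw [e]
    ring
  simp only [h1]
  rw [EX_sum, sum_mul]
  refine sum_congr rfl fun l hl => ?_
  rw [EX_sum]
  have h3 : ∀ l' ∈ s, EX q (fun S : J → Finset ι => w l * w l' * ∏ j,
      (dg D j (l j) (S j) * dg D j (l' j) (S j) * if j ∈ Z then F (S j) else 1)) =
      if l' = l then w l ^ 2 * (∏ j, GJ q D j (l j)) * ex q F ^ Z.card else 0 := by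
    intro l' hl'
    rw [EX_const_mul, EX_prod q (fun j A => dg D j (l j) A * dg D j (l' j) A *
      if j ∈ Z then F A else 1)]
    by_cases hll : l' = l
    · subst hll
      rw [if_pos rfl]
      have e2 : ∏ j, ex q (fun A => dg D j (l' j) A * dg D j (l' j) A *
          if j ∈ Z then F A else 1) =
          ∏ j, (GJ q D j (l' j) * if j ∈ Z then ex q F else 1) := by
        refine prod_congr rfl fun j _ => ?_
        by_cases hj : j ∈ Z
        · rw [if_pos hj, hZ l' hl' j hj]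
          have e3 : (fun A => dg D j none A * dg D j none A * if j ∈ Z then F A else 1) = F := by
            funext A
            rw [if_pos hj]
            simp [dg]
          rw [e3]
          simp [GJ]
        · rw [if_neg hj, mul_one]
          have e3 : (fun A => dg D j (l' j) A * dg D j (l' j) A * if j ∈ Z then F A else 1) =
              fun A => dg D j (l' j) A * dg D j (l' j) A := by
            funext A
            rw [if_neg hj, mul_one]
          rw [e3, ex_dg_dg q D h hg, if_pos rfl]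
      rw [e2, prod_mul_distrib, Finset.prod_ite_mem, Finset.univ_inter, Finset.prod_const]
      ring
    · rw [if_neg hll]
      obtain ⟨j, hj⟩ := Function.ne_iff.1 hll
      have hjZ : j ∉ Z := by
        intro hjZ
        exact hj (by rw [hZ l hl j hjZ, hZ l' hl' j hjZ])
      have e1 : ex q (fun A => dg D j (l j) A * dg D j (l' j) A * if j ∈ Z then F A else 1) =
          0 := by
        have e3 : (fun A => dg D j (l j) A * dg D j (l' j) A * if j ∈ Z then F A else 1) =
            fun A => dg D j (l j) A * dg D j (l' j) A := by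
          funext A
          rw [if_neg hjZ, mul_one]
        rw [e3, ex_dg_dg q D h hg, if_neg (fun hh => hj hh.symm)]
      rw [prod_eq_zero (mem_univ j) e1, mul_zero]
  rw [sum_congr rfl h3, sum_ite_eq' s l, if_pos hl]

/-- `Z = ∅`. -/
theorem EX_LW_sq (q : ι → ℝ) (D : J → I → Finset ι → ℝ) (h : ℝ) (hg : GoodJ q D h)
    (s : Finset (J → Option I)) (w : (J → Option I) → ℝ) :
    EX q (fun S : J → Finset ι => LW D s w S ^ 2) =
      ∑ l ∈ s, w l ^ 2 * ∏ j, GJ q D j (l j) := by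
  have h1 := EX_LW_sq_mul q D h hg s w ∅ (fun l _ j hj => absurd hj (Finset.notMem_empty j))
    (fun _ => 0)
  simp only [Finset.prod_empty, mul_one, Finset.card_empty, pow_zero] at h1
  exact h1

end Pool.Agent.Lib.H92G
end

-- from Lib.H92G.G5
section

/-!
# Chunk G5: the main moments of the weight
-/

open Finset

namespace Pool.Agent.Lib.H92G

open Pool.Agent.Lib.H15P

variable {ι J I : Type} [Fintype ι] [DecidableEq ι] [Fintype J] [DecidableEq J] [Fintype I]
  [DecidableEq I]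

theorem g5_mem_adm {B : Finset J} {m : I → ℕ} {l : J → Option I} :
    l ∈ adm B m ↔ (∀ j, j ∉ B → l j = none) ∧ ∀ i, cnt l i ≤ m i := by
  unfold adm
  simp

theorem g5_prod_nonneg (q : ι → ℝ) (D : J → I → Finset ι → ℝ) (h : ℝ) (hg : GoodJ q D h)
    (l : J → Option I) : 0 ≤ ∏ j, GJ q D j (l j) :=
  Finset.prod_nonneg fun j _ => GJ_nonneg q D h hg j _

/-- Sums over admissible labelings. -/
theorem g5_sum_adm_le (q : ι → ℝ) (D : J → I → Finset ι → ℝ) (h : ℝ) (hg : GoodJ q D h)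
    (m : I → ℕ) (B : Finset J) : ∑ l ∈ adm B m, ∏ j, GJ q D j (l j) ≤ ZG q D B := by
  unfold ZG
  rw [← sum_suppJ (fun j o => GJ q D j o) (fun j => rfl) B]
  apply Finset.sum_le_sum_of_subset_of_nonneg
  · intro l hl
    rw [g5_mem_adm] at hl
    rw [mem_filter]
    exact ⟨mem_univ _, hl.1⟩
  · intro l _ _
    exact g5_prod_nonneg q D h hg l

/-- `EX_LW_sq`, `adm B m` is a subset of the labelings supported in `B`, `sum_suppJ`. -/
theorem EX_LG_sq_le (q : ι → ℝ) (D : J → I → Finset ι → ℝ) (h : ℝ) (hg : GoodJ q D h)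
    (m : I → ℕ) (B : Finset J) :
    EX q (fun S : J → Finset ι => LG D m B S ^ 2) ≤ ZG q D B := by
  unfold LG
  rw [EX_LW_sq q D h hg]
  simp only [one_pow, one_mul]
  exact g5_sum_adm_le q D h hg m B

/-- The majorant used if no prime divides the forms of `Z`: `EX_LW_sq_mul` with `F = lm`;
`w^2 ≤ wm^2`; `sum_suppJ`; `ZG (B \ Z) ≤ ZG B`. -/
theorem EX_maj_le (q : ι → ℝ) (D : J → I → Finset ι → ℝ) (h : ℝ) (hg : GoodJ q D h)
    (m : I → ℕ) (B Z : Finset J) (wm : ℝ) (hw : ∀ l, |wZ D m Z l| ≤ wm)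
    (lm : Finset ι → ℝ) (hlm : ∀ A, 0 ≤ lm A) :
    EX q (fun S : J → Finset ι => LW D (adm (B \ Z) m) (wZ D m Z) S ^ 2 * ∏ j ∈ Z, lm (S j))
      ≤ wm ^ 2 * ZG q D B * ex q lm ^ Z.card := by
  have hZ : ∀ l ∈ adm (B \ Z) m, ∀ j ∈ Z, l j = none := by
    intro l hl j hj
    rw [g5_mem_adm] at hl
    exact hl.1 j (fun h => (mem_sdiff.1 h).2 hj)
  rw [EX_LW_sq_mul q D h hg (adm (B \ Z) m) (wZ D m Z) Z hZ lm]
  apply mul_le_mul_of_nonneg_right _ (pow_nonneg (ex_nonneg q hg.q0 hg.q1 _ hlm) _)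
  calc ∑ l ∈ adm (B \ Z) m, wZ D m Z l ^ 2 * ∏ j, GJ q D j (l j)
      ≤ ∑ l ∈ adm (B \ Z) m, wm ^ 2 * ∏ j, GJ q D j (l j) := by
        apply Finset.sum_le_sum
        intro l _
        apply mul_le_mul_of_nonneg_right _ (g5_prod_nonneg q D h hg l)
        rw [← sq_abs]
        exact pow_le_pow_left₀ (abs_nonneg _) (hw l) 2
    _ = wm ^ 2 * ∑ l ∈ adm (B \ Z) m, ∏ j, GJ q D j (l j) := by rw [Finset.mul_sum]
    _ ≤ wm ^ 2 * ZG q D B := by
        apply mul_le_mul_of_nonneg_left _ (sq_nonneg _)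
        exact (g5_sum_adm_le q D h hg m _).trans (ZG_mono q D h hg sdiff_subset)




/-- An allowed form `j0` (all values `D j0 i ∅ ≥ 0`), no prime divides it: `LG_restrict`,
`EX_LW_sq_mul` with `F = 1[A = ∅]` (mean value `∏ (1 - q i)`), and for the labelings `l` without
saturated label the coefficient is `1 + ∑ D j0 i ∅` (`wZ_single`); `sum_unsat_ge` for the set
`B \ {j0}`. -/
theorem EX_prime_ge (q : ι → ℝ) (D : J → I → Finset ι → ℝ) (h : ℝ) (hg : GoodJ q D h)
    (m : I → ℕ) (B : Finset J) (R : I → ℝ)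
    (hm : ∀ i, 2 * ∑ j ∈ B, GJ q D j (some i) + R i ≤ m i) (j0 : J) (hj0 : j0 ∈ B)
    (hD : ∀ i, 0 ≤ D j0 i ∅) :
    (1 + ∑ i, D j0 i ∅) ^ 2 * (1 - ∑ i, Real.exp (-R i)) * ZG q D (B.erase j0) *
        ∏ i, (1 - q i)
      ≤ EX q (fun S : J → Finset ι => LG D m B S ^ 2 * (if S j0 = ∅ then 1 else 0)) := by
  classical
  have hZ : ∀ l ∈ adm (B \ {j0}) m, ∀ j ∈ ({j0} : Finset J), l j = none := by
    intro l hl j hj
    rw [g5_mem_adm] at hl
    exact hl.1 j (fun h => (mem_sdiff.1 h).2 hj)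
  set F : Finset ι → ℝ := fun A => if A = ∅ then 1 else 0 with hF
  have e0 : (fun S : J → Finset ι => LG D m B S ^ 2 * (if S j0 = ∅ then (1 : ℝ) else 0)) =
      fun S => LW D (adm (B \ {j0}) m) (wZ D m {j0}) S ^ 2 * ∏ j ∈ ({j0} : Finset J), F (S j) := by
    funext S
    rw [Finset.prod_singleton]
    by_cases hS : S j0 = ∅
    · rw [LG_restrict D m B {j0} (singleton_subset_iff.2 hj0) S
        (fun j hj => by rw [mem_singleton.1 hj]; exact hS)]
    · simp only [hF, if_neg hS, mul_zero]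
  rw [e0, EX_LW_sq_mul q D h hg (adm (B \ {j0}) m) (wZ D m {j0}) {j0} hZ F, card_singleton,
    pow_one]
  have e1 : ex q F = ∏ i, (1 - q i) := by
    unfold ex
    rw [Finset.sum_eq_single (∅ : Finset ι)]
    · simp only [hF, if_true, one_mul]
      unfold bw
      simp
    · intro A _ hA
      simp only [hF, if_neg hA, zero_mul]
    · intro hA
      exact absurd (mem_univ _) hA
  rw [e1]
  apply mul_le_mul_of_nonneg_right _
    (Finset.prod_nonneg fun i _ => by have := hg.q1 i; linarith)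
  set g : ℝ := 1 + ∑ i, D j0 i ∅ with hgdef
  have h3 : ∀ i, 2 * ∑ j ∈ B \ {j0}, GJ q D j (some i) + R i ≤ m i := by
    intro i
    have h6 : ∑ j ∈ B \ {j0}, GJ q D j (some i) ≤ ∑ j ∈ B, GJ q D j (some i) :=
      Finset.sum_le_sum_of_subset_of_nonneg sdiff_subset (fun j _ _ => GJ_nonneg q D h hg j _)
    have := hm i
    linarith
  have h4 := sum_unsat_ge (fun j o => GJ q D j o) (fun j o => GJ_nonneg q D h hg j o)
    (fun j => rfl) (B \ {j0}) m R h3
  have e2 : ∏ j ∈ B \ {j0}, (1 + ∑ i, GJ q D j (some i)) = ZG q D (B.erase j0) := by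
    unfold ZG
    rw [Finset.sdiff_singleton_eq_erase]
  rw [e2] at h4
  calc g ^ 2 * (1 - ∑ i, Real.exp (-R i)) * ZG q D (B.erase j0)
      = g ^ 2 * ((1 - ∑ i, Real.exp (-R i)) * ZG q D (B.erase j0)) := by ring
    _ ≤ g ^ 2 * ∑ l ∈ univ.filter (fun l : J → Option I => (∀ j, j ∉ B \ {j0} → l j = none) ∧
        ∀ i, cnt l i < m i), ∏ j, GJ q D j (l j) :=
        mul_le_mul_of_nonneg_left h4 (sq_nonneg _)
    _ = ∑ l ∈ univ.filter (fun l : J → Option I => (∀ j, j ∉ B \ {j0} → l j = none) ∧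
        ∀ i, cnt l i < m i), wZ D m {j0} l ^ 2 * ∏ j, GJ q D j (l j) := by
        rw [Finset.mul_sum]
        apply Finset.sum_congr rfl
        intro l hl
        rw [mem_filter] at hl
        have e3 : wZ D m {j0} l = g := by
          rw [wZ_single D m j0 l (fun i => (hl.2.2 i).le)]
          rw [Finset.filter_true_of_mem (fun i _ => hl.2.2 i)]
        rw [e3]
    _ ≤ ∑ l ∈ adm (B \ {j0}) m, wZ D m {j0} l ^ 2 * ∏ j, GJ q D j (l j) := by
        apply Finset.sum_le_sum_of_subset_of_nonneg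
        · intro l hl
          rw [mem_filter] at hl
          rw [g5_mem_adm]
          exact ⟨hl.2.1, fun i => (hl.2.2 i).le⟩
        · intro l _ _
          exact mul_nonneg (sq_nonneg _) (g5_prod_nonneg q D h hg l)

end Pool.Agent.Lib.H92G
end

-- from Lib.H15P.TR3
section

/-!
# Chunk TR3: lower bound for the mean value over a period by the independent model
-/

open Finset

namespace Pool.Agent.Lib.H15P

variable {J : Type} [Fintype J] [DecidableEq J]

/-- What the lower bound loses at the configuration `S`: `1` if some prime is in two of the sets,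
and `2K/p` for every prime `p` of every set. -/
noncomputable def loss (P : Finset ℕ) (K : ℕ) (S : J → Finset {p // p ∈ P}) : ℝ :=
  (if ∃ j j', j ≠ j' ∧ ¬ Disjoint (S j) (S j') then 1 else 0) +
    ∑ j, ∑ p ∈ S j, 2 * (K : ℝ) / (p.1 : ℝ)

/-! ### products -/

theorem tr3_prod_one_sub {α : Type} [DecidableEq α] (s : Finset α) (x : α → ℝ)
    (h0 : ∀ a ∈ s, 0 ≤ x a) (h1 : ∀ a ∈ s, x a ≤ 1) :
    1 - ∑ a ∈ s, x a ≤ ∏ a ∈ s, (1 - x a) ∧ 0 ≤ ∏ a ∈ s, (1 - x a) ∧
      ∏ a ∈ s, (1 - x a) ≤ 1 := by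
  induction s using Finset.induction_on with
  | empty => simp
  | insert a s ha ih =>
    obtain ⟨i1, i2, i3⟩ := ih (fun b hb => h0 b (Finset.mem_insert_of_mem hb))
      (fun b hb => h1 b (Finset.mem_insert_of_mem hb))
    have ha0 := h0 a (Finset.mem_insert_self a s)
    have ha1 := h1 a (Finset.mem_insert_self a s)
    rw [Finset.sum_insert ha, Finset.prod_insert ha]
    refine ⟨?_, mul_nonneg (by linarith) i2, ?_⟩
    · nlinarith
    · nlinarith

/-- the product of the weights, prime by prime -/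
theorem tr3_prod_bw (P : Finset ℕ) (K : ℕ) (κ : {p // p ∈ P} → Option J) :
    ∏ j, bw (qq P K) (cfg κ j) =
      ∏ i, ∏ j : J, (if κ i = some j then qq P K i else 1 - qq P K i) := by
  unfold bw
  rw [Finset.prod_comm]
  refine Finset.prod_congr rfl fun i _ => Finset.prod_congr rfl fun j _ => ?_
  simp only [cfg, Finset.mem_filter, Finset.mem_univ, true_and]

/-- the product over the forms at one prime -/
theorem tr3_prod_one (a c : ℝ) (o : Option J) :
    ∏ j : J, (if o = some j then a else c) =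
      match o with
      | none => c ^ Fintype.card J
      | some _ => a * c ^ (Fintype.card J - 1) := by
  rcases o with _ | j0
  · simp
  · simp only [Option.some.injEq]
    rw [← Finset.mul_prod_erase Finset.univ _ (Finset.mem_univ j0), if_pos rfl]
    congr 1
    rw [Finset.prod_congr rfl (g := fun _ => c)]
    · rw [Finset.prod_const, Finset.card_erase_of_mem (Finset.mem_univ j0), Finset.card_univ]
    · intro j hj
      rw [if_neg (Finset.ne_of_mem_erase hj).symm]

theorem tr3_pow_le (k : ℕ) (u : ℝ) (h0 : 0 ≤ u) (h1 : u ≤ 1) :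
    (1 - u) ^ k ≤ 1 - k * u + k ^ 2 * u ^ 2 / 2 := by
  induction k with
  | zero => simp
  | succ k ih =>
    rw [pow_succ]
    have h2 : 0 ≤ 1 - u := by linarith
    have h3 := mul_le_mul_of_nonneg_right ih h2
    refine h3.trans ?_
    push_cast
    have h4 : 0 ≤ (k : ℝ) := Nat.cast_nonneg _
    have h5 : 0 ≤ u ^ 2 := sq_nonneg _
    have h6 : 0 ≤ (k : ℝ) ^ 2 * u ^ 3 := by positivity
    nlinarith

/-- one prime -/
theorem tr3_one (P : Finset ℕ) (W K : ℕ) (hK : 1 ≤ K) (hKW : 4 * K ^ 2 ≤ W)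
    (hb : ∀ p ∈ P, W < p) (hJ : Fintype.card J ≤ K) (p : {p // p ∈ P}) (o : Option J) :
    (1 - (if o = none then (K : ℝ) ^ 2 / (p.1 : ℝ) ^ 2 else 2 * K / (p.1 : ℝ))) *
      ∏ j : J, (if o = some j then qq P K p else 1 - qq P K p) ≤ ww J p.1 o := by
  have hp : W < p.1 := hb p.1 p.2
  have hK1 : (1 : ℝ) ≤ K := by exact_mod_cast hK
  have hpK : 4 * (K : ℝ) ^ 2 ≤ p.1 := by
    have : 4 * K ^ 2 ≤ p.1 := hKW.trans hp.le
    exact_mod_cast this
  set x : ℝ := (p.1 : ℝ) with hx
  have hx0 : 0 < x := by nlinarith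
  have hKx : 4 * (K : ℝ) ≤ x := by nlinarith
  have hk : (Fintype.card J : ℝ) ≤ K := by exact_mod_cast hJ
  have hk0 : (0 : ℝ) ≤ Fintype.card J := Nat.cast_nonneg _
  have hN : (1 : ℝ) ≤ 1 + 2 * K / x ^ 2 := by
    have : 0 ≤ 2 * (K : ℝ) / x ^ 2 := by positivity
    linarith
  have hq : qq P K p = (1 / x + 2 * K / x ^ 2) / (1 + 2 * K / x ^ 2) := rfl
  have hq1 : 1 - qq P K p = (1 - 1 / x) / (1 + 2 * K / x ^ 2) := by
    rw [hq, eq_div_iff (by linarith), sub_mul, div_mul_cancel₀ _ (by linarith)]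
    ring
  have hu0 : 0 ≤ 1 / x := by positivity
  have hu1 : 1 / x ≤ 1 := by rw [div_le_one hx0]; linarith
  have hqn0 : 0 ≤ 1 - qq P K p := by
    rw [hq1]
    exact div_nonneg (by linarith) (by linarith)
  have hqn1 : 1 - qq P K p ≤ 1 - 1 / x := by
    rw [hq1]
    exact div_le_self (by linarith) hN
  have hqn : 1 - qq P K p ≤ 1 := by linarith
  have hqp0 : 0 ≤ qq P K p := by rw [hq]; positivity
  have hqp : qq P K p ≤ 1 / x + 2 * K / x ^ 2 := by
    rw [hq]
    exact div_le_self (by positivity) hN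
  rw [tr3_prod_one]
  rcases o with _ | j0
  · simp only [if_true, ww]
    set k : ℝ := (Fintype.card J : ℝ) with hkdef
    have e1 : (1 - qq P K p) ^ Fintype.card J ≤ (1 - 1 / x) ^ Fintype.card J :=
      pow_le_pow_left₀ hqn0 hqn1 _
    have e2 := tr3_pow_le (Fintype.card J) (1 / x) hu0 hu1
    rw [← hkdef] at e2
    have e3 : 0 ≤ 1 - (K : ℝ) ^ 2 / x ^ 2 := by
      rw [sub_nonneg, div_le_one (by positivity)]
      nlinarith
    have e4 := mul_le_mul_of_nonneg_left (e1.trans e2) e3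
    refine e4.trans ?_
    have e5 : k * (1 / x) = k / x := by ring
    have e6 : k ^ 2 * (1 / x) ^ 2 / 2 = (k ^ 2 / x ^ 2) / 2 := by ring
    rw [e5, e6]
    set A : ℝ := k / x with hA
    have e7 : k ^ 2 / x ^ 2 = A ^ 2 := by rw [hA]; ring
    set B : ℝ := (K : ℝ) ^ 2 / x ^ 2 with hB
    have hA0 : 0 ≤ A := by positivity
    have hA1 : A ≤ 1 / 4 := by
      rw [hA, div_le_iff₀ hx0]
      linarith
    have hAB : A ^ 2 ≤ B := by
      rw [← e7, hB]
      apply div_le_div_of_nonneg_right _ (by positivity)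
      exact pow_le_pow_left₀ hk0 hk 2
    rw [e7]
    have hB0 : 0 ≤ B := by positivity
    nlinarith [mul_nonneg hB0 hA0, mul_nonneg hB0 (sq_nonneg A)]
  · simp only [reduceCtorEq, if_false, ww]
    have e1 : (1 - qq P K p) ^ (Fintype.card J - 1) ≤ 1 := pow_le_one₀ hqn0 hqn
    have e2 : 0 ≤ (1 - qq P K p) ^ (Fintype.card J - 1) := pow_nonneg hqn0 _
    have e3 : qq P K p * (1 - qq P K p) ^ (Fintype.card J - 1) ≤ 1 / x + 2 * K / x ^ 2 := by
      calc qq P K p * (1 - qq P K p) ^ (Fintype.card J - 1) ≤ qq P K p * 1 :=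
            mul_le_mul_of_nonneg_left e1 hqp0
        _ ≤ _ := by rw [mul_one]; exact hqp
    have e4 : 0 ≤ 1 - 2 * (K : ℝ) / x := by
      rw [sub_nonneg, div_le_one hx0]
      linarith
    refine (mul_le_mul_of_nonneg_left e3 e4).trans ?_
    have e5 : (1 - 2 * (K : ℝ) / x) * (1 / x + 2 * K / x ^ 2) =
        1 / x - (2 * K / x) ^ 2 * (1 / x) := by
      field_simp
      ring
    rw [e5]
    have : 0 ≤ (2 * (K : ℝ) / x) ^ 2 * (1 / x) := by positivity
    linarith

/-- One prime: `ww none = 1 - k/p ≥ (1 - K^2/p^2) (1 - 1/p)^k`, and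
`ww (some j) = 1/p ≥ (1 - 2K/p) α β^(k-1)`. Together (`∏ (1 - x_i) ≥ 1 - Σ x_i` for
`0 ≤ x_i ≤ 1`): `∏_p ww (κ p) ≥ (1 - K^2/W - Σ_(p used) 2K/p) ∏_j bw (cfg κ j)`; note that
`∏_p (1 + 2K/p^2)^k ≥ 1`. -/
theorem prod_ww_ge (P : Finset ℕ) (W K M : ℕ) (b : J → ℕ) (hF : Forms P W K M b)
    (κ : {p // p ∈ P} → Option J) :
    (1 - (K : ℝ) ^ 2 / W - ∑ j, ∑ p ∈ cfg κ j, 2 * (K : ℝ) / (p.1 : ℝ)) *
      ∏ j, bw (qq P K) (cfg κ j) ≤ ∏ i, ww J i.1 (κ i) := by
  classical
  have hK1 : (1 : ℝ) ≤ K := by exact_mod_cast hF.one_le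
  have hW1 : 1 ≤ W := by
    have := hF.KW
    have := hF.one_le
    nlinarith
  have hpK : ∀ i : {p // p ∈ P}, 4 * (K : ℝ) ^ 2 ≤ i.1 := by
    intro i
    have : 4 * K ^ 2 ≤ i.1 := hF.KW.trans (hF.big i.1 i.2).le
    exact_mod_cast this
  have hp0 : ∀ i : {p // p ∈ P}, (0 : ℝ) < i.1 := fun i => by
    have := hpK i
    nlinarith
  set x : {p // p ∈ P} → ℝ := fun i =>
    if κ i = none then (K : ℝ) ^ 2 / (i.1 : ℝ) ^ 2 else 2 * K / (i.1 : ℝ) with hx
  have hx0 : ∀ i ∈ (univ : Finset {p // p ∈ P}), 0 ≤ x i := by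
    intro i _
    simp only [hx]
    have := hp0 i
    split_ifs <;> positivity
  have hx1 : ∀ i ∈ (univ : Finset {p // p ∈ P}), x i ≤ 1 := by
    intro i _
    simp only [hx]
    have h1 := hp0 i
    have h2 := hpK i
    split_ifs
    · rw [div_le_one (by positivity)]
      have h3 : (K : ℝ) ≤ i.1 := by nlinarith
      exact pow_le_pow_left₀ (by linarith) h3 2
    · rw [div_le_one h1]
      nlinarith
  obtain ⟨g1, g2, -⟩ := tr3_prod_one_sub univ x hx0 hx1
  have hbw : 0 ≤ ∏ j, bw (qq P K) (cfg κ j) := by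
    refine Finset.prod_nonneg fun j _ => bw_nonneg _ (qq_nonneg P K) (fun p => ?_) _
    have h1 := qq_le P W K hF.one_le hF.KW hF.big p
    have h2 := hpK p
    refine h1.trans ?_
    rw [div_le_one (hp0 p)]
    nlinarith
  have hone : (∏ i, (1 - x i)) * ∏ j, bw (qq P K) (cfg κ j) ≤ ∏ i, ww J i.1 (κ i) := by
    rw [tr3_prod_bw, ← Finset.prod_mul_distrib]
    refine Finset.prod_le_prod (fun i hi => ?_) (fun i _ => ?_)
    · refine mul_nonneg (by linarith [hx1 i hi]) (Finset.prod_nonneg fun j _ => ?_)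
      have h1 := qq_nonneg P K i
      have h2 := qq_le P W K hF.one_le hF.KW hF.big i
      have h3 : 2 / ((i.1 : ℕ) : ℝ) ≤ 1 := by
        rw [div_le_one (hp0 i)]
        have := hpK i
        nlinarith
      split_ifs
      · exact h1
      · linarith
    · exact tr3_one P W K hF.one_le hF.KW hF.big hF.card i (κ i)
  refine le_trans (mul_le_mul_of_nonneg_right ?_ hbw) hone
  refine le_trans ?_ g1
  -- compare the sums
  have s1 : ∑ i, x i ≤ (K : ℝ) ^ 2 / W + ∑ j, ∑ p ∈ cfg κ j, 2 * (K : ℝ) / (p.1 : ℝ) := by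
    have t1 : ∀ i, x i ≤ (K : ℝ) ^ 2 * (1 / (i.1 : ℝ) ^ 2) +
        ∑ j : J, (if κ i = some j then 2 * (K : ℝ) / (i.1 : ℝ) else 0) := by
      intro i
      have h1 := hp0 i
      simp only [hx]
      rcases hκ : κ i with _ | j0
      · simp only [if_true]
        have : (K : ℝ) ^ 2 / (i.1 : ℝ) ^ 2 = (K : ℝ) ^ 2 * (1 / (i.1 : ℝ) ^ 2) := by ring
        rw [this]
        simp
      · simp only [reduceCtorEq, if_false, Option.some.injEq]
        rw [Finset.sum_ite_eq univ j0]
        simp only [Finset.mem_univ, if_true]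
        have : 0 ≤ (K : ℝ) ^ 2 * (1 / (i.1 : ℝ) ^ 2) := by positivity
        linarith
    refine (Finset.sum_le_sum fun i _ => t1 i).trans ?_
    rw [Finset.sum_add_distrib, ← Finset.mul_sum]
    refine add_le_add ?_ ?_
    · have h1 := sum_inv_sq_le P W hW1 hF.big
      have h2 : ∑ i : {p // p ∈ P}, 1 / ((i.1 : ℕ) : ℝ) ^ 2 = ∑ p ∈ P, 1 / (p : ℝ) ^ 2 :=
        Finset.sum_coe_sort P (fun p => 1 / (p : ℝ) ^ 2)
      rw [h2]
      calc (K : ℝ) ^ 2 * ∑ p ∈ P, 1 / (p : ℝ) ^ 2 ≤ (K : ℝ) ^ 2 * (1 / W) :=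
            mul_le_mul_of_nonneg_left h1 (by positivity)
        _ = (K : ℝ) ^ 2 / W := by ring
    · rw [Finset.sum_comm]
      refine Finset.sum_le_sum fun j _ => ?_
      unfold cfg
      rw [Finset.sum_filter]
  linarith

/-! ### moments of the loss -/

/-- probability that the random set contains `B` -/
theorem tr3_ex_subset {ι : Type} [Fintype ι] [DecidableEq ι] (q : ι → ℝ) (B : Finset ι) :
    ex q (fun A => if B ⊆ A then 1 else 0) = ∏ i ∈ B, q i := by
  unfold ex bw
  have h1 : ∀ A : Finset ι, (if B ⊆ A then (1 : ℝ) else 0) * ∏ i, (if i ∈ A then q i else 1 - q i)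
      = (∏ i ∈ A, q i) * ∏ i ∈ univ \ A, (if i ∈ B then 0 else 1 - q i) := by
    intro A
    have e1 : ∏ i, (if i ∈ A then q i else 1 - q i) =
        (∏ i ∈ A, q i) * ∏ i ∈ univ \ A, (1 - q i) := by
      rw [← Finset.prod_sdiff (Finset.subset_univ A), mul_comm]
      congr 1
      · exact Finset.prod_congr rfl fun i hi => by rw [if_pos hi]
      · exact Finset.prod_congr rfl fun i hi => by
          rw [if_neg (Finset.mem_sdiff.mp hi).2]
    rw [e1]
    by_cases hB : B ⊆ A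
    · rw [if_pos hB, one_mul]
      congr 1
      refine Finset.prod_congr rfl fun i hi => ?_
      rw [if_neg fun h => (Finset.mem_sdiff.mp hi).2 (hB h)]
    · rw [if_neg hB, zero_mul]
      obtain ⟨i, hi, hiA⟩ := Finset.not_subset.mp hB
      have : ∏ i ∈ univ \ A, (if i ∈ B then (0 : ℝ) else 1 - q i) = 0 :=
        Finset.prod_eq_zero (Finset.mem_sdiff.mpr ⟨Finset.mem_univ i, hiA⟩) (by rw [if_pos hi])
      rw [this, mul_zero]
  simp_rw [h1]
  have h2 := Finset.prod_add (fun i => q i) (fun i => if i ∈ B then (0 : ℝ) else 1 - q i)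
    (univ : Finset ι)
  have h3 : (univ : Finset ι).powerset = (univ : Finset (Finset ι)) := Finset.powerset_univ
  rw [h3] at h2
  rw [← h2]
  have h4 : ∀ i, q i + (if i ∈ B then (0 : ℝ) else 1 - q i) = if i ∈ B then q i else 1 := by
    intro i
    split_ifs <;> ring
  simp_rw [h4]
  rw [Finset.prod_ite_mem, Finset.univ_inter]



/-- indicator of `p ∈ S j` -/
noncomputable def tr3_ind {ι : Type} [DecidableEq ι] (S : J → Finset ι) (a : J × ι) : ℝ :=
  if a.2 ∈ S a.1 then 1 else 0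




/-- the configuration of a disjoint family -/
theorem tr3_exists_cfg {P : Finset ℕ} (S : J → Finset {p // p ∈ P})
    (h : ∀ j j', j ≠ j' → Disjoint (S j) (S j')) :
    ∃ κ : {p // p ∈ P} → Option J, cfg κ = S := by
  classical
  refine ⟨fun i => if h : ∃ j, i ∈ S j then some h.choose else none, ?_⟩
  funext j
  ext i
  simp only [cfg, Finset.mem_filter, Finset.mem_univ, true_and]
  constructor
  · intro hi
    by_cases hex : ∃ j, i ∈ S j
    · rw [dif_pos hex] at hi
      have h1 := hex.choose_spec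
      rw [Option.some.injEq] at hi
      rwa [hi] at h1
    · rw [dif_neg hex] at hi
      exact absurd hi (by simp)
  · intro hi
    have hex : ∃ j, i ∈ S j := ⟨j, hi⟩
    rw [dif_pos hex]
    congr 1
    by_contra hne
    have h1 := hex.choose_spec
    exact Finset.disjoint_left.mp (h _ _ hne) h1 hi

theorem tr3_cfg_inj {P : Finset ℕ} :
    Function.Injective (cfg : ({p // p ∈ P} → Option J) → J → Finset {p // p ∈ P}) := by
  intro κ κ' h
  funext i
  have h1 : ∀ j, (κ i = some j ↔ κ' i = some j) := by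
    intro j
    have h2 := congrFun h j
    have h3 : i ∈ cfg κ j ↔ i ∈ cfg κ' j := by rw [h2]
    simpa [cfg] using h3
  rcases h4 : κ i with _ | j
  · rcases h5 : κ' i with _ | j'
    · rfl
    · have := (h1 j').mpr h5
      rw [h4] at this
      exact absurd this (by simp)
  · have := (h1 j).mp h4
    rw [this]

theorem tr3_cfg_disj {P : Finset ℕ} (κ : {p // p ∈ P} → Option J) (j j' : J) (h : j ≠ j') :
    Disjoint (cfg κ j) (cfg κ j') := by
  rw [Finset.disjoint_left]
  intro i hi hi'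
  simp only [cfg, Finset.mem_filter, Finset.mem_univ, true_and] at hi hi'
  rw [hi, Option.some.injEq] at hi'
  exact h hi'


end Pool.Agent.Lib.H15P
end

-- from Lib.H92G.W1
section

/-!
# Chunk W1: basic facts on a system of forms, mean value and mean square of the weight

Compare `H15P/WIN1`, `H15P/WIN2`.
-/

open Finset

namespace Pool.Agent.Lib.H92G

open Pool.Agent.Lib.H15P

/-- Distinct `b, b' ∈ B` differ by at most `W < p`. -/
theorem WG.Sys.forms {w : WG} {A B : Finset ℕ} {M : ℕ} (h : w.Sys A B M) :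
    Forms w.P w.W w.K M (fun j : {b // b ∈ B} => j.1) := by
  refine ⟨w.prime, w.big, h.cop, ?_, w.Kpos, ?_, w.KW⟩
  · intro p hp j j' hne hm
    apply hne
    apply Subtype.ext
    have h1 := h.dist j.1 j.2 j'.1 j'.2
    have h2 := h.dist j'.1 j'.2 j.1 j.2
    have h3 := w.big p hp
    rcases le_total j.1 j'.1 with h4 | h4
    · have h5 := (Nat.modEq_iff_dvd' h4).1 hm
      have h6 := Nat.eq_zero_of_dvd_of_lt h5 (by omega)
      omega
    · have h5 := (Nat.modEq_iff_dvd' h4).1 hm.symm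
      have h6 := Nat.eq_zero_of_dvd_of_lt h5 (by omega)
      omega
  · rw [Fintype.card_coe]
    exact h.cardB

theorem WG.good_Df (w : WG) (A B : Finset ℕ) : GoodJ (qq w.P w.K) (w.Df A B) w.h where
  q0 := w.good.q0
  q1 := w.good.q1
  mean := fun _ i => w.good.mean _ i
  orth := fun _ i i' hi => w.good.orth _ i i' hi
  sq := fun _ i => w.good.sq _ i
  fourth := fun _ i => w.good.fourth _ i

theorem WG.one_le_g (w : WG) : 1 ≤ w.g := by
  unfold WG.g
  have h1 := mul_nonneg (Nat.cast_nonneg w.nA : (0 : ℝ) ≤ w.nA) w.cA0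
  linarith


theorem w1_GJ (w : WG) (A B : Finset ℕ) (j : {b // b ∈ B}) (o : Option (Fin w.nA ⊕ Fin w.nD)) :
    GJ (qq w.P w.K) (w.Df A B) j o = GJ (qq w.P w.K) w.DJ (decide (j.1 ∈ A)) o := by
  cases o <;> rfl

theorem w1_GJ_nonneg (w : WG) (a : Bool) (o : Option (Fin w.nA ⊕ Fin w.nD)) :
    0 ≤ GJ (qq w.P w.K) w.DJ a o := GJ_nonneg _ _ _ w.good _ _

theorem w1_card_filter (A B : Finset ℕ) (hAB : A ⊆ B) :
    ((univ : Finset {b // b ∈ B}).filter (fun j => j.1 ∈ A)).card = A.card := by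
  rw [← Finset.card_map (Function.Embedding.subtype (fun b => b ∈ B))]
  congr 1
  ext x
  simp only [Finset.mem_map, Finset.mem_filter, Finset.mem_univ, true_and,
    Function.Embedding.coe_subtype]
  constructor
  · rintro ⟨a, ha, rfl⟩
    exact ha
  · intro hx
    exact ⟨⟨x, hAB hx⟩, hx, rfl⟩

/-- The sums of second moments: at most `KA` forms are allowed, at most `K` are not. -/
theorem WG.Sys.hm {w : WG} {A B : Finset ℕ} {M : ℕ} (h : w.Sys A B M)
    (i : Fin w.nA ⊕ Fin w.nD) :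
    2 * ∑ j ∈ (univ : Finset {b // b ∈ B}), GJ (qq w.P w.K) (w.Df A B) j (some i) + w.R i
      ≤ w.m i := by
  refine le_trans ?_ (w.hm i)
  have h0 : ∑ j ∈ (univ : Finset {b // b ∈ B}), GJ (qq w.P w.K) (w.Df A B) j (some i) ≤
      w.KA * GJ (qq w.P w.K) w.DJ true (some i) + w.K * GJ (qq w.P w.K) w.DJ false (some i) := by
    rw [← Finset.sum_filter_add_sum_filter_not (univ : Finset {b // b ∈ B}) (fun j => j.1 ∈ A)]
    have h1 : ∑ j ∈ (univ : Finset {b // b ∈ B}).filter (fun j => j.1 ∈ A),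
        GJ (qq w.P w.K) (w.Df A B) j (some i) =
          (A.card : ℝ) * GJ (qq w.P w.K) w.DJ true (some i) := by
      rw [← w1_card_filter A B h.AB, ← nsmul_eq_mul]
      refine Finset.sum_eq_card_nsmul fun j hj => ?_
      rw [w1_GJ, decide_eq_true (Finset.mem_filter.1 hj).2]
    have h2 : ∑ j ∈ (univ : Finset {b // b ∈ B}).filter (fun j => ¬ j.1 ∈ A),
        GJ (qq w.P w.K) (w.Df A B) j (some i) =
          (((univ : Finset {b // b ∈ B}).filter (fun j => ¬ j.1 ∈ A)).card : ℝ) *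
            GJ (qq w.P w.K) w.DJ false (some i) := by
      rw [← nsmul_eq_mul]
      refine Finset.sum_eq_card_nsmul fun j hj => ?_
      rw [w1_GJ, decide_eq_false (Finset.mem_filter.1 hj).2]
    rw [h1, h2]
    have h3 : (A.card : ℝ) ≤ w.KA := by exact_mod_cast h.cardA
    have h4 : ((((univ : Finset {b // b ∈ B}).filter (fun j => ¬ j.1 ∈ A)).card : ℕ) : ℝ) ≤ w.K := by
      have h5 := Finset.card_filter_le (univ : Finset {b // b ∈ B}) (fun j => ¬ j.1 ∈ A)
      rw [Finset.card_univ, Fintype.card_coe] at h5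
      exact_mod_cast h5.trans h.cardB
    exact add_le_add (mul_le_mul_of_nonneg_right h3 (w1_GJ_nonneg w _ _))
      (mul_le_mul_of_nonneg_right h4 (w1_GJ_nonneg w _ _))
  linarith

/-- The values at `∅` of the factors of an allowed form. -/
theorem WG.sum_allowed (w : WG) (A B : Finset ℕ) (j : {b // b ∈ B}) (hj : j.1 ∈ A) :
    (∀ i, 0 ≤ w.Df A B j i ∅) ∧ 1 + ∑ i, w.Df A B j i ∅ = w.g := by
  have h1 : w.Df A B j = w.DJ true := by
    unfold WG.Df
    rw [decide_eq_true hj]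
  rw [h1]
  constructor
  · rintro (i | i)
    · rw [w.trl]
      exact w.cA0
    · rw [w.trr]
  · rw [Fintype.sum_sum_type]
    simp only [w.trl, w.trr]
    rw [Finset.sum_const, Finset.sum_const_zero, Finset.card_univ, Fintype.card_fin, nsmul_eq_mul,
      add_zero]
    rfl

theorem w1_Qpos (w : WG) : 0 < ∏ p ∈ w.P, p :=
  Finset.prod_pos fun p hp => (w.prime p hp).pos

/-- Sum over `t < Y` of a nonnegative function of the configuration of level `L`
(`Lev.avg` with `a = 0`, `EP_le`, `w.hKW`). -/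
theorem WG.Sys.avg_le {w : WG} {A B : Finset ℕ} {M : ℕ} (h : w.Sys A B M)
    (F : ({b // b ∈ B} → Finset {p // p ∈ w.P}) → ℝ) (h0 : ∀ S, 0 ≤ F S) (L : ℝ)
    (hL : Lev (∏ p ∈ w.P, p) (fun t => F (fun j => hit w.P (j.1 + M * t))) L) (Y : ℕ) :
    ∑ t ∈ range Y, F (fun j => hit w.P (j.1 + M * t)) ≤
      Y * ((1 + w.e) * EX (qq w.P w.K) F) + 2 * L := by
  have h1 := Lev.avg (w1_Qpos w) hL 0 Y
  rw [zero_add, ← Finset.range_eq_Ico] at h1
  have h2 : EP w.P M (fun j : {b // b ∈ B} => j.1) F ≤ (1 + w.e) * EX (qq w.P w.K) F :=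
    (EP_le w.P w.W w.K M _ h.forms F h0).trans
      (mul_le_mul_of_nonneg_right w.hKW (EX_nonneg _ w.good.q0 w.good.q1 F h0))
  have h3 := mul_le_mul_of_nonneg_left h2 (Nat.cast_nonneg Y : (0 : ℝ) ≤ Y)
  have h4 : |∑ t ∈ range Y, F (fun j => hit w.P (j.1 + M * t)) -
      Y * EP w.P M (fun j : {b // b ∈ B} => j.1) F| ≤ 2 * L := h1
  rw [abs_le] at h4
  linarith [h4.2]

theorem w1_one_le_ZG (w : WG) (A B : Finset ℕ) : 1 ≤ ZG (qq w.P w.K) (w.Df A B) univ :=
  one_le_ZG _ _ _ (w.good_Df A B) _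



/-- the error terms -/
theorem w1_err (w : WG) (Y : ℕ) (hY : w.Long Y) (a k : ℕ) (ha : a ≤ 4) (hk : k ≤ 4) :
    2 * w.K * (w.g ^ a * w.lv ^ k) ≤ w.e * w.el ^ 2 * Y / 4 ∧
      2 * (w.g ^ a * w.lv ^ k) ≤ w.e * w.el ^ 2 * Y / 4 := by
  have h1 : w.g ^ a * w.lv ^ k ≤ w.g ^ 4 * w.lv ^ 4 :=
    mul_le_mul (pow_le_pow_right₀ w.one_le_g ha) (pow_le_pow_right₀ w.lv1 hk)
      (pow_nonneg (zero_le_one.trans w.lv1) _) (pow_nonneg (zero_le_one.trans w.one_le_g) _)
  have h2 : (1 : ℝ) ≤ w.K := by exact_mod_cast w.Kpos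
  have h3 : 0 ≤ w.g ^ a * w.lv ^ k := mul_nonneg (pow_nonneg (zero_le_one.trans w.one_le_g) _)
    (pow_nonneg (zero_le_one.trans w.lv1) _)
  have h4 : (w.K : ℝ) * (w.g ^ a * w.lv ^ k) ≤ w.K * (w.g ^ 4 * w.lv ^ 4) :=
    mul_le_mul_of_nonneg_left h1 (by linarith)
  have h5 : w.g ^ a * w.lv ^ k ≤ w.K * (w.g ^ a * w.lv ^ k) := le_mul_of_one_le_left h3 h2
  have h6 : 8 * w.K * w.g ^ 4 * w.lv ^ 4 ≤ w.e * w.el ^ 2 * Y := hY
  constructor <;> nlinarith




end Pool.Agent.Lib.H92G
end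

-- from Lib.H15P.NT2
section

/-!
# Chunk NT2: sizes of the blocks
-/

open Finset

namespace Pool.Agent.Lib.H15P

variable (κ W : ℕ) (T : ℝ)

/-- The block `b` of a prime `p`: `κ^b ≤ T/log p < κ^(b+1)`. -/
theorem bk_spec (hκ : 2 ≤ κ) (p : ℕ) (hp : p.Prime) (hT : Real.log p ≤ T) :
    (κ : ℝ) ^ bk κ T p ≤ T / Real.log p ∧ T / Real.log p < (κ : ℝ) ^ (bk κ T p + 1) := by
  have hlog : 0 < Real.log p := Real.log_pos (by exact_mod_cast hp.one_lt)
  have h1 : 1 ≤ T / Real.log p := by rw [le_div_iff₀ hlog]; linarith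
  have h0 : ⌊T / Real.log p⌋₊ ≠ 0 := by
    have := Nat.le_floor (n := 1) (by exact_mod_cast h1 : ((1 : ℕ) : ℝ) ≤ T / Real.log p)
    omega
  unfold bk
  constructor
  · have h2 := Nat.pow_log_le_self κ h0
    have h3 : ((κ ^ Nat.log κ ⌊T / Real.log p⌋₊ : ℕ) : ℝ) ≤ (⌊T / Real.log p⌋₊ : ℕ) := by
      exact_mod_cast h2
    rw [Nat.cast_pow] at h3
    exact h3.trans (Nat.floor_le (by linarith))
  · have h2 := Nat.lt_pow_succ_log_self (by omega : 1 < κ) ⌊T / Real.log p⌋₊
    have h3 : T / Real.log p < ((κ ^ (Nat.log κ ⌊T / Real.log p⌋₊ + 1) : ℕ) : ℝ) :=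
      (Nat.floor_lt (by linarith)).1 h2
    rwa [Nat.cast_pow] at h3

theorem NT2_mem (p : ℕ) (hp : p ∈ PP W T) : p.Prime ∧ W < p ∧ Real.log p ≤ T := by
  unfold PP at hp
  rw [mem_filter, mem_Ioc] at hp
  obtain ⟨⟨h1, h2⟩, h3⟩ := hp
  refine ⟨h3, h1, ?_⟩
  have h4 : (p : ℝ) ≤ Real.exp T := (Nat.le_floor_iff (Real.exp_pos T).le).1 h2
  rwa [Real.log_le_iff_le_exp (by exact_mod_cast h3.pos)]

theorem NT2_log_le (hκ : 2 ≤ κ) (p : ℕ) (hp : p.Prime) (hT : Real.log p ≤ T) :
    Real.log p ≤ T / (κ : ℝ) ^ bk κ T p := by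
  have hlog : 0 < Real.log p := Real.log_pos (by exact_mod_cast hp.one_lt)
  have hκ0 : (0 : ℝ) < (κ : ℝ) ^ bk κ T p := by
    have : (0 : ℝ) < κ := by exact_mod_cast (by omega : 0 < κ)
    positivity
  have h := (bk_spec κ T hκ p hp hT).1
  rw [le_div_iff₀ hlog] at h
  rw [le_div_iff₀ hκ0]
  linarith

/-- If the block is empty the left side is `1`. Otherwise it has a prime `≥ 2`, all its primes are
`≤ y = exp (T/κ^b)`, `y ≥ 2`, and `1 + Σ_{m ≤ y} m ≤ y^3`. -/
theorem XB_le (hκ : 2 ≤ κ) (hT : 0 ≤ T) (b : ℕ) :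
    1 + XB (fun i : {p // p ∈ PP W T} => i.1) (fun i => bk κ T i.1) b
      ≤ Real.exp (3 * (T / κ ^ b)) := by
  set y : ℝ := Real.exp (T / (κ : ℝ) ^ b) with hy
  have hy1 : 1 ≤ y := Real.one_le_exp (by positivity)
  have hy3 : Real.exp (3 * (T / (κ : ℝ) ^ b)) = y ^ 3 := by
    rw [hy, ← Real.exp_nat_mul]
    push_cast
    rfl
  rw [hy3]
  unfold XB
  rcases (univ.filter (fun i : {p // p ∈ PP W T} => bk κ T i.1 = b)).eq_empty_or_nonempty with
    h | ⟨i0, hi0⟩
  · rw [h, sum_empty, add_zero]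
    exact one_le_pow₀ hy1
  · have hle : ∀ i ∈ univ.filter (fun i : {p // p ∈ PP W T} => bk κ T i.1 = b),
        (i.1 : ℝ) ≤ y := by
      intro i hi
      obtain ⟨h1, h2, h3⟩ := NT2_mem W T i.1 i.2
      have h4 := NT2_log_le κ T hκ i.1 h1 h3
      rw [(mem_filter.1 hi).2] at h4
      rw [hy]
      exact (Real.log_le_iff_le_exp (by exact_mod_cast h1.pos)).1 h4
    have hy2 : 2 ≤ y := by
      have h1 := hle i0 hi0
      have h2 : (2 : ℝ) ≤ i0.1 := by exact_mod_cast (NT2_mem W T i0.1 i0.2).1.two_le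
      linarith
    have hsum : ∑ i ∈ univ.filter (fun i : {p // p ∈ PP W T} => bk κ T i.1 = b), (i.1 : ℝ) ≤
        ∑ m ∈ range (⌊y⌋₊ + 1), (m : ℝ) := by
      have e1 : ∑ i ∈ univ.filter (fun i : {p // p ∈ PP W T} => bk κ T i.1 = b), (i.1 : ℝ) =
          ∑ m ∈ (univ.filter (fun i : {p // p ∈ PP W T} => bk κ T i.1 = b)).map
            (Function.Embedding.subtype _), (m : ℝ) := by
        rw [sum_map]
        rfl
      rw [e1]
      refine sum_le_sum_of_subset_of_nonneg ?_ fun _ _ _ => Nat.cast_nonneg _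
      intro m hm
      rw [mem_map] at hm
      obtain ⟨i, hi, rfl⟩ := hm
      rw [mem_range]
      exact Nat.lt_succ_of_le (Nat.le_floor (hle i hi))
    have hgauss : ∀ n : ℕ, ∑ m ∈ range (n + 1), (m : ℝ) = (n : ℝ) * (n + 1) / 2 := by
      intro n
      induction n with
      | zero => simp
      | succ n ih =>
        rw [sum_range_succ, ih]
        push_cast
        ring
    rw [hgauss] at hsum
    have hfl : ((⌊y⌋₊ : ℕ) : ℝ) ≤ y := Nat.floor_le (by linarith)
    have hfl0 : (0 : ℝ) ≤ (⌊y⌋₊ : ℕ) := Nat.cast_nonneg _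
    have h5 : ((⌊y⌋₊ : ℕ) : ℝ) * ((⌊y⌋₊ : ℕ) + 1) ≤ y * (y + 1) :=
      mul_le_mul hfl (by linarith) (by positivity) (by linarith)
    have h6 : 1 + y * (y + 1) / 2 ≤ y ^ 3 := by nlinarith [mul_nonneg (by linarith : 0 ≤ y - 2) (sq_nonneg y)]
    linarith

/-- `Σ_{b ≥ i} 2 (r0 + b - i) 3 T/κ^b ≤ 6 (T/κ^i) Σ_c (r0 + c) 2^-c ≤ 12 (r0 + 1) T/κ^i`. -/
theorem prod_XB_le (hκ : 2 ≤ κ) (hT : 0 ≤ T) (r0 i N : ℕ) :
    ∏ b ∈ Ico i N,
        (1 + XB (fun i : {p // p ∈ PP W T} => i.1) (fun i => bk κ T i.1) b) ^ (2 * (r0 + (b - i)))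
      ≤ Real.exp (12 * ((r0 : ℝ) + 1) * (T / κ ^ i)) := by
  have hκ2 : (2 : ℝ) ≤ κ := by exact_mod_cast hκ
  set U : ℝ := T / (κ : ℝ) ^ i with hU
  have hU0 : 0 ≤ U := by positivity
  rw [prod_Ico_eq_prod_range]
  have hterm : ∀ c ∈ range (N - i),
      (1 + XB (fun i : {p // p ∈ PP W T} => i.1) (fun i => bk κ T i.1) (i + c)) ^
        (2 * (r0 + (i + c - i))) ≤ Real.exp (6 * U * (((r0 : ℝ) + c) / 2 ^ c)) := by
    intro c _
    have hXB0 : 0 ≤ XB (fun i : {p // p ∈ PP W T} => i.1) (fun i => bk κ T i.1) (i + c) := by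
      unfold XB
      exact sum_nonneg fun _ _ => Nat.cast_nonneg _
    have h1 := pow_le_pow_left₀ (by linarith) (XB_le κ W T hκ hT (i + c)) (2 * (r0 + (i + c - i)))
    refine h1.trans ?_
    rw [← Real.exp_nat_mul]
    refine Real.exp_le_exp.2 ?_
    have h2 : i + c - i = c := by omega
    rw [h2]
    push_cast
    have h3 : T / (κ : ℝ) ^ (i + c) = U / (κ : ℝ) ^ c := by
      rw [hU, pow_add, div_div]
    rw [h3]
    have h4 : U / (κ : ℝ) ^ c ≤ U / 2 ^ c :=
      div_le_div_of_nonneg_left hU0 (by positivity) (pow_le_pow_left₀ (by norm_num) hκ2 c)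
    have h5 : 2 * ((r0 : ℝ) + c) * (3 * (U / (κ : ℝ) ^ c)) ≤
        2 * ((r0 : ℝ) + c) * (3 * (U / 2 ^ c)) :=
      mul_le_mul_of_nonneg_left (by linarith) (by positivity)
    refine h5.trans (le_of_eq ?_)
    ring
  refine (prod_le_prod (fun c _ => ?_) hterm).trans ?_
  · have hXB0 : 0 ≤ XB (fun i : {p // p ∈ PP W T} => i.1) (fun i => bk κ T i.1) (i + c) := by
      unfold XB
      exact sum_nonneg fun _ _ => Nat.cast_nonneg _
    exact pow_nonneg (by linarith) _
  · rw [← Real.exp_sum, ← mul_sum]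
    refine Real.exp_le_exp.2 ?_
    have hS : ∀ n : ℕ, ∑ c ∈ range n, ((r0 : ℝ) + c) / 2 ^ c =
        2 * ((r0 : ℝ) + 1) - 2 * ((r0 : ℝ) + n + 1) / 2 ^ n := by
      intro n
      induction n with
      | zero => simp
      | succ n ih =>
        rw [sum_range_succ, ih, pow_succ]
        push_cast
        field_simp
        ring
    rw [hS]
    have h6 : 0 ≤ 2 * ((r0 : ℝ) + (N - i : ℕ) + 1) / 2 ^ (N - i) := by positivity
    have h7 := mul_nonneg hU0 h6
    nlinarith

/-- `T/log p ≤ 2 T` for `p ≥ 2` (`log 2 ≥ 1/2`). -/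
theorem bk_lt (hT : 0 ≤ T) (p : ℕ) (hp : p ∈ PP W T) :
    bk κ T p < Nat.log κ ⌊2 * T⌋₊ + 1 := by
  obtain ⟨h1, -, -⟩ := NT2_mem W T p hp
  unfold bk
  refine Nat.lt_succ_of_le (Nat.log_mono_right (Nat.floor_le_floor ?_))
  have h2 : (2 : ℝ) ≤ p := by exact_mod_cast h1.two_le
  have h3 : 1 / 2 ≤ Real.log p := by
    have := Real.log_le_log (by norm_num) h2
    linarith [Real.log_two_gt_d9]
  rw [div_le_iff₀ (by linarith)]
  nlinarith

end Pool.Agent.Lib.H15P
end

-- from Lib.H15P.NT1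
section

/-!
# Chunk NT1: Mertens products over blocks
-/

open Finset

namespace Pool.Agent.Lib.H15P

theorem NT1_split (f : ℕ → ℝ) (a b : ℕ) (hab : a ≤ b) :
    ∏ p ∈ Sieve.primesUpTo b, f p =
      (∏ p ∈ Sieve.primesUpTo a, f p) * ∏ p ∈ (Ioc a b).filter Nat.Prime, f p := by
  have h1 : Sieve.primesUpTo b = Sieve.primesUpTo a ∪ (Ioc a b).filter Nat.Prime := by
    ext p
    rw [mem_union, Sieve.mem_primesUpTo, Sieve.mem_primesUpTo, mem_filter, mem_Ioc]
    constructor
    · rintro ⟨h1, h2⟩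
      rcases le_or_gt p a with h | h
      · exact Or.inl ⟨h1, h⟩
      · exact Or.inr ⟨⟨h, h2⟩, h1⟩
    · rintro (⟨h1, h2⟩ | ⟨⟨h1, h2⟩, h3⟩)
      · exact ⟨h1, h2.trans hab⟩
      · exact ⟨h3, h2⟩
  rw [h1, prod_union]
  rw [disjoint_left]
  intro p hp hp'
  rw [Sieve.mem_primesUpTo] at hp
  rw [mem_filter, mem_Ioc] at hp'
  omega

theorem NT1_pos (p : ℕ) (hp : p.Prime) : 0 < 1 - 1 / (p : ℝ) := by
  have h2 : (2 : ℝ) ≤ p := by exact_mod_cast hp.two_le
  have : 1 / (p : ℝ) ≤ 1 / 2 := one_div_le_one_div_of_le (by norm_num) h2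
  linarith

/-- `∏_{a < p ≤ b} (1 - 1/p) ≤ 500 log a / log b`, from `Sieve.prod_one_sub_inv_le b` and
`Helper57.prod_one_sub_inv_inv_le a`. -/
theorem mertens_prod_le (a b : ℕ) (ha : 2 ≤ a) (hab : a ≤ b) :
    ∏ p ∈ (Ioc a b).filter Nat.Prime, (1 - 1 / (p : ℝ)) ≤ 500 * (Real.log a / Real.log b) := by
  have hloga : 0 < Real.log a := Real.log_pos (by exact_mod_cast (by omega : 1 < a))
  have hlogb : 0 < Real.log b := Real.log_pos (by exact_mod_cast (by omega : 1 < b))
  have h1 := Sieve.prod_one_sub_inv_le b (ha.trans hab)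
  have h2 := Helper57.prod_one_sub_inv_inv_le a ha
  rw [NT1_split _ a b hab] at h1
  have hpos : 0 < ∏ p ∈ Sieve.primesUpTo a, (1 - 1 / (p : ℝ)) :=
    prod_pos fun p hp => NT1_pos p (Sieve.mem_primesUpTo.mp hp).1
  rw [prod_inv_distrib] at h2
  have h3 : ∏ p ∈ (Ioc a b).filter Nat.Prime, (1 - 1 / (p : ℝ)) ≤
      (∏ p ∈ Sieve.primesUpTo a, (1 - 1 / (p : ℝ)))⁻¹ * (1 / Real.log b) := by
    rw [inv_mul_eq_div, le_div_iff₀ hpos]
    linarith
  refine h3.trans ((mul_le_mul_of_nonneg_right h2 (by positivity)).trans (le_of_eq ?_))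
  ring

/-- `Σ_{a < p ≤ b} 1/p ≤ -Σ log (1 - 1/p) ≤ log (500 log b/log a)`. -/
theorem mertens_sum_le (a b : ℕ) (ha : 2 ≤ a) (hab : a ≤ b) :
    ∑ p ∈ (Ioc a b).filter Nat.Prime, 1 / (p : ℝ)
      ≤ Real.log (500 * (Real.log b / Real.log a)) := by
  have hloga : 0 < Real.log a := Real.log_pos (by exact_mod_cast (by omega : 1 < a))
  have hlogb : 0 < Real.log b := Real.log_pos (by exact_mod_cast (by omega : 1 < b))
  have h1 := Sieve.prod_one_sub_inv_le a ha
  have h2 := Helper57.prod_one_sub_inv_inv_le b (ha.trans hab)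
  have hposa : 0 < ∏ p ∈ Sieve.primesUpTo a, (1 - 1 / (p : ℝ)) :=
    prod_pos fun p hp => NT1_pos p (Sieve.mem_primesUpTo.mp hp).1
  have hposab : 0 < ∏ p ∈ (Ioc a b).filter Nat.Prime, (1 - 1 / (p : ℝ)) :=
    prod_pos fun p hp => NT1_pos p (mem_filter.1 hp).2
  rw [prod_inv_distrib, NT1_split _ a b hab] at h2
  have h3 : (∏ p ∈ (Ioc a b).filter Nat.Prime, (1 - 1 / (p : ℝ)))⁻¹ ≤
      500 * (Real.log b / Real.log a) := by
    rw [mul_inv] at h2
    have e1 : (∏ p ∈ (Ioc a b).filter Nat.Prime, (1 - 1 / (p : ℝ)))⁻¹ =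
        (∏ p ∈ Sieve.primesUpTo a, (1 - 1 / (p : ℝ))) *
          ((∏ p ∈ Sieve.primesUpTo a, (1 - 1 / (p : ℝ)))⁻¹ *
          (∏ p ∈ (Ioc a b).filter Nat.Prime, (1 - 1 / (p : ℝ)))⁻¹) := by
      field_simp
    rw [e1]
    calc _ ≤ (1 / Real.log a) * (500 * Real.log b) :=
          mul_le_mul h1 h2 (by positivity) (by positivity)
      _ = _ := by ring
  refine le_trans ?_ (Real.log_le_log (by positivity) h3)
  rw [Real.log_inv, Real.log_prod (fun p hp => (NT1_pos p (mem_filter.1 hp).2).ne'),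
    ← sum_neg_distrib]
  refine sum_le_sum fun p hp => ?_
  have := Real.log_le_sub_one_of_pos (NT1_pos p (mem_filter.1 hp).2)
  linarith

variable (κ W K : ℕ) (T : ℝ)

theorem NT1_frac (hK : 1 ≤ K) (hKW : 4 * K ^ 2 ≤ W) (p : ℕ) (hp : p.Prime) (hWp : W < p) :
    (1 / (p : ℝ) + 2 * K / (p : ℝ) ^ 2) / (1 + 2 * K / (p : ℝ) ^ 2) /
      (1 - (1 / (p : ℝ) + 2 * K / (p : ℝ) ^ 2) / (1 + 2 * K / (p : ℝ) ^ 2)) ≤ 4 * (1 / (p : ℝ)) ∧
    1 - (1 / (p : ℝ) + 2 * K / (p : ℝ) ^ 2) / (1 + 2 * K / (p : ℝ) ^ 2) ≤ 1 - 1 / (p : ℝ) ∧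
    0 ≤ 1 - (1 / (p : ℝ) + 2 * K / (p : ℝ) ^ 2) / (1 + 2 * K / (p : ℝ) ^ 2) := by
  have hp2 : (2 : ℝ) ≤ p := by exact_mod_cast hp.two_le
  have hp0 : (0 : ℝ) < p := by linarith
  have hK1 : (1 : ℝ) ≤ K := by exact_mod_cast hK
  have hKp : 4 * (K : ℝ) ≤ p := by
    have h1 : 4 * K ≤ p := by nlinarith
    exact_mod_cast h1
  set x : ℝ := 1 / (p : ℝ) with hx
  have hx0 : 0 < x := by positivity
  have hx2 : x ≤ 1 / 2 := one_div_le_one_div_of_le (by norm_num) hp2
  set y : ℝ := 2 * K / (p : ℝ) ^ 2 with hy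
  have hy0 : 0 < y := by positivity
  have hyx : y ≤ x / 2 := by
    rw [hy, hx, div_div, div_le_div_iff₀ (by positivity) (by positivity)]
    nlinarith
  have hden : 0 < 1 + y := by linarith
  have h1 : 1 - (x + y) / (1 + y) = (1 - x) / (1 + y) := by
    field_simp
    ring
  rw [h1]
  have h1x : 0 < 1 - x := by linarith
  refine ⟨?_, ?_, by positivity⟩
  · rw [div_div_div_cancel_right₀ hden.ne', div_le_iff₀ h1x]
    nlinarith
  · rw [div_le_iff₀ hden]
    nlinarith

theorem NT1_bk (hκ : 2 ≤ κ) (p b : ℕ) (h1 : (κ : ℝ) ^ b ≤ T / Real.log p)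
    (h2 : T / Real.log p < (κ : ℝ) ^ (b + 1)) : bk κ T p = b := by
  have h0 : 0 ≤ T / Real.log p := le_trans (by positivity) h1
  unfold bk
  refine Nat.log_eq_of_pow_le_of_lt_pow ?_ ?_
  · exact Nat.le_floor (by rw [Nat.cast_pow]; exact h1)
  · rw [Nat.floor_lt h0, Nat.cast_pow]
    exact h2

/-- `qq/(1 - qq) = (1/p + 2K/p^2)/(1 - 1/p) ≤ 4/p`. In a block the logarithms of two primes differ
at most by the factor `κ`; with `a` = the smallest and `b` = the largest prime of the block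
`Σ 1/p ≤ 1/a + log (500 κ) ≤ log (1000 κ)`. -/
theorem block_sum_le (hκ : 2 ≤ κ) (hW : 2 ≤ W) (hK : 1 ≤ K) (hKW : 4 * K ^ 2 ≤ W)
    (hT : 0 ≤ T) (b : ℕ) :
    ∑ i ∈ univ.filter (fun i : {p // p ∈ PP W T} => bk κ T i.1 = b),
        qq (PP W T) K i / (1 - qq (PP W T) K i) ≤ 4 * Real.log (1000 * κ) := by
  have hκ2 : (2 : ℝ) ≤ κ := by exact_mod_cast hκ
  have h1 : ∑ i ∈ univ.filter (fun i : {p // p ∈ PP W T} => bk κ T i.1 = b),
        qq (PP W T) K i / (1 - qq (PP W T) K i) ≤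
      ∑ i ∈ univ.filter (fun i : {p // p ∈ PP W T} => bk κ T i.1 = b), 4 * (1 / (i.1 : ℝ)) := by
    refine sum_le_sum fun i _ => ?_
    obtain ⟨h1, h2, -⟩ := NT2_mem W T i.1 i.2
    exact (NT1_frac W K hK hKW i.1 h1 h2).1
  refine h1.trans ?_
  rw [← mul_sum]
  refine mul_le_mul_of_nonneg_left ?_ (by norm_num)
  have h2 : ∑ i ∈ univ.filter (fun i : {p // p ∈ PP W T} => bk κ T i.1 = b), 1 / (i.1 : ℝ) =
      ∑ p ∈ (PP W T).filter (fun p => bk κ T p = b), 1 / (p : ℝ) := by
    rw [sum_filter, sum_filter]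
    exact Finset.sum_coe_sort (PP W T) (fun p => if bk κ T p = b then 1 / (p : ℝ) else 0)
  rw [h2]
  set B := (PP W T).filter (fun p => bk κ T p = b) with hB
  have hmem : ∀ p ∈ B, p.Prime ∧ W < p ∧ Real.log p ≤ T ∧ bk κ T p = b := by
    intro p hp
    rw [hB, mem_filter] at hp
    obtain ⟨h1, h2, h3⟩ := NT2_mem W T p hp.1
    exact ⟨h1, h2, h3, hp.2⟩
  rcases B.eq_empty_or_nonempty with h | h
  · rw [h, sum_empty]
    exact Real.log_nonneg (by linarith)
  · set a := B.min' h with ha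
    set c := B.max' h with hc
    obtain ⟨a1, a2, a3, a4⟩ := hmem a (B.min'_mem h)
    obtain ⟨c1, c2, c3, c4⟩ := hmem c (B.max'_mem h)
    have hac : a ≤ c := B.min'_le_max' h
    have ha2 : 2 ≤ a := a1.two_le
    have hloga : 0 < Real.log a := Real.log_pos (by exact_mod_cast (by omega : 1 < a))
    have hlogc : 0 < Real.log c := Real.log_pos (by exact_mod_cast (by omega : 1 < c))
    have hsa := (bk_spec κ T hκ a a1 a3).2
    have hsc := (bk_spec κ T hκ c c1 c3).1
    rw [a4, div_lt_iff₀ hloga] at hsa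
    rw [c4, le_div_iff₀ hlogc] at hsc
    have hratio : Real.log c / Real.log a ≤ κ := by
      rw [div_le_iff₀ hloga]
      have h3 : (κ : ℝ) ^ b * Real.log c ≤ (κ : ℝ) ^ b * (κ * Real.log a) := by
        rw [pow_succ] at hsa
        linarith
      exact le_of_mul_le_mul_left h3 (by positivity)
    have hsub : B ⊆ insert a ((Ioc a c).filter Nat.Prime) := by
      intro p hp
      rw [mem_insert, mem_filter, mem_Ioc]
      have h3 := B.min'_le p hp
      have h4 := B.le_max' p hp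
      rcases eq_or_lt_of_le h3 with h5 | h5
      · exact Or.inl h5.symm
      · exact Or.inr ⟨⟨h5, h4⟩, (hmem p hp).1⟩
    have h3 : ∑ p ∈ B, 1 / (p : ℝ) ≤ 1 / (a : ℝ) + ∑ p ∈ (Ioc a c).filter Nat.Prime, 1 / (p : ℝ) := by
      refine (sum_le_sum_of_subset_of_nonneg hsub fun _ _ _ => by positivity).trans (le_of_eq ?_)
      rw [sum_insert]
      rw [mem_filter, mem_Ioc]
      omega
    have h4 := mertens_sum_le a c ha2 hac
    have h5 : Real.log (500 * (Real.log c / Real.log a)) ≤ Real.log (500 * κ) :=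
      Real.log_le_log (by positivity) (by linarith)
    have h6 : Real.log (1000 * (κ : ℝ)) = Real.log 2 + Real.log (500 * κ) := by
      rw [← Real.log_mul (by norm_num) (by positivity)]
      congr 1
      ring
    have h7 : 1 / (a : ℝ) ≤ 1 / 2 := one_div_le_one_div_of_le (by norm_num) (by exact_mod_cast ha2)
    have h8 := Real.log_two_gt_d9
    rw [h6]
    linarith

theorem NT1_floor (y : ℝ) (hy : 2 ≤ y) : y / 2 ≤ Real.log (⌊Real.exp y⌋₊ : ℕ) ∧
    Real.log (⌊Real.exp y⌋₊ : ℕ) ≤ y ∧ 2 ≤ ⌊Real.exp y⌋₊ := by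
  have h1 : 3 ≤ Real.exp y := by linarith [Real.add_one_le_exp y]
  have h2 : Real.exp y < (⌊Real.exp y⌋₊ : ℕ) + 1 := Nat.lt_floor_add_one _
  have h3 : ((⌊Real.exp y⌋₊ : ℕ) : ℝ) ≤ Real.exp y := Nat.floor_le (by linarith)
  have h4 : 2 ≤ ⌊Real.exp y⌋₊ := Nat.le_floor (by push_cast; linarith)
  have h4' : (2 : ℝ) ≤ (⌊Real.exp y⌋₊ : ℕ) := by exact_mod_cast h4
  refine ⟨?_, ?_, h4⟩
  · have h5 : Real.exp (y / 2) ≤ (⌊Real.exp y⌋₊ : ℕ) := by
      have h6 : Real.exp y = Real.exp (y / 2) * Real.exp (y / 2) := by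
        rw [← Real.exp_add]
        congr 1
        ring
      have h7 : 2 ≤ Real.exp (y / 2) := by linarith [Real.add_one_le_exp (y / 2)]
      nlinarith
    rwa [Real.le_log_iff_exp_le (by linarith)]
  · rw [Real.log_le_iff_le_exp (by linarith)]
    exact h3

theorem NT1_prod_coe (P : Finset ℕ) (f : ℕ → ℝ) (g : ℕ → Prop) [DecidablePred g] :
    ∏ i ∈ univ.filter (fun i : {p // p ∈ P} => g i.1), f i.1 = ∏ p ∈ P.filter g, f p := by
  rw [prod_filter, prod_filter]
  exact Finset.prod_coe_sort P (fun p => if g p then f p else 1)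

/-- products over larger sets of factors in `[0, 1]` -/
theorem NT1_mono (s t : Finset ℕ) (hst : s ⊆ t) (f g : ℕ → ℝ)
    (h0 : ∀ p ∈ t, 0 ≤ f p) (h1 : ∀ p ∈ t, f p ≤ g p) (h2 : ∀ p ∈ t, g p ≤ 1) :
    ∏ p ∈ t, f p ≤ ∏ p ∈ s, g p := by
  rw [← prod_sdiff hst]
  have h3 : ∏ p ∈ t \ s, f p ≤ 1 :=
    prod_le_one (fun p hp => h0 p (mem_sdiff.1 hp).1) fun p hp =>
      (h1 p (mem_sdiff.1 hp).1).trans (h2 p (mem_sdiff.1 hp).1)
  have h4 : ∏ p ∈ s, f p ≤ ∏ p ∈ s, g p :=
    prod_le_prod (fun p hp => h0 p (hst hp)) fun p hp => h1 p (hst hp)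
  calc _ ≤ 1 * ∏ p ∈ s, f p :=
        mul_le_mul_of_nonneg_right h3 (prod_nonneg fun p hp => h0 p (hst hp))
    _ ≤ _ := by rw [one_mul]; exact h4

/-- The block consists of all primes in `(⌊exp (T/κ^(b+1))⌋, ⌊exp (T/κ^b)⌋]`, because
`W ≤ exp (T/κ^(b+1))`; `1 - qq ≤ 1 - 1/p`, `mertens_prod_le`, and
`log ⌊exp y⌋ ≥ y - log 2 ≥ y/2` for `y ≥ 2`. -/
theorem p0_le (hκ : 2 ≤ κ) (hW : 2 ≤ W) (hK : 1 ≤ K) (hKW : 4 * K ^ 2 ≤ W) (b : ℕ)
    (hT : Real.log W ≤ T / κ ^ (b + 1)) (hT2 : 2 ≤ T / κ ^ b) :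
    p0 (qq (PP W T) K) (fun i => bk κ T i.1) b ≤ 1000 / κ := by
  have hκ2 : (2 : ℝ) ≤ κ := by exact_mod_cast hκ
  have hκ0 : (0 : ℝ) < κ := by linarith
  have hκb : (0 : ℝ) < (κ : ℝ) ^ b := by positivity
  have hT0 : 0 < T := by
    rw [le_div_iff₀ hκb] at hT2
    linarith
  have hTb : T / (κ : ℝ) ^ b ≤ T :=
    div_le_self hT0.le (one_le_pow₀ (by linarith))
  set y : ℝ := T / (κ : ℝ) ^ b with hy
  set y' : ℝ := T / (κ : ℝ) ^ (b + 1) with hy'
  have hyy : y' = y / κ := by rw [hy, hy', pow_succ, div_div]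
  have hW2 : (2 : ℝ) ≤ W := by exact_mod_cast hW
  have hWexp : (W : ℝ) ≤ Real.exp y' := (Real.log_le_iff_le_exp (by linarith)).1 hT
  have hWa : W ≤ ⌊Real.exp y'⌋₊ := Nat.le_floor hWexp
  have hy'y : y' ≤ y := by
    rw [hyy]
    exact div_le_self (by linarith) (by linarith)
  have hac : ⌊Real.exp y'⌋₊ ≤ ⌊Real.exp y⌋₊ := Nat.floor_le_floor (Real.exp_le_exp.2 hy'y)
  have hm := mertens_prod_le ⌊Real.exp y'⌋₊ ⌊Real.exp y⌋₊ (hW.trans hWa) hac
  obtain ⟨f1, f2, f3⟩ := NT1_floor y hT2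
  have hloga : Real.log (⌊Real.exp y'⌋₊ : ℕ) ≤ y' := by
    have h1 : (2 : ℝ) ≤ (⌊Real.exp y'⌋₊ : ℕ) := by exact_mod_cast hW.trans hWa
    rw [Real.log_le_iff_le_exp (by linarith)]
    exact Nat.floor_le (Real.exp_pos _).le
  have h5 : 500 * (Real.log (⌊Real.exp y'⌋₊ : ℕ) / Real.log (⌊Real.exp y⌋₊ : ℕ)) ≤ 1000 / κ := by
    have h6 : Real.log (⌊Real.exp y'⌋₊ : ℕ) / Real.log (⌊Real.exp y⌋₊ : ℕ) ≤ y' / (y / 2) :=
      div_le_div₀ (by rw [hyy]; positivity) hloga (by linarith) f1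
    have h7 : y' / (y / 2) = 2 / κ := by
      rw [hyy]
      have : y ≠ 0 := by linarith
      field_simp
    rw [h7] at h6
    calc _ ≤ 500 * (2 / (κ : ℝ)) := by linarith
      _ = _ := by ring
  refine le_trans ?_ (hm.trans h5)
  unfold p0
  have h8 := NT1_prod_coe (PP W T) (fun p => 1 - (1 / (p : ℝ) + 2 * K / (p : ℝ) ^ 2) /
    (1 + 2 * K / (p : ℝ) ^ 2)) (fun p => bk κ T p = b)
  refine (le_of_eq h8).trans (NT1_mono _ _ ?_ _ _ ?_ ?_ ?_)
  · intro p hp
    rw [mem_filter, mem_Ioc] at hp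
    obtain ⟨⟨g1, g2⟩, g3⟩ := hp
    have hlogp : 0 < Real.log p := Real.log_pos (by exact_mod_cast g3.one_lt)
    have e1 : y' < Real.log p := by
      rw [Real.lt_log_iff_exp_lt (by exact_mod_cast g3.pos)]
      exact (Nat.floor_lt (Real.exp_pos _).le).1 g1
    have e2 : Real.log p ≤ y := by
      rw [Real.log_le_iff_le_exp (by exact_mod_cast g3.pos)]
      exact (Nat.le_floor_iff (Real.exp_pos _).le).1 g2
    rw [mem_filter]
    constructor
    · unfold PP
      rw [mem_filter, mem_Ioc]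
      refine ⟨⟨by omega, Nat.le_floor ?_⟩, g3⟩
      rw [← Real.log_le_iff_le_exp (by exact_mod_cast g3.pos)]
      linarith
    · refine NT1_bk κ T hκ p b ?_ ?_
      · rw [le_div_iff₀ hlogp]
        rw [hy, le_div_iff₀ hκb] at e2
        linarith
      · rw [div_lt_iff₀ hlogp]
        rw [hy', div_lt_iff₀ (by positivity)] at e1
        linarith
  · intro p hp
    obtain ⟨h1, h2, -⟩ := NT2_mem W T p (mem_filter.1 hp).1
    exact (NT1_frac W K hK hKW p h1 h2).2.2
  · intro p hp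
    obtain ⟨h1, h2, -⟩ := NT2_mem W T p (mem_filter.1 hp).1
    exact (NT1_frac W K hK hKW p h1 h2).2.1
  · intro p _
    have : 0 ≤ 1 / (p : ℝ) := by positivity
    linarith

/-- The blocks `i, .., N - 1` contain all primes in `(W, ⌊exp (T/κ^i)⌋]`. -/
theorem prod_p0_le (hκ : 2 ≤ κ) (hW : 2 ≤ W) (hK : 1 ≤ K) (hKW : 4 * K ^ 2 ≤ W) (i N : ℕ)
    (hN : ∀ p ∈ PP W T, bk κ T p < N)
    (hT : Real.log W ≤ T / κ ^ i) (hT2 : 2 ≤ T / κ ^ i) :
    ∏ b ∈ Ico i N, p0 (qq (PP W T) K) (fun i => bk κ T i.1) b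
      ≤ 1000 * Real.log W * κ ^ i / T := by
  have hκ2 : (2 : ℝ) ≤ κ := by exact_mod_cast hκ
  have hκ0 : (0 : ℝ) < κ := by linarith
  have hκb : (0 : ℝ) < (κ : ℝ) ^ i := by positivity
  have hT0 : 0 < T := by
    rw [le_div_iff₀ hκb] at hT2
    linarith
  have hTb : T / (κ : ℝ) ^ i ≤ T :=
    div_le_self hT0.le (one_le_pow₀ (by linarith))
  set y : ℝ := T / (κ : ℝ) ^ i with hy
  have hW2 : (2 : ℝ) ≤ W := by exact_mod_cast hW
  have hWexp : (W : ℝ) ≤ Real.exp y := (Real.log_le_iff_le_exp (by linarith)).1 hT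
  have hWa : W ≤ ⌊Real.exp y⌋₊ := Nat.le_floor hWexp
  have hm := mertens_prod_le W ⌊Real.exp y⌋₊ hW hWa
  obtain ⟨f1, f2, f3⟩ := NT1_floor y hT2
  have hlogW : 0 < Real.log W := Real.log_pos (by linarith)
  have h5 : 500 * (Real.log W / Real.log (⌊Real.exp y⌋₊ : ℕ)) ≤
      1000 * Real.log W * (κ : ℝ) ^ i / T := by
    have h6 : Real.log W / Real.log (⌊Real.exp y⌋₊ : ℕ) ≤ Real.log W / (y / 2) :=
      div_le_div_of_nonneg_left hlogW.le (by linarith) f1
    have h7 : 500 * (Real.log W / (y / 2)) = 1000 * Real.log W * (κ : ℝ) ^ i / T := by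
      rw [hy]
      field_simp
      ring
    linarith
  refine le_trans ?_ (hm.trans h5)
  have h8 : ∀ b, p0 (qq (PP W T) K) (fun i => bk κ T i.1) b =
      ∏ p ∈ (PP W T).filter (fun p => bk κ T p = b),
        (1 - (1 / (p : ℝ) + 2 * K / (p : ℝ) ^ 2) / (1 + 2 * K / (p : ℝ) ^ 2)) := fun b =>
    NT1_prod_coe (PP W T) (fun p => 1 - (1 / (p : ℝ) + 2 * K / (p : ℝ) ^ 2) /
    (1 + 2 * K / (p : ℝ) ^ 2)) (fun p => bk κ T p = b)
  simp only [h8]
  have h9 : ∏ b ∈ Ico i N, ∏ p ∈ (PP W T).filter (fun p => bk κ T p = b),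
        (1 - (1 / (p : ℝ) + 2 * K / (p : ℝ) ^ 2) / (1 + 2 * K / (p : ℝ) ^ 2)) =
      ∏ p ∈ (PP W T).filter (fun p => bk κ T p ∈ Ico i N),
        (1 - (1 / (p : ℝ) + 2 * K / (p : ℝ) ^ 2) / (1 + 2 * K / (p : ℝ) ^ 2)) := by
    rw [← prod_fiberwise_of_maps_to (s := (PP W T).filter (fun p => bk κ T p ∈ Ico i N))
      (t := Ico i N) (g := bk κ T) (fun p hp => (mem_filter.1 hp).2)]
    refine prod_congr rfl fun b hb => ?_
    rw [filter_filter]
    refine prod_congr ?_ fun _ _ => rfl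
    ext p
    rw [mem_filter, mem_filter]
    constructor
    · rintro ⟨g1, g2⟩
      exact ⟨g1, by rw [g2]; exact hb, g2⟩
    · rintro ⟨g1, -, g2⟩
      exact ⟨g1, g2⟩
  rw [h9]
  refine NT1_mono _ _ ?_ _ _ ?_ ?_ ?_
  · intro p hp
    rw [mem_filter, mem_Ioc] at hp
    obtain ⟨⟨g1, g2⟩, g3⟩ := hp
    have hlogp : 0 < Real.log p := Real.log_pos (by exact_mod_cast g3.one_lt)
    have e2 : Real.log p ≤ y := by
      rw [Real.log_le_iff_le_exp (by exact_mod_cast g3.pos)]
      exact (Nat.le_floor_iff (Real.exp_pos _).le).1 g2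
    have hpP : p ∈ PP W T := by
      unfold PP
      rw [mem_filter, mem_Ioc]
      refine ⟨⟨by omega, Nat.le_floor ?_⟩, g3⟩
      rw [← Real.log_le_iff_le_exp (by exact_mod_cast g3.pos)]
      linarith
    rw [mem_filter, mem_Ico]
    refine ⟨hpP, ?_, hN p hpP⟩
    have e3 := (bk_spec κ T hκ p g3 (by linarith)).2
    have e4 : (κ : ℝ) ^ i ≤ T / Real.log p := by
      rw [le_div_iff₀ hlogp]
      rw [hy, le_div_iff₀ hκb] at e2
      linarith
    have e5 : (κ : ℝ) ^ i < (κ : ℝ) ^ (bk κ T p + 1) := lt_of_le_of_lt e4 e3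
    have e6 := (pow_lt_pow_iff_right₀ (by linarith : (1 : ℝ) < κ)).1 e5
    omega
  · intro p hp
    obtain ⟨h1, h2, -⟩ := NT2_mem W T p (mem_filter.1 hp).1
    exact (NT1_frac W K hK hKW p h1 h2).2.2
  · intro p hp
    obtain ⟨h1, h2, -⟩ := NT2_mem W T p (mem_filter.1 hp).1
    exact (NT1_frac W K hK hKW p h1 h2).2.1
  · intro p _
    have : 0 ≤ 1 / (p : ℝ) := by positivity
    linarith

end Pool.Agent.Lib.H15P
end

-- from Lib.H92G.E6
section

/-!
# Chunk E6: the mean value `EU`, and `Q/φ(Q)`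
-/

open Finset

namespace Pool.Agent.Lib.H92G

open Pool.Agent.Lib.H15P

variable {J : Type} [Fintype J] [DecidableEq J]

theorem e6_totient (P : Finset ℕ) (hp : ∀ p ∈ P, p.Prime) :
    ((∏ p ∈ P, p).totient : ℝ) = ∏ p ∈ P, ((p : ℝ) - 1) := by
  induction P using Finset.induction_on with
  | empty => simp
  | insert a s ha ih =>
    have hap := hp a (mem_insert_self a s)
    have hcop : Nat.Coprime a (∏ p ∈ s, p) := by
      rw [Nat.coprime_prod_right_iff]
      intro q hq
      rw [Nat.coprime_primes hap (hp q (mem_insert_of_mem hq))]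
      rintro rfl
      exact ha hq
    rw [prod_insert ha, prod_insert ha, Nat.totient_mul hcop, Nat.totient_prime hap,
      Nat.cast_mul, ih (fun q hq => hp q (mem_insert_of_mem hq)), Nat.cast_sub hap.one_le,
      Nat.cast_one]

theorem e6_ratio (P : Finset ℕ) (hp : ∀ p ∈ P, p.Prime) :
    ((∏ p ∈ P, p : ℕ) : ℝ) / ((∏ p ∈ P, p).totient : ℝ) = ∏ p ∈ P, (1 - 1 / (p : ℝ))⁻¹ := by
  rw [e6_totient P hp, Nat.cast_prod, ← prod_div_distrib]
  refine prod_congr rfl fun p hpP => ?_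
  have h2 : (2 : ℝ) ≤ p := by exact_mod_cast (hp p hpP).two_le
  have h3 : (p : ℝ) - 1 ≠ 0 := by linarith
  have h4 : (p : ℝ) ≠ 0 := by linarith
  field_simp

theorem e6_hit (P : Finset ℕ) (hp : ∀ p ∈ P, p.Prime) (e : ℕ) :
    hit P e = ∅ ↔ e.Coprime (∏ p ∈ P, p) := by
  rw [Nat.coprime_prod_right_iff]
  unfold hit
  rw [filter_eq_empty_iff]
  constructor
  · intro h p hpP
    rw [Nat.coprime_comm, Nat.Prime.coprime_iff_not_dvd (hp p hpP)]
    exact h (mem_univ ⟨p, hpP⟩)
  · intro h p _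
    have := h p.1 p.2
    rwa [Nat.coprime_comm, Nat.Prime.coprime_iff_not_dvd (hp p.1 p.2)] at this



/-- `φ(Q)/Q = ∏ (1 - 1/p)`, `1 - qq p = (1 - 1/p)/(1 + 2K/p^2)`, and
`∏ 1/(1 + 2K/p^2) ≥ 1 - ∑ 2K/p^2 ≥ 1 - 2K/W` (`sum_inv_sq_le`). -/
theorem p_empty_ge (P : Finset ℕ) (W K : ℕ) (hp : ∀ p ∈ P, p.Prime) (hK : 1 ≤ K)
    (hKW : 4 * K ^ 2 ≤ W) (hb : ∀ p ∈ P, W < p) :
    1 - 2 * (K : ℝ) / W ≤ (((∏ p ∈ P, p : ℕ) : ℝ) / ((∏ p ∈ P, p).totient : ℝ)) *
      ∏ i, (1 - qq P K i) := by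
  have hW1 : 1 ≤ W := by nlinarith
  have hK1 : (1 : ℝ) ≤ K := by exact_mod_cast hK
  have hpK : ∀ p ∈ P, 4 * (K : ℝ) ≤ p := by
    intro p hpP
    have := hb p hpP
    have h2 : 4 * K ≤ p := by nlinarith
    exact_mod_cast h2
  have e1 : ∏ i, (1 - qq P K i)
      = ∏ p ∈ P, ((1 - 1 / (p : ℝ)) / (1 + 2 * K / (p : ℝ) ^ 2)) := by
    rw [← prod_coe_sort P (fun p : ℕ => ((1 - 1 / (p : ℝ)) / (1 + 2 * K / (p : ℝ) ^ 2)))]
    refine prod_congr rfl fun i _ => ?_
    have hx : (0 : ℝ) < (i.1 : ℝ) := by have := hpK i.1 i.2; linarith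
    have hN : (0 : ℝ) < 1 + 2 * K / (i.1 : ℝ) ^ 2 := by positivity
    unfold qq
    rw [eq_div_iff hN.ne', sub_mul, div_mul_cancel₀ _ hN.ne']
    ring
  rw [e1, e6_ratio P hp, ← prod_mul_distrib]
  have e2 : ∀ p ∈ P, (1 - 1 / (p : ℝ))⁻¹ * ((1 - 1 / (p : ℝ)) / (1 + 2 * K / (p : ℝ) ^ 2))
      = 1 / (1 + 2 * K / (p : ℝ) ^ 2) := by
    intro p hpP
    have h2 : (2 : ℝ) ≤ p := by exact_mod_cast (hp p hpP).two_le
    have h3 : (1 - 1 / (p : ℝ)) ≠ 0 := by
      have : 1 / (p : ℝ) ≤ 1 / 2 := one_div_le_one_div_of_le (by norm_num) h2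
      linarith
    rw [← mul_div_assoc, inv_mul_cancel₀ h3]
  rw [prod_congr rfl e2]
  have h1 := tr3_prod_one_sub P (fun p => 2 * (K : ℝ) / (p : ℝ) ^ 2) (fun p _ => by positivity)
    (fun p hpP => by
      have h4 := hpK p hpP
      have hx : (0 : ℝ) < (p : ℝ) := by linarith
      rw [div_le_one (by positivity)]
      nlinarith)
  have h2 : ∏ p ∈ P, (1 - 2 * (K : ℝ) / (p : ℝ) ^ 2) ≤ ∏ p ∈ P, (1 / (1 + 2 * K / (p : ℝ) ^ 2)) := by
    refine prod_le_prod (fun p hpP => ?_) (fun p hpP => ?_)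
    · have h4 := hpK p hpP
      have hx : (0 : ℝ) < (p : ℝ) := by linarith
      rw [sub_nonneg, div_le_one (by positivity)]
      nlinarith
    · have h4 := hpK p hpP
      have hx : (0 : ℝ) < (p : ℝ) := by linarith
      set y := 2 * (K : ℝ) / (p : ℝ) ^ 2 with hy
      have hy0 : 0 ≤ y := by positivity
      rw [le_div_iff₀ (by linarith)]
      nlinarith
  have h3 : ∑ p ∈ P, 2 * (K : ℝ) / (p : ℝ) ^ 2 ≤ 2 * (K : ℝ) / (W : ℝ) := by
    have h4 := sum_inv_sq_le P W hW1 hb
    calc ∑ p ∈ P, 2 * (K : ℝ) / (p : ℝ) ^ 2 = 2 * (K : ℝ) * ∑ p ∈ P, 1 / (p : ℝ) ^ 2 := by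
          rw [mul_sum]; exact sum_congr rfl fun p _ => by ring
      _ ≤ 2 * (K : ℝ) * (1 / (W : ℝ)) := mul_le_mul_of_nonneg_left h4 (by positivity)
      _ = 2 * K / W := by ring
  linarith [h1.1]

/-- `Q/φ(Q) = ∏_{W < p ≤ e^T} (1 - 1/p)^{-1} ≤ C T` (Mertens upper bound for the inverse product,
`Helper57.prod_one_sub_inv_inv_le`; for `e^T < 2` the product is empty; `T ≥ 1`). -/
theorem Q_div_totient_le : ∃ C : ℝ, 0 < C ∧ ∀ (W : ℕ) (T : ℝ), 1 ≤ T →
    ((∏ p ∈ PP W T, p : ℕ) : ℝ) / ((∏ p ∈ PP W T, p).totient : ℝ) ≤ C * T := by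
  refine ⟨500, by norm_num, fun W T hT => ?_⟩
  have hp : ∀ p ∈ PP W T, p.Prime := fun p h => (mem_filter.1 h).2
  rw [e6_ratio _ hp]
  set n := ⌊Real.exp T⌋₊ with hn
  have hn2 : 2 ≤ n := by
    rw [hn]
    apply Nat.le_floor
    have h1 := Real.add_one_le_exp T
    push_cast
    linarith
  have hsub : PP W T ⊆ Sieve.primesUpTo n := by
    intro p h
    rw [Sieve.mem_primesUpTo]
    have := mem_filter.1 h
    exact ⟨this.2, (mem_Ioc.1 this.1).2⟩
  have h1 : ∏ p ∈ PP W T, (1 - 1 / (p : ℝ))⁻¹ ≤ ∏ p ∈ Sieve.primesUpTo n, (1 - 1 / (p : ℝ))⁻¹ := by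
    refine prod_le_prod_of_subset_of_one_le hsub (fun p h => ?_) (fun p h _ => ?_)
    · exact inv_nonneg.2 (NT1_pos p (hp p h)).le
    · have hpr := (Sieve.mem_primesUpTo.1 h).1
      have h3 : (0 : ℝ) < p := by exact_mod_cast hpr.pos
      rw [one_le_inv₀ (NT1_pos p hpr)]
      have : 0 ≤ 1 / (p : ℝ) := by positivity
      linarith
  have h2 := Helper57.prod_one_sub_inv_inv_le n hn2
  have h3 : Real.log n ≤ T := by
    have : (n : ℝ) ≤ Real.exp T := Nat.floor_le (Real.exp_pos T).le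
    calc Real.log n ≤ Real.log (Real.exp T) := Real.log_le_log (by positivity) this
      _ = T := Real.log_exp T
  refine h1.trans (h2.trans ?_)
  linarith

end Pool.Agent.Lib.H92G
end

-- from Lib.H57M.Defs
section

/-!
# Project H57M (MP_0bf1d2_nt): Maynard-Tao for Schinzel's hypothesis. Definitions

See `PROOF.md` in this folder.
-/

open Finset

namespace Pool.Agent.Lib.H57M

open Pool.Agent.Lib.H15P Pool.Agent.Lib.H92G

/-! ## The weights -/

/-- The data of the weight for one scale; `K` = number of the forms. `D i` = one form function of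
the label `i`, `c` = its value at `∅`, `s i` = bound for its second moment, `m i` = bound for the
number of the forms with label `i`. -/
structure Par (K : ℕ) where
  P : Finset ℕ
  W : ℕ
  n : ℕ
  D : Fin n → Finset {p // p ∈ P} → ℝ
  m : Fin n → ℕ
  R : Fin n → ℝ
  s : Fin n → ℝ
  c : ℝ
  h : ℝ
  Dt : ℝ
  lv : ℝ
  prime : ∀ p ∈ P, p.Prime
  big : ∀ p ∈ P, W < p
  Kpos : 1 ≤ K
  KW : 4 * K ^ 2 ≤ W
  c0 : 0 ≤ c
  good : GoodJ (qq P K) (fun _ : Unit => D) h
  h0 : 0 ≤ h
  emp : ∀ i, D i ∅ = c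
  s0 : ∀ i, 0 ≤ s i
  hs : ∑ i, s i ≤ 1
  hm : ∀ i, 2 * (K * s i) + R i ≤ m i
  hR : ∑ i, Real.exp (-R i) ≤ 1 / 4
  Dt1 : 1 ≤ Dt
  tilt : ∀ i (T : Finset {p // p ∈ P}),
    ex (qq P K) (fun A => D i A ^ 2 * (if T ⊆ A then 1 else 0)) ≤
      Dt ^ T.card * (∏ p ∈ T, qq P K p) * s i
  lv1 : 1 ≤ lv
  lev : ∀ (J : Type) [Fintype J] [DecidableEq J] (M : ℕ) (b : J → ℕ), Fintype.card J = K →
    Lev (∏ p ∈ P, p) (fun t => LG (fun _ : J => D) m univ (fun j => hit P (b j + M * t))) lv

/-- The one form functions are good for every set of forms. -/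
theorem Par.goodJ {K : ℕ} (w : Par K) (J : Type) : GoodJ (qq w.P K) (fun _ : J => w.D) w.h where
  q0 := w.good.q0
  q1 := w.good.q1
  mean := fun _ i => w.good.mean () i
  orth := fun _ i i' hi => w.good.orth () i i' hi
  sq := fun _ i => w.good.sq () i
  fourth := fun _ i => w.good.fourth () i

/-- The weight function before squaring, as a function of the configuration. -/
noncomputable def Par.L {K : ℕ} (w : Par K) {J : Type} [Fintype J] [DecidableEq J]
    (S : J → Finset {p // p ∈ w.P}) : ℝ := LG (fun _ : J => w.D) w.m univ S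

/-- `1 + ∑ E D_i^2` -/
noncomputable def Par.z {K : ℕ} (w : Par K) : ℝ :=
  1 + ∑ i, ex (qq w.P K) (fun A => w.D i A ^ 2)

/-- The constant `(2 (n + 1))^K`. -/
noncomputable def Par.CL {K : ℕ} (w : Par K) : ℝ := (2 * ((w.n : ℝ) + 1)) ^ K


/-! ## Residues -/

/-- The residues `v` modulo `P` for which all `v + h`, `h ∈ H`, are prime to `P`. -/
def cF (H : Finset ℕ) (P : ℕ) : Finset ℕ :=
  (range P).filter (fun v => (∏ h ∈ H, (v + h)).Coprime P)



end Pool.Agent.Lib.H57M
end
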