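import Pool.Agent.Lib.H1M.RV2.M001
import Pool.Agent.Lib.H1M.RV2.M003
import Pool.Agent.Lib.H1M.RV2.M004

/-! Merged copies (to shorten the build) of Lib.H37T.A0, Lib.H37T.A1, Lib.H96G.Defs, Lib.H96G.Num, Lib.H96G.A0, Lib.H96G.A1, Lib.H96G.A2, Lib.H96G.A3, Lib.H96G.C0, Lib.H81A.DY, Lib.H81A.HB, Lib.H81E.C1, Lib.H81E.C2, Lib.H81E.C3, Lib.H81W.Defs, Lib.H81W.S3, Lib.H81E.C4. -/

-- from Lib.H37T.A0
section
/-!
H37T (MP_443e5f, candidate T): assembly of the modules A (Heath-Brown's identity in seminorm form), B (bilinear pieces), C (one smooth variable), D (near-diagonal pieces) to the inverse theorem for the von Mangoldt function.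

This file: the map P -> |TF n (P o toNat) W f g| is a seminorm which sees only the values at 1, ..., 2 n.
-/
namespace Pool.Agent.H37T
open Finset Pool.Agent.H44W

/-- The function on the integers given by a function on the natural numbers. -/
noncomputable def lft (P : ℕ → ℝ) (m : ℤ) : ℂ := ((P m.toNat : ℝ) : ℂ)

/-- TF as a linear map in the kernel. -/
noncomputable def tfL (n : ℕ) (W f g : ℤ → ℂ) : (ℕ → ℝ) →ₗ[ℝ] ℂ where
  toFun P := TF n (lft P) W f g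
  map_add' P Q := by
    unfold TF lft
    rw [← Finset.sum_add_distrib]
    refine Finset.sum_congr rfl fun x _ => ?_
    rw [← Finset.sum_add_distrib]
    refine Finset.sum_congr rfl fun y _ => ?_
    rw [Pi.add_apply]
    push_cast
    ring
  map_smul' c P := by
    unfold TF lft
    rw [RingHom.id_apply, Finset.smul_sum]
    refine Finset.sum_congr rfl fun x _ => ?_
    rw [Finset.smul_sum]
    refine Finset.sum_congr rfl fun y _ => ?_
    rw [Pi.smul_apply, Complex.real_smul, smul_eq_mul]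
    push_cast
    ring

/-- The seminorm. -/
noncomputable def tfS (n : ℕ) (W f g : ℤ → ℂ) : Seminorm ℝ (ℕ → ℝ) := (normSeminorm ℝ ℂ).comp (tfL n W f g)

theorem tfS_apply (n : ℕ) (W f g : ℤ → ℂ) (P : ℕ → ℝ) : tfS n W f g P = ‖TF n (lft P) W f g‖ := rfl

theorem TF_congr (n : ℕ) {F G : ℤ → ℂ} (W f g : ℤ → ℂ) (h : ∀ m : ℤ, 2 ≤ m → m ≤ 2 * n → F m = G m) :
    TF n F W f g = TF n G W f g := by
  unfold TF
  refine Finset.sum_congr rfl fun x hx => Finset.sum_congr rfl fun y hy => ?_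
  rw [Finset.mem_Icc] at hx hy
  rw [h (x + y) (by omega) (by omega)]

theorem tfS_loc (n : ℕ) (W f g : ℤ → ℂ) : Pool.Agent.Lib.H81A.Loc (2 * n) (tfS n W f g) := by
  intro P hP
  rw [tfS_apply, TF_congr n (G := fun _ => 0) W f g]
  · unfold TF
    simp
  · intro m h1 h2
    unfold lft
    rw [hP m.toNat (by omega) (by omega), Complex.ofReal_zero]

end Pool.Agent.H37T
end

-- from Lib.H37T.A1
section
/-!
H37T: Dirichlet convolutions as sums over finite sets.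
-/
namespace Pool.Agent.H37T
open Finset Pool.Agent.H44W

theorem conv_eq (m : ℕ) (hm : m ≠ 0) (S T : Finset ℕ) (α β : ℕ → ℝ) (hS : ∀ a, α a ≠ 0 → a ∈ S) (hT : ∀ b, β b ≠ 0 → b ∈ T) :
    ∑ x ∈ m.divisorsAntidiagonal, α x.1 * β x.2 = ∑ a ∈ S, ∑ b ∈ T, if a * b = m then α a * β b else 0 := by
  classical
  rw [← Finset.sum_product (s := S) (t := T) (f := fun x : ℕ × ℕ => if x.1 * x.2 = m then α x.1 * β x.2 else 0),
    ← Finset.sum_filter]
  symm
  refine Finset.sum_subset_zero_on_sdiff ?_ ?_ (fun _ _ => rfl)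
  · intro x hx
    rw [Finset.mem_filter] at hx
    exact Nat.mem_divisorsAntidiagonal.2 ⟨hx.2, hm⟩
  · intro x hx
    rw [Finset.mem_sdiff, Finset.mem_filter, Finset.mem_product] at hx
    by_contra h
    have h1 : α x.1 ≠ 0 := fun h0 => h (by rw [h0, zero_mul])
    have h2 : β x.2 ≠ 0 := fun h0 => h (by rw [h0, mul_zero])
    exact hx.2 ⟨⟨hS _ h1, hT _ h2⟩, (Nat.mem_divisorsAntidiagonal.1 hx.1).1⟩

end Pool.Agent.H37T
end

-- from Lib.H96G.Defs
section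

/-!
# Project H96G (MP_443e5f_co, project T, module G): from the kernel estimates to the graph

`GIn n M L c B b` is the input at the size `n`: scales are multiples of `M`, `L X` is the model of the primes on
`[X, 4X]`, power savings `c`, base scales `Z ≥ n^(1-B)`, losses `n^(-b)`, `100 b ≤ B`, `100 B ≤ c`.

The graph is `HL lo n` (halved coordinates, `lo = 0` or `1`): `x`, `y` in `[lo, n]` are adjacent iff `x + y` and
`|x - y|` are odd primes (`hadj x y`).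
-/

open Finset

namespace Pool.Agent.Lib.H96G

open Pool.Agent.Lib.H68T (lp)
open Pool.Agent.Lib.GoldbachGraph (hadj hadj_comm)

noncomputable section

/-- The kernel of the primes. -/
def kp (x y : ℕ) : ℝ := lp ((x : ℤ) + y) * lp ((x : ℤ) - y)

/-- The kernel of the model `l`. -/
def km (l : ℤ → ℝ) (x y : ℕ) : ℝ := l ((x : ℤ) + y) * l ((x : ℤ) - y)

/-- The halved graph on `[lo, n]`. -/
def HL (lo n : ℕ) : SimpleGraph ℕ where
  Adj x y := hadj x y ∧ x ∈ Finset.Icc lo n ∧ y ∈ Finset.Icc lo n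
  symm := ⟨fun _ _ h => ⟨(hadj_comm _ _).mp h.1, h.2.2, h.2.1⟩⟩
  loopless := ⟨fun x h => by
    have := h.1.2.2.1
    rw [Nat.dist_self] at this
    exact Nat.not_prime_zero this⟩

/-- Same type: same parity, and both or none divisible by `3`. -/
def ST (x y : ℕ) : Prop := x % 2 = y % 2 ∧ (3 ∣ x ↔ 3 ∣ y)

/-- Opposite type: different parity, and exactly one divisible by `3`. -/
def OT (x y : ℕ) : Prop := x % 2 ≠ y % 2 ∧ (3 ∣ x ↔ ¬ 3 ∣ y)

/-- `X` is a scale for `x ∈ [2X, 3X)` and `Z` one for `y ∈ [Z, 2Z)`. -/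
structure Sc (n M : ℕ) (B : ℝ) (X Z : ℕ) : Prop where
  dX : M ∣ X
  dZ : M ∣ Z
  lo : (n : ℝ) ^ (1 - B) ≤ Z
  le : 2 * Z ≤ X
  hi : X ≤ n

open Classical in
/-- The input of module G. -/
structure GIn (n M : ℕ) (L : ℕ → ℤ → ℝ) (c B b : ℝ) : Prop where
  b_pos : 0 < b
  hb : 100 * b ≤ B
  hB : 100 * B ≤ c
  hc : c ≤ 1
  M1 : 1 ≤ M
  Mn : (M : ℝ) ≤ (n : ℝ) ^ (1 / 2 : ℝ)
  bd : ∀ X Z : ℕ, Sc n M B X Z → ∀ m : ℤ, (X : ℤ) ≤ m → m ≤ 4 * X → |L X m| ≤ (n : ℝ) ^ b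
  op : ∀ X Z : ℕ, Sc n M B X Z → ∀ f g : ℕ → ℝ, (∀ x, |f x| ≤ 1) → (∀ y, |g y| ≤ 1) →
    |∑ x ∈ Ico (2 * X) (3 * X), ∑ y ∈ Ico Z (2 * Z), f x * g y * (kp x y - km (L X) x y)| ≤
      (n : ℝ) ^ (2 - c)
  m4 : ∀ X X' Z : ℕ, Sc n M B X Z → Sc n M B X' Z →
    (((Ico (2 * X) (3 * X) ×ˢ Ico (2 * X') (3 * X')).filter fun p => ST p.1 p.2 ∧
      ∑ y ∈ Ico Z (2 * Z), km (L X) p.1 y * km (L X') p.2 y < Z * (n : ℝ) ^ (-b)).card : ℝ) ≤
      (n : ℝ) ^ (2 - c)
  m3 : ∀ X Z : ℕ, Sc n M B X Z →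
    (((Ico (2 * X) (3 * X)).filter fun x => 3 ∣ x ∧
      ∑ y ∈ Ico Z (2 * Z), km (L X) x y * lp (2 * (y : ℤ) - 3) < Z * (n : ℝ) ^ (-b)).card : ℝ) ≤
      (n : ℝ) ^ (1 - c)

/-- `n` is large for the exponent `b`. -/
structure Nm (n : ℕ) (b : ℝ) : Prop where
  b_pos : 0 < b
  n_pos : 1 ≤ n
  big : 10 ^ 6 * (Real.log (8 * n)) ^ 6 ≤ (n : ℝ) ^ (b / 2)

/-- Mixed correlation: primes at `x`, model at `x'`. -/
def dx (l' : ℤ → ℝ) (Z x x' : ℕ) : ℝ := ∑ y ∈ Ico Z (2 * Z), kp x y * km l' x' y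

open Classical in
/-- The vertices `x' ∈ [2X', 3X')` of the type of `x` with small mixed correlation. -/
def bad (n : ℕ) (L : ℕ → ℤ → ℝ) (b : ℝ) (X' Z x : ℕ) : Finset ℕ :=
  (Ico (2 * X') (3 * X')).filter fun x' => ST x x' ∧ dx (L X') Z x x' < Z * (n : ℝ) ^ (-b) / 2

/-- Neighbours of `x` in `[Z, 2Z)`. -/
def nb (Z x : ℕ) : Finset ℕ := (Ico Z (2 * Z)).filter fun y => hadj x y

/-- Neighbours `y` of `x` in `[Z, 2Z)` for which `2y-3` is a prime (then `y - 3` is a neighbour of `y`). -/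
def nb3 (Z x : ℕ) : Finset ℕ := (Ico Z (2 * Z)).filter fun y => hadj x y ∧ (2 * y - 3).Prime

open Classical in
/-- The vertices of the type of `x` in `I` without a common neighbour with `x` in `[Z, 2Z)`. -/
def far (Z x : ℕ) (I : Finset ℕ) : Finset ℕ :=
  I.filter fun x' => ST x x' ∧ ¬ ∃ y ∈ Ico Z (2 * Z), hadj x y ∧ hadj x' y

/-- `Γ` is a set of generic vertices of `[4Z, n]` for the base scale `Z`. -/
structure PZ (n Z : ℕ) (s t : ℝ) (Γ : Finset ℕ) : Prop where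
  sub : Γ ⊆ Icc (4 * Z) n
  co : ((Icc (4 * Z) n \ Γ).card : ℝ) ≤ s
  al : ∀ u ∈ Γ, t ≤ (nb Z u).card
  be : ∀ u ∈ Γ, ((far Z u (Icc (4 * Z) n)).card : ℝ) ≤ s
  ga : ∀ u ∈ Γ, 3 ∣ u → t ≤ (nb3 Z u).card

end

end Pool.Agent.Lib.H96G
end

-- from Lib.H96G.Num
section

/-!
# Project H96G: arithmetic of the powers of `n`
-/

open Finset

namespace Pool.Agent.Lib.H96G

/-- `Nm n b` holds for all large `n`. -/
theorem nm_ev (b : ℝ) (hb : 0 < b) : ∃ n0 : ℕ, ∀ n : ℕ, n0 ≤ n → ∀ b' : ℝ, b ≤ b' → Nm n b' := by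
  have h1 : (fun x : ℝ => 10 ^ 6 * (Real.log (8 * x)) ^ 6) =o[Filter.atTop] fun x => x ^ (b / 2) := by
    have h2 : (fun x : ℝ => Real.log (8 * x)) =o[Filter.atTop] fun x => x ^ (b / 12) := by
      have h3 : (fun x : ℝ => Real.log (8 * x)) =ᶠ[Filter.atTop] fun x => Real.log 8 + Real.log x := by
        filter_upwards [Filter.eventually_gt_atTop 0] with x hx
        rw [Real.log_mul (by norm_num) hx.ne']
      refine h3.trans_isLittleO ?_
      refine Asymptotics.IsLittleO.add ?_ (isLittleO_log_rpow_atTop (by positivity))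
      refine Asymptotics.isLittleO_const_left.2 (Or.inr ?_)
      exact tendsto_norm_atTop_atTop.comp (tendsto_rpow_atTop (by positivity))
    have h4 := (h2.pow (n := 6) (by norm_num)).const_mul_left (10 ^ 6 : ℝ)
    refine h4.congr' (Filter.EventuallyEq.refl _ _) ?_
    filter_upwards [Filter.eventually_gt_atTop 0] with x hx
    rw [← Real.rpow_natCast, ← Real.rpow_mul hx.le]
    congr 1
    push_cast
    ring
  have h5 := (h1.def (show (0 : ℝ) < 1 by norm_num))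
  have h6 := tendsto_natCast_atTop_atTop (R := ℝ) |>.eventually h5
  obtain ⟨n0, hn0⟩ := Filter.eventually_atTop.mp h6
  refine ⟨max n0 1, fun n hn b' hb' => ⟨by linarith, le_trans (le_max_right _ _) hn, ?_⟩⟩
  have h7 := hn0 n (le_trans (le_max_left _ _) hn)
  have hn1 : (1 : ℝ) ≤ n := by exact_mod_cast le_trans (le_max_right _ _) hn
  rw [one_mul, Real.norm_of_nonneg (Real.rpow_nonneg (by linarith) _)] at h7
  refine (le_trans (le_abs_self _) h7).trans ?_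
  exact Real.rpow_le_rpow_of_exponent_le hn1 (by linarith)

variable {n : ℕ} {b : ℝ}

theorem Nm.pos (h : Nm n b) : (0 : ℝ) < n := by
  have := h.n_pos
  exact_mod_cast this

theorem Nm.one_le (h : Nm n b) : (1 : ℝ) ≤ n := by exact_mod_cast h.n_pos

theorem Nm.ell (h : Nm n b) : 1 ≤ Real.log (8 * n) := by
  have h1 : Real.log 8 ≤ Real.log (8 * n) :=
    Real.log_le_log (by norm_num) (by linarith [h.one_le])
  have h2 : (1 : ℝ) ≤ Real.log 8 := by
    rw [Real.le_log_iff_exp_le (by norm_num)]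
    linarith [Real.exp_one_lt_d9]
  linarith

/-- monotone in the exponent -/
theorem Nm.mono (h : Nm n b) {x y : ℝ} (hxy : x ≤ y) : (n : ℝ) ^ x ≤ (n : ℝ) ^ y :=
  Real.rpow_le_rpow_of_exponent_le h.one_le hxy

theorem Nm.mul (h : Nm n b) (x y : ℝ) : (n : ℝ) ^ x * (n : ℝ) ^ y = (n : ℝ) ^ (x + y) :=
  (Real.rpow_add h.pos x y).symm

theorem Nm.ppos (h : Nm n b) (x : ℝ) : 0 < (n : ℝ) ^ x := Real.rpow_pos_of_pos h.pos x

/-- constants and logarithms are absorbed -/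
theorem Nm.abs (h : Nm n b) {K x y : ℝ} (hK : K ≤ 10 ^ 6 * (Real.log (8 * n)) ^ 6)
    (hxy : x + b / 2 ≤ y) : K * (n : ℝ) ^ x ≤ (n : ℝ) ^ y := by
  calc K * (n : ℝ) ^ x ≤ (n : ℝ) ^ (b / 2) * (n : ℝ) ^ x :=
        mul_le_mul_of_nonneg_right (hK.trans h.big) (h.ppos x).le
    _ = (n : ℝ) ^ (b / 2 + x) := h.mul _ _
    _ ≤ (n : ℝ) ^ y := h.mono (by linarith)

/-- constants are absorbed -/
theorem Nm.cst (h : Nm n b) {K x y : ℝ} (hK : K ≤ 10 ^ 6) (hxy : x + b / 2 ≤ y) :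
    K * (n : ℝ) ^ x ≤ (n : ℝ) ^ y := by
  refine h.abs (hK.trans ?_) hxy
  have : (1 : ℝ) ≤ (Real.log (8 * n)) ^ 6 := one_le_pow₀ h.ell
  linarith

/-- a constant times a power of the logarithm is absorbed -/
theorem Nm.lg (h : Nm n b) {K x y : ℝ} {j : ℕ} (hj : j ≤ 6) (hK : K ≤ 10 ^ 6)
    (hxy : x + b / 2 ≤ y) : K * (Real.log (8 * n)) ^ j * (n : ℝ) ^ x ≤ (n : ℝ) ^ y := by
  refine h.abs ?_ hxy
  exact mul_le_mul hK (pow_le_pow_right₀ h.ell hj) (pow_nonneg (by linarith [h.ell]) _) (by norm_num)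

end Pool.Agent.Lib.H96G
end

-- from Lib.H96G.A0
section

/-!
# Project H96G, chunk A0 (M): the operator bound, scaled and in dual form
-/

open Finset

namespace Pool.Agent.Lib.H96G

/-- **A0, scaled form.** Proof. Apply the field `op` to `f' x = f x / F` for `x ∈ [2X, 3X)`, `0` else, and to
`g' y = g y / G` for `y ∈ [Z, 2Z)`, `0` else. -/
theorem A0_scale {n M : ℕ} {L : ℕ → ℤ → ℝ} {c B b : ℝ} (h : GIn n M L c B b) {X Z : ℕ}
    (hs : Sc n M B X Z) (f g : ℕ → ℝ) (F G : ℝ) (hF : 0 < F) (hG : 0 < G)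
    (hf : ∀ x ∈ Ico (2 * X) (3 * X), |f x| ≤ F) (hg : ∀ y ∈ Ico Z (2 * Z), |g y| ≤ G) :
    |∑ x ∈ Ico (2 * X) (3 * X), ∑ y ∈ Ico Z (2 * Z), f x * g y * (kp x y - km (L X) x y)| ≤
      F * G * (n : ℝ) ^ (2 - c) := by
  classical
  have h1 := h.op X Z hs (fun x => if x ∈ Ico (2 * X) (3 * X) then f x / F else 0)
    (fun y => if y ∈ Ico Z (2 * Z) then g y / G else 0)
    (fun x => by
      by_cases hx : x ∈ Ico (2 * X) (3 * X)
      · simp only [if_pos hx]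
        rw [abs_div, abs_of_pos hF, div_le_one hF]
        exact hf x hx
      · simp only [if_neg hx]
        rw [abs_zero]
        exact zero_le_one)
    (fun y => by
      by_cases hy : y ∈ Ico Z (2 * Z)
      · simp only [if_pos hy]
        rw [abs_div, abs_of_pos hG, div_le_one hG]
        exact hg y hy
      · simp only [if_neg hy]
        rw [abs_zero]
        exact zero_le_one)
  have e1 : ∑ x ∈ Ico (2 * X) (3 * X), ∑ y ∈ Ico Z (2 * Z), f x * g y * (kp x y - km (L X) x y) =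
      F * G * ∑ x ∈ Ico (2 * X) (3 * X), ∑ y ∈ Ico Z (2 * Z),
        (if x ∈ Ico (2 * X) (3 * X) then f x / F else 0) *
        (if y ∈ Ico Z (2 * Z) then g y / G else 0) * (kp x y - km (L X) x y) := by
    rw [Finset.mul_sum]
    refine Finset.sum_congr rfl fun x hx => ?_
    rw [Finset.mul_sum]
    refine Finset.sum_congr rfl fun y hy => ?_
    rw [if_pos hx, if_pos hy]
    field_simp
  rw [e1, abs_mul, abs_of_pos (mul_pos hF hG)]
  exact mul_le_mul_of_nonneg_left h1 (mul_pos hF hG).le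

open Classical in
/-- **A0, dual form.** Proof. `S x = ∑_y g y (kp x y - km (L X) x y)`; `A0_scale` with `f x = 1` if `S x > t`, `-1`
if `S x < -t`, `0` else (`F = 1`): `∑_x f x S x = ∑_{|S x| > t} |S x| ≥ t · #{|S x| > t}`. -/
theorem A0_dual {n M : ℕ} {L : ℕ → ℤ → ℝ} {c B b : ℝ} (h : GIn n M L c B b) {X Z : ℕ}
    (hs : Sc n M B X Z) (g : ℕ → ℝ) (G t : ℝ) (hG : 0 < G) (ht : 0 ≤ t)
    (hg : ∀ y ∈ Ico Z (2 * Z), |g y| ≤ G) :
    t * (((Ico (2 * X) (3 * X)).filter fun x =>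
      t < |∑ y ∈ Ico Z (2 * Z), g y * (kp x y - km (L X) x y)|).card : ℝ) ≤
      G * (n : ℝ) ^ (2 - c) := by
  set S : ℕ → ℝ := fun x => ∑ y ∈ Ico Z (2 * Z), g y * (kp x y - km (L X) x y) with hS
  set f : ℕ → ℝ := fun x => if t < S x then 1 else if S x < -t then -1 else 0 with hf
  have hf1 : ∀ x ∈ Ico (2 * X) (3 * X), |f x| ≤ 1 := by
    intro x _
    rw [hf]
    beta_reduce
    split_ifs <;> simp
  have h1 := A0_scale h hs f g 1 G one_pos hG hf1 hg
  rw [one_mul] at h1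
  have e1 : ∑ x ∈ Ico (2 * X) (3 * X), ∑ y ∈ Ico Z (2 * Z), f x * g y * (kp x y - km (L X) x y) =
      ∑ x ∈ Ico (2 * X) (3 * X), f x * S x := by
    refine Finset.sum_congr rfl fun x _ => ?_
    rw [hS]
    beta_reduce
    rw [Finset.mul_sum]
    exact Finset.sum_congr rfl fun y _ => by ring
  rw [e1] at h1
  have h2 : ∀ x ∈ Ico (2 * X) (3 * X), (if t < |S x| then t else 0) ≤ f x * S x := by
    intro x _
    rw [hf]
    beta_reduce
    by_cases a1 : t < S x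
    · rw [if_pos a1]
      split_ifs
      · linarith
      · linarith
    · rw [if_neg a1]
      by_cases a2 : S x < -t
      · rw [if_pos a2]
        split_ifs
        · linarith
        · linarith
      · rw [if_neg a2]
        have a3 : ¬ t < |S x| := by
          intro a4
          rcases lt_abs.1 a4 with a5 | a5
          · exact a1 a5
          · exact a2 (by linarith)
        rw [if_neg a3]
        simp
  have h3 := Finset.sum_le_sum h2
  rw [← Finset.sum_filter, Finset.sum_const, nsmul_eq_mul] at h3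
  calc t * (((Ico (2 * X) (3 * X)).filter fun x => t < |S x|).card : ℝ)
      = (((Ico (2 * X) (3 * X)).filter fun x => t < |S x|).card : ℝ) * t := mul_comm _ _
    _ ≤ _ := h3
    _ ≤ _ := (le_abs_self _).trans h1

end Pool.Agent.Lib.H96G
end

-- from Lib.H96G.A1
section

/-!
# Project H96G, chunk A1 (S/M): elementary bounds for the kernels
-/

open Finset

namespace Pool.Agent.Lib.H96G

open Pool.Agent.Lib.H68T (lp)
open Pool.Agent.Lib.GoldbachGraph (hadj)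

/-- Proof. Definition of `lp`; `log m ≥ 0` for `m ≥ 2`. -/
theorem a1_lp_nonneg (m : ℤ) : 0 ≤ lp m := by
  unfold Pool.Agent.Lib.H68T.lp
  split_ifs with h
  · have h1 := h.two_le
    have h2 : (1 : ℤ) ≤ m := by omega
    exact Real.log_nonneg (by exact_mod_cast h2)
  · exact le_refl 0

/-- Proof. Definition of `lp`, monotonicity of `log`; `log (8 n) ≥ 0`. -/
theorem a1_lp_le (n : ℕ) (hn : 1 ≤ n) (m : ℤ) (hm : m ≤ 8 * n) : lp m ≤ Real.log (8 * n) := by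
  have hn1 : (1 : ℝ) ≤ n := by exact_mod_cast hn
  unfold Pool.Agent.Lib.H68T.lp
  split_ifs with h
  · have h1 := h.two_le
    have h2 : (0 : ℤ) < m := by omega
    have h3 : (m : ℝ) ≤ 8 * n := by exact_mod_cast hm
    exact Real.log_le_log (by exact_mod_cast h2) h3
  · exact Real.log_nonneg (by linarith)

theorem a1_kp_nonneg (x y : ℕ) : 0 ≤ kp x y :=
  mul_nonneg (a1_lp_nonneg _) (a1_lp_nonneg _)

/-- Proof. `x + y < 4 X ≤ 4 n`, `a1_lp_le` twice. -/
theorem a1_kp_le {n M : ℕ} {B : ℝ} {X Z : ℕ} (hn : 1 ≤ n) (h : Sc n M B X Z) {x y : ℕ}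
    (hx : x ∈ Ico (2 * X) (3 * X)) (hy : y ∈ Ico Z (2 * Z)) :
    kp x y ≤ (Real.log (8 * n)) ^ 2 := by
  have h1 := Finset.mem_Ico.1 hx
  have h2 := Finset.mem_Ico.1 hy
  have h3 := h.le
  have h4 := h.hi
  have k1 := a1_lp_le n hn ((x : ℤ) + y) (by omega)
  have k2 := a1_lp_le n hn ((x : ℤ) - y) (by omega)
  unfold kp
  rw [sq]
  exact mul_le_mul k1 k2 (a1_lp_nonneg _) ((a1_lp_nonneg _).trans k1)

/-- Proof. `x ± y ∈ [X, 4X]`, field `bd`, `n^b * n^b = n^(2b)`. -/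
theorem a1_km_abs {n M : ℕ} {L : ℕ → ℤ → ℝ} {c B b : ℝ} (hN : Nm n b) (h : GIn n M L c B b)
    {X Z : ℕ} (hs : Sc n M B X Z) {x y : ℕ}
    (hx : x ∈ Ico (2 * X) (3 * X)) (hy : y ∈ Ico Z (2 * Z)) :
    |km (L X) x y| ≤ (n : ℝ) ^ (2 * b) := by
  have h1 := Finset.mem_Ico.1 hx
  have h2 := Finset.mem_Ico.1 hy
  have h3 := hs.le
  have h4 := hs.hi
  have k1 := h.bd X Z hs ((x : ℤ) + y) (by omega) (by omega)
  have k2 := h.bd X Z hs ((x : ℤ) - y) (by omega) (by omega)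
  unfold km
  rw [abs_mul, two_mul, ← hN.mul]
  exact mul_le_mul k1 k2 (abs_nonneg _) (hN.ppos b).le

/-- Proof. If `kp x y ≠ 0` then `x + y` and `x - y` are primes; `x - y > 2X - 2Z ≥ X ≥ 2 Z ≥ 2`
(`Z ≥ 1` because `Z ≥ n^(1-B) > 0`), so both are odd; `Nat.dist x y = x - y`. -/
theorem a1_kp_hadj {n M : ℕ} {B : ℝ} {X Z : ℕ} (hn : 1 ≤ n) (h : Sc n M B X Z) {x y : ℕ}
    (hx : x ∈ Ico (2 * X) (3 * X)) (hy : y ∈ Ico Z (2 * Z)) (hk : kp x y ≠ 0) : hadj x y := by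
  have h1 := Finset.mem_Ico.1 hx
  have h2 := Finset.mem_Ico.1 hy
  have h3 := h.le
  have h4 : 1 ≤ Z := by
    have h5 := h.lo
    have h6 : (0 : ℝ) < (n : ℝ) ^ (1 - B) := Real.rpow_pos_of_pos (by exact_mod_cast hn) _
    have h7 : (0 : ℝ) < Z := lt_of_lt_of_le h6 h5
    have h8 : 0 < Z := by exact_mod_cast h7
    exact h8
  unfold kp at hk
  have k1 := left_ne_zero_of_mul hk
  have k2 := right_ne_zero_of_mul hk
  have e1 : ((x : ℤ) + y).toNat = x + y := by omega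
  have e2 : ((x : ℤ) - y).toNat = x - y := by omega
  have e3 : Nat.dist x y = x - y := Nat.dist_eq_sub_of_le_right (by omega)
  have p1 : (x + y).Prime := by
    by_contra hc
    apply k1
    unfold Pool.Agent.Lib.H68T.lp
    rw [e1, if_neg hc]
  have p2 : (x - y).Prime := by
    by_contra hc
    apply k2
    unfold Pool.Agent.Lib.H68T.lp
    rw [e2, if_neg hc]
  refine ⟨p1, p1.odd_of_ne_two (by omega), ?_, ?_⟩
  · rw [e3]
    exact p2
  · rw [e3]
    exact p2.odd_of_ne_two (by omega)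

/-- Proof. `(2 y - 3 : ℤ).toNat = 2 y - 3` (truncated subtraction). -/
theorem a1_lp3 (y : ℕ) (h : lp (2 * (y : ℤ) - 3) ≠ 0) : (2 * y - 3).Prime := by
  have e : (2 * (y : ℤ) - 3).toNat = 2 * y - 3 := by omega
  by_contra hc
  apply h
  unfold Pool.Agent.Lib.H68T.lp
  rw [e, if_neg hc]

/-- Proof. `2 y - 3 ≤ 4 Z ≤ 2 X ≤ 2 n`. -/
theorem a1_lp3_le {n M : ℕ} {B : ℝ} {X Z : ℕ} (hn : 1 ≤ n) (h : Sc n M B X Z) {y : ℕ}
    (hy : y ∈ Ico Z (2 * Z)) : lp (2 * (y : ℤ) - 3) ≤ Real.log (8 * n) := by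
  have h2 := Finset.mem_Ico.1 hy
  have h3 := h.le
  have h4 := h.hi
  exact a1_lp_le n hn _ (by omega)

/-- Proof. `n^(1-B) > 0`, so `Z ≠ 0`. -/
theorem a1_Z_pos {n M : ℕ} {B : ℝ} {X Z : ℕ} (hn : 1 ≤ n) (h : Sc n M B X Z) : 1 ≤ Z := by
  have h5 := h.lo
  have h6 : (0 : ℝ) < (n : ℝ) ^ (1 - B) := Real.rpow_pos_of_pos (by exact_mod_cast hn) _
  have h7 : (0 : ℝ) < Z := lt_of_lt_of_le h6 h5
  have h8 : 0 < Z := by exact_mod_cast h7
  exact h8

end Pool.Agent.Lib.H96G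
end

-- from Lib.H96G.A2
section

/-!
# Project H96G, chunk A2 (M): mixed correlations are large for most pairs
-/

open Finset

namespace Pool.Agent.Lib.H96G

open Classical in
/-- **A2.** Proof. For `x' ∈ [2X', 3X')` put `g y = km (L X') x' y`, `|g| ≤ n^(2b)` (`a1_km_abs` for `X'`). A pair
`(x, x')` of the same type with `dx (L X') Z x x' < Z n^(-b)/2` satisfies either the inequality of the field `m4` (at
most `n^(2-c)` pairs) or `Z n^(-b)/2 < |∑_y g y (kp x y - km (L X) x y)|` (the sum over `y` of `km (L X) x y * g y`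
is then `≥ Z n^(-b)`; `dx` is the sum of `kp x y * g y`). By `A0_dual` with `t = Z n^(-b)/2` (`> 0`), `G = n^(2b)`:
at most `2 n^(2b) n^(2-c) n^b / Z ≤ 2 n^(1-c+3b+B)` such `x` for each `x'` (`Z ≥ n^(1-B)`). There are `X' ≤ n` values
of `x'` (count the pairs fibrewise over the second coordinate). Total at most
`n^(2-c) + 2 n^(2-c+3b+B) ≤ n^(2-c+2B)` (`Nm.cst`, `100 b ≤ B`). -/
theorem A2 {n M : ℕ} {L : ℕ → ℤ → ℝ} {c B b : ℝ} (hN : Nm n b) (h : GIn n M L c B b)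
    {X X' Z : ℕ} (hs : Sc n M B X Z) (hs' : Sc n M B X' Z) :
    (((Ico (2 * X) (3 * X) ×ˢ Ico (2 * X') (3 * X')).filter fun p => ST p.1 p.2 ∧
      dx (L X') Z p.1 p.2 < Z * (n : ℝ) ^ (-b) / 2).card : ℝ) ≤ (n : ℝ) ^ (2 - c + 2 * B) := by
  have hn := hN.n_pos
  have hZ := a1_Z_pos hn hs
  have hZ' : (0 : ℝ) < Z := by exact_mod_cast hZ
  have hb0 := h.b_pos
  have hbB := h.hb
  obtain ⟨t, ht⟩ : ∃ t : ℝ, t = Z * (n : ℝ) ^ (-b) / 2 := ⟨_, rfl⟩
  have ht0 : 0 < t := by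
    rw [ht]
    have := hN.ppos (-b)
    positivity
  have htl : (n : ℝ) ^ (1 - B - b) / 2 ≤ t := by
    have h1 := mul_le_mul_of_nonneg_right hs.lo (hN.ppos (-b)).le
    rw [hN.mul, ← sub_eq_add_neg] at h1
    rw [ht]
    linarith
  have hfib : ∀ x' ∈ Ico (2 * X') (3 * X'), (((Ico (2 * X) (3 * X)).filter fun x =>
      t < |∑ y ∈ Ico Z (2 * Z), km (L X') x' y * (kp x y - km (L X) x y)|).card : ℝ) ≤
        2 * (n : ℝ) ^ (1 - c + 3 * b + B) := by
    intro x' hx'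
    have h1 := A0_dual h hs (fun y => km (L X') x' y) ((n : ℝ) ^ (2 * b)) t (hN.ppos _) ht0.le
      (fun y hy => a1_km_abs hN h hs' hx' hy)
    rw [hN.mul] at h1
    have h2 := (mul_le_mul_of_nonneg_right htl (Nat.cast_nonneg
      ((Ico (2 * X) (3 * X)).filter fun x =>
        t < |∑ y ∈ Ico Z (2 * Z), km (L X') x' y * (kp x y - km (L X) x y)|).card)).trans h1
    have h3 : (n : ℝ) ^ (2 * b + (2 - c)) = (n : ℝ) ^ (1 - B - b) * (n : ℝ) ^ (1 - c + 3 * b + B) := by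
      rw [hN.mul]
      congr 1
      ring
    rw [h3] at h2
    refine le_of_mul_le_mul_left (a := (n : ℝ) ^ (1 - B - b)) ?_ (hN.ppos _)
    linarith
  have hT : ((Ico (2 * X) (3 * X) ×ˢ Ico (2 * X') (3 * X')).filter fun p => ST p.1 p.2 ∧
      dx (L X') Z p.1 p.2 < Z * (n : ℝ) ^ (-b) / 2) ⊆
      ((Ico (2 * X) (3 * X) ×ˢ Ico (2 * X') (3 * X')).filter fun p => ST p.1 p.2 ∧
        ∑ y ∈ Ico Z (2 * Z), km (L X) p.1 y * km (L X') p.2 y < Z * (n : ℝ) ^ (-b)) ∪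
      ((Ico (2 * X) (3 * X) ×ˢ Ico (2 * X') (3 * X')).filter fun p =>
        t < |∑ y ∈ Ico Z (2 * Z), km (L X') p.2 y * (kp p.1 y - km (L X) p.1 y)|) := by
    intro p hp
    rw [mem_filter] at hp
    obtain ⟨hp1, hp2, hp3⟩ := hp
    rw [mem_union, mem_filter, mem_filter]
    by_cases h5 : ∑ y ∈ Ico Z (2 * Z), km (L X) p.1 y * km (L X') p.2 y < Z * (n : ℝ) ^ (-b)
    · exact Or.inl ⟨hp1, hp2, h5⟩
    · refine Or.inr ⟨hp1, ?_⟩
      have h6 : ∑ y ∈ Ico Z (2 * Z), km (L X') p.2 y * (kp p.1 y - km (L X) p.1 y) =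
          dx (L X') Z p.1 p.2 - ∑ y ∈ Ico Z (2 * Z), km (L X) p.1 y * km (L X') p.2 y := by
        unfold dx
        rw [← sum_sub_distrib]
        exact sum_congr rfl (fun y _ => by ring)
      rw [h6, lt_abs]
      right
      rw [not_lt] at h5
      linarith
  have h2c : (((Ico (2 * X) (3 * X) ×ˢ Ico (2 * X') (3 * X')).filter fun p =>
        t < |∑ y ∈ Ico Z (2 * Z), km (L X') p.2 y * (kp p.1 y - km (L X) p.1 y)|).card : ℝ) ≤
      2 * (n : ℝ) ^ (2 - c + 3 * b + B) := by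
    rw [card_filter, sum_product_right, Nat.cast_sum]
    have h7 : ∀ x' ∈ Ico (2 * X') (3 * X'), ((∑ x ∈ Ico (2 * X) (3 * X),
        if t < |∑ y ∈ Ico Z (2 * Z), km (L X') x' y * (kp x y - km (L X) x y)| then 1 else 0 : ℕ) : ℝ) ≤
          2 * (n : ℝ) ^ (1 - c + 3 * b + B) := by
      intro x' hx'
      rw [← card_filter]
      exact hfib x' hx'
    refine (sum_le_sum h7).trans ?_
    rw [sum_const, nsmul_eq_mul, Nat.card_Ico]
    have h8 : ((3 * X' - 2 * X' : ℕ) : ℝ) ≤ n := by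
      have := hs'.hi
      have h9 : 3 * X' - 2 * X' ≤ n := by omega
      exact_mod_cast h9
    have h10 : (n : ℝ) ^ (2 - c + 3 * b + B) = n * (n : ℝ) ^ (1 - c + 3 * b + B) := by
      have h11 := hN.mul 1 (1 - c + 3 * b + B)
      rw [Real.rpow_one] at h11
      rw [h11]
      congr 1
      ring
    rw [h10]
    have h12 := hN.ppos (1 - c + 3 * b + B)
    have h13 := mul_le_mul_of_nonneg_right h8 (show 0 ≤ 2 * (n : ℝ) ^ (1 - c + 3 * b + B) by linarith)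
    linarith
  have h1c := h.m4 X X' Z hs hs'
  have h3c : (((Ico (2 * X) (3 * X) ×ˢ Ico (2 * X') (3 * X')).filter fun p => ST p.1 p.2 ∧
      dx (L X') Z p.1 p.2 < Z * (n : ℝ) ^ (-b) / 2).card : ℝ) ≤
      (n : ℝ) ^ (2 - c) + 2 * (n : ℝ) ^ (2 - c + 3 * b + B) := by
    refine le_trans ?_ (add_le_add h1c h2c)
    exact_mod_cast (card_le_card hT).trans (card_union_le _ _)
  have h4c : (n : ℝ) ^ (2 - c) ≤ (n : ℝ) ^ (2 - c + 3 * b + B) := hN.mono (by linarith)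
  have h5c : 3 * (n : ℝ) ^ (2 - c + 3 * b + B) ≤ (n : ℝ) ^ (2 - c + 2 * B) :=
    hN.cst (by norm_num) (by linarith)
  linarith

end Pool.Agent.Lib.H96G
end

-- from Lib.H96G.A3
section

/-!
# Project H96G, chunk A3 (S/M): Markov's inequality
-/

open Finset

namespace Pool.Agent.Lib.H96G

open Classical in
/-- **A3.** Proof. The number of pairs in `A2` is `∑_{x ∈ [2X,3X)} (bad n L b X' Z x).card` (`card_filter_product`,
or `Finset.card_sigma`), so the number of `x` with more than `n^(1-c/2)` bad `x'` times `n^(1-c/2)` is at most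
`n^(2-c+2B)`. -/
theorem A3 {n M : ℕ} {L : ℕ → ℤ → ℝ} {c B b : ℝ} (hN : Nm n b) (h : GIn n M L c B b)
    {X X' Z : ℕ} (hs : Sc n M B X Z) (hs' : Sc n M B X' Z) :
    (((Ico (2 * X) (3 * X)).filter fun x =>
      ¬ ((bad n L b X' Z x).card : ℝ) ≤ (n : ℝ) ^ (1 - c / 2)).card : ℝ) ≤
      (n : ℝ) ^ (1 - c / 2 + 2 * B) := by
  classical
  have h1 := A2 hN h hs hs'
  set A : Finset ℕ := Ico (2 * X) (3 * X) with hA
  set W : Finset ℕ := A.filter fun x => ¬ ((bad n L b X' Z x).card : ℝ) ≤ (n : ℝ) ^ (1 - c / 2) with hW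
  have h2 : (((A ×ˢ Ico (2 * X') (3 * X')).filter fun p => ST p.1 p.2 ∧
      dx (L X') Z p.1 p.2 < Z * (n : ℝ) ^ (-b) / 2).card : ℝ) = ∑ x ∈ A, ((bad n L b X' Z x).card : ℝ) := by
    rw [Finset.card_filter, Finset.sum_product]
    push_cast
    refine Finset.sum_congr rfl fun x _ => ?_
    rw [bad, Finset.card_filter]
    push_cast
    rfl
  rw [h2] at h1
  have h3 : (W.card : ℝ) * (n : ℝ) ^ (1 - c / 2) ≤ ∑ x ∈ A, ((bad n L b X' Z x).card : ℝ) := by
    calc (W.card : ℝ) * (n : ℝ) ^ (1 - c / 2) = ∑ _x ∈ W, (n : ℝ) ^ (1 - c / 2) := by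
          rw [Finset.sum_const, nsmul_eq_mul]
      _ ≤ ∑ x ∈ W, ((bad n L b X' Z x).card : ℝ) :=
          Finset.sum_le_sum fun x hx => (not_le.1 (Finset.mem_filter.1 hx).2).le
      _ ≤ ∑ x ∈ A, ((bad n L b X' Z x).card : ℝ) :=
          Finset.sum_le_sum_of_subset_of_nonneg (Finset.filter_subset _ _) fun _ _ _ => Nat.cast_nonneg _
  have h4 : (n : ℝ) ^ (2 - c + 2 * B) = (n : ℝ) ^ (1 - c / 2 + 2 * B) * (n : ℝ) ^ (1 - c / 2) := by
    rw [hN.mul]
    congr 1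
    ring
  rw [h4] at h1
  exact le_of_mul_le_mul_right (h3.trans h1) (hN.ppos _)

end Pool.Agent.Lib.H96G
end

-- from Lib.H96G.C0
section

/-!
# Project H96G, chunk C0 (S/M): elementary facts on the halved graph
-/

open Finset

namespace Pool.Agent.Lib.H96G

open Pool.Agent.Lib.GoldbachGraph (hadj hadj_comm)

theorem c0_ST_symm {x y : ℕ} (h : ST x y) : ST y x := by
  exact ⟨h.1.symm, h.2.symm⟩

theorem c0_ST_trans {x y z : ℕ} (h : ST x y) (h' : ST y z) : ST x z := by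
  exact ⟨h.1.trans h'.1, h.2.trans h'.2⟩

theorem c0_OT_symm {x y : ℕ} (h : OT x y) : OT y x := by
  obtain ⟨h1, h2⟩ := h
  refine ⟨fun h3 => h1 h3.symm, ?_⟩
  tauto

/-- Proof. `omega` after splitting the equivalences. -/
theorem c0_OT_OT {x y z : ℕ} (h : OT x y) (h' : OT y z) : ST x z := by
  obtain ⟨h1, h2⟩ := h
  obtain ⟨h3, h4⟩ := h'
  refine ⟨by omega, ?_⟩
  tauto

/-- Proof. `x + y` is odd; if `x + y` and `|x-y|` are primes different from `3`, then `3` divides neither, so `x, y` are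
not both divisible by `3`, and not both not divisible (else `x ≡ ± y` modulo `3`). -/
theorem c0_type {x y : ℕ} (h : hadj x y) (h1 : x + y ≠ 3) (h2 : Nat.dist x y ≠ 3) : OT x y := by
  obtain ⟨p1, o1, p2, o2⟩ := h
  have d1 : ¬ 3 ∣ x + y := by
    intro h3
    exact h1 ((Nat.prime_dvd_prime_iff_eq Nat.prime_three p1).1 h3).symm
  have d2 : ¬ 3 ∣ Nat.dist x y := by
    intro h3
    exact h2 ((Nat.prime_dvd_prime_iff_eq Nat.prime_three p2).1 h3).symm
  rw [Nat.odd_iff] at o1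
  unfold Nat.dist at d2
  refine ⟨by omega, ?_⟩
  have m1 : x % 3 = 0 ∨ x % 3 = 1 ∨ x % 3 = 2 := by omega
  have m2 : y % 3 = 0 ∨ y % 3 = 1 ∨ y % 3 = 2 := by omega
  rcases le_total x y with m3 | m3 <;> rcases m1 with m1 | m1 | m1 <;> rcases m2 with m2 | m2 | m2 <;> constructor <;>
    intro h5 <;> omega

open Classical in
/-- Proof. `c0_type`: the exceptions are among `3 - x`, `x + 3`, `x - 3`. -/
theorem c0_exc (x : ℕ) (I : Finset ℕ) : (I.filter fun y => hadj x y ∧ ¬ OT x y).card ≤ 3 := by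
  have h : (I.filter fun y => hadj x y ∧ ¬ OT x y) ⊆ {3 - x, x + 3, x - 3} := by
    intro y hy
    rw [mem_filter] at hy
    obtain ⟨-, h1, h2⟩ := hy
    rw [mem_insert, mem_insert, mem_singleton]
    by_cases h3 : x + y = 3
    · left
      omega
    · by_cases h4 : Nat.dist x y = 3
      · right
        unfold Nat.dist at h4
        omega
      · exact absurd (c0_type h1 h3 h4) h2
  exact (card_le_card h).trans card_le_three

/-- Proof. `y + (y - 3) = 2 y - 3` is odd, the difference is `3`. -/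
theorem c0_edge {y : ℕ} (hy : 3 ≤ y) (hp : (2 * y - 3).Prime) : hadj y (y - 3) := by
  refine ⟨?_, ?_, ?_, ?_⟩
  · have h1 : y + (y - 3) = 2 * y - 3 := by omega
    rw [h1]
    exact hp
  · rw [Nat.odd_iff]
    omega
  · have h1 : Nat.dist y (y - 3) = 3 := by
      unfold Nat.dist
      omega
    rw [h1]
    exact Nat.prime_three
  · have h1 : Nat.dist y (y - 3) = 3 := by
      unfold Nat.dist
      omega
    rw [h1, Nat.odd_iff]

/-- Proof. `SimpleGraph.edist_le` for the walk with one edge (or `edist_eq_one_iff_adj`). -/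
theorem c0_one {lo n x y : ℕ} (h : hadj x y) (hx : x ∈ Icc lo n) (hy : y ∈ Icc lo n) :
    (HL lo n).edist x y ≤ 1 := by
  exact le_of_eq (SimpleGraph.edist_eq_one_iff_adj.2 ⟨h, hx, hy⟩)

/-- Proof. Triangle inequality. -/
theorem c0_tri {lo n x y z i j k : ℕ} (h : (HL lo n).edist x y ≤ i) (h' : (HL lo n).edist y z ≤ j)
    (hk : i + j ≤ k) : (HL lo n).edist x z ≤ k := by
  refine (SimpleGraph.edist_triangle (v := y)).trans ((add_le_add h h').trans ?_)
  exact_mod_cast hk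

/-- Proof. `c0_one`, `c0_tri`. -/
theorem c0_two {lo n x y z : ℕ} (h : hadj x y) (h' : hadj z y) (hx : x ∈ Icc lo n) (hy : y ∈ Icc lo n)
    (hz : z ∈ Icc lo n) : (HL lo n).edist x z ≤ 2 := by
  have h1 : (HL lo n).edist x y ≤ ((1 : ℕ) : ℕ∞) := by
    rw [Nat.cast_one]
    exact c0_one h hx hy
  have h2 : (HL lo n).edist y z ≤ ((1 : ℕ) : ℕ∞) := by
    rw [Nat.cast_one]
    exact c0_one ((Pool.Agent.Lib.GoldbachGraph.hadj_comm _ _).1 h') hy hz
  have h3 := c0_tri (k := 2) h1 h2 le_rfl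
  exact_mod_cast h3

/-- Proof. `Z ≥ 1`, since the interval `[Z, 2Z)` is not empty; `y < 2 Z ≤ w`. -/
theorem c0_mem {lo n Z y w : ℕ} (hlo : lo ≤ 1) (hy : y ∈ Ico Z (2 * Z)) (hw : w ∈ Icc (4 * Z) n) :
    w ∈ Icc lo n ∧ y ∈ Icc lo n := by
  rw [mem_Ico] at hy
  rw [mem_Icc] at hw
  rw [mem_Icc, mem_Icc]
  omega

end Pool.Agent.Lib.H96G
end

-- from Lib.H81A.DY
section

/-!
# H81A, chunk DY (M): dyadic decomposition of a product
-/

namespace Pool.Agent.Lib.H81A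

open Finset ArithmeticFunction

theorem dy_sum (f : ArithmeticFunction ℝ) (L n : ℕ) (hn : n < 2 ^ L) : f n = (∑ k ∈ range L, dy k f) n := by
  have hs : (∑ k ∈ range L, dy k f) n = ∑ k ∈ range L, dy k f n := by
    induction L with
    | zero => simp
    | succ L ih =>
      clear ih hn
      induction (L + 1) with
      | zero => simp
      | succ M ih => rw [Finset.sum_range_succ, Finset.sum_range_succ, ArithmeticFunction.add_apply, ih]
  rw [hs]
  rcases Nat.eq_zero_or_pos n with rfl | hpos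
  · simp
  have hlog : Nat.log 2 n < L := Nat.log_lt_of_lt_pow hpos.ne' hn
  rw [Finset.sum_eq_single_of_mem (Nat.log 2 n) (mem_range.2 hlog)]
  · rw [dy_apply, if_pos ⟨Nat.pow_log_le_self 2 hpos.ne', Nat.lt_pow_succ_log_self (by norm_num) n⟩]
  · intro k _ hk
    rw [dy_apply, if_neg]
    rintro ⟨h1, h2⟩
    apply hk
    exact ((Nat.log_eq_iff (Or.inr ⟨by norm_num, hpos.ne'⟩)).2 ⟨h1, h2⟩).symm

theorem dy_agree {ι : Type} (s : Finset ι) (F G : ι → ArithmeticFunction ℝ) (M : ℕ) (h : ∀ i ∈ s, ∀ n < M, F i n = G i n) :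
    ∀ n < M, (∏ i ∈ s, F i) n = (∏ i ∈ s, G i) n := by
  classical
  induction s using Finset.induction_on with
  | empty => intro n _; simp
  | insert a s ha ih =>
    intro n hn
    rw [Finset.prod_insert ha, Finset.prod_insert ha, mul_apply, mul_apply]
    refine Finset.sum_congr rfl fun x hx => ?_
    rw [Nat.mem_divisorsAntidiagonal] at hx
    have hpos : 0 < n := Nat.pos_of_ne_zero hx.2
    have h1 : x.1 ≤ n := Nat.le_of_dvd hpos ⟨x.2, hx.1.symm⟩
    have h2 : x.2 ≤ n := Nat.le_of_dvd hpos ⟨x.1, by rw [mul_comm]; exact hx.1.symm⟩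
    rw [h a (Finset.mem_insert_self a s) x.1 (lt_of_le_of_lt h1 hn),
      ih (fun i hi => h i (Finset.mem_insert_of_mem hi)) x.2 (lt_of_le_of_lt h2 hn)]

theorem dy_sum_apply {κ : Type} (s : Finset κ) (f : κ → ArithmeticFunction ℝ) (m : ℕ) : (∑ k ∈ s, f k) m = ∑ k ∈ s, f k m := by
  classical
  induction s using Finset.induction_on with
  | empty => simp
  | insert a s ha ih => rw [Finset.sum_insert ha, Finset.sum_insert ha, ArithmeticFunction.add_apply, ih]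

/-- PROOF. For `n < 2 ^ L`: `F i n = ∑ k ∈ range L, dy k (F i) n` (`dy_apply`; for `n ≥ 1` exactly one `k`, namely `Nat.log 2 n`; for `n = 0` both sides are `0`). Two families of arithmetic functions which agree on `n < M` have products which agree on
`n < M` (induction over the finset; `ArithmeticFunction.mul_apply`, divisors of `m` are `≤ m`). Then `Finset.prod_univ_sum`. -/
theorem dyadic {ι : Type} [Fintype ι] [DecidableEq ι] (F : ι → ArithmeticFunction ℝ) (L m : ℕ) (hm : m < 2 ^ L) :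
    (∏ i, F i) m = ∑ k ∈ Fintype.piFinset (fun _ : ι => range L), (∏ i, dy (k i) (F i)) m := by
  have h1 := dy_agree (Finset.univ : Finset ι) F (fun i => ∑ k ∈ range L, dy k (F i)) (2 ^ L)
    (fun i _ n hn => dy_sum (F i) L n hn) m hm
  rw [h1, Finset.prod_univ_sum, dy_sum_apply]

end Pool.Agent.Lib.H81A
end

-- from Lib.H81A.HB
section

/-!
# H81A, chunk HB (M): Heath-Brown's identity
-/

namespace Pool.Agent.Lib.H81A

open Finset ArithmeticFunction

theorem hb_one1 : one1 = ((zeta : ArithmeticFunction ℕ) : ArithmeticFunction ℝ) := by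
  ext n
  simp only [one1, af, coe_mk, natCoe_apply, zeta_apply]
  split_ifs <;> simp

theorem hb_logf : logf = ArithmeticFunction.log := by
  ext n
  simp only [logf, af, coe_mk, log_apply]
  split_ifs with h
  · simp [h]
  · rfl

theorem hb_vanish (f g : ArithmeticFunction ℝ) (a b : ℕ) (hf : ∀ n < a, f n = 0)
    (hg : ∀ n < b, g n = 0) : ∀ n < a * b, (f * g) n = 0 := by
  intro n hn
  rw [mul_apply]
  refine Finset.sum_eq_zero fun p hp => ?_
  rw [Nat.mem_divisorsAntidiagonal] at hp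
  by_cases h1 : p.1 < a
  · rw [hf _ h1, zero_mul]
  · by_cases h2 : p.2 < b
    · rw [hg _ h2, mul_zero]
    · exfalso
      have := Nat.mul_le_mul (not_lt.1 h1) (not_lt.1 h2)
      rw [hp.1] at this
      omega

theorem hb_sub (f g : ArithmeticFunction ℝ) (n : ℕ) : (f - g) n = f n - g n := by
  have h : (f - g + g) n = f n := by rw [sub_add_cancel]
  rw [ArithmeticFunction.add_apply] at h
  linarith

theorem hb_eps (V n : ℕ) (hn : n < V + 1) : (1 - muV V * one1 : ArithmeticFunction ℝ) n = 0 := by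
  rcases Nat.eq_zero_or_pos n with rfl | hpos
  · simp
  have h1 : (muV V * one1 : ArithmeticFunction ℝ) n =
      ((moebius : ArithmeticFunction ℝ) * (zeta : ArithmeticFunction ℝ)) n := by
    rw [mul_apply, mul_apply]
    refine Finset.sum_congr rfl fun p hp => ?_
    rw [Nat.mem_divisorsAntidiagonal] at hp
    have hp1 : p.1 ≠ 0 := by
      intro h
      rw [h, zero_mul] at hp
      exact hp.2 hp.1.symm
    have hle : p.1 ≤ V := by
      have : p.1 ≤ n := Nat.le_of_dvd hpos ⟨p.2, hp.1.symm⟩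
      omega
    rw [hb_one1]
    congr 1
    simp only [muV, af, coe_mk, if_neg hp1, if_pos hle, intCoe_apply]
  rw [hb_sub, h1, coe_moebius_mul_coe_zeta]
  simp

theorem hb_pow (f : ArithmeticFunction ℝ) (a : ℕ) (hf : ∀ n < a, f n = 0) (J : ℕ) :
    ∀ n < a ^ J, (f ^ J * vonMangoldt) n = 0 := by
  induction J with
  | zero =>
    intro n hn
    have : n = 0 := by simpa using hn
    rw [this, ArithmeticFunction.map_zero]
  | succ J ih =>
    intro n hn
    have h := hb_vanish f (f ^ J * vonMangoldt) a (a ^ J) hf ih n (by rwa [pow_succ'] at hn)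
    rw [pow_succ', mul_assoc]
    exact h

/-- Evaluation at `m` as an additive map. -/
noncomputable def hb_ev (m : ℕ) : ArithmeticFunction ℝ →+ ℝ where
  toFun f := f m
  map_zero' := rfl
  map_add' _ _ := rfl

theorem hb_scal (f : ArithmeticFunction ℝ) (j c m : ℕ) : hb_ev m ((-1) ^ j * (c : ArithmeticFunction ℝ) * f) = (-1 : ℝ) ^ j * (c : ℝ) * f m := by
  have h1 : hb_ev m ((c : ArithmeticFunction ℝ) * f) = (c : ℝ) * f m := by
    rw [← nsmul_eq_mul, map_nsmul, nsmul_eq_mul]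
    rfl
  induction j with
  | zero => rw [pow_zero, pow_zero, one_mul, one_mul, h1]
  | succ j ih =>
    have e : (-1) ^ (j + 1) * (c : ArithmeticFunction ℝ) * f = -((-1) ^ j * (c : ArithmeticFunction ℝ) * f) := by ring
    rw [e, map_neg, ih]
    ring

/-- PROOF. As `heath_brown` in Lib/H68T/HBI.lean (there `J = 3`, same definitions: its lemmas HBI_one1, HBI_logf, HBI_vanish, HBI_sub, HBI_eps may be copied with names hb_..). `e = 1 - muV z * one1` vanishes on `n ≤ z`, so `e ^ J` vanishes on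
`n < (z + 1) ^ J` (induction on `J`, hb_vanish), so `e ^ J * Λ` vanishes there. The binomial theorem (`add_pow` for `(-(muV z * one1) + 1) ^ J`, commutative ring; `Finset.sum_range_succ'` separates the term `1`) and `Λ * one1 = logf` (`vonMangoldt_mul_zeta`) give
`e ^ J * Λ = Λ - ∑ j ∈ range J, (-1) ^ j (J choose (j + 1)) muV ^ (j + 1) one1 ^ j logf`. (Scalars: natural numbers / integers as elements of the ring, or evaluate at `m` with `ArithmeticFunction.sum_apply`-type lemmas; a real constant times an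
arithmetic function may be avoided by working in the ring.) -/
theorem hb_identity (z J m : ℕ) (hm : m < (z + 1) ^ J) :
    vonMangoldt m = ∑ j ∈ range J, (-1 : ℝ) ^ j * (J.choose (j + 1) : ℝ) * (muV z ^ (j + 1) * one1 ^ j * logf) m := by
  have hlog : logf = vonMangoldt * one1 := by
    rw [hb_logf, hb_one1, vonMangoldt_mul_zeta]
  have key : (vonMangoldt : ArithmeticFunction ℝ) = (1 - muV z * one1) ^ J * vonMangoldt +
      ∑ j ∈ range J, (-1) ^ j * ((J.choose (j + 1) : ℕ) : ArithmeticFunction ℝ) * (muV z ^ (j + 1) * one1 ^ j * logf) := by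
    have e1 : (1 - muV z * one1 : ArithmeticFunction ℝ) = -(muV z * one1) + 1 := by ring
    rw [e1, add_pow, Finset.sum_range_succ', add_mul, Finset.sum_mul]
    have e2 : ∀ j ∈ range J, (-1) ^ j * ((J.choose (j + 1) : ℕ) : ArithmeticFunction ℝ) * (muV z ^ (j + 1) * one1 ^ j * logf) =
        -((-(muV z * one1)) ^ (j + 1) * 1 ^ (J - (j + 1)) * ((J.choose (j + 1) : ℕ) : ArithmeticFunction ℝ) * vonMangoldt) := by
      intro j _
      rw [hlog, neg_pow (muV z * one1), mul_pow]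
      ring
    rw [Finset.sum_congr rfl e2, Finset.sum_neg_distrib]
    simp
  have h0 : ((1 - muV z * one1) ^ J * vonMangoldt : ArithmeticFunction ℝ) m = 0 :=
    hb_pow _ (z + 1) (hb_eps z) J m hm
  have h1 : hb_ev m (vonMangoldt : ArithmeticFunction ℝ) = hb_ev m ((1 - muV z * one1) ^ J * vonMangoldt) +
      ∑ j ∈ range J, hb_ev m ((-1) ^ j * ((J.choose (j + 1) : ℕ) : ArithmeticFunction ℝ) * (muV z ^ (j + 1) * one1 ^ j * logf)) := by
    rw [← map_sum, ← map_add, ← key]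
  have h2 : hb_ev m ((1 - muV z * one1) ^ J * vonMangoldt) = 0 := h0
  have h3 : hb_ev m (vonMangoldt : ArithmeticFunction ℝ) = vonMangoldt m := rfl
  rw [h3, h2, zero_add] at h1
  rw [h1]
  exact Finset.sum_congr rfl fun j _ => hb_scal _ _ _ _

end Pool.Agent.Lib.H81A
end

-- from Lib.H81E.C1
section

/-!
# H81E (MP_443e5f, candidate T, module C), part 1: the algebra of functions with small Fourier norm

`Rep n A F`: on `[2, 2 n]` the function `F` is a combination of characters `m ↦ ee (α m)` with total coefficient mass `≤ A`.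
-/

namespace Pool.Agent.H81E

open Finset Pool.Agent.H44W

theorem norm_ee (x : ℝ) : ‖ee x‖ = 1 := by
  unfold ee
  rw [show (2 * (Real.pi : ℂ) * (x : ℂ) * Complex.I) = ((2 * Real.pi * x : ℝ) : ℂ) * Complex.I by push_cast; ring, Complex.norm_exp_ofReal_mul_I]

theorem ee_add (x y : ℝ) : ee (x + y) = ee x * ee y := by
  unfold ee
  rw [← Complex.exp_add]
  congr 1
  push_cast
  ring

theorem ee_zero : ee 0 = 1 := by
  unfold ee
  simp

theorem ee_int (m : ℤ) : ee m = 1 := by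
  unfold ee
  rw [Complex.exp_eq_one_iff]
  exact ⟨m, by push_cast; ring⟩

theorem ee_neg (x : ℝ) : ee (-x) = (starRingEnd ℂ) (ee x) := by
  unfold ee
  rw [← Complex.exp_conj]
  congr 1
  simp only [map_mul, Complex.conj_I, Complex.conj_ofReal, map_ofNat]
  push_cast
  ring

theorem ee_ne_one {x : ℝ} (h0 : 0 < x) (h1 : x < 1) : ee x ≠ 1 := by
  intro h
  unfold ee at h
  rw [Complex.exp_eq_one_iff] at h
  obtain ⟨k, hk⟩ := h
  have h2 : (x : ℂ) = (k : ℂ) := by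
    have h3 : (2 * (Real.pi : ℂ) * Complex.I) ≠ 0 := Complex.two_pi_I_ne_zero
    apply mul_left_cancel₀ h3
    rw [show (2 * (Real.pi : ℂ) * Complex.I) * (x : ℂ) = 2 * (Real.pi : ℂ) * (x : ℂ) * Complex.I by ring, hk]
    ring
  have h3 : x = (k : ℝ) := by exact_mod_cast h2
  rw [h3] at h0 h1
  have h4 : (0 : ℤ) < k := by exact_mod_cast h0
  have h5 : k < (1 : ℤ) := by exact_mod_cast h1
  omega

theorem ee_orth (l : ℕ) (hl : 0 < l) (m : ℤ) :
    ∑ k ∈ range l, ee ((k : ℝ) * m / l) = if (l : ℤ) ∣ m then (l : ℂ) else 0 := by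
  have hl0 : (l : ℝ) ≠ 0 := by exact_mod_cast hl.ne'
  have hpow : ∀ k : ℕ, ee ((k : ℝ) * m / l) = ee ((m : ℝ) / l) ^ k := by
    intro k
    induction k with
    | zero => simp [ee_zero]
    | succ k ih => rw [pow_succ, ← ih, ← ee_add]; congr 1; push_cast; ring
  split_ifs with h
  · obtain ⟨t, rfl⟩ := h
    have h1 : ee (((l * t : ℤ) : ℝ) / l) = 1 := by
      rw [show (((l * t : ℤ) : ℝ) / l) = (t : ℝ) by push_cast; field_simp, ee_int]
    simp_rw [hpow, h1, one_pow]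
    simp
  · simp_rw [hpow]
    have h1 : ee ((m : ℝ) / l) ≠ 1 := by
      intro h1
      apply h
      unfold ee at h1
      rw [Complex.exp_eq_one_iff] at h1
      obtain ⟨k, hk⟩ := h1
      have h2 : (((m : ℝ) / l : ℝ) : ℂ) = (k : ℂ) := by
        apply mul_left_cancel₀ Complex.two_pi_I_ne_zero
        rw [show (2 * (Real.pi : ℂ) * Complex.I) * (((m : ℝ) / l : ℝ) : ℂ) = 2 * (Real.pi : ℂ) * (((m : ℝ) / l : ℝ) : ℂ) * Complex.I by ring, hk]
        ring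
      have h3 : (m : ℝ) / l = (k : ℝ) := by exact_mod_cast h2
      rw [div_eq_iff hl0] at h3
      exact ⟨k, by rw [mul_comm]; exact_mod_cast h3⟩
    rw [geom_sum_eq h1, ← hpow, show ((l : ℝ) * m / l) = (m : ℝ) by field_simp, ee_int, sub_self, zero_div]

/-- `F` is a combination of characters on `[2, 2 n]` with coefficient mass at most `A`. -/
def Rep (n : ℕ) (A : ℝ) (F : ℤ → ℂ) : Prop :=
  ∃ (J : ℕ) (c : ℕ → ℂ) (al : ℕ → ℝ), (∑ j ∈ range J, ‖c j‖ ≤ A) ∧ ∀ m : ℤ, 2 ≤ m → m ≤ 2 * n → F m = ∑ j ∈ range J, c j * ee (al j * m)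

theorem Rep.nonneg {n : ℕ} {A : ℝ} {F : ℤ → ℂ} (h : Rep n A F) : 0 ≤ A := by
  obtain ⟨J, c, al, h1, _⟩ := h
  exact (sum_nonneg fun j _ => norm_nonneg _).trans h1

theorem Rep.mono {n : ℕ} {A B : ℝ} {F : ℤ → ℂ} (h : Rep n A F) (hAB : A ≤ B) : Rep n B F := by
  obtain ⟨J, c, al, h1, h2⟩ := h
  exact ⟨J, c, al, h1.trans hAB, h2⟩

theorem Rep.congr {n : ℕ} {A : ℝ} {F G : ℤ → ℂ} (h : Rep n A F) (hFG : ∀ m : ℤ, 2 ≤ m → m ≤ 2 * n → G m = F m) : Rep n A G := by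
  obtain ⟨J, c, al, h1, h2⟩ := h
  exact ⟨J, c, al, h1, fun m h3 h4 => by rw [hFG m h3 h4, h2 m h3 h4]⟩

/-- A finite family indexed by any finite set. -/
theorem Rep.of_finset {n : ℕ} {A : ℝ} {F : ℤ → ℂ} {ι : Type*} (s : Finset ι) (c : ι → ℂ) (al : ι → ℝ) (h1 : ∑ j ∈ s, ‖c j‖ ≤ A)
    (h2 : ∀ m : ℤ, 2 ≤ m → m ≤ 2 * n → F m = ∑ j ∈ s, c j * ee (al j * m)) : Rep n A F := by
  classical
  let e := s.equivFin
  have key : ∀ {M : Type} [AddCommMonoid M] (φ : ι → M), ∑ j ∈ s, φ j = ∑ k ∈ range s.card, if h : k < s.card then φ (e.symm ⟨k, h⟩) else 0 := by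
    intro M _ φ
    rw [← Finset.sum_coe_sort s, ← Equiv.sum_comp e.symm, Finset.sum_fin_eq_sum_range]
  refine ⟨s.card, fun k => if h : k < s.card then c (e.symm ⟨k, h⟩) else 0, fun k => if h : k < s.card then al (e.symm ⟨k, h⟩) else 0, ?_, ?_⟩
  · rw [key] at h1
    refine le_of_eq_of_le (sum_congr rfl fun k _ => ?_) h1
    dsimp only
    by_cases h : k < s.card
    · rw [dif_pos h, dif_pos h]
    · rw [dif_neg h, dif_neg h, norm_zero]
  · intro m h3 h4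
    rw [h2 m h3 h4, key]
    refine sum_congr rfl fun k _ => ?_
    dsimp only
    by_cases h : k < s.card
    · rw [dif_pos h, dif_pos h, dif_pos h]
    · rw [dif_neg h, dif_neg h, zero_mul]

theorem Rep.zero (n : ℕ) : Rep n 0 (fun _ => 0) := ⟨0, fun _ => 0, fun _ => 0, by simp, fun m _ _ => by simp⟩

theorem Rep.ee (n : ℕ) (al : ℝ) : Rep n 1 (fun m => ee (al * m)) :=
  ⟨1, fun _ => 1, fun _ => al, by simp, fun m _ _ => by simp⟩

theorem Rep.const (n : ℕ) (c : ℂ) : Rep n ‖c‖ (fun _ => c) :=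
  ⟨1, fun _ => c, fun _ => 0, by simp, fun m _ _ => by simp [ee_zero]⟩

theorem Rep.add {n : ℕ} {A B : ℝ} {F G : ℤ → ℂ} (hF : Rep n A F) (hG : Rep n B G) : Rep n (A + B) (fun m => F m + G m) := by
  obtain ⟨J, c, al, h1, h2⟩ := hF
  obtain ⟨K, d, be, h3, h4⟩ := hG
  refine Rep.of_finset ((range J).disjSum (range K)) (Sum.elim c d) (Sum.elim al be) ?_ ?_
  · rw [sum_disjSum]
    exact add_le_add h1 h3
  · intro m hm1 hm2
    rw [sum_disjSum, h2 m hm1 hm2, h4 m hm1 hm2]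
    rfl

theorem Rep.smul {n : ℕ} {A : ℝ} {F : ℤ → ℂ} (c : ℂ) (hF : Rep n A F) : Rep n (‖c‖ * A) (fun m => c * F m) := by
  obtain ⟨J, d, al, h1, h2⟩ := hF
  refine ⟨J, fun j => c * d j, al, ?_, fun m hm1 hm2 => ?_⟩
  · simp_rw [norm_mul]
    rw [← mul_sum]
    exact mul_le_mul_of_nonneg_left h1 (norm_nonneg _)
  · dsimp only
    rw [h2 m hm1 hm2, mul_sum]
    exact sum_congr rfl fun j _ => by ring

theorem Rep.mul {n : ℕ} {A B : ℝ} {F G : ℤ → ℂ} (hF : Rep n A F) (hG : Rep n B G) : Rep n (A * B) (fun m => F m * G m) := by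
  have hA := hF.nonneg
  obtain ⟨J, c, al, h1, h2⟩ := hF
  obtain ⟨K, d, be, h3, h4⟩ := hG
  refine Rep.of_finset (range J ×ˢ range K) (fun p => c p.1 * d p.2) (fun p => al p.1 + be p.2) ?_ ?_
  · simp_rw [norm_mul]
    rw [sum_product]
    simp_rw [← mul_sum]
    rw [← sum_mul]
    exact mul_le_mul h1 h3 (sum_nonneg fun j _ => norm_nonneg _) hA
  · intro m hm1 hm2
    rw [h2 m hm1 hm2, h4 m hm1 hm2, sum_mul_sum, sum_product]
    refine sum_congr rfl fun i _ => sum_congr rfl fun j _ => ?_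
    rw [add_mul, ee_add]
    ring

theorem Rep.sum {n : ℕ} {ι : Type*} (s : Finset ι) (A : ι → ℝ) (F : ι → ℤ → ℂ) (h : ∀ i ∈ s, Rep n (A i) (F i)) :
    Rep n (∑ i ∈ s, A i) (fun m => ∑ i ∈ s, F i m) := by
  classical
  induction s using Finset.induction_on with
  | empty => simpa using Rep.zero n
  | insert i s hi ih =>
    rw [sum_insert hi]
    refine ((h i (mem_insert_self i s)).add (ih fun j hj => h j (mem_insert_of_mem hj))).congr fun m _ _ => ?_
    rw [sum_insert hi]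

/-- The indicator of the multiples of `q`. -/
theorem Rep.dvd (n q : ℕ) (hq : 0 < q) : Rep n 1 (fun m => if (q : ℤ) ∣ m then 1 else 0) := by
  have hq0 : (q : ℝ) ≠ 0 := by exact_mod_cast hq.ne'
  have hq1 : (q : ℂ) ≠ 0 := by exact_mod_cast hq.ne'
  refine ⟨q, fun _ => 1 / (q : ℂ), fun j => (j : ℝ) / q, ?_, fun m _ _ => ?_⟩
  · rw [sum_const, card_range, nsmul_eq_mul, norm_div, norm_one, Complex.norm_natCast, mul_one_div_cancel hq0]
  · rw [← mul_sum]
    have h1 : ∑ j ∈ range q, Pool.Agent.H44W.ee ((j : ℝ) / q * m) = ∑ j ∈ range q, Pool.Agent.H44W.ee ((j : ℝ) * m / q) :=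
      sum_congr rfl fun j _ => by rw [div_mul_eq_mul_div]
    rw [h1, ee_orth q hq m]
    dsimp only
    by_cases h : (q : ℤ) ∣ m
    · rw [if_pos h, if_pos h, one_div_mul_cancel hq1]
    · rw [if_neg h, if_neg h, mul_zero]

end Pool.Agent.H81E
end

-- from Lib.H81E.C2
section

/-!
# H81E (MP_443e5f, candidate T, module C), part 2: intervals and functions of bounded variation
-/

namespace Pool.Agent.H81E

open Finset Pool.Agent.H44W

theorem norm_ee_sub_one_ge {t : ℝ} (h0 : 0 < t) (h1 : t < 1) : 4 * min t (1 - t) ≤ ‖ee t - 1‖ := by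
  have hpi := Real.pi_pos
  have h2 : ‖ee t - 1‖ = ‖2 * Real.sin (Real.pi * t)‖ := by
    have h3 := Complex.norm_exp_I_mul_ofReal_sub_one (2 * Real.pi * t)
    rw [show (2 * Real.pi * t) / 2 = Real.pi * t by ring] at h3
    rw [← h3]
    unfold ee
    congr 3
    push_cast
    ring
  have h3 : 2 * min t (1 - t) ≤ Real.sin (Real.pi * t) := by
    rcases le_total t (1 / 2) with h | h
    · rw [min_eq_left (by linarith)]
      have h4 := Real.mul_le_sin (x := Real.pi * t) (by positivity) (by nlinarith)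
      calc 2 * t = 2 / Real.pi * (Real.pi * t) := by field_simp
        _ ≤ _ := h4
    · rw [min_eq_right (by linarith)]
      have h4 := Real.mul_le_sin (x := Real.pi * (1 - t)) (mul_nonneg hpi.le (by linarith)) (by nlinarith)
      have h5 : Real.sin (Real.pi * (1 - t)) = Real.sin (Real.pi * t) := by
        rw [show Real.pi * (1 - t) = Real.pi - Real.pi * t by ring, Real.sin_pi_sub]
      calc 2 * (1 - t) = 2 / Real.pi * (Real.pi * (1 - t)) := by field_simp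
        _ ≤ _ := h4
        _ = _ := h5
  rw [h2, Real.norm_eq_abs]
  calc 4 * min t (1 - t) = 2 * (2 * min t (1 - t)) := by ring
    _ ≤ 2 * Real.sin (Real.pi * t) := by linarith
    _ ≤ _ := le_abs_self _

theorem ee_natmul (k : ℕ) (x : ℝ) : ee ((k : ℝ) * x) = ee x ^ k := by
  induction k with
  | zero => simp [ee_zero]
  | succ k ih => rw [pow_succ, ← ih, ← ee_add]; congr 1; push_cast; ring

/-- The geometric sum over an interval. -/
theorem geom_le (a b : ℕ) (t : ℝ) (h : ee t ≠ 1) : ‖∑ s ∈ Ico a b, ee ((s : ℝ) * t)‖ ≤ 2 / ‖ee t - 1‖ := by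
  have h0 : 0 < ‖ee t - 1‖ := norm_pos_iff.2 (sub_ne_zero.2 h)
  rcases le_or_gt b a with hab | hab
  · rw [Ico_eq_empty_of_le hab, sum_empty, norm_zero]
    positivity
  · simp_rw [ee_natmul]
    rw [geom_sum_Ico h hab.le, norm_div]
    refine div_le_div_of_nonneg_right ?_ h0.le
    refine (norm_sub_le _ _).trans ?_
    rw [norm_pow, norm_pow, norm_ee, one_pow, one_pow]
    norm_num

/-- The Fourier coefficients of an interval. -/
theorem sum_coeff_le (n a b : ℕ) (hn : 1 ≤ n) (hb : b ≤ 2 * n + 1) :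
    ∑ k ∈ range (2 * n + 1), ‖(1 / ((2 * n + 1 : ℕ) : ℂ)) * ∑ s ∈ Ico a b, ee (-((k : ℝ) * (s : ℝ) / (2 * n + 1 : ℕ)))‖ ≤ 3 + Real.log n := by
  set M : ℕ := 2 * n + 1 with hM
  have hM0 : (0 : ℝ) < (M : ℝ) := by exact_mod_cast (by omega : 0 < M)
  rw [range_eq_Ico, sum_eq_sum_Ico_succ_bot (by omega : 0 < M)]
  have h1 : ‖(1 / (M : ℂ)) * ∑ s ∈ Ico a b, ee (-(((0 : ℕ) : ℝ) * (s : ℝ) / M))‖ ≤ 1 := by
    rw [norm_mul, norm_div, norm_one, Complex.norm_natCast]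
    have h2 : ‖∑ s ∈ Ico a b, ee (-(((0 : ℕ) : ℝ) * (s : ℝ) / M))‖ ≤ M := by
      refine (norm_sum_le _ _).trans ?_
      simp_rw [norm_ee]
      rw [sum_const, Nat.card_Ico, nsmul_eq_mul, mul_one]
      exact_mod_cast (by omega : b - a ≤ M)
    calc 1 / (M : ℝ) * _ ≤ 1 / (M : ℝ) * M := mul_le_mul_of_nonneg_left h2 (by positivity)
      _ = 1 := by field_simp
  have h2 : ∀ k ∈ Ico (0 + 1) M, ‖(1 / (M : ℂ)) * ∑ s ∈ Ico a b, ee (-((k : ℝ) * (s : ℝ) / M))‖ ≤ 1 / 2 * ((k : ℝ)⁻¹ + ((M - k : ℕ) : ℝ)⁻¹) := by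
    intro k hk
    rw [mem_Ico] at hk
    have hk0 : (0 : ℝ) < k := by exact_mod_cast (by omega : 0 < k)
    have hkM : (k : ℝ) < M := by exact_mod_cast hk.2
    have hMk : ((M - k : ℕ) : ℝ) = M - k := by rw [Nat.cast_sub hk.2.le]
    have ht0 : 0 < (k : ℝ) / M := by positivity
    have ht1 : (k : ℝ) / M < 1 := by rw [div_lt_one hM0]; exact hkM
    have h3 : ∑ s ∈ Ico a b, ee (-((k : ℝ) * (s : ℝ) / M)) = (starRingEnd ℂ) (∑ s ∈ Ico a b, ee ((s : ℝ) * ((k : ℝ) / M))) := by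
      rw [map_sum]
      refine sum_congr rfl fun s _ => ?_
      rw [ee_neg]
      congr 2
      ring
    have h4 := geom_le a b ((k : ℝ) / M) (ee_ne_one ht0 ht1)
    have h5 := norm_ee_sub_one_ge ht0 ht1
    have h6 : 0 < min ((k : ℝ) / M) (1 - (k : ℝ) / M) := lt_min ht0 (by linarith)
    rw [norm_mul, norm_div, norm_one, Complex.norm_natCast, h3, RCLike.norm_conj]
    calc 1 / (M : ℝ) * ‖∑ s ∈ Ico a b, ee ((s : ℝ) * ((k : ℝ) / M))‖ ≤ 1 / (M : ℝ) * (2 / (4 * min ((k : ℝ) / M) (1 - (k : ℝ) / M))) := by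
          refine mul_le_mul_of_nonneg_left (h4.trans ?_) (by positivity)
          exact div_le_div_of_nonneg_left (by norm_num) (by positivity) h5
      _ ≤ 1 / 2 * ((k : ℝ)⁻¹ + ((M - k : ℕ) : ℝ)⁻¹) := by
          rw [hMk]
          have hMk0 : 0 < (M : ℝ) - k := by linarith
          rcases le_total ((k : ℝ) / M) (1 - (k : ℝ) / M) with h | h
          · rw [min_eq_left h]
            have : 1 / (M : ℝ) * (2 / (4 * ((k : ℝ) / M))) = 1 / 2 * (k : ℝ)⁻¹ := by field_simp; ring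
            rw [this]
            have : 0 < ((M : ℝ) - k)⁻¹ := inv_pos.2 hMk0
            linarith
          · rw [min_eq_right h]
            have : 1 / (M : ℝ) * (2 / (4 * (1 - (k : ℝ) / M))) = 1 / 2 * ((M : ℝ) - k)⁻¹ := by
              rw [show (1 - (k : ℝ) / M) = (M - k) / M by field_simp]
              field_simp
              ring
            rw [this]
            have : 0 < (k : ℝ)⁻¹ := inv_pos.2 hk0
            linarith
  have h3 : ∑ k ∈ Ico (0 + 1) M, (1 / 2 * ((k : ℝ)⁻¹ + ((M - k : ℕ) : ℝ)⁻¹)) = ∑ k ∈ range (2 * n), ((k + 1 : ℕ) : ℝ)⁻¹ := by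
    rw [← mul_sum, sum_add_distrib]
    have h4 : ∑ k ∈ Ico (0 + 1) M, (k : ℝ)⁻¹ = ∑ k ∈ range (2 * n), ((k + 1 : ℕ) : ℝ)⁻¹ := by
      rw [sum_Ico_eq_sum_range, hM]
      refine sum_congr (by congr 1) fun k _ => ?_
      rw [show (0 + 1 + k) = k + 1 by ring]
    have h5 : ∑ k ∈ Ico (0 + 1) M, ((M - k : ℕ) : ℝ)⁻¹ = ∑ k ∈ range (2 * n), ((k + 1 : ℕ) : ℝ)⁻¹ := by
      rw [← h4]
      refine sum_bij' (fun k _ => M - k) (fun k _ => M - k) ?_ ?_ ?_ ?_ ?_
      · intro k hk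
        rw [mem_Ico] at hk ⊢
        omega
      · intro k hk
        rw [mem_Ico] at hk ⊢
        omega
      · intro k hk
        rw [mem_Ico] at hk
        omega
      · intro k hk
        rw [mem_Ico] at hk
        omega
      · intro k hk
        rfl
    rw [h4, h5]
    ring
  have h4 : ∑ k ∈ range (2 * n), ((k + 1 : ℕ) : ℝ)⁻¹ ≤ 1 + Real.log ((2 * n : ℕ) : ℝ) := by
    have h5 := harmonic_le_one_add_log (2 * n)
    refine le_trans (le_of_eq ?_) h5
    unfold harmonic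
    push_cast
    rfl
  have h5 : Real.log ((2 * n : ℕ) : ℝ) ≤ 1 + Real.log n := by
    have hn0 : (n : ℝ) ≠ 0 := by exact_mod_cast (by omega : n ≠ 0)
    push_cast
    rw [Real.log_mul (by norm_num) hn0]
    have := Real.log_two_lt_d9
    linarith
  have h6 := sum_le_sum h2
  rw [h3] at h6
  linarith

/-- Indicators of intervals. -/
theorem Rep.interval (n : ℕ) (hn : 1 ≤ n) (u v : ℤ) : Rep n (3 + Real.log n) (fun m => if u ≤ m ∧ m < v then 1 else 0) := by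
  set M : ℕ := 2 * n + 1 with hM
  have hM1 : (M : ℂ) ≠ 0 := by exact_mod_cast (by omega : M ≠ 0)
  have hM2 : (M : ℝ) ≠ 0 := by exact_mod_cast (by omega : M ≠ 0)
  set a : ℕ := u.toNat with ha
  set b : ℕ := min v.toNat M with hb
  refine ⟨M, fun k => (1 / (M : ℂ)) * ∑ s ∈ Ico a b, Pool.Agent.H44W.ee (-((k : ℝ) * (s : ℝ) / M)), fun k => (k : ℝ) / M, sum_coeff_le n a b hn (min_le_right _ _), ?_⟩
  intro m hm1 hm2
  dsimp only
  have h1 : ∀ k ∈ range M, (1 / (M : ℂ)) * (∑ s ∈ Ico a b, Pool.Agent.H44W.ee (-((k : ℝ) * (s : ℝ) / M))) * Pool.Agent.H44W.ee ((k : ℝ) / M * m) =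
      ∑ s ∈ Ico a b, (1 / (M : ℂ)) * Pool.Agent.H44W.ee ((k : ℝ) * ((m - (s : ℤ) : ℤ) : ℝ) / M) := by
    intro k _
    rw [mul_sum, sum_mul]
    refine sum_congr rfl fun s _ => ?_
    rw [mul_assoc, ← ee_add]
    congr 2
    push_cast
    ring
  rw [sum_congr rfl h1, sum_comm]
  have h2 : ∀ s ∈ Ico a b, ∑ k ∈ range M, (1 / (M : ℂ)) * Pool.Agent.H44W.ee ((k : ℝ) * ((m - (s : ℤ) : ℤ) : ℝ) / M) = if (s : ℤ) = m then 1 else 0 := by
    intro s hs
    rw [mem_Ico] at hs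
    have hsM : s < M := lt_of_lt_of_le hs.2 (min_le_right _ _)
    rw [← mul_sum, ee_orth M (by omega)]
    by_cases h : (s : ℤ) = m
    · rw [if_pos h, if_pos (by rw [h, sub_self]; exact dvd_zero _), one_div_mul_cancel hM1]
    · rw [if_neg h, if_neg, mul_zero]
      intro h3
      apply h
      have h4 : m - (s : ℤ) = 0 := Int.eq_zero_of_abs_lt_dvd h3 (by rw [abs_lt]; constructor <;> omega)
      omega
  rw [sum_congr rfl h2]
  by_cases h : u ≤ m ∧ m < v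
  · rw [if_pos h, Finset.sum_eq_single m.toNat]
    · rw [if_pos (by omega)]
    · intro s _ hs
      rw [if_neg]
      omega
    · intro hs
      exfalso
      apply hs
      rw [mem_Ico, ha, hb]
      constructor
      · omega
      · rw [lt_min_iff]
        omega
  · rw [if_neg h, Finset.sum_eq_zero]
    intro s hs
    rw [mem_Ico, ha, hb, lt_min_iff] at hs
    rw [if_neg]
    intro h3
    apply h
    omega

/-- Functions of bounded variation. -/
theorem Rep.bv (n : ℕ) (hn : 1 ≤ n) (F : ℤ → ℂ) :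
    Rep n (‖F 2‖ + (3 + Real.log n) * ∑ j ∈ range (2 * n), ‖F ((j : ℤ) + 3) - F ((j : ℤ) + 2)‖) F := by
  have h1 := Rep.sum (n := n) (range (2 * n)) (fun j => ‖F ((j : ℤ) + 3) - F ((j : ℤ) + 2)‖ * (3 + Real.log n))
    (fun j m => (F ((j : ℤ) + 3) - F ((j : ℤ) + 2)) * (if ((j : ℤ) + 3) ≤ m ∧ m < 2 * n + 1 then 1 else 0))
    fun j _ => (Rep.interval n hn ((j : ℤ) + 3) (2 * n + 1)).smul _
  have h2 := (Rep.const n (F 2)).add h1
  rw [← sum_mul, mul_comm (∑ j ∈ range (2 * n), ‖F ((j : ℤ) + 3) - F ((j : ℤ) + 2)‖)] at h2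
  refine h2.congr fun m hm1 hm2 => ?_
  obtain ⟨d, rfl⟩ : ∃ d : ℕ, m = d + 2 := ⟨(m - 2).toNat, by omega⟩
  have hd : d ≤ 2 * n := by omega
  have h3 : ∑ j ∈ range (2 * n), (F ((j : ℤ) + 3) - F ((j : ℤ) + 2)) * (if ((j : ℤ) + 3) ≤ (d : ℤ) + 2 ∧ (d : ℤ) + 2 < 2 * n + 1 then (1 : ℂ) else 0) =
      ∑ j ∈ range d, (F ((j : ℤ) + 3) - F ((j : ℤ) + 2)) := by
    rw [← sum_subset (range_subset_range.2 hd)]
    · refine sum_congr rfl fun j hj => ?_
      rw [mem_range] at hj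
      rw [if_pos, mul_one]
      omega
    · intro j _ hj
      rw [mem_range] at hj
      rw [if_neg, mul_zero]
      omega
  rw [h3]
  have h4 : ∑ j ∈ range d, (F ((j : ℤ) + 3) - F ((j : ℤ) + 2)) = F ((d : ℤ) + 2) - F 2 := by
    have h5 := Finset.sum_range_sub (fun j : ℕ => F ((j : ℤ) + 2)) d
    simp only [Nat.cast_zero, zero_add] at h5
    rw [← h5]
    refine sum_congr rfl fun j _ => ?_
    rw [show (((j + 1 : ℕ) : ℤ) + 2) = (j : ℤ) + 3 by push_cast; ring]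
  rw [h4]
  ring

end Pool.Agent.H81E
end

-- from Lib.H81E.C3
section

/-!
# H81E (MP_443e5f, candidate T, module C), part 3: the bilinear form `TF`, additive characters, Type I pieces
-/

namespace Pool.Agent.H81E

open Finset Pool.Agent.H44W

theorem TF_congr (n : ℕ) {F G : ℤ → ℂ} (W f g : ℤ → ℂ) (h : ∀ m : ℤ, 2 ≤ m → m ≤ 2 * n → F m = G m) : TF n F W f g = TF n G W f g := by
  unfold TF
  refine sum_congr rfl fun x hx => sum_congr rfl fun y hy => ?_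
  rw [mem_Icc] at hx hy
  rw [h (x + y) (by omega) (by omega)]

theorem TF_sum (n : ℕ) {ι : Type*} (s : Finset ι) (F : ι → ℤ → ℂ) (W f g : ℤ → ℂ) :
    TF n (fun m => ∑ i ∈ s, F i m) W f g = ∑ i ∈ s, TF n (F i) W f g := by
  unfold TF
  rw [sum_comm]
  have h1 : ∀ y ∈ Icc (1 : ℤ) n, ∑ x ∈ Icc (1 : ℤ) n, f x * g y * (∑ i ∈ s, F i (x + y)) * W (x - y) =
      ∑ i ∈ s, ∑ x ∈ Icc (1 : ℤ) n, f x * g y * F i (x + y) * W (x - y) := by
    intro y _
    rw [sum_comm]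
    refine sum_congr rfl fun x _ => ?_
    rw [mul_sum, sum_mul]
  rw [sum_congr rfl h1, sum_comm]
  refine sum_congr rfl fun i _ => ?_
  rw [sum_comm]

theorem TF_smul (n : ℕ) (c : ℂ) (F W f g : ℤ → ℂ) : TF n (fun m => c * F m) W f g = c * TF n F W f g := by
  unfold TF
  rw [mul_sum]
  refine sum_congr rfl fun x _ => ?_
  rw [mul_sum]
  refine sum_congr rfl fun y _ => ?_
  ring

theorem TF_ee (n : ℕ) (th : ℝ) (G W f g : ℤ → ℂ) :
    TF n (fun m => ee (th * m) * G m) W f g = TF n G W (fun x => f x * ee (th * x)) (fun y => g y * ee (th * y)) := by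
  unfold TF
  refine sum_congr rfl fun x _ => sum_congr rfl fun y _ => ?_
  dsimp only
  rw [show th * ((x + y : ℤ) : ℝ) = th * x + th * y by push_cast; ring, ee_add]
  ring

/-- A factor with small Fourier norm is absorbed by `f` and `g`. -/
theorem Rep.TF {n : ℕ} {A : ℝ} {F : ℤ → ℂ} (h : Rep n A F) (G W f g : ℤ → ℂ) :
    ∃ th : ℝ, ‖Pool.Agent.H44W.TF n (fun m => F m * G m) W f g‖ ≤
      A * ‖Pool.Agent.H44W.TF n G W (fun x => f x * Pool.Agent.H44W.ee (th * x)) (fun y => g y * Pool.Agent.H44W.ee (th * y))‖ := by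
  have hA := h.nonneg
  obtain ⟨J, c, al, h1, h2⟩ := h
  have h3 : Pool.Agent.H44W.TF n (fun m => F m * G m) W f g =
      ∑ j ∈ range J, c j * Pool.Agent.H44W.TF n G W (fun x => f x * Pool.Agent.H44W.ee (al j * x)) (fun y => g y * Pool.Agent.H44W.ee (al j * y)) := by
    rw [TF_congr n (G := fun m => ∑ j ∈ range J, c j * (Pool.Agent.H44W.ee (al j * m) * G m)), TF_sum]
    · refine sum_congr rfl fun j _ => ?_
      rw [TF_smul, TF_ee]
    · intro m hm1 hm2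
      rw [h2 m hm1 hm2, sum_mul]
      exact sum_congr rfl fun j _ => by ring
  rcases Nat.eq_zero_or_pos J with rfl | hJ
  · refine ⟨0, ?_⟩
    rw [h3, sum_range_zero, norm_zero]
    exact mul_nonneg hA (norm_nonneg _)
  · obtain ⟨j0, _, hj0⟩ := exists_max_image (range J) (fun j => ‖Pool.Agent.H44W.TF n G W (fun x => f x * Pool.Agent.H44W.ee (al j * x)) (fun y => g y * Pool.Agent.H44W.ee (al j * y))‖)
      ⟨0, mem_range.2 hJ⟩
    refine ⟨al j0, ?_⟩
    rw [h3]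
    refine (norm_sum_le _ _).trans ?_
    refine (sum_le_sum (g := fun j => ‖c j‖ * ‖Pool.Agent.H44W.TF n G W (fun x => f x * Pool.Agent.H44W.ee (al j0 * x)) (fun y => g y * Pool.Agent.H44W.ee (al j0 * y))‖) fun j hj => ?_).trans ?_
    · rw [norm_mul]
      exact mul_le_mul_of_nonneg_left (hj0 j hj) (norm_nonneg _)
    · rw [← sum_mul]
      exact mul_le_mul_of_nonneg_right h1 (norm_nonneg _)

/-- Parseval on the group `ℤ / M`. -/
theorem parseval (M : ℕ) (hM : 0 < M) (S : Finset ℤ) (hS : ∀ s ∈ S, ∀ t ∈ S, (M : ℤ) ∣ s - t → s = t) (a : ℤ → ℂ) :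
    ∑ k ∈ range M, ‖∑ s ∈ S, a s * ee ((k : ℝ) * s / M)‖ ^ 2 = M * ∑ s ∈ S, ‖a s‖ ^ 2 := by
  have h1 : ∀ k : ℕ, ((‖∑ s ∈ S, a s * ee ((k : ℝ) * s / M)‖ ^ 2 : ℝ) : ℂ) =
      ∑ s ∈ S, ∑ t ∈ S, a s * (starRingEnd ℂ) (a t) * ee ((k : ℝ) * ((s - t : ℤ) : ℝ) / M) := by
    intro k
    rw [Complex.ofReal_pow, ← Complex.mul_conj', map_sum, sum_mul_sum]
    refine sum_congr rfl fun s _ => sum_congr rfl fun t _ => ?_
    rw [map_mul, ← ee_neg, show (k : ℝ) * ((s - t : ℤ) : ℝ) / M = (k : ℝ) * s / M + -((k : ℝ) * t / M) by push_cast; ring, ee_add]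
    ring
  have h2 : ((∑ k ∈ range M, ‖∑ s ∈ S, a s * ee ((k : ℝ) * s / M)‖ ^ 2 : ℝ) : ℂ) = ((M * ∑ s ∈ S, ‖a s‖ ^ 2 : ℝ) : ℂ) := by
    rw [Complex.ofReal_sum, sum_congr rfl fun k _ => h1 k, sum_comm, sum_congr rfl fun s _ => sum_comm]
    rw [Complex.ofReal_mul, Complex.ofReal_sum, Complex.ofReal_natCast, mul_sum]
    refine sum_congr rfl fun s hs => ?_
    rw [Finset.sum_eq_single s]
    · rw [← mul_sum, ee_orth M hM, if_pos (by rw [sub_self]; exact dvd_zero _), Complex.mul_conj', Complex.ofReal_pow]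
      ring
    · intro t ht hts
      rw [← mul_sum, ee_orth M hM, if_neg, mul_zero]
      intro h
      exact hts (hS s hs t ht h).symm
    · intro h
      exact absurd hs h
  exact_mod_cast h2

/-- The form with kernel `1`. -/
theorem TF_one (n : ℕ) (W f g : ℤ → ℂ) (hW : ∀ x, ‖W x‖ ≤ 1) (hf : ∀ x, ‖f x‖ ≤ 1) :
    ∃ th : ℝ, ‖TF n (fun _ => 1) W f g‖ ≤ 2 * n * ‖∑ y ∈ Icc (1 : ℤ) n, g y * ee (th * y)‖ := by
  rcases Nat.eq_zero_or_pos n with rfl | hn
  · refine ⟨0, ?_⟩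
    simp [TF]
  set M : ℕ := 2 * n with hM
  have hM0 : 0 < M := by omega
  have hMr : (M : ℝ) ≠ 0 := by exact_mod_cast hM0.ne'
  have hMc : (M : ℂ) ≠ 0 := by exact_mod_cast hM0.ne'
  set w : ℕ → ℂ := fun k => (1 / (M : ℂ)) * ∑ v ∈ Ioo (-(n : ℤ)) n, W v * ee (-((k : ℝ) * v / M)) with hw
  set F : ℕ → ℂ := fun k => ∑ x ∈ Icc (1 : ℤ) n, f x * ee ((k : ℝ) * x / M) with hF
  set G : ℕ → ℂ := fun k => ∑ y ∈ Icc (1 : ℤ) n, g y * ee (-((k : ℝ) / M) * y) with hG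
  -- inversion
  have h1 : ∀ v0 ∈ Ioo (-(n : ℤ)) n, W v0 = ∑ k ∈ range M, w k * ee ((k : ℝ) * v0 / M) := by
    intro v0 hv0
    rw [mem_Ioo] at hv0
    have h2 : ∀ k ∈ range M, w k * ee ((k : ℝ) * v0 / M) = ∑ v ∈ Ioo (-(n : ℤ)) n, (1 / (M : ℂ)) * W v * ee ((k : ℝ) * ((v0 - v : ℤ) : ℝ) / M) := by
      intro k _
      rw [hw]
      dsimp only
      rw [mul_sum, sum_mul]
      refine sum_congr rfl fun v _ => ?_
      rw [show (k : ℝ) * ((v0 - v : ℤ) : ℝ) / M = -((k : ℝ) * v / M) + (k : ℝ) * v0 / M by push_cast; ring, ee_add]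
      ring
    rw [sum_congr rfl h2, sum_comm, Finset.sum_eq_single v0]
    · rw [← mul_sum, ee_orth M hM0, if_pos (by rw [sub_self]; exact dvd_zero _)]
      field_simp
    · intro v hv hvv
      rw [mem_Ioo] at hv
      rw [← mul_sum, ee_orth M hM0, if_neg, mul_zero]
      intro h
      apply hvv
      have h4 : v0 - v = 0 := Int.eq_zero_of_abs_lt_dvd h (by rw [abs_lt]; constructor <;> omega)
      omega
    · intro h
      exact absurd (mem_Ioo.2 hv0) h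
  have h2 : TF n (fun _ => 1) W f g = ∑ k ∈ range M, w k * F k * G k := by
    unfold TF
    have h3 : ∀ x ∈ Icc (1 : ℤ) n, ∀ y ∈ Icc (1 : ℤ) n, f x * g y * 1 * W (x - y) =
        ∑ k ∈ range M, w k * (f x * ee ((k : ℝ) * x / M)) * (g y * ee (-((k : ℝ) / M) * y)) := by
      intro x hx y hy
      rw [mem_Icc] at hx hy
      rw [h1 (x - y) (by rw [mem_Ioo]; omega), mul_sum]
      refine sum_congr rfl fun k _ => ?_
      rw [show (k : ℝ) * ((x - y : ℤ) : ℝ) / M = (k : ℝ) * x / M + -((k : ℝ) / M) * y by push_cast; ring, ee_add]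
      ring
    rw [sum_congr rfl fun x hx => sum_congr rfl fun y hy => h3 x hx y hy]
    rw [sum_congr rfl fun x _ => sum_comm, sum_comm]
    refine sum_congr rfl fun k _ => ?_
    rw [hF, hG]
    dsimp only
    rw [mul_assoc, sum_mul_sum, mul_sum]
    refine sum_congr rfl fun x _ => ?_
    rw [mul_sum]
    refine sum_congr rfl fun y _ => ?_
    ring
  have hwsq : ∑ k ∈ range M, ‖w k‖ ^ 2 ≤ 1 := by
    have h3 : ∀ k ∈ range M, ‖w k‖ ^ 2 = (1 / (M : ℝ)) ^ 2 * ‖∑ v ∈ Ioo (-(n : ℤ)) n, (starRingEnd ℂ) (W v) * ee ((k : ℝ) * v / M)‖ ^ 2 := by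
      intro k _
      rw [hw]
      dsimp only
      rw [norm_mul, mul_pow, norm_div, norm_one, Complex.norm_natCast, ← RCLike.norm_conj (∑ v ∈ Ioo (-(n : ℤ)) n, W v * ee (-((k : ℝ) * v / M))), map_sum]
      congr 3
      refine sum_congr rfl fun v _ => ?_
      rw [map_mul, ee_neg, Complex.conj_conj]
    rw [sum_congr rfl h3, ← mul_sum, parseval M hM0]
    · have h4 : ∑ v ∈ Ioo (-(n : ℤ)) n, ‖(starRingEnd ℂ) (W v)‖ ^ 2 ≤ M := by
        refine (sum_le_sum (g := fun _ => (1 : ℝ)) fun v _ => ?_).trans ?_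
        · rw [RCLike.norm_conj]
          exact pow_le_one₀ (norm_nonneg _) (hW v)
        · rw [sum_const, nsmul_eq_mul, mul_one, Int.card_Ioo]
          exact_mod_cast (by omega : ((n : ℤ) - -(n : ℤ) - 1).toNat ≤ M)
      calc (1 / (M : ℝ)) ^ 2 * (M * ∑ v ∈ Ioo (-(n : ℤ)) n, ‖(starRingEnd ℂ) (W v)‖ ^ 2) ≤ (1 / (M : ℝ)) ^ 2 * (M * M) := by gcongr
        _ = 1 := by field_simp
    · intro s hs t ht h
      rw [mem_Ioo] at hs ht
      have h4 : s - t = 0 := Int.eq_zero_of_abs_lt_dvd h (by rw [abs_lt]; constructor <;> omega)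
      omega
  have hFsq : ∑ k ∈ range M, ‖F k‖ ^ 2 ≤ (M : ℝ) * n := by
    rw [hF]
    dsimp only
    rw [parseval M hM0]
    · refine mul_le_mul_of_nonneg_left ?_ (Nat.cast_nonneg _)
      refine (sum_le_sum (g := fun _ => (1 : ℝ)) fun v _ => pow_le_one₀ (norm_nonneg _) (hf v)).trans ?_
      rw [sum_const, nsmul_eq_mul, mul_one, Int.card_Icc]
      exact_mod_cast (by omega : ((n : ℤ) + 1 - 1).toNat ≤ n)
    · intro s hs t ht h
      rw [mem_Icc] at hs ht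
      have h4 : s - t = 0 := Int.eq_zero_of_abs_lt_dvd h (by rw [abs_lt]; constructor <;> omega)
      omega
  have hCS : ∑ k ∈ range M, ‖w k‖ * ‖F k‖ ≤ 2 * n := by
    have h3 := sum_mul_sq_le_sq_mul_sq (range M) (fun k => ‖w k‖) (fun k => ‖F k‖)
    have h4 : (∑ k ∈ range M, ‖w k‖ * ‖F k‖) ^ 2 ≤ (2 * (n : ℝ)) ^ 2 := by
      refine h3.trans ((mul_le_mul hwsq hFsq (sum_nonneg fun k _ => by positivity) zero_le_one).trans ?_)
      rw [hM]
      push_cast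
      nlinarith [sq_nonneg (n : ℝ)]
    exact le_of_sq_le_sq h4 (by positivity)
  obtain ⟨k0, _, hk0⟩ := exists_max_image (range M) (fun k => ‖G k‖) ⟨0, mem_range.2 hM0⟩
  refine ⟨-((k0 : ℝ) / M), ?_⟩
  rw [h2]
  calc ‖∑ k ∈ range M, w k * F k * G k‖ ≤ ∑ k ∈ range M, ‖w k * F k * G k‖ := norm_sum_le _ _
    _ ≤ ∑ k ∈ range M, ‖w k‖ * ‖F k‖ * ‖G k0‖ := by
        refine sum_le_sum fun k hk => ?_
        rw [norm_mul, norm_mul]
        exact mul_le_mul_of_nonneg_left (hk0 k hk) (by positivity)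
    _ = (∑ k ∈ range M, ‖w k‖ * ‖F k‖) * ‖G k0‖ := by rw [sum_mul]
    _ ≤ 2 * n * ‖G k0‖ := mul_le_mul_of_nonneg_right hCS (norm_nonneg _)

/-- A kernel with small Fourier norm: `TF` is controlled by the exponential sums of `g`. -/
theorem Rep.TF_le {n : ℕ} {A : ℝ} {F : ℤ → ℂ} (h : Rep n A F) (W f g : ℤ → ℂ) (hW : ∀ x, ‖W x‖ ≤ 1) (hf : ∀ x, ‖f x‖ ≤ 1) :
    ∃ th : ℝ, ‖Pool.Agent.H44W.TF n F W f g‖ ≤ A * (2 * n * ‖∑ y ∈ Icc (1 : ℤ) n, g y * Pool.Agent.H44W.ee (th * y)‖) := by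
  obtain ⟨th1, h1⟩ := h.TF (fun _ => 1) W f g
  obtain ⟨th2, h2⟩ := TF_one n W (fun x => f x * Pool.Agent.H44W.ee (th1 * x)) (fun y => g y * Pool.Agent.H44W.ee (th1 * y)) hW
    (fun x => by rw [norm_mul, norm_ee, mul_one]; exact hf x)
  refine ⟨th1 + th2, ?_⟩
  have h3 : ∑ y ∈ Icc (1 : ℤ) n, g y * Pool.Agent.H44W.ee ((th1 + th2) * y) = ∑ y ∈ Icc (1 : ℤ) n, g y * Pool.Agent.H44W.ee (th1 * y) * Pool.Agent.H44W.ee (th2 * y) := by
    refine sum_congr rfl fun y _ => ?_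
    rw [add_mul, ee_add]
    ring
  rw [h3]
  have h4 : Pool.Agent.H44W.TF n F W f g = Pool.Agent.H44W.TF n (fun m => F m * 1) W f g := TF_congr n W f g fun m _ _ => (mul_one _).symm
  rw [h4]
  exact h1.trans (mul_le_mul_of_nonneg_left h2 h.nonneg)

end Pool.Agent.H81E
end

-- from Lib.H81W.Defs
section

/-!
# H81W (MP_443e5f, candidate T, module B, helper3's short proof), definitions and facts for steps 3 and 4

All functions live on `Icc (1:ℤ) n`.
-/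

open Finset

namespace Pool.Agent.Lib.H81W

open Pool.Agent.H44W (ee TF cut)

/-- The multiplicative derivative. -/
noncomputable def Gd (g : ℤ → ℂ) (d y : ℤ) : ℂ := g y * (starRingEnd ℂ) (g (y + d))

/-- The sum of `u` over one residue class. -/
noncomputable def Sr (n m : ℕ) (u : ℤ → ℂ) (r : ℤ) : ℂ := ∑ y ∈ (Icc (1 : ℤ) n).filter (fun y => y % m = r), u y

/-- The energy of `u` modulo `m`. -/
noncomputable def En (n m : ℕ) (u : ℤ → ℂ) : ℝ := ∑ r ∈ Ico (0 : ℤ) m, ‖Sr n m u r‖ ^ 2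

/-- `m`-periodic functions. -/
def Per (m : ℕ) (p : ℤ → ℂ) : Prop := ∀ y z : ℤ, (m : ℤ) ∣ y - z → p y = p z

theorem En_nonneg (n m : ℕ) (u : ℤ → ℂ) : 0 ≤ En n m u := sum_nonneg fun _ _ => by positivity

theorem norm_Gd_le {g : ℤ → ℂ} (hg : ∀ x, ‖g x‖ ≤ 1) (d y : ℤ) : ‖Gd g d y‖ ≤ 1 := by
  unfold Gd
  rw [norm_mul, RCLike.norm_conj]
  exact mul_le_one₀ (hg _) (norm_nonneg _) (hg _)

theorem sum_eq_sum_Sr (n m : ℕ) (hm : 0 < m) (u p : ℤ → ℂ) (hp : Per m p) :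
    ∑ y ∈ Icc (1 : ℤ) n, u y * p y = ∑ r ∈ Ico (0 : ℤ) m, Sr n m u r * p r := by
  have hm0 : (0 : ℤ) < m := by exact_mod_cast hm
  have hmaps : ∀ y ∈ Icc (1 : ℤ) n, y % m ∈ Ico (0 : ℤ) m := fun y _ => mem_Ico.2 ⟨Int.emod_nonneg _ hm0.ne', Int.emod_lt_of_pos _ hm0⟩
  rw [← sum_fiberwise_of_maps_to hmaps]
  refine sum_congr rfl fun r _ => ?_
  unfold Sr
  rw [sum_mul]
  refine sum_congr rfl fun y hy => ?_
  rw [mem_filter] at hy
  rw [hp y r]
  rw [← hy.2]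
  exact Int.dvd_self_sub_emod

/-- (PC) -/
theorem PC (n m : ℕ) (hm : 0 < m) (u p : ℤ → ℂ) (hp : Per m p) (hp1 : ∀ y, ‖p y‖ ≤ 1) :
    ‖∑ y ∈ Icc (1 : ℤ) n, u y * p y‖ ^ 2 ≤ m * En n m u := by
  rw [sum_eq_sum_Sr n m hm u p hp]
  have h1 : ‖∑ r ∈ Ico (0 : ℤ) m, Sr n m u r * p r‖ ≤ ∑ r ∈ Ico (0 : ℤ) m, 1 * ‖Sr n m u r‖ := by
    refine (norm_sum_le _ _).trans (sum_le_sum fun r _ => ?_)
    rw [norm_mul, one_mul]
    exact mul_le_of_le_one_right (norm_nonneg _) (hp1 r)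
  have h2 := sum_mul_sq_le_sq_mul_sq (Ico (0 : ℤ) m) (fun _ => (1 : ℝ)) (fun r => ‖Sr n m u r‖)
  calc ‖∑ r ∈ Ico (0 : ℤ) m, Sr n m u r * p r‖ ^ 2 ≤ (∑ r ∈ Ico (0 : ℤ) m, 1 * ‖Sr n m u r‖) ^ 2 := pow_le_pow_left₀ (norm_nonneg _) h1 2
    _ ≤ _ := h2
    _ = m * En n m u := by
      unfold En
      simp

/-- The number of elements of a residue class. -/
theorem card_res (n m : ℕ) (hm : 0 < m) (hmn : m ≤ n) (r : ℤ) : (((Icc (1 : ℤ) n).filter (fun y => y % m = r)).card : ℝ) ≤ 2 * n / m := by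
  have hm0 : (0 : ℤ) < m := by exact_mod_cast hm
  have hmr : (0 : ℝ) < m := by exact_mod_cast hm
  have h1 : ((Icc (1 : ℤ) n).filter (fun y => y % m = r)).card ≤ (Icc (0 : ℤ) (n / m : ℤ)).card := by
    refine card_le_card_of_injOn (fun y => y / m) ?_ ?_
    · intro y hy
      rw [mem_coe, mem_filter, mem_Icc] at hy
      rw [mem_coe, mem_Icc]
      exact ⟨Int.ediv_nonneg (by omega) hm0.le, Int.ediv_le_ediv hm0 hy.1.2⟩
    · intro y hy z hz h
      rw [mem_coe, mem_filter] at hy hz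
      have h2 := Int.mul_ediv_add_emod y m
      have h3 := Int.mul_ediv_add_emod z m
      simp only at h
      rw [← h2, ← h3, h, hy.2, hz.2]
  have h2 : ((Icc (0 : ℤ) (n / m : ℤ)).card : ℝ) ≤ (n : ℝ) / m + 1 := by
    rw [Int.card_Icc]
    have h3 : ((n : ℤ) / m + 1 - 0).toNat = n / m + 1 := by
      rw [sub_zero]
      have : ((n : ℤ) / m + 1) = ((n / m + 1 : ℕ) : ℤ) := by push_cast; rfl
      rw [this, Int.toNat_natCast]
    rw [h3]
    push_cast
    have := @Nat.cast_div_le ℝ _ _ _ n m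
    linarith
  have h3 : (1 : ℝ) ≤ (n : ℝ) / m := by
    rw [le_div_iff₀ hmr, one_mul]
    exact_mod_cast hmn
  calc (((Icc (1 : ℤ) n).filter (fun y => y % m = r)).card : ℝ) ≤ ((Icc (0 : ℤ) (n / m : ℤ)).card : ℝ) := by exact_mod_cast h1
    _ ≤ (n : ℝ) / m + 1 := h2
    _ ≤ (n : ℝ) / m + (n : ℝ) / m := by linarith
    _ = 2 * n / m := by ring

theorem norm_Sr_le (n m : ℕ) (hm : 0 < m) (hmn : m ≤ n) (u : ℤ → ℂ) (hu : ∀ y, ‖u y‖ ≤ 1) (r : ℤ) : ‖Sr n m u r‖ ≤ 2 * n / m := by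
  unfold Sr
  refine (norm_sum_le _ _).trans ?_
  refine (sum_le_card_nsmul _ _ 1 fun y _ => hu y).trans ?_
  rw [nsmul_eq_mul, mul_one]
  exact card_res n m hm hmn r

theorem En_le (n m : ℕ) (hm : 0 < m) (hmn : m ≤ n) (u : ℤ → ℂ) (hu : ∀ y, ‖u y‖ ≤ 1) : En n m u ≤ 4 * n ^ 2 / m := by
  have hmr : (0 : ℝ) < m := by exact_mod_cast hm
  unfold En
  refine (sum_le_card_nsmul _ _ ((2 * n / m : ℝ) ^ 2) fun r _ => pow_le_pow_left₀ (norm_nonneg _) (norm_Sr_le n m hm hmn u hu r) 2).trans ?_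
  rw [nsmul_eq_mul, Int.card_Ico, sub_zero, Int.toNat_natCast]
  apply le_of_eq
  field_simp
  ring

/-- (PX) -/
theorem PX (n m : ℕ) (hm : 0 < m) (hmn : m ≤ n) (u : ℤ → ℂ) (hu : ∀ y, ‖u y‖ ≤ 1) :
    ∃ p : ℤ → ℂ, Per m p ∧ (∀ y, ‖p y‖ ≤ 1) ∧ ∑ y ∈ Icc (1 : ℤ) n, u y * p y = ((m / (2 * n) * En n m u : ℝ) : ℂ) := by
  have hmr : (0 : ℝ) < m := by exact_mod_cast hm
  have hnr : (0 : ℝ) < n := by exact_mod_cast (by omega : 0 < n)
  have hper : Per m (fun y => ((m / (2 * n) : ℝ) : ℂ) * (starRingEnd ℂ) (Sr n m u (y % m))) := by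
    intro y z h
    have h1 : y % m = z % m := Int.emod_eq_emod_iff_emod_sub_eq_zero.2 (Int.emod_eq_zero_of_dvd h)
    dsimp only
    rw [h1]
  refine ⟨_, hper, ?_, ?_⟩
  · intro y
    rw [norm_mul, RCLike.norm_conj, Complex.norm_real, Real.norm_eq_abs, abs_of_nonneg (by positivity)]
    calc (m : ℝ) / (2 * n) * ‖Sr n m u (y % m)‖ ≤ (m : ℝ) / (2 * n) * (2 * n / m) := mul_le_mul_of_nonneg_left (norm_Sr_le n m hm hmn u hu _) (by positivity)
      _ = 1 := by field_simp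
  · rw [sum_eq_sum_Sr n m hm u _ hper]
    unfold En
    rw [mul_sum, Complex.ofReal_sum]
    refine sum_congr rfl fun r hr => ?_
    rw [mem_Ico] at hr
    rw [Int.emod_eq_of_lt hr.1 hr.2]
    rw [Complex.ofReal_mul, Complex.ofReal_pow, ← Complex.mul_conj']
    ring

end Pool.Agent.Lib.H81W
end

-- from Lib.H81W.S3
section

/-!
# H81W, step 3 for one pair `(j, k)`
-/

open Finset

namespace Pool.Agent.Lib.H81W

open Pool.Agent.H44W (ee TF cut)
open Pool.Agent.H81E (norm_ee ee_add ee_neg)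

theorem Per.mul {m : ℕ} {p q : ℤ → ℂ} (hp : Per m p) (hq : Per m q) : Per m (fun y => p y * q y) := fun y z h => by
  dsimp only
  rw [hp y z h, hq y z h]

theorem Per.conj {m : ℕ} {p : ℤ → ℂ} (hp : Per m p) : Per m (fun y => (starRingEnd ℂ) (p y)) := fun y z h => by
  dsimp only
  rw [hp y z h]

theorem Per.shift {m : ℕ} {p : ℤ → ℂ} (hp : Per m p) (t : ℤ) : Per m (fun y => p (y - t)) := fun y z h =>
  hp _ _ (by rw [show y - t - (z - t) = y - z by ring]; exact h)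

/-- A sum over a big interval of a function vanishing outside a shifted interval. -/
theorem sum_shift (n : ℕ) (Q q : ℤ) (hq : |q| + n ≤ Q) (F : ℤ → ℂ) (hF : ∀ y, y + q ∉ Icc (1 : ℤ) n → F y = 0) :
    ∑ y ∈ Icc (-Q) Q, F y = ∑ z ∈ Icc (1 : ℤ) n, F (z - q) := by
  have hq1 := abs_le.1 (show |q| ≤ |q| from le_rfl)
  rw [← sum_subset (s₁ := Icc (1 - q) (n - q))]
  · refine sum_bij' (fun y _ => y + q) (fun z _ => z - q) ?_ ?_ ?_ ?_ ?_
    · intro y hy
      rw [mem_Icc] at hy ⊢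
      omega
    · intro y hy
      rw [mem_Icc] at hy ⊢
      omega
    · intro y _
      ring
    · intro y _
      ring
    · intro y _
      rw [add_sub_cancel_right]
  · intro y hy
    rw [mem_Icc] at hy ⊢
    omega
  · intro y _ hy
    apply hF
    rw [mem_Icc] at hy ⊢
    omega

/-- Step 3 for one pair. -/
theorem step3 (n m : ℕ) (hm : 0 < m) (hmn : m ≤ n) (g : ℤ → ℂ) (hg : ∀ x, ‖g x‖ ≤ 1) (hs : ∀ y, y ∉ Icc (1 : ℤ) n → g y = 0) {ι : Type*} (A : Finset ι) (q : ι → ℤ)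
    (th : ℝ) (X : ℝ) (hX0 : 0 ≤ X) (hX : X ≤ ∑ a ∈ A, En n m (fun y => Gd g (q a) y * ee (th * y))) :
    X ^ 4 * m ^ 3 ≤ 16 * n ^ 6 * (A.card : ℝ) ^ 2 * ∑ a ∈ A, ∑ b ∈ A, En n m (Gd g (q b - q a)) := by
  classical
  have hmr : (0 : ℝ) < m := by exact_mod_cast hm
  have hnr : (0 : ℝ) < n := by exact_mod_cast (by omega : 0 < n)
  have h1 : ∀ a : ι, ∃ p : ℤ → ℂ, Per m p ∧ (∀ y, ‖p y‖ ≤ 1) ∧
      ∑ y ∈ Icc (1 : ℤ) n, (Gd g (q a) y * ee (th * y)) * p y = ((m / (2 * n) * En n m (fun y => Gd g (q a) y * ee (th * y)) : ℝ) : ℂ) :=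
    fun a => PX n m hm hmn _ fun y => by
      rw [norm_mul, Pool.Agent.H81E.norm_ee, mul_one]
      exact norm_Gd_le hg _ _
  choose p hp1 hp2 hp3 using h1
  set T : ℤ → ℂ := fun y => ∑ a ∈ A, (starRingEnd ℂ) (g (y + q a)) * p a y with hT
  set Q : ℤ := n + ∑ a ∈ A, |q a| with hQ
  have hQa : ∀ a ∈ A, |q a| + n ≤ Q := by
    intro a ha
    have := single_le_sum (f := fun a => |q a|) (fun i _ => abs_nonneg (q i)) ha
    rw [hQ]
    linarith
  have hQn : (n : ℤ) ≤ Q := by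
    rw [hQ]
    have : 0 ≤ ∑ a ∈ A, |q a| := sum_nonneg fun i _ => abs_nonneg _
    linarith
  -- first Cauchy-Schwarz
  have h2 : (m / (2 * n) * X) ^ 2 ≤ n * ∑ y ∈ Icc (-Q) Q, ‖T y‖ ^ 2 := by
    have h3 : m / (2 * n) * X ≤ ∑ y ∈ Icc (1 : ℤ) n, 1 * ‖T y‖ := by
      have h4 : ((m / (2 * n) * ∑ a ∈ A, En n m (fun y => Gd g (q a) y * ee (th * y)) : ℝ) : ℂ) = ∑ y ∈ Icc (1 : ℤ) n, g y * ee (th * y) * T y := by
        rw [mul_sum, Complex.ofReal_sum]
        simp_rw [← hp3]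
        rw [sum_comm]
        refine sum_congr rfl fun y _ => ?_
        rw [hT]
        dsimp only
        rw [mul_sum]
        refine sum_congr rfl fun a _ => ?_
        unfold Gd
        ring
      have h5 : ‖((m / (2 * n) * ∑ a ∈ A, En n m (fun y => Gd g (q a) y * ee (th * y)) : ℝ) : ℂ)‖ ≤ ∑ y ∈ Icc (1 : ℤ) n, 1 * ‖T y‖ := by
        rw [h4]
        refine (norm_sum_le _ _).trans (sum_le_sum fun y _ => ?_)
        rw [norm_mul, norm_mul, Pool.Agent.H81E.norm_ee, mul_one]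
        exact mul_le_mul_of_nonneg_right (hg y) (norm_nonneg _)
      rw [Complex.norm_real, Real.norm_eq_abs] at h5
      calc m / (2 * n) * X ≤ m / (2 * n) * ∑ a ∈ A, En n m (fun y => Gd g (q a) y * ee (th * y)) := mul_le_mul_of_nonneg_left hX (by positivity)
        _ ≤ _ := (le_abs_self _).trans h5
    have h4 := sum_mul_sq_le_sq_mul_sq (Icc (1 : ℤ) n) (fun _ => (1 : ℝ)) (fun y => ‖T y‖)
    calc (m / (2 * n) * X) ^ 2 ≤ (∑ y ∈ Icc (1 : ℤ) n, 1 * ‖T y‖) ^ 2 := pow_le_pow_left₀ (by positivity) h3 2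
      _ ≤ _ := h4
      _ = n * ∑ y ∈ Icc (1 : ℤ) n, ‖T y‖ ^ 2 := by simp
      _ ≤ n * ∑ y ∈ Icc (-Q) Q, ‖T y‖ ^ 2 := by
          refine mul_le_mul_of_nonneg_left (sum_le_sum_of_subset_of_nonneg ?_ fun _ _ _ => by positivity) hnr.le
          intro y hy
          rw [mem_Icc] at hy ⊢
          omega
  -- expansion
  have h3 : ∑ y ∈ Icc (-Q) Q, ‖T y‖ ^ 2 ≤ ∑ a ∈ A, ∑ b ∈ A, Real.sqrt (m * En n m (Gd g (q b - q a))) := by
    have h4 : ((∑ y ∈ Icc (-Q) Q, ‖T y‖ ^ 2 : ℝ) : ℂ) =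
        ∑ a ∈ A, ∑ b ∈ A, ∑ y ∈ Icc (-Q) Q, (starRingEnd ℂ) (g (y + q a)) * g (y + q b) * (p a y * (starRingEnd ℂ) (p b y)) := by
      rw [Complex.ofReal_sum]
      have h5 : ∀ y, ((‖T y‖ ^ 2 : ℝ) : ℂ) = ∑ a ∈ A, ∑ b ∈ A, (starRingEnd ℂ) (g (y + q a)) * g (y + q b) * (p a y * (starRingEnd ℂ) (p b y)) := by
        intro y
        rw [Complex.ofReal_pow, ← Complex.mul_conj', hT]
        dsimp only
        rw [map_sum, sum_mul_sum]
        refine sum_congr rfl fun a _ => sum_congr rfl fun b _ => ?_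
        rw [map_mul, Complex.conj_conj]
        ring
      simp_rw [h5]
      rw [sum_comm]
      refine sum_congr rfl fun a _ => ?_
      rw [sum_comm]
    have h5 : ∀ a ∈ A, ∀ b ∈ A, ‖∑ y ∈ Icc (-Q) Q, (starRingEnd ℂ) (g (y + q a)) * g (y + q b) * (p a y * (starRingEnd ℂ) (p b y))‖ ≤
        Real.sqrt (m * En n m (Gd g (q b - q a))) := by
      intro a ha b hb
      rw [sum_shift n Q (q a) (hQa a ha)]
      · have h6 : ∑ z ∈ Icc (1 : ℤ) n, (starRingEnd ℂ) (g (z - q a + q a)) * g (z - q a + q b) * (p a (z - q a) * (starRingEnd ℂ) (p b (z - q a))) =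
            (starRingEnd ℂ) (∑ z ∈ Icc (1 : ℤ) n, Gd g (q b - q a) z * ((starRingEnd ℂ) (p a (z - q a)) * p b (z - q a))) := by
          rw [map_sum]
          refine sum_congr rfl fun z _ => ?_
          unfold Gd
          rw [map_mul, map_mul, map_mul, Complex.conj_conj, Complex.conj_conj, sub_add_cancel, show z - q a + q b = z + (q b - q a) by ring]
        rw [h6, RCLike.norm_conj]
        apply Real.le_sqrt_of_sq_le
        refine PC n m hm _ _ (((hp1 a).shift (q a)).conj.mul ((hp1 b).shift (q a))) ?_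
        intro y
        rw [norm_mul, RCLike.norm_conj]
        exact mul_le_one₀ (hp2 a _) (norm_nonneg _) (hp2 b _)
      · intro y hy
        rw [hs _ hy, map_zero, zero_mul, zero_mul]
    have h6 : ∑ y ∈ Icc (-Q) Q, ‖T y‖ ^ 2 = ‖((∑ y ∈ Icc (-Q) Q, ‖T y‖ ^ 2 : ℝ) : ℂ)‖ := by
      rw [Complex.norm_real, Real.norm_eq_abs, abs_of_nonneg (sum_nonneg fun _ _ => by positivity)]
    rw [h6, h4]
    refine (norm_sum_le _ _).trans (sum_le_sum fun a ha => ?_)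
    exact (norm_sum_le _ _).trans (sum_le_sum fun b hb => h5 a ha b hb)
  -- second Cauchy-Schwarz
  have h4 : (∑ a ∈ A, ∑ b ∈ A, Real.sqrt (m * En n m (Gd g (q b - q a)))) ^ 2 ≤ (A.card : ℝ) ^ 2 * (m * ∑ a ∈ A, ∑ b ∈ A, En n m (Gd g (q b - q a))) := by
    have h5 := sum_mul_sq_le_sq_mul_sq (A ×ˢ A) (fun _ => (1 : ℝ)) (fun x => Real.sqrt (m * En n m (Gd g (q x.2 - q x.1))))
    have h6 : ∑ x ∈ A ×ˢ A, 1 * Real.sqrt (m * En n m (Gd g (q x.2 - q x.1))) = ∑ a ∈ A, ∑ b ∈ A, Real.sqrt (m * En n m (Gd g (q b - q a))) := by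
      rw [sum_product]
      simp
    have h7 : ∑ x ∈ A ×ˢ A, Real.sqrt (m * En n m (Gd g (q x.2 - q x.1))) ^ 2 = m * ∑ a ∈ A, ∑ b ∈ A, En n m (Gd g (q b - q a)) := by
      rw [sum_product, mul_sum]
      refine sum_congr rfl fun a _ => ?_
      rw [mul_sum]
      refine sum_congr rfl fun b _ => ?_
      rw [Real.sq_sqrt (mul_nonneg hmr.le (En_nonneg _ _ _))]
    have h8 : ∑ i ∈ A ×ˢ A, (1 : ℝ) ^ 2 = (A.card : ℝ) ^ 2 := by
      rw [one_pow, sum_const, card_product, nsmul_eq_mul, mul_one, Nat.cast_mul, sq]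
    rw [h6, h7, h8] at h5
    exact h5
  set SS := ∑ a ∈ A, ∑ b ∈ A, En n m (Gd g (q b - q a)) with hSig
  have h5 : (m / (2 * n) * X) ^ 4 ≤ n ^ 2 * ((A.card : ℝ) ^ 2 * (m * SS)) := by
    calc (m / (2 * n) * X) ^ 4 = ((m / (2 * n) * X) ^ 2) ^ 2 := by ring
      _ ≤ (n * ∑ a ∈ A, ∑ b ∈ A, Real.sqrt (m * En n m (Gd g (q b - q a)))) ^ 2 :=
          pow_le_pow_left₀ (by positivity) (h2.trans (mul_le_mul_of_nonneg_left h3 hnr.le)) 2
      _ = n ^ 2 * (∑ a ∈ A, ∑ b ∈ A, Real.sqrt (m * En n m (Gd g (q b - q a)))) ^ 2 := by ring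
      _ ≤ _ := mul_le_mul_of_nonneg_left h4 (by positivity)
  have h6 : (m / (2 * n) * X) ^ 4 = m * (X ^ 4 * m ^ 3) / (16 * n ^ 4) := by
    field_simp
    ring
  rw [h6, div_le_iff₀ (by positivity)] at h5
  have h7 : m * (X ^ 4 * m ^ 3) ≤ m * (16 * n ^ 6 * (A.card : ℝ) ^ 2 * SS) := by
    refine h5.trans (le_of_eq ?_)
    ring
  exact le_of_mul_le_mul_left h7 hmr

end Pool.Agent.Lib.H81W
end

-- from Lib.H81E.C4
section

/-!
# H81E (MP_443e5f, candidate T, module C), part 4: Type I pieces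
-/

namespace Pool.Agent.H81E

open Finset Pool.Agent.H44W

/-- The indicator of `{q b : B₁ ≤ b < B₂}`. -/
theorem Rep.prog (n : ℕ) (hn : 1 ≤ n) (q : ℕ) (hq : 0 < q) (B₁ B₂ : ℕ) :
    Rep n (3 + Real.log n) (fun m => if (q : ℤ) ∣ m ∧ ((q * B₁ : ℕ) : ℤ) ≤ m ∧ m < ((q * B₂ : ℕ) : ℤ) then 1 else 0) := by
  have h := (Rep.dvd n q hq).mul (Rep.interval n hn ((q * B₁ : ℕ) : ℤ) ((q * B₂ : ℕ) : ℤ))
  rw [one_mul] at h
  refine h.congr fun m _ _ => ?_
  by_cases h1 : (q : ℤ) ∣ m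
  · by_cases h2 : ((q * B₁ : ℕ) : ℤ) ≤ m ∧ m < ((q * B₂ : ℕ) : ℤ)
    · rw [if_pos ⟨h1, h2⟩, if_pos h1, if_pos h2, mul_one]
    · rw [if_neg fun h3 => h2 h3.2, if_neg h2, mul_zero]
  · rw [if_neg fun h3 => h1 h3.1, if_neg h1, zero_mul]

/-- The Type I piece as a sum of indicators of progressions. -/
theorem typeI_eq (R : ℕ) (ga : ℕ → ℂ) (hR : ∀ q, ga q ≠ 0 → q ≤ R) (B₁ B₂ : ℕ) (m : ℤ) (hm : 1 ≤ m) :
    ∑ x ∈ m.toNat.divisorsAntidiagonal, ga x.1 * (if B₁ ≤ x.2 ∧ x.2 < B₂ then 1 else 0) =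
      ∑ q ∈ Icc 1 R, ga q * (if (q : ℤ) ∣ m ∧ ((q * B₁ : ℕ) : ℤ) ≤ m ∧ m < ((q * B₂ : ℕ) : ℤ) then 1 else 0) := by
  obtain ⟨k, rfl⟩ : ∃ k : ℕ, m = k := ⟨m.toNat, by omega⟩
  have hk : 0 < k := by omega
  rw [Int.toNat_natCast, Nat.sum_divisorsAntidiagonal (fun a b => ga a * (if B₁ ≤ b ∧ b < B₂ then (1 : ℂ) else 0))]
  have h1 : ∑ q ∈ Icc 1 R, ga q * (if (q : ℤ) ∣ (k : ℤ) ∧ ((q * B₁ : ℕ) : ℤ) ≤ (k : ℤ) ∧ (k : ℤ) < ((q * B₂ : ℕ) : ℤ) then (1 : ℂ) else 0) =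
      ∑ q ∈ (Icc 1 R).filter (fun q => q ∣ k), ga q * (if B₁ ≤ k / q ∧ k / q < B₂ then (1 : ℂ) else 0) := by
    rw [sum_filter]
    refine sum_congr rfl fun q hq => ?_
    rw [mem_Icc] at hq
    by_cases h2 : q ∣ k
    · rw [if_pos h2]
      congr 1
      obtain ⟨b, rfl⟩ := h2
      have hq0 : 0 < q := by omega
      rw [Nat.mul_div_cancel_left b hq0]
      by_cases h3 : B₁ ≤ b ∧ b < B₂
      · rw [if_pos h3, if_pos]
        refine ⟨?_, ?_, ?_⟩
        · exact_mod_cast Dvd.intro b rfl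
        · exact_mod_cast Nat.mul_le_mul_left q h3.1
        · exact_mod_cast Nat.mul_lt_mul_of_pos_left h3.2 hq0
      · rw [if_neg h3, if_neg]
        intro h4
        apply h3
        refine ⟨?_, ?_⟩
        · exact Nat.le_of_mul_le_mul_left (by exact_mod_cast h4.2.1) hq0
        · exact Nat.lt_of_mul_lt_mul_left (a := q) (by exact_mod_cast h4.2.2)
    · rw [if_neg h2, if_neg, mul_zero]
      intro h3
      exact h2 (by exact_mod_cast h3.1)
  rw [h1]
  symm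
  refine sum_subset ?_ ?_
  · intro q hq
    rw [mem_filter] at hq
    exact Nat.mem_divisors.2 ⟨hq.2, hk.ne'⟩
  · intro q hq hq2
    rw [Nat.mem_divisors] at hq
    by_cases h2 : ga q = 0
    · rw [h2, zero_mul]
    · exfalso
      apply hq2
      rw [mem_filter, mem_Icc]
      exact ⟨⟨Nat.pos_of_dvd_of_pos hq.1 hk, hR q h2⟩, hq.1⟩

/-- Type I pieces have small Fourier norm. -/
theorem Rep.typeI (n : ℕ) (hn : 1 ≤ n) (R : ℕ) (ga : ℕ → ℂ) (hga : ∀ q, ‖ga q‖ ≤ 1) (hR : ∀ q, ga q ≠ 0 → q ≤ R) (B₁ B₂ : ℕ) :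
    Rep n (R * (3 + Real.log n)) (fun m => ∑ x ∈ m.toNat.divisorsAntidiagonal, ga x.1 * (if B₁ ≤ x.2 ∧ x.2 < B₂ then 1 else 0)) := by
  have hl : 0 ≤ 3 + Real.log n := (Rep.interval n hn 0 0).nonneg
  have h := Rep.sum (n := n) (Icc 1 R) (fun q => ‖ga q‖ * (3 + Real.log n))
    (fun q m => ga q * (if (q : ℤ) ∣ m ∧ ((q * B₁ : ℕ) : ℤ) ≤ m ∧ m < ((q * B₂ : ℕ) : ℤ) then 1 else 0))
    fun q hq => (Rep.prog n hn q (by rw [mem_Icc] at hq; omega) B₁ B₂).smul (ga q)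
  refine (h.congr fun m hm _ => typeI_eq R ga hR B₁ B₂ m (by omega)).mono ?_
  refine (sum_le_sum (g := fun _ => 3 + Real.log n) fun q _ => ?_).trans ?_
  · exact mul_le_of_le_one_left hl (hga q)
  · rw [sum_const, Nat.card_Icc, Nat.add_sub_cancel, nsmul_eq_mul]

/-- Module C: Type I pieces are controlled by the exponential sums of `g`. -/
theorem type_one (n : ℕ) (hn : 1 ≤ n) (R : ℕ) (ga : ℕ → ℂ) (hga : ∀ q, ‖ga q‖ ≤ 1) (hR : ∀ q, ga q ≠ 0 → q ≤ R) (B₁ B₂ : ℕ)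
    (W f g : ℤ → ℂ) (hW : ∀ x, ‖W x‖ ≤ 1) (hf : ∀ x, ‖f x‖ ≤ 1) :
    ∃ th : ℝ, ‖TF n (fun m => ∑ x ∈ m.toNat.divisorsAntidiagonal, ga x.1 * (if B₁ ≤ x.2 ∧ x.2 < B₂ then 1 else 0)) W f g‖ ≤
      6 * R * (1 + Real.log n) * n * ‖∑ y ∈ Icc (1 : ℤ) n, g y * ee (th * y)‖ := by
  obtain ⟨th, h⟩ := (Rep.typeI n hn R ga hga hR B₁ B₂).TF_le W f g hW hf
  refine ⟨th, h.trans ?_⟩
  have hlog : 0 ≤ Real.log n := Real.log_natCast_nonneg n
  have h0 : 0 ≤ (R : ℝ) * n * ‖∑ y ∈ Icc (1 : ℤ) n, g y * ee (th * y)‖ := by positivity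
  calc (R : ℝ) * (3 + Real.log n) * (2 * n * ‖∑ y ∈ Icc (1 : ℤ) n, g y * ee (th * y)‖) =
        (6 + 2 * Real.log n) * ((R : ℝ) * n * ‖∑ y ∈ Icc (1 : ℤ) n, g y * ee (th * y)‖) := by ring
    _ ≤ (6 + 6 * Real.log n) * ((R : ℝ) * n * ‖∑ y ∈ Icc (1 : ℤ) n, g y * ee (th * y)‖) := mul_le_mul_of_nonneg_right (by linarith) h0
    _ = _ := by ring

/-- The same with real coefficients, exactly in the form of `H81A.H1`. -/
theorem type_one_real (n : ℕ) (hn : 1 ≤ n) (R : ℕ) (ga : ℕ → ℝ) (hga : ∀ q, |ga q| ≤ 1) (hR : ∀ q, ga q ≠ 0 → q ≤ R) (B₁ B₂ : ℕ)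
    (W f g : ℤ → ℂ) (hW : ∀ x, ‖W x‖ ≤ 1) (hf : ∀ x, ‖f x‖ ≤ 1) :
    ∃ th : ℝ, ‖TF n (fun m => ((∑ x ∈ m.toNat.divisorsAntidiagonal, ga x.1 * (if B₁ ≤ x.2 ∧ x.2 < B₂ then 1 else 0) : ℝ) : ℂ)) W f g‖ ≤
      6 * R * (1 + Real.log n) * n * ‖∑ y ∈ Icc (1 : ℤ) n, g y * ee (th * y)‖ := by
  obtain ⟨th, h⟩ := type_one n hn R (fun q => (ga q : ℂ)) (fun q => by rw [Complex.norm_real]; exact hga q)
    (fun q hq => hR q fun h0 => hq (by rw [h0, Complex.ofReal_zero])) B₁ B₂ W f g hW hf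
  refine ⟨th, ?_⟩
  have h2 : TF n (fun m => ((∑ x ∈ m.toNat.divisorsAntidiagonal, ga x.1 * (if B₁ ≤ x.2 ∧ x.2 < B₂ then 1 else 0) : ℝ) : ℂ)) W f g =
      TF n (fun m => ∑ x ∈ m.toNat.divisorsAntidiagonal, (ga x.1 : ℂ) * (if B₁ ≤ x.2 ∧ x.2 < B₂ then 1 else 0)) W f g := by
    refine TF_congr n W f g fun m _ _ => ?_
    rw [Complex.ofReal_sum]
    refine sum_congr rfl fun x _ => ?_
    rw [Complex.ofReal_mul]
    congr 1
    split_ifs <;> simp
  rw [h2]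
  exact h

end Pool.Agent.H81E
end
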