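import Mathlib
import Pool.Agent.Lib.H1M.RV2.M014

/-! Merged copies (to shorten the build) of Lib.H68T.INVS, Lib.H68X.XDefs, Lib.H18Q.QDefs, Lib.H51D.DHDefs, Lib.H51D.DHA, Lib.H68X.XRH, Lib.H18Q.R0, Lib.H68T.LAB2, Lib.H68T.LAB3, Lib.H68T.ZF1. -/

-- from Lib.H68T.INVS
section

/-!
# Statements of the zero-free region part (chunks INV, INVZ), used by MS and PNTE
-/

open Finset

namespace Pool.Agent.Lib.H68T

/-- Control of `1/L(s, ψ)` in the rectangle `Rg c' Q`: there is `g`, analytic on the rectangle and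
bounded there by `C log Q`, equal to the Dirichlet series of `μ ψ` for `Re s > 1`. -/
def InvStmt (c' C : ℝ) (Q : ℕ) (p : Σ r : ℕ, DirichletCharacter ℂ r) : Prop :=
  ∃ g : ℂ → ℂ, AnalyticOnNhd ℂ g (Rg c' Q) ∧
    (∀ s : ℂ, 1 < s.re → g s = LSeries (fun n => (ArithmeticFunction.moebius n : ℂ) *
      p.2 (n : ZMod p.1)) s) ∧ ∀ s ∈ Rg c' Q, ‖g s‖ ≤ C * Real.log Q


end Pool.Agent.Lib.H68T
end

-- from Lib.H68X.XDefs
section

/-!
# Project H68X: exceptional zeros included (definitions)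

All statements of this project are about the same objects as in `Lib/H68T`; errors are measured
by `sw K Q X = exp (-log X/(K log Q)) + Q^(-1/K)`.
-/

open Finset

namespace Pool.Agent.Lib.H68T

noncomputable section

/-- The error measure. It increases with `K`. -/
def sw (K : ℝ) (Q X : ℕ) : ℝ :=
  Real.exp (-(Real.log X / (K * Real.log Q))) + (Q : ℝ) ^ (-(1 / K))

/-- `β` is a real zero, close to `1`, of the real primitive character `ψ ≠ 1` of conductor
`r ≤ Q`. -/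
def Exc (c : ℝ) (Q r : ℕ) [NeZero r] (ψ : DirichletCharacter ℂ r) (β : ℝ) : Prop :=
  r ≤ Q ∧ ψ.IsPrimitive ∧ ψ ≠ 1 ∧ ψ ^ 2 = 1 ∧ 1 - c / Real.log Q ≤ β ∧ β < 1 ∧
    ψ.LFunction (β : ℂ) = 0

/-- As `InvStmt`, only for `|Im s| ≥ 1`. -/
def InvHigh (c' C : ℝ) (Q : ℕ) (p : Σ r : ℕ, DirichletCharacter ℂ r) : Prop :=
  ∃ g : ℂ → ℂ, AnalyticOnNhd ℂ g (Rg c' Q ∩ {s | 1 ≤ |s.im|}) ∧
    (∀ s : ℂ, 1 < s.re → g s = LSeries (fun n => (ArithmeticFunction.moebius n : ℂ) *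
      p.2 (n : ZMod p.1)) s) ∧ ∀ s ∈ Rg c' Q, 1 ≤ |s.im| → ‖g s‖ ≤ C * Real.log Q

/-- Control of `-L'/L(s,ψ) + 1/(s-β)` in the rectangle. -/
def LogStmt (c' C : ℝ) (Q : ℕ) (p : Σ r : ℕ, DirichletCharacter ℂ r) (β : ℝ) : Prop :=
  ∃ g : ℂ → ℂ, AnalyticOnNhd ℂ g (Rg c' Q) ∧
    (∀ s : ℂ, 1 < s.re → g s = LSeries (fun n => (ArithmeticFunction.vonMangoldt n : ℂ) *
      p.2 (n : ZMod p.1)) s + 1 / (s - β)) ∧ ∀ s ∈ Rg c' Q, ‖g s‖ ≤ C * Real.log Q


/-- `∑ m^(β-1) v(m) m^(-1-it)` -/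
def Fb (X : ℕ) (β t : ℝ) : ℂ := FF X (fun m => (((m : ℝ) ^ (β - 1) : ℝ) : ℂ)) t

/-- The model with exceptional term: `ε = ψ(m) = ±1`. -/
def Mod (Q r : ℕ) (ε β : ℝ) (m : ℤ) : ℝ := G Q m - ε * (m : ℝ) ^ (β - 1) * Gam Q r m


/-- `∑_{w ∣ W, w q ≤ Q} μ²(w)/φ(w)` -/
def TW (Q W q : ℕ) : ℝ :=
  ∑ w ∈ W.divisors.filter (fun w => w * q ≤ Q),
    (ArithmeticFunction.moebius w : ℝ) ^ 2 / (Nat.totient w : ℝ)

/-- `(r/φ(r)) ∑_{w ∣ W, (w,r) = 1, w r q ≤ Q} μ²(w)/φ(w)` -/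
def TWr (Q W r q : ℕ) : ℝ :=
  (r : ℝ) / (Nat.totient r : ℝ) *
    ∑ w ∈ W.divisors.filter (fun w => Nat.Coprime w r ∧ w * r * q ≤ Q),
      (ArithmeticFunction.moebius w : ℝ) ^ 2 / (Nat.totient w : ℝ)

/-- The squares and products of the singular part: the moduli `q ≤ Q` coprime to `W`. -/
def QW (Q W : ℕ) : Finset ℕ := (Icc 1 Q).filter (fun q => Nat.Coprime q W)




end

/-! ## Monotonicity -/

theorem Rg_mono {c c' : ℝ} {Q : ℕ} (h : c ≤ c') : Rg c Q ⊆ Rg c' Q := by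
  rintro s ⟨h1, h2, h3⟩
  refine ⟨?_, h2, h3⟩
  have : c / Real.log Q ≤ c' / Real.log Q := div_le_div_of_nonneg_right h (by positivity)
  linarith

theorem InvStmt.mono {c c' C C' : ℝ} {Q : ℕ} {p : Σ r : ℕ, DirichletCharacter ℂ r}
    (h : InvStmt c' C Q p) (hc : c ≤ c') (hC : C ≤ C') : InvStmt c C' Q p := by
  obtain ⟨g, h1, h2, h3⟩ := h
  refine ⟨g, h1.mono (Rg_mono hc), h2, fun s hs => (h3 s (Rg_mono hc hs)).trans ?_⟩
  exact mul_le_mul_of_nonneg_right hC (by positivity)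

theorem InvHigh.mono {c c' C C' : ℝ} {Q : ℕ} {p : Σ r : ℕ, DirichletCharacter ℂ r}
    (h : InvHigh c' C Q p) (hc : c ≤ c') (hC : C ≤ C') : InvHigh c C' Q p := by
  obtain ⟨g, h1, h2, h3⟩ := h
  refine ⟨g, h1.mono (Set.inter_subset_inter_left _ (Rg_mono hc)), h2, fun s hs hi =>
    (h3 s (Rg_mono hc hs) hi).trans ?_⟩
  exact mul_le_mul_of_nonneg_right hC (by positivity)

theorem LogStmt.mono {c c' C C' : ℝ} {Q : ℕ} {p : Σ r : ℕ, DirichletCharacter ℂ r} {β : ℝ}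
    (h : LogStmt c' C Q p β) (hc : c ≤ c') (hC : C ≤ C') : LogStmt c C' Q p β := by
  obtain ⟨g, h1, h2, h3⟩ := h
  refine ⟨g, h1.mono (Rg_mono hc), h2, fun s hs => (h3 s (Rg_mono hc hs)).trans ?_⟩
  exact mul_le_mul_of_nonneg_right hC (by positivity)


theorem Good.mono {c c' : ℝ} {Q : ℕ} (h : Good c' Q) (hc : c ≤ c') : Good c Q := by
  intro r _ ψ hr h1 h2 h3 σ hσ hσ1
  refine h r ψ hr h1 h2 h3 σ (le_trans ?_ hσ) hσ1
  have : c / Real.log Q ≤ c' / Real.log Q := div_le_div_of_nonneg_right hc (by positivity)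
  linarith

theorem Exc.mono {c c' : ℝ} {Q r : ℕ} [NeZero r] {ψ : DirichletCharacter ℂ r} {β : ℝ}
    (h : Exc c Q r ψ β) (hc : c ≤ c') : Exc c' Q r ψ β := by
  obtain ⟨h1, h2, h3, h4, h5, h6, h7⟩ := h
  refine ⟨h1, h2, h3, h4, le_trans ?_ h5, h6, h7⟩
  have : c / Real.log Q ≤ c' / Real.log Q := div_le_div_of_nonneg_right hc (by positivity)
  linarith

/-! ## Calculus of `sw` -/

theorem sw_pos (K : ℝ) (Q X : ℕ) (hQ : 0 < Q) : 0 < sw K Q X := by
  unfold sw
  have : (0:ℝ) < Q := by exact_mod_cast hQ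
  positivity

theorem sw_mono {K K' : ℝ} {Q X : ℕ} (hK : 0 < K) (hKK : K ≤ K') (hQ : 1 ≤ Q) :
    sw K Q X ≤ sw K' Q X := by
  unfold sw
  have hQ1 : (1:ℝ) ≤ Q := by exact_mod_cast hQ
  have hlQ : 0 ≤ Real.log Q := Real.log_nonneg hQ1
  have hlX : 0 ≤ Real.log X := by positivity
  have hK' : 0 < K' := hK.trans_le hKK
  apply add_le_add
  · apply Real.exp_le_exp.mpr
    apply neg_le_neg
    rcases eq_or_lt_of_le hlQ with h0 | h0
    · rw [← h0]; simp
    · exact div_le_div_of_nonneg_left hlX (by positivity) (mul_le_mul_of_nonneg_right hKK hlQ)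
  · apply Real.rpow_le_rpow_of_exponent_le hQ1
    apply neg_le_neg
    exact one_div_le_one_div_of_le hK hKK

/-- Absorb constants and powers of `log X` into `sw`. -/
theorem sw_absorb (C A K₁ : ℝ) (hK₁ : 0 < K₁) : ∃ K : ℝ, K₁ ≤ K ∧ 1 ≤ K ∧ ∀ Q X : ℕ,
    Reg K Q X → C * (Real.log X) ^ A * sw K₁ Q X ≤ sw K Q X := by
  set a := |A| + |C| + 2 with hadef
  have hA := abs_nonneg A
  have hCn := abs_nonneg C
  set K := a * K₁ + 1 with hKdef
  have ha2 : 2 ≤ a := by rw [hadef]; linarith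
  have hK1 : 1 ≤ K := by
    rw [hKdef]
    have : 0 ≤ a * K₁ := by positivity
    linarith
  have hKK : K₁ ≤ K := by rw [hKdef]; nlinarith
  refine ⟨K, hKK, hK1, fun Q X h => ?_⟩
  have hK0 : 0 < K := by linarith
  have hlX := h.logX_pos hK0
  have hll : 1 ≤ Real.log (Real.log X) := hK1.trans h.1
  have hlQ : 1 ≤ Real.log Q := hK1.trans (h.logQ_ge hK1)
  have hQ : (0:ℝ) < Q := by exact_mod_cast h.Q_pos hK1
  rcases le_or_gt C 0 with hC0 | hC0
  · have h1 : C * (Real.log X) ^ A ≤ 0 :=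
      mul_nonpos_of_nonpos_of_nonneg hC0 (Real.rpow_nonneg hlX.le _)
    have h2 := mul_nonpos_of_nonpos_of_nonneg h1 (sw_pos K₁ Q X (h.Q_pos hK1)).le
    exact h2.trans (sw_pos K Q X (h.Q_pos hK1)).le
  have hCA : C * (Real.log X) ^ A ≤ Real.exp ((a - 1) * Real.log (Real.log X)) := by
    have h1 : C ≤ Real.exp ((1 + |C|) * Real.log (Real.log X)) := by
      have : C ≤ Real.exp C := by linarith [Real.add_one_le_exp C]
      refine this.trans (Real.exp_le_exp.mpr ?_)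
      have : C ≤ |C| := le_abs_self C
      nlinarith
    rw [Real.rpow_def_of_pos hlX]
    calc C * Real.exp (Real.log (Real.log X) * A)
        ≤ Real.exp ((1 + |C|) * Real.log (Real.log X)) * Real.exp (Real.log (Real.log X) * A) :=
          mul_le_mul_of_nonneg_right h1 (Real.exp_pos _).le
      _ = Real.exp ((1 + |C| + A) * Real.log (Real.log X)) := by rw [← Real.exp_add]; ring_nf
      _ ≤ _ := by
          apply Real.exp_le_exp.mpr
          apply mul_le_mul_of_nonneg_right _ (by linarith)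
          rw [hadef]
          linarith [le_abs_self A]
  have hr2 : K * Real.log (Real.log X) ≤ Real.log X / Real.log Q := by
    rw [le_div_iff₀ (by linarith)]
    have := h.2.2
    nlinarith
  have hr1 : K * Real.log (Real.log X) ≤ Real.log Q := h.2.1
  have hkey : (a - 1) * Real.log (Real.log X) ≤
      (1 / K₁ - 1 / K) * (K * Real.log (Real.log X)) := by
    have h1 : (1 / K₁ - 1 / K) * (K * Real.log (Real.log X)) =
        (K / K₁ - 1) * Real.log (Real.log X) := by field_simp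
    rw [h1]
    apply mul_le_mul_of_nonneg_right _ (by linarith)
    have : a ≤ K / K₁ := by
      rw [le_div_iff₀ hK₁, hKdef]; linarith
    linarith
  have hinv : 0 ≤ 1 / K₁ - 1 / K := by
    have := one_div_le_one_div_of_le hK₁ hKK
    linarith
  unfold sw
  rw [mul_add]
  apply add_le_add
  · calc C * (Real.log X) ^ A * Real.exp (-(Real.log X / (K₁ * Real.log Q)))
        ≤ Real.exp ((a - 1) * Real.log (Real.log X)) *
            Real.exp (-(Real.log X / (K₁ * Real.log Q))) :=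
          mul_le_mul_of_nonneg_right hCA (Real.exp_pos _).le
      _ = Real.exp ((a - 1) * Real.log (Real.log X) - Real.log X / (K₁ * Real.log Q)) := by
          rw [← Real.exp_add]; ring_nf
      _ ≤ _ := by
          apply Real.exp_le_exp.mpr
          have h1 : Real.log X / (K₁ * Real.log Q) = (1 / K₁) * (Real.log X / Real.log Q) := by
            field_simp
          have h2 : Real.log X / (K * Real.log Q) = (1 / K) * (Real.log X / Real.log Q) := by
            field_simp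
          rw [h1, h2]
          have h3 := mul_le_mul_of_nonneg_left hr2 hinv
          linarith
  · calc C * (Real.log X) ^ A * (Q : ℝ) ^ (-(1 / K₁))
        ≤ Real.exp ((a - 1) * Real.log (Real.log X)) * (Q : ℝ) ^ (-(1 / K₁)) :=
          mul_le_mul_of_nonneg_right hCA (Real.rpow_nonneg hQ.le _)
      _ = Real.exp ((a - 1) * Real.log (Real.log X) - (1 / K₁) * Real.log Q) := by
          rw [Real.rpow_def_of_pos hQ, ← Real.exp_add]; ring_nf
      _ ≤ Real.exp (Real.log Q * (-(1 / K))) := by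
          apply Real.exp_le_exp.mpr
          have h3 := mul_le_mul_of_nonneg_left hr1 hinv
          linarith
      _ = _ := by rw [Real.rpow_def_of_pos hQ]

/-- Negative powers of `Q` are absorbed in `sw`. -/
theorem sw_of_Q (C A ε : ℝ) (hε : 0 < ε) : ∃ K : ℝ, 1 ≤ K ∧ ∀ Q X : ℕ, Reg K Q X →
    C * (Real.log X) ^ A * (Q : ℝ) ^ (-ε) ≤ sw K Q X := by
  obtain ⟨K, hK1, hK2, hK⟩ := sw_absorb |C| A (1 / ε) (by positivity)
  refine ⟨K, hK2, fun Q X h => le_trans ?_ (hK Q X h)⟩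
  have hlX := h.logX_pos (by linarith)
  have hQ : (0:ℝ) < Q := by exact_mod_cast h.Q_pos hK2
  have h1 : C * (Real.log X) ^ A ≤ |C| * (Real.log X) ^ A :=
    mul_le_mul_of_nonneg_right (le_abs_self C) (Real.rpow_nonneg hlX.le _)
  calc C * (Real.log X) ^ A * (Q : ℝ) ^ (-ε) ≤ |C| * (Real.log X) ^ A * (Q : ℝ) ^ (-ε) :=
        mul_le_mul_of_nonneg_right h1 (Real.rpow_nonneg hQ.le _)
    _ ≤ |C| * (Real.log X) ^ A * sw (1 / ε) Q X := by
        apply mul_le_mul_of_nonneg_left _ (by positivity)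
        unfold sw
        have : (-(1 / (1 / ε)) : ℝ) = -ε := by field_simp
        rw [this]
        linarith [Real.exp_pos (-(Real.log X / (1 / ε * Real.log Q)))]

/-- The saving of the zero-free region is absorbed in `sw`. -/
theorem sw_of_exp (C A c : ℝ) (hc : 0 < c) : ∃ K : ℝ, 1 ≤ K ∧ ∀ Q X : ℕ, Reg K Q X →
    C * (Real.log X) ^ A * Real.exp (-(c * (Real.log X / Real.log Q))) ≤ sw K Q X := by
  obtain ⟨K, hK1, hK2, hK⟩ := sw_absorb |C| A (1 / c) (by positivity)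
  refine ⟨K, hK2, fun Q X h => le_trans ?_ (hK Q X h)⟩
  have hlX := h.logX_pos (by linarith)
  have hQ : (0:ℝ) < Q := by exact_mod_cast h.Q_pos hK2
  have h1 : C * (Real.log X) ^ A ≤ |C| * (Real.log X) ^ A :=
    mul_le_mul_of_nonneg_right (le_abs_self C) (Real.rpow_nonneg hlX.le _)
  calc C * (Real.log X) ^ A * Real.exp (-(c * (Real.log X / Real.log Q)))
      ≤ |C| * (Real.log X) ^ A * Real.exp (-(c * (Real.log X / Real.log Q))) :=
        mul_le_mul_of_nonneg_right h1 (Real.exp_pos _).le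
    _ ≤ |C| * (Real.log X) ^ A * sw (1 / c) Q X := by
        apply mul_le_mul_of_nonneg_left _ (by positivity)
        unfold sw
        have : Real.log X / (1 / c * Real.log Q) = c * (Real.log X / Real.log Q) := by
          field_simp
        rw [this]
        linarith [Real.rpow_nonneg hQ.le (-(1 / (1 / c)))]


end Pool.Agent.Lib.H68T
end

-- from Lib.H18Q.QDefs
section

/-!
# Project H18Q: definitions for the zeros of L-functions

`od f ρ` order of vanishing, `ZD f c R` zeros in a closed disc, `ZR f σ T` zeros in a rectangle,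
`Lp p` the entire function attached to a primitive character (`(s-1)ζ(s)` for the trivial one),
`Lx r ψ β p` the same with the zero `β` of `L(s, ψ)` removed, `Jk lam k n` the weights of the
power sum method, `LDat C0 ℓ T f` growth data.
-/

open Finset

namespace Pool.Agent.Lib.H18Q

open Pool.Agent.Lib.H68T

noncomputable section

/-- Order of vanishing of `f` at `ρ`. -/
def od (f : ℂ → ℂ) (ρ : ℂ) : ℕ := analyticOrderNatAt f ρ

open Classical in
/-- The zeros of `f` in a set, if there are finitely many of them. -/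
def ZS (f : ℂ → ℂ) (S : Set ℂ) : Finset ℂ :=
  if h : ({ρ : ℂ | f ρ = 0 ∧ ρ ∈ S}).Finite then h.toFinset else ∅

/-- The zeros of `f` in the closed disc with centre `c` and radius `R`. -/
def ZD (f : ℂ → ℂ) (c : ℂ) (R : ℝ) : Finset ℂ := ZS f (Metric.closedBall c R)

/-- The zeros of `f` with `σ ≤ Re ρ ≤ 1` and `|Im ρ| ≤ T`. -/
def ZR (f : ℂ → ℂ) (σ T : ℝ) : Finset ℂ := ZS f {ρ | σ ≤ ρ.re ∧ ρ.re ≤ 1 ∧ |ρ.im| ≤ T}

/-- The entire function attached to a character: `(s-1) ζ(s)` for the trivial character modulo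
`1`, else `L(s, χ)`. -/
def Lp (p : Σ r : ℕ, DirichletCharacter ℂ r) : ℂ → ℂ :=
  open Classical in
  if p = p0 then gl2_Z else
    if h : p.1 = 0 then fun _ => 1 else
      haveI : NeZero p.1 := ⟨h⟩
      p.2.LFunction

/-- `Lp p` with the zero `β` of `L(s, ψ)` removed for `p = (r, ψ)`. -/
def Lx (r : ℕ) (ψ : DirichletCharacter ℂ r) (β : ℝ) (p : Σ r : ℕ, DirichletCharacter ℂ r) :
    ℂ → ℂ :=
  open Classical in
  if p = ⟨r, ψ⟩ then dslope (Lp ⟨r, ψ⟩) (β : ℂ) else Lp p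

/-- The weights of the power sum method: `lam^(k+1) (log n)^k / k! n^(-1-lam)`. -/
def Jk (lam : ℝ) (k n : ℕ) : ℝ :=
  lam ^ (k + 1) * Real.log n ^ k / (k.factorial : ℝ) * (n : ℝ) ^ (-1 - lam)

/-- Growth data of an entire function near the line `Re s = 1`: zeros only in `Re s < 1`, growth
`exp (C0 ℓ)` in discs of radius `1/2` about the points `1 + lam + i v`, `1/ℓ ≤ lam ≤ 1/8`,
`|v| ≤ T`, and logarithmic derivative at these points at most `C0 / lam`. -/
structure LDat (C0 ℓ T : ℝ) (f : ℂ → ℂ) : Prop where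
  diff : Differentiable ℂ f
  zre : ∀ ρ : ℂ, f ρ = 0 → ρ.re < 1
  growth : ∀ lam v : ℝ, 1 / ℓ ≤ lam → lam ≤ 1 / 8 → |v| ≤ T →
    ∀ s ∈ Metric.closedBall (1 + lam + v * Complex.I : ℂ) (1 / 2),
      ‖f s‖ ≤ Real.exp (C0 * ℓ) * ‖f (1 + lam + v * Complex.I)‖
  ld : ∀ lam v : ℝ, 1 / ℓ ≤ lam → lam ≤ 1 / 8 → |v| ≤ T →
    ‖logDeriv f (1 + lam + v * Complex.I)‖ ≤ C0 / lam

/-- The threshold for the width of the region in which zeros are detected. -/
def th0 : ℝ := 1 / 10 ^ 9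

end

theorem Lp_p0 : Lp p0 = gl2_Z := by
  unfold Lp
  rw [if_pos rfl]

theorem Lp_mk (r : ℕ) [NeZero r] (ψ : DirichletCharacter ℂ r)
    (h : (⟨r, ψ⟩ : Σ r : ℕ, DirichletCharacter ℂ r) ≠ p0) : Lp ⟨r, ψ⟩ = ψ.LFunction := by
  unfold Lp
  rw [if_neg h, dif_neg (NeZero.ne r)]

theorem Lx_mk (r : ℕ) (ψ : DirichletCharacter ℂ r) (β : ℝ) :
    Lx r ψ β ⟨r, ψ⟩ = dslope (Lp ⟨r, ψ⟩) (β : ℂ) := by
  unfold Lx
  rw [if_pos rfl]

theorem Lx_of_ne (r : ℕ) (ψ : DirichletCharacter ℂ r) (β : ℝ)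
    (p : Σ r : ℕ, DirichletCharacter ℂ r) (h : p ≠ ⟨r, ψ⟩) : Lx r ψ β p = Lp p := by
  unfold Lx
  rw [if_neg h]

/-- A member of `PC Q` different from `p0` is a character different from `1`. -/
theorem ne_one_of_ne_p0 {Q : ℕ} {p : Σ r : ℕ, DirichletCharacter ℂ r} (hp : p ∈ PC Q)
    (h : p ≠ p0) : p.2 ≠ 1 := by
  intro h1
  apply h
  obtain ⟨r, ψ⟩ := p
  have hp' := (mem_PC.mp hp).2.2
  have hr := (mem_PC.mp hp).1
  simp only at h1 hp' hr
  have hne : NeZero r := ⟨by omega⟩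
  have h2 : r = 1 := by
    have h3 := hp'
    unfold DirichletCharacter.IsPrimitive at h3
    rw [h1, DirichletCharacter.conductor_one] at h3
    exact h3.symm
  subst h2
  rw [h1]
  rfl

theorem Lp_mem {Q : ℕ} {p : Σ r : ℕ, DirichletCharacter ℂ r} (hp : p ∈ PC Q) (h : p ≠ p0) :
    ∃ _h : NeZero p.1, Lp p = p.2.LFunction := by
  have h1 := (mem_PC.mp hp).1
  have hne : NeZero p.1 := ⟨by omega⟩
  refine ⟨hne, ?_⟩
  obtain ⟨r, ψ⟩ := p
  exact Lp_mk r ψ h

end Pool.Agent.Lib.H18Q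
end

-- from Lib.H51D.DHDefs
section

/-!
# Project H51D (MP_f686a1_nt): definitions

Objects of the Deuring-Heilbronn part (module DH).
-/

open Finset

namespace Pool.Agent.Lib.H68T

noncomputable section

/-! ## Objects of the Deuring-Heilbronn part -/

/-- `λ = 1 * ψ` for a real character `ψ`. -/
def lam {r : ℕ} (ψ : DirichletCharacter ℂ r) (n : ℕ) : ℝ :=
  ∑ d ∈ n.divisors, (ψ (d : ZMod r)).re






end

end Pool.Agent.Lib.H68T
end

-- from Lib.H51D.DHA
section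

/-!
# Chunk DHA: the arithmetic functions `λ = 1 * ψ` and `g = μ * μψ`, `ψ` real
-/

open Finset

namespace Pool.Agent.Lib.H68T

open ArithmeticFunction in
theorem dha_val (r : ℕ) (ψ : DirichletCharacter ℂ r) (h2 : ψ ^ 2 = 1) (n : ℕ) :
    ψ (n : ZMod r) = ((ψ (n : ZMod r)).re : ℂ) ∧
      ((ψ (n : ZMod r)).re = 0 ∨ (ψ (n : ZMod r)).re = 1 ∨ (ψ (n : ZMod r)).re = -1) := by
  by_cases hu : IsUnit (n : ZMod r)
  · have h1 : (ψ ^ 2) (n : ZMod r) = 1 := by
      rw [h2]; exact MulChar.one_apply hu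
    rw [MulChar.pow_apply' ψ two_ne_zero] at h1
    have h3 : ψ (n : ZMod r) = 1 ∨ ψ (n : ZMod r) = -1 := sq_eq_one_iff.mp h1
    rcases h3 with h | h
    · rw [h]
      simp
    · rw [h]
      simp
  · rw [MulChar.map_nonunit ψ hu]
    simp

theorem dha_mul (r : ℕ) (ψ : DirichletCharacter ℂ r) (h2 : ψ ^ 2 = 1) (m n : ℕ) :
    (ψ ((m * n : ℕ) : ZMod r)).re = (ψ (m : ZMod r)).re * (ψ (n : ZMod r)).re := by
  rw [Nat.cast_mul, map_mul]
  rw [(dha_val r ψ h2 m).1, (dha_val r ψ h2 n).1, ← Complex.ofReal_mul, Complex.ofReal_re,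
    Complex.ofReal_re, Complex.ofReal_re]

/-- `ψ` as an arithmetic function -/
noncomputable def dha_P {r : ℕ} (ψ : DirichletCharacter ℂ r) : ArithmeticFunction ℝ :=
  ⟨fun n => if n = 0 then 0 else (ψ (n : ZMod r)).re, by simp⟩

theorem dha_P_apply {r : ℕ} (ψ : DirichletCharacter ℂ r) {n : ℕ} (hn : n ≠ 0) :
    dha_P ψ n = (ψ (n : ZMod r)).re := by
  change (if n = 0 then 0 else (ψ (n : ZMod r)).re) = _
  rw [if_neg hn]

theorem dha_P_mult (r : ℕ) (ψ : DirichletCharacter ℂ r) (h2 : ψ ^ 2 = 1) :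
    (dha_P ψ).IsMultiplicative := by
  rw [ArithmeticFunction.IsMultiplicative.iff_ne_zero]
  refine ⟨?_, ?_⟩
  · rw [dha_P_apply ψ one_ne_zero]
    simp
  · intro m n hm hn _
    rw [dha_P_apply ψ (mul_ne_zero hm hn), dha_P_apply ψ hm, dha_P_apply ψ hn, dha_mul r ψ h2]

theorem dha_lam {r : ℕ} (ψ : DirichletCharacter ℂ r) (n : ℕ) :
    lam ψ n = (dha_P ψ * (ArithmeticFunction.zeta : ArithmeticFunction ℝ)) n := by
  rw [ArithmeticFunction.coe_mul_zeta_apply]
  unfold lam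
  refine sum_congr rfl fun d hd => ?_
  rw [dha_P_apply ψ (Nat.pos_of_mem_divisors hd).ne']


theorem dha_lam_mult (r : ℕ) (ψ : DirichletCharacter ℂ r) (h2 : ψ ^ 2 = 1) :
    (dha_P ψ * (ArithmeticFunction.zeta : ArithmeticFunction ℝ)).IsMultiplicative :=
  (dha_P_mult r ψ h2).mul ArithmeticFunction.isMultiplicative_zeta.natCast


theorem dha_pow (r : ℕ) (ψ : DirichletCharacter ℂ r) (h2 : ψ ^ 2 = 1) (p k : ℕ) :
    (ψ ((p ^ k : ℕ) : ZMod r)).re = (ψ (p : ZMod r)).re ^ k := by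
  induction k with
  | zero => simp
  | succ k ih =>
    rw [pow_succ, dha_mul r ψ h2, ih, pow_succ]

theorem dha_lam_pp (r : ℕ) (ψ : DirichletCharacter ℂ r) (h2 : ψ ^ 2 = 1) (p k : ℕ)
    (hp : p.Prime) : lam ψ (p ^ k) = ∑ i ∈ range (k + 1), (ψ (p : ZMod r)).re ^ i := by
  unfold lam
  rw [Nat.divisors_prime_pow hp, sum_map]
  refine sum_congr rfl fun i _ => ?_
  exact dha_pow r ψ h2 p i


theorem dha_geom_nonneg (v : ℝ) (hv : v = 0 ∨ v = 1 ∨ v = -1) (n : ℕ) :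
    0 ≤ ∑ i ∈ range n, v ^ i := by
  rcases hv with h | h | h
  · rw [h]
    exact sum_nonneg fun i _ => pow_nonneg le_rfl i
  · rw [h]
    exact sum_nonneg fun i _ => by simp
  · rw [h, neg_one_geom_sum]
    split <;> norm_num

/-- `λ(n) ≥ 0`: `λ` is multiplicative (`ArithmeticFunction.IsMultiplicative.mul` for the functions
`n ↦ 1` and `n ↦ (ψ n).re`; `ψ n` is real by `T341_real_value` or because `ψ(n)^2 ∈ {0, 1}`), and
`λ(p^k) = 1 + ψ(p) + ... + ψ(p)^k ≥ 0` for `ψ(p) ∈ {-1, 0, 1}`. -/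
theorem lam_nonneg (r : ℕ) [NeZero r] (ψ : DirichletCharacter ℂ r) (h2 : ψ ^ 2 = 1) (n : ℕ) :
    0 ≤ lam ψ n := by
  induction n using Nat.recOnPosPrimePosCoprime with
  | zero => simp [lam]
  | one => simp [lam]
  | prime_pow p k hp hk =>
    rw [dha_lam_pp r ψ h2 p k hp]
    exact dha_geom_nonneg _ (dha_val r ψ h2 p).2 _
  | coprime a b ha hb hab iha ihb =>
    rw [dha_lam, (dha_lam_mult r ψ h2).map_mul_of_coprime hab, ← dha_lam, ← dha_lam]
    exact mul_nonneg iha ihb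




/-- `λ` as a sum of complex values: `ψ(d)` is real. -/
theorem lam_cast (r : ℕ) [NeZero r] (ψ : DirichletCharacter ℂ r) (h2 : ψ ^ 2 = 1) (n : ℕ) :
    (lam ψ n : ℂ) = ∑ d ∈ n.divisors, ψ (d : ZMod r) := by
  unfold lam
  rw [Complex.ofReal_sum]
  refine sum_congr rfl fun d _ => ?_
  exact ((dha_val r ψ h2 d).1).symm

end Pool.Agent.Lib.H68T
end

-- from Lib.H68X.XRH
section

/-!
# Chunk XRH: the hyperbola method
-/

open Finset

namespace Pool.Agent.Lib.H68T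

theorem XRH_int (r : ℕ) [NeZero r] (ψ : DirichletCharacter ℂ r) (hψ : ψ ≠ 1) (a n : ℕ) :
    ‖∑ k ∈ range n, ψ ((a + k + 1 : ℕ) : ZMod r)‖ ≤ r := by
  have hN : 0 < r := Nat.pos_of_ne_zero (NeZero.ne r)
  induction n using Nat.strong_induction_on with
  | _ n ih =>
    rcases lt_or_ge n r with h | h
    · refine (norm_sum_le _ _).trans ?_
      refine (sum_le_sum fun k _ => DirichletCharacter.norm_le_one ψ _).trans ?_
      rw [sum_const, card_range, nsmul_eq_mul, mul_one]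
      exact_mod_cast h.le
    · obtain ⟨m, rfl⟩ := Nat.exists_eq_add_of_le' h
      have h1 : ∑ k ∈ range (m + r), ψ ((a + k + 1 : ℕ) : ZMod r) =
          ∑ k ∈ range m, ψ ((a + k + 1 : ℕ) : ZMod r) := by
        rw [sum_range_add]
        have h2 := gl1_period r ψ hψ (a + m)
        have h3 : ∑ k ∈ range r, ψ ((a + (m + k) + 1 : ℕ) : ZMod r) = 0 := by
          rw [← h2]
          refine sum_congr rfl fun k _ => ?_
          congr 2
          ring
        rw [h3, add_zero]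
      rw [h1]
      exact ih m (by omega)

theorem XRH_Ioc (r : ℕ) [NeZero r] (ψ : DirichletCharacter ℂ r) (hψ : ψ ≠ 1) (a b : ℕ) :
    ‖∑ d ∈ Ioc a b, ψ (d : ZMod r)‖ ≤ r := by
  have h1 : Ioc a b = Ico (a + 1) (b + 1) := by
    ext x
    simp only [mem_Ioc, mem_Ico]
    omega
  rw [h1, sum_Ico_eq_sum_range]
  have h2 := XRH_int r ψ hψ a (b + 1 - (a + 1))
  refine (le_of_eq ?_).trans h2
  congr 1
  refine sum_congr rfl fun k _ => ?_
  congr 2
  ring

/-- tail of the series of `L(1,ψ)` -/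
theorem XRH_tail (r : ℕ) [NeZero r] (ψ : DirichletCharacter ℂ r) (hψ : ψ ≠ 1) (D : ℕ) :
    ‖ψ.LFunction 1 - ∑ d ∈ Ioc 0 D, ψ (d : ZMod r) / d‖ ≤ 2 * r / (D + 1) := by
  have hsum := (gl1_tele 1 one_pos (r * ‖(1 : ℂ)‖ / (1 : ℂ).re) (by simp) (fun n => gl1_A ψ n 1)
    (fun n => by simpa using gl1_A_norm r ψ hψ n 1 (by simp))).1
  have h1 : ψ.LFunction 1 = ∑' n, gl1_A ψ n 1 := gl1_eqOn r ψ hψ 1 (by simp)
  have hA : ∀ n : ℕ, gl1_A ψ n 1 =
      gl1_T ψ (n + 1) * ((1 : ℂ) / (n + 1) - 1 / (n + 1 + 1)) := by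
    intro n
    unfold gl1_A
    rw [Complex.cpow_neg_one, Complex.cpow_neg_one]
    congr 1
    push_cast
    rw [one_div, one_div]
    congr 2
    ring
  have h2 := gl1_parts ψ (fun n => (1 : ℂ) / (n + 1)) D
  have h3 : ∑ d ∈ Ioc 0 D, ψ (d : ZMod r) / d =
      ∑ n ∈ range D, ψ ((n + 1 : ℕ) : ZMod r) * ((1 : ℂ) / (n + 1)) := by
    have h4 : Ioc 0 D = Ico 1 (D + 1) := by
      ext x
      simp only [mem_Ioc, mem_Ico]
      omega
    rw [h4, sum_Ico_eq_sum_range]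
    refine sum_congr rfl fun n _ => ?_
    rw [add_comm 1 n]
    push_cast
    ring
  have h5 : ∑ n ∈ range D, gl1_T ψ (n + 1) * ((1 : ℂ) / (n + 1) - 1 / ((n + 1 : ℕ) + 1)) =
      ∑ n ∈ range D, gl1_A ψ n 1 := by
    refine sum_congr rfl fun n _ => ?_
    rw [hA n]
    push_cast
    ring
  rw [h5] at h2
  have h6 := hsum.sum_add_tsum_nat_add D
  rw [h1, h3, h2, ← h6]
  have h7 : ∑ i ∈ range D, gl1_A ψ i 1 + ∑' i, gl1_A ψ (i + D) 1 -
      (gl1_T ψ D * (1 / ((D : ℂ) + 1)) + ∑ n ∈ range D, gl1_A ψ n 1) =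
      ∑' i, gl1_A ψ (i + D) 1 - gl1_T ψ D * (1 / ((D : ℂ) + 1)) := by ring
  rw [h7]
  have h8 : ‖∑' i, gl1_A ψ (i + D) 1‖ ≤ r / (D + 1) := by
    have hg : HasSum (fun i : ℕ => (r : ℝ) * (1 / ((i : ℝ) + D + 1) - 1 / ((i : ℝ) + D + 2)))
        (r / (D + 1)) := by
      rw [hasSum_iff_tendsto_nat_of_nonneg]
      · have h9 : ∀ K : ℕ, ∑ i ∈ range K, (r : ℝ) * (1 / ((i : ℝ) + D + 1) - 1 / ((i : ℝ) + D + 2)) =
            r * (1 / ((D : ℝ) + 1) - 1 / ((K : ℝ) + D + 1)) := by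
          intro K
          induction K with
          | zero => simp
          | succ K ih =>
            rw [sum_range_succ, ih]
            push_cast
            ring
        simp only [h9]
        have h10 : Filter.Tendsto (fun K : ℕ => 1 / ((K : ℝ) + D + 1)) Filter.atTop (nhds 0) := by
          have h11 := tendsto_one_div_add_atTop_nhds_zero_nat (𝕜 := ℝ)
          have h12 := (Filter.tendsto_add_atTop_iff_nat D).2 h11
          refine h12.congr fun K => ?_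
          push_cast
          rfl
        have h13 := (h10.const_sub (1 / ((D : ℝ) + 1))).const_mul (r : ℝ)
        rw [sub_zero, mul_one_div] at h13
        exact h13
      · intro i
        refine mul_nonneg (Nat.cast_nonneg _) (sub_nonneg.2 ?_)
        exact one_div_le_one_div_of_le (by positivity) (by linarith)
    refine tsum_of_norm_bounded hg fun i => ?_
    rw [hA, norm_mul]
    refine mul_le_mul (gl1_T_bound r ψ hψ _) ?_ (norm_nonneg _) (Nat.cast_nonneg _)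
    have h14 : (1 : ℂ) / (((i + D : ℕ) : ℂ) + 1) - 1 / (((i + D : ℕ) : ℂ) + 1 + 1) =
        ((1 / ((i : ℝ) + D + 1) - 1 / ((i : ℝ) + D + 2) : ℝ) : ℂ) := by
      push_cast
      congr 2
      ring
    rw [h14, Complex.norm_real, Real.norm_of_nonneg]
    refine sub_nonneg.2 ?_
    exact one_div_le_one_div_of_le (by positivity) (by linarith)
  have h15 : ‖gl1_T ψ D * (1 / ((D : ℂ) + 1))‖ ≤ r / (D + 1) := by
    rw [norm_mul, mul_comm]
    have h16 : ‖1 / ((D : ℂ) + 1)‖ = 1 / ((D : ℝ) + 1) := by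
      have : 1 / ((D : ℂ) + 1) = ((1 / ((D : ℝ) + 1) : ℝ) : ℂ) := by push_cast; rfl
      rw [this, Complex.norm_real, Real.norm_of_nonneg (by positivity)]
    rw [h16, one_div_mul_eq_div]
    exact div_le_div_of_nonneg_right (gl1_T_bound r ψ hψ _) (by positivity)
  refine (norm_sub_le _ _).trans ?_
  have : 2 * (r : ℝ) / (D + 1) = r / (D + 1) + r / (D + 1) := by ring
  rw [this]
  exact add_le_add h8 h15

/-- `∑_{m ≤ y} ∑_{d ∣ m} ψ(d) = y L(1,ψ) + O(r √y)`. With `D = ⌊√y⌋`: the sum is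
`∑_{d ≤ D} ψ(d) ⌊y/d⌋ + ∑_{e ≤ y/(D+1)} (S(y/e) - S(D))`, sums of `ψ` over intervals are at most `r`;
`∑_{d > D} ψ(d)/d` is at most `r/(D+1)` (`L(1,ψ)` is the sum of the conditionally convergent
series). Total error `≤ D + r y/(D+1) + r y/(D+1) ≤ 4 r √y`. -/
theorem hyperbola (r : ℕ) [NeZero r] (ψ : DirichletCharacter ℂ r) (hψ : ψ ≠ 1) (y : ℕ) :
    ‖(∑ m ∈ Icc 1 y, ∑ d ∈ m.divisors, ψ (d : ZMod r)) - y * ψ.LFunction 1‖ ≤
      4 * r * Real.sqrt y := by
  have hr : (1 : ℝ) ≤ r := by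
    exact_mod_cast Nat.one_le_iff_ne_zero.2 (NeZero.ne r)
  have e1 : ∑ m ∈ Icc 1 y, ∑ d ∈ m.divisors, ψ (d : ZMod r) =
      ∑ d ∈ Ioc 0 y, ψ (d : ZMod r) * ((y / d : ℕ) : ℂ) := by
    have h1 := ArithmeticFunction.sum_Ioc_mul_zeta_eq_sum
      (⟨fun n => if n = 0 then (0 : ℂ) else ψ (n : ZMod r), by simp⟩ : ArithmeticFunction ℂ) y
    have h2 : Icc 1 y = Ioc 0 y := by
      ext x
      simp only [mem_Ioc, mem_Icc]
      omega
    rw [h2]
    refine Eq.trans ?_ (h1.trans ?_)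
    · refine sum_congr rfl fun m hm => ?_
      rw [ArithmeticFunction.coe_mul_zeta_apply]
      refine sum_congr rfl fun d hd => ?_
      rw [ArithmeticFunction.coe_mk, if_neg (Nat.pos_of_mem_divisors hd).ne']
    · refine sum_congr rfl fun d hd => ?_
      rw [ArithmeticFunction.coe_mk, if_neg (by have := (mem_Ioc.1 hd).1; omega)]
  rw [e1]
  set D := Nat.sqrt y with hD
  have hDy : D ≤ y := Nat.sqrt_le_self y
  have hD1 : (D : ℝ) ≤ √y := Real.nat_sqrt_le_real_sqrt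
  have hD2 : √y ≤ D + 1 := Real.real_sqrt_le_nat_sqrt_succ
  have hs0 : 0 ≤ √(y : ℝ) := Real.sqrt_nonneg _
  have hyy : √(y : ℝ) * √y = y := Real.mul_self_sqrt (Nat.cast_nonneg _)
  have hyD : (y : ℝ) / (D + 1) ≤ √y := by
    rw [div_le_iff₀ (by positivity)]
    nlinarith
  have e2 : ∑ d ∈ Ioc 0 y, ψ (d : ZMod r) * ((y / d : ℕ) : ℂ) =
      ∑ d ∈ Ioc 0 D, ψ (d : ZMod r) * ((y / d : ℕ) : ℂ) +
      ∑ d ∈ Ioc D y, ψ (d : ZMod r) * ((y / d : ℕ) : ℂ) :=
    (sum_Ioc_consecutive _ (Nat.zero_le _) hDy).symm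
  -- the second part
  have e3 : ∑ d ∈ Ioc D y, ψ (d : ZMod r) * ((y / d : ℕ) : ℂ) =
      ∑ e ∈ Ioc 0 (y / (D + 1)), ∑ d ∈ Ioc D (y / e), ψ (d : ZMod r) := by
    have h1 : ∀ d ∈ Ioc D y, ψ (d : ZMod r) * ((y / d : ℕ) : ℂ) =
        ∑ e ∈ Ioc 0 (y / (D + 1)), if d * e ≤ y then ψ (d : ZMod r) else 0 := by
      intro d hd
      obtain ⟨hd1, hd2⟩ := mem_Ioc.1 hd
      have hd0 : 0 < d := by omega
      rw [← sum_filter, sum_const, nsmul_eq_mul, mul_comm]
      congr 2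
      have h2 : (Ioc 0 (y / (D + 1))).filter (fun e => d * e ≤ y) = Ioc 0 (y / d) := by
        ext e
        simp only [mem_filter, mem_Ioc]
        have h3 : e ≤ y / d ↔ d * e ≤ y := by
          rw [Nat.le_div_iff_mul_le hd0, mul_comm]
        constructor
        · rintro ⟨⟨ha, hb⟩, hc⟩
          exact ⟨ha, h3.2 hc⟩
        · rintro ⟨ha, hb⟩
          refine ⟨⟨ha, hb.trans (Nat.div_le_div_left hd1 (by omega))⟩, h3.1 hb⟩
      rw [h2, Nat.card_Ioc, Nat.sub_zero]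
    rw [sum_congr rfl h1, sum_comm]
    refine sum_congr rfl fun e he => ?_
    have he0 : 0 < e := (mem_Ioc.1 he).1
    rw [← sum_filter]
    refine sum_congr ?_ fun _ _ => rfl
    ext d
    simp only [mem_filter, mem_Ioc]
    have h3 : d ≤ y / e ↔ d * e ≤ y := by
      rw [Nat.le_div_iff_mul_le he0]
    constructor
    · rintro ⟨⟨ha, hb⟩, hc⟩
      exact ⟨ha, h3.2 hc⟩
    · rintro ⟨ha, hb⟩
      refine ⟨⟨ha, hb.trans (Nat.div_le_self _ _)⟩, h3.1 hb⟩
  have b3 : ‖∑ d ∈ Ioc D y, ψ (d : ZMod r) * ((y / d : ℕ) : ℂ)‖ ≤ r * √y := by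
    rw [e3]
    refine (norm_sum_le _ _).trans ((sum_le_sum fun e _ => XRH_Ioc r ψ hψ D (y / e)).trans ?_)
    rw [sum_const, Nat.card_Ioc, Nat.sub_zero, nsmul_eq_mul, mul_comm]
    refine mul_le_mul_of_nonneg_left ?_ (by linarith)
    refine Nat.cast_div_le.trans ?_
    push_cast
    exact hyD
  -- the first part
  have b4 : ‖∑ d ∈ Ioc 0 D, ψ (d : ZMod r) * ((y / d : ℕ) : ℂ) -
      y * ∑ d ∈ Ioc 0 D, ψ (d : ZMod r) / d‖ ≤ √y := by
    rw [mul_sum, ← sum_sub_distrib]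
    refine (norm_sum_le _ _).trans (le_trans (sum_le_sum (g := fun _ => (1 : ℝ)) ?_) ?_)
    · intro d hd
      have hd0 : 0 < d := (mem_Ioc.1 hd).1
      have h1 : ψ (d : ZMod r) * ((y / d : ℕ) : ℂ) - y * (ψ (d : ZMod r) / d) =
          ψ (d : ZMod r) * (((((y / d : ℕ) : ℝ) - y / d : ℝ)) : ℂ) := by
        push_cast
        ring
      rw [h1, norm_mul, Complex.norm_real]
      have h2 : ‖((y / d : ℕ) : ℝ) - y / d‖ ≤ 1 := by
        rw [Real.norm_eq_abs, abs_le]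
        have h3 : ((y / d : ℕ) : ℝ) ≤ y / d := Nat.cast_div_le
        have h4 : (y : ℝ) / d < ((y / d : ℕ) : ℝ) + 1 := by
          rw [div_lt_iff₀ (by exact_mod_cast hd0)]
          have := Nat.lt_mul_div_succ y hd0
          have h5 : (y : ℝ) < d * (((y / d : ℕ) : ℝ) + 1) := by exact_mod_cast this
          linarith
        constructor <;> linarith
      calc _ ≤ 1 * 1 := mul_le_mul (DirichletCharacter.norm_le_one ψ _) h2 (norm_nonneg _) (by norm_num)
        _ = 1 := by norm_num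
    · rw [sum_const, Nat.card_Ioc, Nat.sub_zero, nsmul_eq_mul, mul_one]
      exact hD1
  have b5 : ‖(y : ℂ) * (ψ.LFunction 1 - ∑ d ∈ Ioc 0 D, ψ (d : ZMod r) / d)‖ ≤ 2 * r * √y := by
    rw [norm_mul, Complex.norm_natCast]
    calc (y : ℝ) * ‖ψ.LFunction 1 - ∑ d ∈ Ioc 0 D, ψ (d : ZMod r) / d‖
        ≤ y * (2 * r / (D + 1)) :=
          mul_le_mul_of_nonneg_left (XRH_tail r ψ hψ D) (Nat.cast_nonneg _)
      _ = 2 * r * (y / (D + 1)) := by ring
      _ ≤ _ := mul_le_mul_of_nonneg_left hyD (by positivity)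
  rw [e2]
  have e6 : ∑ d ∈ Ioc 0 D, ψ (d : ZMod r) * ((y / d : ℕ) : ℂ) +
      ∑ d ∈ Ioc D y, ψ (d : ZMod r) * ((y / d : ℕ) : ℂ) - y * ψ.LFunction 1 =
      (∑ d ∈ Ioc 0 D, ψ (d : ZMod r) * ((y / d : ℕ) : ℂ) -
        y * ∑ d ∈ Ioc 0 D, ψ (d : ZMod r) / d) +
      ∑ d ∈ Ioc D y, ψ (d : ZMod r) * ((y / d : ℕ) : ℂ) -
      (y : ℂ) * (ψ.LFunction 1 - ∑ d ∈ Ioc 0 D, ψ (d : ZMod r) / d) := by ring
  rw [e6]
  refine (norm_sub_le _ _).trans ((add_le_add (norm_add_le _ _) le_rfl).trans ?_)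
  nlinarith

end Pool.Agent.Lib.H68T
end

-- from Lib.H18Q.R0
section

/-!
# Project H18Q: the power regime

`RegP K Q X`: `(log X)^K ≤ Q` and `Q^K ≤ X`, `X` large. The lemmas are those of `H68T/RegL.lean` with
the same proofs.
-/

namespace Pool.Agent.Lib.H18Q

open Real Pool.Agent.Lib.H68T

/-- The regime of the parameters: `(log X)^K ≤ Q` and `Q^K ≤ X`, `X` large. -/
def RegP (K : ℝ) (Q X : ℕ) : Prop :=
  K ≤ Real.log (Real.log X) ∧ K * Real.log (Real.log X) ≤ Real.log Q ∧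
    K * Real.log Q ≤ Real.log X

theorem RegP.mono {K K' : ℝ} {Q X : ℕ} (h : RegP K Q X) (h0 : 0 ≤ K) (hK : K' ≤ K) :
    RegP K' Q X := by
  obtain ⟨h1, h2, h3⟩ := h
  have hll : 0 ≤ log (log X) := h0.trans h1
  have hQ : 0 ≤ log Q := by positivity
  exact ⟨hK.trans h1, (mul_le_mul_of_nonneg_right hK hll).trans h2,
    (mul_le_mul_of_nonneg_right hK hQ).trans h3⟩


theorem RegP.logX_ge {K : ℝ} {Q X : ℕ} (h : RegP K Q X) (hK : 0 < K) : exp K ≤ log X := by
  have h1 : 0 < log (log X) := hK.trans_le h.1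
  have h2 : 0 < log X := by
    by_contra hc
    push Not at hc
    have h3 : (0:ℝ) ≤ log X := by positivity
    have h4 : log (X:ℝ) = 0 := le_antisymm hc h3
    rw [h4] at h1
    simp at h1
  exact (Real.le_log_iff_exp_le h2).mp h.1

theorem RegP.logX_pos {K : ℝ} {Q X : ℕ} (h : RegP K Q X) (hK : 0 < K) : 0 < log X :=
  (exp_pos K).trans_le (h.logX_ge hK)

theorem RegP.X_pos {K : ℝ} {Q X : ℕ} (h : RegP K Q X) (hK : 0 < K) : 0 < X := by
  rcases Nat.eq_zero_or_pos X with h0 | h0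
  · have := h.logX_pos hK
    rw [h0] at this
    simp at this
  · exact h0

theorem RegP.logX_ge_one {K : ℝ} {Q X : ℕ} (h : RegP K Q X) (hK : 0 < K) : 1 ≤ log X := by
  have h1 := h.logX_ge hK
  have h2 : (1:ℝ) ≤ exp K := Real.one_le_exp hK.le
  linarith

theorem RegP.X_ge {K : ℝ} {Q X : ℕ} (h : RegP K Q X) (hK : 0 < K) : K ≤ X := by
  have h1 := h.logX_ge hK
  have h2 : K + 1 ≤ exp K := Real.add_one_le_exp K
  have h3 : log X ≤ X := (Real.log_le_sub_one_of_pos (by exact_mod_cast h.X_pos hK)).trans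
    (by linarith)
  linarith


theorem RegP.logQ_ge {K : ℝ} {Q X : ℕ} (h : RegP K Q X) (hK : 1 ≤ K) : K ≤ log Q := by
  have h1 : 1 ≤ log (log X) := hK.trans h.1
  have := h.2.1
  nlinarith

theorem RegP.Q_ge {K : ℝ} {Q X : ℕ} (h : RegP K Q X) (hK : 1 ≤ K) : K ≤ Q := by
  have h1 := h.logQ_ge hK
  have h3 : log Q ≤ Q := by
    rcases Nat.eq_zero_or_pos Q with h0 | h0
    · rw [h0]; simp
    · exact (Real.log_le_sub_one_of_pos (by exact_mod_cast h0)).trans (by linarith)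
  linarith

theorem RegP.Q_pos {K : ℝ} {Q X : ℕ} (h : RegP K Q X) (hK : 1 ≤ K) : 0 < Q := by
  have h1 := h.Q_ge hK
  have h2 : (0:ℝ) < Q := by linarith
  exact_mod_cast h2

/-- `K log Q ≤ log X` -/
theorem RegP.logQ_le {K : ℝ} {Q X : ℕ} (h : RegP K Q X) (_hK : 1 ≤ K) : K * log Q ≤ log X := h.2.2


/-- Absorb constants and powers of `log X` into a power of `Q`. -/
theorem regp_log_le (C A ε : ℝ) (hε : 0 < ε) : ∃ K : ℝ, 1 ≤ K ∧ ∀ Q X : ℕ, RegP K Q X →
    C * (log X) ^ A ≤ (Q : ℝ) ^ ε := by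
  refine ⟨1 + |A| / ε + (1 + |C|) / ε, by
    have : 0 ≤ |A| / ε := by positivity
    have : 0 ≤ (1 + |C|) / ε := by positivity
    linarith, fun Q X h => ?_⟩
  set K := 1 + |A| / ε + (1 + |C|) / ε with hKdef
  have hA : 0 ≤ |A| / ε := by positivity
  have hC : 0 ≤ (1 + |C|) / ε := by positivity
  have hK : 1 ≤ K := by rw [hKdef]; linarith
  have hK0 : 0 < K := by linarith
  have hlX := h.logX_pos hK0
  have hll : 1 ≤ log (log X) := hK.trans h.1
  have hQ : (0:ℝ) < Q := by exact_mod_cast h.Q_pos hK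
  rcases le_or_gt C 0 with hC0 | hC0
  · have : C * (log X) ^ A ≤ 0 :=
      mul_nonpos_of_nonpos_of_nonneg hC0 (Real.rpow_nonneg hlX.le _)
    exact this.trans (Real.rpow_nonneg hQ.le _)
  rw [Real.rpow_def_of_pos hlX, Real.rpow_def_of_pos hQ]
  have h1 : C ≤ exp (log (log X) * (1 + |C|)) := by
    have : C ≤ exp C := by linarith [Real.add_one_le_exp C]
    refine this.trans (Real.exp_le_exp.mpr ?_)
    have : C ≤ |C| := le_abs_self C
    nlinarith [abs_nonneg C]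
  calc C * exp (log (log X) * A) ≤ exp (log (log X) * (1 + |C|)) * exp (log (log X) * A) :=
        mul_le_mul_of_nonneg_right h1 (exp_pos _).le
    _ = exp (log (log X) * (1 + |C| + A)) := by rw [← Real.exp_add]; ring_nf
    _ ≤ exp (log Q * ε) := by
        apply Real.exp_le_exp.mpr
        have h2 : K * log (log X) ≤ log Q := h.2.1
        have h3 : (1 + |C| + A) ≤ K * ε := by
          rw [hKdef]
          have e1 : |A| / ε * ε = |A| := div_mul_cancel₀ _ hε.ne'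
          have e2 : (1 + |C|) / ε * ε = 1 + |C| := div_mul_cancel₀ _ hε.ne'
          have : A ≤ |A| := le_abs_self A
          nlinarith
        calc log (log X) * (1 + |C| + A) ≤ log (log X) * (K * ε) :=
              mul_le_mul_of_nonneg_left h3 (by linarith)
          _ = (K * log (log X)) * ε := by ring
          _ ≤ log Q * ε := mul_le_mul_of_nonneg_right h2 hε.le

/-- Absorb constants and powers of `Q` into a power of `X`. -/
theorem regp_pow_le (C A ε : ℝ) (hε : 0 < ε) : ∃ K : ℝ, 1 ≤ K ∧ ∀ Q X : ℕ, RegP K Q X →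
    C * (Q : ℝ) ^ A ≤ (X : ℝ) ^ ε := by
  refine ⟨1 + |A| / ε + (1 + |C|) / ε, by
    have : 0 ≤ |A| / ε := by positivity
    have : 0 ≤ (1 + |C|) / ε := by positivity
    linarith, fun Q X h => ?_⟩
  set K := 1 + |A| / ε + (1 + |C|) / ε with hKdef
  have hA : 0 ≤ |A| / ε := by positivity
  have hC : 0 ≤ (1 + |C|) / ε := by positivity
  have hK : 1 ≤ K := by rw [hKdef]; linarith
  have hK0 : 0 < K := by linarith
  have hQ : (0:ℝ) < Q := by exact_mod_cast h.Q_pos hK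
  have hX : (0:ℝ) < X := by exact_mod_cast h.X_pos hK0
  have hlQ : 1 ≤ log Q := hK.trans (h.logQ_ge hK)
  rcases le_or_gt C 0 with hC0 | hC0
  · have : C * (Q:ℝ) ^ A ≤ 0 :=
      mul_nonpos_of_nonpos_of_nonneg hC0 (Real.rpow_nonneg hQ.le _)
    exact this.trans (Real.rpow_nonneg hX.le _)
  rw [Real.rpow_def_of_pos hQ, Real.rpow_def_of_pos hX]
  have h1 : C ≤ exp (log Q * (1 + |C|)) := by
    have : C ≤ exp C := by linarith [Real.add_one_le_exp C]
    refine this.trans (Real.exp_le_exp.mpr ?_)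
    have : C ≤ |C| := le_abs_self C
    nlinarith [abs_nonneg C]
  calc C * exp (log Q * A) ≤ exp (log Q * (1 + |C|)) * exp (log Q * A) :=
        mul_le_mul_of_nonneg_right h1 (exp_pos _).le
    _ = exp (log Q * (1 + |C| + A)) := by rw [← Real.exp_add]; ring_nf
    _ ≤ exp (log X * ε) := by
        apply Real.exp_le_exp.mpr
        have h2 : K * log Q ≤ log X := h.logQ_le hK
        have h3 : (1 + |C| + A) ≤ K * ε := by
          rw [hKdef]
          have e1 : |A| / ε * ε = |A| := div_mul_cancel₀ _ hε.ne'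
          have e2 : (1 + |C|) / ε * ε = 1 + |C| := div_mul_cancel₀ _ hε.ne'
          have : A ≤ |A| := le_abs_self A
          nlinarith
        calc log Q * (1 + |C| + A) ≤ log Q * (K * ε) :=
              mul_le_mul_of_nonneg_left h3 (by linarith)
          _ = (K * log Q) * ε := by ring
          _ ≤ log X * ε := mul_le_mul_of_nonneg_right h2 hε.le


end Pool.Agent.Lib.H18Q
end

-- from Lib.H68T.LAB2
section

/-!
# Chunk LAB2; part of LAB: real parts of logarithmic derivatives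
-/

open Finset ArithmeticFunction

namespace Pool.Agent.Lib.H68T

/-- `ζ(σ) ≤ σ/(σ-1)` -/
theorem lab2_zeta_le (σ : ℝ) (hσ : 1 < σ) : ‖riemannZeta (σ : ℂ)‖ ≤ σ / (σ - 1) := by
  have hs : 1 < ((σ : ℂ)).re := by simpa using hσ
  have h1 := gl2_eq (σ : ℂ) hs
  have h2 := (gl1_tele σ (by linarith) (‖(σ : ℂ) - 1‖ * ‖(σ : ℂ)‖ / σ) (by positivity)
    (fun n => gl2_B n (σ : ℂ)) (fun n => by simpa using gl2_B_norm n (σ : ℂ) (by simp; linarith))).2
  have e1 : ‖(σ : ℂ) - 1‖ = σ - 1 := by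
    rw [← Complex.ofReal_one, ← Complex.ofReal_sub, Complex.norm_real, Real.norm_of_nonneg]
    linarith
  have e2 : ‖(σ : ℂ)‖ = σ := by
    rw [Complex.norm_real, Real.norm_of_nonneg]
    linarith
  rw [e1, e2, mul_div_assoc, div_self (by linarith), mul_one] at h2
  have h3 : ‖((σ : ℂ) - 1) * riemannZeta (σ : ℂ)‖ ≤ σ := by
    rw [h1]
    refine (norm_add_le _ _).trans ?_
    rw [norm_one]
    linarith
  rw [norm_mul, e1] at h3
  rw [le_div_iff₀ (by linarith)]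
  linarith

/-- lower bound for `L(s,χ)`, `Re s > 1` -/
theorem lab2_lower (N : ℕ) (χ : DirichletCharacter ℂ N) (s : ℂ) (hs : 1 < s.re) :
    (s.re - 1) / s.re ≤ ‖LSeries (fun n => χ (n : ZMod N)) s‖ := by
  have h1 := DirichletCharacter.LSeries.mul_mu_eq_one χ hs
  have h2 : ‖LSeries ((fun n : ℕ => χ (n : ZMod N)) * fun n : ℕ => ((moebius n : ℤ) : ℂ)) s‖ ≤
      s.re / (s.re - 1) := by
    refine le_trans ?_ (lab2_zeta_le s.re hs)
    have hs' : 1 < ((s.re : ℂ)).re := by simpa using hs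
    have h3 : Summable fun n : ℕ => 1 / ((n : ℝ) + 1) ^ s.re := by
      have h4 := (Real.summable_one_div_nat_rpow (p := s.re)).2 hs
      have h5 := (summable_nat_add_iff 1).2 h4
      simpa using h5
    have hle : ∀ n, ‖LSeries.term ((fun n : ℕ => χ (n : ZMod N)) *
        fun n : ℕ => ((moebius n : ℤ) : ℂ)) s (n + 1)‖ ≤ 1 / ((n : ℝ) + 1) ^ s.re := by
      intro n
      rw [LSeries.term_of_ne_zero (by omega), norm_div,
        Complex.norm_natCast_cpow_of_pos (by omega)]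
      push_cast
      refine div_le_div_of_nonneg_right ?_ (Real.rpow_nonneg (by positivity) _)
      rw [Pi.mul_apply, norm_mul]
      have h6 := DirichletCharacter.norm_le_one χ ((n + 1 : ℕ) : ZMod N)
      have h7 : ‖((moebius (n + 1) : ℤ) : ℂ)‖ ≤ 1 := by
        rw [Complex.norm_intCast]
        exact_mod_cast abs_moebius_le_one
      calc _ ≤ (1 : ℝ) * 1 := mul_le_mul h6 h7 (norm_nonneg _) zero_le_one
        _ = 1 := one_mul _
    have hsum : Summable fun n => ‖LSeries.term ((fun n : ℕ => χ (n : ZMod N)) *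
        fun n : ℕ => ((moebius n : ℤ) : ℂ)) s (n + 1)‖ :=
      Summable.of_nonneg_of_le (fun n => norm_nonneg _) hle h3
    have hL : LSeries ((fun n : ℕ => χ (n : ZMod N)) * fun n : ℕ => ((moebius n : ℤ) : ℂ)) s =
        ∑' n, LSeries.term ((fun n : ℕ => χ (n : ZMod N)) *
          fun n : ℕ => ((moebius n : ℤ) : ℂ)) s (n + 1) := by
      rw [LSeries, ((summable_nat_add_iff 1).1 hsum.of_norm).tsum_eq_zero_add]
      simp
    have hzeta : ‖riemannZeta (s.re : ℂ)‖ = ∑' n : ℕ, 1 / ((n : ℝ) + 1) ^ s.re := by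
      rw [zeta_eq_tsum_one_div_nat_add_one_cpow hs']
      have e : (fun n : ℕ => 1 / ((n : ℂ) + 1) ^ ((s.re : ℝ) : ℂ)) =
          fun n : ℕ => ((1 / ((n : ℝ) + 1) ^ s.re : ℝ) : ℂ) := by
        funext n
        push_cast
        rw [Complex.ofReal_cpow (by positivity)]
        push_cast
        rfl
      rw [e, ← Complex.ofReal_tsum, Complex.norm_real, Real.norm_of_nonneg]
      exact tsum_nonneg fun n => by positivity
    rw [hL, hzeta]
    exact (norm_tsum_le_tsum_norm hsum).trans (Summable.tsum_le_tsum hle hsum h3)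
  have h3 := congrArg norm h1
  rw [norm_mul, norm_one] at h3
  have h4 : 0 < s.re - 1 := by linarith
  have h5 : 0 < s.re := by linarith
  have h6 : 1 ≤ ‖LSeries (fun n => χ (n : ZMod N)) s‖ * (s.re / (s.re - 1)) := by
    exact h3.symm.le.trans (mul_le_mul_of_nonneg_left h2 (norm_nonneg _))
  rw [div_le_iff₀ h5]
  rw [← mul_div_assoc, le_div_iff₀ h4] at h6
  linarith

/-- the consequence of Landau's lemma used for all L-functions -/
theorem lab2_core : ∃ A : ℝ, 0 < A ∧ ∀ (f : ℂ → ℂ) (s₀ : ℂ) (M : ℝ), 0 ≤ M →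
    AnalyticOnNhd ℂ f (Metric.closedBall s₀ (1 / 2)) → f s₀ ≠ 0 →
    (∀ s ∈ Metric.closedBall s₀ (1 / 2), ‖f s‖ ≤ Real.exp M * ‖f s₀‖) →
    (∀ ρ, f ρ = 0 → ρ.re < s₀.re) → ∀ S : Finset ℂ, (∀ ρ ∈ S, f ρ = 0 ∧ ‖ρ - s₀‖ ≤ 1 / 4) →
      -(logDeriv f s₀).re ≤ A * (M + 1) - ∑ ρ ∈ S, (1 / (s₀ - ρ)).re := by
  obtain ⟨A, hA, hlan⟩ := landau
  refine ⟨2 * A, by positivity, fun f s₀ M hM hf h0 hb hre S hS => ?_⟩
  obtain ⟨Z, hZ1, hZ2, hZ3⟩ := hlan f s₀ (1 / 2) M (by norm_num) hM hf h0 hb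
  have h1 := hZ3 s₀ (Metric.mem_closedBall_self (by norm_num)) h0
  have hSZ : S.val ≤ Z := by
    rw [Finset.val_le_iff_val_subset]
    intro ρ hρ
    have h2 := hS ρ hρ
    exact hZ2 ρ (by linarith [h2.2]) h2.1
  obtain ⟨Z', hZ'⟩ := Multiset.le_iff_exists_add.1 hSZ
  have hpos : ∀ ρ ∈ Z, 0 ≤ (1 / (s₀ - ρ)).re := by
    intro ρ hρ
    have h2 := hre ρ (hZ1 ρ hρ).2
    rw [one_div, Complex.inv_re, Complex.sub_re]
    apply div_nonneg (by linarith) (Complex.normSq_nonneg _)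
  have hsum : ((Z.map (fun ρ => 1 / (s₀ - ρ))).sum).re =
      ∑ ρ ∈ S, (1 / (s₀ - ρ)).re + (Z'.map (fun ρ => (1 / (s₀ - ρ)).re)).sum := by
    rw [hZ', Multiset.map_add, Multiset.sum_add, Complex.add_re]
    congr 1
    · change (∑ ρ ∈ S, 1 / (s₀ - ρ)).re = _
      rw [Complex.re_sum]
    · have := (Multiset.sum_hom (Z'.map fun ρ => 1 / (s₀ - ρ)) Complex.reAddGroupHom)
      rw [Multiset.map_map] at this
      exact this.symm
  have hZ'pos : 0 ≤ (Z'.map (fun ρ => (1 / (s₀ - ρ)).re)).sum := by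
    apply Multiset.sum_nonneg
    intro x hx
    obtain ⟨ρ, hρ, rfl⟩ := Multiset.mem_map.1 hx
    exact hpos ρ (by rw [hZ']; exact Multiset.mem_add.2 (Or.inr hρ))
  have h3 : -(deriv f s₀ / f s₀ - (Z.map (fun ρ => 1 / (s₀ - ρ))).sum).re ≤
      A * (M + 1) / (1 / 2) := by
    refine le_trans ?_ h1
    have := Complex.abs_re_le_norm (deriv f s₀ / f s₀ - (Z.map (fun ρ => 1 / (s₀ - ρ))).sum)
    linarith [neg_abs_le (deriv f s₀ / f s₀ - (Z.map (fun ρ => 1 / (s₀ - ρ))).sum).re]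
  rw [Complex.sub_re, hsum] at h3
  rw [logDeriv_apply]
  have e : A * (M + 1) / (1 / 2) = 2 * A * (M + 1) := by ring
  rw [e] at h3
  linarith

/-- **Upper bound for `-Re L'/L`**, `χ ≠ 1` mod `N`, `S` any finite set of zeros near
`s₀ = σ + it`. `landau` with `f = L(·,χ)`, `R = 1/2`: on the disc `‖f‖ ≤ 2N(|t|+3)`
(`LFunction_bound`), `‖f(s₀)‖ ≥ 1/ζ(σ) ≥ (σ-1)/σ`; `LSeries (Λχ) = -f'/f`
(`DirichletCharacter.LSeries_twist_vonMangoldt_eq`); every zero has real part `< 1`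
(`DirichletCharacter.LFunction_ne_zero_of_one_le_re`), so all terms `Re 1/(s₀-ρ)` are positive and
the others can be dropped. -/
theorem re_char : ∃ C : ℝ, 0 < C ∧ ∀ (N : ℕ) [NeZero N] (χ : DirichletCharacter ℂ N), χ ≠ 1 →
    ∀ σ t : ℝ, 1 < σ → σ ≤ 5 / 4 → ∀ S : Finset ℂ,
    (∀ ρ ∈ S, χ.LFunction ρ = 0 ∧ ‖ρ - (σ + t * Complex.I)‖ ≤ 1 / 4) →
    (LSeries (fun n => (vonMangoldt n : ℂ) * χ (n : ZMod N)) (σ + t * Complex.I)).re ≤
      C * (Real.log N + Real.log (|t| + 3) + Real.log (1 / (σ - 1)) + 1) -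
        ∑ ρ ∈ S, (1 / (σ + t * Complex.I - ρ)).re := by
  obtain ⟨A, hA, hcore⟩ := lab2_core
  refine ⟨3 * A, by positivity, fun N _ χ hχ σ t h1 h2 S hS => ?_⟩
  have hN : (1 : ℝ) ≤ N := by exact_mod_cast NeZero.one_le
  set s₀ : ℂ := σ + t * Complex.I with hs₀
  have hre : s₀.re = σ := by simp [hs₀]
  have him : s₀.im = t := by simp [hs₀]
  have hs1 : 1 < s₀.re := by rw [hre]; exact h1
  have hlow := lab2_lower N χ s₀ hs1
  rw [← DirichletCharacter.LFunction_eq_LSeries χ hs1, hre] at hlow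
  have hσ0 : 0 < σ := by linarith
  have hσ1 : 0 < σ - 1 := by linarith
  have hf0 : 0 < ‖χ.LFunction s₀‖ := lt_of_lt_of_le (by positivity) hlow
  have ht : 0 ≤ |t| := abs_nonneg t
  set T : ℝ := 2 * N * (|t| + 3) * (σ / (σ - 1)) with hT
  have hq1 : 1 ≤ σ / (σ - 1) := by
    rw [le_div_iff₀ hσ1]
    linarith
  have hT1 : 1 ≤ T := by
    have e1 : 1 ≤ 2 * (N : ℝ) * (|t| + 3) := by nlinarith
    calc (1 : ℝ) = 1 * 1 := (one_mul 1).symm
      _ ≤ T := mul_le_mul e1 hq1 zero_le_one (by positivity)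
  have hb : ∀ s ∈ Metric.closedBall s₀ (1 / 2), ‖χ.LFunction s‖ ≤
      Real.exp (Real.log T) * ‖χ.LFunction s₀‖ := by
    intro s hs
    rw [Real.exp_log (by linarith)]
    rw [Metric.mem_closedBall, dist_eq_norm] at hs
    have e1 : |s.re - s₀.re| ≤ 1 / 2 := by
      have := Complex.abs_re_le_norm (s - s₀)
      rw [Complex.sub_re] at this
      linarith
    have e2 : 1 / 2 ≤ s.re := by
      rw [hre] at e1
      linarith [(abs_le.1 e1).1]
    refine (LFunction_bound N χ hχ s e2).trans ?_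
    have e3 : ‖s‖ ≤ |t| + 3 := by
      have h5 : ‖s‖ ≤ ‖s₀‖ + ‖s - s₀‖ := by
        have := norm_add_le s₀ (s - s₀)
        simpa using this
      have h6 : ‖s₀‖ ≤ σ + |t| := by
        refine (Complex.norm_le_abs_re_add_abs_im s₀).trans ?_
        rw [hre, him, abs_of_pos hσ0]
      linarith
    have e4 : 2 * (N : ℝ) * ‖s‖ ≤ 2 * N * (|t| + 3) :=
      mul_le_mul_of_nonneg_left e3 (by positivity)
    refine e4.trans ?_
    have e5 : 1 ≤ σ / (σ - 1) * ‖χ.LFunction s₀‖ := by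
      have e6 : σ / (σ - 1) * ((σ - 1) / σ) = 1 := by field_simp
      exact e6.symm.le.trans (mul_le_mul_of_nonneg_left hlow (by positivity))
    calc 2 * (N : ℝ) * (|t| + 3) = 2 * N * (|t| + 3) * 1 := (mul_one _).symm
      _ ≤ 2 * N * (|t| + 3) * (σ / (σ - 1) * ‖χ.LFunction s₀‖) :=
          mul_le_mul_of_nonneg_left e5 (by positivity)
      _ = T * ‖χ.LFunction s₀‖ := by rw [hT]; ring
  have han : AnalyticOnNhd ℂ χ.LFunction (Metric.closedBall s₀ (1 / 2)) := fun z _ =>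
    ((DirichletCharacter.differentiable_LFunction hχ).analyticAt z)
  have hzero : ∀ ρ, χ.LFunction ρ = 0 → ρ.re < s₀.re := by
    intro ρ hρ
    by_contra hcon
    push Not at hcon
    exact DirichletCharacter.LFunction_ne_zero_of_one_le_re χ (Or.inl hχ) (by linarith) hρ
  have h3 := hcore χ.LFunction s₀ (Real.log T) (Real.log_nonneg hT1) han (norm_pos_iff.1 hf0) hb
    hzero S hS
  rw [lab1_char N χ s₀ hs1, Complex.neg_re]
  refine h3.trans ?_
  have hlogT : Real.log T = Real.log 2 + Real.log N + Real.log (|t| + 3) +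
      (Real.log σ + Real.log (1 / (σ - 1))) := by
    have e1 : T = 2 * N * (|t| + 3) * (σ * (1 / (σ - 1))) := by rw [hT]; ring
    rw [e1, Real.log_mul (by positivity) (by positivity), Real.log_mul (by positivity)
      (by positivity), Real.log_mul (by positivity) (by positivity),
      Real.log_mul (by positivity) (by positivity)]
  have l1 : Real.log 2 ≤ 1 := by linarith [Real.log_two_lt_d9]
  have l2 : Real.log σ ≤ 1 := by
    have := Real.log_le_sub_one_of_pos hσ0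
    linarith
  have l3 : 0 ≤ Real.log N := Real.log_nonneg hN
  have l4 : 0 ≤ Real.log (|t| + 3) := Real.log_nonneg (by linarith)
  have l5 : 0 ≤ Real.log (1 / (σ - 1)) := by
    apply Real.log_nonneg
    rw [le_div_iff₀ hσ1]
    linarith
  have l6 : A * (Real.log T + 1) ≤ 3 * A * (Real.log N + Real.log (|t| + 3) +
      Real.log (1 / (σ - 1)) + 1) := by
    have : Real.log T + 1 ≤ 3 * (Real.log N + Real.log (|t| + 3) +
      Real.log (1 / (σ - 1)) + 1) := by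
      rw [hlogT]
      linarith
    nlinarith
  linarith

end Pool.Agent.Lib.H68T
end

-- from Lib.H68T.LAB3
section

/-!
# Chunk LAB3; part of LAB: real parts of logarithmic derivatives
-/

open Finset ArithmeticFunction

namespace Pool.Agent.Lib.H68T

theorem lab3_Z_zero (ρ : ℂ) (h : gl2_Z ρ = 0) : riemannZeta ρ = 0 := by
  have h1 : ρ ≠ 1 := by
    rintro rfl
    rw [gl2_Z_one] at h
    exact one_ne_zero h
  rw [gl2_Z_eq ρ h1] at h
  exact (mul_eq_zero.1 h).resolve_left (sub_ne_zero.2 h1)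

theorem lab3_zeta_zero (ρ : ℂ) (h : riemannZeta ρ = 0) : gl2_Z ρ = 0 := by
  have h1 : ρ ≠ 1 := by
    rintro rfl
    exact riemannZeta_ne_zero_of_one_le_re (by simp) h
  rw [gl2_Z_eq ρ h1, h, mul_zero]

/-- The same for `ζ`, with `f(s) = (s-1) ζ(s)` (value `1` at `s = 1`), `zeta_bound`,
`‖f(s₀)‖ ≥ (σ-1)²/σ`. -/
theorem re_zeta : ∃ C : ℝ, 0 < C ∧ ∀ σ t : ℝ, 1 < σ → σ ≤ 5 / 4 → ∀ S : Finset ℂ,
    (∀ ρ ∈ S, riemannZeta ρ = 0 ∧ ‖ρ - (σ + t * Complex.I)‖ ≤ 1 / 4) →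
    (LSeries (fun n => (vonMangoldt n : ℂ)) (σ + t * Complex.I)).re ≤
      (1 / (σ + t * Complex.I - 1)).re +
      C * (Real.log (|t| + 3) + Real.log (1 / (σ - 1)) + 1) -
        ∑ ρ ∈ S, (1 / (σ + t * Complex.I - ρ)).re := by
  obtain ⟨A, hA, hcore⟩ := lab2_core
  refine ⟨5 * A, by positivity, fun σ t h1 h2 S hS => ?_⟩
  set s₀ : ℂ := σ + t * Complex.I with hs₀
  have hre : s₀.re = σ := by simp [hs₀]
  have him : s₀.im = t := by simp [hs₀]
  have hs1 : 1 < s₀.re := by rw [hre]; exact h1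
  have hne1 : s₀ ≠ 1 := by
    intro h
    rw [h] at hs1
    simp at hs1
  have hσ0 : 0 < σ := by linarith
  have hσ1 : 0 < σ - 1 := by linarith
  have hlow : (σ - 1) * ((σ - 1) / σ) ≤ ‖gl2_Z s₀‖ := by
    have e1 := lab2_lower 1 1 s₀ hs1
    have e2 : LSeries (fun n => (1 : DirichletCharacter ℂ 1) (n : ZMod 1)) s₀ =
        riemannZeta s₀ := by
      rw [← DirichletCharacter.LFunction_eq_LSeries (1 : DirichletCharacter ℂ 1) hs1,
        DirichletCharacter.LFunction_modOne_eq]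
    rw [e2, hre] at e1
    rw [gl2_Z_eq s₀ hne1, norm_mul]
    refine mul_le_mul ?_ e1 (by positivity) (norm_nonneg _)
    have e3 := Complex.abs_re_le_norm (s₀ - 1)
    rw [Complex.sub_re, hre, Complex.one_re, abs_of_pos hσ1] at e3
    exact e3
  have hf0 : 0 < ‖gl2_Z s₀‖ := lt_of_lt_of_le (by positivity) hlow
  have ht : 0 ≤ |t| := abs_nonneg t
  set T : ℝ := 16 * ((|t| + 3) * (|t| + 3)) * (σ * (1 / (σ - 1)) * (1 / (σ - 1))) with hT
  have hq0 : 1 ≤ 1 / (σ - 1) := by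
    rw [le_div_iff₀ hσ1]
    linarith
  have hq1 : 1 ≤ σ * (1 / (σ - 1)) * (1 / (σ - 1)) := by
    have e1 : 1 ≤ σ * (1 / (σ - 1)) := by nlinarith
    nlinarith
  have hT1 : 1 ≤ T := by
    have e1 : 1 ≤ 16 * ((|t| + 3) * (|t| + 3)) := by nlinarith
    calc (1 : ℝ) = 1 * 1 := (one_mul 1).symm
      _ ≤ T := mul_le_mul e1 hq1 zero_le_one (by positivity)
  have hb : ∀ s ∈ Metric.closedBall s₀ (1 / 2), ‖gl2_Z s‖ ≤
      Real.exp (Real.log T) * ‖gl2_Z s₀‖ := by
    intro s hs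
    rw [Real.exp_log (by linarith)]
    rw [Metric.mem_closedBall, dist_eq_norm] at hs
    have e1 : |s.re - σ| ≤ 1 / 2 := by
      have := Complex.abs_re_le_norm (s - s₀)
      rw [Complex.sub_re, hre] at this
      linarith
    have e1' := abs_le.1 e1
    have e2 : |s.im - t| ≤ 1 / 2 := by
      have := Complex.abs_im_le_norm (s - s₀)
      rw [Complex.sub_im, him] at this
      linarith
    refine (gl2_Z_bound s (by linarith [e1'.1]) (by linarith [e1'.2])).trans ?_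
    have e3 : |s.im| ≤ |t| + 1 / 2 := by
      have := abs_sub_abs_le_abs_sub s.im t
      linarith
    have e4 : 4 * (|s.im| + 3) ^ 2 ≤ 16 * ((|t| + 3) * (|t| + 3)) := by
      have e5 : |s.im| + 3 ≤ 2 * (|t| + 3) := by linarith
      have e6 : 0 ≤ |s.im| + 3 := by positivity
      nlinarith
    refine e4.trans ?_
    have e5 : 1 ≤ (σ * (1 / (σ - 1)) * (1 / (σ - 1))) * ‖gl2_Z s₀‖ := by
      have e6 : (σ * (1 / (σ - 1)) * (1 / (σ - 1))) * ((σ - 1) * ((σ - 1) / σ)) = 1 := by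
        field_simp
      exact e6.symm.le.trans (mul_le_mul_of_nonneg_left hlow (by positivity))
    calc 16 * ((|t| + 3) * (|t| + 3)) = 16 * ((|t| + 3) * (|t| + 3)) * 1 := (mul_one _).symm
      _ ≤ 16 * ((|t| + 3) * (|t| + 3)) * ((σ * (1 / (σ - 1)) * (1 / (σ - 1))) * ‖gl2_Z s₀‖) :=
          mul_le_mul_of_nonneg_left e5 (by positivity)
      _ = T * ‖gl2_Z s₀‖ := by rw [hT]; ring
  have han : AnalyticOnNhd ℂ gl2_Z (Metric.closedBall s₀ (1 / 2)) := fun z _ =>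
    gl2_Z_differentiable.analyticAt z
  have hzero : ∀ ρ, gl2_Z ρ = 0 → ρ.re < s₀.re := by
    intro ρ hρ
    by_contra hcon
    push Not at hcon
    exact riemannZeta_ne_zero_of_one_le_re (by linarith) (lab3_Z_zero ρ hρ)
  have h3 := hcore gl2_Z s₀ (Real.log T) (Real.log_nonneg hT1) han (norm_pos_iff.1 hf0) hb
    hzero S (fun ρ hρ => ⟨lab3_zeta_zero ρ (hS ρ hρ).1, (hS ρ hρ).2⟩)
  rw [lab1_Z s₀ hs1, Complex.sub_re]
  have hlogT : Real.log T = Real.log 16 + (Real.log (|t| + 3) + Real.log (|t| + 3)) +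
      (Real.log σ + Real.log (1 / (σ - 1)) + Real.log (1 / (σ - 1))) := by
    rw [hT, Real.log_mul (by positivity) (by positivity), Real.log_mul (by positivity)
      (by positivity), Real.log_mul (by positivity) (by positivity),
      Real.log_mul (by positivity) (by positivity), Real.log_mul (by positivity) (by positivity)]
  have l1 : Real.log 16 ≤ 3 := by
    have e1 : (16 : ℝ) = 2 ^ 4 := by norm_num
    rw [e1, Real.log_pow]
    have := Real.log_two_lt_d9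
    push_cast
    linarith
  have l2 : Real.log σ ≤ 1 := by
    have := Real.log_le_sub_one_of_pos hσ0
    linarith
  have l4 : 0 ≤ Real.log (|t| + 3) := Real.log_nonneg (by linarith)
  have l5 : 0 ≤ Real.log (1 / (σ - 1)) := Real.log_nonneg hq0
  have l6 : A * (Real.log T + 1) ≤ 5 * A * (Real.log (|t| + 3) +
      Real.log (1 / (σ - 1)) + 1) := by
    have : Real.log T + 1 ≤ 5 * (Real.log (|t| + 3) +
      Real.log (1 / (σ - 1)) + 1) := by
      rw [hlogT]
      linarith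
    nlinarith
  linarith

end Pool.Agent.Lib.H68T
end

-- from Lib.H68T.ZF1
section

/-!
# Chunk ZF1; part of ZF1, ZF2, ZF3: zero-free regions
(`L := log Q`; all `log N, log(|t|+3), log(1/(σ-1))` in `re_char` are `O(L)` for `N ≤ Q^2`,
`|t| ≤ 2 Q^12 + 2`, `σ = 1 + a/L`.)
-/

open Finset ArithmeticFunction

namespace Pool.Agent.Lib.H68T

/-- Bracket estimate: everything in `re_char` and `re_zeta` is `O(log Q)`. -/
theorem ZF1_bracket (a : ℝ) (ha : 0 < a) : ∃ K : ℝ, ∀ Q : ℕ, K ≤ Q →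
    1 ≤ Real.log Q ∧ 8 * a ≤ Real.log Q ∧
    (∀ N : ℕ, 1 ≤ N → N ≤ Q → ∀ t : ℝ, |t| ≤ 2 * ((Q : ℝ) ^ 12 + 1) →
      Real.log N + Real.log (|t| + 3) +
        Real.log (1 / (1 + a / Real.log Q - 1)) + 1 ≤ 17 * Real.log Q) := by
  refine ⟨Real.exp (1 + 8 * a + |Real.log a|) + 3, fun Q hQ => ?_⟩
  have h0 : 0 < Real.exp (1 + 8 * a + |Real.log a|) := Real.exp_pos _
  have hQ3 : (3 : ℝ) ≤ Q := by linarith
  have hQ0 : (0 : ℝ) < Q := by linarith
  have hL : 1 + 8 * a + |Real.log a| ≤ Real.log Q := by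
    rw [Real.le_log_iff_exp_le hQ0]; linarith
  have habs := abs_nonneg (Real.log a)
  have hL1 : 1 ≤ Real.log Q := by linarith
  have hL0 : 0 < Real.log Q := by linarith
  refine ⟨hL1, by linarith, fun N hN1 hNQ t ht => ?_⟩
  have h1 : Real.log N ≤ Real.log Q :=
    Real.log_le_log (by exact_mod_cast hN1) (by exact_mod_cast hNQ)
  have h2 : Real.log (|t| + 3) ≤ 13 * Real.log Q := by
    have e1 : |t| + 3 ≤ (Q : ℝ) ^ 13 := by
      have e2 : (1 : ℝ) ≤ (Q : ℝ) ^ 12 := one_le_pow₀ (by linarith)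
      have e3 : (Q : ℝ) ^ 13 = (Q : ℝ) ^ 12 * Q := by ring
      rw [e3]
      have e4 : (Q : ℝ) ^ 12 * 3 ≤ (Q : ℝ) ^ 12 * Q :=
        mul_le_mul_of_nonneg_left hQ3 (by positivity)
      have e5 : (5 : ℝ) ≤ (Q : ℝ) ^ 12 := by
        have : (3 : ℝ) ^ 12 ≤ (Q : ℝ) ^ 12 := pow_le_pow_left₀ (by norm_num) hQ3 12
        norm_num at this
        linarith
      linarith
    have e6 := Real.log_le_log (by positivity : 0 < |t| + 3) e1
    rw [Real.log_pow] at e6
    push_cast at e6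
    linarith
  have h3 : Real.log (1 / (1 + a / Real.log Q - 1)) ≤ 2 * Real.log Q := by
    have e1 : 1 / (1 + a / Real.log Q - 1) = Real.log Q / a := by
      rw [add_sub_cancel_left, one_div, inv_div]
    rw [e1, Real.log_div hL0.ne' ha.ne']
    have e2 : Real.log (Real.log Q) ≤ Real.log Q := by
      have := Real.log_le_sub_one_of_pos hL0
      linarith
    have e3 : -Real.log a ≤ |Real.log a| := neg_le_abs _
    linarith
  linarith

/-- **ZF1**, complex characters. `ρ = β + iγ` a zero, suppose `β ≥ 1 - c₁/L`, `σ = 1 + a/L`.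
`three_four_one` at `t = γ`, `vonMangoldt_le`, `re_char` for `ψ` with `S = {ρ}` and for
`ψ² ≠ 1` with `S = ∅`: `0 ≤ 3 L/a + C' L - 4 L/(a + c₁)`, i.e. `4/(a + c₁) ≤ 3/a + C'`, false for
`a = 1/(2C')`, `c₁ = a/8` (`3/a + C' = 3.5/a`). -/
theorem zero_free_complex : ∃ c₁ K : ℝ, 0 < c₁ ∧ ∀ Q : ℕ, K ≤ Q → ∀ (r : ℕ) [NeZero r]
    (ψ : DirichletCharacter ℂ r), r ≤ Q → ψ ^ 2 ≠ 1 → ∀ ρ : ℂ, ψ.LFunction ρ = 0 →
    |ρ.im| ≤ (Q : ℝ) ^ 12 + 1 → ρ.re < 1 - c₁ / Real.log Q := by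
  obtain ⟨Cv, hCv, hv⟩ := vonMangoldt_le
  obtain ⟨Cc, hCc, hc⟩ := re_char
  set C' : ℝ := 3 * Cv + 85 * Cc with hC'
  have hC'0 : 0 < C' := by positivity
  set a : ℝ := 1 / (2 * C') with ha
  have ha0 : 0 < a := by positivity
  have haC : a * C' = 1 / 2 := by rw [ha]; field_simp
  obtain ⟨K, hK⟩ := ZF1_bracket a ha0
  refine ⟨a / 8, K, by positivity, fun Q hQ r _ ψ hr hψ ρ hρ him => ?_⟩
  obtain ⟨hL1, hL8, hbr⟩ := hK Q hQ
  set L : ℝ := Real.log Q with hLdef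
  have hL0 : 0 < L := by linarith
  by_contra hcon
  push Not at hcon
  have hψ1 : ψ ≠ 1 := by
    rintro rfl
    exact hψ (one_pow 2)
  have hβ1 : ρ.re < 1 := by
    by_contra h
    push Not at h
    exact DirichletCharacter.LFunction_ne_zero_of_one_le_re ψ (Or.inl hψ1) h hρ
  set σ : ℝ := 1 + a / L with hσ
  have haL : 0 < a / L := by positivity
  have haL8 : a / L ≤ 1 / 8 := by
    rw [div_le_iff₀ hL0]; linarith
  have hσ1 : 1 < σ := by linarith
  have hσ2 : σ ≤ 5 / 4 := by linarith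
  have hc8 : a / 8 / L = a / L / 8 := by ring
  rw [hc8] at hcon
  have hr1 : 1 ≤ r := Nat.one_le_iff_ne_zero.mpr (NeZero.ne r)
  have e0 : (σ : ℂ) + ρ.im * Complex.I - ρ = ((σ - ρ.re : ℝ) : ℂ) := by
    apply Complex.ext <;> simp
  -- the three terms
  have T0 := hv σ hσ1 (by linarith)
  have T1 := hc r ψ hψ1 σ ρ.im hσ1 hσ2 {ρ} (by
    intro ρ' hρ'
    rw [Finset.mem_singleton] at hρ'
    subst hρ'
    refine ⟨hρ, ?_⟩
    rw [norm_sub_rev, e0, Complex.norm_real, Real.norm_eq_abs, abs_of_pos (by linarith)]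
    linarith)
  rw [Finset.sum_singleton, e0] at T1
  have e1 : (1 / ((σ - ρ.re : ℝ) : ℂ)).re = 1 / (σ - ρ.re) := by
    rw [← Complex.ofReal_one, ← Complex.ofReal_div, Complex.ofReal_re]
  rw [e1] at T1
  have T2 := hc r (ψ ^ 2) hψ σ (2 * ρ.im) hσ1 hσ2 ∅ (by simp)
  rw [Finset.sum_empty] at T2
  have T3 := three_four_one r ψ σ ρ.im hσ1
  have B1 := hbr r hr1 hr ρ.im (by
    have := abs_nonneg ρ.im
    linarith)
  have B2 := hbr r hr1 hr (2 * ρ.im) (by
    rw [abs_mul, abs_of_pos (by norm_num : (0 : ℝ) < 2)]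
    linarith)
  have B1' := mul_le_mul_of_nonneg_left B1 hCc.le
  have B2' := mul_le_mul_of_nonneg_left B2 hCc.le
  push_cast at T2
  have e2 : 1 / (σ - 1) = L / a := by
    rw [hσ, add_sub_cancel_left, one_div, inv_div]
  rw [e2] at T0
  have e3 : L / (9 * a / 8) ≤ 1 / (σ - ρ.re) := by
    rw [div_le_div_iff₀ (by positivity) (by linarith)]
    have : L * (a / L) = a := by field_simp
    have h5 : L * (σ - ρ.re) ≤ L * (9 * (a / L) / 8) :=
      mul_le_mul_of_nonneg_left (by linarith) hL0.le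
    have h6 : L * (9 * (a / L) / 8) = 9 * a / 8 := by
      rw [show L * (9 * (a / L) / 8) = 9 * (L * (a / L)) / 8 by ring, this]
    linarith
  have e4 : L / (9 * a / 8) = (8 / 9) * (L / a) := by
    field_simp
  rw [e4] at e3
  have e5 : C' * L = (L / a) / 2 := by
    have : C' = 1 / (2 * a) := by
      rw [eq_div_iff (by positivity)]; linarith
    rw [this]; field_simp
  have hLa : 0 < L / a := by positivity
  have hCvL : Cv ≤ Cv * L := le_mul_of_one_le_right hCv.le hL1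
  have : 0 ≤ 3 * (L / a) + C' * L - 4 * (8 / 9 * (L / a)) := by
    rw [hC']
    linarith
  rw [e5] at this
  linarith

end Pool.Agent.Lib.H68T
end
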