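import Pool.Agent.Lib.H1M.RV2.M004
import Pool.Agent.Lib.H1M.RV2.M014

/-! Merged copies (to shorten the build) of Lib.H59C.Defs, Lib.H59C.LSB, Lib.H68T.KER, Lib.H68T.PV, Lib.H68T.GAM1, Lib.H68T.GAM2, Lib.H68T.TENT, Lib.H68T.BPS. -/

-- from Lib.H59C.Defs
section

/-!
# Project H59C (MP_443e5f_co, Goldbach graphs): definitions

See `PROOF.md` in this folder. `PC Q`: the primitive characters of conductor at most `Q`
(pairs `⟨r, χ⟩`), `p0` the trivial one, `e x = exp (2 π i x)` (`Lib/H68T/Defs.lean`).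
-/

open Finset

namespace Pool.Agent.Lib.H59C

noncomputable section

open Pool.Agent.Lib.H68T (PC p0 e)

/-- Primitive characters with their conductors. -/
abbrev PCh : Type := Σ r : ℕ, DirichletCharacter ℂ r

open Classical in
/-- The primitive characters of conductor in `(R, 2 R]`. -/
def PD (R : ℕ) : Finset PCh := (PC (2 * R)).filter (fun p => R < p.1)

/-- `∑_{m ≤ y} Λ(m) χ(m)` -/
def psi (y : ℕ) (p : PCh) : ℂ :=
  ∑ m ∈ Icc 1 y, (ArithmeticFunction.vonMangoldt m : ℂ) * p.2 (m : ZMod p.1)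

/-- `∑ log q` over the primes `q ≤ y`. -/
def th (y : ℕ) : ℝ := ∑ q ∈ (Icc 1 y).filter Nat.Prime, Real.log q

/-- `∑ log q` over the primes `q ≤ y` with `q ≡ a mod d`. -/
def thp (y d a : ℕ) : ℝ :=
  ∑ q ∈ (Icc 1 y).filter (fun q => q.Prime ∧ q ≡ a [MOD d]), Real.log q

/-- The level of distribution `√n / (log n)^B`. -/
def DD (n B : ℕ) : ℕ := ⌊Real.sqrt n / Real.log n ^ B⌋₊

open Classical in
/-- The Siegel-Walfisz property, away from the conductors divisible by `p1`. -/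
def SWp (A n p1 : ℕ) : Prop :=
  ∀ p ∈ PC ⌊Real.log n ^ A⌋₊, p ≠ p0 → ¬ p1 ∣ p.1 → ∀ y : ℕ, (n : ℝ) ^ (1 / 10 : ℝ) ≤ y →
    y ≤ 8 * n → ‖psi y p‖ ≤ y / Real.log n ^ A

/-! ## The linear sieve -/

/-- `∏ (1 - g q)` over the `q ∈ P`, `q < z`. -/
def VP (P : Finset ℕ) (g : ℕ → ℝ) (z : ℝ) : ℝ :=
  ∏ q ∈ P.filter (fun q : ℕ => (q : ℝ) < z), (1 - g q)

/-- Sifting dimension one, constant `K`. -/
def Om (K : ℝ) (P : Finset ℕ) (g : ℕ → ℝ) : Prop :=
  ∀ u z : ℝ, 2 ≤ u → u ≤ z → VP P g u ≤ K * (Real.log z / Real.log u) * VP P g z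

/-- Rosser's condition on a decreasing list of primes (`true`: upper bound sieve, `false`: lower
bound sieve). -/
def adm : Bool → ℝ → List ℕ → Prop
  | _, _, [] => True
  | true, D, p :: l => (p : ℝ) ^ 3 < D ∧ adm false (D / p) l
  | false, D, p :: l => adm true (D / p) l

open Classical in
/-- Rosser's weights. -/
def lamR (b : Bool) (D : ℝ) (A : Finset ℕ) : ℝ :=
  if adm b D (A.sort (· ≥ ·)) then (-1) ^ A.card else 0

/-- `∑_{A ⊆ P} λ(A) ∏_{q ∈ A} h(q)` -/
def SS (b : Bool) (D : ℝ) (P : Finset ℕ) (h : ℕ → ℝ) : ℝ :=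
  ∑ A ∈ P.powerset, lamR b D A * ∏ q ∈ A, h q

/-- The comparison function. -/
def hh (s : ℝ) : ℝ := Real.exp (-(11 / 10) * max s 2)

/-- The functions of the linear sieve: `F = 1 + u`, `f = 1 - v`. -/
structure UV (C : ℝ) (u v : ℝ → ℝ) : Prop where
  u0 : ∀ s, 1 ≤ s → 0 ≤ u s
  v0 : ∀ s, 2 ≤ s → 0 ≤ v s
  uanti : AntitoneOn u (Set.Ici 1)
  vanti : AntitoneOn v (Set.Ici 2)
  ub : ∀ s, 1 ≤ s → u s ≤ C * hh s
  vb : ∀ s, 2 ≤ s → v s ≤ C * hh s
  eqv : ∀ s, 2 ≤ s → s * v s = ∫ t in Set.Ioi s, u (t - 1)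
  equ : ∀ s, 3 ≤ s → s * u s = ∫ t in Set.Ioi s, v (t - 1)
  equ' : ∀ s, 1 ≤ s → s ≤ 3 → s * (1 + u s) = 3 * (1 + u 3)

/-- The density `1/(q-1)`. -/
def gq (q : ℕ) : ℝ := 1 / ((q : ℝ) - 1)

/-- `∏ (1 - 1/(q-1))` over the `q ∈ P`, `q < z`. -/
def VV (P : Finset ℕ) (z : ℝ) : ℝ := VP P gq z

open Classical in
/-- The total weight of the `i` such that no `q ∈ P`, `q < z`, divides `a i`. -/
def sift {ι : Type} (S : Finset ι) (w : ι → ℝ) (a : ι → ℕ) (P : Finset ℕ) (z : ℝ) : ℝ :=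
  ∑ i ∈ S.filter (fun i => ∀ q ∈ P, (q : ℝ) < z → ¬ q ∣ a i), w i

open Classical in
/-- The sum of the remainder terms, squarefree moduli `d ≤ D` composed of primes `q ∈ P`, `q < z`. -/
def remd {ι : Type} (S : Finset ι) (w : ι → ℝ) (a : ι → ℕ) (P : Finset ℕ) (z X D : ℝ) : ℝ :=
  ∑ d ∈ (Icc 1 ⌊D⌋₊).filter (fun d => Squarefree d ∧ ∀ q ∈ d.primeFactors, q ∈ P ∧ (q : ℝ) < z),
    |∑ i ∈ S.filter (fun i => d ∣ a i), w i - X / (Nat.totient d : ℝ)|

end

end Pool.Agent.Lib.H59C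
end

-- from Lib.H59C.LSB
section

/-!
# LSB: from primitive characters to additive characters
-/

open Finset

namespace Pool.Agent.Lib.H59C

open Pool.Agent.Lib.H68T (PC p0 e)

theorem lsb_prim_inv {q : ℕ} {χ : DirichletCharacter ℂ q} (h : χ.IsPrimitive) :
    χ⁻¹.IsPrimitive := by
  rw [DirichletCharacter.isPrimitive_def] at h ⊢
  rw [DirichletCharacter.conductor_inv, h]

/-- abstract Parseval -/
theorem lsb_parseval {X B : Type*} [Fintype X] [Fintype B] [DecidableEq B] (u : X → B → ℂ) (c : ℝ)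
    (h : ∀ b b', ∑ x, (starRingEnd ℂ) (u x b) * u x b' = if b = b' then (c : ℂ) else 0)
    (f : B → ℂ) : ∑ x, ‖∑ b, u x b * f b‖ ^ 2 = c * ∑ b, ‖f b‖ ^ 2 := by
  have h1 : ∀ x, ((‖∑ b, u x b * f b‖ ^ 2 : ℝ) : ℂ) =
      ∑ b, ∑ b', (starRingEnd ℂ) (f b) * f b' * ((starRingEnd ℂ) (u x b) * u x b') := by
    intro x
    rw [Complex.ofReal_pow, ← Complex.conj_mul', map_sum, sum_mul_sum]
    refine sum_congr rfl fun b _ => sum_congr rfl fun b' _ => ?_
    rw [map_mul]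
    ring
  have h2 : ((∑ x, ‖∑ b, u x b * f b‖ ^ 2 : ℝ) : ℂ) = ((c * ∑ b, ‖f b‖ ^ 2 : ℝ) : ℂ) := by
    rw [Complex.ofReal_sum, sum_congr rfl fun x _ => h1 x, sum_comm, Complex.ofReal_mul,
      Complex.ofReal_sum, mul_sum]
    refine sum_congr rfl fun b _ => ?_
    rw [sum_comm, sum_congr rfl fun b' _ => (mul_sum _ _ _).symm]
    simp_rw [h]
    simp only [mul_ite, mul_zero, sum_ite_eq, mem_univ, if_true]
    rw [Complex.conj_mul', Complex.ofReal_pow, mul_comm]
  exact_mod_cast h2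

theorem lsb_sum_units (q : ℕ) [NeZero q] (G : ZMod q → ℂ) (hG : ∀ b, ¬ IsUnit b → G b = 0) :
    ∑ b, G b = ∑ b : (ZMod q)ˣ, G b := by
  classical
  have h1 : ∑ b : (ZMod q)ˣ, G b =
      ∑ b ∈ (univ : Finset (ZMod q)ˣ).map ⟨fun u : (ZMod q)ˣ => (u : ZMod q), fun _ _ h => Units.ext h⟩, G b := by
    rw [sum_map]
    rfl
  rw [h1]
  symm
  apply sum_subset (subset_univ _)
  intro b _ hb
  apply hG
  rintro ⟨u, rfl⟩
  apply hb
  rw [mem_map]
  exact ⟨u, mem_univ _, rfl⟩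

theorem lsb_conj {q : ℕ} [NeZero q] (χ : DirichletCharacter ℂ q) (b : (ZMod q)ˣ) :
    (starRingEnd ℂ) (χ (b : ZMod q)) = χ (((b : ZMod q))⁻¹) := by
  have h0 : ‖χ (b : ZMod q)‖ = 1 := χ.unit_norm_eq_one b
  have h1 : χ (((b : ZMod q))⁻¹) * χ (b : ZMod q) = 1 := by
    rw [← map_mul, ZMod.inv_mul_of_unit _ b.isUnit, map_one]
  have h2 : (starRingEnd ℂ) (χ (b : ZMod q)) * χ (b : ZMod q) = 1 := by
    rw [Complex.conj_mul', h0]
    norm_num
  have h3 : χ (b : ZMod q) ≠ 0 := by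
    rw [← norm_ne_zero_iff, h0]
    norm_num
  exact mul_right_cancel₀ h3 (h2.trans h1.symm)

/-- orthogonality in the form needed -/
theorem lsb_orth (q : ℕ) [NeZero q] (F : ZMod q → ℂ) :
    ∑ χ : DirichletCharacter ℂ q, ‖∑ b, χ b * F b‖ ^ 2 =
      (Nat.totient q : ℝ) * ∑ b : (ZMod q)ˣ, ‖F b‖ ^ 2 := by
  classical
  have h := lsb_parseval (fun (χ : DirichletCharacter ℂ q) (b : (ZMod q)ˣ) => χ (b : ZMod q))
    (Nat.totient q : ℝ) (by
      intro b b'
      simp_rw [lsb_conj]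
      rw [DirichletCharacter.sum_char_inv_mul_char_eq ℂ b.isUnit]
      simp only [Units.val_inj]
      split_ifs
      · norm_cast
      · norm_cast) (fun b => F (b : ZMod q))
  rw [← h]
  refine sum_congr rfl fun χ _ => ?_
  rw [lsb_sum_units q (fun b => χ b * F b) (fun b hb => by rw [MulChar.map_nonunit _ hb, zero_mul])]

theorem lsb_card (q : ℕ) [NeZero q] (χ : DirichletCharacter ℂ q) :
    ∑ b : ZMod q, ‖χ b‖ ^ 2 = (Nat.totient q : ℝ) := by
  classical
  have h1 : ∑ b : ZMod q, ((‖χ b‖ ^ 2 : ℝ) : ℂ) = ∑ b : (ZMod q)ˣ, ((‖χ (b : ZMod q)‖ ^ 2 : ℝ) : ℂ) :=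
    lsb_sum_units q (fun b => ((‖χ b‖ ^ 2 : ℝ) : ℂ)) (fun b hb => by
      rw [MulChar.map_nonunit _ hb]
      norm_num)
  have h2 : ∑ b : ZMod q, ‖χ b‖ ^ 2 = ∑ b : (ZMod q)ˣ, ‖χ (b : ZMod q)‖ ^ 2 := by
    exact_mod_cast h1
  rw [h2]
  have h3 : ∀ b : (ZMod q)ˣ, ‖χ (b : ZMod q)‖ ^ 2 = 1 := by
    intro b
    rw [χ.unit_norm_eq_one b, one_pow]
  rw [sum_congr rfl fun b _ => h3 b, sum_const, card_univ, ZMod.card_units_eq_totient, nsmul_one]

theorem lsb_gauss (q : ℕ) [NeZero q] {χ : DirichletCharacter ℂ q} (h : χ.IsPrimitive) :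
    ‖gaussSum χ (ZMod.stdAddChar (N := q))‖ ^ 2 = q := by
  classical
  have hq : (0 : ℝ) < Nat.totient q := by exact_mod_cast Nat.totient_pos.2 (NeZero.pos q)
  have h1 := lsb_parseval (fun (m b : ZMod q) => (ZMod.stdAddChar (b * m) : ℂ)) (q : ℝ) (by
    intro b b'
    have h2 := AddChar.sum_mulShift (b' - b) (ZMod.isPrimitive_stdAddChar q)
    rw [ZMod.card] at h2
    have h3 : ∀ x : ZMod q, (starRingEnd ℂ) (ZMod.stdAddChar (b * x) : ℂ) *
        ZMod.stdAddChar (b' * x) = ZMod.stdAddChar (x * (b' - b)) := by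
      intro x
      rw [← AddChar.map_neg_eq_conj, ← AddChar.map_add_eq_mul]
      congr 1
      ring
    rw [sum_congr rfl fun x _ => h3 x, h2]
    by_cases hb : b = b'
    · rw [if_pos hb, if_pos (by rw [hb, sub_self])]
      norm_cast
    · rw [if_neg hb, if_neg (by rw [sub_eq_zero]; exact fun h => hb h.symm)]
      norm_cast) (fun b => χ b)
  rw [lsb_card] at h1
  have h4 : ∀ m : ZMod q, ‖∑ b, (ZMod.stdAddChar (b * m) : ℂ) * χ b‖ ^ 2 =
      ‖χ⁻¹ m‖ ^ 2 * ‖gaussSum χ (ZMod.stdAddChar (N := q))‖ ^ 2 := by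
    intro m
    rw [← mul_pow, ← norm_mul, ← gaussSum_mulShift_of_isPrimitive _ h, gaussSum]
    congr 2
    refine sum_congr rfl fun b _ => ?_
    rw [AddChar.mulShift_apply, mul_comm, mul_comm b]
  rw [sum_congr rfl fun m _ => h4 m, ← sum_mul, lsb_card] at h1
  exact mul_left_cancel₀ hq.ne' (h1.trans (mul_comm _ _))

theorem lsb_units (q : ℕ) [NeZero q] (G : ZMod q → ℝ) : ∑ b : (ZMod q)ˣ, G b =
    ∑ b ∈ (range q).filter (fun b => Nat.Coprime b q), G (b : ZMod q) := by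
  classical
  symm
  refine sum_bij' (fun b hb => ZMod.unitOfCoprime b (mem_filter.1 hb).2)
    (fun u _ => (u : ZMod q).val) ?_ ?_ ?_ ?_ ?_
  · intro b hb
    exact mem_univ _
  · intro u _
    rw [mem_filter, mem_range]
    exact ⟨ZMod.val_lt _, ZMod.val_coe_unit_coprime u⟩
  · intro b hb
    rw [mem_filter, mem_range] at hb
    rw [ZMod.coe_unitOfCoprime, ZMod.val_natCast, Nat.mod_eq_of_lt hb.1]
  · intro u _
    apply Units.ext
    rw [ZMod.coe_unitOfCoprime, ZMod.natCast_zmod_val]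
  · intro b hb
    rw [ZMod.coe_unitOfCoprime]

theorem lsb_e (q : ℕ) [NeZero q] (m b : ℕ) : ZMod.stdAddChar ((b : ZMod q) * (m : ZMod q)) =
    e ((m : ℝ) * ((b : ℝ) / q)) := by
  have h := ZMod.stdAddChar_coe (N := q) ((b * m : ℕ) : ℤ)
  push_cast at h
  rw [h, e]
  congr 1
  push_cast
  ring

/-- For primitive `χ` mod `q` and all `m`: `χ̄(m) τ = ∑_b χ(b) e(m b/q)` with `|τ|² = q`, hence
`∑_{χ} |∑_m a_m χ̄(m)|² = q⁻¹ ∑_χ |∑_b χ(b) S(b/q)|²`, `S(α) = ∑_m a_m e(m α)`; extending the sum to ALL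
characters mod `q` and using orthogonality this is at most `φ(q)/q ∑_{(b,q)=1} |S(b/q)|²`. Apply it to the
set of the conjugates `χ̄`, `χ ∈ T`. (Mathlib: `gaussSum_mulShift_of_isPrimitive`, `ZMod.stdAddChar`,
`DirichletCharacter.IsPrimitive...`; `|τ|² = q` follows from Parseval: `∑_m |∑_b χ(b) e(m b/q)|² =
q ∑_b |χ(b)|² = q φ(q)` and `|χ̄(m) τ|² = |τ|²` for the `φ(q)` units `m`.) -/
theorem ls_gauss (q : ℕ) [NeZero q] (S : Finset ℕ) (a : ℕ → ℂ)
    (T : Finset (DirichletCharacter ℂ q)) (hT : ∀ χ ∈ T, χ.IsPrimitive) :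
    (q : ℝ) / (Nat.totient q : ℝ) * ∑ χ ∈ T, ‖∑ m ∈ S, a m * χ (m : ZMod q)‖ ^ 2 ≤
      ∑ b ∈ (range q).filter (fun b => Nat.Coprime b q),
        ‖∑ m ∈ S, a m * e ((m : ℝ) * ((b : ℝ) / q))‖ ^ 2 := by
  classical
  have hq : (0 : ℝ) < Nat.totient q := by exact_mod_cast Nat.totient_pos.2 (NeZero.pos q)
  obtain ⟨F, hF⟩ : ∃ F : ZMod q → ℂ, ∀ b, F b = ∑ m ∈ S, a m * ZMod.stdAddChar (b * (m : ZMod q)) :=
    ⟨_, fun _ => rfl⟩
  have h1 : ∑ b ∈ (range q).filter (fun b => Nat.Coprime b q),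
        ‖∑ m ∈ S, a m * e ((m : ℝ) * ((b : ℝ) / q))‖ ^ 2 = ∑ b : (ZMod q)ˣ, ‖F b‖ ^ 2 := by
    rw [lsb_units q (fun b => ‖F b‖ ^ 2)]
    refine sum_congr rfl fun b _ => ?_
    rw [hF]
    congr 2
    exact sum_congr rfl fun m _ => by rw [lsb_e]
  have h2 : ∀ χ ∈ T, (q : ℝ) * ‖∑ m ∈ S, a m * χ (m : ZMod q)‖ ^ 2 = ‖∑ b, χ⁻¹ b * F b‖ ^ 2 := by
    intro χ hχ
    have hp := lsb_prim_inv (hT χ hχ)
    have e1 : ∑ b, χ⁻¹ b * F b =
        (∑ m ∈ S, a m * χ (m : ZMod q)) * gaussSum χ⁻¹ (ZMod.stdAddChar (N := q)) := by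
      rw [sum_mul]
      have e2 : ∀ b, χ⁻¹ b * F b =
          ∑ m ∈ S, a m * (χ⁻¹ b * ZMod.stdAddChar (b * (m : ZMod q))) := by
        intro b
        rw [hF, mul_sum]
        exact sum_congr rfl fun m _ => by ring
      rw [sum_congr rfl fun b _ => e2 b, sum_comm]
      refine sum_congr rfl fun m _ => ?_
      rw [← mul_sum]
      have e3 := gaussSum_mulShift_of_isPrimitive (ZMod.stdAddChar (N := q)) hp (m : ZMod q)
      rw [inv_inv, gaussSum] at e3
      rw [mul_assoc, ← e3]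
      congr 1
      refine sum_congr rfl fun b _ => ?_
      rw [AddChar.mulShift_apply, mul_comm b]
    rw [e1, norm_mul, mul_pow, lsb_gauss q hp, mul_comm]
  have h3 : (q : ℝ) * ∑ χ ∈ T, ‖∑ m ∈ S, a m * χ (m : ZMod q)‖ ^ 2 ≤
      ∑ χ : DirichletCharacter ℂ q, ‖∑ b, χ b * F b‖ ^ 2 := by
    rw [mul_sum, sum_congr rfl h2]
    have e1 : ∑ χ ∈ T, ‖∑ b, χ⁻¹ b * F b‖ ^ 2 = ∑ χ ∈ T.map (Equiv.inv _).toEmbedding,
        ‖∑ b, χ b * F b‖ ^ 2 := by
      rw [sum_map]
      rfl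
    rw [e1]
    exact sum_le_sum_of_subset_of_nonneg (subset_univ _) fun χ _ _ => by positivity
  rw [lsb_orth, ← h1] at h3
  rw [div_mul_eq_mul_div, div_le_iff₀ hq, mul_comm _ (Nat.totient q : ℝ)]
  exact h3

end Pool.Agent.Lib.H59C
end

-- from Lib.H68T.KER
section

/-!
# Chunk KER: the kernel in terms of primitive characters
-/

open Finset

namespace Pool.Agent.Lib.H68T

theorem KER_sigma_eq {d r r' : ℕ} [NeZero d] (hr : r ∣ d) (hr' : r' ∣ d)
    (ψ : DirichletCharacter ℂ r) (ψ' : DirichletCharacter ℂ r') (h : r = r')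
    (he : DirichletCharacter.changeLevel hr ψ = DirichletCharacter.changeLevel hr' ψ') :
    (⟨r, ψ⟩ : Σ r : ℕ, DirichletCharacter ℂ r) = ⟨r', ψ'⟩ := by
  subst h
  rw [DirichletCharacter.changeLevel_injective hr he]

theorem KER_sum (Q d : ℕ) [NeZero d] [Fintype (DirichletCharacter ℂ d)] (hd : d ≤ Q)
    (F : (Σ r : ℕ, DirichletCharacter ℂ r) → ℂ) :
    ∑ χ : DirichletCharacter ℂ d, F ⟨χ.conductor, χ.primitiveCharacter⟩ =
      ∑ p ∈ (PC Q).filter (fun p => p.1 ∣ d), F p := by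
  refine Finset.sum_bij (fun χ _ => ⟨χ.conductor, χ.primitiveCharacter⟩) ?_ ?_ ?_ ?_
  · intro χ _
    rw [mem_filter, mem_PC]
    have h1 := χ.conductor_dvd_level
    have h2 := χ.conductor_ne_zero
    have h3 := Nat.le_of_dvd (Nat.pos_of_ne_zero (NeZero.ne d)) h1
    exact ⟨⟨Nat.one_le_iff_ne_zero.mpr h2, h3.trans hd, χ.primitiveCharacter_isPrimitive⟩, h1⟩
  · intro χ₁ _ χ₂ _ h
    rw [← χ₁.changeLevel_primitiveCharacter, ← χ₂.changeLevel_primitiveCharacter]
    have : ∀ (p p' : Σ r : ℕ, DirichletCharacter ℂ r) (hp : p.1 ∣ d) (hp' : p'.1 ∣ d), p = p' →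
        DirichletCharacter.changeLevel hp p.2 = DirichletCharacter.changeLevel hp' p'.2 := by
      rintro p p' hp hp' rfl
      rfl
    exact this _ _ χ₁.conductor_dvd_level χ₂.conductor_dvd_level h
  · rintro ⟨r, ψ⟩ hp
    rw [mem_filter, mem_PC] at hp
    obtain ⟨⟨h1, h2, h3⟩, h4⟩ := hp
    have hr : NeZero r := ⟨by simp only at h1; omega⟩
    refine ⟨DirichletCharacter.changeLevel h4 ψ, mem_univ _, ?_⟩
    have hc := DirichletCharacter.conductor_changeLevel ψ h4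
    rw [h3] at hc
    refine KER_sigma_eq (DirichletCharacter.conductor_dvd_level _) h4 _ _ hc ?_
    rw [DirichletCharacter.changeLevel_primitiveCharacter]
  · intro χ _
    rfl

theorem KER_orth (Q d n : ℕ) (m : ℤ) (hd0 : d ≠ 0) (hd : d ≤ Q) (hn : n.Coprime d)
    (hm : IsCoprime (d : ℤ) m) :
    ∑ p ∈ (PC Q).filter (fun p => p.1 ∣ d), p.2 (n : ZMod p.1) *
        (starRingEnd ℂ) (p.2 (m : ZMod p.1)) =
      if (d : ℤ) ∣ (n : ℤ) - m then (d.totient : ℂ) else 0 := by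
  have hne : NeZero d := ⟨hd0⟩
  rw [← KER_sum Q d hd (fun p => p.2 (n : ZMod p.1) * (starRingEnd ℂ) (p.2 (m : ZMod p.1)))]
  have hnz : IsCoprime (n : ℤ) (d : ℤ) := Nat.isCoprime_iff_coprime.mpr hn
  have hu : IsUnit ((m : ℤ) : ZMod d) := by
    rw [← ZMod.coe_unitOfIsCoprime m hm.symm]
    exact Units.isUnit _
  have h1 : ∀ χ : DirichletCharacter ℂ d,
      χ.primitiveCharacter (n : ZMod χ.conductor) *
        (starRingEnd ℂ) (χ.primitiveCharacter (m : ZMod χ.conductor)) =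
      χ ((m : ZMod d)⁻¹) * χ (n : ZMod d) := by
    intro χ
    have h2 := χ.primitiveCharacter_apply_of_isCoprime (a := (n : ℤ)) hnz
    have h3 := χ.primitiveCharacter_apply_of_isCoprime (a := m) hm.symm
    rw [Int.cast_natCast, Int.cast_natCast] at h2
    rw [h2, h3, mul_comm]
    congr 1
    have h5 : (starRingEnd ℂ) (χ (m : ZMod d)) = χ⁻¹ (m : ZMod d) := MulChar.star_apply' χ _
    have hone : χ ((m : ZMod d)⁻¹) * χ (m : ZMod d) = 1 := by
      rw [← map_mul, ZMod.inv_mul_of_unit _ hu, map_one]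
    rw [h5, MulChar.inv_apply_eq_inv']
    exact (eq_inv_of_mul_eq_one_left hone).symm
  simp_rw [h1]
  rw [DirichletCharacter.sum_char_inv_mul_char_eq ℂ hu (n : ZMod d)]
  have h4 : ((m : ZMod d) = (n : ZMod d)) ↔ (d : ℤ) ∣ (n : ℤ) - m := by
    rw [← ZMod.intCast_eq_intCast_iff_dvd_sub, Int.cast_natCast]
  simp only [h4]

/-- For a prime `n > Q` and any integer `m`,
`∑_{q ≤ Q} c_q(n - m) = ∑_{ψ primitive, conductor r ≤ Q} Γ_r(m) ψ(n) conj ψ(m)`.

Proof. `c_q(n-m) = ∑_{d ∣ q, d ∣ n - m} d μ(q/d)`. Here `d ≤ Q < n` so `(n, d) = 1`, and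
`d ∣ n - m` forces `(m, d) = 1`; for `(m,d) = (n,d) = 1`,
`[d ∣ n - m] = (1/φ(d)) ∑_{χ mod d} χ(n) conj χ(m)`
(`DirichletCharacter.sum_char_inv_mul_char_eq`). Every `χ` mod `d` is `changeLevel` of the
primitive character `χ.primitiveCharacter` of conductor `r ∣ d`
(`changeLevel_primitiveCharacter`, `conductor_changeLevel`), with the same values at integers
coprime to `d`; this is a bijection between the characters mod `d` and the pairs `(r, ψ)`,
`r ∣ d`, `ψ` primitive mod `r`. Exchange the sums. -/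
theorem kernel_char (Q : ℕ) (n : ℕ) (hn : n.Prime) (hQn : Q < n) (m : ℤ) :
    ((∑ q ∈ Icc 1 Q, cq q ((n : ℤ) - m) : ℝ) : ℂ) =
      ∑ p ∈ PC Q, (Gam Q p.1 m : ℂ) * (p.2 (n : ZMod p.1) *
        (starRingEnd ℂ) (p.2 (m : ZMod p.1))) := by
  set E : (Σ r : ℕ, DirichletCharacter ℂ r) → ℂ := fun p => p.2 (n : ZMod p.1) *
        (starRingEnd ℂ) (p.2 (m : ZMod p.1)) with hE
  -- the left side
  have hL : ∀ q ∈ Icc 1 Q, ((cq q ((n : ℤ) - m) : ℝ) : ℂ) =
      ∑ d ∈ q.divisors.filter (fun d : ℕ => IsCoprime (d : ℤ) m),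
        ((ArithmeticFunction.moebius (q / d) : ℝ) : ℂ) * ((d : ℂ) / (Nat.totient d : ℂ)) *
          ∑ p ∈ (PC Q).filter (fun p => p.1 ∣ d), E p := by
    intro q hq
    rw [mem_Icc] at hq
    unfold cq
    rw [Complex.ofReal_sum, Finset.sum_filter, Finset.sum_filter]
    refine Finset.sum_congr rfl fun d hd => ?_
    rw [Nat.mem_divisors] at hd
    have hd0 : d ≠ 0 := by
      rintro rfl
      exact hd.2 (Nat.eq_zero_of_zero_dvd hd.1)
    have hdq : d ≤ q := Nat.le_of_dvd (by omega) hd.1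
    have hdn : n.Coprime d := by
      rw [Nat.Prime.coprime_iff_not_dvd hn]
      intro h
      have := Nat.le_of_dvd (Nat.pos_of_ne_zero hd0) h
      omega
    have hphi : (d.totient : ℂ) ≠ 0 := by
      have := Nat.totient_pos.mpr (Nat.pos_of_ne_zero hd0)
      exact_mod_cast this.ne'
    by_cases hm : IsCoprime (d : ℤ) m
    · rw [if_pos hm, KER_orth Q d n m hd0 (hdq.trans hq.2) hdn hm]
      by_cases hdv : (d : ℤ) ∣ (n : ℤ) - m
      · rw [if_pos hdv, if_pos hdv]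
        push_cast
        field_simp
      · rw [if_neg hdv, if_neg hdv]
        simp
    · rw [if_neg hm, if_neg]
      intro hdv
      apply hm
      have h1 : IsCoprime (d : ℤ) (n : ℤ) := (Nat.isCoprime_iff_coprime.mpr hdn).symm
      obtain ⟨c, hc⟩ := hdv
      have h2 : m = (n : ℤ) + (d : ℤ) * (-c) := by linear_combination -hc
      rw [h2]
      exact IsCoprime.add_mul_left_right h1 (-c)
  rw [Complex.ofReal_sum, Finset.sum_congr rfl hL]
  -- exchange
  simp_rw [Finset.mul_sum, Finset.sum_filter]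
  have hswap : ∀ q ∈ Icc 1 Q,
      (∑ d ∈ q.divisors, if IsCoprime (d : ℤ) m then ∑ p ∈ PC Q, if p.1 ∣ d then
        ((ArithmeticFunction.moebius (q / d) : ℝ) : ℂ) * ((d : ℂ) / (Nat.totient d : ℂ)) * E p
          else 0 else 0) =
      ∑ p ∈ PC Q, ((∑ d ∈ q.divisors.filter (fun d : ℕ => p.1 ∣ d ∧ IsCoprime (d : ℤ) m),
        (ArithmeticFunction.moebius (q / d) : ℝ) * ((d : ℝ) / (Nat.totient d : ℝ)) : ℝ) : ℂ)
          * E p := by
    intro q _
    have h1 : ∀ d ∈ q.divisors, (if IsCoprime (d : ℤ) m then ∑ p ∈ PC Q, if p.1 ∣ d then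
        ((ArithmeticFunction.moebius (q / d) : ℝ) : ℂ) * ((d : ℂ) / (Nat.totient d : ℂ)) * E p
          else 0 else 0) = ∑ p ∈ PC Q, if p.1 ∣ d ∧ IsCoprime (d : ℤ) m then
        ((ArithmeticFunction.moebius (q / d) : ℝ) : ℂ) * ((d : ℂ) / (Nat.totient d : ℂ)) * E p
          else 0 := by
      intro d _
      by_cases hm : IsCoprime (d : ℤ) m
      · simp [hm]
      · simp [hm]
    rw [Finset.sum_congr rfl h1, Finset.sum_comm]
    refine Finset.sum_congr rfl fun p _ => ?_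
    rw [Complex.ofReal_sum, Finset.sum_mul, Finset.sum_filter]
    refine Finset.sum_congr rfl fun d _ => ?_
    split_ifs <;> push_cast <;> ring
  rw [Finset.sum_congr rfl hswap, Finset.sum_comm]
  refine Finset.sum_congr rfl fun p hp => ?_
  rw [← Finset.sum_mul]
  congr 1
  unfold Gam
  rw [Complex.ofReal_sum, Finset.sum_filter]
  refine Finset.sum_congr rfl fun q hq => ?_
  split_ifs with hpq
  · rfl
  · rw [Finset.filter_false_of_mem]
    · simp
    · intro d hd h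
      rw [Nat.mem_divisors] at hd
      exact hpq (h.1.trans hd.1)

end Pool.Agent.Lib.H68T
end

-- from Lib.H68T.PV
section

/-!
# Chunk PV: correlations and Parseval
-/

open Finset

namespace Pool.Agent.Lib.H68T

theorem PV_e_add (x y : ℝ) : e (x + y) = e x * e y := by
  unfold e
  rw [← Complex.exp_add]
  congr 1
  push_cast
  ring

theorem PV_e_conj (x : ℝ) : (starRingEnd ℂ) (e x) = e (-x) := by
  unfold e
  rw [← Complex.exp_conj]
  congr 1
  simp only [map_mul, Complex.conj_ofReal, Complex.conj_I, map_ofNat]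
  push_cast
  ring

theorem PV_e_pow (x : ℝ) (n : ℕ) : e (n * x) = e x ^ n := by
  unfold e
  rw [← Complex.exp_nat_mul]
  congr 1
  push_cast
  ring

theorem PV_e_int (n : ℤ) : e n = 1 := by
  unfold e
  rw [Complex.exp_eq_one_iff]
  exact ⟨n, by push_cast; ring⟩

theorem PV_e_ne_one (N : ℕ) (hN : 0 < N) (k : ℤ) (hk : |k| < N) (hk0 : k ≠ 0) :
    e ((k : ℝ) / N) ≠ 1 := by
  unfold e
  rw [Ne, Complex.exp_eq_one_iff]
  rintro ⟨n, hn⟩
  have h1 : ((k : ℝ) / N : ℂ) = (n : ℂ) := by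
    have h2 : (2 * Real.pi * Complex.I : ℂ) ≠ 0 := Complex.two_pi_I_ne_zero
    apply mul_right_cancel₀ h2
    rw [← hn]
    push_cast
    ring
  have hN' : (N : ℂ) ≠ 0 := by exact_mod_cast hN.ne'
  rw [div_eq_iff hN'] at h1
  have h3 : k = n * N := by exact_mod_cast h1
  have h4 : n ≠ 0 := by
    rintro rfl
    exact hk0 (by rw [h3]; simp)
  have h5 : (1 : ℤ) ≤ |n| := Int.one_le_abs h4
  rw [h3, abs_mul, Nat.abs_cast] at hk
  have : (N : ℤ) > 0 := by exact_mod_cast hN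
  nlinarith

theorem PV_ortho (N : ℕ) (hN : 0 < N) (a : ℕ) (k : ℤ) (hk : |k| < N) :
    ∑ j ∈ Ico a (a + N), e ((j : ℝ) * ((k : ℝ) / N)) = if k = 0 then (N : ℂ) else 0 := by
  have hNr : (N : ℝ) ≠ 0 := by exact_mod_cast hN.ne'
  rw [Finset.sum_Ico_eq_sum_range]
  have h1 : ∀ j : ℕ, e (((a + j : ℕ) : ℝ) * ((k : ℝ) / N)) =
      e ((k : ℝ) / N) ^ a * e ((k : ℝ) / N) ^ j := by
    intro j
    rw [PV_e_pow, pow_add]
  simp only [h1, Nat.add_sub_cancel_left]
  rw [← Finset.mul_sum]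
  split_ifs with h0
  · subst h0
    have : e (((0 : ℤ) : ℝ) / N) = 1 := by
      have := PV_e_int 0
      simpa using this
    rw [this]
    simp
  · have hne := PV_e_ne_one N hN k hk h0
    have hpow : e ((k : ℝ) / N) ^ N = 1 := by
      rw [← PV_e_pow]
      have : (N : ℝ) * ((k : ℝ) / N) = ((k : ℤ) : ℝ) := by field_simp
      rw [this]
      exact PV_e_int k
    rw [geom_sum_eq hne, hpow]
    simp

theorem PV_parseval (N : ℕ) (hN : 0 < N) (a a' : ℕ) (b : ℕ → ℂ) :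
    ∑ j ∈ Ico a' (a' + N), ‖∑ t ∈ Ico a (a + N), b t * e ((j : ℝ) * ((t : ℝ) / N))‖ ^ 2 =
      N * ∑ t ∈ Ico a (a + N), ‖b t‖ ^ 2 := by
  have hC : ((∑ j ∈ Ico a' (a' + N), ‖∑ t ∈ Ico a (a + N), b t * e ((j : ℝ) * ((t : ℝ) / N))‖ ^ 2 :
      ℝ) : ℂ) = ((N * ∑ t ∈ Ico a (a + N), ‖b t‖ ^ 2 : ℝ) : ℂ) := by
    have hsq : ∀ z : ℂ, ((‖z‖ ^ 2 : ℝ) : ℂ) = z * (starRingEnd ℂ) z := by
      intro z
      rw [Complex.mul_conj, Complex.normSq_eq_norm_sq]
    push_cast
    have h1 : ∀ j : ℕ, ((‖∑ t ∈ Ico a (a + N), b t * e ((j : ℝ) * ((t : ℝ) / N))‖ : ℝ) : ℂ) ^ 2 =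
        ∑ t ∈ Ico a (a + N), ∑ t' ∈ Ico a (a + N), b t * (starRingEnd ℂ) (b t') *
          e ((j : ℝ) * ((((t : ℤ) - t' : ℤ) : ℝ) / N)) := by
      intro j
      have := hsq (∑ t ∈ Ico a (a + N), b t * e ((j : ℝ) * ((t : ℝ) / N)))
      push_cast at this
      rw [this, map_sum, Finset.sum_mul_sum]
      refine Finset.sum_congr rfl fun t _ => Finset.sum_congr rfl fun t' _ => ?_
      rw [map_mul, PV_e_conj]
      have h2 : (j : ℝ) * ((((t : ℤ) - t' : ℤ) : ℝ) / N) =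
          (j : ℝ) * ((t : ℝ) / N) + -((j : ℝ) * ((t' : ℝ) / N)) := by
        push_cast
        ring
      rw [h2, PV_e_add]
      ring
    simp only [h1]
    rw [Finset.sum_comm, Finset.mul_sum]
    refine Finset.sum_congr rfl fun t ht => ?_
    rw [Finset.sum_comm]
    have h3 : ∀ t' ∈ Ico a (a + N), ∑ j ∈ Ico a' (a' + N), b t * (starRingEnd ℂ) (b t') *
        e ((j : ℝ) * ((((t : ℤ) - t' : ℤ) : ℝ) / N)) =
        if t = t' then (N : ℂ) * (b t * (starRingEnd ℂ) (b t')) else 0 := by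
      intro t' ht'
      rw [← Finset.mul_sum]
      rw [mem_Ico] at ht ht'
      rw [PV_ortho N hN a' ((t : ℤ) - t') (by rw [abs_lt]; omega)]
      by_cases h : t = t'
      · subst h
        simp only [sub_self, if_true]
        ring
      · rw [if_neg h, if_neg (by omega), mul_zero]
    rw [Finset.sum_congr rfl h3, Finset.sum_ite_eq, if_pos ht]
    have := hsq (b t)
    push_cast at this
    rw [this]
  exact_mod_cast hC


end Pool.Agent.Lib.H68T
end

-- from Lib.H68T.GAM1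
section

/-!
# Chunk GAM1; part of GAM: the coefficients `Γ_r(m)`
-/

open Finset

namespace Pool.Agent.Lib.H68T

/-- `n/φ(n) = ∏_{p ∣ n} p/(p-1)` -/
theorem GAM_ratio (n : ℕ) (hn : n ≠ 0) :
    (n : ℝ) / Nat.totient n = ∏ p ∈ n.primeFactors, ((p : ℝ) / (p - 1)) := by
  have h := Nat.totient_eq_mul_prod_factors n
  have h' : (Nat.totient n : ℝ) = n * ∏ p ∈ n.primeFactors, (1 - (p : ℝ)⁻¹) := by
    have := congrArg (fun x : ℚ => (x : ℝ)) h
    simpa using this
  have hn' : (n : ℝ) ≠ 0 := by exact_mod_cast hn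
  rw [h', ← div_div, div_self hn', one_div, ← Finset.prod_inv_distrib]
  refine Finset.prod_congr rfl (fun p hp => ?_)
  have hp1 := (Nat.prime_of_mem_primeFactors hp).one_lt
  have hp2 : (1 : ℝ) < p := by exact_mod_cast hp1
  have h1 : (p : ℝ) ≠ 0 := by linarith
  have h2 : (p : ℝ) - 1 ≠ 0 := by linarith
  have h3 : 1 - (p : ℝ)⁻¹ = (p - 1) / p := by field_simp
  rw [h3, inv_div]

theorem GAM_ratio_mul (r d : ℕ) (hr : r ≠ 0) (hd : d ≠ 0) :
    ((r * d : ℕ) : ℝ) / Nat.totient (r * d) = (r : ℝ) / Nat.totient r *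
      ∏ p ∈ d.primeFactors.filter (fun p => ¬ p ∣ r), ((p : ℝ) / (p - 1)) := by
  rw [GAM_ratio _ (mul_ne_zero hr hd), GAM_ratio r hr, Nat.primeFactors_mul hr hd]
  have h : r.primeFactors ∪ d.primeFactors =
      r.primeFactors ∪ d.primeFactors.filter (fun p => ¬ p ∣ r) := by
    ext p
    simp only [mem_union, mem_filter, Nat.mem_primeFactors]
    tauto
  rw [h, Finset.prod_union]
  rw [Finset.disjoint_left]
  intro p hp hp'
  rw [mem_filter] at hp'
  exact hp'.2 (Nat.dvd_of_mem_primeFactors hp)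

/-- The normalised ratio `(r d/φ(r d))/(r/φ(r))` for `d` coprime to `m`. -/
noncomputable def GAM_g (r : ℕ) (m : ℤ) : ArithmeticFunction ℝ :=
  ⟨fun d => if d = 0 then 0 else if IsCoprime (d : ℤ) m then
    ∏ p ∈ d.primeFactors.filter (fun p => ¬ p ∣ r), ((p : ℝ) / (p - 1)) else 0, by simp⟩

theorem GAM_g_apply (r : ℕ) (m : ℤ) (d : ℕ) (hd : d ≠ 0) : GAM_g r m d =
    if IsCoprime (d : ℤ) m then
      ∏ p ∈ d.primeFactors.filter (fun p => ¬ p ∣ r), ((p : ℝ) / (p - 1)) else 0 := by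
  change (if d = 0 then 0 else _) = _
  rw [if_neg hd]

theorem GAM_g_mult (r : ℕ) (m : ℤ) : (GAM_g r m).IsMultiplicative := by
  rw [ArithmeticFunction.IsMultiplicative.iff_ne_zero]
  refine ⟨?_, ?_⟩
  · rw [GAM_g_apply _ _ _ one_ne_zero]
    simp [isCoprime_one_left]
  · intro a b ha hb hab
    rw [GAM_g_apply _ _ _ (mul_ne_zero ha hb), GAM_g_apply _ _ _ ha, GAM_g_apply _ _ _ hb]
    have hc : IsCoprime ((a * b : ℕ) : ℤ) m ↔ IsCoprime (a : ℤ) m ∧ IsCoprime (b : ℤ) m := by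
      rw [Nat.cast_mul, IsCoprime.mul_left_iff]
    by_cases h1 : IsCoprime (a : ℤ) m
    · by_cases h2 : IsCoprime (b : ℤ) m
      · rw [if_pos (hc.mpr ⟨h1, h2⟩), if_pos h1, if_pos h2, hab.primeFactors_mul, Finset.filter_union,
          Finset.prod_union]
        exact Finset.disjoint_filter_filter hab.disjoint_primeFactors
      · rw [if_neg (fun h => h2 (hc.mp h).2), if_neg h2, mul_zero]
    · rw [if_neg (fun h => h1 (hc.mp h).1), if_neg h1, zero_mul]

theorem GAM_g_prime_pow (r : ℕ) (m : ℤ) (p k : ℕ) (hp : p.Prime) :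
    GAM_g r m (p ^ (k + 1)) = if (p : ℤ) ∣ m then 0 else if p ∣ r then 1 else (p : ℝ) / (p - 1) := by
  rw [GAM_g_apply _ _ _ (pow_ne_zero _ hp.ne_zero)]
  have h1 : IsCoprime ((p ^ (k + 1) : ℕ) : ℤ) m ↔ ¬ (p : ℤ) ∣ m := by
    rw [Nat.cast_pow, IsCoprime.pow_left_iff (Nat.succ_pos k)]
    exact (Nat.prime_iff_prime_int.mp hp).coprime_iff_not_dvd
  by_cases h : (p : ℤ) ∣ m
  · rw [if_neg (by rw [h1]; exact fun h' => h' h), if_pos h]
  · rw [if_pos (h1.mpr h), if_neg h, Nat.primeFactors_prime_pow (Nat.succ_ne_zero k) hp]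
    by_cases h2 : p ∣ r
    · rw [if_pos h2, Finset.filter_singleton, if_neg (fun h => h h2), Finset.prod_empty]
    · rw [if_neg h2, Finset.filter_singleton, if_pos h2, Finset.prod_singleton]

/-- The convolution of `GAM_g` with the Möbius function. -/
noncomputable def GAM_F (r : ℕ) (m : ℤ) : ArithmeticFunction ℝ :=
  (ArithmeticFunction.moebius : ArithmeticFunction ℝ) * GAM_g r m

theorem GAM_F_mult (r : ℕ) (m : ℤ) : (GAM_F r m).IsMultiplicative :=
  ArithmeticFunction.isMultiplicative_moebius.intCast.mul (GAM_g_mult r m)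

theorem GAM_F_apply (r : ℕ) (m : ℤ) (q : ℕ) : GAM_F r m q =
    ∑ d ∈ q.divisors, (ArithmeticFunction.moebius (q / d) : ℝ) * GAM_g r m d := by
  unfold GAM_F
  rw [ArithmeticFunction.mul_apply]
  exact Nat.sum_divisorsAntidiagonal'
    (fun a b => ((ArithmeticFunction.moebius a : ℤ) : ℝ) * GAM_g r m b)

theorem GAM_mu_conv (f : ℕ → ℝ) (p k : ℕ) (hp : p.Prime) :
    ∑ d ∈ (p ^ (k + 1)).divisors, (ArithmeticFunction.moebius (p ^ (k + 1) / d) : ℝ) * f d =
      f (p ^ (k + 1)) - f (p ^ k) := by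
  rw [Nat.sum_divisors_prime_pow hp, Finset.sum_range_succ, Finset.sum_range_succ,
    Finset.sum_eq_zero]
  · rw [Nat.div_self (pow_pos hp.pos _), pow_succ p k, Nat.mul_div_cancel_left _ (pow_pos hp.pos _)]
    rw [ArithmeticFunction.moebius_apply_one, ArithmeticFunction.moebius_apply_prime hp]
    push_cast
    ring
  · intro j hj
    rw [mem_range] at hj
    rw [Nat.pow_div (by omega) hp.pos, ArithmeticFunction.moebius_apply_prime_pow hp (by omega),
      if_neg (by omega)]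
    simp

theorem GAM_F_prime (r : ℕ) (m : ℤ) (p : ℕ) (hp : p.Prime) : GAM_F r m p =
    if (p : ℤ) ∣ m then -1 else if p ∣ r then 0 else 1 / ((p : ℝ) - 1) := by
  have h := GAM_F_apply r m (p ^ (0 + 1))
  rw [GAM_mu_conv _ _ _ hp, GAM_g_prime_pow _ _ _ _ hp, pow_zero, (GAM_g_mult r m).1, zero_add,
    pow_one] at h
  rw [h]
  have hp2 : (1 : ℝ) < p := by exact_mod_cast hp.one_lt
  have h2 : (p : ℝ) - 1 ≠ 0 := by linarith
  split_ifs
  · ring
  · ring
  · field_simp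
    ring

theorem GAM_F_prime_pow (r : ℕ) (m : ℤ) (p k : ℕ) (hp : p.Prime) :
    GAM_F r m (p ^ (k + 2)) = 0 := by
  rw [GAM_F_apply r m (p ^ (k + 1 + 1)), GAM_mu_conv _ _ _ hp, GAM_g_prime_pow _ _ _ _ hp,
    GAM_g_prime_pow _ _ _ _ hp, sub_self]

/-- For `r` coprime to `m` the inner sum of `Γ_r`. -/
theorem GAM_inner (r : ℕ) (m : ℤ) (hr : r ≠ 0) (hrm : IsCoprime (r : ℤ) m) (q : ℕ) (hq : q ≠ 0) :
    ∑ d ∈ (r * q).divisors.filter (fun d => r ∣ d ∧ IsCoprime (d : ℤ) m),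
      (ArithmeticFunction.moebius (r * q / d) : ℝ) * ((d : ℝ) / (Nat.totient d : ℝ)) =
    (r : ℝ) / Nat.totient r * GAM_F r m q := by
  rw [GAM_F_apply, Finset.mul_sum]
  have himg : (r * q).divisors.filter (fun d => r ∣ d ∧ IsCoprime (d : ℤ) m) =
      (q.divisors.filter (fun d : ℕ => IsCoprime (d : ℤ) m)).image (fun d => r * d) := by
    ext d
    simp only [mem_filter, Nat.mem_divisors, mem_image]
    constructor
    · rintro ⟨⟨h1, h2⟩, ⟨e, rfl⟩, h4⟩
      refine ⟨e, ⟨⟨(Nat.mul_dvd_mul_iff_left (Nat.pos_of_ne_zero hr)).mp h1, hq⟩, ?_⟩, rfl⟩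
      rw [Nat.cast_mul, IsCoprime.mul_left_iff] at h4
      exact h4.2
    · rintro ⟨e, ⟨⟨h1, h2⟩, h3⟩, rfl⟩
      refine ⟨⟨Nat.mul_dvd_mul_left r h1, mul_ne_zero hr hq⟩, Dvd.intro _ rfl, ?_⟩
      rw [Nat.cast_mul, IsCoprime.mul_left_iff]
      exact ⟨hrm, h3⟩
  rw [himg, Finset.sum_image (fun a _ b _ h => Nat.eq_of_mul_eq_mul_left (Nat.pos_of_ne_zero hr) h),
    Finset.sum_filter]
  refine Finset.sum_congr rfl (fun d hd => ?_)
  have hd0 : d ≠ 0 := (Nat.pos_of_mem_divisors hd).ne'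
  rw [GAM_g_apply _ _ _ hd0, Nat.mul_div_mul_left _ _ (Nat.pos_of_ne_zero hr)]
  split_ifs
  · rw [GAM_ratio_mul r d hr hd0]
    ring
  · simp

/-- `h(d) = d` if `d ∣ m` -/
noncomputable def GAM_h (m : ℤ) : ArithmeticFunction ℝ :=
  ⟨fun d => if (d : ℤ) ∣ m then (d : ℝ) else 0, by simp⟩

theorem GAM_h_apply (m : ℤ) (d : ℕ) : GAM_h m d = if (d : ℤ) ∣ m then (d : ℝ) else 0 := rfl

theorem GAM_h_mult (m : ℤ) : (GAM_h m).IsMultiplicative := by
  refine ⟨by simp [GAM_h_apply], ?_⟩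
  intro a b hab
  rw [GAM_h_apply, GAM_h_apply, GAM_h_apply]
  have h : ((a * b : ℕ) : ℤ) ∣ m ↔ (a : ℤ) ∣ m ∧ (b : ℤ) ∣ m := by
    rw [Nat.cast_mul]
    constructor
    · intro h
      exact ⟨(Dvd.intro _ rfl).trans h, (Dvd.intro_left _ rfl).trans h⟩
    · rintro ⟨h1, h2⟩
      exact IsCoprime.mul_dvd (Nat.isCoprime_iff_coprime.mpr hab) h1 h2
  by_cases h1 : (a : ℤ) ∣ m
  · by_cases h2 : (b : ℤ) ∣ m
    · rw [if_pos (h.mpr ⟨h1, h2⟩), if_pos h1, if_pos h2]
      push_cast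
      ring
    · rw [if_neg (fun h' => h2 (h.mp h').2), if_neg h2, mul_zero]
  · rw [if_neg (fun h' => h1 (h.mp h').1), if_neg h1, zero_mul]

/-- `c_q(m)` as an arithmetic function of `q` -/
noncomputable def GAM_c (m : ℤ) : ArithmeticFunction ℝ :=
  (ArithmeticFunction.moebius : ArithmeticFunction ℝ) * GAM_h m

theorem GAM_c_apply (m : ℤ) (q : ℕ) : GAM_c m q = cq q m := by
  unfold GAM_c cq
  rw [ArithmeticFunction.mul_apply, Finset.sum_filter]
  rw [Nat.sum_divisorsAntidiagonal'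
    (fun a b => ((ArithmeticFunction.moebius : ArithmeticFunction ℝ) a) * GAM_h m b)]
  refine Finset.sum_congr rfl (fun d hd => ?_)
  rw [GAM_h_apply]
  split_ifs
  · rw [mul_comm]
    rfl
  · simp

theorem GAM_c_mult (m : ℤ) : (GAM_c m).IsMultiplicative :=
  ArithmeticFunction.isMultiplicative_moebius.intCast.mul (GAM_h_mult m)

/-- The totient as a real arithmetic function. -/
noncomputable def GAM_phi : ArithmeticFunction ℝ := ⟨fun n => (Nat.totient n : ℝ), by simp⟩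

theorem GAM_phi_mult : GAM_phi.IsMultiplicative := by
  refine ⟨by simp [GAM_phi], ?_⟩
  intro a b hab
  change ((Nat.totient (a * b) : ℕ) : ℝ) = (Nat.totient a : ℝ) * (Nat.totient b : ℝ)
  rw [Nat.totient_mul hab]
  push_cast
  ring

theorem GAM_identity (m : ℤ) : GAM_F 1 m =
    (((ArithmeticFunction.moebius : ArithmeticFunction ℤ) : ArithmeticFunction ℝ).pmul
      (GAM_c m)).pdiv GAM_phi := by
  rw [ArithmeticFunction.IsMultiplicative.eq_iff_eq_on_prime_powers _ (GAM_F_mult 1 m) _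
    ((ArithmeticFunction.isMultiplicative_moebius.intCast.pmul (GAM_c_mult m)).pdiv GAM_phi_mult)]
  intro p i hp
  rcases i with _ | _ | k
  · rw [pow_zero, (GAM_F_mult 1 m).1]
    exact ((ArithmeticFunction.isMultiplicative_moebius.intCast.pmul (GAM_c_mult m)).pdiv
      GAM_phi_mult).1.symm
  · rw [zero_add, pow_one, GAM_F_prime _ _ _ hp, ArithmeticFunction.pdiv_apply,
      ArithmeticFunction.pmul_apply, GAM_c_apply]
    have hc : cq p m = -1 + if (p : ℤ) ∣ m then (p : ℝ) else 0 := by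
      unfold cq
      rw [Finset.sum_filter, hp.divisors, Finset.sum_pair hp.one_lt.ne, Nat.div_one,
        Nat.div_self hp.pos, ArithmeticFunction.moebius_apply_one,
        ArithmeticFunction.moebius_apply_prime hp]
      simp
    have hphi : GAM_phi p = (p : ℝ) - 1 := by
      change ((Nat.totient p : ℕ) : ℝ) = _
      rw [Nat.totient_prime hp, Nat.cast_sub hp.one_lt.le, Nat.cast_one]
    have hmu : ((ArithmeticFunction.moebius : ArithmeticFunction ℤ) : ArithmeticFunction ℝ) p = -1 := by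
      rw [ArithmeticFunction.intCoe_apply, ArithmeticFunction.moebius_apply_prime hp]
      simp
    rw [hc, hphi, hmu]
    have hp2 : (1 : ℝ) < p := by exact_mod_cast hp.one_lt
    have h2 : (p : ℝ) - 1 ≠ 0 := by linarith
    have h3 : ¬ p ∣ 1 := fun h => hp.one_lt.ne' (Nat.dvd_one.mp h)
    split_ifs
    · field_simp
      ring
    · field_simp
      ring
  · rw [GAM_F_prime_pow _ _ _ _ hp, ArithmeticFunction.pdiv_apply,
      ArithmeticFunction.pmul_apply, ArithmeticFunction.intCoe_apply,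
      ArithmeticFunction.moebius_apply_prime_pow hp (by omega), if_neg (by omega)]
    simp

/-- `Γ_1 = G`: for every `q`, `∑_{d ∣ q, (d,m)=1} μ(q/d) d/φ(d) = μ(q) c_q(m)/φ(q)`. Both sides are
multiplicative in `q` (Dirichlet convolution of `μ` with `d ↦ [(d,m)=1] d/φ(d)`); at `q = p` both
are `1/(p-1)` if `p ∤ m` and `-1` if `p ∣ m`; at `q = p^j`, `j ≥ 2`, both are `0`
(`ArithmeticFunction.IsMultiplicative.eq_iff_eq_on_prime_powers`, or direct for squarefree `q`). -/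
theorem Gam_one (Q : ℕ) (m : ℤ) : Gam Q 1 m = G Q m := by
  unfold Gam G
  have h1 : (Icc 1 Q).filter (fun q => 1 ∣ q) = Icc 1 Q :=
    Finset.filter_true_of_mem (fun q _ => one_dvd q)
  rw [h1]
  refine Finset.sum_congr rfl (fun q hq => ?_)
  rw [mem_Icc] at hq
  have h := GAM_inner 1 m one_ne_zero (by simpa using isCoprime_one_left) q (by omega)
  rw [one_mul] at h
  rw [h, GAM_identity, ArithmeticFunction.pdiv_apply, ArithmeticFunction.pmul_apply, GAM_c_apply,
    ArithmeticFunction.intCoe_apply]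
  simp only [Nat.cast_one, Nat.totient_one, div_one, one_mul]
  change _ / ((Nat.totient q : ℕ) : ℝ) = _
  ring

end Pool.Agent.Lib.H68T
end

-- from Lib.H68T.GAM2
section

/-!
# Chunk GAM2; part of GAM: the coefficients `Γ_r(m)`
-/

open Finset

namespace Pool.Agent.Lib.H68T

/-- `∏_{s ∈ S} s/(s-1) ≤ |S| + 1` for a finite set of integers `≥ 2`. -/
theorem GAM_prod_le (S : Finset ℕ) (hS : ∀ s ∈ S, 2 ≤ s) :
    ∏ s ∈ S, ((s : ℝ) / (s - 1)) ≤ (S.card : ℝ) + 1 := by
  induction S using Finset.induction_on_max with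
  | empty => simp
  | insert a s hlt ih =>
    have ha : a ∉ s := fun h => lt_irrefl _ (hlt a h)
    have ih' := ih (fun x hx => hS x (mem_insert_of_mem hx))
    rw [Finset.prod_insert ha, Finset.card_insert_of_notMem ha]
    have hcard : s.card + 2 ≤ a := by
      have h1 : s ⊆ Ico 2 a := by
        intro x hx
        rw [mem_Ico]
        exact ⟨hS x (mem_insert_of_mem hx), hlt x hx⟩
      have h2 := Finset.card_le_card h1
      rw [Nat.card_Ico] at h2
      have h3 := hS a (mem_insert_self a s)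
      omega
    have hc : (s.card : ℝ) + 2 ≤ a := by exact_mod_cast hcard
    have hs0 : (0 : ℝ) ≤ s.card := Nat.cast_nonneg _
    have ha1 : (0 : ℝ) < (a : ℝ) - 1 := by linarith
    have h4 : (a : ℝ) / (a - 1) ≤ ((s.card : ℝ) + 2) / (s.card + 1) := by
      rw [div_le_div_iff₀ ha1 (by linarith)]
      nlinarith
    calc (a : ℝ) / (a - 1) * ∏ x ∈ s, ((x : ℝ) / (x - 1))
        ≤ ((s.card : ℝ) + 2) / (s.card + 1) * ((s.card : ℝ) + 1) := by
          refine mul_le_mul h4 ih' (Finset.prod_nonneg (fun x hx => ?_)) (by positivity)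
          have hx2 : (2 : ℝ) ≤ x := by exact_mod_cast hS x (mem_insert_of_mem hx)
          exact div_nonneg (by linarith) (by linarith)
      _ = (s.card : ℝ) + 2 := by
          rw [div_mul_cancel₀]
          linarith
      _ = _ := by push_cast; ring

/-- `r/φ(r) ≤ 1 + log r/log 2` -/
theorem GAM_ratio_le (r : ℕ) (hr : r ≠ 0) :
    (r : ℝ) / Nat.totient r ≤ 10 * (1 + Real.log r) := by
  rw [GAM_ratio r hr]
  have h1 := GAM_prod_le r.primeFactors (fun p hp => (Nat.prime_of_mem_primeFactors hp).two_le)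
  have h2 : 2 ^ r.primeFactors.card ≤ r := by
    calc 2 ^ r.primeFactors.card ≤ ∏ p ∈ r.primeFactors, p :=
          Finset.pow_card_le_prod _ _ _ (fun p hp => (Nat.prime_of_mem_primeFactors hp).two_le)
      _ ≤ r := Nat.le_of_dvd (Nat.pos_of_ne_zero hr) (Nat.prod_primeFactors_dvd r)
  have h3 : (r.primeFactors.card : ℝ) * Real.log 2 ≤ Real.log r := by
    rw [← Real.log_pow]
    refine Real.log_le_log (by positivity) ?_
    exact_mod_cast h2
  have h4 := Real.log_two_gt_d9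
  have h5 : (0 : ℝ) ≤ r.primeFactors.card := Nat.cast_nonneg _
  nlinarith

/-- absolute value of `F` at squarefree arguments -/
theorem GAM_F_abs (r : ℕ) (m : ℤ) (q : ℕ) (hq : q ≠ 0) :
    |GAM_F r m q| ≤ if Squarefree q then
      1 / (Nat.totient (q / Nat.gcd q m.natAbs) : ℝ) else 0 := by
  by_cases hsq : Squarefree q
  · rw [if_pos hsq, ← (GAM_F_mult r m).prod_primeFactors hsq, Finset.abs_prod]
    set g := Nat.gcd q m.natAbs with hg
    have hgq : g ∣ q := Nat.gcd_dvd_left _ _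
    have hqg : q = g * (q / g) := (Nat.mul_div_cancel' hgq).symm
    have hsq' : Squarefree (q / g) := hsq.squarefree_of_dvd (Nat.div_dvd_of_dvd hgq)
    have hpf : (q / g).primeFactors = q.primeFactors.filter (fun p : ℕ => ¬ (p : ℤ) ∣ m) := by
      ext p
      rw [mem_filter, Nat.mem_primeFactors, Nat.mem_primeFactors]
      constructor
      · rintro ⟨hp, hpq, -⟩
        refine ⟨⟨hp, hpq.trans (Nat.div_dvd_of_dvd hgq), hq⟩, ?_⟩
        intro hpm
        have h1 : p ∣ g := by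
          rw [hg]
          exact Nat.dvd_gcd (hpq.trans (Nat.div_dvd_of_dvd hgq)) (Int.natCast_dvd.mp hpm)
        have h2 : p * p ∣ q := by
          rw [hqg]
          exact Nat.mul_dvd_mul h1 hpq
        exact hp.one_lt.ne' (Nat.isUnit_iff.mp (hsq p h2))
      · rintro ⟨⟨hp, hpq, -⟩, hpm⟩
        refine ⟨hp, ?_, hsq'.ne_zero⟩
        rw [hqg] at hpq
        rcases hp.dvd_mul.mp hpq with h | h
        · exfalso
          exact hpm (Int.natCast_dvd.mpr (h.trans (Nat.gcd_dvd_right _ _)))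
        · exact h
    have hphi : (Nat.totient (q / g) : ℝ) = ∏ p ∈ (q / g).primeFactors, ((p : ℝ) - 1) := by
      have := GAM_phi_mult.prod_primeFactors hsq'
      change _ = ((Nat.totient (q / g) : ℕ) : ℝ) at this
      rw [← this]
      refine Finset.prod_congr rfl (fun p hp => ?_)
      change ((Nat.totient p : ℕ) : ℝ) = _
      have hp' := Nat.prime_of_mem_primeFactors hp
      rw [Nat.totient_prime hp', Nat.cast_sub hp'.one_lt.le, Nat.cast_one]
    rw [hphi, hpf, one_div, ← Finset.prod_inv_distrib, Finset.prod_filter]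
    refine Finset.prod_le_prod (fun p _ => abs_nonneg _) (fun p hp => ?_)
    have hp' := Nat.prime_of_mem_primeFactors hp
    have hp2 : (2 : ℝ) ≤ p := by exact_mod_cast hp'.two_le
    rw [GAM_F_prime r m p hp']
    by_cases h : (p : ℤ) ∣ m
    · simp [h]
    · rw [if_neg h, if_pos h]
      split_ifs
      · rw [abs_zero]
        exact inv_nonneg.mpr (by linarith)
      · rw [one_div, abs_of_nonneg (inv_nonneg.mpr (by linarith))]
  · rw [if_neg hsq, abs_nonpos_iff, (GAM_F_mult r m).multiplicative_factorization _ hq]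
    have hex : ∃ p ∈ q.primeFactors, 2 ≤ q.factorization p := by
      by_contra hcon
      push Not at hcon
      refine hsq ((Nat.squarefree_iff_factorization_le_one hq).mpr (fun p => ?_))
      by_cases hp : p ∈ q.primeFactors
      · have := hcon p hp
        omega
      · rw [← Nat.support_factorization, Finsupp.notMem_support_iff] at hp
        omega
    obtain ⟨p, hp, h2⟩ := hex
    refine Finset.prod_eq_zero (i := p) (by rwa [Nat.support_factorization]) ?_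
    obtain ⟨k, hk⟩ := Nat.exists_eq_add_of_le h2
    change GAM_F r m (p ^ q.factorization p) = 0
    rw [hk, add_comm 2 k]
    exact GAM_F_prime_pow r m p k (Nat.prime_of_mem_primeFactors hp)

theorem GAM_sum_F (r : ℕ) (m : ℤ) (Q N : ℕ) (hN : N ≤ Q) :
    ∑ q ∈ Icc 1 N, |GAM_F r m q| ≤ dQ Q m * ∑ q ∈ Icc 1 Q, (1 : ℝ) / Nat.totient q := by
  have h1 : ∑ q ∈ Icc 1 N, |GAM_F r m q| ≤
      ∑ q ∈ (Icc 1 N).filter Squarefree, 1 / (Nat.totient (q / Nat.gcd q m.natAbs) : ℝ) := by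
    rw [Finset.sum_filter]
    refine Finset.sum_le_sum (fun q hq => ?_)
    rw [mem_Icc] at hq
    exact GAM_F_abs r m q (by omega)
  refine h1.trans ?_
  have h2 : ∑ q ∈ (Icc 1 N).filter Squarefree, 1 / (Nat.totient (q / Nat.gcd q m.natAbs) : ℝ) =
      ∑ x ∈ ((Icc 1 N).filter Squarefree).image (fun q => (Nat.gcd q m.natAbs, q / Nat.gcd q m.natAbs)),
        1 / (Nat.totient x.2 : ℝ) := by
    rw [Finset.sum_image]
    intro a ha b hb hab
    simp only [Prod.mk.injEq] at hab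
    have ha' := Nat.mul_div_cancel' (Nat.gcd_dvd_left a m.natAbs)
    have hb' := Nat.mul_div_cancel' (Nat.gcd_dvd_left b m.natAbs)
    rw [hab.2, hab.1] at ha'
    exact ha'.symm.trans hb'
  rw [h2]
  have h3 : dQ Q m * ∑ q ∈ Icc 1 Q, (1 : ℝ) / Nat.totient q =
      ∑ x ∈ ((Icc 1 Q).filter (fun d : ℕ => (d : ℤ) ∣ m)) ×ˢ (Icc 1 Q),
        1 / (Nat.totient x.2 : ℝ) := by
    rw [Finset.sum_product]
    unfold dQ
    simp only
    rw [Finset.sum_const, nsmul_eq_mul]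
  rw [h3]
  refine Finset.sum_le_sum_of_subset_of_nonneg ?_ (fun _ _ _ => by positivity)
  intro x hx
  rw [mem_image] at hx
  obtain ⟨q, hq, rfl⟩ := hx
  rw [mem_filter, mem_Icc] at hq
  have hg1 : 0 < Nat.gcd q m.natAbs := Nat.gcd_pos_of_pos_left _ (by omega)
  have hg2 : Nat.gcd q m.natAbs ≤ q := Nat.gcd_le_left _ (by omega)
  have hg3 : 0 < q / Nat.gcd q m.natAbs := Nat.div_pos hg2 hg1
  rw [mem_product, mem_filter, mem_Icc, mem_Icc]
  refine ⟨⟨⟨hg1, by simp only; omega⟩, ?_⟩, hg3, ?_⟩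
  · exact Int.natCast_dvd.mpr (Nat.gcd_dvd_right _ _)
  · exact (Nat.div_le_self _ _).trans (by omega)

/-- `|Γ_r(m)| ≤ 100 (1 + log Q)^3 dQ(m)`. If `(r, m) ≠ 1` it is `0`. Otherwise write `q = r q'`,
`d = r d'`; `d' ↦ [(d',m)=1] (r d'/φ(r d')) / (r/φ(r))` is multiplicative, equal at `p^j` (`j ≥ 1`)
to `1` if `p ∣ r`, `p/(p-1)` if `p ∤ r m`, `0` if `p ∣ m`; so its Dirichlet convolution with `μ` is
`0` at `q'` not squarefree or not coprime to `r`, and at squarefree `q'` coprime to `r` it is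
`∏_{p ∣ q', p ∤ m} 1/(p-1) ∏_{p ∣ q', p ∣ m} (-1)`, of absolute value `φ((q',m))/φ(q')`. Hence
`|Γ_r(m)| ≤ (r/φ(r)) ∑_{g ∣ m, g ≤ Q} ∑_{q'' ≤ Q} 1/φ(q'')`, and `r/φ(r) ≤ 10 (1 + log Q)` for
`r ≤ Q` (e.g. `r/φ(r) = ∏_{p ∣ r} (1 - 1/p)^{-1} ≤ ∏_{j ≤ ω(r)} (1 + 1/j) ≤ ω(r) + 1`, `2^ω(r) ≤ r`). -/
theorem abs_Gam_le (Q r : ℕ) (hr : 1 ≤ r) (hrQ : r ≤ Q) (m : ℤ) :
    |Gam Q r m| ≤ 100 * (1 + Real.log Q) ^ 3 * dQ Q m := by
  have hQ1 : (1 : ℝ) ≤ Q := by exact_mod_cast hr.trans hrQ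
  have hL : 0 ≤ Real.log Q := Real.log_nonneg hQ1
  have hd0 : 0 ≤ dQ Q m := by unfold dQ; positivity
  by_cases hrm : IsCoprime (r : ℤ) m
  swap
  · have : Gam Q r m = 0 := by
      unfold Gam
      refine Finset.sum_eq_zero (fun q _ => ?_)
      rw [Finset.filter_false_of_mem, Finset.sum_empty]
      rintro d _ ⟨⟨e, rfl⟩, h⟩
      rw [Nat.cast_mul, IsCoprime.mul_left_iff] at h
      exact hrm h.1
    rw [this, abs_zero]
    positivity
  have hr0 : r ≠ 0 := by omega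
  have himg : (Icc 1 Q).filter (fun q => r ∣ q) = (Icc 1 (Q / r)).image (fun q => r * q) := by
    ext q
    simp only [mem_filter, mem_Icc, mem_image]
    constructor
    · rintro ⟨⟨h1, h2⟩, ⟨e, rfl⟩⟩
      refine ⟨e, ⟨?_, ?_⟩, rfl⟩
      · rcases Nat.eq_zero_or_pos e with rfl | h
        · simp at h1
        · exact h
      · rw [Nat.le_div_iff_mul_le (by omega), mul_comm]
        exact h2
    · rintro ⟨e, ⟨h1, h2⟩, rfl⟩
      refine ⟨⟨Nat.mul_pos (by omega) (by omega), ?_⟩, Dvd.intro _ rfl⟩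
      rw [Nat.le_div_iff_mul_le (by omega), mul_comm] at h2
      exact h2
  have hGam : Gam Q r m = (r : ℝ) / Nat.totient r * ∑ q ∈ Icc 1 (Q / r), GAM_F r m q := by
    unfold Gam
    rw [himg, Finset.sum_image (fun a _ b _ h => Nat.eq_of_mul_eq_mul_left (by omega) h),
      Finset.mul_sum]
    refine Finset.sum_congr rfl (fun q hq => ?_)
    rw [mem_Icc] at hq
    exact GAM_inner r m hr0 hrm q (by omega)
  have hρ := GAM_ratio_le r hr0
  have hρ0 : 0 ≤ (r : ℝ) / Nat.totient r := by positivity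
  have hlogr : Real.log r ≤ Real.log Q :=
    Real.log_le_log (by exact_mod_cast hr) (by exact_mod_cast hrQ)
  rw [hGam, abs_mul, abs_of_nonneg hρ0]
  have h1 : |∑ q ∈ Icc 1 (Q / r), GAM_F r m q| ≤
      dQ Q m * ∑ q ∈ Icc 1 Q, (1 : ℝ) / Nat.totient q :=
    (Finset.abs_sum_le_sum_abs _ _).trans (GAM_sum_F r m Q (Q / r) (Nat.div_le_self _ _))
  have h2 := sum_inv_totient Q
  calc (r : ℝ) / Nat.totient r * |∑ q ∈ Icc 1 (Q / r), GAM_F r m q|
      ≤ (10 * (1 + Real.log Q)) * (dQ Q m * (10 * (1 + Real.log Q) ^ 2)) := by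
        refine mul_le_mul (hρ.trans (by linarith)) (h1.trans ?_) (abs_nonneg _) (by positivity)
        exact mul_le_mul_of_nonneg_left h2 hd0
    _ = _ := by ring

end Pool.Agent.Lib.H68T
end

-- from Lib.H68T.TENT
section

/-!
# Chunk TENT: Mellin representation of the tent
-/

open Finset MeasureTheory

namespace Pool.Agent.Lib.H68T

/-- Mellin transform of `max 0 (1 - y)`. -/
theorem TENT_hasMellin (s : ℂ) (hs : 0 < s.re) :
    HasMellin (fun y : ℝ => ((max 0 (1 - y) : ℝ) : ℂ)) s (1 / (s * (s + 1))) := by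
  have h1 := hasMellin_one_Ioc hs
  have h2 := hasMellin_cpow_Ioc (a := 1) (s := s) (by simp; linarith)
  have h3 := hasMellin_sub h1.1 h2.1
  have hfun : ∀ y ∈ Set.Ioi (0 : ℝ),
      (Set.indicator (Set.Ioc 0 1) (fun _ => 1 : ℝ → ℂ) y -
        Set.indicator (Set.Ioc 0 1) (fun t => (t : ℂ) ^ (1 : ℂ) : ℝ → ℂ) y) =
      ((max 0 (1 - y) : ℝ) : ℂ) := by
    intro y hy
    have hy' : (0 : ℝ) < y := hy
    by_cases h : y ≤ 1
    · have hm : y ∈ Set.Ioc (0 : ℝ) 1 := ⟨hy', h⟩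
      rw [Set.indicator_of_mem hm, Set.indicator_of_mem hm, Complex.cpow_one,
        max_eq_right (by linarith)]
      push_cast
      ring
    · have hm : y ∉ Set.Ioc (0 : ℝ) 1 := fun h' => h h'.2
      rw [Set.indicator_of_notMem hm, Set.indicator_of_notMem hm, max_eq_left (by linarith)]
      simp
  have hs0 : s ≠ 0 := by
    intro h
    rw [h] at hs
    simp at hs
  have hs1 : s + 1 ≠ 0 := by
    intro h
    have := congrArg Complex.re h
    simp at this
    linarith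
  refine ⟨?_, ?_⟩
  · have := h3.1
    refine MeasureTheory.IntegrableOn.congr_fun this (fun y hy => ?_) measurableSet_Ioi
    simp only
    rw [hfun y hy]
  · have := h3.2
    rw [h1.2, h2.2] at this
    have e : 1 / s - 1 / (s + 1) = 1 / (s * (s + 1)) := by
      field_simp
      ring
    rw [e] at this
    rw [← this]
    refine MeasureTheory.setIntegral_congr_fun measurableSet_Ioi (fun y hy => ?_)
    simp only
    rw [hfun y hy]

/-- `‖1/((σ+it)(σ+1+it))‖` is integrable. -/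
theorem TENT_integrable (σ : ℝ) (hσ : 0 < σ) :
    Integrable (fun t : ℝ => 1 / ((σ + t * Complex.I) * (σ + t * Complex.I + 1))) := by
  have h1 : Integrable (fun t : ℝ => (1 + σ⁻¹ ^ 2) * (1 + t ^ 2)⁻¹) :=
    integrable_inv_one_add_sq.const_mul _
  have hne : ∀ t : ℝ, (σ + t * Complex.I : ℂ) ≠ 0 := by
    intro t h
    have := congrArg Complex.re h
    simp at this
    linarith
  have hne1 : ∀ t : ℝ, (σ + t * Complex.I + 1 : ℂ) ≠ 0 := by
    intro t h
    have := congrArg Complex.re h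
    simp at this
    linarith
  refine h1.mono' ?_ ?_
  · refine Continuous.aestronglyMeasurable ?_
    refine Continuous.div continuous_const (by fun_prop) (fun t => mul_ne_zero (hne t) (hne1 t))
  · refine Filter.Eventually.of_forall (fun t => ?_)
    have hn : ∀ a : ℝ, ‖(a + t * Complex.I : ℂ)‖ ^ 2 = a ^ 2 + t ^ 2 := by
      intro a
      rw [← Complex.normSq_eq_norm_sq, Complex.normSq_add_mul_I]
    have h2 : ‖(σ + t * Complex.I : ℂ)‖ ^ 2 = σ ^ 2 + t ^ 2 := hn σ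
    have h3 : ‖(σ + t * Complex.I + 1 : ℂ)‖ ^ 2 = (σ + 1) ^ 2 + t ^ 2 := by
      have := hn (σ + 1)
      rw [← this]
      congr 2
      push_cast
      ring
    have h4 : ‖(σ + t * Complex.I : ℂ)‖ ≤ ‖(σ + t * Complex.I + 1 : ℂ)‖ := by
      refine le_of_sq_le_sq ?_ (norm_nonneg _)
      rw [h2, h3]
      nlinarith
    have h5 : σ ^ 2 + t ^ 2 ≤ ‖(σ + t * Complex.I : ℂ)‖ * ‖(σ + t * Complex.I + 1 : ℂ)‖ := by
      rw [← h2, sq]
      exact mul_le_mul_of_nonneg_left h4 (norm_nonneg _)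
    have h6 : 0 < σ ^ 2 + t ^ 2 := by positivity
    rw [norm_div, norm_one, norm_mul, ← div_eq_mul_inv]
    rw [div_le_div_iff₀ (lt_of_lt_of_le h6 h5) (by positivity)]
    calc 1 * (1 + t ^ 2) ≤ (1 + σ⁻¹ ^ 2) * (σ ^ 2 + t ^ 2) := by
          have : σ⁻¹ ^ 2 * σ ^ 2 = 1 := by
            field_simp
          nlinarith [sq_nonneg (σ⁻¹ * t), sq_nonneg σ]
      _ ≤ _ := mul_le_mul_of_nonneg_left h5 (by positivity)

/-- Mellin inversion for the hinge on the line `Re s = σ`. -/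
theorem TENT_hinge (σ : ℝ) (hσ : 0 < σ) (y : ℝ) (hy : 0 < y) :
    ((max 0 (1 - y) : ℝ) : ℂ) = 1 / (2 * Real.pi) *
      ∫ t : ℝ, (y : ℂ) ^ (-(σ + t * Complex.I)) /
        ((σ + t * Complex.I) * (σ + t * Complex.I + 1)) := by
  have hf : MellinConvergent (fun y : ℝ => ((max 0 (1 - y) : ℝ) : ℂ)) σ :=
    (TENT_hasMellin σ (by simpa using hσ)).1
  have hm : ∀ t : ℝ, mellin (fun y : ℝ => ((max 0 (1 - y) : ℝ) : ℂ)) (σ + t * Complex.I) =
      1 / ((σ + t * Complex.I) * (σ + t * Complex.I + 1)) := by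
    intro t
    exact (TENT_hasMellin (σ + t * Complex.I) (by simpa using hσ)).2
  have hv : Complex.VerticalIntegrable (mellin (fun y : ℝ => ((max 0 (1 - y) : ℝ) : ℂ))) σ := by
    unfold Complex.VerticalIntegrable
    refine (TENT_integrable σ hσ).congr (Filter.Eventually.of_forall (fun t => ?_))
    simp only
    rw [hm t]
  have h := mellinInv_mellin_eq σ (fun y : ℝ => ((max 0 (1 - y) : ℝ) : ℂ)) hy hf hv
    (Continuous.continuousAt (by fun_prop))
  rw [← h, mellinInv, Complex.real_smul]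
  push_cast
  congr 1
  refine integral_congr_ae (Filter.Eventually.of_forall (fun t => ?_))
  simp only
  rw [hm t, smul_eq_mul, mul_one_div]

/-- The kernel formula: for `z > 0`, `n ≥ 1`,
`max 0 (z - n) = (1/2π) ∫ z^(2+it) n^(-1-it) / ((1+it)(2+it)) dt`. It is the Mellin inversion of
`y ↦ max 0 (1 - y)` (`y = n/z`), whose Mellin transform at `s` is `1/(s(s+1))` (`Re s > 0`), on the
line `Re s = 1` (`mellin_inversion`). -/
theorem mellin_hinge (z : ℝ) (hz : 0 < z) (n : ℝ) (hn : 0 < n) :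
    Integrable (fun t : ℝ => (z : ℂ) ^ (2 + t * Complex.I) * (n : ℂ) ^ (-(1 + t * Complex.I)) /
      ((1 + t * Complex.I) * (2 + t * Complex.I))) ∧
    ((max 0 (z - n) : ℝ) : ℂ) = 1 / (2 * Real.pi) *
      ∫ t : ℝ, (z : ℂ) ^ (2 + t * Complex.I) * (n : ℂ) ^ (-(1 + t * Complex.I)) /
        ((1 + t * Complex.I) * (2 + t * Complex.I)) := by
  have hzC : (z : ℂ) ≠ 0 := by exact_mod_cast hz.ne'
  have hnC : (n : ℂ) ≠ 0 := by exact_mod_cast hn.ne'
  have hpow : ∀ t : ℝ, (z : ℂ) ^ (2 + t * Complex.I) * (n : ℂ) ^ (-(1 + t * Complex.I)) =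
      z * ((n / z : ℝ) : ℂ) ^ (-(1 + t * Complex.I)) := by
    intro t
    rw [div_eq_mul_inv, Complex.ofReal_mul, Complex.mul_cpow_ofReal_nonneg hn.le (by positivity),
      Complex.ofReal_inv, Complex.inv_cpow_eq_ite, if_neg]
    · rw [← Complex.cpow_neg, neg_neg, show (2 + t * Complex.I : ℂ) = 1 + (1 + t * Complex.I) by ring,
        Complex.cpow_add _ _ hzC, Complex.cpow_one]
      ring
    · rw [Complex.arg_ofReal_of_nonneg hz.le]
      exact Real.pi_pos.ne
  have hden : ∀ t : ℝ, ((1 + t * Complex.I) * (2 + t * Complex.I) : ℂ) =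
      (((1 : ℝ) + t * Complex.I) * ((1 : ℝ) + t * Complex.I + 1)) := by
    intro t
    push_cast
    ring
  have hnz : 0 < n / z := by positivity
  refine ⟨?_, ?_⟩
  · have h1 := (TENT_integrable 1 one_pos).norm.const_mul (z * (n / z) ^ (-1 : ℝ))
    refine h1.mono' ?_ ?_
    · refine Continuous.aestronglyMeasurable ?_
      refine Continuous.div ?_ (by fun_prop) ?_
      · refine Continuous.mul ?_ ?_
        · exact Continuous.const_cpow (by fun_prop) (Or.inl hzC)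
        · exact Continuous.const_cpow (by fun_prop) (Or.inl hnC)
      · intro t
        refine mul_ne_zero ?_ ?_
        · intro h
          have := congrArg Complex.re h
          simp at this
        · intro h
          have := congrArg Complex.re h
          simp at this
    · refine Filter.Eventually.of_forall (fun t => ?_)
      rw [hpow t, hden t, norm_div, norm_mul, norm_div, norm_one, Complex.norm_real,
        Complex.norm_cpow_eq_rpow_re_of_pos hnz, Real.norm_of_nonneg hz.le]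
      have : (-(1 + (t : ℂ) * Complex.I)).re = -1 := by simp
      rw [this, mul_one_div]
  · have h2 := TENT_hinge 1 one_pos (n / z) hnz
    have h3 : ((max 0 (z - n) : ℝ) : ℂ) = z * ((max 0 (1 - n / z) : ℝ) : ℂ) := by
      rw [← Complex.ofReal_mul]
      congr 1
      rw [mul_max_of_nonneg _ _ hz.le]
      congr 1
      · ring
      · field_simp
    rw [h3, h2, mul_left_comm, ← integral_const_mul]
    congr 1
    refine integral_congr_ae (Filter.Eventually.of_forall (fun t => ?_))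
    simp only
    rw [hpow t, hden t, mul_div_assoc]
    push_cast
    rfl

/-- The second difference of the hinge is the tent. -/
theorem TENT_second_diff (Y z : ℝ) (hY : 0 ≤ Y) :
    max 0 (Y - |z|) = max 0 (z + Y) - 2 * max 0 z + max 0 (z - Y) := by
  rcases le_total 0 z with h | h
  · rw [abs_of_nonneg h, max_eq_right (show (0 : ℝ) ≤ z + Y by linarith), max_eq_right h]
    rcases le_total z Y with h' | h'
    · rw [max_eq_right (by linarith), max_eq_left (by linarith)]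
      ring
    · rw [max_eq_left (by linarith), max_eq_right (by linarith)]
      ring
  · rw [abs_of_nonpos h, max_eq_left h, max_eq_left (show z - Y ≤ 0 by linarith)]
    rw [show Y - -z = z + Y by ring]
    ring

/-- The second difference of `z^(2+it)` as a double integral. -/
theorem TENT_double (t : ℝ) (a Y : ℝ) (ha : 0 < a) (hY : 0 ≤ Y) :
    ((a + 2 * Y : ℝ) : ℂ) ^ (2 + t * Complex.I) - 2 * ((a + Y : ℝ) : ℂ) ^ (2 + t * Complex.I) +
      (a : ℂ) ^ (2 + t * Complex.I) =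
    ((1 + t * Complex.I) * (2 + t * Complex.I)) *
      ∫ x in (0 : ℝ)..Y, ∫ y in (0 : ℝ)..Y, ((a + x + y : ℝ) : ℂ) ^ (t * Complex.I) := by
  have hd : ∀ c : ℂ, ∀ x : ℝ, 0 < x →
      HasDerivAt (fun x : ℝ => (x : ℂ) ^ (c + 1)) ((c + 1) * (x : ℂ) ^ c) x := by
    intro c x hx
    have h1 := (hasDerivAt_id (x : ℂ)).cpow_const (c := c + 1)
      (Or.inl (by simpa using hx))
    have h2 := h1.comp_ofReal
    simpa using h2
  have hcont : ∀ c : ℂ, ∀ b : ℝ, 0 < b → ContinuousOn (fun y : ℝ => ((b + y : ℝ) : ℂ) ^ c)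
      (Set.Ici 0) := by
    intro c b hb y hy
    have hy' : (0 : ℝ) ≤ y := hy
    refine ContinuousAt.continuousWithinAt ?_
    refine ContinuousAt.cpow (by fun_prop) continuousAt_const (Or.inl ?_)
    rw [Complex.ofReal_re]
    linarith
  have hint : ∀ c : ℂ, c + 1 ≠ 0 → ∀ b : ℝ, 0 < b →
      (c + 1) * ∫ y in (0 : ℝ)..Y, ((b + y : ℝ) : ℂ) ^ c =
        ((b + Y : ℝ) : ℂ) ^ (c + 1) - (b : ℂ) ^ (c + 1) := by
    intro c hc b hb
    have h := intervalIntegral.integral_eq_sub_of_hasDerivAt (a := 0) (b := Y)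
      (f := fun y : ℝ => ((b + y : ℝ) : ℂ) ^ (c + 1))
      (f' := fun y : ℝ => (c + 1) * ((b + y : ℝ) : ℂ) ^ c) ?_ ?_
    · rw [intervalIntegral.integral_const_mul] at h
      rw [h]
      simp
    · intro y hy
      rw [Set.uIcc_of_le hY] at hy
      have := hd c (b + y) (by linarith [hy.1])
      exact this.comp_const_add b y
    · refine ContinuousOn.intervalIntegrable ?_
      rw [Set.uIcc_of_le hY]
      exact (continuousOn_const.mul (hcont c b hb)).mono Set.Icc_subset_Ici_self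
  have hne1 : (t * Complex.I + 1 : ℂ) ≠ 0 := by
    intro h
    have := congrArg Complex.re h
    simp at this
  have hne2 : (1 + t * Complex.I + 1 : ℂ) ≠ 0 := by
    intro h
    have := congrArg Complex.re h
    norm_num at this
  have hinner : ∀ x : ℝ, x ∈ Set.uIcc 0 Y →
      (1 + t * Complex.I : ℂ) * ∫ y in (0 : ℝ)..Y, ((a + x + y : ℝ) : ℂ) ^ (t * Complex.I) =
        ((a + Y + x : ℝ) : ℂ) ^ (1 + t * Complex.I) - ((a + x : ℝ) : ℂ) ^ (1 + t * Complex.I) := by
    intro x hx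
    rw [Set.uIcc_of_le hY] at hx
    have := hint (t * Complex.I) hne1 (a + x) (by linarith [hx.1])
    rw [add_comm (t * Complex.I) 1] at this
    rw [this, show a + Y + x = a + x + Y by ring]
  have h1 := hint (1 + t * Complex.I) hne2 (a + Y) (by linarith)
  have h2 := hint (1 + t * Complex.I) hne2 a ha
  rw [show (1 + t * Complex.I + 1 : ℂ) = 2 + t * Complex.I by ring] at h1 h2
  have hi1 : IntervalIntegrable (fun x : ℝ => ((a + Y + x : ℝ) : ℂ) ^ (1 + t * Complex.I)) volume 0 Y := by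
    refine ContinuousOn.intervalIntegrable ?_
    rw [Set.uIcc_of_le hY]
    exact (hcont _ (a + Y) (by linarith)).mono Set.Icc_subset_Ici_self
  have hi2 : IntervalIntegrable (fun x : ℝ => ((a + x : ℝ) : ℂ) ^ (1 + t * Complex.I)) volume 0 Y := by
    refine ContinuousOn.intervalIntegrable ?_
    rw [Set.uIcc_of_le hY]
    exact (hcont _ a ha).mono Set.Icc_subset_Ici_self
  calc _ = ((a + Y + Y : ℝ) : ℂ) ^ (2 + t * Complex.I) - ((a + Y : ℝ) : ℂ) ^ (2 + t * Complex.I) -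
      (((a + Y : ℝ) : ℂ) ^ (2 + t * Complex.I) - (a : ℂ) ^ (2 + t * Complex.I)) := by
        rw [show a + Y + Y = a + 2 * Y by ring]
        ring
    _ = (2 + t * Complex.I) * ((∫ x in (0 : ℝ)..Y, ((a + Y + x : ℝ) : ℂ) ^ (1 + t * Complex.I)) -
        ∫ x in (0 : ℝ)..Y, ((a + x : ℝ) : ℂ) ^ (1 + t * Complex.I)) := by
        rw [← h1, ← h2]
        ring
    _ = (2 + t * Complex.I) * (∫ x in (0 : ℝ)..Y, (((a + Y + x : ℝ) : ℂ) ^ (1 + t * Complex.I) -
        ((a + x : ℝ) : ℂ) ^ (1 + t * Complex.I))) := by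
        rw [intervalIntegral.integral_sub hi1 hi2]
    _ = (2 + t * Complex.I) * (∫ x in (0 : ℝ)..Y, (1 + t * Complex.I : ℂ) *
        ∫ y in (0 : ℝ)..Y, ((a + x + y : ℝ) : ℂ) ^ (t * Complex.I)) := by
        congr 1
        refine intervalIntegral.integral_congr (fun x hx => ?_)
        exact (hinner x hx).symm
    _ = _ := by
        rw [intervalIntegral.integral_const_mul]
        ring

/-- **Representation of the tent** as second difference of the hinge:
`tent(m - n) = Y^(-2) (h(m+Y-n) - 2 h(m-n) + h(m-Y-n))`, `h(z) = max 0 z`. So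
`gt t = (1/2π) Δ²_Y [z^(2+it)] (m) / (Y² (1+it)(2+it))`; `‖gt t‖ ≤ 4 (2m)²/(2π Y² (1+t²))`, and
`‖gt t‖ ≤ 1` because `Δ²_Y [z^(2+it)]/((1+it)(2+it)) = ∫_0^Y ∫_0^Y (m - Y + x + y)^(it) dx dy`
(with the appropriate order of differences). -/
theorem tent_rep (Y : ℕ) (m : ℤ) (hY : 1 ≤ Y) (hm : 2 * (Y : ℤ) ≤ m) :
    ∃ gt : ℝ → ℂ, Continuous gt ∧ (∀ t, ‖gt t‖ ≤ 1) ∧
      (∀ t, ‖gt t‖ ≤ 10 * ((m : ℝ) / Y) ^ 2 / (1 + t ^ 2)) ∧
      ∀ n : ℕ, 1 ≤ n → ((tent Y (m - n) : ℝ) : ℂ) =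
        ∫ t : ℝ, gt t * (n : ℂ) ^ (-(1 + t * Complex.I)) := by
  have hYr : (1 : ℝ) ≤ Y := by exact_mod_cast hY
  have hmr : 2 * (Y : ℝ) ≤ m := by exact_mod_cast hm
  have ha : 0 < (m : ℝ) - Y := by linarith
  have hm0 : 0 < (m : ℝ) := by linarith
  have hmY : 0 < (m : ℝ) + Y := by linarith
  set D : ℝ → ℂ := fun t => (((m : ℝ) + Y : ℝ) : ℂ) ^ (2 + t * Complex.I) -
    2 * ((m : ℝ) : ℂ) ^ (2 + t * Complex.I) + (((m : ℝ) - Y : ℝ) : ℂ) ^ (2 + t * Complex.I) with hD
  have hPne : ∀ t : ℝ, ((1 + t * Complex.I) * (2 + t * Complex.I) : ℂ) ≠ 0 := by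
    intro t
    refine mul_ne_zero ?_ ?_
    · intro h
      have := congrArg Complex.re h
      simp at this
    · intro h
      have := congrArg Complex.re h
      simp at this
  have hYne : ((Y : ℂ) ^ 2) ≠ 0 := by
    have : (Y : ℂ) ≠ 0 := by exact_mod_cast (by omega : Y ≠ 0)
    positivity
  have hpi := Real.pi_gt_three
  refine ⟨fun t => 1 / (2 * Real.pi) * (D t / ((Y : ℂ) ^ 2 * ((1 + t * Complex.I) * (2 + t * Complex.I)))),
    ?_, ?_, ?_, ?_⟩
  · refine continuous_const.mul (Continuous.div ?_ (by fun_prop)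
      (fun t => mul_ne_zero hYne (hPne t)))
    have hc : ∀ z : ℝ, 0 < z → Continuous (fun t : ℝ => (z : ℂ) ^ (2 + t * Complex.I)) := by
      intro z hz
      exact Continuous.const_cpow (by fun_prop) (Or.inl (by exact_mod_cast hz.ne'))
    exact ((hc _ hmY).sub (continuous_const.mul (hc _ hm0))).add (hc _ ha)
  · intro t
    have h := TENT_double t ((m : ℝ) - Y) Y ha (by linarith)
    rw [show (m : ℝ) - Y + 2 * Y = m + Y by ring, show (m : ℝ) - Y + Y = m by ring] at h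
    have h' : D t / ((Y : ℂ) ^ 2 * ((1 + t * Complex.I) * (2 + t * Complex.I))) =
        (∫ x in (0 : ℝ)..Y, ∫ y in (0 : ℝ)..Y, (((m : ℝ) - Y + x + y : ℝ) : ℂ) ^ (t * Complex.I)) /
          (Y : ℂ) ^ 2 := by
      rw [hD]
      simp only
      rw [h, mul_comm ((Y : ℂ) ^ 2), mul_div_mul_left _ _ (hPne t)]
    change ‖1 / (2 * Real.pi : ℂ) * (D t / ((Y : ℂ) ^ 2 *
      ((1 + t * Complex.I) * (2 + t * Complex.I))))‖ ≤ 1
    rw [h']
    have hn1 : ∀ x : ℝ, x ∈ Set.uIoc 0 (Y : ℝ) →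
        ‖∫ y in (0 : ℝ)..Y, (((m : ℝ) - Y + x + y : ℝ) : ℂ) ^ (t * Complex.I)‖ ≤ 1 * |(Y : ℝ) - 0| := by
      intro x hx
      rw [Set.uIoc_of_le (by linarith)] at hx
      refine intervalIntegral.norm_integral_le_of_norm_le_const (fun y hy => ?_)
      rw [Set.uIoc_of_le (by linarith)] at hy
      rw [Complex.norm_cpow_eq_rpow_re_of_pos (by linarith [hx.1, hy.1])]
      simp
    have hn2 := intervalIntegral.norm_integral_le_of_norm_le_const hn1
    rw [sub_zero, abs_of_nonneg (by linarith)] at hn2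
    rw [norm_mul, norm_div, norm_div, norm_pow, Complex.norm_natCast, norm_one, norm_mul]
    rw [Complex.norm_real, Real.norm_of_nonneg Real.pi_pos.le]
    have h2 : ‖(2 : ℂ)‖ = 2 := by simp
    rw [h2]
    have hq : ‖∫ x in (0 : ℝ)..Y, ∫ y in (0 : ℝ)..Y,
        (((m : ℝ) - Y + x + y : ℝ) : ℂ) ^ (t * Complex.I)‖ / (Y : ℝ) ^ 2 ≤ 1 := by
      rw [div_le_one (by positivity)]
      nlinarith
    have hp1 : 1 / (2 * Real.pi) ≤ 1 := by
      rw [div_le_one (by positivity)]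
      linarith
    calc 1 / (2 * Real.pi) * _ ≤ 1 * 1 := by
          refine mul_le_mul hp1 hq (by positivity) zero_le_one
      _ = 1 := one_mul 1
  · intro t
    have hnorm : ∀ z : ℝ, 0 < z → ‖(z : ℂ) ^ (2 + t * Complex.I)‖ = z ^ 2 := by
      intro z hz
      rw [Complex.norm_cpow_eq_rpow_re_of_pos hz]
      simp
    have hDn : ‖D t‖ ≤ 9 * (m : ℝ) ^ 2 := by
      calc ‖D t‖ ≤ ‖(((m : ℝ) + Y : ℝ) : ℂ) ^ (2 + t * Complex.I)‖ +
            ‖2 * ((m : ℝ) : ℂ) ^ (2 + t * Complex.I)‖ +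
            ‖(((m : ℝ) - Y : ℝ) : ℂ) ^ (2 + t * Complex.I)‖ := by
            refine (norm_add_le _ _).trans ?_
            gcongr
            exact norm_sub_le _ _
        _ = ((m : ℝ) + Y) ^ 2 + 2 * (m : ℝ) ^ 2 + ((m : ℝ) - Y) ^ 2 := by
            rw [norm_mul, hnorm _ hmY, hnorm _ hm0, hnorm _ ha]
            simp
        _ ≤ 9 * (m : ℝ) ^ 2 := by nlinarith
    have hden : 1 + t ^ 2 ≤ ‖((1 + t * Complex.I) * (2 + t * Complex.I) : ℂ)‖ := by
      have hn : ∀ a : ℝ, ‖(a + t * Complex.I : ℂ)‖ ^ 2 = a ^ 2 + t ^ 2 := by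
        intro a
        rw [← Complex.normSq_eq_norm_sq, Complex.normSq_add_mul_I]
      have h1 := hn 1
      have h2 := hn 2
      push_cast at h1 h2
      rw [norm_mul]
      have h4 : ‖(1 + t * Complex.I : ℂ)‖ ≤ ‖(2 + t * Complex.I : ℂ)‖ := by
        refine le_of_sq_le_sq ?_ (norm_nonneg _)
        rw [h1, h2]
        nlinarith
      nlinarith [norm_nonneg (1 + t * Complex.I : ℂ)]
    change ‖1 / (2 * Real.pi : ℂ) * (D t / ((Y : ℂ) ^ 2 *
      ((1 + t * Complex.I) * (2 + t * Complex.I))))‖ ≤ _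
    rw [norm_mul, norm_div, norm_div, norm_mul, norm_mul ((Y : ℂ) ^ 2), norm_pow,
      Complex.norm_natCast, norm_one,
      Complex.norm_real, Real.norm_of_nonneg Real.pi_pos.le]
    have h2 : ‖(2 : ℂ)‖ = 2 := by simp
    rw [h2]
    have hp1 : 1 / (2 * Real.pi) ≤ 1 := by
      rw [div_le_one (by positivity)]
      linarith
    have hYpos : (0 : ℝ) < Y := by linarith
    calc 1 / (2 * Real.pi) * (‖D t‖ / ((Y : ℝ) ^ 2 * ‖((1 + t * Complex.I) * (2 + t * Complex.I) : ℂ)‖))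
        ≤ 1 * (9 * (m : ℝ) ^ 2 / ((Y : ℝ) ^ 2 * (1 + t ^ 2))) := by
          gcongr
      _ ≤ 10 * ((m : ℝ) / Y) ^ 2 / (1 + t ^ 2) := by
          rw [one_mul, div_pow, mul_div_assoc', div_div]
          gcongr
          norm_num
  · intro n hn
    have hnr : 0 < (n : ℝ) := by exact_mod_cast hn
    obtain ⟨hi1, he1⟩ := mellin_hinge ((m : ℝ) + Y) hmY n hnr
    obtain ⟨hi2, he2⟩ := mellin_hinge (m : ℝ) hm0 n hnr
    obtain ⟨hi3, he3⟩ := mellin_hinge ((m : ℝ) - Y) ha n hnr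
    have ht : tent Y (m - n) = (max 0 ((m : ℝ) + Y - n) - 2 * max 0 ((m : ℝ) - n) +
        max 0 ((m : ℝ) - Y - n)) / (Y : ℝ) ^ 2 := by
      unfold tent
      push_cast
      rw [TENT_second_diff (Y : ℝ) ((m : ℝ) - n) (by linarith)]
      rw [show (m : ℝ) - n + Y = m + Y - n by ring, show (m : ℝ) - n - Y = m - Y - n by ring]
    have hpi' : (2 * Real.pi : ℂ) ≠ 0 := by
      simp [Real.pi_ne_zero]
    simp only [Complex.ofReal_natCast] at hi1 hi2 hi3 he1 he2 he3
    rw [ht, Complex.ofReal_div, Complex.ofReal_add, Complex.ofReal_sub, Complex.ofReal_mul, he1,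
      he2, he3, Complex.ofReal_pow, Complex.ofReal_natCast, Complex.ofReal_ofNat]
    have hABC : ∀ A B C : ℂ, (1 / (2 * (Real.pi : ℂ)) * A - 2 * (1 / (2 * (Real.pi : ℂ)) * B) +
      1 / (2 * (Real.pi : ℂ)) * C) / (Y : ℂ) ^ 2 =
      1 / (2 * (Real.pi : ℂ)) / (Y : ℂ) ^ 2 * (A - 2 * B + C) := by
      intro A B C
      ring
    rw [hABC]
    set F1 : ℝ → ℂ := fun t => (((m : ℝ) + Y : ℝ) : ℂ) ^ (2 + t * Complex.I) *
      (n : ℂ) ^ (-(1 + t * Complex.I)) / ((1 + t * Complex.I) * (2 + t * Complex.I)) with hF1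
    set F2 : ℝ → ℂ := fun t => ((m : ℝ) : ℂ) ^ (2 + t * Complex.I) *
      (n : ℂ) ^ (-(1 + t * Complex.I)) / ((1 + t * Complex.I) * (2 + t * Complex.I)) with hF2
    set F3 : ℝ → ℂ := fun t => (((m : ℝ) - Y : ℝ) : ℂ) ^ (2 + t * Complex.I) *
      (n : ℂ) ^ (-(1 + t * Complex.I)) / ((1 + t * Complex.I) * (2 + t * Complex.I)) with hF3
    have hs : (∫ t, F1 t) - 2 * (∫ t, F2 t) + ∫ t, F3 t = ∫ t, (F1 t - 2 * F2 t + F3 t) := by
      have hi12 : Integrable (fun t => F1 t - 2 * F2 t) := hi1.sub (hi2.const_mul 2)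
      rw [integral_add hi12 hi3, integral_sub hi1 (hi2.const_mul 2), integral_const_mul]
    rw [hs, ← integral_const_mul]
    refine integral_congr_ae (Filter.Eventually.of_forall (fun t => ?_))
    simp only [hD, hF1, hF2, hF3]
    have := hPne t
    field_simp

end Pool.Agent.Lib.H68T
end

-- from Lib.H68T.BPS
section

/-!
# Chunk BPS: the local averages `B_ψ(m)` bounded by the `L¹` norm of `F_ψ`
-/

open Finset MeasureTheory

namespace Pool.Agent.Lib.H68T

/-! ### The weight `v` -/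

theorem BPS_w_nonneg (y : ℝ) : 0 ≤ w y :=
  mul_nonneg (Real.smoothTransition.nonneg _) (Real.smoothTransition.nonneg _)

theorem BPS_w_le_one (y : ℝ) : w y ≤ 1 :=
  mul_le_one₀ (Real.smoothTransition.le_one _) (Real.smoothTransition.nonneg _)
    (Real.smoothTransition.le_one _)

theorem BPS_w_eq_one {y : ℝ} (h1 : -1 ≤ y) (h2 : y ≤ 3) : w y = 1 := by
  unfold w
  rw [Real.smoothTransition.one_of_one_le (by linarith),
    Real.smoothTransition.one_of_one_le (by linarith), one_mul]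

theorem BPS_w_eq_zero {y : ℝ} (h1 : y ≤ -2) : w y = 0 := by
  unfold w
  rw [Real.smoothTransition.zero_of_nonpos (by linarith), zero_mul]

theorem BPS_v_nonneg (X m : ℕ) : 0 ≤ v X m := BPS_w_nonneg _

theorem BPS_v_le_one (X m : ℕ) : v X m ≤ 1 := BPS_w_le_one _

/-- `v(m)/m ≤ 9/X` -/
theorem BPS_v_div_le {X m : ℕ} (hX : 1 ≤ X) (hm : 1 ≤ m) : v X m / m ≤ 9 / X := by
  have hX' : (0:ℝ) < X := by exact_mod_cast hX
  have hm' : (0:ℝ) < m := by exact_mod_cast hm
  rcases le_or_gt (Real.log ((m:ℝ) / X)) (-2) with h | h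
  · have : v X m = 0 := BPS_w_eq_zero h
    rw [this, zero_div]; positivity
  · have h1 : Real.exp (-2) < (m:ℝ) / X := (Real.lt_log_iff_exp_lt (by positivity)).mp h
    have h2 : (1:ℝ) / 9 ≤ Real.exp (-2) := by
      rw [Real.exp_neg, one_div]
      apply inv_anti₀ (Real.exp_pos _)
      have : Real.exp 2 = Real.exp 1 ^ 2 := by rw [← Real.exp_nat_mul]; norm_num
      rw [this]
      have h3 := Real.exp_one_lt_d9
      have h4 := Real.exp_pos 1
      nlinarith
    have h3 : (1:ℝ) / 9 < (m:ℝ) / X := lt_of_le_of_lt h2 h1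
    rw [div_lt_div_iff₀ (by norm_num) hX'] at h3
    rw [div_le_div_iff₀ hm' hX']
    have := BPS_v_le_one X m
    have h0 := BPS_v_nonneg X m
    nlinarith

theorem BPS_norm_cpow {m : ℕ} (hm : 1 ≤ m) (t : ℝ) :
    ‖(m : ℂ) ^ (-(1 + t * Complex.I))‖ = 1 / (m:ℝ) := by
  have hm' : (0:ℝ) < m := by exact_mod_cast hm
  have h := Complex.norm_cpow_eq_rpow_re_of_pos hm' (-(1 + t * Complex.I))
  have h2 : ((m:ℝ) : ℂ) = (m : ℂ) := by norm_cast
  rw [h2] at h
  rw [h]
  have : (-(1 + (t:ℂ) * Complex.I)).re = -1 := by simp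
  rw [this, Real.rpow_neg_one, one_div]

/-- A general bound for the weighted polynomials. -/
theorem BPS_FF_le {X : ℕ} (hX : 1 ≤ X) (h : ℕ → ℂ) {D : ℝ}
    (hD : ∑ m ∈ Icc 1 (60 * X), ‖h m‖ ≤ D * X) (t : ℝ) : ‖FF X h t‖ ≤ 9 * D := by
  have hX' : (0:ℝ) < X := by exact_mod_cast hX
  unfold FF
  calc ‖∑ m ∈ Icc 1 (60 * X), h m * (v X m : ℂ) * (m : ℂ) ^ (-(1 + t * Complex.I))‖
      ≤ ∑ m ∈ Icc 1 (60 * X), ‖h m * (v X m : ℂ) * (m : ℂ) ^ (-(1 + t * Complex.I))‖ :=
        norm_sum_le _ _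
    _ ≤ ∑ m ∈ Icc 1 (60 * X), ‖h m‖ * (9 / X) := by
        apply Finset.sum_le_sum
        intro m hm
        rw [mem_Icc] at hm
        rw [norm_mul, norm_mul, BPS_norm_cpow hm.1, mul_assoc]
        apply mul_le_mul_of_nonneg_left _ (norm_nonneg _)
        rw [Complex.norm_real, Real.norm_of_nonneg (BPS_v_nonneg X m), mul_one_div]
        exact BPS_v_div_le hX hm.1
    _ = (∑ m ∈ Icc 1 (60 * X), ‖h m‖) * (9 / X) := by rw [Finset.sum_mul]
    _ ≤ (D * X) * (9 / X) := mul_le_mul_of_nonneg_right hD (by positivity)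
    _ = 9 * D := by field_simp

/-- Chebyshev -/
theorem BPS_sum_vM {X : ℕ} : ∑ m ∈ Icc 1 (60 * X), ArithmeticFunction.vonMangoldt m ≤ 600 * X := by
  have h1 := Chebyshev.psi_le_const_mul_self (x := ((60 * X : ℕ) : ℝ)) (by positivity)
  have h2 : Chebyshev.psi ((60 * X : ℕ) : ℝ) =
      ∑ m ∈ Icc 1 (60 * X), ArithmeticFunction.vonMangoldt m := by
    unfold Chebyshev.psi
    rw [Nat.floor_natCast]
    rfl
  rw [← h2]
  refine h1.trans ?_
  have h4 : Real.log 4 ≤ 2 := by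
    have : (4:ℝ) = 2 ^ 2 := by norm_num
    rw [this, Real.log_pow]
    have := Real.log_two_lt_d9
    push_cast
    linarith
  push_cast
  have : (0:ℝ) ≤ X := by positivity
  nlinarith

theorem BPS_sum_norm {X : ℕ} (p : Σ r : ℕ, DirichletCharacter ℂ r) :
    ∑ m ∈ Icc 1 (60 * X), ‖(ArithmeticFunction.vonMangoldt m : ℂ) * p.2 (m : ZMod p.1)‖ ≤
      600 * X := by
  refine le_trans (Finset.sum_le_sum fun m _ => ?_) (BPS_sum_vM (X := X))
  rw [norm_mul, Complex.norm_real, Real.norm_of_nonneg ArithmeticFunction.vonMangoldt_nonneg]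
  calc _ ≤ ArithmeticFunction.vonMangoldt m * 1 :=
        mul_le_mul_of_nonneg_left (DirichletCharacter.norm_le_one _ _)
          ArithmeticFunction.vonMangoldt_nonneg
    _ = _ := mul_one _


theorem BPS_continuous_cpow {m : ℕ} (hm : 1 ≤ m) :
    Continuous fun t : ℝ => (m : ℂ) ^ (-(1 + t * Complex.I)) := by
  have hm' : (m : ℂ) ≠ 0 := by
    have : m ≠ 0 := by omega
    exact_mod_cast this
  exact Continuous.const_cpow (by fun_prop) (Or.inl hm')

theorem continuous_FF (X : ℕ) (h : ℕ → ℂ) : Continuous (FF X h) := by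
  unfold FF
  apply continuous_finsetSum
  intro m hm
  rw [mem_Icc] at hm
  exact continuous_const.mul (BPS_continuous_cpow hm.1)

/-! ### Integrability -/

theorem BPS_integrable_inv {g : ℝ → ℂ} (hg : Continuous g) {D : ℝ}
    (hD : ∀ t, ‖g t‖ ≤ D / (1 + t ^ 2)) : Integrable g := by
  have h1 : Integrable fun t : ℝ => D * (1 + t ^ 2)⁻¹ := integrable_inv_one_add_sq.const_mul D
  refine h1.mono' hg.aestronglyMeasurable (Filter.Eventually.of_forall fun t => ?_)
  rw [← div_eq_mul_inv]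
  exact hD t

/-- Tail of `1/(1+t²)`. -/
theorem BPS_tail {T : ℝ} (hT : 0 < T) :
    ∫ t in (Set.Icc (-T) T)ᶜ, (1 + t ^ 2)⁻¹ ≤ 2 / T := by
  have h1 : (Set.Icc (-T) T)ᶜ = Set.Iio (-T) ∪ Set.Ioi T := by
    ext t
    simp only [Set.mem_compl_iff, Set.mem_Icc, not_and_or, not_le, Set.mem_union, Set.mem_Iio,
      Set.mem_Ioi]
  have hI : Integrable fun t : ℝ => (1 + t ^ 2)⁻¹ := integrable_inv_one_add_sq
  rw [h1, setIntegral_union _ measurableSet_Ioi hI.integrableOn hI.integrableOn]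
  · have hpos : ∫ t in Set.Ioi T, (1 + t ^ 2)⁻¹ ≤ 1 / T := by
      have hi : IntegrableOn (fun t : ℝ => t ^ (-2 : ℝ)) (Set.Ioi T) :=
        integrableOn_Ioi_rpow_of_lt (by norm_num) hT
      have e := integral_Ioi_rpow_of_lt (a := -2) (by norm_num) hT
      calc ∫ t in Set.Ioi T, (1 + t ^ 2)⁻¹ ≤ ∫ t in Set.Ioi T, t ^ (-2 : ℝ) := by
            apply setIntegral_mono_on hI.integrableOn hi measurableSet_Ioi
            intro t ht
            have ht' : 0 < t := hT.trans ht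
            rw [Real.rpow_neg ht'.le, show (2:ℝ) = ((2:ℕ):ℝ) by norm_num, Real.rpow_natCast]
            apply inv_anti₀ (by positivity)
            linarith
        _ = 1 / T := by
            rw [e]
            have : (-2 + 1 : ℝ) = -1 := by norm_num
            rw [this, Real.rpow_neg_one]
            field_simp
    have hneg : ∫ t in Set.Iio (-T), (1 + t ^ 2)⁻¹ = ∫ t in Set.Ioi T, (1 + t ^ 2)⁻¹ := by
      have := integral_comp_neg_Ioi (c := T) (f := fun t : ℝ => (1 + t ^ 2)⁻¹)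
      rw [← integral_Iic_eq_integral_Iio, ← this]
      apply integral_congr_ae
      exact Filter.Eventually.of_forall fun t => by simp
    rw [hneg]
    have : 2 / T = 1 / T + 1 / T := by ring
    linarith
  · rw [Set.disjoint_left]
    intro t ht1 ht2
    simp only [Set.mem_Iio, Set.mem_Ioi] at ht1 ht2
    linarith

theorem BPS_tent_nonneg (Y : ℕ) (z : ℤ) : 0 ≤ tent Y z := by
  unfold tent
  positivity

theorem BPS_tent_le (Y : ℕ) (z : ℤ) : tent Y z ≤ 1 / Y := by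
  unfold tent
  rcases Nat.eq_zero_or_pos Y with h | h
  · subst h; simp
  have hY : (0:ℝ) < Y := by exact_mod_cast h
  rw [div_le_div_iff₀ (by positivity) hY]
  have : max 0 ((Y : ℝ) - |(z : ℝ)|) ≤ Y := max_le hY.le (by linarith [abs_nonneg (z:ℝ)])
  nlinarith

theorem BPS_tent_zero {Y : ℕ} {z : ℤ} (h : (Y:ℤ) ≤ |z|) : tent Y z = 0 := by
  unfold tent
  have h' : (Y:ℝ) ≤ |(z:ℝ)| := by exact_mod_cast h
  rw [max_eq_left (by linarith), zero_div]

/-- The weight is `1` on the support of the tent. -/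
theorem BPS_v_mul_tent {X Y : ℕ} (hX : 1 ≤ X) (hYX : 2 * Y ≤ X) {m : ℤ} (hm1 : (X : ℤ) ≤ m)
    (hm2 : m ≤ 4 * X) (n : ℕ) : v X n * tent Y (m - n) = tent Y (m - n) := by
  rcases le_or_gt (Y:ℤ) |m - n| with h | h
  · rw [BPS_tent_zero h, mul_zero]
  · rw [abs_lt] at h
    have hX' : (0:ℝ) < X := by exact_mod_cast hX
    have h1 : (X:ℤ) ≤ 2 * n := by omega
    have h2 : (n:ℤ) ≤ 5 * X := by omega
    have h1' : (X:ℝ) ≤ 2 * n := by exact_mod_cast h1
    have h2' : (n:ℝ) ≤ 5 * X := by exact_mod_cast h2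
    have h3 : (1:ℝ) / 2 ≤ (n:ℝ) / X := by
      rw [div_le_div_iff₀ (by norm_num) hX']; linarith
    have h4 : (n:ℝ) / X ≤ 5 := by rw [div_le_iff₀ hX']; linarith
    have h5 : v X n = 1 := by
      apply BPS_w_eq_one
      · have := Real.log_le_log (by norm_num) h3
        rw [one_div, Real.log_inv] at this
        have := Real.log_two_lt_d9
        linarith
      · have := Real.log_le_log (by linarith) h4
        have h8 : Real.log 5 ≤ Real.log (2 ^ 3) := Real.log_le_log (by norm_num) (by norm_num)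
        rw [Real.log_pow] at h8
        have := Real.log_two_lt_d9
        push_cast at h8
        linarith
    rw [h5, one_mul]

/-- General statement: the average of `h` against the tent. -/
theorem BPS_general {Q X Y : ℕ} (hQ : 1 ≤ Q) (hX : 1 ≤ X) (hY : 1 ≤ Y)
    (hYX : 2 * Y ≤ X) (hYQ : (X : ℝ) ≤ 2 * Q ^ 2 * Y) (h : ℕ → ℂ) {D : ℝ} (hD0 : 0 ≤ D)
    (hD : ∑ n ∈ Icc 1 (60 * X), ‖h n‖ ≤ D * X) (m : ℤ) (hm1 : (X : ℤ) ≤ m) (hm2 : m ≤ 4 * X) :
    ‖∑ n ∈ Icc 1 (60 * X), h n * (tent Y (m - n) : ℂ)‖ ≤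
      (∫ t in (-(Q : ℝ) ^ 7)..((Q : ℝ) ^ 7), ‖FF X h t‖) + 11520 * D / (Q : ℝ) ^ 3 := by
  have hQ' : (0:ℝ) < Q := by exact_mod_cast hQ
  have hX' : (0:ℝ) < X := by exact_mod_cast hX
  have hY' : (0:ℝ) < Y := by exact_mod_cast hY
  have hm1' : (X:ℝ) ≤ m := by exact_mod_cast hm1
  have hm2' : (m:ℝ) ≤ 4 * X := by exact_mod_cast hm2
  obtain ⟨gt, hc, hb1, hb2, hrep⟩ := tent_rep Y m hY (by omega)
  set E : ℝ := 10 * ((m : ℝ) / Y) ^ 2 with hE
  have hE0 : 0 ≤ E := by positivity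
  have hmY : (m:ℝ) / Y ≤ 8 * Q ^ 2 := by
    rw [div_le_iff₀ hY']; nlinarith
  have hE1 : E ≤ 640 * Q ^ 4 := by
    have h0 : 0 ≤ (m:ℝ) / Y := div_nonneg (by linarith) hY'.le
    have : ((m:ℝ) / Y) ^ 2 ≤ (8 * Q ^ 2) ^ 2 := by gcongr
    rw [hE]; nlinarith
  have hFF := BPS_FF_le hX h hD
  have hFc := continuous_FF X h
  -- the identity
  have key : ∑ n ∈ Icc 1 (60 * X), h n * (tent Y (m - n) : ℂ) = ∫ t : ℝ, gt t * FF X h t := by
    have h1 : ∀ n ∈ Icc 1 (60 * X), h n * (tent Y (m - n) : ℂ) =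
        ∫ t : ℝ, gt t * (h n * (v X n : ℂ) * (n : ℂ) ^ (-(1 + t * Complex.I))) := by
      intro n hn
      rw [mem_Icc] at hn
      have h2 : (tent Y (m - n) : ℂ) = (v X n : ℂ) * (tent Y (m - n) : ℂ) := by
        rw [← Complex.ofReal_mul, BPS_v_mul_tent hX hYX hm1 hm2]
      rw [h2, hrep n hn.1, ← mul_assoc, ← integral_const_mul]
      apply integral_congr_ae
      exact Filter.Eventually.of_forall fun t => by ring
    rw [Finset.sum_congr rfl h1, ← integral_finsetSum]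
    · apply integral_congr_ae
      refine Filter.Eventually.of_forall fun t => ?_
      simp only [FF]
      rw [Finset.mul_sum]
    · intro n hn
      rw [mem_Icc] at hn
      have hcc := BPS_continuous_cpow hn.1
      apply BPS_integrable_inv (D := E * ‖h n * (v X n : ℂ)‖)
      · fun_prop
      · intro t
        rw [norm_mul, norm_mul (h n * (v X n : ℂ)), BPS_norm_cpow hn.1]
        have hn' : (1:ℝ) ≤ n := by exact_mod_cast hn.1
        have h3 : 1 / (n:ℝ) ≤ 1 := by rw [div_le_one (by linarith)]; exact hn'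
        calc ‖gt t‖ * (‖h n * (v X n : ℂ)‖ * (1 / (n:ℝ)))
            ≤ (E / (1 + t ^ 2)) * (‖h n * (v X n : ℂ)‖ * 1) := by
              apply mul_le_mul (hb2 t) _ (by positivity) (by positivity)
              exact mul_le_mul_of_nonneg_left h3 (norm_nonneg _)
          _ = _ := by ring
  have hint : Integrable fun t : ℝ => gt t * FF X h t := by
    apply BPS_integrable_inv (D := E * (9 * D)) (by fun_prop)
    intro t
    rw [norm_mul]
    calc ‖gt t‖ * ‖FF X h t‖ ≤ (E / (1 + t ^ 2)) * (9 * D) :=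
          mul_le_mul (hb2 t) (hFF t) (norm_nonneg _) (by positivity)
      _ = _ := by ring
  set T : ℝ := (Q:ℝ) ^ 7 with hT
  have hT0 : 0 < T := by positivity
  rw [key, ← integral_add_compl (measurableSet_Icc (a := -T) (b := T)) hint]
  refine (norm_add_le _ _).trans ?_
  apply add_le_add
  · rw [intervalIntegral.integral_of_le (by linarith), ← integral_Icc_eq_integral_Ioc]
    refine (norm_integral_le_integral_norm _).trans ?_
    apply setIntegral_mono_on hint.norm.integrableOn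
    · exact (hFc.norm.continuousOn).integrableOn_compact isCompact_Icc
    · exact measurableSet_Icc
    · intro t _
      rw [norm_mul]
      calc ‖gt t‖ * ‖FF X h t‖ ≤ 1 * ‖FF X h t‖ :=
            mul_le_mul_of_nonneg_right (hb1 t) (norm_nonneg _)
        _ = _ := one_mul _
  · have hI : Integrable fun t : ℝ => E * (9 * D) * (1 + t ^ 2)⁻¹ :=
      integrable_inv_one_add_sq.const_mul _
    calc ‖∫ t in (Set.Icc (-T) T)ᶜ, gt t * FF X h t‖
        ≤ ∫ t in (Set.Icc (-T) T)ᶜ, ‖gt t * FF X h t‖ := norm_integral_le_integral_norm _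
      _ ≤ ∫ t in (Set.Icc (-T) T)ᶜ, E * (9 * D) * (1 + t ^ 2)⁻¹ := by
          apply setIntegral_mono_on hint.norm.integrableOn hI.integrableOn
            measurableSet_Icc.compl
          intro t _
          rw [norm_mul]
          calc ‖gt t‖ * ‖FF X h t‖ ≤ (E / (1 + t ^ 2)) * (9 * D) :=
                mul_le_mul (hb2 t) (hFF t) (norm_nonneg _) (by positivity)
            _ = _ := by ring
      _ = E * (9 * D) * ∫ t in (Set.Icc (-T) T)ᶜ, (1 + t ^ 2)⁻¹ := integral_const_mul _ _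
      _ ≤ (640 * Q ^ 4) * (9 * D) * (2 / T) := by
          apply mul_le_mul _ (BPS_tail hT0)
          · apply setIntegral_nonneg measurableSet_Icc.compl
            intro t _; positivity
          · positivity
          · exact mul_le_mul_of_nonneg_right hE1 (by positivity)
      _ = 11520 * D / (Q:ℝ) ^ 3 := by
          rw [hT]
          field_simp
          ring

/-! ### Total mass of the tent -/

theorem BPS_mass_aux (N : ℕ) : ∀ Y : ℕ, Y ≤ N →
    ∑ z ∈ Ioo (-(N : ℤ)) N, max 0 ((Y : ℝ) - |(z : ℝ)|) = (Y : ℝ) ^ 2 := by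
  intro Y
  induction Y with
  | zero =>
    intro _
    simp
  | succ Y ih =>
    intro hY
    have ih' := ih (by omega)
    have h1 : ∀ z ∈ Ioo (-(N : ℤ)) N, max 0 (((Y + 1 : ℕ) : ℝ) - |(z : ℝ)|) =
        max 0 ((Y : ℝ) - |(z : ℝ)|) + if |z| ≤ (Y:ℤ) then (1:ℝ) else 0 := by
      intro z _
      have hc : ((Y + 1 : ℕ) : ℝ) = (Y:ℝ) + 1 := by push_cast; ring
      rw [hc]
      split_ifs with h
      · have h' : |(z:ℝ)| ≤ Y := by exact_mod_cast h
        rw [max_eq_right (by linarith), max_eq_right (by linarith)]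
        ring
      · have h2 : (Y:ℤ) + 1 ≤ |z| := by omega
        have h' : (Y:ℝ) + 1 ≤ |(z:ℝ)| := by exact_mod_cast h2
        rw [max_eq_left (by linarith), max_eq_left (by linarith)]
        ring
    rw [Finset.sum_congr rfl h1, Finset.sum_add_distrib, ih', ← Finset.sum_filter]
    have h2 : (Ioo (-(N : ℤ)) N).filter (fun z => |z| ≤ (Y:ℤ)) = Icc (-(Y:ℤ)) Y := by
      ext z
      simp only [mem_filter, mem_Ioo, mem_Icc, abs_le]
      omega
    rw [h2, Finset.sum_const, Int.card_Icc, nsmul_eq_mul, mul_one]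
    have h3 : (Y:ℤ) + 1 - -(Y:ℤ) = ((2 * Y + 1 : ℕ) : ℤ) := by push_cast; ring
    rw [h3, Int.toNat_natCast]
    push_cast; ring

theorem BPS_mass {X Y : ℕ} (hY : 1 ≤ Y) (hYX : 2 * Y ≤ X) {m : ℤ} (hm1 : (X : ℤ) ≤ m)
    (hm2 : m ≤ 4 * X) : ∑ n ∈ Icc 1 (60 * X), tent Y (m - n) = 1 := by
  have hY' : (0:ℝ) < Y := by exact_mod_cast hY
  have h0 : ∑ z ∈ Ioo (-(Y : ℤ)) Y, tent Y z = 1 := by
    unfold tent
    rw [← Finset.sum_div, BPS_mass_aux Y Y le_rfl]
    field_simp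
  rw [← h0]
  have h1 : ∑ n ∈ (Icc 1 (60 * X)).filter (fun n : ℕ => |m - n| < Y), tent Y (m - n) =
      ∑ n ∈ Icc 1 (60 * X), tent Y (m - n) := by
    apply Finset.sum_subset (Finset.filter_subset _ _)
    intro n hn hn'
    rw [mem_filter, not_and, not_lt] at hn'
    exact BPS_tent_zero (hn' hn)
  rw [← h1]
  apply Finset.sum_nbij' (fun n : ℕ => m - n) (fun z => (m - z).toNat)
  · intro n hn
    rw [mem_filter, abs_lt] at hn
    rw [mem_Ioo]
    omega
  · intro z hz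
    rw [mem_Ioo] at hz
    rw [mem_filter, mem_Icc, abs_lt]
    omega
  · intro n hn
    rw [mem_filter, abs_lt] at hn
    omega
  · intro z hz
    rw [mem_Ioo] at hz
    omega
  · intro n _
    rfl

/-! ### Prime powers -/

theorem BPS_lp_le (n : ℕ) : lp n ≤ ArithmeticFunction.vonMangoldt n := by
  unfold lp
  split_ifs with h
  · rw [Int.toNat_natCast] at h
    rw [ArithmeticFunction.vonMangoldt_apply_prime h]
    simp
  · exact ArithmeticFunction.vonMangoldt_nonneg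

theorem BPS_prime_powers (X : ℕ) (hX : 1 ≤ X) :
    ∑ n ∈ Icc 1 (60 * X), (ArithmeticFunction.vonMangoldt n - lp n) ≤
      2 * √((60 * X : ℕ) : ℝ) * Real.log ((60 * X : ℕ) : ℝ) := by
  have h1 := Chebyshev.psi_sub_theta_le (x := ((60 * X : ℕ) : ℝ)) (by
    have : 1 ≤ 60 * X := by omega
    exact_mod_cast this)
  rw [Chebyshev.psi_sub_theta_eq_sum_not_prime, Nat.floor_natCast] at h1
  refine le_trans (le_of_eq ?_) h1
  rw [Finset.sum_filter]
  apply Finset.sum_congr rfl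
  intro n _
  unfold lp
  rw [Int.toNat_natCast]
  by_cases h : n.Prime
  · simp [h, ArithmeticFunction.vonMangoldt_apply_prime h]
  · simp [h]

/-- Replacing the primes by the von Mangoldt function. -/
theorem BPS_replace {X Y : ℕ} (hX : 1 ≤ X) (u : ℕ → ℂ) (hu : ∀ n, ‖u n‖ ≤ 1) (m : ℤ) :
    ‖∑ n ∈ Icc 1 (60 * X), ((lp n * tent Y (m - n) : ℝ) : ℂ) * u n -
      ∑ n ∈ Icc 1 (60 * X), (ArithmeticFunction.vonMangoldt n : ℂ) * u n * (tent Y (m - n) : ℂ)‖ ≤
      (1 / Y) * (2 * √((60 * X : ℕ) : ℝ) * Real.log ((60 * X : ℕ) : ℝ)) := by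
  rw [← Finset.sum_sub_distrib]
  refine (norm_sum_le _ _).trans ?_
  refine le_trans ?_ (mul_le_mul_of_nonneg_left (BPS_prime_powers X hX) (by positivity))
  rw [Finset.mul_sum]
  apply Finset.sum_le_sum
  intro n _
  have h1 : ((lp n * tent Y (m - n) : ℝ) : ℂ) * u n -
      (ArithmeticFunction.vonMangoldt n : ℂ) * u n * (tent Y (m - n) : ℂ) =
      ((tent Y (m - n) * (lp n - ArithmeticFunction.vonMangoldt n) : ℝ) : ℂ) * u n := by
    push_cast; ring
  rw [h1, norm_mul, Complex.norm_real, norm_mul, Real.norm_of_nonneg (BPS_tent_nonneg _ _),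
    Real.norm_of_nonpos (by linarith [BPS_lp_le n]), neg_sub]
  calc tent Y (m - n) * (ArithmeticFunction.vonMangoldt n - lp n) * ‖u n‖
      ≤ tent Y (m - n) * (ArithmeticFunction.vonMangoldt n - lp n) * 1 := by
        apply mul_le_mul_of_nonneg_left (hu n)
        exact mul_nonneg (BPS_tent_nonneg _ _) (by linarith [BPS_lp_le n])
    _ ≤ 1 / Y * (ArithmeticFunction.vonMangoldt n - lp n) := by
        rw [mul_one]
        exact mul_le_mul_of_nonneg_right (BPS_tent_le _ _) (by linarith [BPS_lp_le n])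




end Pool.Agent.Lib.H68T
end
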