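import Pool.Agent.Lib.H1M.RV2.M014
import Pool.Agent.Lib.H1M.RV2.M017

/-! Merged copies (to shorten the build) of Lib.H68X.XRL, Lib.H51D.DHE, Lib.H68T.PAGE1, Lib.H51D.DHF, Lib.H18Q.E1. -/

-- from Lib.H68X.XRL
section

/-!
# Chunk XRL: a zero close to `1` makes `L(1,ψ)` small
-/

open Finset

namespace Pool.Agent.Lib.H68T

/-- summation by parts, split at `K` -/
theorem XRL_split (r : ℕ) [NeZero r] (ψ : DirichletCharacter ℂ r) (hψ : ψ ≠ 1) (s : ℂ)
    (hs : 0 < s.re) (K : ℕ) :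
    ψ.LFunction s = ∑ n ∈ range K, ψ ((n + 1 : ℕ) : ZMod r) * (((n : ℝ) + 1 : ℝ) : ℂ) ^ (-s)
      - gl1_T ψ K * (((K : ℝ) + 1 : ℝ) : ℂ) ^ (-s) + ∑' n, gl1_A ψ (n + K) s := by
  have hsum := (gl1_tele s.re hs (r * ‖s‖ / s.re) (by positivity) (fun n => gl1_A ψ n s)
    (fun n => gl1_A_norm r ψ hψ n s hs)).1
  rw [gl1_eqOn r ψ hψ s hs, ← hsum.sum_add_tsum_nat_add K]
  have h9 := gl1_parts ψ (fun n => (((n : ℝ) + 1 : ℝ) : ℂ) ^ (-s)) K
  have h10 : ∀ n : ℕ, gl1_T ψ (n + 1) * ((((n : ℝ) + 1 : ℝ) : ℂ) ^ (-s) -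
      ((((n + 1 : ℕ) : ℝ) + 1 : ℝ) : ℂ) ^ (-s)) = gl1_A ψ n s := by
    intro n
    rw [gl1_A]
    congr 3
    push_cast
    ring_nf
  simp only [h10] at h9
  rw [h9]
  ring

/-- telescoping tail -/
theorem XRL_tele (σ : ℝ) (D : ℝ) (hD : 0 ≤ D) (K : ℕ) (f : ℕ → ℂ)
    (hf : ∀ n : ℕ, ‖f n‖ ≤ D * ((((n + K : ℕ) : ℝ) + 1) ^ (-σ) -
      (((n + K : ℕ) : ℝ) + 2) ^ (-σ))) :
    ‖∑' n, f n‖ ≤ D * ((K : ℝ) + 1) ^ (-σ) := by
  have hsum : ∀ M : ℕ, ∑ n ∈ range M, ‖f n‖ ≤ D * ((K : ℝ) + 1) ^ (-σ) := by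
    intro M
    have h1 : ∑ n ∈ range M, ‖f n‖ ≤
        D * (((K : ℝ) + 1) ^ (-σ) - (((M + K : ℕ) : ℝ) + 1) ^ (-σ)) := by
      induction M with
      | zero => simp
      | succ M ih =>
        rw [sum_range_succ]
        have h2 := hf M
        have e : (((M + 1 + K : ℕ) : ℝ) + 1) = ((M + K : ℕ) : ℝ) + 2 := by
          push_cast
          ring
        rw [e]
        linarith
    have h3 : 0 ≤ (((M + K : ℕ) : ℝ) + 1) ^ (-σ) := Real.rpow_nonneg (by positivity) _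
    nlinarith
  have hs : Summable fun n => ‖f n‖ := summable_of_sum_range_le (fun n => norm_nonneg _) hsum
  refine (norm_tsum_le_tsum_norm hs).trans ?_
  exact hs.tsum_le_of_sum_range_le hsum

/-- powers of `n ≤ r` near `1` -/
theorem XRL_pow (r : ℕ) (hr : 100 ≤ r) (σ : ℝ) (hσ : 1 - 2 / Real.log r ≤ σ) (x : ℝ)
    (hx1 : 1 ≤ x) (hxr : x ≤ r) : x ^ (-σ) ≤ Real.exp 2 * x⁻¹ := by
  have hr1 : (1 : ℝ) < r := by
    have : (100 : ℝ) ≤ r := by exact_mod_cast hr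
    linarith
  have hlog : 0 < Real.log r := Real.log_pos hr1
  have hx0 : 0 < x := by linarith
  have h1 : x ^ (-σ) ≤ x ^ (2 / Real.log r - 1) :=
    Real.rpow_le_rpow_of_exponent_le hx1 (by linarith)
  refine h1.trans ?_
  rw [Real.rpow_sub hx0, Real.rpow_one, div_eq_mul_inv]
  refine mul_le_mul_of_nonneg_right ?_ (by positivity)
  have h2 : x ^ (2 / Real.log r) ≤ (r : ℝ) ^ (2 / Real.log r) :=
    Real.rpow_le_rpow hx0.le hxr (by positivity)
  refine h2.trans ?_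
  rw [Real.rpow_def_of_pos (by linarith)]
  apply Real.exp_le_exp.2
  rw [mul_div_cancel₀ _ hlog.ne']

theorem XRL_harm (r : ℕ) : ∑ n ∈ range r, (((n : ℝ) + 1))⁻¹ ≤ 1 + Real.log r := by
  have h := harmonic_le_one_add_log r
  have e : ((harmonic r : ℚ) : ℝ) = ∑ n ∈ range r, (((n : ℝ) + 1))⁻¹ := by
    rw [harmonic]
    push_cast
    rfl
  rw [← e]
  exact h

/-- `‖L(s,ψ)‖ ≤ C log r` for `|s - 1| ≤ 2/log r`, `ψ ≠ 1` mod `r`, `r ≥ 100`: for `Re s > 1`, and then by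
analytic continuation for `Re s > 0` (cf. `LFunction_bound` in `H68T/GL1.lean`),
`L(s) = ∑_{n ≤ r} ψ(n) n^(-s) + s ∫_r^∞ (S(u) - S(r)) u^(-s-1) du`, `S(u) = ∑_{n ≤ u} ψ(n)`,
`|S(u) - S(r)| ≤ r`; `|n^(-s)| ≤ e²/n` for `n ≤ r`, and the integral is at most
`r r^(-σ)/σ ≤ 2 e²`. -/
theorem LFunction_near_one : ∃ C : ℝ, 0 < C ∧ ∀ (r : ℕ) [NeZero r]
    (ψ : DirichletCharacter ℂ r), 100 ≤ r → ψ ≠ 1 → ∀ s : ℂ, ‖s - 1‖ ≤ 2 / Real.log r →
    ‖ψ.LFunction s‖ ≤ C * Real.log r := by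
  refine ⟨6 * Real.exp 2, by positivity, fun r _ ψ hr hψ s hs => ?_⟩
  have hrR : (100 : ℝ) ≤ r := by exact_mod_cast hr
  have hlog4 : 4 ≤ Real.log r := by
    have h1 : Real.log 100 ≤ Real.log r := Real.log_le_log (by norm_num) hrR
    have h2 : (4 : ℝ) ≤ Real.log 100 := by
      rw [Real.le_log_iff_exp_le (by norm_num)]
      have h3 : Real.exp 4 = Real.exp 1 ^ 4 := by
        rw [← Real.exp_nat_mul]
        norm_num
      rw [h3]
      have h4 := Real.exp_one_lt_d9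
      calc Real.exp 1 ^ 4 ≤ (2.7182818286 : ℝ) ^ 4 :=
            pow_le_pow_left₀ (Real.exp_pos 1).le h4.le 4
        _ ≤ 100 := by norm_num
    linarith
  have hδ : 2 / Real.log r ≤ 1 / 2 := by
    rw [div_le_iff₀ (by linarith)]
    linarith
  have hre : |s.re - 1| ≤ ‖s - 1‖ := by
    have := Complex.abs_re_le_norm (s - 1)
    simpa using this
  have hσ : 1 - 2 / Real.log r ≤ s.re := by
    have := (abs_le.1 (hre.trans hs)).1
    linarith
  have hσ2 : 1 / 2 ≤ s.re := by linarith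
  have hσ0 : 0 < s.re := by linarith
  have hns : ‖s‖ ≤ 3 / 2 := by
    have h1 : ‖s‖ ≤ ‖s - 1‖ + ‖(1 : ℂ)‖ := by
      have := norm_add_le (s - 1) 1
      simpa using this
    rw [norm_one] at h1
    linarith
  have hE : 0 < Real.exp 2 := Real.exp_pos 2
  have hrpos : (0 : ℝ) < r := by linarith
  -- the power of `r + 1`
  have hK : ((r : ℝ) + 1) ^ (-s.re) ≤ Real.exp 2 * (r : ℝ)⁻¹ := by
    refine le_trans ?_ (XRL_pow r hr s.re hσ r (by linarith) le_rfl)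
    exact Real.rpow_le_rpow_of_nonpos hrpos (by linarith) (by linarith)
  have hK0 : 0 ≤ ((r : ℝ) + 1) ^ (-s.re) := Real.rpow_nonneg (by positivity) _
  rw [XRL_split r ψ hψ s hσ0 r]
  have h1 : ‖∑ n ∈ range r, ψ ((n + 1 : ℕ) : ZMod r) * (((n : ℝ) + 1 : ℝ) : ℂ) ^ (-s)‖ ≤
      Real.exp 2 * (1 + Real.log r) := by
    refine (norm_sum_le _ _).trans ?_
    refine le_trans (sum_le_sum fun n hn => ?_)
      (le_of_eq_of_le (mul_sum (range r) (fun n : ℕ => ((n : ℝ) + 1)⁻¹) (Real.exp 2)).symm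
        (mul_le_mul_of_nonneg_left (XRL_harm r) hE.le))
    rw [norm_mul, Complex.norm_cpow_eq_rpow_re_of_pos (by positivity), Complex.neg_re]
    have hn' : (n : ℝ) + 1 ≤ r := by
      have := mem_range.1 hn
      exact_mod_cast this
    have h2 := XRL_pow r hr s.re hσ ((n : ℝ) + 1) (by linarith [Nat.cast_nonneg (α := ℝ) n]) hn'
    have h3 := DirichletCharacter.norm_le_one ψ ((n + 1 : ℕ) : ZMod r)
    have h4 : 0 ≤ ((n : ℝ) + 1) ^ (-s.re) := Real.rpow_nonneg (by positivity) _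
    calc _ ≤ 1 * ((n : ℝ) + 1) ^ (-s.re) := mul_le_mul_of_nonneg_right h3 h4
      _ ≤ _ := by rw [one_mul]; exact h2
  have h2 : ‖gl1_T ψ r * (((r : ℝ) + 1 : ℝ) : ℂ) ^ (-s)‖ ≤ Real.exp 2 := by
    rw [norm_mul, Complex.norm_cpow_eq_rpow_re_of_pos (by positivity), Complex.neg_re]
    calc _ ≤ (r : ℝ) * (Real.exp 2 * (r : ℝ)⁻¹) :=
          mul_le_mul (gl1_T_bound r ψ hψ r) hK hK0 hrpos.le
      _ = Real.exp 2 := by field_simp
  have h3 : ‖∑' n, gl1_A ψ (n + r) s‖ ≤ 3 * Real.exp 2 := by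
    have h4 := XRL_tele s.re (r * ‖s‖ / s.re) (by positivity) r (fun n => gl1_A ψ (n + r) s)
      (fun n => gl1_A_norm r ψ hψ (n + r) s hσ0)
    refine h4.trans ?_
    have h5 : (r : ℝ) * ‖s‖ / s.re ≤ 3 * r := by
      rw [div_le_iff₀ hσ0]
      nlinarith
    calc _ ≤ (3 * r) * (Real.exp 2 * (r : ℝ)⁻¹) := mul_le_mul h5 hK hK0 (by positivity)
      _ = 3 * Real.exp 2 := by field_simp
  have h6 : ‖∑ n ∈ range r, ψ ((n + 1 : ℕ) : ZMod r) * (((n : ℝ) + 1 : ℝ) : ℂ) ^ (-s)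
      - gl1_T ψ r * (((r : ℝ) + 1 : ℝ) : ℂ) ^ (-s) + ∑' n, gl1_A ψ (n + r) s‖ ≤
      Real.exp 2 * (1 + Real.log r) + Real.exp 2 + 3 * Real.exp 2 := by
    refine (norm_add_le _ _).trans (add_le_add ((norm_sub_le _ _).trans (add_le_add h1 h2)) h3)
  refine h6.trans ?_
  nlinarith

/-- `L(1) = L(1) - L(β)` is at most `(1-β) sup_{[β,1]} |L'|`, and `|L'| ≤ C (log r)²` there by Cauchy's
inequality on circles of radius `1/log r`. -/
theorem L1_upper : ∃ C : ℝ, 0 < C ∧ ∀ (r : ℕ) [NeZero r] (ψ : DirichletCharacter ℂ r),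
    100 ≤ r → ψ ≠ 1 → ∀ β : ℝ, 1 - 1 / Real.log r ≤ β → β ≤ 1 → ψ.LFunction (β : ℂ) = 0 →
    ‖ψ.LFunction 1‖ ≤ C * (1 - β) * (Real.log r) ^ 2 := by
  obtain ⟨C, hC, H⟩ := LFunction_near_one
  refine ⟨C, hC, fun r _ ψ hr hψ β hβ1 hβ2 hz => ?_⟩
  have hrR : (100 : ℝ) ≤ r := by exact_mod_cast hr
  have hlog : 0 < Real.log r := Real.log_pos (by linarith)
  have hρ : 0 < 1 / Real.log r := by positivity
  have hdiff := DirichletCharacter.differentiable_LFunction hψ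
  have hder : ∀ z ∈ Metric.closedBall (1 : ℂ) (1 / Real.log r),
      ‖deriv ψ.LFunction z‖ ≤ C * Real.log r ^ 2 := by
    intro z hz
    have h1 := Complex.norm_deriv_le_of_forall_mem_sphere_norm_le (c := z)
      (C := C * Real.log r) (f := ψ.LFunction) hρ hdiff.diffContOnCl (fun w hw => by
        apply H r ψ hr hψ w
        have h2 : ‖w - z‖ = 1 / Real.log r := by simpa [dist_eq_norm] using hw
        have h3 : ‖z - 1‖ ≤ 1 / Real.log r := by simpa [dist_eq_norm] using hz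
        have h4 : ‖w - 1‖ ≤ ‖w - z‖ + ‖z - 1‖ := by
          have := norm_add_le (w - z) (z - 1)
          simpa using this
        have h5 : 2 / Real.log r = 1 / Real.log r + 1 / Real.log r := by ring
        rw [h5]
        linarith)
    refine h1.trans (le_of_eq ?_)
    field_simp
  have hmem1 : (1 : ℂ) ∈ Metric.closedBall (1 : ℂ) (1 / Real.log r) :=
    Metric.mem_closedBall_self hρ.le
  have hnorm : ‖(1 : ℂ) - (β : ℂ)‖ = 1 - β := by
    rw [← Complex.ofReal_one, ← Complex.ofReal_sub, Complex.norm_real, Real.norm_eq_abs,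
      abs_of_nonneg (by linarith)]
  have hmemβ : (β : ℂ) ∈ Metric.closedBall (1 : ℂ) (1 / Real.log r) := by
    rw [Metric.mem_closedBall, dist_comm, dist_eq_norm, hnorm]
    linarith
  have h := Convex.norm_image_sub_le_of_norm_deriv_le (f := ψ.LFunction)
    (C := C * Real.log r ^ 2) (s := Metric.closedBall (1 : ℂ) (1 / Real.log r))
    (x := (β : ℂ)) (y := 1) (fun z _ => hdiff z) hder (convex_closedBall _ _) hmemβ hmem1
  rw [hz, sub_zero, hnorm] at h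
  linarith [h]

end Pool.Agent.Lib.H68T
end

-- from Lib.H51D.DHE
section

/-!
# Chunk DHE: Dirichlet series at a zero of their analytic continuation
-/

open Finset

namespace Pool.Agent.Lib.H68T

/-- the error term -/
noncomputable def DHE_E (f : ℕ → ℂ) (κ : ℂ) (n : ℕ) : ℂ := (∑ k ∈ Icc 1 n, f k) - κ * n

/-- `(n+1)^(-s)` -/
noncomputable def DHE_p (n : ℕ) (s : ℂ) : ℂ := (((n : ℝ) + 1 : ℝ) : ℂ) ^ (-s)

/-- the terms of the continuation -/
noncomputable def DHE_A (f : ℕ → ℂ) (κ : ℂ) (n : ℕ) (s : ℂ) : ℂ :=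
  DHE_E f κ (n + 1) * ((((n : ℝ) + 1 : ℝ) : ℂ) ^ (-s) - (((n : ℝ) + 2 : ℝ) : ℂ) ^ (-s))

theorem DHE_p_succ (n : ℕ) (s : ℂ) : DHE_p (n + 1) s = (((n : ℝ) + 2 : ℝ) : ℂ) ^ (-s) := by
  have e : (((n + 1 : ℕ) : ℝ) + 1 : ℝ) = (n : ℝ) + 2 := by
    push_cast
    ring
  rw [DHE_p, e]

theorem DHE_abel (f : ℕ → ℂ) (κ : ℂ) (s : ℂ) (K : ℕ) :
    ∑ n ∈ range K, f (n + 1) * DHE_p n s =
      DHE_E f κ K * DHE_p K s + κ * ∑ n ∈ range K, DHE_p n s + ∑ n ∈ range K, DHE_A f κ n s := by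
  induction K with
  | zero => simp [DHE_E]
  | succ K ih =>
    rw [sum_range_succ, ih, sum_range_succ, sum_range_succ (fun n => DHE_A f κ n s)]
    have h1 : DHE_E f κ (K + 1) = DHE_E f κ K + f (K + 1) - κ := by
      rw [DHE_E, DHE_E, sum_Icc_succ_top (by omega)]
      push_cast
      ring
    have h2 : DHE_A f κ K s = DHE_E f κ (K + 1) * (DHE_p K s - DHE_p (K + 1) s) := by
      rw [DHE_A, DHE_p_succ, DHE_p]
    rw [h2, h1]
    ring

theorem DHE_A_norm (f : ℕ → ℂ) (κ : ℂ) (D : ℝ)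
    (hM : ∀ u : ℕ, ‖(∑ n ∈ Icc 1 u, f n) - κ * u‖ ≤ D * Real.sqrt u) (n : ℕ) (s : ℂ)
    (hs : 0 < s.re) :
    ‖DHE_A f κ n s‖ ≤ D * ‖s‖ * ((n : ℝ) + 1) ^ (-s.re - 1 / 2) := by
  have hn : (0 : ℝ) < (n : ℝ) + 1 := by positivity
  rw [DHE_A, norm_mul, norm_sub_rev]
  have h1 : ‖DHE_E f κ (n + 1)‖ ≤ D * ((n : ℝ) + 1) ^ (1 / 2 : ℝ) := by
    have := hM (n + 1)
    rw [Real.sqrt_eq_rpow] at this
    push_cast at this ⊢
    rw [DHE_E]
    push_cast
    exact this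
  have h2 := gl1_diff' s hs (a := (n : ℝ) + 1) (b := (n : ℝ) + 2) hn (by linarith)
  have e : (n : ℝ) + 2 - ((n : ℝ) + 1) = 1 := by ring
  rw [e, mul_one] at h2
  calc _ ≤ (D * ((n : ℝ) + 1) ^ (1 / 2 : ℝ)) * (‖s‖ * ((n : ℝ) + 1) ^ (-s.re - 1)) :=
        mul_le_mul h1 h2 (norm_nonneg _) ((norm_nonneg _).trans h1)
    _ = D * ‖s‖ * (((n : ℝ) + 1) ^ (1 / 2 : ℝ) * ((n : ℝ) + 1) ^ (-s.re - 1)) := by ring
    _ = _ := by
      rw [← Real.rpow_add hn]
      congr 2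
      ring

theorem DHE_diff (f : ℕ → ℂ) (κ : ℂ) (n : ℕ) : Differentiable ℂ (DHE_A f κ n) := by
  have h0 : ∀ (x : ℝ), 0 < x → Differentiable ℂ fun s : ℂ => (x : ℂ) ^ (-s) := by
    intro x hx s
    refine DifferentiableAt.const_cpow differentiableAt_id.neg (Or.inl ?_)
    exact_mod_cast hx.ne'
  unfold DHE_A
  exact ((h0 _ (by positivity)).sub (h0 _ (by positivity))).const_mul _

theorem DHE_analytic (f : ℕ → ℂ) (κ : ℂ) (D : ℝ) (hD : 0 ≤ D)
    (hM : ∀ u : ℕ, ‖(∑ n ∈ Icc 1 u, f n) - κ * u‖ ≤ D * Real.sqrt u) :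
    AnalyticOnNhd ℂ (fun s => ∑' n, DHE_A f κ n s) {s | 1 / 2 < s.re} := by
  have h1 : DifferentiableOn ℂ (fun s => ∑' n, DHE_A f κ n (s + 1 / 2)) {s | 0 < s.re} := by
    apply gl1_analytic (fun n s => DHE_A f κ n (s + 1 / 2))
    · intro n
      exact (DHE_diff f κ n).comp (by fun_prop)
    · intro R
      refine ⟨D * (|R| + 1), fun n s hs hR => ?_⟩
      have h2 : 0 < (s + 1 / 2).re := by
        simp
        linarith
      refine (DHE_A_norm f κ D hM n _ h2).trans ?_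
      have e1 : -(s + 1 / 2).re - 1 / 2 = -s.re - 1 := by
        simp
        ring
      rw [e1]
      apply mul_le_mul_of_nonneg_right _ (Real.rpow_nonneg (by positivity) _)
      apply mul_le_mul_of_nonneg_left _ hD
      refine (norm_add_le _ _).trans ?_
      have h3 : ‖(1 / 2 : ℂ)‖ = 1 / 2 := by simp
      rw [h3]
      linarith [hR.trans (le_abs_self R)]
  have hop : IsOpen {s : ℂ | 1 / 2 < s.re} := isOpen_lt continuous_const Complex.continuous_re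
  apply DifferentiableOn.analyticOnNhd _ hop
  have h4 : DifferentiableOn ℂ ((fun s => ∑' n, DHE_A f κ n (s + 1 / 2)) ∘ fun s => s - 1 / 2)
      {s | 1 / 2 < s.re} := by
    refine h1.comp (by fun_prop) ?_
    intro s hs
    have hs' : 1 / 2 < s.re := hs
    change 0 < (s - 1 / 2).re
    simp
    linarith
  refine h4.congr fun s _ => ?_
  simp

theorem DHE_summable (f : ℕ → ℂ) (κ : ℂ) (D : ℝ)
    (hM : ∀ u : ℕ, ‖(∑ n ∈ Icc 1 u, f n) - κ * u‖ ≤ D * Real.sqrt u) (s : ℂ)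
    (hs : 1 / 2 < s.re) : Summable fun n => DHE_A f κ n s := by
  refine Summable.of_norm_bounded (g := fun n : ℕ => D * ‖s‖ * ((n : ℝ) + 1) ^ (-s.re - 1 / 2)) ?_
    (fun n => DHE_A_norm f κ D hM n s (by linarith))
  apply Summable.mul_left
  have h1 : Summable fun n : ℕ => (n : ℝ) ^ (-s.re - 1 / 2) :=
    Real.summable_nat_rpow.2 (by linarith)
  have h2 := (summable_nat_add_iff 1).2 h1
  simpa using h2

/-- the continuation -/
theorem DHE_series (f : ℕ → ℂ) (κ : ℂ) (D : ℝ)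
    (hM : ∀ u : ℕ, ‖(∑ n ∈ Icc 1 u, f n) - κ * u‖ ≤ D * Real.sqrt u)
    (hsum : ∀ s : ℂ, 1 < s.re → LSeriesSummable f s) (s : ℂ) (hs : 1 < s.re) :
    LSeries f s = κ * riemannZeta s + ∑' n, DHE_A f κ n s := by
  have h2 : Filter.Tendsto (fun K => ∑ n ∈ range K, f (n + 1) * DHE_p n s) Filter.atTop
      (nhds (LSeries f s)) := by
    have h3 := (hsum s hs).hasSum.tendsto_sum_nat
    have h4 := (Filter.tendsto_add_atTop_iff_nat 1).2 h3
    refine h4.congr fun K => ?_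
    rw [sum_range_succ']
    simp only [LSeries.term_zero, add_zero]
    refine sum_congr rfl fun n _ => ?_
    rw [LSeries.term_of_ne_zero (by omega), DHE_p, Complex.cpow_neg, div_eq_mul_inv]
    push_cast
    rfl
  have h5 : Filter.Tendsto (fun K => DHE_E f κ K * DHE_p K s) Filter.atTop (nhds 0) := by
    have h6 : Filter.Tendsto (fun K : ℕ => |D| * ((K : ℝ) + 1) ^ (-(s.re - 1 / 2))) Filter.atTop
        (nhds (|D| * 0)) := by
      refine Filter.Tendsto.const_mul _ ?_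
      have h7 := tendsto_rpow_neg_atTop (y := s.re - 1 / 2) (by linarith)
      have h8 : Filter.Tendsto (fun K : ℕ => (K : ℝ) + 1) Filter.atTop Filter.atTop :=
        Filter.tendsto_atTop_add_const_right _ _ tendsto_natCast_atTop_atTop
      exact h7.comp h8
    rw [mul_zero] at h6
    refine squeeze_zero_norm (fun K => ?_) h6
    have hK : (0 : ℝ) < (K : ℝ) + 1 := by positivity
    rw [norm_mul, DHE_p, Complex.norm_cpow_eq_rpow_re_of_pos hK]
    have h9 : ‖DHE_E f κ K‖ ≤ |D| * ((K : ℝ) + 1) ^ (1 / 2 : ℝ) := by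
      refine (hM K).trans ?_
      rw [Real.sqrt_eq_rpow]
      refine (mul_le_mul_of_nonneg_right (le_abs_self D) (Real.rpow_nonneg (by positivity) _)).trans ?_
      apply mul_le_mul_of_nonneg_left _ (abs_nonneg D)
      exact Real.rpow_le_rpow (by positivity) (by linarith) (by norm_num)
    calc ‖DHE_E f κ K‖ * ((K : ℝ) + 1) ^ (-s).re
        ≤ |D| * ((K : ℝ) + 1) ^ (1 / 2 : ℝ) * ((K : ℝ) + 1) ^ (-s).re :=
          mul_le_mul_of_nonneg_right h9 (Real.rpow_nonneg hK.le _)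
      _ = |D| * (((K : ℝ) + 1) ^ (1 / 2 : ℝ) * ((K : ℝ) + 1) ^ (-s).re) := by ring
      _ = _ := by
        rw [← Real.rpow_add hK]
        congr 2
        simp
        ring
  have h10 : Filter.Tendsto (fun K => ∑ n ∈ range K, DHE_p n s) Filter.atTop
      (nhds (riemannZeta s)) := by
    have h1 : Summable fun n : ℕ => 1 / ((n : ℂ) + 1) ^ s := by
      have h2 := Complex.summable_one_div_nat_cpow.2 hs
      have h3 := (summable_nat_add_iff 1).2 h2
      simpa using h3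
    rw [zeta_eq_tsum_one_div_nat_add_one_cpow hs]
    refine h1.hasSum.tendsto_sum_nat.congr fun K => ?_
    refine sum_congr rfl fun n _ => ?_
    rw [DHE_p, Complex.cpow_neg, one_div]
    push_cast
    rfl
  have h11 := (DHE_summable f κ D hM s (by linarith)).hasSum.tendsto_sum_nat
  have h12 := (h5.add (h10.const_mul κ)).add h11
  rw [zero_add] at h12
  refine tendsto_nhds_unique h2 (h12.congr fun K => ?_)
  exact (DHE_abel f κ s K).symm

theorem DHE_mvt (p x : ℝ) (hp : 0 < p) (hx : 0 < x) :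
    p * (x + 1) ^ (-p - 1) ≤ x ^ (-p) - (x + 1) ^ (-p) := by
  have hx1 : 0 < x + 1 := by linarith
  have h1 : Real.log x ≤ Real.log (x + 1) - 1 / (x + 1) := by
    have h2 : Real.log (x / (x + 1)) ≤ x / (x + 1) - 1 :=
      Real.log_le_sub_one_of_pos (by positivity)
    rw [Real.log_div hx.ne' hx1.ne'] at h2
    have h3 : x / (x + 1) - 1 = -(1 / (x + 1)) := by
      field_simp
      ring
    linarith
  have h4 : (x + 1) ^ (-p) * (1 + p / (x + 1)) ≤ x ^ (-p) := by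
    rw [Real.rpow_def_of_pos hx, Real.rpow_def_of_pos hx1]
    calc Real.exp (Real.log (x + 1) * -p) * (1 + p / (x + 1))
        ≤ Real.exp (Real.log (x + 1) * -p) * Real.exp (p / (x + 1)) := by
          apply mul_le_mul_of_nonneg_left _ (Real.exp_pos _).le
          linarith [Real.add_one_le_exp (p / (x + 1))]
      _ = Real.exp (Real.log (x + 1) * -p + p / (x + 1)) := by rw [Real.exp_add]
      _ ≤ _ := by
          apply Real.exp_le_exp.mpr
          have h5 := mul_le_mul_of_nonneg_left h1 hp.le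
          have h6 : p / (x + 1) = p * (1 / (x + 1)) := by ring
          rw [h6]
          linarith
  have h7 : (x + 1) ^ (-p) * (p / (x + 1)) = p * (x + 1) ^ (-p - 1) := by
    rw [Real.rpow_sub hx1, Real.rpow_one]
    ring
  linarith


end Pool.Agent.Lib.H68T
end

-- from Lib.H68T.PAGE1
section

/-!
# Chunk PAGE1; part of PAGE: at most one exceptional character; good levels exist
-/

open Finset

namespace Pool.Agent.Lib.H68T

/-- The product of two different primitive real characters is not principal. -/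
theorem PAGE1_ne_one (r₁ r₂ : ℕ) [NeZero r₁] [NeZero r₂] (ψ₁ : DirichletCharacter ℂ r₁)
    (ψ₂ : DirichletCharacter ℂ r₂) (hp₁ : ψ₁.IsPrimitive) (hp₂ : ψ₂.IsPrimitive)
    (h₂ : ψ₂ ^ 2 = 1)
    (hne : (⟨r₁, ψ₁⟩ : Σ r : ℕ, DirichletCharacter ℂ r) ≠ ⟨r₂, ψ₂⟩) :
    (DirichletCharacter.changeLevel (Dvd.intro r₂ rfl) ψ₁ *
      DirichletCharacter.changeLevel (Dvd.intro_left r₁ rfl) ψ₂ :
        DirichletCharacter ℂ (r₁ * r₂)) ≠ 1 := by
  intro h
  have hN : NeZero (r₁ * r₂) := inferInstance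
  set χ₁ : DirichletCharacter ℂ (r₁ * r₂) :=
    DirichletCharacter.changeLevel (Dvd.intro r₂ rfl) ψ₁ with hχ₁
  set χ₂ : DirichletCharacter ℂ (r₁ * r₂) :=
    DirichletCharacter.changeLevel (Dvd.intro_left r₁ rfl) ψ₂ with hχ₂
  have hsq : χ₂ * χ₂ = 1 := by
    rw [hχ₂, ← map_mul, ← pow_two, h₂, map_one]
  have heq : χ₁ = χ₂ := by
    calc χ₁ = χ₁ * (χ₂ * χ₂) := by rw [hsq, mul_one]
      _ = (χ₁ * χ₂) * χ₂ := by rw [mul_assoc]
      _ = χ₂ := by rw [h, one_mul]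
  have hc₁ : χ₁.conductor = r₁ := by
    rw [hχ₁, DirichletCharacter.conductor_changeLevel]
    exact hp₁
  have hc₂ : χ₂.conductor = r₂ := by
    rw [hχ₂, DirichletCharacter.conductor_changeLevel]
    exact hp₂
  have hr : r₁ = r₂ := by
    rw [← hc₁, heq, hc₂]
  subst hr
  apply hne
  have hinj := DirichletCharacter.changeLevel_injective (R := ℂ)
    (Dvd.intro r₁ rfl : r₁ ∣ r₁ * r₁)
  have : ψ₁ = ψ₂ := hinj heq
  rw [this]

/-- **Page.** Two different real primitive characters of conductor at most `Q` cannot both have a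
real zero in `[1 - c₀/log Q, 1]`. `product_real` at `σ = 1 + a/log Q`; the product character is
non-trivial (distinct primitive characters have distinct lifts to level `r₁ r₂`), of modulus
`≤ Q²`; `re_char` with `S = {β_i}`: `2/(a + c₀) ≤ 1/a + C'`, false for `a = 1/(4C')`, `c₀ = a/4`. -/
theorem page : ∃ c₀ K : ℝ, 0 < c₀ ∧ ∀ Q : ℕ, K ≤ Q → ∀ (r₁ r₂ : ℕ) [NeZero r₁] [NeZero r₂]
    (ψ₁ : DirichletCharacter ℂ r₁) (ψ₂ : DirichletCharacter ℂ r₂), r₁ ≤ Q → r₂ ≤ Q →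
    ψ₁.IsPrimitive → ψ₂.IsPrimitive → ψ₁ ≠ 1 → ψ₂ ≠ 1 → ψ₁ ^ 2 = 1 → ψ₂ ^ 2 = 1 →
    (⟨r₁, ψ₁⟩ : Σ r : ℕ, DirichletCharacter ℂ r) ≠ ⟨r₂, ψ₂⟩ →
    ∀ σ₁ σ₂ : ℝ, 1 - c₀ / Real.log Q ≤ σ₁ → σ₁ ≤ 1 → 1 - c₀ / Real.log Q ≤ σ₂ → σ₂ ≤ 1 →
    ψ₁.LFunction (σ₁ : ℂ) = 0 → ψ₂.LFunction (σ₂ : ℂ) = 0 → False := by
  obtain ⟨C, hC, hre⟩ := re_char
  obtain ⟨Cv, hCv, hvM⟩ := vonMangoldt_le
  set C' : ℝ := 12 * C + Cv + 1 with hC'
  have hC'1 : 1 ≤ C' := by linarith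
  have hC'pos : 0 < C' := by linarith
  set a : ℝ := 1 / (4 * C') with ha
  have hapos : 0 < a := by positivity
  have ha4 : a ≤ 1 / 4 := by
    rw [ha]
    exact div_le_div_of_nonneg_left (by norm_num) (by norm_num) (by linarith)
  refine ⟨a / 4, Real.exp (4 + 2 / a), by positivity, ?_⟩
  intro Q hQ r₁ r₂ _ _ ψ₁ ψ₂ hr₁ hr₂ hp₁ hp₂ hne₁ hne₂ hs₁ hs₂ hne σ₁ σ₂ hσ₁ hσ₁' hσ₂ hσ₂' hz₁ hz₂
  have hQpos : (0 : ℝ) < Q := (Real.exp_pos _).trans_le hQ
  set L : ℝ := Real.log Q with hL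
  have hLge : 4 + 2 / a ≤ L := (Real.le_log_iff_exp_le hQpos).2 hQ
  have h2a : 0 < 2 / a := by positivity
  have hL4 : 4 ≤ L := by linarith
  have hLpos : 0 < L := by linarith
  set x : ℝ := a / L with hx
  have hxpos : 0 < x := by positivity
  have hxle : x ≤ 1 / 16 := by
    rw [hx, div_le_div_iff₀ hLpos (by norm_num)]
    linarith
  have hσ : 1 < 1 + x := by linarith
  -- the logarithms
  have hlog : Real.log (1 / x) ≤ L := by
    have h1 : 1 / x = (1 / a) * L := by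
      rw [hx]
      field_simp
    rw [h1, Real.log_mul (by positivity) hLpos.ne']
    have h2 : Real.log (1 / a) ≤ 1 / a := (Real.log_le_sub_one_of_pos (by positivity)).trans (by linarith)
    have h3 : 2 / a = 2 * (1 / a) := by ring
    have h4 : Real.log L ≤ L / 2 := by
      have h5 : Real.log (L / 2) ≤ L / 2 - 1 := Real.log_le_sub_one_of_pos (by positivity)
      rw [Real.log_div hLpos.ne' (by norm_num)] at h5
      have h6 : Real.log 2 ≤ 1 := (Real.log_le_sub_one_of_pos (by norm_num)).trans (by norm_num)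
      linarith
    linarith
  have hlog3 : Real.log (|(0 : ℝ)| + 3) + 1 ≤ L := by
    rw [abs_zero, zero_add]
    have : Real.log 3 ≤ 2 := (Real.log_le_sub_one_of_pos (by norm_num)).trans (by norm_num)
    linarith
  have hlogr : ∀ r : ℕ, 0 < r → r ≤ Q → Real.log r ≤ L := by
    intro r hr hrQ
    exact Real.log_le_log (by exact_mod_cast hr) (by exact_mod_cast hrQ)
  have hr₁pos : 0 < r₁ := Nat.pos_of_ne_zero (NeZero.ne r₁)
  have hr₂pos : 0 < r₂ := Nat.pos_of_ne_zero (NeZero.ne r₂)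
  have hb : a / 4 / L = x / 4 := by rw [hx]; ring
  rw [hb] at hσ₁ hσ₂
  -- one character with a real zero
  have hone : ∀ (r : ℕ) [NeZero r] (ψ : DirichletCharacter ℂ r) (β : ℝ), 0 < r → r ≤ Q → ψ ≠ 1 →
      1 - x / 4 ≤ β → β ≤ 1 → ψ.LFunction (β : ℂ) = 0 →
      (LSeries (fun n => (ArithmeticFunction.vonMangoldt n : ℂ) * ψ (n : ZMod r))
        ((1 + x : ℝ) : ℂ)).re ≤ 4 * C * L - 1 / (5 / 4 * x) := by
    intro r _ ψ β hr hrQ hψ hβ hβ' hz
    have h1 := hre r ψ hψ (1 + x) 0 hσ (by linarith) {(β : ℂ)} (by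
      intro ρ hρ
      rw [Finset.mem_singleton] at hρ
      subst hρ
      refine ⟨hz, ?_⟩
      have : (β : ℂ) - (((1 + x : ℝ) : ℂ) + ((0 : ℝ) : ℂ) * Complex.I) = ((β - (1 + x) : ℝ) : ℂ) := by
        push_cast
        ring
      rw [this, Complex.norm_real, Real.norm_eq_abs, abs_le]
      constructor <;> linarith)
    rw [Finset.sum_singleton] at h1
    have h2 : ((1 + x : ℝ) : ℂ) + ((0 : ℝ) : ℂ) * Complex.I = ((1 + x : ℝ) : ℂ) := by
      push_cast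
      ring
    rw [h2] at h1
    have h3 : (1 / (((1 + x : ℝ) : ℂ) - (β : ℂ))).re = 1 / (1 + x - β) := by
      have : (1 / (((1 + x : ℝ) : ℂ) - (β : ℂ))) = ((1 / (1 + x - β) : ℝ) : ℂ) := by
        push_cast
        ring
      rw [this, Complex.ofReal_re]
    rw [h3] at h1
    have h4 : 1 / (5 / 4 * x) ≤ 1 / (1 + x - β) :=
      div_le_div_of_nonneg_left (by norm_num) (by linarith) (by linarith)
    have h5 : Real.log r + Real.log (|(0 : ℝ)| + 3) + Real.log (1 / (1 + x - 1)) + 1 ≤ 4 * L := by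
      rw [add_sub_cancel_left]
      have e1 := hlogr r hr hrQ
      have e2 : Real.log r + Real.log (|(0 : ℝ)| + 3) + Real.log (1 / x) + 1 =
          Real.log r + (Real.log (|(0 : ℝ)| + 3) + 1) + Real.log (1 / x) := by ring
      rw [e2]
      calc Real.log r + (Real.log (|(0 : ℝ)| + 3) + 1) + Real.log (1 / x) ≤ L + L + L :=
            add_le_add (add_le_add e1 hlog3) hlog
        _ ≤ 4 * L := by linarith
    have h6 := mul_le_mul_of_nonneg_left h5 hC.le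
    linarith
  have e₁ := hone r₁ ψ₁ σ₁ hr₁pos hr₁ hne₁ hσ₁ hσ₁' hz₁
  have e₂ := hone r₂ ψ₂ σ₂ hr₂pos hr₂ hne₂ hσ₂ hσ₂' hz₂
  have e₃ := hre (r₁ * r₂) _ (PAGE1_ne_one r₁ r₂ ψ₁ ψ₂ hp₁ hp₂ hs₂ hne) (1 + x) 0 hσ
    (by linarith) ∅ (by simp)
  rw [Finset.sum_empty, sub_zero] at e₃
  have h2 : ((1 + x : ℝ) : ℂ) + ((0 : ℝ) : ℂ) * Complex.I = ((1 + x : ℝ) : ℂ) := by
    push_cast
    ring
  rw [h2] at e₃
  have h5 : Real.log ((r₁ * r₂ : ℕ) : ℝ) + Real.log (|(0 : ℝ)| + 3) + Real.log (1 / (1 + x - 1)) + 1 ≤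
      4 * L := by
    rw [add_sub_cancel_left, Nat.cast_mul, Real.log_mul (by positivity) (by positivity)]
    have e2 : Real.log r₁ + Real.log r₂ + Real.log (|(0 : ℝ)| + 3) + Real.log (1 / x) + 1 =
        Real.log r₁ + Real.log r₂ + (Real.log (|(0 : ℝ)| + 3) + 1) + Real.log (1 / x) := by ring
    rw [e2]
    calc Real.log r₁ + Real.log r₂ + (Real.log (|(0 : ℝ)| + 3) + 1) + Real.log (1 / x) ≤
          L + L + L + L :=
          add_le_add (add_le_add (add_le_add (hlogr r₁ hr₁pos hr₁) (hlogr r₂ hr₂pos hr₂)) hlog3) hlog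
      _ = 4 * L := by ring
  have h6 := mul_le_mul_of_nonneg_left h5 hC.le
  have e₄ := hvM (1 + x) hσ (by linarith)
  rw [add_sub_cancel_left] at e₄
  have hpos := product_real r₁ r₂ ψ₁ ψ₂ hs₁ hs₂ (1 + x) hσ
  have hfin : 0 ≤ 1 / x + Cv + 12 * C * L - 2 * (1 / (5 / 4 * x)) := by linarith
  have h7 : 1 / (5 / 4 * x) = 4 / 5 * (1 / x) := by field_simp
  have h8 : 1 / x = 4 * C' * L := by
    rw [hx, ha]
    field_simp
  rw [h7, h8] at hfin
  have h9 : 4 * C' * L + Cv + 12 * C * L - 2 * (4 / 5 * (4 * C' * L)) =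
      Cv + 12 * C * L - 12 / 5 * (C' * L) := by ring
  rw [h9] at hfin
  have h10 : C' * L = 12 * C * L + Cv * L + L := by rw [hC']; ring
  have h11 : Cv ≤ Cv * L := le_mul_of_one_le_right hCv.le (by linarith)
  have h12 : 0 < 12 * C * L := by positivity
  linarith

end Pool.Agent.Lib.H68T
end

-- from Lib.H51D.DHF
section

/-!
# Chunk DHF: the twisted sums of `λ` at a zero
-/

open Finset

namespace Pool.Agent.Lib.H68T

/-- the convolution of two characters -/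
noncomputable def DHF_f {N₁ N₂ : ℕ} (χ₁ : DirichletCharacter ℂ N₁) (χ₂ : DirichletCharacter ℂ N₂)
    (n : ℕ) : ℂ :=
  ∑ d ∈ n.divisors, χ₁ (d : ZMod N₁) * χ₂ ((n / d : ℕ) : ZMod N₂)

theorem DHF_f_eq {N₁ N₂ : ℕ} (χ₁ : DirichletCharacter ℂ N₁) (χ₂ : DirichletCharacter ℂ N₂) :
    DHF_f χ₁ χ₂ = LSeries.convolution (fun n : ℕ => χ₁ (n : ZMod N₁))
      (fun n : ℕ => χ₂ (n : ZMod N₂)) := by
  rw [LSeries.convolution_def]
  funext n
  unfold DHF_f
  exact (Nat.sum_divisorsAntidiagonal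
    (f := fun a b => χ₁ (a : ZMod N₁) * χ₂ (b : ZMod N₂))).symm

theorem DHF_summable {N₁ N₂ : ℕ} (χ₁ : DirichletCharacter ℂ N₁) (χ₂ : DirichletCharacter ℂ N₂)
    (s : ℂ) (hs : 1 < s.re) : LSeriesSummable (DHF_f χ₁ χ₂) s := by
  rw [DHF_f_eq]
  exact LSeriesSummable.convolution (DirichletCharacter.LSeriesSummable_of_one_lt_re χ₁ hs)
    (DirichletCharacter.LSeriesSummable_of_one_lt_re χ₂ hs)

theorem DHF_LSeries {N₁ N₂ : ℕ} [NeZero N₁] [NeZero N₂] (χ₁ : DirichletCharacter ℂ N₁)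
    (χ₂ : DirichletCharacter ℂ N₂)
    (s : ℂ) (hs : 1 < s.re) : LSeries (DHF_f χ₁ χ₂) s = χ₁.LFunction s * χ₂.LFunction s := by
  rw [DHF_f_eq, LSeries_convolution' (DirichletCharacter.LSeriesSummable_of_one_lt_re χ₁ hs)
    (DirichletCharacter.LSeriesSummable_of_one_lt_re χ₂ hs),
    DirichletCharacter.LFunction_eq_LSeries χ₁ hs, DirichletCharacter.LFunction_eq_LSeries χ₂ hs]


/-- the value of a product of characters to different moduli -/
theorem DHF_val (q r : ℕ) [NeZero q] [NeZero r] (χ : DirichletCharacter ℂ q)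
    (ψ : DirichletCharacter ℂ r) (d : ℕ) :
    (DirichletCharacter.changeLevel (Dvd.intro r rfl) χ *
      DirichletCharacter.changeLevel (Dvd.intro_left q rfl) ψ : DirichletCharacter ℂ (q * r))
        (d : ZMod (q * r)) = χ (d : ZMod q) * ψ (d : ZMod r) := by
  rw [MulChar.mul_apply]
  by_cases h : IsUnit (d : ZMod (q * r))
  · have e1 := DirichletCharacter.changeLevel_eq_cast_of_dvd χ (Dvd.intro r rfl) h.unit
    have e2 := DirichletCharacter.changeLevel_eq_cast_of_dvd ψ (Dvd.intro_left q rfl) h.unit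
    simp only [IsUnit.unit_spec] at e1 e2
    rw [e1, e2, ZMod.cast_natCast (Dvd.intro r rfl), ZMod.cast_natCast (Dvd.intro_left q rfl)]
  · have h0 : ∀ ξ : DirichletCharacter ℂ (q * r), ξ (d : ZMod (q * r)) = 0 :=
      fun ξ => MulChar.map_nonunit ξ h
    rw [h0, zero_mul]
    rw [ZMod.isUnit_iff_coprime, Nat.coprime_mul_iff_right, not_and_or] at h
    rcases h with h | h
    · rw [MulChar.map_nonunit χ (fun hu => h ((ZMod.isUnit_iff_coprime d q).1 hu)), zero_mul]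
    · rw [MulChar.map_nonunit ψ (fun hu => h ((ZMod.isUnit_iff_coprime d r).1 hu)), mul_zero]



end Pool.Agent.Lib.H68T
end

-- from Lib.H18Q.E1
section

/-!
# Project H18Q, chunk E1: the partial sums of `λ(m) m^(-β)` at a zero `β`
-/

open Finset

namespace Pool.Agent.Lib.H18Q

open Pool.Agent.Lib.H68T

/-- Difference of two powers, without a sign of the exponent. -/
theorem e1_diff (s : ℂ) {a b : ℝ} (hs : -1 ≤ s.re) (ha : 0 < a) (hab : a ≤ b) :
    ‖(b : ℂ) ^ (-s) - (a : ℂ) ^ (-s)‖ ≤ ‖s‖ * a ^ (-s.re - 1) * (b - a) := by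
  have hpos : ∀ x ∈ Set.Icc a b, 0 < x := fun x hx => lt_of_lt_of_le ha hx.1
  refine norm_image_sub_le_of_norm_deriv_le_segment' (f := fun x : ℝ => (x : ℂ) ^ (-s))
    (a := a) (b := b) (f' := fun x => -s * (x : ℂ) ^ (-s - 1))
    (fun x hx => (gl1_hasDerivAt s (hpos x hx)).hasDerivWithinAt) (fun x hx => ?_) b ⟨hab, le_rfl⟩
  have hx' := hpos x ⟨hx.1, hx.2.le⟩
  rw [gl1_norm_deriv s hx']
  refine mul_le_mul_of_nonneg_left ?_ (norm_nonneg _)
  exact Real.rpow_le_rpow_of_nonpos ha hx.1 (by linarith)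

/-- Let `f : ℕ → ℂ` have `|∑_{n ≤ u} f n - κ u| ≤ D √u`, and let `F` be analytic in `Re s > 1/2` with
`F s = (s-1) ∑ f n n^(-s)` for `Re s > 1`, `F s = 0`, `3/4 ≤ Re s ≤ 1`, `s ≠ 1`. Then
`∑_{n ≤ u} f n n^(-s) = κ u^(1-s)/(1-s) + O((D + |κ|)(1 + |s|) u^(1/2 - Re s))`.

Proof. Exactly the proof of `dh_analytic` (file `H51D/DHE`), which states the upper bound that
follows from this formula: before the last triangle inequality its proof has the formula (the main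
term there is `κ (ζ-part) = κ u^(1-s)/(1-s)`, with a constant `2` lost in
`∑_{n ≤ u} n^(-s) = u^(1-s)/(1-s) + ζ(s) + O(...)`). Copy that proof and keep the main term. -/
theorem E1_formula (f : ℕ → ℂ) (κ : ℂ) (D : ℝ) (hD : 0 ≤ D)
    (hM : ∀ u : ℕ, ‖(∑ n ∈ Icc 1 u, f n) - κ * u‖ ≤ D * Real.sqrt u)
    (hsum : ∀ s : ℂ, 1 < s.re → LSeriesSummable f s)
    (F : ℂ → ℂ) (hF : AnalyticOnNhd ℂ F {s | 1 / 2 < s.re})
    (hFs : ∀ s : ℂ, 1 < s.re → F s = (s - 1) * LSeries f s)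
    (s : ℂ) (h1 : 3 / 4 ≤ s.re) (h2 : s.re ≤ 1) (hs1 : s ≠ 1) (h0 : F s = 0) (u : ℕ)
    (hu : 1 ≤ u) :
    ‖(∑ n ∈ Icc 1 u, f n * (n : ℂ) ^ (-s)) - κ * (u : ℂ) ^ (1 - s) / (1 - s)‖ ≤
      100 * (D + ‖κ‖) * (1 + ‖s‖) * (u : ℝ) ^ (1 / 2 - s.re) := by
  have hs0 : 0 < s.re := by linarith
  have hs12 : 1 / 2 < s.re := by linarith
  have hG := DHE_analytic f κ D hD hM
  -- the identity
  have hid : F s = κ * gl2_Z s + (s - 1) * ∑' n, DHE_A f κ n s := by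
    have ha : AnalyticOnNhd ℂ (fun s => κ * gl2_Z s + (s - 1) * ∑' n, DHE_A f κ n s)
        {s | 1 / 2 < s.re} := by
      intro z hz
      exact (analyticAt_const.mul (gl2_Z_differentiable.analyticAt z)).add
        ((analyticAt_id.sub analyticAt_const).mul (hG z hz))
    have hp : IsPreconnected {s : ℂ | 1 / 2 < s.re} :=
      (convex_halfSpace_re_gt (1 / 2)).isPreconnected
    have h4 := hF.eqOn_of_preconnected_of_eventuallyEq ha hp (z₀ := 2) (by simp; norm_num) ?_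
    · exact h4 hs12
    · have h5 : {s : ℂ | 1 < s.re} ∈ nhds (2 : ℂ) :=
        (isOpen_lt continuous_const Complex.continuous_re).mem_nhds (by simp)
      filter_upwards [h5] with z hz
      have hz' : 1 < z.re := hz
      rw [hFs z hz', DHE_series f κ D hM hsum z hz', gl2_Z_eq z (by rintro rfl; simp at hz')]
      ring
  rw [h0] at hid
  -- the finite sum
  have e1 : ∑ n ∈ Icc 1 u, f n * (n : ℂ) ^ (-s) = ∑ n ∈ range u, f (n + 1) * DHE_p n s := by
    rw [← Finset.Ico_succ_right_eq_Icc, Finset.sum_Ico_eq_sum_range]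
    simp only [Order.succ_eq_add_one, Nat.add_sub_cancel]
    refine sum_congr rfl fun n _ => ?_
    rw [add_comm 1 n, DHE_p]
    push_cast
    rfl
  have e2 := DHE_abel f κ s u
  -- sums of `gl2_B`
  have hsumB := (gl1_tele s.re hs0 (‖s - 1‖ * ‖s‖ / s.re) (by positivity) (fun n => gl2_B n s)
    (fun n => gl2_B_norm n s hs0)).1
  have e3 : ∀ K : ℕ, ∑ n ∈ range K, gl2_B n s = (s - 1) * ∑ n ∈ range K, DHE_p n s +
      ((((K : ℝ) + 1 : ℝ) : ℂ) ^ (-(s - 1)) - 1) := by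
    intro K
    induction K with
    | zero => simp
    | succ K ih =>
      rw [sum_range_succ, sum_range_succ, ih, gl2_B, DHE_p]
      have e2 : (((K + 1 : ℕ) : ℝ) + 1 : ℝ) = (K : ℝ) + 2 := by
        push_cast
        ring
      rw [e2]
      ring
  have e4 : gl2_Z s = 1 + ∑ n ∈ range u, gl2_B n s + ∑' n, gl2_B (n + u) s := by
    rw [gl2_eqOn s hs0, ← hsumB.sum_add_tsum_nat_add u]
    ring
  have hsumA := DHE_summable f κ D hM s hs12
  have e5 : ∑' n, DHE_A f κ n s = ∑ n ∈ range u, DHE_A f κ n s + ∑' n, DHE_A f κ (n + u) s :=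
    (hsumA.sum_add_tsum_nat_add u).symm
  have hs1' : s - 1 ≠ 0 := sub_ne_zero.2 hs1
  have hu0 : (0 : ℝ) < u := by exact_mod_cast hu
  have hu1 : (1 : ℝ) ≤ u := by exact_mod_cast hu
  -- the tails
  have hB : ‖∑' n, gl2_B (n + u) s‖ ≤ ‖s - 1‖ * ‖s‖ / s.re * ((u : ℝ) + 1) ^ (-s.re) :=
    XRL_tele s.re _ (by positivity) u _ (fun n => gl2_B_norm (n + u) s hs0)
  have hA : ‖∑' n, DHE_A f κ (n + u) s‖ ≤
      D * ‖s‖ / (s.re - 1 / 2) * (u : ℝ) ^ (-(s.re - 1 / 2)) := by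
    have hh := XRL_tele (s.re - 1 / 2) (D * ‖s‖ / (s.re - 1 / 2))
      (div_nonneg (by positivity) (by linarith)) (u - 1) (fun n => DHE_A f κ (n + u) s) ?_
    · have e6 : (((u - 1 : ℕ) : ℝ) + 1) = u := by
        rw [Nat.cast_sub hu]
        simp
      rwa [e6] at hh
    · intro n
      refine (DHE_A_norm f κ D hM (n + u) s hs0).trans ?_
      have e7 : ((n + (u - 1) : ℕ) : ℝ) + 1 = ((n + u : ℕ) : ℝ) := by
        have : n + (u - 1) + 1 = n + u := by omega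
        exact_mod_cast this
      have e8 : ((n + (u - 1) : ℕ) : ℝ) + 2 = ((n + u : ℕ) : ℝ) + 1 := by
        linarith
      rw [e7, e8]
      have hx : (0 : ℝ) < ((n + u : ℕ) : ℝ) := by
        have : 0 < n + u := by omega
        exact_mod_cast this
      have h9 := DHE_mvt (s.re - 1 / 2) ((n + u : ℕ) : ℝ) (by linarith) hx
      have e9 : -(s.re - 1 / 2) - 1 = -s.re - 1 / 2 := by ring
      rw [e9] at h9
      have hp : 0 < s.re - 1 / 2 := by linarith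
      calc D * ‖s‖ * (((n + u : ℕ) : ℝ) + 1) ^ (-s.re - 1 / 2)
          = D * ‖s‖ / (s.re - 1 / 2) *
            ((s.re - 1 / 2) * (((n + u : ℕ) : ℝ) + 1) ^ (-s.re - 1 / 2)) := by
            rw [← mul_assoc, div_mul_cancel₀ _ hp.ne']
        _ ≤ _ := mul_le_mul_of_nonneg_left h9 (div_nonneg (by positivity) hp.le)
  -- the formula
  have key : ∑ n ∈ Icc 1 u, f n * (n : ℂ) ^ (-s) =
      DHE_E f κ u * DHE_p u s - κ * (∑' n, gl2_B (n + u) s) / (s - 1) -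
        κ * (((u : ℝ) + 1 : ℝ) : ℂ) ^ (-(s - 1)) / (s - 1) - ∑' n, DHE_A f κ (n + u) s := by
    rw [e1, e2]
    have e10 : ∑ n ∈ range u, DHE_p n s = (gl2_Z s - ∑' n, gl2_B (n + u) s -
        (((u : ℝ) + 1 : ℝ) : ℂ) ^ (-(s - 1))) / (s - 1) := by
      rw [eq_div_iff hs1', e4, e3 u]
      ring
    have e11 : ∑ n ∈ range u, DHE_A f κ n s =
        -(κ * gl2_Z s / (s - 1)) - ∑' n, DHE_A f κ (n + u) s := by
      have e12 : ∑' n, DHE_A f κ n s = -(κ * gl2_Z s / (s - 1)) := by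
        field_simp
        linear_combination -hid
      rw [← e12, e5]
      ring
    rw [e10, e11]
    ring
  have hn1 : 0 < ‖1 - s‖ := by
    rw [norm_pos_iff]
    exact sub_ne_zero.2 hs1.symm
  have hs1'' : 1 - s ≠ 0 := sub_ne_zero.2 hs1.symm
  have key2 : (∑ n ∈ Icc 1 u, f n * (n : ℂ) ^ (-s)) - κ * (u : ℂ) ^ (1 - s) / (1 - s) =
      DHE_E f κ u * DHE_p u s - κ * (∑' n, gl2_B (n + u) s) / (s - 1) -
        κ * ((u : ℂ) ^ (1 - s) - (((u : ℝ) + 1 : ℝ) : ℂ) ^ (1 - s)) / (1 - s) -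
        ∑' n, DHE_A f κ (n + u) s := by
    rw [key]
    have e20 : -(s - 1) = 1 - s := by ring
    rw [e20]
    have e21 : s - 1 = -(1 - s) := by ring
    rw [e21]
    field_simp
    ring
  rw [key2]
  have hκ := norm_nonneg κ
  have hns := norm_nonneg s
  have hsw : ‖s - 1‖ = ‖1 - s‖ := norm_sub_rev _ _
  -- bounds
  have b1 : ‖DHE_E f κ u * DHE_p u s‖ ≤ D * (u : ℝ) ^ (1 / 2 - s.re) := by
    rw [norm_mul, DHE_p, Complex.norm_cpow_eq_rpow_re_of_pos (by positivity)]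
    have h3 : ‖DHE_E f κ u‖ ≤ D * (u : ℝ) ^ (1 / 2 : ℝ) := by
      rw [← Real.sqrt_eq_rpow]
      exact hM u
    have h4 : ((u : ℝ) + 1) ^ (-s).re ≤ (u : ℝ) ^ (-s.re) := by
      rw [Complex.neg_re]
      exact Real.rpow_le_rpow_of_nonpos hu0 (by linarith) (by linarith)
    calc ‖DHE_E f κ u‖ * ((u : ℝ) + 1) ^ (-s).re ≤ (D * (u : ℝ) ^ (1 / 2 : ℝ)) * (u : ℝ) ^ (-s.re) :=
          mul_le_mul h3 h4 (Real.rpow_nonneg (by positivity) _) ((norm_nonneg _).trans h3)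
      _ = D * ((u : ℝ) ^ (1 / 2 : ℝ) * (u : ℝ) ^ (-s.re)) := by ring
      _ = _ := by
        rw [← Real.rpow_add hu0]
        ring_nf
  have hpow : ((u : ℝ) + 1) ^ (-s.re) ≤ (u : ℝ) ^ (1 / 2 - s.re) := by
    calc ((u : ℝ) + 1) ^ (-s.re) ≤ (u : ℝ) ^ (-s.re) :=
          Real.rpow_le_rpow_of_nonpos hu0 (by linarith) (by linarith)
      _ ≤ _ := Real.rpow_le_rpow_of_exponent_le hu1 (by linarith)
  have hpos : 0 ≤ (u : ℝ) ^ (1 / 2 - s.re) := Real.rpow_nonneg hu0.le _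
  have b2 : ‖κ * (∑' n, gl2_B (n + u) s) / (s - 1)‖ ≤ 2 * ‖κ‖ * ‖s‖ * (u : ℝ) ^ (1 / 2 - s.re) := by
    rw [norm_div, norm_mul, div_le_iff₀ (by rw [hsw]; exact hn1)]
    have h3 : ‖s - 1‖ * ‖s‖ / s.re ≤ 2 * (‖s - 1‖ * ‖s‖) := by
      rw [div_le_iff₀ hs0]
      have : 0 ≤ ‖s - 1‖ * ‖s‖ := by positivity
      nlinarith
    calc ‖κ‖ * ‖∑' n, gl2_B (n + u) s‖
        ≤ ‖κ‖ * (2 * (‖s - 1‖ * ‖s‖) * (u : ℝ) ^ (1 / 2 - s.re)) := by
          apply mul_le_mul_of_nonneg_left _ hκ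
          refine hB.trans ?_
          exact mul_le_mul h3 hpow (Real.rpow_nonneg (by positivity) _) (by positivity)
      _ = _ := by ring
  have b3 : ‖κ * ((u : ℂ) ^ (1 - s) - (((u : ℝ) + 1 : ℝ) : ℂ) ^ (1 - s)) / (1 - s)‖ ≤
      ‖κ‖ * (u : ℝ) ^ (1 / 2 - s.re) := by
    rw [norm_div, norm_mul, div_le_iff₀ hn1]
    have h3 := e1_diff (s - 1) (a := (u : ℝ)) (b := (u : ℝ) + 1) (by simp; linarith) hu0
      (by linarith)
    have e30 : -(s - 1) = 1 - s := by ring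
    have e31 : -(s - 1).re - 1 = -s.re := by simp
    have e32 : (u : ℝ) + 1 - (u : ℝ) = 1 := by ring
    rw [e30, e31, e32, mul_one, hsw, norm_sub_rev] at h3
    have h4 : (u : ℝ) ^ (-s.re) ≤ (u : ℝ) ^ (1 / 2 - s.re) :=
      Real.rpow_le_rpow_of_exponent_le hu1 (by linarith)
    calc ‖κ‖ * ‖(u : ℂ) ^ (1 - s) - (((u : ℝ) + 1 : ℝ) : ℂ) ^ (1 - s)‖
        ≤ ‖κ‖ * (‖1 - s‖ * (u : ℝ) ^ (1 / 2 - s.re)) := by
          apply mul_le_mul_of_nonneg_left _ hκ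
          have h5 : ‖(u : ℂ) ^ (1 - s) - (((u : ℝ) + 1 : ℝ) : ℂ) ^ (1 - s)‖ ≤
              ‖1 - s‖ * (u : ℝ) ^ (-s.re) := by
            simpa using h3
          exact h5.trans (mul_le_mul_of_nonneg_left h4 hn1.le)
      _ = _ := by ring
  have b4 : ‖∑' n, DHE_A f κ (n + u) s‖ ≤ 4 * D * ‖s‖ * (u : ℝ) ^ (1 / 2 - s.re) := by
    refine hA.trans ?_
    have e14 : -(s.re - 1 / 2) = 1 / 2 - s.re := by ring
    rw [e14]
    apply mul_le_mul_of_nonneg_right _ hpos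
    rw [div_le_iff₀ (by linarith)]
    have : 0 ≤ D * ‖s‖ := by positivity
    nlinarith
  have t1 := norm_sub_le (DHE_E f κ u * DHE_p u s - κ * (∑' n, gl2_B (n + u) s) / (s - 1) -
        κ * ((u : ℂ) ^ (1 - s) - (((u : ℝ) + 1 : ℝ) : ℂ) ^ (1 - s)) / (1 - s))
        (∑' n, DHE_A f κ (n + u) s)
  have t2 := norm_sub_le (DHE_E f κ u * DHE_p u s - κ * (∑' n, gl2_B (n + u) s) / (s - 1))
        (κ * ((u : ℂ) ^ (1 - s) - (((u : ℝ) + 1 : ℝ) : ℂ) ^ (1 - s)) / (1 - s))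
  have t3 := norm_sub_le (DHE_E f κ u * DHE_p u s) (κ * (∑' n, gl2_B (n + u) s) / (s - 1))
  have t4 : D * (u : ℝ) ^ (1 / 2 - s.re) + 2 * ‖κ‖ * ‖s‖ * (u : ℝ) ^ (1 / 2 - s.re) +
      ‖κ‖ * (u : ℝ) ^ (1 / 2 - s.re) + 4 * D * ‖s‖ * (u : ℝ) ^ (1 / 2 - s.re) ≤
      100 * (D + ‖κ‖) * (1 + ‖s‖) * (u : ℝ) ^ (1 / 2 - s.re) := by
    have : D + 2 * ‖κ‖ * ‖s‖ + ‖κ‖ + 4 * D * ‖s‖ ≤ 100 * (D + ‖κ‖) * (1 + ‖s‖) := by
      have h5 : 0 ≤ D * ‖s‖ := by positivity
      have h6 : 0 ≤ ‖κ‖ * ‖s‖ := by positivity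
      nlinarith
    have h7 := mul_le_mul_of_nonneg_right this hpos
    linarith
  linarith

/-- Lower bound for the partial sums of `λ = 1 * ψ` at a real zero `β` of `L(s, ψ)`.

Proof. `E1_formula` with `f = λ` (as complex numbers), `κ = L(1, ψ)`, `D = 4 r`
(`hyperbola` in `H68X/XRH`), `F s = gl2_Z s * ψ.LFunction s` (`gl2_Z s = (s-1) ζ(s)`,
`LSeries λ = ζ L` by `LSeries_convolution'`/`zetaMul`-lemmas as in `H51D` file `DHF` or `DHG`),
`s = β`. `L(1, ψ)` is real and positive (its norm is its value: real since `ψ` is real,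
`ZF2_conj`; positivity is not needed if one takes the real part and uses
`(L(1)).re = ‖L(1)‖`, which follows from the formula itself or from
`DirichletCharacter.LFunction` positivity for real characters: `0 ≤ ∑_{m ≤ u} λ(m)/u → L(1)`).
`‖κ‖ ≤ 2 r` (`LFunction_bound`), `1 + β ≤ 2`: the error is at most `100 · 6 r · 2 ≤ 2000 r`. -/
theorem E1_lower (r : ℕ) [NeZero r] (ψ : DirichletCharacter ℂ r) (hψ : ψ ≠ 1) (h2 : ψ ^ 2 = 1)
    (β : ℝ) (hβ : 3 / 4 ≤ β) (hβ1 : β < 1) (h0 : ψ.LFunction (β : ℂ) = 0) (x : ℕ) (hx : 1 ≤ x) :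
    ‖ψ.LFunction 1‖ * (x : ℝ) ^ (1 - β) / (1 - β) - 2000 * r * (x : ℝ) ^ (1 / 2 - β) ≤
      ∑ m ∈ Icc 1 x, lam ψ m * (m : ℝ) ^ (-β) := by
  have hr1 : (1 : ℝ) ≤ r := by exact_mod_cast Nat.one_le_iff_ne_zero.2 (NeZero.ne r)
  set κ : ℂ := ψ.LFunction 1 with hκdef
  set f : ℕ → ℂ := fun n => ∑ d ∈ n.divisors, ψ (d : ZMod r) with hf
  have hflam : ∀ n, f n = ((lam ψ n : ℝ) : ℂ) := fun n => (lam_cast r ψ h2 n).symm
  have hfD : f = DHF_f ψ (1 : DirichletCharacter ℂ 1) := by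
    funext n
    rw [hf]
    unfold DHF_f
    apply Finset.sum_congr rfl
    intro d _
    have : (1 : DirichletCharacter ℂ 1) ((n / d : ℕ) : ZMod 1) = 1 := by
      rw [Subsingleton.elim ((n / d : ℕ) : ZMod 1) 1, map_one]
    rw [this, mul_one]
  have hMf : ∀ u : ℕ, ‖(∑ n ∈ Icc 1 u, f n) - κ * u‖ ≤ (4 * r) * Real.sqrt u := by
    intro u
    have := hyperbola r ψ hψ u
    rw [mul_comm κ]
    exact this
  -- positivity of `L(1)`
  have hκpos : κ = ((‖κ‖ : ℝ) : ℂ) := by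
    have hcl : IsClosed {z : ℂ | z.im = 0 ∧ 0 ≤ z.re} :=
      (isClosed_eq Complex.continuous_im continuous_const).inter
        (isClosed_le continuous_const Complex.continuous_re)
    have hlim : Filter.Tendsto (fun y : ℕ => (∑ n ∈ Icc 1 (y + 1), f n) / ((y + 1 : ℕ) : ℂ))
        Filter.atTop (nhds κ) := by
      rw [tendsto_iff_norm_sub_tendsto_zero]
      have h3 : Filter.Tendsto (fun y : ℕ => (4 * (r : ℝ)) / Real.sqrt ((y + 1 : ℕ) : ℝ))
          Filter.atTop (nhds 0) := by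
        apply Filter.Tendsto.div_atTop tendsto_const_nhds
        apply Real.tendsto_sqrt_atTop.comp
        exact tendsto_natCast_atTop_atTop.comp (Filter.tendsto_add_atTop_nat 1)
      refine squeeze_zero (fun _ => norm_nonneg _) (fun y => ?_) h3
      have hy : (0 : ℝ) < ((y + 1 : ℕ) : ℝ) := by positivity
      have hyc : (((y + 1 : ℕ) : ℂ)) ≠ 0 := by exact_mod_cast hy.ne'
      have e1 : (∑ n ∈ Icc 1 (y + 1), f n) / ((y + 1 : ℕ) : ℂ) - κ =
          ((∑ n ∈ Icc 1 (y + 1), f n) - κ * ((y + 1 : ℕ) : ℂ)) / ((y + 1 : ℕ) : ℂ) := by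
        rw [sub_div, mul_div_assoc, div_self hyc, mul_one]
      rw [e1, norm_div, Complex.norm_natCast, div_le_iff₀ hy]
      refine (hMf (y + 1)).trans (le_of_eq ?_)
      have hsq : Real.sqrt ((y + 1 : ℕ) : ℝ) * Real.sqrt ((y + 1 : ℕ) : ℝ) = ((y + 1 : ℕ) : ℝ) :=
        Real.mul_self_sqrt hy.le
      have hsp : 0 < Real.sqrt ((y + 1 : ℕ) : ℝ) := Real.sqrt_pos.mpr hy
      rw [div_mul_eq_mul_div, eq_div_iff hsp.ne', mul_assoc, hsq]
    have hmem : κ ∈ {z : ℂ | z.im = 0 ∧ 0 ≤ z.re} := by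
      refine hcl.mem_of_tendsto hlim (Filter.Eventually.of_forall fun y => ?_)
      have e2 : (∑ n ∈ Icc 1 (y + 1), f n) / ((y + 1 : ℕ) : ℂ) =
          (((∑ n ∈ Icc 1 (y + 1), lam ψ n) / ((y + 1 : ℕ) : ℝ) : ℝ) : ℂ) := by
        rw [Finset.sum_congr rfl (fun n _ => hflam n)]
        push_cast
        rfl
      rw [e2]
      refine ⟨Complex.ofReal_im _, ?_⟩
      rw [Complex.ofReal_re]
      exact div_nonneg (Finset.sum_nonneg fun n _ => lam_nonneg r ψ h2 n) (Nat.cast_nonneg _)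
    have h4 : κ = ((κ.re : ℝ) : ℂ) := by
      apply Complex.ext
      · simp
      · simp [hmem.1]
    have h5 : ‖κ‖ = κ.re := by
      rw [h4, Complex.norm_real, Complex.ofReal_re, Real.norm_of_nonneg hmem.2]
    rw [h5]
    exact h4
  have hκ2 : ‖κ‖ ≤ 2 * r := by
    have := LFunction_bound r ψ hψ 1 (by norm_num)
    simpa using this
  have hβ0 : (β : ℂ) ≠ 1 := by
    intro h
    have : β = 1 := by exact_mod_cast h
    linarith
  have hmain := E1_formula f κ (4 * r) (by positivity) hMf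
    (fun s hs => by rw [hfD]; exact DHF_summable ψ _ s hs)
    (fun z => ψ.LFunction z * gl2_Z z)
    (fun z _ => ((DirichletCharacter.differentiable_LFunction hψ).mul
      gl2_Z_differentiable).analyticAt z)
    (fun z hz => by
      have hz1 : z ≠ 1 := by
        rintro rfl
        simp at hz
      change ψ.LFunction z * gl2_Z z = _
      rw [hfD, DHF_LSeries ψ _ z hz, gl2_Z_eq z hz1, DirichletCharacter.LFunction_modOne_eq]
      ring)
    (β : ℂ) (by rw [Complex.ofReal_re]; exact hβ) (by rw [Complex.ofReal_re]; exact hβ1.le) hβ0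
    (by rw [h0, zero_mul]) x hx
  have e3 : ∑ n ∈ Icc 1 x, f n * (n : ℂ) ^ (-(β : ℂ)) =
      ((∑ m ∈ Icc 1 x, lam ψ m * (m : ℝ) ^ (-β) : ℝ) : ℂ) := by
    rw [Complex.ofReal_sum]
    apply Finset.sum_congr rfl
    intro n _
    rw [hflam, Complex.ofReal_mul, Complex.ofReal_cpow (Nat.cast_nonneg _)]
    push_cast
    rfl
  have e4 : κ * (x : ℂ) ^ (1 - (β : ℂ)) / (1 - (β : ℂ)) =
      ((‖κ‖ * (x : ℝ) ^ (1 - β) / (1 - β) : ℝ) : ℂ) := by
    rw [Complex.ofReal_div, Complex.ofReal_mul, Complex.ofReal_cpow (Nat.cast_nonneg _), ← hκpos]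
    push_cast
    rfl
  rw [e3, e4, ← Complex.ofReal_sub, Complex.norm_real, Complex.norm_real, Complex.ofReal_re,
    Real.norm_eq_abs, Real.norm_of_nonneg (by linarith : (0 : ℝ) ≤ β)] at hmain
  have hpx : 0 ≤ (x : ℝ) ^ (1 / 2 - β) := Real.rpow_nonneg (Nat.cast_nonneg _) _
  have h6 : 100 * (4 * (r : ℝ) + ‖κ‖) * (1 + β) ≤ 2000 * r := by
    have := norm_nonneg κ
    nlinarith
  have h7 := mul_le_mul_of_nonneg_right h6 hpx
  have h8 := (abs_le.mp hmain).1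
  linarith

end Pool.Agent.Lib.H18Q
end
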