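import Pool.Agent.Lib.H1M.RV2.M014
import Pool.Agent.Lib.H1M.RV2.M017

/-! Merged copies (to shorten the build) of Lib.H18Q.Z5A, Lib.H68T.ZF3. -/

-- from Lib.H18Q.Z5A
section

/-!
# Project H18Q, chunk Z5A: growth data of the primitive L-functions
-/

open Finset

namespace Pool.Agent.Lib.H18Q

open Pool.Agent.Lib.H68T

/-- Products. Proof: `f s₀ ≠ 0`, `g s₀ ≠ 0` at `s₀ = 1 + lam + i v` (`zre`), `logDeriv_mul`, the
rest is multiplication and the triangle inequality. -/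
theorem LDat.mul {C0 C0' ℓ T : ℝ} {f g : ℂ → ℂ} (hf : LDat C0 ℓ T f) (hg : LDat C0' ℓ T g) :
    LDat (C0 + C0') ℓ T (fun s => f s * g s) := by
  refine ⟨hf.diff.mul hg.diff, ?_, ?_, ?_⟩
  · intro ρ h
    rcases mul_eq_zero.1 h with h | h
    · exact hf.zre ρ h
    · exact hg.zre ρ h
  · intro lam v h1 h2 h3 s hs
    have h4 := hf.growth lam v h1 h2 h3 s hs
    have h5 := hg.growth lam v h1 h2 h3 s hs
    simp only [norm_mul]
    rw [add_mul, Real.exp_add]
    calc ‖f s‖ * ‖g s‖ ≤ (Real.exp (C0 * ℓ) * ‖f (1 + lam + v * Complex.I)‖) *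
          (Real.exp (C0' * ℓ) * ‖g (1 + lam + v * Complex.I)‖) :=
          mul_le_mul h4 h5 (norm_nonneg _) (by positivity)
      _ = _ := by ring
  · intro lam v h1 h2 h3
    have h4 := hf.ld lam v h1 h2 h3
    have h5 := hg.ld lam v h1 h2 h3
    set s₀ : ℂ := 1 + lam + v * Complex.I with hs₀
    by_cases h0 : f s₀ * g s₀ = 0
    · rw [logDeriv_apply, h0, div_zero, norm_zero, add_div]
      have := norm_nonneg (logDeriv f s₀)
      have := norm_nonneg (logDeriv g s₀)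
      linarith
    · replace h0 := mul_ne_zero_iff.1 h0
      rw [logDeriv_mul s₀ h0.1 h0.2 hf.diff.differentiableAt hg.diff.differentiableAt, add_div]
      exact (norm_add_le _ _).trans (add_le_add h4 h5)

theorem LDat.mono {C0 C0' ℓ T T' : ℝ} {f : ℂ → ℂ} (h : LDat C0 ℓ T f) (hC : C0 ≤ C0')
    (hT : T' ≤ T) (hℓ : 0 ≤ ℓ) : LDat C0' ℓ T' f := by
  refine ⟨h.diff, h.zre, ?_, ?_⟩
  · intro lam v h1 h2 h3 s hs
    refine (h.growth lam v h1 h2 (h3.trans hT) s hs).trans ?_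
    apply mul_le_mul_of_nonneg_right _ (norm_nonneg _)
    exact Real.exp_le_exp.2 (mul_le_mul_of_nonneg_right hC hℓ)
  · intro lam v h1 h2 h3
    refine (h.ld lam v h1 h2 (h3.trans hT)).trans ?_
    apply div_le_div_of_nonneg_right hC
    exact le_trans (by positivity) h1

/-- facts on `s₀` and on `s` in the disc -/
theorem z5a_pt {lam v η X : ℝ} (hl : 0 < lam) (hl8 : lam ≤ 1 / 8) (hv : |v| ≤ X) (hη : 0 ≤ η)
    (hη8 : η ≤ 1 / 8) {s : ℂ} (hs : s ∈ Metric.closedBall (1 + lam + v * Complex.I : ℂ) (1 / 2)) :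
    1 / 2 ≤ (s + η).re ∧ (s + η).re ≤ 3 ∧ |(s + η).im| ≤ X + 1 ∧ ‖s + η‖ ≤ X + 3 := by
  rw [Metric.mem_closedBall, Complex.dist_eq] at hs
  have h1 := (Complex.abs_re_le_norm _).trans hs
  have h2 := (Complex.abs_im_le_norm _).trans hs
  simp only [Complex.sub_re, Complex.sub_im, Complex.add_re, Complex.add_im, Complex.one_re,
    Complex.one_im, Complex.ofReal_re, Complex.ofReal_im, Complex.mul_re, Complex.mul_im,
    Complex.I_re, Complex.I_im, mul_zero, mul_one, sub_zero, zero_add, add_zero] at h1 h2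
  rw [abs_le] at h1 h2 hv
  have e1 : (s + η).re = s.re + η := by simp
  have e2 : (s + η).im = s.im := by simp
  rw [e1, e2]
  have h3 : |s.im| ≤ X + 1 := by
    rw [abs_le]
    constructor <;> linarith [h2.1, h2.2, hv.1, hv.2]
  have h5 : ‖s + η‖ ≤ X + 3 := by
    have h6 := Complex.norm_le_abs_re_add_abs_im (s + η)
    rw [e1, e2] at h6
    have h7 : |s.re + η| ≤ 2 := by
      rw [abs_le]
      constructor <;> linarith [h1.1, h1.2]
    linarith
  exact ⟨by linarith [h1.1], by linarith [h1.2], h3, h5⟩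

theorem z5a_re (lam v η : ℝ) : ((1 + lam + v * Complex.I : ℂ) + η).re = 1 + lam + η := by
  simp

theorem z5a_ld : ∃ C : ℝ, 0 < C ∧ ∀ (N : ℕ) [NeZero N] (χ : DirichletCharacter ℂ N) (lam v η : ℝ),
    0 < lam → lam ≤ 1 / 8 → 0 ≤ η → η ≤ 1 / 8 →
    ‖logDeriv χ.LFunction ((1 + lam + v * Complex.I : ℂ) + η)‖ ≤ 1 / lam + C := by
  obtain ⟨C, hC, h⟩ := vonMangoldt_le
  refine ⟨C, hC, fun N _ χ lam v η hl hl8 hη hη8 => ?_⟩
  have hre := z5a_re lam v η
  have h1 := lab1_char N χ ((1 + lam + v * Complex.I : ℂ) + η) (by rw [hre]; linarith)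
  have h2 := norm_LSeries_vM_le N χ ((1 + lam + v * Complex.I : ℂ) + η) (by rw [hre]; linarith)
  rw [h1, norm_neg, hre] at h2
  have h3 := h (1 + lam + η) (by linarith) (by linarith)
  refine h2.trans (h3.trans ?_)
  have h4 : 1 / (1 + lam + η - 1) ≤ 1 / lam :=
    one_div_le_one_div_of_le hl (by linarith)
  linarith

theorem z5a_low (N : ℕ) [NeZero N] (χ : DirichletCharacter ℂ N) (lam v η : ℝ)
    (hl : 0 < lam) (hl8 : lam ≤ 1 / 8) (hη : 0 ≤ η) :
    lam / 2 ≤ ‖χ.LFunction ((1 + lam + v * Complex.I : ℂ) + η)‖ := by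
  have hre := z5a_re lam v η
  have h1 := lab2_lower N χ ((1 + lam + v * Complex.I : ℂ) + η) (by rw [hre]; linarith)
  rw [DirichletCharacter.LFunction_eq_LSeries χ (by rw [hre]; linarith)]
  refine le_trans ?_ h1
  rw [hre, div_le_div_iff₀ (by norm_num) (by linarith)]
  nlinarith

theorem z5a_logQ {Q : ℕ} (hQ : (4 : ℝ) ≤ Q) : 0 < Real.log Q ∧ Real.log Q ≤ Q := by
  refine ⟨Real.log_pos (by linarith), ?_⟩
  have := Real.log_le_sub_one_of_pos (by linarith : (0 : ℝ) < Q)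
  linarith

theorem z5a_exp {Q : ℕ} (hQ : (4 : ℝ) ≤ Q) (k : ℕ) (C : ℝ) (hC : k ≤ C) :
    (Q : ℝ) ^ k ≤ Real.exp (C * Real.log Q) := by
  have h1 : (Q : ℝ) ^ k = Real.exp (k * Real.log Q) := by
    rw [mul_comm, Real.exp_mul, Real.exp_log (by linarith), Real.rpow_natCast]
  rw [h1]
  exact Real.exp_le_exp.2 (mul_le_mul_of_nonneg_right hC (z5a_logQ hQ).1.le)

theorem z5a_logDeriv_shift (f : ℂ → ℂ) (η : ℝ) (s : ℂ) :
    logDeriv (fun s => f (s + η)) s = logDeriv f (s + η) := by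
  rw [logDeriv_apply, logDeriv_apply, deriv_comp_add_const]

/-- Growth data of `L(s + η, χ)`, `χ ≠ 1` modulo `N ≤ Q²`, `0 ≤ η ≤ 1/8`.

Proof. `ℓ = log Q`, `T = Q^10`, `s₀ = 1 + lam + i v`. Entire:
`DirichletCharacter.differentiable_LFunction`. `zre`: `LFunction (ρ + η) = 0` implies
`Re (ρ + η) < 1` (`DirichletCharacter.LFunction_ne_zero_of_one_le_re`, `χ ≠ 1`). Growth: `|s - s₀| ≤
1/2` gives `Re (s + η) ≥ 1/2`, so `LFunction_bound`: `|L(s + η)| ≤ 2 N |s + η| ≤ 2 Q² (Q^10 + 3)`,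
and `|L(s₀ + η)| ≥ (lam + η)/(1 + lam + η) ≥ lam/2 ≥ 1/(2 log Q)` (`lab2_lower`, with
`DirichletCharacter.LFunction_eq_LSeries` for `Re > 1`; `x/(1+x)` is increasing). So the quotient is
at most `4 Q² (Q^10 + 3) log Q ≤ exp (20 log Q)` for `Q ≥ 4`. Logarithmic derivative: `lab1_char`,
`norm_LSeries_vM_le`, `vonMangoldt_le`: `≤ 1/(lam + η) + C ≤ (1 + C)/lam`; use `logDeriv` of
the composition with the translation (`logDeriv_comp` or `deriv_comp_add_const`). -/
theorem LDat_shift : ∃ C0 K : ℝ, 1 ≤ C0 ∧ ∀ Q : ℕ, K ≤ Q → ∀ (N : ℕ) [NeZero N]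
    (χ : DirichletCharacter ℂ N), N ≤ Q ^ 2 → χ ≠ 1 → ∀ η : ℝ, 0 ≤ η → η ≤ 1 / 8 →
    LDat C0 (Real.log Q) ((Q : ℝ) ^ 10) (fun s => χ.LFunction (s + η)) := by
  obtain ⟨C, hC, hld⟩ := z5a_ld
  refine ⟨20 + C, 4, by linarith, fun Q hQ N _ χ hN hχ η hη hη8 => ?_⟩
  obtain ⟨hlog, hlogQ⟩ := z5a_logQ hQ
  refine ⟨?_, ?_, ?_, ?_⟩
  · exact (DirichletCharacter.differentiable_LFunction hχ).comp
      (differentiable_id.add (differentiable_const _))
  · intro ρ h
    by_contra hcon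
    have h1 : 1 ≤ (ρ + η).re := by
      have : (ρ + η).re = ρ.re + η := by simp
      rw [this]
      linarith [not_lt.1 hcon]
    exact DirichletCharacter.LFunction_ne_zero_of_one_le_re χ (Or.inl hχ) h1 h
  · intro lam v h1 h2 h3 s hs
    have hl : 0 < lam := lt_of_lt_of_le (by positivity) h1
    obtain ⟨p1, p2, p3, p4⟩ := z5a_pt hl h2 h3 hη hη8 hs
    have q1 := LFunction_bound N χ hχ (s + η) p1
    have q2 := z5a_low N χ lam v η hl h2 hη
    have hN' : (N : ℝ) ≤ (Q : ℝ) ^ 2 := by exact_mod_cast hN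
    have q3 : ‖χ.LFunction (s + η)‖ ≤ (Q : ℝ) ^ 18 * (1 / (2 * Q)) := by
      refine q1.trans ?_
      have hQ0 : (0 : ℝ) < Q := by linarith
      have r1 : 2 * (N : ℝ) * ‖s + η‖ ≤ 2 * (Q : ℝ) ^ 2 * ((Q : ℝ) ^ 10 + 3) := by
        apply mul_le_mul _ p4 (norm_nonneg _) (by positivity)
        linarith
      refine r1.trans ?_
      have r2 : (1 : ℝ) ≤ (Q : ℝ) ^ 10 := one_le_pow₀ (by linarith)
      have r3 : (4 : ℝ) ^ 2 ≤ (Q : ℝ) ^ 2 := pow_le_pow_left₀ (by norm_num) hQ 2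
      have r4 : (1 : ℝ) ≤ (Q : ℝ) ^ 3 := one_le_pow₀ (by linarith)
      have r5 : (Q : ℝ) ^ 18 * (1 / (2 * Q)) = (Q : ℝ) ^ 2 * (Q : ℝ) ^ 10 * (Q : ℝ) ^ 2 * (Q : ℝ) ^ 3 / 2 := by
        field_simp
      rw [r5]
      have r6 : 2 * (Q : ℝ) ^ 2 * ((Q : ℝ) ^ 10 + 3) ≤ (Q : ℝ) ^ 2 * (Q : ℝ) ^ 10 * 8 := by
        nlinarith [pow_pos hQ0 2]
      have r7 : (Q : ℝ) ^ 2 * (Q : ℝ) ^ 10 * 8 ≤ (Q : ℝ) ^ 2 * (Q : ℝ) ^ 10 * (Q : ℝ) ^ 2 * (Q : ℝ) ^ 3 / 2 := by
        have t1 : 0 < (Q : ℝ) ^ 2 * (Q : ℝ) ^ 10 := by positivity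
        have t2 : (16 : ℝ) ≤ (Q : ℝ) ^ 2 * (Q : ℝ) ^ 3 := by nlinarith
        nlinarith [mul_le_mul_of_nonneg_left t2 t1.le]
      exact r6.trans r7
    have q4 : 1 / (2 * (Q : ℝ)) ≤ ‖χ.LFunction ((1 + lam + v * Complex.I : ℂ) + η)‖ := by
      refine le_trans ?_ q2
      have r1 : 1 / (Q : ℝ) ≤ 1 / Real.log Q := one_div_le_one_div_of_le hlog hlogQ
      have r2 : 1 / (2 * (Q : ℝ)) = (1 / Q) / 2 := by field_simp
      rw [r2]
      linarith
    refine q3.trans ?_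
    exact mul_le_mul (z5a_exp hQ 18 (20 + C) (by push_cast; linarith)) q4 (by positivity) (by positivity)
  · intro lam v h1 h2 h3
    have hl : 0 < lam := lt_of_lt_of_le (by positivity) h1
    rw [z5a_logDeriv_shift]
    refine (hld N χ lam v η hl h2 hη hη8).trans ?_
    rw [le_div_iff₀ hl, add_mul, div_mul_cancel₀ _ hl.ne']
    nlinarith

/-- the trivial character -/
theorem z5a_triv_eq (N : ℕ) [NeZero N] (s : ℂ) : DirichletCharacter.LFunctionTrivChar₁ N s =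
    gl2_Z s * ∏ p ∈ N.primeFactors, (1 - (p : ℂ) ^ (-s)) := by
  by_cases hs : s = 1
  · subst hs
    rw [gl2_Z_one, one_mul]
    unfold DirichletCharacter.LFunctionTrivChar₁
    rw [Function.update_self]
    refine Finset.prod_congr rfl fun p _ => ?_
    rw [Complex.cpow_neg_one]
  · rw [gl2_Z_eq s hs, DirichletCharacter.LFunctionTrivChar₁, Function.update_of_ne hs,
      DirichletCharacter.LFunctionTrivChar_eq_mul_riemannZeta hs]
    ring

theorem z5a_prod (N : ℕ) [NeZero N] (s : ℂ) (hs : 0 ≤ s.re) :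
    ‖∏ p ∈ N.primeFactors, (1 - (p : ℂ) ^ (-s))‖ ≤ N := by
  rw [norm_prod]
  have h1 : ∏ p ∈ N.primeFactors, ‖1 - (p : ℂ) ^ (-s)‖ ≤ ∏ p ∈ N.primeFactors, (p : ℝ) := by
    refine Finset.prod_le_prod (fun _ _ => norm_nonneg _) fun p hp => ?_
    have hp2 : 2 ≤ p := (Nat.prime_of_mem_primeFactors hp).two_le
    have hp2' : (2 : ℝ) ≤ p := by exact_mod_cast hp2
    have h2 : ‖(p : ℂ) ^ (-s)‖ ≤ 1 := by
      rw [Complex.norm_natCast_cpow_of_pos (by omega), Complex.neg_re]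
      exact Real.rpow_le_one_of_one_le_of_nonpos (by linarith) (by linarith)
    calc ‖1 - (p : ℂ) ^ (-s)‖ ≤ ‖(1 : ℂ)‖ + ‖(p : ℂ) ^ (-s)‖ := norm_sub_le _ _
      _ ≤ 2 := by rw [norm_one]; linarith
      _ ≤ p := hp2'
  refine h1.trans ?_
  have h3 : ∏ p ∈ N.primeFactors, p ≤ N := Nat.le_of_dvd (Nat.pos_of_ne_zero (NeZero.ne N)) (Nat.prod_primeFactors_dvd N)
  have h4 : ((∏ p ∈ N.primeFactors, p : ℕ) : ℝ) ≤ (N : ℝ) := Nat.cast_le.2 h3
  rw [Nat.cast_prod] at h4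
  exact h4

/-- Growth data of `(s + η - 1) L(s + η, 1_N)` for the trivial character modulo `N ≤ Q²`
(`DirichletCharacter.LFunctionTrivChar₁ N`, entire).

Proof. As `LDat_shift`. For `s ≠ 1`, `LFunctionTrivChar₁ N s = (s - 1) L(s, 1_N) =
gl2_Z s ∏_{p ∣ N} (1 - p^(-s))` (`gl2_Z = LFunctionTrivChar₁ 1`;
`DirichletCharacter.LFunctionTrivChar_eq_mul_riemannZeta`), at `1` by continuity; the product has
absolute value at most `∏_{p ∣ N} 2 ≤ N` for `Re s ≥ 0`; `gl2_Z_bound` for `Re s ≤ 3`. Zeros: a zero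
`ρ + η` of `LFunctionTrivChar₁` with `Re ≥ 1` is impossible (`riemannZeta_ne_zero_of_one_le_re`,
`gl2_Z_one`, `|p^(-s)| < 1`, `LFunctionTrivChar₁_apply_one_ne_zero`). Lower bound at `s₀ + η`:
`|s₀ + η - 1| ≥ lam + η`, `|L(s₀ + η, 1_N)| ≥ (lam + η)/(1 + lam + η)` (`lab2_lower`), product
`≥ lam²/2`. Logarithmic derivative: `1/(s-1)` (at most `1/(lam+η)`) plus that of `L(s, 1_N)`
(`lab1_char`, `norm_LSeries_vM_le`, `vonMangoldt_le`). -/
theorem LDat_shift_triv : ∃ C0 K : ℝ, 1 ≤ C0 ∧ ∀ Q : ℕ, K ≤ Q → ∀ (N : ℕ) [NeZero N],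
    N ≤ Q ^ 2 → ∀ η : ℝ, 0 ≤ η → η ≤ 1 / 8 →
    LDat C0 (Real.log Q) ((Q : ℝ) ^ 10)
      (fun s => DirichletCharacter.LFunctionTrivChar₁ N (s + η)) := by
  obtain ⟨C, hC, hld⟩ := z5a_ld
  refine ⟨30 + C, 4, by linarith, fun Q hQ N _ hN η hη hη8 => ?_⟩
  obtain ⟨hlog, hlogQ⟩ := z5a_logQ hQ
  refine ⟨?_, ?_, ?_, ?_⟩
  · exact (DirichletCharacter.differentiable_LFunctionTrivChar₁ N).comp
      (differentiable_id.add (differentiable_const _))
  · intro ρ h
    by_contra hcon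
    have h1 : 1 ≤ (ρ + η).re := by
      have : (ρ + η).re = ρ.re + η := by simp
      rw [this]
      linarith [not_lt.1 hcon]
    by_cases hs : ρ + (η : ℂ) = 1
    · simp only [hs] at h
      exact DirichletCharacter.LFunctionTrivChar₁_apply_one_ne_zero N h
    · simp only [DirichletCharacter.LFunctionTrivChar₁, Function.update_of_ne hs] at h
      rcases mul_eq_zero.1 h with h2 | h2
      · exact sub_ne_zero.2 hs h2
      · exact DirichletCharacter.LFunction_ne_zero_of_one_le_re _ (Or.inr hs) h1 h2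
  · intro lam v h1 h2 h3 s hs
    have hl : 0 < lam := lt_of_lt_of_le (by positivity) h1
    obtain ⟨p1, p2, p3, p4⟩ := z5a_pt hl h2 h3 hη hη8 hs
    have q1 := gl2_Z_bound (s + η) p1 p2
    have q1' := z5a_prod N (s + η) (by linarith)
    have q2 := z5a_low N (1 : DirichletCharacter ℂ N) lam v η hl h2 hη
    have hN' : (N : ℝ) ≤ (Q : ℝ) ^ 2 := by exact_mod_cast hN
    have hQ0 : (0 : ℝ) < Q := by linarith
    have q3 : ‖DirichletCharacter.LFunctionTrivChar₁ N (s + η)‖ ≤ (Q : ℝ) ^ 30 * (1 / (2 * Q ^ 2)) := by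
      rw [z5a_triv_eq, norm_mul]
      have r0 : 4 * (|(s + η).im| + 3) ^ 2 ≤ 4 * (5 * (Q : ℝ) ^ 10) ^ 2 := by
        have r2 : (1 : ℝ) ≤ (Q : ℝ) ^ 10 := one_le_pow₀ (by linarith)
        have r3 : |(s + η).im| + 3 ≤ 5 * (Q : ℝ) ^ 10 := by linarith
        have r4 : (|(s + η).im| + 3) ^ 2 ≤ (5 * (Q : ℝ) ^ 10) ^ 2 := pow_le_pow_left₀ (by positivity) r3 2
        linarith
      have r1 := mul_le_mul (q1.trans r0) (q1'.trans hN') (norm_nonneg _) (by positivity)
      refine r1.trans ?_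
      have r5 : (Q : ℝ) ^ 30 * (1 / (2 * Q ^ 2)) = (Q : ℝ) ^ 22 * (Q : ℝ) ^ 6 / 2 := by
        field_simp
      have r6 : 4 * (5 * (Q : ℝ) ^ 10) ^ 2 * (Q : ℝ) ^ 2 = 100 * (Q : ℝ) ^ 22 := by ring
      rw [r5, r6]
      have r7 : (4 : ℝ) ^ 6 ≤ (Q : ℝ) ^ 6 := pow_le_pow_left₀ (by norm_num) hQ 6
      have r8 : (0 : ℝ) < (Q : ℝ) ^ 22 := by positivity
      nlinarith [mul_le_mul_of_nonneg_left r7 r8.le]
    have q4 : 1 / (2 * (Q : ℝ) ^ 2) ≤
        ‖DirichletCharacter.LFunctionTrivChar₁ N ((1 + lam + v * Complex.I : ℂ) + η)‖ := by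
      have hne : (1 + lam + v * Complex.I : ℂ) + η ≠ 1 := by
        intro h
        have := congrArg Complex.re h
        rw [z5a_re, Complex.one_re] at this
        linarith
      rw [DirichletCharacter.LFunctionTrivChar₁, Function.update_of_ne hne, norm_mul]
      have t1 : lam ≤ ‖(1 + lam + v * Complex.I : ℂ) + η - 1‖ := by
        refine le_trans ?_ (Complex.re_le_norm _)
        rw [Complex.sub_re, z5a_re, Complex.one_re]
        linarith
      have t2 : 1 / (Q : ℝ) ≤ lam := (one_div_le_one_div_of_le hlog hlogQ).trans h1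
      have t3 : lam * (lam / 2) ≤ ‖(1 + lam + v * Complex.I : ℂ) + η - 1‖ *
          ‖(1 : DirichletCharacter ℂ N).LFunction ((1 + lam + v * Complex.I : ℂ) + η)‖ :=
        mul_le_mul t1 q2 (by positivity) (norm_nonneg _)
      refine le_trans ?_ t3
      have t4 : 1 / (2 * (Q : ℝ) ^ 2) = (1 / Q) * (1 / Q) / 2 := by field_simp
      have t5 : (1 / (Q : ℝ)) * (1 / Q) ≤ lam * lam := mul_le_mul t2 t2 (by positivity) hl.le
      rw [t4]
      linarith
    refine q3.trans ?_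
    exact mul_le_mul (z5a_exp hQ 30 (30 + C) (by push_cast; linarith)) q4 (by positivity) (by positivity)
  · intro lam v h1 h2 h3
    have hl : 0 < lam := lt_of_lt_of_le (by positivity) h1
    have hne : (1 + lam + v * Complex.I : ℂ) + η ≠ 1 := by
      intro h
      have := congrArg Complex.re h
      rw [z5a_re, Complex.one_re] at this
      linarith
    rw [z5a_logDeriv_shift]
    have hL := z5a_low N (1 : DirichletCharacter ℂ N) lam v η hl h2 hη
    have hLne : (1 : DirichletCharacter ℂ N).LFunction ((1 + lam + v * Complex.I : ℂ) + η) ≠ 0 := by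
      intro h
      rw [h, norm_zero] at hL
      linarith
    have hs1 : (1 + lam + v * Complex.I : ℂ) + η - 1 ≠ 0 := sub_ne_zero.2 hne
    have hsplit : logDeriv (DirichletCharacter.LFunctionTrivChar₁ N) ((1 + lam + v * Complex.I : ℂ) + η) =
        logDeriv (1 : DirichletCharacter ℂ N).LFunction ((1 + lam + v * Complex.I : ℂ) + η) +
          1 / ((1 + lam + v * Complex.I : ℂ) + η - 1) := by
      rw [logDeriv_apply, logDeriv_apply,
        DirichletCharacter.deriv_LFunctionTrivChar₁_apply_of_ne_one N hne,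
        DirichletCharacter.LFunctionTrivChar₁, Function.update_of_ne hne]
      simp only [DirichletCharacter.LFunctionTrivChar]
      field_simp
    rw [hsplit]
    have t1 : lam ≤ ‖(1 + lam + v * Complex.I : ℂ) + η - 1‖ := by
      refine le_trans ?_ (Complex.re_le_norm _)
      rw [Complex.sub_re, z5a_re, Complex.one_re]
      linarith
    have t2 : ‖1 / ((1 + lam + v * Complex.I : ℂ) + η - 1)‖ ≤ 1 / lam := by
      rw [norm_div, norm_one]
      exact one_div_le_one_div_of_le hl t1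
    refine (norm_add_le _ _).trans ?_
    have t3 := hld N (1 : DirichletCharacter ℂ N) lam v η hl h2 hη hη8
    refine (add_le_add t3 t2).trans ?_
    rw [le_div_iff₀ hl, add_mul, add_mul, div_mul_cancel₀ _ hl.ne']
    nlinarith

/-- Growth data of `Lp p`: `LDat_shift` with `η = 0` for `p ≠ p0` (`Lp_mem`, `ne_one_of_ne_p0`),
`LDat_shift_triv` with `N = 1`, `η = 0` for `p = p0` (`Lp_p0`, `gl2_Z` is by definition
`LFunctionTrivChar₁ 1`). -/
theorem LDat_Lp : ∃ C0 K : ℝ, 1 ≤ C0 ∧ ∀ Q : ℕ, K ≤ Q → ∀ p ∈ PC Q,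
    LDat C0 (Real.log Q) ((Q : ℝ) ^ 10) (Lp p) := by
  obtain ⟨C1, K1, hC1, h1⟩ := LDat_shift
  obtain ⟨C2, K2, hC2, h2⟩ := LDat_shift_triv
  refine ⟨max C1 C2, max 4 (max K1 K2), hC1.trans (le_max_left _ _), fun Q hQ p hp => ?_⟩
  have hQ4 : (4 : ℝ) ≤ Q := (le_max_left _ _).trans hQ
  have hQ1 : K1 ≤ (Q : ℝ) := ((le_max_left _ _).trans (le_max_right _ _)).trans hQ
  have hQ2 : K2 ≤ (Q : ℝ) := ((le_max_right _ _).trans (le_max_right _ _)).trans hQ
  have hQ4' : 4 ≤ Q := by exact_mod_cast hQ4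
  have hlog := (z5a_logQ hQ4).1
  by_cases h : p = p0
  · have h3 := h2 Q hQ2 1 (by nlinarith) 0 le_rfl (by norm_num)
    rw [h, Lp_p0]
    have h4 : (fun s : ℂ => DirichletCharacter.LFunctionTrivChar₁ 1 (s + ((0 : ℝ) : ℂ))) = gl2_Z := by
      funext s
      rw [Complex.ofReal_zero, add_zero]
      rfl
    rw [h4] at h3
    exact h3.mono (le_max_right _ _) le_rfl hlog.le
  · obtain ⟨hne, hLp⟩ := Lp_mem hp h
    have hmem := mem_PC.mp hp
    have h3 := h1 Q hQ1 p.1 p.2 (by nlinarith [hmem.2.1]) (ne_one_of_ne_p0 hp h) 0 le_rfl (by norm_num)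
    have h4 : (fun s : ℂ => p.2.LFunction (s + ((0 : ℝ) : ℂ))) = p.2.LFunction := by
      funext s
      rw [Complex.ofReal_zero, add_zero]
    rw [h4] at h3
    rw [hLp]
    exact h3.mono (le_max_left _ _) le_rfl hlog.le

end Pool.Agent.Lib.H18Q
end

-- from Lib.H68T.ZF3
section

/-!
# Chunk ZF3; part of ZF1, ZF2, ZF3: zero-free regions
(`L := log Q`; all `log N, log(|t|+3), log(1/(σ-1))` in `re_char` are `O(L)` for `N ≤ Q^2`,
`|t| ≤ 2 Q^12 + 2`, `σ = 1 + a/L`.)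
-/

open Finset

namespace Pool.Agent.Lib.H68T

theorem zf3_near (s : ℂ) (hs : 1 ≤ s.re) : ∀ᶠ z in nhds s, riemannZeta z ≠ 0 := by
  by_cases h1 : s = 1
  · subst h1
    have h2 := riemannZeta_residue_one
    have h3 : ∀ᶠ z in nhdsWithin (1 : ℂ) {1}ᶜ, (z - 1) * riemannZeta z ≠ 0 :=
      h2.eventually_ne one_ne_zero
    rw [eventually_nhdsWithin_iff] at h3
    filter_upwards [h3] with z hz
    by_cases hz1 : z = 1
    · rw [hz1]; exact riemannZeta_one_ne_zero
    · exact right_ne_zero_of_mul (hz hz1)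
  · have h2 : ContinuousAt riemannZeta s := (differentiableAt_riemannZeta h1).continuousAt
    exact h2.eventually_ne (riemannZeta_ne_zero_of_one_le_re hs)

theorem zf3_low : ∃ δ : ℝ, 0 < δ ∧ ∀ ρ : ℂ, riemannZeta ρ = 0 → |ρ.im| ≤ 1 →
    ρ.re < 1 - δ := by
  have hK : IsCompact ((fun y : ℝ => (1 + y * Complex.I : ℂ)) '' Set.Icc (-1) 1) :=
    isCompact_Icc.image (by fun_prop)
  obtain ⟨δ, hδ, hsub⟩ := hK.exists_thickening_subset_open
    (isOpen_interior (s := {z : ℂ | riemannZeta z ≠ 0})) (by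
      rintro s ⟨y, -, rfl⟩
      rw [mem_interior_iff_mem_nhds]
      exact zf3_near _ (by simp))
  refine ⟨δ / 2, by positivity, fun ρ hρ him => ?_⟩
  by_contra hcon
  push Not at hcon
  have hre : ρ.re < 1 := by
    by_contra h
    push Not at h
    exact riemannZeta_ne_zero_of_one_le_re h hρ
  have hmem : ρ ∈ Metric.thickening δ
      ((fun y : ℝ => (1 + y * Complex.I : ℂ)) '' Set.Icc (-1) 1) := by
    rw [Metric.mem_thickening_iff]
    refine ⟨1 + ρ.im * Complex.I, ⟨ρ.im, abs_le.1 him, rfl⟩, ?_⟩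
    rw [Complex.dist_eq]
    have : ρ - (1 + ρ.im * Complex.I) = ((ρ.re - 1 : ℝ) : ℂ) := by
      apply Complex.ext <;> simp
    rw [this, Complex.norm_real, Real.norm_eq_abs, abs_of_nonpos (by linarith)]
    linarith
  exact interior_subset (hsub hmem) hρ

/-- **ZF3**, zeta. For `|γ| ≥ a/L` as in ZF2 (with `three_four_one_zeta`, and
`Re 1/(σ-1+iγ) ≤ (a/L)/((a/L)² + γ²) ≤ L/(2a)`; choose the threshold `|γ| ≥ 1` instead, where this
is `O(1)`); for `|γ| ≤ 1` use that `(s-1) ζ(s)` (value `1` at `1`) has no zero on the compact set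
`Re s = 1, |Im s| ≤ 1`, hence none in `Re s ≥ 1 - δ`, `|Im s| ≤ 1` for some `δ > 0`. -/
theorem zero_free_zeta : ∃ c₁ K : ℝ, 0 < c₁ ∧ ∀ Q : ℕ, K ≤ Q → ∀ ρ : ℂ, riemannZeta ρ = 0 →
    |ρ.im| ≤ (Q : ℝ) ^ 12 + 1 → ρ.re < 1 - c₁ / Real.log Q := by
  obtain ⟨C₁, hC₁, hvM⟩ := vonMangoldt_le
  obtain ⟨C₂, hC₂, hre⟩ := re_zeta
  obtain ⟨δ, hδ, hlow⟩ := zf3_low
  set C' : ℝ := 3 * C₁ + 5 + 75 * C₂ with hC'
  have hC'5 : 5 < C' := by rw [hC']; nlinarith
  set a : ℝ := 1 / (2 * C') with ha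
  have ha0 : 0 < a := by positivity
  have ha10 : a ≤ 1 / 10 := by
    rw [ha]
    exact one_div_le_one_div_of_le (by norm_num) (by linarith)
  set c₁ : ℝ := a / 8 with hc₁
  have hc₁0 : 0 < c₁ := by positivity
  refine ⟨c₁, Real.exp (10 + 2 * |Real.log a| + c₁ / δ), hc₁0, ?_⟩
  intro Q hQ ρ hρ him
  have hQ0 : (0 : ℝ) < Q := lt_of_lt_of_le (Real.exp_pos _) hQ
  set L : ℝ := Real.log Q with hL
  have hLb : 10 + 2 * |Real.log a| + c₁ / δ ≤ L := (Real.le_log_iff_exp_le hQ0).2 hQ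
  have hcδ : 0 ≤ c₁ / δ := by positivity
  have hlog0 : 0 ≤ |Real.log a| := abs_nonneg _
  have hL10 : 10 ≤ L := by linarith
  have hL0 : 0 < L := by linarith
  have hQ3 : (3 : ℝ) ≤ Q := by
    have h1 : L ≤ Q := (Real.log_le_sub_one_of_pos hQ0).trans (by linarith)
    linarith
  by_contra hcon
  push Not at hcon
  have hre1 : ρ.re < 1 := by
    by_contra h
    push Not at h
    exact riemannZeta_ne_zero_of_one_le_re h hρ
  rcases le_or_gt |ρ.im| 1 with hγ | hγ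
  · have h1 := hlow ρ hρ hγ
    have h2 : c₁ / L ≤ δ := by
      rw [div_le_iff₀ hL0]
      have : c₁ / δ ≤ L := by linarith
      rw [div_le_iff₀ hδ] at this
      linarith
    linarith
  · set γ : ℝ := ρ.im with hγdef
    set σ : ℝ := 1 + a / L with hσ
    have haL : a / L ≤ 1 / 100 := by
      rw [div_le_iff₀ hL0]
      linarith
    have haL0 : 0 < a / L := by positivity
    have hσ1 : 1 < σ := by linarith
    have hσ2 : σ ≤ 5 / 4 := by linarith
    have hcL : c₁ / L ≤ 1 / 100 := by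
      rw [div_le_iff₀ hL0]
      have : c₁ ≤ a := by rw [hc₁]; linarith
      linarith
    have hσβ : σ - ρ.re ≤ (a + c₁) / L := by
      rw [hσ, add_div]
      linarith
    have hσβ0 : 0 < σ - ρ.re := by linarith
    have h341 := three_four_one_zeta σ γ hσ1
    have e1 := hvM σ hσ1 (by linarith)
    have e2 := hre σ γ hσ1 hσ2 {ρ} (by
      intro ρ' hρ'
      rw [Finset.mem_singleton] at hρ'
      subst hρ'
      refine ⟨hρ, ?_⟩
      have : ρ' - (σ + γ * Complex.I) = ((ρ'.re - σ : ℝ) : ℂ) := by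
        apply Complex.ext <;> simp [hγdef]
      rw [this, Complex.norm_real, Real.norm_eq_abs, abs_of_nonpos (by linarith)]
      rw [add_div] at hσβ
      linarith)
    have e3 := hre σ (2 * γ) hσ1 hσ2 ∅ (by simp)
    rw [Finset.sum_singleton] at e2
    rw [Finset.sum_empty, sub_zero] at e3
    have f1 : (1 / ((σ : ℂ) + γ * Complex.I - ρ)).re = 1 / (σ - ρ.re) := by
      have : (σ : ℂ) + γ * Complex.I - ρ = ((σ - ρ.re : ℝ) : ℂ) := by
        apply Complex.ext <;> simp [hγdef]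
      rw [this, ← Complex.ofReal_one, ← Complex.ofReal_div, Complex.ofReal_re]
    have f2 : ∀ t : ℝ, 1 ≤ |t| → (1 / ((σ : ℂ) + t * Complex.I - 1)).re ≤ 1 := by
      intro t ht
      refine (Complex.re_le_norm _).trans ?_
      rw [norm_div, norm_one]
      have h1 : |t| ≤ ‖(σ : ℂ) + t * Complex.I - 1‖ := by
        have h2 := Complex.abs_im_le_norm ((σ : ℂ) + t * Complex.I - 1)
        simpa using h2
      rw [div_le_one (by linarith)]
      linarith
    have hLa : Real.log (1 / (σ - 1)) ≤ L := by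
      have h1 : 1 / (σ - 1) = L / a := by
        have h0 : σ - 1 = a / L := by rw [hσ]; ring
        rw [h0, one_div, inv_div]
      rw [h1, Real.log_div hL0.ne' ha0.ne']
      have h2 : Real.log L ≤ L / 2 := by
        have h3 := Real.log_le_sub_one_of_pos (show 0 < L / 2 by positivity)
        rw [Real.log_div hL0.ne' (by norm_num)] at h3
        have h4 := Real.log_two_lt_d9
        linarith
      have h5 : -Real.log a ≤ |Real.log a| := neg_le_abs _
      linarith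
    have hpow : 2 * ((Q : ℝ) ^ 12 + 1) + 3 ≤ (Q : ℝ) ^ 13 := by
      have h1 : (Q : ℝ) ^ 13 = (Q : ℝ) ^ 12 * Q := by ring
      have h2 : (3 : ℝ) ^ 12 ≤ (Q : ℝ) ^ 12 := pow_le_pow_left₀ (by norm_num) hQ3 12
      rw [h1]
      nlinarith
    have hlt : ∀ t : ℝ, |t| ≤ 2 * ((Q : ℝ) ^ 12 + 1) → Real.log (|t| + 3) ≤ 13 * L := by
      intro t ht
      have h0 : 0 ≤ |t| := abs_nonneg _
      have h1 : Real.log (|t| + 3) ≤ Real.log ((Q : ℝ) ^ 13) :=
        Real.log_le_log (by linarith) (by linarith)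
      rw [Real.log_pow] at h1
      push_cast at h1
      exact h1
    have hQ12 : (0 : ℝ) ≤ (Q : ℝ) ^ 12 := by positivity
    have g2 := hlt γ (by linarith)
    have g3 := hlt (2 * γ) (by rw [abs_mul, abs_two]; linarith)
    have k2 := f2 γ hγ.le
    have k3 := f2 (2 * γ) (by rw [abs_mul, abs_two]; linarith)
    rw [f1] at e2
    have m2 : C₂ * (Real.log (|γ| + 3) + Real.log (1 / (σ - 1)) + 1) ≤ C₂ * (15 * L) :=
      mul_le_mul_of_nonneg_left (by linarith) hC₂.le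
    have m3 : C₂ * (Real.log (|2 * γ| + 3) + Real.log (1 / (σ - 1)) + 1) ≤ C₂ * (15 * L) :=
      mul_le_mul_of_nonneg_left (by linarith) hC₂.le
    have e1' : 1 / (σ - 1) = L / a := by
      have h0 : σ - 1 = a / L := by rw [hσ]; ring
      rw [h0, one_div, inv_div]
    rw [e1'] at e1
    have e4 : (LSeries (fun n => (ArithmeticFunction.vonMangoldt n : ℂ))
        (σ + 2 * γ * Complex.I)).re ≤ 1 + C₂ * (15 * L) := by
      have h1 : ((σ : ℂ) + 2 * γ * Complex.I) = σ + ((2 * γ : ℝ) : ℂ) * Complex.I := by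
        push_cast; ring
      rw [h1]
      linarith
    have n1 : L / (a + c₁) ≤ 1 / (σ - ρ.re) := by
      rw [div_le_div_iff₀ (by positivity) hσβ0]
      rw [le_div_iff₀ hL0] at hσβ
      linarith
    have n2 : 4 * (L / (a + c₁)) ≤ 3 * (L / a) + C' * L := by
      have : C' * L = 3 * C₁ * L + 5 * L + 75 * C₂ * L := by rw [hC']; ring
      have h1 : 3 * C₁ ≤ 3 * C₁ * L := by nlinarith
      have h2 : (5 : ℝ) ≤ 5 * L := by linarith
      rw [this]
      linarith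
    have n3 : L / (a + c₁) = (8 / 9) * (L / a) := by
      rw [hc₁]
      field_simp
      ring
    have n4 : C' * L = (1 / 2) * (L / a) := by
      rw [ha]
      field_simp
    rw [n3, n4] at n2
    have n5 : 0 < L / a := by positivity
    linarith

end Pool.Agent.Lib.H68T
end
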