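import Mathlib
import Pool.Agent.Lib.H1M.RV2.M003
import Pool.Agent.Lib.H1M.RV2.M007
import Pool.Agent.Lib.H1M.RV2.M013
import Pool.Agent.Lib.H1M.RV2.M018

/-! Merged copies (to shorten the build) of Lib.H21T.B5, Lib.H21T.B6, Lib.H21T.B9, Lib.H21T.B11, Lib.H37T.A2, Lib.H37T.A3, Lib.H3B.S0C, Lib.H3B.S0D, Lib.H21T.Z1, Lib.H44W.M0, Lib.H3B.S0A, Lib.H81W.S4, Lib.H81W.S5, Lib.H81W.S6, Lib.H3B.S34, Lib.H3B.CS, Lib.H3B.SY, Lib.H3B.TP, Lib.H3B.S2A, Lib.H81A.NU. -/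

-- from Lib.H21T.B5
section

/-!
# Chunk B5 (S/M): one piece
-/

namespace Pool.Agent.Lib.H21T

open Finset Pool.Agent.SZW

/-- A residue class in an interval is a progression: if the set is not empty let `a` be its smallest element and `W` its cardinality; it is
the image of `range W` under `j ↦ a + q j`. -/
theorem b5_ap (a0 a1 q r : ℕ) (hq : 1 ≤ q) : ∃ a W : ℕ, a0 ≤ a ∧ (∀ j < W, a + q * j < a1) ∧ W ≤ a1 - a0 ∧
    (Ico a0 a1).filter (fun a => a % q = r) = (range W).image fun j => a + q * j := by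
  rcases Finset.eq_empty_or_nonempty ((Ico a0 a1).filter (fun a => a % q = r)) with h | h
  · refine ⟨a0, 0, le_refl _, ?_, Nat.zero_le _, ?_⟩
    · intro j hj
      omega
    · rw [h]
      simp
  · obtain ⟨a, ha⟩ : ∃ a, a = ((Ico a0 a1).filter (fun a => a % q = r)).min' h := ⟨_, rfl⟩
    have ham : a ∈ (Ico a0 a1).filter (fun a => a % q = r) := by
      rw [ha]
      exact Finset.min'_mem _ h
    have hmin : ∀ b ∈ (Ico a0 a1).filter (fun a => a % q = r), a ≤ b := by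
      intro b hb
      rw [ha]
      exact Finset.min'_le _ b hb
    rw [mem_filter, mem_Ico] at ham
    obtain ⟨⟨h1, h2⟩, h3⟩ := ham
    have hW : ∀ j, j < (a1 - a - 1) / q + 1 → a + q * j < a1 := by
      intro j hj
      have h4 : j ≤ (a1 - a - 1) / q := by omega
      have h5 : j * q ≤ a1 - a - 1 := (Nat.le_div_iff_mul_le (by omega)).1 h4
      have h6 : q * j = j * q := Nat.mul_comm q j
      omega
    refine ⟨a, (a1 - a - 1) / q + 1, h1, hW, ?_, ?_⟩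
    · have := Nat.div_le_self (a1 - a - 1) q
      omega
    · ext b
      rw [mem_image]
      constructor
      · intro hb
        have h4 := hmin b hb
        rw [mem_filter, mem_Ico] at hb
        have h5 : a ≡ b [MOD q] := by
          unfold Nat.ModEq
          rw [h3, hb.2]
        obtain ⟨j, hj⟩ := (Nat.modEq_iff_dvd' h4).1 h5
        refine ⟨j, ?_, by omega⟩
        rw [mem_range]
        have h6 : j * q ≤ a1 - a - 1 := by
          rw [Nat.mul_comm]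
          omega
        have h7 := (Nat.le_div_iff_mul_le (by omega : 0 < q)).2 h6
        omega
      · rintro ⟨j, hj, rfl⟩
        rw [mem_range] at hj
        rw [mem_filter, mem_Ico]
        refine ⟨⟨by omega, hW j hj⟩, ?_⟩
        rw [Nat.add_mul_mod_self_left]
        exact h3

/-- `b5_ap` and `b3` for `y j = yv x q r' (a + q j)`, `z j = yv (x + H) q r' (a + q j)`, `η = 3 / S` (`b4` with `a + q l s` in place of `a`; for `(l + 1) s ≤ W`, `j < s`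
the point `a + q (l s + j)` is `< a1 ≤ a0 + Λ`). The map `j ↦ a + q j` is injective. `W ≤ Λ`, so the bound is `W / s + 12 W / S + s ≤ Λ (1 / s + 12 / S) + S`. -/
theorem b5 {A x X S Λ : ℕ} (G : Geo A x X S Λ) {a0 a1 s t H q r r' : ℕ} (h0 : A ≤ a0) (h1 : a1 ≤ a0 + Λ) (hs1 : 1 ≤ s) (hsS : s ≤ S)
    (hco : Nat.Coprime s t) (hap : Ap x S a0 s t) (hH : H * S ^ 2 ≤ A ^ 2) (hq : 1 ≤ q) :
    |∑ a ∈ (Ico a0 a1).filter (fun a => a % q = r), (Fr (yv (x + H) q r' a) - Fr (yv x q r' a))| ≤ Λ * (1 / (s : ℝ) + 12 / S) + S := by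
  obtain ⟨a, W, ha, hW1, hW2, hT⟩ := b5_ap a0 a1 q r hq
  have hS := G.hS
  have hS' : (0 : ℝ) < S := by exact_mod_cast hS
  have hs' : (0 : ℝ) < s := by exact_mod_cast hs1
  rw [hT, Finset.sum_image]
  · have hb : ∀ x' : ℕ, x ≤ x' → x' ≤ x + H → ∀ l j, (l + 1) * s ≤ W → j < s →
        |yv x' q r' (a + q * (l * s + j)) - (yv x' q r' (a + q * (l * s)) - (t : ℝ) * j / s)| ≤ 3 / S := by
      intro x' hx1 hx2 l j hl hj
      have e1 : a + q * (l * s + j) = a + q * (l * s) + q * j := by ring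
      have h2 : l * s + j < W := by
        have : (l + 1) * s = l * s + s := by ring
        omega
      have h3 := hW1 _ h2
      rw [e1] at h3 ⊢
      exact b4 G h0 hs1 hsS hap hx1 hx2 hH hq (by omega) (by omega) hj.le
    have h3 := b3 s t W hs1 hco (fun j => yv x q r' (a + q * j)) (fun j => yv (x + H) q r' (a + q * j)) (3 / S) (by positivity)
      (hb x (le_refl _) (Nat.le_add_right _ _)) (hb (x + H) (Nat.le_add_right _ _) (le_refl _))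
    refine h3.trans ?_
    have hWΛ : (W : ℝ) ≤ Λ := by
      have : W ≤ Λ := by omega
      exact_mod_cast this
    have hsS' : (s : ℝ) ≤ S := by exact_mod_cast hsS
    have e2 : (W : ℝ) / s * (1 + 4 * s * (3 / S)) = W * (1 / (s : ℝ) + 12 / S) := by
      field_simp
      ring
    rw [e2]
    have h4 : (W : ℝ) * (1 / (s : ℝ) + 12 / S) ≤ Λ * (1 / (s : ℝ) + 12 / S) :=
      mul_le_mul_of_nonneg_right hWΛ (by positivity)
    linarith
  · intro i _ j _ hij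
    have h5 : q * i = q * j := by
      have : a + q * i = a + q * j := hij
      omega
    exact Nat.eq_of_mul_eq_mul_left (by omega) h5

end Pool.Agent.Lib.H21T
end

-- from Lib.H21T.B6
section

/-!
# Chunk B6 (S/M): all pieces
-/

namespace Pool.Agent.Lib.H21T

open Finset Pool.Agent.SZW

/-- `s6_part` (with `f a = if a % q = r then .. else 0`). Pieces with `s i ≥ s0`: `b5`, at most `Λ (1 / s0 + 12 / S) + S`; the other pieces (at most `291 X s0 S`, `f4_small`):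
at most `Λ` terms of absolute value at most `1`. `nJ A1 A2 Λ ≤ A / Λ + 1 ≤ 2 A / Λ` (`A2 - A1 ≤ A`, `Λ ≤ A` by `f2_small`). Directions from `exists_dir`.
Total: `2 A (1 / s0 + 12 / S) + 2 A S / Λ + 291 X s0 S Λ`. -/
theorem b6 {A x X S Λ A1 A2 : ℕ} (G : Geo A x X S Λ) (h1 : A ≤ A1) (h2 : A1 ≤ A2) (h3 : A2 ≤ 2 * A) {H q r r' s0 : ℕ}
    (hH : H * S ^ 2 ≤ A ^ 2) (hq : 1 ≤ q) (hs0 : 1 ≤ s0) :
    |∑ a ∈ (Ico A1 A2).filter (fun a => a % q = r), (Fr (yv (x + H) q r' a) - Fr (yv x q r' a))| ≤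
      2 * A * (1 / (s0 : ℝ) + 12 / S) + 2 * A * S / Λ + 291 * X * s0 * S * Λ := by
  obtain ⟨sd, td, hDall⟩ := exists_dir A1 Λ x S G.hS
  have hD := hDall (nJ A1 A2 Λ)
  have hS' : (0 : ℝ) < S := by exact_mod_cast G.hS
  have hΛ' : (0 : ℝ) < Λ := by exact_mod_cast G.hΛ
  have hs0' : (0 : ℝ) < s0 := by exact_mod_cast hs0
  have hA' : (0 : ℝ) < A := by exact_mod_cast G.hA
  have e0 : ∑ a ∈ (Ico A1 A2).filter (fun a => a % q = r), (Fr (yv (x + H) q r' a) - Fr (yv x q r' a)) =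
      ∑ i ∈ range (nJ A1 A2 Λ), ∑ a ∈ (Ico (pa A1 Λ i) (pb A1 A2 Λ i)).filter (fun a => a % q = r),
        (Fr (yv (x + H) q r' a) - Fr (yv x q r' a)) := by
    rw [Finset.sum_filter, s6_part G.hΛ h2]
    refine Finset.sum_congr rfl fun i _ => ?_
    rw [Finset.sum_filter]
  obtain ⟨B, hB⟩ : ∃ B : ℝ, B = Λ * (1 / (s0 : ℝ) + 12 / S) + S := ⟨_, rfl⟩
  have hB0 : 0 ≤ B := by
    rw [hB]
    positivity
  have hpb : ∀ i, pb A1 A2 Λ i ≤ pa A1 Λ i + Λ := by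
    intro i
    unfold pb pa
    have : (i + 1) * Λ = i * Λ + Λ := by ring
    exact (min_le_right _ _).trans (by omega)
  have hterm : ∀ i ∈ range (nJ A1 A2 Λ), |∑ a ∈ (Ico (pa A1 Λ i) (pb A1 A2 Λ i)).filter (fun a => a % q = r),
        (Fr (yv (x + H) q r' a) - Fr (yv x q r' a))| ≤ B + (if sd i < s0 then (Λ : ℝ) else 0) := by
    intro i hi
    rw [mem_range] at hi
    by_cases hc : sd i < s0
    · rw [if_pos hc]
      have h4 : |∑ a ∈ (Ico (pa A1 Λ i) (pb A1 A2 Λ i)).filter (fun a => a % q = r),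
          (Fr (yv (x + H) q r' a) - Fr (yv x q r' a))| ≤ Λ := by
        refine (Finset.abs_sum_le_sum_abs _ _).trans ?_
        have h5 : ∑ a ∈ (Ico (pa A1 Λ i) (pb A1 A2 Λ i)).filter (fun a => a % q = r),
            |Fr (yv (x + H) q r' a) - Fr (yv x q r' a)| ≤
            ∑ _a ∈ (Ico (pa A1 Λ i) (pb A1 A2 Λ i)).filter (fun a => a % q = r), (1 : ℝ) :=
          Finset.sum_le_sum fun j _ => b3_fr _ _
        refine h5.trans ?_
        rw [Finset.sum_const, nsmul_eq_mul, mul_one]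
        have h6 : ((Ico (pa A1 Λ i) (pb A1 A2 Λ i)).filter (fun a => a % q = r)).card ≤ Λ := by
          refine (Finset.card_filter_le _ _).trans ?_
          rw [Nat.card_Ico]
          have := hpb i
          omega
        exact_mod_cast h6
      linarith
    · rw [if_neg hc, add_zero]
      have hsi : s0 ≤ sd i := not_lt.1 hc
      have h4 := b5 (r := r) (r' := r') G (show A ≤ pa A1 Λ i from h1.trans (Nat.le_add_right _ _)) (hpb i) (hD.s1 i hi) (hD.sS i hi)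
        (hD.co i hi) (hD.ap i hi) hH hq
      refine h4.trans ?_
      rw [hB]
      have h5 : (s0 : ℝ) ≤ sd i := by exact_mod_cast hsi
      have h6 : 1 / (sd i : ℝ) ≤ 1 / s0 := one_div_le_one_div_of_le hs0' h5
      have h7 : (Λ : ℝ) * (1 / (sd i : ℝ) + 12 / S) ≤ Λ * (1 / (s0 : ℝ) + 12 / S) :=
        mul_le_mul_of_nonneg_left (by linarith) hΛ'.le
      linarith
  have hnJ : (nJ A1 A2 Λ : ℝ) * Λ ≤ 2 * A := by
    have h4 : nJ A1 A2 Λ * Λ ≤ 2 * A := by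
      unfold nJ
      have h5 := Nat.div_mul_le_self (A2 - A1) Λ
      have h6 : Λ ≤ A := by
        have h7 := f2_small G
        have h8 : 1 ≤ S ^ 2 := Nat.one_le_pow _ _ G.hS
        calc Λ = Λ * 1 := (Nat.mul_one _).symm
          _ ≤ Λ * S ^ 2 := Nat.mul_le_mul_left _ h8
          _ ≤ A := h7
      rw [Nat.add_mul, Nat.one_mul]
      omega
    exact_mod_cast h4
  have hsmall := f4_small G h1 h2 h3 hD s0
  rw [e0]
  refine (Finset.abs_sum_le_sum_abs _ _).trans ((Finset.sum_le_sum hterm).trans ?_)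
  rw [Finset.sum_add_distrib, Finset.sum_const, card_range, nsmul_eq_mul, ← Finset.sum_filter, Finset.sum_const, nsmul_eq_mul]
  have h8 : (nJ A1 A2 Λ : ℝ) * B ≤ 2 * A * (1 / (s0 : ℝ) + 12 / S) + 2 * A * S / Λ := by
    have h9 : (nJ A1 A2 Λ : ℝ) * B = (nJ A1 A2 Λ * Λ) * (1 / (s0 : ℝ) + 12 / S) + (nJ A1 A2 Λ * Λ) * (S / Λ) := by
      rw [hB]
      field_simp
    have h10 : (nJ A1 A2 Λ * Λ : ℝ) * (1 / (s0 : ℝ) + 12 / S) ≤ 2 * A * (1 / (s0 : ℝ) + 12 / S) :=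
      mul_le_mul_of_nonneg_right hnJ (by positivity)
    have h11 : (nJ A1 A2 Λ * Λ : ℝ) * (S / Λ) ≤ 2 * A * (S / Λ) :=
      mul_le_mul_of_nonneg_right hnJ (by positivity)
    have h12 : 2 * (A : ℝ) * S / Λ = 2 * A * (S / Λ) := by ring
    rw [h9, h12]
    linarith
  have h13 := mul_le_mul_of_nonneg_right hsmall hΛ'.le
  linarith

end Pool.Agent.Lib.H21T
end

-- from Lib.H21T.B9
section

/-!
# Chunk B9 (S/M): the number of pairs in a residue class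
-/

namespace Pool.Agent.Lib.H21T

open Finset Pool.Agent.SZW

theorem b9_cnt (A1 A2 x H q r1 r2 : ℕ) : cnt A1 A2 x H q r1 r2 =
    ∑ a ∈ (Ico A1 A2).filter (fun a => a % q = r1),
      ((range (x + H)).filter fun b => (x ≤ a * b ∧ a * b < x + H) ∧ b % q = r2).card := by
  unfold cnt Rg
  rw [Finset.filter_filter, Finset.card_filter, Finset.sum_product, Finset.sum_filter]
  refine Finset.sum_congr rfl fun a _ => ?_
  split_ifs with h
  · rw [Finset.card_filter]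
    refine Finset.sum_congr rfl fun b _ => ?_
    simp only [h, true_and]
  · refine Finset.sum_eq_zero fun b _ => ?_
    rw [if_neg]
    rintro ⟨-, h1, -⟩
    exact h h1

/-- `cnt = ∑_{a ∈ Ico A1 A2, a % q = r1} #{b : x ≤ a b < x + H, b % q = r2}` (fibres of `Rg`), `b7` for each `a`, then `b8` (times `H / q`) and `b6`. -/
theorem b9 {A x X S Λ A1 A2 : ℕ} (G : Geo A x X S Λ) (h1 : A ≤ A1) (h2 : A1 ≤ A2) (h3 : A2 ≤ 2 * A) {H q r1 r2 s0 : ℕ}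
    (hH : H * S ^ 2 ≤ A ^ 2) (hq : 1 ≤ q) (hqA : 2 * q ≤ A) (hr1 : r1 < q) (hr2 : r2 < q) (hs0 : 1 ≤ s0) :
    |(cnt A1 A2 x H q r1 r2 : ℝ) - (H : ℝ) / q ^ 2 * (Real.log A2 - Real.log A1)| ≤
      2 * A * (1 / (s0 : ℝ) + 12 / S) + 2 * A * S / Λ + 291 * X * s0 * S * Λ + 2 * H / A := by
  have hx : 1 ≤ x := by
    have ha := G.hA
    have hb := G.hx
    by_contra hcon
    have h4 : x = 0 := by omega
    rw [h4, mul_zero] at hb
    have : 1 ≤ A ^ 2 := Nat.one_le_pow _ _ ha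
    omega
  have hq0 : (0:ℝ) < q := by exact_mod_cast hq
  have hA0 : (0:ℝ) < A := by exact_mod_cast G.hA
  have hAA1 : (A:ℝ) ≤ A1 := by exact_mod_cast h1
  have hcnt : (cnt A1 A2 x H q r1 r2 : ℝ) = (H : ℝ) / q * (∑ a ∈ (Ico A1 A2).filter (fun a => a % q = r1), 1 / (a : ℝ)) +
      ∑ a ∈ (Ico A1 A2).filter (fun a => a % q = r1), (Fr (yv (x + H) q r2 a) - Fr (yv x q r2 a)) := by
    rw [b9_cnt, Nat.cast_sum, Finset.mul_sum, ← Finset.sum_add_distrib]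
    refine Finset.sum_congr rfl fun a ha => ?_
    have ha1 : 1 ≤ a := by
      have := (Finset.mem_Ico.1 (Finset.mem_filter.1 ha).1).1
      have := G.hA
      omega
    rw [b7 x H q r2 a hx hq hr2 ha1]
    have ha0 : (a : ℝ) ≠ 0 := by positivity
    congr 1
    field_simp
  have e1 := b6 G h1 h2 h3 (r := r1) (r' := r2) hH hq hs0
  have e2 := b8 A1 A2 q r1 hq hr1 (by omega) h2
  have e3 : (cnt A1 A2 x H q r1 r2 : ℝ) - (H : ℝ) / q ^ 2 * (Real.log A2 - Real.log A1) =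
      (H : ℝ) / q * (∑ a ∈ (Ico A1 A2).filter (fun a => a % q = r1), 1 / (a : ℝ) - (Real.log A2 - Real.log A1) / q) +
      ∑ a ∈ (Ico A1 A2).filter (fun a => a % q = r1), (Fr (yv (x + H) q r2 a) - Fr (yv x q r2 a)) := by
    rw [hcnt]
    field_simp
    ring
  rw [e3]
  refine (abs_add_le _ _).trans ?_
  have e4 : |(H : ℝ) / q * (∑ a ∈ (Ico A1 A2).filter (fun a => a % q = r1), 1 / (a : ℝ) - (Real.log A2 - Real.log A1) / q)| ≤
      2 * H / A := by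
    rw [abs_mul, abs_of_nonneg (by positivity : (0:ℝ) ≤ (H : ℝ) / q)]
    have h5 : (H : ℝ) / q ≤ H := div_le_self (by positivity) (by exact_mod_cast hq)
    have h6 : (2:ℝ) / A1 ≤ 2 / A := by
      apply div_le_div_of_nonneg_left (by norm_num) hA0 hAA1
    calc (H : ℝ) / q * |∑ a ∈ (Ico A1 A2).filter (fun a => a % q = r1), 1 / (a : ℝ) - (Real.log A2 - Real.log A1) / q|
        ≤ H * (2 / A) := mul_le_mul h5 (e2.trans h6) (abs_nonneg _) (by positivity)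
      _ = 2 * H / A := by ring
  linarith

end Pool.Agent.Lib.H21T
end

-- from Lib.H21T.B11
section

/-!
# Chunk B11 (S/M): the exponential sum at a rational
-/

namespace Pool.Agent.Lib.H21T

open Finset Pool.Agent.SZW

theorem b11_ee (q : ℕ) (p : ℤ) (hq : 1 ≤ q) (a b : ℕ) :
    ee ((p : ℝ) / q * ((a : ℝ) * b)) = ee ((p : ℝ) / q * (((a % q : ℕ) : ℝ) * ((b % q : ℕ) : ℝ))) := by
  have hq0 : (q : ℝ) ≠ 0 := by positivity
  have h1 : (a : ℝ) = q * ((a / q : ℕ) : ℝ) + ((a % q : ℕ) : ℝ) := by exact_mod_cast (Nat.div_add_mod a q).symm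
  have h2 : (b : ℝ) = q * ((b / q : ℕ) : ℝ) + ((b % q : ℕ) : ℝ) := by exact_mod_cast (Nat.div_add_mod b q).symm
  generalize a / q = a' at h1
  generalize b / q = b' at h2
  generalize a % q = ra at h1 ⊢
  generalize b % q = rb at h2 ⊢
  have h3 : (p : ℝ) / q * ((a : ℝ) * b) = (p : ℝ) / q * ((ra : ℝ) * (rb : ℝ)) +
      ((p * (q * a' * b' + a' * rb + ra * b') : ℤ) : ℝ) := by
    push_cast
    rw [h1, h2]
    field_simp
    ring
  rw [h3, ee_add, ee_int, mul_one]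

theorem b11_SR (A1 A2 x H q : ℕ) (p : ℤ) (hq : 1 ≤ q) :
    SR ((p : ℝ) / q) A1 A2 x H = ∑ r1 ∈ range q, ∑ r2 ∈ range q, ee ((p : ℝ) / q * ((r1 : ℝ) * r2)) * (cnt A1 A2 x H q r1 r2 : ℂ) := by
  unfold SR
  have hm : ∀ pp ∈ Rg A1 A2 x H, (pp.1 % q, pp.2 % q) ∈ range q ×ˢ range q := by
    intro pp _
    rw [Finset.mem_product, Finset.mem_range, Finset.mem_range]
    exact ⟨Nat.mod_lt _ hq, Nat.mod_lt _ hq⟩
  rw [← Finset.sum_fiberwise_of_maps_to hm, Finset.sum_product]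
  refine Finset.sum_congr rfl fun r1 _ => Finset.sum_congr rfl fun r2 _ => ?_
  have h1 : ∀ pp ∈ (Rg A1 A2 x H).filter (fun pp => (pp.1 % q, pp.2 % q) = (r1, r2)),
      ee ((p : ℝ) / q * ((pp.1 : ℝ) * pp.2)) = ee ((p : ℝ) / q * ((r1 : ℝ) * r2)) := by
    intro pp hpp
    have h2 := (Finset.mem_filter.1 hpp).2
    rw [Prod.mk.injEq] at h2
    rw [b11_ee q p hq, h2.1, h2.2]
  rw [Finset.sum_congr rfl h1, Finset.sum_const, nsmul_eq_mul, mul_comm]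
  congr 2
  unfold cnt
  congr 1
  ext pp
  simp only [Finset.mem_filter, Prod.mk.injEq]

/-- `ee (p a b / q)` depends only on `a % q`, `b % q` (`ee_int`); so `SR (p / q) = ∑_{r1, r2 < q} ee (p r1 r2 / q) cnt(r1, r2)`. Replace `cnt` by the main term of `b9` (`q ^ 2` errors) and
use `b10`: the main term is `q * (H / q ^ 2) (log A2 - log A1)`. -/
theorem b11 {A x X S Λ A1 A2 : ℕ} (G : Geo A x X S Λ) (h1 : A ≤ A1) (h2 : A1 ≤ A2) (h3 : A2 ≤ 2 * A) {H q s0 : ℕ} {p : ℤ}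
    (hH : H * S ^ 2 ≤ A ^ 2) (hq : 1 ≤ q) (hqA : 2 * q ≤ A) (hp : IsCoprime p (q : ℤ)) (hs0 : 1 ≤ s0) :
    ‖SR ((p : ℝ) / q) A1 A2 x H - (((H : ℝ) / q * (Real.log A2 - Real.log A1) : ℝ) : ℂ)‖ ≤
      (q : ℝ) ^ 2 * (2 * A * (1 / (s0 : ℝ) + 12 / S) + 2 * A * S / Λ + 291 * X * s0 * S * Λ + 2 * H / A) := by
  have hq0 : (q : ℝ) ≠ 0 := by positivity
  set c0 : ℝ := (H : ℝ) / q ^ 2 * (Real.log A2 - Real.log A1) with hc0
  have e1 : (((H : ℝ) / q * (Real.log A2 - Real.log A1) : ℝ) : ℂ) =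
      ∑ r1 ∈ range q, ∑ r2 ∈ range q, ee ((p : ℝ) / q * ((r1 : ℝ) * r2)) * (c0 : ℂ) := by
    have h4 := b10 q p hq hp
    have h5 : ∑ r1 ∈ range q, ∑ r2 ∈ range q, ee ((p : ℝ) / q * ((r1 : ℝ) * r2)) * (c0 : ℂ) =
        (∑ r1 ∈ range q, ∑ r2 ∈ range q, ee ((p : ℝ) / q * ((r1 : ℝ) * r2))) * (c0 : ℂ) := by
      rw [Finset.sum_mul]
      refine Finset.sum_congr rfl fun r1 _ => ?_
      rw [Finset.sum_mul]
    rw [h5, h4]
    have h6 : (H : ℝ) / q * (Real.log A2 - Real.log A1) = q * c0 := by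
      rw [hc0]
      field_simp
    rw [h6]
    push_cast
    rfl
  rw [b11_SR A1 A2 x H q p hq, e1, ← Finset.sum_sub_distrib]
  refine (norm_sum_le _ _).trans ?_
  set bd : ℝ := 2 * A * (1 / (s0 : ℝ) + 12 / S) + 2 * A * S / Λ + 291 * X * s0 * S * Λ + 2 * H / A with hbd
  have h4 : ∀ r1 ∈ range q, ‖∑ r2 ∈ range q, ee ((p : ℝ) / q * ((r1 : ℝ) * r2)) * (cnt A1 A2 x H q r1 r2 : ℂ) -
      ∑ r2 ∈ range q, ee ((p : ℝ) / q * ((r1 : ℝ) * r2)) * (c0 : ℂ)‖ ≤ q * bd := by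
    intro r1 hr1
    rw [← Finset.sum_sub_distrib]
    refine (norm_sum_le _ _).trans ?_
    have h5 : ∀ r2 ∈ range q, ‖ee ((p : ℝ) / q * ((r1 : ℝ) * r2)) * (cnt A1 A2 x H q r1 r2 : ℂ) -
        ee ((p : ℝ) / q * ((r1 : ℝ) * r2)) * (c0 : ℂ)‖ ≤ bd := by
      intro r2 hr2
      rw [← mul_sub, norm_mul, norm_ee, one_mul]
      have h6 := b9 G h1 h2 h3 (r1 := r1) (r2 := r2) hH hq hqA (Finset.mem_range.1 hr1) (Finset.mem_range.1 hr2) hs0
      have h7 : ((cnt A1 A2 x H q r1 r2 : ℂ) - (c0 : ℂ)) = (((cnt A1 A2 x H q r1 r2 : ℝ) - c0 : ℝ) : ℂ) := by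
        push_cast
        rfl
      rw [h7, Complex.norm_real, Real.norm_eq_abs]
      exact h6
    refine (Finset.sum_le_sum h5).trans ?_
    rw [Finset.sum_const, Finset.card_range, nsmul_eq_mul]
  refine (Finset.sum_le_sum h4).trans ?_
  rw [Finset.sum_const, Finset.card_range, nsmul_eq_mul]
  apply le_of_eq
  ring

end Pool.Agent.Lib.H21T
end

-- from Lib.H37T.A2
section
/-!
H37T: the hypothesis H2 of Heath-Brown's identity (module A) from module B (ClassTwo).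
-/
namespace Pool.Agent.H37T
open Finset Pool.Agent.H44W

theorem TF_add (n : ℕ) (F G W f g : ℤ → ℂ) : TF n (fun m => F m + G m) W f g = TF n F W f g + TF n G W f g := by
  unfold TF
  rw [← Finset.sum_add_distrib]
  refine Finset.sum_congr rfl fun x _ => ?_
  rw [← Finset.sum_add_distrib]
  refine Finset.sum_congr rfl fun y _ => ?_
  ring

/-- A convolution with supports in `[K, 4K)`, `[M, 4M)` is a sum of four pieces. -/
theorem conv_tII (m : ℤ) (hm : 1 ≤ m) (K M : ℕ) (α β : ℕ → ℝ) (hS : ∀ a, α a ≠ 0 → K ≤ a ∧ a < 4 * K)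
    (hT : ∀ b, β b ≠ 0 → M ≤ b ∧ b < 4 * M) :
    lft (fun m => ∑ x ∈ m.divisorsAntidiagonal, α x.1 * β x.2) m =
      (tII K M (fun a => (α a : ℂ)) (fun b => (β b : ℂ)) m + tII K (2 * M) (fun a => (α a : ℂ)) (fun b => (β b : ℂ)) m) +
      (tII (2 * K) M (fun a => (α a : ℂ)) (fun b => (β b : ℂ)) m + tII (2 * K) (2 * M) (fun a => (α a : ℂ)) (fun b => (β b : ℂ)) m) := by
  have h0 : ((m.toNat : ℕ) : ℤ) = m := Int.toNat_of_nonneg (by omega)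
  have h1 : m.toNat ≠ 0 := by omega
  have e1 : ∀ (K M : ℕ), tII K M (fun a => (α a : ℂ)) (fun b => (β b : ℂ)) m =
      ((∑ a ∈ Ico K (2 * K), ∑ b ∈ Ico M (2 * M), if a * b = m.toNat then α a * β b else 0 : ℝ) : ℂ) := by
    intro K M
    unfold tII
    push_cast
    refine Finset.sum_congr rfl fun a _ => Finset.sum_congr rfl fun b _ => ?_
    by_cases h : a * b = m.toNat
    · rw [if_pos h, if_pos (by omega), Complex.ofReal_mul]
    · rw [if_neg h, if_neg (by intro h2; apply h; omega), Complex.ofReal_zero]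
  show ((∑ x ∈ m.toNat.divisorsAntidiagonal, α x.1 * β x.2 : ℝ) : ℂ) = _
  rw [conv_eq m.toNat h1 (Ico K (4 * K)) (Ico M (4 * M)) α β (fun a ha => Finset.mem_Ico.2 (hS a ha)) (fun b hb => Finset.mem_Ico.2 (hT b hb)),
    e1, e1, e1, e1]
  rw [← Finset.sum_Ico_consecutive (m := K) (n := 2 * K) (k := 4 * K) _ (by omega) (by omega)]
  have e2 : ∀ (a : ℕ), ∑ b ∈ Ico M (4 * M), (if a * b = m.toNat then α a * β b else 0) =
      ∑ b ∈ Ico M (2 * M), (if a * b = m.toNat then α a * β b else 0) + ∑ b ∈ Ico (2 * M) (2 * (2 * M)), (if a * b = m.toNat then α a * β b else 0) := by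
    intro a
    rw [show 2 * (2 * M) = 4 * M by ring]
    exact (Finset.sum_Ico_consecutive _ (by omega) (by omega)).symm
  rw [Finset.sum_congr rfl fun a _ => e2 a, Finset.sum_congr (rfl : Ico (2 * K) (4 * K) = _) fun a _ => e2 a, Finset.sum_add_distrib, Finset.sum_add_distrib,
    show 4 * K = 2 * (2 * K) by ring]
  push_cast
  ring

/-- **H2** from module B. -/
theorem h2_of (η : ℝ) (hη : 0 < η) (C : ℕ) (h : ClassTwo C) : ∃ n0 : ℕ, ∀ n : ℕ, n0 ≤ n → ∀ c D : ℝ,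
    2 ≤ D → (∀ m : ℕ, 1 ≤ m → m ≤ 2 * n → (m.divisors.card : ℝ) ≤ D) → D ^ C ≤ ((2 * n : ℕ) : ℝ) ^ c → D ^ C ≤ (n:ℝ) ^ η →
    ∀ W f g : ℤ → ℂ, (∀ x, ‖W x‖ ≤ 1) → (∀ x, ‖f x‖ ≤ 1) → (∀ x, ‖g x‖ ≤ 1) →
    (∀ th : ℝ, ‖∑ z ∈ Icc (1:ℤ) n, g z * ee (th * z)‖ < (n:ℝ) / D ^ C) →
      Pool.Agent.Lib.H81A.H2 c η (2 * n) (tfS n W f g) (4 * ((n:ℝ) ^ 2 / D)) := by
  have hlim : ∀ᶠ n : ℕ in Filter.atTop, (32 : ℝ) ≤ (n : ℝ) ^ η :=
    ((tendsto_rpow_atTop hη).comp tendsto_natCast_atTop_atTop).eventually_ge_atTop 32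
  obtain ⟨n1, hn1⟩ := Filter.eventually_atTop.1 hlim
  refine ⟨max n1 1, fun n hn c D hD hdiv hDK hDη W f g hW hf hg hth => ?_⟩
  have hn2 : (32 : ℝ) ≤ (n : ℝ) ^ η := hn1 n (le_trans (le_max_left _ _) hn)
  have hn3 : (1 : ℝ) ≤ n := by exact_mod_cast le_trans (le_max_right n1 1) hn
  have hn0 : (0 : ℝ) < n := by linarith
  intro K M hK1 hK2 hM1 α β hα hβ hαs hβs
  set K' : ℕ := ⌈K⌉₊ with hK'
  set M' : ℕ := ⌈M⌉₊ with hM'
  have hDC : (1 : ℝ) ≤ D ^ C := one_le_pow₀ (by linarith)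
  have hK0 : (1 : ℝ) ≤ K := le_trans hDC (le_trans hDK hK1)
  have hK'1 : 1 ≤ K' := Nat.one_le_ceil_iff.2 (by linarith)
  have hM'1 : 1 ≤ M' := Nat.one_le_ceil_iff.2 (by linarith)
  have hKc : K ≤ K' := Nat.le_ceil K
  have hMc : M ≤ M' := Nat.le_ceil M
  have hS : ∀ a, α a ≠ 0 → K' ≤ a ∧ a < 4 * K' := by
    intro a ha
    obtain ⟨h1, h2⟩ := hαs a ha
    refine ⟨Nat.ceil_le.2 h1, ?_⟩
    have : (a : ℝ) ≤ 2 * K' := le_trans h2 (by linarith)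
    have h3 : a ≤ 2 * K' := by exact_mod_cast this
    omega
  have hT : ∀ b, β b ≠ 0 → M' ≤ b ∧ b < 4 * M' := by
    intro b hb
    obtain ⟨h1, h2⟩ := hβs b hb
    refine ⟨Nat.ceil_le.2 h1, ?_⟩
    have : (b : ℝ) ≤ 2 * M' := le_trans h2 (by linarith)
    have h3 : b ≤ 2 * M' := by exact_mod_cast this
    omega
  have hup : (2 * (K' : ℝ)) ^ 2 * D ^ C ≤ n := by
    have h1 : (K' : ℝ) ≤ 2 * K := by
      have := Nat.ceil_lt_add_one (by linarith : (0:ℝ) ≤ K)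
      linarith
    have h2n : (0:ℝ) < ((2 * n : ℕ) : ℝ) := by push_cast; linarith
    have h2 : K ^ 2 ≤ ((2 * n : ℕ) : ℝ) ^ (1 - 2 * η) := by
      have h3 : ((2 * n : ℕ) : ℝ) ^ (1 - 2 * η) = (((2 * n : ℕ) : ℝ) ^ (1 / 2 - η)) ^ 2 := by
        rw [← Real.rpow_natCast, ← Real.rpow_mul h2n.le]
        congr 1
        push_cast
        ring
      rw [h3]
      exact pow_le_pow_left₀ (by linarith) hK2 2
    have h3 : ((2 * n : ℕ) : ℝ) ^ (1 - 2 * η) ≤ 2 * (n : ℝ) ^ (1 - 2 * η) := by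
      push_cast
      rw [Real.mul_rpow (by norm_num) (by linarith)]
      refine mul_le_mul_of_nonneg_right ?_ (Real.rpow_nonneg (by linarith) _)
      calc (2:ℝ) ^ (1 - 2 * η) ≤ 2 ^ (1 : ℝ) := Real.rpow_le_rpow_of_exponent_le (by norm_num) (by linarith)
        _ = 2 := Real.rpow_one 2
    have h4 : (2 * (K' : ℝ)) ^ 2 ≤ 32 * (n : ℝ) ^ (1 - 2 * η) := by
      have h5 : (2 * (K' : ℝ)) ^ 2 ≤ (4 * K) ^ 2 := pow_le_pow_left₀ (by positivity) (by linarith) 2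
      have h6 : (4 * K) ^ 2 = 16 * K ^ 2 := by ring
      linarith
    have h7 : (0:ℝ) ≤ (n : ℝ) ^ (1 - 2 * η) := Real.rpow_nonneg hn0.le _
    calc (2 * (K' : ℝ)) ^ 2 * D ^ C ≤ (32 * (n : ℝ) ^ (1 - 2 * η)) * (n:ℝ) ^ η := by
          refine mul_le_mul h4 hDη (by positivity) (by positivity)
      _ ≤ ((n:ℝ) ^ η * (n : ℝ) ^ (1 - 2 * η)) * (n:ℝ) ^ η := by gcongr
      _ = (n:ℝ) ^ (1:ℝ) := by
          rw [← Real.rpow_add hn0, ← Real.rpow_add hn0]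
          congr 1
          ring
      _ = n := Real.rpow_one _
  have hlow : D ^ C ≤ (K' : ℝ) := le_trans hDK (le_trans hK1 hKc)
  have hpc : ∀ K1 M1 : ℕ, D ^ C ≤ (K1 : ℝ) → (K1 : ℝ) ≤ 2 * K' →
      ‖TF n (tII K1 M1 (fun a => (α a : ℂ)) (fun b => (β b : ℂ))) W f g‖ ≤ (n:ℝ) ^ 2 / D := by
    intro K1 M1 h1 h2
    by_contra hcon
    obtain ⟨th, hth'⟩ := h n K1 M1 D hD hdiv h1 (by
        refine le_trans ?_ hup
        gcongr) (fun a => (α a : ℂ)) (fun b => (β b : ℂ))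
      (fun a => by rw [Complex.norm_real]; exact hα a) (fun b => by rw [Complex.norm_real]; exact hβ b) W f g hW hf hg (le_of_lt (not_le.1 hcon))
    exact absurd (hth th) (not_lt.2 hth')
  rw [tfS_apply, TF_congr n W f g (fun m hm1 hm2 => conv_tII m (by omega) K' M' α β hS hT), TF_add, TF_add, TF_add]
  have c1 := hpc K' M' hlow (by linarith [Nat.cast_nonneg (α := ℝ) K'])
  have c2 := hpc K' (2 * M') hlow (by linarith [Nat.cast_nonneg (α := ℝ) K'])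
  have c3 := hpc (2 * K') M' (by push_cast; linarith [Nat.cast_nonneg (α := ℝ) K']) (by push_cast; exact le_refl _)
  have c4 := hpc (2 * K') (2 * M') (by push_cast; linarith [Nat.cast_nonneg (α := ℝ) K']) (by push_cast; exact le_refl _)
  refine (norm_add_le _ _).trans ?_
  have d1 := norm_add_le (TF n (tII K' M' (fun a => (α a : ℂ)) (fun b => (β b : ℂ))) W f g) (TF n (tII K' (2 * M') (fun a => (α a : ℂ)) (fun b => (β b : ℂ))) W f g)
  have d2 := norm_add_le (TF n (tII (2 * K') M' (fun a => (α a : ℂ)) (fun b => (β b : ℂ))) W f g) (TF n (tII (2 * K') (2 * M') (fun a => (α a : ℂ)) (fun b => (β b : ℂ))) W f g)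
  linarith

end Pool.Agent.H37T
end

-- from Lib.H37T.A3
section
/-!
H37T: the hypothesis H1 of Heath-Brown's identity from module C (H81E.type_one_real), and H3 from module D (DOut).
-/
namespace Pool.Agent.H37T
open Finset Pool.Agent.H44W

/-- The statement of module D. -/
def DOut (et0 : ℝ) (C n0 : ℕ) : Prop :=
  ∀ n : ℕ, n0 ≤ n → ∀ D : ℝ, (1 + Real.log n) ^ 10 ≤ D → (∀ m : ℕ, 1 ≤ m → m ≤ 2 * n → (m.divisors.card : ℝ) ≤ D) → D ^ C ≤ n → ∀ R : ℕ, (R : ℝ) ≤ D → ∀ A1 A2 B1 B2 : ℕ,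
    ((2 * n : ℕ) : ℝ) ^ (1 / 2 - 2 * et0) ≤ A1 → ((2 * n : ℕ) : ℝ) ^ (1 / 2 - 2 * et0) ≤ B1 → A2 ≤ 2 * A1 → B2 ≤ 2 * B1 →
    ∀ ga : ℕ → ℂ, (∀ q, ‖ga q‖ ≤ 1) → ∀ W f g : ℤ → ℂ, (∀ x, ‖W x‖ ≤ 1) → (∀ x, ‖f x‖ ≤ 1) → (∀ x, ‖g x‖ ≤ 1) →
    (n:ℝ) ^ 2 / D ≤ ‖TF n (fun m => ∑ q ∈ Icc 1 R, ga q * pd q (Ico (A1:ℤ) A2) (Ico (B1:ℤ) B2) m) W f g‖ →
    ∃ th : ℝ, (n:ℝ) / D ^ C ≤ ‖∑ z ∈ Icc (1:ℤ) n, g z * ee (th * z)‖

/-- **H1** from module C. -/
theorem h1_of (n : ℕ) (hn : 1 ≤ n) (c : ℝ) (W f g : ℤ → ℂ) (hW : ∀ x, ‖W x‖ ≤ 1) (hf : ∀ x, ‖f x‖ ≤ 1)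
    (s : ℝ) (hth : ∀ th : ℝ, ‖∑ z ∈ Icc (1:ℤ) n, g z * ee (th * z)‖ ≤ s) :
      Pool.Agent.Lib.H81A.H1 c (2 * n) (tfS n W f g) (20 * ((2 * n : ℕ) : ℝ) ^ (2 * c) * (1 + Real.log n) * n * s) := by
  intro B1 B2 hB1 hB2 γ hγ hγs
  set R : ℕ := ⌊((2 * n : ℕ) : ℝ) ^ (2 * c)⌋₊ with hR
  have hR1 : (R : ℝ) ≤ ((2 * n : ℕ) : ℝ) ^ (2 * c) := Nat.floor_le (Real.rpow_nonneg (Nat.cast_nonneg _) _)
  obtain ⟨th, h1⟩ := Pool.Agent.H81E.type_one_real n hn R γ hγ (fun q hq => Nat.le_floor (hγs q hq).2) B1 B2 W f g hW hf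
  have hlog : 0 ≤ Real.log n := Real.log_natCast_nonneg n
  have e : tfS n W f g (fun m => ∑ x ∈ m.divisorsAntidiagonal, γ x.1 * (if B1 ≤ x.2 ∧ x.2 < B2 then 1 else 0)) =
      ‖TF n (fun m => ((∑ x ∈ m.toNat.divisorsAntidiagonal, γ x.1 * (if B1 ≤ x.2 ∧ x.2 < B2 then 1 else 0) : ℝ) : ℂ)) W f g‖ := rfl
  rw [e]
  refine h1.trans ?_
  have h2 : 0 ≤ ‖∑ z ∈ Icc (1:ℤ) n, g z * ee (th * z)‖ := norm_nonneg _
  have h3 : (0:ℝ) ≤ n := Nat.cast_nonneg n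
  gcongr
  · norm_num
  · exact hth th

/-- The count of the near-diagonal piece over the natural numbers. -/
theorem pd_nat (m q A1 A2 B1 B2 : ℕ) :
    pd q (Ico (A1:ℤ) A2) (Ico (B1:ℤ) B2) (m:ℤ) =
      ((∑ a ∈ Ico A1 A2, ∑ b ∈ Ico B1 B2, if q * (a * b) = m then (1:ℝ) else 0 : ℝ) : ℂ) := by
  unfold pd
  rw [Finset.card_filter, Finset.sum_product]
  push_cast
  have h1 : ∀ (u v : ℕ) (F : ℤ → ℂ), ∑ a ∈ Ico (u:ℤ) v, F a = ∑ a ∈ Ico u v, F (a : ℤ) := by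
    intro u v F
    refine (Finset.sum_bij (fun (a : ℕ) _ => (a : ℤ)) ?_ ?_ ?_ ?_).symm
    · intro a ha
      rw [Finset.mem_Ico] at ha ⊢
      omega
    · intro a _ b _ hab
      exact_mod_cast hab
    · intro b hb
      rw [Finset.mem_Ico] at hb
      exact ⟨b.toNat, by rw [Finset.mem_Ico]; omega, by omega⟩
    · intro a _
      rfl
  rw [h1]
  refine Finset.sum_congr rfl fun a _ => ?_
  rw [h1]
  refine Finset.sum_congr rfl fun b _ => ?_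
  by_cases h : q * (a * b) = m
  · rw [if_pos h, if_pos (by rw [← h]; push_cast; ring), Complex.ofReal_one]
  · rw [if_neg h, if_neg, Complex.ofReal_zero]
    intro h2
    apply h
    have h3 : ((q * (a * b) : ℕ) : ℤ) = (m : ℤ) := by
      rw [← h2]
      push_cast
      ring
    exact_mod_cast h3

theorem box_eq (k A1 A2 B1 B2 : ℕ) (hk : k ≠ 0) :
    (∑ y ∈ k.divisorsAntidiagonal, (if A1 ≤ y.1 ∧ y.1 < A2 then (1:ℝ) else 0) * (if B1 ≤ y.2 ∧ y.2 < B2 then (1:ℝ) else 0)) =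
      ∑ a ∈ Ico A1 A2, ∑ b ∈ Ico B1 B2, if a * b = k then (1:ℝ) else 0 := by
  rw [conv_eq k hk (Ico A1 A2) (Ico B1 B2) (fun a => if A1 ≤ a ∧ a < A2 then (1:ℝ) else 0) (fun b => if B1 ≤ b ∧ b < B2 then (1:ℝ) else 0)]
  · refine Finset.sum_congr rfl fun a ha => Finset.sum_congr rfl fun b hb => ?_
    rw [Finset.mem_Ico] at ha hb
    rw [if_pos ha, if_pos hb, mul_one]
  · intro a ha
    rw [Finset.mem_Ico]
    by_contra h
    exact ha (if_neg h)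
  · intro b hb
    rw [Finset.mem_Ico]
    by_contra h
    exact hb (if_neg h)

/-- The pieces of H3 in terms of `pd`. -/
theorem conv_pd (m : ℕ) (hm : 1 ≤ m) (R A1 A2 B1 B2 : ℕ) (γ : ℕ → ℝ) (hγ : ∀ q, γ q ≠ 0 → 1 ≤ q ∧ q ≤ R) :
    ((∑ x ∈ m.divisorsAntidiagonal, γ x.1 * ∑ y ∈ x.2.divisorsAntidiagonal,
        (if A1 ≤ y.1 ∧ y.1 < A2 then (1:ℝ) else 0) * (if B1 ≤ y.2 ∧ y.2 < B2 then (1:ℝ) else 0) : ℝ) : ℂ) =
      ∑ q ∈ Icc 1 R, (γ q : ℂ) * pd q (Ico (A1:ℤ) A2) (Ico (B1:ℤ) B2) (m:ℤ) := by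
  have e1 : ∀ q ∈ Icc 1 R, (γ q : ℂ) * pd q (Ico (A1:ℤ) A2) (Ico (B1:ℤ) B2) (m:ℤ) =
      ((γ q * ∑ a ∈ Ico A1 A2, ∑ b ∈ Ico B1 B2, (if q * (a * b) = m then (1:ℝ) else 0) : ℝ) : ℂ) := by
    intro q _
    rw [pd_nat m q A1 A2 B1 B2, Complex.ofReal_mul]
  rw [Finset.sum_congr rfl e1, ← Complex.ofReal_sum]
  congr 1
  rw [Nat.sum_divisorsAntidiagonal (fun q k => γ q * ∑ y ∈ k.divisorsAntidiagonal,
        (if A1 ≤ y.1 ∧ y.1 < A2 then (1:ℝ) else 0) * (if B1 ≤ y.2 ∧ y.2 < B2 then (1:ℝ) else 0))]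
  have e2 : ∀ q ∈ m.divisors, γ q * ∑ y ∈ (m / q).divisorsAntidiagonal,
        (if A1 ≤ y.1 ∧ y.1 < A2 then (1:ℝ) else 0) * (if B1 ≤ y.2 ∧ y.2 < B2 then (1:ℝ) else 0) =
      γ q * ∑ a ∈ Ico A1 A2, ∑ b ∈ Ico B1 B2, (if q * (a * b) = m then (1:ℝ) else 0) := by
    intro q hq
    obtain ⟨⟨k, hk⟩, hm0⟩ := Nat.mem_divisors.1 hq
    have hq0 : 0 < q := Nat.pos_of_mem_divisors hq
    have hk0 : k ≠ 0 := by
      rintro rfl
      exact hm0 (by rw [hk, mul_zero])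
    rw [hk, Nat.mul_div_cancel_left k hq0, box_eq k A1 A2 B1 B2 hk0]
    congr 1
    refine Finset.sum_congr rfl fun a _ => Finset.sum_congr rfl fun b _ => ?_
    by_cases h : a * b = k
    · rw [if_pos h, if_pos (by rw [h])]
    · rw [if_neg h, if_neg (fun h2 => h (Nat.eq_of_mul_eq_mul_left hq0 h2))]
  rw [Finset.sum_congr rfl e2]
  classical
  have e3 : ∀ q, q ∉ m.divisors ∩ Icc 1 R → γ q * ∑ a ∈ Ico A1 A2, ∑ b ∈ Ico B1 B2, (if q * (a * b) = m then (1:ℝ) else 0) = 0 := by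
    intro q hq
    by_cases h : γ q = 0
    · rw [h, zero_mul]
    · have h1 : q ∈ Icc 1 R := Finset.mem_Icc.2 (hγ q h)
      have h2 : q ∉ m.divisors := fun h3 => hq (Finset.mem_inter.2 ⟨h3, h1⟩)
      have h3 : ¬ q ∣ m := fun h4 => h2 (Nat.mem_divisors.2 ⟨h4, by omega⟩)
      have h4 : ∑ a ∈ Ico A1 A2, ∑ b ∈ Ico B1 B2, (if q * (a * b) = m then (1:ℝ) else 0) = 0 := by
        refine Finset.sum_eq_zero fun a _ => Finset.sum_eq_zero fun b _ => if_neg ?_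
        intro h5
        exact h3 ⟨a * b, h5.symm⟩
      rw [h4, mul_zero]
  rw [← Finset.sum_subset (Finset.inter_subset_left : m.divisors ∩ Icc 1 R ⊆ m.divisors) (fun q _ hq => e3 q hq),
    ← Finset.sum_subset (Finset.inter_subset_right : m.divisors ∩ Icc 1 R ⊆ Icc 1 R) (fun q _ hq => e3 q hq)]

/-- **H3** from module D. -/
theorem h3_of (et0 : ℝ) (C n0 : ℕ) (h : DOut et0 C n0) (η : ℝ) (hη : η ≤ et0) (n : ℕ) (hn : n0 ≤ n) (hn1 : 1 ≤ n) (c D : ℝ)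
    (hD : (1 + Real.log n) ^ 10 ≤ D) (hdiv : ∀ m : ℕ, 1 ≤ m → m ≤ 2 * n → (m.divisors.card : ℝ) ≤ D) (hDC : D ^ C ≤ n) (hcD : ((2 * n : ℕ) : ℝ) ^ (2 * c) ≤ D)
    (W f g : ℤ → ℂ) (hW : ∀ x, ‖W x‖ ≤ 1) (hf : ∀ x, ‖f x‖ ≤ 1) (hg : ∀ x, ‖g x‖ ≤ 1)
    (hth : ∀ th : ℝ, ‖∑ z ∈ Icc (1:ℤ) n, g z * ee (th * z)‖ < (n:ℝ) / D ^ C) :
      Pool.Agent.Lib.H81A.H3 c η (2 * n) (tfS n W f g) ((n:ℝ) ^ 2 / D) := by
  intro A1 A2 B1 B2 hA1 hA2 hB1 hB2 hA hB γ hγ hγs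
  set R : ℕ := ⌊((2 * n : ℕ) : ℝ) ^ (2 * c)⌋₊ with hR
  have hR1 : (R : ℝ) ≤ ((2 * n : ℕ) : ℝ) ^ (2 * c) := Nat.floor_le (Real.rpow_nonneg (Nat.cast_nonneg _) _)
  have hmono : ((2 * n : ℕ) : ℝ) ^ (1 / 2 - 2 * et0) ≤ ((2 * n : ℕ) : ℝ) ^ (1 / 2 - 2 * η) := by
    refine Real.rpow_le_rpow_of_exponent_le ?_ (by linarith)
    have : 1 ≤ 2 * n := by omega
    exact_mod_cast this
  have e : tfS n W f g (fun m => ∑ x ∈ m.divisorsAntidiagonal, γ x.1 *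
        ∑ y ∈ x.2.divisorsAntidiagonal, (if A1 ≤ y.1 ∧ y.1 < A2 then 1 else 0) * (if B1 ≤ y.2 ∧ y.2 < B2 then 1 else 0)) =
      ‖TF n (fun m => ∑ q ∈ Icc 1 R, (γ q : ℂ) * pd q (Ico (A1:ℤ) A2) (Ico (B1:ℤ) B2) m) W f g‖ := by
    rw [tfS_apply]
    congr 1
    refine TF_congr n W f g fun m hm1 hm2 => ?_
    have h0 : ((m.toNat : ℕ) : ℤ) = m := Int.toNat_of_nonneg (by omega)
    have h1 := conv_pd m.toNat (by omega) R A1 A2 B1 B2 γ (fun q hq => ⟨(hγs q hq).1, Nat.le_floor (hγs q hq).2⟩)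
    rw [h0] at h1
    exact h1
  rw [e]
  by_contra hcon
  obtain ⟨th, hth'⟩ := h n hn D hD hdiv hDC R (hR1.trans hcD) A1 A2 B1 B2 (hmono.trans hA1) (hmono.trans hB1) hA hB (fun q => (γ q : ℂ))
    (fun q => by rw [Complex.norm_real]; exact hγ q) W f g hW hf hg (le_of_lt (not_le.1 hcon))
  exact absurd (hth th) (not_lt.2 hth')

end Pool.Agent.H37T
end

-- from Lib.H3B.S0C
section

/-! # H3B (MP_443e5f, candidate T, module B), chunk S0C -/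

namespace Pool.Agent.H3B

open Finset
open Pool.Agent.H44W (ee TF cut tII)

/-- `G((A - w)/2)` if `2 ∣ A - w`, else `0`; `A = a (2 b + ε)`. -/
noncomputable def s0cz (a ε : ℤ) (G : ℤ → ℂ) (b w : ℤ) : ℂ :=
  if (2 : ℤ) ∣ a * (2 * b + ε) - w then G ((a * (2 * b + ε) - w) / 2) else 0

theorem s0c_fin {N : ℕ} {G : ℤ → ℂ} (hG : Sp N G) (a ε b : ℤ) : (Function.support (s0cz a ε G b)).Finite := by
  refine (hG.finite.image (fun y => a * (2 * b + ε) - 2 * y)).subset ?_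
  intro w hw
  rw [Function.mem_support] at hw
  unfold s0cz at hw
  split_ifs at hw with h
  · refine ⟨(a * (2 * b + ε) - w) / 2, hw, ?_⟩
    have h1 := Int.mul_ediv_cancel' h
    simp only
    linarith
  · exact absurd rfl hw

theorem s0c_R (G : ℤ → ℂ) (a ε b b' : ℤ) :
    ∑' w : ℤ, s0cz a ε G b w * (starRingEnd ℂ) (s0cz a ε G b' w) = R G (a * (b' - b)) := by
  have hinj : Function.Injective (fun y : ℤ => a * (2 * b + ε) - 2 * y) := by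
    intro x y h
    simp only at h
    linarith
  have hsup : Function.support (fun w : ℤ => s0cz a ε G b w * (starRingEnd ℂ) (s0cz a ε G b' w)) ⊆
      Set.range (fun y : ℤ => a * (2 * b + ε) - 2 * y) := by
    intro w hw
    rw [Function.mem_support] at hw
    have h1 := left_ne_zero_of_mul hw
    unfold s0cz at h1
    split_ifs at h1 with h
    · refine ⟨(a * (2 * b + ε) - w) / 2, ?_⟩
      have h2 := Int.mul_ediv_cancel' h
      simp only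
      linarith
    · exact absurd rfl h1
  rw [← hinj.tsum_eq hsup]
  unfold R
  refine tsum_congr fun y => ?_
  unfold s0cz
  have e1 : a * (2 * b + ε) - (a * (2 * b + ε) - 2 * y) = 2 * y := by ring
  have e2 : a * (2 * b' + ε) - (a * (2 * b + ε) - 2 * y) = 2 * (y + a * (b' - b)) := by ring
  rw [e1, e2, if_pos (Dvd.intro _ rfl), if_pos (Dvd.intro _ rfl), Int.mul_ediv_cancel_left _ two_ne_zero,
    Int.mul_ediv_cancel_left _ two_ne_zero]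

theorem s0c_Zh (M : ℕ) (a ε : ℤ) (be g : ℤ → ℂ) (h w : ℤ) :
    Zh M a ε be g h w = ∑ b ∈ SS M ε, BB M ε be h b * s0cz a ε (Gd g (a * (2 * h))) b w := by
  unfold Zh s0cz
  refine Finset.sum_congr rfl fun b _ => ?_
  split_ifs
  · rfl
  · rw [mul_zero]

/-- Chunk S0C (M). PROOF. ∑_w |Zh h w|² over all integers w (finitely many are not zero) is ∑_{b, b' in SS} BB b conj BB b' ∑_w [2 | A - w] G((A - w)/2) conj G((A' - w)/2), G = Gd g (a(2h)),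
A = a(2b+ε), A' = a(2b'+ε) = A + 2a(b' - b), so 2 | A - w iff 2 | A' - w and (A' - w)/2 = y + a(b' - b) for y = (A - w)/2; y runs over all integers: R G (a (b' - b)). The finite sum over w
is at most the full sum (terms ≥ 0). -/
theorem s0_exp {n M : ℕ} {a ε : ℤ} {be g : ℤ → ℂ} (hgs : Sp n g) (h : ℤ) :
    ∑ w ∈ Icc (-(10 * n : ℤ)) (10 * n), ‖Zh M a ε be g h w‖ ^ 2 ≤
      (∑ b ∈ SS M ε, ∑ b' ∈ SS M ε, BB M ε be h b * (starRingEnd ℂ) (BB M ε be h b') *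
        R (Gd g (a * (2 * h))) (a * (b' - b))).re := by
  obtain ⟨G, hG⟩ : ∃ G : ℤ → ℂ, G = Gd g (a * (2 * h)) := ⟨_, rfl⟩
  have hGs : Sp n G := by rw [hG]; exact hgs.Gd _
  have hterm : ∀ b b' : ℤ, Summable (fun w : ℤ => s0cz a ε G b w * (starRingEnd ℂ) (s0cz a ε G b' w)) := by
    intro b b'
    refine summable_of_hasFiniteSupport ?_
    exact (s0c_fin hGs a ε b).subset fun w hw => left_ne_zero_of_mul hw
  have hexp : ∀ w : ℤ, ((‖Zh M a ε be g h w‖ ^ 2 : ℝ) : ℂ) = ∑ b ∈ SS M ε, ∑ b' ∈ SS M ε,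
      BB M ε be h b * (starRingEnd ℂ) (BB M ε be h b') * (s0cz a ε G b w * (starRingEnd ℂ) (s0cz a ε G b' w)) := by
    intro w
    rw [← Complex.normSq_eq_norm_sq, ← Complex.mul_conj, s0c_Zh, ← hG, map_sum, Finset.sum_mul_sum]
    refine Finset.sum_congr rfl fun b _ => Finset.sum_congr rfl fun b' _ => ?_
    rw [map_mul]
    ring
  have hsum2 : ∀ b b' : ℤ, Summable (fun w : ℤ => BB M ε be h b * (starRingEnd ℂ) (BB M ε be h b') *
      (s0cz a ε G b w * (starRingEnd ℂ) (s0cz a ε G b' w))) := fun b b' => (hterm b b').mul_left _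
  have hsumC : Summable (fun w : ℤ => ((‖Zh M a ε be g h w‖ ^ 2 : ℝ) : ℂ)) := by
    have h1 : (fun w : ℤ => ((‖Zh M a ε be g h w‖ ^ 2 : ℝ) : ℂ)) = fun w : ℤ => ∑ b ∈ SS M ε, ∑ b' ∈ SS M ε,
      BB M ε be h b * (starRingEnd ℂ) (BB M ε be h b') * (s0cz a ε G b w * (starRingEnd ℂ) (s0cz a ε G b' w)) :=
      funext hexp
    rw [h1]
    exact summable_sum fun b _ => summable_sum fun b' _ => hsum2 b b'
  have hsumR : Summable (fun w : ℤ => ‖Zh M a ε be g h w‖ ^ 2) := Complex.summable_ofReal.1 hsumC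
  have htot : ((∑' w : ℤ, ‖Zh M a ε be g h w‖ ^ 2 : ℝ) : ℂ) = ∑ b ∈ SS M ε, ∑ b' ∈ SS M ε,
      BB M ε be h b * (starRingEnd ℂ) (BB M ε be h b') * R G (a * (b' - b)) := by
    rw [Complex.ofReal_tsum, tsum_congr hexp,
      Summable.tsum_finsetSum (fun b _ => summable_sum fun b' _ => hsum2 b b')]
    refine Finset.sum_congr rfl fun b _ => ?_
    rw [Summable.tsum_finsetSum (fun b' _ => hsum2 b b')]
    refine Finset.sum_congr rfl fun b' _ => ?_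
    rw [tsum_mul_left, s0c_R]
  rw [← hG, ← htot, Complex.ofReal_re]
  exact hsumR.sum_le_tsum _ fun _ _ => sq_nonneg _

end Pool.Agent.H3B
end

-- from Lib.H3B.S0D
section

/-! # H3B (MP_443e5f, candidate T, module B), chunk S0D -/

namespace Pool.Agent.H3B

open Finset
open Pool.Agent.H44W (ee TF cut tII)

/-- Chunk S0D (S/M). PROOF. s0_cs1, then Cauchy-Schwarz over the at most 2M · 21n pairs (h, w), then s0_exp: ‖Tt‖⁴ ≤ 9 n² · 42 n M · ∑ = 378 n³ M ∑. -/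
theorem s0_four {n M : ℕ} (hn : 1 ≤ n) {a ε : ℤ} (ha : 1 ≤ a) (haM : a * (2 * M) ≤ 8 * n) (hε : ε = 0 ∨ ε = 1) {be W f g : ℤ → ℂ}
    (hW : ∀ x, ‖W x‖ ≤ 1) (hf : ∀ x, ‖f x‖ ≤ 1) (hfs : Sp n f) (hgs : Sp n g) :
    ‖Tt M a ε be W f g‖ ^ 4 ≤ 400 * n ^ 3 * M * ∑ h ∈ Ioo (-(M : ℤ)) M,
      (∑ b ∈ SS M ε, ∑ b' ∈ SS M ε, BB M ε be h b * (starRingEnd ℂ) (BB M ε be h b') *
        R (Gd g (a * (2 * h))) (a * (b' - b))).re := by
  set F : ℤ → ℤ → ℝ := fun h w => ‖Zh M a ε be g h w‖ with hF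
  have h1 := s0_cs1 hn ha haM hε (be := be) hW hf hfs hgs
  have h2 : (∑ h ∈ Ioo (-(M : ℤ)) M, ∑ w ∈ Icc (-(10 * n : ℤ)) (10 * n), F h w) ^ 2 ≤
      ((2 * M : ℝ) * (21 * n)) * ∑ h ∈ Ioo (-(M : ℤ)) M, ∑ w ∈ Icc (-(10 * n : ℤ)) (10 * n), F h w ^ 2 := by
    rw [← sum_product', ← sum_product' (f := fun h w => F h w ^ 2)]
    refine (sq_sum_le_card_mul_sum_sq).trans ?_
    refine mul_le_mul_of_nonneg_right ?_ (sum_nonneg fun _ _ => sq_nonneg _)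
    rw [card_product, Int.card_Ioo, Int.card_Icc, Nat.cast_mul]
    have h3 : (((M : ℤ) - -(M : ℤ) - 1).toNat : ℝ) ≤ 2 * M := by
      have : ((M : ℤ) - -(M : ℤ) - 1).toNat ≤ 2 * M := by omega
      exact_mod_cast this
    have h4 : (((10 * n : ℤ) + 1 - -(10 * n : ℤ)).toNat : ℝ) ≤ 21 * n := by
      have : ((10 * n : ℤ) + 1 - -(10 * n : ℤ)).toNat ≤ 21 * n := by omega
      exact_mod_cast this
    exact mul_le_mul h3 h4 (Nat.cast_nonneg _) (by positivity)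
  have h5 : ∑ h ∈ Ioo (-(M : ℤ)) M, ∑ w ∈ Icc (-(10 * n : ℤ)) (10 * n), F h w ^ 2 ≤
      ∑ h ∈ Ioo (-(M : ℤ)) M,
      (∑ b ∈ SS M ε, ∑ b' ∈ SS M ε, BB M ε be h b * (starRingEnd ℂ) (BB M ε be h b') *
        R (Gd g (a * (2 * h))) (a * (b' - b))).re := sum_le_sum fun h _ => s0_exp hgs h
  set Y : ℝ := ∑ h ∈ Ioo (-(M : ℤ)) M,
      (∑ b ∈ SS M ε, ∑ b' ∈ SS M ε, BB M ε be h b * (starRingEnd ℂ) (BB M ε be h b') *
        R (Gd g (a * (2 * h))) (a * (b' - b))).re with hY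
  set X : ℝ := ∑ h ∈ Ioo (-(M : ℤ)) M, ∑ w ∈ Icc (-(10 * n : ℤ)) (10 * n), F h w with hX
  set X2 : ℝ := ∑ h ∈ Ioo (-(M : ℤ)) M, ∑ w ∈ Icc (-(10 * n : ℤ)) (10 * n), F h w ^ 2 with hX2
  have hX20 : 0 ≤ X2 := sum_nonneg fun _ _ => sum_nonneg fun _ _ => sq_nonneg _
  have h6 : ‖Tt M a ε be W f g‖ ^ 4 = (‖Tt M a ε be W f g‖ ^ 2) ^ 2 := by ring
  have hn0 : (0 : ℝ) ≤ n := Nat.cast_nonneg _
  have hM0 : (0 : ℝ) ≤ M := Nat.cast_nonneg _
  calc ‖Tt M a ε be W f g‖ ^ 4 = (‖Tt M a ε be W f g‖ ^ 2) ^ 2 := h6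
    _ ≤ (3 * n * X) ^ 2 := pow_le_pow_left₀ (sq_nonneg _) h1 2
    _ = 9 * n ^ 2 * X ^ 2 := by ring
    _ ≤ 9 * n ^ 2 * (((2 * M : ℝ) * (21 * n)) * X2) := mul_le_mul_of_nonneg_left h2 (by positivity)
    _ = 378 * n ^ 3 * M * X2 := by ring
    _ ≤ 400 * n ^ 3 * M * Y := by
      refine mul_le_mul ?_ h5 hX20 (by positivity)
      have : (0 : ℝ) ≤ n ^ 3 * M := by positivity
      linarith

end Pool.Agent.H3B
end

-- from Lib.H21T.Z1
section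

/-!
# Chunk Z1 (M): the condition on b becomes a condition on a
-/

namespace Pool.Agent.Lib.H21T

open Finset Pool.Agent.SZW

/-- Both sides are sums of `ee (α a b)`: over `X = {A1 ≤ a < A2, B1 ≤ b < B2, x ≤ a b < x + H}` (`∑_m dbox m ee (α m)`, fibres over `m = a b`) and over `Y = Rg A1' A2' x H`.
`X \ Y`: for `(a, b) ∈ X`, `a B2 > a b ≥ x`, so `a ≥ x / B2 + 1` (natural division); so `a ≥ x / B1 + 1`, i.e. `a B1 > x`, and `a B1 ≤ a b < x + H`: at most `H / B1 + 1` values of `a`, each (`a ≥ A1`) for at most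
`H / A1 + 1` values of `b`. `Y \ X`: `b < B1` is impossible (`a ≤ x / B1` gives `a B1 ≤ x ≤ a b`), so `b ≥ B2`, and `x < a B2 ≤ a b < x + H`: again at most `H / B2 + 1 ≤ H / B1 + 1` values of `a`. -/
theorem z1 (A1 A2 B1 B2 x H : ℕ) (α : ℝ) (hA : 1 ≤ A1) (hB : 1 ≤ B1) (hB2 : B1 ≤ B2) (hx : 1 ≤ x) :
    ‖∑ m ∈ Ico x (x + H), (dbox A1 A2 B1 B2 m : ℂ) * ee (α * m) - SR α (max A1 (x / B2 + 1)) (min A2 (x / B1 + 1)) x H‖ ≤
      2 * (((H : ℝ) / B1 + 1) * ((H : ℝ) / A1 + 1)) := by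
  classical
  set f : ℕ × ℕ → ℂ := fun p => ee (α * ((p.1 : ℝ) * p.2)) with hf
  set X : Finset (ℕ × ℕ) := ((Ico A1 A2) ×ˢ (Ico B1 B2)).filter fun p => x ≤ p.1 * p.2 ∧ p.1 * p.2 < x + H with hX
  set A1' := max A1 (x / B2 + 1) with hA1'
  set A2' := min A2 (x / B1 + 1) with hA2'
  have hB2' : 0 < B2 := by omega
  have hmX : ∀ p : ℕ × ℕ, p ∈ X ↔ A1 ≤ p.1 ∧ p.1 < A2 ∧ B1 ≤ p.2 ∧ p.2 < B2 ∧ x ≤ p.1 * p.2 ∧ p.1 * p.2 < x + H := by
    intro p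
    rw [hX, mem_filter, mem_product, mem_Ico, mem_Ico]
    tauto
  have hA1pos : 1 ≤ A1' := by omega
  have h1 : ∑ m ∈ Ico x (x + H), (dbox A1 A2 B1 B2 m : ℂ) * ee (α * m) = ∑ p ∈ X, f p := by
    rw [← Finset.sum_fiberwise_of_maps_to (s := X) (t := Ico x (x + H)) (g := fun p : ℕ × ℕ => p.1 * p.2)
      (fun p hp => by
        have := (hmX p).1 hp
        rw [mem_Ico]
        exact ⟨this.2.2.2.2.1, this.2.2.2.2.2⟩)]
    refine Finset.sum_congr rfl fun m hm => ?_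
    rw [mem_Ico] at hm
    have h2 : (X.filter fun p => p.1 * p.2 = m) = ((Ico A1 A2) ×ˢ (Ico B1 B2)).filter fun p => p.1 * p.2 = m := by
      rw [hX, Finset.filter_filter]
      refine Finset.filter_congr fun p _ => ?_
      constructor
      · rintro ⟨_, h⟩
        exact h
      · intro h
        rw [h]
        exact ⟨hm, rfl⟩
    rw [h2]
    have h3 : ∀ p ∈ ((Ico A1 A2) ×ˢ (Ico B1 B2)).filter fun p => p.1 * p.2 = m, f p = ee (α * m) := by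
      intro p hp
      rw [mem_filter] at hp
      show ee (α * ((p.1 : ℝ) * p.2)) = _
      rw [← hp.2]
      push_cast
      rfl
    rw [Finset.sum_congr rfl h3, Finset.sum_const, nsmul_eq_mul]
    rfl
  have hSR : SR α A1' A2' x H = ∑ p ∈ Rg A1' A2' x H, f p := rfl
  rw [h1, hSR, ← Finset.sum_sdiff_sub_sum_sdiff]
  have hcard : ∀ (B : ℕ) (U : Finset (ℕ × ℕ)), B1 ≤ B → 1 ≤ B →
      (∀ p ∈ U, p ∈ Rg A1 A2 x H ∧ x ≤ B * p.1 ∧ B * p.1 < x + H) →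
      (U.card : ℝ) ≤ ((H : ℝ) / B1 + 1) * ((H : ℝ) / A1 + 1) := by
    intro B U hB1 hBpos hU
    set T := (range (x + H)).filter fun a => x ≤ B * a ∧ B * a < x + H with hT
    have h2 := s4_card (A := A1) (A1 := A1) (A2 := A2) (x := x) (H := H) hA le_rfl T
    have h3 : U ⊆ (Rg A1 A2 x H).filter fun p => p.1 ∈ T := by
      intro p hp
      obtain ⟨h4, h5, h6⟩ := hU p hp
      rw [mem_filter]
      refine ⟨h4, ?_⟩
      rw [hT, mem_filter, mem_range]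
      refine ⟨?_, h5, h6⟩
      have : p.1 ≤ B * p.1 := Nat.le_mul_of_pos_left _ (by omega)
      omega
    have h4 : (T.card : ℝ) ≤ (H : ℝ) / B + 1 := s4_fib x H B hBpos
    have h5 : (H : ℝ) / B ≤ (H : ℝ) / B1 := by
      have hb1 : (0 : ℝ) < B1 := by exact_mod_cast hB
      have hb2 : (B1 : ℝ) ≤ B := by exact_mod_cast hB1
      exact div_le_div_of_nonneg_left (Nat.cast_nonneg H) hb1 hb2
    have h6 : (U.card : ℝ) ≤ (((Rg A1 A2 x H).filter fun p => p.1 ∈ T).card : ℝ) := by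
      exact_mod_cast Finset.card_le_card h3
    have h7 : (0 : ℝ) ≤ (H : ℝ) / A1 + 1 := by positivity
    calc (U.card : ℝ) ≤ T.card * ((H : ℝ) / A1 + 1) := h6.trans h2
      _ ≤ ((H : ℝ) / B1 + 1) * ((H : ℝ) / A1 + 1) := mul_le_mul_of_nonneg_right (by linarith) h7
  have hnorm : ∀ U : Finset (ℕ × ℕ), ‖∑ p ∈ U, f p‖ ≤ U.card := by
    intro U
    refine (norm_sum_le _ _).trans ?_
    have h2 : ∀ p ∈ U, ‖f p‖ ≤ 1 := fun p _ => (norm_ee _).le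
    refine (Finset.sum_le_sum h2).trans ?_
    rw [Finset.sum_const, nsmul_eq_mul, mul_one]
  have hXY : ((X \ Rg A1' A2' x H).card : ℝ) ≤ ((H : ℝ) / B1 + 1) * ((H : ℝ) / A1 + 1) := by
    refine hcard B1 _ le_rfl hB fun p hp => ?_
    rw [mem_sdiff, hmX, mem_Rg hA1pos] at hp
    obtain ⟨⟨h2, h3, h4, h5, h6, h7⟩, h8⟩ := hp
    have h9 : p.1 * B1 ≤ p.1 * p.2 := Nat.mul_le_mul_left _ h4
    have h10 : p.1 * p.2 < p.1 * B2 := Nat.mul_lt_mul_of_pos_left h5 (by omega)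
    have h11 : x / B2 < p.1 := (Nat.div_lt_iff_lt_mul hB2').2 (by omega)
    have h12 : x / B1 < p.1 := by
      by_contra hcon
      apply h8
      refine ⟨?_, ?_, h6, h7⟩ <;> omega
    have h13 : x < p.1 * B1 := (Nat.div_lt_iff_lt_mul (by omega)).1 h12
    refine ⟨(mem_Rg hA).2 ⟨h2, h3, h6, h7⟩, ?_, ?_⟩
    · rw [mul_comm]
      omega
    · rw [mul_comm]
      omega
  have hYX : ((Rg A1' A2' x H \ X).card : ℝ) ≤ ((H : ℝ) / B1 + 1) * ((H : ℝ) / A1 + 1) := by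
    refine hcard B2 _ hB2 hB2' fun p hp => ?_
    rw [mem_sdiff, hmX, mem_Rg hA1pos] at hp
    obtain ⟨⟨h2, h3, h6, h7⟩, h8⟩ := hp
    have h4 : A1 ≤ p.1 := by omega
    have h5 : p.1 < A2 := by omega
    have h9 : p.1 ≤ x / B1 := by omega
    have h10 : p.1 * B1 ≤ x := (Nat.le_div_iff_mul_le (by omega)).1 h9
    have h11 : x / B2 < p.1 := by omega
    have h12 : x < p.1 * B2 := (Nat.div_lt_iff_lt_mul hB2').1 h11
    have h13 : B1 ≤ p.2 := by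
      by_contra hcon
      have h14 : p.1 * p.2 < p.1 * B1 := Nat.mul_lt_mul_of_pos_left (not_le.1 hcon) (by omega)
      omega
    have h14 : B2 ≤ p.2 := by
      by_contra hcon
      exact h8 ⟨h4, h5, h13, not_le.1 hcon, h6, h7⟩
    have h15 : p.1 * B2 ≤ p.1 * p.2 := Nat.mul_le_mul_left _ h14
    refine ⟨(mem_Rg hA).2 ⟨h4, h5, h6, h7⟩, ?_, ?_⟩
    · rw [mul_comm]
      omega
    · rw [mul_comm]
      omega
  refine (norm_sub_le _ _).trans ?_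
  have h2 := hnorm (X \ Rg A1' A2' x H)
  have h3 := hnorm (Rg A1' A2' x H \ X)
  linarith

end Pool.Agent.Lib.H21T
end

-- from Lib.H44W.M0
section
/-!
M0: module C in the form used by psi_cf.
-/
namespace Pool.Agent.H44W
open Finset

theorem type_one_psi (n A : ℕ) (al : ℕ → ℂ) (hn : 1 ≤ n) (hal : ∀ a, ‖al a‖ ≤ 1) (W f g : ℤ → ℂ)
    (hW : ∀ x, ‖W x‖ ≤ 1) (hf : ∀ x, ‖f x‖ ≤ 1) (_hg : ∀ x, ‖g x‖ ≤ 1) :
    ∃ th : ℝ, ‖TF n (psi A al) W f g‖ ≤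
      20 * A * (1 + Real.log n) * n * ‖∑ z ∈ Icc (1:ℤ) n, g z * ee (th * z)‖ := by
  have h1 : Pool.Agent.H81E.Rep n (∑ a ∈ Icc 1 A, ‖al a‖ * 1) (fun m => ∑ a ∈ Icc 1 A, al a * (if (a:ℤ) ∣ m then 1 else 0)) :=
    Pool.Agent.H81E.Rep.sum (Icc 1 A) _ _ fun a ha =>
      (Pool.Agent.H81E.Rep.dvd n a (by rw [mem_Icc] at ha; omega)).smul (al a)
  have h2 : Pool.Agent.H81E.Rep n A (psi A al) := by
    refine (h1.congr fun m _ _ => ?_).mono ?_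
    · unfold psi
      refine sum_congr rfl fun a _ => ?_
      by_cases h : (a:ℤ) ∣ m
      · rw [if_pos h, if_pos h, mul_one]
      · rw [if_neg h, if_neg h, mul_zero]
    · refine (sum_le_sum (g := fun _ => (1:ℝ)) fun a _ => ?_).trans ?_
      · rw [mul_one]; exact hal a
      · simp
  obtain ⟨th, hth⟩ := h2.TF_le W f g hW hf
  refine ⟨th, hth.trans ?_⟩
  have hlog : 0 ≤ Real.log n := Real.log_natCast_nonneg n
  have h3 : 0 ≤ (A:ℝ) * (n * ‖∑ z ∈ Icc (1:ℤ) n, g z * ee (th * z)‖) := by positivity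
  calc (A:ℝ) * (2 * n * ‖∑ z ∈ Icc (1:ℤ) n, g z * ee (th * z)‖)
      = 2 * (A * (n * ‖∑ z ∈ Icc (1:ℤ) n, g z * ee (th * z)‖)) := by ring
    _ ≤ (20 * (1 + Real.log n)) * (A * (n * ‖∑ z ∈ Icc (1:ℤ) n, g z * ee (th * z)‖)) := by
        apply mul_le_mul_of_nonneg_right _ h3
        linarith
    _ = 20 * A * (1 + Real.log n) * n * ‖∑ z ∈ Icc (1:ℤ) n, g z * ee (th * z)‖ := by ring

end Pool.Agent.H44W
end

-- from Lib.H3B.S0A
section

/-! # H3B (MP_443e5f, candidate T, module B), chunk S0A -/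

namespace Pool.Agent.H3B

open Finset
open Pool.Agent.H44W (ee TF cut tII)

/-- The inner sum. -/
noncomputable def s0aIn (n : ℕ) (W f g : ℤ → ℂ) (c : ℤ) : ℂ :=
  ∑ x ∈ Icc (1:ℤ) n, cut n f x * cut n g (c - x) * W (2 * x - c)

theorem s0a_tsum (n : ℕ) (W f g : ℤ → ℂ) (c : ℤ) :
    ∑' x : ℤ, cut n f x * cut n g (c - x) * W (2 * x - c) = s0aIn n W f g c := by
  unfold s0aIn
  refine tsum_eq_sum fun x hx => ?_
  have h : cut n f x = 0 := if_neg hx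
  rw [h, zero_mul, zero_mul]

theorem s0a_inner (n : ℕ) (W f g : ℤ → ℂ) (c : ℤ) :
    ∑ x ∈ Icc (1:ℤ) n, ∑ y ∈ Icc (1:ℤ) n, (if c = x + y then f x * g y * W (x - y) else 0) = s0aIn n W f g c := by
  unfold s0aIn
  refine sum_congr rfl fun x hx => ?_
  have h1 : cut n f x = f x := if_pos hx
  have h2 : ∀ y ∈ Icc (1:ℤ) n, (if c = x + y then f x * g y * W (x - y) else 0) =
      if y = c - x then f x * g y * W (x - y) else 0 := by
    intro y _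
    by_cases h : c = x + y
    · rw [if_pos h, if_pos (by omega)]
    · rw [if_neg h, if_neg (by omega)]
  rw [sum_congr rfl h2, sum_ite_eq', h1]
  by_cases h3 : c - x ∈ Icc (1:ℤ) n
  · have h4 : cut n g (c - x) = g (c - x) := if_pos h3
    rw [if_pos h3, h4]
    congr 2
    ring
  · have h4 : cut n g (c - x) = 0 := if_neg h3
    rw [if_neg h3, h4, mul_zero, zero_mul]

theorem s0a_exp (n K M : ℕ) (al be : ℕ → ℂ) (W f g : ℤ → ℂ) :
    TF n (tII K M al be) W f g = ∑ a ∈ Ico K (2 * K), al a * ∑ b ∈ Ico M (2 * M), be b * s0aIn n W f g ((a * b : ℕ) : ℤ) := by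
  unfold TF tII
  have h1 : ∀ x ∈ Icc (1:ℤ) n, ∑ y ∈ Icc (1:ℤ) n, f x * g y *
      (∑ a ∈ Ico K (2 * K), ∑ b ∈ Ico M (2 * M), if ((a * b : ℕ) : ℤ) = x + y then al a * be b else 0) * W (x - y) =
      ∑ a ∈ Ico K (2 * K), ∑ b ∈ Ico M (2 * M), ∑ y ∈ Icc (1:ℤ) n,
        al a * be b * (if ((a * b : ℕ) : ℤ) = x + y then f x * g y * W (x - y) else 0) := by
    intro x _
    have h2 : ∀ y ∈ Icc (1:ℤ) n, f x * g y *
        (∑ a ∈ Ico K (2 * K), ∑ b ∈ Ico M (2 * M), if ((a * b : ℕ) : ℤ) = x + y then al a * be b else 0) * W (x - y) =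
        ∑ a ∈ Ico K (2 * K), ∑ b ∈ Ico M (2 * M),
          al a * be b * (if ((a * b : ℕ) : ℤ) = x + y then f x * g y * W (x - y) else 0) := by
      intro y _
      rw [Finset.mul_sum, Finset.sum_mul]
      refine sum_congr rfl fun a _ => ?_
      rw [Finset.mul_sum, Finset.sum_mul]
      refine sum_congr rfl fun b _ => ?_
      split_ifs
      · ring
      · ring
    rw [sum_congr rfl h2, Finset.sum_comm]
    refine sum_congr rfl fun a _ => ?_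
    rw [Finset.sum_comm]
  rw [sum_congr rfl h1, Finset.sum_comm]
  refine sum_congr rfl fun a _ => ?_
  rw [Finset.sum_comm, Finset.mul_sum]
  refine sum_congr rfl fun b _ => ?_
  rw [← s0a_inner, ← mul_assoc, Finset.mul_sum]
  refine sum_congr rfl fun x _ => ?_
  rw [Finset.mul_sum]

theorem s0a_par0 (M : ℕ) (F : ℤ → ℂ) (ε : ℤ) (hε : 0 ≤ ε ∧ ε < 2) :
    ∑ b ∈ SS M ε, F (2 * b + ε) = ∑ b ∈ (Ico (M:ℤ) (2 * M)).filter (fun b => b % 2 = ε), F b := by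
  refine Finset.sum_nbij' (fun b => 2 * b + ε) (fun b => b / 2) ?_ ?_ ?_ ?_ ?_
  · intro b hb
    unfold SS at hb
    rw [mem_filter, mem_Ico] at hb
    rw [mem_filter, mem_Ico]
    obtain ⟨⟨h1, h2⟩, h3, h4⟩ := hb
    refine ⟨⟨h3, h4⟩, ?_⟩
    omega
  · intro b hb
    unfold SS
    rw [mem_filter, mem_Ico] at hb
    rw [mem_filter, mem_Ico]
    obtain ⟨⟨h1, h2⟩, h3⟩ := hb
    have hM : (0:ℤ) ≤ M := Int.natCast_nonneg M
    omega
  · intro b hb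
    omega
  · intro b hb
    rw [mem_filter] at hb
    omega
  · intro b _
    rfl

theorem s0a_par (M : ℕ) (F : ℤ → ℂ) :
    ∑ b ∈ Ico M (2 * M), F (b:ℤ) = ∑ ε ∈ ({0, 1} : Finset ℤ), ∑ b ∈ SS M ε, F (2 * b + ε) := by
  have h1 : ∑ b ∈ Ico M (2 * M), F (b:ℤ) = ∑ b ∈ Ico (M:ℤ) (2 * M), F b := by
    refine Finset.sum_nbij' (fun b : ℕ => (b:ℤ)) (fun b : ℤ => b.toNat) ?_ ?_ ?_ ?_ ?_
    · intro b hb
      rw [mem_Ico] at hb ⊢
      omega
    · intro b hb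
      rw [mem_Ico] at hb ⊢
      omega
    · intro b _
      exact Int.toNat_natCast b
    · intro b hb
      rw [mem_Ico] at hb
      exact Int.toNat_of_nonneg (by omega)
    · intro b _
      rfl
  rw [h1, Finset.sum_pair (by norm_num), s0a_par0 M F 0 (by norm_num), s0a_par0 M F 1 (by norm_num),
    ← Finset.sum_filter_add_sum_filter_not (Ico (M:ℤ) (2 * M)) (fun b => b % 2 = 0)]
  congr 1
  refine Finset.sum_congr ?_ fun _ _ => rfl
  refine Finset.filter_congr fun b _ => ?_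
  omega

theorem s0a_norm_cut (n : ℕ) (f : ℤ → ℂ) (hf : ∀ x, ‖f x‖ ≤ 1) (x : ℤ) : ‖cut n f x‖ ≤ 1 := by
  unfold cut
  split_ifs
  · exact hf x
  · rw [norm_zero]
    exact zero_le_one

theorem s0a_In_le (n : ℕ) (W f g : ℤ → ℂ) (hW : ∀ x, ‖W x‖ ≤ 1) (hf : ∀ x, ‖f x‖ ≤ 1) (hg : ∀ x, ‖g x‖ ≤ 1) (c : ℤ) :
    ‖s0aIn n W f g c‖ ≤ n := by
  unfold s0aIn
  refine (norm_sum_le_of_le (f := fun x => cut n f x * cut n g (c - x) * W (2 * x - c)) (n := fun _ => (1:ℝ)) _ fun x _ => ?_).trans ?_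
  · rw [norm_mul, norm_mul]
    exact mul_le_one₀ (mul_le_one₀ (s0a_norm_cut n f hf x) (norm_nonneg _) (s0a_norm_cut n g hg _)) (norm_nonneg _) (hW _)
  · simp

/-- Chunk S0Aa (M). PROOF. TF n F W f g = ∑' x, ∑' y of cut n f x * cut n g y * F (x + y) * W (x - y) (or keep the finite sums). Insert the definition of tII, exchange the sums: for given a, b the
sum over x, y in [1, n] with x + y = a b of f x g y W (x - y) is ∑' x, cut n f x * cut n g (a b - x) * W (2 x - a b). b = 2β + ε with ε = b mod 2 gives a bijection of Ico M (2M) with the pairs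
(ε, β), ε in {0, 1}, β in SS M ε. Triangle inequality, |al a| ≤ 1. -/
theorem TF_le_Tt (n K M : ℕ) (al be : ℕ → ℂ) (hal : ∀ a, ‖al a‖ ≤ 1) (W f g : ℤ → ℂ) :
    ‖TF n (tII K M al be) W f g‖ ≤ ∑ ε ∈ ({0, 1} : Finset ℤ), ∑ a ∈ Ico K (2 * K),
      ‖Tt M a ε (fun b => be b.toNat) W (cut n f) (cut n g)‖ := by
  have h1 : ∀ a : ℕ, ∑ b ∈ Ico M (2 * M), be b * s0aIn n W f g ((a * b : ℕ) : ℤ) =
      ∑ ε ∈ ({0, 1} : Finset ℤ), Tt M a ε (fun b => be b.toNat) W (cut n f) (cut n g) := by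
    intro a
    have h2 := s0a_par M (fun b => be b.toNat * s0aIn n W f g ((a:ℤ) * b))
    have h3 : ∑ b ∈ Ico M (2 * M), be b * s0aIn n W f g ((a * b : ℕ) : ℤ) =
        ∑ b ∈ Ico M (2 * M), (fun b : ℤ => be b.toNat * s0aIn n W f g ((a:ℤ) * b)) (b:ℤ) := by
      refine sum_congr rfl fun b _ => ?_
      change _ = be (Int.toNat (b:ℤ)) * s0aIn n W f g ((a:ℤ) * (b:ℤ))
      rw [Int.toNat_natCast, Nat.cast_mul]
    rw [h3, h2]
    refine sum_congr rfl fun ε _ => ?_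
    unfold Tt
    refine sum_congr rfl fun b _ => ?_
    rw [s0a_tsum]
  rw [s0a_exp, Finset.sum_comm]
  refine norm_sum_le_of_le _ fun a _ => ?_
  rw [norm_mul, h1 a]
  exact (mul_le_of_le_one_left (norm_nonneg _) (hal a)).trans (norm_sum_le _ _)

/-- Chunk S0Ab (S/M). PROOF. Trivial bound: for given a, b and x there is at most one y. -/
theorem TF_le (n K M : ℕ) (al be : ℕ → ℂ) (hal : ∀ a, ‖al a‖ ≤ 1) (hbe : ∀ b, ‖be b‖ ≤ 1) (W f g : ℤ → ℂ)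
    (hW : ∀ x, ‖W x‖ ≤ 1) (hf : ∀ x, ‖f x‖ ≤ 1) (hg : ∀ x, ‖g x‖ ≤ 1) :
    ‖TF n (tII K M al be) W f g‖ ≤ K * M * n := by
  rw [s0a_exp]
  have h1 : ∀ a ∈ Ico K (2 * K), ‖al a * ∑ b ∈ Ico M (2 * M), be b * s0aIn n W f g ((a * b : ℕ) : ℤ)‖ ≤ M * n := by
    intro a _
    rw [norm_mul]
    refine (mul_le_of_le_one_left (norm_nonneg _) (hal a)).trans ?_
    have h2 : ∀ b ∈ Ico M (2 * M), ‖be b * s0aIn n W f g ((a * b : ℕ) : ℤ)‖ ≤ n := by
      intro b _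
      rw [norm_mul]
      exact (mul_le_of_le_one_left (norm_nonneg _) (hbe b)).trans (s0a_In_le n W f g hW hf hg _)
    refine (norm_sum_le_of_le _ h2).trans ?_
    rw [Finset.sum_const, Nat.card_Ico, nsmul_eq_mul]
    have e : 2 * M - M = M := by omega
    rw [e]
  refine (norm_sum_le_of_le _ h1).trans ?_
  rw [Finset.sum_const, Nat.card_Ico, nsmul_eq_mul]
  have e : 2 * K - K = K := by omega
  rw [e, mul_assoc]

/-- Chunk S0Ac (S). PROOF. If K M > 2 n then tII (x + y) = 0 because a b ≥ K M > 2 n ≥ x + y. -/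
theorem KM_le (n K M : ℕ) (al be : ℕ → ℂ) (W f g : ℤ → ℂ) (h : TF n (tII K M al be) W f g ≠ 0) : K * M ≤ 2 * n := by
  by_contra hc
  apply h
  rw [not_le] at hc
  unfold TF
  refine sum_eq_zero fun x hx => sum_eq_zero fun y hy => ?_
  have h0 : tII K M al be (x + y) = 0 := by
    unfold tII
    refine sum_eq_zero fun a ha => sum_eq_zero fun b hb => ?_
    rw [mem_Ico] at ha hb
    rw [mem_Icc] at hx hy
    refine if_neg fun he => ?_
    have h1 : K * M ≤ a * b := Nat.mul_le_mul ha.1 hb.1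
    have h2 : ((K * M : ℕ) : ℤ) ≤ ((a * b : ℕ) : ℤ) := by exact_mod_cast h1
    have h3 : ((2 * n : ℕ) : ℤ) < ((K * M : ℕ) : ℤ) := by exact_mod_cast hc
    push_cast at h2 h3 he
    omega
  rw [h0, mul_zero, zero_mul]

end Pool.Agent.H3B
end

-- from Lib.H81W.S4
section

/-!
# H81W, step 4: the sum of the energies over all differences, Parseval
-/

open Finset

namespace Pool.Agent.Lib.H81W

open Pool.Agent.H44W (ee TF cut)
open Pool.Agent.H81E (norm_ee ee_add ee_neg parseval)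

/-- The autocorrelation. -/
noncomputable def Au (n : ℕ) (g : ℤ → ℂ) (d : ℤ) : ℂ := ∑ y ∈ Icc (1 : ℤ) n, g y * (starRingEnd ℂ) (g (y + d))

/-- Energy as a sum over pairs. -/
theorem En_eq (n m : ℕ) (hm : 0 < m) (u : ℤ → ℂ) :
    ((En n m u : ℝ) : ℂ) = ∑ y ∈ Icc (1 : ℤ) n, ∑ z ∈ Icc (1 : ℤ) n, if (m : ℤ) ∣ z - y then u y * (starRingEnd ℂ) (u z) else 0 := by
  have hm0 : (0 : ℤ) < m := by exact_mod_cast hm
  unfold En
  rw [Complex.ofReal_sum]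
  have h1 : ∀ r : ℤ, ((‖Sr n m u r‖ ^ 2 : ℝ) : ℂ) = ∑ y ∈ Icc (1 : ℤ) n, ∑ z ∈ Icc (1 : ℤ) n, if y % m = r then (if z % m = r then u y * (starRingEnd ℂ) (u z) else 0) else 0 := by
    intro r
    rw [Complex.ofReal_pow, ← Complex.mul_conj']
    unfold Sr
    rw [map_sum, sum_mul_sum, sum_filter]
    refine sum_congr rfl fun y _ => ?_
    split_ifs with h
    · rw [sum_filter]
    · rw [sum_const_zero]
  simp_rw [h1]
  rw [sum_comm]
  refine sum_congr rfl fun y _ => ?_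
  rw [sum_comm]
  refine sum_congr rfl fun z _ => ?_
  rw [Finset.sum_ite_eq]
  rw [if_pos (mem_Ico.2 ⟨Int.emod_nonneg _ hm0.ne', Int.emod_lt_of_pos _ hm0⟩)]
  by_cases h : (m : ℤ) ∣ z - y
  · rw [if_pos h, if_pos (Int.emod_eq_emod_iff_emod_sub_eq_zero.2 (Int.emod_eq_zero_of_dvd h))]
  · rw [if_neg h, if_neg]
    intro h2
    exact h (Int.dvd_of_emod_eq_zero (Int.emod_eq_emod_iff_emod_sub_eq_zero.1 h2))

/-- Change of variable in a sum over `Icc 1 n`. -/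
theorem shiftsum (n : ℕ) (y : ℤ) (hy : y ∈ Icc (1 : ℤ) n) (F : ℤ → ℂ) (hF : ∀ z, z ∉ Icc (1 : ℤ) n → F z = 0) :
    ∑ z ∈ Icc (1 : ℤ) n, F z = ∑ d ∈ Ioo (-(n : ℤ)) n, F (y + d) := by
  rw [mem_Icc] at hy
  have h1 : ∑ d ∈ Ioo (-(n : ℤ)) n, F (y + d) = ∑ z ∈ Ioo (y - n) (y + n), F z := by
    refine sum_bij' (fun d _ => y + d) (fun z _ => z - y) ?_ ?_ ?_ ?_ ?_
    · intro d hd
      rw [mem_Ioo] at hd ⊢
      omega
    · intro d hd
      rw [mem_Ioo] at hd ⊢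
      omega
    · intro d _
      ring
    · intro d _
      ring
    · intro d _
      rfl
  rw [h1]
  refine sum_subset ?_ fun z _ hz => hF z hz
  intro z hz
  rw [mem_Icc] at hz
  rw [mem_Ioo]
  omega

/-- The sum of all energies. -/
theorem sum_En (n m : ℕ) (hm : 0 < m) (g : ℤ → ℂ) (hs : ∀ y, y ∉ Icc (1 : ℤ) n → g y = 0) :
    ∑ e ∈ Ioo (-(n : ℤ)) n, En n m (Gd g e) = ∑ d ∈ (Ioo (-(n : ℤ)) n).filter (fun d => (m : ℤ) ∣ d), ‖Au n g d‖ ^ 2 := by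
  have key : ((∑ e ∈ Ioo (-(n : ℤ)) n, En n m (Gd g e) : ℝ) : ℂ) = ((∑ d ∈ (Ioo (-(n : ℤ)) n).filter (fun d => (m : ℤ) ∣ d), ‖Au n g d‖ ^ 2 : ℝ) : ℂ) := by
    rw [Complex.ofReal_sum]
    simp_rw [En_eq n m hm]
    rw [sum_comm]
    have h1 : ∀ y ∈ Icc (1 : ℤ) n, ∑ e ∈ Ioo (-(n : ℤ)) n, ∑ z ∈ Icc (1 : ℤ) n, (if (m : ℤ) ∣ z - y then Gd g e y * (starRingEnd ℂ) (Gd g e z) else 0) =
        ∑ d ∈ Ioo (-(n : ℤ)) n, (if (m : ℤ) ∣ d then g y * (starRingEnd ℂ) (g (y + d)) * (starRingEnd ℂ) (Au n g d) else 0) := by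
      intro y hy
      rw [sum_comm]
      have h2 : ∀ z ∈ Icc (1 : ℤ) n, ∑ e ∈ Ioo (-(n : ℤ)) n, (if (m : ℤ) ∣ z - y then Gd g e y * (starRingEnd ℂ) (Gd g e z) else 0) =
          if (m : ℤ) ∣ z - y then g y * (starRingEnd ℂ) (g z) * (starRingEnd ℂ) (Au n g (z - y)) else 0 := by
        intro z _
        split_ifs with h
        · have h3 : (starRingEnd ℂ) (Au n g (z - y)) = ∑ e ∈ Ioo (-(n : ℤ)) n, (starRingEnd ℂ) (g (y + e)) * g (z + e) := by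
            unfold Au
            rw [map_sum, shiftsum n y hy (fun w => (starRingEnd ℂ) (g w * (starRingEnd ℂ) (g (w + (z - y)))))]
            · refine sum_congr rfl fun e _ => ?_
              rw [map_mul, Complex.conj_conj, show y + e + (z - y) = z + e by ring]
            · intro w hw
              rw [hs w hw, zero_mul, map_zero]
          rw [h3, mul_sum]
          refine sum_congr rfl fun e _ => ?_
          unfold Gd
          rw [map_mul, Complex.conj_conj]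
          ring
        · rw [sum_const_zero]
      rw [sum_congr rfl h2, shiftsum n y hy]
      · refine sum_congr rfl fun d _ => ?_
        rw [add_sub_cancel_left]
      · intro z hz
        split_ifs
        · rw [hs z hz, map_zero, mul_zero, zero_mul]
        · rfl
    rw [sum_congr rfl h1, sum_comm, Complex.ofReal_sum, sum_filter]
    refine sum_congr rfl fun d _ => ?_
    split_ifs
    · rw [← sum_mul, Complex.ofReal_pow, ← Complex.mul_conj']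
      rfl
    · rw [sum_const_zero]
  exact_mod_cast key

/-- The fourth moment of the exponential sum. -/
theorem sum_Au (n : ℕ) (hn : 1 ≤ n) (g : ℤ → ℂ) (hg : ∀ x, ‖g x‖ ≤ 1) (hs : ∀ y, y ∉ Icc (1 : ℤ) n → g y = 0) :
    ∃ th : ℝ, ∑ d ∈ Ioo (-(n : ℤ)) n, ‖Au n g d‖ ^ 2 ≤ n * ‖∑ y ∈ Icc (1 : ℤ) n, g y * ee (th * y)‖ ^ 2 := by
  set M : ℕ := 2 * n with hM
  have hM0 : 0 < M := by omega
  have hMr : (0 : ℝ) < M := by exact_mod_cast hM0
  have h1 := parseval M hM0 (Ioo (-(n : ℤ)) n) (by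
    intro s hs' t ht h
    rw [mem_Ioo] at hs' ht
    have h4 : s - t = 0 := Int.eq_zero_of_abs_lt_dvd h (by rw [abs_lt]; constructor <;> omega)
    omega) (Au n g)
  have h2 := parseval M hM0 (Icc (1 : ℤ) n) (by
    intro s hs' t ht h
    rw [mem_Icc] at hs' ht
    have h4 : s - t = 0 := Int.eq_zero_of_abs_lt_dvd h (by rw [abs_lt]; constructor <;> omega)
    omega) (fun y => (starRingEnd ℂ) (g y))
  set G : ℕ → ℂ := fun k => ∑ z ∈ Icc (1 : ℤ) n, (starRingEnd ℂ) (g z) * ee ((k : ℝ) * z / M) with hG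
  have h3 : ∀ k : ℕ, ∑ d ∈ Ioo (-(n : ℤ)) n, Au n g d * ee ((k : ℝ) * d / M) = (starRingEnd ℂ) (G k) * G k := by
    intro k
    rw [hG]
    dsimp only
    rw [map_sum, sum_mul]
    have h4 : ∀ d ∈ Ioo (-(n : ℤ)) n, Au n g d * ee ((k : ℝ) * d / M) = ∑ y ∈ Icc (1 : ℤ) n, g y * (starRingEnd ℂ) (g (y + d)) * ee ((k : ℝ) * d / M) := by
      intro d _
      unfold Au
      rw [sum_mul]
    rw [sum_congr rfl h4, sum_comm]
    refine sum_congr rfl fun y hy => ?_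
    rw [shiftsum n y hy (fun z => (starRingEnd ℂ) (g z) * ee ((k : ℝ) * z / M))]
    · rw [mul_sum]
      refine sum_congr rfl fun d _ => ?_
      rw [map_mul, Complex.conj_conj, ← Pool.Agent.H81E.ee_neg, show (k : ℝ) * ((y + d : ℤ) : ℝ) / M = (k : ℝ) * y / M + (k : ℝ) * d / M by push_cast; ring, Pool.Agent.H81E.ee_add]
      have h5 : ee (-((k : ℝ) * y / M)) * ee ((k : ℝ) * y / M) = 1 := by
        rw [← Pool.Agent.H81E.ee_add, neg_add_cancel, Pool.Agent.H81E.ee_zero]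
      calc g y * (starRingEnd ℂ) (g (y + d)) * ee ((k : ℝ) * d / M) = g y * (starRingEnd ℂ) (g (y + d)) * ee ((k : ℝ) * d / M) * 1 := by rw [mul_one]
        _ = g y * (starRingEnd ℂ) (g (y + d)) * ee ((k : ℝ) * d / M) * (ee (-((k : ℝ) * y / M)) * ee ((k : ℝ) * y / M)) := by rw [h5]
        _ = _ := by ring
    · intro z hz
      rw [hs z hz, map_zero, zero_mul]
  obtain ⟨k0, _, hk0⟩ := exists_max_image (range M) (fun k => ‖G k‖) ⟨0, mem_range.2 hM0⟩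
  refine ⟨-((k0 : ℝ) / M), ?_⟩
  have h4 : ∑ y ∈ Icc (1 : ℤ) n, g y * ee (-((k0 : ℝ) / M) * y) = (starRingEnd ℂ) (G k0) := by
    rw [hG]
    dsimp only
    rw [map_sum]
    refine sum_congr rfl fun y _ => ?_
    rw [map_mul, Complex.conj_conj, ← Pool.Agent.H81E.ee_neg]
    congr 2
    ring
  rw [h4, RCLike.norm_conj]
  have h5 : ∑ k ∈ range M, ‖∑ d ∈ Ioo (-(n : ℤ)) n, Au n g d * ee ((k : ℝ) * d / M)‖ ^ 2 ≤ ‖G k0‖ ^ 2 * ∑ k ∈ range M, ‖G k‖ ^ 2 := by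
    rw [mul_sum]
    refine sum_le_sum fun k hk => ?_
    rw [h3, norm_mul, RCLike.norm_conj, mul_pow]
    exact mul_le_mul_of_nonneg_right (pow_le_pow_left₀ (norm_nonneg _) (hk0 k hk) 2) (by positivity)
  rw [h1, h2] at h5
  have h6 : ∑ s ∈ Icc (1 : ℤ) n, ‖(starRingEnd ℂ) (g s)‖ ^ 2 ≤ n := by
    refine (sum_le_card_nsmul _ _ 1 fun y _ => ?_).trans ?_
    · rw [RCLike.norm_conj]
      exact pow_le_one₀ (norm_nonneg _) (hg y)
    · simp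
  have h7 : (M : ℝ) * ∑ d ∈ Ioo (-(n : ℤ)) n, ‖Au n g d‖ ^ 2 ≤ M * (n * ‖G k0‖ ^ 2) := by
    calc (M : ℝ) * ∑ d ∈ Ioo (-(n : ℤ)) n, ‖Au n g d‖ ^ 2 ≤ ‖G k0‖ ^ 2 * (M * ∑ s ∈ Icc (1 : ℤ) n, ‖(starRingEnd ℂ) (g s)‖ ^ 2) := h5
      _ ≤ ‖G k0‖ ^ 2 * (M * n) := by gcongr
      _ = _ := by ring
  exact le_of_mul_le_mul_left h7 hMr

theorem norm_Au_le (n : ℕ) (g : ℤ → ℂ) (hg : ∀ x, ‖g x‖ ≤ 1) (d : ℤ) : ‖Au n g d‖ ≤ n := by
  unfold Au
  refine (norm_sum_le _ _).trans ((sum_le_card_nsmul _ _ 1 fun y _ => norm_Gd_le hg d y).trans ?_)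
  simp

/-- Summation over the moduli `m < K`: every `d ≠ 0` is counted at most `d(|d|)` times. -/
theorem sum_sum_Au (n K : ℕ) (D : ℝ) (hD : ∀ m : ℕ, 1 ≤ m → m ≤ 2 * n → (m.divisors.card : ℝ) ≤ D) (g : ℤ → ℂ) (hg : ∀ x, ‖g x‖ ≤ 1) :
    ∑ m ∈ Ico 1 K, ∑ d ∈ (Ioo (-(n : ℤ)) n).filter (fun d => (m : ℤ) ∣ d), ‖Au n g d‖ ^ 2 ≤ K * n ^ 2 + D * ∑ d ∈ Ioo (-(n : ℤ)) n, ‖Au n g d‖ ^ 2 := by
  simp_rw [sum_filter]
  rw [sum_comm]
  have h1 : ∀ d ∈ Ioo (-(n : ℤ)) n, ∑ m ∈ Ico 1 K, (if (m : ℤ) ∣ d then ‖Au n g d‖ ^ 2 else 0) ≤ (if d = 0 then (K : ℝ) * n ^ 2 else 0) + D * ‖Au n g d‖ ^ 2 := by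
    intro d hd
    rw [mem_Ioo] at hd
    have hD0 : 0 ≤ D := (Nat.cast_nonneg _).trans (hD 1 le_rfl (by omega))
    rw [← sum_filter, sum_const, nsmul_eq_mul]
    split_ifs with h0
    · have h2 : (((Ico 1 K).filter (fun m : ℕ => (m : ℤ) ∣ d)).card : ℝ) ≤ K := by
        have := card_filter_le (Ico 1 K) (fun m : ℕ => (m : ℤ) ∣ d)
        rw [Nat.card_Ico] at this
        exact_mod_cast this.trans (Nat.sub_le _ _)
      have h3 : ‖Au n g d‖ ^ 2 ≤ (n : ℝ) ^ 2 := pow_le_pow_left₀ (norm_nonneg _) (norm_Au_le n g hg d) 2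
      have h4 := mul_le_mul h2 h3 (by positivity) (Nat.cast_nonneg K)
      have h5 : 0 ≤ D * ‖Au n g d‖ ^ 2 := by positivity
      linarith
    · rw [zero_add]
      refine mul_le_mul_of_nonneg_right ?_ (by positivity)
      refine le_trans ?_ (hD d.natAbs (by omega) (by omega))
      have h2 : (Ico 1 K).filter (fun m : ℕ => (m : ℤ) ∣ d) ⊆ d.natAbs.divisors := by
        intro m hm
        rw [mem_filter] at hm
        rw [Nat.mem_divisors]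
        exact ⟨Int.natCast_dvd.1 hm.2, by omega⟩
      exact_mod_cast card_le_card h2
  refine (sum_le_sum h1).trans ?_
  rw [sum_add_distrib, ← mul_sum]
  refine add_le_add ?_ le_rfl
  rw [Finset.sum_ite_eq']
  split_ifs
  · exact le_rfl
  · positivity

end Pool.Agent.Lib.H81W
end

-- from Lib.H81W.S5
section

/-!
# H81W, steps 3 and 4 together
-/

open Finset

namespace Pool.Agent.Lib.H81W

open Pool.Agent.H44W (ee TF cut)
open Pool.Agent.H81E (norm_ee ee_add ee_neg parseval)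

/-- The `a` with `a` and `a + j` in `[K, 2K)`. -/
noncomputable def Aj (K : ℕ) (j : ℤ) : Finset ℤ := (Ico (K : ℤ) (2 * K)).filter (fun a => a + j ∈ Ico (K : ℤ) (2 * K))

theorem mem_Aj {K : ℕ} {j a : ℤ} : a ∈ Aj K j ↔ (K : ℤ) ≤ a ∧ a < 2 * K ∧ (K : ℤ) ≤ a + j ∧ a + j < 2 * K := by
  unfold Aj
  rw [mem_filter, mem_Ico, mem_Ico]
  tauto

theorem card_Aj (K : ℕ) (j : ℤ) : (Aj K j).card ≤ K := by
  refine (card_filter_le _ _).trans ?_
  rw [Int.card_Ico]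
  omega

theorem En_zero (n m : ℕ) (g : ℤ → ℂ) (hs : ∀ y, y ∉ Icc (1 : ℤ) n → g y = 0) (e : ℤ) (he : e ∉ Ioo (-(n : ℤ)) n) : En n m (Gd g e) = 0 := by
  unfold En Sr
  refine sum_eq_zero fun r _ => ?_
  rw [sum_eq_zero, norm_zero, sq, mul_zero]
  intro y hy
  rw [mem_filter, mem_Icc] at hy
  rw [mem_Ioo] at he
  unfold Gd
  rw [hs (y + e) (by rw [mem_Icc]; omega), map_zero, mul_zero]

/-- The fibre bound: for fixed `j` and `e ≠ 0` there are at most `2 D ^ 2` triples `(k, a, b)` with `k (b - a) (b + a + j) = e`. -/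
theorem fibre (K : ℕ) (j e : ℤ) (he : e ≠ 0) (D : ℝ) (hD : (e.natAbs.divisors.card : ℝ) ≤ D) (S : Finset (ℤ × ℤ × ℤ))
    (hS : ∀ t ∈ S, t.2.1 ∈ Aj K j ∧ t.2.2 ∈ Aj K j ∧ t.1 * (t.2.2 - t.2.1) * (t.2.2 + t.2.1 + j) = e) : (S.card : ℝ) ≤ 2 * D ^ 2 := by
  have h1 : S.card ≤ ((e.natAbs.divisors ×ˢ e.natAbs.divisors) ×ˢ (univ : Finset Bool)).card := by
    refine card_le_card_of_injOn (fun t => (((t.2.2 - t.2.1).natAbs, (t.2.2 + t.2.1 + j).natAbs), decide (t.2.1 < t.2.2))) ?_ ?_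
    · intro t ht
      rw [mem_coe] at ht
      obtain ⟨h1, h2, h3⟩ := hS t ht
      rw [mem_coe, mem_product, mem_product, Nat.mem_divisors, Nat.mem_divisors]
      refine ⟨⟨⟨?_, by omega⟩, ⟨?_, by omega⟩⟩, mem_univ _⟩
      · exact Int.natAbs_dvd_natAbs.2 ⟨t.1 * (t.2.2 + t.2.1 + j), by rw [← h3]; ring⟩
      · exact Int.natAbs_dvd_natAbs.2 ⟨t.1 * (t.2.2 - t.2.1), by rw [← h3]; ring⟩
    · intro t ht t' ht' h
      rw [mem_coe] at ht ht'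
      obtain ⟨h1, h2, h3⟩ := hS t ht
      obtain ⟨h1', h2', h3'⟩ := hS t' ht'
      rw [mem_Aj] at h1 h2 h1' h2'
      simp only [Prod.mk.injEq, decide_eq_decide] at h
      obtain ⟨⟨h4, h5⟩, h6⟩ := h
      have h7 : t.2.2 + t.2.1 + j = t'.2.2 + t'.2.1 + j := by omega
      have h8 : t.2.2 - t.2.1 = t'.2.2 - t'.2.1 := by
        by_cases h9 : t.2.1 < t.2.2
        · have h10 := h6.1 h9
          omega
        · have h10 : ¬ t'.2.1 < t'.2.2 := fun h => h9 (h6.2 h)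
          omega
      have h9 : t.1 = t'.1 := by
        have h10 : (t.2.2 - t.2.1) * (t.2.2 + t.2.1 + j) ≠ 0 := by
          intro h0
          apply he
          rw [← h3, mul_assoc, h0, mul_zero]
        apply mul_right_cancel₀ h10
        rw [← mul_assoc, h3, h7, h8, ← mul_assoc, h3']
      refine Prod.ext h9 (Prod.ext ?_ ?_)
      · omega
      · omega
  have h2 : ((((e.natAbs.divisors ×ˢ e.natAbs.divisors) ×ˢ (univ : Finset Bool)).card : ℕ) : ℝ) = (e.natAbs.divisors.card : ℝ) ^ 2 * 2 := by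
    rw [card_product, card_product]
    simp [sq]
  calc (S.card : ℝ) ≤ ((((e.natAbs.divisors ×ˢ e.natAbs.divisors) ×ˢ (univ : Finset Bool)).card : ℕ) : ℝ) := by exact_mod_cast h1
    _ = (e.natAbs.divisors.card : ℝ) ^ 2 * 2 := h2
    _ ≤ D ^ 2 * 2 := by gcongr
    _ = 2 * D ^ 2 := by ring

/-- The off-diagonal sum over `P`. -/
theorem offdiag (n K : ℕ) (D : ℝ) (hD : ∀ m : ℕ, 1 ≤ m → m ≤ 2 * n → (m.divisors.card : ℝ) ≤ D) (g : ℤ → ℂ)
    (hs : ∀ y, y ∉ Icc (1 : ℤ) n → g y = 0) (P : Finset (ℤ × ℤ)) (hP : ∀ p ∈ P, 0 < |p.1| ∧ |p.1| < K ∧ p.2 ≠ 0) :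
    ∑ p ∈ P, ∑ x ∈ (Aj K p.1 ×ˢ Aj K p.1).filter (fun x => x.1 ≠ x.2), En n p.1.natAbs (Gd g (p.2 * (x.2 - x.1) * (x.2 + x.1 + p.1))) ≤
      4 * D ^ 2 * ∑ m ∈ Ico 1 K, ∑ e ∈ Ioo (-(n : ℤ)) n, En n m (Gd g e) := by
  classical
  rcases Nat.eq_zero_or_pos n with rfl | hn
  · have h0 : ∀ (m : ℕ) (u : ℤ → ℂ), En 0 m u = 0 := by
      intro m u
      unfold En Sr
      simp
    simp [h0]
  have hD0 : 0 ≤ D := (Nat.cast_nonneg _).trans (hD 1 le_rfl (by omega))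
  -- all tuples
  set T : Finset ((ℤ × ℤ) × (ℤ × ℤ)) := (P ×ˢ ((Ico (K : ℤ) (2 * K)) ×ˢ (Ico (K : ℤ) (2 * K)))).filter
    (fun t => t.2.1 ∈ Aj K t.1.1 ∧ t.2.2 ∈ Aj K t.1.1 ∧ t.2.1 ≠ t.2.2) with hT
  have h1 : ∑ p ∈ P, ∑ x ∈ (Aj K p.1 ×ˢ Aj K p.1).filter (fun x => x.1 ≠ x.2), En n p.1.natAbs (Gd g (p.2 * (x.2 - x.1) * (x.2 + x.1 + p.1))) =
      ∑ t ∈ T, En n t.1.1.natAbs (Gd g (t.1.2 * (t.2.2 - t.2.1) * (t.2.2 + t.2.1 + t.1.1))) := by
    rw [hT, sum_filter, sum_product]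
    refine sum_congr rfl fun p _ => ?_
    rw [← sum_filter]
    refine sum_congr ?_ fun x _ => rfl
    ext x
    simp only [mem_filter, mem_product]
    constructor
    · rintro ⟨⟨h2, h3⟩, h4⟩
      refine ⟨⟨?_, ?_⟩, h2, h3, h4⟩
      · rw [mem_Aj] at h2
        rw [mem_Ico]
        omega
      · rw [mem_Aj] at h3
        rw [mem_Ico]
        omega
    · rintro ⟨_, h2, h3, h4⟩
      exact ⟨⟨h2, h3⟩, h4⟩
  rw [h1]
  -- restrict to `|e| < n`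
  set T' : Finset ((ℤ × ℤ) × (ℤ × ℤ)) := T.filter (fun t => t.1.2 * (t.2.2 - t.2.1) * (t.2.2 + t.2.1 + t.1.1) ∈ Ioo (-(n : ℤ)) n) with hT'
  have h2 : ∑ t ∈ T, En n t.1.1.natAbs (Gd g (t.1.2 * (t.2.2 - t.2.1) * (t.2.2 + t.2.1 + t.1.1))) =
      ∑ t ∈ T', En n t.1.1.natAbs (Gd g (t.1.2 * (t.2.2 - t.2.1) * (t.2.2 + t.2.1 + t.1.1))) := by
    symm
    refine sum_subset (filter_subset _ _) fun t ht ht' => ?_
    rw [hT', mem_filter] at ht'
    exact En_zero n _ g hs _ fun h => ht' ⟨ht, h⟩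
  rw [h2]
  set J : Finset ℤ := (Ioo (-(K : ℤ)) K).filter (fun j => j ≠ 0) with hJ
  set E : Finset ℤ := (Ioo (-(n : ℤ)) n).filter (fun e => e ≠ 0) with hE
  have hne : ∀ t ∈ T, t.1.2 * (t.2.2 - t.2.1) * (t.2.2 + t.2.1 + t.1.1) ≠ 0 := by
    intro t ht
    rw [hT, mem_filter, mem_product] at ht
    obtain ⟨⟨h3, _⟩, h4, h5, h6⟩ := ht
    rw [mem_Aj] at h4 h5
    have h7 := hP _ h3
    refine mul_ne_zero (mul_ne_zero h7.2.2 (by omega)) (by omega)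
  have hmaps : ∀ t ∈ T', (t.1.1, t.1.2 * (t.2.2 - t.2.1) * (t.2.2 + t.2.1 + t.1.1)) ∈ J ×ˢ E := by
    intro t ht
    rw [hT', mem_filter] at ht
    have h3 := hne t ht.1
    have h4 := ht.1
    rw [hT, mem_filter, mem_product] at h4
    have h5 := hP _ h4.1.1
    rw [mem_product, hJ, hE, mem_filter, mem_filter]
    refine ⟨⟨?_, ?_⟩, ht.2, h3⟩
    · rw [mem_Ioo]
      have := abs_lt.1 h5.2.1
      exact this
    · exact abs_pos.1 h5.1
  rw [← sum_fiberwise_of_maps_to hmaps]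
  have h3 : ∀ x ∈ J ×ˢ E, ∑ t ∈ T'.filter (fun t => (t.1.1, t.1.2 * (t.2.2 - t.2.1) * (t.2.2 + t.2.1 + t.1.1)) = x),
      En n t.1.1.natAbs (Gd g (t.1.2 * (t.2.2 - t.2.1) * (t.2.2 + t.2.1 + t.1.1))) ≤ 2 * D ^ 2 * En n x.1.natAbs (Gd g x.2) := by
    intro x hx
    rw [mem_product, hJ, hE, mem_filter, mem_filter, mem_Ioo, mem_Ioo] at hx
    have h4 : ∀ t ∈ T'.filter (fun t => (t.1.1, t.1.2 * (t.2.2 - t.2.1) * (t.2.2 + t.2.1 + t.1.1)) = x),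
        En n t.1.1.natAbs (Gd g (t.1.2 * (t.2.2 - t.2.1) * (t.2.2 + t.2.1 + t.1.1))) = En n x.1.natAbs (Gd g x.2) := by
      intro t ht
      rw [mem_filter] at ht
      rw [← ht.2]
    rw [sum_congr rfl h4, sum_const, nsmul_eq_mul]
    refine mul_le_mul_of_nonneg_right ?_ (En_nonneg _ _ _)
    set S' : Finset (ℤ × ℤ × ℤ) := (T'.filter (fun t => (t.1.1, t.1.2 * (t.2.2 - t.2.1) * (t.2.2 + t.2.1 + t.1.1)) = x)).image (fun t => (t.1.2, t.2.1, t.2.2)) with hS'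
    have h5 : (T'.filter (fun t => (t.1.1, t.1.2 * (t.2.2 - t.2.1) * (t.2.2 + t.2.1 + t.1.1)) = x)).card = S'.card := by
      rw [hS', card_image_of_injOn]
      intro t ht t' ht' h
      rw [mem_coe, mem_filter] at ht ht'
      have h6 := congrArg Prod.fst (ht.2.trans ht'.2.symm)
      simp only [Prod.mk.injEq] at h h6
      exact Prod.ext (Prod.ext h6 h.1) (Prod.ext h.2.1 h.2.2)
    rw [h5]
    refine fibre K x.1 x.2 hx.2.2 D (hD _ (by omega) (by omega)) S' ?_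
    intro s hs'
    rw [hS', mem_image] at hs'
    obtain ⟨t, ht, rfl⟩ := hs'
    rw [mem_filter] at ht
    have h6 := ht.1
    rw [hT', mem_filter, hT, mem_filter] at h6
    have h7 : t.1.1 = x.1 := (Prod.ext_iff.1 ht.2).1
    have h8 : t.1.2 * (t.2.2 - t.2.1) * (t.2.2 + t.2.1 + t.1.1) = x.2 := (Prod.ext_iff.1 ht.2).2
    refine ⟨?_, ?_, ?_⟩
    · rw [← h7]; exact h6.1.2.1
    · rw [← h7]; exact h6.1.2.2.1
    · rw [← h8, ← h7]
  refine (sum_le_sum h3).trans ?_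
  rw [← mul_sum, sum_product]
  have h4 : ∑ j ∈ J, ∑ e ∈ E, En n j.natAbs (Gd g e) ≤ 2 * ∑ m ∈ Ico 1 K, ∑ e ∈ Ioo (-(n : ℤ)) n, En n m (Gd g e) := by
    have h5 : ∀ j ∈ J, ∑ e ∈ E, En n j.natAbs (Gd g e) ≤ ∑ e ∈ Ioo (-(n : ℤ)) n, En n j.natAbs (Gd g e) := fun j _ =>
      sum_le_sum_of_subset_of_nonneg (filter_subset _ _) fun _ _ _ => En_nonneg _ _ _
    refine (sum_le_sum h5).trans ?_
    have hmaps2 : ∀ j ∈ J, j.natAbs ∈ Ico 1 K := by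
      intro j hj
      rw [hJ, mem_filter, mem_Ioo] at hj
      rw [mem_Ico]
      omega
    rw [← sum_fiberwise_of_maps_to hmaps2, mul_sum]
    refine sum_le_sum fun m hm => ?_
    have h6 : ∀ j ∈ J.filter (fun j => j.natAbs = m), ∑ e ∈ Ioo (-(n : ℤ)) n, En n j.natAbs (Gd g e) = ∑ e ∈ Ioo (-(n : ℤ)) n, En n m (Gd g e) := by
      intro j hj
      rw [mem_filter] at hj
      rw [hj.2]
    rw [sum_congr rfl h6, sum_const, nsmul_eq_mul]
    refine mul_le_mul_of_nonneg_right ?_ (sum_nonneg fun _ _ => En_nonneg _ _ _)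
    have h7 : J.filter (fun j => j.natAbs = m) ⊆ {(m : ℤ), -(m : ℤ)} := by
      intro j hj
      rw [mem_filter] at hj
      rw [mem_insert, mem_singleton]
      omega
    have h8 := (card_le_card h7).trans card_le_two
    exact_mod_cast h8
  calc 2 * D ^ 2 * ∑ j ∈ J, ∑ e ∈ E, En n j.natAbs (Gd g e) ≤ 2 * D ^ 2 * (2 * ∑ m ∈ Ico 1 K, ∑ e ∈ Ioo (-(n : ℤ)) n, En n m (Gd g e)) :=
        mul_le_mul_of_nonneg_left h4 (by positivity)
    _ = _ := by ring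

end Pool.Agent.Lib.H81W
end

-- from Lib.H81W.S6
section

/-!
# H81W, steps 3 and 4 together: the constants
-/

open Finset

namespace Pool.Agent.Lib.H81W

open Pool.Agent.H44W (ee TF cut)
open Pool.Agent.H81E (norm_ee ee_add ee_neg parseval)

/-- Real arithmetic 1. -/
theorem r1 (n K m A F D : ℝ) (c : ℕ) (hn : 0 < n) (hK : 0 < K) (hD : 0 < D) (hA0 : 0 ≤ A) (hA : A ≤ K) (hF : 0 ≤ F) (h1 : K / D ^ c ≤ m)
    (h3 : (n ^ 2 / D ^ c) ^ 4 * m ^ 3 ≤ 16 * n ^ 6 * A ^ 2 * F) : n ^ 2 * K / (16 * D ^ (7 * c)) ≤ F := by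
  have hd : 0 < D ^ c := by positivity
  rw [show D ^ (7 * c) = (D ^ c) ^ 7 by rw [← pow_mul, mul_comm]]
  generalize D ^ c = d at *
  have h0 : 0 < K / d := by positivity
  have h5 : (n ^ 2 / d) ^ 4 * (K / d) ^ 3 ≤ 16 * n ^ 6 * K ^ 2 * F := by
    have h6 : (K / d) ^ 3 ≤ m ^ 3 := pow_le_pow_left₀ h0.le h1 3
    have h7 : A ^ 2 ≤ K ^ 2 := pow_le_pow_left₀ hA0 hA 2
    have h8 : (n ^ 2 / d) ^ 4 * (K / d) ^ 3 ≤ (n ^ 2 / d) ^ 4 * m ^ 3 := mul_le_mul_of_nonneg_left h6 (by positivity)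
    have h9 : 16 * n ^ 6 * A ^ 2 * F ≤ 16 * n ^ 6 * K ^ 2 * F :=
      mul_le_mul_of_nonneg_right (mul_le_mul_of_nonneg_left h7 (by positivity)) hF
    exact h8.trans (h3.trans h9)
  have h6 : (n ^ 2 / d) ^ 4 * (K / d) ^ 3 = (16 * n ^ 6 * K ^ 2) * (n ^ 2 * K / (16 * d ^ 7)) := by
    field_simp
  rw [h6] at h5
  exact le_of_mul_le_mul_left h5 (by positivity)

/-- Real arithmetic 2. -/
theorem r2 (n K D : ℝ) (c : ℕ) (hn : 0 < n) (h2 : 2 ≤ D) (hK : D ^ (8 * c + 11) ≤ K) : 4 * n ^ 2 * D ^ c ≤ n ^ 2 * K / (32 * D ^ (7 * c)) := by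
  have hD0 : 0 < D := by linarith
  rw [le_div_iff₀ (by positivity)]
  have h8 : 128 * D ^ (8 * c) ≤ K := by
    calc 128 * D ^ (8 * c) ≤ D ^ 11 * D ^ (8 * c) := by
          refine mul_le_mul_of_nonneg_right ?_ (by positivity)
          calc (128 : ℝ) ≤ 2 ^ 11 := by norm_num
            _ ≤ D ^ 11 := pow_le_pow_left₀ (by norm_num) h2 11
      _ = D ^ (8 * c + 11) := by rw [pow_add]; ring
      _ ≤ K := hK
  calc 4 * n ^ 2 * D ^ c * (32 * D ^ (7 * c)) = n ^ 2 * (128 * D ^ (8 * c)) := by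
        rw [show 8 * c = c + 7 * c by ring, pow_add]
        ring
    _ ≤ n ^ 2 * K := mul_le_mul_of_nonneg_left h8 (by positivity)

/-- The off-diagonal part for one pair. -/
theorem one_pair (n K c : ℕ) (D : ℝ) (hn : 1 ≤ n) (hK1 : 1 ≤ K) (h2 : 2 ≤ D) (hK : D ^ (8 * c + 11) ≤ K) (hKn : K ≤ n)
    (g : ℤ → ℂ) (hg : ∀ x, ‖g x‖ ≤ 1) (hs : ∀ y, y ∉ Icc (1 : ℤ) n → g y = 0) (j k : ℤ) (m : ℕ) (hm : (m : ℤ) = |j|) (h1 : (K : ℝ) / D ^ c ≤ |(j : ℝ)|) (hp : |j| < K)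
    (th : ℝ) (hth : (n : ℝ) ^ 2 / D ^ c ≤ ∑ a ∈ Aj K j, En n m (fun y => Gd g (a * (a + j) * k) y * ee (th * y))) :
    (n : ℝ) ^ 2 * K / (32 * D ^ (7 * c)) ≤
      ∑ x ∈ (Aj K j ×ˢ Aj K j).filter (fun x => x.1 ≠ x.2), En n m (Gd g (k * (x.2 - x.1) * (x.2 + x.1 + j))) := by
  classical
  have hD0 : (0 : ℝ) < D := by linarith
  have hnr : (0 : ℝ) < n := by exact_mod_cast (by omega : 0 < n)
  have hKr : (0 : ℝ) < K := by exact_mod_cast (by omega : 0 < K)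
  have hmabs : (m : ℝ) = |(j : ℝ)| := by
    rw [← Int.cast_abs, ← hm, Int.cast_natCast]
  rw [← hmabs] at h1
  have hm0 : (0 : ℝ) < m := lt_of_lt_of_le (by positivity) h1
  have hm1 : 0 < m := by exact_mod_cast hm0
  have hmK : m < K := by
    rw [← hm] at hp
    exact_mod_cast hp
  have h3 := step3 n m hm1 (by omega) g hg hs (Aj K j) (fun a => a * (a + j) * k) th ((n : ℝ) ^ 2 / D ^ c) (by positivity) hth
  have hcard : ((Aj K j).card : ℝ) ≤ K := by exact_mod_cast card_Aj K j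
  have hF0 : 0 ≤ ∑ a ∈ Aj K j, ∑ b ∈ Aj K j, En n m (Gd g (b * (b + j) * k - a * (a + j) * k)) :=
    sum_nonneg fun _ _ => sum_nonneg fun _ _ => En_nonneg _ _ _
  have h4 := r1 n K m _ _ D c hnr hKr hD0 (Nat.cast_nonneg _) hcard hF0 h1 h3
  have h5 : ∑ a ∈ Aj K j, ∑ b ∈ Aj K j, En n m (Gd g (b * (b + j) * k - a * (a + j) * k)) =
      ∑ x ∈ (Aj K j ×ˢ Aj K j).filter (fun x => x.1 ≠ x.2), En n m (Gd g (k * (x.2 - x.1) * (x.2 + x.1 + j))) +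
      ∑ x ∈ (Aj K j ×ˢ Aj K j).filter (fun x => ¬ x.1 ≠ x.2), En n m (Gd g (k * (x.2 - x.1) * (x.2 + x.1 + j))) := by
    rw [sum_filter_add_sum_filter_not, sum_product]
    refine sum_congr rfl fun a _ => sum_congr rfl fun b _ => ?_
    rw [show b * (b + j) * k - a * (a + j) * k = k * (b - a) * (b + a + j) by ring]
  have h6 : ∑ x ∈ (Aj K j ×ˢ Aj K j).filter (fun x => ¬ x.1 ≠ x.2), En n m (Gd g (k * (x.2 - x.1) * (x.2 + x.1 + j))) ≤ 4 * n ^ 2 * D ^ c := by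
    have h7 : ∀ x ∈ (Aj K j ×ˢ Aj K j).filter (fun x => ¬ x.1 ≠ x.2), En n m (Gd g (k * (x.2 - x.1) * (x.2 + x.1 + j))) ≤ 4 * n ^ 2 * D ^ c / K := by
      intro x _
      refine (En_le n m hm1 (by omega) _ (norm_Gd_le hg _)).trans ?_
      rw [div_le_div_iff₀ hm0 hKr]
      have h8 : (K : ℝ) ≤ m * D ^ c := by
        rwa [div_le_iff₀ (by positivity)] at h1
      calc 4 * (n : ℝ) ^ 2 * K ≤ 4 * (n : ℝ) ^ 2 * (m * D ^ c) := mul_le_mul_of_nonneg_left h8 (by positivity)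
        _ = _ := by ring
    refine (sum_le_card_nsmul _ _ _ h7).trans ?_
    have h8 : ((Aj K j ×ˢ Aj K j).filter (fun x => ¬ x.1 ≠ x.2)).card ≤ K := by
      refine le_trans ?_ (card_Aj K j)
      refine card_le_card_of_injOn (fun x => x.1) ?_ ?_
      · intro x hx
        rw [mem_coe, mem_filter, mem_product] at hx
        exact hx.1.1
      · intro x hx y hy h
        rw [mem_coe, mem_filter] at hx hy
        have hx2 := not_not.1 hx.2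
        have hy2 := not_not.1 hy.2
        refine Prod.ext h ?_
        rw [← hx2, ← hy2]
        exact h
    rw [nsmul_eq_mul]
    calc (((Aj K j ×ˢ Aj K j).filter (fun x => ¬ x.1 ≠ x.2)).card : ℝ) * (4 * n ^ 2 * D ^ c / K) ≤ K * (4 * n ^ 2 * D ^ c / K) := by
          refine mul_le_mul_of_nonneg_right (by exact_mod_cast h8) (by positivity)
      _ = 4 * n ^ 2 * D ^ c := by field_simp
  have h7 := r2 n K D c hnr h2 hK
  have h8 : (n : ℝ) ^ 2 * K / (16 * D ^ (7 * c)) = (n : ℝ) ^ 2 * K / (32 * D ^ (7 * c)) + (n : ℝ) ^ 2 * K / (32 * D ^ (7 * c)) := by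
    field_simp
    ring
  rw [h8, h5] at h4
  linarith

/-- Real arithmetic 3. -/
theorem r3 (n K G D : ℝ) (c : ℕ) (hn : 0 < n) (hK : 0 < K) (h2 : 2 ≤ D) (hG : 0 ≤ G) (hKn1 : K * D ^ (8 * c + 11) ≤ n)
    (h7 : n ^ 3 / (32 * D ^ (8 * c)) ≤ 4 * D ^ 2 * (K * n ^ 2 + D * (n * G ^ 2))) : n / D ^ (4 * c + 6) ≤ G := by
  have hD0 : 0 < D := by linarith
  have h8 : 4 * D ^ 2 * (K * n ^ 2) ≤ n ^ 3 / (64 * D ^ (8 * c)) := by
    rw [le_div_iff₀ (by positivity)]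
    have h9 : 256 * D ^ (8 * c + 2) * K ≤ n := by
      calc 256 * D ^ (8 * c + 2) * K ≤ D ^ 9 * D ^ (8 * c + 2) * K := by
            refine mul_le_mul_of_nonneg_right (mul_le_mul_of_nonneg_right ?_ (by positivity)) hK.le
            calc (256 : ℝ) ≤ 2 ^ 9 := by norm_num
              _ ≤ D ^ 9 := pow_le_pow_left₀ (by norm_num) h2 9
        _ = K * D ^ (8 * c + 11) := by rw [← pow_add, show 9 + (8 * c + 2) = 8 * c + 11 by ring]; ring
        _ ≤ n := hKn1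
    calc 4 * D ^ 2 * (K * n ^ 2) * (64 * D ^ (8 * c)) = n ^ 2 * (256 * D ^ (8 * c + 2) * K) := by
          rw [pow_add]
          ring
      _ ≤ n ^ 2 * n := mul_le_mul_of_nonneg_left h9 (by positivity)
      _ = n ^ 3 := by ring
  have h9 : n ^ 3 / (32 * D ^ (8 * c)) = n ^ 3 / (64 * D ^ (8 * c)) + n ^ 3 / (64 * D ^ (8 * c)) := by
    field_simp
    ring
  have h10 : n ^ 3 / (64 * D ^ (8 * c)) ≤ 4 * D ^ 3 * (n * G ^ 2) := by
    have h11 : 4 * D ^ 2 * (K * n ^ 2 + D * (n * G ^ 2)) = 4 * D ^ 2 * (K * n ^ 2) + 4 * D ^ 3 * (n * G ^ 2) := by ring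
    rw [h11] at h7
    linarith
  have h11 : (n / D ^ (4 * c + 6)) ^ 2 ≤ G ^ 2 := by
    rw [div_le_iff₀ (by positivity)] at h10
    have h12 : n ^ 2 ≤ G ^ 2 * (256 * D ^ (8 * c + 3)) := by
      have h13 : n * n ^ 2 ≤ n * (G ^ 2 * (256 * D ^ (8 * c + 3))) := by
        calc n * n ^ 2 = n ^ 3 := by ring
          _ ≤ 4 * D ^ 3 * (n * G ^ 2) * (64 * D ^ (8 * c)) := h10
          _ = n * (G ^ 2 * (256 * D ^ (8 * c + 3))) := by rw [pow_add]; ring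
      exact le_of_mul_le_mul_left h13 hn
    rw [div_pow, div_le_iff₀ (by positivity)]
    refine h12.trans (mul_le_mul_of_nonneg_left ?_ (by positivity))
    calc 256 * D ^ (8 * c + 3) ≤ D ^ 9 * D ^ (8 * c + 3) := by
          refine mul_le_mul_of_nonneg_right ?_ (by positivity)
          calc (256 : ℝ) ≤ 2 ^ 9 := by norm_num
            _ ≤ D ^ 9 := pow_le_pow_left₀ (by norm_num) h2 9
      _ = (D ^ (4 * c + 6)) ^ 2 := by rw [← pow_add, ← pow_mul]; congr 1; ring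
  exact le_of_sq_le_sq h11 hG

/-- Steps 3 and 4. -/
theorem step34 (c n K : ℕ) (D : ℝ) (h2 : 2 ≤ D) (hD : ∀ m : ℕ, 1 ≤ m → m ≤ 2 * n → (m.divisors.card : ℝ) ≤ D)
    (hK : D ^ (8 * c + 11) ≤ K) (hKn : (K : ℝ) ^ 2 * D ^ (8 * c + 11) ≤ n) (g : ℤ → ℂ) (hg : ∀ x, ‖g x‖ ≤ 1) (hs : ∀ y, y ∉ Icc (1 : ℤ) n → g y = 0)
    (P : Finset (ℤ × ℤ)) (hPc : (n : ℝ) / (K * D ^ c) ≤ P.card) (hP : ∀ p ∈ P, (K : ℝ) / D ^ c ≤ |(p.1 : ℝ)| ∧ |p.1| < K ∧ p.2 ≠ 0 ∧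
      ∃ th : ℝ, (n : ℝ) ^ 2 / D ^ c ≤ ∑ a ∈ Aj K p.1, En n p.1.natAbs (fun y => Gd g (a * (a + p.1) * p.2) y * ee (th * y))) :
    ∃ th : ℝ, (n : ℝ) / D ^ (4 * c + 6) ≤ ‖∑ y ∈ Icc (1 : ℤ) n, g y * ee (th * y)‖ := by
  have hD0 : (0 : ℝ) < D := by linarith
  have hD1 : (1 : ℝ) ≤ D := by linarith
  have hKr : (0 : ℝ) < K := lt_of_lt_of_le (by positivity) hK
  have hK1 : 1 ≤ K := by
    have : 0 < K := by exact_mod_cast hKr
    omega
  have hK1r : (1 : ℝ) ≤ K := by exact_mod_cast hK1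
  have hnr : (0 : ℝ) < n := lt_of_lt_of_le (by positivity) hKn
  have hn : 1 ≤ n := by
    have : 0 < n := by exact_mod_cast hnr
    omega
  have hKn1 : (K : ℝ) * D ^ (8 * c + 11) ≤ n := by
    refine le_trans ?_ hKn
    refine mul_le_mul_of_nonneg_right ?_ (by positivity)
    nlinarith
  have hKn2 : (K : ℝ) ≤ n := by
    refine le_trans ?_ hKn1
    exact le_mul_of_one_le_right hKr.le (one_le_pow₀ hD1)
  have hKn3 : K ≤ n := by exact_mod_cast hKn2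
  have h3 : (P.card : ℝ) * ((n : ℝ) ^ 2 * K / (32 * D ^ (7 * c))) ≤
      ∑ p ∈ P, ∑ x ∈ (Aj K p.1 ×ˢ Aj K p.1).filter (fun x => x.1 ≠ x.2), En n p.1.natAbs (Gd g (p.2 * (x.2 - x.1) * (x.2 + x.1 + p.1))) := by
    rw [← nsmul_eq_mul]
    refine card_nsmul_le_sum _ _ _ fun p hp => ?_
    obtain ⟨h4, h5, h6, th, h7⟩ := hP p hp
    exact one_pair n K c D hn hK1 h2 hK hKn3 g hg hs p.1 p.2 p.1.natAbs (Int.natCast_natAbs p.1) h4 h5 th h7
  have h4 := offdiag n K D hD g hs P fun p hp => by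
    obtain ⟨h4, h5, h6, _⟩ := hP p hp
    refine ⟨?_, h5, h6⟩
    have h7 : (0 : ℝ) < |(p.1 : ℝ)| := lt_of_lt_of_le (by positivity) h4
    exact abs_pos.2 (by exact_mod_cast abs_pos.1 h7)
  have h5 : ∑ m ∈ Ico 1 K, ∑ e ∈ Ioo (-(n : ℤ)) n, En n m (Gd g e) ≤ K * n ^ 2 + D * ∑ d ∈ Ioo (-(n : ℤ)) n, ‖Au n g d‖ ^ 2 := by
    refine le_trans (le_of_eq ?_) (sum_sum_Au n K D hD g hg)
    refine sum_congr rfl fun m hm => ?_
    rw [mem_Ico] at hm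
    exact sum_En n m (by omega) g hs
  obtain ⟨th, h6⟩ := sum_Au n hn g hg hs
  refine ⟨th, ?_⟩
  refine r3 n K _ D c hnr hKr h2 (norm_nonneg _) hKn1 ?_
  have e1 : (n : ℝ) ^ 3 / (32 * D ^ (8 * c)) = (n : ℝ) / (K * D ^ c) * ((n : ℝ) ^ 2 * K / (32 * D ^ (7 * c))) := by
    rw [show 8 * c = c + 7 * c by ring, pow_add]
    field_simp
  rw [e1]
  have e2 : (n : ℝ) / (K * D ^ c) * ((n : ℝ) ^ 2 * K / (32 * D ^ (7 * c))) ≤ (P.card : ℝ) * ((n : ℝ) ^ 2 * K / (32 * D ^ (7 * c))) :=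
    mul_le_mul_of_nonneg_right hPc (by positivity)
  have e3 : 4 * D ^ 2 * ∑ m ∈ Ico 1 K, ∑ e ∈ Ioo (-(n : ℤ)) n, En n m (Gd g e) ≤
      4 * D ^ 2 * (K * n ^ 2 + D * (n * ‖∑ y ∈ Icc (1 : ℤ) n, g y * ee (th * y)‖ ^ 2)) := by
    refine mul_le_mul_of_nonneg_left (h5.trans ?_) (by positivity)
    have := mul_le_mul_of_nonneg_left h6 hD0.le
    linarith
  exact e2.trans (h3.trans (h4.trans e3))

end Pool.Agent.Lib.H81W
end

-- from Lib.H3B.S34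
section

/-!
# H3B, steps 3 and 4 (from many pairs `(j, k)` with large energies to one large exponential sum). Proof: library H81W.
-/

namespace Pool.Agent.H3B

open Finset
open Pool.Agent.H44W (ee TF cut)

/-- The two definitions of the energy agree. -/
theorem s34_E (n m : ℕ) (hm : 0 < m) (u : ℤ → ℂ) (hu : ∀ y, y ∉ Icc (1 : ℤ) n → u y = 0) : E m u = Pool.Agent.Lib.H81W.En n m u := by
  classical
  have hm0 : (0 : ℤ) < m := by exact_mod_cast hm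
  unfold E Pool.Agent.Lib.H81W.En
  have h1 : ∑ r ∈ Ico (0 : ℤ) m, ‖Pool.Agent.Lib.H81W.Sr n m u r‖ ^ 2 = ∑ r ∈ range m, ‖Pool.Agent.Lib.H81W.Sr n m u (r : ℤ)‖ ^ 2 := by
    symm
    refine sum_bij' (fun r _ => (r : ℤ)) (fun r _ => r.toNat) ?_ ?_ ?_ ?_ ?_
    · intro r hr
      rw [mem_range] at hr
      rw [mem_Ico]
      omega
    · intro r hr
      rw [mem_Ico] at hr
      rw [mem_range]
      omega
    · intro r _
      omega
    · intro r hr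
      rw [mem_Ico] at hr
      omega
    · intro r _
      rfl
  rw [h1]
  refine sum_congr rfl fun r hr => ?_
  rw [mem_range] at hr
  have hr0 : ((r : ℤ)) % m = r := Int.emod_eq_of_lt (by omega) (by omega)
  congr 2
  unfold Pool.Agent.Lib.H81W.Sr
  rw [tsum_eq_sum (s := ((Icc (1 : ℤ) (n : ℤ)).filter (fun y : ℤ => y % (m : ℤ) = (r : ℤ))).image (fun y : ℤ => y / (m : ℤ)))]
  · rw [sum_image]
    · refine sum_congr rfl fun y hy => ?_
      rw [mem_filter] at hy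
      rw [← hy.2, add_comm, Int.mul_ediv_add_emod]
    · intro y hy z hz h
      rw [mem_coe, mem_filter] at hy hz
      have h2 := Int.mul_ediv_add_emod y m
      have h3 := Int.mul_ediv_add_emod z m
      simp only at h
      rw [← h2, ← h3, h, hy.2, hz.2]
  · intro v hv
    apply hu
    intro h
    apply hv
    rw [mem_image]
    refine ⟨(r : ℤ) + m * v, ?_, ?_⟩
    · rw [mem_filter]
      exact ⟨h, by rw [Int.add_mul_emod_self_left, hr0]⟩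
    · rw [Int.add_mul_ediv_left _ _ hm0.ne', Int.ediv_eq_zero_of_lt (by omega) (by omega), zero_add]

theorem s34_sum (K : ℕ) (j : ℤ) (F : ℤ → ℝ) : ∑ a ∈ Ij K j, F a = ∑ a ∈ Pool.Agent.Lib.H81W.Aj K j, F a := by
  refine sum_bij' (fun a _ => (a : ℤ)) (fun a _ => a.toNat) ?_ ?_ ?_ ?_ ?_
  · intro a ha
    unfold Ij at ha
    rw [mem_filter, mem_Ico] at ha
    rw [Pool.Agent.Lib.H81W.mem_Aj]
    omega
  · intro a ha
    rw [Pool.Agent.Lib.H81W.mem_Aj] at ha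
    unfold Ij
    rw [mem_filter, mem_Ico]
    omega
  · intro a _
    omega
  · intro a ha
    rw [Pool.Agent.Lib.H81W.mem_Aj] at ha
    omega
  · intro a _
    rfl

/-- Steps 3 and 4. -/
theorem step34 (A : ℕ) : ∃ C : ℕ, ∀ (n K : ℕ) (D : ℝ), 2 ≤ D → (∀ m : ℕ, 1 ≤ m → m ≤ 2 * n → (m.divisors.card : ℝ) ≤ D) →
    D ^ C ≤ K → (K : ℝ) ^ 2 * D ^ C ≤ n → ∀ g : ℤ → ℂ, (∀ z, ‖g z‖ ≤ 1) → (∀ y : ℤ, y ∉ Icc (1 : ℤ) n → g y = 0) →
    ∀ P : Finset (ℤ × ℤ), (n : ℝ) / (K * D ^ A) ≤ P.card →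
    (∀ p ∈ P, (K : ℝ) / D ^ A ≤ |(p.1 : ℝ)| ∧ |p.1| < K ∧ p.2 ≠ 0 ∧
      ∃ θ : ℝ, (n : ℝ) ^ 2 / D ^ A ≤ ∑ a ∈ Ij K p.1, E p.1.natAbs (tw θ (Gd g (a * (a + p.1) * p.2)))) →
    ∃ θ : ℝ, (n : ℝ) / D ^ C ≤ ‖∑' y : ℤ, g y * ee (-(θ * y))‖ := by
  refine ⟨8 * A + 11, fun n K D h2 hD hK hKn g hg hs P hPc hP => ?_⟩
  have hD1 : (1 : ℝ) ≤ D := by linarith
  have hD0 : (0 : ℝ) < D := by linarith
  have hKr : (0 : ℝ) < K := lt_of_lt_of_le (by positivity) hK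
  obtain ⟨th, h⟩ := Pool.Agent.Lib.H81W.step34 A n K D h2 hD hK hKn g hg hs P hPc fun p hp => by
    obtain ⟨h3, h4, h5, θ, h6⟩ := hP p hp
    refine ⟨h3, h4, h5, -θ, ?_⟩
    have h7 : (0 : ℝ) < |(p.1 : ℝ)| := lt_of_lt_of_le (by positivity) h3
    have h8 : p.1 ≠ 0 := by
      intro h0
      rw [h0, Int.cast_zero, abs_zero] at h7
      exact lt_irrefl _ h7
    refine h6.trans (le_of_eq ?_)
    rw [s34_sum K p.1 (fun a => E p.1.natAbs (tw θ (Gd g (a * (a + p.1) * p.2))))]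
    refine sum_congr rfl fun a _ => ?_
    rw [s34_E n p.1.natAbs (by omega)]
    · congr 1
      funext y
      unfold tw
      rw [neg_mul]
      rfl
    · intro y hy
      unfold tw Gd
      rw [hs y hy, zero_mul, zero_mul]
  refine ⟨-th, ?_⟩
  have h3 : ∑' y : ℤ, g y * ee (-(-th * y)) = ∑ y ∈ Icc (1 : ℤ) n, g y * ee (th * y) := by
    rw [tsum_eq_sum (s := Icc (1 : ℤ) n)]
    · refine sum_congr rfl fun y _ => ?_
      rw [neg_mul, neg_neg]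
    · intro y hy
      rw [hs y hy, zero_mul]
  rw [h3]
  refine le_trans ?_ h
  exact div_le_div_of_nonneg_left (Nat.cast_nonneg n) (by positivity) (pow_le_pow_right₀ hD1 (by omega))

end Pool.Agent.H3B
end

-- from Lib.H3B.CS
section

/-! # H3B (MP_443e5f, candidate T, module B), chunk CS -/

namespace Pool.Agent.H3B

open Finset
open Pool.Agent.H44W (ee TF cut)

theorem cs_sq {n : ℕ} (hn : 1 ≤ n) {g : ℤ → ℂ} (hg : ∀ z, ‖g z‖ ≤ 1) (hs : Sp n g) (Z : Finset ℤ)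
    (hZ : Icc (-(n : ℤ)) n ⊆ Z) : ∑ y ∈ Z, ‖g y‖ ^ 2 ≤ 3 * (n : ℝ) := by
  have h1 : ∑ y ∈ Z, ‖g y‖ ^ 2 = ∑ y ∈ Icc (-(n : ℤ)) n, ‖g y‖ ^ 2 := by
    symm
    refine sum_subset hZ fun y _ hy => ?_
    have h2 : g y = 0 := by
      by_contra h0
      exact hy (mem_Icc.2 (abs_le.1 (hs y h0)))
    rw [h2]
    simp
  have h2 : ∑ y ∈ Icc (-(n : ℤ)) n, ‖g y‖ ^ 2 ≤ ∑ _y ∈ Icc (-(n : ℤ)) n, (1 : ℝ) :=
    sum_le_sum fun y _ => pow_le_one₀ (norm_nonneg _) (hg y)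
  rw [h1]
  refine h2.trans ?_
  rw [sum_const, Int.card_Icc, nsmul_eq_mul, mul_one]
  have h3 : (n : ℤ) + 1 - -(n : ℤ) = ((2 * n + 1 : ℕ) : ℤ) := by push_cast; ring
  rw [h3, Int.toNat_natCast]
  push_cast
  have h4 : (1 : ℝ) ≤ n := by exact_mod_cast hn
  linarith

/-- Chunk CS (M). Cauchy-Schwarz removing g(y). PROOF. The left side is |∑' y, g y * V y|², V y = ∑_{a in s} conj g (y + q a) * v a y (finite sums). ≤ (∑ |g|²)(∑' y, |V y|²), ∑ |g|² ≤ 2 n + 1 ≤ 3 n,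
and ∑' y, |V y|² = ∑_{a, a'} ∑' y, conj g (y + q a) g (y + q a') v a y conj v a' y (all have finite support, Sp.shift). -/
theorem CSg {n : ℕ} (hn : 1 ≤ n) {g : ℤ → ℂ} (hg : ∀ z, ‖g z‖ ≤ 1) (hs : Sp n g) {ι : Type} (s : Finset ι) (q : ι → ℤ) (v : ι → ℤ → ℂ) :
    ‖∑ a ∈ s, ∑' y : ℤ, Gd g (q a) y * v a y‖ ^ 2 ≤ 3 * n * ∑ a ∈ s, ∑ a' ∈ s,
      ‖∑' y : ℤ, (starRingEnd ℂ) (g (y + q a)) * g (y + q a') * (v a y * (starRingEnd ℂ) (v a' y))‖ := by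
  obtain ⟨T, hT⟩ : ∃ T : ℕ, ∀ a ∈ s, (q a).natAbs ≤ T :=
    ⟨∑ a ∈ s, (q a).natAbs, fun a ha => single_le_sum (f := fun a => (q a).natAbs) (fun _ _ => Nat.zero_le _) ha⟩
  obtain ⟨Z, hZd⟩ : ∃ Z : Finset ℤ, Z = Icc (-((n + T : ℕ) : ℤ)) ((n + T : ℕ) : ℤ) := ⟨_, rfl⟩
  have hZ : Icc (-(n : ℤ)) n ⊆ Z := by
    rw [hZd]
    apply Icc_subset_Icc <;> push_cast <;> omega
  have hz : ∀ y ∉ Z, g y = 0 := by
    intro y hy
    by_contra h0
    exact hy (hZ (mem_Icc.2 (abs_le.1 (hs y h0))))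
  have hzq : ∀ a ∈ s, ∀ y ∉ Z, g (y + q a) = 0 := by
    intro a ha y hy
    by_contra h0
    have h1 := abs_le.1 (hs _ h0)
    have h2 := hT a ha
    apply hy
    rw [hZd, mem_Icc]
    push_cast
    omega
  have e1 : ∑ a ∈ s, ∑' y : ℤ, Gd g (q a) y * v a y =
      ∑ y ∈ Z, g y * ∑ a ∈ s, (starRingEnd ℂ) (g (y + q a)) * v a y := by
    have h1 : ∀ a ∈ s, ∑' y : ℤ, Gd g (q a) y * v a y = ∑ y ∈ Z, Gd g (q a) y * v a y := by
      intro a _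
      refine tsum_eq_sum fun y hy => ?_
      unfold Gd
      rw [hz y hy]
      ring
    rw [sum_congr rfl h1, sum_comm]
    refine sum_congr rfl fun y _ => ?_
    rw [mul_sum]
    refine sum_congr rfl fun a _ => ?_
    unfold Gd
    ring
  obtain ⟨V, hV⟩ : ∃ V : ℤ → ℂ, ∀ y, V y = ∑ a ∈ s, (starRingEnd ℂ) (g (y + q a)) * v a y := ⟨_, fun _ => rfl⟩
  have e1' : ∑ a ∈ s, ∑' y : ℤ, Gd g (q a) y * v a y = ∑ y ∈ Z, g y * V y := by
    rw [e1]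
    exact sum_congr rfl fun y _ => by rw [hV y]
  have e2 : ((∑ y ∈ Z, ‖V y‖ ^ 2 : ℝ) : ℂ) = ∑ a ∈ s, ∑ a' ∈ s,
      ∑' y : ℤ, (starRingEnd ℂ) (g (y + q a)) * g (y + q a') * (v a y * (starRingEnd ℂ) (v a' y)) := by
    have h1 : ∀ a ∈ s, ∀ a' ∈ s,
        ∑' y : ℤ, (starRingEnd ℂ) (g (y + q a)) * g (y + q a') * (v a y * (starRingEnd ℂ) (v a' y)) =
        ∑ y ∈ Z, (starRingEnd ℂ) (g (y + q a)) * g (y + q a') * (v a y * (starRingEnd ℂ) (v a' y)) := by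
      intro a ha a' _
      refine tsum_eq_sum fun y hy => ?_
      rw [hzq a ha y hy]
      simp
    rw [sum_congr rfl fun a ha => sum_congr rfl fun a' ha' => h1 a ha a' ha']
    push_cast
    have h2 : ∀ y ∈ Z, ((‖V y‖ : ℝ) : ℂ) ^ 2 =
        ∑ a ∈ s, ∑ a' ∈ s, (starRingEnd ℂ) (g (y + q a)) * g (y + q a') * (v a y * (starRingEnd ℂ) (v a' y)) := by
      intro y _
      rw [← Complex.mul_conj', hV y, map_sum, sum_mul_sum]
      refine sum_congr rfl fun a _ => sum_congr rfl fun a' _ => ?_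
      rw [map_mul, Complex.conj_conj]
      ring
    rw [sum_congr rfl h2, sum_comm]
    refine sum_congr rfl fun a _ => ?_
    rw [sum_comm]
  have e3 : ∑ y ∈ Z, ‖V y‖ ^ 2 ≤ ∑ a ∈ s, ∑ a' ∈ s,
      ‖∑' y : ℤ, (starRingEnd ℂ) (g (y + q a)) * g (y + q a') * (v a y * (starRingEnd ℂ) (v a' y))‖ := by
    have h0 : 0 ≤ ∑ y ∈ Z, ‖V y‖ ^ 2 := sum_nonneg fun _ _ => sq_nonneg _
    have h1 : ∑ y ∈ Z, ‖V y‖ ^ 2 = ‖((∑ y ∈ Z, ‖V y‖ ^ 2 : ℝ) : ℂ)‖ := by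
      rw [Complex.norm_real, Real.norm_of_nonneg h0]
    rw [h1, e2]
    refine (norm_sum_le _ _).trans (sum_le_sum fun a _ => ?_)
    exact norm_sum_le _ _
  have e4 : ‖∑ y ∈ Z, g y * V y‖ ^ 2 ≤ (∑ y ∈ Z, ‖g y‖ ^ 2) * ∑ y ∈ Z, ‖V y‖ ^ 2 := by
    have h1 : ‖∑ y ∈ Z, g y * V y‖ ≤ ∑ y ∈ Z, ‖g y‖ * ‖V y‖ := by
      refine (norm_sum_le _ _).trans (le_of_eq (sum_congr rfl fun y _ => ?_))
      rw [norm_mul]
    exact (pow_le_pow_left₀ (norm_nonneg _) h1 2).trans (sum_mul_sq_le_sq_mul_sq _ _ _)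
  rw [e1']
  refine e4.trans ?_
  have h5 : 0 ≤ ∑ y ∈ Z, ‖V y‖ ^ 2 := sum_nonneg fun _ _ => sq_nonneg _
  calc (∑ y ∈ Z, ‖g y‖ ^ 2) * ∑ y ∈ Z, ‖V y‖ ^ 2 ≤ 3 * n * ∑ y ∈ Z, ‖V y‖ ^ 2 :=
        mul_le_mul_of_nonneg_right (cs_sq hn hg hs Z hZ) h5
    _ ≤ _ := mul_le_mul_of_nonneg_left e3 (by positivity)

end Pool.Agent.H3B
end

-- from Lib.H3B.SY
section

/-! # H3B (MP_443e5f, candidate T, module B), chunk SY -/

namespace Pool.Agent.H3B

open Finset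
open Pool.Agent.H44W (ee TF cut)

/-- Chunk SYa (S). PROOF. tsum_congr; both terms are g y conj g (y + d) conj g (y + q) g (y + d + q). -/
theorem R_symm (g : ℤ → ℂ) (d q : ℤ) : R (Gd g d) q = R (Gd g q) d := by
  unfold R Gd
  refine tsum_congr fun y => ?_
  rw [map_mul, map_mul, Complex.conj_conj, Complex.conj_conj]
  have h1 : y + q + d = y + d + q := by ring
  rw [h1]
  ring

/-- Chunk SYb (S). -/
theorem R_bound {n : ℕ} {g : ℤ → ℂ} (h : Sp n g) (hg : ∀ z, ‖g z‖ ≤ 1) (hn : 1 ≤ n) (d q : ℤ) : ‖R (Gd g d) q‖ ≤ 3 * n := by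
  have h1 : Sp n (fun y => Gd g d y * (starRingEnd ℂ) (Gd g d (y + q))) := (h.Gd d).mul_right _
  have h2 := h1.norm_tsum_le (b := 1) (fun y => by
    rw [norm_mul, RCLike.norm_conj]
    exact mul_le_one₀ (Gd_norm hg _ _) (norm_nonneg _) (Gd_norm hg _ _))
  unfold R
  refine h2.trans ?_
  have h3 : (1 : ℝ) ≤ n := by exact_mod_cast hn
  linarith

/-- Chunk SYc (S). g y and g (y + q) are not both nonzero. -/
theorem R_zero {n : ℕ} {g : ℤ → ℂ} (h : Sp n g) {d q : ℤ} (hq : 2 * (n : ℤ) < |q|) : R (Gd g d) q = 0 := by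
  unfold R
  have h1 : ∀ y, Gd g d y * (starRingEnd ℂ) (Gd g d (y + q)) = 0 := by
    intro y
    by_contra h0
    have h2 : Gd g d y ≠ 0 := left_ne_zero_of_mul h0
    have h3 : Gd g d (y + q) ≠ 0 := by
      intro h4
      apply h0
      rw [h4, map_zero, mul_zero]
    have h4 := h.Gd d y h2
    have h5 := h.Gd d (y + q) h3
    have h6 : |q| ≤ |y + q| + |y| := by
      have := abs_sub (y + q) y
      simpa using this
    omega
  simp only [h1, tsum_zero]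


end Pool.Agent.H3B
end

-- from Lib.H3B.TP
section

/-! # H3B (MP_443e5f, candidate T, module B), chunk TP -/

namespace Pool.Agent.H3B

open Finset
open Pool.Agent.H44W (ee TF cut)

theorem tp_pow (x : ℝ) (i : ℕ) : ee (i * x) = ee x ^ i := by
  induction i with
  | zero => simp [ee_zero]
  | succ i ih =>
    rw [pow_succ, ← ih, ← ee_add]
    congr 1
    push_cast
    ring

/-- orthogonality -/
theorem tp_orth (Q : ℕ) (hQ : 0 < Q) (t : ℤ) (ht : |t| < Q) :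
    ∑ i ∈ range Q, ee ((i : ℝ) / Q * t) = if t = 0 then (Q : ℂ) else 0 := by
  have hQ0 : (Q : ℝ) ≠ 0 := by exact_mod_cast hQ.ne'
  have e1 : ∀ i : ℕ, ee ((i : ℝ) / Q * t) = ee (t / Q) ^ i := by
    intro i
    rw [← tp_pow]
    congr 1
    ring
  rw [Finset.sum_congr rfl fun i _ => e1 i]
  split_ifs with h
  · rw [h]
    simp [ee_zero]
  · have h1 : ee ((t : ℝ) / Q) ≠ 1 := by
      intro h2
      unfold ee at h2
      rw [Complex.exp_eq_one_iff] at h2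
      obtain ⟨k, hk⟩ := h2
      have h3 : ((t : ℝ) / Q : ℝ) = k := by
        have h4 : (2 * Real.pi * Complex.I : ℂ) ≠ 0 := by
          have hpi : (Real.pi : ℂ) ≠ 0 := by exact_mod_cast Real.pi_ne_zero
          exact mul_ne_zero (mul_ne_zero two_ne_zero hpi) Complex.I_ne_zero
        have h5 : (((t : ℝ) / Q : ℝ) : ℂ) * (2 * Real.pi * Complex.I) = k * (2 * Real.pi * Complex.I) := by
          rw [← hk]
          ring
        have h6 := mul_right_cancel₀ h4 h5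
        exact_mod_cast h6
      rw [div_eq_iff hQ0] at h3
      have h4 : t = k * Q := by exact_mod_cast h3
      rw [h4, abs_mul, Nat.abs_cast] at ht
      have h5 : |k| < 1 := by
        by_contra h6
        have h7 : 1 ≤ |k| := not_lt.1 h6
        nlinarith
      have h6 : k = 0 := Int.abs_lt_one_iff.1 h5
      rw [h6, zero_mul] at h4
      exact h h4
    rw [geom_sum_eq h1, ← tp_pow]
    have e2 : (Q : ℝ) * ((t : ℝ) / Q) = t := by field_simp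
    rw [e2, ee_int, sub_self, zero_div]

/-- Parseval -/
theorem tp_pars (Q : ℕ) (hQ : 0 < Q) (S : Finset ℤ) (B : ℤ → ℂ) (hS : ∀ b ∈ S, ∀ b' ∈ S, |b' - b| < (Q : ℤ)) :
    ∑ i ∈ range Q, ‖∑ b ∈ S, B b * ee ((i : ℝ) / Q * b)‖ ^ 2 = Q * ∑ b ∈ S, ‖B b‖ ^ 2 := by
  have e0 : ((∑ i ∈ range Q, ‖∑ b ∈ S, B b * ee ((i : ℝ) / Q * b)‖ ^ 2 : ℝ) : ℂ) =
      ((Q * ∑ b ∈ S, ‖B b‖ ^ 2 : ℝ) : ℂ) := by
    rw [Complex.ofReal_sum]
    have e1 : ∀ i ∈ range Q, ((‖∑ b ∈ S, B b * ee ((i : ℝ) / Q * b)‖ ^ 2 : ℝ) : ℂ) =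
        ∑ b' ∈ S, ∑ b ∈ S, (B b' * (starRingEnd ℂ) (B b)) * ee ((i : ℝ) / Q * ((b' - b : ℤ) : ℝ)) := by
      intro i _
      rw [← Complex.normSq_eq_norm_sq, ← Complex.mul_conj, map_sum, Finset.sum_mul_sum]
      refine Finset.sum_congr rfl fun b' _ => Finset.sum_congr rfl fun b _ => ?_
      rw [map_mul, ee_conj]
      have e2 : ee ((i : ℝ) / Q * ((b' - b : ℤ) : ℝ)) = ee ((i : ℝ) / Q * b') * ee (-((i : ℝ) / Q * b)) := by
        rw [← ee_add]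
        congr 1
        push_cast
        ring
      rw [e2]
      ring
    rw [Finset.sum_congr rfl e1, Finset.sum_comm]
    have e3 : ∀ b' ∈ S, ∑ i ∈ range Q, ∑ b ∈ S, (B b' * (starRingEnd ℂ) (B b)) *
        ee ((i : ℝ) / Q * ((b' - b : ℤ) : ℝ)) = Q * (B b' * (starRingEnd ℂ) (B b')) := by
      intro b' hb'
      rw [Finset.sum_comm]
      have e4 : ∀ b ∈ S, ∑ i ∈ range Q, (B b' * (starRingEnd ℂ) (B b)) *
          ee ((i : ℝ) / Q * ((b' - b : ℤ) : ℝ)) = if b = b' then Q * (B b' * (starRingEnd ℂ) (B b')) else 0 := by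
        intro b hb
        rw [← Finset.mul_sum, tp_orth Q hQ (b' - b) (hS b hb b' hb')]
        by_cases h : b = b'
        · rw [if_pos (sub_eq_zero.2 h.symm), if_pos h, h]
          ring
        · rw [if_neg (fun h' => h (sub_eq_zero.1 h').symm), if_neg h, mul_zero]
      rw [Finset.sum_congr rfl e4, Finset.sum_ite_eq' S b', if_pos hb']
    rw [Finset.sum_congr rfl e3, ← Finset.mul_sum]
    push_cast
    congr 1
    refine Finset.sum_congr rfl fun b _ => ?_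
    rw [Complex.mul_conj, Complex.normSq_eq_norm_sq]
    push_cast
    rfl
  exact_mod_cast e0

/-- inversion -/
theorem tp_inv (Q : ℕ) (hQ : 0 < Q) {N : ℕ} {ρ : ℤ → ℂ} (hρ : ∀ l, l ∉ Icc (-(N : ℤ)) N → ρ l = 0) (En : ℝ → ℝ)
    (hexp : ∀ φ, ((En φ : ℝ) : ℂ) = ∑ l ∈ Icc (-(N : ℤ)) N, ρ l * ee (φ * l)) (h : ℤ)
    (hh : ∀ l ∈ Icc (-(N : ℤ)) N, |l - h| < (Q : ℤ)) :
    ∑ i ∈ range Q, ((En ((i : ℝ) / Q) : ℝ) : ℂ) * ee (-((i : ℝ) / Q * h)) = Q * ρ h := by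
  have e1 : ∀ i ∈ range Q, ((En ((i : ℝ) / Q) : ℝ) : ℂ) * ee (-((i : ℝ) / Q * h)) =
      ∑ l ∈ Icc (-(N : ℤ)) N, ρ l * ee ((i : ℝ) / Q * ((l - h : ℤ) : ℝ)) := by
    intro i _
    rw [hexp, Finset.sum_mul]
    refine Finset.sum_congr rfl fun l _ => ?_
    rw [mul_assoc, ← ee_add]
    congr 2
    push_cast
    ring
  rw [Finset.sum_congr rfl e1, Finset.sum_comm]
  have e2 : ∀ l ∈ Icc (-(N : ℤ)) N, ∑ i ∈ range Q, ρ l * ee ((i : ℝ) / Q * ((l - h : ℤ) : ℝ)) =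
      if l = h then Q * ρ h else 0 := by
    intro l hl
    rw [← Finset.mul_sum, tp_orth Q hQ (l - h) (hh l hl)]
    by_cases h1 : l = h
    · rw [if_pos (sub_eq_zero.2 h1), if_pos h1, h1]
      ring
    · rw [if_neg (fun h' => h1 (sub_eq_zero.1 h')), if_neg h1, mul_zero]
  rw [Finset.sum_congr rfl e2, Finset.sum_ite_eq']
  split_ifs with h3
  · rfl
  · rw [hρ h h3, mul_zero]

/-- an upper bound for the elements -/
theorem tp_size (T : Finset ℤ) (h : ℤ) (hh : h ∈ T) : |h| ≤ ((∑ x ∈ T, x.natAbs : ℕ) : ℤ) := by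
  have h1 : h.natAbs ≤ ∑ x ∈ T, x.natAbs := Finset.single_le_sum (f := fun x : ℤ => x.natAbs) (fun _ _ => Nat.zero_le _) hh
  have h2 : |h| = (h.natAbs : ℤ) := Int.abs_eq_natAbs h
  rw [h2]
  exact_mod_cast h1

/-- Chunk TP1 (M). PROOF. Choose Q = 2 N + 1 + (bound for the elements of T) large: Q greater than |l - h| for all l in Icc (-N) N and h in T or in Icc (-N) N. Orthogonality:
∑_{i < Q} ee (i t / Q) = Q if Q divides t, else 0 (geometric sum); so ρ h = (1/Q) ∑_i En (i/Q) ee (-i h/Q) for h in T (both sides 0 if h is not in Icc (-N) N).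
∑_{h in T} c h ρ h = (1/Q) ∑_i En(i/Q) C_i, C_i = ∑_{h in T} c h ee (-i h/Q). |C_i| ≤ η L + |C_i|²/(η L). (1/Q) ∑_i En (i/Q) = ρ 0 (so ρ 0 is real, equal to its norm);
(1/Q) ∑_i |C_i|² = ∑_{h in T} |c h|² ≤ L (distinct elements of T are distinct modulo Q). Take φ = i/Q with En maximal (exists_max_image on range Q): the sum is at most
η L ρ 0 + En φ (1/(η L)) L. -/
theorem TP1 {N : ℕ} {ρ : ℤ → ℂ} (hρ : ∀ l, l ∉ Icc (-(N : ℤ)) N → ρ l = 0) (En : ℝ → ℝ) (hE : ∀ φ, 0 ≤ En φ)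
    (hexp : ∀ φ, ((En φ : ℝ) : ℂ) = ∑ l ∈ Icc (-(N : ℤ)) N, ρ l * ee (φ * l)) (T : Finset ℤ) (c : ℤ → ℂ) (hc : ∀ h, ‖c h‖ ≤ 1)
    {η L : ℝ} (hη : 0 < η) (hL0 : 0 < L) (hL : (T.card : ℝ) ≤ L) :
    ∃ φ : ℝ, ‖∑ h ∈ T, c h * ρ h‖ ≤ η * L * ‖ρ 0‖ + En φ / η := by
  obtain ⟨Q, hQd⟩ : ∃ Q : ℕ, Q = 2 * N + 1 + 2 * ∑ x ∈ T, x.natAbs := ⟨_, rfl⟩
  have hQ : 0 < Q := by omega
  have hQR : (0 : ℝ) < Q := by exact_mod_cast hQ
  have hT : ∀ h ∈ T, ∀ l ∈ Icc (-(N : ℤ)) N, |l - h| < (Q : ℤ) := by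
    intro h hh l hl
    have h1 := tp_size T h hh
    rw [mem_Icc] at hl
    rw [abs_le] at h1
    rw [abs_lt]
    push_cast [hQd]
    push_cast at h1
    constructor <;> omega
  have hTT : ∀ h ∈ T, ∀ h' ∈ T, |h' - h| < (Q : ℤ) := by
    intro h hh h' hh'
    have h1 := tp_size T h hh
    have h2 := tp_size T h' hh'
    rw [abs_le] at h1 h2
    rw [abs_lt]
    push_cast [hQd]
    push_cast at h1 h2
    constructor <;> omega
  have h0 : ∀ l ∈ Icc (-(N : ℤ)) N, |l - 0| < (Q : ℤ) := by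
    intro l hl
    rw [mem_Icc] at hl
    have hNQ : (N : ℤ) < Q := by
      have h5 : N < Q := by omega
      exact_mod_cast h5
    rw [abs_lt]
    constructor <;> omega
  obtain ⟨i0, hi0, hmax⟩ := exists_max_image (range Q) (fun i : ℕ => En ((i : ℝ) / Q)) ⟨0, mem_range.2 hQ⟩
  refine ⟨(i0 : ℝ) / Q, ?_⟩
  set C : ℕ → ℂ := fun i => ∑ h ∈ T, c h * ee (-((i : ℝ) / Q * h)) with hC
  have s1 : (Q : ℂ) * ∑ h ∈ T, c h * ρ h = ∑ i ∈ range Q, ((En ((i : ℝ) / Q) : ℝ) : ℂ) * C i := by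
    rw [Finset.mul_sum]
    have e1 : ∀ h ∈ T, (Q : ℂ) * (c h * ρ h) =
        ∑ i ∈ range Q, ((En ((i : ℝ) / Q) : ℝ) : ℂ) * (c h * ee (-((i : ℝ) / Q * h))) := by
      intro h hh
      have e2 := tp_inv Q hQ hρ En hexp h (hT h hh)
      calc (Q : ℂ) * (c h * ρ h) = c h * (Q * ρ h) := by ring
        _ = _ := by
          rw [← e2, Finset.mul_sum]
          refine Finset.sum_congr rfl fun i _ => ?_
          ring
    rw [Finset.sum_congr rfl e1, Finset.sum_comm]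
    refine Finset.sum_congr rfl fun i _ => ?_
    rw [hC, Finset.mul_sum]
  have s2 : ∑ i ∈ range Q, En ((i : ℝ) / Q) = Q * ‖ρ 0‖ := by
    have e2 := tp_inv Q hQ hρ En hexp 0 h0
    have e3 : ((∑ i ∈ range Q, En ((i : ℝ) / Q) : ℝ) : ℂ) = Q * ρ 0 := by
      rw [← e2, Complex.ofReal_sum]
      refine Finset.sum_congr rfl fun i _ => ?_
      simp [ee_zero]
    have e4 := congrArg norm e3
    rw [Complex.norm_real, Real.norm_of_nonneg (Finset.sum_nonneg fun _ _ => hE _), norm_mul,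
      Complex.norm_natCast] at e4
    exact e4
  have s3 : ∑ i ∈ range Q, ‖C i‖ ^ 2 = Q * ∑ h ∈ T, ‖c h‖ ^ 2 := by
    have e1 := tp_pars Q hQ T (fun h => (starRingEnd ℂ) (c h)) hTT
    have e2 : ∀ i : ℕ, ‖∑ h ∈ T, (starRingEnd ℂ) (c h) * ee ((i : ℝ) / Q * h)‖ = ‖C i‖ := by
      intro i
      have e3 : ∑ h ∈ T, (starRingEnd ℂ) (c h) * ee ((i : ℝ) / Q * h) = (starRingEnd ℂ) (C i) := by
        rw [hC, map_sum]
        refine Finset.sum_congr rfl fun h _ => ?_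
        rw [map_mul, ee_conj, neg_neg]
      rw [e3, RCLike.norm_conj]
    simp only [e2, RCLike.norm_conj] at e1
    exact e1
  have s4 : ∑ h ∈ T, ‖c h‖ ^ 2 ≤ L := by
    refine le_trans ?_ hL
    calc ∑ h ∈ T, ‖c h‖ ^ 2 ≤ ∑ _h ∈ T, (1 : ℝ) :=
          Finset.sum_le_sum fun h _ => pow_le_one₀ (norm_nonneg _) (hc h)
      _ = T.card := by simp
  have hηL : 0 < η * L := mul_pos hη hL0
  have s5 : ∀ i, ‖C i‖ ≤ η * L + ‖C i‖ ^ 2 / (η * L) := by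
    intro i
    rw [← sub_le_iff_le_add', le_div_iff₀ hηL]
    nlinarith [sq_nonneg (‖C i‖ - η * L), norm_nonneg (C i), mul_nonneg hηL.le (norm_nonneg (C i))]
  have s6 : Q * ‖∑ h ∈ T, c h * ρ h‖ ≤ Q * (η * L * ‖ρ 0‖ + En ((i0 : ℝ) / Q) / η) := by
    have e1 : Q * ‖∑ h ∈ T, c h * ρ h‖ = ‖(Q : ℂ) * ∑ h ∈ T, c h * ρ h‖ := by
      rw [norm_mul, Complex.norm_natCast]
    rw [e1, s1]
    calc _ ≤ ∑ i ∈ range Q, En ((i : ℝ) / Q) * ‖C i‖ := by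
          refine (norm_sum_le _ _).trans (Finset.sum_le_sum fun i _ => ?_)
          rw [norm_mul, Complex.norm_real, Real.norm_of_nonneg (hE _)]
      _ ≤ ∑ i ∈ range Q, (En ((i : ℝ) / Q) * (η * L) + En ((i0 : ℝ) / Q) * (‖C i‖ ^ 2 / (η * L))) := by
          refine Finset.sum_le_sum fun i hi => ?_
          calc _ ≤ En ((i : ℝ) / Q) * (η * L + ‖C i‖ ^ 2 / (η * L)) :=
                mul_le_mul_of_nonneg_left (s5 i) (hE _)
            _ = En ((i : ℝ) / Q) * (η * L) + En ((i : ℝ) / Q) * (‖C i‖ ^ 2 / (η * L)) := by ring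
            _ ≤ _ := by
              have e2 : En ((i : ℝ) / Q) * (‖C i‖ ^ 2 / (η * L)) ≤ En ((i0 : ℝ) / Q) * (‖C i‖ ^ 2 / (η * L)) :=
                mul_le_mul_of_nonneg_right (hmax i hi) (by positivity)
              linarith
      _ = η * L * (Q * ‖ρ 0‖) + En ((i0 : ℝ) / Q) / (η * L) * (Q * ∑ h ∈ T, ‖c h‖ ^ 2) := by
          rw [Finset.sum_add_distrib, ← Finset.sum_mul, s2, ← s3, ← Finset.mul_sum, ← Finset.sum_div]
          ring
      _ ≤ η * L * (Q * ‖ρ 0‖) + En ((i0 : ℝ) / Q) / (η * L) * (Q * L) := by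
          have e3 : 0 ≤ En ((i0 : ℝ) / Q) / (η * L) := div_nonneg (hE _) hηL.le
          have e4 : (Q : ℝ) * ∑ h ∈ T, ‖c h‖ ^ 2 ≤ Q * L := mul_le_mul_of_nonneg_left s4 hQR.le
          have e5 := mul_le_mul_of_nonneg_left e4 e3
          linarith
      _ = Q * (η * L * ‖ρ 0‖ + En ((i0 : ℝ) / Q) / η) := by
          field_simp
  exact le_of_mul_le_mul_left s6 hQR

/-- Chunk TP2 (M). PROOF. As in TP1 with Q larger than N + |b' - b| for all b, b' in S: ∑_{b, b'} B b conj B b' ρ (b' - b) = (1/Q) ∑_i En (i/Q) |∑_b B b ee (i b/Q)|²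
(ee (-i (b' - b)/Q) = ee (i b/Q) conj ee (i b'/Q)), and (1/Q) ∑_i |∑_b B b ee (i b/Q)|² = ∑_b |B b|². -/
theorem TP2 {N : ℕ} {ρ : ℤ → ℂ} (hρ : ∀ l, l ∉ Icc (-(N : ℤ)) N → ρ l = 0) (En : ℝ → ℝ) (hE : ∀ φ, 0 ≤ En φ)
    (hexp : ∀ φ, ((En φ : ℝ) : ℂ) = ∑ l ∈ Icc (-(N : ℤ)) N, ρ l * ee (φ * l)) (S : Finset ℤ) (B : ℤ → ℂ) :
    ∃ φ : ℝ, ‖∑ b ∈ S, ∑ b' ∈ S, B b * (starRingEnd ℂ) (B b') * ρ (b' - b)‖ ≤ (∑ b ∈ S, ‖B b‖ ^ 2) * En φ := by
  obtain ⟨Q, hQd⟩ : ∃ Q : ℕ, Q = 2 * N + 1 + 2 * ∑ x ∈ S, x.natAbs := ⟨_, rfl⟩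
  have hQ : 0 < Q := by omega
  have hQR : (0 : ℝ) < Q := by exact_mod_cast hQ
  have hSS : ∀ h ∈ S, ∀ h' ∈ S, |h' - h| < (Q : ℤ) := by
    intro h hh h' hh'
    have h1 := tp_size S h hh
    have h2 := tp_size S h' hh'
    rw [abs_le] at h1 h2
    rw [abs_lt]
    push_cast [hQd]
    push_cast at h1 h2
    constructor <;> omega
  have hS : ∀ b ∈ S, ∀ b' ∈ S, ∀ l ∈ Icc (-(N : ℤ)) N, |l - (b' - b)| < (Q : ℤ) := by
    intro h hh h' hh' l hl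
    have h1 := tp_size S h hh
    have h2 := tp_size S h' hh'
    rw [mem_Icc] at hl
    rw [abs_le] at h1 h2
    rw [abs_lt]
    push_cast [hQd]
    push_cast at h1 h2
    constructor <;> omega
  obtain ⟨i0, hi0, hmax⟩ := exists_max_image (range Q) (fun i : ℕ => En ((i : ℝ) / Q)) ⟨0, mem_range.2 hQ⟩
  refine ⟨(i0 : ℝ) / Q, ?_⟩
  have s1 : (Q : ℂ) * ∑ b ∈ S, ∑ b' ∈ S, B b * (starRingEnd ℂ) (B b') * ρ (b' - b) =
      ((∑ i ∈ range Q, En ((i : ℝ) / Q) * ‖∑ b ∈ S, B b * ee ((i : ℝ) / Q * b)‖ ^ 2 : ℝ) : ℂ) := by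
    rw [Complex.ofReal_sum]
    have e1 : ∀ i ∈ range Q, ((En ((i : ℝ) / Q) * ‖∑ b ∈ S, B b * ee ((i : ℝ) / Q * b)‖ ^ 2 : ℝ) : ℂ) =
        ∑ b ∈ S, ∑ b' ∈ S, B b * (starRingEnd ℂ) (B b') *
          (((En ((i : ℝ) / Q) : ℝ) : ℂ) * ee (-((i : ℝ) / Q * ((b' - b : ℤ) : ℝ)))) := by
      intro i _
      rw [Complex.ofReal_mul, ← Complex.normSq_eq_norm_sq, ← Complex.mul_conj, map_sum, Finset.sum_mul_sum]
      rw [Finset.mul_sum]
      refine Finset.sum_congr rfl fun b _ => ?_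
      rw [Finset.mul_sum]
      refine Finset.sum_congr rfl fun b' _ => ?_
      rw [map_mul, ee_conj]
      have e2 : ee (-((i : ℝ) / Q * ((b' - b : ℤ) : ℝ))) = ee ((i : ℝ) / Q * b) * ee (-((i : ℝ) / Q * b')) := by
        rw [← ee_add]
        congr 1
        push_cast
        ring
      rw [e2]
      ring
    symm
    rw [Finset.sum_congr rfl e1, Finset.sum_comm, Finset.mul_sum]
    refine Finset.sum_congr rfl fun b hb => ?_
    rw [Finset.sum_comm, Finset.mul_sum]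
    refine Finset.sum_congr rfl fun b' hb' => ?_
    rw [← Finset.mul_sum, tp_inv Q hQ hρ En hexp (b' - b) (hS b hb b' hb')]
    ring
  have s3 := tp_pars Q hQ S B hSS
  have s6 : Q * ‖∑ b ∈ S, ∑ b' ∈ S, B b * (starRingEnd ℂ) (B b') * ρ (b' - b)‖ ≤
      Q * ((∑ b ∈ S, ‖B b‖ ^ 2) * En ((i0 : ℝ) / Q)) := by
    have e1 : Q * ‖∑ b ∈ S, ∑ b' ∈ S, B b * (starRingEnd ℂ) (B b') * ρ (b' - b)‖ =
        ‖(Q : ℂ) * ∑ b ∈ S, ∑ b' ∈ S, B b * (starRingEnd ℂ) (B b') * ρ (b' - b)‖ := by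
      rw [norm_mul, Complex.norm_natCast]
    rw [e1, s1, Complex.norm_real, Real.norm_of_nonneg (Finset.sum_nonneg fun _ _ => mul_nonneg (hE _) (by positivity))]
    calc _ ≤ ∑ i ∈ range Q, En ((i0 : ℝ) / Q) * ‖∑ b ∈ S, B b * ee ((i : ℝ) / Q * b)‖ ^ 2 :=
          Finset.sum_le_sum fun i hi => mul_le_mul_of_nonneg_right (hmax i hi) (by positivity)
      _ = Q * ((∑ b ∈ S, ‖B b‖ ^ 2) * En ((i0 : ℝ) / Q)) := by
          rw [← Finset.mul_sum, s3]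
          ring
  exact le_of_mul_le_mul_left s6 hQR

end Pool.Agent.H3B
end

-- from Lib.H3B.S2A
section

/-! # H3B (MP_443e5f, candidate T, module B), chunk S2A -/

namespace Pool.Agent.H3B

open Finset
open Pool.Agent.H44W (ee TF cut)

theorem s2a_icc (m : ℕ) : ((Icc (-(m : ℤ)) m).card : ℝ) = 2 * m + 1 := by
  rw [Int.card_Icc]
  have h1 : ((m : ℤ) + 1 - -(m : ℤ)).toNat = 2 * m + 1 := by omega
  rw [h1]
  push_cast
  ring

theorem s2a_union {α : Type*} [DecidableEq α] (A B : Finset α) (f : α → ℝ) (hf : ∀ x, 0 ≤ f x) :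
    ∑ x ∈ A ∪ B, f x ≤ ∑ x ∈ A, f x + ∑ x ∈ B, f x := by
  rw [← Finset.sum_union_inter]
  have : 0 ≤ ∑ x ∈ A ∩ B, f x := Finset.sum_nonneg fun x _ => hf x
  linarith

/-- Chunk S2A (M). Counting. PROOF. C₁ = A + 5: P = the pairs (j, k) with K / D^(A+5) ≤ |j| < K, k ≠ 0, K² |k| ≤ 2 n, ‖v j k‖ ≥ K M n / D^(A+6). There are at most 4 n/K² values k ≠ 0 with K² |k| ≤ 2 n and (with k = 0)
at most 4 n/K² + 1 ≤ 5 n/K². Pairs with |j| < K/D^(A+5): at most 2 K/D^(A+5) + 1 ≤ 3 K/D^(A+5) values of j (K ≥ D^C), contribution ≤ 3 K/D^(A+5) · 5 n/K² · 6 K M n = 90 M n²/D^(A+5) ... take C₁ larger if necessary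
(90 ≤ 2^7): use |j| ≥ K/D^(A+9): contribution ≤ 90 M n²/D^(A+9) ≤ M n²/(4 D^A). Pairs with k = 0: ≤ 2 K · 6 K M n = 12 K² M n ≤ M n²/(4 D^A) if K² D^(A+6) ≤ n. Pairs with small v: at most 2K · 4n/K² = 8 n/K pairs,
contribution ≤ (8 n/K) K M n/D^(A+5) ≤ M n²/(4 D^A). The rest is ≥ M n²/(4 D^A), each term ≤ 6 K M n: card P ≥ n/(24 K D^A) ≥ n/(K D^(A+5)). So C₁ = A + 9 works everywhere. (M ≥ 1.) -/
theorem step2a (A : ℕ) : ∃ C₁ C : ℕ, ∀ (n K M : ℕ) (D : ℝ), 2 ≤ D → 1 ≤ M → D ^ C ≤ K → (K : ℝ) ^ 2 * D ^ C ≤ n → ∀ v : ℤ → ℤ → ℂ,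
    (∀ j k, ‖v j k‖ ≤ 6 * K * M * n) → (∀ j k, 2 * (n : ℤ) < K ^ 2 * |k| → v j k = 0) →
    (M : ℝ) * n ^ 2 / D ^ A ≤ ∑ j ∈ Ioo (-(K : ℤ)) K, ∑ k ∈ Icc (-(2 * n : ℤ)) (2 * n), ‖v j k‖ →
    ∃ P : Finset (ℤ × ℤ), (n : ℝ) / (K * D ^ C₁) ≤ P.card ∧
      ∀ p ∈ P, (K : ℝ) / D ^ C₁ ≤ |(p.1 : ℝ)| ∧ |p.1| < K ∧ p.2 ≠ 0 ∧ (K : ℝ) * M * n / D ^ C₁ ≤ ‖v p.1 p.2‖ := by
  classical
  refine ⟨A + 8, A + 8, ?_⟩
  intro n K M D hD hM hK hn v hv hv0 hsum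
  obtain ⟨c, hc⟩ : ∃ c, c = A + 8 := ⟨_, rfl⟩
  rw [← hc] at hK hn ⊢
  have hD0 : 0 < D := by linarith
  have hD1 : 1 ≤ D := by linarith
  have hDc : 0 < D ^ c := by positivity
  have hDA : 0 < D ^ A := by positivity
  have hDc1 : 1 ≤ D ^ c := one_le_pow₀ hD1
  have hD8 : (256 : ℝ) ≤ D ^ 8 := by
    calc (256 : ℝ) = 2 ^ 8 := by norm_num
      _ ≤ D ^ 8 := pow_le_pow_left₀ (by norm_num) hD 8
  have hDcA : D ^ c = D ^ A * D ^ 8 := by rw [hc, pow_add]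
  have hK1 : (1 : ℝ) ≤ K := hDc1.trans hK
  have hK0 : (0 : ℝ) < K := by linarith
  have hM1 : (1 : ℝ) ≤ M := by exact_mod_cast hM
  have hM0 : (0 : ℝ) < M := by linarith
  have hnK : (K : ℝ) ^ 2 ≤ n := by
    calc (K : ℝ) ^ 2 = (K : ℝ) ^ 2 * 1 := (mul_one _).symm
      _ ≤ (K : ℝ) ^ 2 * D ^ c := mul_le_mul_of_nonneg_left hDc1 (by positivity)
      _ ≤ n := hn
  have hn1 : (1 : ℝ) ≤ n := by nlinarith
  have hn0 : (0 : ℝ) < n := by linarith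
  obtain ⟨E, hE⟩ : ∃ E : ℝ, E = 6 * K * M * n := ⟨_, rfl⟩
  have hE0 : 0 ≤ E := by rw [hE]; positivity
  rw [← hE] at hv
  set J : Finset ℤ := Ioo (-(K : ℤ)) K with hJ
  set I : Finset ℤ := Icc (-(2 * n : ℤ)) (2 * n) with hI
  set W : Finset ℤ := I.filter (fun k => (K : ℤ) ^ 2 * |k| ≤ 2 * n) with hW
  set J' : Finset ℤ := J.filter (fun j => |(j : ℝ)| < K / D ^ c) with hJ'
  set P : Finset (ℤ × ℤ) := (J ×ˢ W).filter (fun p => (K : ℝ) / D ^ c ≤ |(p.1 : ℝ)| ∧ p.2 ≠ 0 ∧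
    (K : ℝ) * M * n / D ^ c ≤ ‖v p.1 p.2‖) with hP
  set Rs : Finset (ℤ × ℤ) := (J ×ˢ W).filter (fun p => ‖v p.1 p.2‖ < (K : ℝ) * M * n / D ^ c) with hR
  -- cardinalities
  have cJ : (J.card : ℝ) ≤ 2 * K := by
    rw [hJ, Int.card_Ioo]
    have h1 : ((K : ℤ) - -(K : ℤ) - 1).toNat ≤ 2 * K := by omega
    exact_mod_cast h1
  have cW : (W.card : ℝ) ≤ 5 * n / (K : ℝ) ^ 2 := by
    have h1 : W ⊆ Icc (-((2 * n / K ^ 2 : ℕ) : ℤ)) ((2 * n / K ^ 2 : ℕ) : ℤ) := by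
      intro k hk
      have h2 := (mem_filter.1 hk).2
      have hKn : 0 < K ^ 2 := by
        have : 0 < K := by exact_mod_cast hK0
        positivity
      have h3 : K ^ 2 * k.natAbs ≤ 2 * n := by
        have h4 : ((K ^ 2 * k.natAbs : ℕ) : ℤ) ≤ ((2 * n : ℕ) : ℤ) := by
          push_cast
          exact h2
        exact_mod_cast h4
      have h4 : k.natAbs ≤ 2 * n / K ^ 2 := by
        rw [Nat.le_div_iff_mul_le hKn, mul_comm]
        exact h3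
      rw [mem_Icc, ← abs_le]
      rw [Int.abs_eq_natAbs]
      exact_mod_cast h4
    have h2 : (W.card : ℝ) ≤ 2 * ((2 * n / K ^ 2 : ℕ) : ℝ) + 1 := by
      rw [← s2a_icc]
      exact_mod_cast card_le_card h1
    have h3 : ((2 * n / K ^ 2 : ℕ) : ℝ) ≤ (2 * n) / (K : ℝ) ^ 2 := by
      have := @Nat.cast_div_le ℝ _ _ _ (2 * n) (K ^ 2)
      push_cast at this
      exact this
    have h4 : 1 ≤ (n : ℝ) / (K : ℝ) ^ 2 := by
      rw [le_div_iff₀ (by positivity), one_mul]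
      exact hnK
    calc (W.card : ℝ) ≤ 2 * ((2 * n) / (K : ℝ) ^ 2) + (n : ℝ) / (K : ℝ) ^ 2 := by linarith
      _ = 5 * n / (K : ℝ) ^ 2 := by ring
  have cJ' : (J'.card : ℝ) ≤ 3 * K / D ^ c := by
    have h1 : J' ⊆ Icc (-((⌊(K : ℝ) / D ^ c⌋₊ : ℕ) : ℤ)) ((⌊(K : ℝ) / D ^ c⌋₊ : ℕ) : ℤ) := by
      intro j hj
      have h2 := (mem_filter.1 hj).2
      have h3 : j.natAbs ≤ ⌊(K : ℝ) / D ^ c⌋₊ := by
        refine Nat.le_floor ?_
        rw [Nat.cast_natAbs, Int.cast_abs]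
        exact h2.le
      rw [mem_Icc, ← abs_le, Int.abs_eq_natAbs]
      exact_mod_cast h3
    have h2 : (J'.card : ℝ) ≤ 2 * ((⌊(K : ℝ) / D ^ c⌋₊ : ℕ) : ℝ) + 1 := by
      rw [← s2a_icc]
      exact_mod_cast card_le_card h1
    have h3 : ((⌊(K : ℝ) / D ^ c⌋₊ : ℕ) : ℝ) ≤ (K : ℝ) / D ^ c := Nat.floor_le (by positivity)
    have h4 : 1 ≤ (K : ℝ) / D ^ c := by
      rw [le_div_iff₀ hDc, one_mul]
      exact hK
    calc (J'.card : ℝ) ≤ 2 * ((K : ℝ) / D ^ c) + (K : ℝ) / D ^ c := by linarith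
      _ = 3 * K / D ^ c := by ring
  -- the sum is over the union
  have hcov : ∑ j ∈ J, ∑ k ∈ I, ‖v j k‖ ≤
      ∑ p ∈ P ∪ ((J' ×ˢ W) ∪ ((J ×ˢ {0}) ∪ Rs)), ‖v p.1 p.2‖ := by
    rw [← Finset.sum_product']
    rw [← Finset.sum_filter_ne_zero (s := J ×ˢ I) (f := fun p : ℤ × ℤ => ‖v p.1 p.2‖)]
    refine Finset.sum_le_sum_of_subset_of_nonneg (fun p hp' => ?_) (fun p _ _ => norm_nonneg _)
    obtain ⟨hp, hne⟩ := mem_filter.1 hp'
    obtain ⟨hp1, hp2⟩ := mem_product.1 hp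
    have hpW : p.2 ∈ W := by
      refine mem_filter.2 ⟨hp2, ?_⟩
      by_contra h
      push Not at h
      exact hne (by rw [hv0 _ _ h, norm_zero])
    by_cases h1 : |((p.1 : ℤ) : ℝ)| < K / D ^ c
    · exact mem_union_right _ (mem_union_left _ (mem_product.2 ⟨mem_filter.2 ⟨hp1, h1⟩, hpW⟩))
    by_cases h2 : p.2 = 0
    · exact mem_union_right _ (mem_union_right _ (mem_union_left _
        (mem_product.2 ⟨hp1, mem_singleton.2 h2⟩)))
    by_cases h3 : ‖v p.1 p.2‖ < (K : ℝ) * M * n / D ^ c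
    · exact mem_union_right _ (mem_union_right _ (mem_union_right _
        (mem_filter.2 ⟨mem_product.2 ⟨hp1, hpW⟩, h3⟩)))
    · exact mem_union_left _ (mem_filter.2 ⟨mem_product.2 ⟨hp1, hpW⟩, not_lt.1 h1, h2, not_lt.1 h3⟩)
  have hnn : ∀ p : ℤ × ℤ, 0 ≤ ‖v p.1 p.2‖ := fun p => norm_nonneg _
  have hsplit : ∑ p ∈ P ∪ ((J' ×ˢ W) ∪ ((J ×ˢ {0}) ∪ Rs)), ‖v p.1 p.2‖ ≤
      ∑ p ∈ P, ‖v p.1 p.2‖ + (∑ p ∈ J' ×ˢ W, ‖v p.1 p.2‖ + (∑ p ∈ J ×ˢ ({0} : Finset ℤ), ‖v p.1 p.2‖ +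
        ∑ p ∈ Rs, ‖v p.1 p.2‖)) := by
    refine (s2a_union _ _ _ hnn).trans (add_le_add le_rfl ?_)
    refine (s2a_union _ _ _ hnn).trans (add_le_add le_rfl ?_)
    exact s2a_union _ _ _ hnn
  have hbd : ∀ (S : Finset (ℤ × ℤ)) (e : ℝ), (∀ p ∈ S, ‖v p.1 p.2‖ ≤ e) →
      ∑ p ∈ S, ‖v p.1 p.2‖ ≤ S.card * e := by
    intro S e h
    refine (Finset.sum_le_sum h).trans (le_of_eq ?_)
    rw [Finset.sum_const, nsmul_eq_mul]
  have b1 := hbd P E fun p _ => hv _ _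
  have b2 : ∑ p ∈ J' ×ˢ W, ‖v p.1 p.2‖ ≤ 90 * (M * n ^ 2 / D ^ c) := by
    refine (hbd (J' ×ˢ W) E fun p _ => hv _ _).trans ?_
    rw [card_product, Nat.cast_mul]
    calc (J'.card : ℝ) * W.card * E ≤ (3 * K / D ^ c) * (5 * n / (K : ℝ) ^ 2) * E := by
          refine mul_le_mul_of_nonneg_right ?_ hE0
          exact mul_le_mul cJ' cW (Nat.cast_nonneg _) (by positivity)
      _ = 90 * (M * n ^ 2 / D ^ c) := by
          rw [hE]
          field_simp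
          ring
  have b3 : ∑ p ∈ J ×ˢ ({0} : Finset ℤ), ‖v p.1 p.2‖ ≤ 12 * (M * n ^ 2 / D ^ c) := by
    refine (hbd (J ×ˢ ({0} : Finset ℤ)) E fun p _ => hv _ _).trans ?_
    rw [card_product, card_singleton, mul_one]
    have h1 : (K : ℝ) ^ 2 ≤ n / D ^ c := by
      rw [le_div_iff₀ hDc]
      exact hn
    calc (J.card : ℝ) * E ≤ (2 * K) * E := mul_le_mul_of_nonneg_right cJ hE0
      _ = 12 * (M * n * (K : ℝ) ^ 2) := by
          rw [hE]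
          ring
      _ ≤ 12 * (M * n * (n / D ^ c)) := by
          refine mul_le_mul_of_nonneg_left ?_ (by norm_num)
          exact mul_le_mul_of_nonneg_left h1 (by positivity)
      _ = 12 * (M * n ^ 2 / D ^ c) := by ring
  have b4 : ∑ p ∈ Rs, ‖v p.1 p.2‖ ≤ 10 * (M * n ^ 2 / D ^ c) := by
    refine (hbd Rs ((K : ℝ) * M * n / D ^ c) fun p hp => (mem_filter.1 hp).2.le).trans ?_
    have h1 : (Rs.card : ℝ) ≤ (2 * K) * (5 * n / (K : ℝ) ^ 2) := by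
      have h2 : (Rs.card : ℝ) ≤ (J ×ˢ W).card := by exact_mod_cast card_filter_le _ _
      rw [card_product, Nat.cast_mul] at h2
      exact h2.trans (mul_le_mul cJ cW (Nat.cast_nonneg _) (by positivity))
    calc (Rs.card : ℝ) * ((K : ℝ) * M * n / D ^ c)
        ≤ (2 * K) * (5 * n / (K : ℝ) ^ 2) * ((K : ℝ) * M * n / D ^ c) :=
          mul_le_mul_of_nonneg_right h1 (by positivity)
      _ = 10 * (M * n ^ 2 / D ^ c) := by
          field_simp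
          ring
  have hX : 112 * ((M : ℝ) * n ^ 2 / D ^ c) ≤ 1 / 2 * (M * n ^ 2 / D ^ A) := by
    rw [hDcA, ← div_div]
    obtain ⟨Y, hY⟩ : ∃ Y : ℝ, Y = (M : ℝ) * n ^ 2 / D ^ A := ⟨_, rfl⟩
    have hY0 : 0 ≤ Y := by rw [hY]; positivity
    rw [← hY, mul_div_assoc', div_le_iff₀ (by positivity)]
    nlinarith
  have hfin : 1 / 2 * ((M : ℝ) * n ^ 2 / D ^ A) ≤ P.card * E := by linarith
  refine ⟨P, ?_, fun p hp => ?_⟩
  · have h1 : (n : ℝ) / (12 * K * D ^ A) ≤ P.card := by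
      have h2 : (n : ℝ) / (12 * K * D ^ A) * E = 1 / 2 * ((M : ℝ) * n ^ 2 / D ^ A) := by
        rw [hE]
        field_simp
        ring
      rw [← h2] at hfin
      exact le_of_mul_le_mul_right hfin (by rw [hE]; positivity)
    refine le_trans ?_ h1
    refine div_le_div_of_nonneg_left hn0.le (by positivity) ?_
    rw [hDcA]
    have h3 : 0 < K * D ^ A := by positivity
    nlinarith
  · obtain ⟨h1, h2, h3, h4⟩ := mem_filter.1 hp
    have h5 := mem_Ioo.1 (mem_product.1 h1).1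
    exact ⟨h2, abs_lt.2 h5, h3, h4⟩

end Pool.Agent.H3B
end

-- from Lib.H81A.NU
section

/-!
# H81A, chunk NU (M/L): choice of the parameters
-/

namespace Pool.Agent.Lib.H81A

open Finset ArithmeticFunction

theorem nu_pow {N : ℕ} (hN : 1 ≤ N) (x : ℝ) : (N : ℝ) ^ x = 2 ^ (x * Real.logb 2 N) := by
  have h1 : (0 : ℝ) < N := by exact_mod_cast hN
  have h2 : (2 : ℝ) ^ (Real.logb 2 N) = N := Real.rpow_logb (by norm_num) (by norm_num) h1
  rw [mul_comm, Real.rpow_mul (by norm_num), h2]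

theorem nu_le (a : ℕ) {y : ℝ} (h : (a : ℝ) ≤ y) : (2 : ℝ) ^ a ≤ 2 ^ y := by
  rw [← Real.rpow_natCast]
  exact Real.rpow_le_rpow_of_exponent_le (by norm_num) h

theorem nu_ge (a : ℕ) {y : ℝ} (h : y ≤ (a : ℝ)) : (2 : ℝ) ^ y ≤ 2 ^ a := by
  rw [← Real.rpow_natCast]
  exact Real.rpow_le_rpow_of_exponent_le (by norm_num) h

/-- PROOF. `J` with `1 / J < c`, `J ≥ 1`; `r = 2 J`; `e = ε / (2 (6 J + 2))`, `V = N ^ e`; `L = Nat.log 2 N + 1` (`N < 2 ^ L ≤ 2 N`), `u = ⌈c log_2 N⌉`, `v = ⌊(1 / 2 - η) log_2 N⌋ - r`, `z = ⌊N ^ (1 / J)⌋`. For `N` large: `N ^ c ≤ 2 ^ u ≤ 2 N ^ c`,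
`2 ^ (u + r) ≤ 2 ^ (r + 1) N ^ c ≤ N ^ (2 c)`; `N ^ (1 / 2 - η) 2 ^ (-r - 1) ≤ 2 ^ v ≤ N ^ (1 / 2 - η) 2 ^ (-r)`, so `2 ^ (v + 1) ≥ N ^ (1 / 2 - 2 η)` and `2 ^ (L - v) ≤ 2 ^ (r + 2) N ^ (1 / 2 + η) ≤ N ^ (1 / 2 + 2 η)`; `2 u ≤ v + 1` because `2 c < 1 / 2 - η`; `L ≤ 3 (v + 1)` because
`3 (1 / 2 - η) > 1`; divisor bound `Pool.Agent.Lib.H21AP.divisor_bound` (Lib/H21AP/DivisorBound.lean, import it) with the exponent `e / 2`; `log`, `L` and constants are below `N ^ e` (`isLittleO_log_rpow_atTop`); `(z + 1) ^ J > N`, `z ≤ N ^ (1 / J) < N ^ c ≤ 2 ^ u`;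
`2 ^ J V ^ (6 J + 2) = 2 ^ J N ^ (ε / 2) ≤ N ^ ε`. -/
theorem params (c η ε : ℝ) (hc : 0 < c) (hη : 0 < η) (hcη : 4 * c + 4 * η ≤ 1 / 3) (hε : 0 < ε) : ∃ J N₀ : ℕ, ∀ N : ℕ, N₀ ≤ N → ∃ (L u v z : ℕ) (V : ℝ),
    Par c η N L u v (2 * J) V ∧ N < (z + 1) ^ J ∧ z < 2 ^ u ∧ 2 ^ J * V ^ (6 * J + 2) ≤ (N : ℝ) ^ ε := by
  obtain ⟨J0, hJ0⟩ := exists_nat_one_div_lt hc
  set J := J0 + 1 with hJdef
  have hJ : 1 / (J : ℝ) < c := by
    rw [hJdef]
    push_cast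
    exact hJ0
  have hJpos : (0 : ℝ) < J := by rw [hJdef]; positivity
  set e := ε / (2 * (6 * (J : ℝ) + 2)) with he
  have hepos : 0 < e := by positivity
  obtain ⟨C, hC, hdiv⟩ := Pool.Agent.Lib.H21AP.divisor_bound (ε := e / 2) (by positivity)
  set r := 2 * J with hr
  have hl : Filter.Tendsto (fun N : ℕ => Real.logb 2 N) Filter.atTop Filter.atTop :=
    (Real.tendsto_logb_atTop (by norm_num)).comp tendsto_natCast_atTop_atTop
  have hpow : ∀ x : ℝ, 0 < x → Filter.Tendsto (fun N : ℕ => (N : ℝ) ^ x) Filter.atTop Filter.atTop :=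
    fun x hx => (tendsto_rpow_atTop hx).comp tendsto_natCast_atTop_atTop
  have e1 := (hl.const_mul_atTop hc).eventually_ge_atTop ((r : ℝ) + 2)
  have e2 := (hl.const_mul_atTop hη).eventually_ge_atTop ((r : ℝ) + 3)
  have e3 := (hl.const_mul_atTop (show (0 : ℝ) < 1 / 4 by norm_num)).eventually_ge_atTop (3 * (r : ℝ) + 3)
  have e4 : ∀ᶠ N : ℕ in Filter.atTop, Real.log N ≤ 1 / 4 * (N : ℝ) ^ e := by
    have h1 := (isLittleO_log_rpow_atTop hepos).def (show (0 : ℝ) < 1 / 4 by norm_num)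
    have h2 := tendsto_natCast_atTop_atTop (R := ℝ) |>.eventually h1
    filter_upwards [h2, Filter.eventually_ge_atTop 1] with N hN hN1
    have h3 : (1 : ℝ) ≤ N := by exact_mod_cast hN1
    rwa [Real.norm_of_nonneg (Real.log_nonneg h3), Real.norm_of_nonneg (by positivity)] at hN
  have e5 := (hpow e hepos).eventually_ge_atTop ((r : ℝ) + 4)
  have e6 := (hpow (e / 2) (by positivity)).eventually_ge_atTop C
  have e7 := (hpow (ε / 2) (by positivity)).eventually_ge_atTop ((2 : ℝ) ^ J)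
  obtain ⟨N₀, hN₀⟩ := Filter.eventually_atTop.1
    (((((((e1.and e2).and e3).and e4).and e5).and e6).and e7).and (Filter.eventually_ge_atTop 2))
  refine ⟨J, N₀, fun N hN => ?_⟩
  obtain ⟨⟨⟨⟨⟨⟨⟨f1, f2⟩, f3⟩, f4⟩, f5⟩, f6⟩, f7⟩, f8⟩ := hN₀ N hN
  have hN1 : 1 ≤ N := by omega
  have hNR : (1 : ℝ) ≤ N := by exact_mod_cast hN1
  have hNR2 : (1 : ℝ) < N := by exact_mod_cast (show 1 < N by omega)
  set l := Real.logb 2 N with hldef
  have hl0 : 0 < l := Real.logb_pos (by norm_num) hNR2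
  have hη' : η ≤ 1 / 12 := by linarith
  have hc' : c ≤ 1 / 12 := by linarith
  have hrJ : (r : ℝ) = 2 * J := by
    rw [hr]
    push_cast
    ring
  have hpw : ∀ x : ℝ, (N : ℝ) ^ x = 2 ^ (x * l) := fun x => nu_pow hN1 x
  -- parameters
  set u := ⌈c * l⌉₊ with hu
  set w := ⌊(1 / 2 - η) * l⌋₊ with hw
  set v := w - r with hv
  have hcl : c * l ≤ 1 / 12 * l := mul_le_mul_of_nonneg_right hc' hl0.le
  have hηl : η * l ≤ 1 / 12 * l := mul_le_mul_of_nonneg_right hη' hl0.le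
  have hw1 : (w : ℝ) ≤ (1 / 2 - η) * l := Nat.floor_le (mul_nonneg (by linarith) hl0.le)
  have hw2 : (1 / 2 - η) * l < w + 1 := Nat.lt_floor_add_one _
  have hw3 : (1 / 2 - η) * l = 1 / 2 * l - η * l := sub_mul _ _ _
  have hr0 : (0 : ℝ) ≤ r := Nat.cast_nonneg r
  have hrl : (r : ℝ) ≤ (w : ℝ) := by linarith
  have hrw : r ≤ w := by exact_mod_cast hrl
  have hvR : (v : ℝ) = w - r := by rw [hv, Nat.cast_sub hrw]
  have hu1 : c * l ≤ u := Nat.le_ceil _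
  have hu2 : (u : ℝ) < c * l + 1 := Nat.ceil_lt_add_one (by positivity)
  have hL1 : ((Nat.log 2 N : ℕ) : ℝ) ≤ l := by
    have h1 : (2 : ℝ) ^ (Nat.log 2 N) ≤ N := by exact_mod_cast Nat.pow_log_le_self 2 (by omega)
    rw [hldef, Real.le_logb_iff_rpow_le (by norm_num) (by linarith), Real.rpow_natCast]
    exact h1
  refine ⟨Nat.log 2 N + 1, u, v, ⌊(N : ℝ) ^ (1 / (J : ℝ))⌋₊, (N : ℝ) ^ e, ?_, ?_, ?_, ?_⟩
  · refine ⟨hN1, ?_, ?_, ?_, ?_, ?_, ?_, ?_, ?_, ?_, ?_, ?_, ?_, ?_, ?_, ?_⟩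
    · exact Nat.lt_pow_succ_log_self (by norm_num) N
    · exact Nat.ceil_pos.2 (by positivity)
    · rw [hpw]
      exact nu_ge _ hu1
    · rw [hpw]
      refine nu_le _ ?_
      push_cast
      rw [hvR]
      linarith
    · rw [hpw]
      refine nu_le _ ?_
      push_cast
      linarith
    · calc (N : ℝ) ^ (2 * c) ≤ (N : ℝ) ^ (1 : ℝ) := Real.rpow_le_rpow_of_exponent_le hNR (by linarith)
        _ = N := Real.rpow_one _
    · rw [hpw]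
      refine nu_ge _ ?_
      push_cast
      rw [hvR]
      linarith
    · rw [hpw]
      refine nu_le _ ?_
      rcases le_or_gt v (Nat.log 2 N + 1) with h | h
      · rw [Nat.cast_sub h]
        push_cast
        rw [hvR]
        linarith
      · have : Nat.log 2 N + 1 - v = 0 := by omega
        rw [this]
        push_cast
        positivity
    · have : (2 * u : ℝ) ≤ (v : ℝ) + 1 := by
        rw [hvR]
        linarith
      exact_mod_cast this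
    · have : ((Nat.log 2 N : ℕ) : ℝ) + 1 ≤ 3 * ((v : ℝ) + 1) := by
        rw [hvR]
        linarith
      exact_mod_cast this
    · exact Real.one_le_rpow hNR hepos.le
    · push_cast
      have h1 : l ≤ 2 * Real.log N := by
        rw [hldef, Real.logb, div_le_iff₀ (Real.log_pos (by norm_num))]
        have h2 : (1 : ℝ) / 2 ≤ Real.log 2 := by
          have := Real.log_two_gt_d9
          linarith
        have h3 : 0 ≤ Real.log N := Real.log_nonneg hNR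
        calc Real.log N = Real.log N * 1 := (mul_one _).symm
          _ ≤ Real.log N * (2 * Real.log 2) := mul_le_mul_of_nonneg_left (by linarith) h3
          _ = 2 * Real.log N * Real.log 2 := by ring
      linarith
    · linarith
    · intro n hn hnN
      refine (hdiv n hn).trans ?_
      have h1 : (n : ℝ) ^ (e / 2) ≤ (N : ℝ) ^ (e / 2) :=
        Real.rpow_le_rpow (Nat.cast_nonneg n) (by exact_mod_cast hnN) (by positivity)
      have h2 : (N : ℝ) ^ e = (N : ℝ) ^ (e / 2) * (N : ℝ) ^ (e / 2) := by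
        rw [← Real.rpow_add (by linarith)]
        congr 1
        ring
      rw [h2]
      exact mul_le_mul f6 h1 (by positivity) (by positivity)
    · have : 0 ≤ (N : ℝ) ^ e := by positivity
      linarith
  · have h1 : (N : ℝ) ^ (1 / (J : ℝ)) < ⌊(N : ℝ) ^ (1 / (J : ℝ))⌋₊ + 1 := Nat.lt_floor_add_one _
    have h2 : ((N : ℝ) ^ (1 / (J : ℝ))) ^ J = N := by
      rw [← Real.rpow_natCast, ← Real.rpow_mul (by linarith), one_div, inv_mul_cancel₀ hJpos.ne', Real.rpow_one]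
    have h3 : ((N : ℝ) ^ (1 / (J : ℝ))) ^ J < ((⌊(N : ℝ) ^ (1 / (J : ℝ))⌋₊ : ℝ) + 1) ^ J :=
      pow_lt_pow_left₀ h1 (by positivity) (by omega)
    rw [h2] at h3
    exact_mod_cast h3
  · have h1 : ((⌊(N : ℝ) ^ (1 / (J : ℝ))⌋₊ : ℕ) : ℝ) ≤ (N : ℝ) ^ (1 / (J : ℝ)) := Nat.floor_le (by positivity)
    have h2 : (N : ℝ) ^ (1 / (J : ℝ)) < (N : ℝ) ^ c := Real.rpow_lt_rpow_of_exponent_lt hNR2 hJ
    have h3 : (N : ℝ) ^ c ≤ 2 ^ u := by
      rw [hpw]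
      exact nu_ge _ hu1
    have h4 : ((⌊(N : ℝ) ^ (1 / (J : ℝ))⌋₊ : ℕ) : ℝ) < 2 ^ u := by linarith
    exact_mod_cast h4
  · have h1 : ((N : ℝ) ^ e) ^ (6 * J + 2) = (N : ℝ) ^ (ε / 2) := by
      rw [← Real.rpow_natCast, ← Real.rpow_mul (by linarith)]
      congr 1
      rw [he]
      push_cast
      field_simp
    rw [h1]
    have h2 : (N : ℝ) ^ ε = (N : ℝ) ^ (ε / 2) * (N : ℝ) ^ (ε / 2) := by
      rw [← Real.rpow_add (by linarith)]
      congr 1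
      ring
    rw [h2]
    exact mul_le_mul_of_nonneg_right f7 (by positivity)

end Pool.Agent.Lib.H81A
end
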