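import Mathlib
import Pool.Agent.Lib.H1M.RV2.M002
import Pool.Agent.Lib.H1M.RV2.M003
import Pool.Agent.Lib.H1M.RV2.M004
import Pool.Agent.Lib.H1M.RV2.M007
import Pool.Agent.Lib.H1M.RV2.M008
import Pool.Agent.Lib.H1M.RV2.M009
import Pool.Agent.Lib.H1M.RV2.M013
import Pool.Agent.Lib.H1M.RV2.M018

/-! Merged copies (to shorten the build) of Lib.H21T.S8, Lib.H21T.S9, Lib.SZW.C2, Lib.H21T.W1, Lib.H21T.Z3, Lib.H59T.G1, Lib.H59T.G5, Lib.H21T.Z7, Lib.H9S.Defs, Lib.H9S.D1, Lib.H9S.X1, Lib.H9S.K1, Lib.H9S.K2, Lib.H9S.K3, Lib.H9S.P1, Lib.H9S.P2, Lib.H9S.T1, Lib.H9S.T2, Lib.H9S.O1, Lib.H9S.E1, Lib.H9S.O2. -/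

-- from Lib.H21T.S8
section

/-!
# Chunk S8 (M): large exponential sum implies major arc, explicit form
-/

namespace Pool.Agent.Lib.H21T

open Finset Pool.Agent.SZW

/-- The numerical conditions of `s8` -/
structure Num (u δ η C h : ℝ) (A X S Λ K D s0 Q1 τ : ℕ) : Prop where
  hu : 1 ≤ u
  hδ : 0 < δ
  hδ1 : δ ≤ 1
  hη : 0 < η
  hη1 : η ≤ 1
  hh : 0 < h
  hK : 1 ≤ K
  hs0 : 9 ≤ s0
  hQ1 : 1 ≤ Q1
  n1 : δ * (A * (h / A + 1)) + 2 * (((A : ℝ) / Λ + 1) * (K * S * (h / A + 1))) + 4 * τ * D ≤ h / (16 * u)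
  n2 : 582 * (X : ℝ) * s0 * S * (Λ * (h / A + 1)) ≤ h / (16 * u)
  n3 : η * ((S : ℝ) * (2 * X * S)) * (2 * (96 * S / s0 + 1)) * (Λ * (h / A + 1)) ≤ h / (16 * u)
  n4 : C / δ ^ 8 ≤ Q1
  n5 : 2 ^ 13 * (Q1 : ℝ) ^ 4 / η ^ 4 ≤ S
  n6 : 2 ^ 18 * (Q1 : ℝ) ^ 4 * (C / (δ ^ 8 * (K : ℝ) ^ 2)) ≤ η ^ 4 * (2 * X * S)
  n7 : 128 * (Q1 : ℝ) * (C / (δ ^ 8 * (K : ℝ) ^ 2)) ≤ η
  n8 : 512 * (Q1 : ℝ) ^ 4 / η ^ 3 ≤ u ^ 131
  n9 : 2 ^ 22 * (Q1 : ℝ) ^ 6 * (C / (δ ^ 8 * (K : ℝ) ^ 2)) / (η ^ 6 * S * (2 * X * S)) * u ^ 9754 ≤ 1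

/-- Suppose `‖SR‖ > h / (8 u)`. Directions from `exists_dir`; `Bs` = the set of the `i < nJ` for which some `β` has
`‖∑_{k < K} ee (β k - s t α k ^ 2)‖ > δ K`. `s6`, `nJ ≤ A / Λ + 1` and `n1`: `|Bs| Λ (H / A + 1) ≥ h / (16 u)`. By `n2` then `|Bs| ≥ 582 X s0 S`; `s7` gives `Bd`, and `n3`
gives `|Bd| ≥ η S (2 X S)`. By `hW` (the property of `w1`) every `(s, t) ∈ Bd` has `q ≥ 1`, `q ≤ C / δ ^ 8 ≤ Q1` with
`nn (q * (-(s t α))) ≤ δ1 := C / (δ ^ 8 K ^ 2)`, and `nn (-x) = nn x` (`nn_neg`). `v2` with `T = 2 X S ≥ S` (`n5`, `n6`, `n7`) gives `r`, and `n8`, `n9` say `Maj u α`. -/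
theorem s8 {u δ η C : ℝ} {A x X S Λ A1 A2 H K D s0 Q1 τ : ℕ} (G : Geo A x X S Λ) (hC : 1 ≤ C)
    (hW : ∀ (K : ℕ) (β γ δ : ℝ), 1 ≤ K → 0 < δ → δ ≤ 1 → δ * K ≤ ‖∑ k ∈ range K, ee (β * k + γ * (k : ℝ) ^ 2)‖ →
      ∃ q : ℕ, 1 ≤ q ∧ (q : ℝ) ≤ C / δ ^ 8 ∧ nn (q * γ) * (K : ℝ) ^ 2 ≤ C / δ ^ 8)
    (h1 : A ≤ A1) (h2 : A1 ≤ A2) (h3 : A2 ≤ 2 * A) (hτ : ∀ m : ℕ, 1 ≤ m → m < x + H → m.divisors.card ≤ τ)
    (hD : (K : ℝ) * (4 * A / S + S * H / A) + 2 * (K : ℝ) ^ 2 * (S : ℝ) ^ 2 * X ≤ D)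
    (N : Num u δ η C H A X S Λ K D s0 Q1 τ) (α : ℝ) (hα : (H : ℝ) / (8 * u) < ‖SR α A1 A2 x H‖) : Maj u α := by
  have hH0 : (0 : ℝ) < H := N.hh
  have hu0 : (0 : ℝ) < u := lt_of_lt_of_le one_pos N.hu
  have hA0 : (0 : ℝ) < A := by exact_mod_cast G.hA
  have hΛ0 : (0 : ℝ) < Λ := by exact_mod_cast G.hΛ
  have hX0 : (0 : ℝ) < X := by exact_mod_cast G.hX1
  have hS0 : (0 : ℝ) < S := by exact_mod_cast G.hS
  have hK0 : (0 : ℝ) < K := by exact_mod_cast N.hK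
  have hs00 : (0 : ℝ) < s0 := by
    have := N.hs0
    exact_mod_cast (by omega : 0 < s0)
  have hHA : (0 : ℝ) < (H : ℝ) / A + 1 := by positivity
  obtain ⟨s, t, hD0⟩ := exists_dir A1 Λ x S G.hS
  have hDir := hD0 (nJ A1 A2 Λ)
  classical
  let Bs : Finset ℕ := (range (nJ A1 A2 Λ)).filter fun i =>
    ∃ β : ℝ, δ * K < ‖∑ k ∈ range K, ee (β * k + (-(((s i : ℝ) * t i) * α)) * (k : ℝ) ^ 2)‖
  have hBs : Bs ⊆ range (nJ A1 A2 Λ) := filter_subset _ _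
  have hgood : ∀ i ∈ range (nJ A1 A2 Λ), i ∉ Bs →
      ∀ β : ℝ, ‖∑ k ∈ range K, ee (β * k + (-(((s i : ℝ) * t i) * α)) * (k : ℝ) ^ 2)‖ ≤ δ * K := by
    intro i hi hiB β
    by_contra hcon
    exact hiB (mem_filter.2 ⟨hi, β, not_le.1 hcon⟩)
  have e6 := s6 G h1 h2 h3 hDir N.hK hτ hD α δ N.hδ.le Bs hgood
  have hnJ : (nJ A1 A2 Λ : ℝ) ≤ (A : ℝ) / Λ + 1 := by
    unfold nJ
    push_cast
    have h4 : (((A2 - A1) / Λ : ℕ) : ℝ) ≤ ((A2 - A1 : ℕ) : ℝ) / Λ := Nat.cast_div_le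
    have h5 : ((A2 - A1 : ℕ) : ℝ) ≤ A := by exact_mod_cast (by omega : A2 - A1 ≤ A)
    have h6 : ((A2 - A1 : ℕ) : ℝ) / Λ ≤ (A : ℝ) / Λ := div_le_div_of_nonneg_right h5 hΛ0.le
    linarith
  have hL0 : (0 : ℝ) < Λ * ((H : ℝ) / A + 1) := by positivity
  have e7 : (nJ A1 A2 Λ : ℝ) * (K * S * ((H : ℝ) / A + 1)) ≤ ((A : ℝ) / Λ + 1) * (K * S * ((H : ℝ) / A + 1)) :=
    mul_le_mul_of_nonneg_right hnJ (by positivity)
  have e8 := N.n1
  have e9 : (H : ℝ) / (8 * u) = (H : ℝ) / (16 * u) + (H : ℝ) / (16 * u) := by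
    field_simp
    ring
  have e10 : (H : ℝ) / (16 * u) ≤ Bs.card * (Λ * ((H : ℝ) / A + 1)) := by
    rw [e9] at hα
    linarith
  have hbig : 582 * (X : ℝ) * s0 * S ≤ Bs.card := by
    have h4 : 582 * (X : ℝ) * s0 * S * (Λ * ((H : ℝ) / A + 1)) ≤ Bs.card * (Λ * ((H : ℝ) / A + 1)) := N.n2.trans e10
    exact le_of_mul_le_mul_right h4 hL0
  obtain ⟨Bd, b1, b2, b3⟩ := s7 G h1 h2 h3 hDir N.hs0 Bs hBs hbig
  have hM0 : (0 : ℝ) < 2 * (96 * S / s0 + 1) := by positivity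
  have hc : η * ((S : ℝ) * (2 * X * S)) ≤ Bd.card := by
    have h4 : η * ((S : ℝ) * (2 * X * S)) * (2 * (96 * S / s0 + 1)) * (Λ * ((H : ℝ) / A + 1)) ≤
        (Bd.card : ℝ) * (2 * (96 * S / s0 + 1)) * (Λ * ((H : ℝ) / A + 1)) := by
      refine (N.n3.trans e10).trans (mul_le_mul_of_nonneg_right ?_ hL0.le)
      linarith
    have h5 := le_of_mul_le_mul_right h4 hL0
    exact le_of_mul_le_mul_right h5 hM0
  have hT : ((2 * X * S : ℕ) : ℝ) = 2 * X * S := by push_cast; ring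
  have hST : (S : ℝ) ≤ 2 * X * S := by
    have h4 : (1 : ℝ) ≤ X := by exact_mod_cast G.hX1
    nlinarith
  have hδ8 : (0 : ℝ) < δ ^ 8 := pow_pos N.hδ 8
  have hδ1 : 0 ≤ C / (δ ^ 8 * (K : ℝ) ^ 2) := by positivity
  have hq : ∀ p ∈ Bd, ∃ q : ℕ, 1 ≤ q ∧ q ≤ Q1 ∧ nn (q * (((p.1 : ℝ) * p.2) * α)) ≤ C / (δ ^ 8 * (K : ℝ) ^ 2) := by
    intro p hp
    obtain ⟨i, hi, rfl⟩ := b2 p hp
    obtain ⟨_, β, hβ⟩ := mem_filter.1 hi
    obtain ⟨q, q1, q2, q3⟩ := hW K β (-(((s i : ℝ) * t i) * α)) δ N.hK N.hδ N.hδ1 hβ.le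
    refine ⟨q, q1, ?_, ?_⟩
    · exact_mod_cast q2.trans N.n4
    · have h4 : nn (q * (((s i : ℝ) * t i) * α)) = nn (q * (-(((s i : ℝ) * t i) * α))) := by
        rw [mul_neg, nn_neg]
      show nn (q * (((s i : ℝ) * t i) * α)) ≤ _
      rw [h4, le_div_iff₀ (by positivity)]
      rw [le_div_iff₀ hδ8] at q3
      nlinarith
  have hn5 := N.n5
  have hn6 := N.n6
  have hn9 := N.n9
  obtain ⟨r, r1, r2, r3⟩ := v2 Q1 S (2 * X * S) η (C / (δ ^ 8 * (K : ℝ) ^ 2)) α Bd N.hQ1 G.hS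
    (Nat.mul_pos (Nat.mul_pos two_pos G.hX1) G.hS) N.hη N.hη1 hδ1 hn5 (by rw [hT]; exact hn5.trans hST) N.n7
    (by rw [hT]; exact hn6) b1 (by rw [hT]; exact hc) hq
  refine ⟨r, r1, r2.trans N.n8, ?_⟩
  rw [hT] at r3
  refine (mul_le_mul_of_nonneg_right r3 (pow_nonneg hu0.le 9754)).trans ?_
  exact hn9

end Pool.Agent.Lib.H21T
end

-- from Lib.H21T.S9
section

/-!
# Chunk S9 (M): choice of the parameters
-/

namespace Pool.Agent.Lib.H21T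

open Finset Pool.Agent.SZW

theorem s9_pw (u : ℝ) {a b c : ℕ} (h : a + b = c) : u ^ a * u ^ b = u ^ c := by
  rw [← pow_add, h]

theorem s9_inv {u : ℝ} (hu : 0 < u) {a b c : ℕ} (h : a + c = b) : u⁻¹ ^ a * u ^ b = u ^ c := by
  subst h
  rw [pow_add, ← mul_assoc, ← mul_pow, inv_mul_cancel₀ hu.ne', one_pow, one_mul]

theorem s9_floor {y : ℝ} (hy : 1 ≤ y) : y ≤ 2 * (⌊y⌋₊ : ℝ) := by
  have h1 : y < (⌊y⌋₊ : ℝ) + 1 := Nat.lt_floor_add_one y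
  have h2 : (1 : ℝ) ≤ (⌊y⌋₊ : ℝ) := by
    have : 1 ≤ ⌊y⌋₊ := by
      rw [Nat.one_le_floor_iff]
      exact hy
    exact_mod_cast this
  linarith

theorem s9_one {u : ℝ} (hu : 1 ≤ u) (n : ℕ) : 1 ≤ u ^ n := one_le_pow₀ hu

/-- `hD` -/
theorem s9_hD {u A S H K X D : ℝ} (hu : 100 ≤ u) (hA0 : 0 < A) (hS0 : 0 < S) (hH0 : 0 ≤ H) (hK0 : 0 ≤ K) (hX0 : 0 ≤ X)
    (hA2 : A ≤ u ^ 10000) (hHA : H ≤ 3 * A) (hS1 : S ≤ u ^ 2500) (hS2 : u ^ 2500 ≤ 2 * S) (hX2 : X ≤ 5 * u ^ 2)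
    (hK1 : K ≤ u ^ 2495) (hD : 9 * u ^ 9995 ≤ D) :
    K * (4 * A / S + S * H / A) + 2 * K ^ 2 * S ^ 2 * X ≤ D := by
  have hu0 : (0 : ℝ) ≤ u := by linarith
  have e1 : 4 * A / S ≤ 8 * u ^ 7500 := by
    rw [div_le_iff₀ hS0]
    have e : u ^ 7500 * u ^ 2500 = u ^ 10000 := s9_pw u (by norm_num)
    have e' : u ^ 7500 * u ^ 2500 ≤ u ^ 7500 * (2 * S) := mul_le_mul_of_nonneg_left hS2 (pow_nonneg hu0 _)
    rw [e] at e'
    nlinarith [e', hA2]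
  have e2 : S * H / A ≤ 3 * u ^ 2500 := by
    rw [div_le_iff₀ hA0]
    calc S * H ≤ u ^ 2500 * (3 * A) := mul_le_mul hS1 hHA hH0 (pow_nonneg hu0 _)
      _ = 3 * u ^ 2500 * A := by ring
  have e3 : K * (4 * A / S + S * H / A) ≤ u ^ 2495 * (8 * u ^ 7500 + 3 * u ^ 2500) :=
    mul_le_mul hK1 (add_le_add e1 e2) (by positivity) (pow_nonneg hu0 _)
  have e4 : K ^ 2 ≤ u ^ 4990 := by
    calc K ^ 2 ≤ (u ^ 2495) ^ 2 := pow_le_pow_left₀ hK0 hK1 2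
      _ = u ^ 4990 := by rw [← pow_mul]
  have e5 : S ^ 2 ≤ u ^ 5000 := by
    calc S ^ 2 ≤ (u ^ 2500) ^ 2 := pow_le_pow_left₀ hS0.le hS1 2
      _ = u ^ 5000 := by rw [← pow_mul]
  have e6 : K ^ 2 * S ^ 2 * X ≤ u ^ 4990 * u ^ 5000 * (5 * u ^ 2) :=
    mul_le_mul (mul_le_mul e4 e5 (by positivity) (pow_nonneg hu0 _)) hX2 hX0 (by positivity)
  have p1 : u ^ 2495 * u ^ 7500 = u ^ 9995 := s9_pw u (by norm_num)
  have p2 : u ^ 2495 * u ^ 2500 = u ^ 4995 := s9_pw u (by norm_num)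
  have p3 : u ^ 4990 * u ^ 5000 = u ^ 9990 := s9_pw u (by norm_num)
  have p4 : u ^ 9990 * u ^ 2 = u ^ 9992 := s9_pw u (by norm_num)
  have p5 : u ^ 9992 * u ^ 3 = u ^ 9995 := s9_pw u (by norm_num)
  have p6 : u ^ 4995 ≤ u ^ 9992 := pow_le_pow_right₀ (by linarith) (by norm_num)
  have p7 : (13 : ℝ) ≤ u ^ 3 := by
    calc (13 : ℝ) ≤ 100 ^ 3 := by norm_num
      _ ≤ u ^ 3 := pow_le_pow_left₀ (by norm_num) hu 3
  have p8 : 13 * u ^ 9992 ≤ u ^ 9995 := by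
    rw [← p5, mul_comm (u ^ 9992)]
    exact mul_le_mul_of_nonneg_right p7 (pow_nonneg hu0 _)
  have e7 : u ^ 2495 * (8 * u ^ 7500 + 3 * u ^ 2500) = 8 * u ^ 9995 + 3 * u ^ 4995 := by
    rw [← p1, ← p2]; ring
  have e8 : u ^ 4990 * u ^ 5000 * (5 * u ^ 2) = 5 * u ^ 9992 := by
    rw [p3, ← p4]; ring
  rw [e7] at e3
  rw [e8] at e6
  have e9 : 2 * K ^ 2 * S ^ 2 * X = 2 * (K ^ 2 * S ^ 2 * X) := by ring
  rw [e9]
  linarith

/-- `n1` -/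
theorem s9_n1 {u δ A R Λ K S τ D h : ℝ} (hu : 2880 ≤ u) (hR0 : 0 ≤ R) (hR : R ≤ 4) (hA2 : A ≤ u ^ 10000)
    (hδ : δ = u⁻¹ ^ 3) (hΛ0 : 0 < Λ) (hΛ : A ≤ 16 * u ^ 5002 * Λ) (hK0 : 0 ≤ K) (hS0 : 0 ≤ S) (hK1 : K ≤ u ^ 2495)
    (hS1 : S ≤ u ^ 2500) (hτ : τ ≤ u) (hD0 : 0 ≤ D) (hD : D ≤ 10 * u ^ 9995) (hh : u ^ 9998 / 16 ≤ h) :
    δ * (A * R) + 2 * ((A / Λ + 1) * (K * S * R)) + 4 * τ * D ≤ h := by
  have hu0 : (0 : ℝ) < u := by linarith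
  have e1 : δ * (A * R) ≤ 4 * u ^ 9997 := by
    have : δ * (A * R) ≤ u⁻¹ ^ 3 * (u ^ 10000 * 4) := by
      rw [hδ]
      exact mul_le_mul_of_nonneg_left (mul_le_mul hA2 hR hR0 (by positivity)) (by positivity)
    have e : u⁻¹ ^ 3 * u ^ 10000 = u ^ 9997 := s9_inv hu0 (by norm_num)
    calc _ ≤ _ := this
      _ = (u⁻¹ ^ 3 * u ^ 10000) * 4 := by ring
      _ = 4 * u ^ 9997 := by rw [e]; ring
  have e2 : A / Λ + 1 ≤ 17 * u ^ 5002 := by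
    have : A / Λ ≤ 16 * u ^ 5002 := by
      rw [div_le_iff₀ hΛ0]; exact hΛ
    have h1 : 1 ≤ u ^ 5002 := s9_one (by linarith) _
    linarith
  have e3 : K * S * R ≤ u ^ 2495 * u ^ 2500 * 4 :=
    mul_le_mul (mul_le_mul hK1 hS1 hS0 (by positivity)) hR hR0 (by positivity)
  have e4 : (A / Λ + 1) * (K * S * R) ≤ 17 * u ^ 5002 * (u ^ 2495 * u ^ 2500 * 4) :=
    mul_le_mul e2 e3 (by positivity) (by positivity)
  have p1 : u ^ 2495 * u ^ 2500 = u ^ 4995 := s9_pw u (by norm_num)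
  have p2 : u ^ 5002 * u ^ 4995 = u ^ 9997 := s9_pw u (by norm_num)
  have e5 : 17 * u ^ 5002 * (u ^ 2495 * u ^ 2500 * 4) = 68 * u ^ 9997 := by
    rw [p1, ← p2]; ring
  have p3 : u ^ 1 * u ^ 9995 = u ^ 9996 := s9_pw u (by norm_num)
  have e6 : 4 * τ * D ≤ 40 * u ^ 9996 := by
    calc 4 * τ * D ≤ 4 * u * (10 * u ^ 9995) := mul_le_mul (by linarith) hD hD0 (by positivity)
      _ = 40 * (u ^ 1 * u ^ 9995) := by ring
      _ = 40 * u ^ 9996 := by rw [p3]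
  have p4 : u ^ 9996 ≤ u ^ 9997 := pow_le_pow_right₀ (by linarith) (by norm_num)
  have p5 : u ^ 1 * u ^ 9997 = u ^ 9998 := s9_pw u (by norm_num)
  have p6 : 2880 * u ^ 9997 ≤ u ^ 9998 := by
    rw [← p5, pow_one]
    exact mul_le_mul_of_nonneg_right hu (by positivity)
  rw [e5] at e4
  linarith

/-- `n2` -/
theorem s9_n2 {u R Λ X s0 S h : ℝ} (hu : 744960 ≤ u) (hR0 : 0 ≤ R) (hR : R ≤ 4) (hΛ0 : 0 < Λ) (hΛ : Λ ≤ 4 * u ^ 5000)
    (hX : X ≤ 5 * u ^ 2) (hs0 : 0 ≤ s0) (hs1 : s0 ≤ u ^ 2495) (hS0 : 0 ≤ S) (hS1 : S ≤ u ^ 2500)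
    (hh : u ^ 9998 / 16 ≤ h) :
    582 * X * s0 * S * (Λ * R) ≤ h := by
  have hu0 : (0 : ℝ) < u := by linarith
  have e1 : 582 * X * s0 * S * (Λ * R) ≤ 582 * (5 * u ^ 2) * u ^ 2495 * u ^ 2500 * (4 * u ^ 5000 * 4) :=
    mul_le_mul (mul_le_mul (mul_le_mul (by linarith) hs1 hs0 (by positivity)) hS1 hS0 (by positivity))
      (mul_le_mul hΛ hR hR0 (by positivity)) (by positivity) (by positivity)
  have p1 : u ^ 2 * u ^ 2495 = u ^ 2497 := s9_pw u (by norm_num)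
  have p2 : u ^ 2497 * u ^ 2500 = u ^ 4997 := s9_pw u (by norm_num)
  have p3 : u ^ 4997 * u ^ 5000 = u ^ 9997 := s9_pw u (by norm_num)
  have e2 : 582 * (5 * u ^ 2) * u ^ 2495 * u ^ 2500 * (4 * u ^ 5000 * 4) = 46560 * u ^ 9997 := by
    rw [← p3, ← p2, ← p1]; ring
  have p5 : u ^ 1 * u ^ 9997 = u ^ 9998 := s9_pw u (by norm_num)
  have p6 : 744960 * u ^ 9997 ≤ u ^ 9998 := by
    rw [← p5, pow_one]
    exact mul_le_mul_of_nonneg_right hu (by positivity)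
  rw [e2] at e1
  linarith

/-- `n3` -/
theorem s9_n3 {u η R Λ X s0 S h : ℝ} (hu : 988160 ≤ u) (hη : η = u⁻¹ ^ 10) (hR0 : 0 ≤ R) (hR : R ≤ 4) (hΛ0 : 0 < Λ)
    (hΛ : Λ ≤ 4 * u ^ 5000)
    (hX0 : 0 ≤ X) (hX : X ≤ 5 * u ^ 2) (hs0 : 0 < s0) (hs1 : u ^ 2495 ≤ 2 * s0) (hS0 : 0 ≤ S) (hS1 : S ≤ u ^ 2500)
    (hh : u ^ 9998 / 16 ≤ h) :
    η * (S * (2 * X * S)) * (2 * (96 * S / s0 + 1)) * (Λ * R) ≤ h := by
  have hu0 : (0 : ℝ) < u := by linarith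
  have hη0 : 0 < η := by rw [hη]; positivity
  have e1 : S * (2 * X * S) ≤ u ^ 2500 * (2 * (5 * u ^ 2) * u ^ 2500) :=
    mul_le_mul hS1 (mul_le_mul (by linarith) hS1 hS0 (by positivity)) (by positivity) (by positivity)
  have q1 : u ^ 5 * u ^ 2495 = u ^ 2500 := s9_pw u (by norm_num)
  have e2 : 96 * S / s0 ≤ 192 * u ^ 5 := by
    rw [div_le_iff₀ hs0]
    have : u ^ 5 * u ^ 2495 ≤ u ^ 5 * (2 * s0) := mul_le_mul_of_nonneg_left hs1 (by positivity)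
    rw [q1] at this
    linarith
  have e3 : 2 * (96 * S / s0 + 1) ≤ 386 * u ^ 5 := by
    have : 1 ≤ u ^ 5 := s9_one (by linarith) _
    linarith
  have e4 : η * (S * (2 * X * S)) ≤ η * (u ^ 2500 * (2 * (5 * u ^ 2) * u ^ 2500)) :=
    mul_le_mul_of_nonneg_left e1 hη0.le
  have e5 : η * (S * (2 * X * S)) * (2 * (96 * S / s0 + 1)) * (Λ * R) ≤
      η * (u ^ 2500 * (2 * (5 * u ^ 2) * u ^ 2500)) * (386 * u ^ 5) * (4 * u ^ 5000 * 4) :=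
    mul_le_mul (mul_le_mul e4 e3 (by positivity) (by positivity))
      (mul_le_mul hΛ hR hR0 (by positivity)) (by positivity) (by positivity)
  have p1 : u ^ 2 * u ^ 2500 = u ^ 2502 := s9_pw u (by norm_num)
  have p2 : u ^ 2502 * u ^ 2500 = u ^ 5002 := s9_pw u (by norm_num)
  have p3 : u ^ 5002 * u ^ 5 = u ^ 5007 := s9_pw u (by norm_num)
  have p4 : u ^ 5007 * u ^ 5000 = u ^ 10007 := s9_pw u (by norm_num)
  have p7 : u⁻¹ ^ 10 * u ^ 10007 = u ^ 9997 := s9_inv hu0 (by norm_num)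
  have e6 : η * (u ^ 2500 * (2 * (5 * u ^ 2) * u ^ 2500)) * (386 * u ^ 5) * (4 * u ^ 5000 * 4) = 61760 * u ^ 9997 := by
    rw [← p7, ← p4, ← p3, ← p2, ← p1, hη]; ring
  have p5 : u ^ 1 * u ^ 9997 = u ^ 9998 := s9_pw u (by norm_num)
  have p6 : 988160 * u ^ 9997 ≤ u ^ 9998 := by
    rw [← p5, pow_one]
    exact mul_le_mul_of_nonneg_right hu (by positivity)
  rw [e6] at e5
  linarith

/-- the bound for `C / (δ ^ 8 K ^ 2)` -/
theorem s9_E {u C δ K : ℝ} (hu : 1 ≤ u) (hC : 1 ≤ C) (hδ : δ = u⁻¹ ^ 3) (hK0 : 0 < K) (hK : u ^ 2495 ≤ 2 * K) :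
    C / (δ ^ 8 * K ^ 2) * u ^ 4966 ≤ 4 * C := by
  have hu0 : (0 : ℝ) < u := by linarith
  have hδ0 : 0 < δ := by rw [hδ]; positivity
  rw [div_mul_eq_mul_div, div_le_iff₀ (by positivity)]
  have e1 : u ^ 4990 ≤ 4 * K ^ 2 := by
    calc u ^ 4990 = (u ^ 2495) ^ 2 := by rw [← pow_mul]
      _ ≤ (2 * K) ^ 2 := pow_le_pow_left₀ (by positivity) hK 2
      _ = 4 * K ^ 2 := by ring
  have e2 : u⁻¹ ^ 24 * u ^ 4990 = u ^ 4966 := s9_inv hu0 (by norm_num)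
  have e3 : δ ^ 8 = u⁻¹ ^ 24 := by rw [hδ, ← pow_mul]
  rw [e3, ← e2]
  have : u⁻¹ ^ 24 * u ^ 4990 ≤ u⁻¹ ^ 24 * (4 * K ^ 2) := mul_le_mul_of_nonneg_left e1 (by positivity)
  calc C * (u⁻¹ ^ 24 * u ^ 4990) ≤ C * (u⁻¹ ^ 24 * (4 * K ^ 2)) := mul_le_mul_of_nonneg_left this (by linarith)
    _ = 4 * C * (u⁻¹ ^ 24 * K ^ 2) := by ring

/-- `n5` -/
theorem s9_n5 {u η Q1 S : ℝ} (hu : 10 ^ 8 ≤ u) (hη : η = u⁻¹ ^ 10) (hQ0 : 0 ≤ Q1) (hQ : Q1 ≤ u ^ 25) (hS : u ^ 2500 ≤ 2 * S) :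
    2 ^ 13 * Q1 ^ 4 / η ^ 4 ≤ S := by
  have hu0 : (0 : ℝ) < u := by linarith
  have hη0 : 0 < η := by rw [hη]; positivity
  have e1 : Q1 ^ 4 ≤ u ^ 100 := by
    calc Q1 ^ 4 ≤ (u ^ 25) ^ 4 := pow_le_pow_left₀ hQ0 hQ 4
      _ = u ^ 100 := by rw [← pow_mul]
  have e2 : η ^ 4 = u⁻¹ ^ 40 := by rw [hη, ← pow_mul]
  have e3 : u⁻¹ ^ 40 * u ^ 140 = u ^ 100 := s9_inv hu0 (by norm_num)
  have e4 : u ^ 141 ≤ u ^ 2500 := pow_le_pow_right₀ (by linarith) (by norm_num)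
  have e5 : u ^ 1 * u ^ 140 = u ^ 141 := s9_pw u (by norm_num)
  have e6 : 10 ^ 8 * u ^ 140 ≤ u ^ 141 := by
    rw [← e5, pow_one]
    exact mul_le_mul_of_nonneg_right hu (by positivity)
  have e7 : 2 ^ 13 * u ^ 140 ≤ S := by
    have : 0 ≤ u ^ 140 := by positivity
    linarith
  rw [div_le_iff₀ (by positivity), e2]
  calc 2 ^ 13 * Q1 ^ 4 ≤ 2 ^ 13 * u ^ 100 := by linarith
    _ = 2 ^ 13 * u ^ 140 * u⁻¹ ^ 40 := by rw [← e3]; ring
    _ ≤ S * u⁻¹ ^ 40 := mul_le_mul_of_nonneg_right e7 (by positivity)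

/-- `n6` -/
theorem s9_n6 {u C η Q1 S X E : ℝ} (hC : 1 ≤ C) (hu : 10 ^ 8 * C ≤ u) (hη : η = u⁻¹ ^ 10) (hQ0 : 0 ≤ Q1) (hQ : Q1 ≤ u ^ 25)
    (hS : u ^ 2500 ≤ 2 * S) (hX : 4 * u ^ 2 ≤ X) (hE0 : 0 ≤ E) (hE : E * u ^ 4966 ≤ 4 * C) :
    2 ^ 18 * Q1 ^ 4 * E ≤ η ^ 4 * (2 * X * S) := by
  have hu0 : (0 : ℝ) < u := by linarith
  have hu1 : (1 : ℝ) ≤ u := by linarith
  have hη0 : 0 < η := by rw [hη]; positivity
  have e1 : Q1 ^ 4 ≤ u ^ 100 := by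
    calc Q1 ^ 4 ≤ (u ^ 25) ^ 4 := pow_le_pow_left₀ hQ0 hQ 4
      _ = u ^ 100 := by rw [← pow_mul]
  have e2 : η ^ 4 = u⁻¹ ^ 40 := by rw [hη, ← pow_mul]
  have e3 : u⁻¹ ^ 40 * u ^ 140 = u ^ 100 := s9_inv hu0 (by norm_num)
  have hX0 : 0 ≤ X := le_trans (by positivity) hX
  have e4 : 4 * u ^ 2 * u ^ 2500 ≤ X * (2 * S) := mul_le_mul hX hS (by positivity) hX0
  have e5 : u ^ 140 * u ^ 4826 = u ^ 4966 := s9_pw u (by norm_num)
  have hb : u ^ 1 ≤ u ^ 4826 := pow_le_pow_right₀ hu1 (by norm_num)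
  rw [pow_one] at hb
  -- `E * u ^ 140 ≤ 1`
  have e6 : 2 ^ 18 * (E * u ^ 140) ≤ 1 := by
    have h1 : E * u ^ 140 * u ≤ 4 * C := by
      calc E * u ^ 140 * u ≤ E * u ^ 140 * u ^ 4826 := mul_le_mul_of_nonneg_left hb (by positivity)
        _ = E * (u ^ 140 * u ^ 4826) := by ring
        _ = E * u ^ 4966 := by rw [e5]
        _ ≤ 4 * C := hE
    have h2 : E * u ^ 140 * (10 ^ 8 * C) ≤ 4 * C :=
      le_trans (mul_le_mul_of_nonneg_left hu (by positivity)) h1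
    have h3 : (E * u ^ 140 * 10 ^ 8) * C ≤ 4 * C := by
      calc _ = E * u ^ 140 * (10 ^ 8 * C) := by ring
        _ ≤ _ := h2
    have h4 : E * u ^ 140 * 10 ^ 8 ≤ 4 := le_of_mul_le_mul_right h3 (by linarith)
    linarith
  have e7 : (1 : ℝ) ≤ X * (2 * S) := by
    refine le_trans ?_ e4
    have h1 : 1 ≤ u ^ 2 := s9_one hu1 _
    have h2 : 1 ≤ u ^ 2500 := s9_one hu1 _
    have h3 : (1 : ℝ) * 1 ≤ 4 * u ^ 2 * u ^ 2500 := mul_le_mul (by linarith) h2 (by norm_num) (by positivity)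
    linarith
  rw [e2]
  calc 2 ^ 18 * Q1 ^ 4 * E ≤ 2 ^ 18 * u ^ 100 * E := mul_le_mul_of_nonneg_right (by linarith) hE0
    _ = u⁻¹ ^ 40 * (2 ^ 18 * (E * u ^ 140)) := by rw [← e3]; ring
    _ ≤ u⁻¹ ^ 40 * (X * (2 * S)) := mul_le_mul_of_nonneg_left (le_trans e6 e7) (by positivity)
    _ = u⁻¹ ^ 40 * (2 * X * S) := by ring

/-- `n7` -/
theorem s9_n7 {u C η Q1 E : ℝ} (hC : 1 ≤ C) (hu : 10 ^ 8 * C ≤ u) (hη : η = u⁻¹ ^ 10) (hQ : Q1 ≤ u ^ 25)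
    (hE0 : 0 ≤ E) (hE : E * u ^ 4966 ≤ 4 * C) :
    128 * Q1 * E ≤ η := by
  have hu0 : (0 : ℝ) < u := by linarith
  have hu1 : (1 : ℝ) ≤ u := by linarith
  have e3 : u⁻¹ ^ 10 * u ^ 35 = u ^ 25 := s9_inv hu0 (by norm_num)
  have e5 : u ^ 35 * u ^ 4931 = u ^ 4966 := s9_pw u (by norm_num)
  have hb : u ^ 1 ≤ u ^ 4931 := pow_le_pow_right₀ hu1 (by norm_num)
  rw [pow_one] at hb
  have e6 : 128 * (E * u ^ 35) ≤ 1 := by
    have h1 : E * u ^ 35 * u ≤ 4 * C := by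
      calc E * u ^ 35 * u ≤ E * u ^ 35 * u ^ 4931 := mul_le_mul_of_nonneg_left hb (by positivity)
        _ = E * (u ^ 35 * u ^ 4931) := by ring
        _ = E * u ^ 4966 := by rw [e5]
        _ ≤ 4 * C := hE
    have h2 : E * u ^ 35 * (10 ^ 8 * C) ≤ 4 * C :=
      le_trans (mul_le_mul_of_nonneg_left hu (by positivity)) h1
    have h3 : (E * u ^ 35 * 10 ^ 8) * C ≤ 4 * C := by
      calc _ = E * u ^ 35 * (10 ^ 8 * C) := by ring
        _ ≤ _ := h2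
    have h4 : E * u ^ 35 * 10 ^ 8 ≤ 4 := le_of_mul_le_mul_right h3 (by linarith)
    linarith
  rw [hη]
  calc 128 * Q1 * E ≤ 128 * u ^ 25 * E := mul_le_mul_of_nonneg_right (by linarith) hE0
    _ = u⁻¹ ^ 10 * (128 * (E * u ^ 35)) := by rw [← e3]; ring
    _ ≤ u⁻¹ ^ 10 * 1 := mul_le_mul_of_nonneg_left e6 (by positivity)
    _ = u⁻¹ ^ 10 := mul_one _

/-- `n8` -/
theorem s9_n8 {u η Q1 : ℝ} (hu : 512 ≤ u) (hη : η = u⁻¹ ^ 10) (hQ0 : 0 ≤ Q1) (hQ : Q1 ≤ u ^ 25) :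
    512 * Q1 ^ 4 / η ^ 3 ≤ u ^ 131 := by
  have hu0 : (0 : ℝ) < u := by linarith
  have hη0 : 0 < η := by rw [hη]; positivity
  have e1 : Q1 ^ 4 ≤ u ^ 100 := by
    calc Q1 ^ 4 ≤ (u ^ 25) ^ 4 := pow_le_pow_left₀ hQ0 hQ 4
      _ = u ^ 100 := by rw [← pow_mul]
  have e2 : η ^ 3 = u⁻¹ ^ 30 := by rw [hη, ← pow_mul]
  have e3 : u⁻¹ ^ 30 * u ^ 130 = u ^ 100 := s9_inv hu0 (by norm_num)
  have e5 : u ^ 1 * u ^ 130 = u ^ 131 := s9_pw u (by norm_num)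
  have e6 : 512 * u ^ 130 ≤ u ^ 131 := by
    rw [← e5, pow_one]
    exact mul_le_mul_of_nonneg_right hu (by positivity)
  rw [div_le_iff₀ (by positivity), e2]
  calc 512 * Q1 ^ 4 ≤ 512 * u ^ 100 := by linarith
    _ = 512 * u ^ 130 * u⁻¹ ^ 30 := by rw [← e3]; ring
    _ ≤ u ^ 131 * u⁻¹ ^ 30 := mul_le_mul_of_nonneg_right e6 (by positivity)

/-- `n9` -/
theorem s9_n9 {u C η Q1 S X E : ℝ} (hC : 1 ≤ C) (hu : 10 ^ 8 * C ≤ u) (hη : η = u⁻¹ ^ 10) (hQ0 : 0 ≤ Q1) (hQ : Q1 ≤ u ^ 25)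
    (hS0 : 0 < S) (hS : u ^ 2500 ≤ 2 * S) (hX : 4 * u ^ 2 ≤ X) (hE0 : 0 ≤ E) (hE : E * u ^ 4966 ≤ 4 * C) :
    2 ^ 22 * Q1 ^ 6 * E / (η ^ 6 * S * (2 * X * S)) * u ^ 9754 ≤ 1 := by
  have hu0 : (0 : ℝ) < u := by linarith
  have hu1 : (1 : ℝ) ≤ u := by linarith
  have hη0 : 0 < η := by rw [hη]; positivity
  have hX0 : 0 < X := lt_of_lt_of_le (by positivity) hX
  have e1 : Q1 ^ 6 ≤ u ^ 150 := by
    calc Q1 ^ 6 ≤ (u ^ 25) ^ 6 := pow_le_pow_left₀ hQ0 hQ 6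
      _ = u ^ 150 := by rw [← pow_mul]
  have e2 : η ^ 6 = u⁻¹ ^ 60 := by rw [hη, ← pow_mul]
  have e3 : u⁻¹ ^ 60 * u ^ 210 = u ^ 150 := s9_inv hu0 (by norm_num)
  -- `S * (2 X S) ≥ 2 u ^ 5002`
  have e4 : u ^ 2500 * (4 * u ^ 2 * u ^ 2500) ≤ 2 * S * (X * (2 * S)) :=
    mul_le_mul hS (mul_le_mul hX hS (by positivity) hX0.le) (by positivity) (by positivity)
  have p1 : u ^ 2500 * u ^ 2500 = u ^ 5000 := s9_pw u (by norm_num)
  have p2 : u ^ 5000 * u ^ 2 = u ^ 5002 := s9_pw u (by norm_num)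
  have e5 : 2 * u ^ 5002 ≤ S * (2 * X * S) := by
    have h1 : u ^ 2500 * (4 * u ^ 2 * u ^ 2500) = 4 * u ^ 5002 := by rw [← p2, ← p1]; ring
    rw [h1] at e4
    have h2 : 2 * S * (X * (2 * S)) = 2 * (S * (2 * X * S)) := by ring
    rw [h2] at e4
    linarith
  have p3 : u ^ 210 * u ^ 9754 = u ^ 9964 := s9_pw u (by norm_num)
  have p4 : u ^ 4966 * u ^ 4998 = u ^ 9964 := s9_pw u (by norm_num)
  have p5 : u ^ 4 * u ^ 4998 = u ^ 5002 := s9_pw u (by norm_num)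
  have p6 : u ≤ u ^ 4 := by
    calc u = u ^ 1 := (pow_one u).symm
      _ ≤ u ^ 4 := pow_le_pow_right₀ hu1 (by norm_num)
  have e6 : 2 ^ 22 * (E * u ^ 9964) ≤ 2 * u ^ 5002 := by
    have h1 : E * u ^ 9964 ≤ 4 * C * u ^ 4998 := by
      rw [← p4, ← mul_assoc]
      exact mul_le_mul_of_nonneg_right hE (by positivity)
    have h2 : 10 ^ 8 * C * u ^ 4998 ≤ u ^ 5002 := by
      rw [← p5]
      exact mul_le_mul_of_nonneg_right (le_trans hu p6) (by positivity)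
    have h3 : 0 ≤ C * u ^ 4998 := by positivity
    linarith
  have h0 : 0 < η ^ 6 * S * (2 * X * S) := by positivity
  rw [div_mul_eq_mul_div, div_le_one h0, e2]
  calc 2 ^ 22 * Q1 ^ 6 * E * u ^ 9754 ≤ 2 ^ 22 * u ^ 150 * E * u ^ 9754 := by
        apply mul_le_mul_of_nonneg_right _ (by positivity)
        apply mul_le_mul_of_nonneg_right _ hE0
        linarith
    _ = u⁻¹ ^ 60 * (2 ^ 22 * (E * u ^ 9964)) := by rw [← e3, ← p3]; ring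
    _ ≤ u⁻¹ ^ 60 * (2 * u ^ 5002) := mul_le_mul_of_nonneg_left e6 (by positivity)
    _ ≤ u⁻¹ ^ 60 * (S * (2 * X * S)) := mul_le_mul_of_nonneg_left e5 (by positivity)
    _ = u⁻¹ ^ 60 * S * (2 * X * S) := by ring

/-- `X`, `S`, `Λ` from `g1`; `K = ⌊u ^ 2495⌋₊`, `D = ⌈9 u ^ 9995⌉₊`, `s0 = ⌊u ^ 2495⌋₊`, `Q1 = ⌊u ^ 25⌋₊`, `δ = u⁻¹ ^ 3`, `η = u⁻¹ ^ 10`, `τ = ⌊u⌋₊`; `u ≥ U0` large in terms of `C`
(for instance `U0 = 10 ^ 8 * C`). All floors are at least one half of the number. `u ^ 9999 ≤ A ≤ u ^ 10000`, `u ^ 9999 ≤ H ≤ 3 u ^ 9999`, so `H / A + 1 ≤ 4`, and `H / (16 u) ≥ u ^ 9998 / 16`.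
`hD`: `4 A K / S ≤ 4 u ^ 10000 u ^ 2495 / (u ^ 2500 / 2) = 8 u ^ 9995`, `K S H / A ≤ 3 u ^ 4995`, `2 K ^ 2 S ^ 2 X ≤ 10 u ^ 9992`.
`n1`: `δ A 4 ≤ 4 u ^ 9997`; `A / Λ + 1 ≤ 16 u ^ 5002 + 1 ≤ 17 u ^ 5002`, so the second term is `≤ 2 * 17 u ^ 5002 * u ^ 4995 * 4 = 136 u ^ 9997`; `4 τ D ≤ 40 u ^ 9996`.
`n2`: `582 * 5 u ^ 2 * u ^ 4995 * 16 u ^ 5000` is a constant times `u ^ 9997`. `n3`: `96 S / s0 + 1 ≤ 193 u ^ 5`, so the left side is `≤ u ^ (-10) * 10 u ^ 5002 * 386 u ^ 5 * 16 u ^ 5000`, a constant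
times `u ^ 9997`. `n4`: `C u ^ 24 ≤ u ^ 25 / 2`. `n5`: `2 ^ 13 u ^ 140 ≤ u ^ 2500 / 2`. `C / (δ ^ 8 K ^ 2) ≤ 4 C u ^ 24 / u ^ 4990`. `n6`, `n7` are clear. `n8`: `512 u ^ 130 ≤ u ^ 131`.
`n9`: `2 ^ 22 u ^ 150 * (4 C u ^ 24 / u ^ 4990) * u ^ 60 / (S * 2 X S) * u ^ 9754` with `S * 2 X S ≥ 2 u ^ 5002` is a constant times `C u ^ (-4)`. (All checked numerically. Never unfold the powers; prove each
inequality as a separate lemma s9_.. about real numbers; products with `← pow_add`, comparisons with `pow_le_pow_right₀`, negative powers by multiplying out.) -/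
theorem s9 (C : ℝ) (hC : 1 ≤ C) : ∃ U0 : ℝ, 1 ≤ U0 ∧ ∀ u : ℝ, U0 ≤ u → ∀ A x H : ℕ, u ^ 9999 ≤ A → (A : ℝ) ≤ u ^ 10000 →
    A ^ 2 ≤ 2 * x → (x : ℝ) ≤ 4 * u ^ 2 * (A : ℝ) ^ 2 → u ^ 9999 ≤ H → (H : ℝ) ≤ 3 * u ^ 9999 →
    ∃ (X S Λ K D s0 Q1 τ : ℕ) (δ η : ℝ), Geo A x X S Λ ∧ τ = ⌊u⌋₊ ∧
      (K : ℝ) * (4 * A / S + S * H / A) + 2 * (K : ℝ) ^ 2 * (S : ℝ) ^ 2 * X ≤ D ∧ Num u δ η C H A X S Λ K D s0 Q1 τ := by
  refine ⟨10 ^ 8 * C, by linarith, ?_⟩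
  intro u hu A x H hA1 hA2 hx1 hx2 hH1 hH2
  have hu8 : 10 ^ 8 ≤ u := by linarith
  have hu0 : (0 : ℝ) < u := by linarith
  have hu1 : (1 : ℝ) ≤ u := by linarith
  obtain ⟨X, S, Λ, G, hX1, hX2, hS1, hS2, hL1, hL2⟩ := g1 u (by linarith) A x hA1 hA2 hx1 hx2
  have hK1 : ((⌊u ^ 2495⌋₊ : ℕ) : ℝ) ≤ u ^ 2495 := Nat.floor_le (by positivity)
  have hK2 : u ^ 2495 ≤ 2 * ((⌊u ^ 2495⌋₊ : ℕ) : ℝ) := s9_floor (s9_one hu1 _)
  have hQ1 : ((⌊u ^ 25⌋₊ : ℕ) : ℝ) ≤ u ^ 25 := Nat.floor_le (by positivity)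
  have hQ2 : u ^ 25 ≤ 2 * ((⌊u ^ 25⌋₊ : ℕ) : ℝ) := s9_floor (s9_one hu1 _)
  have hτ : ((⌊u⌋₊ : ℕ) : ℝ) ≤ u := Nat.floor_le hu0.le
  have hD1 : 9 * u ^ 9995 ≤ ((⌈9 * u ^ 9995⌉₊ : ℕ) : ℝ) := Nat.le_ceil _
  have hD2 : ((⌈9 * u ^ 9995⌉₊ : ℕ) : ℝ) ≤ 10 * u ^ 9995 := by
    have h1 : ((⌈9 * u ^ 9995⌉₊ : ℕ) : ℝ) < 9 * u ^ 9995 + 1 := Nat.ceil_lt_add_one (by positivity)
    have h2 : 1 ≤ u ^ 9995 := s9_one hu1 _
    linarith
  have hA0 : (0 : ℝ) < A := lt_of_lt_of_le (by positivity) hA1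
  have hH0 : (0 : ℝ) < H := lt_of_lt_of_le (by positivity) hH1
  have hS0 : (0 : ℝ) < S := by
    have : 0 < u ^ 2500 := by positivity
    linarith
  have hX0 : (0 : ℝ) < X := lt_of_lt_of_le (by positivity) hX1
  have hΛ0 : (0 : ℝ) < Λ := by exact_mod_cast G.hΛ
  have hHA : (H : ℝ) ≤ 3 * A := by linarith
  have hR0 : (0 : ℝ) ≤ H / A + 1 := by positivity
  have hR : (H : ℝ) / A + 1 ≤ 4 := by
    have : (H : ℝ) / A ≤ 3 := by
      rw [div_le_iff₀ hA0]; exact hHA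
    linarith
  have hK0 : (0 : ℝ) < ((⌊u ^ 2495⌋₊ : ℕ) : ℝ) := by
    have : 0 < u ^ 2495 := by positivity
    linarith
  have hh : u ^ 9998 / 16 ≤ (H : ℝ) / (16 * u) := by
    rw [div_le_div_iff₀ (by norm_num) (by positivity)]
    have e : u ^ 1 * u ^ 9998 = u ^ 9999 := s9_pw u (by norm_num)
    rw [pow_one] at e
    calc u ^ 9998 * (16 * u) = 16 * (u * u ^ 9998) := by ring
      _ = 16 * u ^ 9999 := by rw [e]
      _ ≤ H * 16 := by linarith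
  have hE := s9_E (u := u) (C := C) (δ := u⁻¹ ^ 3) (K := ((⌊u ^ 2495⌋₊ : ℕ) : ℝ)) hu1 hC rfl hK0 hK2
  have hE0 : 0 ≤ C / ((u⁻¹ ^ 3) ^ 8 * ((⌊u ^ 2495⌋₊ : ℕ) : ℝ) ^ 2) := by positivity
  have hui : u⁻¹ ≤ 1 := inv_le_one_of_one_le₀ hu1
  refine ⟨X, S, Λ, ⌊u ^ 2495⌋₊, ⌈9 * u ^ 9995⌉₊, ⌊u ^ 2495⌋₊, ⌊u ^ 25⌋₊, ⌊u⌋₊, u⁻¹ ^ 3, u⁻¹ ^ 10, G, rfl, ?_, ?_⟩
  · exact s9_hD (by linarith) hA0 hS0 hH0.le hK0.le hX0.le hA2 hHA hS1 hS2 hX2 hK1 hD1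
  · refine ⟨hu1, by positivity, pow_le_one₀ (by positivity) hui, by positivity, pow_le_one₀ (by positivity) hui, hH0, ?_, ?_, ?_,
      ?_, ?_, ?_, ?_, ?_, ?_, ?_, ?_, ?_⟩
    · rw [Nat.one_le_floor_iff]; exact s9_one hu1 _
    · rw [Nat.le_floor_iff (by positivity)]
      calc ((9 : ℕ) : ℝ) ≤ u := by push_cast; linarith
        _ = u ^ 1 := (pow_one u).symm
        _ ≤ u ^ 2495 := pow_le_pow_right₀ hu1 (by norm_num)
    · rw [Nat.one_le_floor_iff]; exact s9_one hu1 _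
    · exact s9_n1 (by linarith) hR0 hR hA2 rfl hΛ0 hL2 hK0.le hS0.le hK1 hS1 hτ (Nat.cast_nonneg _) hD2 hh
    · exact s9_n2 (by linarith) hR0 hR hΛ0 hL1 hX2 (Nat.cast_nonneg _) hK1 hS0.le hS1 hh
    · exact s9_n3 (by linarith) rfl hR0 hR hΛ0 hL1 hX0.le hX2 hK0 hK2 hS0.le hS1 hh
    · have e1 : (u⁻¹ ^ 3) ^ 8 = u⁻¹ ^ 24 := by rw [← pow_mul]
      have e2 : u⁻¹ ^ 24 * u ^ 25 = u ^ 1 := s9_inv hu0 (by norm_num)
      rw [pow_one] at e2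
      rw [e1, div_le_iff₀ (by positivity)]
      have e3 : u⁻¹ ^ 24 * u ^ 25 ≤ u⁻¹ ^ 24 * (2 * ((⌊u ^ 25⌋₊ : ℕ) : ℝ)) :=
        mul_le_mul_of_nonneg_left hQ2 (by positivity)
      rw [e2] at e3
      calc C ≤ u / 2 := by linarith
        _ ≤ (u⁻¹ ^ 24 * (2 * ((⌊u ^ 25⌋₊ : ℕ) : ℝ))) / 2 := by linarith
        _ = ((⌊u ^ 25⌋₊ : ℕ) : ℝ) * u⁻¹ ^ 24 := by ring
    · exact s9_n5 hu8 rfl (Nat.cast_nonneg _) hQ1 hS2
    · exact s9_n6 hC hu rfl (Nat.cast_nonneg _) hQ1 hS2 hX1 hE0 hE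
    · exact s9_n7 hC hu rfl hQ1 hE0 hE
    · exact s9_n8 (by linarith) rfl (Nat.cast_nonneg _) hQ1
    · exact s9_n9 hC hu rfl (Nat.cast_nonneg _) hQ1 hS0 hS2 hX1 hE0 hE

end Pool.Agent.Lib.H21T
end

-- from Lib.SZW.C2
section

/-!
# C2 (M): quadratic phases
-/

set_option autoImplicit false

namespace Pool.Agent.SZW

variable {ι : Type*} [Fintype ι] [DecidableEq ι] {R : Type*} [CommRing R]
  (b : Module.Basis ι ℤ R)

/-- A dense set of shifts `h` with `nn (θ (E h * b j)) ≤ ε` for all `j` gives a small `q` with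
`nn (θ (q b j)) ≤ 16 ε / (ρ ^ 2 P)`: `exists_line` with `u` the coordinates of `1`, and
`θ ((E h₀ + n) b j) = n θ (b j) + θ (E h₀ b j)`, `recurrence`. -/
theorem rec_ring (U : ℕ) (hU : ∀ i, |b.repr 1 i| ≤ U) {P : ℕ} (hP : 1 ≤ P) (θ : R →+ ℝ)
    {H : Finset (ι → ℤ)} (hH : H ⊆ shifts ι P) {σ ρ ε : ℝ} (hσ : 0 < σ) (hσ1 : σ ≤ 1)
    (hρ : ρ = σ / (2 + 2 * U) ^ Fintype.card ι) (hc : σ * (P : ℝ) ^ Fintype.card ι ≤ H.card)
    (hP' : 8 / ρ ^ 2 ≤ P) (hε : 0 ≤ ε) (hε' : 32 * ε ≤ ρ)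
    (h : ∀ k ∈ H, ∀ j, nn (θ (E b k * b j)) ≤ ε) :
    ∃ q : ℕ, 1 ≤ q ∧ (q : ℝ) ≤ 2 / ρ ∧ ∀ j, nn (θ ((q : R) * b j)) ≤ 16 * ε / (ρ ^ 2 * P) := by
  obtain ⟨h₀, h1⟩ := exists_line (ι := ι) hP (u := fun i => b.repr 1 i) hU hH hc
  have hL : (1 : ℝ) ≤ (2 + 2 * (U : ℝ)) ^ Fintype.card ι := by
    apply one_le_pow₀
    have : (0 : ℝ) ≤ U := Nat.cast_nonneg U
    linarith
  have hρ0 : 0 < ρ := by
    rw [hρ]
    exact div_pos hσ (by linarith)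
  have hρ1 : ρ ≤ 1 := by
    rw [hρ, div_le_one (by linarith)]
    linarith
  rw [← hρ] at h1
  obtain ⟨q, hq1, hq2, hq3⟩ := recurrence (κ := ι) (α := fun j => θ (b j))
    (β := fun j => θ (E b h₀ * b j)) hρ0 hρ1 hP' hε hε'
    (A := (Finset.range P).filter fun n : ℕ => h₀ + (n : ℤ) • (fun i => b.repr 1 i) ∈ H)
    (fun n hn => Finset.mem_range.1 (Finset.mem_filter.1 hn).1) h1
    (by
      intro n hn j
      have h2 := h _ (Finset.mem_filter.1 hn).2 j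
      have h3 : E b (h₀ + (n : ℤ) • (fun i => b.repr 1 i)) = E b h₀ + (n : R) := by
        rw [E_add, E_smul, E_repr]
        simp
      rw [h3, add_mul, map_add] at h2
      have h4 : θ ((n : R) * b j) = n * θ (b j) := by
        rw [← nsmul_eq_mul, map_nsmul, nsmul_eq_mul]
      rw [h4, add_comm] at h2
      exact h2)
  refine ⟨q, hq1, hq2, fun j => ?_⟩
  have h4 : θ ((q : R) * b j) = q * θ (b j) := by
    rw [← nsmul_eq_mul, map_nsmul, nsmul_eq_mul]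
  rw [h4]
  exact hq3 j

theorem c2_mono {a δ : ℝ} (ha : 0 ≤ a) (hδ : 0 < δ) (hδ1 : δ ≤ 1) {m n : ℕ} (h : m ≤ n) :
    a / δ ^ m ≤ a / δ ^ n :=
  div_le_div_of_nonneg_left ha (pow_pos hδ n) (pow_le_pow_of_le_one hδ.le hδ1 h)

/-- a bound for the coordinates of one -/
theorem c2_U : ∃ U : ℕ, ∀ i, |b.repr 1 i| ≤ U := by
  refine ⟨∑ i, (b.repr 1 i).natAbs, fun i => ?_⟩
  rw [Int.abs_eq_natAbs]
  exact_mod_cast Finset.single_le_sum (f := fun i => (b.repr 1 i).natAbs)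
    (fun _ _ => Nat.zero_le _) (Finset.mem_univ i)

/-- Quadratic phases. Let `H` be the shifts of `popular`; by `diff_two` and `lin_inv` (with `δ`
replaced by `δ ^ 2 / 2 ^ (d + 1)`) we have `nn (θ (2 E h b j)) ≤ 2 ^ d / (δ ^ 2 P)` for `h ∈ H`. If
`P` is at least a constant times `δ ^ (-4)`, `rec_ring` for `θ (2 ·)` gives the result; otherwise take
`q = 1` (`nn ≤ 1 / 2`). -/
theorem weyl_two_aux : ∃ C : ℝ, 1 ≤ C ∧ ∀ (P : ℕ) (a c : ι → ℤ) (θ : R →+ ℝ) (γ : ι → ℝ)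
    (γ₀ δ : ℝ), 1 ≤ P → Side a c P → 0 < δ → δ ≤ 1 →
    δ * (P : ℝ) ^ Fintype.card ι ≤ ‖sm a c fun x => θ (E b x ^ 2) + aff γ γ₀ x‖ →
    ∃ q : ℕ, 1 ≤ q ∧ (q : ℝ) ≤ C / δ ^ 8 ∧
      ∀ j, nn (θ ((q : R) * b j)) * (P : ℝ) ^ 2 ≤ C / δ ^ 8 := by
  obtain ⟨U, hU⟩ := c2_U b
  set d := Fintype.card ι with hd
  set L : ℝ := (2 + 2 * (U : ℝ)) ^ d with hLdef
  have hL : 1 ≤ L := by
    apply one_le_pow₀
    have : (0 : ℝ) ≤ U := Nat.cast_nonneg U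
    linarith
  have h2d : (1 : ℝ) ≤ 2 ^ d := one_le_pow₀ (by norm_num)
  set C1 : ℝ := 64 * 2 ^ d * L ^ 2 with hC1
  have hL2 : 1 ≤ L ^ 2 := one_le_pow₀ hL
  have hC11 : 64 ≤ C1 := by
    rw [hC1]
    nlinarith [mul_le_mul h2d hL2 (by norm_num) (by positivity)]
  have hC12 : C1 ≤ C1 ^ 2 := by nlinarith
  refine ⟨C1 ^ 2, by nlinarith, ?_⟩
  intro P a c θ γ γ₀ δ hP hs hδ hδ1 hS
  have hPr : (1 : ℝ) ≤ P := by exact_mod_cast hP
  have hP0 : (0 : ℝ) < P := by linarith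
  have hδ2 : 0 < δ ^ 2 := pow_pos hδ 2
  set σ : ℝ := δ ^ 2 / 2 with hσ
  set ρ : ℝ := σ / L with hρ
  set ε : ℝ := 2 ^ d / (δ ^ 2 * P) with hε
  have hσ0 : 0 < σ := by positivity
  have hσ1 : σ ≤ 1 := by
    have : δ ^ 2 ≤ 1 := pow_le_one₀ hδ.le hδ1
    rw [hσ]
    linarith
  have hL0 : 0 < L := by linarith
  have hρ0 : 0 < ρ := div_pos hσ0 hL0
  have hε0 : 0 < ε := by positivity
  have hρeq : ρ = δ ^ 2 / (2 * L) := by
    rw [hρ, hσ]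
    field_simp
  by_cases hbig : 8 / ρ ^ 2 ≤ P ∧ 32 * ε ≤ ρ
  · obtain ⟨hb1, hb2⟩ := hbig
    have hpop := popular hP hs hδ hS
    obtain ⟨q, hq1, hq2, hq3⟩ := rec_ring b U hU hP (θ.comp (AddMonoidHom.mulLeft (2 : R)))
      (Finset.filter_subset _ _) hσ0 hσ1 hρ hpop hb1 hε0.le hb2
      (by
        intro k hk j
        have h1 := (Finset.mem_filter.1 hk).2
        obtain ⟨γ', h2⟩ := diff_two b θ γ γ₀ k
        rw [h2] at h1
        have h3 := lin_inv hP (side_inter hs k) (δ := δ ^ 2 / 2 ^ (d + 1)) (by positivity) h1 j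
        have h4 : 1 / (2 * (δ ^ 2 / 2 ^ (d + 1)) * (P : ℝ)) = ε := by
          rw [hε]
          field_simp
          ring
        rw [h4] at h3
        have h5 : (θ.comp (AddMonoidHom.mulLeft (2 : R))) (E b k * b j) =
            θ (2 * E b k * b j) := by
          rw [mul_assoc]
          rfl
        rw [h5]
        exact h3)
    refine ⟨2 * q, by omega, ?_, fun j => ?_⟩
    · have h1 : ((2 * q : ℕ) : ℝ) ≤ 2 * (2 / ρ) := by
        push_cast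
        linarith
      have h2 : 2 * (2 / ρ) = (8 * L) / δ ^ 2 := by
        rw [hρeq]
        field_simp
        norm_num
      rw [h2] at h1
      refine h1.trans ((c2_mono (by positivity) hδ hδ1 (show 2 ≤ 8 by norm_num)).trans ?_)
      refine div_le_div_of_nonneg_right ?_ (by positivity)
      have h3 : 8 * L ≤ C1 := by
        rw [hC1]
        nlinarith [mul_le_mul h2d (show L ≤ L ^ 2 by nlinarith) (by positivity) (by positivity)]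
      linarith
    · have h1 := hq3 j
      have h5 : (θ.comp (AddMonoidHom.mulLeft (2 : R))) ((q : R) * b j) =
          θ (((2 * q : ℕ) : R) * b j) := by
        push_cast
        rw [mul_assoc]
        rfl
      rw [h5] at h1
      have h2 : 16 * ε / (ρ ^ 2 * P) * (P : ℝ) ^ 2 = (64 * 2 ^ d * L ^ 2) / δ ^ 6 := by
        rw [hρeq, hε]
        field_simp
        ring
      have h3 := mul_le_mul_of_nonneg_right h1 (show 0 ≤ (P : ℝ) ^ 2 by positivity)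
      rw [h2] at h3
      refine h3.trans ((c2_mono (by positivity) hδ hδ1 (show 6 ≤ 8 by norm_num)).trans ?_)
      exact div_le_div_of_nonneg_right hC12 (by positivity)
  · have hPs : (P : ℝ) ≤ C1 / δ ^ 4 := by
      rw [not_and_or, not_le, not_le] at hbig
      have e1 : δ ^ 4 = δ ^ 2 * δ ^ 2 := by ring
      rcases hbig with h1 | h1
      · have h2 : 8 / ρ ^ 2 = (32 * L ^ 2) / δ ^ 4 := by
          rw [hρeq]
          field_simp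
          norm_num
        rw [h2] at h1
        refine h1.le.trans (div_le_div_of_nonneg_right ?_ (by positivity))
        rw [hC1]
        nlinarith [mul_le_mul_of_nonneg_right h2d (show 0 ≤ L ^ 2 by positivity)]
      · rw [hρeq, hε] at h1
        rw [le_div_iff₀ (by positivity)]
        rw [div_lt_iff₀ (by positivity)] at h1
        have h2 : 32 * (2 ^ d / (δ ^ 2 * (P : ℝ))) * (2 * L) * (δ ^ 2 * P) =
            64 * 2 ^ d * L := by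
          field_simp
          norm_num
        have h3 := mul_lt_mul_of_pos_right h1 (show 0 < δ ^ 2 * (P : ℝ) by positivity)
        rw [h2] at h3
        have h4 : 64 * 2 ^ d * L ≤ C1 := by
          rw [hC1]
          have : L ≤ L ^ 2 := by nlinarith
          exact mul_le_mul_of_nonneg_left this (by positivity)
        have h5 : δ ^ 2 * (δ ^ 2 * (P : ℝ)) = P * δ ^ 4 := by ring
        rw [h5] at h3
        linarith
    refine ⟨1, le_refl _, ?_, fun j => ?_⟩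
    · rw [Nat.cast_one, le_div_iff₀ (by positivity), one_mul]
      have : δ ^ 8 ≤ 1 := pow_le_one₀ hδ.le hδ1
      nlinarith
    · have h1 := nn_le_half (θ (((1 : ℕ) : R) * b j))
      have h2 : (P : ℝ) ^ 2 ≤ (C1 / δ ^ 4) ^ 2 := pow_le_pow_left₀ hP0.le hPs 2
      have h3 : (C1 / δ ^ 4) ^ 2 = C1 ^ 2 / δ ^ 8 := by
        rw [div_pow]
        congr 1
        ring
      rw [h3] at h2
      have h4 := mul_le_mul_of_nonneg_right h1 (show 0 ≤ (P : ℝ) ^ 2 by positivity)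
      nlinarith [show 0 ≤ (P : ℝ) ^ 2 by positivity]

end Pool.Agent.SZW
end

-- from Lib.H21T.W1
section

/-!
# Chunk W1 (S/M): inverse theorem for quadratic Weyl sums (instance of SZW.weyl_two_aux)
-/

namespace Pool.Agent.Lib.H21T

open Finset Pool.Agent.SZW

/-- `Pool.Agent.SZW.weyl_two_aux` for `R = ℤ`, the basis `Module.Basis.singleton Unit ℤ` (`E b x = x ()`), `P = K`, the box `0 ≤ x () < K`
(`Side` holds), the additive map `θ : ℤ →+ ℝ`, `θ m = m γ`, and the affine form with coefficient `β` and constant term `0`: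
the phase at `x` is `γ x ^ 2 + β x`. The sum `sm` over functions `Unit → ℤ` is the sum over `Ico 0 K` in `ℤ` (bijection `x ↦ x ()`), that is the sum over
`range K`. The result for `j = ()` is `nn (θ (q * 1)) * K ^ 2 ≤ C / δ ^ 8`, and `θ (q * 1) = q * γ`. -/
theorem w1 : ∃ C : ℝ, 1 ≤ C ∧ ∀ (K : ℕ) (β γ δ : ℝ), 1 ≤ K → 0 < δ → δ ≤ 1 →
    δ * K ≤ ‖∑ k ∈ range K, ee (β * k + γ * (k : ℝ) ^ 2)‖ →
    ∃ q : ℕ, 1 ≤ q ∧ (q : ℝ) ≤ C / δ ^ 8 ∧ nn (q * γ) * (K : ℝ) ^ 2 ≤ C / δ ^ 8 := by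
  obtain ⟨C, hC, h⟩ := weyl_two_aux (Module.Basis.singleton Unit ℤ)
  refine ⟨C, hC, fun K β γ δ hK hδ hδ1 hS => ?_⟩
  have hE : ∀ x : Unit → ℤ, E (Module.Basis.singleton Unit ℤ) x = x () := by
    intro x
    unfold E
    simp
  have hbox : Pool.Agent.SZW.box (fun _ : Unit => (0 : ℤ)) (fun _ : Unit => (K : ℤ)) =
      (range K).image (fun (k : ℕ) (_ : Unit) => (k : ℤ)) := by
    ext x
    unfold Pool.Agent.SZW.box
    rw [Fintype.mem_piFinset, mem_image]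
    constructor
    · intro hx
      have h1 : (0 : ℤ) ≤ x () ∧ x () < (K : ℤ) := mem_Ico.1 (hx ())
      refine ⟨(x ()).toNat, mem_range.2 ?_, ?_⟩
      · have := Int.toNat_of_nonneg h1.1
        omega
      · funext u
        exact Int.toNat_of_nonneg h1.1
    · rintro ⟨k, hk, rfl⟩ u
      rw [mem_range] at hk
      have h2 : (0 : ℤ) ≤ (k : ℤ) ∧ (k : ℤ) < (K : ℤ) := ⟨Int.natCast_nonneg k, by exact_mod_cast hk⟩
      exact mem_Ico.2 h2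
  let θ : ℤ →+ ℝ := { toFun := fun m => (m : ℝ) * γ, map_zero' := by simp, map_add' := fun a b => by push_cast; ring }
  have hsm : sm (fun _ : Unit => (0 : ℤ)) (fun _ : Unit => (K : ℤ))
      (fun x => θ (E (Module.Basis.singleton Unit ℤ) x ^ 2) + aff (fun _ : Unit => β) 0 x) =
      ∑ k ∈ range K, ee (β * k + γ * (k : ℝ) ^ 2) := by
    unfold sm
    rw [hbox, sum_image (by
      intro a _ b _ hab
      have h5 : (a : ℤ) = (b : ℤ) := congrFun hab ()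
      exact_mod_cast h5)]
    refine sum_congr rfl fun k _ => ?_
    congr 1
    change θ (E (Module.Basis.singleton Unit ℤ) (fun _ => (k : ℤ)) ^ 2) + aff (fun _ : Unit => β) 0 (fun _ => (k : ℤ)) = _
    rw [hE]
    unfold aff
    have e1 : θ (((k : ℤ)) ^ 2) = (((k : ℤ) ^ 2 : ℤ) : ℝ) * γ := rfl
    rw [e1]
    simp
    ring
  obtain ⟨q, h1, h2, h3⟩ := h K (fun _ => 0) (fun _ => (K : ℤ)) θ (fun _ => β) 0 δ hK (by intro i; simp) hδ hδ1 (by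
    rw [hsm, Fintype.card_unit, pow_one]
    exact hS)
  refine ⟨q, h1, h2, ?_⟩
  have h4 := h3 ()
  have e2 : θ ((q : ℤ) * (Module.Basis.singleton Unit ℤ) ()) = (q : ℝ) * γ := by
    have e3 : (Module.Basis.singleton Unit ℤ) () = (1 : ℤ) := by simp
    rw [e3, mul_one]
    change ((q : ℤ) : ℝ) * γ = _
    push_cast
    rfl
  rw [← e2]
  exact h4

end Pool.Agent.Lib.H21T
end

-- from Lib.H21T.Z3
section

/-!
# Chunk Z3 (S/M): divisor bound, minor arcs for the pairs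
-/

namespace Pool.Agent.Lib.H21T

open Finset Pool.Agent.SZW

/-- `Pool.Agent.Lib.H21AP.divisor_bound` with `ε = 1 / 40006`: at most `C m ^ ε ≤ C (u ^ 20003) ^ ε = C u ^ (1 / 2) ≤ u - 1` for large `u`. -/
theorem z3_div : ∃ U0 : ℝ, 1 ≤ U0 ∧ ∀ u : ℝ, U0 ≤ u → ∀ m : ℕ, 1 ≤ m → (m : ℝ) ≤ u ^ 20003 → m.divisors.card ≤ ⌊u⌋₊ := by
  obtain ⟨C, hC, h⟩ := Pool.Agent.Lib.H21AP.divisor_bound (ε := 1 / 40006) (by norm_num)
  refine ⟨(C + 2) ^ 2, ?_, fun u hu m hm hmu => ?_⟩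
  · nlinarith
  · have hu0 : 0 < u := lt_of_lt_of_le (by positivity) hu
    have h1 := h m hm
    have h2 : (m : ℝ) ^ (1 / 40006 : ℝ) ≤ (u ^ 20003) ^ (1 / 40006 : ℝ) :=
      Real.rpow_le_rpow (Nat.cast_nonneg m) hmu (by norm_num)
    have h3 : (u ^ 20003) ^ (1 / 40006 : ℝ) = Real.sqrt u := by
      rw [← Real.rpow_natCast u 20003, ← Real.rpow_mul hu0.le, Real.sqrt_eq_rpow]
      congr 1
      norm_num
    rw [h3] at h2
    have h4 : C + 2 ≤ Real.sqrt u := Real.le_sqrt_of_sq_le hu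
    have h5 : Real.sqrt u * Real.sqrt u = u := Real.mul_self_sqrt hu0.le
    apply Nat.le_floor
    have h6 : C * (m : ℝ) ^ (1 / 40006 : ℝ) ≤ C * Real.sqrt u := mul_le_mul_of_nonneg_left h2 hC.le
    have h7 : C * Real.sqrt u ≤ Real.sqrt u * Real.sqrt u :=
      mul_le_mul_of_nonneg_right (by linarith) (Real.sqrt_nonneg u)
    linarith

/-- `w1`, `s9`, `z3_div` (`x + H ≤ 4 u ^ 2 u ^ 20000 + 3 u ^ 9999 ≤ u ^ 20003`), `s8`. -/
theorem z3 : ∃ U0 : ℝ, 1 ≤ U0 ∧ ∀ u : ℝ, U0 ≤ u → ∀ (A A1 A2 x H : ℕ) (α : ℝ), u ^ 9999 ≤ A → (A : ℝ) ≤ u ^ 10000 →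
    A ≤ A1 → A2 ≤ 2 * A → A ^ 2 ≤ 2 * x → (x : ℝ) ≤ 4 * u ^ 2 * (A : ℝ) ^ 2 → u ^ 9999 ≤ H → (H : ℝ) ≤ 3 * u ^ 9999 →
    ¬ Maj u α → ‖SR α A1 A2 x H‖ ≤ H / (8 * u) := by
  obtain ⟨C, hC, hW⟩ := w1
  obtain ⟨U1, hU1, h9⟩ := s9 C hC
  obtain ⟨U2, hU2, h2⟩ := z3_div
  refine ⟨max (max U1 U2) 7, le_trans (by norm_num) (le_max_right _ _), ?_⟩
  intro u hu A A1 A2 x H α hA1 hA2 hAA1 hAA2 hx1 hx2 hH1 hH2 hmaj
  have hu1 : U1 ≤ u := ((le_max_left _ _).trans (le_max_left _ _)).trans hu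
  have hu2 : U2 ≤ u := ((le_max_right _ _).trans (le_max_left _ _)).trans hu
  have hu7 : 7 ≤ u := (le_max_right _ _).trans hu
  have hu0 : 0 < u := by linarith
  by_contra hcon
  have hα : (H : ℝ) / (8 * u) < ‖SR α A1 A2 x H‖ := not_le.1 hcon
  by_cases h12 : A1 ≤ A2
  · obtain ⟨X, S, Λ, K, D, s0, Q1, τ, δ, η, G, hτ, hD, N⟩ := h9 u hu1 A x H hA1 hA2 hx1 hx2 hH1 hH2
    apply hmaj
    refine s8 G hC hW hAA1 h12 hAA2 ?_ hD N α hα
    intro m hm hmx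
    rw [hτ]
    refine h2 u hu2 m hm ?_
    have h3 : (m : ℝ) ≤ x + H := by exact_mod_cast hmx.le
    have h4 : (A : ℝ) ^ 2 ≤ (u ^ 10000) ^ 2 := pow_le_pow_left₀ (Nat.cast_nonneg A) hA2 2
    have h5 : (x : ℝ) ≤ 4 * u ^ 20002 := by
      refine hx2.trans ?_
      have e1 : 4 * u ^ 20002 = 4 * u ^ 2 * (u ^ 10000) ^ 2 := by
        rw [← pow_mul, mul_assoc, ← pow_add]
      rw [e1]
      exact mul_le_mul_of_nonneg_left h4 (by positivity)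
    have h6 : u ^ 9999 ≤ u ^ 20002 := pow_le_pow_right₀ (by linarith) (by norm_num)
    have h7 : u ^ 20003 = u ^ 20002 * u := pow_succ u 20002
    have h8 : 7 * u ^ 20002 ≤ u ^ 20002 * u := by
      rw [mul_comm]
      exact mul_le_mul_of_nonneg_left hu7 (by positivity)
    rw [h7]
    linarith
  · have h3 : Rg A1 A2 x H = ∅ := by
      unfold Rg
      rw [Ico_eq_empty (fun h => h12 h.le), empty_product, filter_empty]
    unfold SR at hα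
    rw [h3, sum_empty, norm_zero] at hα
    have h4 : 0 ≤ (H : ℝ) / (8 * u) := by positivity
    linarith

end Pool.Agent.Lib.H21T
end

-- from Lib.H59T.G1
section

/-!
# Project H59T, chunk G1 (M): Lemma G for prime moduli
-/

open Finset

namespace Pool.Agent.Lib.H59T

theorem g1_double (q : ℕ) (hq : Odd q) (x y : ZMod q) (h : x + x = y + y) : x = y := by
  obtain ⟨k, hk⟩ := hq
  have h0 : (2 * (k : ZMod q) + 1) = 0 := by
    have : ((2 * k + 1 : ℕ) : ZMod q) = 0 := by rw [← hk]; exact ZMod.natCast_self q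
    push_cast at this
    exact this
  linear_combination (-(k : ZMod q)) * h + (x - y) * h0

theorem g1_sub (q : ℕ) [NeZero q] (hq : Odd q) (H : ZMod q → ZMod q → ℂ) :
    ∑ z : ZMod q, ∑ y : ZMod q, H (z + y) (z - y) = ∑ s : ZMod q, ∑ t : ZMod q, H s t := by
  rw [← Fintype.sum_prod_type' (f := fun z y : ZMod q => H (z + y) (z - y)), ← Fintype.sum_prod_type' (f := fun z y : ZMod q => H z y)]
  have hinj : Function.Injective (fun p : ZMod q × ZMod q => (p.1 + p.2, p.1 - p.2)) := by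
    rintro ⟨a, b⟩ ⟨c, d⟩ h
    simp only [Prod.mk.injEq] at h
    obtain ⟨h1, h2⟩ := h
    have h3 : a = c := g1_double q hq a c (by linear_combination h1 + h2)
    have h4 : b = d := by rw [h3] at h1; exact add_left_cancel h1
    rw [h3, h4]
  have hbij : Function.Bijective (fun p : ZMod q × ZMod q => (p.1 + p.2, p.1 - p.2)) :=
    Finite.injective_iff_bijective.1 hinj
  exact hbij.sum_comp (fun p : ZMod q × ZMod q => H p.1 p.2)

theorem g1_sq {ι : Type*} [Fintype ι] (f : ι → ℂ) : ((‖∑ y, f y‖ ^ 2 : ℝ) : ℂ) = ∑ y1, ∑ y2, f y1 * star (f y2) := by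
  rw [← Finset.sum_mul_sum, ← star_sum]
  have := Complex.mul_conj (∑ y, f y)
  rw [Complex.normSq_eq_norm_sq] at this
  rw [← this]
  rfl

/-- The expansion of `GS`, for odd `q`. Proof. Expand the square: sum over `z1, z2, y1, y2` of
`χ(z1+y1) star χ(z2+y1) star χ(z1+y2) χ(z2+y2) · W(z1-y1) W'(z2-y1) star W(z1-y2) star W'(z2-y2)`; substitute
`s = z1 + y1`, `t = z1 - y1` (bijection, `2` is invertible), `a = y2 - y1`, `b = z2 - z1`: the arguments are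
`s, s+b, s+a, s+a+b` and `t, t+b, t-a, t+b-a`. -/
theorem G1_expand (q : ℕ) [NeZero q] (hq : Odd q) (χ : DirichletCharacter ℂ q) (W W' : ZMod q → ℂ) :
    ((GS χ W W' : ℝ) : ℂ) = ∑ a : ZMod q, ∑ b : ZMod q, U4 χ a b *
      ∑ t : ZMod q, W t * W' (t + b) * star (W (t - a)) * star (W' (t + b - a)) := by
  unfold GS U4
  push_cast
  have e1 : ∀ z1 z2 : ZMod q, ((‖∑ y : ZMod q, χ (z1 + y) * star (χ (z2 + y)) * W (z1 - y) * W' (z2 - y)‖ : ℂ)) ^ 2 =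
      ∑ y1 : ZMod q, ∑ y2 : ZMod q, (χ (z1 + y1) * star (χ (z2 + y1)) * W (z1 - y1) * W' (z2 - y1)) *
        star (χ (z1 + y2) * star (χ (z2 + y2)) * W (z1 - y2) * W' (z2 - y2)) := by
    intro z1 z2
    rw [← g1_sq]
    push_cast
    rfl
  simp only [e1]
  -- substitute `z2 = z1 + b`, `y2 = y1 + a`
  have e2 : ∀ z1 : ZMod q, ∑ z2 : ZMod q, ∑ y1 : ZMod q, ∑ y2 : ZMod q,
      (χ (z1 + y1) * star (χ (z2 + y1)) * W (z1 - y1) * W' (z2 - y1)) *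
        star (χ (z1 + y2) * star (χ (z2 + y2)) * W (z1 - y2) * W' (z2 - y2)) =
      ∑ b : ZMod q, ∑ y1 : ZMod q, ∑ a : ZMod q,
      (χ (z1 + y1) * star (χ (z1 + b + y1)) * W (z1 - y1) * W' (z1 + b - y1)) *
        star (χ (z1 + (y1 + a)) * star (χ (z1 + b + (y1 + a))) * W (z1 - (y1 + a)) * W' (z1 + b - (y1 + a))) := by
    intro z1
    rw [← Equiv.sum_comp (Equiv.addLeft z1)]
    refine Finset.sum_congr rfl fun b _ => Finset.sum_congr rfl fun y1 _ => ?_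
    rw [← Equiv.sum_comp (Equiv.addLeft y1)]
    rfl
  simp only [e2]
  have e3 : ∀ a b : ZMod q, (∑ s : ZMod q, χ s * star (χ (s + a)) * star (χ (s + b)) * χ (s + a + b)) *
      ∑ t : ZMod q, W t * W' (t + b) * star (W (t - a)) * star (W' (t + b - a)) =
      ∑ z : ZMod q, ∑ y : ZMod q, (χ (z + y) * star (χ (z + b + y)) * W (z - y) * W' (z + b - y)) *
        star (χ (z + (y + a)) * star (χ (z + b + (y + a))) * W (z - (y + a)) * W' (z + b - (y + a))) := by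
    intro a b
    rw [Finset.sum_mul_sum, ← g1_sub q hq]
    refine Finset.sum_congr rfl fun z _ => Finset.sum_congr rfl fun y _ => ?_
    have i1 : z + y + a = z + (y + a) := by ring
    have i2 : z + y + b = z + b + y := by ring
    have i3 : z + (y + a) + b = z + b + (y + a) := by ring
    have i4 : z - y + b = z + b - y := by ring
    have i5 : z - y - a = z - (y + a) := by ring
    have i6 : z + b - y - a = z + b - (y + a) := by ring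
    rw [i1, i2, i3, i4, i5, i6]
    simp only [star_mul', star_star]
    ring
  simp only [e3]
  -- swap the sums
  rw [Finset.sum_comm]
  rw [Finset.sum_comm (s := univ) (t := univ) (f := fun a b => ∑ z : ZMod q, ∑ y : ZMod q, (χ (z + y) * star (χ (z + b + y)) * W (z - y) * W' (z + b - y)) *
        star (χ (z + (y + a)) * star (χ (z + b + (y + a))) * W (z - (y + a)) * W' (z + b - (y + a))))]
  refine Finset.sum_congr rfl fun b _ => ?_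
  rw [Finset.sum_comm (s := univ) (t := univ) (f := fun a z => ∑ y : ZMod q, (χ (z + y) * star (χ (z + b + y)) * W (z - y) * W' (z + b - y)) *
        star (χ (z + (y + a)) * star (χ (z + b + (y + a))) * W (z - (y + a)) * W' (z + b - (y + a))))]
  refine Finset.sum_congr rfl fun z _ => ?_
  rw [Finset.sum_comm]

/-- Proof. `G1_expand`; the inner sum is at most `l`; Cauchy-Schwarz over `a, b` and `K4`:
`l (l² · 13 l³)^(1/2) ≤ 4 l^(7/2)`. -/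
theorem G1 (l : ℕ) [Fact l.Prime] (hl : l ≠ 2) (χ : DirichletCharacter ℂ l) (hχ : χ ≠ 1)
    (W W' : ZMod l → ℂ) (hW : ∀ t, ‖W t‖ ≤ 1) (hW' : ∀ t, ‖W' t‖ ≤ 1) :
    GS χ W W' ≤ 4 * (l : ℝ) ^ (7 / 2 : ℝ) := by
  have hp : l.Prime := Fact.out
  have hodd : Odd l := hp.odd_of_ne_two hl
  have hl0 : (0 : ℝ) ≤ l := Nat.cast_nonneg l
  have h0 : 0 ≤ GS χ W W' := by
    unfold GS
    positivity
  have h1 : GS χ W W' ≤ (l : ℝ) * ∑ a : ZMod l, ∑ b : ZMod l, ‖U4 χ a b‖ := by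
    have e1 : GS χ W W' = ‖((GS χ W W' : ℝ) : ℂ)‖ := by
      rw [Complex.norm_real, Real.norm_of_nonneg h0]
    rw [e1, G1_expand l hodd, Finset.mul_sum]
    refine (norm_sum_le _ _).trans (Finset.sum_le_sum fun a _ => ?_)
    rw [Finset.mul_sum]
    refine (norm_sum_le _ _).trans (Finset.sum_le_sum fun b _ => ?_)
    rw [norm_mul, mul_comm]
    refine mul_le_mul_of_nonneg_right ?_ (norm_nonneg _)
    refine (norm_sum_le _ _).trans ?_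
    calc ∑ t : ZMod l, ‖W t * W' (t + b) * star (W (t - a)) * star (W' (t + b - a))‖ ≤ ∑ t : ZMod l, (1 : ℝ) := by
          refine Finset.sum_le_sum fun t _ => ?_
          rw [norm_mul, norm_mul, norm_mul, norm_star, norm_star]
          have k1 := hW t
          have k2 := hW' (t + b)
          have k3 := hW (t - a)
          have k4 := hW' (t + b - a)
          exact mul_le_one₀ (mul_le_one₀ (mul_le_one₀ k1 (norm_nonneg _) k2) (norm_nonneg _) k3) (norm_nonneg _) k4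
      _ = l := by
          rw [Finset.sum_const, Finset.card_univ, ZMod.card, nsmul_eq_mul, mul_one]
  have h2 : (∑ a : ZMod l, ∑ b : ZMod l, ‖U4 χ a b‖) ^ 2 ≤ (l : ℝ) ^ 2 * (13 * (l : ℝ) ^ 3) := by
    have k := K4 l hl χ hχ
    rw [← Fintype.sum_prod_type' (f := fun a b : ZMod l => ‖U4 χ a b‖)]
    rw [← Fintype.sum_prod_type' (f := fun a b : ZMod l => ‖U4 χ a b‖ ^ 2)] at k
    have k2 := sq_sum_le_card_mul_sum_sq (s := (univ : Finset (ZMod l × ZMod l))) (f := fun p => ‖U4 χ p.1 p.2‖)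
    refine k2.trans ?_
    have k3 : ((univ : Finset (ZMod l × ZMod l)).card : ℝ) = (l : ℝ) ^ 2 := by
      rw [Finset.card_univ, Fintype.card_prod, ZMod.card]
      push_cast
      ring
    rw [k3]
    exact mul_le_mul_of_nonneg_left k (by positivity)
  refine h1.trans ?_
  have h3 : (4 * (l : ℝ) ^ (7 / 2 : ℝ)) ^ 2 = 16 * (l : ℝ) ^ 7 := by
    rw [mul_pow, ← Real.rpow_natCast ((l : ℝ) ^ (7 / 2 : ℝ)) 2, ← Real.rpow_mul hl0, ← Real.rpow_natCast (l : ℝ) 7]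
    norm_num
  have h4 : 0 ≤ 4 * (l : ℝ) ^ (7 / 2 : ℝ) := by positivity
  refine (abs_le_of_sq_le_sq' ?_ h4).2
  rw [h3, mul_pow]
  calc (l : ℝ) ^ 2 * (∑ a : ZMod l, ∑ b : ZMod l, ‖U4 χ a b‖) ^ 2 ≤ (l : ℝ) ^ 2 * ((l : ℝ) ^ 2 * (13 * (l : ℝ) ^ 3)) :=
        mul_le_mul_of_nonneg_left h2 (by positivity)
    _ = 13 * (l : ℝ) ^ 7 := by ring
    _ ≤ 16 * (l : ℝ) ^ 7 := by
        have : 0 ≤ (l : ℝ) ^ 7 := by positivity
        linarith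

end Pool.Agent.Lib.H59T
end

-- from Lib.H59T.G5
section

/-!
# Project H59T, chunk G5 (M): Lemma G
-/

open Finset

namespace Pool.Agent.Lib.H59T

/-- The generic step: averaging over a common shift. -/
theorem g5_gen {q : ℕ} [NeZero q] (χ : DirichletCharacter ℂ q) (W W' : ZMod q → ℂ)
    (hW : ∀ t, ‖W t‖ ≤ 1) (hW' : ∀ t, ‖W' t‖ ≤ 1) (c : ZMod q)
    (p : ZMod q × ZMod q × ZMod q × ZMod q → Prop) [DecidablePred p]
    (h0 : ∀ x : ZMod q × ZMod q × ZMod q × ZMod q, ¬ p x →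
      ∑ v : ZMod q, χ (x.1 + x.2.2.1 + 2 * c * v) *
        star (χ (x.2.1 + x.2.2.1 + 2 * c * v)) * star (χ (x.1 + x.2.2.2 + 2 * c * v)) *
        χ (x.2.1 + x.2.2.2 + 2 * c * v) = 0) :
    GS χ W W' ≤ ((univ.filter p).card : ℝ) := by
  set F : ZMod q → ZMod q → ZMod q → ℂ := fun z1 z2 y =>
    χ (z1 + y) * star (χ (z2 + y)) * W (z1 - y) * W' (z2 - y) with hF
  set T : ZMod q × ZMod q × ZMod q × ZMod q → ℂ := fun x =>
    F x.1 x.2.1 x.2.2.1 * star (F x.1 x.2.1 x.2.2.2) with hT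
  set D : ZMod q × ZMod q × ZMod q × ZMod q → ℂ := fun x =>
    W (x.1 - x.2.2.1) * W' (x.2.1 - x.2.2.1) * star (W (x.1 - x.2.2.2)) * star (W' (x.2.1 - x.2.2.2)) with hD
  set Cf : ZMod q × ZMod q × ZMod q × ZMod q → ZMod q → ℂ := fun x v =>
    χ (x.1 + x.2.2.1 + 2 * c * v) *
        star (χ (x.2.1 + x.2.2.1 + 2 * c * v)) * star (χ (x.1 + x.2.2.2 + 2 * c * v)) *
        χ (x.2.1 + x.2.2.2 + 2 * c * v) with hC
  have h1 : ((GS χ W W' : ℝ) : ℂ) = ∑ x, T x := by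
    have e1 : ∀ z1 z2 : ZMod q, (((‖∑ y : ZMod q, F z1 z2 y‖ ^ 2 : ℝ)) : ℂ) =
        ∑ y1, ∑ y2, F z1 z2 y1 * star (F z1 z2 y2) := by
      intro z1 z2
      have e2 : (((‖∑ y : ZMod q, F z1 z2 y‖ ^ 2 : ℝ)) : ℂ) =
          (∑ y : ZMod q, F z1 z2 y) * star (∑ y : ZMod q, F z1 z2 y) := by
        rw [Complex.star_def, Complex.mul_conj, Complex.normSq_eq_norm_sq]
      rw [e2, star_sum, Finset.sum_mul_sum]
    unfold GS
    rw [Complex.ofReal_sum, Fintype.sum_prod_type]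
    refine Finset.sum_congr rfl fun z1 _ => ?_
    rw [Complex.ofReal_sum, Fintype.sum_prod_type]
    refine Finset.sum_congr rfl fun z2 _ => ?_
    rw [Fintype.sum_prod_type]
    exact e1 z1 z2
  have h2 : ∀ v : ZMod q, ∑ x, D x * Cf x v = ∑ x, T x := by
    intro v
    rw [← Equiv.sum_comp (Equiv.addRight ((c * v, c * v, c * v, c * v) :
      ZMod q × ZMod q × ZMod q × ZMod q)) T]
    refine Finset.sum_congr rfl fun x _ => ?_
    obtain ⟨z1, z2, y1, y2⟩ := x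
    simp only [hT, hF, hD, hC, Equiv.coe_addRight, Prod.mk_add_mk, star_mul']
    have a1 : z1 + c * v - (y1 + c * v) = z1 - y1 := by ring
    have a2 : z2 + c * v - (y1 + c * v) = z2 - y1 := by ring
    have a3 : z1 + c * v - (y2 + c * v) = z1 - y2 := by ring
    have a4 : z2 + c * v - (y2 + c * v) = z2 - y2 := by ring
    have b1 : z1 + c * v + (y1 + c * v) = z1 + y1 + 2 * c * v := by ring
    have b2 : z2 + c * v + (y1 + c * v) = z2 + y1 + 2 * c * v := by ring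
    have b3 : z1 + c * v + (y2 + c * v) = z1 + y2 + 2 * c * v := by ring
    have b4 : z2 + c * v + (y2 + c * v) = z2 + y2 + 2 * c * v := by ring
    rw [a1, a2, a3, a4, b1, b2, b3, b4, star_star]
    ring
  have hq0 : (0 : ℝ) < q := by exact_mod_cast Nat.pos_of_ne_zero (NeZero.ne q)
  have h3 : ((q * GS χ W W' : ℝ) : ℂ) = ∑ x, D x * ∑ v, Cf x v := by
    have e1 : ∑ x, D x * ∑ v, Cf x v = ∑ v, ∑ x, D x * Cf x v := by
      rw [Finset.sum_comm]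
      refine Finset.sum_congr rfl fun x _ => ?_
      rw [Finset.mul_sum]
    rw [e1, Finset.sum_congr rfl fun v _ => h2 v, Finset.sum_const, Finset.card_univ, ZMod.card, nsmul_eq_mul, ← h1]
    push_cast
    ring
  have hχ1 : ∀ s, ‖χ s‖ ≤ 1 := fun s => DirichletCharacter.norm_le_one χ s
  have hDn : ∀ x, ‖D x‖ ≤ 1 := by
    intro x
    simp only [hD, norm_mul, norm_star]
    have w1 := hW (x.1 - x.2.2.1)
    have w2 := hW' (x.2.1 - x.2.2.1)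
    have w3 := hW (x.1 - x.2.2.2)
    have w4 := hW' (x.2.1 - x.2.2.2)
    exact mul_le_one₀ (mul_le_one₀ (mul_le_one₀ w1 (norm_nonneg _) w2) (norm_nonneg _) w3) (norm_nonneg _) w4
  have hCn : ∀ x v, ‖Cf x v‖ ≤ 1 := by
    intro x v
    simp only [hC, norm_mul, norm_star]
    exact mul_le_one₀ (mul_le_one₀ (mul_le_one₀ (hχ1 _) (norm_nonneg _) (hχ1 _)) (norm_nonneg _) (hχ1 _))
      (norm_nonneg _) (hχ1 _)
  have h4 : q * GS χ W W' ≤ ∑ x, (if p x then (q : ℝ) else 0) := by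
    have hG0 : 0 ≤ GS χ W W' := by
      unfold GS
      positivity
    have e1 : q * GS χ W W' = ‖((q * GS χ W W' : ℝ) : ℂ)‖ := by
      rw [Complex.norm_real, Real.norm_of_nonneg (by positivity)]
    rw [e1, h3]
    refine (norm_sum_le _ _).trans (Finset.sum_le_sum fun x _ => ?_)
    split_ifs with hp
    · rw [norm_mul]
      have e2 : ‖∑ v, Cf x v‖ ≤ q := by
        refine (norm_sum_le _ _).trans ?_
        calc ∑ v : ZMod q, ‖Cf x v‖ ≤ ∑ _v : ZMod q, (1 : ℝ) := Finset.sum_le_sum fun v _ => hCn x v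
          _ = q := by rw [Finset.sum_const, Finset.card_univ, ZMod.card, nsmul_eq_mul, mul_one]
      calc ‖D x‖ * ‖∑ v, Cf x v‖ ≤ 1 * q := mul_le_mul (hDn x) e2 (norm_nonneg _) zero_le_one
        _ = q := one_mul _
    · have e3 : ∑ v, Cf x v = 0 := h0 x hp
      rw [e3, mul_zero, norm_zero]
  rw [← Finset.sum_filter, Finset.sum_const, nsmul_eq_mul, mul_comm] at h4
  exact le_of_mul_le_mul_right h4 hq0

/-- Prime powers. Proof. `n = a/2`, `m = a - n`. `GS` is the sum over `z1, z2, y1, y2` of `T(z1,z2,y1,y2)` (see `G1_expand`, first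
step). For each `v` the sum does not change if `z_i, y_j` are replaced by `z_i + l^m v, y_j + l^m v`; the arguments of `W`, `W'` do
not change. So `l^a GS = ∑_{z,y} W.. ∑_v χ(s11 + 2 l^m v) ..`, the inner sum is `0` unless `l^n` divides `2 (..)(..)(..)` (`G3`)
and at most `l^a` in absolute value. `G4`: `GS ≤ 6 l^(4a) l^(-n/3)`, and `n ≥ a/3`. -/
theorem G5_pow (l a : ℕ) (hl : l.Prime) (ha : 2 ≤ a) [NeZero (l ^ a)] (χ : DirichletCharacter ℂ (l ^ a))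
    (hχ : χ.IsPrimitive) (W W' : ZMod (l ^ a) → ℂ) (hW : ∀ t, ‖W t‖ ≤ 1) (hW' : ∀ t, ‖W' t‖ ≤ 1) :
    GS χ W W' ≤ 6 * ((l ^ a : ℕ) : ℝ) ^ 4 * (l : ℝ) ^ (-(a / 9 : ℝ)) := by
  set n := a / 2 with hn
  have h1 := g5_gen χ W W' hW hW' ((l : ZMod (l ^ a)) ^ (a - n))
    (fun x => l ^ n ∣ (2 * (x.1 + x.2.1 + x.2.2.1 + x.2.2.2) * (x.1 - x.2.1) *
        (x.2.2.1 - x.2.2.2)).val)
    (fun x hx => G3 l a (a - n) n hl (by omega) (by omega) (by omega) χ hχ x.1 x.2.1 x.2.2.1 x.2.2.2 hx)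
  refine h1.trans ((G4 l a n hl (by omega)).trans ?_)
  refine mul_le_mul_of_nonneg_left ?_ (by positivity)
  refine Real.rpow_le_rpow_of_exponent_le (by exact_mod_cast hl.one_lt.le) ?_
  have h2 : (a : ℝ) ≤ 3 * n := by exact_mod_cast (by omega : a ≤ 3 * n)
  linarith

theorem g5_two : ∀ x : ZMod 2, x ≠ 0 → x = 1 := by decide

theorem g5_prime (q l : ℕ) (hql : q = l) (hl : l.Prime) [NeZero q] (χ : DirichletCharacter ℂ q)
    (hχ : χ.IsPrimitive) (W W' : ZMod q → ℂ) (hW : ∀ t, ‖W t‖ ≤ 1) (hW' : ∀ t, ‖W' t‖ ≤ 1) :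
    GS χ W W' ≤ 4 * (l : ℝ) ^ (7 / 2 : ℝ) := by
  subst hql
  have := Fact.mk hl
  have h1 : χ ≠ 1 := by
    intro h
    rw [h, DirichletCharacter.isPrimitive_def, DirichletCharacter.conductor_one] at hχ
    exact hl.one_lt.ne hχ
  have h2 : q ≠ 2 := by
    intro h
    subst h
    refine h1 (MulChar.ext fun u => ?_)
    have hu : u = 1 := by
      apply Units.ext
      have h3 : (u : ZMod 2) ≠ 0 := u.ne_zero
      exact g5_two _ h3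
    rw [hu]
    simp
  exact G1 q h2 χ h1 W W' hW hW'

/-- **Lemma G.** Proof. `a ≥ 2`: `G5_pow`. `a = 1`: `l ≠ 2` (there is no primitive character modulo `2`: the only character
modulo `2` is `1`, whose conductor is `1`), `χ ≠ 1`; `G1` (transport along `l^1 = l`). -/
theorem G5 (l a : ℕ) (hl : l.Prime) (ha : 1 ≤ a) [NeZero (l ^ a)] (χ : DirichletCharacter ℂ (l ^ a))
    (hχ : χ.IsPrimitive) (W W' : ZMod (l ^ a) → ℂ) (hW : ∀ t, ‖W t‖ ≤ 1) (hW' : ∀ t, ‖W' t‖ ≤ 1) :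
    GS χ W W' ≤ 6 * ((l ^ a : ℕ) : ℝ) ^ 4 * (l : ℝ) ^ (-(a / 9 : ℝ)) := by
  rcases Nat.lt_or_ge a 2 with h | h
  · have ha1 : a = 1 := by omega
    subst ha1
    refine (g5_prime (l ^ 1) l (pow_one l) hl χ hχ W W' hW hW').trans ?_
    have hl1 : (1 : ℝ) ≤ l := by exact_mod_cast hl.one_lt.le
    have hl0 : (0 : ℝ) < l := by linarith
    have e1 : ((l ^ 1 : ℕ) : ℝ) ^ 4 * (l : ℝ) ^ (-(((1 : ℕ) : ℝ) / 9 : ℝ)) = (l : ℝ) ^ (4 - 1 / 9 : ℝ) := by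
      rw [pow_one, ← Real.rpow_natCast, ← Real.rpow_add hl0]
      congr 1
      push_cast
      ring
    rw [mul_assoc, e1]
    have e2 : (l : ℝ) ^ (7 / 2 : ℝ) ≤ (l : ℝ) ^ (4 - 1 / 9 : ℝ) :=
      Real.rpow_le_rpow_of_exponent_le hl1 (by norm_num)
    have e3 : 0 < (l : ℝ) ^ (7 / 2 : ℝ) := Real.rpow_pos_of_pos hl0 _
    nlinarith
  · exact G5_pow l a hl h χ hχ W W' hW hW'

end Pool.Agent.Lib.H59T
end

-- from Lib.H21T.Z7
section

/-!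
# Chunk Z7 (S): long intervals
-/

namespace Pool.Agent.Lib.H21T

open Finset Pool.Agent.SZW

/-- Strong induction on `H`: if `H ≤ 3 h0` it is the hypothesis; otherwise split off an interval of length `⌈h0⌉₊` (`h0 ≤ ⌈h0⌉₊ ≤ h0 + 1 ≤ 2 h0`), the rest has length
`> 3 h0 - 2 h0`. -/
theorem z7 (F : ℕ → ℂ) (h0 c : ℝ) (h1 : 1 ≤ h0) (hc : 0 ≤ c)
    (h : ∀ y k : ℕ, h0 ≤ k → (k : ℝ) ≤ 3 * h0 → ‖∑ m ∈ Ico y (y + k), F m‖ ≤ c * k) (x H : ℕ) (hH : h0 ≤ H) :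
    ‖∑ m ∈ Ico x (x + H), F m‖ ≤ c * H := by
  induction H using Nat.strong_induction_on generalizing x with
  | _ H ih =>
    by_cases h3 : (H : ℝ) ≤ 3 * h0
    · exact h x H hH h3
    · push Not at h3
      set k := ⌈h0⌉₊ with hk
      have hk0 : h0 ≤ k := Nat.le_ceil h0
      have hk1 : (k : ℝ) < h0 + 1 := Nat.ceil_lt_add_one (by linarith)
      have hkH : k ≤ H := by
        have : (k : ℝ) ≤ H := by linarith
        exact_mod_cast this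
      have hkpos : 1 ≤ k := by
        have : (1 : ℝ) ≤ k := by linarith
        exact_mod_cast this
      obtain ⟨j, hj⟩ := Nat.exists_eq_add_of_le hkH
      have hjr : (H : ℝ) = k + j := by rw [hj]; push_cast; ring
      have hj1 : h0 ≤ (j : ℝ) := by linarith
      have hjH : j < H := by omega
      have hsum : ∑ m ∈ Ico x (x + H), F m
          = ∑ m ∈ Ico x (x + k), F m + ∑ m ∈ Ico (x + k) (x + k + j), F m := by
        rw [hj, ← Nat.add_assoc]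
        exact (Finset.sum_Ico_consecutive F (by omega) (by omega)).symm
      rw [hsum]
      calc ‖∑ m ∈ Ico x (x + k), F m + ∑ m ∈ Ico (x + k) (x + k + j), F m‖
          ≤ ‖∑ m ∈ Ico x (x + k), F m‖ + ‖∑ m ∈ Ico (x + k) (x + k + j), F m‖ := norm_add_le _ _
        _ ≤ c * k + c * j := add_le_add (h x k hk0 (by linarith)) (ih j hjH (x + k) hj1)
        _ = c * H := by rw [hjr]; ring

end Pool.Agent.Lib.H21T
end

-- from Lib.H9S.Defs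
section

/-!
# Project H9S (MP_443e5f_co, candidate T, module STAR): from the inverse theorem for `Λ` to the operator bound

`INV`: if `T(Λ; W, f, g)` is large, `g` has a large Fourier coefficient (module A + B + C + D, proved in `H37T`).
Here: the same for `lp`, for the projections `Lk Q' Y = lp * kern` of low level `Q'` (translation), hence (with
`H59T.LK_box`) for `E = lp - Lk Q (X / Q^2)`; dual functions; exponential sums of `E`. See `PROOF.md`.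
-/

namespace Pool.Agent.H9S

open Finset Pool.Agent.H44W
open Pool.Agent.Lib.H68T (lp Lk kern tent cq)

noncomputable section

/-- Functions bounded by `1`. -/
def Bd (f : ℤ → ℂ) : Prop := ∀ x, ‖f x‖ ≤ 1

/-- All Fourier coefficients of `g` over `T` are at most `κ`. -/
def FB (T : Finset ℤ) (g : ℤ → ℂ) (κ : ℝ) : Prop := ∀ th : ℝ, ‖∑ z ∈ T, g z * ee (th * z)‖ ≤ κ

/-- The bilinear form over `S × T`. -/
def BF (S T : Finset ℤ) (F W f g : ℤ → ℂ) : ℂ := ∑ x ∈ S, ∑ y ∈ T, f x * g y * F (x + y) * W (x - y)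

/-- The inverse theorem for the von Mangoldt function (proved in `H37T`, the same proposition). -/
def INV : Prop :=
  ∀ c1 : ℝ, 0 < c1 → ∃ c2 : ℝ, 0 < c2 ∧ ∃ n0 : ℕ, ∀ n : ℕ, n0 ≤ n → ∀ W f g : ℤ → ℂ,
    (∀ x, ‖W x‖ ≤ 1) → (∀ x, ‖f x‖ ≤ 1) → (∀ x, ‖g x‖ ≤ 1) →
    (∀ th : ℝ, ‖∑ z ∈ Icc (1:ℤ) n, g z * ee (th * z)‖ ≤ (n:ℝ) ^ (1 - c1)) →
    ‖TF n (fun m => ((ArithmeticFunction.vonMangoldt m.toNat : ℝ) : ℂ)) W f g‖ ≤ (n:ℝ) ^ (2 - c2)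

/-- `lp` with complex values. -/
def lc (m : ℤ) : ℂ := ((lp m : ℝ) : ℂ)

/-- The projection with complex values. -/
def Lc (Q Y : ℕ) (m : ℤ) : ℂ := ((Lk Q Y m : ℝ) : ℂ)

/-- The error `E = lp - Lk Q (X / Q^2)`. -/
def Ec (Q X : ℕ) (m : ℤ) : ℂ := lc m - Lc Q (X / Q ^ 2) m

/-- The range of `x`. -/
def Sx (X : ℕ) : Finset ℤ := Ico (2 * (X:ℤ)) (3 * X)

/-- The range of `y`. -/
def Sy (X : ℕ) : Finset ℤ := Ioo (-(X:ℤ)) X

/-- The inverse theorem for `lp`: `f` or `g` without large Fourier coefficient. -/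
def INVL : Prop :=
  ∀ c1 : ℝ, 0 < c1 → ∃ c2 : ℝ, 0 < c2 ∧ ∃ n0 : ℕ, ∀ n : ℕ, n0 ≤ n → ∀ W f g : ℤ → ℂ,
    Bd W → Bd f → Bd g →
    (FB (Icc (1:ℤ) n) g ((n:ℝ) ^ (1 - c1)) ∨ FB (Icc (1:ℤ) n) f ((n:ℝ) ^ (1 - c1))) →
    ‖TF n lc W f g‖ ≤ (n:ℝ) ^ (2 - c2)

/-- The inverse theorem for `lp` on boxes. -/
def INVB : Prop :=
  ∀ c1 : ℝ, 0 < c1 → ∃ c2 : ℝ, 0 < c2 ∧ ∃ n0 : ℕ, ∀ n : ℕ, n0 ≤ n → ∀ (a : ℤ) (S T : Finset ℤ),
    (∀ x ∈ S, a + 1 ≤ x ∧ x ≤ a + 4 * n) → (∀ y ∈ T, 1 - a ≤ y ∧ y ≤ 4 * n - a) → ∀ W f g : ℤ → ℂ,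
    Bd W → Bd f → Bd g → (FB T g ((n:ℝ) ^ (1 - c1)) ∨ FB S f ((n:ℝ) ^ (1 - c1))) →
    ‖BF S T lc W f g‖ ≤ (n:ℝ) ^ (2 - c2)

/-- The inverse theorem for `lp` and for the projections of level `Q'` (loss `Q'^3`). -/
def INVK : Prop :=
  ∀ c1 : ℝ, 0 < c1 → ∃ c2 : ℝ, 0 < c2 ∧ ∃ n0 : ℕ, ∀ n : ℕ, n0 ≤ n → ∀ X : ℕ, 1 ≤ X → X ≤ n →
    ∀ W f g : ℤ → ℂ, Bd W → Bd f → Bd g →
    (FB (Sy X) g ((n:ℝ) ^ (1 - c1)) ∨ FB (Sx X) f ((n:ℝ) ^ (1 - c1))) →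
    ‖BF (Sx X) (Sy X) lc W f g‖ ≤ (n:ℝ) ^ (2 - c2) ∧
    ∀ Q Y : ℕ, Y < X → ‖BF (Sx X) (Sy X) (Lc Q Y) W f g‖ ≤ (Q:ℝ) ^ 3 * (n:ℝ) ^ (2 - c2)

/-- The difference of the projections of the levels `Q` and `Q' ≤ Q` (theorem `H59T.LK_box`) at fixed `Q`, `X`. -/
def LKd (C : ℝ) (Q X : ℕ) : Prop :=
  ∀ Q' : ℕ, 1 ≤ Q' → Q' ≤ Q → ∀ W f g : ℤ → ℂ, Bd W → Bd f → Bd g →
    ‖BF (Sx X) (Sy X) (fun m => Lc Q (X / Q ^ 2) m - Lc Q' (X / Q ^ 2) m) W f g‖ ≤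
      C * (X:ℝ) ^ 2 * (Q':ℝ) ^ (-(1 / 1152 : ℝ))

/-- The inverse theorem for `E`. The constant `c2` depends only on `Cr` (`log n ≤ Cr log Q`), `C` and `c1`. -/
def INVE : Prop :=
  ∀ Cr C c1 : ℝ, 1 ≤ Cr → 0 < C → 0 < c1 → ∃ c2 : ℝ, 0 < c2 ∧ ∃ n0 : ℕ, ∀ n : ℕ, n0 ≤ n →
    ∀ Q X : ℕ, 2 ≤ Q → Real.log n ≤ Cr * Real.log Q → 1 ≤ X → X ≤ n → LKd C Q X →
    ∀ W f g : ℤ → ℂ, Bd W → Bd f → Bd g →
    (FB (Sy X) g ((n:ℝ) ^ (1 - c1)) ∨ FB (Sx X) f ((n:ℝ) ^ (1 - c1))) →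
    ‖BF (Sx X) (Sy X) (Ec Q X) W f g‖ ≤ (n:ℝ) ^ (2 - c2)

/-- The operator bound for one weight `W` bounded by `n^c`. -/
def OPW : Prop :=
  ∀ Cr C : ℝ, 1 ≤ Cr → 0 < C → ∃ c : ℝ, 0 < c ∧ ∃ n0 : ℕ, ∀ n : ℕ, n0 ≤ n →
    ∀ Q X : ℕ, 2 ≤ Q → Real.log n ≤ Cr * Real.log Q → 1 ≤ X → X ≤ n → LKd C Q X →
    (∀ th : ℝ, ∀ u v : ℤ, (X:ℤ) ≤ u → v ≤ 4 * X →
      ‖∑ m ∈ Ico u v, Ec Q X m * ee (th * m)‖ ≤ X * (Q:ℝ) ^ (-(1 / 4) : ℝ)) →
    (∀ m : ℤ, (X:ℤ) ≤ m → m ≤ 4 * X → ‖Ec Q X m‖ ≤ (n:ℝ) ^ c) →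
    ∀ W f g : ℤ → ℂ, (∀ v : ℤ, (X:ℤ) < v → v < 4 * X → ‖W v‖ ≤ (n:ℝ) ^ c) → Bd f → Bd g →
    ‖BF (Sx X) (Sy X) (Ec Q X) W f g‖ ≤ (n:ℝ) ^ (2 - c)

end

end Pool.Agent.H9S
end

-- from Lib.H9S.D1
section
/-!
CHUNK D1 (M). Dual function (abstract kernel). `D y = ∑_{x ∈ S} f x * Kf x y`, `‖D y‖ ≤ L` on `T`. Put `g₁ y = conj (D y) / L` for `y ∈ T`, `0` else: `Bd g₁`.
`∑_x ∑_y f g₁ Kf = ∑_{y ∈ T} ‖D y‖² / L` (real, nonnegative). Cauchy-Schwarz: `A² ≤ (∑_{y ∈ T} ‖g y‖ ‖D y‖)² ≤ #T ∑_{y ∈ T} ‖D y‖²`, so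
`‖∑∑ f g₁ Kf‖ ≥ A² / (#T L) ≥ δ` (`T` nonempty, `hδ`). `hinv` gives `th` with `κ ≤ ‖∑_{y ∈ T} g₁ y ee(th y)‖`, and
`L ‖∑_y g₁ y ee(th y)‖ = ‖∑_y conj(D y) ee(th y)‖ = ‖∑_y D y ee(-(th y))‖` (`ee_neg`, `Complex.norm_conj`): the conclusion holds with `-th`.
-/
namespace Pool.Agent.H9S
open Finset Pool.Agent.H44W

theorem D1_dual (S T : Finset ℤ) (hTn : T.Nonempty) (Kf : ℤ → ℤ → ℂ) (L : ℝ) (hL : 0 < L) (f : ℤ → ℂ)
    (hK : ∀ y ∈ T, ‖∑ x ∈ S, f x * Kf x y‖ ≤ L) (δ κ A : ℝ) (hA : 0 ≤ A)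
    (hinv : ∀ g : ℤ → ℂ, Bd g → δ ≤ ‖∑ x ∈ S, ∑ y ∈ T, f x * g y * Kf x y‖ →
      ∃ th : ℝ, κ ≤ ‖∑ y ∈ T, g y * ee (th * y)‖)
    (g : ℤ → ℂ) (hg : Bd g) (hT : A ≤ ‖∑ x ∈ S, ∑ y ∈ T, f x * g y * Kf x y‖)
    (hδ : δ * (T.card * L) ≤ A ^ 2) :
    ∃ th : ℝ, κ * L ≤ ‖∑ x ∈ S, ∑ y ∈ T, f x * ee (th * y) * Kf x y‖ := by
  obtain ⟨D, hD⟩ : ∃ D : ℤ → ℂ, ∀ y, D y = ∑ x ∈ S, f x * Kf x y := ⟨_, fun _ => rfl⟩
  have hswap : ∀ g : ℤ → ℂ, ∑ x ∈ S, ∑ y ∈ T, f x * g y * Kf x y = ∑ y ∈ T, g y * D y := by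
    intro g
    rw [sum_comm]
    refine sum_congr rfl fun y _ => ?_
    rw [hD, mul_sum]
    refine sum_congr rfl fun x _ => ?_
    ring
  have hDL : ∀ y ∈ T, ‖D y‖ ≤ L := fun y hy => by
    rw [hD]
    exact hK y hy
  obtain ⟨g1, hg1⟩ : ∃ g1 : ℤ → ℂ, ∀ y, g1 y = if y ∈ T then (starRingEnd ℂ) (D y) / (L : ℂ) else 0 := ⟨_, fun _ => rfl⟩
  have hg1B : Bd g1 := by
    intro y
    rw [hg1]
    split_ifs with hy
    · rw [norm_div, Complex.norm_conj, Complex.norm_real, Real.norm_eq_abs, abs_of_pos hL, div_le_one hL]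
      exact hDL y hy
    · rw [norm_zero]
      exact zero_le_one
  have hsum : ∑ y ∈ T, g1 y * D y = (((∑ y ∈ T, ‖D y‖ ^ 2) / L : ℝ) : ℂ) := by
    rw [sum_div, Complex.ofReal_sum]
    refine sum_congr rfl fun y hy => ?_
    rw [hg1, if_pos hy, div_mul_eq_mul_div, mul_comm, Complex.mul_conj, Complex.normSq_eq_norm_sq]
    push_cast
    ring
  have hTc : (0 : ℝ) < T.card := by exact_mod_cast card_pos.2 hTn
  have hCS : A ^ 2 ≤ T.card * ∑ y ∈ T, ‖D y‖ ^ 2 := by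
    have h1 : A ≤ ∑ y ∈ T, ‖D y‖ := by
      refine hT.trans ?_
      rw [hswap]
      refine (norm_sum_le _ _).trans (sum_le_sum fun y _ => ?_)
      rw [norm_mul]
      exact mul_le_of_le_one_left (norm_nonneg _) (hg y)
    have h2 : (∑ y ∈ T, ‖D y‖) ^ 2 ≤ T.card * ∑ y ∈ T, ‖D y‖ ^ 2 := sq_sum_le_card_mul_sum_sq
    exact (pow_le_pow_left₀ hA h1 2).trans h2
  have hδ' : δ ≤ ‖∑ x ∈ S, ∑ y ∈ T, f x * g1 y * Kf x y‖ := by
    rw [hswap, hsum, Complex.norm_real, Real.norm_eq_abs, abs_of_nonneg (by positivity)]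
    rw [le_div_iff₀ hL]
    have h1 : (δ * L) * T.card ≤ (∑ y ∈ T, ‖D y‖ ^ 2) * T.card := by nlinarith
    exact le_of_mul_le_mul_right h1 hTc
  obtain ⟨th, hth⟩ := hinv g1 hg1B hδ'
  refine ⟨-th, ?_⟩
  rw [hswap]
  have h1 : ∑ y ∈ T, g1 y * ee (th * y) = (starRingEnd ℂ) (∑ y ∈ T, ee (-th * y) * D y) / (L : ℂ) := by
    rw [map_sum, sum_div]
    refine sum_congr rfl fun y hy => ?_
    rw [hg1, if_pos hy, map_mul]
    have e1 : (starRingEnd ℂ) (ee (-th * y)) = ee (th * y) := by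
      have e2 : -th * (y : ℝ) = -(th * y) := by ring
      rw [e2, ee_neg, Complex.conj_conj]
    rw [e1]
    ring
  rw [h1, norm_div, Complex.norm_conj, Complex.norm_real, Real.norm_eq_abs, abs_of_pos hL, le_div_iff₀ hL] at hth
  exact hth

end Pool.Agent.H9S
end

-- from Lib.H9S.X1
section
/-!
CHUNK X1 (M). Two linear phases. Group the sum by `v = x - y ∈ (X, 4X)` (at most `3X` values; `W v` of norm `≤ M`): for fixed `v` the `x` with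
`x ∈ [2X, 3X)`, `x - v ∈ (-X, X)` form an interval `Ico α β`, `α = max (2X) (v - X + 1)`, `β = min (3X) (v + X)`, and the terms are
`ee(a x) ee(b (x - v)) F(2x - v)`. `X1_par`: `m = 2x - v` runs over the `m ≡ v mod 2` in `Ico (2α - v) (2β - v)`,
`x = (m + v)/2`, and the indicator of `m ≡ v` is `(1 + ee((m - v)/2))/2` (`ee_half`), so the sum is the mean of two sums
`∑ F m ee(γ m)` over the whole interval (times constants of norm 1), each at most `τ`. (The proof of `H44W.one_pair_v`, file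
Lib/H44W/U3.lean, is the same argument, `u3_term` there may be imported.) The interval is inside `[X, 4X]`: `2α - v = α + (α - v) ≥ 2X - X + 1`,
`2β - v = β + (β - v) ≤ 3X + X`. Total `≤ 3X * M * τ` (`0 ≤ τ` from `hF` with the empty interval).
-/
namespace Pool.Agent.H9S
open Finset Pool.Agent.H44W

theorem X1_par (F : ℤ → ℂ) (τ : ℝ) (α β v : ℤ)
    (hF : ∀ th : ℝ, ‖∑ m ∈ Ico (2 * α - v) (2 * β - v), F m * ee (th * m)‖ ≤ τ) (a b : ℝ) :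
    ‖∑ x ∈ Ico α β, ee (a * x) * ee (b * (x - v)) * F (2 * x - v)‖ ≤ τ := by
  have e1 : ∑ x ∈ Ico α β, ee (a * x) * ee (b * (x - v)) * F (2 * x - v)
      = ∑ m ∈ (Ico (2 * α - v) (2 * β - v)).filter (fun m => Even (m - v)),
          F m * ee (a * ((m + v) / 2) + b * ((m - v) / 2)) := by
    refine Finset.sum_nbij' (fun x => 2 * x - v) (fun m => (m + v) / 2) ?_ ?_ ?_ ?_ ?_
    · intro x hx
      have h3 := Finset.mem_Ico.1 hx
      refine Finset.mem_filter.2 ⟨Finset.mem_Ico.2 ⟨by omega, by omega⟩, ?_⟩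
      exact ⟨x - v, by ring⟩
    · intro m hm
      obtain ⟨h3, k, hk⟩ := Finset.mem_filter.1 hm
      have h4 := Finset.mem_Ico.1 h3
      exact Finset.mem_Ico.2 ⟨by omega, by omega⟩
    · intro x _
      omega
    · intro m hm
      obtain ⟨h3, k, hk⟩ := Finset.mem_filter.1 hm
      omega
    · intro x _
      rw [← ee_add, mul_comm (F (2 * x - v))]
      congr 2
      push_cast
      ring
  rw [e1, Finset.sum_filter, Finset.sum_congr rfl fun m _ => u3_term v m a b (F m), Finset.sum_add_distrib,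
    ← Finset.mul_sum, ← Finset.mul_sum]
  refine (norm_add_le _ _).trans ?_
  rw [norm_mul, norm_mul, norm_mul, norm_mul, norm_mul, norm_ee, norm_ee, norm_div, norm_one, Complex.norm_ofNat]
  have h6 := hF ((a + b) / 2)
  have h7 := hF ((a + b) / 2 + 1 / 2)
  linarith

theorem X1_exp (X : ℕ) (F W : ℤ → ℂ) (M τ a b : ℝ) (hM : 0 ≤ M)
    (hW : ∀ v : ℤ, (X:ℤ) < v → v < 4 * X → ‖W v‖ ≤ M)
    (hF : ∀ th : ℝ, ∀ u v : ℤ, (X:ℤ) ≤ u → v ≤ 4 * X → ‖∑ m ∈ Ico u v, F m * ee (th * m)‖ ≤ τ) :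
    ‖BF (Sx X) (Sy X) F W (fun x => ee (a * x)) (fun y => ee (b * y))‖ ≤ 3 * X * M * τ := by
  have hX0 : (0:ℤ) ≤ X := Int.natCast_nonneg X
  have hτ : 0 ≤ τ := by
    have h := hF 0 X X le_rfl (by omega)
    rwa [Finset.Ico_self, Finset.sum_empty, norm_zero] at h
  have h1 : ∀ x ∈ Sx X, ∑ y ∈ Sy X, ee (a * x) * ee (b * y) * F (x + y) * W (x - y)
      = ∑ v ∈ Ioo (X:ℤ) (4 * X), if x - v ∈ Sy X then W v * (ee (a * x) * ee (b * (x - v)) * F (2 * x - v)) else 0 := by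
    intro x hx
    have hx' := Finset.mem_Ico.1 hx
    rw [← Finset.sum_filter]
    refine Finset.sum_nbij' (fun y => x - y) (fun v => x - v) ?_ ?_ ?_ ?_ ?_
    · intro y hy
      have hy' := Finset.mem_Ioo.1 hy
      refine Finset.mem_filter.2 ⟨Finset.mem_Ioo.2 ⟨by omega, by omega⟩, ?_⟩
      have e : x - (x - y) = y := by ring
      rw [e]
      exact hy
    · intro v hv
      exact (Finset.mem_filter.1 hv).2
    · intro y _
      ring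
    · intro v _
      ring
    · intro y _
      have e1 : 2 * x - (x - y) = x + y := by ring
      have e2 : ((x:ℝ) - ((x - y : ℤ) : ℝ)) = y := by
        push_cast
        ring
      rw [e1, e2]
      ring
  have h2 : BF (Sx X) (Sy X) F W (fun x => ee (a * x)) (fun y => ee (b * y))
      = ∑ v ∈ Ioo (X:ℤ) (4 * X), W v * ∑ x ∈ Ico (max (2 * (X:ℤ)) (v - X + 1)) (min (3 * (X:ℤ)) (v + X)),
          ee (a * x) * ee (b * (x - v)) * F (2 * x - v) := by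
    unfold BF
    rw [Finset.sum_congr rfl h1, Finset.sum_comm]
    refine Finset.sum_congr rfl fun v _ => ?_
    rw [← Finset.sum_filter, Finset.mul_sum]
    refine Finset.sum_congr ?_ fun _ _ => rfl
    ext x
    unfold Sx Sy
    simp only [Finset.mem_filter, Finset.mem_Ico, Finset.mem_Ioo]
    omega
  rw [h2]
  have h3 : ∀ v ∈ Ioo (X:ℤ) (4 * X), ‖W v * ∑ x ∈ Ico (max (2 * (X:ℤ)) (v - X + 1)) (min (3 * (X:ℤ)) (v + X)),
      ee (a * x) * ee (b * (x - v)) * F (2 * x - v)‖ ≤ M * τ := by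
    intro v hv
    have hv' := Finset.mem_Ioo.1 hv
    rw [norm_mul]
    refine mul_le_mul (hW v hv'.1 hv'.2) (X1_par F τ _ _ v (fun th => hF th _ _ (by omega) (by omega)) a b)
      (norm_nonneg _) hM
  refine (norm_sum_le _ _).trans ((Finset.sum_le_sum h3).trans ?_)
  rw [Finset.sum_const, Int.card_Ioo, nsmul_eq_mul]
  have h4 : (((4 * (X:ℤ) - X - 1).toNat : ℕ) : ℝ) ≤ 3 * X := by
    have h5 : (4 * (X:ℤ) - X - 1).toNat ≤ 3 * X := by omega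
    exact_mod_cast h5
  have h6 : 0 ≤ M * τ := mul_nonneg hM hτ
  calc (((4 * (X:ℤ) - X - 1).toNat : ℕ) : ℝ) * (M * τ) ≤ 3 * X * (M * τ) := mul_le_mul_of_nonneg_right h4 h6
    _ = 3 * X * M * τ := by ring

end Pool.Agent.H9S
end

-- from Lib.H9S.K1
section
/-!
CHUNK K1 (S/M). Mass of the kernel. `kern Q Y z = tent Y z * ∑_{q ∈ Icc 1 Q} cq q z`. `0 ≤ tent Y z`, `∑_{|z| < Y} tent Y z = 1` for `Y ≥ 1` (copy
the short proof of `H68T.DB_tent_count`, `DB_tent_sum` in Lib/H68T/DB.lean lines 44 to 100, that file is heavy: do not import it). `Y = 0`: empty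
sum. `|cq q z| ≤ ∑_{d ∣ q} d ≤ q * q` (`|μ| ≤ 1`, `d ≤ q`, at most `q` divisors: `Nat.card_divisors_le_self` or `divisors ⊆ Icc 1 q`), so
`|∑_{q ≤ Q} cq q z| ≤ ∑_{q ≤ Q} q² ≤ Q * Q² = Q³`.
-/
namespace Pool.Agent.H9S
open Finset Pool.Agent.H44W
open Pool.Agent.Lib.H68T (lp Lk kern tent cq)

theorem k1_tent_count (Y : ℕ) : ∑ z ∈ Ioo (-(Y : ℤ)) Y, ((Y : ℝ) - |(z : ℝ)|) = (Y : ℝ) ^ 2 := by
  induction Y with
  | zero => simp
  | succ Y ih =>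
    have e1 : Ioo (-((Y + 1 : ℕ) : ℤ)) ((Y + 1 : ℕ) : ℤ) = Icc (-(Y : ℤ)) Y := by
      ext z
      simp only [mem_Ioo, mem_Icc]
      push_cast
      omega
    rw [e1]
    have e2 : ∑ z ∈ Icc (-(Y : ℤ)) Y, (((Y + 1 : ℕ) : ℝ) - |(z : ℝ)|) =
        ∑ z ∈ Icc (-(Y : ℤ)) Y, ((Y : ℝ) - |(z : ℝ)|) + ∑ z ∈ Icc (-(Y : ℤ)) Y, (1 : ℝ) := by
      rw [← sum_add_distrib]
      refine sum_congr rfl fun z _ => ?_
      push_cast
      ring
    rw [e2]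
    have e3 : ∑ z ∈ Icc (-(Y : ℤ)) Y, ((Y : ℝ) - |(z : ℝ)|) =
        ∑ z ∈ Ioo (-(Y : ℤ)) Y, ((Y : ℝ) - |(z : ℝ)|) := by
      symm
      apply sum_subset
      · intro z hz
        rw [mem_Ioo] at hz
        rw [mem_Icc]
        omega
      · intro z hz hz'
        rw [mem_Icc] at hz
        rw [mem_Ioo] at hz'
        have h1 : z = Y ∨ z = -Y := by omega
        rcases h1 with h | h
        · rw [h]; simp
        · rw [h]; simp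
    rw [e3, ih, sum_const, Int.card_Icc, nsmul_eq_mul, mul_one]
    have e4 : ((((Y : ℤ) + 1 - -(Y : ℤ)).toNat : ℕ) : ℝ) = 2 * Y + 1 := by
      have : ((Y : ℤ) + 1 - -(Y : ℤ)).toNat = 2 * Y + 1 := by omega
      rw [this]; push_cast; ring
    rw [e4]
    push_cast
    ring

theorem k1_tent_sum (Y : ℕ) (hY : 1 ≤ Y) : ∑ z ∈ Ioo (-(Y : ℤ)) Y, tent Y z = 1 := by
  have hY0 : (0 : ℝ) < Y := by exact_mod_cast hY
  have h1 : ∑ z ∈ Ioo (-(Y : ℤ)) Y, tent Y z =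
      (∑ z ∈ Ioo (-(Y : ℤ)) Y, ((Y : ℝ) - |(z : ℝ)|)) / (Y : ℝ) ^ 2 := by
    rw [sum_div]
    refine sum_congr rfl fun z hz => ?_
    rw [mem_Ioo] at hz
    unfold tent
    rw [max_eq_right]
    have : |(z : ℝ)| ≤ Y := by
      rw [abs_le]
      constructor
      · exact_mod_cast hz.1.le
      · exact_mod_cast hz.2.le
    linarith
  rw [h1, k1_tent_count]
  exact div_self (by positivity)

theorem k1_tent_nonneg (Y : ℕ) (z : ℤ) : 0 ≤ tent Y z := by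
  unfold tent
  exact div_nonneg (le_max_left _ _) (sq_nonneg _)

theorem k1_cq (q : ℕ) (z : ℤ) : |cq q z| ≤ (q : ℝ) * q := by
  unfold cq
  refine (abs_sum_le_sum_abs _ _).trans ?_
  have h1 : ∀ d ∈ q.divisors.filter (fun d : ℕ => (d : ℤ) ∣ z),
      |(d : ℝ) * (ArithmeticFunction.moebius (q / d) : ℝ)| ≤ q := by
    intro d hd
    have hd1 := Nat.divisor_le (mem_filter.1 hd).1
    rw [abs_mul, Nat.abs_cast]
    have h2 : |(ArithmeticFunction.moebius (q / d) : ℝ)| ≤ 1 := by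
      have := ArithmeticFunction.abs_moebius_le_one (n := q / d)
      exact_mod_cast this
    have h3 : (d : ℝ) ≤ q := by exact_mod_cast hd1
    calc (d : ℝ) * |(ArithmeticFunction.moebius (q / d) : ℝ)| ≤ q * 1 :=
          mul_le_mul h3 h2 (abs_nonneg _) (Nat.cast_nonneg q)
      _ = q := mul_one _
  refine (sum_le_card_nsmul _ _ _ h1).trans ?_
  rw [nsmul_eq_mul]
  refine mul_le_mul_of_nonneg_right ?_ (Nat.cast_nonneg q)
  have h2 : (q.divisors.filter (fun d : ℕ => (d : ℤ) ∣ z)).card ≤ q :=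
    (card_filter_le _ _).trans (Nat.card_divisors_le_self q)
  exact_mod_cast h2

theorem K1_mass (Q Y : ℕ) : ∑ z ∈ Ioo (-(Y:ℤ)) Y, |kern Q Y z| ≤ (Q:ℝ) ^ 3 := by
  have h1 : ∀ z : ℤ, |∑ q ∈ Icc 1 Q, cq q z| ≤ (Q : ℝ) ^ 3 := by
    intro z
    refine (abs_sum_le_sum_abs _ _).trans ?_
    have h2 : ∀ q ∈ Icc 1 Q, |cq q z| ≤ (Q : ℝ) ^ 2 := by
      intro q hq
      have h3 : (q : ℝ) ≤ Q := by exact_mod_cast (mem_Icc.1 hq).2
      have h4 := k1_cq q z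
      have h5 : (0 : ℝ) ≤ q := Nat.cast_nonneg q
      nlinarith
    refine (sum_le_card_nsmul _ _ _ h2).trans (le_of_eq ?_)
    rw [nsmul_eq_mul, Nat.card_Icc, Nat.add_sub_cancel]
    ring
  rcases Nat.eq_zero_or_pos Y with hY | hY
  · subst hY
    have e1 : Ioo (-((0 : ℕ) : ℤ)) ((0 : ℕ) : ℤ) = ∅ := by
      rw [Nat.cast_zero, neg_zero]
      exact Ioo_self _
    rw [e1, sum_empty]
    positivity
  · have h2 : ∀ z ∈ Ioo (-(Y:ℤ)) Y, |kern Q Y z| ≤ tent Y z * (Q : ℝ) ^ 3 := by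
      intro z _
      unfold kern
      rw [abs_mul, abs_of_nonneg (k1_tent_nonneg Y z)]
      exact mul_le_mul_of_nonneg_left (h1 z) (k1_tent_nonneg Y z)
    refine (sum_le_sum h2).trans ?_
    rw [← sum_mul, k1_tent_sum Y hY, one_mul]

end Pool.Agent.H9S
end

-- from Lib.H9S.K2
section
/-!
CHUNK K2 (S/M). Translation. `Lc Q Y m = ∑_{z} kern Q Y z * lc (m - z)` (definition of `Lk`). In
`∑_{x ∈ S} ∑_{y ∈ T} f x g y lc(x + y - z) W(x - y)` put `x = x' + z`, `x' ∈ S - z` (`Finset.sum_image`, `x ↦ x - z` is injective):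
`x + y - z = x' + y`, `x - y = (x' - y) + z`. Exchange the sums (`Finset.sum_comm`, `Finset.mul_sum`).
`K2_FB`: `∑_{x' ∈ S - z} f(x' + z) ee(th x') = ee(-(th z)) ∑_{x ∈ S} f x ee(th x)` (`ee_add`, `norm_ee` in H44W/E1).
-/
namespace Pool.Agent.H9S
open Finset Pool.Agent.H44W
open Pool.Agent.Lib.H68T (lp Lk kern tent cq)

theorem K2_trans (Q Y : ℕ) (S T : Finset ℤ) (W f g : ℤ → ℂ) :
    BF S T (Lc Q Y) W f g = ∑ z ∈ Ioo (-(Y:ℤ)) Y, ((kern Q Y z : ℝ) : ℂ) *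
      BF (S.image (fun x => x - z)) T lc (fun v => W (v + z)) (fun x => f (x + z)) g := by
  have h1 : ∀ z : ℤ, BF (S.image (fun x => x - z)) T lc (fun v => W (v + z)) (fun x => f (x + z)) g =
      ∑ x ∈ S, ∑ y ∈ T, f x * g y * lc (x + y - z) * W (x - y) := by
    intro z
    unfold BF
    rw [Finset.sum_image fun a _ b _ h => sub_left_injective h]
    refine Finset.sum_congr rfl fun x _ => Finset.sum_congr rfl fun y _ => ?_
    have e1 : x - z + z = x := by ring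
    have e2 : x - z + y = x + y - z := by ring
    have e3 : x - z - y + z = x - y := by ring
    simp only [e1, e2, e3]
  simp only [h1]
  have h2 : ∀ z ∈ Ioo (-(Y:ℤ)) Y, ((kern Q Y z : ℝ) : ℂ) * ∑ x ∈ S, ∑ y ∈ T, f x * g y * lc (x + y - z) * W (x - y) =
      ∑ x ∈ S, ∑ y ∈ T, f x * g y * (((kern Q Y z : ℝ) : ℂ) * lc (x + y - z)) * W (x - y) := by
    intro z _
    rw [Finset.mul_sum]
    refine Finset.sum_congr rfl fun x _ => ?_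
    rw [Finset.mul_sum]
    refine Finset.sum_congr rfl fun y _ => ?_
    ring
  rw [Finset.sum_congr rfl h2, Finset.sum_comm]
  unfold BF
  refine Finset.sum_congr rfl fun x _ => ?_
  rw [Finset.sum_comm]
  refine Finset.sum_congr rfl fun y _ => ?_
  rw [← Finset.sum_mul, ← Finset.mul_sum]
  congr 2
  unfold Lc Lk lc
  push_cast
  rfl

theorem K2_FB (S : Finset ℤ) (z : ℤ) (f : ℤ → ℂ) (κ : ℝ) (h : FB S f κ) :
    FB (S.image (fun x => x - z)) (fun x => f (x + z)) κ := by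
  intro th
  rw [Finset.sum_image fun a _ b _ h => sub_left_injective h]
  have h1 : ∑ x ∈ S, f (x - z + z) * ee (th * ((x - z : ℤ) : ℝ)) = ee (-(th * z)) * ∑ x ∈ S, f x * ee (th * x) := by
    rw [Finset.mul_sum]
    refine Finset.sum_congr rfl fun x _ => ?_
    have e1 : x - z + z = x := by ring
    have e2 : th * ((x - z : ℤ) : ℝ) = -(th * z) + th * x := by
      push_cast
      ring
    rw [e1, e2, ee_add]
    ring
  have h2 : ‖∑ x ∈ S, f (x - z + z) * ee (th * ((x - z : ℤ) : ℝ))‖ ≤ κ := by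
    rw [h1, norm_mul, norm_ee, one_mul]
    exact h th
  exact h2

end Pool.Agent.H9S
end

-- from Lib.H9S.K3
section
/-!
CHUNK K3 (S/M). `INVB` gives `INVK`, with the same `c2`, `n0`. First part: `INVB` with `a = X`, `S = Sx X`, `T = Sy X`:
`X + 1 ≤ 2X ≤ x < 3X ≤ X + 4n` and `1 - X ≤ y ≤ X - 1 ≤ 4n - X` (`1 ≤ X ≤ n`).
Second part: `K2_trans`; for `|z| < Y < X` the points of `Sx X - z` lie in `(X, 4X)`, so `X + 1 ≤ x' ≤ X + 4n` (`x' < 3X + Y < 4X`); the form for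
`z` is at most `n^(2-c2)` by `INVB` (`a = X`; `W (· + z)`, `f (· + z)` bounded; `FB` of `f` by `K2_FB`, `FB` of `g` unchanged). Sum over `z` with
`K1_mass`: `‖kern‖` has the norm `|kern Q Y z|`.
-/
namespace Pool.Agent.H9S
open Finset Pool.Agent.H44W

theorem K3_inv (h : INVB) : INVK := by
  intro c1 hc1
  obtain ⟨c2, hc2, n0, H⟩ := h c1 hc1
  refine ⟨c2, hc2, n0, ?_⟩
  intro n hn X hX1 hXn W f g hW hf hg hFB
  have hX1' : (1 : ℤ) ≤ X := by exact_mod_cast hX1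
  have hXn' : (X : ℤ) ≤ n := by exact_mod_cast hXn
  have hy : ∀ y ∈ Sy X, 1 - (X : ℤ) ≤ y ∧ y ≤ 4 * n - X := by
    intro y hy
    unfold Sy at hy
    rw [mem_Ioo] at hy
    constructor <;> omega
  refine ⟨H n hn X (Sx X) (Sy X) ?_ hy W f g hW hf hg hFB, ?_⟩
  · intro x hx
    unfold Sx at hx
    rw [mem_Ico] at hx
    constructor <;> omega
  · intro Q Y hY
    have hY' : (Y : ℤ) < X := by exact_mod_cast hY
    rw [K2_trans]
    refine (norm_sum_le _ _).trans ?_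
    have hterm : ∀ z ∈ Ioo (-(Y:ℤ)) Y, ‖((Pool.Agent.Lib.H68T.kern Q Y z : ℝ) : ℂ) *
        BF ((Sx X).image (fun x => x - z)) (Sy X) lc (fun v => W (v + z)) (fun x => f (x + z)) g‖ ≤
        |Pool.Agent.Lib.H68T.kern Q Y z| * (n:ℝ) ^ (2 - c2) := by
      intro z hz
      rw [mem_Ioo] at hz
      rw [norm_mul, Complex.norm_real, Real.norm_eq_abs]
      refine mul_le_mul_of_nonneg_left ?_ (abs_nonneg _)
      refine H n hn X _ (Sy X) ?_ hy _ _ g (fun x => hW _) (fun x => hf _) hg ?_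
      · intro x hx
        rw [mem_image] at hx
        obtain ⟨x', hx', rfl⟩ := hx
        unfold Sx at hx'
        rw [mem_Ico] at hx'
        constructor <;> omega
      · rcases hFB with h1 | h1
        · exact Or.inl h1
        · exact Or.inr (K2_FB (Sx X) z f _ h1)
    refine (sum_le_sum hterm).trans ?_
    rw [← sum_mul]
    exact mul_le_mul_of_nonneg_right (K1_mass Q Y) (Real.rpow_nonneg (Nat.cast_nonneg n) _)

end Pool.Agent.H9S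
end

-- from Lib.H9S.P1
section
/-!
CHUNK P1 (S). Proper prime powers. `Λ(m) ≥ lp(m) ≥ 0` for `m ≥ 1` (equality unless `m` is a proper prime power: for a prime `m`,
`Λ m = log m = lp m`; otherwise `lp m = 0`), so the sum over `1 ≤ m ≤ 2n` is `ψ(2n) - θ(2n)` (Mathlib, `Chebyshev.psi_eq_sum_Icc`,
`Chebyshev.theta_eq_sum_Icc`), at most `2 √(2n) log(2n)` (`Chebyshev.psi_sub_theta_le`), and `log(2n) ≤ 4 (2n)^(1/4)`
(`Real.log_le_rpow_div`). So `C = 16` is enough (any constant is allowed). Convert the sum over `Icc (1:ℤ) (2n)` to one over `Icc 1 (2n)` in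
`ℕ` (`Finset.sum_nbij'` with `Int.toNat`, or induction on `n`).
-/
namespace Pool.Agent.H9S
open Finset Pool.Agent.H44W
open Pool.Agent.Lib.H68T (lp)

theorem P1_pp : ∃ C : ℝ, 0 < C ∧ ∀ n : ℕ, 1 ≤ n →
    ∑ m ∈ Icc (1:ℤ) (2 * n), |(ArithmeticFunction.vonMangoldt m.toNat : ℝ) - lp m| ≤ C * (n:ℝ) ^ (3 / 4 : ℝ) := by
  refine ⟨16, by norm_num, fun n hn => ?_⟩
  have hn' : (1:ℝ) ≤ n := by exact_mod_cast hn
  have h1 : ∑ m ∈ Icc (1:ℤ) (2 * n), |(ArithmeticFunction.vonMangoldt m.toNat : ℝ) - lp m| =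
      ∑ m ∈ Finset.Ioc 0 (2 * n),
        (if m.Prime then 0 else (ArithmeticFunction.vonMangoldt m : ℝ)) := by
    refine Finset.sum_nbij' (fun m => m.toNat) (fun m => (m : ℤ)) ?_ ?_ ?_ ?_ ?_
    · intro m hm
      rw [Finset.mem_Icc] at hm
      rw [Finset.mem_Ioc]
      omega
    · intro m hm
      rw [Finset.mem_Ioc] at hm
      rw [Finset.mem_Icc]
      omega
    · intro m hm
      rw [Finset.mem_Icc] at hm
      exact Int.toNat_of_nonneg (by omega)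
    · intro m hm
      simp
    · intro m hm
      rw [Finset.mem_Icc] at hm
      have h2 : (m.toNat : ℤ) = m := Int.toNat_of_nonneg (by omega)
      have h3 : (m : ℝ) = (m.toNat : ℝ) := by
        exact_mod_cast h2.symm
      unfold Pool.Agent.Lib.H68T.lp
      split_ifs with hp
      · rw [ArithmeticFunction.vonMangoldt_apply_prime hp, h3]
        simp
      · rw [sub_zero, abs_of_nonneg ArithmeticFunction.vonMangoldt_nonneg]
  rw [h1]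
  have h4 : ∑ m ∈ Finset.Ioc 0 (2 * n),
      (if m.Prime then 0 else (ArithmeticFunction.vonMangoldt m : ℝ)) =
      Chebyshev.psi (2 * n) - Chebyshev.theta (2 * n) := by
    rw [Chebyshev.psi_sub_theta_eq_sum_not_prime, Finset.sum_filter]
    have h : ⌊(2 * n : ℝ)⌋₊ = 2 * n := by exact_mod_cast Nat.floor_natCast (R := ℝ) (2 * n)
    rw [h]
    refine Finset.sum_congr rfl fun m _ => ?_
    split_ifs <;> rfl
  rw [h4]
  refine (Chebyshev.psi_sub_theta_le (x := 2 * n) (by linarith)).trans ?_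
  have h6 : Real.log (2 * n) ≤ (2 * n : ℝ) ^ (1 / 4 : ℝ) / (1 / 4) :=
    Real.log_le_rpow_div (by positivity) (by norm_num)
  have h7 : √(2 * n : ℝ) = (2 * n : ℝ) ^ (1 / 2 : ℝ) := Real.sqrt_eq_rpow _
  have h8 : (2 * n : ℝ) ^ (1 / 2 : ℝ) * (2 * n : ℝ) ^ (1 / 4 : ℝ) = (2 * n : ℝ) ^ (3 / 4 : ℝ) := by
    rw [← Real.rpow_add (by positivity)]
    norm_num
  have h9 : (2 * n : ℝ) ^ (3 / 4 : ℝ) ≤ 2 * (n : ℝ) ^ (3 / 4 : ℝ) := by
    rw [Real.mul_rpow (by norm_num) (by positivity)]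
    refine mul_le_mul_of_nonneg_right ?_ (by positivity)
    calc (2:ℝ) ^ (3 / 4 : ℝ) ≤ 2 ^ (1 : ℝ) :=
          Real.rpow_le_rpow_of_exponent_le (by norm_num) (by norm_num)
      _ = 2 := Real.rpow_one _
  have h10 : 0 ≤ (2 * n : ℝ) ^ (1 / 2 : ℝ) := by positivity
  calc 2 * √(2 * n : ℝ) * Real.log (2 * n)
      ≤ 2 * (2 * n : ℝ) ^ (1 / 2 : ℝ) * ((2 * n : ℝ) ^ (1 / 4 : ℝ) / (1 / 4)) := by
        rw [h7]
        exact mul_le_mul_of_nonneg_left h6 (by positivity)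
    _ = 8 * ((2 * n : ℝ) ^ (1 / 2 : ℝ) * (2 * n : ℝ) ^ (1 / 4 : ℝ)) := by ring
    _ = 8 * (2 * n : ℝ) ^ (3 / 4 : ℝ) := by rw [h8]
    _ ≤ 8 * (2 * (n : ℝ) ^ (3 / 4 : ℝ)) := by linarith
    _ = 16 * (n : ℝ) ^ (3 / 4 : ℝ) := by ring

end Pool.Agent.H9S
end

-- from Lib.H9S.P2
section
/-!
CHUNK P2 (M). From `Λ` to `lp`.
`P2_diff`: `TF n Λ - TF n lc` is the form with the kernel `Λ - lp`, so the norm is at most
`∑_{x ∈ [1,n]} ∑_{y ∈ [1,n]} |Λ - lp|(x+y) ≤ n ∑_{m ∈ [1,2n]} |Λ - lp|(m) ≤ C n^(7/4)` (`P1_pp`; for fixed `x` the map `y ↦ x + y` is injective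
into `Icc 1 (2n)`).
`P2_inv`: for `c1` let `c2'` be the constant of `INV`; put `c2 = min (c2' / 2) (1 / 8)`. If `FB g`: `|TF n lc| ≤ n^(2 - c2') + C n^(7/4) ≤ n^(2 - c2)`
for `n` large (`n^(2-c2') ≤ n^(2-2 c2)`, `n^(7/4) ≤ n^(2 - 2 c2)`, and `(1 + C) n^(-c2) ≤ 1`). If `FB f`: `TF_swap` (H44W/U2):
`TF n lc W f g = TF n lc (fun v => W (-v)) g f`, apply the first case.
-/
namespace Pool.Agent.H9S
open Finset Pool.Agent.H44W
open Pool.Agent.Lib.H68T (lp)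

theorem P2_diff : ∃ C : ℝ, 0 < C ∧ ∀ n : ℕ, 1 ≤ n → ∀ W f g : ℤ → ℂ, Bd W → Bd f → Bd g →
    ‖TF n (fun m => ((ArithmeticFunction.vonMangoldt m.toNat : ℝ) : ℂ)) W f g - TF n lc W f g‖ ≤
      C * (n:ℝ) ^ (7 / 4 : ℝ) := by
  obtain ⟨C, hC, h⟩ := P1_pp
  refine ⟨C, hC, fun n hn W f g hW hf hg => ?_⟩
  have hn' : (0:ℝ) < n := by exact_mod_cast hn
  have h1 : TF n (fun m => ((ArithmeticFunction.vonMangoldt m.toNat : ℝ) : ℂ)) W f g -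
      TF n lc W f g = ∑ x ∈ Icc (1:ℤ) n, ∑ y ∈ Icc (1:ℤ) n,
        f x * g y * (((ArithmeticFunction.vonMangoldt (x + y).toNat : ℝ) : ℂ) - lc (x + y)) *
          W (x - y) := by
    unfold TF
    rw [← Finset.sum_sub_distrib]
    refine Finset.sum_congr rfl fun x _ => ?_
    rw [← Finset.sum_sub_distrib]
    refine Finset.sum_congr rfl fun y _ => ?_
    ring
  rw [h1]
  have h2 : ∀ x ∈ Icc (1:ℤ) n, ‖∑ y ∈ Icc (1:ℤ) n,
        f x * g y * (((ArithmeticFunction.vonMangoldt (x + y).toNat : ℝ) : ℂ) - lc (x + y)) *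
          W (x - y)‖ ≤ C * (n:ℝ) ^ (3 / 4 : ℝ) := by
    intro x hx
    rw [Finset.mem_Icc] at hx
    refine le_trans ?_ (h n hn)
    refine (norm_sum_le _ _).trans ?_
    have h3 : ∀ y ∈ Icc (1:ℤ) n,
        ‖f x * g y * (((ArithmeticFunction.vonMangoldt (x + y).toNat : ℝ) : ℂ) - lc (x + y)) *
          W (x - y)‖ ≤ |(ArithmeticFunction.vonMangoldt (x + y).toNat : ℝ) - lp (x + y)| := by
      intro y _
      have h4 : ‖((ArithmeticFunction.vonMangoldt (x + y).toNat : ℝ) : ℂ) - lc (x + y)‖ =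
          |(ArithmeticFunction.vonMangoldt (x + y).toNat : ℝ) - lp (x + y)| := by
        unfold lc
        rw [← Complex.ofReal_sub, Complex.norm_real, Real.norm_eq_abs]
      rw [norm_mul, norm_mul, norm_mul, h4]
      have h5 : ‖f x‖ * ‖g y‖ ≤ 1 := mul_le_one₀ (hf x) (norm_nonneg _) (hg y)
      have h6 := abs_nonneg ((ArithmeticFunction.vonMangoldt (x + y).toNat : ℝ) - lp (x + y))
      calc ‖f x‖ * ‖g y‖ * |(ArithmeticFunction.vonMangoldt (x + y).toNat : ℝ) - lp (x + y)| *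
            ‖W (x - y)‖
          ≤ 1 * |(ArithmeticFunction.vonMangoldt (x + y).toNat : ℝ) - lp (x + y)| * 1 :=
            mul_le_mul (mul_le_mul_of_nonneg_right h5 h6) (hW _) (norm_nonneg _) (by positivity)
        _ = _ := by ring
    refine (Finset.sum_le_sum h3).trans ?_
    have h7 : ∑ y ∈ Icc (1:ℤ) n,
        |(ArithmeticFunction.vonMangoldt (x + y).toNat : ℝ) - lp (x + y)| =
        ∑ m ∈ (Icc (1:ℤ) n).image (fun y => x + y),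
          |(ArithmeticFunction.vonMangoldt m.toNat : ℝ) - lp m| := by
      rw [Finset.sum_image]
      intro a _ b _ hab
      exact add_left_cancel hab
    rw [h7]
    refine Finset.sum_le_sum_of_subset_of_nonneg ?_ (fun _ _ _ => abs_nonneg _)
    intro m hm
    rw [Finset.mem_image] at hm
    obtain ⟨y, hy, rfl⟩ := hm
    rw [Finset.mem_Icc] at hy ⊢
    omega
  refine (norm_sum_le_of_le _ h2).trans ?_
  rw [Finset.sum_const, Int.card_Icc, nsmul_eq_mul]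
  have h8 : (((n:ℤ) + 1 - 1).toNat : ℝ) = n := by
    have : ((n:ℤ) + 1 - 1).toNat = n := by omega
    rw [this]
  rw [h8]
  have h9 : (n:ℝ) ^ (7 / 4 : ℝ) = n * (n:ℝ) ^ (3 / 4 : ℝ) := by
    have h10 : (7 / 4 : ℝ) = 1 + 3 / 4 := by norm_num
    rw [h10, Real.rpow_add hn', Real.rpow_one]
  rw [h9]
  exact le_of_eq (by ring)

theorem P2_inv (h : INV) : INVL := by
  intro c1 hc1
  obtain ⟨c, hc, n0, h0⟩ := h c1 hc1
  obtain ⟨C, hC, hd⟩ := P2_diff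
  have hc2 : 0 < min (c / 2) (1 / 8) := lt_min (by linarith) (by norm_num)
  have hm1 : min (c / 2) (1 / 8) ≤ c / 2 := min_le_left _ _
  have hm2 : min (c / 2) (1 / 8 : ℝ) ≤ 1 / 8 := min_le_right _ _
  generalize min (c / 2) (1 / 8 : ℝ) = c2 at hc2 hm1 hm2
  refine ⟨c2, hc2, max n0 (⌈(1 + C) ^ (1 / c2)⌉₊ + 1), fun n hn => ?_⟩
  have hn0 : n0 ≤ n := (le_max_left _ _).trans hn
  have hn1 : ⌈(1 + C) ^ (1 / c2)⌉₊ + 1 ≤ n := (le_max_right _ _).trans hn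
  have hn2 : 1 ≤ n := by omega
  have hn3 : (1:ℝ) ≤ n := by exact_mod_cast hn2
  have hn4 : (1 + C) ^ (1 / c2) ≤ (n:ℝ) := by
    refine (Nat.le_ceil _).trans ?_
    exact_mod_cast (by omega : ⌈(1 + C) ^ (1 / c2)⌉₊ ≤ n)
  have hn5 : 1 + C ≤ (n:ℝ) ^ c2 := by
    have h1 : ((1 + C) ^ (1 / c2)) ^ c2 ≤ (n:ℝ) ^ c2 :=
      Real.rpow_le_rpow (by positivity) hn4 hc2.le
    rwa [← Real.rpow_mul (by linarith), one_div, inv_mul_cancel₀ hc2.ne', Real.rpow_one] at h1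
  have key : ∀ W f g : ℤ → ℂ, Bd W → Bd f → Bd g → FB (Icc (1:ℤ) n) g ((n:ℝ) ^ (1 - c1)) →
      ‖TF n lc W f g‖ ≤ (n:ℝ) ^ (2 - c2) := by
    intro W f g hW hf hg hfb
    have h1 := h0 n hn0 W f g hW hf hg hfb
    have h2 := hd n hn2 W f g hW hf hg
    have h3 : ‖TF n lc W f g‖ ≤ (n:ℝ) ^ (2 - c) + C * (n:ℝ) ^ (7 / 4 : ℝ) := by
      have h4 : TF n lc W f g =
          TF n (fun m => ((ArithmeticFunction.vonMangoldt m.toNat : ℝ) : ℂ)) W f g -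
          (TF n (fun m => ((ArithmeticFunction.vonMangoldt m.toNat : ℝ) : ℂ)) W f g -
            TF n lc W f g) := by ring
      rw [h4]
      exact (norm_sub_le _ _).trans (add_le_add h1 h2)
    refine h3.trans ?_
    have h5 : (n:ℝ) ^ (2 - c) ≤ (n:ℝ) ^ (2 - 2 * c2) :=
      Real.rpow_le_rpow_of_exponent_le hn3 (by linarith)
    have h6 : (n:ℝ) ^ (7 / 4 : ℝ) ≤ (n:ℝ) ^ (2 - 2 * c2) :=
      Real.rpow_le_rpow_of_exponent_le hn3 (by linarith)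
    have h7 : (n:ℝ) ^ (2 - c2) = (n:ℝ) ^ c2 * (n:ℝ) ^ (2 - 2 * c2) := by
      rw [← Real.rpow_add (by linarith)]
      congr 1
      ring
    have h8 : 0 ≤ (n:ℝ) ^ (2 - 2 * c2) := by positivity
    rw [h7]
    calc (n:ℝ) ^ (2 - c) + C * (n:ℝ) ^ (7 / 4 : ℝ)
        ≤ (n:ℝ) ^ (2 - 2 * c2) + C * (n:ℝ) ^ (2 - 2 * c2) :=
          add_le_add h5 (mul_le_mul_of_nonneg_left h6 hC.le)
      _ = (1 + C) * (n:ℝ) ^ (2 - 2 * c2) := by ring
      _ ≤ (n:ℝ) ^ c2 * (n:ℝ) ^ (2 - 2 * c2) := mul_le_mul_of_nonneg_right hn5 h8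
  intro W f g hW hf hg hfb
  rcases hfb with hfb | hfb
  · exact key W f g hW hf hg hfb
  · rw [TF_swap]
    exact key (fun v => W (-v)) g f (fun v => hW (-v)) hg hf hfb

end Pool.Agent.H9S
end

-- from Lib.H9S.T1
section
/-!
CHUNK T1 (S/M). Boxes `S × T` as a part of `[1,n]²` by the shift `x = x' + a`, `y = y' - a`: then `x + y = x' + y'` and
`x - y = x' - y' + 2a`.
`T1_shift`: `∑_{x ∈ S} φ x = ∑_{x' ∈ Icc 1 n} if x' + a ∈ S then φ (x' + a) else 0` (`Finset.sum_filter` and `Finset.sum_nbij'` /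
`Finset.sum_image`; `x' = x - a ∈ [1,n]` by `hS`), the same for `T` with `y' = y + a`.
`T1_FBg`: `∑_{y' ∈ [1,n]} g'(y') ee(th y') = ee(th a) ∑_{y ∈ T} g y ee(th y)` (`ee_add`, `norm_ee` in H44W/E1). `T1_FBf`: the same with `-a`.
-/
namespace Pool.Agent.H9S
open Finset Pool.Agent.H44W

theorem t1_sum (n : ℕ) (a : ℤ) (S : Finset ℤ) (hS : ∀ x ∈ S, a + 1 ≤ x ∧ x ≤ a + n) (φ : ℤ → ℂ) :
    ∑ x ∈ Icc (1:ℤ) n, (if x + a ∈ S then φ (x + a) else 0) = ∑ x ∈ S, φ x := by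
  rw [← sum_filter]
  refine Finset.sum_nbij' (fun x => x + a) (fun x => x - a) ?_ ?_ ?_ ?_ ?_
  · intro x hx
    exact (mem_filter.1 hx).2
  · intro x hx
    have h1 := hS x hx
    refine mem_filter.2 ⟨mem_Icc.2 ⟨by omega, by omega⟩, ?_⟩
    show x - a + a ∈ S
    rw [sub_add_cancel]
    exact hx
  · intro x _
    show x + a - a = x
    ring
  · intro x _
    show x - a + a = x
    ring
  · intro x _
    rfl

theorem T1_shift (n : ℕ) (a : ℤ) (S T : Finset ℤ) (hS : ∀ x ∈ S, a + 1 ≤ x ∧ x ≤ a + n)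
    (hT : ∀ y ∈ T, 1 - a ≤ y ∧ y ≤ n - a) (F W f g : ℤ → ℂ) :
    BF S T F W f g = TF n F (fun v => W (v + 2 * a)) (fun x => if x + a ∈ S then f (x + a) else 0)
      (fun y => if y - a ∈ T then g (y - a) else 0) := by
  have hT' : ∀ y ∈ T, -a + 1 ≤ y ∧ y ≤ -a + n := fun y hy => by
    have := hT y hy
    omega
  have h1 : ∀ x : ℤ, ∑ y ∈ Icc (1:ℤ) n, (if x + a ∈ S then f (x + a) else 0) * (if y - a ∈ T then g (y - a) else 0) *
      F (x + y) * W (x - y + 2 * a) =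
      if x + a ∈ S then (fun u => ∑ y ∈ T, f u * g y * F (u + y) * W (u - y)) (x + a) else 0 := by
    intro x
    split_ifs with hx
    · have h2 := t1_sum n (-a) T hT' (fun y => f (x + a) * g y * F (x + a + y) * W (x + a - y))
      refine Eq.trans ?_ h2
      refine sum_congr rfl fun y _ => ?_
      have e1 : y + -a = y - a := by ring
      rw [e1]
      have e2 : x + a + (y - a) = x + y := by ring
      have e3 : x + a - (y - a) = x - y + 2 * a := by ring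
      rw [e2, e3]
      split_ifs
      · rfl
      · rw [mul_zero, zero_mul, zero_mul]
    · refine sum_eq_zero fun y _ => ?_
      rw [zero_mul, zero_mul, zero_mul]
  unfold BF TF
  rw [sum_congr rfl fun x _ => h1 x]
  exact (t1_sum n a S hS _).symm

theorem T1_FBg (n : ℕ) (a : ℤ) (T : Finset ℤ) (hT : ∀ y ∈ T, 1 - a ≤ y ∧ y ≤ n - a) (g : ℤ → ℂ) (κ : ℝ)
    (h : FB T g κ) : FB (Icc (1:ℤ) n) (fun y => if y - a ∈ T then g (y - a) else 0) κ := by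
  have hT' : ∀ y ∈ T, -a + 1 ≤ y ∧ y ≤ -a + n := fun y hy => by
    have := hT y hy
    omega
  intro th
  have h1 : ∑ z ∈ Icc (1:ℤ) n, (if z - a ∈ T then g (z - a) else 0) * ee (th * z) =
      ee (th * a) * ∑ y ∈ T, g y * ee (th * y) := by
    have h2 := t1_sum n (-a) T hT' (fun y => ee (th * a) * (g y * ee (th * y)))
    rw [mul_sum, ← h2]
    refine sum_congr rfl fun y _ => ?_
    have e1 : y + -a = y - a := by ring
    rw [e1]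
    split_ifs
    · have e2 : ee (th * y) = ee (th * a) * ee (th * ((y - a : ℤ) : ℝ)) := by
        rw [← ee_add]
        congr 1
        push_cast
        ring
      rw [e2]
      ring
    · rw [zero_mul]
  show ‖∑ z ∈ Icc (1:ℤ) n, (if z - a ∈ T then g (z - a) else 0) * ee (th * z)‖ ≤ κ
  rw [h1, norm_mul, norm_ee, one_mul]
  exact h th

theorem T1_FBf (n : ℕ) (a : ℤ) (S : Finset ℤ) (hS : ∀ x ∈ S, a + 1 ≤ x ∧ x ≤ a + n) (f : ℤ → ℂ) (κ : ℝ)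
    (h : FB S f κ) : FB (Icc (1:ℤ) n) (fun x => if x + a ∈ S then f (x + a) else 0) κ := by
  intro th
  have h1 : ∑ z ∈ Icc (1:ℤ) n, (if z + a ∈ S then f (z + a) else 0) * ee (th * z) =
      ee (th * ((-a : ℤ) : ℝ)) * ∑ y ∈ S, f y * ee (th * y) := by
    have h2 := t1_sum n a S hS (fun y => ee (th * ((-a : ℤ) : ℝ)) * (f y * ee (th * y)))
    rw [mul_sum, ← h2]
    refine sum_congr rfl fun y _ => ?_
    split_ifs
    · have e2 : ee (th * y) = ee (th * ((-a : ℤ) : ℝ)) * ee (th * ((y + a : ℤ) : ℝ)) := by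
        rw [← ee_add]
        congr 1
        push_cast
        ring
      rw [e2]
      ring
    · rw [zero_mul]
  show ‖∑ z ∈ Icc (1:ℤ) n, (if z + a ∈ S then f (z + a) else 0) * ee (th * z)‖ ≤ κ
  rw [h1, norm_mul, norm_ee, one_mul]
  exact h th

end Pool.Agent.H9S
end

-- from Lib.H9S.T2
section
/-!
CHUNK T2 (S/M). `INVL` on boxes. For `c1` put `c1' = min c1 1` and take `c2'`, `n0'` of `INVL` for `c1'`. Apply `INVL` with `4n` instead of `n`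
(`n ≥ n0'`, `n ≥ 1`) to the functions of `T1_shift` (bounded by `1`: `W (· + 2a)`, and the cut off functions are `f (x + a)` or `0`);
`n^(1-c1) ≤ n^(1-c1') ≤ (4n)^(1-c1')` (`1 - c1' ≥ 0`), `T1_FBg` / `T1_FBf` with `4n`. Result `(4n)^(2-c2') ≤ n^(2-c2)` with `c2 = min c2' 1 / 2`:
use `INVL` with its `c2'` replaced by `min c2' 1` (`(4n)^(2-c2') ≤ (4n)^(2 - min c2' 1)`), and
`(4n)^(2-2c2) = 4^(2-2c2) n^(2-2c2) ≤ 16 n^(2 - 2 c2) ≤ n^(2-c2)` for `16 ≤ n^c2`.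
Casts: `((4 * n : ℕ) : ℤ) = 4 * n`.
-/
namespace Pool.Agent.H9S
open Finset Pool.Agent.H44W

theorem t2_mono {T : Finset ℤ} {g : ℤ → ℂ} {κ κ' : ℝ} (h : FB T g κ) (hk : κ ≤ κ') : FB T g κ' :=
  fun th => (h th).trans hk

theorem t2_large (c : ℝ) (hc : 0 < c) : ∃ N : ℕ, ∀ n : ℕ, N ≤ n → (16 : ℝ) ≤ (n : ℝ) ^ c := by
  refine ⟨⌈(16 : ℝ) ^ (1 / c)⌉₊, fun n hn => ?_⟩
  have h1 : (16 : ℝ) ^ (1 / c) ≤ n := (Nat.le_ceil _).trans (by exact_mod_cast hn)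
  have h2 : ((16 : ℝ) ^ (1 / c)) ^ c ≤ (n : ℝ) ^ c := Real.rpow_le_rpow (by positivity) h1 hc.le
  rw [← Real.rpow_mul (by norm_num), one_div_mul_cancel hc.ne', Real.rpow_one] at h2
  exact h2

theorem T2_box (h : INVL) : INVB := by
  intro c1 hc1
  obtain ⟨c2', hc2', n0', hn0'⟩ := h (min c1 1) (lt_min hc1 one_pos)
  obtain ⟨c3, hc3⟩ : ∃ c3 : ℝ, c3 = min c2' 1 := ⟨_, rfl⟩
  have hc30 : 0 < c3 := by
    rw [hc3]
    exact lt_min hc2' one_pos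
  obtain ⟨N, hN⟩ := t2_large (c3 / 2) (by positivity)
  refine ⟨c3 / 2, by positivity, max (max n0' N) 1, ?_⟩
  intro n hn a S T hS hT W f g hW hf hg hFB
  have n1 : n0' ≤ n := (le_max_left _ _).trans ((le_max_left _ _).trans hn)
  have n2 : N ≤ n := (le_max_right _ _).trans ((le_max_left _ _).trans hn)
  have n3 : 1 ≤ n := (le_max_right _ _).trans hn
  have hnr : (1:ℝ) ≤ n := by exact_mod_cast n3
  have hn0 : (0:ℝ) < n := by linarith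
  have hcast : ((4 * n : ℕ) : ℤ) = 4 * n := by push_cast; ring
  have hcastR : ((4 * n : ℕ) : ℝ) = 4 * n := by push_cast; ring
  have hS' : ∀ x ∈ S, a + 1 ≤ x ∧ x ≤ a + ((4 * n : ℕ) : ℤ) := by
    rw [hcast]
    exact hS
  have hT' : ∀ y ∈ T, 1 - a ≤ y ∧ y ≤ ((4 * n : ℕ) : ℤ) - a := by
    rw [hcast]
    exact hT
  rw [T1_shift (4 * n) a S T hS' hT']
  have hκ : (n:ℝ) ^ (1 - c1) ≤ ((4 * n : ℕ) : ℝ) ^ (1 - min c1 1) := by
    have e1 : (n:ℝ) ^ (1 - c1) ≤ (n:ℝ) ^ (1 - min c1 1) :=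
      Real.rpow_le_rpow_of_exponent_le hnr (by linarith [min_le_left c1 1])
    refine e1.trans (Real.rpow_le_rpow hn0.le ?_ (by linarith [min_le_right c1 1]))
    rw [hcastR]
    linarith
  have hmain := hn0' (4 * n) (by omega) (fun v => W (v + 2 * a)) (fun x => if x + a ∈ S then f (x + a) else 0)
    (fun y => if y - a ∈ T then g (y - a) else 0) (fun v => hW _) (fun x => by
      beta_reduce
      split_ifs
      · exact hf _
      · rw [norm_zero]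
        exact zero_le_one) (fun y => by
      beta_reduce
      split_ifs
      · exact hg _
      · rw [norm_zero]
        exact zero_le_one) (by
      rcases hFB with hg' | hf'
      · exact Or.inl (t2_mono (T1_FBg (4 * n) a T hT' g _ hg') hκ)
      · exact Or.inr (t2_mono (T1_FBf (4 * n) a S hS' f _ hf') hκ))
  refine hmain.trans ?_
  have h4n : (1:ℝ) ≤ ((4 * n : ℕ) : ℝ) := by
    rw [hcastR]
    linarith
  have e1 : ((4 * n : ℕ) : ℝ) ^ (2 - c2') ≤ ((4 * n : ℕ) : ℝ) ^ (2 - c3) :=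
    Real.rpow_le_rpow_of_exponent_le h4n (by rw [hc3]; linarith [min_le_left c2' 1])
  refine e1.trans ?_
  rw [hcastR, Real.mul_rpow (by norm_num) hn0.le]
  have e2 : (4:ℝ) ^ (2 - c3) ≤ 16 := by
    have e3 : (4:ℝ) ^ (2 - c3) ≤ (4:ℝ) ^ (2:ℝ) :=
      Real.rpow_le_rpow_of_exponent_le (by norm_num) (by linarith)
    refine e3.trans (le_of_eq ?_)
    norm_num
  have e4 : (n:ℝ) ^ (2 - c3 / 2) = (n:ℝ) ^ (c3 / 2) * (n:ℝ) ^ (2 - c3) := by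
    rw [← Real.rpow_add hn0]
    congr 1
    ring
  rw [e4]
  exact mul_le_mul_of_nonneg_right (e2.trans (hN n n2)) (Real.rpow_nonneg hn0.le _)

end Pool.Agent.H9S
end

-- from Lib.H9S.O1
section
/-!
CHUNK O1 (M/L). The operator bound for one weight. Fix `Cr, C`. Put `k1 = 1/(8 Cr)` and let `d1` be the constant of `INVE` for `(Cr, C, k1)`;
`k2 = min d1 1 / 8`, `d2` the constant of `INVE` for `(Cr, C, k2)`; `c = min (min d1 d2) (min (1/Cr) 1) / 100`. `n` large.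
Suppose `‖BF (Ec) W f g‖ > n^(2-c)` (so `A = n^(2-c)` below). `S = Sx X`, `T = Sy X` (`T` is nonempty, `#T ≤ 2X ≤ 2n`, `#S = X ≤ n`),
`Kf x y = Ec Q X (x+y) * W (x-y)`; for `x ∈ S`, `y ∈ T`: `x + y, x - y ∈ (X, 4X)`, so `‖Kf x y‖ ≤ n^(2c)`. `L = n * n^(2c)`.
Let `W₁ v = W v / n^c` for `X < v < 4X` and `0` else: `Bd W₁` and `BF (Ec) W f g = n^c BF (Ec) W₁ f g` on these boxes.
(1) `D1_dual` for `g` with `δ = n^(2 - 2c - 2c)/2`, `κ = n^(1-k2)`: `hδ`: `δ * (#T * L) ≤ n^(2-4c)/2 * 2n * n * n^(2c) = n^(4-2c) = A²`. `hinv`: if `δ ≤ ‖∑∑ f g' Kf‖`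
and no `th` has `κ ≤ ‖∑ g' ee‖` then `FB (Sy X) g' (n^(1-k2))`, so by `INVE` `‖∑∑ f g' Kf‖ = n^c ‖BF (Ec) W₁ f g'‖ ≤ n^(2 - d2 + c) < δ` (`n` large:
`d2 ≥ 100 c`): contradiction. Result: `th` with `n^(1-k2) * L ≤ ‖BF (Ec) W f (ee(th ·))‖`, and `n^(1-k2) L ≥ n^(2-k2) =: A'`.
(2) `D1_dual` with the roles exchanged: `S ↔ T`, `Kf' y x = Kf x y` (`Finset.sum_comm`, `mul_comm`), `f := ee(th ·)`, `g := f`, `L` as before
(`#T ≤ 2n`: the hypothesis `hK` needs `‖∑_{y ∈ T} ee(th y) Kf x y‖ ≤ 2 n n^(2c)`, so take `L' = 2 L`), `A' = n^(2-k2)`, `δ' = n^(2 - 2 k2 - 2c)/2`,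
`κ' = n^(1-k1)`: `δ' (#S L') ≤ n^(2-2k2-2c)/2 * n * 2 n n^(2c) = A'^2`. `hinv` from `INVE` (now `FB (Sx X) f'`): `n^(2 - d1 + c) < δ'` as `2 k2 + 3c < d1`
(`k2 ≤ d1/8`). Result: `th'` with `n^(1-k1) L' ≤ ‖BF (Ec) W (ee(th' ·)) (ee(th ·))‖`, so it is `≥ n^(2-k1)`.
(3) `X1_exp` with `M = n^c`, `τ = X Q^(-1/4)`: the same form is `≤ 3 X n^c X Q^(-1/4) ≤ 3 n^(2 + c - 1/(4 Cr))` (`Q ≥ n^(1/Cr)`, so `Q^(-1/4) ≤ n^(-1/(4Cr))`):
contradiction for `n` large, because `k1 + c < 1/(4 Cr)`.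
(`Bd` of `fun y => ee (th * y)`: `norm_ee`.)
-/
namespace Pool.Agent.H9S
open Finset Pool.Agent.H44W

theorem o1_mem {X : ℕ} {x y : ℤ} (hx : x ∈ Sx X) (hy : y ∈ Sy X) :
    (X:ℤ) ≤ x + y ∧ x + y ≤ 4 * X ∧ (X:ℤ) < x - y ∧ x - y < 4 * X := by
  simp only [Sx, Sy, Finset.mem_Ico, Finset.mem_Ioo] at hx hy
  omega

theorem o1_rp {N c a b : ℝ} (hN : 1 ≤ N) (h4 : 4 ≤ N ^ c) (hab : a + c ≤ b) : 4 * N ^ a ≤ N ^ b := by
  have h0 : 0 < N := by linarith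
  have h1 : N ^ (a + c) ≤ N ^ b := Real.rpow_le_rpow_of_exponent_le hN hab
  rw [Real.rpow_add h0] at h1
  have h2 : 0 < N ^ a := Real.rpow_pos_of_pos h0 a
  nlinarith

theorem o1_BF (S T : Finset ℤ) (F W f g : ℤ → ℂ) :
    BF S T F W f g = ∑ x ∈ S, ∑ y ∈ T, f x * g y * (F (x + y) * W (x - y)) := by
  unfold BF
  refine Finset.sum_congr rfl fun x _ => Finset.sum_congr rfl fun y _ => ?_
  ring

theorem o1_BF' (S T : Finset ℤ) (F W f g : ℤ → ℂ) :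
    BF S T F W f g = ∑ y ∈ T, ∑ x ∈ S, g y * f x * (F (x + y) * W (x - y)) := by
  unfold BF
  rw [Finset.sum_comm]
  refine Finset.sum_congr rfl fun x _ => Finset.sum_congr rfl fun y _ => ?_
  ring

theorem o1_scale (S T : Finset ℤ) (F W W₁ f g : ℤ → ℂ) (s : ℝ) (hs : 0 ≤ s)
    (h : ∀ x ∈ S, ∀ y ∈ T, W (x - y) = s * W₁ (x - y)) :
    ‖BF S T F W f g‖ = s * ‖BF S T F W₁ f g‖ := by
  have h1 : BF S T F W f g = (s:ℂ) * BF S T F W₁ f g := by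
    unfold BF
    rw [Finset.mul_sum]
    refine Finset.sum_congr rfl fun x hx => ?_
    rw [Finset.mul_sum]
    refine Finset.sum_congr rfl fun y hy => ?_
    rw [h x hx y hy]
    ring
  rw [h1, norm_mul, Complex.norm_real, Real.norm_of_nonneg hs]

theorem o1_ee (th : ℝ) : Bd (fun y => ee (th * y)) := fun x => le_of_eq (norm_ee _)

theorem o1_cardS (X : ℕ) : (Sx X).card = X := by
  simp only [Sx, Int.card_Ico]
  omega

theorem o1_cardT (X : ℕ) : (Sy X).card ≤ 2 * X := by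
  simp only [Sy, Int.card_Ioo]
  omega

theorem o1_sumle (S : Finset ℤ) (u : ℤ → ℂ) (B : ℝ) (h : ∀ x ∈ S, ‖u x‖ ≤ B) :
    ‖∑ x ∈ S, u x‖ ≤ S.card * B := by
  refine (norm_sum_le _ _).trans ?_
  calc ∑ x ∈ S, ‖u x‖ ≤ ∑ x ∈ S, B := Finset.sum_le_sum h
    _ = S.card * B := by rw [Finset.sum_const, nsmul_eq_mul]

theorem o1_Q {N Qr Cr : ℝ} (hN : 1 ≤ N) (hQ : 0 < Qr) (hCr : 1 ≤ Cr)
    (h : Real.log N ≤ Cr * Real.log Qr) : Qr ^ (-(1 / 4) : ℝ) ≤ N ^ (-(1 / (4 * Cr))) := by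
  have h0 : 0 < N := by linarith
  rw [Real.rpow_def_of_pos hQ, Real.rpow_def_of_pos h0]
  apply Real.exp_le_exp.mpr
  have hc : 0 < Cr := by linarith
  have h1 : Real.log N * (1 / (4 * Cr)) ≤ Real.log Qr * (1 / 4) := by
    have h2 : Real.log N * (1 / (4 * Cr)) ≤ (Cr * Real.log Qr) * (1 / (4 * Cr)) :=
      mul_le_mul_of_nonneg_right h (by positivity)
    have h3 : (Cr * Real.log Qr) * (1 / (4 * Cr)) = Real.log Qr * (1 / 4) := by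
      field_simp
    linarith
  linarith


theorem O1_op (h : INVE) : OPW := by
  intro Cr C hCr hC
  have hCr0 : 0 < Cr := by linarith
  obtain ⟨d1, hd1, n1, H1⟩ := h Cr C (1 / (8 * Cr)) hCr hC (by positivity)
  have hk2 : 0 < min d1 1 / 8 := by positivity
  obtain ⟨d2, hd2, n2, H2⟩ := h Cr C (min d1 1 / 8) hCr hC hk2
  obtain ⟨k1, hk1⟩ : ∃ k1, k1 = 1 / (8 * Cr) := ⟨_, rfl⟩
  obtain ⟨k2, hk2'⟩ : ∃ k2, k2 = min d1 1 / 8 := ⟨_, rfl⟩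
  rw [← hk1] at H1
  rw [← hk2'] at H2 hk2
  obtain ⟨c, hc⟩ : ∃ c, c = min (min d1 d2) (min (1 / Cr) 1) / 100 := ⟨_, rfl⟩
  have hc0 : 0 < c := by rw [hc]; positivity
  have hcd1 : 100 * c ≤ d1 := by
    rw [hc]; have := min_le_left (min d1 d2) (min (1 / Cr) 1); have := min_le_left d1 d2; linarith
  have hcd2 : 100 * c ≤ d2 := by
    rw [hc]; have := min_le_left (min d1 d2) (min (1 / Cr) 1); have := min_le_right d1 d2; linarith
  have hck : 12 * c ≤ k1 := by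
    have h1 := min_le_right (min d1 d2) (min (1 / Cr) 1)
    have h2 := min_le_left (1 / Cr) (1:ℝ)
    have h3 : k1 = 1 / Cr / 8 := by rw [hk1]; field_simp
    have h4 : 0 < 1 / Cr := by positivity
    rw [hc, h3]; linarith
  have hkd : 8 * k2 ≤ d1 := by rw [hk2']; have := min_le_left d1 1; linarith
  refine ⟨c, hc0, max (max n1 n2) (⌈(4:ℝ) ^ (1 / c)⌉₊ + 1), ?_⟩
  intro n hn Q X hQ hlog hX1 hXn hLK hEF hEb W f g hW hf hg
  have hn1 : n1 ≤ n := le_trans (le_trans (le_max_left _ _) (le_max_left _ _)) hn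
  have hn2 : n2 ≤ n := le_trans (le_trans (le_max_right _ _) (le_max_left _ _)) hn
  have hn3 : ⌈(4:ℝ) ^ (1 / c)⌉₊ + 1 ≤ n := le_trans (le_max_right _ _) hn
  have hn4 : (4:ℝ) ^ (1 / c) ≤ n := by
    have h1 := Nat.le_ceil ((4:ℝ) ^ (1 / c))
    have h2 : (⌈(4:ℝ) ^ (1 / c)⌉₊ : ℝ) ≤ n := by exact_mod_cast (by omega : ⌈(4:ℝ) ^ (1 / c)⌉₊ ≤ n)
    linarith
  have hN1 : (1:ℝ) ≤ n := by exact_mod_cast (by omega : 1 ≤ n)
  obtain ⟨N, hNn⟩ : ∃ N : ℝ, N = n := ⟨_, rfl⟩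
  have hN : 1 ≤ N := by rw [hNn]; exact hN1
  have hN0 : 0 < N := by linarith
  have h4 : 4 ≤ N ^ c := by
    have h1 : ((4:ℝ) ^ (1 / c)) ^ c ≤ N ^ c :=
      Real.rpow_le_rpow (by positivity) (by rw [hNn]; exact hn4) hc0.le
    rw [← Real.rpow_mul (by norm_num), one_div, inv_mul_cancel₀ hc0.ne', Real.rpow_one] at h1
    exact h1
  specialize H1 n hn1 Q X hQ hlog hX1 hXn hLK
  specialize H2 n hn2 Q X hQ hlog hX1 hXn hLK
  rw [← hNn] at H1 H2 hEb hW ⊢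
  have hXN : (X:ℝ) ≤ N := by rw [hNn]; exact_mod_cast hXn
  have hX0 : (0:ℝ) ≤ X := Nat.cast_nonneg X
  by_contra hcon
  have hcon' : N ^ (2 - c) < ‖BF (Sx X) (Sy X) (Ec Q X) W f g‖ := not_le.mp hcon
  have hS : (Sx X).Nonempty := by
    rw [← Finset.card_pos, o1_cardS]; omega
  have hT : (Sy X).Nonempty := ⟨0, by simp only [Sy, Finset.mem_Ioo]; omega⟩
  have hNc0 : 0 < N ^ c := by linarith
  -- the scaled weight
  obtain ⟨W₁, hW₁⟩ : ∃ W₁ : ℤ → ℂ, W₁ = fun v => if (X:ℤ) < v ∧ v < 4 * X then W v / ((N ^ c : ℝ) : ℂ) else 0 :=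
    ⟨_, rfl⟩
  have hBW : Bd W₁ := by
    intro v
    rw [hW₁]
    dsimp only
    split_ifs with hv
    · rw [norm_div, Complex.norm_real, Real.norm_of_nonneg hNc0.le, div_le_one hNc0]
      exact hW v hv.1 hv.2
    · simp
  have hWs : ∀ x ∈ Sx X, ∀ y ∈ Sy X, W (x - y) = ((N ^ c : ℝ) : ℂ) * W₁ (x - y) := by
    intro x hx y hy
    have hm := o1_mem hx hy
    rw [hW₁]
    dsimp only
    rw [if_pos ⟨hm.2.2.1, hm.2.2.2⟩, mul_div_cancel₀]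
    exact_mod_cast hNc0.ne'
  have hsc : ∀ f' g' : ℤ → ℂ, ‖BF (Sx X) (Sy X) (Ec Q X) W f' g'‖ = N ^ c * ‖BF (Sx X) (Sy X) (Ec Q X) W₁ f' g'‖ :=
    fun f' g' => o1_scale _ _ _ _ _ _ _ _ hNc0.le hWs
  have hKb : ∀ x ∈ Sx X, ∀ y ∈ Sy X, ‖Ec Q X (x + y) * W (x - y)‖ ≤ N ^ (2 * c) := by
    intro x hx y hy
    have hm := o1_mem hx hy
    rw [norm_mul, two_mul, Real.rpow_add hN0]
    exact mul_le_mul (hEb _ hm.1 hm.2.1) (hW _ hm.2.2.1 hm.2.2.2) (norm_nonneg _) hNc0.le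
  have hN2c : 0 < N ^ (2 * c) := Real.rpow_pos_of_pos hN0 _
  -- step 1
  obtain ⟨th, hth⟩ := D1_dual (Sx X) (Sy X) hT (fun x y => Ec Q X (x + y) * W (x - y)) (N * N ^ (2 * c))
    (by positivity) f
    (by
      intro y hy
      refine (o1_sumle (Sx X) _ (N ^ (2 * c)) ?_).trans ?_
      · intro x hx
        rw [norm_mul]
        calc ‖f x‖ * ‖Ec Q X (x + y) * W (x - y)‖ ≤ 1 * N ^ (2 * c) :=
              mul_le_mul (hf x) (hKb x hx y hy) (norm_nonneg _) (by norm_num)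
          _ = N ^ (2 * c) := one_mul _
      · rw [o1_cardS]
        exact mul_le_mul_of_nonneg_right hXN hN2c.le)
    (N ^ (2 - 4 * c) / 2) (N ^ (1 - k2)) (N ^ (2 - c)) (Real.rpow_nonneg hN0.le _)
    (by
      intro g' hg' hd
      by_contra hno
      push Not at hno
      have hb := H2 W₁ f g' hBW hf hg' (Or.inl fun th => (hno th).le)
      rw [← o1_BF, hsc] at hd
      have h5 : N ^ c * ‖BF (Sx X) (Sy X) (Ec Q X) W₁ f g'‖ ≤ N ^ (2 - d2 + c) := by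
        rw [add_comm (2 - d2) c, Real.rpow_add hN0]
        exact mul_le_mul_of_nonneg_left hb hNc0.le
      have h6 : 4 * N ^ (2 - d2 + c) ≤ N ^ (2 - 4 * c) := o1_rp hN h4 (by linarith)
      have h7 : 0 < N ^ (2 - 4 * c) := Real.rpow_pos_of_pos hN0 _
      linarith)
    g hg (by rw [← o1_BF]; exact hcon'.le)
    (by
      have h5 : ((Sy X).card : ℝ) ≤ 2 * N := by
        have : ((Sy X).card : ℝ) ≤ 2 * X := by exact_mod_cast o1_cardT X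
        linarith
      have h6 : 0 ≤ N ^ (2 - 4 * c) / 2 := by positivity
      calc N ^ (2 - 4 * c) / 2 * (((Sy X).card : ℝ) * (N * N ^ (2 * c)))
          ≤ N ^ (2 - 4 * c) / 2 * ((2 * N) * (N * N ^ (2 * c))) :=
            mul_le_mul_of_nonneg_left (mul_le_mul_of_nonneg_right h5 (by positivity)) h6
        _ = N ^ (2 - 4 * c) * N ^ (2:ℝ) * N ^ (2 * c) := by
            rw [Real.rpow_two]; ring
        _ = (N ^ (2 - c)) ^ 2 := by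
            rw [← Real.rpow_add hN0, ← Real.rpow_add hN0, ← Real.rpow_natCast, ← Real.rpow_mul hN0.le]
            congr 1
            push_cast
            ring)
  rw [← o1_BF (Sx X) (Sy X) (Ec Q X) W f (fun y => ee (th * y))] at hth
  have hA' : N ^ (2 - k2) ≤ ‖BF (Sx X) (Sy X) (Ec Q X) W f (fun y => ee (th * y))‖ := by
    refine le_trans ?_ hth
    have h5 : N ^ (2 - k2) = N ^ (1 - k2) * N := by
      nth_rewrite 3 [← Real.rpow_one N]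
      rw [← Real.rpow_add hN0]; congr 1; ring
    have h6 : 1 ≤ N ^ (2 * c) := Real.one_le_rpow hN (by linarith)
    have h7 : 0 ≤ N ^ (1 - k2) * N := by positivity
    rw [h5, ← mul_assoc]
    nlinarith
  -- step 2
  obtain ⟨th', hth'⟩ := D1_dual (Sy X) (Sx X) hS (fun y x => Ec Q X (x + y) * W (x - y)) (2 * N * N ^ (2 * c))
    (by positivity) (fun y => ee (th * y))
    (by
      intro x hx
      refine (o1_sumle (Sy X) _ (N ^ (2 * c)) ?_).trans ?_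
      · intro y hy
        rw [norm_mul]
        calc ‖ee (th * y)‖ * ‖Ec Q X (x + y) * W (x - y)‖ ≤ 1 * N ^ (2 * c) :=
              mul_le_mul (norm_ee _).le (hKb x hx y hy) (norm_nonneg _) (by norm_num)
          _ = N ^ (2 * c) := one_mul _
      · have h5 : ((Sy X).card : ℝ) ≤ 2 * N := by
          have : ((Sy X).card : ℝ) ≤ 2 * X := by exact_mod_cast o1_cardT X
          linarith
        exact mul_le_mul_of_nonneg_right h5 hN2c.le)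
    (N ^ (2 - 2 * k2 - 2 * c) / 2) (N ^ (1 - k1)) (N ^ (2 - k2)) (Real.rpow_nonneg hN0.le _)
    (by
      intro g' hg' hd
      by_contra hno
      push Not at hno
      have hb := H1 W₁ g' (fun y => ee (th * y)) hBW hg' (o1_ee th) (Or.inr fun th => (hno th).le)
      rw [← o1_BF' (Sx X) (Sy X) (Ec Q X) W g' (fun y => ee (th * y)), hsc] at hd
      have h5 : N ^ c * ‖BF (Sx X) (Sy X) (Ec Q X) W₁ g' (fun y => ee (th * y))‖ ≤ N ^ (2 - d1 + c) := by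
        rw [add_comm (2 - d1) c, Real.rpow_add hN0]
        exact mul_le_mul_of_nonneg_left hb hNc0.le
      have h6 : 4 * N ^ (2 - d1 + c) ≤ N ^ (2 - 2 * k2 - 2 * c) := o1_rp hN h4 (by linarith)
      have h7 : 0 < N ^ (2 - 2 * k2 - 2 * c) := Real.rpow_pos_of_pos hN0 _
      linarith)
    f hf (by rw [← o1_BF' (Sx X) (Sy X) (Ec Q X) W f (fun y => ee (th * y))]; exact hA')
    (by
      have h5 : ((Sx X).card : ℝ) ≤ N := by rw [o1_cardS]; exact hXN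
      have h6 : 0 ≤ N ^ (2 - 2 * k2 - 2 * c) / 2 := by positivity
      calc N ^ (2 - 2 * k2 - 2 * c) / 2 * (((Sx X).card : ℝ) * (2 * N * N ^ (2 * c)))
          ≤ N ^ (2 - 2 * k2 - 2 * c) / 2 * (N * (2 * N * N ^ (2 * c))) :=
            mul_le_mul_of_nonneg_left (mul_le_mul_of_nonneg_right h5 (by positivity)) h6
        _ = N ^ (2 - 2 * k2 - 2 * c) * N ^ (2:ℝ) * N ^ (2 * c) := by
            rw [Real.rpow_two]; ring
        _ = (N ^ (2 - k2)) ^ 2 := by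
            rw [← Real.rpow_add hN0, ← Real.rpow_add hN0, ← Real.rpow_natCast, ← Real.rpow_mul hN0.le]
            congr 1
            push_cast
            ring)
  rw [← o1_BF' (Sx X) (Sy X) (Ec Q X) W (fun x => ee (th' * x)) (fun y => ee (th * y))] at hth'
  -- step 3
  have h8 := X1_exp X (Ec Q X) W (N ^ c) (X * (Q:ℝ) ^ (-(1 / 4) : ℝ)) th' th hNc0.le hW hEF
  have hQ0 : (0:ℝ) < Q := by exact_mod_cast (by omega : 0 < Q)
  have h9 : (Q:ℝ) ^ (-(1 / 4) : ℝ) ≤ N ^ (-(1 / (4 * Cr))) :=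
    o1_Q hN hQ0 hCr (by rw [hNn]; exact hlog)
  have hk1' : -(1 / (4 * Cr)) = -(2 * k1) := by rw [hk1]; field_simp; norm_num
  rw [hk1'] at h9
  have h10 : 3 * (X:ℝ) * N ^ c * (X * (Q:ℝ) ^ (-(1 / 4) : ℝ)) ≤ 3 * N * N ^ c * (N * N ^ (-(2 * k1))) := by
    have hq : 0 ≤ (Q:ℝ) ^ (-(1 / 4) : ℝ) := Real.rpow_nonneg hQ0.le _
    apply mul_le_mul
    · exact mul_le_mul_of_nonneg_right (by linarith) hNc0.le
    · exact mul_le_mul hXN h9 hq hN0.le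
    · positivity
    · positivity
  have h11 : 3 * N * N ^ c * (N * N ^ (-(2 * k1))) = 3 * N ^ (2 + c - 2 * k1) := by
    have h12 : N ^ (2 + c - 2 * k1) = N ^ (2:ℝ) * N ^ c * N ^ (-(2 * k1)) := by
      rw [← Real.rpow_add hN0, ← Real.rpow_add hN0]; congr 1
    rw [h12, Real.rpow_two]; ring
  have h13 : N ^ (2 - k1) ≤ N ^ (1 - k1) * (2 * N * N ^ (2 * c)) := by
    have h5 : N ^ (2 - k1) = N ^ (1 - k1) * N := by
      nth_rewrite 3 [← Real.rpow_one N]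
      rw [← Real.rpow_add hN0]; congr 1; ring
    have h6 : 1 ≤ N ^ (2 * c) := Real.one_le_rpow hN (by linarith)
    have h7 : 0 ≤ N ^ (1 - k1) * N := by positivity
    rw [h5]
    nlinarith
  have h14 : 4 * N ^ (2 + c - 2 * k1) ≤ N ^ (2 - k1) := o1_rp hN h4 (by linarith)
  have h15 : 0 < N ^ (2 + c - 2 * k1) := Real.rpow_pos_of_pos hN0 _
  linarith

end Pool.Agent.H9S
end

-- from Lib.H9S.E1
section
/-!
CHUNK E1 (M). The inverse theorem for `E = lp - Lk Q (X/Q²)`. Let `Cr, C, c1` be given and `c2'`, `n0'` the constants of `INVK` for `c1`.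
Put `c3 = min (c2' / 8) (1 / Cr)`, `Q' = ⌊n^c3⌋₊`, `Y = X / Q^2`.
* `1 ≤ Q'` (`n ≥ 1`), `n^c3 / 2 ≤ Q' ≤ n^c3` (`Nat.lt_floor_add_one`, `n^c3 ≥ 1`), and `Q' ≤ Q`: `n^c3 ≤ n^(1/Cr) ≤ Q` because
  `log n ≤ Cr log Q`.
* `Y < X` (`Q ≥ 2`, `X ≥ 1`: `Nat.div_lt_self`).
* `Ec Q X m = lc m - Lc Q' Y m - (Lc Q Y m - Lc Q' Y m)`, so `BF(Ec) = BF(lc) - BF(Lc Q' Y) - BF(difference)` (linearity, `Finset.sum_sub_distrib`) and
  `‖BF(Ec)‖ ≤ n^(2-c2') + Q'^3 n^(2-c2') + C X² Q'^(-1/1152) ≤ 2 n^(2 - c2' + 3 c3) + 2 C n^(2 - c3/1152)`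
  (`X ≤ n`; `Q'^(-1/1152) ≤ (n^c3/2)^(-1/1152) ≤ 2 n^(-c3/1152)`), `3 c3 ≤ 3 c2'/8`.
* `c2 = min (c2' / 2) (c3 / 1152) / 2`: both terms are at most `(2 + 2C) n^(2 - 2 c2) ≤ n^(2 - c2)` for `n` large.
-/
namespace Pool.Agent.H9S
open Finset Pool.Agent.H44W

theorem e1_lin (S T : Finset ℤ) (F1 F2 F3 W f g : ℤ → ℂ) :
    BF S T (fun m => F1 m - F2 m - F3 m) W f g = BF S T F1 W f g - BF S T F2 W f g - BF S T F3 W f g := by
  unfold BF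
  rw [← Finset.sum_sub_distrib, ← Finset.sum_sub_distrib]
  refine Finset.sum_congr rfl fun x _ => ?_
  rw [← Finset.sum_sub_distrib, ← Finset.sum_sub_distrib]
  refine Finset.sum_congr rfl fun y _ => ?_
  ring

theorem E1_inv (h : INVK) : INVE := by
  intro Cr C c1 hCr hC hc1
  obtain ⟨c2', hc2', n0', h'⟩ := h c1 hc1
  have hCr0 : 0 < Cr := by linarith
  obtain ⟨c3, hc3⟩ : ∃ c3 : ℝ, c3 = min (c2' / 8) (1 / Cr) := ⟨_, rfl⟩
  have hc30 : 0 < c3 := by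
    rw [hc3]
    exact lt_min (by positivity) (by positivity)
  have hc3a : c3 ≤ c2' / 8 := by
    rw [hc3]
    exact min_le_left _ _
  have hc3b : c3 ≤ 1 / Cr := by
    rw [hc3]
    exact min_le_right _ _
  obtain ⟨c2, hc2⟩ : ∃ c2 : ℝ, c2 = min (c2' / 2) (c3 / 1152) / 2 := ⟨_, rfl⟩
  have hc20 : 0 < c2 := by
    rw [hc2]
    have : 0 < min (c2' / 2) (c3 / 1152) := lt_min (by positivity) (by positivity)
    linarith
  have hc2a : 2 * c2 ≤ c2' / 2 := by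
    rw [hc2]
    have := min_le_left (c2' / 2) (c3 / 1152)
    linarith
  have hc2b : 2 * c2 ≤ c3 / 1152 := by
    rw [hc2]
    have := min_le_right (c2' / 2) (c3 / 1152)
    linarith
  refine ⟨c2, hc20, max (max n0' 1) ⌈(2 + 2 * C) ^ (1 / c2)⌉₊, ?_⟩
  intro n hn Q X hQ hlog hX hXn hLK W f g hW hf hg hFB
  have hn0' : n0' ≤ n := le_trans (le_trans (le_max_left _ _) (le_max_left _ _)) hn
  have hn1 : 1 ≤ n := le_trans (le_trans (le_max_right _ _) (le_max_left _ _)) hn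
  have hn2 : (2 + 2 * C) ^ (1 / c2) ≤ n := (Nat.le_ceil _).trans (by exact_mod_cast (le_max_right _ _).trans hn)
  have hnR : (1 : ℝ) ≤ n := by exact_mod_cast hn1
  have hnR0 : (0 : ℝ) < n := by linarith
  have hQR : (0 : ℝ) < Q := by exact_mod_cast (by omega : 0 < Q)
  obtain ⟨x, hx⟩ : ∃ x : ℝ, x = (n : ℝ) ^ c3 := ⟨_, rfl⟩
  have hx1 : 1 ≤ x := by
    rw [hx]
    exact Real.one_le_rpow hnR hc30.le
  have hx0 : 0 < x := by linarith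
  obtain ⟨Q', hQ'⟩ : ∃ Q' : ℕ, Q' = ⌊x⌋₊ := ⟨_, rfl⟩
  have hQ'1 : 1 ≤ Q' := by
    rw [hQ']
    exact Nat.le_floor (by exact_mod_cast hx1)
  have hQ'x : (Q' : ℝ) ≤ x := by
    rw [hQ']
    exact Nat.floor_le hx0.le
  have hQ'R : (1 : ℝ) ≤ Q' := by exact_mod_cast hQ'1
  have hQ'2 : x / 2 ≤ Q' := by
    have h1 : x < Q' + 1 := by
      rw [hQ']
      exact Nat.lt_floor_add_one x
    linarith
  have hxQ : x ≤ Q := by
    have h1 : x ≤ (n : ℝ) ^ (1 / Cr) := by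
      rw [hx]
      exact Real.rpow_le_rpow_of_exponent_le hnR hc3b
    refine h1.trans ?_
    rw [Real.rpow_def_of_pos hnR0, ← Real.le_log_iff_exp_le hQR, mul_one_div, div_le_iff₀ hCr0, mul_comm]
    exact hlog
  have hQQ : Q' ≤ Q := by exact_mod_cast hQ'x.trans hxQ
  have hY : X / Q ^ 2 < X := by
    refine Nat.div_lt_self (by omega) ?_
    have : 2 ^ 2 ≤ Q ^ 2 := Nat.pow_le_pow_left hQ 2
    omega
  obtain ⟨b1, b2⟩ := h' n hn0' X hX hXn W f g hW hf hg hFB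
  have b2' := b2 Q' (X / Q ^ 2) hY
  have b3 := hLK Q' hQ'1 hQQ W f g hW hf hg
  have e1 : BF (Sx X) (Sy X) (Ec Q X) W f g = BF (Sx X) (Sy X) lc W f g -
      BF (Sx X) (Sy X) (Lc Q' (X / Q ^ 2)) W f g -
      BF (Sx X) (Sy X) (fun m => Lc Q (X / Q ^ 2) m - Lc Q' (X / Q ^ 2) m) W f g := by
    rw [← e1_lin]
    congr 1
    funext m
    unfold Ec
    ring
  rw [e1]
  have n1 : ‖BF (Sx X) (Sy X) lc W f g - BF (Sx X) (Sy X) (Lc Q' (X / Q ^ 2)) W f g -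
      BF (Sx X) (Sy X) (fun m => Lc Q (X / Q ^ 2) m - Lc Q' (X / Q ^ 2) m) W f g‖ ≤
      (n : ℝ) ^ (2 - c2') + (Q' : ℝ) ^ 3 * (n : ℝ) ^ (2 - c2') + C * (X : ℝ) ^ 2 * (Q' : ℝ) ^ (-(1 / 1152 : ℝ)) := by
    refine (norm_sub_le _ _).trans (add_le_add ((norm_sub_le _ _).trans (add_le_add b1 b2')) b3)
  refine n1.trans ?_
  have m1 : (n : ℝ) ^ (2 - c2') ≤ (n : ℝ) ^ (2 - 2 * c2) :=
    Real.rpow_le_rpow_of_exponent_le hnR (by linarith)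
  have m2 : (Q' : ℝ) ^ 3 * (n : ℝ) ^ (2 - c2') ≤ (n : ℝ) ^ (2 - 2 * c2) := by
    have h1 : (Q' : ℝ) ^ 3 ≤ (n : ℝ) ^ (3 * c3) := by
      calc (Q' : ℝ) ^ 3 ≤ x ^ 3 := pow_le_pow_left₀ (by linarith) hQ'x 3
        _ = (n : ℝ) ^ (3 * c3) := by
          rw [hx, ← Real.rpow_natCast, ← Real.rpow_mul hnR0.le]
          congr 1
          push_cast
          ring
    calc (Q' : ℝ) ^ 3 * (n : ℝ) ^ (2 - c2') ≤ (n : ℝ) ^ (3 * c3) * (n : ℝ) ^ (2 - c2') :=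
          mul_le_mul_of_nonneg_right h1 (by positivity)
      _ = (n : ℝ) ^ (3 * c3 + (2 - c2')) := by rw [← Real.rpow_add hnR0]
      _ ≤ (n : ℝ) ^ (2 - 2 * c2) := Real.rpow_le_rpow_of_exponent_le hnR (by linarith)
  have m3 : C * (X : ℝ) ^ 2 * (Q' : ℝ) ^ (-(1 / 1152 : ℝ)) ≤ 2 * C * (n : ℝ) ^ (2 - 2 * c2) := by
    have h1 : (Q' : ℝ) ^ (-(1 / 1152 : ℝ)) ≤ 2 * (n : ℝ) ^ (-(c3 / 1152)) := by
      have h2 : (Q' : ℝ) ^ (-(1 / 1152 : ℝ)) ≤ (x / 2) ^ (-(1 / 1152 : ℝ)) :=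
        Real.rpow_le_rpow_of_nonpos (by positivity) hQ'2 (by norm_num)
      refine h2.trans ?_
      rw [Real.div_rpow hx0.le (by norm_num), hx, ← Real.rpow_mul hnR0.le]
      have h3 : c3 * (-(1 / 1152 : ℝ)) = -(c3 / 1152) := by ring
      have h4 : (2 : ℝ) ^ (-(1 / 1152 : ℝ)) = ((2 : ℝ) ^ (1 / 1152 : ℝ))⁻¹ := Real.rpow_neg (by norm_num) _
      rw [h3, h4, div_inv_eq_mul, mul_comm]
      refine mul_le_mul_of_nonneg_right ?_ (by positivity)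
      calc (2 : ℝ) ^ (1 / 1152 : ℝ) ≤ (2 : ℝ) ^ (1 : ℝ) :=
            Real.rpow_le_rpow_of_exponent_le (by norm_num) (by norm_num)
        _ = 2 := Real.rpow_one 2
    have h5 : (X : ℝ) ^ 2 ≤ (n : ℝ) ^ (2 : ℝ) := by
      have h6 : (X : ℝ) ≤ n := by exact_mod_cast hXn
      rw [Real.rpow_two]
      exact pow_le_pow_left₀ (by positivity) h6 2
    calc C * (X : ℝ) ^ 2 * (Q' : ℝ) ^ (-(1 / 1152 : ℝ)) ≤
        C * (n : ℝ) ^ (2 : ℝ) * (2 * (n : ℝ) ^ (-(c3 / 1152))) :=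
          mul_le_mul (mul_le_mul_of_nonneg_left h5 hC.le) h1 (by positivity) (by positivity)
      _ = 2 * C * (n : ℝ) ^ (2 + -(c3 / 1152)) := by
          rw [Real.rpow_add hnR0]
          ring
      _ ≤ 2 * C * (n : ℝ) ^ (2 - 2 * c2) := by
          refine mul_le_mul_of_nonneg_left ?_ (by positivity)
          exact Real.rpow_le_rpow_of_exponent_le hnR (by linarith)
  have m4 : 2 + 2 * C ≤ (n : ℝ) ^ c2 := by
    have h1 : ((2 + 2 * C) ^ (1 / c2)) ^ c2 ≤ (n : ℝ) ^ c2 :=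
      Real.rpow_le_rpow (by positivity) hn2 hc20.le
    rw [← Real.rpow_mul (by positivity), one_div_mul_cancel hc20.ne', Real.rpow_one] at h1
    exact h1
  calc _ ≤ (n : ℝ) ^ (2 - 2 * c2) + (n : ℝ) ^ (2 - 2 * c2) + 2 * C * (n : ℝ) ^ (2 - 2 * c2) :=
        add_le_add (add_le_add m1 m2) m3
    _ = (2 + 2 * C) * (n : ℝ) ^ (2 - 2 * c2) := by ring
    _ ≤ (n : ℝ) ^ c2 * (n : ℝ) ^ (2 - 2 * c2) := mul_le_mul_of_nonneg_right m4 (by positivity)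
    _ = (n : ℝ) ^ (2 - c2) := by
        rw [← Real.rpow_add hnR0]
        congr 1
        ring

end Pool.Agent.H9S
end

-- from Lib.H9S.O2
section
/-!
CHUNK O2 (M). Both halves. Let `c'`, `n0'` be the constants of `OPW` for `(Cr, C)`; `c = c'/4`. `n` large: `2 log (4n) + 2 n^(c'/4) ≤ n^c'` and
`2 n^(2-c') ≤ n^(2-c)`. On `[X, 4X]`: `|lp m| ≤ log (4n)` (`lp m = log m` or `0`, `1 ≤ m ≤ 4n`), `|Lk| ≤ n^c`, so `‖Ec‖ ≤ n^c'`.
Put `L = Lk Q (X/Q^2)`, `f₁ x = f x.toNat`, `g₁ y = if Z ≤ y ∧ y < 2Z then g y.toNat else 0`, `g₂ y = g₁ (-y)` (complex values).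
First half: `BF (Sx X) (Sy X) (Ec Q X) lc f₁ g₁ = ∑_x ∑_{y ∈ [Z,2Z)} f x g y (lp - L)(x+y) lp(x-y)` (`[Z, 2Z) ⊆ (-X, X)` since `2Z ≤ X`).
Second half: `BF (Sx X) (Sy X) (Ec Q X) (Lc Q (X/Q^2)) f₁ g₂ = ∑_x ∑_{y ∈ [Z,2Z)} f x g y (lp - L)(x-y) L(x+y)` (substitute `y ↦ -y`).
The sum of both is `∑∑ f x g y (lp(x+y) lp(x-y) - L(x+y) L(x-y))`, the form with `kp - km L` (definitions in H96G/Defs). Both halves are at most
`n^(2-c')` by `OPW`. Sums over `Ico (2X) (3X)` in `ℕ` and `Sx X` in `ℤ`: `Finset.sum_nbij'` with `Nat.cast` and `Int.toNat`.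
-/
namespace Pool.Agent.H9S
open Finset Pool.Agent.H44W
open Pool.Agent.Lib.H68T (lp Lk)
open Pool.Agent.Lib.H96G (kp km)

theorem o2_im (a b : ℕ) : (Ico a b).image (Nat.cast : ℕ → ℤ) = Ico (a:ℤ) (b:ℤ) := by
  ext z
  simp only [mem_image, mem_Ico]
  constructor
  · rintro ⟨m, ⟨h1, h2⟩, rfl⟩
    omega
  · rintro ⟨h1, h2⟩
    exact ⟨z.toNat, by omega, by omega⟩

theorem o2_x (X : ℕ) (φ : ℤ → ℂ) : ∑ x ∈ Sx X, φ x = ∑ x ∈ Ico (2 * X) (3 * X), φ (x : ℤ) := by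
  have h : Sx X = (Ico (2 * X) (3 * X)).image (Nat.cast : ℕ → ℤ) := by
    rw [o2_im, Sx]
    push_cast
    rfl
  rw [h, Finset.sum_image (fun a _ b _ hab => by exact_mod_cast hab)]

theorem o2_y1 (X Z : ℕ) (h : 2 * Z ≤ X) (G φ : ℤ → ℂ) :
    ∑ y ∈ Sy X, (if (Z:ℤ) ≤ y ∧ y < 2 * Z then G y else 0) * φ y = ∑ y ∈ Ico Z (2 * Z), G (y : ℤ) * φ (y : ℤ) := by
  have h1 : (Sy X).filter (fun y => (Z:ℤ) ≤ y ∧ y < 2 * Z) = (Ico Z (2 * Z)).image (Nat.cast : ℕ → ℤ) := by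
    rw [o2_im, Sy]
    ext y
    simp only [mem_filter, mem_Ioo, mem_Ico]
    push_cast
    omega
  rw [← Finset.sum_image (s := Ico Z (2 * Z)) (g := (Nat.cast : ℕ → ℤ)) (f := fun y : ℤ => G y * φ y)
    (fun a _ b _ hab => by exact_mod_cast hab), ← h1, Finset.sum_filter]
  refine Finset.sum_congr rfl fun y _ => ?_
  split_ifs
  · rfl
  · rw [zero_mul]

theorem o2_y2 (X Z : ℕ) (h : 2 * Z ≤ X) (G φ : ℤ → ℂ) :
    ∑ y ∈ Sy X, (if (Z:ℤ) ≤ -y ∧ -y < 2 * Z then G (-y) else 0) * φ y =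
      ∑ y ∈ Ico Z (2 * Z), G (y : ℤ) * φ (-(y : ℤ)) := by
  have h1 : ∑ y ∈ Sy X, (if (Z:ℤ) ≤ -y ∧ -y < 2 * Z then G (-y) else 0) * φ y =
      ∑ y ∈ Sy X, (if (Z:ℤ) ≤ y ∧ y < 2 * Z then G y else 0) * φ (-y) := by
    refine Finset.sum_nbij' (fun y => -y) (fun y => -y) ?_ ?_ ?_ ?_ ?_
    · intro y hy
      rw [Sy, mem_Ioo] at *
      omega
    · intro y hy
      rw [Sy, mem_Ioo] at *
      omega
    · intro y _
      exact neg_neg y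
    · intro y _
      exact neg_neg y
    · intro y _
      rw [neg_neg]
  rw [h1, o2_y1 X Z h G (fun y => φ (-y))]

theorem o2_alg (lx ly Lx Ly : ℝ) (a b : ℝ) :
    ((a : ℂ) * (b : ℂ) * ((lx : ℂ) - (Lx : ℂ)) * (ly : ℂ)) + ((a : ℂ) * (b : ℂ) * ((ly : ℂ) - (Ly : ℂ)) * (Lx : ℂ)) =
      ((a * b * (lx * ly - Lx * Ly) : ℝ) : ℂ) := by
  push_cast
  ring

theorem o2_split (Q X Z : ℕ) (h : 2 * Z ≤ X) (f g : ℕ → ℝ) :
    ((∑ x ∈ Ico (2 * X) (3 * X), ∑ y ∈ Ico Z (2 * Z), f x * g y * (kp x y - km (Lk Q (X / Q ^ 2)) x y) : ℝ) : ℂ) =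
      BF (Sx X) (Sy X) (Ec Q X) lc (fun x => ((f x.toNat : ℝ) : ℂ))
        (fun y => if (Z:ℤ) ≤ y ∧ y < 2 * Z then ((g y.toNat : ℝ) : ℂ) else 0) +
      BF (Sx X) (Sy X) (Ec Q X) (Lc Q (X / Q ^ 2)) (fun x => ((f x.toNat : ℝ) : ℂ))
        (fun y => if (Z:ℤ) ≤ -y ∧ -y < 2 * Z then ((g (-y).toNat : ℝ) : ℂ) else 0) := by
  have e1 : BF (Sx X) (Sy X) (Ec Q X) lc (fun x => ((f x.toNat : ℝ) : ℂ))
        (fun y => if (Z:ℤ) ≤ y ∧ y < 2 * Z then ((g y.toNat : ℝ) : ℂ) else 0) =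
      ∑ x ∈ Ico (2 * X) (3 * X), ∑ y ∈ Ico Z (2 * Z), (f x : ℂ) * (g y : ℂ) *
        (lc ((x:ℤ) + y) - Lc Q (X / Q ^ 2) ((x:ℤ) + y)) * lc ((x:ℤ) - y) := by
    rw [BF, o2_x]
    refine Finset.sum_congr rfl fun x _ => ?_
    rw [Int.toNat_natCast]
    have h1 : ∀ y ∈ Sy X, (f x : ℂ) * (if (Z:ℤ) ≤ y ∧ y < 2 * Z then ((g y.toNat : ℝ) : ℂ) else 0) * Ec Q X ((x:ℤ) + y) *
        lc ((x:ℤ) - y) = (if (Z:ℤ) ≤ y ∧ y < 2 * Z then ((fun y : ℤ => ((g y.toNat : ℝ) : ℂ)) y) else 0) *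
          ((fun y : ℤ => (f x : ℂ) * Ec Q X ((x:ℤ) + y) * lc ((x:ℤ) - y)) y) := by
      intro y _
      ring
    rw [Finset.sum_congr rfl h1, o2_y1 X Z h (fun y : ℤ => ((g y.toNat : ℝ) : ℂ))]
    refine Finset.sum_congr rfl fun y _ => ?_
    rw [Int.toNat_natCast, Ec]
    ring
  have e2 : BF (Sx X) (Sy X) (Ec Q X) (Lc Q (X / Q ^ 2)) (fun x => ((f x.toNat : ℝ) : ℂ))
        (fun y => if (Z:ℤ) ≤ -y ∧ -y < 2 * Z then ((g (-y).toNat : ℝ) : ℂ) else 0) =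
      ∑ x ∈ Ico (2 * X) (3 * X), ∑ y ∈ Ico Z (2 * Z), (f x : ℂ) * (g y : ℂ) *
        (lc ((x:ℤ) - y) - Lc Q (X / Q ^ 2) ((x:ℤ) - y)) * Lc Q (X / Q ^ 2) ((x:ℤ) + y) := by
    rw [BF, o2_x]
    refine Finset.sum_congr rfl fun x _ => ?_
    rw [Int.toNat_natCast]
    have h1 : ∀ y ∈ Sy X, (f x : ℂ) * (if (Z:ℤ) ≤ -y ∧ -y < 2 * Z then ((g (-y).toNat : ℝ) : ℂ) else 0) *
        Ec Q X ((x:ℤ) + y) * Lc Q (X / Q ^ 2) ((x:ℤ) - y) =
          (if (Z:ℤ) ≤ -y ∧ -y < 2 * Z then ((fun y : ℤ => ((g y.toNat : ℝ) : ℂ)) (-y)) else 0) *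
          ((fun y : ℤ => (f x : ℂ) * Ec Q X ((x:ℤ) + y) * Lc Q (X / Q ^ 2) ((x:ℤ) - y)) y) := by
      intro y _
      ring
    rw [Finset.sum_congr rfl h1, o2_y2 X Z h (fun y : ℤ => ((g y.toNat : ℝ) : ℂ))]
    refine Finset.sum_congr rfl fun y _ => ?_
    simp only [Int.toNat_natCast, Ec, sub_neg_eq_add, ← sub_eq_add_neg]
    ring
  rw [e1, e2, ← Finset.sum_add_distrib, Complex.ofReal_sum]
  refine Finset.sum_congr rfl fun x _ => ?_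
  rw [← Finset.sum_add_distrib, Complex.ofReal_sum]
  refine Finset.sum_congr rfl fun y _ => ?_
  rw [kp, km]
  exact (o2_alg _ _ _ _ _ _).symm

theorem O2_two (h : OPW) : ∀ Cr C : ℝ, 1 ≤ Cr → 0 < C → ∃ c : ℝ, 0 < c ∧ ∃ n0 : ℕ, ∀ n : ℕ, n0 ≤ n →
    ∀ Q X Z : ℕ, 2 ≤ Q → Real.log n ≤ Cr * Real.log Q → 1 ≤ Z → 2 * Z ≤ X → X ≤ n → LKd C Q X →
    (∀ th : ℝ, ∀ u v : ℤ, (X:ℤ) ≤ u → v ≤ 4 * X →
      ‖∑ m ∈ Ico u v, Ec Q X m * ee (th * m)‖ ≤ X * (Q:ℝ) ^ (-(1 / 4) : ℝ)) →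
    (∀ m : ℤ, (X:ℤ) ≤ m → m ≤ 4 * X → |Lk Q (X / Q ^ 2) m| ≤ (n:ℝ) ^ c) →
    ∀ f g : ℕ → ℝ, (∀ x, |f x| ≤ 1) → (∀ y, |g y| ≤ 1) →
    |∑ x ∈ Ico (2 * X) (3 * X), ∑ y ∈ Ico Z (2 * Z), f x * g y * (kp x y - km (Lk Q (X / Q ^ 2)) x y)| ≤
      (n:ℝ) ^ (2 - c) := by
  intro Cr C hCr hC
  obtain ⟨c', hc', n0', hO⟩ := h Cr C hCr hC
  have ht1 : ∀ᶠ n : ℕ in Filter.atTop, (8:ℝ) * (4 / c') ≤ (n:ℝ) ^ (c' / 4) :=
    ((tendsto_rpow_atTop (by positivity : 0 < c' / 4)).comp tendsto_natCast_atTop_atTop).eventually_ge_atTop _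
  have ht2 : ∀ᶠ n : ℕ in Filter.atTop, (8:ℝ) ≤ (n:ℝ) ^ (c' / 4) :=
    ((tendsto_rpow_atTop (by positivity : 0 < c' / 4)).comp tendsto_natCast_atTop_atTop).eventually_ge_atTop _
  obtain ⟨n1, hn1⟩ := Filter.eventually_atTop.1 (ht1.and ht2)
  refine ⟨c' / 4, by positivity, max (max n0' n1) 4, fun n hn Q X Z hQ hlog hZ hZX hXn hLK hF hL f g hf hg => ?_⟩
  have hn0 : n0' ≤ n := by omega
  have hn4 : 4 ≤ n := by omega
  obtain ⟨hp1, hp2⟩ := hn1 n (by omega)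
  have hnp : (0:ℝ) < n := by
    have : 0 < n := by omega
    exact_mod_cast this
  have hn1' : (1:ℝ) ≤ n := by
    have : 1 ≤ n := by omega
    exact_mod_cast this
  have hX1 : 1 ≤ X := by omega
  set P : ℝ := (n:ℝ) ^ (c' / 4) with hP
  have hP0 : 0 < P := by rw [hP]; positivity
  have hPc : (n:ℝ) ^ c' = P ^ 4 := by
    rw [hP, ← Real.rpow_natCast, ← Real.rpow_mul hnp.le]
    congr 1
    push_cast
    ring
  -- the logarithm
  have hlog4 : Real.log (4 * n) ≤ P ^ 2 / 4 := by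
    have h1 : Real.log (4 * n) ≤ 2 * Real.log n := by
      have h2 : Real.log (4 * (n:ℝ)) = Real.log 4 + Real.log n := Real.log_mul (by norm_num) hnp.ne'
      have h3 : Real.log 4 ≤ Real.log n := Real.log_le_log (by norm_num) (by exact_mod_cast hn4)
      linarith
    have h2 : Real.log n ≤ (n:ℝ) ^ (c' / 4) / (c' / 4) := Real.log_le_rpow_div hnp.le (by positivity)
    have h3 : (n:ℝ) ^ (c' / 4) / (c' / 4) = P * (4 / c') := by
      rw [← hP]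
      field_simp
    rw [h3] at h2
    have h4 : P * (4 / c') ≤ P * (P / 8) := by
      refine mul_le_mul_of_nonneg_left ?_ hP0.le
      linarith
    nlinarith
  have hlpb : ∀ m : ℤ, m ≤ 4 * X → ‖lc m‖ ≤ P ^ 2 / 4 := by
    intro m hm
    rw [lc, Complex.norm_real, Real.norm_eq_abs, Pool.Agent.Lib.H68T.lp]
    split_ifs with hpr
    · have hm1 : (1:ℤ) ≤ m := by
        have := hpr.pos
        omega
      have hm1' : (1:ℝ) ≤ (m:ℝ) := by exact_mod_cast hm1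
      rw [abs_of_nonneg (Real.log_nonneg hm1')]
      refine le_trans (Real.log_le_log (by linarith) ?_) hlog4
      have h5 : (m:ℝ) ≤ 4 * (X:ℝ) := by exact_mod_cast hm
      have h6 : (X:ℝ) ≤ n := by exact_mod_cast hXn
      linarith
    · rw [abs_zero]
      positivity
  have hLb : ∀ m : ℤ, (X:ℤ) ≤ m → m ≤ 4 * X → ‖Lc Q (X / Q ^ 2) m‖ ≤ P := by
    intro m h1 h2
    rw [Lc, Complex.norm_real, Real.norm_eq_abs]
    exact hL m h1 h2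
  have hP24 : P ^ 2 ≤ P ^ 4 := pow_le_pow_right₀ (by linarith) (by norm_num)
  have hP4 : P ^ 2 / 4 ≤ P ^ 4 := by
    have := sq_nonneg P
    linarith
  have hPP4 : P ≤ P ^ 4 := by
    have h1 : P ^ 1 ≤ P ^ 4 := pow_le_pow_right₀ (by linarith) (by norm_num)
    rwa [pow_one] at h1
  have hE : ∀ m : ℤ, (X:ℤ) ≤ m → m ≤ 4 * X → ‖Ec Q X m‖ ≤ (n:ℝ) ^ c' := by
    intro m h1 h2
    rw [hPc, Ec]
    refine (norm_sub_le _ _).trans ?_
    have a1 := hlpb m h2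
    have a2 := hLb m h1 h2
    have a3 : P ≤ P ^ 2 / 8 := by nlinarith
    linarith
  have hf1 : Bd (fun x : ℤ => ((f x.toNat : ℝ) : ℂ)) := by
    intro x
    show ‖((f x.toNat : ℝ) : ℂ)‖ ≤ 1
    rw [Complex.norm_real, Real.norm_eq_abs]
    exact hf _
  have hg1 : Bd (fun y : ℤ => if (Z:ℤ) ≤ y ∧ y < 2 * Z then ((g y.toNat : ℝ) : ℂ) else 0) := by
    intro y
    show ‖(if (Z:ℤ) ≤ y ∧ y < 2 * Z then ((g y.toNat : ℝ) : ℂ) else 0)‖ ≤ 1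
    split_ifs
    · rw [Complex.norm_real, Real.norm_eq_abs]
      exact hg _
    · rw [norm_zero]
      exact zero_le_one
  have hg2 : Bd (fun y : ℤ => if (Z:ℤ) ≤ -y ∧ -y < 2 * Z then ((g (-y).toNat : ℝ) : ℂ) else 0) := by
    intro y
    show ‖(if (Z:ℤ) ≤ -y ∧ -y < 2 * Z then ((g (-y).toNat : ℝ) : ℂ) else 0)‖ ≤ 1
    split_ifs
    · rw [Complex.norm_real, Real.norm_eq_abs]
      exact hg _
    · rw [norm_zero]
      exact zero_le_one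
  have r1 := hO n hn0 Q X hQ hlog hX1 hXn hLK hF hE lc _ _
    (fun v _ hv => (hlpb v hv.le).trans (by rw [hPc]; exact hP4)) hf1 hg1
  have r2 := hO n hn0 Q X hQ hlog hX1 hXn hLK hF hE (Lc Q (X / Q ^ 2)) _ _
    (fun v hv1 hv => (hLb v hv1.le hv.le).trans (by rw [hPc]; exact hPP4)) hf1 hg2
  have r3 := o2_split Q X Z hZX f g
  have r4 : |∑ x ∈ Ico (2 * X) (3 * X), ∑ y ∈ Ico Z (2 * Z), f x * g y * (kp x y - km (Lk Q (X / Q ^ 2)) x y)| ≤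
      (n:ℝ) ^ (2 - c') + (n:ℝ) ^ (2 - c') := by
    rw [← Real.norm_eq_abs, ← Complex.norm_real, r3]
    exact (norm_add_le _ _).trans (add_le_add r1 r2)
  refine r4.trans ?_
  have r5 : (n:ℝ) ^ (2 - c' / 4) = (n:ℝ) ^ (2 - c') * P ^ 3 := by
    rw [hP, ← Real.rpow_natCast, ← Real.rpow_mul hnp.le, ← Real.rpow_add hnp]
    congr 1
    push_cast
    ring
  rw [r5]
  have r6 : 0 ≤ (n:ℝ) ^ (2 - c') := Real.rpow_nonneg hnp.le _
  have r7 : (2:ℝ) ≤ P ^ 3 := by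
    have : (8:ℝ) ^ 3 ≤ P ^ 3 := pow_le_pow_left₀ (by norm_num) hp2 3
    linarith
  nlinarith

end Pool.Agent.H9S
end
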