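import Pool.Agent.Lib.H1M.RV2.M001
import Pool.Agent.Lib.H1M.RV2.M004
import Pool.Agent.Lib.H1M.RV2.M006
import Pool.Agent.Lib.H1M.RV2.M012
import Pool.Agent.Lib.H1M.RV2.M019

/-! Merged copies (to shorten the build) of Lib.H15P.BH1, Lib.H15P.BH2, Lib.H15P.BH3, Lib.H15P.BH4, Lib.H57C.BH1, Lib.H59C.LSA, Lib.H59C.LSC, Lib.H59C.BIL, Lib.H59C.TY2. -/

-- from Lib.H15P.BH1
section

/-!
# Chunk BH1: the alternating binomial sums
-/

open Finset

namespace Pool.Agent.Lib.H15P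

theorem TT_zero (r : ℕ) : TT r 0 = 1 := by
  unfold TT
  rw [Finset.sum_range_succ']
  simp

/-- `Σ_{l ≤ 2r} (-1)^l (s+1 choose l) = (s choose 2r)`
(`Int.alternating_sum_range_choose_eq_choose` or Pascal and induction). -/
theorem TT_succ (r s : ℕ) : TT r (s + 1) = (s.choose (2 * r) : ℝ) := by
  unfold TT
  have key : ∀ m : ℕ, ∑ l ∈ range (m + 1), (-1 : ℝ) ^ l * ((s + 1).choose l : ℝ)
      = (-1) ^ m * (s.choose m : ℝ) := by
    intro m
    induction m with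
    | zero => simp
    | succ m ih =>
      rw [Finset.sum_range_succ, ih, Nat.choose_succ_succ]
      push_cast
      ring
  rw [key (2 * r)]
  rw [pow_mul]
  norm_num

theorem TT_nonneg (r s : ℕ) : 0 ≤ TT r s := by
  cases s with
  | zero => rw [TT_zero]; norm_num
  | succ s => rw [TT_succ]; positivity

theorem TT_le (r s : ℕ) : TT r s ≤ 2 ^ s := by
  cases s with
  | zero => rw [TT_zero]; norm_num
  | succ s =>
    rw [TT_succ]
    have h1 : s.choose (2 * r) ≤ 2 ^ s := Nat.choose_le_two_pow s (2 * r)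
    have h2 : ((s.choose (2 * r) : ℕ) : ℝ) ≤ 2 ^ s := by exact_mod_cast h1
    have h3 : (0 : ℝ) ≤ 2 ^ s := by positivity
    calc ((s.choose (2 * r) : ℕ) : ℝ) ≤ 2 ^ s := h2
      _ ≤ 2 ^ (s + 1) := by rw [pow_succ]; linarith

theorem TT_eq_zero (r s : ℕ) (h1 : 1 ≤ s) (h2 : s ≤ 2 * r) : TT r s = 0 := by
  obtain ⟨t, rfl⟩ : ∃ t, s = t + 1 := ⟨s - 1, by omega⟩
  rw [TT_succ, Nat.choose_eq_zero_of_lt (by omega)]
  norm_num



theorem DB_empty {ι : Type} [Fintype ι] [DecidableEq ι] (q : ι → ℝ) (blk : ι → ℕ)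
    (r0 N i : ℕ) (ht : tau q blk r0 i < 1) : DB q blk r0 N i ∅ = 1 := by
  unfold DB
  have h1 : ∏ b ∈ Ico (i + 1) N, TT (r0 + (b - i)) (AB blk b (∅ : Finset ι)).card = 1 := by
    apply Finset.prod_eq_one
    intro b _
    simp [AB, TT_zero]
  have h2 : TT r0 (AB blk i (∅ : Finset ι)).card = 1 := by simp [AB, TT_zero]
  rw [h1, h2, one_mul, div_self]
  intro h
  linarith

end Pool.Agent.Lib.H15P
end

-- from Lib.H15P.BH2
section

/-!
# Chunk BH2: independence of the blocks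
-/

open Finset

namespace Pool.Agent.Lib.H15P

variable {ι : Type} [Fintype ι] [DecidableEq ι]

/-- Bijection `A ↦ (A ∩ s, A \ s)`. -/
theorem bh2_sum_split (s : Finset ι) (H K : Finset ι → ℝ) :
    ∑ A : Finset ι, H (A ∩ s) * K (A \ s)
      = (∑ B ∈ s.powerset, H B) * (∑ C ∈ sᶜ.powerset, K C) := by
  rw [Finset.sum_mul_sum, ← Finset.sum_product']
  refine Finset.sum_bij' (fun A _ => (A ∩ s, A \ s)) (fun p _ => p.1 ∪ p.2) ?_ ?_ ?_ ?_ ?_
  · intro A _
    simp only [mem_product, mem_powerset]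
    refine ⟨Finset.inter_subset_right, ?_⟩
    intro x hx
    simp only [mem_sdiff] at hx
    simp [hx.2]
  · intro p _
    exact mem_univ _
  · intro A _
    ext x
    simp only [mem_union, mem_inter, mem_sdiff]
    tauto
  · rintro ⟨B, C⟩ hp
    simp only [mem_product, mem_powerset] at hp
    obtain ⟨hB, hC⟩ := hp
    have hC' : ∀ x ∈ C, x ∉ s := fun x hx => by simpa using hC hx
    ext x
    · simp only [mem_inter, mem_union]
      constructor
      · rintro ⟨h | h, hs⟩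
        · exact h
        · exact absurd hs (hC' x h)
      · intro h
        exact ⟨Or.inl h, hB h⟩
    · simp only [mem_sdiff, mem_union]
      constructor
      · rintro ⟨h | h, hs⟩
        · exact absurd (hB h) hs
        · exact h
      · intro h
        exact ⟨Or.inr h, hC' x h⟩
  · intro A _
    rfl

/-- Partial weight. -/
noncomputable def bh2w (q : ι → ℝ) (s A : Finset ι) : ℝ :=
  ∏ i ∈ s, if i ∈ A then q i else 1 - q i

theorem bh2_bw (q : ι → ℝ) (s A : Finset ι) :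
    bw q A = bh2w q s (A ∩ s) * bh2w q sᶜ (A \ s) := by
  unfold bw bh2w
  rw [← Finset.prod_mul_prod_compl s (fun i => if i ∈ A then q i else 1 - q i)]
  congr 1
  · apply Finset.prod_congr rfl
    intro i hi
    simp [hi]
  · apply Finset.prod_congr rfl
    intro i hi
    have : i ∉ s := by simpa using hi
    simp [this]

/-- Independence: a function of `A ∩ s` times a function of `A \ s`. Bijection
`A ↦ (A ∩ s, A \ s)` onto `powerset s ×ˢ powerset sᶜ`, and the weight `bw` is the product of the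
weights of the two parts. -/
theorem ex_mul_of_split (q : ι → ℝ) (s : Finset ι) (F G : Finset ι → ℝ)
    (hF : ∀ A, F A = F (A ∩ s)) (hG : ∀ A, G A = G (A \ s)) :
    ex q (fun A => F A * G A) = ex q F * ex q G := by
  have gen : ∀ F G : Finset ι → ℝ, (∀ A, F A = F (A ∩ s)) → (∀ A, G A = G (A \ s)) →
      ex q (fun A => F A * G A)
        = (∑ B ∈ s.powerset, F B * bh2w q s B) * (∑ C ∈ sᶜ.powerset, G C * bh2w q sᶜ C) := by
    intro F G hF hG
    rw [← bh2_sum_split s (fun B => F B * bh2w q s B) (fun C => G C * bh2w q sᶜ C)]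
    unfold ex
    apply Finset.sum_congr rfl
    intro A _
    dsimp only
    rw [bh2_bw q s A, hF A, hG A]
    ring
  have h1 := gen F G hF hG
  have h2 := gen F (fun _ => 1) hF (fun _ => rfl)
  have h3 := gen (fun _ => 1) G (fun _ => rfl) hG
  have h4 := gen (fun _ => 1) (fun _ => 1) (fun _ => rfl) (fun _ => rfl)
  have h5 : ex q (fun _ => 1) = 1 := ex_one q
  simp only [mul_one, one_mul] at h2 h3 h4
  rw [h5] at h4
  have h2' : ex q F = (∑ B ∈ s.powerset, F B * bh2w q s B) * ∑ C ∈ sᶜ.powerset, bh2w q sᶜ C := h2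
  have h3' : ex q G = (∑ B ∈ s.powerset, bh2w q s B) * ∑ C ∈ sᶜ.powerset, G C * bh2w q sᶜ C := h3
  rw [h1, h2', h3']
  calc (∑ B ∈ s.powerset, F B * bh2w q s B) * ∑ C ∈ sᶜ.powerset, G C * bh2w q sᶜ C
      = (∑ B ∈ s.powerset, F B * bh2w q s B) * (∑ C ∈ sᶜ.powerset, G C * bh2w q sᶜ C) * 1 := by
        ring
    _ = _ := by rw [h4]; ring

/-- Induction with `ex_mul_of_split` (`s` = one block). -/
theorem ex_prod_blocks (q : ι → ℝ) (blk : ι → ℕ) (F : ℕ → Finset ι → ℝ) (T : Finset ℕ) :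
    ex q (fun A => ∏ b ∈ T, F b (AB blk b A)) = ∏ b ∈ T, ex q (fun A => F b (AB blk b A)) := by
  induction T using Finset.induction_on with
  | empty => simpa using ex_one q
  | insert b T hb ih =>
    simp only [Finset.prod_insert hb]
    rw [← ih]
    refine ex_mul_of_split q (univ.filter (fun i => blk i = b)) (fun A => F b (AB blk b A))
      (fun A => ∏ b ∈ T, F b (AB blk b A)) ?_ ?_
    · intro A
      congr 1
      ext x
      simp only [AB, mem_filter, mem_inter, mem_univ, true_and]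
      tauto
    · intro A
      apply Finset.prod_congr rfl
      intro c hc
      have hcb : c ≠ b := fun h => hb (h ▸ hc)
      congr 1
      ext x
      simp only [AB, mem_filter, mem_sdiff, mem_univ, true_and]
      constructor
      · rintro ⟨h1, h2⟩
        exact ⟨⟨h1, fun h => hcb (h2 ▸ h)⟩, h2⟩
      · rintro ⟨⟨h1, _⟩, h2⟩
        exact ⟨h1, h2⟩

end Pool.Agent.Lib.H15P
end

-- from Lib.H15P.BH3
section

/-!
# Chunk BH3: moments of the factor of one block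
-/

open Finset

namespace Pool.Agent.Lib.H15P

theorem bh3_pow_add (S y : ℝ) (hS : 0 ≤ S) (hy : 0 ≤ y) (s : ℕ) :
    S ^ (s + 1) + (s + 1) * y * S ^ s ≤ (S + y) ^ (s + 1) := by
  induction s with
  | zero => simp
  | succ s ih =>
    have h1 : (S + y) * (S ^ (s + 1) + (s + 1) * y * S ^ s) ≤ (S + y) * (S + y) ^ (s + 1) :=
      mul_le_mul_of_nonneg_left ih (by positivity)
    have h2 : 0 ≤ ((s : ℝ) + 1) * y ^ 2 * S ^ s := by positivity
    have h3 : (S + y) * (S ^ (s + 1) + (s + 1) * y * S ^ s)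
        = S ^ (s + 1 + 1) + ((s : ℝ) + 1 + 1) * y * S ^ (s + 1)
          + ((s : ℝ) + 1) * y ^ 2 * S ^ s := by ring
    have h4 : (S + y) ^ (s + 1 + 1) = (S + y) * (S + y) ^ (s + 1) := by ring
    push_cast
    rw [h4]
    linarith

/-- Elementary symmetric sums: `e_s ≤ (Σ y)^s/s!`. -/
theorem bh3_esymm_le {ι : Type} [DecidableEq ι] (y : ι → ℝ) (hy : ∀ i, 0 ≤ y i)
    (B : Finset ι) : ∀ s : ℕ, ∑ C ∈ B.powersetCard s, ∏ i ∈ C, y i
      ≤ (∑ i ∈ B, y i) ^ s / (s.factorial : ℝ) := by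
  induction B using Finset.induction_on with
  | empty =>
    intro s
    cases s with
    | zero => simp
    | succ s => rw [Finset.powersetCard_eq_empty.mpr (by simp)]; simp
  | insert a B ha ih =>
    intro s
    cases s with
    | zero => simp
    | succ s =>
      rw [Finset.powersetCard_succ_insert ha, Finset.sum_union, Finset.sum_image,
        Finset.sum_insert ha]
      · have h1 := ih (s + 1)
        have h2 := ih s
        have hS : 0 ≤ ∑ i ∈ B, y i := Finset.sum_nonneg (fun i _ => hy i)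
        have h3 : ∑ C ∈ B.powersetCard s, ∏ i ∈ insert a C, y i
            = y a * ∑ C ∈ B.powersetCard s, ∏ i ∈ C, y i := by
          rw [Finset.mul_sum]
          apply Finset.sum_congr rfl
          intro C hC
          rw [Finset.prod_insert]
          intro h
          exact ha ((Finset.mem_powersetCard.mp hC).1 h)
        rw [h3]
        have h4 := mul_le_mul_of_nonneg_left h2 (hy a)
        have h5 := bh3_pow_add (∑ i ∈ B, y i) (y a) hS (hy a) s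
        have hf : (0 : ℝ) < (s.factorial : ℝ) := by exact_mod_cast s.factorial_pos
        have hs1 : (0 : ℝ) < (s : ℝ) + 1 := by positivity
        have h6 : (((s + 1).factorial : ℕ) : ℝ) = ((s : ℝ) + 1) * s.factorial := by
          rw [Nat.factorial_succ]; push_cast; ring
        rw [h6] at h1 ⊢
        calc ∑ C ∈ B.powersetCard (s + 1), ∏ i ∈ C, y i
              + y a * ∑ C ∈ B.powersetCard s, ∏ i ∈ C, y i
            ≤ (∑ i ∈ B, y i) ^ (s + 1) / (((s : ℝ) + 1) * s.factorial)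
              + y a * ((∑ i ∈ B, y i) ^ s / s.factorial) := add_le_add h1 h4
          _ = ((∑ i ∈ B, y i) ^ (s + 1) + (s + 1) * y a * (∑ i ∈ B, y i) ^ s)
              / (((s : ℝ) + 1) * s.factorial) := by
              field_simp
          _ ≤ (y a + ∑ i ∈ B, y i) ^ (s + 1) / (((s : ℝ) + 1) * s.factorial) := by
              rw [add_comm (y a)]
              apply div_le_div_of_nonneg_right h5
              positivity
      · intro C hC D hD hCD
        have hC' : a ∉ C := fun h => ha ((Finset.mem_powersetCard.mp hC).1 h)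
        have hD' : a ∉ D := fun h => ha ((Finset.mem_powersetCard.mp hD).1 h)
        have := congrArg (fun X => X.erase a) hCD
        simpa [Finset.erase_insert hC', Finset.erase_insert hD'] using this
      · rw [Finset.disjoint_left]
        intro C hC hC2
        obtain ⟨D, _, rfl⟩ := Finset.mem_image.mp hC2
        exact ha ((Finset.mem_powersetCard.mp hC).1 (Finset.mem_insert_self a D))

variable {ι : Type} [Fintype ι] [DecidableEq ι]

/-- Expectation of a function of the part in `B`. -/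
theorem bh3_ex_inter (q : ι → ℝ) (B : Finset ι) (f : Finset ι → ℝ) :
    ex q (fun A => f (A ∩ B)) = ∑ C ∈ B.powerset, f C * bh2w q B C := by
  have h1 := bh2_sum_split B (fun C => f C * bh2w q B C) (fun C => bh2w q Bᶜ C)
  have h2 : ∑ C ∈ Bᶜ.powerset, bh2w q Bᶜ C = 1 := by
    have h3 := Finset.prod_add (fun i => q i) (fun i => 1 - q i) Bᶜ
    have h4 : ∏ i ∈ Bᶜ, (q i + (1 - q i)) = 1 := by
      apply Finset.prod_eq_one
      intro i _
      ring
    rw [h4] at h3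
    rw [h3]
    apply Finset.sum_congr rfl
    intro C hC
    rw [Finset.mem_powerset] at hC
    unfold bh2w
    rw [← Finset.prod_sdiff hC, mul_comm]
    congr 1
    · apply Finset.prod_congr rfl
      intro i hi
      simp [hi]
    · apply Finset.prod_congr rfl
      intro i hi
      have : i ∉ C := (Finset.mem_sdiff.mp hi).2
      simp [this]
  rw [h2, mul_one] at h1
  rw [← h1]
  unfold ex
  apply Finset.sum_congr rfl
  intro A _
  rw [bh2_bw q B A]
  ring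

theorem bh3_AB (blk : ι → ℕ) (b : ℕ) (A : Finset ι) :
    AB blk b A = A ∩ univ.filter (fun i => blk i = b) := by
  ext x
  simp [AB]

/-- `P(|A ∩ block| = s) = p0 e_s(q/(1-q)) ≤ p0 σ^s/s!`. -/
theorem ex_card_eq_le (q : ι → ℝ) (blk : ι → ℕ) (b : ℕ) (σ : ℝ) (h0 : ∀ i, 0 ≤ q i)
    (h1 : ∀ i, q i ≤ 1 / 2)
    (hσ : ∑ i ∈ univ.filter (fun i => blk i = b), q i / (1 - q i) ≤ σ) (s : ℕ) :
    ex q (fun A => if (AB blk b A).card = s then 1 else 0)
      ≤ p0 q blk b * (σ ^ s / s.factorial) := by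
  have hq : ∀ i, 0 < 1 - q i := fun i => by linarith [h1 i]
  have hy : ∀ i, 0 ≤ q i / (1 - q i) := fun i => div_nonneg (h0 i) (hq i).le
  simp only [bh3_AB]
  rw [bh3_ex_inter q (univ.filter (fun i => blk i = b)) (fun C => if C.card = s then 1 else 0)]
  set B := univ.filter (fun i => blk i = b) with hB
  have e1 : ∑ C ∈ B.powerset, (if C.card = s then (1 : ℝ) else 0) * bh2w q B C
      = ∑ C ∈ B.powersetCard s, bh2w q B C := by
    rw [Finset.powersetCard_eq_filter, Finset.sum_filter]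
    apply Finset.sum_congr rfl
    intro C _
    split_ifs <;> simp
  have e2 : ∀ C ∈ B.powersetCard s, bh2w q B C
      = p0 q blk b * ∏ i ∈ C, q i / (1 - q i) := by
    intro C hC
    have hC' : C ⊆ B := (Finset.mem_powersetCard.mp hC).1
    unfold bh2w p0
    rw [← hB, ← Finset.prod_sdiff hC', ← Finset.prod_sdiff hC' (f := fun i => 1 - q i), mul_assoc,
      ← Finset.prod_mul_distrib]
    congr 1
    · apply Finset.prod_congr rfl
      intro i hi
      have : i ∉ C := (Finset.mem_sdiff.mp hi).2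
      simp [this]
    · apply Finset.prod_congr rfl
      intro i hi
      rw [if_pos hi, mul_div_cancel₀]
      exact (hq i).ne'
  rw [e1, Finset.sum_congr rfl e2, ← Finset.mul_sum]
  have hp : 0 ≤ p0 q blk b := Finset.prod_nonneg (fun i _ => (hq i).le)
  apply mul_le_mul_of_nonneg_left _ hp
  refine (bh3_esymm_le (fun i => q i / (1 - q i)) hy B s).trans ?_
  apply div_le_div_of_nonneg_right _ (by positivity)
  exact pow_le_pow_left₀ (Finset.sum_nonneg (fun i _ => hy i)) hσ s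

theorem ex_card_zero (q : ι → ℝ) (blk : ι → ℕ) (b : ℕ) :
    ex q (fun A => if (AB blk b A).card = 0 then 1 else 0) = p0 q blk b := by
  simp only [bh3_AB]
  rw [bh3_ex_inter q (univ.filter (fun i => blk i = b)) (fun C => if C.card = 0 then 1 else 0)]
  rw [Finset.sum_eq_single ∅]
  · simp [bh2w, p0]
  · intro C _ hC
    rw [if_neg, zero_mul]
    simpa using hC
  · intro h
    exact absurd (Finset.empty_mem_powerset _) h

/-- `TT = 1` at `0`, `0` at `1, .., 2r`, at most `2^s` at `s > 2r`, and `(2^s)^a ≤ 16^s`. -/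
theorem ex_TT_pow_le (q : ι → ℝ) (blk : ι → ℕ) (b r : ℕ) (σ : ℝ) (h0 : ∀ i, 0 ≤ q i)
    (h1 : ∀ i, q i ≤ 1 / 2)
    (hσ : ∑ i ∈ univ.filter (fun i => blk i = b), q i / (1 - q i) ≤ σ)
    (a : ℕ) (ha1 : 1 ≤ a) (ha : a ≤ 4) :
    ex q (fun A => TT r (AB blk b A).card ^ a)
      ≤ p0 q blk b *
        (1 + ∑ s ∈ Ioc (2 * r) (Fintype.card ι), (16 * σ) ^ s / (s.factorial : ℝ)) := by
  have h1' : ∀ i, q i ≤ 1 := fun i => by linarith [h1 i]
  have hpt : ∀ A : Finset ι, TT r (AB blk b A).card ^ a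
      ≤ (if (AB blk b A).card = 0 then (1 : ℝ) else 0)
        + ∑ s ∈ Ioc (2 * r) (Fintype.card ι),
          (16 : ℝ) ^ s * (if (AB blk b A).card = s then (1 : ℝ) else 0) := by
    intro A
    have hcard : (AB blk b A).card ≤ Fintype.card ι := Finset.card_le_univ _
    have hnn : 0 ≤ ∑ s ∈ Ioc (2 * r) (Fintype.card ι),
          (16 : ℝ) ^ s * (if (AB blk b A).card = s then (1 : ℝ) else 0) := by
      apply Finset.sum_nonneg
      intro s _
      split_ifs <;> positivity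
    generalize (AB blk b A).card = t at *
    rcases Nat.eq_zero_or_pos t with h | h
    · subst h
      rw [TT_zero, if_pos rfl, one_pow]
      linarith
    · rw [if_neg (by omega), zero_add]
      rcases le_or_gt t (2 * r) with h2 | h2
      · rw [TT_eq_zero r t h h2, zero_pow (by omega)]
        exact hnn
      · have hmem : t ∈ Ioc (2 * r) (Fintype.card ι) := Finset.mem_Ioc.mpr ⟨h2, hcard⟩
        have hterm : (16 : ℝ) ^ t * (if t = t then (1 : ℝ) else 0)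
            ≤ ∑ s ∈ Ioc (2 * r) (Fintype.card ι),
              (16 : ℝ) ^ s * (if t = s then (1 : ℝ) else 0) := by
          apply Finset.single_le_sum (f := fun s => (16 : ℝ) ^ s * (if t = s then (1 : ℝ) else 0))
            _ hmem
          intro s _
          split_ifs <;> positivity
        rw [if_pos rfl, mul_one] at hterm
        refine le_trans ?_ hterm
        calc TT r t ^ a ≤ (2 ^ t) ^ a := pow_le_pow_left₀ (TT_nonneg r t) (TT_le r t) a
          _ ≤ (2 ^ t) ^ 4 := by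
              apply pow_le_pow_right₀ _ ha
              exact one_le_pow₀ (by norm_num)
          _ = 16 ^ t := by rw [← pow_mul, mul_comm, pow_mul]; norm_num
  refine (ex_mono q h0 h1' _ _ hpt).trans ?_
  rw [ex_add]
  have hsum : ex q (fun A => ∑ s ∈ Ioc (2 * r) (Fintype.card ι),
      (16 : ℝ) ^ s * (if (AB blk b A).card = s then (1 : ℝ) else 0))
      = ∑ s ∈ Ioc (2 * r) (Fintype.card ι), (16 : ℝ) ^ s *
        ex q (fun A => if (AB blk b A).card = s then (1 : ℝ) else 0) := by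
    unfold ex
    simp only [Finset.mul_sum, Finset.sum_mul]
    rw [Finset.sum_comm]
    apply Finset.sum_congr rfl
    intro s _
    apply Finset.sum_congr rfl
    intro A _
    ring
  rw [hsum, ex_card_zero, mul_add, mul_one, Finset.mul_sum]
  apply add_le_add le_rfl
  apply Finset.sum_le_sum
  intro s _
  have := mul_le_mul_of_nonneg_left (ex_card_eq_le q blk b σ h0 h1 hσ s)
    (by positivity : (0 : ℝ) ≤ 16 ^ s)
  refine this.trans (le_of_eq ?_)
  rw [mul_pow]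
  ring

theorem bh3_geom (m S : ℕ) : ∑ s ∈ Ioc m S, (1 / 8 : ℝ) ^ s ≤ (1 / 8) ^ m := by
  rcases le_or_gt m S with h | h
  · have : ∑ s ∈ Ioc m S, (1 / 8 : ℝ) ^ s ≤ (1 / 8) ^ m - (1 / 8) ^ S := by
      induction S, h using Nat.le_induction with
      | base => simp
      | succ S hS ih =>
        have e : Ioc m (S + 1) = insert (S + 1) (Ioc m S) := by
          ext x
          simp only [Finset.mem_Ioc, Finset.mem_insert]
          omega
        rw [e, Finset.sum_insert (by simp)]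
        have h8 : (0 : ℝ) < (1 / 8) ^ S := by positivity
        have h9 : (1 / 8 : ℝ) ^ (S + 1) = (1 / 8) ^ S * (1 / 8) := pow_succ _ _
        rw [h9]
        linarith
    have h8 : (0 : ℝ) < (1 / 8) ^ S := by positivity
    linarith
  · rw [Finset.Ioc_eq_empty (by omega)]
    simp

/-- For every `σ` the tails of the exponential series are small: for `s ≥ 2 r0 ≥ 200 σ`,
`(16 σ)^s/s! ≤ (16 e σ/s)^s ≤ 4^(-s)`. -/
theorem exists_r0 (σ : ℝ) (hσ : 0 ≤ σ) : ∃ r0 : ℕ, ∀ c S : ℕ,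
    ∑ s ∈ Ioc (2 * (r0 + c)) S, (16 * σ) ^ s / (s.factorial : ℝ) ≤ (1 / 4) ^ (c + 1) := by
  have ht := FloorSemiring.tendsto_pow_div_factorial_atTop (8 * (16 * σ))
  have hev := (ht.eventually (gt_mem_nhds (show (0 : ℝ) < 1 by norm_num)))
  obtain ⟨s0, hs0⟩ := Filter.eventually_atTop.mp hev
  refine ⟨s0 + 1, ?_⟩
  intro c S
  have hle : ∀ s ∈ Ioc (2 * (s0 + 1 + c)) S,
      (16 * σ) ^ s / (s.factorial : ℝ) ≤ (1 / 8) ^ s := by
    intro s hs
    rw [Finset.mem_Ioc] at hs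
    have h1 := (hs0 s (by omega)).le
    rw [mul_pow] at h1
    have h8 : (0 : ℝ) < 8 ^ s := by positivity
    rw [one_div, inv_pow]
    rw [← div_le_one (by positivity)]
    calc (16 * σ) ^ s / (s.factorial : ℝ) / (8 ^ s)⁻¹
        = 8 ^ s * (16 * σ) ^ s / (s.factorial : ℝ) := by
          rw [div_inv_eq_mul]; ring
      _ ≤ 1 := h1
  calc ∑ s ∈ Ioc (2 * (s0 + 1 + c)) S, (16 * σ) ^ s / (s.factorial : ℝ)
      ≤ ∑ s ∈ Ioc (2 * (s0 + 1 + c)) S, (1 / 8 : ℝ) ^ s := Finset.sum_le_sum hle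
    _ ≤ (1 / 8) ^ (2 * (s0 + 1 + c)) := bh3_geom _ _
    _ ≤ (1 / 8) ^ (c + 1) :=
        pow_le_pow_of_le_one (by norm_num) (by norm_num) (by omega)
    _ ≤ (1 / 4) ^ (c + 1) := pow_le_pow_left₀ (by norm_num) (by norm_num) _

end Pool.Agent.Lib.H15P
end

-- from Lib.H15P.BH4
section

/-!
# Chunk BH4: the one form functions
-/

open Finset

namespace Pool.Agent.Lib.H15P

variable {ι : Type} [Fintype ι] [DecidableEq ι]

/-- The common hypotheses. -/
structure Blocks (q : ι → ℝ) (blk : ι → ℕ) (σ : ℝ) (r0 n N : ℕ) : Prop where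
  q0 : ∀ i, 0 ≤ q i
  q1 : ∀ i, q i ≤ 1 / 2
  sum : ∀ b, ∑ i ∈ univ.filter (fun i => blk i = b), q i / (1 - q i) ≤ σ
  r0 : ∀ c S : ℕ,
    ∑ s ∈ Ioc (2 * (r0 + c)) S, (16 * σ) ^ s / (s.factorial : ℝ) ≤ (1 / 4) ^ (c + 1)
  nN : n ≤ N
  small : ∀ b, b < n → p0 q blk b ≤ 1 / 4

theorem bh4_q1 {q : ι → ℝ} {blk : ι → ℕ} {σ : ℝ} {r0 n N : ℕ} (h : Blocks q blk σ r0 n N) :
    ∀ i, q i ≤ 1 := fun i => by linarith [h.q1 i]

theorem bh4_p0_nonneg {q : ι → ℝ} {blk : ι → ℕ} {σ : ℝ} {r0 n N : ℕ}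
    (h : Blocks q blk σ r0 n N) (b : ℕ) : 0 ≤ p0 q blk b :=
  Finset.prod_nonneg (fun i _ => by linarith [h.q1 i])

theorem bh4_p0_le_one {q : ι → ℝ} {blk : ι → ℕ} {σ : ℝ} {r0 n N : ℕ}
    (h : Blocks q blk σ r0 n N) (b : ℕ) : p0 q blk b ≤ 1 :=
  Finset.prod_le_one (fun i _ => by linarith [h.q1 i]) (fun i _ => by linarith [h.q0 i])

theorem bh4_pow_le (q : ι → ℝ) (blk : ι → ℕ) (σ : ℝ) (r0 n N : ℕ) (h : Blocks q blk σ r0 n N)
    (b c a : ℕ) (ha1 : 1 ≤ a) (ha : a ≤ 4) :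
    ex q (fun A => TT (r0 + c) (AB blk b A).card ^ a)
      ≤ p0 q blk b * (1 + (1 / 4) ^ (c + 1)) := by
  refine (ex_TT_pow_le q blk b (r0 + c) σ h.q0 h.q1 (h.sum b) a ha1 ha).trans ?_
  apply mul_le_mul_of_nonneg_left _ (bh4_p0_nonneg h b)
  have := h.r0 c (Fintype.card ι)
  linarith

/-- `p0 ≤ tau ≤ p0 (1 + 1/4) ≤ 1/2`. -/
theorem tau_le (q : ι → ℝ) (blk : ι → ℕ) (σ : ℝ) (r0 n N : ℕ) (h : Blocks q blk σ r0 n N)
    (i : ℕ) (hi : i < n) : 0 ≤ tau q blk r0 i ∧ tau q blk r0 i ≤ 1 / 2 := by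
  constructor
  · exact ex_nonneg q h.q0 (bh4_q1 h) _ (fun A => TT_nonneg _ _)
  · have h1 := bh4_pow_le q blk σ r0 n N h i 0 1 le_rfl (by norm_num)
    simp only [pow_one, add_zero, zero_add] at h1
    unfold tau
    have h2 := h.small i hi
    have h3 := bh4_p0_nonneg h i
    linarith

theorem bh4_prod_le (i k : ℕ) :
    ∏ b ∈ Ico i (i + k), (1 + (1 / 4 : ℝ) ^ (b - i + 1)) ≤ 2 - (1 / 4) ^ k := by
  induction k with
  | zero => simp; norm_num
  | succ k ih =>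
    rw [← add_assoc, Finset.prod_Ico_succ_top (by omega)]
    have e : i + k - i + 1 = k + 1 := by omega
    rw [e]
    have h4 : (0 : ℝ) < (1 / 4) ^ k := by positivity
    have h5 : (1 / 4 : ℝ) ^ (k + 1) = (1 / 4) ^ k * (1 / 4) := pow_succ _ _
    rw [h5]
    have h6 : (0 : ℝ) ≤ 1 + (1 / 4) ^ k * (1 / 4) := by positivity
    have h7 := mul_le_mul_of_nonneg_right ih h6
    refine h7.trans ?_
    nlinarith [mul_pos h4 h4]

theorem bh4_prod_le' (i N : ℕ) :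
    ∏ b ∈ Ico i N, (1 + (1 / 4 : ℝ) ^ (b - i + 1)) ≤ 2 := by
  rcases le_or_gt i N with h | h
  · obtain ⟨k, rfl⟩ := Nat.exists_eq_add_of_le h
    have h1 := bh4_prod_le i k
    have h4 : (0 : ℝ) < (1 / 4) ^ k := by positivity
    linarith
  · rw [Finset.Ico_eq_empty (by omega)]
    norm_num

theorem bh4_prod_ex (q : ι → ℝ) (blk : ι → ℕ) (σ : ℝ) (r0 n N : ℕ) (h : Blocks q blk σ r0 n N)
    (i j a : ℕ) (hij : i ≤ j) (ha1 : 1 ≤ a) (ha : a ≤ 4) :
    ∏ b ∈ Ico j N, ex q (fun A => TT (r0 + (b - i)) (AB blk b A).card ^ a)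
      ≤ 2 * ∏ b ∈ Ico j N, p0 q blk b := by
  calc ∏ b ∈ Ico j N, ex q (fun A => TT (r0 + (b - i)) (AB blk b A).card ^ a)
      ≤ ∏ b ∈ Ico j N, (p0 q blk b * (1 + (1 / 4 : ℝ) ^ (b - j + 1))) := by
        apply Finset.prod_le_prod
        · intro b _
          exact ex_nonneg q h.q0 (bh4_q1 h) _ (fun A => pow_nonneg (TT_nonneg _ _) _)
        · intro b hb
          rw [Finset.mem_Ico] at hb
          refine (bh4_pow_le q blk σ r0 n N h b (b - i) a ha1 ha).trans ?_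
          apply mul_le_mul_of_nonneg_left _ (bh4_p0_nonneg h b)
          have : (1 / 4 : ℝ) ^ (b - i + 1) ≤ (1 / 4) ^ (b - j + 1) :=
            pow_le_pow_of_le_one (by norm_num) (by norm_num) (by omega)
          linarith
    _ = (∏ b ∈ Ico j N, p0 q blk b) * ∏ b ∈ Ico j N, (1 + (1 / 4 : ℝ) ^ (b - j + 1)) :=
        Finset.prod_mul_distrib
    _ ≤ (∏ b ∈ Ico j N, p0 q blk b) * 2 :=
        mul_le_mul_of_nonneg_left (bh4_prod_le' j N)
          (Finset.prod_nonneg (fun b _ => bh4_p0_nonneg h b))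
    _ = 2 * ∏ b ∈ Ico j N, p0 q blk b := mul_comm _ _


/-- Factorization of the moments of `DB`. -/
theorem bh4_ex_DB (q : ι → ℝ) (blk : ι → ℕ) (r0 N i a : ℕ) :
    ex q (fun A => DB q blk r0 N i A ^ a)
      = ex q (fun A => ((TT r0 (AB blk i A).card - tau q blk r0 i) / (1 - tau q blk r0 i)) ^ a)
        * ∏ b ∈ Ico (i + 1) N, ex q (fun A => TT (r0 + (b - i)) (AB blk b A).card ^ a) := by
  have h1 := ex_prod_blocks q blk
    (fun b A => if b = i then ((TT r0 A.card - tau q blk r0 i) / (1 - tau q blk r0 i)) ^ a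
      else TT (r0 + (b - i)) A.card ^ a) (insert i (Ico (i + 1) N))
  have hni : i ∉ Ico (i + 1) N := by simp
  simp only [Finset.prod_insert hni, if_true] at h1
  have hb : ∀ b ∈ Ico (i + 1) N, b ≠ i := by
    intro b hb
    rw [Finset.mem_Ico] at hb
    omega
  have e2 : ∏ b ∈ Ico (i + 1) N, ex q (fun A =>
      if b = i then ((TT r0 (AB blk b A).card - tau q blk r0 i) / (1 - tau q blk r0 i)) ^ a
      else TT (r0 + (b - i)) (AB blk b A).card ^ a)
      = ∏ b ∈ Ico (i + 1) N, ex q (fun A => TT (r0 + (b - i)) (AB blk b A).card ^ a) := by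
    apply Finset.prod_congr rfl
    intro b hb'
    simp only [if_neg (hb b hb')]
  rw [e2] at h1
  rw [← h1]
  congr 1
  funext A
  unfold DB
  rw [mul_pow, mul_comm, ← Finset.prod_pow]
  congr 1
  apply Finset.prod_congr rfl
  intro b hb'
  rw [if_neg (hb b hb')]

theorem bh4_bound (q : ι → ℝ) (blk : ι → ℕ) (σ : ℝ) (r0 n N : ℕ)
    (h : Blocks q blk σ r0 n N) (i a : ℕ) (ha1 : 1 ≤ a) (ha : a ≤ 4) (c : ℝ) (hc : 0 ≤ c)
    (hb : ex q (fun A => ((TT r0 (AB blk i A).card - tau q blk r0 i) /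
      (1 - tau q blk r0 i)) ^ a) ≤ c) :
    ex q (fun A => DB q blk r0 N i A ^ a) ≤ c * (2 * ∏ b ∈ Ico (i + 1) N, p0 q blk b) := by
  rw [bh4_ex_DB]
  apply mul_le_mul hb (bh4_prod_ex q blk σ r0 n N h i (i + 1) a (by omega) ha1 ha) _ hc
  exact Finset.prod_nonneg (fun b _ => ex_nonneg q h.q0 (bh4_q1 h) _
    (fun A => pow_nonneg (TT_nonneg _ _) _))

/-- `E D_i^2 = ∏_{b > i} E T_b^2 * E(T_i - tau)^2/(1 - tau)^2 ≤ 2 ∏ p0 * (1/2) * 4`. -/
theorem ex_DB_sq_le (q : ι → ℝ) (blk : ι → ℕ) (σ : ℝ) (r0 n N : ℕ)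
    (h : Blocks q blk σ r0 n N) (i : ℕ) (hi : i < n) :
    ex q (fun A => DB q blk r0 N i A ^ 2) ≤ 4 * ∏ b ∈ Ico (i + 1) N, p0 q blk b := by
  obtain ⟨ht0, ht1⟩ := tau_le q blk σ r0 n N h i hi
  have key : ex q (fun A => ((TT r0 (AB blk i A).card - tau q blk r0 i) /
      (1 - tau q blk r0 i)) ^ 2) ≤ 2 := by
    set τ := tau q blk r0 i with hτ
    have e1 : (fun A => ((TT r0 (AB blk i A).card - τ) / (1 - τ)) ^ 2)
        = fun A => (1 / (1 - τ) ^ 2) * (TT r0 (AB blk i A).card ^ 2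
          + ((-2 * τ) * TT r0 (AB blk i A).card + τ ^ 2 * 1)) := by
      funext A
      have : (1 - τ) ≠ 0 := by intro h0; linarith
      field_simp
      ring
    rw [e1, ex_const_mul, ex_add, ex_add, ex_const_mul, ex_const_mul, ex_one]
    have e2 : ex q (fun A => TT r0 (AB blk i A).card) = τ := rfl
    rw [e2]
    have h2 := bh4_pow_le q blk σ r0 n N h i 0 2 (by norm_num) (by norm_num)
    simp only [add_zero, zero_add, pow_one] at h2
    have h3 := h.small i hi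
    have h4 := bh4_p0_nonneg h i
    have h5 : ex q (fun A => TT r0 (AB blk i A).card ^ 2) ≤ 5 / 16 := by linarith
    have h6 : ex q (fun A => TT r0 (AB blk i A).card ^ 2) + (-2 * τ * τ + τ ^ 2 * 1) ≤ 5 / 16 := by
      nlinarith
    have h7 : 1 / (1 - τ) ^ 2 ≤ 4 := by
      rw [div_le_iff₀ (by nlinarith)]
      nlinarith
    have h8 : 0 ≤ 1 / (1 - τ) ^ 2 := by positivity
    nlinarith
  have := bh4_bound q blk σ r0 n N h i 2 (by norm_num) (by norm_num) 2 (by norm_num) key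
  linarith

theorem bh4_four (x τ : ℝ) (hx : 0 ≤ x) (hτ : 0 ≤ τ) : (x - τ) ^ 4 ≤ x ^ 4 + τ ^ 4 := by
  have h1 : (x - τ) ^ 2 ≤ x ^ 2 + τ ^ 2 := by nlinarith [mul_nonneg hx hτ]
  rcases le_total τ x with h | h
  · have : (x - τ) ^ 4 ≤ x ^ 4 := pow_le_pow_left₀ (by linarith) (by linarith) 4
    have : 0 ≤ τ ^ 4 := by positivity
    linarith
  · have h2 : (τ - x) ^ 4 ≤ τ ^ 4 := pow_le_pow_left₀ (by linarith) (by linarith) 4
    have h3 : (x - τ) ^ 4 = (τ - x) ^ 4 := by ring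
    have : 0 ≤ x ^ 4 := by positivity
    linarith

/-- `E D_i^4 ≤ 2 ∏ p0 * 8 (1/2 + 1/16) * 16 = 144 ∏ p0`. -/
theorem ex_DB_four_le (q : ι → ℝ) (blk : ι → ℕ) (σ : ℝ) (r0 n N : ℕ)
    (h : Blocks q blk σ r0 n N) (i : ℕ) (hi : i < n) :
    ex q (fun A => DB q blk r0 N i A ^ 4) ≤ 144 * ∏ b ∈ Ico (i + 1) N, p0 q blk b := by
  obtain ⟨ht0, ht1⟩ := tau_le q blk σ r0 n N h i hi
  have key : ex q (fun A => ((TT r0 (AB blk i A).card - tau q blk r0 i) /
      (1 - tau q blk r0 i)) ^ 4) ≤ 6 := by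
    set τ := tau q blk r0 i with hτ
    have hpt : ∀ A, ((TT r0 (AB blk i A).card - τ) / (1 - τ)) ^ 4
        ≤ 16 * (TT r0 (AB blk i A).card ^ 4 + 1 / 16 * 1) := by
      intro A
      have h1 := bh4_four (TT r0 (AB blk i A).card) τ (TT_nonneg _ _) ht0
      have h2 : τ ^ 4 ≤ 1 / 16 := by
        calc τ ^ 4 ≤ (1 / 2) ^ 4 := pow_le_pow_left₀ ht0 ht1 4
          _ = 1 / 16 := by norm_num
      have h3 : 1 / 16 ≤ (1 - τ) ^ 4 := by
        calc (1 / 16 : ℝ) = (1 / 2) ^ 4 := by norm_num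
          _ ≤ (1 - τ) ^ 4 := pow_le_pow_left₀ (by norm_num) (by linarith) 4
      have h4 : 0 ≤ TT r0 (AB blk i A).card ^ 4 := pow_nonneg (TT_nonneg _ _) _
      rw [div_pow, div_le_iff₀ (by linarith)]
      have h5 : TT r0 (AB blk i A).card ^ 4 + 1 / 16 * 1
          ≤ 16 * (TT r0 (AB blk i A).card ^ 4 + 1 / 16 * 1) * (1 - τ) ^ 4 := by
        have h6 : 0 ≤ TT r0 (AB blk i A).card ^ 4 + 1 / 16 * 1 := by positivity
        nlinarith
      linarith
    refine (ex_mono q h.q0 (bh4_q1 h) _ _ hpt).trans ?_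
    rw [ex_const_mul, ex_add, ex_const_mul, ex_one]
    have h2 := bh4_pow_le q blk σ r0 n N h i 0 4 (by norm_num) (by norm_num)
    simp only [add_zero, zero_add, pow_one] at h2
    have h3 := h.small i hi
    have h4 := bh4_p0_nonneg h i
    linarith
  have := bh4_bound q blk σ r0 n N h i 4 (by norm_num) (by norm_num) 6 (by norm_num) key
  have hp : 0 ≤ ∏ b ∈ Ico (i + 1) N, p0 q blk b :=
    Finset.prod_nonneg (fun b _ => bh4_p0_nonneg h b)
  linarith

theorem bh4_centered (q : ι → ℝ) (blk : ι → ℕ) (r0 i : ℕ) :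
    ex q (fun A => (TT r0 (AB blk i A).card - tau q blk r0 i) / (1 - tau q blk r0 i)) = 0 := by
  have e1 : (fun A => (TT r0 (AB blk i A).card - tau q blk r0 i) / (1 - tau q blk r0 i))
      = fun A => (1 / (1 - tau q blk r0 i)) * (TT r0 (AB blk i A).card
        + (-tau q blk r0 i) * 1) := by
    funext A
    ring
  rw [e1, ex_const_mul, ex_add, ex_const_mul, ex_one]
  have e2 : ex q (fun A => TT r0 (AB blk i A).card) = tau q blk r0 i := rfl
  rw [e2]
  ring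

theorem bh4_orth (q : ι → ℝ) (blk : ι → ℕ) (r0 N i i' : ℕ) (hii : i < i') :
    ex q (fun A => DB q blk r0 N i A * DB q blk r0 N i' A) = 0 := by
  have h1 := ex_mul_of_split q (univ.filter (fun x => blk x = i))
    (fun A => (TT r0 (AB blk i A).card - tau q blk r0 i) / (1 - tau q blk r0 i))
    (fun A => (∏ b ∈ Ico (i + 1) N, TT (r0 + (b - i)) (AB blk b A).card)
      * DB q blk r0 N i' A) ?_ ?_
  · rw [bh4_centered, zero_mul] at h1
    rw [← h1]
    congr 1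
    funext A
    rw [DB]
    ring
  · intro A
    have : AB blk i (A ∩ univ.filter (fun x => blk x = i)) = AB blk i A := by
      ext x
      simp only [AB, mem_filter, mem_inter, mem_univ, true_and]
      tauto
    simp only [this]
  · intro A
    have hAB : ∀ b, b ≠ i → AB blk b (A \ univ.filter (fun x => blk x = i)) = AB blk b A := by
      intro b hb
      ext x
      simp only [AB, mem_filter, mem_sdiff, mem_univ, true_and]
      constructor
      · rintro ⟨⟨h1, _⟩, h2⟩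
        exact ⟨h1, h2⟩
      · rintro ⟨h1, h2⟩
        exact ⟨⟨h1, fun h => hb (h2 ▸ h)⟩, h2⟩
    simp only [DB]
    rw [hAB i' (by omega)]
    congr 1
    · apply Finset.prod_congr rfl
      intro b hb
      rw [Finset.mem_Ico] at hb
      rw [hAB b (by omega)]
    · congr 1
      apply Finset.prod_congr rfl
      intro b hb
      rw [Finset.mem_Ico] at hb
      rw [hAB b (by omega)]

/-- Mean value `0`: the factor of the block `i` has mean value `0` and is independent of the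
others. Orthogonality for `i < i'`: the product is a function of the blocks `≠ i` times the factor
of the block `i` of `D_i` (`D_i'` does not involve the block `i`). `0 ≤ p0 ≤ 1`, so the products
over `Ico (i+1) N` are at most the product over `Ico n N`. -/
theorem good_DB (q : ι → ℝ) (blk : ι → ℕ) (σ : ℝ) (r0 n N : ℕ) (h : Blocks q blk σ r0 n N) :
    Good q (fun (i : Fin n) => DB q blk r0 N i) (144 * ∏ b ∈ Ico n N, p0 q blk b) := by
  have hprod : ∀ i : Fin n, ∏ b ∈ Ico ((i : ℕ) + 1) N, p0 q blk b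
      ≤ ∏ b ∈ Ico n N, p0 q blk b := by
    intro i
    have hi := i.2
    rw [← Finset.prod_Ico_consecutive (fun b => p0 q blk b) (show (i : ℕ) + 1 ≤ n by omega) h.nN]
    have h1 : ∏ b ∈ Ico ((i : ℕ) + 1) n, p0 q blk b ≤ 1 :=
      Finset.prod_le_one (fun b _ => bh4_p0_nonneg h b) (fun b _ => bh4_p0_le_one h b)
    have h2 : 0 ≤ ∏ b ∈ Ico n N, p0 q blk b :=
      Finset.prod_nonneg (fun b _ => bh4_p0_nonneg h b)
    nlinarith
  have hnn : 0 ≤ ∏ b ∈ Ico n N, p0 q blk b :=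
    Finset.prod_nonneg (fun b _ => bh4_p0_nonneg h b)
  refine ⟨h.q0, bh4_q1 h, ?_, ?_, ?_, ?_, ?_⟩
  · intro i
    apply DB_empty
    have := (tau_le q blk σ r0 n N h i i.2).2
    linarith
  · intro i
    have h1 := bh4_ex_DB q blk r0 N i 1
    simp only [pow_one] at h1
    rw [bh4_centered, zero_mul] at h1
    exact h1
  · intro i i' hii
    have hne : (i : ℕ) ≠ i' := fun hh => hii (Fin.ext hh)
    rcases lt_or_gt_of_ne hne with hlt | hlt
    · exact bh4_orth q blk r0 N i i' hlt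
    · have := bh4_orth q blk r0 N i' i hlt
      rw [← this]
      congr 1
      funext A
      ring
  · intro i
    have h1 := ex_DB_sq_le q blk σ r0 n N h i i.2
    have h2 := hprod i
    linarith
  · intro i
    have h1 := ex_DB_four_le q blk σ r0 n N h i i.2
    have h2 := hprod i
    linarith

end Pool.Agent.Lib.H15P
end

-- from Lib.H57C.BH1
section

/-!
# Chunk BH1: the Brun-Hooley sieve, weights
-/

open Finset

namespace Pool.Agent.Lib.H57C

open Pool.Agent.Lib.Sieve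

theorem bh1_sum_union {ι : Type} [DecidableEq ι] (A B : Finset ι) (h : Disjoint A B)
    (F : Finset ι → ℝ) :
    ∑ E ∈ (A ∪ B).powerset, F E = ∑ D ∈ A.powerset, ∑ E ∈ B.powerset, F (D ∪ E) := by
  rw [← Finset.sum_product']
  symm
  refine Finset.sum_nbij' (fun x => x.1 ∪ x.2) (fun X => (X ∩ A, X ∩ B)) ?_ ?_ ?_ ?_ ?_
  · rintro ⟨D, E⟩ hx
    rw [Finset.mem_product, Finset.mem_powerset, Finset.mem_powerset] at hx
    exact Finset.mem_powerset.2 (Finset.union_subset_union hx.1 hx.2)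
  · intro X _
    rw [Finset.mem_product, Finset.mem_powerset, Finset.mem_powerset]
    exact ⟨Finset.inter_subset_right, Finset.inter_subset_right⟩
  · rintro ⟨D, E⟩ hx
    rw [Finset.mem_product, Finset.mem_powerset, Finset.mem_powerset] at hx
    have h1 : (D ∪ E) ∩ A = D := by
      ext x
      simp only [Finset.mem_inter, Finset.mem_union]
      constructor
      · rintro ⟨h1 | h1, h2⟩
        · exact h1
        · exact absurd (hx.2 h1) (Finset.disjoint_left.1 h h2)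
      · intro h1
        exact ⟨Or.inl h1, hx.1 h1⟩
    have h2 : (D ∪ E) ∩ B = E := by
      ext x
      simp only [Finset.mem_inter, Finset.mem_union]
      constructor
      · rintro ⟨h1 | h1, h2⟩
        · exact absurd h2 (Finset.disjoint_left.1 h (hx.1 h1))
        · exact h1
      · intro h1
        exact ⟨Or.inr h1, hx.2 h1⟩
    simp only [h1, h2]
  · intro X hX
    rw [Finset.mem_powerset] at hX
    simp only
    rw [← Finset.inter_union_distrib_left]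
    exact Finset.inter_eq_left.2 hX
  · intro x _
    rfl

theorem bh1_rep {ι κ : Type} [DecidableEq ι] [DecidableEq κ] (Q : κ → Finset ι) (J : Finset κ)
    (hdisj : ∀ i ∈ J, ∀ j ∈ J, i ≠ j → Disjoint (Q i) (Q j)) (c : κ → Finset ι → ℝ)
    (f : ι → ℝ) :
    ∑ E ∈ (J.biUnion Q).powerset, (∏ j ∈ J, c j (E ∩ Q j)) * ∏ p ∈ E, f p =
      ∏ j ∈ J, poly (c j) f (Q j) := by
  induction J using Finset.induction_on with
  | empty => simp
  | insert a J ha ih =>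
    have ih' := ih (fun i hi j hj hij => hdisj i (Finset.mem_insert_of_mem hi) j
      (Finset.mem_insert_of_mem hj) hij)
    have hne : ∀ j ∈ J, a ≠ j := fun j hj h => ha (h ▸ hj)
    have hda : ∀ j ∈ J, Disjoint (Q a) (Q j) := fun j hj =>
      hdisj a (Finset.mem_insert_self a J) j (Finset.mem_insert_of_mem hj) (hne j hj)
    have hd : Disjoint (Q a) (J.biUnion Q) := (Finset.disjoint_biUnion_right _ _ _).2 hda
    rw [Finset.biUnion_insert, bh1_sum_union _ _ hd, Finset.prod_insert ha, ← ih', poly,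
      Finset.sum_mul_sum]
    refine Finset.sum_congr rfl fun D hD => Finset.sum_congr rfl fun E hE => ?_
    rw [Finset.mem_powerset] at hD hE
    have hDE : Disjoint D E := Finset.disjoint_of_subset_left hD (Finset.disjoint_of_subset_right hE hd)
    rw [Finset.prod_insert ha, Finset.prod_union hDE]
    have h1 : (D ∪ E) ∩ Q a = D := by
      rw [Finset.union_inter_distrib_right, Finset.inter_eq_left.2 hD]
      have : E ∩ Q a = ∅ := by
        rw [← Finset.disjoint_iff_inter_eq_empty]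
        exact (Finset.disjoint_of_subset_right hE hd).symm
      rw [this, Finset.union_empty]
    have h2 : ∀ j ∈ J, (D ∪ E) ∩ Q j = E ∩ Q j := by
      intro j hj
      rw [Finset.union_inter_distrib_right]
      have : D ∩ Q j = ∅ := by
        rw [← Finset.disjoint_iff_inter_eq_empty]
        exact Finset.disjoint_of_subset_left hD (hda j hj)
      rw [this, Finset.empty_union]
    rw [h1, Finset.prod_congr rfl fun j hj => by rw [h2 j hj]]
    ring

theorem bh1_cT_abs {ι : Type} [DecidableEq ι] (b : ℕ) (D : Finset ι) : |cT b D| ≤ 1 := by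
  unfold cT
  split_ifs <;> simp

theorem bh1_cE_abs {ι : Type} [DecidableEq ι] (b : ℕ) (D : Finset ι) : |cE b D| ≤ 1 := by
  unfold cE
  split_ifs <;> simp

/-- Proof. `lp E = ∏_{j ∈ J} cT (b j) (E ∩ Q j)` and `lm E = lp E - ∑_{l ∈ J} cE (b l + 1) (E ∩ Q l) ∏_{j ∈ J.erase l} cT (b j) (E ∩ Q j)` for
`E ⊆ ⋃ Q j` (and `0` otherwise). At most one of the terms of `lm E` is not `0`, and it is `± 1`: if all `|E ∩ Q j| ≤ b j` only the first
one; if exactly one `|E ∩ Q l| = b l + 1` and the others are `≤ b j`, only the term of `l`; otherwise none. For every `f` the sum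
`∑_E (∏_j c j (E ∩ Q j)) ∏_{p ∈ E} f p` over `E ⊆ ⋃ Q j` is `∏_j poly (c j) f (Q j)` (disjoint blocks; induction over `J` as in `rep`, or
`Finset.prod_univ_sum`-like). The inequalities are then those in the proof of `brun_hooley` (`Sieve/BrunHooley.lean`): pointwise
`prod_ge_telescope`, `le_polyT_of_even`, `polyT_le_of_even`; the main terms `∏ Tj ≤ 2 ∏ V` and `∏ Tj - ∑_l Ej l ∏_{j ≠ l} Tj ≥ (1/2) ∏ Tj ≥ (1/2) ∏ V`. -/
theorem bh_weights {ι κ : Type} [DecidableEq ι] [DecidableEq κ] (Q : κ → Finset ι) (J : Finset κ)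
    (b : κ → ℕ) (hb : ∀ j ∈ J, Even (b j))
    (hdisj : ∀ i ∈ J, ∀ j ∈ J, i ≠ j → Disjoint (Q i) (Q j)) (g : ι → ℝ)
    (hg0 : ∀ p ∈ J.biUnion Q, 0 ≤ g p) (hg1 : ∀ p ∈ J.biUnion Q, g p ≤ 1)
    (ε : κ → ℝ) (hε0 : ∀ j ∈ J, 0 ≤ ε j)
    (hε : ∀ j ∈ J, poly (cE (b j + 1)) g (Q j) ≤ ε j * ∏ p ∈ Q j, (1 - g p))
    (hεsum : ∑ j ∈ J, ε j ≤ 1 / 2) :
    ∃ lp lm : Finset ι → ℝ, (∀ E, |lp E| ≤ 1) ∧ (∀ E, |lm E| ≤ 1) ∧
      (∀ E, (lp E ≠ 0 ∨ lm E ≠ 0) → ∀ j ∈ J, (E ∩ Q j).card ≤ b j + 1) ∧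
      (∀ f : ι → ℝ, (∀ p, 0 ≤ f p) → (∀ p, f p ≤ 1) →
        ∑ E ∈ (J.biUnion Q).powerset, lm E * ∏ p ∈ E, f p ≤ ∏ p ∈ J.biUnion Q, (1 - f p) ∧
        ∏ p ∈ J.biUnion Q, (1 - f p) ≤ ∑ E ∈ (J.biUnion Q).powerset, lp E * ∏ p ∈ E, f p) ∧
      1 / 2 * ∏ p ∈ J.biUnion Q, (1 - g p) ≤
        ∑ E ∈ (J.biUnion Q).powerset, lm E * ∏ p ∈ E, g p ∧
      ∑ E ∈ (J.biUnion Q).powerset, lp E * ∏ p ∈ E, g p ≤ 2 * ∏ p ∈ J.biUnion Q, (1 - g p) := by
  set lp : Finset ι → ℝ := fun E => ∏ j ∈ J, cT (b j) (E ∩ Q j) with hlp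
  set tm : κ → Finset ι → ℝ := fun l E => cE (b l + 1) (E ∩ Q l) *
    ∏ j ∈ J.erase l, cT (b j) (E ∩ Q j) with htm
  set lm : Finset ι → ℝ := fun E => lp E - ∑ l ∈ J, tm l E with hlm
  have hprod1 : ∀ (s : Finset κ) (E : Finset ι), |∏ j ∈ s, cT (b j) (E ∩ Q j)| ≤ 1 := by
    intro s E
    rw [Finset.abs_prod]
    exact Finset.prod_le_one (fun j _ => abs_nonneg _) fun j _ => bh1_cT_abs _ _
  -- case A
  have hA : ∀ E : Finset ι, (∀ j ∈ J, (E ∩ Q j).card ≤ b j) → lm E = lp E := by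
    intro E hE
    have : ∑ l ∈ J, tm l E = 0 := by
      refine Finset.sum_eq_zero fun l hl => ?_
      have h1 : cE (b l + 1) (E ∩ Q l) = 0 := by
        unfold cE
        rw [if_neg]
        have := hE l hl
        omega
      simp only [htm, h1, zero_mul]
    simp only [hlm, this, sub_zero]
  -- case B
  have hB : ∀ E : Finset ι, ∀ l0 ∈ J, ¬ (E ∩ Q l0).card ≤ b l0 → lp E = 0 ∧ lm E = - tm l0 E := by
    intro E l0 hl0 hc
    have h0 : cT (b l0) (E ∩ Q l0) = 0 := by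
      unfold cT
      rw [if_neg hc]
    have h1 : lp E = 0 := Finset.prod_eq_zero hl0 h0
    refine ⟨h1, ?_⟩
    have h2 : ∑ l ∈ J, tm l E = tm l0 E := by
      refine Finset.sum_eq_single l0 (fun l hl hne => ?_) (fun h => absurd hl0 h)
      have : ∏ j ∈ J.erase l, cT (b j) (E ∩ Q j) = 0 :=
        Finset.prod_eq_zero (Finset.mem_erase.2 ⟨hne.symm, hl0⟩) h0
      simp only [htm, this, mul_zero]
    simp only [hlm, h1, h2, zero_sub]
  -- the representation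
  have rep1 : ∀ f : ι → ℝ, ∑ E ∈ (J.biUnion Q).powerset, lp E * ∏ p ∈ E, f p =
      ∏ j ∈ J, poly (cT (b j)) f (Q j) := fun f =>
    bh1_rep Q J hdisj (fun j => cT (b j)) f
  have rep2 : ∀ f : ι → ℝ, ∀ l ∈ J, ∑ E ∈ (J.biUnion Q).powerset, tm l E * ∏ p ∈ E, f p =
      poly (cE (b l + 1)) f (Q l) * ∏ j ∈ J.erase l, poly (cT (b j)) f (Q j) := by
    intro f l hl
    have h := bh1_rep Q J hdisj (Function.update (fun j => cT (b j)) l (cE (b l + 1))) f
    have hupd : ∀ F : κ → (Finset ι → ℝ) → ℝ,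
        ∏ j ∈ J, F j (Function.update (fun j => cT (b j)) l (cE (b l + 1)) j)
          = F l (cE (b l + 1)) * ∏ j ∈ J.erase l, F j (cT (b j)) := by
      intro F
      rw [← Finset.mul_prod_erase J _ hl]
      rw [Function.update_self]
      congr 1
      refine Finset.prod_congr rfl fun j hj => ?_
      rw [Function.update_of_ne (Finset.ne_of_mem_erase hj)]
    have h1 : ∀ E : Finset ι, ∏ j ∈ J, Function.update (fun j => cT (b j)) l (cE (b l + 1)) j (E ∩ Q j)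
        = tm l E := fun E => hupd (fun j c => c (E ∩ Q j))
    have h2 : ∏ j ∈ J, poly (Function.update (fun j => cT (b j)) l (cE (b l + 1)) j) f (Q j)
        = poly (cE (b l + 1)) f (Q l) * ∏ j ∈ J.erase l, poly (cT (b j)) f (Q j) :=
      hupd (fun j c => poly c f (Q j))
    rw [h2] at h
    rw [← h]
    exact Finset.sum_congr rfl fun E _ => by rw [h1 E]
  have rep3 : ∀ f : ι → ℝ, ∑ E ∈ (J.biUnion Q).powerset, lm E * ∏ p ∈ E, f p =
      ∏ j ∈ J, poly (cT (b j)) f (Q j) - ∑ l ∈ J, poly (cE (b l + 1)) f (Q l) *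
        ∏ j ∈ J.erase l, poly (cT (b j)) f (Q j) := by
    intro f
    rw [← rep1 f, ← Finset.sum_congr rfl (rep2 f), Finset.sum_comm, ← Finset.sum_sub_distrib]
    refine Finset.sum_congr rfl fun E _ => ?_
    simp only [hlm]
    rw [sub_mul, Finset.sum_mul]
  have hbU : ∀ f : ι → ℝ, ∏ p ∈ J.biUnion Q, (1 - f p) = ∏ j ∈ J, ∏ p ∈ Q j, (1 - f p) := by
    intro f
    exact Finset.prod_biUnion (fun i hi j hj hij => hdisj i hi j hj hij)
  have hQg0 : ∀ j ∈ J, ∀ p ∈ Q j, 0 ≤ g p := fun j hj p hp =>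
    hg0 p (Finset.mem_biUnion.2 ⟨j, hj, hp⟩)
  have hQg1 : ∀ j ∈ J, ∀ p ∈ Q j, g p ≤ 1 := fun j hj p hp =>
    hg1 p (Finset.mem_biUnion.2 ⟨j, hj, hp⟩)
  set V : κ → ℝ := fun j => ∏ p ∈ Q j, (1 - g p) with hV
  set Tj : κ → ℝ := fun j => poly (cT (b j)) g (Q j) with hT
  set Ej : κ → ℝ := fun j => poly (cE (b j + 1)) g (Q j) with hE
  have hVnn : ∀ j ∈ J, 0 ≤ V j := fun j hj =>
    Finset.prod_nonneg fun p hp => by
      have := hQg1 j hj p hp
      linarith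
  have hVT : ∀ j ∈ J, V j ≤ Tj j := fun j hj =>
    le_polyT_of_even (hQg0 j hj) (hQg1 j hj) (hb j hj)
  have hTV : ∀ j ∈ J, Tj j ≤ (1 + ε j) * V j := by
    intro j hj
    have h1 := polyT_le_of_even (hQg0 j hj) (hQg1 j hj) (hb j hj)
    have h2 := hε j hj
    simp only [hT, hV] at *
    linarith
  have hTnn : ∀ j ∈ J, 0 ≤ Tj j := fun j hj => (hVnn j hj).trans (hVT j hj)
  have hcard : ∀ l ∈ J, Ej l * ∏ j ∈ J.erase l, Tj j ≤ ε l * ∏ j ∈ J, Tj j := by
    intro l hl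
    rw [← Finset.mul_prod_erase J Tj hl, ← mul_assoc]
    apply mul_le_mul_of_nonneg_right
    · have h1 := hε l hl
      have h2 := mul_le_mul_of_nonneg_left (hVT l hl) (hε0 l hl)
      simp only [hE, hV] at *
      linarith
    · exact Finset.prod_nonneg fun j hj => hTnn j (Finset.mem_of_mem_erase hj)
  have hprodT : 0 ≤ ∏ j ∈ J, Tj j := Finset.prod_nonneg hTnn
  have hVT' : ∏ j ∈ J, V j ≤ ∏ j ∈ J, Tj j := Finset.prod_le_prod hVnn hVT
  refine ⟨lp, lm, fun E => hprod1 J E, fun E => ?_, fun E hE0 j hj => ?_, fun f hf0 hf1 => ⟨?_, ?_⟩,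
    ?_, ?_⟩
  · by_cases hc : ∀ j ∈ J, (E ∩ Q j).card ≤ b j
    · rw [hA E hc]
      exact hprod1 J E
    · push_neg at hc
      obtain ⟨l0, hl0, hc⟩ := hc
      rw [(hB E l0 hl0 (not_le.2 hc)).2, abs_neg]
      simp only [htm]
      rw [abs_mul]
      exact mul_le_one₀ (bh1_cE_abs _ _) (abs_nonneg _) (hprod1 _ E)
  · by_cases hc : ∀ j ∈ J, (E ∩ Q j).card ≤ b j
    · have := hc j hj
      omega
    · push_neg at hc
      obtain ⟨l0, hl0, hc⟩ := hc
      obtain ⟨h1, h2⟩ := hB E l0 hl0 (not_le.2 hc)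
      have h3 : tm l0 E ≠ 0 := by
        rcases hE0 with h | h
        · exact absurd h1 h
        · intro h4
          rw [h2, h4, neg_zero] at h
          exact h rfl
      simp only [htm] at h3
      have h4 := left_ne_zero_of_mul h3
      have h5 := right_ne_zero_of_mul h3
      by_cases hjl : j = l0
      · subst hjl
        unfold cE at h4
        by_contra h6
        rw [if_neg (by omega)] at h4
        exact h4 rfl
      · have h6 := (Finset.prod_ne_zero_iff.1 h5) j (Finset.mem_erase.2 ⟨hjl, hj⟩)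
        unfold cT at h6
        by_contra h7
        rw [if_neg (by omega)] at h6
        exact h6 rfl
  · rw [rep3 f, hbU f]
    apply prod_ge_telescope
    · intro j _
      exact Finset.prod_nonneg fun p _ => by linarith [hf1 p]
    · intro j hj
      exact le_polyT_of_even (fun p _ => hf0 p) (fun p _ => hf1 p) (hb j hj)
    · intro j hj
      have := polyT_le_of_even (f := f) (Q := Q j) (fun p _ => hf0 p)
        (fun p _ => hf1 p) (hb j hj)
      linarith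
  · rw [rep1 f, hbU f]
    apply Finset.prod_le_prod
    · intro j _
      exact Finset.prod_nonneg fun p _ => by linarith [hf1 p]
    · intro j hj
      exact le_polyT_of_even (fun p _ => hf0 p) (fun p _ => hf1 p) (hb j hj)
  · rw [rep3 g, hbU g]
    have h2 : ∑ l ∈ J, Ej l * ∏ j ∈ J.erase l, Tj j ≤ ∑ l ∈ J, ε l * ∏ j ∈ J, Tj j :=
      Finset.sum_le_sum hcard
    rw [← Finset.sum_mul] at h2
    have h5 : (∑ l ∈ J, ε l) * ∏ j ∈ J, Tj j ≤ 1 / 2 * ∏ j ∈ J, Tj j :=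
      mul_le_mul_of_nonneg_right hεsum hprodT
    simp only [hV, hT, hE] at *
    linarith
  · rw [rep1 g, hbU g]
    have h3 : ∏ j ∈ J, Tj j ≤ ∏ j ∈ J, ((1 + ε j) * V j) := Finset.prod_le_prod hTnn hTV
    rw [Finset.prod_mul_distrib] at h3
    have h4 : ∏ j ∈ J, (1 + ε j) ≤ Real.exp (∑ j ∈ J, ε j) := by
      rw [Real.exp_sum]
      refine Finset.prod_le_prod (fun j hj => by linarith [hε0 j hj]) fun j _ => ?_
      have := Real.add_one_le_exp (ε j)
      linarith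
    have h5 : Real.exp (∑ j ∈ J, ε j) ≤ Real.exp (1 / 2) := Real.exp_le_exp.mpr hεsum
    have h6 : Real.exp (1 / 2) ≤ 2 := by
      have h7 : Real.exp (1 / 2) ^ 2 = Real.exp 1 := by
        rw [← Real.exp_nat_mul]
        norm_num
      have h8 := Real.exp_one_lt_d9
      have h9 : 0 < Real.exp (1 / 2) := Real.exp_pos _
      nlinarith
    have h10 : 0 ≤ ∏ j ∈ J, V j := Finset.prod_nonneg hVnn
    calc ∏ j ∈ J, Tj j ≤ (∏ j ∈ J, (1 + ε j)) * ∏ j ∈ J, V j := h3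
      _ ≤ 2 * ∏ j ∈ J, V j := mul_le_mul_of_nonneg_right (by linarith) h10

end Pool.Agent.Lib.H57C
end

-- from Lib.H59C.LSA
section

/-!
# LSA: the additive large sieve for the Farey fractions
-/

open Finset

namespace Pool.Agent.Lib.H59C

open Pool.Agent.Lib.H68T (PC p0 e nd VB_e_add VB_cell VB_cell_mem VB_nd_ge geo_le)

theorem LSA_conj (x : ℝ) : (starRingEnd ℂ) (e x) = e (-x) := by
  unfold Pool.Agent.Lib.H68T.e
  rw [← Complex.exp_conj]
  congr 1
  simp only [map_mul, map_ofNat, Complex.conj_ofReal, Complex.conj_I]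
  push_cast
  ring

theorem LSA_quad {ι : Type*} (I : Finset ι) (α : ι → ℝ) (c : ι → ℂ) (x0 : ℝ) (n : ℕ) :
    ∑ u ∈ Ico (0 : ℤ) n, ∑ v ∈ Ico (0 : ℤ) n,
      ‖∑ i ∈ I, c i * e ((x0 + u - v) * α i)‖ ^ 2 ≤
      ∑ i ∈ I, ∑ j ∈ I, ‖c i‖ * ‖c j‖ * ‖∑ u ∈ Ico (0 : ℤ) n, e (u * (α i - α j))‖ ^ 2 := by
  have h1 : ((∑ u ∈ Ico (0 : ℤ) n, ∑ v ∈ Ico (0 : ℤ) n,
      ‖∑ i ∈ I, c i * e ((x0 + u - v) * α i)‖ ^ 2 : ℝ) : ℂ) =
      ∑ i ∈ I, ∑ j ∈ I, (c i * (starRingEnd ℂ) (c j) * e (x0 * (α i - α j))) *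
        ((∑ u ∈ Ico (0 : ℤ) n, e (u * (α i - α j))) *
          (starRingEnd ℂ) (∑ v ∈ Ico (0 : ℤ) n, e (v * (α i - α j)))) := by
    push_cast
    have h2 : ∀ u v : ℤ, ((‖∑ i ∈ I, c i * e ((x0 + u - v) * α i)‖ : ℝ) : ℂ) ^ 2 =
        ∑ i ∈ I, ∑ j ∈ I, (c i * (starRingEnd ℂ) (c j) * e (x0 * (α i - α j))) *
          (e (u * (α i - α j)) * (starRingEnd ℂ) (e (v * (α i - α j)))) := by
      intro u v
      rw [← Complex.mul_conj', map_sum, Finset.sum_mul_sum]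
      refine sum_congr rfl fun i _ => sum_congr rfl fun j _ => ?_
      rw [map_mul, LSA_conj, LSA_conj]
      have h3 : e ((x0 + u - v) * α i) * e (-((x0 + u - v) * α j)) =
          e (x0 * (α i - α j)) * (e (u * (α i - α j)) * e (-(v * (α i - α j)))) := by
        rw [← VB_e_add, ← VB_e_add, ← VB_e_add]
        congr 1
        ring
      linear_combination c i * (starRingEnd ℂ) (c j) * h3
    simp_rw [h2, map_sum, Finset.sum_mul_sum, Finset.mul_sum]
    rw [Finset.sum_congr rfl fun u _ => Finset.sum_comm, Finset.sum_comm]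
    refine sum_congr rfl fun i _ => ?_
    rw [Finset.sum_congr rfl fun u _ => Finset.sum_comm, Finset.sum_comm]
  have h4 : ‖((∑ u ∈ Ico (0 : ℤ) n, ∑ v ∈ Ico (0 : ℤ) n,
      ‖∑ i ∈ I, c i * e ((x0 + u - v) * α i)‖ ^ 2 : ℝ) : ℂ)‖ =
      ∑ u ∈ Ico (0 : ℤ) n, ∑ v ∈ Ico (0 : ℤ) n,
      ‖∑ i ∈ I, c i * e ((x0 + u - v) * α i)‖ ^ 2 := by
    rw [Complex.norm_real, Real.norm_eq_abs, abs_of_nonneg]
    positivity
  rw [← h4, h1]
  refine (norm_sum_le _ _).trans (sum_le_sum fun i _ => ?_)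
  refine (norm_sum_le _ _).trans (sum_le_sum fun j _ => ?_)
  rw [norm_mul, norm_mul, norm_mul, norm_mul, RCLike.norm_conj, RCLike.norm_conj,
    Pool.Agent.Lib.H68T.VB_norm_e]
  apply le_of_eq
  ring

/-- Schur's bound. -/
theorem LSA_schur {ι : Type*} (I : Finset ι) (c : ι → ℂ) (g : ι → ι → ℝ) (B : ℝ)
    (hg : ∀ i j, 0 ≤ g i j) (hsymm : ∀ i j, g i j = g j i)
    (hB : ∀ i ∈ I, ∑ j ∈ I, g i j ≤ B) :
    ∑ i ∈ I, ∑ j ∈ I, ‖c i‖ * ‖c j‖ * g i j ≤ B * ∑ i ∈ I, ‖c i‖ ^ 2 := by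
  have h1 : ∑ i ∈ I, ∑ j ∈ I, ‖c i‖ * ‖c j‖ * g i j ≤
      ∑ i ∈ I, ∑ j ∈ I, (1 / 2 * (‖c i‖ ^ 2 * g i j) + 1 / 2 * (‖c j‖ ^ 2 * g i j)) := by
    refine sum_le_sum fun i _ => sum_le_sum fun j _ => ?_
    nlinarith [hg i j, sq_nonneg (‖c i‖ - ‖c j‖), mul_nonneg (sq_nonneg (‖c i‖ - ‖c j‖)) (hg i j)]
  refine h1.trans ?_
  simp_rw [Finset.sum_add_distrib]
  have h2 : ∑ i ∈ I, ∑ j ∈ I, 1 / 2 * (‖c j‖ ^ 2 * g i j) =
      ∑ i ∈ I, ∑ j ∈ I, 1 / 2 * (‖c i‖ ^ 2 * g i j) := by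
    rw [Finset.sum_comm]
    refine sum_congr rfl fun i _ => sum_congr rfl fun j _ => ?_
    rw [hsymm]
  rw [h2, ← two_mul, Finset.mul_sum, Finset.mul_sum]
  refine sum_le_sum fun i hi => ?_
  rw [← Finset.mul_sum, ← Finset.mul_sum]
  have := mul_le_mul_of_nonneg_left (hB i hi) (sq_nonneg ‖c i‖)
  linarith

/-- Extension of the range of summation. -/
theorem LSA_ext (f : ℤ → ℝ) (hf : ∀ x, 0 ≤ f x) (M N L : ℕ) (hNL : N ≤ L) :
    L * ∑ m ∈ Ico M (M + N), f m ≤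
      ∑ u ∈ Ico (0 : ℤ) (2 * L : ℕ), ∑ v ∈ Ico (0 : ℤ) (2 * L : ℕ), f (M + u - v) := by
  rw [← Finset.sum_product']
  have h1 : (L : ℝ) * ∑ m ∈ Ico M (M + N), f m =
      ∑ p ∈ (Ico M (M + N)) ×ˢ (range L), f (p.1 : ℕ) := by
    rw [Finset.sum_product, Finset.mul_sum]
    refine sum_congr rfl fun m _ => ?_
    simp
  rw [h1]
  have h2 : ∑ p ∈ (Ico M (M + N)) ×ˢ (range L), f (p.1 : ℕ) =
      ∑ p ∈ ((Ico M (M + N)) ×ˢ (range L)).image
        (fun p : ℕ × ℕ => (((p.1 : ℤ) - M + p.2, (p.2 : ℤ)) : ℤ × ℤ)), f (M + p.1 - p.2) := by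
    rw [Finset.sum_image]
    · refine sum_congr rfl fun p _ => ?_
      congr 1
      ring
    · intro p _ q _ h
      simp only [Prod.mk.injEq] at h
      ext
      · have := h.1
        have := h.2
        omega
      · have := h.2
        omega
  rw [h2]
  apply Finset.sum_le_sum_of_subset_of_nonneg
  · intro p hp
    rw [Finset.mem_image] at hp
    obtain ⟨⟨m, l⟩, hml, rfl⟩ := hp
    rw [Finset.mem_product, Finset.mem_Ico, Finset.mem_range] at hml
    rw [Finset.mem_product, Finset.mem_Ico, Finset.mem_Ico]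
    push_cast
    dsimp only at hml ⊢
    omega
  · intro p _ _
    exact hf _

/-- The separation of the Farey fractions. -/
theorem LSA_sep {Q q q' b b' : ℕ} (hq : q ≤ Q) (hq' : q' ≤ Q) (hb : b < q) (hb' : b' < q')
    (hc : Nat.Coprime b q) (hc' : Nat.Coprime b' q') (hne : ¬ (q = q' ∧ b = b')) :
    1 / (Q : ℝ) ^ 2 ≤ nd ((b : ℝ) / q - (b' : ℝ) / q') := by
  have hq0 : (0 : ℝ) < q := by exact_mod_cast (by omega : 0 < q)
  have hq0' : (0 : ℝ) < q' := by exact_mod_cast (by omega : 0 < q')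
  set x : ℝ := (b : ℝ) / q - (b' : ℝ) / q' with hx
  set k : ℤ := round x with hk
  have h1 : x - k = (((b : ℤ) * q' - b' * q - k * q * q' : ℤ) : ℝ) / (q * q') := by
    rw [hx]
    push_cast
    field_simp
  have h2 : ((b : ℤ) * q' - b' * q - k * q * q' : ℤ) ≠ 0 := by
    intro h0
    rw [h0] at h1
    simp only [Int.cast_zero, zero_div] at h1
    have h3 : x = k := by linarith
    have hb1 : (b : ℝ) / q < 1 := by
      rw [div_lt_one hq0]
      exact_mod_cast hb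
    have hb0 : 0 ≤ (b : ℝ) / q := by positivity
    have hb1' : (b' : ℝ) / q' < 1 := by
      rw [div_lt_one hq0']
      exact_mod_cast hb'
    have hb0' : 0 ≤ (b' : ℝ) / q' := by positivity
    have h4 : (k : ℝ) < 1 := by rw [← h3]; linarith
    have h5 : (-1 : ℝ) < k := by rw [← h3]; linarith
    have h6 : k < 1 := by exact_mod_cast h4
    have h7 : -1 < k := by exact_mod_cast h5
    have h8 : k = 0 := by omega
    rw [h8] at h0
    have h9 : b * q' = b' * q := by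
      have : (b : ℤ) * q' = b' * q := by linarith
      exact_mod_cast this
    have h10 : q ∣ q' := by
      have : q ∣ b * q' := ⟨b', by rw [h9]; ring⟩
      exact (Nat.Coprime.symm hc).dvd_of_dvd_mul_left this
    have h11 : q' ∣ q := by
      have : q' ∣ b' * q := ⟨b, by rw [← h9]; ring⟩
      exact (Nat.Coprime.symm hc').dvd_of_dvd_mul_left this
    have h12 : q = q' := Nat.dvd_antisymm h10 h11
    apply hne
    refine ⟨h12, ?_⟩
    rw [← h12] at h9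
    exact Nat.eq_of_mul_eq_mul_right (by omega) h9
  have h3 : nd x = |x - k| := rfl
  rw [h3, h1, abs_div, abs_of_pos (mul_pos hq0 hq0')]
  have h4 : (1 : ℝ) ≤ |(((b : ℤ) * q' - b' * q - k * q * q' : ℤ) : ℝ)| := by
    rw [← Int.cast_abs]
    exact_mod_cast Int.one_le_abs h2
  have h5 : (q : ℝ) * q' ≤ (Q : ℝ) ^ 2 := by
    have e1 : (q : ℝ) ≤ Q := by exact_mod_cast hq
    have e2 : (q' : ℝ) ≤ Q := by exact_mod_cast hq'
    nlinarith
  have hQ0 : (0 : ℝ) < (Q : ℝ) ^ 2 := lt_of_lt_of_le (mul_pos hq0 hq0') h5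
  rw [div_le_div_iff₀ hQ0 (mul_pos hq0 hq0')]
  nlinarith [mul_pos hq0 hq0', sq_nonneg (Q : ℝ)]

theorem LSA_cell {D : ℕ} (hD : 1 ≤ D) {x y : ℝ} (h : 1 / (D : ℝ) ≤ nd (x - y)) :
    VB_cell D x ≠ VB_cell D y := by
  intro heq
  have hD0 : (0 : ℝ) < D := by exact_mod_cast hD
  have h1 : |(D : ℝ) * Int.fract x - (D : ℝ) * Int.fract y| < 1 :=
    Int.abs_sub_lt_one_of_floor_eq_floor heq
  have h2 : nd (x - y) ≤ |Int.fract x - Int.fract y| := by
    have h3 := round_le (x - y) (⌊x⌋ - ⌊y⌋)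
    have h4 : x - y - ((⌊x⌋ - ⌊y⌋ : ℤ) : ℝ) = Int.fract x - Int.fract y := by
      unfold Int.fract
      push_cast
      ring
    rw [h4] at h3
    exact h3
  rw [← mul_sub, abs_mul, abs_of_pos hD0] at h1
  have h5 : (1 : ℝ) ≤ D * nd (x - y) := by
    rw [div_le_iff₀ hD0] at h
    linarith
  nlinarith

/-- `1 / max(k,1)²` -/
noncomputable def LSA_h (k : ℕ) : ℝ := 1 / (max (k : ℝ) 1) ^ 2

theorem LSA_h_nonneg (k : ℕ) : 0 ≤ LSA_h k := by
  unfold LSA_h
  positivity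

theorem LSA_h_sum (n : ℕ) : ∑ k ∈ range n, LSA_h k ≤ 3 := by
  have key : ∀ n : ℕ, ∑ k ∈ range (n + 2), LSA_h k ≤ 3 - 1 / ((n : ℝ) + 1) := by
    intro n
    induction n with
    | zero =>
      rw [Finset.sum_range_succ, Finset.sum_range_succ]
      simp only [Finset.range_zero, Finset.sum_empty, LSA_h]
      norm_num
    | succ n ih =>
      rw [Finset.sum_range_succ]
      have h1 : LSA_h (n + 2) ≤ 1 / ((n : ℝ) + 1) - 1 / ((n : ℝ) + 2) := by
        unfold LSA_h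
        have e1 : max (((n + 2 : ℕ) : ℝ)) 1 = (n : ℝ) + 2 := by
          rw [max_eq_left]
          · push_cast; ring
          · push_cast
            have : (0 : ℝ) ≤ n := Nat.cast_nonneg n
            linarith
        rw [e1]
        have hn : (0 : ℝ) ≤ n := Nat.cast_nonneg n
        rw [div_sub_div _ _ (by positivity) (by positivity), div_le_div_iff₀ (by positivity)
          (by positivity)]
        nlinarith
      have e2 : 3 - 1 / (((n + 1 : ℕ) : ℝ) + 1) = 3 - 1 / ((n : ℝ) + 2) := by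
        push_cast
        ring_nf
      rw [e2]
      linarith
  have h1 : ∑ k ∈ range n, LSA_h k ≤ ∑ k ∈ range (n + 2), LSA_h k := by
    apply Finset.sum_le_sum_of_subset_of_nonneg
    · intro k hk
      rw [Finset.mem_range] at hk ⊢
      omega
    · intro k _ _
      exact LSA_h_nonneg k
  have h2 := key n
  have h3 : 0 ≤ 1 / ((n : ℝ) + 1) := by positivity
  linarith

theorem LSA_nd_bound {D : ℕ} (hD : 1 ≤ D) {x : ℝ} (h : 1 / (D : ℝ) ≤ nd x) :
    1 / nd x ^ 2 ≤ (D : ℝ) ^ 2 * (LSA_h (VB_cell D x).toNat +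
      LSA_h (D - 1 - (VB_cell D x).toNat)) := by
  obtain ⟨h0, h1⟩ := VB_cell_mem hD x
  have hD0 : (0 : ℝ) < D := by exact_mod_cast hD
  have hnd : 0 < nd x := lt_of_lt_of_le (by positivity) h
  set k := (VB_cell D x).toNat with hk
  have hk1 : (k : ℤ) = VB_cell D x := Int.toNat_of_nonneg h0
  have hkD : k < D := by omega
  have gen : ∀ j : ℕ, (j : ℝ) / D ≤ nd x → 1 / nd x ^ 2 ≤ (D : ℝ) ^ 2 * LSA_h j := by
    intro j hj
    have h2 : max (j : ℝ) 1 / D ≤ nd x := by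
      rcases max_cases (j : ℝ) 1 with ⟨h3, _⟩ | ⟨h3, _⟩
      · rw [h3]; exact hj
      · rw [h3]; exact h
    have hm : (0 : ℝ) < max (j : ℝ) 1 := lt_of_lt_of_le one_pos (le_max_right _ _)
    unfold LSA_h
    have h3 : (max (j : ℝ) 1 / D) ^ 2 ≤ nd x ^ 2 := by
      gcongr
    calc 1 / nd x ^ 2 ≤ 1 / (max (j : ℝ) 1 / D) ^ 2 := by
          apply one_div_le_one_div_of_le _ h3
          positivity
      _ = (D : ℝ) ^ 2 * (1 / (max (j : ℝ) 1) ^ 2) := by
          field_simp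
  have hkk : ((VB_cell D x : ℤ) : ℝ) = (k : ℝ) := by
    rw [← hk1]
    simp
  rcases le_total k (D - 1 - k) with hle | hle
  · have h2 := gen k (VB_nd_ge hD x k (by rw [hkk]) (by
      rw [hkk]
      have : (k : ℝ) + k + 1 ≤ D := by exact_mod_cast (by omega : k + k + 1 ≤ D)
      linarith))
    have := mul_nonneg (sq_nonneg (D : ℝ)) (LSA_h_nonneg (D - 1 - k))
    rw [mul_add]
    linarith
  · have h2 := gen (D - 1 - k) (VB_nd_ge hD x ((D - 1 - k : ℕ) : ℝ) (by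
      rw [hkk]
      exact_mod_cast hle) (by
      rw [hkk]
      rw [Nat.cast_sub (by omega), Nat.cast_sub (by omega)]
      push_cast
      linarith))
    have := mul_nonneg (sq_nonneg (D : ℝ)) (LSA_h_nonneg k)
    rw [mul_add]
    linarith

/-- The row sums. -/
theorem LSA_row {ι : Type*} [DecidableEq ι] (I : Finset ι) (α : ι → ℝ) (D n : ℕ) (hD : 1 ≤ D)
    (hsep : ∀ i ∈ I, ∀ j ∈ I, i ≠ j → 1 / (D : ℝ) ≤ nd (α i - α j)) (i : ι) (hi : i ∈ I) :
    ∑ j ∈ I, ‖∑ u ∈ Ico (0 : ℤ) n, e (u * (α i - α j))‖ ^ 2 ≤ (n : ℝ) ^ 2 +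
      3 / 2 * (D : ℝ) ^ 2 := by
  rw [← Finset.add_sum_erase _ _ hi]
  have h1 : ‖∑ u ∈ Ico (0 : ℤ) n, e (u * (α i - α i))‖ ^ 2 ≤ (n : ℝ) ^ 2 := by
    have := (geo_le 0 n (by positivity) (α i - α i)).1
    push_cast at this
    rw [sub_zero] at this
    gcongr
  have h2 : ∑ j ∈ I.erase i, ‖∑ u ∈ Ico (0 : ℤ) n, e (u * (α i - α j))‖ ^ 2 ≤
      ∑ j ∈ I.erase i, 1 / 4 * ((D : ℝ) ^ 2 * (LSA_h (VB_cell D (α i - α j)).toNat +
        LSA_h (D - 1 - (VB_cell D (α i - α j)).toNat))) := by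
    refine sum_le_sum fun j hj => ?_
    rw [Finset.mem_erase] at hj
    have h3 := hsep i hi j hj.2 (Ne.symm hj.1)
    have hD0 : (0 : ℝ) < D := by exact_mod_cast hD
    have hnd : 0 < nd (α i - α j) := lt_of_lt_of_le (by positivity) h3
    have h4 := (geo_le 0 n (by positivity) (α i - α j)).2
    have h5 := LSA_nd_bound hD h3
    have h6 : ‖∑ u ∈ Ico (0 : ℤ) n, e (u * (α i - α j))‖ ≤ 1 / (2 * nd (α i - α j)) := by
      rw [le_div_iff₀ (by positivity)]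
      exact h4
    calc ‖∑ u ∈ Ico (0 : ℤ) n, e (u * (α i - α j))‖ ^ 2 ≤ (1 / (2 * nd (α i - α j))) ^ 2 := by
          gcongr
      _ = 1 / 4 * (1 / nd (α i - α j) ^ 2) := by
          field_simp
          ring
      _ ≤ _ := by gcongr
  have h3 : ∑ j ∈ I.erase i, 1 / 4 * ((D : ℝ) ^ 2 * (LSA_h (VB_cell D (α i - α j)).toNat +
        LSA_h (D - 1 - (VB_cell D (α i - α j)).toNat))) ≤
      ∑ k ∈ range D, 1 / 4 * ((D : ℝ) ^ 2 * (LSA_h k + LSA_h (D - 1 - k))) := by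
    have hinj : Set.InjOn (fun j => (VB_cell D (α i - α j)).toNat) (I.erase i : Set ι) := by
      intro j hj l hl hjl
      rw [Finset.mem_coe, Finset.mem_erase] at hj hl
      by_contra hne
      have h4 := hsep l hl.2 j hj.2 (Ne.symm hne)
      have h5 : 1 / (D : ℝ) ≤ nd ((α i - α j) - (α i - α l)) := by
        have : (α i - α j) - (α i - α l) = α l - α j := by ring
        rw [this]
        exact h4
      apply LSA_cell hD h5
      have e1 := (VB_cell_mem hD (α i - α j)).1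
      have e2 := (VB_cell_mem hD (α i - α l)).1
      dsimp only at hjl
      omega
    rw [← Finset.sum_image (f := fun k => 1 / 4 * ((D : ℝ) ^ 2 * (LSA_h k + LSA_h (D - 1 - k))))
      (g := fun j => (VB_cell D (α i - α j)).toNat) hinj]
    apply Finset.sum_le_sum_of_subset_of_nonneg
    · intro k hk
      rw [Finset.mem_image] at hk
      obtain ⟨j, _, rfl⟩ := hk
      rw [Finset.mem_range]
      obtain ⟨e1, e2⟩ := VB_cell_mem hD (α i - α j)
      omega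
    · intro k _ _
      have := LSA_h_nonneg k
      have := LSA_h_nonneg (D - 1 - k)
      positivity
  have h4 : ∑ k ∈ range D, 1 / 4 * ((D : ℝ) ^ 2 * (LSA_h k + LSA_h (D - 1 - k))) ≤
      3 / 2 * (D : ℝ) ^ 2 := by
    rw [← Finset.mul_sum, ← Finset.mul_sum, Finset.sum_add_distrib, Finset.sum_range_reflect]
    have := LSA_h_sum D
    nlinarith [sq_nonneg (D : ℝ)]
  linarith

/-- The additive large sieve for the fractions `b/q`, `q ≤ Q`, `(b, q) = 1`.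

Proof. The points `b/q` (one per reduced fraction in `[0, 1)`) are `δ`-spaced modulo `1` with
`δ = 1/Q²` (`|b/q - b'/q' - k| ≥ 1/(q q')` unless the fractions are equal). We may assume `M = 0`
(multiply `a m` by `e(M b/q)`-twists: `|∑ a_m e(m α)| = |∑ a_{M+m} e(m α)|`), and put
`N' = max N (Q^2)`. By `lsa_dual` (with `K (q, b) m = e(m b/q)`) it suffices to bound
`∑_{m < N} |∑_α c_α e(m α)|²`. The Fejér weight `w m = 2 max 0 (1 - |m|/(2 N'))`, is `≥ 1` for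
`|m| ≤ N'`, so this is at most `∑_{m ∈ ℤ} w m |∑_α c_α e(m α)|² = ∑_{α, β} c_α conj(c_β) ŵ(α - β)`,
`ŵ θ = ∑_m w m e(m θ) = (1/N') |∑_{m < 2N'} e(m θ)|² `, so `0 ≤ ŵ θ ≤ min (4 N') (1/(4 N' ‖θ‖²))`
(`‖∑ e(m θ)‖ ≤ 1/(2 ‖θ‖)`, cf. `geo_le` in `H68T/VB.lean`). By `|c_α c_β| ≤ (|c_α|² + |c_β|²)/2`
(Schur) it is at most `sup_α ∑_β ŵ(α - β) ∑ |c|²`, and for fixed `α` the points `β ≠ α` have
`‖α - β‖ ≥ k δ` for at least... the `k`-th closest point on each side: `∑_β ≤ 4 N' + 2 ∑_k 1/(4 N' k² δ²)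
≤ 4 N' + Q^4/N' ≤ 5 N'`. (Alternatively use Gallagher's lemma
`|S(α)|² ≤ δ⁻¹ ∫_{|β-α| ≤ δ/2} |S|² + ∫_{|β-α| ≤ δ/2} |S S'|`.) -/
theorem ls_add : ∃ C : ℝ, 0 < C ∧ ∀ (Q N : ℕ), 1 ≤ Q → 1 ≤ N → ∀ (M : ℕ) (a : ℕ → ℂ),
    ∑ q ∈ Icc 1 Q, ∑ b ∈ (range q).filter (fun b => Nat.Coprime b q),
      ‖∑ m ∈ Ico M (M + N), a m * e ((m : ℝ) * ((b : ℝ) / q))‖ ^ 2 ≤
      C * ((N : ℝ) + (Q : ℝ) ^ 2) * ∑ m ∈ Ico M (M + N), ‖a m‖ ^ 2 := by
  refine ⟨6, by norm_num, ?_⟩
  intro Q N hQ hN M a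
  classical
  set I : Finset (Σ _ : ℕ, ℕ) := (Icc 1 Q).sigma
    (fun q => (range q).filter (fun b => Nat.Coprime b q)) with hI
  set α : (Σ _ : ℕ, ℕ) → ℝ := fun p => (p.2 : ℝ) / p.1 with hα
  have hsum : ∑ q ∈ Icc 1 Q, ∑ b ∈ (range q).filter (fun b => Nat.Coprime b q),
      ‖∑ m ∈ Ico M (M + N), a m * e ((m : ℝ) * ((b : ℝ) / q))‖ ^ 2 =
      ∑ p ∈ I, ‖∑ m ∈ Ico M (M + N), a m * e ((m : ℝ) * α p)‖ ^ 2 := by
    rw [hI, Finset.sum_sigma]
  rw [hsum]
  apply lsa_dual I (Ico M (M + N)) (fun p m => e ((m : ℝ) * α p)) _ (by positivity)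
  intro c
  set D : ℕ := Q ^ 2 with hD
  set L : ℕ := max N D with hL
  have hD1 : 1 ≤ D := Nat.one_le_pow _ _ hQ
  have hL1 : 1 ≤ L := le_trans hN (le_max_left _ _)
  have hsep : ∀ i ∈ I, ∀ j ∈ I, i ≠ j → 1 / (D : ℝ) ≤ nd (α i - α j) := by
    rintro ⟨q, b⟩ h1 ⟨q', b'⟩ h2 hne
    rw [hI, Finset.mem_sigma, Finset.mem_Icc, Finset.mem_filter, Finset.mem_range] at h1 h2
    have := LSA_sep h1.1.2 h2.1.2 h1.2.1 h2.2.1 h1.2.2 h2.2.2 (by
      rintro ⟨rfl, rfl⟩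
      exact hne rfl)
    rw [hD]
    push_cast
    exact this
  have h1 := LSA_ext (fun x : ℤ => ‖∑ i ∈ I, c i * e ((x : ℝ) * α i)‖ ^ 2)
    (fun x => by positivity) M N L (le_max_left _ _)
  have h2 := LSA_quad I α c (M : ℝ) (2 * L)
  have h3 := LSA_schur I c (fun i j => ‖∑ u ∈ Ico (0 : ℤ) (2 * L : ℕ), e (u * (α i - α j))‖ ^ 2)
    ((((2 * L : ℕ) : ℝ)) ^ 2 + 3 / 2 * (D : ℝ) ^ 2) (fun i j => by positivity) (fun i j => by
      have e1 : ∑ u ∈ Ico (0 : ℤ) (2 * L : ℕ), e (u * (α j - α i)) =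
          (starRingEnd ℂ) (∑ u ∈ Ico (0 : ℤ) (2 * L : ℕ), e (u * (α i - α j))) := by
        rw [map_sum]
        refine sum_congr rfl fun u _ => ?_
        rw [LSA_conj]
        congr 1
        ring
      rw [e1, RCLike.norm_conj])
    (fun i hi => LSA_row I α D (2 * L) hD1 hsep i hi)
  have h4 : ∑ u ∈ Ico (0 : ℤ) (2 * L : ℕ), ∑ v ∈ Ico (0 : ℤ) (2 * L : ℕ),
      ‖∑ i ∈ I, c i * e ((((M : ℤ) + u - v : ℤ) : ℝ) * α i)‖ ^ 2 =
      ∑ u ∈ Ico (0 : ℤ) (2 * L : ℕ), ∑ v ∈ Ico (0 : ℤ) (2 * L : ℕ),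
      ‖∑ i ∈ I, c i * e (((M : ℝ) + u - v) * α i)‖ ^ 2 := by
    push_cast
    rfl
  have h5 : (L : ℝ) * ∑ m ∈ Ico M (M + N), ‖∑ i ∈ I, c i * e (((m : ℤ) : ℝ) * α i)‖ ^ 2 ≤
      ((((2 * L : ℕ) : ℝ)) ^ 2 + 3 / 2 * (D : ℝ) ^ 2) * ∑ i ∈ I, ‖c i‖ ^ 2 := by
    refine h1.trans ?_
    rw [h4]
    exact h2.trans h3
  have hL0 : (0 : ℝ) < L := by exact_mod_cast hL1
  have hDL : (D : ℝ) ≤ L := by exact_mod_cast le_max_right N D
  have hLND : (L : ℝ) ≤ N + D := by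
    have : L ≤ N + D := max_le (Nat.le_add_right _ _) (Nat.le_add_left _ _)
    exact_mod_cast this
  have hDQ : (D : ℝ) = (Q : ℝ) ^ 2 := by rw [hD]; push_cast; rfl
  have h6 : ((((2 * L : ℕ) : ℝ)) ^ 2 + 3 / 2 * (D : ℝ) ^ 2) ≤
      L * (6 * ((N : ℝ) + (Q : ℝ) ^ 2)) := by
    push_cast
    rw [← hDQ]
    have hD0 : (0 : ℝ) ≤ D := Nat.cast_nonneg _
    nlinarith
  have h7 : ∑ m ∈ Ico M (M + N), ‖∑ i ∈ I, c i * e (((m : ℤ) : ℝ) * α i)‖ ^ 2 =
      ∑ j ∈ Ico M (M + N), ‖∑ i ∈ I, c i * e ((j : ℝ) * α i)‖ ^ 2 := by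
    push_cast
    rfl
  rw [h7] at h5
  have h8 : 0 ≤ ∑ i ∈ I, ‖c i‖ ^ 2 := by positivity
  have h9 := h5.trans (mul_le_mul_of_nonneg_right h6 h8)
  rw [mul_assoc] at h9
  exact le_of_mul_le_mul_left h9 hL0

end Pool.Agent.Lib.H59C
end

-- from Lib.H59C.LSC
section

/-!
# LSC: the multiplicative large sieve
-/

open Finset

namespace Pool.Agent.Lib.H59C

open Pool.Agent.Lib.H68T (PC p0 e)

open Classical in
theorem LSC_fiber (Q q : ℕ) (hq : 1 ≤ q) (f : PCh → ℝ) (hf : ∀ p, 0 ≤ f p) :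
    ∑ p ∈ (PC Q).filter (fun p => p.1 = q), f p ≤
      ∑ χ ∈ ((Set.toFinite {χ : DirichletCharacter ℂ q | χ.IsPrimitive}).toFinset), f ⟨q, χ⟩ := by
  have hne : NeZero q := ⟨by omega⟩
  have h1 : (PC Q).filter (fun p => p.1 = q) ⊆
      ((Set.toFinite {χ : DirichletCharacter ℂ q | χ.IsPrimitive}).toFinset).map
        (Function.Embedding.sigmaMk (β := fun r => DirichletCharacter ℂ r) q) := by
    intro p hp
    rw [mem_filter] at hp
    obtain ⟨hp1, hp2⟩ := hp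
    obtain ⟨r, ψ⟩ := p
    simp only at hp2
    subst hp2
    rw [mem_map]
    refine ⟨ψ, ?_, rfl⟩
    rw [Set.Finite.mem_toFinset]
    exact (Pool.Agent.Lib.H68T.mem_PC.1 hp1).2.2
  refine (Finset.sum_le_sum_of_subset_of_nonneg h1 (fun p _ _ => hf p)).trans ?_
  rw [Finset.sum_map]
  exact le_rfl

/-- The large sieve for primitive characters: group `PC Q` by the conductor `q ∈ [1, Q]`
(`PC Q` is the set of all `⟨r, χ⟩` with `1 ≤ r ≤ Q`, `χ` primitive, `H68T.mem_PC`), apply `ls_gauss` with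
`T` = the fibre over `q` and `S = Ico M (M + N)`, then `ls_add`. -/
theorem ls_mul : ∃ C : ℝ, 0 < C ∧ ∀ (Q N : ℕ), 1 ≤ Q → 1 ≤ N → ∀ (M : ℕ) (a : ℕ → ℂ),
    ∑ p ∈ PC Q, (p.1 : ℝ) / (Nat.totient p.1 : ℝ) *
      ‖∑ m ∈ Ico M (M + N), a m * p.2 (m : ZMod p.1)‖ ^ 2 ≤
      C * ((N : ℝ) + (Q : ℝ) ^ 2) * ∑ m ∈ Ico M (M + N), ‖a m‖ ^ 2 := by
  classical
  obtain ⟨C, hC, h⟩ := ls_add
  refine ⟨C, hC, fun Q N hQ hN M a => ?_⟩
  refine le_trans ?_ (h Q N hQ hN M a)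
  have hmaps : ∀ p ∈ PC Q, p.1 ∈ Icc 1 Q := by
    intro p hp
    have := Pool.Agent.Lib.H68T.mem_PC.1 hp
    rw [mem_Icc]
    exact ⟨this.1, this.2.1⟩
  rw [← Finset.sum_fiberwise_of_maps_to hmaps]
  apply Finset.sum_le_sum
  intro q hq
  rw [mem_Icc] at hq
  have hne : NeZero q := ⟨by omega⟩
  refine (LSC_fiber Q q hq.1 (fun p => (p.1 : ℝ) / (Nat.totient p.1 : ℝ) *
      ‖∑ m ∈ Ico M (M + N), a m * p.2 (m : ZMod p.1)‖ ^ 2) (fun p => by positivity)).trans ?_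
  simp only
  rw [← Finset.mul_sum]
  refine ls_gauss q (Ico M (M + N)) a _ ?_
  intro χ hχ
  rw [Set.Finite.mem_toFinset] at hχ
  exact hχ

end Pool.Agent.Lib.H59C
end

-- from Lib.H59C.BIL
section

/-!
# BIL: bilinear forms with characters, with the condition `m n ≤ y`
-/

open Finset

namespace Pool.Agent.Lib.H59C

open Pool.Agent.Lib.H68T (PC p0 e)

/-- Cauchy-Schwarz with weights -/
theorem BIL_cs {ι : Type*} (S : Finset ι) (w a b : ι → ℝ) (hw : ∀ i ∈ S, 0 ≤ w i) :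
    ∑ i ∈ S, w i * (a i * b i) ≤
      Real.sqrt (∑ i ∈ S, w i * a i ^ 2) * Real.sqrt (∑ i ∈ S, w i * b i ^ 2) := by
  have h := Real.sum_mul_le_sqrt_mul_sqrt S (fun i => Real.sqrt (w i) * a i)
    (fun i => Real.sqrt (w i) * b i)
  have h1 : ∑ i ∈ S, Real.sqrt (w i) * a i * (Real.sqrt (w i) * b i) =
      ∑ i ∈ S, w i * (a i * b i) := by
    apply sum_congr rfl
    intro i hi
    have := Real.mul_self_sqrt (hw i hi)
    calc Real.sqrt (w i) * a i * (Real.sqrt (w i) * b i)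
        = (Real.sqrt (w i) * Real.sqrt (w i)) * (a i * b i) := by ring
      _ = w i * (a i * b i) := by rw [this]
  have h2 : ∀ c : ι → ℝ, ∑ i ∈ S, (Real.sqrt (w i) * c i) ^ 2 = ∑ i ∈ S, w i * c i ^ 2 := by
    intro c
    apply sum_congr rfl
    intro i hi
    rw [mul_pow, Real.sq_sqrt (hw i hi)]
  rw [h1, h2, h2] at h
  exact h

theorem BIL_half : ∃ C : ℝ, 0 < C ∧ ∀ (R M : ℕ), 1 ≤ R → 1 ≤ M → ∀ α : ℕ → ℂ,
    ∑ p ∈ PD R, (p.1 : ℝ) / (Nat.totient p.1 : ℝ) *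
      ‖∑ m ∈ Icc 1 M, α m * p.2 (m : ZMod p.1)‖ ^ 2 ≤
      C * ((M : ℝ) + (R : ℝ) ^ 2) * ∑ m ∈ Icc 1 M, ‖α m‖ ^ 2 := by
  obtain ⟨C, hC, h⟩ := ls_mul
  refine ⟨4 * C, by positivity, ?_⟩
  intro R M hR hM α
  have h1 := h (2 * R) M (by omega) hM 1 α
  have h2 : Ico 1 (1 + M) = Icc 1 M := by
    ext x
    rw [mem_Ico, mem_Icc]
    omega
  rw [h2] at h1
  have h3 : ∑ p ∈ PD R, (p.1 : ℝ) / (Nat.totient p.1 : ℝ) *
      ‖∑ m ∈ Icc 1 M, α m * p.2 (m : ZMod p.1)‖ ^ 2 ≤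
      ∑ p ∈ PC (2 * R), (p.1 : ℝ) / (Nat.totient p.1 : ℝ) *
      ‖∑ m ∈ Icc 1 M, α m * p.2 (m : ZMod p.1)‖ ^ 2 := by
    apply sum_le_sum_of_subset_of_nonneg
    · unfold PD
      exact filter_subset _ _
    · intro p _ _
      positivity
  refine (h3.trans h1).trans ?_
  apply mul_le_mul_of_nonneg_right _ (sum_nonneg fun _ _ => by positivity)
  push_cast
  have h4 : (0 : ℝ) ≤ M := Nat.cast_nonneg _
  nlinarith

/-- The same without the condition `m n ≤ y` (no separation of variables needed). -/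
theorem bil' : ∃ C : ℝ, 0 < C ∧ ∀ (R M N : ℕ), 1 ≤ R → 1 ≤ M → 1 ≤ N → ∀ α β : ℕ → ℂ,
    ∑ p ∈ PD R, 1 / (Nat.totient p.1 : ℝ) *
      (‖∑ m ∈ Icc 1 M, α m * p.2 (m : ZMod p.1)‖ * ‖∑ n ∈ Icc 1 N, β n * p.2 (n : ZMod p.1)‖) ≤
      C / R * Real.sqrt (((M : ℝ) + (R : ℝ) ^ 2) * ((N : ℝ) + (R : ℝ) ^ 2) *
        (∑ m ∈ Icc 1 M, ‖α m‖ ^ 2) * ∑ n ∈ Icc 1 N, ‖β n‖ ^ 2) := by
  obtain ⟨C, hC, h⟩ := BIL_half
  refine ⟨C, hC, ?_⟩
  intro R M N hR hM hN α β
  have hR0 : (0 : ℝ) < R := by exact_mod_cast hR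
  have hA := h R M hR hM α
  have hB := h R N hR hN β
  obtain ⟨SA, hSA⟩ : ∃ SA : ℝ, SA = ∑ m ∈ Icc 1 M, ‖α m‖ ^ 2 := ⟨_, rfl⟩
  obtain ⟨SB, hSB⟩ : ∃ SB : ℝ, SB = ∑ m ∈ Icc 1 N, ‖β m‖ ^ 2 := ⟨_, rfl⟩
  rw [← hSA] at hA ⊢
  rw [← hSB] at hB ⊢
  have hSA0 : 0 ≤ SA := by rw [hSA]; positivity
  have hSB0 : 0 ≤ SB := by rw [hSB]; positivity
  have h1 : ∀ p ∈ PD R, 1 / (Nat.totient p.1 : ℝ) *
      (‖∑ m ∈ Icc 1 M, α m * p.2 (m : ZMod p.1)‖ * ‖∑ n ∈ Icc 1 N, β n * p.2 (n : ZMod p.1)‖) ≤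
      (1 / R) * ((p.1 : ℝ) / (Nat.totient p.1 : ℝ) *
      (‖∑ m ∈ Icc 1 M, α m * p.2 (m : ZMod p.1)‖ * ‖∑ n ∈ Icc 1 N, β n * p.2 (n : ZMod p.1)‖)) := by
    intro p hp
    have hp1 : R < p.1 := by
      unfold PD at hp
      exact (mem_filter.mp hp).2
    have hp2 : (R : ℝ) ≤ p.1 := by exact_mod_cast hp1.le
    rw [← mul_assoc (1 / (R : ℝ))]
    apply mul_le_mul_of_nonneg_right _ (by positivity)
    have h2 : (1 : ℝ) ≤ (1 / R) * p.1 := by
      rw [one_div, inv_mul_eq_div, le_div_iff₀ hR0, one_mul]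
      exact hp2
    calc 1 / (Nat.totient p.1 : ℝ) ≤ ((1 / R) * p.1) / (Nat.totient p.1 : ℝ) :=
          div_le_div_of_nonneg_right h2 (Nat.cast_nonneg _)
      _ = (1 / R) * ((p.1 : ℝ) / (Nat.totient p.1 : ℝ)) := by ring
  refine (sum_le_sum h1).trans ?_
  rw [← mul_sum]
  have h3 := BIL_cs (PD R) (fun p => (p.1 : ℝ) / (Nat.totient p.1 : ℝ))
    (fun p => ‖∑ m ∈ Icc 1 M, α m * p.2 (m : ZMod p.1)‖)
    (fun p => ‖∑ n ∈ Icc 1 N, β n * p.2 (n : ZMod p.1)‖) (fun p _ => by positivity)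
  have h4 : Real.sqrt (∑ p ∈ PD R, (p.1 : ℝ) / (Nat.totient p.1 : ℝ) *
      ‖∑ m ∈ Icc 1 M, α m * p.2 (m : ZMod p.1)‖ ^ 2) *
      Real.sqrt (∑ p ∈ PD R, (p.1 : ℝ) / (Nat.totient p.1 : ℝ) *
      ‖∑ n ∈ Icc 1 N, β n * p.2 (n : ZMod p.1)‖ ^ 2) ≤
      Real.sqrt (C * ((M : ℝ) + (R : ℝ) ^ 2) * SA) *
        Real.sqrt (C * ((N : ℝ) + (R : ℝ) ^ 2) * SB) :=
    mul_le_mul (Real.sqrt_le_sqrt hA) (Real.sqrt_le_sqrt hB) (Real.sqrt_nonneg _)
      (Real.sqrt_nonneg _)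
  have h5 : Real.sqrt (C * ((M : ℝ) + (R : ℝ) ^ 2) * SA) *
        Real.sqrt (C * ((N : ℝ) + (R : ℝ) ^ 2) * SB) =
      C * Real.sqrt (((M : ℝ) + (R : ℝ) ^ 2) * ((N : ℝ) + (R : ℝ) ^ 2) * SA * SB) := by
    rw [← Real.sqrt_mul (by positivity)]
    have h6 : C * ((M : ℝ) + (R : ℝ) ^ 2) * SA * (C * ((N : ℝ) + (R : ℝ) ^ 2) * SB) =
        C ^ 2 * (((M : ℝ) + (R : ℝ) ^ 2) * ((N : ℝ) + (R : ℝ) ^ 2) * SA * SB) := by ring
    rw [h6, Real.sqrt_mul (by positivity), Real.sqrt_sq hC.le]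
  calc (1 / (R : ℝ)) * _ ≤ (1 / R) *
        (C * Real.sqrt (((M : ℝ) + (R : ℝ) ^ 2) * ((N : ℝ) + (R : ℝ) ^ 2) * SA * SB)) := by
        apply mul_le_mul_of_nonneg_left _ (by positivity)
        exact (h3.trans h4).trans (le_of_eq h5)
    _ = _ := by ring

theorem BIL_norm (k : ℕ) (hk : 1 ≤ k) (t : ℝ) : ‖(k : ℂ) ^ ((t : ℂ) * Complex.I)‖ = 1 := by
  rw [Complex.norm_natCast_cpow_of_pos hk]
  simp

theorem BIL_int {g : ℝ → ℂ} (hg : MeasureTheory.Integrable g) (k : ℕ) (hk : 1 ≤ k) :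
    MeasureTheory.Integrable (fun t => g t * (k : ℂ) ^ ((t : ℂ) * Complex.I)) := by
  have hk0 : (k : ℂ) ≠ 0 := by
    have : k ≠ 0 := by omega
    exact_mod_cast this
  have hc : Continuous (fun t : ℝ => (k : ℂ) ^ ((t : ℂ) * Complex.I)) := by
    apply Continuous.const_cpow
    · fun_prop
    · exact Or.inl hk0
  refine hg.norm.mono' (hg.aestronglyMeasurable.mul hc.aestronglyMeasurable) ?_
  refine Filter.Eventually.of_forall fun t => ?_
  rw [norm_mul, BIL_norm k hk t, mul_one]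

/-- Bilinear sums over the primitive characters of conductor in `(R, 2R]`.

Proof. For `p ∈ PD R` one has `1/φ(r) ≤ R⁻¹ r/φ(r)`. By `sep` (with `k = m n`)
`∑∑_{m n ≤ y} α β χ(m n) = ∫ g(t) A_t(χ) B_t(χ) dt`, `A_t(χ) = ∑_m α_m m^(it) χ(m)`,
`B_t(χ) = ∑_n β_n n^(it) χ(n)`. For every `t` Cauchy-Schwarz and `ls_mul` (`Q = 2R`) give
`∑_χ (r/φ(r)) |A_t B_t| ≤ C ((M + 4R²)(N + 4R²) ∑|α|² ∑|β|²)^(1/2)`. -/
theorem bil : ∃ C : ℝ, 0 < C ∧ ∀ (R M N y : ℕ), 1 ≤ R → 1 ≤ M → 1 ≤ N → 2 ≤ y → ∀ α β : ℕ → ℂ,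
    ∑ p ∈ PD R, 1 / (Nat.totient p.1 : ℝ) *
      ‖∑ m ∈ Icc 1 M, ∑ n ∈ (Icc 1 N).filter (fun n => m * n ≤ y),
        α m * β n * p.2 ((m * n : ℕ) : ZMod p.1)‖ ≤
      C * Real.log y / R * Real.sqrt (((M : ℝ) + (R : ℝ) ^ 2) * ((N : ℝ) + (R : ℝ) ^ 2) *
        (∑ m ∈ Icc 1 M, ‖α m‖ ^ 2) * ∑ n ∈ Icc 1 N, ‖β n‖ ^ 2) := by
  obtain ⟨C₁, hC₁, hsep⟩ := sep
  obtain ⟨C₂, hC₂, hbil⟩ := bil'
  refine ⟨C₁ * C₂, by positivity, ?_⟩
  intro R M N y hR hM hN hy α β
  have hR0 : (0 : ℝ) < R := by exact_mod_cast hR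
  obtain ⟨g, hg, hgn, hgk⟩ := hsep y hy
  obtain ⟨K, hK⟩ : ∃ K : ℝ, K = Real.sqrt (((M : ℝ) + (R : ℝ) ^ 2) * ((N : ℝ) + (R : ℝ) ^ 2) *
        (∑ m ∈ Icc 1 M, ‖α m‖ ^ 2) * ∑ n ∈ Icc 1 N, ‖β n‖ ^ 2) := ⟨_, rfl⟩
  have hK0 : 0 ≤ K := by rw [hK]; exact Real.sqrt_nonneg _
  rw [← hK]
  -- the integrand
  obtain ⟨h, hh⟩ : ∃ h : PCh → ℝ → ℂ, h = fun p t => ∑ m ∈ Icc 1 M, ∑ n ∈ Icc 1 N,
    (α m * β n * p.2 ((m * n : ℕ) : ZMod p.1)) *
      (g t * ((m * n : ℕ) : ℂ) ^ ((t : ℂ) * Complex.I)) := ⟨_, rfl⟩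
  have hint : ∀ p, MeasureTheory.Integrable (h p) := by
    intro p
    rw [hh]
    apply MeasureTheory.integrable_finsetSum
    intro m hm
    apply MeasureTheory.integrable_finsetSum
    intro n hn
    rw [mem_Icc] at hm hn
    exact (BIL_int hg (m * n) (Nat.mul_pos hm.1 hn.1)).const_mul _
  have hval : ∀ p : PCh, ∫ t, h p t = ∑ m ∈ Icc 1 M, ∑ n ∈ (Icc 1 N).filter (fun n => m * n ≤ y),
        α m * β n * p.2 ((m * n : ℕ) : ZMod p.1) := by
    intro p
    rw [hh]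
    rw [MeasureTheory.integral_finsetSum]
    · apply sum_congr rfl
      intro m hm
      rw [MeasureTheory.integral_finsetSum]
      · rw [sum_filter]
        apply sum_congr rfl
        intro n hn
        rw [mem_Icc] at hm hn
        rw [MeasureTheory.integral_const_mul, hgk (m * n) (Nat.mul_pos hm.1 hn.1)]
        split_ifs <;> simp
      · intro n hn
        rw [mem_Icc] at hm hn
        exact (BIL_int hg (m * n) (Nat.mul_pos hm.1 hn.1)).const_mul _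
    · intro m hm
      apply MeasureTheory.integrable_finsetSum
      intro n hn
      rw [mem_Icc] at hm hn
      exact (BIL_int hg (m * n) (Nat.mul_pos hm.1 hn.1)).const_mul _
  have hprod : ∀ (p : PCh) (t : ℝ), h p t = g t *
      ((∑ m ∈ Icc 1 M, (α m * (m : ℂ) ^ ((t : ℂ) * Complex.I)) * p.2 (m : ZMod p.1)) *
        (∑ n ∈ Icc 1 N, (β n * (n : ℂ) ^ ((t : ℂ) * Complex.I)) * p.2 (n : ZMod p.1))) := by
    intro p t
    rw [hh, sum_mul_sum, mul_sum]
    apply sum_congr rfl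
    intro m _
    rw [mul_sum]
    apply sum_congr rfl
    intro n _
    have e1 : ((m * n : ℕ) : ℂ) ^ ((t : ℂ) * Complex.I) =
        (m : ℂ) ^ ((t : ℂ) * Complex.I) * (n : ℂ) ^ ((t : ℂ) * Complex.I) := by
      rw [Nat.cast_mul]
      exact Complex.natCast_mul_natCast_cpow m n _
    rw [e1, Nat.cast_mul, map_mul]
    ring
  have hpt : ∀ t : ℝ, ∑ p ∈ PD R, 1 / (Nat.totient p.1 : ℝ) * ‖h p t‖ ≤ ‖g t‖ * (C₂ / R * K) := by
    intro t
    have h1 := hbil R M N hR hM hN (fun m => α m * (m : ℂ) ^ ((t : ℂ) * Complex.I))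
      (fun n => β n * (n : ℂ) ^ ((t : ℂ) * Complex.I))
    have h2 : ∀ (L : ℕ) (γ : ℕ → ℂ), ∑ m ∈ Icc 1 L, ‖γ m * (m : ℂ) ^ ((t : ℂ) * Complex.I)‖ ^ 2 =
        ∑ m ∈ Icc 1 L, ‖γ m‖ ^ 2 := by
      intro L γ
      apply sum_congr rfl
      intro m hm
      rw [mem_Icc] at hm
      rw [norm_mul, BIL_norm m hm.1 t, mul_one]
    rw [h2, h2, ← hK] at h1
    have h3 : ∑ p ∈ PD R, 1 / (Nat.totient p.1 : ℝ) * ‖h p t‖ = ‖g t‖ *
        ∑ p ∈ PD R, 1 / (Nat.totient p.1 : ℝ) *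
      (‖∑ m ∈ Icc 1 M, (α m * (m : ℂ) ^ ((t : ℂ) * Complex.I)) * p.2 (m : ZMod p.1)‖ *
        ‖∑ n ∈ Icc 1 N, (β n * (n : ℂ) ^ ((t : ℂ) * Complex.I)) * p.2 (n : ZMod p.1)‖) := by
      rw [mul_sum]
      apply sum_congr rfl
      intro p _
      rw [hprod, norm_mul, norm_mul]
      ring
    rw [h3]
    exact mul_le_mul_of_nonneg_left h1 (norm_nonneg _)
  calc ∑ p ∈ PD R, 1 / (Nat.totient p.1 : ℝ) *
      ‖∑ m ∈ Icc 1 M, ∑ n ∈ (Icc 1 N).filter (fun n => m * n ≤ y),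
        α m * β n * p.2 ((m * n : ℕ) : ZMod p.1)‖
      ≤ ∑ p ∈ PD R, ∫ t, 1 / (Nat.totient p.1 : ℝ) * ‖h p t‖ := by
        apply sum_le_sum
        intro p _
        rw [MeasureTheory.integral_const_mul]
        apply mul_le_mul_of_nonneg_left _ (by positivity)
        rw [← hval p]
        exact MeasureTheory.norm_integral_le_integral_norm _
    _ = ∫ t, ∑ p ∈ PD R, 1 / (Nat.totient p.1 : ℝ) * ‖h p t‖ := by
        rw [MeasureTheory.integral_finsetSum]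
        intro p _
        exact (hint p).norm.const_mul _
    _ ≤ ∫ t, ‖g t‖ * (C₂ / R * K) := by
        apply MeasureTheory.integral_mono
        · apply MeasureTheory.integrable_finsetSum
          intro p _
          exact (hint p).norm.const_mul _
        · exact hg.norm.mul_const _
        · exact hpt
    _ = (∫ t, ‖g t‖) * (C₂ / R * K) := by
        rw [MeasureTheory.integral_mul_const]
    _ ≤ (C₁ * Real.log y) * (C₂ / R * K) :=
        mul_le_mul_of_nonneg_right hgn (by positivity)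
    _ = C₁ * C₂ * Real.log y / R * K := by ring

end Pool.Agent.Lib.H59C
end

-- from Lib.H59C.TY2
section

/-!
# TY2: type II sums
-/

open Finset

namespace Pool.Agent.Lib.H59C

open Pool.Agent.Lib.H68T (PC p0 e)

/-- the dyadic piece of `n` above `R` -/
def ty2_dy (R n : ℕ) : ℕ := Nat.log 2 ((n - 1) / R)

theorem ty2_dy_spec {R n : ℕ} (hR : 1 ≤ R) (hn : R < n) :
    2 ^ ty2_dy R n * R < n ∧ n ≤ 2 * (2 ^ ty2_dy R n * R) := by
  have h1 : (n - 1) / R ≠ 0 := by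
    have : 1 ≤ (n - 1) / R := (Nat.le_div_iff_mul_le (by omega)).2 (by omega)
    omega
  have h2 : 2 ^ ty2_dy R n ≤ (n - 1) / R := Nat.pow_log_le_self 2 h1
  have h3 : (n - 1) / R < 2 ^ (ty2_dy R n + 1) := Nat.lt_pow_succ_log_self (by norm_num) _
  rw [Nat.le_div_iff_mul_le (by omega)] at h2
  rw [Nat.div_lt_iff_lt_mul (by omega), pow_succ] at h3
  constructor
  · omega
  · have : 2 ^ ty2_dy R n * 2 * R = 2 * (2 ^ ty2_dy R n * R) := by ring
    omega

theorem ty2_dy_lt {R n Q : ℕ} (hQ : n ≤ Q) : ty2_dy R n < Nat.log 2 Q + 1 := by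
  rw [Nat.lt_succ_iff]
  apply Nat.log_mono_right
  exact (Nat.div_le_self _ _).trans (by omega)

theorem ty2_log {Q : ℕ} (hQ : 2 ≤ Q) : ((Nat.log 2 Q + 1 : ℕ) : ℝ) ≤ 3 * Real.log Q := by
  have hQ2 : (2 : ℝ) ≤ Q := by exact_mod_cast hQ
  have hl2 := Real.log_two_gt_d9
  have h1 : ((2 : ℝ) ^ Nat.log 2 Q) ≤ Q := by
    exact_mod_cast Nat.pow_log_le_self 2 (by omega : Q ≠ 0)
  have h2 := Real.log_le_log (by positivity) h1
  rw [Real.log_pow] at h2
  have h3 := Real.log_le_log (by norm_num) hQ2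
  push_cast
  have h4 : (0 : ℝ) ≤ Nat.log 2 Q := Nat.cast_nonneg _
  nlinarith

theorem ty2_sqrt_add {x R : ℝ} (hx : 0 ≤ x) (hR : 0 ≤ R) :
    Real.sqrt (x + R ^ 2) ≤ Real.sqrt x + R := by
  rw [Real.sqrt_le_left (by positivity)]
  have h1 := Real.sq_sqrt hx
  have h2 : 0 ≤ Real.sqrt x * R := by positivity
  nlinarith

/-- the numerical estimate for one piece -/
theorem ty2_num {M y R A B N : ℝ} (hM : 1 ≤ M) (hy : 1 ≤ y) (hR : 1 ≤ R)
    (hA : 0 ≤ A) (hB : 0 ≤ B) (hN0 : 0 ≤ N) (hN : N ≤ y / M) (hAM : A ≤ 2 * M) (hBN : B ≤ y / M) :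
    Real.sqrt ((2 * M + R ^ 2) * (N + R ^ 2) * A * B) / R ≤
      2 * (y / R + Real.sqrt (y * M) + y / Real.sqrt M + R * Real.sqrt y) := by
  have hM0 : 0 < M := by linarith
  have hR0 : 0 < R := by linarith
  have hy0 : 0 < y := by linarith
  have hsM : Real.sqrt M * Real.sqrt M = M := Real.mul_self_sqrt hM0.le
  have hsy : Real.sqrt y * Real.sqrt y = y := Real.mul_self_sqrt hy0.le
  have hsM0 : 0 < Real.sqrt M := Real.sqrt_pos.2 hM0
  have hsy0 : 0 < Real.sqrt y := Real.sqrt_pos.2 hy0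
  have h2 : Real.sqrt 2 * Real.sqrt 2 = 2 := Real.mul_self_sqrt (by norm_num)
  have h20 : 0 < Real.sqrt 2 := Real.sqrt_pos.2 (by norm_num)
  have h22 : Real.sqrt 2 ≤ 2 := by
    rw [Real.sqrt_le_left (by norm_num)]
    norm_num
  have e1 : Real.sqrt (2 * M + R ^ 2) ≤ Real.sqrt 2 * Real.sqrt M + R := by
    have := ty2_sqrt_add (x := 2 * M) (R := R) (by positivity) hR0.le
    rwa [Real.sqrt_mul (by norm_num : (0 : ℝ) ≤ 2)] at this
  have e2 : Real.sqrt (N + R ^ 2) ≤ Real.sqrt y / Real.sqrt M + R := by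
    have h3 := ty2_sqrt_add (x := y / M) (R := R) (by positivity) hR0.le
    rw [Real.sqrt_div hy0.le] at h3
    exact (Real.sqrt_le_sqrt (by linarith)).trans h3
  have e3 : Real.sqrt (A * B) ≤ Real.sqrt 2 * Real.sqrt y := by
    rw [← Real.sqrt_mul (by norm_num : (0 : ℝ) ≤ 2)]
    apply Real.sqrt_le_sqrt
    calc A * B ≤ (2 * M) * (y / M) := mul_le_mul hAM hBN hB (by positivity)
      _ = 2 * y := by field_simp
  have e4 : Real.sqrt ((2 * M + R ^ 2) * (N + R ^ 2) * A * B) =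
      Real.sqrt (2 * M + R ^ 2) * Real.sqrt (N + R ^ 2) * Real.sqrt (A * B) := by
    rw [mul_assoc ((2 * M + R ^ 2) * (N + R ^ 2)), Real.sqrt_mul (by positivity),
      Real.sqrt_mul (by positivity)]
  rw [e4, div_le_iff₀ hR0]
  have e5 : Real.sqrt (2 * M + R ^ 2) * Real.sqrt (N + R ^ 2) * Real.sqrt (A * B) ≤
      (Real.sqrt 2 * Real.sqrt M + R) * (Real.sqrt y / Real.sqrt M + R) *
        (Real.sqrt 2 * Real.sqrt y) := by
    gcongr
  refine e5.trans ?_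
  have hym : Real.sqrt (y * M) = Real.sqrt y * Real.sqrt M := Real.sqrt_mul hy0.le _
  rw [hym]
  have e6 : (Real.sqrt 2 * Real.sqrt M + R) * (Real.sqrt y / Real.sqrt M + R) *
        (Real.sqrt 2 * Real.sqrt y) =
      (Real.sqrt 2 * Real.sqrt 2) * (Real.sqrt y * Real.sqrt y) +
      (Real.sqrt 2 * Real.sqrt 2) * R * (Real.sqrt y * Real.sqrt M) +
      Real.sqrt 2 * R * ((Real.sqrt y * Real.sqrt y) / Real.sqrt M) +
      Real.sqrt 2 * R ^ 2 * Real.sqrt y := by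
    field_simp
    ring
  rw [e6, h2, hsy]
  have e7 : 2 * (y / R + Real.sqrt y * Real.sqrt M + y / Real.sqrt M + R * Real.sqrt y) * R =
      2 * y + 2 * R * (Real.sqrt y * Real.sqrt M) + 2 * R * (y / Real.sqrt M) +
        2 * R ^ 2 * Real.sqrt y := by
    field_simp
  rw [e7]
  gcongr

/-- Type II sums: `m` in `(U, V]`, `n ≤ y/m` arbitrary.

Proof. Split `(U, V]` into at most `2 log y` dyadic pieces `(M, 2M]`, `U ≤ M ≤ V` (intersected with
`(U, V]`); there `n ≤ y/M =: N`; `bil` with `2M`, `N` gives at most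
`C L/R √((2M + R²)(y/M + R²) · 2M (1+L)² · (y/M)(1+L)²)`, `L = log y`, and
`√(y (M + R²)(y/M + R²)) ≤ √y (√y + R √M + R √(y/M) + R²)`, so (dividing by `R`)
`C' L³ (y/R + √(y M) + y/√M + R √y)`, where `M ≤ V`, `M ≥ U`. -/
theorem ty2 : ∃ C : ℝ, 0 < C ∧ ∀ (R U V y : ℕ), 1 ≤ R → 1 ≤ U → U ≤ V → V ≤ y → 2 ≤ y →
    ∀ α β : ℕ → ℂ, (∀ m, 1 ≤ m → m ≤ y → ‖α m‖ ≤ 1 + Real.log y) →
    (∀ m, 1 ≤ m → m ≤ y → ‖β m‖ ≤ 1 + Real.log y) →
    ∑ p ∈ PD R, 1 / (Nat.totient p.1 : ℝ) *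
      ‖∑ m ∈ Ioc U V, ∑ n ∈ (Icc 1 y).filter (fun n => m * n ≤ y),
        α m * β n * p.2 ((m * n : ℕ) : ZMod p.1)‖ ≤
      C * Real.log y ^ 5 * ((y : ℝ) / R + Real.sqrt ((y : ℝ) * V) + (y : ℝ) / Real.sqrt U +
        R * Real.sqrt y) := by
  classical
  obtain ⟨C₀, hC₀, hb⟩ := bil
  refine ⟨100 * C₀, by positivity, ?_⟩
  intro R U V y hR hU hUV hVy hy α β hα hβ
  have hy2 : (2 : ℝ) ≤ y := by exact_mod_cast hy
  have hl2 := Real.log_two_gt_d9
  have hly : Real.log 2 ≤ Real.log y := Real.log_le_log (by norm_num) hy2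
  have hdy := ty2_log hy
  obtain ⟨L, hL⟩ : ∃ L, L = Real.log y := ⟨_, rfl⟩
  rw [← hL] at hα hβ hly hdy ⊢
  have hL0 : 0.69 < L := by linarith
  have hRr : (1 : ℝ) ≤ R := by exact_mod_cast hR
  have hUr : (1 : ℝ) ≤ U := by exact_mod_cast hU
  obtain ⟨T, hT⟩ : ∃ T : ℝ, T = (y : ℝ) / R + Real.sqrt ((y : ℝ) * V) + (y : ℝ) / Real.sqrt U +
      R * Real.sqrt y := ⟨_, rfl⟩
  have hT0 : 0 ≤ T := by rw [hT]; positivity
  rw [← hT]
  -- the pieces
  obtain ⟨g, hg⟩ : ∃ g : PCh → ℕ → ℂ, ∀ p m, g p m = ∑ n ∈ (Icc 1 y).filter (fun n => m * n ≤ y),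
        α m * β n * p.2 ((m * n : ℕ) : ZMod p.1) := ⟨_, fun _ _ => rfl⟩
  simp only [← hg]
  have hmaps : ∀ m ∈ Ioc U V, ty2_dy U m ∈ range (Nat.log 2 y + 1) := by
    intro m hm
    rw [mem_Ioc] at hm
    rw [mem_range]
    exact ty2_dy_lt (hm.2.trans hVy)
  have hpiece : ∀ i ∈ range (Nat.log 2 y + 1), ∑ p ∈ PD R, 1 / (Nat.totient p.1 : ℝ) *
      ‖∑ m ∈ (Ioc U V).filter (fun m => ty2_dy U m = i), g p m‖ ≤
      C₀ * L * ((1 + L) ^ 2 * (2 * T)) := by
    intro i _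
    by_cases hi : 2 ^ i * U < V
    · obtain ⟨M, hMdef⟩ : ∃ M, M = 2 ^ i * U := ⟨_, rfl⟩
      rw [← hMdef] at hi
      have hUM : U ≤ M := by
        rw [hMdef]
        exact Nat.le_mul_of_pos_left _ (by positivity)
      have hM1 : 1 ≤ M := hU.trans hUM
      have hMr : (1 : ℝ) ≤ M := by exact_mod_cast hM1
      have hN1 : 1 ≤ y / M := (Nat.le_div_iff_mul_le (by omega)).2 (by omega)
      obtain ⟨α', hα'⟩ : ∃ α' : ℕ → ℂ, ∀ m, α' m =
          if m ∈ (Ioc U V).filter (fun m => ty2_dy U m = i) then α m else 0 := ⟨_, fun _ => rfl⟩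
      have h1 := hb R (2 * M) (y / M) y hR (by omega) hN1 hy α' β
      have hsub : (Ioc U V).filter (fun m => ty2_dy U m = i) ⊆ Icc 1 (2 * M) := by
        intro m hm
        rw [mem_filter, mem_Ioc] at hm
        have h6 := ty2_dy_spec hU hm.1.1
        rw [hm.2, ← hMdef] at h6
        rw [mem_Icc]
        exact ⟨by omega, h6.2⟩
      have heq : ∀ p : PCh, ∑ m ∈ Icc 1 (2 * M), ∑ n ∈ (Icc 1 (y / M)).filter (fun n => m * n ≤ y),
          α' m * β n * p.2 ((m * n : ℕ) : ZMod p.1) =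
          ∑ m ∈ (Ioc U V).filter (fun m => ty2_dy U m = i), g p m := by
        intro p
        rw [← sum_subset hsub (fun m _ hm => ?_)]
        · refine sum_congr rfl fun m hm => ?_
          rw [hg, hα', if_pos hm]
          refine sum_congr ?_ fun n _ => rfl
          rw [mem_filter, mem_Ioc] at hm
          have h6 := ty2_dy_spec hU hm.1.1
          rw [hm.2, ← hMdef] at h6
          ext n
          rw [mem_filter, mem_filter, mem_Icc, mem_Icc, Nat.le_div_iff_mul_le (by omega)]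
          constructor
          · rintro ⟨⟨h1, h2⟩, h3⟩
            refine ⟨⟨h1, ?_⟩, h3⟩
            nlinarith
          · rintro ⟨⟨h1, h2⟩, h3⟩
            refine ⟨⟨h1, ?_⟩, h3⟩
            have : n * M ≤ m * n := by rw [mul_comm m]; exact Nat.mul_le_mul_left n h6.1.le
            omega
        · rw [hα', if_neg hm]
          simp
      simp only [heq] at h1
      rw [← hL] at h1
      refine h1.trans ?_
      have hA : ∑ m ∈ Icc 1 (2 * M), ‖α' m‖ ^ 2 ≤ 2 * M * (1 + L) ^ 2 := by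
        have h2 : ∀ m ∈ Icc 1 (2 * M), ‖α' m‖ ^ 2 ≤ (1 + L) ^ 2 := by
          intro m _
          refine pow_le_pow_left₀ (norm_nonneg _) ?_ 2
          rw [hα']
          split_ifs with hm
          · rw [mem_filter, mem_Ioc] at hm
            exact hα m (by omega) (by omega)
          · rw [norm_zero]
            linarith
        refine (sum_le_sum h2).trans (le_of_eq ?_)
        rw [sum_const, Nat.card_Icc, nsmul_eq_mul, Nat.add_sub_cancel]
        push_cast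
        ring
      have hB : ∑ n ∈ Icc 1 (y / M), ‖β n‖ ^ 2 ≤ ((y / M : ℕ) : ℝ) * (1 + L) ^ 2 := by
        have h2 : ∀ m ∈ Icc 1 (y / M), ‖β m‖ ^ 2 ≤ (1 + L) ^ 2 := by
          intro m hm
          rw [mem_Icc] at hm
          exact pow_le_pow_left₀ (norm_nonneg _)
            (hβ m hm.1 (hm.2.trans (Nat.div_le_self _ _))) 2
        refine (sum_le_sum h2).trans (le_of_eq ?_)
        rw [sum_const, Nat.card_Icc, nsmul_eq_mul, Nat.add_sub_cancel]
      have hyM : ((y / M : ℕ) : ℝ) ≤ (y : ℝ) / M := Nat.cast_div_le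
      obtain ⟨A, hAdef⟩ : ∃ A, A = (∑ m ∈ Icc 1 (2 * M), ‖α' m‖ ^ 2) / (1 + L) ^ 2 := ⟨_, rfl⟩
      obtain ⟨B, hBdef⟩ : ∃ B, B = (∑ n ∈ Icc 1 (y / M), ‖β n‖ ^ 2) / (1 + L) ^ 2 := ⟨_, rfl⟩
      have hpos : 0 < (1 + L) ^ 2 := by positivity
      have hA0 : 0 ≤ A := by rw [hAdef]; positivity
      have hB0 : 0 ≤ B := by rw [hBdef]; positivity
      have hA1 : A ≤ 2 * M := by
        rw [hAdef, div_le_iff₀ hpos]
        exact hA
      have hB1 : B ≤ (y : ℝ) / M := by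
        rw [hBdef, div_le_iff₀ hpos]
        exact hB.trans (mul_le_mul_of_nonneg_right hyM hpos.le)
      have hAe : ∑ m ∈ Icc 1 (2 * M), ‖α' m‖ ^ 2 = A * (1 + L) ^ 2 := by
        rw [hAdef, div_mul_cancel₀ _ hpos.ne']
      have hBe : ∑ n ∈ Icc 1 (y / M), ‖β n‖ ^ 2 = B * (1 + L) ^ 2 := by
        rw [hBdef, div_mul_cancel₀ _ hpos.ne']
      have h3 := ty2_num (M := M) (y := y) (R := R) (A := A) (B := B) (N := ((y / M : ℕ) : ℝ)) hMr
        (by linarith) hRr hA0 hB0 (by positivity) hyM hA1 hB1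
      have h4 : Real.sqrt ((((2 * M : ℕ) : ℝ) + (R : ℝ) ^ 2) * (((y / M : ℕ) : ℝ) + (R : ℝ) ^ 2) *
          (∑ m ∈ Icc 1 (2 * M), ‖α' m‖ ^ 2) * ∑ n ∈ Icc 1 (y / M), ‖β n‖ ^ 2) =
          (1 + L) ^ 2 * Real.sqrt ((2 * M + (R : ℝ) ^ 2) * (((y / M : ℕ) : ℝ) + (R : ℝ) ^ 2) *
            A * B) := by
        rw [hAe, hBe]
        have e1 : (((2 * M : ℕ) : ℝ) + (R : ℝ) ^ 2) * (((y / M : ℕ) : ℝ) + (R : ℝ) ^ 2) *
            (A * (1 + L) ^ 2) * (B * (1 + L) ^ 2) = ((1 + L) ^ 2) ^ 2 *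
            ((2 * M + (R : ℝ) ^ 2) * (((y / M : ℕ) : ℝ) + (R : ℝ) ^ 2) * A * B) := by
          push_cast
          ring
        rw [e1, Real.sqrt_mul (by positivity), Real.sqrt_sq (by positivity)]
      have h5 : 2 * ((y : ℝ) / R + Real.sqrt (y * M) + y / Real.sqrt M + R * Real.sqrt y) ≤
          2 * T := by
        rw [hT]
        have hMV : (M : ℝ) ≤ V := by exact_mod_cast hi.le
        have hUM' : (U : ℝ) ≤ M := by exact_mod_cast hUM
        have hsU : 0 < Real.sqrt U := Real.sqrt_pos.2 (by linarith)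
        gcongr
      calc C₀ * L / R * Real.sqrt ((((2 * M : ℕ) : ℝ) + (R : ℝ) ^ 2) *
            (((y / M : ℕ) : ℝ) + (R : ℝ) ^ 2) *
            (∑ m ∈ Icc 1 (2 * M), ‖α' m‖ ^ 2) * ∑ n ∈ Icc 1 (y / M), ‖β n‖ ^ 2)
          = C₀ * L * ((1 + L) ^ 2 * (Real.sqrt ((2 * M + (R : ℝ) ^ 2) *
            (((y / M : ℕ) : ℝ) + (R : ℝ) ^ 2) * A * B) / R)) := by
            rw [h4]
            ring
        _ ≤ C₀ * L * ((1 + L) ^ 2 * (2 * T)) := by
            refine mul_le_mul_of_nonneg_left ?_ (by positivity)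
            exact mul_le_mul_of_nonneg_left (h3.trans h5) (by positivity)
    · have hempty : (Ioc U V).filter (fun m => ty2_dy U m = i) = ∅ := by
        rw [filter_eq_empty_iff]
        intro m hm h5
        rw [mem_Ioc] at hm
        have h6 := ty2_dy_spec hU hm.1
        rw [h5] at h6
        omega
      simp only [hempty, sum_empty, norm_zero, mul_zero, sum_const_zero]
      positivity
  have hsum : ∑ p ∈ PD R, 1 / (Nat.totient p.1 : ℝ) * ‖∑ m ∈ Ioc U V, g p m‖ ≤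
      ∑ i ∈ range (Nat.log 2 y + 1), ∑ p ∈ PD R, 1 / (Nat.totient p.1 : ℝ) *
        ‖∑ m ∈ (Ioc U V).filter (fun m => ty2_dy U m = i), g p m‖ := by
    rw [sum_comm]
    refine sum_le_sum fun p _ => ?_
    rw [← mul_sum]
    refine mul_le_mul_of_nonneg_left ?_ (by positivity)
    rw [← sum_fiberwise_of_maps_to hmaps]
    exact norm_sum_le _ _
  refine hsum.trans ((sum_le_sum hpiece).trans ?_)
  rw [sum_const, card_range, nsmul_eq_mul]
  refine (mul_le_mul_of_nonneg_right hdy (by positivity)).trans ?_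
  have h1 : (1 + L) ^ 2 ≤ 13 / 2 * L ^ 2 := by nlinarith
  have h2 : L ^ 4 ≤ 3 / 2 * L ^ 5 := by
    have : 0 ≤ L ^ 4 := by positivity
    nlinarith
  calc 3 * L * (C₀ * L * ((1 + L) ^ 2 * (2 * T))) = 6 * C₀ * L ^ 2 * T * (1 + L) ^ 2 := by ring
    _ ≤ 6 * C₀ * L ^ 2 * T * (13 / 2 * L ^ 2) := by gcongr
    _ = 39 * C₀ * T * L ^ 4 := by ring
    _ ≤ 39 * C₀ * T * (3 / 2 * L ^ 5) := by gcongr
    _ = 117 / 2 * (C₀ * L ^ 5 * T) := by ring
    _ ≤ 100 * (C₀ * L ^ 5 * T) := by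
      have : 0 ≤ C₀ * L ^ 5 * T := by positivity
      linarith
    _ = 100 * C₀ * L ^ 5 * T := by ring

end Pool.Agent.Lib.H59C
end
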