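import Pool.Agent.Lib.H1M.RV2.M006
import Pool.Agent.Lib.H1M.RV2.M019

/-! Merged copies (to shorten the build) of Lib.H59C.BV1A, Lib.H59C.BV1B, Lib.H59C.BV1C, Lib.H59C.TY1, Lib.H59C.MER2, Lib.H59C.MER3, Lib.H59C.PIN. -/

-- from Lib.H59C.BV1A
section

/-!
# BV1A: from progressions to primitive characters
-/

open Finset

namespace Pool.Agent.Lib.H59C

open Pool.Agent.Lib.H68T (PC p0 e)

open Classical in
theorem BV1A_val {d : ℕ} [NeZero d] (χ : DirichletCharacter ℂ d) (m : ℕ) :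
    χ (m : ZMod d) = if m.Coprime (d / χ.conductor) then
      χ.primitiveCharacter (m : ZMod χ.conductor) else 0 := by
  have hr : χ.conductor ∣ d := χ.conductor_dvd_level
  have hd : χ.conductor * (d / χ.conductor) = d := Nat.mul_div_cancel' hr
  by_cases hm : m.Coprime d
  · have h1 : m.Coprime (d / χ.conductor) := Nat.Coprime.coprime_dvd_right (Nat.div_dvd_of_dvd hr) hm
    rw [if_pos h1]
    have h2 : IsCoprime ((m : ℕ) : ℤ) (d : ℤ) := Nat.isCoprime_iff_coprime.mpr hm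
    have h3 := DirichletCharacter.primitiveCharacter_apply_of_isCoprime χ h2
    rw [Int.cast_natCast, Int.cast_natCast] at h3
    exact h3.symm
  · have h0 : χ (m : ZMod d) = 0 := by
      apply MulChar.map_nonunit
      rw [ZMod.isUnit_iff_coprime]
      exact hm
    rw [h0]
    split_ifs with h1
    · have h2 : ¬ m.Coprime χ.conductor := by
        intro h3
        apply hm
        rw [← hd]
        exact Nat.Coprime.mul_right h3 h1
      symm
      apply MulChar.map_nonunit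
      rw [ZMod.isUnit_iff_coprime]
      exact h2
    · rfl

/-- the primitive character of a character -/
noncomputable def BV1A_P {d : ℕ} (χ : DirichletCharacter ℂ d) : PCh :=
  ⟨χ.conductor, χ.primitiveCharacter⟩

/-- a character modulo `d` from a pair -/
noncomputable def BV1A_L (d : ℕ) (p : PCh) : DirichletCharacter ℂ d := by
  classical
  exact if h : p.1 ∣ d then DirichletCharacter.changeLevel h p.2 else 1

theorem BV1A_LP {d : ℕ} (χ : DirichletCharacter ℂ d) : BV1A_L d (BV1A_P χ) = χ := by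
  unfold BV1A_L BV1A_P
  rw [dif_pos χ.conductor_dvd_level]
  exact χ.changeLevel_primitiveCharacter

theorem BV1A_inj {d : ℕ} : Function.Injective (BV1A_P (d := d)) := by
  intro χ ψ h
  rw [← BV1A_LP χ, ← BV1A_LP ψ, h]

theorem BV1A_p0 {d : ℕ} : BV1A_L d p0 = 1 := by
  unfold BV1A_L p0
  rw [dif_pos (one_dvd d)]
  exact map_one _

open Classical in
/-- For a function `f` on `[1, y]` the deviation in a reduced class mod `d` is at most the mean of the
sums against the primitive characters `≠ 1` inducing the characters mod `d`.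

Proof. Orthogonality: for `(a, d) = 1`, `∑_{m ≡ a} f m = φ(d)⁻¹ ∑_{χ mod d} χ̄(a) ∑_m f m χ(m)`; `χ = 1` gives
`φ(d)⁻¹ ∑_{(m,d)=1} f m`. For `χ ≠ 1` let `χ*` mod `r ∣ d` be the primitive character inducing `χ`
(`χ.primitiveCharacter`, `χ.conductor`); `χ(m) = χ*(m) 1[(m, d) = 1] = χ*(m) 1[(m, d/r) = 1]` (`χ*(m) = 0` if
`(m, r) > 1`), and `χ ↦ ⟨conductor, χ*⟩` is an injection from the characters mod `d` to the `p ∈ PC d` with
`p.1 ∣ d`; `χ ≠ 1` has `χ* ≠ 1`, so `p ≠ p0`. -/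
theorem prog_gen (d a y : ℕ) (hd : 1 ≤ d) (ha : a.Coprime d) (f : ℕ → ℂ) :
    ‖∑ m ∈ (Icc 1 y).filter (fun m => m ≡ a [MOD d]), f m -
      1 / (Nat.totient d : ℂ) * ∑ m ∈ (Icc 1 y).filter (fun m => m.Coprime d), f m‖ ≤
      1 / (Nat.totient d : ℝ) * ∑ p ∈ (PC d).filter (fun p => p ≠ p0 ∧ p.1 ∣ d),
        ‖∑ m ∈ (Icc 1 y).filter (fun m => m.Coprime (d / p.1)), f m * p.2 (m : ZMod p.1)‖ := by
  have hne : NeZero d := ⟨by omega⟩
  have hφ0 : (Nat.totient d : ℂ) ≠ 0 := by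
    have := Nat.totient_pos.mpr hd
    exact_mod_cast this.ne'
  have hau : IsUnit ((a : ℕ) : ZMod d) := (ZMod.isUnit_iff_coprime a d).mpr ha
  -- orthogonality
  have h1 : ∑ m ∈ (Icc 1 y).filter (fun m => m ≡ a [MOD d]), f m =
      1 / (Nat.totient d : ℂ) * ∑ χ : DirichletCharacter ℂ d,
        χ ((a : ZMod d)⁻¹) * ∑ m ∈ Icc 1 y, f m * χ (m : ZMod d) := by
    have h2 : ∑ χ : DirichletCharacter ℂ d,
        χ ((a : ZMod d)⁻¹) * ∑ m ∈ Icc 1 y, f m * χ (m : ZMod d) =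
        ∑ m ∈ Icc 1 y, f m * ∑ χ : DirichletCharacter ℂ d,
          χ ((a : ZMod d)⁻¹) * χ (m : ZMod d) := by
      simp_rw [mul_sum]
      rw [sum_comm]
      apply sum_congr rfl
      intro m _
      apply sum_congr rfl
      intro χ _
      ring
    rw [h2, mul_sum, sum_filter]
    apply sum_congr rfl
    intro m _
    rw [DirichletCharacter.sum_char_inv_mul_char_eq ℂ hau (m : ZMod d)]
    by_cases hm : m ≡ a [MOD d]
    · rw [if_pos hm, if_pos ((ZMod.natCast_eq_natCast_iff m a d).mpr hm).symm]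
      field_simp
    · rw [if_neg hm, if_neg (fun h => hm ((ZMod.natCast_eq_natCast_iff m a d).mp h.symm))]
      simp
  have h3 : ∑ χ : DirichletCharacter ℂ d,
        χ ((a : ZMod d)⁻¹) * ∑ m ∈ Icc 1 y, f m * χ (m : ZMod d) =
      ∑ m ∈ (Icc 1 y).filter (fun m => m.Coprime d), f m +
      ∑ χ ∈ (univ : Finset (DirichletCharacter ℂ d)).erase 1,
        χ ((a : ZMod d)⁻¹) * ∑ m ∈ Icc 1 y, f m * χ (m : ZMod d) := by
    rw [← add_sum_erase _ _ (mem_univ (1 : DirichletCharacter ℂ d))]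
    congr 1
    have h4 : (1 : DirichletCharacter ℂ d) ((a : ZMod d)⁻¹) = 1 := by
      apply MulChar.one_apply
      obtain ⟨u, hu⟩ := hau
      rw [← hu, ZMod.inv_coe_unit]
      exact (u⁻¹).isUnit
    rw [h4, one_mul, sum_filter]
    apply sum_congr rfl
    intro m _
    by_cases hm : m.Coprime d
    · rw [if_pos hm, MulChar.one_apply ((ZMod.isUnit_iff_coprime m d).mpr hm), mul_one]
    · rw [if_neg hm, MulChar.map_nonunit _ (fun h => hm ((ZMod.isUnit_iff_coprime m d).mp h)),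
        mul_zero]
  have h5 : ∑ m ∈ (Icc 1 y).filter (fun m => m ≡ a [MOD d]), f m -
      1 / (Nat.totient d : ℂ) * ∑ m ∈ (Icc 1 y).filter (fun m => m.Coprime d), f m =
      1 / (Nat.totient d : ℂ) * ∑ χ ∈ (univ : Finset (DirichletCharacter ℂ d)).erase 1,
        χ ((a : ZMod d)⁻¹) * ∑ m ∈ Icc 1 y, f m * χ (m : ZMod d) := by
    rw [h1, h3]
    ring
  rw [h5, norm_mul]
  have h6 : ‖1 / (Nat.totient d : ℂ)‖ = 1 / (Nat.totient d : ℝ) := by
    rw [norm_div, norm_one, Complex.norm_natCast]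
  rw [h6]
  apply mul_le_mul_of_nonneg_left _ (by positivity)
  -- the norms
  have h7 : ∀ χ : DirichletCharacter ℂ d, ∑ m ∈ Icc 1 y, f m * χ (m : ZMod d) =
      ∑ m ∈ (Icc 1 y).filter (fun m => m.Coprime (d / (BV1A_P χ).1)),
        f m * (BV1A_P χ).2 (m : ZMod (BV1A_P χ).1) := by
    intro χ
    rw [sum_filter]
    apply sum_congr rfl
    intro m _
    rw [BV1A_val χ m]
    by_cases hm : m.Coprime (d / χ.conductor)
    · rw [if_pos hm]
      have hm' : m.Coprime (d / (BV1A_P χ).1) := hm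
      rw [if_pos hm']
      rfl
    · rw [if_neg hm]
      have hm' : ¬ m.Coprime (d / (BV1A_P χ).1) := hm
      rw [if_neg hm', mul_zero]
  obtain ⟨G, hG⟩ : ∃ G : PCh → ℝ, G = fun p =>
    ‖∑ m ∈ (Icc 1 y).filter (fun m => m.Coprime (d / p.1)), f m * p.2 (m : ZMod p.1)‖ := ⟨_, rfl⟩
  have h8 : ‖∑ χ ∈ (univ : Finset (DirichletCharacter ℂ d)).erase 1,
        χ ((a : ZMod d)⁻¹) * ∑ m ∈ Icc 1 y, f m * χ (m : ZMod d)‖ ≤
      ∑ χ ∈ (univ : Finset (DirichletCharacter ℂ d)).erase 1, G (BV1A_P χ) := by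
    refine (norm_sum_le _ _).trans ?_
    apply sum_le_sum
    intro χ _
    rw [norm_mul, h7 χ, hG]
    calc ‖χ ((a : ZMod d)⁻¹)‖ * _ ≤ 1 * _ :=
          mul_le_mul_of_nonneg_right (DirichletCharacter.norm_le_one _ _) (norm_nonneg _)
      _ = _ := one_mul _
  refine h8.trans ?_
  have h9 : ∑ χ ∈ (univ : Finset (DirichletCharacter ℂ d)).erase 1, G (BV1A_P χ) =
      ∑ p ∈ ((univ : Finset (DirichletCharacter ℂ d)).erase 1).image BV1A_P, G p := by
    rw [sum_image]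
    intro χ _ ψ _ h
    exact BV1A_inj h
  rw [h9]
  have h10 : ∑ p ∈ (PC d).filter (fun p => p ≠ p0 ∧ p.1 ∣ d),
        ‖∑ m ∈ (Icc 1 y).filter (fun m => m.Coprime (d / p.1)), f m * p.2 (m : ZMod p.1)‖ =
      ∑ p ∈ (PC d).filter (fun p => p ≠ p0 ∧ p.1 ∣ d), G p := by
    rw [hG]
  rw [h10]
  apply sum_le_sum_of_subset_of_nonneg
  · intro p hp
    rw [mem_image] at hp
    obtain ⟨χ, hχ, rfl⟩ := hp
    have hχ1 := ne_of_mem_erase hχ
    rw [mem_filter, Pool.Agent.Lib.H68T.mem_PC]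
    have hc0 : χ.conductor ≠ 0 := χ.conductor_ne_zero
    refine ⟨⟨?_, ?_, ?_⟩, ?_, ?_⟩
    · exact Nat.one_le_iff_ne_zero.mpr hc0
    · exact Nat.le_of_dvd hd χ.conductor_dvd_level
    · exact χ.primitiveCharacter_isPrimitive
    · intro h
      apply hχ1
      rw [← BV1A_LP χ, h, BV1A_p0]
    · exact χ.conductor_dvd_level
  · intro p _ _
    rw [hG]
    exact norm_nonneg _

end Pool.Agent.Lib.H59C
end

-- from Lib.H59C.BV1B
section

/-!
# BV1B: the case of the primes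
-/

open Finset

namespace Pool.Agent.Lib.H59C

open Pool.Agent.Lib.H68T (PC p0 e)

open Classical in
/-- The number of primitive characters of conductor dividing `d` is at most `φ(d)`. -/
theorem BV1B_card (d : ℕ) (hd : 1 ≤ d) :
    ((PC d).filter (fun p => p ≠ p0 ∧ p.1 ∣ d)).card ≤ Nat.totient d := by
  have hne : NeZero d := ⟨by omega⟩
  have h1 : ((PC d).filter (fun p => p ≠ p0 ∧ p.1 ∣ d)).card ≤
      (univ : Finset (DirichletCharacter ℂ d)).card := by
    apply Finset.card_le_card_of_injOn (fun p => BV1A_L d p)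
    · intro p _
      exact mem_coe.mpr (mem_univ _)
    · intro p hp q hq h
      rw [mem_coe, mem_filter, Pool.Agent.Lib.H68T.mem_PC] at hp hq
      obtain ⟨⟨_, _, hp1⟩, _, hpd⟩ := hp
      obtain ⟨⟨_, _, hq1⟩, _, hqd⟩ := hq
      have h' : BV1A_L d p = BV1A_L d q := h
      unfold BV1A_L at h'
      rw [dif_pos hpd, dif_pos hqd] at h'
      have h2 : p.2.conductor = q.2.conductor := by
        have h3 := congrArg DirichletCharacter.conductor h'
        rw [DirichletCharacter.conductor_changeLevel, DirichletCharacter.conductor_changeLevel] at h3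
        exact h3
      rw [DirichletCharacter.isPrimitive_def] at hp1 hq1
      rw [hp1, hq1] at h2
      obtain ⟨r, χ⟩ := p
      obtain ⟨s, ψ⟩ := q
      simp only at h2
      subst h2
      have h4 := DirichletCharacter.changeLevel_injective hpd h'
      simp only at h4
      rw [h4]
  refine h1.trans ?_
  rw [card_univ, ← Nat.card_eq_fintype_card, DirichletCharacter.card_eq_totient_of_hasEnoughRootsOfUnity]

theorem BV1B_omega (d : ℕ) (hd : 1 ≤ d) : (d.primeFactors.card : ℝ) ≤ 2 * Real.log d := by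
  have hl2 : (0.69 : ℝ) < Real.log 2 := by
    have := Real.log_two_gt_d9
    linarith
  have h1 : 2 ^ d.primeFactors.card ≤ ∏ q ∈ d.primeFactors, q := by
    apply Finset.pow_card_le_prod
    intro q hq
    exact (Nat.prime_of_mem_primeFactors hq).two_le
  have h2 : ∏ q ∈ d.primeFactors, q ≤ d := Nat.le_of_dvd hd (Nat.prod_primeFactors_dvd d)
  have h3 : ((2 : ℝ) ^ d.primeFactors.card) ≤ d := by exact_mod_cast h1.trans h2
  have h4 := Real.log_le_log (by positivity) h3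
  rw [Real.log_pow] at h4
  have h5 : (0 : ℝ) ≤ (d.primeFactors.card : ℝ) := by positivity
  nlinarith

/-- The prime powers not coprime to `d`. -/
theorem BV1B_N (d y : ℕ) (hd : 1 ≤ d) (hy : 1 ≤ y) :
    ∑ m ∈ (Icc 1 y).filter (fun m => ¬ m.Coprime d), ArithmeticFunction.vonMangoldt m ≤
      2 * Real.log d * Real.log y := by
  have hly : 0 ≤ Real.log y := Real.log_nonneg (by exact_mod_cast hy)
  have h1 : ∀ m ∈ (Icc 1 y).filter (fun m => ¬ m.Coprime d),
      ArithmeticFunction.vonMangoldt m ≤ ∑ q ∈ d.primeFactors, ∑ k ∈ Icc 1 (Nat.log q y),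
        if m = q ^ k then Real.log q else 0 := by
    intro m hm
    rw [mem_filter, mem_Icc] at hm
    obtain ⟨⟨hm1, hm2⟩, hm3⟩ := hm
    have hnn : ∀ q ∈ d.primeFactors, 0 ≤ ∑ k ∈ Icc 1 (Nat.log q y),
        if m = q ^ k then Real.log q else 0 := by
      intro q hq
      apply sum_nonneg
      intro k _
      split_ifs
      · exact Real.log_nonneg (by exact_mod_cast (Nat.prime_of_mem_primeFactors hq).one_le)
      · exact le_rfl
    by_cases h0 : IsPrimePow m
    · obtain ⟨q, k, hq, hk, rfl⟩ := (isPrimePow_nat_iff m).mp h0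
      have hqd : q ∣ d := by
        by_contra hqd
        exact hm3 (Nat.Coprime.pow_left k ((Nat.Prime.coprime_iff_not_dvd hq).mpr hqd))
      have hqm : q ∈ d.primeFactors := Nat.mem_primeFactors.mpr ⟨hq, hqd, by omega⟩
      refine le_trans ?_ (single_le_sum hnn hqm)
      have hkm : k ∈ Icc 1 (Nat.log q y) := by
        rw [mem_Icc]
        exact ⟨hk, Nat.le_log_of_pow_le hq.one_lt hm2⟩
      refine le_trans ?_ (single_le_sum (f := fun k' => if q ^ k = q ^ k' then Real.log q else 0)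
        (fun k' _ => ?_) hkm)
      · rw [if_pos rfl, ArithmeticFunction.vonMangoldt_apply_pow (by omega),
          ArithmeticFunction.vonMangoldt_apply_prime hq]
      · show 0 ≤ if q ^ k = q ^ k' then Real.log q else 0
        split_ifs
        · exact Real.log_nonneg (by exact_mod_cast hq.one_le)
        · exact le_rfl
    · rw [ArithmeticFunction.vonMangoldt_eq_zero_iff.mpr h0]
      exact sum_nonneg hnn
  have h2 : ∑ m ∈ (Icc 1 y).filter (fun m => ¬ m.Coprime d), ArithmeticFunction.vonMangoldt m ≤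
      ∑ q ∈ d.primeFactors, Real.log y := by
    refine (sum_le_sum h1).trans ?_
    rw [sum_comm]
    apply sum_le_sum
    intro q hq
    have hqp := Nat.prime_of_mem_primeFactors hq
    have hlq : 0 ≤ Real.log q := Real.log_nonneg (by exact_mod_cast hqp.one_le)
    rw [sum_comm]
    have h3 : ∀ k ∈ Icc 1 (Nat.log q y),
        ∑ m ∈ (Icc 1 y).filter (fun m => ¬ m.Coprime d), (if m = q ^ k then Real.log q else 0) ≤
          Real.log q := by
      intro k _
      rw [Finset.sum_ite_eq']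
      split_ifs
      · exact le_rfl
      · exact hlq
    refine (sum_le_sum h3).trans ?_
    rw [sum_const, Nat.card_Icc, nsmul_eq_mul, Nat.add_sub_cancel]
    have h4 : q ^ (Nat.log q y) ≤ y := Nat.pow_log_le_self q (by omega)
    have h5 : ((q : ℝ) ^ (Nat.log q y)) ≤ y := by exact_mod_cast h4
    have h6 := Real.log_le_log (by
      have : (0 : ℝ) < q := by exact_mod_cast hqp.pos
      positivity) h5
    rw [Real.log_pow] at h6
    exact h6
  refine h2.trans ?_
  rw [sum_const, nsmul_eq_mul]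
  exact mul_le_mul_of_nonneg_right (BV1B_omega d hd) hly

theorem BV1B_Ioc (y : ℕ) : Ioc 0 ⌊(y : ℝ)⌋₊ = Icc 1 y := by
  rw [Nat.floor_natCast]
  ext m
  rw [mem_Ioc, mem_Icc]
  omega

/-- The prime powers with exponent at least two. -/
theorem BV1B_P (y : ℕ) (hy : 1 ≤ y) :
    ∑ m ∈ (Icc 1 y).filter (fun m => ¬ m.Prime), ArithmeticFunction.vonMangoldt m ≤
      2 * Real.sqrt y * Real.log y := by
  have h1 := Chebyshev.psi_sub_theta_le (x := (y : ℝ)) (by exact_mod_cast hy)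
  rw [Chebyshev.psi_sub_theta_eq_sum_not_prime, BV1B_Ioc] at h1
  exact h1

/-- Splitting into primes and prime powers. -/
theorem BV1B_split (y : ℕ) (P : ℕ → Prop) [DecidablePred P] :
    ∑ m ∈ (Icc 1 y).filter P, ArithmeticFunction.vonMangoldt m =
      ∑ q ∈ (Icc 1 y).filter (fun q => q.Prime ∧ P q), Real.log q +
      ∑ m ∈ (Icc 1 y).filter (fun m => ¬ m.Prime ∧ P m), ArithmeticFunction.vonMangoldt m := by
  simp_rw [sum_filter]
  rw [← sum_add_distrib]
  apply sum_congr rfl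
  intro m _
  by_cases h1 : m.Prime <;> by_cases h2 : P m
  · simp [h1, h2, ArithmeticFunction.vonMangoldt_apply_prime]
  · simp [h1, h2]
  · simp [h1, h2]
  · simp [h1, h2]

theorem BV1B_sub (y : ℕ) (hy : 1 ≤ y) (P : ℕ → Prop) [DecidablePred P] :
    ∑ m ∈ (Icc 1 y).filter (fun m => ¬ m.Prime ∧ P m), ArithmeticFunction.vonMangoldt m ≤
      2 * Real.sqrt y * Real.log y := by
  refine le_trans ?_ (BV1B_P y hy)
  apply sum_le_sum_of_subset_of_nonneg
  · intro m hm
    rw [mem_filter] at hm ⊢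
    exact ⟨hm.1, hm.2.1⟩
  · intro m _ _
    exact ArithmeticFunction.vonMangoldt_nonneg

open Classical in
/-- The case of the primes: `prog_gen` with `f = Λ`; prime powers contribute at most
`2 √y log y` (`Chebyshev.psi_sub_theta_le`), the `m` not coprime to `d` (or `d/r`) at most
`∑_{p ∣ d} log y/log p · log p ≤ 2 log d log y`. (There are at most `φ(d)` characters.) -/
theorem prog_le : ∃ C : ℝ, 0 < C ∧ ∀ (d a y : ℕ), 1 ≤ d → d ≤ y → a.Coprime d → 2 ≤ y →
    |thp y d a - th y / (Nat.totient d : ℝ)| ≤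
      1 / (Nat.totient d : ℝ) * ∑ p ∈ (PC d).filter (fun p => p ≠ p0 ∧ p.1 ∣ d), ‖psi y p‖ +
      C * Real.sqrt y * Real.log y ^ 2 := by
  refine ⟨100, by norm_num, ?_⟩
  intro d a y hd hdy ha hy
  have hy1 : 1 ≤ y := by omega
  have hl2 : (0.69 : ℝ) < Real.log 2 := by
    have := Real.log_two_gt_d9
    linarith
  have hly : Real.log 2 ≤ Real.log y :=
    Real.log_le_log (by norm_num) (by exact_mod_cast hy)
  have hld : Real.log d ≤ Real.log y :=
    Real.log_le_log (by exact_mod_cast hd) (by exact_mod_cast hdy)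
  have hld0 : 0 ≤ Real.log d := Real.log_nonneg (by exact_mod_cast hd)
  have hs1 : 1 ≤ Real.sqrt y := by
    rw [Real.one_le_sqrt]
    exact_mod_cast hy1
  have hφ : 1 ≤ (Nat.totient d : ℝ) := by exact_mod_cast Nat.totient_pos.mpr hd
  -- the error
  obtain ⟨E, hE⟩ : ∃ E, E = 2 * Real.sqrt y * Real.log y := ⟨_, rfl⟩
  obtain ⟨N, hN⟩ : ∃ N, N = 2 * Real.log d * Real.log y := ⟨_, rfl⟩
  have hE1 : E ≤ 4 * (Real.sqrt y * Real.log y ^ 2) := by
    rw [hE]
    have h1 : Real.log y ≤ 2 * Real.log y ^ 2 := by nlinarith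
    have h2 := mul_le_mul_of_nonneg_left h1 (by positivity : 0 ≤ 2 * Real.sqrt y)
    linarith
  have hN1 : N ≤ 2 * (Real.sqrt y * Real.log y ^ 2) := by
    rw [hN]
    have h1 : Real.log d * Real.log y ≤ Real.log y ^ 2 := by nlinarith
    have h2 : Real.log y ^ 2 ≤ Real.sqrt y * Real.log y ^ 2 := by
      nlinarith [sq_nonneg (Real.log y)]
    linarith
  have hE0 : 0 ≤ E := by
    rw [hE]
    have : 0 ≤ Real.log y := by linarith
    positivity
  have hN0 : 0 ≤ N := by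
    rw [hN]
    have : 0 ≤ Real.log y := by linarith
    positivity
  have hPN := BV1B_N d y hd hy1
  rw [← hN] at hPN
  -- the orthogonality
  have hg := prog_gen d a y hd ha (fun m => (ArithmeticFunction.vonMangoldt m : ℂ))
  -- left side
  have hL : ‖∑ m ∈ (Icc 1 y).filter (fun m => m ≡ a [MOD d]),
        (ArithmeticFunction.vonMangoldt m : ℂ) -
      1 / (Nat.totient d : ℂ) * ∑ m ∈ (Icc 1 y).filter (fun m => m.Coprime d),
        (ArithmeticFunction.vonMangoldt m : ℂ)‖ =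
      |∑ m ∈ (Icc 1 y).filter (fun m => m ≡ a [MOD d]), ArithmeticFunction.vonMangoldt m -
      1 / (Nat.totient d : ℝ) * ∑ m ∈ (Icc 1 y).filter (fun m => m.Coprime d),
        ArithmeticFunction.vonMangoldt m| := by
    rw [← Real.norm_eq_abs, ← Complex.norm_real]
    congr 1
    push_cast
    ring
  rw [hL] at hg
  -- the class
  have hA : |thp y d a - ∑ m ∈ (Icc 1 y).filter (fun m => m ≡ a [MOD d]),
      ArithmeticFunction.vonMangoldt m| ≤ E := by
    rw [BV1B_split y (fun m => m ≡ a [MOD d])]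
    have h1 := BV1B_sub y hy1 (fun m => m ≡ a [MOD d])
    have h2 : 0 ≤ ∑ m ∈ (Icc 1 y).filter (fun m => ¬ m.Prime ∧ m ≡ a [MOD d]),
        ArithmeticFunction.vonMangoldt m :=
      sum_nonneg fun m _ => ArithmeticFunction.vonMangoldt_nonneg
    rw [← hE] at h1
    have h3 : thp y d a = ∑ q ∈ (Icc 1 y).filter (fun q => q.Prime ∧ q ≡ a [MOD d]),
      Real.log q := rfl
    rw [← h3, abs_le]
    constructor <;> linarith
  -- all primes
  have hT : |∑ m ∈ (Icc 1 y).filter (fun m => m.Coprime d), ArithmeticFunction.vonMangoldt m -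
      th y| ≤ E + N := by
    have h1 : ∑ m ∈ (Icc 1 y).filter (fun m => m.Coprime d), ArithmeticFunction.vonMangoldt m +
        ∑ m ∈ (Icc 1 y).filter (fun m => ¬ m.Coprime d), ArithmeticFunction.vonMangoldt m =
        ∑ m ∈ Icc 1 y, ArithmeticFunction.vonMangoldt m :=
      sum_filter_add_sum_filter_not _ _ _
    have h2 : ∑ m ∈ Icc 1 y, ArithmeticFunction.vonMangoldt m =
        th y + ∑ m ∈ (Icc 1 y).filter (fun m => ¬ m.Prime),
          ArithmeticFunction.vonMangoldt m := by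
      have h3 := BV1B_split y (fun _ => True)
      simp only [and_true, filter_true] at h3
      rw [h3]
      rfl
    have h4 := BV1B_P y hy1
    rw [← hE] at h4
    have h5 : 0 ≤ ∑ m ∈ (Icc 1 y).filter (fun m => ¬ m.Prime),
        ArithmeticFunction.vonMangoldt m :=
      sum_nonneg fun m _ => ArithmeticFunction.vonMangoldt_nonneg
    have h6 : 0 ≤ ∑ m ∈ (Icc 1 y).filter (fun m => ¬ m.Coprime d),
        ArithmeticFunction.vonMangoldt m :=
      sum_nonneg fun m _ => ArithmeticFunction.vonMangoldt_nonneg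
    rw [abs_le]
    constructor <;> linarith
  -- the characters
  have hC : ∀ p ∈ (PC d).filter (fun p => p ≠ p0 ∧ p.1 ∣ d),
      ‖∑ m ∈ (Icc 1 y).filter (fun m => m.Coprime (d / p.1)),
        (ArithmeticFunction.vonMangoldt m : ℂ) * p.2 (m : ZMod p.1)‖ ≤ ‖psi y p‖ + N := by
    intro p hp
    rw [mem_filter] at hp
    have h1 : ∑ m ∈ (Icc 1 y).filter (fun m => m.Coprime (d / p.1)),
        (ArithmeticFunction.vonMangoldt m : ℂ) * p.2 (m : ZMod p.1) +
        ∑ m ∈ (Icc 1 y).filter (fun m => ¬ m.Coprime (d / p.1)),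
        (ArithmeticFunction.vonMangoldt m : ℂ) * p.2 (m : ZMod p.1) = psi y p :=
      sum_filter_add_sum_filter_not _ _ _
    have h2 : ‖∑ m ∈ (Icc 1 y).filter (fun m => ¬ m.Coprime (d / p.1)),
        (ArithmeticFunction.vonMangoldt m : ℂ) * p.2 (m : ZMod p.1)‖ ≤ N := by
      refine (norm_sum_le _ _).trans ?_
      refine le_trans ?_ hPN
      refine le_trans (b := ∑ m ∈ (Icc 1 y).filter (fun m => ¬ m.Coprime (d / p.1)),
        ArithmeticFunction.vonMangoldt m) ?_ ?_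
      · apply sum_le_sum
        intro m _
        rw [norm_mul, Complex.norm_real, Real.norm_eq_abs,
          abs_of_nonneg ArithmeticFunction.vonMangoldt_nonneg]
        calc _ ≤ ArithmeticFunction.vonMangoldt m * 1 :=
              mul_le_mul_of_nonneg_left (DirichletCharacter.norm_le_one _ _)
                ArithmeticFunction.vonMangoldt_nonneg
          _ = _ := mul_one _
      · apply sum_le_sum_of_subset_of_nonneg
        · intro m hm
          rw [mem_filter] at hm ⊢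
          exact ⟨hm.1, fun h => hm.2 (Nat.Coprime.coprime_dvd_right
            (Nat.div_dvd_of_dvd hp.2.2) h)⟩
        · intro m _ _
          exact ArithmeticFunction.vonMangoldt_nonneg
    have h3 : ∑ m ∈ (Icc 1 y).filter (fun m => m.Coprime (d / p.1)),
        (ArithmeticFunction.vonMangoldt m : ℂ) * p.2 (m : ZMod p.1) = psi y p -
        ∑ m ∈ (Icc 1 y).filter (fun m => ¬ m.Coprime (d / p.1)),
        (ArithmeticFunction.vonMangoldt m : ℂ) * p.2 (m : ZMod p.1) := by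
      rw [← h1]; ring
    rw [h3]
    exact (norm_sub_le _ _).trans (by linarith)
  have hS := sum_le_sum hC
  rw [sum_add_distrib, sum_const, nsmul_eq_mul] at hS
  have hcard : ((((PC d).filter (fun p => p ≠ p0 ∧ p.1 ∣ d)).card : ℕ) : ℝ) ≤
      (Nat.totient d : ℝ) := by exact_mod_cast BV1B_card d hd
  have hS2 := mul_le_mul_of_nonneg_left hS (by positivity : 0 ≤ 1 / (Nat.totient d : ℝ))
  have hS3 : 1 / (Nat.totient d : ℝ) *
      ((((PC d).filter (fun p => p ≠ p0 ∧ p.1 ∣ d)).card : ℕ) * N) ≤ N := by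
    rw [← mul_assoc]
    calc _ ≤ 1 * N := by
          apply mul_le_mul_of_nonneg_right _ hN0
          rw [one_div, inv_mul_le_iff₀ (by linarith), mul_one]
          exact hcard
      _ = N := one_mul N
  rw [mul_add] at hS2
  -- assembly
  obtain ⟨TA, hTA⟩ : ∃ TA, TA = ∑ m ∈ (Icc 1 y).filter (fun m => m ≡ a [MOD d]),
      ArithmeticFunction.vonMangoldt m := ⟨_, rfl⟩
  obtain ⟨TC, hTC⟩ : ∃ TC, TC = ∑ m ∈ (Icc 1 y).filter (fun m => m.Coprime d),
      ArithmeticFunction.vonMangoldt m := ⟨_, rfl⟩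
  rw [← hTA] at hg hA
  rw [← hTC] at hg hT
  have hT2 : |1 / (Nat.totient d : ℝ) * TC - th y / (Nat.totient d : ℝ)| ≤ E + N := by
    have h1 : 1 / (Nat.totient d : ℝ) * TC - th y / (Nat.totient d : ℝ) =
        (1 / (Nat.totient d : ℝ)) * (TC - th y) := by ring
    rw [h1, abs_mul, abs_of_nonneg (by positivity)]
    calc _ ≤ 1 * (E + N) := by
          apply mul_le_mul _ hT (abs_nonneg _) zero_le_one
          rw [div_le_one (by linarith)]
          exact hφ
      _ = _ := one_mul _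
  have h7 : |thp y d a - th y / (Nat.totient d : ℝ)| ≤ E +
      |TA - 1 / (Nat.totient d : ℝ) * TC| + (E + N) := by
    have h8 : thp y d a - th y / (Nat.totient d : ℝ) = (thp y d a - TA) +
      (TA - 1 / (Nat.totient d : ℝ) * TC) +
      (1 / (Nat.totient d : ℝ) * TC - th y / (Nat.totient d : ℝ)) := by ring
    rw [h8]
    refine (abs_add_le _ _).trans ?_
    refine add_le_add ((abs_add_le _ _).trans ?_) hT2
    exact add_le_add hA le_rfl
  have h9 : (100 : ℝ) * Real.sqrt y * Real.log y ^ 2 =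
      100 * (Real.sqrt y * Real.log y ^ 2) := by ring
  nlinarith [hg, h7, hS2, hS3, hE1, hN1]

end Pool.Agent.Lib.H59C
end

-- from Lib.H59C.BV1C
section

/-!
# BV1C: exchange of summations
-/

open Finset

namespace Pool.Agent.Lib.H59C

open Pool.Agent.Lib.H68T (PC p0 e)

theorem BV1C_sum_dvd (n f : ℕ) (hf : 1 ≤ f) (G : ℕ → ℝ) :
    ∑ e ∈ (Icc 1 n).filter (fun e => f ∣ e), G e = ∑ k ∈ Icc 1 (n / f), G (f * k) := by
  refine sum_nbij' (fun e => e / f) (fun k => f * k) ?_ ?_ ?_ ?_ ?_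
  · intro e he
    rw [mem_filter, mem_Icc] at he
    obtain ⟨⟨h1, h2⟩, k, rfl⟩ := he
    rw [Nat.mul_div_cancel_left _ hf, mem_Icc]
    refine ⟨?_, ?_⟩
    · rcases Nat.eq_zero_or_pos k with h | h
      · subst h
        omega
      · exact h
    · rw [Nat.le_div_iff_mul_le hf, mul_comm]
      exact h2
  · intro k hk
    rw [mem_Icc, Nat.le_div_iff_mul_le hf] at hk
    rw [mem_filter, mem_Icc]
    refine ⟨⟨Nat.mul_pos hf hk.1, ?_⟩, dvd_mul_right _ _⟩
    rw [mul_comm]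
    exact hk.2
  · intro e he
    rw [mem_filter] at he
    exact Nat.mul_div_cancel' he.2
  · intro k _
    exact Nat.mul_div_cancel_left _ hf
  · intro e he
    rw [mem_filter] at he
    rw [Nat.mul_div_cancel' he.2]

open Classical in
theorem BV1C_fix (D p1 : ℕ) (F : ℕ → ℝ) (hF : ∀ k, 0 ≤ F k) (r : ℕ) (hr : 1 ≤ r) :
    ∑ d ∈ (Icc 1 D).filter (fun d => ¬ p1 ∣ d),
      (if r ∣ d then 1 / (Nat.totient d : ℝ) * F (d / r) else 0) ≤
      ∑ k ∈ Icc 1 D, (if ¬ p1 ∣ r then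
        1 / (Nat.totient k : ℝ) * (1 / (Nat.totient r : ℝ) * F k) else 0) := by
  by_cases hp : p1 ∣ r
  · have h1 : ∑ d ∈ (Icc 1 D).filter (fun d => ¬ p1 ∣ d),
        (if r ∣ d then 1 / (Nat.totient d : ℝ) * F (d / r) else 0) = 0 := by
      apply sum_eq_zero
      intro d hd
      rw [mem_filter] at hd
      rw [if_neg]
      intro h
      exact hd.2 (hp.trans h)
    rw [h1]
    apply sum_nonneg
    intro k _
    rw [if_neg (not_not.mpr hp)]
  · have h2 : ∀ k ∈ Icc 1 D, (if ¬ p1 ∣ r then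
        1 / (Nat.totient k : ℝ) * (1 / (Nat.totient r : ℝ) * F k) else 0) =
        1 / (Nat.totient k : ℝ) * (1 / (Nat.totient r : ℝ) * F k) := by
      intro k _
      rw [if_pos hp]
    rw [sum_congr rfl h2]
    calc ∑ d ∈ (Icc 1 D).filter (fun d => ¬ p1 ∣ d),
          (if r ∣ d then 1 / (Nat.totient d : ℝ) * F (d / r) else 0)
        ≤ ∑ d ∈ Icc 1 D, (if r ∣ d then 1 / (Nat.totient d : ℝ) * F (d / r) else 0) := by
          apply sum_le_sum_of_subset_of_nonneg (filter_subset _ _)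
          intro d _ _
          have := hF (d / r)
          split_ifs
          · positivity
          · exact le_refl _
      _ = ∑ k ∈ Icc 1 (D / r), 1 / (Nat.totient (r * k) : ℝ) * F (r * k / r) := by
          rw [← sum_filter, BV1C_sum_dvd D r hr (fun d => 1 / (Nat.totient d : ℝ) * F (d / r))]
      _ ≤ ∑ k ∈ Icc 1 (D / r), 1 / (Nat.totient k : ℝ) * (1 / (Nat.totient r : ℝ) * F k) := by
          apply sum_le_sum
          intro k hk
          rw [mem_Icc] at hk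
          rw [Nat.mul_div_cancel_left _ hr]
          have h3 := Nat.totient_super_multiplicative r k
          have h4 : 0 < Nat.totient r := Nat.totient_pos.mpr hr
          have h5 : 0 < Nat.totient k := Nat.totient_pos.mpr hk.1
          have h6 : (0 : ℝ) < Nat.totient r := by exact_mod_cast h4
          have h7 : (0 : ℝ) < Nat.totient k := by exact_mod_cast h5
          have h8 : (Nat.totient r : ℝ) * Nat.totient k ≤ Nat.totient (r * k) := by
            exact_mod_cast h3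
          have h9 : 1 / (Nat.totient (r * k) : ℝ) ≤
              1 / ((Nat.totient r : ℝ) * Nat.totient k) :=
            one_div_le_one_div_of_le (by positivity) h8
          calc 1 / (Nat.totient (r * k) : ℝ) * F k
              ≤ 1 / ((Nat.totient r : ℝ) * Nat.totient k) * F k :=
                mul_le_mul_of_nonneg_right h9 (hF k)
            _ = 1 / (Nat.totient k : ℝ) * (1 / (Nat.totient r : ℝ) * F k) := by
                field_simp
      _ ≤ ∑ k ∈ Icc 1 D, 1 / (Nat.totient k : ℝ) * (1 / (Nat.totient r : ℝ) * F k) := by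
          apply sum_le_sum_of_subset_of_nonneg
          · exact Icc_subset_Icc_right (Nat.div_le_self _ _)
          · intro k _ _
            have := hF k
            positivity

open Classical in
/-- Exchange of the summations: write `d = r k`, `r = p.1`; `φ(r k) ≥ φ(r) φ(k)`. -/
theorem exchange (D p1 : ℕ) (F : ℕ → PCh → ℝ) (hF : ∀ k p, 0 ≤ F k p) :
    ∑ d ∈ (Icc 1 D).filter (fun d => ¬ p1 ∣ d), 1 / (Nat.totient d : ℝ) *
      ∑ p ∈ (PC d).filter (fun p => p ≠ p0 ∧ p.1 ∣ d), F (d / p.1) p ≤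
      ∑ k ∈ Icc 1 D, 1 / (Nat.totient k : ℝ) *
        ∑ p ∈ (PC D).filter (fun p => p ≠ p0 ∧ ¬ p1 ∣ p.1), 1 / (Nat.totient p.1 : ℝ) * F k p := by
  have hL : ∀ d ∈ (Icc 1 D).filter (fun d => ¬ p1 ∣ d), 1 / (Nat.totient d : ℝ) *
      ∑ p ∈ (PC d).filter (fun p => p ≠ p0 ∧ p.1 ∣ d), F (d / p.1) p =
      ∑ p ∈ (PC D).filter (fun p => p ≠ p0),
        (if p.1 ∣ d then 1 / (Nat.totient d : ℝ) * F (d / p.1) p else 0) := by
    intro d hd
    rw [mem_filter, mem_Icc] at hd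
    rw [← sum_filter, ← mul_sum]
    congr 1
    apply sum_congr _ fun _ _ => rfl
    ext p
    rw [mem_filter, mem_filter, mem_filter, Pool.Agent.Lib.H68T.mem_PC,
      Pool.Agent.Lib.H68T.mem_PC]
    constructor
    · rintro ⟨⟨h1, h2, h3⟩, h4, h5⟩
      exact ⟨⟨⟨h1, h2.trans hd.1.2, h3⟩, h4⟩, h5⟩
    · rintro ⟨⟨⟨h1, h2, h3⟩, h4⟩, h5⟩
      exact ⟨⟨h1, Nat.le_of_dvd (by omega) h5, h3⟩, h4, h5⟩
  have hR : ∀ k ∈ Icc 1 D, 1 / (Nat.totient k : ℝ) *
        ∑ p ∈ (PC D).filter (fun p => p ≠ p0 ∧ ¬ p1 ∣ p.1), 1 / (Nat.totient p.1 : ℝ) * F k p =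
      ∑ p ∈ (PC D).filter (fun p => p ≠ p0), (if ¬ p1 ∣ p.1 then
        1 / (Nat.totient k : ℝ) * (1 / (Nat.totient p.1 : ℝ) * F k p) else 0) := by
    intro k _
    rw [← sum_filter, ← mul_sum, filter_filter]
  rw [sum_congr rfl hL, sum_congr rfl hR, sum_comm, sum_comm (s := Icc 1 D)]
  apply sum_le_sum
  intro p hp
  rw [mem_filter, Pool.Agent.Lib.H68T.mem_PC] at hp
  exact BV1C_fix D p1 (fun k => F k p) (fun k => hF k p) p.1 hp.1.1

end Pool.Agent.Lib.H59C
end

-- from Lib.H59C.TY1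
section

/-!
# TY1: type I sums
-/

open Finset

namespace Pool.Agent.Lib.H59C

open Pool.Agent.Lib.H68T (PC p0 e)

theorem ty1_mem {R : ℕ} {p : PCh} : p ∈ PD R ↔ 1 ≤ p.1 ∧ p.1 ≤ 2 * R ∧ p.2.IsPrimitive ∧ R < p.1 := by
  classical
  rw [PD, mem_filter, Pool.Agent.Lib.H68T.mem_PC]
  tauto

/-- `∑_{p ∈ PD R} 1/φ(p.1) ≤ R` -/
theorem ty1_count (R : ℕ) : ∑ p ∈ PD R, 1 / (Nat.totient p.1 : ℝ) ≤ R := by
  classical
  have hmaps : ∀ p ∈ PD R, p.1 ∈ Ioc R (2 * R) := by
    intro p hp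
    have := ty1_mem.1 hp
    rw [mem_Ioc]
    exact ⟨this.2.2.2, this.2.1⟩
  rw [← sum_fiberwise_of_maps_to hmaps]
  have h1 : ∀ r ∈ Ioc R (2 * R), ∑ p ∈ (PD R).filter (fun p => p.1 = r),
      1 / (Nat.totient p.1 : ℝ) ≤ 1 := by
    intro r hr
    rw [mem_Ioc] at hr
    have hne : NeZero r := ⟨by omega⟩
    have hφ : (0 : ℝ) < Nat.totient r := by exact_mod_cast Nat.totient_pos.2 (by omega)
    have h2 : ∑ p ∈ (PD R).filter (fun p => p.1 = r), 1 / (Nat.totient p.1 : ℝ) =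
        ((PD R).filter (fun p => p.1 = r)).card * (1 / (Nat.totient r : ℝ)) := by
      rw [← nsmul_eq_mul, ← sum_const]
      refine sum_congr rfl fun p hp => ?_
      rw [(mem_filter.1 hp).2]
    have h3 : ((PD R).filter (fun p => p.1 = r)).card ≤ Nat.totient r := by
      have h4 : (PD R).filter (fun p => p.1 = r) ⊆
          (univ : Finset (DirichletCharacter ℂ r)).map (Function.Embedding.sigmaMk r) := by
        rintro ⟨s, χ⟩ hp
        have h5 : s = r := (mem_filter.1 hp).2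
        subst h5
        rw [mem_map]
        exact ⟨χ, mem_univ _, rfl⟩
      refine (card_le_card h4).trans ?_
      rw [card_map, card_univ, ← Nat.card_eq_fintype_card,
        DirichletCharacter.card_eq_totient_of_hasEnoughRootsOfUnity ℂ r]
    rw [h2, mul_one_div, div_le_one hφ]
    exact_mod_cast h3
  refine (sum_le_sum h1).trans ?_
  rw [sum_const, Nat.card_Ioc, nsmul_one]
  have : 2 * R - R = R := by omega
  rw [this]

/-- partial summation -/
theorem ty1_abel (f : ℕ → ℂ) (B : ℝ) (hB : ∀ u v, ‖∑ n ∈ Ico u v, f n‖ ≤ B) (w : ℕ → ℝ)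
    (hw0 : 0 ≤ w 1) (hmono : ∀ n, 1 ≤ n → w n ≤ w (n + 1)) (N : ℕ) (hN : 1 ≤ N) (v : ℕ)
    (hv : N + 1 ≤ v) :
    ‖∑ n ∈ Ico 1 (N + 1), (w n : ℂ) * f n + (w N : ℂ) * ∑ n ∈ Ico (N + 1) v, f n‖ ≤ w N * B := by
  induction N, hN using Nat.le_induction with
  | base =>
    have h1 : ∑ n ∈ Ico 1 (1 + 1), (w n : ℂ) * f n + (w 1 : ℂ) * ∑ n ∈ Ico (1 + 1) v, f n =
        (w 1 : ℂ) * ∑ n ∈ Ico 1 v, f n := by
      rw [← sum_Ico_consecutive f (by norm_num : 1 ≤ 1 + 1) hv, mul_add]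
      simp
    rw [h1, norm_mul, Complex.norm_real, Real.norm_of_nonneg hw0]
    exact mul_le_mul_of_nonneg_left (hB _ _) hw0
  | succ N hN ih =>
    have h1 : ∑ n ∈ Ico 1 (N + 1 + 1), (w n : ℂ) * f n +
        (w (N + 1) : ℂ) * ∑ n ∈ Ico (N + 1 + 1) v, f n =
        (∑ n ∈ Ico 1 (N + 1), (w n : ℂ) * f n + (w N : ℂ) * ∑ n ∈ Ico (N + 1) v, f n) +
          ((w (N + 1) - w N : ℝ) : ℂ) * ∑ n ∈ Ico (N + 1) v, f n := by
      rw [sum_Ico_succ_top (by omega), ← sum_Ico_consecutive f (by omega : N + 1 ≤ N + 1 + 1) hv]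
      have h2 : ∑ n ∈ Ico (N + 1) (N + 1 + 1), f n = f (N + 1) := by simp
      rw [h2]
      push_cast
      ring
    have h3 : 0 ≤ w (N + 1) - w N := by linarith [hmono N hN]
    rw [h1]
    refine (norm_add_le _ _).trans ?_
    have h4 : ‖((w (N + 1) - w N : ℝ) : ℂ) * ∑ n ∈ Ico (N + 1) v, f n‖ ≤
        (w (N + 1) - w N) * B := by
      rw [norm_mul, Complex.norm_real, Real.norm_of_nonneg h3]
      exact mul_le_mul_of_nonneg_left (hB _ _) h3
    have h5 := ih (by omega)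
    linarith

theorem ty1_inner (f : ℕ → ℂ) (B : ℝ) (hB : ∀ u v, ‖∑ n ∈ Ico u v, f n‖ ≤ B) (j : ℕ)
    (hj : j ≤ 1) (N : ℕ) (y : ℕ) (hNy : N ≤ y) (hy : 1 ≤ y) :
    ‖∑ n ∈ Ico 1 (N + 1), ((Real.log n ^ j : ℝ) : ℂ) * f n‖ ≤ (1 + Real.log y) * B := by
  have hB0 : 0 ≤ B := (norm_nonneg _).trans (hB 0 0)
  have hly : 0 ≤ Real.log y := Real.log_nonneg (by exact_mod_cast hy)
  rcases Nat.eq_zero_or_pos N with rfl | hN
  · simp only [zero_add, Ico_self, sum_empty, norm_zero]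
    positivity
  · have hmono : ∀ n : ℕ, 1 ≤ n → Real.log n ^ j ≤ Real.log ((n + 1 : ℕ) : ℝ) ^ j := by
      intro n hn
      have h1 : (1 : ℝ) ≤ n := by exact_mod_cast hn
      have h2 : Real.log n ≤ Real.log ((n + 1 : ℕ) : ℝ) :=
        Real.log_le_log (by linarith) (by push_cast; linarith)
      exact pow_le_pow_left₀ (Real.log_nonneg h1) h2 j
    have h := ty1_abel f B hB (fun n => Real.log n ^ j) (by positivity) hmono N hN (N + 1) le_rfl
    rw [Ico_self, sum_empty, mul_zero, add_zero] at h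
    refine h.trans (mul_le_mul_of_nonneg_right ?_ hB0)
    have h1 : (1 : ℝ) ≤ N := by exact_mod_cast hN
    have h2 : Real.log N ≤ Real.log y := Real.log_le_log (by linarith) (by exact_mod_cast hNy)
    have h3 := Real.log_nonneg h1
    interval_cases j
    · rw [pow_zero]
      linarith
    · rw [pow_one]
      linarith

/-- Type I sums (`j = 0` or `1`).

Proof. For fixed `m ≤ U` the inner sum is `∑_{n ≤ y/m} (log n)^j χ(n)`, at most
`2 log y · C √(2R) log (2R)` by `polya_vinogradov` and partial summation (`log n = ∑_{k ≤ n}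
(log k - log (k-1))`, monotone weights); `∑_{p ∈ PD R} 1/φ(p.1) ≤ R` (at most `φ(r)` primitive characters
for each `r ∈ (R, 2R]`, all nontrivial as `r > R ≥ 1`). -/
theorem ty1 : ∃ C : ℝ, 0 < C ∧ ∀ (R U y : ℕ), 1 ≤ R → 1 ≤ U → 2 ≤ y → R ≤ y → ∀ a : ℕ → ℂ,
    (∀ m, 1 ≤ m → m ≤ U → ‖a m‖ ≤ 1 + Real.log y) → ∀ j : ℕ, j ≤ 1 →
    ∑ p ∈ PD R, 1 / (Nat.totient p.1 : ℝ) *
      ‖∑ m ∈ Icc 1 U, ∑ n ∈ (Icc 1 y).filter (fun n => m * n ≤ y),
        a m * ((Real.log n ^ j : ℝ) : ℂ) * p.2 ((m * n : ℕ) : ZMod p.1)‖ ≤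
      C * Real.log y ^ 3 * U * (R : ℝ) ^ (3 / 2 : ℝ) := by
  obtain ⟨C₀, hC₀, hPV⟩ := polya_vinogradov
  refine ⟨40 * C₀, by positivity, ?_⟩
  intro R U y hR hU hy hRy a ha j hj
  have hy2 : (2 : ℝ) ≤ y := by exact_mod_cast hy
  have hR1 : (1 : ℝ) ≤ R := by exact_mod_cast hR
  have hU1 : (1 : ℝ) ≤ U := by exact_mod_cast hU
  have hl2 := Real.log_two_gt_d9
  have hly : Real.log 2 ≤ Real.log y := Real.log_le_log (by norm_num) hy2
  obtain ⟨L, hL⟩ : ∃ L, L = Real.log y := ⟨_, rfl⟩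
  have hL0 : 0.69 < L := by rw [hL]; linarith
  have hl2y : Real.log (2 * R) ≤ 2 * L := by
    have h1 : Real.log (2 * R) ≤ Real.log (2 * y) :=
      Real.log_le_log (by positivity) (by
        have : (R : ℝ) ≤ y := by exact_mod_cast hRy
        linarith)
    rw [Real.log_mul (by norm_num : (2 : ℝ) ≠ 0) (by positivity : (y : ℝ) ≠ 0), ← hL] at h1
    rw [← hL] at hly
    linarith
  have hsq : Real.sqrt (2 * R) ≤ 3 / 2 * Real.sqrt R := by
    rw [Real.sqrt_mul (by norm_num)]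
    refine mul_le_mul_of_nonneg_right ?_ (Real.sqrt_nonneg _)
    rw [Real.sqrt_le_left (by norm_num)]
    norm_num
  have hpt : ∀ p ∈ PD R, ‖∑ m ∈ Icc 1 U, ∑ n ∈ (Icc 1 y).filter (fun n => m * n ≤ y),
        a m * ((Real.log n ^ j : ℝ) : ℂ) * p.2 ((m * n : ℕ) : ZMod p.1)‖ ≤
      U * ((1 + L) * ((1 + L) * (C₀ * (3 / 2 * Real.sqrt R) * (2 * L)))) := by
    intro p hp
    obtain ⟨hp1, hp2, hp3, hp4⟩ := ty1_mem.1 hp
    have hne : NeZero p.1 := ⟨by omega⟩
    have hB : ∀ u v : ℕ, ‖∑ n ∈ Ico u v, p.2 (n : ZMod p.1)‖ ≤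
        C₀ * (3 / 2 * Real.sqrt R) * (2 * L) := by
      intro u v
      refine (hPV p.1 p.2 (by omega) hp3 u v).trans ?_
      have e1 : Real.sqrt p.1 ≤ 3 / 2 * Real.sqrt R :=
        (Real.sqrt_le_sqrt (by exact_mod_cast hp2)).trans hsq
      have e2 : Real.log p.1 ≤ 2 * L :=
        (Real.log_le_log (by exact_mod_cast hp1) (by exact_mod_cast hp2)).trans hl2y
      have e3 : 0 ≤ Real.log p.1 := Real.log_nonneg (by exact_mod_cast hp1)
      gcongr
    refine (norm_sum_le _ _).trans ?_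
    have hm : ∀ m ∈ Icc 1 U, ‖∑ n ∈ (Icc 1 y).filter (fun n => m * n ≤ y),
        a m * ((Real.log n ^ j : ℝ) : ℂ) * p.2 ((m * n : ℕ) : ZMod p.1)‖ ≤
        (1 + L) * ((1 + L) * (C₀ * (3 / 2 * Real.sqrt R) * (2 * L))) := by
      intro m hm
      rw [mem_Icc] at hm
      have e1 : ∑ n ∈ (Icc 1 y).filter (fun n => m * n ≤ y),
          a m * ((Real.log n ^ j : ℝ) : ℂ) * p.2 ((m * n : ℕ) : ZMod p.1) =
          a m * p.2 (m : ZMod p.1) * ∑ n ∈ Ico 1 (y / m + 1),
            ((Real.log n ^ j : ℝ) : ℂ) * p.2 (n : ZMod p.1) := by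
        rw [mul_sum]
        have e2 : (Icc 1 y).filter (fun n => m * n ≤ y) = Ico 1 (y / m + 1) := by
          ext n
          rw [mem_filter, mem_Icc, mem_Ico, Nat.lt_succ_iff, Nat.le_div_iff_mul_le (by omega)]
          constructor
          · rintro ⟨⟨h1, -⟩, h2⟩
            exact ⟨h1, by rw [mul_comm]; exact h2⟩
          · rintro ⟨h1, h2⟩
            refine ⟨⟨h1, ?_⟩, by rw [mul_comm]; exact h2⟩
            nlinarith
        rw [e2]
        refine sum_congr rfl fun n _ => ?_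
        rw [Nat.cast_mul, map_mul]
        ring
      rw [e1, norm_mul, norm_mul]
      have e3 : ‖p.2 (m : ZMod p.1)‖ ≤ 1 := DirichletCharacter.norm_le_one _ _
      have e4 := ha m hm.1 hm.2
      rw [← hL] at e4
      have e5 := ty1_inner (fun n => p.2 (n : ZMod p.1)) _ hB j hj (y / m) y (Nat.div_le_self _ _)
        (by omega)
      rw [← hL] at e5
      have e6 : ‖a m‖ * ‖p.2 (m : ZMod p.1)‖ ≤ 1 + L :=
        calc _ ≤ (1 + L) * 1 := mul_le_mul e4 e3 (norm_nonneg _) (by linarith)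
          _ = 1 + L := mul_one _
      exact mul_le_mul e6 e5 (norm_nonneg _) (by linarith)
    refine (sum_le_sum hm).trans ?_
    rw [sum_const, Nat.card_Icc, nsmul_eq_mul, Nat.add_sub_cancel]
  have h1 : ∑ p ∈ PD R, 1 / (Nat.totient p.1 : ℝ) *
      ‖∑ m ∈ Icc 1 U, ∑ n ∈ (Icc 1 y).filter (fun n => m * n ≤ y),
        a m * ((Real.log n ^ j : ℝ) : ℂ) * p.2 ((m * n : ℕ) : ZMod p.1)‖ ≤
      R * (U * ((1 + L) * ((1 + L) * (C₀ * (3 / 2 * Real.sqrt R) * (2 * L))))) := by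
    refine (sum_le_sum fun p hp => mul_le_mul_of_nonneg_left (hpt p hp) (by positivity)).trans ?_
    rw [← sum_mul]
    exact mul_le_mul_of_nonneg_right (ty1_count R) (by positivity)
  refine h1.trans ?_
  have h2 : (R : ℝ) ^ (3 / 2 : ℝ) = R * Real.sqrt R := by
    rw [Real.sqrt_eq_rpow, ← Real.rpow_one_add' (by positivity) (by norm_num)]
    norm_num
  rw [h2, ← hL]
  have h3 : 1 + L ≤ 5 / 2 * L := by linarith
  have h4 : (1 + L) * (1 + L) ≤ (5 / 2 * L) * (5 / 2 * L) :=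
    mul_le_mul h3 h3 (by linarith) (by linarith)
  have h5 : 0 ≤ (R : ℝ) * U * C₀ * Real.sqrt R * L := by positivity
  calc (R : ℝ) * (U * ((1 + L) * ((1 + L) * (C₀ * (3 / 2 * Real.sqrt R) * (2 * L)))))
      = 3 * ((1 + L) * (1 + L)) * ((R : ℝ) * U * C₀ * Real.sqrt R * L) := by ring
    _ ≤ 3 * ((5 / 2 * L) * (5 / 2 * L)) * ((R : ℝ) * U * C₀ * Real.sqrt R * L) := by gcongr
    _ = 75 / 4 * (C₀ * L ^ 3 * U * (R * Real.sqrt R)) := by ring
    _ ≤ 40 * (C₀ * L ^ 3 * U * (R * Real.sqrt R)) := by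
      have : 0 ≤ C₀ * L ^ 3 * U * (R * Real.sqrt R) := by positivity
      linarith
    _ = 40 * C₀ * L ^ 3 * U * (R * Real.sqrt R) := by ring

end Pool.Agent.Lib.H59C
end

-- from Lib.H59C.MER2
section

/-!
# MER2: ratio of two sifting products
-/

open Finset

namespace Pool.Agent.Lib.H59C

theorem MER2_card (n N : ℕ) (z : ℝ) (hn : 2 ≤ n) (hN : 0 < N) (hNn : N ≤ n ^ 3)
    (hz : (n : ℝ) ^ (1 / 20 : ℝ) ≤ z) :
    (N.primeFactors.filter (fun q : ℕ => z ≤ (q : ℝ))).card ≤ 60 := by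
  classical
  set T := N.primeFactors.filter (fun q : ℕ => z ≤ (q : ℝ)) with hT
  have hn1 : (1 : ℝ) < n := by exact_mod_cast (show 1 < n by omega)
  have hy : (1 : ℝ) < (n : ℝ) ^ (1 / 20 : ℝ) := Real.one_lt_rpow hn1 (by norm_num)
  have h1 : ∏ q ∈ T, q ∣ N := by
    refine (Finset.prod_dvd_prod_of_subset _ _ _ (Finset.filter_subset _ _)).trans ?_
    exact Nat.prod_primeFactors_dvd N
  have h2 : ∏ q ∈ T, q ≤ n ^ 3 := (Nat.le_of_dvd hN h1).trans hNn
  have h3 : ((n : ℝ) ^ (1 / 20 : ℝ)) ^ T.card ≤ ((∏ q ∈ T, q : ℕ) : ℝ) := by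
    rw [Nat.cast_prod, ← Finset.prod_const]
    refine Finset.prod_le_prod (fun q _ => by positivity) fun q hq => ?_
    exact hz.trans (Finset.mem_filter.1 hq).2
  have h4 : ((∏ q ∈ T, q : ℕ) : ℝ) ≤ (n : ℝ) ^ 3 := by exact_mod_cast h2
  have h5 : (n : ℝ) ^ 3 = ((n : ℝ) ^ (1 / 20 : ℝ)) ^ 60 := by
    rw [← Real.rpow_natCast ((n : ℝ) ^ (1 / 20 : ℝ)), ← Real.rpow_mul (by linarith),
      ← Real.rpow_natCast]
    norm_num
  rw [h5] at h4
  exact (pow_le_pow_iff_right₀ hy).1 (h3.trans h4)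

/-- `n` large. -/
theorem MER2_large (C δ : ℝ) (hC : 0 < C) (hδ : 0 < δ) : ∃ n0 : ℕ, ∀ n : ℕ, n0 ≤ n → 2 ≤ n ∧
    ∀ z : ℝ, (n : ℝ) ^ (1 / 20 : ℝ) ≤ z → 4 ≤ z ∧ C / Real.log z ≤ δ := by
  refine ⟨⌈Real.exp (20 * (C / δ + 2))⌉₊, fun n hn => ?_⟩
  have h1 : Real.exp (20 * (C / δ + 2)) ≤ n := (Nat.le_ceil _).trans (by exact_mod_cast hn)
  have hn0 : (0 : ℝ) < n := (Real.exp_pos _).trans_le h1
  have h2 : 20 * (C / δ + 2) ≤ Real.log n := (Real.le_log_iff_exp_le hn0).2 h1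
  have hcd : 0 < C / δ := by positivity
  have h3 : 2 ≤ n := by
    have h4 : (20 * (C / δ + 2)) + 1 ≤ n := (Real.add_one_le_exp _).trans h1
    have h5 : (2 : ℝ) ≤ n := by linarith
    exact_mod_cast h5
  refine ⟨h3, fun z hz => ?_⟩
  have h4 : Real.log ((n : ℝ) ^ (1 / 20 : ℝ)) = 1 / 20 * Real.log n := Real.log_rpow hn0 _
  have h5 : C / δ + 2 ≤ Real.log z := by
    have h6 := Real.log_le_log (by positivity) hz
    rw [h4] at h6
    linarith
  have hz0 : 0 < z := (show (0 : ℝ) < (n : ℝ) ^ (1 / 20 : ℝ) by positivity).trans_le hz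
  constructor
  · have h6 : Real.exp 2 ≤ z := (Real.le_log_iff_exp_le hz0).1 (by linarith)
    have h7 : (4 : ℝ) ≤ Real.exp 2 := by
      have h8 := Real.add_one_le_exp (1 : ℝ)
      have h9 : Real.exp 2 = Real.exp 1 * Real.exp 1 := by rw [← Real.exp_add]; norm_num
      rw [h9]
      nlinarith
    linarith
  · rw [div_le_iff₀ (by linarith)]
    have h6 : C = δ * (C / δ) := by field_simp
    nlinarith


end Pool.Agent.Lib.H59C
end

-- from Lib.H59C.MER3
section

/-!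
# MER3: lower bound for the sifting product
-/

open Finset

namespace Pool.Agent.Lib.H59C

theorem MER3_sq : ∃ B : ℝ, 0 ≤ B ∧ ∀ s : Finset ℕ, ∑ p ∈ s, 1 / (p : ℝ) ^ 2 ≤ B := by
  have hs : Summable (fun n : ℕ => 1 / (n : ℝ) ^ 2) := Real.summable_one_div_nat_pow.2 (by norm_num)
  refine ⟨∑' n : ℕ, 1 / (n : ℝ) ^ 2, tsum_nonneg fun n => by positivity, fun s => ?_⟩
  exact hs.sum_le_tsum s fun n _ => by positivity

theorem MER3_fac (q : ℕ) (hq : 3 ≤ q) : 0 < 1 - gq q ∧ 1 - gq q ≤ 1 ∧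
    (1 - gq q) * (((q : ℝ) - 1) / (q - 2)) = 1 ∧
    Real.exp (-(1 / (q : ℝ) + 6 * (1 / (q : ℝ) ^ 2))) ≤ 1 - gq q := by
  have h3 : (3 : ℝ) ≤ q := by exact_mod_cast hq
  unfold gq
  have h4 : 1 / ((q : ℝ) - 1) ≤ 1 / 2 := one_div_le_one_div_of_le (by norm_num) (by linarith)
  have h5 : 0 < 1 / ((q : ℝ) - 1) := by
    have : (0 : ℝ) < q - 1 := by linarith
    positivity
  have h6 : (0 : ℝ) < q - 1 := by linarith
  have h7 : (0 : ℝ) < q - 2 := by linarith
  have h8 : 1 - 1 / ((q : ℝ) - 1) = (q - 2) / (q - 1) := by field_simp; ring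
  refine ⟨by linarith, by linarith, ?_, ?_⟩
  · rw [h8]
    field_simp
  · have h9 := Real.one_sub_inv_le_log_of_pos (show (0 : ℝ) < (q - 2) / (q - 1) by positivity)
    rw [h8, ← Real.le_log_iff_exp_le (by positivity)]
    refine le_trans ?_ h9
    have h10 : 1 - (((q : ℝ) - 2) / (q - 1))⁻¹ = -(1 / ((q : ℝ) - 2)) := by
      rw [inv_div]
      field_simp
      ring
    rw [h10, neg_le_neg_iff]
    have hq0 : (0 : ℝ) < q := by linarith
    have h11 : 1 / (q : ℝ) + 6 * (1 / (q : ℝ) ^ 2) = (q + 6) / (q : ℝ) ^ 2 := by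
      field_simp
    rw [h11, div_le_div_iff₀ h7 (by positivity)]
    nlinarith

/-- Lower bound for `V(z)` in terms of the primes dividing `N`.

Proof. `V(z) ≥ ∏_{3 ≤ q < z} (1 - 1/(q-1)) ∏_{q ∣ N, 3 ≤ q < z} (1 - 1/(q-1))⁻¹`,
`(1 - 1/(q-1))⁻¹ = (q-1)/(q-2)`, the first product is `≥ c/log z` (`mertens`), and the at most `60` primes `q ≥ z` dividing
`N` contribute a factor `≤ 2` to the product on the right. -/
theorem VV_lower : ∃ c : ℝ, 0 < c ∧ ∃ n0 : ℕ, ∀ n : ℕ, n0 ≤ n → ∀ (P : Finset ℕ) (N : ℕ) (z : ℝ),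
    0 < N → N ≤ n ^ 3 → (n : ℝ) ^ (1 / 20 : ℝ) ≤ z → z ≤ n →
    (∀ q ∈ P, q.Prime ∧ 3 ≤ q ∧ ¬ q ∣ N) →
    c * (∏ q ∈ N.primeFactors.filter (fun q => 2 < q), (((q : ℝ) - 1) / (q - 2))) / Real.log n ≤
      VV P z := by
  classical
  obtain ⟨C, hC, hmer⟩ := mertens
  obtain ⟨B, hB, hsq⟩ := MER3_sq
  obtain ⟨n0, hn0⟩ := MER2_large 60 (1 / 4) (by norm_num) (by norm_num)
  have hl2 : 0 < Real.log 2 := Real.log_pos (by norm_num)
  refine ⟨Real.log 2 * Real.exp (-(C / Real.log 2) - 6 * B - 6), by positivity, n0,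
    fun n hn P N z hN hNn hz hzn hP => ?_⟩
  obtain ⟨hn2, hlarge⟩ := hn0 n hn
  obtain ⟨hz4, hzC⟩ := hlarge z hz
  have hlz : 0 < Real.log z := Real.log_pos (by linarith)
  have hlzn : Real.log z ≤ Real.log n := Real.log_le_log (by linarith) hzn
  -- the primes `3 ≤ q < z`
  set A := (PR 2 z).filter (fun q => 3 ≤ q) with hA
  set A0 := A.filter (fun q => q ∣ N) with hA0
  set A1 := A.filter (fun q => ¬ q ∣ N) with hA1
  have hAm : ∀ q ∈ A, q.Prime ∧ (q : ℝ) < z ∧ 3 ≤ q := fun q hq => by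
    rw [hA, Finset.mem_filter, mem_PR] at hq
    exact ⟨hq.1.1, hq.1.2.2, hq.2⟩
  have hVA1 : ∏ q ∈ A1, (1 - gq q) ≤ VV P z := by
    unfold VV VP
    have hsub : P.filter (fun q : ℕ => (q : ℝ) < z) ⊆ A1 := by
      intro q hq
      rw [Finset.mem_filter] at hq
      obtain ⟨h1, h2, h3⟩ := hP q hq.1
      rw [hA1, Finset.mem_filter, hA, Finset.mem_filter, mem_PR]
      exact ⟨⟨⟨h1, by exact_mod_cast h1.two_le, hq.2⟩, h2⟩, h3⟩
    refine Finset.prod_le_prod_of_subset_of_le_one hsub ?_ ?_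
    · intro q hq
      exact (MER3_fac q (hAm q (Finset.mem_filter.1 hq).1).2.2).1.le
    · intro q hq _
      exact (MER3_fac q (hAm q (Finset.mem_filter.1 hq).1).2.2).2.1
  have hAA : (∏ q ∈ A0, (1 - gq q)) * ∏ q ∈ A1, (1 - gq q) = ∏ q ∈ A, (1 - gq q) :=
    Finset.prod_filter_mul_prod_filter_not A (fun q => q ∣ N) _
  have hA0' : (∏ q ∈ A0, (1 - gq q)) * ∏ q ∈ A0, (((q : ℝ) - 1) / (q - 2)) = 1 := by
    rw [← Finset.prod_mul_distrib]
    exact Finset.prod_eq_one fun q hq => (MER3_fac q (hAm q (Finset.mem_filter.1 hq).1).2.2).2.2.1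
  have hpos0 : 0 ≤ ∏ q ∈ A0, (((q : ℝ) - 1) / (q - 2)) := by
    refine Finset.prod_nonneg fun q hq => ?_
    have h3 : (3 : ℝ) ≤ q := by exact_mod_cast (hAm q (Finset.mem_filter.1 hq).1).2.2
    exact div_nonneg (by linarith) (by linarith)
  have hA1eq : ∏ q ∈ A1, (1 - gq q) =
      (∏ q ∈ A, (1 - gq q)) * ∏ q ∈ A0, (((q : ℝ) - 1) / (q - 2)) := by
    rw [← hAA]
    calc ∏ q ∈ A1, (1 - gq q) = ((∏ q ∈ A0, (1 - gq q)) *
          ∏ q ∈ A0, (((q : ℝ) - 1) / (q - 2))) * ∏ q ∈ A1, (1 - gq q) := by rw [hA0', one_mul]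
      _ = _ := by ring
  -- lower bound for the full product
  have hfull : Real.log 2 * Real.exp (-(C / Real.log 2) - 6 * B) / Real.log n ≤
      ∏ q ∈ A, (1 - gq q) := by
    have h1 : Real.exp (∑ q ∈ A, -(1 / (q : ℝ) + 6 * (1 / (q : ℝ) ^ 2))) ≤
        ∏ q ∈ A, (1 - gq q) := by
      rw [Real.exp_sum]
      exact Finset.prod_le_prod (fun q _ => (Real.exp_pos _).le)
        fun q hq => (MER3_fac q (hAm q hq).2.2).2.2.2
    refine le_trans ?_ h1
    have h2 : ∑ q ∈ A, 1 / (q : ℝ) ≤ ∑ q ∈ PR 2 z, 1 / (q : ℝ) :=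
      Finset.sum_le_sum_of_subset_of_nonneg (Finset.filter_subset _ _) fun q _ _ => by positivity
    have h3 := (abs_le.1 (hmer 2 z le_rfl (by linarith))).2
    have h4 := hsq A
    have h5 : ∑ q ∈ A, -(1 / (q : ℝ) + 6 * (1 / (q : ℝ) ^ 2)) =
        -∑ q ∈ A, 1 / (q : ℝ) - 6 * ∑ q ∈ A, 1 / (q : ℝ) ^ 2 := by
      rw [Finset.sum_neg_distrib, Finset.sum_add_distrib, ← Finset.mul_sum]
      ring
    rw [h5]
    have h6 : Real.log (Real.log 2) - Real.log (Real.log z) + (-(C / Real.log 2) - 6 * B) ≤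
        -∑ q ∈ A, 1 / (q : ℝ) - 6 * ∑ q ∈ A, 1 / (q : ℝ) ^ 2 := by linarith
    refine le_trans ?_ (Real.exp_le_exp.2 h6)
    rw [Real.exp_add, Real.exp_sub (Real.log (Real.log 2)) (Real.log (Real.log z)),
      Real.exp_log hl2, Real.exp_log hlz, mul_div_right_comm]
    exact mul_le_mul_of_nonneg_right (div_le_div_of_nonneg_left hl2.le hlz hlzn)
      (Real.exp_pos _).le
  -- the large prime divisors
  set U := N.primeFactors.filter (fun q : ℕ => z ≤ (q : ℝ)) with hU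
  have hUcard := MER2_card n N z hn2 hN hNn hz
  have hUprod : ∏ q ∈ U, (((q : ℝ) - 1) / (q - 2)) ≤ Real.exp 6 := by
    have h1 : ∀ q ∈ U, 0 ≤ ((q : ℝ) - 1) / (q - 2) ∧
        ((q : ℝ) - 1) / (q - 2) ≤ Real.exp (1 / 10) := by
      intro q hq
      have h2 := (Finset.mem_filter.1 hq).2
      have h3 : (60 : ℝ) / Real.log z ≤ 1 / 4 := hzC
      rw [div_le_div_iff₀ hlz (by norm_num)] at h3
      have h4 := Real.log_le_sub_one_of_pos (show (0 : ℝ) < z by linarith)
      have h5 : (240 : ℝ) ≤ q := by linarith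
      refine ⟨div_nonneg (by linarith) (by linarith), ?_⟩
      have h6 := Real.add_one_le_exp (1 / 10 : ℝ)
      refine le_trans ?_ h6
      rw [div_le_iff₀ (by linarith)]
      linarith
    calc ∏ q ∈ U, (((q : ℝ) - 1) / (q - 2)) ≤ ∏ q ∈ U, Real.exp (1 / 10) :=
          Finset.prod_le_prod (fun q hq => (h1 q hq).1) fun q hq => (h1 q hq).2
      _ = Real.exp (1 / 10) ^ U.card := by rw [Finset.prod_const]
      _ ≤ Real.exp (1 / 10) ^ 60 :=
          pow_le_pow_right₀ (Real.one_le_exp (by norm_num)) hUcard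
      _ = Real.exp 6 := by
          rw [← Real.exp_nat_mul]
          norm_num
  have hsplit : ∏ q ∈ N.primeFactors.filter (fun q => 2 < q), (((q : ℝ) - 1) / (q - 2)) =
      (∏ q ∈ A0, (((q : ℝ) - 1) / (q - 2))) * ∏ q ∈ U, (((q : ℝ) - 1) / (q - 2)) := by
    rw [← Finset.prod_union]
    · refine Finset.prod_congr ?_ fun q _ => rfl
      ext q
      rw [Finset.mem_union, Finset.mem_filter, hA0, hA, hU, Finset.mem_filter, Finset.mem_filter,
        Finset.mem_filter, mem_PR, Nat.mem_primeFactors]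
      constructor
      · rintro ⟨⟨h1, h2, h3⟩, h4⟩
        rcases lt_or_ge (q : ℝ) z with h5 | h5
        · exact Or.inl ⟨⟨⟨h1, by exact_mod_cast h1.two_le, h5⟩, h4⟩, h2⟩
        · exact Or.inr ⟨⟨h1, h2, h3⟩, h5⟩
      · rintro (⟨⟨⟨h1, h2, h3⟩, h4⟩, h5⟩ | ⟨⟨h1, h2, h3⟩, h4⟩)
        · exact ⟨⟨h1, h5, hN.ne'⟩, h4⟩
        · refine ⟨⟨h1, h2, h3⟩, ?_⟩
          have h5 : (2 : ℝ) < q := by linarith
          exact_mod_cast h5
    · rw [Finset.disjoint_left]
      intro q h1 h2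
      have h3 := (hAm q (Finset.mem_filter.1 h1).1).2.1
      exact absurd h3 (not_lt.2 (Finset.mem_filter.1 h2).2)
  -- conclusion
  have hln : 0 < Real.log n := by linarith
  refine le_trans ?_ hVA1
  rw [hsplit, hA1eq]
  have hf0 : 0 ≤ ∏ q ∈ A0, (((q : ℝ) - 1) / (q - 2)) := hpos0
  calc Real.log 2 * Real.exp (-(C / Real.log 2) - 6 * B - 6) *
        ((∏ q ∈ A0, (((q : ℝ) - 1) / (q - 2))) * ∏ q ∈ U, (((q : ℝ) - 1) / (q - 2))) / Real.log n
      ≤ Real.log 2 * Real.exp (-(C / Real.log 2) - 6 * B - 6) *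
        ((∏ q ∈ A0, (((q : ℝ) - 1) / (q - 2))) * Real.exp 6) / Real.log n := by
        gcongr
    _ = Real.log 2 * Real.exp (-(C / Real.log 2) - 6 * B) / Real.log n *
        ∏ q ∈ A0, (((q : ℝ) - 1) / (q - 2)) := by
        have e : Real.exp (-(C / Real.log 2) - 6 * B) =
            Real.exp (-(C / Real.log 2) - 6 * B - 6) * Real.exp 6 := by
          rw [← Real.exp_add]; congr 1; ring
        rw [e]
        ring
    _ ≤ _ := mul_le_mul_of_nonneg_right hfull hf0

end Pool.Agent.Lib.H59C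
end

-- from Lib.H59C.PIN
section

/-!
# PIN: sums over primes and integrals
-/

open Finset MeasureTheory

namespace Pool.Agent.Lib.H59C

theorem pin_add (u v w : ℝ) (f : ℕ → ℝ) (huv : u ≤ v) (hvw : v ≤ w) :
    ∑ q ∈ PR u w, f q = ∑ q ∈ PR u v, f q + ∑ q ∈ PR v w, f q := by
  classical
  rw [← sum_union]
  · congr 1
    ext q
    simp only [mem_union, mem_PR]
    constructor
    · rintro ⟨h1, h2, h3⟩
      by_cases h : (q : ℝ) < v
      · exact Or.inl ⟨h1, h2, h⟩
      · exact Or.inr ⟨h1, not_lt.1 h, h3⟩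
    · rintro (⟨h1, h2, h3⟩ | ⟨h1, h2, h3⟩)
      · exact ⟨h1, h2, h3.trans_le hvw⟩
      · exact ⟨h1, huv.trans h2, h3⟩
  · rw [disjoint_left]
    intro q hq hq'
    rw [mem_PR] at hq hq'
    linarith [hq.2.2, hq'.2.1]

theorem pin_split (s : ℕ → ℝ) (hs : Monotone s) (f : ℕ → ℝ) (J : ℕ) :
    ∑ q ∈ PR (s 0) (s J), f q = ∑ j ∈ range J, ∑ q ∈ PR (s j) (s (j + 1)), f q := by
  induction J with
  | zero =>
    rw [range_zero, sum_empty]
    apply sum_eq_zero
    intro q hq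
    rw [mem_PR] at hq
    linarith [hq.2.1, hq.2.2]
  | succ J ih =>
    rw [sum_range_succ, ← ih]
    exact pin_add _ _ _ f (hs (Nat.zero_le J)) (hs (Nat.le_succ J))

theorem pin_abel1 (c e : ℕ → ℝ) (J : ℕ) :
    ∑ j ∈ range J, c (j + 1) * (e j - e (j + 1)) =
      c 0 * e 0 - c J * e J + ∑ j ∈ range J, (c (j + 1) - c j) * e j := by
  induction J with
  | zero => simp
  | succ J ih =>
    rw [sum_range_succ, sum_range_succ, ih]
    ring

theorem pin_abel2 (c e : ℕ → ℝ) (J : ℕ) :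
    ∑ j ∈ range J, c j * (e j - e (j + 1)) =
      c 0 * e 0 - c J * e J + ∑ j ∈ range J, (c (j + 1) - c j) * e (j + 1) := by
  induction J with
  | zero => simp
  | succ J ih =>
    rw [sum_range_succ, sum_range_succ, ih]
    ring

theorem pin_tv (c e : ℕ → ℝ) (J : ℕ) (E Φ : ℝ) (hc : ∀ j < J, c j ≤ c (j + 1))
    (hcΦ : ∀ j ≤ J, |c j| ≤ Φ) (he : ∀ j < J, |e j| ≤ E) (hE : 0 ≤ E) :
    |∑ j ∈ range J, (c (j + 1) - c j) * e j| ≤ 2 * Φ * E := by
  refine (abs_sum_le_sum_abs _ _).trans ?_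
  have h1 : ∀ j ∈ range J, |(c (j + 1) - c j) * e j| ≤ (c (j + 1) - c j) * E := by
    intro j hj
    rw [mem_range] at hj
    have h2 : 0 ≤ c (j + 1) - c j := by linarith [hc j hj]
    rw [abs_mul, abs_of_nonneg h2]
    exact mul_le_mul_of_nonneg_left (he j hj) h2
  refine (sum_le_sum h1).trans ?_
  rw [← sum_mul, sum_range_sub]
  apply mul_le_mul_of_nonneg_right _ hE
  have h3 := abs_le.1 (hcΦ J le_rfl)
  have h4 := abs_le.1 (hcΦ 0 (Nat.zero_le J))
  linarith [h3.2, h4.1]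

/-- Monotone functions, one subdivision. -/
theorem pin_mono {C0 : ℝ} (hC0 : 0 < C0) (hm : ∀ u v : ℝ, 2 ≤ u → u ≤ v →
    |∑ q ∈ PR u v, 1 / (q : ℝ) - (Real.log (Real.log v) - Real.log (Real.log u))| ≤
      C0 / Real.log u) (n : ℕ) (a b Φ : ℝ) (φ : ℝ → ℝ) (hn : 3 ≤ n) (ha : 0 < a) (hab : a ≤ b)
    (hna : 2 ≤ (n : ℝ) ^ a) (hφ : MonotoneOn φ (Set.Icc a b))
    (hΦ : ∀ x ∈ Set.Icc a b, |φ x| ≤ Φ) :
    |∑ q ∈ PR ((n : ℝ) ^ a) ((n : ℝ) ^ b), φ (Real.log q / Real.log n) / q -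
      ∫ x in a..b, φ x / x| ≤ 5 * Φ * (C0 / (a * Real.log n)) := by
  have hn3 : (3 : ℝ) ≤ n := by exact_mod_cast hn
  have hn1 : (1 : ℝ) < n := by linarith
  have hn0 : (0 : ℝ) < n := by linarith
  have hl : 0 < Real.log n := Real.log_pos hn1
  set E : ℝ := C0 / (a * Real.log n) with hE
  have hE0 : 0 < E := by positivity
  have hΦ0 : 0 ≤ Φ := (abs_nonneg _).trans (hΦ a ⟨le_rfl, hab⟩)
  -- the subdivision
  obtain ⟨J, hJ⟩ := exists_nat_ge (2 * (b - a) / (a * E) + 1)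
  have hJ1 : (1 : ℝ) ≤ J := by
    have : 0 ≤ 2 * (b - a) / (a * E) := by
      apply div_nonneg (by linarith) (by positivity)
    linarith
  have hJ0 : (0 : ℝ) < J := by linarith
  have hJ2 : 2 * ((b - a) / (J * a)) ≤ E := by
    have h1 : 2 * (b - a) / (a * E) ≤ J := by linarith
    rw [div_le_iff₀ (by positivity)] at h1
    rw [mul_div_assoc', div_le_iff₀ (by positivity)]
    linarith
  obtain ⟨t, ht⟩ : ∃ t : ℕ → ℝ, t = fun j : ℕ => a + (j : ℝ) * ((b - a) / J) := ⟨_, rfl⟩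
  have hstep : 0 ≤ (b - a) / J := div_nonneg (by linarith) hJ0.le
  have htm : Monotone t := by
    intro i j hij
    rw [ht]
    have : (i : ℝ) ≤ j := by exact_mod_cast hij
    have := mul_le_mul_of_nonneg_right this hstep
    simp only
    linarith
  have ht0 : t 0 = a := by rw [ht]; simp
  have htJ : t J = b := by
    rw [ht]
    simp only
    field_simp
    ring
  have hta : ∀ j, a ≤ t j := fun j => by
    rw [← ht0]
    exact htm (Nat.zero_le j)
  have htb : ∀ j ≤ J, t j ≤ b := fun j hj => by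
    rw [← htJ]
    exact htm hj
  have htpos : ∀ j, 0 < t j := fun j => ha.trans_le (hta j)
  have htmem : ∀ j ≤ J, t j ∈ Set.Icc a b := fun j hj => ⟨hta j, htb j hj⟩
  -- the exponents
  have hsm : Monotone (fun j => (n : ℝ) ^ (t j)) := fun i j hij =>
    Real.rpow_le_rpow_of_exponent_le hn1.le (htm hij)
  have hlog : ∀ x : ℝ, Real.log ((n : ℝ) ^ x) = x * Real.log n := fun x =>
    Real.log_rpow hn0 x
  -- the error function
  obtain ⟨e, he⟩ : ∃ e : ℕ → ℝ, e = fun j => ∑ q ∈ PR ((n : ℝ) ^ (t j)) ((n : ℝ) ^ b), 1 / (q : ℝ) -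
    (Real.log b - Real.log (t j)) := ⟨_, rfl⟩
  have hb0 : 0 < b := ha.trans_le hab
  have heE : ∀ j ≤ J, |e j| ≤ E := by
    intro j hj
    have h1 := hm ((n : ℝ) ^ (t j)) ((n : ℝ) ^ b)
      (hna.trans (Real.rpow_le_rpow_of_exponent_le hn1.le (hta j)))
      (Real.rpow_le_rpow_of_exponent_le hn1.le (htb j hj))
    rw [hlog, hlog, Real.log_mul hb0.ne' hl.ne', Real.log_mul (htpos j).ne' hl.ne'] at h1
    rw [he]
    simp only
    have h2 : Real.log b + Real.log (Real.log n) - (Real.log (t j) + Real.log (Real.log n)) =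
        Real.log b - Real.log (t j) := by ring
    rw [h2] at h1
    refine h1.trans ?_
    rw [hE]
    apply div_le_div_of_nonneg_left hC0.le (by positivity)
    exact mul_le_mul_of_nonneg_right (hta j) hl.le
  have heD : ∀ j < J, e j - e (j + 1) =
      ∑ q ∈ PR ((n : ℝ) ^ (t j)) ((n : ℝ) ^ (t (j + 1))), 1 / (q : ℝ) -
        (Real.log (t (j + 1)) - Real.log (t j)) := by
    intro j hj
    rw [he]
    simp only
    rw [pin_add ((n : ℝ) ^ (t j)) ((n : ℝ) ^ (t (j + 1))) ((n : ℝ) ^ b) (fun q => 1 / (q : ℝ))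
      (hsm (Nat.le_succ j)) (Real.rpow_le_rpow_of_exponent_le hn1.le (htb (j + 1) hj))]
    ring
  -- bounds for one interval: primes
  have hxq : ∀ j < J, ∀ q ∈ PR ((n : ℝ) ^ (t j)) ((n : ℝ) ^ (t (j + 1))),
      t j ≤ Real.log q / Real.log n ∧ Real.log q / Real.log n ≤ t (j + 1) := by
    intro j hj q hq
    rw [mem_PR] at hq
    have hq0 : (0 : ℝ) < q := by exact_mod_cast hq.1.pos
    constructor
    · rw [le_div_iff₀ hl, ← hlog]
      exact Real.log_le_log (Real.rpow_pos_of_pos hn0 _) hq.2.1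
    · rw [div_le_iff₀ hl, ← hlog]
      exact Real.log_le_log hq0 hq.2.2.le
  have hP1 : ∀ j < J, ∑ q ∈ PR ((n : ℝ) ^ (t j)) ((n : ℝ) ^ (t (j + 1))),
      φ (Real.log q / Real.log n) / q ≤
      φ (t (j + 1)) * ∑ q ∈ PR ((n : ℝ) ^ (t j)) ((n : ℝ) ^ (t (j + 1))), 1 / (q : ℝ) := by
    intro j hj
    rw [mul_sum]
    apply sum_le_sum
    intro q hq
    obtain ⟨h1, h2⟩ := hxq j hj q hq
    rw [mul_one_div]
    apply div_le_div_of_nonneg_right _ (Nat.cast_nonneg q)
    exact hφ ⟨(hta j).trans h1, h2.trans (htb (j + 1) hj)⟩ (htmem (j + 1) hj) h2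
  have hP2 : ∀ j < J, φ (t j) * ∑ q ∈ PR ((n : ℝ) ^ (t j)) ((n : ℝ) ^ (t (j + 1))), 1 / (q : ℝ) ≤
      ∑ q ∈ PR ((n : ℝ) ^ (t j)) ((n : ℝ) ^ (t (j + 1))), φ (Real.log q / Real.log n) / q := by
    intro j hj
    rw [mul_sum]
    apply sum_le_sum
    intro q hq
    obtain ⟨h1, h2⟩ := hxq j hj q hq
    rw [mul_one_div]
    apply div_le_div_of_nonneg_right _ (Nat.cast_nonneg q)
    exact hφ (htmem j hj.le) ⟨(hta j).trans h1, h2.trans (htb (j + 1) hj)⟩ h1
  -- the integrals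
  have hint : ∀ j < J, IntervalIntegrable (fun x => φ x / x) volume (t j) (t (j + 1)) := by
    intro j hj
    have h1 : Set.uIcc (t j) (t (j + 1)) = Set.Icc (t j) (t (j + 1)) :=
      Set.uIcc_of_le (htm (Nat.le_succ j))
    have h2 : MonotoneOn φ (Set.uIcc (t j) (t (j + 1))) := by
      rw [h1]
      exact hφ.mono (Set.Icc_subset_Icc (hta j) (htb (j + 1) hj))
    have h3 : ContinuousOn (fun x : ℝ => x⁻¹) (Set.uIcc (t j) (t (j + 1))) := by
      apply ContinuousOn.inv₀ continuousOn_id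
      intro x hx
      rw [h1] at hx
      exact ((htpos j).trans_le hx.1).ne'
    have h4 := h2.intervalIntegrable (μ := volume)
    simpa [div_eq_mul_inv] using h4.mul_continuousOn h3
  have hI0 : ∫ x in a..b, φ x / x = ∑ j ∈ range J, ∫ x in (t j)..(t (j + 1)), φ x / x := by
    rw [intervalIntegral.sum_integral_adjacent_intervals (fun j hj => hint j hj), ht0, htJ]
  have hcinv : ∀ j, ∀ c : ℝ, IntervalIntegrable (fun x => c / x) volume (t j) (t (j + 1)) := by
    intro j c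
    apply ContinuousOn.intervalIntegrable
    intro x hx
    rw [Set.uIcc_of_le (htm (Nat.le_succ j))] at hx
    exact (continuousAt_const.div continuousAt_id ((htpos j).trans_le hx.1).ne').continuousWithinAt
  have hconst : ∀ j, ∀ c : ℝ, ∫ x in (t j)..(t (j + 1)), c / x =
      c * (Real.log (t (j + 1)) - Real.log (t j)) := by
    intro j c
    simp only [div_eq_mul_inv]
    rw [intervalIntegral.integral_const_mul, integral_inv_of_pos (htpos j) (htpos (j + 1)),
      Real.log_div (htpos (j + 1)).ne' (htpos j).ne']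
  have hI1 : ∀ j < J, φ (t j) * (Real.log (t (j + 1)) - Real.log (t j)) ≤
      ∫ x in (t j)..(t (j + 1)), φ x / x := by
    intro j hj
    rw [← hconst]
    apply intervalIntegral.integral_mono_on (htm (Nat.le_succ j)) (hcinv j _) (hint j hj)
    intro x hx
    apply div_le_div_of_nonneg_right _ ((htpos j).trans_le hx.1).le
    exact hφ (htmem j hj.le) ⟨(hta j).trans hx.1, hx.2.trans (htb (j + 1) hj)⟩ hx.1
  have hI2 : ∀ j < J, ∫ x in (t j)..(t (j + 1)), φ x / x ≤
      φ (t (j + 1)) * (Real.log (t (j + 1)) - Real.log (t j)) := by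
    intro j hj
    rw [← hconst]
    apply intervalIntegral.integral_mono_on (htm (Nat.le_succ j)) (hint j hj) (hcinv j _)
    intro x hx
    apply div_le_div_of_nonneg_right _ ((htpos j).trans_le hx.1).le
    exact hφ ⟨(hta j).trans hx.1, hx.2.trans (htb (j + 1) hj)⟩ (htmem (j + 1) hj) hx.2
  -- the logarithms
  have hB : ∀ j < J, Real.log (t (j + 1)) - Real.log (t j) ≤ (b - a) / (J * a) := by
    intro j _
    have h1 : t (j + 1) = t j + (b - a) / J := by
      rw [ht]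
      simp only
      push_cast
      ring
    rw [← Real.log_div (htpos (j + 1)).ne' (htpos j).ne']
    refine (Real.log_le_sub_one_of_pos (div_pos (htpos (j + 1)) (htpos j))).trans ?_
    rw [h1, add_div, div_self (htpos j).ne', add_sub_cancel_left, div_div]
    apply div_le_div_of_nonneg_left (by linarith) (by positivity)
    exact mul_le_mul_of_nonneg_left (hta j) hJ0.le
  have hcm : ∀ j < J, φ (t j) ≤ φ (t (j + 1)) := fun j hj =>
    hφ (htmem j hj.le) (htmem (j + 1) hj) (htm (Nat.le_succ j))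
  have hcΦ : ∀ j ≤ J, |φ (t j)| ≤ Φ := fun j hj => hΦ _ (htmem j hj)
  have hvar : ∑ j ∈ range J, (φ (t (j + 1)) - φ (t j)) *
      (Real.log (t (j + 1)) - Real.log (t j)) ≤ Φ * E := by
    have h1 : ∀ j ∈ range J, (φ (t (j + 1)) - φ (t j)) *
        (Real.log (t (j + 1)) - Real.log (t j)) ≤
        (φ (t (j + 1)) - φ (t j)) * ((b - a) / (J * a)) := by
      intro j hj
      rw [mem_range] at hj
      exact mul_le_mul_of_nonneg_left (hB j hj) (by linarith [hcm j hj])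
    refine (sum_le_sum h1).trans ?_
    rw [← sum_mul, sum_range_sub (fun j => φ (t j))]
    have h3 := abs_le.1 (hcΦ J le_rfl)
    have h4 := abs_le.1 (hcΦ 0 (Nat.zero_le J))
    have h5 : 0 ≤ (b - a) / (J * a) := div_nonneg (by linarith) (by positivity)
    calc (φ (t J) - φ (t 0)) * ((b - a) / (J * a)) ≤ (2 * Φ) * ((b - a) / (J * a)) :=
          mul_le_mul_of_nonneg_right (by linarith [h3.2, h4.1]) h5
      _ = Φ * (2 * ((b - a) / (J * a))) := by ring
      _ ≤ Φ * E := mul_le_mul_of_nonneg_left hJ2 hΦ0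
  -- conclusion
  have hend : |φ (t 0) * e 0 - φ (t J) * e J| ≤ 2 * Φ * E := by
    have h1 : |φ (t 0) * e 0| ≤ Φ * E := by
      rw [abs_mul]
      exact mul_le_mul (hcΦ 0 (Nat.zero_le J)) (heE 0 (Nat.zero_le J)) (abs_nonneg _) hΦ0
    have h2 : |φ (t J) * e J| ≤ Φ * E := by
      rw [abs_mul]
      exact mul_le_mul (hcΦ J le_rfl) (heE J le_rfl) (abs_nonneg _) hΦ0
    have h3 := abs_sub (φ (t 0) * e 0) (φ (t J) * e J)
    linarith
  have hS := pin_split (fun j => (n : ℝ) ^ (t j)) hsm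
    (fun q => φ (Real.log q / Real.log n) / q) J
  simp only [ht0, htJ] at hS
  rw [hS, hI0, abs_le]
  constructor
  · -- lower bound
    have h1 : ∑ j ∈ range J, φ (t j) * (e j - e (j + 1)) -
        ∑ j ∈ range J, (φ (t (j + 1)) - φ (t j)) * (Real.log (t (j + 1)) - Real.log (t j)) ≤
        ∑ j ∈ range J, ∑ q ∈ PR ((n : ℝ) ^ (t j)) ((n : ℝ) ^ (t (j + 1))),
          φ (Real.log q / Real.log n) / q - ∑ j ∈ range J, ∫ x in (t j)..(t (j + 1)), φ x / x := by
      rw [← sum_sub_distrib, ← sum_sub_distrib]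
      apply sum_le_sum
      intro j hj
      rw [mem_range] at hj
      have h2 := hP2 j hj
      have h3 := hI2 j hj
      rw [heD j hj]
      nlinarith [h2, h3]
    rw [pin_abel2 (fun j => φ (t j)) e J] at h1
    have h4 := pin_tv (fun j => φ (t j)) (fun j => e (j + 1)) J E Φ hcm hcΦ
      (fun j hj => heE (j + 1) hj) hE0.le
    have h5 := abs_le.1 h4
    have h6 := abs_le.1 hend
    linarith [h5.1, h6.1]
  · have h1 : ∑ j ∈ range J, ∑ q ∈ PR ((n : ℝ) ^ (t j)) ((n : ℝ) ^ (t (j + 1))),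
          φ (Real.log q / Real.log n) / q - ∑ j ∈ range J, ∫ x in (t j)..(t (j + 1)), φ x / x ≤
        ∑ j ∈ range J, φ (t (j + 1)) * (e j - e (j + 1)) +
        ∑ j ∈ range J, (φ (t (j + 1)) - φ (t j)) * (Real.log (t (j + 1)) - Real.log (t j)) := by
      rw [← sum_sub_distrib, ← sum_add_distrib]
      apply sum_le_sum
      intro j hj
      rw [mem_range] at hj
      have h2 := hP1 j hj
      have h3 := hI1 j hj
      rw [heD j hj]
      nlinarith [h2, h3]
    rw [pin_abel1 (fun j => φ (t j)) e J] at h1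
    have h4 := pin_tv (fun j => φ (t j)) e J E Φ hcm hcΦ
      (fun j hj => heE j hj.le) hE0.le
    have h5 := abs_le.1 h4
    have h6 := abs_le.1 hend
    linarith [h5.2, h6.2]

/-- For monotone `φ`: `∑_{n^a ≤ q < n^b} φ(log q/log n)/q = ∫_a^b φ(x)/x dx + O(sup |φ|/(a log n))`.

Proof. Let `M(x) = ∑_{n^a ≤ q < n^x} 1/q = log x - log a + O(1/(a log n))` (`mertens`), uniformly for
`a ≤ x ≤ b`. The sum is `∫ φ dM`; for monotone `φ`, `∫_a^b φ(x) d(M(x) - log x) = [φ (M - log)]_a^b -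
∫ (M - log) dφ = O(sup|φ| · C/(a log n))`. In finite terms (Abel summation over the primes
`q_1 < ... < q_k`, `x_i = log q_i/log n`, `φ` monotone): compare
`∑ φ(x_i) (M(x_{i+1}) - M(x_i))` with `∑ ∫_{x_i}^{x_{i+1}} φ(x)/x dx`; or subdivide `[a, b]` into `J` intervals with
`φ` replaced by its values at the ends (the error is at most `sup|φ| · max_j (M increment + log increment)` plus
`2 J`-free terms by Abel summation) and let `J → ∞`. -/
theorem prime_int : ∃ C : ℝ, 0 < C ∧ ∀ (n : ℕ) (a b Φ : ℝ) (φ : ℝ → ℝ), 3 ≤ n → 0 < a → a ≤ b →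
    b ≤ 2 → 2 ≤ (n : ℝ) ^ a → (MonotoneOn φ (Set.Icc a b) ∨ AntitoneOn φ (Set.Icc a b)) →
    (∀ x ∈ Set.Icc a b, |φ x| ≤ Φ) →
    |∑ q ∈ PR ((n : ℝ) ^ a) ((n : ℝ) ^ b), φ (Real.log q / Real.log n) / q -
      ∫ x in a..b, φ x / x| ≤ C * Φ / (a * Real.log n) := by
  obtain ⟨C0, hC0, hm⟩ := mertens
  refine ⟨5 * C0, by positivity, fun n a b Φ φ hn ha hab _ hna hφ hΦ => ?_⟩
  have hfin : 5 * C0 * Φ / (a * Real.log n) = 5 * Φ * (C0 / (a * Real.log n)) := by ring
  rw [hfin]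
  rcases hφ with h | h
  · exact pin_mono hC0 hm n a b Φ φ hn ha hab hna h hΦ
  · have h1 := pin_mono hC0 hm n a b Φ (fun x => - φ x) hn ha hab hna h.neg
      (fun x hx => by
        rw [abs_neg]
        exact hΦ x hx)
    have h2 : ∑ q ∈ PR ((n : ℝ) ^ a) ((n : ℝ) ^ b), - φ (Real.log q / Real.log n) / (q : ℝ) -
        ∫ x in a..b, - φ x / x =
        - (∑ q ∈ PR ((n : ℝ) ^ a) ((n : ℝ) ^ b), φ (Real.log q / Real.log n) / (q : ℝ) -
        ∫ x in a..b, φ x / x) := by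
      simp only [neg_div]
      rw [sum_neg_distrib, intervalIntegral.integral_neg]
      ring
    rw [h2, abs_neg] at h1
    exact h1

end Pool.Agent.Lib.H59C
end
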