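import Mathlib
import Pool.Agent.Lib.H1M.RV2.M014
import Pool.Agent.Lib.H1M.RV2.M017
import Pool.Agent.Lib.H1M.RV2.M019

/-! Merged copies (to shorten the build) of Lib.H68T.PER1, Lib.H68T.UNS, Lib.H68X.XL1, Lib.H68X.XSIE. -/

-- from Lib.H68T.PER1
section

/-!
# Chunk PER1; part of PER: Perron's formula with Cesàro weights, contour shift
-/

open Finset MeasureTheory

namespace Pool.Agent.Lib.H68T

/-! ### Auxiliary sums -/

theorem PER_step (δ : ℝ) (hδ : 0 < δ) (N : ℕ) (hN : 1 ≤ N) :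
    ((N + 1 : ℕ) : ℝ) ^ (-(1 + δ)) ≤ (1 / δ) * ((N : ℝ) ^ (-δ) - ((N + 1 : ℕ) : ℝ) ^ (-δ)) := by
  have hN0 : (0 : ℝ) < N := by exact_mod_cast hN
  have hM0 : (0 : ℝ) < ((N + 1 : ℕ) : ℝ) := by positivity
  set m : ℝ := ((N + 1 : ℕ) : ℝ) with hm
  have hmN : (N : ℝ) = m * (1 - 1 / m) := by
    rw [hm]; push_cast
    field_simp
    ring
  have hx1 : 0 < 1 - 1 / m := by
    have := hmN ▸ hN0
    exact (pos_iff_pos_of_mul_pos this).mp hM0
  have h1 : (N : ℝ) ^ (-δ) = m ^ (-δ) * (1 - 1 / m) ^ (-δ) := by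
    rw [hmN, Real.mul_rpow hM0.le hx1.le]
  have h2 : 1 + δ / m ≤ (1 - 1 / m) ^ (-δ) := by
    rw [Real.rpow_def_of_pos hx1]
    have h3 : Real.log (1 - 1 / m) ≤ -(1 / m) := by
      have := Real.log_le_sub_one_of_pos hx1
      linarith
    have h4 := Real.add_one_le_exp (Real.log (1 - 1 / m) * -δ)
    have h5 : δ / m ≤ Real.log (1 - 1 / m) * -δ := by
      have : δ / m = -(1 / m) * -δ := by ring
      rw [this]
      nlinarith
    linarith
  have h6 : m ^ (-(1 + δ)) = m ^ (-δ) / m := by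
    rw [show -(1 + δ) = -δ - 1 by ring, Real.rpow_sub hM0, Real.rpow_one]
  rw [h1, h6]
  have h7 : 0 < m ^ (-δ) := Real.rpow_pos_of_pos hM0 _
  have h8 : m ^ (-δ) * (1 + δ / m) ≤ m ^ (-δ) * (1 - 1 / m) ^ (-δ) :=
    mul_le_mul_of_nonneg_left h2 h7.le
  have h9 : m ^ (-δ) / m = (1 / δ) * (m ^ (-δ) * (1 + δ / m) - m ^ (-δ)) := by
    field_simp
    ring
  rw [h9]
  have : 0 < 1 / δ := by positivity
  nlinarith

theorem PER_sum_le (δ : ℝ) (hδ : 0 < δ) (N : ℕ) :
    ∑ n ∈ range (N + 1), (((n + 1 : ℕ) : ℝ) ^ (-(1 + δ))) ≤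
      1 + (1 / δ) * (1 - ((N + 1 : ℕ) : ℝ) ^ (-δ)) := by
  induction N with
  | zero => simp
  | succ N ih =>
    rw [sum_range_succ]
    have := PER_step δ hδ (N + 1) (by omega)
    push_cast at *
    nlinarith

theorem PER_tsum (ε : ℝ) (hε : 0 < ε) :
    Summable (fun n : ℕ => (1 + Real.log n) * (n : ℝ) ^ (-(1 + ε))) ∧
      ∑' n : ℕ, (1 + Real.log n) * (n : ℝ) ^ (-(1 + ε)) ≤ (1 + 2 / ε) ^ 2 := by
  have h0 : (fun n : ℕ => (1 + Real.log n) * (n : ℝ) ^ (-(1 + ε))) 0 = 0 := by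
    simp only [Nat.cast_zero]
    rw [Real.zero_rpow (by linarith)]
    ring
  have hnn : ∀ n : ℕ, 0 ≤ (1 + Real.log n) * (n : ℝ) ^ (-(1 + ε)) := by
    intro n
    have : 0 ≤ Real.log n := Real.log_natCast_nonneg n
    positivity
  have hle : ∀ n : ℕ, (1 + Real.log ((n + 1 : ℕ) : ℝ)) * ((n + 1 : ℕ) : ℝ) ^ (-(1 + ε)) ≤
      (1 + 2 / ε) * ((n + 1 : ℕ) : ℝ) ^ (-(1 + ε / 2)) := by
    intro n
    set m : ℝ := ((n + 1 : ℕ) : ℝ) with hm
    have hm1 : 1 ≤ m := by rw [hm]; push_cast; linarith [Nat.cast_nonneg (α := ℝ) n]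
    have hm0 : 0 < m := by linarith
    have h1 : Real.log m ≤ m ^ (ε / 2) / (ε / 2) := Real.log_le_rpow_div hm0.le (by positivity)
    have h2 : 1 ≤ m ^ (ε / 2) := Real.one_le_rpow hm1 (by positivity)
    have h3 : 1 + Real.log m ≤ (1 + 2 / ε) * m ^ (ε / 2) := by
      have : m ^ (ε / 2) / (ε / 2) = 2 / ε * m ^ (ε / 2) := by field_simp
      rw [this] at h1
      linarith
    have h4 : m ^ (-(1 + ε / 2)) = m ^ (ε / 2) * m ^ (-(1 + ε)) := by
      rw [← Real.rpow_add hm0]; congr 1; ring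
    rw [h4, ← mul_assoc]
    exact mul_le_mul_of_nonneg_right h3 (Real.rpow_nonneg hm0.le _)
  have hpart : ∀ N : ℕ, ∑ n ∈ range N, (1 + Real.log n) * (n : ℝ) ^ (-(1 + ε)) ≤
      (1 + 2 / ε) ^ 2 := by
    intro N
    have hmono : ∑ n ∈ range N, (1 + Real.log n) * (n : ℝ) ^ (-(1 + ε)) ≤
        ∑ n ∈ range (N + 1 + 1), (1 + Real.log n) * (n : ℝ) ^ (-(1 + ε)) :=
      sum_le_sum_of_subset_of_nonneg (range_subset_range.mpr (by omega)) fun n _ _ => hnn n
    refine hmono.trans ?_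
    rw [sum_range_succ']
    have h0' : (1 + Real.log ((0 : ℕ) : ℝ)) * ((0 : ℕ) : ℝ) ^ (-(1 + ε)) = 0 := h0
    rw [h0', add_zero]
    refine (sum_le_sum fun n _ => hle n).trans ?_
    rw [← mul_sum]
    have h1 := PER_sum_le (ε / 2) (by positivity) N
    have h2 : ∑ n ∈ range (N + 1), (((n + 1 : ℕ) : ℝ) ^ (-(1 + ε / 2))) ≤ 1 + 2 / ε := by
      refine h1.trans ?_
      have h3 : 0 ≤ ((N + 1 : ℕ) : ℝ) ^ (-(ε / 2)) := Real.rpow_nonneg (by positivity) _
      have h4 : 1 / (ε / 2) = 2 / ε := by field_simp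
      rw [h4]
      have h5 : 0 < 2 / ε := by positivity
      nlinarith
    have h5 : 0 < 2 / ε := by positivity
    calc (1 + 2 / ε) * ∑ n ∈ range (N + 1), (((n + 1 : ℕ) : ℝ) ^ (-(1 + ε / 2)))
        ≤ (1 + 2 / ε) * (1 + 2 / ε) := mul_le_mul_of_nonneg_left h2 (by positivity)
      _ = _ := by ring
  have hsum := summable_of_sum_range_le hnn hpart
  exact ⟨hsum, hsum.tsum_le_of_sum_range_le hpart⟩

/-! ### Kernels -/

theorem PER_norm_sq (σ y : ℝ) : ‖(σ : ℂ) + y * Complex.I‖ ^ 2 = σ ^ 2 + y ^ 2 := by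
  rw [← Complex.normSq_eq_norm_sq, Complex.normSq_apply]
  simp
  ring

theorem PER_den (σ y m : ℝ) (hm : 0 < m) (hσ : m ≤ σ ^ 2) (hm1 : m ≤ 1) (hσ0 : 0 ≤ σ) :
    ‖(1 : ℂ) / (((σ : ℂ) + y * Complex.I) * ((σ : ℂ) + y * Complex.I + 1))‖ ≤
      (1 / m) * (1 + y ^ 2)⁻¹ := by
  rw [norm_div, norm_one, norm_mul]
  have h1 := PER_norm_sq σ y
  have h2 := PER_norm_sq (σ + 1) y
  have e : (σ : ℂ) + y * Complex.I + 1 = ((σ + 1 : ℝ) : ℂ) + y * Complex.I := by push_cast; ring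
  rw [e]
  set p := ‖(σ : ℂ) + y * Complex.I‖
  set q := ‖((σ + 1 : ℝ) : ℂ) + y * Complex.I‖
  have hp : 0 ≤ p := norm_nonneg _
  have hq : 0 ≤ q := norm_nonneg _
  have h3 : m * (1 + y ^ 2) ≤ p ^ 2 := by nlinarith [sq_nonneg y]
  have h4 : p ^ 2 ≤ q ^ 2 := by nlinarith
  have h5 : p ≤ q := (sq_le_sq₀ hp hq).mp h4
  have h6 : m * (1 + y ^ 2) ≤ p * q := by nlinarith
  have h7 : 0 < m * (1 + y ^ 2) := by positivity
  calc 1 / (p * q) ≤ 1 / (m * (1 + y ^ 2)) := one_div_le_one_div_of_le h7 h6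
    _ = _ := by rw [one_div, mul_inv, one_div]

theorem PER_integrable1 (σ : ℝ) (hσ : 1 ≤ σ) :
    Integrable (fun y : ℝ => (1 : ℂ) / (((σ : ℂ) + y * Complex.I) *
      ((σ : ℂ) + y * Complex.I + 1))) := by
  refine Integrable.mono' (g := fun y => (1 / 1) * (1 + y ^ 2)⁻¹)
    (integrable_inv_one_add_sq.const_mul _) ?_ ?_
  · refine Continuous.aestronglyMeasurable ?_
    refine Continuous.div continuous_const (by fun_prop) ?_
    intro y
    refine mul_ne_zero ?_ ?_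
    · intro h
      have := congrArg Complex.re h
      simp at this
      linarith
    · intro h
      have := congrArg Complex.re h
      simp at this
      linarith
  · exact Filter.Eventually.of_forall fun y => PER_den σ y 1 one_pos (by nlinarith) le_rfl
      (by linarith)

theorem PER_kernel1 (σ : ℝ) (hσ : 1 ≤ σ) (x : ℝ) (hx : 0 < x) :
    (2 * Real.pi : ℂ) * ((max 0 (1 - 1 / x) : ℝ) : ℂ) =
      ∫ y : ℝ, (x : ℂ) ^ ((σ : ℂ) + y * Complex.I) * (1 / (((σ : ℂ) + y * Complex.I) *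
        ((σ : ℂ) + y * Complex.I + 1))) := by
  set g : ℝ → ℂ := fun y => Set.indicator (Set.Ioc 0 1) (fun _ => 1 : ℝ → ℂ) y -
    Set.indicator (Set.Ioc 0 1) (fun t => (t : ℂ) ^ (1 : ℂ) : ℝ → ℂ) y with hg
  have hM : ∀ s : ℂ, 0 < s.re → HasMellin g s (1 / (s * (s + 1))) := by
    intro s hs
    have h1 := hasMellin_one_Ioc hs
    have h2 := hasMellin_cpow_Ioc 1 (s := s) (by simp; linarith)
    have h3 := hasMellin_sub h1.1 h2.1
    rw [h1.2, h2.2] at h3
    have e : 1 / s - 1 / (s + 1) = 1 / (s * (s + 1)) := by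
      have hs0 : s ≠ 0 := by
        intro h; rw [h] at hs; simp at hs
      have hs1 : s + 1 ≠ 0 := by
        intro h
        have := congrArg Complex.re h
        simp at this
        linarith
      field_simp
      ring
    rw [e] at h3
    exact h3
  have hmel : ∀ y : ℝ, mellin g ((σ : ℂ) + y * Complex.I) =
      1 / (((σ : ℂ) + y * Complex.I) * ((σ : ℂ) + y * Complex.I + 1)) := by
    intro y
    exact (hM _ (by simp; linarith)).2
  have hinv : (0 : ℝ) < 1 / x := by positivity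
  have hgeq : ∀ y : ℝ, 0 < y → g y = ((max 0 (1 - y) : ℝ) : ℂ) := by
    intro y hy
    simp only [hg]
    by_cases h : y ≤ 1
    · rw [Set.indicator_of_mem (show y ∈ Set.Ioc (0:ℝ) 1 from ⟨hy, h⟩),
        Set.indicator_of_mem (show y ∈ Set.Ioc (0:ℝ) 1 from ⟨hy, h⟩),
        max_eq_right (by linarith)]
      simp
    · rw [Set.indicator_of_notMem (fun hh => h hh.2), Set.indicator_of_notMem (fun hh => h hh.2),
        max_eq_left (by linarith)]
      simp
  have hcont : ContinuousAt g (1 / x) := by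
    have h1 : ContinuousAt (fun y : ℝ => ((max 0 (1 - y) : ℝ) : ℂ)) (1 / x) := by fun_prop
    refine h1.congr ?_
    filter_upwards [lt_mem_nhds hinv] with y hy
    exact (hgeq y hy).symm
  have hvert : Complex.VerticalIntegrable (mellin g) σ := by
    unfold Complex.VerticalIntegrable
    refine (PER_integrable1 σ hσ).congr ?_
    exact Filter.Eventually.of_forall fun y => (hmel y).symm
  have key := mellinInv_mellin_eq σ g hinv (hM σ (by simp; linarith)).1 hvert hcont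
  rw [hgeq _ hinv] at key
  rw [← key]
  unfold mellinInv
  rw [Complex.real_smul, ← mul_assoc]
  have hpi : (2 * Real.pi : ℂ) * ((1 / (2 * Real.pi) : ℝ) : ℂ) = 1 := by
    push_cast
    have : (Real.pi : ℂ) ≠ 0 := by exact_mod_cast Real.pi_ne_zero
    field_simp
  rw [hpi, one_mul]
  refine integral_congr_ae (Filter.Eventually.of_forall fun y => ?_)
  simp only [smul_eq_mul]
  rw [hmel y]
  congr 1
  rw [one_div, Complex.ofReal_inv, Complex.inv_cpow _ _ (by
    rw [Complex.arg_ofReal_of_nonneg hx.le]; exact Real.pi_pos.ne), Complex.cpow_neg, inv_inv]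

theorem PER_integrable2 (σ : ℝ) (hσ : 1 < σ) :
    Integrable (fun y : ℝ => (1 : ℂ) / (((σ : ℂ) + y * Complex.I - 1) *
      (((σ : ℂ) + y * Complex.I) * ((σ : ℂ) + y * Complex.I + 1)))) := by
  have h1 := PER_integrable1 σ hσ.le
  refine Integrable.mono' (g := fun y => (1 / (σ - 1)) * ‖(1 : ℂ) / (((σ : ℂ) + y * Complex.I) *
      ((σ : ℂ) + y * Complex.I + 1))‖)
    (h1.norm.const_mul _) ?_ ?_
  · refine Continuous.aestronglyMeasurable ?_
    refine Continuous.div continuous_const (by fun_prop) ?_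
    intro y
    refine mul_ne_zero ?_ (mul_ne_zero ?_ ?_)
    · intro h
      have := congrArg Complex.re h
      simp at this
      linarith
    · intro h
      have := congrArg Complex.re h
      simp at this
      linarith
    · intro h
      have := congrArg Complex.re h
      simp at this
      linarith
  · refine Filter.Eventually.of_forall fun y => ?_
    have h2 : σ - 1 ≤ ‖(σ : ℂ) + y * Complex.I - 1‖ := by
      have := Complex.abs_re_le_norm ((σ : ℂ) + y * Complex.I - 1)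
      simp at this
      exact (le_abs_self _).trans this
    have h3 : 1 / ‖(σ : ℂ) + y * Complex.I - 1‖ ≤ 1 / (σ - 1) :=
      one_div_le_one_div_of_le (by linarith) h2
    have e : (1 : ℂ) / (((σ : ℂ) + y * Complex.I - 1) *
        (((σ : ℂ) + y * Complex.I) * ((σ : ℂ) + y * Complex.I + 1))) =
        (1 / ((σ : ℂ) + y * Complex.I - 1)) * (1 / (((σ : ℂ) + y * Complex.I) *
          ((σ : ℂ) + y * Complex.I + 1))) := by
      rw [one_div_mul_one_div]
    rw [e, norm_mul]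
    refine mul_le_mul_of_nonneg_right ?_ (norm_nonneg _)
    rw [norm_div, norm_one]
    exact h3

theorem PER_kernel2 (σ : ℝ) (hσ : 1 < σ) (u : ℝ) (hu : 1 < u) :
    (2 * Real.pi : ℂ) * ((u : ℂ) / 2 - 1 + 1 / (2 * u)) =
      ∫ y : ℝ, (u : ℂ) ^ ((σ : ℂ) + y * Complex.I) * (1 / (((σ : ℂ) + y * Complex.I - 1) *
        (((σ : ℂ) + y * Complex.I) * ((σ : ℂ) + y * Complex.I + 1)))) := by
  set g : ℝ → ℂ := fun y => (1 / 2 : ℂ) • Set.indicator (Set.Ioc 0 1)
      (fun t => (t : ℂ) ^ (-1 : ℂ) : ℝ → ℂ) y -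
    Set.indicator (Set.Ioc 0 1) (fun _ => 1 : ℝ → ℂ) y +
    (1 / 2 : ℂ) • Set.indicator (Set.Ioc 0 1) (fun t => (t : ℂ) ^ (1 : ℂ) : ℝ → ℂ) y with hg
  have hM : ∀ s : ℂ, 1 < s.re → HasMellin g s (1 / ((s - 1) * (s * (s + 1)))) := by
    intro s hs
    have h1 := hasMellin_one_Ioc (s := s) (by linarith)
    have h2 := hasMellin_const_smul (hasMellin_cpow_Ioc 1 (s := s) (by simp; linarith)).1
      (1 / 2 : ℂ)
    have h3 := hasMellin_const_smul (hasMellin_cpow_Ioc (-1) (s := s) (by simp; linarith)).1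
      (1 / 2 : ℂ)
    have h4 := hasMellin_sub h3.1 h1.1
    have h5 := hasMellin_add h4.1 h2.1
    rw [h4.2, h3.2, h2.2, h1.2, (hasMellin_cpow_Ioc 1 (s := s) (by simp; linarith)).2,
      (hasMellin_cpow_Ioc (-1) (s := s) (by simp; linarith)).2] at h5
    have e : (1 / 2 : ℂ) • (1 / (s + -1)) - 1 / s + (1 / 2 : ℂ) • (1 / (s + 1)) =
        1 / ((s - 1) * (s * (s + 1))) := by
      have hs0 : s ≠ 0 := by
        intro h; rw [h] at hs; simp at hs; linarith
      have hs1 : s + 1 ≠ 0 := by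
        intro h
        have := congrArg Complex.re h
        simp at this
        linarith
      have hs2 : s - 1 ≠ 0 := by
        intro h
        have := congrArg Complex.re h
        simp at this
        linarith
      rw [show s + -1 = s - 1 by ring, smul_eq_mul, smul_eq_mul]
      field_simp
      ring
    rw [e] at h5
    exact h5
  have hmel : ∀ y : ℝ, mellin g ((σ : ℂ) + y * Complex.I) =
      1 / (((σ : ℂ) + y * Complex.I - 1) *
        (((σ : ℂ) + y * Complex.I) * ((σ : ℂ) + y * Complex.I + 1))) := by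
    intro y
    exact (hM _ (by simp; linarith)).2
  have hu0 : 0 < u := by linarith
  have hinv : (0 : ℝ) < 1 / u := by positivity
  have hinv1 : 1 / u < 1 := by rw [div_lt_one hu0]; exact hu
  have hgeq : ∀ y : ℝ, 0 < y → y < 1 → g y = ((1 / (2 * y) - 1 + y / 2 : ℝ) : ℂ) := by
    intro y hy h
    simp only [hg]
    have hm : y ∈ Set.Ioc (0:ℝ) 1 := ⟨hy, h.le⟩
    rw [Set.indicator_of_mem hm, Set.indicator_of_mem hm, Set.indicator_of_mem hm,
      Complex.cpow_neg, Complex.cpow_one, smul_eq_mul, smul_eq_mul]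
    push_cast
    field_simp
  have hcont : ContinuousAt g (1 / u) := by
    have h1 : ContinuousAt (fun y : ℝ => ((1 / (2 * y) - 1 + y / 2 : ℝ) : ℂ)) (1 / u) := by
      refine Complex.continuous_ofReal.continuousAt.comp ?_
      refine ContinuousAt.add (ContinuousAt.sub (ContinuousAt.div continuousAt_const
        (by fun_prop) (by positivity)) continuousAt_const) (by fun_prop)
    refine h1.congr ?_
    filter_upwards [lt_mem_nhds hinv, gt_mem_nhds hinv1] with y hy hy1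
    exact (hgeq y hy hy1).symm
  have hvert : Complex.VerticalIntegrable (mellin g) σ := by
    unfold Complex.VerticalIntegrable
    refine (PER_integrable2 σ hσ).congr ?_
    exact Filter.Eventually.of_forall fun y => (hmel y).symm
  have key := mellinInv_mellin_eq σ g hinv (hM σ (by simp; linarith)).1 hvert hcont
  rw [hgeq _ hinv hinv1] at key
  have e2 : (((1 / (2 * (1 / u)) - 1 + (1 / u) / 2 : ℝ)) : ℂ) = (u : ℂ) / 2 - 1 + 1 / (2 * u) := by
    push_cast
    have : (u : ℂ) ≠ 0 := by exact_mod_cast hu0.ne'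
    field_simp
  rw [e2] at key
  rw [← key]
  unfold mellinInv
  rw [Complex.real_smul, ← mul_assoc]
  have hpi : (2 * Real.pi : ℂ) * ((1 / (2 * Real.pi) : ℝ) : ℂ) = 1 := by
    push_cast
    have : (Real.pi : ℂ) ≠ 0 := by exact_mod_cast Real.pi_ne_zero
    field_simp
  rw [hpi, one_mul]
  refine integral_congr_ae (Filter.Eventually.of_forall fun y => ?_)
  simp only [smul_eq_mul]
  rw [hmel y]
  congr 1
  rw [one_div, Complex.ofReal_inv, Complex.inv_cpow _ _ (by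
    rw [Complex.arg_ofReal_of_nonneg hu0.le]; exact Real.pi_pos.ne), Complex.cpow_neg, inv_inv]

/-- Summation of the kernel formula over a Dirichlet series. -/
theorem PER_series (a : ℕ → ℂ) (σ u A : ℝ) (hσ : 1 < σ) (hu : 1 < u)
    (hs : Summable (fun n => ‖LSeries.term a (σ : ℂ) n‖)) 
    (hA : ∑' n, ‖LSeries.term a (σ : ℂ) n‖ ≤ A) :
    (∀ y : ℝ, ‖LSeries a ((σ : ℂ) + y * Complex.I)‖ ≤ A) ∧
    Integrable (fun y : ℝ => LSeries a ((σ : ℂ) + y * Complex.I) *
      ((u : ℂ) ^ ((σ : ℂ) + y * Complex.I) * (1 / (((σ : ℂ) + y * Complex.I) *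
        ((σ : ℂ) + y * Complex.I + 1))))) ∧
    (2 * Real.pi : ℂ) * ∑ n ∈ Icc 1 ⌊u⌋₊, a n * (1 - n / u) =
      ∫ y : ℝ, LSeries a ((σ : ℂ) + y * Complex.I) *
        ((u : ℂ) ^ ((σ : ℂ) + y * Complex.I) * (1 / (((σ : ℂ) + y * Complex.I) *
        ((σ : ℂ) + y * Complex.I + 1)))) := by
  have hu0 : 0 < u := by linarith
  have hu0' : (u : ℂ) ≠ 0 := by exact_mod_cast hu0.ne'
  have hterm : ∀ (y : ℝ) (n : ℕ), ‖LSeries.term a ((σ : ℂ) + y * Complex.I) n‖ =
      ‖LSeries.term a (σ : ℂ) n‖ := by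
    intro y n
    rw [LSeries.norm_term_eq, LSeries.norm_term_eq]
    simp
  have hbound : ∀ y : ℝ, ‖LSeries a ((σ : ℂ) + y * Complex.I)‖ ≤ A := by
    intro y
    unfold LSeries
    refine (norm_tsum_le_tsum_norm ?_).trans ?_
    · simpa only [hterm y] using hs
    · simpa only [hterm y] using hA
  -- the kernel
  set W : ℝ → ℂ := fun y => (u : ℂ) ^ ((σ : ℂ) + y * Complex.I) *
    (1 / (((σ : ℂ) + y * Complex.I) * ((σ : ℂ) + y * Complex.I + 1))) with hW
  have hcpow : Continuous (fun y : ℝ => (u : ℂ) ^ ((σ : ℂ) + y * Complex.I)) := by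
    refine Continuous.const_cpow (by fun_prop) (Or.inl hu0')
  have hWint : Integrable W := by
    have h1 := PER_integrable1 σ hσ.le
    refine Integrable.bdd_mul (c := u ^ σ) h1 hcpow.aestronglyMeasurable ?_
    refine Filter.Eventually.of_forall fun y => ?_
    rw [Complex.norm_cpow_eq_rpow_re_of_pos hu0]
    simp
  have hmeas : ∀ n : ℕ, Continuous (fun y : ℝ => LSeries.term a ((σ : ℂ) + y * Complex.I) n) := by
    intro n
    by_cases hn : n = 0
    · subst hn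
      simpa using continuous_const
    · simp only [LSeries.term_of_ne_zero hn]
      refine Continuous.div continuous_const ?_ ?_
      · exact Continuous.const_cpow (by fun_prop) (Or.inl (by exact_mod_cast hn))
      · intro y
        rw [Complex.cpow_def_of_ne_zero (by exact_mod_cast hn)]
        exact Complex.exp_ne_zero _
  have hF : ∀ n : ℕ, Integrable (fun y : ℝ => LSeries.term a ((σ : ℂ) + y * Complex.I) n * W y) := by
    intro n
    refine Integrable.bdd_mul (c := ‖LSeries.term a (σ : ℂ) n‖) hWint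
      (hmeas n).aestronglyMeasurable ?_
    exact Filter.Eventually.of_forall fun y => (hterm y n).le
  have hFn : ∀ n : ℕ, ∫ y : ℝ, ‖LSeries.term a ((σ : ℂ) + y * Complex.I) n * W y‖ =
      ‖LSeries.term a (σ : ℂ) n‖ * ∫ y : ℝ, ‖W y‖ := by
    intro n
    simp only [norm_mul, hterm]
    rw [integral_const_mul]
  have hsum : Summable (fun n : ℕ => ∫ y : ℝ, ‖LSeries.term a ((σ : ℂ) + y * Complex.I) n * W y‖) := by
    simp only [hFn]
    exact hs.mul_right _
  have key := hasSum_integral_of_summable_integral_norm hF hsum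
  have hts : ∀ y : ℝ, ∑' n : ℕ, LSeries.term a ((σ : ℂ) + y * Complex.I) n * W y =
      LSeries a ((σ : ℂ) + y * Complex.I) * W y := by
    intro y
    rw [tsum_mul_right]
    rfl
  refine ⟨hbound, ?_, ?_⟩
  · refine Integrable.bdd_mul (c := A) hWint ?_ (Filter.Eventually.of_forall hbound)
    -- measurability as a limit of finite sums
    refine aestronglyMeasurable_of_tendsto_ae (u := Filter.atTop) (f := fun (N : ℕ) (y : ℝ) =>
      ∑ n ∈ range N, LSeries.term a ((σ : ℂ) + y * Complex.I) n) ?_ ?_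
    · intro N
      refine Continuous.aestronglyMeasurable ?_
      exact continuous_finsetSum _ fun n _ => hmeas n
    · refine Filter.Eventually.of_forall fun y => ?_
      have : Summable (fun n => LSeries.term a ((σ : ℂ) + y * Complex.I) n) := by
        refine Summable.of_norm ?_
        simpa only [hterm y] using hs
      exact this.hasSum.tendsto_sum_nat
  · simp only [hts] at key
    rw [← key.tsum_eq]
    have hval : ∀ n : ℕ, ∫ y : ℝ, LSeries.term a ((σ : ℂ) + y * Complex.I) n * W y =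
        if n ∈ Icc 1 ⌊u⌋₊ then (2 * Real.pi : ℂ) * (a n * (1 - n / u)) else 0 := by
      intro n
      by_cases hn : n = 0
      · subst hn
        simp
      · have hnpos : (0 : ℝ) < n := by exact_mod_cast Nat.pos_of_ne_zero hn
        have hnC : (n : ℂ) ≠ 0 := by exact_mod_cast hn
        have hx : 0 < u / n := by positivity
        have h1 : ∀ y : ℝ, LSeries.term a ((σ : ℂ) + y * Complex.I) n * W y =
            a n * (((u / n : ℝ) : ℂ) ^ ((σ : ℂ) + y * Complex.I) *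
              (1 / (((σ : ℂ) + y * Complex.I) * ((σ : ℂ) + y * Complex.I + 1)))) := by
          intro y
          rw [LSeries.term_of_ne_zero hn]
          have h2 : ((u / n : ℝ) : ℂ) ^ ((σ : ℂ) + y * Complex.I) =
              (u : ℂ) ^ ((σ : ℂ) + y * Complex.I) / (n : ℂ) ^ ((σ : ℂ) + y * Complex.I) := by
            have h3 := Complex.mul_cpow_ofReal_nonneg hu0.le (inv_nonneg.mpr hnpos.le)
              ((σ : ℂ) + y * Complex.I)
            rw [div_eq_mul_inv, Complex.ofReal_mul, h3, div_eq_mul_inv, Complex.ofReal_inv,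
              Complex.inv_cpow _ _ (by
                rw [Complex.arg_ofReal_of_nonneg hnpos.le]; exact Real.pi_pos.ne)]
            simp
          rw [h2]
          simp only [hW]
          ring
        simp only [h1]
        rw [integral_const_mul, ← PER_kernel1 σ hσ.le _ hx]
        have h4 : 1 / (u / n) = n / u := by field_simp
        rw [h4]
        split_ifs with hmem
        · rw [mem_Icc] at hmem
          have hle : (n : ℝ) ≤ u := (Nat.le_floor_iff hu0.le).mp hmem.2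
          rw [max_eq_right (by rw [sub_nonneg, div_le_one hu0]; exact hle)]
          push_cast
          ring
        · have hlt : u < n := by
            rw [mem_Icc] at hmem
            have h5 : ¬ n ≤ ⌊u⌋₊ := fun h => hmem ⟨by omega, h⟩
            exact (Nat.floor_lt hu0.le).mp (by omega)
          rw [max_eq_left (by rw [sub_nonpos, one_le_div hu0]; exact hlt.le)]
          simp
    simp only [hval]
    rw [tsum_eq_sum (s := Icc 1 ⌊u⌋₊) (fun n hn => by rw [if_neg hn]), mul_sum]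
    refine sum_congr rfl fun n hn => ?_
    rw [if_pos hn]

theorem PER_main (a : ℕ → ℂ) (f : ℂ → ℂ) (κ : ℂ) (η T B u : ℝ) (hκ : ‖κ‖ ≤ 1)
    (hη0 : 0 < η) (hη1 : η ≤ 1 / 2) (hT : 1 ≤ T) (hu : 3 ≤ u) (hB : 1 ≤ B)
    (ha : ∀ n, 1 ≤ n → ‖a n‖ ≤ 1 + Real.log n)
    (hf : AnalyticOnNhd ℂ f {s | 1 - η ≤ s.re ∧ s.re ≤ 2 ∧ |s.im| ≤ T})
    (hfB : ∀ s : ℂ, 1 - η ≤ s.re → s.re ≤ 2 → |s.im| ≤ T → ‖f s‖ ≤ B)
    (hfL : ∀ s : ℂ, 1 < s.re → f s = LSeries a s - κ / (s - 1)) :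
    ‖∑ n ∈ Icc 1 ⌊u⌋₊, a n * (1 - n / u) - κ * (u / 2 - 1 + 1 / (2 * u))‖ ≤
      10 * (B * u ^ (1 - η) + B * u / T ^ 2 + u * (1 + Real.log u) ^ 2 / T) := by
  have hu0 : 0 < u := by linarith
  have hu0' : (u : ℂ) ≠ 0 := by exact_mod_cast hu0.ne'
  have hlog1 : 1 ≤ Real.log u := by
    rw [Real.le_log_iff_exp_le hu0]
    have := Real.exp_one_lt_d9
    linarith
  have hlog0 : 0 < Real.log u := by linarith
  set ε : ℝ := 1 / Real.log u with hε
  have hε0 : 0 < ε := by positivity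
  have hε1 : ε ≤ 1 := by rw [hε, div_le_one hlog0]; exact hlog1
  set σ : ℝ := 1 + ε with hσdef
  have hσ : 1 < σ := by linarith
  have hσ2 : σ ≤ 2 := by linarith
  have huσ : u ^ σ = u * Real.exp 1 := by
    rw [hσdef, Real.rpow_add hu0, Real.rpow_one, Real.rpow_def_of_pos hu0 ε, hε,
      mul_one_div_cancel hlog0.ne']
  have he3 : Real.exp 1 ≤ 3 := by have := Real.exp_one_lt_d9; linarith
  -- Dirichlet series bound
  obtain ⟨hsm, hts⟩ := PER_tsum ε hε0
  have htb : ∀ n : ℕ, ‖LSeries.term a (σ : ℂ) n‖ ≤ (1 + Real.log n) * (n : ℝ) ^ (-(1 + ε)) := by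
    intro n
    by_cases hn : n = 0
    · subst hn
      simp only [LSeries.term_zero, norm_zero]
      simp only [Nat.cast_zero, Real.log_zero, add_zero, one_mul]
      exact Real.rpow_nonneg le_rfl _
    · have hnpos : (0 : ℝ) < n := by exact_mod_cast Nat.pos_of_ne_zero hn
      rw [LSeries.norm_term_eq, if_neg hn]
      simp only [Complex.ofReal_re]
      rw [Real.rpow_neg hnpos.le, ← div_eq_mul_inv]
      exact div_le_div_of_nonneg_right (ha n (by omega)) (Real.rpow_nonneg hnpos.le _)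
  have hs : Summable (fun n => ‖LSeries.term a (σ : ℂ) n‖) :=
    Summable.of_nonneg_of_le (fun n => norm_nonneg _) htb hsm
  have hA : ∑' n, ‖LSeries.term a (σ : ℂ) n‖ ≤ 4 * (1 + Real.log u) ^ 2 := by
    refine (hs.tsum_le_tsum htb hsm).trans (hts.trans ?_)
    have : 2 / ε = 2 * Real.log u := by rw [hε]; field_simp
    rw [this]
    nlinarith
  obtain ⟨hL1, hL2, hL3⟩ := PER_series a σ u _ hσ (by linarith) hs hA
  have hK := PER_kernel2 σ hσ u (by linarith)
  have hKint : Integrable (fun y : ℝ => (u : ℂ) ^ ((σ : ℂ) + y * Complex.I) *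
      (1 / (((σ : ℂ) + y * Complex.I - 1) *
        (((σ : ℂ) + y * Complex.I) * ((σ : ℂ) + y * Complex.I + 1))))) := by
    have h1 := PER_integrable2 σ hσ
    refine Integrable.bdd_mul (c := u ^ σ) h1 (Continuous.aestronglyMeasurable
      (Continuous.const_cpow (by fun_prop) (Or.inl hu0'))) ?_
    refine Filter.Eventually.of_forall fun y => ?_
    rw [Complex.norm_cpow_eq_rpow_re_of_pos hu0]
    simp
  -- the function on the line
  set F : ℂ → ℂ := fun s => f s * ((u : ℂ) ^ s * (1 / (s * (s + 1)))) with hFdef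
  have hline : ∀ y : ℝ, F ((σ : ℂ) + y * Complex.I) =
      LSeries a ((σ : ℂ) + y * Complex.I) *
        ((u : ℂ) ^ ((σ : ℂ) + y * Complex.I) * (1 / (((σ : ℂ) + y * Complex.I) *
        ((σ : ℂ) + y * Complex.I + 1)))) - κ * ((u : ℂ) ^ ((σ : ℂ) + y * Complex.I) *
      (1 / (((σ : ℂ) + y * Complex.I - 1) *
        (((σ : ℂ) + y * Complex.I) * ((σ : ℂ) + y * Complex.I + 1))))) := by
    intro y
    simp only [hFdef]
    rw [hfL _ (by simp; linarith)]
    rw [← one_div_mul_one_div ((σ : ℂ) + y * Complex.I - 1)]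
    ring
  have hFint : Integrable (fun y : ℝ => F ((σ : ℂ) + y * Complex.I)) := by
    simp only [hline]
    exact hL2.sub (hKint.const_mul κ)
  have hD : (2 * Real.pi : ℂ) * (∑ n ∈ Icc 1 ⌊u⌋₊, a n * (1 - n / u) -
      κ * (u / 2 - 1 + 1 / (2 * u))) = ∫ y : ℝ, F ((σ : ℂ) + y * Complex.I) := by
    simp only [hline]
    rw [integral_sub hL2 (hKint.const_mul κ), integral_const_mul, ← hL3, ← hK]
    ring
  -- bound of F on the line
  have hkap : ∀ y : ℝ, ‖f ((σ : ℂ) + y * Complex.I)‖ ≤ 5 * (1 + Real.log u) ^ 2 := by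
    intro y
    rw [hfL _ (by simp; linarith)]
    refine (norm_sub_le _ _).trans ?_
    have h1 : ‖κ / ((σ : ℂ) + y * Complex.I - 1)‖ ≤ Real.log u := by
      rw [norm_div]
      have h2 : ε ≤ ‖(σ : ℂ) + y * Complex.I - 1‖ := by
        have := Complex.abs_re_le_norm ((σ : ℂ) + y * Complex.I - 1)
        simp at this
        refine le_trans ?_ ((le_abs_self _).trans this)
        linarith
      calc ‖κ‖ / ‖(σ : ℂ) + y * Complex.I - 1‖ ≤ 1 / ε :=
            div_le_div₀ zero_le_one hκ hε0 h2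
        _ = Real.log u := by rw [hε]; field_simp
    have := hL1 y
    nlinarith
  have hFb : ∀ y : ℝ, ‖F ((σ : ℂ) + y * Complex.I)‖ ≤
      (15 * u * (1 + Real.log u) ^ 2) * (1 + y ^ 2)⁻¹ := by
    intro y
    simp only [hFdef]
    rw [norm_mul, norm_mul, Complex.norm_cpow_eq_rpow_re_of_pos hu0]
    have h1 := PER_den σ y 1 one_pos (by nlinarith) le_rfl (by linarith)
    have h2 : ((σ : ℂ) + y * Complex.I).re = σ := by simp
    rw [h2, huσ]
    have h3 := hkap y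
    have h4 : 0 ≤ (1 + y ^ 2)⁻¹ := by positivity
    calc ‖f ((σ : ℂ) + y * Complex.I)‖ * (u * Real.exp 1 *
          ‖(1 : ℂ) / (((σ : ℂ) + y * Complex.I) * ((σ : ℂ) + y * Complex.I + 1))‖)
        ≤ (5 * (1 + Real.log u) ^ 2) * (u * 3 * (1 / 1 * (1 + y ^ 2)⁻¹)) := by
          gcongr
      _ = _ := by ring
  -- splitting of the integral
  have hsplit := integral_add_compl (μ := volume) (s := Set.Ioc (-T) T) measurableSet_Ioc hFint
  have htail : ‖∫ y in (Set.Ioc (-T) T)ᶜ, F ((σ : ℂ) + y * Complex.I)‖ ≤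
      (15 * u * (1 + Real.log u) ^ 2) * (2 / T) := by
    have h1 : ‖∫ y in (Set.Ioc (-T) T)ᶜ, F ((σ : ℂ) + y * Complex.I)‖ ≤
        ∫ y in (Set.Ioc (-T) T)ᶜ, (15 * u * (1 + Real.log u) ^ 2) * (1 + y ^ 2)⁻¹ :=
      norm_integral_le_of_norm_le (integrable_inv_one_add_sq.const_mul _).integrableOn
        (Filter.Eventually.of_forall hFb)
    refine h1.trans ?_
    rw [integral_const_mul]
    refine mul_le_mul_of_nonneg_left ?_ (by positivity)
    have h2 := integral_add_compl (μ := volume) (s := Set.Ioc (-T) T) measurableSet_Ioc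
      integrable_inv_one_add_sq
    rw [integral_univ_inv_one_add_sq, ← intervalIntegral.integral_of_le (by linarith),
      integral_inv_one_add_sq] at h2
    have h3 : Real.arctan T⁻¹ = Real.pi / 2 - Real.arctan T :=
      Real.arctan_inv_of_pos (by linarith)
    rw [Real.arctan_neg] at h2
    have h4 : Real.arctan T⁻¹ ≤ T⁻¹ := by
      have h6 := Real.le_tan (x := Real.arctan T⁻¹)
        (Real.arctan_nonneg.mpr (by positivity)) (Real.arctan_lt_pi_div_two _)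
      rwa [Real.tan_arctan] at h6
    have h5 : 2 / T = 2 * T⁻¹ := by rw [div_eq_mul_inv]
    rw [h5]
    linarith
  -- contour shift
  have hT0 : 0 < T := by linarith
  have hFd : ∀ s : ℂ, 1 - η ≤ s.re → s.re ≤ 2 → |s.im| ≤ T → DifferentiableAt ℂ F s := by
    intro s h1 h2 h3
    simp only [hFdef]
    have hs0 : s ≠ 0 := by
      intro h; rw [h] at h1; simp at h1; linarith
    have hs1 : s + 1 ≠ 0 := by
      intro h
      have := congrArg Complex.re h
      simp at this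
      linarith
    refine (hf s ⟨h1, h2, h3⟩).differentiableAt.mul (DifferentiableAt.mul ?_ ?_)
    · exact differentiableAt_id.const_cpow (Or.inl hu0')
    · exact (differentiableAt_const _).div (differentiableAt_id.mul
        (differentiableAt_id.add (differentiableAt_const _))) (mul_ne_zero hs0 hs1)
  set z : ℂ := ⟨1 - η, -T⟩ with hz
  set w : ℂ := ⟨σ, T⟩ with hw
  have hrect := Complex.integral_boundary_rect_eq_zero_of_differentiableOn F z w (by
    intro s hs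
    rw [Complex.mem_reProdIm, hz, hw] at hs
    simp only at hs
    rw [Set.uIcc_of_le (by linarith), Set.uIcc_of_le (by linarith)] at hs
    exact (hFd s hs.1.1 (hs.1.2.trans hσ2) (abs_le.mpr hs.2)).differentiableWithinAt)
  simp only [hz, hw] at hrect
  -- vertical side
  have hv : ‖∫ y : ℝ in (-T)..T, F (((1 - η : ℝ) : ℂ) + y * Complex.I)‖ ≤
      4 * (B * u ^ (1 - η)) * Real.pi := by
    have h1 : ∀ y ∈ Set.Ioc (-T) T, ‖F (((1 - η : ℝ) : ℂ) + y * Complex.I)‖ ≤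
        4 * (B * u ^ (1 - η)) * (1 + y ^ 2)⁻¹ := by
      intro y hy
      simp only [hFdef]
      rw [norm_mul, norm_mul, Complex.norm_cpow_eq_rpow_re_of_pos hu0]
      have h2 := PER_den (1 - η) y (1 / 4) (by norm_num) (by nlinarith) (by norm_num)
        (by linarith)
      have h3 : (((1 - η : ℝ) : ℂ) + y * Complex.I).re = 1 - η := by simp
      have h4 : (((1 - η : ℝ) : ℂ) + y * Complex.I).im = y := by simp
      rw [h3]
      have h5 := hfB (((1 - η : ℝ) : ℂ) + y * Complex.I) (by rw [h3]) (by rw [h3]; linarith)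
        (by rw [h4]; exact abs_le.mpr ⟨hy.1.le, hy.2⟩)
      have h6 : 0 ≤ (1 + y ^ 2)⁻¹ := by positivity
      have h7 : 0 ≤ u ^ (1 - η) := Real.rpow_nonneg hu0.le _
      calc ‖f (((1 - η : ℝ) : ℂ) + y * Complex.I)‖ * (u ^ (1 - η) *
            ‖(1 : ℂ) / ((((1 - η : ℝ) : ℂ) + y * Complex.I) *
              (((1 - η : ℝ) : ℂ) + y * Complex.I + 1))‖)
          ≤ B * (u ^ (1 - η) * (1 / (1 / 4) * (1 + y ^ 2)⁻¹)) := by gcongr
        _ = _ := by ring
    have h8 := intervalIntegral.norm_integral_le_of_norm_le (μ := volume) (a := -T) (b := T)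
      (by linarith)
      (g := fun y => 4 * (B * u ^ (1 - η)) * (1 + y ^ 2)⁻¹)
      (Filter.Eventually.of_forall h1)
      (integrable_inv_one_add_sq.const_mul _).intervalIntegrable
    refine h8.trans ?_
    rw [intervalIntegral.integral_const_mul, integral_inv_one_add_sq, Real.arctan_neg]
    refine mul_le_mul_of_nonneg_left ?_ (by positivity)
    have := Real.arctan_lt_pi_div_two T
    linarith
  -- horizontal sides
  have hh : ∀ t : ℝ, |t| = T → ‖∫ x : ℝ in (1 - η)..σ, F ((x : ℂ) + (t : ℂ) * Complex.I)‖ ≤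
      3 * (B * u / T ^ 2) * (3 / 2) := by
    intro t ht
    have h1 : ∀ x ∈ Set.uIoc (1 - η) σ, ‖F ((x : ℂ) + (t : ℂ) * Complex.I)‖ ≤
        3 * (B * u / T ^ 2) := by
      intro x hx
      rw [Set.uIoc_of_le (by linarith)] at hx
      simp only [hFdef]
      rw [norm_mul, norm_mul, Complex.norm_cpow_eq_rpow_re_of_pos hu0]
      have h3 : ((x : ℂ) + (t : ℂ) * Complex.I).re = x := by simp
      have h4 : ((x : ℂ) + (t : ℂ) * Complex.I).im = t := by simp
      rw [h3]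
      have h5 := hfB ((x : ℂ) + (t : ℂ) * Complex.I) (by rw [h3]; exact hx.1.le)
        (by rw [h3]; linarith [hx.2]) (by rw [h4]; exact ht.le)
      have h6 : u ^ x ≤ u * 3 := by
        calc u ^ x ≤ u ^ σ := Real.rpow_le_rpow_of_exponent_le (by linarith) hx.2
          _ = u * Real.exp 1 := huσ
          _ ≤ u * 3 := by gcongr
      have h7 : ‖(1 : ℂ) / (((x : ℂ) + (t : ℂ) * Complex.I) *
          ((x : ℂ) + (t : ℂ) * Complex.I + 1))‖ ≤ 1 / T ^ 2 := by
        rw [norm_div, norm_one, norm_mul]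
        have h8 : T ≤ ‖(x : ℂ) + (t : ℂ) * Complex.I‖ := by
          have := Complex.abs_im_le_norm ((x : ℂ) + (t : ℂ) * Complex.I)
          rwa [h4, ht] at this
        have h9 : T ≤ ‖(x : ℂ) + (t : ℂ) * Complex.I + 1‖ := by
          have := Complex.abs_im_le_norm ((x : ℂ) + (t : ℂ) * Complex.I + 1)
          rw [Complex.add_im, h4, Complex.one_im, add_zero, ht] at this
          exact this
        refine one_div_le_one_div_of_le (by positivity) ?_
        nlinarith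
      have h10 : 0 ≤ u ^ x := Real.rpow_nonneg hu0.le _
      calc ‖f ((x : ℂ) + (t : ℂ) * Complex.I)‖ * (u ^ x *
            ‖(1 : ℂ) / (((x : ℂ) + (t : ℂ) * Complex.I) *
          ((x : ℂ) + (t : ℂ) * Complex.I + 1))‖)
          ≤ B * ((u * 3) * (1 / T ^ 2)) := by gcongr
        _ = _ := by ring
    refine (intervalIntegral.norm_integral_le_of_norm_le_const h1).trans ?_
    refine mul_le_mul_of_nonneg_left ?_ (by positivity)
    rw [abs_of_nonneg (by linarith)]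
    linarith
  have hh1 := hh (-T) (by rw [abs_neg, abs_of_pos hT0])
  have hh2 := hh T (abs_of_pos hT0)
  -- the central part
  have hcent : ‖∫ y : ℝ in (-T)..T, F ((σ : ℂ) + y * Complex.I)‖ ≤
      4 * (B * u ^ (1 - η)) * Real.pi + 9 * (B * u / T ^ 2) := by
    have e1 : Complex.I • (∫ y : ℝ in (-T)..T, F ((σ : ℂ) + y * Complex.I)) =
        Complex.I • (∫ y : ℝ in (-T)..T, F (((1 - η : ℝ) : ℂ) + y * Complex.I)) +
        (∫ x : ℝ in (1 - η)..σ, F ((x : ℂ) + (T : ℂ) * Complex.I)) -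
        (∫ x : ℝ in (1 - η)..σ, F ((x : ℂ) + ((-T : ℝ) : ℂ) * Complex.I)) := by
      linear_combination hrect
    have e2 : ‖∫ y : ℝ in (-T)..T, F ((σ : ℂ) + y * Complex.I)‖ =
        ‖Complex.I • (∫ y : ℝ in (-T)..T, F ((σ : ℂ) + y * Complex.I))‖ := by
      rw [norm_smul, Complex.norm_I, one_mul]
    rw [e2, e1]
    refine (norm_sub_le _ _).trans ?_
    have h1 := norm_add_le (Complex.I • (∫ y : ℝ in (-T)..T, F (((1 - η : ℝ) : ℂ) + y * Complex.I)))
      (∫ x : ℝ in (1 - η)..σ, F ((x : ℂ) + (T : ℂ) * Complex.I))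
    rw [norm_smul, Complex.norm_I, one_mul] at h1
    linarith
  -- conclusion
  rw [← intervalIntegral.integral_of_le (by linarith)] at hsplit
  have hfin : 2 * Real.pi * ‖∑ n ∈ Icc 1 ⌊u⌋₊, a n * (1 - n / u) -
      κ * (u / 2 - 1 + 1 / (2 * u))‖ ≤ 4 * (B * u ^ (1 - η)) * Real.pi + 9 * (B * u / T ^ 2) +
        (15 * u * (1 + Real.log u) ^ 2) * (2 / T) := by
    have e3 : ‖(2 * Real.pi : ℂ)‖ = 2 * Real.pi := by
      rw [norm_mul, Complex.norm_real, Real.norm_of_nonneg Real.pi_pos.le]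
      simp
    rw [← e3, ← norm_mul, hD, ← hsplit]
    exact (norm_add_le _ _).trans (add_le_add hcent htail)
  have hpi3 : 3 ≤ Real.pi := Real.pi_gt_three.le
  have hP : 0 ≤ B * u ^ (1 - η) := mul_nonneg (by linarith) (Real.rpow_nonneg hu0.le _)
  have hQ : 0 ≤ B * u / T ^ 2 := by positivity
  have hR : 0 ≤ u * (1 + Real.log u) ^ 2 / T := by positivity
  set P := B * u ^ (1 - η)
  set Q' := B * u / T ^ 2
  set R := u * (1 + Real.log u) ^ 2 / T with hRdef
  have e4 : (15 * u * (1 + Real.log u) ^ 2) * (2 / T) = 30 * R := by rw [hRdef]; ring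
  rw [e4] at hfin
  have h1 : 2 * Real.pi * ‖∑ n ∈ Icc 1 ⌊u⌋₊, a n * (1 - n / u) -
      κ * (u / 2 - 1 + 1 / (2 * u))‖ ≤ 2 * Real.pi * (10 * (P + Q' + R)) := by
    refine hfin.trans ?_
    nlinarith
  exact le_of_mul_le_mul_left h1 (by positivity)

/-- **Perron.** `a` a sequence with `|a n| ≤ 1 + log n`, whose Dirichlet series on `Re s > 1` is
`f(s) + κ/(s-1)`, `|κ| ≤ 1`; `f` analytic and bounded by `B` on `[1-η, 2] × [-T, T]`. Then for
`u ≥ 3` the Cesàro sum `∑_{n ≤ u} a_n (1 - n/u)` is `κ (u/2 - 1 + 1/(2u))` up to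
`C (B u^(1-η) + B u/T² + u (1 + log u)²/T)`.

Proof. `σ₀ = 1 + 1/log u ≤ 2`. By Mellin inversion (as in `mellin_hinge`, on the line `Re s = σ₀`:
`max 0 (1 - n/u) = (1/2π) ∫ (u/n)^(σ₀+iy)/((σ₀+iy)(σ₀+1+iy)) dy`; or first prove a
version of `mellin_hinge` with general `σ > 0`), and absolute convergence
(`∑ (1 + log n) n^(-σ₀) ≤ C (1 + log u)²`), the sum equals
`(1/2π) ∫ L(s) u^s/(s(s+1)) dy`, `L = LSeries a`, `s = σ₀ + iy`. In the same way (integrating the
formula over real `n ∈ [1, ∞)`, `∫_1^∞ n^(-s) dn = 1/(s-1)`) one has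
`∫_1^u (1 - n/u) dn = u/2 - 1 + 1/(2u) = (1/2π) ∫ u^s/((s-1) s (s+1)) dy`. Subtract: it remains to
bound `(1/2π) ∫ f(s) u^s/(s(s+1)) dy`. The part `|y| > T` is at most
`C (1 + log u)² e u/T`. For `|y| ≤ T` move to `Re s = 1 - η ≥ 1/2`
(`Complex.integral_boundary_rect_eq_zero_of_differentiableOn`): the new vertical side is at most
`B u^(1-η) ∫ dy/|s|² ≤ 10 B u^(1-η)`, the horizontal sides at most `2 B e u/T²` each. -/
theorem perron : ∃ C : ℝ, 0 < C ∧ ∀ (a : ℕ → ℂ) (f : ℂ → ℂ) (κ : ℂ) (η T B u : ℝ), ‖κ‖ ≤ 1 →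
    0 < η → η ≤ 1 / 2 → 1 ≤ T → 3 ≤ u → 1 ≤ B → (∀ n, 1 ≤ n → ‖a n‖ ≤ 1 + Real.log n) →
    AnalyticOnNhd ℂ f {s | 1 - η ≤ s.re ∧ s.re ≤ 2 ∧ |s.im| ≤ T} →
    (∀ s : ℂ, 1 - η ≤ s.re → s.re ≤ 2 → |s.im| ≤ T → ‖f s‖ ≤ B) →
    (∀ s : ℂ, 1 < s.re → f s = LSeries a s - κ / (s - 1)) →
    ‖∑ n ∈ Icc 1 ⌊u⌋₊, a n * (1 - n / u) - κ * (u / 2 - 1 + 1 / (2 * u))‖ ≤
      C * (B * u ^ (1 - η) + B * u / T ^ 2 + u * (1 + Real.log u) ^ 2 / T) :=
  ⟨10, by norm_num, fun a f κ η T B u hκ hη0 hη1 hT hu hB ha hf hfB hfL =>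
    PER_main a f κ η T B u hκ hη0 hη1 hT hu hB ha hf hfB hfL⟩

end Pool.Agent.Lib.H68T
end

-- from Lib.H68T.UNS
section

/-!
# Chunk UNS; part of PER: Perron's formula with Cesàro weights, contour shift
-/

open Finset MeasureTheory

namespace Pool.Agent.Lib.H68T

/-- **Removing the weight.** `S(u) = ∑_{n ≤ u} a_n (u - n)`, `|S(u)| ≤ κ u²` on `[u₀, 2u₁]`;
with `h = √κ u ≤ u`: `h ∑_{n ≤ u} a_n = S(u+h) - S(u) - ∑_{u < n ≤ u+h} a_n (u + h - n)`, hence
`|∑_{n ≤ u} a_n| ≤ 5 √κ u + (h + 1)(2 + log u) ≤ 20 √κ u (1 + log u)`. -/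
theorem unsmooth (a : ℕ → ℂ) (κ u₀ u₁ : ℝ) (hκ0 : 0 < κ) (hκ1 : κ ≤ 1) (hu₀ : 1 ≤ u₀)
    (hκu : 1 ≤ κ * u₀) (ha : ∀ n, 1 ≤ n → ‖a n‖ ≤ 1 + Real.log n)
    (h : ∀ u : ℝ, u₀ ≤ u → u ≤ 2 * u₁ → ‖∑ n ∈ Icc 1 ⌊u⌋₊, a n * (1 - n / u)‖ ≤ κ * u) :
    ∀ u : ℝ, u₀ ≤ u → u ≤ u₁ → ‖∑ n ∈ Icc 1 ⌊u⌋₊, a n‖ ≤
      20 * Real.sqrt κ * u * (1 + Real.log u) := by
  intro u hu0 hu1
  have hu1' : 1 ≤ u := hu₀.trans hu0
  have hupos : 0 < u := by linarith
  have hs0 : 0 < Real.sqrt κ := Real.sqrt_pos.mpr hκ0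
  have hs1 : Real.sqrt κ ≤ 1 := by
    rw [Real.sqrt_le_left (by norm_num)]; simpa using hκ1
  have hss : Real.sqrt κ * Real.sqrt κ = κ := Real.mul_self_sqrt hκ0.le
  set d : ℝ := Real.sqrt κ * u with hd
  have hdpos : 0 < d := by positivity
  have hdu : d ≤ u := by
    calc d ≤ 1 * u := mul_le_mul_of_nonneg_right hs1 hupos.le
      _ = u := one_mul u
  have hd1 : 1 ≤ d := by
    have h1 : 1 ≤ κ * u := hκu.trans (by gcongr)
    have h2 : κ * u ≤ d := by
      have h3 : κ ≤ Real.sqrt κ := by nlinarith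
      exact mul_le_mul_of_nonneg_right h3 hupos.le
    linarith
  -- the weighted sums
  have hS : ∀ z : ℝ, u₀ ≤ z → z ≤ 2 * u₁ →
      ‖∑ n ∈ Icc 1 ⌊z⌋₊, a n * ((z : ℂ) - n)‖ ≤ κ * z ^ 2 := by
    intro z hz0 hz1
    have hz : 0 < z := by linarith
    have e1 : ∑ n ∈ Icc 1 ⌊z⌋₊, a n * ((z : ℂ) - n) =
        (z : ℂ) * ∑ n ∈ Icc 1 ⌊z⌋₊, a n * (1 - n / z) := by
      rw [mul_sum]
      refine sum_congr rfl fun n _ => ?_
      have : (z : ℂ) ≠ 0 := by exact_mod_cast hz.ne'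
      field_simp
    rw [e1, norm_mul]
    have := h z hz0 hz1
    have e2 : ‖(z : ℂ)‖ = z := by
      rw [Complex.norm_real, Real.norm_of_nonneg hz.le]
    rw [e2]
    nlinarith
  have hA := hS u hu0 (by linarith)
  have hB := hS (u + d) (by linarith) (by linarith)
  -- splitting
  have hfl : ⌊u⌋₊ ≤ ⌊u + d⌋₊ := Nat.floor_mono (by linarith)
  have hsplit : ∑ n ∈ Icc 1 ⌊u + d⌋₊, a n * (((u + d : ℝ) : ℂ) - n) =
      ∑ n ∈ Icc 1 ⌊u⌋₊, a n * (((u + d : ℝ) : ℂ) - n) +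
      ∑ n ∈ Ioc ⌊u⌋₊ ⌊u + d⌋₊, a n * (((u + d : ℝ) : ℂ) - n) := by
    rw [← sum_union]
    · congr 1
      ext n
      simp only [mem_union, mem_Icc, mem_Ioc]
      omega
    · rw [disjoint_left]
      intro n hn hn'
      simp only [mem_Icc, mem_Ioc] at hn hn'
      omega
  have hid : (d : ℂ) * ∑ n ∈ Icc 1 ⌊u⌋₊, a n =
      ∑ n ∈ Icc 1 ⌊u + d⌋₊, a n * (((u + d : ℝ) : ℂ) - n) -
      ∑ n ∈ Icc 1 ⌊u⌋₊, a n * ((u : ℂ) - n) -
      ∑ n ∈ Ioc ⌊u⌋₊ ⌊u + d⌋₊, a n * (((u + d : ℝ) : ℂ) - n) := by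
    rw [hsplit, mul_sum]
    have : ∑ n ∈ Icc 1 ⌊u⌋₊, a n * (((u + d : ℝ) : ℂ) - n) =
        ∑ n ∈ Icc 1 ⌊u⌋₊, (d : ℂ) * a n + ∑ n ∈ Icc 1 ⌊u⌋₊, a n * ((u : ℂ) - n) := by
      rw [← sum_add_distrib]
      refine sum_congr rfl fun n _ => ?_
      push_cast
      ring
    rw [this]
    ring
  have hlast : ‖∑ n ∈ Ioc ⌊u⌋₊ ⌊u + d⌋₊, a n * (((u + d : ℝ) : ℂ) - n)‖ ≤
      (d + 1) * ((2 + Real.log u) * d) := by
    have h1 : ∀ n ∈ Ioc ⌊u⌋₊ ⌊u + d⌋₊, ‖a n * (((u + d : ℝ) : ℂ) - n)‖ ≤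
        (2 + Real.log u) * d := by
      intro n hn
      rw [mem_Ioc] at hn
      have hn1 : u < n := (Nat.floor_lt hupos.le).mp hn.1
      have hn2 : (n : ℝ) ≤ u + d := (Nat.le_floor_iff (by positivity)).mp hn.2
      rw [norm_mul]
      have h2 : ‖a n‖ ≤ 2 + Real.log u := by
        refine (ha n (by omega)).trans ?_
        have h3 : Real.log n ≤ Real.log (2 * u) :=
          Real.log_le_log (by linarith) (by linarith)
        rw [Real.log_mul (by norm_num) hupos.ne'] at h3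
        have := Real.log_two_lt_d9
        linarith
      have h3 : ‖((u + d : ℝ) : ℂ) - n‖ ≤ d := by
        have : ((u + d : ℝ) : ℂ) - n = ((u + d - n : ℝ) : ℂ) := by push_cast; ring
        rw [this, Complex.norm_real, Real.norm_eq_abs, abs_le]
        constructor <;> linarith
      have h4 : 0 ≤ Real.log u := Real.log_nonneg hu1'
      exact mul_le_mul h2 h3 (norm_nonneg _) (by linarith)
    refine (norm_sum_le _ _).trans ((sum_le_sum h1).trans ?_)
    rw [sum_const, Nat.card_Ioc, nsmul_eq_mul]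
    have h4 : 0 ≤ Real.log u := Real.log_nonneg hu1'
    refine mul_le_mul_of_nonneg_right ?_ (by positivity)
    rw [Nat.cast_sub hfl]
    have := Nat.floor_le (show 0 ≤ u + d by positivity)
    have := Nat.lt_floor_add_one u
    linarith
  have hlog : 0 ≤ Real.log u := Real.log_nonneg hu1'
  have hmain : d * ‖∑ n ∈ Icc 1 ⌊u⌋₊, a n‖ ≤ κ * (u + d) ^ 2 + κ * u ^ 2 +
      (d + 1) * ((2 + Real.log u) * d) := by
    have e1 : d * ‖∑ n ∈ Icc 1 ⌊u⌋₊, a n‖ = ‖(d : ℂ) * ∑ n ∈ Icc 1 ⌊u⌋₊, a n‖ := by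
      rw [norm_mul, Complex.norm_real, Real.norm_of_nonneg hdpos.le]
    rw [e1, hid]
    refine (norm_sub_le _ _).trans (add_le_add ((norm_sub_le _ _).trans (add_le_add hB hA)) hlast)
  have hκd : κ * u = Real.sqrt κ * d := by rw [hd, ← mul_assoc, hss]
  have h5 : κ * (u + d) ^ 2 + κ * u ^ 2 ≤ 5 * (d * d) := by
    have h6 : κ * u ^ 2 = d * d := by rw [hd]; nlinarith [hss]
    have h7 : (u + d) ^ 2 ≤ 4 * u ^ 2 := by nlinarith
    nlinarith
  have h8 : (d + 1) * ((2 + Real.log u) * d) ≤ (2 * d) * ((2 + Real.log u) * d) := by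
    gcongr; linarith
  have h9 : d * ‖∑ n ∈ Icc 1 ⌊u⌋₊, a n‖ ≤ d * (20 * d * (1 + Real.log u)) := by
    refine hmain.trans ?_
    have : 0 ≤ d * d * Real.log u := by positivity
    nlinarith [mul_pos hdpos hdpos]
  have h10 := le_of_mul_le_mul_left h9 hdpos
  calc _ ≤ 20 * d * (1 + Real.log u) := h10
    _ = _ := by rw [hd]; ring

end Pool.Agent.Lib.H68T
end

-- from Lib.H68X.XL1
section

/-!
# Chunk XL1: an elementary lower bound for `L(1,ψ)`
-/

open Finset

namespace Pool.Agent.Lib.H68T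

section zetaMul

open scoped ComplexOrder
open ArithmeticFunction hiding log
open DirichletCharacter

theorem XL1_zm_prime {N : ℕ} {χ : DirichletCharacter ℂ N} (hχ : χ ^ 2 = 1) {p : ℕ}
    (hp : p.Prime) (k : ℕ) : 1 ≤ zetaMul χ (p ^ (2 * k)) := by
  have h0 : zetaMul χ (p ^ (2 * k)) = ∑ i ∈ range (2 * k + 1), (χ (p : ZMod N)) ^ i := by
    rw [zetaMul, coe_zeta_mul_apply, Nat.sum_divisors_prime_pow hp]
    refine sum_congr rfl fun i _ => ?_
    show (if p ^ i = 0 then (0 : ℂ) else χ ((p ^ i : ℕ) : ZMod N)) = _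
    rw [if_neg (pow_ne_zero _ hp.ne_zero)]
    push_cast
    rw [map_pow]
  rw [h0]
  rcases MulChar.isQuadratic_iff_sq_eq_one.mpr hχ p with h | h | h
  · rw [h, sum_range_succ']
    simp
  · rw [h]
    simp only [one_pow, sum_const, card_range, nsmul_eq_mul, mul_one]
    have : (1 : ℂ) ≤ ((2 * k + 1 : ℕ) : ℂ) := by
      rw [← Nat.cast_one]
      exact_mod_cast (by omega : 1 ≤ 2 * k + 1)
    exact this
  · rw [h, neg_one_geom_sum, if_neg]
    rw [Nat.not_even_iff_odd]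
    exact ⟨k, rfl⟩

theorem XL1_zm_sq {N : ℕ} {χ : DirichletCharacter ℂ N} (hχ : χ ^ 2 = 1) {m : ℕ} (hm : m ≠ 0) :
    1 ≤ zetaMul χ (m ^ 2) := by
  rw [χ.isMultiplicative_zetaMul.multiplicative_factorization _ (pow_ne_zero 2 hm)]
  rw [Finsupp.prod]
  refine Finset.prod_induction _ (fun z : ℂ => 1 ≤ z) ?_ le_rfl ?_
  · intro a b ha hb
    exact one_le_mul_of_one_le_of_one_le ha hb
  · intro p hp
    rw [Nat.support_factorization] at hp
    have h1 : (m ^ 2).factorization p = 2 * m.factorization p := by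
      rw [Nat.factorization_pow]
      rfl
    rw [h1]
    exact XL1_zm_prime hχ (Nat.prime_of_mem_primeFactors hp) _

theorem XL1_zm_re {N : ℕ} {χ : DirichletCharacter ℂ N} (hχ : χ ^ 2 = 1) (n : ℕ) :
    0 ≤ (zetaMul χ n).re := by
  have := (Complex.le_def.1 (zetaMul_nonneg hχ n)).1
  simpa using this

theorem XL1_zm_sq_re {N : ℕ} {χ : DirichletCharacter ℂ N} (hχ : χ ^ 2 = 1) {m : ℕ} (hm : m ≠ 0) :
    1 ≤ (zetaMul χ (m ^ 2)).re := by
  have := (Complex.le_def.1 (XL1_zm_sq hχ hm)).1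
  simpa using this

theorem XL1_zm_eq {N : ℕ} (χ : DirichletCharacter ℂ N) (n : ℕ) :
    zetaMul χ n = ∑ d ∈ n.divisors, χ (d : ZMod N) := by
  rw [zetaMul, coe_zeta_mul_apply]
  refine sum_congr rfl fun d hd => ?_
  show (if d = 0 then (0 : ℂ) else χ (d : ZMod N)) = _
  rw [if_neg (Nat.pos_of_mem_divisors hd).ne']

end zetaMul

theorem XL1_swap (K : ℕ) (f : ℕ → ℕ → ℂ) :
    ∑ n ∈ Ioc 0 K, ∑ d ∈ n.divisors, f d n = ∑ d ∈ Ioc 0 K, ∑ e ∈ Ioc 0 (K / d), f d (d * e) := by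
  have h1 : ∀ n ∈ Ioc 0 K, ∑ d ∈ n.divisors, f d n =
      ∑ d ∈ Ioc 0 K, if d ∣ n then f d n else 0 := by
    intro n hn
    obtain ⟨hn1, hn2⟩ := mem_Ioc.1 hn
    rw [← sum_filter]
    refine sum_congr ?_ fun _ _ => rfl
    ext d
    simp only [Nat.mem_divisors, mem_filter, mem_Ioc]
    constructor
    · rintro ⟨h1, h2⟩
      exact ⟨⟨Nat.pos_of_dvd_of_pos h1 hn1, (Nat.le_of_dvd hn1 h1).trans hn2⟩, h1⟩
    · rintro ⟨-, h1⟩
      exact ⟨h1, by omega⟩
  rw [sum_congr rfl h1, sum_comm]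
  refine sum_congr rfl fun d hd => ?_
  have hd0 : 0 < d := (mem_Ioc.1 hd).1
  rw [← sum_filter]
  symm
  refine sum_nbij (fun e => d * e) ?_ ?_ ?_ ?_
  · intro e he
    obtain ⟨he1, he2⟩ := mem_Ioc.1 he
    rw [mem_filter, mem_Ioc]
    refine ⟨⟨Nat.mul_pos hd0 he1, ?_⟩, dvd_mul_right _ _⟩
    have := (Nat.le_div_iff_mul_le hd0).1 he2
    rwa [mul_comm] at this
  · intro e _ e' _ h
    exact Nat.eq_of_mul_eq_mul_left hd0 h
  · intro n hn
    rw [mem_coe, mem_filter, mem_Ioc] at hn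
    obtain ⟨⟨h1, h2⟩, e, rfl⟩ := hn
    refine ⟨e, ?_, rfl⟩
    rw [mem_coe, mem_Ioc]
    refine ⟨Nat.pos_of_mul_pos_left h1, ?_⟩
    rw [Nat.le_div_iff_mul_le hd0, mul_comm]
    exact h2
  · intro e _
    rfl

/-- `1 + t + ... + t^(n-1) ≥ n s^(n-1)`, `t = s²` -/
theorem XL1_geom (s : ℝ) (n : ℕ) :
    (n : ℝ) * s ^ (n - 1) ≤ ∑ i ∈ range n, (s ^ 2) ^ i := by
  have h1 : ∑ i ∈ range n, (s ^ 2) ^ (n - 1 - i) = ∑ i ∈ range n, (s ^ 2) ^ i :=
    sum_range_reflect (fun i => (s ^ 2) ^ i) n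
  have h2 : ∑ i ∈ range n, (2 * s ^ (n - 1)) ≤
      ∑ i ∈ range n, ((s ^ 2) ^ i + (s ^ 2) ^ (n - 1 - i)) := by
    refine sum_le_sum fun i hi => ?_
    have hi' := mem_range.1 hi
    have h3 : s ^ (n - 1) = s ^ i * s ^ (n - 1 - i) := by
      rw [← pow_add]
      congr 1
      omega
    rw [h3, ← pow_mul, ← pow_mul, mul_comm 2 i, mul_comm 2 (n - 1 - i), pow_mul, pow_mul]
    nlinarith [sq_nonneg (s ^ i - s ^ (n - 1 - i))]
  rw [sum_add_distrib, h1, sum_const, card_range, nsmul_eq_mul] at h2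
  linarith

/-- the coefficients of Monsky's proof -/
noncomputable def XL1_b (t : ℝ) (k : ℕ) : ℝ :=
  1 / ((k + 1) * (1 - t)) - t ^ (k + 1) / (1 - t ^ (k + 1))

theorem XL1_b_zero {t : ℝ} (ht1 : t < 1) : XL1_b t 0 = 1 := by
  unfold XL1_b
  have : 1 - t ≠ 0 := by linarith
  simp only [Nat.cast_zero, zero_add, one_mul, pow_one]
  field_simp

theorem XL1_g {t : ℝ} (ht1 : t < 1) (n : ℕ) :
    1 - t ^ n = (1 - t) * ∑ i ∈ range n, t ^ i := by
  have := mul_neg_geom_sum t n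
  rw [← this]

theorem XL1_b_anti {t : ℝ} (ht0 : 0 < t) (ht1 : t < 1) (k : ℕ) :
    XL1_b t (k + 1) ≤ XL1_b t k := by
  set s := √t with hs
  have hs2 : s ^ 2 = t := Real.sq_sqrt ht0.le
  have hs0 : 0 < s := Real.sqrt_pos.2 ht0
  have hs1 : s ≤ 1 := Real.sqrt_le_one.2 ht1.le
  have h1 := XL1_geom s (k + 1)
  have h2 := XL1_geom s (k + 2)
  rw [hs2] at h1 h2
  set g1 := ∑ i ∈ range (k + 1), t ^ i with hg1
  set g2 := ∑ i ∈ range (k + 2), t ^ i with hg2
  have e1 : 1 - t ^ (k + 1) = (1 - t) * g1 := XL1_g ht1 _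
  have e2 : 1 - t ^ (k + 2) = (1 - t) * g2 := XL1_g ht1 _
  have ht' : 0 < 1 - t := by linarith
  have hg1p : 0 < g1 := sum_pos (fun i _ => pow_pos ht0 i) ⟨0, mem_range.2 (by omega)⟩
  have hg2p : 0 < g2 := sum_pos (fun i _ => pow_pos ht0 i) ⟨0, mem_range.2 (by omega)⟩
  have h3 : ((k : ℝ) + 1) * (k + 2) * t ^ (k + 1) ≤ g1 * g2 := by
    have h4 : ((k : ℝ) + 1) * s ^ k ≤ g1 := by
      have : k + 1 - 1 = k := rfl
      rw [this] at h1
      push_cast at h1
      exact h1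
    have h5 : ((k : ℝ) + 2) * s ^ (k + 1) ≤ g2 := by
      have : k + 2 - 1 = k + 1 := rfl
      rw [this] at h2
      push_cast at h2
      exact h2
    have h6 : (((k : ℝ) + 1) * s ^ k) * (((k : ℝ) + 2) * s ^ (k + 1)) ≤ g1 * g2 :=
      mul_le_mul h4 h5 (by positivity) hg1p.le
    refine le_trans ?_ h6
    have h7 : t ^ (k + 1) ≤ s ^ k * s ^ (k + 1) := by
      rw [← hs2, ← pow_mul, ← pow_add]
      exact pow_le_pow_of_le_one hs0.le hs1 (by omega)
    calc ((k : ℝ) + 1) * (k + 2) * t ^ (k + 1) ≤ ((k : ℝ) + 1) * (k + 2) * (s ^ k * s ^ (k + 1)) :=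
          mul_le_mul_of_nonneg_left h7 (by positivity)
      _ = _ := by ring
  unfold XL1_b
  have e3 : k + 1 + 1 = k + 2 := rfl
  rw [e3, e1, e2]
  push_cast
  have h8 : t ^ (k + 1) / ((1 - t) * g1) - t ^ (k + 2) / ((1 - t) * g2) =
      t ^ (k + 1) / ((1 - t) * (g1 * g2)) := by
    have h9 : t ^ (k + 1) * g2 - t ^ (k + 2) * g1 = t ^ (k + 1) := by
      have h10 : g2 = g1 + t ^ (k + 1) := by rw [hg2, hg1, sum_range_succ]
      have h11 : t ^ (k + 2) = t ^ (k + 1) * t := pow_succ _ _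
      rw [h10, h11]
      have : t ^ (k + 1) * (g1 + t ^ (k + 1)) - t ^ (k + 1) * t * g1 =
          t ^ (k + 1) * ((1 - t) * g1 + t ^ (k + 1)) := by ring
      rw [this, ← e1]
      ring
    rw [div_sub_div _ _ (by positivity) (by positivity), div_eq_div_iff (by positivity) (by positivity)]
    calc (t ^ (k + 1) * ((1 - t) * g2) - (1 - t) * g1 * t ^ (k + 2)) * ((1 - t) * (g1 * g2))
        = (t ^ (k + 1) * g2 - t ^ (k + 2) * g1) * ((1 - t) * ((1 - t) * (g1 * g2))) := by ring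
      _ = _ := by rw [h9]; ring
  have h12 : t ^ (k + 1) / ((1 - t) * (g1 * g2)) ≤ 1 / ((1 - t) * (((k : ℝ) + 1) * (k + 2))) := by
    rw [div_le_div_iff₀ (by positivity) (by positivity)]
    nlinarith
  have h13 : 1 / (((k : ℝ) + 1) * (1 - t)) - 1 / (((k : ℝ) + 1 + 1) * (1 - t)) =
      1 / ((1 - t) * (((k : ℝ) + 1) * (k + 2))) := by
    have : (k : ℝ) + 1 + 1 = k + 2 := by ring
    rw [this, div_sub_div _ _ (by positivity) (by positivity),
      div_eq_div_iff (by positivity) (by positivity)]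
    ring
  linarith

theorem XL1_b_nonneg {t : ℝ} (ht0 : 0 < t) (ht1 : t < 1) (k : ℕ) : 0 ≤ XL1_b t k := by
  unfold XL1_b
  have ht' : 0 < 1 - t := by linarith
  set g1 := ∑ i ∈ range (k + 1), t ^ i with hg1
  have e1 : 1 - t ^ (k + 1) = (1 - t) * g1 := XL1_g ht1 _
  have hg1p : 0 < g1 := sum_pos (fun i _ => pow_pos ht0 i) ⟨0, mem_range.2 (by omega)⟩
  have h1 : ((k : ℝ) + 1) * t ^ (k + 1) ≤ g1 := by
    have : ∑ i ∈ range (k + 1), t ^ (k + 1) ≤ g1 := by
      refine sum_le_sum fun i hi => ?_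
      exact pow_le_pow_of_le_one ht0.le ht1.le (mem_range.1 hi).le
    rw [sum_const, card_range, nsmul_eq_mul] at this
    push_cast at this
    exact this
  rw [e1, sub_nonneg, div_le_div_iff₀ (by positivity) (by positivity)]
  nlinarith

theorem XL1_abel (r : ℕ) [NeZero r] (ψ : DirichletCharacter ℂ r) (hψ : ψ ≠ 1) {t : ℝ}
    (ht0 : 0 < t) (ht1 : t < 1) (K : ℕ) :
    ‖∑ k ∈ range K, ψ ((k + 1 : ℕ) : ZMod r) * (XL1_b t k : ℂ)‖ ≤ r := by
  rw [gl1_parts ψ (fun k => (XL1_b t k : ℂ)) K]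
  have h1 : ‖gl1_T ψ K * (XL1_b t K : ℂ)‖ ≤ r * XL1_b t K := by
    rw [norm_mul, Complex.norm_real, Real.norm_of_nonneg (XL1_b_nonneg ht0 ht1 K)]
    exact mul_le_mul_of_nonneg_right (gl1_T_bound r ψ hψ K) (XL1_b_nonneg ht0 ht1 K)
  have h2 : ‖∑ n ∈ range K, gl1_T ψ (n + 1) * ((XL1_b t n : ℂ) - (XL1_b t (n + 1) : ℂ))‖ ≤
      r * (XL1_b t 0 - XL1_b t K) := by
    refine (norm_sum_le _ _).trans ?_
    have h3 : XL1_b t 0 - XL1_b t K = ∑ n ∈ range K, (XL1_b t n - XL1_b t (n + 1)) :=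
      (sum_range_sub' _ _).symm
    rw [h3, mul_sum]
    refine sum_le_sum fun n _ => ?_
    have h4 : (XL1_b t n : ℂ) - (XL1_b t (n + 1) : ℂ) = ((XL1_b t n - XL1_b t (n + 1) : ℝ) : ℂ) := by
      push_cast; rfl
    have h5 : 0 ≤ XL1_b t n - XL1_b t (n + 1) := sub_nonneg.2 (XL1_b_anti ht0 ht1 n)
    rw [h4, norm_mul, Complex.norm_real, Real.norm_of_nonneg h5]
    exact mul_le_mul_of_nonneg_right (gl1_T_bound r ψ hψ _) h5
  refine (norm_add_le _ _).trans ((add_le_add h1 h2).trans (le_of_eq ?_))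
  rw [XL1_b_zero ht1]
  ring

theorem XL1_F (r : ℕ) (ψ : DirichletCharacter ℂ r)
    (hψ2 : ψ ^ 2 = 1) {t : ℝ} (ht0 : 0 < t) (ht1 : t < 1) {K M : ℕ} (hK : M ^ 2 ≤ K) :
    (∑ m ∈ Ioc 0 M, t ^ (m ^ 2)) - K * (t ^ K / (1 - t)) ≤
      (∑ k ∈ range K, ψ ((k + 1 : ℕ) : ZMod r) * ((t ^ (k + 1) / (1 - t ^ (k + 1)) : ℝ) : ℂ)).re := by
  have ht' : 0 < 1 - t := by linarith
  -- reindex
  have e0 : ∑ k ∈ range K, ψ ((k + 1 : ℕ) : ZMod r) * ((t ^ (k + 1) / (1 - t ^ (k + 1)) : ℝ) : ℂ) =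
      ∑ d ∈ Ioc 0 K, ψ (d : ZMod r) * ((t ^ d / (1 - t ^ d) : ℝ) : ℂ) := by
    have h4 : Ioc 0 K = Ico 1 (K + 1) := by
      ext x
      simp only [mem_Ioc, mem_Ico]
      omega
    rw [h4, sum_Ico_eq_sum_range]
    refine sum_congr rfl fun n _ => ?_
    rw [add_comm 1 n]
  have e1 : ∀ d ∈ Ioc 0 K, ψ (d : ZMod r) * ((t ^ d / (1 - t ^ d) : ℝ) : ℂ) =
      ∑ e ∈ Ioc 0 (K / d), ψ (d : ZMod r) * ((t ^ (d * e) : ℝ) : ℂ) +
        ψ (d : ZMod r) * ((t ^ (d * (K / d + 1)) / (1 - t ^ d) : ℝ) : ℂ) := by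
    intro d hd
    have hd0 : d ≠ 0 := by have := (mem_Ioc.1 hd).1; omega
    have htd : t ^ d < 1 := pow_lt_one₀ ht0.le ht1 hd0
    have htd' : 1 - t ^ d ≠ 0 := by linarith
    rw [← mul_sum, ← mul_add]
    congr 1
    rw [← Complex.ofReal_sum, ← Complex.ofReal_add]
    congr 1
    have h4 : Ioc 0 (K / d) = Ico 1 (K / d + 1) := by
      ext x
      simp only [mem_Ioc, mem_Ico]
      omega
    rw [h4, sum_Ico_eq_sum_range, Nat.add_sub_cancel]
    have h5 : ∑ k ∈ range (K / d), t ^ (d * (1 + k)) = t ^ d * ∑ k ∈ range (K / d), (t ^ d) ^ k := by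
      rw [mul_sum]
      refine sum_congr rfl fun k _ => ?_
      rw [← pow_mul, ← pow_add]
      congr 1
      ring
    have h6 := mul_neg_geom_sum (t ^ d) (K / d)
    have h7 : ∑ k ∈ range (K / d), (t ^ d) ^ k = (1 - (t ^ d) ^ (K / d)) / (1 - t ^ d) := by
      rw [eq_div_iff htd', mul_comm, h6]
    rw [h5, h7, mul_add, pow_add, mul_one, pow_mul]
    field_simp
    ring
  rw [e0, sum_congr rfl e1, sum_add_distrib,
    ← XL1_swap K (fun d n => ψ (d : ZMod r) * ((t ^ n : ℝ) : ℂ)), Complex.add_re]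
  have h1 : ∑ m ∈ Ioc 0 M, t ^ (m ^ 2) ≤
      (∑ n ∈ Ioc 0 K, ∑ d ∈ n.divisors, ψ (d : ZMod r) * ((t ^ n : ℝ) : ℂ)).re := by
    have h2 : (∑ n ∈ Ioc 0 K, ∑ d ∈ n.divisors, ψ (d : ZMod r) * ((t ^ n : ℝ) : ℂ)).re =
        ∑ n ∈ Ioc 0 K, (DirichletCharacter.zetaMul ψ n).re * t ^ n := by
      rw [Complex.re_sum]
      refine sum_congr rfl fun n _ => ?_
      rw [← sum_mul, ← XL1_zm_eq, Complex.re_mul_ofReal]
    rw [h2]
    have h3 : ∑ n ∈ (Ioc 0 M).image (fun m => m ^ 2), (DirichletCharacter.zetaMul ψ n).re * t ^ n ≤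
        ∑ n ∈ Ioc 0 K, (DirichletCharacter.zetaMul ψ n).re * t ^ n := by
      refine sum_le_sum_of_subset_of_nonneg ?_ ?_
      · intro n hn
        obtain ⟨m, hm, rfl⟩ := mem_image.1 hn
        obtain ⟨hm1, hm2⟩ := mem_Ioc.1 hm
        rw [mem_Ioc]
        exact ⟨by positivity, (Nat.pow_le_pow_left hm2 2).trans hK⟩
      · intro n _ _
        exact mul_nonneg (XL1_zm_re hψ2 n) (by positivity)
    refine le_trans ?_ h3
    rw [sum_image]
    · refine sum_le_sum fun m hm => ?_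
      have hm1 := (mem_Ioc.1 hm).1
      have := XL1_zm_sq_re hψ2 (m := m) (by omega)
      exact le_mul_of_one_le_left (by positivity) this
    · intro a _ b _ hab
      exact Nat.pow_left_injective (n := 2) (by norm_num) hab
  have h8 : -(K * (t ^ K / (1 - t))) ≤
      (∑ d ∈ Ioc 0 K, ψ (d : ZMod r) * ((t ^ (d * (K / d + 1)) / (1 - t ^ d) : ℝ) : ℂ)).re := by
    refine le_trans ?_ (neg_le_of_abs_le (Complex.abs_re_le_norm _))
    rw [neg_le_neg_iff]
    refine (norm_sum_le _ _).trans ((sum_le_sum (g := fun _ => t ^ K / (1 - t)) ?_).trans ?_)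
    · intro d hd
      have hd1 : 0 < d := (mem_Ioc.1 hd).1
      have hd0 : d ≠ 0 := by omega
      have htd : t ^ d < 1 := pow_lt_one₀ ht0.le ht1 hd0
      have htd' : 0 < 1 - t ^ d := by linarith
      rw [norm_mul, Complex.norm_real, Real.norm_of_nonneg (by positivity)]
      have h9 : t ^ (d * (K / d + 1)) / (1 - t ^ d) ≤ t ^ K / (1 - t) := by
        refine div_le_div₀ (by positivity) ?_ ht' ?_
        · exact pow_le_pow_of_le_one ht0.le ht1.le (Nat.lt_mul_div_succ K hd1).le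
        · have : t ^ d ≤ t := pow_le_of_le_one ht0.le ht1.le hd0
          linarith
      calc _ ≤ 1 * (t ^ K / (1 - t)) :=
            mul_le_mul (DirichletCharacter.norm_le_one ψ _) h9 (by positivity) (by norm_num)
        _ = _ := one_mul _
    · rw [sum_const, Nat.card_Ioc, Nat.sub_zero, nsmul_eq_mul]
  linarith

/-- `|L(1,ψ)| ≥ 1/(100 r)` for a real character `ψ ≠ 1` mod `r`.

Proof (Lambert series). `a(n) = ∑_{d ∣ n} ψ(d) ≥ 0` (real part; multiplicative), `a(n) ≥ 1` for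
squares (`DirichletCharacter` file on `BadChar`/nonvanishing has `zetaMul_nonneg`). For `x ≥ 1`:
`∑_n a(n) e^(-n/x) = ∑_d ψ(d)/(e^(d/x) - 1) = x L(1,ψ) + ∑_d ψ(d) g(d/x)`,
`g(u) = 1/(e^u - 1) - 1/u`, increasing from `-1/2` to `0` on `(0, ∞)`; the partial sums of `ψ` are
at most `r` in norm, so the last sum is at most `r/2·1`... (Abel summation: `≤ r · 1/2`). The left
side is at least `∑_{m ≤ √x} e^(-1) ≥ (√x - 1)/e`. With `x = 16 r²`:
`16 r² L(1,ψ) ≥ (4r - 1)/e - r/2 ≥ r/2`. (`L(1,ψ) = ∑ ψ(d)/d`, conditionally convergent: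
`DirichletCharacter.LFunction` at `1` is the limit of the partial sums; or work with `e^(-n/x)` and
`s → 1+`, any argument is fine. The constant `100` is not important.) -/
theorem L1_lower (r : ℕ) [NeZero r] (ψ : DirichletCharacter ℂ r) (hψ : ψ ≠ 1)
    (hψ2 : ψ ^ 2 = 1) : 1 / (100 * (r : ℝ)) ≤ ‖ψ.LFunction 1‖ := by
  have hr1 : 1 ≤ r := Nat.one_le_iff_ne_zero.2 (NeZero.ne r)
  have hr : (1 : ℝ) ≤ r := by exact_mod_cast hr1
  set N : ℝ := 64 * (r : ℝ) ^ 2 with hN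
  have hN0 : 0 < N := by positivity
  have hN64 : 64 ≤ N := by rw [hN]; nlinarith
  set t : ℝ := 1 - 1 / N with ht
  have htN : 1 - t = 1 / N := by rw [ht]; ring
  have hNi : 1 / N ≤ 1 / 64 := one_div_le_one_div_of_le (by norm_num) hN64
  have hNi0 : 0 < 1 / N := by positivity
  have ht0 : 0 < t := by rw [ht]; linarith
  have ht1 : t < 1 := by rw [ht]; linarith
  have hinv : 1 / (1 - t) = N := by rw [htN, one_div_one_div]
  -- powers of t
  have hpow : (1 / 4 : ℝ) ≤ t ^ (64 * r ^ 2) := by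
    have h1 := one_add_mul_le_pow (a := -(1 / N)) (by linarith) (32 * r ^ 2)
    have h2 : 1 + ((32 * r ^ 2 : ℕ) : ℝ) * -(1 / N) = 1 / 2 := by
      push_cast
      rw [hN]
      have : (r : ℝ) ^ 2 ≠ 0 := by positivity
      field_simp
      norm_num
    rw [h2] at h1
    have h3 : 1 + -(1 / N) = t := by rw [ht]; ring
    rw [h3] at h1
    have h4 : t ^ (64 * r ^ 2) = (t ^ (32 * r ^ 2)) ^ 2 := by
      rw [← pow_mul]
      congr 1
      ring
    rw [h4]
    nlinarith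
  have hsum : 2 * (r : ℝ) ≤ ∑ m ∈ Ioc 0 (8 * r), t ^ (m ^ 2) := by
    have h1 : ∑ m ∈ Ioc 0 (8 * r), (1 / 4 : ℝ) ≤ ∑ m ∈ Ioc 0 (8 * r), t ^ (m ^ 2) := by
      refine sum_le_sum fun m hm => hpow.trans ?_
      refine pow_le_pow_of_le_one ht0.le ht1.le ?_
      have := (mem_Ioc.1 hm).2
      nlinarith
    rw [sum_const, Nat.card_Ioc, Nat.sub_zero, nsmul_eq_mul] at h1
    push_cast at h1
    linarith
  have key : ∀ K : ℕ, 64 * r ^ 2 ≤ K →
      (r : ℝ) - N * (K * t ^ K) - N * (2 * r / (K + 1)) ≤ N * ‖ψ.LFunction 1‖ := by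
    intro K hK
    have h1 := XL1_abel r ψ hψ ht0 ht1 K
    have h2 := XL1_F r ψ hψ2 ht0 ht1 (K := K) (M := 8 * r) (by nlinarith)
    have h3 := XRH_tail r ψ hψ K
    set FK := ∑ k ∈ range K, ψ ((k + 1 : ℕ) : ZMod r) * ((t ^ (k + 1) / (1 - t ^ (k + 1)) : ℝ) : ℂ)
      with hFK
    set SK := ∑ d ∈ Ioc 0 K, ψ (d : ZMod r) / d with hSK
    have h4 : ∑ k ∈ range K, ψ ((k + 1 : ℕ) : ZMod r) * (XL1_b t k : ℂ) = (N : ℂ) * SK - FK := by
      have h5 : SK = ∑ n ∈ range K, ψ ((n + 1 : ℕ) : ZMod r) * ((1 : ℂ) / (n + 1)) := by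
        have h4 : Ioc 0 K = Ico 1 (K + 1) := by
          ext x
          simp only [mem_Ioc, mem_Ico]
          omega
        rw [hSK, h4, sum_Ico_eq_sum_range]
        refine sum_congr rfl fun n _ => ?_
        rw [add_comm 1 n]
        push_cast
        ring
      rw [h5, hFK, mul_sum, ← sum_sub_distrib]
      refine sum_congr rfl fun k _ => ?_
      have h6 : XL1_b t k = N * (1 / ((k : ℝ) + 1)) - t ^ (k + 1) / (1 - t ^ (k + 1)) := by
        unfold XL1_b
        rw [← hinv]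
        congr 1
        rw [div_mul_div_comm, one_mul, mul_comm]
      rw [h6]
      push_cast
      ring
    rw [h4] at h1
    have h7 : FK.re ≤ r + N * ‖SK‖ := by
      have h8 : ‖FK‖ ≤ ‖(N : ℂ) * SK - FK‖ + ‖(N : ℂ) * SK‖ := by
        have : FK = (N : ℂ) * SK - ((N : ℂ) * SK - FK) := by ring
        nth_rewrite 1 [this]
        refine (norm_sub_le _ _).trans (le_of_eq (add_comm _ _))
      have h9 : ‖(N : ℂ) * SK‖ = N * ‖SK‖ := by
        rw [norm_mul, Complex.norm_real, Real.norm_of_nonneg hN0.le]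
      have h10 := Complex.re_le_norm FK
      linarith
    have h11 : ‖SK‖ ≤ ‖ψ.LFunction 1‖ + 2 * r / (K + 1) := by
      have : SK = ψ.LFunction 1 - (ψ.LFunction 1 - SK) := by ring
      rw [this]
      refine (norm_sub_le _ _).trans (by linarith)
    have h12 : (K : ℝ) * (t ^ K / (1 - t)) = N * (K * t ^ K) := by
      rw [← hinv]
      ring
    rw [h12] at h2
    have h13 := mul_le_mul_of_nonneg_left h11 hN0.le
    rw [mul_add] at h13
    linarith
  have hlim : Filter.Tendsto (fun K : ℕ => (r : ℝ) - N * (K * t ^ K) - N * (2 * r / (K + 1)))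
      Filter.atTop (nhds ((r : ℝ) - N * 0 - N * 0)) := by
    refine ((tendsto_const_nhds).sub (Filter.Tendsto.const_mul _ ?_)).sub
      (Filter.Tendsto.const_mul _ ?_)
    · exact tendsto_self_mul_const_pow_of_lt_one ht0.le ht1
    · have h1 := (tendsto_one_div_add_atTop_nhds_zero_nat (𝕜 := ℝ)).const_mul (2 * (r : ℝ))
      rw [mul_zero] at h1
      refine h1.congr fun K => ?_
      ring
  have hfin : (r : ℝ) - N * 0 - N * 0 ≤ N * ‖ψ.LFunction 1‖ :=
    le_of_tendsto hlim ((Filter.eventually_ge_atTop (64 * r ^ 2)).mono fun K hK => key K hK)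
  have h1 : (r : ℝ) ≤ 64 * (r : ℝ) ^ 2 * ‖ψ.LFunction 1‖ := by
    rw [← hN]; linarith
  rw [div_le_iff₀ (by positivity)]
  have h2 : (r : ℝ) * 1 ≤ r * (64 * (r : ℝ) * ‖ψ.LFunction 1‖) := by nlinarith
  have h3 := le_of_mul_le_mul_left h2 (by linarith)
  have h4 : 0 ≤ (r : ℝ) * ‖ψ.LFunction 1‖ := by positivity
  nlinarith

end Pool.Agent.Lib.H68T
end

-- from Lib.H68X.XSIE
section

/-!
# Chunk XSIE: real zeros, elementary bound
-/

open Finset

namespace Pool.Agent.Lib.H68T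

/-- Cauchy estimate for the derivative of `L(·,ψ)` near `1`. -/
theorem XSIE_deriv (r : ℕ) [NeZero r] (ψ : DirichletCharacter ℂ r) (hψ : ψ ≠ 1) (σ : ℝ)
    (h1 : 3 / 4 ≤ σ) (h2 : σ ≤ 1) : ‖deriv ψ.LFunction (σ : ℂ)‖ ≤ 10 * r := by
  have hd : Differentiable ℂ ψ.LFunction := DirichletCharacter.differentiable_LFunction hψ
  have hr : (0 : ℝ) ≤ r := Nat.cast_nonneg r
  have hb : ∀ z ∈ Metric.sphere (σ : ℂ) (1 / 4), ‖ψ.LFunction z‖ ≤ 5 / 2 * r := by
    intro z hz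
    rw [mem_sphere_iff_norm] at hz
    have hre : |z.re - σ| ≤ 1 / 4 := by
      have := Complex.abs_re_le_norm (z - σ)
      rw [hz] at this
      simpa using this
    have hre1 : (1 : ℝ) / 2 ≤ z.re := by
      have := (abs_le.1 hre).1
      linarith
    have hz2 : ‖z‖ ≤ 5 / 4 := by
      have h3 : ‖z‖ ≤ ‖z - σ‖ + ‖(σ : ℂ)‖ := by
        have := norm_add_le (z - σ) (σ : ℂ)
        simpa using this
      rw [hz, Complex.norm_real, Real.norm_eq_abs, abs_of_nonneg (by linarith)] at h3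
      linarith
    have h4 := LFunction_bound r ψ hψ z (by linarith)
    refine h4.trans ?_
    nlinarith
  have := Complex.norm_deriv_le_of_forall_mem_sphere_norm_le (c := (σ : ℂ)) (R := 1 / 4)
    (C := 5 / 2 * r) (f := ψ.LFunction) (by norm_num) hd.diffContOnCl hb
  refine this.trans (le_of_eq ?_)
  ring

/-- A real zero `β < 1` of `L(·,ψ)` satisfies `1 - β ≥ c/r²`. If `β ≤ 3/4` clear. Otherwise
`|L(1)| = |L(1) - L(β)| ≤ (1-β) sup_{[β,1]} |L'|`, and `|L'(σ)| ≤ 4 sup_{|s-σ|=1/4} |L(s)| ≤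
4 · 2 r · 5/4 = 10 r` by Cauchy and `LFunction_bound`; `L1_lower`. -/
theorem zero_elementary : ∃ c : ℝ, 0 < c ∧ ∀ (r : ℕ) [NeZero r] (ψ : DirichletCharacter ℂ r),
    ψ ≠ 1 → ψ ^ 2 = 1 → ∀ β : ℝ, β < 1 → ψ.LFunction (β : ℂ) = 0 → c / (r : ℝ) ^ 2 ≤ 1 - β := by
  refine ⟨1 / 1000, by norm_num, ?_⟩
  intro r _ ψ hψ hψ2 β hβ h0
  have hr : (1 : ℝ) ≤ r := by
    have : 0 < r := Nat.pos_of_ne_zero (NeZero.ne r)
    exact_mod_cast this
  have hr2 : (1 : ℝ) ≤ (r : ℝ) ^ 2 := one_le_pow₀ hr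
  by_cases hb : β ≤ 3 / 4
  · have : (1 / 1000 : ℝ) / (r : ℝ) ^ 2 ≤ 1 / 1000 := div_le_self (by norm_num) hr2
    linarith
  · have hb' : 3 / 4 < β := not_le.1 hb
    have hd : Differentiable ℂ ψ.LFunction := DirichletCharacter.differentiable_LFunction hψ
    have hseg : ∀ z ∈ segment ℝ (β : ℂ) 1, ∃ t : ℝ, z = t ∧ β ≤ t ∧ t ≤ 1 := by
      rintro z ⟨a, b, ha, hb1, hab, rfl⟩
      refine ⟨a * β + b, ?_, ?_, ?_⟩
      · simp
      · have : b = 1 - a := by linarith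
        subst this
        nlinarith
      · have : b = 1 - a := by linarith
        subst this
        nlinarith
    have hmv := (convex_segment (β : ℂ) (1 : ℂ)).norm_image_sub_le_of_norm_deriv_le
      (𝕜 := ℂ) (f := ψ.LFunction) (C := 10 * r) (s := segment ℝ (β : ℂ) 1)
      (x := (β : ℂ)) (y := 1) (fun z _ => hd z) ?_ (left_mem_segment ℝ _ _)
      (right_mem_segment ℝ _ _)
    · rw [h0, sub_zero] at hmv
      have h1 := L1_lower r ψ hψ hψ2
      have h2 : ‖(1 : ℂ) - (β : ℂ)‖ = 1 - β := by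
        have : (1 : ℂ) - (β : ℂ) = ((1 - β : ℝ) : ℂ) := by push_cast; ring
        rw [this, Complex.norm_real, Real.norm_eq_abs, abs_of_pos (by linarith)]
      rw [h2] at hmv
      have h3 := h1.trans hmv
      rw [div_le_iff₀ (by positivity)] at h3
      rw [div_le_iff₀ (by positivity)]
      nlinarith
    · intro z hz
      obtain ⟨t, rfl, ht1, ht2⟩ := hseg z hz
      exact XSIE_deriv r ψ hψ t (by linarith) ht2

end Pool.Agent.Lib.H68T
end
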