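import Pool.Agent.Lib.H1M.RV2.M014
import Pool.Agent.Lib.H1M.RV2.M017
import Pool.Agent.Lib.H1M.RV2.M019
import Pool.Agent.Lib.H1M.RV2.M021

/-! Merged copies (to shorten the build) of Lib.H68X.XPAIR, Lib.H18E.PG2, Lib.H18E.SS3, Lib.H68T.LONG1, Lib.H68T.LONG2, Lib.H68X.XFB, Lib.H68X.XBPS, Lib.H68X.XG1, Lib.H68X.XTW, Lib.H68X.XCG, Lib.H18Q.PDefs, Lib.H18Q.PB2, Lib.H18Q.PC1. -/

-- from Lib.H68X.XPAIR
section

/-!
# Chunk XPAIR: correlations of weighted Ramanujan expansions along a class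
-/

open Finset

namespace Pool.Agent.Lib.H68T

/-- Abel summation: a bounded monotone weight costs a factor `2`: if all partial sums of `g` over
`[0, N)`, `N ≤ M`, are at most `E` in norm, and `a` is antitone or monotone with values in `[0, D]`,
then `‖∑_{c<M} a c g c‖ ≤ 2 D E`. -/
theorem weighted_sum (M : ℕ) (a : ℕ → ℝ) (g : ℕ → ℂ) (D E : ℝ) (hD : 0 ≤ D)
    (hE : ∀ N ≤ M, ‖∑ c ∈ range N, g c‖ ≤ E) (ha0 : ∀ c, 0 ≤ a c) (haD : ∀ c, a c ≤ D)
    (hmon : Antitone a ∨ Monotone a) :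
    ‖∑ c ∈ range M, (a c : ℂ) * g c‖ ≤ 2 * D * E := by
  have hE0 : 0 ≤ E := (norm_nonneg _).trans (hE 0 (Nat.zero_le _))
  rcases Nat.eq_zero_or_pos M with h0 | hM
  · subst h0
    simp only [range_zero, sum_empty, norm_zero]
    positivity
  have h1 := Finset.sum_range_by_parts (fun c => (a c : ℂ)) g M
  simp only [smul_eq_mul] at h1
  rw [h1]
  have h2 : ‖(a (M - 1) : ℂ) * ∑ i ∈ range M, g i‖ ≤ a (M - 1) * E := by
    rw [norm_mul, Complex.norm_real, Real.norm_eq_abs, abs_of_nonneg (ha0 _)]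
    exact mul_le_mul_of_nonneg_left (hE M le_rfl) (ha0 _)
  have h3 : ‖∑ i ∈ range (M - 1), ((a (i + 1) : ℂ) - (a i : ℂ)) * ∑ j ∈ range (i + 1), g j‖ ≤
      (∑ i ∈ range (M - 1), |a (i + 1) - a i|) * E := by
    refine (norm_sum_le _ _).trans ?_
    rw [sum_mul]
    apply sum_le_sum
    intro i hi
    rw [mem_range] at hi
    rw [norm_mul, ← Complex.ofReal_sub, Complex.norm_real, Real.norm_eq_abs]
    exact mul_le_mul_of_nonneg_left (hE (i + 1) (by omega)) (abs_nonneg _)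
  have h4 : a (M - 1) + ∑ i ∈ range (M - 1), |a (i + 1) - a i| ≤ 2 * D := by
    rcases hmon with hm | hm
    · have h5 : ∑ i ∈ range (M - 1), |a (i + 1) - a i| = ∑ i ∈ range (M - 1), (a i - a (i + 1)) := by
        apply sum_congr rfl
        intro i _
        rw [abs_sub_comm, abs_of_nonneg]
        have := hm (Nat.le_succ i)
        linarith
      rw [h5, sum_range_sub']
      have := haD 0
      linarith
    · have h5 : ∑ i ∈ range (M - 1), |a (i + 1) - a i| = ∑ i ∈ range (M - 1), (a (i + 1) - a i) := by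
        apply sum_congr rfl
        intro i _
        rw [abs_of_nonneg]
        have := hm (Nat.le_succ i)
        linarith
      rw [h5, sum_range_sub]
      have := haD (M - 1)
      have := ha0 0
      linarith
  calc _ ≤ a (M - 1) * E + (∑ i ∈ range (M - 1), |a (i + 1) - a i|) * E :=
        (norm_sub_le _ _).trans (add_le_add h2 h3)
    _ = (a (M - 1) + ∑ i ∈ range (M - 1), |a (i + 1) - a i|) * E := by ring
    _ ≤ 2 * D * E := mul_le_mul_of_nonneg_right h4 hE0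

/-- real version of `weighted_sum` -/
theorem XPAIR_weighted (M : ℕ) (a : ℕ → ℝ) (g : ℕ → ℝ) (D E : ℝ) (hD : 0 ≤ D)
    (hE : ∀ N ≤ M, |∑ c ∈ range N, g c| ≤ E) (ha0 : ∀ c, 0 ≤ a c) (haD : ∀ c, a c ≤ D)
    (hmon : Antitone a ∨ Monotone a) :
    |∑ c ∈ range M, a c * g c| ≤ 2 * D * E := by
  have h := weighted_sum M a (fun c => (g c : ℂ)) D E hD (fun N hN => ?_) ha0 haD hmon
  · have h1 : ∑ c ∈ range M, (a c : ℂ) * (g c : ℂ) = ((∑ c ∈ range M, a c * g c : ℝ) : ℂ) := by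
      push_cast
      rfl
    rw [h1, Complex.norm_real, Real.norm_eq_abs] at h
    exact h
  · have h1 : ∑ c ∈ range N, (g c : ℂ) = ((∑ c ∈ range N, g c : ℝ) : ℂ) := by
      push_cast
      rfl
    rw [h1, Complex.norm_real, Real.norm_eq_abs]
    exact hE N hN

theorem XPAIR_cq_one (m : ℤ) : cq 1 m = 1 := by
  unfold cq
  rw [Nat.divisors_one, filter_singleton, if_pos (by simp)]
  simp

/-- two weights -/
theorem XPAIR_two (M : ℕ) (a a' : ℕ → ℝ) (g : ℕ → ℝ) (D E : ℝ) (hD : 0 ≤ D)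
    (hE : ∀ N ≤ M, |∑ c ∈ range N, g c| ≤ E) (ha0 : ∀ c, 0 ≤ a c) (haD : ∀ c, a c ≤ D)
    (hmon : Antitone a ∨ Monotone a) (ha0' : ∀ c, 0 ≤ a' c) (haD' : ∀ c, a' c ≤ D)
    (hmon' : Antitone a' ∨ Monotone a') :
    |∑ c ∈ range M, a' c * (a c * g c)| ≤ 4 * D ^ 2 * E := by
  have h := XPAIR_weighted M a' (fun c => a c * g c) D (2 * D * E) hD (fun N hN => ?_) ha0' haD' hmon'
  · calc _ ≤ 2 * D * (2 * D * E) := h
      _ = 4 * D ^ 2 * E := by ring
  · exact XPAIR_weighted N a g D E hD (fun N' hN' => hE N' (hN'.trans hN)) ha0 haD hmon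

theorem XPAIR_sum_le (Q W : ℕ) :
    ∑ q ∈ QW Q W, |(ArithmeticFunction.moebius q : ℝ) / (Nat.totient q : ℝ)| *
      ∑ d ∈ q.divisors, (d : ℝ) ≤ (Q : ℝ) ^ 2 := by
  refine le_trans ?_ (cg1_sum_sigma Q)
  have hsub : QW Q W ⊆ Icc 1 Q := filter_subset _ _
  refine le_trans (sum_le_sum_of_subset_of_nonneg hsub (fun q _ _ => by positivity)) ?_
  apply sum_le_sum
  intro q _
  split_ifs with h
  · rw [abs_div, abs_of_nonneg (by positivity : (0 : ℝ) ≤ (Nat.totient q : ℝ)), div_mul_eq_mul_div]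
    apply div_le_div_of_nonneg_right _ (by positivity)
    have := cg1_abs_moebius_le q
    have h2 : (0 : ℝ) ≤ ∑ d ∈ q.divisors, (d : ℝ) := by positivity
    nlinarith
  · rw [ArithmeticFunction.moebius_eq_zero_of_not_squarefree h]
    simp

theorem XPAIR_mem {Q W q : ℕ} (hq : q ∈ QW Q W) : 0 < q ∧ Nat.Coprime q W ∧ q ≤ Q := by
  unfold QW at hq
  rw [mem_filter, mem_Icc] at hq
  exact ⟨hq.1.1, hq.2, hq.1.2⟩



end Pool.Agent.Lib.H68T
end

-- from Lib.H18E.PG2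
section

/-!
# Chunk PG2: weighted correlations
-/

open Finset Pool.Agent.Lib.H68T

namespace Pool.Agent.Lib.H18E

/-- Copy of `pair_general` (file `H68X/XPAIR.lean`) with arbitrary starting points; use `corr_gen`
instead of `cg1_corr`. -/
theorem pair_gen (Q N W : ℕ) (hW : 0 < W) (x y : ℤ)
    (A A' : ℕ → ℕ → ℝ) (D : ℝ) (hD : 0 ≤ D) (hA0 : ∀ q c, 0 ≤ A q c) (hAD : ∀ q c, A q c ≤ D)
    (hA0' : ∀ q c, 0 ≤ A' q c) (hAD' : ∀ q c, A' q c ≤ D)
    (hA : ∀ q, Antitone (A q) ∨ Monotone (A q)) (hA' : ∀ q, Antitone (A' q) ∨ Monotone (A' q)) :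
    |(∑ c ∈ range N,
        (∑ q ∈ QW Q W, (ArithmeticFunction.moebius q : ℝ) / (Nat.totient q : ℝ) *
          cq q (x + W * (c : ℕ)) * A q c) *
        (∑ q ∈ QW Q W, (ArithmeticFunction.moebius q : ℝ) / (Nat.totient q : ℝ) *
          cq q (y + W * (c : ℕ)) * A' q c)) -
      ∑ q ∈ QW Q W, ((ArithmeticFunction.moebius q : ℝ) / (Nat.totient q : ℝ)) ^ 2 *
        cq q (x - y) * ∑ c ∈ range N, A q c * A' q c| ≤ 2 * D ^ 2 * (Q : ℝ) ^ 6 := by
  set α : ℕ → ℝ := fun q => (ArithmeticFunction.moebius q : ℝ) / (Nat.totient q : ℝ) with hα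
  set xx : ℕ → ℕ → ℕ → ℝ := fun q₁ q₂ c =>
    cq q₁ (x + W * (c : ℕ)) * cq q₂ (y + W * (c : ℕ)) -
      (if q₁ = q₂ then cq q₁ (x - y) else 0) with hx
  have hmain : (∑ c ∈ range N,
        (∑ q ∈ QW Q W, α q * cq q (x + W * (c : ℕ)) * A q c) *
        (∑ q ∈ QW Q W, α q * cq q (y + W * (c : ℕ)) * A' q c)) -
      ∑ q ∈ QW Q W, (α q) ^ 2 * cq q (x - y) * ∑ c ∈ range N, A q c * A' q c =
      ∑ q₁ ∈ QW Q W, ∑ q₂ ∈ QW Q W, α q₁ * α q₂ *
        ∑ c ∈ range N, A' q₂ c * (A q₁ c * xx q₁ q₂ c) := by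
    have h1 : (∑ c ∈ range N,
        (∑ q ∈ QW Q W, α q * cq q (x + W * (c : ℕ)) * A q c) *
        (∑ q ∈ QW Q W, α q * cq q (y + W * (c : ℕ)) * A' q c)) =
        ∑ q₁ ∈ QW Q W, ∑ q₂ ∈ QW Q W, α q₁ * α q₂ *
        ∑ c ∈ range N, A' q₂ c * (A q₁ c *
          (cq q₁ (x + W * (c : ℕ)) * cq q₂ (y + W * (c : ℕ)))) := by
      have h2 : ∀ c ∈ range N,
        (∑ q ∈ QW Q W, α q * cq q (x + W * (c : ℕ)) * A q c) *
        (∑ q ∈ QW Q W, α q * cq q (y + W * (c : ℕ)) * A' q c) =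
        ∑ q₁ ∈ QW Q W, ∑ q₂ ∈ QW Q W, α q₁ * α q₂ *
          (A' q₂ c * (A q₁ c *
          (cq q₁ (x + W * (c : ℕ)) * cq q₂ (y + W * (c : ℕ))))) := by
        intro c _
        rw [sum_mul_sum]
        apply sum_congr rfl
        intro q₁ _
        apply sum_congr rfl
        intro q₂ _
        ring
      rw [sum_congr rfl h2, sum_comm]
      apply sum_congr rfl
      intro q₁ _
      rw [sum_comm]
      apply sum_congr rfl
      intro q₂ _
      rw [mul_sum]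
    have h3 : ∑ q ∈ QW Q W, (α q) ^ 2 * cq q (x - y) * ∑ c ∈ range N, A q c * A' q c =
        ∑ q₁ ∈ QW Q W, ∑ q₂ ∈ QW Q W, α q₁ * α q₂ *
        ∑ c ∈ range N, A' q₂ c * (A q₁ c * (if q₁ = q₂ then cq q₁ (x - y) else 0)) := by
      apply sum_congr rfl
      intro q₁ hq₁
      symm
      refine (sum_eq_single q₁ ?_ ?_).trans ?_
      · intro q₂ _ hne
        rw [if_neg (Ne.symm hne)]
        simp
      · intro h
        exact absurd hq₁ h
      · rw [if_pos rfl, mul_sum, mul_sum]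
        apply sum_congr rfl
        intro c _
        ring
    rw [h1, h3, ← sum_sub_distrib]
    apply sum_congr rfl
    intro q₁ _
    rw [← sum_sub_distrib]
    apply sum_congr rfl
    intro q₂ _
    rw [← mul_sub, ← sum_sub_distrib]
    congr 1
    apply sum_congr rfl
    intro c _
    rw [hx]
    ring
  rw [hmain]
  rcases Nat.lt_or_ge Q 2 with hQ | hQ
  · have hzero : ∑ q₁ ∈ QW Q W, ∑ q₂ ∈ QW Q W, α q₁ * α q₂ *
        ∑ c ∈ range N, A' q₂ c * (A q₁ c * xx q₁ q₂ c) = 0 := by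
      apply sum_eq_zero
      intro q₁ hq₁
      apply sum_eq_zero
      intro q₂ hq₂
      have h1 := XPAIR_mem hq₁
      have h2 := XPAIR_mem hq₂
      have e1 : q₁ = 1 := by omega
      have e2 : q₂ = 1 := by omega
      rw [e1, e2]
      have : ∑ c ∈ range N, A' 1 c * (A 1 c * xx 1 1 c) = 0 := by
        apply sum_eq_zero
        intro c _
        rw [hx]
        simp [XPAIR_cq_one]
      rw [this, mul_zero]
    rw [hzero, abs_zero]
    positivity
  have hterm : ∀ q₁ ∈ QW Q W, ∀ q₂ ∈ QW Q W,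
      |α q₁ * α q₂ * ∑ c ∈ range N, A' q₂ c * (A q₁ c * xx q₁ q₂ c)| ≤
      4 * D ^ 2 * ((|α q₁| * ∑ d ∈ q₁.divisors, (d : ℝ)) *
        (|α q₂| * ∑ d ∈ q₂.divisors, (d : ℝ))) := by
    intro q₁ hq₁ q₂ hq₂
    have h1 := XPAIR_mem hq₁
    have h2 := XPAIR_mem hq₂
    have h3 := XPAIR_two N (A q₁) (A' q₂) (xx q₁ q₂) D
      ((∑ d ∈ q₁.divisors, (d : ℝ)) * ∑ d ∈ q₂.divisors, (d : ℝ)) hD (fun N' _ => ?_)
      (hA0 q₁) (hAD q₁) (hA q₁) (hA0' q₂) (hAD' q₂) (hA' q₂)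
    · rw [abs_mul, abs_mul]
      calc |α q₁| * |α q₂| * |∑ c ∈ range N, A' q₂ c * (A q₁ c * xx q₁ q₂ c)|
          ≤ |α q₁| * |α q₂| * (4 * D ^ 2 * ((∑ d ∈ q₁.divisors, (d : ℝ)) *
            ∑ d ∈ q₂.divisors, (d : ℝ))) := mul_le_mul_of_nonneg_left h3 (by positivity)
        _ = _ := by ring
    · have h4 := corr_gen q₁ q₂ W N' x y h1.1 h2.1 h1.2.1 h2.2.1
      have h5 : ∑ c ∈ range N', xx q₁ q₂ c = ∑ c ∈ range N', cq q₁ (x + W * (c : ℕ)) *
          cq q₂ (y + W * (c : ℕ)) -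
          N' * (if q₁ = q₂ then cq q₁ (x - y) else 0) := by
        rw [hx]
        simp only
        rw [sum_sub_distrib, sum_const, card_range, nsmul_eq_mul]
      rw [h5]
      exact h4
  set Y : ℕ → ℝ := fun q => |α q| * ∑ d ∈ q.divisors, (d : ℝ) with hY
  have hS : ∑ q ∈ QW Q W, Y q ≤ (Q : ℝ) ^ 2 := XPAIR_sum_le Q W
  have hS0 : 0 ≤ ∑ q ∈ QW Q W, Y q := by
    apply sum_nonneg
    intro q _
    rw [hY]
    positivity
  have hQ2 : (2 : ℝ) ≤ Q := by exact_mod_cast hQ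
  calc |∑ q₁ ∈ QW Q W, ∑ q₂ ∈ QW Q W, α q₁ * α q₂ *
        ∑ c ∈ range N, A' q₂ c * (A q₁ c * xx q₁ q₂ c)|
      ≤ ∑ q₁ ∈ QW Q W, ∑ q₂ ∈ QW Q W, 4 * D ^ 2 * (Y q₁ * Y q₂) :=
        (abs_sum_le_sum_abs _ _).trans (sum_le_sum fun q₁ hq₁ =>
          (abs_sum_le_sum_abs _ _).trans (sum_le_sum fun q₂ hq₂ => hterm q₁ hq₁ q₂ hq₂))
    _ = 4 * D ^ 2 * ((∑ q ∈ QW Q W, Y q) * (∑ q ∈ QW Q W, Y q)) := by
        rw [sum_mul_sum, mul_sum]
        apply sum_congr rfl
        intro q₁ _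
        rw [mul_sum]
    _ ≤ 4 * D ^ 2 * ((Q : ℝ) ^ 2 * (Q : ℝ) ^ 2) := by
        apply mul_le_mul_of_nonneg_left _ (by positivity)
        exact mul_le_mul hS hS hS0 (by positivity)
    _ ≤ 2 * D ^ 2 * (Q : ℝ) ^ 6 := by
        have h6 : (4 : ℝ) ≤ (Q : ℝ) ^ 2 := by nlinarith
        have h7 : 0 ≤ D ^ 2 * (Q : ℝ) ^ 4 := by positivity
        nlinarith

end Pool.Agent.Lib.H18E
end

-- from Lib.H18E.SS3
section

/-!
# Chunk SS3: the mean of Rankin's factor
-/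

open Finset Pool.Agent.Lib.H68T

namespace Pool.Agent.Lib.H18E

theorem SS3_g0 (p : ℕ) (hp : 2 ≤ p) : 0 ≤ Real.sqrt p / ((p : ℝ) - 1) := by
  have : (2 : ℝ) ≤ p := by exact_mod_cast hp
  exact div_nonneg (Real.sqrt_nonneg _) (by linarith)

theorem SS3_g1 (p : ℕ) (hp : 2 ≤ p) :
    Real.sqrt p / ((p : ℝ) - 1) / p ≤ 2 * (p : ℝ) ^ (-(3 / 2) : ℝ) := by
  have h2 : (2 : ℝ) ≤ p := by exact_mod_cast hp
  have hp0 : (0 : ℝ) < p := by linarith
  have e : (p : ℝ) ^ (-(3 / 2) : ℝ) = Real.sqrt p / (p : ℝ) ^ 2 := by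
    rw [Real.sqrt_eq_rpow, eq_div_iff (by positivity), ← Real.rpow_natCast,
      ← Real.rpow_add hp0]
    norm_num
  rw [e, div_div]
  have hs : 0 ≤ Real.sqrt p := Real.sqrt_nonneg _
  rw [← mul_div_assoc, div_le_div_iff₀ (by nlinarith) (by positivity)]
  nlinarith [mul_nonneg hs (mul_nonneg hp0.le (by linarith : (0 : ℝ) ≤ p - 2))]

theorem SS3_count (n : ℕ) (S : Finset ℕ) (hS : ∀ p ∈ S, p.Prime) :
    (((Icc 1 n).filter (fun x => S ⊆ x.primeFactors)).card : ℝ) ≤ n * ∏ p ∈ S, (1 / (p : ℝ)) := by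
  have h1 : ((Icc 1 n).filter (fun x => S ⊆ x.primeFactors)) ⊆
      (Ioc 0 n).filter (fun x => (∏ p ∈ S, p) ∣ x) := by
    intro x hx
    rw [mem_filter, mem_Icc] at hx
    rw [mem_filter, mem_Ioc]
    refine ⟨⟨by omega, hx.1.2⟩, ?_⟩
    exact Finset.prod_primes_dvd x (fun p hp => (hS p hp).prime)
      (fun p hp => Nat.dvd_of_mem_primeFactors (hx.2 hp))
  have h2 := card_le_card h1
  rw [Nat.Ioc_filter_dvd_card_eq_div] at h2
  have h3 : (((Icc 1 n).filter (fun x => S ⊆ x.primeFactors)).card : ℝ) ≤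
      ((n / (∏ p ∈ S, p) : ℕ) : ℝ) := by exact_mod_cast h2
  refine h3.trans ?_
  refine (Nat.cast_div_le).trans ?_
  rw [div_eq_mul_inv]
  push_cast
  rw [← Finset.prod_inv_distrib]
  simp only [one_div]
  exact le_refl _

theorem SS3_mean (n : ℕ) : ∑ x ∈ Icc 1 n, ∏ p ∈ x.primeFactors,
    (1 + Real.sqrt p / ((p : ℝ) - 1)) ≤
    n * ∏ p ∈ (Icc 1 n).filter Nat.Prime, (1 + Real.sqrt p / ((p : ℝ) - 1) / p) := by
  set P := (Icc 1 n).filter Nat.Prime with hP
  have h1 : ∀ x ∈ Icc 1 n, ∏ p ∈ x.primeFactors, (1 + Real.sqrt p / ((p : ℝ) - 1)) =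
      ∑ S ∈ P.powerset, if S ⊆ x.primeFactors then ∏ p ∈ S, Real.sqrt p / ((p : ℝ) - 1) else 0 := by
    intro x hx
    rw [mem_Icc] at hx
    rw [Finset.prod_one_add, ← Finset.sum_filter]
    apply Finset.sum_congr _ (fun _ _ => rfl)
    ext S
    simp only [mem_powerset, mem_filter]
    constructor
    · intro h
      refine ⟨fun p hp => ?_, h⟩
      have h3 := h hp
      rw [Nat.mem_primeFactors] at h3
      rw [hP, mem_filter, mem_Icc]
      have := Nat.le_of_dvd (by omega) h3.2.1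
      exact ⟨⟨h3.1.one_lt.le, by omega⟩, h3.1⟩
    · exact fun h => h.2
  rw [Finset.sum_congr rfl h1, Finset.sum_comm]
  rw [Finset.prod_one_add, Finset.mul_sum]
  apply Finset.sum_le_sum
  intro S hS
  rw [mem_powerset] at hS
  have hSp : ∀ p ∈ S, p.Prime := fun p hp => (mem_filter.1 (hS hp)).2
  rw [← Finset.sum_filter, Finset.sum_const, nsmul_eq_mul]
  have h4 := SS3_count n S hSp
  have h5 : 0 ≤ ∏ p ∈ S, Real.sqrt p / ((p : ℝ) - 1) :=
    Finset.prod_nonneg (fun p hp => SS3_g0 p (hSp p hp).two_le)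
  calc _ ≤ (n * ∏ p ∈ S, (1 / (p : ℝ))) * ∏ p ∈ S, Real.sqrt p / ((p : ℝ) - 1) :=
        mul_le_mul_of_nonneg_right h4 h5
    _ = n * ∏ p ∈ S, (Real.sqrt p / ((p : ℝ) - 1) / p) := by
        rw [mul_assoc, ← Finset.prod_mul_distrib]
        congr 1
        apply Finset.prod_congr rfl
        intro p hp
        ring

theorem SS3_prod : ∃ C : ℝ, 0 ≤ C ∧ ∀ n : ℕ,
    ∏ p ∈ (Icc 1 n).filter Nat.Prime, (1 + Real.sqrt p / ((p : ℝ) - 1) / p) ≤ C := by
  have hs : Summable (fun m : ℕ => 2 * (m : ℝ) ^ (-(3 / 2) : ℝ)) :=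
    (Real.summable_nat_rpow.2 (by norm_num)).mul_left 2
  refine ⟨Real.exp (∑' m : ℕ, 2 * (m : ℝ) ^ (-(3 / 2) : ℝ)), (Real.exp_pos _).le, fun n => ?_⟩
  calc ∏ p ∈ (Icc 1 n).filter Nat.Prime, (1 + Real.sqrt p / ((p : ℝ) - 1) / p)
      ≤ ∏ p ∈ (Icc 1 n).filter Nat.Prime, Real.exp (2 * (p : ℝ) ^ (-(3 / 2) : ℝ)) := by
        apply Finset.prod_le_prod
        · intro p hp
          have := SS3_g0 p (mem_filter.1 hp).2.two_le
          positivity
        · intro p hp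
          have h1 := SS3_g1 p (mem_filter.1 hp).2.two_le
          have h2 := Real.add_one_le_exp (2 * (p : ℝ) ^ (-(3 / 2) : ℝ))
          linarith
    _ = Real.exp (∑ p ∈ (Icc 1 n).filter Nat.Prime, 2 * (p : ℝ) ^ (-(3 / 2) : ℝ)) := by
        rw [Real.exp_sum]
    _ ≤ _ := by
        apply Real.exp_le_exp.2
        exact hs.sum_le_tsum _ (fun m _ => by positivity)

/-- `Rk (2 x) ≤ (1 + √2) ∏_{p ∣ x} (1 + g(p))`, `g(p) = √p/(p-1)`, and
`∏_{p ∣ x} (1 + g(p)) = ∑_{d ∣ x, squarefree} g(d)` (`Finset.prod_one_add`; `g(d) = ∏_{p ∣ d} g(p)`), so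
`∑_{x ≤ n} ≤ n ∑_{d ≤ n} g(d)/d ≤ n ∏_{p ≤ n} (1 + g(p)/p) ≤ C n`, since
`g(p)/p ≤ 2 p^(-3/2)`. -/
theorem rk_mean : ∃ C : ℝ, 1 ≤ C ∧ ∀ n : ℕ, ∑ x ∈ Icc 1 n, Rk (2 * (x : ℤ)) ≤ C * n := by
  obtain ⟨C, hC0, hC⟩ := SS3_prod
  refine ⟨max 1 (3 * C), le_max_left _ _, fun n => ?_⟩
  have h1 : ∀ x ∈ Icc 1 n, Rk (2 * (x : ℤ)) ≤
      3 * ∏ p ∈ x.primeFactors, (1 + Real.sqrt p / ((p : ℝ) - 1)) := by
    intro x hx
    rw [mem_Icc] at hx
    have hab : (2 * (x : ℤ)).natAbs = 2 * x := by omega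
    unfold Rk
    rw [hab]
    have hsub : (2 * x).primeFactors ⊆ insert 2 x.primeFactors := by
      rw [Nat.primeFactors_mul (by norm_num) (by omega), Nat.Prime.primeFactors Nat.prime_two]
      intro p hp
      simpa using hp
    have hge : ∀ p ∈ insert 2 x.primeFactors, 1 ≤ 1 + Real.sqrt p / ((p : ℝ) - 1) := by
      intro p hp
      rw [mem_insert] at hp
      have h2 : 2 ≤ p := by
        rcases hp with h | h
        · omega
        · exact (Nat.prime_of_mem_primeFactors h).two_le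
      linarith [SS3_g0 p h2]
    have hge' : ∀ p ∈ x.primeFactors, 1 ≤ 1 + Real.sqrt p / ((p : ℝ) - 1) :=
      fun p hp => hge p (mem_insert_of_mem hp)
    have h3 : ∏ p ∈ (2 * x).primeFactors, (1 + Real.sqrt p / ((p : ℝ) - 1)) ≤
        ∏ p ∈ insert 2 x.primeFactors, (1 + Real.sqrt p / ((p : ℝ) - 1)) := by
      exact Finset.prod_le_prod_of_subset_of_one_le hsub (fun p hp => by linarith [hge p (hsub hp)])
        (fun p hp _ => hge p hp)
    refine h3.trans ?_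
    have hpos : 0 ≤ ∏ p ∈ x.primeFactors, (1 + Real.sqrt p / ((p : ℝ) - 1)) :=
      Finset.prod_nonneg (fun p hp => by linarith [hge' p hp])
    by_cases h2 : 2 ∈ x.primeFactors
    · rw [Finset.insert_eq_of_mem h2]
      linarith
    · rw [Finset.prod_insert h2]
      apply mul_le_mul_of_nonneg_right _ hpos
      have : Real.sqrt 2 ≤ 2 := by
        rw [Real.sqrt_le_left (by norm_num)]; norm_num
      norm_num
      linarith
  calc ∑ x ∈ Icc 1 n, Rk (2 * (x : ℤ)) ≤ ∑ x ∈ Icc 1 n,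
        3 * ∏ p ∈ x.primeFactors, (1 + Real.sqrt p / ((p : ℝ) - 1)) := Finset.sum_le_sum h1
    _ = 3 * ∑ x ∈ Icc 1 n, ∏ p ∈ x.primeFactors, (1 + Real.sqrt p / ((p : ℝ) - 1)) := by
        rw [Finset.mul_sum]
    _ ≤ 3 * (n * C) := by
        apply mul_le_mul_of_nonneg_left _ (by norm_num)
        exact (SS3_mean n).trans (mul_le_mul_of_nonneg_left (hC n) (Nat.cast_nonneg n))
    _ = (3 * C) * n := by ring
    _ ≤ _ := mul_le_mul_of_nonneg_right (le_max_right _ _) (Nat.cast_nonneg n)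

/-- `Gp W D ≥ 1`, `Rk D ≥ 1`. -/
theorem one_le_Gp (W : ℕ) (D : ℤ) : 1 ≤ Gp W D := by
  unfold Gp
  apply Finset.one_le_prod
  intro p hp
  have h2 := (Nat.prime_of_mem_primeFactors (mem_filter.1 hp).1).two_le
  have h3 : (2 : ℝ) ≤ p := by exact_mod_cast h2
  have h4 : 0 ≤ 1 / ((p : ℝ) - 1) := div_nonneg zero_le_one (by linarith)
  linarith

theorem one_le_Rk (D : ℤ) : 1 ≤ Rk D := by
  unfold Rk
  apply Finset.one_le_prod
  intro p hp
  have h2 := (Nat.prime_of_mem_primeFactors hp).two_le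
  linarith [SS3_g0 p h2]


end Pool.Agent.Lib.H18E
end

-- from Lib.H68T.LONG1
section

/-!
# Chunk LONG1; part of LONG: long smooth sums
-/

open Finset

namespace Pool.Agent.Lib.H68T

/-- `smoothTransition` has bounded first and second derivatives, supported in `[0,1]`. -/
theorem LONG_sT : ∃ B : ℝ, 1 ≤ B ∧ (∀ x, |deriv Real.smoothTransition x| ≤ B) ∧
    (∀ x, |deriv (deriv Real.smoothTransition) x| ≤ B) ∧
    (∀ x, x ∉ Set.Icc (0:ℝ) 1 → deriv Real.smoothTransition x = 0) ∧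
    (∀ x, x ∉ Set.Icc (0:ℝ) 1 → deriv (deriv Real.smoothTransition) x = 0) := by
  have hc : ContDiff ℝ ((2 : ℕ∞) : WithTop ℕ∞) Real.smoothTransition := Real.smoothTransition.contDiff
  have hc1 : ContDiff ℝ 1 (deriv Real.smoothTransition) := by
    have h2 : ContDiff ℝ (1 + 1) Real.smoothTransition := by exact_mod_cast hc
    exact (contDiff_succ_iff_deriv.mp h2).2.2
  have hc2 : Continuous (deriv (deriv Real.smoothTransition)) := hc1.continuous_deriv le_rfl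
  have z1 : ∀ x, x ∉ Set.Icc (0:ℝ) 1 → deriv Real.smoothTransition x = 0 := by
    intro x hx
    rw [Set.mem_Icc, not_and_or, not_le, not_le] at hx
    rcases hx with hx | hx
    · have : Real.smoothTransition =ᶠ[nhds x] fun _ => (0:ℝ) := by
        filter_upwards [Iio_mem_nhds hx] with y hy
        exact Real.smoothTransition.zero_of_nonpos (le_of_lt hy)
      rw [this.deriv_eq]; simp
    · have : Real.smoothTransition =ᶠ[nhds x] fun _ => (1:ℝ) := by
        filter_upwards [Ioi_mem_nhds hx] with y hy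
        exact Real.smoothTransition.one_of_one_le (le_of_lt hy)
      rw [this.deriv_eq]; simp
  have z2 : ∀ x, x ∉ Set.Icc (0:ℝ) 1 → deriv (deriv Real.smoothTransition) x = 0 := by
    intro x hx
    have hx' := hx
    rw [Set.mem_Icc, not_and_or, not_le, not_le] at hx
    have hopen : IsOpen (Set.Icc (0:ℝ) 1)ᶜ := isClosed_Icc.isOpen_compl
    have : deriv Real.smoothTransition =ᶠ[nhds x] fun _ => (0:ℝ) := by
      filter_upwards [hopen.mem_nhds hx'] with y hy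
      exact z1 y hy
    rw [this.deriv_eq]; simp
  obtain ⟨C1, hC1⟩ := (isCompact_Icc (a := (0:ℝ)) (b := 1)).exists_bound_of_continuousOn
    hc1.continuous.continuousOn
  obtain ⟨C2, hC2⟩ := (isCompact_Icc (a := (0:ℝ)) (b := 1)).exists_bound_of_continuousOn
    hc2.continuousOn
  refine ⟨max 1 (max C1 C2), le_max_left _ _, ?_, ?_, z1, z2⟩
  · intro x
    by_cases hx : x ∈ Set.Icc (0:ℝ) 1
    · exact (hC1 x hx).trans (le_max_of_le_right (le_max_left _ _))
    · rw [z1 x hx, abs_zero]; positivity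
  · intro x
    by_cases hx : x ∈ Set.Icc (0:ℝ) 1
    · exact (hC2 x hx).trans (le_max_of_le_right (le_max_right _ _))
    · rw [z2 x hx, abs_zero]; positivity

theorem LONG_sT_diff : ContDiff ℝ 2 Real.smoothTransition := by
  have hc : ContDiff ℝ ((2 : ℕ∞) : WithTop ℕ∞) Real.smoothTransition := Real.smoothTransition.contDiff
  exact_mod_cast hc


theorem LONG_w_nonneg (y : ℝ) : 0 ≤ w y :=
  mul_nonneg (Real.smoothTransition.nonneg _) (Real.smoothTransition.nonneg _)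

theorem LONG_w_le_one (y : ℝ) : w y ≤ 1 :=
  mul_le_one₀ (Real.smoothTransition.le_one _) (Real.smoothTransition.nonneg _)
    (Real.smoothTransition.le_one _)







theorem LONG_cpow_norm (t u : ℝ) (hu : 0 < u) : ‖(u : ℂ) ^ (-(1 + t * Complex.I))‖ = u⁻¹ := by
  rw [Complex.norm_cpow_eq_rpow_re_of_pos hu]
  simp [Real.rpow_neg_one]

theorem LONG_cpow_diff (t u u' : ℝ) (hu : 0 < u) (huu : u ≤ u') :
    ‖(u' : ℂ) ^ (-(1 + t * Complex.I)) - (u : ℂ) ^ (-(1 + t * Complex.I))‖ ≤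
      (1 + |t|) * (u' - u) / u ^ 2 := by
  have hder : ∀ x ∈ Set.Icc u u', HasDerivWithinAt (fun x : ℝ => (x : ℂ) ^ (-(1 + t * Complex.I)))
      ((-(1 + t * Complex.I)) * (x : ℂ) ^ (-(1 + t * Complex.I) - 1)) (Set.Icc u u') x := by
    intro x hx
    have hx0 : 0 < x := lt_of_lt_of_le hu hx.1
    have h1 : HasDerivAt (fun z : ℂ => z ^ (-(1 + t * Complex.I)))
        ((-(1 + t * Complex.I)) * (x : ℂ) ^ (-(1 + t * Complex.I) - 1)) (x : ℂ) := by
      have := (hasDerivAt_id (x : ℂ)).cpow_const (c := -(1 + t * Complex.I))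
        (Or.inl (by simpa using hx0))
      simpa using this
    exact h1.comp_ofReal.hasDerivWithinAt
  have hb : ∀ x ∈ Set.Ico u u', ‖(-(1 + t * Complex.I)) * (x : ℂ) ^ (-(1 + t * Complex.I) - 1)‖ ≤
      (1 + |t|) / u ^ 2 := by
    intro x hx
    have hx0 : 0 < x := lt_of_lt_of_le hu hx.1
    rw [norm_mul, norm_neg, Complex.norm_cpow_eq_rpow_re_of_pos hx0]
    have e1 : (-(1 + t * Complex.I) - 1 : ℂ).re = ((-2 : ℤ) : ℝ) := by simp; norm_num
    rw [e1, Real.rpow_intCast]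
    have e2 : ‖(1 + t * Complex.I : ℂ)‖ ≤ 1 + |t| := by
      refine (norm_add_le _ _).trans ?_
      simp
    have e3 : x ^ (-2 : ℤ) ≤ (u ^ 2)⁻¹ := by
      rw [zpow_neg]
      have : u ^ 2 ≤ x ^ (2:ℤ) := by
        have := hx.1
        exact_mod_cast pow_le_pow_left₀ hu.le this 2
      exact inv_anti₀ (by positivity) this
    calc _ ≤ (1 + |t|) * (u ^ 2)⁻¹ := by
          apply mul_le_mul e2 e3 (by positivity) (by positivity)
      _ = _ := by rw [div_eq_mul_inv]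
  have := norm_image_sub_le_of_norm_deriv_le_segment' hder hb u' (Set.right_mem_Icc.mpr huu)
  calc _ ≤ _ := this
    _ = _ := by ring







theorem LONG_sum_inv_sq (N0 N : ℕ) (h0 : 1 ≤ N0) :
    ∑ n ∈ Ico N0 N, 1 / (n : ℝ) ^ 2 ≤ 2 / (N0 : ℝ) := by
  rcases le_or_gt N N0 with h | h
  · rw [Ico_eq_empty (by omega), sum_empty]; positivity
  have key : ∀ k : ℕ, N0 ≤ k → ∑ n ∈ Ico N0 (k + 1), 1 / (n : ℝ) ^ 2 ≤ 2 / (N0 : ℝ) - 1 / (k : ℝ) := by
    intro k hk
    induction k, hk using Nat.le_induction with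
    | base =>
      have : (1:ℝ) ≤ N0 := by exact_mod_cast h0
      rw [Ico_add_one_right_eq_Icc, Icc_self, sum_singleton]
      have e : (2:ℝ) / N0 - 1 / N0 = 1 / N0 := by ring
      rw [e]
      exact one_div_le_one_div_of_le (by linarith) (by nlinarith)
    | succ k hk ih =>
      rw [sum_Ico_succ_top (by omega)]
      have hk0 : (0:ℝ) < k := by exact_mod_cast (by omega : 0 < k)
      have : 1 / ((k + 1 : ℕ) : ℝ) ^ 2 ≤ 1 / k - 1 / ((k + 1 : ℕ) : ℝ) := by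
        push_cast
        rw [div_sub_div _ _ hk0.ne' (by positivity), div_le_div_iff₀ (by positivity) (by positivity)]
        nlinarith
      linarith
  have := key (N - 1) (by omega)
  rw [Nat.sub_add_cancel (by omega)] at this
  have h3 : (0:ℝ) ≤ 1 / ((N - 1 : ℕ) : ℝ) := by positivity
  linarith


end Pool.Agent.Lib.H68T
end

-- from Lib.H68T.LONG2
section

/-!
# Chunk LONG2; part of LONG: long smooth sums
-/

open Finset

namespace Pool.Agent.Lib.H68T

theorem LONG2_smooth : Differentiable ℝ Real.smoothTransition ∧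
    Differentiable ℝ (deriv Real.smoothTransition) ∧
    Continuous (deriv (deriv Real.smoothTransition)) := by
  have h2 : ContDiff ℝ (1 + 1) Real.smoothTransition := by exact_mod_cast LONG_sT_diff
  have hc1 : ContDiff ℝ 1 (deriv Real.smoothTransition) := (contDiff_succ_iff_deriv.mp h2).2.2
  exact ⟨LONG_sT_diff.differentiable (by norm_num), hc1.differentiable (by norm_num),
    hc1.continuous_deriv le_rfl⟩

/-- derivative of `smoothTransition` -/
noncomputable def LONG2_s1 (x : ℝ) : ℝ := deriv Real.smoothTransition x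

/-- second derivative of `smoothTransition` -/
noncomputable def LONG2_s2 (x : ℝ) : ℝ := deriv (deriv Real.smoothTransition) x

theorem LONG2_h0 (x : ℝ) : HasDerivAt Real.smoothTransition (LONG2_s1 x) x :=
  (LONG2_smooth.1 x).hasDerivAt

theorem LONG2_h1 (x : ℝ) : HasDerivAt LONG2_s1 (LONG2_s2 x) x :=
  (LONG2_smooth.2.1 x).hasDerivAt

theorem LONG2_c0 : Continuous Real.smoothTransition := LONG2_smooth.1.continuous
theorem LONG2_c1 : Continuous LONG2_s1 := LONG2_smooth.2.1.continuous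
theorem LONG2_c2 : Continuous LONG2_s2 := LONG2_smooth.2.2

theorem LONG2_comp {f f' : ℝ → ℝ} (hf : ∀ x, HasDerivAt f (f' x) x) {g : ℝ → ℝ} {g' y : ℝ}
    (hg : HasDerivAt g g' y) : HasDerivAt (fun y => f (g y)) (f' (g y) * g') y :=
  (hf (g y)).comp y hg

/-- `V = w (· + c)` and its derivatives -/
noncomputable def LONG2_V1 (c y : ℝ) : ℝ :=
  LONG2_s1 (y + c + 2) * Real.smoothTransition (4 - (y + c)) -
    Real.smoothTransition (y + c + 2) * LONG2_s1 (4 - (y + c))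

noncomputable def LONG2_V2 (c y : ℝ) : ℝ :=
  LONG2_s2 (y + c + 2) * Real.smoothTransition (4 - (y + c)) -
    2 * (LONG2_s1 (y + c + 2) * LONG2_s1 (4 - (y + c))) +
    Real.smoothTransition (y + c + 2) * LONG2_s2 (4 - (y + c))

theorem LONG2_in1 (c y : ℝ) : HasDerivAt (fun y : ℝ => y + c + 2) 1 y := by
  simpa using ((hasDerivAt_id' y).add_const c).add_const 2

theorem LONG2_in2 (c y : ℝ) : HasDerivAt (fun y : ℝ => 4 - (y + c)) (-1) y := by
  simpa using ((hasDerivAt_id' y).add_const c).const_sub 4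

theorem LONG2_hV (c y : ℝ) : HasDerivAt (fun y => w (y + c)) (LONG2_V1 c y) y := by
  unfold w LONG2_V1
  have h1 : HasDerivAt (fun y : ℝ => Real.smoothTransition (y + c + 2))
      (LONG2_s1 (y + c + 2) * 1) y := LONG2_comp LONG2_h0 (LONG2_in1 c y)
  have h2 : HasDerivAt (fun y : ℝ => Real.smoothTransition (4 - (y + c)))
      (LONG2_s1 (4 - (y + c)) * (-1)) y := LONG2_comp LONG2_h0 (LONG2_in2 c y)
  refine HasDerivAt.congr_deriv (h1.mul h2) ?_
  ring

theorem LONG2_hV1 (c y : ℝ) : HasDerivAt (LONG2_V1 c) (LONG2_V2 c y) y := by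
  unfold LONG2_V1 LONG2_V2
  have h1 : HasDerivAt (fun y : ℝ => Real.smoothTransition (y + c + 2))
      (LONG2_s1 (y + c + 2) * 1) y := LONG2_comp LONG2_h0 (LONG2_in1 c y)
  have h2 : HasDerivAt (fun y : ℝ => Real.smoothTransition (4 - (y + c)))
      (LONG2_s1 (4 - (y + c)) * (-1)) y := LONG2_comp LONG2_h0 (LONG2_in2 c y)
  have h3 : HasDerivAt (fun y : ℝ => LONG2_s1 (y + c + 2))
      (LONG2_s2 (y + c + 2) * 1) y := LONG2_comp LONG2_h1 (LONG2_in1 c y)
  have h4 : HasDerivAt (fun y : ℝ => LONG2_s1 (4 - (y + c)))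
      (LONG2_s2 (4 - (y + c)) * (-1)) y := LONG2_comp LONG2_h1 (LONG2_in2 c y)
  refine HasDerivAt.congr_deriv ((h3.mul h2).sub (h1.mul h4)) ?_
  ring








theorem LONG2_cw : Continuous w := by
  unfold w
  exact (LONG2_c0.comp (by fun_prop)).mul (LONG2_c0.comp (by fun_prop))

















end Pool.Agent.Lib.H68T
end

-- from Lib.H68X.XFB
section

/-!
# Chunk XFB: the polynomial `Fb`
-/

open Finset

namespace Pool.Agent.Lib.H68T

/-- A smooth amplitude with compact support. -/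
structure XFB_Amp (A M : ℝ) (O O1 O2 : ℝ → ℝ) : Prop where
  d0 : ∀ y, HasDerivAt O (O1 y) y
  d1 : ∀ y, HasDerivAt O1 (O2 y) y
  c2 : Continuous O2
  b0 : ∀ y, |O y| ≤ M
  b1 : ∀ y, |O1 y| ≤ M
  b2 : ∀ y, |O2 y| ≤ M
  z0 : ∀ y, y ∉ Set.Icc A (A + 6) → O y = 0
  z1 : ∀ y, y ∉ Set.Icc A (A + 6) → O1 y = 0
  z2 : ∀ y, y ∉ Set.Icc A (A + 6) → O2 y = 0

theorem XFB_Amp.c0 {A M : ℝ} {O O1 O2 : ℝ → ℝ} (h : XFB_Amp A M O O1 O2) : Continuous O :=
  continuous_iff_continuousAt.mpr (fun y => (h.d0 y).continuousAt)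

theorem XFB_Amp.c1 {A M : ℝ} {O O1 O2 : ℝ → ℝ} (h : XFB_Amp A M O O1 O2) : Continuous O1 :=
  continuous_iff_continuousAt.mpr (fun y => (h.d1 y).continuousAt)



/-- The summand. -/
noncomputable def XFB_W (O : ℝ → ℝ) (t u : ℝ) : ℂ :=
  (O (Real.log u) : ℂ) * (u : ℂ) ^ (-(1 + t * Complex.I))

theorem XFB_lip {A M : ℝ} {O O1 O2 : ℝ → ℝ} (h : XFB_Amp A M O O1 O2) (x y : ℝ) :
    |O y - O x| ≤ M * |y - x| := by
  have := Convex.norm_image_sub_le_of_norm_hasDerivWithin_le (f := O) (f' := O1) (s := Set.univ)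
    (C := M) (x := x) (y := y) (fun z _ => (h.d0 z).hasDerivWithinAt) (fun z _ => h.b1 z)
    convex_univ (Set.mem_univ _) (Set.mem_univ _)
  simpa [Real.norm_eq_abs] using this

theorem XFB_diff {A M : ℝ} {O O1 O2 : ℝ → ℝ} (h : XFB_Amp A M O O1 O2) (hM : 0 ≤ M)
    (t u u' : ℝ) (hu : 1 ≤ u) (huu : u ≤ u') :
    ‖XFB_W O t u' - XFB_W O t u‖ ≤ M * (2 + |t|) * ((u' - u) / u ^ 2) := by
  have hu0 : 0 < u := by linarith
  have hu0' : 0 < u' := by linarith
  have hll : Real.log u ≤ Real.log u' := Real.log_le_log hu0 huu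
  have hd : Real.log u' - Real.log u ≤ (u' - u) / u := by
    rw [← Real.log_div hu0'.ne' hu0.ne']
    refine (Real.log_le_sub_one_of_pos (by positivity)).trans ?_
    rw [sub_div, div_self hu0.ne']
  have h1 := XFB_lip h (Real.log u) (Real.log u')
  rw [abs_of_nonneg (by linarith : 0 ≤ Real.log u' - Real.log u)] at h1
  have h2 := h.b0 (Real.log u)
  have h3 := LONG_cpow_norm t u' hu0'
  have h4 := LONG_cpow_diff t u u' hu0 huu
  unfold XFB_W
  have e : (O (Real.log u') : ℂ) * (u' : ℂ) ^ (-(1 + t * Complex.I)) -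
      (O (Real.log u) : ℂ) * (u : ℂ) ^ (-(1 + t * Complex.I)) =
      ((O (Real.log u') - O (Real.log u) : ℝ) : ℂ) *
        (u' : ℂ) ^ (-(1 + t * Complex.I)) +
      (O (Real.log u) : ℂ) * ((u' : ℂ) ^ (-(1 + t * Complex.I)) -
        (u : ℂ) ^ (-(1 + t * Complex.I))) := by push_cast; ring
  rw [e]
  refine (norm_add_le _ _).trans ?_
  rw [norm_mul, norm_mul, Complex.norm_real, Complex.norm_real, h3, Real.norm_eq_abs,
    Real.norm_eq_abs]
  have b1 : |O (Real.log u') - O (Real.log u)| * u'⁻¹ ≤ (M * ((u' - u) / u)) * u⁻¹ := by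
    have : M * (Real.log u' - Real.log u) ≤ M * ((u' - u) / u) :=
      mul_le_mul_of_nonneg_left hd hM
    apply mul_le_mul (h1.trans this) (inv_anti₀ hu0 huu) (by positivity)
    exact le_trans (abs_nonneg _) (h1.trans this)
  have b2 : |O (Real.log u)| * ‖(u' : ℂ) ^ (-(1 + t * Complex.I)) -
        (u : ℂ) ^ (-(1 + t * Complex.I))‖ ≤ M * ((1 + |t|) * (u' - u) / u ^ 2) := by
    apply mul_le_mul h2 h4 (norm_nonneg _) hM
  calc _ ≤ (M * ((u' - u) / u)) * u⁻¹ + M * ((1 + |t|) * (u' - u) / u ^ 2) := add_le_add b1 b2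
    _ = _ := by field_simp; ring

theorem XFB_W_cont (O : ℝ → ℝ) (hO : Continuous O) (t : ℝ) (u : ℝ) (hpos : 0 < u) :
    ContinuousAt (XFB_W O t) u := by
  unfold XFB_W
  apply ContinuousAt.mul
  · apply Complex.continuous_ofReal.continuousAt.comp
    exact ContinuousAt.comp (f := Real.log) (g := O) hO.continuousAt
      (Real.continuousAt_log hpos.ne')
  · have h1 : ContinuousAt (fun z : ℂ => z ^ (-(1 + t * Complex.I))) ((u : ℝ) : ℂ) :=
      continuousAt_cpow_const (Or.inl (by simpa using hpos))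
    exact ContinuousAt.comp (f := fun x : ℝ => (x : ℂ)) h1 Complex.continuous_ofReal.continuousAt

theorem XFB_W_ii (O : ℝ → ℝ) (hO : Continuous O) (t : ℝ) (a b : ℝ) (ha : 0 < a) (hab : a ≤ b) :
    IntervalIntegrable (XFB_W O t) MeasureTheory.volume a b :=
  ContinuousOn.intervalIntegrable_of_Icc hab
    (fun u hu => (XFB_W_cont O hO t u (lt_of_lt_of_le ha hu.1)).continuousWithinAt)

/-- Substitution `u = e^y`. -/
theorem XFB_subst (O : ℝ → ℝ) (hO : Continuous O) (t : ℝ) (N : ℝ) (hN : 1 ≤ N) :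
    ∫ u in (1:ℝ)..N, XFB_W O t u =
      ∫ y in (0:ℝ)..Real.log N, (O y : ℂ) * Complex.exp (-(t * Complex.I) * y) := by
  have hN0 : 0 < N := by linarith
  have h := intervalIntegral.integral_deriv_smul_comp' (f := Real.exp) (f' := Real.exp)
    (g := XFB_W O t) (a := 0) (b := Real.log N) (fun x _ => Real.hasDerivAt_exp x)
    Real.continuous_exp.continuousOn ?_
  · rw [Real.exp_zero, Real.exp_log hN0] at h
    rw [← h]
    apply intervalIntegral.integral_congr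
    intro y _
    simp only [Function.comp_apply, XFB_W, Real.log_exp, Complex.real_smul]
    rw [Complex.cpow_def_of_ne_zero (by exact_mod_cast (Real.exp_pos y).ne'),
      ← Complex.ofReal_log (Real.exp_pos y).le, Real.log_exp, Complex.ofReal_exp,
      mul_left_comm, ← Complex.exp_add]
    congr 2
    ring
  · intro u hu
    obtain ⟨y, -, rfl⟩ := hu
    exact (XFB_W_cont O hO t _ (Real.exp_pos y)).continuousWithinAt


/-- The amplitude of `Fb`. -/
noncomputable def XFB_O (c β y : ℝ) : ℝ := w (y + c) * Real.exp ((β - 1) * y)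

noncomputable def XFB_O1 (c β y : ℝ) : ℝ :=
  (LONG2_V1 c y + (β - 1) * w (y + c)) * Real.exp ((β - 1) * y)

noncomputable def XFB_O2 (c β y : ℝ) : ℝ :=
  (LONG2_V2 c y + 2 * ((β - 1) * LONG2_V1 c y) + (β - 1) ^ 2 * w (y + c)) *
    Real.exp ((β - 1) * y)

theorem XFB_amp : ∃ M : ℝ, 0 ≤ M ∧ ∀ c β : ℝ, c ≤ -2 → 1 / 2 ≤ β → β ≤ 1 →
    XFB_Amp (-c - 2) M (XFB_O c β) (XFB_O1 c β) (XFB_O2 c β) := by
  obtain ⟨B, hB1, hs1, hs2, hz1, hz2⟩ := LONG_sT
  have hs1' : ∀ x, |LONG2_s1 x| ≤ B := hs1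
  have hs2' : ∀ x, |LONG2_s2 x| ≤ B := hs2
  have hB0 : 0 ≤ B := by linarith
  refine ⟨9 * B ^ 2, by positivity, fun c β hc hβ hβ1 => ?_⟩
  have t1 : ∀ x, |Real.smoothTransition x| ≤ 1 := fun x => by
    rw [abs_of_nonneg (Real.smoothTransition.nonneg _)]; exact Real.smoothTransition.le_one _
  have tw : ∀ x, |w x| ≤ 1 := fun x => by
    rw [abs_of_nonneg (LONG_w_nonneg _)]; exact LONG_w_le_one _
  have V1 : ∀ y, |LONG2_V1 c y| ≤ 2 * B := by
    intro y
    unfold LONG2_V1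
    refine (abs_sub _ _).trans ?_
    rw [abs_mul, abs_mul]
    calc _ ≤ B * 1 + 1 * B := by
          gcongr
          · exact hs1' _
          · exact t1 _
          · exact t1 _
          · exact hs1' _
      _ = _ := by ring
  have V2 : ∀ y, |LONG2_V2 c y| ≤ 2 * B + 2 * B ^ 2 := by
    intro y
    unfold LONG2_V2
    refine (abs_add_le _ _).trans ?_
    have h1 := abs_sub (LONG2_s2 (y + c + 2) * Real.smoothTransition (4 - (y + c)))
      (2 * (LONG2_s1 (y + c + 2) * LONG2_s1 (4 - (y + c))))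
    rw [abs_mul, abs_mul, abs_mul, abs_two] at h1
    rw [abs_mul (Real.smoothTransition (y + c + 2))]
    have h2 : |LONG2_s2 (y + c + 2)| * |Real.smoothTransition (4 - (y + c))| ≤ B * 1 := by
      gcongr
      · exact hs2' _
      · exact t1 _
    have h3 : |LONG2_s1 (y + c + 2)| * |LONG2_s1 (4 - (y + c))| ≤ B * B := by
      gcongr
      · exact hs1' _
      · exact hs1' _
    have h4 : |Real.smoothTransition (y + c + 2)| * |LONG2_s2 (4 - (y + c))| ≤ 1 * B := by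
      gcongr
      · exact t1 _
      · exact hs2' _
    nlinarith
  have hout : ∀ y, y ∉ Set.Icc (-c - 2) (-c - 2 + 6) →
      w (y + c) = 0 ∧ LONG2_V1 c y = 0 ∧ LONG2_V2 c y = 0 := by
    intro y hy
    rw [Set.mem_Icc, not_and_or, not_le, not_le] at hy
    rcases hy with hy | hy
    · have e0 : Real.smoothTransition (y + c + 2) = 0 :=
        Real.smoothTransition.zero_of_nonpos (by linarith)
      have e1 : LONG2_s1 (y + c + 2) = 0 := hz1 _ (by rw [Set.mem_Icc]; intro h; linarith [h.1])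
      have e2 : LONG2_s2 (y + c + 2) = 0 := hz2 _ (by rw [Set.mem_Icc]; intro h; linarith [h.1])
      unfold w LONG2_V1 LONG2_V2
      rw [e0, e1, e2]
      simp
    · have e0 : Real.smoothTransition (4 - (y + c)) = 0 :=
        Real.smoothTransition.zero_of_nonpos (by linarith)
      have e1 : LONG2_s1 (4 - (y + c)) = 0 := hz1 _ (by rw [Set.mem_Icc]; intro h; linarith [h.1])
      have e2 : LONG2_s2 (4 - (y + c)) = 0 := hz2 _ (by rw [Set.mem_Icc]; intro h; linarith [h.1])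
      unfold w LONG2_V1 LONG2_V2
      rw [e0, e1, e2]
      simp
  have hbeta : |β - 1| ≤ 1 := by rw [abs_le]; constructor <;> linarith
  have hexp : ∀ y, y ∈ Set.Icc (-c - 2) (-c - 2 + 6) → |Real.exp ((β - 1) * y)| ≤ 1 := by
    intro y hy
    rw [abs_of_pos (Real.exp_pos _), Real.exp_le_one_iff]
    have : 0 ≤ y := by linarith [hy.1]
    nlinarith
  have hE : ∀ y : ℝ, HasDerivAt (fun y : ℝ => Real.exp ((β - 1) * y))
      (Real.exp ((β - 1) * y) * (β - 1)) y := by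
    intro y
    have := ((hasDerivAt_id' y).const_mul (β - 1)).exp
    simpa using this
  have gen : ∀ (f : ℝ → ℝ) (D : ℝ), 0 ≤ D → (∀ y, |f y| ≤ D) →
      (∀ y, y ∉ Set.Icc (-c - 2) (-c - 2 + 6) → f y = 0) → ∀ y,
      |f y * Real.exp ((β - 1) * y)| ≤ D := by
    intro f D hD hf hz y
    by_cases h : y ∈ Set.Icc (-c - 2) (-c - 2 + 6)
    · rw [abs_mul]
      calc _ ≤ D * 1 := mul_le_mul (hf y) (hexp y h) (abs_nonneg _) hD
        _ = D := mul_one D
    · rw [hz y h]; simpa using hD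
  refine ⟨?_, ?_, ?_, ?_, ?_, ?_, ?_, ?_, ?_⟩
  · intro y
    unfold XFB_O XFB_O1
    refine HasDerivAt.congr_deriv ((LONG2_hV c y).mul (hE y)) ?_
    ring
  · intro y
    unfold XFB_O1 XFB_O2
    refine HasDerivAt.congr_deriv
      (((LONG2_hV1 c y).add ((LONG2_hV c y).const_mul (β - 1))).mul (hE y)) ?_
    simp only [Pi.add_apply]
    ring
  · unfold XFB_O2 LONG2_V1 LONG2_V2
    have := LONG2_cw
    have := LONG2_c0
    have := LONG2_c1
    have := LONG2_c2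
    fun_prop
  · intro y
    unfold XFB_O
    refine (gen (fun y => w (y + c)) 1 zero_le_one (fun y => tw _) (fun y hy => (hout y hy).1)
      y).trans ?_
    nlinarith
  · intro y
    unfold XFB_O1
    refine (gen (fun y => LONG2_V1 c y + (β - 1) * w (y + c)) (2 * B + 1) (by linarith)
      (fun y => ?_) (fun y hy => ?_) y).trans ?_
    · refine (abs_add_le _ _).trans (add_le_add (V1 y) ?_)
      rw [abs_mul]
      calc _ ≤ (1:ℝ) * 1 := mul_le_mul hbeta (tw _) (abs_nonneg _) zero_le_one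
        _ = 1 := one_mul 1
    · rw [(hout y hy).1, (hout y hy).2.1]; simp
    · nlinarith
  · intro y
    unfold XFB_O2
    refine (gen (fun y => LONG2_V2 c y + 2 * ((β - 1) * LONG2_V1 c y) + (β - 1) ^ 2 * w (y + c))
      ((2 * B + 2 * B ^ 2) + 2 * (2 * B) + 1) (by positivity)
      (fun y => ?_) (fun y hy => ?_) y).trans ?_
    · refine (abs_add_three _ _ _).trans ?_
      have h1 : |2 * ((β - 1) * LONG2_V1 c y)| ≤ 2 * (2 * B) := by
        rw [abs_mul, abs_mul, abs_two]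
        have := mul_le_mul hbeta (V1 y) (abs_nonneg _) zero_le_one
        linarith
      have h2 : |(β - 1) ^ 2 * w (y + c)| ≤ 1 := by
        rw [abs_mul, abs_pow]
        calc _ ≤ (1:ℝ) ^ 2 * 1 := by
              apply mul_le_mul _ (tw _) (abs_nonneg _) (by norm_num)
              exact pow_le_pow_left₀ (abs_nonneg _) hbeta 2
          _ = 1 := by norm_num
      exact add_le_add (add_le_add (V2 y) h1) h2
    · rw [(hout y hy).1, (hout y hy).2.1, (hout y hy).2.2]; simp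
    · nlinarith
  · intro y hy
    unfold XFB_O
    rw [(hout y hy).1]; simp
  · intro y hy
    unfold XFB_O1
    rw [(hout y hy).1, (hout y hy).2.1]; simp
  · intro y hy
    unfold XFB_O2
    rw [(hout y hy).1, (hout y hy).2.1, (hout y hy).2.2]; simp

theorem XFB_eq (X : ℕ) (β t : ℝ) (hX : 1 ≤ X) :
    Fb X β t = ∑ n ∈ Icc 1 (60 * X), XFB_W (XFB_O (-Real.log X) β) t n := by
  unfold Fb FF
  apply sum_congr rfl
  intro m hm
  rw [mem_Icc] at hm
  have hm0 : (0:ℝ) < m := by exact_mod_cast hm.1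
  have hX0 : (0:ℝ) < X := by exact_mod_cast hX
  unfold XFB_W XFB_O v
  show (((m : ℝ) ^ (β - 1) : ℝ) : ℂ) * _ * _ = _
  rw [Real.log_div hm0.ne' hX0.ne', ← sub_eq_add_neg, Real.rpow_def_of_pos hm0,
    mul_comm (Real.log (m:ℝ)) (β - 1)]
  push_cast
  ring



end Pool.Agent.Lib.H68T
end

-- from Lib.H68X.XBPS
section

/-!
# Chunk XBPS: local averages of the exceptional character
-/

open Finset MeasureTheory

namespace Pool.Agent.Lib.H68T

theorem XBPS_pow {a b s : ℝ} (ha : 1 ≤ a) (hab : a ≤ b) (hs0 : s ≤ 0) (hs : -1 ≤ s) :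
    0 ≤ a ^ s - b ^ s ∧ a ^ s - b ^ s ≤ (b - a) / b := by
  have ha0 : 0 < a := by linarith
  have hb0 : 0 < b := by linarith
  constructor
  · have := Real.rpow_le_rpow_of_nonpos ha0 hab hs0
    linarith
  · have h1 : 1 ≤ b / a := by rwa [one_le_div ha0]
    have h2 : (b / a) ^ (-1 : ℝ) ≤ (b / a) ^ s := Real.rpow_le_rpow_of_exponent_le h1 hs
    have h3 : b ^ s = a ^ s * (b / a) ^ s := by
      rw [← Real.mul_rpow ha0.le (by positivity)]
      congr 1
      field_simp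
    have h4 : (b / a) ^ (-1 : ℝ) = a / b := by
      rw [Real.rpow_neg_one, inv_div]
    have h5 : a ^ s ≤ 1 := Real.rpow_le_one_of_one_le_of_nonpos ha hs0
    have h6 : 0 ≤ a ^ s := Real.rpow_nonneg ha0.le _
    have h7 : a / b ≤ 1 := by rwa [div_le_one hb0]
    have h8 : (b - a) / b = 1 - a / b := by field_simp
    rw [h3, h8]
    rw [h4] at h2
    nlinarith

theorem XBPS_pow' {a b s : ℝ} (ha : 1 ≤ a) (hb : 1 ≤ b) (hs0 : s ≤ 0) (hs : -1 ≤ s) :
    |a ^ s - b ^ s| ≤ |a - b| / a := by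
  have ha0 : 0 < a := by linarith
  have hb0 : 0 < b := by linarith
  rcases le_total a b with h | h
  · obtain ⟨h1, h2⟩ := XBPS_pow ha h hs0 hs
    rw [abs_of_nonneg h1, abs_of_nonpos (by linarith), neg_sub]
    refine h2.trans ?_
    exact div_le_div_of_nonneg_left (by linarith) ha0 h
  · obtain ⟨h1, h2⟩ := XBPS_pow hb h hs0 hs
    rw [abs_of_nonpos (by linarith), neg_sub, abs_of_nonneg (by linarith)]
    exact h2


end Pool.Agent.Lib.H68T
end

-- from Lib.H68X.XG1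
section

/-!
# Chunk XG1: the model at integers coprime to `W`
-/

open Finset

namespace Pool.Agent.Lib.H68T

/-! ### auxiliary lemmas -/

theorem XG1_eq (f g : ArithmeticFunction ℝ) (hf : f.IsMultiplicative) (hg : g.IsMultiplicative)
    {n : ℕ} (hn : n ≠ 0) (h : ∀ p ∈ n.primeFactors, ∀ k, 1 ≤ k → f (p ^ k) = g (p ^ k)) :
    f n = g n := by
  rw [hf.multiplicative_factorization f hn, hg.multiplicative_factorization g hn]
  refine Finset.prod_congr rfl fun p hp => ?_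
  have hp' : p ∈ n.primeFactors := by simpa using hp
  refine h p hp' _ ?_
  rw [Nat.mem_primeFactors] at hp'
  exact (hp'.1.dvd_iff_one_le_factorization hn).1 hp'.2.1

theorem XG1_F_nsq (r : ℕ) (m : ℤ) {n : ℕ} (hn : ¬ Squarefree n) : GAM_F r m n = 0 := by
  rcases Nat.eq_zero_or_pos n with rfl | hpos
  · simp
  have hn0 : n ≠ 0 := by omega
  rw [(GAM_F_mult r m).multiplicative_factorization _ hn0]
  rw [Nat.squarefree_iff_factorization_le_one hn0] at hn
  push Not at hn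
  obtain ⟨p, hp⟩ := hn
  have hpn : p ∈ n.primeFactors := by
    rw [← Nat.support_factorization, Finsupp.mem_support_iff]
    omega
  refine Finset.prod_eq_zero (i := p) (by rwa [Nat.support_factorization]) ?_
  obtain ⟨k, hk⟩ := Nat.exists_eq_add_of_le (show 2 ≤ n.factorization p by omega)
  change GAM_F r m (p ^ n.factorization p) = 0
  rw [hk, add_comm 2 k]
  exact GAM_F_prime_pow r m p k (Nat.prime_of_mem_primeFactors hpn)

theorem XG1_F1 (m : ℤ) (q : ℕ) : GAM_F 1 m q =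
    (ArithmeticFunction.moebius q : ℝ) / (Nat.totient q : ℝ) * cq q m := by
  rw [GAM_identity, ArithmeticFunction.pdiv_apply, ArithmeticFunction.pmul_apply, GAM_c_apply,
    ArithmeticFunction.intCoe_apply]
  change _ / ((Nat.totient q : ℕ) : ℝ) = _
  ring

/-- `μ²/φ` -/
noncomputable def XG1_K : ArithmeticFunction ℝ :=
  (((ArithmeticFunction.moebius : ArithmeticFunction ℤ) : ArithmeticFunction ℝ).pmul
    ((ArithmeticFunction.moebius : ArithmeticFunction ℤ) : ArithmeticFunction ℝ)).pdiv GAM_phi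

theorem XG1_K_apply (n : ℕ) : XG1_K n =
    (ArithmeticFunction.moebius n : ℝ) ^ 2 / (Nat.totient n : ℝ) := by
  unfold XG1_K
  rw [ArithmeticFunction.pdiv_apply, ArithmeticFunction.pmul_apply,
    ArithmeticFunction.intCoe_apply]
  change _ / ((Nat.totient n : ℕ) : ℝ) = _
  ring

theorem XG1_K_mult : XG1_K.IsMultiplicative :=
  (ArithmeticFunction.isMultiplicative_moebius.intCast.pmul
    ArithmeticFunction.isMultiplicative_moebius.intCast).pdiv GAM_phi_mult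

theorem XG1_not_dvd {n p : ℕ} {m : ℤ} (h : IsCoprime (n : ℤ) m) (hp : p ∈ n.primeFactors) :
    ¬ (p : ℤ) ∣ m := by
  rw [Nat.mem_primeFactors] at hp
  have h1 : IsCoprime (p : ℤ) m := by
    obtain ⟨k, hk⟩ := hp.2.1
    rw [hk, Nat.cast_mul, IsCoprime.mul_left_iff] at h
    exact h.1
  exact (Nat.prime_iff_prime_int.mp hp.1).coprime_iff_not_dvd.1 h1

theorem XG1_F_cop (r : ℕ) (m : ℤ) {n : ℕ} (hn : n ≠ 0) (hm : IsCoprime (n : ℤ) m)
    (hr : Nat.Coprime n r) : GAM_F r m n = XG1_K n := by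
  refine XG1_eq _ _ (GAM_F_mult r m) XG1_K_mult hn fun p hp k hk => ?_
  have hpp := Nat.prime_of_mem_primeFactors hp
  have h1 := XG1_not_dvd hm hp
  have h2 : ¬ p ∣ r := fun h => by
    have := Nat.dvd_gcd (Nat.dvd_of_mem_primeFactors hp) h
    rw [hr] at this
    exact hpp.one_lt.ne' (Nat.dvd_one.1 this)
  rcases Nat.lt_or_ge 1 k with hk1 | hk1
  · obtain ⟨j, hj⟩ := Nat.exists_eq_add_of_le (show 2 ≤ k by omega)
    rw [hj, add_comm 2 j, GAM_F_prime_pow _ _ _ _ hpp, XG1_K_apply,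
      ArithmeticFunction.moebius_apply_prime_pow hpp (by omega), if_neg (by omega)]
    simp
  · have hk' : k = 1 := by omega
    rw [hk', pow_one, GAM_F_prime _ _ _ hpp, if_neg h1, if_neg h2, XG1_K_apply,
      ArithmeticFunction.moebius_apply_prime hpp, Nat.totient_prime hpp,
      Nat.cast_sub hpp.one_lt.le]
    norm_num

theorem XG1_F_ncop (r : ℕ) (m : ℤ) {n : ℕ} (hn : n ≠ 0) (hm : IsCoprime (n : ℤ) m)
    (hr : ¬ Nat.Coprime n r) : GAM_F r m n = 0 := by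
  obtain ⟨p, hp, h1, h2⟩ := Nat.Prime.not_coprime_iff_dvd.1 hr
  have hpn : p ∈ n.primeFactors := Nat.mem_primeFactors.2 ⟨hp, h1, hn⟩
  rw [(GAM_F_mult r m).multiplicative_factorization _ hn]
  refine Finset.prod_eq_zero (i := p) (by rwa [Nat.support_factorization]) ?_
  change GAM_F r m (p ^ n.factorization p) = 0
  have hk : 1 ≤ n.factorization p := (hp.dvd_iff_one_le_factorization hn).1 h1
  rcases Nat.lt_or_ge 1 (n.factorization p) with hk1 | hk1
  · obtain ⟨j, hj⟩ := Nat.exists_eq_add_of_le (show 2 ≤ n.factorization p by omega)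
    rw [hj, add_comm 2 j, GAM_F_prime_pow _ _ _ _ hp]
  · have hk' : n.factorization p = 1 := by omega
    rw [hk', pow_one, GAM_F_prime _ _ _ hp, if_neg (XG1_not_dvd hm hpn), if_pos h2]

theorem XG1_F_r (r : ℕ) (m : ℤ) {n : ℕ} (hn : n ≠ 0) (hr : Nat.Coprime n r) :
    GAM_F r m n = GAM_F 1 m n := by
  refine XG1_eq _ _ (GAM_F_mult r m) (GAM_F_mult 1 m) hn fun p hp k hk => ?_
  have hpp := Nat.prime_of_mem_primeFactors hp
  have h2 : ¬ p ∣ r := fun h => by
    have := Nat.dvd_gcd (Nat.dvd_of_mem_primeFactors hp) h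
    rw [hr] at this
    exact hpp.one_lt.ne' (Nat.dvd_one.1 this)
  have h3 : ¬ p ∣ 1 := fun h => hpp.one_lt.ne' (Nat.dvd_one.1 h)
  rcases Nat.lt_or_ge 1 k with hk1 | hk1
  · obtain ⟨j, hj⟩ := Nat.exists_eq_add_of_le (show 2 ≤ k by omega)
    rw [hj, add_comm 2 j, GAM_F_prime_pow _ _ _ _ hpp, GAM_F_prime_pow _ _ _ _ hpp]
  · have hk' : k = 1 := by omega
    rw [hk', pow_one, GAM_F_prime _ _ _ hpp, GAM_F_prime _ _ _ hpp, if_neg h2, if_neg h3]

/-- splitting off the part dividing `W` -/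
theorem XG1_split (f : ArithmeticFunction ℝ) (hf : f.IsMultiplicative)
    (hsq : ∀ n, ¬ Squarefree n → f n = 0) (Q W : ℕ) (hW : 0 < W) :
    ∑ q ∈ Icc 1 Q, f q = ∑ q ∈ QW Q W, f q *
      ∑ w ∈ W.divisors.filter (fun w => w * q ≤ Q), f w := by
  have h1 : ∑ q ∈ Icc 1 Q, f q = ∑ q ∈ (Icc 1 Q).filter Squarefree, f q := by
    rw [Finset.sum_filter]
    refine Finset.sum_congr rfl fun q _ => ?_
    split_ifs with h
    · rfl
    · exact hsq q h
  have h2 : ∑ q ∈ QW Q W, f q * ∑ w ∈ W.divisors.filter (fun w => w * q ≤ Q), f w =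
      ∑ x ∈ ((QW Q W) ×ˢ W.divisors).filter
        (fun x => x.2 * x.1 ≤ Q ∧ Squarefree (x.2 * x.1)), f (x.2 * x.1) := by
    rw [Finset.sum_filter, Finset.sum_product]
    refine Finset.sum_congr rfl fun q hq => ?_
    rw [Finset.mul_sum, Finset.sum_filter]
    refine Finset.sum_congr rfl fun w hw => ?_
    have hqW : Nat.Coprime q W := (mem_filter.1 hq).2
    have hwW : w ∣ W := (Nat.mem_divisors.1 hw).1
    have hwq : Nat.Coprime w q := (Nat.Coprime.coprime_dvd_right hwW hqW).symm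
    simp only
    by_cases h3 : w * q ≤ Q
    · by_cases h4 : Squarefree (w * q)
      · rw [if_pos h3, if_pos ⟨h3, h4⟩, hf.map_mul_of_coprime hwq, mul_comm]
      · rw [if_pos h3, if_neg (fun h => h4 h.2), mul_comm, ← hf.map_mul_of_coprime hwq,
          hsq _ h4]
    · rw [if_neg h3, if_neg (fun h => h3 h.1)]
  rw [h1, h2]
  refine Finset.sum_nbij' (fun q => (q / Nat.gcd q W, Nat.gcd q W)) (fun x => x.2 * x.1)
    ?_ ?_ ?_ ?_ ?_
  · intro q hq
    rw [mem_filter, mem_Icc] at hq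
    obtain ⟨⟨hq1, hq2⟩, hq3⟩ := hq
    have hg0 : 0 < Nat.gcd q W := Nat.gcd_pos_of_pos_left _ (by omega)
    have hmul : Nat.gcd q W * (q / Nat.gcd q W) = q := Nat.mul_div_cancel' (Nat.gcd_dvd_left _ _)
    have hq0 : 0 < q / Nat.gcd q W := Nat.div_pos (Nat.gcd_le_left _ (by omega)) hg0
    have hle : q / Nat.gcd q W ≤ Q := (Nat.div_le_self _ _).trans hq2
    have hcop : Nat.Coprime (q / Nat.gcd q W) W := by
      rw [Nat.coprime_iff_gcd_eq_one]
      by_contra hne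
      obtain ⟨p, hp, hpd⟩ := Nat.exists_prime_and_dvd hne
      have h5 : p ∣ q / Nat.gcd q W := hpd.trans (Nat.gcd_dvd_left _ _)
      have h6 : p ∣ W := hpd.trans (Nat.gcd_dvd_right _ _)
      have h7 : p ∣ q := h5.trans (Nat.div_dvd_of_dvd (Nat.gcd_dvd_left _ _))
      have h8 : p ∣ Nat.gcd q W := Nat.dvd_gcd h7 h6
      have h9 : p * p ∣ q := by
        rw [← hmul]
        exact Nat.mul_dvd_mul h8 h5
      have := hq3 p h9
      exact hp.one_lt.ne' (Nat.isUnit_iff.1 this)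
    rw [mem_filter, mem_product]
    refine ⟨⟨?_, ?_⟩, ?_, ?_⟩
    · unfold QW
      rw [mem_filter, mem_Icc]
      exact ⟨⟨hq0, hle⟩, hcop⟩
    · exact Nat.mem_divisors.2 ⟨Nat.gcd_dvd_right _ _, hW.ne'⟩
    · simp only [hmul]
      exact hq2
    · simp only [hmul]
      exact hq3
  · intro x hx
    rw [mem_filter, mem_product] at hx
    obtain ⟨⟨h3, h4⟩, h5, h6⟩ := hx
    rw [mem_filter, mem_Icc]
    exact ⟨⟨Nat.pos_of_ne_zero h6.ne_zero, h5⟩, h6⟩
  · intro q hq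
    exact Nat.mul_div_cancel' (Nat.gcd_dvd_left _ _)
  · rintro ⟨a, w⟩ hx
    rw [mem_filter, mem_product] at hx
    obtain ⟨⟨h3, h4⟩, h5, h6⟩ := hx
    unfold QW at h3
    rw [mem_filter] at h3
    simp only at h3 h4 h5 h6 ⊢
    have hw0 : 0 < w := Nat.pos_of_mem_divisors h4
    have hg : Nat.gcd (w * a) W = w := by
      rw [Nat.Coprime.gcd_mul_right_cancel w h3.2]
      exact Nat.gcd_eq_left (Nat.mem_divisors.1 h4).1
    rw [hg, Nat.mul_div_cancel_left _ hw0]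
  · intro q hq
    congr 1
    exact (Nat.mul_div_cancel' (Nat.gcd_dvd_left _ _)).symm

theorem XG1_cop_of_dvd {w W : ℕ} {m : ℤ} (h : w ∣ W) (hm : IsCoprime m (W : ℤ)) :
    IsCoprime (w : ℤ) m :=
  (IsCoprime.of_isCoprime_of_dvd_right hm (Int.natCast_dvd_natCast.2 h)).symm

/-- Every squarefree `q ≤ Q` is `q' w` with `w = gcd(q, W)` (squarefree, divides `W`) and `q'` coprime
to `W`; `c_q = c_{q'} c_w`, `c_w(m) = μ(w)` for `(m, w) = 1` (`cq_squarefree`), `μ(q) = μ(q') μ(w)`,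
`φ(q) = φ(q') φ(w)`. -/
theorem G_coprime (Q W : ℕ) (hW : 0 < W) (m : ℤ) (hm : IsCoprime m (W : ℤ)) :
    G Q m = ∑ q ∈ QW Q W, (ArithmeticFunction.moebius q : ℝ) / (Nat.totient q : ℝ) * cq q m *
      TW Q W q := by
  have h1 : G Q m = ∑ q ∈ Icc 1 Q, GAM_F 1 m q := by
    unfold G
    exact Finset.sum_congr rfl fun q _ => (XG1_F1 m q).symm
  rw [h1, XG1_split _ (GAM_F_mult 1 m) (fun n hn => XG1_F_nsq 1 m hn) Q W hW]
  refine Finset.sum_congr rfl fun q _ => ?_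
  rw [XG1_F1]
  congr 1
  unfold TW
  refine Finset.sum_congr rfl fun w hw => ?_
  rw [mem_filter] at hw
  have hw0 := (Nat.pos_of_mem_divisors hw.1).ne'
  rw [XG1_F_cop 1 m hw0 (XG1_cop_of_dvd (Nat.mem_divisors.1 hw.1).1 hm) (Nat.coprime_one_right w),
    XG1_K_apply]

/-- The same for `Γ_r`, `r ∣ W`. By the computation in the docstring of `abs_Gam_le`
(file `H68T/GAM2.lean`; see the auxiliary lemmas there): for `(m, r) = 1` and `q = r q'` the inner sum
`∑_{d ∣ q, r ∣ d, (d,m)=1} μ(q/d) d/φ(d)` is `(r/φ(r)) μ(q') c_{q'}(m)/φ(q')` if `q'` is squarefree and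
coprime to `r`, and `0` otherwise. Then write `q' = q'' w` with `w = gcd(q', W)` (coprime to `r`) as in
`G_coprime`. -/
theorem Gam_coprime (Q W r : ℕ) (hW : 0 < W) (hr : r ∣ W) (m : ℤ)
    (hm : IsCoprime m (W : ℤ)) :
    Gam Q r m = ∑ q ∈ QW Q W, (ArithmeticFunction.moebius q : ℝ) / (Nat.totient q : ℝ) *
      cq q m * TWr Q W r q := by
  have hr0 : 0 < r := Nat.pos_of_dvd_of_pos hr hW
  have hrm : IsCoprime (r : ℤ) m := XG1_cop_of_dvd hr hm
  have himg : (Icc 1 Q).filter (fun q => r ∣ q) = (Icc 1 (Q / r)).image (fun q => r * q) := by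
    ext q
    simp only [mem_filter, mem_Icc, mem_image]
    constructor
    · rintro ⟨⟨h1, h2⟩, ⟨e, rfl⟩⟩
      refine ⟨e, ⟨?_, ?_⟩, rfl⟩
      · rcases Nat.eq_zero_or_pos e with rfl | h
        · simp at h1
        · exact h
      · rw [Nat.le_div_iff_mul_le (by omega), mul_comm]
        exact h2
    · rintro ⟨e, ⟨h1, h2⟩, rfl⟩
      refine ⟨⟨Nat.mul_pos (by omega) (by omega), ?_⟩, Dvd.intro _ rfl⟩
      rw [Nat.le_div_iff_mul_le (by omega), mul_comm] at h2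
      exact h2
  have hGam : Gam Q r m = (r : ℝ) / Nat.totient r * ∑ q ∈ Icc 1 (Q / r), GAM_F r m q := by
    unfold Gam
    rw [himg, Finset.sum_image (fun a _ b _ h => Nat.eq_of_mul_eq_mul_left (by omega) h),
      Finset.mul_sum]
    refine Finset.sum_congr rfl (fun q hq => ?_)
    rw [mem_Icc] at hq
    exact GAM_inner r m hr0.ne' hrm q (by omega)
  rw [hGam, XG1_split _ (GAM_F_mult r m) (fun n hn => XG1_F_nsq r m hn) (Q / r) W hW,
    Finset.mul_sum]
  have hsub : QW (Q / r) W ⊆ QW Q W := by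
    unfold QW
    refine Finset.filter_subset_filter _ (Finset.Icc_subset_Icc_right (Nat.div_le_self _ _))
  rw [← Finset.sum_subset hsub]
  · refine Finset.sum_congr rfl fun q hq => ?_
    unfold QW at hq
    rw [mem_filter, mem_Icc] at hq
    have hqr : Nat.Coprime q r := Nat.Coprime.coprime_dvd_right hr hq.2
    rw [XG1_F_r r m (by omega) hqr, XG1_F1]
    have hsum : ∑ w ∈ W.divisors.filter (fun w => w * q ≤ Q / r), GAM_F r m w =
        ∑ w ∈ W.divisors.filter (fun w => Nat.Coprime w r ∧ w * r * q ≤ Q),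
          (ArithmeticFunction.moebius w : ℝ) ^ 2 / (Nat.totient w : ℝ) := by
      rw [Finset.sum_filter, Finset.sum_filter]
      refine Finset.sum_congr rfl fun w hw => ?_
      have hw0 := (Nat.pos_of_mem_divisors hw).ne'
      have hwm := XG1_cop_of_dvd (Nat.mem_divisors.1 hw).1 hm
      have hiff : w * q ≤ Q / r ↔ w * r * q ≤ Q := by
        rw [Nat.le_div_iff_mul_le hr0]
        have : w * q * r = w * r * q := by ring
        rw [this]
      by_cases h1 : Nat.Coprime w r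
      · by_cases h2 : w * q ≤ Q / r
        · rw [if_pos h2, if_pos ⟨h1, hiff.1 h2⟩, XG1_F_cop r m hw0 hwm h1, XG1_K_apply]
        · rw [if_neg h2, if_neg (fun h => h2 (hiff.2 h.2))]
      · rw [XG1_F_ncop r m hw0 hwm h1, ite_self]
        exact (if_neg (fun h : _ ∧ _ => h1 h.1)).symm
    rw [hsum]
    unfold TWr
    ring
  · intro q hq hnq
    unfold QW at hq hnq
    rw [mem_filter, mem_Icc] at hq hnq
    have h1 : Q / r < q := by
      by_contra hc
      exact hnq ⟨⟨hq.1.1, by omega⟩, hq.2⟩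
    have h2 : TWr Q W r q = 0 := by
      unfold TWr
      rw [Finset.filter_false_of_mem, Finset.sum_empty, mul_zero]
      rintro w hw ⟨-, h3⟩
      have hw0 := Nat.pos_of_mem_divisors hw
      rw [Nat.div_lt_iff_lt_mul hr0] at h1
      have h4 : 1 * (r * q) ≤ w * (r * q) := Nat.mul_le_mul_right _ hw0
      have h5 : w * r * q = w * (r * q) := by ring
      have h6 : q * r = r * q := by ring
      omega
    rw [h2, mul_zero]

end Pool.Agent.Lib.H68T
end

-- from Lib.H68X.XTW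
section

/-!
# Chunk XTW: the divisor sums `TW`, `TWr`
-/

open Finset

namespace Pool.Agent.Lib.H68T

theorem XTW_term_nonneg (w : ℕ) :
    0 ≤ (ArithmeticFunction.moebius w : ℝ) ^ 2 / (Nat.totient w : ℝ) := by positivity

/-- `n / φ(n)` depends only on the set of primes dividing `n`. -/
theorem XTW_ratio {a b : ℕ} (ha : 0 < a) (hb : 0 < b) (h : a.primeFactors = b.primeFactors) :
    (a : ℝ) / (Nat.totient a : ℝ) = (b : ℝ) / (Nat.totient b : ℝ) := by
  have hφa : (0 : ℝ) < (Nat.totient a : ℝ) := by exact_mod_cast Nat.totient_pos.mpr ha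
  have hφb : (0 : ℝ) < (Nat.totient b : ℝ) := by exact_mod_cast Nat.totient_pos.mpr hb
  have h1 := congrArg (fun n : ℕ => (n : ℝ)) (Nat.totient_mul_prod_primeFactors a)
  have h2 := congrArg (fun n : ℕ => (n : ℝ)) (Nat.totient_mul_prod_primeFactors b)
  simp only [Nat.cast_mul] at h1 h2
  rw [h] at h1
  have hP : (0 : ℝ) < ((∏ p ∈ b.primeFactors, (p - 1) : ℕ) : ℝ) := by
    have : 0 < ∏ p ∈ b.primeFactors, (p - 1) := by
      apply Finset.prod_pos
      intro p hp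
      have := (Nat.prime_of_mem_primeFactors hp).two_le
      omega
    exact_mod_cast this
  rw [div_eq_div_iff hφa.ne' hφb.ne']
  have h3 : ((a : ℝ) * (Nat.totient b : ℝ)) * ((∏ p ∈ b.primeFactors, (p - 1) : ℕ) : ℝ) =
      ((b : ℝ) * (Nat.totient a : ℝ)) * ((∏ p ∈ b.primeFactors, (p - 1) : ℕ) : ℝ) := by
    calc ((a : ℝ) * (Nat.totient b : ℝ)) * ((∏ p ∈ b.primeFactors, (p - 1) : ℕ) : ℝ)
        = (Nat.totient b : ℝ) * ((a : ℝ) * ((∏ p ∈ b.primeFactors, (p - 1) : ℕ) : ℝ)) := by ring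
      _ = (Nat.totient b : ℝ) * ((Nat.totient a : ℝ) * ((∏ p ∈ b.primeFactors, p : ℕ) : ℝ)) := by
          rw [h1]
      _ = (Nat.totient a : ℝ) * ((Nat.totient b : ℝ) * ((∏ p ∈ b.primeFactors, p : ℕ) : ℝ)) := by
          ring
      _ = (Nat.totient a : ℝ) * ((b : ℝ) * ((∏ p ∈ b.primeFactors, (p - 1) : ℕ) : ℝ)) := by
          rw [h2]
      _ = _ := by ring
  exact mul_right_cancel₀ hP.ne' h3

theorem XTW_full (W r : ℕ) (hW : 0 < W) (hr : r ∣ W) :
    (r : ℝ) / (Nat.totient r : ℝ) *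
      ∑ w ∈ W.divisors.filter (fun w => Nat.Coprime w r),
        (ArithmeticFunction.moebius w : ℝ) ^ 2 / (Nat.totient w : ℝ) =
      (W : ℝ) / Nat.totient W := by
  have hr0 : 0 < r := Nat.pos_of_dvd_of_pos hr hW
  set P := W.primeFactors.filter (fun p => ¬ p ∣ r) with hP
  have hpf : ∀ p ∈ P, p.Prime := fun p hp =>
    Nat.prime_of_mem_primeFactors (mem_of_mem_filter p hp)
  set V := ∏ p ∈ P, p with hV
  have hVpf : V.primeFactors = P := Nat.primeFactors_prod hpf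
  have hV0 : 0 < V := Finset.prod_pos fun p hp => (hpf p hp).pos
  have hVW : V ∣ W := by
    refine dvd_trans ?_ (Nat.prod_primeFactors_dvd W)
    exact Finset.prod_dvd_prod_of_subset _ _ _ (filter_subset _ _)
  have hVr : Nat.Coprime V r := by
    rw [hV]
    apply Nat.Coprime.prod_left
    intro p hp
    exact (Nat.Prime.coprime_iff_not_dvd (hpf p hp)).mpr (mem_filter.mp hp).2
  have hsum : ∑ w ∈ W.divisors.filter (fun w => Nat.Coprime w r),
        (ArithmeticFunction.moebius w : ℝ) ^ 2 / (Nat.totient w : ℝ) =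
      ∑ w ∈ V.divisors, (ArithmeticFunction.moebius w : ℝ) ^ 2 / (Nat.totient w : ℝ) := by
    symm
    apply Finset.sum_subset
    · intro w hw
      rw [mem_filter, Nat.mem_divisors]
      have hwV := Nat.dvd_of_mem_divisors hw
      exact ⟨⟨hwV.trans hVW, hW.ne'⟩, Nat.Coprime.coprime_dvd_left hwV hVr⟩
    · intro w hw hwV
      rw [mem_filter, Nat.mem_divisors] at hw
      have hns : ¬ Squarefree w := by
        intro hs
        apply hwV
        rw [Nat.mem_divisors]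
        refine ⟨?_, hV0.ne'⟩
        rw [← Nat.prod_primeFactors_of_squarefree hs]
        apply Finset.prod_dvd_prod_of_subset
        intro p hp
        rw [hP, mem_filter]
        refine ⟨Nat.primeFactors_mono hw.1.1 hW.ne' hp, fun hpr => ?_⟩
        have hpp := Nat.prime_of_mem_primeFactors hp
        have hpw := Nat.dvd_of_mem_primeFactors hp
        have := Nat.dvd_gcd hpw hpr
        rw [hw.2] at this
        exact hpp.one_lt.ne' (Nat.dvd_one.mp this)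
      rw [ArithmeticFunction.moebius_eq_zero_of_not_squarefree hns]
      simp
  rw [hsum, cg1_T_full V hV0]
  have h1 : (r : ℝ) / (Nat.totient r : ℝ) * ((V : ℝ) / (Nat.totient V : ℝ)) =
      ((r * V : ℕ) : ℝ) / (Nat.totient (r * V) : ℝ) := by
    rw [Nat.totient_mul hVr.symm]
    push_cast
    rw [div_mul_div_comm]
  rw [h1]
  apply XTW_ratio (Nat.mul_pos hr0 hV0) hW
  rw [Nat.primeFactors_mul hr0.ne' hV0.ne', hVpf, hP]
  ext p
  simp only [mem_union, mem_filter, Nat.mem_primeFactors]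
  constructor
  · rintro (⟨h1, h2, -⟩ | ⟨h1, -⟩)
    · exact ⟨h1, h2.trans hr, hW.ne'⟩
    · exact h1
  · rintro ⟨h1, h2, h3⟩
    by_cases hpr : p ∣ r
    · exact Or.inl ⟨h1, hpr, hr0.ne'⟩
    · exact Or.inr ⟨⟨h1, h2, h3⟩, hpr⟩

theorem TW_nonneg (Q W q : ℕ) : 0 ≤ TW Q W q :=
  sum_nonneg fun w _ => XTW_term_nonneg w

/-- `∑_{w ∣ W} μ²(w)/φ(w) = W/φ(W)` -/
theorem TW_le (Q W q : ℕ) (hW : 0 < W) : TW Q W q ≤ (W : ℝ) / Nat.totient W := by
  rw [← cg1_T_full W hW]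
  exact sum_le_sum_of_subset_of_nonneg (filter_subset _ _) fun w _ _ => XTW_term_nonneg w

theorem TW_eq (Q W q : ℕ) (hW : 0 < W) (h : W * q ≤ Q) :
    TW Q W q = (W : ℝ) / Nat.totient W := by
  rw [← cg1_T_full W hW, TW]
  congr 1
  apply filter_true_of_mem
  intro w hw
  exact (Nat.mul_le_mul_right q (Nat.divisor_le hw)).trans h

theorem TWr_nonneg (Q W r q : ℕ) : 0 ≤ TWr Q W r q := by
  unfold TWr
  exact mul_nonneg (by positivity) (sum_nonneg fun w _ => XTW_term_nonneg w)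

/-- `(r/φ(r)) ∑_{w ∣ W, (w, r) = 1} μ²(w)/φ(w) = W/φ(W)` for `r ∣ W`: product over the primes
dividing `W`. -/
theorem TWr_le (Q W r q : ℕ) (hW : 0 < W) (hr : r ∣ W) :
    TWr Q W r q ≤ (W : ℝ) / Nat.totient W := by
  rw [← XTW_full W r hW hr, TWr]
  apply mul_le_mul_of_nonneg_left _ (by positivity)
  apply sum_le_sum_of_subset_of_nonneg _ fun w _ _ => XTW_term_nonneg w
  intro w hw
  rw [mem_filter] at hw ⊢
  exact ⟨hw.1, hw.2.1⟩

/-- All divisors `w` of `W` coprime to `r` satisfy `w r ∣ W`, so `w r q ≤ W q ≤ Q`. -/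
theorem TWr_eq (Q W r q : ℕ) (hW : 0 < W) (hr : r ∣ W) (h : W * q ≤ Q) :
    TWr Q W r q = (W : ℝ) / Nat.totient W := by
  rw [← XTW_full W r hW hr, TWr]
  congr 2
  apply filter_congr
  intro w hw
  constructor
  · exact fun h => h.1
  · intro hc
    refine ⟨hc, ?_⟩
    have h1 : w * r ∣ W := Nat.Coprime.mul_dvd_of_dvd_of_dvd hc (Nat.dvd_of_mem_divisors hw) hr
    exact (Nat.mul_le_mul_right q (Nat.le_of_dvd hW h1)).trans h

end Pool.Agent.Lib.H68T
end

-- from Lib.H68X.XCG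
section

/-!
# Chunk XCG: pair correlations and means of the model with exceptional term
-/

open Finset

namespace Pool.Agent.Lib.H68T








theorem XCG_W_sq (Q W : ℕ) (hW : 0 < W) (hWQ : W ^ 100 ≤ Q) : W ^ 2 ≤ Q :=
  (Nat.pow_le_pow_right hW (by norm_num)).trans hWQ

theorem XCG_D_sq (Q W : ℕ) (hW : 0 < W) (hWQ : W ^ 100 ≤ Q) :
    ((W : ℝ) / Nat.totient W) ^ 2 ≤ Q := by
  have h1 : (1 : ℝ) ≤ Nat.totient W := by exact_mod_cast Nat.totient_pos.mpr hW
  have h2 : (W : ℝ) / Nat.totient W ≤ W := div_le_self (by positivity) h1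
  calc ((W : ℝ) / Nat.totient W) ^ 2 ≤ (W : ℝ) ^ 2 := pow_le_pow_left₀ (by positivity) h2 2
    _ ≤ Q := by exact_mod_cast XCG_W_sq Q W hW hWQ

/-- The diagonal terms. -/
theorem XCG_cq_le (q : ℕ) (d : ℤ) :
    ((ArithmeticFunction.moebius q : ℝ) / (Nat.totient q : ℝ)) ^ 2 * |cq q d| ≤
      if Squarefree q then (Nat.totient (Nat.gcd q d.natAbs) : ℝ) / (Nat.totient q : ℝ) ^ 2
      else 0 := by
  split_ifs with h
  · have h1 : (ArithmeticFunction.moebius q : ℝ) ^ 2 = 1 := by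
      exact_mod_cast ArithmeticFunction.moebius_sq_eq_one_of_squarefree h
    rw [div_pow, h1, cq_squarefree q h d, abs_mul, one_div, inv_mul_eq_div]
    apply div_le_div_of_nonneg_right _ (by positivity)
    have h2 := cg1_abs_moebius_le (q / Nat.gcd q d.natAbs)
    have h3 : |(Nat.totient (Nat.gcd q d.natAbs) : ℝ)| = Nat.totient (Nat.gcd q d.natAbs) :=
      abs_of_nonneg (by positivity)
    rw [h3]
    have h4 : (0 : ℝ) ≤ Nat.totient (Nat.gcd q d.natAbs) := by positivity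
    nlinarith
  · rw [ArithmeticFunction.moebius_eq_zero_of_not_squarefree h]
    simp




end Pool.Agent.Lib.H68T
end

-- from Lib.H18Q.PDefs
section

/-!
# Project H18Q: definitions for module P
-/

open Finset

namespace Pool.Agent.Lib.H18Q

open Pool.Agent.Lib.H68T

noncomputable section

/-- The order of the derivative: `⌊log X / 64⌋`. -/
def kX (X : ℕ) : ℕ := ⌊Real.log X / 64⌋₊

/-- The Gamma density `(1/64)^(k+1) u^k e^(-u/64)/k!`. -/
def Wd (k : ℕ) (u : ℝ) : ℝ :=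
  (1 / 64 : ℝ) ^ (k + 1) * u ^ k / (k.factorial : ℝ) * Real.exp (-(u / 64))

/-- The weighted series `∑ Λ(n) c(n) n^(-iv) Jk(1/64, k, n)`. -/
def Pk (c : ℕ → ℂ) (k : ℕ) (v : ℝ) : ℂ :=
  ∑' n : ℕ, ((ArithmeticFunction.vonMangoldt n * Jk (1 / 64) k n : ℝ) : ℂ) * c n *
    (n : ℂ) ^ (-(v * Complex.I))

/-- The main term `((1/64)/(1/64 + 1 - b + iv))^(k+1)`. -/
def Mk (b : ℝ) (k : ℕ) (v : ℝ) : ℂ :=
  ((1 / 64 : ℝ) / ((1 / 64 + 1 - b : ℝ) + v * Complex.I) : ℂ) ^ (k + 1)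

/-- The smooth main term `∫ w(u - log X) e^(-(1 - b + it) u) du`. -/
def Mb (X : ℕ) (b t : ℝ) : ℂ :=
  ∫ u : ℝ, (w (u - Real.log X) : ℂ) * Complex.exp (-((1 - b : ℝ) + t * Complex.I) * u)

/-- A family of entire functions attached to the primitive characters of conductor at most `Q`,
with growth data, whose zeros are among those of the L-functions. -/
structure Fam (C0 : ℝ) (Q : ℕ) (g : (Σ r : ℕ, DirichletCharacter ℂ r) → ℂ → ℂ) : Prop where
  dat : ∀ p ∈ PC Q, LDat C0 (Real.log Q) ((Q : ℝ) ^ 10) (g p)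
  zer : ∀ p ∈ PC Q, ∀ ρ, g p ρ = 0 → Lp p ρ = 0
  ord : ∀ p ∈ PC Q, ∀ ρ, od (g p) ρ ≤ od (Lp p) ρ

end

end Pool.Agent.Lib.H18Q
end

-- from Lib.H18Q.PB2
section

/-!
# Project H18Q, chunk PB2: the quotient of the bump by the Gamma density
-/

open Finset

namespace Pool.Agent.Lib.H18Q

open Pool.Agent.Lib.H68T

/-- One step: a smooth function vanishing outside `[a, b]`. -/
theorem pb2_step (g : ℝ → ℝ) (a b : ℝ) (hg : ContDiff ℝ (⊤ : ℕ∞) g)
    (hz : ∀ y, y ∉ Set.Icc a b → g y = 0) :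
    (∀ y, HasDerivAt g (deriv g y) y) ∧ ContDiff ℝ (⊤ : ℕ∞) (deriv g) ∧
    (∀ y, y ∉ Set.Icc a b → deriv g y = 0) ∧ ∃ M : ℝ, ∀ y, |g y| ≤ M := by
  obtain ⟨h1, h2⟩ := contDiff_infty_iff_deriv.mp hg
  have hsup : Function.support g ⊆ Set.Icc a b := by
    intro y hy
    by_contra h
    exact hy (hz y h)
  have hts : tsupport g ⊆ Set.Icc a b := closure_minimal hsup isClosed_Icc
  refine ⟨fun y => (h1 y).hasDerivAt, h2, ?_, ?_⟩
  · intro y hy
    by_contra h
    exact hy (hts (support_deriv_subset h))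
  · have hc : HasCompactSupport g := isCompact_Icc.of_isClosed_subset (isClosed_tsupport _) hts
    obtain ⟨C, hC⟩ := hc.exists_bound_of_continuous hg.continuous
    exact ⟨C, hC⟩

/-- Three derivatives of `w`: explicit functions, continuous, bounded, zero outside `[-2, 4]`
(`w` is smooth: `Real.smoothTransition.contDiff`; it vanishes outside `[-2, 4]`, so its derivatives
do; take `iteratedDeriv j w`; see `XFB_amp` in `H68X/XFB` for two derivatives). -/
theorem PB2_w : ∃ (w1 w2 w3 : ℝ → ℝ) (M : ℝ), 1 ≤ M ∧ (∀ y, HasDerivAt w (w1 y) y) ∧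
    (∀ y, HasDerivAt w1 (w2 y) y) ∧ (∀ y, HasDerivAt w2 (w3 y) y) ∧ Continuous w3 ∧
    (∀ y, y ∉ Set.Icc (-2 : ℝ) 4 → w y = 0 ∧ w1 y = 0 ∧ w2 y = 0 ∧ w3 y = 0) ∧
    ∀ y, |w y| ≤ M ∧ |w1 y| ≤ M ∧ |w2 y| ≤ M ∧ |w3 y| ≤ M := by
  have hw : ContDiff ℝ (⊤ : ℕ∞) w := by
    unfold w
    have h1 : ContDiff ℝ (⊤ : ℕ∞) (fun y : ℝ => Real.smoothTransition (y + 2)) :=
      Real.smoothTransition.contDiff.comp (contDiff_id.add contDiff_const)
    have h2 : ContDiff ℝ (⊤ : ℕ∞) (fun y : ℝ => Real.smoothTransition (4 - y)) :=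
      Real.smoothTransition.contDiff.comp (contDiff_const.sub contDiff_id)
    exact h1.mul h2
  have hz : ∀ y, y ∉ Set.Icc (-2 : ℝ) 4 → w y = 0 := by
    intro y hy
    rw [Set.mem_Icc, not_and_or, not_le, not_le] at hy
    unfold w
    rcases hy with hy | hy
    · rw [Real.smoothTransition.zero_of_nonpos (by linarith), zero_mul]
    · rw [Real.smoothTransition.zero_of_nonpos (x := 4 - y) (by linarith), mul_zero]
  obtain ⟨a1, a2, a3, M0, hM0⟩ := pb2_step w (-2) 4 hw hz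
  obtain ⟨b1, b2, b3, M1, hM1⟩ := pb2_step (deriv w) (-2) 4 a2 a3
  obtain ⟨c1, c2, c3, M2, hM2⟩ := pb2_step (deriv (deriv w)) (-2) 4 b2 b3
  obtain ⟨d1, d2, d3, M3, hM3⟩ := pb2_step (deriv (deriv (deriv w))) (-2) 4 c2 c3
  refine ⟨deriv w, deriv (deriv w), deriv (deriv (deriv w)), 1 + |M0| + |M1| + |M2| + |M3|, ?_,
    a1, b1, c1, c2.continuous, fun y hy => ⟨hz y hy, a3 y hy, b3 y hy, c3 y hy⟩, fun y => ?_⟩
  · have := abs_nonneg M0
    have := abs_nonneg M1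
    have := abs_nonneg M2
    have := abs_nonneg M3
    linarith
  · have h0 := (hM0 y).trans (le_abs_self M0)
    have h1 := (hM1 y).trans (le_abs_self M1)
    have h2 := (hM2 y).trans (le_abs_self M2)
    have h3 := (hM3 y).trans (le_abs_self M3)
    have := abs_nonneg M0
    have := abs_nonneg M1
    have := abs_nonneg M2
    have := abs_nonneg M3
    refine ⟨?_, ?_, ?_, ?_⟩ <;> linarith

/-- `k! ≤ e √k (k/e)^k`. -/
theorem pb2_fact (k : ℕ) (hk : 1 ≤ k) :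
    (k.factorial : ℝ) ≤ Real.exp 1 * Real.sqrt k * ((k : ℝ) / Real.exp 1) ^ k := by
  obtain ⟨m, rfl⟩ : ∃ m, k = m + 1 := ⟨k - 1, by omega⟩
  have h := Stirling.stirlingSeq'_antitone (Nat.zero_le m)
  simp only [Function.comp, Nat.succ_eq_add_one, zero_add] at h
  rw [Stirling.stirlingSeq_one] at h
  unfold Stirling.stirlingSeq at h
  have hp : (0 : ℝ) < ((m + 1 : ℕ) : ℝ) := by positivity
  have hs : 0 < Real.sqrt (2 * ((m + 1 : ℕ) : ℝ)) * (((m + 1 : ℕ) : ℝ) / Real.exp 1) ^ (m + 1) := by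
    positivity
  rw [div_le_iff₀ hs] at h
  refine h.trans (le_of_eq ?_)
  rw [Real.sqrt_mul (by norm_num)]
  have h2 : Real.sqrt 2 ≠ 0 := by positivity
  field_simp

/-- `1/Wd k U ≤ C √U` for `k = ⌊U/64⌋ ≥ 1`.

Proof. `Wd k U = (1/64) y^k e^(-y)/k!` with `y = U/64 ∈ [k, k+1)`. `y^k e^(-y)` is decreasing for
`y ≥ k`, so it is `≥ (k+1)^k e^(-k-1) ≥ 2 k^k e^(-k)/e` (`(1 + 1/k)^k ≥ 2`), and
`k! ≤ e √k (k/e)^k` (`Stirling.stirlingSeq` is antitone for `n ≥ 1`, value `e/√2` at `1`; or by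
induction). So `1/Wd ≤ 64 (e/2) e √k ≤ 300 √k`. -/
theorem PB2_W (X : ℕ) (hk : 1 ≤ kX X) : 0 < Wd (kX X) (Real.log X) ∧
    1 / Wd (kX X) (Real.log X) ≤ 300 * Real.sqrt (Real.log X) := by
  set k := kX X with hkd
  set U := Real.log X with hU
  have hk1 : (1 : ℝ) ≤ k := by exact_mod_cast hk
  have hU0 : 0 ≤ U := Real.log_natCast_nonneg X
  have hkle : (k : ℝ) ≤ U / 64 := by
    rw [hkd]
    unfold kX
    exact Nat.floor_le (by positivity)
  have hklt : U / 64 < k + 1 := by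
    rw [hkd]
    unfold kX
    exact Nat.lt_floor_add_one _
  have hUp : 0 < U := by linarith
  have hW : 0 < Wd k U := by
    unfold Wd
    positivity
  refine ⟨hW, ?_⟩
  rw [div_le_iff₀ hW]
  -- `1 ≤ 300 √U Wd`
  have hf := pb2_fact k hk
  have hfp : (0 : ℝ) < (k.factorial : ℝ) := by exact_mod_cast k.factorial_pos
  have h1 : (k : ℝ) ^ k ≤ (U / 64) ^ k := pow_le_pow_left₀ (by positivity) hkle k
  have h2 : Real.exp (-((k : ℝ) + 1)) ≤ Real.exp (-(U / 64)) := Real.exp_le_exp.mpr (by linarith)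
  have h3 : Real.sqrt k ≤ Real.sqrt U / 8 := by
    have e : Real.sqrt (U / 64) = Real.sqrt U / 8 := by
      rw [Real.sqrt_div hU0]
      congr 1
      rw [show (64 : ℝ) = 8 ^ 2 by norm_num]
      exact Real.sqrt_sq (by norm_num)
    rw [← e]
    exact Real.sqrt_le_sqrt hkle
  have hWe : Wd k U = (1 / 64) * ((U / 64) ^ k * Real.exp (-(U / 64))) / (k.factorial : ℝ) := by
    unfold Wd
    rw [div_pow, pow_succ, div_pow, one_pow]
    ring
  rw [hWe, mul_div_assoc', le_div_iff₀ hfp, one_mul]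
  have he : Real.exp 1 * Real.exp 1 ≤ 8 := by
    have := Real.exp_one_lt_d9
    have := Real.exp_pos 1
    nlinarith
  have h4 : ((k : ℝ) / Real.exp 1) ^ k = (k : ℝ) ^ k * (Real.exp 1 * Real.exp (-((k : ℝ) + 1))) := by
    rw [div_pow, div_eq_mul_inv]
    congr 1
    rw [← Real.exp_nat_mul, mul_one, ← Real.exp_neg, ← Real.exp_add]
    congr 1
    ring
  calc (k.factorial : ℝ) ≤ Real.exp 1 * Real.sqrt k * ((k : ℝ) / Real.exp 1) ^ k := hf
    _ = (Real.exp 1 * Real.exp 1) * Real.sqrt k * ((k : ℝ) ^ k * Real.exp (-((k : ℝ) + 1))) := by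
        rw [h4]; ring
    _ ≤ 8 * (Real.sqrt U / 8) * ((U / 64) ^ k * Real.exp (-(U / 64))) := by
        gcongr
    _ = 64 * Real.sqrt U * (1 / 64 * ((U / 64) ^ k * Real.exp (-(U / 64)))) := by ring
    _ ≤ _ := by
        gcongr
        norm_num

/-- The exponent `h(u) = (u - U)/64 - k (log u - log U)`. -/
noncomputable def pb2_h (k : ℕ) (U u : ℝ) : ℝ := (u - U) / 64 - k * (Real.log u - Real.log U)

/-- `h'`. -/
noncomputable def pb2_h1 (k : ℕ) (u : ℝ) : ℝ := 1 / 64 - k * u⁻¹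

/-- `h''`. -/
noncomputable def pb2_h2 (k : ℕ) (u : ℝ) : ℝ := k * (u⁻¹) ^ 2

/-- `h'''`. -/
noncomputable def pb2_h3 (k : ℕ) (u : ℝ) : ℝ := -(2 * k * (u⁻¹) ^ 3)

theorem pb2_dh (k : ℕ) (U u : ℝ) (hu : 0 < u) : HasDerivAt (pb2_h k U) (pb2_h1 k u) u := by
  unfold pb2_h pb2_h1
  have h1 : HasDerivAt (fun u : ℝ => (u - U) / 64) (1 / 64) u :=
    ((hasDerivAt_id u).sub_const U).div_const 64
  have h2 : HasDerivAt (fun u : ℝ => (k : ℝ) * (Real.log u - Real.log U)) (k * u⁻¹) u :=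
    ((Real.hasDerivAt_log hu.ne').sub_const _).const_mul _
  exact h1.sub h2

theorem pb2_dh1 (k : ℕ) (u : ℝ) (hu : 0 < u) : HasDerivAt (pb2_h1 k) (pb2_h2 k u) u := by
  unfold pb2_h1 pb2_h2
  have h2 := ((hasDerivAt_inv hu.ne').const_mul (k : ℝ)).const_sub (1 / 64 : ℝ)
  refine h2.congr_deriv ?_
  rw [inv_pow]
  ring

theorem pb2_dh2 (k : ℕ) (u : ℝ) (hu : 0 < u) : HasDerivAt (pb2_h2 k) (pb2_h3 k u) u := by
  unfold pb2_h2 pb2_h3
  have h2 := ((hasDerivAt_inv hu.ne').pow 2).const_mul (k : ℝ)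
  refine h2.congr_deriv ?_
  rw [← inv_pow]
  push_cast
  ring

theorem pb2_dG (k : ℕ) (U u : ℝ) (hu : 0 < u) :
    HasDerivAt (fun u => Real.exp (pb2_h k U u)) (pb2_h1 k u * Real.exp (pb2_h k U u)) u := by
  have := (pb2_dh k U u hu).exp
  rwa [mul_comm] at this

theorem pb2_dG1 (k : ℕ) (U u : ℝ) (hu : 0 < u) :
    HasDerivAt (fun u => pb2_h1 k u * Real.exp (pb2_h k U u))
      ((pb2_h2 k u + pb2_h1 k u ^ 2) * Real.exp (pb2_h k U u)) u := by
  refine ((pb2_dh1 k u hu).mul (pb2_dG k U u hu)).congr_deriv ?_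
  ring

theorem pb2_dG2 (k : ℕ) (U u : ℝ) (hu : 0 < u) :
    HasDerivAt (fun u => (pb2_h2 k u + pb2_h1 k u ^ 2) * Real.exp (pb2_h k U u))
      ((pb2_h3 k u + 3 * pb2_h1 k u * pb2_h2 k u + pb2_h1 k u ^ 3) * Real.exp (pb2_h k U u)) u := by
  refine (((pb2_dh2 k u hu).add ((pb2_dh1 k u hu).pow 2)).mul (pb2_dG k U u hu)).congr_deriv ?_
  simp only [Pi.add_apply, Pi.pow_apply]
  push_cast
  ring

theorem pb2_cG3 (k : ℕ) (U u : ℝ) (hu : 0 < u) :
    ContinuousAt (fun u => (pb2_h3 k u + 3 * pb2_h1 k u * pb2_h2 k u + pb2_h1 k u ^ 3) *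
      Real.exp (pb2_h k U u)) u := by
  have c0 := (pb2_dG k U u hu).continuousAt
  have c1 := (pb2_dh1 k u hu).continuousAt
  have c2 := (pb2_dh2 k u hu).continuousAt
  have c3 : ContinuousAt (pb2_h3 k) u := by
    unfold pb2_h3
    have := continuousAt_inv₀ hu.ne'
    fun_prop (disch := exact hu.ne')
  exact ((c3.add ((continuousAt_const.mul c1).mul c2)).add (c1.pow 3)).mul c0

/-- Bounds for the exponent on `[U - 2, U + 4]`. -/
theorem pb2_hb (k : ℕ) (U : ℝ) (hU : 100 ≤ U) (h1 : (k : ℝ) ≤ U / 64)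
    (u : ℝ) (hu : u ∈ Set.Icc (U - 2) (U + 4)) :
    |pb2_h1 k u| ≤ 1 ∧ |pb2_h2 k u| ≤ 1 ∧ |pb2_h3 k u| ≤ 1 := by
  obtain ⟨hu1, hu2⟩ := Set.mem_Icc.mp hu
  have hu0 : 0 < u := by linarith
  have hi : 0 < u⁻¹ := inv_pos.mpr hu0
  have hk : (0 : ℝ) ≤ k := Nat.cast_nonneg k
  have hki : k * u⁻¹ ≤ 1 := by
    rw [← div_eq_mul_inv, div_le_one hu0]
    linarith
  have hki0 : 0 ≤ k * u⁻¹ := by positivity
  have hi1 : u⁻¹ ≤ 1 / 2 := by
    rw [inv_eq_one_div]
    exact one_div_le_one_div_of_le (by norm_num) (by linarith)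
  refine ⟨?_, ?_, ?_⟩
  · unfold pb2_h1
    rw [abs_le]
    constructor <;> linarith
  · unfold pb2_h2
    rw [abs_of_nonneg (by positivity)]
    calc (k : ℝ) * u⁻¹ ^ 2 = (k * u⁻¹) * u⁻¹ := by ring
      _ ≤ 1 * (1 / 2) := mul_le_mul hki hi1 hi.le (by norm_num)
      _ ≤ 1 := by norm_num
  · unfold pb2_h3
    rw [abs_neg, abs_of_nonneg (by positivity)]
    calc 2 * (k : ℝ) * u⁻¹ ^ 3 = 2 * ((k * u⁻¹) * (u⁻¹ * u⁻¹)) := by ring
      _ ≤ 2 * (1 * ((1 / 2) * (1 / 2))) := by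
          gcongr
      _ ≤ 1 := by norm_num

theorem pb2_hh (k : ℕ) (U : ℝ) (hU : 100 ≤ U) (h1 : (k : ℝ) ≤ U / 64)
    (u : ℝ) (hu : u ∈ Set.Icc (U - 2) (U + 4)) : pb2_h k U u ≤ 4 := by
  have h := Convex.norm_image_sub_le_of_norm_hasDerivWithin_le (f := pb2_h k U)
    (f' := pb2_h1 k) (s := Set.Icc (U - 2) (U + 4)) (C := 1) (x := U) (y := u)
    (fun z hz => (pb2_dh k U z (by linarith [(Set.mem_Icc.mp hz).1])).hasDerivWithinAt)
    (fun z hz => (pb2_hb k U hU h1 z hz).1) (convex_Icc _ _)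
    (Set.mem_Icc.mpr ⟨by linarith, by linarith⟩) hu
  have h0 : pb2_h k U U = 0 := by
    unfold pb2_h
    ring
  rw [h0, sub_zero, one_mul, Real.norm_eq_abs, Real.norm_eq_abs] at h
  obtain ⟨hu1, hu2⟩ := Set.mem_Icc.mp hu
  refine (le_abs_self _).trans (h.trans ?_)
  rw [abs_le]
  constructor <;> linarith

/-- A function vanishing below `a > 0` with a derivative on `(0, ∞)` has a derivative. -/
theorem pb2_glue (a : ℝ) (ha : 0 < a) (f f1 : ℝ → ℝ) (hz : ∀ y, y < a → f y = 0)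
    (hz1 : ∀ y, y < a → f1 y = 0) (hd : ∀ y, 0 < y → HasDerivAt f (f1 y) y) (y : ℝ) :
    HasDerivAt f (f1 y) y := by
  by_cases h : 0 < y
  · exact hd y h
  · have hy : y < a := by linarith [not_lt.mp h]
    rw [hz1 y hy]
    have he : f =ᶠ[nhds y] fun _ => 0 := by
      filter_upwards [Iio_mem_nhds hy] with z hz'
      exact hz z hz'
    exact (hasDerivAt_const y (0 : ℝ)).congr_of_eventuallyEq he

/-- The quotient `κ(u) = w(u - U)/Wd(k, u)` (`0` for `u ∉ [U-2, U+4]`), `U = log X`, `k = kX X`, has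
three derivatives bounded by `C √U`.

Proof. For `u > 0`, `1/Wd k u = (1/Wd k U) e^(h(u))`, `h(u) = (u - U)/64 - k log (u/U)`. On
`[U-2, U+4]` (`U` large, `|k - U/64| ≤ 1`): `|h'(u)| = |1/64 - k/u| = |u/64 - k|/u ≤ 2/u ≤ 1`,
`|h''| = k/u² ≤ 1`, `|h'''| = 2 k/u³ ≤ 1`, and `h(U) = 0`, so `|h| ≤ 4` there. So `G = e^h` has
`G' = h' G`, `G'' = (h'' + h'²) G`, `G''' = (h''' + 3 h' h'' + h'³) G`, all at most `5 e^4` in
absolute value. `κ = (1/Wd k U) w(u - U) G(u)`: Leibniz with `PB2_w`; outside `[U - 2, U + 4]`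
everything is `0` (the functions `κ_j(u)` are defined as the Leibniz expressions for `u > 0` and `0`
for `u ≤ 0`, and `HasDerivAt` at `u ≤ 0` holds since `κ_j = 0` on `(-∞, U-2)`). `PB2_W` for the
factor `1/Wd k U`. -/
theorem PB2_quot : ∃ C K : ℝ, 0 < C ∧ ∀ X : ℕ, K ≤ X → ∃ f f1 f2 f3 : ℝ → ℝ,
    (∀ y, HasDerivAt f (f1 y) y) ∧ (∀ y, HasDerivAt f1 (f2 y) y) ∧
    (∀ y, HasDerivAt f2 (f3 y) y) ∧ Continuous f3 ∧
    (∀ y, y ∉ Set.Icc (Real.log X - 2) (Real.log X + 4) → f y = 0 ∧ f1 y = 0 ∧ f2 y = 0 ∧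
      f3 y = 0) ∧
    (∀ y, |f y| ≤ C * Real.sqrt (Real.log X) ∧ |f3 y| ≤ C * Real.sqrt (Real.log X)) ∧
    ∀ u : ℝ, 0 < u → w (u - Real.log X) = Wd (kX X) u * f u := by
  obtain ⟨w1, w2, w3, M, hM, d0, d1, d2, c3, hout, hb⟩ := PB2_w
  have hE4 : 1 ≤ Real.exp 4 := Real.one_le_exp (by norm_num)
  refine ⟨300 * (15 * M * Real.exp 4), Real.exp 100, by positivity, fun X hX => ?_⟩
  have hX0 : (0 : ℝ) < X := lt_of_lt_of_le (Real.exp_pos _) hX
  set U := Real.log X with hUd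
  have hU : 100 ≤ U := (Real.le_log_iff_exp_le hX0).mpr hX
  set k := kX X with hkd
  have hkle : (k : ℝ) ≤ U / 64 := by
    rw [hkd]
    unfold kX
    exact Nat.floor_le (by positivity)
  have hklt : U / 64 < k + 1 := by
    rw [hkd]
    unfold kX
    exact Nat.lt_floor_add_one _
  have hk1 : 1 ≤ k := by
    by_contra h
    have : k = 0 := by omega
    rw [this] at hklt
    norm_num at hklt
    linarith
  obtain ⟨hWp, hWb⟩ := PB2_W X hk1
  rw [← hkd, ← hUd] at hWp hWb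
  set c := 1 / Wd k U with hc
  have hc0 : 0 < c := by rw [hc]; positivity
  set G : ℝ → ℝ := fun u => Real.exp (pb2_h k U u) with hG
  set G1 : ℝ → ℝ := fun u => pb2_h1 k u * Real.exp (pb2_h k U u) with hG1
  set G2 : ℝ → ℝ := fun u => (pb2_h2 k u + pb2_h1 k u ^ 2) * Real.exp (pb2_h k U u) with hG2
  set G3 : ℝ → ℝ := fun u => (pb2_h3 k u + 3 * pb2_h1 k u * pb2_h2 k u + pb2_h1 k u ^ 3) *
      Real.exp (pb2_h k U u) with hG3
  have dG : ∀ u, 0 < u → HasDerivAt G (G1 u) u := pb2_dG k U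
  have dG1 : ∀ u, 0 < u → HasDerivAt G1 (G2 u) u := pb2_dG1 k U
  have dG2 : ∀ u, 0 < u → HasDerivAt G2 (G3 u) u := pb2_dG2 k U
  have cG3 : ∀ u, 0 < u → ContinuousAt G3 u := pb2_cG3 k U
  -- the shifted bump
  have e0 : ∀ u, HasDerivAt (fun u => w (u - U)) (w1 (u - U)) u := fun u => by
    simpa using (d0 (u - U)).comp_sub_const u U
  have e1 : ∀ u, HasDerivAt (fun u => w1 (u - U)) (w2 (u - U)) u := fun u => by
    simpa using (d1 (u - U)).comp_sub_const u U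
  have e2 : ∀ u, HasDerivAt (fun u => w2 (u - U)) (w3 (u - U)) u := fun u => by
    simpa using (d2 (u - U)).comp_sub_const u U
  have e3 : ∀ u, ContinuousAt (fun u => w3 (u - U)) u := fun u =>
    (c3.comp (continuous_id.sub continuous_const)).continuousAt
  have hz : ∀ u, u ∉ Set.Icc (U - 2) (U + 4) → w (u - U) = 0 ∧ w1 (u - U) = 0 ∧
      w2 (u - U) = 0 ∧ w3 (u - U) = 0 := by
    intro u hu
    apply hout
    intro h
    apply hu
    rw [Set.mem_Icc] at h ⊢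
    constructor <;> linarith [h.1, h.2]
  -- the functions
  set f : ℝ → ℝ := fun u => c * (w (u - U) * G u) with hf
  set f1 : ℝ → ℝ := fun u => c * (w1 (u - U) * G u + w (u - U) * G1 u) with hf1
  set f2 : ℝ → ℝ := fun u => c * (w2 (u - U) * G u + 2 * (w1 (u - U) * G1 u) +
    w (u - U) * G2 u) with hf2
  set f3 : ℝ → ℝ := fun u => c * (w3 (u - U) * G u + 3 * (w2 (u - U) * G1 u) +
    3 * (w1 (u - U) * G2 u) + w (u - U) * G3 u) with hf3
  have hfz : ∀ y, y ∉ Set.Icc (U - 2) (U + 4) → f y = 0 ∧ f1 y = 0 ∧ f2 y = 0 ∧ f3 y = 0 := by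
    intro y hy
    obtain ⟨h0, h1, h2, h3⟩ := hz y hy
    simp only [hf, hf1, hf2, hf3, h0, h1, h2, h3]
    simp
  have hlow : ∀ y, y < U - 2 → y ∉ Set.Icc (U - 2) (U + 4) := by
    intro y hy h
    linarith [(Set.mem_Icc.mp h).1]
  have ha : 0 < U - 2 := by linarith
  refine ⟨f, f1, f2, f3, ?_, ?_, ?_, ?_, hfz, ?_, ?_⟩
  · refine pb2_glue (U - 2) ha f f1 (fun y hy => (hfz y (hlow y hy)).1)
      (fun y hy => (hfz y (hlow y hy)).2.1) (fun y hy => ?_)
    exact ((e0 y).mul (dG y hy)).const_mul c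
  · refine pb2_glue (U - 2) ha f1 f2 (fun y hy => (hfz y (hlow y hy)).2.1)
      (fun y hy => (hfz y (hlow y hy)).2.2.1) (fun y hy => ?_)
    refine ((((e1 y).mul (dG y hy)).add ((e0 y).mul (dG1 y hy))).const_mul c).congr_deriv ?_
    simp only [hf2]
    ring
  · refine pb2_glue (U - 2) ha f2 f3 (fun y hy => (hfz y (hlow y hy)).2.2.1)
      (fun y hy => (hfz y (hlow y hy)).2.2.2) (fun y hy => ?_)
    refine (((((e2 y).mul (dG y hy)).add (((e1 y).mul (dG1 y hy)).const_mul 2)).add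
      ((e0 y).mul (dG2 y hy))).const_mul c).congr_deriv ?_
    simp only [hf3]
    ring
  · rw [continuous_iff_continuousAt]
    intro y
    by_cases h : 0 < y
    · have g0 := (dG y h).continuousAt
      have g1 := (dG1 y h).continuousAt
      have g2 := (dG2 y h).continuousAt
      have g3 := cG3 y h
      exact continuousAt_const.mul (((((e3 y).mul g0).add
        (continuousAt_const.mul ((e2 y).continuousAt.mul g1))).add
        (continuousAt_const.mul ((e1 y).continuousAt.mul g2))).add ((e0 y).continuousAt.mul g3))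
    · have hy : y < U - 2 := by linarith [not_lt.mp h]
      have he : f3 =ᶠ[nhds y] fun _ => 0 := by
        filter_upwards [Iio_mem_nhds hy] with z hz'
        exact (hfz z (hlow z hz')).2.2.2
      exact (continuousAt_const (y := (0 : ℝ))).congr he.symm
  · intro y
    have hM0 : 0 ≤ M := by linarith
    have hs : 0 ≤ Real.sqrt U := Real.sqrt_nonneg U
    by_cases hy : y ∈ Set.Icc (U - 2) (U + 4)
    · obtain ⟨b0, b1, b2, b3⟩ := hb (y - U)
      obtain ⟨p1, p2, p3⟩ := pb2_hb k U hU hkle y hy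
      have p0 := pb2_hh k U hU hkle y hy
      have q0 : |G y| ≤ Real.exp 4 := by
        simp only [hG]
        rw [abs_of_pos (Real.exp_pos _)]
        exact Real.exp_le_exp.mpr p0
      have q1 : |G1 y| ≤ Real.exp 4 := by
        simp only [hG1]
        rw [abs_mul]
        calc _ ≤ 1 * Real.exp 4 := mul_le_mul p1 q0 (abs_nonneg _) (by norm_num)
          _ = _ := one_mul _
      have q2 : |G2 y| ≤ 2 * Real.exp 4 := by
        simp only [hG2]
        rw [abs_mul]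
        refine mul_le_mul ?_ q0 (abs_nonneg _) (by norm_num)
        refine (abs_add_le _ _).trans ?_
        rw [abs_pow]
        have := pow_le_one₀ (n := 2) (abs_nonneg _) p1
        linarith
      have q3 : |G3 y| ≤ 5 * Real.exp 4 := by
        simp only [hG3]
        rw [abs_mul]
        refine mul_le_mul ?_ q0 (abs_nonneg _) (by norm_num)
        refine (abs_add_three _ _ _).trans ?_
        rw [abs_pow, abs_mul, abs_mul]
        have h1 := pow_le_one₀ (n := 3) (abs_nonneg _) p1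
        have h2 : |(3 : ℝ)| * |pb2_h1 k y| * |pb2_h2 k y| ≤ 3 * 1 * 1 := by
          rw [abs_of_pos (by norm_num : (0 : ℝ) < 3)]
          gcongr
        linarith
      have r : ∀ a b A B : ℝ, |a| ≤ A → |b| ≤ B → |a * b| ≤ A * B := by
        intro a b A B hA hB
        rw [abs_mul]
        exact mul_le_mul hA hB (abs_nonneg _) ((abs_nonneg _).trans hA)
      constructor
      · simp only [hf]
        rw [abs_mul, abs_of_pos hc0]
        calc c * |w (y - U) * G y| ≤ (300 * Real.sqrt U) * (M * Real.exp 4) :=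
              mul_le_mul hWb (r _ _ _ _ b0 q0) (abs_nonneg _) (by positivity)
          _ ≤ (300 * Real.sqrt U) * (15 * (M * Real.exp 4)) := by
              apply mul_le_mul_of_nonneg_left _ (by positivity)
              have : 0 ≤ M * Real.exp 4 := by positivity
              linarith
          _ = _ := by ring
      · simp only [hf3]
        rw [abs_mul, abs_of_pos hc0]
        have t0 := r _ _ _ _ b3 q0
        have t1 := r _ _ _ _ b2 q1
        have t2 := r _ _ _ _ b1 q2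
        have t3 := r _ _ _ _ b0 q3
        have key : |w3 (y - U) * G y + 3 * (w2 (y - U) * G1 y) + 3 * (w1 (y - U) * G2 y) +
            w (y - U) * G3 y| ≤ 15 * (M * Real.exp 4) := by
          refine (abs_add_le _ _).trans ?_
          have s1 := abs_add_three (w3 (y - U) * G y) (3 * (w2 (y - U) * G1 y))
            (3 * (w1 (y - U) * G2 y))
          rw [abs_mul 3, abs_mul 3, abs_of_pos (by norm_num : (0 : ℝ) < 3)] at s1
          linarith
        calc _ ≤ (300 * Real.sqrt U) * (15 * (M * Real.exp 4)) :=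
              mul_le_mul hWb key (abs_nonneg _) (by positivity)
          _ = _ := by ring
    · obtain ⟨h0, -, -, h3⟩ := hfz y hy
      rw [h0, h3, abs_zero]
      constructor <;> positivity
  · intro u hu
    simp only [hf, hG, hc]
    have hW' : Wd k u * Real.exp (pb2_h k U u) = Wd k U := by
      unfold Wd pb2_h
      have hUp : 0 < U := by linarith
      have h1 : Real.exp ((u - U) / 64 - k * (Real.log u - Real.log U)) =
          Real.exp (u / 64) * Real.exp (-(U / 64)) * (U ^ k / u ^ k) := by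
        rw [show (u - U) / 64 - k * (Real.log u - Real.log U) =
          u / 64 + -(U / 64) + (k * Real.log U - k * Real.log u) by ring, Real.exp_add,
          Real.exp_add, Real.exp_sub, Real.exp_nat_mul, Real.exp_nat_mul, Real.exp_log hu,
          Real.exp_log hUp]
      rw [h1, Real.exp_neg (u / 64)]
      have h2 : Real.exp (u / 64) ≠ 0 := (Real.exp_pos _).ne'
      have h3 : u ^ k ≠ 0 := (pow_pos hu k).ne'
      have h4 : (k.factorial : ℝ) ≠ 0 := by exact_mod_cast k.factorial_ne_zero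
      field_simp
    calc w (u - U) = (Wd k U) * (1 / Wd k U * w (u - U)) := by
          field_simp
      _ = _ := by rw [← hW']; ring

end Pool.Agent.Lib.H18Q
end

-- from Lib.H18Q.PC1
section

/-!
# Project H18Q, chunk PC1: the mean of the contribution of the zeros
-/

open Finset

namespace Pool.Agent.Lib.H18Q

open Pool.Agent.Lib.H68T

theorem pc1_bern {k : ℕ} (hk : 1 ≤ k) (y : ℝ) :
    (1 / Real.sqrt (1 + y ^ 2)) ^ (k + 1) ≤ (1 + (k + 1) / 2 * y ^ 2)⁻¹ := by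
  have h0 : (0 : ℝ) < 1 + y ^ 2 := by positivity
  have hk' : (1 : ℝ) ≤ k := by exact_mod_cast hk
  have h1 : 1 + (((k : ℝ) + 1) / 2) * y ^ 2 ≤ (1 + y ^ 2) ^ (((k : ℝ) + 1) / 2) :=
    one_add_mul_self_le_rpow_one_add (by nlinarith [sq_nonneg y]) (by linarith)
  have h2 : Real.sqrt (1 + y ^ 2) ^ (k + 1) = (1 + y ^ 2) ^ (((k : ℝ) + 1) / 2) := by
    rw [Real.sqrt_eq_rpow, ← Real.rpow_natCast, ← Real.rpow_mul h0.le]
    congr 1
    push_cast
    ring
  rw [one_div, inv_pow, h2]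
  exact inv_anti₀ (by positivity) h1

theorem pc1_cauchy {c : ℝ} (hc : 0 < c) :
    MeasureTheory.Integrable (fun y : ℝ => (1 + c * y ^ 2)⁻¹) ∧
    ∫ y : ℝ, (1 + c * y ^ 2)⁻¹ = Real.pi / Real.sqrt c := by
  have hs : 0 < Real.sqrt c := Real.sqrt_pos.2 hc
  have h1 : (fun y : ℝ => (1 + c * y ^ 2)⁻¹) = fun y : ℝ =>
      (fun x : ℝ => (1 + x ^ 2)⁻¹) (Real.sqrt c * y) := by
    funext y
    simp only [mul_pow, Real.sq_sqrt hc.le]
  constructor
  · rw [h1]
    exact integrable_inv_one_add_sq.comp_mul_left' hs.ne'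
  · have h2 := MeasureTheory.Measure.integral_comp_mul_left (fun x : ℝ => (1 + x ^ 2)⁻¹) (Real.sqrt c)
    rw [h1, h2, integral_univ_inv_one_add_sq, abs_of_pos (inv_pos.2 hs), smul_eq_mul]
    ring

/-- `∫ (1+y²)^(-(k+1)/2) dy ≤ C/√(k+1)` for `k ≥ 1`.

Proof. For `|y| ≤ 1`, `log (1+y²) ≥ y²/2`, so the integrand is `≤ e^(-(k+1) y²/4)`, with integral
`√(4π/(k+1))`. For `|y| > 1` it is at most `2^(-(k-1)/2) (1+y²)^(-1)`, integral
`≤ π 2^(-(k-1)/2) ≤ C/√(k+1)`. -/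
theorem PC1_beta : ∃ C : ℝ, 0 < C ∧ ∀ k : ℕ, 1 ≤ k →
    MeasureTheory.Integrable (fun y : ℝ => (1 / Real.sqrt (1 + y ^ 2)) ^ (k + 1)) ∧
    ∫ y : ℝ, (1 / Real.sqrt (1 + y ^ 2)) ^ (k + 1) ≤ C / Real.sqrt (k + 1) := by
  refine ⟨Real.pi * Real.sqrt 2, by positivity, ?_⟩
  intro k hk
  have hc : (0 : ℝ) < (k + 1) / 2 := by positivity
  obtain ⟨h1, h2⟩ := pc1_cauchy hc
  have h3 : MeasureTheory.Integrable (fun y : ℝ => (1 / Real.sqrt (1 + y ^ 2)) ^ (k + 1)) := by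
    refine h1.mono' ?_ ?_
    · apply Continuous.aestronglyMeasurable
      refine Continuous.pow (Continuous.div continuous_const ?_ ?_) _
      · exact Real.continuous_sqrt.comp (by fun_prop)
      · intro y
        have : 0 < Real.sqrt (1 + y ^ 2) := Real.sqrt_pos.2 (by positivity)
        exact this.ne'
    · refine Filter.Eventually.of_forall fun y => ?_
      rw [Real.norm_of_nonneg (by positivity)]
      exact pc1_bern hk y
  refine ⟨h3, ?_⟩
  refine (MeasureTheory.integral_mono h3 h1 fun y => pc1_bern hk y).trans ?_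
  rw [h2]
  have h4 : Real.sqrt ((k + 1) / 2) = Real.sqrt (k + 1) / Real.sqrt 2 :=
    Real.sqrt_div (by positivity) 2
  rw [h4, div_div_eq_mul_div]

/-- One zero: for `Re ρ ≤ 1`,
`∫_a^b |(1/64)/(1 + 1/64 + iv - ρ)|^(k+1) dv ≤ C/√(k+1) (1/(1 + 64 (1 - Re ρ)))^k`.

Proof. With `A = 1/64 + 1 - Re ρ ≥ 1/64`, `|1 + 1/64 + iv - ρ| = √(A² + (v - Im ρ)²)`; substitute
`v = Im ρ + A y`: `(1/64)^(k+1) A^(-k) ∫ (1+y²)^(-(k+1)/2) dy`, and `(1/64)/A = 1/(1 + 64(1 - Re ρ))`. -/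
theorem PC1_one : ∃ C : ℝ, 0 < C ∧ ∀ (k : ℕ) (ρ : ℂ) (a b : ℝ), 1 ≤ k → ρ.re ≤ 1 → a ≤ b →
    ∫ v in a..b, ‖((1 / 64 : ℝ) : ℂ) / (1 + (1 / 64 : ℝ) + v * Complex.I - ρ)‖ ^ (k + 1) ≤
      C / Real.sqrt (k + 1) * (1 / (1 + 64 * (1 - ρ.re))) ^ k := by
  obtain ⟨C, hC, H⟩ := PC1_beta
  refine ⟨C, hC, ?_⟩
  intro k ρ a b hk hρ hab
  obtain ⟨h1, h2⟩ := H k hk
  set A : ℝ := 1 / 64 + 1 - ρ.re with hA
  have hA0 : 1 / 64 ≤ A := by rw [hA]; linarith
  have hAp : 0 < A := by linarith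
  have hform : ∀ v : ℝ, ‖((1 / 64 : ℝ) : ℂ) / (1 + (1 / 64 : ℝ) + v * Complex.I - ρ)‖ ^ (k + 1) =
      ((1 / 64) / A) ^ (k + 1) *
        (fun y : ℝ => (1 / Real.sqrt (1 + y ^ 2)) ^ (k + 1)) (A⁻¹ * (v - ρ.im)) := by
    intro v
    have h3 : ‖(1 + (1 / 64 : ℝ) + v * Complex.I - ρ : ℂ)‖ =
        A * Real.sqrt (1 + (A⁻¹ * (v - ρ.im)) ^ 2) := by
      rw [Complex.norm_eq_sqrt_sq_add_sq, Complex.sub_re, Complex.sub_im, z2_re, z2_im]
      have h4 : (1 + 1 / 64 - ρ.re) ^ 2 + (v - ρ.im) ^ 2 =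
          A ^ 2 * (1 + (A⁻¹ * (v - ρ.im)) ^ 2) := by
        have h5 : (1 + 1 / 64 - ρ.re) = A := by rw [hA]; ring
        rw [h5]
        field_simp
      rw [h4, Real.sqrt_mul (sq_nonneg A), Real.sqrt_sq hAp.le]
    rw [norm_div, h3, Complex.norm_real, Real.norm_of_nonneg (by norm_num : (0 : ℝ) ≤ 1 / 64)]
    show _ = (1 / 64 / A) ^ (k + 1) * (1 / Real.sqrt (1 + (A⁻¹ * (v - ρ.im)) ^ 2)) ^ (k + 1)
    rw [← mul_pow]
    congr 1
    rw [div_mul_div_comm, mul_one]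
  have hint : MeasureTheory.Integrable (fun v : ℝ =>
      (fun y : ℝ => (1 / Real.sqrt (1 + y ^ 2)) ^ (k + 1)) (A⁻¹ * (v - ρ.im))) := by
    have h3 := (h1.comp_mul_left' (inv_ne_zero hAp.ne')).comp_sub_right ρ.im
    exact h3
  have hval : ∫ v : ℝ, (fun y : ℝ => (1 / Real.sqrt (1 + y ^ 2)) ^ (k + 1)) (A⁻¹ * (v - ρ.im)) =
      A * ∫ y : ℝ, (1 / Real.sqrt (1 + y ^ 2)) ^ (k + 1) := by
    have h3 := MeasureTheory.integral_sub_right_eq_self (μ := MeasureTheory.volume)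
      (fun v : ℝ => (fun y : ℝ => (1 / Real.sqrt (1 + y ^ 2)) ^ (k + 1)) (A⁻¹ * v)) ρ.im
    have h4 := MeasureTheory.Measure.integral_comp_mul_left
      (fun y : ℝ => (1 / Real.sqrt (1 + y ^ 2)) ^ (k + 1)) A⁻¹
    rw [h3, h4, inv_inv, abs_of_pos hAp, smul_eq_mul]
  have hle : ∫ v in a..b, ‖((1 / 64 : ℝ) : ℂ) / (1 + (1 / 64 : ℝ) + v * Complex.I - ρ)‖ ^ (k + 1) ≤
      ((1 / 64) / A) ^ (k + 1) * (A * ∫ y : ℝ, (1 / Real.sqrt (1 + y ^ 2)) ^ (k + 1)) := by
    simp_rw [hform]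
    rw [intervalIntegral.integral_const_mul, ← hval, intervalIntegral.integral_of_le hab]
    apply mul_le_mul_of_nonneg_left _ (by positivity)
    apply MeasureTheory.setIntegral_le_integral hint
    exact Filter.Eventually.of_forall fun v => by
      show (0 : ℝ) ≤ (1 / Real.sqrt (1 + (A⁻¹ * (v - ρ.im)) ^ 2)) ^ (k + 1)
      positivity
  refine hle.trans ?_
  have hq : 1 / (1 + 64 * (1 - ρ.re)) = (1 / 64) / A := by
    rw [div_div]
    congr 1
    rw [hA]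
    ring
  rw [hq]
  have hI : 0 ≤ ∫ y : ℝ, (1 / Real.sqrt (1 + y ^ 2)) ^ (k + 1) :=
    MeasureTheory.integral_nonneg fun y => by positivity
  have h5 : ((1 / 64) / A) ^ (k + 1) * (A * ∫ y : ℝ, (1 / Real.sqrt (1 + y ^ 2)) ^ (k + 1)) =
      (1 / 64) * ((∫ y : ℝ, (1 / Real.sqrt (1 + y ^ 2)) ^ (k + 1)) * ((1 / 64) / A) ^ k) := by
    rw [pow_succ]
    have h6 : (1 / 64) / A * A = 1 / 64 := div_mul_cancel₀ _ hAp.ne'
    calc _ = ((1 / 64) / A * A) * ((∫ y : ℝ, (1 / Real.sqrt (1 + y ^ 2)) ^ (k + 1)) *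
        ((1 / 64) / A) ^ k) := by ring
      _ = _ := by rw [h6]
  rw [h5]
  have h7 : 0 ≤ (∫ y : ℝ, (1 / Real.sqrt (1 + y ^ 2)) ^ (k + 1)) * ((1 / 64) / A) ^ k := by
    positivity
  have h8 : (∫ y : ℝ, (1 / Real.sqrt (1 + y ^ 2)) ^ (k + 1)) * ((1 / 64) / A) ^ k ≤
      C / Real.sqrt (k + 1) * ((1 / 64) / A) ^ k :=
    mul_le_mul_of_nonneg_right h2 (by positivity)
  linarith

/-- The sum over the zeros near `s₀ = 1 + 1/64 + iv`, pointwise, `|v| ≤ Q^8 - 1`: it is at most the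
sum over all zeros in `ZR f (7/8) (Q^8)` plus `C log Q (1/9)^k`.

Proof. A zero in `ZD f s₀ (1/4)` has `|Im ρ - v| ≤ 1/4`, so `|Im ρ| ≤ Q^8`. If `Re ρ ≥ 7/8` it is in
`ZR f (1 - 1/8) (Q^8)`. Otherwise `|s₀ - ρ| ≥ 1/64 + 1/8`, the ratio is `≤ 1/9`, and the number of
zeros in `ZD f s₀ (1/4)` is at most `C log Q` (`ldat_sum` with `lam = 1/64`:
`(lam/|s₀ - ρ|)² ≥ 1/256`). -/
theorem PC1_point (C0 : ℝ) (h0 : 1 ≤ C0) : ∃ C : ℝ, 0 < C ∧ ∀ (Q : ℕ) (f : ℂ → ℂ),
    64 ≤ Real.log Q → LDat C0 (Real.log Q) ((Q : ℝ) ^ 10) f → ∀ (v : ℝ) (k : ℕ),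
    |v| ≤ (Q : ℝ) ^ 8 - 1 →
    ‖∑ ρ ∈ ZD f (1 + (1 / 64 : ℝ) + v * Complex.I) (1 / 4),
      (od f ρ : ℂ) * (((1 / 64 : ℝ) : ℂ) / (1 + (1 / 64 : ℝ) + v * Complex.I - ρ)) ^ (k + 1)‖ ≤
    (∑ ρ ∈ ZR f (1 - 1 / 8) ((Q : ℝ) ^ 8), (od f ρ : ℝ) *
      ‖((1 / 64 : ℝ) : ℂ) / (1 + (1 / 64 : ℝ) + v * Complex.I - ρ)‖ ^ (k + 1)) +
      C * Real.log Q * (1 / 9) ^ k := by
  obtain ⟨C1, hC1, H⟩ := ldat_sum C0 h0
  refine ⟨4 * C1, by positivity, ?_⟩
  intro Q f hQ hf v k hv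
  have hQ1 : (1 : ℝ) ≤ Q := by
    rcases Nat.eq_zero_or_pos Q with h | h
    · rw [h] at hQ
      norm_num at hQ
    · exact_mod_cast h
  have hl1 : 1 / Real.log Q ≤ 1 / 64 := one_div_le_one_div_of_le (by norm_num) hQ
  have hv' : |v| ≤ (Q : ℝ) ^ 10 := by
    have : (Q : ℝ) ^ 8 ≤ (Q : ℝ) ^ 10 := pow_le_pow_right₀ hQ1 (by norm_num)
    linarith
  have h1 := H (Real.log Q) ((Q : ℝ) ^ 10) f (by linarith) hf (1 / 64) v hl1 (by norm_num) hv'
  have hs0 : f (1 + (1 / 64 : ℝ) + v * Complex.I) ≠ 0 := z2_ne hf (by norm_num)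
  set s₀ : ℂ := 1 + (1 / 64 : ℝ) + v * Complex.I with hs
  have hre : s₀.re = 1 + 1 / 64 := z2_re (1 / 64) v
  have him : s₀.im = v := z2_im (1 / 64) v
  have hmem : ∀ ρ ∈ ZD f s₀ (1 / 4), f ρ = 0 ∧ ‖ρ - s₀‖ ≤ 1 / 4 := fun ρ hρ =>
    (mem_ZD hf.diff ⟨_, hs0⟩).1 hρ
  have hpos : ∀ ρ ∈ ZD f s₀ (1 / 4), 0 < ‖s₀ - ρ‖ := by
    intro ρ hρ
    rw [norm_pos_iff, sub_ne_zero]
    intro h5
    rw [h5] at hs0
    exact hs0 (hmem ρ hρ).1
  have hcount : ∑ ρ ∈ ZD f s₀ (1 / 4), (od f ρ : ℝ) ≤ 4 * C1 * Real.log Q := by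
    have h2 : ∑ ρ ∈ ZD f s₀ (1 / 4), (od f ρ : ℝ) ≤
        ∑ ρ ∈ ZD f s₀ (1 / 4), 256 * ((od f ρ : ℝ) * ((1 / 64) / ‖s₀ - ρ‖) ^ 2) := by
      refine sum_le_sum fun ρ hρ => ?_
      have h3 : ‖s₀ - ρ‖ ≤ 1 / 4 := by
        rw [norm_sub_rev]
        exact (hmem ρ hρ).2
      have h4 := hpos ρ hρ
      have h5 : 1 / 16 ≤ (1 / 64) / ‖s₀ - ρ‖ := by
        rw [le_div_iff₀ h4]
        linarith
      have h6 : (1 / 16 : ℝ) ^ 2 ≤ ((1 / 64) / ‖s₀ - ρ‖) ^ 2 := by gcongr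
      have h7 : (0 : ℝ) ≤ od f ρ := Nat.cast_nonneg _
      nlinarith
    refine h2.trans ?_
    rw [← mul_sum]
    linarith
  have hsplit : ‖∑ ρ ∈ ZD f s₀ (1 / 4),
      (od f ρ : ℂ) * (((1 / 64 : ℝ) : ℂ) / (s₀ - ρ)) ^ (k + 1)‖ ≤
      ∑ ρ ∈ ZD f s₀ (1 / 4), (od f ρ : ℝ) * ‖((1 / 64 : ℝ) : ℂ) / (s₀ - ρ)‖ ^ (k + 1) := by
    refine (norm_sum_le _ _).trans (le_of_eq (sum_congr rfl fun ρ _ => ?_))
    rw [norm_mul, norm_pow, Complex.norm_natCast]
  refine hsplit.trans ?_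
  rw [← sum_filter_add_sum_filter_not (ZD f s₀ (1 / 4)) (fun ρ => 7 / 8 ≤ ρ.re)]
  apply add_le_add
  · apply sum_le_sum_of_subset_of_nonneg
    · intro ρ hρ
      rw [mem_filter] at hρ
      obtain ⟨hρ1, hρ2⟩ := hρ
      obtain ⟨h3, h4⟩ := hmem ρ hρ1
      rw [mem_ZR hf.diff ⟨_, hs0⟩]
      refine ⟨h3, by linarith, (hf.zre ρ h3).le, ?_⟩
      have h5 : |ρ.im - v| ≤ 1 / 4 := by
        have h6 := Complex.abs_im_le_norm (ρ - s₀)
        rw [Complex.sub_im, him] at h6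
        exact h6.trans h4
      have h7 : |ρ.im| ≤ |ρ.im - v| + |v| := by
        have := abs_add_le (ρ.im - v) v
        rwa [sub_add_cancel] at this
      linarith
    · intro ρ _ _
      positivity
  · have h3 : ∑ ρ ∈ (ZD f s₀ (1 / 4)).filter (fun ρ => ¬ 7 / 8 ≤ ρ.re),
        (od f ρ : ℝ) * ‖((1 / 64 : ℝ) : ℂ) / (s₀ - ρ)‖ ^ (k + 1) ≤
        ∑ ρ ∈ (ZD f s₀ (1 / 4)).filter (fun ρ => ¬ 7 / 8 ≤ ρ.re), (od f ρ : ℝ) * (1 / 9) ^ k := by
      refine sum_le_sum fun ρ hρ => ?_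
      rw [mem_filter] at hρ
      obtain ⟨hρ1, hρ2⟩ := hρ
      push Not at hρ2
      apply mul_le_mul_of_nonneg_left _ (Nat.cast_nonneg _)
      have h4 : 9 / 64 ≤ ‖s₀ - ρ‖ := by
        have h5 := Complex.re_le_norm (s₀ - ρ)
        rw [Complex.sub_re, hre] at h5
        linarith
      have h6 : ‖((1 / 64 : ℝ) : ℂ) / (s₀ - ρ)‖ ≤ 1 / 9 := by
        rw [norm_div, Complex.norm_real, Real.norm_of_nonneg (by norm_num : (0 : ℝ) ≤ 1 / 64),
          div_le_iff₀ (by linarith)]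
        linarith
      calc ‖((1 / 64 : ℝ) : ℂ) / (s₀ - ρ)‖ ^ (k + 1) ≤ (1 / 9) ^ (k + 1) := by gcongr
        _ ≤ (1 / 9) ^ k := pow_le_pow_of_le_one (by norm_num) (by norm_num) (Nat.le_succ k)
    refine h3.trans ?_
    rw [← sum_mul]
    apply mul_le_mul_of_nonneg_right _ (by positivity)
    exact (sum_le_sum_of_subset_of_nonneg (filter_subset _ _) fun ρ _ _ => Nat.cast_nonneg _).trans
      hcount

end Pool.Agent.Lib.H18Q
end
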