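import Pool.Agent.Lib.H1M.RV2.M004
import Pool.Agent.Lib.H1M.RV2.M014
import Pool.Agent.Lib.H1M.RV2.M017
import Pool.Agent.Lib.H1M.RV2.M019
import Pool.Agent.Lib.H1M.RV2.M021
import Pool.Agent.Lib.H1M.RV2.M022

/-! Merged copies (to shorten the build) of Lib.H18E.BS, Lib.H18E.SS1, Lib.H18E.SS2, Lib.H18Q.R2A, Lib.H68T.CG2, Lib.H68T.HDEC, Lib.H18Q.E2. -/

-- from Lib.H18E.BS
section

/-!
# Chunk BS: Bessel's inequality
-/

open Finset Pool.Agent.Lib.H68T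

namespace Pool.Agent.Lib.H18E

/-- If all exponential sums of `w` over `[0, H)` are at most `D`, the correlations with `v` are small in
mean square. Same proof as the first part of `corr_sq_le` (file `H68T/PV.lean`; `PV_parseval`,
`PV_ortho`): discrete Fourier transform modulo a large `N`. -/
theorem bessel (H a b : ℕ) (w v : ℕ → ℝ) (D : ℝ)
    (hw : ∀ θ : ℝ, ‖∑ c ∈ range H, (w c : ℂ) * e (c * θ)‖ ≤ D) :
    ∑ t ∈ Ico a b, (∑ c ∈ range H, w c * v (t + c)) ^ 2 ≤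
      D ^ 2 * ∑ l ∈ Ico a (b + H), v l ^ 2 := by
  rcases Nat.lt_or_ge a b with hab | hab
  swap
  · rw [Finset.Ico_eq_empty (by omega), Finset.sum_empty]
    positivity
  obtain ⟨N, hNdef⟩ : ∃ N : ℕ, a + N = b + H := ⟨b + H - a, by omega⟩
  have hN : 0 < N := by omega
  have hNr : (0 : ℝ) < N := by exact_mod_cast hN
  rw [← hNdef]
  have hD : 0 ≤ D := (norm_nonneg _).trans (hw 0)
  set U : ℕ → ℂ := fun j => ∑ c ∈ range H, (w c : ℂ) * e (c * ((j : ℝ) / N)) with hU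
  set Vf : ℕ → ℂ := fun j => ∑ l ∈ Ico a (a + N), (v l : ℂ) * e ((j : ℝ) * ((l : ℝ) / N)) with hVf
  set B : ℕ → ℂ := fun j => Vf j * (starRingEnd ℂ) (U j) with hB
  have hUD : ∀ j, ‖U j‖ ≤ D := fun j => hw _
  -- the Fourier expansion of the correlation
  have hA : ∀ t ∈ Ico a b, ((N : ℝ) * ∑ c ∈ range H, w c * v (t + c) : ℝ) =
      (∑ j ∈ Ico 0 (0 + N), B j * e (-((j : ℝ) * ((t : ℝ) / N))) : ℂ) := by
    intro t ht
    rw [mem_Ico] at ht
    have e1 : ∀ j : ℕ, B j * e (-((j : ℝ) * ((t : ℝ) / N))) =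
        ∑ l ∈ Ico a (a + N), ∑ c ∈ range H, ((v l : ℂ) * w c) *
          e ((j : ℝ) * ((((l : ℤ) - c - t : ℤ) : ℝ) / N)) := by
      intro j
      simp only [hB, hVf, hU, map_sum, Finset.sum_mul_sum]
      rw [Finset.sum_mul]
      refine Finset.sum_congr rfl fun l _ => ?_
      rw [Finset.sum_mul]
      refine Finset.sum_congr rfl fun c _ => ?_
      rw [map_mul, PV_e_conj, Complex.conj_ofReal]
      have e2 : (j : ℝ) * ((((l : ℤ) - c - t : ℤ) : ℝ) / N) =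
          (j : ℝ) * ((l : ℝ) / N) + (-((c : ℝ) * ((j : ℝ) / N)) + -((j : ℝ) * ((t : ℝ) / N))) := by
        push_cast
        ring
      rw [e2, PV_e_add, PV_e_add]
      ring
    simp only [e1]
    rw [Finset.sum_comm]
    have e3 : ∀ l ∈ Ico a (a + N), ∑ j ∈ Ico 0 (0 + N), ∑ c ∈ range H,
        ((v l : ℂ) * w c) * e ((j : ℝ) * ((((l : ℤ) - c - t : ℤ) : ℝ) / N)) =
        ∑ c ∈ range H, if l = t + c then (N : ℂ) * ((v l : ℂ) * w c) else 0 := by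
      intro l hl
      rw [Finset.sum_comm]
      refine Finset.sum_congr rfl fun c hc => ?_
      rw [mem_Ico] at hl
      rw [mem_range] at hc
      rw [← Finset.mul_sum, PV_ortho N hN 0 ((l : ℤ) - c - t) (by rw [abs_lt]; omega)]
      by_cases h : l = t + c
      · rw [if_pos (by omega), if_pos h]
        ring
      · rw [if_neg (by omega), if_neg h, mul_zero]
    rw [Finset.sum_congr rfl e3, Finset.sum_comm]
    push_cast
    rw [Finset.mul_sum]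
    refine Finset.sum_congr rfl fun c hc => ?_
    rw [mem_range] at hc
    rw [Finset.sum_ite_eq', if_pos (by rw [mem_Ico]; omega)]
    ring
  have hle1 : ∑ t ∈ Ico a b, ((N : ℝ) * ∑ c ∈ range H, w c * v (t + c)) ^ 2 ≤
      ∑ t ∈ Ico a (a + N), ‖∑ j ∈ Ico 0 (0 + N), (starRingEnd ℂ) (B j) *
        e ((t : ℝ) * ((j : ℝ) / N))‖ ^ 2 := by
    have h1 : ∀ t ∈ Ico a b, ((N : ℝ) * ∑ c ∈ range H, w c * v (t + c)) ^ 2 =
        ‖∑ j ∈ Ico 0 (0 + N), (starRingEnd ℂ) (B j) * e ((t : ℝ) * ((j : ℝ) / N))‖ ^ 2 := by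
      intro t ht
      have h2 := congrArg (fun z : ℂ => ‖z‖) (hA t ht)
      rw [Complex.norm_real, Real.norm_eq_abs] at h2
      rw [← sq_abs, h2, ← RCLike.norm_conj (∑ j ∈ Ico 0 (0 + N), B j *
        e (-((j : ℝ) * ((t : ℝ) / N)))), map_sum]
      congr 2
      refine Finset.sum_congr rfl fun j _ => ?_
      rw [map_mul, PV_e_conj, neg_neg]
      congr 2
      ring
    rw [Finset.sum_congr rfl h1]
    refine Finset.sum_le_sum_of_subset_of_nonneg ?_ fun _ _ _ => by positivity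
    intro t ht
    rw [mem_Ico] at ht ⊢
    omega
  rw [PV_parseval N hN 0 a (fun j => (starRingEnd ℂ) (B j))] at hle1
  have hle2 : ∑ j ∈ Ico 0 (0 + N), ‖(starRingEnd ℂ) (B j)‖ ^ 2 ≤
      D ^ 2 * ((N : ℝ) * ∑ l ∈ Ico a (a + N), ‖((v l : ℝ) : ℂ)‖ ^ 2) := by
    rw [← PV_parseval N hN a 0 (fun l => ((v l : ℝ) : ℂ)), Finset.mul_sum]
    refine Finset.sum_le_sum fun j _ => ?_
    rw [RCLike.norm_conj]
    simp only [hB]
    rw [norm_mul, RCLike.norm_conj, mul_pow, mul_comm]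
    exact mul_le_mul_of_nonneg_right (pow_le_pow_left₀ (norm_nonneg _) (hUD j) 2) (by positivity)
  have hle3 : (N : ℝ) ^ 2 * ∑ t ∈ Ico a b, (∑ c ∈ range H, w c * v (t + c)) ^ 2 ≤
      (N : ℝ) ^ 2 * (D ^ 2 * ∑ l ∈ Ico a (a + N), v l ^ 2) := by
    have h4 : ∑ l ∈ Ico a (a + N), ‖((v l : ℝ) : ℂ)‖ ^ 2 = ∑ l ∈ Ico a (a + N), v l ^ 2 := by
      refine Finset.sum_congr rfl fun l _ => ?_
      rw [Complex.norm_real, Real.norm_eq_abs, sq_abs]
    rw [h4] at hle2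
    calc (N : ℝ) ^ 2 * ∑ t ∈ Ico a b, (∑ c ∈ range H, w c * v (t + c)) ^ 2
        = ∑ t ∈ Ico a b, ((N : ℝ) * ∑ c ∈ range H, w c * v (t + c)) ^ 2 := by
          rw [Finset.mul_sum]
          exact Finset.sum_congr rfl fun t _ => by ring
      _ ≤ _ := hle1
      _ ≤ (N : ℝ) * (D ^ 2 * ((N : ℝ) * ∑ l ∈ Ico a (a + N), v l ^ 2)) :=
          mul_le_mul_of_nonneg_left hle2 hNr.le
      _ = _ := by ring
  exact le_of_mul_le_mul_left hle3 (by positivity)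

theorem bs_ix (H : ℕ) (σ : Bool) (s t : ℕ) (u v : ℕ → ℝ) :
    ∑ c ∈ range H, u (s + c) * v (ix H σ t c) = ∑ c ∈ range H, u (ix H σ s c) * v (t + c) := by
  cases σ with
  | true => rfl
  | false =>
    simp only [ix, cond_false]
    rw [← sum_range_reflect (fun c => u (s + (H - 1 - c)) * v (t + c)) H]
    refine sum_congr rfl fun c hc => ?_
    rw [mem_range] at hc
    have : H - 1 - (H - 1 - c) = c := by omega
    rw [this]

/-- the exponential sums of the reflected sequence -/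
theorem bs_refl (H : ℕ) (σ : Bool) (s : ℕ) (u : ℕ → ℝ) (D : ℝ)
    (hu : ∀ θ : ℝ, ‖∑ c ∈ range H, (u (s + c) : ℂ) * e (c * θ)‖ ≤ D) (θ : ℝ) :
    ‖∑ c ∈ range H, (u (ix H σ s c) : ℂ) * e (c * θ)‖ ≤ D := by
  cases σ with
  | true => exact hu θ
  | false =>
    simp only [ix, cond_false]
    rw [← sum_range_reflect]
    have h1 : ∀ c ∈ range H, ((u (s + (H - 1 - (H - 1 - c))) : ℝ) : ℂ) *
        e (((H - 1 - c : ℕ) : ℝ) * θ) =
        e (((H - 1 : ℕ) : ℝ) * θ) * ((u (s + c) : ℂ) * e (c * (-θ))) := by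
      intro c hc
      rw [mem_range] at hc
      have h2 : H - 1 - (H - 1 - c) = c := by omega
      have h3 : ((H - 1 - c : ℕ) : ℝ) * θ = ((H - 1 : ℕ) : ℝ) * θ + c * (-θ) := by
        rw [Nat.cast_sub (by omega)]
        ring
      rw [h2, h3, PV_e_add]
      ring
    rw [sum_congr rfl h1, ← mul_sum, norm_mul]
    have h4 : ‖e (((H - 1 : ℕ) : ℝ) * θ)‖ = 1 := by
      unfold e
      have : 2 * (Real.pi : ℂ) * ((((H - 1 : ℕ) : ℝ) * θ : ℝ) : ℂ) * Complex.I =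
        ((2 * Real.pi * (((H - 1 : ℕ) : ℝ) * θ) : ℝ) : ℂ) * Complex.I := by push_cast; ring
      rw [this, Complex.norm_exp_ofReal_mul_I]
    rw [h4, one_mul]
    exact hu (-θ)

/-- Hence for `u` with small exponential sums over the intervals `[s, s + H)`, `s ∈ S`, for both
directions `σ`. For `σ = false` use `∑_c u(s+c) v(t+(H-1-c)) = ∑_c u(s+(H-1-c)) v(t+c)`
(`Finset.sum_range_reflect`) and that `w(c) = u(s + (H-1-c))` has the same bound. -/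
theorem corr_sq (H a b : ℕ) (σ : Bool) (u v : ℕ → ℝ) (D : ℝ) (S : Finset ℕ)
    (hu : ∀ s ∈ S, ∀ θ : ℝ, ‖∑ c ∈ range H, (u (s + c) : ℂ) * e (c * θ)‖ ≤ D) :
    ∑ s ∈ S, ∑ t ∈ Ico a b, (∑ c ∈ range H, u (s + c) * v (ix H σ t c)) ^ 2 ≤
      S.card * (D ^ 2 * ∑ l ∈ Ico a (b + H), v l ^ 2) := by
  have h1 : ∀ s ∈ S, ∑ t ∈ Ico a b, (∑ c ∈ range H, u (s + c) * v (ix H σ t c)) ^ 2 ≤
      D ^ 2 * ∑ l ∈ Ico a (b + H), v l ^ 2 := by
    intro s hs
    have h2 : ∑ t ∈ Ico a b, (∑ c ∈ range H, u (s + c) * v (ix H σ t c)) ^ 2 =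
        ∑ t ∈ Ico a b, (∑ c ∈ range H, (fun c => u (ix H σ s c)) c * v (t + c)) ^ 2 :=
      sum_congr rfl fun t _ => by rw [bs_ix]
    rw [h2]
    exact bessel H a b (fun c => u (ix H σ s c)) v D (bs_refl H σ s u D (hu s hs))
  refine (sum_le_sum h1).trans ?_
  rw [sum_const, nsmul_eq_mul]

/-- The same with the roles exchanged: `v` has small exponential sums. -/
theorem corr_sq' (H a b : ℕ) (σ : Bool) (u v : ℕ → ℝ) (D : ℝ) (S : Finset ℕ)
    (hv : ∀ t ∈ S, ∀ θ : ℝ, ‖∑ c ∈ range H, (v (t + c) : ℂ) * e (c * θ)‖ ≤ D) :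
    ∑ s ∈ Ico a b, ∑ t ∈ S, (∑ c ∈ range H, u (s + c) * v (ix H σ t c)) ^ 2 ≤
      S.card * (D ^ 2 * ∑ l ∈ Ico a (b + H), u l ^ 2) := by
  rw [sum_comm]
  have h1 : ∀ t ∈ S, ∑ s ∈ Ico a b, (∑ c ∈ range H, u (s + c) * v (ix H σ t c)) ^ 2 ≤
      D ^ 2 * ∑ l ∈ Ico a (b + H), u l ^ 2 := by
    intro t ht
    have h2 : ∑ s ∈ Ico a b, (∑ c ∈ range H, u (s + c) * v (ix H σ t c)) ^ 2 =
        ∑ s ∈ Ico a b, (∑ c ∈ range H, (fun c => v (ix H σ t c)) c * u (s + c)) ^ 2 :=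
      sum_congr rfl fun s _ => by
        congr 1
        exact sum_congr rfl fun c _ => mul_comm _ _
    rw [h2]
    exact bessel H a b (fun c => v (ix H σ t c)) u D (bs_refl H σ t v D (hv t ht))
  refine (sum_le_sum h1).trans ?_
  rw [sum_const, nsmul_eq_mul]

end Pool.Agent.Lib.H18E
end

-- from Lib.H18E.SS1
section

/-!
# Chunk SS1: the tail of the singular series (Rankin's trick)
-/

open Finset Pool.Agent.Lib.H68T

namespace Pool.Agent.Lib.H18E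

/-- the local factor of Rankin's majorant -/
noncomputable def SS1_f (D : ℕ) (p : ℕ) : ℝ :=
  if p ∣ D then Real.sqrt p / ((p : ℝ) - 1) else Real.sqrt p / ((p : ℝ) - 1) ^ 2

theorem SS1_tot {q : ℕ} (hq : Squarefree q) :
    (Nat.totient q : ℝ) = ∏ p ∈ q.primeFactors, ((p : ℝ) - 1) := by
  have h1 := Nat.totient_eq_div_primeFactors_mul q
  rw [Nat.prod_primeFactors_of_squarefree hq,
    Nat.div_self (Nat.pos_of_ne_zero hq.ne_zero), one_mul] at h1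
  rw [h1, Nat.cast_prod]
  refine prod_congr rfl fun p hp => ?_
  have h2 := (Nat.prime_of_mem_primeFactors hp).one_le
  rw [Nat.cast_sub h2, Nat.cast_one]

theorem SS1_term {q D : ℕ} (hq : Squarefree q) (hD : D ≠ 0) :
    Real.sqrt q * ((Nat.totient (Nat.gcd q D) : ℝ) / (Nat.totient q : ℝ) ^ 2) =
      ∏ p ∈ q.primeFactors, SS1_f D p := by
  have hg : Squarefree (Nat.gcd q D) := hq.squarefree_of_dvd (Nat.gcd_dvd_left q D)
  have h1 : (Nat.gcd q D).primeFactors = q.primeFactors.filter (fun p => p ∣ D) := by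
    rw [Nat.primeFactors_gcd hq.ne_zero hD]
    ext p
    simp only [mem_inter, mem_filter, Nat.mem_primeFactors]
    constructor
    · rintro ⟨⟨a, b, c⟩, d, e, f⟩
      exact ⟨⟨a, b, c⟩, e⟩
    · rintro ⟨⟨a, b, c⟩, e⟩
      exact ⟨⟨a, b, c⟩, a, e, hD⟩
  have h2 : Real.sqrt q = ∏ p ∈ q.primeFactors, Real.sqrt p := by
    rw [← Real.sqrt_prod _ (fun p _ => Nat.cast_nonneg p), ← Nat.cast_prod,
      Nat.prod_primeFactors_of_squarefree hq]
  rw [SS1_tot hg, SS1_tot hq, h1, prod_filter, h2, ← prod_pow, ← prod_div_distrib,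
    ← prod_mul_distrib]
  refine prod_congr rfl fun p hp => ?_
  have h3 : (1 : ℝ) < p := by exact_mod_cast (Nat.prime_of_mem_primeFactors hp).one_lt
  have h4 : (p : ℝ) - 1 ≠ 0 := by linarith
  unfold SS1_f
  split_ifs
  · field_simp
  · field_simp

theorem SS1_f_nonneg (D : ℕ) {p : ℕ} (hp : 1 < p) : 0 ≤ SS1_f D p := by
  have h3 : (1 : ℝ) < p := by exact_mod_cast hp
  have h4 : 0 < (p : ℝ) - 1 := by linarith
  unfold SS1_f
  split_ifs <;> positivity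

theorem SS1_sum (S : Finset ℕ) (hS : ∀ q ∈ S, Squarefree q) (D : ℕ) :
    ∑ q ∈ S, ∏ p ∈ q.primeFactors, SS1_f D p ≤
      ∏ p ∈ S.biUnion Nat.primeFactors, (1 + SS1_f D p) := by
  rw [prod_one_add]
  have hinj : Set.InjOn Nat.primeFactors (S : Set ℕ) := by
    intro a ha b hb hab
    rw [← Nat.prod_primeFactors_of_squarefree (hS a ha), hab,
      Nat.prod_primeFactors_of_squarefree (hS b hb)]
  rw [← sum_image (f := fun T => ∏ p ∈ T, SS1_f D p) hinj]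
  refine sum_le_sum_of_subset_of_nonneg ?_ ?_
  · intro T hT
    obtain ⟨q, hq, rfl⟩ := mem_image.1 hT
    rw [mem_powerset]
    exact subset_biUnion_of_mem Nat.primeFactors hq
  · intro T hT _
    refine prod_nonneg fun p hp => ?_
    have h1 := (mem_powerset.1 hT) hp
    obtain ⟨q, _, hq⟩ := mem_biUnion.1 h1
    exact SS1_f_nonneg D (Nat.prime_of_mem_primeFactors hq).one_lt

theorem SS1_small {p : ℕ} (hp : 1 < p) :
    Real.sqrt p / ((p : ℝ) - 1) ^ 2 ≤ 4 * (1 / (p : ℝ) ^ (3 / 2 : ℝ)) := by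
  have h2 : (2 : ℝ) ≤ p := by exact_mod_cast hp
  have h0 : (0 : ℝ) < p := by linarith
  have h4 : 0 < (p : ℝ) - 1 := by linarith
  have h5 : (p : ℝ) ^ (3 / 2 : ℝ) * Real.sqrt p = (p : ℝ) ^ 2 := by
    rw [Real.sqrt_eq_rpow, ← Real.rpow_add h0, ← Real.rpow_natCast]
    norm_num
  have h6 : 0 < (p : ℝ) ^ (3 / 2 : ℝ) := Real.rpow_pos_of_pos h0 _
  rw [mul_one_div, div_le_div_iff₀ (by positivity) h6, mul_comm (Real.sqrt p), h5]
  nlinarith

/-- Every `q` in the sum is squarefree with `√q > Q^(1/4)`, so the term is at most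
`Q^(-1/4) f(q)`, `f(q) = √q φ((q,D))/φ(q)^2`, multiplicative on squarefree numbers:
`f(p) = √p/(p-1)` if `p ∣ D`, `f(p) = √p/(p-1)^2` otherwise. A sum of `f` over a finite set of
squarefree numbers is at most `∏ (1 + f(p))` over a finite set of primes containing all their prime
factors (`Finset.prod_one_add`), and this is at most
`Rk D * ∏_p (1 + √p/(p-1)^2) ≤ Rk D * exp (∑_p √p/(p-1)^2)`, a convergent sum
(`√p/(p-1)^2 ≤ 4 p^(-3/2)`). -/
theorem ss_tail : ∃ C : ℝ, 1 ≤ C ∧ ∀ (Q : ℕ) (D : ℤ), D ≠ 0 → 1 ≤ Q → ∀ S : Finset ℕ,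
    (∀ q ∈ S, Squarefree q ∧ Q < q ^ 2) →
    ∑ q ∈ S, (Nat.totient (Nat.gcd q D.natAbs) : ℝ) / (Nat.totient q : ℝ) ^ 2 ≤
      C * (Q : ℝ) ^ (-(1 / 4) : ℝ) * Rk D := by
  have hsum : Summable (fun n : ℕ => 1 / (n : ℝ) ^ (3 / 2 : ℝ)) :=
    Real.summable_one_div_nat_rpow.2 (by norm_num)
  have hsum0 : 0 ≤ ∑' n : ℕ, 1 / (n : ℝ) ^ (3 / 2 : ℝ) := tsum_nonneg fun n => by positivity
  refine ⟨Real.exp (4 * ∑' n : ℕ, 1 / (n : ℝ) ^ (3 / 2 : ℝ)),
    Real.one_le_exp (by linarith), ?_⟩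
  intro Q D hD hQ S hS
  have hD' : D.natAbs ≠ 0 := Int.natAbs_ne_zero.2 hD
  have hQ0 : (0 : ℝ) < Q := by exact_mod_cast hQ
  have hQ1 : 0 < (Q : ℝ) ^ (-(1 / 4) : ℝ) := Real.rpow_pos_of_pos hQ0 _
  -- pointwise bound
  have h1 : ∀ q ∈ S, (Nat.totient (Nat.gcd q D.natAbs) : ℝ) / (Nat.totient q : ℝ) ^ 2 ≤
      (Q : ℝ) ^ (-(1 / 4) : ℝ) * ∏ p ∈ q.primeFactors, SS1_f D.natAbs p := by
    intro q hq
    obtain ⟨hsq, hlt⟩ := hS q hq
    rw [← SS1_term hsq hD', ← mul_assoc]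
    have h2 : 1 ≤ (Q : ℝ) ^ (-(1 / 4) : ℝ) * Real.sqrt q := by
      have h3 : (Q : ℝ) ^ (1 / 4 : ℝ) ≤ Real.sqrt q := by
        have h4 : (Q : ℝ) ≤ (q : ℝ) ^ 2 := by exact_mod_cast hlt.le
        have h5 : (Q : ℝ) ^ (1 / 4 : ℝ) ≤ ((q : ℝ) ^ 2) ^ (1 / 4 : ℝ) :=
          Real.rpow_le_rpow hQ0.le h4 (by norm_num)
        refine h5.trans (le_of_eq ?_)
        rw [← Real.rpow_natCast, ← Real.rpow_mul (Nat.cast_nonneg q), Real.sqrt_eq_rpow]
        norm_num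
      have h6 : (Q : ℝ) ^ (-(1 / 4) : ℝ) * (Q : ℝ) ^ (1 / 4 : ℝ) = 1 := by
        rw [← Real.rpow_add hQ0]
        norm_num
      exact h6.symm.le.trans (mul_le_mul_of_nonneg_left h3 hQ1.le)
    have h7 : 0 ≤ (Nat.totient (Nat.gcd q D.natAbs) : ℝ) / (Nat.totient q : ℝ) ^ 2 := by
      positivity
    nlinarith
  refine (sum_le_sum h1).trans ?_
  rw [← mul_sum]
  have h2 := SS1_sum S (fun q hq => (hS q hq).1) D.natAbs
  -- the product
  set P := S.biUnion Nat.primeFactors with hP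
  have hPp : ∀ p ∈ P, p.Prime := by
    intro p hp
    obtain ⟨q, _, hq⟩ := mem_biUnion.1 hp
    exact Nat.prime_of_mem_primeFactors hq
  have hA : ∏ p ∈ P.filter (fun p => p ∣ D.natAbs), (1 + SS1_f D.natAbs p) ≤ Rk D := by
    unfold Rk
    have hsub : P.filter (fun p => p ∣ D.natAbs) ⊆ D.natAbs.primeFactors := by
      intro p hp
      rw [mem_filter] at hp
      exact Nat.mem_primeFactors.2 ⟨hPp p hp.1, hp.2, hD'⟩
    rw [← prod_sdiff hsub]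
    have e1 : ∏ p ∈ P.filter (fun p => p ∣ D.natAbs), (1 + SS1_f D.natAbs p) =
        ∏ p ∈ P.filter (fun p => p ∣ D.natAbs), (1 + Real.sqrt p / ((p : ℝ) - 1)) := by
      refine prod_congr rfl fun p hp => ?_
      rw [SS1_f, if_pos (mem_filter.1 hp).2]
    rw [e1]
    have hone : ∀ p ∈ D.natAbs.primeFactors, 1 ≤ 1 + Real.sqrt p / ((p : ℝ) - 1) := by
      intro p hp
      have h3 : (1 : ℝ) < p := by exact_mod_cast (Nat.prime_of_mem_primeFactors hp).one_lt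
      have h4 : 0 < (p : ℝ) - 1 := by linarith
      have h5 : 0 ≤ Real.sqrt p / ((p : ℝ) - 1) := by positivity
      linarith
    have h3 : 1 ≤ ∏ p ∈ D.natAbs.primeFactors \ P.filter (fun p => p ∣ D.natAbs),
        (1 + Real.sqrt p / ((p : ℝ) - 1)) := by
      have h4 := prod_le_prod (s := D.natAbs.primeFactors \ P.filter (fun p => p ∣ D.natAbs))
        (f := fun _ => (1 : ℝ)) (g := fun p : ℕ => (1 + Real.sqrt p / ((p : ℝ) - 1)))
        (fun _ _ => zero_le_one) (fun p hp => hone p (mem_sdiff.1 hp).1)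
      rwa [prod_const_one] at h4
    have h4 : 0 ≤ ∏ p ∈ P.filter (fun p => p ∣ D.natAbs), (1 + Real.sqrt p / ((p : ℝ) - 1)) :=
      prod_nonneg fun p hp => zero_le_one.trans (hone p (hsub hp))
    nlinarith
  have hB : ∏ p ∈ P.filter (fun p => ¬ p ∣ D.natAbs), (1 + SS1_f D.natAbs p) ≤
      Real.exp (4 * ∑' n : ℕ, 1 / (n : ℝ) ^ (3 / 2 : ℝ)) := by
    calc ∏ p ∈ P.filter (fun p => ¬ p ∣ D.natAbs), (1 + SS1_f D.natAbs p)
        ≤ ∏ p ∈ P.filter (fun p => ¬ p ∣ D.natAbs), Real.exp (4 * (1 / (p : ℝ) ^ (3 / 2 : ℝ))) := by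
          refine prod_le_prod ?_ ?_
          · intro p hp
            have := SS1_f_nonneg D.natAbs (hPp p (mem_filter.1 hp).1).one_lt
            linarith
          · intro p hp
            rw [mem_filter] at hp
            have h3 := SS1_small (hPp p hp.1).one_lt
            rw [SS1_f, if_neg hp.2]
            have h4 := Real.add_one_le_exp (4 * (1 / (p : ℝ) ^ (3 / 2 : ℝ)))
            linarith
      _ = Real.exp (4 * ∑ p ∈ P.filter (fun p => ¬ p ∣ D.natAbs), 1 / (p : ℝ) ^ (3 / 2 : ℝ)) := by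
          rw [mul_sum, Real.exp_sum]
      _ ≤ _ := by
          rw [Real.exp_le_exp]
          have h3 := hsum.sum_le_tsum (P.filter (fun p => ¬ p ∣ D.natAbs))
            (fun n _ => by positivity)
          linarith
  have hprod : ∏ p ∈ P, (1 + SS1_f D.natAbs p) ≤
      Real.exp (4 * ∑' n : ℕ, 1 / (n : ℝ) ^ (3 / 2 : ℝ)) * Rk D := by
    rw [← prod_filter_mul_prod_filter_not P (fun p => p ∣ D.natAbs), mul_comm]
    refine mul_le_mul hB hA ?_ (Real.exp_pos _).le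
    refine prod_nonneg fun p hp => ?_
    have := SS1_f_nonneg D.natAbs (hPp p (mem_filter.1 hp).1).one_lt
    linarith
  calc (Q : ℝ) ^ (-(1 / 4) : ℝ) * ∑ q ∈ S, ∏ p ∈ q.primeFactors, SS1_f D.natAbs p
      ≤ (Q : ℝ) ^ (-(1 / 4) : ℝ) *
          (Real.exp (4 * ∑' n : ℕ, 1 / (n : ℝ) ^ (3 / 2 : ℝ)) * Rk D) :=
        mul_le_mul_of_nonneg_left (h2.trans hprod) hQ1.le
    _ = _ := by ring

end Pool.Agent.Lib.H18E
end

-- from Lib.H18E.SS2
section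

/-!
# Chunk SS2: lower bound of the truncated singular series
-/

open Finset Pool.Agent.Lib.H68T

namespace Pool.Agent.Lib.H18E

/-- the local factor -/
noncomputable def SS2_h (D : ℕ) (p : ℕ) : ℝ :=
  if p ∣ D then 1 / ((p : ℝ) - 1) else -(1 / ((p : ℝ) - 1) ^ 2)

theorem SS2_gcd {q D : ℕ} (hq : Squarefree q) (hD : D ≠ 0) :
    (Nat.gcd q D).primeFactors = q.primeFactors.filter (fun p => p ∣ D) := by
  rw [Nat.primeFactors_gcd hq.ne_zero hD]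
  ext p
  simp only [mem_inter, mem_filter, Nat.mem_primeFactors]
  constructor
  · rintro ⟨⟨a, b, c⟩, d, e, f⟩
    exact ⟨⟨a, b, c⟩, e⟩
  · rintro ⟨⟨a, b, c⟩, e⟩
    exact ⟨⟨a, b, c⟩, a, e, hD⟩

theorem SS2_div {q D : ℕ} (hq : Squarefree q) (hD : D ≠ 0) :
    (q / Nat.gcd q D).primeFactors = q.primeFactors.filter (fun p => ¬ p ∣ D) := by
  have hq0 := hq.ne_zero
  obtain ⟨h, hh⟩ := Nat.gcd_dvd_left q D
  set g := Nat.gcd q D with hg
  have hg0 : 0 < g := Nat.pos_of_ne_zero (fun h0 => hq0 (by rw [hh, h0, zero_mul]))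
  have hcop : Nat.Coprime g h := by
    rw [hh] at hq
    exact Nat.coprime_of_squarefree_mul hq
  have hqg : q / g = h := by
    conv_lhs => rw [hh]
    exact Nat.mul_div_cancel_left _ hg0
  have h1 : q.primeFactors = g.primeFactors ∪ h.primeFactors := by
    conv_lhs => rw [hh]
    exact hcop.primeFactors_mul
  have h2 := SS2_gcd hq hD
  rw [← hg] at h2
  have h3 : Disjoint g.primeFactors h.primeFactors := hcop.disjoint_primeFactors
  rw [hqg]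
  ext p
  rw [mem_filter]
  constructor
  · intro hp
    have hpq : p ∈ q.primeFactors := by rw [h1]; exact mem_union_right _ hp
    refine ⟨hpq, fun hpD => ?_⟩
    have hpg : p ∈ g.primeFactors := by rw [h2]; exact mem_filter.2 ⟨hpq, hpD⟩
    exact (disjoint_left.1 h3 hpg) hp
  · rintro ⟨hpq, hpD⟩
    rw [h1, mem_union] at hpq
    rcases hpq with hp | hp
    · rw [h2, mem_filter] at hp
      exact absurd hp.2 hpD
    · exact hp

theorem SS2_mu {n : ℕ} (hn : Squarefree n) :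
    (ArithmeticFunction.moebius n : ℝ) = ∏ _p ∈ n.primeFactors, (-1 : ℝ) := by
  have h := ArithmeticFunction.isMultiplicative_moebius.map_prod_of_prime n.primeFactors
    (fun p hp => Nat.prime_of_mem_primeFactors hp)
  rw [Nat.prod_primeFactors_of_squarefree hn] at h
  rw [h, Int.cast_prod]
  refine prod_congr rfl fun p hp => ?_
  rw [ArithmeticFunction.moebius_apply_prime (Nat.prime_of_mem_primeFactors hp)]
  norm_num

theorem SS2_term {q : ℕ} {D : ℤ} (hq : Squarefree q) (hD : D ≠ 0) :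
    ((ArithmeticFunction.moebius q : ℝ) / (Nat.totient q : ℝ)) ^ 2 * cq q D =
      ∏ p ∈ q.primeFactors, SS2_h D.natAbs p := by
  have hD' : D.natAbs ≠ 0 := Int.natAbs_ne_zero.2 hD
  have hg : Squarefree (Nat.gcd q D.natAbs) := hq.squarefree_of_dvd (Nat.gcd_dvd_left q _)
  have hqg : Squarefree (q / Nat.gcd q D.natAbs) :=
    hq.squarefree_of_dvd (Nat.div_dvd_of_dvd (Nat.gcd_dvd_left q _))
  have h1 : (ArithmeticFunction.moebius q : ℝ) ^ 2 = 1 := by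
    exact_mod_cast ArithmeticFunction.moebius_sq_eq_one_of_squarefree hq
  rw [cq_squarefree q hq D, div_pow, h1, SS2_mu hqg, SS1_tot hg, SS1_tot hq, SS2_gcd hq hD',
    SS2_div hq hD', prod_filter, prod_filter, ← prod_pow, ← prod_mul_distrib,
    one_div, ← prod_inv_distrib, ← prod_mul_distrib]
  refine prod_congr rfl fun p hp => ?_
  have h3 : (1 : ℝ) < p := by exact_mod_cast (Nat.prime_of_mem_primeFactors hp).one_lt
  have h4 : (p : ℝ) - 1 ≠ 0 := by linarith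
  unfold SS2_h
  by_cases hpD : p ∣ D.natAbs
  · simp only [hpD, not_true_eq_false, if_false, if_true]
    field_simp
  · simp only [hpD, not_false_eq_true, if_false, if_true]
    field_simp

theorem SS2_abs {q D : ℕ} (hq : Squarefree q) (hD : D ≠ 0) :
    ∏ p ∈ q.primeFactors, |SS2_h D p| =
      (Nat.totient (Nat.gcd q D) : ℝ) / (Nat.totient q : ℝ) ^ 2 := by
  have hg : Squarefree (Nat.gcd q D) := hq.squarefree_of_dvd (Nat.gcd_dvd_left q D)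
  rw [SS1_tot hg, SS1_tot hq, SS2_gcd hq hD, prod_filter, ← prod_pow, ← prod_div_distrib]
  refine prod_congr rfl fun p hp => ?_
  have h3 : (1 : ℝ) < p := by exact_mod_cast (Nat.prime_of_mem_primeFactors hp).one_lt
  have h4 : 0 < (p : ℝ) - 1 := by linarith
  unfold SS2_h
  split_ifs
  · rw [abs_of_pos (by positivity)]
    field_simp
  · rw [abs_neg, abs_of_pos (by positivity)]

theorem SS2_sqf (A : Finset ℕ) (hA : ∀ p ∈ A, p.Prime) : Squarefree (∏ p ∈ A, p) := by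
  apply Finset.squarefree_prod_of_pairwise_isCoprime
  · intro a ha b hb hab
    exact Nat.coprime_iff_isRelPrime.1 ((Nat.coprime_primes (hA a ha) (hA b hb)).2 hab)
  · intro p hp
    exact (hA p hp).prime.squarefree

/-- the telescoping product -/
theorem SS2_tele (Z : ℕ) (hZ : 1 ≤ Z) :
    ∏ m ∈ Icc 2 Z, (1 - 1 / (m : ℝ) ^ 2) = ((Z : ℝ) + 1) / (2 * Z) := by
  induction Z, hZ using Nat.le_induction with
  | base => norm_num
  | succ n hn ih =>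
    rw [prod_Icc_succ_top (by omega), ih]
    have h0 : (0 : ℝ) < n := by exact_mod_cast hn
    push_cast
    field_simp
    ring

theorem SS2_ge (Z : ℕ) (B : Finset ℕ) (hB : B ⊆ Icc 2 Z) :
    1 / 2 ≤ ∏ m ∈ B, (1 - 1 / (m : ℝ) ^ 2) := by
  rcases Nat.eq_zero_or_pos Z with hZ | hZ
  · have h1 : B = ∅ := by
      rw [hZ] at hB
      exact subset_empty.1 hB
    rw [h1, prod_empty]
    norm_num
  · have h1 := SS2_tele Z hZ
    have hb : ∀ m ∈ Icc 2 Z, 0 ≤ 1 - 1 / (m : ℝ) ^ 2 ∧ 1 - 1 / (m : ℝ) ^ 2 ≤ 1 := by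
      intro m hm
      have h2 : (2 : ℝ) ≤ m := by exact_mod_cast (mem_Icc.1 hm).1
      have h3 : 1 / (m : ℝ) ^ 2 ≤ 1 := by
        rw [div_le_one (by positivity)]
        nlinarith
      have h4 : 0 ≤ 1 / (m : ℝ) ^ 2 := by positivity
      constructor <;> linarith
    rw [← prod_sdiff hB] at h1
    have h2 : ∏ m ∈ Icc 2 Z \ B, (1 - 1 / (m : ℝ) ^ 2) ≤ 1 :=
      prod_le_one (fun m hm => (hb m (mem_sdiff.1 hm).1).1) (fun m hm => (hb m (mem_sdiff.1 hm).1).2)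
    have h3 : 0 ≤ ∏ m ∈ B, (1 - 1 / (m : ℝ) ^ 2) := prod_nonneg fun m hm => (hb m (hB hm)).1
    have h4 : (1 : ℝ) / 2 ≤ ((Z : ℝ) + 1) / (2 * Z) := by
      have h0 : (0 : ℝ) < Z := by exact_mod_cast hZ
      rw [div_le_div_iff₀ (by norm_num) (by positivity)]
      linarith
    nlinarith

/-- Let `Z = Q + |D| + 2` and let `T` be the set of the squarefree numbers composed of primes `p ≤ Z`,
`p ∤ W` (a finite set: the products of the subsets). By multiplicativity (`cq_squarefree`,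
`Finset.prod_one_add`)
`∑_{q ∈ T} (μ(q)/φ(q))^2 c_q(D) = ∏_{p ≤ Z, p ∤ W} (1 + c_p(D)/(p-1)^2)`, where `c_p(D) = p-1` if
`p ∣ D` and `-1` otherwise: this is `Gp W D * ∏_{p ≤ Z, p ∤ W, p ∤ D} (1 - 1/(p-1)^2)`. All primes
of the second product are `≥ 3` (as `2 ∣ W` or `2 ∣ D`), so it is at least
`∏_{2 ≤ m ≤ Z} (1 - 1/m^2) ≥ 1/2` (telescoping). The terms of `T` which are not in the sum have
`q^2 > Q` (if `q ≤ Q` is squarefree, coprime to `W`, then `q ∈ T`); they are at most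
`φ((q,D))/φ(q)^2` in absolute value: `ss_tail`. (Terms of `QW Q W` which are not squarefree vanish;
`QW Q W` is the set of the `q ∈ [1, Q]` coprime to `W`.) -/
theorem ss_low : ∃ C : ℝ, 1 ≤ C ∧ ∀ (Q W : ℕ) (D : ℤ), D ≠ 0 → 0 < W → 1 ≤ Q →
    (2 ∣ W ∨ (2 : ℤ) ∣ D) →
    1 / 2 * Gp W D - C * (Q : ℝ) ^ (-(1 / 4) : ℝ) * Rk D ≤
      ∑ q ∈ (QW Q W).filter (fun q => q ^ 2 ≤ Q),
        ((ArithmeticFunction.moebius q : ℝ) / (Nat.totient q : ℝ)) ^ 2 * cq q D := by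
  obtain ⟨C, hC1, hC⟩ := ss_tail
  refine ⟨C, hC1, fun Q W D hD hW hQ h2 => ?_⟩
  have hD' : D.natAbs ≠ 0 := Int.natAbs_ne_zero.2 hD
  have h2' : 2 ∣ W ∨ 2 ∣ D.natAbs := by
    rcases h2 with h | h
    · exact Or.inl h
    · right
      have := Int.natAbs_dvd_natAbs.2 h
      exact this
  set d := D.natAbs with hd
  set Z := Q + d + 2 with hZ
  set PZ := (range (Z + 1)).filter (fun p => p.Prime ∧ ¬ p ∣ W) with hPZ
  have hPp : ∀ p ∈ PZ, p.Prime := fun p hp => (mem_filter.1 hp).2.1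
  -- the sum over squarefree numbers
  have e1 : ∑ q ∈ (QW Q W).filter (fun q => q ^ 2 ≤ Q),
        ((ArithmeticFunction.moebius q : ℝ) / (Nat.totient q : ℝ)) ^ 2 * cq q D =
      ∑ A ∈ PZ.powerset.filter (fun A => (∏ p ∈ A, p) ^ 2 ≤ Q), ∏ p ∈ A, SS2_h d p := by
    have e2 : ∑ q ∈ (QW Q W).filter (fun q => q ^ 2 ≤ Q),
        ((ArithmeticFunction.moebius q : ℝ) / (Nat.totient q : ℝ)) ^ 2 * cq q D =
        ∑ q ∈ ((QW Q W).filter (fun q => q ^ 2 ≤ Q)).filter Squarefree,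
        ((ArithmeticFunction.moebius q : ℝ) / (Nat.totient q : ℝ)) ^ 2 * cq q D := by
      symm
      apply sum_filter_of_ne
      intro q _ hne
      by_contra hsq
      apply hne
      rw [ArithmeticFunction.moebius_eq_zero_of_not_squarefree hsq]
      simp
    rw [e2]
    refine sum_nbij' (fun q => q.primeFactors) (fun A => ∏ p ∈ A, p) ?_ ?_ ?_ ?_ ?_
    · intro q hq
      rw [mem_filter, mem_filter, QW, mem_filter, mem_Icc] at hq
      obtain ⟨⟨⟨⟨hq1, hqQ⟩, hqW⟩, hq2⟩, hsq⟩ := hq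
      rw [mem_filter, mem_powerset, Nat.prod_primeFactors_of_squarefree hsq]
      refine ⟨fun p hp => ?_, hq2⟩
      have hpp := Nat.prime_of_mem_primeFactors hp
      have hpq := Nat.dvd_of_mem_primeFactors hp
      rw [hPZ, mem_filter, mem_range]
      refine ⟨?_, hpp, fun hpW => ?_⟩
      · have := Nat.le_of_dvd hq1 hpq
        omega
      · have h3 := Nat.dvd_gcd hpq hpW
        rw [hqW] at h3
        exact hpp.one_lt.ne' (Nat.dvd_one.1 h3)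
    · intro A hA
      rw [mem_filter, mem_powerset] at hA
      obtain ⟨hA1, hA2⟩ := hA
      have hAp : ∀ p ∈ A, p.Prime := fun p hp => hPp p (hA1 hp)
      have hsq := SS2_sqf A hAp
      have hpos : 0 < ∏ p ∈ A, p := Nat.pos_of_ne_zero hsq.ne_zero
      rw [mem_filter, mem_filter, QW, mem_filter, mem_Icc]
      refine ⟨⟨⟨⟨hpos, ?_⟩, ?_⟩, hA2⟩, hsq⟩
      · nlinarith
      · apply Nat.Coprime.prod_left
        intro p hp
        rw [(hAp p hp).coprime_iff_not_dvd]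
        exact (mem_filter.1 (hA1 hp)).2.2
    · intro q hq
      exact Nat.prod_primeFactors_of_squarefree (mem_filter.1 hq).2
    · intro A hA
      rw [mem_filter, mem_powerset] at hA
      exact Nat.primeFactors_prod fun p hp => hPp p (hA.1 hp)
    · intro q hq
      exact SS2_term (mem_filter.1 hq).2 hD
  -- the full product
  have e3 : ∏ p ∈ PZ, (1 + SS2_h d p) =
      ∑ A ∈ PZ.powerset.filter (fun A => (∏ p ∈ A, p) ^ 2 ≤ Q), ∏ p ∈ A, SS2_h d p +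
      ∑ A ∈ PZ.powerset.filter (fun A => ¬ (∏ p ∈ A, p) ^ 2 ≤ Q), ∏ p ∈ A, SS2_h d p := by
    rw [prod_one_add, sum_filter_add_sum_filter_not]
  -- the tail
  have e4 : ∑ A ∈ PZ.powerset.filter (fun A => ¬ (∏ p ∈ A, p) ^ 2 ≤ Q), ∏ p ∈ A, SS2_h d p ≤
      C * (Q : ℝ) ^ (-(1 / 4) : ℝ) * Rk D := by
    have hinj : Set.InjOn (fun A : Finset ℕ => ∏ p ∈ A, p)
        ((PZ.powerset.filter (fun A => ¬ (∏ p ∈ A, p) ^ 2 ≤ Q) : Finset (Finset ℕ)) :
          Set (Finset ℕ)) := by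
      intro A hA B hB hAB
      rw [mem_coe, mem_filter, mem_powerset] at hA hB
      have h3 := congrArg Nat.primeFactors hAB
      simp only at h3
      rwa [Nat.primeFactors_prod fun p hp => hPp p (hA.1 hp),
        Nat.primeFactors_prod fun p hp => hPp p (hB.1 hp)] at h3
    have h3 := hC Q D hD hQ ((PZ.powerset.filter (fun A => ¬ (∏ p ∈ A, p) ^ 2 ≤ Q)).image
      (fun A => ∏ p ∈ A, p)) (by
        intro q hq
        obtain ⟨A, hA, rfl⟩ := mem_image.1 hq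
        rw [mem_filter, mem_powerset] at hA
        exact ⟨SS2_sqf A fun p hp => hPp p (hA.1 hp), not_le.1 hA.2⟩)
    rw [sum_image hinj] at h3
    refine le_trans (sum_le_sum fun A hA => ?_) h3
    rw [mem_filter, mem_powerset] at hA
    have hAp : ∀ p ∈ A, p.Prime := fun p hp => hPp p (hA.1 hp)
    rw [← SS2_abs (SS2_sqf A hAp) hD', Nat.primeFactors_prod hAp, ← abs_prod]
    exact le_abs_self _
  -- the main term
  have e5 : 1 / 2 * Gp W D ≤ ∏ p ∈ PZ, (1 + SS2_h d p) := by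
    rw [← prod_filter_mul_prod_filter_not PZ (fun p => p ∣ d)]
    have h3 : ∏ p ∈ PZ.filter (fun p => p ∣ d), (1 + SS2_h d p) = Gp W D := by
      unfold Gp
      refine prod_congr ?_ ?_
      · ext p
        rw [mem_filter, hPZ, mem_filter, mem_range, mem_filter, Nat.mem_primeFactors]
        constructor
        · rintro ⟨⟨_, hp, hpW⟩, hpd⟩
          exact ⟨⟨hp, hpd, hD'⟩, hpW⟩
        · rintro ⟨⟨hp, hpd, _⟩, hpW⟩
          have hle := Nat.le_of_dvd (Nat.pos_of_ne_zero hD') hpd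
          exact ⟨⟨by omega, hp, hpW⟩, hpd⟩
      · intro p hp
        have hpd : p ∣ d := Nat.dvd_of_mem_primeFactors (mem_filter.1 hp).1
        rw [SS2_h, if_pos hpd]
    have h4 : 0 ≤ Gp W D := by
      unfold Gp
      refine prod_nonneg fun p hp => ?_
      have h5 : (1 : ℝ) < p := by
        exact_mod_cast (Nat.prime_of_mem_primeFactors (mem_filter.1 hp).1).one_lt
      have h6 : 0 < (p : ℝ) - 1 := by linarith
      positivity
    have h5 : 1 / 2 ≤ ∏ p ∈ PZ.filter (fun p => ¬ p ∣ d), (1 + SS2_h d p) := by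
      have h6 : ∏ p ∈ PZ.filter (fun p => ¬ p ∣ d), (1 + SS2_h d p) =
          ∏ m ∈ (PZ.filter (fun p => ¬ p ∣ d)).image (fun p : ℕ => p - 1),
            (1 - 1 / (m : ℝ) ^ 2) := by
        rw [prod_image]
        · refine prod_congr rfl fun p hp => ?_
          rw [mem_filter] at hp
          have h7 := (hPp p hp.1).one_le
          rw [SS2_h, if_neg hp.2, Nat.cast_sub h7, Nat.cast_one]
          ring
        · intro a ha b hb hab
          rw [mem_coe, mem_filter] at ha hb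
          have h7 := (hPp a ha.1).one_le
          have h8 := (hPp b hb.1).one_le
          simp only at hab
          omega
      rw [h6]
      apply SS2_ge Z
      intro m hm
      obtain ⟨p, hp, rfl⟩ := mem_image.1 hm
      rw [mem_filter, hPZ, mem_filter, mem_range] at hp
      obtain ⟨⟨hpZ, hpp, hpW⟩, hpd⟩ := hp
      have h7 : p ≠ 2 := by
        rintro rfl
        rcases h2' with h | h
        · exact hpW h
        · exact hpd h
      have h8 := hpp.two_le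
      rw [mem_Icc]
      omega
    rw [h3]
    nlinarith
  rw [e1]
  linarith

end Pool.Agent.Lib.H18E
end

-- from Lib.H18Q.R2A
section

/-!
# Project H18Q, chunk R2A: ports of `B_le`, `B0_le` to the regime `RegP`
-/

open Finset

namespace Pool.Agent.Lib.H18Q

open Pool.Agent.Lib.H68T

/-- PORT of `BPS_regime` (end of `H68T/BPS.lean`) to `RegP K Q X : K ≤ log log X ∧ K log log X ≤
log Q ∧ K log Q ≤ log X` (lemmas in `R0.lean`: the same names as in `RegL.lean`). With `K ≥ 100`: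
`X ≥ Q^100`, `log (60 X) ≤ Q`. -/
theorem BPS_regimeP : ∃ K : ℝ, 1 ≤ K ∧ ∀ Q X : ℕ, RegP K Q X →
    1 ≤ Q ∧ 1 ≤ X ∧ 1 ≤ X / Q ^ 2 ∧ 2 * (X / Q ^ 2) ≤ X ∧
    (X : ℝ) ≤ 2 * Q ^ 2 * ((X / Q ^ 2 : ℕ) : ℝ) ∧
    11520 * 700 / (Q : ℝ) ^ 3 + (1 / ((X / Q ^ 2 : ℕ) : ℝ)) *
      (2 * √((60 * X : ℕ) : ℝ) * Real.log ((60 * X : ℕ) : ℝ)) ≤ (Q : ℝ) ^ (-(5 / 2) : ℝ) := by
  obtain ⟨K1, hK1, h1⟩ := regp_log_le 1 1 1 one_pos
  obtain ⟨K2, hK2, h2⟩ := regp_pow_le 128 (11 / 2) (1 / 2) (by norm_num)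
  obtain ⟨K3, hK3, h3⟩ := regp_log_le (2 * (11520 * 700)) 0 (1 / 2) (by norm_num)
  obtain ⟨K4, hK4, h4⟩ := regp_pow_le 2 2 1 one_pos
  refine ⟨60 + K1 + K2 + K3 + K4, by linarith, fun Q X h => ?_⟩
  set K := 60 + K1 + K2 + K3 + K4 with hKdef
  have hK : 1 ≤ K := by linarith
  have hK0 : 0 < K := by linarith
  have e1 := h1 Q X (h.mono hK0.le (by linarith))
  have e2 := h2 Q X (h.mono hK0.le (by linarith))
  have e3 := h3 Q X (h.mono hK0.le (by linarith))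
  have e4 := h4 Q X (h.mono hK0.le (by linarith))
  have hQ0 := h.Q_pos hK
  have hX0 := h.X_pos hK0
  have hXK := h.X_ge hK0
  have hQK := h.Q_ge hK
  have hQ' : (0:ℝ) < Q := by exact_mod_cast hQ0
  have hX' : (0:ℝ) < X := by exact_mod_cast hX0
  have hlX := h.logX_ge_one hK0
  rw [Real.rpow_one, Real.rpow_one, one_mul] at e1
  rw [Real.rpow_one] at e4
  have e4' : 2 * (Q:ℝ) ^ 2 ≤ X := by
    have : ((Q:ℝ) ^ (2:ℝ)) = (Q:ℝ) ^ 2 := by rw [← Real.rpow_natCast]; norm_num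
    rw [this] at e4; exact e4
  have e4n : 2 * Q ^ 2 ≤ X := by exact_mod_cast e4'
  have hQ2 : 2 ≤ Q := by
    have : (2:ℝ) ≤ Q := by linarith
    exact_mod_cast this
  have hQsq : 0 < Q ^ 2 := by positivity
  have hY1 : 1 ≤ X / Q ^ 2 := by
    rw [Nat.one_le_div_iff hQsq]; linarith
  have hYX : 2 * (X / Q ^ 2) ≤ X := by
    have h5 : X / Q ^ 2 ≤ X / 2 := Nat.div_le_div_left (by nlinarith) (by norm_num)
    omega
  have hXY : (X : ℝ) ≤ 2 * Q ^ 2 * ((X / Q ^ 2 : ℕ) : ℝ) := by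
    have h5 : X < Q ^ 2 * (X / Q ^ 2 + 1) := Nat.lt_mul_div_succ X hQsq
    have h6 : X ≤ 2 * Q ^ 2 * (X / Q ^ 2) := by nlinarith
    exact_mod_cast h6
  refine ⟨hQ0, hX0, hY1, hYX, hXY, ?_⟩
  have hY' : (0:ℝ) < ((X / Q ^ 2 : ℕ) : ℝ) := by exact_mod_cast hY1
  set Y : ℝ := ((X / Q ^ 2 : ℕ) : ℝ) with hYdef
  -- first term
  have t1 : 11520 * 700 / (Q : ℝ) ^ 3 ≤ (1 / 2) * (Q : ℝ) ^ (-(5 / 2) : ℝ) := by
    rw [Real.rpow_zero, mul_one] at e3
    have h5 : (Q : ℝ) ^ (-(5 / 2) : ℝ) = (Q:ℝ) ^ (1 / 2 : ℝ) / (Q:ℝ) ^ 3 := by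
      rw [eq_div_iff (by positivity), ← Real.rpow_natCast, ← Real.rpow_add hQ']
      norm_num
    rw [h5, ← mul_div_assoc]
    apply div_le_div_of_nonneg_right _ (by positivity)
    linarith
  have t2 : (1 / Y) * (2 * √((60 * X : ℕ) : ℝ) * Real.log ((60 * X : ℕ) : ℝ)) ≤
      (1 / 2) * (Q : ℝ) ^ (-(5 / 2) : ℝ) := by
    have h5 : 1 / Y ≤ 2 * Q ^ 2 / X := by
      rw [div_le_div_iff₀ hY' hX']; linarith
    have h6 : √((60 * X : ℕ) : ℝ) ≤ 8 * √(X:ℝ) := by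
      rw [Real.sqrt_le_left (by positivity), mul_pow, Real.sq_sqrt hX'.le]
      push_cast
      linarith
    have h7 : Real.log ((60 * X : ℕ) : ℝ) ≤ 2 * Real.log X := by
      push_cast
      rw [Real.log_mul (by norm_num) hX'.ne']
      have := Real.log_le_log (by norm_num : (0:ℝ) < 60) (by linarith : (60:ℝ) ≤ X)
      linarith
    have h8 : 0 ≤ Real.log ((60 * X : ℕ) : ℝ) := by positivity
    have h9 : √(X:ℝ) = (X:ℝ) ^ (1 / 2 : ℝ) := Real.sqrt_eq_rpow _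
    have h10 : (X:ℝ) = √(X:ℝ) * √(X:ℝ) := (Real.mul_self_sqrt hX'.le).symm
    have hs0 : 0 < √(X:ℝ) := Real.sqrt_pos.mpr hX'
    calc (1 / Y) * (2 * √((60 * X : ℕ) : ℝ) * Real.log ((60 * X : ℕ) : ℝ))
        ≤ (2 * Q ^ 2 / X) * (2 * (8 * √(X:ℝ)) * (2 * Q)) := by
          apply mul_le_mul h5 _ (by positivity) (by positivity)
          apply mul_le_mul _ _ h8 (by positivity)
          · linarith
          · linarith
      _ = 64 * Q ^ 3 / √(X:ℝ) := by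
          rw [div_mul_eq_mul_div, div_eq_div_iff hX'.ne' hs0.ne']
          calc 2 * (Q:ℝ) ^ 2 * (2 * (8 * √(X:ℝ)) * (2 * Q)) * √(X:ℝ)
              = 64 * (Q:ℝ) ^ 3 * (√(X:ℝ) * √(X:ℝ)) := by ring
            _ = 64 * (Q:ℝ) ^ 3 * (X:ℝ) := by rw [← h10]
      _ ≤ (1 / 2) * (Q : ℝ) ^ (-(5 / 2) : ℝ) := by
          rw [div_le_iff₀ hs0]
          rw [← h9] at e2
          have h11 : (Q:ℝ) ^ (-(5 / 2) : ℝ) * (Q:ℝ) ^ (11 / 2 : ℝ) = (Q:ℝ) ^ 3 := by
            rw [← Real.rpow_add hQ', ← Real.rpow_natCast]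
            norm_num
          have h12 : 0 < (Q:ℝ) ^ (-(5 / 2) : ℝ) := Real.rpow_pos_of_pos hQ' _
          have h13 := mul_le_mul_of_nonneg_left e2 h12.le
          nlinarith
  linarith

/-- PORT of `B_le` (the proof is the same with `BPS_regimeP`). -/
theorem B_leP : ∃ K : ℝ, 1 ≤ K ∧ ∀ Q X : ℕ, RegP K Q X → ∀ p : Σ r : ℕ, DirichletCharacter ℂ r,
    1 ≤ p.1 → ∀ m : ℤ, (X : ℤ) ≤ m → m ≤ 4 * X →
    ‖∑ n ∈ Icc 1 (60 * X), ((lp n * tent (X / Q ^ 2) (m - n) : ℝ) : ℂ) * p.2 (n : ZMod p.1)‖ ≤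
      (∫ t in (-(Q : ℝ) ^ 7)..((Q : ℝ) ^ 7), ‖FL X p t‖) + (Q : ℝ) ^ (-(5 / 2) : ℝ) := by
  obtain ⟨K, hK1, hK⟩ := BPS_regimeP
  refine ⟨K, hK1, fun Q X h p _ m hm1 hm2 => ?_⟩
  obtain ⟨hQ, hX, hY, hYX, hXY, hbd⟩ := hK Q X h
  have hQ' : (0:ℝ) < Q := by exact_mod_cast hQ
  have h1 := BPS_general hQ hX hY hYX hXY
    (fun n => (ArithmeticFunction.vonMangoldt n : ℂ) * p.2 (n : ZMod p.1)) (D := 600)
    (by norm_num) (BPS_sum_norm p) m hm1 hm2
  have h2 := BPS_replace (Y := X / Q ^ 2) hX (fun n => p.2 (n : ZMod p.1))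
    (fun n => DirichletCharacter.norm_le_one _ _) m
  have h3 := norm_le_norm_add_norm_sub' (∑ n ∈ Icc 1 (60 * X),
    ((lp n * tent (X / Q ^ 2) (m - n) : ℝ) : ℂ) * p.2 (n : ZMod p.1))
    (∑ n ∈ Icc 1 (60 * X), (ArithmeticFunction.vonMangoldt n : ℂ) * p.2 (n : ZMod p.1) *
      (tent (X / Q ^ 2) (m - n) : ℂ))
  have h4 : 11520 * 600 / (Q:ℝ) ^ 3 ≤ 11520 * 700 / (Q:ℝ) ^ 3 := by
    apply div_le_div_of_nonneg_right _ (by positivity)
    norm_num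
  have h5 : (∫ t in (-(Q : ℝ) ^ 7)..((Q : ℝ) ^ 7), ‖FL X p t‖) =
      ∫ t in (-(Q : ℝ) ^ 7)..((Q : ℝ) ^ 7),
        ‖FF X (fun n => (ArithmeticFunction.vonMangoldt n : ℂ) * p.2 (n : ZMod p.1)) t‖ := rfl
  rw [h5]
  linarith

/-- PORT of `B0_le`. -/
theorem B0_leP : ∃ K : ℝ, 1 ≤ K ∧ ∀ Q X : ℕ, RegP K Q X → ∀ m : ℤ, (X : ℤ) ≤ m → m ≤ 4 * X →
    |∑ n ∈ Icc 1 (60 * X), lp n * tent (X / Q ^ 2) (m - n) - 1| ≤
      (∫ t in (-(Q : ℝ) ^ 7)..((Q : ℝ) ^ 7), ‖FL X p0 t - F0 X t‖) +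
        (Q : ℝ) ^ (-(5 / 2) : ℝ) := by
  obtain ⟨K, hK1, hK⟩ := BPS_regimeP
  refine ⟨K, hK1, fun Q X h m hm1 hm2 => ?_⟩
  obtain ⟨hQ, hX, hY, hYX, hXY, hbd⟩ := hK Q X h
  have hQ' : (0:ℝ) < Q := by exact_mod_cast hQ
  have hone : ∀ n : ℕ, p0.2 (n : ZMod p0.1) = 1 := by
    intro n
    have : (n : ZMod 1) = 1 := Subsingleton.elim _ _
    change (1 : DirichletCharacter ℂ 1) (n : ZMod 1) = 1
    rw [this, map_one]
  have hsum : ∑ n ∈ Icc 1 (60 * X), ‖(ArithmeticFunction.vonMangoldt n : ℂ) - 1‖ ≤ 700 * X := by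
    calc ∑ n ∈ Icc 1 (60 * X), ‖(ArithmeticFunction.vonMangoldt n : ℂ) - 1‖
        ≤ ∑ n ∈ Icc 1 (60 * X), (ArithmeticFunction.vonMangoldt n + 1) := by
          apply Finset.sum_le_sum
          intro n _
          refine (norm_sub_le _ _).trans ?_
          rw [Complex.norm_real, Real.norm_of_nonneg ArithmeticFunction.vonMangoldt_nonneg,
            norm_one]
      _ = ∑ n ∈ Icc 1 (60 * X), ArithmeticFunction.vonMangoldt n + 60 * X := by
          rw [Finset.sum_add_distrib, Finset.sum_const, Nat.card_Icc]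
          simp
      _ ≤ 700 * X := by
          have := BPS_sum_vM (X := X)
          have : (0:ℝ) ≤ X := by positivity
          linarith
  have h1 := BPS_general hQ hX hY hYX hXY
    (fun n => (ArithmeticFunction.vonMangoldt n : ℂ) - 1) (D := 700)
    (by norm_num) hsum m hm1 hm2
  have h2 := BPS_replace (Y := X / Q ^ 2) hX (fun _ => 1) (fun n => by simp) m
  have hmass := BPS_mass (Y := X / Q ^ 2) hY hYX hm1 hm2
  have h3 : ((∑ n ∈ Icc 1 (60 * X), lp n * tent (X / Q ^ 2) (m - n) - 1 : ℝ) : ℂ) =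
      (∑ n ∈ Icc 1 (60 * X), ((lp n * tent (X / Q ^ 2) (m - n) : ℝ) : ℂ) * 1 -
        ∑ n ∈ Icc 1 (60 * X), (ArithmeticFunction.vonMangoldt n : ℂ) * 1 *
          (tent (X / Q ^ 2) (m - n) : ℂ)) +
      ∑ n ∈ Icc 1 (60 * X), ((ArithmeticFunction.vonMangoldt n : ℂ) - 1) *
          (tent (X / Q ^ 2) (m - n) : ℂ) := by
    rw [← hmass]
    push_cast
    simp only [mul_one, sub_mul, one_mul, Finset.sum_sub_distrib]
    ring
  have h4 : |∑ n ∈ Icc 1 (60 * X), lp n * tent (X / Q ^ 2) (m - n) - 1| =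
      ‖((∑ n ∈ Icc 1 (60 * X), lp n * tent (X / Q ^ 2) (m - n) - 1 : ℝ) : ℂ)‖ := by
    rw [Complex.norm_real, Real.norm_eq_abs]
  have h5 : (∫ t in (-(Q : ℝ) ^ 7)..((Q : ℝ) ^ 7), ‖FL X p0 t - F0 X t‖) =
      ∫ t in (-(Q : ℝ) ^ 7)..((Q : ℝ) ^ 7),
        ‖FF X (fun n => (ArithmeticFunction.vonMangoldt n : ℂ) - 1) t‖ := by
    congr 1
    ext t
    congr 1
    unfold FL F0 FF
    rw [← Finset.sum_sub_distrib]
    apply Finset.sum_congr rfl
    intro n _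
    simp only [hone]
    ring
  rw [h4, h5, h3]
  refine (norm_add_le _ _).trans ?_
  linarith

end Pool.Agent.Lib.H18Q
end

-- from Lib.H68T.CG2
section

/-!
# Chunk CG2: mean of the model `G` along a class, and the second moment of `dQ`
-/

open Finset

namespace Pool.Agent.Lib.H68T



theorem cg2_sum_inv (Q : ℕ) : ∑ e ∈ Icc 1 Q, 1 / (e : ℝ) ≤ 1 + Real.log Q := by
  have h := harmonic_le_one_add_log Q
  rw [harmonic_eq_sum_Icc] at h
  push_cast at h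
  simpa [one_div] using h

theorem cg2_sum_multiples (Q g : ℕ) (hg : 0 < g) :
    ∑ e ∈ Icc 1 Q, (if g ∣ e then 1 / (e : ℝ) else 0) ≤ 1 / (g : ℝ) * (1 + Real.log Q) := by
  rw [← sum_filter]
  have hsub : (Icc 1 Q).filter (fun e => g ∣ e) ⊆ (Icc 1 Q).image (fun k => g * k) := by
    intro e he
    rw [mem_filter, mem_Icc] at he
    obtain ⟨⟨h1, h2⟩, k, hk⟩ := he
    rw [mem_image]
    refine ⟨k, ?_, hk.symm⟩
    rw [mem_Icc]
    subst hk
    refine ⟨Nat.pos_of_mul_pos_left h1 |> fun h => ?_, ?_⟩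
    · rcases Nat.eq_zero_or_pos k with h0 | h0
      · subst h0
        omega
      · exact h0
    · exact (Nat.le_mul_of_pos_left k hg).trans h2
  have hinj : Set.InjOn (fun k : ℕ => g * k) (Icc 1 Q : Finset ℕ) := by
    intro x _ y _ hxy
    exact Nat.eq_of_mul_eq_mul_left hg hxy
  calc ∑ e ∈ (Icc 1 Q).filter (fun e => g ∣ e), 1 / (e : ℝ)
      ≤ ∑ e ∈ (Icc 1 Q).image (fun k => g * k), 1 / (e : ℝ) := by
        apply sum_le_sum_of_subset_of_nonneg hsub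
        intro i _ _
        positivity
    _ = ∑ k ∈ Icc 1 Q, 1 / ((g * k : ℕ) : ℝ) := sum_image hinj
    _ = 1 / (g : ℝ) * ∑ k ∈ Icc 1 Q, 1 / (k : ℝ) := by
        rw [mul_sum]
        apply sum_congr rfl
        intro k _
        push_cast
        rw [one_div_mul_one_div]
    _ ≤ _ := mul_le_mul_of_nonneg_left (cg2_sum_inv Q) (by positivity)

theorem cg2_gcd_sum (Q : ℕ) :
    ∑ e₁ ∈ Icc 1 Q, ∑ e₂ ∈ Icc 1 Q, ((Nat.gcd e₁ e₂ : ℝ) / ((e₁ : ℝ) * e₂)) ≤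
      (1 + Real.log Q) ^ 3 := by
  have hlog : 0 ≤ Real.log Q := by positivity
  have h1 : ∀ e₁ ∈ Icc 1 Q, ∀ e₂ ∈ Icc 1 Q, ((Nat.gcd e₁ e₂ : ℝ) / ((e₁ : ℝ) * e₂)) =
      ∑ g ∈ Icc 1 Q, (Nat.totient g : ℝ) * ((if g ∣ e₁ then 1 / (e₁ : ℝ) else 0) *
        (if g ∣ e₂ then 1 / (e₂ : ℝ) else 0)) := by
    intro e₁ he₁ e₂ he₂
    rw [mem_Icc] at he₁ he₂
    have h2 : ((Nat.gcd e₁ e₂ : ℕ) : ℝ) = ∑ g ∈ (Nat.gcd e₁ e₂).divisors, (Nat.totient g : ℝ) := by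
      have := congrArg (fun n : ℕ => (n : ℝ)) (Nat.sum_totient (Nat.gcd e₁ e₂)).symm
      push_cast at this
      exact_mod_cast this
    have h3 : (Nat.gcd e₁ e₂).divisors = (Icc 1 Q).filter (fun g => g ∣ e₁ ∧ g ∣ e₂) := by
      ext g
      simp only [Nat.mem_divisors, mem_filter, mem_Icc, Nat.dvd_gcd_iff]
      constructor
      · rintro ⟨⟨a, b⟩, -⟩
        exact ⟨⟨Nat.pos_of_dvd_of_pos a he₁.1, (Nat.le_of_dvd he₁.1 a).trans he₁.2⟩, a, b⟩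
      · rintro ⟨-, a, b⟩
        exact ⟨⟨a, b⟩, (Nat.gcd_pos_of_pos_left _ he₁.1).ne'⟩
    rw [h2, h3, sum_filter, sum_div]
    apply sum_congr rfl
    intro g _
    have hp₁ : (0 : ℝ) < e₁ := by exact_mod_cast he₁.1
    have hp₂ : (0 : ℝ) < e₂ := by exact_mod_cast he₂.1
    by_cases a : g ∣ e₁ <;> by_cases b : g ∣ e₂ <;> simp [a, b]
    field_simp
  have h4 : ∑ e₁ ∈ Icc 1 Q, ∑ e₂ ∈ Icc 1 Q, ((Nat.gcd e₁ e₂ : ℝ) / ((e₁ : ℝ) * e₂)) =
      ∑ g ∈ Icc 1 Q, (Nat.totient g : ℝ) *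
        ((∑ e ∈ Icc 1 Q, if g ∣ e then 1 / (e : ℝ) else 0) *
        (∑ e ∈ Icc 1 Q, if g ∣ e then 1 / (e : ℝ) else 0)) := by
    rw [sum_congr rfl (fun e₁ he₁ => sum_congr rfl (fun e₂ he₂ => h1 e₁ he₁ e₂ he₂))]
    rw [sum_congr rfl (fun e₁ _ => sum_comm), sum_comm]
    apply sum_congr rfl
    intro g _
    rw [sum_mul_sum, mul_sum]
    apply sum_congr rfl
    intro e₁ _
    rw [mul_sum]
  rw [h4]
  calc _ ≤ ∑ g ∈ Icc 1 Q, 1 / (g : ℝ) * (1 + Real.log Q) ^ 2 := by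
        apply sum_le_sum
        intro g hg
        rw [mem_Icc] at hg
        have hg0 : (0 : ℝ) < g := by exact_mod_cast hg.1
        have h5 := cg2_sum_multiples Q g hg.1
        have h6 : 0 ≤ ∑ e ∈ Icc 1 Q, (if g ∣ e then 1 / (e : ℝ) else 0) := by
          apply sum_nonneg
          intro e _
          positivity
        have h7 : (Nat.totient g : ℝ) ≤ g := by exact_mod_cast Nat.totient_le g
        calc _ ≤ (g : ℝ) * ((1 / (g : ℝ) * (1 + Real.log Q)) * (1 / (g : ℝ) * (1 + Real.log Q))) := by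
              gcongr
          _ = _ := by field_simp
    _ = (∑ g ∈ Icc 1 Q, 1 / (g : ℝ)) * (1 + Real.log Q) ^ 2 := by rw [sum_mul]
    _ ≤ (1 + Real.log Q) * (1 + Real.log Q) ^ 2 := by
        apply mul_le_mul_of_nonneg_right (cg2_sum_inv Q) (by positivity)
    _ = _ := by ring

/-- Second moment of `dQ` along a class: only divisors coprime to `W` occur, and for
`D = lcm(e₁, e₂)` coprime to `W` at most `M/D + 1` of the `c < M` have `D ∣ b + W (s + c)`;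
`∑_{e₁, e₂ ≤ Q} 1/lcm(e₁,e₂) = ∑ gcd/(e₁ e₂) ≤ ∑_{g ≤ Q} φ(g)/g² (1 + log Q)² ≤ (1 + log Q)³`. -/
theorem dQ_moment (Q M W b s : ℕ) (hW : 0 < W) (hb : Nat.Coprime b W) :
    ∑ c ∈ range M, (dQ Q ((b : ℤ) + W * (s + c : ℕ))) ^ 2 ≤
      M * (1 + Real.log Q) ^ 3 + (Q : ℝ) ^ 2 := by
  have hlog : 0 ≤ Real.log Q := by positivity
  have h1 : ∀ c ∈ range M, (dQ Q ((b : ℤ) + W * (s + c : ℕ))) ^ 2 =
      ∑ e₁ ∈ Icc 1 Q, ∑ e₂ ∈ Icc 1 Q, if (e₁ : ℤ) ∣ (b : ℤ) + W * (s + c : ℕ) ∧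
        (e₂ : ℤ) ∣ (b : ℤ) + W * (s + c : ℕ) then (1 : ℝ) else 0 := by
    intro c _
    unfold dQ
    rw [card_filter, sq]
    push_cast
    rw [sum_mul_sum]
    apply sum_congr rfl
    intro e₁ _
    apply sum_congr rfl
    intro e₂ _
    rw [ite_and]
    split_ifs <;> simp
  rw [sum_congr rfl h1, sum_comm]
  have h2 : ∀ e₁ ∈ Icc 1 Q, ∑ c ∈ range M, ∑ e₂ ∈ Icc 1 Q,
      (if (e₁ : ℤ) ∣ (b : ℤ) + W * (s + c : ℕ) ∧
        (e₂ : ℤ) ∣ (b : ℤ) + W * (s + c : ℕ) then (1 : ℝ) else 0) ≤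
      ∑ e₂ ∈ Icc 1 Q, ((M : ℝ) * ((Nat.gcd e₁ e₂ : ℝ) / ((e₁ : ℝ) * e₂)) + 1) := by
    intro e₁ he₁
    rw [sum_comm]
    apply sum_le_sum
    intro e₂ he₂
    rw [mem_Icc] at he₁ he₂
    have hp₁ : (0 : ℝ) < e₁ := by exact_mod_cast he₁.1
    have hp₂ : (0 : ℝ) < e₂ := by exact_mod_cast he₂.1
    have hnn : 0 ≤ (M : ℝ) * ((Nat.gcd e₁ e₂ : ℝ) / ((e₁ : ℝ) * e₂)) + 1 := by positivity
    have hcast : ∑ c ∈ range M, (if (e₁ : ℤ) ∣ (b : ℤ) + W * (s + c : ℕ) ∧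
        (e₂ : ℤ) ∣ (b : ℤ) + W * (s + c : ℕ) then (1 : ℝ) else 0) =
        ((((range M).filter (fun c : ℕ => (e₁ : ℤ) ∣ (b : ℤ) + W * (s + c : ℕ) ∧
        (e₂ : ℤ) ∣ (b : ℤ) + W * (s + c : ℕ))).card : ℕ) : ℝ) := by
      rw [card_filter]
      push_cast
      rfl
    rw [hcast]
    by_cases hcop : Nat.Coprime e₁ W ∧ Nat.Coprime e₂ W
    · have h3 := cg1_count e₁ e₂ W b s s M he₁.1 he₂.1 hcop.1 hcop.2
      rw [if_pos (by simp)] at h3
      have h4 := (abs_le.mp h3).2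
      have h5 : (M : ℝ) * ((Nat.gcd e₁ e₂ : ℝ) / ((e₁ : ℝ) * e₂)) =
          (M : ℝ) * (Nat.gcd e₁ e₂ : ℝ) / ((e₁ : ℝ) * e₂) := by ring
      rw [h5]
      linarith
    · have hempty : (range M).filter (fun c : ℕ => (e₁ : ℤ) ∣ (b : ℤ) + W * (s + c : ℕ) ∧
          (e₂ : ℤ) ∣ (b : ℤ) + W * (s + c : ℕ)) = ∅ := by
        rw [filter_eq_empty_iff]
        intro c _ hc
        apply hcop
        have hcc := cg1_class_coprime hb (s + c)
        exact ⟨Nat.isCoprime_iff_coprime.mp (hcc.of_isCoprime_of_dvd_left hc.1),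
          Nat.isCoprime_iff_coprime.mp (hcc.of_isCoprime_of_dvd_left hc.2)⟩
      rw [hempty]
      simpa using hnn
  refine le_trans (b := ∑ e₁ ∈ Icc 1 Q, ∑ e₂ ∈ Icc 1 Q,
    ((M : ℝ) * ((Nat.gcd e₁ e₂ : ℝ) / ((e₁ : ℝ) * e₂)) + 1)) ?_ ?_
  · exact sum_le_sum h2
  simp_rw [sum_add_distrib, ← mul_sum]
  have h6 : ∑ _e₁ ∈ Icc 1 Q, ∑ _e₂ ∈ Icc 1 Q, (1 : ℝ) = (Q : ℝ) ^ 2 := by
    simp [sq]
  rw [h6]
  have h7 : ∑ e₁ ∈ Icc 1 Q, ∑ e₂ ∈ Icc 1 Q, ((Nat.gcd e₁ e₂ : ℝ) / ((e₁ : ℝ) * e₂)) ≤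
      (1 + Real.log Q) ^ 3 := cg2_gcd_sum Q
  have h8 : (M : ℝ) * ∑ e₁ ∈ Icc 1 Q, ∑ e₂ ∈ Icc 1 Q, ((Nat.gcd e₁ e₂ : ℝ) / ((e₁ : ℝ) * e₂)) ≤
      M * (1 + Real.log Q) ^ 3 := mul_le_mul_of_nonneg_left h7 (by positivity)
  linarith


end Pool.Agent.Lib.H68T
end

-- from Lib.H68T.HDEC
section

/-!
# Chunk HDEC: splitting off the long smooth variables
-/

open Finset ArithmeticFunction

namespace Pool.Agent.Lib.H68T








/-- the weighted norm -/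
noncomputable def hdN (N : ℕ) (f : ArithmeticFunction ℝ) : ℝ := ∑ a ∈ Icc 1 N, |f a| / a
































end Pool.Agent.Lib.H68T
end

-- from Lib.H18Q.E2
section

/-!
# Project H18Q, chunk E2: few primes with `ψ(p) = 1`
-/

open Finset

namespace Pool.Agent.Lib.H18Q

open Pool.Agent.Lib.H68T

/-- `(∑_{m ≤ x} λ(m)/m) (∑_{x < p ≤ y, ψ(p) = 1} 2/p) ≤ ∑_{x < n ≤ x y} λ(n)/n`.

Proof. For `m ≤ x < p`, `p` prime, `ψ(p) = 1`: `p ∤ m`, `λ(m p) = 2 λ(m)` (`λ` is multiplicative;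
directly: the divisors of `m p` are `d`, `p d` for `d ∣ m`, and `ψ(p d) = ψ(d)`), `x < m p ≤ x y`,
and `(m, p) ↦ m p` is injective (`m p = m' p'`, `p ≠ p'` gives `p ∣ m' ≤ x < p`). `λ ≥ 0`
(`XRP_nonneg`, or `lam` lemmas in `H51D`). -/
theorem E2_product (r : ℕ) [NeZero r] (ψ : DirichletCharacter ℂ r) (h2 : ψ ^ 2 = 1) (x y : ℕ)
    (hx : 1 ≤ x) :
    (∑ m ∈ Icc 1 x, lam ψ m / m) *
      (∑ p ∈ (Ioc x y).filter (fun p : ℕ => p.Prime ∧ ψ (p : ZMod r) = 1), 2 / (p : ℝ)) ≤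
      ∑ n ∈ Ioc x (x * y), lam ψ n / n := by
  classical
  set P := (Ioc x y).filter (fun p : ℕ => p.Prime ∧ ψ (p : ZMod r) = 1) with hP
  have hPm : ∀ p ∈ P, x < p ∧ p ≤ y ∧ p.Prime ∧ ψ (p : ZMod r) = 1 := by
    intro p hp
    rw [hP, mem_filter, mem_Ioc] at hp
    exact ⟨hp.1.1, hp.1.2, hp.2.1, hp.2.2⟩
  have hval : ∀ q ∈ Icc 1 x ×ˢ P, lam ψ q.1 / q.1 * (2 / (q.2 : ℝ)) = lam ψ (q.1 * q.2) / ((q.1 * q.2 : ℕ) : ℝ) := by
    rintro ⟨m, p⟩ hq
    rw [mem_product, mem_Icc] at hq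
    obtain ⟨h1, h3, h4, h5⟩ := hPm p hq.2
    have hm1 := hq.1.1
    have hm2 := hq.1.2
    simp only at h1 h3 h4 h5 hm1 hm2 ⊢
    have hcop : m.Coprime p := by
      rw [Nat.coprime_comm, Nat.Prime.coprime_iff_not_dvd h4]
      intro hd
      have := Nat.le_of_dvd (by omega) hd
      omega
    have hlp : lam ψ p = 2 := by
      have := dha_lam_pp r ψ h2 p 1 h4
      rw [pow_one, sum_range_succ, sum_range_one, h5] at this
      rw [this]
      norm_num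
    have hmul : lam ψ (m * p) = lam ψ m * 2 := by
      rw [dha_lam ψ (m * p), (dha_lam_mult r ψ h2).map_mul_of_coprime hcop, ← dha_lam, ← dha_lam, hlp]
    rw [hmul]
    push_cast
    rw [mul_comm (m : ℝ) (p : ℝ)]
    have hm0 : (m : ℝ) ≠ 0 := by exact_mod_cast (by omega : m ≠ 0)
    have hp0 : (p : ℝ) ≠ 0 := by exact_mod_cast h4.ne_zero
    field_simp
  have hinj : Set.InjOn (fun q : ℕ × ℕ => q.1 * q.2) (Icc 1 x ×ˢ P : Finset (ℕ × ℕ)) := by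
    rintro ⟨m, p⟩ hq ⟨m', p'⟩ hq' h
    rw [mem_coe, mem_product, mem_Icc] at hq hq'
    obtain ⟨h1, h3, h4, h5⟩ := hPm p hq.2
    obtain ⟨h1', h3', h4', h5'⟩ := hPm p' hq'.2
    simp only at h h1 h1' hq hq' h4 h4'
    have hpp : p = p' := by
      have hd : p ∣ m' * p' := ⟨m, by rw [← h]; ring⟩
      rcases h4.dvd_mul.1 hd with h6 | h6
      · have := Nat.le_of_dvd (by omega) h6
        omega
      · exact (Nat.prime_dvd_prime_iff_eq h4 h4').1 h6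
    subst hpp
    have := Nat.eq_of_mul_eq_mul_right h4.pos h
    rw [this]
  rw [sum_mul_sum, ← sum_product', sum_congr rfl hval]
  have himg : ∑ q ∈ Icc 1 x ×ˢ P, lam ψ (q.1 * q.2) / ((q.1 * q.2 : ℕ) : ℝ) =
      ∑ n ∈ (Icc 1 x ×ˢ P).image (fun q : ℕ × ℕ => q.1 * q.2), lam ψ n / (n : ℝ) :=
    (sum_image (f := fun n : ℕ => lam ψ n / (n : ℝ)) hinj).symm
  rw [himg]
  refine sum_le_sum_of_subset_of_nonneg ?_ fun n _ _ => div_nonneg (lam_nonneg r ψ h2 n) (Nat.cast_nonneg _)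
  intro n hn
  rw [mem_image] at hn
  obtain ⟨⟨m, p⟩, hq, rfl⟩ := hn
  rw [mem_product, mem_Icc] at hq
  obtain ⟨h1, h3, h4, h5⟩ := hPm p hq.2
  simp only at h1 h3 hq ⊢
  rw [mem_Ioc]
  exact ⟨lt_of_lt_of_le h1 (Nat.le_mul_of_pos_left p (by omega)), Nat.mul_le_mul hq.1.2 h3⟩

/-- **Few primes with `ψ(p) = 1`.** Let `β` be a real zero of `L(s, ψ)`, `3/4 ≤ β < 1`,
`η = 1 - β`, `(4000 r)² ≤ x ≤ y`. Then
`∑_{x < p ≤ y, ψ(p) = 1} 1/p ≤ η (2 + log (x y)) + 10 r/√x`.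

Proof. `A = ∑_{m ≤ x} λ(m)/m ≥ 1` (term `m = 1`, `λ ≥ 0`), and `m^(-1) = m^(-β) m^(-η) ≥ m^(-β)
x^(-η)`, so by `E1_lower` `A ≥ x^(-η) ∑ λ(m) m^(-β) ≥ ‖L(1)‖/η - 2000 r x^(-1/2) ≥ ‖L(1)‖/η - 1/2`;
hence `A ≥ (2/3) ‖L(1)‖/η` (if `‖L(1)‖/η ≤ 3/2` from `A ≥ 1`, else from `t - 1/2 ≥ 2 t/3`). By
`E2_product` and `lam_tail` (`H51D/DHC`; `y N` there is `x`, `x y`):
`2 A ∑ 1/p ≤ ‖L(1)‖ (2 + log (x y)) + 20 r/√x`. Divide by `2 A ≥ 2`, `2 A ≥ (4/3) ‖L(1)‖/η`. -/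
theorem E2_primes (r : ℕ) [NeZero r] (ψ : DirichletCharacter ℂ r) (hψ : ψ ≠ 1) (h2 : ψ ^ 2 = 1)
    (β : ℝ) (hβ : 3 / 4 ≤ β) (hβ1 : β < 1) (h0 : ψ.LFunction (β : ℂ) = 0) (x y : ℕ)
    (hx : (4000 * r) ^ 2 ≤ x) (hxy : x ≤ y) :
    ∑ p ∈ (Ioc x y).filter (fun p : ℕ => p.Prime ∧ ψ (p : ZMod r) = 1), 1 / (p : ℝ) ≤
      (1 - β) * (2 + Real.log (x * y : ℕ)) + 10 * r / Real.sqrt x := by
  have hr1 : (1 : ℝ) ≤ r := by exact_mod_cast Nat.one_le_iff_ne_zero.2 (NeZero.ne r)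
  have hrn : 1 ≤ r := Nat.one_le_iff_ne_zero.2 (NeZero.ne r)
  have hx1 : 1 ≤ x := le_trans (Nat.one_le_pow _ _ (by omega)) hx
  have hxR : (0 : ℝ) < x := by exact_mod_cast hx1
  have hη : 0 < 1 - β := by linarith
  obtain ⟨η, hηd⟩ : ∃ η, η = 1 - β := ⟨_, rfl⟩
  obtain ⟨L1, hL1⟩ : ∃ L1, L1 = ‖ψ.LFunction 1‖ := ⟨_, rfl⟩
  have hL0 : 0 ≤ L1 := by rw [hL1]; exact norm_nonneg _
  obtain ⟨A, hA⟩ : ∃ A, A = ∑ m ∈ Icc 1 x, lam ψ m / m := ⟨_, rfl⟩
  obtain ⟨S, hS⟩ : ∃ S, S = ∑ p ∈ (Ioc x y).filter (fun p : ℕ => p.Prime ∧ ψ (p : ZMod r) = 1), 1 / (p : ℝ) := ⟨_, rfl⟩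
  have hS0 : 0 ≤ S := by
    rw [hS]
    exact sum_nonneg fun p _ => by positivity
  have h1 := E2_product r ψ h2 x y hx1
  have h2S : ∑ p ∈ (Ioc x y).filter (fun p : ℕ => p.Prime ∧ ψ (p : ZMod r) = 1), 2 / (p : ℝ) = 2 * S := by
    rw [hS, mul_sum]
    exact sum_congr rfl fun p _ => by ring
  rw [h2S, ← hA] at h1
  have hxy1 : x ≤ x * y := Nat.le_mul_of_pos_right x (by omega)
  have h3 := lam_tail r ψ hψ h2 x (x * y) hx1 hxy1
  rw [← hL1] at h3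
  have hA1 : 1 ≤ A := by
    have h4 : lam ψ 1 / ((1 : ℕ) : ℝ) ≤ A := by
      rw [hA]
      exact single_le_sum (f := fun m : ℕ => lam ψ m / (m : ℝ)) (fun m _ => div_nonneg (lam_nonneg r ψ h2 m) (Nat.cast_nonneg _))
        (mem_Icc.2 ⟨le_rfl, hx1⟩)
    have h5 : lam ψ 1 = 1 := by
      unfold lam
      simp
    rw [h5] at h4
    simpa using h4
  have hsq : 4000 * (r : ℝ) ≤ Real.sqrt x := by
    apply Real.le_sqrt_of_sq_le
    exact_mod_cast hx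
  have hAl : L1 / η - 1 / 2 ≤ A := by
    have h4 := E1_lower r ψ hψ h2 β hβ hβ1 h0 x hx1
    rw [← hL1, ← hηd] at h4
    have h5 : (x : ℝ) ^ (-η) * ∑ m ∈ Icc 1 x, lam ψ m * (m : ℝ) ^ (-β) ≤ A := by
      rw [hA, mul_sum]
      refine sum_le_sum fun m hm => ?_
      rw [mem_Icc] at hm
      have hm0 : (0 : ℝ) < m := by exact_mod_cast (by omega : 0 < m)
      have hmx : (m : ℝ) ≤ x := by exact_mod_cast hm.2
      have h6 : (x : ℝ) ^ (-η) ≤ (m : ℝ) ^ (-η) :=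
        Real.rpow_le_rpow_of_nonpos hm0 hmx (by rw [hηd]; linarith)
      have h7 : (m : ℝ) ^ (-η) * (m : ℝ) ^ (-β) = 1 / m := by
        rw [← Real.rpow_add hm0, hηd]
        have : -(1 - β) + -β = -1 := by ring
        rw [this, Real.rpow_neg_one, one_div]
      calc (x : ℝ) ^ (-η) * (lam ψ m * (m : ℝ) ^ (-β)) ≤ (m : ℝ) ^ (-η) * (lam ψ m * (m : ℝ) ^ (-β)) :=
            mul_le_mul_of_nonneg_right h6 (mul_nonneg (lam_nonneg r ψ h2 m) (Real.rpow_nonneg hm0.le _))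
        _ = lam ψ m * ((m : ℝ) ^ (-η) * (m : ℝ) ^ (-β)) := by ring
        _ = lam ψ m / m := by rw [h7]; ring
    have h6 := mul_le_mul_of_nonneg_left h4 (Real.rpow_nonneg hxR.le (-η))
    have h7 : (x : ℝ) ^ (-η) * (L1 * (x : ℝ) ^ η / η - 2000 * r * (x : ℝ) ^ (1 / 2 - β)) =
        L1 / η - 2000 * r / Real.sqrt x := by
      have e1 : (x : ℝ) ^ (-η) * (x : ℝ) ^ η = 1 := by
        rw [← Real.rpow_add hxR, neg_add_cancel, Real.rpow_zero]
      have e2 : (x : ℝ) ^ (-η) * (x : ℝ) ^ (1 / 2 - β) = 1 / Real.sqrt x := by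
        rw [← Real.rpow_add hxR, Real.sqrt_eq_rpow, one_div ((x : ℝ) ^ (1 / 2 : ℝ)), ← Real.rpow_neg hxR.le, hηd]
        congr 1
        ring
      calc (x : ℝ) ^ (-η) * (L1 * (x : ℝ) ^ η / η - 2000 * r * (x : ℝ) ^ (1 / 2 - β)) =
          L1 * ((x : ℝ) ^ (-η) * (x : ℝ) ^ η) / η - 2000 * r * ((x : ℝ) ^ (-η) * (x : ℝ) ^ (1 / 2 - β)) := by ring
        _ = _ := by rw [e1, e2]; ring
    rw [h7] at h6
    have h8 : 2000 * r / Real.sqrt x ≤ 1 / 2 := by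
      rw [div_le_iff₀ (by linarith)]
      linarith
    linarith
  have hη' : 0 < η := by rw [hηd]; exact hη
  have hLA : L1 ≤ 3 / 2 * η * A := by
    have h5 : L1 = L1 / η * η := by field_simp
    by_cases h6 : L1 / η ≤ 3 / 2
    · rw [h5]
      nlinarith
    · push Not at h6
      rw [h5]
      nlinarith
  obtain ⟨l, hl⟩ : ∃ l, l = Real.log ((x * y : ℕ) : ℝ) := ⟨_, rfl⟩
  rw [← hl] at h3 ⊢
  rw [← hS, ← hηd]
  have hl0 : 0 ≤ l := by
    rw [hl]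
    exact Real.log_natCast_nonneg _
  obtain ⟨z, hz⟩ : ∃ z, z = r / Real.sqrt x := ⟨_, rfl⟩
  have hz0 : 0 ≤ z := by
    rw [hz]
    positivity
  have e20 : 20 * r / Real.sqrt x = 20 * z := by rw [hz]; ring
  have e10 : 10 * r / Real.sqrt x = 10 * z := by rw [hz]; ring
  rw [e20] at h3
  rw [e10]
  have h9 : A * (2 * S) ≤ 3 / 2 * η * A * (2 + l) + 20 * z :=
    (h1.trans h3).trans (add_le_add (mul_le_mul_of_nonneg_right hLA (by linarith)) le_rfl)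
  have hA0 : 0 < A := by linarith
  by_contra hcon
  push Not at hcon
  have h10 : A * (2 * (η * (2 + l) + 10 * z)) < A * (2 * S) := by
    apply mul_lt_mul_of_pos_left _ hA0
    linarith
  have h11 : 20 * z ≤ A * (20 * z) := le_mul_of_one_le_left (by positivity) hA1
  have h12 : 0 ≤ η * A * (2 + l) := by positivity
  nlinarith

end Pool.Agent.Lib.H18Q
end
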