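import Pool.Agent.Lib.H1M.RV2.M002
import Pool.Agent.Lib.H1M.RV2.M003
import Pool.Agent.Lib.H1M.RV2.M007
import Pool.Agent.Lib.H1M.RV2.M009
import Pool.Agent.Lib.H1M.RV2.M011
import Pool.Agent.Lib.H1M.RV2.M013
import Pool.Agent.Lib.H1M.RV2.M018
import Pool.Agent.Lib.H1M.RV2.M025
import Pool.Agent.Lib.H1M.RV2.M026

/-! Merged copies (to shorten the build) of Lib.H21T.Z4A, Lib.H21T.Z4, Lib.H21T.Z5, Lib.H21T.Z6A, Lib.H21T.Z6, Lib.H21T.Main, Lib.H81A.SM, Lib.H81A.Final, Lib.H37T.A4, Lib.H44W.M1, Lib.H44W.M3, Lib.H44W.W2, Lib.H44W.M4, Lib.H44W.M5, Lib.H44W.M2, Lib.H44W.M7. -/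

-- from Lib.H21T.Z4A
section

/-!
# Chunk Z4A (M): the model on the minor arcs
-/

namespace Pool.Agent.Lib.H21T

open Finset Pool.Agent.SZW

/-- `m6` with `β = α`, `θ = 0`, `L = max 0 (..)` of `z2` (at most `log A2 - log A1 ≤ log 2 ≤ 1`), `ε = 24 / A1`, `B = u ^ 2` (`m1_g`, `z3_div`: `x + H ≤ u ^ 20003`; `1 + log Q ≤ 1 + log u ≤ u`),
and `m7` with `c = 1 / u ^ 9754` (`Q ≤ u ≤ u ^ 131`, `¬ Maj`): norm at most `H * u ^ 2 * 24 / u ^ 9999 + u * u * u ^ 9754 / 2 ≤ H / (4 u)`. -/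
theorem z4_model : ∃ U0 : ℝ, 1 ≤ U0 ∧ ∀ u : ℝ, U0 ≤ u → ∀ (Q A1 A2 B1 B2 x H : ℕ) (α : ℝ), 1 ≤ Q → (Q : ℝ) ≤ u → u ^ 9999 ≤ A1 →
    A1 ≤ B1 → A1 ≤ A2 → A2 ≤ 2 * A1 → B1 ≤ B2 → B2 ≤ 2 * B1 → ((A1 * B1 : ℕ) : ℝ) ≤ u ^ 20000 → A1 * B1 ≤ 2 * x → x ≤ 4 * (A1 * B1) →
    u ^ 9999 ≤ H → (H : ℝ) ≤ 3 * u ^ 9999 → ¬ Maj u α →
    ‖∑ m ∈ Ico x (x + H), (Mbox Q A1 A2 B1 B2 m : ℂ) * ee (α * m)‖ ≤ H / (4 * u) := by
  obtain ⟨U1, hU1, hdiv⟩ := z3_div
  refine ⟨max U1 200, le_max_of_le_left hU1, ?_⟩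
  intro u hu Q A1 A2 B1 B2 x H α hQ hQu hA1 hAB hA2 hA2' hB2 hB2' hN hx hx' hH hH' hMaj
  have huU : U1 ≤ u := (le_max_left _ _).trans hu
  have hu2 : (200 : ℝ) ≤ u := (le_max_right _ _).trans hu
  have hu1 : (1 : ℝ) ≤ u := by linarith
  have hu0 : (0 : ℝ) < u := by linarith
  have hpm : ∀ {a b : ℕ}, a ≤ b → u ^ a ≤ u ^ b := fun h => pow_le_pow_right₀ hu1 h
  have hA1r : (8 : ℝ) ≤ A1 := by
    have h1 : u ^ 1 ≤ u ^ 9999 := hpm (by norm_num)
    rw [pow_one] at h1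
    linarith
  have hA18 : 8 ≤ A1 := by exact_mod_cast hA1r
  have hH3 : H ≤ 3 * A1 := by
    have h1 : (H : ℝ) ≤ 3 * A1 := by linarith
    exact_mod_cast h1
  obtain ⟨L, hL⟩ : ∃ L : ℝ, L = max 0 (Real.log (min A2 (x / B1 + 1) : ℕ) -
    Real.log (max A1 (x / B2 + 1) : ℕ)) := ⟨_, rfl⟩
  have hL0 : 0 ≤ L := by
    rw [hL]
    exact le_max_left _ _
  have hL1 : L ≤ 1 := by
    rw [hL]
    refine max_le zero_le_one ?_
    have h1 : Real.log (min A2 (x / B1 + 1) : ℕ) ≤ Real.log A2 := by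
      refine Real.log_le_log ?_ ?_
      · have : 0 < min A2 (x / B1 + 1) := lt_min (by omega) (Nat.succ_pos _)
        exact_mod_cast this
      · exact_mod_cast min_le_left _ _
    have h2 : Real.log A1 ≤ Real.log (max A1 (x / B2 + 1) : ℕ) := by
      refine Real.log_le_log (by linarith) ?_
      exact_mod_cast le_max_left _ _
    have h3 : Real.log A2 ≤ Real.log 2 + Real.log A1 := by
      rw [← Real.log_mul two_ne_zero (by linarith : (A1 : ℝ) ≠ 0)]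
      refine Real.log_le_log ?_ ?_
      · have : 0 < A2 := by omega
        exact_mod_cast this
      · exact_mod_cast hA2'
    have h4 := Real.log_two_lt_d9
    linarith
  have hlogQ : 1 + Real.log Q ≤ u := by
    have h1 : Real.log Q ≤ Real.log u := Real.log_le_log (by exact_mod_cast hQ) hQu
    have h2 : Real.log u ≤ u - 1 := Real.log_le_sub_one_of_pos hu0
    linarith
  have hlogQ0 : 0 ≤ 1 + Real.log Q := by
    have : 0 ≤ Real.log Q := Real.log_nonneg (by exact_mod_cast hQ)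
    linarith
  have hxH : ((x + H : ℕ) : ℝ) ≤ u ^ 20003 := by
    have h1 : (x : ℝ) ≤ 4 * ((A1 * B1 : ℕ) : ℝ) := by exact_mod_cast hx'
    have h2 : u ^ 9999 ≤ u ^ 20000 := hpm (by norm_num)
    have h3 : (x : ℝ) + H ≤ 7 * u ^ 20000 := by linarith
    have h4 : (7 : ℝ) * u ^ 20000 ≤ u ^ 1 * u ^ 20000 := by
      refine mul_le_mul_of_nonneg_right ?_ (by positivity)
      rw [pow_one]
      linarith
    rw [← pow_add] at h4
    have h5 : u ^ (1 + 20000) ≤ u ^ 20003 := hpm (by norm_num)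
    push_cast
    linarith
  have hx1 : 1 ≤ x := by
    have h1 : 1 ≤ A1 * B1 := Nat.mul_pos (by omega) (by omega)
    omega
  have hgb : ∀ m, x ≤ m → m < x + H → |gQ Q m| ≤ u ^ 2 := by
    intro m h1 h2
    have hm0 : 1 ≤ m := by omega
    have h3 := hdiv u huU m hm0 (by
      have : (m : ℝ) ≤ ((x + H : ℕ) : ℝ) := by exact_mod_cast h2.le
      exact this.trans hxH)
    have h4 : (m.divisors.card : ℝ) ≤ u := by
      have h5 : (m.divisors.card : ℝ) ≤ (⌊u⌋₊ : ℝ) := by exact_mod_cast h3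
      exact h5.trans (Nat.floor_le hu0.le)
    refine (m1_g Q m hQ hm0).trans ?_
    rw [pow_two]
    exact mul_le_mul h4 hlogQ hlogQ0 hu0.le
  have hm6 := m6 x H α 0 L (24 / A1) (u ^ 2) (fun m => lbox A1 A2 B1 B2 m) (fun m => gQ Q m)
    (by rw [abs_of_nonneg hL0]; exact hL1) (by positivity) (by positivity)
    (fun m h1 h2 => by
      rw [hL]
      exact z2 A1 A2 B1 B2 x H m hA18 hAB hA2 hB2 hB2' hx hH3 h1 h2) hgb
  have hm7 := m7 x H Q α (1 / u ^ 9754) hQ (by positivity) (fun d hd1 hd2 => by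
    by_contra hcon
    rw [not_le] at hcon
    apply hMaj
    refine ⟨d, hd1, ?_, ?_⟩
    · have h1 : (d : ℝ) ≤ Q := by exact_mod_cast hd2
      have h2 : u ^ 1 ≤ u ^ 131 := hpm (by norm_num)
      rw [pow_one] at h2
      linarith
    · rw [lt_div_iff₀ (by positivity)] at hcon
      exact hcon.le)
  obtain ⟨Sg, hSg⟩ : ∃ Sg : ℂ, Sg = ∑ m ∈ Ico x (x + H), (gQ Q m : ℂ) * ee (α * m) := ⟨_, rfl⟩
  rw [← hSg] at hm6 hm7
  simp only [add_zero, abs_zero, mul_zero, zero_mul] at hm6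
  obtain ⟨Sm, hSm⟩ : ∃ Sm : ℂ, Sm = ∑ m ∈ Ico x (x + H),
    ((lbox A1 A2 B1 B2 m * gQ Q m : ℝ) : ℂ) * ee (α * m) := ⟨_, rfl⟩
  rw [← hSm] at hm6
  have hgoal : ∑ m ∈ Ico x (x + H), (Mbox Q A1 A2 B1 B2 m : ℂ) * ee (α * m) = Sm := by
    rw [hSm]
    rfl
  rw [hgoal]
  have hLS : ‖(L : ℂ) * ee 0 * Sg‖ ≤ u * u * u ^ 9754 / 2 := by
    rw [norm_mul, norm_mul, norm_ee, Complex.norm_real, Real.norm_eq_abs, abs_of_nonneg hL0, mul_one]
    have h1 : L * ‖Sg‖ ≤ 1 * ‖Sg‖ := mul_le_mul_of_nonneg_right hL1 (norm_nonneg _)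
    rw [one_mul] at h1
    refine h1.trans (hm7.trans ?_)
    have e : (Q : ℝ) * (1 + Real.log Q) / (2 * (1 / u ^ 9754)) =
        Q * (1 + Real.log Q) * (u ^ 9754 / 2) := by
      field_simp
    rw [e, mul_div_assoc]
    refine mul_le_mul_of_nonneg_right ?_ (by positivity)
    exact mul_le_mul hQu hlogQ hlogQ0 hu0.le
  have h1 : ‖Sm‖ ≤ ‖Sm - (L : ℂ) * ee 0 * Sg‖ + ‖(L : ℂ) * ee 0 * Sg‖ := by
    have := norm_add_le (Sm - (L : ℂ) * ee 0 * Sg) ((L : ℂ) * ee 0 * Sg)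
    rwa [sub_add_cancel] at this
  have hH0 : (0 : ℝ) ≤ H := Nat.cast_nonneg _
  have h2 : (H : ℝ) * u ^ 2 * (24 / A1) ≤ H / (8 * u) := by
    have h3 : u ^ 2 * (24 / A1) ≤ 1 / (8 * u) := by
      rw [mul_div_assoc', div_le_div_iff₀ (by linarith) (by positivity)]
      have h4 : u ^ 4 ≤ u ^ 9999 := hpm (by norm_num)
      have h5 : u ^ 2 * 24 * (8 * u) = 192 * u ^ 3 := by ring
      have h6 : 192 * u ^ 3 ≤ u * u ^ 3 := mul_le_mul_of_nonneg_right (by linarith) (by positivity)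
      have h7 : u * u ^ 3 = u ^ 4 := by ring
      rw [h5, one_mul]
      linarith
    calc (H : ℝ) * u ^ 2 * (24 / A1) = H * (u ^ 2 * (24 / A1)) := by ring
      _ ≤ H * (1 / (8 * u)) := mul_le_mul_of_nonneg_left h3 hH0
      _ = H / (8 * u) := by ring
  have h3 : u * u * u ^ 9754 / 2 ≤ H / (8 * u) := by
    rw [div_le_div_iff₀ (by norm_num) (by positivity)]
    have e : u * u * u ^ 9754 * (8 * u) = 8 * u ^ 9757 := by
      have e1 : u ^ 9757 = u ^ 9754 * u ^ 3 := (pow_add u 9754 3)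
      obtain ⟨E, hE⟩ : ∃ E, E = u ^ 9754 := ⟨_, rfl⟩
      rw [e1, ← hE]
      ring
    have h4 : 4 * u ^ 9757 ≤ u * u ^ 9757 := mul_le_mul_of_nonneg_right (by linarith) (by positivity)
    have h5 : u * u ^ 9757 = u ^ 9758 := by
      rw [mul_comm]
      exact (pow_succ u 9757).symm
    have h6 : u ^ 9758 ≤ u ^ 9999 := hpm (by norm_num)
    rw [e]
    linarith
  have h4 : (H : ℝ) / (4 * u) = H / (8 * u) + H / (8 * u) := by
    field_simp
    ring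
  rw [h4]
  linarith

end Pool.Agent.Lib.H21T
end

-- from Lib.H21T.Z4
section

/-!
# Chunk Z4 (M): minor arcs
-/

namespace Pool.Agent.Lib.H21T

open Finset Pool.Agent.SZW

/-- The final inequality. -/
theorem z4_fin {u h : ℝ} (hu : 64 ≤ u) (hh : 64 * u ≤ h) : h / (4 * u) + 32 + h / (8 * u) ≤ h / u := by
  have hu0 : 0 < u := by linarith
  have e : h / u - (h / (4 * u) + h / (8 * u)) = 5 / 8 * (h / u) := by
    field_simp
    ring
  have h1 : 64 ≤ h / u := by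
    rw [le_div_iff₀ hu0]
    exact hh
  linarith

/-- `2 (H / B + 1) (H / A + 1) ≤ 32` if `H ≤ 3 A ≤ 3 B`. -/
theorem z4_err {A B H : ℝ} (hA : 0 < A) (hAB : A ≤ B) (hH : H ≤ 3 * A) (h0 : 0 ≤ H) : 2 * ((H / B + 1) * (H / A + 1)) ≤ 32 := by
  have hB : 0 < B := lt_of_lt_of_le hA hAB
  have h1 : H / A ≤ 3 := by
    rw [div_le_iff₀ hA]
    exact hH
  have h2 : H / B ≤ 3 := by
    rw [div_le_iff₀ hB]
    linarith
  have h3 : 0 ≤ H / A := by positivity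
  have h4 : 0 ≤ H / B := by positivity
  nlinarith

/-- The position: if `x < A1 B1 / 2` then the interval is below `A1 B1`. -/
theorem z4_low {P A1 B1 x H : ℝ} (hP : 6 ≤ P) (hA : P ≤ A1) (hB : P ≤ B1) (hx : 2 * x < A1 * B1) (hH : H ≤ 3 * P) : x + H ≤ A1 * B1 := by
  have h1 : P * P ≤ A1 * B1 := mul_le_mul hA hB (by linarith) (by linarith)
  nlinarith

theorem z4_size {u P R A B : ℝ} (hu : 1 ≤ u) (hR : R = u ^ 2 * (P * P)) (hP : 0 < P) (hA : P ≤ A) (hAB : A * B ≤ R) : A * B ≤ u ^ 2 * A ^ 2 := by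
  have h1 : P * P ≤ A * A := mul_le_mul hA hA hP.le (by linarith)
  have h2 : u ^ 2 * (P * P) ≤ u ^ 2 * (A * A) := mul_le_mul_of_nonneg_left h1 (by positivity)
  calc A * B ≤ u ^ 2 * (P * P) := by rw [← hR]; exact hAB
    _ ≤ u ^ 2 * (A * A) := h2
    _ = u ^ 2 * A ^ 2 := by rw [pow_two A]

theorem z4_sqrt {Q A B : ℝ} (hA : 0 ≤ A) (hQ : 0 ≤ Q) (hAB : A ≤ B) (h : A * B ≤ Q * Q) : A ≤ Q := by
  by_contra hcon
  have h1 : Q < A := not_le.1 hcon
  have h2 : Q * Q < A * A := mul_self_lt_mul_self hQ h1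
  have h3 : A * A ≤ A * B := mul_le_mul_of_nonneg_left hAB hA
  linarith

/-- If `2 x < A1 B1` then `x + H ≤ A1 B1` (`A1 B1 ≥ u ^ 19998`) and everything vanishes (`z0_low`); if `x ≥ A2 B2` too (`z0_high`). Otherwise `x ≤ A2 B2 ≤ 4 A1 B1`,
`A1 ^ 2 ≤ A1 B1 ≤ 2 x`, `A1 ≤ u ^ 10000`, `x ≤ 4 u ^ 20000 ≤ 4 u ^ 2 A1 ^ 2`. `z1` (error at most `2 * 4 * 4`), `z3` with `A = A1` for the modified ends, `z4_model`. -/
theorem z4 : ∃ U0 : ℝ, 1 ≤ U0 ∧ ∀ u : ℝ, U0 ≤ u → ∀ (Q A1 A2 B1 B2 x H : ℕ) (α : ℝ), 1 ≤ Q → (Q : ℝ) ≤ u → u ^ 9999 ≤ A1 →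
    A1 ≤ B1 → A1 ≤ A2 → A2 ≤ 2 * A1 → B1 ≤ B2 → B2 ≤ 2 * B1 → ((A1 * B1 : ℕ) : ℝ) ≤ u ^ 20000 →
    u ^ 9999 ≤ H → (H : ℝ) ≤ 3 * u ^ 9999 → ¬ Maj u α →
    ‖∑ m ∈ Ico x (x + H), ((dbox A1 A2 B1 B2 m : ℂ) - (Mbox Q A1 A2 B1 B2 m : ℂ)) * ee (α * m)‖ ≤ H / u := by
  obtain ⟨Ua, _, ha⟩ := z4_model
  obtain ⟨Ub, _, hb⟩ := z3
  refine ⟨max (max Ua Ub) 64, le_max_of_le_right (by norm_num), ?_⟩
  intro u hu Q A1 A2 B1 B2 x H α hQ hQu hA hAB hA12 hA2 hB12 hB2 hABu hH1 hH2 hmaj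
  have hua : Ua ≤ u := ((le_max_left _ _).trans (le_max_left _ _)).trans hu
  have hub : Ub ≤ u := ((le_max_right _ _).trans (le_max_left _ _)).trans hu
  have hu64 : (64 : ℝ) ≤ u := (le_max_right _ _).trans hu
  have hu1 : (1 : ℝ) ≤ u := by linarith
  have hu0 : (0 : ℝ) < u := by linarith
  have hp1 : 64 * u ≤ u ^ 9999 := by
    have h1 : u ^ 2 ≤ u ^ 9999 := pow_le_pow_right₀ hu1 (by norm_num)
    have h2 : 64 * u ≤ u ^ 2 := by nlinarith
    exact h2.trans h1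
  have hp3 : u ^ 20000 = u ^ 2 * (u ^ 9999 * u ^ 9999) := by rw [← pow_add, ← pow_add]
  have hp4 : u ^ 20000 = u ^ 10000 * u ^ 10000 := by rw [← pow_add]
  have hP0 : 0 < u ^ 9999 := by positivity
  have hQ0 : 0 ≤ u ^ 10000 := by positivity
  have hP6 : 6 ≤ u ^ 9999 := by linarith
  have hABr : (A1 : ℝ) ≤ B1 := by exact_mod_cast hAB
  have hA0 : (0 : ℝ) < A1 := lt_of_lt_of_le hP0 hA
  have hA1n : 1 ≤ A1 := by
    have : 0 < A1 := by exact_mod_cast hA0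
    exact this
  have hB1n : 1 ≤ B1 := hA1n.trans hAB
  have hzero : (∀ m ∈ Ico x (x + H), dbox A1 A2 B1 B2 m = 0 ∧ lbox A1 A2 B1 B2 m = 0) →
      ‖∑ m ∈ Ico x (x + H), ((dbox A1 A2 B1 B2 m : ℂ) - (Mbox Q A1 A2 B1 B2 m : ℂ)) * ee (α * m)‖ ≤ H / u := by
    intro h
    have h1 : ∑ m ∈ Ico x (x + H), ((dbox A1 A2 B1 B2 m : ℂ) - (Mbox Q A1 A2 B1 B2 m : ℂ)) * ee (α * m) = 0 := by
      refine Finset.sum_eq_zero fun m hm => ?_
      obtain ⟨h2, h3⟩ := h m hm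
      unfold Mbox
      rw [h2, h3, zero_mul]
      push_cast
      ring
    rw [h1, norm_zero]
    positivity
  by_cases hlow : 2 * x < A1 * B1
  · refine hzero fun m hm => ?_
    rw [mem_Ico] at hm
    refine z0_low hA1n hB1n ?_
    have h1 : (x : ℝ) + H ≤ A1 * B1 := z4_low hP6 hA (hA.trans hABr) (by exact_mod_cast hlow) hH2
    have h2 : x + H ≤ A1 * B1 := by exact_mod_cast h1
    omega
  by_cases hhigh : A2 * B2 ≤ x
  · refine hzero fun m hm => ?_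
    rw [mem_Ico] at hm
    exact z0_high (hA1n.trans hA12) (hB1n.trans hB12) (hhigh.trans hm.1)
  have hx1 : A1 * B1 ≤ 2 * x := not_lt.1 hlow
  have hx2 : x ≤ 4 * (A1 * B1) := by
    have h1 : A2 * B2 ≤ (2 * A1) * (2 * B1) := Nat.mul_le_mul hA2 hB2
    have h2 : (2 * A1) * (2 * B1) = 4 * (A1 * B1) := by ring
    have h3 : x < A2 * B2 := not_le.1 hhigh
    omega
  have hxpos : 1 ≤ x := by
    have : 1 ≤ A1 * B1 := Nat.mul_pos hA1n hB1n
    omega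
  have hABu' : (A1 : ℝ) * B1 ≤ u ^ 20000 := by exact_mod_cast hABu
  have hAu : (A1 : ℝ) ≤ u ^ 10000 := z4_sqrt hA0.le hQ0 hABr (by rw [← hp4]; exact hABu')
  have hA2x : A1 ^ 2 ≤ 2 * x := by
    have h1 : A1 ^ 2 ≤ A1 * B1 := by
      rw [pow_two]
      exact Nat.mul_le_mul_left _ hAB
    exact h1.trans hx1
  have hx3 : (x : ℝ) ≤ 4 * u ^ 2 * (A1 : ℝ) ^ 2 := by
    have h1 : (x : ℝ) ≤ 4 * ((A1 : ℝ) * B1) := by exact_mod_cast hx2
    have h2 := z4_size hu1 hp3 hP0 hA hABu'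
    calc (x : ℝ) ≤ 4 * ((A1 : ℝ) * B1) := h1
      _ ≤ 4 * (u ^ 2 * (A1 : ℝ) ^ 2) := mul_le_mul_of_nonneg_left h2 (by norm_num)
      _ = 4 * u ^ 2 * (A1 : ℝ) ^ 2 := by rw [mul_assoc]
  have e1 := ha u hua Q A1 A2 B1 B2 x H α hQ hQu hA hAB hA12 hA2 hB12 hB2 hABu hx1 hx2 hH1 hH2 hmaj
  have e2 := hb u hub A1 (max A1 (x / B2 + 1)) (min A2 (x / B1 + 1)) x H α hA hAu (le_max_left _ _)
    ((min_le_left _ _).trans hA2) hA2x hx3 hH1 hH2 hmaj
  have e3 := z1 A1 A2 B1 B2 x H α hA1n hB1n hB12 hxpos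
  have e4 : 2 * (((H : ℝ) / B1 + 1) * ((H : ℝ) / A1 + 1)) ≤ 32 :=
    z4_err hA0 hABr (hH2.trans (by linarith)) (Nat.cast_nonneg H)
  have e5 := z4_fin hu64 (hp1.trans hH1)
  have e6 : ∑ m ∈ Ico x (x + H), ((dbox A1 A2 B1 B2 m : ℂ) - (Mbox Q A1 A2 B1 B2 m : ℂ)) * ee (α * m) =
      (∑ m ∈ Ico x (x + H), (dbox A1 A2 B1 B2 m : ℂ) * ee (α * m) -
        SR α (max A1 (x / B2 + 1)) (min A2 (x / B1 + 1)) x H) +
      SR α (max A1 (x / B2 + 1)) (min A2 (x / B1 + 1)) x H -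
      ∑ m ∈ Ico x (x + H), (Mbox Q A1 A2 B1 B2 m : ℂ) * ee (α * m) := by
    rw [sub_add_cancel, ← Finset.sum_sub_distrib]
    refine Finset.sum_congr rfl fun m _ => ?_
    ring
  rw [e6]
  refine (norm_sub_le _ _).trans ((add_le_add_left (norm_add_le _ _) _).trans ?_)
  linarith

end Pool.Agent.Lib.H21T
end

-- from Lib.H21T.Z5
section

/-!
# Chunk Z5 (M): major arcs for the pairs
-/

namespace Pool.Agent.Lib.H21T

open Finset Pool.Agent.SZW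

/-- If `A1 ≥ A2` both terms vanish. Otherwise `b11` with `z5_num` (`q ^ 2 u ^ 8753 ≤ u ^ 9015`) and `m6_SR` (`|Rg| ≤ τ H ≤ u H` by `s4_div` with `U = Ico x (x + H)` and `z3_div`; `2 π |θ| H ≤ 6 π u ^ (-14)`). -/
theorem z5 : ∃ U0 : ℝ, 1 ≤ U0 ∧ ∀ u : ℝ, U0 ≤ u → ∀ (A A1 A2 x H q : ℕ) (p : ℤ) (θ : ℝ), u ^ 9999 ≤ A → (A : ℝ) ≤ u ^ 10000 →
    A ≤ A1 → A2 ≤ 2 * A → A ^ 2 ≤ 2 * x → (x : ℝ) ≤ 4 * u ^ 2 * (A : ℝ) ^ 2 → u ^ 9740 ≤ H → (H : ℝ) ≤ 3 * u ^ 9740 →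
    1 ≤ q → (q : ℝ) ≤ u ^ 131 → IsCoprime p (q : ℤ) → |θ| * u ^ 9754 ≤ 1 → A2 ≠ 0 →
    ‖SR ((p : ℝ) / q + θ) A1 A2 x H -
      (((H : ℝ) / q * max 0 (Real.log A2 - Real.log A1) : ℝ) : ℂ) * ee (θ * x)‖ ≤ H / (8 * u) := by
  obtain ⟨U1, hU1, hn⟩ := z5_num
  obtain ⟨U2, hU2, hd⟩ := z3_div
  refine ⟨max (max U1 U2) 100, le_trans (by norm_num) (le_max_right _ _), ?_⟩
  intro u hu A A1 A2 x H q p θ hA1 hA2 h1 h2 h3 h4 h5 h6 hq hq2 hp hθ hne
  have hu1 : U1 ≤ u := le_trans (le_trans (le_max_left _ _) (le_max_left _ _)) hu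
  have hu2 : U2 ≤ u := le_trans (le_trans (le_max_right _ _) (le_max_left _ _)) hu
  have hu3 : (100 : ℝ) ≤ u := le_trans (le_max_right _ _) hu
  have hu0 : 0 < u := by linarith
  have hu4 : 1 ≤ u := by linarith
  rcases le_or_gt A2 A1 with hc | hc
  · have e1 : SR ((p : ℝ) / q + θ) A1 A2 x H = 0 := by
      unfold SR Rg
      rw [Ico_eq_empty (by omega)]
      simp
    have e2 : max 0 (Real.log A2 - Real.log A1) = 0 := by
      refine max_eq_left (sub_nonpos.2 (Real.log_le_log ?_ (by exact_mod_cast hc)))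
      exact_mod_cast Nat.pos_of_ne_zero hne
    rw [e1, e2, mul_zero, Complex.ofReal_zero, zero_mul, sub_zero, norm_zero]
    exact div_nonneg (Nat.cast_nonneg _) (by linarith)
  · have e2 : max 0 (Real.log A2 - Real.log A1) = Real.log A2 - Real.log A1 := by
      refine max_eq_right (sub_nonneg.2 (Real.log_le_log ?_ (by exact_mod_cast hc.le)))
      have : (0 : ℝ) < A := lt_of_lt_of_le (pow_pos hu0 9999) hA1
      have h7 : (A : ℝ) ≤ A1 := by exact_mod_cast h1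
      linarith
    have hApos : 0 < A := by
      have : (0 : ℝ) < A := lt_of_lt_of_le (pow_pos hu0 9999) hA1
      exact_mod_cast this
    have hA1pos : 1 ≤ A1 := by omega
    have hxpos : 1 ≤ x := by
      by_contra hx
      have hx0 : x = 0 := by omega
      rw [hx0, mul_zero] at h3
      have := pow_pos hApos 2
      omega
    obtain ⟨X, S, Λ, s0, hG, hHS, hs0, hB⟩ := hn u hu1 A x H hA1 hA2 h3 h4 h6
    have hqA : 2 * q ≤ A := by
      have h8 : (2 : ℝ) * q ≤ A := by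
        have h9 : u ^ 132 ≤ u ^ 9999 := pow_le_pow_right₀ hu4 (by norm_num)
        have h10 : u ^ 132 = u * u ^ 131 := by rw [← pow_succ']
        have h11 : 2 * u ^ 131 ≤ u * u ^ 131 := mul_le_mul_of_nonneg_right (by linarith) (pow_pos hu0 131).le
        linarith
      exact_mod_cast h8
    have hb := b11 hG h1 hc.le h2 hHS hq hqA hp hs0
    have hb2 : ‖SR ((p : ℝ) / q) A1 A2 x H - (((H : ℝ) / q * (Real.log A2 - Real.log A1) : ℝ) : ℂ)‖ ≤ u ^ 9015 := by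
      refine hb.trans ?_
      calc (q : ℝ) ^ 2 * (2 * A * (1 / (s0 : ℝ) + 12 / S) + 2 * A * S / Λ + 291 * X * s0 * S * Λ + 2 * H / A)
          ≤ (q : ℝ) ^ 2 * u ^ 8753 := mul_le_mul_of_nonneg_left hB (sq_nonneg _)
        _ ≤ (u ^ 131) ^ 2 * u ^ 8753 :=
            mul_le_mul_of_nonneg_right (pow_le_pow_left₀ (Nat.cast_nonneg _) hq2 2) (pow_pos hu0 8753).le
        _ = u ^ 9015 := by rw [← pow_mul, ← pow_add]
    have hcard : ((Rg A1 A2 x H).card : ℝ) ≤ u * H := by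
      have hτ : ∀ m : ℕ, 1 ≤ m → m < x + H → m.divisors.card ≤ ⌊u⌋₊ := by
        intro m hm1 hm2
        refine hd u hu2 m hm1 ?_
        have g1 : (m : ℝ) ≤ x + H := by exact_mod_cast hm2.le
        have g2 : (A : ℝ) ^ 2 ≤ u ^ 20000 := by
          calc (A : ℝ) ^ 2 ≤ (u ^ 10000) ^ 2 := pow_le_pow_left₀ (Nat.cast_nonneg _) hA2 2
            _ = u ^ 20000 := by rw [← pow_mul]
        have g3 : 4 * u ^ 2 * (A : ℝ) ^ 2 ≤ 4 * u ^ 2 * u ^ 20000 := mul_le_mul_of_nonneg_left g2 (by positivity)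
        have g4 : u ^ 2 * u ^ 20000 = u ^ 20002 := by rw [← pow_add]
        have g5 : u ^ 9740 ≤ u ^ 20002 := pow_le_pow_right₀ hu4 (by norm_num)
        have g6 : u ^ 20003 = u * u ^ 20002 := by rw [← pow_succ']
        have g7 : 7 * u ^ 20002 ≤ u * u ^ 20002 := mul_le_mul_of_nonneg_right (by linarith) (pow_pos hu0 20002).le
        have g8 : 4 * u ^ 2 * u ^ 20000 = 4 * u ^ 20002 := by rw [mul_assoc, g4]
        linarith
      have h12 := s4_div (A2 := A2) hA1pos hxpos hτ (Ico x (x + H))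
      have h13 : (Rg A1 A2 x H).filter (fun p => p.1 * p.2 ∈ Ico x (x + H)) = Rg A1 A2 x H := by
        refine filter_true_of_mem fun r hr => ?_
        obtain ⟨-, -, h14, h15⟩ := (mem_Rg hA1pos).1 hr
        exact mem_Ico.2 ⟨h14, h15⟩
      rw [h13, Nat.card_Ico, Nat.add_sub_cancel_left] at h12
      calc ((Rg A1 A2 x H).card : ℝ) ≤ ((⌊u⌋₊ * H : ℕ) : ℝ) := by exact_mod_cast h12
        _ = (⌊u⌋₊ : ℝ) * H := by push_cast; rfl
        _ ≤ u * H := mul_le_mul_of_nonneg_right (Nat.floor_le hu0.le) (Nat.cast_nonneg _)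
    have hm := m6_SR A1 A2 x H hA1pos ((p : ℝ) / q) θ
    have hH0 : (0 : ℝ) ≤ H := Nat.cast_nonneg _
    have hth : 2 * Real.pi * |θ| * H ≤ 1 / (16 * u ^ 2) := by
      have t1 : u ^ 9754 = u ^ 9740 * u ^ 14 := by rw [← pow_add]
      obtain ⟨y, hy⟩ : ∃ y : ℝ, y = |θ| * u ^ 9740 := ⟨_, rfl⟩
      have hy0 : 0 ≤ y := by
        rw [hy]
        exact mul_nonneg (abs_nonneg _) (pow_pos hu0 9740).le
      have t2 : y * u ^ 14 ≤ 1 := by
        rw [hy, mul_assoc, ← t1]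
        exact hθ
      have t3 : |θ| * H ≤ 3 * y := by
        rw [hy]
        calc |θ| * H ≤ |θ| * (3 * u ^ 9740) := mul_le_mul_of_nonneg_left h6 (abs_nonneg _)
          _ = _ := by ring
      have t4 : (320 : ℝ) * u ^ 2 ≤ u ^ 14 := by
        have t5 : u ^ 14 = u ^ 12 * u ^ 2 := by rw [← pow_add]
        have t6 : (320 : ℝ) ≤ u ^ 12 := by
          calc (320 : ℝ) ≤ 100 ^ 12 := by norm_num
            _ ≤ u ^ 12 := pow_le_pow_left₀ (by norm_num) hu3 12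
        rw [t5]
        exact mul_le_mul_of_nonneg_right t6 (by positivity)
      have t7 : Real.pi ≤ 3.15 := Real.pi_lt_d2.le
      have t8 : 0 < Real.pi := Real.pi_pos
      rw [le_div_iff₀ (by positivity)]
      have t9 : 2 * Real.pi * |θ| * H * (16 * u ^ 2) ≤ 2 * 3.15 * (3 * y) * (16 * u ^ 2) := by
        refine mul_le_mul_of_nonneg_right ?_ (by positivity)
        calc 2 * Real.pi * |θ| * H = 2 * Real.pi * (|θ| * H) := by ring
          _ ≤ 2 * 3.15 * (3 * y) := mul_le_mul (by linarith) t3 (mul_nonneg (abs_nonneg _) hH0) (by norm_num)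
      refine t9.trans ?_
      calc 2 * 3.15 * (3 * y) * (16 * u ^ 2) = y * (302.4 * u ^ 2) := by ring
        _ ≤ y * u ^ 14 := mul_le_mul_of_nonneg_left (by nlinarith [sq_nonneg u]) hy0
        _ ≤ 1 := t2
    have hm2 : ‖SR ((p : ℝ) / q + θ) A1 A2 x H - ee (θ * x) * SR ((p : ℝ) / q) A1 A2 x H‖ ≤ H / (16 * u) := by
      refine hm.trans ?_
      calc ((Rg A1 A2 x H).card : ℝ) * (2 * Real.pi * |θ| * H) ≤ (u * H) * (1 / (16 * u ^ 2)) :=
            mul_le_mul hcard hth (by positivity) (mul_nonneg hu0.le hH0)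
        _ = H / (16 * u) := by
            field_simp
    have hlast : u ^ 9015 ≤ H / (16 * u) := by
      rw [le_div_iff₀ (by positivity)]
      calc u ^ 9015 * (16 * u) = 16 * u ^ 9016 := by
            rw [show u ^ 9016 = u ^ 9015 * u from pow_succ u 9015]
            ring
        _ ≤ u * u ^ 9016 := mul_le_mul_of_nonneg_right (by linarith) (pow_pos hu0 9016).le
        _ = u ^ 9017 := by rw [← pow_succ']
        _ ≤ u ^ 9740 := pow_le_pow_right₀ hu4 (by norm_num)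
        _ ≤ H := h5
    rw [e2]
    have e3 : SR ((p : ℝ) / q + θ) A1 A2 x H - (((H : ℝ) / q * (Real.log A2 - Real.log A1) : ℝ) : ℂ) * ee (θ * x) =
        (SR ((p : ℝ) / q + θ) A1 A2 x H - ee (θ * x) * SR ((p : ℝ) / q) A1 A2 x H) +
        ee (θ * x) * (SR ((p : ℝ) / q) A1 A2 x H - (((H : ℝ) / q * (Real.log A2 - Real.log A1) : ℝ) : ℂ)) := by ring
    rw [e3]
    refine (norm_add_le _ _).trans ?_
    rw [norm_mul, norm_ee, one_mul]
    have e4 : (H : ℝ) / (8 * u) = H / (16 * u) + H / (16 * u) := by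
      rw [← add_div, div_eq_div_iff (by positivity) (by positivity)]
      ring
    rw [e4]
    exact add_le_add hm2 (hb2.trans hlast)

end Pool.Agent.Lib.H21T
end

-- from Lib.H21T.Z6A
section

/-!
# Chunk Z6A (M): the model on the major arcs
-/

namespace Pool.Agent.Lib.H21T

open Finset Pool.Agent.SZW

/-- `p0 = round (q0 α)` for the `q0` of `Maj`; divide `p0`, `q0` by their gcd; `θ = α - p / q = (q0 α - p0) / q0`. -/
theorem z6_maj {u α : ℝ} (hu : 1 ≤ u) (h : Maj u α) : ∃ (q : ℕ) (p : ℤ) (θ : ℝ), 1 ≤ q ∧ (q : ℝ) ≤ u ^ 131 ∧ IsCoprime p (q : ℤ) ∧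
    α = (p : ℝ) / q + θ ∧ |θ| * u ^ 9754 ≤ 1 := by
  obtain ⟨q0, hq1, hq2, hq3⟩ := h
  have hu0 : (0 : ℝ) < u := by linarith
  have hq0 : (0 : ℝ) < q0 := by exact_mod_cast hq1
  have hq0' : (1 : ℝ) ≤ q0 := by exact_mod_cast hq1
  set p0 : ℤ := round ((q0 : ℝ) * α) with hp0
  obtain ⟨g, p, q, hg, hcop, hpe, hqe⟩ : ∃ (g : ℕ) (p : ℤ) (q : ℕ), 1 ≤ g ∧ IsCoprime p (q : ℤ) ∧
      p0 = p * g ∧ q0 = q * g := by
    have hgpos : 0 < Int.gcd p0 (q0 : ℤ) := Int.gcd_pos_of_ne_zero_right _ (by omega)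
    obtain ⟨a, b, hab, ha, hb⟩ := Int.exists_gcd_one hgpos
    have hgZ : (0 : ℤ) < ((Int.gcd p0 (q0 : ℤ) : ℕ) : ℤ) := by exact_mod_cast hgpos
    have hb0 : 0 < b := by
      by_contra hcon
      have h1 : b * ((Int.gcd p0 (q0 : ℤ) : ℕ) : ℤ) ≤ 0 :=
        mul_nonpos_of_nonpos_of_nonneg (not_lt.1 hcon) hgZ.le
      have h2 : (0 : ℤ) < q0 := by omega
      rw [← hb] at h1
      omega
    obtain ⟨b', hb'⟩ := Int.eq_ofNat_of_zero_le hb0.le
    refine ⟨Int.gcd p0 (q0 : ℤ), a, b', hgpos, ?_, ha, ?_⟩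
    · rw [Int.isCoprime_iff_gcd_eq_one, ← hb']
      exact hab
    · rw [hb'] at hb
      exact_mod_cast hb
  have hqpos : 1 ≤ q := by
    rcases Nat.eq_zero_or_pos q with h0 | h0
    · rw [h0, zero_mul] at hqe
      omega
    · exact h0
  have hqR : (0 : ℝ) < q := by exact_mod_cast hqpos
  have hgR : (0 : ℝ) < g := by exact_mod_cast hg
  have hqeR : (q0 : ℝ) = q * g := by exact_mod_cast hqe
  have hpeR : (p0 : ℝ) = p * g := by exact_mod_cast hpe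
  refine ⟨q, p, α - (p : ℝ) / q, hqpos, ?_, hcop, by ring, ?_⟩
  · have h1 : (q : ℝ) ≤ q0 := by
      have h2 : q ≤ q0 := by
        rw [hqe]
        exact Nat.le_mul_of_pos_right _ hg
      exact_mod_cast h2
    linarith
  · have h1 : α - (p : ℝ) / q = ((q0 : ℝ) * α - p0) / q0 := by
      rw [hqeR, hpeR]
      field_simp
    have h2 : |α - (p : ℝ) / q| ≤ nn ((q0 : ℝ) * α) := by
      rw [h1, abs_div, abs_of_pos hq0]
      unfold nn
      rw [← hp0]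
      exact div_le_self (abs_nonneg _) hq0'
    exact (mul_le_mul_of_nonneg_right h2 (by positivity)).trans hq3

/-- `m6` with `β = p / q`, `L = max 0 (..)` of `z2`, `ε = 24 / A1`, `B = u ^ 2` (`m1_g`, `z3_div`: `x + H ≤ u ^ 20003`; `1 + log Q ≤ u`), then `m4`: error at most
`H * u ^ 2 (24 u ^ (-9999) + 6 π u ^ (-14)) + u * u * u ^ 131 ≤ H / (8 u)`. -/
theorem z6_model : ∃ U0 : ℝ, 1 ≤ U0 ∧ ∀ u : ℝ, U0 ≤ u → ∀ (Q A1 A2 B1 B2 x H q : ℕ) (p : ℤ) (θ : ℝ), 1 ≤ Q → (Q : ℝ) ≤ u → u ^ 9999 ≤ A1 →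
    A1 ≤ B1 → A1 ≤ A2 → A2 ≤ 2 * A1 → B1 ≤ B2 → B2 ≤ 2 * B1 → ((A1 * B1 : ℕ) : ℝ) ≤ u ^ 20000 → A1 * B1 ≤ 2 * x → x ≤ 4 * (A1 * B1) →
    u ^ 9740 ≤ H → (H : ℝ) ≤ 3 * u ^ 9740 → 1 ≤ q → (q : ℝ) ≤ u ^ 131 → IsCoprime p (q : ℤ) → |θ| * u ^ 9754 ≤ 1 →
    ‖∑ m ∈ Ico x (x + H), (Mbox Q A1 A2 B1 B2 m : ℂ) * ee (((p : ℝ) / q + θ) * m) -
      (((if q ≤ Q then (H : ℝ) / q else 0) *
        max 0 (Real.log (min A2 (x / B1 + 1) : ℕ) - Real.log (max A1 (x / B2 + 1) : ℕ)) : ℝ) : ℂ) * ee (θ * x)‖ ≤ H / (8 * u) := by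
  obtain ⟨U1, hU1, hdiv⟩ := z3_div
  refine ⟨max U1 16, le_trans hU1 (le_max_left _ _), ?_⟩
  intro u hu Q A1 A2 B1 B2 x H q p θ hQ hQu hA1 hAB hA2 hA2' hB2 hB2' hABu hx1 hx2 hH1 hH2 hq1 hq2
    hpq hθ
  have hu1 : U1 ≤ u := (le_max_left _ _).trans hu
  have hu16 : (16 : ℝ) ≤ u := (le_max_right _ _).trans hu
  have hu0 : (0 : ℝ) < u := by linarith
  have hone : (1 : ℝ) ≤ u := by linarith
  have hpw : ∀ {i j : ℕ}, i ≤ j → u ^ i ≤ u ^ j := fun hij => pow_le_pow_right₀ hone hij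
  have hpp : ∀ i : ℕ, (0 : ℝ) < u ^ i := fun i => pow_pos hu0 i
  have hA16 : (16 : ℝ) ≤ A1 := by
    have h1 : u ^ 1 ≤ u ^ 9999 := hpw (by norm_num)
    rw [pow_one] at h1
    linarith
  have hA8 : 8 ≤ A1 := by
    have h1 : (8 : ℝ) ≤ A1 := by linarith
    exact_mod_cast h1
  have hA0 : (0 : ℝ) < A1 := by linarith
  have hH3 : H ≤ 3 * A1 := by
    have h1 : u ^ 9740 ≤ u ^ 9999 := hpw (by norm_num)
    have h2 : (H : ℝ) ≤ 3 * A1 := by linarith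
    exact_mod_cast h2
  have hxpos : 1 ≤ x := by
    have h1 : 1 ≤ A1 * B1 := Nat.one_le_iff_ne_zero.mpr (by
      have : 0 < A1 * B1 := Nat.mul_pos (by omega) (by omega)
      omega)
    omega
  set L : ℝ := max 0 (Real.log (min A2 (x / B1 + 1) : ℕ) - Real.log (max A1 (x / B2 + 1) : ℕ))
    with hLdef
  have hL0 : 0 ≤ L := le_max_left _ _
  have hL1 : L ≤ 1 := by
    rw [hLdef]
    refine max_le (by norm_num) ?_
    have h1 : Real.log ((min A2 (x / B1 + 1) : ℕ) : ℝ) ≤ Real.log (2 * A1) := by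
      refine Real.log_le_log ?_ ?_
      · have h2 : 0 < min A2 (x / B1 + 1) := lt_min (by omega) (Nat.succ_pos _)
        exact_mod_cast h2
      · have h2 : min A2 (x / B1 + 1) ≤ 2 * A1 := (min_le_left _ _).trans hA2'
        exact_mod_cast h2
    have h3 : Real.log A1 ≤ Real.log ((max A1 (x / B2 + 1) : ℕ) : ℝ) := by
      refine Real.log_le_log hA0 ?_
      have h4 : A1 ≤ max A1 (x / B2 + 1) := le_max_left _ _
      exact_mod_cast h4
    have h5 : Real.log (2 * (A1 : ℝ)) = Real.log 2 + Real.log A1 :=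
      Real.log_mul (by norm_num) (by linarith)
    have h6 : Real.log 2 ≤ 1 := by
      have := Real.log_two_lt_d9
      linarith
    linarith
  have hLabs : |L| ≤ 1 := by rw [abs_of_nonneg hL0]; exact hL1
  have hlog : 1 + Real.log Q ≤ u := by
    have hQ0 : (0 : ℝ) < Q := by exact_mod_cast hQ
    have h1 := Real.log_le_sub_one_of_pos hQ0
    linarith
  have hlog0 : 0 ≤ 1 + Real.log Q := by
    have hQ1 : (1 : ℝ) ≤ Q := by exact_mod_cast hQ
    have := Real.log_nonneg hQ1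
    linarith
  have hl : ∀ m, x ≤ m → m < x + H → |lbox A1 A2 B1 B2 m - L| ≤ 24 / (A1 : ℝ) := fun m h1 h2 =>
    z2 A1 A2 B1 B2 x H m hA8 hAB hA2 hB2 hB2' hx1 hH3 h1 h2
  have hg : ∀ m, x ≤ m → m < x + H → |gQ Q m| ≤ u ^ 2 := by
    intro m h1 h2
    have hm1 : 1 ≤ m := by omega
    have h3 := m1_g Q m hQ hm1
    have h4 : (m : ℝ) ≤ u ^ 20003 := by
      have h5 : (m : ℝ) ≤ x + H := by exact_mod_cast h2.le
      have h6 : (x : ℝ) ≤ 4 * u ^ 20000 := by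
        have h7 : (x : ℝ) ≤ 4 * ((A1 * B1 : ℕ) : ℝ) := by exact_mod_cast hx2
        linarith
      have h8 : u ^ 9740 ≤ u ^ 20000 := hpw (by norm_num)
      have h9 : u ^ 20003 = u ^ 20000 * u ^ 3 := by rw [← pow_add]
      have h10 : (7 : ℝ) ≤ u ^ 3 := by
        have h11 : u ^ 1 ≤ u ^ 3 := hpw (by norm_num)
        rw [pow_one] at h11
        linarith
      have h12 : u ^ 20000 * 7 ≤ u ^ 20000 * u ^ 3 := mul_le_mul_of_nonneg_left h10 (hpp _).le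
      rw [h9]
      linarith
    have h5 := hdiv u hu1 m hm1 h4
    have h6 : (m.divisors.card : ℝ) ≤ u := by
      have h7 : (m.divisors.card : ℝ) ≤ ((⌊u⌋₊ : ℕ) : ℝ) := by exact_mod_cast h5
      exact h7.trans (Nat.floor_le hu0.le)
    calc |gQ Q m| ≤ m.divisors.card * (1 + Real.log Q) := h3
      _ ≤ u * u := mul_le_mul h6 hlog hlog0 hu0.le
      _ = u ^ 2 := by ring
  have hm6 := m6 x H ((p : ℝ) / q) θ L (24 / (A1 : ℝ)) (u ^ 2) (lbox A1 A2 B1 B2) (gQ Q) hLabs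
    (by positivity) (by positivity) hl hg
  have hm4 := m4 x H Q q p hQ hq1 hpq
  set S1 : ℂ := ∑ m ∈ Ico x (x + H), (Mbox Q A1 A2 B1 B2 m : ℂ) * ee (((p : ℝ) / q + θ) * m)
    with hS1
  set S2 : ℂ := ∑ m ∈ Ico x (x + H), (gQ Q m : ℂ) * ee ((p : ℝ) / q * m) with hS2
  set m0 : ℝ := if q ≤ Q then (H : ℝ) / q else 0 with hm0
  have hm6' : ‖S1 - (L : ℂ) * ee (θ * x) * S2‖ ≤
      H * u ^ 2 * (24 / (A1 : ℝ) + 2 * Real.pi * |θ| * H) := hm6
  have hsplit : S1 - ((m0 * L : ℝ) : ℂ) * ee (θ * x) =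
      (S1 - (L : ℂ) * ee (θ * x) * S2) + (L : ℂ) * ee (θ * x) * (S2 - (m0 : ℂ)) := by
    push_cast
    ring
  have hQ1 : (1 : ℝ) ≤ Q := by exact_mod_cast hQ
  have h133 : (Q : ℝ) * (1 + Real.log Q) * q ≤ u ^ 133 := by
    have h1 : (Q : ℝ) * (1 + Real.log Q) ≤ u * u := mul_le_mul hQu hlog hlog0 hu0.le
    calc (Q : ℝ) * (1 + Real.log Q) * q ≤ (u * u) * u ^ 131 :=
          mul_le_mul h1 hq2 (Nat.cast_nonneg _) (by positivity)
      _ = u ^ 133 := by ring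
  have hsec : ‖(L : ℂ) * ee (θ * x) * (S2 - (m0 : ℂ))‖ ≤ u ^ 133 := by
    rw [norm_mul, norm_mul, norm_ee, mul_one, Complex.norm_real, Real.norm_eq_abs]
    calc |L| * ‖S2 - (m0 : ℂ)‖ ≤ 1 * u ^ 133 :=
          mul_le_mul hLabs (hm4.trans h133) (norm_nonneg _) (by norm_num)
      _ = u ^ 133 := one_mul _
  have hA14 : 24 / (A1 : ℝ) ≤ 24 / u ^ 14 := by
    have h1 : u ^ 14 ≤ u ^ 9999 := hpw (by norm_num)
    exact div_le_div_of_nonneg_left (by norm_num) (hpp 14) (h1.trans hA1)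
  have hθH : |θ| * u ^ 9740 ≤ 1 / u ^ 14 := by
    rw [le_div_iff₀ (hpp 14), mul_assoc, ← pow_add]
    exact hθ
  have hπ : 2 * Real.pi * |θ| * H ≤ 20 / u ^ 14 := by
    have hpi : Real.pi ≤ 3.15 := Real.pi_lt_d2.le
    have h1 : |θ| * H ≤ 3 * (1 / u ^ 14) := by
      have h2 : |θ| * H ≤ |θ| * (3 * u ^ 9740) := mul_le_mul_of_nonneg_left hH2 (abs_nonneg _)
      have h3 : |θ| * (3 * u ^ 9740) = 3 * (|θ| * u ^ 9740) := by ring
      rw [h3] at h2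
      linarith
    have h0 : 0 ≤ |θ| * (H : ℝ) := by positivity
    have h4 : 0 ≤ 1 / u ^ 14 := by positivity
    calc 2 * Real.pi * |θ| * H = (2 * Real.pi) * (|θ| * H) := by ring
      _ ≤ 6.3 * (3 * (1 / u ^ 14)) := mul_le_mul (by linarith) h1 h0 (by norm_num)
      _ = 18.9 * (1 / u ^ 14) := by ring
      _ ≤ 20 * (1 / u ^ 14) := by
          exact mul_le_mul_of_nonneg_right (by norm_num) h4
      _ = 20 / u ^ 14 := by ring
  have hHpos : (0 : ℝ) < H := lt_of_lt_of_le (hpp 9740) hH1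
  have hfirst : (H : ℝ) * u ^ 2 * (24 / (A1 : ℝ) + 2 * Real.pi * |θ| * H) ≤ H / (16 * u) := by
    have h1 : 24 / (A1 : ℝ) + 2 * Real.pi * |θ| * H ≤ 44 / u ^ 14 := by
      have h2 : 24 / u ^ 14 + 20 / u ^ 14 = 44 / u ^ 14 := by ring
      linarith
    have h3 : (H : ℝ) * u ^ 2 * (24 / (A1 : ℝ) + 2 * Real.pi * |θ| * H) ≤
        H * u ^ 2 * (44 / u ^ 14) := mul_le_mul_of_nonneg_left h1 (by positivity)
    refine h3.trans ?_
    rw [div_eq_mul_one_div (H : ℝ) (16 * u), mul_assoc]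
    refine mul_le_mul_of_nonneg_left ?_ hHpos.le
    have h4 : u ^ 2 * (44 / u ^ 14) = 44 / u ^ 12 := by
      field_simp
    rw [h4, div_le_div_iff₀ (hpp 12) (by positivity)]
    have h5 : u ^ 12 = u * u ^ 11 := by ring
    have h6 : (704 : ℝ) ≤ u ^ 11 := by
      have h7 : (16 : ℝ) ^ 11 ≤ u ^ 11 := pow_le_pow_left₀ (by norm_num) hu16 11
      have h8 : (704 : ℝ) ≤ 16 ^ 11 := by norm_num
      linarith
    have h9 : u * 704 ≤ u * u ^ 11 := mul_le_mul_of_nonneg_left h6 hu0.le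
    rw [h5]
    linarith
  have hsecond : u ^ 133 ≤ H / (16 * u) := by
    rw [le_div_iff₀ (by positivity)]
    have h1 : u ^ 133 * (16 * u) = 16 * u ^ 134 := by ring
    have h2 : 16 * u ^ 134 ≤ u * u ^ 134 := mul_le_mul_of_nonneg_right hu16 (hpp 134).le
    have h3 : u * u ^ 134 = u ^ 135 := by ring
    have h4 : u ^ 135 ≤ u ^ 9740 := hpw (by norm_num)
    linarith
  rw [hsplit]
  refine (norm_add_le _ _).trans ?_
  have hfin : (H : ℝ) / (16 * u) + H / (16 * u) = H / (8 * u) := by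
    field_simp
    norm_num
  have h1 := hm6'.trans hfirst
  have h2 := hsec.trans hsecond
  linarith

end Pool.Agent.Lib.H21T
end

-- from Lib.H21T.Z6
section

/-!
# Chunk Z6 (M): major arcs
-/

namespace Pool.Agent.Lib.H21T

open Finset Pool.Agent.SZW

/-- The final inequality. -/
theorem z6_fin {u h : ℝ} (hu : 64 ≤ u) (hh : 64 * u ≤ h) : h / (8 * u) + 8 + h / (8 * u) ≤ h / u := by
  have hu0 : 0 < u := by linarith
  have e : h / u - (h / (8 * u) + h / (8 * u)) = 3 / 4 * (h / u) := by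
    field_simp
    ring
  have h1 : 64 ≤ h / u := by
    rw [le_div_iff₀ hu0]
    exact hh
  linarith

/-- `2 (H / B + 1) (H / A + 1) ≤ 8` if `H ≤ A ≤ B`. -/
theorem z6_err {A B H : ℝ} (hA : 0 < A) (hAB : A ≤ B) (hH : H ≤ A) (h0 : 0 ≤ H) : 2 * ((H / B + 1) * (H / A + 1)) ≤ 8 := by
  have hB : 0 < B := lt_of_lt_of_le hA hAB
  have h1 : H / A ≤ 1 := by
    rw [div_le_iff₀ hA]
    linarith
  have h2 : H / B ≤ 1 := by
    rw [div_le_iff₀ hB]
    linarith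
  have h3 : 0 ≤ H / A := by positivity
  have h4 : 0 ≤ H / B := by positivity
  nlinarith

/-- The position: if `x < A1 B1 / 2` then the interval is below `A1 B1`. -/
theorem z6_low {P A1 B1 x H : ℝ} (hP : 6 ≤ P) (hA : P ≤ A1) (hB : P ≤ B1) (hx : 2 * x < A1 * B1) (hH : H ≤ 3 * P) : x + H ≤ A1 * B1 := by
  have h1 : P * P ≤ A1 * B1 := mul_le_mul hA hB (by linarith) (by linarith)
  nlinarith

theorem z6_size {u P R A B : ℝ} (hu : 1 ≤ u) (hR : R = u ^ 2 * (P * P)) (hP : 0 < P) (hA : P ≤ A) (hAB : A * B ≤ R) : A * B ≤ u ^ 2 * A ^ 2 := by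
  have h1 : P * P ≤ A * A := mul_le_mul hA hA hP.le (by linarith)
  have h2 : u ^ 2 * (P * P) ≤ u ^ 2 * (A * A) := mul_le_mul_of_nonneg_left h1 (by positivity)
  calc A * B ≤ u ^ 2 * (P * P) := by rw [← hR]; exact hAB
    _ ≤ u ^ 2 * (A * A) := h2
    _ = u ^ 2 * A ^ 2 := by rw [pow_two A]

theorem z6_sqrt {Q A B : ℝ} (hA : 0 ≤ A) (hQ : 0 ≤ Q) (hAB : A ≤ B) (h : A * B ≤ Q * Q) : A ≤ Q := by
  by_contra hcon
  have h1 : Q < A := not_le.1 hcon
  have h2 : Q * Q < A * A := mul_self_lt_mul_self hQ h1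
  have h3 : A * A ≤ A * B := mul_le_mul_of_nonneg_left hAB hA
  linarith

/-- The logarithmic length is at most 1. -/
theorem z6_len {A1 A2 a b : ℕ} (hA : 1 ≤ A1) (h2 : A2 ≤ 2 * A1) (ha : A1 ≤ a) (hb : b ≤ A2) (hb0 : 1 ≤ b) :
    max 0 (Real.log (b : ℕ) - Real.log (a : ℕ)) ≤ 1 := by
  have hA' : (0 : ℝ) < A1 := by exact_mod_cast hA
  have hb' : (0 : ℝ) < b := by exact_mod_cast hb0
  have h1 : Real.log (b : ℕ) ≤ Real.log (2 * A1) := by
    refine Real.log_le_log hb' ?_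
    exact_mod_cast hb.trans h2
  have h3 : Real.log (A1 : ℕ) ≤ Real.log (a : ℕ) := by
    refine Real.log_le_log hA' ?_
    exact_mod_cast ha
  have h4 : Real.log (2 * A1) = Real.log 2 + Real.log A1 := Real.log_mul (by norm_num) hA'.ne'
  have h5 : Real.log 2 ≤ 1 := by
    have := Real.log_two_lt_d9
    linarith
  exact max_le zero_le_one (by linarith)

/-- If `2 x < A1 B1` then `x + H ≤ A1 B1` and everything vanishes (`z0_low`); if `x ≥ A2 B2` too (`z0_high`). Otherwise `z6_maj`, `z1` (error at most `2 * 2 * 2`), `z5` with `A = A1` and the modified ends (`A1 ^ 2 ≤ 2 x`,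
`A1 ≤ u ^ 10000`, `x ≤ 4 A1 B1 ≤ 4 u ^ 2 A1 ^ 2`), `z6_model`; the two main terms agree for `q ≤ Q`, and for `q > Q` the main term of `z5` is at most `H / q ≤ H / Q` (`max 0 (..) ≤ log 2 ≤ 1`). -/
theorem z6 : ∃ U0 : ℝ, 1 ≤ U0 ∧ ∀ u : ℝ, U0 ≤ u → ∀ (Q A1 A2 B1 B2 x H : ℕ) (α : ℝ), 1 ≤ Q → (Q : ℝ) ≤ u → u ^ 9999 ≤ A1 →
    A1 ≤ B1 → A1 ≤ A2 → A2 ≤ 2 * A1 → B1 ≤ B2 → B2 ≤ 2 * B1 → ((A1 * B1 : ℕ) : ℝ) ≤ u ^ 20000 →
    u ^ 9740 ≤ H → (H : ℝ) ≤ 3 * u ^ 9740 → Maj u α →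
    ‖∑ m ∈ Ico x (x + H), ((dbox A1 A2 B1 B2 m : ℂ) - (Mbox Q A1 A2 B1 B2 m : ℂ)) * ee (α * m)‖ ≤ H * (1 / Q + 1 / u) := by
  obtain ⟨Ua, _, ha⟩ := z6_model
  obtain ⟨Ub, _, hb⟩ := z5
  refine ⟨max (max Ua Ub) 64, le_max_of_le_right (by norm_num), ?_⟩
  intro u hu Q A1 A2 B1 B2 x H α hQ hQu hA hAB hA12 hA2 hB12 hB2 hABu hH1 hH2 hmaj
  have hua : Ua ≤ u := ((le_max_left _ _).trans (le_max_left _ _)).trans hu
  have hub : Ub ≤ u := ((le_max_right _ _).trans (le_max_left _ _)).trans hu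
  have hu64 : (64 : ℝ) ≤ u := (le_max_right _ _).trans hu
  have hu1 : (1 : ℝ) ≤ u := by linarith
  have hu0 : (0 : ℝ) < u := by linarith
  obtain ⟨q, p, θ, hq1, hq2, hcop, hα, hθ⟩ := z6_maj hu1 hmaj
  have hp1 : 64 * u ≤ u ^ 9740 := by
    have h1 : u ^ 2 ≤ u ^ 9740 := pow_le_pow_right₀ hu1 (by norm_num)
    have h2 : 64 * u ≤ u ^ 2 := by nlinarith
    exact h2.trans h1
  have hp2 : 3 * u ^ 9740 ≤ u ^ 9999 := by
    have h1 : u ^ 9741 ≤ u ^ 9999 := pow_le_pow_right₀ hu1 (by norm_num)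
    have h2 : u ^ 9741 = u * u ^ 9740 := pow_succ' u 9740
    have h3 : 3 * u ^ 9740 ≤ u * u ^ 9740 := mul_le_mul_of_nonneg_right (by linarith) (by positivity)
    rw [← h2] at h3
    exact h3.trans h1
  have hp3 : u ^ 20000 = u ^ 2 * (u ^ 9999 * u ^ 9999) := by rw [← pow_add, ← pow_add]
  have hp4 : u ^ 20000 = u ^ 10000 * u ^ 10000 := by rw [← pow_add]
  have hP0 : 0 < u ^ 9999 := by positivity
  have hQ0 : 0 ≤ u ^ 10000 := by positivity
  have hP6 : 6 ≤ u ^ 9999 := by linarith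
  have hABr : (A1 : ℝ) ≤ B1 := by exact_mod_cast hAB
  have hA0 : (0 : ℝ) < A1 := lt_of_lt_of_le hP0 hA
  have hA1n : 1 ≤ A1 := by
    have : 0 < A1 := by exact_mod_cast hA0
    exact this
  have hB1n : 1 ≤ B1 := hA1n.trans hAB
  have hHA : (H : ℝ) ≤ A1 := (hH2.trans hp2).trans hA
  have hzero : (∀ m ∈ Ico x (x + H), dbox A1 A2 B1 B2 m = 0 ∧ lbox A1 A2 B1 B2 m = 0) →
      ‖∑ m ∈ Ico x (x + H), ((dbox A1 A2 B1 B2 m : ℂ) - (Mbox Q A1 A2 B1 B2 m : ℂ)) * ee (α * m)‖ ≤ H * (1 / Q + 1 / u) := by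
    intro h
    have h1 : ∑ m ∈ Ico x (x + H), ((dbox A1 A2 B1 B2 m : ℂ) - (Mbox Q A1 A2 B1 B2 m : ℂ)) * ee (α * m) = 0 := by
      refine Finset.sum_eq_zero fun m hm => ?_
      obtain ⟨h2, h3⟩ := h m hm
      unfold Mbox
      rw [h2, h3, zero_mul]
      push_cast
      ring
    rw [h1, norm_zero]
    positivity
  by_cases hlow : 2 * x < A1 * B1
  · refine hzero fun m hm => ?_
    rw [mem_Ico] at hm
    refine z0_low hA1n hB1n ?_
    have h1 : (x : ℝ) + H ≤ A1 * B1 :=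
      z6_low hP6 hA (hA.trans hABr) (by exact_mod_cast hlow) (by linarith)
    have h2 : x + H ≤ A1 * B1 := by exact_mod_cast h1
    omega
  by_cases hhigh : A2 * B2 ≤ x
  · refine hzero fun m hm => ?_
    rw [mem_Ico] at hm
    exact z0_high (hA1n.trans hA12) (hB1n.trans hB12) (hhigh.trans hm.1)
  have hx1 : A1 * B1 ≤ 2 * x := not_lt.1 hlow
  have hx2 : x ≤ 4 * (A1 * B1) := by
    have h1 : A2 * B2 ≤ (2 * A1) * (2 * B1) := Nat.mul_le_mul hA2 hB2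
    have h2 : (2 * A1) * (2 * B1) = 4 * (A1 * B1) := by ring
    have h3 : x < A2 * B2 := not_le.1 hhigh
    omega
  have hxpos : 1 ≤ x := by
    have : 1 ≤ A1 * B1 := Nat.mul_pos hA1n hB1n
    omega
  have hABu' : (A1 : ℝ) * B1 ≤ u ^ 20000 := by exact_mod_cast hABu
  have hAu : (A1 : ℝ) ≤ u ^ 10000 := z6_sqrt hA0.le hQ0 hABr (by rw [← hp4]; exact hABu')
  have hA2x : A1 ^ 2 ≤ 2 * x := by
    have h1 : A1 ^ 2 ≤ A1 * B1 := by
      rw [pow_two]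
      exact Nat.mul_le_mul_left _ hAB
    exact h1.trans hx1
  have hx3 : (x : ℝ) ≤ 4 * u ^ 2 * (A1 : ℝ) ^ 2 := by
    have h1 : (x : ℝ) ≤ 4 * ((A1 : ℝ) * B1) := by exact_mod_cast hx2
    have h2 := z6_size hu1 hp3 hP0 hA hABu'
    calc (x : ℝ) ≤ 4 * ((A1 : ℝ) * B1) := h1
      _ ≤ 4 * (u ^ 2 * (A1 : ℝ) ^ 2) := mul_le_mul_of_nonneg_left h2 (by norm_num)
      _ = 4 * u ^ 2 * (A1 : ℝ) ^ 2 := by rw [mul_assoc]
  subst hα
  have e1 := ha u hua Q A1 A2 B1 B2 x H q p θ hQ hQu hA hAB hA12 hA2 hB12 hB2 hABu hx1 hx2 hH1 hH2 hq1 hq2 hcop hθ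
  have hmin : min A2 (x / B1 + 1) ≠ 0 :=
    Nat.one_le_iff_ne_zero.1 (le_min (hA1n.trans hA12) (Nat.le_add_left 1 (x / B1)))
  have e2 := hb u hub A1 (max A1 (x / B2 + 1)) (min A2 (x / B1 + 1)) x H q p θ hA hAu (le_max_left _ _)
    ((min_le_left _ _).trans hA2) hA2x hx3 hH1 hH2 hq1 hq2 hcop hθ hmin
  have e3 := z1 A1 A2 B1 B2 x H ((p : ℝ) / q + θ) hA1n hB1n hB12 hxpos
  have e4 : 2 * (((H : ℝ) / B1 + 1) * ((H : ℝ) / A1 + 1)) ≤ 8 := z6_err hA0 hABr hHA (Nat.cast_nonneg H)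
  have e5 := z6_fin hu64 (hp1.trans hH1)
  have elen := z6_len hA1n hA2 (le_max_left A1 (x / B2 + 1)) (min_le_left A2 (x / B1 + 1)) (Nat.one_le_iff_ne_zero.2 hmin)
  set lgt : ℝ := max 0 (Real.log (min A2 (x / B1 + 1) : ℕ) - Real.log (max A1 (x / B2 + 1) : ℕ)) with hlgt
  have hl0 : 0 ≤ lgt := le_max_left _ _
  have hqr : (0 : ℝ) < q := by exact_mod_cast hq1
  have hQr : (0 : ℝ) < Q := by exact_mod_cast hQ
  have e7 : ‖(((H : ℝ) / q * lgt : ℝ) : ℂ) * ee (θ * x) -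
      (((if q ≤ Q then (H : ℝ) / q else 0) * lgt : ℝ) : ℂ) * ee (θ * x)‖ ≤ H / Q := by
    rw [← sub_mul, norm_mul, norm_ee, mul_one, ← Complex.ofReal_sub, Complex.norm_real, Real.norm_eq_abs]
    by_cases hqQ : q ≤ Q
    · rw [if_pos hqQ, sub_self, abs_zero]
      positivity
    · rw [if_neg hqQ, zero_mul, sub_zero, abs_of_nonneg (by positivity)]
      have hQq : (Q : ℝ) ≤ q := by exact_mod_cast (not_le.1 hqQ).le
      have h1 : (H : ℝ) / q ≤ H / Q := div_le_div_of_nonneg_left (Nat.cast_nonneg H) hQr hQq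
      have h2 : (H : ℝ) / q * lgt ≤ H / q * 1 := mul_le_mul_of_nonneg_left elen (by positivity)
      linarith
  have e6 : ∑ m ∈ Ico x (x + H), ((dbox A1 A2 B1 B2 m : ℂ) - (Mbox Q A1 A2 B1 B2 m : ℂ)) * ee (((p : ℝ) / q + θ) * m) =
      (∑ m ∈ Ico x (x + H), (dbox A1 A2 B1 B2 m : ℂ) * ee (((p : ℝ) / q + θ) * m) -
        SR ((p : ℝ) / q + θ) (max A1 (x / B2 + 1)) (min A2 (x / B1 + 1)) x H) +
      (SR ((p : ℝ) / q + θ) (max A1 (x / B2 + 1)) (min A2 (x / B1 + 1)) x H -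
        (((H : ℝ) / q * lgt : ℝ) : ℂ) * ee (θ * x)) +
      ((((H : ℝ) / q * lgt : ℝ) : ℂ) * ee (θ * x) -
        (((if q ≤ Q then (H : ℝ) / q else 0) * lgt : ℝ) : ℂ) * ee (θ * x)) -
      (∑ m ∈ Ico x (x + H), (Mbox Q A1 A2 B1 B2 m : ℂ) * ee (((p : ℝ) / q + θ) * m) -
        (((if q ≤ Q then (H : ℝ) / q else 0) * lgt : ℝ) : ℂ) * ee (θ * x)) := by
    have h1 : ∑ m ∈ Ico x (x + H), ((dbox A1 A2 B1 B2 m : ℂ) - (Mbox Q A1 A2 B1 B2 m : ℂ)) * ee (((p : ℝ) / q + θ) * m) =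
        ∑ m ∈ Ico x (x + H), (dbox A1 A2 B1 B2 m : ℂ) * ee (((p : ℝ) / q + θ) * m) -
        ∑ m ∈ Ico x (x + H), (Mbox Q A1 A2 B1 B2 m : ℂ) * ee (((p : ℝ) / q + θ) * m) := by
      rw [← Finset.sum_sub_distrib]
      refine Finset.sum_congr rfl fun m _ => ?_
      ring
    rw [h1]
    abel
  rw [e6]
  have e8 : (H : ℝ) * (1 / Q + 1 / u) = H / Q + H / u := by ring
  rw [e8]
  have t1 := norm_sub_le
    ((∑ m ∈ Ico x (x + H), (dbox A1 A2 B1 B2 m : ℂ) * ee (((p : ℝ) / q + θ) * m) -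
        SR ((p : ℝ) / q + θ) (max A1 (x / B2 + 1)) (min A2 (x / B1 + 1)) x H) +
      (SR ((p : ℝ) / q + θ) (max A1 (x / B2 + 1)) (min A2 (x / B1 + 1)) x H -
        (((H : ℝ) / q * lgt : ℝ) : ℂ) * ee (θ * x)) +
      ((((H : ℝ) / q * lgt : ℝ) : ℂ) * ee (θ * x) -
        (((if q ≤ Q then (H : ℝ) / q else 0) * lgt : ℝ) : ℂ) * ee (θ * x)))
    (∑ m ∈ Ico x (x + H), (Mbox Q A1 A2 B1 B2 m : ℂ) * ee (((p : ℝ) / q + θ) * m) -
        (((if q ≤ Q then (H : ℝ) / q else 0) * lgt : ℝ) : ℂ) * ee (θ * x))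
  have t2 := norm_add₃_le
    (a := ∑ m ∈ Ico x (x + H), (dbox A1 A2 B1 B2 m : ℂ) * ee (((p : ℝ) / q + θ) * m) -
        SR ((p : ℝ) / q + θ) (max A1 (x / B2 + 1)) (min A2 (x / B1 + 1)) x H)
    (b := SR ((p : ℝ) / q + θ) (max A1 (x / B2 + 1)) (min A2 (x / B1 + 1)) x H -
        (((H : ℝ) / q * lgt : ℝ) : ℂ) * ee (θ * x))
    (c := (((H : ℝ) / q * lgt : ℝ) : ℂ) * ee (θ * x) -
        (((if q ≤ Q then (H : ℝ) / q else 0) * lgt : ℝ) : ℂ) * ee (θ * x))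
  linarith

end Pool.Agent.Lib.H21T
end

-- from Lib.H21T.Main
section

/-!
# The main theorem (parts D3 + D4)
-/

namespace Pool.Agent.Lib.H21T

open Finset Pool.Agent.SZW

theorem main_u : ∃ U0 : ℝ, 1 ≤ U0 ∧ ∀ u : ℝ, U0 ≤ u → ∀ (Q A1 A2 B1 B2 x H : ℕ) (α : ℝ), 1 ≤ Q → (Q : ℝ) ≤ u → u ^ 9999 ≤ A1 → u ^ 9999 ≤ B1 →
    A1 ≤ A2 → A2 ≤ 2 * A1 → B1 ≤ B2 → B2 ≤ 2 * B1 → ((A1 * B1 : ℕ) : ℝ) ≤ u ^ 20000 → u ^ 9999 ≤ H →
    ‖∑ m ∈ Ico x (x + H), ((dbox A1 A2 B1 B2 m : ℂ) - (Mbox Q A1 A2 B1 B2 m : ℂ)) * ee (α * m)‖ ≤ H * (1 / Q + 1 / u) := by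
  obtain ⟨U1, hU1, h1⟩ := z4
  obtain ⟨U2, hU2, h2⟩ := z6
  refine ⟨max U1 U2, le_max_of_le_left hU1, fun u hu => ?_⟩
  have hu1 : U1 ≤ u := (le_max_left _ _).trans hu
  have hu2 : U2 ≤ u := (le_max_right _ _).trans hu
  have hu0 : 1 ≤ u := hU1.trans hu1
  have hu' : 0 < u := by linarith
  have key : ∀ (Q A1 A2 B1 B2 x H : ℕ) (α : ℝ), 1 ≤ Q → (Q : ℝ) ≤ u → u ^ 9999 ≤ A1 →
      A1 ≤ B1 → A1 ≤ A2 → A2 ≤ 2 * A1 → B1 ≤ B2 → B2 ≤ 2 * B1 → ((A1 * B1 : ℕ) : ℝ) ≤ u ^ 20000 → u ^ 9999 ≤ H →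
      ‖∑ m ∈ Ico x (x + H), ((dbox A1 A2 B1 B2 m : ℂ) - (Mbox Q A1 A2 B1 B2 m : ℂ)) * ee (α * m)‖ ≤ H * (1 / Q + 1 / u) := by
    intro Q A1 A2 B1 B2 x H α hQ1 hQu hA hAB hA1 hA2 hB1 hB2 hN hH
    have hQ0 : (0 : ℝ) < Q := by exact_mod_cast hQ1
    have hc : 0 ≤ 1 / (Q : ℝ) + 1 / u := by positivity
    have hpow : ∀ n : ℕ, 1 ≤ u ^ n := fun n => one_le_pow₀ hu0
    by_cases hM : Maj u α
    · have h3 := z7 (fun m => ((dbox A1 A2 B1 B2 m : ℂ) - (Mbox Q A1 A2 B1 B2 m : ℂ)) * ee (α * m)) (u ^ 9740) (1 / (Q : ℝ) + 1 / u)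
        (hpow _) hc (fun y k hk1 hk2 => by
          have h4 := h2 u hu2 Q A1 A2 B1 B2 y k α hQ1 hQu hA hAB hA1 hA2 hB1 hB2 hN hk1 hk2 hM
          rwa [mul_comm] at h4) x H ((pow_le_pow_right₀ hu0 (by norm_num)).trans hH)
      rwa [mul_comm] at h3
    · have h3 := z7 (fun m => ((dbox A1 A2 B1 B2 m : ℂ) - (Mbox Q A1 A2 B1 B2 m : ℂ)) * ee (α * m)) (u ^ 9999) (1 / u)
        (hpow _) (by positivity) (fun y k hk1 hk2 => by
          have h4 := h1 u hu1 Q A1 A2 B1 B2 y k α hQ1 hQu hA hAB hA1 hA2 hB1 hB2 hN hk1 hk2 hM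
          have h5 : (k : ℝ) / u = 1 / u * k := by ring
          rwa [h5] at h4) x H hH
      refine h3.trans ?_
      rw [mul_comm]
      exact mul_le_mul_of_nonneg_left (by linarith [show (0 : ℝ) ≤ 1 / Q by positivity]) (Nat.cast_nonneg _)
  intro Q A1 A2 B1 B2 x H α hQ1 hQu hA hB hA1 hA2 hB1 hB2 hN hH
  rcases le_total A1 B1 with hAB | hAB
  · exact key Q A1 A2 B1 B2 x H α hQ1 hQu hA hAB hA1 hA2 hB1 hB2 hN hH
  · have h3 := key Q B1 B2 A1 A2 x H α hQ1 hQu hB hAB hB1 hB2 hA1 hA2 (by rwa [mul_comm]) hH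
    refine le_trans (le_of_eq ?_) h3
    congr 1
    refine Finset.sum_congr rfl fun m _ => ?_
    rw [dbox_symm, Mbox_symm]

/-- **D3 + D4.** The divisor function of a box minus its model has no large exponential sums on intervals of length at least `N ^ (1 / 2 - κ)`. -/
theorem D34 : ∃ κ : ℝ, 0 < κ ∧ κ ≤ 1 / 2 ∧ ∀ ε : ℝ, 0 < ε → ε ≤ κ → ∃ N0 : ℕ, ∀ N : ℕ, N0 ≤ N → ∀ A1 A2 B1 B2 : ℕ,
    (N : ℝ) ^ (1 / 2 - κ) ≤ A1 → (N : ℝ) ^ (1 / 2 - κ) ≤ B1 → A1 ≤ A2 → A2 ≤ 2 * A1 → B1 ≤ B2 → B2 ≤ 2 * B1 → A1 * B1 ≤ N →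
    ∀ (x H : ℕ) (α : ℝ), (N : ℝ) ^ (1 / 2 - κ) ≤ H →
    ‖∑ m ∈ Ico x (x + H), ((dbox A1 A2 B1 B2 m : ℂ) - (Mbox ⌊(N : ℝ) ^ ε⌋₊ A1 A2 B1 B2 m : ℂ)) * ee (α * m)‖ ≤
      H * (N : ℝ) ^ (-(ε / 2)) := by
  obtain ⟨U0, hU0, h⟩ := main_u
  refine ⟨1 / 20000, by norm_num, by norm_num, fun ε hε hεκ => ?_⟩
  obtain ⟨N1, hN1⟩ := exists_nat_ge (U0 ^ 20000)
  obtain ⟨N2, hN2⟩ := exists_nat_ge ((3 : ℝ) ^ (2 / ε))
  refine ⟨max (max N1 N2) 1, fun N hN A1 A2 B1 B2 hA hB hA1 hA2 hB1 hB2 hAB x H α hH => ?_⟩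
  have hNN1 : N1 ≤ N := (le_max_left _ _).trans ((le_max_left _ _).trans hN)
  have hNN2 : N2 ≤ N := (le_max_right _ _).trans ((le_max_left _ _).trans hN)
  have hNge : 1 ≤ N := (le_max_right _ _).trans hN
  have hNr : (1 : ℝ) ≤ N := by exact_mod_cast hNge
  have hN0 : (0 : ℝ) < N := by linarith
  set u : ℝ := (N : ℝ) ^ (1 / 20000 : ℝ) with hu
  have hu1 : 1 ≤ u := Real.one_le_rpow hNr (by norm_num)
  have hu0 : 0 < u := by linarith
  have hpow : ∀ k : ℕ, u ^ k = (N : ℝ) ^ ((k : ℝ) / 20000) := by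
    intro k
    rw [hu, ← Real.rpow_natCast, ← Real.rpow_mul hN0.le]
    congr 1
    ring
  have h9999 : u ^ 9999 = (N : ℝ) ^ ((1 : ℝ) / 2 - 1 / 20000) := by
    rw [hpow]
    congr 1
    norm_num
  have h20000 : u ^ 20000 = (N : ℝ) := by
    rw [hpow]
    norm_num
  have hUu : U0 ≤ u := by
    have h5 : U0 ^ 20000 ≤ u ^ 20000 := by
      rw [h20000]
      exact hN1.trans (by exact_mod_cast hNN1)
    exact le_of_pow_le_pow_left₀ (by norm_num) hu0.le h5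
  have hε1 : (N : ℝ) ^ ε ≤ u := Real.rpow_le_rpow_of_exponent_le hNr hεκ
  have hε2 : 1 ≤ (N : ℝ) ^ ε := Real.one_le_rpow hNr hε.le
  set Q : ℕ := ⌊(N : ℝ) ^ ε⌋₊ with hQ
  have hQ1 : 1 ≤ Q := Nat.le_floor (by simpa using hε2)
  have hQu : (Q : ℝ) ≤ u := (Nat.floor_le (by positivity)).trans hε1
  have hQ0 : (0 : ℝ) < Q := by exact_mod_cast hQ1
  have h6 := h u hUu Q A1 A2 B1 B2 x H α hQ1 hQu (by rw [h9999]; exact hA) (by rw [h9999]; exact hB) hA1 hA2 hB1 hB2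
    (by rw [h20000]; exact_mod_cast hAB) (by rw [h9999]; exact hH)
  refine h6.trans (mul_le_mul_of_nonneg_left ?_ (Nat.cast_nonneg _))
  have h7 : (N : ℝ) ^ ε ≤ 2 * Q := by
    have h8 : (N : ℝ) ^ ε < Q + 1 := Nat.lt_floor_add_one _
    have h9 : (1 : ℝ) ≤ Q := by exact_mod_cast hQ1
    linarith
  have hε0 : 0 < (N : ℝ) ^ ε := by positivity
  have h8 : 1 / (Q : ℝ) ≤ 2 / (N : ℝ) ^ ε := by
    rw [div_le_div_iff₀ hQ0 hε0]
    linarith
  have h9 : 1 / u ≤ 1 / (N : ℝ) ^ ε := one_div_le_one_div_of_le hε0 hε1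
  have h10 : 3 ≤ (N : ℝ) ^ (ε / 2) := by
    have h11 : (3 : ℝ) ^ (2 / ε) ≤ N := hN2.trans (by exact_mod_cast hNN2)
    have h12 := Real.rpow_le_rpow (by positivity) h11 (by positivity : 0 ≤ ε / 2)
    rw [← Real.rpow_mul (by norm_num)] at h12
    have h13 : 2 / ε * (ε / 2) = 1 := by field_simp
    rwa [h13, Real.rpow_one] at h12
  have h14 : (N : ℝ) ^ ε = (N : ℝ) ^ (ε / 2) * (N : ℝ) ^ (ε / 2) := by
    rw [← Real.rpow_add hN0]
    congr 1
    ring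
  have h15 : (N : ℝ) ^ (-(ε / 2)) = 1 / (N : ℝ) ^ (ε / 2) := by
    rw [Real.rpow_neg hN0.le, one_div]
  have h16 : 0 < (N : ℝ) ^ (ε / 2) := by positivity
  calc 1 / (Q : ℝ) + 1 / u ≤ 2 / (N : ℝ) ^ ε + 1 / (N : ℝ) ^ ε := add_le_add h8 h9
    _ = 3 / (N : ℝ) ^ ε := by ring
    _ ≤ (N : ℝ) ^ (-(ε / 2)) := by
      rw [h15, h14, div_le_div_iff₀ (by positivity) h16]
      nlinarith

end Pool.Agent.Lib.H21T
end

-- from Lib.H81A.SM
section

/-!
# H81A, chunk SM (M): one term of Heath-Brown's identity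
-/

namespace Pool.Agent.Lib.H81A

open Finset ArithmeticFunction

/-- The factors of the `j`-th term. -/
noncomputable def sm_G (z j : ℕ) : Fin (j + 1) ⊕ (Fin j ⊕ Unit) → ArithmeticFunction ℝ :=
  Sum.elim (fun _ => muV z) (Sum.elim (fun _ => one1) (fun _ => logf))

theorem sm_prod (z j : ℕ) : ∏ i, sm_G z j i = muV z ^ (j + 1) * one1 ^ j * logf := by
  rw [Fintype.prod_sum_type, Fintype.prod_sum_type]
  simp only [sm_G, Sum.elim_inl, Sum.elim_inr, Finset.prod_const, Finset.card_univ, Fintype.card_fin, Fintype.card_unit, pow_one]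
  rw [mul_assoc]

theorem sm_bound {z j N : ℕ} {V : ℝ} (hN : 1 ≤ N) (hV : 1 ≤ V) (hVlog : Real.log N ≤ V) (i : Fin (j + 1) ⊕ (Fin j ⊕ Unit)) (n : ℕ)
    (h1 : 1 ≤ n) (h2 : n ≤ N) : |sm_G z j i n| ≤ V := by
  have hn : n ≠ 0 := by omega
  rcases i with i | i | i
  · show |muV z n| ≤ V
    unfold muV
    rw [af_apply _ hn]
    split_ifs
    · have h3 : |((moebius n : ℤ) : ℝ)| ≤ 1 := by
        rw [← Int.cast_abs]
        exact_mod_cast abs_moebius_le_one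
      exact h3.trans hV
    · rw [abs_zero]
      exact zero_le_one.trans hV
  · show |one1 n| ≤ V
    unfold one1
    rw [af_apply _ hn, abs_one]
    exact hV
  · show |logf n| ≤ V
    unfold logf
    rw [af_apply _ hn, abs_of_nonneg (Real.log_natCast_nonneg n)]
    exact (Real.log_le_log (by exact_mod_cast h1) (by exact_mod_cast h2)).trans hVlog

theorem sm_sum {α : Type} (p : Seminorm ℝ (ℕ → ℝ)) (s : Finset α) (f : α → ℕ → ℝ) {Y : ℝ} (h : ∀ a ∈ s, p (f a) ≤ Y) :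
    p (∑ a ∈ s, f a) ≤ s.card * Y := by
  classical
  induction s using Finset.induction_on with
  | empty =>
    rw [Finset.sum_empty, _root_.map_zero, Finset.card_empty, Nat.cast_zero, zero_mul]
  | insert a s ha ih =>
    rw [Finset.sum_insert ha, Finset.card_insert_of_notMem ha]
    refine (map_add_le_add p _ _).trans ?_
    have h1 := h a (Finset.mem_insert_self a s)
    have h2 := ih fun b hb => h b (Finset.mem_insert_of_mem hb)
    push_cast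
    linarith

/-- PROOF. `ι = Fin (j + 1) ⊕ (Fin j ⊕ Unit)`, `G = Sum.elim (fun _ => muV z) (Sum.elim (fun _ => one1) (fun _ => logf))`: the product is `∏ i, G i` (`Fintype.prod_sum_type`, `Finset.prod_const`). `dyadic` for `m ≤ N < 2 ^ L` (`Loc.congr`), subadditivity: the sum over
`k ∈ Fintype.piFinset (range L)`, at most `L ^ (2 j + 2) ≤ V ^ (2 J)` terms. If some `i = inl _` has `z < 2 ^ k i` then `dy (k i) (muV z) = 0` and the product is `0`; otherwise `2 ^ k i ≤ z < 2 ^ u`, `k i < u`: `box` with `r = 2 J`. `|muV| ≤ 1 ≤ V` (`abs_moebius_le_one`), `|one1| ≤ 1`, `|logf n| ≤ log N ≤ V`. -/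
theorem term {c η : ℝ} {N L u v J z : ℕ} {V : ℝ} (par : Par c η N L u v (2 * J) V) (hz : z < 2 ^ u) (p : Seminorm ℝ (ℕ → ℝ)) (hp : Loc N p)
    {X : ℝ} (h2 : H2 c η N p X) (h1 : H1 c N p X) (h3 : H3 c η N p X) {j : ℕ} (hj : j < J) :
    p (fun m => (muV z ^ (j + 1) * one1 ^ j * logf) m) ≤ V ^ (6 * J + 2) * X := by
  classical
  have hX := t1_X h1
  have hV0 : 0 ≤ V := zero_le_one.trans par.hV
  have hcard : Fintype.card (Fin (j + 1) ⊕ (Fin j ⊕ Unit)) = 2 * j + 2 := by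
    rw [Fintype.card_sum, Fintype.card_sum, Fintype.card_fin, Fintype.card_fin, Fintype.card_unit]
    omega
  have h4 : p (fun m => (muV z ^ (j + 1) * one1 ^ j * logf) m) =
      p (∑ k ∈ Fintype.piFinset (fun _ : Fin (j + 1) ⊕ (Fin j ⊕ Unit) => range L), fun m => (∏ i, dy (k i) (sm_G z j i)) m) := by
    refine hp.congr fun m _ hm => ?_
    rw [← sm_prod, dyadic _ L m (lt_of_le_of_lt hm par.hL), Finset.sum_apply]
  have hY : 0 ≤ V ^ (2 * (2 * J) + 2) * X := mul_nonneg (pow_nonneg hV0 _) hX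
  rw [h4]
  have h5 : ∀ k ∈ Fintype.piFinset (fun _ : Fin (j + 1) ⊕ (Fin j ⊕ Unit) => range L),
      p (fun m => (∏ i, dy (k i) (sm_G z j i)) m) ≤ V ^ (2 * (2 * J) + 2) * X := by
    intro k _
    by_cases hk : ∃ i : Fin (j + 1), z < 2 ^ k (Sum.inl i)
    · obtain ⟨i, hi⟩ := hk
      have h6 : dy (k (Sum.inl i)) (sm_G z j (Sum.inl i)) = 0 := by
        ext n
        rw [dy_apply, ArithmeticFunction.zero_apply]
        split_ifs with h
        · show muV z n = 0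
          have hn : n ≠ 0 := by
            have := h.1
            have h7 : 0 < 2 ^ k (Sum.inl i) := pow_pos (by norm_num) _
            omega
          unfold muV
          rw [af_apply _ hn, if_neg (by omega)]
        · rfl
      have h7 : (fun m => (∏ i, dy (k i) (sm_G z j i)) m) = 0 := by
        funext m
        rw [Finset.prod_eq_zero (Finset.mem_univ (Sum.inl i)) h6]
        rfl
      rw [h7, _root_.map_zero]
      exact hY
    · push Not at hk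
      refine box par (by rw [hcard]; omega) p hp h2 h1 h3 k (sm_G z j) (sm_bound par.hN par.hV par.hVlog) fun i => ?_
      rcases i with i | i | i
      · refine Or.inr (Or.inr ?_)
        have h6 : 2 ^ k (Sum.inl i) < 2 ^ u := lt_of_le_of_lt (hk i) hz
        exact (Nat.pow_lt_pow_iff_right (by norm_num)).1 h6
      · exact Or.inl rfl
      · exact Or.inr (Or.inl rfl)
  refine (sm_sum p _ _ h5).trans ?_
  rw [Fintype.card_piFinset, Finset.prod_const, Finset.card_univ, hcard, Finset.card_range]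
  have hL1 : (L : ℝ) ≤ V := by
    have := par.hVL
    linarith
  have h6 : ((L ^ (2 * j + 2) : ℕ) : ℝ) ≤ V ^ (2 * J) := by
    push_cast
    exact (pow_le_pow_left₀ (Nat.cast_nonneg L) hL1 _).trans (pow_le_pow_right₀ par.hV (by omega))
  calc ((L ^ (2 * j + 2) : ℕ) : ℝ) * (V ^ (2 * (2 * J) + 2) * X) ≤ V ^ (2 * J) * (V ^ (2 * (2 * J) + 2) * X) := mul_le_mul_of_nonneg_right h6 hY
    _ = V ^ (6 * J + 2) * X := by ring

end Pool.Agent.Lib.H81A
end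

-- from Lib.H81A.Final
section

/-!
# H81A, the final theorem
-/

namespace Pool.Agent.Lib.H81A

open Finset ArithmeticFunction

/-- **Module A**: Heath-Brown's identity in seminorm form. -/
theorem hb_seminorm (c η ε : ℝ) (hc : 0 < c) (hη : 0 < η) (hcη : 4 * c + 4 * η ≤ 1 / 3) (hε : 0 < ε) : ∃ N₀ : ℕ, ∀ N : ℕ, N₀ ≤ N →
    ∀ p : Seminorm ℝ (ℕ → ℝ), Loc N p → ∀ X : ℝ, H2 c η N p X → H1 c N p X → H3 c η N p X → p (fun m => vonMangoldt m) ≤ (N : ℝ) ^ ε * X := by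
  obtain ⟨J, N₀, h⟩ := params c η ε hc hη hcη hε
  refine ⟨N₀, fun N hN p hp X h2 h1 h3 => ?_⟩
  obtain ⟨L, u, v, z, V, par, hz1, hz2, hV⟩ := h N hN
  have hX : 0 ≤ X := by
    refine le_trans ?_ (h1 1 1 le_rfl (by norm_num) (fun _ => 0) (fun _ => by rw [abs_zero]; exact zero_le_one) (fun q hq => absurd rfl hq))
    exact apply_nonneg p _
  have h4 : p (fun m => vonMangoldt m) = p (∑ j ∈ range J, ((-1 : ℝ) ^ j * (J.choose (j + 1) : ℝ)) • (fun m => (muV z ^ (j + 1) * one1 ^ j * logf) m)) := by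
    refine hp.congr fun m _ hm => ?_
    rw [hb_identity z J m (lt_of_le_of_lt hm hz1), Finset.sum_apply]
    exact Finset.sum_congr rfl fun j _ => rfl
  rw [h4]
  have h5 : ∀ s : Finset ℕ, s ⊆ range J → p (∑ j ∈ s, ((-1 : ℝ) ^ j * (J.choose (j + 1) : ℝ)) • (fun m => (muV z ^ (j + 1) * one1 ^ j * logf) m)) ≤
      ∑ j ∈ s, (J.choose (j + 1) : ℝ) * (V ^ (6 * J + 2) * X) := by
    intro s
    induction s using Finset.induction_on with
    | empty =>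
      intro _
      rw [Finset.sum_empty, Finset.sum_empty, _root_.map_zero]
    | insert j s hj ih =>
      intro hs
      rw [Finset.sum_insert hj, Finset.sum_insert hj]
      refine (map_add_le_add p _ _).trans (add_le_add ?_ (ih fun i hi => hs (Finset.mem_insert_of_mem hi)))
      rw [map_smul_eq_mul, norm_mul, norm_pow, norm_neg, norm_one, one_pow, one_mul, Real.norm_natCast]
      exact mul_le_mul_of_nonneg_left (term par hz2 p hp h2 h1 h3 (Finset.mem_range.1 (hs (Finset.mem_insert_self j s)))) (Nat.cast_nonneg _)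
  refine (h5 (range J) (Finset.Subset.refl _)).trans ?_
  rw [← Finset.sum_mul]
  have h6 : (∑ j ∈ range J, (J.choose (j + 1) : ℝ)) ≤ 2 ^ J := by
    have h7 : (∑ j ∈ range J, J.choose (j + 1)) ≤ 2 ^ J := by
      rw [← Nat.sum_range_choose J, Finset.sum_range_succ' (fun i => J.choose i) J]
      exact Nat.le_add_right _ _
    exact_mod_cast h7
  have hV0 : 0 ≤ V ^ (6 * J + 2) := pow_nonneg (zero_le_one.trans par.hV) _
  calc (∑ j ∈ range J, (J.choose (j + 1) : ℝ)) * (V ^ (6 * J + 2) * X) ≤ 2 ^ J * (V ^ (6 * J + 2) * X) :=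
        mul_le_mul_of_nonneg_right h6 (mul_nonneg hV0 hX)
    _ = (2 ^ J * V ^ (6 * J + 2)) * X := by ring
    _ ≤ (N : ℝ) ^ ε * X := mul_le_mul_of_nonneg_right hV hX

end Pool.Agent.Lib.H81A
end

-- from Lib.H37T.A4
section
/-!
H37T: A + B + C + D give the inverse theorem for the von Mangoldt function.
-/
namespace Pool.Agent.H37T
open Finset Pool.Agent.H44W

theorem H1_mono {c : ℝ} {N : ℕ} {p : Seminorm ℝ (ℕ → ℝ)} {X Y : ℝ} (h : Pool.Agent.Lib.H81A.H1 c N p X) (hXY : X ≤ Y) :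
    Pool.Agent.Lib.H81A.H1 c N p Y := fun B1 B2 h1 h2 γ h3 h4 => (h B1 B2 h1 h2 γ h3 h4).trans hXY


theorem H3_mono {c η : ℝ} {N : ℕ} {p : Seminorm ℝ (ℕ → ℝ)} {X Y : ℝ} (h : Pool.Agent.Lib.H81A.H3 c η N p X) (hXY : X ≤ Y) :
    Pool.Agent.Lib.H81A.H3 c η N p Y := fun A1 A2 B1 B2 h1 h2 h3 h4 h5 h6 γ h7 h8 => (h A1 A2 B1 B2 h1 h2 h3 h4 h5 h6 γ h7 h8).trans hXY

/-- The divisor bound. -/
theorem div_bound (b : ℝ) (hb : 0 < b) : ∃ n0 : ℕ, ∀ n : ℕ, n0 ≤ n → ∀ m : ℕ, 1 ≤ m → m ≤ 2 * n → (m.divisors.card : ℝ) ≤ (n:ℝ) ^ b := by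
  obtain ⟨C, hC, hdiv⟩ := Pool.Agent.Lib.H21AP.divisor_bound (ε := b / 2) (by positivity)
  have t : ∀ᶠ n : ℕ in Filter.atTop, C * 2 ^ (b / 2) ≤ (n : ℝ) ^ (b / 2) :=
    ((tendsto_rpow_atTop (by positivity : 0 < b / 2)).comp tendsto_natCast_atTop_atTop).eventually_ge_atTop _
  obtain ⟨n0, hn0⟩ := Filter.eventually_atTop.1 t
  refine ⟨max n0 1, fun n hn m hm1 hm2 => (hdiv m hm1).trans ?_⟩
  have h1 := hn0 n (by omega)
  have hn1 : (0:ℝ) < n := by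
    have : 0 < n := by omega
    exact_mod_cast this
  have h2 : (m:ℝ) ^ (b / 2) ≤ 2 ^ (b / 2) * (n:ℝ) ^ (b / 2) := by
    rw [← Real.mul_rpow (by norm_num) hn1.le]
    refine Real.rpow_le_rpow (Nat.cast_nonneg m) ?_ (by positivity)
    exact_mod_cast hm2
  calc C * (m:ℝ) ^ (b / 2) ≤ C * (2 ^ (b / 2) * (n:ℝ) ^ (b / 2)) := mul_le_mul_of_nonneg_left h2 hC.le
    _ = (C * 2 ^ (b / 2)) * (n:ℝ) ^ (b / 2) := by ring
    _ ≤ (n:ℝ) ^ (b / 2) * (n:ℝ) ^ (b / 2) := mul_le_mul_of_nonneg_right h1 (Real.rpow_nonneg hn1.le _)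
    _ = (n:ℝ) ^ b := by
      rw [← Real.rpow_add hn1]
      congr 1
      ring

/-- The inverse theorem for the von Mangoldt function (the same proposition as in `H9S`). -/
def INV : Prop :=
  ∀ c1 : ℝ, 0 < c1 → ∃ c2 : ℝ, 0 < c2 ∧ ∃ n0 : ℕ, ∀ n : ℕ, n0 ≤ n → ∀ W f g : ℤ → ℂ,
    (∀ x, ‖W x‖ ≤ 1) → (∀ x, ‖f x‖ ≤ 1) → (∀ x, ‖g x‖ ≤ 1) →
    (∀ th : ℝ, ‖∑ z ∈ Icc (1:ℤ) n, g z * ee (th * z)‖ ≤ (n:ℝ) ^ (1 - c1)) →
    ‖TF n (fun m => ((ArithmeticFunction.vonMangoldt m.toNat : ℝ) : ℂ)) W f g‖ ≤ (n:ℝ) ^ (2 - c2)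

theorem inv_of (hB : ∃ C : ℕ, ClassTwo C)
    (hD : ∃ et0 : ℝ, 0 < et0 ∧ ∃ C n0 : ℕ, DOut et0 C n0) : INV := by
  intro c0 hc0
  obtain ⟨et0, het0, CD, nD, hDO⟩ := hD
  set c1 : ℝ := min c0 1 with hc1d
  have hc1 : 0 < c1 := lt_min hc0 one_pos
  have hc1' : c1 ≤ 1 := min_le_right _ _
  have hc1'' : c1 ≤ c0 := min_le_left _ _
  set η : ℝ := min et0 (1 / 24) with hηd
  have hη : 0 < η := lt_min het0 (by norm_num)
  have hη1 : η ≤ et0 := min_le_left _ _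
  have hη2 : η ≤ 1 / 24 := min_le_right _ _
  obtain ⟨CB, hCB⟩ := hB
  obtain ⟨nB, hnB⟩ := h2_of η hη CB hCB
  set d : ℝ := c1 / (2 * ((CD : ℝ) + 1)) with hdd
  have hCD0 : (0:ℝ) ≤ CD := Nat.cast_nonneg _
  have hCB0 : (0:ℝ) ≤ CB := Nat.cast_nonneg _
  have hd : 0 < d := by positivity
  have hd1 : d * (2 * ((CD : ℝ) + 1)) = c1 := div_mul_cancel₀ _ (by positivity)
  have hdC : d * CD < c1 := by nlinarith
  have hd2 : d ≤ c1 / 2 := by nlinarith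
  set c : ℝ := min (d / 12) η with hcd
  have hc : 0 < c := lt_min (by positivity) hη
  have hc12 : c ≤ d / 12 := min_le_left _ _
  have hcη : c ≤ η := min_le_right _ _
  have hc24 : c ≤ 1 / 24 := by linarith
  set b : ℝ := c / (2 * ((CB : ℝ) + 1)) with hbd
  have hb : 0 < b := by positivity
  have hb1 : b * (2 * ((CB : ℝ) + 1)) = c := div_mul_cancel₀ _ (by positivity)
  have hbC : b * CB < c := by nlinarith
  have hb2 : b ≤ c / 2 := by nlinarith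
  obtain ⟨nA, hnA⟩ := Pool.Agent.Lib.H81A.hb_seminorm c η (b / 4) hc hη (by linarith) (by positivity)
  -- large n
  have t1 : ∀ᶠ n : ℕ in Filter.atTop, (2 : ℝ) ≤ (n : ℝ) ^ b :=
    ((tendsto_rpow_atTop hb).comp tendsto_natCast_atTop_atTop).eventually_ge_atTop 2
  have t2 : ∀ᶠ n : ℕ in Filter.atTop, (4 : ℝ) ≤ (n : ℝ) ^ (b / 4) :=
    ((tendsto_rpow_atTop (by positivity : 0 < b / 4)).comp tendsto_natCast_atTop_atTop).eventually_ge_atTop 4
  have t3 : ∀ᶠ n : ℕ in Filter.atTop, (1 + Real.log n) ^ 10 ≤ (n : ℝ) ^ d := by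
    have h1 : ∀ᶠ x : ℝ in Filter.atTop, 1 + Real.log x ≤ x ^ (d / 10) := by
      have h2 := (isLittleO_log_rpow_atTop (by positivity : 0 < d / 10)).def (by norm_num : (0:ℝ) < 1 / 2)
      have h3 : ∀ᶠ x : ℝ in Filter.atTop, (2 : ℝ) ≤ x ^ (d / 10) := (tendsto_rpow_atTop (by positivity : 0 < d / 10)).eventually_ge_atTop 2
      filter_upwards [h2, h3, Filter.eventually_ge_atTop (1:ℝ)] with x h4 h5 h6
      rw [Real.norm_of_nonneg (Real.log_nonneg h6), Real.norm_of_nonneg (Real.rpow_nonneg (by linarith) _)] at h4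
      linarith
    filter_upwards [tendsto_natCast_atTop_atTop.eventually h1, Filter.eventually_ge_atTop 1] with n h4 h5
    have h6 : (0:ℝ) ≤ n := Nat.cast_nonneg n
    have h7 : (n : ℝ) ^ d = ((n : ℝ) ^ (d / 10)) ^ 10 := by
      rw [← Real.rpow_natCast, ← Real.rpow_mul h6]
      congr 1
      push_cast
      ring
    rw [h7]
    have h8 : 0 ≤ Real.log n := Real.log_natCast_nonneg n
    exact pow_le_pow_left₀ (by linarith) h4 10
  have t4 : ∀ᶠ n : ℕ in Filter.atTop, 5 * (1 + Real.log n) ≤ (n : ℝ) ^ (c1 / 3) := by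
    have h1 : ∀ᶠ x : ℝ in Filter.atTop, 5 * (1 + Real.log x) ≤ x ^ (c1 / 3) := by
      have h2 := (isLittleO_log_rpow_atTop (by positivity : 0 < c1 / 3)).def (by norm_num : (0:ℝ) < 1 / 10)
      have h3 : ∀ᶠ x : ℝ in Filter.atTop, (10 : ℝ) ≤ x ^ (c1 / 3) := (tendsto_rpow_atTop (by positivity : 0 < c1 / 3)).eventually_ge_atTop 10
      filter_upwards [h2, h3, Filter.eventually_ge_atTop (1:ℝ)] with x h4 h5 h6
      rw [Real.norm_of_nonneg (Real.log_nonneg h6), Real.norm_of_nonneg (Real.rpow_nonneg (by linarith) _)] at h4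
      linarith
    exact tendsto_natCast_atTop_atTop.eventually h1
  obtain ⟨nT, hnT⟩ := Filter.eventually_atTop.1 (t1.and (t2.and (t3.and t4)))
  obtain ⟨nV, hnV⟩ := div_bound b hb
  refine ⟨b / 4, by positivity, max (max nA nB) (max (max nD nT) (max nV 2)), fun n hn W f g hW hf hg hth => ?_⟩
  have hnA' : nA ≤ 2 * n := by omega
  have hnB' : nB ≤ n := by omega
  have hnD' : nD ≤ n := by omega
  have hn2 : 2 ≤ n := by omega
  obtain ⟨u1, u2, u3, u4⟩ := hnT n (by omega)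
  have hdvb := hnV n (by omega)
  have hnR : (2:ℝ) ≤ n := by exact_mod_cast hn2
  have hn0 : (0:ℝ) < n := by linarith
  have hn1 : (1:ℝ) ≤ n := by linarith
  have hlog : 0 ≤ Real.log n := Real.log_natCast_nonneg n
  have hth1 : ∀ th : ℝ, ‖∑ z ∈ Icc (1:ℤ) n, g z * ee (th * z)‖ ≤ (n:ℝ) ^ (1 - c1) := fun th =>
    (hth th).trans (Real.rpow_le_rpow_of_exponent_le hn1 (by linarith))
  have hlt : ∀ e : ℝ, ∀ C : ℕ, e * C < c1 → ∀ th : ℝ, ‖∑ z ∈ Icc (1:ℤ) n, g z * ee (th * z)‖ < (n:ℝ) / ((n:ℝ) ^ e) ^ C := by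
    intro e C he th
    refine lt_of_le_of_lt (hth1 th) ?_
    have h1 : (n:ℝ) / ((n:ℝ) ^ e) ^ C = (n:ℝ) ^ (1 - e * C) := by
      rw [← Real.rpow_natCast, ← Real.rpow_mul hn0.le, Real.rpow_sub hn0, Real.rpow_one]
    rw [h1]
    exact Real.rpow_lt_rpow_of_exponent_lt (by linarith) (by linarith)
  have h2n : ∀ e : ℝ, 0 ≤ e → ((2 * n : ℕ) : ℝ) ^ e ≤ (n:ℝ) ^ (2 * e) := by
    intro e he
    rw [Real.rpow_mul hn0.le]
    refine Real.rpow_le_rpow (Nat.cast_nonneg _) ?_ he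
    push_cast
    rw [Real.rpow_two]
    nlinarith
  have hn2n : ∀ e : ℝ, 0 ≤ e → (n:ℝ) ^ e ≤ ((2 * n : ℕ) : ℝ) ^ e := by
    intro e he
    refine Real.rpow_le_rpow hn0.le ?_ he
    push_cast
    linarith
  have hdiv : ∀ e : ℝ, (n:ℝ) ^ 2 / (n:ℝ) ^ e = (n:ℝ) ^ (2 - e) := by
    intro e
    rw [Real.rpow_sub hn0, Real.rpow_two]
  set X : ℝ := 4 * (n:ℝ) ^ (2 - b) with hX
  have hbb : b ≤ d := by linarith
  have k2 : Pool.Agent.Lib.H81A.H2 c η (2 * n) (tfS n W f g) X := by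
    have h0 : ((n:ℝ) ^ b) ^ CB ≤ (n:ℝ) ^ c := by
      rw [← Real.rpow_natCast, ← Real.rpow_mul hn0.le]
      exact Real.rpow_le_rpow_of_exponent_le hn1 hbC.le
    have h1 := hnB n hnB' c ((n:ℝ) ^ b) u1 hdvb (h0.trans (hn2n c hc.le))
      (h0.trans (Real.rpow_le_rpow_of_exponent_le hn1 hcη)) W f g hW hf hg (hlt b CB (by linarith))
    rw [hdiv] at h1
    exact h1
  have k3 : Pool.Agent.Lib.H81A.H3 c η (2 * n) (tfS n W f g) X := by
    have h1 := h3_of et0 CD nD hDO η hη1 n hnD' (by omega) c ((n:ℝ) ^ d) u3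
      (fun m hm1 hm2 => (hdvb m hm1 hm2).trans (Real.rpow_le_rpow_of_exponent_le hn1 hbb)) (by
      rw [← Real.rpow_natCast, ← Real.rpow_mul hn0.le]
      calc (n:ℝ) ^ (d * CD) ≤ (n:ℝ) ^ (1:ℝ) := Real.rpow_le_rpow_of_exponent_le hn1 (by linarith)
        _ = n := Real.rpow_one _) (by
      refine (h2n (2 * c) (by positivity)).trans (Real.rpow_le_rpow_of_exponent_le hn1 ?_)
      linarith) W f g hW hf hg (hlt d CD hdC)
    rw [hdiv] at h1
    refine H3_mono h1 ?_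
    have h2 : (n:ℝ) ^ (2 - d) ≤ (n:ℝ) ^ (2 - b) := Real.rpow_le_rpow_of_exponent_le hn1 (by linarith)
    have h3 : 0 ≤ (n:ℝ) ^ (2 - b) := Real.rpow_nonneg hn0.le _
    rw [hX]
    linarith
  have k1 : Pool.Agent.Lib.H81A.H1 c (2 * n) (tfS n W f g) X := by
    refine H1_mono (h1_of n (by omega) c W f g hW hf ((n:ℝ) ^ (1 - c1)) hth1) ?_
    have h1 : ((2 * n : ℕ) : ℝ) ^ (2 * c) ≤ (n:ℝ) ^ (d / 3) := by
      refine (h2n (2 * c) (by positivity)).trans (Real.rpow_le_rpow_of_exponent_le hn1 ?_)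
      linarith
    have h2 : (0:ℝ) ≤ (n:ℝ) ^ (1 - c1) := Real.rpow_nonneg hn0.le _
    have h3 : (0:ℝ) ≤ (n:ℝ) ^ (d / 3) := Real.rpow_nonneg hn0.le _
    calc 20 * ((2 * n : ℕ) : ℝ) ^ (2 * c) * (1 + Real.log n) * n * (n:ℝ) ^ (1 - c1)
        ≤ 20 * (n:ℝ) ^ (d / 3) * (1 + Real.log n) * n * (n:ℝ) ^ (1 - c1) := by gcongr
      _ = 4 * ((n:ℝ) ^ (d / 3) * (5 * (1 + Real.log n)) * (n ^ (1:ℝ) * (n:ℝ) ^ (1 - c1))) := by rw [Real.rpow_one]; ring
      _ ≤ 4 * ((n:ℝ) ^ (d / 3) * (n:ℝ) ^ (c1 / 3) * (n ^ (1:ℝ) * (n:ℝ) ^ (1 - c1))) := by gcongr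
      _ = 4 * (n:ℝ) ^ (d / 3 + c1 / 3 + (1 + (1 - c1))) := by
          rw [← Real.rpow_add hn0, ← Real.rpow_add hn0, ← Real.rpow_add hn0]
      _ ≤ X := by
          rw [hX]
          refine mul_le_mul_of_nonneg_left (Real.rpow_le_rpow_of_exponent_le hn1 ?_) (by norm_num)
          linarith
  have h := hnA (2 * n) hnA' (tfS n W f g) (tfS_loc n W f g) X k2 k1 k3
  have e : tfS n W f g (fun m => ArithmeticFunction.vonMangoldt m) =
      ‖TF n (fun m => ((ArithmeticFunction.vonMangoldt m.toNat : ℝ) : ℂ)) W f g‖ := rfl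
  rw [e] at h
  refine h.trans ?_
  have h1 := h2n (b / 4) (by positivity)
  have h2 : 0 ≤ (n:ℝ) ^ (2 - b) := Real.rpow_nonneg hn0.le _
  have h3 : 0 ≤ (n:ℝ) ^ (2 * (b / 4)) := Real.rpow_nonneg hn0.le _
  calc ((2 * n : ℕ) : ℝ) ^ (b / 4) * X ≤ (n:ℝ) ^ (2 * (b / 4)) * ((n:ℝ) ^ (b / 4) * (n:ℝ) ^ (2 - b)) := by
        rw [hX]
        gcongr
    _ = (n:ℝ) ^ (2 - b / 4) := by
        rw [← Real.rpow_add hn0, ← Real.rpow_add hn0]
        congr 1
        ring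

end Pool.Agent.H37T
end

-- from Lib.H44W.M1
section
/-!
CHUNK M1 (M). Type I sums have the inverse property with polynomial loss, uniformly in their level (from class_two and type_one).
Hypothesis hone (proved in H81E): |TF n (psi A' al') W f g| <= 20 A' (1 + log n) n |ghat(th)| for some th.
Proof. Let I = Nat.log 2 (2n) + 1, so 2n < 2^I and I <= 2 (1 + log n) (1/log 2 < 1.45). For m in [2, 2n] the sum psi A al m splits
according to a in [2^i, 2^(i+1)), i < I (A <= n < 2^I by hA4, n^(1/4) <= n): psi A al m = sum_{i<I} psi_i m, psi_i m =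
sum over a in Ico (2^i) (2^(i+1)), a <= A, of [a | m] al a. TF is linear, so some i < I has n^2/(D I) <= |TF n psi_i W f g|; in
particular psi_i is not 0, so 2^i <= A. Put D1 = D I^2.
Case 1: D1^C <= 2^i. For m in [2,2n]: psi_i m = sum_{j<I} tII (2^i) (2^j) al' 1 m with al' a = al a if a <= A, else 0 (a | m, b = m/a lies
in [1,2n], hence in exactly one [2^j, 2^(j+1))). Some j < I has n^2/D1 <= |TF n (tII (2^i) (2^j) al' 1) W f g|. ClassTwo C with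
K = 2^i <= A <= n^(1/4), D1^C <= K, K^2 D1^C <= K^3 <= n^(3/4) <= n, D1 >= D >= 2 (divisor hypothesis: hdiv) gives n/D1^C <= |ghat|.
Case 2: 2^i < D1^C. psi_i = psi (2^(i+1)) al'' with al'' a = al a if 2^i <= a < 2^(i+1) and a <= A, else 0. hone: n^2/(D I) <=
20 * 2^(i+1) (1 + log n) n |ghat| <= 40 D1^C (1+log n) n |ghat|, so |ghat| >= n/(40 D I (1+log n) D1^C).
In both cases, with D2 = 80 D (1+log n)^2: D1 <= 4 D (1+log n)^2 <= D2 and 40 D I (1+log n) <= D2, so |ghat| >= n/D2^(C+1).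
(TF n F only depends on F at the points x + y in [2, 2n]: Finset.sum_congr.)
-/
namespace Pool.Agent.H44W
open Finset

theorem m1_pigeon (I : ℕ) (hI : 1 ≤ I) (z : ℕ → ℂ) (x : ℝ) (h : x ≤ ‖∑ i ∈ range I, z i‖) :
    ∃ i < I, x / I ≤ ‖z i‖ := by
  by_contra hcon
  push Not at hcon
  have hI' : (0:ℝ) < I := by exact_mod_cast hI
  have h1 : ‖∑ i ∈ range I, z i‖ < x := by
    calc ‖∑ i ∈ range I, z i‖ ≤ ∑ i ∈ range I, ‖z i‖ := norm_sum_le _ _
      _ < ∑ _i ∈ range I, x / I := by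
          apply Finset.sum_lt_sum_of_nonempty
          · exact ⟨0, mem_range.2 (by omega)⟩
          · intro i hi
            exact hcon i (mem_range.1 hi)
      _ = x := by
          rw [Finset.sum_const, card_range, nsmul_eq_mul]
          field_simp
  linarith

theorem m1_dyadic (I : ℕ) (F : ℕ → ℂ) :
    ∑ j ∈ range I, ∑ b ∈ Ico (2 ^ j) (2 * 2 ^ j), F b = ∑ b ∈ Ico 1 (2 ^ I), F b := by
  induction I with
  | zero => simp
  | succ I ih =>
    rw [Finset.sum_range_succ, ih, show 2 * 2 ^ I = 2 ^ (I + 1) by ring]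
    exact Finset.sum_Ico_consecutive F Nat.one_le_two_pow (Nat.pow_le_pow_right (by norm_num) (by omega))

/-- the part of the coefficients with `Nat.log 2 a = i` -/
noncomputable def m1_al (A : ℕ) (al : ℕ → ℂ) (i a : ℕ) : ℂ :=
  if 1 ≤ a ∧ a ≤ A ∧ Nat.log 2 a = i then al a else 0

theorem m1_al_supp {A : ℕ} {al : ℕ → ℂ} {i a : ℕ} (h : m1_al A al i a ≠ 0) :
    1 ≤ a ∧ a ≤ A ∧ 2 ^ i ≤ a ∧ a < 2 ^ (i + 1) := by
  unfold m1_al at h
  by_cases h1 : 1 ≤ a ∧ a ≤ A ∧ Nat.log 2 a = i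
  · refine ⟨h1.1, h1.2.1, ?_, ?_⟩
    · rw [← h1.2.2]
      exact Nat.pow_log_le_self 2 (by omega)
    · rw [← h1.2.2]
      exact Nat.lt_pow_succ_log_self (by norm_num) a
  · rw [if_neg h1] at h
    exact absurd rfl h

theorem m1_split (A I : ℕ) (hAI : A < 2 ^ I) (al : ℕ → ℂ) (m : ℤ) :
    psi A al m = ∑ i ∈ range I, psi (2 ^ (i + 1)) (m1_al A al i) m := by
  have h1 : ∀ i ∈ range I, psi (2 ^ (i + 1)) (m1_al A al i) m =
      ∑ a ∈ Icc 1 A, if (a:ℤ) ∣ m then m1_al A al i a else 0 := by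
    intro i _
    unfold psi
    refine Finset.sum_congr_of_eq_on_inter ?_ ?_ ?_
    · intro a ha ha2
      by_contra h
      have h3 : m1_al A al i a ≠ 0 := by
        intro h0
        apply h
        rw [h0, ite_self]
      have := m1_al_supp h3
      exact ha2 (mem_Icc.2 ⟨this.1, this.2.1⟩)
    · intro a ha ha2
      by_contra h
      have h3 : m1_al A al i a ≠ 0 := by
        intro h0
        apply h
        rw [h0, ite_self]
      have := m1_al_supp h3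
      exact ha2 (mem_Icc.2 ⟨this.1, this.2.2.2.le⟩)
    · intro a _ _
      rfl
  rw [Finset.sum_congr rfl h1, Finset.sum_comm]
  unfold psi
  refine Finset.sum_congr rfl fun a ha => ?_
  rw [mem_Icc] at ha
  by_cases h : (a:ℤ) ∣ m
  · simp only [if_pos h]
    have h2 : ∀ i ∈ range I, m1_al A al i a = if Nat.log 2 a = i then al a else 0 := by
      intro i _
      unfold m1_al
      by_cases h3 : Nat.log 2 a = i
      · rw [if_pos h3, if_pos ⟨ha.1, ha.2, h3⟩]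
      · rw [if_neg h3, if_neg fun h4 => h3 h4.2.2]
    rw [Finset.sum_congr rfl h2, Finset.sum_ite_eq, if_pos]
    rw [mem_range]
    exact Nat.log_lt_of_lt_pow (by omega) (by omega)
  · simp only [if_neg h]
    simp

theorem m1_tII (n A I i : ℕ) (hI : 2 * n < 2 ^ I) (al : ℕ → ℂ) (m : ℤ) (hm1 : 2 ≤ m)
    (hm2 : m ≤ 2 * n) :
    psi (2 ^ (i + 1)) (m1_al A al i) m =
      ∑ j ∈ range I, tII (2 ^ i) (2 ^ j) (m1_al A al i) (fun _ => 1) m := by
  obtain ⟨k, rfl⟩ := Int.eq_ofNat_of_zero_le (show 0 ≤ m by omega)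
  have hk1 : 1 ≤ k := by omega
  have hk2 : k < 2 ^ I := by omega
  unfold tII
  rw [Finset.sum_comm]
  have h1 : ∀ a ∈ Ico (2 ^ i) (2 * 2 ^ i), ∑ j ∈ range I, ∑ b ∈ Ico (2 ^ j) (2 * 2 ^ j),
      (if ((a * b : ℕ) : ℤ) = (k:ℤ) then m1_al A al i a * 1 else 0) =
      if (a:ℤ) ∣ (k:ℤ) then m1_al A al i a else 0 := by
    intro a ha
    rw [mem_Ico] at ha
    have ha0 : 0 < a := lt_of_lt_of_le (by positivity) ha.1
    rw [m1_dyadic I (fun b => if ((a * b : ℕ) : ℤ) = (k:ℤ) then m1_al A al i a * 1 else 0)]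
    by_cases h : (a:ℤ) ∣ (k:ℤ)
    · rw [if_pos h]
      have h' : a ∣ k := by exact_mod_cast h
      obtain ⟨b, hb⟩ := h'
      have hb1 : 1 ≤ b := by
        rcases Nat.eq_zero_or_pos b with h0 | h0
        · rw [h0, mul_zero] at hb
          omega
        · exact h0
      have hb2 : b ≤ k := by rw [hb]; exact Nat.le_mul_of_pos_left b ha0
      rw [Finset.sum_eq_single b]
      · rw [if_pos (by rw [hb]), mul_one]
      · intro b' _ hb'
        rw [if_neg]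
        intro h2
        apply hb'
        have h3 : a * b' = a * b := by rw [← hb]; exact_mod_cast h2
        exact Nat.eq_of_mul_eq_mul_left ha0 h3
      · intro h2
        exact absurd (mem_Ico.2 ⟨hb1, by omega⟩) h2
    · rw [if_neg h]
      refine Finset.sum_eq_zero fun b _ => ?_
      rw [if_neg]
      intro h2
      apply h
      exact ⟨b, by rw [← h2]; push_cast; ring⟩
  rw [Finset.sum_congr rfl h1]
  unfold psi
  refine Finset.sum_congr_of_eq_on_inter ?_ ?_ ?_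
  · intro a ha ha2
    by_contra h
    have h3 : m1_al A al i a ≠ 0 := by
      intro h0
      apply h
      rw [h0, ite_self]
    have := m1_al_supp h3
    refine ha2 (mem_Ico.2 ⟨this.2.2.1, ?_⟩)
    have h4 : 2 * 2 ^ i = 2 ^ (i + 1) := by ring
    omega
  · intro a ha ha2
    by_contra h
    have h3 : m1_al A al i a ≠ 0 := by
      intro h0
      apply h
      rw [h0, ite_self]
    have := m1_al_supp h3
    exact ha2 (mem_Icc.2 ⟨this.1, this.2.2.2.le⟩)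
  · intro a _ _
    rfl

theorem psi_cf (C : ℕ) (h2 : ClassTwo C)
    (hone : ∀ (n A : ℕ) (al : ℕ → ℂ), 1 ≤ n → (∀ a, ‖al a‖ ≤ 1) → ∀ W f g : ℤ → ℂ,
      (∀ x, ‖W x‖ ≤ 1) → (∀ x, ‖f x‖ ≤ 1) → (∀ x, ‖g x‖ ≤ 1) →
      ∃ th : ℝ, ‖TF n (psi A al) W f g‖ ≤
        20 * A * (1 + Real.log n) * n * ‖∑ z ∈ Icc (1:ℤ) n, g z * ee (th * z)‖)
    (n A : ℕ) (hn : 2 ≤ n) (hA4 : (A:ℝ) ≤ (n:ℝ) ^ (1 / 4 : ℝ)) (D : ℝ) (hD : 2 ≤ D)
    (hdiv : ∀ m : ℕ, 1 ≤ m → m ≤ 2 * n → (m.divisors.card : ℝ) ≤ D)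
    (al : ℕ → ℂ) (hal : ∀ a, ‖al a‖ ≤ 1) (W f g : ℤ → ℂ) (hW : ∀ x, ‖W x‖ ≤ 1)
    (hf : ∀ x, ‖f x‖ ≤ 1) (hg : ∀ x, ‖g x‖ ≤ 1)
    (hT : (n:ℝ) ^ 2 / D ≤ ‖TF n (psi A al) W f g‖) :
    ∃ th : ℝ, (n:ℝ) / (80 * D * (1 + Real.log n) ^ 2) ^ (C + 1) ≤
      ‖∑ z ∈ Icc (1:ℤ) n, g z * ee (th * z)‖ := by
  obtain ⟨I, hId⟩ : ∃ I : ℕ, I = Nat.log 2 (2 * n) + 1 := ⟨_, rfl⟩
  have hI1 : 1 ≤ I := by omega
  have hI2 : 2 * n < 2 ^ I := by rw [hId]; exact Nat.lt_pow_succ_log_self (by norm_num) _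
  have hnR : (2:ℝ) ≤ n := by exact_mod_cast hn
  have hn0 : (0:ℝ) < n := by linarith
  have hlog : 0 ≤ Real.log n := Real.log_natCast_nonneg n
  have hI3 : (I:ℝ) ≤ 2 * (1 + Real.log n) := by
    have h1 : ((2:ℝ)) ^ (Nat.log 2 (2 * n)) ≤ 2 * n := by
      have := Nat.pow_log_le_self 2 (show 2 * n ≠ 0 by omega)
      exact_mod_cast this
    have h2 := Real.log_le_log (by positivity) h1
    rw [Real.log_pow, Real.log_mul (by norm_num) hn0.ne'] at h2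
    have h3 := Real.log_two_gt_d9
    have h4 : ((Nat.log 2 (2 * n) : ℕ):ℝ) ≤ 1 + 2 * Real.log n := by
      by_contra h5
      push Not at h5
      have h6 : (1 + 2 * Real.log n) * Real.log 2 < (Nat.log 2 (2 * n) : ℕ) * Real.log 2 :=
        mul_lt_mul_of_pos_right h5 (by linarith)
      have h7 : Real.log n * 1 ≤ Real.log n * (2 * Real.log 2) :=
        mul_le_mul_of_nonneg_left (by linarith) hlog
      nlinarith
    rw [hId]
    push_cast
    linarith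
  have hA0 : (A:ℝ) ≤ n := by
    refine hA4.trans ?_
    calc (n:ℝ) ^ (1 / 4 : ℝ) ≤ (n:ℝ) ^ (1:ℝ) :=
          Real.rpow_le_rpow_of_exponent_le (by linarith) (by norm_num)
      _ = n := Real.rpow_one _
  have hAn : A ≤ n := by exact_mod_cast hA0
  have hIR : (1:ℝ) ≤ I := by exact_mod_cast hI1
  have hD0 : 0 < D := by linarith
  -- first pigeonhole
  have e1 : TF n (psi A al) W f g = ∑ i ∈ range I, TF n (psi (2 ^ (i + 1)) (m1_al A al i)) W f g := by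
    rw [← Pool.Agent.H81E.TF_sum]
    exact Pool.Agent.H81E.TF_congr n W f g fun m _ _ => m1_split A I (by omega) al m
  rw [e1] at hT
  obtain ⟨i, hi, hTi⟩ := m1_pigeon I hI1 _ _ hT
  have hpos : 0 < (n:ℝ) ^ 2 / D / I := by positivity
  have hali : ∀ a, ‖m1_al A al i a‖ ≤ 1 := by
    intro a
    unfold m1_al
    by_cases h : 1 ≤ a ∧ a ≤ A ∧ Nat.log 2 a = i
    · rw [if_pos h]; exact hal a
    · rw [if_neg h, norm_zero]; exact zero_le_one
  have hiA : 2 ^ i ≤ A := by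
    by_contra hcon
    have h0 : ∀ a, m1_al A al i a = 0 := by
      intro a
      by_contra h
      have := m1_al_supp h
      omega
    have h1 : TF n (psi (2 ^ (i + 1)) (m1_al A al i)) W f g = 0 := by
      unfold TF psi
      simp only [h0]
      simp
    rw [h1, norm_zero] at hTi
    linarith
  obtain ⟨D1, hD1⟩ : ∃ D1, D1 = D * (I:ℝ) ^ 2 := ⟨_, rfl⟩
  obtain ⟨D2, hD2⟩ : ∃ D2, D2 = 80 * D * (1 + Real.log n) ^ 2 := ⟨_, rfl⟩
  have hDD1 : D ≤ D1 := by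
    rw [hD1]
    have : (1:ℝ) ≤ (I:ℝ) ^ 2 := one_le_pow₀ hIR
    nlinarith
  have hI4 : (I:ℝ) ^ 2 ≤ 4 * (1 + Real.log n) ^ 2 := by
    have := pow_le_pow_left₀ (by positivity) hI3 2
    calc (I:ℝ) ^ 2 ≤ (2 * (1 + Real.log n)) ^ 2 := this
      _ = 4 * (1 + Real.log n) ^ 2 := by ring
  have hD12 : D1 ≤ D2 := by
    rw [hD1, hD2]
    have h1 : D * (I:ℝ) ^ 2 ≤ D * (4 * (1 + Real.log n) ^ 2) := mul_le_mul_of_nonneg_left hI4 hD0.le
    have h2 : 0 ≤ D * (1 + Real.log n) ^ 2 := by positivity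
    linarith
  have hD21 : 1 ≤ D2 := by linarith
  have hD1p : 0 < D1 := by linarith
  have hD2p : 0 < D2 := by linarith
  rw [← hD2]
  by_cases hc : D1 ^ C ≤ ((2 ^ i : ℕ):ℝ)
  · -- case 1
    have e2 : TF n (psi (2 ^ (i + 1)) (m1_al A al i)) W f g =
        ∑ j ∈ range I, TF n (tII (2 ^ i) (2 ^ j) (m1_al A al i) (fun _ => 1)) W f g := by
      rw [← Pool.Agent.H81E.TF_sum]
      exact Pool.Agent.H81E.TF_congr n W f g fun m h1 h2 => m1_tII n A I i hI2 al m h1 h2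
    rw [e2] at hTi
    obtain ⟨j, hj, hTj⟩ := m1_pigeon I hI1 _ _ hTi
    have e3 : (n:ℝ) ^ 2 / D / I / I = (n:ℝ) ^ 2 / D1 := by
      rw [hD1]
      field_simp
    rw [e3] at hTj
    have hK1 : (1:ℝ) ≤ ((2 ^ i : ℕ):ℝ) := by exact_mod_cast Nat.one_le_two_pow
    have hK4 : ((2 ^ i : ℕ):ℝ) ≤ (n:ℝ) ^ (1 / 4 : ℝ) := le_trans (by exact_mod_cast hiA) hA4
    have hK : ((2 ^ i : ℕ):ℝ) ^ 4 ≤ n := by
      have h1 := pow_le_pow_left₀ (by positivity) hK4 4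
      have h2 : ((n:ℝ) ^ (1 / 4 : ℝ)) ^ 4 = n := by
        rw [← Real.rpow_natCast, ← Real.rpow_mul hn0.le]
        norm_num
      linarith
    have hK3 : ((2 ^ i : ℕ):ℝ) ^ 2 * D1 ^ C ≤ n := by
      calc ((2 ^ i : ℕ):ℝ) ^ 2 * D1 ^ C ≤ ((2 ^ i : ℕ):ℝ) ^ 2 * ((2 ^ i : ℕ):ℝ) :=
            mul_le_mul_of_nonneg_left hc (by positivity)
        _ = ((2 ^ i : ℕ):ℝ) ^ 3 := by ring
        _ ≤ ((2 ^ i : ℕ):ℝ) ^ 4 := pow_le_pow_right₀ hK1 (by norm_num)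
        _ ≤ n := hK
    obtain ⟨th, hth⟩ := h2 n (2 ^ i) (2 ^ j) D1 (by linarith) (fun m h1 h2 => (hdiv m h1 h2).trans hDD1)
      hc hK3 (m1_al A al i) (fun _ => 1) hali (by simp) W f g hW hf hg hTj
    refine ⟨th, le_trans ?_ hth⟩
    apply div_le_div_of_nonneg_left hn0.le (by positivity)
    calc D1 ^ C ≤ D2 ^ C := pow_le_pow_left₀ hD1p.le hD12 C
      _ ≤ D2 ^ (C + 1) := pow_le_pow_right₀ hD21 (by omega)
  · -- case 2
    push Not at hc
    obtain ⟨th, hth⟩ := hone n (2 ^ (i + 1)) (m1_al A al i) (by omega) hali W f g hW hf hg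
    refine ⟨th, ?_⟩
    obtain ⟨G, hG⟩ : ∃ G, G = ‖∑ z ∈ Icc (1:ℤ) n, g z * ee (th * z)‖ := ⟨_, rfl⟩
    rw [← hG] at hth ⊢
    have hG0 : 0 ≤ G := by rw [hG]; exact norm_nonneg _
    have h1 : (n:ℝ) ^ 2 / D / I ≤ 40 * D1 ^ C * (1 + Real.log n) * n * G := by
      refine hTi.trans (hth.trans ?_)
      have h2 : ((2 ^ (i + 1) : ℕ):ℝ) ≤ 2 * D1 ^ C := by
        have : ((2 ^ (i + 1) : ℕ):ℝ) = 2 * ((2 ^ i : ℕ):ℝ) := by push_cast; ring
        rw [this]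
        linarith
      calc 20 * ((2 ^ (i + 1) : ℕ):ℝ) * (1 + Real.log n) * n * G ≤
          20 * (2 * D1 ^ C) * (1 + Real.log n) * n * G := by gcongr
        _ = 40 * D1 ^ C * (1 + Real.log n) * n * G := by ring
    have h3 : (n:ℝ) ^ 2 ≤ (40 * D * I * (1 + Real.log n) * D1 ^ C) * n * G := by
      rw [div_div, div_le_iff₀ (by positivity)] at h1
      linarith
    have h4 : (n:ℝ) ≤ (40 * D * I * (1 + Real.log n) * D1 ^ C) * G := by
      have h5 : (n:ℝ) * n ≤ n * ((40 * D * I * (1 + Real.log n) * D1 ^ C) * G) := by nlinarith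
      exact le_of_mul_le_mul_left h5 hn0
    have h6 : 40 * D * I * (1 + Real.log n) ≤ D2 := by
      rw [hD2]
      have h7 : 40 * D * I * (1 + Real.log n) ≤ 40 * D * (2 * (1 + Real.log n)) * (1 + Real.log n) := by gcongr
      refine h7.trans (le_of_eq (by ring))
    have h8 : (40 * D * I * (1 + Real.log n)) * D1 ^ C ≤ D2 ^ (C + 1) := by
      rw [pow_succ, mul_comm (D2 ^ C)]
      apply mul_le_mul h6 (pow_le_pow_left₀ hD1p.le hD12 C) (by positivity) hD2p.le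
    rw [div_le_iff₀ (by positivity)]
    calc (n:ℝ) ≤ (40 * D * I * (1 + Real.log n) * D1 ^ C) * G := h4
      _ ≤ D2 ^ (C + 1) * G := mul_le_mul_of_nonneg_right h8 hG0
      _ = G * D2 ^ (C + 1) := mul_comm _ _

end Pool.Agent.H44W
end

-- from Lib.H44W.M3
section
/-!
CHUNK M3 (M). The factor lbox of the model: expansion in additive characters.
lboxr q .. m is lbox .. (m/q) written with log m - log q (so it makes sense for all m).
(a) lboxr_eq: for k >= 1, q >= 1: lboxr q A1 A2 B1 B2 (q k) = lbox A1 A2 B1 B2 k (Real.log_mul).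
(b) lbox_bd: 0 <= lbox <= 1 if A2 <= 2 A1, 1 <= A1 (min (log A2) .. - max (log A1) .. <= log A2 - log A1 <= log 2 <= 1; for A2 = 0 use
log 0 = 0). The same for lboxr.
(c) lbox_empty: if A2 < A1 (or B2 < B1) then lbox = 0, and lboxr = 0: (min (log A2) s2 - max (log A1) s1 <= log A2 - log A1 <= 0; for
B2 < B1, B2 >= 1: s2 - s1 = log B2 - log B1 <= 0; if B2 = 0, log B2 = 0 <= log B1.)
(d) lboxr_rep: put a1 = log A1 <= a2 = log A2, s1(m) = log m - log q - log B2 <= s2(m) = log m - log q - log B1 and cl s = min a2 (max a1 s).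
Then max 0 (min a2 s2 - max a1 s1) = cl s2 - cl s1 (case distinction; a1 <= a2, s1 <= s2). cl s2(m) and cl s1(m) are increasing in
m >= 1 with values in [a1, a2], so sum over j < 2n of |F (j+3) - F (j+2)| <= 2 (a2 - a1) <= 2 log 2 <= 2 (telescoping, Finset.sum_range_sub).
Rep.bv (H81E): Rep n (|F 2| + (3 + log n) * 2) F, and |F 2| <= 1: 1 + 2 (3 + log n) <= 7 (1 + log n).
-/
namespace Pool.Agent.H44W
open Finset

/-- lbox at m/q. -/
noncomputable def lboxr (q A1 A2 B1 B2 : ℕ) (m : ℤ) : ℝ :=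
  max 0 (min (Real.log A2) (Real.log m - Real.log q - Real.log B1) -
    max (Real.log A1) (Real.log m - Real.log q - Real.log B2))

theorem lboxr_eq (q A1 A2 B1 B2 k : ℕ) (hq : 1 ≤ q) (hk : 1 ≤ k) :
    lboxr q A1 A2 B1 B2 ((q:ℤ) * k) = Pool.Agent.Lib.H21T.lbox A1 A2 B1 B2 k := by
  unfold lboxr Pool.Agent.Lib.H21T.lbox
  have hq0 : (q : ℝ) ≠ 0 := by
    have : (1 : ℝ) ≤ q := by exact_mod_cast hq
    positivity
  have hk0 : (k : ℝ) ≠ 0 := by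
    have : (1 : ℝ) ≤ k := by exact_mod_cast hk
    positivity
  have h1 : Real.log (((q : ℤ) * k : ℤ) : ℝ) - Real.log q = Real.log k := by
    push_cast
    rw [Real.log_mul hq0 hk0]
    ring
  rw [h1]

theorem m3_logle (A B : ℕ) (hB : 1 ≤ B) (h : A ≤ B) : Real.log A ≤ Real.log B := by
  rcases Nat.eq_zero_or_pos A with hA | hA
  · rw [hA, Nat.cast_zero, Real.log_zero]
    exact Real.log_nonneg (by exact_mod_cast hB)
  · exact Real.log_le_log (by exact_mod_cast hA) (by exact_mod_cast h)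

theorem m3_two (A1 A2 : ℕ) (hA : 1 ≤ A1) (hA2 : A2 ≤ 2 * A1) : Real.log A2 - Real.log A1 ≤ 1 := by
  have h1 := m3_logle A2 (2 * A1) (by omega) hA2
  have hA0 : (A1 : ℝ) ≠ 0 := by
    have : (1 : ℝ) ≤ A1 := by exact_mod_cast hA
    positivity
  have h2 : Real.log ((2 * A1 : ℕ) : ℝ) = Real.log 2 + Real.log A1 := by
    push_cast
    rw [Real.log_mul two_ne_zero hA0]
  have h3 : Real.log 2 < 0.6931471808 := Real.log_two_lt_d9
  rw [h2] at h1
  linarith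

theorem m3_cl (a1 a2 s1 s2 : ℝ) (ha : a1 ≤ a2) (hs : s1 ≤ s2) :
    max 0 (min a2 s2 - max a1 s1) = min a2 (max a1 s2) - min a2 (max a1 s1) := by
  rcases le_total s2 a1 with h1 | h1
  · rw [max_eq_left h1, max_eq_left (hs.trans h1), sub_self]
    refine max_eq_left ?_
    have := min_le_right a2 s2
    linarith
  · rw [max_eq_right h1]
    rcases le_total a2 s1 with h2 | h2
    · rw [max_eq_right (ha.trans h2), min_eq_left h2, min_eq_left (h2.trans hs), sub_self]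
      exact max_eq_left (by linarith)
    · rw [min_eq_right (max_le ha h2)]
      refine max_eq_right (sub_nonneg.2 ?_)
      exact le_min (max_le ha h2) (max_le h1 hs)

theorem m3_sum (G : ℕ → ℝ) (a1 a2 : ℝ) (hmono : ∀ j, G j ≤ G (j + 1)) (h1 : a1 ≤ G 0) (h2 : ∀ j, G j ≤ a2) (N : ℕ) :
    ∑ j ∈ range N, |G (j + 1) - G j| ≤ a2 - a1 := by
  have h3 : ∀ j ∈ range N, |G (j + 1) - G j| = G (j + 1) - G j := fun j _ => abs_of_nonneg (by linarith [hmono j])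
  rw [sum_congr rfl h3, sum_range_sub]
  linarith [h2 N]

theorem lbox_bd (A1 A2 B1 B2 k : ℕ) (hA : 1 ≤ A1) (hA2 : A2 ≤ 2 * A1) :
    0 ≤ Pool.Agent.Lib.H21T.lbox A1 A2 B1 B2 k ∧ Pool.Agent.Lib.H21T.lbox A1 A2 B1 B2 k ≤ 1 := by
  unfold Pool.Agent.Lib.H21T.lbox
  refine ⟨le_max_left _ _, max_le zero_le_one ?_⟩
  have h1 := m3_two A1 A2 hA hA2
  have h2 := min_le_left (Real.log A2) (Real.log k - Real.log B1)
  have h3 := le_max_left (Real.log A1) (Real.log k - Real.log B2)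
  linarith

theorem lbox_empty (A1 A2 B1 B2 k : ℕ) (hA : 1 ≤ A1) (hB : 1 ≤ B1) (h : A2 < A1 ∨ B2 < B1) :
    Pool.Agent.Lib.H21T.lbox A1 A2 B1 B2 k = 0 := by
  unfold Pool.Agent.Lib.H21T.lbox
  refine max_eq_left ?_
  rcases h with h | h
  · have h1 := m3_logle A2 A1 hA h.le
    have h2 := min_le_left (Real.log A2) (Real.log k - Real.log B1)
    have h3 := le_max_left (Real.log A1) (Real.log k - Real.log B2)
    linarith
  · have h1 := m3_logle B2 B1 hB h.le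
    have h2 := min_le_right (Real.log A2) (Real.log k - Real.log B1)
    have h3 := le_max_right (Real.log A1) (Real.log k - Real.log B2)
    linarith

theorem lboxr_rep (n q A1 A2 B1 B2 : ℕ) (hn : 1 ≤ n) (hq : 1 ≤ q) (hA : 1 ≤ A1) (hA1 : A1 ≤ A2)
    (hA2 : A2 ≤ 2 * A1) (hB : 1 ≤ B1) (hB1 : B1 ≤ B2) :
    Pool.Agent.H81E.Rep n (7 * (1 + Real.log n)) (fun m => ((lboxr q A1 A2 B1 B2 m : ℝ) : ℂ)) := by
  have ha : Real.log A1 ≤ Real.log A2 := m3_logle A1 A2 (hA.trans hA1) hA1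
  have hb : Real.log B1 ≤ Real.log B2 := m3_logle B1 B2 (hB.trans hB1) hB1
  have h2 := m3_two A1 A2 hA hA2
  have hcl : ∀ m : ℤ, lboxr q A1 A2 B1 B2 m =
      min (Real.log A2) (max (Real.log A1) (Real.log m - Real.log q - Real.log B1)) -
      min (Real.log A2) (max (Real.log A1) (Real.log m - Real.log q - Real.log B2)) := by
    intro m
    unfold lboxr
    exact m3_cl _ _ _ _ ha (by linarith)
  have hbd : ∀ m : ℤ, |lboxr q A1 A2 B1 B2 m| ≤ 1 := by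
    intro m
    have h3 : 0 ≤ lboxr q A1 A2 B1 B2 m := le_max_left _ _
    rw [abs_of_nonneg h3, hcl]
    have h4 := min_le_left (Real.log A2) (max (Real.log A1) (Real.log m - Real.log q - Real.log B1))
    have h5 : Real.log A1 ≤ min (Real.log A2) (max (Real.log A1) (Real.log m - Real.log q - Real.log B2)) :=
      le_min ha (le_max_left _ _)
    linarith
  have hv : ∀ B : ℕ, ∑ j ∈ range (2 * n),
      |min (Real.log A2) (max (Real.log A1) (Real.log (((j : ℤ) + 3 : ℤ) : ℝ) - Real.log q - Real.log B)) -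
        min (Real.log A2) (max (Real.log A1) (Real.log (((j : ℤ) + 2 : ℤ) : ℝ) - Real.log q - Real.log B))| ≤ 1 := by
    intro B
    have h3 := m3_sum (fun j : ℕ => min (Real.log A2) (max (Real.log A1) (Real.log (((j : ℤ) + 2 : ℤ) : ℝ) -
      Real.log q - Real.log B))) (Real.log A1) (Real.log A2) (by
        intro j
        have h4 : Real.log (((j : ℤ) + 2 : ℤ) : ℝ) ≤ Real.log ((((j + 1 : ℕ) : ℤ) + 2 : ℤ) : ℝ) := by
          refine Real.log_le_log ?_ ?_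
          · push_cast
            positivity
          · push_cast
            linarith
        exact min_le_min le_rfl (max_le_max le_rfl (by linarith)))
      (le_min ha (le_max_left _ _)) (fun j => min_le_left _ _) (2 * n)
    refine le_trans (le_of_eq (sum_congr rfl fun j _ => ?_)) (h3.trans h2)
    have e1 : ((j : ℤ) + 3 : ℤ) = (((j + 1 : ℕ) : ℤ) + 2 : ℤ) := by
      push_cast
      ring
    rw [e1]
  have hbv := Pool.Agent.H81E.Rep.bv n hn (fun m => ((lboxr q A1 A2 B1 B2 m : ℝ) : ℂ))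
  refine hbv.mono ?_
  have hlog : 0 ≤ Real.log n := Real.log_nonneg (by exact_mod_cast hn)
  have h5 : ‖((lboxr q A1 A2 B1 B2 2 : ℝ) : ℂ)‖ ≤ 1 := by
    rw [Complex.norm_real, Real.norm_eq_abs]
    exact hbd 2
  have h6 : ∑ j ∈ range (2 * n), ‖((lboxr q A1 A2 B1 B2 ((j : ℤ) + 3) : ℝ) : ℂ) -
      ((lboxr q A1 A2 B1 B2 ((j : ℤ) + 2) : ℝ) : ℂ)‖ ≤ 2 := by
    have h7 : ∀ j ∈ range (2 * n), ‖((lboxr q A1 A2 B1 B2 ((j : ℤ) + 3) : ℝ) : ℂ) -
        ((lboxr q A1 A2 B1 B2 ((j : ℤ) + 2) : ℝ) : ℂ)‖ ≤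
        |min (Real.log A2) (max (Real.log A1) (Real.log (((j : ℤ) + 3 : ℤ) : ℝ) - Real.log q - Real.log B1)) -
          min (Real.log A2) (max (Real.log A1) (Real.log (((j : ℤ) + 2 : ℤ) : ℝ) - Real.log q - Real.log B1))| +
        |min (Real.log A2) (max (Real.log A1) (Real.log (((j : ℤ) + 3 : ℤ) : ℝ) - Real.log q - Real.log B2)) -
          min (Real.log A2) (max (Real.log A1) (Real.log (((j : ℤ) + 2 : ℤ) : ℝ) - Real.log q - Real.log B2))| := by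
      intro j _
      rw [← Complex.ofReal_sub, Complex.norm_real, Real.norm_eq_abs, hcl, hcl]
      generalize min (Real.log A2) (max (Real.log A1) (Real.log (((j : ℤ) + 3 : ℤ) : ℝ) - Real.log q - Real.log B1)) = w1
      generalize min (Real.log A2) (max (Real.log A1) (Real.log (((j : ℤ) + 3 : ℤ) : ℝ) - Real.log q - Real.log B2)) = w2
      generalize min (Real.log A2) (max (Real.log A1) (Real.log (((j : ℤ) + 2 : ℤ) : ℝ) - Real.log q - Real.log B1)) = w3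
      generalize min (Real.log A2) (max (Real.log A1) (Real.log (((j : ℤ) + 2 : ℤ) : ℝ) - Real.log q - Real.log B2)) = w4
      have e1 : w1 - w2 - (w3 - w4) = (w1 - w3) - (w2 - w4) := by ring
      rw [e1]
      exact abs_sub _ _
    refine (sum_le_sum h7).trans ?_
    rw [sum_add_distrib]
    linarith [hv B1, hv B2]
  have h8 := mul_le_mul_of_nonneg_left h6 (by linarith : 0 ≤ 3 + Real.log n)
  linarith

end Pool.Agent.H44W
end

-- from Lib.H44W.W2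
section
/-!
H44W: the model of the near-diagonal piece with cofactor q.
-/
namespace Pool.Agent.H44W
open Finset

/-- Model of pd q (Ico A1 A2) (Ico B1 B2). -/
noncomputable def Mq (Q A1 A2 B1 B2 q : ℕ) (m : ℤ) : ℂ :=
  if (q:ℤ) ∣ m then ((Pool.Agent.Lib.H21T.Mbox Q A1 A2 B1 B2 (m / q).toNat : ℝ) : ℂ) else 0

end Pool.Agent.H44W
end

-- from Lib.H44W.M4
section
/-!
CHUNK M4 (M). The local bound (hX) for pd q - Mq from D34.
(a) pd_eq: for m >= 1, q >= 1: pd q (Ico A1 A2) (Ico B1 B2) m = dbox A1 A2 B1 B2 (m/q) if q | m, else 0 (the pairs (a,b) of integers >= 0;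
m = q k: q a b = q k iff a b = k; card of the image under the cast N x N -> Z x Z).
(b) hX_of: the hypothesis h34 is the conclusion of H21T.D34 for N = 2n (with Q = floor((2n)^ep)). Let q >= 1.
Case q A1 B1 > 2n: for m in [u, v), m <= 2n: if q | m then k = m/q < A1 B1 and dbox = 0 = lbox (H21T.z0_low, or directly): the sum is 0.
Case A2 < A1 or B2 < B1: dbox = 0 (empty Ico) and lbox = 0 (lbox_empty): the sum is 0.
Case q A1 B1 <= 2n, A1 <= A2, B1 <= B2: A1 B1 <= 2n = N. With m = q k the sum is the sum over k in Ico u' v', u' = ceil(u/q), v' = ceil(v/q), of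
(dbox - Mbox)(k) ee((th q) k), v' - u' <= (v - u)/q + 1 <= 2l + 1. Let H0 = l (>= N^(1/2 - ka) by hl). Sum over Ico u' v' =
sum over Ico u' (v' + l) - sum over Ico v' (v' + l): both intervals have length >= l >= N^(1/2-ka), so the norm is
<= ((v' - u' + l) + l) N^(-ep/2) <= (2l + 1 + 2l) N^(-ep/2) <= 5 l (2n)^(-ep/2) <= l (5 n^(-ep/2)).
-/
namespace Pool.Agent.H44W
open Finset

open Pool.Agent.Lib.H21T (dbox Mbox lbox)

theorem pd_eq (q A1 A2 B1 B2 : ℕ) (hq : 1 ≤ q) (m : ℤ) (hm : 1 ≤ m) :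
    pd q (Ico (A1:ℤ) A2) (Ico (B1:ℤ) B2) m =
      if (q:ℤ) ∣ m then (Pool.Agent.Lib.H21T.dbox A1 A2 B1 B2 (m / q).toNat : ℂ) else 0 := by
  unfold pd
  have hq0 : (0:ℤ) < q := by exact_mod_cast hq
  by_cases h : (q:ℤ) ∣ m
  · rw [if_pos h]
    obtain ⟨k, rfl⟩ := h
    have hk : 0 < k := by
      by_contra h0
      have : (q:ℤ) * k ≤ 0 := mul_nonpos_of_nonneg_of_nonpos hq0.le (not_lt.1 h0)
      omega
    rw [Int.mul_ediv_cancel_left k hq0.ne']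
    congr 1
    unfold Pool.Agent.Lib.H21T.dbox
    symm
    refine Finset.card_bij (fun (p : ℕ × ℕ) _ => ((p.1:ℤ), (p.2:ℤ))) ?_ ?_ ?_
    · intro p hp
      rw [mem_filter, mem_product, mem_Ico, mem_Ico] at hp
      rw [mem_filter, mem_product, mem_Ico, mem_Ico]
      refine ⟨⟨⟨Int.ofNat_le.2 hp.1.1.1, Int.ofNat_lt.2 hp.1.1.2⟩, Int.ofNat_le.2 hp.1.2.1, Int.ofNat_lt.2 hp.1.2.2⟩, ?_⟩
      have h2 : ((p.1 * p.2 : ℕ):ℤ) = k := by rw [hp.2]; omega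
      push_cast at h2
      show (q:ℤ) * (p.1:ℤ) * (p.2:ℤ) = q * k
      rw [mul_assoc, h2]
    · intro p _ p' _ hpp
      have h1 : (p.1:ℤ) = p'.1 := congrArg Prod.fst hpp
      have h2 : (p.2:ℤ) = p'.2 := congrArg Prod.snd hpp
      exact Prod.ext (by exact_mod_cast h1) (by exact_mod_cast h2)
    · intro p hp
      rw [mem_filter, mem_product, mem_Ico, mem_Ico] at hp
      obtain ⟨⟨⟨h1, h2⟩, h3, h4⟩, h5⟩ := hp
      have hp1 : 0 ≤ p.1 := le_trans (by positivity) h1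
      have hp2 : 0 ≤ p.2 := le_trans (by positivity) h3
      obtain ⟨a, ha⟩ := Int.eq_ofNat_of_zero_le hp1
      obtain ⟨b, hb⟩ := Int.eq_ofNat_of_zero_le hp2
      refine ⟨(a, b), ?_, Prod.ext ha.symm hb.symm⟩
      rw [mem_filter, mem_product, mem_Ico, mem_Ico]
      rw [ha] at h1 h2
      rw [hb] at h3 h4
      refine ⟨⟨⟨by exact_mod_cast h1, by exact_mod_cast h2⟩, by exact_mod_cast h3, by exact_mod_cast h4⟩, ?_⟩
      rw [ha, hb, mul_assoc] at h5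
      have h6 : ((a:ℤ)) * b = k := mul_left_cancel₀ hq0.ne' h5
      have h7 : ((a * b : ℕ):ℤ) = k := by push_cast; exact h6
      show a * b = k.toNat
      omega
  · rw [if_neg h]
    have : ((Ico (A1:ℤ) A2 ×ˢ Ico (B1:ℤ) B2).filter (fun p => (q:ℤ) * p.1 * p.2 = m)) = ∅ := by
      rw [Finset.filter_eq_empty_iff]
      intro p _ h1
      exact h ⟨p.1 * p.2, by rw [← h1, mul_assoc]⟩
    rw [this]
    simp

theorem m4_dbox_empty (A1 A2 B1 B2 k : ℕ) (h : A2 < A1 ∨ B2 < B1) : dbox A1 A2 B1 B2 k = 0 := by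
  unfold Pool.Agent.Lib.H21T.dbox
  rw [Finset.card_eq_zero, Finset.filter_eq_empty_iff]
  intro p hp
  rw [mem_product, mem_Ico, mem_Ico] at hp
  rcases h with h | h <;> omega

theorem m4_dbox_low (A1 A2 B1 B2 k : ℕ) (h : k < A1 * B1) : dbox A1 A2 B1 B2 k = 0 := by
  unfold Pool.Agent.Lib.H21T.dbox
  rw [Finset.card_eq_zero, Finset.filter_eq_empty_iff]
  intro p hp h1
  rw [mem_product, mem_Ico, mem_Ico] at hp
  have : A1 * B1 ≤ p.1 * p.2 := Nat.mul_le_mul hp.1.1 hp.2.1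
  omega

theorem m4_lbox_low (A1 A2 B1 B2 k : ℕ) (hA : 1 ≤ A1) (hB : 1 ≤ B1) (h : k < A1 * B1) :
    lbox A1 A2 B1 B2 k = 0 := by
  unfold Pool.Agent.Lib.H21T.lbox
  apply max_eq_left
  have hA' : (0:ℝ) < A1 := by exact_mod_cast hA
  have hB' : (0:ℝ) < B1 := by exact_mod_cast hB
  have h1 : Real.log k ≤ Real.log A1 + Real.log B1 := by
    rw [← Real.log_mul hA'.ne' hB'.ne']
    rcases Nat.eq_zero_or_pos k with h0 | h0
    · rw [h0, Nat.cast_zero, Real.log_zero]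
      apply Real.log_nonneg
      have : 1 ≤ A1 * B1 := by omega
      exact_mod_cast this
    · apply Real.log_le_log (by exact_mod_cast h0)
      exact_mod_cast h.le
  have h2 : min (Real.log A2) (Real.log k - Real.log B1) ≤ Real.log k - Real.log B1 := min_le_right _ _
  have h3 : Real.log A1 ≤ max (Real.log A1) (Real.log k - Real.log B2) := le_max_left _ _
  linarith

theorem hX_of (ka ep : ℝ) (n Q A1 A2 B1 B2 l q : ℕ) (hn : 1 ≤ n) (hep : 0 < ep) (hl1 : 1 ≤ l)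
    (hA : 1 ≤ A1) (hB : 1 ≤ B1) (hq : 1 ≤ q) (hA2 : A2 ≤ 2 * A1) (hB2 : B2 ≤ 2 * B1)
    (h34 : A1 ≤ A2 → B1 ≤ B2 → A1 * B1 ≤ 2 * n → ∀ (x H : ℕ) (α : ℝ),
      ((2 * n : ℕ):ℝ) ^ (1 / 2 - ka) ≤ H →
      ‖∑ m ∈ Ico x (x + H), ((Pool.Agent.Lib.H21T.dbox A1 A2 B1 B2 m : ℂ) -
        (Pool.Agent.Lib.H21T.Mbox Q A1 A2 B1 B2 m : ℂ)) * ee (α * m)‖ ≤
        H * ((2 * n : ℕ):ℝ) ^ (-(ep / 2)))
    (hl : ((2 * n : ℕ):ℝ) ^ (1 / 2 - ka) ≤ l)
    (u v : ℤ) (hu : 1 ≤ u) (huv : u ≤ v) (hv : v ≤ 2 * n + 1) (hvu : v - u ≤ 2 * l) (th : ℝ) :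
    ‖∑ m ∈ Ico u v, (pd q (Ico (A1:ℤ) A2) (Ico (B1:ℤ) B2) m - Mq Q A1 A2 B1 B2 q m) *
      ee (th * m)‖ ≤ l * (5 * (n:ℝ) ^ (-(ep / 2))) := by
  have hq0 : (0:ℤ) < q := by exact_mod_cast hq
  -- the difference as a function of k = m / q
  have hdiff : ∀ m : ℤ, 1 ≤ m → pd q (Ico (A1:ℤ) A2) (Ico (B1:ℤ) B2) m - Mq Q A1 A2 B1 B2 q m =
      if (q:ℤ) ∣ m then ((dbox A1 A2 B1 B2 (m / q).toNat : ℂ) - (Mbox Q A1 A2 B1 B2 (m / q).toNat : ℂ)) else 0 := by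
    intro m hm
    rw [pd_eq q A1 A2 B1 B2 hq m hm, Mq]
    by_cases h : (q:ℤ) ∣ m
    · rw [if_pos h, if_pos h, if_pos h]
    · rw [if_neg h, if_neg h, if_neg h, sub_zero]
  have hR0 : 0 ≤ (l:ℝ) * (5 * (n:ℝ) ^ (-(ep / 2))) := by positivity
  have hzero : (∀ k : ℕ, q * k ≤ 2 * n → dbox A1 A2 B1 B2 k = 0 ∧ lbox A1 A2 B1 B2 k = 0) →
      ‖∑ m ∈ Ico u v, (pd q (Ico (A1:ℤ) A2) (Ico (B1:ℤ) B2) m - Mq Q A1 A2 B1 B2 q m) *
      ee (th * m)‖ ≤ l * (5 * (n:ℝ) ^ (-(ep / 2))) := by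
    intro hz
    have : ∑ m ∈ Ico u v, (pd q (Ico (A1:ℤ) A2) (Ico (B1:ℤ) B2) m - Mq Q A1 A2 B1 B2 q m) * ee (th * m) = 0 := by
      refine Finset.sum_eq_zero fun m hm => ?_
      rw [mem_Ico] at hm
      rw [hdiff m (by omega)]
      by_cases h : (q:ℤ) ∣ m
      · rw [if_pos h]
        obtain ⟨k, rfl⟩ := h
        rw [Int.mul_ediv_cancel_left k hq0.ne']
        have hk : 0 < k := by
          by_contra h0
          have : (q:ℤ) * k ≤ 0 := mul_nonpos_of_nonneg_of_nonpos hq0.le (not_lt.1 h0)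
          omega
        have h1 : q * k.toNat ≤ 2 * n := by
          have h2 : ((q * k.toNat : ℕ):ℤ) = q * k := by
            push_cast
            rw [Int.toNat_of_nonneg hk.le]
          omega
        obtain ⟨h3, h4⟩ := hz k.toNat h1
        rw [h3, Pool.Agent.Lib.H21T.Mbox, h4]
        simp
      · rw [if_neg h, zero_mul]
    rw [this, norm_zero]
    exact hR0
  by_cases c1 : A1 ≤ A2 ∧ B1 ≤ B2
  swap
  · apply hzero
    intro k _
    have c2 : A2 < A1 ∨ B2 < B1 := by omega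
    exact ⟨m4_dbox_empty A1 A2 B1 B2 k c2, lbox_empty A1 A2 B1 B2 k hA hB c2⟩
  by_cases c2 : q * (A1 * B1) ≤ 2 * n
  swap
  · apply hzero
    intro k hk
    have c3 : k < A1 * B1 := by
      by_contra h0
      have : q * (A1 * B1) ≤ q * k := Nat.mul_le_mul_left q (not_lt.1 h0)
      omega
    exact ⟨m4_dbox_low A1 A2 B1 B2 k c3, m4_lbox_low A1 A2 B1 B2 k hA hB c3⟩
  have c3 : A1 * B1 ≤ 2 * n := le_trans (Nat.le_mul_of_pos_left _ hq) c2
  have h35 := h34 c1.1 c1.2 c3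
  -- change of variables m = q k
  obtain ⟨U, hU⟩ : ∃ U : ℕ, U = (u.toNat + q - 1) / q := ⟨_, rfl⟩
  obtain ⟨V, hV⟩ : ∃ V : ℕ, V = (v.toNat + q - 1) / q := ⟨_, rfl⟩
  have hmem : ∀ k : ℕ, (U ≤ k ∧ k < V) ↔ (u ≤ (q:ℤ) * k ∧ (q:ℤ) * k < v) := by
    intro k
    have e1 : U ≤ k ↔ u.toNat ≤ q * k := by
      rw [hU, Nat.div_le_iff_le_mul_add_pred hq]
      omega
    have e2 : V ≤ k ↔ v.toNat ≤ q * k := by
      rw [hV, Nat.div_le_iff_le_mul_add_pred hq]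
      omega
    have e3 : ((q * k : ℕ):ℤ) = (q:ℤ) * k := by push_cast; ring
    constructor
    · rintro ⟨h1, h2⟩
      have h3 := e1.1 h1
      have h4 : ¬ (v.toNat ≤ q * k) := fun h => absurd (e2.2 h) (by omega)
      constructor
      · rw [← e3]; omega
      · rw [← e3]; omega
    · rintro ⟨h1, h2⟩
      rw [← e3] at h1 h2
      constructor
      · exact e1.2 (by omega)
      · by_contra h0
        have := e2.1 (by omega)
        omega
  have hUV : U ≤ V := by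
    rw [hU, hV]
    apply Nat.div_le_div_right
    omega
  have hVU : V ≤ U + 2 * l + 1 := by
    have e1 : V ≤ U + 2 * l + 1 ↔ v.toNat + q - 1 ≤ q * (U + 2 * l + 1) + (q - 1) := by
      rw [hV, Nat.div_le_iff_le_mul_add_pred hq]
    rw [e1]
    have e2 : u.toNat ≤ q * U := by
      have : U ≤ U := le_refl _
      rw [hU, Nat.div_le_iff_le_mul_add_pred hq, ← hU] at this
      omega
    have e3 : q * (U + 2 * l + 1) = q * U + q * (2 * l + 1) := by ring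
    have e4 : 2 * l + 1 ≤ q * (2 * l + 1) := Nat.le_mul_of_pos_left _ hq
    have e5 : v.toNat ≤ u.toNat + 2 * l := by omega
    rw [e3]
    omega
  obtain ⟨Fk, hFk⟩ : ∃ Fk : ℕ → ℂ, Fk = fun k => ((dbox A1 A2 B1 B2 k : ℂ) - (Mbox Q A1 A2 B1 B2 k : ℂ)) * ee (th * q * k) := ⟨_, rfl⟩
  have hsum : ∑ m ∈ Ico u v, (pd q (Ico (A1:ℤ) A2) (Ico (B1:ℤ) B2) m - Mq Q A1 A2 B1 B2 q m) * ee (th * m) =
      ∑ k ∈ Ico U V, Fk k := by
    have e1 : ∑ m ∈ Ico u v, (pd q (Ico (A1:ℤ) A2) (Ico (B1:ℤ) B2) m - Mq Q A1 A2 B1 B2 q m) * ee (th * m) =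
        ∑ m ∈ (Ico u v).filter (fun m => (q:ℤ) ∣ m), Fk (m / q).toNat := by
      rw [Finset.sum_filter]
      refine Finset.sum_congr rfl fun m hm => ?_
      rw [mem_Ico] at hm
      rw [hdiff m (by omega)]
      by_cases h : (q:ℤ) ∣ m
      · rw [if_pos h, if_pos h, hFk]
        obtain ⟨k, rfl⟩ := h
        rw [Int.mul_ediv_cancel_left k hq0.ne']
        have hk : 0 < k := by
          by_contra h0
          have : (q:ℤ) * k ≤ 0 := mul_nonpos_of_nonneg_of_nonpos hq0.le (not_lt.1 h0)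
          omega
        have hk2 : ((k.toNat : ℕ) : ℝ) = (k:ℝ) := by
          have : ((k.toNat : ℕ) : ℤ) = k := Int.toNat_of_nonneg hk.le
          exact_mod_cast congrArg (fun z : ℤ => (z:ℝ)) this
        simp only
        rw [hk2]
        congr 2
        push_cast
        ring
      · rw [if_neg h, if_neg h, zero_mul]
    rw [e1]
    symm
    refine Finset.sum_bij (fun (k : ℕ) _ => (q:ℤ) * k) ?_ ?_ ?_ ?_
    · intro k hk
      rw [mem_Ico] at hk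
      rw [mem_filter, mem_Ico]
      exact ⟨(hmem k).1 hk, dvd_mul_right _ _⟩
    · intro a _ b _ hab
      have := mul_left_cancel₀ hq0.ne' hab
      exact_mod_cast this
    · intro m hm
      rw [mem_filter, mem_Ico] at hm
      obtain ⟨hm1, k, rfl⟩ := hm
      have hk : 0 < k := by
        by_contra h0
        have : (q:ℤ) * k ≤ 0 := mul_nonpos_of_nonneg_of_nonpos hq0.le (not_lt.1 h0)
        omega
      obtain ⟨k', hk'⟩ := Int.eq_ofNat_of_zero_le hk.le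
      refine ⟨k', ?_, by rw [hk']⟩
      rw [mem_Ico, hmem k']
      rw [hk'] at hm1
      exact hm1
    · intro k _
      rw [Int.mul_ediv_cancel_left _ hq0.ne', Int.toNat_natCast]
  rw [hsum]
  have hsplit : ∑ k ∈ Ico U V, Fk k = ∑ k ∈ Ico U (U + (V - U + l)), Fk k - ∑ k ∈ Ico V (V + l), Fk k := by
    have e1 : U + (V - U + l) = V + l := by omega
    rw [e1, ← Finset.sum_Ico_consecutive Fk hUV (by omega : V ≤ V + l), add_sub_cancel_right]
  have hFsum : ∀ x H : ℕ, ((2 * n : ℕ):ℝ) ^ (1 / 2 - ka) ≤ H →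
      ‖∑ k ∈ Ico x (x + H), Fk k‖ ≤ H * ((2 * n : ℕ):ℝ) ^ (-(ep / 2)) := by
    intro x H hH
    rw [hFk]
    exact h35 x H (th * q) hH
  have b1 := hFsum U (V - U + l) (hl.trans (by exact_mod_cast (by omega : l ≤ V - U + l)))
  have b2 := hFsum V l hl
  have hpow : ((2 * n : ℕ):ℝ) ^ (-(ep / 2)) ≤ (n:ℝ) ^ (-(ep / 2)) := by
    apply Real.rpow_le_rpow_of_nonpos
    · exact_mod_cast hn
    · exact_mod_cast (by omega : n ≤ 2 * n)
    · linarith
  have hp0 : 0 ≤ ((2 * n : ℕ):ℝ) ^ (-(ep / 2)) := Real.rpow_nonneg (Nat.cast_nonneg _) _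
  rw [hsplit]
  refine (norm_sub_le _ _).trans ((add_le_add b1 b2).trans ?_)
  have h7 : ((V - U + l : ℕ):ℝ) + l ≤ 5 * l := by
    have : (V - U + l) + l ≤ 5 * l := by omega
    exact_mod_cast this
  calc ((V - U + l : ℕ):ℝ) * ((2 * n : ℕ):ℝ) ^ (-(ep / 2)) + l * ((2 * n : ℕ):ℝ) ^ (-(ep / 2))
      = (((V - U + l : ℕ):ℝ) + l) * ((2 * n : ℕ):ℝ) ^ (-(ep / 2)) := by ring
    _ ≤ (5 * l) * (n:ℝ) ^ (-(ep / 2)) := mul_le_mul h7 hpow hp0 (by positivity)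
    _ = l * (5 * (n:ℝ) ^ (-(ep / 2))) := by ring

end Pool.Agent.H44W
end

-- from Lib.H44W.M5
section
/-!
CHUNK M5 (M). Mass of the difference: sum over m in [1,2n] of |sum_q ga q (pd q m - Mq m)| <= 10 (1 + log n)^4 n.
Proof. By |ga| <= 1 it is at most sum_{q <= R} (sum_m pd q m + sum_m |Mq m|).
(a) sum_{m in [1,2n]} |pd q m| <= 2n/q: it is the number of (a,b) in the box with 1 <= q a b <= 2n; if q A1 B1 > 2n it is 0; otherwise at
most card Ico A1 A2 * card Ico B1 B2 <= A1 B1 <= 2n/q.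
(b) sum_m |Mq m| = sum_{k <= 2n/q} |lbox k| |gQ Q k| <= sum_{k <= 2n/q} sum_{d <= Q, d | k} (1 + log Q) (lbox_bd, H21T.m1)
<= (1 + log Q) sum_{d <= Q} 2n/(q d) <= (2n/q) (1 + log Q)^2 (harmonic sum: sum_{d <= Q} 1/d <= 1 + log Q, harmonic_le_one_add_log).
Sum over q <= R <= n: sum 1/q <= 1 + log n; Q <= n: total <= 2n (1+log n) + 2n (1+log n)^3 <= 10 (1+log n)^4 n.
-/
namespace Pool.Agent.H44W
open Finset

theorem m5_har (N n : ℕ) (h : N ≤ n) : ∑ d ∈ Icc 1 N, 1 / (d : ℝ) ≤ 1 + Real.log n := by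
  have h2 : ∑ r ∈ Icc 1 N, 1 / (r : ℝ) ≤ ∑ r ∈ Icc 1 n, 1 / (r : ℝ) := by
    apply Finset.sum_le_sum_of_subset_of_nonneg
    · exact Finset.Icc_subset_Icc_right h
    · intro i _ _
      positivity
  have h3 : ∑ r ∈ Icc 1 n, 1 / (r : ℝ) ≤ 1 + Real.log n := by
    have h4 := harmonic_le_one_add_log n
    rw [harmonic_eq_sum_Icc] at h4
    push_cast at h4
    simpa only [one_div] using h4
  linarith

theorem m5_mult (r N : ℕ) (hr : 1 ≤ r) :
    (((Icc (1:ℤ) (N:ℤ)).filter (fun m => (r:ℤ) ∣ m)).card : ℝ) ≤ (N:ℝ) / r := by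
  have h1 : (Icc (1:ℤ) (N:ℤ)).filter (fun m => (r:ℤ) ∣ m) ⊆ (Icc 1 (N / r)).image (fun k : ℕ => (r:ℤ) * k) := by
    intro m hm
    rw [mem_filter, mem_Icc] at hm
    obtain ⟨⟨h1, h2⟩, k, rfl⟩ := hm
    have hk : 0 < k := by
      by_contra hc
      have : (r:ℤ) * k ≤ 0 := mul_nonpos_of_nonneg_of_nonpos (by positivity) (not_lt.1 hc)
      omega
    lift k to ℕ using hk.le
    rw [mem_image]
    refine ⟨k, mem_Icc.2 ⟨by exact_mod_cast hk, ?_⟩, rfl⟩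
    rw [Nat.le_div_iff_mul_le (by omega), mul_comm]
    exact_mod_cast h2
  have h2 := (card_le_card h1).trans card_image_le
  rw [Nat.card_Icc, Nat.add_sub_cancel] at h2
  calc _ ≤ ((N / r : ℕ) : ℝ) := by exact_mod_cast h2
    _ ≤ (N:ℝ) / r := Nat.cast_div_le

theorem m5_pd (n q A1 A2 B1 B2 : ℕ) (hq : 1 ≤ q) (hA2 : A2 ≤ 2 * A1) (hB2 : B2 ≤ 2 * B1) :
    ∑ m ∈ Icc (1:ℤ) (2 * n), ‖pd q (Ico (A1:ℤ) A2) (Ico (B1:ℤ) B2) m‖ ≤ 2 * n / q := by
  classical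
  have h0 : ∀ m : ℤ, ‖pd q (Ico (A1:ℤ) A2) (Ico (B1:ℤ) B2) m‖ =
      ((((Ico (A1:ℤ) A2) ×ˢ (Ico (B1:ℤ) B2)).filter (fun p => (q:ℤ) * p.1 * p.2 = m)).card : ℝ) := by
    intro m
    unfold pd
    rw [Complex.norm_natCast]
  rw [sum_congr rfl fun m _ => h0 m]
  have h1 : ∑ m ∈ Icc (1:ℤ) (2 * n), (((Ico (A1:ℤ) A2) ×ˢ (Ico (B1:ℤ) B2)).filter (fun p => (q:ℤ) * p.1 * p.2 = m)).card =
      (((Ico (A1:ℤ) A2) ×ˢ (Ico (B1:ℤ) B2)).filter (fun p => (q:ℤ) * p.1 * p.2 ∈ Icc (1:ℤ) (2 * n))).card := by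
    rw [card_eq_sum_card_fiberwise (f := fun p : ℤ × ℤ => (q:ℤ) * p.1 * p.2) (t := Icc (1:ℤ) (2 * n))
      (by intro p hp; exact (mem_filter.1 hp).2)]
    refine sum_congr rfl fun m hm => ?_
    congr 1
    ext p
    simp only [mem_filter]
    constructor
    · rintro ⟨a, b⟩
      exact ⟨⟨a, b ▸ hm⟩, b⟩
    · rintro ⟨⟨a, _⟩, b⟩
      exact ⟨a, b⟩
  rw [← Nat.cast_sum, h1]
  by_cases hc : 2 * n < q * A1 * B1
  · have h2 : ((Ico (A1:ℤ) A2) ×ˢ (Ico (B1:ℤ) B2)).filter (fun p => (q:ℤ) * p.1 * p.2 ∈ Icc (1:ℤ) (2 * n)) = ∅ := by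
      rw [Finset.filter_eq_empty_iff]
      rintro ⟨a, b⟩ hp hm
      rw [mem_product, mem_Ico, mem_Ico] at hp
      rw [mem_Icc] at hm
      simp only at hp hm
      have h3 : (q:ℤ) * A1 * B1 ≤ (q:ℤ) * a * b := by
        have h4 : (0:ℤ) ≤ A1 := by positivity
        have h5 : (0:ℤ) ≤ B1 := by positivity
        have h6 : (q:ℤ) * A1 ≤ q * a := mul_le_mul_of_nonneg_left hp.1.1 (by positivity)
        exact mul_le_mul h6 hp.2.1 h5 (mul_nonneg (by positivity) (h4.trans hp.1.1))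
      have h7 : (2 * n : ℤ) < (q:ℤ) * A1 * B1 := by exact_mod_cast hc
      omega
    rw [h2, card_empty, Nat.cast_zero]
    positivity
  · have h2 : (((Ico (A1:ℤ) A2) ×ˢ (Ico (B1:ℤ) B2)).filter (fun p => (q:ℤ) * p.1 * p.2 ∈ Icc (1:ℤ) (2 * n))).card ≤ A1 * B1 := by
      refine (card_filter_le _ _).trans ?_
      rw [card_product, Int.card_Ico, Int.card_Ico]
      exact Nat.mul_le_mul (by omega) (by omega)
    have hq0 : (0:ℝ) < q := by exact_mod_cast hq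
    rw [le_div_iff₀ hq0]
    have h3 : A1 * B1 * q ≤ 2 * n := by
      have := not_lt.1 hc
      calc A1 * B1 * q = q * A1 * B1 := by ring
        _ ≤ 2 * n := this
    calc _ ≤ ((A1 * B1 : ℕ) : ℝ) * q := mul_le_mul_of_nonneg_right (by exact_mod_cast h2) hq0.le
      _ ≤ 2 * n := by exact_mod_cast h3

theorem m5_Mq1 (Q A1 A2 B1 B2 q : ℕ) (hQ1 : 1 ≤ Q) (hq : 1 ≤ q) (hA : 1 ≤ A1) (hA2 : A2 ≤ 2 * A1) (m : ℤ) (hm : 1 ≤ m) :
    ‖Mq Q A1 A2 B1 B2 q m‖ ≤ ∑ d ∈ Icc 1 Q, if (((q * d : ℕ) : ℤ) ∣ m) then (1 + Real.log Q) else 0 := by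
  have hL : 0 ≤ 1 + Real.log Q := by
    have := Real.log_natCast_nonneg Q
    linarith
  unfold Mq
  by_cases h : (q:ℤ) ∣ m
  · rw [if_pos h, Complex.norm_real, Real.norm_eq_abs]
    unfold Pool.Agent.Lib.H21T.Mbox
    rw [abs_mul]
    obtain ⟨k, rfl⟩ := h
    have hq0 : (0:ℤ) < q := by exact_mod_cast hq
    have hk : 0 < k := by
      by_contra hc
      have : (q:ℤ) * k ≤ 0 := mul_nonpos_of_nonneg_of_nonpos hq0.le (not_lt.1 hc)
      omega
    lift k to ℕ using hk.le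
    rw [Int.mul_ediv_cancel_left _ hq0.ne', Int.toNat_natCast]
    have h1 := lbox_bd A1 A2 B1 B2 k hA hA2
    rw [abs_of_nonneg h1.1]
    refine (mul_le_of_le_one_left (abs_nonneg _) h1.2).trans ?_
    unfold Pool.Agent.Lib.H21T.gQ
    refine (Finset.abs_sum_le_sum_abs _ _).trans ?_
    rw [Finset.sum_filter]
    refine Finset.sum_le_sum fun d _ => ?_
    by_cases hd : d ∣ k
    · have h2 : ((q * d : ℕ) : ℤ) ∣ (q:ℤ) * k := by
        exact_mod_cast Nat.mul_dvd_mul_left q hd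
      rw [if_pos hd, if_pos h2]
      exact Pool.Agent.Lib.H21T.m1 Q d hQ1
    · rw [if_neg hd]
      split_ifs
      · exact hL
      · exact le_rfl
  · rw [if_neg h, norm_zero]
    refine Finset.sum_nonneg fun d _ => ?_
    split_ifs
    · exact hL
    · exact le_rfl

theorem m5_Mq (n Q A1 A2 B1 B2 q : ℕ) (hQ1 : 1 ≤ Q) (hQ : Q ≤ n) (hq : 1 ≤ q) (hA : 1 ≤ A1) (hA2 : A2 ≤ 2 * A1) :
    ∑ m ∈ Icc (1:ℤ) (2 * n), ‖Mq Q A1 A2 B1 B2 q m‖ ≤ 2 * n / q * (1 + Real.log n) ^ 2 := by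
  have hQr : (0:ℝ) < Q := by exact_mod_cast hQ1
  have hLQ : Real.log Q ≤ Real.log n := Real.log_le_log hQr (by exact_mod_cast hQ)
  have hL : 0 ≤ Real.log Q := Real.log_natCast_nonneg Q
  have hq0 : (0:ℝ) < q := by exact_mod_cast hq
  calc ∑ m ∈ Icc (1:ℤ) (2 * n), ‖Mq Q A1 A2 B1 B2 q m‖
      ≤ ∑ m ∈ Icc (1:ℤ) (2 * n), ∑ d ∈ Icc 1 Q, (if (((q * d : ℕ) : ℤ) ∣ m) then (1 + Real.log Q) else 0) :=
        Finset.sum_le_sum fun m hm => m5_Mq1 Q A1 A2 B1 B2 q hQ1 hq hA hA2 m (mem_Icc.1 hm).1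
    _ = ∑ d ∈ Icc 1 Q, (((Icc (1:ℤ) (((2 * n : ℕ)) : ℤ)).filter (fun m => ((q * d : ℕ) : ℤ) ∣ m)).card : ℝ) * (1 + Real.log Q) := by
        rw [Finset.sum_comm]
        refine Finset.sum_congr rfl fun d _ => ?_
        rw [← Finset.sum_filter, Finset.sum_const, nsmul_eq_mul]
        push_cast
        rfl
    _ ≤ ∑ d ∈ Icc 1 Q, (2 * n / q * (1 + Real.log n)) * (1 / (d:ℝ)) := by
        refine Finset.sum_le_sum fun d hd => ?_
        have hd1 := (mem_Icc.1 hd).1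
        have h1 := m5_mult (q * d) (2 * n) (Nat.mul_pos hq hd1)
        have hd0 : (0:ℝ) < d := by exact_mod_cast hd1
        have e : ((2 * n : ℕ) : ℝ) / ((q * d : ℕ) : ℝ) = 2 * n / q * (1 / d) := by
          push_cast
          field_simp
        rw [e] at h1
        calc _ ≤ (2 * n / q * (1 / (d:ℝ))) * (1 + Real.log n) :=
              mul_le_mul h1 (by linarith) (by linarith) (by positivity)
          _ = _ := by ring
    _ = (2 * n / q * (1 + Real.log n)) * ∑ d ∈ Icc 1 Q, 1 / (d:ℝ) := by rw [Finset.mul_sum]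
    _ ≤ (2 * n / q * (1 + Real.log n)) * (1 + Real.log n) :=
        mul_le_mul_of_nonneg_left (m5_har Q n hQ) (mul_nonneg (by positivity) (by linarith))
    _ = _ := by ring

theorem mass_le (n Q R A1 A2 B1 B2 : ℕ) (hn : 1 ≤ n) (hQ1 : 1 ≤ Q) (hQ : Q ≤ n) (hR : R ≤ n)
    (hA : 1 ≤ A1) (hB : 1 ≤ B1) (hA2 : A2 ≤ 2 * A1) (hB2 : B2 ≤ 2 * B1) (ga : ℕ → ℂ)
    (hga : ∀ q, ‖ga q‖ ≤ 1) :
    ∑ m ∈ Icc (1:ℤ) (2 * n), ‖∑ q ∈ Icc 1 R, ga q *
      (pd q (Ico (A1:ℤ) A2) (Ico (B1:ℤ) B2) m - Mq Q A1 A2 B1 B2 q m)‖ ≤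
      10 * (1 + Real.log n) ^ 4 * n := by
  have hn1 : (1:ℝ) ≤ n := by exact_mod_cast hn
  have hLn : 0 ≤ Real.log n := Real.log_natCast_nonneg n
  have hstep : ∀ m ∈ Icc (1:ℤ) (2 * n), ‖∑ q ∈ Icc 1 R, ga q *
      (pd q (Ico (A1:ℤ) A2) (Ico (B1:ℤ) B2) m - Mq Q A1 A2 B1 B2 q m)‖ ≤
      ∑ q ∈ Icc 1 R, (‖pd q (Ico (A1:ℤ) A2) (Ico (B1:ℤ) B2) m‖ + ‖Mq Q A1 A2 B1 B2 q m‖) := by
    intro m _
    refine norm_sum_le_of_le _ fun q _ => ?_
    rw [norm_mul]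
    exact (mul_le_of_le_one_left (norm_nonneg _) (hga q)).trans (norm_sub_le _ _)
  refine (Finset.sum_le_sum hstep).trans ?_
  rw [Finset.sum_comm]
  have hq : ∀ q ∈ Icc 1 R, ∑ m ∈ Icc (1:ℤ) (2 * n),
      (‖pd q (Ico (A1:ℤ) A2) (Ico (B1:ℤ) B2) m‖ + ‖Mq Q A1 A2 B1 B2 q m‖) ≤
      (2 * n * (1 + (1 + Real.log n) ^ 2)) * (1 / (q:ℝ)) := by
    intro q hq
    have hq1 := (mem_Icc.1 hq).1
    rw [Finset.sum_add_distrib]
    have h1 := m5_pd n q A1 A2 B1 B2 hq1 hA2 hB2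
    have h2 := m5_Mq n Q A1 A2 B1 B2 q hQ1 hQ hq1 hA hA2
    refine (add_le_add h1 h2).trans (le_of_eq ?_)
    ring
  refine (Finset.sum_le_sum hq).trans ?_
  rw [← Finset.mul_sum]
  have h3 := m5_har R n hR
  have h4 : 0 ≤ 2 * (n:ℝ) * (1 + (1 + Real.log n) ^ 2) := by positivity
  refine (mul_le_mul_of_nonneg_left h3 h4).trans ?_
  set L : ℝ := 1 + Real.log n with hLdef
  have hL1 : 1 ≤ L := by linarith
  have h5 : L ^ 1 ≤ L ^ 4 := pow_le_pow_right₀ hL1 (by norm_num)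
  have h6 : L ^ 3 ≤ L ^ 4 := pow_le_pow_right₀ hL1 (by norm_num)
  have h7 : 0 ≤ L ^ 4 := by positivity
  calc 2 * (n:ℝ) * (1 + L ^ 2) * L = n * (2 * L ^ 1 + 2 * L ^ 3) := by ring
    _ ≤ n * (10 * L ^ 4) := mul_le_mul_of_nonneg_left (by linarith) (by linarith)
    _ = _ := by ring

end Pool.Agent.H44W
end

-- from Lib.H44W.M2
section
/-!
CHUNK M2 (S/M). The inverse property for a Type I sum times a slowly varying factor, given by an expansion of the factor in additive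
characters with total mass A0.
Proof. On the points m = x + y in [2, 2n] which occur in TF the function Mm is sum_j c j * ee(ph j * m) * psi A al m. TF is linear in
its kernel, so TF n Mm W f g = sum_j c j * TF n (fun m => ee (ph j * m) * psi A al m) W f g
= sum_j c j * S * TF n (psi A (al/S)) W (fun x => f x * ee (ph j * x)) (fun y => g y * ee (ph j * y))   (ee_add, the factor splits on
x + y). The norm is <= sum_j |c j| * S * (...): if every term |TF n (psi A (al/S)) W f_j g_j| were < n^2/(D A0 S) the total would be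
< n^2/D (strict unless all c j = 0, in which case TF = 0 < n^2/D, impossible as n >= 2). So some j has
n^2/(D A0 S) <= |TF n (psi A (al/S)) W f_j g_j| and psi_cf (M1) with D := D * A0 * S >= 2 gives th with
n/(80 (D A0 S)(1+log n)^2)^(C+1) <= |sum g z ee(ph j z) ee(th z)| = |sum g z ee((ph j + th) z)|.
-/
namespace Pool.Agent.H44W
open Finset

theorem m2_psi (A : ℕ) (al : ℕ → ℂ) (S : ℝ) (hS : 1 ≤ S) (m : ℤ) :
    psi A al m = (S : ℂ) * psi A (fun a => al a / S) m := by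
  have hS0 : (S : ℂ) ≠ 0 := by
    have : (0 : ℝ) < S := by linarith
    exact_mod_cast this.ne'
  unfold psi
  rw [Finset.mul_sum]
  refine Finset.sum_congr rfl fun a _ => ?_
  split_ifs
  · field_simp
  · rw [mul_zero]

theorem m2_expand (n A : ℕ) (S : ℝ) (hS : 1 ≤ S) (J : ℕ) (c : ℕ → ℂ) (ph : ℕ → ℝ) (al : ℕ → ℂ) (Mm : ℤ → ℂ)
    (hM : ∀ m : ℤ, 2 ≤ m → m ≤ 2 * n →
      Mm m = (∑ j ∈ range J, c j * ee (ph j * m)) * psi A al m) (W f g : ℤ → ℂ) :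
    TF n Mm W f g = ∑ j ∈ range J, c j * ((S : ℂ) * TF n (psi A (fun a => al a / S)) W
      (fun x => f x * ee (ph j * x)) (fun y => g y * ee (ph j * y))) := by
  unfold TF
  have e1 : ∀ x ∈ Icc (1:ℤ) n, ∑ y ∈ Icc (1:ℤ) n, f x * g y * Mm (x + y) * W (x - y) =
      ∑ j ∈ range J, ∑ y ∈ Icc (1:ℤ) n, c j * ((S : ℂ) * (f x * ee (ph j * x) * (g y * ee (ph j * y)) *
        psi A (fun a => al a / S) (x + y) * W (x - y))) := by
    intro x hx
    rw [Finset.sum_comm]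
    refine Finset.sum_congr rfl fun y hy => ?_
    rw [Finset.mem_Icc] at hx hy
    rw [hM (x + y) (by omega) (by omega), m2_psi A al S hS, Finset.sum_mul, Finset.mul_sum, Finset.sum_mul]
    refine Finset.sum_congr rfl fun j _ => ?_
    have e2 : ee (ph j * ((x + y : ℤ) : ℝ)) = ee (ph j * x) * ee (ph j * y) := by
      rw [← ee_add]
      congr 1
      push_cast
      ring
    rw [e2]
    ring
  rw [Finset.sum_congr rfl e1, Finset.sum_comm]
  refine Finset.sum_congr rfl fun j _ => ?_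
  rw [Finset.mul_sum, Finset.mul_sum]
  refine Finset.sum_congr rfl fun x _ => ?_
  rw [Finset.mul_sum, Finset.mul_sum]

theorem model_cf (C : ℕ) (h2 : ClassTwo C)
    (hone : ∀ (n A : ℕ) (al : ℕ → ℂ), 1 ≤ n → (∀ a, ‖al a‖ ≤ 1) → ∀ W f g : ℤ → ℂ,
      (∀ x, ‖W x‖ ≤ 1) → (∀ x, ‖f x‖ ≤ 1) → (∀ x, ‖g x‖ ≤ 1) →
      ∃ th : ℝ, ‖TF n (psi A al) W f g‖ ≤
        20 * A * (1 + Real.log n) * n * ‖∑ z ∈ Icc (1:ℤ) n, g z * ee (th * z)‖)
    (n A : ℕ) (hn : 2 ≤ n) (hA4 : (A:ℝ) ≤ (n:ℝ) ^ (1 / 4 : ℝ)) (D A0 S : ℝ) (hD : 2 ≤ D)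
    (hdiv : ∀ m : ℕ, 1 ≤ m → m ≤ 2 * n → (m.divisors.card : ℝ) ≤ D)
    (hA0 : 1 ≤ A0) (hS : 1 ≤ S) (J : ℕ) (c : ℕ → ℂ) (ph : ℕ → ℝ)
    (hc : ∑ j ∈ range J, ‖c j‖ ≤ A0) (al : ℕ → ℂ) (hal : ∀ a, ‖al a‖ ≤ S) (Mm : ℤ → ℂ)
    (hM : ∀ m : ℤ, 2 ≤ m → m ≤ 2 * n →
      Mm m = (∑ j ∈ range J, c j * ee (ph j * m)) * psi A al m)
    (W f g : ℤ → ℂ) (hW : ∀ x, ‖W x‖ ≤ 1) (hf : ∀ x, ‖f x‖ ≤ 1) (hg : ∀ x, ‖g x‖ ≤ 1)
    (hT : (n:ℝ) ^ 2 / D ≤ ‖TF n Mm W f g‖) :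
    ∃ th : ℝ, (n:ℝ) / (80 * (D * A0 * S) * (1 + Real.log n) ^ 2) ^ (C + 1) ≤
      ‖∑ z ∈ Icc (1:ℤ) n, g z * ee (th * z)‖ := by
  have hn0 : (0 : ℝ) < n := by
    have : (2 : ℝ) ≤ n := by exact_mod_cast hn
    linarith
  have hD0 : 0 < D := by linarith
  have hS0 : 0 < S := by linarith
  have hA00 : 0 < A0 := by linarith
  have hpos : 0 < (n:ℝ) ^ 2 / D := by positivity
  have hexp := m2_expand n A S hS J c ph al Mm hM W f g
  have hJ : (range J).Nonempty := by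
    rw [Finset.nonempty_range_iff]
    rintro rfl
    rw [Finset.range_zero, Finset.sum_empty] at hexp
    rw [hexp, norm_zero] at hT
    linarith
  obtain ⟨j, hj, hmax⟩ := Finset.exists_max_image (range J) (fun j => ‖TF n (psi A (fun a => al a / S)) W
      (fun x => f x * ee (ph j * x)) (fun y => g y * ee (ph j * y))‖) hJ
  have h1 : ‖TF n Mm W f g‖ ≤ A0 * (S * ‖TF n (psi A (fun a => al a / S)) W
      (fun x => f x * ee (ph j * x)) (fun y => g y * ee (ph j * y))‖) := by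
    rw [hexp]
    refine (norm_sum_le _ _).trans ?_
    have h3 : ∀ i ∈ range J, ‖c i * ((S : ℂ) * TF n (psi A (fun a => al a / S)) W
        (fun x => f x * ee (ph i * x)) (fun y => g y * ee (ph i * y)))‖ ≤
        ‖c i‖ * (S * ‖TF n (psi A (fun a => al a / S)) W
          (fun x => f x * ee (ph j * x)) (fun y => g y * ee (ph j * y))‖) := by
      intro i hi
      rw [norm_mul, norm_mul, Complex.norm_real, Real.norm_of_nonneg hS0.le]
      exact mul_le_mul_of_nonneg_left (mul_le_mul_of_nonneg_left (hmax i hi) hS0.le) (norm_nonneg _)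
    refine (Finset.sum_le_sum h3).trans ?_
    rw [← Finset.sum_mul]
    exact mul_le_mul_of_nonneg_right hc (by positivity)
  have h4 : (n:ℝ) ^ 2 / (D * A0 * S) ≤ ‖TF n (psi A (fun a => al a / S)) W
      (fun x => f x * ee (ph j * x)) (fun y => g y * ee (ph j * y))‖ := by
    have h3 := hT.trans h1
    rw [div_le_iff₀ (by positivity)] at h3 ⊢
    linarith
  have hDS : 2 ≤ D * A0 * S := by
    have h3 : 2 ≤ D * A0 := by nlinarith
    nlinarith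
  have hDD : D ≤ D * A0 * S := by
    have h5 : D ≤ D * A0 := le_mul_of_one_le_right hD0.le hA0
    exact h5.trans (le_mul_of_one_le_right (by positivity) hS)
  obtain ⟨th, hth⟩ := psi_cf C h2 hone n A hn hA4 (D * A0 * S) hDS
    (fun m h5 h6 => (hdiv m h5 h6).trans hDD) (fun a => al a / S) (fun a => by
      rw [norm_div, Complex.norm_real, Real.norm_of_nonneg hS0.le, div_le_one hS0]
      exact hal a) W (fun x => f x * ee (ph j * x)) (fun y => g y * ee (ph j * y)) hW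
    (fun x => by rw [norm_mul, norm_ee, mul_one]; exact hf x) (fun x => by rw [norm_mul, norm_ee, mul_one]; exact hg x) h4
  refine ⟨ph j + th, hth.trans (le_of_eq ?_)⟩
  congr 1
  refine Finset.sum_congr rfl fun z _ => ?_
  have e2 : ee ((ph j + th) * (z : ℝ)) = ee (ph j * z) * ee (th * z) := by
    rw [← ee_add]
    congr 1
    ring
  rw [e2]
  ring

end Pool.Agent.H44W
end

-- from Lib.H44W.M7
section
/-!
CHUNK M7 (M). The model Mq has the inverse property with polynomial loss, uniformly in its level Q.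
Proof. If A2 < A1 or B2 < B1 then lbox = 0 (lbox_empty), so Mq = 0 and TF = 0, impossible (n^2/D > 0). Otherwise lboxr_rep gives
J, c, al' with sum |c j| <= A0 := 7 (1 + log n) (unfold H81E.Rep) and lboxr q .. m = sum_j c j * ee (al' j * m) for 2 <= m <= 2n.
For 2 <= m <= 2n: Mq Q A1 A2 B1 B2 q m = lboxr q .. m * psi (q Q) al m, with al a = lam Q (a/q) if q | a, else 0: if q does not divide m, then
a | m and q | a are impossible, both sides 0; if m = q k: Mbox k = lbox k * sum_{d <= Q, d | k} lam Q d and a = q d, a | m iff d | k,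
a <= q Q iff d <= Q; lbox k = lboxr (q k) (lboxr_eq). |al a| <= S := 1 + log Q (H21T.m1).
model_cf (M2) with hone := type_one_psi (M0), A = q Q: n/(80 (D A0 S)(1+log n)^2)^(C+1) <= |ghat|; and
80 * 7 * (1+log n) (1 + log Q)(1+log n)^2 * D <= 560 (1+log n)^4 D <= D^2 as Q <= n^(1/4) <= n and 560 (1+log n)^4 <= D (hD2).
So n/D^(2(C+1)) <= |ghat|. (n >= 2 because (1+log n)^4 * 560 <= D and D^(..) .. use hn.)
-/
namespace Pool.Agent.H44W
open Finset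

/-- The coefficients of the model with cofactor q. -/
noncomputable def m7_al (Q q : ℕ) (a : ℕ) : ℂ :=
  if q ∣ a then ((Pool.Agent.Lib.H21T.lam Q (a / q) : ℝ) : ℂ) else 0

theorem m7_psi (Q q k : ℕ) (hq : 1 ≤ q) :
    psi (q * Q) (m7_al Q q) ((q:ℤ) * k) = ((Pool.Agent.Lib.H21T.gQ Q k : ℝ) : ℂ) := by
  unfold psi Pool.Agent.Lib.H21T.gQ
  rw [Complex.ofReal_sum]
  have h1 : ∀ a ∈ Icc 1 (q * Q), (if ((a:ℕ):ℤ) ∣ (q:ℤ) * k then m7_al Q q a else 0) =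
      if a ∣ q * k ∧ q ∣ a then ((Pool.Agent.Lib.H21T.lam Q (a / q) : ℝ) : ℂ) else 0 := by
    intro a _
    have h2 : (((a:ℕ):ℤ) ∣ (q:ℤ) * k) ↔ a ∣ q * k := by
      rw [← Int.natCast_dvd_natCast]
      push_cast
      rfl
    unfold m7_al
    by_cases h3 : a ∣ q * k
    · rw [if_pos (h2.2 h3)]
      by_cases h4 : q ∣ a
      · rw [if_pos h4, if_pos ⟨h3, h4⟩]
      · rw [if_neg h4, if_neg (fun h => h4 h.2)]
    · rw [if_neg (fun h => h3 (h2.1 h)), if_neg (fun h => h3 h.1)]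
  rw [sum_congr rfl h1, ← sum_filter]
  symm
  refine sum_nbij' (fun d => q * d) (fun a => a / q) ?_ ?_ ?_ ?_ ?_
  · intro d hd
    rw [mem_filter, mem_Icc] at hd
    rw [mem_filter, mem_Icc]
    exact ⟨⟨Nat.mul_pos hq hd.1.1, Nat.mul_le_mul_left q hd.1.2⟩, Nat.mul_dvd_mul_left q hd.2,
      Dvd.intro _ rfl⟩
  · intro a ha
    rw [mem_filter, mem_Icc] at ha
    obtain ⟨⟨h2, h3⟩, h4, d, rfl⟩ := ha
    rw [mem_filter, mem_Icc, Nat.mul_div_cancel_left _ hq]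
    refine ⟨⟨?_, Nat.le_of_mul_le_mul_left h3 hq⟩, Nat.dvd_of_mul_dvd_mul_left hq h4⟩
    rcases Nat.eq_zero_or_pos d with h5 | h5
    · subst h5
      rw [mul_zero] at h2
      omega
    · exact h5
  · intro d _
    exact Nat.mul_div_cancel_left _ hq
  · intro a ha
    rw [mem_filter] at ha
    exact Nat.mul_div_cancel' ha.2.2
  · intro d _
    rw [Nat.mul_div_cancel_left _ hq]

theorem m7_psi_zero (Q q : ℕ) (m : ℤ) (h : ¬ (q:ℤ) ∣ m) : psi (q * Q) (m7_al Q q) m = 0 := by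
  unfold psi
  refine sum_eq_zero fun a _ => ?_
  by_cases h1 : (a:ℤ) ∣ m
  · rw [if_pos h1]
    unfold m7_al
    rw [if_neg]
    intro h2
    exact h ((Int.natCast_dvd_natCast.2 h2).trans h1)
  · rw [if_neg h1]

theorem m7_Mq (Q A1 A2 B1 B2 q : ℕ) (hq : 1 ≤ q) (m : ℤ) (hm : 1 ≤ m) :
    Mq Q A1 A2 B1 B2 q m = ((lboxr q A1 A2 B1 B2 m : ℝ) : ℂ) * psi (q * Q) (m7_al Q q) m := by
  unfold Mq
  by_cases h : (q:ℤ) ∣ m
  · rw [if_pos h]
    obtain ⟨z, rfl⟩ := h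
    have hq0 : (0:ℤ) < q := by exact_mod_cast hq
    have hz : 1 ≤ z := by
      by_contra hcon
      have h1 : z ≤ 0 := by omega
      have h2 : (q:ℤ) * z ≤ 0 := mul_nonpos_of_nonneg_of_nonpos hq0.le h1
      omega
    obtain ⟨k, rfl⟩ := Int.eq_ofNat_of_zero_le (by omega : 0 ≤ z)
    have hk : 1 ≤ k := by exact_mod_cast hz
    have h3 : ((q:ℤ) * (k:ℤ) / q).toNat = k := by
      rw [Int.mul_ediv_cancel_left _ hq0.ne']
      exact Int.toNat_natCast k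
    rw [h3, m7_psi Q q k hq, lboxr_eq q A1 A2 B1 B2 k hq hk]
    unfold Pool.Agent.Lib.H21T.Mbox
    rw [Complex.ofReal_mul]
  · rw [if_neg h, m7_psi_zero Q q m h, mul_zero]

theorem mq_cf (C : ℕ) (h2 : ClassTwo C) (n Q A1 A2 B1 B2 q : ℕ) (hn : 2 ≤ n) (hQ : 1 ≤ Q)
    (hq : 1 ≤ q) (hqQ : ((q * Q : ℕ):ℝ) ≤ (n:ℝ) ^ (1 / 4 : ℝ)) (hA : 1 ≤ A1) (hB : 1 ≤ B1)
    (hA2 : A2 ≤ 2 * A1) (D : ℝ) (hD2 : 560 * (1 + Real.log n) ^ 4 ≤ D)
    (hdiv : ∀ m : ℕ, 1 ≤ m → m ≤ 2 * n → (m.divisors.card : ℝ) ≤ D)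
    (W f g : ℤ → ℂ) (hW : ∀ x, ‖W x‖ ≤ 1) (hf : ∀ x, ‖f x‖ ≤ 1) (hg : ∀ x, ‖g x‖ ≤ 1)
    (hT : (n:ℝ) ^ 2 / D ≤ ‖TF n (Mq Q A1 A2 B1 B2 q) W f g‖) :
    ∃ th : ℝ, (n:ℝ) / D ^ (2 * (C + 1)) ≤ ‖∑ z ∈ Icc (1:ℤ) n, g z * ee (th * z)‖ := by
  have hL0 : 0 ≤ Real.log n := Real.log_natCast_nonneg n
  have hL1 : 1 ≤ 1 + Real.log n := by linarith
  have hL4 : 1 ≤ (1 + Real.log n) ^ 4 := one_le_pow₀ hL1
  have hD560 : 560 ≤ D := by linarith
  have hD0 : 0 < D := by linarith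
  have hn0 : (0:ℝ) < n := by
    have : 0 < n := by omega
    exact_mod_cast this
  have hn1 : (1:ℝ) ≤ n := by
    have : 1 ≤ n := by omega
    exact_mod_cast this
  by_cases hE : A2 < A1 ∨ B2 < B1
  · exfalso
    have h0 : TF n (Mq Q A1 A2 B1 B2 q) W f g = 0 := by
      unfold TF
      refine sum_eq_zero fun x _ => sum_eq_zero fun y _ => ?_
      have h1 : Mq Q A1 A2 B1 B2 q (x + y) = 0 := by
        unfold Mq Pool.Agent.Lib.H21T.Mbox
        rw [lbox_empty A1 A2 B1 B2 _ hA hB hE, zero_mul, Complex.ofReal_zero, ite_self]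
      rw [h1, mul_zero, zero_mul]
    rw [h0, norm_zero] at hT
    have : 0 < (n:ℝ) ^ 2 / D := by positivity
    linarith
  · rw [not_or, not_lt, not_lt] at hE
    obtain ⟨J, c, ph, hc, hrep⟩ :=
      lboxr_rep n q A1 A2 B1 B2 (by omega) hq hA hE.1 hA2 hB hE.2
    have hlQ0 : 0 ≤ Real.log Q := Real.log_natCast_nonneg Q
    have hal : ∀ a, ‖m7_al Q q a‖ ≤ 1 + Real.log Q := by
      intro a
      unfold m7_al
      by_cases h : q ∣ a
      · rw [if_pos h, Complex.norm_real, Real.norm_eq_abs]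
        exact Pool.Agent.Lib.H21T.m1 Q (a / q) hQ
      · rw [if_neg h, norm_zero]
        linarith
    obtain ⟨th, hth⟩ := model_cf C h2 type_one_psi n (q * Q) hn hqQ D (7 * (1 + Real.log n))
      (1 + Real.log Q) (by linarith) hdiv (by linarith) (by linarith) J c ph hc (m7_al Q q) hal
      (Mq Q A1 A2 B1 B2 q) (fun m hm hm2 => by
        rw [m7_Mq Q A1 A2 B1 B2 q hq m (by omega)]
        have h5 := hrep m hm hm2
        simp only at h5
        rw [h5]) W f g hW hf hg hT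
    refine ⟨th, le_trans ?_ hth⟩
    have hQn : (Q:ℝ) ≤ n := by
      have h1 : (Q:ℝ) ≤ ((q * Q : ℕ):ℝ) := by
        exact_mod_cast Nat.le_mul_of_pos_left Q hq
      have h3 : (n:ℝ) ^ (1 / 4 : ℝ) ≤ n := by
        calc (n:ℝ) ^ (1 / 4 : ℝ) ≤ (n:ℝ) ^ (1 : ℝ) :=
              Real.rpow_le_rpow_of_exponent_le hn1 (by norm_num)
          _ = n := Real.rpow_one _
      linarith
    have hlogQ : Real.log Q ≤ Real.log n := by
      apply Real.log_le_log _ hQn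
      exact_mod_cast hQ
    have hkey : 80 * (D * (7 * (1 + Real.log n)) * (1 + Real.log Q)) * (1 + Real.log n) ^ 2 ≤
        D ^ 2 := by
      have h1 : (1 + Real.log Q) ≤ 1 + Real.log n := by linarith
      calc 80 * (D * (7 * (1 + Real.log n)) * (1 + Real.log Q)) * (1 + Real.log n) ^ 2
          = D * (560 * ((1 + Real.log n) ^ 3 * (1 + Real.log Q))) := by ring
        _ ≤ D * (560 * ((1 + Real.log n) ^ 3 * (1 + Real.log n))) := by gcongr
        _ = D * (560 * (1 + Real.log n) ^ 4) := by ring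
        _ ≤ D * D := by gcongr
        _ = D ^ 2 := by ring
    have hpos : 0 < 80 * (D * (7 * (1 + Real.log n)) * (1 + Real.log Q)) *
        (1 + Real.log n) ^ 2 := by positivity
    rw [pow_mul]
    exact div_le_div_of_nonneg_left hn0.le (pow_pos hpos _) (pow_le_pow_left₀ hpos.le hkey _)

end Pool.Agent.H44W
end
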