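import Pool.Agent.Lib.H1M.RV2.M012
import Pool.Agent.Lib.H1M.RV2.M029
import Pool.Agent.Lib.H1M.RV2.M031

/-! Merged copies (to shorten the build) of Lib.H15P.LV3, Lib.H15P.MK1, Lib.H15P.LV4, Lib.H15P.MK2, Lib.H92G.G4, Lib.H57M.B1, Lib.H57M.R1, Lib.H57M.B2, Lib.H57M.B3, Lib.H57M.B8, Lib.H57M.B4, Lib.H57M.B6, Lib.H57M.B9, Lib.H57C.A1, Lib.H59C.CPW. -/

-- from Lib.H15P.LV3
section

/-!
# Chunk LV3: level of the one form functions
-/

open Finset

namespace Pool.Agent.Lib.H15P

theorem lv3_esymm {α : Type} [DecidableEq α] (x : α → ℝ) (hx : ∀ i, 0 ≤ x i) (S : Finset α) :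
    ∀ l : ℕ, ∑ B ∈ S.powersetCard l, ∏ i ∈ B, x i ≤ (∑ i ∈ S, x i) ^ l := by
  induction S using Finset.induction_on with
  | empty =>
    intro l
    cases l with
    | zero => simp
    | succ l =>
      have h1 : powersetCard (l + 1) (∅ : Finset α) = ∅ := by
        apply Finset.powersetCard_eq_empty.2
        simp
      rw [h1]
      simp
  | insert a S ha ih =>
    intro l
    cases l with
    | zero => simp
    | succ l =>
      rw [Finset.powersetCard_succ_insert ha]
      have h1 := ih (l + 1)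
      have h2 := ih l
      have hX : 0 ≤ ∑ i ∈ S, x i := Finset.sum_nonneg fun i _ => hx i
      have hdisj : Disjoint (powersetCard (l + 1) S) ((powersetCard l S).image (insert a)) := by
        rw [Finset.disjoint_left]
        intro B hB hB'
        rw [Finset.mem_powersetCard] at hB
        obtain ⟨B', -, rfl⟩ := Finset.mem_image.1 hB'
        exact ha (hB.1 (Finset.mem_insert_self a B'))
      rw [Finset.sum_union hdisj, Finset.sum_insert ha]
      have h3 : ∑ B ∈ (powersetCard l S).image (insert a), ∏ i ∈ B, x i =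
          x a * ∑ B ∈ powersetCard l S, ∏ i ∈ B, x i := by
        rw [Finset.sum_image, Finset.mul_sum]
        · apply Finset.sum_congr rfl
          intro B hB
          rw [Finset.mem_powersetCard] at hB
          rw [Finset.prod_insert fun h => ha (hB.1 h)]
        · intro B hB B' hB' h
          rw [Finset.mem_coe, Finset.mem_powersetCard] at hB hB'
          have h4 : a ∉ B := fun h => ha (hB.1 h)
          have h5 : a ∉ B' := fun h => ha (hB'.1 h)
          have h6 : (insert a B).erase a = (insert a B').erase a := by rw [h]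
          rwa [Finset.erase_insert h4, Finset.erase_insert h5] at h6
      rw [h3]
      have ha0 := hx a
      have h4 : (∑ i ∈ S, x i) ^ l ≤ (x a + ∑ i ∈ S, x i) ^ l :=
        pow_le_pow_left₀ hX (by linarith) l
      calc ∑ B ∈ powersetCard (l + 1) S, ∏ i ∈ B, x i + x a * ∑ B ∈ powersetCard l S, ∏ i ∈ B, x i
          ≤ (∑ i ∈ S, x i) ^ (l + 1) + x a * (∑ i ∈ S, x i) ^ l :=
            add_le_add h1 (mul_le_mul_of_nonneg_left h2 ha0)
        _ = (x a + ∑ i ∈ S, x i) * (∑ i ∈ S, x i) ^ l := by ring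
        _ ≤ (x a + ∑ i ∈ S, x i) * (x a + ∑ i ∈ S, x i) ^ l :=
            mul_le_mul_of_nonneg_left h4 (by linarith)
        _ = (x a + ∑ i ∈ S, x i) ^ (l + 1) := by ring

theorem lv3_choose {ι : Type} [Fintype ι] [DecidableEq ι] (blk : ι → ℕ) (b l : ℕ) (A : Finset ι) :
    (((AB blk b A).card.choose l : ℕ) : ℝ) =
      ∑ B ∈ (univ.filter (fun i => blk i = b)).powersetCard l, if B ⊆ A then (1 : ℝ) else 0 := by
  rw [← Finset.card_powersetCard, ← Finset.sum_filter, Finset.sum_const, nsmul_eq_mul, mul_one]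
  congr 2
  ext B
  rw [Finset.mem_powersetCard, Finset.mem_filter, Finset.mem_powersetCard]
  unfold AB
  constructor
  · rintro ⟨h1, h2⟩
    refine ⟨⟨?_, h2⟩, ?_⟩
    · intro i hi
      exact Finset.mem_filter.2 ⟨Finset.mem_univ i, (Finset.mem_filter.1 (h1 hi)).2⟩
    · intro i hi
      exact (Finset.mem_filter.1 (h1 hi)).1
  · rintro ⟨⟨h1, h2⟩, h3⟩
    refine ⟨?_, h2⟩
    intro i hi
    exact Finset.mem_filter.2 ⟨h3 hi, (Finset.mem_filter.1 (h1 hi)).2⟩

theorem lv3_ind (P : Finset ℕ) (hP : ∀ p ∈ P, p.Prime) (B : Finset {p // p ∈ P}) (M b0 : ℕ) :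
    Lev (∏ p ∈ P, p) (fun t => if B ⊆ hit P (b0 + M * t) then (1 : ℝ) else 0)
      (∏ i ∈ B, (i.1 : ℝ)) := by
  have hd : (∏ i ∈ B, i.1) ∣ ∏ p ∈ P, p := by
    have h1 : ∏ i ∈ B, i.1 = ∏ p ∈ B.map ⟨Subtype.val, Subtype.val_injective⟩, p := by
      rw [Finset.prod_map]
      rfl
    rw [h1]
    apply Finset.prod_dvd_prod_of_subset
    intro p hp
    rw [Finset.mem_map] at hp
    obtain ⟨i, -, rfl⟩ := hp
    exact i.2
  have h := Lev.base (Q := ∏ p ∈ P, p) (fun t => if B ⊆ hit P (b0 + M * t) then (1 : ℝ) else 0)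
    (∏ i ∈ B, i.1) 1 (Finset.prod_pos fun i _ => (hP i.1 i.2).pos) hd (by
      intro t
      have h1 : B ⊆ hit P (b0 + M * (t + ∏ i ∈ B, i.1)) ↔ B ⊆ hit P (b0 + M * t) := by
        have h2 : ∀ i ∈ B, (i ∈ hit P (b0 + M * (t + ∏ i ∈ B, i.1)) ↔ i ∈ hit P (b0 + M * t)) := by
          intro i hi
          unfold hit
          rw [Finset.mem_filter, Finset.mem_filter]
          simp only [Finset.mem_univ, true_and]
          have h3 : i.1 ∣ M * ∏ i ∈ B, i.1 := Dvd.dvd.mul_left (Finset.dvd_prod_of_mem _ hi) M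
          have h4 : b0 + M * (t + ∏ i ∈ B, i.1) = (b0 + M * t) + M * ∏ i ∈ B, i.1 := by ring
          rw [h4]
          exact (Nat.dvd_add_left h3)
        exact ⟨fun h i hi => (h2 i hi).1 (h hi), fun h i hi => (h2 i hi).2 (h hi)⟩
      simp only [h1]) (by
      intro t
      split_ifs <;> simp)
  simpa using h

/-- `t ↦ 1[p ∣ b + M t]` for all `p ∈ B` is periodic mod `∏_{p ∈ B} p`; and
`(s choose l) = Σ_{B ⊆ block, |B| = l} 1[B ⊆ A]` for `s = |A ∩ block|`. So the level is at most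
`Σ_{l ≤ 2r} Σ_{|B| = l} ∏_{p ∈ B} p ≤ Σ_{l ≤ 2r} X^l/l! ≤ (1 + X)^(2r)`, `X = Σ_{p ∈ block} p`
(elementary symmetric functions: `Finset.prod_pow_le..`/ or
`Σ_{|B| = l} ∏_B p ≤ X^l` and `Σ_{l ≤ 2r} X^l` with `X ≥ 2` or `X = 0`; any proof). -/
theorem levS_TT (P : Finset ℕ) (hP : ∀ p ∈ P, p.Prime) (blk : {p // p ∈ P} → ℕ) (r b : ℕ) :
    LevS P (fun A => TT r (AB blk b A).card) ((1 + XB (fun i : {p // p ∈ P} => i.1) blk b) ^ (2 * r)) := by
  intro M b0
  have hQ : 0 < ∏ p ∈ P, p := Finset.prod_pos fun p hp => (hP p hp).pos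
  set X := XB (fun i : {p // p ∈ P} => i.1) blk b with hX
  have hX0 : 0 ≤ X := Finset.sum_nonneg fun i _ => by positivity
  have hl : ∀ l ∈ range (2 * r + 1), Lev (∏ p ∈ P, p)
      (fun t => (-1 : ℝ) ^ l * ∑ B ∈ (univ.filter (fun i => blk i = b)).powersetCard l,
        if B ⊆ hit P (b0 + M * t) then (1 : ℝ) else 0) (X ^ l * ((2 * r).choose l : ℕ)) := by
    intro l hlr
    have h1 := Lev.sum ((univ.filter (fun i => blk i = b)).powersetCard l)
      (fun B t => if B ⊆ hit P (b0 + M * t) then (1 : ℝ) else 0)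
      (fun B => ∏ i ∈ B, (i.1 : ℝ)) hQ (fun B _ => lv3_ind P hP B M b0)
    have h2 := h1.const_mul ((-1 : ℝ) ^ l)
    refine Lev.mono _ _ _ h2 ?_
    have h3 : |(-1 : ℝ) ^ l| = 1 := by rw [abs_pow, abs_neg, abs_one, one_pow]
    rw [h3, one_mul]
    have h4 := lv3_esymm (fun i : {p // p ∈ P} => (i.1 : ℝ)) (fun i => by positivity)
      (univ.filter (fun i => blk i = b)) l
    have h5 : (1 : ℝ) ≤ (((2 * r).choose l : ℕ) : ℝ) := by
      have : 0 < (2 * r).choose l := Nat.choose_pos (by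
        have := Finset.mem_range.1 hlr
        omega)
      exact_mod_cast this
    calc ∑ B ∈ (univ.filter (fun i => blk i = b)).powersetCard l, ∏ i ∈ B, (i.1 : ℝ) ≤ X ^ l := h4
      _ ≤ X ^ l * (((2 * r).choose l : ℕ) : ℝ) := le_mul_of_one_le_right (by positivity) h5
  have h := Lev.sum (range (2 * r + 1)) (fun l t => (-1 : ℝ) ^ l *
    ∑ B ∈ (univ.filter (fun i => blk i = b)).powersetCard l,
        if B ⊆ hit P (b0 + M * t) then (1 : ℝ) else 0)
    (fun l => X ^ l * ((2 * r).choose l : ℕ)) hQ hl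
  have h1 : (fun t => TT r (AB blk b (hit P (b0 + M * t))).card) = fun t =>
      ∑ l ∈ range (2 * r + 1), (-1 : ℝ) ^ l *
        ∑ B ∈ (univ.filter (fun i => blk i = b)).powersetCard l,
          if B ⊆ hit P (b0 + M * t) then (1 : ℝ) else 0 := by
    funext t
    unfold TT
    apply Finset.sum_congr rfl
    intro l _
    rw [lv3_choose]
  rw [h1]
  refine Lev.mono _ _ _ h (le_of_eq ?_)
  rw [add_comm 1 X, add_pow]
  apply Finset.sum_congr rfl
  intro l _
  rw [one_pow, mul_one]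


/-- The last factor has level at most `((1 + X)^(2 r0) + 1/2)/(1 - tau) ≤ 4 (1 + X)^(2 r0)`. -/
theorem levS_DB (P : Finset ℕ) (hP : ∀ p ∈ P, p.Prime) (q : {p // p ∈ P} → ℝ)
    (blk : {p // p ∈ P} → ℕ) (r0 N i : ℕ) (hi : i < N) (ht0 : 0 ≤ tau q blk r0 i)
    (ht : tau q blk r0 i ≤ 1 / 2) :
    LevS P (DB q blk r0 N i)
      (4 * ∏ b ∈ Ico i N, (1 + XB (fun i : {p // p ∈ P} => i.1) blk b) ^ (2 * (r0 + (b - i)))) := by
  intro M b0
  have hQ : 0 < ∏ p ∈ P, p := Finset.prod_pos fun p hp => (hP p hp).pos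
  set X : ℕ → ℝ := fun b => XB (fun i : {p // p ∈ P} => i.1) blk b with hX
  have hX0 : ∀ b, 0 ≤ X b := fun b => Finset.sum_nonneg fun i _ => by positivity
  set τ := tau q blk r0 i with hτ
  have h1 := Lev.prod (Ico (i + 1) N)
    (fun b t => TT (r0 + (b - i)) (AB blk b (hit P (b0 + M * t))).card)
    (fun b => (1 + X b) ^ (2 * (r0 + (b - i)))) hQ
    (fun b _ => levS_TT P hP blk (r0 + (b - i)) b M b0)
  have h2 := Lev.add _ _ _ _ (levS_TT P hP blk r0 i M b0) (Lev.const hQ (-τ))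
  have h3 := h2.const_mul (1 / (1 - τ))
  have h4 := Lev.mul hQ h1 h3
  have h5 : (fun t => (∏ b ∈ Ico (i + 1) N, TT (r0 + (b - i)) (AB blk b (hit P (b0 + M * t))).card) *
      (1 / (1 - τ) * (TT r0 (AB blk i (hit P (b0 + M * t))).card + -τ))) =
      fun t => DB q blk r0 N i (hit P (b0 + M * t)) := by
    funext t
    unfold DB
    rw [← hτ]
    ring
  rw [h5] at h4
  refine Lev.mono _ _ _ h4 ?_
  rw [Finset.prod_eq_prod_Ico_succ_bot hi]
  have h6 : r0 + (i - i) = r0 := by omega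
  rw [h6]
  have h7 : (0 : ℝ) ≤ ∏ b ∈ Ico (i + 1) N, (1 + X b) ^ (2 * (r0 + (b - i))) :=
    Finset.prod_nonneg fun b _ => pow_nonneg (by linarith [hX0 b]) _
  have h8 : (1 : ℝ) ≤ (1 + X i) ^ (2 * r0) := one_le_pow₀ (by linarith [hX0 i])
  have h9 : |1 / (1 - τ)| ≤ 2 := by
    have : 0 < 1 - τ := by linarith
    rw [abs_of_nonneg (by positivity), div_le_iff₀ this]
    linarith
  have h10 : |(-τ)| ≤ 1 / 2 := by
    rw [abs_neg, abs_of_nonneg ht0]
    exact ht
  have h11 : |1 / (1 - τ)| * ((1 + X i) ^ (2 * r0) + |(-τ)|) ≤ 4 * (1 + X i) ^ (2 * r0) := by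
    calc |1 / (1 - τ)| * ((1 + X i) ^ (2 * r0) + |(-τ)|) ≤
          2 * ((1 + X i) ^ (2 * r0) + |(-τ)|) := by
            apply mul_le_mul_of_nonneg_right h9
            positivity
      _ ≤ 4 * (1 + X i) ^ (2 * r0) := by linarith
  calc (∏ b ∈ Ico (i + 1) N, (1 + X b) ^ (2 * (r0 + (b - i)))) *
        (|1 / (1 - τ)| * ((1 + X i) ^ (2 * r0) + |(-τ)|))
      ≤ (∏ b ∈ Ico (i + 1) N, (1 + X b) ^ (2 * (r0 + (b - i)))) * (4 * (1 + X i) ^ (2 * r0)) :=
        mul_le_mul_of_nonneg_left h11 h7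
    _ = 4 * ((1 + X i) ^ (2 * r0) * ∏ b ∈ Ico (i + 1) N, (1 + X b) ^ (2 * (r0 + (b - i)))) := by
        ring

end Pool.Agent.Lib.H15P
end

-- from Lib.H15P.MK1
section

/-!
# Chunk MK1: verification of the hypotheses on the blocks (block ratio `4000`)
-/

open Finset

namespace Pool.Agent.Lib.H15P

/-- The constant bounding the sums over a block. -/
noncomputable def sig : ℝ := 4 * Real.log (1000 * (4000 : ℕ))

theorem mk1_Tpos {n : ℕ} {T : ℝ} (hT2 : 2 ≤ T / 4000 ^ n) : 2 * 4000 ^ n ≤ T := by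
  rw [le_div_iff₀ (by positivity)] at hT2
  exact hT2

/-- `T/κ^i` is decreasing in `i` -/
theorem mk1_div_le {n i : ℕ} {T : ℝ} (hT2 : 2 ≤ T / 4000 ^ n) (hi : i ≤ n) :
    T / 4000 ^ n ≤ T / ((4000 : ℕ) : ℝ) ^ i := by
  have h1 := mk1_Tpos hT2
  have h2 : (0 : ℝ) < 4000 ^ n := by positivity
  push_cast
  apply div_le_div_of_nonneg_left (by linarith) (by positivity)
  exact pow_le_pow_right₀ (by norm_num) hi

theorem mk1_big (W : ℕ) (T : ℝ) : ∀ p ∈ PP W T, W < p := by
  intro p hp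
  unfold PP at hp
  rw [Finset.mem_filter, Finset.mem_Ioc] at hp
  exact hp.1.1

/-- Chunk MK1. `block_sum_le`, `p0_le` (`1000/4000 = 1/4`; for `b < n`:
`T/κ^(b+1) ≥ T/κ^n`), `qq ≤ 2/p ≤ 1/2`, and `4000^n ≤ T/2` gives `n ≤ N`. -/
theorem blocks_ok (W K n r0 : ℕ) (T : ℝ) (hW : 2 ≤ W) (hK : 1 ≤ K) (hKW : 4 * K ^ 2 ≤ W)
    (hr0 : ∀ c S : ℕ, ∑ s ∈ Ioc (2 * (r0 + c)) S, (16 * sig) ^ s / (s.factorial : ℝ)
      ≤ (1 / 4) ^ (c + 1))
    (hT1 : Real.log W ≤ T / 4000 ^ n) (hT2 : 2 ≤ T / 4000 ^ n) :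
    Blocks (qq (PP W T) K) (fun i => bk 4000 T i.1) sig r0 n (Nat.log 4000 ⌊2 * T⌋₊ + 1) := by
  have hT := mk1_Tpos hT2
  have h4 : (0 : ℝ) < 4000 ^ n := by positivity
  refine ⟨fun i => qq_nonneg _ _ i, ?_, ?_, hr0, ?_, ?_⟩
  · intro i
    have h1 := qq_le (PP W T) W K hK hKW (mk1_big W T) i
    refine h1.trans ?_
    have h2 := mk1_big W T i.1 i.2
    have h3 : 4 ≤ W := by nlinarith
    have h5 : (4 : ℝ) ≤ (i.1 : ℝ) := by
      have : 4 ≤ i.1 := by omega
      exact_mod_cast this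
    rw [div_le_iff₀ (by linarith)]
    linarith
  · intro b
    exact block_sum_le 4000 W K T (by norm_num) hW hK hKW (by linarith) b
  · have h1 : (4000 : ℕ) ^ n ≤ ⌊2 * T⌋₊ := by
      apply Nat.le_floor
      push_cast
      linarith
    have h2 : n ≤ Nat.log 4000 ⌊2 * T⌋₊ := Nat.le_log_of_pow_le (by norm_num) h1
    omega
  · intro b hb
    have h1 := p0_le 4000 W K T (by norm_num) hW hK hKW b
      (hT1.trans (mk1_div_le hT2 (by omega))) (hT2.trans (mk1_div_le hT2 (by omega)))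
    refine h1.trans ?_
    norm_num

end Pool.Agent.Lib.H15P
end

-- from Lib.H15P.LV4
section

/-!
# Chunk LV4: level of `LL` and `LP`
-/

open Finset

namespace Pool.Agent.Lib.H15P

variable {J I : Type} [Fintype J] [DecidableEq J] [Fintype I] [DecidableEq I]

theorem lv4_mem_adm {B : Finset J} {m : I → ℕ} {l : J → Option I} :
    l ∈ adm B m ↔ (∀ j, j ∉ B → l j = none) ∧ ∀ i, cnt l i ≤ m i := by
  unfold adm
  simp

theorem lv4_card_labelled (l : J → Option I) :
    (univ.filter (fun j => l j ≠ none)).card ≤ ∑ i, cnt l i := by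
  have h1 : univ.filter (fun j => l j ≠ none) ⊆
      (univ : Finset I).biUnion (fun i => univ.filter (fun j => l j = some i)) := by
    intro j hj
    rw [Finset.mem_filter] at hj
    obtain ⟨i, hi⟩ := Option.ne_none_iff_exists'.1 hj.2
    rw [Finset.mem_biUnion]
    exact ⟨i, Finset.mem_univ i, Finset.mem_filter.2 ⟨Finset.mem_univ j, hi⟩⟩
  exact (Finset.card_le_card h1).trans Finset.card_biUnion_le

/-- `#adm ≤ Σ_l y^(Σ m - Σ cnt l) ≤ y^(Σ m) (1 + |I|/y)^|J|` with `y = |I| |J| + 1`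
(`Σ_l ∏_j a (l j)` with `a none = 1`, `a (some i) = 1/y`), and `(1 + |I|/y)^|J| ≤ e ≤ 3`. -/
theorem card_adm_le (B : Finset J) (m : I → ℕ) :
    ((adm B m).card : ℝ) ≤
      3 * ((Fintype.card I : ℝ) * Fintype.card J + 1) ^ (∑ i, m i) := by
  set y : ℝ := (Fintype.card I : ℝ) * Fintype.card J + 1 with hy
  have hy1 : 1 ≤ y := by
    rw [hy]
    have : (0 : ℝ) ≤ (Fintype.card I : ℝ) * Fintype.card J := by positivity
    linarith
  have hy0 : 0 < y := by linarith
  set a : Option I → ℝ := fun o => o.elim 1 (fun _ => y⁻¹) with ha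
  have ha0 : ∀ o, 0 ≤ a o := by
    intro o
    cases o with
    | none => simp [ha]
    | some i => simp only [ha, Option.elim]; positivity
  have hterm : ∀ l ∈ adm B m, (1 : ℝ) ≤ y ^ (∑ i, m i) * ∏ j, a (l j) := by
    intro l hl
    rw [lv4_mem_adm] at hl
    have h1 : ∏ j, a (l j) = (y⁻¹) ^ (univ.filter (fun j => l j ≠ none)).card := by
      rw [← Finset.prod_const, Finset.prod_filter]
      apply Finset.prod_congr rfl
      intro j _
      by_cases hj : l j = none
      · simp [hj, ha]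
      · obtain ⟨i, hi⟩ := Option.ne_none_iff_exists'.1 hj
        simp [hi, ha]
    have h2 : (univ.filter (fun j => l j ≠ none)).card ≤ ∑ i, m i :=
      (lv4_card_labelled l).trans (Finset.sum_le_sum fun i _ => hl.2 i)
    rw [h1]
    obtain ⟨c, hc⟩ := Nat.exists_eq_add_of_le h2
    rw [hc, pow_add, inv_pow]
    have h3 : y ^ (univ.filter (fun j => l j ≠ none)).card ≠ 0 := pow_ne_zero _ hy0.ne'
    have h4 : y ^ (univ.filter (fun j => l j ≠ none)).card * y ^ c *
        (y ^ (univ.filter (fun j => l j ≠ none)).card)⁻¹ = y ^ c := by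
      field_simp
    rw [h4]
    exact one_le_pow₀ hy1
  have hsum : ∑ l : J → Option I, ∏ j, a (l j) =
      (1 + (Fintype.card I : ℝ) * y⁻¹) ^ Fintype.card J := by
    have h1 := Finset.prod_univ_sum (fun _ : J => (univ : Finset (Option I))) (fun _ o => a o)
    rw [Fintype.piFinset_univ] at h1
    rw [← h1, Fintype.sum_option]
    simp [ha]
  have hexp : (1 + (Fintype.card I : ℝ) * y⁻¹) ^ Fintype.card J ≤ 3 := by
    have h1 : 1 + (Fintype.card I : ℝ) * y⁻¹ ≤ Real.exp ((Fintype.card I : ℝ) * y⁻¹) := by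
      have := Real.add_one_le_exp ((Fintype.card I : ℝ) * y⁻¹)
      linarith
    have h0 : 0 ≤ 1 + (Fintype.card I : ℝ) * y⁻¹ := by positivity
    calc (1 + (Fintype.card I : ℝ) * y⁻¹) ^ Fintype.card J
        ≤ (Real.exp ((Fintype.card I : ℝ) * y⁻¹)) ^ Fintype.card J := pow_le_pow_left₀ h0 h1 _
      _ = Real.exp (Fintype.card J * ((Fintype.card I : ℝ) * y⁻¹)) := by
          rw [← Real.exp_nat_mul]
      _ ≤ Real.exp 1 := by
          apply Real.exp_le_exp.2
          have h2 : (Fintype.card J : ℝ) * ((Fintype.card I : ℝ) * y⁻¹) =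
              ((Fintype.card I : ℝ) * Fintype.card J) / y := by
            field_simp
          rw [h2, div_le_one hy0, hy]
          linarith
      _ ≤ 3 := by
          have := Real.exp_one_lt_d9
          linarith
  calc ((adm B m).card : ℝ) = ∑ l ∈ adm B m, (1 : ℝ) := by simp
    _ ≤ ∑ l ∈ adm B m, y ^ (∑ i, m i) * ∏ j, a (l j) := Finset.sum_le_sum hterm
    _ ≤ ∑ l : J → Option I, y ^ (∑ i, m i) * ∏ j, a (l j) := by
        apply Finset.sum_le_sum_of_subset_of_nonneg (Finset.subset_univ _)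
        intro l _ _
        exact mul_nonneg (by positivity) (Finset.prod_nonneg fun j _ => ha0 _)
    _ = y ^ (∑ i, m i) * (1 + (Fintype.card I : ℝ) * y⁻¹) ^ Fintype.card J := by
        rw [← Finset.mul_sum, hsum]
    _ ≤ y ^ (∑ i, m i) * 3 := by
        apply mul_le_mul_of_nonneg_left hexp (by positivity)
    _ = 3 * y ^ (∑ i, m i) := by ring

theorem lv4_prod_kd (KD : I → ℝ) (l : J → Option I) :
    ∏ j, (l j).elim 1 KD = ∏ i, KD i ^ cnt l i := by
  have h1 := Finset.prod_fiberwise' (univ : Finset J) l (fun o => o.elim 1 KD)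
  rw [← h1, Fintype.prod_option]
  simp only [Option.elim, Finset.prod_const_one, one_mul, Finset.prod_const]
  rfl




end Pool.Agent.Lib.H15P
end

-- from Lib.H15P.MK2
section

/-!
# Chunk MK2: construction of the data from numerical inequalities
-/

open Finset

namespace Pool.Agent.Lib.H15P

theorem mk2_prime (W : ℕ) (T : ℝ) : ∀ p ∈ PP W T, p.Prime := by
  intro p hp
  unfold PP at hp
  rw [Finset.mem_filter] at hp
  exact hp.2

theorem mk2_LevS_mono {P : Finset ℕ} {F : Finset {p // p ∈ P} → ℝ} {K K' : ℝ}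
    (h : LevS P F K) (hK : K ≤ K') : LevS P F K' :=
  fun M b => Lev.mono _ _ _ (h M b) hK


end Pool.Agent.Lib.H15P
end

-- from Lib.H92G.G4
section

/-!
# Chunk G4: the level

Compare `H15P/LV4` (`lv4_main`, `card_adm_le`).
-/

open Finset

namespace Pool.Agent.Lib.H92G

open Pool.Agent.Lib.H15P

variable {J I : Type} [Fintype J] [DecidableEq J] [Fintype I] [DecidableEq I]

/-- Every term has level at most `|w l| ∏_i KD_i^(cnt l i) ≤ wm ∏_i KD_i^(m i)` (`KD ≥ 1`; a label
`none` contributes the constant `1`, of level `1`: `Lev.const`). `card_adm_le` for the number of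
terms. -/
theorem lev_LW (P : Finset ℕ) (hP : ∀ p ∈ P, p.Prime) (D : J → I → Finset {p // p ∈ P} → ℝ)
    (KD : I → ℝ) (hK : ∀ i, 1 ≤ KD i) (hD : ∀ j i, LevS P (D j i) (KD i)) (m : I → ℕ)
    (B : Finset J) (M : ℕ) (b : J → ℕ) (w : (J → Option I) → ℝ) (wm : ℝ) (hw0 : 0 ≤ wm)
    (hw : ∀ l, |w l| ≤ wm) :
    Lev (∏ p ∈ P, p) (fun t => LW D (adm B m) w (fun j => hit P (b j + M * t)))
      (wm * (3 * ((Fintype.card I : ℝ) * Fintype.card J + 1) ^ (∑ i, m i) *
        ∏ i, KD i ^ m i)) := by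
  have hQ : 0 < ∏ p ∈ P, p := Finset.prod_pos fun p hp => (hP p hp).pos
  have hfac : ∀ (o : Option I) (j : J), Lev (∏ p ∈ P, p)
      (fun t => dg D j o (hit P (b j + M * t))) (o.elim 1 KD) := by
    intro o j
    cases o with
    | none =>
      have h1 := Lev.const hQ 1
      rw [abs_one] at h1
      exact h1
    | some i => exact hD j i M (b j)
  have hterm : ∀ l ∈ adm B m, Lev (∏ p ∈ P, p)
      (fun t => w l * ∏ j, dg D j (l j) (hit P (b j + M * t))) (wm * ∏ i, KD i ^ m i) := by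
    intro l hl
    rw [lv4_mem_adm] at hl
    have h1 := Lev.prod (univ : Finset J) (fun j t => dg D j (l j) (hit P (b j + M * t)))
      (fun j => (l j).elim 1 KD) hQ (fun j _ => hfac (l j) j)
    have h2 := h1.const_mul (w l)
    refine Lev.mono _ _ _ h2 ?_
    rw [lv4_prod_kd]
    have h3 : ∏ i, KD i ^ cnt l i ≤ ∏ i, KD i ^ m i := by
      apply Finset.prod_le_prod
      · intro i _
        exact pow_nonneg (by linarith [hK i]) _
      · intro i _
        exact pow_le_pow_right₀ (hK i) (hl.2 i)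
    have h4 : 0 ≤ ∏ i, KD i ^ cnt l i :=
      Finset.prod_nonneg fun i _ => pow_nonneg (by linarith [hK i]) _
    calc |w l| * ∏ i, KD i ^ cnt l i ≤ wm * ∏ i, KD i ^ cnt l i :=
          mul_le_mul_of_nonneg_right (hw l) h4
      _ ≤ wm * ∏ i, KD i ^ m i := mul_le_mul_of_nonneg_left h3 hw0
  have hs := Lev.sum (adm B m) (fun l t => w l * ∏ j, dg D j (l j) (hit P (b j + M * t)))
    (fun _ => wm * ∏ i, KD i ^ m i) hQ hterm
  unfold LW
  refine Lev.mono _ _ _ hs ?_
  rw [Finset.sum_const, nsmul_eq_mul]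
  have h5 : 0 ≤ wm * ∏ i, KD i ^ m i :=
    mul_nonneg hw0 (Finset.prod_nonneg fun i _ => pow_nonneg (by linarith [hK i]) _)
  calc ((adm B m).card : ℝ) * (wm * ∏ i, KD i ^ m i)
      ≤ (3 * ((Fintype.card I : ℝ) * Fintype.card J + 1) ^ (∑ i, m i)) *
        (wm * ∏ i, KD i ^ m i) := mul_le_mul_of_nonneg_right (card_adm_le B m) h5
    _ = _ := by ring

end Pool.Agent.Lib.H92G
end

-- from Lib.H57M.B1
section

/-!
# Chunk B1: the one form functions of Brun-Hooley, with prescribed prime divisors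
-/

open Finset

namespace Pool.Agent.Lib.H57M

open Pool.Agent.Lib.H15P

theorem B1_ex_prod {ι : Type} [Fintype ι] [DecidableEq ι] (q u v : ι → ℝ) :
    ex q (fun A => ∏ i, if i ∈ A then u i else v i) = ∏ i, (u i * q i + v i * (1 - q i)) := by
  have h := Finset.prod_add (fun i => u i * q i) (fun i => v i * (1 - q i)) (univ : Finset ι)
  rw [h, powerset_univ]
  unfold ex bw
  refine sum_congr rfl fun A _ => ?_
  rw [← Finset.prod_mul_distrib, ← Finset.prod_sdiff (Finset.subset_univ A), mul_comm]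
  congr 1
  · exact prod_congr rfl fun i hi => by rw [if_pos hi, if_pos hi]
  · refine prod_congr rfl fun i hi => ?_
    have := (mem_sdiff.1 hi).2
    rw [if_neg this, if_neg this]

/-- the block with prescribed elements -/
theorem B1_block {ι : Type} [Fintype ι] [DecidableEq ι] (q : ι → ℝ) (blk : ι → ℕ) (σ : ℝ)
    (q0 : ∀ i, 0 ≤ q i) (q1 : ∀ i, q i ≤ 1 / 2) (b : ℕ)
    (hσ : ∑ i ∈ univ.filter (fun i => blk i = b), q i / (1 - q i) ≤ σ)
    (T : Finset ι) (hT : ∀ i ∈ T, blk i = b) :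
    ex q (fun A => (4 : ℝ) ^ (AB blk b A).card * (if T ⊆ AB blk b A then 1 else 0)) ≤
      8 ^ T.card * Real.exp (4 * σ) * (∏ i ∈ T, q i) * p0 q blk b := by
  have hfun : (fun A => (4 : ℝ) ^ (AB blk b A).card * (if T ⊆ AB blk b A then 1 else 0)) =
      fun A => ∏ i, if i ∈ A then (if blk i = b then (4 : ℝ) else 1)
        else (if i ∈ T then 0 else 1) := by
    funext A
    have e1 : (4 : ℝ) ^ (AB blk b A).card = ∏ i ∈ A, (if blk i = b then (4 : ℝ) else 1) := by
      rw [Finset.prod_ite, Finset.prod_const, Finset.prod_const_one, mul_one]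
      rfl
    have e2 : (if T ⊆ AB blk b A then (1 : ℝ) else 0) =
        ∏ i ∈ univ \ A, (if i ∈ T then (0 : ℝ) else 1) := by
      by_cases hTA : T ⊆ AB blk b A
      · rw [if_pos hTA]
        symm
        refine Finset.prod_eq_one fun i hi => ?_
        rw [if_neg]
        intro hiT
        have := hTA hiT
        unfold AB at this
        exact (mem_sdiff.1 hi).2 (Finset.mem_filter.1 this).1
      · rw [if_neg hTA]
        obtain ⟨i, hi, hiA⟩ := Finset.not_subset.1 hTA
        symm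
        refine Finset.prod_eq_zero (i := i) ?_ ?_
        · rw [mem_sdiff]
          refine ⟨mem_univ _, fun hA => hiA ?_⟩
          unfold AB
          exact Finset.mem_filter.2 ⟨hA, hT i hi⟩
        · rw [if_pos hi]
    rw [e1, e2]
    rw [← Finset.prod_sdiff (Finset.subset_univ A), mul_comm]
    congr 1
    · refine prod_congr rfl fun i hi => ?_
      rw [if_neg (mem_sdiff.1 hi).2]
    · exact prod_congr rfl fun i hi => by rw [if_pos hi]
  rw [hfun, B1_ex_prod]
  set B := univ.filter (fun i => blk i = b) with hB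
  have hq : ∀ i, 0 < 1 - q i := fun i => by linarith [q1 i]
  have h1 : ∏ i, ((if blk i = b then (4 : ℝ) else 1) * q i +
      (if i ∈ T then 0 else 1) * (1 - q i)) =
      ∏ i ∈ B, (4 * q i + (if i ∈ T then 0 else 1) * (1 - q i)) := by
    rw [hB, Finset.prod_filter]
    refine prod_congr rfl fun i _ => ?_
    by_cases hi : blk i = b
    · rw [if_pos hi, if_pos hi]
    · rw [if_neg hi, if_neg hi, if_neg (fun h => hi (hT i h))]
      ring
  rw [h1]
  have h2 : ∏ i ∈ B, (4 * q i + (if i ∈ T then 0 else 1) * (1 - q i)) ≤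
      ∏ i ∈ B, ((if i ∈ T then 8 * q i else 1) *
        ((1 - q i) * Real.exp (4 * (q i / (1 - q i))))) := by
    refine Finset.prod_le_prod (fun i _ => ?_) (fun i _ => ?_)
    · have := q0 i
      have := hq i
      split_ifs <;> linarith
    · have h0 := q0 i
      have h3 := hq i
      have h4 : 0 ≤ q i / (1 - q i) := div_nonneg h0 h3.le
      have h5 : 1 + 4 * (q i / (1 - q i)) ≤ Real.exp (4 * (q i / (1 - q i))) := by
        have := Real.add_one_le_exp (4 * (q i / (1 - q i)))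
        linarith
      by_cases hi : i ∈ T
      · rw [if_pos hi, if_pos hi]
        have h6 : 1 / 2 ≤ (1 - q i) * Real.exp (4 * (q i / (1 - q i))) := by
          have h7 : 1 / 2 ≤ 1 - q i := by linarith [q1 i]
          nlinarith
        nlinarith
      · rw [if_neg hi, if_neg hi, one_mul, one_mul]
        have h6 : (1 - q i) * (1 + 4 * (q i / (1 - q i))) = 4 * q i + (1 - q i) := by
          field_simp
          ring
        rw [← h6]
        exact mul_le_mul_of_nonneg_left h5 h3.le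
  refine h2.trans (le_of_eq_of_le (by rw [Finset.prod_mul_distrib, Finset.prod_mul_distrib]) ?_)
  have h3 : ∏ i ∈ B, (if i ∈ T then 8 * q i else 1) = 8 ^ T.card * ∏ i ∈ T, q i := by
    rw [Finset.prod_ite_mem]
    have : B ∩ T = T := by
      rw [Finset.inter_eq_right]
      intro i hi
      rw [hB]
      exact Finset.mem_filter.2 ⟨mem_univ _, hT i hi⟩
    rw [this, Finset.prod_mul_distrib, Finset.prod_const]
  have h4 : ∏ i ∈ B, (1 - q i) = p0 q blk b := rfl
  have h5 : ∏ i ∈ B, Real.exp (4 * (q i / (1 - q i))) ≤ Real.exp (4 * σ) := by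
    rw [← Real.exp_sum, ← Finset.mul_sum]
    apply Real.exp_le_exp.2
    linarith
  rw [h3, h4]
  have h6 : 0 ≤ 8 ^ T.card * ∏ i ∈ T, q i := by
    have := Finset.prod_nonneg (fun i (_ : i ∈ T) => q0 i)
    positivity
  have h7 : 0 ≤ p0 q blk b := Finset.prod_nonneg (fun i _ => (hq i).le)
  calc 8 ^ T.card * (∏ i ∈ T, q i) * (p0 q blk b * ∏ i ∈ B, Real.exp (4 * (q i / (1 - q i))))
      ≤ 8 ^ T.card * (∏ i ∈ T, q i) * (p0 q blk b * Real.exp (4 * σ)) := by gcongr
    _ = _ := by ring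

/-- powers of `TT` with prescribed elements -/
theorem B1_TT {ι : Type} [Fintype ι] [DecidableEq ι] (q : ι → ℝ) (blk : ι → ℕ) (σ : ℝ)
    (q0 : ∀ i, 0 ≤ q i) (q1 : ∀ i, q i ≤ 1 / 2) (b r : ℕ)
    (hσ : ∑ i ∈ univ.filter (fun i => blk i = b), q i / (1 - q i) ≤ σ)
    (T : Finset ι) (hT : ∀ i ∈ T, blk i = b) (hT1 : 1 ≤ T.card) :
    ex q (fun A => TT r (AB blk b A).card ^ 2 * (if T ⊆ AB blk b A then 1 else 0)) ≤
      (8 * Real.exp (4 * σ)) ^ T.card * (∏ i ∈ T, q i) * p0 q blk b := by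
  have hq : ∀ i, 0 < 1 - q i := fun i => by linarith [q1 i]
  have hσ0 : 0 ≤ σ := le_trans (Finset.sum_nonneg fun i _ => div_nonneg (q0 i) (hq i).le) hσ
  have h1 : ex q (fun A => TT r (AB blk b A).card ^ 2 * (if T ⊆ AB blk b A then 1 else 0)) ≤
      ex q (fun A => (4 : ℝ) ^ (AB blk b A).card * (if T ⊆ AB blk b A then 1 else 0)) := by
    refine ex_mono q q0 (fun i => by linarith [q1 i]) _ _ fun A => ?_
    have h2 := TT_le r (AB blk b A).card
    have h3 := TT_nonneg r (AB blk b A).card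
    have h4 : TT r (AB blk b A).card ^ 2 ≤ (4 : ℝ) ^ (AB blk b A).card := by
      calc TT r (AB blk b A).card ^ 2 ≤ ((2 : ℝ) ^ (AB blk b A).card) ^ 2 :=
            pow_le_pow_left₀ h3 h2 2
        _ = (4 : ℝ) ^ (AB blk b A).card := by
            rw [← pow_mul, mul_comm, pow_mul]
            norm_num
    split_ifs <;> linarith
  refine h1.trans ((B1_block q blk σ q0 q1 b hσ T hT).trans ?_)
  have h6 : 0 ≤ ∏ i ∈ T, q i := Finset.prod_nonneg (fun i _ => q0 i)
  have h7 : 0 ≤ p0 q blk b := Finset.prod_nonneg (fun i _ => (hq i).le)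
  have h8 : Real.exp (4 * σ) ≤ Real.exp (4 * σ) ^ T.card := by
    calc Real.exp (4 * σ) = Real.exp (4 * σ) ^ 1 := (pow_one _).symm
      _ ≤ Real.exp (4 * σ) ^ T.card :=
        pow_le_pow_right₀ (Real.one_le_exp (by positivity)) hT1
  rw [mul_pow]
  gcongr

theorem B1_sq (q : ℝ) (τ x : ℝ) (hx : 0 ≤ x) (ht0 : 0 ≤ τ) (ht1 : τ ≤ 1 / 2) (_hq : q = q) :
    ((x - τ) / (1 - τ)) ^ 2 ≤ 4 * x ^ 2 + 1 := by
  rw [div_pow, div_le_iff₀ (by nlinarith)]
  have h1 : (x - τ) ^ 2 ≤ x ^ 2 + 1 / 4 := by nlinarith [mul_nonneg hx ht0]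
  have h2 : 1 / 4 ≤ (1 - τ) ^ 2 := by nlinarith
  nlinarith [sq_nonneg x]

/-- As `ex_DB_sq_le` in `H15P/BH4.lean`, with the extra condition `T ⊆ A`.
Factorise over the blocks (`ex_prod_blocks`; `T ⊆ A` iff `AB blk b T ⊆ AB blk b A` for all blocks
`b` of `T`). Write `t_b = |T_b|`, `T_b = AB blk b T`, `E_b = 8 e^(4σ)`.
* Block `b > i`, `b < N`, `T_b = ∅`: `bh4_pow_le`, factor `p0 b (1 + 4^(-(b-i+1)))`.
* Block `b`, `T_b ≠ ∅`: `TT^2 ≤ 4^|A_b|` (`TT_le`), and `E [4^|A_b| 1[T_b ⊆ A_b]]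
  = ∏_{T_b} (4 q) ∏_{block ∖ T_b} (1 + 3 q)`, `1 + 3 q = (1 - q)(1 + 4 q/(1-q))`,
  `∏ (1 + 4 q/(1-q)) ≤ e^(4σ)` (hypothesis `sum`), `∏_{block ∖ T_b} (1 - q) ≤ 2^t_b p0 b`:
  at most `(8 e^(4σ))^t_b (∏_{T_b} q) p0 b` (`t_b ≥ 1`, `σ ≥ 0`).
* Block `i`: `((TT - τ)/(1 - τ))^2 ≤ 4 (TT^2 + 1/4)` (`tau_le`); if `T_i = ∅` the mean value is
  `≤ 2` as in `ex_DB_sq_le`, otherwise `≤ (∏_{T_i} q)(4 (8 e^(4σ))^t_i + 1) ≤
  2 (32 e^(4σ))^t_i ∏_{T_i} q`.
* Other blocks: `∏_{T_b} q`.
Total: `2 · 2 ∏_{b > i} p0 · (32 e^(4σ))^|T| ∏_T q` (`bh4_prod_le'`). -/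
theorem ex_DB_tilt {ι : Type} [Fintype ι] [DecidableEq ι] (q : ι → ℝ) (blk : ι → ℕ) (σ : ℝ)
    (r0 n N : ℕ) (h : Blocks q blk σ r0 n N) (i : ℕ) (hi : i < n) (T : Finset ι) :
    ex q (fun A => DB q blk r0 N i A ^ 2 * (if T ⊆ A then 1 else 0)) ≤
      (32 * Real.exp (4 * σ)) ^ T.card * (∏ p ∈ T, q p) *
        (4 * ∏ b ∈ Ico (i + 1) N, p0 q blk b) := by
  classical
  obtain ⟨ht0, ht1⟩ := tau_le q blk σ r0 n N h i hi
  have q0 := h.q0
  have q1 := bh4_q1 h
  have hq : ∀ j, 0 < 1 - q j := fun j => by linarith [h.q1 j]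
  have hσ0 : 0 ≤ σ :=
    le_trans (Finset.sum_nonneg fun j _ => div_nonneg (q0 j) (hq j).le) (h.sum i)
  have hex1 : 1 ≤ Real.exp (4 * σ) := Real.one_le_exp (by positivity)
  set τ := tau q blk r0 i with hτ
  set E := 32 * Real.exp (4 * σ) with hE
  have hE1 : 1 ≤ E := by rw [hE]; linarith
  set S := insert i (Ico (i + 1) N) ∪ T.image blk with hS
  -- the factors
  set F : ℕ → Finset ι → ℝ := fun b A' =>
    (if b = i then ((TT r0 A'.card - τ) / (1 - τ)) ^ 2
      else if b ∈ Ico (i + 1) N then TT (r0 + (b - i)) A'.card ^ 2 else 1) *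
      (if AB blk b T ⊆ A' then 1 else 0) with hF
  have hfac : (fun A => DB q blk r0 N i A ^ 2 * (if T ⊆ A then 1 else 0)) =
      fun A => ∏ b ∈ S, F b (AB blk b A) := by
    funext A
    simp only [hF]
    rw [Finset.prod_mul_distrib]
    congr 1
    · have hni : i ∉ Ico (i + 1) N := by simp
      have hsub : insert i (Ico (i + 1) N) ⊆ S := Finset.subset_union_left
      rw [← Finset.prod_subset hsub]
      · rw [Finset.prod_insert hni, if_pos rfl]
        unfold DB
        rw [mul_pow, mul_comm, ← Finset.prod_pow]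
        congr 1
        refine Finset.prod_congr rfl fun b hb => ?_
        have hb' : b ≠ i := by
          rw [Finset.mem_Ico] at hb
          omega
        rw [if_neg hb', if_pos hb]
      · intro b _ hb
        rw [Finset.mem_insert, not_or] at hb
        rw [if_neg hb.1, if_neg hb.2]
    · by_cases hTA : T ⊆ A
      · rw [if_pos hTA]
        symm
        refine Finset.prod_eq_one fun b _ => ?_
        rw [if_pos]
        unfold AB
        exact Finset.filter_subset_filter _ hTA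
      · rw [if_neg hTA]
        obtain ⟨j, hj, hjA⟩ := Finset.not_subset.1 hTA
        symm
        refine Finset.prod_eq_zero (i := blk j) ?_ ?_
        · rw [hS]
          exact Finset.mem_union_right _ (Finset.mem_image_of_mem _ hj)
        · rw [if_neg]
          intro hsub
          have : j ∈ AB blk (blk j) A := hsub (by
            unfold AB
            exact Finset.mem_filter.2 ⟨hj, rfl⟩)
          unfold AB at this
          exact hjA (Finset.mem_filter.1 this).1
  rw [hfac, ex_prod_blocks]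
  -- bounds for the factors
  set g : ℕ → ℝ := fun b =>
    if b = i then 2 else if b ∈ Ico (i + 1) N then p0 q blk b * (1 + (1 / 4) ^ (b - i + 1)) else 1
    with hg
  have hQ0 : ∀ b, 0 ≤ ∏ p ∈ AB blk b T, q p := fun b => Finset.prod_nonneg fun p _ => q0 p
  have hTb : ∀ b, ∀ p ∈ AB blk b T, blk p = b := by
    intro b p hp
    unfold AB at hp
    exact (Finset.mem_filter.1 hp).2
  have hfb : ∀ b ∈ S, ex q (fun A => F b (AB blk b A)) ≤
      E ^ (AB blk b T).card * (∏ p ∈ AB blk b T, q p) * g b := by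
    intro b _
    by_cases hbi : b = i
    · -- the block `i`
      subst hbi
      have e1 : (fun A => F b (AB blk b A)) = fun A =>
          ((TT r0 (AB blk b A).card - τ) / (1 - τ)) ^ 2 *
            (if AB blk b T ⊆ AB blk b A then 1 else 0) := by
        funext A
        simp only [hF, if_true]
      have e2 : g b = 2 := by simp only [hg, if_true]
      rw [e1, e2]
      rcases Nat.eq_zero_or_pos (AB blk b T).card with hc | hc
      · have hc' : AB blk b T = ∅ := Finset.card_eq_zero.1 hc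
        simp only [hc', Finset.empty_subset, if_true, mul_one, Finset.card_empty, pow_zero,
          Finset.prod_empty, one_mul]
        have e3 : (fun A => ((TT r0 (AB blk b A).card - τ) / (1 - τ)) ^ 2)
            = fun A => (1 / (1 - τ) ^ 2) * (TT r0 (AB blk b A).card ^ 2
              + ((-2 * τ) * TT r0 (AB blk b A).card + τ ^ 2 * 1)) := by
          funext A
          have : (1 - τ) ≠ 0 := by intro h0; linarith
          field_simp
          ring
        rw [e3, ex_const_mul, ex_add, ex_add, ex_const_mul, ex_const_mul, ex_one]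
        have e4 : ex q (fun A => TT r0 (AB blk b A).card) = τ := rfl
        rw [e4]
        have h2 := bh4_pow_le q blk σ r0 n N h b 0 2 (by norm_num) (by norm_num)
        simp only [add_zero, zero_add, pow_one] at h2
        have h3 := h.small b hi
        have h4 := bh4_p0_nonneg h b
        have h5 : ex q (fun A => TT r0 (AB blk b A).card ^ 2) ≤ 5 / 16 := by linarith
        have h6 : ex q (fun A => TT r0 (AB blk b A).card ^ 2) + (-2 * τ * τ + τ ^ 2 * 1) ≤
            5 / 16 := by nlinarith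
        have h7 : 1 / (1 - τ) ^ 2 ≤ 4 := by
          rw [div_le_iff₀ (by nlinarith)]
          nlinarith
        have h8 : 0 ≤ 1 / (1 - τ) ^ 2 := by positivity
        nlinarith
      · have h1 : ex q (fun A => ((TT r0 (AB blk b A).card - τ) / (1 - τ)) ^ 2 *
            (if AB blk b T ⊆ AB blk b A then 1 else 0)) ≤
            ex q (fun A => 4 * (TT r0 (AB blk b A).card ^ 2 *
              (if AB blk b T ⊆ AB blk b A then 1 else 0)) +
              (if AB blk b T ⊆ A then 1 else 0)) := by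
          refine ex_mono q q0 q1 _ _ fun A => ?_
          have h2 := B1_sq 0 τ (TT r0 (AB blk b A).card) (TT_nonneg _ _) ht0 ht1 rfl
          by_cases hA : AB blk b T ⊆ AB blk b A
          · have hA' : AB blk b T ⊆ A := hA.trans (by unfold AB; exact Finset.filter_subset _ _)
            rw [if_pos hA, if_pos hA']
            linarith
          · rw [if_neg hA, mul_zero, mul_zero, mul_zero, zero_add]
            split_ifs <;> norm_num
        refine h1.trans ?_
        rw [ex_add, ex_const_mul, tr3_ex_subset]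
        have h2 := B1_TT q blk σ q0 h.q1 b r0 (h.sum b) (AB blk b T) (hTb b) hc
        have h3 : p0 q blk b ≤ 1 := bh4_p0_le_one h b
        have h4 := hQ0 b
        have h5 : 0 < (8 * Real.exp (4 * σ)) ^ (AB blk b T).card := by positivity
        have h6 : (8 * Real.exp (4 * σ)) ^ (AB blk b T).card * (∏ p ∈ AB blk b T, q p) *
            p0 q blk b ≤ (8 * Real.exp (4 * σ)) ^ (AB blk b T).card *
              (∏ p ∈ AB blk b T, q p) := by
          have : 0 ≤ (8 * Real.exp (4 * σ)) ^ (AB blk b T).card * (∏ p ∈ AB blk b T, q p) := by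
            positivity
          nlinarith
        have h7 : 4 * (8 * Real.exp (4 * σ)) ^ (AB blk b T).card ≤ E ^ (AB blk b T).card := by
          have e3 : E = 4 * (8 * Real.exp (4 * σ)) := by rw [hE]; ring
          rw [e3, mul_pow 4 (8 * Real.exp (4 * σ))]
          have : (4 : ℝ) ≤ 4 ^ (AB blk b T).card := by
            calc (4 : ℝ) = 4 ^ 1 := (pow_one _).symm
              _ ≤ 4 ^ (AB blk b T).card := pow_le_pow_right₀ (by norm_num) hc
          exact mul_le_mul_of_nonneg_right this h5.le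
        have h8 : 1 ≤ E ^ (AB blk b T).card := one_le_pow₀ hE1
        have h9 : 4 * ((8 * Real.exp (4 * σ)) ^ (AB blk b T).card * (∏ p ∈ AB blk b T, q p)) ≤
            E ^ (AB blk b T).card * (∏ p ∈ AB blk b T, q p) := by
          calc 4 * ((8 * Real.exp (4 * σ)) ^ (AB blk b T).card * (∏ p ∈ AB blk b T, q p))
              = (4 * (8 * Real.exp (4 * σ)) ^ (AB blk b T).card) * (∏ p ∈ AB blk b T, q p) := by
                ring
            _ ≤ _ := mul_le_mul_of_nonneg_right h7 h4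
        have h10 : (∏ p ∈ AB blk b T, q p) ≤
            E ^ (AB blk b T).card * (∏ p ∈ AB blk b T, q p) := by
          nlinarith
        linarith
    · by_cases hbN : b ∈ Ico (i + 1) N
      · have e1 : (fun A => F b (AB blk b A)) = fun A =>
            TT (r0 + (b - i)) (AB blk b A).card ^ 2 *
              (if AB blk b T ⊆ AB blk b A then 1 else 0) := by
          funext A
          simp only [hF, if_neg hbi, if_pos hbN]
        have e2 : g b = p0 q blk b * (1 + (1 / 4) ^ (b - i + 1)) := by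
          simp only [hg, if_neg hbi, if_pos hbN]
        rw [e1, e2]
        have h4 := bh4_p0_nonneg h b
        have h45 : (0 : ℝ) ≤ (1 / 4) ^ (b - i + 1) := by positivity
        rcases Nat.eq_zero_or_pos (AB blk b T).card with hc | hc
        · have hc' : AB blk b T = ∅ := Finset.card_eq_zero.1 hc
          simp only [hc', Finset.empty_subset, if_true, mul_one, Finset.card_empty, pow_zero,
            Finset.prod_empty, one_mul]
          exact bh4_pow_le q blk σ r0 n N h b (b - i) 2 (by norm_num) (by norm_num)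
        · refine (B1_TT q blk σ q0 h.q1 b (r0 + (b - i)) (h.sum b) (AB blk b T) (hTb b) hc).trans ?_
          have h5 := hQ0 b
          have h6 : (8 * Real.exp (4 * σ)) ^ (AB blk b T).card ≤ E ^ (AB blk b T).card := by
            apply pow_le_pow_left₀ (by positivity)
            rw [hE]
            linarith
          have h7 : p0 q blk b ≤ p0 q blk b * (1 + (1 / 4) ^ (b - i + 1)) := by nlinarith
          have hE0 : 0 ≤ E ^ (AB blk b T).card := by positivity
          exact mul_le_mul (mul_le_mul_of_nonneg_right h6 h5) h7 h4 (mul_nonneg hE0 h5)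
      · have e1 : (fun A => F b (AB blk b A)) = fun A =>
            (if AB blk b T ⊆ A then (1 : ℝ) else 0) := by
          funext A
          simp only [hF, if_neg hbi, if_neg hbN, one_mul]
          have : AB blk b T ⊆ AB blk b A ↔ AB blk b T ⊆ A := by
            constructor
            · intro hA
              exact hA.trans (by unfold AB; exact Finset.filter_subset _ _)
            · intro hA x hx
              unfold AB
              rw [Finset.mem_filter]
              exact ⟨hA hx, hTb b x hx⟩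
          by_cases hA : AB blk b T ⊆ A
          · rw [if_pos hA, if_pos (this.2 hA)]
          · rw [if_neg hA, if_neg (fun h' => hA (this.1 h'))]
        have e2 : g b = 1 := by
          simp only [hg, if_neg hbi, if_neg hbN]
        rw [e1, e2, tr3_ex_subset, mul_one]
        have h8 : 1 ≤ E ^ (AB blk b T).card := one_le_pow₀ hE1
        have := hQ0 b
        nlinarith
  have hnn : ∀ b ∈ S, 0 ≤ ex q (fun A => F b (AB blk b A)) := by
    intro b _
    refine ex_nonneg q q0 q1 _ fun A => ?_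
    simp only [hF]
    refine mul_nonneg ?_ (by split_ifs <;> norm_num)
    split_ifs
    · positivity
    · positivity
    · norm_num
  refine (Finset.prod_le_prod hnn hfb).trans ?_
  rw [Finset.prod_mul_distrib, Finset.prod_mul_distrib]
  -- the three products
  have hmaps : ∀ p ∈ T, blk p ∈ S := fun p hp => by
    rw [hS]
    exact Finset.mem_union_right _ (Finset.mem_image_of_mem _ hp)
  have p1 : ∏ b ∈ S, E ^ (AB blk b T).card = E ^ T.card := by
    rw [Finset.prod_pow_eq_pow_sum]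
    congr 1
    exact (Finset.card_eq_sum_card_fiberwise hmaps).symm
  have p2 : ∏ b ∈ S, ∏ p ∈ AB blk b T, q p = ∏ p ∈ T, q p :=
    Finset.prod_fiberwise_of_maps_to hmaps q
  have p3 : ∏ b ∈ S, g b ≤ 4 * ∏ b ∈ Ico (i + 1) N, p0 q blk b := by
    have hni : i ∉ Ico (i + 1) N := by simp
    have hsub : insert i (Ico (i + 1) N) ⊆ S := Finset.subset_union_left
    rw [← Finset.prod_subset hsub]
    · rw [Finset.prod_insert hni]
      have e1 : g i = 2 := by simp only [hg, if_true]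
      have e2 : ∏ b ∈ Ico (i + 1) N, g b ≤ 2 * ∏ b ∈ Ico (i + 1) N, p0 q blk b := by
        calc ∏ b ∈ Ico (i + 1) N, g b
            ≤ ∏ b ∈ Ico (i + 1) N, (p0 q blk b * (1 + (1 / 4 : ℝ) ^ (b - (i + 1) + 1))) := by
              refine Finset.prod_le_prod (fun b hb => ?_) (fun b hb => ?_)
              · have hb' : b ≠ i := by
                  rw [Finset.mem_Ico] at hb
                  omega
                simp only [hg, if_neg hb', if_pos hb]
                have := bh4_p0_nonneg h b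
                positivity
              · have hb' : b ≠ i := by
                  rw [Finset.mem_Ico] at hb
                  omega
                simp only [hg, if_neg hb', if_pos hb]
                apply mul_le_mul_of_nonneg_left _ (bh4_p0_nonneg h b)
                have : (1 / 4 : ℝ) ^ (b - i + 1) ≤ (1 / 4) ^ (b - (i + 1) + 1) :=
                  pow_le_pow_of_le_one (by norm_num) (by norm_num) (by omega)
                linarith
          _ = (∏ b ∈ Ico (i + 1) N, p0 q blk b) *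
                ∏ b ∈ Ico (i + 1) N, (1 + (1 / 4 : ℝ) ^ (b - (i + 1) + 1)) :=
              Finset.prod_mul_distrib
          _ ≤ (∏ b ∈ Ico (i + 1) N, p0 q blk b) * 2 :=
              mul_le_mul_of_nonneg_left (bh4_prod_le' (i + 1) N)
                (Finset.prod_nonneg (fun b _ => bh4_p0_nonneg h b))
          _ = _ := mul_comm _ _
      rw [e1]
      linarith
    · intro b _ hb
      rw [Finset.mem_insert, not_or] at hb
      simp only [hg, if_neg hb.1, if_neg hb.2]
  rw [p1, p2]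
  have h6 : 0 ≤ ∏ p ∈ T, q p := Finset.prod_nonneg (fun p _ => q0 p)
  exact mul_le_mul_of_nonneg_left p3 (by positivity)

end Pool.Agent.Lib.H57M
end

-- from Lib.H57M.R1
section

/-!
# Chunk R1: construction of the weight
-/

open Finset

namespace Pool.Agent.Lib.H57M

open Pool.Agent.Lib.H15P Pool.Agent.Lib.H92G

theorem R1_sum_s (n : ℕ) :
    ∑ i : Fin n, (4000 : ℝ) ^ ((i : ℕ) + 1) / (2 * 4000 ^ n) ≤ 1 := by
  have h1 : ∀ n : ℕ, ∑ i ∈ range n, (4000 : ℝ) ^ (i + 1) ≤ 2 * 4000 ^ n - 1 := by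
    intro n
    induction n with
    | zero => simp
    | succ n ih =>
      rw [Finset.sum_range_succ]
      have h2 : (1 : ℝ) ≤ 4000 ^ n := one_le_pow₀ (by norm_num)
      have h3 : (4000 : ℝ) ^ (n + 1) = 4000 ^ n * 4000 := pow_succ _ _
      rw [h3]
      nlinarith
  have h2 := h1 n
  rw [Fin.sum_univ_eq_sum_range (fun i => (4000 : ℝ) ^ (i + 1) / (2 * 4000 ^ n)),
    ← Finset.sum_div]
  have h3 : (1 : ℝ) ≤ 4000 ^ n := one_le_pow₀ (by norm_num)
  rw [div_le_one (by positivity)]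
  linarith

theorem R1_sum_exp (n : ℕ) : ∑ i : Fin n, Real.exp (-((i : ℕ) + 2 : ℝ)) ≤ 1 / 4 := by
  have he : Real.exp (-1) ≤ 0.3679 := by
    rw [Real.exp_neg, inv_le_comm₀ (Real.exp_pos 1) (by norm_num)]
    have := Real.exp_one_gt_d9
    norm_num
    linarith
  have he0 : 0 < Real.exp (-1) := Real.exp_pos _
  have h1 : ∀ n : ℕ, ∑ i ∈ range n, Real.exp (-((i : ℕ) + 2 : ℝ)) ≤
      1 / 4 - 1 / 4 * Real.exp (-1) ^ n := by
    intro n
    induction n with
    | zero => simp
    | succ n ih =>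
      rw [Finset.sum_range_succ]
      have h2 : Real.exp (-((n : ℕ) + 2 : ℝ)) = Real.exp (-1) ^ n * Real.exp (-1) ^ 2 := by
        rw [← Real.exp_nat_mul, ← Real.exp_nat_mul, ← Real.exp_add]
        congr 1
        push_cast
        ring
      have h4 : Real.exp (-1) ^ (n + 1) = Real.exp (-1) ^ n * Real.exp (-1) := pow_succ _ _
      rw [h2, h4]
      have h3 : 0 < Real.exp (-1) ^ n := by positivity
      have h5 : Real.exp (-1) ^ 2 ≤ 1 / 4 - 1 / 4 * Real.exp (-1) := by nlinarith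
      nlinarith [mul_le_mul_of_nonneg_left h5 h3.le]
  have h2 := h1 n
  rw [Fin.sum_univ_eq_sum_range (fun i => Real.exp (-((i : ℕ) + 2 : ℝ)))]
  have h3 : 0 < Real.exp (-1) ^ n := by positivity
  linarith

/-- the number of the forms with label `i` -/
def R1_m (i : ℕ) : ℕ := 4000 ^ (i + 1) + i + 2


theorem R1_sum_m (n : ℕ) (U : ℝ) (hU : 0 ≤ U) :
    ∑ i : Fin n, (R1_m i : ℝ) * (U / 4000 ^ (i : ℕ)) ≤ 4004 * n * U := by
  have h1 : ∀ i : Fin n, (R1_m i : ℝ) * (U / 4000 ^ (i : ℕ)) ≤ 4004 * U := by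
    intro i
    have h4 : (0 : ℝ) < 4000 ^ (i : ℕ) := by positivity
    have h2 : ((i : ℕ) : ℝ) + 2 ≤ 2 * 4000 ^ (i : ℕ) := by
      have h3 : ∀ k : ℕ, (k : ℝ) + 2 ≤ 2 * 4000 ^ k := by
        intro k
        induction k with
        | zero => simp
        | succ k ih =>
          push_cast
          rw [pow_succ]
          have : (1 : ℝ) ≤ 4000 ^ k := one_le_pow₀ (by norm_num)
          nlinarith
      exact h3 i
    have h3 : (R1_m i : ℝ) ≤ 4004 * 4000 ^ (i : ℕ) := by
      unfold R1_m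
      push_cast
      rw [pow_succ]
      nlinarith
    calc (R1_m i : ℝ) * (U / 4000 ^ (i : ℕ)) ≤ (4004 * 4000 ^ (i : ℕ)) * (U / 4000 ^ (i : ℕ)) := by
          gcongr
      _ = 4004 * U := by field_simp
  calc ∑ i : Fin n, (R1_m i : ℝ) * (U / 4000 ^ (i : ℕ)) ≤ ∑ _i : Fin n, 4004 * U :=
        Finset.sum_le_sum fun i _ => h1 i
    _ = 4004 * n * U := by
        rw [Finset.sum_const, Finset.card_univ, Fintype.card_fin, nsmul_eq_mul]
        ring


end Pool.Agent.Lib.H57M
end

-- from Lib.H57M.B2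
section

/-!
# Chunk B2: the fourth moment for a bounded number of forms
-/

open Finset

namespace Pool.Agent.Lib.H57M

open Pool.Agent.Lib.H15P Pool.Agent.Lib.H92G

/-- Copy of the proof of `EX_LG_four_le` (`H92G/G2.lean`), stopping at the product
`(1 + ((|I|+1)^4 - 1) h)^|B|` with `B = univ`; and `1 + (a - 1) h ≤ a (1 + h)` for `a ≥ 1`. -/
theorem EX_LG_four_le2 {ι J I : Type} [Fintype ι] [DecidableEq ι] [Fintype J] [DecidableEq J]
    [Fintype I] [DecidableEq I] (q : ι → ℝ) (D : J → I → Finset ι → ℝ) (h : ℝ)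
    (hg : GoodJ q D h) (hh : 0 ≤ h) (m : I → ℕ) :
    EX q (fun S : J → Finset ι => LG D m univ S ^ 4)
      ≤ (((Fintype.card I : ℝ) + 1) ^ 4 * (1 + h)) ^ Fintype.card J := by
  classical
  obtain ⟨B, hB⟩ : ∃ B : Finset J, B = univ := ⟨_, rfl⟩
  rw [← hB]
  set E : (Fin 4 → Option I) → ℝ := fun o => if o = (fun _ => none) then 1 else h with hE
  have hE0 : ∀ o, 0 ≤ E o := by
    intro o
    simp only [hE]
    split_ifs
    · exact zero_le_one
    · exact hh
  have h4 : ∀ S : J → Finset ι, LG D m B S ^ 4 =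
      ∑ x ∈ Fintype.piFinset (fun _ : Fin 4 => adm B m), ∏ j, ∏ k, dg D j (x k j) (S j) := by
    intro S
    have e1 : LG D m B S ^ 4 = ∏ _k : Fin 4, ∑ l ∈ adm B m, ∏ j, dg D j (l j) (S j) := by
      rw [Finset.prod_const, Finset.card_univ, Fintype.card_fin]
      unfold LG LW
      simp only [one_mul]
    rw [e1, Finset.prod_univ_sum]
    refine Finset.sum_congr rfl (fun x _ => ?_)
    rw [Finset.prod_comm]
  have h5 : EX q (fun S : J → Finset ι => LG D m B S ^ 4) =
      ∑ x ∈ Fintype.piFinset (fun _ : Fin 4 => adm B m),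
        ∏ j, ex q (fun A => ∏ k, dg D j (x k j) A) := by
    have e2 : (fun S : J → Finset ι => LG D m B S ^ 4) = (fun S : J → Finset ι =>
        ∑ x ∈ Fintype.piFinset (fun _ : Fin 4 => adm B m), ∏ j, ∏ k, dg D j (x k j) (S j)) :=
      funext h4
    rw [e2, EX_sum]
    refine Finset.sum_congr rfl (fun x _ => ?_)
    exact EX_prod q (fun j A => ∏ k, dg D j (x k j) A)
  have h6 : ∀ (j : J) (o : Fin 4 → Option I), |ex q (fun A => ∏ k, dg D j (o k) A)| ≤ E o := by
    intro j o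
    by_cases ho : o = (fun _ => none)
    · subst ho
      simp only [hE, if_true, dg, Finset.prod_const_one]
      rw [ex_one, abs_one]
    · have ho' : ∃ k, o k ≠ none := by
        by_contra hcon
        push Not at hcon
        exact ho (funext hcon)
      simp only [hE, if_neg ho]
      exact abs_ex_four_leJ q D h hg hh j o ho'
  have hinj : Function.Injective
      (fun (x : Fin 4 → J → Option I) (j : J) (k : Fin 4) => x k j) := by
    intro x y hxy
    funext k j
    exact congrFun (congrFun hxy j) k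
  have hcard : ∑ ω, E ω ≤ 1 + ((Fintype.card I : ℝ) + 1) ^ 4 * h := by
    rw [← Finset.add_sum_erase univ E (Finset.mem_univ (fun _ => none))]
    have e3 : E (fun _ => none) = 1 := by simp only [hE, if_true]
    have e4 : ∑ ω ∈ univ.erase (fun _ : Fin 4 => (none : Option I)), E ω
        = ∑ ω ∈ univ.erase (fun _ : Fin 4 => (none : Option I)), h := by
      refine Finset.sum_congr rfl (fun ω hω => ?_)
      simp only [hE, if_neg (Finset.ne_of_mem_erase hω)]
    rw [e3, e4, Finset.sum_const, nsmul_eq_mul]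
    have e5 : ((univ.erase (fun _ : Fin 4 => (none : Option I))).card : ℝ)
        ≤ ((Fintype.card I : ℝ) + 1) ^ 4 := by
      have : (univ.erase (fun _ : Fin 4 => (none : Option I))).card
          ≤ (Fintype.card I + 1) ^ 4 := by
        refine (Finset.card_erase_le).trans ?_
        rw [Finset.card_univ, Fintype.card_fun, Fintype.card_option, Fintype.card_fin]
      exact_mod_cast this
    have := mul_le_mul_of_nonneg_right e5 hh
    linarith
  rw [h5]
  calc ∑ x ∈ Fintype.piFinset (fun _ : Fin 4 => adm B m),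
        ∏ j, ex q (fun A => ∏ k, dg D j (x k j) A)
      ≤ ∑ x ∈ Fintype.piFinset (fun _ : Fin 4 => adm B m), ∏ j, E (fun k => x k j) := by
        apply Finset.sum_le_sum
        intro x _
        refine (le_abs_self _).trans ?_
        rw [Finset.abs_prod]
        exact Finset.prod_le_prod (fun j _ => abs_nonneg _) (fun j _ => h6 j _)
    _ = ∑ y ∈ (Fintype.piFinset (fun _ : Fin 4 => adm B m)).image
          (fun (x : Fin 4 → J → Option I) (j : J) (k : Fin 4) => x k j), ∏ j, E (y j) := by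
        rw [Finset.sum_image (fun a _ b _ hab => hinj hab)]
    _ ≤ ∑ y ∈ univ.filter (fun y : J → (Fin 4 → Option I) => ∀ j, j ∉ B → y j = fun _ => none),
          ∏ j, E (y j) := by
        apply Finset.sum_le_sum_of_subset_of_nonneg
        · intro y hy
          obtain ⟨x, hx, rfl⟩ := Finset.mem_image.1 hy
          refine Finset.mem_filter.2 ⟨Finset.mem_univ _, ?_⟩
          intro j hj
          funext k
          have h7 := (Fintype.mem_piFinset.1 hx) k
          unfold adm at h7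
          exact (Finset.mem_filter.1 h7).2.1 j hj
        · intro y _ _
          exact Finset.prod_nonneg (fun j _ => hE0 _)
    _ = (∑ ω, E ω) ^ B.card :=
        sum_supp (fun _ : Fin 4 => (none : Option I)) E (by simp only [hE, if_true]) B
    _ ≤ (((Fintype.card I : ℝ) + 1) ^ 4 * (1 + h)) ^ B.card := by
        apply pow_le_pow_left₀ (Finset.sum_nonneg (fun ω _ => hE0 ω))
        refine hcard.trans ?_
        have h8 : (1 : ℝ) ≤ ((Fintype.card I : ℝ) + 1) ^ 4 := by
          apply one_le_pow₀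
          have : (0 : ℝ) ≤ (Fintype.card I : ℝ) := Nat.cast_nonneg _
          linarith
        nlinarith
    _ = (((Fintype.card I : ℝ) + 1) ^ 4 * (1 + h)) ^ Fintype.card J := by
        rw [hB, Finset.card_univ]

end Pool.Agent.Lib.H57M
end

-- from Lib.H57M.B3
section

/-!
# Chunk B3: second moments of the weight function with prescribed prime divisors
-/

open Finset

namespace Pool.Agent.Lib.H57M

open Pool.Agent.Lib.H15P Pool.Agent.Lib.H92G

variable {K : ℕ} {J : Type} [Fintype J] [DecidableEq J]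

/-- Cauchy-Schwarz over the labelings: `L^2 ≤ #(labelings) ∑_l ∏_j dg^2`, with at most
`(n + 1)^K` labelings (`sq_sum_le_card_mul_sum_sq`). Mean value of the product by `EX_prod`:
`∏_j ex (dg(l_j)^2 1[T_j ⊆ A])`, at most `Dt^|T_j| ∏_{T_j} q · (1 or s i)` for the label `none` or `i`
(for `none`: `ex 1[T ⊆ A] = ∏_T q`, `tr3_ex_subset`; `Par.tilt`). Sum over all functions
`l : J → Option (Fin n)` = product over `j` of the sums, each at most
`(1 + ∑ s) Dt^|T_j| ∏ q ≤ 2 Dt^|T_j| ∏ q`. -/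
theorem Par.EX_tilt (w : Par K) (hJ : Fintype.card J = K) (T : J → Finset {p // p ∈ w.P}) :
    EX (qq w.P K) (fun S : J → Finset {p // p ∈ w.P} =>
        w.L S ^ 2 * ∏ j, (if T j ⊆ S j then 1 else 0))
      ≤ w.CL * w.Dt ^ (∑ j, (T j).card) * ∏ j, ∏ p ∈ T j, qq w.P K p := by
  classical
  have hq0 : ∀ i, 0 ≤ qq w.P K i := w.good.q0
  have hq1 : ∀ i, qq w.P K i ≤ 1 := w.good.q1
  set q := qq w.P K with hq
  set D : J → Fin w.n → Finset {p // p ∈ w.P} → ℝ := fun _ => w.D with hD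
  have hDt0 : 0 ≤ w.Dt := zero_le_one.trans w.Dt1
  -- the cardinality of the set of the labelings
  have hcard : ((Fintype.card (J → Option (Fin w.n)) : ℕ) : ℝ) = ((w.n : ℝ) + 1) ^ K := by
    rw [Fintype.card_fun, Fintype.card_option, Fintype.card_fin, hJ]
    push_cast
    rfl
  -- pointwise bound
  have hpt : ∀ S : J → Finset {p // p ∈ w.P},
      w.L S ^ 2 * ∏ j, (if T j ⊆ S j then (1 : ℝ) else 0) ≤
      ((w.n : ℝ) + 1) ^ K * ∑ l : J → Option (Fin w.n),
        ∏ j, (dg D j (l j) (S j) ^ 2 * (if T j ⊆ S j then (1 : ℝ) else 0)) := by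
    intro S
    have h1 : w.L S = ∑ l ∈ adm (univ : Finset J) w.m, ∏ j, dg D j (l j) (S j) := by
      unfold Par.L LG LW
      simp only [one_mul, hD]
    have h2 : w.L S ^ 2 ≤ ((w.n : ℝ) + 1) ^ K * ∑ l : J → Option (Fin w.n),
        ∏ j, dg D j (l j) (S j) ^ 2 := by
      rw [h1]
      refine (sq_sum_le_card_mul_sum_sq).trans ?_
      have h3 : ((adm (univ : Finset J) w.m).card : ℝ) ≤ ((w.n : ℝ) + 1) ^ K := by
        rw [← hcard]
        exact_mod_cast Finset.card_le_univ _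
      have h4 : ∑ l ∈ adm (univ : Finset J) w.m, (∏ j, dg D j (l j) (S j)) ^ 2 ≤
          ∑ l : J → Option (Fin w.n), ∏ j, dg D j (l j) (S j) ^ 2 := by
        refine (Finset.sum_le_univ_sum_of_nonneg fun l => sq_nonneg _).trans (le_of_eq ?_)
        exact Finset.sum_congr rfl fun l _ => by rw [Finset.prod_pow]
      exact mul_le_mul h3 h4 (Finset.sum_nonneg fun l _ => sq_nonneg _) (by positivity)
    have h5 : (0 : ℝ) ≤ ∏ j, (if T j ⊆ S j then (1 : ℝ) else 0) :=
      Finset.prod_nonneg fun j _ => by split_ifs <;> norm_num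
    refine (mul_le_mul_of_nonneg_right h2 h5).trans (le_of_eq ?_)
    rw [mul_assoc, Finset.sum_mul]
    congr 1
    exact Finset.sum_congr rfl fun l _ => by rw [Finset.prod_mul_distrib]
  refine (EX_mono q hq0 hq1 _ _ hpt).trans ?_
  rw [EX_const_mul, EX_sum]
  -- each labeling
  set B : J → ℝ := fun j => w.Dt ^ (T j).card * ∏ p ∈ T j, q p with hB
  have hB0 : ∀ j, 0 ≤ B j := fun j =>
    mul_nonneg (pow_nonneg hDt0 _) (Finset.prod_nonneg fun p _ => hq0 p)
  set σ : Option (Fin w.n) → ℝ := fun o => match o with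
    | none => 1
    | some i => w.s i with hσ
  have hσ0 : ∀ o, 0 ≤ σ o := by
    rintro (_ | i)
    · exact zero_le_one
    · exact w.s0 i
  have hone : ∀ (j : J) (o : Option (Fin w.n)),
      ex q (fun A => dg D j o A ^ 2 * (if T j ⊆ A then (1 : ℝ) else 0)) ≤ B j * σ o := by
    intro j o
    rcases o with _ | i
    · have e1 : (fun A => dg D j (none : Option (Fin w.n)) A ^ 2 * (if T j ⊆ A then (1 : ℝ) else 0)) =
          fun A => (if T j ⊆ A then (1 : ℝ) else 0) := by
        funext A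
        simp only [dg, one_pow, one_mul]
      rw [e1, tr3_ex_subset]
      have h1 : (1 : ℝ) ≤ w.Dt ^ (T j).card := one_le_pow₀ w.Dt1
      have h2 : (0 : ℝ) ≤ ∏ p ∈ T j, q p := Finset.prod_nonneg fun p _ => hq0 p
      show ∏ p ∈ T j, q p ≤ w.Dt ^ (T j).card * (∏ p ∈ T j, q p) * 1
      nlinarith
    · exact w.tilt i (T j)
  have hlab : ∀ l : J → Option (Fin w.n),
      EX q (fun S : J → Finset {p // p ∈ w.P} =>
        ∏ j, (dg D j (l j) (S j) ^ 2 * (if T j ⊆ S j then (1 : ℝ) else 0))) ≤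
      ∏ j, (B j * σ (l j)) := by
    intro l
    rw [EX_prod q (fun j A => dg D j (l j) A ^ 2 * (if T j ⊆ A then (1 : ℝ) else 0))]
    refine Finset.prod_le_prod (fun j _ => ex_nonneg q hq0 hq1 _ fun A => ?_) fun j _ => hone j (l j)
    refine mul_nonneg (sq_nonneg _) ?_
    split_ifs <;> norm_num
  have hsum : ∑ l : J → Option (Fin w.n),
      EX q (fun S : J → Finset {p // p ∈ w.P} =>
        ∏ j, (dg D j (l j) (S j) ^ 2 * (if T j ⊆ S j then (1 : ℝ) else 0))) ≤
      2 ^ K * ∏ j, B j := by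
    refine (Finset.sum_le_sum fun l _ => hlab l).trans ?_
    have h1 := Finset.prod_univ_sum (fun _ : J => (univ : Finset (Option (Fin w.n))))
      (fun j o => B j * σ o)
    rw [Fintype.piFinset_univ] at h1
    rw [← h1]
    have h2 : ∀ j, ∑ o, B j * σ o ≤ 2 * B j := by
      intro j
      rw [← Finset.mul_sum, Fintype.sum_option]
      have h3 : σ none + ∑ i, σ (some i) ≤ 2 := by
        show 1 + ∑ i, w.s i ≤ 2
        linarith [w.hs]
      nlinarith [hB0 j]
    refine (Finset.prod_le_prod (fun j _ => Finset.sum_nonneg fun o _ =>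
      mul_nonneg (hB0 j) (hσ0 o)) fun j _ => h2 j).trans (le_of_eq ?_)
    rw [Finset.prod_mul_distrib, Finset.prod_const, Finset.card_univ, hJ]
  refine (mul_le_mul_of_nonneg_left hsum (by positivity)).trans (le_of_eq ?_)
  have h1 : ∏ j, B j = w.Dt ^ (∑ j, (T j).card) * ∏ j, ∏ p ∈ T j, q p := by
    rw [hB, Finset.prod_mul_distrib, Finset.prod_pow_eq_pow_sum]
  rw [h1, Par.CL, mul_pow]
  ring

theorem B3_EX_add {ι : Type} [Fintype ι] [DecidableEq ι] (q : ι → ℝ) (F G : (J → Finset ι) → ℝ) :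
    EX q (fun S => F S + G S) = EX q F + EX q G := by
  unfold EX
  rw [← Finset.sum_add_distrib]
  exact Finset.sum_congr rfl fun S _ => by rw [add_mul]

theorem B3_single (w : Par K) (hJ : Fintype.card J = K) (p : {p // p ∈ w.P}) (j : J) :
    EX (qq w.P K) (fun S : J → Finset {p // p ∈ w.P} =>
        w.L S ^ 2 * (if p ∈ S j then 1 else 0)) ≤ w.CL * w.Dt * qq w.P K p := by
  have h := w.EX_tilt hJ (fun l => if l = j then {p} else ∅)
  have e1 : (fun S : J → Finset {p // p ∈ w.P} => w.L S ^ 2 *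
      ∏ l, (if (if l = j then ({p} : Finset {p // p ∈ w.P}) else ∅) ⊆ S l then (1 : ℝ) else 0)) =
      (fun S : J → Finset {p // p ∈ w.P} => w.L S ^ 2 * (if p ∈ S j then 1 else 0)) := by
    funext S
    rw [Finset.prod_eq_single j]
    · rw [if_pos rfl]
      simp only [Finset.singleton_subset_iff]
    · intro l _ hl
      rw [if_neg hl, if_pos (Finset.empty_subset _)]
    · intro h
      exact absurd (mem_univ j) h
  have e2 : ∑ l, (if l = j then ({p} : Finset {p // p ∈ w.P}) else ∅).card = 1 := by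
    rw [Finset.sum_eq_single j]
    · rw [if_pos rfl, card_singleton]
    · intro l _ hl
      rw [if_neg hl, card_empty]
    · intro h
      exact absurd (mem_univ j) h
  have e3 : ∏ l, ∏ p' ∈ (if l = j then ({p} : Finset {p // p ∈ w.P}) else ∅), qq w.P K p' =
      qq w.P K p := by
    rw [Finset.prod_eq_single j]
    · rw [if_pos rfl, prod_singleton]
    · intro l _ hl
      rw [if_neg hl, prod_empty]
    · intro h
      exact absurd (mem_univ j) h
  rw [e1, e2, e3, pow_one] at h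
  exact h

theorem B3_pair (w : Par K) (hJ : Fintype.card J = K) (p : {p // p ∈ w.P}) (j j' : J) (hjj : j ≠ j') :
    EX (qq w.P K) (fun S : J → Finset {p // p ∈ w.P} =>
        w.L S ^ 2 * (tr3_ind S (j, p) * tr3_ind S (j', p))) ≤ w.CL * w.Dt ^ 2 * qq w.P K p ^ 2 := by
  have h := w.EX_tilt hJ (fun l => if l = j then {p} else if l = j' then {p} else ∅)
  have e1 : (fun S : J → Finset {p // p ∈ w.P} => w.L S ^ 2 *
      ∏ l, (if (if l = j then ({p} : Finset {p // p ∈ w.P}) else if l = j' then {p} else ∅) ⊆ S l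
        then (1 : ℝ) else 0)) =
      (fun S : J → Finset {p // p ∈ w.P} => w.L S ^ 2 * (tr3_ind S (j, p) * tr3_ind S (j', p))) := by
    funext S
    rw [← Finset.mul_prod_erase univ _ (Finset.mem_univ j), if_pos rfl,
      ← Finset.mul_prod_erase (univ.erase j) _
        (Finset.mem_erase.mpr ⟨hjj.symm, Finset.mem_univ j'⟩), if_neg hjj.symm, if_pos rfl]
    rw [Finset.prod_eq_one, mul_one]
    · unfold tr3_ind
      simp only [Finset.singleton_subset_iff]
    · intro l hl
      have h2 := Finset.ne_of_mem_erase hl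
      have h3 := Finset.ne_of_mem_erase (Finset.mem_of_mem_erase hl)
      rw [if_neg h3, if_neg h2, if_pos (Finset.empty_subset _)]
  have e2 : ∑ l, (if l = j then ({p} : Finset {p // p ∈ w.P}) else if l = j' then {p} else ∅).card = 2 := by
    rw [← Finset.add_sum_erase univ _ (Finset.mem_univ j), if_pos rfl,
      ← Finset.add_sum_erase (univ.erase j) _
        (Finset.mem_erase.mpr ⟨hjj.symm, Finset.mem_univ j'⟩), if_neg hjj.symm, if_pos rfl]
    rw [Finset.sum_eq_zero]
    · simp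
    · intro l hl
      have h2 := Finset.ne_of_mem_erase hl
      have h3 := Finset.ne_of_mem_erase (Finset.mem_of_mem_erase hl)
      rw [if_neg h3, if_neg h2, card_empty]
  have e3 : ∏ l, ∏ p' ∈ (if l = j then ({p} : Finset {p // p ∈ w.P}) else if l = j' then {p} else ∅),
      qq w.P K p' = qq w.P K p ^ 2 := by
    rw [← Finset.mul_prod_erase univ _ (Finset.mem_univ j), if_pos rfl,
      ← Finset.mul_prod_erase (univ.erase j) _
        (Finset.mem_erase.mpr ⟨hjj.symm, Finset.mem_univ j'⟩), if_neg hjj.symm, if_pos rfl,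
      prod_singleton]
    rw [Finset.prod_eq_one, mul_one, pow_two]
    intro l hl
    have h2 := Finset.ne_of_mem_erase hl
    have h3 := Finset.ne_of_mem_erase (Finset.mem_of_mem_erase hl)
    rw [if_neg h3, if_neg h2, prod_empty]
  rw [e1, e2, e3] at h
  exact h


/-- `loss ≤ ∑_{j ≠ j'} ∑_p 1[p ∈ S j] 1[p ∈ S j'] + ∑_j ∑_p (2K/p) 1[p ∈ S j]`; `EX_tilt` (two sets
`{p}`, resp. one), `qq ≤ 2/p` (`qq_le`), `∑ 1/p^2 ≤ 1/W` (`sum_inv_sq_le`): at most
`K^2 CL Dt^2 4/W + K CL Dt 4 K/W ≤ 8 K^2 CL Dt^2/W`. -/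
theorem Par.EX_loss (w : Par K) (hJ : Fintype.card J = K) :
    EX (qq w.P K) (fun S : J → Finset {p // p ∈ w.P} => w.L S ^ 2 * loss w.P K S)
      ≤ 8 * (K : ℝ) ^ 2 * w.CL * w.Dt ^ 2 / w.W := by
  classical
  have hK1 : (1 : ℝ) ≤ K := by exact_mod_cast w.Kpos
  have hW1 : 1 ≤ w.W := by
    have h1 := w.KW
    have h2 := w.Kpos
    nlinarith
  have hWr : (1 : ℝ) ≤ w.W := by exact_mod_cast hW1
  have hCL : 0 ≤ w.CL := by
    unfold Par.CL
    positivity
  have hDt : 1 ≤ w.Dt := w.Dt1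
  have hp0 : ∀ i : {p // p ∈ w.P}, (0 : ℝ) < i.1 := fun i => by
    exact_mod_cast (w.prime i.1 i.2).pos
  have hq0 : ∀ i, 0 ≤ qq w.P K i := w.good.q0
  have hq2 : ∀ i, qq w.P K i ≤ 2 / (i.1 : ℝ) := qq_le w.P w.W K w.Kpos w.KW w.big
  have hsq : ∑ i : {p // p ∈ w.P}, 1 / ((i.1 : ℕ) : ℝ) ^ 2 ≤ 1 / (w.W : ℝ) := by
    have h1 := sum_inv_sq_le w.P w.W hW1 w.big
    have h2 : ∑ i : {p // p ∈ w.P}, 1 / ((i.1 : ℕ) : ℝ) ^ 2 = ∑ p ∈ w.P, 1 / (p : ℝ) ^ 2 :=
      Finset.sum_coe_sort w.P (fun p => 1 / (p : ℝ) ^ 2)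
    rw [h2]
    exact h1
  -- pointwise bound
  have hpt : ∀ S : J → Finset {p // p ∈ w.P}, w.L S ^ 2 * loss w.P K S ≤
      (∑ j : J, ∑ j' : J, ∑ i : {p // p ∈ w.P},
        w.L S ^ 2 * (if j = j' then 0 else tr3_ind S (j, i) * tr3_ind S (j', i))) +
      (∑ j : J, ∑ i : {p // p ∈ w.P}, 2 * (K : ℝ) / (i.1 : ℝ) *
        (w.L S ^ 2 * (if i ∈ S j then 1 else 0))) := by
    intro S
    unfold loss
    rw [mul_add]
    refine add_le_add ?_ (le_of_eq ?_)
    · simp only [← Finset.mul_sum]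
      refine mul_le_mul_of_nonneg_left ?_ (sq_nonneg _)
      have hn : ∀ (j j' : J) (i : {p // p ∈ w.P}),
          0 ≤ (if j = j' then (0 : ℝ) else tr3_ind S (j, i) * tr3_ind S (j', i)) := by
        intro j j' i
        unfold tr3_ind
        split_ifs <;> norm_num
      by_cases h : ∃ j j', j ≠ j' ∧ ¬ Disjoint (S j) (S j')
      · rw [if_pos h]
        obtain ⟨j, j', hjj, hd⟩ := h
        rw [Finset.not_disjoint_iff] at hd
        obtain ⟨i, hi, hi'⟩ := hd
        have f1 : (1 : ℝ) = (if j = j' then (0 : ℝ) else tr3_ind S (j, i) * tr3_ind S (j', i)) := by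
          rw [if_neg hjj]
          unfold tr3_ind
          simp [hi, hi']
        rw [f1]
        refine le_trans ?_ (Finset.single_le_sum
          (f := fun j : J => ∑ j' : J, ∑ i : {p // p ∈ w.P},
            (if j = j' then (0 : ℝ) else tr3_ind S (j, i) * tr3_ind S (j', i)))
          (fun a _ => Finset.sum_nonneg fun a' _ => Finset.sum_nonneg fun i _ => hn a a' i)
          (Finset.mem_univ j))
        refine le_trans ?_ (Finset.single_le_sum
          (f := fun j' : J => ∑ i : {p // p ∈ w.P},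
            (if j = j' then (0 : ℝ) else tr3_ind S (j, i) * tr3_ind S (j', i)))
          (fun a' _ => Finset.sum_nonneg fun i _ => hn j a' i)
          (Finset.mem_univ j'))
        exact Finset.single_le_sum
          (f := fun i : {p // p ∈ w.P} =>
            (if j = j' then (0 : ℝ) else tr3_ind S (j, i) * tr3_ind S (j', i)))
          (fun i _ => hn j j' i) (Finset.mem_univ i)
      · rw [if_neg h]
        exact Finset.sum_nonneg fun a _ => Finset.sum_nonneg fun a' _ =>
          Finset.sum_nonneg fun i _ => hn a a' i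
    · rw [Finset.mul_sum]
      refine Finset.sum_congr rfl fun j _ => ?_
      have h1 : ∑ p ∈ S j, 2 * (K : ℝ) / (p.1 : ℝ) =
          ∑ p : {p // p ∈ w.P}, 2 * (K : ℝ) / (p.1 : ℝ) * (if p ∈ S j then 1 else 0) := by
        simp only [mul_ite, mul_one, mul_zero]
        rw [Finset.sum_ite_mem, Finset.univ_inter]
      rw [h1, Finset.mul_sum]
      exact Finset.sum_congr rfl fun i _ => by ring
  refine (EX_mono _ w.good.q0 w.good.q1 _ _ hpt).trans ?_
  rw [B3_EX_add]
  have hA : EX (qq w.P K) (fun S : J → Finset {p // p ∈ w.P} =>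
      ∑ j : J, ∑ j' : J, ∑ i : {p // p ∈ w.P},
        w.L S ^ 2 * (if j = j' then 0 else tr3_ind S (j, i) * tr3_ind S (j', i))) ≤
      4 * (K : ℝ) ^ 2 * w.CL * w.Dt ^ 2 / w.W := by
    rw [EX_sum]
    have h1 : ∀ j j' : J, EX (qq w.P K) (fun S : J → Finset {p // p ∈ w.P} =>
        ∑ i : {p // p ∈ w.P},
        w.L S ^ 2 * (if j = j' then 0 else tr3_ind S (j, i) * tr3_ind S (j', i))) ≤
        4 * w.CL * w.Dt ^ 2 / w.W := by
      intro j j'
      rw [EX_sum]
      have h2 : ∀ i : {p // p ∈ w.P}, EX (qq w.P K) (fun S : J → Finset {p // p ∈ w.P} =>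
          w.L S ^ 2 * (if j = j' then 0 else tr3_ind S (j, i) * tr3_ind S (j', i))) ≤
          4 * w.CL * w.Dt ^ 2 * (1 / ((i.1 : ℕ) : ℝ) ^ 2) := by
        intro i
        by_cases hjj : j = j'
        · have e : (fun S : J → Finset {p // p ∈ w.P} =>
              w.L S ^ 2 * (if j = j' then 0 else tr3_ind S (j, i) * tr3_ind S (j', i))) =
              fun S => 0 * (1 : ℝ) := by
            funext S
            rw [if_pos hjj, mul_zero, zero_mul]
          rw [e, EX_const_mul, zero_mul]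
          positivity
        · have e : (fun S : J → Finset {p // p ∈ w.P} =>
              w.L S ^ 2 * (if j = j' then 0 else tr3_ind S (j, i) * tr3_ind S (j', i))) =
              fun S => w.L S ^ 2 * (tr3_ind S (j, i) * tr3_ind S (j', i)) := by
            funext S
            rw [if_neg hjj]
          rw [e]
          refine (B3_pair w hJ i j j' hjj).trans ?_
          have h3 : qq w.P K i ^ 2 ≤ 4 * (1 / ((i.1 : ℕ) : ℝ) ^ 2) := by
            refine (pow_le_pow_left₀ (hq0 i) (hq2 i) 2).trans (le_of_eq ?_)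
            rw [div_pow]
            ring
          have h4 : 0 ≤ w.CL * w.Dt ^ 2 := by positivity
          nlinarith [mul_le_mul_of_nonneg_left h3 h4]
      refine (Finset.sum_le_sum fun i _ => h2 i).trans ?_
      rw [← Finset.mul_sum]
      have h4 : 0 ≤ 4 * w.CL * w.Dt ^ 2 := by positivity
      refine (mul_le_mul_of_nonneg_left hsq h4).trans (le_of_eq ?_)
      ring
    have h5 : ∀ j : J, EX (qq w.P K) (fun S : J → Finset {p // p ∈ w.P} =>
        ∑ j' : J, ∑ i : {p // p ∈ w.P},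
        w.L S ^ 2 * (if j = j' then 0 else tr3_ind S (j, i) * tr3_ind S (j', i))) ≤
        K * (4 * w.CL * w.Dt ^ 2 / w.W) := by
      intro j
      rw [EX_sum]
      refine (Finset.sum_le_sum fun j' _ => h1 j j').trans (le_of_eq ?_)
      rw [Finset.sum_const, Finset.card_univ, hJ, nsmul_eq_mul]
    refine (Finset.sum_le_sum fun j _ => h5 j).trans (le_of_eq ?_)
    rw [Finset.sum_const, Finset.card_univ, hJ, nsmul_eq_mul]
    ring
  have hB : EX (qq w.P K) (fun S : J → Finset {p // p ∈ w.P} =>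
      ∑ j : J, ∑ i : {p // p ∈ w.P}, 2 * (K : ℝ) / (i.1 : ℝ) *
        (w.L S ^ 2 * (if i ∈ S j then 1 else 0))) ≤
      4 * (K : ℝ) ^ 2 * w.CL * w.Dt / w.W := by
    rw [EX_sum]
    have h1 : ∀ j : J, EX (qq w.P K) (fun S : J → Finset {p // p ∈ w.P} =>
        ∑ i : {p // p ∈ w.P}, 2 * (K : ℝ) / (i.1 : ℝ) *
        (w.L S ^ 2 * (if i ∈ S j then 1 else 0))) ≤ 4 * K * w.CL * w.Dt / w.W := by
      intro j
      rw [EX_sum]
      have h2 : ∀ i : {p // p ∈ w.P}, EX (qq w.P K) (fun S : J → Finset {p // p ∈ w.P} =>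
          2 * (K : ℝ) / (i.1 : ℝ) * (w.L S ^ 2 * (if i ∈ S j then 1 else 0))) ≤
          4 * K * w.CL * w.Dt * (1 / ((i.1 : ℕ) : ℝ) ^ 2) := by
        intro i
        rw [EX_const_mul]
        have h3 := B3_single w hJ i j
        have h4 : w.CL * w.Dt * qq w.P K i ≤ w.CL * w.Dt * (2 / (i.1 : ℝ)) :=
          mul_le_mul_of_nonneg_left (hq2 i) (by positivity)
        have h5 : (0 : ℝ) ≤ 2 * (K : ℝ) / (i.1 : ℝ) := by
          have := hp0 i
          positivity
        refine (mul_le_mul_of_nonneg_left (h3.trans h4) h5).trans (le_of_eq ?_)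
        have := (hp0 i).ne'
        field_simp
        ring
      refine (Finset.sum_le_sum fun i _ => h2 i).trans ?_
      rw [← Finset.mul_sum]
      have h4 : 0 ≤ 4 * K * w.CL * w.Dt := by positivity
      refine (mul_le_mul_of_nonneg_left hsq h4).trans (le_of_eq ?_)
      ring
    refine (Finset.sum_le_sum fun j _ => h1 j).trans (le_of_eq ?_)
    rw [Finset.sum_const, Finset.card_univ, hJ, nsmul_eq_mul]
    ring
  have hB' : 4 * (K : ℝ) ^ 2 * w.CL * w.Dt / w.W ≤ 4 * (K : ℝ) ^ 2 * w.CL * w.Dt ^ 2 / w.W := by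
    refine div_le_div_of_nonneg_right ?_ (by positivity)
    refine mul_le_mul_of_nonneg_left ?_ (by positivity)
    nlinarith
  refine (add_le_add hA (hB.trans hB')).trans (le_of_eq ?_)
  ring

end Pool.Agent.Lib.H57M
end

-- from Lib.H57M.B8
section

/-!
# Chunk B8: the weight in intervals and residue classes: upper bounds
-/

open Finset

namespace Pool.Agent.Lib.H57M

open Pool.Agent.Lib.H15P Pool.Agent.Lib.H92G

variable {K : ℕ} {J : Type} [Fintype J] [DecidableEq J]

theorem B8_sq (w : Par K) (i : Fin w.n) :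
    0 ≤ ex (qq w.P K) (fun A => w.D i A ^ 2) ∧ ex (qq w.P K) (fun A => w.D i A ^ 2) ≤ w.s i := by
  refine ⟨ex_nonneg _ w.good.q0 w.good.q1 _ fun A => sq_nonneg _, ?_⟩
  have h := w.tilt i ∅
  simpa using h

theorem Par.z_bounds (w : Par K) : 1 ≤ w.z ∧ w.z ≤ 2 := by
  unfold Par.z
  have h1 : 0 ≤ ∑ i, ex (qq w.P K) (fun A => w.D i A ^ 2) :=
    Finset.sum_nonneg fun i _ => (B8_sq w i).1
  have h2 : ∑ i, ex (qq w.P K) (fun A => w.D i A ^ 2) ≤ ∑ i, w.s i :=
    Finset.sum_le_sum fun i _ => (B8_sq w i).2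
  have h3 := w.hs
  constructor <;> linarith

omit [DecidableEq J] in
theorem B8_ZG (w : Par K) (hJ : Fintype.card J = K) :
    ZG (qq w.P K) (fun _ : J => w.D) univ = w.z ^ K := by
  unfold ZG Par.z GJ
  rw [Finset.prod_const, Finset.card_univ, hJ]

theorem B8_Qpos (w : Par K) : 0 < ∏ p ∈ w.P, p :=
  Finset.prod_pos fun p hp => (w.prime p hp).pos

theorem B8_exp (w : Par K) (hKW : 200 * K ^ 2 ≤ w.W) :
    Real.exp (2 * (K : ℝ) ^ 2 / w.W) ≤ 11 / 10 := by
  have hK : (1 : ℝ) ≤ K := by exact_mod_cast w.Kpos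
  have hKW' : 200 * (K : ℝ) ^ 2 ≤ w.W := by exact_mod_cast hKW
  have hW : (0 : ℝ) < w.W := by nlinarith
  have h1 : 2 * (K : ℝ) ^ 2 / w.W ≤ 1 / 100 := by
    rw [div_le_iff₀ hW]
    linarith
  refine (Real.exp_le_exp.2 h1).trans ?_
  have h2 := Real.exp_bound' (x := 1 / 100) (by norm_num) (by norm_num) (n := 1) (by norm_num)
  norm_num [Finset.sum_range_succ] at h2
  linarith

/-- `Lev.avg` and `EP_le`. -/
theorem B8_avg (w : Par K) (M : ℕ) (b : J → ℕ) (hF : Forms w.P w.W K M b)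
    (F : (J → Finset {p // p ∈ w.P}) → ℝ) (h0 : ∀ S, 0 ≤ F S) (L : ℝ)
    (hL : Lev (∏ p ∈ w.P, p) (fun t => F (fun j => hit w.P (b j + M * t))) L) (Y : ℕ) :
    ∑ t ∈ range Y, F (fun j => hit w.P (b j + M * t)) ≤
      Y * (Real.exp (2 * (K : ℝ) ^ 2 / w.W) * EX (qq w.P K) F) + 2 * L := by
  have h1 := Lev.avg (B8_Qpos w) hL 0 Y
  rw [zero_add, ← Finset.range_eq_Ico] at h1
  have h2 : EP w.P M b F ≤ Real.exp (2 * (K : ℝ) ^ 2 / w.W) * EX (qq w.P K) F :=
    EP_le w.P w.W K M _ hF F h0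
  have h3 := mul_le_mul_of_nonneg_left h2 (Nat.cast_nonneg Y : (0 : ℝ) ≤ Y)
  have h4 : |∑ t ∈ range Y, F (fun j => hit w.P (b j + M * t)) - Y * EP w.P M b F| ≤ 2 * L := h1
  rw [abs_le] at h4
  linarith [h4.2]

theorem B8_lev (w : Par K) (hJ : Fintype.card J = K) (M : ℕ) (b : J → ℕ) (k : ℕ) :
    Lev (∏ p ∈ w.P, p) (fun t => w.L (fun j => hit w.P (b j + M * t)) ^ k) (w.lv ^ k) :=
  Lev.pow (B8_Qpos w) (w.lev J M b hJ) k


/-- `Lev.avg` for `L^4`, `EP_le`, `EX_LG_four_le2`. -/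
theorem Par.four_le (w : Par K) (hJ : Fintype.card J = K) (M : ℕ) (b : J → ℕ)
    (hF : Forms w.P w.W K M b) (hKW : 200 * K ^ 2 ≤ w.W) (Y : ℕ) :
    ∑ t ∈ range Y, w.L (fun j => hit w.P (b j + M * t)) ^ 4 ≤
      2 * (((w.n : ℝ) + 1) ^ 4 * (1 + w.h)) ^ K * Y + 2 * w.lv ^ 4 := by
  have h1 := B8_avg w M b hF (fun S => w.L S ^ 4) (fun S => by positivity) _
    (B8_lev w hJ M b 4) Y
  have h2 : EX (qq w.P K) (fun S : J → Finset {p // p ∈ w.P} => w.L S ^ 4) ≤
      (((w.n : ℝ) + 1) ^ 4 * (1 + w.h)) ^ K := by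
    have h := EX_LG_four_le2 (qq w.P K) (fun _ : J => w.D) w.h (w.goodJ J) w.h0 w.m
    rw [Fintype.card_fin, hJ] at h
    exact h
  have h3 : 0 ≤ EX (qq w.P K) (fun S : J → Finset {p // p ∈ w.P} => w.L S ^ 4) :=
    EX_nonneg _ w.good.q0 w.good.q1 _ fun S => by positivity
  have h4 : Real.exp (2 * (K : ℝ) ^ 2 / w.W) *
      EX (qq w.P K) (fun S : J → Finset {p // p ∈ w.P} => w.L S ^ 4) ≤
      2 * (((w.n : ℝ) + 1) ^ 4 * (1 + w.h)) ^ K :=
    mul_le_mul ((B8_exp w hKW).trans (by norm_num)) h2 h3 (by norm_num)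
  have h5 := mul_le_mul_of_nonneg_left h4 (Nat.cast_nonneg Y : (0 : ℝ) ≤ Y)
  linarith






end Pool.Agent.Lib.H57M
end

-- from Lib.H57M.B4
section

/-!
# Chunk B4: `le_EP`, `EX_erase_mul_hit_le`, `cf_fiber` with first moments
-/

open Finset

namespace Pool.Agent.Lib.H57M

open Pool.Agent.Lib.H15P Pool.Agent.Lib.H92G

variable {J : Type} [Fintype J] [DecidableEq J]

/-- `step1` of the proof of `H15P.le_EP`. -/
theorem le_EP2 (P : Finset ℕ) (W K M : ℕ) (b : J → ℕ) (hF : Forms P W K M b)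
    (F : (J → Finset {p // p ∈ P}) → ℝ) (h0 : ∀ S, 0 ≤ F S) :
    (1 - (K : ℝ) ^ 2 / W) * EX (qq P K) F - EX (qq P K) (fun S => F S * loss P K S)
      ≤ EP P M b F := by
  classical
  have hK1 : (1 : ℝ) ≤ K := by exact_mod_cast hF.one_le
  have hW1 : 1 ≤ W := by
    have := hF.KW
    have := hF.one_le
    nlinarith
  have hWr : (1 : ℝ) ≤ W := by exact_mod_cast hW1
  have hpW : ∀ i : {p // p ∈ P}, (W : ℝ) ≤ i.1 := by
    intro i
    exact_mod_cast (hF.big i.1 i.2).le
  have hKW : 4 * (K : ℝ) ^ 2 ≤ W := by exact_mod_cast hF.KW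
  have hp0 : ∀ i : {p // p ∈ P}, (0 : ℝ) < i.1 := fun i => by
    have := hpW i
    linarith
  have hq0 : ∀ i, 0 ≤ qq P K i := qq_nonneg P K
  have hq1 : ∀ i, qq P K i ≤ 1 := by
    intro i
    refine (qq_le P W K hF.one_le hF.KW hF.big i).trans ?_
    rw [div_le_one (hp0 i)]
    have := hpW i
    nlinarith
  have hbw : ∀ S : J → Finset {p // p ∈ P}, 0 ≤ ∏ j, bw (qq P K) (S j) := fun S =>
    Finset.prod_nonneg fun j _ => bw_nonneg _ hq0 hq1 _
  -- step 1: the sum over the families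
  have step1 : EX (qq P K) (fun S : J → Finset {p // p ∈ P} =>
      F S * ((1 - (K : ℝ) ^ 2 / W) - loss P K S)) ≤ EP P M b F := by
    rw [EP_eq P W K M b hF F]
    have e1 : ∑ κ : {p // p ∈ P} → Option J,
        F (cfg κ) * ((1 - (K : ℝ) ^ 2 / W - ∑ j, ∑ p ∈ cfg κ j, 2 * (K : ℝ) / (p.1 : ℝ)) *
          ∏ j, bw (qq P K) (cfg κ j)) ≤
        ∑ κ : {p // p ∈ P} → Option J, F (cfg κ) * ∏ i, ww J i.1 (κ i) :=
      Finset.sum_le_sum fun κ _ => mul_le_mul_of_nonneg_left (prod_ww_ge P W K M b hF κ) (h0 _)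
    refine le_trans ?_ e1
    set g : (J → Finset {p // p ∈ P}) → ℝ := fun S =>
      F S * ((1 - (K : ℝ) ^ 2 / W) - loss P K S) * ∏ j, bw (qq P K) (S j) with hg
    have e2 : ∑ κ : {p // p ∈ P} → Option J, g (cfg κ) =
        ∑ S ∈ (univ : Finset ({p // p ∈ P} → Option J)).image cfg, g S :=
      (Finset.sum_image (fun a _ b _ h => tr3_cfg_inj h)).symm
    have e3 : ∑ κ : {p // p ∈ P} → Option J,
        F (cfg κ) * ((1 - (K : ℝ) ^ 2 / W - ∑ j, ∑ p ∈ cfg κ j, 2 * (K : ℝ) / (p.1 : ℝ)) *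
          ∏ j, bw (qq P K) (cfg κ j)) = ∑ κ : {p // p ∈ P} → Option J, g (cfg κ) := by
      refine Finset.sum_congr rfl fun κ _ => ?_
      simp only [hg]
      have : loss P K (cfg κ) = ∑ j, ∑ p ∈ cfg κ j, 2 * (K : ℝ) / (p.1 : ℝ) := by
        unfold loss
        rw [if_neg, zero_add]
        rintro ⟨j, j', hjj, hd⟩
        exact hd (tr3_cfg_disj κ j j' hjj)
      rw [this]
      ring
    rw [e3, e2]
    have e4 : EX (qq P K) (fun S : J → Finset {p // p ∈ P} =>
        F S * ((1 - (K : ℝ) ^ 2 / W) - loss P K S)) = ∑ S, g S := rfl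
    rw [e4, ← Finset.sum_sdiff (Finset.subset_univ
      ((univ : Finset ({p // p ∈ P} → Option J)).image cfg))]
    have e5 : ∑ S ∈ univ \ (univ : Finset ({p // p ∈ P} → Option J)).image cfg, g S ≤ 0 := by
      refine Finset.sum_nonpos fun S hS => ?_
      rw [Finset.mem_sdiff, Finset.mem_image] at hS
      have hex : ∃ j j', j ≠ j' ∧ ¬ Disjoint (S j) (S j') := by
        by_contra hcon
        push Not at hcon
        obtain ⟨κ, hκ⟩ := tr3_exists_cfg S hcon
        exact hS.2 ⟨κ, Finset.mem_univ _, hκ⟩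
      have hl : 1 ≤ loss P K S := by
        unfold loss
        rw [if_pos hex]
        have : 0 ≤ ∑ j, ∑ p ∈ S j, 2 * (K : ℝ) / (p.1 : ℝ) :=
          Finset.sum_nonneg fun j _ => Finset.sum_nonneg fun p _ => by positivity
        linarith
      have hKW0 : 0 ≤ (K : ℝ) ^ 2 / W := by positivity
      simp only [hg]
      refine mul_nonpos_of_nonpos_of_nonneg ?_ (hbw S)
      exact mul_nonpos_of_nonneg_of_nonpos (h0 S) (by linarith)
    linarith
  refine le_trans ?_ step1
  have e6 : EX (qq P K) (fun S : J → Finset {p // p ∈ P} =>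
      F S * ((1 - (K : ℝ) ^ 2 / W) - loss P K S)) =
      (1 - (K : ℝ) ^ 2 / W) * EX (qq P K) F - EX (qq P K) (fun S => F S * loss P K S) := by
    unfold EX
    rw [Finset.mul_sum, ← Finset.sum_sub_distrib]
    exact Finset.sum_congr rfl fun S _ => by ring
  rw [← e6]




end Pool.Agent.Lib.H57M
end

-- from Lib.H57M.B6
section

/-!
# Chunk B6: `EU_ge` with first moments
-/

open Finset

namespace Pool.Agent.Lib.H57M

open Pool.Agent.Lib.H15P Pool.Agent.Lib.H92G

variable {J : Type} [Fintype J] [DecidableEq J]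

/-- Copy of the proof of `EU_ge` (`H92G/E6.lean`) with `le_EP2` instead of `le_EP`;
`EX (F 1[S j0 = ∅] loss) ≤ EX (F loss)` as `loss ≥ 0`. -/
theorem EU_ge2 (P : Finset ℕ) (W K M : ℕ) (b : J → ℕ) (hF : Forms P W K M b)
    (F : (J → Finset {p // p ∈ P}) → ℝ) (h0 : ∀ S, 0 ≤ F S) (j0 : J) :
    (((∏ p ∈ P, p : ℕ) : ℝ) / ((∏ p ∈ P, p).totient : ℝ)) *
      ((1 - (K : ℝ) ^ 2 / W) * EX (qq P K) (fun S => F S * (if S j0 = ∅ then 1 else 0)) -
        EX (qq P K) (fun S => F S * loss P K S))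
      ≤ EU P M (b j0) (fun t => F (fun j => hit P (b j + M * t))) := by
  have hq0 := qq_nonneg P K
  have hq1 := tr2_qq_le_one P W K hF.one_le hF.KW hF.big
  have hG0 : ∀ S, 0 ≤ F S * (if S j0 = ∅ then 1 else 0) := fun S =>
    mul_nonneg (h0 S) (by split_ifs <;> norm_num)
  have h1 := le_EP2 P W K M b hF (fun S => F S * (if S j0 = ∅ then 1 else 0)) hG0
  have hl0 : ∀ S : J → Finset {p // p ∈ P}, 0 ≤ loss P K S := by
    intro S
    unfold loss
    refine add_nonneg (by split_ifs <;> norm_num) ?_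
    exact Finset.sum_nonneg fun j _ => Finset.sum_nonneg fun p _ => by positivity
  have h2 : EX (qq P K) (fun S => (F S * (if S j0 = ∅ then 1 else 0)) * loss P K S)
      ≤ EX (qq P K) (fun S => F S * loss P K S) := by
    refine EX_mono _ hq0 hq1 _ _ fun S => ?_
    refine mul_le_mul_of_nonneg_right ?_ (hl0 S)
    split_ifs
    · rw [mul_one]
    · rw [mul_zero]
      exact h0 S
  have hQ : 0 < ∏ p ∈ P, p := prod_pos fun p hp => (hF.prime p hp).pos
  have hQr : (0 : ℝ) < ((∏ p ∈ P, p : ℕ) : ℝ) := by exact_mod_cast hQ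
  have hφ : (0 : ℝ) < ((∏ p ∈ P, p).totient : ℝ) := by exact_mod_cast Nat.totient_pos.2 hQ
  have h6 : (((∏ p ∈ P, p : ℕ) : ℝ) / ((∏ p ∈ P, p).totient : ℝ)) *
      EP P M b (fun S => F S * (if S j0 = ∅ then 1 else 0))
      = EU P M (b j0) (fun t => F (fun j => hit P (b j + M * t))) := by
    unfold EP EU
    rw [div_mul_div_comm, mul_comm ((∏ p ∈ P, p).totient : ℝ), mul_div_mul_left _ _ hQr.ne',
      sum_filter]
    congr 1
    refine sum_congr rfl fun t _ => ?_
    have : hit P (b j0 + M * t) = ∅ ↔ (b j0 + M * t).Coprime (∏ p ∈ P, p) :=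
      e6_hit P hF.prime _
    show F _ * (if hit P (b j0 + M * t) = ∅ then 1 else 0) = _
    by_cases h : hit P (b j0 + M * t) = ∅
    · rw [if_pos h, if_pos (this.1 h), mul_one]
    · rw [if_neg h, if_neg (fun h' => h (this.2 h')), mul_zero]
  rw [← h6]
  refine mul_le_mul_of_nonneg_left ?_ (div_pos hQr hφ).le
  linarith

end Pool.Agent.Lib.H57M
end

-- from Lib.H57M.B9
section

/-!
# Chunk B9: the weight summed over the primes of one form: lower bound
-/

open Finset

namespace Pool.Agent.Lib.H57M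

open Pool.Agent.Lib.H15P Pool.Agent.Lib.H92G

variable {K : ℕ} {J : Type} [Fintype J] [DecidableEq J]



/-- The main term. -/
theorem B9_main (w : Par K) (hJ : Fintype.card J = K) (M : ℕ) (b : J → ℕ)
    (hF : Forms w.P w.W K M b) (j0 : J)
    (n1 : 400 * (K : ℝ) ^ 2 ≤ w.W)
    (n2 : (((∏ p ∈ w.P, p : ℕ) : ℝ) / ((∏ p ∈ w.P, p).totient : ℝ)) *
      (8 * (K : ℝ) ^ 2 * w.CL * w.Dt ^ 2 / w.W) ≤ 1 / 100) :
    36 / 100 * (w.z ^ K * (1 + w.n * w.c) ^ 2) ≤
      EU w.P M (b j0) (fun t => w.L (fun j => hit w.P (b j + M * t)) ^ 2) := by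
  classical
  have hK1 : (1 : ℝ) ≤ K := by exact_mod_cast w.Kpos
  have hW : (0 : ℝ) < w.W := by nlinarith
  obtain ⟨hz1, hz2⟩ := w.z_bounds
  have h1 := EU_ge2 w.P w.W K M b hF (fun S => w.L S ^ 2) (fun S => sq_nonneg _) j0
  have h2 := w.EX_loss (J := J) hJ
  set RQ : ℝ := ((∏ p ∈ w.P, p : ℕ) : ℝ) / ((∏ p ∈ w.P, p).totient : ℝ) with hRQ
  have hRQ0 : 0 ≤ RQ := by positivity
  set E1 := EX (qq w.P K) (fun S : J → Finset {p // p ∈ w.P} =>
    w.L S ^ 2 * (if S j0 = ∅ then 1 else 0)) with hE1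
  set EL := EX (qq w.P K) (fun S : J → Finset {p // p ∈ w.P} =>
    w.L S ^ 2 * loss w.P K S) with hEL
  set ZZ := ZG (qq w.P K) (fun _ : J => w.D) (univ.erase j0) with hZZ
  set Pi := ∏ i, (1 - qq w.P K i) with hPi
  have h3 := EX_prime_ge (qq w.P K) (fun _ : J => w.D) w.h (w.goodJ J) w.m univ w.R
    (by
      intro i
      have e1 : ∑ j ∈ (univ : Finset J), GJ (qq w.P K) (fun _ : J => w.D) j (some i) =
          K * ex (qq w.P K) (fun A => w.D i A ^ 2) := by
        unfold GJ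
        rw [Finset.sum_const, Finset.card_univ, hJ, nsmul_eq_mul]
      rw [e1]
      have e2 := (B8_sq w i).2
      have e3 := mul_le_mul_of_nonneg_left e2 (by linarith : (0 : ℝ) ≤ K)
      linarith [w.hm i]) j0 (Finset.mem_univ _)
    (by
      intro i
      show 0 ≤ w.D i ∅
      rw [w.emp i]
      exact w.c0)
  have h4 : ∑ i, w.D i ∅ = w.n * w.c := by
    rw [Finset.sum_congr rfl fun i _ => w.emp i, Finset.sum_const, Finset.card_univ,
      Fintype.card_fin, nsmul_eq_mul]
  have h3' : (1 + w.n * w.c) ^ 2 * (1 - ∑ i, Real.exp (-w.R i)) * ZZ * Pi ≤ E1 := by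
    rw [← h4]
    exact h3
  have hZ : w.z ^ K = w.z * ZZ := by
    rw [← B8_ZG (J := J) w hJ]
    unfold ZG at hZZ ⊢
    rw [hZZ, ← Finset.mul_prod_erase univ _ (Finset.mem_univ j0)]
    rfl
  have hzK : 1 ≤ w.z ^ K := one_le_pow₀ hz1
  have hZZ0 : w.z ^ K / 2 ≤ ZZ := by
    have : 0 ≤ ZZ := by
      by_contra hc
      push Not at hc
      nlinarith
    nlinarith
  have hV : 1 ≤ (1 + w.n * w.c) ^ 2 := by
    have : 0 ≤ (w.n : ℝ) * w.c := mul_nonneg (Nat.cast_nonneg _) w.c0
    nlinarith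
  have hP := p_empty_ge w.P w.W K w.prime w.Kpos w.KW w.big
  have hKW2 : 2 * (K : ℝ) / w.W ≤ 1 / 200 := by
    rw [div_le_iff₀ hW]
    nlinarith
  have hKW1 : (K : ℝ) ^ 2 / w.W ≤ 1 / 400 := by
    rw [div_le_iff₀ hW]
    nlinarith
  have hR := w.hR
  set V := (1 + (w.n : ℝ) * w.c) ^ 2 with hVd
  have hVZ : 0 ≤ V * ZZ := mul_nonneg (by linarith) (by linarith)
  have hPi0 : 0 ≤ RQ * Pi := by linarith
  have h5 : V * (3 / 4) * ZZ * (199 / 200) ≤ RQ * E1 := by
    calc V * (3 / 4) * ZZ * (199 / 200) ≤ V * (3 / 4) * ZZ * (RQ * Pi) := by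
          apply mul_le_mul_of_nonneg_left _ (by nlinarith)
          linarith
      _ ≤ V * (1 - ∑ i, Real.exp (-w.R i)) * ZZ * (RQ * Pi) := by
          apply mul_le_mul_of_nonneg_right _ hPi0
          have := mul_le_mul_of_nonneg_left
            (show (3 / 4 : ℝ) ≤ 1 - ∑ i, Real.exp (-w.R i) by linarith) hVZ
          linarith
      _ = RQ * (V * (1 - ∑ i, Real.exp (-w.R i)) * ZZ * Pi) := by ring
      _ ≤ RQ * E1 := mul_le_mul_of_nonneg_left h3' hRQ0
  have h6 : RQ * EL ≤ 1 / 100 := (mul_le_mul_of_nonneg_left h2 hRQ0).trans n2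
  have h7 : 399 / 400 * (RQ * E1) ≤ (1 - (K : ℝ) ^ 2 / w.W) * (RQ * E1) := by
    apply mul_le_mul_of_nonneg_right _ ((by nlinarith : (0 : ℝ) ≤ V * (3 / 4) * ZZ * (199 / 200)).trans h5)
    linarith
  have h8 : V * (w.z ^ K / 2) ≤ V * ZZ := mul_le_mul_of_nonneg_left hZZ0 (by linarith)
  have h9 : 1 ≤ V * w.z ^ K := one_le_mul_of_one_le_of_one_le hV hzK
  refine le_trans ?_ h1
  have h10 : RQ * ((1 - (K : ℝ) ^ 2 / w.W) * E1 - EL) =
      (1 - (K : ℝ) ^ 2 / w.W) * (RQ * E1) - RQ * EL := by ring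
  rw [h10]
  nlinarith


end Pool.Agent.Lib.H57M
end

-- from Lib.H57C.A1
section

/-!
# Chunk A1: the mean values of the weight
-/

open Finset

namespace Pool.Agent.Lib.H57C

open Pool.Agent.Lib.H15P Pool.Agent.Lib.H92G Pool.Agent.Lib.H57M

theorem a1_forms {K : ℕ} (w : Par K) (H : Finset ℕ) (hH : H.card = K) (HW : ∀ h ∈ H, h ≤ w.W) :
    Forms w.P w.W K 1 (fun h : {h // h ∈ H} => h.1) := by
  refine ⟨w.prime, w.big, ?_, ?_, w.Kpos, ?_, w.KW⟩
  · intro p hp h
    exact (w.prime p hp).one_lt.ne' (Nat.dvd_one.1 h)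
  · intro p hp j j' hne hm
    apply hne
    apply Subtype.ext
    have h1 := HW j.1 j.2
    have h2 := HW j'.1 j'.2
    have h3 := w.big p hp
    have h5 : j.1 % p = j.1 := Nat.mod_eq_of_lt (by omega)
    have h6 : j'.1 % p = j'.1 := Nat.mod_eq_of_lt (by omega)
    unfold Nat.ModEq at hm
    omega
  · rw [Fintype.card_coe, hH]

/-- Proof. `Forms w.P w.W K 1 (fun h => h.1)` as in `Sc.forms` (`H57M/Sc.lean`). `EP_le` (`H15P`), `EX_LG_sq_le`, `B8_ZG`, `B8_exp`:
`EP (L^2) ≤ (11/10) z^K`; divide by `z^K ≥ 1`. -/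
theorem ae_none {K : ℕ} (w : Par K) (H : Finset ℕ) (hH : H.card = K) (HW : ∀ h ∈ H, h ≤ w.W)
    (hKW : 400 * K ^ 2 ≤ w.W) :
    0 ≤ AE w.P H none (FC w H) ∧ AE w.P H none (FC w H) ≤ 11 / 10 := by
  classical
  have hJ : Fintype.card {h // h ∈ H} = K := by rw [Fintype.card_coe, hH]
  have hz := w.z_bounds.1
  have hzK : 0 < w.z ^ K := pow_pos (by linarith) K
  have h0 : ∀ S, 0 ≤ FC w H S := fun S => div_nonneg (sq_nonneg _) hzK.le
  constructor
  · unfold AE EP
    exact div_nonneg (Finset.sum_nonneg fun t _ => h0 _) (Nat.cast_nonneg _)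
  · have h1 := EP_le w.P w.W K 1 (fun h : {h // h ∈ H} => h.1) (a1_forms w H hH HW) (FC w H) h0
    have h2 : EX (qq w.P K) (FC w H) ≤ 1 := by
      have e : EX (qq w.P K) (FC w H) = EX (qq w.P K) (fun S : {h // h ∈ H} → Finset {p // p ∈ w.P} =>
          w.L S ^ 2) / w.z ^ K := by
        unfold EX FC
        rw [Finset.sum_div]
        exact Finset.sum_congr rfl fun S _ => by ring
      rw [e, div_le_one hzK, ← B8_ZG (J := {h // h ∈ H}) w hJ]
      exact EX_LG_sq_le _ _ _ (w.goodJ _) w.m univ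
    have h3 := B8_exp w (by omega)
    refine h1.trans ?_
    calc Real.exp (2 * (K : ℝ) ^ 2 / w.W) * EX (qq w.P K) (FC w H)
        ≤ Real.exp (2 * (K : ℝ) ^ 2 / w.W) * 1 :=
          mul_le_mul_of_nonneg_left h2 (Real.exp_pos _).le
      _ ≤ 11 / 10 := by rw [mul_one]; exact h3

/-- Proof. `B9_main` with `M = 1`, `b h = h`, `j0 = ⟨h, _⟩`; for `t` with `h + t` prime to `∏ P` the set `hit P (t + h)` is empty, so
`cfg P H (some h) t = fun j => hit P (j + 1 * t)`; divide by `z^K > 0`. -/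
theorem ae_some {K : ℕ} (w : Par K) (H : Finset ℕ) (hH : H.card = K) (HW : ∀ h ∈ H, h ≤ w.W)
    (hKW : 400 * (K : ℝ) ^ 2 ≤ w.W) (h : ℕ) (hh : h ∈ H)
    (n2 : (((∏ p ∈ w.P, p : ℕ) : ℝ) / ((∏ p ∈ w.P, p).totient : ℝ)) *
      (8 * (K : ℝ) ^ 2 * w.CL * w.Dt ^ 2 / w.W) ≤ 1 / 100) :
    36 / 100 * (1 + w.n * w.c) ^ 2 ≤ AE w.P H (some h) (FC w H) := by
  classical
  have hJ : Fintype.card {h // h ∈ H} = K := by rw [Fintype.card_coe, hH]
  have hz := w.z_bounds.1
  have hzK : 0 < w.z ^ K := pow_pos (by linarith) K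
  have h1 := B9_main w hJ 1 (fun h : {h // h ∈ H} => h.1) (a1_forms w H hH HW) ⟨h, hh⟩ hKW n2
  have h2 : AE w.P H (some h) (FC w H) =
      EU w.P 1 h (fun t => w.L (fun j : {h // h ∈ H} => hit w.P (j.1 + 1 * t)) ^ 2) / w.z ^ K := by
    change EU w.P 1 h (fun t => FC w H (cfg w.P H (some h) t)) = _
    unfold EU FC
    simp only [Finset.sum_div]
    apply Finset.sum_congr rfl
    intro t ht
    rw [Finset.mem_filter] at ht
    have e : cfg w.P H (some h) t = fun j : {h // h ∈ H} => hit w.P (j.1 + 1 * t) := by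
      funext j
      unfold cfg
      by_cases hj : h = j.1
      · rw [if_pos (by rw [hj])]
        symm
        unfold hit
        rw [Finset.filter_eq_empty_iff]
        intro p _ hp
        rw [← hj] at hp
        have h3 : p.1 ∣ ∏ p ∈ w.P, p := Finset.dvd_prod_of_mem (fun p => p) p.2
        have h4 := Nat.dvd_gcd hp h3
        rw [Nat.Coprime] at ht
        rw [ht.2] at h4
        exact (w.prime p.1 p.2).one_lt.ne' (Nat.dvd_one.1 h4)
      · rw [if_neg (by rw [Option.some_inj]; exact hj), one_mul, add_comm t]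
    rw [e]
    ring
  rw [h2, le_div_iff₀ hzK]
  calc 36 / 100 * (1 + (w.n : ℝ) * w.c) ^ 2 * w.z ^ K
      = 36 / 100 * (w.z ^ K * (1 + w.n * w.c) ^ 2) := by ring
    _ ≤ _ := h1

end Pool.Agent.Lib.H57C
end

-- from Lib.H59C.CPW
section

/-!
# CPW: the pointwise inequality of the weighted sieve
-/

open Finset

namespace Pool.Agent.Lib.H59C

theorem CPW_yy (n : ℕ) : yy n ^ 3 = 2 * n := by
  unfold yy
  rw [← Real.rpow_natCast, ← Real.rpow_mul (by positivity)]
  norm_num

theorem CPW_yy_le (n : ℕ) (hn : 2 ≤ n) : yy n ≤ n := by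
  have hn0 : (2 : ℝ) ≤ n := by exact_mod_cast hn
  have h0 : 0 ≤ yy n := by unfold yy; positivity
  refine le_of_not_gt fun h => ?_
  have h1 : (n : ℝ) ^ 3 < yy n ^ 3 := pow_lt_pow_left₀ h (by linarith) (by norm_num)
  rw [CPW_yy] at h1
  have h2 : (4 : ℝ) ≤ (n : ℝ) ^ 2 := by nlinarith
  have h3 : (n : ℝ) ^ 3 = (n : ℝ) ^ 2 * n := by ring
  nlinarith

theorem CPW_one_le_yy (n : ℕ) (hn : 2 ≤ n) : 1 ≤ yy n := by
  have hn0 : (2 : ℝ) ≤ n := by exact_mod_cast hn
  unfold yy
  exact Real.one_le_rpow (by linarith) (by norm_num)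

/-- `1 < a < 2 n`, `a` odd. -/
theorem CPW_size {n N y1 y2 p : ℕ} (hn : 100 ≤ n) (hW : Win n N y1 y2) (hp : p ∈ Sq y1 y2) :
    1 < Nat.dist N p ∧ Nat.dist N p < 2 * n ∧ ¬ 2 ∣ Nat.dist N p := by
  rw [mem_Sq] at hp
  obtain ⟨⟨h1, h2⟩, hpr⟩ := hp
  have h3 := hW.lo
  have h4 := hW.N2
  have h5 := hW.le
  have hodd : ¬ 2 ∣ p := by
    intro h
    rw [Nat.prime_dvd_prime_iff_eq Nat.prime_two hpr] at h
    omega
  have h6 := hW.even
  rcases hW.side with ⟨h7, h8⟩ | ⟨h7, h8⟩
  · rw [Nat.dist_eq_sub_of_le_right (by omega)]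
    refine ⟨by omega, by omega, by omega⟩
  · rw [Nat.dist_eq_sub_of_le (by omega)]
    refine ⟨by omega, by omega, by omega⟩

open Classical in
/-- Chen's weights.

Proof. `p` is odd (`p > y1 ≥ n/16 ≥ 3`) and `N` even, so `a = |N - p|` is odd; a prime `q ∣ a` with `q ∣ N` divides `p`, so
`q = p ∣ N`: excluded. So every prime factor of `a` is in `PP n N p1` (odd, `≤ a ≤ 2n`; if `q > n`, then `q ≥ zz n` anyway) or
`≥ zz n`; as no `q ∈ PP`, `q < zz n` divides `a`, all prime factors are `≥ z`. `a` is not divisible by the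
square of a prime (they are `≥ z`), `1 < a < 2 n` (`a` odd), so `a` is a product of `Ω ≥ 1` distinct primes `≥ z`. Suppose
`Ω ≥ 3`. Let `r` be the number of its prime factors in `[z, y)`, all are in `QQ` (`q < y ≤ n`). If `r ≥ 2` the bracket is
`≤ 0`. If `r = 0`: `a ≥ y³ = 2n`, contradiction. If `r = 1`: at most two prime factors `≥ y` (three would give `a ≥ z · 2 n`),
so exactly two, `Tri n a`, and the bracket is `1 - 1/2 - 1/2 = 0`. -/
theorem pointwise : ∃ n0 : ℕ, ∀ n : ℕ, n0 ≤ n → ∀ N y1 y2 p1 : ℕ, Win n N y1 y2 → ∀ p ∈ Sq y1 y2,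
    ¬ p ∣ N → ¬ p1 ∣ Nat.dist N p → (∀ q : ℕ, q.Prime → zz n ≤ q → ¬ q ^ 2 ∣ Nat.dist N p) →
    (∀ q ∈ PP n N p1, (q : ℝ) < zz n → ¬ q ∣ Nat.dist N p) →
    0 < 1 - 1 / 2 * (((QQ n N p1).filter (fun q => q ∣ Nat.dist N p)).card : ℝ) -
      1 / 2 * (if Tri n (Nat.dist N p) then 1 else 0) →
    (∀ q : ℕ, q.Prime → q ∣ Nat.dist N p → (n : ℝ) ^ (1 / 10 : ℝ) ≤ q) ∧
    ((Nat.dist N p).Prime ∨ ∃ r s : ℕ, r.Prime ∧ s.Prime ∧ Nat.dist N p = r * s) := by
  refine ⟨100, fun n hn N y1 y2 p1 hW p hp hpN hp1 hsq hsift hbr => ?_⟩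
  obtain ⟨ha1, ha2, hodd⟩ := CPW_size hn hW hp
  have hppr : p.Prime := (mem_Sq.1 hp).2
  have hn1 : (100 : ℝ) ≤ n := by exact_mod_cast hn
  have hzn : zz n ≤ n := by
    unfold zz
    calc (n : ℝ) ^ (1 / 8 : ℝ) ≤ (n : ℝ) ^ (1 : ℝ) :=
          Real.rpow_le_rpow_of_exponent_le (by linarith) (by norm_num)
      _ = n := Real.rpow_one _
  set a := Nat.dist N p with ha
  -- prime factors
  have hdiv : ∀ q : ℕ, q.Prime → q ∣ a → ¬ q ∣ N := by
    intro q hq hqa hqN
    have h1 : q ∣ p := by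
      rcases le_total N p with h | h
      · rw [ha, Nat.dist_eq_sub_of_le h] at hqa
        have h2 := dvd_add hqa hqN
        rwa [Nat.sub_add_cancel h] at h2
      · rw [ha, Nat.dist_eq_sub_of_le_right h] at hqa
        have h2 := Nat.dvd_sub hqN hqa
        rwa [Nat.sub_sub_self h] at h2
    rw [Nat.prime_dvd_prime_iff_eq hq hppr] at h1
    rw [h1] at hqN
    exact hpN hqN
  have hPP : ∀ q : ℕ, q.Prime → q ∣ a → q ≤ n → q ∈ PP n N p1 := by
    intro q hq hqa hqn
    rw [mem_PP]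
    refine ⟨⟨?_, hqn⟩, hq, hdiv q hq hqa, ?_⟩
    · have h2 := hq.two_le
      rcases Nat.lt_or_ge 2 q with h | h
      · exact h
      · have h3 : q = 2 := by omega
        rw [h3] at hqa
        exact absurd hqa hodd
    · rintro rfl
      exact hp1 hqa
  have hz : ∀ q : ℕ, q.Prime → q ∣ a → zz n ≤ q := by
    intro q hq hqa
    refine le_of_not_gt fun h => ?_
    have hqn : q ≤ n := by
      have : (q : ℝ) ≤ n := by linarith
      exact_mod_cast this
    exact hsift q (hPP q hq hqa hqn) h hqa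
  have hsqf : Squarefree a := by
    rw [Nat.squarefree_iff_prime_squarefree]
    intro q hq hqa
    refine hsq q hq (hz q hq (dvd_trans (dvd_mul_right q q) hqa)) ?_
    rwa [pow_two]
  constructor
  · intro q hq hqa
    refine le_trans ?_ (hz q hq hqa)
    unfold zz
    exact Real.rpow_le_rpow_of_exponent_le (by linarith) (by norm_num)
  -- small and large prime factors
  set A := a.primeFactors.filter (fun q : ℕ => (q : ℝ) < yy n) with hA
  set B := a.primeFactors.filter (fun q : ℕ => ¬ (q : ℝ) < yy n) with hB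
  have hprod : (∏ q ∈ A, q) * ∏ q ∈ B, q = a := by
    rw [hA, hB, Finset.prod_filter_mul_prod_filter_not a.primeFactors (fun q : ℕ => (q : ℝ) < yy n)]
    exact Nat.prod_primeFactors_of_squarefree hsqf
  have hAm : ∀ q ∈ A, q.Prime ∧ q ∣ a ∧ (q : ℝ) < yy n := by
    intro q hq
    rw [hA, Finset.mem_filter, Nat.mem_primeFactors] at hq
    exact ⟨hq.1.1, hq.1.2.1, hq.2⟩
  have hBm : ∀ q ∈ B, q.Prime ∧ q ∣ a ∧ yy n ≤ q := by
    intro q hq
    rw [hB, Finset.mem_filter, Nat.mem_primeFactors] at hq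
    exact ⟨hq.1.1, hq.1.2.1, not_lt.1 hq.2⟩
  have hyn := CPW_yy_le n (by omega)
  have hy1 := CPW_one_le_yy n (by omega)
  have hAQ : A ⊆ (QQ n N p1).filter (fun q => q ∣ a) := by
    intro q hq
    obtain ⟨h1, h2, h3⟩ := hAm q hq
    rw [Finset.mem_filter]
    refine ⟨?_, h2⟩
    unfold QQ
    rw [Finset.mem_filter, mem_PR]
    have hqn : q ≤ n := by
      have : (q : ℝ) ≤ n := by linarith
      exact_mod_cast this
    exact ⟨⟨h1, hz q h1 h2, h3⟩, hPP q h1 h2 hqn⟩
  have hAc : (A.card : ℝ) ≤ (((QQ n N p1).filter (fun q => q ∣ a)).card : ℝ) := by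
    exact_mod_cast Finset.card_le_card hAQ
  have hT0 : (0 : ℝ) ≤ (if Tri n a then 1 else 0) := by split_ifs <;> norm_num
  have hA2 : A.card < 2 := by
    have h1 : (A.card : ℝ) < 2 := by linarith
    exact_mod_cast h1
  have hB3 : B.card < 3 := by
    by_contra hc
    push Not at hc
    have h1 : (2 * n : ℝ) ≤ ((∏ q ∈ B, q : ℕ) : ℝ) := by
      rw [← CPW_yy, Nat.cast_prod]
      calc yy n ^ 3 ≤ yy n ^ B.card := pow_le_pow_right₀ hy1 hc
        _ = ∏ q ∈ B, yy n := by rw [Finset.prod_const]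
        _ ≤ ∏ q ∈ B, (q : ℝ) :=
          Finset.prod_le_prod (fun q _ => by linarith) fun q hq => (hBm q hq).2.2
    have h2 : ∏ q ∈ B, q ≤ a :=
      Nat.le_of_dvd (by omega) ⟨∏ q ∈ A, q, by rw [mul_comm]; exact hprod.symm⟩
    have h3 : (2 * n : ℝ) ≤ (a : ℝ) := h1.trans (by exact_mod_cast h2)
    have h4 : 2 * n ≤ a := by exact_mod_cast h3
    omega
  have hAcase : A.card = 0 ∨ A.card = 1 := by omega
  have hBcase : B.card = 0 ∨ B.card = 1 ∨ B.card = 2 := by omega
  rcases hAcase with hA0 | hA1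
  · rw [Finset.card_eq_zero] at hA0
    rw [hA0, Finset.prod_empty, one_mul] at hprod
    rcases hBcase with hB0 | hB1 | hB2
    · rw [Finset.card_eq_zero] at hB0
      rw [hB0, Finset.prod_empty] at hprod
      omega
    · obtain ⟨q, hq⟩ := Finset.card_eq_one.1 hB1
      rw [hq, Finset.prod_singleton] at hprod
      left
      rw [← hprod]
      exact (hBm q (by rw [hq]; exact Finset.mem_singleton_self q)).1
    · obtain ⟨q, r, hqr, hq⟩ := Finset.card_eq_two.1 hB2
      rw [hq, Finset.prod_pair hqr] at hprod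
      right
      refine ⟨q, r, (hBm q ?_).1, (hBm r ?_).1, hprod.symm⟩
      · rw [hq]; simp
      · rw [hq]; simp
  · obtain ⟨s, hs⟩ := Finset.card_eq_one.1 hA1
    have hs' := hAm s (by rw [hs]; exact Finset.mem_singleton_self s)
    rw [hs, Finset.prod_singleton] at hprod
    rcases hBcase with hB0 | hB1 | hB2
    · rw [Finset.card_eq_zero] at hB0
      rw [hB0, Finset.prod_empty, mul_one] at hprod
      left
      rw [← hprod]
      exact hs'.1
    · obtain ⟨q, hq⟩ := Finset.card_eq_one.1 hB1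
      rw [hq, Finset.prod_singleton] at hprod
      right
      exact ⟨s, q, hs'.1, (hBm q (by rw [hq]; exact Finset.mem_singleton_self q)).1, hprod.symm⟩
    · exfalso
      obtain ⟨q, r, hqr, hq⟩ := Finset.card_eq_two.1 hB2
      rw [hq, Finset.prod_pair hqr] at hprod
      have hqB := hBm q (by rw [hq]; simp)
      have hrB := hBm r (by rw [hq]; simp)
      have hTri : Tri n a := by
        rcases le_total q r with h | h
        · exact ⟨s, q, r, hs'.1, hqB.1, hrB.1, hz s hs'.1 hs'.2.1, hs'.2.2, hqB.2.2, h, by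
            rw [mul_assoc]; exact hprod.symm⟩
        · exact ⟨s, r, q, hs'.1, hrB.1, hqB.1, hz s hs'.1 hs'.2.1, hs'.2.2, hrB.2.2, h, by
            rw [mul_assoc, mul_comm r q]; exact hprod.symm⟩
      rw [if_pos hTri] at hbr
      rw [hA1, Nat.cast_one] at hAc
      linarith

end Pool.Agent.Lib.H59C
end
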