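import Pool.Agent.Lib.H1M.RV2.M001
import Pool.Agent.Lib.H1M.RV2.M015
import Pool.Agent.Lib.H1M.RV2.M029
import Pool.Agent.Lib.H1M.RV2.M031
import Pool.Agent.Lib.H1M.RV2.M032

/-! Merged copies (to shorten the build) of Lib.H57C.A2, Lib.H57C.SDefs, Lib.H57C.S0, Lib.H59C.PRJ, Lib.H59C.BV3, Lib.H59C.PSI, Lib.H59C.PSJ, Lib.H59C.BV2, Lib.H59C.CBR, Lib.H57C.MDefs, Lib.H57C.M0, Lib.H57C.M2, Lib.H57C.X1, Lib.H59C.CS1. -/

-- from Lib.H57C.A2
section

/-!
# Chunk A2: the small primes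
-/

open Finset

namespace Pool.Agent.Lib.H57C

open Pool.Agent.Lib.H59C (gq)

/-- The class `-h` modulo `q`. -/
theorem a2_cls {q h c : ℕ} (hq : 0 < q) (hc : c < q) : q ∣ c + h ↔ c = (q - h % q) % q := by
  have hr : h % q < q := Nat.mod_lt _ hq
  have h1 : q ∣ c + h ↔ q ∣ c + h % q := by
    rw [Nat.dvd_iff_mod_eq_zero, Nat.dvd_iff_mod_eq_zero, Nat.add_mod c h, Nat.add_mod c (h % q), Nat.mod_mod]
  rw [h1]
  set r := h % q with hrdef
  constructor
  · rintro ⟨k, hk⟩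
    have hk2 : k < 2 := by
      by_contra hk2
      push Not at hk2
      have : q * 2 ≤ q * k := Nat.mul_le_mul_left q hk2
      omega
    interval_cases k
    · have : r = 0 := by omega
      rw [this, Nat.sub_zero, Nat.mod_self]
      omega
    · have h2 : c = q - r := by omega
      rw [← h2, Nat.mod_eq_of_lt hc]
  · intro h2
    rcases Nat.eq_zero_or_pos r with h3 | h3
    · rw [h3, Nat.sub_zero, Nat.mod_self] at h2
      rw [h2, h3]
      exact dvd_zero q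
    · rw [Nat.mod_eq_of_lt (by omega)] at h2
      exact ⟨1, by omega⟩

theorem a2_mod {q N c : ℕ} (hc : c < q) : c ≡ N [MOD q] ↔ c = N % q := by
  unfold Nat.ModEq
  rw [Nat.mod_eq_of_lt hc]

open Classical in
theorem a2_one (Q : Finset ℕ) (R : ℕ → Finset ℕ) (Al : ℕ → ℕ → Prop) (c0 : ℕ → ℕ) (hQ : ∀ q ∈ Q, q.Prime)
    (h0 : ∀ q ∈ Q, c0 q ∈ R q) (hAl : ∀ q ∈ Q, ∀ c ∈ R q, (Al q c ↔ c ≠ c0 q)) :
    VS Q R gq Al = VbR Q R := by
  unfold VS VbR VaR
  rw [← Finset.prod_mul_distrib]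
  refine Finset.prod_congr rfl fun q hq => ?_
  have h1 : (R q).filter (fun c => Al q c) = (R q).erase (c0 q) := by
    ext c
    rw [Finset.mem_filter, Finset.mem_erase]
    constructor
    · rintro ⟨h2, h3⟩
      exact ⟨(hAl q hq c h2).1 h3, h2⟩
    · rintro ⟨h2, h3⟩
      exact ⟨h3, (hAl q hq c h3).2 h2⟩
  rw [h1, Finset.card_erase_of_mem (h0 q hq)]
  have hpos : 1 ≤ (R q).card := Finset.card_pos.2 ⟨_, h0 q hq⟩
  have hq2 : (2 : ℝ) ≤ q := by exact_mod_cast (hQ q hq).two_le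
  rw [Nat.cast_sub hpos]
  unfold gq
  have hq0 : (q : ℝ) ≠ 0 := by linarith
  have hq1 : (q : ℝ) - 1 ≠ 0 := by linarith
  push_cast
  field_simp
  ring

/-- Proof. For every `q ∈ Q`: the class `-h` mod `q` (the `c < q` with `q ∣ c + h`) is in `R q` and is the only class which is not
allowed, so the filtered set has `#R - 1` elements, and `1 - (r - 1)/(q - 1) = (1 - r/q) q/(q - 1)`. -/
theorem vs_BR (Q : Finset ℕ) (R : ℕ → Finset ℕ) (h : ℕ) (hQ : ∀ q ∈ Q, q.Prime)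
    (hR : ∀ q ∈ Q, R q ⊆ range q) (hRH : ∀ q ∈ Q, ∀ c < q, q ∣ c + h → c ∈ R q) :
    VS Q R gq (fun q c => ¬ q ∣ c + h) = VbR Q R := by
  refine a2_one Q R _ (fun q => (q - h % q) % q) hQ ?_ ?_
  · intro q hq
    have hq0 := (hQ q hq).pos
    have hlt : (q - h % q) % q < q := Nat.mod_lt _ hq0
    exact hRH q hq _ hlt ((a2_cls hq0 hlt).2 rfl)
  · intro q hq c hc
    have hlt := Finset.mem_range.1 (hR q hq hc)
    rw [a2_cls (hQ q hq).pos hlt]

theorem a2_Ps {W p1 q : ℕ} (hq : q ∈ Ps W p1) : q.Prime := by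
  unfold Ps at hq
  rw [Finset.mem_filter] at hq
  exact hq.2.1

theorem a2_Rb {N : ℕ} {H : Finset ℕ} {q : ℕ} : Rb N H q ⊆ range q := by
  unfold Rb
  exact Finset.filter_subset _ _


/-- Proof. As before, the class of `N` is the only one which is not allowed. -/
theorem vs_C (N W p1 : ℕ) (H : Finset ℕ) :
    VS (Ps W p1) (Rb N H) gq (fun q c => ¬ c ≡ N [MOD q]) = Vb N W p1 H := by
  rw [Vb_eq]
  refine a2_one _ _ _ (fun q => N % q) (fun q hq => a2_Ps hq) ?_ ?_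
  · intro q hq
    have hlt : N % q < q := Nat.mod_lt _ (a2_Ps hq).pos
    unfold Rb
    rw [Finset.mem_filter, Finset.mem_range]
    exact ⟨hlt, Or.inr ((a2_mod hlt).2 rfl)⟩
  · intro q hq c hc
    have hlt := Finset.mem_range.1 (a2_Rb hc)
    rw [a2_mod hlt]

theorem vs_IR (Q : Finset ℕ) (R : ℕ → Finset ℕ) :
    VS Q R (fun q => 1 / (q : ℝ)) (fun _ _ => True) = VaR Q R := by
  unfold VS VaR
  refine Finset.prod_congr rfl fun q _ => ?_
  rw [Finset.filter_true]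
  ring


theorem a2_exp {x : ℝ} (h0 : 0 ≤ x) (h1 : x ≤ 1 / 2) : Real.exp (-(2 * x)) ≤ 1 - x := by
  have h2 : 0 < 1 - x := by linarith
  have h3 : Real.log (1 - x)⁻¹ ≤ (1 - x)⁻¹ - 1 := Real.log_le_sub_one_of_pos (inv_pos.2 h2)
  have h4 : (1 - x)⁻¹ - 1 ≤ 2 * x := by
    rw [inv_eq_one_div, div_sub_one h2.ne', div_le_iff₀ h2]
    nlinarith
  rw [Real.log_inv] at h3
  rw [← Real.le_log_iff_exp_le h2]
  linarith

theorem a2_fac {K q r : ℕ} (hK : 1 ≤ K) (hq : 2 ≤ q) (hr : r ≤ K) (hrq : r < q) :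
    (if q ≤ 2 * K then 1 / (2 * (K : ℝ)) else 1) * Real.exp (-(2 * K * (1 / (q : ℝ)))) ≤ 1 - (r : ℝ) / q := by
  have hK1 : (1 : ℝ) ≤ K := by exact_mod_cast hK
  have hq2 : (2 : ℝ) ≤ q := by exact_mod_cast hq
  have hr0 : (0 : ℝ) ≤ r := Nat.cast_nonneg r
  have hrK : (r : ℝ) ≤ K := by exact_mod_cast hr
  have hrq' : (r : ℝ) + 1 ≤ q := by exact_mod_cast hrq
  have he : Real.exp (-(2 * K * (1 / (q : ℝ)))) ≤ 1 := by
    rw [Real.exp_le_one_iff]
    have : 0 ≤ 2 * (K : ℝ) * (1 / (q : ℝ)) := by positivity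
    linarith
  have he0 := Real.exp_pos (-(2 * K * (1 / (q : ℝ))))
  split_ifs with h
  · have hqK : (q : ℝ) ≤ 2 * K := by exact_mod_cast h
    calc 1 / (2 * (K : ℝ)) * Real.exp (-(2 * K * (1 / (q : ℝ)))) ≤ 1 / (2 * (K : ℝ)) * 1 :=
          mul_le_mul_of_nonneg_left he (by positivity)
      _ = 1 / (2 * (K : ℝ)) := mul_one _
      _ ≤ 1 / (q : ℝ) := one_div_le_one_div_of_le (by linarith) hqK
      _ ≤ 1 - (r : ℝ) / q := by
          rw [div_le_iff₀ (by linarith)]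
          have : (1 - (r : ℝ) / q) * q = q - r := by field_simp
          rw [this]; linarith
  · push Not at h
    have hqK : 2 * (K : ℝ) ≤ q := by exact_mod_cast h.le
    rw [one_mul]
    have h1 : (K : ℝ) / q ≤ 1 / 2 := by
      rw [div_le_iff₀ (by linarith)]; linarith
    have h2 := a2_exp (x := (K : ℝ) / q) (by positivity) h1
    have h3 : -(2 * (K : ℝ) * (1 / (q : ℝ))) = -(2 * ((K : ℝ) / q)) := by ring
    rw [h3]
    have h4 : (r : ℝ) / q ≤ (K : ℝ) / q := div_le_div_of_nonneg_right hrK (by linarith)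
    linarith

theorem a2_large (K B : ℕ) (c : ℝ) (hc : 0 < c) : ∃ n0 : ℕ, ∀ N : ℕ, n0 ≤ N →
    1 ≤ Real.log N ∧ Real.log (Real.log N ^ B + 3) ≤ (B + 1) * Real.log (Real.log N) ∧
      (((B : ℝ) + 1) * Real.log (Real.log N)) ^ (2 * K) ≤ c * Real.log N := by
  have h1 : ∀ᶠ x : ℝ in Filter.atTop, 1 ≤ x ∧ Real.log (x ^ B + 3) ≤ (B + 1) * Real.log x ∧
      (((B : ℝ) + 1) * Real.log x) ^ (2 * K) ≤ c * x := by
    have e1 := (Real.isLittleO_pow_log_id_atTop (n := 2 * K)).def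
      (show 0 < c / ((B : ℝ) + 1) ^ (2 * K) by positivity)
    filter_upwards [e1, Filter.eventually_ge_atTop (4 : ℝ)] with x hx1 hx2
    refine ⟨by linarith, ?_, ?_⟩
    · have h3 : x ^ B + 3 ≤ x ^ (B + 1) := by
        have : 1 ≤ x ^ B := one_le_pow₀ (by linarith)
        rw [pow_succ]
        nlinarith
      calc Real.log (x ^ B + 3) ≤ Real.log (x ^ (B + 1)) := Real.log_le_log (by positivity) h3
        _ = (B + 1) * Real.log x := by rw [Real.log_pow]; push_cast; ring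
    · have hl : 0 ≤ Real.log x := Real.log_nonneg (by linarith)
      rw [Real.norm_eq_abs, Real.norm_eq_abs, abs_of_nonneg (pow_nonneg hl _), id, abs_of_nonneg (by linarith)] at hx1
      rw [mul_pow]
      calc ((B : ℝ) + 1) ^ (2 * K) * Real.log x ^ (2 * K) ≤
            ((B : ℝ) + 1) ^ (2 * K) * (c / ((B : ℝ) + 1) ^ (2 * K) * x) :=
            mul_le_mul_of_nonneg_left hx1 (by positivity)
        _ = c * x := by field_simp
  have h2 : Filter.Tendsto (fun N : ℕ => Real.log (N : ℝ)) Filter.atTop Filter.atTop :=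
    Real.tendsto_log_atTop.comp tendsto_natCast_atTop_atTop
  obtain ⟨n0, hn0⟩ := Filter.eventually_atTop.1 (h2.eventually h1)
  exact ⟨n0, fun N hN => hn0 N hN⟩

/-- Lower bound for the small primes.

Proof. `#R ≤ K` and `#R < q`. For `q ≤ 2 K` the factor is at least `1/q`, the product of these is a constant
`c_K > 0`. For `q > 2 K`: `1 - K/q ≥ exp (-2 K/q)`, and `∑_{q ≤ W} 1/q ≤ log log W + C` (`mertens` in `H59C/MER0.lean`), so
`VaR ≥ c_K' (log W)^(-2K)`, and `log W ≤ (B + 1) log L`, so this is `≥ 1/L` for large `N` (`L = log N`). -/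
theorem vaR_low (K B : ℕ) (hK : 1 ≤ K) : ∃ n0 : ℕ, ∀ N : ℕ, n0 ≤ N → ∀ (W p1 : ℕ)
    (R : ℕ → Finset ℕ), W = ⌈Real.log N ^ B⌉₊ → (∀ q ∈ Ps W p1, (R q).card ≤ K) →
    (∀ q ∈ Ps W p1, (R q).card < q) →
    1 / Real.log N ≤ VaR (Ps W p1) R ∧ VaR (Ps W p1) R ≤ 1 := by
  obtain ⟨C, hC, hmer⟩ := Pool.Agent.Lib.H59C.mertens
  have hK1 : (1 : ℝ) ≤ K := by exact_mod_cast hK
  have hl2 : 0 < Real.log 2 := Real.log_pos (by norm_num)
  set C' : ℝ := C / Real.log 2 - Real.log (Real.log 2) with hC'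
  set c : ℝ := (1 / (2 * (K : ℝ))) ^ (2 * K) * Real.exp (-(2 * K * C')) with hc
  have hcpos : 0 < c := by rw [hc]; positivity
  obtain ⟨n0, hn0⟩ := a2_large K B c hcpos
  refine ⟨n0, fun N hN W p1 R hW hR1 hR2 => ?_⟩
  obtain ⟨hL1, hL2, hL3⟩ := hn0 N hN
  have hL0 : 0 < Real.log N := by linarith
  have hfac : ∀ q ∈ Ps W p1, 0 ≤ 1 - ((R q).card : ℝ) / q := by
    intro q hq
    have hq2 : (2 : ℝ) ≤ q := by exact_mod_cast (a2_Ps hq).two_le
    have h1 : ((R q).card : ℝ) ≤ q := by exact_mod_cast (hR2 q hq).le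
    have h2 : ((R q).card : ℝ) / q ≤ 1 := by
      rw [div_le_one (by linarith)]; exact h1
    linarith
  constructor
  · have hW1 : (W : ℝ) + 1 ≤ Real.log N ^ B + 3 := by
      rw [hW]
      have := (Nat.ceil_lt_add_one (show 0 ≤ Real.log N ^ B by positivity)).le
      linarith
    have hWone : 1 ≤ W := by
      rw [hW]
      exact Nat.one_le_iff_ne_zero.2 (by
        have : 0 < ⌈Real.log N ^ B⌉₊ := Nat.ceil_pos.2 (by positivity)
        omega)
    have hWone' : (1 : ℝ) ≤ W := by exact_mod_cast hWone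
    have hsum : ∑ q ∈ Ps W p1, 1 / (q : ℝ) ≤ Real.log (Real.log (W + 1)) + C' := by
      have h1 := hmer 2 (W + 1) le_rfl (by linarith)
      have h2 : ∑ q ∈ Ps W p1, 1 / (q : ℝ) ≤ ∑ q ∈ Pool.Agent.Lib.H59C.PR 2 (W + 1), 1 / (q : ℝ) := by
        refine Finset.sum_le_sum_of_subset_of_nonneg ?_ fun q _ _ => by positivity
        intro q hq
        rw [Pool.Agent.Lib.H59C.mem_PR]
        unfold Ps at hq
        rw [Finset.mem_filter, Finset.mem_Icc] at hq
        refine ⟨hq.2.1, by exact_mod_cast hq.2.1.two_le, ?_⟩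
        have : (q : ℝ) ≤ W := by exact_mod_cast hq.1.2
        linarith
      have h3 := (abs_le.1 h1).2
      rw [hC']
      linarith
    have hlogW : 0 < Real.log (W + 1) := Real.log_pos (by linarith)
    have hlogW2 : Real.log (W + 1) ≤ (B + 1) * Real.log (Real.log N) := by
      refine le_trans (Real.log_le_log (by linarith) hW1) hL2
    have hcard : ((Ps W p1).filter (fun q => q ≤ 2 * K)).card ≤ 2 * K := by
      calc ((Ps W p1).filter (fun q => q ≤ 2 * K)).card ≤ (Icc 1 (2 * K)).card := by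
            refine Finset.card_le_card fun q hq => ?_
            rw [Finset.mem_filter] at hq
            rw [Finset.mem_Icc]
            exact ⟨(a2_Ps hq.1).one_le, hq.2⟩
        _ = 2 * K := by simp
    have h1 : (1 / (2 * (K : ℝ))) ^ (2 * K) ≤ ∏ q ∈ Ps W p1, (if q ≤ 2 * K then 1 / (2 * (K : ℝ)) else 1) := by
      rw [← Finset.prod_filter, Finset.prod_const]
      refine pow_le_pow_of_le_one (by positivity) ?_ hcard
      rw [div_le_one (by positivity)]
      linarith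
    have h2 : Real.exp (-(2 * K * (Real.log (Real.log (W + 1)) + C'))) ≤
        ∏ q ∈ Ps W p1, Real.exp (-(2 * K * (1 / (q : ℝ)))) := by
      rw [← Real.exp_sum, Real.exp_le_exp, Finset.sum_neg_distrib, ← Finset.mul_sum]
      have := mul_le_mul_of_nonneg_left hsum (show (0 : ℝ) ≤ 2 * K by positivity)
      linarith
    have h3 : Real.exp (-(2 * K * (Real.log (Real.log (W + 1)) + C'))) =
        Real.exp (-(2 * K * C')) * (Real.log (W + 1) ^ (2 * K))⁻¹ := by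
      have h4 : -(2 * (K : ℝ) * (Real.log (Real.log (W + 1)) + C')) =
          -(2 * K * C') + -(((2 * K : ℕ) : ℝ) * Real.log (Real.log (W + 1))) := by push_cast; ring
      rw [h4, Real.exp_add, Real.exp_neg (((2 * K : ℕ) : ℝ) * _), Real.exp_nat_mul, Real.exp_log hlogW]
    have h5 : c * (Real.log (W + 1) ^ (2 * K))⁻¹ ≤ VaR (Ps W p1) R := by
      unfold VaR
      calc c * (Real.log (W + 1) ^ (2 * K))⁻¹ = (1 / (2 * (K : ℝ))) ^ (2 * K) *
            Real.exp (-(2 * K * (Real.log (Real.log (W + 1)) + C'))) := by rw [h3, hc]; ring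
        _ ≤ (∏ q ∈ Ps W p1, (if q ≤ 2 * K then 1 / (2 * (K : ℝ)) else 1)) *
            ∏ q ∈ Ps W p1, Real.exp (-(2 * K * (1 / (q : ℝ)))) :=
            mul_le_mul h1 h2 (Real.exp_pos _).le (le_trans (by positivity) h1)
        _ = ∏ q ∈ Ps W p1, ((if q ≤ 2 * K then 1 / (2 * (K : ℝ)) else 1) *
            Real.exp (-(2 * K * (1 / (q : ℝ))))) := by rw [Finset.prod_mul_distrib]
        _ ≤ ∏ q ∈ Ps W p1, (1 - ((R q).card : ℝ) / q) := by
            refine Finset.prod_le_prod (fun q _ => ?_) fun q hq => ?_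
            · refine mul_nonneg ?_ (Real.exp_pos _).le
              split_ifs
              · positivity
              · norm_num
            · exact a2_fac hK (a2_Ps hq).two_le (hR1 q hq) (hR2 q hq)
    refine le_trans ?_ h5
    have h6 : Real.log (W + 1) ^ (2 * K) ≤ c * Real.log N :=
      le_trans (pow_le_pow_left₀ hlogW.le hlogW2 _) hL3
    have h7 : 0 < Real.log (W + 1) ^ (2 * K) := pow_pos hlogW _
    rw [← div_eq_mul_inv, div_le_div_iff₀ hL0 h7]
    linarith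
  · unfold VaR
    refine Finset.prod_le_one hfac fun q hq => ?_
    have : 0 ≤ ((R q).card : ℝ) / q := by positivity
    linarith

/-- Proof. `vaR_low` with `K + 1`: the classes in `Rb` are those of `-h`, `h ∈ H`, and `N`: at most `K + 1`. -/
theorem va_low (K B : ℕ) (hK : 1 ≤ K) : ∃ n0 : ℕ, ∀ N : ℕ, n0 ≤ N → ∀ (W p1 : ℕ) (H : Finset ℕ),
    W = ⌈Real.log N ^ B⌉₊ → H.card = K → (∀ q : ℕ, q.Prime → (Rb N H q).card < q) →
    1 / Real.log N ≤ Va N W p1 H ∧ Va N W p1 H ≤ 1 := by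
  obtain ⟨n0, hn0⟩ := vaR_low (K + 1) B (by omega)
  refine ⟨n0, fun N hN W p1 H hW hH hq => ?_⟩
  rw [Va_eq]
  refine hn0 N hN W p1 (Rb N H) hW ?_ fun q hq' => hq q (a2_Ps hq')
  intro q hq'
  have hsub : Rb N H q ⊆ insert (N % q) (H.image (fun h => (q - h % q) % q)) := by
    intro c hc
    have hlt := Finset.mem_range.1 (a2_Rb hc)
    unfold Rb at hc
    rw [Finset.mem_filter] at hc
    rw [Finset.mem_insert, Finset.mem_image]
    rcases hc.2 with ⟨h, hh, hd⟩ | hd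
    · exact Or.inr ⟨h, hh, ((a2_cls (a2_Ps hq').pos hlt).1 hd).symm⟩
    · exact Or.inl ((a2_mod hlt).1 hd)
  calc (Rb N H q).card ≤ (insert (N % q) (H.image (fun h => (q - h % q) % q))).card := Finset.card_le_card hsub
    _ ≤ (H.image (fun h => (q - h % q) % q)).card + 1 := Finset.card_insert_le _ _
    _ ≤ H.card + 1 := by have := Finset.card_image_le (s := H) (f := fun h => (q - h % q) % q); omega
    _ = K + 1 := by rw [hH]

/-- Proof. `∏_{q ≤ W} q/(q-1) ≥ log W` (`Sieve.prod_one_sub_inv_le` or `∏ (1 - 1/q)⁻¹ ≥ ∑_{n ≤ W} 1/n`), and the factor at `p1` which is missing is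
`p1/(p1 - 1) ≤ 2`. -/
theorem vbR_ge (W p1 : ℕ) (R : ℕ → Finset ℕ) (hW : 2 ≤ W) (hp : p1.Prime)
    (hV : 0 ≤ VaR (Ps W p1) R) :
    Real.log W / 4 * VaR (Ps W p1) R ≤ VbR (Ps W p1) R ∧
      VaR (Ps W p1) R ≤ VbR (Ps W p1) R := by
  have hW2 : (2 : ℝ) ≤ W := by exact_mod_cast hW
  have hlog : 0 < Real.log W := Real.log_pos (by linarith)
  have hone : ∀ q : ℕ, q.Prime → 1 ≤ (q : ℝ) / ((q : ℝ) - 1) := by
    intro q hq
    have : (2 : ℝ) ≤ q := by exact_mod_cast hq.two_le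
    rw [le_div_iff₀ (by linarith)]
    linarith
  have h1 : 1 ≤ ∏ q ∈ Ps W p1, ((q : ℝ) / ((q : ℝ) - 1)) :=
    Finset.one_le_prod fun q hq => hone q (a2_Ps hq)
  have h2 := Pool.Agent.Lib.Sieve.prod_one_sub_inv_le W hW
  have h3 : ∏ p ∈ Pool.Agent.Lib.Sieve.primesUpTo W, ((p : ℝ) / ((p : ℝ) - 1)) =
      (∏ p ∈ Pool.Agent.Lib.Sieve.primesUpTo W, (1 - 1 / (p : ℝ)))⁻¹ := by
    rw [← Finset.prod_inv_distrib]
    refine Finset.prod_congr rfl fun p hp => ?_
    have : (2 : ℝ) ≤ p := by exact_mod_cast (Pool.Agent.Lib.Sieve.mem_primesUpTo.1 hp).1.two_le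
    have h4 : (p : ℝ) ≠ 0 := by linarith
    have h5 : (p : ℝ) - 1 ≠ 0 := by linarith
    field_simp
  have h4 : 0 < ∏ p ∈ Pool.Agent.Lib.Sieve.primesUpTo W, (1 - 1 / (p : ℝ)) := by
    refine Finset.prod_pos fun p hp => ?_
    have : (2 : ℝ) ≤ p := by exact_mod_cast (Pool.Agent.Lib.Sieve.mem_primesUpTo.1 hp).1.two_le
    have : 1 / (p : ℝ) ≤ 1 / 2 := one_div_le_one_div_of_le (by norm_num) this
    linarith
  have h5 : Real.log W ≤ ∏ p ∈ Pool.Agent.Lib.Sieve.primesUpTo W, ((p : ℝ) / ((p : ℝ) - 1)) := by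
    rw [h3, ← one_div, le_div_iff₀ h4]
    calc Real.log W * ∏ p ∈ Pool.Agent.Lib.Sieve.primesUpTo W, (1 - 1 / (p : ℝ)) ≤
          Real.log W * (1 / Real.log W) := mul_le_mul_of_nonneg_left h2 hlog.le
      _ = 1 := by field_simp
  have h6 : ∏ p ∈ Pool.Agent.Lib.Sieve.primesUpTo W, ((p : ℝ) / ((p : ℝ) - 1)) ≤
      2 * ∏ q ∈ Ps W p1, ((q : ℝ) / ((q : ℝ) - 1)) := by
    have hsub : Pool.Agent.Lib.Sieve.primesUpTo W ⊆ insert p1 (Ps W p1) := by
      intro q hq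
      rw [Pool.Agent.Lib.Sieve.mem_primesUpTo] at hq
      rw [Finset.mem_insert]
      by_cases h : q = p1
      · exact Or.inl h
      · refine Or.inr ?_
        unfold Ps
        rw [Finset.mem_filter, Finset.mem_Icc]
        exact ⟨⟨hq.1.one_le, hq.2⟩, hq.1, h⟩
    have hnot : p1 ∉ Ps W p1 := by
      unfold Ps
      rw [Finset.mem_filter]
      rintro ⟨_, _, h⟩
      exact h rfl
    calc ∏ p ∈ Pool.Agent.Lib.Sieve.primesUpTo W, ((p : ℝ) / ((p : ℝ) - 1)) ≤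
          ∏ p ∈ insert p1 (Ps W p1), ((p : ℝ) / ((p : ℝ) - 1)) := by
          refine Finset.prod_le_prod_of_subset_of_one_le hsub (fun q hq => ?_) fun q hq _ => ?_
          · exact le_trans zero_le_one (hone q (Pool.Agent.Lib.Sieve.mem_primesUpTo.1 hq).1)
          · rw [Finset.mem_insert] at hq
            rcases hq with rfl | hq
            · exact hone _ hp
            · exact hone _ (a2_Ps hq)
      _ = (p1 : ℝ) / ((p1 : ℝ) - 1) * ∏ q ∈ Ps W p1, ((q : ℝ) / ((q : ℝ) - 1)) := Finset.prod_insert hnot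
      _ ≤ 2 * ∏ q ∈ Ps W p1, ((q : ℝ) / ((q : ℝ) - 1)) := by
          refine mul_le_mul_of_nonneg_right ?_ (by linarith)
          have : (2 : ℝ) ≤ p1 := by exact_mod_cast hp.two_le
          rw [div_le_iff₀ (by linarith)]
          linarith
  unfold VbR
  constructor
  · rw [mul_comm]
    refine mul_le_mul_of_nonneg_left ?_ hV
    linarith
  · calc VaR (Ps W p1) R = VaR (Ps W p1) R * 1 := (mul_one _).symm
      _ ≤ _ := mul_le_mul_of_nonneg_left h1 hV

/-- Proof. `vbR_ge`. -/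
theorem vb_ge (N W p1 : ℕ) (H : Finset ℕ) (hW : 2 ≤ W) (hp : p1.Prime)
    (hV : 0 ≤ Va N W p1 H) :
    Real.log W / 4 * Va N W p1 H ≤ Vb N W p1 H ∧ Va N W p1 H ≤ Vb N W p1 H := by
  rw [Va_eq] at hV
  rw [Va_eq, Vb_eq]
  exact vbR_ge W p1 (Rb N H) hW hp hV

end Pool.Agent.Lib.H57C
end

-- from Lib.H57C.SDefs
section

/-!
# Definitions for the weighted sieve
-/

open Finset

namespace Pool.Agent.Lib.H57C

open Pool.Agent.Lib.H57M
open Pool.Agent.Lib.H59C (Sq lg XX gq VV PR zz yy Tri sift)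

noncomputable section

variable {K : ℕ} (w : Par K) (H : Finset ℕ) (N p1 h : ℕ)

/-- The primes `t + h`. -/
def Sh (N h : ℕ) : Finset ℕ := Sq (Ya N + h) (Yb N + h)

/-- The weight of the prime `p = t + h`. -/
def wh (p : ℕ) : ℝ := lg p * Fs w H N p1 (some h) (p - h)

/-- `V(z)` -/
def Vz (N W : ℕ) (H : Finset ℕ) : ℝ := VV (Pg N W H) (zz N)

/-- The bad primes in `(W, N]`: they divide some `N + h`, `h ∈ H`. -/
def Bd (N W : ℕ) (H : Finset ℕ) : Finset ℕ :=
  (Ioc W N).filter (fun q => q.Prime ∧ ∃ h ∈ H, q ∣ N + h)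

/-- The primes with weights. -/
def Qc (N W : ℕ) (H : Finset ℕ) : Finset ℕ := (PR (zz N) (yy N)).filter (fun q => q ∈ Pg N W H)

/-- The first sum. -/
def S1s : ℝ := sift (Sh N h) (wh w H N p1 h) (fun p => Nat.dist (N + h) p) (Pg N w.W H) (zz N)

/-- The second sum. -/
def S2s : ℝ := ∑ q ∈ Qc N w.W H, sift ((Sh N h).filter (fun p => q ∣ Nat.dist (N + h) p))
  (wh w H N p1 h) (fun p => Nat.dist (N + h) p) (Pg N w.W H) (zz N)

open Classical in
/-- The third sum. -/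
def S3s : ℝ := ∑ p ∈ (Sh N h).filter (fun p => Tri N (Nat.dist (N + h) p)), wh w H N p1 h p

open Classical in
/-- Exceptional: `p1` divides `N - t`. -/
def E1s : ℝ := ∑ p ∈ (Sh N h).filter (fun p => p1 ∣ Nat.dist (N + h) p ∧
  ∀ q ∈ Pg N w.W H, (q : ℝ) < zz N → ¬ q ∣ Nat.dist (N + h) p), wh w H N p1 h p

/-- Exceptional: a bad prime divides `N - t`. -/
def E2s : ℝ := ∑ q ∈ Bd N w.W H, ∑ p ∈ (Sh N h).filter (fun p => q ∣ Nat.dist (N + h) p),
  wh w H N p1 h p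

open Classical in
/-- Exceptional: squares. -/
def E3s : ℝ := ∑ p ∈ (Sh N h).filter
  (fun p => ∃ q : ℕ, q.Prime ∧ zz N ≤ q ∧ q ^ 2 ∣ Nat.dist (N + h) p), wh w H N p1 h p

/-- The negative part. -/
def Ns : ℝ := sift (Ioc (Ya N) (Yb N)) (Fs w H N p1 none) (fun t => N - t) (Pg N w.W H) (zz N)

/-- The whole weighted sum. -/
def Tt (g : ℕ) : ℝ :=
  ∑ h ∈ H, (S1s w H N p1 h - 1 / 2 * S2s w H N p1 h - 1 / 2 * S3s w H N p1 h -
    E1s w H N p1 h - E2s w H N p1 h - E3s w H N p1 h) - ((g : ℝ) - 1) * Real.log (2 * N) *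
    Ns w H N p1

/-- A prime or a product of two primes, all prime factors `≥ N^(1/10)`. -/
def AP2 (N a : ℕ) : Prop :=
  (∀ q : ℕ, q.Prime → q ∣ a → (N : ℝ) ^ (1 / 10 : ℝ) ≤ q) ∧
    (a.Prime ∨ ∃ r s : ℕ, r.Prime ∧ s.Prime ∧ a = r * s)

open Classical in
/-- The good `t` in the window. -/
def Gd (H : Finset ℕ) (N g : ℕ) : Finset ℕ :=
  (Ioc (Ya N) (Yb N)).filter (fun t => g ≤ (H.filter (fun h => (t + h).Prime)).card ∧
    AP2 N (N - t))

end

end Pool.Agent.Lib.H57C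
end

-- from Lib.H57C.S0
section

/-!
# Chunk S0: windows, `V(z)` and the size of the main term
-/

open Finset

namespace Pool.Agent.Lib.H57C

open Pool.Agent.Lib.H57M
open Pool.Agent.Lib.H59C (Sq lg XX gq VV PR zz yy Tri sift Win)

/-- The window of project H59C. Proof. `Ya N = 7N/20`, `Yb N = 9N/20`: `16 (Yb - Ya) ≥ 16 (N/10 - 1) ≥ N`; `N + h - (Yb + h) = N - Yb ≥ 11N/20`;
`h ≤ N/100` for large `N` is a hypothesis. -/
theorem win_h (N h : ℕ) (hN : 1000 ≤ N) (hh : 100 * h ≤ N) (he : 2 ∣ N + h) :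
    Win N (N + h) (Ya N + h) (Yb N + h) ∧ Yb N + h < N + h := by
  unfold Ya Yb
  refine ⟨⟨by omega, he, by omega, by omega, by omega, by omega, by omega, Or.inl ⟨by omega, by omega⟩⟩, by omega⟩

/-- `N + h` is not a multiple of a prime `p ∈ (Ya + h, Yb + h]`: `(N + h)/p` is between `2` and `3`. -/
theorem not_dvd_h (N h p : ℕ) (hN : 1000 ≤ N) (hh : 100 * h ≤ N) (hp : p ∈ Sh N h) :
    ¬ p ∣ N + h := by
  unfold Sh Sq Ya Yb at hp
  rw [Finset.mem_filter, Finset.mem_Ioc] at hp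
  obtain ⟨⟨h1, h2⟩, _⟩ := hp
  rintro ⟨k, hk⟩
  rcases Nat.lt_or_ge k 3 with h3 | h3
  · have h4 : p * k ≤ p * 2 := Nat.mul_le_mul_left p (by omega)
    omega
  · have h4 : p * 3 ≤ p * k := Nat.mul_le_mul_left p h3
    omega

/-- Proof. `Pg` consists of primes `> W ≥ 2`, `VV` of a subset of the odd primes is at least the one of all odd primes in `[3, z)`:
`VV_lower` with its `N = 1` (`c/log N ≤ VV`), and `VV ≤ 1`. -/
theorem vz_low : ∃ c : ℝ, 0 < c ∧ ∃ n0 : ℕ, ∀ N : ℕ, n0 ≤ N → ∀ (W : ℕ) (H : Finset ℕ), 2 ≤ W →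
    c / Real.log N ≤ Vz N W H ∧ Vz N W H ≤ 1 := by
  obtain ⟨c, hc, n0, hn0⟩ := Pool.Agent.Lib.H59C.VV_lower
  refine ⟨c, hc, max n0 1, fun N hN W H hW => ?_⟩
  have hN1 : 1 ≤ N := le_trans (le_max_right _ _) hN
  have hN1' : (1 : ℝ) ≤ N := by exact_mod_cast hN1
  have hP : ∀ q ∈ Pg N W H, q.Prime ∧ 3 ≤ q := by
    intro q hq
    unfold Pg at hq
    rw [Finset.mem_filter, Finset.mem_Ioc] at hq
    exact ⟨hq.2.1, by omega⟩
  constructor
  · have h1 := hn0 N (le_trans (le_max_left _ _) hN) (Pg N W H) 1 (zz N) one_pos (Nat.one_le_pow _ _ hN1)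
      (by
        unfold zz
        exact Real.rpow_le_rpow_of_exponent_le hN1' (by norm_num))
      (by
        unfold zz
        calc (N : ℝ) ^ (1 / 8 : ℝ) ≤ (N : ℝ) ^ (1 : ℝ) := Real.rpow_le_rpow_of_exponent_le hN1' (by norm_num)
          _ = N := Real.rpow_one _)
      (fun q hq => ⟨(hP q hq).1, (hP q hq).2, fun h => (hP q hq).1.one_lt.ne' (Nat.dvd_one.1 h)⟩)
    have h2 : (∏ q ∈ (1 : ℕ).primeFactors.filter (fun q => 2 < q), (((q : ℝ) - 1) / (q - 2))) = 1 := by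
      rw [Nat.primeFactors_one]
      simp
    rw [h2, mul_one] at h1
    exact h1
  · unfold Vz VV Pool.Agent.Lib.H59C.VP
    have h1 : ∀ q ∈ (Pg N W H).filter (fun q : ℕ => (q : ℝ) < zz N), 0 ≤ gq q ∧ gq q ≤ 1 := by
      intro q hq
      have hq3 : (3 : ℝ) ≤ q := by exact_mod_cast (hP q (Finset.mem_filter.1 hq).1).2
      unfold gq
      constructor
      · exact div_nonneg zero_le_one (by linarith)
      · rw [div_le_one (by linarith)]
        linarith
    refine Finset.prod_le_one (fun q hq => ?_) fun q hq => ?_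
    · linarith [(h1 q hq).2]
    · linarith [(h1 q hq).1]

theorem s0_large (B : ℕ) (c : ℝ) (hc : 0 < c) : ∃ n0 : ℕ, ∀ N : ℕ, n0 ≤ N →
    1000 ≤ N ∧ 1 ≤ Real.log N ∧ 1 ≤ c * Real.log N ∧ 100 * (Real.log N ^ B + 1) ≤ (N : ℝ) := by
  have h1 : ∀ᶠ x : ℝ in Filter.atTop, 1 ≤ Real.log x ∧ 1 ≤ c * Real.log x ∧ 100 * (Real.log x ^ B + 1) ≤ x := by
    have e1 := (Real.isLittleO_pow_log_id_atTop (n := B)).def (show (0 : ℝ) < 1 / 200 by norm_num)
    filter_upwards [e1, Filter.eventually_ge_atTop (200 : ℝ),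
      Real.tendsto_log_atTop.eventually_ge_atTop 1, Real.tendsto_log_atTop.eventually_ge_atTop (1 / c)] with x hx1 hx2 hx3 hx4
    refine ⟨hx3, ?_, ?_⟩
    · rw [div_le_iff₀ hc] at hx4
      linarith
    · rw [Real.norm_eq_abs, Real.norm_eq_abs, abs_of_nonneg (pow_nonneg (by linarith) _), id, abs_of_nonneg (by linarith)] at hx1
      linarith
  obtain ⟨n0, hn0⟩ := Filter.eventually_atTop.1
    ((tendsto_natCast_atTop_atTop (R := ℝ)).eventually h1)
  exact ⟨max n0 1000, fun N hN => ⟨le_trans (le_max_right _ _) hN, hn0 N (le_trans (le_max_left _ _) hN)⟩⟩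

/-- Proof. `Xh = XX AE Vb`, `XX ≥ N/20` (`XX_bounds` with `win_h`), `AE ≥ 36/100` (`aes`, `c ≥ 0`), `Vb ≥ Va ≥ 1/L` (`vb_ge`, `va_low`), `Vz ≥ c/L`:
`Xh Vz ≥ c' N/L^2 ≥ N/L^3` for large `N`. -/
theorem main_low (K B cF : ℕ) (hK : 1 ≤ K) (θ G : ℝ) : ∃ n0 : ℕ, ∀ N : ℕ, n0 ≤ N →
    ∀ (w : Par K) (H : Finset ℕ) (p1 : ℕ), Reg B cF θ G w H N p1 → ∀ h ∈ H,
    N / Real.log N ^ 3 ≤ Xh w H N p1 h * Vz N w.W H ∧ 0 ≤ Xh w H N p1 h ∧
    (N : ℝ) / 20 ≤ XX (Ya N + h) (Yb N + h) ∧ XX (Ya N + h) (Yb N + h) ≤ N / 5 := by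
  obtain ⟨c, hc, n1, hn1⟩ := vz_low
  obtain ⟨n2, hn2⟩ := va_low K B hK
  obtain ⟨n3, hn3⟩ := Pool.Agent.Lib.H59C.XX_bounds (1 / 10) (by norm_num)
  obtain ⟨n4, hn4⟩ := s0_large B (18 / 1000 * c) (by positivity)
  refine ⟨max (max n1 n2) (max n3 n4), fun N hN w H p1 hR h hh => ?_⟩
  have hN1 : n1 ≤ N := le_trans (le_trans (le_max_left _ _) (le_max_left _ _)) hN
  have hN2 : n2 ≤ N := le_trans (le_trans (le_max_right _ _) (le_max_left _ _)) hN
  have hN3 : n3 ≤ N := le_trans (le_trans (le_max_left _ _) (le_max_right _ _)) hN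
  have hN4 : n4 ≤ N := le_trans (le_trans (le_max_right _ _) (le_max_right _ _)) hN
  obtain ⟨g1, g2, g3, g4⟩ := hn4 N hN4
  have hNr : (1000 : ℝ) ≤ N := by exact_mod_cast g1
  have hL0 : 0 < Real.log N := by linarith
  have hW4 : 4 ≤ w.W := by
    have := w.KW
    have h1 := w.Kpos
    nlinarith
  have hhW : h ≤ w.W := hR.HW h hh
  have hh100 : 100 * h ≤ N := by
    have h1 : (w.W : ℝ) ≤ Real.log N ^ B + 1 := by
      rw [hR.Wdef]
      exact (Nat.ceil_lt_add_one (by positivity)).le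
    have h2 : (h : ℝ) ≤ w.W := by exact_mod_cast hhW
    have h3 : (100 * h : ℝ) ≤ N := by linarith
    exact_mod_cast h3
  obtain ⟨hwin, _⟩ := win_h N h g1 hh100 (hR.even h hh)
  obtain ⟨x1, x2⟩ := hn3 N hN3 _ _ _ hwin
  have hdl : (N : ℝ) / 10 - 1 ≤ ((Yb N + h : ℕ) : ℝ) - ((Ya N + h : ℕ) : ℝ) := by
    have : N ≤ 10 * (Yb N + h) - 10 * (Ya N + h) + 10 := by unfold Ya Yb; omega
    have h2 : 10 * (Ya N + h) ≤ 10 * (Yb N + h) := by unfold Ya Yb; omega
    have h3 : N + 10 * (Ya N + h) ≤ 10 * (Yb N + h) + 10 := by omega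
    have h4 : (N : ℝ) + 10 * ((Ya N + h : ℕ) : ℝ) ≤ 10 * ((Yb N + h : ℕ) : ℝ) + 10 := by exact_mod_cast h3
    linarith
  have hdu : ((Yb N + h : ℕ) : ℝ) - ((Ya N + h : ℕ) : ℝ) ≤ (N : ℝ) / 10 + 1 := by
    have h3 : 10 * (Yb N + h) ≤ N + 10 * (Ya N + h) + 10 := by unfold Ya Yb; omega
    have h4 : 10 * ((Yb N + h : ℕ) : ℝ) ≤ (N : ℝ) + 10 * ((Ya N + h : ℕ) : ℝ) + 10 := by exact_mod_cast h3
    linarith
  have hX1 : (N : ℝ) / 20 ≤ XX (Ya N + h) (Yb N + h) := by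
    refine le_trans ?_ x1
    nlinarith
  have hX2 : XX (Ya N + h) (Yb N + h) ≤ N / 5 := by
    refine le_trans x2 ?_
    nlinarith
  have hAE : 36 / 100 ≤ AE w.P H (some h) (FC w H) := by
    refine le_trans ?_ (hR.aes h hh)
    have h1 : 0 ≤ (w.n : ℝ) * w.c := mul_nonneg (Nat.cast_nonneg _) w.c0
    nlinarith
  obtain ⟨v1, _⟩ := hn2 N hN2 w.W p1 H hR.Wdef hR.cardH hR.nf
  have hva0 : 0 ≤ Va N w.W p1 H := le_trans (by positivity) v1
  have hvb : 1 / Real.log N ≤ Vb N w.W p1 H := le_trans v1 (vb_ge N w.W p1 H (by omega) hR.p1p hva0).2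
  obtain ⟨z1, _⟩ := hn1 N hN1 w.W H (by omega)
  have hXh : (N : ℝ) / 20 * (36 / 100 * (1 / Real.log N)) ≤ Xh w H N p1 h := by
    unfold Xh
    refine mul_le_mul hX1 (mul_le_mul hAE hvb (by positivity) (by linarith)) (by positivity) (by linarith)
  have hXh0 : 0 ≤ Xh w H N p1 h := le_trans (by positivity) hXh
  refine ⟨?_, hXh0, hX1, hX2⟩
  calc (N : ℝ) / Real.log N ^ 3 = N / Real.log N ^ 3 * 1 := (mul_one _).symm
    _ ≤ N / Real.log N ^ 3 * (18 / 1000 * c * Real.log N) := mul_le_mul_of_nonneg_left g3 (by positivity)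
    _ = (N : ℝ) / 20 * (36 / 100 * (1 / Real.log N)) * (c / Real.log N) := by
        field_simp
        ring
    _ ≤ Xh w H N p1 h * Vz N w.W H := mul_le_mul hXh z1 (by positivity) hXh0

end Pool.Agent.Lib.H57C
end

-- from Lib.H59C.PRJ
section

/-!
# PRJ: dyadic summation for products
-/

open Finset

namespace Pool.Agent.Lib.H59C

open Pool.Agent.Lib.H68T (PC p0 e)

/-- the dyadic piece of `n` above `R` -/
def prj_dy (R n : ℕ) : ℕ := Nat.log 2 ((n - 1) / R)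

theorem prj_dy_spec {R n : ℕ} (hR : 1 ≤ R) (hn : R < n) :
    2 ^ prj_dy R n * R < n ∧ n ≤ 2 * (2 ^ prj_dy R n * R) := by
  have h1 : (n - 1) / R ≠ 0 := by
    have : 1 ≤ (n - 1) / R := (Nat.le_div_iff_mul_le (by omega)).2 (by omega)
    omega
  have h2 : 2 ^ prj_dy R n ≤ (n - 1) / R := Nat.pow_log_le_self 2 h1
  have h3 : (n - 1) / R < 2 ^ (prj_dy R n + 1) := Nat.lt_pow_succ_log_self (by norm_num) _
  rw [Nat.le_div_iff_mul_le (by omega)] at h2
  rw [Nat.div_lt_iff_lt_mul (by omega), pow_succ] at h3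
  constructor
  · omega
  · have : 2 ^ prj_dy R n * 2 * R = 2 * (2 ^ prj_dy R n * R) := by ring
    omega

theorem prj_dy_lt {R n Q : ℕ} (hQ : n ≤ Q) : prj_dy R n < Nat.log 2 Q + 1 := by
  rw [Nat.lt_succ_iff]
  apply Nat.log_mono_right
  exact (Nat.div_le_self _ _).trans (by omega)

theorem prj_log {Q : ℕ} (hQ : 2 ≤ Q) : ((Nat.log 2 Q + 1 : ℕ) : ℝ) ≤ 3 * Real.log Q := by
  have hQ2 : (2 : ℝ) ≤ Q := by exact_mod_cast hQ
  have hl2 := Real.log_two_gt_d9
  have h1 : ((2 : ℝ) ^ Nat.log 2 Q) ≤ Q := by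
    exact_mod_cast Nat.pow_log_le_self 2 (by omega : Q ≠ 0)
  have h2 := Real.log_le_log (by positivity) h1
  rw [Real.log_pow] at h2
  have h3 := Real.log_le_log (by norm_num) hQ2
  push_cast
  have h4 : (0 : ℝ) ≤ Nat.log 2 Q := Nat.cast_nonneg _
  nlinarith

/-- the square root -/
theorem prj_sqrt {M N R : ℝ} (hM : 0 ≤ M) (hN : 0 ≤ N) (hR : 0 ≤ R) :
    Real.sqrt ((M + R ^ 2) * (N + R ^ 2)) ≤
      Real.sqrt (M * N) + R * Real.sqrt M + R * Real.sqrt N + R ^ 2 := by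
  have h1 : Real.sqrt (M * N) = Real.sqrt M * Real.sqrt N := Real.sqrt_mul hM N
  have h0 : ∀ x : ℝ, 0 ≤ x → Real.sqrt (x + R ^ 2) ≤ Real.sqrt x + R := by
    intro x hx
    rw [Real.sqrt_le_left (by positivity)]
    have h1 := Real.sq_sqrt hx
    have h2 : 0 ≤ Real.sqrt x * R := by positivity
    nlinarith
  have h2 := h0 M hM
  have h3 := h0 N hN
  rw [Real.sqrt_mul (by positivity), h1]
  calc _ ≤ (Real.sqrt M + R) * (Real.sqrt N + R) :=
        mul_le_mul h2 h3 (Real.sqrt_nonneg _) (by positivity)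
    _ = _ := by ring

open Classical in
/-- The analogue for products: as in `psi_dyad`/`psi_sum`, with `bil'`. Here `α` is supported on
`m ≤ M`, `β` on `n ≤ N`, both bounded by `L`: for each dyadic `R` the bound is
`C/R √((M + R²)(N + R²) M N L⁴) ≤ C L² (M N/R + M √N + N √M + R √(M N))`. -/
theorem prod_sum : ∃ C : ℝ, 0 < C ∧ ∀ (R0 Q M N : ℕ), 1 ≤ R0 → 1 ≤ M → 1 ≤ N → 2 ≤ Q →
    ∀ (L : ℝ), 0 ≤ L → ∀ α β : ℕ → ℂ, (∀ m, ‖α m‖ ≤ L) → (∀ m, ‖β m‖ ≤ L) →
    ∑ p ∈ (PC Q).filter (fun p => R0 < p.1), 1 / (Nat.totient p.1 : ℝ) *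
      (‖∑ m ∈ Icc 1 M, α m * p.2 (m : ZMod p.1)‖ * ‖∑ n ∈ Icc 1 N, β n * p.2 (n : ZMod p.1)‖) ≤
      C * Real.log Q * L ^ 2 * ((M : ℝ) * N / R0 + M * Real.sqrt N + N * Real.sqrt M +
        Q * Real.sqrt ((M : ℝ) * N)) := by
  obtain ⟨C₀, hC₀, hb⟩ := bil'
  refine ⟨3 * C₀, by positivity, ?_⟩
  intro R0 Q M N hR0 hM hN hQ L hL α β hα hβ
  obtain ⟨f, hf⟩ : ∃ f : PCh → ℝ, ∀ p, f p = 1 / (Nat.totient p.1 : ℝ) *
      (‖∑ m ∈ Icc 1 M, α m * p.2 (m : ZMod p.1)‖ * ‖∑ n ∈ Icc 1 N, β n * p.2 (n : ZMod p.1)‖) :=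
    ⟨_, fun _ => rfl⟩
  simp only [← hf]
  have hf0 : ∀ p, 0 ≤ f p := by
    intro p
    rw [hf]
    positivity
  have hR0r : (1 : ℝ) ≤ R0 := by exact_mod_cast hR0
  have hMr : (1 : ℝ) ≤ M := by exact_mod_cast hM
  have hNr : (1 : ℝ) ≤ N := by exact_mod_cast hN
  have hmaps : ∀ p ∈ (PC Q).filter (fun p => R0 < p.1),
      prj_dy R0 p.1 ∈ range (Nat.log 2 Q + 1) := by
    intro p hp
    rw [mem_filter, Pool.Agent.Lib.H68T.mem_PC] at hp
    rw [mem_range]
    exact prj_dy_lt hp.1.2.1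
  obtain ⟨T, hT⟩ : ∃ T : ℝ, T = C₀ * L ^ 2 * ((M : ℝ) * N / R0 + M * Real.sqrt N +
      N * Real.sqrt M + Q * Real.sqrt ((M : ℝ) * N)) := ⟨_, rfl⟩
  have hT0 : 0 ≤ T := by rw [hT]; positivity
  have hpiece : ∀ i ∈ range (Nat.log 2 Q + 1),
      ∑ p ∈ ((PC Q).filter (fun p => R0 < p.1)).filter (fun p => prj_dy R0 p.1 = i), f p ≤ T := by
    intro i _
    by_cases hi : 2 ^ i * R0 ≤ Q
    · obtain ⟨R, hRdef⟩ : ∃ R, R = 2 ^ i * R0 := ⟨_, rfl⟩
      have hRR0 : R0 ≤ R := by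
        rw [hRdef]
        exact Nat.le_mul_of_pos_left _ (by positivity)
      have hR1 : 1 ≤ R := hR0.trans hRR0
      have hsub : ((PC Q).filter (fun p => R0 < p.1)).filter (fun p => prj_dy R0 p.1 = i) ⊆
          PD R := by
        intro p hp
        rw [mem_filter, mem_filter, Pool.Agent.Lib.H68T.mem_PC] at hp
        obtain ⟨⟨⟨h1, h2, h3⟩, h4⟩, h5⟩ := hp
        have h6 := prj_dy_spec hR0 h4
        rw [h5, ← hRdef] at h6
        rw [PD, mem_filter, Pool.Agent.Lib.H68T.mem_PC]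
        exact ⟨⟨h1, h6.2, h3⟩, h6.1⟩
      refine (sum_le_sum_of_subset_of_nonneg hsub fun p _ _ => hf0 p).trans ?_
      have h1 := hb R M N hR1 hM hN α β
      simp only [← hf] at h1
      refine h1.trans ?_
      have hRr : (1 : ℝ) ≤ R := by exact_mod_cast hR1
      have hRQ : (R : ℝ) ≤ Q := by rw [hRdef]; exact_mod_cast hi
      have hRR : (R0 : ℝ) ≤ R := by exact_mod_cast hRR0
      have hA : ∑ m ∈ Icc 1 M, ‖α m‖ ^ 2 ≤ M * L ^ 2 := by
        refine (sum_le_sum fun m _ => pow_le_pow_left₀ (norm_nonneg _) (hα m) 2).trans ?_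
        rw [sum_const, Nat.card_Icc, nsmul_eq_mul, Nat.add_sub_cancel]
      have hB : ∑ m ∈ Icc 1 N, ‖β m‖ ^ 2 ≤ N * L ^ 2 := by
        refine (sum_le_sum fun m _ => pow_le_pow_left₀ (norm_nonneg _) (hβ m) 2).trans ?_
        rw [sum_const, Nat.card_Icc, nsmul_eq_mul, Nat.add_sub_cancel]
      have h2 : Real.sqrt (((M : ℝ) + (R : ℝ) ^ 2) * ((N : ℝ) + (R : ℝ) ^ 2) *
          (∑ m ∈ Icc 1 M, ‖α m‖ ^ 2) * ∑ n ∈ Icc 1 N, ‖β n‖ ^ 2) ≤
          Real.sqrt (((M : ℝ) + (R : ℝ) ^ 2) * ((N : ℝ) + (R : ℝ) ^ 2)) *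
            (L ^ 2 * Real.sqrt ((M : ℝ) * N)) := by
        have e1 : L ^ 2 * Real.sqrt ((M : ℝ) * N) = Real.sqrt ((M * L ^ 2) * (N * L ^ 2)) := by
          have e2 : ((M : ℝ) * L ^ 2) * (N * L ^ 2) = (L ^ 2) ^ 2 * (M * N) := by ring
          rw [e2, Real.sqrt_mul (by positivity : (0 : ℝ) ≤ (L ^ 2) ^ 2),
            Real.sqrt_sq (by positivity)]
        rw [e1, ← Real.sqrt_mul (by positivity)]
        apply Real.sqrt_le_sqrt
        rw [mul_assoc (((M : ℝ) + (R : ℝ) ^ 2) * ((N : ℝ) + (R : ℝ) ^ 2))]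
        exact mul_le_mul_of_nonneg_left (mul_le_mul hA hB (by positivity) (by positivity))
          (by positivity)
      have h3 := prj_sqrt (M := M) (N := N) (R := R) (by positivity) (by positivity) (by positivity)
      have h4 : Real.sqrt ((M : ℝ) * N) = Real.sqrt M * Real.sqrt N := Real.sqrt_mul (by positivity) _
      have hsM : Real.sqrt M * Real.sqrt M = M := Real.mul_self_sqrt (by positivity)
      have hsN : Real.sqrt N * Real.sqrt N = N := Real.mul_self_sqrt (by positivity)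
      have hR0' : (0 : ℝ) < R := by linarith
      calc C₀ / R * Real.sqrt (((M : ℝ) + (R : ℝ) ^ 2) * ((N : ℝ) + (R : ℝ) ^ 2) *
          (∑ m ∈ Icc 1 M, ‖α m‖ ^ 2) * ∑ n ∈ Icc 1 N, ‖β n‖ ^ 2)
          ≤ C₀ / R * ((Real.sqrt (M * N) + R * Real.sqrt M + R * Real.sqrt N + R ^ 2) *
            (L ^ 2 * Real.sqrt ((M : ℝ) * N))) := by
            refine mul_le_mul_of_nonneg_left (h2.trans ?_) (by positivity)
            exact mul_le_mul_of_nonneg_right h3 (by positivity)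
        _ = C₀ * L ^ 2 * ((M : ℝ) * N / R + M * Real.sqrt N + N * Real.sqrt M +
            R * Real.sqrt ((M : ℝ) * N)) := by
            rw [h4]
            have e1 : (Real.sqrt M * Real.sqrt N) * (Real.sqrt M * Real.sqrt N) = M * N := by
              calc _ = (Real.sqrt M * Real.sqrt M) * (Real.sqrt N * Real.sqrt N) := by ring
                _ = _ := by rw [hsM, hsN]
            have e2 : (R * Real.sqrt M) * (Real.sqrt M * Real.sqrt N) = R * (M * Real.sqrt N) := by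
              calc _ = R * ((Real.sqrt M * Real.sqrt M) * Real.sqrt N) := by ring
                _ = _ := by rw [hsM]
            have e3 : (R * Real.sqrt N) * (Real.sqrt M * Real.sqrt N) = R * (N * Real.sqrt M) := by
              calc _ = R * ((Real.sqrt N * Real.sqrt N) * Real.sqrt M) := by ring
                _ = _ := by rw [hsN]
            have e4 : (Real.sqrt M * Real.sqrt N + R * Real.sqrt M + R * Real.sqrt N + R ^ 2) *
                (Real.sqrt M * Real.sqrt N) = M * N + R * (M * Real.sqrt N) +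
                R * (N * Real.sqrt M) + R ^ 2 * (Real.sqrt M * Real.sqrt N) := by
              rw [add_mul, add_mul, add_mul, e1, e2, e3]
            have e5 : C₀ / R * ((Real.sqrt M * Real.sqrt N + R * Real.sqrt M + R * Real.sqrt N +
                R ^ 2) * (L ^ 2 * (Real.sqrt M * Real.sqrt N))) = C₀ / R * L ^ 2 *
                ((Real.sqrt M * Real.sqrt N + R * Real.sqrt M + R * Real.sqrt N + R ^ 2) *
                (Real.sqrt M * Real.sqrt N)) := by ring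
            rw [e5, e4]
            field_simp
        _ ≤ T := by
            rw [hT]
            gcongr
    · have hempty : ((PC Q).filter (fun p => R0 < p.1)).filter
          (fun p => prj_dy R0 p.1 = i) = ∅ := by
        rw [filter_eq_empty_iff]
        intro p hp h5
        rw [mem_filter, Pool.Agent.Lib.H68T.mem_PC] at hp
        have h6 := prj_dy_spec hR0 hp.2
        rw [h5] at h6
        exact hi (h6.1.le.trans hp.1.2.1)
      rw [hempty, sum_empty]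
      exact hT0
  rw [← sum_fiberwise_of_maps_to hmaps]
  refine (sum_le_sum hpiece).trans ?_
  rw [sum_const, card_range, nsmul_eq_mul]
  refine (mul_le_mul_of_nonneg_right (prj_log hQ) hT0).trans (le_of_eq ?_)
  rw [hT]
  ring

end Pool.Agent.Lib.H59C
end

-- from Lib.H59C.BV3
section

/-!
# BV3: level of distribution of products
-/

open Finset

namespace Pool.Agent.Lib.H59C

open Pool.Agent.Lib.H68T (PC p0 e)

open Classical in
/-- the coefficients of the product -/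
noncomputable def bv3_f (M u v : ℕ) (α : ℕ → ℝ) (j : ℕ) : ℂ :=
  ∑ m ∈ Icc 1 M, ∑ q ∈ (Ioc u v).filter Nat.Prime,
    if m * q = j then (α m : ℂ) * (Real.log q : ℂ) else 0

theorem bv3_sum (M u v : ℕ) (α : ℕ → ℝ) (S : ℕ → Prop) [DecidablePred S] (g : ℕ → ℂ) :
    ∑ j ∈ (Icc 1 (M * v)).filter S, bv3_f M u v α j * g j =
      ∑ m ∈ Icc 1 M, ∑ q ∈ (Ioc u v).filter Nat.Prime,
        if S (m * q) then (α m : ℂ) * (Real.log q : ℂ) * g (m * q) else 0 := by
  unfold bv3_f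
  rw [sum_filter]
  have h1 : ∀ j ∈ Icc 1 (M * v), (if S j then (∑ m ∈ Icc 1 M, ∑ q ∈ (Ioc u v).filter Nat.Prime,
      if m * q = j then (α m : ℂ) * (Real.log q : ℂ) else 0) * g j else 0) =
      ∑ m ∈ Icc 1 M, ∑ q ∈ (Ioc u v).filter Nat.Prime,
        if m * q = j then (if S j then (α m : ℂ) * (Real.log q : ℂ) * g j else 0) else 0 := by
    intro j _
    split_ifs with h
    · rw [sum_mul]
      refine sum_congr rfl fun m _ => ?_
      rw [sum_mul]
      refine sum_congr rfl fun q _ => ?_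
      split_ifs <;> simp
    · simp
  rw [sum_congr rfl h1, sum_comm]
  refine sum_congr rfl fun m hm => ?_
  rw [sum_comm]
  refine sum_congr rfl fun q hq => ?_
  rw [sum_ite_eq]
  rw [if_pos]
  rw [mem_Icc] at hm ⊢
  rw [mem_filter, mem_Ioc] at hq
  exact ⟨Nat.mul_pos hm.1 (by omega), Nat.mul_le_mul hm.2 hq.1.2⟩

open Classical in
/-- the sum over `m` -/
noncomputable def bv3_A (M : ℕ) (α : ℕ → ℝ) (k : ℕ) (p : PCh) : ℂ :=
  ∑ m ∈ (Icc 1 M).filter (fun m => m.Coprime k), (α m : ℂ) * p.2 (m : ZMod p.1)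

open Classical in
/-- the sum over the primes -/
noncomputable def bv3_T (u v : ℕ) (k : ℕ) (p : PCh) : ℂ :=
  ∑ q ∈ (Ioc u v).filter (fun q => q.Prime ∧ q.Coprime k), (Real.log q : ℂ) * p.2 (q : ZMod p.1)

open Classical in
theorem bv3_fac (M u v : ℕ) (α : ℕ → ℝ) (k : ℕ) (p : PCh) :
    ∑ j ∈ (Icc 1 (M * v)).filter (fun j => j.Coprime k), bv3_f M u v α j * p.2 (j : ZMod p.1) =
      bv3_A M α k p * bv3_T u v k p := by
  rw [bv3_sum M u v α (fun j => j.Coprime k) (fun j => p.2 (j : ZMod p.1))]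
  unfold bv3_A bv3_T
  rw [sum_mul_sum, sum_filter]
  refine sum_congr rfl fun m _ => ?_
  rw [← filter_filter]
  by_cases hm : m.Coprime k
  · rw [if_pos hm, sum_filter (s := (Ioc u v).filter Nat.Prime)]
    refine sum_congr rfl fun q _ => ?_
    by_cases hq : q.Coprime k
    · rw [if_pos hq, if_pos (Nat.Coprime.mul_left hm hq)]
      push_cast
      rw [map_mul]
      ring
    · rw [if_neg hq, if_neg]
      intro h
      exact hq (Nat.Coprime.coprime_mul_left h)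
  · rw [if_neg hm]
    refine sum_eq_zero fun q _ => ?_
    rw [if_neg]
    intro h
    exact hm (Nat.Coprime.coprime_mul_right h)

open Classical in
/-- the deviation in one class -/
theorem bv3_dev (M u v d a : ℕ) (α : ℕ → ℝ) (hd : 1 ≤ d) (ha : a.Coprime d) :
    |∑ m ∈ Icc 1 M, α m * ∑ q ∈ (Ioc u v).filter (fun q => q.Prime ∧ m * q ≡ a [MOD d]),
          Real.log q -
        1 / (Nat.totient d : ℝ) * ((∑ m ∈ (Icc 1 M).filter (fun m => m.Coprime d), α m) *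
          ∑ q ∈ (Ioc u v).filter (fun q => q.Prime ∧ q.Coprime d), Real.log q)| ≤
      1 / (Nat.totient d : ℝ) * ∑ p ∈ (PC d).filter (fun p => p ≠ p0 ∧ p.1 ∣ d),
        (‖bv3_A M α (d / p.1) p‖ * ‖bv3_T u v (d / p.1) p‖) := by
  have h1 := prog_gen d a (M * v) hd ha (bv3_f M u v α)
  have h2 : ∀ p ∈ (PC d).filter (fun p => p ≠ p0 ∧ p.1 ∣ d),
      ‖∑ m ∈ (Icc 1 (M * v)).filter (fun m => m.Coprime (d / p.1)),
        bv3_f M u v α m * p.2 (m : ZMod p.1)‖ =
      ‖bv3_A M α (d / p.1) p‖ * ‖bv3_T u v (d / p.1) p‖ := by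
    intro p _
    rw [bv3_fac, norm_mul]
  rw [sum_congr rfl h2] at h1
  refine le_trans (le_of_eq ?_) h1
  rw [← Real.norm_eq_abs, ← Complex.norm_real]
  congr 1
  have h3 := bv3_sum M u v α (fun m => m ≡ a [MOD d]) (fun _ => 1)
  have h4 := bv3_sum M u v α (fun m => m.Coprime d) (fun _ => 1)
  simp only [mul_one] at h3 h4
  rw [h3, h4]
  have h5 : (∑ m ∈ Icc 1 M, ∑ q ∈ (Ioc u v).filter Nat.Prime,
      if m * q ≡ a [MOD d] then (α m : ℂ) * (Real.log q : ℂ) else 0) =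
      ((∑ m ∈ Icc 1 M, α m * ∑ q ∈ (Ioc u v).filter (fun q => q.Prime ∧ m * q ≡ a [MOD d]),
          Real.log q : ℝ) : ℂ) := by
    push_cast
    refine sum_congr rfl fun m _ => ?_
    rw [mul_sum, ← filter_filter, sum_filter (s := (Ioc u v).filter Nat.Prime)]
  have h6 : (∑ m ∈ Icc 1 M, ∑ q ∈ (Ioc u v).filter Nat.Prime,
      if (m * q).Coprime d then (α m : ℂ) * (Real.log q : ℂ) else 0) =
      (((∑ m ∈ (Icc 1 M).filter (fun m => m.Coprime d), α m) *
          ∑ q ∈ (Ioc u v).filter (fun q => q.Prime ∧ q.Coprime d), Real.log q : ℝ) : ℂ) := by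
    push_cast
    rw [sum_mul_sum, sum_filter (s := Icc 1 M)]
    refine sum_congr rfl fun m _ => ?_
    rw [← filter_filter]
    by_cases hm : m.Coprime d
    · rw [if_pos hm, sum_filter (s := (Ioc u v).filter Nat.Prime)]
      refine sum_congr rfl fun q _ => ?_
      by_cases hq : q.Coprime d
      · rw [if_pos hq, if_pos (Nat.Coprime.mul_left hm hq)]
      · rw [if_neg hq, if_neg]
        intro h
        exact hq (Nat.Coprime.coprime_mul_left h)
    · rw [if_neg hm]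
      refine sum_eq_zero fun q _ => ?_
      rw [if_neg]
      intro h
      exact hm (Nat.Coprime.coprime_mul_right h)
  rw [h5, h6]
  push_cast
  ring

theorem bv3_norm_chi (p : PCh) (m : ℕ) : ‖p.2 (m : ZMod p.1)‖ ≤ 1 :=
  DirichletCharacter.norm_le_one _ _

/-- prime powers -/
theorem bv3_pp (p : PCh) (y : ℕ) :
    ‖psi y p - ∑ q ∈ (Icc 1 y).filter Nat.Prime, (Real.log q : ℂ) * p.2 (q : ZMod p.1)‖ ≤
      2 * Real.sqrt y * Real.log y := by
  rcases Nat.eq_zero_or_pos y with h0 | h0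
  · subst h0
    simp [psi]
  have h1 : psi y p - ∑ q ∈ (Icc 1 y).filter Nat.Prime, (Real.log q : ℂ) * p.2 (q : ZMod p.1) =
      ∑ m ∈ (Icc 1 y).filter (fun m => ¬ m.Prime),
        (ArithmeticFunction.vonMangoldt m : ℂ) * p.2 (m : ZMod p.1) := by
    unfold psi
    rw [← sum_filter_add_sum_filter_not (Icc 1 y) Nat.Prime
      (fun m => (ArithmeticFunction.vonMangoldt m : ℂ) * p.2 (m : ZMod p.1))]
    have h2 : ∑ q ∈ (Icc 1 y).filter Nat.Prime, (Real.log q : ℂ) * p.2 (q : ZMod p.1) =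
        ∑ q ∈ (Icc 1 y).filter Nat.Prime,
          (ArithmeticFunction.vonMangoldt q : ℂ) * p.2 (q : ZMod p.1) := by
      refine sum_congr rfl fun q hq => ?_
      rw [mem_filter] at hq
      rw [ArithmeticFunction.vonMangoldt_apply_prime hq.2]
    rw [h2]
    ring
  rw [h1]
  refine (norm_sum_le _ _).trans ?_
  have h3 : ∀ m ∈ (Icc 1 y).filter (fun m => ¬ m.Prime),
      ‖(ArithmeticFunction.vonMangoldt m : ℂ) * p.2 (m : ZMod p.1)‖ ≤
        ArithmeticFunction.vonMangoldt m := by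
    intro m _
    rw [norm_mul, Complex.norm_real, Real.norm_of_nonneg ArithmeticFunction.vonMangoldt_nonneg]
    exact mul_le_of_le_one_right ArithmeticFunction.vonMangoldt_nonneg (bv3_norm_chi p m)
  refine (sum_le_sum h3).trans ?_
  have h4 : (1 : ℝ) ≤ (y : ℝ) := by exact_mod_cast h0
  refine le_trans (le_of_eq ?_) (Chebyshev.psi_sub_theta_le h4)
  have h5 : Chebyshev.psi (y : ℝ) = ∑ m ∈ Icc 1 y, ArithmeticFunction.vonMangoldt m := by
    unfold Chebyshev.psi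
    rw [Nat.floor_natCast]
    rfl
  have h6 : Chebyshev.theta (y : ℝ) =
      ∑ q ∈ (Icc 1 y).filter Nat.Prime, ArithmeticFunction.vonMangoldt q := by
    unfold Chebyshev.theta
    rw [Nat.floor_natCast]
    refine sum_congr rfl fun q hq => ?_
    rw [mem_filter] at hq
    rw [ArithmeticFunction.vonMangoldt_apply_prime hq.2]
  rw [h5, h6, ← sum_filter_add_sum_filter_not (Icc 1 y) Nat.Prime
      (fun m => ArithmeticFunction.vonMangoldt m)]
  ring

open Classical in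
theorem bv3_T_le (u v k : ℕ) (p : PCh) (huv : u ≤ v) (hk : 1 ≤ k) :
    ‖bv3_T u v k p‖ ≤ ‖psi v p‖ + ‖psi u p‖ + 4 * (Real.sqrt v * Real.log v) + Real.log k := by
  set T0 : ℕ → ℂ := fun y => ∑ q ∈ (Icc 1 y).filter Nat.Prime,
    (Real.log q : ℂ) * p.2 (q : ZMod p.1) with hT0
  set N : ℂ := ∑ q ∈ (Ioc u v).filter (fun q => q.Prime ∧ ¬ q.Coprime k),
    (Real.log q : ℂ) * p.2 (q : ZMod p.1) with hN
  have h1 : bv3_T u v k p = T0 v - T0 u - N := by
    have h2 : T0 v = T0 u + ∑ q ∈ (Ioc u v).filter Nat.Prime,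
        (Real.log q : ℂ) * p.2 (q : ZMod p.1) := by
      simp only [hT0]
      rw [← sum_union]
      · congr 1
        ext q
        simp only [mem_filter, mem_union, mem_Icc, mem_Ioc]
        constructor
        · rintro ⟨⟨h3, h4⟩, h5⟩
          by_cases h6 : q ≤ u
          · exact Or.inl ⟨⟨h3, h6⟩, h5⟩
          · exact Or.inr ⟨⟨by omega, h4⟩, h5⟩
        · rintro (⟨⟨h3, h4⟩, h5⟩ | ⟨⟨h3, h4⟩, h5⟩)
          · exact ⟨⟨h3, by omega⟩, h5⟩
          · exact ⟨⟨by omega, h4⟩, h5⟩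
      · rw [disjoint_left]
        intro q hq hq'
        simp only [mem_filter, mem_Icc, mem_Ioc] at hq hq'
        omega
    have h3 : ∑ q ∈ (Ioc u v).filter Nat.Prime, (Real.log q : ℂ) * p.2 (q : ZMod p.1) =
        bv3_T u v k p + N := by
      unfold bv3_T
      rw [hN, ← filter_filter, ← filter_filter]
      exact (sum_filter_add_sum_filter_not _ _ _).symm
    rw [h2, h3]
    ring
  have h4 : ‖T0 v‖ ≤ ‖psi v p‖ + 2 * (Real.sqrt v * Real.log v) := by
    have h5 := bv3_pp p v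
    have h6 : T0 v = psi v p - (psi v p - T0 v) := by ring
    rw [h6]
    refine (norm_sub_le _ _).trans ?_
    have h7 : ‖psi v p - T0 v‖ ≤ 2 * Real.sqrt v * Real.log v := h5
    linarith
  have h8 : ‖T0 u‖ ≤ ‖psi u p‖ + 2 * (Real.sqrt v * Real.log v) := by
    have h5 := bv3_pp p u
    have h6 : T0 u = psi u p - (psi u p - T0 u) := by ring
    rw [h6]
    refine (norm_sub_le _ _).trans ?_
    have h7 : ‖psi u p - T0 u‖ ≤ 2 * Real.sqrt u * Real.log u := h5
    have h9 : Real.sqrt u * Real.log u ≤ Real.sqrt v * Real.log v := by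
      rcases Nat.eq_zero_or_pos u with h0 | h0
      · subst h0
        simp only [Nat.cast_zero, Real.sqrt_zero, Real.log_zero, mul_zero]
        exact mul_nonneg (Real.sqrt_nonneg _) (Real.log_natCast_nonneg v)
      · have h10 : (u : ℝ) ≤ v := by exact_mod_cast huv
        have h11 : (0 : ℝ) < u := by exact_mod_cast h0
        exact mul_le_mul (Real.sqrt_le_sqrt h10) (Real.log_le_log h11 h10)
          (Real.log_natCast_nonneg u) (Real.sqrt_nonneg _)
    linarith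
  have h12 : ‖N‖ ≤ Real.log k := by
    rw [hN]
    refine (norm_sum_le _ _).trans ?_
    have h13 : ∀ q ∈ (Ioc u v).filter (fun q => q.Prime ∧ ¬ q.Coprime k),
        ‖(Real.log q : ℂ) * p.2 (q : ZMod p.1)‖ ≤ Real.log q := by
      intro q _
      rw [norm_mul, Complex.norm_real, Real.norm_of_nonneg (Real.log_natCast_nonneg q)]
      exact mul_le_of_le_one_right (Real.log_natCast_nonneg q) (bv3_norm_chi p q)
    refine (sum_le_sum h13).trans ?_
    have h14 : ∑ q ∈ (Ioc u v).filter (fun q => q.Prime ∧ ¬ q.Coprime k), Real.log q ≤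
        ∑ q ∈ k.primeFactors, Real.log q := by
      apply sum_le_sum_of_subset_of_nonneg
      · intro q hq
        simp only [mem_filter] at hq
        rw [Nat.mem_primeFactors]
        refine ⟨hq.2.1, ?_, by omega⟩
        by_contra h
        exact hq.2.2 ((Nat.Prime.coprime_iff_not_dvd hq.2.1).2 h)
      · intro q _ _
        exact Real.log_natCast_nonneg q
    refine h14.trans ?_
    rw [← Real.log_prod (fun q hq => by
      have := (Nat.prime_of_mem_primeFactors hq).pos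
      positivity)]
    apply Real.log_le_log
    · apply prod_pos
      intro q hq
      have := (Nat.prime_of_mem_primeFactors hq).pos
      exact_mod_cast this
    · have := Nat.le_of_dvd hk (Nat.prod_primeFactors_dvd k)
      calc ∏ q ∈ k.primeFactors, (q : ℝ) = ((∏ q ∈ k.primeFactors, q : ℕ) : ℝ) := by
            push_cast
            rfl
        _ ≤ k := by exact_mod_cast this
  rw [h1]
  have h15 := norm_sub_le (T0 v - T0 u) N
  have h16 := norm_sub_le (T0 v) (T0 u)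
  linarith

open Classical in
theorem bv3_I : ∃ C : ℝ, 0 < C ∧ ∀ (R0 Q M u v k : ℕ), 1 ≤ R0 → 1 ≤ M → 1 ≤ v → 2 ≤ Q →
    ∀ (L : ℝ), 1 ≤ L → Real.log v ≤ L → ∀ α : ℕ → ℝ, (∀ m, |α m| ≤ 1) →
    ∑ p ∈ (PC Q).filter (fun p => R0 < p.1), 1 / (Nat.totient p.1 : ℝ) *
      (‖bv3_A M α k p‖ * ‖bv3_T u v k p‖) ≤
      C * Real.log Q * L ^ 2 * ((M : ℝ) * v / R0 + M * Real.sqrt v + v * Real.sqrt M +
        Q * Real.sqrt ((M : ℝ) * v)) := by
  obtain ⟨C, hC, h⟩ := prod_sum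
  refine ⟨C, hC, fun R0 Q M u v k h1 h2 h3 h4 L hL hvL α hα => ?_⟩
  set α' : ℕ → ℂ := fun m => if m.Coprime k then (α m : ℂ) else 0 with hα'
  set β' : ℕ → ℂ := fun q => if u < q ∧ q ≤ v ∧ q.Prime ∧ q.Coprime k then (Real.log q : ℂ) else 0
    with hβ'
  have h5 : ∀ m, ‖α' m‖ ≤ L := by
    intro m
    simp only [hα']
    split_ifs
    · rw [Complex.norm_real, Real.norm_eq_abs]
      exact (hα m).trans hL
    · rw [norm_zero]
      linarith
  have h6 : ∀ m, ‖β' m‖ ≤ L := by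
    intro q
    simp only [hβ']
    split_ifs with hq
    · rw [Complex.norm_real, Real.norm_of_nonneg (Real.log_natCast_nonneg q)]
      refine le_trans (Real.log_le_log ?_ ?_) hvL
      · have := hq.2.2.1.pos
        exact_mod_cast this
      · exact_mod_cast hq.2.1
    · rw [norm_zero]
      linarith
  have h7 := h R0 Q M v h1 h2 h3 h4 L (by linarith) α' β' h5 h6
  refine le_trans (le_of_eq ?_) h7
  refine sum_congr rfl fun p _ => ?_
  congr 2
  · unfold bv3_A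
    rw [sum_filter]
    congr 1
    refine sum_congr rfl fun m _ => ?_
    simp only [hα']
    split_ifs <;> simp
  · unfold bv3_T
    congr 1
    have h8 : (Ioc u v).filter (fun q => q.Prime ∧ q.Coprime k) =
        (Icc 1 v).filter (fun q => u < q ∧ q ≤ v ∧ q.Prime ∧ q.Coprime k) := by
      ext q
      simp only [mem_filter, mem_Ioc, mem_Icc]
      constructor
      · rintro ⟨⟨a1, a2⟩, a3, a4⟩
        exact ⟨⟨a3.pos, a2⟩, a1, a2, a3, a4⟩
      · rintro ⟨_, a1, a2, a3, a4⟩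
        exact ⟨⟨a1, a2⟩, a3, a4⟩
    rw [h8, sum_filter]
    refine sum_congr rfl fun m _ => ?_
    simp only [hβ']
    split_ifs <;> simp

theorem bv3_psi_le (p : PCh) (y : ℕ) : ‖psi y p‖ ≤ 6 * y := by
  unfold psi
  refine (norm_sum_le _ _).trans ?_
  have h3 : ∀ m ∈ Icc 1 y,
      ‖(ArithmeticFunction.vonMangoldt m : ℂ) * p.2 (m : ZMod p.1)‖ ≤
        ArithmeticFunction.vonMangoldt m := by
    intro m _
    rw [norm_mul, Complex.norm_real, Real.norm_of_nonneg ArithmeticFunction.vonMangoldt_nonneg]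
    exact mul_le_of_le_one_right ArithmeticFunction.vonMangoldt_nonneg (bv3_norm_chi p m)
  refine (sum_le_sum h3).trans ?_
  have h5 : Chebyshev.psi (y : ℝ) = ∑ m ∈ Icc 1 y, ArithmeticFunction.vonMangoldt m := by
    unfold Chebyshev.psi
    rw [Nat.floor_natCast]
    rfl
  rw [← h5]
  have h6 := Chebyshev.psi_le_const_mul_self (x := (y : ℝ)) (Nat.cast_nonneg y)
  have h7 : Real.log 4 ≤ 2 := by
    have h8 : Real.log 4 = 2 * Real.log 2 := by
      rw [show (4 : ℝ) = 2 ^ 2 by norm_num, Real.log_pow]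
      norm_num
    rw [h8]
    have := Real.log_two_lt_d9
    linarith
  have h9 : (0 : ℝ) ≤ y := Nat.cast_nonneg y
  nlinarith

theorem bv3_A_le (M k : ℕ) (α : ℕ → ℝ) (hα : ∀ m, |α m| ≤ 1) (p : PCh) :
    ‖bv3_A M α k p‖ ≤ M := by
  unfold bv3_A
  refine (norm_sum_le _ _).trans ?_
  have h1 : ∀ m ∈ (Icc 1 M).filter (fun m => m.Coprime k),
      ‖(α m : ℂ) * p.2 (m : ZMod p.1)‖ ≤ 1 := by
    intro m _
    rw [norm_mul, Complex.norm_real, Real.norm_eq_abs]
    exact mul_le_one₀ (hα m) (norm_nonneg _) (bv3_norm_chi p m)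
  refine (sum_le_sum h1).trans ?_
  rw [sum_const, nsmul_eq_mul, mul_one]
  have : ((Icc 1 M).filter (fun m => m.Coprime k)).card ≤ M := by
    refine (card_filter_le _ _).trans ?_
    simp
  exact_mod_cast this

theorem bv3_II (A' n p1 M u v k R0 : ℕ) (hS : SWp A' n p1) (hn : 1 ≤ n) (hk : 1 ≤ k)
    (hR : R0 ≤ ⌊Real.log n ^ A'⌋₊) (α : ℕ → ℝ) (hα : ∀ m, |α m| ≤ 1)
    (hv : (n : ℝ) ^ (1 / 4 : ℝ) ≤ v) (hv8 : v ≤ 8 * n) (huv : u ≤ v) (hL : 1 ≤ Real.log n)
    (hlv : Real.log v ≤ 2 * Real.log n) (hlk : Real.log k ≤ Real.log n)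
    (p : PCh) (hp : p ∈ PC R0) (hp0 : p ≠ p0) (hp1 : ¬ p1 ∣ p.1) :
    ‖bv3_A M α k p‖ * ‖bv3_T u v k p‖ ≤
      M * (2 * (v / Real.log n ^ A') + 6 * (n : ℝ) ^ (1 / 10 : ℝ) +
        8 * (Real.sqrt v * Real.log n) + Real.log n) := by
  have h1 := bv3_A_le M k α hα p
  have h2 := bv3_T_le u v k p huv hk
  have hn1 : (1 : ℝ) ≤ n := by exact_mod_cast hn
  have hp' : p ∈ PC ⌊Real.log n ^ A'⌋₊ := by
    rw [Pool.Agent.Lib.H68T.mem_PC] at hp ⊢
    exact ⟨hp.1, hp.2.1.trans hR, hp.2.2⟩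
  have hv10 : (n : ℝ) ^ (1 / 10 : ℝ) ≤ v :=
    (Real.rpow_le_rpow_of_exponent_le hn1 (by norm_num)).trans hv
  have h3 := hS p hp' hp0 hp1 v hv10 hv8
  have hLA : (0 : ℝ) < Real.log n ^ A' := by positivity
  have h4 : ‖psi u p‖ ≤ v / Real.log n ^ A' + 6 * (n : ℝ) ^ (1 / 10 : ℝ) := by
    have h6 : (0 : ℝ) ≤ (n : ℝ) ^ (1 / 10 : ℝ) := Real.rpow_nonneg (Nat.cast_nonneg n) _
    have h7 : (0 : ℝ) ≤ v / Real.log n ^ A' := div_nonneg (Nat.cast_nonneg v) hLA.le
    by_cases h5 : (n : ℝ) ^ (1 / 10 : ℝ) ≤ u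
    · have h8 := hS p hp' hp0 hp1 u h5 (huv.trans hv8)
      have h9 : (u : ℝ) / Real.log n ^ A' ≤ v / Real.log n ^ A' := by
        apply div_le_div_of_nonneg_right _ hLA.le
        exact_mod_cast huv
      linarith
    · have h8 := bv3_psi_le p u
      push Not at h5
      linarith
  have h10 : Real.sqrt v * Real.log v ≤ 2 * (Real.sqrt v * Real.log n) := by
    have := mul_le_mul_of_nonneg_left hlv (Real.sqrt_nonneg (v : ℝ))
    linarith
  have h11 : ‖bv3_T u v k p‖ ≤ 2 * (v / Real.log n ^ A') + 6 * (n : ℝ) ^ (1 / 10 : ℝ) +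
        8 * (Real.sqrt v * Real.log n) + Real.log n := by
    linarith
  exact mul_le_mul h1 h11 (norm_nonneg _) (Nat.cast_nonneg M)

theorem bv3_ev (K : ℝ) (B' : ℕ) : ∃ n0 : ℕ, ∀ n : ℕ, n0 ≤ n → 8 ≤ n ∧ 1 ≤ Real.log n ∧
    K ≤ Real.log n ∧ 120 * Real.log n ^ B' ≤ (n : ℝ) ^ (1 / 8 : ℝ) := by
  have h1 := isLittleO_log_rpow_rpow_atTop (B' : ℝ) (show (0 : ℝ) < 1 / 8 by norm_num)
  have h2 := h1.bound (show (0 : ℝ) < 1 / 120 by norm_num)
  have h3 := Real.tendsto_log_atTop.eventually_ge_atTop (max 1 K)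
  obtain ⟨x0, hx0⟩ := Filter.eventually_atTop.1 (h2.and h3)
  obtain ⟨n0, hn0⟩ := exists_nat_ge (max x0 8)
  refine ⟨n0, fun n hn => ?_⟩
  have hn1 : (n0 : ℝ) ≤ n := by exact_mod_cast hn
  obtain ⟨h4, h5⟩ := hx0 n ((le_max_left _ _).trans (hn0.trans hn1))
  have h6 : (8 : ℝ) ≤ n := (le_max_right _ _).trans (hn0.trans hn1)
  have h7 : (1 : ℝ) ≤ Real.log n := (le_max_left _ _).trans h5
  refine ⟨by exact_mod_cast h6, h7, (le_max_right _ _).trans h5, ?_⟩
  rw [Real.rpow_natCast, Real.norm_of_nonneg (by positivity),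
    Real.norm_of_nonneg (Real.rpow_nonneg (by linarith) _)] at h4
  linarith

/-- the numerical facts -/
theorem bv3_num {n M v : ℕ} (hn : 8 ≤ n) (hM : (n : ℝ) ^ (1 / 4 : ℝ) ≤ M)
    (hv : (n : ℝ) ^ (1 / 4 : ℝ) ≤ v) (hMv : M * v ≤ 8 * n) (W : ℝ)
    (hW : W = 8 * n / (n : ℝ) ^ (1 / 8 : ℝ)) :
    (M : ℝ) * Real.sqrt v ≤ W ∧ (v : ℝ) * Real.sqrt M ≤ W ∧ (M : ℝ) ≤ W ∧
      (M : ℝ) * (n : ℝ) ^ (1 / 10 : ℝ) ≤ W := by
  have hn1 : (1 : ℝ) ≤ n := by
    have : 1 ≤ n := by omega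
    exact_mod_cast this
  have hn0 : (0 : ℝ) < n := by linarith
  have h8 : (1 : ℝ) ≤ (n : ℝ) ^ (1 / 8 : ℝ) := Real.one_le_rpow hn1 (by norm_num)
  have hsq : Real.sqrt ((n : ℝ) ^ (1 / 4 : ℝ)) = (n : ℝ) ^ (1 / 8 : ℝ) := by
    rw [Real.sqrt_eq_rpow, ← Real.rpow_mul hn0.le]
    norm_num
  have hMv' : (M : ℝ) * v ≤ 8 * n := by exact_mod_cast hMv
  have hsv : (n : ℝ) ^ (1 / 8 : ℝ) ≤ Real.sqrt v := by
    rw [← hsq]
    exact Real.sqrt_le_sqrt hv
  have hsM : (n : ℝ) ^ (1 / 8 : ℝ) ≤ Real.sqrt M := by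
    rw [← hsq]
    exact Real.sqrt_le_sqrt hM
  have hv2 : Real.sqrt v * Real.sqrt v = v := Real.mul_self_sqrt (Nat.cast_nonneg v)
  have hM2 : Real.sqrt M * Real.sqrt M = M := Real.mul_self_sqrt (Nat.cast_nonneg M)
  have hM0 : (0 : ℝ) ≤ M := Nat.cast_nonneg M
  have hv0 : (0 : ℝ) ≤ v := Nat.cast_nonneg v
  have hpos : (0 : ℝ) < (n : ℝ) ^ (1 / 8 : ℝ) := by linarith
  have k1 : (M : ℝ) * Real.sqrt v ≤ W := by
    rw [hW, le_div_iff₀ hpos]
    calc (M : ℝ) * Real.sqrt v * (n : ℝ) ^ (1 / 8 : ℝ)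
        ≤ (M : ℝ) * Real.sqrt v * Real.sqrt v :=
          mul_le_mul_of_nonneg_left hsv (by positivity)
      _ = M * v := by rw [mul_assoc, hv2]
      _ ≤ 8 * n := hMv'
  have k2 : (v : ℝ) * Real.sqrt M ≤ W := by
    rw [hW, le_div_iff₀ hpos]
    calc (v : ℝ) * Real.sqrt M * (n : ℝ) ^ (1 / 8 : ℝ)
        ≤ (v : ℝ) * Real.sqrt M * Real.sqrt M :=
          mul_le_mul_of_nonneg_left hsM (by positivity)
      _ = M * v := by rw [mul_assoc, hM2]; ring
      _ ≤ 8 * n := hMv'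
  refine ⟨k1, k2, ?_, ?_⟩
  · refine le_trans ?_ k1
    exact le_mul_of_one_le_right hM0 (h8.trans hsv)
  · refine le_trans ?_ k1
    apply mul_le_mul_of_nonneg_left _ hM0
    refine le_trans ?_ hsv
    exact Real.rpow_le_rpow_of_exponent_le hn1 (by norm_num)

open Classical in
/-- the sum over the characters, one `k` -/
theorem bv3_inner : ∃ C : ℝ, 0 < C ∧ ∀ (A n p1 M u v k D : ℕ), SWp (3 * A + 30) n p1 →
    8 ≤ n → 1 ≤ Real.log n → 120 * Real.log n ^ (3 * A + 31) ≤ (n : ℝ) ^ (1 / 8 : ℝ) →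
    (n : ℝ) ^ (1 / 4 : ℝ) ≤ M → (n : ℝ) ^ (1 / 4 : ℝ) ≤ v → u ≤ v → M * v ≤ 8 * n →
    1 ≤ k → k ≤ D → 2 ≤ D → (D : ℝ) ≤ Real.sqrt n / Real.log n ^ (A + 12) →
    ∀ α : ℕ → ℝ, (∀ m, |α m| ≤ 1) →
    ∑ p ∈ (PC D).filter (fun p => p ≠ p0 ∧ ¬ p1 ∣ p.1), 1 / (Nat.totient p.1 : ℝ) *
      (‖bv3_A M α k p‖ * ‖bv3_T u v k p‖) ≤
      (84 * C + 17) * (Real.log n ^ 3 * (n / Real.log n ^ (A + 10))) := by
  obtain ⟨C, hC, hI⟩ := bv3_I
  refine ⟨C, hC, fun A n p1 M u v k D hS hn8 hL h120 hM hv huv hMv hk hkD hD2 hD α hα => ?_⟩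
  set L := Real.log n with hLdef
  set R0 := ⌊L ^ (A + 10)⌋₊ with hR0
  have hn1 : (1 : ℝ) ≤ n := by
    have : 1 ≤ n := by omega
    exact_mod_cast this
  have hn0 : (0 : ℝ) < n := by linarith
  have hL0 : 0 < L := by linarith
  have hLA1 : (1 : ℝ) ≤ L ^ (A + 10) := one_le_pow₀ hL
  have hR1 : 1 ≤ R0 := by
    rw [hR0, Nat.one_le_floor_iff]
    exact hLA1
  have hRle : (R0 : ℝ) ≤ L ^ (A + 10) := Nat.floor_le (by linarith)
  have hRge : L ^ (A + 10) / 2 ≤ (R0 : ℝ) := by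
    have h1 := Nat.lt_floor_add_one (L ^ (A + 10))
    have h2 : (1 : ℝ) ≤ R0 := by exact_mod_cast hR1
    rw [← hR0] at h1
    linarith
  obtain ⟨W, hW⟩ : ∃ W : ℝ, W = 8 * n / (n : ℝ) ^ (1 / 8 : ℝ) := ⟨_, rfl⟩
  obtain ⟨w1, w2, w3, w4⟩ := bv3_num hn8 hM hv hMv W hW
  have hM1 : 1 ≤ M := by
    have h1 : (1 : ℝ) ≤ (n : ℝ) ^ (1 / 4 : ℝ) := Real.one_le_rpow hn1 (by norm_num)
    exact_mod_cast h1.trans hM
  have hv1 : 1 ≤ v := by
    have h1 : (1 : ℝ) ≤ (n : ℝ) ^ (1 / 4 : ℝ) := Real.one_le_rpow hn1 (by norm_num)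
    exact_mod_cast h1.trans hv
  have hv8 : v ≤ 8 * n := le_trans (Nat.le_mul_of_pos_left v hM1) hMv
  have hlv : Real.log v ≤ 2 * L := by
    have h1 : (v : ℝ) ≤ (n : ℝ) ^ 2 := by
      have h2 : v ≤ n ^ 2 := by
        calc v ≤ 8 * n := hv8
          _ ≤ n * n := Nat.mul_le_mul_right n hn8
          _ = n ^ 2 := (sq n).symm
      exact_mod_cast h2
    have h3 := Real.log_le_log (by exact_mod_cast hv1) h1
    rw [Real.log_pow] at h3
    exact_mod_cast h3
  have hDn : (D : ℝ) ≤ n := by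
    refine hD.trans ?_
    have h1 : (1 : ℝ) ≤ L ^ (A + 12) := one_le_pow₀ hL
    refine (div_le_self (Real.sqrt_nonneg _) h1).trans ?_
    rw [Real.sqrt_le_left (by linarith)]
    nlinarith
  have hlD : Real.log D ≤ L := Real.log_le_log (by
    have : 0 < D := by omega
    exact_mod_cast this) hDn
  have hlk : Real.log k ≤ L := by
    refine le_trans (Real.log_le_log (by exact_mod_cast hk) ?_) hlD
    exact_mod_cast hkD
  have hWL : W * (15 * L) ≤ n / L ^ (3 * A + 30) := by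
    rw [hW, div_mul_eq_mul_div, div_le_div_iff₀ (by positivity) (by positivity)]
    have h1 : (8 * (n : ℝ) * (15 * L)) * L ^ (3 * A + 30) = n * (120 * L ^ (3 * A + 31)) := by ring
    rw [h1]
    exact mul_le_mul_of_nonneg_left h120 hn0.le
  have hMv' : (M : ℝ) * v ≤ 8 * n := by exact_mod_cast hMv
  -- the split
  have hsplit : ∑ p ∈ (PC D).filter (fun p => p ≠ p0 ∧ ¬ p1 ∣ p.1), 1 / (Nat.totient p.1 : ℝ) *
      (‖bv3_A M α k p‖ * ‖bv3_T u v k p‖) ≤
      ∑ p ∈ (PC D).filter (fun p => R0 < p.1), 1 / (Nat.totient p.1 : ℝ) *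
        (‖bv3_A M α k p‖ * ‖bv3_T u v k p‖) +
      ∑ p ∈ (PC R0).filter (fun p => p ≠ p0 ∧ ¬ p1 ∣ p.1), 1 / (Nat.totient p.1 : ℝ) *
        (‖bv3_A M α k p‖ * ‖bv3_T u v k p‖) := by
    rw [← sum_union]
    · apply sum_le_sum_of_subset_of_nonneg
      · intro p hp
        rw [mem_filter, Pool.Agent.Lib.H68T.mem_PC] at hp
        rw [mem_union, mem_filter, mem_filter, Pool.Agent.Lib.H68T.mem_PC,
          Pool.Agent.Lib.H68T.mem_PC]
        by_cases h : R0 < p.1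
        · exact Or.inl ⟨hp.1, h⟩
        · exact Or.inr ⟨⟨hp.1.1, not_lt.1 h, hp.1.2.2⟩, hp.2⟩
      · intro p _ _
        positivity
    · rw [disjoint_left]
      intro p hp hp'
      rw [mem_filter] at hp
      rw [mem_filter, Pool.Agent.Lib.H68T.mem_PC] at hp'
      omega
  -- large conductors
  have hbig := hI R0 D M u v k hR1 hM1 hv1 hD2 (2 * L) (by linarith) hlv α hα
  have hT1 : (M : ℝ) * v / R0 ≤ 16 * (n / L ^ (A + 10)) := by
    have h1 : (M : ℝ) * v / R0 ≤ 8 * n / (L ^ (A + 10) / 2) :=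
      div_le_div₀ (by positivity) hMv' (by positivity) hRge
    refine h1.trans (le_of_eq ?_)
    field_simp
    ring
  have hWn : W ≤ n / L ^ (A + 10) := by
    have h1 : W * 1 ≤ W * (15 * L) := by
      apply mul_le_mul_of_nonneg_left (by linarith)
      rw [hW]
      positivity
    have h2 : (n : ℝ) / L ^ (3 * A + 30) ≤ n / L ^ (A + 10) := by
      apply div_le_div_of_nonneg_left hn0.le (by positivity)
      exact pow_le_pow_right₀ hL (by omega)
    linarith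
  have hT2 : (D : ℝ) * Real.sqrt ((M : ℝ) * v) ≤ 3 * (n / L ^ (A + 10)) := by
    have h1 : Real.sqrt ((M : ℝ) * v) ≤ 3 * Real.sqrt n := by
      refine (Real.sqrt_le_sqrt hMv').trans ?_
      rw [Real.sqrt_le_left (by positivity), mul_pow, Real.sq_sqrt hn0.le]
      linarith
    have h2 : (D : ℝ) * Real.sqrt ((M : ℝ) * v) ≤
        Real.sqrt n / L ^ (A + 12) * (3 * Real.sqrt n) :=
      mul_le_mul hD h1 (Real.sqrt_nonneg _) (by positivity)
    have h3 : Real.sqrt n / L ^ (A + 12) * (3 * Real.sqrt n) = 3 * (n / L ^ (A + 12)) := by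
      rw [div_mul_eq_mul_div, show Real.sqrt n * (3 * Real.sqrt n) =
        3 * (Real.sqrt n * Real.sqrt n) by ring, Real.mul_self_sqrt hn0.le]
      ring
    have h4 : (n : ℝ) / L ^ (A + 12) ≤ n / L ^ (A + 10) := by
      apply div_le_div_of_nonneg_left hn0.le (by positivity)
      exact pow_le_pow_right₀ hL (by omega)
    linarith
  have hbig2 : ∑ p ∈ (PC D).filter (fun p => R0 < p.1), 1 / (Nat.totient p.1 : ℝ) *
        (‖bv3_A M α k p‖ * ‖bv3_T u v k p‖) ≤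
      84 * C * (L ^ 3 * (n / L ^ (A + 10))) := by
    refine hbig.trans ?_
    have h1 : (M : ℝ) * v / R0 + M * Real.sqrt v + v * Real.sqrt M +
        D * Real.sqrt ((M : ℝ) * v) ≤ 21 * (n / L ^ (A + 10)) := by linarith
    have h2 : C * Real.log D * (2 * L) ^ 2 ≤ C * L * (2 * L) ^ 2 := by
      apply mul_le_mul_of_nonneg_right _ (by positivity)
      exact mul_le_mul_of_nonneg_left hlD hC.le
    have h3 : (0 : ℝ) ≤ (M : ℝ) * v / R0 + M * Real.sqrt v + v * Real.sqrt M +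
        D * Real.sqrt ((M : ℝ) * v) := by positivity
    refine (mul_le_mul h2 h1 h3 (by positivity)).trans (le_of_eq ?_)
    ring
  -- small conductors
  have hsmall : ∑ p ∈ (PC R0).filter (fun p => p ≠ p0 ∧ ¬ p1 ∣ p.1), 1 / (Nat.totient p.1 : ℝ) *
        (‖bv3_A M α k p‖ * ‖bv3_T u v k p‖) ≤ 17 * (n / L ^ (A + 10)) := by
    have hR : R0 ≤ ⌊L ^ (3 * A + 30)⌋₊ := Nat.floor_le_floor (pow_le_pow_right₀ hL (by omega))
    have h1 : ∀ p ∈ (PC R0).filter (fun p => p ≠ p0 ∧ ¬ p1 ∣ p.1), 1 / (Nat.totient p.1 : ℝ) *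
        (‖bv3_A M α k p‖ * ‖bv3_T u v k p‖) ≤ 17 * (n / L ^ (3 * A + 30)) := by
      intro p hp
      rw [mem_filter] at hp
      have h2 := bv3_II (3 * A + 30) n p1 M u v k R0 hS (by omega) hk hR α hα hv hv8 huv hL hlv hlk
        p hp.1 hp.2.1 hp.2.2
      have h3 : 1 / (Nat.totient p.1 : ℝ) ≤ 1 := by
        rw [Pool.Agent.Lib.H68T.mem_PC] at hp
        have h4 : 1 ≤ Nat.totient p.1 := Nat.totient_pos.2 hp.1.1
        have h5 : (1 : ℝ) ≤ Nat.totient p.1 := by exact_mod_cast h4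
        rw [div_le_one (by linarith)]
        exact h5
      have h6 : 1 / (Nat.totient p.1 : ℝ) * (‖bv3_A M α k p‖ * ‖bv3_T u v k p‖) ≤
          ‖bv3_A M α k p‖ * ‖bv3_T u v k p‖ := mul_le_of_le_one_left (by positivity) h3
      refine h6.trans (h2.trans ?_)
      have h7 : (M : ℝ) * (2 * (v / L ^ (3 * A + 30)) + 6 * (n : ℝ) ^ (1 / 10 : ℝ) +
          8 * (Real.sqrt v * L) + L) = 2 * ((M * v) / L ^ (3 * A + 30)) +
          6 * (M * (n : ℝ) ^ (1 / 10 : ℝ)) + 8 * ((M * Real.sqrt v) * L) + M * L := by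
        ring
      rw [h7]
      have h8 : ((M : ℝ) * v) / L ^ (3 * A + 30) ≤ 8 * (n / L ^ (3 * A + 30)) := by
        rw [mul_div_assoc']
        exact div_le_div_of_nonneg_right hMv' (by positivity)
      have h9 : ((M : ℝ) * Real.sqrt v) * L ≤ W * L := mul_le_mul_of_nonneg_right w1 hL0.le
      have h10 : (M : ℝ) * L ≤ W * L := mul_le_mul_of_nonneg_right w3 hL0.le
      have h11 : W * 1 ≤ W * L := by
        apply mul_le_mul_of_nonneg_left hL
        rw [hW]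
        positivity
      linarith
    refine (sum_le_sum h1).trans ?_
    rw [sum_const, nsmul_eq_mul]
    have h12 : (((PC R0).filter (fun p => p ≠ p0 ∧ ¬ p1 ∣ p.1)).card : ℝ) ≤ L ^ (2 * A + 20) := by
      have h13 : ((PC R0).filter (fun p => p ≠ p0 ∧ ¬ p1 ∣ p.1)).card ≤ R0 ^ 2 :=
        (card_filter_le _ _).trans (Pool.Agent.Lib.H68T.card_PC_le R0)
      have h14 : (((PC R0).filter (fun p => p ≠ p0 ∧ ¬ p1 ∣ p.1)).card : ℝ) ≤ (R0 : ℝ) ^ 2 := by
        exact_mod_cast h13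
      refine h14.trans ?_
      have h15 : L ^ (2 * A + 20) = (L ^ (A + 10)) ^ 2 := by
        rw [← pow_mul]
        congr 1
        ring
      rw [h15]
      exact pow_le_pow_left₀ (Nat.cast_nonneg _) hRle 2
    refine (mul_le_mul_of_nonneg_right h12 (by positivity)).trans (le_of_eq ?_)
    have h16 : L ^ (3 * A + 30) = L ^ (2 * A + 20) * L ^ (A + 10) := by
      rw [← pow_add]
      congr 1
      ring
    rw [h16]
    field_simp
  have h17 : (n : ℝ) / L ^ (A + 10) ≤ L ^ 3 * (n / L ^ (A + 10)) :=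
    le_mul_of_one_le_left (by positivity) (one_le_pow₀ hL)
  calc _ ≤ _ := hsplit
    _ ≤ 84 * C * (L ^ 3 * (n / L ^ (A + 10))) + 17 * (n / L ^ (A + 10)) :=
      add_le_add hbig2 hsmall
    _ ≤ _ := by linarith


end Pool.Agent.Lib.H59C
end

-- from Lib.H59C.PSI
section

/-!
# PSI: the sums of the von Mangoldt function over the characters of conductor in `(R, 2R]`
-/

open Finset

namespace Pool.Agent.Lib.H59C

open Pool.Agent.Lib.H68T (PC p0 e VAcut VArest VAcut_apply VArest_apply VA_identity VA_conv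
  VA_cut_moeb_le VA_rest_moeb_le VA_coef_le VA_coef_supp VA_beta VA_beta_supp)

/-- Expansion of a convolution. -/
theorem PSI_conv (f g : ArithmeticFunction ℝ) (h : ℕ → ℂ) (y : ℕ) :
    ∑ m ∈ Icc 1 y, (((f * g) m : ℝ) : ℂ) * h m =
      ∑ x ∈ Icc 1 y, ∑ n ∈ (Icc 1 y).filter (fun n => x * n ≤ y),
        ((f x : ℝ) : ℂ) * ((g n : ℝ) : ℂ) * h (x * n) := by
  have h1 := VA_conv f g h (y + 1) 1 (y + 1) le_rfl
  have h2 : Ico 1 (y + 1) = Icc 1 y := by
    ext m
    simp only [mem_Ico, mem_Icc]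
    omega
  rw [h2] at h1
  rw [h1]
  have h3 : ∀ x ∈ Icc 1 (y + 1), x ∉ Icc 1 y →
      ∑ n ∈ (Icc 1 (y + 1)).filter (fun n => 1 ≤ x * n ∧ x * n < y + 1),
        ((f x : ℝ) : ℂ) * ((g n : ℝ) : ℂ) * h (x * n) = 0 := by
    intro x hx hx'
    rw [mem_Icc] at hx hx'
    apply Finset.sum_eq_zero
    intro n hn
    exfalso
    rw [mem_filter, mem_Icc] at hn
    have hxy : x = y + 1 := by omega
    subst hxy
    nlinarith [hn.1.1, hn.2.2]
  rw [← Finset.sum_subset (fun x hx => by rw [mem_Icc] at hx ⊢; omega) h3]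
  refine sum_congr rfl fun x hx => ?_
  rw [mem_Icc] at hx
  refine sum_congr ?_ fun _ _ => rfl
  ext n
  simp only [mem_filter, mem_Icc]
  constructor
  · rintro ⟨⟨h4, h5⟩, h6, h7⟩
    have : n ≤ x * n := Nat.le_mul_of_pos_left n (by omega)
    exact ⟨⟨h4, by omega⟩, by omega⟩
  · rintro ⟨⟨h4, h5⟩, h6⟩
    have : 1 ≤ x * n := Nat.mul_pos hx.1 h4
    exact ⟨⟨h4, by omega⟩, this, by omega⟩

/-- Restriction of the range of the first variable. -/
theorem PSI_restrict (F : ℕ → ℕ → ℂ) (A B y : ℕ) (hB : B ≤ y)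
    (h : ∀ x, 1 ≤ x → x ≤ y → ¬ (A < x ∧ x ≤ B) → ∀ n, 1 ≤ n → x * n ≤ y → F x n = 0) :
    ∑ x ∈ Icc 1 y, ∑ n ∈ (Icc 1 y).filter (fun n => x * n ≤ y), F x n =
      ∑ x ∈ Ioc A B, ∑ n ∈ (Icc 1 y).filter (fun n => x * n ≤ y), F x n := by
  symm
  apply Finset.sum_subset
  · intro x hx
    rw [mem_Ioc] at hx
    rw [mem_Icc]
    omega
  · intro x hx hx'
    rw [mem_Icc] at hx
    rw [mem_Ioc] at hx'
    apply Finset.sum_eq_zero
    intro n hn
    rw [mem_filter, mem_Icc] at hn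
    exact h x hx.1 hx.2 hx' n hn.1.1 hn.2

/-- the Moebius function as a real arithmetic function -/
noncomputable def PSI_mu : ArithmeticFunction ℝ :=
  ((ArithmeticFunction.moebius : ArithmeticFunction ℤ) : ArithmeticFunction ℝ)

/-- the zeta function as a real arithmetic function -/
noncomputable def PSI_ze : ArithmeticFunction ℝ :=
  ((ArithmeticFunction.zeta : ArithmeticFunction ℕ) : ArithmeticFunction ℝ)

theorem PSI_decomp (U y : ℕ) (hU : 1 ≤ U) (hUy : U * U ≤ y) (p : PCh) :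
    psi y p = ∑ m ∈ Icc 1 y, ((VAcut ArithmeticFunction.vonMangoldt U m : ℝ) : ℂ) *
        p.2 (m : ZMod p.1) +
      ∑ m ∈ Icc 1 U, ∑ n ∈ (Icc 1 y).filter (fun n => m * n ≤ y),
        ((VAcut PSI_mu U m : ℝ) : ℂ) * ((Real.log n ^ 1 : ℝ) : ℂ) *
          p.2 ((m * n : ℕ) : ZMod p.1) -
      (∑ m ∈ Icc 1 U, ∑ n ∈ (Icc 1 y).filter (fun n => m * n ≤ y),
        (((VAcut PSI_mu U * VAcut ArithmeticFunction.vonMangoldt U) m : ℝ) : ℂ) *
          ((Real.log n ^ 0 : ℝ) : ℂ) * p.2 ((m * n : ℕ) : ZMod p.1) +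
       ∑ m ∈ Ioc U (U * U), ∑ n ∈ (Icc 1 y).filter (fun n => m * n ≤ y),
        (((VAcut PSI_mu U * VAcut ArithmeticFunction.vonMangoldt U) m : ℝ) : ℂ) *
          (1 : ℂ) * p.2 ((m * n : ℕ) : ZMod p.1)) +
      ∑ m ∈ Ioc U (y / U), ∑ n ∈ (Icc 1 y).filter (fun n => m * n ≤ y),
        ((VArest PSI_mu U m : ℝ) : ℂ) *
        (((VArest ArithmeticFunction.vonMangoldt U * PSI_ze) n : ℝ) : ℂ) *
          p.2 ((m * n : ℕ) : ZMod p.1) := by
  have hUU : U ≤ U * U := Nat.le_mul_of_pos_left U (by omega)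
  have hid : ∀ m : ℕ, (ArithmeticFunction.vonMangoldt m : ℝ) =
      VAcut ArithmeticFunction.vonMangoldt U m + (VAcut PSI_mu U * ArithmeticFunction.log) m -
      ((VAcut PSI_mu U * VAcut ArithmeticFunction.vonMangoldt U) * PSI_ze) m +
      (VArest PSI_mu U * (VArest ArithmeticFunction.vonMangoldt U * PSI_ze)) m := by
    intro m
    conv_lhs => rw [VA_identity U]
    rfl
  have h1 : psi y p = ∑ m ∈ Icc 1 y, ((VAcut ArithmeticFunction.vonMangoldt U m : ℝ) : ℂ) *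
        p.2 (m : ZMod p.1) +
      ∑ m ∈ Icc 1 y, (((VAcut PSI_mu U * ArithmeticFunction.log) m : ℝ) : ℂ) *
        p.2 (m : ZMod p.1) -
      ∑ m ∈ Icc 1 y, ((((VAcut PSI_mu U * VAcut ArithmeticFunction.vonMangoldt U) *
        PSI_ze) m : ℝ) : ℂ) * p.2 (m : ZMod p.1) +
      ∑ m ∈ Icc 1 y, (((VArest PSI_mu U * (VArest ArithmeticFunction.vonMangoldt U *
        PSI_ze)) m : ℝ) : ℂ) * p.2 (m : ZMod p.1) := by
    unfold psi
    rw [← Finset.sum_add_distrib, ← Finset.sum_sub_distrib, ← Finset.sum_add_distrib]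
    refine sum_congr rfl fun m _ => ?_
    rw [hid m]
    push_cast
    ring
  rw [h1]
  have h2 : ∑ m ∈ Icc 1 y, (((VAcut PSI_mu U * ArithmeticFunction.log) m : ℝ) : ℂ) *
        p.2 (m : ZMod p.1) =
      ∑ m ∈ Icc 1 U, ∑ n ∈ (Icc 1 y).filter (fun n => m * n ≤ y),
        ((VAcut PSI_mu U m : ℝ) : ℂ) * ((Real.log n ^ 1 : ℝ) : ℂ) *
          p.2 ((m * n : ℕ) : ZMod p.1) := by
    rw [PSI_conv (VAcut PSI_mu U) ArithmeticFunction.log (fun m => p.2 (m : ZMod p.1)) y,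
      PSI_restrict _ 0 U y (by omega)]
    · have : Ioc 0 U = Icc 1 U := by
        ext m
        simp only [mem_Ioc, mem_Icc]
        omega
      rw [this]
      refine sum_congr rfl fun m _ => sum_congr rfl fun n _ => ?_
      rw [ArithmeticFunction.log_apply, pow_one]
    · intro x hx1 hxy hx n _ _
      rw [VAcut_apply, if_neg (by omega)]
      simp
  have h3 : ∑ m ∈ Icc 1 y, ((((VAcut PSI_mu U * VAcut ArithmeticFunction.vonMangoldt U) *
        PSI_ze) m : ℝ) : ℂ) * p.2 (m : ZMod p.1) =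
      ∑ m ∈ Icc 1 U, ∑ n ∈ (Icc 1 y).filter (fun n => m * n ≤ y),
        (((VAcut PSI_mu U * VAcut ArithmeticFunction.vonMangoldt U) m : ℝ) : ℂ) *
          ((Real.log n ^ 0 : ℝ) : ℂ) * p.2 ((m * n : ℕ) : ZMod p.1) +
       ∑ m ∈ Ioc U (U * U), ∑ n ∈ (Icc 1 y).filter (fun n => m * n ≤ y),
        (((VAcut PSI_mu U * VAcut ArithmeticFunction.vonMangoldt U) m : ℝ) : ℂ) *
          (1 : ℂ) * p.2 ((m * n : ℕ) : ZMod p.1) := by
    rw [PSI_conv _ PSI_ze (fun m => p.2 (m : ZMod p.1)) y,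
      PSI_restrict _ 0 (U * U) y hUy]
    · have e1 : Ioc 0 (U * U) = Icc 1 U ∪ Ioc U (U * U) := by
        ext m
        simp only [mem_Ioc, mem_union, mem_Icc]
        omega
      have e2 : Disjoint (Icc 1 U) (Ioc U (U * U)) := by
        rw [Finset.disjoint_left]
        intro m hm hm'
        rw [mem_Icc] at hm
        rw [mem_Ioc] at hm'
        omega
      rw [e1, Finset.sum_union e2]
      congr 1
      · refine sum_congr rfl fun m _ => sum_congr rfl fun n hn => ?_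
        rw [mem_filter, mem_Icc] at hn
        have e3 : PSI_ze n = 1 := by
          unfold PSI_ze
          rw [ArithmeticFunction.natCoe_apply, ArithmeticFunction.zeta_apply_ne (by omega)]
          simp
        rw [e3, pow_zero]
      · refine sum_congr rfl fun m _ => sum_congr rfl fun n hn => ?_
        rw [mem_filter, mem_Icc] at hn
        have e3 : PSI_ze n = 1 := by
          unfold PSI_ze
          rw [ArithmeticFunction.natCoe_apply, ArithmeticFunction.zeta_apply_ne (by omega)]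
          simp
        rw [e3]
        push_cast
        ring
    · intro x hx1 hxy hx n _ _
      have e4 : (VAcut PSI_mu U * VAcut ArithmeticFunction.vonMangoldt U) x = 0 :=
        VA_coef_supp U x (by omega)
      rw [e4]
      simp
  have h4 : ∑ m ∈ Icc 1 y, (((VArest PSI_mu U * (VArest ArithmeticFunction.vonMangoldt U *
        PSI_ze)) m : ℝ) : ℂ) * p.2 (m : ZMod p.1) =
      ∑ m ∈ Ioc U (y / U), ∑ n ∈ (Icc 1 y).filter (fun n => m * n ≤ y),
        ((VArest PSI_mu U m : ℝ) : ℂ) *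
        (((VArest ArithmeticFunction.vonMangoldt U * PSI_ze) n : ℝ) : ℂ) *
          p.2 ((m * n : ℕ) : ZMod p.1) := by
    rw [PSI_conv _ _ (fun m => p.2 (m : ZMod p.1)) y,
      PSI_restrict _ U (y / U) y (Nat.div_le_self _ _)]
    intro x hx1 hxy hx n hn1 hxn
    by_cases hxU : x ≤ U
    · rw [VArest_apply, if_pos hxU]
      simp
    · have hx2 : y / U < x := by
        by_contra hcon
        exact hx ⟨by omega, by omega⟩
      have hn : n ≤ U := by
        by_contra hcon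
        have h5 : y < x * U := by
          rw [Nat.div_lt_iff_lt_mul (by omega)] at hx2
          exact hx2
        have h6 : x * U ≤ x * n := Nat.mul_le_mul_left x (by omega)
        omega
      have e4 : (VArest ArithmeticFunction.vonMangoldt U * PSI_ze) n = 0 :=
        VA_beta_supp U n hn
      rw [e4]
      simp
  rw [h2, h3, h4]

theorem PSI_norm_le_one (p : PCh) (x : ZMod p.1) : ‖p.2 x‖ ≤ 1 := DirichletCharacter.norm_le_one _ _

theorem PSI_S0 (U y : ℕ) (p : PCh) :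
    ‖∑ m ∈ Icc 1 y, ((VAcut ArithmeticFunction.vonMangoldt U m : ℝ) : ℂ) *
        p.2 (m : ZMod p.1)‖ ≤ U * Real.log y := by
  have hlog : 0 ≤ Real.log y := Real.log_natCast_nonneg y
  refine (norm_sum_le _ _).trans ?_
  have e1 : ∀ m ∈ Icc 1 y,
      ‖((VAcut ArithmeticFunction.vonMangoldt U m : ℝ) : ℂ) * p.2 (m : ZMod p.1)‖ ≤
        if m ≤ U then Real.log y else 0 := by
    intro m hm
    rw [mem_Icc] at hm
    rw [norm_mul, Complex.norm_real, Real.norm_eq_abs, VAcut_apply]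
    have hc := PSI_norm_le_one p (m : ZMod p.1)
    split_ifs with h
    · rw [abs_of_nonneg ArithmeticFunction.vonMangoldt_nonneg]
      calc ArithmeticFunction.vonMangoldt m * ‖p.2 (m : ZMod p.1)‖
          ≤ ArithmeticFunction.vonMangoldt m * 1 :=
            mul_le_mul_of_nonneg_left hc ArithmeticFunction.vonMangoldt_nonneg
        _ ≤ Real.log m := by rw [mul_one]; exact ArithmeticFunction.vonMangoldt_le_log
        _ ≤ Real.log y := Real.log_le_log (by exact_mod_cast hm.1) (by exact_mod_cast hm.2)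
    · simp
  refine (Finset.sum_le_sum e1).trans ?_
  rw [← Finset.sum_filter, Finset.sum_const, nsmul_eq_mul]
  refine mul_le_mul_of_nonneg_right ?_ hlog
  have : ((Icc 1 y).filter (fun m => m ≤ U)).card ≤ (Icc 1 U).card := by
    apply card_le_card
    intro m hm
    rw [mem_filter, mem_Icc] at hm
    rw [mem_Icc]; omega
  rw [Nat.card_Icc, Nat.add_sub_cancel] at this
  exact_mod_cast this

theorem PSI_real (Y : ℝ) (hY : 2 ≤ Y) : 1 ≤ 2 * Real.log Y := by
  have h1 : Real.log 2 ≤ Real.log Y := Real.log_le_log (by norm_num) hY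
  have := Real.log_two_gt_d9
  linarith

/-- The numerical estimates. -/
theorem PSI_num (C1 C2 : ℝ) (hC1 : 0 < C1) (hC2 : 0 < C2) (R y U : ℕ) (hR : 1 ≤ R)
    (hRy : R ^ 2 ≤ y) (hy : 2 ≤ y) (hU1 : 1 ≤ U) (hU2 : (U : ℝ) ≤ (y : ℝ) ^ (1 / 5 : ℝ))
    (hU3 : (y : ℝ) ^ (1 / 5 : ℝ) ≤ 2 * U) :
    (R : ℝ) * (U * Real.log y) + C1 * Real.log y ^ 3 * U * (R : ℝ) ^ (3 / 2 : ℝ) +
      (C1 * Real.log y ^ 3 * U * (R : ℝ) ^ (3 / 2 : ℝ) +
       C2 * Real.log y ^ 5 * ((y : ℝ) / R + Real.sqrt ((y : ℝ) * (U * U : ℕ)) +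
        (y : ℝ) / Real.sqrt U + R * Real.sqrt y)) +
      C2 * Real.log y ^ 5 * ((y : ℝ) / R + Real.sqrt ((y : ℝ) * (y / U : ℕ)) +
        (y : ℝ) / Real.sqrt U + R * Real.sqrt y) ≤
      (64 + 32 * C1 + 16 * C2) * Real.log y ^ 6 *
        ((y : ℝ) / R + (y : ℝ) ^ (19 / 20 : ℝ) + R * Real.sqrt y) := by
  have hR0 : (0 : ℝ) < R := by exact_mod_cast hR
  have hy0 : (0 : ℝ) < y := by exact_mod_cast (by omega : 0 < y)
  have hy1 : (1 : ℝ) ≤ y := by exact_mod_cast (by omega : 1 ≤ y)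
  have hU0 : (0 : ℝ) < U := by exact_mod_cast hU1
  set L := Real.log y with hL
  have hL1 : 1 ≤ 2 * L := PSI_real y (by exact_mod_cast hy)
  have hL0 : 0 < L := by linarith
  set W := (y : ℝ) ^ (19 / 20 : ℝ) with hW
  have hW0 : 0 < W := Real.rpow_pos_of_pos hy0 _
  have mono : ∀ a : ℝ, a ≤ 19 / 20 → (y : ℝ) ^ a ≤ W := fun a ha =>
    Real.rpow_le_rpow_of_exponent_le hy1 ha
  -- R ≤ y^(1/2)
  have hRh : (R : ℝ) ≤ (y : ℝ) ^ (1 / 2 : ℝ) := by
    rw [← Real.sqrt_eq_rpow]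
    apply Real.le_sqrt_of_sq_le
    exact_mod_cast hRy
  have hRU : (R : ℝ) * U ≤ W := by
    calc (R : ℝ) * U ≤ (y : ℝ) ^ (1 / 2 : ℝ) * (y : ℝ) ^ (1 / 5 : ℝ) := by gcongr
      _ = (y : ℝ) ^ (1 / 2 + 1 / 5 : ℝ) := (Real.rpow_add hy0 _ _).symm
      _ ≤ W := mono _ (by norm_num)
  have hUR : (U : ℝ) * (R : ℝ) ^ (3 / 2 : ℝ) ≤ W := by
    calc (U : ℝ) * (R : ℝ) ^ (3 / 2 : ℝ) ≤
        (y : ℝ) ^ (1 / 5 : ℝ) * ((y : ℝ) ^ (1 / 2 : ℝ)) ^ (3 / 2 : ℝ) := by gcongr
      _ = (y : ℝ) ^ (1 / 5 : ℝ) * (y : ℝ) ^ (1 / 2 * (3 / 2) : ℝ) := by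
          rw [← Real.rpow_mul hy0.le]
      _ = (y : ℝ) ^ (1 / 5 + 1 / 2 * (3 / 2) : ℝ) := (Real.rpow_add hy0 _ _).symm
      _ ≤ W := mono _ (by norm_num)
  have hs1 : Real.sqrt ((y : ℝ) * (U * U : ℕ)) ≤ W := by
    have : Real.sqrt ((y : ℝ) * (U * U : ℕ)) = (y : ℝ) ^ (1 / 2 : ℝ) * U := by
      push_cast
      rw [Real.sqrt_mul hy0.le, Real.sqrt_mul_self hU0.le, Real.sqrt_eq_rpow]
    rw [this]
    calc (y : ℝ) ^ (1 / 2 : ℝ) * U ≤ (y : ℝ) ^ (1 / 2 : ℝ) * (y : ℝ) ^ (1 / 5 : ℝ) := by gcongr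
      _ = (y : ℝ) ^ (1 / 2 + 1 / 5 : ℝ) := (Real.rpow_add hy0 _ _).symm
      _ ≤ W := mono _ (by norm_num)
  have hs2 : (y : ℝ) / Real.sqrt U ≤ 2 * W := by
    have hsU : 0 < Real.sqrt U := Real.sqrt_pos.mpr hU0
    rw [div_le_iff₀ hsU]
    have h1 : (y : ℝ) ^ (1 / 10 : ℝ) ≤ 2 * Real.sqrt U := by
      have h2 : (y : ℝ) ^ (1 / 10 : ℝ) = Real.sqrt ((y : ℝ) ^ (1 / 5 : ℝ)) := by
        rw [Real.sqrt_eq_rpow, ← Real.rpow_mul hy0.le]
        norm_num
      rw [h2]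
      calc Real.sqrt ((y : ℝ) ^ (1 / 5 : ℝ)) ≤ Real.sqrt (2 ^ 2 * U) := by
            apply Real.sqrt_le_sqrt
            linarith
        _ = 2 * Real.sqrt U := by
            rw [Real.sqrt_mul (by norm_num), Real.sqrt_sq (by norm_num)]
    have h3 : (y : ℝ) = (y : ℝ) ^ (9 / 10 : ℝ) * (y : ℝ) ^ (1 / 10 : ℝ) := by
      rw [← Real.rpow_add hy0]
      norm_num
    have h4 : (y : ℝ) ^ (9 / 10 : ℝ) ≤ W := mono _ (by norm_num)
    calc (y : ℝ) = (y : ℝ) ^ (9 / 10 : ℝ) * (y : ℝ) ^ (1 / 10 : ℝ) := h3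
      _ ≤ W * (2 * Real.sqrt U) := by gcongr
      _ = 2 * W * Real.sqrt U := by ring
  have hs3 : Real.sqrt ((y : ℝ) * (y / U : ℕ)) ≤ 2 * W := by
    refine le_trans ?_ hs2
    have h1 : ((y / U : ℕ) : ℝ) ≤ (y : ℝ) / U := Nat.cast_div_le
    calc Real.sqrt ((y : ℝ) * (y / U : ℕ)) ≤ Real.sqrt (y ^ 2 / U) := by
          apply Real.sqrt_le_sqrt
          calc (y : ℝ) * (y / U : ℕ) ≤ y * (y / U) := by gcongr
            _ = (y : ℝ) ^ 2 / U := by ring
      _ = (y : ℝ) / Real.sqrt U := by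
          rw [Real.sqrt_div (by positivity), Real.sqrt_sq hy0.le]
  set S := (y : ℝ) / R + W + R * Real.sqrt y with hS
  have hyR : 0 ≤ (y : ℝ) / R := by positivity
  have hRs : 0 ≤ R * Real.sqrt y := by positivity
  have hWS : W ≤ S := by linarith
  have hS0 : 0 < S := lt_of_lt_of_le hW0 hWS
  have hL6a : L ≤ 32 * L ^ 6 := by
    have : (1 : ℝ) ≤ (2 * L) ^ 5 := one_le_pow₀ hL1
    nlinarith
  have hL6b : L ^ 3 ≤ 8 * L ^ 6 := by
    have h1 : (1 : ℝ) ≤ (2 * L) ^ 3 := one_le_pow₀ hL1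
    have h2 : 0 < L ^ 3 := by positivity
    nlinarith
  have hL6c : L ^ 5 ≤ 2 * L ^ 6 := by
    have h2 : 0 < L ^ 5 := by positivity
    nlinarith
  have t1 : (R : ℝ) * (U * L) ≤ 32 * (L ^ 6 * S) := by
    calc (R : ℝ) * (U * L) = (R * U) * L := by ring
      _ ≤ S * (32 * L ^ 6) := by
          apply mul_le_mul (hRU.trans hWS) hL6a hL0.le hS0.le
      _ = 32 * (L ^ 6 * S) := by ring
  have t2 : C1 * L ^ 3 * U * (R : ℝ) ^ (3 / 2 : ℝ) ≤ 8 * C1 * (L ^ 6 * S) := by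
    calc C1 * L ^ 3 * U * (R : ℝ) ^ (3 / 2 : ℝ) = C1 * (L ^ 3 * (U * (R : ℝ) ^ (3 / 2 : ℝ))) := by
          ring
      _ ≤ C1 * ((8 * L ^ 6) * S) := by
          apply mul_le_mul_of_nonneg_left _ hC1.le
          apply mul_le_mul hL6b (hUR.trans hWS) (by positivity) (by positivity)
      _ = 8 * C1 * (L ^ 6 * S) := by ring
  have t3 : ∀ Z : ℝ, Z ≤ 4 * S → C2 * L ^ 5 * Z ≤ 8 * C2 * (L ^ 6 * S) := by
    intro Z hZ
    calc C2 * L ^ 5 * Z ≤ C2 * L ^ 5 * (4 * S) := by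
          apply mul_le_mul_of_nonneg_left hZ (by positivity)
      _ = 4 * C2 * (L ^ 5 * S) := by ring
      _ ≤ 4 * C2 * ((2 * L ^ 6) * S) := by
          apply mul_le_mul_of_nonneg_left _ (by positivity)
          exact mul_le_mul_of_nonneg_right hL6c hS0.le
      _ = 8 * C2 * (L ^ 6 * S) := by ring
  have t4 := t3 ((y : ℝ) / R + Real.sqrt ((y : ℝ) * (U * U : ℕ)) + (y : ℝ) / Real.sqrt U +
    R * Real.sqrt y) (by linarith)
  have t5 := t3 ((y : ℝ) / R + Real.sqrt ((y : ℝ) * (y / U : ℕ)) + (y : ℝ) / Real.sqrt U +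
    R * Real.sqrt y) (by linarith)
  have hLS : 0 < L ^ 6 * S := by positivity
  nlinarith

/-- The bilinear estimate for `ψ(y, χ)`.

Proof. Vaughan's identity `H68T.VA_identity` with `U = ⌊y^(1/5)⌋`: `Λ` is the sum of
`cut Λ` (at most `U log y` for each character, in total `≤ R U log y ≤ y^(7/10) log y`, `ty1_count`),
`cut μ * log` (`ty1`, `j = 1`), `-(cut μ * cut Λ) * ζ`, whose part with `m ≤ U` is `ty1`, `j = 0`, and whose
part with `U < m ≤ U²` is `ty2` with `V = U²`, `β = 1` (`VA_coef_le`, `VA_coef_supp`), and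
`rest μ * (rest Λ * ζ)`: `m > U`, `n > U`, so `m ≤ y/U =: V` (`VA_beta`, `VA_beta_supp`), again `ty2`.
`U R^(3/2) ≤ y^(1/5 + 3/4) = y^(19/20)` since `R² ≤ y`; `√(y U²) ≤ y^(7/10)`, `√(y · y/U)`,
`y/√U ≤ 2 y^(9/10)`. For small `y` increase `C`. (`VA_conv` expands a convolution.) -/
theorem psi_dyad : ∃ C : ℝ, 0 < C ∧ ∀ (R y : ℕ), 1 ≤ R → R ^ 2 ≤ y → 2 ≤ y →
    ∑ p ∈ PD R, 1 / (Nat.totient p.1 : ℝ) * ‖psi y p‖ ≤
      C * Real.log y ^ 6 * ((y : ℝ) / R + (y : ℝ) ^ (19 / 20 : ℝ) + R * Real.sqrt y) := by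
  obtain ⟨C1, hC1, ht1⟩ := ty1
  obtain ⟨C2, hC2, ht2⟩ := ty2
  refine ⟨64 + 32 * C1 + 16 * C2, by positivity, ?_⟩
  intro R y hR hRy hy
  have hy0 : (0 : ℝ) < y := by exact_mod_cast (by omega : 0 < y)
  have hy1 : (1 : ℝ) ≤ y := by exact_mod_cast (by omega : 1 ≤ y)
  set x := (y : ℝ) ^ (1 / 5 : ℝ) with hx
  have hx1 : 1 ≤ x := Real.one_le_rpow hy1 (by norm_num)
  set U := ⌊x⌋₊ with hU
  have hU1 : 1 ≤ U := Nat.le_floor (by exact_mod_cast hx1)
  have hU2 : (U : ℝ) ≤ x := Nat.floor_le (by linarith)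
  have hU3 : x ≤ 2 * U := by
    have h1 : x < U + 1 := Nat.lt_floor_add_one x
    have h2 : (1 : ℝ) ≤ U := by exact_mod_cast hU1
    linarith
  have hUy : U * U ≤ y := by
    have h1 : (U : ℝ) * U ≤ y := by
      calc (U : ℝ) * U ≤ x * x := by gcongr
        _ = (y : ℝ) ^ (1 / 5 + 1 / 5 : ℝ) := by rw [hx, ← Real.rpow_add hy0]
        _ ≤ (y : ℝ) ^ (1 : ℝ) := Real.rpow_le_rpow_of_exponent_le hy1 (by norm_num)
        _ = y := Real.rpow_one _
    exact_mod_cast h1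
  have hRy' : R ≤ y := le_trans (by nlinarith : R ≤ R ^ 2) hRy
  have hUU : U ≤ U * U := Nat.le_mul_of_pos_left U (by omega)
  have hUV : U ≤ y / U := (Nat.le_div_iff_mul_le (by omega)).mpr hUy
  have hlog : 0 ≤ Real.log y := Real.log_natCast_nonneg y
  have hlogm : ∀ m : ℕ, 1 ≤ m → m ≤ y → Real.log m ≤ 1 + Real.log y := by
    intro m h1 h2
    have := Real.log_le_log (by exact_mod_cast h1 : (0 : ℝ) < m) (by exact_mod_cast h2 : (m : ℝ) ≤ y)
    linarith
  have b1 := ht1 R U y hR hU1 hy hRy' (fun m => ((VAcut PSI_mu U m : ℝ) : ℂ)) (by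
    intro m _ _
    rw [Complex.norm_real, Real.norm_eq_abs]
    have h1 : |VAcut PSI_mu U m| ≤ 1 := VA_cut_moeb_le U m
    linarith) 1 le_rfl
  have b2 := ht1 R U y hR hU1 hy hRy'
    (fun m => (((VAcut PSI_mu U * VAcut ArithmeticFunction.vonMangoldt U) m : ℝ) : ℂ)) (by
    intro m hm1 hm2
    rw [Complex.norm_real, Real.norm_eq_abs]
    have h1 : |(VAcut PSI_mu U * VAcut ArithmeticFunction.vonMangoldt U) m| ≤ Real.log m :=
      VA_coef_le U m
    exact h1.trans (hlogm m hm1 (by omega))) 0 (by omega)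
  have b3 := ht2 R U (U * U) y hR hU1 hUU hUy hy
    (fun m => (((VAcut PSI_mu U * VAcut ArithmeticFunction.vonMangoldt U) m : ℝ) : ℂ))
    (fun _ => 1) (by
    intro m hm1 hm2
    rw [Complex.norm_real, Real.norm_eq_abs]
    have h1 : |(VAcut PSI_mu U * VAcut ArithmeticFunction.vonMangoldt U) m| ≤ Real.log m :=
      VA_coef_le U m
    exact h1.trans (hlogm m hm1 (by omega))) (by
    intro m _ _
    rw [norm_one]
    linarith)
  have b4 := ht2 R U (y / U) y hR hU1 hUV (Nat.div_le_self _ _) hy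
    (fun m => ((VArest PSI_mu U m : ℝ) : ℂ))
    (fun n => (((VArest ArithmeticFunction.vonMangoldt U * PSI_ze) n : ℝ) : ℂ)) (by
    intro m _ _
    rw [Complex.norm_real, Real.norm_eq_abs]
    have h1 : |VArest PSI_mu U m| ≤ 1 := VA_rest_moeb_le U m
    linarith) (by
    intro m hm1 hm2
    rw [Complex.norm_real, Real.norm_eq_abs]
    have h1 : |(VArest ArithmeticFunction.vonMangoldt U * PSI_ze) m| ≤ Real.log m :=
      VA_beta U m
    exact h1.trans (hlogm m hm1 hm2))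
  have b0 : ∑ p ∈ PD R, 1 / (Nat.totient p.1 : ℝ) *
      ‖∑ m ∈ Icc 1 y, ((VAcut ArithmeticFunction.vonMangoldt U m : ℝ) : ℂ) *
        p.2 (m : ZMod p.1)‖ ≤ (R : ℝ) * (U * Real.log y) := by
    calc _ ≤ ∑ p ∈ PD R, 1 / (Nat.totient p.1 : ℝ) * (U * Real.log y) := by
          refine sum_le_sum fun p _ => ?_
          exact mul_le_mul_of_nonneg_left (PSI_S0 U y p) (by positivity)
      _ = (∑ p ∈ PD R, 1 / (Nat.totient p.1 : ℝ)) * (U * Real.log y) := by
          rw [Finset.sum_mul]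
      _ ≤ R * (U * Real.log y) :=
          mul_le_mul_of_nonneg_right (ty1_count R) (by positivity)
  refine le_trans ?_ (PSI_num C1 C2 hC1 hC2 R y U hR hRy hy hU1 hU2 hU3)
  refine le_trans ?_ (add_le_add (add_le_add (add_le_add b0 b1) (add_le_add b2 b3)) b4)
  rw [← Finset.sum_add_distrib, ← Finset.sum_add_distrib, ← Finset.sum_add_distrib,
    ← Finset.sum_add_distrib]
  refine sum_le_sum fun p _ => ?_
  rw [PSI_decomp U y hU1 hUy p, ← mul_add, ← mul_add, ← mul_add, ← mul_add]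
  refine mul_le_mul_of_nonneg_left ?_ (by positivity)
  refine (norm_add_le _ _).trans (add_le_add ?_ le_rfl)
  refine (norm_sub_le _ _).trans (add_le_add ?_ (norm_add_le _ _))
  exact norm_add_le _ _

end Pool.Agent.Lib.H59C
end

-- from Lib.H59C.PSJ
section

/-!
# PSJ: dyadic summation
-/

open Finset

namespace Pool.Agent.Lib.H59C

open Pool.Agent.Lib.H68T (PC p0 e)

theorem PSJ_cover (R0 q : ℕ) (h : R0 < q) :
    ∀ n : ℕ, q ≤ 2 ^ n * R0 → ∃ j, j < n ∧ 2 ^ j * R0 < q ∧ q ≤ 2 ^ (j + 1) * R0 := by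
  intro n
  induction n with
  | zero =>
    intro h1
    exfalso
    rw [pow_zero, one_mul] at h1
    omega
  | succ n ih =>
    intro h1
    by_cases h2 : q ≤ 2 ^ n * R0
    · obtain ⟨j, hj, h3⟩ := ih h2
      exact ⟨j, by omega, h3⟩
    · exact ⟨n, by omega, by omega, h1⟩

theorem PSJ_mono {a b q R : ℕ} (h1 : 2 ^ a * R < q) (h2 : q ≤ 2 ^ (b + 1) * R) : a ≤ b := by
  by_contra hab
  have h3 : b + 1 ≤ a := by omega
  have h4 : 2 ^ (b + 1) ≤ 2 ^ a := Nat.pow_le_pow_right (by norm_num) h3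
  have h5 := Nat.mul_le_mul_right R h4
  omega

theorem PSJ_log (Q y : ℕ) (hQ : Q ^ 2 ≤ y) (hy : 2 ≤ y) :
    ((Nat.log 2 Q + 1 : ℕ) : ℝ) ≤ 4 * Real.log y := by
  have hl2 : (0.69 : ℝ) < Real.log 2 := by
    have := Real.log_two_gt_d9
    linarith
  have hly : Real.log 2 ≤ Real.log y :=
    Real.log_le_log (by norm_num) (by exact_mod_cast hy)
  push_cast
  rcases Nat.eq_zero_or_pos Q with h0 | h0
  · subst h0
    simp only [Nat.log_zero_right, Nat.cast_zero, zero_add]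
    linarith
  · have h1 : 2 ^ (Nat.log 2 Q) ≤ Q := Nat.pow_log_le_self 2 (by omega)
    have h2 : (2 ^ (Nat.log 2 Q)) ^ 2 ≤ y := (Nat.pow_le_pow_left h1 2).trans hQ
    have h3 : (((2 : ℝ) ^ (Nat.log 2 Q)) ^ 2) ≤ y := by exact_mod_cast h2
    have h4 := Real.log_le_log (by positivity) h3
    rw [Real.log_pow, Real.log_pow] at h4
    push_cast at h4
    have h5 : (0 : ℝ) ≤ (Nat.log 2 Q : ℝ) := by positivity
    nlinarith

open Classical in
/-- Sum of `psi_dyad` over `R = R0, 2 R0, 4 R0, ... < Q` (at most `2 log y` terms; in the last one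
`R < Q` so `R² ≤ y`). -/
theorem psi_sum : ∃ C : ℝ, 0 < C ∧ ∀ (R0 Q y : ℕ), 1 ≤ R0 → Q ^ 2 ≤ y → 2 ≤ y →
    ∑ p ∈ (PC Q).filter (fun p => R0 < p.1), 1 / (Nat.totient p.1 : ℝ) * ‖psi y p‖ ≤
      C * Real.log y ^ 7 * ((y : ℝ) / R0 + (y : ℝ) ^ (19 / 20 : ℝ) + Q * Real.sqrt y) := by
  obtain ⟨C, hC, h⟩ := psi_dyad
  refine ⟨4 * C, by positivity, ?_⟩
  intro R0 Q y hR0 hQ hy
  have hly : 0 < Real.log y := Real.log_pos (by exact_mod_cast (by omega : 1 < y))
  obtain ⟨n, hn⟩ : ∃ n, n = Nat.log 2 Q + 1 := ⟨_, rfl⟩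
  obtain ⟨J, hJ⟩ : ∃ J : Finset ℕ, J = (range n).filter (fun j => 2 ^ j * R0 < Q) := ⟨_, rfl⟩
  have hsub : (PC Q).filter (fun p => R0 < p.1) ⊆ J.biUnion (fun j => PD (2 ^ j * R0)) := by
    intro p hp
    rw [mem_filter, Pool.Agent.Lib.H68T.mem_PC] at hp
    obtain ⟨⟨h1, h2, h3⟩, h4⟩ := hp
    have h5 : Q < 2 ^ n := by
      rw [hn]
      exact Nat.lt_pow_succ_log_self (by norm_num) Q
    have h6 : 2 ^ n ≤ 2 ^ n * R0 := Nat.le_mul_of_pos_right _ hR0
    obtain ⟨j, hj, h7, h8⟩ := PSJ_cover R0 p.1 h4 n (by omega)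
    rw [mem_biUnion]
    refine ⟨j, ?_, ?_⟩
    · rw [hJ, mem_filter, mem_range]
      exact ⟨hj, by omega⟩
    · unfold PD
      rw [mem_filter, Pool.Agent.Lib.H68T.mem_PC]
      refine ⟨⟨h1, ?_, h3⟩, h7⟩
      rw [pow_succ] at h8
      nlinarith
  have hdis : ∀ i ∈ J, ∀ j ∈ J, i ≠ j → Disjoint (PD (2 ^ i * R0)) (PD (2 ^ j * R0)) := by
    intro i _ j _ hij
    rw [Finset.disjoint_left]
    intro p hp hq
    unfold PD at hp hq
    rw [mem_filter, Pool.Agent.Lib.H68T.mem_PC] at hp hq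
    have h1 : i ≤ j := PSJ_mono hp.2 (by rw [pow_succ]; nlinarith [hq.1.2.1])
    have h2 : j ≤ i := PSJ_mono hq.2 (by rw [pow_succ]; nlinarith [hp.1.2.1])
    omega
  have hB0 : 0 ≤ C * Real.log y ^ 6 *
      ((y : ℝ) / R0 + (y : ℝ) ^ (19 / 20 : ℝ) + Q * Real.sqrt y) := by positivity
  have hJn : (J.card : ℝ) ≤ 4 * Real.log y := by
    have h1 : J.card ≤ n := by
      rw [hJ]
      exact (Finset.card_filter_le _ _).trans (by rw [card_range])
    have h2 : (J.card : ℝ) ≤ (n : ℝ) := by exact_mod_cast h1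
    rw [hn] at h2
    exact h2.trans (PSJ_log Q y hQ hy)
  calc _ ≤ ∑ p ∈ J.biUnion (fun j => PD (2 ^ j * R0)),
          1 / (Nat.totient p.1 : ℝ) * ‖psi y p‖ := by
        apply sum_le_sum_of_subset_of_nonneg hsub
        intro p _ _
        positivity
    _ = ∑ j ∈ J, ∑ p ∈ PD (2 ^ j * R0), 1 / (Nat.totient p.1 : ℝ) * ‖psi y p‖ :=
        sum_biUnion (fun i hi j hj hij => hdis i hi j hj hij)
    _ ≤ ∑ _j ∈ J, C * Real.log y ^ 6 *
          ((y : ℝ) / R0 + (y : ℝ) ^ (19 / 20 : ℝ) + Q * Real.sqrt y) := by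
        apply sum_le_sum
        intro j hj
        rw [hJ, mem_filter, mem_range] at hj
        have h1 : 1 ≤ 2 ^ j := Nat.one_le_two_pow
        have h2 : R0 ≤ 2 ^ j * R0 := Nat.le_mul_of_pos_left _ (by omega)
        have h3 : (2 ^ j * R0) ^ 2 ≤ y := (Nat.pow_le_pow_left hj.2.le 2).trans hQ
        refine (h (2 ^ j * R0) y (by omega) h3 hy).trans ?_
        apply mul_le_mul_of_nonneg_left _ (by positivity)
        have h4 : (R0 : ℝ) ≤ ((2 ^ j * R0 : ℕ) : ℝ) := by exact_mod_cast h2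
        have h5 : ((2 ^ j * R0 : ℕ) : ℝ) ≤ Q := by exact_mod_cast hj.2.le
        have h6 : (0 : ℝ) < R0 := by exact_mod_cast hR0
        have h7 : (y : ℝ) / ((2 ^ j * R0 : ℕ) : ℝ) ≤ y / R0 := by
          gcongr
        have h8 : ((2 ^ j * R0 : ℕ) : ℝ) * Real.sqrt y ≤ Q * Real.sqrt y := by
          gcongr
        linarith
    _ = J.card * (C * Real.log y ^ 6 *
          ((y : ℝ) / R0 + (y : ℝ) ^ (19 / 20 : ℝ) + Q * Real.sqrt y)) := by
        rw [sum_const, nsmul_eq_mul]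
    _ ≤ 4 * Real.log y * (C * Real.log y ^ 6 *
          ((y : ℝ) / R0 + (y : ℝ) ^ (19 / 20 : ℝ) + Q * Real.sqrt y)) :=
        mul_le_mul_of_nonneg_right hJn hB0
    _ = _ := by ring

end Pool.Agent.Lib.H59C
end

-- from Lib.H59C.BV2
section

/-!
# BV2: the theorem of Bombieri and Vinogradov
-/

open Finset

namespace Pool.Agent.Lib.H59C

open Pool.Agent.Lib.H68T (PC p0 e)

/-- sizes of logarithms -/
theorem bv2_large (K : ℝ) (m : ℕ) : ∃ n0 : ℕ, ∀ n : ℕ, n0 ≤ n →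
    K ≤ Real.log n ∧ K * Real.log n ^ m ≤ (n : ℝ) ^ (1 / 20 : ℝ) := by
  have h1 : Filter.Tendsto (fun n : ℕ => Real.log (n : ℝ)) Filter.atTop Filter.atTop :=
    Real.tendsto_log_atTop.comp tendsto_natCast_atTop_atTop
  have h2 := (isLittleO_log_rpow_rpow_atTop (m : ℝ) (by norm_num : (0 : ℝ) < 1 / 20)).def
    (by positivity : 0 < 1 / (|K| + 1))
  have h3 := tendsto_natCast_atTop_atTop (R := ℝ) |>.eventually h2
  have h4 := (h1.eventually_ge_atTop (max K 0)).and (h3.and (Filter.eventually_ge_atTop 1))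
  obtain ⟨n0, hn0⟩ := Filter.eventually_atTop.1 h4
  refine ⟨n0, fun n hn => ?_⟩
  obtain ⟨g1, g2, g3⟩ := hn0 n hn
  have hL : 0 ≤ Real.log n := (le_max_right _ _).trans g1
  refine ⟨(le_max_left _ _).trans g1, ?_⟩
  rw [Real.rpow_natCast, Real.norm_of_nonneg (by positivity), Real.norm_of_nonneg (by positivity)]
    at g2
  have h5 : |K| * (1 / (|K| + 1) * (n : ℝ) ^ (1 / 20 : ℝ)) ≤ (n : ℝ) ^ (1 / 20 : ℝ) := by
    have h6 : |K| * (1 / (|K| + 1)) ≤ 1 := by
      rw [mul_one_div, div_le_one (by positivity)]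
      linarith [abs_nonneg K]
    rw [← mul_assoc]
    calc |K| * (1 / (|K| + 1)) * (n : ℝ) ^ (1 / 20 : ℝ) ≤ 1 * (n : ℝ) ^ (1 / 20 : ℝ) :=
          mul_le_mul_of_nonneg_right h6 (by positivity)
      _ = _ := one_mul _
  calc K * Real.log n ^ m ≤ |K| * Real.log n ^ m :=
        mul_le_mul_of_nonneg_right (le_abs_self K) (by positivity)
    _ ≤ |K| * (1 / (|K| + 1) * (n : ℝ) ^ (1 / 20 : ℝ)) :=
        mul_le_mul_of_nonneg_left g2 (abs_nonneg K)
    _ ≤ _ := h5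

/-- the numbers in the main case -/
theorem bv2_num (A : ℕ) {C₁ C₂ C₃ K L s : ℝ} (hC₁ : 0 < C₁) (hC₂ : 0 < C₂) (hC₃ : 0 < C₃)
    (hK : K = 10240 * (C₁ * C₃ + C₁ + C₂ + 1)) (hL : K ≤ L) (hs : K * L ^ (A + 12) ≤ s) :
    C₁ * L * (8 * s ^ 20 / L ^ (A + 10) + C₃ * (2 * L) ^ 7 * (16 * s ^ 20 / L ^ (A + 10) +
      8 * s ^ 19 + 3 * s ^ 20 / L ^ (A + 12))) +
      C₂ * (2 * L) ^ 2 * (3 * s ^ 20 / L ^ (A + 12)) ≤ s ^ 20 / L ^ A ∧
    2 * C₁ * (s ^ 20 / L ^ (A + 4)) * L ^ 2 + s ^ 10 * L ≤ s ^ 20 / L ^ A := by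
  have h13 : 0 < C₁ * C₃ := by positivity
  have hK1 : 10240 ≤ K := by rw [hK]; nlinarith
  have hK0 : 0 < K := by linarith
  have hL0 : 0 < L := by linarith
  have hL1 : 1 ≤ L := by linarith
  have hs1 : 1 ≤ s := by
    refine le_trans ?_ hs
    have : 1 ≤ L ^ (A + 12) := one_le_pow₀ hL1
    nlinarith
  have hs0 : 0 < s := by linarith
  obtain ⟨P, hP⟩ : ∃ P : ℝ, P = s ^ 20 / L ^ A := ⟨_, rfl⟩
  have hP0 : 0 < P := by rw [hP]; positivity
  have hdiv : ∀ j : ℕ, s ^ 20 / L ^ (A + j) = P * (1 / L) ^ j := by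
    intro j
    rw [hP, pow_add, one_div, inv_pow]
    field_simp
  have hu : 1 / L ≤ 1 / K := one_div_le_one_div_of_le hK0 hL
  have hu0 : 0 < 1 / L := by positivity
  have hu1 : 1 / L ≤ 1 := by rw [div_le_one hL0]; exact hL1
  have hpow : ∀ j : ℕ, 1 ≤ j → (1 / L) ^ j ≤ 1 / K := by
    intro j hj
    calc (1 / L) ^ j ≤ (1 / L) ^ 1 := pow_le_pow_of_le_one hu0.le hu1 hj
      _ = 1 / L := pow_one _
      _ ≤ 1 / K := hu
  have hs19 : s ^ 19 * L ^ 12 ≤ P * (1 / K) := by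
    have e1 : P = s ^ 19 * s / L ^ A := by rw [hP, ← pow_succ]
    rw [e1, mul_one_div, le_div_iff₀ hK0, le_div_iff₀ (by positivity)]
    have e2 : s ^ 19 * L ^ 12 * K * L ^ A = s ^ 19 * (K * L ^ (A + 12)) := by
      rw [pow_add]
      ring
    rw [e2]
    exact mul_le_mul_of_nonneg_left hs (by positivity)
  have hPK : P / K * K = P := by field_simp
  constructor
  · have e1 : 8 * s ^ 20 / L ^ (A + 10) = 8 * (P * (1 / L) ^ 10) := by rw [mul_div_assoc, hdiv]
    have e2 : 16 * s ^ 20 / L ^ (A + 10) = 16 * (P * (1 / L) ^ 10) := by rw [mul_div_assoc, hdiv]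
    have e3 : 3 * s ^ 20 / L ^ (A + 12) = 3 * (P * (1 / L) ^ 12) := by rw [mul_div_assoc, hdiv]
    rw [e1, e2, e3, ← hP]
    have e4 : C₁ * L * (8 * (P * (1 / L) ^ 10) + C₃ * (2 * L) ^ 7 * (16 * (P * (1 / L) ^ 10) +
        8 * s ^ 19 + 3 * (P * (1 / L) ^ 12))) + C₂ * (2 * L) ^ 2 * (3 * (P * (1 / L) ^ 12)) =
        8 * C₁ * P * (1 / L) ^ 9 + 2048 * (C₁ * C₃) * P * (1 / L) ^ 2 +
        1024 * (C₁ * C₃) * (s ^ 19 * L ^ 8) + 384 * (C₁ * C₃) * P * (1 / L) ^ 4 +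
        12 * C₂ * P * (1 / L) ^ 10 := by
      field_simp
      ring
    rw [e4]
    have t1 : 8 * C₁ * P * (1 / L) ^ 9 ≤ 8 * C₁ * P * (1 / K) :=
      mul_le_mul_of_nonneg_left (hpow 9 (by norm_num)) (by positivity)
    have t2 : 2048 * (C₁ * C₃) * P * (1 / L) ^ 2 ≤ 2048 * (C₁ * C₃) * P * (1 / K) :=
      mul_le_mul_of_nonneg_left (hpow 2 (by norm_num)) (by positivity)
    have t3 : 1024 * (C₁ * C₃) * (s ^ 19 * L ^ 8) ≤ 1024 * (C₁ * C₃) * (P * (1 / K)) := by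
      apply mul_le_mul_of_nonneg_left _ (by positivity)
      refine le_trans ?_ hs19
      apply mul_le_mul_of_nonneg_left _ (by positivity)
      exact pow_le_pow_right₀ hL1 (by norm_num)
    have t4 : 384 * (C₁ * C₃) * P * (1 / L) ^ 4 ≤ 384 * (C₁ * C₃) * P * (1 / K) :=
      mul_le_mul_of_nonneg_left (hpow 4 (by norm_num)) (by positivity)
    have t5 : 12 * C₂ * P * (1 / L) ^ 10 ≤ 12 * C₂ * P * (1 / K) :=
      mul_le_mul_of_nonneg_left (hpow 10 (by norm_num)) (by positivity)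
    have t6 : 8 * C₁ * P * (1 / K) + 2048 * (C₁ * C₃) * P * (1 / K) +
        1024 * (C₁ * C₃) * (P * (1 / K)) + 384 * (C₁ * C₃) * P * (1 / K) +
        12 * C₂ * P * (1 / K) = P / K * (8 * C₁ + 3456 * (C₁ * C₃) + 12 * C₂) := by
      field_simp
      ring
    have t7 : P / K * (8 * C₁ + 3456 * (C₁ * C₃) + 12 * C₂) ≤ P / K * K := by
      apply mul_le_mul_of_nonneg_left _ (by positivity)
      rw [hK]
      nlinarith
    linarith
  · rw [hdiv, ← hP]
    have e1 : 2 * C₁ * (P * (1 / L) ^ 4) * L ^ 2 = 2 * C₁ * P * (1 / L) ^ 2 := by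
      field_simp
    rw [e1]
    have t1 : 2 * C₁ * P * (1 / L) ^ 2 ≤ 2 * C₁ * P * (1 / K) :=
      mul_le_mul_of_nonneg_left (hpow 2 (by norm_num)) (by positivity)
    have t2 : s ^ 10 * L ≤ P * (1 / K) := by
      refine le_trans ?_ hs19
      apply mul_le_mul
      · exact pow_le_pow_right₀ hs1 (by norm_num)
      · calc L = L ^ 1 := (pow_one L).symm
          _ ≤ L ^ 12 := pow_le_pow_right₀ hL1 (by norm_num)
      · positivity
      · positivity
    have t3 : 2 * C₁ * P * (1 / K) + P * (1 / K) = P / K * (2 * C₁ + 1) := by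
      field_simp
    have t4 : P / K * (2 * C₁ + 1) ≤ P / K * K := by
      apply mul_le_mul_of_nonneg_left _ (by positivity)
      rw [hK]
      nlinarith
    linarith

/-- at most `φ(r)` primitive characters for each modulus -/
theorem bv2_count (R : ℕ) : ∑ p ∈ PC R, 1 / (Nat.totient p.1 : ℝ) ≤ R := by
  classical
  have hmaps : ∀ p ∈ PC R, p.1 ∈ Icc 1 R := by
    intro p hp
    have := H68T.mem_PC.mp hp
    rw [mem_Icc]
    exact ⟨this.1, this.2.1⟩
  rw [← sum_fiberwise_of_maps_to hmaps]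
  have key : ∀ r ∈ Icc 1 R, ∑ p ∈ (PC R).filter (fun p => p.1 = r),
      1 / (Nat.totient p.1 : ℝ) ≤ 1 := by
    intro r hr
    rw [mem_Icc] at hr
    have hne : NeZero r := ⟨by omega⟩
    have hfin : Fintype (DirichletCharacter ℂ r) := Fintype.ofFinite _
    have h1 : ((PC R).filter (fun p => p.1 = r)) ⊆
        (univ : Finset (DirichletCharacter ℂ r)).map (Function.Embedding.sigmaMk r) := by
      intro p hp
      rw [mem_filter] at hp
      obtain ⟨-, hp⟩ := hp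
      obtain ⟨r', ψ⟩ := p
      subst hp
      simp
    have h2 := card_le_card h1
    rw [card_map, card_univ] at h2
    have h3 := DirichletCharacter.card_eq_totient_of_hasEnoughRootsOfUnity ℂ r
    rw [Nat.card_eq_fintype_card] at h3
    rw [h3] at h2
    have h4 : (0 : ℝ) < Nat.totient r := by exact_mod_cast Nat.totient_pos.2 (by omega)
    have h5 : ∑ p ∈ (PC R).filter (fun p => p.1 = r), 1 / (Nat.totient p.1 : ℝ) =
        (((PC R).filter (fun p => p.1 = r)).card : ℝ) * (1 / (Nat.totient r : ℝ)) := by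
      rw [sum_congr rfl (g := fun _ => 1 / (Nat.totient r : ℝ)), sum_const, nsmul_eq_mul]
      intro p hp
      rw [(mem_filter.1 hp).2]
    rw [h5, mul_one_div, div_le_one h4]
    exact_mod_cast h2
  refine (sum_le_sum key).trans ?_
  rw [sum_const, Nat.card_Icc, nsmul_eq_mul]
  simp

/-- the number of integers in a progression -/
theorem bv2_card (y d a : ℕ) (hd : 1 ≤ d) :
    (((Icc 1 y).filter fun q => q ≡ a [MOD d]).card : ℝ) ≤ y / d + 1 := by
  have h1 : Icc 1 y = Ioc 0 y := by ext x; simp [Nat.succ_le_iff]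
  have h2 := Nat.Ioc_filter_modEq_card 0 y (r := d) (by omega) a
  rw [h1]
  have h3 : (⌊((y : ℚ) - (a : ℚ)) / (d : ℚ)⌋ : ℚ) ≤ ((y : ℚ) - a) / d := Int.floor_le _
  have h4 : (((0 : ℕ) : ℚ) - (a : ℚ)) / (d : ℚ) < ⌊(((0 : ℕ) : ℚ) - (a : ℚ)) / (d : ℚ)⌋ + 1 :=
    Int.lt_floor_add_one _
  have hd' : (0 : ℚ) < d := by exact_mod_cast hd
  have h5 : (((Ioc 0 y).filter fun q => q ≡ a [MOD d]).card : ℚ) ≤ y / d + 1 := by
    have h6 : (((Ioc 0 y).filter fun q => q ≡ a [MOD d]).card : ℚ) =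
        ((((Ioc 0 y).filter fun q => q ≡ a [MOD d]).card : ℤ) : ℚ) := by push_cast; rfl
    rw [h6, h2, Int.cast_max]
    apply max_le
    · push_cast at h4 ⊢
      have h7 : ((y : ℚ) - a) / d = y / d - a / d := sub_div _ _ _
      have h8 : ((0 : ℚ) - a) / d = - (a / d) := by rw [zero_sub, neg_div]
      rw [h8] at h4
      rw [h8]
      linarith
    · push_cast
      positivity
  have h9 := (Rat.cast_le (K := ℝ)).2 h5
  push_cast at h9
  exact h9

theorem bv2_thp_nonneg (y d a : ℕ) : 0 ≤ thp y d a := by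
  apply sum_nonneg
  intro q hq
  rw [mem_filter, mem_Icc] at hq
  exact Real.log_natCast_nonneg q

theorem bv2_th_nonneg (y : ℕ) : 0 ≤ th y := by
  apply sum_nonneg
  intro q hq
  exact Real.log_natCast_nonneg q

theorem bv2_th_le (y : ℕ) : th y ≤ y * Real.log y := by
  have h1 : ∀ q ∈ (Icc 1 y).filter Nat.Prime, Real.log q ≤ Real.log y := by
    intro q hq
    rw [mem_filter, mem_Icc] at hq
    exact Real.log_le_log (by exact_mod_cast hq.1.1) (by exact_mod_cast hq.1.2)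
  refine (sum_le_sum h1).trans ?_
  rw [sum_const, nsmul_eq_mul]
  apply mul_le_mul_of_nonneg_right _ (Real.log_natCast_nonneg y)
  have h2 : ((Icc 1 y).filter Nat.Prime).card ≤ y := by
    refine (card_filter_le _ _).trans ?_
    rw [Nat.card_Icc]
    omega
  exact_mod_cast h2

theorem bv2_thp_le (y d a : ℕ) (hd : 1 ≤ d) : thp y d a ≤ (y / d + 1) * Real.log y := by
  have h1 : ∀ q ∈ (Icc 1 y).filter (fun q => q.Prime ∧ q ≡ a [MOD d]),
      Real.log q ≤ Real.log y := by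
    intro q hq
    rw [mem_filter, mem_Icc] at hq
    exact Real.log_le_log (by exact_mod_cast hq.1.1) (by exact_mod_cast hq.1.2)
  refine (sum_le_sum h1).trans ?_
  rw [sum_const, nsmul_eq_mul]
  apply mul_le_mul_of_nonneg_right _ (Real.log_natCast_nonneg y)
  refine le_trans ?_ (bv2_card y d a hd)
  have h2 : ((Icc 1 y).filter (fun q => q.Prime ∧ q ≡ a [MOD d])).card ≤
      ((Icc 1 y).filter fun q => q ≡ a [MOD d]).card :=
    card_le_card (monotone_filter_right _ fun q _ hq => hq.2)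
  exact_mod_cast h2

/-- the trivial bound -/
theorem bv2_triv (y d a : ℕ) (hd : 1 ≤ d) :
    |thp y d a - th y / (Nat.totient d : ℝ)| ≤
      2 * (y * Real.log y) * (1 / (Nat.totient d : ℝ)) + Real.log y := by
  have h1 := bv2_thp_le y d a hd
  have h2 := bv2_th_le y
  have h3 := bv2_thp_nonneg y d a
  have h4 := bv2_th_nonneg y
  have h5 : (0 : ℝ) < Nat.totient d := by exact_mod_cast Nat.totient_pos.2 (by omega)
  have h6 : (Nat.totient d : ℝ) ≤ d := by exact_mod_cast Nat.totient_le d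
  have hl : 0 ≤ Real.log y := Real.log_natCast_nonneg y
  have h7 : th y / (Nat.totient d : ℝ) ≤ (y * Real.log y) * (1 / (Nat.totient d : ℝ)) := by
    rw [mul_one_div]
    exact div_le_div_of_nonneg_right h2 h5.le
  have h8 : ((y : ℝ) / d + 1) * Real.log y ≤
      (y * Real.log y) * (1 / (Nat.totient d : ℝ)) + Real.log y := by
    have h9 : (y : ℝ) / d ≤ y / (Nat.totient d : ℝ) :=
      div_le_div_of_nonneg_left (by positivity) h5 h6
    have h10 : (y : ℝ) / d * Real.log y ≤ y / (Nat.totient d : ℝ) * Real.log y :=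
      mul_le_mul_of_nonneg_right h9 hl
    have h11 : (y * Real.log y) * (1 / (Nat.totient d : ℝ)) =
        y / (Nat.totient d : ℝ) * Real.log y := by ring
    rw [h11]
    linarith
  have h12 : 0 ≤ th y / (Nat.totient d : ℝ) := by positivity
  rw [abs_le]
  constructor
  · have : 0 ≤ (y * Real.log y) * (1 / (Nat.totient d : ℝ)) := by positivity
    linarith
  · have : 0 ≤ (y * Real.log y) * (1 / (Nat.totient d : ℝ)) := by positivity
    linarith


end Pool.Agent.Lib.H59C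
end

-- from Lib.H59C.CBR
section

/-!
# CBR: the remainder terms of a box
-/

open Finset

namespace Pool.Agent.Lib.H59C



theorem CBR_log (d : ℕ) (hd : 1 ≤ d) : ∑ q ∈ d.primeFactors, Real.log q ≤ Real.log d := by
  have h1 : ∏ q ∈ d.primeFactors, q ≤ d := Nat.le_of_dvd hd (Nat.prod_primeFactors_dvd d)
  have h2 : Real.log ((∏ q ∈ d.primeFactors, q : ℕ) : ℝ) = ∑ q ∈ d.primeFactors, Real.log q := by
    rw [Nat.cast_prod, Real.log_prod]
    intro q hq
    have := (Nat.prime_of_mem_primeFactors hq).pos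
    have h3 : (0 : ℝ) < q := by exact_mod_cast this
    exact h3.ne'
  rw [← h2]
  apply Real.log_le_log
  · have : 0 < ∏ q ∈ d.primeFactors, q :=
      Finset.prod_pos fun q hq => (Nat.prime_of_mem_primeFactors hq).pos
    exact_mod_cast this
  · exact_mod_cast h1

theorem CBR_om (d : ℕ) (hd : 1 ≤ d) : (d.primeFactors.card : ℝ) ≤ 2 * Real.log d := by
  have h1 := CBR_log d hd
  have h2 : (d.primeFactors.card : ℝ) * Real.log 2 ≤ ∑ q ∈ d.primeFactors, Real.log q := by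
    rw [← nsmul_eq_mul]
    apply Finset.card_nsmul_le_sum
    intro q hq
    apply Real.log_le_log (by norm_num)
    exact_mod_cast (Nat.prime_of_mem_primeFactors hq).two_le
  have h3 := Real.log_two_gt_d9
  have h4 : (0 : ℝ) ≤ d.primeFactors.card := Nat.cast_nonneg _
  nlinarith

open Classical in
theorem CBR_A (M d : ℕ) (hd : 1 ≤ d) (α : ℕ → ℝ) (hα : ∀ m, 0 ≤ α m ∧ α m ≤ 1) (y : ℝ)
    (hy : 0 < y) (h : ∀ m, α m ≠ 0 → ∀ r : ℕ, r.Prime → r ∣ m → y ≤ r) :
    ∑ m ∈ Icc 1 M, α m - ∑ m ∈ (Icc 1 M).filter (fun m => m.Coprime d), α m ≤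
      d.primeFactors.card * (M / y) := by
  have h1 : ∑ m ∈ Icc 1 M, α m - ∑ m ∈ (Icc 1 M).filter (fun m => m.Coprime d), α m =
      ∑ m ∈ (Icc 1 M).filter (fun m => ¬ m.Coprime d), α m := by
    rw [← sum_filter_add_sum_filter_not (Icc 1 M) (fun m => m.Coprime d) α]
    ring
  rw [h1]
  have h2 : ∀ m ∈ (Icc 1 M).filter (fun m => ¬ m.Coprime d), α m ≤
      ∑ r ∈ d.primeFactors, if y ≤ (r : ℝ) ∧ r ∣ m then (1 : ℝ) else 0 := by
    intro m hm
    rw [mem_filter, mem_Icc] at hm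
    have hnn : ∀ r ∈ d.primeFactors, (0 : ℝ) ≤ if y ≤ (r : ℝ) ∧ r ∣ m then (1 : ℝ) else 0 := by
      intro r _
      split_ifs <;> norm_num
    by_cases h0 : α m = 0
    · rw [h0]
      exact sum_nonneg hnn
    · obtain ⟨r, hr, hrm, hrd⟩ := Nat.Prime.not_coprime_iff_dvd.1 hm.2
      have h3 := h m h0 r hr hrm
      have h4 : r ∈ d.primeFactors := Nat.mem_primeFactors.2 ⟨hr, hrd, by omega⟩
      refine le_trans ?_ (single_le_sum hnn h4)
      rw [if_pos ⟨h3, hrm⟩]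
      exact (hα m).2
  refine (sum_le_sum h2).trans ?_
  rw [sum_comm]
  have h3 : ∀ r ∈ d.primeFactors, ∑ m ∈ (Icc 1 M).filter (fun m => ¬ m.Coprime d),
      (if y ≤ (r : ℝ) ∧ r ∣ m then (1 : ℝ) else 0) ≤ M / y := by
    intro r hr
    have hrp := (Nat.prime_of_mem_primeFactors hr).pos
    by_cases hyr : y ≤ (r : ℝ)
    · have h4 : ∑ m ∈ (Icc 1 M).filter (fun m => ¬ m.Coprime d),
          (if y ≤ (r : ℝ) ∧ r ∣ m then (1 : ℝ) else 0) ≤
          ∑ m ∈ Icc 1 M, (if y ≤ (r : ℝ) ∧ r ∣ m then (1 : ℝ) else 0) := by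
        apply sum_le_sum_of_subset_of_nonneg (filter_subset _ _)
        intro m _ _
        split_ifs <;> norm_num
      refine h4.trans ?_
      have h5 : ∑ m ∈ Icc 1 M, (if y ≤ (r : ℝ) ∧ r ∣ m then (1 : ℝ) else 0) =
          ((Icc 1 M).filter (fun m => r ∣ m)).card := by
        rw [card_filter]
        push_cast
        refine sum_congr rfl fun m _ => ?_
        by_cases hm : r ∣ m
        · rw [if_pos ⟨hyr, hm⟩, if_pos hm]
        · rw [if_neg (fun h' => hm h'.2), if_neg hm]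
      rw [h5]
      have h6 : ((Icc 1 M).filter (fun m => r ∣ m)).card = M / r := by
        rw [← Nat.Ioc_filter_dvd_card_eq_div M r]
        congr 1
      rw [h6]
      have h7 : ((M / r : ℕ) : ℝ) ≤ (M : ℝ) / r := Nat.cast_div_le
      refine h7.trans ?_
      exact div_le_div_of_nonneg_left (Nat.cast_nonneg M) hy hyr
    · have h4 : ∀ m ∈ (Icc 1 M).filter (fun m => ¬ m.Coprime d),
          (if y ≤ (r : ℝ) ∧ r ∣ m then (1 : ℝ) else 0) = 0 := by
        intro m _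
        rw [if_neg (fun h' => hyr h'.1)]
      rw [sum_congr rfl h4, sum_const_zero]
      positivity
  refine (sum_le_sum h3).trans ?_
  rw [sum_const, nsmul_eq_mul]

theorem CBR_XX_le (u v : ℕ) (huv : u ≤ v) : XX u v ≤ v * Real.log v := by
  rw [XX_eq huv]
  have h1 := bv2_th_le v
  have h2 := bv2_th_nonneg u
  linarith

theorem CBR_XX_nonneg (u v : ℕ) : 0 ≤ XX u v := by
  unfold XX lg
  exact sum_nonneg fun q _ => Real.log_natCast_nonneg q

open Classical in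
theorem CBR_Q (u v d : ℕ) (hd : 1 ≤ d) :
    0 ≤ XX u v - ∑ q ∈ (Ioc u v).filter (fun q => q.Prime ∧ q.Coprime d), Real.log q ∧
      XX u v - ∑ q ∈ (Ioc u v).filter (fun q => q.Prime ∧ q.Coprime d), Real.log q ≤
        Real.log d := by
  have h1 : XX u v - ∑ q ∈ (Ioc u v).filter (fun q => q.Prime ∧ q.Coprime d), Real.log q =
      ∑ q ∈ (Ioc u v).filter (fun q => q.Prime ∧ ¬ q.Coprime d), Real.log q := by
    unfold XX lg Sq
    rw [← filter_filter, ← filter_filter,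
      ← sum_filter_add_sum_filter_not ((Ioc u v).filter Nat.Prime) (fun q => q.Coprime d)
        (fun q => Real.log (q : ℝ))]
    ring
  rw [h1]
  constructor
  · exact sum_nonneg fun q _ => Real.log_natCast_nonneg q
  · refine le_trans ?_ (CBR_log d hd)
    apply sum_le_sum_of_subset_of_nonneg
    · intro q hq
      rw [mem_filter] at hq
      rw [Nat.mem_primeFactors]
      refine ⟨hq.2.1, ?_, by omega⟩
      by_contra hcon
      exact hq.2.2 ((Nat.Prime.coprime_iff_not_dvd hq.2.1).2 hcon)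
    · intro q _ _
      exact Real.log_natCast_nonneg q

/-- the main terms -/
theorem CBR_main {Aall Ad X Qd om M y lgd : ℝ} (h1 : 0 ≤ Aall - Ad) (h2 : Aall - Ad ≤ om * (M / y))
    (h3 : 0 ≤ X) (h4 : 0 ≤ X - Qd) (h5 : X - Qd ≤ lgd) (h6 : 0 ≤ Ad) (h7 : Ad ≤ M) :
    |Aall * X - Ad * Qd| ≤ om * (M / y) * X + M * lgd := by
  have e : Aall * X - Ad * Qd = (Aall - Ad) * X + Ad * (X - Qd) := by ring
  have h8 : 0 ≤ (Aall - Ad) * X := mul_nonneg h1 h3
  have h9 : 0 ≤ Ad * (X - Qd) := mul_nonneg h6 h4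
  rw [e, abs_of_nonneg (add_nonneg h8 h9)]
  apply add_le_add
  · exact mul_le_mul_of_nonneg_right h2 h3
  · exact mul_le_mul h7 h5 h4 (h6.trans h7)

theorem CBR_num {n M v d : ℕ} (hn : 8 ≤ n) (hL : 1 ≤ Real.log n) (hd1 : 1 ≤ d) (hdn : d ≤ n)
    (hv : (n : ℝ) ^ (1 / 4 : ℝ) ≤ v) (hMv : M * v ≤ 8 * n) (u : ℕ) (huv : u ≤ v) :
    (d.primeFactors.card : ℝ) * (M / (n : ℝ) ^ (1 / 10 : ℝ)) * XX u v + M * Real.log d ≤
      40 * Real.log n ^ 2 * ((n : ℝ) / (n : ℝ) ^ (1 / 10 : ℝ)) := by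
  have hn1 : (1 : ℝ) ≤ n := by
    have : 1 ≤ n := by omega
    exact_mod_cast this
  have hn0 : (0 : ℝ) < n := by linarith
  have hn8 : (8 : ℝ) ≤ n := by exact_mod_cast hn
  set L := Real.log n with hLdef
  have hy0 : (0 : ℝ) < (n : ℝ) ^ (1 / 10 : ℝ) := Real.rpow_pos_of_pos hn0 _
  have hd0 : (0 : ℝ) < d := by exact_mod_cast hd1
  have hld : Real.log d ≤ L := Real.log_le_log hd0 (by exact_mod_cast hdn)
  have hld0 : 0 ≤ Real.log d := Real.log_natCast_nonneg d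
  have hom : (d.primeFactors.card : ℝ) ≤ 2 * L := (CBR_om d hd1).trans (by linarith)
  have hMv' : (M : ℝ) * v ≤ 8 * n := by exact_mod_cast hMv
  have hM0 : (0 : ℝ) ≤ M := Nat.cast_nonneg M
  have hv1 : (1 : ℝ) ≤ v := le_trans (Real.one_le_rpow hn1 (by norm_num)) hv
  rcases Nat.eq_zero_or_pos M with hM | hM
  · subst hM
    simp only [Nat.cast_zero, zero_div, mul_zero, zero_mul, add_zero]
    positivity
  have hM1 : (1 : ℝ) ≤ M := by exact_mod_cast hM
  have hv8 : (v : ℝ) ≤ 8 * n := by nlinarith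
  have hlv : Real.log v ≤ 2 * L := by
    have h1 : (v : ℝ) ≤ (n : ℝ) ^ 2 := by nlinarith
    have h2 := Real.log_le_log (by linarith) h1
    rw [Real.log_pow] at h2
    push_cast at h2
    linarith
  have hX : XX u v ≤ v * (2 * L) :=
    (CBR_XX_le u v huv).trans (mul_le_mul_of_nonneg_left hlv (by linarith))
  have hX0 := CBR_XX_nonneg u v
  have hMy : (M : ℝ) ≤ 8 * ((n : ℝ) / (n : ℝ) ^ (1 / 10 : ℝ)) := by
    have h1 : (n : ℝ) ^ (1 / 10 : ℝ) ≤ v :=
      (Real.rpow_le_rpow_of_exponent_le hn1 (by norm_num)).trans hv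
    have h2 : (M : ℝ) * (n : ℝ) ^ (1 / 10 : ℝ) ≤ 8 * n :=
      (mul_le_mul_of_nonneg_left h1 hM0).trans hMv'
    rw [← mul_div_assoc, le_div_iff₀ hy0]
    exact h2
  have hT0 : (0 : ℝ) ≤ (n : ℝ) / (n : ℝ) ^ (1 / 10 : ℝ) := by positivity
  have hfirst : (d.primeFactors.card : ℝ) * (M / (n : ℝ) ^ (1 / 10 : ℝ)) * XX u v ≤
      32 * L ^ 2 * ((n : ℝ) / (n : ℝ) ^ (1 / 10 : ℝ)) := by
    calc (d.primeFactors.card : ℝ) * (M / (n : ℝ) ^ (1 / 10 : ℝ)) * XX u v
        ≤ (2 * L) * (M / (n : ℝ) ^ (1 / 10 : ℝ)) * (v * (2 * L)) := by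
          apply mul_le_mul _ hX hX0 (by positivity)
          exact mul_le_mul_of_nonneg_right hom (by positivity)
      _ = 4 * L ^ 2 * ((M : ℝ) * v / (n : ℝ) ^ (1 / 10 : ℝ)) := by
          field_simp
          ring
      _ ≤ 4 * L ^ 2 * ((8 * n) / (n : ℝ) ^ (1 / 10 : ℝ)) := by
          apply mul_le_mul_of_nonneg_left _ (by positivity)
          exact div_le_div_of_nonneg_right hMv' hy0.le
      _ = _ := by ring
  have hsecond : (M : ℝ) * Real.log d ≤ 8 * L ^ 2 * ((n : ℝ) / (n : ℝ) ^ (1 / 10 : ℝ)) := by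
    calc (M : ℝ) * Real.log d ≤ 8 * ((n : ℝ) / (n : ℝ) ^ (1 / 10 : ℝ)) * L :=
          mul_le_mul hMy hld hld0 (by positivity)
      _ ≤ 8 * ((n : ℝ) / (n : ℝ) ^ (1 / 10 : ℝ)) * L ^ 2 := by
          apply mul_le_mul_of_nonneg_left _ (by positivity)
          nlinarith
      _ = _ := by ring
  linarith


end Pool.Agent.Lib.H59C
end

-- from Lib.H57C.MDefs
section

/-!
# Definitions for the transfer theorem
-/

open Finset

namespace Pool.Agent.Lib.H57C

open Pool.Agent.Lib.H15P Pool.Agent.Lib.H92G Pool.Agent.Lib.H57M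

/-- Families of sets of primes. -/
abbrev Fam (P H : Finset ℕ) : Type := {h // h ∈ H} → Finset {p // p ∈ P}

/-- `U_i = ∅`, and the sets are pairwise disjoint. -/
def okA (P H : Finset ℕ) (i : Option ℕ) (U : Fam P H) : Prop :=
  (∀ h : {h // h ∈ H}, i = some h.1 → U h = ∅) ∧ ∀ h h', h ≠ h' → Disjoint (U h) (U h')

/-- The primes in the `U_h` do not divide `d`, and their classes `-h` are allowed. -/
def okB (P H : Finset ℕ) (Al : ℕ → ℕ → Prop) (d : ℕ) (U : Fam P H) : Prop :=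
  (∀ h, ∀ p ∈ U h, ¬ p.1 ∣ d) ∧ ∀ h, ∀ p ∈ U h, ∀ c : ℕ, p.1 ∣ c + h.1 → Al p.1 c

/-- The product of all primes in the `U_h`. -/
def fp {P H : Finset ℕ} (U : Fam P H) : ℕ := ∏ h, ∏ p ∈ U h, p.1

/-- `∏_h ∏_{p ∈ U_h} f p` -/
noncomputable def fpr {P H : Finset ℕ} (f : ℕ → ℝ) (U : Fam P H) : ℝ := ∏ h, ∏ p ∈ U h, f p.1

/-- The reference densities: `1/p`, resp. `1/(p-1)` if a form is prime. -/
noncomputable def hdr (i : Option ℕ) (p : ℕ) : ℝ := if i = none then 1 / (p : ℝ) else 1 / ((p : ℝ) - 1)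

open Classical in
/-- The main term for the modulus `d`. -/
noncomputable def Am (P H : Finset ℕ) (i : Option ℕ) (Al : ℕ → ℕ → Prop) (hd : ℕ → ℝ) (d : ℕ)
    (c : Fam P H → ℝ) : ℝ :=
  ∑ U : Fam P H, if okA P H i U ∧ okB P H Al d U then c U * fpr hd U else 0

end Pool.Agent.Lib.H57C
end

-- from Lib.H57C.M0
section

/-!
# Chunk M0: sums over residue classes
-/

open Finset

namespace Pool.Agent.Lib.H57C

/-- The Chinese remainder theorem for a product of pairwise coprime numbers. -/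
theorem M0_crt (s : Finset ℕ) (hs : ∀ q ∈ s, q.Prime) (A : ℕ → Finset ℕ)
    (hA : ∀ q ∈ s, A q ⊆ range q) :
    ((range (∏ q ∈ s, q)).filter (fun c => ∀ q ∈ s, c % q ∈ A q)).card = ∏ q ∈ s, (A q).card := by
  classical
  induction s using Finset.induction_on with
  | empty => simp
  | insert a s ha ih =>
    have hpa : a.Prime := hs a (Finset.mem_insert_self a s)
    have hs' : ∀ q ∈ s, q.Prime := fun q hq => hs q (Finset.mem_insert_of_mem hq)
    have hA' : ∀ q ∈ s, A q ⊆ range q := fun q hq => hA q (Finset.mem_insert_of_mem hq)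
    have ih' := ih hs' hA'
    rw [Finset.prod_insert ha, Finset.prod_insert ha, ← ih', ← Finset.card_product]
    set M := ∏ q ∈ s, q with hM
    have hcop : Nat.Coprime a M := by
      rw [hM]
      refine Nat.Coprime.prod_right fun q hq => ?_
      rw [Nat.coprime_primes hpa (hs' q hq)]
      rintro rfl
      exact ha hq
    have hMpos : 0 < M := Finset.prod_pos fun q hq => (hs' q hq).pos
    refine Finset.card_bij (fun c _ => (c % a, c % M)) ?_ ?_ ?_
    · intro c hc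
      rw [Finset.mem_filter] at hc
      rw [Finset.mem_product]
      refine ⟨hc.2 a (Finset.mem_insert_self a s), ?_⟩
      rw [Finset.mem_filter]
      refine ⟨Finset.mem_range.2 (Nat.mod_lt _ hMpos), fun q hq => ?_⟩
      rw [Nat.mod_mod_of_dvd c (Finset.dvd_prod_of_mem (fun q => q) hq)]
      exact hc.2 q (Finset.mem_insert_of_mem hq)
    · intro c hc d hd h
      rw [Finset.mem_filter, Finset.mem_range] at hc hd
      have h1 : c ≡ d [MOD a] := (Prod.ext_iff.1 h).1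
      have h2 : c ≡ d [MOD M] := (Prod.ext_iff.1 h).2
      have h3 : c ≡ d [MOD a * M] := (Nat.modEq_and_modEq_iff_modEq_mul hcop).1 ⟨h1, h2⟩
      exact Nat.ModEq.eq_of_lt_of_lt h3 hc.1 hd.1
    · rintro ⟨x, y⟩ hxy
      rw [Finset.mem_product, Finset.mem_filter, Finset.mem_range] at hxy
      obtain ⟨hx, hy, hy2⟩ := hxy
      dsimp only at hx hy hy2
      have hxa : x < a := Finset.mem_range.1 (hA a (Finset.mem_insert_self a s) hx)
      obtain ⟨k, hk1, hk2⟩ := Nat.chineseRemainder hcop x y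
      have hk1' : k % (a * M) % a = x := by
        rw [Nat.mod_mod_of_dvd k (Dvd.intro _ rfl)]
        have := hk1
        unfold Nat.ModEq at this
        rw [this, Nat.mod_eq_of_lt hxa]
      have hk2' : k % (a * M) % M = y := by
        rw [Nat.mod_mod_of_dvd k (Dvd.intro_left _ rfl)]
        have := hk2
        unfold Nat.ModEq at this
        rw [this, Nat.mod_eq_of_lt hy]
      refine ⟨k % (a * M), ?_, Prod.ext hk1' hk2'⟩
      rw [Finset.mem_filter, Finset.mem_range]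
      refine ⟨Nat.mod_lt _ (Nat.mul_pos hpa.pos hMpos), fun q hq => ?_⟩
      rw [Finset.mem_insert] at hq
      rcases hq with rfl | hq
      · rw [hk1']; exact hx
      · have h4 := hy2 q hq
        rw [← hk2', Nat.mod_mod_of_dvd _ (Finset.dvd_prod_of_mem (fun q => q) hq)] at h4
        exact h4

/-- Chinese remainder theorem, counting form. Induction over the prime factors, or a bijection with
`Fintype.piFinset`/`Finset.pi` (`ZMod.equivPi`, `Nat.chineseRemainderOfFinset`). -/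
theorem crt_card (m : ℕ) (hm : Squarefree m) (A : ℕ → Finset ℕ)
    (hA : ∀ q ∈ m.primeFactors, A q ⊆ range q) :
    ((range m).filter (fun c => ∀ q ∈ m.primeFactors, c % q ∈ A q)).card =
      ∏ q ∈ m.primeFactors, (A q).card := by
  have h := M0_crt m.primeFactors (fun q hq => Nat.prime_of_mem_primeFactors hq) A hA
  rw [Nat.prod_primeFactors_of_squarefree hm] at h
  exact h

/-- Proof. `x j % q ∈ A q` for all `q ∣ m` iff `x j % m` is in the set `C` of `crt_card` (`Nat.mod_mod_of_dvd`); so the sum is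
`∑_{c ∈ C} ∑_{x j ≡ c [MOD m]} wt j`, every `c ∈ C` satisfies `Al q c` for all `q ∣ m` (`al`: `c ≡ c % q [MOD q]`), use the bound of
`Lvl` for every `c ∈ C` and `crt_card`. -/
theorem class_sum {ι : Type} (s : Seq ι)
    (al : ∀ q c c' : ℕ, c ≡ c' [MOD q] → (s.Al q c ↔ s.Al q c')) (m : ℕ) (hm : Squarefree m)
    (B : ℝ) (hB : ∀ c : ℕ, (∀ q ∈ m.primeFactors, s.Al q c) →
      |∑ i ∈ s.S.filter (fun i => s.x i ≡ c [MOD m]), s.wt i -
        s.X * ∏ q ∈ m.primeFactors, s.hd q| ≤ B)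
    (A : ℕ → Finset ℕ) (hA : ∀ q ∈ m.primeFactors, A q ⊆ range q)
    (hAl : ∀ q ∈ m.primeFactors, ∀ c ∈ A q, s.Al q c) :
    |∑ i ∈ s.S.filter (fun i => ∀ q ∈ m.primeFactors, s.x i % q ∈ A q), s.wt i -
        s.X * ∏ q ∈ m.primeFactors, (((A q).card : ℝ) * s.hd q)| ≤
      (∏ q ∈ m.primeFactors, ((A q).card : ℝ)) * B := by
  classical
  have hm0 : 0 < m := Nat.pos_of_ne_zero hm.ne_zero
  set C := (range m).filter (fun c => ∀ q ∈ m.primeFactors, c % q ∈ A q) with hC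
  have hCc : (C.card : ℝ) = ∏ q ∈ m.primeFactors, ((A q).card : ℝ) := by
    rw [hC, crt_card m hm A hA]; push_cast; rfl
  have hsum : ∑ i ∈ s.S.filter (fun i => ∀ q ∈ m.primeFactors, s.x i % q ∈ A q), s.wt i =
      ∑ c ∈ C, ∑ i ∈ s.S.filter (fun i => s.x i ≡ c [MOD m]), s.wt i := by
    rw [← Finset.sum_fiberwise_of_maps_to (s := s.S.filter (fun i => ∀ q ∈ m.primeFactors, s.x i % q ∈ A q))
      (t := C) (g := fun i => s.x i % m)]
    · refine Finset.sum_congr rfl fun c hc => Finset.sum_congr ?_ fun _ _ => rfl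
      rw [hC, Finset.mem_filter, Finset.mem_range] at hc
      ext i
      simp only [Finset.mem_filter]
      constructor
      · rintro ⟨⟨h1, _⟩, h3⟩
        refine ⟨h1, ?_⟩
        unfold Nat.ModEq
        rw [h3, Nat.mod_eq_of_lt hc.1]
      · rintro ⟨h1, h2⟩
        unfold Nat.ModEq at h2
        rw [Nat.mod_eq_of_lt hc.1] at h2
        refine ⟨⟨h1, fun q hq => ?_⟩, h2⟩
        have h3 := hc.2 q hq
        rw [← h2, Nat.mod_mod_of_dvd _ (Nat.dvd_of_mem_primeFactors hq)] at h3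
        exact h3
    · intro i hi
      rw [Finset.mem_filter] at hi
      rw [hC, Finset.mem_filter, Finset.mem_range]
      refine ⟨Nat.mod_lt _ hm0, fun q hq => ?_⟩
      rw [Nat.mod_mod_of_dvd _ (Nat.dvd_of_mem_primeFactors hq)]
      exact hi.2 q hq
  have hX : s.X * ∏ q ∈ m.primeFactors, (((A q).card : ℝ) * s.hd q) =
      ∑ _c ∈ C, s.X * ∏ q ∈ m.primeFactors, s.hd q := by
    rw [Finset.sum_const, nsmul_eq_mul, hCc, Finset.prod_mul_distrib]; ring
  rw [hsum, hX, ← Finset.sum_sub_distrib, ← hCc]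
  calc |∑ c ∈ C, (∑ i ∈ s.S.filter (fun i => s.x i ≡ c [MOD m]), s.wt i - s.X * ∏ q ∈ m.primeFactors, s.hd q)|
      ≤ ∑ c ∈ C, |∑ i ∈ s.S.filter (fun i => s.x i ≡ c [MOD m]), s.wt i - s.X * ∏ q ∈ m.primeFactors, s.hd q| :=
        Finset.abs_sum_le_sum_abs _ _
    _ ≤ ∑ _c ∈ C, B := by
        refine Finset.sum_le_sum fun c hc => hB c fun q hq => ?_
        rw [hC, Finset.mem_filter] at hc
        refine (al q c (c % q) ?_).2 (hAl q hq _ (hc.2 q hq))
        exact (Nat.mod_modEq c q).symm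
    _ = (C.card : ℝ) * B := by rw [Finset.sum_const, nsmul_eq_mul]

end Pool.Agent.Lib.H57C
end

-- from Lib.H57C.M2
section

/-!
# Chunk M2: the sum of the remainder terms
-/

open Finset

namespace Pool.Agent.Lib.H57C

/-- Colourings of a finite set. -/
theorem m2_col {X τ : Type} [Fintype X] (S : Finset ℕ) (T : Finset τ) (c : τ → ℕ → X) (w : X → ℝ)
    (hw : ∀ x, 0 ≤ w x)
    (inj : ∀ t ∈ T, ∀ t' ∈ T, (∀ q ∈ S, c t q = c t' q) → t = t') :
    ∑ t ∈ T, ∏ q ∈ S, w (c t q) ≤ (∑ x, w x) ^ S.card := by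
  classical
  have h1 : (∑ x, w x) ^ S.card = ∑ f : {q // q ∈ S} → X, ∏ q, w (f q) := by
    have h := Finset.prod_univ_sum (ι := {q // q ∈ S}) (κ := fun _ => X) (R := ℝ)
      (fun _ => (Finset.univ : Finset X)) (fun _ x => w x)
    rw [Fintype.piFinset_univ] at h
    rw [← h]
    simp
  rw [h1]
  let Φ : τ → ({q // q ∈ S} → X) := fun t q => c t q.1
  have h2 : ∀ t, ∏ q ∈ S, w (c t q) = ∏ q, w (Φ t q) := fun t => by
    rw [← Finset.prod_coe_sort]
  have hinj : Set.InjOn Φ T := by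
    intro t ht t' ht' h
    refine inj t (by simpa using ht) t' (by simpa using ht') fun q hq => ?_
    exact congrFun h ⟨q, hq⟩
  calc ∑ t ∈ T, ∏ q ∈ S, w (c t q) = ∑ t ∈ T, ∏ q, w (Φ t q) := Finset.sum_congr rfl fun t _ => h2 t
    _ = ∑ f ∈ T.image Φ, ∏ q, w (f q) := by
        rw [Finset.sum_image (f := fun f : {q // q ∈ S} → X => ∏ q, w (f q)) hinj]
    _ ≤ ∑ f : {q // q ∈ S} → X, ∏ q, w (f q) :=
        Finset.sum_le_sum_of_subset_of_nonneg (Finset.subset_univ _)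
          fun f _ _ => Finset.prod_nonneg fun q _ => hw _

/-- The primes of the family, as a set. -/
noncomputable def m2_UU {P H : Finset ℕ} (U : Fam P H) : Finset ℕ :=
  Finset.univ.biUnion (fun h => (U h).map (Function.Embedding.subtype _))

theorem m2_mem_UU {P H : Finset ℕ} (U : Fam P H) (q : ℕ) :
    q ∈ m2_UU U ↔ ∃ h, ∃ hq : q ∈ P, (⟨q, hq⟩ : {p // p ∈ P}) ∈ U h := by
  unfold m2_UU
  simp only [Finset.mem_biUnion, Finset.mem_univ, true_and, Finset.mem_map,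
    Function.Embedding.coe_subtype, Subtype.exists, exists_and_right, exists_eq_right]

theorem m2_prod_UU {P H : Finset ℕ} {M : Type} [CommMonoid M] (U : Fam P H)
    (hd : ∀ h h', h ≠ h' → Disjoint (U h) (U h')) (f : ℕ → M) :
    ∏ q ∈ m2_UU U, f q = ∏ h, ∏ p ∈ U h, f p.1 := by
  unfold m2_UU
  rw [Finset.prod_biUnion]
  · refine Finset.prod_congr rfl fun h _ => ?_
    rw [Finset.prod_map]
    rfl
  · intro h _ h' _ hne
    rw [Function.onFun, Finset.disjoint_map]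
    exact hd h h' hne

theorem m2_fp {P H : Finset ℕ} (U : Fam P H)
    (hd : ∀ h h', h ≠ h' → Disjoint (U h) (U h')) : fp U = ∏ q ∈ m2_UU U, q := by
  rw [m2_prod_UU U hd (fun q => q)]
  rfl

theorem m2_sqf (s : Finset ℕ) (hs : ∀ p ∈ s, p.Prime) : Squarefree (∏ p ∈ s, p) := by
  refine Finset.squarefree_prod_of_pairwise_isCoprime (fun p hp q hq hpq ↦ ?_)
    fun p hp ↦ (hs p hp).squarefree
  simp only [← Nat.coprime_iff_isRelPrime]
  exact (Nat.coprime_primes (hs p (by simpa using hp)) (hs q (by simpa using hq))).mpr hpq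

open Classical in
/-- The colour of `q`. -/
noncomputable def m2_c {P H : Finset ℕ} (t : ℕ × Finset ℕ × Fam P H) (q : ℕ) :
    Option (Option {h // h ∈ H}) :=
  if q ∈ t.2.1 then none else if h : ∃ h, ∃ hq : q ∈ P, (⟨q, hq⟩ : {p // p ∈ P}) ∈ t.2.2 h then
    some (some h.choose) else some none

/-- The weight of a colour. -/
noncomputable def m2_w (H : Finset ℕ) (k E : ℕ) : Option (Option {h // h ∈ H}) → ℝ
  | none => k
  | some none => k
  | some (some _) => E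

theorem m2_w_sum (H : Finset ℕ) (k E K : ℕ) (hK : H.card = K) :
    ∑ x, m2_w H k E x = ((K * E + 2 * k : ℕ) : ℝ) := by
  rw [Fintype.sum_option, Fintype.sum_option]
  simp only [m2_w]
  simp [hK]
  ring

/-- The conditions on a triple. -/
structure m2_ok {P H : Finset ℕ} (W p1 : ℕ) (P' : Finset ℕ) (t : ℕ × Finset ℕ × Fam P H) : Prop where
  sq : Squarefree t.1
  dP : ∀ q ∈ t.1.primeFactors, q ∈ P'
  V : t.2.1 ⊆ Ps W p1
  dis : ∀ h h', h ≠ h' → Disjoint (t.2.2 h) (t.2.2 h')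
  cop : ∀ h, ∀ p ∈ t.2.2 h, ¬ p.1 ∣ t.1

section

variable {P H : Finset ℕ} {W p1 : ℕ} {P' : Finset ℕ}

/-- The product of a triple. -/
noncomputable def m2_m (t : ℕ × Finset ℕ × Fam P H) : ℕ := fp t.2.2 * (∏ q ∈ t.2.1, q) * t.1

theorem m2_VU (hP : ∀ p ∈ P, p.Prime ∧ W < p) {t : ℕ × Finset ℕ × Fam P H} (h : m2_ok W p1 P' t) :
    Disjoint (m2_UU t.2.2) t.2.1 := by
  rw [Finset.disjoint_left]
  intro q hq hV
  obtain ⟨h', hqP, -⟩ := (m2_mem_UU _ _).1 hq
  have h1 := (hP q hqP).2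
  have h2 := h.V hV
  simp only [Ps, Finset.mem_filter, Finset.mem_Icc] at h2
  omega

theorem m2_UVd (hP : ∀ p ∈ P, p.Prime ∧ W < p) (hP' : ∀ q ∈ P', q.Prime ∧ W < q)
    {t : ℕ × Finset ℕ × Fam P H} (h : m2_ok W p1 P' t) :
    Disjoint (m2_UU t.2.2 ∪ t.2.1) t.1.primeFactors := by
  rw [Finset.disjoint_left]
  intro q hq hd
  rcases Finset.mem_union.1 hq with hq | hV
  · obtain ⟨h', hqP, hq'⟩ := (m2_mem_UU _ _).1 hq
    exact h.cop h' _ hq' (Nat.dvd_of_mem_primeFactors hd)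
  · have h1 := (hP' q (h.dP q hd)).2
    have h2 := h.V hV
    simp only [Ps, Finset.mem_filter, Finset.mem_Icc] at h2
    omega

theorem m2_m_eq (hP : ∀ p ∈ P, p.Prime ∧ W < p) (hP' : ∀ q ∈ P', q.Prime ∧ W < q)
    {t : ℕ × Finset ℕ × Fam P H} (h : m2_ok W p1 P' t) :
    m2_m t = ∏ q ∈ m2_UU t.2.2 ∪ t.2.1 ∪ t.1.primeFactors, q := by
  rw [Finset.prod_union (m2_UVd hP hP' h), Finset.prod_union (m2_VU hP h),
    Nat.prod_primeFactors_of_squarefree h.sq, m2_m, m2_fp _ h.dis]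

theorem m2_pr (hP : ∀ p ∈ P, p.Prime ∧ W < p)
    {t : ℕ × Finset ℕ × Fam P H} (h : m2_ok W p1 P' t) :
    ∀ q ∈ m2_UU t.2.2 ∪ t.2.1 ∪ t.1.primeFactors, q.Prime := by
  intro q hq
  rcases Finset.mem_union.1 hq with hq | hq
  · rcases Finset.mem_union.1 hq with hq | hq
    · obtain ⟨h', hqP, hq'⟩ := (m2_mem_UU _ _).1 hq
      exact (hP q hqP).1
    · have h2 := h.V hq
      simp only [Ps, Finset.mem_filter, Finset.mem_Icc] at h2
      exact h2.2.1
  · exact Nat.prime_of_mem_primeFactors hq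

theorem m2_pf (hP : ∀ p ∈ P, p.Prime ∧ W < p) (hP' : ∀ q ∈ P', q.Prime ∧ W < q)
    {t : ℕ × Finset ℕ × Fam P H} (h : m2_ok W p1 P' t) :
    (m2_m t).primeFactors = m2_UU t.2.2 ∪ t.2.1 ∪ t.1.primeFactors := by
  rw [m2_m_eq hP hP' h, Nat.primeFactors_prod (m2_pr hP h)]

theorem m2_p1 (hP : ∀ p ∈ P, p.Prime ∧ W < p) (hP' : ∀ q ∈ P', q.Prime ∧ W < q)
    (hp1 : p1.Prime) (hp1W : p1 ≤ W)
    {t : ℕ × Finset ℕ × Fam P H} (h : m2_ok W p1 P' t) : Squarefree (m2_m t) ∧ ¬ p1 ∣ m2_m t := by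
  have h0 : Squarefree (m2_m t) := by
    rw [m2_m_eq hP hP' h]
    exact m2_sqf _ (m2_pr hP h)
  refine ⟨h0, fun h1 => ?_⟩
  have h2 : p1 ∈ (m2_m t).primeFactors := Nat.mem_primeFactors.2 ⟨hp1, h1, h0.ne_zero⟩
  rw [m2_pf hP hP' h] at h2
  rcases Finset.mem_union.1 h2 with hq | hq
  · rcases Finset.mem_union.1 hq with hq | hq
    · obtain ⟨h', hqP, hq'⟩ := (m2_mem_UU _ _).1 hq
      have := (hP p1 hqP).2
      omega
    · have h2 := h.V hq
      simp only [Ps, Finset.mem_filter, Finset.mem_Icc] at h2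
      exact h2.2.2 rfl
  · have := (hP' p1 (h.dP p1 hq)).2
    omega

theorem m2_cV (t : ℕ × Finset ℕ × Fam P H) {q : ℕ} (hq : q ∈ t.2.1) : m2_c t q = none := by
  simp [m2_c, hq]

theorem m2_cd (hP : ∀ p ∈ P, p.Prime ∧ W < p) (hP' : ∀ q ∈ P', q.Prime ∧ W < q)
    {t : ℕ × Finset ℕ × Fam P H} (h : m2_ok W p1 P' t) {q : ℕ} (hq : q ∈ t.1.primeFactors) :
    m2_c t q = some none := by
  have h1 := Finset.disjoint_right.1 (m2_UVd hP hP' h) hq
  rw [Finset.mem_union, not_or, m2_mem_UU] at h1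
  unfold m2_c
  rw [if_neg h1.2, dif_neg h1.1]

theorem m2_cU (hP : ∀ p ∈ P, p.Prime ∧ W < p)
    {t : ℕ × Finset ℕ × Fam P H} (h : m2_ok W p1 P' t) {q : ℕ} {h' : {h // h ∈ H}} {hqP : q ∈ P}
    (hq : (⟨q, hqP⟩ : {p // p ∈ P}) ∈ t.2.2 h') :
    m2_c t q = some (some h') := by
  have h0 : ∃ h, ∃ hq : q ∈ P, (⟨q, hq⟩ : {p // p ∈ P}) ∈ t.2.2 h := ⟨h', hqP, hq⟩
  have h1 := Finset.disjoint_left.1 (m2_VU hP h) ((m2_mem_UU _ _).2 h0)
  unfold m2_c
  rw [if_neg h1, dif_pos h0]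
  congr 2
  by_contra hne
  obtain ⟨hq1, hq2⟩ := h0.choose_spec
  exact Finset.disjoint_left.1 (h.dis _ _ hne) hq2 hq

theorem m2_wt (hP : ∀ p ∈ P, p.Prime ∧ W < p) (hP' : ∀ q ∈ P', q.Prime ∧ W < q) (k E : ℕ)
    {t : ℕ × Finset ℕ × Fam P H} (h : m2_ok W p1 P' t) :
    ∏ q ∈ (m2_m t).primeFactors, m2_w H k E (m2_c t q) =
      (E : ℝ) ^ (∑ h, (t.2.2 h).card) * ((k : ℝ) ^ t.2.1.card * (k : ℝ) ^ t.1.primeFactors.card) := by
  rw [m2_pf hP hP' h, Finset.prod_union (m2_UVd hP hP' h), Finset.prod_union (m2_VU hP h)]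
  have h1 : ∏ q ∈ t.2.1, m2_w H k E (m2_c t q) = (k : ℝ) ^ t.2.1.card := by
    rw [Finset.prod_congr rfl fun q hq => by rw [m2_cV t hq], Finset.prod_const]
    rfl
  have h2 : ∏ q ∈ t.1.primeFactors, m2_w H k E (m2_c t q) = (k : ℝ) ^ t.1.primeFactors.card := by
    rw [Finset.prod_congr rfl fun q hq => by rw [m2_cd hP hP' h hq], Finset.prod_const]
    rfl
  have h3 : ∏ q ∈ m2_UU t.2.2, m2_w H k E (m2_c t q) = (E : ℝ) ^ (∑ h, (t.2.2 h).card) := by
    rw [m2_prod_UU _ h.dis, ← Finset.prod_pow_eq_pow_sum]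
    refine Finset.prod_congr rfl fun h' _ => ?_
    rw [Finset.prod_congr rfl fun p (hp : p ∈ t.2.2 h') => by
      rw [show m2_c t p.1 = some (some h') from m2_cU hP h (hqP := p.2) hp], Finset.prod_const]
    rfl
  rw [h1, h2, h3]
  ring

theorem m2_inj (hP : ∀ p ∈ P, p.Prime ∧ W < p) (hP' : ∀ q ∈ P', q.Prime ∧ W < q) (m : ℕ)
    {t t' : ℕ × Finset ℕ × Fam P H} (h : m2_ok W p1 P' t) (h' : m2_ok W p1 P' t')
    (e : m2_m t = m) (e' : m2_m t' = m)
    (hc : ∀ q ∈ m.primeFactors, m2_c t q = m2_c t' q) : t = t' := by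
  have f := m2_pf hP hP' h
  have f' := m2_pf hP hP' h'
  rw [e] at f
  rw [e'] at f'
  -- the colour classes
  have key : ∀ {s : ℕ × Finset ℕ × Fam P H}, m2_ok W p1 P' s →
      (m.primeFactors = m2_UU s.2.2 ∪ s.2.1 ∪ s.1.primeFactors) →
      (∀ q, q ∈ s.2.1 ↔ q ∈ m.primeFactors ∧ m2_c s q = none) ∧
      (∀ q, q ∈ s.1.primeFactors ↔ q ∈ m.primeFactors ∧ m2_c s q = some none) ∧
      (∀ (g : {h // h ∈ H}) (p : {p // p ∈ P}), p ∈ s.2.2 g ↔
        p.1 ∈ m.primeFactors ∧ m2_c s p.1 = some (some g)) := by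
    intro s hs fs
    have hcase : ∀ q ∈ m.primeFactors, (q ∈ s.2.1 ∧ m2_c s q = none) ∨
        (q ∈ s.1.primeFactors ∧ m2_c s q = some none) ∨
        ∃ (g : {h // h ∈ H}) (hqP : q ∈ P), (⟨q, hqP⟩ : {p // p ∈ P}) ∈ s.2.2 g ∧
          m2_c s q = some (some g) := by
      intro q hq
      rw [fs] at hq
      rcases Finset.mem_union.1 hq with hq | hq
      · rcases Finset.mem_union.1 hq with hq | hq
        · obtain ⟨g, hqP, hq'⟩ := (m2_mem_UU _ _).1 hq
          exact Or.inr (Or.inr ⟨g, hqP, hq', m2_cU hP hs hq'⟩)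
        · exact Or.inl ⟨hq, m2_cV s hq⟩
      · exact Or.inr (Or.inl ⟨hq, m2_cd hP hP' hs hq⟩)
    refine ⟨fun q => ⟨fun hq => ⟨?_, m2_cV s hq⟩, fun hq => ?_⟩,
      fun q => ⟨fun hq => ⟨?_, m2_cd hP hP' hs hq⟩, fun hq => ?_⟩,
      fun g p => ⟨fun hq => ⟨?_, m2_cU hP hs (hqP := p.2) hq⟩, fun hq => ?_⟩⟩
    · rw [fs]; simp [hq]
    · rcases hcase q hq.1 with h1 | h1 | ⟨g, hqP, h1, h2⟩
      · exact h1.1
      · rw [hq.2] at h1; simp at h1
      · rw [hq.2] at h2; simp at h2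
    · rw [fs]; exact Finset.mem_union_right _ hq
    · rcases hcase q hq.1 with h1 | h1 | ⟨g, hqP, h1, h2⟩
      · rw [hq.2] at h1; simp at h1
      · exact h1.1
      · rw [hq.2] at h2; simp at h2
    · rw [fs]
      exact Finset.mem_union_left _ (Finset.mem_union_left _ ((m2_mem_UU _ _).2 ⟨g, p.2, hq⟩))
    · rcases hcase p.1 hq.1 with h1 | h1 | ⟨g', hqP, h1, h2⟩
      · rw [hq.2] at h1; simp at h1
      · rw [hq.2] at h1; simp at h1
      · rw [hq.2] at h2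
        simp only [Option.some.injEq] at h2
        rw [h2]
        exact h1
  obtain ⟨a1, a2, a3⟩ := key h f
  obtain ⟨b1, b2, b3⟩ := key h' f'
  have e1 : t.2.1 = t'.2.1 := by
    ext q
    rw [a1, b1]
    constructor
    · rintro ⟨x, y⟩; exact ⟨x, by rw [← hc q x, y]⟩
    · rintro ⟨x, y⟩; exact ⟨x, by rw [hc q x, y]⟩
  have e2 : t.1.primeFactors = t'.1.primeFactors := by
    ext q
    rw [a2, b2]
    constructor
    · rintro ⟨x, y⟩; exact ⟨x, by rw [← hc q x, y]⟩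
    · rintro ⟨x, y⟩; exact ⟨x, by rw [hc q x, y]⟩
  have e3 : t.2.2 = t'.2.2 := by
    funext g
    ext p
    rw [a3, b3]
    constructor
    · rintro ⟨x, y⟩; exact ⟨x, by rw [← hc _ x, y]⟩
    · rintro ⟨x, y⟩; exact ⟨x, by rw [hc _ x, y]⟩
  have e4 : t.1 = t'.1 := by
    rw [← Nat.prod_primeFactors_of_squarefree h.sq, e2, Nat.prod_primeFactors_of_squarefree h'.sq]
  exact Prod.ext e4 (Prod.ext e1 e3)

end

open Classical in
/-- Proof. For a triple `(d, U, V)` in the sum, `m = fp U (∏ V) d` is squarefree, `≤ D`, not divisible by `p1`. For a fixed `m` the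
triple is determined by the function on the prime factors of `m` which says for every `q ∣ m` whether `q ∈ V`, `q ∣ d` or `q ∈ U_h`
(`K + 2` possibilities): `d = ∏ {q : q ∣ d}` since `d` is squarefree. So the sum of `E^(∑|U_h|) k^|V| k^ω(d)` over the triples with
this `m` is at most `∏_{q ∣ m} (k + k + K E) = (K E + 2 k)^ω(m)` (`Finset.prod_univ_sum`, or sum over maps `m.primeFactors → Option (Option
{h // h ∈ H})`). Another way: sum over `d` first, by the inequality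
`∑_{(a, b) : a b = m} α^ω(a) β^ω(b) ≤ (α + β)^ω(m)` for squarefree `m`, used for `V`, for `d` and for every `h ∈ H` in turn. -/
theorem m2 (P H : Finset ℕ) (W p1 k E D D1 r K : ℕ) (P' : Finset ℕ) (DF : ℝ) (rr : ℕ → ℝ)
    (hrr : ∀ m, 0 ≤ rr m) (hP : ∀ p ∈ P, p.Prime ∧ W < p) (hp1 : p1.Prime) (hp1W : p1 ≤ W)
    (hP' : ∀ q ∈ P', q.Prime ∧ W < q) (hK : H.card = K) (hW : 1 ≤ W)
    (hD : DF * (W : ℝ) ^ (r + 1) * D1 ≤ D) (hDF : 0 ≤ DF) :
    ∑ d ∈ Dv P' D1, ∑ V ∈ (Ps W p1).powerset.filter (fun V => V.card ≤ r + 1),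
      ∑ U : Fam P H, (if (∀ h h', h ≠ h' → Disjoint (U h) (U h')) ∧ (∀ h, ∀ p ∈ U h, ¬ p.1 ∣ d) ∧
          (fp U : ℝ) ≤ DF then
        (E : ℝ) ^ (∑ h, (U h).card) * ((k : ℝ) ^ V.card * (k : ℝ) ^ d.primeFactors.card) *
          rr (fp U * (∏ q ∈ V, q) * d) else 0) ≤
      ∑ m ∈ (Icc 1 D).filter (fun m => Squarefree m ∧ ¬ p1 ∣ m),
        ((K * E + 2 * k : ℕ) : ℝ) ^ m.primeFactors.card * rr m := by
  set I : Finset (ℕ × Finset ℕ × Fam P H) :=
    (Dv P' D1 ×ˢ ((Ps W p1).powerset.filter (fun V => V.card ≤ r + 1) ×ˢ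
      (Finset.univ : Finset (Fam P H)))).filter (fun t =>
        (∀ h h', h ≠ h' → Disjoint (t.2.2 h) (t.2.2 h')) ∧ (∀ h, ∀ p ∈ t.2.2 h, ¬ p.1 ∣ t.1) ∧
          (fp t.2.2 : ℝ) ≤ DF) with hI
  have hok : ∀ t ∈ I, m2_ok W p1 P' t ∧ m2_m t ∈
      (Icc 1 D).filter (fun m => Squarefree m ∧ ¬ p1 ∣ m) := by
    intro t ht
    simp only [hI, Finset.mem_filter, Finset.mem_product, Finset.mem_powerset, Dv,
      Finset.mem_Icc, Finset.mem_univ, and_true] at ht
    obtain ⟨⟨⟨⟨hd1, hd2⟩, hd3, hd4⟩, hV1, hV2⟩, hU1, hU2, hU3⟩ := ht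
    have ok : m2_ok W p1 P' t := ⟨hd3, hd4, hV1, hU1, hU2⟩
    obtain ⟨h1, h2⟩ := m2_p1 hP hP' hp1 hp1W ok
    refine ⟨ok, ?_⟩
    rw [Finset.mem_filter, Finset.mem_Icc]
    refine ⟨⟨Nat.pos_of_ne_zero h1.ne_zero, ?_⟩, h1, h2⟩
    have h3 : ((∏ q ∈ t.2.1, q : ℕ) : ℝ) ≤ (W : ℝ) ^ (r + 1) := by
      have h4 : ∏ q ∈ t.2.1, q ≤ W ^ t.2.1.card := by
        refine Finset.prod_le_pow_card _ _ _ fun q hq => ?_
        have h5 := hV1 hq
        simp only [Ps, Finset.mem_filter, Finset.mem_Icc] at h5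
        exact h5.1.2
      have h6 : W ^ t.2.1.card ≤ W ^ (r + 1) := Nat.pow_le_pow_right hW hV2
      exact_mod_cast h4.trans h6
    have h7 : ((m2_m t : ℕ) : ℝ) ≤ D := by
      refine le_trans ?_ hD
      unfold m2_m
      push_cast
      push_cast at h3
      have h8 : (t.1 : ℝ) ≤ D1 := by exact_mod_cast hd2
      have h9 : (0 : ℝ) ≤ ∏ q ∈ t.2.1, (q : ℝ) := Finset.prod_nonneg fun q _ => by positivity
      gcongr
    exact_mod_cast h7
  have step1 : ∑ d ∈ Dv P' D1, ∑ V ∈ (Ps W p1).powerset.filter (fun V => V.card ≤ r + 1),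
      ∑ U : Fam P H, (if (∀ h h', h ≠ h' → Disjoint (U h) (U h')) ∧ (∀ h, ∀ p ∈ U h, ¬ p.1 ∣ d) ∧
          (fp U : ℝ) ≤ DF then
        (E : ℝ) ^ (∑ h, (U h).card) * ((k : ℝ) ^ V.card * (k : ℝ) ^ d.primeFactors.card) *
          rr (fp U * (∏ q ∈ V, q) * d) else 0) =
      ∑ t ∈ I, (E : ℝ) ^ (∑ h, (t.2.2 h).card) *
        ((k : ℝ) ^ t.2.1.card * (k : ℝ) ^ t.1.primeFactors.card) * rr (m2_m t) := by
    rw [hI, Finset.sum_filter, Finset.sum_product]
    refine Finset.sum_congr rfl fun d _ => ?_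
    rw [Finset.sum_product]
    rfl
  rw [step1, ← Finset.sum_fiberwise_of_maps_to (g := m2_m) (fun t ht => (hok t ht).2)]
  refine Finset.sum_le_sum fun m hm => ?_
  have step2 : ∑ t ∈ I.filter (fun t => m2_m t = m), (E : ℝ) ^ (∑ h, (t.2.2 h).card) *
        ((k : ℝ) ^ t.2.1.card * (k : ℝ) ^ t.1.primeFactors.card) * rr (m2_m t) =
      (∑ t ∈ I.filter (fun t => m2_m t = m), ∏ q ∈ m.primeFactors, m2_w H k E (m2_c t q)) * rr m := by
    rw [Finset.sum_mul]
    refine Finset.sum_congr rfl fun t ht => ?_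
    rw [Finset.mem_filter] at ht
    rw [← m2_wt hP hP' k E (hok t ht.1).1, ht.2]
  rw [step2]
  refine mul_le_mul_of_nonneg_right ?_ (hrr m)
  rw [← m2_w_sum H k E K hK]
  refine m2_col _ _ _ _ (fun x => ?_) fun t ht t' ht' hc => ?_
  · rcases x with _ | _ | _ <;> simp only [m2_w] <;> positivity
  · rw [Finset.mem_filter] at ht ht'
    exact m2_inj hP hP' m (hok t ht.1).1 (hok t' ht'.1).1 ht.2 ht'.2 hc

end Pool.Agent.Lib.H57C
end

-- from Lib.H57C.X1
section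

/-!
# Chunk X1: expansion of the one form functions
-/

open Finset

namespace Pool.Agent.Lib.H57C

open Pool.Agent.Lib.H15P

/-- Coefficients of `TT`. -/
noncomputable def x1_g {α : Type} (m : ℕ) (T : Finset α) : ℝ :=
  if T.card ≤ m then (-1 : ℝ) ^ T.card else 0

theorem x1_g_abs {α : Type} (m : ℕ) (T : Finset α) : |x1_g m T| ≤ 1 := by
  unfold x1_g
  split_ifs
  · rw [abs_pow, abs_neg, abs_one, one_pow]
  · simp

theorem x1_TT {α : Type} [DecidableEq α] (r : ℕ) (A : Finset α) :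
    ∑ T ∈ A.powerset, x1_g (2 * r) T = TT r A.card := by
  have h := Finset.sum_powerset_apply_card (x := A) (fun l => if l ≤ 2 * r then (-1 : ℝ) ^ l else 0)
  have h1 : ∑ T ∈ A.powerset, x1_g (2 * r) T =
      ∑ T ∈ A.powerset, (fun l => if l ≤ 2 * r then (-1 : ℝ) ^ l else 0) T.card := rfl
  rw [h1, h]
  unfold TT
  have e1 : ∑ m ∈ range (A.card + 1), A.card.choose m • (if m ≤ 2 * r then (-1 : ℝ) ^ m else 0) =
      ∑ m ∈ range (A.card + 1 + (2 * r + 1)), (if m ≤ 2 * r then (-1 : ℝ) ^ m * (A.card.choose m : ℝ) else 0) := by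
    rw [Finset.sum_range_add _ (A.card + 1) (2 * r + 1)]
    have : ∑ x ∈ range (2 * r + 1), (if A.card + 1 + x ≤ 2 * r then
        (-1 : ℝ) ^ (A.card + 1 + x) * (A.card.choose (A.card + 1 + x) : ℝ) else 0) = 0 := by
      refine Finset.sum_eq_zero fun x _ => ?_
      rw [Nat.choose_eq_zero_of_lt (by omega)]
      simp
    rw [this, add_zero]
    refine Finset.sum_congr rfl fun m _ => ?_
    split_ifs
    · rw [nsmul_eq_mul, mul_comm]
    · simp
  have e2 : ∑ m ∈ range (2 * r + 1), (-1 : ℝ) ^ m * (A.card.choose m : ℝ) =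
      ∑ m ∈ range (2 * r + 1 + (A.card + 1)), (if m ≤ 2 * r then (-1 : ℝ) ^ m * (A.card.choose m : ℝ) else 0) := by
    rw [Finset.sum_range_add _ (2 * r + 1) (A.card + 1)]
    have : ∑ x ∈ range (A.card + 1), (if 2 * r + 1 + x ≤ 2 * r then
        (-1 : ℝ) ^ (2 * r + 1 + x) * (A.card.choose (2 * r + 1 + x) : ℝ) else 0) = 0 := by
      refine Finset.sum_eq_zero fun x _ => ?_
      rw [if_neg (by omega)]
    rw [this, add_zero]
    refine Finset.sum_congr rfl fun m hm => ?_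
    rw [Finset.mem_range] at hm
    rw [if_pos (by omega)]
  rw [e1, e2, add_comm (A.card + 1)]

/-- Proof. `TT r s = ∑_{l ≤ 2r} (-1)^l (s choose l)`, so for a block `b`
`TT r |A_b| = ∑_{T ⊆ A} g_b(T)` with `g_b(T) = (-1)^|T|` if all elements of `T` are in the block `b` and `|T| ≤ 2r`, and
`0` otherwise; the product of the primes of such a `T` is at most `(XB b)^|T| ≤ (1 + XB b)^(2r)` (every prime of the block
is `≤ XB b`). The last factor `(TT r0 |A_i| - τ)/(1 - τ)` has the coefficient `1` at `∅` and `± 1/(1 - τ)`, at most `2` in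
absolute value, at the other `T`. A product over different blocks: the coefficient of `T` is the product of the coefficients
of the parts `T ∩ block b` (show by induction over the blocks: if `G` and `G'` have expansions with coefficients supported
on the subsets of `B` resp. `B'`, `B` and `B'` disjoint, then `G G'` has the coefficients `g(T ∩ B) g'(T ∩ B')`,
`T ⊆ B ∪ B'`). So the coefficients of `DB` are at most `2` and the products of primes at most
`∏_{b ∈ [i, N)} (1 + XB b)^(2 (r0 + b - i))`. -/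
theorem ex1_DB (P : Finset ℕ) (hP : ∀ p ∈ P, p.Prime) (q : {p // p ∈ P} → ℝ)
    (blk : {p // p ∈ P} → ℕ) (r0 N i : ℕ) (hi : i < N) (ht0 : 0 ≤ tau q blk r0 i)
    (ht1 : tau q blk r0 i ≤ 1 / 2) (D : ℝ)
    (hD : ∏ b ∈ Ico i N, (1 + XB (fun i : {p // p ∈ P} => i.1) blk b) ^ (2 * (r0 + (b - i))) ≤ D) :
    Ex1 P (fun A => DB q blk r0 N i A) 2 D := by
  classical
  set τ := tau q blk r0 i with hτ
  have hτ1 : (0 : ℝ) < 1 - τ := by linarith
  -- coefficients of the blocks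
  set c : ℕ → Finset {p // p ∈ P} → ℝ := fun b T =>
    if b = i then (x1_g (2 * r0) T - (if T = ∅ then τ else 0)) / (1 - τ)
    else x1_g (2 * (r0 + (b - i))) T with hc
  have hcsum : ∀ (b : ℕ) (A : Finset {p // p ∈ P}), ∑ T ∈ A.powerset, c b T =
      if b = i then (TT r0 A.card - τ) / (1 - τ) else TT (r0 + (b - i)) A.card := by
    intro b A
    by_cases hb : b = i
    · simp only [hc, if_pos hb]
      rw [← Finset.sum_div, Finset.sum_sub_distrib, x1_TT]
      congr 2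
      rw [Finset.sum_ite_eq' , if_pos (Finset.empty_mem_powerset A)]
    · simp only [hc, if_neg hb]
      exact x1_TT _ _
  have hcabs : ∀ b T, |c b T| ≤ if b = i then 2 else 1 := by
    intro b T
    by_cases hb : b = i
    · simp only [hc, if_pos hb]
      rw [abs_div, abs_of_pos hτ1, div_le_iff₀ hτ1]
      by_cases hT : T = ∅
      · subst hT
        rw [if_pos rfl]
        have : x1_g (2 * r0) (∅ : Finset {p // p ∈ P}) = 1 := by
          unfold x1_g
          simp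
        rw [this, abs_of_pos hτ1]
        linarith
      · rw [if_neg hT, sub_zero]
        have := x1_g_abs (2 * r0) T
        linarith
    · simp only [hc, if_neg hb]
      exact x1_g_abs _ _
  have hcsupp : ∀ b T, c b T ≠ 0 → T.card ≤ 2 * (r0 + (b - i)) := by
    intro b T h
    by_contra hcard
    apply h
    by_cases hb : b = i
    · simp only [hc, if_pos hb]
      have hT : T ≠ ∅ := by
        rintro rfl
        simp at hcard
      have : x1_g (2 * r0) T = 0 := by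
        unfold x1_g
        rw [if_neg]
        rw [hb] at hcard
        simpa using hcard
      rw [if_neg hT, this]
      simp
    · simp only [hc, if_neg hb]
      unfold x1_g
      rw [if_neg hcard]
  refine ⟨fun T => if ∀ p ∈ T, blk p ∈ Ico i N then ∏ b ∈ Ico i N, c b (AB blk b T) else 0,
    ?_, ?_, ?_⟩
  · intro A
    have hdisj : ∀ a ∈ Ico i N, ∀ b ∈ Ico i N, a ≠ b → Disjoint (AB blk a A) (AB blk b A) := by
      intro a _ b _ hab
      rw [Finset.disjoint_left]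
      intro x hx hx'
      unfold AB at hx hx'
      exact hab ((Finset.mem_filter.1 hx).2.symm.trans (Finset.mem_filter.1 hx').2)
    have h1 := bh1_rep (fun b => AB blk b A) (Ico i N) hdisj c (fun _ => 1)
    have hbU : (Ico i N).biUnion (fun b => AB blk b A) = A.filter (fun p => blk p ∈ Ico i N) := by
      ext x
      simp only [Finset.mem_biUnion, AB, Finset.mem_filter]
      constructor
      · rintro ⟨b, hb, hx, hxb⟩
        exact ⟨hx, hxb ▸ hb⟩
      · rintro ⟨hx, hb⟩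
        exact ⟨blk x, hb, hx, rfl⟩
    rw [hbU] at h1
    have h2 : ∏ b ∈ Ico i N, Sieve.poly (c b) (fun _ => 1) (AB blk b A) = DB q blk r0 N i A := by
      have e : ∀ b, Sieve.poly (c b) (fun _ => 1) (AB blk b A) =
          if b = i then (TT r0 (AB blk b A).card - τ) / (1 - τ) else TT (r0 + (b - i)) (AB blk b A).card := by
        intro b
        rw [← hcsum b]
        unfold Sieve.poly
        simp
      rw [Finset.prod_congr rfl fun b _ => e b]
      unfold DB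
      rw [← Finset.insert_Ico_add_one_left_eq_Ico hi, Finset.prod_insert (by simp), if_pos rfl, mul_comm]
      congr 1
      refine Finset.prod_congr rfl fun b hb => ?_
      rw [if_neg]
      rw [Finset.mem_Ico] at hb
      omega
    simp only
    rw [← h2, ← h1]
    symm
    have h3 : ∑ T ∈ A.powerset, (if ∀ p ∈ T, blk p ∈ Ico i N then ∏ b ∈ Ico i N, c b (AB blk b T) else 0) =
        ∑ T ∈ (A.filter (fun p => blk p ∈ Ico i N)).powerset, ∏ b ∈ Ico i N, c b (AB blk b T) := by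
      rw [← Finset.sum_filter]
      refine Finset.sum_congr ?_ fun _ _ => rfl
      ext T
      simp only [Finset.mem_filter, Finset.mem_powerset, Finset.subset_iff]
      constructor
      · rintro ⟨h1, h2⟩ x hx
        exact ⟨h1 hx, h2 x hx⟩
      · intro h
        exact ⟨fun x hx => (h hx).1, fun x hx => (h hx).2⟩
    rw [h3]
    refine Finset.sum_congr rfl fun T hT => ?_
    rw [Finset.prod_const_one, mul_one]
    refine Finset.prod_congr rfl fun b _ => ?_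
    congr 1
    rw [Finset.mem_powerset] at hT
    ext x
    simp only [AB, Finset.mem_filter, Finset.mem_inter]
    constructor
    · rintro ⟨h1, h2⟩
      exact ⟨h1, (Finset.mem_filter.1 (hT h1)).1, h2⟩
    · rintro ⟨h1, _, h2⟩
      exact ⟨h1, h2⟩
  · intro T
    simp only
    split_ifs with h
    · rw [Finset.abs_prod]
      calc ∏ b ∈ Ico i N, |c b (AB blk b T)| ≤ ∏ b ∈ Ico i N, (if b = i then (2 : ℝ) else 1) :=
            Finset.prod_le_prod (fun _ _ => abs_nonneg _) fun b _ => hcabs b _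
        _ ≤ 2 := by
            rw [Finset.prod_ite_eq' ]
            rw [if_pos (Finset.mem_Ico.2 ⟨le_refl i, hi⟩)]
    · simp
  · intro T hT
    simp only at hT
    by_cases h : ∀ p ∈ T, blk p ∈ Ico i N
    · rw [if_pos h] at hT
      have h1 := Finset.prod_ne_zero_iff.1 hT
      have hX0 : ∀ b, 0 ≤ XB (fun i : {p // p ∈ P} => i.1) blk b := fun b =>
        Finset.sum_nonneg fun _ _ => Nat.cast_nonneg _
      have h2 : ∏ p ∈ T, (p.1 : ℝ) = ∏ b ∈ Ico i N, ∏ p ∈ AB blk b T, (p.1 : ℝ) := by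
        unfold AB
        exact (Finset.prod_fiberwise_of_maps_to h _).symm
      rw [h2]
      refine le_trans (Finset.prod_le_prod (fun b _ => Finset.prod_nonneg fun _ _ => Nat.cast_nonneg _)
        fun b hb => ?_) hD
      calc ∏ p ∈ AB blk b T, (p.1 : ℝ) ≤
            ∏ p ∈ AB blk b T, (1 + XB (fun i : {p // p ∈ P} => i.1) blk b) := by
            refine Finset.prod_le_prod (fun _ _ => Nat.cast_nonneg _) fun p hp => ?_
            unfold AB at hp
            have hpb := (Finset.mem_filter.1 hp).2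
            have : (p.1 : ℝ) ≤ XB (fun i : {p // p ∈ P} => i.1) blk b := by
              unfold XB
              exact Finset.single_le_sum (f := fun i : {p // p ∈ P} => (i.1 : ℝ))
                (fun _ _ => Nat.cast_nonneg _) (Finset.mem_filter.2 ⟨Finset.mem_univ p, hpb⟩)
            linarith
        _ = (1 + XB (fun i : {p // p ∈ P} => i.1) blk b) ^ (AB blk b T).card := Finset.prod_const _
        _ ≤ (1 + XB (fun i : {p // p ∈ P} => i.1) blk b) ^ (2 * (r0 + (b - i))) :=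
            pow_le_pow_right₀ (by linarith [hX0 b]) (hcsupp b _ (h1 b hb))
    · rw [if_neg h] at hT
      exact absurd rfl hT

end Pool.Agent.Lib.H57C
end

-- from Lib.H59C.CS1
section

/-!
# CS1: the first term of the weighted sieve
-/

open Finset

namespace Pool.Agent.Lib.H59C


theorem lg_nonneg (p : ℕ) : 0 ≤ lg p := by
  unfold lg
  exact Real.log_natCast_nonneg p

theorem XX_nonneg (y1 y2 : ℕ) : 0 ≤ XX y1 y2 := by
  unfold XX
  exact sum_nonneg fun p _ => lg_nonneg p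



end Pool.Agent.Lib.H59C
end
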