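import Pool.Agent.Lib.H1M.RV2.M031
import Pool.Agent.Lib.H1M.RV2.M032

/-! Merged copies (to shorten the build) of Lib.H57C.RA, Lib.H57C.X3, Lib.H57C.X4, Lib.H59C.CCV, Lib.H59C.CRP, Lib.H59C.CTI, Lib.H59C.CP2. -/

-- from Lib.H57C.RA
section

/-!
# Chunk RA: the bad classes and the target classes of part (i)
-/

open Finset

namespace Pool.Agent.Lib.H57C

open Pool.Agent.Lib.H57M

theorem RA_res {q c h : ℕ} (hc : c < q) (hd : q ∣ c + h) : (q - h % q) % q = c := by
  have hq : 0 < q := by omega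
  have hr : h % q < q := Nat.mod_lt _ hq
  have h1 : q ∣ c + h % q := by
    have h2 : c + h = (c + h % q) + q * (h / q) := by
      have := Nat.mod_add_div h q
      omega
    rw [h2] at hd
    exact (Nat.dvd_add_left (Dvd.intro _ rfl)).1 hd
  obtain ⟨k, hk⟩ := h1
  have hk2 : k < 2 := by
    by_contra hcon
    have : q * 2 ≤ q * k := Nat.mul_le_mul_left q (by omega)
    omega
  interval_cases k
  · have : h % q = 0 := by omega
    have hc0 : c = 0 := by omega
    rw [this, hc0, Nat.sub_zero, Nat.mod_self]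
  · have h3 : q - h % q = c := by omega
    rw [h3, Nat.mod_eq_of_lt hc]

/-- At most `K + 1` bad classes: those of `-h`, `h ∈ H`, and `N`. -/
theorem rb_card (N : ℕ) (H : Finset ℕ) (q : ℕ) (hq : q.Prime) :
    (Rb N H q).card ≤ H.card + 1 := by
  classical
  have h1 : Rb N H q ⊆ insert (N % q) (H.image (fun h => (q - h % q) % q)) := by
    intro c hc
    unfold Rb at hc
    rw [mem_filter, mem_range] at hc
    obtain ⟨hcq, h2 | h2⟩ := hc
    · obtain ⟨h, hh, hd⟩ := h2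
      exact mem_insert_of_mem (mem_image.2 ⟨h, hh, RA_res hcq hd⟩)
    · rw [mem_insert]
      left
      have h3 : c % q = N % q := h2
      rwa [Nat.mod_eq_of_lt hcq] at h3
  refine (card_le_card h1).trans ((card_insert_le _ _).trans ?_)
  have := card_image_le (s := H) (f := fun h => (q - h % q) % q)
  omega

/-- Proof. `Rk`: `rb_card`; `Rq`: `Pre.nf`; `RH`: definition of `Rb`; `P'p`: definition of `Pg`; `T q = {N % q}`; `TH`: `q ∈ Pg` does not
divide `N + h`. -/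
theorem pre_hrt (B cF : ℕ) (θ : ℝ) {K : ℕ} (w : Par K) (H : Finset ℕ) (N p1 : ℕ)
    (h : Pre B cF θ w H N p1) :
    HRT K 1 w.W p1 H (Rb N H) (fun q => {N % q}) (Pg N w.W H) := by
  have hPs : ∀ q ∈ Ps w.W p1, q.Prime := by
    intro q hq
    unfold Ps at hq
    exact (mem_filter.1 hq).2.1
  have hPg : ∀ q ∈ Pg N w.W H, q.Prime ∧ w.W < q ∧ ∀ h ∈ H, ¬ q ∣ N + h := by
    intro q hq
    unfold Pg at hq
    rw [mem_filter, mem_Ioc] at hq
    exact ⟨hq.2.1, hq.1.1, hq.2.2⟩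
  refine ⟨fun q => filter_subset _ _, fun q hq => ?_, fun q hq => h.nf q (hPs q hq), ?_,
    fun q hq => ⟨(hPg q hq).1, (hPg q hq).2.1⟩, fun q hq => ?_, fun q hq => ?_, ?_⟩
  · have h1 := rb_card N H q (hPs q hq)
    rwa [h.cardH] at h1
  · intro q hq h' hh' c hc hd
    unfold Rb
    rw [mem_filter, mem_range]
    exact ⟨hc, Or.inl ⟨h', hh', hd⟩⟩
  · intro t ht
    have h1 : t = N % q := by simpa using ht
    rw [h1, mem_range]
    exact Nat.mod_lt _ (hPg q hq).1.pos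
  · simp
  · intro q hq t ht h' hh' hd
    have h1 : t = N % q := by simpa using ht
    rw [h1] at hd
    apply (hPg q hq).2.2 h' hh'
    have h2 : N + h' = (N % q + h') + q * (N / q) := by
      have := Nat.mod_add_div N q
      omega
    rw [h2]
    exact Dvd.dvd.add hd (Dvd.intro _ rfl)

/-- `T q = {N % q}`: `inT T d t` iff `d ∣ N - t`, for squarefree `d` and `t ≤ N`. -/
theorem inT_iff (N d t : ℕ) (hd : Squarefree d) (ht : t ≤ N) :
    inT (fun q => {N % q}) d t ↔ d ∣ N - t := by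
  unfold inT
  have h1 : ∀ q : ℕ, t % q ∈ ({N % q} : Finset ℕ) ↔ q ∣ N - t := by
    intro q
    rw [mem_singleton]
    exact (Nat.modEq_iff_dvd' ht)
  simp only [h1]
  constructor
  · intro h
    rw [← Nat.prod_primeFactors_of_squarefree hd]
    exact Finset.prod_primes_dvd _ (fun p hp => (Nat.prime_of_mem_primeFactors hp).prime)
      (fun p hp => h p hp)
  · intro h q hq
    exact (Nat.dvd_of_mem_primeFactors hq).trans h

/-- `∏_{q ∣ d} 1/(q - 1) = 1/φ(d)` for squarefree `d`. -/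
theorem prod_gq (d : ℕ) (hd : Squarefree d) :
    ∏ q ∈ d.primeFactors, H59C.gq q = 1 / (Nat.totient d : ℝ) := by
  have h0 : 0 < d := Nat.pos_of_ne_zero hd.ne_zero
  have h1 := Nat.totient_mul_prod_primeFactors d
  rw [Nat.prod_primeFactors_of_squarefree hd, mul_comm d] at h1
  have h2 := Nat.eq_of_mul_eq_mul_right h0 h1
  rw [h2]
  push_cast
  unfold H59C.gq
  rw [Finset.prod_div_distrib, Finset.prod_const_one]
  congr 1
  refine Finset.prod_congr rfl fun q hq => ?_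
  rw [Nat.cast_sub (Nat.prime_of_mem_primeFactors hq).one_le, Nat.cast_one]

end Pool.Agent.Lib.H57C
end

-- from Lib.H57C.X3
section

/-!
# Chunk X3: expansion of the weight function `L`
-/

open Finset

namespace Pool.Agent.Lib.H57C

open Pool.Agent.Lib.H15P Pool.Agent.Lib.H92G Pool.Agent.Lib.H57M

/-- The coefficients of the factor with label `o`. -/
noncomputable def x3_e {ι I : Type} [DecidableEq ι] (g : I → Finset ι → ℝ) : Option I → Finset ι → ℝ
  | none, T => if T = ∅ then 1 else 0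
  | some i, T => g i T

/-- The level of the factor with label `o`. -/
noncomputable def x3_lv {I : Type} (lvs : I → ℝ) : Option I → ℝ
  | none => 1
  | some i => lvs i

theorem x3_prod_lv {J I : Type} [Fintype J] [DecidableEq J] [Fintype I] [DecidableEq I] (lvs : I → ℝ)
    (l : J → Option I) : ∏ j, x3_lv lvs (l j) = ∏ i, lvs i ^ cnt l i := by
  rw [← Finset.prod_fiberwise univ l (fun j => x3_lv lvs (l j)), Fintype.prod_option]
  have h1 : ∏ j ∈ univ.filter (fun j => l j = none), x3_lv lvs (l j) = 1 := by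
    refine Finset.prod_eq_one fun j hj => ?_
    rw [(Finset.mem_filter.1 hj).2]
    rfl
  rw [h1, one_mul]
  refine Finset.prod_congr rfl fun i _ => ?_
  have h2 : ∏ j ∈ univ.filter (fun j => l j = some i), x3_lv lvs (l j) =
      ∏ j ∈ univ.filter (fun j => l j = some i), lvs i := by
    refine Finset.prod_congr rfl fun j hj => ?_
    rw [(Finset.mem_filter.1 hj).2]
    rfl
  rw [h2, Finset.prod_const]
  rfl

theorem x3_adm {J I : Type} [Fintype J] [DecidableEq J] [Fintype I] [DecidableEq I]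
    {B : Finset J} {m : I → ℕ} {l : J → Option I} (hl : l ∈ adm B m) (i : I) : cnt l i ≤ m i :=
  (Finset.mem_filter.1 hl).2.2 i

/-- Proof. `w.L S = ∑_{l ∈ adm univ m} ∏_j dg D j (l j) (S j)` (`Par.L`, `LG`, `LW`, `dg`). The factor with label `none` is
`1 = ∑_{T ⊆ A} 1[T = ∅]`, the factor with label `some i` is `D i A = ∑_{T ⊆ A} g_i(T)`, `|g_i| ≤ C`. Multiply out
(`Finset.prod_univ_sum` over `Fintype.piFinset (fun j => (S j).powerset)`): for every `l` the coefficient of `U : J → Finset`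
is a product of `K` factors, each at most `C` in absolute value (`1 ≤ C`), there are at most `(n + 1)^K` labelings
(`Fintype.card (J → Option (Fin n))`); and if it is not `0` then
`∏_j ∏_{p ∈ U_j} p ≤ ∏_{j : l j = some i} lvs i = ∏_i (lvs i)^(cnt l i) ≤ ∏_i (lvs i)^(m i)` (`lvs ≥ 1`, `adm`).
`E = 1`: `(1:ℝ)^_ = 1`. -/
theorem exJ_L {K : ℕ} (w : Par K) (C : ℝ) (hC : 1 ≤ C) (lvs : Fin w.n → ℝ)
    (h1 : ∀ i, 1 ≤ lvs i) (hE : ∀ i, Ex1 w.P (w.D i) C (lvs i))
    (J : Type) [Fintype J] [DecidableEq J] (hJ : Fintype.card J = K) :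
    ExJ w.P (fun S : J → Finset {p // p ∈ w.P} => w.L S)
      ((((w.n : ℝ) + 1) * C) ^ K) 1 (∏ i, lvs i ^ w.m i) := by
  choose g hg1 hg2 hg3 using hE
  have hdg : ∀ (j : J) (o : Option (Fin w.n)) (A : Finset {p // p ∈ w.P}),
      dg (fun _ : J => w.D) j o A = ∑ T ∈ A.powerset, x3_e g o T := by
    intro j o A
    cases o with
    | none =>
      show (1 : ℝ) = ∑ T ∈ A.powerset, (if T = ∅ then 1 else 0)
      rw [Finset.sum_ite_eq' A.powerset ∅ (fun _ => (1 : ℝ))]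
      simp
    | some i => exact hg1 i A
  have heb : ∀ (o : Option (Fin w.n)) (T : Finset {p // p ∈ w.P}), |x3_e g o T| ≤ C := by
    intro o T
    cases o with
    | none =>
      show |(if T = ∅ then (1 : ℝ) else 0)| ≤ C
      split_ifs
      · simpa using hC
      · simpa using le_trans zero_le_one hC
    | some i => exact hg2 i T
  have hel : ∀ (o : Option (Fin w.n)) (T : Finset {p // p ∈ w.P}), x3_e g o T ≠ 0 →
      (∏ p ∈ T, (p.1 : ℝ)) ≤ x3_lv lvs o := by
    intro o T h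
    cases o with
    | none =>
      have hT : T = ∅ := by
        by_contra hT
        exact h (if_neg hT)
      subst hT
      simp [x3_lv]
    | some i => exact hg3 i T h
  refine ⟨fun U => ∑ l ∈ adm univ w.m, ∏ j, x3_e g (l j) (U j), ?_, ?_, ?_⟩
  · intro S
    have e1 : (∑ U : J → Finset {p // p ∈ w.P},
        if ∀ j, U j ⊆ S j then ∑ l ∈ adm univ w.m, ∏ j, x3_e g (l j) (U j) else 0) =
        ∑ U ∈ Fintype.piFinset (fun j => (S j).powerset), ∑ l ∈ adm univ w.m, ∏ j, x3_e g (l j) (U j) := by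
      rw [← Finset.sum_filter]
      refine Finset.sum_congr ?_ fun _ _ => rfl
      ext U
      simp [Fintype.mem_piFinset]
    rw [e1, Finset.sum_comm]
    show LW (fun _ : J => w.D) (adm univ w.m) (fun _ => 1) S = _
    unfold LW
    refine Finset.sum_congr rfl fun l _ => ?_
    rw [one_mul]
    have e2 : ∏ j, dg (fun _ : J => w.D) j (l j) (S j) = ∏ j, ∑ T ∈ (S j).powerset, x3_e g (l j) T :=
      Finset.prod_congr rfl fun j _ => hdg j (l j) (S j)
    rw [e2, Finset.prod_univ_sum]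
  · intro U
    have hn : (0 : ℝ) ≤ (w.n : ℝ) + 1 := by positivity
    have hC0 : (0 : ℝ) ≤ C := by linarith
    calc |∑ l ∈ adm univ w.m, ∏ j, x3_e g (l j) (U j)| ≤ ∑ l ∈ adm univ w.m, |∏ j, x3_e g (l j) (U j)| :=
          Finset.abs_sum_le_sum_abs _ _
      _ ≤ ∑ l ∈ adm univ w.m, C ^ K := by
          refine Finset.sum_le_sum fun l _ => ?_
          rw [Finset.abs_prod]
          calc ∏ j, |x3_e g (l j) (U j)| ≤ ∏ _j : J, C :=
                Finset.prod_le_prod (fun _ _ => abs_nonneg _) fun j _ => heb (l j) (U j)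
            _ = C ^ K := by rw [Finset.prod_const, Finset.card_univ, hJ]
      _ = ((adm univ w.m : Finset (J → Option (Fin w.n))).card : ℝ) * C ^ K := by
          rw [Finset.sum_const, nsmul_eq_mul]
      _ ≤ ((w.n : ℝ) + 1) ^ K * C ^ K := by
          refine mul_le_mul_of_nonneg_right ?_ (pow_nonneg hC0 K)
          have hc : (adm univ w.m : Finset (J → Option (Fin w.n))).card ≤ (w.n + 1) ^ K := by
            calc (adm univ w.m : Finset (J → Option (Fin w.n))).card ≤ Fintype.card (J → Option (Fin w.n)) :=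
                  Finset.card_le_univ _
              _ = (w.n + 1) ^ K := by simp [hJ]
          exact_mod_cast hc
      _ = (((w.n : ℝ) + 1) * C) ^ K * ((1 : ℕ) : ℝ) ^ (∑ j, (U j).card) := by
          rw [mul_pow]; simp
  · intro U hU
    obtain ⟨l, hl, hne⟩ := Finset.exists_ne_zero_of_sum_ne_zero hU
    have hl2 := x3_adm hl
    calc (∏ j, ∏ p ∈ U j, (p.1 : ℝ)) ≤ ∏ j, x3_lv lvs (l j) := by
          refine Finset.prod_le_prod (fun j _ => Finset.prod_nonneg fun p _ => by positivity) fun j _ => ?_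
          exact hel (l j) (U j) (Finset.prod_ne_zero_iff.1 hne j (Finset.mem_univ j))
      _ = ∏ i, lvs i ^ cnt l i := x3_prod_lv lvs l
      _ ≤ ∏ i, lvs i ^ w.m i := by
          refine Finset.prod_le_prod (fun i _ => pow_nonneg (by linarith [h1 i]) _) fun i _ => ?_
          exact pow_le_pow_right₀ (h1 i) (hl2 i)

end Pool.Agent.Lib.H57C
end

-- from Lib.H57C.X4
section

/-!
# Chunk X4: expansion of a square
-/

open Finset

namespace Pool.Agent.Lib.H57C

open Pool.Agent.Lib.H15P Pool.Agent.Lib.H92G Pool.Agent.Lib.H57M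

theorem x4_card {α : Type} [Fintype α] [DecidableEq α] (V : Finset α) :
    ((univ : Finset (Finset α × Finset α)).filter (fun x => x.1 ∪ x.2 = V)).card ≤ 3 ^ V.card := by
  have h1 : (V.powerset.sigma (fun A => A.powerset)).card = 3 ^ V.card := by
    rw [Finset.card_sigma]
    simp only [Finset.card_powerset]
    have := Finset.prod_one_add (f := fun _ : α => (2 : ℕ)) V
    simp only [Finset.prod_const] at this
    rw [← this]
  rw [← h1]
  refine Finset.card_le_card_of_injOn (fun x => ⟨x.1, x.1 ∩ x.2⟩) ?_ ?_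
  · intro x hx
    have hx' := (Finset.mem_filter.1 (Finset.mem_coe.1 hx)).2
    refine Finset.mem_coe.2 (Finset.mem_sigma.2 ⟨?_, ?_⟩)
    · rw [Finset.mem_powerset, ← hx']
      exact Finset.subset_union_left
    · rw [Finset.mem_powerset]
      exact Finset.inter_subset_left
  · rintro ⟨A, B⟩ hx ⟨A', B'⟩ hx' h
    have e1 := (Finset.mem_filter.1 (Finset.mem_coe.1 hx)).2
    have e2 := (Finset.mem_filter.1 (Finset.mem_coe.1 hx')).2
    simp only [Sigma.mk.injEq] at h e1 e2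
    obtain ⟨h1, h2⟩ := h
    subst h1
    have h3 := eq_of_heq h2
    congr 1
    ext y
    have f1 := Finset.ext_iff.1 h3 y
    have f2 := Finset.ext_iff.1 (e1.trans e2.symm) y
    simp only [Finset.mem_inter, Finset.mem_union] at f1 f2
    tauto

theorem x4_cardJ {J α : Type} [Fintype J] [DecidableEq J] [Fintype α] [DecidableEq α]
    (V : J → Finset α) :
    ∑ U : J → Finset α, ∑ U' : J → Finset α, (if ∀ j, U j ∪ U' j = V j then (1 : ℝ) else 0) ≤
      3 ^ (∑ j, (V j).card) := by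
  classical
  rw [← Finset.sum_product', ← Finset.prod_pow_eq_pow_sum]
  have h1 : ∑ x ∈ (univ : Finset (J → Finset α)) ×ˢ (univ : Finset (J → Finset α)),
      (if ∀ j, x.1 j ∪ x.2 j = V j then (1 : ℝ) else 0) =
      ((Fintype.piFinset (fun j => (univ : Finset (Finset α × Finset α)).filter
        (fun x => x.1 ∪ x.2 = V j))).card : ℝ) := by
    rw [Finset.sum_boole]
    congr 1
    refine Finset.card_nbij' (fun x j => (x.1 j, x.2 j)) (fun y => (fun j => (y j).1, fun j => (y j).2))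
      ?_ ?_ ?_ ?_
    · intro x hx
      have hx' := (Finset.mem_filter.1 (Finset.mem_coe.1 hx)).2
      refine Finset.mem_coe.2 (Fintype.mem_piFinset.2 fun j => ?_)
      rw [Finset.mem_filter]
      exact ⟨Finset.mem_univ _, hx' j⟩
    · intro y hy
      have hy' := Fintype.mem_piFinset.1 (Finset.mem_coe.1 hy)
      refine Finset.mem_coe.2 (Finset.mem_filter.2 ⟨by simp, fun j => ?_⟩)
      exact (Finset.mem_filter.1 (hy' j)).2
    · intro x _
      rfl
    · intro y _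
      rfl
  rw [h1, Fintype.card_piFinset]
  push_cast
  refine Finset.prod_le_prod (fun j _ => by positivity) fun j _ => ?_
  exact_mod_cast x4_card (V j)

/-- Proof. `F(S)^2 = ∑_{U, U' ⊆ S} c(U) c(U')`; the new coefficient of `V` is `a ∑_{U ∪ U' = V} c(U) c(U')` (union for
every `j`). The number of the pairs with union `V` is `∏_j 3^|V_j|` (every element of `V_j` is in `U_j` only, in `U'_j` only, or
in both), and `∏_{V} p ≤ ∏_U p ∏_{U'} p ≤ D^2` (primes are `≥ 1`). -/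
theorem exJ_sq {J : Type} [Fintype J] [DecidableEq J] (P : Finset ℕ) (hP : ∀ p ∈ P, p.Prime)
    (F : (J → Finset {p // p ∈ P}) → ℝ) (C D : ℝ) (hC : 0 ≤ C) (hD : 0 ≤ D)
    (h : ExJ P F C 1 D) (a : ℝ) (ha0 : 0 ≤ a) (ha : a ≤ 1) :
    ExJ P (fun S => a * F S ^ 2) (C ^ 2) 3 (D ^ 2) := by
  obtain ⟨c, h1, h2, h3⟩ := h
  have h2' : ∀ U, |c U| ≤ C := by
    intro U
    have := h2 U
    simpa using this
  refine ⟨fun V => a * ∑ U : J → Finset {p // p ∈ P}, ∑ U' : J → Finset {p // p ∈ P},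
    if ∀ j, U j ∪ U' j = V j then c U * c U' else 0, ?_, ?_, ?_⟩
  · intro S
    simp only
    rw [h1 S, sq, Finset.sum_mul_sum]
    have e1 : ∀ V : J → Finset {p // p ∈ P},
        (if ∀ j, V j ⊆ S j then a * ∑ U : J → Finset {p // p ∈ P}, ∑ U' : J → Finset {p // p ∈ P},
          (if ∀ j, U j ∪ U' j = V j then c U * c U' else 0) else 0) =
        a * ∑ U : J → Finset {p // p ∈ P}, ∑ U' : J → Finset {p // p ∈ P},
          (if (fun j => U j ∪ U' j) = V then (if ∀ j, V j ⊆ S j then c U * c U' else 0) else 0) := by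
      intro V
      by_cases hV : ∀ j, V j ⊆ S j
      · simp only [if_pos hV, funext_iff]
      · simp [if_neg hV]
    rw [Finset.sum_congr rfl fun V _ => e1 V, ← Finset.mul_sum]
    congr 1
    have e5 : ∑ V : J → Finset {p // p ∈ P}, ∑ U : J → Finset {p // p ∈ P},
        ∑ U' : J → Finset {p // p ∈ P},
          (if (fun j => U j ∪ U' j) = V then (if ∀ j, V j ⊆ S j then c U * c U' else 0) else 0) =
        ∑ U : J → Finset {p // p ∈ P}, ∑ U' : J → Finset {p // p ∈ P},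
          ∑ V : J → Finset {p // p ∈ P},
          (if (fun j => U j ∪ U' j) = V then (if ∀ j, V j ⊆ S j then c U * c U' else 0) else 0) := by
      rw [Finset.sum_comm]
      exact Finset.sum_congr rfl fun U _ => Finset.sum_comm
    rw [e5]
    refine Finset.sum_congr rfl fun U _ => Finset.sum_congr rfl fun U' _ => ?_
    rw [Finset.sum_ite_eq, if_pos (Finset.mem_univ _)]
    by_cases hU : ∀ j, U j ⊆ S j
    · by_cases hU' : ∀ j, U' j ⊆ S j
      · rw [if_pos hU, if_pos hU', if_pos fun j => Finset.union_subset (hU j) (hU' j)]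
      · have hU2 : ¬ ∀ j, U j ∪ U' j ⊆ S j := fun hh =>
          hU' fun j => (Finset.subset_union_right (s₁ := U j)).trans (hh j)
        rw [if_neg hU', if_neg hU2, mul_zero]
    · have hU2 : ¬ ∀ j, U j ∪ U' j ⊆ S j := fun hh =>
        hU fun j => (Finset.subset_union_left (s₂ := U' j)).trans (hh j)
      rw [if_neg hU, if_neg hU2, zero_mul]
  · intro V
    simp only
    rw [abs_mul, abs_of_nonneg ha0]
    have e2 : |∑ U : J → Finset {p // p ∈ P}, ∑ U' : J → Finset {p // p ∈ P},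
        (if ∀ j, U j ∪ U' j = V j then c U * c U' else 0)| ≤
        C ^ 2 * ∑ U : J → Finset {p // p ∈ P}, ∑ U' : J → Finset {p // p ∈ P},
          (if ∀ j, U j ∪ U' j = V j then (1 : ℝ) else 0) := by
      rw [Finset.mul_sum]
      refine (Finset.abs_sum_le_sum_abs _ _).trans (Finset.sum_le_sum fun U _ => ?_)
      rw [Finset.mul_sum]
      refine (Finset.abs_sum_le_sum_abs _ _).trans (Finset.sum_le_sum fun U' _ => ?_)
      split_ifs
      · rw [abs_mul, mul_one, sq]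
        exact mul_le_mul (h2' U) (h2' U') (abs_nonneg _) hC
      · simp
    have e3 := x4_cardJ V
    have e4 : (0 : ℝ) ≤ |∑ U : J → Finset {p // p ∈ P}, ∑ U' : J → Finset {p // p ∈ P},
        (if ∀ j, U j ∪ U' j = V j then c U * c U' else 0)| := abs_nonneg _
    calc a * |∑ U : J → Finset {p // p ∈ P}, ∑ U' : J → Finset {p // p ∈ P},
        (if ∀ j, U j ∪ U' j = V j then c U * c U' else 0)| ≤ 1 * (C ^ 2 *
          ∑ U : J → Finset {p // p ∈ P}, ∑ U' : J → Finset {p // p ∈ P},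
          (if ∀ j, U j ∪ U' j = V j then (1 : ℝ) else 0)) := mul_le_mul ha e2 e4 (by norm_num)
      _ ≤ C ^ 2 * ((3 : ℕ) : ℝ) ^ (∑ j, (V j).card) := by
          rw [one_mul]
          push_cast
          exact mul_le_mul_of_nonneg_left e3 (by positivity)
  · intro V hV
    simp only at hV
    have hV' := right_ne_zero_of_mul hV
    obtain ⟨U, -, hU⟩ := Finset.exists_ne_zero_of_sum_ne_zero hV'
    obtain ⟨U', -, hU'⟩ := Finset.exists_ne_zero_of_sum_ne_zero hU
    by_cases hj : ∀ j, U j ∪ U' j = V j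
    · rw [if_pos hj] at hU'
      have g1 := h3 U (left_ne_zero_of_mul hU')
      have g2 := h3 U' (right_ne_zero_of_mul hU')
      have p1 : ∀ p : {p // p ∈ P}, (1 : ℝ) ≤ (p.1 : ℝ) := fun p => by
        exact_mod_cast (hP p.1 p.2).one_lt.le
      have p0 : ∀ W : J → Finset {p // p ∈ P}, 0 ≤ ∏ j, ∏ p ∈ W j, (p.1 : ℝ) := fun W =>
        Finset.prod_nonneg fun j _ => Finset.prod_nonneg fun p _ => by linarith [p1 p]
      calc ∏ j, ∏ p ∈ V j, (p.1 : ℝ) ≤ ∏ j, ((∏ p ∈ U j, (p.1 : ℝ)) * ∏ p ∈ U' j, (p.1 : ℝ)) := by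
            refine Finset.prod_le_prod (fun j _ => Finset.prod_nonneg fun p _ => by linarith [p1 p])
              fun j _ => ?_
            rw [← hj j, ← Finset.prod_union_inter]
            refine le_mul_of_one_le_right (Finset.prod_nonneg fun p _ => by linarith [p1 p]) ?_
            have : ∏ p ∈ U j ∩ U' j, (1 : ℝ) ≤ ∏ p ∈ U j ∩ U' j, (p.1 : ℝ) :=
              Finset.prod_le_prod (fun _ _ => by norm_num) fun p _ => p1 p
            simpa using this
        _ = (∏ j, ∏ p ∈ U j, (p.1 : ℝ)) * ∏ j, ∏ p ∈ U' j, (p.1 : ℝ) := Finset.prod_mul_distrib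
        _ ≤ D * D := mul_le_mul g1 g2 (p0 U') hD
        _ = D ^ 2 := (sq D).symm
    · rw [if_neg hj] at hU'
      exact absurd rfl hU'

end Pool.Agent.Lib.H57C
end

-- from Lib.H59C.CCV
section

/-!
# CCV: covering by boxes
-/

open Finset

namespace Pool.Agent.Lib.H59C

theorem ccv_lv_zero (δ : ℝ) : lv δ 0 = 1 := by
  unfold lv
  simp

/-- The index of a number. -/
theorem ccv_index (δ : ℝ) (hδ : 0 < δ) (m : ℕ) (hm : 2 ≤ m) :
    ∃ i : ℕ, lv δ i < m ∧ m ≤ lv δ (i + 1) := by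
  have hex : ∃ k, m ≤ lv δ k := by
    obtain ⟨k, hk⟩ := pow_unbounded_of_one_lt (m : ℝ) (by linarith : (1 : ℝ) < 1 + δ)
    refine ⟨k, ?_⟩
    unfold lv
    exact Nat.le_floor hk.le
  classical
  obtain ⟨k, hk⟩ : ∃ k, k = Nat.find hex := ⟨_, rfl⟩
  have h1 : m ≤ lv δ k := by rw [hk]; exact Nat.find_spec hex
  have h2 : k ≠ 0 := by
    intro h
    rw [h, ccv_lv_zero] at h1
    omega
  refine ⟨k - 1, ?_, ?_⟩
  · have h3 := Nat.find_min hex (m := k - 1) (by rw [← hk]; omega)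
    omega
  · rw [Nat.sub_add_cancel (by omega)]
    exact h1

/-- The bound for the index. -/
theorem ccv_index_le (δ : ℝ) (hδ : 0 < δ) (hδ1 : δ ≤ 1 / 100) (n m i : ℕ) (hn : 2 ≤ n)
    (hm : m ≤ 2 * n) (hi : lv δ i < m) : i < ⌊4 * Real.log n / δ⌋₊ + 1 := by
  have hn' : (2 : ℝ) ≤ n := by exact_mod_cast hn
  have h1 : (1 + δ) ^ i < m := by
    unfold lv at hi
    exact (Nat.floor_lt (by positivity)).mp hi
  have h2 : (1 + δ) ^ i ≤ 2 * n := by
    have : (m : ℝ) ≤ 2 * n := by exact_mod_cast hm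
    linarith
  have h3 := Real.log_le_log (by positivity) h2
  rw [Real.log_pow, Real.log_mul (by norm_num) (by linarith)] at h3
  have h4 : Real.log 2 ≤ Real.log n := Real.log_le_log (by norm_num) hn'
  have h5 : δ / 2 ≤ Real.log (1 + δ) := by
    have h6 := Real.one_sub_inv_le_log_of_pos (by linarith : 0 < 1 + δ)
    have h7 : δ / 2 ≤ 1 - (1 + δ)⁻¹ := by
      have : 1 - (1 + δ)⁻¹ = δ / (1 + δ) := by
        field_simp
        ring
      rw [this, div_le_div_iff₀ (by norm_num) (by linarith)]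
      nlinarith
    linarith
  have h6 : (i : ℝ) ≤ 4 * Real.log n / δ := by
    rw [le_div_iff₀ hδ]
    have h7 : (i : ℝ) * (δ / 2) ≤ i * Real.log (1 + δ) :=
      mul_le_mul_of_nonneg_left h5 (Nat.cast_nonneg _)
    linarith
  have h7 : i ≤ ⌊4 * Real.log n / δ⌋₊ := Nat.le_floor h6
  omega

theorem ccv_al_nonneg (n : ℕ) (δ : ℝ) (b : ℕ × ℕ) (m : ℕ) : 0 ≤ al n δ b m := by
  unfold al
  split_ifs <;> norm_num


end Pool.Agent.Lib.H59C
end

-- from Lib.H59C.CRP
section

/-!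
# CRP: the parameters of the relevant boxes
-/

open Finset

namespace Pool.Agent.Lib.H59C

theorem CRP_yy {n : ℕ} (hn : 1 ≤ n) {t : ℝ} (ht : t ≤ 1 / 3) : (n : ℝ) ^ t ≤ yy n := by
  have h1 : (1 : ℝ) ≤ n := by exact_mod_cast hn
  unfold yy
  calc (n : ℝ) ^ t ≤ (n : ℝ) ^ (1 / 3 : ℝ) := Real.rpow_le_rpow_of_exponent_le h1 ht
    _ ≤ (2 * n : ℝ) ^ (1 / 3 : ℝ) :=
      Real.rpow_le_rpow (by linarith) (by linarith) (by norm_num)

theorem CRP_zz {n : ℕ} (hn : 1 ≤ n) {t : ℝ} (ht : t ≤ 1 / 8) : (n : ℝ) ^ t ≤ zz n := by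
  have h1 : (1 : ℝ) ≤ n := by exact_mod_cast hn
  exact Real.rpow_le_rpow_of_exponent_le h1 ht

theorem CRP_al {n : ℕ} {δ : ℝ} {b : ℕ × ℕ} {m : ℕ} (h : al n δ b m ≠ 0) :
    lv δ b.1 < m ∧ ∃ q1 q2 : ℕ, q1.Prime ∧ q2.Prime ∧ zz n ≤ q1 ∧ (q1 : ℝ) < yy n ∧ yy n ≤ q2 ∧
    q2 ≤ lv δ (b.2 + 1) ∧ m = q1 * q2 := by
  by_contra hc
  apply h
  unfold al
  rw [if_neg hc]

theorem CRP_box {δ : ℝ} (hδ : 0 < δ) (hδ1 : δ ≤ 1 / 100) {n : ℕ} (hn : 2 ^ 24 ≤ n)
    {N y1 y2 : ℕ} (W : Win n N y1 y2) {b : ℕ × ℕ} (hb : b ∈ Rel n N y1 y2 δ) :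
    (n : ℝ) ^ (1 / 4 : ℝ) ≤ lv δ (b.1 + 1) ∧
      (n : ℝ) ^ (1 / 4 : ℝ) ≤ lv δ (b.2 + 1) ∧ (n : ℝ) ^ (1 / 4 : ℝ) ≤ lv δ b.2 ∧
      lv δ b.2 ≤ lv δ (b.2 + 1) ∧ lv δ (b.1 + 1) * lv δ (b.2 + 1) ≤ 8 * n := by
  have hn1 : 1 ≤ n := by omega
  have hn1' : (1 : ℝ) ≤ n := by exact_mod_cast hn1
  unfold Rel at hb
  classical
  obtain ⟨-, m, q, p, hm1, hm2, hq1, hq2, hq, hal, hyq, hp1, hp2, hd⟩ := Finset.mem_filter.1 hb
  have hal' : al n δ b m ≠ 0 := by rw [hal]; norm_num
  obtain ⟨-, q1, q2, hq1p, hq2p, hz, -, hy, -, hmq⟩ := CRP_al hal'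
  have h1δ : (1 : ℝ) ≤ 1 + δ := by linarith
  have h0δ : (0 : ℝ) ≤ 1 + δ := by linarith
  have c1 : (n : ℝ) ^ (1 / 4 : ℝ) ≤ lv δ (b.1 + 1) := by
    have h1 : (n : ℝ) ^ (1 / 4 : ℝ) ≤ q2 := (CRP_yy hn1 (by norm_num)).trans hy
    have h2 : q2 ≤ m := by
      rw [hmq]
      exact Nat.le_mul_of_pos_left q2 hq1p.pos
    have h3 : (q2 : ℝ) ≤ lv δ (b.1 + 1) := by exact_mod_cast h2.trans hm2
    exact h1.trans h3
  have c2 : yy n ≤ lv δ (b.2 + 1) := hyq.trans (by exact_mod_cast hq2)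
  have c3 : (n : ℝ) ^ (1 / 4 : ℝ) ≤ lv δ b.2 := by
    have h1 : (lv δ (b.2 + 1) : ℝ) ≤ (1 + δ) ^ (b.2 + 1) := Nat.floor_le (pow_nonneg h0δ _)
    have h2 : (1 + δ) ^ b.2 - 1 < (lv δ b.2 : ℝ) := Nat.sub_one_lt_floor _
    have h3 : (n : ℝ) ^ (1 / 3 : ℝ) ≤ (1 + δ) ^ (b.2 + 1) :=
      ((CRP_yy hn1 le_rfl).trans c2).trans h1
    have h4 : (n : ℝ) ^ (1 / 3 : ℝ) = (n : ℝ) ^ (1 / 12 : ℝ) * (n : ℝ) ^ (1 / 4 : ℝ) := by
      rw [← Real.rpow_add (by linarith)]
      norm_num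
    have h5 : (4 : ℝ) ≤ (n : ℝ) ^ (1 / 12 : ℝ) := by
      have h6 : ((2 : ℝ) ^ (24 : ℕ)) ^ (1 / 12 : ℝ) ≤ (n : ℝ) ^ (1 / 12 : ℝ) :=
        Real.rpow_le_rpow (by positivity) (by exact_mod_cast hn) (by norm_num)
      have h7 : ((2 : ℝ) ^ (24 : ℕ)) ^ (1 / 12 : ℝ) = 4 := by
        rw [← Real.rpow_natCast, ← Real.rpow_mul (by norm_num)]
        norm_num
      linarith
    have h8 : (1 : ℝ) ≤ (n : ℝ) ^ (1 / 4 : ℝ) := Real.one_le_rpow hn1' (by norm_num)
    have h9 : 4 * (n : ℝ) ^ (1 / 4 : ℝ) ≤ (1 + δ) * (1 + δ) ^ b.2 := by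
      have h10 : 4 * (n : ℝ) ^ (1 / 4 : ℝ) ≤ (n : ℝ) ^ (1 / 12 : ℝ) * (n : ℝ) ^ (1 / 4 : ℝ) :=
        mul_le_mul_of_nonneg_right h5 (by linarith)
      rw [pow_succ'] at h3
      linarith
    have h11 : (0 : ℝ) ≤ (1 + δ) ^ b.2 := pow_nonneg h0δ _
    have h12 : (1 + δ) * (1 + δ) ^ b.2 ≤ 2 * (1 + δ) ^ b.2 :=
      mul_le_mul_of_nonneg_right (by linarith) h11
    linarith
  have c4 : lv δ b.2 ≤ lv δ (b.2 + 1) :=
    Nat.floor_le_floor (pow_le_pow_right₀ h1δ (Nat.le_succ _))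
  refine ⟨c1, (CRP_yy hn1 (by norm_num)).trans c2, c3, c4, ?_⟩
  have h1 : (lv δ (b.2 + 1) : ℝ) ≤ (1 + δ) ^ (b.2 + 1) := Nat.floor_le (pow_nonneg h0δ _)
  have h2 : (lv δ (b.1 + 1) : ℝ) ≤ (1 + δ) ^ (b.1 + 1) := Nat.floor_le (pow_nonneg h0δ _)
  have h3 : (1 + δ) ^ b.1 < m := (Nat.floor_lt (pow_nonneg h0δ _)).1 hm1
  have h4 : (1 + δ) ^ b.2 < q := (Nat.floor_lt (pow_nonneg h0δ _)).1 hq1
  have h5 : m * q ≤ 2 * n := by
    rw [← hd]
    have e1 := W.N2
    have e2 := W.le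
    unfold Nat.dist
    omega
  have h6 : (m : ℝ) * q ≤ 2 * n := by exact_mod_cast h5
  have h7 : (1 + δ) ^ b.1 * (1 + δ) ^ b.2 ≤ 2 * n :=
    (mul_le_mul h3.le h4.le (pow_nonneg h0δ _) (Nat.cast_nonneg _)).trans h6
  have h8 : (lv δ (b.1 + 1) : ℝ) * lv δ (b.2 + 1) ≤ 8 * n := by
    calc (lv δ (b.1 + 1) : ℝ) * lv δ (b.2 + 1) ≤ (1 + δ) ^ (b.1 + 1) * (1 + δ) ^ (b.2 + 1) :=
          mul_le_mul h2 h1 (Nat.cast_nonneg _) (pow_nonneg h0δ _)
      _ = (1 + δ) ^ 2 * ((1 + δ) ^ b.1 * (1 + δ) ^ b.2) := by ring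
      _ ≤ 4 * (2 * n) := by
        apply mul_le_mul _ h7 (mul_nonneg (pow_nonneg h0δ _) (pow_nonneg h0δ _)) (by norm_num)
        nlinarith
      _ = 8 * n := by ring
  exact_mod_cast h8

/-- The parameters of the relevant boxes.

Proof. `m ≥ q1 q2 ≥ n^(1/8) (2n)^(1/3) ≥ n^(1/4)` and `m ≤ lv (i+1)`; `q ≥ (2n)^(1/3)`, `q ≤ lv (j+1)`, and
`lv j ≥ (1 + δ)^j - 1 ≥ lv (j+1)/2 - 1`; `(1 + δ)^i < m` (as `m ≥ lv i + 1`), `(1 + δ)^j < q`, `m q = |N - p| ≤ 2 n` and
`lv (i+1) lv (j+1) ≤ (1 + δ)^2 (1 + δ)^(i+j) ≤ 8 n`. The number of boxes is at most `(4 log n/δ + 1)^2`. -/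
theorem rel_par (δ : ℝ) (hδ : 0 < δ) (hδ1 : δ ≤ 1 / 100) : ∃ n0 : ℕ, ∀ n : ℕ, n0 ≤ n →
    ∀ N y1 y2 : ℕ, Win n N y1 y2 →
    (∀ b ∈ Rel n N y1 y2 δ, (n : ℝ) ^ (1 / 4 : ℝ) ≤ lv δ (b.1 + 1) ∧
      (n : ℝ) ^ (1 / 4 : ℝ) ≤ lv δ (b.2 + 1) ∧ (n : ℝ) ^ (1 / 4 : ℝ) ≤ lv δ b.2 ∧
      lv δ b.2 ≤ lv δ (b.2 + 1) ∧ lv δ (b.1 + 1) * lv δ (b.2 + 1) ≤ 8 * n) ∧
    ((Rel n N y1 y2 δ).card : ℝ) ≤ 25 * Real.log n ^ 2 / δ ^ 2 ∧
    ∀ b : ℕ × ℕ, ∀ m, 0 ≤ al n δ b m ∧ al n δ b m ≤ 1 ∧ (al n δ b m ≠ 0 → ∀ r : ℕ, r.Prime → r ∣ m →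
      (n : ℝ) ^ (1 / 10 : ℝ) ≤ r) := by
  refine ⟨2 ^ 24, ?_⟩
  intro n hn N y1 y2 W
  have hn1 : 1 ≤ n := by omega
  have hn3 : (3 : ℝ) ≤ n := by exact_mod_cast (by omega : 3 ≤ n)
  refine ⟨fun b hb => ?_, ?_, ?_⟩
  · obtain ⟨h1, h2, h3, h4, h5⟩ := CRP_box hδ hδ1 hn W hb
    exact ⟨h1, h2, h3, h4, h5⟩
  · have hlog : 1 ≤ Real.log n := by
      rw [Real.le_log_iff_exp_le (by linarith)]
      have := Real.exp_one_lt_d9
      linarith
    have h1 : (Rel n N y1 y2 δ).card ≤ (⌊4 * Real.log n / δ⌋₊ + 1) ^ 2 := by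
      classical
      unfold Rel
      refine (Finset.card_filter_le _ _).trans ?_
      rw [Finset.card_product, Finset.card_range, sq]
    have h2 : ((⌊4 * Real.log n / δ⌋₊ : ℝ)) ≤ 4 * Real.log n / δ :=
      Nat.floor_le (by positivity)
    have h3 : (1 : ℝ) ≤ Real.log n / δ := by
      rw [le_div_iff₀ hδ]
      linarith
    have h4 : ((⌊4 * Real.log n / δ⌋₊ : ℝ)) + 1 ≤ 5 * (Real.log n / δ) := by
      have : 4 * Real.log n / δ = 4 * (Real.log n / δ) := by ring
      linarith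
    calc ((Rel n N y1 y2 δ).card : ℝ) ≤ ((⌊4 * Real.log n / δ⌋₊ : ℝ) + 1) ^ 2 := by
          exact_mod_cast h1
      _ ≤ (5 * (Real.log n / δ)) ^ 2 := pow_le_pow_left₀ (by positivity) h4 2
      _ = 25 * Real.log n ^ 2 / δ ^ 2 := by
        rw [mul_pow, div_pow]
        ring
  · intro b m
    refine ⟨?_, ?_, ?_⟩
    · unfold al
      split_ifs <;> norm_num
    · unfold al
      split_ifs <;> norm_num
    · intro h r hr hrm
      obtain ⟨-, q1, q2, hq1p, hq2p, hz, -, hy, -, hmq⟩ := CRP_al h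
      rw [hmq] at hrm
      rcases (Nat.Prime.dvd_mul hr).1 hrm with h1 | h1
      · rw [(Nat.prime_dvd_prime_iff_eq hr hq1p).1 h1]
        exact (CRP_zz hn1 (by norm_num)).trans hz
      · rw [(Nat.prime_dvd_prime_iff_eq hr hq2p).1 h1]
        exact (CRP_yy hn1 (by norm_num)).trans hy

end Pool.Agent.Lib.H59C
end

-- from Lib.H59C.CTI
section

/-!
# CTI: the inner sum of the switching constant
-/

open Finset

namespace Pool.Agent.Lib.H59C

theorem cti_int (κ a b : ℝ) (ha : 0 < a) (hb : a ≤ b) (hκ : b < κ) :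
    ∫ x in a..b, (1 / (κ - x)) / x =
      1 / κ * (Real.log b - Real.log (κ - b)) - 1 / κ * (Real.log a - Real.log (κ - a)) := by
  have hκ0 : 0 < κ := by linarith
  have h : ∀ x ∈ Set.uIcc a b,
      HasDerivAt (fun x : ℝ => 1 / κ * (Real.log x - Real.log (κ - x)))
        ((1 / (κ - x)) / x) x := by
    intro x hx
    rw [Set.uIcc_of_le hb, Set.mem_Icc] at hx
    have hx0 : 0 < x := by linarith
    have hx1 : 0 < κ - x := by linarith
    have h1 : HasDerivAt (fun x : ℝ => Real.log x) (1 / x) x := by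
      simpa using Real.hasDerivAt_log hx0.ne'
    have h2 : HasDerivAt (fun x : ℝ => κ - x) (-1) x := by
      simpa using (hasDerivAt_id x).const_sub κ
    have h3 : HasDerivAt (fun x : ℝ => Real.log (κ - x)) (-1 / (κ - x)) x := by
      simpa using h2.log hx1.ne'
    have h4 := (h1.sub h3).const_mul (1 / κ)
    have hx0' : x ≠ 0 := hx0.ne'
    have hx1' : κ - x ≠ 0 := hx1.ne'
    have hκ' : κ ≠ 0 := hκ0.ne'
    have e : (1 / (κ - x)) / x = 1 / κ * (1 / x - -1 / (κ - x)) := by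
      field_simp
      ring
    rw [e]
    exact h4
  rw [intervalIntegral.integral_eq_sub_of_hasDerivAt h]
  apply ContinuousOn.intervalIntegrable
  rw [Set.uIcc_of_le hb]
  apply ContinuousOn.div
  · apply ContinuousOn.div
    · fun_prop
    · fun_prop
    · intro x hx
      rw [Set.mem_Icc] at hx
      have : 0 < κ - x := by linarith
      exact this.ne'
  · fun_prop
  · intro x hx
    rw [Set.mem_Icc] at hx
    have : 0 < x := by linarith
    exact this.ne'

/-- The value of the integral. -/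
theorem cti_bound (η x1 : ℝ) (hη : 0 < η) (hη1 : η ≤ 1 / 60) (h1 : 1 / 8 ≤ x1)
    (h2 : x1 ≤ 1 / 3 + η) :
    1 / (1 - x1 - η) * (Real.log ((1 - x1) / 2 + η) -
        Real.log ((1 - x1 - η) - ((1 - x1) / 2 + η))) -
      1 / (1 - x1 - η) * (Real.log (1 / 3) - Real.log ((1 - x1 - η) - 1 / 3)) ≤
    Real.log (max 1 (2 - 3 * x1)) / (1 - x1) + 24 * η := by
  obtain ⟨w, hw⟩ : ∃ w : ℝ, w = (1 - x1) / 2 := ⟨_, rfl⟩
  have hw1 : 8 / 25 ≤ w := by rw [hw]; linarith
  have hκ : 3 / 5 ≤ 1 - x1 - η := by linarith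
  have hκ0 : 0 < 1 - x1 - η := by linarith
  have hk : (1 - x1 - η) - ((1 - x1) / 2 + η) = w - 2 * η := by rw [hw]; ring
  rw [hk, ← hw]
  have e1 : Real.log (w + η) - Real.log (w - 2 * η) ≤ 12 * η := by
    rw [← Real.log_div (by linarith) (by linarith)]
    have h3 : 0 < (w + η) / (w - 2 * η) := by
      apply div_pos <;> linarith
    have h4 := Real.log_le_sub_one_of_pos h3
    have h5 : (w + η) / (w - 2 * η) - 1 ≤ 12 * η := by
      rw [div_sub_one (by linarith), div_le_iff₀ (by linarith)]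
      nlinarith
    linarith
  obtain ⟨M, hM⟩ : ∃ M : ℝ, M = Real.log (max 1 (2 - 3 * x1)) := ⟨_, rfl⟩
  have hM0 : 0 ≤ M := by
    rw [hM]
    exact Real.log_nonneg (le_max_left _ _)
  have hM1 : M ≤ 1 := by
    rw [hM]
    have h3 : max 1 (2 - 3 * x1) ≤ 13 / 8 := by
      apply max_le <;> linarith
    have h4 : (0 : ℝ) < max 1 (2 - 3 * x1) := lt_of_lt_of_le one_pos (le_max_left _ _)
    have h5 := Real.log_le_sub_one_of_pos h4
    linarith
  have e2 : Real.log ((1 - x1 - η) - 1 / 3) - Real.log (1 / 3) ≤ M := by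
    rw [← Real.log_div (by linarith) (by norm_num), hM]
    apply Real.log_le_log
    · apply div_pos
      · linarith
      · norm_num
    · have : ((1 - x1 - η) - 1 / 3) / (1 / 3) = 2 - 3 * x1 - 3 * η := by ring
      rw [this]
      have := le_max_right (1 : ℝ) (2 - 3 * x1)
      linarith
  rw [← hM]
  have e3 : 1 / (1 - x1 - η) ≤ 1 / (1 - x1) + 3 * η := by
    have h3 : 1 / (1 - x1 - η) - 1 / (1 - x1) = η / ((1 - x1 - η) * (1 - x1)) := by
      have : (1 - x1) ≠ 0 := by linarith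
      have : (1 - x1 - η) ≠ 0 := by linarith
      field_simp
      ring
    have h4 : η / ((1 - x1 - η) * (1 - x1)) ≤ 3 * η := by
      rw [div_le_iff₀ (by apply mul_pos <;> linarith)]
      have : 1 / 3 ≤ (1 - x1 - η) * (1 - x1) := by nlinarith
      nlinarith
    linarith
  have e4 : 1 / (1 - x1 - η) ≤ 5 / 3 := by
    rw [div_le_div_iff₀ hκ0 (by norm_num)]
    linarith
  have hκinv : 0 ≤ 1 / (1 - x1 - η) := by positivity
  calc 1 / (1 - x1 - η) * (Real.log (w + η) - Real.log (w - 2 * η)) -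
      1 / (1 - x1 - η) * (Real.log (1 / 3) - Real.log ((1 - x1 - η) - 1 / 3))
      = 1 / (1 - x1 - η) * (Real.log (w + η) - Real.log (w - 2 * η)) +
      1 / (1 - x1 - η) * (Real.log ((1 - x1 - η) - 1 / 3) - Real.log (1 / 3)) := by ring
    _ ≤ 1 / (1 - x1 - η) * (12 * η) + 1 / (1 - x1 - η) * M := by
        apply add_le_add
        · exact mul_le_mul_of_nonneg_left e1 hκinv
        · exact mul_le_mul_of_nonneg_left e2 hκinv
    _ ≤ 5 / 3 * (12 * η) + (1 / (1 - x1) + 3 * η) * M := by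
        apply add_le_add
        · exact mul_le_mul_of_nonneg_right e4 (by positivity)
        · exact mul_le_mul_of_nonneg_right e3 hM0
    _ ≤ M / (1 - x1) + 24 * η := by
        have h3 : 3 * η * M ≤ 3 * η := by nlinarith
        have h4 : (1 / (1 - x1) + 3 * η) * M = M / (1 - x1) + 3 * η * M := by ring
        rw [h4]
        linarith

/-- Proof. `L = log n`, `x1 = log q1/L ∈ [1/8, 1/3 + 1/L]`, `c = log 20/L`. `q2 ∈ [n^a, n^b']` with `n^a = (2n)^(1/3)`
(`a = 1/3 + log 2/(3L)`), `q2 ≤ √(3n/q1) = n^b`, `b = (1 - x1)/2 + log 3/(2L)`. If `a ≤ b`: the sum is at most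
`(1/L) ∑_{n^a ≤ q2 < n^(b + η)} φ(x2)/q2`, `φ(x) = 1/(1 - x1 - c - x)`, increasing and bounded by `10`, and by
`prime_int` this is `(1/L) (∫_a^{b+η} dx/(x (1 - x1 - c - x)) + O(1/L))
= (1/L) ((1 - x1 - c)⁻¹ [log (x/(1 - x1 - c - x))]_a^{b+η} + O(1/L))`. As `n → ∞` and `η → 0`, uniformly in
`x1 ∈ [1/8, 1/3]`: at `x = b + η` the logarithm is `O(η + 1/L)`, at `a` it tends to `log ((1/3)/(2/3 - x1)) = -log (2 - 3 x1)`. If
`a > b` the sum is empty or `x1 ≥ 1/3 - O(1/L)`, one trivial term is `O(1/n^(1/3))`. -/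
theorem inner_sum (ε : ℝ) (hε : 0 < ε) : ∃ n0 : ℕ, ∀ n : ℕ, n0 ≤ n → ∀ q1 : ℕ, q1.Prime →
    zz n ≤ q1 → (q1 : ℝ) < yy n →
    ∑ q2 ∈ (PR (yy n) n).filter (fun q2 => q1 * q2 ^ 2 ≤ 3 * n),
        Real.log n / ((q2 : ℝ) * Real.log (n / (20 * q1 * q2))) ≤
      Real.log (max 1 (2 - 3 * (Real.log q1 / Real.log n))) /
        (1 - Real.log q1 / Real.log n) + ε := by
  obtain ⟨C, hC, hpi⟩ := prime_int
  obtain ⟨η, hη⟩ : ∃ η : ℝ, η = min (1 / 60) (ε / 48) := ⟨_, rfl⟩
  have hη0 : 0 < η := by rw [hη]; exact lt_min (by norm_num) (by linarith)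
  have hη1 : η ≤ 1 / 60 := by rw [hη]; exact min_le_left _ _
  have hη2 : 24 * η ≤ ε / 2 := by
    have : η ≤ ε / 48 := by rw [hη]; exact min_le_right _ _
    linarith
  obtain ⟨n1, hn1⟩ := cdl_log (max (20 / η) (24 * C / ε))
  obtain ⟨n2, hn2⟩ := cdl_zz 2
  refine ⟨n1 + n2 + 3, fun n hn q1 hq1 hq1z hq1y => ?_⟩
  have hN : (3 : ℝ) ≤ n := by exact_mod_cast (by omega : 3 ≤ n)
  have hL : 0 < Real.log n := Real.log_pos (by linarith)
  obtain ⟨L, hLdef⟩ : ∃ L : ℝ, L = Real.log n := ⟨_, rfl⟩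
  have hLn := hn1 n (by omega)
  have hz2 := hn2 n (by omega)
  have hlz := log_zz n (by omega)
  rw [← hLdef] at hL hLn hlz ⊢
  have hL1 : 20 ≤ η * L := by
    have : 20 / η ≤ L := le_trans (le_max_left _ _) hLn
    rw [div_le_iff₀ hη0] at this
    linarith
  have hL2 : 24 * C ≤ ε * L := by
    have : 24 * C / ε ≤ L := le_trans (le_max_right _ _) hLn
    rw [div_le_iff₀ hε] at this
    linarith
  have hzpos : 0 < zz n := by linarith
  have hq0 : (0 : ℝ) < q1 := by linarith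
  have hlog2 : Real.log 2 ≤ 1 := by
    have := Real.log_two_lt_d9
    linarith
  have hlog20 : Real.log 20 ≤ 19 := by
    have := Real.log_le_sub_one_of_pos (by norm_num : (0 : ℝ) < 20)
    linarith
  have hlog20' : 0 ≤ Real.log 20 := Real.log_nonneg (by norm_num)
  have hlog3 : Real.log 3 ≤ 2 := by
    have := Real.log_le_sub_one_of_pos (by norm_num : (0 : ℝ) < 3)
    linarith
  have hlyy : Real.log (yy n) = 1 / 3 * (Real.log 2 + L) := by
    unfold yy
    rw [Real.log_rpow (by linarith), Real.log_mul (by norm_num) (by linarith), hLdef]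
  have hyypos : 0 < yy n := by unfold yy; positivity
  obtain ⟨x1, hx1⟩ : ∃ x1 : ℝ, x1 = Real.log q1 / L := ⟨_, rfl⟩
  rw [← hx1]
  have hx1L : Real.log q1 = x1 * L := by rw [hx1, div_mul_cancel₀ _ hL.ne']
  have hx18 : 1 / 8 ≤ x1 := by
    rw [hx1, le_div_iff₀ hL]
    have := Real.log_le_log hzpos hq1z
    rw [hlz] at this
    exact this
  have hx13 : x1 ≤ 1 / 3 + η := by
    rw [hx1, div_le_iff₀ hL]
    have := Real.log_le_log hq0 hq1y.le
    rw [hlyy] at this
    nlinarith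
  obtain ⟨b, hb⟩ : ∃ b : ℝ, b = (1 - x1) / 2 + η := ⟨_, rfl⟩
  obtain ⟨κ, hκ⟩ : ∃ κ : ℝ, κ = 1 - x1 - η := ⟨_, rfl⟩
  have hb3 : 1 / 3 ≤ b := by rw [hb]; linarith
  have hκb : 1 / 4 ≤ κ - b := by rw [hb, hκ]; linarith
  -- the terms
  have hterm : ∀ q2 ∈ (PR (yy n) n).filter (fun q2 => q1 * q2 ^ 2 ≤ 3 * n),
      q2 ∈ PR ((n : ℝ) ^ (1 / 3 : ℝ)) ((n : ℝ) ^ b) ∧
      L / ((q2 : ℝ) * Real.log (n / (20 * q1 * q2))) ≤ (1 / (κ - Real.log q2 / L)) / q2 := by
    intro q2 hq2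
    rw [mem_filter, mem_PR] at hq2
    obtain ⟨⟨hq2p, hq2y, hq2n⟩, hq2s⟩ := hq2
    have hq20 : (0 : ℝ) < q2 := by linarith
    have hs : (q1 : ℝ) * (q2 : ℝ) ^ 2 ≤ 3 * n := by exact_mod_cast hq2s
    have hs' := Real.log_le_log (by positivity) hs
    rw [Real.log_mul hq0.ne' (by positivity), Real.log_pow, Real.log_mul (by norm_num)
      (by linarith), ← hLdef, hx1L] at hs'
    push_cast at hs'
    have hx2 : Real.log q2 < b * L := by
      have : b * L = L / 2 - x1 * L / 2 + η * L := by rw [hb]; ring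
      rw [this]
      linarith
    have hx2' : Real.log q2 / L < b := by
      rw [div_lt_iff₀ hL]
      exact hx2
    constructor
    · rw [mem_PR]
      refine ⟨hq2p, ?_, ?_⟩
      · refine le_trans ?_ hq2y
        unfold yy
        apply Real.rpow_le_rpow (by linarith) (by linarith) (by norm_num)
      · rw [← Real.log_lt_log_iff hq20 (by positivity), Real.log_rpow (by linarith), ← hLdef]
        exact hx2
    · have hlg : Real.log (n / (20 * q1 * q2)) = L - Real.log 20 - x1 * L - Real.log q2 := by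
        rw [Real.log_div (by linarith) (by positivity), Real.log_mul (by positivity) hq20.ne',
          Real.log_mul (by norm_num) hq0.ne', ← hLdef, hx1L]
        ring
      have hk1 : 0 < κ - Real.log q2 / L := by linarith
      have hge : (κ - Real.log q2 / L) * L ≤ Real.log (n / (20 * q1 * q2)) := by
        rw [hlg, sub_mul, div_mul_cancel₀ _ hL.ne', hκ]
        nlinarith
      have hpos : 0 < Real.log (n / (20 * q1 * q2)) := lt_of_lt_of_le (by positivity) hge
      rw [div_div, div_le_div_iff₀ (by positivity) (by positivity)]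
      calc L * ((κ - Real.log q2 / L) * q2) = q2 * ((κ - Real.log q2 / L) * L) := by ring
        _ ≤ q2 * Real.log (n / (20 * q1 * q2)) := mul_le_mul_of_nonneg_left hge hq20.le
        _ = 1 * (q2 * Real.log (n / (20 * q1 * q2))) := by ring
  have hΦ : ∀ x ∈ Set.Icc (1 / 3 : ℝ) b, |1 / (κ - x)| ≤ 4 := by
    intro x hx
    rw [Set.mem_Icc] at hx
    have h1 : 1 / 4 ≤ κ - x := by linarith
    rw [abs_of_nonneg (by apply div_nonneg (by norm_num); linarith)]
    rw [div_le_iff₀ (by linarith)]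
    linarith
  have hmono : MonotoneOn (fun x : ℝ => 1 / (κ - x)) (Set.Icc (1 / 3 : ℝ) b) := by
    intro x hx y hy hxy
    rw [Set.mem_Icc] at hx hy
    apply div_le_div_of_nonneg_left (by norm_num)
    · linarith
    · linarith
  have hn3 : 2 ≤ (n : ℝ) ^ (1 / 3 : ℝ) := by
    have h1 : zz n ≤ (n : ℝ) ^ (1 / 3 : ℝ) := by
      unfold zz
      apply Real.rpow_le_rpow_of_exponent_le (by linarith) (by norm_num)
    linarith
  have hpi1 := hpi n (1 / 3) b 4 (fun x : ℝ => 1 / (κ - x)) (by omega)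
    (by norm_num) hb3 (by rw [hb]; linarith) hn3 (Or.inl hmono) hΦ
  rw [cti_int κ (1 / 3) b (by norm_num) hb3 (by linarith), ← hLdef, abs_le] at hpi1
  have hcb := cti_bound η x1 hη0 hη1 hx18 hx13
  rw [← hκ, ← hb] at hcb
  calc ∑ q2 ∈ (PR (yy n) n).filter (fun q2 => q1 * q2 ^ 2 ≤ 3 * n),
        L / ((q2 : ℝ) * Real.log (n / (20 * q1 * q2)))
      ≤ ∑ q2 ∈ (PR (yy n) n).filter (fun q2 => q1 * q2 ^ 2 ≤ 3 * n),
        (1 / (κ - Real.log q2 / L)) / q2 := sum_le_sum fun q2 hq2 => (hterm q2 hq2).2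
    _ ≤ ∑ q2 ∈ PR ((n : ℝ) ^ (1 / 3 : ℝ)) ((n : ℝ) ^ b), (1 / (κ - Real.log q2 / L)) / q2 := by
        apply sum_le_sum_of_subset_of_nonneg (fun q2 hq2 => (hterm q2 hq2).1)
        intro q hq _
        obtain ⟨hqp, hqa, hqb⟩ := mem_PR.mp hq
        have hq0 : (0 : ℝ) < q := by linarith
        have h1 := Real.log_le_log hq0 hqb.le
        rw [Real.log_rpow (by linarith), ← hLdef] at h1
        have h2 : Real.log q / L ≤ b := by
          rw [div_le_iff₀ hL]
          exact h1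
        have h3 : 0 < κ - Real.log q / L := by linarith
        positivity
    _ ≤ (1 / κ * (Real.log b - Real.log (κ - b)) - 1 / κ * (Real.log (1 / 3) -
          Real.log (κ - 1 / 3))) + C * 4 / (1 / 3 * L) := by
        linarith [hpi1.2]
    _ ≤ (Real.log (max 1 (2 - 3 * x1)) / (1 - x1) + 24 * η) + ε / 2 := by
        apply add_le_add hcb
        have : C * 4 / (1 / 3 * L) = 12 * C / L := by
          field_simp
          ring
        rw [this, div_le_iff₀ hL]
        linarith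
    _ ≤ Real.log (max 1 (2 - 3 * x1)) / (1 - x1) + ε := by linarith

end Pool.Agent.Lib.H59C
end

-- from Lib.H59C.CP2
section

/-!
# CP2: a sum over primes
-/

open Finset

namespace Pool.Agent.Lib.H59C

theorem cp2_int (κ b : ℝ) (hb : 1 / 8 ≤ b) (hκ : b < κ) :
    ∫ x in (1 / 8 : ℝ)..b, (1 / 8 / (κ - x)) / x =
      1 / (8 * κ) * (Real.log b - Real.log (κ - b)) -
        1 / (8 * κ) * (Real.log (1 / 8) - Real.log (κ - 1 / 8)) := by
  have hκ0 : 0 < κ := by linarith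
  have h : ∀ x ∈ Set.uIcc (1 / 8 : ℝ) b,
      HasDerivAt (fun x : ℝ => 1 / (8 * κ) * (Real.log x - Real.log (κ - x)))
        ((1 / 8 / (κ - x)) / x) x := by
    intro x hx
    rw [Set.uIcc_of_le hb, Set.mem_Icc] at hx
    have hx0 : 0 < x := by linarith
    have hx1 : 0 < κ - x := by linarith
    have h1 : HasDerivAt (fun x : ℝ => Real.log x) (1 / x) x := by
      simpa using Real.hasDerivAt_log hx0.ne'
    have h2 : HasDerivAt (fun x : ℝ => κ - x) (-1) x := by
      simpa using (hasDerivAt_id x).const_sub κ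
    have h3 : HasDerivAt (fun x : ℝ => Real.log (κ - x)) (-1 / (κ - x)) x := by
      simpa using h2.log hx1.ne'
    have h4 := (h1.sub h3).const_mul (1 / (8 * κ))
    have hx0' : x ≠ 0 := hx0.ne'
    have hx1' : κ - x ≠ 0 := hx1.ne'
    have hκ' : κ ≠ 0 := hκ0.ne'
    have e : (1 / 8 / (κ - x)) / x = 1 / (8 * κ) * (1 / x - -1 / (κ - x)) := by
      field_simp
      ring
    rw [e]
    exact h4
  rw [intervalIntegral.integral_eq_sub_of_hasDerivAt h]
  apply ContinuousOn.intervalIntegrable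
  rw [Set.uIcc_of_le hb]
  apply ContinuousOn.div
  · apply ContinuousOn.div
    · fun_prop
    · fun_prop
    · intro x hx
      rw [Set.mem_Icc] at hx
      have : 0 < κ - x := by linarith
      exact this.ne'
  · fun_prop
  · intro x hx
    rw [Set.mem_Icc] at hx
    have : 0 < x := by linarith
    exact this.ne'

/-- The choice of `η`. -/
theorem cp2_eta (ε : ℝ) (hε : 0 < ε) : ∃ η : ℝ, 0 < η ∧ η ≤ 1 / 100 ∧
    (1 + η) * (1 / (8 * (1 / 2 - η)) * (Real.log (1 / 3 + η) -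
        Real.log ((1 / 2 - η) - (1 / 3 + η))) -
      1 / (8 * (1 / 2 - η)) * (Real.log (1 / 8) - Real.log ((1 / 2 - η) - 1 / 8))) ≤
      1 / 4 * Real.log 6 + ε := by
  obtain ⟨G, hG⟩ : ∃ G : ℝ → ℝ, G = fun η => (1 + η) * (1 / (8 * (1 / 2 - η)) *
      (Real.log (1 / 3 + η) - Real.log ((1 / 2 - η) - (1 / 3 + η))) -
      1 / (8 * (1 / 2 - η)) * (Real.log (1 / 8) - Real.log ((1 / 2 - η) - 1 / 8))) := ⟨_, rfl⟩
  have hcont : ContinuousAt G 0 := by
    rw [hG]
    have c1 : ContinuousAt (fun η : ℝ => 1 / (8 * (1 / 2 - η))) 0 := by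
      apply ContinuousAt.div (by fun_prop) (by fun_prop)
      norm_num
    have c2 : ContinuousAt (fun η : ℝ => Real.log (1 / 3 + η)) 0 := by
      apply ContinuousAt.log (by fun_prop)
      norm_num
    have c3 : ContinuousAt (fun η : ℝ => Real.log ((1 / 2 - η) - (1 / 3 + η))) 0 := by
      apply ContinuousAt.log (by fun_prop)
      norm_num
    have c4 : ContinuousAt (fun η : ℝ => Real.log ((1 / 2 - η) - 1 / 8)) 0 := by
      apply ContinuousAt.log (by fun_prop)
      norm_num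
    exact (by fun_prop : ContinuousAt (fun η : ℝ => 1 + η) 0).mul
      ((c1.mul (c2.sub c3)).sub (c1.mul (continuousAt_const.sub c4)))
  have hG0 : G 0 = 1 / 4 * Real.log 6 := by
    rw [hG]
    have e1 : Real.log (1 / 3 + 0) - Real.log ((1 / 2 - 0) - (1 / 3 + 0)) = Real.log 2 := by
      rw [← Real.log_div (by norm_num) (by norm_num)]
      norm_num
    have e2 : Real.log (1 / 8) - Real.log ((1 / 2 - 0) - 1 / 8) = - Real.log 3 := by
      rw [← Real.log_div (by norm_num) (by norm_num), ← Real.log_inv]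
      norm_num
    have e3 : Real.log 6 = Real.log 2 + Real.log 3 := by
      rw [← Real.log_mul (by norm_num) (by norm_num)]
      norm_num
    show (1 + 0) * (1 / (8 * (1 / 2 - 0)) * (Real.log (1 / 3 + 0) -
        Real.log ((1 / 2 - 0) - (1 / 3 + 0))) -
      1 / (8 * (1 / 2 - 0)) * (Real.log (1 / 8) - Real.log ((1 / 2 - 0) - 1 / 8))) = _
    rw [e1, e2, e3]
    ring
  obtain ⟨δ, hδ, h⟩ := Metric.continuousAt_iff.mp hcont ε hε
  refine ⟨min (δ / 2) (1 / 100), lt_min (by linarith) (by norm_num), min_le_right _ _, ?_⟩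
  have h1 : dist (min (δ / 2) (1 / 100)) 0 < δ := by
    rw [Real.dist_eq, sub_zero, abs_of_pos (lt_min (by linarith) (by norm_num))]
    have := min_le_left (δ / 2) (1 / 100)
    linarith
  have h2 := h h1
  rw [Real.dist_eq, abs_lt, hG0] at h2
  have h3 := h2.2
  rw [hG] at h3
  simp only at h3
  linarith

/-- Proof. `L = log n`, `x = log q/L`. For `η > 0` and `n` large: `log (DD n B/Q0/q)/L ≥ 1/2 - η - x`, `(2n)^(1/3) ≤ n^(1/3 + η)`
and `gq q ≤ (1 + η)/q`, so the sum is at most `(1 + η) ∑_{n^(1/8) ≤ q < n^(1/3 + η)} φ(x)/q` with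
`φ(x) = (1/8)/(1/2 - η - x)` (increasing, at most `1` for `η ≤ 1/100`; `1/3 + 2 η < 1/2`), and by `prime_int` the sum tends to
`∫_{1/8}^{1/3 + η} (1/8)/(x (1/2 - η - x)) dx = (1/8) (1/2 - η)⁻¹ [log (x/(1/2 - η - x))]_{1/8}^{1/3 + η}`,
which tends to `(1/4)(log 2 + log 3)` as `η → 0`. (The integral: `integral_eq_sub_of_hasDerivAt`.) -/
theorem prime_S2 (ε : ℝ) (hε : 0 < ε) (B Q0 : ℕ) (hQ : 1 ≤ Q0) : ∃ n0 : ℕ, ∀ n : ℕ, n0 ≤ n →
    ∑ q ∈ PR (zz n) (yy n), gq q * (Real.log (zz n) / Real.log ((DD n B : ℝ) / q / Q0)) ≤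
      1 / 4 * Real.log 6 + ε ∧
    ∑ q ∈ PR (zz n) (yy n), gq q ≤ 2 := by
  obtain ⟨η, hη, hη1, hG⟩ := cp2_eta (ε / 2) (by linarith)
  obtain ⟨C, hC, hpi⟩ := prime_int
  obtain ⟨n1, hn1⟩ := dd_log B Q0 hQ η hη
  obtain ⟨n2, hn2⟩ := cdl_zz (2 + (1 + η) / η)
  obtain ⟨n3, hn3⟩ := cdl_log (max (1 / η) (max (32 * C / ε) (80 * C)))
  refine ⟨n1 + n2 + n3 + 3, fun n hn => ?_⟩
  have hN : (3 : ℝ) ≤ n := by exact_mod_cast (by omega : 3 ≤ n)
  have hL : 0 < Real.log n := Real.log_pos (by linarith)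
  obtain ⟨L, hLdef⟩ : ∃ L : ℝ, L = Real.log n := ⟨_, rfl⟩
  obtain ⟨hD1, hDl, hDu, hDp⟩ := hn1 n (by omega)
  have hzn := hn2 n (by omega)
  have hLn := hn3 n (by omega)
  have hlz := log_zz n (by omega)
  rw [← hLdef] at hL hDl hDu hLn hlz
  have hL1 : 1 / η ≤ L := le_trans (le_max_left _ _) hLn
  have hL2 : 32 * C / ε ≤ L := le_trans (le_trans (le_max_left _ _) (le_max_right _ _)) hLn
  have hL3 : 80 * C ≤ L := le_trans (le_trans (le_max_right _ _) (le_max_right _ _)) hLn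
  have hηinv : 0 < (1 + η) / η := by positivity
  have hz2 : 2 ≤ zz n := by linarith
  have hzpos : 0 < zz n := by linarith
  obtain ⟨b, hb⟩ : ∃ b : ℝ, b = 1 / 3 + η := ⟨_, rfl⟩
  have hlyy : Real.log (yy n) = 1 / 3 * (Real.log 2 + L) := by
    unfold yy
    rw [Real.log_rpow (by linarith), Real.log_mul (by norm_num) (by linarith), hLdef]
  have hlog2 : Real.log 2 ≤ 1 := by
    have := Real.log_two_lt_d9
    linarith
  have hyypos : 0 < yy n := by unfold yy; positivity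
  have hyb : yy n ≤ (n : ℝ) ^ b := by
    rw [← Real.log_le_log_iff hyypos (by positivity), hlyy, Real.log_rpow (by linarith),
      ← hLdef, hb]
    have : 1 ≤ η * L := by
      rw [div_le_iff₀ hη] at hL1
      linarith
    nlinarith
  have hsub : PR (zz n) (yy n) ⊆ PR ((n : ℝ) ^ (1 / 8 : ℝ)) ((n : ℝ) ^ b) := by
    intro q hq
    rw [mem_PR] at hq ⊢
    exact ⟨hq.1, hq.2.1, lt_of_lt_of_le hq.2.2 hyb⟩
  -- facts about `q`
  have hqf : ∀ q ∈ PR ((n : ℝ) ^ (1 / 8 : ℝ)) ((n : ℝ) ^ b), (0 : ℝ) < q ∧ 1 / 8 ≤ Real.log q / L ∧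
      Real.log q / L ≤ b ∧ 0 ≤ gq q ∧ gq q ≤ (1 + η) / q := by
    intro q hq
    obtain ⟨hqp, hq1, hq2⟩ := mem_PR.mp hq
    have hq1' : zz n ≤ q := hq1
    have hq0 : (0 : ℝ) < q := by linarith
    refine ⟨hq0, ?_, ?_, ?_, ?_⟩
    · rw [le_div_iff₀ hL]
      have := Real.log_le_log hzpos hq1'
      rw [hlz] at this
      exact this
    · rw [div_le_iff₀ hL]
      have := Real.log_le_log hq0 hq2.le
      rw [Real.log_rpow (by linarith), ← hLdef] at this
      exact this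
    · unfold gq
      apply div_nonneg zero_le_one
      linarith
    · unfold gq
      rw [div_le_div_iff₀ (by linarith) hq0]
      have h1 : (1 + η) / η ≤ q := by linarith
      rw [div_le_iff₀ hη] at h1
      linarith
  have hκb : b < 1 / 2 - η := by rw [hb]; linarith
  constructor
  · -- first sum
    have hΦ : ∀ x ∈ Set.Icc (1 / 8 : ℝ) b, |1 / 8 / ((1 / 2 - η) - x)| ≤ 1 := by
      intro x hx
      rw [Set.mem_Icc] at hx
      have h1 : 1 / 8 ≤ (1 / 2 - η) - x := by rw [hb] at hx; linarith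
      rw [abs_of_nonneg (by apply div_nonneg (by norm_num); linarith)]
      rw [div_le_one (by linarith)]
      exact h1
    have hmono : MonotoneOn (fun x : ℝ => 1 / 8 / ((1 / 2 - η) - x)) (Set.Icc (1 / 8 : ℝ) b) := by
      intro x hx y hy hxy
      rw [Set.mem_Icc] at hx hy
      apply div_le_div_of_nonneg_left (by norm_num)
      · rw [hb] at hy; linarith
      · linarith
    have hpi1 := hpi n (1 / 8) b 1 (fun x : ℝ => 1 / 8 / ((1 / 2 - η) - x)) (by omega)
      (by norm_num) (by rw [hb]; linarith) (by rw [hb]; linarith) hz2 (Or.inl hmono) hΦ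
    rw [cp2_int (1 / 2 - η) b (by rw [hb]; linarith) hκb, ← hLdef, abs_le] at hpi1
    have hterm : ∀ q ∈ PR (zz n) (yy n), gq q * (Real.log (zz n) /
        Real.log ((DD n B : ℝ) / q / Q0)) ≤
        (1 + η) * ((1 / 8 / ((1 / 2 - η) - Real.log q / L)) / q) := by
      intro q hq
      obtain ⟨hq0, hx1, hx2, hg0, hg1⟩ := hqf q (hsub hq)
      have h1 : Real.log ((DD n B : ℝ) / q / Q0) = Real.log ((DD n B : ℝ) / Q0) - Real.log q := by
        rw [show (DD n B : ℝ) / q / Q0 = (DD n B : ℝ) / Q0 / q by ring,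
          Real.log_div hDp.ne' hq0.ne']
      have h2 : 0 < (1 / 2 - η) - Real.log q / L := by linarith
      have h3 : ((1 / 2 - η) - Real.log q / L) * L ≤ Real.log ((DD n B : ℝ) / q / Q0) := by
        rw [h1, sub_mul, div_mul_cancel₀ _ hL.ne']
        linarith
      have h4 : Real.log (zz n) / Real.log ((DD n B : ℝ) / q / Q0) ≤
          1 / 8 / ((1 / 2 - η) - Real.log q / L) := by
        rw [hlz, div_le_div_iff₀ (lt_of_lt_of_le (by positivity) h3) h2]
        calc 1 / 8 * L * ((1 / 2 - η) - Real.log q / L) =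
            1 / 8 * (((1 / 2 - η) - Real.log q / L) * L) := by ring
          _ ≤ 1 / 8 * Real.log ((DD n B : ℝ) / q / Q0) := by
            apply mul_le_mul_of_nonneg_left h3 (by norm_num)
      have h5 : 0 ≤ Real.log (zz n) / Real.log ((DD n B : ℝ) / q / Q0) := by
        apply div_nonneg
        · rw [hlz]; positivity
        · exact le_trans (by positivity) h3
      calc gq q * (Real.log (zz n) / Real.log ((DD n B : ℝ) / q / Q0))
          ≤ (1 + η) / q * (1 / 8 / ((1 / 2 - η) - Real.log q / L)) := by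
            apply mul_le_mul hg1 h4 h5 (by positivity)
        _ = (1 + η) * ((1 / 8 / ((1 / 2 - η) - Real.log q / L)) / q) := by ring
    calc ∑ q ∈ PR (zz n) (yy n), gq q * (Real.log (zz n) / Real.log ((DD n B : ℝ) / q / Q0))
        ≤ ∑ q ∈ PR (zz n) (yy n), (1 + η) * ((1 / 8 / ((1 / 2 - η) - Real.log q / L)) / q) :=
          sum_le_sum hterm
      _ = (1 + η) * ∑ q ∈ PR (zz n) (yy n), (1 / 8 / ((1 / 2 - η) - Real.log q / L)) / q := by
          rw [mul_sum]
      _ ≤ (1 + η) * ∑ q ∈ PR ((n : ℝ) ^ (1 / 8 : ℝ)) ((n : ℝ) ^ b),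
          (1 / 8 / ((1 / 2 - η) - Real.log q / L)) / q := by
          apply mul_le_mul_of_nonneg_left _ (by linarith)
          apply sum_le_sum_of_subset_of_nonneg hsub
          intro q hq _
          obtain ⟨hq0, hx1, hx2, hg0, hg1⟩ := hqf q hq
          have h2 : 0 < (1 / 2 - η) - Real.log q / L := by linarith
          positivity
      _ ≤ (1 + η) * (1 / (8 * (1 / 2 - η)) * (Real.log b - Real.log ((1 / 2 - η) - b)) -
          1 / (8 * (1 / 2 - η)) * (Real.log (1 / 8) - Real.log ((1 / 2 - η) - 1 / 8)) +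
          C * 1 / (1 / 8 * L)) := by
          apply mul_le_mul_of_nonneg_left _ (by linarith)
          linarith [hpi1.2]
      _ ≤ 1 / 4 * Real.log 6 + ε / 2 + (1 + η) * (C * 1 / (1 / 8 * L)) := by
          rw [mul_add, hb]
          linarith
      _ ≤ 1 / 4 * Real.log 6 + ε := by
          have h1 : (1 + η) * (C * 1 / (1 / 8 * L)) ≤ ε / 2 := by
            have h2 : C * 1 / (1 / 8 * L) = 8 * C / L := by
              field_simp
            have h3 : 8 * C / L ≤ ε / 4 := by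
              rw [div_le_iff₀ hL]
              rw [div_le_iff₀ hε] at hL2
              linarith
            rw [h2]
            have h4 : 0 ≤ 8 * C / L := by positivity
            nlinarith
          linarith
  · have hΦ : ∀ x ∈ Set.Icc (1 / 8 : ℝ) b, |(1 : ℝ)| ≤ 1 := by
      intro x _
      simp
    have hmono : MonotoneOn (fun _ : ℝ => (1 : ℝ)) (Set.Icc (1 / 8 : ℝ) b) := by
      intro x hx y hy hxy
      exact le_rfl
    have hpi1 := hpi n (1 / 8) b 1 (fun _ : ℝ => (1 : ℝ)) (by omega)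
      (by norm_num) (by rw [hb]; linarith) (by rw [hb]; linarith) hz2 (Or.inl hmono) hΦ
    have hint : ∫ x in (1 / 8 : ℝ)..b, (1 : ℝ) / x = Real.log (8 * b) := by
      rw [integral_one_div_of_pos (by norm_num) (by rw [hb]; linarith)]
      congr 1
      field_simp
    rw [hint, ← hLdef, abs_le] at hpi1
    have hlogb : Real.log (8 * b) ≤ 8 * b - 1 := by
      have : 0 < 8 * b := by rw [hb]; linarith
      exact Real.log_le_sub_one_of_pos this
    calc ∑ q ∈ PR (zz n) (yy n), gq q ≤ ∑ q ∈ PR (zz n) (yy n), (1 + η) * (1 / (q : ℝ)) := by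
          apply sum_le_sum
          intro q hq
          have := (hqf q (hsub hq)).2.2.2.2
          calc gq q ≤ (1 + η) / q := this
            _ = (1 + η) * (1 / (q : ℝ)) := by ring
      _ = (1 + η) * ∑ q ∈ PR (zz n) (yy n), 1 / (q : ℝ) := by rw [mul_sum]
      _ ≤ (1 + η) * ∑ q ∈ PR ((n : ℝ) ^ (1 / 8 : ℝ)) ((n : ℝ) ^ b), 1 / (q : ℝ) := by
          apply mul_le_mul_of_nonneg_left _ (by linarith)
          apply sum_le_sum_of_subset_of_nonneg hsub
          intro q hq _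
          positivity
      _ ≤ (1 + η) * (8 * b - 1 + C * 1 / (1 / 8 * L)) := by
          apply mul_le_mul_of_nonneg_left _ (by linarith)
          linarith [hpi1.2]
      _ ≤ 2 := by
          have h2 : C * 1 / (1 / 8 * L) = 8 * C / L := by
            field_simp
          have h3 : 8 * C / L ≤ 1 / 10 := by
            rw [div_le_iff₀ hL]
            linarith
          rw [h2, hb]
          nlinarith

end Pool.Agent.Lib.H59C
end
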