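import Pool.Agent.Lib.H1M.RV2.M035
import Pool.Agent.Lib.H1M.RV2.M036

/-! Merged copies (to shorten the build) of Lib.H18E.ML, Lib.H18Q.PF, Lib.H18Q.R2B. -/

-- from Lib.H18E.ML
section

/-!
# Chunk ML: lower bound for the correlations of the model
-/

open Finset Pool.Agent.Lib.H68T

namespace Pool.Agent.Lib.H18E

/-- The weight `|x + W c|^(β-1)` along the class, constant for `c ≥ H - 1`. -/
noncomputable def ml_w (H W : ℕ) (x : ℤ) (β : ℝ) (c : ℕ) : ℝ :=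
  |((x + W * (min c (H - 1) : ℕ) : ℤ) : ℝ)| ^ (β - 1)

theorem ml_one_le {H W : ℕ} {x : ℤ} (hH : 1 ≤ H) (hW : 0 < W) (hx : 1 ≤ x ∨ x + W * H ≤ 0)
    (c : ℕ) : (1 : ℝ) ≤ |((x + W * (min c (H - 1) : ℕ) : ℤ) : ℝ)| := by
  have hc : min c (H - 1) ≤ H - 1 := min_le_right _ _
  set k := min c (H - 1) with hk
  have hW' : (0 : ℤ) < W := by exact_mod_cast hW
  have hk0 : (0 : ℤ) ≤ (W : ℤ) * k := by positivity
  have hk1 : (W : ℤ) * k + W ≤ W * H := by
    have : W * (k + 1) ≤ W * H := Nat.mul_le_mul_left _ (by omega)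
    have h3 : ((W * (k + 1) : ℕ) : ℤ) ≤ ((W * H : ℕ) : ℤ) := by exact_mod_cast this
    push_cast at h3
    linarith
  rw [← Int.cast_abs]
  have : (1 : ℤ) ≤ |x + W * (k : ℕ)| := by
    rcases hx with hx | hx
    · rw [abs_of_pos (by linarith)]
      linarith
    · rw [abs_of_neg (by linarith)]
      linarith
  exact_mod_cast this

theorem ml_w_nonneg (H W : ℕ) (x : ℤ) (β : ℝ) (c : ℕ) : 0 ≤ ml_w H W x β c := by
  unfold ml_w
  positivity

theorem ml_w_le {H W : ℕ} {x : ℤ} {β : ℝ} (hH : 1 ≤ H) (hW : 0 < W)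
    (hx : 1 ≤ x ∨ x + W * H ≤ 0) (hβ1 : β ≤ 1) (c : ℕ) : ml_w H W x β c ≤ 1 := by
  unfold ml_w
  exact Real.rpow_le_one_of_one_le_of_nonpos (ml_one_le hH hW hx c) (by linarith)

theorem ml_w_mono {H W : ℕ} {x : ℤ} {β : ℝ} (hH : 1 ≤ H) (hW : 0 < W)
    (hx : 1 ≤ x ∨ x + W * H ≤ 0) (hβ1 : β ≤ 1) :
    Antitone (ml_w H W x β) ∨ Monotone (ml_w H W x β) := by
  have hW' : (0 : ℤ) < W := by exact_mod_cast hW
  have key : ∀ c c' : ℕ, c ≤ c' → (W : ℤ) * (min c (H - 1) : ℕ) ≤ W * (min c' (H - 1) : ℕ) := by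
    intro c c' h
    have : min c (H - 1) ≤ min c' (H - 1) := min_le_min_right _ h
    have h2 : ((min c (H - 1) : ℕ) : ℤ) ≤ ((min c' (H - 1) : ℕ) : ℤ) := by exact_mod_cast this
    nlinarith
  have hb : ∀ c : ℕ, (0 : ℤ) ≤ (W : ℤ) * (min c (H - 1) : ℕ) ∧
      (W : ℤ) * (min c (H - 1) : ℕ) + W ≤ W * H := by
    intro c
    refine ⟨by positivity, ?_⟩
    have h1 : min c (H - 1) ≤ H - 1 := min_le_right _ _
    have : W * (min c (H - 1) + 1) ≤ W * H := Nat.mul_le_mul_left _ (by omega)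
    have h3 : ((W * (min c (H - 1) + 1) : ℕ) : ℤ) ≤ ((W * H : ℕ) : ℤ) := by exact_mod_cast this
    push_cast at h3 ⊢
    linarith
  rcases hx with hx | hx
  · left
    intro c c' h
    unfold ml_w
    apply Real.rpow_le_rpow_of_nonpos
    · exact lt_of_lt_of_le one_pos (ml_one_le hH hW (Or.inl hx) c)
    · rw [← Int.cast_abs, ← Int.cast_abs]
      have h1 := key c c' h
      have h2 := hb c
      have h3 := hb c'
      have : |x + W * (min c (H - 1) : ℕ)| ≤ |x + W * (min c' (H - 1) : ℕ)| := by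
        rw [abs_of_pos (by linarith [h2.1]), abs_of_pos (by linarith [h3.1])]
        linarith
      exact_mod_cast this
    · linarith
  · right
    intro c c' h
    unfold ml_w
    apply Real.rpow_le_rpow_of_nonpos
    · exact lt_of_lt_of_le one_pos (ml_one_le hH hW (Or.inr hx) c')
    · rw [← Int.cast_abs, ← Int.cast_abs]
      have h1 := key c c' h
      have h2 := hb c
      have h3 := hb c'
      have : |x + W * (min c' (H - 1) : ℕ)| ≤ |x + W * (min c (H - 1) : ℕ)| := by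
        rw [abs_of_neg (by linarith [h3.2]), abs_of_neg (by linarith [h2.2])]
        linarith
      exact_mod_cast this
    · linarith

/-- The weighted expansion. -/
noncomputable def ml_S (Q W : ℕ) (x : ℤ) (A : ℕ → ℕ → ℝ) (c : ℕ) : ℝ :=
  ∑ q ∈ QW Q W, (ArithmeticFunction.moebius q : ℝ) / (Nat.totient q : ℝ) *
    cq q (x + W * (c : ℕ)) * A q c

theorem ml_MM_eq (Q H W r : ℕ) (x : ℤ) (c : ℕ) (β ε : ℝ) (hW : 0 < W) (hr : r ∣ W)
    (hx : IsCoprime x (W : ℤ)) (hc : c < H) :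
    MM Q r ε β (x + W * (c : ℕ)) =
      ml_S Q W x (fun q _ => TW Q W q) c -
        ε * ml_S Q W x (fun q c => ml_w H W x β c * TWr Q W r q) c := by
  have hm : IsCoprime (x + W * (c : ℕ)) (W : ℤ) := hx.add_mul_left_left _
  unfold MM ml_S
  rw [G_coprime Q W hW _ hm, Gam_coprime Q W r hW hr _ hm, mul_sum, mul_sum]
  congr 1
  apply sum_congr rfl
  intro q _
  have hc' : |((x + W * (c : ℕ) : ℤ) : ℝ)| ^ (β - 1) = ml_w H W x β c := by
    unfold ml_w
    have : min c (H - 1) = c := by omega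
    rw [this]
  rw [hc']
  ring

/-- Lower bound version of `x_pair` (file `H68X/XCG.lean`), for two starting points `x`, `y`.

All `m = x + W c`, `m' = y + W c`, `c < H`, are coprime to `W`, nonzero; `|m|` is increasing in `c`
and `|m'|` is increasing (if `1 ≤ y`) or decreasing (if `y + W H ≤ 0`). By `G_coprime`, `Gam_coprime`
(`XG1.lean`) `MM(m) = ∑_{q ∈ QW Q W} (μ(q)/φ(q)) c_q(m) (A q c - ε B q c)`, `A q c = TW Q W q`,
`B q c = |m|^(β-1) TWr Q W r q`, all in `[0, W/φ(W)]`, monotone in `c` (extend the weights monotonically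
outside `c < H`, e.g. replace `c` by `min c (H - 1)`); similarly `m'`. Expand the product into four
correlations, apply `pair_gen` to each (`D = W/φ(W)`): up to `8 D² Q^6 ≤ Q^9` the sum is
`∑_q (μ(q)/φ(q))² c_q(x-y) ∑_c (A - ε B)(A' - ε' B')`. For `q² ≤ Q` (so `W q ≤ Q`, as `W^100 ≤ Q`)
`TW_eq`, `TWr_eq` (file `XTW.lean`) give the inner sum
`(W/φ(W))² ∑_c (1 - ε |m|^(β-1))(1 - ε' |m'|^(β-1)) ≥ 0`, and `ss_low` applies to the sum over these
`q`. For `q² > Q` the inner sum is at most `4 (W/φ(W))² H` in absolute value, the terms vanish unless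
`q` is squarefree, `|c_q(D)| ≤ φ((q,D))` (`cq_squarefree`): `ss_tail`. Note
`∑_c (1 - ..)(1 - ..) ≤ 4 H`. -/
theorem model_low : ∃ C : ℝ, 1 ≤ C ∧ ∀ (Q H W r : ℕ) (x y : ℤ) (β ε ε' : ℝ), 0 < W →
    W ^ 100 ≤ Q → 8 ≤ Q → r ∣ W → IsCoprime x (W : ℤ) → IsCoprime y (W : ℤ) → 1 ≤ x →
    (1 ≤ y ∨ y + W * H ≤ 0) → x ≠ y → (2 ∣ W ∨ (2 : ℤ) ∣ x - y) → 1 / 2 ≤ β → β ≤ 1 →
    |ε| ≤ 1 → |ε'| ≤ 1 →
    ((W : ℝ) / Nat.totient W) ^ 2 *
        ((∑ c ∈ range H, (1 - ε * |((x + W * (c : ℕ) : ℤ) : ℝ)| ^ (β - 1)) *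
            (1 - ε' * |((y + W * (c : ℕ) : ℤ) : ℝ)| ^ (β - 1))) * (1 / 2 * Gp W (x - y)) -
          C * H * (Q : ℝ) ^ (-(1 / 4) : ℝ) * Rk (x - y)) - (Q : ℝ) ^ 9 ≤
      ∑ c ∈ range H, MM Q r ε β (x + W * (c : ℕ)) * MM Q r ε' β (y + W * (c : ℕ)) := by
  obtain ⟨C1, hC1, hlow⟩ := ss_low
  obtain ⟨C2, hC2, htail⟩ := ss_tail
  refine ⟨4 * C1 + 4 * C2, by linarith, ?_⟩
  intro Q H W r x y β ε ε' hW hWQ hQ hr hx hy hx1 hy1 hxy hpar hβ hβ1 hε hε'
  have hQr : (8 : ℝ) ≤ Q := by exact_mod_cast hQ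
  by_cases hH0 : H = 0
  · subst hH0
    simp only [range_zero, sum_empty, Nat.cast_zero, zero_mul, mul_zero, sub_zero]
    have : 0 ≤ (Q : ℝ) ^ 9 := by positivity
    linarith
  have hH : 1 ≤ H := by omega
  have hH' : (1 : ℝ) ≤ H := by exact_mod_cast hH
  set D : ℝ := (W : ℝ) / Nat.totient W with hD
  have hD0 : 0 ≤ D := by positivity
  set d : ℤ := x - y with hd
  have hd0 : d ≠ 0 := sub_ne_zero.mpr hxy
  set A : ℕ → ℕ → ℝ := fun q _ => TW Q W q with hA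
  set B : ℕ → ℕ → ℝ := fun q c => ml_w H W x β c * TWr Q W r q with hB
  set B' : ℕ → ℕ → ℝ := fun q c => ml_w H W y β c * TWr Q W r q with hB'
  have hA0 : ∀ q c, 0 ≤ A q c := fun q _ => TW_nonneg Q W q
  have hAD : ∀ q c, A q c ≤ D := fun q _ => TW_le Q W q hW
  have hAm : ∀ q, Antitone (A q) ∨ Monotone (A q) := fun q => Or.inl (fun _ _ _ => le_refl _)
  have gB0 : ∀ (z : ℤ) (q c : ℕ), 0 ≤ ml_w H W z β c * TWr Q W r q := fun z q c =>
    mul_nonneg (ml_w_nonneg H W z β c) (TWr_nonneg Q W r q)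
  have gBD : ∀ z : ℤ, (1 ≤ z ∨ z + W * H ≤ 0) → ∀ q c : ℕ,
      ml_w H W z β c * TWr Q W r q ≤ D := fun z hz q c => by
    have h1 := ml_w_le hH hW hz hβ1 c
    have h3 := TWr_nonneg Q W r q
    have h4 := TWr_le Q W r q hW hr
    calc ml_w H W z β c * TWr Q W r q ≤ 1 * TWr Q W r q := mul_le_mul_of_nonneg_right h1 h3
      _ ≤ D := by rw [one_mul]; exact h4
  have gBm : ∀ z : ℤ, (1 ≤ z ∨ z + W * H ≤ 0) → ∀ q : ℕ,
      Antitone (fun c => ml_w H W z β c * TWr Q W r q) ∨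
        Monotone (fun c => ml_w H W z β c * TWr Q W r q) := fun z hz q => by
    rcases ml_w_mono hH hW hz hβ1 with h | h
    · exact Or.inl (fun c c' hc => mul_le_mul_of_nonneg_right (h hc) (TWr_nonneg Q W r q))
    · exact Or.inr (fun c c' hc => mul_le_mul_of_nonneg_right (h hc) (TWr_nonneg Q W r q))
  have hx1' : 1 ≤ x ∨ x + W * H ≤ 0 := Or.inl hx1
  have hB0 : ∀ q c, 0 ≤ B q c := gB0 x
  have hB0' : ∀ q c, 0 ≤ B' q c := gB0 y
  have hBD : ∀ q c, B q c ≤ D := gBD x hx1'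
  have hBD' : ∀ q c, B' q c ≤ D := gBD y hy1
  have hBm : ∀ q, Antitone (B q) ∨ Monotone (B q) := gBm x hx1'
  have hBm' : ∀ q, Antitone (B' q) ∨ Monotone (B' q) := gBm y hy1
  -- the four correlations
  set T : (ℕ → ℕ → ℝ) → (ℕ → ℕ → ℝ) → ℝ := fun U V => ∑ c ∈ range H,
    ml_S Q W x U c * ml_S Q W y V c with hT
  set Z : (ℕ → ℕ → ℝ) → (ℕ → ℕ → ℝ) → ℝ := fun U V =>
    ∑ q ∈ QW Q W, ((ArithmeticFunction.moebius q : ℝ) / (Nat.totient q : ℝ)) ^ 2 *
        cq q d * ∑ c ∈ range H, U q c * V q c with hZ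
  have hAA' : |T A A - Z A A| ≤ 2 * D ^ 2 * (Q : ℝ) ^ 6 :=
    pair_gen Q H W hW x y A A D hD0 hA0 hAD hA0 hAD hAm hAm
  have hAB' : |T A B' - Z A B'| ≤ 2 * D ^ 2 * (Q : ℝ) ^ 6 :=
    pair_gen Q H W hW x y A B' D hD0 hA0 hAD hB0' hBD' hAm hBm'
  have hBA' : |T B A - Z B A| ≤ 2 * D ^ 2 * (Q : ℝ) ^ 6 :=
    pair_gen Q H W hW x y B A D hD0 hB0 hBD hA0 hAD hBm hAm
  have hBB' : |T B B' - Z B B'| ≤ 2 * D ^ 2 * (Q : ℝ) ^ 6 :=
    pair_gen Q H W hW x y B B' D hD0 hB0 hBD hB0' hBD' hBm hBm'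
  have hE0 : 0 ≤ 2 * D ^ 2 * (Q : ℝ) ^ 6 := by positivity
  have hexp : ∑ c ∈ range H, MM Q r ε β (x + W * (c : ℕ)) * MM Q r ε' β (y + W * (c : ℕ)) =
      T A A - ε' * T A B' - ε * T B A + ε * ε' * T B B' := by
    simp only [hT]
    rw [mul_sum, mul_sum, mul_sum, ← sum_sub_distrib, ← sum_sub_distrib, ← sum_add_distrib]
    apply sum_congr rfl
    intro c hc
    rw [ml_MM_eq Q H W r x c β ε hW hr hx (mem_range.mp hc),
      ml_MM_eq Q H W r y c β ε' hW hr hy (mem_range.mp hc)]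
    simp only [hA, hB, hB']
    ring
  have herr : Z A A - ε' * Z A B' - ε * Z B A + ε * ε' * Z B B' - 8 * D ^ 2 * (Q : ℝ) ^ 6 ≤
      T A A - ε' * T A B' - ε * T B A + ε * ε' * T B B' := by
    have gen : ∀ (η u v : ℝ), |η| ≤ 1 → |u - v| ≤ 2 * D ^ 2 * (Q : ℝ) ^ 6 →
        η * v - 2 * D ^ 2 * (Q : ℝ) ^ 6 ≤ η * u := by
      intro η u v h1 h2
      have h3 : |η * (u - v)| ≤ 2 * D ^ 2 * (Q : ℝ) ^ 6 := by
        rw [abs_mul]
        calc |η| * |u - v| ≤ 1 * (2 * D ^ 2 * (Q : ℝ) ^ 6) :=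
              mul_le_mul h1 h2 (abs_nonneg _) (by norm_num)
          _ = _ := one_mul _
      have h4 := (abs_le.mp h3).1
      have h5 : η * (u - v) = η * u - η * v := by ring
      linarith
    have e1 := gen 1 _ _ (by norm_num) hAA'
    have e2 := gen (-ε') _ _ (by rw [abs_neg]; exact hε') hAB'
    have e3 := gen (-ε) _ _ (by rw [abs_neg]; exact hε) hBA'
    have e4 := gen (ε * ε') _ _ (by
      rw [abs_mul]
      exact mul_le_one₀ hε (abs_nonneg _) hε') hBB'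
    linarith
  have herr2 : 8 * D ^ 2 * (Q : ℝ) ^ 6 ≤ (Q : ℝ) ^ 9 := by
    have h1 : D ^ 2 ≤ Q := XCG_D_sq Q W hW hWQ
    calc 8 * D ^ 2 * (Q : ℝ) ^ 6 ≤ Q * Q * (Q : ℝ) ^ 6 := by gcongr
      _ = (Q : ℝ) ^ 8 := by ring
      _ ≤ (Q : ℝ) ^ 9 := pow_le_pow_right₀ (by linarith) (by norm_num)
  -- the main term
  set I : ℕ → ℝ := fun q => ∑ c ∈ range H, (A q c - ε * B q c) * (A q c - ε' * B' q c) with hI
  have hmain : Z A A - ε' * Z A B' - ε * Z B A + ε * ε' * Z B B' =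
      ∑ q ∈ QW Q W, ((ArithmeticFunction.moebius q : ℝ) / (Nat.totient q : ℝ)) ^ 2 *
        cq q d * I q := by
    simp only [hZ, hI]
    rw [mul_sum, mul_sum, mul_sum, ← sum_sub_distrib, ← sum_sub_distrib, ← sum_add_distrib]
    apply sum_congr rfl
    intro q _
    have h1 : ∑ c ∈ range H, (A q c - ε * B q c) * (A q c - ε' * B' q c) =
        ∑ c ∈ range H, A q c * A q c - ε' * ∑ c ∈ range H, A q c * B' q c -
          ε * ∑ c ∈ range H, B q c * A q c + ε * ε' * ∑ c ∈ range H, B q c * B' q c := by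
      rw [mul_sum, mul_sum, mul_sum, ← sum_sub_distrib, ← sum_sub_distrib, ← sum_add_distrib]
      apply sum_congr rfl
      intro c _
      ring
    rw [h1]
    ring
  set Sg : ℝ := ∑ c ∈ range H, (1 - ε * |((x + W * (c : ℕ) : ℤ) : ℝ)| ^ (β - 1)) *
            (1 - ε' * |((y + W * (c : ℕ) : ℤ) : ℝ)| ^ (β - 1)) with hSg
  have hSgw : Sg = ∑ c ∈ range H, (1 - ε * ml_w H W x β c) * (1 - ε' * ml_w H W y β c) := by
    rw [hSg]
    refine sum_congr rfl fun c hc => ?_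
    have hc' := mem_range.mp hc
    unfold ml_w
    have : min c (H - 1) = c := by omega
    rw [this]
  have hone : ∀ (z : ℤ) (η : ℝ), |η| ≤ 1 → (1 ≤ z ∨ z + W * H ≤ 0) → ∀ c : ℕ,
      0 ≤ 1 - η * ml_w H W z β c ∧ 1 - η * ml_w H W z β c ≤ 2 := by
    intro z η hη hz c
    have h1 := ml_w_le hH hW hz hβ1 c
    have h2 := ml_w_nonneg H W z β c
    have h3 := abs_le.mp hη
    constructor <;> nlinarith
  have hSg0 : 0 ≤ Sg := by
    rw [hSgw]
    exact sum_nonneg fun c _ => mul_nonneg (hone x ε hε hx1' c).1 (hone y ε' hε' hy1 c).1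
  have hSg4 : Sg ≤ 4 * H := by
    rw [hSgw]
    calc _ ≤ ∑ _c ∈ range H, (4 : ℝ) := by
          apply sum_le_sum
          intro c _
          have h1 := hone x ε hε hx1' c
          have h2 := hone y ε' hε' hy1 c
          calc _ ≤ (2 : ℝ) * 2 := mul_le_mul h1.2 h2.2 h2.1 (by norm_num)
            _ = 4 := by norm_num
      _ = 4 * H := by rw [sum_const, card_range, nsmul_eq_mul]; ring
  have hIsmall : ∀ q : ℕ, q ^ 2 ≤ Q → I q = D ^ 2 * Sg := by
    intro q hq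
    have hWq : W * q ≤ Q := by
      have h1 := XCG_W_sq Q W hW hWQ
      have h2 : (W * q) ^ 2 ≤ Q ^ 2 := by
        calc (W * q) ^ 2 = W ^ 2 * q ^ 2 := by ring
          _ ≤ Q * Q := Nat.mul_le_mul h1 hq
          _ = Q ^ 2 := by ring
      exact (Nat.pow_le_pow_iff_left (by norm_num)).mp h2
    rw [hSgw]
    simp only [hI]
    rw [mul_sum]
    apply sum_congr rfl
    intro c _
    simp only [hA, hB, hB']
    rw [TW_eq Q W q hW hWq, TWr_eq Q W r q hW hr hWq]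
    ring
  have hIbig : ∀ q : ℕ, |I q| ≤ H * (4 * D ^ 2) := by
    intro q
    simp only [hI]
    refine (abs_sum_le_sum_abs _ _).trans ?_
    calc ∑ c ∈ range H, |(A q c - ε * B q c) * (A q c - ε' * B' q c)|
        ≤ ∑ _c ∈ range H, 4 * D ^ 2 := by
          apply sum_le_sum
          intro c _
          rw [abs_mul]
          have key : ∀ η u v : ℝ, |η| ≤ 1 → 0 ≤ u → u ≤ D → 0 ≤ v → v ≤ D →
              |u - η * v| ≤ 2 * D := by
            intro η u v hη hu hu' hv hv'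
            have h1 : |η * v| ≤ D := by
              rw [abs_mul, abs_of_nonneg hv]
              calc |η| * v ≤ 1 * D := mul_le_mul hη hv' hv (by norm_num)
                _ = D := one_mul _
            have h2 := abs_le.mp h1
            rw [abs_le]
            constructor <;> linarith
          have h1 := key _ _ _ hε (hA0 q c) (hAD q c) (hB0 q c) (hBD q c)
          have h2 := key _ _ _ hε' (hA0 q c) (hAD q c) (hB0' q c) (hBD' q c)
          calc |A q c - ε * B q c| * |A q c - ε' * B' q c| ≤ (2 * D) * (2 * D) :=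
                mul_le_mul h1 h2 (abs_nonneg _) (by positivity)
            _ = 4 * D ^ 2 := by ring
      _ = H * (4 * D ^ 2) := by rw [sum_const, card_range, nsmul_eq_mul]
  set q4 := (Q : ℝ) ^ (-(1 / 4) : ℝ) with hq4
  have hq40 : 0 ≤ q4 := by positivity
  have hRk : 1 ≤ Rk d := one_le_Rk d
  have hbound : D ^ 2 * (Sg * (1 / 2 * Gp W d) - (4 * C1 + 4 * C2) * H * q4 * Rk d) ≤
      ∑ q ∈ QW Q W, ((ArithmeticFunction.moebius q : ℝ) / (Nat.totient q : ℝ)) ^ 2 *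
        cq q d * I q := by
    rw [← sum_filter_add_sum_filter_not (QW Q W) (fun q => q ^ 2 ≤ Q)]
    have p1 : D ^ 2 * (Sg * (1 / 2 * Gp W d) - 4 * C1 * H * q4 * Rk d) ≤
        ∑ q ∈ (QW Q W).filter (fun q => q ^ 2 ≤ Q),
        ((ArithmeticFunction.moebius q : ℝ) / (Nat.totient q : ℝ)) ^ 2 * cq q d * I q := by
      have h1 := hlow Q W d hd0 hW (by omega) (by
        rcases hpar with h | h
        · exact Or.inl h
        · exact Or.inr h)
      have h2 : ∑ q ∈ (QW Q W).filter (fun q => q ^ 2 ≤ Q),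
          ((ArithmeticFunction.moebius q : ℝ) / (Nat.totient q : ℝ)) ^ 2 * cq q d * I q =
          (D ^ 2 * Sg) * ∑ q ∈ (QW Q W).filter (fun q => q ^ 2 ≤ Q),
          ((ArithmeticFunction.moebius q : ℝ) / (Nat.totient q : ℝ)) ^ 2 * cq q d := by
        rw [mul_sum]
        refine sum_congr rfl fun q hq => ?_
        rw [hIsmall q (mem_filter.mp hq).2]
        ring
      rw [h2]
      refine le_trans ?_ (mul_le_mul_of_nonneg_left h1 (by positivity))
      have h3 : D ^ 2 * Sg * (C1 * q4 * Rk d) ≤ D ^ 2 * (4 * H) * (C1 * q4 * Rk d) := by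
        have : 0 ≤ C1 * q4 * Rk d := by positivity
        gcongr
      have h4 : D ^ 2 * Sg * (1 / 2 * Gp W d - C1 * q4 * Rk d) =
        D ^ 2 * (Sg * (1 / 2 * Gp W d)) - D ^ 2 * Sg * (C1 * q4 * Rk d) := by ring
      rw [h4]
      have h5 : D ^ 2 * (Sg * (1 / 2 * Gp W d) - 4 * C1 * H * q4 * Rk d) =
        D ^ 2 * (Sg * (1 / 2 * Gp W d)) - D ^ 2 * (4 * H) * (C1 * q4 * Rk d) := by ring
      rw [h5]
      linarith
    have p2 : -(D ^ 2 * (4 * C2 * H * q4 * Rk d)) ≤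
        ∑ q ∈ (QW Q W).filter (fun q => ¬ q ^ 2 ≤ Q),
        ((ArithmeticFunction.moebius q : ℝ) / (Nat.totient q : ℝ)) ^ 2 * cq q d * I q := by
      have h1 : |∑ q ∈ (QW Q W).filter (fun q => ¬ q ^ 2 ≤ Q),
        ((ArithmeticFunction.moebius q : ℝ) / (Nat.totient q : ℝ)) ^ 2 * cq q d * I q| ≤
          D ^ 2 * (4 * C2 * H * q4 * Rk d) := by
        refine (abs_sum_le_sum_abs _ _).trans ?_
        calc ∑ q ∈ (QW Q W).filter (fun q => ¬ q ^ 2 ≤ Q),
              |((ArithmeticFunction.moebius q : ℝ) / (Nat.totient q : ℝ)) ^ 2 * cq q d * I q|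
            ≤ ∑ q ∈ (QW Q W).filter (fun q => ¬ q ^ 2 ≤ Q),
              (if Squarefree q then (Nat.totient (Nat.gcd q d.natAbs) : ℝ) /
                (Nat.totient q : ℝ) ^ 2 else 0) * (H * (4 * D ^ 2)) := by
              apply sum_le_sum
              intro q _
              rw [abs_mul, abs_mul]
              have h2 : |((ArithmeticFunction.moebius q : ℝ) / (Nat.totient q : ℝ)) ^ 2| =
                  ((ArithmeticFunction.moebius q : ℝ) / (Nat.totient q : ℝ)) ^ 2 :=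
                abs_of_nonneg (by positivity)
              rw [h2]
              exact mul_le_mul (XCG_cq_le q d) (hIbig q) (abs_nonneg _) (by
                split_ifs <;> positivity)
          _ = (∑ q ∈ ((QW Q W).filter (fun q => ¬ q ^ 2 ≤ Q)).filter Squarefree,
                (Nat.totient (Nat.gcd q d.natAbs) : ℝ) / (Nat.totient q : ℝ) ^ 2) *
                  (H * (4 * D ^ 2)) := by
              rw [← sum_mul, sum_filter (s := (QW Q W).filter (fun q => ¬ q ^ 2 ≤ Q))]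
          _ ≤ (C2 * q4 * Rk d) * (H * (4 * D ^ 2)) := by
              apply mul_le_mul_of_nonneg_right _ (by positivity)
              apply htail Q d hd0 (by omega)
              intro q hq
              rw [mem_filter, mem_filter] at hq
              exact ⟨hq.2, not_le.mp hq.1.2⟩
          _ = _ := by ring
      exact (abs_le.mp h1).1
    have h6 : D ^ 2 * (Sg * (1 / 2 * Gp W d) - (4 * C1 + 4 * C2) * H * q4 * Rk d) =
      D ^ 2 * (Sg * (1 / 2 * Gp W d) - 4 * C1 * H * q4 * Rk d) +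
        -(D ^ 2 * (4 * C2 * H * q4 * Rk d)) := by ring
    rw [h6]
    exact add_le_add p1 p2
  rw [hexp]
  rw [← hmain] at hbound
  linarith

end Pool.Agent.Lib.H18E
end

-- from Lib.H18Q.PF
section

/-!
# Project H18Q, chunk PF: the smooth main terms
-/

open Finset

namespace Pool.Agent.Lib.H18Q

open Pool.Agent.Lib.H68T

theorem pf_sum_int {A M t : ℝ} {O O1 O2 : ℝ → ℝ} (h : XFB_Amp A M O O1 O2) (hM : 0 ≤ M)
    (_hA : 0 < A) (N N0 : ℕ) (hN : A + 6 < Real.log N) (hN0 : 1 ≤ N0) (hAN : Real.log N0 < A) :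
    ‖∑ n ∈ Icc 1 N, XFB_W O t (n:ℝ) - ∫ u in (1:ℝ)..(N : ℝ), XFB_W O t u‖ ≤
      M * (2 + |t|) * (2 / N0) := by
  have hNpos : 1 ≤ N := by
    rcases Nat.eq_zero_or_pos N with h0 | h0
    · rw [h0] at hN; simp at hN; linarith
    · exact h0
  have hzero : ∀ u : ℝ, 1 ≤ u → u ≤ N0 → XFB_W O t u = 0 := by
    intro u hu hu'
    unfold XFB_W
    rw [h.z0 _ (by
      rw [Set.mem_Icc]
      intro h'
      have := Real.log_le_log (by linarith) hu'
      linarith [h'.1])]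
    simp
  have hNN : N0 ≤ N := by
    by_contra hc
    push Not at hc
    have : Real.log N ≤ Real.log N0 := Real.log_le_log (by exact_mod_cast hNpos)
      (by exact_mod_cast hc.le)
    linarith
  have hW1 : XFB_W O t ((1 : ℕ) : ℝ) = 0 := hzero _ (by simp) (by exact_mod_cast hN0)
  have hint : ∀ N : ℕ, 1 ≤ N → ∫ u in (1:ℝ)..(N:ℝ), XFB_W O t u =
      ∑ n ∈ Ico 1 N, ∫ u in (n:ℝ)..((n + 1 : ℕ) : ℝ), XFB_W O t u := by
    intro N hN
    induction N, hN using Nat.le_induction with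
    | base => simp
    | succ N hN ih =>
      rw [sum_Ico_succ_top hN, ← ih, intervalIntegral.integral_add_adjacent_intervals]
      · exact XFB_W_ii O h.c0 t 1 N one_pos (by exact_mod_cast hN)
      · exact XFB_W_ii O h.c0 t N _ (by exact_mod_cast hN) (by push_cast; linarith)
  have hsum : ∀ N : ℕ, 1 ≤ N → ∑ n ∈ Icc 1 N, XFB_W O t (n:ℝ) =
      ∑ n ∈ Ico 1 N, XFB_W O t ((n + 1 : ℕ) : ℝ) := by
    intro N hN
    induction N, hN using Nat.le_induction with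
    | base => simpa using hW1
    | succ N hN ih =>
      rw [sum_Ico_succ_top hN, ← ih, sum_Icc_succ_top (by omega)]
  have hdiff : ‖∑ n ∈ Icc 1 N, XFB_W O t (n:ℝ) - ∫ u in (1:ℝ)..(N : ℝ), XFB_W O t u‖ ≤
      M * (2 + |t|) * (2 / N0) := by
    rw [hint _ hNpos, hsum _ hNpos, ← sum_sub_distrib]
    have hz : ∑ n ∈ Ico 1 N, (XFB_W O t ((n + 1 : ℕ) : ℝ) -
        ∫ u in (n:ℝ)..((n + 1 : ℕ) : ℝ), XFB_W O t u) =
        ∑ n ∈ Ico N0 N, (XFB_W O t ((n + 1 : ℕ) : ℝ) -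
        ∫ u in (n:ℝ)..((n + 1 : ℕ) : ℝ), XFB_W O t u) := by
      symm
      apply sum_subset
      · intro n hn
        rw [mem_Ico] at hn ⊢
        exact ⟨le_trans hN0 hn.1, hn.2⟩
      · intro n hn hn'
        rw [mem_Ico] at hn
        rw [mem_Ico, not_and] at hn'
        have hlt : n < N0 := by
          by_contra h
          exact hn' (not_lt.mp h) hn.2
        have hlt' : ((n + 1 : ℕ) : ℝ) ≤ (N0:ℝ) := by exact_mod_cast hlt
        have z2 : XFB_W O t ((n + 1 : ℕ) : ℝ) = 0 := hzero _ (by push_cast; linarith) hlt'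
        rw [z2, zero_sub, neg_eq_zero]
        rw [intervalIntegral.integral_congr (g := fun _ => (0:ℂ))]
        · simp
        · intro u hu
          rw [Set.uIcc_of_le (by push_cast; linarith)] at hu
          have hn1 : (1:ℝ) ≤ n := by exact_mod_cast hn.1
          exact hzero _ (by linarith [hu.1]) (hu.2.trans hlt')
    rw [hz]
    have hterm : ∀ n ∈ Ico N0 N, ‖XFB_W O t ((n + 1 : ℕ) : ℝ) -
        ∫ u in (n:ℝ)..((n + 1 : ℕ) : ℝ), XFB_W O t u‖ ≤ M * (2 + |t|) * (1 / (n : ℝ) ^ 2) := by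
      intro n hn
      rw [mem_Ico] at hn
      have hn1 : 1 ≤ n := le_trans hN0 hn.1
      have hn1' : (1:ℝ) ≤ n := by exact_mod_cast hn1
      have hle : (n:ℝ) ≤ ((n + 1 : ℕ) : ℝ) := by push_cast; linarith
      have h5 : (((n + 1 : ℕ) : ℝ) - n) = 1 := by push_cast; ring
      have hconst : XFB_W O t ((n + 1 : ℕ) : ℝ) =
          ∫ u in (n:ℝ)..((n + 1 : ℕ) : ℝ), XFB_W O t ((n + 1 : ℕ) : ℝ) := by
        rw [intervalIntegral.integral_const, h5, one_smul]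
      rw [hconst, ← intervalIntegral.integral_sub (by simp)
        (XFB_W_ii O h.c0 t n _ (by linarith) hle)]
      have := intervalIntegral.norm_integral_le_of_norm_le_const (a := (n:ℝ))
        (b := ((n + 1 : ℕ) : ℝ)) (C := M * (2 + |t|) * (1 / (n : ℝ) ^ 2))
        (f := fun u => XFB_W O t ((n + 1 : ℕ) : ℝ) - XFB_W O t u) ?_
      · rw [h5, abs_one, mul_one] at this
        exact this
      · intro u hu
        rw [Set.uIoc_of_le hle] at hu
        have hu1 : 1 ≤ u := by linarith [hu.1]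
        refine (XFB_diff h hM t u ((n + 1 : ℕ) : ℝ) hu1 hu.2).trans ?_
        have h7 : (((n + 1 : ℕ) : ℝ) - u) / u ^ 2 ≤ 1 / (n:ℝ) ^ 2 := by
          apply div_le_div₀ zero_le_one
          · have := hu.1; push_cast; linarith
          · positivity
          · exact pow_le_pow_left₀ (by linarith) hu.1.le 2
        have := abs_nonneg t
        exact mul_le_mul_of_nonneg_left h7 (by positivity)
    refine (norm_sum_le _ _).trans ((sum_le_sum hterm).trans ?_)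
    rw [← mul_sum]
    have := abs_nonneg t
    exact mul_le_mul_of_nonneg_left (LONG_sum_inv_sq N0 N hN0) (by positivity)
  exact hdiff

/-- The integral `Mb` over the support. -/
theorem pf_Mb (X : ℕ) (hX : 8 ≤ X) (b t : ℝ) :
    Mb X b t = ∫ y in (0:ℝ)..Real.log ((60 * X : ℕ) : ℝ),
      (XFB_O (-Real.log X) b y : ℂ) * Complex.exp (-(t * Complex.I) * y) := by
  have hX0 : (0:ℝ) < X := by
    have : 0 < X := by omega
    exact_mod_cast this
  have hX8 : (8:ℝ) ≤ X := by exact_mod_cast hX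
  have hexp2 : Real.exp 2 ≤ 8 := by
    have h2 : Real.exp 2 = (Real.exp 1) ^ 2 := by rw [← Real.exp_nat_mul]; norm_num
    rw [h2]
    have h1 := Real.exp_one_lt_d9
    calc (Real.exp 1) ^ 2 ≤ (2.7182818286:ℝ) ^ 2 := pow_le_pow_left₀ (Real.exp_pos 1).le h1.le 2
      _ ≤ 8 := by norm_num
  have hlX : 2 ≤ Real.log X := (Real.le_log_iff_exp_le hX0).mpr (hexp2.trans hX8)
  have hl60 : (4:ℝ) < Real.log 60 := by
    rw [Real.lt_log_iff_exp_lt (by norm_num)]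
    have : Real.exp 4 = (Real.exp 1) ^ 4 := by
      rw [← Real.exp_nat_mul]; norm_num
    rw [this]
    have h1 := Real.exp_one_lt_d9
    calc (Real.exp 1) ^ 4 ≤ (2.7182818286:ℝ) ^ 4 :=
          pow_le_pow_left₀ (Real.exp_pos 1).le h1.le 4
      _ < 60 := by norm_num
  have hlN : Real.log X + 4 < Real.log ((60 * X : ℕ) : ℝ) := by
    push_cast
    rw [Real.log_mul (by norm_num) hX0.ne']
    linarith
  have hpt : ∀ y : ℝ, (w (y - Real.log X) : ℂ) *
      Complex.exp (-((1 - b : ℝ) + t * Complex.I) * y) =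
      (XFB_O (-Real.log X) b y : ℂ) * Complex.exp (-(t * Complex.I) * y) := by
    intro y
    unfold XFB_O
    rw [← sub_eq_add_neg]
    push_cast
    rw [mul_assoc, ← Complex.exp_add]
    congr 2
    ring
  have hz : ∀ y : ℝ, y ∉ Set.Ioc 0 (Real.log ((60 * X : ℕ) : ℝ)) →
      w (y - Real.log X) = 0 := by
    intro y hy
    rw [Set.mem_Ioc, not_and_or, not_lt, not_le] at hy
    unfold w
    rcases hy with hy | hy
    · rw [Real.smoothTransition.zero_of_nonpos (by linarith), zero_mul]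
    · rw [Real.smoothTransition.zero_of_nonpos (x := 4 - (y - Real.log X)) (by linarith), mul_zero]
  unfold Mb
  rw [intervalIntegral.integral_of_le (by linarith)]
  rw [← MeasureTheory.setIntegral_eq_integral_of_forall_compl_eq_zero
    (s := Set.Ioc 0 (Real.log ((60 * X : ℕ) : ℝ)))]
  · exact MeasureTheory.setIntegral_congr_fun measurableSet_Ioc (fun y _ => hpt y)
  · intro y hy
    rw [hz y hy]
    simp

theorem PF_F0 (X : ℕ) (t : ℝ) : F0 X t = Fb X 1 t := by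
  unfold F0 Fb
  congr 1
  funext m
  simp

/-- Sum and integral: `|Fb X b t - Mb X b t| ≤ C (1 + |t|)/X` for `1/2 ≤ b ≤ 1`, `X` large.

Proof. `Fb X b t = ∑_{m ≤ 60 X} φ(m)`, `φ(x) = w(log x - log X) x^(b - 2 - it)`, and substituting
`x = e^u`, `Mb X b t = ∫_0^∞ φ(x) dx = ∫_{X/e²}^{e⁴ X} φ`. `|φ'(x)| ≤ C (1 + |t|) x^(b-3) ≤
C (1+|t|) x^(-2)`. `|∑_{m ∈ (A, B]} φ(m) - ∫_A^B φ| ≤ ∫_A^B |φ'| ≤ C (1+|t|)/A` with `A = ⌊X/8⌋ - 1`
(`φ = 0` below, as `e² < 7.4`), `B = 60 X`. The lemmas `XFB_W`, `XFB_diff`, `XFB_subst`, `XFB_eq` of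
`H68X/XFB` do exactly this. -/
theorem PF_main : ∃ C K : ℝ, 0 < C ∧ ∀ X : ℕ, K ≤ X → ∀ b t : ℝ, 1 / 2 ≤ b → b ≤ 1 →
    ‖Fb X b t - Mb X b t‖ ≤ C * (1 + |t|) / X := by
  obtain ⟨M, hM, hamp⟩ := XFB_amp
  refine ⟨40 * (M + 1), 100, by positivity, fun X hXK b t hb hb1 => ?_⟩
  have hX100 : (100:ℝ) ≤ X := hXK
  have hXn : 100 ≤ X := by exact_mod_cast hX100
  have hX0 : (0:ℝ) < X := by linarith
  rw [XFB_eq X b t (by omega), pf_Mb X (by omega) b t]
  have hexp2 : Real.exp 2 ≤ 8 := by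
    have h2 : Real.exp 2 = (Real.exp 1) ^ 2 := by rw [← Real.exp_nat_mul]; norm_num
    rw [h2]
    have h1 := Real.exp_one_lt_d9
    calc (Real.exp 1) ^ 2 ≤ (2.7182818286:ℝ) ^ 2 := pow_le_pow_left₀ (Real.exp_pos 1).le h1.le 2
      _ ≤ 8 := by norm_num
  have hlX : 3 ≤ Real.log X := by
    have h1 : Real.exp 3 ≤ 100 := by
      have h2 : Real.exp 3 = (Real.exp 1) ^ 3 := by rw [← Real.exp_nat_mul]; norm_num
      rw [h2]
      have h1 := Real.exp_one_lt_d9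
      calc (Real.exp 1) ^ 3 ≤ (2.7182818286:ℝ) ^ 3 := pow_le_pow_left₀ (Real.exp_pos 1).le h1.le 3
        _ ≤ 100 := by norm_num
    exact (Real.le_log_iff_exp_le hX0).mpr (h1.trans hX100)
  have hA := hamp (-Real.log X) b (by linarith) hb hb1
  rw [neg_neg] at hA
  have hN01 : 1 ≤ X / 9 := by omega
  have hN0' : ((X / 9 : ℕ) : ℝ) ≤ X / 9 := by exact_mod_cast Nat.cast_div_le
  have hN0'' : (X : ℝ) / 10 ≤ ((X / 9 : ℕ) : ℝ) := by
    have h1 : X < (X / 9 + 1) * 9 := by omega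
    have h2 : (X : ℝ) < (((X / 9 : ℕ) : ℝ) + 1) * 9 := by exact_mod_cast h1
    linarith
  have hN00 : (0:ℝ) < ((X / 9 : ℕ) : ℝ) := by exact_mod_cast hN01
  have hlN0 : Real.log ((X / 9 : ℕ) : ℝ) < Real.log X - 2 := by
    have h1 : Real.log ((X / 9 : ℕ) : ℝ) ≤ Real.log (X / 9) := Real.log_le_log hN00 hN0'
    rw [Real.log_div hX0.ne' (by norm_num)] at h1
    have h2 : 2 < Real.log 9 := by
      rw [Real.lt_log_iff_exp_lt (by norm_num)]; linarith
    linarith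
  have hlN : Real.log X - 2 + 6 < Real.log ((60 * X : ℕ) : ℝ) := by
    push_cast
    rw [Real.log_mul (by norm_num) hX0.ne']
    have hlog60 : (4:ℝ) < Real.log 60 := by
      rw [Real.lt_log_iff_exp_lt (by norm_num)]
      have : Real.exp 4 = (Real.exp 1) ^ 4 := by
        rw [← Real.exp_nat_mul]; norm_num
      rw [this]
      have h1 := Real.exp_one_lt_d9
      calc (Real.exp 1) ^ 4 ≤ (2.7182818286:ℝ) ^ 4 :=
            pow_le_pow_left₀ (Real.exp_pos 1).le h1.le 4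
        _ < 60 := by norm_num
    linarith
  have hmain := pf_sum_int (t := t) hA hM (by linarith) (60 * X) (X / 9) hlN hN01 hlN0
  have h60 : (1:ℝ) ≤ ((60 * X : ℕ) : ℝ) := by
    have : 1 ≤ 60 * X := by omega
    exact_mod_cast this
  rw [XFB_subst _ hA.c0 t _ h60] at hmain
  refine hmain.trans ?_
  have ht := abs_nonneg t
  calc M * (2 + |t|) * (2 / ((X / 9 : ℕ) : ℝ)) ≤ (M + 1) * (2 * (1 + |t|)) * (20 / X) := by
        apply mul_le_mul _ _ (by positivity) (by positivity)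
        · nlinarith
        · rw [div_le_div_iff₀ hN00 hX0]
          linarith
    _ = 40 * (M + 1) * (1 + |t|) / X := by ring

end Pool.Agent.Lib.H18Q
end

-- from Lib.H18Q.R2B
section

/-!
# Project H18Q, chunk R2B: port of `B1_le` to the regime `RegP`
-/

open Finset

namespace Pool.Agent.Lib.H18Q

open Pool.Agent.Lib.H68T

/-- PORT of `B1_le` (`H68X/XBPS.lean`) to `RegP` (use `BPS_regimeP` and the lemmas of `R0.lean`, which
have the names of those in `H68T/RegL.lean`). -/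
theorem B1_leP : ∃ K : ℝ, 1 ≤ K ∧ ∀ Q X : ℕ, RegP K Q X →
    ∀ p : Σ r : ℕ, DirichletCharacter ℂ r,
    1 ≤ p.1 → ∀ β : ℝ, 1 / 2 ≤ β → β ≤ 1 → ∀ m : ℤ, (X : ℤ) ≤ m → m ≤ 4 * X →
    ‖∑ n ∈ Icc 1 (60 * X), ((lp n * tent (X / Q ^ 2) (m - n) : ℝ) : ℂ) * p.2 (n : ZMod p.1) +
      (((m : ℝ) ^ (β - 1) : ℝ) : ℂ)‖ ≤
      (∫ t in (-(Q : ℝ) ^ 7)..((Q : ℝ) ^ 7), ‖FL X p t + Fb X β t‖) +
        (Q : ℝ) ^ (-(3 / 2) : ℝ) := by
  obtain ⟨K₀, hK₀1, hK₀⟩ := BPS_regimeP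
  refine ⟨|K₀| + 20, by have := abs_nonneg K₀; linarith, fun Q X h p _ β hβ hβ1 m hm1 hm2 => ?_⟩
  have hab := abs_nonneg K₀
  have hle := le_abs_self K₀
  have hr0 : RegP K₀ Q X := h.mono (by linarith) (by linarith)
  have hr1 : RegP 20 Q X := h.mono (by linarith) (by linarith)
  have hQ20 : (20 : ℝ) ≤ Q := hr1.Q_ge (by norm_num)
  obtain ⟨hQ, hX, hY, hYX, hXY, hbd⟩ := hK₀ Q X hr0
  have hQ' : (0:ℝ) < Q := by exact_mod_cast hQ
  have hX' : (0:ℝ) < X := by exact_mod_cast hX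
  have hX1 : (1:ℝ) ≤ X := by exact_mod_cast hX
  have hm' : (X:ℝ) ≤ m := by exact_mod_cast hm1
  have hm1' : (1:ℝ) ≤ m := by linarith
  have hpw : ∀ n : ℕ, 1 ≤ n → ‖((((n : ℝ) ^ (β - 1) : ℝ)) : ℂ)‖ ≤ 1 := by
    intro n hn
    have hn1 : (1:ℝ) ≤ n := by exact_mod_cast hn
    rw [Complex.norm_real, Real.norm_of_nonneg (Real.rpow_nonneg (by linarith) _)]
    exact Real.rpow_le_one_of_one_le_of_nonpos hn1 (by linarith)
  have hsum : ∑ n ∈ Icc 1 (60 * X), ‖(ArithmeticFunction.vonMangoldt n : ℂ) * p.2 (n : ZMod p.1) +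
      (((n : ℝ) ^ (β - 1) : ℝ) : ℂ)‖ ≤ 700 * X := by
    calc ∑ n ∈ Icc 1 (60 * X), ‖(ArithmeticFunction.vonMangoldt n : ℂ) * p.2 (n : ZMod p.1) +
        (((n : ℝ) ^ (β - 1) : ℝ) : ℂ)‖
        ≤ ∑ n ∈ Icc 1 (60 * X), (‖(ArithmeticFunction.vonMangoldt n : ℂ) *
          p.2 (n : ZMod p.1)‖ + 1) := by
          apply Finset.sum_le_sum
          intro n hn
          refine (norm_add_le _ _).trans ?_
          have := hpw n (mem_Icc.1 hn).1
          linarith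
      _ = ∑ n ∈ Icc 1 (60 * X), ‖(ArithmeticFunction.vonMangoldt n : ℂ) *
          p.2 (n : ZMod p.1)‖ + 60 * X := by
          rw [Finset.sum_add_distrib, Finset.sum_const, Nat.card_Icc]
          simp
      _ ≤ 700 * X := by
          have := BPS_sum_norm (X := X) p
          linarith
  have h1 := BPS_general hQ hX hY hYX hXY
    (fun n => (ArithmeticFunction.vonMangoldt n : ℂ) * p.2 (n : ZMod p.1) +
      (((n : ℝ) ^ (β - 1) : ℝ) : ℂ)) (D := 700)
    (by norm_num) hsum m hm1 hm2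
  have h2 := BPS_replace (Y := X / Q ^ 2) hX (fun n => p.2 (n : ZMod p.1))
    (fun n => DirichletCharacter.norm_le_one _ _) m
  have hmass := BPS_mass (Y := X / Q ^ 2) hY hYX hm1 hm2
  have h3 : ‖(((m : ℝ) ^ (β - 1) : ℝ) : ℂ) - ∑ n ∈ Icc 1 (60 * X),
      (((n : ℝ) ^ (β - 1) : ℝ) : ℂ) * (tent (X / Q ^ 2) (m - n) : ℂ)‖ ≤ 1 / (Q : ℝ) ^ 2 := by
    have e1 : (((m : ℝ) ^ (β - 1) : ℝ) : ℂ) - ∑ n ∈ Icc 1 (60 * X),
        (((n : ℝ) ^ (β - 1) : ℝ) : ℂ) * (tent (X / Q ^ 2) (m - n) : ℂ) =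
        ((∑ n ∈ Icc 1 (60 * X), ((m : ℝ) ^ (β - 1) - (n : ℝ) ^ (β - 1)) *
          tent (X / Q ^ 2) (m - n) : ℝ) : ℂ) := by
      have : ((m : ℝ) ^ (β - 1) : ℝ) = ∑ n ∈ Icc 1 (60 * X), (m : ℝ) ^ (β - 1) *
          tent (X / Q ^ 2) (m - n) := by
        rw [← Finset.mul_sum, hmass, mul_one]
      simp only [sub_mul, Finset.sum_sub_distrib]
      rw [← this]
      push_cast
      ring
    rw [e1, Complex.norm_real, Real.norm_eq_abs]
    refine (Finset.abs_sum_le_sum_abs _ _).trans ?_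
    calc ∑ n ∈ Icc 1 (60 * X), |((m : ℝ) ^ (β - 1) - (n : ℝ) ^ (β - 1)) *
          tent (X / Q ^ 2) (m - n)|
        ≤ ∑ n ∈ Icc 1 (60 * X), 1 / (Q : ℝ) ^ 2 * tent (X / Q ^ 2) (m - n) := by
          apply Finset.sum_le_sum
          intro n hn
          have hn1 : (1:ℝ) ≤ n := by exact_mod_cast (mem_Icc.1 hn).1
          rw [abs_mul, abs_of_nonneg (BPS_tent_nonneg _ _)]
          rcases le_or_gt ((X / Q ^ 2 : ℕ) : ℤ) |m - n| with h5 | h5
          · rw [BPS_tent_zero h5, mul_zero, mul_zero]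
          · apply mul_le_mul_of_nonneg_right _ (BPS_tent_nonneg _ _)
            refine (XBPS_pow' hm1' hn1 (by linarith) (by linarith)).trans ?_
            have h6 : |(m : ℝ) - n| ≤ ((X / Q ^ 2 : ℕ) : ℝ) := by
              have h9 : |m - (n : ℤ)| ≤ ((X / Q ^ 2 : ℕ) : ℤ) := h5.le
              have h8 : ((|m - (n : ℤ)| : ℤ) : ℝ) ≤ (((X / Q ^ 2 : ℕ) : ℤ) : ℝ) :=
                Int.cast_le.2 h9
              rw [Int.cast_abs, Int.cast_sub, Int.cast_natCast, Int.cast_natCast] at h8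
              exact h8
            have h7 : ((X / Q ^ 2 : ℕ) : ℝ) ≤ (X : ℝ) / (Q : ℝ) ^ 2 := by
              have := Nat.cast_div_le (α := ℝ) (m := X) (n := Q ^ 2)
              push_cast at this
              exact this
            calc |(m : ℝ) - n| / m ≤ ((X : ℝ) / (Q : ℝ) ^ 2) / X := by
                  apply div_le_div₀ (by positivity) (h6.trans h7) hX' hm'
              _ = 1 / (Q : ℝ) ^ 2 := by field_simp
      _ = 1 / (Q : ℝ) ^ 2 := by rw [← Finset.mul_sum, hmass, mul_one]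
  have h4 : ∑ n ∈ Icc 1 (60 * X), ((lp n * tent (X / Q ^ 2) (m - n) : ℝ) : ℂ) *
      p.2 (n : ZMod p.1) + (((m : ℝ) ^ (β - 1) : ℝ) : ℂ) =
      (∑ n ∈ Icc 1 (60 * X), ((lp n * tent (X / Q ^ 2) (m - n) : ℝ) : ℂ) * p.2 (n : ZMod p.1) -
        ∑ n ∈ Icc 1 (60 * X), (ArithmeticFunction.vonMangoldt n : ℂ) * p.2 (n : ZMod p.1) *
          (tent (X / Q ^ 2) (m - n) : ℂ)) +
      ∑ n ∈ Icc 1 (60 * X), ((ArithmeticFunction.vonMangoldt n : ℂ) * p.2 (n : ZMod p.1) +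
        (((n : ℝ) ^ (β - 1) : ℝ) : ℂ)) * (tent (X / Q ^ 2) (m - n) : ℂ) +
      ((((m : ℝ) ^ (β - 1) : ℝ) : ℂ) - ∑ n ∈ Icc 1 (60 * X),
        (((n : ℝ) ^ (β - 1) : ℝ) : ℂ) * (tent (X / Q ^ 2) (m - n) : ℂ)) := by
    simp only [add_mul, Finset.sum_add_distrib]
    ring
  have h5 : (∫ t in (-(Q : ℝ) ^ 7)..((Q : ℝ) ^ 7), ‖FL X p t + Fb X β t‖) =
      ∫ t in (-(Q : ℝ) ^ 7)..((Q : ℝ) ^ 7),
        ‖FF X (fun n => (ArithmeticFunction.vonMangoldt n : ℂ) * p.2 (n : ZMod p.1) +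
          (((n : ℝ) ^ (β - 1) : ℝ) : ℂ)) t‖ := by
    congr 1
    ext t
    congr 1
    unfold FL Fb FF
    rw [← Finset.sum_add_distrib]
    apply Finset.sum_congr rfl
    intro n _
    ring
  rw [h4, h5]
  refine (norm_add₃_le).trans ?_
  have h6 : 1 / (Q : ℝ) ^ 2 + (Q : ℝ) ^ (-(5 / 2) : ℝ) ≤ (Q : ℝ) ^ (-(3 / 2) : ℝ) := by
    have e1 : (Q : ℝ) ^ (-(5 / 2) : ℝ) = (Q : ℝ) ^ (-(3 / 2) : ℝ) * (1 / Q) := by
      rw [show (-(5 / 2) : ℝ) = -(3 / 2) + (-1) by norm_num, Real.rpow_add hQ', Real.rpow_neg_one,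
        one_div]
    have e2 : 1 / (Q : ℝ) ^ 2 = (Q : ℝ) ^ (-(3 / 2) : ℝ) * (1 / Real.sqrt Q) := by
      rw [Real.sqrt_eq_rpow, one_div ((Q : ℝ) ^ (1 / 2 : ℝ)), ← Real.rpow_neg hQ'.le,
        ← Real.rpow_add hQ', show (-(3 / 2) + -(1 / 2) : ℝ) = -((2 : ℕ) : ℝ) by norm_num,
        Real.rpow_neg hQ'.le, Real.rpow_natCast, one_div]
    have e3 : 1 / (Q : ℝ) ≤ 1 / 20 := one_div_le_one_div_of_le (by norm_num) hQ20
    have e4 : 1 / Real.sqrt Q ≤ 1 / 4 := by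
      apply one_div_le_one_div_of_le (by norm_num)
      rw [show (4 : ℝ) = Real.sqrt 16 by
        rw [show (16 : ℝ) = 4 ^ 2 by norm_num, Real.sqrt_sq (by norm_num)]]
      exact Real.sqrt_le_sqrt (by linarith)
    have e5 : 0 < (Q : ℝ) ^ (-(3 / 2) : ℝ) := Real.rpow_pos_of_pos hQ' _
    rw [e1, e2]
    nlinarith
  linarith

end Pool.Agent.Lib.H18Q
end
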