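import Pool.Agent.Lib.H1M.RV2.M002
import Pool.Agent.Lib.H1M.RV2.M009
import Pool.Agent.Lib.H1M.RV2.M010
import Pool.Agent.Lib.H1M.RV2.M014
import Pool.Agent.Lib.H1M.RV2.M017
import Pool.Agent.Lib.H1M.RV2.M022
import Pool.Agent.Lib.H1M.RV2.M037
import Pool.Agent.Lib.H1M.RV2.M039

/-! Merged copies (to shorten the build) of Lib.H18Q.CC1, Lib.H18Q.CF, Lib.H18Q.HM, Lib.H44W.U5, Lib.H68X.XEX. -/

-- from Lib.H18Q.CC1
section

/-!
# Project H18Q, chunk CC1: means of products of two components of the same modulus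
-/

open Finset

namespace Pool.Agent.Lib.H18Q

open Pool.Agent.Lib.H68T

theorem cc1_permul {f : ℕ → ℝ} {a : ℕ} (hf : ∀ c, f (c + a) = f c) (j c : ℕ) :
    f (a * j + c) = f c := by
  induction j with
  | zero => simp
  | succ j ih => rw [show a * (j+1) + c = (a * j + c) + a by ring, hf, ih]

theorem cc1_mod {f : ℕ → ℝ} {a : ℕ} (hf : ∀ c, f (c + a) = f c) (c : ℕ) :
    f c = f (c % a) := by
  conv_lhs => rw [← Nat.div_add_mod c a]
  exact cc1_permul hf _ _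

theorem cc1_per {f : ℕ → ℝ} {a : ℕ} (hf : ∀ c, f (c + a) = f c) (m : ℕ) :
    ∑ c ∈ range (a * m), f c = m * ∑ c ∈ range a, f c := by
  induction m with
  | zero => simp
  | succ m ih =>
    rw [Nat.mul_succ, Finset.sum_range_add, ih]
    simp only [cc1_permul hf]
    push_cast
    ring

theorem cc1_two {f g : ℕ → ℝ} {a b : ℕ} (ha : 0 < a) (hb : 0 < b) (hab : Nat.Coprime a b)
    (hf : ∀ c, f (c + a) = f c) (hg : ∀ c, g (c + b) = g c) :
    ∑ c ∈ range (a * b), f c * g c = (∑ c ∈ range a, f c) * ∑ c ∈ range b, g c := by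
  rw [Finset.sum_mul_sum, ← Finset.sum_product']
  refine Finset.sum_nbij' (fun c => (c % a, c % b))
    (fun x => (Nat.chineseRemainder hab x.1 x.2 : ℕ)) ?_ ?_ ?_ ?_ ?_
  · intro c _
    simp only [mem_product, mem_range]
    exact ⟨Nat.mod_lt _ ha, Nat.mod_lt _ hb⟩
  · intro x _
    simp only [mem_range]
    exact Nat.chineseRemainder_lt_mul hab _ _ ha.ne' hb.ne'
  · intro c hc
    simp only [mem_range] at hc
    have h1 := (Nat.chineseRemainder hab (c % a) (c % b)).2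
    have h2 := Nat.chineseRemainder_lt_mul hab (c % a) (c % b) ha.ne' hb.ne'
    have h3 : (Nat.chineseRemainder hab (c % a) (c % b) : ℕ) ≡ c [MOD a * b] := by
      rw [← Nat.modEq_and_modEq_iff_modEq_mul hab]
      exact ⟨h1.1.trans (Nat.mod_modEq _ _), h1.2.trans (Nat.mod_modEq _ _)⟩
    exact Nat.ModEq.eq_of_lt_of_lt h3 h2 hc
  · intro x hx
    simp only [mem_product, mem_range] at hx
    have h1 := (Nat.chineseRemainder hab x.1 x.2).2
    ext
    · simp only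
      exact Nat.ModEq.eq_of_lt_of_lt ((Nat.mod_modEq _ _).trans h1.1) (Nat.mod_lt _ ha) hx.1
    · simp only
      exact Nat.ModEq.eq_of_lt_of_lt ((Nat.mod_modEq _ _).trans h1.2) (Nat.mod_lt _ hb) hx.2
  · intro c _
    simp only
    rw [← cc1_mod hf, ← cc1_mod hg]

theorem cc1_prodper (S : Finset ℕ) (h : ℕ → ℕ → ℝ) (hp : ∀ l ∈ S, ∀ c, h l (c + l) = h l c) :
    ∀ c, (∏ l ∈ S, h l (c + ∏ i ∈ S, i)) = ∏ l ∈ S, h l c := by
  intro c
  refine Finset.prod_congr rfl fun l hl => ?_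
  obtain ⟨k, hk⟩ := Finset.dvd_prod_of_mem (fun i : ℕ => i) hl
  have hk' : (∏ i ∈ S, i) = l * k := hk
  rw [hk', add_comm c, cc1_permul (hp l hl)]

theorem cc1_crtset (S : Finset ℕ) (hS : ∀ l ∈ S, l.Prime) (h : ℕ → ℕ → ℝ)
    (hp : ∀ l ∈ S, ∀ c, h l (c + l) = h l c) :
    ∑ c ∈ range (∏ l ∈ S, l), ∏ l ∈ S, h l c = ∏ l ∈ S, ∑ c ∈ range l, h l c := by
  induction S using Finset.induction_on with
  | empty => simp
  | insert a S ha ih =>
    have h1 := ih (fun l hl => hS l (mem_insert_of_mem hl))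
      (fun l hl => hp l (mem_insert_of_mem hl))
    rw [Finset.prod_insert ha, Finset.prod_insert ha, ← h1]
    simp only [Finset.prod_insert ha]
    have hpa : a.Prime := hS a (mem_insert_self _ _)
    refine cc1_two hpa.pos (Finset.prod_pos fun l hl => (hS l (mem_insert_of_mem hl)).pos) ?_
      (hp a (mem_insert_self _ _)) (cc1_prodper S h (fun l hl => hp l (mem_insert_of_mem hl)))
    refine Nat.Coprime.prod_right fun l hl => ?_
    rw [Nat.coprime_primes hpa (hS l (mem_insert_of_mem hl))]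
    rintro rfl
    exact ha hl

/-- Chinese remainder theorem for means: the functions `h l`, `l` a prime factor of `q`, have
period `l`. Proof: the product has period `R = ∏ l` (the radical), and `q` is a multiple of `R`, so the
mean over `[0, q)` is the mean over `[0, R)`; `c ↦ (c mod l)_l` is a bijection of `range R` onto the
product (`ZMod.prodEquivPi`, `Nat.chineseRemainder...`, or induction on the set of primes with
`Nat.Coprime` two-factor statement: for coprime `a, b`, `f` of period `a`, `g` of period `b`: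
`∑_{c < ab} f g = ∑_{c < a} f ∑_{c < b} g`). -/
theorem crt_mean (q : ℕ) (hq : 0 < q) (h : ℕ → ℕ → ℝ)
    (hp : ∀ l ∈ q.primeFactors, ∀ c, h l (c + l) = h l c) :
    (∑ c ∈ range q, ∏ l ∈ q.primeFactors, h l c) / q =
      ∏ l ∈ q.primeFactors, ((∑ c ∈ range l, h l c) / l) := by
  obtain ⟨m, hm⟩ := Nat.prod_primeFactors_dvd q
  have hR : 0 < ∏ l ∈ q.primeFactors, l :=
    Finset.prod_pos fun l hl => (Nat.prime_of_mem_primeFactors hl).pos
  have h1 := cc1_per (f := fun c => ∏ l ∈ q.primeFactors, h l c)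
    (cc1_prodper q.primeFactors h hp) m
  rw [← hm, cc1_crtset q.primeFactors (fun l hl => Nat.prime_of_mem_primeFactors hl) h hp] at h1
  rw [h1, Finset.prod_div_distrib]
  have h2 : (q : ℝ) = (∏ l ∈ q.primeFactors, (l : ℝ)) * m := by
    conv_lhs => rw [hm]
    push_cast
    rfl
  have hm0 : (m : ℝ) ≠ 0 := by
    rintro h0
    have : m = 0 := by exact_mod_cast h0
    subst this
    omega
  rw [h2]
  rw [mul_comm (m : ℝ), mul_div_mul_right _ _ hm0]


noncomputable def cc1_al (r l : ℕ) (m : ℤ) : ℝ :=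
  if l ∣ r then (if (l : ℤ) ∣ m then 0 else (l : ℝ) / ((l : ℝ) - 1))
  else (if (l : ℤ) ∣ m then 1 else 1 / ((l : ℝ) - 1))

theorem cc1_al_nonneg (r l : ℕ) (hl : l.Prime) (m : ℤ) : 0 ≤ cc1_al r l m := by
  have h2 : (2 : ℝ) ≤ l := by exact_mod_cast hl.two_le
  unfold cc1_al
  split_ifs
  · exact le_rfl
  · exact div_nonneg (by linarith) (by linarith)
  · exact zero_le_one
  · exact div_nonneg (by linarith) (by linarith)

theorem cc1_aw (p : Σ r : ℕ, DirichletCharacter ℂ r) (k : ℕ)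
    (hc : Nat.Coprime k p.1) (m : ℤ) :
    aw p k m = ∏ l ∈ (p.1 * k).primeFactors, cc1_al p.1 l m := by
  have hc' : Nat.Coprime p.1 k := hc.symm
  rw [hc'.primeFactors_mul, Finset.prod_union hc'.disjoint_primeFactors]
  unfold aw
  congr 1
  · refine Finset.prod_congr rfl fun l hl => ?_
    unfold cc1_al
    rw [if_pos (Nat.dvd_of_mem_primeFactors hl)]
  · refine Finset.prod_congr rfl fun l hl => ?_
    have hn : ¬ l ∣ p.1 := by
      intro h
      have hlp := Nat.prime_of_mem_primeFactors hl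
      exact (Nat.not_coprime_of_dvd_of_dvd hlp.one_lt h (Nat.dvd_of_mem_primeFactors hl)) hc'
    unfold cc1_al
    rw [if_neg hn]

/-- indicator -/
noncomputable def cc1_u (l : ℕ) (s : ℤ) (c : ℕ) : ℝ := if (l : ℤ) ∣ s + c then 1 else 0

theorem cc1_cnt (l : ℕ) (hl : 0 < l) (s : ℤ) : ∑ c ∈ range l, cc1_u l s c = 1 := by
  unfold cc1_u
  have hl' : (0 : ℤ) < l := by exact_mod_cast hl
  have h0 := Int.emod_nonneg (-s) hl'.ne'
  have h1 := Int.emod_lt_of_pos (-s) hl'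
  rw [Finset.sum_eq_single ((-s) % l).toNat]
  · rw [if_pos]
    have : (((-s) % l).toNat : ℤ) = (-s) % l := Int.toNat_of_nonneg h0
    rw [this]
    have h2 := Int.emod_add_mul_ediv (-s) l
    refine ⟨-((-s) / l), ?_⟩
    linarith
  · intro c hc hne
    rw [if_neg]
    intro hd
    apply hne
    rw [mem_range] at hc
    have hc' : (c : ℤ) < l := by exact_mod_cast hc
    have h3 : (c : ℤ) = (-s) % l := by
      have h5 : (-s) ≡ c [ZMOD l] := Int.modEq_iff_dvd.2 (by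
        rw [show (c : ℤ) - -s = s + c by ring]; exact hd)
      have h4 : (c : ℤ) % l = (-s) % l := h5.symm
      rw [← h4, Int.emod_eq_of_lt (by positivity) hc']
    rw [← h3]
    simp
  · intro h
    exfalso
    apply h
    rw [mem_range]
    zify
    rw [Int.toNat_of_nonneg h0]
    exact h1

theorem cc1_uu_eq (l : ℕ) (s s' : ℤ) (h : (l : ℤ) ∣ s - s') (c : ℕ) :
    cc1_u l s c * cc1_u l s' c = cc1_u l s c := by
  unfold cc1_u
  have : (l : ℤ) ∣ s + c ↔ (l : ℤ) ∣ s' + c := by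
    constructor
    · intro h1
      have := dvd_sub h1 h
      rwa [show s + (c : ℤ) - (s - s') = s' + c by ring] at this
    · intro h1
      have := dvd_add h1 h
      rwa [show s' + (c : ℤ) + (s - s') = s + c by ring] at this
  by_cases h1 : (l : ℤ) ∣ s + c
  · rw [if_pos h1, if_pos (this.1 h1)]; norm_num
  · rw [if_neg h1]; norm_num

theorem cc1_uu_ne (l : ℕ) (s s' : ℤ) (h : ¬ (l : ℤ) ∣ s - s') (c : ℕ) :
    cc1_u l s c * cc1_u l s' c = 0 := by
  unfold cc1_u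
  by_cases h1 : (l : ℤ) ∣ s + c
  · rw [if_neg (c := (l : ℤ) ∣ s' + c)]
    · simp
    · intro h2
      apply h
      have := dvd_sub h1 h2
      rwa [show s + (c : ℤ) - (s' + c) = s - s' by ring] at this
  · rw [if_neg h1]; simp

theorem cc1_lin (l : ℕ) (hl : 0 < l) (s s' : ℤ) (α β α' β' : ℝ) :
    ∑ c ∈ range l, (α + β * cc1_u l s c) * (α' + β' * cc1_u l s' c) =
      l * α * α' + α * β' + α' * β + β * β' * (if (l : ℤ) ∣ s - s' then 1 else 0) := by
  have h1 : ∀ c, (α + β * cc1_u l s c) * (α' + β' * cc1_u l s' c) =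
      α * α' + α * β' * cc1_u l s' c + α' * β * cc1_u l s c +
        β * β' * (cc1_u l s c * cc1_u l s' c) := fun c => by ring
  simp only [h1, Finset.sum_add_distrib, ← Finset.mul_sum, cc1_cnt l hl]
  rw [Finset.sum_const, card_range]
  have h2 : ∑ c ∈ range l, cc1_u l s c * cc1_u l s' c = if (l : ℤ) ∣ s - s' then 1 else 0 := by
    split_ifs with h
    · rw [Finset.sum_congr rfl fun c _ => cc1_uu_eq l s s' h c, cc1_cnt l hl]
    · rw [Finset.sum_congr rfl fun c _ => cc1_uu_ne l s s' h c]; simp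
  rw [h2]
  simp only [nsmul_eq_mul]
  ring

theorem cc1_al_lin (r l : ℕ) (s : ℤ) (c : ℕ) :
    cc1_al r l (s + c) = (if l ∣ r then (l : ℝ) / ((l : ℝ) - 1) else 1 / ((l : ℝ) - 1)) +
      (if l ∣ r then - ((l : ℝ) / ((l : ℝ) - 1)) else 1 - 1 / ((l : ℝ) - 1)) * cc1_u l s c := by
  unfold cc1_al cc1_u
  split_ifs <;> ring

theorem cc1_tau (l : ℕ) (t τ : ℤ) (hτ : τ = 1 ∨ τ = -1) (c : ℕ) (r : ℕ) :
    cc1_al r l (t + τ * c) = cc1_al r l (τ * t + c) := by
  have : (l : ℤ) ∣ t + τ * c ↔ (l : ℤ) ∣ τ * t + c := by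
    rcases hτ with rfl | rfl
    · simp
    · rw [show (-1 : ℤ) * t + c = -(t + -1 * c) by ring, Int.dvd_neg]
  unfold cc1_al
  simp only [this]

theorem cc1_local (r r' l : ℕ) (hl : l.Prime) (s t τ D : ℤ) (hτ : τ = 1 ∨ τ = -1)
    (hD : D = s - τ * t) (hD2 : (2 : ℤ) ∣ D) :
    (∑ c ∈ range l, cc1_al r l (s + (c : ℤ)) * cc1_al r' l (t + τ * (c : ℤ))) / (l : ℝ) ≤
      loc (r * r') D l := by
  have h2 : (2 : ℝ) ≤ l := by exact_mod_cast hl.two_le
  have hl1 : (0 : ℝ) < (l : ℝ) - 1 := by linarith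
  have hl0 : (0 : ℝ) < (l : ℝ) := by linarith
  simp only [cc1_tau l t τ hτ, cc1_al_lin]
  rw [cc1_lin l hl.pos, ← hD]
  unfold loc
  have hw : l ∣ r * r' ↔ l ∣ r ∨ l ∣ r' := hl.dvd_mul
  have h3 : ¬ (l : ℤ) ∣ D → (3 : ℝ) ≤ l := by
    intro h
    have : l ≠ 2 := by
      rintro rfl
      exact h hD2
    have h4 : 3 ≤ l := by have := hl.two_le; omega
    exact_mod_cast h4
  by_cases hd : (l : ℤ) ∣ D
  · simp only [hd, if_true]
    by_cases h1 : l ∣ r <;> by_cases h1' : l ∣ r' <;>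
      simp only [hw, h1, h1', if_true, if_false, or_true, true_or, or_self, or_false]
    · rw [div_le_div_iff₀ hl0 hl1]
      field_simp
      nlinarith
    · rw [div_le_div_iff₀ hl0 hl1]
      field_simp
      nlinarith
    · rw [div_le_div_iff₀ hl0 hl1]
      field_simp
      nlinarith
    · rw [div_le_div_iff₀ hl0 hl1]
      field_simp
      nlinarith
  · have h3' := h3 hd
    simp only [hd, if_false]
    by_cases h1 : l ∣ r <;> by_cases h1' : l ∣ r' <;>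
      simp only [hw, h1, h1', if_true, if_false, or_true, true_or, or_self, or_false]
    · rw [div_le_one hl0]
      field_simp
      nlinarith
    · rw [div_le_one hl0]
      field_simp
      nlinarith
    · rw [div_le_one hl0]
      field_simp
      nlinarith
    · rw [div_le_div_iff₀ hl0 (by positivity)]
      field_simp
      nlinarith


/-- **Local means.** Let `q = p.1 k = p'.1 k'`, `τ = ±1`, `D = s - τ t ≠ 0`, `2 ∣ D`. Then the mean over
`c` modulo `q` of `aw p k (s + c) aw p' k' (t + τ c)` is at most `∏_{l ∣ q} loc (p.1 p'.1) D l`.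

Proof. `aw p k m = ∏_{l ∣ q} a_l(m)` with `a_l(m) = l/(l-1) 1[l ∤ m]` if `l ∣ p.1` and
`a_l(m) = 1 if l ∣ m else 1/(l-1)` if `l ∣ k` (the prime factors of `q` are the disjoint union of those
of `p.1` and of `k`), similarly for `p'`. By `crt_mean` the mean is the product of the local means
`E_l = (1/l) ∑_{c < l} a_l(s+c) a'_l(t + τ c)` (all factors `≥ 0`, so it suffices to bound each
`E_l ≤ loc`). For `c` modulo `l`: `l ∣ s + c` for exactly one `c`, `l ∣ t + τ c` for exactly one `c`; they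
agree iff `l ∣ s - τ t = D` (`c ≡ -s`, `c ≡ -τ t`). (A) `l ∣ p.1`, `l ∣ p'.1`: `E = (l/(l-1))²
(1 - 1/l) = l/(l-1)` if `l ∣ D`; else `(l/(l-1))² (1 - 2/l) ≤ 1`. (B) `l ∣ p.1`, `l ∣ k'` (or
conversely): `l ∣ D`: `(l/(l-1)) ((l-1)/l) (1/(l-1)) = 1/(l-1) ≤ l/(l-1)`; `l ∤ D` (so `l ≥ 3`):
`(l/(l-1)) (1/l + ((l-2)/l)/(l-1)) ≤ 2/(l-1) ≤ 1`. (C) `l ∣ k`, `l ∣ k'`: `l ∣ D`:
`1/l + ((l-1)/l)/(l-1)² = 1/(l-1)`; `l ∤ D`: `2/(l (l-1)) + (l-2)/(l (l-1)²) ≤ 3/(l-1)²`. In case (C)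
`l ∤ p.1 p'.1`; in (A), (B) `l ∣ p.1 p'.1`. -/
theorem loc_mean (Q : ℕ) (p p' : Σ r : ℕ, DirichletCharacter ℂ r) (hp : p ∈ PC Q)
    (hp' : p' ∈ PC Q) (k k' : ℕ) (hk : k ∈ KS Q p.1) (hk' : k' ∈ KS Q p'.1)
    (he : p.1 * k = p'.1 * k') (s t τ D : ℤ) (hτ : τ = 1 ∨ τ = -1) (hD : D = s - τ * t)
    (hD2 : (2 : ℤ) ∣ D) :
    (∑ c ∈ range (p.1 * k), aw p k (s + (c : ℤ)) * aw p' k' (t + τ * (c : ℤ))) /
        (p.1 * k : ℕ) ≤
      ∏ l ∈ (p.1 * k).primeFactors, loc (p.1 * p'.1) D l := by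
  have h1 := (mem_PC.1 hp).1
  unfold KS at hk hk'
  simp only [mem_filter, mem_Icc] at hk hk'
  have hq : 0 < p.1 * k := Nat.mul_pos h1 hk.1.1
  have h2 : ∀ c : ℕ, aw p k (s + (c : ℤ)) * aw p' k' (t + τ * (c : ℤ)) =
      ∏ l ∈ (p.1 * k).primeFactors,
        (cc1_al p.1 l (s + (c : ℤ)) * cc1_al p'.1 l (t + τ * (c : ℤ))) := by
    intro c
    rw [cc1_aw p k hk.2.2, cc1_aw p' k' hk'.2.2, ← he, ← Finset.prod_mul_distrib]
  simp only [h2]
  rw [crt_mean (p.1 * k) hq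
    (fun l c => cc1_al p.1 l (s + (c : ℤ)) * cc1_al p'.1 l (t + τ * (c : ℤ)))]
  · refine Finset.prod_le_prod ?_ ?_
    · intro l hl
      have hlp := Nat.prime_of_mem_primeFactors hl
      refine div_nonneg (Finset.sum_nonneg fun c _ => mul_nonneg ?_ ?_) (Nat.cast_nonneg _)
      · exact cc1_al_nonneg _ _ hlp _
      · exact cc1_al_nonneg _ _ hlp _
    · intro l hl
      exact cc1_local _ _ l (Nat.prime_of_mem_primeFactors hl) s t τ D hτ hD hD2
  · intro l hl c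
    have e1 : (l : ℤ) ∣ s + ((c + l : ℕ) : ℤ) ↔ (l : ℤ) ∣ s + (c : ℤ) := by
      push_cast
      rw [← add_assoc]
      exact Int.dvd_add_left (dvd_refl _)
    have e2 : (l : ℤ) ∣ t + τ * ((c + l : ℕ) : ℤ) ↔ (l : ℤ) ∣ t + τ * (c : ℤ) := by
      push_cast
      rw [mul_add, ← add_assoc]
      exact (Int.dvd_add_left (Dvd.intro_left τ rfl))
    simp only [cc1_al, e1, e2]

theorem cc1_tele (N : ℕ) : ∑ n ∈ Icc 3 N, (1 : ℝ) / ((n : ℝ) - 1) ^ 2 ≤ 1 := by
  have h : ∀ N : ℕ, 2 ≤ N → ∑ n ∈ Icc 3 N, (1 : ℝ) / ((n : ℝ) - 1) ^ 2 ≤ 1 - 1 / ((N : ℝ) - 1) := by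
    intro N hN
    induction N, hN using Nat.le_induction with
    | base => simp; norm_num
    | succ N hN ih =>
      rw [Finset.sum_Icc_succ_top (by omega)]
      have h2 : (2 : ℝ) ≤ N := by exact_mod_cast hN
      have h3 : (1 : ℝ) / (((N + 1 : ℕ) : ℝ) - 1) ^ 2 ≤ 1 / ((N : ℝ) - 1) - 1 / (((N + 1 : ℕ) : ℝ) - 1) := by
        push_cast
        rw [show (N : ℝ) + 1 - 1 = N by ring]
        have h4 : (0 : ℝ) < (N : ℝ) - 1 := by linarith
        have h5 : (0 : ℝ) < N := by linarith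
        rw [div_sub_div _ _ h4.ne' h5.ne', div_le_div_iff₀ (by positivity) (by positivity)]
        nlinarith
      linarith
  rcases le_or_gt 2 N with hN | hN
  · have := h N hN
    have h2 : (2 : ℝ) ≤ N := by exact_mod_cast hN
    have h3 : (0 : ℝ) ≤ 1 / ((N : ℝ) - 1) := by
      apply div_nonneg <;> linarith
    linarith
  · rw [Finset.Icc_eq_empty (by omega)]; simp

theorem cc1_loc_nonneg (w : ℕ) (D : ℤ) (l : ℕ) (hl : l.Prime) : 0 ≤ loc w D l := by
  have h2 : (2 : ℝ) ≤ l := by exact_mod_cast hl.two_le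
  unfold loc
  split_ifs
  · exact div_nonneg (by linarith) (by linarith)
  · exact div_nonneg (by linarith) (by linarith)
  · exact zero_le_one
  · positivity

/-- the local factor -/
noncomputable def cc1_F (w : ℕ) (D : ℤ) (l : ℕ) : ℝ := if l ∣ w then loc w D l else 1 + loc w D l

theorem cc1_F_bound (w : ℕ) (D : ℤ) (hD2 : (2 : ℤ) ∣ D) (l : ℕ) (hl : l.Prime) :
    cc1_F w D l ≤ (if (l : ℤ) ∣ D then 1 + 1 / ((l : ℝ) - 1) else 1) *
      Real.exp (if 3 ≤ l then 3 / ((l : ℝ) - 1) ^ 2 else 0) := by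
  have h2 : (2 : ℝ) ≤ l := by exact_mod_cast hl.two_le
  have hl1 : (0 : ℝ) < (l : ℝ) - 1 := by linarith
  have he : (1 : ℝ) ≤ Real.exp (if 3 ≤ l then 3 / ((l : ℝ) - 1) ^ 2 else 0) := by
    apply Real.one_le_exp
    split_ifs
    · positivity
    · exact le_rfl
  unfold cc1_F loc
  by_cases hd : (l : ℤ) ∣ D
  · simp only [hd, if_true]
    have h3 : (l : ℝ) / ((l : ℝ) - 1) = 1 + 1 / ((l : ℝ) - 1) := by field_simp; ring
    have h4 : (0 : ℝ) ≤ 1 + 1 / ((l : ℝ) - 1) := by positivity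
    by_cases h5 : l ∣ w
    · rw [if_pos h5, if_pos h5, h3]
      exact le_mul_of_one_le_right h4 he
    · rw [if_neg h5, if_neg h5]
      exact le_mul_of_one_le_right h4 he
  · have h3 : 3 ≤ l := by
      have : l ≠ 2 := by
        rintro rfl
        exact hd hD2
      have := hl.two_le
      omega
    simp only [hd, if_false, h3, if_true, one_mul] at he ⊢
    split_ifs
    · exact he
    · have := Real.add_one_le_exp ((3 : ℝ) / ((l : ℝ) - 1) ^ 2)
      linarith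

theorem cc1_F_nonneg (w : ℕ) (D : ℤ) (l : ℕ) (hl : l.Prime) : 0 ≤ cc1_F w D l := by
  unfold cc1_F
  have := cc1_loc_nonneg w D l hl
  split_ifs
  · exact this
  · linarith

theorem cc1_prodF (w : ℕ) (D : ℤ) (hD : D ≠ 0) (hD2 : (2 : ℤ) ∣ D) (U : Finset ℕ)
    (hU : ∀ l ∈ U, l.Prime) :
    ∏ l ∈ U, cc1_F w D l ≤ Real.exp 3 * Pool.Agent.Lib.H18E.Gp 1 D := by
  have h1 : ∏ l ∈ U, cc1_F w D l ≤ ∏ l ∈ U, ((if (l : ℤ) ∣ D then 1 + 1 / ((l : ℝ) - 1) else 1) *
      Real.exp (if 3 ≤ l then 3 / ((l : ℝ) - 1) ^ 2 else 0)) :=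
    Finset.prod_le_prod (fun l hl => cc1_F_nonneg w D l (hU l hl))
      (fun l hl => cc1_F_bound w D hD2 l (hU l hl))
  refine h1.trans ?_
  rw [Finset.prod_mul_distrib, ← Real.exp_sum, mul_comm (Real.exp 3)]
  have hG : ∏ l ∈ U, (if (l : ℤ) ∣ D then 1 + 1 / ((l : ℝ) - 1) else 1) ≤
      Pool.Agent.Lib.H18E.Gp 1 D := by
    rw [← Finset.prod_filter]
    unfold Pool.Agent.Lib.H18E.Gp
    have hsub : U.filter (fun l : ℕ => (l : ℤ) ∣ D) ⊆
        D.natAbs.primeFactors.filter (fun p => ¬ p ∣ 1) := by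
      intro l hl
      rw [mem_filter] at hl
      have hlp := hU l hl.1
      rw [mem_filter, Nat.mem_primeFactors]
      refine ⟨⟨hlp, Int.natCast_dvd.1 hl.2, Int.natAbs_ne_zero.2 hD⟩, ?_⟩
      intro h
      exact hlp.one_lt.ne' (Nat.dvd_one.1 h)
    rw [← Finset.prod_sdiff hsub]
    have hf : ∀ l ∈ (D.natAbs.primeFactors.filter (fun p => ¬ p ∣ 1)),
        (1 : ℝ) ≤ 1 + 1 / ((l : ℝ) - 1) := by
      intro l hl
      rw [mem_filter] at hl
      have hlp := Nat.prime_of_mem_primeFactors hl.1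
      have h2 : (2 : ℝ) ≤ l := by exact_mod_cast hlp.two_le
      have : (0 : ℝ) ≤ 1 / ((l : ℝ) - 1) := div_nonneg zero_le_one (by linarith)
      linarith
    have h1' : (1 : ℝ) ≤ ∏ l ∈ (D.natAbs.primeFactors.filter (fun p => ¬ p ∣ 1)) \
        U.filter (fun l : ℕ => (l : ℤ) ∣ D), (1 + 1 / ((l : ℝ) - 1)) := by
      refine Finset.prod_induction _ (fun x => (1 : ℝ) ≤ x)
        (fun a b ha hb => one_le_mul_of_one_le_of_one_le ha hb) le_rfl ?_
      intro l hl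
      exact hf l (mem_sdiff.1 hl).1
    refine le_mul_of_one_le_left (Finset.prod_nonneg fun l hl => ?_) h1'
    exact zero_le_one.trans (hf l (hsub hl))
  have hE : Real.exp (∑ l ∈ U, (if 3 ≤ l then 3 / ((l : ℝ) - 1) ^ 2 else 0)) ≤ Real.exp 3 := by
    apply Real.exp_le_exp.2
    rw [← Finset.sum_filter]
    have h2 : ∑ l ∈ U.filter (fun l => 3 ≤ l), (3 : ℝ) / ((l : ℝ) - 1) ^ 2 ≤
        ∑ l ∈ Icc 3 (U.sup id), (3 : ℝ) / ((l : ℝ) - 1) ^ 2 := by
      refine Finset.sum_le_sum_of_subset_of_nonneg ?_ ?_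
      · intro l hl
        rw [mem_filter] at hl
        rw [mem_Icc]
        exact ⟨hl.2, Finset.le_sup (f := id) hl.1⟩
      · intro l _ _
        positivity
    have h3 : ∑ l ∈ Icc 3 (U.sup id), (3 : ℝ) / ((l : ℝ) - 1) ^ 2 =
        3 * ∑ l ∈ Icc 3 (U.sup id), (1 : ℝ) / ((l : ℝ) - 1) ^ 2 := by
      rw [Finset.mul_sum]
      refine Finset.sum_congr rfl fun l _ => ?_
      ring
    have h4 := cc1_tele (U.sup id)
    linarith
  refine mul_le_mul hG hE (Real.exp_pos _).le ?_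
  unfold Pool.Agent.Lib.H18E.Gp
  refine Finset.prod_nonneg fun l hl => ?_
  rw [mem_filter] at hl
  have hlp := Nat.prime_of_mem_primeFactors hl.1
  have h2 : (2 : ℝ) ≤ l := by exact_mod_cast hlp.two_le
  have : (0 : ℝ) ≤ 1 / ((l : ℝ) - 1) := div_nonneg zero_le_one (by linarith)
  linarith


theorem cc1_pf (Q : ℕ) (p p' : Σ r : ℕ, DirichletCharacter ℂ r) (hp : p ∈ PC Q)
    (hp' : p' ∈ PC Q) (k k' : ℕ) (hk : k ∈ KS Q p.1) (hk' : k' ∈ KS Q p'.1)
    (he : p.1 * k = p'.1 * k') :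
    k.primeFactors = (p'.1.primeFactors \ p.1.primeFactors) ∪
      ((p.1 * k).primeFactors \ (p.1 * p'.1).primeFactors) := by
  have h1 := (mem_PC.1 hp).1
  have h1' := (mem_PC.1 hp').1
  unfold KS at hk hk'
  simp only [mem_filter, mem_Icc] at hk hk'
  have hk0 : k ≠ 0 := by omega
  have hk0' : k' ≠ 0 := by omega
  ext l
  simp only [mem_union, mem_sdiff, Nat.mem_primeFactors]
  constructor
  · rintro ⟨hl, hlk, _⟩
    by_cases h : l ∣ p'.1
    · left
      refine ⟨⟨hl, h, by omega⟩, ?_⟩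
      rintro ⟨_, h2, _⟩
      exact (Nat.not_coprime_of_dvd_of_dvd hl.one_lt hlk h2) hk.2.2
    · right
      refine ⟨⟨hl, Dvd.dvd.mul_left hlk _, Nat.mul_ne_zero (by omega) hk0⟩, ?_⟩
      rintro ⟨_, h2, _⟩
      rcases hl.dvd_mul.1 h2 with h2 | h2
      · exact (Nat.not_coprime_of_dvd_of_dvd hl.one_lt hlk h2) hk.2.2
      · exact h h2
  · rintro (⟨⟨hl, h, _⟩, h2⟩ | ⟨⟨hl, h, _⟩, h2⟩)
    · refine ⟨hl, ?_, hk0⟩
      have h3 : l ∣ p.1 * k := by rw [he]; exact Dvd.dvd.mul_right h _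
      rcases hl.dvd_mul.1 h3 with h4 | h4
      · exact absurd ⟨hl, h4, by omega⟩ h2
      · exact h4
    · refine ⟨hl, ?_, hk0⟩
      rcases hl.dvd_mul.1 h with h4 | h4
      · exact absurd ⟨hl, Dvd.dvd.mul_right h4 _, Nat.mul_ne_zero (by omega) (by omega)⟩ h2
      · exact h4

theorem cc1_qpf (Q : ℕ) (p p' : Σ r : ℕ, DirichletCharacter ℂ r) (hp : p ∈ PC Q)
    (hp' : p' ∈ PC Q) (k k' : ℕ) (hk : k ∈ KS Q p.1) (hk' : k' ∈ KS Q p'.1)
    (he : p.1 * k = p'.1 * k') :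
    (p.1 * p'.1).primeFactors ⊆ (p.1 * k).primeFactors := by
  have h1 := (mem_PC.1 hp).1
  have h1' := (mem_PC.1 hp').1
  unfold KS at hk hk'
  simp only [mem_filter, mem_Icc] at hk hk'
  have hk0 : k ≠ 0 := by omega
  intro l
  simp only [Nat.mem_primeFactors]
  rintro ⟨hl, h, _⟩
  refine ⟨hl, ?_, Nat.mul_ne_zero (by omega) hk0⟩
  rcases hl.dvd_mul.1 h with h2 | h2
  · exact Dvd.dvd.mul_right h2 _
  · rw [he]; exact Dvd.dvd.mul_right h2 _

/-- **Sum over the moduli.** For fixed `p, p'` the sum of the local products over all pairs `(k, k')`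
with `p.1 k = p'.1 k'` is at most `C Gp 1 D`, `Gp 1 D = ∏_{l ∣ D} l/(l-1)`.

Proof. Let `w = p.1 p'.1`. For such a pair, `q = p.1 k`, every prime of `w` divides `q`, and the other
primes of `q` form a set `S` of primes `≤ Q` not dividing `w`. `q` (hence `k, k'`) is determined by `S`:
for `l ∣ p.1`, `v_l(q) = v_l(p.1)` (`k` coprime to `p.1`), for `l ∣ p'.1`, `v_l(q) = v_l(p'.1)`, for
`l ∈ S`, `v_l(q) = 1`. So the sum is at most `∏_{l ∣ w} loc(l) ∏_{l ≤ Q prime, l ∤ w} (1 + loc(l))`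
(all `loc ≥ 0`). For `l ∣ D`: `loc(l) ≤ l/(l-1)` if `l ∣ w`, `1 + loc(l) = l/(l-1)` if `l ∤ w`. For
`l ∤ D` (`l ≥ 3`, as `2 ∣ D`): `loc(l) = 1` if `l ∣ w`, and `1 + 3/(l-1)² ≤ exp (3/(l-1)²)` if
`l ∤ w`. The product over `l ≥ 3` of the last is at most `exp (3 ∑_{n ≥ 2} 1/n²) ≤ exp 3`, and the
primes dividing `D` contribute at most `Gp 1 D` (`1 + 1/(l-1) = l/(l-1) ≥ 1`). -/
theorem sum_loc : ∃ C : ℝ, 1 ≤ C ∧ ∀ (Q : ℕ) (p p' : Σ r : ℕ, DirichletCharacter ℂ r),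
    p ∈ PC Q → p' ∈ PC Q → ∀ D : ℤ, D ≠ 0 → (2 : ℤ) ∣ D →
    ∑ k ∈ KS Q p.1, ∑ k' ∈ (KS Q p'.1).filter (fun k' => p.1 * k = p'.1 * k'),
      ∏ l ∈ (p.1 * k).primeFactors, loc (p.1 * p'.1) D l ≤ C * Pool.Agent.Lib.H18E.Gp 1 D := by
  refine ⟨Real.exp 3, Real.one_le_exp (by norm_num), ?_⟩
  intro Q p p' hp hp' D hD hD2
  have h1 := (mem_PC.1 hp).1
  have h1' := (mem_PC.1 hp').1
  classical
  set w := p.1 * p'.1 with hw
  set KK : Finset ℕ := (KS Q p.1).filter (fun k => ∃ k' ∈ KS Q p'.1, p.1 * k = p'.1 * k') with hKK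
  set P : Finset ℕ := (range (Q + 1)).filter (fun l => l.Prime ∧ ¬ l ∣ w) with hP
  set f : ℕ → ℝ := fun k => ∏ l ∈ (p.1 * k).primeFactors, loc w D l with hf
  have hf0 : ∀ k, 0 ≤ f k := fun k =>
    Finset.prod_nonneg fun l hl => cc1_loc_nonneg w D l (Nat.prime_of_mem_primeFactors hl)
  -- step 1
  have s1 : ∑ k ∈ KS Q p.1, ∑ k' ∈ (KS Q p'.1).filter (fun k' => p.1 * k = p'.1 * k'), f k ≤
      ∑ k ∈ KK, f k := by
    rw [hKK, Finset.sum_filter]
    refine Finset.sum_le_sum fun k _ => ?_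
    rw [Finset.sum_const, nsmul_eq_mul]
    split_ifs with h
    · have hcard : ((KS Q p'.1).filter (fun k' => p.1 * k = p'.1 * k')).card ≤ 1 := by
        rw [Finset.card_le_one]
        intro a ha b hb
        rw [mem_filter] at ha hb
        have : p'.1 * a = p'.1 * b := by rw [← ha.2, ← hb.2]
        exact Nat.eq_of_mul_eq_mul_left (by omega) this
      have : (((KS Q p'.1).filter (fun k' => p.1 * k = p'.1 * k')).card : ℝ) ≤ 1 := by
        exact_mod_cast hcard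
      nlinarith [hf0 k]
    · have : (KS Q p'.1).filter (fun k' => p.1 * k = p'.1 * k') = ∅ := by
        rw [Finset.filter_eq_empty_iff]
        intro k' hk' he
        exact h ⟨k', hk', he⟩
      rw [this]; simp
  -- step 2: f k as product
  have s2 : ∀ k ∈ KK, f k = (∏ l ∈ w.primeFactors, loc w D l) *
      ∏ l ∈ (p.1 * k).primeFactors \ w.primeFactors, loc w D l := by
    intro k hk
    rw [hKK, mem_filter] at hk
    obtain ⟨hk1, k', hk', he⟩ := hk
    have hs := cc1_qpf Q p p' hp hp' k k' hk1 hk' he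
    rw [← hw] at hs
    have h9 := Finset.prod_sdiff (f := fun l => loc w D l) hs
    rw [hf]
    simp only
    rw [← h9]
    ring
  -- step 3
  have s3 : ∑ k ∈ KK, ∏ l ∈ (p.1 * k).primeFactors \ w.primeFactors, loc w D l ≤
      ∑ S ∈ P.powerset, ∏ l ∈ S, loc w D l := by
    have hinj : Set.InjOn (fun k => (p.1 * k).primeFactors \ w.primeFactors) (KK : Set ℕ) := by
      intro k hk k2 hk2 hE
      rw [Finset.mem_coe, hKK, mem_filter] at hk hk2
      obtain ⟨hk1, k', hk', he⟩ := hk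
      obtain ⟨hk1b, k2', hk2', he2⟩ := hk2
      have e1 := cc1_pf Q p p' hp hp' k k' hk1 hk' he
      have e2 := cc1_pf Q p p' hp hp' k2 k2' hk1b hk2' he2
      simp only at hE
      rw [← hw] at e1 e2
      rw [hE, ← e2] at e1
      have q1 : Squarefree k := by
        unfold KS at hk1
        simp only [mem_filter, mem_Icc] at hk1
        exact hk1.2.1
      have q2 : Squarefree k2 := by
        unfold KS at hk1b
        simp only [mem_filter, mem_Icc] at hk1b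
        exact hk1b.2.1
      rw [← Nat.prod_primeFactors_of_squarefree q1, ← Nat.prod_primeFactors_of_squarefree q2, e1]
    rw [← Finset.sum_image (f := fun S : Finset ℕ => ∏ l ∈ S, loc w D l) hinj]
    refine Finset.sum_le_sum_of_subset_of_nonneg ?_ ?_
    · intro S hS
      rw [Finset.mem_image] at hS
      obtain ⟨k, hk, rfl⟩ := hS
      rw [Finset.mem_powerset]
      intro l hl
      rw [mem_sdiff, Nat.mem_primeFactors, Nat.mem_primeFactors] at hl
      obtain ⟨⟨hlp, hd, hne⟩, hn⟩ := hl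
      have hnw : ¬ l ∣ w := fun h => hn ⟨hlp, h, Nat.mul_ne_zero (by omega) (by omega)⟩
      rw [hP, mem_filter, mem_range]
      refine ⟨?_, hlp, hnw⟩
      rw [hKK, mem_filter] at hk
      have hk1 := hk.1
      unfold KS at hk1
      simp only [mem_filter, mem_Icc] at hk1
      have hlk : l ∣ k := by
        rcases hlp.dvd_mul.1 hd with h | h
        · exact absurd (Dvd.dvd.mul_right h _) hnw
        · exact h
      have := Nat.le_of_dvd (by omega) hlk
      have := Nat.div_le_self Q p.1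
      omega
    · intro S hS _
      rw [Finset.mem_powerset] at hS
      refine Finset.prod_nonneg fun l hl => cc1_loc_nonneg w D l ?_
      have := hS hl
      rw [hP, mem_filter] at this
      exact this.2.1
  have s4 : ∑ S ∈ P.powerset, ∏ l ∈ S, loc w D l = ∏ l ∈ P, (1 + loc w D l) := by
    rw [Finset.prod_one_add]
  have hdis : Disjoint w.primeFactors P := by
    rw [Finset.disjoint_left]
    intro l hl hl2
    rw [hP, mem_filter] at hl2
    exact hl2.2.2 (Nat.dvd_of_mem_primeFactors hl)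
  have s5 : (∏ l ∈ w.primeFactors, loc w D l) * ∏ l ∈ P, (1 + loc w D l) =
      ∏ l ∈ w.primeFactors ∪ P, cc1_F w D l := by
    rw [Finset.prod_union hdis]
    congr 1
    · refine Finset.prod_congr rfl fun l hl => ?_
      unfold cc1_F
      rw [if_pos (Nat.dvd_of_mem_primeFactors hl)]
    · refine Finset.prod_congr rfl fun l hl => ?_
      rw [hP, mem_filter] at hl
      unfold cc1_F
      rw [if_neg hl.2.2]
  have s6 := cc1_prodF w D hD hD2 (w.primeFactors ∪ P) (by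
    intro l hl
    rw [mem_union] at hl
    rcases hl with hl | hl
    · exact Nat.prime_of_mem_primeFactors hl
    · rw [hP, mem_filter] at hl
      exact hl.2.1)
  have hw0 : 0 ≤ ∏ l ∈ w.primeFactors, loc w D l :=
    Finset.prod_nonneg fun l hl => cc1_loc_nonneg w D l (Nat.prime_of_mem_primeFactors hl)
  calc _ ≤ ∑ k ∈ KK, f k := s1
    _ = (∏ l ∈ w.primeFactors, loc w D l) *
        ∑ k ∈ KK, ∏ l ∈ (p.1 * k).primeFactors \ w.primeFactors, loc w D l := by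
        rw [Finset.mul_sum]
        exact Finset.sum_congr rfl s2
    _ ≤ (∏ l ∈ w.primeFactors, loc w D l) * ∏ l ∈ P, (1 + loc w D l) := by
        refine mul_le_mul_of_nonneg_left ?_ hw0
        rw [← s4]
        exact s3
    _ ≤ _ := by rw [s5]; exact s6

end Pool.Agent.Lib.H18Q
end

-- from Lib.H18Q.CF
section

/-!
# Project H18Q, chunk CF: the correlation inequality
-/

open Finset

namespace Pool.Agent.Lib.H18Q

open Pool.Agent.Lib.H68T

theorem cf_KS {Q r k : ℕ} (hk : k ∈ KS Q r) : 1 ≤ k ∧ k ≤ Q / r := by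
  unfold KS at hk
  rw [mem_filter, mem_Icc] at hk
  exact hk.1

theorem cf_q {Q : ℕ} {p : Σ r : ℕ, DirichletCharacter ℂ r} (hp : p ∈ PC Q) {k : ℕ}
    (hk : k ∈ KS Q p.1) : 0 < p.1 * k ∧ p.1 * k ≤ Q := by
  have h1 := (mem_PC.mp hp).1
  have h2 := cf_KS hk
  refine ⟨Nat.mul_pos (by omega) (by omega), ?_⟩
  calc p.1 * k ≤ p.1 * (Q / p.1) := Nat.mul_le_mul_left _ h2.2
    _ ≤ Q := Nat.mul_div_le Q p.1

/-- the sum of a periodic function over several periods -/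
theorem cf_periods (φ : ℕ → ℂ) (q : ℕ) (hφ : ∀ c, φ (c + q) = φ c) (n : ℕ) :
    ∑ c ∈ range (q * n), φ c = n * ∑ c ∈ range q, φ c := by
  have hper : ∀ n c, φ (q * n + c) = φ c := by
    intro n
    induction n with
    | zero => intro c; rw [mul_zero, zero_add]
    | succ n ih =>
      intro c
      have h1 : q * (n + 1) + c = (q * n + c) + q := by ring
      rw [h1, hφ, ih]
  induction n with
  | zero => simp
  | succ n ih =>
    have h1 : q * (n + 1) = q * n + q := by ring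
    rw [h1, sum_range_add, ih]
    have h2 : ∑ x ∈ range q, φ (q * n + x) = ∑ c ∈ range q, φ c :=
      sum_congr rfl fun x _ => hper n x
    rw [h2]
    push_cast
    ring

/-- Two components with slowly varying coefficients.

Proof. `q = p.1 k`, `q' = p'.1 k'`, `φ(c) = gk p k (s + c) gk p' k' (t + τ c)` has period `P = q q'`
(`gk_period`), `|φ| ≤ Q²` (`gk_bound`), `P ≤ Q²`. `per_slow`. If `q ≠ q'`: `∑_{c < P} φ = 0` (`orth`
with `gk_prim`). If `q = q'`: the mean over `P = q²` is the mean over `q`, at most the mean of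
`aw aw'` (`gk_le_aw`), at most `∏ loc` (`loc_mean`). -/
theorem CF_pair (Q H : ℕ) (p p' : Σ r : ℕ, DirichletCharacter ℂ r) (hp : p ∈ PC Q)
    (hp' : p' ∈ PC Q) (k k' : ℕ) (hk : k ∈ KS Q p.1) (hk' : k' ∈ KS Q p'.1)
    (s t τ D : ℤ) (hτ : τ = 1 ∨ τ = -1) (hD : D = s - τ * t) (hD2 : (2 : ℤ) ∣ D)
    (f : ℕ → ℂ) (F Λ : ℝ) (hF : 0 ≤ F) (hΛ : 0 ≤ Λ) (fb : ∀ c < H, ‖f c‖ ≤ F)
    (fl : ∀ c, c + 1 < H → ‖f (c + 1) - f c‖ ≤ Λ) :
    ‖∑ c ∈ range H, gk p k (s + (c : ℤ)) * gk p' k' (t + τ * (c : ℤ)) * f c‖ ≤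
      (if p.1 * k = p'.1 * k' then ∏ l ∈ (p.1 * k).primeFactors, loc (p.1 * p'.1) D l else 0) *
        F * H + (Q : ℝ) ^ 4 * (F + H * Λ) := by
  obtain ⟨hq, hqQ⟩ := cf_q hp hk
  obtain ⟨hq', hqQ'⟩ := cf_q hp' hk'
  set q := p.1 * k with hqd
  set q' := p'.1 * k' with hqd'
  set φ : ℕ → ℂ := fun c => gk p k (s + (c : ℤ)) * gk p' k' (t + τ * (c : ℤ)) with hφ
  have hP : 0 < q * q' := Nat.mul_pos hq hq'
  have per : ∀ c, φ (c + q * q') = φ c := by
    intro c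
    simp only [hφ]
    have h1 : s + ((c + q * q' : ℕ) : ℤ) = (s + c) + ((p.1 * k : ℕ) : ℤ) * (q' : ℤ) := by
      rw [← hqd]
      push_cast
      ring
    have h2 : t + τ * ((c + q * q' : ℕ) : ℤ) =
        (t + τ * c) + ((p'.1 * k' : ℕ) : ℤ) * (τ * (q : ℤ)) := by
      rw [← hqd']
      push_cast
      ring
    rw [h1, h2, gk_period, gk_period]
  have bd : ∀ c, ‖φ c‖ ≤ (Q : ℝ) ^ 2 := by
    intro c
    simp only [hφ]
    rw [norm_mul, sq]
    exact mul_le_mul (gk_bound Q p hp k hk _) (gk_bound Q p' hp' k' hk' _) (norm_nonneg _)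
      (Nat.cast_nonneg _)
  have h := per_slow φ f (q * q') H hP ((Q : ℝ) ^ 2) F Λ (by positivity) hF hΛ per bd fb fl
  have hPQ : ((q * q' : ℕ) : ℝ) ≤ (Q : ℝ) ^ 2 := by
    rw [sq]
    push_cast
    exact mul_le_mul (by exact_mod_cast hqQ) (by exact_mod_cast hqQ') (Nat.cast_nonneg _)
      (Nat.cast_nonneg _)
  have herr : (Q : ℝ) ^ 2 * (q * q' : ℕ) * (F + H * Λ) ≤ (Q : ℝ) ^ 4 * (F + H * Λ) := by
    apply mul_le_mul_of_nonneg_right _ (by positivity)
    calc (Q : ℝ) ^ 2 * (q * q' : ℕ) ≤ (Q : ℝ) ^ 2 * (Q : ℝ) ^ 2 :=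
          mul_le_mul_of_nonneg_left hPQ (by positivity)
      _ = (Q : ℝ) ^ 4 := by ring
  refine h.trans (add_le_add ?_ herr)
  apply mul_le_mul_of_nonneg_right _ (Nat.cast_nonneg _)
  apply mul_le_mul_of_nonneg_right _ hF
  have hPr : (0 : ℝ) < ((q * q' : ℕ) : ℝ) := by exact_mod_cast hP
  by_cases he : q = q'
  · rw [if_pos he]
    rw [div_le_iff₀ hPr]
    have hper1 : ∀ c, φ (c + q) = φ c := by
      intro c
      simp only [hφ]
      have h1 : s + ((c + q : ℕ) : ℤ) = (s + c) + ((p.1 * k : ℕ) : ℤ) * 1 := by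
        rw [← hqd]
        push_cast
        ring
      have h2 : t + τ * ((c + q : ℕ) : ℤ) = (t + τ * c) + ((p'.1 * k' : ℕ) : ℤ) * τ := by
        rw [← hqd', ← he]
        push_cast
        ring
      rw [h1, h2, gk_period, gk_period]
    have h3 : ∑ c ∈ range (q * q'), φ c = (q' : ℂ) * ∑ c ∈ range q, φ c :=
      cf_periods φ q hper1 q'
    rw [h3, norm_mul, Complex.norm_natCast]
    have h4 : ‖∑ c ∈ range q, φ c‖ ≤
        (∏ l ∈ q.primeFactors, loc (p.1 * p'.1) D l) * q := by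
      have h5 := loc_mean Q p p' hp hp' k k' hk hk' he s t τ D hτ hD hD2
      rw [← hqd, div_le_iff₀ (by exact_mod_cast hq)] at h5
      refine le_trans (norm_sum_le _ _) (le_trans (sum_le_sum fun c _ => ?_) h5)
      simp only [hφ]
      rw [norm_mul]
      exact mul_le_mul (gk_le_aw Q p hp k hk _) (gk_le_aw Q p' hp' k' hk' _) (norm_nonneg _)
        ((norm_nonneg _).trans (gk_le_aw Q p hp k hk _))
    calc (q' : ℝ) * ‖∑ c ∈ range q, φ c‖ ≤
          (q' : ℝ) * ((∏ l ∈ q.primeFactors, loc (p.1 * p'.1) D l) * q) :=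
          mul_le_mul_of_nonneg_left h4 (Nat.cast_nonneg _)
      _ = (∏ l ∈ q.primeFactors, loc (p.1 * p'.1) D l) * ((q * q' : ℕ) : ℝ) := by
          push_cast
          ring
  · rw [if_neg he]
    have h0 : ∑ c ∈ range (q * q'), φ c = 0 := by
      apply orth (gk p k) (gk p' k') q q' hq hq' ?_ ?_ ?_ ?_ he s t τ hτ
      · intro m
        have := gk_period p k m 1
        rwa [mul_one, ← hqd] at this
      · intro m
        have := gk_period p' k' m 1
        rwa [mul_one, ← hqd'] at this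
      · intro l hl hlq m
        exact gk_prim Q p hp k hk l hl hlq m
      · intro l hl hlq m
        exact gk_prim Q p' hp' k' hk' l hl hlq m
    rw [h0, norm_zero, zero_div]

theorem cf_cards (Q : ℕ) : ((∑ p ∈ PC Q, (KS Q p.1).card : ℕ) : ℝ) ≤ (Q : ℝ) ^ 3 := by
  have h1 : ∑ p ∈ PC Q, (KS Q p.1).card ≤ ∑ _p ∈ PC Q, Q := by
    apply sum_le_sum
    intro p _
    have h2 : KS Q p.1 ⊆ Icc 1 Q := by
      intro k hk
      have h3 := cf_KS hk
      rw [mem_Icc]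
      exact ⟨h3.1, h3.2.trans (Nat.div_le_self _ _)⟩
    have h4 := card_le_card h2
    rwa [Nat.card_Icc, Nat.add_sub_cancel] at h4
  rw [sum_const, smul_eq_mul] at h1
  have h5 := card_PC_le Q
  have h6 : ∑ p ∈ PC Q, (KS Q p.1).card ≤ Q ^ 3 := by
    calc ∑ p ∈ PC Q, (KS Q p.1).card ≤ (PC Q).card * Q := h1
      _ ≤ Q ^ 2 * Q := Nat.mul_le_mul_right _ h5
      _ = Q ^ 3 := by ring
  exact_mod_cast h6

/-- **The correlation inequality.** Proof. Expand both `SG` by `gam_expand`: the sum over `c` is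
`∑_{p,p'} ∑_{k,k'} ∑_c gk gk' f`, `f(c) = b c p · b' c p'`, `|f| ≤ be p be' p'` (`≤ 4`),
`|f(c+1) - f(c)| ≤ 4 Λ`. `CF_pair` and `sum_loc`: the main parts give at most
`∑_{p,p'} be p be' p' C Gp 1 D H`; there are at most `Q² · Q` pairs `(p, k)`, so the error terms give at
most `Q^6 · Q^4 (4 + 4 H Λ)`. -/
theorem corr_main : ∃ C : ℝ, 1 ≤ C ∧ ∀ (Q H : ℕ) (s t τ D : ℤ)
    (b b' : ℕ → (Σ r : ℕ, DirichletCharacter ℂ r) → ℂ)
    (be be' : (Σ r : ℕ, DirichletCharacter ℂ r) → ℝ) (Λ : ℝ), (τ = 1 ∨ τ = -1) →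
    D = s - τ * t → D ≠ 0 → (2 : ℤ) ∣ D → 0 ≤ Λ →
    (∀ p ∈ PC Q, 0 ≤ be p ∧ be p ≤ 2 ∧ 0 ≤ be' p ∧ be' p ≤ 2 ∧
      (∀ c < H, ‖b c p‖ ≤ be p ∧ ‖b' c p‖ ≤ be' p) ∧
      ∀ c, c + 1 < H → ‖b (c + 1) p - b c p‖ ≤ Λ ∧ ‖b' (c + 1) p - b' c p‖ ≤ Λ) →
    ‖∑ c ∈ range H, SG Q (b c) (s + (c : ℤ)) * SG Q (b' c) (t + τ * (c : ℤ))‖ ≤
      C * (∑ p ∈ PC Q, be p) * (∑ p ∈ PC Q, be' p) * Pool.Agent.Lib.H18E.Gp 1 D * H +
        4 * (Q : ℝ) ^ 10 * (1 + H * Λ) := by
  obtain ⟨C, hC, hsum⟩ := sum_loc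
  refine ⟨C, hC, ?_⟩
  intro Q H s t τ D b b' be be' Λ hτ hD hD0 hD2 hΛ hb
  -- expansion
  have hexp : ∀ (β : (Σ r : ℕ, DirichletCharacter ℂ r) → ℂ) (m : ℤ),
      SG Q β m = ∑ p ∈ PC Q, ∑ k ∈ KS Q p.1, gk p k m * β p := by
    intro β m
    unfold SG
    apply sum_congr rfl
    intro p hp
    rw [gam_expand Q p hp m, sum_mul]
  have h1 : ∑ c ∈ range H, SG Q (b c) (s + (c : ℤ)) * SG Q (b' c) (t + τ * (c : ℤ)) =
      ∑ p ∈ PC Q, ∑ k ∈ KS Q p.1, ∑ p' ∈ PC Q, ∑ k' ∈ KS Q p'.1, ∑ c ∈ range H,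
        gk p k (s + (c : ℤ)) * gk p' k' (t + τ * (c : ℤ)) * (b c p * b' c p') := by
    have h2 : ∀ c ∈ range H, SG Q (b c) (s + (c : ℤ)) * SG Q (b' c) (t + τ * (c : ℤ)) =
        ∑ p ∈ PC Q, ∑ k ∈ KS Q p.1, ∑ p' ∈ PC Q, ∑ k' ∈ KS Q p'.1,
          gk p k (s + (c : ℤ)) * gk p' k' (t + τ * (c : ℤ)) * (b c p * b' c p') := by
      intro c _
      rw [hexp, hexp, sum_mul]
      apply sum_congr rfl
      intro p _
      rw [sum_mul]
      apply sum_congr rfl
      intro k _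
      rw [mul_sum]
      apply sum_congr rfl
      intro p' _
      rw [mul_sum]
      apply sum_congr rfl
      intro k' _
      ring
    rw [sum_congr rfl h2, sum_comm]
    apply sum_congr rfl
    intro p _
    rw [sum_comm]
    apply sum_congr rfl
    intro k _
    rw [sum_comm]
    apply sum_congr rfl
    intro p' _
    rw [sum_comm]
  rw [h1]
  -- the single terms
  let T : (Σ r : ℕ, DirichletCharacter ℂ r) → ℕ → (Σ r : ℕ, DirichletCharacter ℂ r) → ℕ → ℝ :=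
    fun p k p' k' =>
      (if p.1 * k = p'.1 * k' then ∏ l ∈ (p.1 * k).primeFactors, loc (p.1 * p'.1) D l else 0)
  have hterm : ∀ p ∈ PC Q, ∀ k ∈ KS Q p.1, ∀ p' ∈ PC Q, ∀ k' ∈ KS Q p'.1,
      ‖∑ c ∈ range H, gk p k (s + (c : ℤ)) * gk p' k' (t + τ * (c : ℤ)) *
        (b c p * b' c p')‖ ≤
      T p k p' k' * (be p * be' p' * H) + (Q : ℝ) ^ 4 * (4 * (1 + H * Λ)) := by
    intro p hp k hk p' hp' k' hk'
    obtain ⟨hb1, hb2, -, -, hb5, hb6⟩ := hb p hp
    obtain ⟨-, -, hb3, hb4, hb7, hb8⟩ := hb p' hp'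
    have hc := CF_pair Q H p p' hp hp' k k' hk hk' s t τ D hτ hD hD2
      (fun c => b c p * b' c p') (be p * be' p') (4 * Λ) (mul_nonneg hb1 hb3) (by linarith)
      (by
        intro c hc
        rw [norm_mul]
        exact mul_le_mul (hb5 c hc).1 (hb7 c hc).2 (norm_nonneg _) hb1)
      (by
        intro c hc
        have e1 : b (c + 1) p * b' (c + 1) p' - b c p * b' c p' =
            (b (c + 1) p - b c p) * b' (c + 1) p' + b c p * (b' (c + 1) p' - b' c p') := by ring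
        rw [e1]
        refine (norm_add_le _ _).trans ?_
        rw [norm_mul, norm_mul]
        have e2 : ‖b (c + 1) p - b c p‖ * ‖b' (c + 1) p'‖ ≤ Λ * 2 :=
          mul_le_mul (hb6 c hc).1 ((hb7 (c + 1) hc).2.trans hb4) (norm_nonneg _) hΛ
        have e3 : ‖b c p‖ * ‖b' (c + 1) p' - b' c p'‖ ≤ 2 * Λ :=
          mul_le_mul ((hb5 c (by omega)).1.trans hb2) (hb8 c hc).2 (norm_nonneg _) (by norm_num)
        linarith)
    refine hc.trans ?_
    have e4 : T p k p' k' * (be p * be' p') * H = T p k p' k' * (be p * be' p' * H) := by ring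
    change T p k p' k' * (be p * be' p') * H + _ ≤ _
    rw [e4]
    apply add_le_add le_rfl
    apply mul_le_mul_of_nonneg_left _ (by positivity)
    have e5 : be p * be' p' ≤ 2 * 2 := mul_le_mul hb2 hb4 hb3 (by norm_num)
    have e6 : 4 * (1 + (H : ℝ) * Λ) = 4 + H * (4 * Λ) := by ring
    rw [e6]
    linarith
  -- sum of the bounds
  have h3 : ‖∑ p ∈ PC Q, ∑ k ∈ KS Q p.1, ∑ p' ∈ PC Q, ∑ k' ∈ KS Q p'.1, ∑ c ∈ range H,
        gk p k (s + (c : ℤ)) * gk p' k' (t + τ * (c : ℤ)) * (b c p * b' c p')‖ ≤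
      ∑ p ∈ PC Q, ∑ k ∈ KS Q p.1, ∑ p' ∈ PC Q, ∑ k' ∈ KS Q p'.1,
        (T p k p' k' * (be p * be' p' * H) + (Q : ℝ) ^ 4 * (4 * (1 + H * Λ))) := by
    refine (norm_sum_le _ _).trans (sum_le_sum fun p hp => ?_)
    refine (norm_sum_le _ _).trans (sum_le_sum fun k hk => ?_)
    refine (norm_sum_le _ _).trans (sum_le_sum fun p' hp' => ?_)
    refine (norm_sum_le _ _).trans (sum_le_sum fun k' hk' => ?_)
    exact hterm p hp k hk p' hp' k' hk'
  refine h3.trans ?_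
  simp only [sum_add_distrib]
  apply add_le_add
  · -- main terms
    have h4 : ∑ p ∈ PC Q, ∑ k ∈ KS Q p.1, ∑ p' ∈ PC Q, ∑ k' ∈ KS Q p'.1,
        T p k p' k' * (be p * be' p' * H) =
        ∑ p ∈ PC Q, ∑ p' ∈ PC Q, (∑ k ∈ KS Q p.1, ∑ k' ∈ KS Q p'.1, T p k p' k') *
          (be p * be' p' * H) := by
      apply sum_congr rfl
      intro p _
      rw [sum_comm]
      apply sum_congr rfl
      intro p' _
      rw [sum_mul]
      apply sum_congr rfl
      intro k _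
      rw [sum_mul]
    rw [h4]
    have h5 : ∀ p ∈ PC Q, ∀ p' ∈ PC Q,
        (∑ k ∈ KS Q p.1, ∑ k' ∈ KS Q p'.1, T p k p' k') * (be p * be' p' * H) ≤
          C * Pool.Agent.Lib.H18E.Gp 1 D * (be p * be' p' * H) := by
      intro p hp p' hp'
      obtain ⟨hb1, -⟩ := hb p hp
      obtain ⟨-, -, hb3, -⟩ := hb p' hp'
      apply mul_le_mul_of_nonneg_right _ (by positivity)
      refine le_trans (le_of_eq ?_) (hsum Q p p' hp hp' D hD0 hD2)
      apply sum_congr rfl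
      intro k _
      rw [sum_filter]
    refine (sum_le_sum fun p hp => sum_le_sum fun p' hp' => h5 p hp p' hp').trans ?_
    apply le_of_eq
    have h6 : ∀ p ∈ PC Q, ∑ p' ∈ PC Q,
        C * Pool.Agent.Lib.H18E.Gp 1 D * (be p * be' p' * H) =
        be p * (C * Pool.Agent.Lib.H18E.Gp 1 D * H * ∑ p' ∈ PC Q, be' p') := by
      intro p _
      rw [mul_sum, mul_sum]
      apply sum_congr rfl
      intro p' _
      ring
    rw [sum_congr rfl h6, ← sum_mul]
    ring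
  · -- error terms
    have hE : 0 ≤ (Q : ℝ) ^ 4 * (4 * (1 + H * Λ)) := by positivity
    set E : ℝ := (Q : ℝ) ^ 4 * (4 * (1 + H * Λ)) with hEd
    have h7 : ∑ p ∈ PC Q, ∑ k ∈ KS Q p.1, ∑ p' ∈ PC Q, ∑ _k' ∈ KS Q p'.1, E =
        ((∑ p ∈ PC Q, (KS Q p.1).card : ℕ) : ℝ) *
          (((∑ p ∈ PC Q, (KS Q p.1).card : ℕ) : ℝ) * E) := by
      have h8 : ∑ p' ∈ PC Q, ∑ _k' ∈ KS Q p'.1, E =
          ((∑ p ∈ PC Q, (KS Q p.1).card : ℕ) : ℝ) * E := by
        push_cast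
        rw [sum_mul]
        apply sum_congr rfl
        intro p' _
        rw [sum_const, nsmul_eq_mul]
      rw [h8]
      have h9 : ∀ X : ℝ, ∑ p ∈ PC Q, ∑ _k ∈ KS Q p.1, X =
          ((∑ p ∈ PC Q, (KS Q p.1).card : ℕ) : ℝ) * X := by
        intro X
        push_cast
        rw [sum_mul]
        apply sum_congr rfl
        intro p' _
        rw [sum_const, nsmul_eq_mul]
      rw [h9]
    rw [h7]
    have h10 := cf_cards Q
    have h11 : (0 : ℝ) ≤ ((∑ p ∈ PC Q, (KS Q p.1).card : ℕ) : ℝ) := Nat.cast_nonneg _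
    calc ((∑ p ∈ PC Q, (KS Q p.1).card : ℕ) : ℝ) *
          (((∑ p ∈ PC Q, (KS Q p.1).card : ℕ) : ℝ) * E) ≤ (Q : ℝ) ^ 3 * ((Q : ℝ) ^ 3 * E) := by
          apply mul_le_mul h10 _ (mul_nonneg h11 hE) (by positivity)
          exact mul_le_mul_of_nonneg_right h10 hE
      _ = 4 * (Q : ℝ) ^ 10 * (1 + H * Λ) := by
          rw [hEd]
          ring

end Pool.Agent.Lib.H18Q
end

-- from Lib.H18Q.HM
section

/-!
# Project H18Q, chunk HM: half of the classes
-/

open Finset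

namespace Pool.Agent.Lib.H18Q

open Pool.Agent.Lib.H68T Pool.Agent.Lib.H18E

open scoped Classical in
/-- If a prime `p` divides `r` and `x`, half of the compatible classes have `ψ(x + y) = -1`.

Proof. By `CM_ex` with `m = r/p` there is a unit `u` modulo `r`, `u ≡ 1` modulo `r/p`, `ψ(u) ≠ 1`, so
`ψ(u) = -1` (`CM_val`). `u x = x` in `ZMod r`: `u = 1 + (r/p) k`, `(r/p) k x = r k (x/p) = 0`. So `y ↦ u y`
maps the compatible classes (`CM_compat`: units `x + y`, `x - y`) to themselves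
(`x ± u y = u (x ± y)`), injectively, and `ψ(x + u y) = -ψ(x + y)`; hence the classes with
`ψ(x + y) = 1` and with `-1` are equally many, and these are all. -/
theorem half_minus (r : ℕ) [NeZero r] (ψ : DirichletCharacter ℂ r) (hψ : ψ.IsPrimitive)
    (h2 : ψ ^ 2 = 1) (p : ℕ) (hp : p.Prime) (hpr : p ∣ r) (x : ℕ) (hx : p ∣ x) :
    ((compat r x).card : ℝ) / 2 ≤
      (((compat r x).filter (fun y : ℕ => ψ ((x : ZMod r) + y) = -1)).card : ℝ) := by
  classical
  obtain ⟨m, hm⟩ := hpr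
  obtain ⟨x', hx'⟩ := hx
  have hr0 : 0 < r := NeZero.pos r
  have hm0 : 0 < m := by
    rcases Nat.eq_zero_or_pos m with h | h
    · rw [h] at hm
      omega
    · exact h
  have hmr : m ∣ r := ⟨p, by rw [hm]; ring⟩
  have hlt : m < r := by
    rw [hm]
    have := hp.two_le
    nlinarith
  obtain ⟨u, hu1, hu2⟩ := CM_ex r ψ hψ m hmr hlt
  have hψu : ψ (u : ZMod r) = -1 := (CM_val r ψ h2 _ u.isUnit).resolve_left hu2
  have hux : (u : ZMod r) * (x : ZMod r) = x := by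
    have h1 : ((u : ZMod r).cast : ZMod m) = 1 := by
      have := congrArg (fun z : (ZMod m)ˣ => (z : ZMod m)) hu1
      simpa [ZMod.unitsMap_def] using this
    rw [ZMod.cast_eq_val] at h1
    have h3 : (((u : ZMod r).val : ℤ) : ZMod m) = ((1 : ℤ) : ZMod m) := by
      push_cast
      exact h1
    rw [ZMod.intCast_eq_intCast_iff_dvd_sub] at h3
    obtain ⟨j, hj⟩ := h3
    have h4 : ((u : ZMod r).val : ℤ) = 1 + (-j) * m := by linarith
    have h5 : (((u : ZMod r).val : ℤ) : ZMod r) = ((1 + (-j) * m : ℤ) : ZMod r) := by rw [h4]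
    have h6 : (u : ZMod r) = ((1 + (-j) * m : ℤ) : ZMod r) := by
      rw [← h5]
      simp
    have hrz : ((p * m : ℕ) : ZMod r) = 0 := by
      rw [← hm]
      exact ZMod.natCast_self r
    push_cast at hrz
    rw [h6, hx']
    push_cast
    calc (1 + -(j : ZMod r) * (m : ZMod r)) * ((p : ZMod r) * (x' : ZMod r))
        = (p : ZMod r) * x' - j * x' * ((p : ZMod r) * (m : ZMod r)) := by ring
      _ = (p : ZMod r) * x' := by rw [hrz, mul_zero, sub_zero]
  have e1 := CM_compat r x (fun _ => True)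
  have e2 := CM_compat r x (fun y => ψ ((x : ZMod r) + y) = -1)
  have e3 := CM_compat r x (fun y => ψ ((x : ZMod r) + y) = 1)
  have e0 : (compat r x).filter (fun _ => True) = compat r x := by
    ext y
    simp
  have hsplit : (compat r x).card = ((compat r x).filter (fun y : ℕ =>
      ψ ((x : ZMod r) + (y : ZMod r)) = 1)).card + ((compat r x).filter (fun y : ℕ =>
      ψ ((x : ZMod r) + (y : ZMod r)) = -1)).card := by
    rw [← card_union_of_disjoint]
    · congr 1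
      ext y
      rw [mem_union, mem_filter, mem_filter]
      constructor
      · intro hy
        have hy' := hy
        rw [compat, mem_filter] at hy'
        have hun : IsUnit ((x : ZMod r) + (y : ZMod r)) := by
          have := ZMod.coe_int_isUnit_iff_isCoprime ((x : ℤ) + y) r
          push_cast at this
          rw [this]
          exact hy'.2.1.symm
        rcases CM_val r ψ h2 _ hun with h | h
        · exact Or.inl ⟨hy, h⟩
        · exact Or.inr ⟨hy, h⟩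
      · rintro (h | h)
        · exact h.1
        · exact h.1
    · rw [Finset.disjoint_filter]
      intro y _ h1 h2'
      rw [h1] at h2'
      norm_num at h2'
  have hle : ((compat r x).filter (fun y : ℕ => ψ ((x : ZMod r) + (y : ZMod r)) = 1)).card ≤
      ((compat r x).filter (fun y : ℕ => ψ ((x : ZMod r) + (y : ZMod r)) = -1)).card := by
    rw [e3, e2]
    refine card_le_card_of_injOn (fun y => (u : ZMod r) * y) ?_ ?_
    · intro y hy
      rw [mem_coe, mem_filter] at hy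
      rw [mem_coe, mem_filter]
      obtain ⟨_, ⟨h3, h4⟩, h5⟩ := hy
      have f1 : (x : ZMod r) + (u : ZMod r) * y = u * ((x : ZMod r) + y) := by
        rw [mul_add, hux]
      have f2 : (x : ZMod r) - (u : ZMod r) * y = u * ((x : ZMod r) - y) := by
        rw [mul_sub, hux]
      refine ⟨mem_univ _, ⟨?_, ?_⟩, ?_⟩
      · rw [f1]
        exact u.isUnit.mul h3
      · rw [f2]
        exact u.isUnit.mul h4
      · rw [f1, map_mul, hψu, h5, mul_one]
    · intro a _ b _ hab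
      exact u.isUnit.mul_left_cancel hab
  have h7 : (compat r x).card ≤ 2 * ((compat r x).filter (fun y : ℕ =>
      ψ ((x : ZMod r) + (y : ZMod r)) = -1)).card := by omega
  have h8 : ((compat r x).card : ℝ) ≤ 2 * (((compat r x).filter (fun y : ℕ =>
      ψ ((x : ZMod r) + (y : ZMod r)) = -1)).card : ℝ) := by exact_mod_cast h7
  linarith

/-- The product of the primes `≥ 7` dividing `r`. -/
noncomputable def rad7 (r : ℕ) : ℕ :=
  ∏ p ∈ r.primeFactors.filter (fun p => 7 ≤ p), p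

theorem hm_rad7_pos (r : ℕ) : 0 < rad7 r := by
  unfold rad7
  refine prod_pos fun p hp => ?_
  rw [mem_filter] at hp
  exact (Nat.prime_of_mem_primeFactors hp.1).pos

theorem hm_dvd_rad7 {r p : ℕ} (hr : r ≠ 0) (hp : p.Prime) (h7 : 7 ≤ p) (hpr : p ∣ r) :
    p ∣ rad7 r := by
  unfold rad7
  refine dvd_prod_of_mem (fun p => p) ?_
  rw [mem_filter]
  exact ⟨hp.mem_primeFactors hpr hr, h7⟩

/-- For a primitive real character modulo `r`: `r ≤ 120 rad7 r` (`sq_not_dvd`, `sixteen_not_dvd` in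
`H18E/CO`: `r = 2^a 3^b 5^c rad7`, `a ≤ 3`, `b, c ≤ 1`). -/
theorem rad7_ge (r : ℕ) [NeZero r] (ψ : DirichletCharacter ℂ r) (hψ : ψ.IsPrimitive)
    (h2 : ψ ^ 2 = 1) : r ≤ 120 * rad7 r := by
  have hr0 : r ≠ 0 := NeZero.ne r
  refine Nat.le_of_dvd (Nat.mul_pos (by norm_num) (hm_rad7_pos r)) ?_
  rw [Nat.dvd_iff_prime_pow_dvd_dvd]
  intro p k hp hk
  rcases Nat.eq_zero_or_pos k with rfl | hk0
  · simp
  have hpr : p ∣ r := (dvd_pow_self p hk0.ne').trans hk
  have hsq : p ≠ 2 → k = 1 := by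
    intro hne
    by_contra hk1
    exact sq_not_dvd r ψ hψ h2 p hp hne ((pow_dvd_pow p (by omega)).trans hk)
  rcases Nat.lt_or_ge p 7 with hp7 | hp7
  · apply Dvd.dvd.mul_right
    have hp2 := hp.two_le
    interval_cases p
    · have hk3 : k ≤ 3 := by
        by_contra h
        have h16 : (16 : ℕ) ∣ 2 ^ k := by
          have : (2 : ℕ) ^ 4 ∣ 2 ^ k := pow_dvd_pow 2 (by omega)
          simpa using this
        exact sixteen_not_dvd r ψ hψ h2 (h16.trans hk)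
      exact (pow_dvd_pow 2 hk3).trans (by norm_num)
    · rw [hsq (by norm_num)]; norm_num
    · exact absurd hp (by norm_num)
    · rw [hsq (by norm_num)]; norm_num
    · exact absurd hp (by norm_num)
  · rw [hsq (by omega), pow_one]
    exact (hm_dvd_rad7 hr0 hp hp7 hpr).mul_left _

/-- `x` is a multiple of `rad7 r`, or some prime `p ≥ 7` divides `r` and not `x`. If `r > 120` then
`rad7 r ≥ 7` (`cond_big`). -/
theorem rad7_dvd (r x : ℕ) : rad7 r ∣ x ∨ ∃ p : ℕ, p.Prime ∧ 7 ≤ p ∧ p ∣ r ∧ ¬ p ∣ x := by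
  by_cases h : ∀ p ∈ r.primeFactors.filter (fun p => 7 ≤ p), p ∣ x
  · left
    unfold rad7
    refine Finset.prod_primes_dvd x (fun p hp => ?_) h
    rw [mem_filter] at hp
    exact (Nat.prime_of_mem_primeFactors hp.1).prime
  · right
    push Not at h
    obtain ⟨p, hp, hpx⟩ := h
    rw [mem_filter] at hp
    exact ⟨p, Nat.prime_of_mem_primeFactors hp.1, hp.2, Nat.dvd_of_mem_primeFactors hp.1, hpx⟩

theorem rad7_seven (r : ℕ) [NeZero r] (ψ : DirichletCharacter ℂ r) (hψ : ψ.IsPrimitive)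
    (h2 : ψ ^ 2 = 1) (hr : 120 < r) : 7 ≤ rad7 r := by
  obtain ⟨p, hp, h7, hpr⟩ := cond_big r ψ hψ h2 hr
  exact h7.trans (Nat.le_of_dvd (hm_rad7_pos r) (hm_dvd_rad7 (NeZero.ne r) hp h7 hpr))

end Pool.Agent.Lib.H18Q
end

-- from Lib.H44W.U5
section
/-!
CHUNK U5 (S/M). The inverse property of the difference F = sum_q ga q (pd q I1 I2 - M q).
Proof. By TF_sum_sub and |ga| <= 1: be n^2 <= |TF n F W f g| <= sum over q in Q of (|TF (pd q)| + |TF (M q)|), |Q| <= Q0, so some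
q in Q has be/(2 Q0) n^2 <= |TF n (pd q ..)| or be/(2 Q0) n^2 <= |TF n (M q)| (be > 0 so Q is nonempty). Note
5000 y^2 <= be/(2 Q0) <= 1.
Case 1 (pd): by contradiction assume |sum g w| < y^24 n =: m for all w with WL l w. D12 with the parameter 5000 y^2 (in (0,1]; its
hypotheses follow from hA1, hA2, hlq because 5000 y^2 >= y^2, and q <= Q0) gives (5000 y^2)^12 n <= 10^18 y^24 n, false
(5000^12 > 10^18, y > 0, n > 0). So some w has y^24 n <= |sum g w|, and min (y^24) ph <= y^24.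
Case 2 (M q): hM gives th with ph n <= |sum g ee(th y)|; w y = ee(th * y) is WL l (r = 0, ep = 1, th constant).
-/
namespace Pool.Agent.H44W
open Finset

theorem inv_F (n l A1 A2 B1 B2 : ℕ) (hn : 1 ≤ n) (Q : Finset ℕ) (Q0 : ℕ) (hQ0 : 1 ≤ Q0) (hQ : Q.card ≤ Q0)
    (hQ1 : ∀ q ∈ Q, 1 ≤ q ∧ q ≤ Q0) (ga : ℕ → ℂ) (hga : ∀ q, ‖ga q‖ ≤ 1) (M : ℕ → ℤ → ℂ)
    (be y ph : ℝ) (hbe1 : be ≤ 1) (hy : 0 < y) (hby : 10000 * Q0 * y ^ 2 ≤ be)
    (hB1 : B1 ≤ 2 * A1) (hB2 : B2 ≤ 2 * A2) (hA1 : (10:ℝ) ^ 8 ≤ A1 * y ^ 12)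
    (hA2 : (10:ℝ) ^ 8 ≤ A2 * y ^ 12) (hlq : (10:ℝ) ^ 12 * Q0 ≤ l * y ^ 16)
    (hlA : l * (A1 + A2) ≤ n) (W f g : ℤ → ℂ) (hW : ∀ x, ‖W x‖ ≤ 1) (hf : ∀ x, ‖f x‖ ≤ 1)
    (hg : ∀ x, ‖g x‖ ≤ 1)
    (hM : ∀ q ∈ Q, y ^ 2 * (n:ℝ) ^ 2 ≤ ‖TF n (M q) W f g‖ →
      ∃ th : ℝ, ph * n ≤ ‖∑ z ∈ Icc (1:ℤ) n, g z * ee (th * z)‖)
    (hT : be * (n:ℝ) ^ 2 ≤ ‖TF n (fun m => ∑ q ∈ Q, ga q *
      (pd q (Ico (A1:ℤ) B1) (Ico (A2:ℤ) B2) m - M q m)) W f g‖) :
    ∃ w : ℤ → ℂ, WL l w ∧ min (y ^ 24) ph * n ≤ ‖∑ z ∈ Icc (1:ℤ) n, g z * w z‖ := by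
  have hn0 : (0:ℝ) < n := by exact_mod_cast hn
  have hQ0' : (1:ℝ) ≤ Q0 := by exact_mod_cast hQ0
  have hy2 : 0 < y ^ 2 := by positivity
  rw [TF_sum_sub] at hT
  -- some q has a large term
  have hex : ∃ q ∈ Q, 5000 * y ^ 2 * (n:ℝ) ^ 2 ≤ ‖TF n (pd q (Ico (A1:ℤ) B1) (Ico (A2:ℤ) B2)) W f g‖ ∨
      5000 * y ^ 2 * (n:ℝ) ^ 2 ≤ ‖TF n (M q) W f g‖ := by
    by_contra hcon
    push Not at hcon
    have h1 : ‖∑ q ∈ Q, ga q * (TF n (pd q (Ico (A1:ℤ) B1) (Ico (A2:ℤ) B2)) W f g - TF n (M q) W f g)‖ ≤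
        ∑ q ∈ Q, 10000 * y ^ 2 * (n:ℝ) ^ 2 := by
      refine (norm_sum_le _ _).trans (Finset.sum_le_sum fun q hq => ?_)
      obtain ⟨h2, h3⟩ := hcon q hq
      rw [norm_mul]
      calc ‖ga q‖ * ‖TF n (pd q (Ico (A1:ℤ) B1) (Ico (A2:ℤ) B2)) W f g - TF n (M q) W f g‖
          ≤ 1 * (‖TF n (pd q (Ico (A1:ℤ) B1) (Ico (A2:ℤ) B2)) W f g‖ + ‖TF n (M q) W f g‖) :=
            mul_le_mul (hga q) (norm_sub_le _ _) (norm_nonneg _) zero_le_one
        _ ≤ 10000 * y ^ 2 * (n:ℝ) ^ 2 := by linarith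
    rw [Finset.sum_const, nsmul_eq_mul] at h1
    rcases Finset.eq_empty_or_nonempty Q with h0 | ⟨q, hq⟩
    · rw [h0, Finset.sum_empty, norm_zero] at hT
      have h2 : 0 < be * (n:ℝ) ^ 2 := by
        have : 0 < be := lt_of_lt_of_le (by positivity) hby
        positivity
      linarith
    · -- strict inequality for the terms
      have h2 : ‖∑ q ∈ Q, ga q * (TF n (pd q (Ico (A1:ℤ) B1) (Ico (A2:ℤ) B2)) W f g - TF n (M q) W f g)‖ <
          ∑ q ∈ Q, 10000 * y ^ 2 * (n:ℝ) ^ 2 := by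
        refine (norm_sum_le _ _).trans_lt (Finset.sum_lt_sum_of_nonempty ⟨q, hq⟩ fun q hq => ?_)
        obtain ⟨h2, h3⟩ := hcon q hq
        rw [norm_mul]
        calc ‖ga q‖ * ‖TF n (pd q (Ico (A1:ℤ) B1) (Ico (A2:ℤ) B2)) W f g - TF n (M q) W f g‖
            ≤ 1 * (‖TF n (pd q (Ico (A1:ℤ) B1) (Ico (A2:ℤ) B2)) W f g‖ + ‖TF n (M q) W f g‖) :=
              mul_le_mul (hga q) (norm_sub_le _ _) (norm_nonneg _) zero_le_one
          _ < 10000 * y ^ 2 * (n:ℝ) ^ 2 := by linarith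
      rw [Finset.sum_const, nsmul_eq_mul] at h2
      have h3 : (Q.card : ℝ) ≤ Q0 := by exact_mod_cast hQ
      have h4 : (Q.card : ℝ) * (10000 * y ^ 2 * (n:ℝ) ^ 2) ≤ Q0 * (10000 * y ^ 2 * (n:ℝ) ^ 2) :=
        mul_le_mul_of_nonneg_right h3 (by positivity)
      have h5 : (Q0 : ℝ) * (10000 * y ^ 2 * (n:ℝ) ^ 2) = (10000 * Q0 * y ^ 2) * (n:ℝ) ^ 2 := by ring
      have h6 : (10000 * (Q0:ℝ) * y ^ 2) * (n:ℝ) ^ 2 ≤ be * (n:ℝ) ^ 2 :=
        mul_le_mul_of_nonneg_right hby (by positivity)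
      linarith
  obtain ⟨q, hq, hor⟩ := hex
  obtain ⟨hq1, hq2⟩ := hQ1 q hq
  rcases hor with h1 | h1
  · by_contra hcon
    push Not at hcon
    have hsm : ∀ w : ℤ → ℂ, WL l w → ‖∑ z ∈ Icc (1:ℤ) n, g z * w z‖ ≤ y ^ 24 * n := by
      intro w hw
      refine (hcon w hw).le.trans ?_
      exact mul_le_mul_of_nonneg_right (min_le_left _ _) hn0.le
    have h5y : 5000 * y ^ 2 ≤ 1 := by
      have h2 : 10000 * 1 * y ^ 2 ≤ 10000 * (Q0:ℝ) * y ^ 2 := by
        refine mul_le_mul_of_nonneg_right ?_ hy2.le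
        linarith
      linarith
    have hle : y ^ 2 ≤ 5000 * y ^ 2 := by linarith
    have hp6 : y ^ 12 ≤ (5000 * y ^ 2) ^ 6 := by
      calc y ^ 12 = (y ^ 2) ^ 6 := by ring
        _ ≤ _ := pow_le_pow_left₀ hy2.le hle 6
    have hp8 : y ^ 16 ≤ (5000 * y ^ 2) ^ 8 := by
      calc y ^ 16 = (y ^ 2) ^ 8 := by ring
        _ ≤ _ := pow_le_pow_left₀ hy2.le hle 8
    have h2 := D12 n q l A1 A2 B1 B2 hn hq1 (5000 * y ^ 2) (by positivity) h5y hB1 hB2
      (hA1.trans (mul_le_mul_of_nonneg_left hp6 (Nat.cast_nonneg _)))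
      (hA2.trans (mul_le_mul_of_nonneg_left hp6 (Nat.cast_nonneg _)))
      (by
        have h3 : (q:ℝ) ≤ Q0 := by exact_mod_cast hq2
        calc (10:ℝ) ^ 12 * q ≤ 10 ^ 12 * Q0 := mul_le_mul_of_nonneg_left h3 (by positivity)
          _ ≤ l * y ^ 16 := hlq
          _ ≤ l * (5000 * y ^ 2) ^ 8 := mul_le_mul_of_nonneg_left hp8 (Nat.cast_nonneg _))
      hlA W f g hW hf hg h1 (y ^ 24 * n) hsm
    have h3 : (5000 * y ^ 2) ^ 12 * (n:ℝ) = 5000 ^ 12 * (y ^ 24 * n) := by ring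
    have h4 : 0 < y ^ 24 * (n:ℝ) := by positivity
    rw [h3] at h2
    norm_num at h2
    nlinarith
  · obtain ⟨th, hth⟩ := hM q hq (by
      refine le_trans ?_ h1
      refine mul_le_mul_of_nonneg_right ?_ (by positivity)
      linarith)
    refine ⟨fun y => ee (th * y), ⟨0, fun _ => 1, fun _ => th, fun _ => norm_one.le, fun y => by rw [one_mul]⟩, ?_⟩
    exact le_trans (mul_le_mul_of_nonneg_right (min_le_right _ _) hn0.le) hth

end Pool.Agent.H44W
end

-- from Lib.H68X.XEX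
section

/-!
# Chunk XEX: everything about a level with an exceptional zero
-/

open Finset Metric

namespace Pool.Agent.Lib.H68T


/-- Below the conductor of an exceptional character the levels are good: if `ψ'` of conductor
`≤ r - 1` had a zero `σ ≥ 1 - c/log (r-1)`, then `σ ≥ 1 - c₀/log r` (`log r ≤ 2 log (r-1)`,
`c ≤ c₀/2`) and `β ≥ 1 - c/log Q ≥ 1 - c₀/log r` contradict `page` at the level `r`
(the conductors differ, so `⟨r', ψ'⟩ ≠ ⟨r, ψ⟩`). -/
theorem good_below : ∃ c K : ℝ, 0 < c ∧ ∀ (Q r : ℕ) [NeZero r] (ψ : DirichletCharacter ℂ r)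
    (β : ℝ), K ≤ r → Exc c Q r ψ β → Good c (r - 1) := by
  obtain ⟨c₀, K₀, hc₀, hpage⟩ := page
  refine ⟨c₀ / 2, max K₀ 3, by positivity, ?_⟩
  intro Q r _ ψ β hK hexc
  obtain ⟨hrQ, hprim, hne, hsq, hβ, hβ1, hz⟩ := hexc
  have hK0 : K₀ ≤ r := (le_max_left _ _).trans hK
  have h3r : (3 : ℝ) ≤ r := (le_max_right _ _).trans hK
  have h3 : 3 ≤ r := by exact_mod_cast h3r
  have hlog : 0 < Real.log r := Real.log_pos (by linarith)
  have hcast : ((r - 1 : ℕ) : ℝ) = r - 1 := by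
    rw [Nat.cast_sub (by omega), Nat.cast_one]
  have hlog1 : 0 < Real.log ((r - 1 : ℕ) : ℝ) := Real.log_pos (by rw [hcast]; linarith)
  have hlog2 : Real.log r ≤ 2 * Real.log ((r - 1 : ℕ) : ℝ) := by
    have h1 : 2 * Real.log ((r - 1 : ℕ) : ℝ) = Real.log (((r - 1 : ℕ) : ℝ) ^ 2) := by
      rw [Real.log_pow]
      push_cast
      ring
    rw [h1]
    refine Real.log_le_log (by linarith) ?_
    rw [hcast]
    nlinarith
  intro r' _ ψ' hr' hp' hψ' hs' σ hσ hσ1 hz'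
  have hr'r : r' ≤ r := by omega
  refine hpage r hK0 r r' ψ ψ' le_rfl hr'r hprim hp' hne hψ' hsq hs' ?_ β σ ?_ hβ1.le ?_ hσ1 hz hz'
  · intro h
    have h1 : r = r' := congrArg Sigma.fst h
    omega
  · have h1 : Real.log r ≤ Real.log Q :=
      Real.log_le_log (by linarith) (by exact_mod_cast hrQ)
    have h2 : c₀ / 2 / Real.log Q ≤ c₀ / Real.log r :=
      div_le_div₀ hc₀.le (by linarith) hlog h1
    linarith
  · have h1 : c₀ / 2 / Real.log ((r - 1 : ℕ) : ℝ) ≤ c₀ / Real.log r := by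
      rw [div_le_div_iff₀ hlog1 hlog]
      have := mul_le_mul_of_nonneg_left hlog2 hc₀.le
      linarith
    linarith

end Pool.Agent.Lib.H68T
end
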