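import Pool.Agent.Lib.H1M.RV2.D_Goldbach_Defs
import Pool.Agent.Lib.H1M.RV2.M001
import Pool.Agent.Lib.H1M.RV2.M012
import Pool.Agent.Lib.H1M.RV2.M016
import Pool.Agent.Lib.H1M.RV2.M029
import Pool.Agent.Lib.H1M.RV2.M031
import Pool.Agent.Lib.H1M.RV2.M042

/-! Merged copies (to shorten the build) of Lib.H18R.OG, Lib.H18R.SM, Lib.H57C.BH2, Lib.H92G.W2, Lib.H57C.VF, Lib.H57C.V1, Lib.H57C.V2, Lib.H57C.V3, Lib.H57C.V4. -/

-- from Lib.H18R.OG
section

/-!
# Project H18R (MP_443e5f_co): generic vertices at distance at most five in the graph below them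

Module G of project T (`H96G`) gives a set `Γ` of generic vertices of `[1, n]`, pairwise at distance at most `5` in the
graph on `[1, n]`. The paths only use vertices of lower scales, or generic vertices which can be chosen anywhere; so the
distances are at most `5` also in the graph on `[1, max u v]`.
-/

open Finset

namespace Pool.Agent.Lib.H18R

open Pool.Agent.Lib.H96G
open Pool.Agent.Lib.GoldbachGraph (hadj hdeg hadj_comm)

theorem og_PZ {n n' Z : ℕ} {s t : ℝ} {Γ : Finset ℕ} (h : PZ n Z s t Γ) (hn : n' ≤ n) :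
    PZ n' Z s t (Γ.filter fun x => x ≤ n') where
  sub := by
    intro x hx
    rw [mem_filter] at hx
    have := h.sub hx.1
    rw [mem_Icc] at this ⊢
    exact ⟨this.1, hx.2⟩
  co := by
    refine le_trans ?_ h.co
    have h1 : (Icc (4 * Z) n' \ (Γ.filter fun x => x ≤ n')).card ≤ (Icc (4 * Z) n \ Γ).card := by
      apply card_le_card
      intro x hx
      rw [mem_sdiff, mem_filter, mem_Icc] at hx
      rw [mem_sdiff, mem_Icc]
      exact ⟨⟨hx.1.1, hx.1.2.trans hn⟩, fun h2 => hx.2 ⟨h2, hx.1.2⟩⟩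
    exact_mod_cast h1
  al := fun u hu => h.al u (mem_filter.1 hu).1
  be := by
    intro u hu
    refine le_trans ?_ (h.be u (mem_filter.1 hu).1)
    have h1 : (far Z u (Icc (4 * Z) n')).card ≤ (far Z u (Icc (4 * Z) n)).card := by
      apply card_le_card
      intro x hx
      simp only [far, mem_filter] at hx ⊢
      exact ⟨Icc_subset_Icc_right hn hx.1, hx.2⟩
    exact_mod_cast h1
  ga := fun u hu h3 => h.ga u (mem_filter.1 hu).1 h3

/-- Distances between generic vertices in the graph below them. -/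
theorem og_dist {lo n Z0 Z1 Z2 : ℕ} (hlo : lo ≤ 1) {s t : ℝ} {Γ0 Γ1 Γ2 : Finset ℕ}
    (h : Tri n Z0 Z1 Z2 s t Γ0 Γ1 Γ2) {u v n' : ℕ} (hu : u ∈ Γ0 ∩ Γ1 ∩ Γ2) (hv : v ∈ Γ0 ∩ Γ1 ∩ Γ2)
    (hu' : u ≤ n') (hv' : v ≤ n') (h1 : n' ≤ n) (h2 : 100 * Z2 ≤ n') (h3 : 100 ≤ n') (h4 : 20 * s ≤ n') :
    (HL lo n').edist u v ≤ 5 ∧ (u % 2 = v % 2 → (HL lo n').edist u v ≤ 4) ∧
      (OT u v → (HL lo n').edist u v ≤ 3) := by
  have hT : Tri n' Z0 Z1 Z2 s t (Γ0.filter fun x => x ≤ n') (Γ1.filter fun x => x ≤ n') (Γ2.filter fun x => x ≤ n') :=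
    ⟨og_PZ h.P0 h1, og_PZ h.P1 h1, og_PZ h.P2 h1, h.h01, h.h12, h2, h3, h4, h.hst⟩
  rw [mem_inter, mem_inter] at hu hv
  exact C6 hlo hT (mem_filter.2 ⟨hu.1.1, hu'⟩) (mem_filter.2 ⟨hu.1.2, hu'⟩) (mem_filter.2 ⟨hu.2, hu'⟩)
    (mem_filter.2 ⟨hv.1.1, hv'⟩) (mem_filter.2 ⟨hv.1.2, hv'⟩) (mem_filter.2 ⟨hv.2, hv'⟩)

/-- The vertices outside of `Γ0 ∩ Γ1 ∩ Γ2`. Proof. Such a `u ∈ Icc 1 n` is `< 4 Z2`, or in one of the sets
`Icc (4 Z_i) n \ Γ_i` (fields `co`; `Z0 ≤ Z1 ≤ Z2`). -/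
theorem og_co {n Z0 Z1 Z2 : ℕ} {s t : ℝ} {Γ0 Γ1 Γ2 : Finset ℕ} (h : Tri n Z0 Z1 Z2 s t Γ0 Γ1 Γ2) :
    ((Icc 1 n \ (Γ0 ∩ Γ1 ∩ Γ2)).card : ℝ) ≤ 4 * Z2 + 3 * s := by
  have hsub : Icc 1 n \ (Γ0 ∩ Γ1 ∩ Γ2) ⊆ range (4 * Z2) ∪ ((Icc (4 * Z0) n \ Γ0) ∪
      ((Icc (4 * Z1) n \ Γ1) ∪ (Icc (4 * Z2) n \ Γ2))) := by
    intro u hu
    rw [mem_sdiff, mem_Icc, mem_inter, mem_inter] at hu
    obtain ⟨⟨h1, h2⟩, h3⟩ := hu
    have h01 := h.h01
    have h12 := h.h12
    simp only [mem_union, mem_range, mem_sdiff, mem_Icc]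
    by_cases h4 : u < 4 * Z2
    · exact Or.inl h4
    · right
      by_cases h5 : u ∈ Γ0
      · by_cases h6 : u ∈ Γ1
        · refine Or.inr (Or.inr ⟨by omega, fun h7 => h3 ⟨⟨h5, h6⟩, h7⟩⟩)
        · exact Or.inr (Or.inl ⟨by omega, h6⟩)
      · exact Or.inl ⟨by omega, h5⟩
  have h1 := card_le_card hsub
  have h2 := card_union_le (range (4 * Z2)) ((Icc (4 * Z0) n \ Γ0) ∪ ((Icc (4 * Z1) n \ Γ1) ∪ (Icc (4 * Z2) n \ Γ2)))
  have h3 := card_union_le (Icc (4 * Z0) n \ Γ0) ((Icc (4 * Z1) n \ Γ1) ∪ (Icc (4 * Z2) n \ Γ2))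
  have h4 := card_union_le (Icc (4 * Z1) n \ Γ1) (Icc (4 * Z2) n \ Γ2)
  rw [card_range] at h2
  have h5 : (Icc 1 n \ (Γ0 ∩ Γ1 ∩ Γ2)).card ≤ 4 * Z2 + ((Icc (4 * Z0) n \ Γ0).card + ((Icc (4 * Z1) n \ Γ1).card +
      (Icc (4 * Z2) n \ Γ2).card)) := by omega
  have h6 : ((Icc 1 n \ (Γ0 ∩ Γ1 ∩ Γ2)).card : ℝ) ≤ 4 * Z2 + (((Icc (4 * Z0) n \ Γ0).card : ℝ) + (((Icc (4 * Z1) n \ Γ1).card : ℝ) +
      ((Icc (4 * Z2) n \ Γ2).card : ℝ))) := by exact_mod_cast h5
  linarith [h.P0.co, h.P1.co, h.P2.co]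

/-- Generic vertices of `[1, n]`, with distances in the graphs below them. -/
def Own (n : ℕ) (D : ℝ) (Γ : Finset ℕ) : Prop :=
  ((Icc 1 n \ Γ).card : ℝ) ≤ (n : ℝ) ^ (1 - D) ∧
    ∀ u ∈ Γ, ∀ v ∈ Γ, ∀ n' : ℕ, u ≤ n' → v ≤ n' → n' ≤ n → (HL 1 n').edist u v ≤ 5 ∧
      (u % 2 = v % 2 → (HL 1 n').edist u v ≤ 4) ∧ (OT u v → (HL 1 n').edist u v ≤ 3)

/-- **OG.** -/
theorem og {n M : ℕ} {L : ℕ → ℤ → ℝ} {c B b : ℝ} (hN : Nm n b) (h : GIn n M L c B b) :
    ∃ Γ : Finset ℕ, Γ ⊆ Icc 1 n ∧ Own n (B / 10) Γ := by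
  have hb := h.b_pos
  have hbB := h.hb
  have hBc := h.hB
  have hc := h.hc
  obtain ⟨Z0, Z1, Z2, Γ0, Γ1, Γ2, hM0, hlo0, hhi0, hZ2, hT⟩ := D2 hN h
  set W := 100 * Z2 + 100 + ⌈20 * (n : ℝ) ^ (1 - c / 2 + 3 * B)⌉₊ with hW
  have hs1 : (n : ℝ) ^ (1 - c / 2 + 3 * B) ≤ (n : ℝ) ^ (1 - B) := hN.mono (by linarith)
  have hZ2R : (Z2 : ℝ) = 64 * Z0 := by rw [hZ2]; push_cast; ring
  have hone : (1 : ℝ) ≤ (n : ℝ) ^ (1 - B) := by
    have := hN.mono (x := 0) (y := 1 - B) (by linarith)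
    rwa [Real.rpow_zero] at this
  have hp := hN.ppos (1 - c / 2 + 3 * B)
  have hceil : (⌈20 * (n : ℝ) ^ (1 - c / 2 + 3 * B)⌉₊ : ℝ) ≤ 20 * (n : ℝ) ^ (1 - c / 2 + 3 * B) + 1 :=
    (Nat.ceil_lt_add_one (by positivity)).le
  have hceil2 : 20 * (n : ℝ) ^ (1 - c / 2 + 3 * B) ≤ (⌈20 * (n : ℝ) ^ (1 - c / 2 + 3 * B)⌉₊ : ℝ) := Nat.le_ceil _
  have hWR : (W : ℝ) ≤ 13000 * (n : ℝ) ^ (1 - B) := by
    rw [hW]
    push_cast
    linarith
  refine ⟨(Γ0 ∩ Γ1 ∩ Γ2).filter (fun x => W ≤ x), ?_, ?_, ?_⟩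
  · intro u hu
    rw [mem_filter, mem_inter, mem_inter] at hu
    have h1 := hT.P0.sub hu.1.1.1
    rw [mem_Icc] at h1 ⊢
    omega
  · have h1 : (Icc 1 n \ (Γ0 ∩ Γ1 ∩ Γ2).filter (fun x => W ≤ x)) ⊆ (Icc 1 n \ (Γ0 ∩ Γ1 ∩ Γ2)) ∪ range W := by
      intro u hu
      rw [mem_sdiff, mem_filter, not_and] at hu
      rw [mem_union, mem_sdiff, mem_range]
      by_cases h2 : u ∈ Γ0 ∩ Γ1 ∩ Γ2
      · have := hu.2 h2
        right
        omega
      · exact Or.inl ⟨hu.1, h2⟩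
    have h2 := (card_le_card h1).trans (card_union_le _ _)
    rw [card_range] at h2
    have h3 : ((Icc 1 n \ (Γ0 ∩ Γ1 ∩ Γ2).filter (fun x => W ≤ x)).card : ℝ) ≤
        ((Icc 1 n \ (Γ0 ∩ Γ1 ∩ Γ2)).card : ℝ) + W := by exact_mod_cast h2
    have h4 := og_co hT
    have h5 : (20000 : ℝ) * (n : ℝ) ^ (1 - B) ≤ (n : ℝ) ^ (1 - B / 10) := hN.cst (by norm_num) (by linarith)
    linarith
  · intro u hu v hv n' hu' hv' hn'
    rw [mem_filter] at hu hv
    refine og_dist le_rfl hT hu.1 hv.1 hu' hv' hn' (by omega) (by omega) ?_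
    have h1 : (⌈20 * (n : ℝ) ^ (1 - c / 2 + 3 * B)⌉₊ : ℝ) ≤ n' := by
      have : ⌈20 * (n : ℝ) ^ (1 - c / 2 + 3 * B)⌉₊ ≤ n' := by omega
      exact_mod_cast this
    linarith

end Pool.Agent.Lib.H18R
end

-- from Lib.H18R.SM
section

/-!
# Project H18R (MP_443e5f_co): small vertices under Goldbach's conjecture

Copies of proofs of `H18P/P4.lean` and `H18P/P5.lean`, in order to have fewer imports.
-/

open Finset Pool.Agent.Goldbach

namespace Pool.Agent.Lib.H18R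

/-- Descent: under Goldbach's conjecture every vertex is connected to `2`, `4` or `6`. -/
theorem descent (hG : ∀ u : ℕ, Even u → 8 ≤ u → ∃ p q : ℕ, p.Prime ∧ q.Prime ∧ p ≠ q ∧ p + q = u)
    {V S : Set ℕ} {n : ℕ} (hV : ∀ a ∈ V, Even a ∧ a ≤ 2 * n) (hV2 : ∀ x ∈ Finset.Icc 1 n, 2 * x ∈ V)
    (hS : ∀ m, m.Prime → Odd m → m < 2 * n → m ∈ S) : ∀ u : ℕ, ∀ hu : u ∈ V, 0 < u →
    ∃ w, ∃ hw : w ∈ V, (w = 2 ∨ w = 4 ∨ w = 6) ∧ (halfGraph V S).edist ⟨u, hu⟩ ⟨w, hw⟩ ≤ (u : ℕ∞) := by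
  intro u
  induction u using Nat.strong_induction_on with
  | _ u ih =>
    intro hu hu0
    obtain ⟨he, hun⟩ := hV u hu
    by_cases h8 : 8 ≤ u
    · obtain ⟨p, q, hp, hq, hpq, hsum⟩ := hG u he h8
      wlog hlt : p < q generalizing p q
      · exact this q p hq hp hpq.symm (by omega) (by omega)
      have hp2 : p ≠ 2 := by
        rintro rfl
        have h1 : Even q := by
          obtain ⟨k, hk⟩ := he
          exact ⟨k - 1, by omega⟩
        have := (Nat.Prime.even_iff hq).1 h1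
        omega
      have hq2 : q ≠ 2 := by
        have := hp.two_le
        omega
      have hpo := hp.odd_of_ne_two hp2
      have hqo := hq.odd_of_ne_two hq2
      obtain ⟨k, hk⟩ := hpo
      obtain ⟨l, hl⟩ := hqo
      have hpp := hp.pos
      have hvmem : q - p ∈ V := by
        have : q - p = 2 * (l - k) := by omega
        rw [this]
        exact hV2 _ (mem_Icc.2 ⟨by omega, by omega⟩)
      obtain ⟨w, hw, hw1, hw2⟩ := ih (q - p) (by omega) hvmem (by omega)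
      refine ⟨w, hw, hw1, ?_⟩
      have hadj : (halfGraph V S).Adj ⟨u, hu⟩ ⟨q - p, hvmem⟩ := by
        rw [halfGraph_adj_iff (x := k + l + 1) (y := l - k) (by simp only; omega) (by simp only; omega)]
        refine ⟨by omega, ?_, ?_⟩
        · have : k + l + 1 + (l - k) = q := by omega
          rw [this]
          exact hS q hq ⟨l, hl⟩ (by omega)
        · have : (((k + l + 1 : ℕ) : ℤ) - ((l - k : ℕ) : ℤ)).natAbs = p := by omega
          rw [this]
          exact hS p hp ⟨k, hk⟩ (by omega)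
      have h1 : (halfGraph V S).edist ⟨u, hu⟩ ⟨q - p, hvmem⟩ ≤ 1 := by
        refine (SimpleGraph.edist_le (.cons hadj .nil)).trans ?_
        norm_num
      calc (halfGraph V S).edist ⟨u, hu⟩ ⟨w, hw⟩ ≤ (halfGraph V S).edist ⟨u, hu⟩ ⟨q - p, hvmem⟩ +
            (halfGraph V S).edist ⟨q - p, hvmem⟩ ⟨w, hw⟩ := SimpleGraph.edist_triangle
        _ ≤ 1 + ((q - p : ℕ) : ℕ∞) := add_le_add h1 hw2
        _ ≤ (u : ℕ∞) := by
            have h2 : 1 + (q - p) ≤ u := by omega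
            exact_mod_cast h2
    · refine ⟨u, hu, ?_, by rw [SimpleGraph.edist_self]; exact zero_le⟩
      obtain ⟨k, hk⟩ := he
      omega

theorem edist_three {V : Type*} (G : SimpleGraph V) (a b c d : V) (i j k : ℕ∞) (h1 : G.edist a b ≤ i)
    (h2 : G.edist b c ≤ j) (h3 : G.edist c d ≤ k) : G.edist a d ≤ i + j + k :=
  calc G.edist a d ≤ G.edist a c + G.edist c d := SimpleGraph.edist_triangle
    _ ≤ (G.edist a b + G.edist b c) + G.edist c d := add_le_add_left SimpleGraph.edist_triangle _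
    _ ≤ i + j + k := add_le_add (add_le_add h1 h2) h3

theorem q1_aux (hG : ∀ u : ℕ, Even u → 8 ≤ u → ∃ p q : ℕ, p.Prime ∧ q.Prime ∧ p ≠ q ∧ p + q = u)
    {V S : Set ℕ} {n : ℕ} (hV : ∀ a ∈ V, Even a ∧ a ≤ 2 * n) (hV2 : ∀ x ∈ Finset.Icc 1 n, 2 * x ∈ V)
    (hS : ∀ m, m.Prime → Odd m → m < 2 * n → m ∈ S) (U : ℕ) (s : ℕ) (hs : s ∈ V) (hs0 : 0 < s)
    (hsU : s ≤ 2 * U)
    (h246 : ∀ w w' : ℕ, ∀ hw : w ∈ V, ∀ hw' : w' ∈ V, (w = 2 ∨ w = 4 ∨ w = 6) → (w' = 2 ∨ w' = 4 ∨ w' = 6) →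
      (halfGraph V S).edist ⟨w, hw⟩ ⟨w', hw'⟩ ≤ 6)
    (h0 : ∀ hu : 0 ∈ V, ∃ w, ∃ hw : w ∈ V, (w = 2 ∨ w = 4 ∨ w = 6) ∧
      (halfGraph V S).edist ⟨0, hu⟩ ⟨w, hw⟩ ≤ 1)
    (hbig : ∀ u : ℕ, ∀ hu : u ∈ V, U ≤ u → (halfGraph V S).edist ⟨u, hu⟩ ⟨s, hs⟩ ≤ 13) :
    ∀ u v : V, (halfGraph V S).edist u v ≤ ((2 * (3 * U + 40) : ℕ) : ℕ∞) := by
  obtain ⟨w', hw', hw1', hw2'⟩ := descent hG hV hV2 hS s hs hs0
  have key : ∀ u : V, (halfGraph V S).edist u ⟨s, hs⟩ ≤ ((3 * U + 40 : ℕ) : ℕ∞) := by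
    rintro ⟨u, hu⟩
    rcases Nat.eq_zero_or_pos u with h | h
    · subst h
      obtain ⟨w, hw, hw1, hw2⟩ := h0 hu
      have h1 := h246 w w' hw hw' hw1 hw1'
      rw [SimpleGraph.edist_comm] at hw2'
      refine (edist_three _ _ _ _ _ _ _ _ hw2 h1 hw2').trans ?_
      have : 1 + 6 + s ≤ 3 * U + 40 := by omega
      exact_mod_cast this
    · by_cases hU : U ≤ u
      · refine (hbig u hu hU).trans ?_
        have : 13 ≤ 3 * U + 40 := by omega
        exact_mod_cast this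
      · obtain ⟨w, hw, hw1, hw2⟩ := descent hG hV hV2 hS u hu h
        have h1 := h246 w w' hw hw' hw1 hw1'
        rw [SimpleGraph.edist_comm] at hw2'
        refine (edist_three _ _ _ _ _ _ _ _ hw2 h1 hw2').trans ?_
        have : u + 6 + s ≤ 3 * U + 40 := by omega
        exact_mod_cast this
  intro u v
  have h1 := key u
  have h2 := key v
  rw [SimpleGraph.edist_comm] at h2
  calc (halfGraph V S).edist u v ≤ (halfGraph V S).edist u ⟨s, hs⟩ + (halfGraph V S).edist ⟨s, hs⟩ v :=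
        SimpleGraph.edist_triangle
    _ ≤ ((3 * U + 40 : ℕ) : ℕ∞) + ((3 * U + 40 : ℕ) : ℕ∞) := add_le_add h1 h2
    _ = ((2 * (3 * U + 40) : ℕ) : ℕ∞) := by push_cast; ring

/-- an edge between small vertices -/
theorem edge {V S : Set ℕ} (x y p q : ℕ) (hx : 2 * x ∈ V) (hy : 2 * y ∈ V) (hxy : y < x) (hp : x + y = p)
    (hq : x - y = q) (hpS : p ∈ S) (hqS : q ∈ S) :
    (halfGraph V S).edist ⟨2 * x, hx⟩ ⟨2 * y, hy⟩ ≤ 1 := by
  have hadj : (halfGraph V S).Adj ⟨2 * x, hx⟩ ⟨2 * y, hy⟩ := by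
    rw [halfGraph_adj_iff (x := x) (y := y) rfl rfl]
    have : ((x : ℤ) - y).natAbs = q := by omega
    rw [this, hp]
    exact ⟨by omega, hpS, hqS⟩
  refine (SimpleGraph.edist_le (.cons hadj .nil)).trans ?_
  norm_num

/-- distances between `2`, `4`, `6` in the near Goldbach graphs -/
theorem small_near {V S : Set ℕ} (h1 : 1 ∈ S) (h3 : 3 ∈ S) (h5 : 5 ∈ S) (a2 : 2 ∈ V) (a4 : 4 ∈ V)
    (a6 : 6 ∈ V) : ∀ w w' : ℕ, ∀ hw : w ∈ V, ∀ hw' : w' ∈ V, (w = 2 ∨ w = 4 ∨ w = 6) →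
      (w' = 2 ∨ w' = 4 ∨ w' = 6) → (halfGraph V S).edist ⟨w, hw⟩ ⟨w', hw'⟩ ≤ 6 := by
  have e42 : (halfGraph V S).edist ⟨4, a4⟩ ⟨2, a2⟩ ≤ 1 := edge 2 1 3 1 a4 a2 (by norm_num) rfl rfl h3 h1
  have e64 : (halfGraph V S).edist ⟨6, a6⟩ ⟨4, a4⟩ ≤ 1 := edge 3 2 5 1 a6 a4 (by norm_num) rfl rfl h5 h1
  have key : ∀ w : ℕ, ∀ hw : w ∈ V, (w = 2 ∨ w = 4 ∨ w = 6) → (halfGraph V S).edist ⟨w, hw⟩ ⟨4, a4⟩ ≤ 3 := by
    rintro w hw (h | h | h)
    · subst h
      rw [SimpleGraph.edist_comm]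
      exact e42.trans (by norm_num)
    · subst h
      rw [SimpleGraph.edist_self]
      exact zero_le
    · subst h
      exact e64.trans (by norm_num)
  intro w w' hw hw' h h'
  have k1 := key w hw h
  have k2 := key w' hw' h'
  rw [SimpleGraph.edist_comm] at k2
  calc (halfGraph V S).edist ⟨w, hw⟩ ⟨w', hw'⟩ ≤ (halfGraph V S).edist ⟨w, hw⟩ ⟨4, a4⟩ +
        (halfGraph V S).edist ⟨4, a4⟩ ⟨w', hw'⟩ := SimpleGraph.edist_triangle
    _ ≤ 3 + 3 := add_le_add k1 k2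
    _ = 6 := by norm_num

/-- distances between `2`, `4`, `6` in the Goldbach graphs -/
theorem small_gold {V S : Set ℕ} (h3 : 3 ∈ S) (h5 : 5 ∈ S) (h7 : 7 ∈ S) (h11 : 11 ∈ S) (a0 : 0 ∈ V)
    (a2 : 2 ∈ V) (a4 : 4 ∈ V) (a6 : 6 ∈ V) (a8 : 8 ∈ V) (a10 : 10 ∈ V) (a14 : 14 ∈ V) :
    (halfGraph V S).edist ⟨0, a0⟩ ⟨6, a6⟩ ≤ 1 ∧
    ∀ w w' : ℕ, ∀ hw : w ∈ V, ∀ hw' : w' ∈ V, (w = 2 ∨ w = 4 ∨ w = 6) →
      (w' = 2 ∨ w' = 4 ∨ w' = 6) → (halfGraph V S).edist ⟨w, hw⟩ ⟨w', hw'⟩ ≤ 6 := by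
  have e82 : (halfGraph V S).edist ⟨8, a8⟩ ⟨2, a2⟩ ≤ 1 := edge 4 1 5 3 a8 a2 (by norm_num) rfl rfl h5 h3
  have e148 : (halfGraph V S).edist ⟨14, a14⟩ ⟨8, a8⟩ ≤ 1 := edge 7 4 11 3 a14 a8 (by norm_num) rfl rfl h11 h3
  have e140 : (halfGraph V S).edist ⟨14, a14⟩ ⟨0, a0⟩ ≤ 1 := edge 7 0 7 7 a14 a0 (by norm_num) rfl rfl h7 h7
  have e104 : (halfGraph V S).edist ⟨10, a10⟩ ⟨4, a4⟩ ≤ 1 := edge 5 2 7 3 a10 a4 (by norm_num) rfl rfl h7 h3
  have e100 : (halfGraph V S).edist ⟨10, a10⟩ ⟨0, a0⟩ ≤ 1 := edge 5 0 5 5 a10 a0 (by norm_num) rfl rfl h5 h5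
  have e60 : (halfGraph V S).edist ⟨6, a6⟩ ⟨0, a0⟩ ≤ 1 := edge 3 0 3 3 a6 a0 (by norm_num) rfl rfl h3 h3
  refine ⟨by rw [SimpleGraph.edist_comm]; exact e60, ?_⟩
  have key : ∀ w : ℕ, ∀ hw : w ∈ V, (w = 2 ∨ w = 4 ∨ w = 6) → (halfGraph V S).edist ⟨w, hw⟩ ⟨0, a0⟩ ≤ 3 := by
    rintro w hw (h | h | h)
    · subst h
      rw [SimpleGraph.edist_comm] at e82 e148
      have := edist_three _ _ _ _ _ _ _ _ e82 e148 e140
      refine this.trans ?_
      norm_num
    · subst h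
      rw [SimpleGraph.edist_comm] at e104
      have h1 : (halfGraph V S).edist ⟨4, a4⟩ ⟨0, a0⟩ ≤ 1 + 1 :=
        SimpleGraph.edist_triangle.trans (add_le_add e104 e100)
      refine h1.trans ?_
      norm_num
    · subst h
      exact e60.trans (by norm_num)
  intro w w' hw hw' h h'
  have k1 := key w hw h
  have k2 := key w' hw' h'
  rw [SimpleGraph.edist_comm] at k2
  calc (halfGraph V S).edist ⟨w, hw⟩ ⟨w', hw'⟩ ≤ (halfGraph V S).edist ⟨w, hw⟩ ⟨0, a0⟩ +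
        (halfGraph V S).edist ⟨0, a0⟩ ⟨w', hw'⟩ := SimpleGraph.edist_triangle
    _ ≤ 3 + 3 := add_le_add k1 k2
    _ = 6 := by norm_num

end Pool.Agent.Lib.H18R
end

-- from Lib.H57C.BH2
section

/-!
# Chunk BH2: the Brun-Hooley sieve for weighted sequences with remainder terms
-/

open Finset

namespace Pool.Agent.Lib.H57C

open Pool.Agent.Lib.Sieve

theorem bh2_blockE (k z : ℕ) (Q : Finset ℕ)
    (hQ : ∀ q ∈ Q, q.Prime ∧ 2 * k + 2 < q ∧ q ≤ z) (g : ℕ → ℝ) (hg0 : ∀ q, 0 ≤ g q)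
    (hg : ∀ q ∈ Q, g q ≤ k / q) (j : ℕ) :
    poly (cE (bj k j + 1)) g (Q.filter (fun q => blk z q = j)) ≤
      epsj k j * ∏ p ∈ Q.filter (fun q => blk z q = j), (1 - g p) := by
  set R := Q.filter (fun q => blk z q = j) with hR
  have hsub : R ⊆ blockSet (2 * k + 2) z j := by
    intro q hq
    rw [hR, mem_filter] at hq
    rw [mem_blockSet]
    exact ⟨hQ q hq.1, hq.2⟩
  have hRQ : ∀ q ∈ R, q ∈ Q := fun q hq => (mem_filter.1 hq).1
  have hg1 : ∀ p ∈ R, g p ≤ 1 / 2 := fun p hp => by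
    have h1 := hg p (hRQ p hp)
    have h2 := (hQ p (hRQ p hp)).2.1
    refine h1.trans ?_
    have hp0 : (0 : ℝ) < p := by
      have : 0 < p := by omega
      exact_mod_cast this
    rw [div_le_iff₀ hp0]
    have h3 : (2 * k + 2 : ℝ) < p := by exact_mod_cast h2
    linarith
  have hsum : ∑ p ∈ R, g p ≤ 6 * k := by
    calc ∑ p ∈ R, g p ≤ ∑ p ∈ R, (k : ℝ) * (1 / p) :=
          Finset.sum_le_sum fun p hp => by
            rw [mul_one_div]
            exact hg p (hRQ p hp)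
      _ = k * ∑ p ∈ R, (1 : ℝ) / p := by rw [Finset.mul_sum]
      _ ≤ k * ∑ p ∈ blockSet (2 * k + 2) z j, (1 : ℝ) / p := by
          refine mul_le_mul_of_nonneg_left ?_ (Nat.cast_nonneg _)
          exact sum_le_sum_of_subset_of_nonneg hsub (fun p _ _ => by positivity)
      _ ≤ k * 6 := mul_le_mul_of_nonneg_left (block_sum_inv _ _ _) (Nat.cast_nonneg _)
      _ = 6 * k := by ring
  have h1 := rankinE (f := g) (Q := R) (fun p _ => hg0 p) (bj k j + 1) (l := 2) (by norm_num)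
  have h2 : ∏ p ∈ R, (1 + 2 * g p) ≤ Real.exp (∑ p ∈ R, 2 * g p) :=
    prod_one_add_le fun p _ => by
      have := hg0 p
      linarith
  rw [← Finset.mul_sum] at h2
  have h3 : Real.exp (2 * ∑ p ∈ R, g p) ≤ Real.exp (12 * k) :=
    Real.exp_le_exp.mpr (by linarith)
  have h4 : Real.exp (-(12 * k)) ≤ ∏ p ∈ R, (1 - g p) :=
    (Real.exp_le_exp.mpr (by linarith)).trans (prod_one_sub_ge (fun p _ => hg0 p) hg1)
  have h5 : (0 : ℝ) < 2 ^ (bj k j + 1) := by positivity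
  have h6 : poly (cE (bj k j + 1)) g R ≤ Real.exp (12 * k) / 2 ^ (bj k j + 1) := by
    rw [le_div_iff₀ h5]
    linarith
  refine h6.trans ?_
  unfold epsj
  have h7 : Real.exp (12 * k) = Real.exp (24 * k) * Real.exp (-(12 * k)) := by
    rw [← Real.exp_add]
    congr 1
    ring
  rw [h7]
  have h8 : 0 ≤ Real.exp (24 * k) / 2 ^ (bj k j + 1) := by positivity
  calc Real.exp (24 * k) * Real.exp (-(12 * k)) / 2 ^ (bj k j + 1)
      = Real.exp (24 * k) / 2 ^ (bj k j + 1) * Real.exp (-(12 * k)) := by ring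
    _ ≤ Real.exp (24 * k) / 2 ^ (bj k j + 1) * ∏ p ∈ R, (1 - g p) :=
        mul_le_mul_of_nonneg_left h4 h8

/-- The level. -/
theorem bh2_level (k z : ℕ) (hz : 2 ≤ z) (Q : Finset ℕ)
    (hQ : ∀ q ∈ Q, q.Prime ∧ 2 * k + 2 < q ∧ q ≤ z) (E : Finset ℕ) (hE : E ⊆ Q)
    (hc : ∀ j ∈ range (z + 1), (E ∩ Q.filter (fun q => blk z q = j)).card ≤ bj k j + 1) :
    ∏ q ∈ E, q ≤ z ^ (96 * k + 10) := by
  have hz0 : (0 : ℝ) < z := by
    have : 0 < z := by omega
    exact_mod_cast this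
  have hz1 : (1 : ℝ) ≤ z := by
    have : 1 ≤ z := by omega
    exact_mod_cast this
  have hlog : 0 ≤ Real.log z := Real.log_nonneg hz1
  have hEf : ∀ j, E ∩ Q.filter (fun q => blk z q = j) = E.filter (fun q => blk z q = j) := by
    intro j
    ext q
    rw [mem_inter, mem_filter, mem_filter]
    constructor
    · rintro ⟨h1, -, h2⟩
      exact ⟨h1, h2⟩
    · rintro ⟨h1, h2⟩
      exact ⟨h1, hE h1, h2⟩
  have h1 : ∏ q ∈ E, (q : ℝ) = ∏ j ∈ range (z + 1), ∏ q ∈ E.filter (fun q => blk z q = j), (q : ℝ) := by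
    symm
    apply Finset.prod_fiberwise_of_maps_to
    intro p _
    exact Finset.mem_range.mpr (Nat.lt_succ_of_le (blk_le z p))
  have h2 : ∀ j ∈ range (z + 1), ∏ q ∈ E.filter (fun q => blk z q = j), (q : ℝ) ≤
      Real.exp (((48 * k + 3 : ℝ) + 2 * j) / 2 ^ j * Real.log z) := by
    intro j hj
    have h3 : ∀ q ∈ E.filter (fun q => blk z q = j), (q : ℝ) ≤ Real.exp (Real.log z / 2 ^ j) := by
      intro q hq
      rw [mem_filter] at hq
      have hqq := hQ q (hE hq.1)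
      have h6 := (blk_spec hqq.1 hqq.2.2).1
      rw [hq.2] at h6
      have hq0 : (0 : ℝ) < q := by exact_mod_cast hqq.1.pos
      have h7 : Real.log ((q : ℝ) ^ (2 ^ j)) ≤ Real.log z := by
        apply Real.log_le_log (by positivity)
        exact_mod_cast h6
      rw [Real.log_pow] at h7
      push_cast at h7
      rw [← Real.log_le_iff_le_exp hq0, le_div_iff₀ (by positivity)]
      linarith
    have h4 : ∏ q ∈ E.filter (fun q => blk z q = j), (q : ℝ) ≤
        Real.exp (Real.log z / 2 ^ j) ^ (E.filter (fun q => blk z q = j)).card := by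
      rw [← prod_const]
      exact prod_le_prod (fun q _ => Nat.cast_nonneg _) h3
    refine h4.trans ?_
    have h5 := hc j hj
    rw [hEf j] at h5
    have h6 : (1 : ℝ) ≤ Real.exp (Real.log z / 2 ^ j) := Real.one_le_exp (by positivity)
    refine (pow_le_pow_right₀ h6 h5).trans (le_of_eq ?_)
    rw [← Real.exp_nat_mul]
    congr 1
    unfold bj
    push_cast
    ring
  have h3 : ∏ q ∈ E, (q : ℝ) ≤ (z : ℝ) ^ (96 * k + 10) := by
    rw [h1]
    refine (prod_le_prod (fun j _ => prod_nonneg (fun q _ => Nat.cast_nonneg _)) h2).trans ?_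
    rw [← Real.exp_sum, ← Finset.sum_mul]
    have h4 := sum_aux (48 * k + 3 : ℝ) (by positivity) (z + 1)
    have h5 : (∑ j ∈ range (z + 1), ((48 * k + 3 : ℝ) + 2 * j) / 2 ^ j) * Real.log z ≤
        ((96 * k + 10 : ℕ) : ℝ) * Real.log z := by
      refine mul_le_mul_of_nonneg_right (h4.trans (le_of_eq ?_)) hlog
      push_cast
      ring
    refine (Real.exp_le_exp.2 h5).trans (le_of_eq ?_)
    rw [Real.exp_nat_mul, Real.exp_log hz0]
  have h4 : ((∏ q ∈ E, q : ℕ) : ℝ) ≤ ((z ^ (96 * k + 10) : ℕ) : ℝ) := by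
    rw [Nat.cast_prod, Nat.cast_pow]
    exact h3
  exact Nat.cast_le.1 h4

open Classical in
theorem bh2_rem (k z : ℕ) (hz : 2 ≤ z) (Q : Finset ℕ)
    (hQ : ∀ q ∈ Q, q.Prime ∧ 2 * k + 2 < q ∧ q ≤ z) (g : ℕ → ℝ)
    {ι : Type} (S : Finset ι) (wt : ι → ℝ)
    (ev : ℕ → ι → Prop) (X : ℝ) (Rm : ℝ)
    (hRm : ∑ d ∈ (Icc 1 (z ^ (96 * k + 10))).filter
        (fun d => Squarefree d ∧ ∀ q ∈ d.primeFactors, q ∈ Q),
      |∑ i ∈ S.filter (fun i => ∀ q ∈ d.primeFactors, ev q i), wt i -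
        X * ∏ q ∈ d.primeFactors, g q| ≤ Rm) (l : Finset ℕ → ℝ) (hl : ∀ E, |l E| ≤ 1)
    (hc : ∀ E, l E ≠ 0 → ∀ j ∈ range (z + 1),
      (E ∩ Q.filter (fun q => blk z q = j)).card ≤ bj k j + 1) :
    |∑ E ∈ Q.powerset, l E * (∑ i ∈ S.filter (fun i => ∀ q ∈ E, ev q i), wt i) -
      X * ∑ E ∈ Q.powerset, l E * ∏ q ∈ E, g q| ≤ Rm := by
  have hP : ∀ E ⊆ Q, (∏ q ∈ E, q).primeFactors = E := fun E hE =>
    Nat.primeFactors_prod (fun p hp => (hQ p (hE hp)).1)
  rw [mul_sum, ← sum_sub_distrib]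
  refine (abs_sum_le_sum_abs _ _).trans (le_trans ?_ hRm)
  have h1 : ∀ E ∈ Q.powerset, |l E * (∑ i ∈ S.filter (fun i => ∀ q ∈ E, ev q i), wt i) -
      X * (l E * ∏ q ∈ E, g q)| ≤ if l E ≠ 0 then
        |∑ i ∈ S.filter (fun i => ∀ q ∈ E, ev q i), wt i - X * ∏ q ∈ E, g q| else 0 := by
    intro E _
    split_ifs with h
    · rw [show l E * (∑ i ∈ S.filter (fun i => ∀ q ∈ E, ev q i), wt i) - X * (l E * ∏ q ∈ E, g q) =
        l E * (∑ i ∈ S.filter (fun i => ∀ q ∈ E, ev q i), wt i - X * ∏ q ∈ E, g q) by ring, abs_mul]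
      exact mul_le_of_le_one_left (abs_nonneg _) (hl E)
    · rw [not_not] at h
      rw [h]
      simp
  refine (sum_le_sum h1).trans ?_
  rw [← sum_filter]
  have hinj : Set.InjOn (fun E : Finset ℕ => ∏ q ∈ E, q) (Q.powerset.filter (fun E => l E ≠ 0)) := by
    intro E hE E' hE' hh
    have a1 := hP E (mem_powerset.1 (mem_filter.1 (mem_coe.1 hE)).1)
    have a2 := hP E' (mem_powerset.1 (mem_filter.1 (mem_coe.1 hE')).1)
    rw [← a1, ← a2]
    exact congrArg Nat.primeFactors hh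
  have h2 : ∑ E ∈ Q.powerset.filter (fun E => l E ≠ 0),
      |∑ i ∈ S.filter (fun i => ∀ q ∈ E, ev q i), wt i - X * ∏ q ∈ E, g q| =
      ∑ d ∈ (Q.powerset.filter (fun E => l E ≠ 0)).image (fun E : Finset ℕ => ∏ q ∈ E, q),
        |∑ i ∈ S.filter (fun i => ∀ q ∈ d.primeFactors, ev q i), wt i -
          X * ∏ q ∈ d.primeFactors, g q| := by
    rw [sum_image hinj]
    refine sum_congr rfl (fun E hE => ?_)
    rw [hP E (mem_powerset.1 (mem_filter.1 hE).1)]
  rw [h2]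
  refine sum_le_sum_of_subset_of_nonneg ?_ (fun d _ _ => abs_nonneg _)
  intro d hd
  rw [mem_image] at hd
  obtain ⟨E, hE, rfl⟩ := hd
  rw [mem_filter, mem_powerset] at hE
  rw [mem_filter, mem_Icc]
  refine ⟨⟨?_, ?_⟩, ?_, ?_⟩
  · exact Nat.one_le_iff_ne_zero.2 (prod_ne_zero_iff.2 (fun q hq => (hQ q (hE.1 hq)).1.ne_zero))
  · exact bh2_level k z hz Q hQ E hE.1 (hc E hE.2)
  · refine Finset.squarefree_prod_of_pairwise_isCoprime ?_ ?_
    · intro p hp q hq hpq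
      exact Nat.coprime_iff_isRelPrime.1
        ((Nat.coprime_primes (hQ p (hE.1 (Finset.mem_coe.1 hp))).1
          (hQ q (hE.1 (Finset.mem_coe.1 hq))).1).2 hpq)
    · intro p hp
      exact (hQ p (hE.1 hp)).1.squarefree
  · rw [hP E hE.1]
    exact hE.1

open Classical in
theorem bh (k z : ℕ) (hz : 2 ≤ z) (hk : 1 ≤ k) (Q : Finset ℕ)
    (hQ : ∀ q ∈ Q, q.Prime ∧ 2 * k + 2 < q ∧ q ≤ z) (g : ℕ → ℝ) (hg0 : ∀ q, 0 ≤ g q)
    (hg : ∀ q ∈ Q, g q ≤ k / q) {ι : Type} (S : Finset ι) (wt : ι → ℝ) (hw : ∀ i ∈ S, 0 ≤ wt i)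
    (ev : ℕ → ι → Prop) (X : ℝ) (hX : 0 ≤ X) (Rm : ℝ)
    (hRm : ∑ d ∈ (Icc 1 (z ^ (96 * k + 10))).filter
        (fun d => Squarefree d ∧ ∀ q ∈ d.primeFactors, q ∈ Q),
      |∑ i ∈ S.filter (fun i => ∀ q ∈ d.primeFactors, ev q i), wt i -
        X * ∏ q ∈ d.primeFactors, g q| ≤ Rm) :
    X / 2 * ∏ q ∈ Q, (1 - g q) - Rm ≤ ∑ i ∈ S.filter (fun i => ∀ q ∈ Q, ¬ ev q i), wt i ∧
    ∑ i ∈ S.filter (fun i => ∀ q ∈ Q, ¬ ev q i), wt i ≤ 2 * X * ∏ q ∈ Q, (1 - g q) + Rm := by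
  have _ := hk
  have hbU : (range (z + 1)).biUnion (fun j => Q.filter (fun q => blk z q = j)) = Q := by
    ext q
    rw [mem_biUnion]
    constructor
    · rintro ⟨j, _, h⟩
      exact (mem_filter.1 h).1
    · intro h
      exact ⟨blk z q, Finset.mem_range.mpr (Nat.lt_succ_of_le (blk_le z q)), mem_filter.2 ⟨h, rfl⟩⟩
  have hg1 : ∀ q ∈ Q, g q ≤ 1 := by
    intro p hp
    have h1 := hg p hp
    have h2 := (hQ p hp).2.1
    refine h1.trans ?_
    have hp0 : (0 : ℝ) < p := by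
      have : 0 < p := by omega
      exact_mod_cast this
    rw [div_le_iff₀ hp0]
    have h3 : (2 * k + 2 : ℝ) < p := by exact_mod_cast h2
    linarith [Nat.cast_nonneg (α := ℝ) k]
  obtain ⟨lp, lm, hlp, hlm, hlev, hpt, hm1, hm2⟩ := bh_weights
    (fun j => Q.filter (fun q => blk z q = j)) (range (z + 1)) (bj k) (fun j _ => bj_even k j)
    (fun i _ j _ hij => by
      rw [Finset.disjoint_left]
      intro p hp hp'
      exact hij ((mem_filter.mp hp).2.symm.trans (mem_filter.mp hp').2))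
    g (fun p _ => hg0 p) (fun p hp => hg1 p (by rwa [hbU] at hp)) (epsj k)
    (fun j _ => epsj_nonneg k j) (fun j _ => bh2_blockE k z Q hQ g hg0 hg j) (sum_epsj k (z + 1))
  rw [hbU] at hm1 hm2
  have hpt' : ∀ i : ι, ∑ E ∈ Q.powerset, lm E * ∏ p ∈ E, (if ev p i then (1 : ℝ) else 0) ≤
      (if ∀ q ∈ Q, ¬ ev q i then (1 : ℝ) else 0) ∧ (if ∀ q ∈ Q, ¬ ev q i then (1 : ℝ) else 0) ≤
      ∑ E ∈ Q.powerset, lp E * ∏ p ∈ E, (if ev p i then (1 : ℝ) else 0) := by
    intro i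
    have h1 := hpt (fun p => if ev p i then (1 : ℝ) else 0) (fun p => by split_ifs <;> norm_num)
      (fun p => by split_ifs <;> norm_num)
    rw [hbU] at h1
    have h2 : ∏ p ∈ Q, (1 - (if ev p i then (1 : ℝ) else 0)) =
        (if ∀ q ∈ Q, ¬ ev q i then (1 : ℝ) else 0) := by
      split_ifs with h
      · apply prod_eq_one
        intro p hp
        rw [if_neg (h p hp)]
        norm_num
      · push Not at h
        obtain ⟨q, hq, he⟩ := h
        refine prod_eq_zero hq ?_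
        rw [if_pos he]
        norm_num
    rw [h2] at h1
    exact h1
  have hprod : ∀ (i : ι) (E : Finset ℕ), ∏ p ∈ E, (if ev p i then (1 : ℝ) else 0) =
      if ∀ q ∈ E, ev q i then (1 : ℝ) else 0 := by
    intro i E
    split_ifs with h
    · exact prod_eq_one (fun p hp => if_pos (h p hp))
    · push Not at h
      obtain ⟨q, hq, he⟩ := h
      exact prod_eq_zero hq (if_neg he)
  have hswap : ∀ l : Finset ℕ → ℝ, ∑ i ∈ S, wt i * ∑ E ∈ Q.powerset, l E *
      ∏ p ∈ E, (if ev p i then (1 : ℝ) else 0) =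
      ∑ E ∈ Q.powerset, l E * (∑ i ∈ S.filter (fun i => ∀ q ∈ E, ev q i), wt i) := by
    intro l
    simp_rw [mul_sum]
    rw [sum_comm]
    refine sum_congr rfl (fun E _ => ?_)
    rw [sum_filter]
    refine sum_congr rfl (fun i _ => ?_)
    rw [hprod i E]
    split_ifs <;> ring
  have hlhs : ∑ i ∈ S.filter (fun i => ∀ q ∈ Q, ¬ ev q i), wt i =
      ∑ i ∈ S, wt i * (if ∀ q ∈ Q, ¬ ev q i then (1 : ℝ) else 0) := by
    rw [sum_filter]
    refine sum_congr rfl (fun i _ => ?_)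
    split_ifs <;> ring
  have hr1 := bh2_rem k z hz Q hQ g S wt ev X Rm hRm lp hlp (fun E hE => hlev E (Or.inl hE))
  have hr2 := bh2_rem k z hz Q hQ g S wt ev X Rm hRm lm hlm (fun E hE => hlev E (Or.inr hE))
  rw [abs_le] at hr1 hr2
  rw [hlhs]
  constructor
  · have h1 : ∑ i ∈ S, wt i * ∑ E ∈ Q.powerset, lm E * ∏ p ∈ E, (if ev p i then (1 : ℝ) else 0) ≤
        ∑ i ∈ S, wt i * (if ∀ q ∈ Q, ¬ ev q i then (1 : ℝ) else 0) :=
      sum_le_sum (fun i hi => mul_le_mul_of_nonneg_left (hpt' i).1 (hw i hi))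
    rw [hswap lm] at h1
    have h2 := mul_le_mul_of_nonneg_left hm1 hX
    linarith [hr2.1]
  · have h1 : ∑ i ∈ S, wt i * (if ∀ q ∈ Q, ¬ ev q i then (1 : ℝ) else 0) ≤
        ∑ i ∈ S, wt i * ∑ E ∈ Q.powerset, lp E * ∏ p ∈ E, (if ev p i then (1 : ℝ) else 0) :=
      sum_le_sum (fun i hi => mul_le_mul_of_nonneg_left (hpt' i).2 (hw i hi))
    rw [hswap lp] at h1
    have h2 := mul_le_mul_of_nonneg_left hm2 hX
    linarith [hr1.2]

end Pool.Agent.Lib.H57C
end

-- from Lib.H92G.W2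
section

/-!
# Chunk W2: upper bounds for the elements without prime factor in `P`

Compare `H15P/WIN3` (`win_rough`).
-/

open Finset

namespace Pool.Agent.Lib.H92G

open Pool.Agent.Lib.H15P

/-- Level of the majorant. -/
theorem w2_lev {w : WG} {A B : Finset ℕ} {M : ℕ} (h : w.Sys A B M)
    (Zs : Finset {b // b ∈ B}) (wm : ℝ) (hwm : 0 < wm)
    (hw : ∀ l ∈ adm (univ \ Zs) w.m, |wZ (w.Df A B) w.m Zs l| ≤ wm) :
    Lev (∏ p ∈ w.P, p) (fun t =>
      LW (w.Df A B) (adm (univ \ Zs) w.m) (wZ (w.Df A B) w.m Zs)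
        (fun j : {b // b ∈ B} => hit w.P (j.1 + M * t)) ^ 2 *
          ∏ j ∈ Zs, w.lm (hit w.P (j.1 + M * t)))
      (wm ^ 2 * w.lv ^ 2 * w.lv ^ Zs.card) := by
  have h1 : Lev (∏ p ∈ w.P, p) (fun t => ∏ j ∈ Zs, w.lm (hit w.P (j.1 + M * t)))
      (w.lv ^ Zs.card) := by
    have h2 := Lev.prod Zs (fun (j : {b // b ∈ B}) (t : ℕ) => w.lm (hit w.P (j.1 + M * t)))
      (fun _ => w.lv) (w1_Qpos w) (fun j _ => w.levlm M j.1)
    rw [Finset.prod_const] at h2
    exact h2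
  have h3 := w.levL {b // b ∈ B} (fun j => decide (j.1 ∈ A)) (univ \ Zs) M (fun j => j.1)
    (fun l => if l ∈ adm (univ \ Zs) w.m then wZ (w.Df A B) w.m Zs l / wm else 0)
    (by rw [Fintype.card_coe]; exact h.cardB) (by
      intro l
      split_ifs with hl
      · rw [abs_div, abs_of_pos hwm, div_le_one hwm]
        exact hw l hl
      · rw [abs_zero]
        exact zero_le_one)
  have h4 := Lev.const_mul h3 wm
  rw [abs_of_pos hwm] at h4
  have h5 : (fun t : ℕ => wm * LW (fun j : {b // b ∈ B} => w.DJ (decide (j.1 ∈ A)))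
      (adm (univ \ Zs) w.m)
      (fun l => if l ∈ adm (univ \ Zs) w.m then wZ (w.Df A B) w.m Zs l / wm else 0)
      (fun j => hit w.P (j.1 + M * t))) = fun t : ℕ =>
      LW (w.Df A B) (adm (univ \ Zs) w.m) (wZ (w.Df A B) w.m Zs)
        (fun j : {b // b ∈ B} => hit w.P (j.1 + M * t)) := by
    funext t
    unfold LW
    rw [Finset.mul_sum]
    refine Finset.sum_congr rfl fun l hl => ?_
    beta_reduce
    rw [if_pos hl, ← mul_assoc, mul_div_cancel₀ _ hwm.ne']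
    rfl
  rw [h5] at h4
  have h6 := Lev.mul (w1_Qpos w) (Lev.pow (w1_Qpos w) h4 2) h1
  rw [mul_pow] at h6
  exact h6

/-- General bound for the configurations where no prime divides the forms of `Zs`. -/
theorem w2_gen {w : WG} {A B : Finset ℕ} {M : ℕ} (h : w.Sys A B M) (Y : ℕ)
    (Zs : Finset {b // b ∈ B}) (wm : ℝ) (hwm : 0 < wm)
    (hw : ∀ l ∈ adm (univ \ Zs) w.m, |wZ (w.Df A B) w.m Zs l| ≤ wm) (E : ℝ)
    (hE : EX (qq w.P w.K) (fun S : {b // b ∈ B} → Finset {p // p ∈ w.P} =>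
      LW (w.Df A B) (adm (univ \ Zs) w.m) (wZ (w.Df A B) w.m Zs) S ^ 2 *
        ∏ j ∈ Zs, w.lm (S j)) ≤ E * ZG (qq w.P w.K) (w.Df A B) univ) :
    ∑ t ∈ range Y, w.nu A B M t *
        (if ∀ j ∈ Zs, hit w.P (j.1 + M * t) = ∅ then 1 else 0) ≤
      Y * ((1 + w.e) * E) + 2 * (wm ^ 2 * w.lv ^ 2 * w.lv ^ Zs.card) := by
  set Z := ZG (qq w.P w.K) (w.Df A B) univ with hZ
  have hZ1 : 1 ≤ Z := w1_one_le_ZG w A B
  have hZpos : 0 < Z := by linarith
  set F : ({b // b ∈ B} → Finset {p // p ∈ w.P}) → ℝ := fun S =>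
    LW (w.Df A B) (adm (univ \ Zs) w.m) (wZ (w.Df A B) w.m Zs) S ^ 2 *
        ∏ j ∈ Zs, w.lm (S j) with hF
  have hF0 : ∀ S, 0 ≤ F S := fun S =>
    mul_nonneg (sq_nonneg _) (Finset.prod_nonneg fun j _ => w.lm0 _)
  have hterm : ∀ t, w.nu A B M t * (if ∀ j ∈ Zs, hit w.P (j.1 + M * t) = ∅ then 1 else 0) ≤
      F (fun j => hit w.P (j.1 + M * t)) / Z := by
    intro t
    split_ifs with hh
    · rw [mul_one]
      unfold WG.nu
      rw [← hZ]
      apply div_le_div_of_nonneg_right _ hZpos.le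
      rw [LG_restrict (w.Df A B) w.m univ Zs (Finset.subset_univ _)
        (fun j => hit w.P (j.1 + M * t)) hh]
      show _ ≤ LW (w.Df A B) (adm (univ \ Zs) w.m) (wZ (w.Df A B) w.m Zs)
        (fun j => hit w.P (j.1 + M * t)) ^ 2 * ∏ j ∈ Zs, w.lm (hit w.P (j.1 + M * t))
      rw [Finset.prod_congr rfl (fun j hj => by rw [hh j hj, w.lm1]), Finset.prod_const_one,
        mul_one]
    · rw [mul_zero]
      exact div_nonneg (hF0 _) hZpos.le
  have havg := h.avg_le F hF0 _ (w2_lev h Zs wm hwm hw) Y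
  refine (Finset.sum_le_sum fun t _ => hterm t).trans ?_
  rw [← Finset.sum_div, div_le_iff₀ hZpos]
  refine havg.trans ?_
  have he0 := w.e0
  have h1 := mul_le_mul_of_nonneg_left hE (by linarith : 0 ≤ 1 + w.e)
  have h2 := mul_le_mul_of_nonneg_left h1 (Nat.cast_nonneg Y : (0 : ℝ) ≤ Y)
  have h3 : 0 ≤ 2 * (wm ^ 2 * w.lv ^ 2 * w.lv ^ Zs.card) := by
    have := zero_le_one.trans w.lv1
    positivity
  have h4 := mul_le_mul_of_nonneg_left hZ1 h3
  nlinarith


/-- Allowed forms. -/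
theorem w2_allowed {w : WG} {A B : Finset ℕ} {M : ℕ} (h : w.Sys A B M) (Y : ℕ)
    (Zs : Finset {b // b ∈ B}) (hZs : ∀ j ∈ Zs, j.1 ∈ A) :
    ∑ t ∈ range Y, w.nu A B M t *
        (if ∀ j ∈ Zs, hit w.P (j.1 + M * t) = ∅ then 1 else 0) ≤
      Y * ((1 + w.e) * ((w.g ^ Zs.card) ^ 2 * w.el ^ Zs.card)) +
        2 * ((w.g ^ Zs.card) ^ 2 * w.lv ^ 2 * w.lv ^ Zs.card) := by
  have hg0 : 0 < w.g := zero_lt_one.trans_le w.one_le_g
  have hX0 : 0 ≤ ex (qq w.P w.K) w.lm := ex_nonneg _ w.good.q0 w.good.q1 _ w.lm0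
  have hw : ∀ l, |wZ (w.Df A B) w.m Zs l| ≤ w.g ^ Zs.card := by
    intro l
    obtain ⟨h1, h2⟩ := wZ_bounds (w.Df A B) w.m Zs l
      (fun j hj => (w.sum_allowed A B j (hZs j hj)).1)
    rw [abs_of_nonneg h1]
    refine h2.trans (le_of_eq ?_)
    rw [Finset.prod_congr rfl (fun j hj => (w.sum_allowed A B j (hZs j hj)).2),
      Finset.prod_const]
  refine w2_gen h Y Zs (w.g ^ Zs.card) (pow_pos hg0 _) (fun l _ => hw l) _ ?_
  refine (EX_maj_le (qq w.P w.K) (w.Df A B) w.h (w.good_Df A B) w.m univ Zs (w.g ^ Zs.card) hw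
    w.lm w.lm0).trans ?_
  have h1 := w1_one_le_ZG w A B
  have h2 : ex (qq w.P w.K) w.lm ^ Zs.card ≤ w.el ^ Zs.card :=
    pow_le_pow_left₀ hX0 w.lmel _
  have h3 : 0 ≤ (w.g ^ Zs.card) ^ 2 * ZG (qq w.P w.K) (w.Df A B) univ :=
    mul_nonneg (sq_nonneg _) (by linarith)
  have h4 := mul_le_mul_of_nonneg_left h2 h3
  nlinarith


/-- Two allowed forms: `Z = {b, b'}`, `wZ ≤ g^2`, `EX_maj_le`: mean value at most
`g^4 ZG el^2`; level `g^4 lv^2 lv^2`. -/
theorem WG.Sys.two_le {w : WG} {A B : Finset ℕ} {M : ℕ} (h : w.Sys A B M) (Y : ℕ)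
    (hY : w.Long Y) (b b' : ℕ) (hb : b ∈ A) (hb' : b' ∈ A) (hne : b ≠ b') :
    ∑ t ∈ range Y, w.nu A B M t *
        (if hit w.P (b + M * t) = ∅ ∧ hit w.P (b' + M * t) = ∅ then 1 else 0) ≤
      2 * w.g ^ 4 * w.el ^ 2 * Y := by
  have h1 := w2_allowed h Y {(⟨b, h.AB hb⟩ : {b // b ∈ B}), ⟨b', h.AB hb'⟩} (by
    intro j hj
    rcases Finset.mem_insert.1 hj with hj | hj
    · rw [hj]
      exact hb
    · rw [Finset.mem_singleton.1 hj]
      exact hb')
  have hc : ({(⟨b, h.AB hb⟩ : {b // b ∈ B}), ⟨b', h.AB hb'⟩} : Finset {b // b ∈ B}).card = 2 := by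
    apply Finset.card_pair
    intro hh
    exact hne (congrArg Subtype.val hh)
  rw [hc] at h1
  simp only [Finset.mem_insert, Finset.mem_singleton, forall_eq_or_imp, forall_eq] at h1
  refine h1.trans ?_
  have herr := (w1_err w Y hY 4 4 le_rfl le_rfl).2
  have hg := w.one_le_g
  have hg4 : 1 ≤ w.g ^ 4 := one_le_pow₀ hg
  have he0 := w.e0
  have he1 := w.e1
  have hYr : (0 : ℝ) ≤ Y := Nat.cast_nonneg Y
  have h0 : 0 ≤ w.el ^ 2 * Y := mul_nonneg (sq_nonneg _) hYr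
  have h2 : w.el ^ 2 * Y ≤ w.g ^ 4 * (w.el ^ 2 * Y) := le_mul_of_one_le_left h0 hg4
  have h3 : w.e * (w.g ^ 4 * (w.el ^ 2 * Y)) ≤ 1 / 10 * (w.g ^ 4 * (w.el ^ 2 * Y)) :=
    mul_le_mul_of_nonneg_right he1 (by positivity)
  have h4 : w.e * (w.el ^ 2 * Y) ≤ 1 / 10 * (w.el ^ 2 * Y) := mul_le_mul_of_nonneg_right he1 h0
  have h5 : (w.g ^ 2) ^ 2 * w.lv ^ 2 * w.lv ^ 2 = w.g ^ 4 * w.lv ^ 4 := by ring
  rw [h5]
  nlinarith

end Pool.Agent.Lib.H92G
end

-- from Lib.H57C.VF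
section

/-!
# VF: the theorems of Bombieri and Vinogradov of project H59C, the residue class may depend on the modulus

The proofs of `bv` and `bv_bil` (`H59C/BV2.lean`, `H59C/BV3.lean`, helper59 and provers) with `a d` instead of `a`.
-/

open Finset

namespace Pool.Agent.Lib.H57C

open Pool.Agent.Lib.H59C
open Pool.Agent.Lib.H68T (PC p0 e)

open Classical in
theorem bvf (A : ℕ) : ∃ A' B n0 : ℕ, ∀ n : ℕ, n0 ≤ n → ∀ p1 : ℕ, SWp A' n p1 →
    ∀ (a : ℕ → ℕ) (y : ℕ), y ≤ 8 * n →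
    ∑ d ∈ (Icc 1 (DD n B)).filter (fun d => (a d).Coprime d ∧ ¬ p1 ∣ d),
      |thp y d (a d) - th y / (Nat.totient d : ℝ)| ≤ n / Real.log n ^ A := by
  obtain ⟨C₁, hC₁, h1⟩ := Pool.Agent.Lib.H59C.sum_inv_totient
  obtain ⟨C₂, hC₂, h2⟩ := prog_le
  obtain ⟨C₃, hC₃, h3⟩ := psi_sum
  obtain ⟨K, hK⟩ : ∃ K : ℝ, K = 10240 * (C₁ * C₃ + C₁ + C₂ + 1) := ⟨_, rfl⟩
  have hK1 : 10240 ≤ K := by
    have : 0 < C₁ * C₃ := by positivity
    rw [hK]
    nlinarith
  obtain ⟨n0, hn0⟩ := bv2_large K (A + 12)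
  refine ⟨2 * A + 20, A + 12, max n0 8, fun n hn p1 hSW a y hy => ?_⟩
  obtain ⟨hL, hLs⟩ := hn0 n ((le_max_left _ _).trans hn)
  have hn8 : 8 ≤ n := (le_max_right _ _).trans hn
  have hnR : (8 : ℝ) ≤ n := by exact_mod_cast hn8
  have hn0' : (0 : ℝ) < n := by linarith
  obtain ⟨L, hLdef⟩ : ∃ L : ℝ, L = Real.log n := ⟨_, rfl⟩
  obtain ⟨s, hsdef⟩ : ∃ s : ℝ, s = (n : ℝ) ^ (1 / 20 : ℝ) := ⟨_, rfl⟩
  rw [← hLdef] at hL hLs ⊢
  rw [← hsdef] at hLs
  have hL1 : 1 ≤ L := by linarith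
  have hL0 : 0 < L := by linarith
  have hs20 : s ^ 20 = n := by
    rw [hsdef, ← Real.rpow_natCast, ← Real.rpow_mul hn0'.le]
    norm_num
  have hLpow : ∀ j : ℕ, j ≤ A + 12 → L ^ j ≤ s := by
    intro j hj
    calc L ^ j ≤ L ^ (A + 12) := pow_le_pow_right₀ hL1 hj
      _ = 1 * L ^ (A + 12) := (one_mul _).symm
      _ ≤ K * L ^ (A + 12) := mul_le_mul_of_nonneg_right (by linarith) (by positivity)
      _ ≤ s := hLs
  have hs1 : 1 ≤ s := by
    have := hLpow 0 (by omega)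
    simpa using this
  have hs0 : 0 < s := by linarith
  have hsqrt : Real.sqrt n = s ^ 10 := by
    rw [← hs20, show (20 : ℕ) = 10 * 2 by norm_num, pow_mul]
    exact Real.sqrt_sq (by positivity)
  obtain ⟨hnum1, hnum2⟩ := bv2_num A hC₁ hC₂ hC₃ hK hL hLs
  rw [hs20] at hnum1 hnum2
  -- the level
  obtain ⟨D, hD⟩ : ∃ D : ℕ, D = DD n (A + 12) := ⟨_, rfl⟩
  rw [← hD]
  have hDle : (D : ℝ) ≤ s ^ 10 / L ^ (A + 12) := by
    rw [hD, DD, ← hLdef, hsqrt]
    exact Nat.floor_le (by positivity)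
  have hDs : (D : ℝ) ≤ s ^ 10 := by
    refine hDle.trans ?_
    rw [div_le_iff₀ (by positivity)]
    have : 1 ≤ L ^ (A + 12) := one_le_pow₀ hL1
    have h5 : 0 < s ^ 10 := by positivity
    nlinarith
  have hD2 : 2 ≤ D := by
    rw [hD, DD, ← hLdef, hsqrt]
    apply Nat.le_floor
    push_cast
    rw [le_div_iff₀ (by positivity)]
    have e1 : 2 * L ^ (A + 12) ≤ K * L ^ (A + 12) :=
      mul_le_mul_of_nonneg_right (by linarith) (by positivity)
    calc 2 * L ^ (A + 12) ≤ s := e1.trans hLs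
      _ = s ^ 1 := (pow_one s).symm
      _ ≤ s ^ 10 := pow_le_pow_right₀ hs1 (by norm_num)
  have hDR : (2 : ℝ) ≤ D := by exact_mod_cast hD2
  have hlogD : Real.log D ≤ L := by
    rw [hLdef]
    apply Real.log_le_log (by linarith)
    refine hDs.trans ?_
    rw [← hs20]
    exact pow_le_pow_right₀ hs1 (by norm_num)
  have hlogD0 : 0 ≤ Real.log D := Real.log_nonneg (by linarith)
  have hphi : ∑ k ∈ Icc 1 D, 1 / (Nat.totient k : ℝ) ≤ C₁ * L :=
    (h1 D hD2).trans (mul_le_mul_of_nonneg_left hlogD hC₁.le)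
  have hsub : ∑ d ∈ (Icc 1 D).filter (fun d => (a d).Coprime d ∧ ¬ p1 ∣ d), 1 / (Nat.totient d : ℝ) ≤
      C₁ * L := by
    refine le_trans ?_ hphi
    exact sum_le_sum_of_subset_of_nonneg (filter_subset _ _) fun _ _ _ => by positivity
  have hcard : (((Icc 1 D).filter (fun d => (a d).Coprime d ∧ ¬ p1 ∣ d)).card : ℝ) ≤ D := by
    have : ((Icc 1 D).filter (fun d => (a d).Coprime d ∧ ¬ p1 ∣ d)).card ≤ D := by
      refine (card_filter_le _ _).trans ?_
      rw [Nat.card_Icc]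
      omega
    exact_mod_cast this
  have hyR : (y : ℝ) ≤ 8 * n := by exact_mod_cast hy
  by_cases hcase : (y : ℝ) ≤ n / L ^ (A + 4)
  · -- small y
    have hyn : (y : ℝ) ≤ n := by
      refine hcase.trans ?_
      rw [div_le_iff₀ (by positivity)]
      have : 1 ≤ L ^ (A + 4) := one_le_pow₀ hL1
      nlinarith
    have hlogy : Real.log y ≤ L := by
      rcases Nat.eq_zero_or_pos y with h0 | h0
      · rw [h0]
        simp [hL0.le]
      · rw [hLdef]
        exact Real.log_le_log (by exact_mod_cast h0) hyn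
    have hly0 : 0 ≤ Real.log y := Real.log_natCast_nonneg y
    have e1 : ∑ d ∈ (Icc 1 D).filter (fun d => (a d).Coprime d ∧ ¬ p1 ∣ d),
        |thp y d (a d) - th y / (Nat.totient d : ℝ)| ≤
        ∑ d ∈ (Icc 1 D).filter (fun d => (a d).Coprime d ∧ ¬ p1 ∣ d),
          (2 * (y * Real.log y) * (1 / (Nat.totient d : ℝ)) + Real.log y) := by
      apply sum_le_sum
      intro d hd
      exact bv2_triv y d (a d) (mem_Icc.1 (mem_filter.1 hd).1).1
    refine e1.trans ?_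
    rw [sum_add_distrib, ← mul_sum, sum_const, nsmul_eq_mul]
    have e2 : 2 * (y * Real.log y) * ∑ d ∈ (Icc 1 D).filter (fun d => (a d).Coprime d ∧ ¬ p1 ∣ d),
        1 / (Nat.totient d : ℝ) ≤ 2 * C₁ * (n / L ^ (A + 4)) * L ^ 2 := by
      calc 2 * (y * Real.log y) * ∑ d ∈ (Icc 1 D).filter (fun d => (a d).Coprime d ∧ ¬ p1 ∣ d),
          1 / (Nat.totient d : ℝ) ≤ 2 * (y * Real.log y) * (C₁ * L) :=
            mul_le_mul_of_nonneg_left hsub (by positivity)
        _ ≤ 2 * ((n / L ^ (A + 4)) * L) * (C₁ * L) := by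
            apply mul_le_mul_of_nonneg_right _ (by positivity)
            apply mul_le_mul_of_nonneg_left _ (by norm_num)
            exact mul_le_mul hcase hlogy hly0 (by positivity)
        _ = _ := by ring
    have e3 : (((Icc 1 D).filter (fun d => (a d).Coprime d ∧ ¬ p1 ∣ d)).card : ℝ) * Real.log y ≤
        s ^ 10 * L := mul_le_mul (hcard.trans hDs) hlogy hly0 (by positivity)
    linarith
  · -- large y
    push Not at hcase
    have hy19 : s ^ 19 < y := by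
      refine lt_of_le_of_lt ?_ hcase
      rw [le_div_iff₀ (by positivity), ← hs20]
      calc s ^ 19 * L ^ (A + 4) ≤ s ^ 19 * s :=
            mul_le_mul_of_nonneg_left (hLpow _ (by omega)) (by positivity)
        _ = s ^ 20 := by ring
    have hs2 : 2 ≤ s := by
      have : K * 1 ≤ K * L ^ (A + 12) :=
        mul_le_mul_of_nonneg_left (one_le_pow₀ hL1) (by linarith)
      linarith
    have hy2 : 2 ≤ y := by
      have : (2 : ℝ) ≤ y := by
        have e1 : s ^ 1 ≤ s ^ 19 := pow_le_pow_right₀ hs1 (by norm_num)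
        rw [pow_one] at e1
        linarith
      exact_mod_cast this
    have hyR0 : (0 : ℝ) < y := lt_trans (by positivity) hy19
    have hDy : D ≤ y := by
      have : (D : ℝ) ≤ y := by
        have e1 : s ^ 10 ≤ s ^ 19 := pow_le_pow_right₀ hs1 (by norm_num)
        linarith
      exact_mod_cast this
    have hDD : D ^ 2 ≤ y := by
      have e1 : (D : ℝ) ^ 2 ≤ n / L ^ (A + 4) := by
        calc (D : ℝ) ^ 2 ≤ (s ^ 10 / L ^ (A + 12)) ^ 2 :=
              pow_le_pow_left₀ (by positivity) hDle 2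
          _ = s ^ 20 / (L ^ (A + 12)) ^ 2 := by rw [div_pow, ← pow_mul]
          _ ≤ s ^ 20 / L ^ (A + 4) := by
              apply div_le_div_of_nonneg_left (by positivity) (by positivity)
              rw [← pow_mul]
              exact pow_le_pow_right₀ hL1 (by omega)
          _ = n / L ^ (A + 4) := by rw [hs20]
      have e2 : (D : ℝ) ^ 2 ≤ y := e1.trans hcase.le
      exact_mod_cast e2
    have hlogy : Real.log y ≤ 2 * L := by
      have e1 : Real.log y ≤ Real.log (8 * n) := Real.log_le_log hyR0 hyR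
      rw [Real.log_mul (by norm_num) hn0'.ne', ← hLdef] at e1
      have e2 : Real.log 8 ≤ 8 := (Real.log_le_sub_one_of_pos (by norm_num)).trans (by norm_num)
      linarith
    have hly0 : 0 ≤ Real.log y := Real.log_natCast_nonneg y
    -- the sum over the primitive characters
    obtain ⟨S, hS⟩ : ∃ S : ℝ, S = ∑ p ∈ (PC D).filter (fun p => p ≠ p0 ∧ ¬ p1 ∣ p.1),
      1 / (Nat.totient p.1 : ℝ) * ‖psi y p‖ := ⟨_, rfl⟩
    have hS0 : 0 ≤ S := by
      rw [hS]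
      exact sum_nonneg fun _ _ => by positivity
    have hsqy : Real.sqrt y ≤ 3 * s ^ 10 := by
      rw [Real.sqrt_le_left (by positivity)]
      refine hyR.trans ?_
      rw [← hs20]
      have e1 : (3 * s ^ 10) ^ 2 = 9 * s ^ 20 := by ring
      rw [e1]
      have : 0 < s ^ 20 := by positivity
      linarith
    have hmain : ∑ d ∈ (Icc 1 D).filter (fun d => (a d).Coprime d ∧ ¬ p1 ∣ d),
        |thp y d (a d) - th y / (Nat.totient d : ℝ)| ≤
        C₁ * L * S + D * (C₂ * Real.sqrt y * Real.log y ^ 2) := by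
      have e1 : ∑ d ∈ (Icc 1 D).filter (fun d => (a d).Coprime d ∧ ¬ p1 ∣ d),
          |thp y d (a d) - th y / (Nat.totient d : ℝ)| ≤
          ∑ d ∈ (Icc 1 D).filter (fun d => (a d).Coprime d ∧ ¬ p1 ∣ d),
          (1 / (Nat.totient d : ℝ) * ∑ p ∈ (PC d).filter (fun p => p ≠ p0 ∧ p.1 ∣ d),
            ‖psi y p‖ + C₂ * Real.sqrt y * Real.log y ^ 2) := by
        apply sum_le_sum
        intro d hd
        rw [mem_filter, mem_Icc] at hd
        exact h2 d (a d) y hd.1.1 (hd.1.2.trans hDy) hd.2.1 hy2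
      refine e1.trans ?_
      rw [sum_add_distrib, sum_const, nsmul_eq_mul]
      have e2 : ∑ d ∈ (Icc 1 D).filter (fun d => (a d).Coprime d ∧ ¬ p1 ∣ d),
          1 / (Nat.totient d : ℝ) * ∑ p ∈ (PC d).filter (fun p => p ≠ p0 ∧ p.1 ∣ d),
            ‖psi y p‖ ≤ C₁ * L * S := by
        have e3 := exchange D p1 (fun _ p => ‖psi y p‖) (fun _ _ => norm_nonneg _)
        have e4 : ∑ d ∈ (Icc 1 D).filter (fun d => (a d).Coprime d ∧ ¬ p1 ∣ d),
            1 / (Nat.totient d : ℝ) * ∑ p ∈ (PC d).filter (fun p => p ≠ p0 ∧ p.1 ∣ d),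
              ‖psi y p‖ ≤ ∑ d ∈ (Icc 1 D).filter (fun d => ¬ p1 ∣ d),
            1 / (Nat.totient d : ℝ) * ∑ p ∈ (PC d).filter (fun p => p ≠ p0 ∧ p.1 ∣ d),
              ‖psi y p‖ := by
          apply sum_le_sum_of_subset_of_nonneg
          · exact monotone_filter_right _ fun d _ hd => hd.2
          · intro d _ _
            exact mul_nonneg (by positivity) (sum_nonneg fun _ _ => norm_nonneg _)
        refine e4.trans (e3.trans ?_)
        rw [← sum_mul, ← hS]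
        exact mul_le_mul_of_nonneg_right hphi hS0
      have e5 : (((Icc 1 D).filter (fun d => (a d).Coprime d ∧ ¬ p1 ∣ d)).card : ℝ) *
          (C₂ * Real.sqrt y * Real.log y ^ 2) ≤ D * (C₂ * Real.sqrt y * Real.log y ^ 2) :=
        mul_le_mul_of_nonneg_right hcard (by positivity)
      linarith
    -- splitting of S
    obtain ⟨R0, hR0⟩ : ∃ R0 : ℕ, R0 = ⌊L ^ (A + 10)⌋₊ := ⟨_, rfl⟩
    have hLp1 : 1 ≤ L ^ (A + 10) := one_le_pow₀ hL1
    have hR0le : (R0 : ℝ) ≤ L ^ (A + 10) := by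
      rw [hR0]
      exact Nat.floor_le (by positivity)
    have hR01 : 1 ≤ R0 := by
      rw [hR0]
      exact Nat.le_floor (by simpa using hLp1)
    have hR0ge : L ^ (A + 10) / 2 ≤ R0 := by
      have e1 : L ^ (A + 10) < R0 + 1 := by
        rw [hR0]
        exact Nat.lt_floor_add_one _
      have e2 : (1 : ℝ) ≤ R0 := by exact_mod_cast hR01
      linarith
    have hsmall : ∑ p ∈ ((PC D).filter (fun p => p ≠ p0 ∧ ¬ p1 ∣ p.1)).filter
        (fun p => ¬ R0 < p.1), 1 / (Nat.totient p.1 : ℝ) * ‖psi y p‖ ≤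
        8 * n / L ^ (A + 10) := by
      have e1 : ∀ p ∈ ((PC D).filter (fun p => p ≠ p0 ∧ ¬ p1 ∣ p.1)).filter
          (fun p => ¬ R0 < p.1), 1 / (Nat.totient p.1 : ℝ) * ‖psi y p‖ ≤
          1 / (Nat.totient p.1 : ℝ) * (y / L ^ (2 * A + 20)) := by
        intro p hp
        rw [mem_filter, mem_filter, not_lt] at hp
        apply mul_le_mul_of_nonneg_left _ (by positivity)
        have e2 := H68T.mem_PC.1 hp.1.1
        have e3 : p ∈ PC ⌊Real.log n ^ (2 * A + 20)⌋₊ := by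
          refine H68T.mem_PC.2 ⟨e2.1, ?_, e2.2.2⟩
          rw [← hLdef]
          apply Nat.le_floor
          calc (p.1 : ℝ) ≤ R0 := by exact_mod_cast hp.2
            _ ≤ L ^ (A + 10) := hR0le
            _ ≤ L ^ (2 * A + 20) := pow_le_pow_right₀ hL1 (by omega)
        have e4 := hSW p e3 hp.1.2.1 hp.1.2.2 y ?_ hy
        · rwa [← hLdef] at e4
        · have e5 : (n : ℝ) ^ (1 / 10 : ℝ) = s ^ 2 := by
            rw [hsdef, ← Real.rpow_natCast, ← Real.rpow_mul hn0'.le]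
            norm_num
          rw [e5]
          have e6 : s ^ 2 ≤ s ^ 19 := pow_le_pow_right₀ hs1 (by norm_num)
          linarith
      refine (sum_le_sum e1).trans ?_
      rw [← sum_mul]
      have e2 : ∑ p ∈ ((PC D).filter (fun p => p ≠ p0 ∧ ¬ p1 ∣ p.1)).filter
          (fun p => ¬ R0 < p.1), 1 / (Nat.totient p.1 : ℝ) ≤ L ^ (A + 10) := by
        refine le_trans ?_ ((bv2_count R0).trans hR0le)
        apply sum_le_sum_of_subset_of_nonneg
        · intro p hp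
          rw [mem_filter, mem_filter, not_lt] at hp
          have e2 := H68T.mem_PC.1 hp.1.1
          exact H68T.mem_PC.2 ⟨e2.1, hp.2, e2.2.2⟩
        · intro _ _ _
          positivity
      calc (∑ p ∈ ((PC D).filter (fun p => p ≠ p0 ∧ ¬ p1 ∣ p.1)).filter
          (fun p => ¬ R0 < p.1), 1 / (Nat.totient p.1 : ℝ)) * (y / L ^ (2 * A + 20))
          ≤ L ^ (A + 10) * (8 * n / L ^ (2 * A + 20)) :=
            mul_le_mul e2 (div_le_div_of_nonneg_right hyR (by positivity)) (by positivity)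
              (by positivity)
        _ = 8 * n / L ^ (A + 10) := by
            rw [show 2 * A + 20 = (A + 10) + (A + 10) by ring, pow_add L (A + 10) (A + 10)]
            have h10 : L ^ (A + 10) ≠ 0 := by positivity
            rw [← mul_div_assoc, mul_comm (L ^ (A + 10)) (8 * (n : ℝ)),
              mul_div_mul_right _ _ h10]
    have hlarge : ∑ p ∈ ((PC D).filter (fun p => p ≠ p0 ∧ ¬ p1 ∣ p.1)).filter
        (fun p => R0 < p.1), 1 / (Nat.totient p.1 : ℝ) * ‖psi y p‖ ≤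
        C₃ * (2 * L) ^ 7 * (16 * n / L ^ (A + 10) + 8 * s ^ 19 + 3 * n / L ^ (A + 12)) := by
      have e1 := h3 R0 D y hR01 hDD hy2
      have e2 : ∑ p ∈ ((PC D).filter (fun p => p ≠ p0 ∧ ¬ p1 ∣ p.1)).filter
          (fun p => R0 < p.1), 1 / (Nat.totient p.1 : ℝ) * ‖psi y p‖ ≤
          ∑ p ∈ (PC D).filter (fun p => R0 < p.1), 1 / (Nat.totient p.1 : ℝ) * ‖psi y p‖ := by
        apply sum_le_sum_of_subset_of_nonneg
        · intro p hp
          rw [mem_filter, mem_filter] at hp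
          exact mem_filter.2 ⟨hp.1.1, hp.2⟩
        · intro _ _ _
          positivity
      refine e2.trans (e1.trans ?_)
      have hR0' : (0 : ℝ) < R0 := by exact_mod_cast hR01
      have e3 : (y : ℝ) / R0 ≤ 16 * n / L ^ (A + 10) := by
        calc (y : ℝ) / R0 ≤ (8 * n) / (L ^ (A + 10) / 2) :=
              div_le_div₀ (by positivity) hyR (by positivity) hR0ge
          _ = 16 * n / L ^ (A + 10) := by rw [div_div_eq_mul_div]; ring
      have e4 : (y : ℝ) ^ (19 / 20 : ℝ) ≤ 8 * s ^ 19 := by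
        calc (y : ℝ) ^ (19 / 20 : ℝ) ≤ (8 * n : ℝ) ^ (19 / 20 : ℝ) :=
              Real.rpow_le_rpow (by positivity) hyR (by norm_num)
          _ = (8 : ℝ) ^ (19 / 20 : ℝ) * (n : ℝ) ^ (19 / 20 : ℝ) :=
              Real.mul_rpow (by norm_num) hn0'.le
          _ ≤ 8 * s ^ 19 := by
              have e5 : (8 : ℝ) ^ (19 / 20 : ℝ) ≤ 8 := by
                calc (8 : ℝ) ^ (19 / 20 : ℝ) ≤ (8 : ℝ) ^ (1 : ℝ) :=
                      Real.rpow_le_rpow_of_exponent_le (by norm_num) (by norm_num)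
                  _ = 8 := Real.rpow_one _
              have e6 : (n : ℝ) ^ (19 / 20 : ℝ) = s ^ 19 := by
                rw [hsdef, ← Real.rpow_natCast, ← Real.rpow_mul hn0'.le]
                norm_num
              rw [e6]
              exact mul_le_mul_of_nonneg_right e5 (by positivity)
      have e7 : (D : ℝ) * Real.sqrt y ≤ 3 * n / L ^ (A + 12) := by
        calc (D : ℝ) * Real.sqrt y ≤ (s ^ 10 / L ^ (A + 12)) * (3 * s ^ 10) :=
              mul_le_mul hDle hsqy (by positivity) (by positivity)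
          _ = 3 * s ^ 20 / L ^ (A + 12) := by ring
          _ = 3 * n / L ^ (A + 12) := by rw [hs20]
      apply mul_le_mul _ (by linarith) (by positivity) (by positivity)
      apply mul_le_mul_of_nonneg_left _ hC₃.le
      exact pow_le_pow_left₀ hly0 hlogy 7
    have hSle : S ≤ 8 * n / L ^ (A + 10) +
        C₃ * (2 * L) ^ 7 * (16 * n / L ^ (A + 10) + 8 * s ^ 19 + 3 * n / L ^ (A + 12)) := by
      rw [hS, ← sum_filter_add_sum_filter_not ((PC D).filter (fun p => p ≠ p0 ∧ ¬ p1 ∣ p.1))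
        (fun p => R0 < p.1)]
      linarith
    have herr : (D : ℝ) * (C₂ * Real.sqrt y * Real.log y ^ 2) ≤
        C₂ * (2 * L) ^ 2 * (3 * n / L ^ (A + 12)) := by
      have e7 : (D : ℝ) * Real.sqrt y ≤ 3 * n / L ^ (A + 12) := by
        calc (D : ℝ) * Real.sqrt y ≤ (s ^ 10 / L ^ (A + 12)) * (3 * s ^ 10) :=
              mul_le_mul hDle hsqy (by positivity) (by positivity)
          _ = 3 * s ^ 20 / L ^ (A + 12) := by ring
          _ = 3 * n / L ^ (A + 12) := by rw [hs20]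
      have e8 : Real.log y ^ 2 ≤ (2 * L) ^ 2 := pow_le_pow_left₀ hly0 hlogy 2
      calc (D : ℝ) * (C₂ * Real.sqrt y * Real.log y ^ 2) =
          C₂ * Real.log y ^ 2 * (D * Real.sqrt y) := by ring
        _ ≤ C₂ * (2 * L) ^ 2 * (3 * n / L ^ (A + 12)) :=
            mul_le_mul (mul_le_mul_of_nonneg_left e8 hC₂.le) e7 (by positivity) (by positivity)
    have hfin : C₁ * L * S ≤ C₁ * L * (8 * n / L ^ (A + 10) +
        C₃ * (2 * L) ^ 7 * (16 * n / L ^ (A + 10) + 8 * s ^ 19 + 3 * n / L ^ (A + 12))) :=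
      mul_le_mul_of_nonneg_left hSle (by positivity)
    linarith


open Classical in
theorem bv_bilf (A : ℕ) : ∃ A' B n0 : ℕ, ∀ n : ℕ, n0 ≤ n → ∀ p1 : ℕ, SWp A' n p1 →
    ∀ (a : ℕ → ℕ) (M u v : ℕ) (α : ℕ → ℝ), (∀ m, |α m| ≤ 1) → (n : ℝ) ^ (1 / 4 : ℝ) ≤ M →
    (n : ℝ) ^ (1 / 4 : ℝ) ≤ v → u ≤ v → M * v ≤ 8 * n →
    ∑ d ∈ (Icc 1 (DD n B)).filter (fun d => (a d).Coprime d ∧ ¬ p1 ∣ d),
      |∑ m ∈ Icc 1 M, α m * ∑ q ∈ (Ioc u v).filter (fun q => q.Prime ∧ m * q ≡ a d [MOD d]),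
          Real.log q -
        1 / (Nat.totient d : ℝ) * ((∑ m ∈ (Icc 1 M).filter (fun m => m.Coprime d), α m) *
          ∑ q ∈ (Ioc u v).filter (fun q => q.Prime ∧ q.Coprime d), Real.log q)| ≤
      n / Real.log n ^ A := by
  obtain ⟨C0, hC0, hφ⟩ := Pool.Agent.Lib.H59C.sum_inv_totient
  obtain ⟨C, hC, hin⟩ := bv3_inner
  obtain ⟨n0, hn0⟩ := bv3_ev (C0 * (84 * C + 17)) (3 * A + 31)
  refine ⟨3 * A + 30, A + 12, n0, fun n hn p1 hS a M u v α hα hM hv huv hMv => ?_⟩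
  obtain ⟨hn8, hL, hLC, h120⟩ := hn0 n hn
  have hn1 : (1 : ℝ) ≤ n := by
    have : 1 ≤ n := by omega
    exact_mod_cast this
  have hn00 : (0 : ℝ) < n := by linarith
  have hDle : ((DD n (A + 12) : ℕ) : ℝ) ≤ Real.sqrt n / Real.log n ^ (A + 12) := by
    unfold DD
    exact Nat.floor_le (by positivity)
  have hD2 : 2 ≤ DD n (A + 12) := by
    unfold DD
    apply Nat.le_floor
    rw [le_div_iff₀ (by positivity)]
    have h1 : Real.log n ^ (A + 12) ≤ Real.log n ^ (3 * A + 31) :=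
      pow_le_pow_right₀ hL (by omega)
    have h2 : (n : ℝ) ^ (1 / 8 : ℝ) ≤ Real.sqrt n := by
      rw [Real.sqrt_eq_rpow]
      exact Real.rpow_le_rpow_of_exponent_le hn1 (by norm_num)
    have h3 : (0 : ℝ) ≤ Real.log n ^ (A + 12) := by positivity
    push_cast
    linarith
  set D := DD n (A + 12) with hD
  set L := Real.log n with hLdef
  have hL0 : 0 < L := by linarith
  set F : ℕ → PCh → ℝ := fun k p => ‖bv3_A M α k p‖ * ‖bv3_T u v k p‖ with hF
  have hF0 : ∀ k p, 0 ≤ F k p := fun k p => by positivity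
  have h1 : ∑ d ∈ (Icc 1 D).filter (fun d => (a d).Coprime d ∧ ¬ p1 ∣ d),
      |∑ m ∈ Icc 1 M, α m * ∑ q ∈ (Ioc u v).filter (fun q => q.Prime ∧ m * q ≡ a d [MOD d]),
          Real.log q -
        1 / (Nat.totient d : ℝ) * ((∑ m ∈ (Icc 1 M).filter (fun m => m.Coprime d), α m) *
          ∑ q ∈ (Ioc u v).filter (fun q => q.Prime ∧ q.Coprime d), Real.log q)| ≤
      ∑ d ∈ (Icc 1 D).filter (fun d => ¬ p1 ∣ d), 1 / (Nat.totient d : ℝ) *
        ∑ p ∈ (PC d).filter (fun p => p ≠ p0 ∧ p.1 ∣ d), F (d / p.1) p := by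
    have h2 : ∀ d ∈ (Icc 1 D).filter (fun d => (a d).Coprime d ∧ ¬ p1 ∣ d),
        |∑ m ∈ Icc 1 M, α m * ∑ q ∈ (Ioc u v).filter (fun q => q.Prime ∧ m * q ≡ a d [MOD d]),
          Real.log q -
        1 / (Nat.totient d : ℝ) * ((∑ m ∈ (Icc 1 M).filter (fun m => m.Coprime d), α m) *
          ∑ q ∈ (Ioc u v).filter (fun q => q.Prime ∧ q.Coprime d), Real.log q)| ≤
        1 / (Nat.totient d : ℝ) *
          ∑ p ∈ (PC d).filter (fun p => p ≠ p0 ∧ p.1 ∣ d), F (d / p.1) p := by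
      intro d hd
      rw [mem_filter, mem_Icc] at hd
      exact bv3_dev M u v d (a d) α hd.1.1 hd.2.1
    refine (sum_le_sum h2).trans ?_
    apply sum_le_sum_of_subset_of_nonneg
    · intro d hd
      rw [mem_filter] at hd ⊢
      exact ⟨hd.1, hd.2.2⟩
    · intro d _ _
      exact mul_nonneg (by positivity) (sum_nonneg fun p _ => hF0 _ _)
  refine h1.trans ((exchange D p1 F hF0).trans ?_)
  have h3 : ∀ k ∈ Icc 1 D, 1 / (Nat.totient k : ℝ) *
        ∑ p ∈ (PC D).filter (fun p => p ≠ p0 ∧ ¬ p1 ∣ p.1), 1 / (Nat.totient p.1 : ℝ) * F k p ≤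
      1 / (Nat.totient k : ℝ) * ((84 * C + 17) * (L ^ 3 * (n / L ^ (A + 10)))) := by
    intro k hk
    rw [mem_Icc] at hk
    apply mul_le_mul_of_nonneg_left _ (by positivity)
    exact hin A n p1 M u v k D hS hn8 hL h120 hM hv huv hMv hk.1 hk.2 hD2 hDle α hα
  refine (sum_le_sum h3).trans ?_
  rw [← sum_mul]
  have hDn : (D : ℝ) ≤ n := by
    refine hDle.trans ?_
    have h1 : (1 : ℝ) ≤ L ^ (A + 12) := one_le_pow₀ hL
    refine (div_le_self (Real.sqrt_nonneg _) h1).trans ?_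
    rw [Real.sqrt_le_left (by linarith)]
    nlinarith
  have hlD : Real.log D ≤ L := Real.log_le_log (by
    have : 0 < D := by omega
    exact_mod_cast this) hDn
  have h4 : ∑ k ∈ Icc 1 D, 1 / (Nat.totient k : ℝ) ≤ C0 * L :=
    (hφ D hD2).trans (mul_le_mul_of_nonneg_left hlD hC0.le)
  refine (mul_le_mul_of_nonneg_right h4 (by positivity)).trans ?_
  have h5 : C0 * L * ((84 * C + 17) * (L ^ 3 * (n / L ^ (A + 10)))) =
      (C0 * (84 * C + 17)) * (n / L ^ (A + 6)) := by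
    have h6 : L ^ (A + 10) = L ^ (A + 6) * L ^ 4 := by rw [← pow_add]
    rw [h6]
    field_simp
  rw [h5]
  calc (C0 * (84 * C + 17)) * (n / L ^ (A + 6)) ≤ L * (n / L ^ (A + 6)) :=
        mul_le_mul_of_nonneg_right hLC (by positivity)
    _ = n / L ^ (A + 5) := by
        have h6 : L ^ (A + 6) = L ^ (A + 5) * L := by rw [← pow_succ]
        rw [h6]
        field_simp
    _ ≤ n / L ^ A := by
        apply div_le_div_of_nonneg_left hn00.le (by positivity)
        exact pow_le_pow_right₀ hL (by omega)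


end Pool.Agent.Lib.H57C
end

-- from Lib.H57C.V1
section

/-!
# Chunk V1: Bombieri-Vinogradov, all classes at once, with weights
-/

open Finset

namespace Pool.Agent.Lib.H57C

open Pool.Agent.Lib.Sieve

/-- weighted harmonic sum of a product over prime factors -/
theorem V1_sum (h : ℕ → ℝ) (h0 : ∀ p, 0 ≤ h p) (N : ℕ) :
    ∑ m ∈ Icc 1 N, (∏ p ∈ m.primeFactors, (1 + h p)) / (m : ℝ)
      ≤ (∑ k ∈ Icc 1 N, 1 / (k : ℝ)) * ∏ p ∈ primesUpTo N, (1 + h p / p) := by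
  have hD0 : ∀ D : Finset ℕ, 0 ≤ ∏ p ∈ D, h p := fun D => Finset.prod_nonneg fun p _ => h0 p
  have h1 : ∀ m ∈ Finset.Icc 1 N, (∏ p ∈ m.primeFactors, (1 + h p)) / (m : ℝ)
      ≤ ∑ D ∈ (primesUpTo N).powerset, if (∏ p ∈ D, p) ∣ m then (∏ p ∈ D, h p) / (m : ℝ) else 0 := by
    intro m hm
    rw [Finset.mem_Icc] at hm
    rw [Finset.prod_one_add, ← Finset.sum_filter, Finset.sum_div]
    apply Finset.sum_le_sum_of_subset_of_nonneg
    · intro D hD
      rw [Finset.mem_powerset] at hD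
      rw [Finset.mem_filter, Finset.mem_powerset]
      refine ⟨fun p hp => ?_, ?_⟩
      · have hpm := Nat.mem_primeFactors.mp (hD hp)
        rw [mem_primesUpTo]
        exact ⟨hpm.1, (Nat.le_of_dvd (by omega) hpm.2.1).trans hm.2⟩
      · exact (Finset.prod_dvd_prod_of_subset _ _ _ hD).trans (Nat.prod_primeFactors_dvd m)
    · intro D _ _
      exact div_nonneg (hD0 D) (Nat.cast_nonneg _)
  refine (Finset.sum_le_sum h1).trans ?_
  rw [Finset.sum_comm, Finset.prod_one_add, Finset.mul_sum]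
  refine Finset.sum_le_sum fun D hD => ?_
  rw [Finset.mem_powerset] at hD
  rw [← Finset.sum_filter]
  set d := ∏ p ∈ D, p with hd
  have hdpos : 0 < d := Finset.prod_pos fun p hp => (mem_primesUpTo.mp (hD hp)).1.pos
  rw [Finset.prod_div_distrib]
  have hdr : (∏ p ∈ D, (p : ℝ)) = d := by
    rw [hd]
    push_cast
    rfl
  rw [hdr]
  have h2 : ∑ a ∈ (Icc 1 N).filter (fun m => d ∣ m), (∏ p ∈ D, h p) / (a : ℝ) ≤
      ∑ k ∈ Icc 1 N, (∏ p ∈ D, h p) / ((d * k : ℕ) : ℝ) := by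
    have h3 : (Icc 1 N).filter (fun m => d ∣ m) ⊆ (Icc 1 N).image (fun k => d * k) := by
      intro m hm
      rw [mem_filter, mem_Icc] at hm
      obtain ⟨k, rfl⟩ := hm.2
      rw [mem_image]
      refine ⟨k, ?_, rfl⟩
      rw [mem_Icc]
      constructor
      · by_contra h
        have : k = 0 := by omega
        rw [this] at hm
        omega
      · exact (Nat.le_mul_of_pos_left k hdpos).trans hm.1.2
    refine (sum_le_sum_of_subset_of_nonneg h3 fun i _ _ => div_nonneg (hD0 D)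
      (Nat.cast_nonneg _)).trans ?_
    rw [sum_image]
    intro a _ b _ hab
    exact Nat.eq_of_mul_eq_mul_left hdpos hab
  refine h2.trans (le_of_eq ?_)
  rw [sum_mul]
  apply sum_congr rfl
  intro k _
  push_cast
  rw [div_mul_div_comm, one_mul, mul_comm (k : ℝ)]

/-- the weights on average -/
theorem V1_w (E n : ℕ) (hn : 2 ≤ n) : ∑ d ∈ Icc 1 n, (E : ℝ) ^ d.primeFactors.card /
    (Nat.totient d : ℝ) ≤ (1 + Real.log n) * (500 * Real.log n) ^ (2 * E) := by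
  have h1 : ∀ d ∈ Icc 1 n, (E : ℝ) ^ d.primeFactors.card / (Nat.totient d : ℝ) ≤
      (∏ p ∈ d.primeFactors, (1 + (fun _ => 2 * (E : ℝ)) p)) / (d : ℝ) := by
    intro d hd
    rw [mem_Icc] at hd
    have hd0 : (0 : ℝ) < d := by exact_mod_cast hd.1
    have hphi : (0 : ℝ) < Nat.totient d := by exact_mod_cast Nat.totient_pos.2 (by omega)
    have h2 : (Nat.totient d : ℝ) * ∏ p ∈ d.primeFactors, (p : ℝ) =
        d * ∏ p ∈ d.primeFactors, ((p : ℝ) - 1) := by
      have h3 := Nat.totient_mul_prod_primeFactors d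
      have h4 : ((d.totient * ∏ p ∈ d.primeFactors, p : ℕ) : ℝ) =
        ((d * ∏ p ∈ d.primeFactors, (p - 1) : ℕ) : ℝ) := by rw [h3]
      push_cast at h4
      rw [h4]
      congr 1
      apply prod_congr rfl
      intro p hp
      have := (Nat.prime_of_mem_primeFactors hp).one_le
      push_cast [Nat.cast_sub this]
      ring
    rw [div_le_div_iff₀ hphi hd0]
    have h5 : 0 < ∏ p ∈ d.primeFactors, ((p : ℝ) - 1) := by
      apply prod_pos
      intro p hp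
      have : (1 : ℝ) < p := by exact_mod_cast (Nat.prime_of_mem_primeFactors hp).one_lt
      linarith
    have h6 : (E : ℝ) ^ d.primeFactors.card * ∏ p ∈ d.primeFactors, (p : ℝ) ≤
        (∏ p ∈ d.primeFactors, (1 + 2 * (E : ℝ))) * ∏ p ∈ d.primeFactors, ((p : ℝ) - 1) := by
      rw [← prod_const, ← prod_mul_distrib, ← prod_mul_distrib]
      apply prod_le_prod
      · intro p _
        positivity
      · intro p hp
        have h2 : (2 : ℝ) ≤ p := by exact_mod_cast (Nat.prime_of_mem_primeFactors hp).two_le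
        have hE : (0 : ℝ) ≤ E := Nat.cast_nonneg _
        nlinarith
    have h7 : (E : ℝ) ^ d.primeFactors.card * d * ∏ p ∈ d.primeFactors, ((p : ℝ) - 1) ≤
        (∏ p ∈ d.primeFactors, (1 + 2 * (E : ℝ))) * (Nat.totient d : ℝ) *
          ∏ p ∈ d.primeFactors, ((p : ℝ) - 1) := by
      calc (E : ℝ) ^ d.primeFactors.card * d * ∏ p ∈ d.primeFactors, ((p : ℝ) - 1) =
          (E : ℝ) ^ d.primeFactors.card * (Nat.totient d * ∏ p ∈ d.primeFactors, (p : ℝ)) := by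
            rw [h2]; ring
        _ = (Nat.totient d : ℝ) * ((E : ℝ) ^ d.primeFactors.card *
            ∏ p ∈ d.primeFactors, (p : ℝ)) := by ring
        _ ≤ (Nat.totient d : ℝ) * ((∏ p ∈ d.primeFactors, (1 + 2 * (E : ℝ))) *
            ∏ p ∈ d.primeFactors, ((p : ℝ) - 1)) := mul_le_mul_of_nonneg_left h6 hphi.le
        _ = _ := by ring
    exact le_of_mul_le_mul_right h7 h5
  refine (sum_le_sum h1).trans ((V1_sum (fun _ => 2 * (E : ℝ)) (fun _ => by positivity) n).trans ?_)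
  have h8 : ∑ k ∈ Icc 1 n, 1 / (k : ℝ) ≤ 1 + Real.log n := by
    have := harmonic_le_one_add_log n
    have h9 : ((harmonic n : ℚ) : ℝ) = ∑ k ∈ Icc 1 n, 1 / (k : ℝ) := by
      rw [harmonic_eq_sum_Icc]
      push_cast
      simp
    rw [← h9]
    exact this
  have h10 : ∏ p ∈ primesUpTo n, (1 + 2 * (E : ℝ) / p) ≤ (500 * Real.log n) ^ (2 * E) := by
    calc ∏ p ∈ primesUpTo n, (1 + 2 * (E : ℝ) / p) ≤
        ∏ p ∈ primesUpTo n, ((1 - 1 / (p : ℝ))⁻¹) ^ (2 * E) := by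
          apply prod_le_prod
          · intro p _
            positivity
          · intro p hp
            have hp1 : (1 : ℝ) < p := by exact_mod_cast (mem_primesUpTo.mp hp).1.one_lt
            have h11 : 1 + 1 / (p : ℝ) ≤ (1 - 1 / (p : ℝ))⁻¹ := by
              have h12 : 0 < 1 - 1 / (p : ℝ) := by
                rw [sub_pos, div_lt_one (by linarith)]
                exact hp1
              rw [le_inv_comm₀ (by positivity) h12, ← one_div, le_div_iff₀ (by positivity)]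
              have : 0 < 1 / (p : ℝ) := by positivity
              nlinarith
            refine le_trans ?_ (pow_le_pow_left₀ (by positivity) h11 _)
            have h13 := one_add_mul_le_pow (a := 1 / (p : ℝ)) (by
              have : 0 < 1 / (p : ℝ) := by positivity
              linarith) (2 * E)
            push_cast at h13
            calc 1 + 2 * (E : ℝ) / p = 1 + 2 * (E : ℝ) * (1 / p) := by ring
              _ ≤ _ := h13
      _ = (∏ p ∈ primesUpTo n, (1 - 1 / (p : ℝ))⁻¹) ^ (2 * E) := prod_pow _ _ _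
      _ ≤ (500 * Real.log n) ^ (2 * E) := by
          apply pow_le_pow_left₀
          · apply prod_nonneg
            intro p hp
            have hp1 : (1 : ℝ) < p := by exact_mod_cast (mem_primesUpTo.mp hp).1.one_lt
            have h12 : 0 < 1 - 1 / (p : ℝ) := by
              rw [sub_pos, div_lt_one (by linarith)]
              exact hp1
            positivity
          · exact Helper57.prod_one_sub_inv_inv_le n hn
  have h14 : 0 ≤ Real.log n := Real.log_natCast_nonneg n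
  exact mul_le_mul h8 h10 (prod_nonneg fun _ _ => by positivity) (by positivity)


/-- Cauchy-Schwarz -/
theorem V1_cs (E n : ℕ) (hn : 2 ≤ n) (S : Finset ℕ) (hS : S ⊆ Icc 1 n) (rr : ℕ → ℝ)
    (h0 : ∀ d, 0 ≤ rr d) (R0 R1 : ℝ) (hR0 : 0 ≤ R0) (h1 : ∑ d ∈ S, rr d ≤ R1)
    (h2 : ∀ d ∈ S, rr d ≤ R0 * (1 / (Nat.totient d : ℝ))) :
    (∑ d ∈ S, (E : ℝ) ^ d.primeFactors.card * rr d) ^ 2 ≤
      R0 * ((1 + Real.log n) * (500 * Real.log n) ^ (2 * E ^ 2)) * R1 := by
  have hcs := sum_mul_sq_le_sq_mul_sq S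
    (fun d => (E : ℝ) ^ d.primeFactors.card * Real.sqrt (rr d)) (fun d => Real.sqrt (rr d))
  have e1 : ∑ d ∈ S, (E : ℝ) ^ d.primeFactors.card * rr d =
      ∑ d ∈ S, (E : ℝ) ^ d.primeFactors.card * Real.sqrt (rr d) * Real.sqrt (rr d) := by
    apply sum_congr rfl
    intro d _
    rw [mul_assoc, Real.mul_self_sqrt (h0 d)]
  have e2 : ∑ d ∈ S, ((E : ℝ) ^ d.primeFactors.card * Real.sqrt (rr d)) ^ 2 ≤
      R0 * ((1 + Real.log n) * (500 * Real.log n) ^ (2 * E ^ 2)) := by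
    calc ∑ d ∈ S, ((E : ℝ) ^ d.primeFactors.card * Real.sqrt (rr d)) ^ 2
        ≤ ∑ d ∈ S, R0 * (((E ^ 2 : ℕ) : ℝ) ^ d.primeFactors.card / (Nat.totient d : ℝ)) := by
          apply sum_le_sum
          intro d hd
          rw [mul_pow, Real.sq_sqrt (h0 d), ← pow_mul, mul_comm d.primeFactors.card 2, pow_mul]
          push_cast
          calc ((E : ℝ) ^ 2) ^ d.primeFactors.card * rr d ≤
              ((E : ℝ) ^ 2) ^ d.primeFactors.card * (R0 * (1 / (Nat.totient d : ℝ))) :=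
                mul_le_mul_of_nonneg_left (h2 d hd) (by positivity)
            _ = _ := by ring
      _ = R0 * ∑ d ∈ S, (((E ^ 2 : ℕ) : ℝ) ^ d.primeFactors.card / (Nat.totient d : ℝ)) := by
          rw [mul_sum]
      _ ≤ R0 * ∑ d ∈ Icc 1 n, (((E ^ 2 : ℕ) : ℝ) ^ d.primeFactors.card / (Nat.totient d : ℝ)) := by
          apply mul_le_mul_of_nonneg_left _ hR0
          exact sum_le_sum_of_subset_of_nonneg hS fun _ _ _ => by positivity
      _ ≤ _ := mul_le_mul_of_nonneg_left (V1_w (E ^ 2) n hn) hR0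
  have e3 : ∑ d ∈ S, Real.sqrt (rr d) ^ 2 ≤ R1 := by
    refine le_trans (le_of_eq ?_) h1
    exact sum_congr rfl fun d _ => Real.sq_sqrt (h0 d)
  rw [e1]
  have hl : 0 ≤ Real.log n := Real.log_natCast_nonneg n
  exact hcs.trans (mul_le_mul e2 e3 (sum_nonneg fun _ _ => by positivity) (by positivity))

theorem V1_ev : ∃ n0 : ℕ, 8 ≤ n0 ∧ ∀ n : ℕ, n0 ≤ n → 500 ≤ Real.log n := by
  have h := (Real.tendsto_log_atTop.comp tendsto_natCast_atTop_atTop).eventually_ge_atTop 500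
  rw [Filter.eventually_atTop] at h
  obtain ⟨n0, h⟩ := h
  exact ⟨max n0 8, le_max_right _ _, fun n hn => h n ((le_max_left _ _).trans hn)⟩

/-- numerical conclusion -/
theorem V1_num (A E : ℕ) (n L X : ℝ) (hn : 0 ≤ n) (hL : 500 ≤ L)
    (h : X ^ 2 ≤ 100 * n * L * ((1 + L) * (500 * L) ^ (2 * E ^ 2)) *
      (n / L ^ (2 * A + 4 * E ^ 2 + 10))) : X ≤ n / L ^ A := by
  have hL0 : 0 < L := by linarith
  have hL1 : 1 ≤ L := by linarith
  have h1 : (1 + L) * (500 * L) ^ (2 * E ^ 2) ≤ L ^ 2 * (L ^ 2) ^ (2 * E ^ 2) := by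
    apply mul_le_mul _ _ (by positivity) (by positivity)
    · nlinarith
    · apply pow_le_pow_left₀ (by positivity)
      nlinarith
  have h2 : 100 * n * L * (L ^ 2 * (L ^ 2) ^ (2 * E ^ 2)) * (n / L ^ (2 * A + 4 * E ^ 2 + 10)) ≤
      (n / L ^ A) ^ 2 := by
    have e1 : L ^ (2 * A + 4 * E ^ 2 + 10) = (L ^ A) ^ 2 * ((L ^ 2) ^ (2 * E ^ 2) * L ^ 10) := by
      rw [← pow_mul, ← pow_mul, ← pow_add, ← pow_add]
      congr 1
      ring
    rw [e1, div_pow]
    have e2 : 100 * n * L * (L ^ 2 * (L ^ 2) ^ (2 * E ^ 2)) *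
        (n / ((L ^ A) ^ 2 * ((L ^ 2) ^ (2 * E ^ 2) * L ^ 10))) =
        n ^ 2 / (L ^ A) ^ 2 * (100 / L ^ 7) := by
      field_simp
    rw [e2]
    have e3 : 100 / L ^ 7 ≤ 1 := by
      rw [div_le_one (by positivity)]
      calc (100 : ℝ) ≤ L ^ 1 := by rw [pow_one]; linarith
        _ ≤ L ^ 7 := pow_le_pow_right₀ hL1 (by norm_num)
    calc n ^ 2 / (L ^ A) ^ 2 * (100 / L ^ 7) ≤ n ^ 2 / (L ^ A) ^ 2 * 1 :=
          mul_le_mul_of_nonneg_left e3 (by positivity)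
      _ = _ := mul_one _
  have h3 : X ^ 2 ≤ (n / L ^ A) ^ 2 := by
    refine h.trans (le_trans ?_ h2)
    apply mul_le_mul_of_nonneg_right _ (by positivity)
    exact mul_le_mul_of_nonneg_left h1 (by positivity)
  exact le_of_sq_le_sq h3 (by positivity)


open Pool.Agent.Lib.H59C

/-- a worst residue class -/
theorem V1_max (d : ℕ) (hd : 1 ≤ d) (f : ℕ → ℝ) (hf : ∀ a, f (a % d) = f a) :
    ∃ a0 : ℕ, a0.Coprime d ∧ ∀ a : ℕ, a.Coprime d → f a ≤ f a0 := by
  have hne : ((range d).filter (fun a => a.Coprime d)).Nonempty := by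
    rcases Nat.lt_or_ge 1 d with h | h
    · exact ⟨1, mem_filter.2 ⟨mem_range.2 h, Nat.coprime_one_left d⟩⟩
    · have : d = 1 := by omega
      subst this
      exact ⟨0, mem_filter.2 ⟨mem_range.2 (by omega), Nat.coprime_one_right 0⟩⟩
  obtain ⟨a0, ha0, h⟩ := exists_max_image _ f hne
  rw [mem_filter] at ha0
  refine ⟨a0, ha0.2, fun a ha => ?_⟩
  rw [← hf a]
  apply h
  rw [mem_filter, mem_range]
  refine ⟨Nat.mod_lt _ hd, ?_⟩
  unfold Nat.Coprime at ha ⊢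
  rw [← Nat.gcd_rec, Nat.gcd_comm]
  exact ha

/-- Proof. Put `r0(y, d) = sup over a < d, (a, d) = 1, of |thp y d a - th y/φ(d)|` (`Finset.sup'` or `exists_max_image` over the
nonempty set `{a ∈ range d : a.Coprime d}`; both sides only depend on `a` mod `d`), attained at `a(y, d)`, and
`rr d = r0(y, d)` for `d ≥ 1`. By `bvf A1` with `A1 = 2 A + 2 c + 10`: `∑_{d ≤ DD n B, p1 ∤ d} rr d ≤ n/L^A1`. Trivially (`bv2_triv`)
`rr d ≤ 2 y log y/φ(d) + log y ≤ 100 n L (1/φ(d) + 1/d) ≤ 200 n L/φ(d)` (`d ≤ √n`). By Cauchy-Schwarz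
`∑ E^ω(d) rr d ≤ (∑ E^(2ω(d)) rr d)^(1/2) (∑ rr d)^(1/2) ≤ (200 n L ∑_{d ≤ n} (E^2)^ω(d)/φ(d))^(1/2) (n/L^A1)^(1/2)`, and
`∑_{d ≤ n} (E^2)^ω(d)/φ(d) ≤ ∏_{q ≤ n} (1 + E^2/(q-1) · (1 + 1/q + 1/q^2 + ..)) ≤ exp (4 E^2 ∑_{q ≤ n} 1/q) ≤ L^c` for large `n`
(`c` depends on `E`; `mertens` in `H59C/MER0.lean`, or `Sieve.sum_prod_primeFactors_le`). -/
theorem bvw (A E : ℕ) : ∃ A' B n0 : ℕ, ∀ n : ℕ, n0 ≤ n → ∀ p1 : ℕ, SWp A' n p1 →
    ∀ y : ℕ, y ≤ 8 * n → ∃ rr : ℕ → ℝ, (∀ d, 0 ≤ rr d) ∧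
      (∀ d, 1 ≤ d → d ≤ DD n B → ¬ p1 ∣ d → ∀ a : ℕ, a.Coprime d →
        |thp y d a - th y / (Nat.totient d : ℝ)| ≤ rr d) ∧
      ∑ d ∈ (Icc 1 (DD n B)).filter (fun d => ¬ p1 ∣ d),
        (E : ℝ) ^ d.primeFactors.card * rr d ≤ n / Real.log n ^ A := by
  obtain ⟨A', B, n0, hbv⟩ := bvf (2 * A + 4 * E ^ 2 + 10)
  obtain ⟨n1, hn1, hlog⟩ := V1_ev
  refine ⟨A', B, max n0 n1, fun n hn p1 hSW y hy => ?_⟩
  have hn8 : 8 ≤ n := hn1.trans ((le_max_right _ _).trans hn)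
  have hL := hlog n ((le_max_right _ _).trans hn)
  have hnR : (8 : ℝ) ≤ n := by exact_mod_cast hn8
  have hmod : ∀ d a : ℕ, thp y d (a % d) = thp y d a := by
    intro d a
    unfold thp
    congr 1
    apply filter_congr
    intro q _
    rw [Nat.ModEq, Nat.ModEq, Nat.mod_mod]
  have hex : ∀ d : ℕ, 1 ≤ d → ∃ a0 : ℕ, a0.Coprime d ∧ ∀ a : ℕ, a.Coprime d →
      |thp y d a - th y / (Nat.totient d : ℝ)| ≤ |thp y d a0 - th y / (Nat.totient d : ℝ)| :=
    fun d hd => V1_max d hd (fun a => |thp y d a - th y / (Nat.totient d : ℝ)|)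
      (fun a => by simp only [hmod])
  choose! a ha hmax using hex
  refine ⟨fun d => |thp y d (a d) - th y / (Nat.totient d : ℝ)|, fun _ => abs_nonneg _,
    fun d hd _ _ b hb => hmax d hd b hb, ?_⟩
  have hDn : DD n B ≤ n := by
    unfold DD
    have h1 : Real.sqrt n / Real.log n ^ B ≤ n := by
      refine (div_le_self (Real.sqrt_nonneg _) (one_le_pow₀ (by linarith))).trans ?_
      rw [Real.sqrt_le_left (by linarith)]
      nlinarith
    exact_mod_cast (Nat.floor_le (by positivity)).trans h1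
  have hsub : (Icc 1 (DD n B)).filter (fun d => ¬ p1 ∣ d) ⊆ Icc 1 n := by
    intro d hd
    rw [mem_filter, mem_Icc] at hd
    rw [mem_Icc]
    exact ⟨hd.1.1, hd.1.2.trans hDn⟩
  have hb1 : ∑ d ∈ (Icc 1 (DD n B)).filter (fun d => ¬ p1 ∣ d),
      |thp y d (a d) - th y / (Nat.totient d : ℝ)| ≤
      n / Real.log n ^ (2 * A + 4 * E ^ 2 + 10) := by
    have h1 := hbv n ((le_max_left _ _).trans hn) p1 hSW a y hy
    have h2 : (Icc 1 (DD n B)).filter (fun d => (a d).Coprime d ∧ ¬ p1 ∣ d) =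
        (Icc 1 (DD n B)).filter (fun d => ¬ p1 ∣ d) := by
      apply filter_congr
      intro d hd
      rw [mem_Icc] at hd
      exact ⟨fun h => h.2, fun h => ⟨ha d hd.1, h⟩⟩
    rwa [h2] at h1
  have hb2 : ∀ d ∈ (Icc 1 (DD n B)).filter (fun d => ¬ p1 ∣ d),
      |thp y d (a d) - th y / (Nat.totient d : ℝ)| ≤
      100 * n * Real.log n * (1 / (Nat.totient d : ℝ)) := by
    intro d hd
    have hd' := mem_Icc.1 (hsub hd)
    refine (bv2_triv y d (a d) hd'.1).trans ?_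
    have hphi : (0 : ℝ) < Nat.totient d := by exact_mod_cast Nat.totient_pos.2 (by omega)
    have hphi2 : (Nat.totient d : ℝ) ≤ n := by exact_mod_cast (Nat.totient_le d).trans hd'.2
    have hly : Real.log y ≤ 2 * Real.log n := by
      rcases Nat.eq_zero_or_pos y with h | h
      · rw [h]; simp; linarith
      · have h1 : Real.log y ≤ Real.log (8 * n) := Real.log_le_log (by exact_mod_cast h)
          (by exact_mod_cast hy)
        rw [Real.log_mul (by norm_num) (by positivity)] at h1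
        have h2 : Real.log 8 ≤ Real.log n := Real.log_le_log (by norm_num) hnR
        linarith
    have hy' : (y : ℝ) ≤ 8 * n := by exact_mod_cast hy
    have hly0 : 0 ≤ Real.log y := Real.log_natCast_nonneg y
    have h1 : (y : ℝ) * Real.log y ≤ 8 * n * (2 * Real.log n) :=
      mul_le_mul hy' hly hly0 (by positivity)
    have h2 : 2 * ((y : ℝ) * Real.log y) * (1 / (Nat.totient d : ℝ)) ≤
        2 * (8 * n * (2 * Real.log n)) * (1 / (Nat.totient d : ℝ)) :=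
      mul_le_mul_of_nonneg_right (by linarith) (by positivity)
    have h3 : Real.log y ≤ 2 * Real.log n * n * (1 / (Nat.totient d : ℝ)) := by
      rw [mul_assoc, mul_one_div]
      have h4 : 1 ≤ (n : ℝ) / Nat.totient d := by
        rw [le_div_iff₀ hphi]; linarith
      have h5 : 0 ≤ 2 * Real.log n := by linarith
      nlinarith
    have h6 : 0 < (n : ℝ) * Real.log n * (1 / (Nat.totient d : ℝ)) := by
      have : 0 < Real.log n := by linarith
      positivity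
    calc 2 * ((y : ℝ) * Real.log y) * (1 / (Nat.totient d : ℝ)) + Real.log y
        ≤ 2 * (8 * n * (2 * Real.log n)) * (1 / (Nat.totient d : ℝ)) +
          2 * Real.log n * n * (1 / (Nat.totient d : ℝ)) := add_le_add h2 h3
      _ = 34 * ((n : ℝ) * Real.log n * (1 / (Nat.totient d : ℝ))) := by ring
      _ ≤ 100 * ((n : ℝ) * Real.log n * (1 / (Nat.totient d : ℝ))) := by linarith
      _ = _ := by ring
  have hcs := V1_cs E n (by omega) _ hsub
    (fun d => |thp y d (a d) - th y / (Nat.totient d : ℝ)|) (fun _ => abs_nonneg _)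
    (100 * n * Real.log n) _ (by
      have : 0 ≤ Real.log n := by linarith
      positivity) hb1 hb2
  exact V1_num A E n (Real.log n) _ (by linarith) hL hcs

end Pool.Agent.Lib.H57C
end

-- from Lib.H57C.V2
section

/-!
# Chunk V2: the bilinear Bombieri-Vinogradov theorem, all classes at once, with weights
-/

open Finset

namespace Pool.Agent.Lib.H57C

open Pool.Agent.Lib.H59C

/-- solutions of a linear congruence -/
theorem V2_one (d a m y : ℕ) (hd : 1 ≤ d) (ha : a.Coprime d) :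
    (((Icc 1 y).filter (fun q => m * q ≡ a [MOD d])).card : ℝ) ≤ y / d + 1 := by
  rcases ((Icc 1 y).filter (fun q => m * q ≡ a [MOD d])).eq_empty_or_nonempty with h | ⟨q0, h⟩
  · rw [h, card_empty]
    push_cast
    positivity
  · rw [mem_filter] at h
    have h1 : (m * q0).Coprime d := by
      rw [Nat.Coprime, h.2.gcd_eq]
      exact ha
    have h2 : d.Coprime m := (Nat.Coprime.coprime_mul_right h1).symm
    refine le_trans ?_ (bv2_card y d q0 hd)
    have h3 : ((Icc 1 y).filter (fun q => m * q ≡ a [MOD d])).card ≤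
        ((Icc 1 y).filter (fun q => q ≡ q0 [MOD d])).card := by
      apply card_le_card
      apply monotone_filter_right
      intro q _ hq
      exact Nat.ModEq.cancel_left_of_coprime h2 (hq.trans h.2.symm)
    exact_mod_cast h3

/-- the number of pairs -/
theorem V2_count (n d a M v : ℕ) (hd : 1 ≤ d) (hdn : (d : ℝ) ≤ Real.sqrt n) (ha : a.Coprime d)
    (hMv : M * v ≤ 8 * n) :
    ∑ m ∈ Icc 1 M, (((Icc 1 v).filter (fun q => m * q ≡ a [MOD d])).card : ℝ) ≤ 11 * n / d := by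
  have hd0 : (0 : ℝ) < d := by exact_mod_cast hd
  have h1 : ∑ m ∈ Icc 1 M, (((Icc 1 v).filter (fun q => m * q ≡ a [MOD d])).card : ℝ) ≤
      M * (v / d + 1) := by
    refine (sum_le_sum fun m _ => V2_one d a m v hd ha).trans ?_
    rw [sum_const, nsmul_eq_mul, Nat.card_Icc]
    simp
  have h2 : ∑ m ∈ Icc 1 M, (((Icc 1 v).filter (fun q => m * q ≡ a [MOD d])).card : ℝ) ≤
      v * (M / d + 1) := by
    have e1 : ∑ m ∈ Icc 1 M, (((Icc 1 v).filter (fun q => m * q ≡ a [MOD d])).card : ℝ) =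
        ∑ q ∈ Icc 1 v, (((Icc 1 M).filter (fun m => q * m ≡ a [MOD d])).card : ℝ) := by
      simp only [card_filter, Nat.cast_sum]
      rw [sum_comm]
      apply sum_congr rfl
      intro q _
      apply sum_congr rfl
      intro m _
      rw [mul_comm m q]
    rw [e1]
    refine (sum_le_sum fun q _ => V2_one d a q M hd ha).trans ?_
    rw [sum_const, nsmul_eq_mul, Nat.card_Icc]
    simp
  obtain ⟨c, hc⟩ : ∃ c : ℝ, c = ∑ m ∈ Icc 1 M,
    (((Icc 1 v).filter (fun q => m * q ≡ a [MOD d])).card : ℝ) := ⟨_, rfl⟩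
  rw [← hc] at h1 h2 ⊢
  have hM0 : (0 : ℝ) ≤ M := Nat.cast_nonneg _
  have hv0 : (0 : ℝ) ≤ v := Nat.cast_nonneg _
  have hMvR : (M : ℝ) * v ≤ 8 * n := by exact_mod_cast hMv
  have h3 : c - M * v / d ≤ M := by
    have : (M : ℝ) * (v / d + 1) = M * v / d + M := by ring
    linarith
  have h4 : c - M * v / d ≤ v := by
    have : (v : ℝ) * (M / d + 1) = M * v / d + v := by ring
    linarith
  have hs := Real.sqrt_nonneg n
  have hss : Real.sqrt n * Real.sqrt n = n := Real.mul_self_sqrt (Nat.cast_nonneg _)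
  have h5 : c - M * v / d ≤ 3 * Real.sqrt n := by
    rcases le_or_gt (c - M * v / d) 0 with h | h
    · linarith
    · by_contra h6
      push Not at h6
      have h7 : (3 * Real.sqrt n) * (3 * Real.sqrt n) < M * v :=
        mul_lt_mul'' (h6.trans_le h3) (h6.trans_le h4) (by positivity) (by positivity)
      have h8 : (0 : ℝ) ≤ n := Nat.cast_nonneg _
      nlinarith
  have h6 : Real.sqrt n ≤ n / d := by
    rw [le_div_iff₀ hd0]
    nlinarith
  have h7 : (M : ℝ) * v / d ≤ 8 * n / d := div_le_div_of_nonneg_right hMvR hd0.le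
  have h8 : 11 * (n : ℝ) / d = 8 * n / d + 3 * (n / d) := by ring
  linarith

/-- the difference -/
noncomputable def V2_f (M u v d : ℕ) (α : ℕ → ℝ) (a : ℕ) : ℝ :=
  |∑ m ∈ Icc 1 M, α m * ∑ q ∈ (Ioc u v).filter (fun q => q.Prime ∧ m * q ≡ a [MOD d]),
      Real.log q -
    1 / (Nat.totient d : ℝ) * ((∑ m ∈ (Icc 1 M).filter (fun m => m.Coprime d), α m) *
      ∑ q ∈ (Ioc u v).filter (fun q => q.Prime ∧ q.Coprime d), Real.log q)|

theorem V2_mod (M u v d : ℕ) (α : ℕ → ℝ) (a : ℕ) : V2_f M u v d α (a % d) = V2_f M u v d α a := by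
  unfold V2_f
  have h : ∀ m, (Ioc u v).filter (fun q => q.Prime ∧ m * q ≡ a % d [MOD d]) =
      (Ioc u v).filter (fun q => q.Prime ∧ m * q ≡ a [MOD d]) := by
    intro m
    apply filter_congr
    intro q _
    rw [Nat.ModEq, Nat.ModEq, Nat.mod_mod]
  simp only [h]

theorem V2_triv (n M u v d : ℕ) (α : ℕ → ℝ) (a : ℕ) (hn : 8 ≤ n) (hL : 500 ≤ Real.log n)
    (hα : ∀ m, |α m| ≤ 1) (hM : 1 ≤ M) (hv : 1 ≤ v) (hMv : M * v ≤ 8 * n) (hd : 1 ≤ d)
    (hdn : (d : ℝ) ≤ Real.sqrt n) (ha : a.Coprime d) :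
    V2_f M u v d α a ≤ 100 * n * Real.log n * (1 / (Nat.totient d : ℝ)) := by
  have hnR : (8 : ℝ) ≤ n := by exact_mod_cast hn
  have hd0 : (0 : ℝ) < d := by exact_mod_cast hd
  have hphi : (0 : ℝ) < Nat.totient d := by exact_mod_cast Nat.totient_pos.2 (by omega)
  have hphi2 : (Nat.totient d : ℝ) ≤ d := by exact_mod_cast Nat.totient_le d
  have hvn : v ≤ 8 * n := (Nat.le_mul_of_pos_left v hM).trans hMv
  have hlv : Real.log v ≤ 2 * Real.log n := by
    have h1 : Real.log v ≤ Real.log (8 * n) := Real.log_le_log (by exact_mod_cast hv)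
      (by exact_mod_cast hvn)
    rw [Real.log_mul (by norm_num) (by positivity)] at h1
    have h2 : Real.log 8 ≤ Real.log n := Real.log_le_log (by norm_num) hnR
    linarith
  have hlv0 : 0 ≤ Real.log v := Real.log_natCast_nonneg v
  have hMvR : (M : ℝ) * v ≤ 8 * n := by exact_mod_cast hMv
  have hlq : ∀ q ∈ Ioc u v, 0 ≤ Real.log q ∧ Real.log q ≤ Real.log v := by
    intro q hq
    rw [mem_Ioc] at hq
    refine ⟨Real.log_natCast_nonneg q, ?_⟩
    apply Real.log_le_log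
    · have : 0 < q := by omega
      exact_mod_cast this
    · exact_mod_cast hq.2
  -- first sum
  have h1 : |∑ m ∈ Icc 1 M, α m * ∑ q ∈ (Ioc u v).filter (fun q => q.Prime ∧ m * q ≡ a [MOD d]),
      Real.log q| ≤ Real.log v * (11 * n / d) := by
    refine (abs_sum_le_sum_abs _ _).trans ?_
    refine le_trans ?_ (mul_le_mul_of_nonneg_left (V2_count n d a M v hd hdn ha hMv) hlv0)
    rw [mul_sum]
    apply sum_le_sum
    intro m _
    rw [abs_mul]
    have h2 : |∑ q ∈ (Ioc u v).filter (fun q => q.Prime ∧ m * q ≡ a [MOD d]), Real.log q| ≤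
        Real.log v * (((Icc 1 v).filter (fun q => m * q ≡ a [MOD d])).card : ℝ) := by
      rw [abs_of_nonneg (sum_nonneg fun q hq => (hlq q (mem_filter.1 hq).1).1)]
      refine (sum_le_sum fun q hq => (hlq q (mem_filter.1 hq).1).2).trans ?_
      rw [sum_const, nsmul_eq_mul, mul_comm]
      apply mul_le_mul_of_nonneg_left _ hlv0
      have h3 : ((Ioc u v).filter (fun q => q.Prime ∧ m * q ≡ a [MOD d])).card ≤
          ((Icc 1 v).filter (fun q => m * q ≡ a [MOD d])).card := by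
        apply card_le_card
        intro q hq
        rw [mem_filter, mem_Ioc] at hq
        rw [mem_filter, mem_Icc]
        exact ⟨⟨by omega, hq.1.2⟩, hq.2.2⟩
      exact_mod_cast h3
    calc |α m| * |∑ q ∈ (Ioc u v).filter (fun q => q.Prime ∧ m * q ≡ a [MOD d]), Real.log q|
        ≤ 1 * (Real.log v * (((Icc 1 v).filter (fun q => m * q ≡ a [MOD d])).card : ℝ)) :=
          mul_le_mul (hα m) h2 (abs_nonneg _) (by norm_num)
      _ = _ := one_mul _
  -- main term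
  have h2 : |1 / (Nat.totient d : ℝ) * ((∑ m ∈ (Icc 1 M).filter (fun m => m.Coprime d), α m) *
      ∑ q ∈ (Ioc u v).filter (fun q => q.Prime ∧ q.Coprime d), Real.log q)| ≤
      1 / (Nat.totient d : ℝ) * (M * (v * Real.log v)) := by
    rw [abs_mul, abs_mul, abs_of_nonneg (by positivity : (0 : ℝ) ≤ 1 / (Nat.totient d : ℝ))]
    apply mul_le_mul_of_nonneg_left _ (by positivity)
    apply mul_le_mul _ _ (abs_nonneg _) (Nat.cast_nonneg _)
    · refine (abs_sum_le_sum_abs _ _).trans ((sum_le_sum fun m _ => hα m).trans ?_)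
      rw [sum_const, nsmul_eq_mul, mul_one]
      have h3 : ((Icc 1 M).filter (fun m => m.Coprime d)).card ≤ M := by
        refine (card_filter_le _ _).trans ?_
        rw [Nat.card_Icc]
        omega
      exact_mod_cast h3
    · rw [abs_of_nonneg (sum_nonneg fun q hq => (hlq q (mem_filter.1 hq).1).1)]
      refine (sum_le_sum fun q hq => (hlq q (mem_filter.1 hq).1).2).trans ?_
      rw [sum_const, nsmul_eq_mul]
      apply mul_le_mul_of_nonneg_right _ hlv0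
      have h3 : ((Ioc u v).filter (fun q => q.Prime ∧ q.Coprime d)).card ≤ v := by
        refine (card_filter_le _ _).trans ?_
        rw [Nat.card_Ioc]
        omega
      exact_mod_cast h3
  unfold V2_f
  refine (abs_sub _ _).trans ((add_le_add h1 h2).trans ?_)
  have h3 : Real.log v * (11 * n / d) ≤ 22 * (n * Real.log n * (1 / (Nat.totient d : ℝ))) := by
    have h4 : 11 * (n : ℝ) / d ≤ 11 * n / Nat.totient d :=
      div_le_div_of_nonneg_left (by positivity) hphi hphi2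
    calc Real.log v * (11 * n / d) ≤ (2 * Real.log n) * (11 * n / Nat.totient d) :=
          mul_le_mul hlv h4 (by positivity) (by linarith)
      _ = _ := by ring
  have h4 : 1 / (Nat.totient d : ℝ) * (M * (v * Real.log v)) ≤
      16 * (n * Real.log n * (1 / (Nat.totient d : ℝ))) := by
    have h5 : (M : ℝ) * (v * Real.log v) ≤ 8 * n * (2 * Real.log n) := by
      rw [← mul_assoc]
      exact mul_le_mul hMvR hlv hlv0 (by positivity)
    calc 1 / (Nat.totient d : ℝ) * (M * (v * Real.log v)) ≤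
        1 / (Nat.totient d : ℝ) * (8 * n * (2 * Real.log n)) :=
          mul_le_mul_of_nonneg_left h5 (by positivity)
      _ = _ := by ring
  have h5 : 0 ≤ (n : ℝ) * Real.log n * (1 / (Nat.totient d : ℝ)) := by
    have : 0 < Real.log n := by linarith
    positivity
  linarith

/-- Proof. As for `bvw` (file V1, not imported), from `bv_bilf`: `rr d` = the maximum of the left side over the classes `a < d` prime
to `d`. Trivial bound: the number of pairs `(m, q)`, `m ≤ M`, `u < q ≤ v`, `m q ≡ a mod d`, weighted with `log q ≤ 2 L`, is at most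
`2 L ∑_{k ≤ 8 n, k ≡ a (d)} τ(k)`; to avoid the divisor function: for every `m` prime to `d` the `q ≤ v` with `m q ≡ a` are in one
class mod `d`, at most `v/d + 1` of them, and for every `q` prime to `d` at most `M/d + 1` of the `m`
(if `m` is not prime to `d` there is no solution, as `a` is prime to `d`). So the count is `≤ min (M (v/d + 1), v (M/d + 1))
≤ M v/d + min (M, v) ≤ 8 n/d + √(8 n)`, and `d ≤ √n`: at most `12 n/d`. The main term is `≤ M v log v/φ(d)`. So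
`rr d ≤ 100 n L/φ(d)`. Cauchy-Schwarz as in V1. -/
theorem bilw (A E : ℕ) : ∃ A' B n0 : ℕ, ∀ n : ℕ, n0 ≤ n → ∀ p1 : ℕ, SWp A' n p1 →
    ∀ (M u v : ℕ) (α : ℕ → ℝ), (∀ m, |α m| ≤ 1) → (n : ℝ) ^ (1 / 4 : ℝ) ≤ M →
    (n : ℝ) ^ (1 / 4 : ℝ) ≤ v → u ≤ v → M * v ≤ 8 * n → ∃ rr : ℕ → ℝ, (∀ d, 0 ≤ rr d) ∧
      (∀ d, 1 ≤ d → d ≤ DD n B → ¬ p1 ∣ d → ∀ a : ℕ, a.Coprime d →
        |∑ m ∈ Icc 1 M, α m * ∑ q ∈ (Ioc u v).filter (fun q => q.Prime ∧ m * q ≡ a [MOD d]),
            Real.log q -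
          1 / (Nat.totient d : ℝ) * ((∑ m ∈ (Icc 1 M).filter (fun m => m.Coprime d), α m) *
            ∑ q ∈ (Ioc u v).filter (fun q => q.Prime ∧ q.Coprime d), Real.log q)| ≤ rr d) ∧
      ∑ d ∈ (Icc 1 (DD n B)).filter (fun d => ¬ p1 ∣ d),
        (E : ℝ) ^ d.primeFactors.card * rr d ≤ n / Real.log n ^ A := by
  obtain ⟨A', B, n0, hbv⟩ := bv_bilf (2 * A + 4 * E ^ 2 + 10)
  obtain ⟨n1, hn1, hlog⟩ := V1_ev
  refine ⟨A', B, max n0 n1, fun n hn p1 hSW M u v α hα hM hv huv hMv => ?_⟩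
  have hn8 : 8 ≤ n := hn1.trans ((le_max_right _ _).trans hn)
  have hL := hlog n ((le_max_right _ _).trans hn)
  have hnR : (8 : ℝ) ≤ n := by exact_mod_cast hn8
  have hn4 : (1 : ℝ) ≤ (n : ℝ) ^ (1 / 4 : ℝ) := Real.one_le_rpow (by linarith) (by norm_num)
  have hM1 : 1 ≤ M := by exact_mod_cast hn4.trans hM
  have hv1 : 1 ≤ v := by exact_mod_cast hn4.trans hv
  have hex : ∀ d : ℕ, 1 ≤ d → ∃ a0 : ℕ, a0.Coprime d ∧ ∀ a : ℕ, a.Coprime d →
      V2_f M u v d α a ≤ V2_f M u v d α a0 :=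
    fun d hd => V1_max d hd (V2_f M u v d α) (V2_mod M u v d α)
  choose! a ha hmax using hex
  refine ⟨fun d => V2_f M u v d α (a d), fun _ => abs_nonneg _,
    fun d hd _ _ b hb => hmax d hd b hb, ?_⟩
  have hDs : (DD n B : ℝ) ≤ Real.sqrt n := by
    unfold DD
    refine (Nat.floor_le (by positivity)).trans ?_
    exact div_le_self (Real.sqrt_nonneg _) (one_le_pow₀ (by linarith))
  have hDn : DD n B ≤ n := by
    have h1 : Real.sqrt n ≤ n := by
      rw [Real.sqrt_le_left (by linarith)]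
      nlinarith
    exact_mod_cast hDs.trans h1
  have hsub : (Icc 1 (DD n B)).filter (fun d => ¬ p1 ∣ d) ⊆ Icc 1 n := by
    intro d hd
    rw [mem_filter, mem_Icc] at hd
    rw [mem_Icc]
    exact ⟨hd.1.1, hd.1.2.trans hDn⟩
  have hb1 : ∑ d ∈ (Icc 1 (DD n B)).filter (fun d => ¬ p1 ∣ d), V2_f M u v d α (a d) ≤
      n / Real.log n ^ (2 * A + 4 * E ^ 2 + 10) := by
    have h1 := hbv n ((le_max_left _ _).trans hn) p1 hSW a M u v α hα hM hv huv hMv
    have h2 : (Icc 1 (DD n B)).filter (fun d => (a d).Coprime d ∧ ¬ p1 ∣ d) =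
        (Icc 1 (DD n B)).filter (fun d => ¬ p1 ∣ d) := by
      apply filter_congr
      intro d hd
      rw [mem_Icc] at hd
      exact ⟨fun h => h.2, fun h => ⟨ha d hd.1, h⟩⟩
    rwa [h2] at h1
  have hb2 : ∀ d ∈ (Icc 1 (DD n B)).filter (fun d => ¬ p1 ∣ d),
      V2_f M u v d α (a d) ≤ 100 * n * Real.log n * (1 / (Nat.totient d : ℝ)) := by
    intro d hd
    have hd' := mem_Icc.1 (hsub hd)
    rw [mem_filter, mem_Icc] at hd
    have hdn : (d : ℝ) ≤ Real.sqrt n := le_trans (by exact_mod_cast hd.1.2) hDs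
    exact V2_triv n M u v d α (a d) hn8 hL hα hM1 hv1 hMv hd'.1 hdn (ha d hd'.1)
  have hcs := V1_cs E n (by omega) _ hsub
    (fun d => V2_f M u v d α (a d)) (fun _ => abs_nonneg _)
    (100 * n * Real.log n) _ (by
      have : 0 ≤ Real.log n := by linarith
      positivity) hb1 hb2
  exact V1_num A E n (Real.log n) _ (by linarith) hL hcs

end Pool.Agent.Lib.H57C
end

-- from Lib.H57C.V3
section

/-!
# Chunk V3: level of distribution of the `t` with `t + h` prime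
-/

open Finset

namespace Pool.Agent.Lib.H57C

open Pool.Agent.Lib.H59C

/-- the product of `1/(q-1)` -/
theorem V3_gq (m : ℕ) (hm : Squarefree m) :
    ∏ q ∈ m.primeFactors, gq q = 1 / (Nat.totient m : ℝ) := by
  have h1 : Nat.totient m = ∏ q ∈ m.primeFactors, (q - 1) := by
    have h2 := Nat.totient_mul_prod_primeFactors m
    rw [Nat.prod_primeFactors_of_squarefree hm, mul_comm] at h2
    exact Nat.eq_of_mul_eq_mul_left (Nat.pos_of_ne_zero hm.ne_zero) h2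
  rw [h1]
  push_cast
  rw [one_div, ← prod_inv_distrib]
  apply prod_congr rfl
  intro q hq
  have h3 := (Nat.prime_of_mem_primeFactors hq).one_le
  unfold gq
  rw [one_div, Nat.cast_sub h3, Nat.cast_one]

theorem V3_coprime (a m : ℕ) (hm : m ≠ 0) (h : ∀ q ∈ m.primeFactors, ¬ q ∣ a) : a.Coprime m := by
  by_contra hc
  obtain ⟨q, hq, ha, hqm⟩ := Nat.Prime.not_coprime_iff_dvd.1 hc
  exact h q (Nat.mem_primeFactors.2 ⟨hq, hqm, hm⟩) ha

theorem V3_sum (m h y1 y2 c : ℕ) (hy : h ≤ y1) (h12 : y1 ≤ y2) :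
    ∑ p ∈ (Sq y1 y2).filter (fun p => p - h ≡ c [MOD m]), lg p =
      thp y2 m (c + h) - thp y1 m (c + h) := by
  have h0 : ∀ p ∈ Ioc y1 y2, (p - h ≡ c [MOD m] ↔ p ≡ c + h [MOD m]) := by
    intro p hp
    rw [mem_Ioc] at hp
    have h3 : p - h + h = p := by omega
    constructor
    · intro h1
      have h2 := Nat.ModEq.add_right h h1
      rwa [h3] at h2
    · intro h1
      rw [← h3] at h1
      exact Nat.ModEq.add_right_cancel' h h1
  unfold thp Sq lg
  rw [filter_filter]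
  have h1 : (Icc 1 y2).filter (fun q => q.Prime ∧ q ≡ c + h [MOD m]) =
      (Icc 1 y1).filter (fun q => q.Prime ∧ q ≡ c + h [MOD m]) ∪
        (Ioc y1 y2).filter (fun q => q.Prime ∧ q ≡ c + h [MOD m]) := by
    ext q
    simp only [mem_filter, mem_Icc, mem_union, mem_Ioc]
    constructor
    · rintro ⟨⟨h1, h2⟩, h3⟩
      rcases le_or_gt q y1 with h4 | h4
      · left; exact ⟨⟨h1, h4⟩, h3⟩
      · right; exact ⟨⟨h4, h2⟩, h3⟩
    · rintro (⟨⟨h1, h2⟩, h3⟩ | ⟨⟨h1, h2⟩, h3⟩)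
      · exact ⟨⟨h1, by omega⟩, h3⟩
      · exact ⟨⟨by omega, h2⟩, h3⟩
  have h2 : Disjoint ((Icc 1 y1).filter (fun q => q.Prime ∧ q ≡ c + h [MOD m]))
      ((Ioc y1 y2).filter (fun q => q.Prime ∧ q ≡ c + h [MOD m])) := by
    rw [Finset.disjoint_left]
    intro q hq hq'
    simp only [mem_filter, mem_Icc, mem_Ioc] at hq hq'
    omega
  rw [h1, sum_union h2]
  have h3 : (Ioc y1 y2).filter (fun a => a.Prime ∧ a - h ≡ c [MOD m]) =
      (Ioc y1 y2).filter (fun q => q.Prime ∧ q ≡ c + h [MOD m]) := by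
    apply filter_congr
    intro p hp
    rw [h0 p hp]
  rw [h3]
  ring

/-- Proof. `bvw (A + 1) E` at `y2` and at `y1`, `rr = rr_2 + rr_1`. For `m` squarefree and a class `c` with `¬ q ∣ c + h` for all
`q ∣ m`: `(c + h).Coprime m`; for a prime `p ∈ (y1, y2]`, `p ≥ h`: `p - h ≡ c` iff `p ≡ c + h [MOD m]`, so the sum is
`thp y2 m (c + h) - thp y1 m (c + h)`, `XX y1 y2 = th y2 - th y1` (`XX_eq`), and `∏_{q ∣ m} gq q = 1/φ(m)` (`m` squarefree,
`Nat.totient_eq_prod_factorization` or `Nat.prod_primeFactors_of_squarefree`). `2 n/L^(A+1) ≤ n/L^A`. -/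
theorem lvlB (A E : ℕ) : ∃ A' B n0 : ℕ, ∀ n : ℕ, n0 ≤ n → ∀ p1 : ℕ, SWp A' n p1 →
    ∀ h y1 y2 : ℕ, h ≤ y1 → y1 ≤ y2 → y2 ≤ 2 * n →
      Lvl (sB h y1 y2) p1 (DD n B) E (n / Real.log n ^ A) := by
  obtain ⟨A', B, n0, hbv⟩ := bvw (A + 1) E
  obtain ⟨n1, hn1, hlog⟩ := V1_ev
  refine ⟨A', B, max n0 n1, fun n hn p1 hSW h y1 y2 hy h12 hy2 => ?_⟩
  have hL := hlog n ((le_max_right _ _).trans hn)
  obtain ⟨r1, h01, hr1, hs1⟩ := hbv n ((le_max_left _ _).trans hn) p1 hSW y1 (by omega)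
  obtain ⟨r2, h02, hr2, hs2⟩ := hbv n ((le_max_left _ _).trans hn) p1 hSW y2 (by omega)
  refine ⟨fun d => r1 d + r2 d, fun d => add_nonneg (h01 d) (h02 d), ?_, ?_⟩
  · intro m hm hmD hp1 c hc
    have hm1 : 1 ≤ m := Nat.pos_of_ne_zero hm.ne_zero
    have hcop : (c + h).Coprime m := V3_coprime _ _ hm.ne_zero hc
    have e1 := hr1 m hm1 hmD hp1 _ hcop
    have e2 := hr2 m hm1 hmD hp1 _ hcop
    have e3 : ∑ i ∈ (sB h y1 y2).S.filter (fun i => (sB h y1 y2).x i ≡ c [MOD m]),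
        (sB h y1 y2).wt i - (sB h y1 y2).X * ∏ q ∈ m.primeFactors, (sB h y1 y2).hd q =
        (thp y2 m (c + h) - th y2 / (Nat.totient m : ℝ)) -
          (thp y1 m (c + h) - th y1 / (Nat.totient m : ℝ)) := by
      change ∑ p ∈ (Sq y1 y2).filter (fun p => p - h ≡ c [MOD m]), lg p -
        XX y1 y2 * ∏ q ∈ m.primeFactors, gq q = _
      rw [V3_sum m h y1 y2 c hy h12, V3_gq m hm, XX_eq h12]
      ring
    rw [e3]
    refine (abs_sub _ _).trans ((add_le_add e2 e1).trans ?_)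
    rw [add_comm]
  · have e1 : ∑ m ∈ (Icc 1 (DD n B)).filter (fun m => Squarefree m ∧ ¬ p1 ∣ m),
        (E : ℝ) ^ m.primeFactors.card * (r1 m + r2 m) ≤
        ∑ m ∈ (Icc 1 (DD n B)).filter (fun m => ¬ p1 ∣ m),
          (E : ℝ) ^ m.primeFactors.card * (r1 m + r2 m) := by
      apply sum_le_sum_of_subset_of_nonneg
      · exact monotone_filter_right _ fun m _ hm => hm.2
      · intro m _ _
        have := h01 m
        have := h02 m
        positivity
    refine e1.trans ?_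
    simp only [mul_add]
    rw [sum_add_distrib]
    refine (add_le_add hs1 hs2).trans ?_
    have hL0 : 0 < Real.log n := by linarith
    have e2 : (n : ℝ) / Real.log n ^ (A + 1) + n / Real.log n ^ (A + 1) =
        n / Real.log n ^ A * (2 / Real.log n) := by
      rw [pow_succ]
      field_simp
      ring
    rw [e2]
    have e3 : 2 / Real.log n ≤ 1 := by
      rw [div_le_one hL0]
      linarith
    calc (n : ℝ) / Real.log n ^ A * (2 / Real.log n) ≤ n / Real.log n ^ A * 1 :=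
          mul_le_mul_of_nonneg_left e3 (by positivity)
      _ = _ := mul_one _

end Pool.Agent.Lib.H57C
end

-- from Lib.H57C.V4
section

/-!
# Chunk V4: level of distribution of the switched sequence
-/

open Finset

namespace Pool.Agent.Lib.H57C

open Pool.Agent.Lib.H59C

theorem V4_cast (n m : ℕ) (hm1 : 1 ≤ m) (hmn : m ≤ n) : ((n.factorial - 1 : ℕ) : ZMod m) = -1 := by
  have h1 : ((n.factorial : ℕ) : ZMod m) = 0 :=
    (ZMod.natCast_eq_zero_iff _ _).2 (Nat.dvd_factorial hm1 hmn)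
  rw [Nat.cast_sub (Nat.factorial_pos n), h1]
  simp

theorem V4_iff (n m : ℕ) (hm1 : 1 ≤ m) (hmn : m ≤ n) (x : ℕ × ℕ) (c : ℕ) :
    xv n x ≡ c [MOD m] ↔ x.1 * x.2 ≡ n + (n.factorial - 1) * c [MOD m] := by
  rw [← ZMod.natCast_eq_natCast_iff, ← ZMod.natCast_eq_natCast_iff]
  unfold xv
  rw [Nat.cast_add, Nat.cast_mul (n.factorial - 1), Nat.cast_add, Nat.cast_mul (n.factorial - 1),
    V4_cast n m hm1 hmn]
  constructor
  · intro h
    linear_combination -h
  · intro h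
    linear_combination -h

theorem V4_cop (n m c : ℕ) (hm : Squarefree m) (hmn : m ≤ n)
    (hc : ∀ q ∈ m.primeFactors, ¬ c ≡ n [MOD q]) : (n + (n.factorial - 1) * c).Coprime m := by
  refine V3_coprime _ _ hm.ne_zero ?_
  intro q hq hd
  apply hc q hq
  have hq' := Nat.mem_primeFactors.1 hq
  have hqn : q ≤ n := (Nat.le_of_dvd (Nat.pos_of_ne_zero hm.ne_zero) hq'.2.1).trans hmn
  have h1 := (ZMod.natCast_eq_zero_iff _ _).2 hd
  rw [Nat.cast_add, Nat.cast_mul, V4_cast n q hq'.1.one_le hqn] at h1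
  rw [← ZMod.natCast_eq_natCast_iff]
  linear_combination -h1

open Classical in
theorem V4_S (n M u v m c a : ℕ) (α : ℕ → ℝ)
    (h : ∀ x : ℕ × ℕ, xv n x ≡ c [MOD m] ↔ x.1 * x.2 ≡ a [MOD m]) :
    ∑ x ∈ (BX M u v).filter (fun x => xv n x ≡ c [MOD m]), wB α x =
      ∑ k ∈ Icc 1 M, α k * ∑ q ∈ (Ioc u v).filter (fun q => q.Prime ∧ k * q ≡ a [MOD m]),
        Real.log q := by
  unfold BX
  rw [sum_filter, sum_product]
  refine sum_congr rfl fun k _ => ?_
  unfold Sq wB lg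
  rw [mul_sum, ← filter_filter, sum_filter (s := (Ioc u v).filter Nat.Prime)]
  refine sum_congr rfl fun q _ => ?_
  by_cases hq : k * q ≡ a [MOD m]
  · rw [if_pos hq, if_pos ((h (k, q)).2 hq)]
  · rw [if_neg hq, if_neg (fun h' => hq ((h (k, q)).1 h'))]

/-- Proof. `bilw (A + 1) E`. Let `m ≤ DD n B` be squarefree (so `m ≤ n`, `m ∣ n!`), `c` a class with `¬ c ≡ n [MOD q]` for all
`q ∣ m`. `xv n x = n + (n! - 1) x1 x2 ≡ c` mod `m` iff `x1 x2 ≡ a`, `a = n + (n! - 1) c` (both sides times `-1 ≡ n! - 1`), and `a` is prime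
to `m` (`a ≡ n - c`). So the sum over the class is the sum of `bilw` (`CBR_S`-like), and the main terms
`XB M u v α/φ(m)` and `(1/φ(m)) (∑_{(m',m)=1} α)(∑_{(q,m)=1} log q)` differ by at most `(1/φ(m)) 40 (log n)^2 n^(9/10)`
(`CBR_A`, `CBR_Q`, `CBR_main`, `CBR_num` in `H59C/CBR.lean`, with `y = n^(1/10)`). So `rr m = rr_bil m + 40 L^2 n^(9/10)/φ(m)`,
and `∑_{m ≤ n} E^ω(m)/φ(m) ≤ n^(1/100)` for large `n` (as in V1, or `E^ω(m) ≤ C m^(1/1000)`). -/
theorem lvlC (A E : ℕ) : ∃ A' B n0 : ℕ, ∀ n : ℕ, n0 ≤ n → ∀ p1 : ℕ, p1.Prime → SWp A' n p1 →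
    ∀ (M u v : ℕ) (α : ℕ → ℝ), (∀ m, 0 ≤ α m ∧ α m ≤ 1) →
    (∀ m, α m ≠ 0 → ∀ r : ℕ, r.Prime → r ∣ m → (n : ℝ) ^ (1 / 10 : ℝ) ≤ r) →
    (n : ℝ) ^ (1 / 4 : ℝ) ≤ M → (n : ℝ) ^ (1 / 4 : ℝ) ≤ v → u ≤ v → M * v ≤ 8 * n →
      Lvl (sC n M u v α) p1 (DD n B) E (n / Real.log n ^ A) := by
  obtain ⟨A', B, n1, hbil⟩ := bilw (A + 1) E
  obtain ⟨n2, hn2⟩ := bv2_large 500 (A + 4 * E + 6)
  refine ⟨A', B, max n1 (max n2 8), fun n hn p1 hp1 hSW M u v α hα hαr hM hv huv hMv => ?_⟩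
  have hn1' : n1 ≤ n := (le_max_left _ _).trans hn
  have hn2' : n2 ≤ n := ((le_max_left _ _).trans (le_max_right _ _)).trans hn
  have hn8 : 8 ≤ n := ((le_max_right _ _).trans (le_max_right _ _)).trans hn
  obtain ⟨hL, hLn⟩ := hn2 n hn2'
  have hn1 : (1 : ℝ) ≤ n := by
    have : 1 ≤ n := by omega
    exact_mod_cast this
  have hn0 : (0 : ℝ) < n := by linarith
  obtain ⟨rb, hrb0, hrb, hrbs⟩ := hbil n hn1' p1 hSW M u v α (fun m => by
    rw [abs_of_nonneg (hα m).1]; exact (hα m).2) hM hv huv hMv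
  set D := DD n B with hD
  set L := Real.log n with hLdef
  have hL0 : 0 < L := by linarith
  have hDn : D ≤ n := by
    have h1 : (D : ℝ) ≤ Real.sqrt n / L ^ B := by
      rw [hD]
      unfold DD
      exact Nat.floor_le (by positivity)
    have h2 : Real.sqrt n / L ^ B ≤ Real.sqrt n :=
      div_le_self (Real.sqrt_nonneg _) (one_le_pow₀ (by linarith))
    have h3 : Real.sqrt n ≤ n := by
      rw [Real.sqrt_le_left (by linarith)]
      nlinarith
    have h4 : (D : ℝ) ≤ n := by linarith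
    exact_mod_cast h4
  set W : ℝ := 40 * L ^ 2 * ((n : ℝ) / (n : ℝ) ^ (1 / 10 : ℝ)) with hW
  have hW0 : 0 ≤ W := by positivity
  refine ⟨fun m => rb m + 1 / (Nat.totient m : ℝ) * W, fun m => add_nonneg (hrb0 m)
    (by positivity), ?_, ?_⟩
  · intro m hm hmD hpm c hc
    have hd1 : 1 ≤ m := Nat.pos_of_ne_zero hm.ne_zero
    have hmn : m ≤ n := hmD.trans hDn
    obtain ⟨a, ha⟩ : ∃ a : ℕ, a = n + (n.factorial - 1) * c := ⟨_, rfl⟩
    have ha1 : ∀ x : ℕ × ℕ, xv n x ≡ c [MOD m] ↔ x.1 * x.2 ≡ a [MOD m] := by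
      intro x
      rw [ha]
      exact V4_iff n m hd1 hmn x c
    have hcop : a.Coprime m := by
      rw [ha]
      exact V4_cop n m c hm hmn hc
    have hb := hrb m hd1 hmD hpm a hcop
    have hph : (0 : ℝ) < Nat.totient m := by exact_mod_cast Nat.totient_pos.2 hd1
    have hAd0 : 0 ≤ ∑ k ∈ (Icc 1 M).filter (fun k => k.Coprime m), α k :=
      sum_nonneg fun k _ => (hα k).1
    have hAdM : ∑ k ∈ (Icc 1 M).filter (fun k => k.Coprime m), α k ≤ M := by
      refine (sum_le_sum fun k _ => (hα k).2).trans ?_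
      rw [sum_const, nsmul_eq_mul, mul_one]
      have : ((Icc 1 M).filter (fun k => k.Coprime m)).card ≤ M := by
        refine (card_filter_le _ _).trans ?_
        simp
      exact_mod_cast this
    have hAA : 0 ≤ ∑ k ∈ Icc 1 M, α k - ∑ k ∈ (Icc 1 M).filter (fun k => k.Coprime m), α k := by
      rw [sub_nonneg]
      exact sum_le_sum_of_subset_of_nonneg (filter_subset _ _) fun k _ _ => (hα k).1
    have hAA' := CBR_A M m hd1 α hα ((n : ℝ) ^ (1 / 10 : ℝ)) (Real.rpow_pos_of_pos hn0 _) hαr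
    obtain ⟨hQ1, hQ2⟩ := CBR_Q u v m hd1
    have hmain := CBR_main hAA (by convert hAA' using 2) (CBR_XX_nonneg u v)
      (by convert hQ1 using 2) (by convert hQ2 using 2) hAd0 hAdM
    have hnum := CBR_num hn8 (by linarith) hd1 hmn hv hMv u huv
    have hm2 := hmain.trans hnum
    have hS : ∑ x ∈ (sC n M u v α).S.filter (fun x => (sC n M u v α).x x ≡ c [MOD m]),
        (sC n M u v α).wt x = ∑ k ∈ Icc 1 M, α k *
          ∑ q ∈ (Ioc u v).filter (fun q => q.Prime ∧ k * q ≡ a [MOD m]), Real.log q := by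
      have h := V4_S n M u v m c a α ha1
      change ∑ x ∈ (BX M u v).filter (fun x => xv n x ≡ c [MOD m]), wB α x = _
      convert h using 2
    have hprod : (sC n M u v α).X * ∏ q ∈ m.primeFactors, (sC n M u v α).hd q =
        H59C.XB M u v α / (Nat.totient m : ℝ) := by
      change H59C.XB M u v α * ∏ q ∈ m.primeFactors, gq q = _
      rw [V3_gq m hm]
      ring
    rw [hS, hprod]
    set S := ∑ k ∈ Icc 1 M, α k *
      ∑ q ∈ (Ioc u v).filter (fun q => q.Prime ∧ k * q ≡ a [MOD m]), Real.log q with hSd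
    set Ad := ∑ k ∈ (Icc 1 M).filter (fun k => k.Coprime m), α k with hAdd
    set Qd := ∑ q ∈ (Ioc u v).filter (fun q => q.Prime ∧ q.Coprime m), Real.log q with hQdd
    have e : S - H59C.XB M u v α / (Nat.totient m : ℝ) =
        (S - 1 / (Nat.totient m : ℝ) * (Ad * Qd)) -
        1 / (Nat.totient m : ℝ) * ((∑ k ∈ Icc 1 M, α k) * XX u v - Ad * Qd) := by
      unfold H59C.XB
      ring
    rw [e]
    refine (abs_sub _ _).trans ?_
    apply add_le_add
    · exact hb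
    · rw [abs_mul, abs_of_nonneg (by positivity : (0 : ℝ) ≤ 1 / (Nat.totient m : ℝ))]
      exact mul_le_mul_of_nonneg_left hm2 (by positivity)
  · have e1 : ∑ m ∈ (Icc 1 D).filter (fun m => Squarefree m ∧ ¬ p1 ∣ m),
        (E : ℝ) ^ m.primeFactors.card * (rb m + 1 / (Nat.totient m : ℝ) * W) ≤
        ∑ m ∈ (Icc 1 D).filter (fun m => ¬ p1 ∣ m),
          (E : ℝ) ^ m.primeFactors.card * (rb m + 1 / (Nat.totient m : ℝ) * W) := by
      apply sum_le_sum_of_subset_of_nonneg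
      · exact monotone_filter_right _ fun m _ hm => hm.2
      · intro m _ _
        have := hrb0 m
        positivity
    refine e1.trans ?_
    simp only [mul_add]
    rw [sum_add_distrib]
    have e2 : ∑ m ∈ (Icc 1 D).filter (fun m => ¬ p1 ∣ m),
        (E : ℝ) ^ m.primeFactors.card * (1 / (Nat.totient m : ℝ) * W) ≤
        ((1 + L) * (500 * L) ^ (2 * E)) * W := by
      have h1 : ∀ m ∈ (Icc 1 D).filter (fun m => ¬ p1 ∣ m),
          (E : ℝ) ^ m.primeFactors.card * (1 / (Nat.totient m : ℝ) * W) =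
          (E : ℝ) ^ m.primeFactors.card / (Nat.totient m : ℝ) * W := by
        intro m _
        ring
      rw [sum_congr rfl h1, ← sum_mul]
      apply mul_le_mul_of_nonneg_right _ hW0
      refine le_trans ?_ (V1_w E n (by omega))
      apply sum_le_sum_of_subset_of_nonneg
      · intro m hm
        rw [mem_filter, mem_Icc] at hm
        rw [mem_Icc]
        exact ⟨hm.1.1, hm.1.2.trans hDn⟩
      · intro m _ _
        positivity
    refine (add_le_add hrbs e2).trans ?_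
    have h3 : ((1 + L) * (500 * L) ^ (2 * E)) * W ≤ n / L ^ (A + 1) := by
      have hy0 : (0 : ℝ) < (n : ℝ) ^ (1 / 10 : ℝ) := Real.rpow_pos_of_pos hn0 _
      have h4 : (n : ℝ) ^ (1 / 20 : ℝ) ≤ (n : ℝ) ^ (1 / 10 : ℝ) :=
        Real.rpow_le_rpow_of_exponent_le hn1 (by norm_num)
      have h5 : ((1 + L) * (500 * L) ^ (2 * E)) * (40 * L ^ 2) * L ^ (A + 1) ≤
          (n : ℝ) ^ (1 / 10 : ℝ) := by
        have h6 : (1 + L) * (500 * L) ^ (2 * E) ≤ L ^ 2 * (L ^ 2) ^ (2 * E) := by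
          apply mul_le_mul _ _ (by positivity) (by positivity)
          · nlinarith
          · apply pow_le_pow_left₀ (by positivity)
            nlinarith
        calc ((1 + L) * (500 * L) ^ (2 * E)) * (40 * L ^ 2) * L ^ (A + 1)
            ≤ (L ^ 2 * (L ^ 2) ^ (2 * E)) * (L * L ^ 2) * L ^ (A + 1) := by
              apply mul_le_mul_of_nonneg_right _ (by positivity)
              apply mul_le_mul h6 _ (by positivity) (by positivity)
              apply mul_le_mul_of_nonneg_right _ (by positivity)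
              linarith
          _ = 1 * L ^ (A + 4 * E + 6) := by
              rw [← pow_mul]
              ring
          _ ≤ 500 * L ^ (A + 4 * E + 6) :=
              mul_le_mul_of_nonneg_right (by norm_num) (by positivity)
          _ ≤ _ := hLn.trans h4
      rw [hW, le_div_iff₀ (by positivity)]
      calc (1 + L) * (500 * L) ^ (2 * E) * (40 * L ^ 2 * ((n : ℝ) / (n : ℝ) ^ (1 / 10 : ℝ))) *
            L ^ (A + 1) = (((1 + L) * (500 * L) ^ (2 * E)) * (40 * L ^ 2) * L ^ (A + 1)) *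
              ((n : ℝ) / (n : ℝ) ^ (1 / 10 : ℝ)) := by ring
        _ ≤ (n : ℝ) ^ (1 / 10 : ℝ) * ((n : ℝ) / (n : ℝ) ^ (1 / 10 : ℝ)) :=
            mul_le_mul_of_nonneg_right h5 (by positivity)
        _ = n := by rw [mul_comm, div_mul_cancel₀ _ hy0.ne']
    have e2' : (n : ℝ) / L ^ (A + 1) + n / L ^ (A + 1) = n / L ^ A * (2 / L) := by
      rw [pow_succ]
      field_simp
      ring
    have e3 : 2 / L ≤ 1 := by
      rw [div_le_one hL0]
      linarith
    calc (n : ℝ) / L ^ (A + 1) + ((1 + L) * (500 * L) ^ (2 * E)) * W ≤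
          (n : ℝ) / L ^ (A + 1) + n / L ^ (A + 1) := by linarith
      _ = n / L ^ A * (2 / L) := e2'
      _ ≤ n / L ^ A * 1 := mul_le_mul_of_nonneg_left e3 (by positivity)
      _ = _ := mul_one _

end Pool.Agent.Lib.H57C
end
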