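import Mathlib
import Pool.Agent.Lib.H1M.RV2.M009
import Pool.Agent.Lib.H1M.RV2.M018
import Pool.Agent.Lib.H1M.RV2.M025
import Pool.Agent.Lib.H1M.RV2.M027
import Pool.Agent.Lib.H1M.RV2.M028
import Pool.Agent.Lib.H1M.RV2.M047

/-! Merged copies (to shorten the build) of Lib.H3B.S0E, Lib.H3B.S1A, Lib.H3B.S1B, Lib.H3B.S2B, Lib.H3B.FN, Lib.H3B.Final, Lib.H44W.U6. -/

-- from Lib.H3B.S0E
section

/-! # H3B (MP_443e5f, candidate T, module B), chunk S0E -/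

namespace Pool.Agent.H3B

open Finset
open Pool.Agent.H44W (ee TF cut tII)

theorem s0e_card {M : ℕ} {ε : ℤ} (hε : ε = 0 ∨ ε = 1) : ((SS M ε).card : ℝ) ≤ M := by
  have h1 : SS M ε ⊆ Ico (0 : ℤ) M := by
    intro b hb
    unfold SS at hb
    rw [mem_filter, mem_Ico] at hb
    rw [mem_Ico]
    rcases hε with h | h <;> subst h <;> omega
  have h2 := card_le_card h1
  rw [Int.card_Ico, sub_zero, Int.toNat_natCast] at h2
  exact_mod_cast h2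

theorem s0e_BB {M : ℕ} {ε : ℤ} {be : ℤ → ℂ} (hbe : ∀ x, ‖be x‖ ≤ 1) (h b : ℤ) : ‖BB M ε be h b‖ ≤ 1 := by
  unfold BB
  split_ifs
  · rw [norm_mul, RCLike.norm_conj]
    exact mul_le_one₀ (hbe _) (norm_nonneg _) (hbe _)
  · rw [norm_zero]
    exact zero_le_one

/-- Chunk S0E (M). The choice of the frequencies. PROOF. For each h TP2 with N := 2 n, ρ l = ∑_{a in Ico K 2K} R (Gd g (a (2h))) (a l), En φ = ∑_a E a (tw (φ/a) (Gd g (a (2h)))) (E_exp with j = a, N := n; ρ l = 0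
for |l| > 2 n: R_out), S = SS M ε, B = BB: ∑_b |BB b|² ≤ card SS ≤ M. The sum over a of the double sums is the double sum with ρ. re ≤ norm. -/
theorem s0_freq {n K M : ℕ} (hK : 1 ≤ K) {ε : ℤ} (hε : ε = 0 ∨ ε = 1) {be g : ℤ → ℂ} (hbe : ∀ x, ‖be x‖ ≤ 1) (hgs : Sp n g) (h : ℤ) :
    ∃ φ : ℝ, ∑ a ∈ Ico K (2 * K), (∑ b ∈ SS M ε, ∑ b' ∈ SS M ε, BB M ε be h b * (starRingEnd ℂ) (BB M ε be h b') *
        R (Gd g (a * (2 * h))) (a * (b' - b))).re ≤ M * ∑ a ∈ Ico K (2 * K), E a (tw (φ / a) (Gd g (a * (2 * h)))) := by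
  have hρ : ∀ l : ℤ, l ∉ Icc (-((2 * n : ℕ) : ℤ)) ((2 * n : ℕ) : ℤ) →
      ∑ a ∈ Ico K (2 * K), R (Gd g (a * (2 * h))) (a * l) = 0 := by
    intro l hl
    refine sum_eq_zero fun a ha => ?_
    rw [mem_Ico] at ha
    refine R_out (hgs.Gd _) ?_
    rw [abs_mul]
    have h1 : (1 : ℤ) ≤ |(a : ℤ)| := by
      rw [Nat.abs_cast]
      omega
    have h2 : 2 * (n : ℤ) < |l| := by
      by_contra h3
      apply hl
      rw [not_lt, abs_le] at h3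
      rw [mem_Icc]
      push_cast
      constructor <;> omega
    have h3 : |l| ≤ |(a : ℤ)| * |l| := le_mul_of_one_le_left (abs_nonneg _) h1
    linarith
  have hexp : ∀ φ : ℝ, ((∑ a ∈ Ico K (2 * K), E a (tw (φ / a) (Gd g (a * (2 * h)))) : ℝ) : ℂ) =
      ∑ l ∈ Icc (-((2 * n : ℕ) : ℤ)) ((2 * n : ℕ) : ℤ),
        (∑ a ∈ Ico K (2 * K), R (Gd g (a * (2 * h))) (a * l)) * ee (φ * l) := by
    intro φ
    rw [Complex.ofReal_sum]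
    simp only [sum_mul]
    rw [sum_comm]
    refine sum_congr rfl fun a ha => ?_
    rw [mem_Ico] at ha
    have h1 := E_exp (hgs.Gd ((a : ℤ) * (2 * h))) (j := (a : ℤ)) (by omega) φ
    rw [Int.natAbs_natCast, Int.cast_natCast] at h1
    rw [h1]
    push_cast
    rfl
  obtain ⟨φ, hφ⟩ := TP2 hρ (fun φ => ∑ a ∈ Ico K (2 * K), E a (tw (φ / a) (Gd g (a * (2 * h)))))
    (fun φ => sum_nonneg fun a _ => E_nonneg _ _) hexp (SS M ε) (BB M ε be h)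
  refine ⟨φ, ?_⟩
  have e1 : ∑ a ∈ Ico K (2 * K), (∑ b ∈ SS M ε, ∑ b' ∈ SS M ε, BB M ε be h b * (starRingEnd ℂ) (BB M ε be h b') *
        R (Gd g (a * (2 * h))) (a * (b' - b))).re =
      (∑ b ∈ SS M ε, ∑ b' ∈ SS M ε, BB M ε be h b * (starRingEnd ℂ) (BB M ε be h b') *
        (∑ a ∈ Ico K (2 * K), R (Gd g (a * (2 * h))) (a * (b' - b)))).re := by
    rw [← Complex.re_sum]
    congr 1
    rw [sum_comm]
    refine sum_congr rfl fun b _ => ?_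
    rw [sum_comm]
    refine sum_congr rfl fun b' _ => ?_
    rw [mul_sum]
  rw [e1]
  refine (Complex.re_le_norm _).trans (hφ.trans ?_)
  refine mul_le_mul_of_nonneg_right ?_ (sum_nonneg fun a _ => E_nonneg _ _)
  refine le_trans ?_ (s0e_card (M := M) hε)
  calc ∑ b ∈ SS M ε, ‖BB M ε be h b‖ ^ 2 ≤ ∑ _b ∈ SS M ε, (1 : ℝ) :=
        sum_le_sum fun b _ => pow_le_one₀ (norm_nonneg _) (s0e_BB hbe _ _)
    _ = (SS M ε).card := by rw [sum_const, nsmul_eq_mul, mul_one]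

/-- The fourth power. -/
theorem s0e_pow (K : ℕ) (t : ℕ → ℝ) :
    (∑ a ∈ Ico K (2 * K), t a) ^ 4 ≤ (K : ℝ) ^ 3 * ∑ a ∈ Ico K (2 * K), t a ^ 4 := by
  have hc : (Ico K (2 * K)).card = K := by
    rw [Nat.card_Ico]
    omega
  have h1 := sq_sum_le_card_mul_sum_sq (s := Ico K (2 * K)) (f := t)
  have h2 := sq_sum_le_card_mul_sum_sq (s := Ico K (2 * K)) (f := fun a => t a ^ 2)
  rw [hc] at h1 h2
  have h3 : 0 ≤ (∑ a ∈ Ico K (2 * K), t a) ^ 2 := sq_nonneg _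
  calc (∑ a ∈ Ico K (2 * K), t a) ^ 4 = ((∑ a ∈ Ico K (2 * K), t a) ^ 2) ^ 2 := by ring
    _ ≤ ((K : ℝ) * ∑ a ∈ Ico K (2 * K), t a ^ 2) ^ 2 := pow_le_pow_left₀ h3 h1 2
    _ = (K : ℝ) ^ 2 * (∑ a ∈ Ico K (2 * K), t a ^ 2) ^ 2 := by ring
    _ ≤ (K : ℝ) ^ 2 * (K * ∑ a ∈ Ico K (2 * K), (t a ^ 2) ^ 2) := mul_le_mul_of_nonneg_left h2 (by positivity)
    _ = (K : ℝ) ^ 3 * ∑ a ∈ Ico K (2 * K), t a ^ 4 := by
        have : ∀ a, (t a ^ 2) ^ 2 = t a ^ 4 := fun a => by ring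
        simp only [this]
        ring

/-- Chunk S0F (M). Step 0. PROOF. TF_le_Tt: some ε has ∑_a ‖Tt a‖ ≥ n²/(2D). (∑_a ‖Tt‖)⁴ ≤ K³ ∑_a ‖Tt‖⁴ (inner_le_nnorm_mul_nnorm or twice Cauchy-Schwarz). s0_four for each a in Ico K 2K (a · 2M < 4 K M ≤ 8 n).
Exchange the sums over a and h; s0_freq: n⁸/(16 D⁴ K³) ≤ 400 n³ M · M · V, V = the right side. So V ≥ n⁵/(6400 D⁴ K³ M²), K³ M² = K (K M)² ≤ 4 K n², n/K ≥ M/2: V ≥ n² M/(51200 D⁴) and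
51200 ≤ 2¹⁶ ≤ D¹⁶. (M ≥ 1, K ≥ 1 because TF ≠ 0.) -/
theorem step0 {n K M : ℕ} {D : ℝ} (hD : 2 ≤ D) (hn : 1 ≤ n) (hK : 1 ≤ K) (hKM : K * M ≤ 2 * n) (al be : ℕ → ℂ) (hal : ∀ a, ‖al a‖ ≤ 1)
    (hbe : ∀ b, ‖be b‖ ≤ 1) (W f g : ℤ → ℂ) (hW : ∀ x, ‖W x‖ ≤ 1) (hf : ∀ x, ‖f x‖ ≤ 1) (hg : ∀ x, ‖g x‖ ≤ 1)
    (hT : (n : ℝ) ^ 2 / D ≤ ‖TF n (tII K M al be) W f g‖) :
    ∃ ψ : ℤ → ℝ, (M : ℝ) * n ^ 2 / D ^ 20 ≤ ∑ h ∈ Ioo (-(M : ℤ)) M, ∑ a ∈ Ico K (2 * K),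
      E a (tw (ψ h / a) (Gd (cut n g) (a * (2 * h)))) := by
  have hnR : (0 : ℝ) < n := by exact_mod_cast hn
  have hKR : (0 : ℝ) < K := by exact_mod_cast hK
  have hD0 : (0 : ℝ) < D := by linarith
  obtain ⟨be', hbe'⟩ : ∃ be' : ℤ → ℂ, be' = fun b => be b.toNat := ⟨_, rfl⟩
  have hbn : ∀ x, ‖be' x‖ ≤ 1 := by
    intro x
    rw [hbe']
    exact hbe _
  have h1 := hT.trans (TF_le_Tt n K M al be hal W f g)
  rw [← hbe'] at h1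
  have h2 : ∃ ε : ℤ, (ε = 0 ∨ ε = 1) ∧ (n : ℝ) ^ 2 / (2 * D) ≤
      ∑ a ∈ Ico K (2 * K), ‖Tt M a ε be' W (cut n f) (cut n g)‖ := by
    rw [sum_pair (by norm_num)] at h1
    by_contra hc
    push Not at hc
    have h3 := hc 0 (Or.inl rfl)
    have h4 := hc 1 (Or.inr rfl)
    have h5 : (n : ℝ) ^ 2 / (2 * D) + (n : ℝ) ^ 2 / (2 * D) = (n : ℝ) ^ 2 / D := by
      field_simp
      norm_num
    linarith
  obtain ⟨ε, hε, h3⟩ := h2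
  have hfreq : ∀ h : ℤ, ∃ φ : ℝ, _ := fun h => s0_freq (n := n) (M := M) hK hε hbn (cut_Sp n g) h
  choose ψ hψ using hfreq
  refine ⟨ψ, ?_⟩
  obtain ⟨V, hV⟩ : ∃ V : ℝ, V = ∑ h ∈ Ioo (-(M : ℤ)) M, ∑ a ∈ Ico K (2 * K),
      E a (tw (ψ h / a) (Gd (cut n g) (a * (2 * h)))) := ⟨_, rfl⟩
  rw [← hV]
  have h4 : ∑ a ∈ Ico K (2 * K), ‖Tt M a ε be' W (cut n f) (cut n g)‖ ^ 4 ≤ 400 * n ^ 3 * M * (M * V) := by
    calc ∑ a ∈ Ico K (2 * K), ‖Tt M a ε be' W (cut n f) (cut n g)‖ ^ 4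
        ≤ ∑ a ∈ Ico K (2 * K), 400 * (n : ℝ) ^ 3 * M * ∑ h ∈ Ioo (-(M : ℤ)) M,
          (∑ b ∈ SS M ε, ∑ b' ∈ SS M ε, BB M ε be' h b * (starRingEnd ℂ) (BB M ε be' h b') *
          R (Gd (cut n g) (a * (2 * h))) (a * (b' - b))).re := by
          refine sum_le_sum fun a ha => ?_
          rw [mem_Ico] at ha
          have ha1 : (1 : ℤ) ≤ a := by
            have : 1 ≤ a := by omega
            exact_mod_cast this
          have haM : (a : ℤ) * (2 * M) ≤ 8 * n := by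
            have g1 : a * (2 * M) ≤ 8 * n := by
              calc a * (2 * M) ≤ (2 * K) * (2 * M) := Nat.mul_le_mul_right _ ha.2.le
                _ = 4 * (K * M) := by ring
                _ ≤ 8 * n := by omega
            exact_mod_cast g1
          exact s0_four hn ha1 haM hε hW (cut_norm hf) (cut_Sp n f) (cut_Sp n g)
      _ = 400 * (n : ℝ) ^ 3 * M * ∑ h ∈ Ioo (-(M : ℤ)) M, ∑ a ∈ Ico K (2 * K),
          (∑ b ∈ SS M ε, ∑ b' ∈ SS M ε, BB M ε be' h b * (starRingEnd ℂ) (BB M ε be' h b') *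
          R (Gd (cut n g) (a * (2 * h))) (a * (b' - b))).re := by
          rw [← mul_sum, sum_comm]
      _ ≤ 400 * (n : ℝ) ^ 3 * M * ∑ h ∈ Ioo (-(M : ℤ)) M, (M * ∑ a ∈ Ico K (2 * K),
          E a (tw (ψ h / a) (Gd (cut n g) (a * (2 * h))))) :=
          mul_le_mul_of_nonneg_left (sum_le_sum fun h _ => hψ h) (by positivity)
      _ = 400 * n ^ 3 * M * (M * V) := by
          rw [← mul_sum, hV]
  have h5 : ((n : ℝ) ^ 2 / (2 * D)) ^ 4 ≤ (K : ℝ) ^ 3 * (400 * n ^ 3 * M * (M * V)) := by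
    refine (pow_le_pow_left₀ (by positivity) h3 4).trans ((s0e_pow K _).trans ?_)
    exact mul_le_mul_of_nonneg_left h4 (by positivity)
  by_contra hc
  push Not at hc
  have hKMR : (K : ℝ) * M ≤ 2 * n := by exact_mod_cast hKM
  have h6 : (K : ℝ) ^ 3 * (400 * n ^ 3 * M * (M * V)) ≤ 3200 * (n : ℝ) ^ 8 / D ^ 20 := by
    calc (K : ℝ) ^ 3 * (400 * n ^ 3 * M * (M * V)) = (400 * (K : ℝ) ^ 3 * n ^ 3 * M ^ 2) * V := by ring
      _ ≤ (400 * (K : ℝ) ^ 3 * n ^ 3 * M ^ 2) * ((M : ℝ) * n ^ 2 / D ^ 20) :=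
          mul_le_mul_of_nonneg_left hc.le (by positivity)
      _ = 400 * ((K : ℝ) * M) ^ 3 * n ^ 5 / D ^ 20 := by ring
      _ ≤ 400 * (2 * (n : ℝ)) ^ 3 * n ^ 5 / D ^ 20 := by gcongr
      _ = 3200 * (n : ℝ) ^ 8 / D ^ 20 := by ring
  have h7 : (n : ℝ) ^ 8 / (16 * D ^ 4) ≤ 3200 * (n : ℝ) ^ 8 / D ^ 20 := by
    have g1 : (n : ℝ) ^ 8 / (16 * D ^ 4) = ((n : ℝ) ^ 2 / (2 * D)) ^ 4 := by
      rw [div_pow]
      ring
    rw [g1]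
    exact h5.trans h6
  rw [div_le_div_iff₀ (by positivity) (by positivity)] at h7
  have h8 : (2 : ℝ) ^ 16 ≤ D ^ 16 := pow_le_pow_left₀ (by norm_num) hD 16
  have h9 : (n : ℝ) ^ 8 * D ^ 4 * D ^ 16 ≤ (n : ℝ) ^ 8 * D ^ 4 * 51200 := by
    calc (n : ℝ) ^ 8 * D ^ 4 * D ^ 16 = (n : ℝ) ^ 8 * D ^ 20 := by ring
      _ ≤ _ := h7
      _ = _ := by ring
  have h10 := le_of_mul_le_mul_left h9 (by positivity)
  norm_num at h8
  linarith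

end Pool.Agent.H3B
end

-- from Lib.H3B.S1A
section

/-! # H3B (MP_443e5f, candidate T, module B), chunk S1A -/

namespace Pool.Agent.H3B

open Finset
open Pool.Agent.H44W (ee TF cut)

/-- Chunk S1Aa (S/M). PROOF. u(y) = conj g(y + q) g(y + q') ee(-(θ y)); u(y - q) conjugated is a constant of norm 1 times Gd g (q' - q) y * ee(-(-θ) y) = tw (-θ) (Gd g (q' - q)) y. E_shift, E_conj, E_const. -/
theorem E_pair {g : ℤ → ℂ} (m : ℕ) (q q' : ℤ) (θ : ℝ) :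
    E m (fun y => (starRingEnd ℂ) (g (y + q)) * g (y + q') * ee (-(θ * y))) = E m (tw (-θ) (Gd g (q' - q))) := by
  have h1 := E_shift m (fun y => (starRingEnd ℂ) (g (y + q)) * g (y + q') * ee (-(θ * y))) (-q)
  have h2 := E_conj m (fun y => (fun y : ℤ => (starRingEnd ℂ) (g (y + q)) * g (y + q') * ee (-(θ * y))) (y + -q))
  have h3 := E_const m (tw (-θ) (Gd g (q' - q))) (c := ee (-(θ * q))) (ee_norm _)
  rw [← h1, ← h2, ← h3]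
  congr 1
  funext y
  have e1 : y + -q + q = y := by ring
  have e2 : y + -q + q' = y + (q' - q) := by ring
  simp only [tw, Gd, map_mul, Complex.conj_conj, ee_conj, e1, e2]
  have e3 : -(-(θ * ((y + -q : ℤ) : ℝ))) = -(θ * q) + -(-θ * y) := by
    push_cast
    ring
  rw [e3, ee_add]
  ring

/-- Chunk S1Ab (M). Step 1. PROOF. S = Ico K 2K, q a = a H. PX (N := n, m := a ≤ 2K ≤ n) for tw (ψ/a) (Gd g (a H)): periodic p_a with ∑' y, tw (ψ/a) (Gd g (aH)) y * p_a y = (a/3n) E_a ≥ (K/3n) E_a.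
CSg with v a y = ee(-(ψ/a y)) p_a y: ((K/3n) ∑ E_a)² ≤ 3 n ∑_{a,a'} ‖Z_{a,a'}‖, Z = ∑' y, conj g(y + aH) g(y + a'H) ee(-(θ y)) * (p_a y conj p_a' y), θ = ψ/a - ψ/a' = ψ (a' - a)/(a a').
p_a conj p_a' has period a a': PC: ‖Z‖² ≤ a a' E_{aa'}(..) = a a' E (a a') (tw (-θ) (Gd g ((a' - a) H))) (E_pair), a a' ≤ 4 K². (∑ ‖Z‖)² ≤ K² ∑ ‖Z‖². So
(K/3n)⁴ (∑ E_a)⁴ ≤ 9 n² · K² · 4 K² · ∑ E, (∑ E_a)⁴ ≤ 2916 n⁶ ∑ E. -/
theorem step1a {n K : ℕ} (hK : 1 ≤ K) (hn : 2 * K ≤ n) {g : ℤ → ℂ} (hg : ∀ z, ‖g z‖ ≤ 1) (hs : Sp n g) (H : ℤ) (ψ : ℝ) :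
    (∑ a ∈ Ico K (2 * K), E a (tw (ψ / a) (Gd g (a * H)))) ^ 4 ≤ 3000 * n ^ 6 *
      ∑ a ∈ Ico K (2 * K), ∑ a' ∈ Ico K (2 * K), E (a * a') (tw (-(ψ * ((a' : ℝ) - a)) / ((a * a' : ℕ) : ℝ)) (Gd g (((a' : ℤ) - a) * H))) := by
  classical
  have hn1 : 1 ≤ n := by omega
  have hn0 : (0 : ℝ) < n := by exact_mod_cast hn1
  have hK0 : (0 : ℝ) < K := by exact_mod_cast hK
  -- the periodic functions
  have hex : ∀ a : ℕ, ∃ p : ℤ → ℂ, a ∈ Ico K (2 * K) → (∀ y, ‖p y‖ ≤ 1) ∧ (∀ y, p (y + a) = p y) ∧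
      ∑' y, tw (ψ / a) (Gd g (a * H)) y * p y
        = (((a : ℝ) / (3 * n) * E a (tw (ψ / a) (Gd g (a * H))) : ℝ) : ℂ) := by
    intro a
    by_cases ha : a ∈ Ico K (2 * K)
    · rw [mem_Ico] at ha
      obtain ⟨p, hp1, hp2, hp3⟩ := PX (N := n) (u := tw (ψ / a) (Gd g (a * H))) ((hs.Gd _).tw _)
        (fun y => by rw [tw_norm]; exact Gd_norm hg _ _) (m := a) (by omega) (by omega)
      exact ⟨p, fun _ => ⟨hp1, hp2, hp3⟩⟩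
    · exact ⟨fun _ => 0, fun h => absurd h ha⟩
  choose p hp using hex
  have hcs := CSg hn1 hg hs (Ico K (2 * K)) (fun a : ℕ => (a : ℤ) * H)
    (fun a y => ee (-(ψ / a * y)) * p a y)
  obtain ⟨X, hX⟩ : ∃ X, X = ∑ a ∈ Ico K (2 * K), E a (tw (ψ / a) (Gd g (a * H))) := ⟨_, rfl⟩
  obtain ⟨Y, hY⟩ : ∃ Y, Y = ∑ a ∈ Ico K (2 * K), ∑ a' ∈ Ico K (2 * K), E (a * a')
    (tw (-(ψ * ((a' : ℝ) - a)) / ((a * a' : ℕ) : ℝ)) (Gd g (((a' : ℤ) - a) * H))) := ⟨_, rfl⟩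
  have hX0 : 0 ≤ X := by rw [hX]; exact sum_nonneg fun _ _ => E_nonneg _ _
  -- left side
  have hL : (K : ℝ) / (3 * n) * X ≤ ‖∑ a ∈ Ico K (2 * K), ∑' y : ℤ, Gd g ((a : ℤ) * H) y
      * (ee (-(ψ / a * y)) * p a y)‖ := by
    have e1 : ∑ a ∈ Ico K (2 * K), ∑' y : ℤ, Gd g ((a : ℤ) * H) y * (ee (-(ψ / a * y)) * p a y)
        = ((∑ a ∈ Ico K (2 * K), (a : ℝ) / (3 * n) * E a (tw (ψ / a) (Gd g (a * H))) : ℝ) : ℂ) := by
      rw [Complex.ofReal_sum]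
      apply sum_congr rfl
      intro a ha
      rw [← (hp a ha).2.2]
      apply tsum_congr
      intro y
      unfold tw
      ring
    rw [e1, Complex.norm_real, Real.norm_eq_abs]
    refine le_trans ?_ (le_abs_self _)
    rw [hX, mul_sum]
    apply sum_le_sum
    intro a ha
    rw [mem_Ico] at ha
    apply mul_le_mul_of_nonneg_right _ (E_nonneg _ _)
    apply div_le_div_of_nonneg_right _ (by positivity)
    exact_mod_cast ha.1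
  -- the correlations
  have hZ : ∀ a ∈ Ico K (2 * K), ∀ a' ∈ Ico K (2 * K),
      ‖∑' y : ℤ, (starRingEnd ℂ) (g (y + (a : ℤ) * H)) * g (y + (a' : ℤ) * H)
        * ((ee (-(ψ / a * y)) * p a y) * (starRingEnd ℂ) (ee (-(ψ / a' * y)) * p a' y))‖ ^ 2
      ≤ 4 * (K : ℝ) ^ 2 * E (a * a')
        (tw (-(ψ * ((a' : ℝ) - a)) / ((a * a' : ℕ) : ℝ)) (Gd g (((a' : ℤ) - a) * H))) := by
    intro a ha a' ha'
    have ha1 := mem_Ico.1 ha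
    have ha1' := mem_Ico.1 ha'
    have ha0 : (0 : ℝ) < a := by exact_mod_cast (by omega : 0 < a)
    have ha0' : (0 : ℝ) < a' := by exact_mod_cast (by omega : 0 < a')
    obtain ⟨θ, hθ⟩ : ∃ θ : ℝ, θ = ψ / a - ψ / a' := ⟨_, rfl⟩
    have hSp : Sp (n + ((a : ℤ) * H).natAbs)
        (fun y => (starRingEnd ℂ) (g (y + (a : ℤ) * H)) * g (y + (a' : ℤ) * H) * ee (-(θ * y))) := by
      intro y hy
      have h1 : g (y + (a : ℤ) * H) ≠ 0 := by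
        intro h0
        apply hy
        simp only [h0, map_zero, zero_mul]
      exact (hs.shift ((a : ℤ) * H)) y h1
    have hper : ∀ y, (fun y => p a y * (starRingEnd ℂ) (p a' y)) (y + ((a * a' : ℕ) : ℤ))
        = (fun y => p a y * (starRingEnd ℂ) (p a' y)) y := by
      intro y
      have e1 := pc_per (hp a ha).2.1 y a'
      have e2 := pc_per (hp a' ha').2.1 y a
      have e3 : y + ((a * a' : ℕ) : ℤ) = y + (a : ℤ) * a' := by push_cast; ring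
      have e4 : y + ((a * a' : ℕ) : ℤ) = y + (a' : ℤ) * a := by push_cast; ring
      simp only
      rw [e3, e1, ← e3, e4, e2]
    have hpc := PC hSp (p := fun y => p a y * (starRingEnd ℂ) (p a' y)) (m := a * a')
      (Nat.mul_pos (by omega) (by omega)) (fun y => by
        rw [norm_mul, RCLike.norm_conj]
        exact mul_le_one₀ ((hp a ha).1 y) (norm_nonneg _) ((hp a' ha').1 y)) hper
    have e5 : ∑' y : ℤ, (starRingEnd ℂ) (g (y + (a : ℤ) * H)) * g (y + (a' : ℤ) * H)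
        * ((ee (-(ψ / a * y)) * p a y) * (starRingEnd ℂ) (ee (-(ψ / a' * y)) * p a' y))
        = ∑' y : ℤ, (starRingEnd ℂ) (g (y + (a : ℤ) * H)) * g (y + (a' : ℤ) * H) * ee (-(θ * y))
          * (p a y * (starRingEnd ℂ) (p a' y)) := by
      apply tsum_congr
      intro y
      have e6 : ee (-(θ * y)) = ee (-(ψ / a * y)) * ee (-(-(ψ / a' * y))) := by
        rw [← ee_add]
        congr 1
        rw [hθ]
        ring
      rw [e6, map_mul, ee_conj]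
      ring
    rw [e5]
    refine le_trans hpc ?_
    rw [E_pair]
    have e7 : -θ = -(ψ * ((a' : ℝ) - a)) / ((a * a' : ℕ) : ℝ) := by
      rw [hθ]
      push_cast
      field_simp
    have e8 : (a' : ℤ) * H - (a : ℤ) * H = ((a' : ℤ) - a) * H := by ring
    rw [e7, e8]
    apply mul_le_mul_of_nonneg_right _ (E_nonneg _ _)
    have e9 : (a : ℝ) ≤ 2 * K := by exact_mod_cast ha1.2.le
    have e9' : (a' : ℝ) ≤ 2 * K := by exact_mod_cast ha1'.2.le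
    push_cast
    nlinarith
  -- Cauchy-Schwarz over the pairs
  obtain ⟨W, hW⟩ : ∃ W : ℝ, W = ∑ a ∈ Ico K (2 * K), ∑ a' ∈ Ico K (2 * K),
      ‖∑' y : ℤ, (starRingEnd ℂ) (g (y + (a : ℤ) * H)) * g (y + (a' : ℤ) * H)
        * ((ee (-(ψ / a * y)) * p a y) * (starRingEnd ℂ) (ee (-(ψ / a' * y)) * p a' y))‖ := ⟨_, rfl⟩
  have hW0 : 0 ≤ W := by
    rw [hW]
    exact sum_nonneg fun _ _ => sum_nonneg fun _ _ => norm_nonneg _
  have hcard : ((Ico K (2 * K)).card : ℝ) = K := by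
    rw [Nat.card_Ico]
    congr 1
    omega
  have hW2 : W ^ 2 ≤ 4 * (K : ℝ) ^ 4 * Y := by
    rw [hW, ← sum_product']
    refine le_trans (sq_sum_le_card_mul_sum_sq) ?_
    rw [card_product, Nat.cast_mul, hcard, hY, ← sum_product']
    have h1 : ∑ x ∈ Ico K (2 * K) ×ˢ Ico K (2 * K),
        ‖∑' y : ℤ, (starRingEnd ℂ) (g (y + (x.1 : ℤ) * H)) * g (y + (x.2 : ℤ) * H)
          * ((ee (-(ψ / x.1 * y)) * p x.1 y) * (starRingEnd ℂ) (ee (-(ψ / x.2 * y)) * p x.2 y))‖ ^ 2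
        ≤ ∑ x ∈ Ico K (2 * K) ×ˢ Ico K (2 * K), 4 * (K : ℝ) ^ 2 * E (x.1 * x.2)
        (tw (-(ψ * ((x.2 : ℝ) - x.1)) / ((x.1 * x.2 : ℕ) : ℝ)) (Gd g (((x.2 : ℤ) - x.1) * H))) := by
      apply sum_le_sum
      intro x hx
      rw [mem_product] at hx
      exact hZ x.1 hx.1 x.2 hx.2
    rw [← mul_sum] at h1
    have h2 := mul_le_mul_of_nonneg_left h1 (by positivity : (0 : ℝ) ≤ (K : ℝ) * K)
    refine le_trans h2 (le_of_eq ?_)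
    ring
  rw [← hW] at hcs
  have h3 : ((K : ℝ) / (3 * n) * X) ^ 2 ≤ 3 * n * W :=
    le_trans (pow_le_pow_left₀ (by positivity) hL 2) hcs
  have h4 : ((K : ℝ) / (3 * n) * X) ^ 4 ≤ 9 * n ^ 2 * W ^ 2 := by
    have h5 := pow_le_pow_left₀ (by positivity) h3 2
    have e1 : (((K : ℝ) / (3 * n) * X) ^ 2) ^ 2 = ((K : ℝ) / (3 * n) * X) ^ 4 := by ring
    have e2 : (3 * (n : ℝ) * W) ^ 2 = 9 * n ^ 2 * W ^ 2 := by ring
    rw [e1, e2] at h5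
    exact h5
  have hY0 : 0 ≤ Y := by
    rw [hY]
    exact sum_nonneg fun _ _ => sum_nonneg fun _ _ => E_nonneg _ _
  have h6 : ((K : ℝ) / (3 * n) * X) ^ 4 ≤ 36 * n ^ 2 * K ^ 4 * Y := by
    have := mul_le_mul_of_nonneg_left hW2 (by positivity : (0 : ℝ) ≤ 9 * (n : ℝ) ^ 2)
    nlinarith
  have h7 : (K : ℝ) ^ 4 * X ^ 4 = (81 * n ^ 4) * ((K : ℝ) / (3 * n) * X) ^ 4 := by
    field_simp
    ring
  have h8 : (K : ℝ) ^ 4 * X ^ 4 ≤ (K : ℝ) ^ 4 * (2916 * n ^ 6 * Y) := by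
    rw [h7]
    have := mul_le_mul_of_nonneg_left h6 (by positivity : (0 : ℝ) ≤ 81 * (n : ℝ) ^ 4)
    refine le_trans this (le_of_eq ?_)
    ring
  have h9 : X ^ 4 ≤ 2916 * n ^ 6 * Y := le_of_mul_le_mul_left h8 (by positivity)
  rw [← hX, ← hY]
  have h10 : (0 : ℝ) ≤ (n : ℝ) ^ 6 * Y := by positivity
  nlinarith

end Pool.Agent.H3B
end

-- from Lib.H3B.S1B
section

/-! # H3B (MP_443e5f, candidate T, module B), chunk S1B -/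

namespace Pool.Agent.H3B

open Finset
open Pool.Agent.H44W (ee TF cut tII)

theorem s1b_reindex (K : ℕ) (F : ℕ → ℤ → ℂ) :
    ∑ a ∈ Ico K (2 * K), ∑ a' ∈ Ico K (2 * K), F a (a' : ℤ) =
      ∑ j ∈ Ioo (-(K : ℤ)) K, ∑ a ∈ Ij K j, F a (a + j) := by
  have h1 : ∀ j ∈ Ioo (-(K : ℤ)) K, ∑ a ∈ Ij K j, F a (a + j) =
      ∑ a ∈ Ico K (2 * K), if (K : ℤ) ≤ a + j ∧ (a : ℤ) + j < 2 * K then F a (a + j) else 0 := by
    intro j _
    unfold Ij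
    rw [sum_filter]
  refine Eq.trans ?_ (sum_congr rfl h1).symm
  rw [sum_comm (s := Ioo (-(K : ℤ)) K)]
  refine sum_congr rfl fun a ha => ?_
  rw [mem_Ico] at ha
  rw [← sum_filter]
  refine sum_nbij' (fun a' => (a' : ℤ) - a) (fun j => ((a : ℤ) + j).toNat) ?_ ?_ ?_ ?_ ?_
  · intro a' ha'
    rw [mem_Ico] at ha'
    rw [mem_filter, mem_Ioo]
    omega
  · intro j hj
    rw [mem_filter, mem_Ioo] at hj
    rw [mem_Ico]
    omega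
  · intro a' _
    simp
  · intro j hj
    rw [mem_filter, mem_Ioo] at hj
    omega
  · intro a' _
    have : (a : ℤ) + ((a' : ℤ) - a) = a' := by ring
    rw [this]

/-- Chunk S1B (M). PROOF. E_exp (N := n, integer a a' > 0, φ = -(ψ h (a' - a))) and R_symm: E (a a') (..) = ∑_{k in Icc (-2n) 2n} R (Gd g (a a' k)) ((a' - a) (2h)) ee(-(ψ h (a' - a)) k). Put j = a' - a: the pairs (a, a') in
Ico K 2K ×ˢ Ico K 2K correspond to j in Ioo (-K) K, a in Ij K j, a' = a + j. Exchange the finite sums. -/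
theorem step1b {n K M : ℕ} (hK : 1 ≤ K) {g : ℤ → ℂ} (hs : Sp n g) (ψ : ℤ → ℝ) :
    ((∑ h ∈ Ioo (-(M : ℤ)) M, ∑ a ∈ Ico K (2 * K), ∑ a' ∈ Ico K (2 * K),
      E (a * a') (tw (-(ψ h * ((a' : ℝ) - a)) / ((a * a' : ℕ) : ℝ)) (Gd g (((a' : ℤ) - a) * (2 * h)))) : ℝ) : ℂ) =
      ∑ j ∈ Ioo (-(K : ℤ)) K, ∑ k ∈ Icc (-(2 * n : ℤ)) (2 * n), val g K M ψ j k := by
  have h1 : ∀ h : ℤ, ∀ a ∈ Ico K (2 * K), ∀ a' ∈ Ico K (2 * K),
      ((E (a * a') (tw (-(ψ h * ((a' : ℝ) - a)) / ((a * a' : ℕ) : ℝ)) (Gd g (((a' : ℤ) - a) * (2 * h)))) : ℝ) : ℂ) =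
      ∑ k ∈ Icc (-(2 * n : ℤ)) (2 * n), ee (-(ψ h * ((a' : ℤ) - a : ℤ) * k)) *
        R (Gd g (a * (a' : ℤ) * k)) (((a' : ℤ) - a) * (2 * h)) := by
    intro h a ha a' ha'
    rw [mem_Ico] at ha ha'
    have hpos : 0 < a * a' := Nat.mul_pos (by omega) (by omega)
    have hj : ((a * a' : ℕ) : ℤ) ≠ 0 := by exact_mod_cast hpos.ne'
    have h2 := E_exp (hs.Gd (((a' : ℤ) - a) * (2 * h))) hj (-(ψ h * ((a' : ℝ) - a)))
    rw [Int.natAbs_natCast, Int.cast_natCast] at h2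
    rw [h2]
    refine sum_congr rfl fun k _ => ?_
    rw [R_symm, mul_comm]
    have e1 : ((a * a' : ℕ) : ℤ) * k = (a : ℤ) * a' * k := by push_cast; ring
    have e2 : -(ψ h * ((a' : ℝ) - a)) * (k : ℝ) = -(ψ h * (((a' : ℤ) - a : ℤ) : ℝ) * k) := by
      push_cast; ring
    rw [e1, e2]
  have h3 : ((∑ h ∈ Ioo (-(M : ℤ)) M, ∑ a ∈ Ico K (2 * K), ∑ a' ∈ Ico K (2 * K),
      E (a * a') (tw (-(ψ h * ((a' : ℝ) - a)) / ((a * a' : ℕ) : ℝ)) (Gd g (((a' : ℤ) - a) * (2 * h)))) : ℝ) : ℂ) =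
      ∑ h ∈ Ioo (-(M : ℤ)) M, ∑ a ∈ Ico K (2 * K), ∑ a' ∈ Ico K (2 * K),
        ∑ k ∈ Icc (-(2 * n : ℤ)) (2 * n), ee (-(ψ h * ((a' : ℤ) - a : ℤ) * k)) *
        R (Gd g (a * (a' : ℤ) * k)) (((a' : ℤ) - a) * (2 * h)) := by
    rw [Complex.ofReal_sum]
    refine sum_congr rfl fun h _ => ?_
    rw [Complex.ofReal_sum]
    refine sum_congr rfl fun a ha => ?_
    rw [Complex.ofReal_sum]
    exact sum_congr rfl fun a' ha' => h1 h a ha a' ha'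
  rw [h3]
  have h4 : ∀ h ∈ Ioo (-(M : ℤ)) M, ∑ a ∈ Ico K (2 * K), ∑ a' ∈ Ico K (2 * K),
        ∑ k ∈ Icc (-(2 * n : ℤ)) (2 * n), ee (-(ψ h * ((a' : ℤ) - a : ℤ) * k)) *
        R (Gd g (a * (a' : ℤ) * k)) (((a' : ℤ) - a) * (2 * h)) =
      ∑ j ∈ Ioo (-(K : ℤ)) K, ∑ k ∈ Icc (-(2 * n : ℤ)) (2 * n), ee (-(ψ h * j * k)) *
        ∑ a ∈ Ij K j, R (Gd g (a * (a + j) * k)) (j * (2 * h)) := by
    intro h _
    rw [s1b_reindex K (fun a z => ∑ k ∈ Icc (-(2 * n : ℤ)) (2 * n), ee (-(ψ h * (z - a : ℤ) * k)) *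
        R (Gd g (a * z * k)) ((z - a) * (2 * h)))]
    refine sum_congr rfl fun j _ => ?_
    rw [sum_comm]
    refine sum_congr rfl fun k _ => ?_
    rw [mul_sum]
    refine sum_congr rfl fun a _ => ?_
    have e1 : (a : ℤ) + j - a = j := by ring
    rw [e1]
  rw [sum_congr rfl h4, sum_comm]
  refine sum_congr rfl fun j _ => ?_
  rw [sum_comm]
  refine sum_congr rfl fun k _ => ?_
  rfl

/-- Chunk S1Ba (S). Trivial bound (R_bound; at most 2 M values of h, at most K values of a). -/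
theorem val_bound {n K M : ℕ} (hn : 1 ≤ n) {g : ℤ → ℂ} (hg : ∀ z, ‖g z‖ ≤ 1) (hs : Sp n g) (ψ : ℤ → ℝ) (j k : ℤ) :
    ‖val g K M ψ j k‖ ≤ 6 * K * M * n := by
  unfold val
  have hcard : (Ij K j).card ≤ K := by
    unfold Ij
    refine (card_filter_le _ _).trans ?_
    rw [Nat.card_Ico]
    omega
  have h1 : ∀ h ∈ Ioo (-(M : ℤ)) M, ‖ee (-(ψ h * j * k)) * ∑ a ∈ Ij K j, R (Gd g (a * (a + j) * k)) (j * (2 * h))‖ ≤
      K * (3 * n) := by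
    intro h _
    rw [norm_mul, ee_norm, one_mul]
    refine (norm_sum_le_of_le _ fun a _ => R_bound hs hg hn _ _).trans ?_
    rw [sum_const, nsmul_eq_mul]
    exact mul_le_mul_of_nonneg_right (by exact_mod_cast hcard) (by positivity)
  refine (norm_sum_le_of_le _ h1).trans ?_
  rw [sum_const, nsmul_eq_mul, Int.card_Ioo]
  have h2 : ((((M : ℤ) - -(M : ℤ) - 1).toNat : ℕ) : ℝ) ≤ 2 * M := by
    have : ((M : ℤ) - -(M : ℤ) - 1).toNat ≤ 2 * M := by omega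
    exact_mod_cast this
  calc _ ≤ (2 * (M : ℝ)) * (K * (3 * n)) := mul_le_mul_of_nonneg_right h2 (by positivity)
    _ = 6 * K * M * n := by ring

/-- Chunk S1Bb (S). a (a + j) ≥ K² for a in Ij K j, and Gd g q = 0 for |q| > 2 n. -/
theorem val_zero {n K M : ℕ} (hK : 1 ≤ K) {g : ℤ → ℂ} (hs : Sp n g) (ψ : ℤ → ℝ) (j k : ℤ) (hk : 2 * (n : ℤ) < K ^ 2 * |k|) :
    val g K M ψ j k = 0 := by
  unfold val
  refine sum_eq_zero fun h _ => ?_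
  have h1 : ∑ a ∈ Ij K j, R (Gd g (a * (a + j) * k)) (j * (2 * h)) = 0 := by
    refine sum_eq_zero fun a ha => ?_
    unfold Ij at ha
    rw [mem_filter, mem_Ico] at ha
    rw [R_symm]
    refine R_zero hs ?_
    obtain ⟨⟨h1, -⟩, h2, -⟩ := ha
    have h3 : (K : ℤ) ≤ a := by exact_mod_cast h1
    have hK0 : (0 : ℤ) ≤ K := Int.natCast_nonneg _
    have h4 : (K : ℤ) ^ 2 ≤ a * (a + j) := by nlinarith
    have h5 : |(a : ℤ) * (a + j) * k| = a * (a + j) * |k| := by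
      rw [abs_mul, abs_of_nonneg (by nlinarith)]
    rw [h5]
    have h6 := mul_le_mul_of_nonneg_right h4 (abs_nonneg k)
    linarith
  rw [h1, mul_zero]

end Pool.Agent.H3B
end

-- from Lib.H3B.S2B
section

/-! # H3B (MP_443e5f, candidate T, module B), chunk S2B -/

namespace Pool.Agent.H3B

open Finset
open Pool.Agent.H44W (ee TF cut tII)

/-- Chunk S2B (M). The second choice of a frequency. PROOF. TP1 with N := 2 n, ρ l = ∑_{a in Ij K j} R (Gd g (a (a+j) k)) (j l), En φ = ∑_a E |j| (tw (φ/j) (Gd g (a (a+j) k))) (E_exp, R_out because |j| ≥ 1), T = image of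
Ioo (-M) M under h ↦ 2 h, c (2h) = ee(-(ψ h j k)), L = 2 M, η = 1/(24 D^A), ‖ρ 0‖ ≤ K · 3 n: K M n/D^A ≤ ‖val‖ ≤ η · 2 M · 3 K n + En φ/η, η · 6 K M n = K M n/(4 D^A): En φ ≥ η (3/4) K M n/D^A = K M n/(32 D^(2A))
≥ n²/(32 D^(2A+1)) (n ≤ D K M) ≥ n²/D^(2A+6). θ = φ/j. (If E_exp is used with the natural number |j|, note tw (φ/j).) -/
theorem step2b {n K M A : ℕ} {D : ℝ} (hD : 2 ≤ D) (hn : 1 ≤ n) (hM : 1 ≤ M) (hnKM : (n : ℝ) ≤ D * K * M) {g : ℤ → ℂ} (hg : ∀ z, ‖g z‖ ≤ 1)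
    (hs : Sp n g) (ψ : ℤ → ℝ) {j k : ℤ} (hj : j ≠ 0) (hv : (K : ℝ) * M * n / D ^ A ≤ ‖val g K M ψ j k‖) :
    ∃ θ : ℝ, (n : ℝ) ^ 2 / D ^ (2 * A + 6) ≤ ∑ a ∈ Ij K j, E j.natAbs (tw θ (Gd g (a * (a + j) * k))) := by
  obtain ⟨En, hEn⟩ : ∃ En : ℝ → ℝ, ∀ φ, En φ = ∑ a ∈ Ij K j, E j.natAbs (tw (φ / j) (Gd g (a * (a + j) * k))) :=
    ⟨_, fun _ => rfl⟩
  obtain ⟨ρ, hρd⟩ : ∃ ρ : ℤ → ℂ, ∀ l, ρ l = ∑ a ∈ Ij K j, R (Gd g (a * (a + j) * k)) (j * l) := ⟨_, fun _ => rfl⟩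
  have hE0 : ∀ φ, 0 ≤ En φ := by
    intro φ
    rw [hEn]
    exact Finset.sum_nonneg fun a _ => E_nonneg _ _
  have hcast : ((2 * n : ℕ) : ℤ) = 2 * (n : ℤ) := by push_cast; rfl
  have hρ : ∀ l, l ∉ Icc (-((2 * n : ℕ) : ℤ)) ((2 * n : ℕ) : ℤ) → ρ l = 0 := by
    intro l hl
    rw [hρd]
    refine Finset.sum_eq_zero fun a _ => R_out (hs.Gd _) ?_
    rw [hcast, mem_Icc, ← abs_le, not_le] at hl
    rw [abs_mul]
    have h1 : 1 ≤ |j| := Int.one_le_abs hj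
    nlinarith [abs_nonneg l]
  have hexp : ∀ φ, ((En φ : ℝ) : ℂ) = ∑ l ∈ Icc (-((2 * n : ℕ) : ℤ)) ((2 * n : ℕ) : ℤ), ρ l * ee (φ * l) := by
    intro φ
    rw [hEn, Complex.ofReal_sum, hcast]
    rw [Finset.sum_congr rfl fun (a : ℕ) _ => E_exp (hs.Gd ((a : ℤ) * (a + j) * k)) hj φ, Finset.sum_comm]
    refine Finset.sum_congr rfl fun l _ => ?_
    rw [hρd, Finset.sum_mul]
  obtain ⟨T, hT⟩ : ∃ T : Finset ℤ, T = (Ioo (-(M : ℤ)) M).image (fun h => 2 * h) := ⟨_, rfl⟩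
  have hTc : (T.card : ℝ) ≤ 2 * M := by
    have h1 : T.card ≤ 2 * M := by
      rw [hT]
      refine Finset.card_image_le.trans ?_
      rw [Int.card_Ioo]
      omega
    exact_mod_cast h1
  have hD0 : (0 : ℝ) < D := by linarith
  have hP : 0 < D ^ A := by positivity
  have hMR : (1 : ℝ) ≤ M := by exact_mod_cast hM
  have hnR : (1 : ℝ) ≤ n := by exact_mod_cast hn
  obtain ⟨φ, hφ⟩ := TP1 hρ En hE0 hexp T (fun l => ee (-(ψ (l / 2) * j * k))) (fun h => (ee_norm _).le)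
    (η := 1 / (24 * D ^ A)) (L := 2 * M) (by positivity) (by linarith) hTc
  refine ⟨φ / j, ?_⟩
  rw [← hEn]
  have hval : ∑ l ∈ T, ee (-(ψ (l / 2) * j * k)) * ρ l = val g K M ψ j k := by
    rw [hT, Finset.sum_image (fun x _ y _ h => by simpa using h)]
    unfold val
    refine Finset.sum_congr rfl fun h _ => ?_
    rw [hρd, Int.mul_ediv_cancel_left _ two_ne_zero]
  rw [hval] at hφ
  have hρ0 : ‖ρ 0‖ ≤ K * (3 * n) := by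
    rw [hρd]
    refine (norm_sum_le _ _).trans ((Finset.sum_le_sum fun a _ => R_bound hs hg hn _ _).trans ?_)
    rw [Finset.sum_const, nsmul_eq_mul]
    refine mul_le_mul_of_nonneg_right ?_ (by positivity)
    have h1 : (Ij K j).card ≤ K := by
      unfold Ij
      refine (Finset.card_filter_le _ _).trans ?_
      rw [Nat.card_Ico]
      omega
    exact_mod_cast h1
  have h1 : (K : ℝ) * M * n / D ^ A ≤ K * M * n / (4 * D ^ A) + 24 * D ^ A * En φ := by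
    refine hv.trans (hφ.trans ?_)
    have h2 : 1 / (24 * D ^ A) * (2 * M) * ‖ρ 0‖ ≤ 1 / (24 * D ^ A) * (2 * M) * (K * (3 * n)) :=
      mul_le_mul_of_nonneg_left hρ0 (by positivity)
    have h3 : 1 / (24 * D ^ A) * (2 * M) * (K * (3 * n)) = K * M * n / (4 * D ^ A) := by
      field_simp
      ring
    have h4 : En φ / (1 / (24 * D ^ A)) = 24 * D ^ A * En φ := by
      field_simp
    rw [h4]
    linarith
  have h2 : (K : ℝ) * M * n / (32 * (D ^ A) ^ 2) ≤ En φ := by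
    have h3 : (K : ℝ) * M * n / D ^ A = K * M * n / (4 * D ^ A) + 24 * D ^ A * (K * M * n / (32 * (D ^ A) ^ 2)) := by
      field_simp
      ring
    rw [h3] at h1
    have h4 : 24 * D ^ A * (K * M * n / (32 * (D ^ A) ^ 2)) ≤ 24 * D ^ A * En φ := by linarith
    exact le_of_mul_le_mul_left h4 (by positivity)
  refine le_trans ?_ h2
  have h3 : D ^ (2 * A + 6) = (D ^ A) ^ 2 * (D ^ 5 * D) := by ring
  have h4 : (32 : ℝ) ≤ D ^ 5 := by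
    calc (32 : ℝ) = 2 ^ 5 := by norm_num
      _ ≤ D ^ 5 := pow_le_pow_left₀ (by norm_num) hD 5
  rw [h3, div_le_div_iff₀ (by positivity) (by positivity)]
  have h5 : (n : ℝ) ^ 2 ≤ D * (K * M * n) := by
    calc (n : ℝ) ^ 2 = n * n := by ring
      _ ≤ (D * K * M) * n := mul_le_mul_of_nonneg_right hnKM (by linarith)
      _ = _ := by ring
  have h6 : 0 ≤ (K : ℝ) * M * n := by positivity
  calc (n : ℝ) ^ 2 * (32 * (D ^ A) ^ 2) ≤ (D * (K * M * n)) * (32 * (D ^ A) ^ 2) :=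
        mul_le_mul_of_nonneg_right h5 (by positivity)
    _ = K * M * n * ((D ^ A) ^ 2 * (32 * D)) := by ring
    _ ≤ K * M * n * ((D ^ A) ^ 2 * (D ^ 5 * D)) := by
        refine mul_le_mul_of_nonneg_left ?_ h6
        refine mul_le_mul_of_nonneg_left ?_ (by positivity)
        exact mul_le_mul_of_nonneg_right h4 hD0.le

end Pool.Agent.H3B
end

-- from Lib.H3B.FN
section

/-! # H3B (MP_443e5f, candidate T, module B), chunk FN -/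

namespace Pool.Agent.H3B

open Finset
open Pool.Agent.H44W (ee TF cut tII)

theorem fn_pow4 {s : Finset ℤ} {M : ℕ} (hs : (s.card : ℝ) ≤ 2 * M) (X : ℤ → ℝ) :
    (∑ h ∈ s, X h) ^ 4 ≤ 8 * (M : ℝ) ^ 3 * ∑ h ∈ s, X h ^ 4 := by
  have h1 : (∑ h ∈ s, X h) ^ 2 ≤ s.card * ∑ h ∈ s, X h ^ 2 := sq_sum_le_card_mul_sum_sq
  have h2 : (∑ h ∈ s, X h ^ 2) ^ 2 ≤ s.card * ∑ h ∈ s, (X h ^ 2) ^ 2 := sq_sum_le_card_mul_sum_sq
  have h3 : ∑ h ∈ s, (X h ^ 2) ^ 2 = ∑ h ∈ s, X h ^ 4 := sum_congr rfl fun h _ => by ring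
  rw [h3] at h2
  have h4 : 0 ≤ ∑ h ∈ s, X h ^ 4 := sum_nonneg fun h _ => by positivity
  have h5 : (0 : ℝ) ≤ s.card := Nat.cast_nonneg _
  calc (∑ h ∈ s, X h) ^ 4 = ((∑ h ∈ s, X h) ^ 2) ^ 2 := by ring
    _ ≤ (s.card * ∑ h ∈ s, X h ^ 2) ^ 2 := pow_le_pow_left₀ (sq_nonneg _) h1 2
    _ = (s.card : ℝ) ^ 2 * (∑ h ∈ s, X h ^ 2) ^ 2 := by ring
    _ ≤ (s.card : ℝ) ^ 2 * (s.card * ∑ h ∈ s, X h ^ 4) := mul_le_mul_of_nonneg_left h2 (by positivity)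
    _ = (s.card : ℝ) ^ 3 * ∑ h ∈ s, X h ^ 4 := by ring
    _ ≤ (2 * (M : ℝ)) ^ 3 * ∑ h ∈ s, X h ^ 4 :=
        mul_le_mul_of_nonneg_right (pow_le_pow_left₀ h5 hs 3) h4
    _ = 8 * (M : ℝ) ^ 3 * ∑ h ∈ s, X h ^ 4 := by ring

theorem fn_card (M : ℕ) : ((Ioo (-(M : ℤ)) M).card : ℝ) ≤ 2 * M := by
  rw [Int.card_Ioo]
  have h : ((M : ℤ) - -(M : ℤ) - 1).toNat ≤ 2 * M := by omega
  exact_mod_cast h

/-- The numbers of steps 0 and 1. -/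
theorem fn_num {M n D X Y : ℝ} (hM : 0 < M) (hn : 0 < n) (hD : 2 ≤ D) (h0 : M * n ^ 2 / D ^ 20 ≤ X)
    (h1 : X ^ 4 ≤ 8 * M ^ 3 * (3000 * n ^ 6 * Y)) : M * n ^ 2 / D ^ 95 ≤ Y := by
  have hD0 : 0 < D := by linarith
  obtain ⟨d, hd⟩ : ∃ d : ℝ, d = D ^ 20 := ⟨_, rfl⟩
  obtain ⟨e, he⟩ : ∃ e : ℝ, e = D ^ 15 := ⟨_, rfl⟩
  have hd0 : 0 < d := by rw [hd]; positivity
  have he0 : 24000 ≤ e := by
    rw [he]
    calc (24000 : ℝ) ≤ 2 ^ 15 := by norm_num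
      _ ≤ D ^ 15 := pow_le_pow_left₀ (by norm_num) hD 15
  have hde : D ^ 95 = d ^ 4 * e := by rw [hd, he, ← pow_mul, ← pow_add]
  rw [← hd] at h0
  rw [hde]
  have h2 : (M * n ^ 2 / d) ^ 4 ≤ X ^ 4 := pow_le_pow_left₀ (by positivity) h0 4
  have h3 : (M * n ^ 2 / d) ^ 4 ≤ 8 * M ^ 3 * (3000 * n ^ 6 * Y) := h2.trans h1
  rw [div_pow, div_le_iff₀ (by positivity)] at h3
  rw [div_le_iff₀ (by positivity)]
  have h4 : (M ^ 3 * n ^ 6) * (M * n ^ 2) ≤ (M ^ 3 * n ^ 6) * (24000 * Y * d ^ 4) := by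
    calc (M ^ 3 * n ^ 6) * (M * n ^ 2) = (M * n ^ 2) ^ 4 := by ring
      _ ≤ _ := h3
      _ = (M ^ 3 * n ^ 6) * (24000 * Y * d ^ 4) := by ring
  have h5 : M * n ^ 2 ≤ 24000 * Y * d ^ 4 := le_of_mul_le_mul_left h4 (by positivity)
  have hY : 0 ≤ Y := by
    by_contra hc
    have h6 : 24000 * Y * d ^ 4 < 0 := by
      apply mul_neg_of_neg_of_pos
      · linarith
      · positivity
    have h7 : 0 < M * n ^ 2 := by positivity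
    linarith
  calc M * n ^ 2 ≤ 24000 * Y * d ^ 4 := h5
    _ = 24000 * (Y * d ^ 4) := by ring
    _ ≤ e * (Y * d ^ 4) := mul_le_mul_of_nonneg_right he0 (by positivity)
    _ = Y * (d ^ 4 * e) := by ring

/-- Chunk FN (S/M). Steps 0, 1, 2 together. PROOF. n ≤ D K M (TF_le), K M ≤ 2 n (KM_le), M ≥ 1 (TF ≠ 0). step0: M n²/D²⁰ ≤ ∑_h X_h, X_h = ∑_a E_a. step1a with H = 2 h: X_h⁴ ≤ 3000 n⁶ Y_h. (∑_h X_h)⁴ ≤ (2M)³ ∑ X_h⁴ ≤ 8 M³ · 3000 n⁶ ∑ Y_h,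
so ∑ Y_h ≥ M⁴ n⁸/(D⁸⁰ · 24000 M³ n⁶) = M n²/(24000 D⁸⁰) ≥ M n²/D⁹⁵. step1b, triangle inequality, step2a with A = 95, v = val (val_bound, val_zero), step2b. (2 K ≤ n because K² D^C ≤ n, K ≥ D^C.) -/
theorem steps012 : ∃ A C : ℕ, ∀ (n K M : ℕ) (D : ℝ), 2 ≤ D → D ^ C ≤ K → (K : ℝ) ^ 2 * D ^ C ≤ n →
    ∀ al be : ℕ → ℂ, (∀ a, ‖al a‖ ≤ 1) → (∀ b, ‖be b‖ ≤ 1) → ∀ W f g : ℤ → ℂ, (∀ x, ‖W x‖ ≤ 1) → (∀ x, ‖f x‖ ≤ 1) → (∀ x, ‖g x‖ ≤ 1) →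
    (n : ℝ) ^ 2 / D ≤ ‖TF n (tII K M al be) W f g‖ →
    ∃ P : Finset (ℤ × ℤ), (n : ℝ) / (K * D ^ A) ≤ P.card ∧ ∀ p ∈ P, (K : ℝ) / D ^ A ≤ |(p.1 : ℝ)| ∧ |p.1| < K ∧ p.2 ≠ 0 ∧
      ∃ θ : ℝ, (n : ℝ) ^ 2 / D ^ A ≤ ∑ a ∈ Ij K p.1, E p.1.natAbs (tw θ (Gd (cut n g) (a * (a + p.1) * p.2))) := by
  obtain ⟨C₁, C₂, h2a⟩ := step2a 95
  refine ⟨2 * C₁ + 6, C₂ + 1, ?_⟩
  intro n K M D hD hDK hKn al be hal hbe W f g hW hf hg hT
  have hD0 : 0 < D := by linarith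
  have hD1 : 1 ≤ D := by linarith
  have hDC : 2 ≤ D ^ (C₂ + 1) := by
    calc (2 : ℝ) ≤ D := hD
      _ = D ^ 1 := (pow_one D).symm
      _ ≤ D ^ (C₂ + 1) := pow_le_pow_right₀ hD1 (by omega)
  have hK2 : (2 : ℝ) ≤ K := hDC.trans hDK
  have hK : 1 ≤ K := by
    have : (1 : ℝ) ≤ K := by linarith
    exact_mod_cast this
  have hn2K : 2 * (K : ℝ) ≤ n := by
    calc 2 * (K : ℝ) ≤ (K : ℝ) ^ 2 * 1 := by nlinarith
      _ ≤ (K : ℝ) ^ 2 * D ^ (C₂ + 1) := mul_le_mul_of_nonneg_left (by linarith) (by positivity)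
      _ ≤ n := hKn
  have hn2 : 2 * K ≤ n := by exact_mod_cast hn2K
  have hn : 1 ≤ n := by omega
  have hnr : (1 : ℝ) ≤ n := by exact_mod_cast hn
  have hn0 : (0 : ℝ) < n := by linarith
  have hle := TF_le n K M al be hal hbe W f g hW hf hg
  have h1 : (n : ℝ) ^ 2 / D ≤ K * M * n := hT.trans hle
  have hnKM : (n : ℝ) ≤ D * K * M := by
    rw [div_le_iff₀ hD0] at h1
    have h2 : (n : ℝ) * n ≤ (D * K * M) * n := by
      calc (n : ℝ) * n = (n : ℝ) ^ 2 := by ring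
        _ ≤ K * M * n * D := h1
        _ = (D * K * M) * n := by ring
    exact le_of_mul_le_mul_right h2 hn0
  have hM : 1 ≤ M := by
    rcases Nat.eq_zero_or_pos M with h | h
    · exfalso
      rw [h] at hnKM
      simp at hnKM
      omega
    · exact h
  have hMr : (1 : ℝ) ≤ M := by exact_mod_cast hM
  have hM0 : (0 : ℝ) < M := by linarith
  have hTne : TF n (tII K M al be) W f g ≠ 0 := by
    intro h0
    rw [h0, norm_zero] at hT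
    have : 0 < (n : ℝ) ^ 2 / D := by positivity
    linarith
  have hKM := KM_le n K M al be W f g hTne
  obtain ⟨ψ, hψ⟩ := step0 hD hn hK hKM al be hal hbe W f g hW hf hg hT
  have hgs : Sp n (cut n g) := cut_Sp n g
  have hgn : ∀ z, ‖cut n g z‖ ≤ 1 := cut_norm hg
  -- step 1
  obtain ⟨X, hX⟩ : ∃ X : ℤ → ℝ, ∀ h, X h = ∑ a ∈ Ico K (2 * K),
    E a (tw (ψ h / a) (Gd (cut n g) (a * (2 * h)))) := ⟨_, fun _ => rfl⟩
  obtain ⟨Y, hY⟩ : ∃ Y : ℤ → ℝ, ∀ h, Y h = ∑ a ∈ Ico K (2 * K), ∑ a' ∈ Ico K (2 * K),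
    E (a * a') (tw (-(ψ h * ((a' : ℝ) - a)) / ((a * a' : ℕ) : ℝ)) (Gd (cut n g) (((a' : ℤ) - a) * (2 * h)))) :=
      ⟨_, fun _ => rfl⟩
  have hXY : ∀ h, X h ^ 4 ≤ 3000 * n ^ 6 * Y h := by
    intro h
    rw [hX h, hY h]
    exact step1a hK hn2 hgn hgs (2 * h) (ψ h)
  have hX0 : (M : ℝ) * n ^ 2 / D ^ 20 ≤ ∑ h ∈ Ioo (-(M : ℤ)) M, X h := by
    refine hψ.trans (le_of_eq (sum_congr rfl fun h _ => ?_))
    rw [hX h]
  have hX4 : (∑ h ∈ Ioo (-(M : ℤ)) M, X h) ^ 4 ≤ 8 * (M : ℝ) ^ 3 * (3000 * n ^ 6 * ∑ h ∈ Ioo (-(M : ℤ)) M, Y h) := by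
    refine (fn_pow4 (fn_card M) X).trans ?_
    apply mul_le_mul_of_nonneg_left _ (by positivity)
    rw [mul_sum]
    exact sum_le_sum fun h _ => hXY h
  have hYl := fn_num hM0 hn0 hD hX0 hX4
  have hYv : ∑ h ∈ Ioo (-(M : ℤ)) M, Y h ≤
      ∑ j ∈ Ioo (-(K : ℤ)) K, ∑ k ∈ Icc (-(2 * n : ℤ)) (2 * n), ‖val (cut n g) K M ψ j k‖ := by
    have h3 := step1b (M := M) (n := n) hK hgs ψ
    have h4 : ∑ h ∈ Ioo (-(M : ℤ)) M, Y h = ∑ h ∈ Ioo (-(M : ℤ)) M, ∑ a ∈ Ico K (2 * K), ∑ a' ∈ Ico K (2 * K),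
      E (a * a') (tw (-(ψ h * ((a' : ℝ) - a)) / ((a * a' : ℕ) : ℝ)) (Gd (cut n g) (((a' : ℤ) - a) * (2 * h)))) :=
      sum_congr rfl fun h _ => hY h
    rw [← h4] at h3
    calc ∑ h ∈ Ioo (-(M : ℤ)) M, Y h ≤ ‖((∑ h ∈ Ioo (-(M : ℤ)) M, Y h : ℝ) : ℂ)‖ := by
          rw [Complex.norm_real]
          exact le_abs_self _
      _ ≤ _ := by
          rw [h3]
          refine (norm_sum_le _ _).trans (sum_le_sum fun j _ => norm_sum_le _ _)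
  -- step 2
  have hDK2 : D ^ C₂ ≤ K := (pow_le_pow_right₀ hD1 (by omega)).trans hDK
  have hKn2 : (K : ℝ) ^ 2 * D ^ C₂ ≤ n :=
    (mul_le_mul_of_nonneg_left (pow_le_pow_right₀ hD1 (by omega)) (by positivity)).trans hKn
  obtain ⟨P, hP1, hP2⟩ := h2a n K M D hD hM hDK2 hKn2 (fun j k => val (cut n g) K M ψ j k)
    (fun j k => val_bound hn hgn hgs ψ j k) (fun j k hk => val_zero hK hgs ψ j k hk) (hYl.trans hYv)
  have hpow : D ^ C₁ ≤ D ^ (2 * C₁ + 6) := pow_le_pow_right₀ hD1 (by omega)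
  have hpow0 : 0 < D ^ C₁ := by positivity
  have hKr0 : (0 : ℝ) < K := by linarith
  refine ⟨P, ?_, ?_⟩
  · refine le_trans ?_ hP1
    apply div_le_div_of_nonneg_left hn0.le (by positivity)
    exact mul_le_mul_of_nonneg_left hpow hKr0.le
  · intro p hp
    obtain ⟨q1, q2, q3, q4⟩ := hP2 p hp
    have hj : p.1 ≠ 0 := by
      intro h0
      rw [h0] at q1
      have : 0 < (K : ℝ) / D ^ C₁ := by positivity
      simp only [Int.cast_zero, abs_zero] at q1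
      linarith
    refine ⟨?_, q2, q3, step2b hD hn hM hnKM hgn hgs ψ hj q4⟩
    refine le_trans ?_ q1
    exact div_le_div_of_nonneg_left hKr0.le hpow0 hpow

end Pool.Agent.H3B
end

-- from Lib.H3B.Final
section

/-! # H3B (MP_443e5f, candidate T, module B): the theorem -/

namespace Pool.Agent.H3B

open Finset
open Pool.Agent.H44W (ee TF cut tII ClassTwo)

/-- **Module B.** -/
theorem class_two : ∃ C : ℕ, ClassTwo C := by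
  obtain ⟨A, C₁, h1⟩ := steps012
  obtain ⟨C₂, h2⟩ := step34 A
  refine ⟨max C₁ C₂, ?_⟩
  intro n K M D hD hdiv hK hKn al be hal hbe W f g hW hf hg hT
  have hD1 : (1 : ℝ) ≤ D := by linarith
  have hD0 : (0 : ℝ) < D := by linarith
  have p1 : D ^ C₁ ≤ D ^ max C₁ C₂ := pow_le_pow_right₀ hD1 (le_max_left _ _)
  have p2 : D ^ C₂ ≤ D ^ max C₁ C₂ := pow_le_pow_right₀ hD1 (le_max_right _ _)
  have hKK : (0 : ℝ) ≤ (K : ℝ) ^ 2 := by positivity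
  obtain ⟨P, hP, hP2⟩ := h1 n K M D hD (p1.trans hK) ((mul_le_mul_of_nonneg_left p1 hKK).trans hKn) al be hal hbe W f g hW hf hg hT
  obtain ⟨θ, hθ⟩ := h2 n K D hD hdiv (p2.trans hK) ((mul_le_mul_of_nonneg_left p2 hKK).trans hKn) (cut n g) (cut_norm hg)
    (fun y hy => by unfold Pool.Agent.H44W.cut; rw [if_neg hy]) P hP hP2
  refine ⟨-θ, ?_⟩
  have e1 : ∑' y : ℤ, cut n g y * ee (-(θ * y)) = ∑ z ∈ Icc (1 : ℤ) n, g z * ee (-θ * z) := by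
    rw [tsum_eq_sum (s := Icc (1 : ℤ) n)]
    · refine sum_congr rfl fun z hz => ?_
      unfold Pool.Agent.H44W.cut
      rw [if_pos hz, neg_mul]
    · intro y hy
      unfold Pool.Agent.H44W.cut
      rw [if_neg hy, zero_mul]
  rw [← e1]
  refine le_trans ?_ hθ
  exact div_le_div_of_nonneg_left (Nat.cast_nonneg _) (pow_pos hD0 _) p2

end Pool.Agent.H3B
end

-- from Lib.H44W.U6
section
/-!
CHUNK U6 (S/M). MAIN THEOREM of D1 + D2 (explicit).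
Let F be the difference function and suppose de n^2 < |TF n F W f g|. (If Q is empty F = 0: contradiction.)
First dual step (U1, with de): hinv is inv_F (U5) with be = de^2/ka (<= 1), y = y0, ph = ph1: 10000 Q0 y0^2 = de^2/(Q0 ka^2) <= be.
Its hypotheses on A1, A2, l hold because y1 <= y0 (y1 <= y0^24/(100 Q0 ka) and y0 <= 1). Result: w2 with WL l w2 and
ka * min (y0^24) ph1 * n^2 <= |TF n F W f w2|; put de1 = min (y0^24) ph1 (0 < de1 <= 1), so de1 n^2 <= |TF n F W f w2| (ka >= 1).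
Swap (TF_swap, U2): |TF n F W f w2| = |TF n F W' w2 f|, W' v = W (-v). Second dual step (U1) with de1, f := w2 (norm_WL), W':
be = de1^2/ka, y = y1, ph = ph2: 10000 Q0 y1^2 <= de1^2/(Q0 ka^2) <= be. Result: w1 with WL l w1 and
ka * min (y1^24) ph2 * n^2 <= |TF n F W' w2 w1|. TF_WL (U4) with tau' := Q0 * tau (the sum of F over Ico u v is at most the sum over
q in Q of |ga q| * l tau <= Q0 * (l tau)): |TF n F W' w2 w1| <= 18 n^2 Q0 tau. So min (y1^24) ph2 <= 18 Q0 tau, contradiction with htau.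
l <= n follows from hlA (A1 >= 1 by hA1).
-/
namespace Pool.Agent.H44W
open Finset

theorem u6_small {y : ℝ} (h0 : 0 ≤ y) (h1 : y ≤ 1) {k : ℕ} (hk : k ≠ 0) : y ^ k ≤ y := by
  obtain ⟨j, rfl⟩ := Nat.exists_eq_succ_of_ne_zero hk
  rw [pow_succ]
  exact mul_le_of_le_one_left h0 (pow_le_one₀ h0 h1)

theorem u6_window (l A1 A2 B1 B2 : ℕ) (Q : Finset ℕ) (Q0 : ℕ) (hQ : Q.card ≤ Q0) (ga : ℕ → ℂ)
    (hga : ∀ q, ‖ga q‖ ≤ 1) (M : ℕ → ℤ → ℂ) (tau : ℝ) (htau0 : 0 ≤ tau) (u v : ℤ) (th : ℝ)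
    (hX : ∀ q ∈ Q, ‖∑ m ∈ Ico u v, (pd q (Ico (A1:ℤ) B1) (Ico (A2:ℤ) B2) m - M q m) * ee (th * m)‖ ≤ l * tau) :
    ‖∑ m ∈ Ico u v, (∑ q ∈ Q, ga q * (pd q (Ico (A1:ℤ) B1) (Ico (A2:ℤ) B2) m - M q m)) * ee (th * m)‖ ≤
      l * (Q0 * tau) := by
  have e : ∑ m ∈ Ico u v, (∑ q ∈ Q, ga q * (pd q (Ico (A1:ℤ) B1) (Ico (A2:ℤ) B2) m - M q m)) * ee (th * m) =
      ∑ q ∈ Q, ga q * ∑ m ∈ Ico u v, (pd q (Ico (A1:ℤ) B1) (Ico (A2:ℤ) B2) m - M q m) * ee (th * m) := by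
    simp_rw [Finset.sum_mul]
    rw [Finset.sum_comm]
    refine Finset.sum_congr rfl fun q _ => ?_
    rw [Finset.mul_sum]
    refine Finset.sum_congr rfl fun m _ => ?_
    ring
  rw [e]
  refine (norm_sum_le _ _).trans ?_
  have h1 : ∀ q ∈ Q, ‖ga q * ∑ m ∈ Ico u v, (pd q (Ico (A1:ℤ) B1) (Ico (A2:ℤ) B2) m - M q m) * ee (th * m)‖ ≤ l * tau := by
    intro q hq
    rw [norm_mul]
    exact (mul_le_of_le_one_left (norm_nonneg _) (hga q)).trans (hX q hq)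
  refine (Finset.sum_le_sum h1).trans ?_
  rw [Finset.sum_const, nsmul_eq_mul]
  have h2 : (Q.card : ℝ) ≤ Q0 := by exact_mod_cast hQ
  have h3 : 0 ≤ (l : ℝ) * tau := by positivity
  calc (Q.card : ℝ) * (l * tau) ≤ Q0 * (l * tau) := mul_le_mul_of_nonneg_right h2 h3
    _ = l * (Q0 * tau) := by ring

theorem near_diag (n l A1 A2 B1 B2 : ℕ) (hn : 1 ≤ n) (hl1 : 1 ≤ l) (Q : Finset ℕ) (Q0 : ℕ)
    (hQ0 : 1 ≤ Q0) (hQ : Q.card ≤ Q0) (hQ1 : ∀ q ∈ Q, 1 ≤ q ∧ q ≤ Q0) (ga : ℕ → ℂ)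
    (hga : ∀ q, ‖ga q‖ ≤ 1) (M : ℕ → ℤ → ℂ) (ka : ℝ) (hka : 1 ≤ ka)
    (hB1 : B1 ≤ 2 * A1) (hB2 : B2 ≤ 2 * A2) (hlA : l * (A1 + A2) ≤ n)
    (hK : ∑ m ∈ Icc (1:ℤ) (2 * n), ‖∑ q ∈ Q, ga q *
      (pd q (Ico (A1:ℤ) B1) (Ico (A2:ℤ) B2) m - M q m)‖ ≤ ka * n)
    (tau : ℝ) (htau0 : 0 ≤ tau)
    (hX : ∀ q ∈ Q, ∀ u v : ℤ, 1 ≤ u → u ≤ v → v ≤ 2 * n + 1 → v - u ≤ 2 * l → ∀ th : ℝ,
      ‖∑ m ∈ Ico u v, (pd q (Ico (A1:ℤ) B1) (Ico (A2:ℤ) B2) m - M q m) * ee (th * m)‖ ≤ l * tau)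
    (de y0 ph1 y1 ph2 : ℝ) (hde : 0 < de) (hde1 : de ≤ 1) (hy0 : y0 = de / (100 * Q0 * ka))
    (hph1 : 0 < ph1) (hph1' : ph1 ≤ 1) (hy1 : 0 < y1)
    (hy1' : 100 * Q0 * ka * y1 ≤ min (y0 ^ 24) ph1) (hph2 : 0 < ph2)
    (hM1 : ∀ q ∈ Q, ∀ W f g : ℤ → ℂ, (∀ x, ‖W x‖ ≤ 1) → (∀ x, ‖f x‖ ≤ 1) → (∀ x, ‖g x‖ ≤ 1) →
      y0 ^ 2 * (n:ℝ) ^ 2 ≤ ‖TF n (M q) W f g‖ →
      ∃ th : ℝ, ph1 * n ≤ ‖∑ z ∈ Icc (1:ℤ) n, g z * ee (th * z)‖)
    (hM2 : ∀ q ∈ Q, ∀ W f g : ℤ → ℂ, (∀ x, ‖W x‖ ≤ 1) → (∀ x, ‖f x‖ ≤ 1) → (∀ x, ‖g x‖ ≤ 1) →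
      y1 ^ 2 * (n:ℝ) ^ 2 ≤ ‖TF n (M q) W f g‖ →
      ∃ th : ℝ, ph2 * n ≤ ‖∑ z ∈ Icc (1:ℤ) n, g z * ee (th * z)‖)
    (htau : 18 * Q0 * tau < min (y1 ^ 24) ph2) (hA1 : (10:ℝ) ^ 8 ≤ A1 * y1 ^ 12)
    (hA2 : (10:ℝ) ^ 8 ≤ A2 * y1 ^ 12) (hlX : (10:ℝ) ^ 12 * Q0 ≤ l * y1 ^ 16)
    (W f g : ℤ → ℂ) (hW : ∀ x, ‖W x‖ ≤ 1) (hf : ∀ x, ‖f x‖ ≤ 1) (hg : ∀ x, ‖g x‖ ≤ 1) :
    ‖TF n (fun m => ∑ q ∈ Q, ga q *
      (pd q (Ico (A1:ℤ) B1) (Ico (A2:ℤ) B2) m - M q m)) W f g‖ ≤ de * (n:ℝ) ^ 2 := by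
  by_contra hcon
  rw [not_le] at hcon
  have hQ0' : (1 : ℝ) ≤ Q0 := by exact_mod_cast hQ0
  have hn' : (1 : ℝ) ≤ n := by exact_mod_cast hn
  have hn2 : 0 < (n : ℝ) ^ 2 := by positivity
  have hka0 : 0 < ka := by linarith
  have hQk : (1 : ℝ) ≤ Q0 * ka := by nlinarith
  have hy00 : 0 < y0 := by
    rw [hy0]
    positivity
  have hy01 : y0 ≤ 1 := by
    rw [hy0, div_le_one (by positivity)]
    nlinarith
  set de1 : ℝ := min (y0 ^ 24) ph1 with hde1d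
  have hde10 : 0 < de1 := lt_min (by positivity) hph1
  have hde11 : de1 ≤ 1 := (min_le_right _ _).trans hph1'
  have hy1de : y1 ≤ de1 := by
    have h1 : y1 ≤ 100 * Q0 * ka * y1 := by nlinarith
    exact h1.trans hy1'
  have hy1y0 : y1 ≤ y0 := hy1de.trans ((min_le_left _ _).trans (u6_small hy00.le hy01 (by norm_num)))
  have hy11 : y1 ≤ 1 := hy1y0.trans hy01
  have hA1' : (10:ℝ) ^ 8 ≤ A1 * y0 ^ 12 :=
    hA1.trans (mul_le_mul_of_nonneg_left (pow_le_pow_left₀ hy1.le hy1y0 12) (Nat.cast_nonneg _))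
  have hA2' : (10:ℝ) ^ 8 ≤ A2 * y0 ^ 12 :=
    hA2.trans (mul_le_mul_of_nonneg_left (pow_le_pow_left₀ hy1.le hy1y0 12) (Nat.cast_nonneg _))
  have hlX' : (10:ℝ) ^ 12 * Q0 ≤ l * y0 ^ 16 :=
    hlX.trans (mul_le_mul_of_nonneg_left (pow_le_pow_left₀ hy1.le hy1y0 16) (Nat.cast_nonneg _))
  have hln : l ≤ n := by
    have h1 : 1 ≤ A1 := by
      rcases Nat.eq_zero_or_pos A1 with h | h
      · rw [h, Nat.cast_zero, zero_mul] at hA1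
        norm_num at hA1
      · exact h
    have h2 : l * 1 ≤ l * (A1 + A2) := Nat.mul_le_mul_left l (by omega)
    omega
  -- first dual step
  have hbe1 : de ^ 2 / ka ≤ 1 := by
    rw [div_le_one hka0]
    nlinarith
  have hby : 10000 * Q0 * y0 ^ 2 ≤ de ^ 2 / ka := by
    rw [hy0, div_pow, ← mul_div_assoc, div_le_div_iff₀ (by positivity) hka0]
    have h1 : ka ≤ Q0 * ka ^ 2 := by nlinarith
    have h2 : 0 ≤ 10000 * (Q0 : ℝ) * de ^ 2 := by positivity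
    nlinarith [mul_le_mul_of_nonneg_left h1 h2]
  obtain ⟨w2, hw2, hT2⟩ := dual_step n l hn (fun m => ∑ q ∈ Q, ga q *
      (pd q (Ico (A1:ℤ) B1) (Ico (A2:ℤ) B2) m - M q m)) W f hW hf ka hka0 hK de de1 hde.le
    (fun g' hg' h => inv_F n l A1 A2 B1 B2 hn Q Q0 hQ0 hQ hQ1 ga hga M (de ^ 2 / ka) y0 ph1 hbe1 hy00 hby hB1 hB2
      hA1' hA2' hlX' hlA W f g' hW hf hg' (fun q hq => hM1 q hq W f g' hW hf hg') h) g hg hcon.le
  have hT2' : de1 * (n:ℝ) ^ 2 ≤ ‖TF n (fun m => ∑ q ∈ Q, ga q *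
      (pd q (Ico (A1:ℤ) B1) (Ico (A2:ℤ) B2) m - M q m)) (fun v => W (-v)) w2 f‖ := by
    rw [← TF_swap]
    refine le_trans ?_ hT2
    have h1 : 0 ≤ de1 * (n:ℝ) ^ 2 := by positivity
    nlinarith
  -- second dual step
  have hbe1' : de1 ^ 2 / ka ≤ 1 := by
    rw [div_le_one hka0]
    nlinarith
  have hby' : 10000 * Q0 * y1 ^ 2 ≤ de1 ^ 2 / ka := by
    rw [le_div_iff₀ hka0]
    have h1 : (100 * Q0 * ka * y1) ^ 2 ≤ de1 ^ 2 := pow_le_pow_left₀ (by positivity) hy1' 2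
    have h2 : ka ≤ Q0 * ka ^ 2 := by nlinarith
    have h3 : 0 ≤ 10000 * (Q0 : ℝ) * y1 ^ 2 := by positivity
    nlinarith [mul_le_mul_of_nonneg_left h2 h3]
  have hW' : ∀ x, ‖(fun v => W (-v)) x‖ ≤ 1 := fun x => hW (-x)
  have hw2' := norm_WL l w2 hw2
  obtain ⟨w1, hw1, hT1⟩ := dual_step n l hn (fun m => ∑ q ∈ Q, ga q *
      (pd q (Ico (A1:ℤ) B1) (Ico (A2:ℤ) B2) m - M q m)) (fun v => W (-v)) w2 hW' hw2' ka hka0 hK de1
    (min (y1 ^ 24) ph2) hde10.le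
    (fun g' hg' h => inv_F n l A1 A2 B1 B2 hn Q Q0 hQ0 hQ hQ1 ga hga M (de1 ^ 2 / ka) y1 ph2 hbe1' hy1 hby' hB1 hB2
      hA1 hA2 hlX hlA (fun v => W (-v)) w2 g' hW' hw2' hg'
      (fun q hq => hM2 q hq (fun v => W (-v)) w2 g' hW' hw2' hg') h) f hf hT2'
  have hfin := TF_WL n l hl1 hln (fun m => ∑ q ∈ Q, ga q *
      (pd q (Ico (A1:ℤ) B1) (Ico (A2:ℤ) B2) m - M q m)) (fun v => W (-v)) hW' (Q0 * tau) (by positivity)
    (fun u v h1 h2 h3 h4 th => u6_window l A1 A2 B1 B2 Q Q0 hQ ga hga M tau htau0 u v th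
      (fun q hq => hX q hq u v h1 h2 h3 h4 th)) w2 w1 hw2 hw1
  have h1 := hT1.trans hfin
  have hmn : 0 < min (y1 ^ 24) ph2 := lt_min (by positivity) hph2
  have h2 : min (y1 ^ 24) ph2 * (n:ℝ) ^ 2 ≤ ka * min (y1 ^ 24) ph2 * (n:ℝ) ^ 2 := by
    have h3 : 0 ≤ min (y1 ^ 24) ph2 * (n:ℝ) ^ 2 := by positivity
    nlinarith
  have h3 : min (y1 ^ 24) ph2 * (n:ℝ) ^ 2 ≤ 18 * Q0 * tau * (n:ℝ) ^ 2 := by linarith
  have h4 := le_of_mul_le_mul_right h3 hn2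
  linarith

end Pool.Agent.H44W
end
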