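import Pool.Agent.Lib.H1M.RV2.M001
import Pool.Agent.Lib.H1M.RV2.M006
import Pool.Agent.Lib.H1M.RV2.M014
import Pool.Agent.Lib.H1M.RV2.M017
import Pool.Agent.Lib.H1M.RV2.M019
import Pool.Agent.Lib.H1M.RV2.M031
import Pool.Agent.Lib.H1M.RV2.M032
import Pool.Agent.Lib.H1M.RV2.M033
import Pool.Agent.Lib.H1M.RV2.M037
import Pool.Agent.Lib.H1M.RV2.M040
import Pool.Agent.Lib.H1M.RV2.M041
import Pool.Agent.Lib.H1M.RV2.M042
import Pool.Agent.Lib.H1M.RV2.M043
import Pool.Agent.Lib.H1M.RV2.M046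
import Pool.Agent.Lib.H1M.RV2.M047

/-! Merged copies (to shorten the build) of Lib.H57C.V5, Lib.H59C.CTO, Lib.H57T.Defs, Lib.H57T.RA, Lib.H57T.S0, Lib.H59C.SW1, Lib.H59C.SW2, Lib.H59C.SW4, Lib.H57C.V6, Lib.H59C.CN2, Lib.H59C.CCN, Lib.H59C.CW. -/

-- from Lib.H57C.V5
section

/-!
# Chunk V5: level of distribution of the integers
-/

open Finset

namespace Pool.Agent.Lib.H57C

theorem v5_count (y1 y2 R v : ℕ) (hR : 0 < R) (h : y1 ≤ y2) :
    |(((Ioc y1 y2).filter (fun t => t ≡ v [MOD R])).card : ℝ) - ((y2 : ℝ) - y1) / R| ≤ 1 := by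
  have h1 := Nat.Ioc_filter_modEq_card y1 y2 hR v
  have hR' : (0 : ℝ) < R := by exact_mod_cast hR
  have hRq : (0 : ℚ) < R := by exact_mod_cast hR
  have hAB : ⌊((y1 : ℚ) - v) / R⌋ ≤ ⌊((y2 : ℚ) - v) / R⌋ := by
    apply Int.floor_le_floor
    have : (y1 : ℚ) ≤ y2 := by exact_mod_cast h
    gcongr
  rw [max_eq_left (by linarith)] at h1
  have h2 : (((Ioc y1 y2).filter (fun t => t ≡ v [MOD R])).card : ℝ) =
      (⌊((y2 : ℚ) - v) / R⌋ : ℝ) - (⌊((y1 : ℚ) - v) / R⌋ : ℝ) := by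
    exact_mod_cast h1
  have a1 : (⌊((y2 : ℚ) - v) / R⌋ : ℝ) ≤ ((y2 : ℝ) - v) / R := by
    have := Int.floor_le (((y2 : ℚ) - v) / R)
    exact_mod_cast this
  have a2 : ((y2 : ℝ) - v) / R < (⌊((y2 : ℚ) - v) / R⌋ : ℝ) + 1 := by
    have := Int.lt_floor_add_one (((y2 : ℚ) - v) / R)
    exact_mod_cast this
  have b1 : (⌊((y1 : ℚ) - v) / R⌋ : ℝ) ≤ ((y1 : ℝ) - v) / R := by
    have := Int.floor_le (((y1 : ℚ) - v) / R)
    exact_mod_cast this
  have b2 : ((y1 : ℝ) - v) / R < (⌊((y1 : ℚ) - v) / R⌋ : ℝ) + 1 := by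
    have := Int.lt_floor_add_one (((y1 : ℚ) - v) / R)
    exact_mod_cast this
  have e : ((y2 : ℝ) - y1) / R = ((y2 : ℝ) - v) / R - ((y1 : ℝ) - v) / R := by ring
  rw [h2, e, abs_le]
  constructor <;> linarith

theorem v5_omega (E m : ℕ) (hm : Squarefree m) :
    (E : ℝ) ^ m.primeFactors.card ≤ (E + 1 : ℝ) ^ ((E + 1) ^ 10) * (m : ℝ) ^ (1 / 10 : ℝ) := by
  have hE : (E : ℝ) ≤ E + 1 := by linarith
  have hE1 : (1 : ℝ) ≤ (E : ℝ) + 1 := by
    have : (0 : ℝ) ≤ E := Nat.cast_nonneg _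
    linarith
  have hpr : (m : ℝ) = ∏ p ∈ m.primeFactors, (p : ℝ) := by
    have := Nat.prod_primeFactors_of_squarefree hm
    conv_lhs => rw [← this]
    push_cast
    rfl
  calc (E : ℝ) ^ m.primeFactors.card ≤ (E + 1 : ℝ) ^ m.primeFactors.card :=
        pow_le_pow_left₀ (Nat.cast_nonneg _) hE _
    _ = ∏ p ∈ m.primeFactors, (E + 1 : ℝ) := by rw [Finset.prod_const]
    _ ≤ ∏ p ∈ m.primeFactors, ((if p < (E + 1) ^ 10 then (E + 1 : ℝ) else 1) * (p : ℝ) ^ (1 / 10 : ℝ)) := by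
        refine Finset.prod_le_prod (fun p _ => by linarith) fun p hp => ?_
        have hp1 : 1 ≤ p := (Nat.prime_of_mem_primeFactors hp).one_lt.le
        have hp1' : (1 : ℝ) ≤ p := by exact_mod_cast hp1
        split_ifs with h
        · refine le_mul_of_one_le_right (by linarith) ?_
          exact Real.one_le_rpow hp1' (by norm_num)
        · rw [one_mul]
          rw [not_lt] at h
          have h' : ((E : ℝ) + 1) ^ (10 : ℕ) ≤ p := by exact_mod_cast h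
          calc (E : ℝ) + 1 = ((((E : ℝ) + 1) ^ (10 : ℕ))) ^ (1 / 10 : ℝ) := by
                rw [← Real.rpow_natCast, ← Real.rpow_mul (by linarith)]
                norm_num
            _ ≤ (p : ℝ) ^ (1 / 10 : ℝ) := Real.rpow_le_rpow (by positivity) h' (by norm_num)
    _ = (∏ p ∈ m.primeFactors, (if p < (E + 1) ^ 10 then (E + 1 : ℝ) else 1)) *
          (m : ℝ) ^ (1 / 10 : ℝ) := by
        rw [Finset.prod_mul_distrib, Real.finset_prod_rpow _ _ (fun p _ => Nat.cast_nonneg _), ← hpr]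
    _ ≤ (E + 1 : ℝ) ^ ((E + 1) ^ 10) * (m : ℝ) ^ (1 / 10 : ℝ) := by
        refine mul_le_mul_of_nonneg_right ?_ (by positivity)
        rw [← Finset.prod_filter, Finset.prod_const]
        refine pow_le_pow_right₀ hE1 ?_
        calc (m.primeFactors.filter (fun p => p < (E + 1) ^ 10)).card ≤
              (Finset.range ((E + 1) ^ 10)).card := Finset.card_le_card (fun p hp => by
                rw [Finset.mem_range]
                exact (Finset.mem_filter.1 hp).2)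
          _ = (E + 1) ^ 10 := Finset.card_range _

theorem v5_large (A : ℕ) (C : ℝ) (hC : 0 < C) : ∃ n0 : ℕ, ∀ n : ℕ, n0 ≤ n →
    C * (n : ℝ) ^ (11 / 20 : ℝ) ≤ n / Real.log n ^ A := by
  have h := isLittleO_log_rpow_rpow_atTop (A : ℝ) (show (0 : ℝ) < 9 / 20 by norm_num)
  have h1 := (h.bound (show (0 : ℝ) < 1 / C by positivity))
  have h2 := tendsto_natCast_atTop_atTop (R := ℝ) |>.eventually h1
  obtain ⟨n1, hn1⟩ := Filter.eventually_atTop.1 h2
  refine ⟨max n1 3, fun n hn => ?_⟩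
  have h3 := hn1 n (le_trans (le_max_left _ _) hn)
  have hn3 : 3 ≤ n := le_trans (le_max_right _ _) hn
  have hn3' : (3 : ℝ) ≤ n := by exact_mod_cast hn3
  have hn0 : (0 : ℝ) < n := by linarith
  have hlog : 0 < Real.log n := Real.log_pos (by linarith)
  rw [Real.rpow_natCast, Real.norm_of_nonneg (by positivity), Real.norm_of_nonneg (by positivity)] at h3
  rw [le_div_iff₀ (by positivity)]
  calc C * (n : ℝ) ^ (11 / 20 : ℝ) * Real.log n ^ A ≤
        C * (n : ℝ) ^ (11 / 20 : ℝ) * (1 / C * (n : ℝ) ^ (9 / 20 : ℝ)) :=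
        mul_le_mul_of_nonneg_left h3 (by positivity)
    _ = (n : ℝ) ^ (11 / 20 : ℝ) * (n : ℝ) ^ (9 / 20 : ℝ) := by field_simp
    _ = n := by
        rw [← Real.rpow_add hn0]
        norm_num

/-- Proof. `rr m = 1`: the `t ∈ (y1, y2]` with `t ≡ N [MOD r]` and `t ≡ c [MOD m]`, `(m, r) = 1` (`r = 1`, or `r = p1` prime,
`p1 ∤ m`), are the `t` of one class modulo `r m` (`Nat.chineseRemainder`), their number differs from `(y2 - y1)/(r m)` by less
than `1` (`Nat.Ioc_filter_modEq_card` or `Int.Ioc_filter_modEq_card`). `∑_{m ≤ √n} E^ω(m) ≤ n^(3/4)` for large `n`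
(`E^ω(m) ≤ C_E m^(1/10)`, or `E^ω(m) ≤ τ(m)^e`), at most `n/L^A`. -/
theorem lvlI (A E : ℕ) : ∃ n0 : ℕ, ∀ n : ℕ, n0 ≤ n → ∀ p1 N r y1 y2 : ℕ, p1.Prime →
    (r = 1 ∨ r = p1) → y1 ≤ y2 →
      Lvl (sI N r y1 y2) p1 ⌊Real.sqrt n⌋₊ E (n / Real.log n ^ A) := by
  have hC : (0 : ℝ) < (E + 1 : ℝ) ^ ((E + 1) ^ 10) := by positivity
  obtain ⟨n1, hn1⟩ := v5_large A _ hC
  refine ⟨max n1 3, fun n hn p1 N r y1 y2 hp1 hr hy => ?_⟩
  have h1 := hn1 n (le_trans (le_max_left _ _) hn)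
  have hr0 : 0 < r := by
    rcases hr with rfl | rfl
    · norm_num
    · exact hp1.pos
  refine ⟨fun _ => 1, fun _ => zero_le_one, ?_, ?_⟩
  · intro m hm hmD hpm c _
    have hm0 : 0 < m := Nat.pos_of_ne_zero hm.ne_zero
    have hcop : Nat.Coprime r m := by
      rcases hr with rfl | rfl
      · exact Nat.coprime_one_left m
      · exact (Nat.Prime.coprime_iff_not_dvd hp1).2 hpm
    obtain ⟨v, hv1, hv2⟩ := Nat.chineseRemainder hcop N c
    have hset : ((Ioc y1 y2).filter (fun t => t ≡ N [MOD r])).filter (fun t => t ≡ c [MOD m]) =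
        (Ioc y1 y2).filter (fun t => t ≡ v [MOD (r * m)]) := by
      rw [Finset.filter_filter]
      refine Finset.filter_congr fun t _ => ?_
      rw [← Nat.modEq_and_modEq_iff_modEq_mul hcop]
      constructor
      · rintro ⟨h1, h2⟩
        exact ⟨h1.trans hv1.symm, h2.trans hv2.symm⟩
      · rintro ⟨h1, h2⟩
        exact ⟨h1.trans hv1, h2.trans hv2⟩
    have hpr : (m : ℝ) = ∏ p ∈ m.primeFactors, (p : ℝ) := by
      have := Nat.prod_primeFactors_of_squarefree hm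
      conv_lhs => rw [← this]
      push_cast
      rfl
    have h2 := v5_count y1 y2 (r * m) v (Nat.mul_pos hr0 hm0) hy
    have e1 : ∑ i ∈ (sI N r y1 y2).S.filter (fun i => (sI N r y1 y2).x i ≡ c [MOD m]),
        (sI N r y1 y2).wt i = (((Ioc y1 y2).filter (fun t => t ≡ v [MOD (r * m)])).card : ℝ) := by
      simp only [sI]
      rw [hset]
      simp
    have e2 : (sI N r y1 y2).X * ∏ q ∈ m.primeFactors, (sI N r y1 y2).hd q =
        ((y2 : ℝ) - y1) / ((r * m : ℕ) : ℝ) := by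
      simp only [sI]
      rw [Finset.prod_div_distrib, ← hpr]
      push_cast
      simp only [Finset.prod_const_one]
      field_simp
    rw [e1, e2]
    exact h2
  · have hD : ((⌊Real.sqrt n⌋₊ : ℕ) : ℝ) ≤ Real.sqrt n := Nat.floor_le (Real.sqrt_nonneg _)
    calc ∑ m ∈ (Icc 1 ⌊Real.sqrt n⌋₊).filter (fun m => Squarefree m ∧ ¬ p1 ∣ m),
          (E : ℝ) ^ m.primeFactors.card * 1
        ≤ ∑ m ∈ (Icc 1 ⌊Real.sqrt n⌋₊).filter (fun m => Squarefree m ∧ ¬ p1 ∣ m),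
          (E + 1 : ℝ) ^ ((E + 1) ^ 10) * (Real.sqrt n) ^ (1 / 10 : ℝ) := by
          refine Finset.sum_le_sum fun m hm => ?_
          rw [Finset.mem_filter, Finset.mem_Icc] at hm
          rw [mul_one]
          refine (v5_omega E m hm.2.1).trans (mul_le_mul_of_nonneg_left ?_ hC.le)
          refine Real.rpow_le_rpow (Nat.cast_nonneg _) ?_ (by norm_num)
          exact le_trans (by exact_mod_cast hm.1.2) hD
      _ = (((Icc 1 ⌊Real.sqrt n⌋₊).filter (fun m => Squarefree m ∧ ¬ p1 ∣ m)).card : ℝ) *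
          ((E + 1 : ℝ) ^ ((E + 1) ^ 10) * (Real.sqrt n) ^ (1 / 10 : ℝ)) := by
          rw [Finset.sum_const, nsmul_eq_mul]
      _ ≤ Real.sqrt n * ((E + 1 : ℝ) ^ ((E + 1) ^ 10) * (Real.sqrt n) ^ (1 / 10 : ℝ)) := by
          refine mul_le_mul_of_nonneg_right ?_ (by positivity)
          refine le_trans ?_ hD
          have : ((Icc 1 ⌊Real.sqrt n⌋₊).filter (fun m => Squarefree m ∧ ¬ p1 ∣ m)).card ≤
              ⌊Real.sqrt n⌋₊ := by
            refine (Finset.card_filter_le _ _).trans ?_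
            simp
          exact_mod_cast this
      _ = (E + 1 : ℝ) ^ ((E + 1) ^ 10) * (n : ℝ) ^ (11 / 20 : ℝ) := by
          have hn0 : (0 : ℝ) ≤ n := Nat.cast_nonneg _
          have e3 : Real.sqrt n * (Real.sqrt n) ^ (1 / 10 : ℝ) = (n : ℝ) ^ (11 / 20 : ℝ) := by
            rw [Real.sqrt_eq_rpow, ← Real.rpow_mul hn0, ← Real.rpow_add_of_nonneg hn0 (by norm_num) (by norm_num)]
            norm_num
          rw [← e3]
          ring
      _ ≤ _ := h1

end Pool.Agent.Lib.H57C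
end

-- from Lib.H59C.CTO
section

/-!
# CTO: the switching constant
-/

open Finset MeasureTheory

namespace Pool.Agent.Lib.H59C

/-- The function of the outer sum. -/
noncomputable def ctoF (x : ℝ) : ℝ := Real.log (max 1 (2 - 3 * x)) / (1 - x)

theorem cto_anti (b : ℝ) (hb : b ≤ 1 / 2) : AntitoneOn ctoF (Set.Icc (1 / 8) b) := by
  intro x hx y hy hxy
  rw [Set.mem_Icc] at hx hy
  unfold ctoF
  have hx1 : 0 < 1 - x := by linarith
  have hy1 : 0 < 1 - y := by linarith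
  rcases le_or_gt (2 - 3 * y) 1 with h | h
  · rw [max_eq_left h, Real.log_one, zero_div]
    apply div_nonneg _ hx1.le
    exact Real.log_nonneg (le_max_left _ _)
  · rw [max_eq_right h.le, max_eq_right (by linarith : 1 ≤ 2 - 3 * x)]
    rw [div_le_div_iff₀ hy1 hx1]
    obtain ⟨u, hu⟩ : ∃ u : ℝ, u = 2 - 3 * x := ⟨_, rfl⟩
    obtain ⟨v, hv⟩ : ∃ v : ℝ, v = 2 - 3 * y := ⟨_, rfl⟩
    have e1 : 1 - x = (1 + u) / 3 := by rw [hu]; ring
    have e2 : 1 - y = (1 + v) / 3 := by rw [hv]; ring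
    rw [← hu, ← hv, e1, e2]
    have hv1 : 1 < v := by rw [hv]; exact h
    have hvu : v ≤ u := by rw [hu, hv]; linarith
    have hu1 : u ≤ 13 / 8 := by rw [hu]; linarith
    have hv0 : 0 < v := by linarith
    have hu0 : 0 < u := by linarith
    have h1 : (u - v) / u ≤ Real.log u - Real.log v := by
      rw [← Real.log_div hu0.ne' hv0.ne']
      have h2 := Real.one_sub_inv_le_log_of_pos (div_pos hu0 hv0)
      have h3 : 1 - (u / v)⁻¹ = (u - v) / u := by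
        field_simp
      linarith
    have h2 : Real.log v ≤ v - 1 := Real.log_le_sub_one_of_pos hv0
    have h3 : (u - v) * Real.log v ≤ (1 + v) * ((u - v) / u) := by
      have h4 : (1 + v) * ((u - v) / u) = (u - v) * ((1 + v) / u) := by ring
      rw [h4]
      apply mul_le_mul_of_nonneg_left _ (by linarith)
      have h5 : 1 ≤ (1 + v) / u := by
        rw [le_div_iff₀ hu0]
        linarith
      linarith
    have h4 : (1 + v) * ((u - v) / u) ≤ (1 + v) * (Real.log u - Real.log v) :=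
      mul_le_mul_of_nonneg_left h1 (by linarith)
    nlinarith

theorem cto_bound (b x : ℝ) (hb : b ≤ 1 / 3 + 1 / 100) (hx : x ∈ Set.Icc (1 / 8) b) :
    |ctoF x| ≤ 1 := by
  rw [Set.mem_Icc] at hx
  unfold ctoF
  have hx1 : 0 < 1 - x := by linarith
  have h0 : (0 : ℝ) < max 1 (2 - 3 * x) := lt_of_lt_of_le one_pos (le_max_left _ _)
  rw [abs_of_nonneg (div_nonneg (Real.log_nonneg (le_max_left _ _)) hx1.le),
    div_le_one hx1]
  have h1 := Real.log_le_sub_one_of_pos h0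
  have h2 : max 1 (2 - 3 * x) ≤ 13 / 8 := by
    apply max_le
    · norm_num
    · linarith
  linarith

theorem cto_cont (a b : ℝ) (ha : 1 / 8 ≤ a) (hb : b ≤ 1 / 2) :
    ContinuousOn (fun x : ℝ => ctoF x / x) (Set.Icc a b) := by
  unfold ctoF
  apply ContinuousOn.div
  · apply ContinuousOn.div
    · apply ContinuousOn.log
      · fun_prop
      · intro x _
        have : (0 : ℝ) < max 1 (2 - 3 * x) := lt_of_lt_of_le one_pos (le_max_left _ _)
        exact this.ne'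
    · fun_prop
    · intro x hx
      rw [Set.mem_Icc] at hx
      have : 0 < 1 - x := by linarith
      exact this.ne'
  · fun_prop
  · intro x hx
    rw [Set.mem_Icc] at hx
    have : 0 < x := by linarith
    exact this.ne'

theorem cto_int (b : ℝ) (hb : 1 / 3 ≤ b) (hb2 : b ≤ 1 / 2) :
    ∫ x in (1 / 8 : ℝ)..b, ctoF x / x ≤ 372 / 1000 := by
  have i1 : IntervalIntegrable (fun x : ℝ => ctoF x / x) volume (1 / 8) (1 / 3) := by
    apply ContinuousOn.intervalIntegrable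
    rw [Set.uIcc_of_le (by norm_num)]
    exact cto_cont _ _ le_rfl (by norm_num)
  have i2 : IntervalIntegrable (fun x : ℝ => ctoF x / x) volume (1 / 3) b := by
    apply ContinuousOn.intervalIntegrable
    rw [Set.uIcc_of_le hb]
    exact cto_cont _ _ (by norm_num) hb2
  rw [← intervalIntegral.integral_add_adjacent_intervals i1 i2]
  have e2 : ∫ x in (1 / 3 : ℝ)..b, ctoF x / x = 0 := by
    have : ∫ x in (1 / 3 : ℝ)..b, ctoF x / x = ∫ x in (1 / 3 : ℝ)..b, (0 : ℝ) := by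
      apply intervalIntegral.integral_congr
      intro x hx
      rw [Set.uIcc_of_le hb, Set.mem_Icc] at hx
      show ctoF x / x = 0
      unfold ctoF
      rw [max_eq_left (by linarith), Real.log_one, zero_div, zero_div]
    rw [this]
    simp
  have e1 : ∫ x in (1 / 8 : ℝ)..(1 / 3), ctoF x / x =
      ∫ x in (1 / 8 : ℝ)..(1 / 3), Real.log (2 - 3 * x) / (x * (1 - x)) := by
    apply intervalIntegral.integral_congr
    intro x hx
    rw [Set.uIcc_of_le (by norm_num), Set.mem_Icc] at hx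
    show ctoF x / x = Real.log (2 - 3 * x) / (x * (1 - x))
    unfold ctoF
    rw [max_eq_right (by linarith), div_div, mul_comm (1 - x) x]
  rw [e1, e2, add_zero]
  exact switch_int

/-- The switching constant.

Proof. By `inner_sum` the left side is `≤ ∑_{q1 ∈ PR (zz n) (yy n)} (φ(x1) + ε)/q1` with
`φ(x) = log (max 1 (2 - 3x))/(1 - x)`, decreasing on `[1/8, 1/2]` (derivative `(log (2-3x) - 3 (1-x)/(2-3x))/(1-x)²`, and
`log (2 - 3x) ≤ 1 - 3x < 1`, `3 (1-x)/(2-3x) ≥ 3/2`; constant `0` for `x ≥ 1/3`), bounded by `1`. `prime_int` (from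
`n^(1/8)` to `n^b = (2n)^(1/3)`) and `φ = 0` beyond `1/3`: the sum tends to at most
`∫_{1/8}^{1/3} log (2 - 3x)/(x (1 - x)) dx ≤ 372/1000` (`switch_int`); `∑ 1/q1 ≤ 2`. -/
theorem triple_sum : ∃ n0 : ℕ, ∀ n : ℕ, n0 ≤ n →
    Real.log n * ∑ q1 ∈ PR (zz n) (yy n),
      ∑ q2 ∈ (PR (yy n) n).filter (fun q2 => q1 * q2 ^ 2 ≤ 3 * n),
        1 / ((q1 : ℝ) * q2 * Real.log (n / (20 * q1 * q2))) ≤ 373 / 1000 := by
  obtain ⟨C, hC, hpi⟩ := prime_int
  obtain ⟨n1, hn1⟩ := inner_sum (1 / 4000) (by norm_num)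
  obtain ⟨n2, hn2⟩ := prime_S2 1 (by norm_num) 0 1 le_rfl
  obtain ⟨n3, hn3⟩ := cdl_log (max 100 (16000 * C))
  obtain ⟨n4, hn4⟩ := cdl_zz 2
  refine ⟨n1 + n2 + n3 + n4 + 3, fun n hn => ?_⟩
  have hN : (3 : ℝ) ≤ n := by exact_mod_cast (by omega : 3 ≤ n)
  have hL : 0 < Real.log n := Real.log_pos (by linarith)
  obtain ⟨L, hLdef⟩ : ∃ L : ℝ, L = Real.log n := ⟨_, rfl⟩
  have hLn := hn3 n (by omega)
  have hz2 := hn4 n (by omega)
  have hin := hn1 n (by omega)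
  obtain ⟨-, hs2⟩ := hn2 n (by omega)
  rw [← hLdef] at hL hLn hin ⊢
  have hL1 : 100 ≤ L := le_trans (le_max_left _ _) hLn
  have hL2 : 16000 * C ≤ L := le_trans (le_max_right _ _) hLn
  have hzpos : 0 < zz n := by linarith
  obtain ⟨b, hb⟩ : ∃ b : ℝ, b = 1 / 3 + 1 / 100 := ⟨_, rfl⟩
  have hlog2 : Real.log 2 ≤ 1 := by
    have := Real.log_two_lt_d9
    linarith
  have hyypos : 0 < yy n := by unfold yy; positivity
  have hyb : yy n ≤ (n : ℝ) ^ b := by
    rw [← Real.log_le_log_iff hyypos (by positivity), Real.log_rpow (by linarith),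
      ← hLdef, hb]
    unfold yy
    rw [Real.log_rpow (by linarith), Real.log_mul (by norm_num) (by linarith), ← hLdef]
    linarith
  have hsub : PR (zz n) (yy n) ⊆ PR ((n : ℝ) ^ (1 / 8 : ℝ)) ((n : ℝ) ^ b) := by
    intro q hq
    rw [mem_PR] at hq ⊢
    exact ⟨hq.1, hq.2.1, lt_of_lt_of_le hq.2.2 hyb⟩
  have hpi1 := hpi n (1 / 8) b 1 ctoF (by omega) (by norm_num) (by rw [hb]; norm_num)
    (by rw [hb]; norm_num) hz2 (Or.inr (cto_anti b (by rw [hb]; norm_num)))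
    (fun x hx => cto_bound b x (by rw [hb]) hx)
  rw [← hLdef, abs_le] at hpi1
  have hint := cto_int b (by rw [hb]; norm_num) (by rw [hb]; norm_num)
  have hqf : ∀ q ∈ PR ((n : ℝ) ^ (1 / 8 : ℝ)) ((n : ℝ) ^ b), (0 : ℝ) < q ∧
      Real.log q / L ∈ Set.Icc (1 / 8 : ℝ) b := by
    intro q hq
    obtain ⟨hqp, hq1, hq2⟩ := mem_PR.mp hq
    have hq1' : zz n ≤ q := hq1
    have hq0 : (0 : ℝ) < q := by linarith
    refine ⟨hq0, ?_, ?_⟩
    · rw [le_div_iff₀ hL]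
      have := Real.log_le_log (by positivity) hq1
      rw [Real.log_rpow (by linarith), ← hLdef] at this
      exact this
    · rw [div_le_iff₀ hL]
      have := Real.log_le_log hq0 hq2.le
      rw [Real.log_rpow (by linarith), ← hLdef] at this
      exact this
  have hF0 : ∀ x ∈ Set.Icc (1 / 8 : ℝ) b, 0 ≤ ctoF x := by
    intro x hx
    rw [Set.mem_Icc] at hx
    unfold ctoF
    apply div_nonneg (Real.log_nonneg (le_max_left _ _))
    rw [hb] at hx
    linarith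
  have hone : ∀ q1 ∈ PR (zz n) (yy n), L * ∑ q2 ∈ (PR (yy n) n).filter
      (fun q2 => q1 * q2 ^ 2 ≤ 3 * n), 1 / ((q1 : ℝ) * q2 * Real.log (n / (20 * q1 * q2))) ≤
      ctoF (Real.log q1 / L) / q1 + 1 / 4000 * gq q1 := by
    intro q1 hq1
    obtain ⟨hq0, hx⟩ := hqf q1 (hsub hq1)
    obtain ⟨hqp, hqa, hqb⟩ := mem_PR.mp hq1
    have h1 := hin q1 hqp hqa hqb
    have h2 : L * ∑ q2 ∈ (PR (yy n) n).filter (fun q2 => q1 * q2 ^ 2 ≤ 3 * n),
        1 / ((q1 : ℝ) * q2 * Real.log (n / (20 * q1 * q2))) =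
        1 / (q1 : ℝ) * ∑ q2 ∈ (PR (yy n) n).filter (fun q2 => q1 * q2 ^ 2 ≤ 3 * n),
          L / ((q2 : ℝ) * Real.log (n / (20 * q1 * q2))) := by
      rw [mul_sum, mul_sum]
      apply sum_congr rfl
      intro q2 _
      rw [mul_one_div, div_mul_div_comm, one_mul, mul_assoc]
    rw [h2]
    have h3 : 1 / (q1 : ℝ) ≤ gq q1 := by
      unfold gq
      apply div_le_div_of_nonneg_left zero_le_one
      · linarith
      · linarith
    calc 1 / (q1 : ℝ) * ∑ q2 ∈ (PR (yy n) n).filter (fun q2 => q1 * q2 ^ 2 ≤ 3 * n),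
          L / ((q2 : ℝ) * Real.log (n / (20 * q1 * q2)))
        ≤ 1 / (q1 : ℝ) * (ctoF (Real.log q1 / L) + 1 / 4000) :=
          mul_le_mul_of_nonneg_left h1 (by positivity)
      _ = ctoF (Real.log q1 / L) / q1 + 1 / 4000 * (1 / (q1 : ℝ)) := by ring
      _ ≤ ctoF (Real.log q1 / L) / q1 + 1 / 4000 * gq q1 := by
          apply add_le_add le_rfl
          exact mul_le_mul_of_nonneg_left h3 (by norm_num)
  calc L * ∑ q1 ∈ PR (zz n) (yy n), ∑ q2 ∈ (PR (yy n) n).filter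
        (fun q2 => q1 * q2 ^ 2 ≤ 3 * n), 1 / ((q1 : ℝ) * q2 * Real.log (n / (20 * q1 * q2)))
      = ∑ q1 ∈ PR (zz n) (yy n), L * ∑ q2 ∈ (PR (yy n) n).filter
        (fun q2 => q1 * q2 ^ 2 ≤ 3 * n), 1 / ((q1 : ℝ) * q2 * Real.log (n / (20 * q1 * q2))) := by
        rw [mul_sum]
    _ ≤ ∑ q1 ∈ PR (zz n) (yy n), (ctoF (Real.log q1 / L) / q1 + 1 / 4000 * gq q1) :=
        sum_le_sum hone
    _ = ∑ q1 ∈ PR (zz n) (yy n), ctoF (Real.log q1 / L) / q1 +
        1 / 4000 * ∑ q1 ∈ PR (zz n) (yy n), gq q1 := by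
        rw [sum_add_distrib, ← mul_sum]
    _ ≤ ∑ q1 ∈ PR ((n : ℝ) ^ (1 / 8 : ℝ)) ((n : ℝ) ^ b), ctoF (Real.log q1 / L) / q1 +
        1 / 4000 * 2 := by
        apply add_le_add
        · apply sum_le_sum_of_subset_of_nonneg hsub
          intro q hq _
          obtain ⟨hq0, hx⟩ := hqf q hq
          exact div_nonneg (hF0 _ hx) hq0.le
        · exact mul_le_mul_of_nonneg_left hs2 (by norm_num)
    _ ≤ (372 / 1000 + C * 1 / (1 / 8 * L)) + 1 / 4000 * 2 := by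
        linarith [hpi1.2]
    _ ≤ 373 / 1000 := by
        have h2 : C * 1 / (1 / 8 * L) = 8 * C / L := by
          field_simp
        have h3 : 8 * C / L ≤ 1 / 2000 := by
          rw [div_le_iff₀ hL]
          linarith
        rw [h2]
        linarith

end Pool.Agent.Lib.H59C
end

-- from Lib.H57T.Defs
section

/-!
# Project H57T (MP_f686a1_nt): Chen's theorem with Maynard-Tao tuples, uniformly in the shifts. Definitions

See `PROOF.md` in this folder. The shifts `h ∈ H` and the target shift `a` may be as large as `N/100`; the primes of the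
weight do not divide the differences of the elements of `H ∪ {a}`.
-/

open Finset

namespace Pool.Agent.Lib.H57T

open Pool.Agent.Lib.H15P Pool.Agent.Lib.H92G Pool.Agent.Lib.H57M Pool.Agent.Lib.H57C
open Pool.Agent.Lib.H59C (Sq lg XX gq VV PR zz yy Tri BX wB remd sift)

noncomputable section

/-! ## The transfer theorem -/

open Classical in
/-- The hypotheses of the transfer theorem. `P`: the primes of the weight, `H`: the shifts, `i`: the form which is left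
out, `R`: the bad classes modulo the primes `≤ W`, `T`: the target classes modulo the primes in `P'`. -/
structure Hy {ι : Type} (s : Seq ι) (P H : Finset ℕ) (i : Option ℕ) (W p1 : ℕ)
    (R T : ℕ → Finset ℕ) (P' : Finset ℕ) (k b : ℕ) : Prop where
  w0 : ∀ j ∈ s.S, 0 ≤ s.wt j
  X0 : 0 ≤ s.X
  al : ∀ q c c' : ℕ, c ≡ c' [MOD q] → (s.Al q c ↔ s.Al q c')
  nev : ∀ j ∈ s.S, s.wt j ≠ 0 → ∀ q : ℕ, q.Prime → (q ∈ P ∨ (q ≤ W ∧ q ≠ p1)) → s.Al q (s.x j)
  hd0 : ∀ q : ℕ, q.Prime → 0 ≤ s.hd q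
  hd2 : ∀ q : ℕ, q.Prime → s.hd q ≤ 2 / q
  hdq : ∀ q : ℕ, q.Prime → W < q → |s.hd q - 1 / q| ≤ 2 / (q : ℝ) ^ 2
  Pp : ∀ p ∈ P, p.Prime ∧ W < p
  p1p : p1.Prime
  p1W : p1 ≤ W
  HD : ∀ p ∈ P, ∀ h ∈ H, ∀ h' ∈ H, h ≠ h' → ¬ h ≡ h' [MOD p]
  iH : ∀ h, i = some h → h ∈ H
  Rr : ∀ q, R q ⊆ range q
  Rk : ∀ q ∈ Ps W p1, (R q).card ≤ k
  R1 : ∀ q ∈ Ps W p1, (((R q).filter (fun c => s.Al q c)).card : ℝ) * s.hd q ≤ 1
  P'p : ∀ q ∈ P', q.Prime ∧ W < q
  Tr : ∀ q ∈ P', T q ⊆ range q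
  Tk : ∀ q ∈ P', (T q).card ≤ k
  TA : ∀ q ∈ P', ∀ t ∈ T q, s.Al q t
  TH : ∀ q ∈ P', ∀ t ∈ T q, ∀ h ∈ H, i ≠ some h → ¬ q ∣ t + h
  bad : (P.filter (fun p => ∃ h ∈ H, i ≠ some h ∧ ∃ c : ℕ, p ∣ c + h ∧ ¬ s.Al p c)).card ≤ b

/-- What is assumed about the weight (all shifts at most `n/100`, no prime of the weight divides a difference). -/
structure Pre0 (B cF : ℕ) (θ : ℝ) {K : ℕ} (w : Par K) (H : Finset ℕ) (n p1 : ℕ) : Prop where
  cardH : H.card = K
  HN : ∀ h ∈ H, 100 * h ≤ n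
  HD : ∀ p ∈ w.P, ∀ h ∈ H, ∀ h' ∈ H, h ≠ h' → ¬ h ≡ h' [MOD p]
  Wdef : w.W = ⌈Real.log n ^ B⌉₊
  PN : ∀ p ∈ w.P, (p : ℝ) ≤ (n : ℝ) ^ (1 / 100 : ℝ)
  p1p : p1.Prime
  p1W : p1 ≤ w.W
  exF : ExJ w.P (FC w H) (Real.log n ^ cF) 3 ((n : ℝ) ^ (2 * θ))

/-! ## The concrete situation: the target is `t + a` -/

/-- The bad classes modulo `q`: `q ∣ t + h` for some `h ∈ H`, or `q ∣ t + a`. -/
def Rb (a : ℕ) (H : Finset ℕ) (q : ℕ) : Finset ℕ :=
  (range q).filter (fun c => (∃ h ∈ H, q ∣ c + h) ∨ q ∣ c + a)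

/-- The target class modulo `q`. -/
def Tg (a q : ℕ) : Finset ℕ := (range q).filter (fun c => q ∣ c + a)

/-- The good primes in `(W, N]`: they divide no difference of different elements of `H ∪ {a}`. -/
def Pg (N W : ℕ) (H : Finset ℕ) (a : ℕ) : Finset ℕ :=
  (Ioc W N).filter (fun q => q.Prime ∧ (∀ h ∈ H, ¬ a ≡ h [MOD q]) ∧
    ∀ h ∈ H, ∀ h' ∈ H, h ≠ h' → ¬ h ≡ h' [MOD q])

/-- The weight with the condition that no prime `≤ W`, `≠ p1`, divides `(t + a) ∏ (t + h)`. -/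
def Fs {K : ℕ} (w : Par K) (H : Finset ℕ) (a p1 : ℕ) (i : Option ℕ) (t : ℕ) : ℝ :=
  FF w H i t * Sg (Ps w.W p1) (Rb a H) t

/-- Small primes, integers. -/
def Va (a W p1 : ℕ) (H : Finset ℕ) : ℝ := ∏ q ∈ Ps W p1, (1 - ((Rb a H q).card : ℝ) / q)

/-- Small primes, the sequences without the classes `0` (`t + h` prime, `t + a = q1 q2 q3`). -/
def Vb (a W p1 : ℕ) (H : Finset ℕ) : ℝ :=
  Va a W p1 H * ∏ q ∈ Ps W p1, ((q : ℝ) / ((q : ℝ) - 1))

/-- The value of the switched sequence: congruent to `m q - a` modulo all `d ≤ N`. -/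
def xv (N a : ℕ) (x : ℕ × ℕ) : ℕ := x.1 * x.2 + (N.factorial - 1) * a

/-- The total weight of the `t` with `t + h` prime. -/
def Xh {K : ℕ} (w : Par K) (H : Finset ℕ) (N a p1 h : ℕ) : ℝ :=
  XX (Ya N + h) (Yb N + h) * (AE w.P H (some h) (FC w H) * Vb a w.W p1 H)

/-- The total weight of the integers. -/
def Xi {K : ℕ} (w : Par K) (H : Finset ℕ) (N a p1 : ℕ) : ℝ :=
  ((Yb N : ℝ) - Ya N) * (AE w.P H none (FC w H) * Va a w.W p1 H)

/-- The switched sequence. -/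
def sC (N a M u v : ℕ) (α : ℕ → ℝ) : Seq (ℕ × ℕ) where
  S := BX M u v
  wt := wB α
  x := xv N a
  X := H59C.XB M u v α
  hd := gq
  Al := fun q c => ¬ q ∣ c + a

/-- The value of the target if `p = t + h`. -/
def tv (a h p : ℕ) : ℕ := p - h + a

/-- What is assumed about the parameters. -/
structure Pre (B cF : ℕ) (θ : ℝ) {K : ℕ} (w : Par K) (H : Finset ℕ) (N a p1 : ℕ) : Prop
    extends Pre0 B cF θ w H N p1 where
  aN : 100 * a ≤ N
  aH : a ∉ H
  aD : ∀ p ∈ w.P, ∀ h ∈ H, ¬ a ≡ h [MOD p]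
  even : ∀ h ∈ H, 2 ∣ a + h
  nf : ∀ q : ℕ, q.Prime → (Rb a H q).card < q

open Classical in
/-- Everything that is needed for the sieve. -/
structure Reg (B cF : ℕ) (θ G : ℝ) {K : ℕ} (w : Par K) (H : Finset ℕ) (N a p1 : ℕ) : Prop
    extends Pre B cF θ w H N a p1 where
  aen0 : 0 ≤ AE w.P H none (FC w H)
  aen : AE w.P H none (FC w H) ≤ 11 / 10
  aes : ∀ h ∈ H, 36 / 100 * (1 + w.n * w.c) ^ 2 ≤ AE w.P H (some h) (FC w H)
  gain : G * Real.log N ≤ K * (1 + w.n * w.c) ^ 2 * Real.log w.W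
  remB : ∀ h ∈ H, ∑ d ∈ Dv (Pg N w.W H a) (Lv N θ),
    |∑ p ∈ (Sq (Ya N + h) (Yb N + h)).filter (fun p => d ∣ tv a h p),
        lg p * Fs w H a p1 (some h) (p - h) -
      Xh w H N a p1 h / (Nat.totient d : ℝ)| ≤ N / Real.log N ^ 10
  remC : ∀ h ∈ H, ∀ (M u v : ℕ) (α : ℕ → ℝ), (∀ m, 0 ≤ α m ∧ α m ≤ 1) →
    (∀ m, α m ≠ 0 → ∀ r : ℕ, r.Prime → r ∣ m → (N : ℝ) ^ (1 / 10 : ℝ) ≤ r) →
    (N : ℝ) ^ (1 / 4 : ℝ) ≤ M → (N : ℝ) ^ (1 / 4 : ℝ) ≤ u → u ≤ v → M * v ≤ 8 * N → ∀ z : ℝ,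
    remd (BX M u v) (fun x => wB α x * Fs w H a p1 (some h) (xv N a x)) (fun x => xv N a x + h)
      (Pg N w.W H a) z (H59C.XB M u v α * (AE w.P H (some h) (FC w H) * Vb a w.W p1 H)) (Lv N θ) ≤
      N / Real.log N ^ 10
  remI : ∑ d ∈ Dv (Pg N w.W H a) (Lv N θ),
    |∑ t ∈ (Ioc (Ya N) (Yb N)).filter (fun t => d ∣ t + a), Fs w H a p1 none t -
      Xi w H N a p1 / (Nat.totient d : ℝ)| ≤ N / Real.log N ^ 10
  remJ : ∀ h ∈ H, ∑ d ∈ Dv (Pg N w.W H a) (Lv N θ),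
    |∑ t ∈ (Ioc (Ya N) (Yb N)).filter
        (fun t => p1 ∣ t + a ∧ ∀ q ∈ d.primeFactors, q ∣ t + a ∨ q ∣ t + h),
        Fs w H a p1 (some h) t -
      ((Yb N : ℝ) - Ya N) / p1 * (AE w.P H (some h) (FC w H) * Va a w.W p1 H) *
        ((2 : ℝ) ^ d.primeFactors.card / d)| ≤ N / Real.log N ^ 10
  cls : ∀ h ∈ H, ∀ r c : ℕ, (r.Prime ∨ ∀ p ∈ w.P, r.Coprime p) → 1 ≤ r →
    ∑ t ∈ (Ioc (Ya N) (Yb N)).filter (fun t => t ≡ c [MOD r]), FF w H (some h) t ≤
      Real.log N ^ B * (N / r) / Real.log N ^ 20 + (N : ℝ) ^ (1 / 20 : ℝ)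
  mom : ∑ t ∈ Icc 1 N, FF w H none t ^ 2 ≤ Real.log N ^ B * N

/-! ## Definitions for the weighted sieve -/

section

variable {K : ℕ} (w : Par K) (H : Finset ℕ) (N a p1 h : ℕ)

/-- The weight of the prime `p = t + h`. -/
def wh (p : ℕ) : ℝ := lg p * Fs w H a p1 (some h) (p - h)

/-- `V(z)` -/
def Vz (N W : ℕ) (H : Finset ℕ) (a : ℕ) : ℝ := VV (Pg N W H a) (zz N)

/-- The bad primes in `(W, N]`: they divide some difference of different elements of `H ∪ {a}`. -/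
def Bd (N W : ℕ) (H : Finset ℕ) (a : ℕ) : Finset ℕ :=
  (Ioc W N).filter (fun q => q.Prime ∧ ((∃ h ∈ H, a ≡ h [MOD q]) ∨
    ∃ h ∈ H, ∃ h' ∈ H, h ≠ h' ∧ h ≡ h' [MOD q]))

/-- The primes with weights. -/
def Qc (N W : ℕ) (H : Finset ℕ) (a : ℕ) : Finset ℕ :=
  (PR (zz N) (yy N)).filter (fun q => q ∈ Pg N W H a)

/-- The first sum. -/
def S1s : ℝ := sift (Sh N h) (wh w H a p1 h) (fun p => tv a h p) (Pg N w.W H a) (zz N)

/-- The second sum. -/
def S2s : ℝ := ∑ q ∈ Qc N w.W H a, sift ((Sh N h).filter (fun p => q ∣ tv a h p))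
  (wh w H a p1 h) (fun p => tv a h p) (Pg N w.W H a) (zz N)

open Classical in
/-- The third sum. -/
def S3s : ℝ := ∑ p ∈ (Sh N h).filter (fun p => Tri N (tv a h p)), wh w H a p1 h p

open Classical in
/-- Exceptional: `p1` divides `t + a`. -/
def E1s : ℝ := ∑ p ∈ (Sh N h).filter (fun p => p1 ∣ tv a h p ∧
  ∀ q ∈ Pg N w.W H a, (q : ℝ) < zz N → ¬ q ∣ tv a h p), wh w H a p1 h p

/-- Exceptional: a bad prime divides `t + a`. -/
def E2s : ℝ := ∑ q ∈ Bd N w.W H a, ∑ p ∈ (Sh N h).filter (fun p => q ∣ tv a h p),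
  wh w H a p1 h p

open Classical in
/-- Exceptional: squares. -/
def E3s : ℝ := ∑ p ∈ (Sh N h).filter
  (fun p => ∃ q : ℕ, q.Prime ∧ zz N ≤ q ∧ q ^ 2 ∣ tv a h p), wh w H a p1 h p

/-- The negative part. -/
def Ns : ℝ := sift (Ioc (Ya N) (Yb N)) (Fs w H a p1 none) (fun t => t + a) (Pg N w.W H a) (zz N)

/-- The whole weighted sum. -/
def Tt (g : ℕ) : ℝ :=
  ∑ h ∈ H, (S1s w H N a p1 h - 1 / 2 * S2s w H N a p1 h - 1 / 2 * S3s w H N a p1 h -
    E1s w H N a p1 h - E2s w H N a p1 h - E3s w H N a p1 h) - ((g : ℝ) - 1) * Real.log (2 * N) *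
    Ns w H N a p1

open Classical in
/-- The good `t` in the window. -/
def Gd (H : Finset ℕ) (N a g : ℕ) : Finset ℕ :=
  (Ioc (Ya N) (Yb N)).filter (fun t => g ≤ (H.filter (fun h => (t + h).Prime)).card ∧
    AP2 N (t + a))

end

theorem Pre.to0 {B cF : ℕ} {θ : ℝ} {K : ℕ} {w : Par K} {H : Finset ℕ} {N a p1 : ℕ}
    (h : Pre B cF θ w H N a p1) : Pre0 B cF θ w H N p1 := h.toPre0

theorem Va_eq (a W p1 : ℕ) (H : Finset ℕ) : Va a W p1 H = VaR (Ps W p1) (Rb a H) := rfl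

theorem Vb_eq (a W p1 : ℕ) (H : Finset ℕ) : Vb a W p1 H = VbR (Ps W p1) (Rb a H) := rfl


end

end Pool.Agent.Lib.H57T
end

-- from Lib.H57T.RA
section

/-!
# Chunk RA: residue classes
-/

open Finset

namespace Pool.Agent.Lib.H57T

open Pool.Agent.Lib.H57C
open Pool.Agent.Lib.H57M
open Pool.Agent.Lib.H59C (gq)

theorem tg_mod {q h t : ℕ} : q ∣ t % q + h ↔ q ∣ t + h := by
  rw [Nat.dvd_iff_mod_eq_zero, Nat.dvd_iff_mod_eq_zero, Nat.add_mod t h, Nat.add_mod (t % q) h, Nat.mod_mod]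

theorem tg_mem {h q t : ℕ} (hq : 0 < q) : t % q ∈ Tg h q ↔ q ∣ t + h := by
  unfold Tg
  rw [mem_filter, mem_range, tg_mod]
  exact ⟨fun h => h.2, fun h => ⟨Nat.mod_lt _ hq, h⟩⟩

theorem tg_card {h q : ℕ} (hq : 0 < q) : (Tg h q).card = 1 := by
  rw [Finset.card_eq_one]
  refine ⟨(q - h % q) % q, ?_⟩
  ext c
  unfold Tg
  rw [mem_filter, mem_range, mem_singleton]
  constructor
  · rintro ⟨h1, h2⟩
    exact (a2_cls hq h1).1 h2
  · intro h1
    have hlt : c < q := by rw [h1]; exact Nat.mod_lt _ hq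
    exact ⟨hlt, (a2_cls hq hlt).2 h1⟩

theorem tg_inT (d t h : ℕ) (hd : Squarefree d) : inT (Tg h) d t ↔ d ∣ t + h := by
  unfold inT
  constructor
  · intro h1
    rw [← Nat.prod_primeFactors_of_squarefree hd]
    refine Finset.prod_primes_dvd _ (fun p hp => (Nat.prime_of_mem_primeFactors hp).prime) fun p hp => ?_
    exact (tg_mem (Nat.prime_of_mem_primeFactors hp).pos).1 (h1 p hp)
  · intro h1 q hq
    exact (tg_mem (Nat.prime_of_mem_primeFactors hq).pos).2 ((Nat.dvd_of_mem_primeFactors hq).trans h1)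

/-- Two classes. -/
theorem tg_ne {q t h h' : ℕ} (h1 : q ∣ t + h) (h2 : q ∣ t + h') : h ≡ h' [MOD q] := by
  have h3 : t + h ≡ t + h' [MOD q] :=
    ((Nat.modEq_zero_iff_dvd).2 h1).trans ((Nat.modEq_zero_iff_dvd).2 h2).symm
  exact Nat.ModEq.add_left_cancel' _ h3

theorem rb_sub {a : ℕ} {H : Finset ℕ} {q : ℕ} : Rb a H q ⊆ range q := filter_subset _ _

/-- At most `K + 1` bad classes: those of `-h`, `h ∈ H`, and `-a`. -/
theorem rb_card (a : ℕ) (H : Finset ℕ) (q : ℕ) : (Rb a H q).card ≤ H.card + 1 := by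
  classical
  have h1 : Rb a H q ⊆ insert ((q - a % q) % q) (H.image (fun h => (q - h % q) % q)) := by
    intro c hc
    unfold Rb at hc
    rw [mem_filter, mem_range] at hc
    obtain ⟨hcq, h2 | h2⟩ := hc
    · obtain ⟨h, hh, hd⟩ := h2
      exact mem_insert_of_mem (mem_image.2 ⟨h, hh, RA_res hcq hd⟩)
    · rw [mem_insert]
      left
      exact (RA_res hcq h2).symm
  refine (card_le_card h1).trans ((card_insert_le _ _).trans ?_)
  have := card_image_le (s := H) (f := fun h => (q - h % q) % q)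
  omega

theorem pg_spec {N W : ℕ} {H : Finset ℕ} {a q : ℕ} (hq : q ∈ Pg N W H a) :
    q.Prime ∧ W < q ∧ q ≤ N ∧ (∀ h ∈ H, ¬ a ≡ h [MOD q]) ∧
      ∀ h ∈ H, ∀ h' ∈ H, h ≠ h' → ¬ h ≡ h' [MOD q] := by
  unfold Pg at hq
  rw [mem_filter, mem_Ioc] at hq
  exact ⟨hq.2.1, hq.1.1, hq.1.2, hq.2.2.1, hq.2.2.2⟩

theorem pg_or_bd {N W : ℕ} {H : Finset ℕ} {a q : ℕ} (hq : q.Prime) (h1 : W < q) (h2 : q ≤ N) :
    q ∈ Pg N W H a ∨ q ∈ Bd N W H a := by
  by_cases h : (∃ h ∈ H, a ≡ h [MOD q]) ∨ ∃ h ∈ H, ∃ h' ∈ H, h ≠ h' ∧ h ≡ h' [MOD q]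
  · right
    unfold Bd
    rw [mem_filter, mem_Ioc]
    exact ⟨⟨h1, h2⟩, hq, h⟩
  · left
    push Not at h
    unfold Pg
    rw [mem_filter, mem_Ioc]
    exact ⟨⟨h1, h2⟩, hq, h.1, h.2⟩

theorem pre_hrt (B cF : ℕ) (θ : ℝ) {K : ℕ} (w : Par K) (H : Finset ℕ) (N a p1 : ℕ)
    (h : Pre B cF θ w H N a p1) :
    HRT K 1 w.W p1 H (Rb a H) (Tg a) (Pg N w.W H a) := by
  have hPs : ∀ q ∈ Ps w.W p1, q.Prime := by
    intro q hq
    unfold Ps at hq
    exact (mem_filter.1 hq).2.1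
  refine ⟨fun q => filter_subset _ _, fun q hq => ?_, fun q hq => h.nf q (hPs q hq), ?_,
    fun q hq => ⟨(pg_spec hq).1, (pg_spec hq).2.1⟩, fun q hq => ?_, fun q hq => ?_, ?_⟩
  · have h1 := rb_card a H q
    rwa [h.cardH] at h1
  · intro q hq h' hh' c hc hd
    unfold Rb
    rw [mem_filter, mem_range]
    exact ⟨hc, Or.inl ⟨h', hh', hd⟩⟩
  · unfold Tg
    exact filter_subset _ _
  · exact (tg_card (pg_spec hq).1.pos).le
  · intro q hq t ht h' hh' hd
    unfold Tg at ht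
    rw [mem_filter] at ht
    exact (pg_spec hq).2.2.2.1 h' hh' (tg_ne ht.2 hd)

/-- Small primes, `t + a = q1 q2 q3`. As `vs_C` (`H57C/A2.lean`), `a2_one` with `c0 q = (q - a % q) % q`. -/
theorem vs_C (a W p1 : ℕ) (H : Finset ℕ) :
    VS (Ps W p1) (Rb a H) gq (fun q c => ¬ q ∣ c + a) = Vb a W p1 H := by
  rw [Vb_eq]
  refine vs_BR _ _ a (fun q hq => a2_Ps hq) (fun q _ => rb_sub) fun q hq c hc hd => ?_
  unfold Rb
  rw [mem_filter, mem_range]
  exact ⟨hc, Or.inr hd⟩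

theorem va_low (K B : ℕ) : ∃ n0 : ℕ, ∀ N : ℕ, n0 ≤ N → ∀ (a W p1 : ℕ) (H : Finset ℕ),
    W = ⌈Real.log N ^ B⌉₊ → H.card = K → (∀ q : ℕ, q.Prime → (Rb a H q).card < q) →
    1 / Real.log N ≤ Va a W p1 H ∧ Va a W p1 H ≤ 1 := by
  obtain ⟨n0, h0⟩ := vaR_low (K + 1) B (by omega)
  refine ⟨n0, fun N hN a W p1 H hW hH hnf => ?_⟩
  rw [Va_eq]
  refine h0 N hN W p1 (Rb a H) hW (fun q hq => ?_) fun q hq => hnf q (a2_Ps hq)
  rw [← hH]
  exact rb_card a H q

theorem vb_ge (a W p1 : ℕ) (H : Finset ℕ) (hW : 2 ≤ W) (hp : p1.Prime)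
    (hV : 0 ≤ Va a W p1 H) :
    Real.log W / 4 * Va a W p1 H ≤ Vb a W p1 H ∧ Va a W p1 H ≤ Vb a W p1 H := by
  rw [Va_eq, Vb_eq] at *
  exact vbR_ge W p1 (Rb a H) hW hp hV

end Pool.Agent.Lib.H57T
end

-- from Lib.H57T.S0
section

/-!
# Chunk S0: windows, `V(z)` and the size of the main term
-/

open Finset

namespace Pool.Agent.Lib.H57T

open Pool.Agent.Lib.H57C


open Pool.Agent.Lib.H57M
open Pool.Agent.Lib.H59C (Sq lg XX gq VV PR zz yy Tri sift Win)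

/-- The window of project H59C with `2` instead of `N + h`. -/
theorem win_h (N h : ℕ) (hN : 1000 ≤ N) (hh : 100 * h ≤ N) : Win N 2 (Ya N + h) (Yb N + h) := by
  unfold Ya Yb
  exact ⟨by omega, ⟨1, by norm_num⟩, by omega, by omega, by omega, by omega, by omega, Or.inr ⟨by omega, by omega⟩⟩

/-- The window for `t + a + 2`. -/
theorem win_a (N a : ℕ) (hN : 1000 ≤ N) (hh : 100 * a ≤ N) :
    Win N 2 (Ya N + a + 2) (Yb N + a + 2) := by
  unfold Ya Yb
  exact ⟨by omega, ⟨1, by norm_num⟩, by omega, by omega, by omega, by omega, by omega, Or.inr ⟨by omega, by omega⟩⟩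

/-- Proof. `Pg` consists of primes `> W ≥ 2`, `VV` of a subset of the odd primes is at least the one of all odd primes in `[3, z)`:
`VV_lower` with its `N = 1` (`c/log N ≤ VV`), and `VV ≤ 1`. -/
theorem vz_low : ∃ c : ℝ, 0 < c ∧ ∃ n0 : ℕ, ∀ N : ℕ, n0 ≤ N → ∀ (a W : ℕ) (H : Finset ℕ), 2 ≤ W →
    c / Real.log N ≤ Vz N W H a ∧ Vz N W H a ≤ 1 := by
  obtain ⟨c, hc, n0, hn0⟩ := Pool.Agent.Lib.H59C.VV_lower
  refine ⟨c, hc, max n0 1, fun N hN a W H hW => ?_⟩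
  have hN1 : 1 ≤ N := le_trans (le_max_right _ _) hN
  have hN1' : (1 : ℝ) ≤ N := by exact_mod_cast hN1
  have hP : ∀ q ∈ Pg N W H a, q.Prime ∧ 3 ≤ q := by
    intro q hq
    unfold Pg at hq
    rw [Finset.mem_filter, Finset.mem_Ioc] at hq
    exact ⟨hq.2.1, by omega⟩
  constructor
  · have h1 := hn0 N (le_trans (le_max_left _ _) hN) (Pg N W H a) 1 (zz N) one_pos (Nat.one_le_pow _ _ hN1)
      (by
        unfold zz
        exact Real.rpow_le_rpow_of_exponent_le hN1' (by norm_num))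
      (by
        unfold zz
        calc (N : ℝ) ^ (1 / 8 : ℝ) ≤ (N : ℝ) ^ (1 : ℝ) := Real.rpow_le_rpow_of_exponent_le hN1' (by norm_num)
          _ = N := Real.rpow_one _)
      (fun q hq => ⟨(hP q hq).1, (hP q hq).2, fun h => (hP q hq).1.one_lt.ne' (Nat.dvd_one.1 h)⟩)
    have h2 : (∏ q ∈ (1 : ℕ).primeFactors.filter (fun q => 2 < q), (((q : ℝ) - 1) / (q - 2))) = 1 := by
      rw [Nat.primeFactors_one]
      simp
    rw [h2, mul_one] at h1
    exact h1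
  · unfold Vz VV Pool.Agent.Lib.H59C.VP
    have h1 : ∀ q ∈ (Pg N W H a).filter (fun q : ℕ => (q : ℝ) < zz N), 0 ≤ gq q ∧ gq q ≤ 1 := by
      intro q hq
      have hq3 : (3 : ℝ) ≤ q := by exact_mod_cast (hP q (Finset.mem_filter.1 hq).1).2
      unfold gq
      constructor
      · exact div_nonneg zero_le_one (by linarith)
      · rw [div_le_one (by linarith)]
        linarith
    refine Finset.prod_le_one (fun q hq => ?_) fun q hq => ?_
    · linarith [(h1 q hq).2]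
    · linarith [(h1 q hq).1]

/-- Proof. `Xh = XX AE Vb`, `XX ≥ N/20` (`XX_bounds` with `win_h`), `AE ≥ 36/100` (`aes`, `c ≥ 0`), `Vb ≥ Va ≥ 1/L` (`vb_ge`, `va_low`), `Vz ≥ c/L`:
`Xh Vz ≥ c' N/L^2 ≥ N/L^3` for large `N`. -/
theorem main_low (K B cF : ℕ) (hK : 1 ≤ K) (θ G : ℝ) : ∃ n0 : ℕ, ∀ N : ℕ, n0 ≤ N →
    ∀ (w : Par K) (H : Finset ℕ) (a p1 : ℕ), Reg B cF θ G w H N a p1 → ∀ h ∈ H,
    N / Real.log N ^ 3 ≤ Xh w H N a p1 h * Vz N w.W H a ∧ 0 ≤ Xh w H N a p1 h ∧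
    (N : ℝ) / 20 ≤ XX (Ya N + h) (Yb N + h) ∧ XX (Ya N + h) (Yb N + h) ≤ N / 5 := by
  obtain ⟨c, hc, n1, hn1⟩ := vz_low
  obtain ⟨n2, hn2⟩ := va_low K B
  obtain ⟨n3, hn3⟩ := Pool.Agent.Lib.H59C.XX_bounds (1 / 10) (by norm_num)
  obtain ⟨n4, hn4⟩ := s0_large B (18 / 1000 * c) (by positivity)
  refine ⟨max (max n1 n2) (max n3 n4), fun N hN w H a p1 hR h hh => ?_⟩
  have hN1 : n1 ≤ N := le_trans (le_trans (le_max_left _ _) (le_max_left _ _)) hN
  have hN2 : n2 ≤ N := le_trans (le_trans (le_max_right _ _) (le_max_left _ _)) hN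
  have hN3 : n3 ≤ N := le_trans (le_trans (le_max_left _ _) (le_max_right _ _)) hN
  have hN4 : n4 ≤ N := le_trans (le_trans (le_max_right _ _) (le_max_right _ _)) hN
  obtain ⟨g1, g2, g3, g4⟩ := hn4 N hN4
  have hNr : (1000 : ℝ) ≤ N := by exact_mod_cast g1
  have hL0 : 0 < Real.log N := by linarith
  have hW4 : 4 ≤ w.W := by
    have := w.KW
    have h1 := w.Kpos
    nlinarith
  have hh100 : 100 * h ≤ N := hR.HN h hh
  have hwin := win_h N h g1 hh100
  obtain ⟨x1, x2⟩ := hn3 N hN3 _ _ _ hwin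
  have hdl : (N : ℝ) / 10 - 1 ≤ ((Yb N + h : ℕ) : ℝ) - ((Ya N + h : ℕ) : ℝ) := by
    have : N ≤ 10 * (Yb N + h) - 10 * (Ya N + h) + 10 := by unfold Ya Yb; omega
    have h2 : 10 * (Ya N + h) ≤ 10 * (Yb N + h) := by unfold Ya Yb; omega
    have h3 : N + 10 * (Ya N + h) ≤ 10 * (Yb N + h) + 10 := by omega
    have h4 : (N : ℝ) + 10 * ((Ya N + h : ℕ) : ℝ) ≤ 10 * ((Yb N + h : ℕ) : ℝ) + 10 := by exact_mod_cast h3
    linarith
  have hdu : ((Yb N + h : ℕ) : ℝ) - ((Ya N + h : ℕ) : ℝ) ≤ (N : ℝ) / 10 + 1 := by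
    have h3 : 10 * (Yb N + h) ≤ N + 10 * (Ya N + h) + 10 := by unfold Ya Yb; omega
    have h4 : 10 * ((Yb N + h : ℕ) : ℝ) ≤ (N : ℝ) + 10 * ((Ya N + h : ℕ) : ℝ) + 10 := by exact_mod_cast h3
    linarith
  have hX1 : (N : ℝ) / 20 ≤ XX (Ya N + h) (Yb N + h) := by
    refine le_trans ?_ x1
    nlinarith
  have hX2 : XX (Ya N + h) (Yb N + h) ≤ N / 5 := by
    refine le_trans x2 ?_
    nlinarith
  have hAE : 36 / 100 ≤ AE w.P H (some h) (FC w H) := by
    refine le_trans ?_ (hR.aes h hh)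
    have h1 : 0 ≤ (w.n : ℝ) * w.c := mul_nonneg (Nat.cast_nonneg _) w.c0
    nlinarith
  obtain ⟨v1, _⟩ := hn2 N hN2 a w.W p1 H hR.Wdef hR.cardH hR.nf
  have hva0 : 0 ≤ Va a w.W p1 H := le_trans (by positivity) v1
  have hvb : 1 / Real.log N ≤ Vb a w.W p1 H := le_trans v1 (vb_ge a w.W p1 H (by omega) hR.p1p hva0).2
  obtain ⟨z1, _⟩ := hn1 N hN1 a w.W H (by omega)
  have hXh : (N : ℝ) / 20 * (36 / 100 * (1 / Real.log N)) ≤ Xh w H N a p1 h := by
    unfold Xh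
    refine mul_le_mul hX1 (mul_le_mul hAE hvb (by positivity) (by linarith)) (by positivity) (by linarith)
  have hXh0 : 0 ≤ Xh w H N a p1 h := le_trans (by positivity) hXh
  refine ⟨?_, hXh0, hX1, hX2⟩
  calc (N : ℝ) / Real.log N ^ 3 = N / Real.log N ^ 3 * 1 := (mul_one _).symm
    _ ≤ N / Real.log N ^ 3 * (18 / 1000 * c * Real.log N) := mul_le_mul_of_nonneg_left g3 (by positivity)
    _ = (N : ℝ) / 20 * (36 / 100 * (1 / Real.log N)) * (c / Real.log N) := by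
        field_simp
        ring
    _ ≤ Xh w H N a p1 h * Vz N w.W H a := mul_le_mul hXh z1 (by positivity) hXh0

end Pool.Agent.Lib.H57T
end

-- from Lib.H59C.SW1
section

/-!
# SW1: the logarithmic derivative of a non exceptional L-function
-/

open Finset Metric

namespace Pool.Agent.Lib.H59C

open Pool.Agent.Lib.H68T (PC p0 Rg zero_free_complex zero_free_real vonMangoldt_le local_bound
  INV2_mul INV2_lseries INV2_norm_le INV2_logderiv LFunction_bound)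

/-- Control of `-L'/L(s, χ)` in the rectangle `Rg c' Q`. -/
def LogInv (c' C : ℝ) (Q : ℕ) (p : PCh) : Prop :=
  ∃ g : ℂ → ℂ, AnalyticOnNhd ℂ g (Rg c' Q) ∧
    (∀ s : ℂ, 1 < s.re → g s = LSeries (fun n => (ArithmeticFunction.vonMangoldt n : ℂ) *
      p.2 (n : ZMod p.1)) s) ∧ ∀ s ∈ Rg c' Q, ‖g s‖ ≤ C * Real.log Q

/-- As `H68T.inv_single` (file `H68X/XZ1.lean`, copied from `H68T/INV2.lean`, which bounds `1/L` by means of
`H68T.local_bound`), now for `g = -L'/L`: `local_bound` bounds `deriv f s / f s` as well; for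
`Re s > 1` `g` is the L-series of `Λ χ` (`DirichletCharacter.LSeries_twist_vonMangoldt_eq`,
`INV2_logderiv`; compare `log_exc` in `H68X/XZ4.lean`, which treats the exceptional character). -/
theorem log_single (c : ℝ) (hc : 0 < c) : ∃ c' C K : ℝ, 0 < c' ∧ 0 < C ∧ ∀ Q : ℕ, K ≤ Q →
    ∀ (r : ℕ) [NeZero r] (ψ : DirichletCharacter ℂ r), r ≤ Q → ψ.IsPrimitive → ψ ≠ 1 →
    (ψ ^ 2 = 1 → ∀ σ : ℝ, 1 - c / Real.log Q ≤ σ → σ ≤ 1 → ψ.LFunction (σ : ℂ) ≠ 0) →
    LogInv c' C Q ⟨r, ψ⟩ := by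
  obtain ⟨c₁, K₁, hc₁, hZ1⟩ := zero_free_complex
  obtain ⟨c₂, K₂, hc₂, hZ2⟩ := zero_free_real
  obtain ⟨C₀, hC₀, hvM⟩ := vonMangoldt_le
  obtain ⟨A, hA, hloc⟩ := local_bound
  set b : ℝ := min (min c₁ c₂) (min c 1) with hb
  have hb0 : 0 < b := by
    rw [hb]
    exact lt_min (lt_min hc₁ hc₂) (lt_min hc one_pos)
  have hb1 : b ≤ c₁ := (min_le_left _ _).trans (min_le_left _ _)
  have hb2 : b ≤ c₂ := (min_le_left _ _).trans (min_le_right _ _)
  have hb3 : b ≤ c := (min_le_right _ _).trans (min_le_left _ _)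
  have hb4 : b ≤ 1 := (min_le_right _ _).trans (min_le_right _ _)
  set m : ℝ := 16 + 3 / b with hm
  have hm16 : 16 ≤ m := by
    rw [hm]
    have : 0 ≤ 3 / b := by positivity
    linarith
  set E : ℝ := 2 * A * (m + 1) with hE
  refine ⟨b / 3, 2 * A * (m + 1) + (3 / b + C₀), K₁ ⊔ K₂ ⊔ Real.exp (32 + C₀ + 3 / b),
    by positivity, by positivity, ?_⟩
  intro Q hQ r _ ψ hrQ _hprim hψ hgood
  have hQ1 : K₁ ≤ Q := le_sup_left.trans (le_sup_left.trans hQ)
  have hQ2 : K₂ ≤ Q := le_sup_right.trans (le_sup_left.trans hQ)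
  have hQ3 : Real.exp (32 + C₀ + 3 / b) ≤ Q := le_sup_right.trans hQ
  have hQpos : (0 : ℝ) < Q := (Real.exp_pos _).trans_le hQ3
  set L : ℝ := Real.log Q with hL
  have hLge : 32 + C₀ + 3 / b ≤ L := (Real.le_log_iff_exp_le hQpos).2 hQ3
  have h3b : 0 < 3 / b := by positivity
  have hL32 : 32 ≤ L := by linarith
  have hLpos : 0 < L := by linarith
  have hQexp : (Q : ℝ) = Real.exp L := (Real.exp_log hQpos).symm
  have hQ10 : (10 : ℝ) ≤ Q := by
    rw [hQexp]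
    linarith [Real.add_one_le_exp L]
  have hf := DirichletCharacter.differentiable_LFunction hψ
  -- the zeros
  have hzeros : ∀ ρ : ℂ, ψ.LFunction ρ = 0 → |ρ.im| ≤ (Q : ℝ) ^ 12 + 1 → ρ.re < 1 - b / L := by
    intro ρ hρ him
    by_contra hcon
    push Not at hcon
    have hlt : ρ.re < 1 := by
      by_contra h1
      exact DirichletCharacter.LFunction_ne_zero_of_one_le_re ψ (Or.inl hψ) (not_lt.1 h1) hρ
    by_cases hsq : ψ ^ 2 = 1
    · by_cases him0 : ρ.im = 0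
      · have h1 : (ρ.re : ℂ) = ρ := by
          apply Complex.ext
          · simp
          · simp [him0]
        refine hgood hsq ρ.re ?_ hlt.le (by rw [h1]; exact hρ)
        have : b / L ≤ c / L := div_le_div_of_nonneg_right hb3 hLpos.le
        linarith
      · have h1 := hZ2 Q hQ2 r ψ hrQ hψ hsq ρ hρ him0 him
        have : b / L ≤ c₂ / L := div_le_div_of_nonneg_right hb2 hLpos.le
        linarith
    · have h1 := hZ1 Q hQ1 r ψ hrQ hsq ρ hρ him
      have : b / L ≤ c₁ / L := div_le_div_of_nonneg_right hb1 hLpos.le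
      linarith
  have hbL : 0 < b / L := by positivity
  have hb3L : b / 3 / L = b / L / 3 := by ring
  have hne : ∀ s ∈ Rg (b / 3) Q, ψ.LFunction s ≠ 0 := by
    rintro s ⟨h1, _, h3⟩ h0
    rw [← hL, hb3L] at h1
    have := hzeros s h0 (by linarith)
    linarith
  -- the bound to the right of `1`
  have hright : ∀ s : ℂ, 1 < s.re → ‖(ψ.LFunction s)⁻¹‖ ≤ 1 + 1 / (s.re - 1) := by
    intro s hs
    have h1 := INV2_mul r ψ s hs
    have h2 : (ψ.LFunction s)⁻¹ =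
        LSeries (fun n => (ArithmeticFunction.moebius n : ℂ) * ψ (n : ZMod r)) s :=
      inv_eq_of_mul_eq_one_right h1
    rw [h2]
    exact INV2_lseries _ (INV2_norm_le r ψ) s hs
  refine ⟨fun s => -(deriv ψ.LFunction s / ψ.LFunction s), ?_, ?_, ?_⟩
  · intro s hs
    exact (((hf.analyticAt s).deriv).div (hf.analyticAt s) (hne s hs)).neg
  · intro s hs
    have h1 := DirichletCharacter.LSeries_twist_vonMangoldt_eq ψ hs
    have h2 : ((fun n : ℕ => ψ (n : ZMod r)) * fun n : ℕ => (ArithmeticFunction.vonMangoldt n : ℂ)) =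
        fun n : ℕ => (ArithmeticFunction.vonMangoldt n : ℂ) * ψ (n : ZMod r) := by
      funext n
      simp only [Pi.mul_apply]
      ring
    rw [h2, ← DirichletCharacter.deriv_LFunction_eq_deriv_LSeries ψ hs,
      ← DirichletCharacter.LFunction_eq_LSeries ψ hs] at h1
    simp only
    rw [h1]
    ring
  · rintro s hs
    obtain ⟨hs1, hs2, hs3⟩ := id hs
    rw [← hL, hb3L] at hs1
    rw [← hL, norm_neg]
    have hbase' : ∀ x : ℝ, b / L / 3 ≤ x → 1 / x ≤ 3 / b * L := by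
      intro x hx
      rw [div_le_iff₀ (by linarith [show 0 < b / L / 3 by positivity])]
      calc (1 : ℝ) = 3 / b * L * (b / L / 3) := by field_simp
        _ ≤ 3 / b * L * x := mul_le_mul_of_nonneg_left hx (by positivity)
    have hbase : ∀ x : ℝ, b / L / 3 ≤ x → 1 + 1 / x ≤ (1 + 3 / b) * L := by
      intro x hx
      have h1 := hbase' x hx
      have h2 : (1 + 3 / b) * L = L + 3 / b * L := by ring
      rw [h2]
      linarith
    have hAm : 0 ≤ 2 * A * (m + 1) * L := by positivity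
    rcases le_or_gt (1 + b / L / 3) s.re with hcase | hcase
    · -- right part
      have h1 := (INV2_logderiv r ψ s (by linarith [show 0 < b / L / 3 by positivity])).trans
        (hvM s.re (by linarith [show 0 < b / L / 3 by positivity]) hs2)
      have h2 := hbase' (s.re - 1) (by linarith)
      have h3 : (2 * A * (m + 1) + (3 / b + C₀)) * L =
          2 * A * (m + 1) * L + (3 / b * L + C₀ * L) := by ring
      have h4 : C₀ ≤ C₀ * L := le_mul_of_one_le_right hC₀.le (by linarith)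
      rw [h3]
      linarith
    · -- left part
      have hx3 : 0 < b / L / 3 := by positivity
      set s₀ : ℂ := ⟨1 + b / L / 3, s.im⟩ with hs₀
      have hs₀re : s₀.re = 1 + b / L / 3 := rfl
      have hs₀im : s₀.im = s.im := rfl
      have hbL1 : b / L ≤ 1 / 32 := by
        rw [div_le_div_iff₀ hLpos (by norm_num)]
        linarith
      have hs0gt : 1 < s₀.re := by rw [hs₀re]; linarith
      have hf0 : ψ.LFunction s₀ ≠ 0 :=
        DirichletCharacter.LFunction_ne_zero_of_one_le_re ψ (Or.inl hψ) hs0gt.le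
      have hinv0 : ‖(ψ.LFunction s₀)⁻¹‖ ≤ (1 + 3 / b) * L := by
        have h1 := hright s₀ hs0gt
        refine h1.trans (hbase _ ?_)
        rw [hs₀re]
        linarith
      have hf0pos : 0 < ‖ψ.LFunction s₀‖ := norm_pos_iff.2 hf0
      have hnorms₀ : ‖s₀‖ ≤ 2 + (Q : ℝ) ^ 12 := by
        have h1 := Complex.norm_le_abs_re_add_abs_im s₀
        rw [hs₀re, hs₀im, abs_of_pos (by linarith)] at h1
        linarith
      have hM0 : 0 ≤ m * L := by positivity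
      have hres := hloc ψ.LFunction s₀ (1 / 2) (m * L) (2 * (b / L / 3)) (by norm_num) hM0
        (by positivity) (by linarith) (fun z _ => hf.analyticAt z) hf0 ?_ ?_ ?_ s ?_
      · obtain ⟨_, h2, _⟩ := hres
        have h4 : A * (m * L + 1) / (1 / 2) = 2 * A * (m * L + 1) := by ring
        rw [h4] at h2
        have h5 : 2 * A * (m * L + 1) ≤ 2 * A * ((m + 1) * L) := by
          refine mul_le_mul_of_nonneg_left ?_ (by positivity)
          linarith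
        have h6 : (2 * A * (m + 1) + (3 / b + C₀)) * L =
          2 * A * ((m + 1) * L) + (3 / b + C₀) * L := by ring
        have h7 : 0 ≤ (3 / b + C₀) * L := by positivity
        rw [h6]
        linarith
      · -- growth
        intro z hz
        rw [mem_closedBall, dist_eq_norm] at hz
        have hre : 1 / 2 ≤ z.re := by
          have h1 := Complex.abs_re_le_norm (z - s₀)
          rw [Complex.sub_re, hs₀re] at h1
          have h2 := neg_abs_le (z.re - (1 + b / L / 3))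
          linarith
        have h1 := LFunction_bound r ψ hψ z hre
        have h2 : ‖z‖ ≤ ‖s₀‖ + 1 / 2 := by
          have := norm_add_le (z - s₀) s₀
          rw [sub_add_cancel] at this
          linarith
        have h3 : (r : ℝ) ≤ Q := by exact_mod_cast hrQ
        have hQ12 : (10 : ℝ) ^ 12 ≤ (Q : ℝ) ^ 12 := pow_le_pow_left₀ (by norm_num) hQ10 12
        have h4 : ‖ψ.LFunction z‖ ≤ (Q : ℝ) ^ 14 := by
          calc ‖ψ.LFunction z‖ ≤ 2 * r * ‖z‖ := h1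
            _ ≤ 2 * Q * (2 * (Q : ℝ) ^ 12) := by
                refine mul_le_mul (by linarith) ?_ (norm_nonneg _) (by positivity)
                norm_num at hQ12
                linarith
            _ = 4 * (Q : ℝ) ^ 13 := by ring
            _ ≤ Q * (Q : ℝ) ^ 13 := mul_le_mul_of_nonneg_right (by linarith) (by positivity)
            _ = (Q : ℝ) ^ 14 := by ring
        have h5 : 1 ≤ ((1 + 3 / b) * L) * ‖ψ.LFunction s₀‖ := by
          rw [norm_inv, inv_le_iff_one_le_mul₀ hf0pos] at hinv0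
          exact hinv0
        have h6 : (1 + 3 / b) * L ≤ (Q : ℝ) ^ 2 := by
          have h7 : L ≤ Q := by
            rw [hQexp]
            linarith [Real.add_one_le_exp L]
          calc (1 + 3 / b) * L ≤ L * L := mul_le_mul_of_nonneg_right (by linarith) hLpos.le
            _ ≤ Q * Q := mul_le_mul h7 h7 hLpos.le hQpos.le
            _ = (Q : ℝ) ^ 2 := by ring
        have h8 : (Q : ℝ) ^ 16 ≤ Real.exp (m * L) := by
          rw [hQexp, ← Real.exp_nat_mul]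
          refine Real.exp_le_exp.2 ?_
          push_cast
          exact mul_le_mul_of_nonneg_right hm16 hLpos.le
        calc ‖ψ.LFunction z‖ ≤ (Q : ℝ) ^ 14 * 1 := by rw [mul_one]; exact h4
          _ ≤ (Q : ℝ) ^ 14 * ((Q : ℝ) ^ 2 * ‖ψ.LFunction s₀‖) := by
              refine mul_le_mul_of_nonneg_left ?_ (by positivity)
              exact h5.trans (mul_le_mul_of_nonneg_right h6 hf0pos.le)
          _ = (Q : ℝ) ^ 16 * ‖ψ.LFunction s₀‖ := by ring
          _ ≤ _ := mul_le_mul_of_nonneg_right h8 hf0pos.le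
      · -- zeros
        intro ρ hρ hρ0
        have h1 := Complex.abs_im_le_norm (ρ - s₀)
        rw [Complex.sub_im, hs₀im] at h1
        have h2 : |ρ.im| ≤ (Q : ℝ) ^ 12 + 1 := by
          have h3 : |ρ.im| ≤ |ρ.im - s.im| + |s.im| := by
            have := abs_add_le (ρ.im - s.im) s.im
            rwa [sub_add_cancel] at this
          linarith
        have h4 := hzeros ρ hρ0 h2
        rw [hs₀re]
        linarith
      · -- logarithmic derivative
        have h1 := INV2_logderiv r ψ s₀ hs0gt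
        have h2 := hvM s₀.re hs0gt (by rw [hs₀re]; linarith)
        have h3 : 1 / (s₀.re - 1) = 3 / b * L := by
          have h5 : s₀.re - 1 = b / L / 3 := by rw [hs₀re]; ring
          rw [h5]
          field_simp
        rw [h3] at h2
        have h4 : (m * L + 1) / (1 / 2) = 2 * (m * L + 1) := by ring
        rw [h4]
        calc ‖deriv ψ.LFunction s₀ / ψ.LFunction s₀‖ ≤ _ := h1
          _ ≤ 3 / b * L + C₀ := h2
          _ ≤ 2 * (m * L + 1) := by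
              have h6 : 2 * (m * L + 1) = 32 * L + 2 * (3 / b * L) + 2 := by rw [hm]; ring
              have h7 : 0 ≤ 3 / b * L := by positivity
              rw [h6]
              linarith
      · rw [mem_closedBall, dist_eq_norm]
        have h1 : s - s₀ = ((s.re - (1 + b / L / 3) : ℝ) : ℂ) := by
          apply Complex.ext
          · simp [hs₀re]
          · simp [hs₀im]
        rw [h1, Complex.norm_real, Real.norm_eq_abs, abs_le]
        constructor <;> linarith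

end Pool.Agent.Lib.H59C
end

-- from Lib.H59C.SW2
section

/-!
# SW2: the sum of `Λ χ` from the logarithmic derivative
-/

open Finset

namespace Pool.Agent.Lib.H59C

open Pool.Agent.Lib.H68T (PC p0 Rg Reg sw perron XPN0_core)

/-- As `H68T.pnt_sw` / `exc_sum_sw` (files `H68X/XPN0.lean`, `XPN1.lean`), but without main term:
`perron` (file `H68T/PER1.lean`) with `κ = 0`, `f = g` from `LogInv`, `T = Q^12`,
`η = min c' .../log Q`, then `XPN0_core` (which contains `unsmooth`) with `b n = Λ(n) χ(n)`. -/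
theorem psi_of_log (c' C : ℝ) (hc' : 0 < c') : ∃ K : ℝ, 1 ≤ K ∧ ∀ Q X : ℕ, Reg K Q X →
    ∀ p : PCh, 1 ≤ p.1 → LogInv c' C Q p → ∀ u : ℝ, (X : ℝ) / 8 ≤ u → u ≤ 60 * X →
    ‖∑ m ∈ Icc 1 ⌊u⌋₊, (ArithmeticFunction.vonMangoldt m : ℂ) * p.2 (m : ZMod p.1)‖ ≤
      u * sw K Q X := by
  obtain ⟨P, hP, hper⟩ := perron
  obtain ⟨K₂, hK₂1, hK₂⟩ := XPN0_core P |C| c' hP (abs_nonneg C) hc'
  refine ⟨K₂, hK₂1, fun Q X r2 p _ hlog => ?_⟩
  obtain ⟨⟨hη1, hu3, hCB, hB1, hlQ0, hQ1⟩, hcore⟩ := hK₂ Q X r2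
  obtain ⟨g, hg1, hg2, hg3⟩ := hlog
  set η : ℝ := c' / Real.log Q with hη
  have hη0 : 0 < η := by positivity
  set T : ℝ := (Q : ℝ) ^ 11 with hT
  have hT1 : 1 ≤ T := one_le_pow₀ hQ1
  have hT2 : T ≤ (Q : ℝ) ^ 12 := pow_le_pow_right₀ hQ1 (by norm_num)
  have hmem : ∀ s : ℂ, 1 - η ≤ s.re → s.re ≤ 2 → |s.im| ≤ T → s ∈ Rg c' Q := by
    intro s h1 h2 h3
    exact ⟨h1, h2, h3.trans hT2⟩
  have hf1 : AnalyticOnNhd ℂ g {s | 1 - η ≤ s.re ∧ s.re ≤ 2 ∧ |s.im| ≤ T} := by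
    intro s hs
    exact hg1 _ (hmem s hs.1 hs.2.1 hs.2.2)
  have hCC : C * Real.log Q ≤ |C| * Real.log Q :=
    mul_le_mul_of_nonneg_right (le_abs_self C) hlQ0.le
  have hnorm : ∀ n : ℕ, 1 ≤ n → ‖(ArithmeticFunction.vonMangoldt n : ℂ) * p.2 (n : ZMod p.1)‖ ≤
      1 + Real.log n := by
    intro n _
    rw [norm_mul, Complex.norm_real, Real.norm_of_nonneg ArithmeticFunction.vonMangoldt_nonneg]
    have h1 := p.2.norm_le_one (n : ZMod p.1)
    have h2 := ArithmeticFunction.vonMangoldt_le_log (n := n)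
    have h3 := ArithmeticFunction.vonMangoldt_nonneg (n := n)
    calc ArithmeticFunction.vonMangoldt n * ‖p.2 (n : ZMod p.1)‖ ≤
          ArithmeticFunction.vonMangoldt n * 1 := mul_le_mul_of_nonneg_left h1 h3
      _ ≤ 1 + Real.log n := by linarith
  refine hcore (fun n => (ArithmeticFunction.vonMangoldt n : ℂ) * p.2 (n : ZMod p.1))
    (fun n hn => hnorm n hn) (fun u hu1 hu2 => ?_)
  have h1 := hper (fun n => (ArithmeticFunction.vonMangoldt n : ℂ) * p.2 (n : ZMod p.1)) g 0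
    η T ((|C| + 1) * Real.log X) u (by simp) hη0 hη1 hT1 (by linarith) hB1 hnorm hf1
    (fun s h1 h2 h3 => ((hg3 _ (hmem s h1 h2 h3)).trans hCC).trans hCB)
    (fun s hs => by
      rw [hg2 s hs]
      ring)
  rw [zero_mul, sub_zero] at h1
  linarith

end Pool.Agent.Lib.H59C
end

-- from Lib.H59C.SW4
section

/-!
# SW4: Siegel-Walfisz away from one prime
-/

open Finset

namespace Pool.Agent.Lib.H59C

open Pool.Agent.Lib.H68T (PC p0 Rg Reg sw Good Exc mem_PC)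

open Filter in
theorem SW4_ev (M T P : ℝ) : ∃ n0 : ℕ, ∀ n : ℕ, n0 ≤ n →
    M * Real.log (Real.log n) ^ 2 ≤ Real.log n ∧ T ≤ Real.log (Real.log n) ∧ P ≤ n := by
  have h1 : Tendsto (fun n : ℕ => Real.log (n : ℝ)) atTop atTop :=
    Real.tendsto_log_atTop.comp tendsto_natCast_atTop_atTop
  have h2 : Tendsto (fun n : ℕ => Real.log (Real.log (n : ℝ))) atTop atTop :=
    Real.tendsto_log_atTop.comp h1
  have h3 := (Real.isLittleO_pow_log_id_atTop (n := 2)).comp_tendsto h1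
  have h4 := h3.def (c := 1 / (|M| + 1)) (by positivity)
  have h5 : ∀ᶠ n : ℕ in atTop, M * Real.log (Real.log n) ^ 2 ≤ Real.log n := by
    filter_upwards [h4, h1.eventually_ge_atTop 0] with n hn hn0
    simp only [Function.comp_apply, id_eq, norm_pow, Real.norm_eq_abs, sq_abs] at hn
    rw [abs_of_nonneg hn0] at hn
    have h6 : M * Real.log (Real.log n) ^ 2 ≤ (|M| + 1) * Real.log (Real.log n) ^ 2 := by
      refine mul_le_mul_of_nonneg_right ?_ (sq_nonneg _)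
      linarith [le_abs_self M]
    refine h6.trans ?_
    calc (|M| + 1) * Real.log (Real.log n) ^ 2 ≤ (|M| + 1) * (1 / (|M| + 1) * Real.log n) :=
          mul_le_mul_of_nonneg_left hn (by positivity)
      _ = Real.log n := by field_simp
  have h7 := (h5.and (h2.eventually_ge_atTop T)).and
    ((tendsto_natCast_atTop_atTop (R := ℝ)).eventually_ge_atTop P)
  obtain ⟨n0, hn0⟩ := eventually_atTop.1 h7
  exact ⟨n0, fun n hn => ⟨(hn0 n hn).1.1, (hn0 n hn).1.2, (hn0 n hn).2⟩⟩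

/-- The estimates for the parameters. -/
theorem SW4_par (A : ℕ) (K : ℝ) (hK : 1 ≤ K) : ∃ B : ℕ, ∃ M : ℝ, ∀ n Q : ℕ,
    M * Real.log (Real.log n) ^ 2 ≤ Real.log n → K + 3 ≤ Real.log (Real.log n) →
    Q = ⌈Real.log n ^ B⌉₊ →
    (Real.log n ^ A ≤ Q ∧ Real.log (Real.log n) ≤ Real.log Q ∧ Real.log n ≤ Q ∧ Q ^ 100 ≤ n) ∧
    ∀ y : ℕ, (n : ℝ) ^ (1 / 10 : ℝ) ≤ y → y ≤ 8 * n → Reg K Q y ∧
      sw K Q y ≤ 1 / Real.log n ^ A := by
  obtain ⟨B, hB⟩ : ∃ B : ℕ, (A : ℝ) + 2 * K + K * (A + 1) + 1 ≤ B := exists_nat_ge _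
  refine ⟨B, 20 * K * (B + 1) * (A + 1) + 100 * (B + 1), fun n Q hn hl hQ => ?_⟩
  have hA0 : (0 : ℝ) ≤ A := Nat.cast_nonneg A
  have hKA : 0 ≤ K * (A + 1) := by positivity
  have hBA : A ≤ B := by
    have : (A : ℝ) ≤ B := by linarith
    exact_mod_cast this
  have hB1 : 1 ≤ B := by
    have : (1 : ℝ) ≤ B := by linarith
    exact_mod_cast this
  have hB1' : (1 : ℝ) ≤ B := by exact_mod_cast hB1
  set L : ℝ := Real.log n with hL
  set l : ℝ := Real.log L with hl'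
  have hl4 : 4 ≤ l := by linarith
  have hL0 : 0 < L := by
    by_contra h
    have h0 : 0 ≤ L := Real.log_natCast_nonneg n
    have h1 : L = 0 := le_antisymm (not_lt.1 h) h0
    rw [hl', h1, Real.log_zero] at hl4
    linarith
  have hLe : L = Real.exp l := (Real.exp_log hL0).symm
  have hL5 : 5 ≤ L := by
    rw [hLe]
    linarith [Real.add_one_le_exp l]
  have hn0 : (0 : ℝ) < n := by
    rcases Nat.eq_zero_or_pos n with h | h
    · rw [hL, h] at hL5
      simp at hL5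
      linarith
    · exact_mod_cast h
  have hpow : ∀ m : ℕ, L ^ m = Real.exp (m * l) := by
    intro m
    rw [Real.exp_nat_mul, ← hLe]
  have hQ1 : L ^ B ≤ Q := by
    rw [hQ]
    exact Nat.le_ceil _
  have hQ2 : (Q : ℝ) ≤ L ^ (B + 1) := by
    have h1 : (Q : ℝ) < L ^ B + 1 := by
      rw [hQ]
      exact Nat.ceil_lt_add_one (by positivity)
    have h2 : 1 ≤ L ^ B := one_le_pow₀ (by linarith)
    have h3 : L ^ (B + 1) = L ^ B * L := pow_succ _ _
    rw [h3]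
    nlinarith
  have hQ0 : (0 : ℝ) < Q := lt_of_lt_of_le (by positivity) hQ1
  have hlQ1 : B * l ≤ Real.log Q := by
    rw [Real.le_log_iff_exp_le hQ0, ← hpow]
    exact hQ1
  have hlQ2 : Real.log Q ≤ (B + 1) * l := by
    rw [Real.log_le_iff_le_exp hQ0]
    have := hpow (B + 1)
    push_cast at this
    rw [← this]
    exact hQ2
  have hlQl : l ≤ Real.log Q := by
    have : 1 * l ≤ B * l := mul_le_mul_of_nonneg_right hB1' (by linarith)
    linarith
  have hlQ0 : 0 < Real.log Q := by linarith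
  have hLM : 20 * K * (B + 1) * (A + 1) * l ^ 2 ≤ L ∧ 100 * (B + 1) * l ≤ L := by
    have h1 : 0 ≤ 100 * ((B : ℝ) + 1) * l ^ 2 := by positivity
    have h2 : 0 ≤ 20 * K * ((B : ℝ) + 1) * (A + 1) * l ^ 2 := by positivity
    have h3 : l ≤ l ^ 2 := le_self_pow₀ (by linarith) two_ne_zero
    have h4 : 100 * ((B : ℝ) + 1) * l ≤ 100 * ((B : ℝ) + 1) * l ^ 2 :=
      mul_le_mul_of_nonneg_left h3 (by positivity)
    constructor <;> nlinarith
  refine ⟨⟨(pow_le_pow_right₀ (by linarith) hBA).trans hQ1, hlQl, ?_, ?_⟩, fun y hy1 hy2 => ?_⟩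
  · have h1 : L ^ 1 ≤ L ^ B := pow_le_pow_right₀ (by linarith) hB1
    rw [pow_one] at h1
    exact h1.trans hQ1
  · have h1 : (Q : ℝ) ^ 100 ≤ n := by
      calc (Q : ℝ) ^ 100 ≤ (L ^ (B + 1)) ^ 100 := pow_le_pow_left₀ hQ0.le hQ2 100
        _ = Real.exp (100 * ((B + 1) * l)) := by
            rw [hpow (B + 1), ← Real.exp_nat_mul]
            push_cast
            rfl
        _ ≤ Real.exp L := Real.exp_le_exp.2 (by linarith [hLM.2])
        _ = n := Real.exp_log hn0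
    exact_mod_cast h1
  · have hy0 : (0 : ℝ) < y := lt_of_lt_of_le (by positivity) hy1
    have hly1 : L / 10 ≤ Real.log y := by
      have h1 := Real.log_le_log (by positivity) hy1
      rw [Real.log_rpow hn0] at h1
      linarith
    have hly2 : Real.log y ≤ 2 * L := by
      have h1 : Real.log y ≤ Real.log (8 * n) := Real.log_le_log hy0 (by exact_mod_cast hy2)
      rw [Real.log_mul (by norm_num) hn0.ne'] at h1
      have h2 : Real.log 8 ≤ 3 := by
        have h3 : Real.log 8 = 3 * Real.log 2 := by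
          rw [show (8 : ℝ) = 2 ^ 3 by norm_num, Real.log_pow]
          push_cast
          ring
        rw [h3]
        linarith [Real.log_two_lt_d9]
      linarith
    have hly0 : 0 < Real.log y := by linarith
    have hlly1 : l - 3 ≤ Real.log (Real.log y) := by
      have h1 : Real.log (L / 10) ≤ Real.log (Real.log y) := Real.log_le_log (by positivity) hly1
      rw [Real.log_div hL0.ne' (by norm_num)] at h1
      have h2 : Real.log 10 ≤ 3 := by
        have h3 : Real.log 10 ≤ Real.log (2 ^ 4) := Real.log_le_log (by norm_num) (by norm_num)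
        rw [Real.log_pow] at h3
        push_cast at h3
        linarith [Real.log_two_lt_d9]
      linarith
    have hlly2 : Real.log (Real.log y) ≤ 2 * l := by
      have h1 : Real.log (Real.log y) ≤ Real.log (2 * L) := Real.log_le_log hly0 hly2
      rw [Real.log_mul (by norm_num) hL0.ne'] at h1
      have h2 := Real.log_two_lt_d9
      have h3 : Real.log L = l := rfl
      linarith
    have hlly0 : 0 ≤ Real.log (Real.log y) := by linarith
    refine ⟨⟨by linarith, ?_, ?_⟩, ?_⟩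
    · calc K * Real.log (Real.log y) ≤ K * (2 * l) :=
            mul_le_mul_of_nonneg_left hlly2 (by linarith)
        _ = 2 * K * l := by ring
        _ ≤ B * l := mul_le_mul_of_nonneg_right (by linarith) (by linarith)
        _ ≤ Real.log Q := hlQ1
    · have h1 : Real.log Q * Real.log (Real.log y) ≤ ((B + 1) * l) * (2 * l) :=
        mul_le_mul hlQ2 hlly2 hlly0 (by positivity)
      have h2 : K * (Real.log Q * Real.log (Real.log y)) ≤ K * (((B + 1) * l) * (2 * l)) :=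
        mul_le_mul_of_nonneg_left h1 (by linarith)
      have h3 : 10 * (K * (((B + 1) * l) * (2 * l))) ≤ 20 * K * (B + 1) * (A + 1) * l ^ 2 := by
        have h4 : 20 * K * ((B : ℝ) + 1) * (A + 1) * l ^ 2 =
            10 * (K * (((B + 1) * l) * (2 * l))) + 20 * K * (B + 1) * l ^ 2 * A := by ring
        have h5 : 0 ≤ 20 * K * ((B : ℝ) + 1) * l ^ 2 * A := by positivity
        linarith
      linarith [hLM.1]
    · have e1 : Real.exp (-(Real.log y / (K * Real.log Q))) ≤ Real.exp (-((A + 1) * l)) := by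
        refine Real.exp_le_exp.2 (neg_le_neg ?_)
        rw [le_div_iff₀ (by positivity)]
        have h1 : (A + 1) * l * (K * Real.log Q) ≤ (A + 1) * l * (K * ((B + 1) * l)) := by
          refine mul_le_mul_of_nonneg_left ?_ (by positivity)
          exact mul_le_mul_of_nonneg_left hlQ2 (by linarith)
        have h2 : 20 * K * ((B : ℝ) + 1) * (A + 1) * l ^ 2 =
            20 * ((A + 1) * l * (K * ((B + 1) * l))) := by ring
        have h3 : 0 ≤ ((A : ℝ) + 1) * l * (K * ((B + 1) * l)) := by positivity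
        linarith [hLM.1]
      have e2 : (Q : ℝ) ^ (-(1 / K)) ≤ Real.exp (-((A + 1) * l)) := by
        rw [Real.rpow_def_of_pos hQ0]
        refine Real.exp_le_exp.2 ?_
        have h1 : (A + 1) * l ≤ Real.log Q * (1 / K) := by
          rw [mul_one_div, le_div_iff₀ (by linarith)]
          calc (A + 1) * l * K = K * (A + 1) * l := by ring
            _ ≤ B * l := mul_le_mul_of_nonneg_right (by linarith) (by linarith)
            _ ≤ Real.log Q := hlQ1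
        linarith
      have e3 : Real.exp (-((A + 1) * l)) = 1 / L ^ A * (1 / L) := by
        rw [Real.exp_neg, one_div, one_div, ← mul_inv, ← pow_succ, hpow (A + 1)]
        push_cast
        rfl
      have e4 : 1 / L ≤ 1 / 2 := one_div_le_one_div_of_le (by norm_num) (by linarith)
      have e5 : 0 < 1 / L ^ A := by positivity
      unfold sw
      rw [e3] at e1 e2
      have e6 : 1 / L ^ A * (1 / L) ≤ 1 / L ^ A * (1 / 2) := mul_le_mul_of_nonneg_left e4 e5.le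
      linarith

/-- From a zero free character to the sums. -/
theorem SW4_one (c' C K₂ : ℝ) (hpsi : ∀ Q X : ℕ, Reg K₂ Q X → ∀ p : PCh, 1 ≤ p.1 →
      LogInv c' C Q p → ∀ u : ℝ, (X : ℝ) / 8 ≤ u → u ≤ 60 * X →
      ‖∑ m ∈ Icc 1 ⌊u⌋₊, (ArithmeticFunction.vonMangoldt m : ℂ) * p.2 (m : ZMod p.1)‖ ≤
      u * sw K₂ Q X) (Q y : ℕ) (hreg : Reg K₂ Q y) (p : PCh) (hp : 1 ≤ p.1)
    (hlog : LogInv c' C Q p) : ‖psi y p‖ ≤ y * sw K₂ Q y := by
  have hy : (0 : ℝ) ≤ y := Nat.cast_nonneg y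
  have h1 := hpsi Q y hreg p hp hlog y (by linarith) (by linarith)
  rw [Nat.floor_natCast] at h1
  exact h1

/-- For large `n` there is a prime `p1`, as large as we like but at most `n^(1/100)`, such that all
non principal primitive characters of conductor at most `(log n)^A` not divisible by `p1` have small
sums over the primes.

Proof. Take `c` = the constant of `H68T.page` (at most one real primitive character of conductor `≤ Q` has
a zero in `[1 - c/log Q, 1]`; files `H68T/PAGE2.lean`, `H68X/XEX.lean`), `c', C` from `log_single c`, `K`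
from `psi_of_log c' C`, and `Q = ⌈(log n)^K'⌉` with `K' ≥ A + (A + 2) K + K + 1`. For `n` large and all
`n^(1/10) ≤ y ≤ 8 n` one has `Reg K Q y` (`K ≤ loglog y`, `K loglog y ≤ log Q`, `K log Q loglog y ≤ log y`
since `log Q = O(loglog n)`, `log y ≥ log n/10`), and
`sw K Q y = exp (-log y/(K log Q)) + Q^(-1/K) ≤ (log n)^(-A)`. If no real primitive `ψ ≠ 1` of conductor
`≤ Q` has a zero in `[1 - c/log Q, 1]` (`Good c Q`), let `p1` be any fixed prime `≥ K0` (the given lower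
bound). Otherwise let `ψ` mod `r` be the exceptional one, `β` its zero (`β < 1` as `L(1) ≠ 0`). By
`H68T.zero_elementary` `c₁/r² ≤ 1 - β ≤ c/log Q`, so `r → ∞` with `n`, and `large_prime` gives a prime
`p1 ∣ r`, `p1 ≥ K0`; `p1 ≤ r ≤ Q ≤ n^(1/100)`. A primitive `χ ≠ 1` of conductor `≤ (log n)^A ≤ Q` not
divisible by `p1` is not `ψ`, so it satisfies the hypothesis of `log_single` (by `page`). Apply
`psi_of_log` with `X = u = y`. (A primitive `p ∈ PC _`, `p ≠ p0`, has `p.2 ≠ 1`: a primitive trivial character has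
conductor `1`, cf. the proof of `inv_all`.) -/
theorem sw_exists (A K0 : ℕ) : ∃ n0 : ℕ, ∀ n : ℕ, n0 ≤ n → ∃ p1 : ℕ, p1.Prime ∧ K0 ≤ p1 ∧
    p1 ^ 100 ≤ n ∧ SWp A n p1 := by
  obtain ⟨c₀, K₀, hc₀, hpage⟩ := Pool.Agent.Lib.H68T.page
  obtain ⟨c', C, K₁, hc', hC, hsingle⟩ := log_single c₀ hc₀
  obtain ⟨K₂, hK₂, hpsi⟩ := psi_of_log c' C hc'
  obtain ⟨ce, hce, hzero⟩ := Pool.Agent.Lib.H68T.zero_elementary
  obtain ⟨r0, hlarge⟩ := large_prime K0
  obtain ⟨P0, hP0, hP0p⟩ := Nat.exists_infinite_primes K0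
  obtain ⟨B, M, hpar⟩ := SW4_par A K₂ hK₂
  obtain ⟨n0, hn0⟩ := SW4_ev M (K₂ + 3 + |K₀| + |K₁| + c₀ * (r0 : ℝ) ^ 2 / ce + 1)
    ((P0 : ℝ) ^ 100)
  refine ⟨n0, fun n hn => ?_⟩
  obtain ⟨hM, hT, hP⟩ := hn0 n hn
  have a0 : 0 ≤ |K₀| := abs_nonneg _
  have a1 : 0 ≤ |K₁| := abs_nonneg _
  have a2 : 0 ≤ c₀ * (r0 : ℝ) ^ 2 / ce := by positivity
  obtain ⟨⟨hQA, hlQ, hLQ, hQn⟩, hreg⟩ := hpar n ⌈Real.log n ^ B⌉₊ hM (by linarith) rfl
  set Q : ℕ := ⌈Real.log n ^ B⌉₊ with hQ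
  have hQpos : (0 : ℝ) < Q := by
    rcases Nat.eq_zero_or_pos Q with h | h
    · rw [h, Nat.cast_zero, Real.log_zero] at hlQ
      linarith
    · exact_mod_cast h
  have hlQ' : Real.log Q ≤ Q := (Real.log_le_sub_one_of_pos hQpos).trans (by linarith)
  have hQK₀ : K₀ ≤ Q := by linarith [le_abs_self K₀]
  have hQK₁ : K₁ ≤ Q := by linarith [le_abs_self K₁]
  have hlQ0 : 0 < Real.log Q := by linarith
  -- the conclusion for one character
  have hone : ∀ p ∈ PC ⌊Real.log n ^ A⌋₊, p ≠ p0 →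
      (∀ [NeZero p.1], p.2 ≠ 1 → p.2 ^ 2 = 1 → ∀ σ : ℝ, 1 - c₀ / Real.log Q ≤ σ → σ ≤ 1 →
        p.2.LFunction (σ : ℂ) ≠ 0) →
      ∀ y : ℕ, (n : ℝ) ^ (1 / 10 : ℝ) ≤ y → y ≤ 8 * n → ‖psi y p‖ ≤ y / Real.log n ^ A := by
    rintro ⟨r', ψ'⟩ hp hpne hz y hy1 hy2
    obtain ⟨hr1, hr2, hprim⟩ := mem_PC.mp hp
    have hne' : NeZero r' := ⟨by
      have : 1 ≤ r' := hr1
      omega⟩
    have hψ : ψ' ≠ 1 := by
      intro h
      apply hpne
      have hr : r' = 1 := by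
        have h3 : ψ'.conductor = r' := hprim
        rw [h, DirichletCharacter.conductor_one] at h3
        exact h3.symm
      subst hr
      rw [h]
      rfl
    have hr'Q : r' ≤ Q := by
      have h1 : (r' : ℝ) ≤ Real.log n ^ A := by
        have h2 : (r' : ℝ) ≤ ⌊Real.log n ^ A⌋₊ := by exact_mod_cast hr2
        exact h2.trans (Nat.floor_le (by
          have : 0 ≤ Real.log n := Real.log_natCast_nonneg n
          positivity))
      have h3 : (r' : ℝ) ≤ Q := h1.trans hQA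
      exact_mod_cast h3
    obtain ⟨g1, g2⟩ := hreg y hy1 hy2
    have h1 := SW4_one c' C K₂ hpsi Q y g1 ⟨r', ψ'⟩ hr1
      (hsingle Q hQK₁ r' ψ' hr'Q hprim hψ (fun hsq σ h1 h2 => hz hψ hsq σ h1 h2))
    refine h1.trans ?_
    have hy : (0 : ℝ) ≤ y := Nat.cast_nonneg y
    calc (y : ℝ) * sw K₂ Q y ≤ y * (1 / Real.log n ^ A) := mul_le_mul_of_nonneg_left g2 hy
      _ = y / Real.log n ^ A := by ring
  by_cases hex : ∃ (r : ℕ) (_ : NeZero r) (ψ : DirichletCharacter ℂ r) (β : ℝ), r ≤ Q ∧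
      ψ.IsPrimitive ∧ ψ ≠ 1 ∧ ψ ^ 2 = 1 ∧ 1 - c₀ / Real.log Q ≤ β ∧ β ≤ 1 ∧
      ψ.LFunction (β : ℂ) = 0
  · obtain ⟨r, hr, ψ, β, hrQ, hprim, hne, hsq, hβ, hβ1, hβ0⟩ := hex
    have hβlt : β < 1 := by
      by_contra h
      have h1 : β = 1 := le_antisymm hβ1 (not_lt.1 h)
      rw [h1] at hβ0
      exact DirichletCharacter.LFunction_ne_zero_of_one_le_re ψ (Or.inl hne) (by simp) hβ0
    have hrr0 : r0 ≤ r := by
      by_contra h
      have h1 := hzero r ψ hne hsq β hβlt hβ0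
      have hr0 : (0 : ℝ) < r := by
        have : 0 < r := Nat.pos_of_ne_zero (NeZero.ne r)
        exact_mod_cast this
      have h2 : (r : ℝ) ≤ r0 := by exact_mod_cast (not_le.1 h).le
      have h3 : ce / (r0 : ℝ) ^ 2 ≤ ce / (r : ℝ) ^ 2 :=
        div_le_div_of_nonneg_left hce.le (by positivity) (pow_le_pow_left₀ hr0.le h2 2)
      have h4 : ce / (r0 : ℝ) ^ 2 ≤ c₀ / Real.log Q := by linarith
      have h6 : (0 : ℝ) < r0 := hr0.trans_le h2
      rw [div_le_div_iff₀ (by positivity) hlQ0] at h4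
      have h5 : Real.log Q ≤ c₀ * (r0 : ℝ) ^ 2 / ce := by
        rw [le_div_iff₀ hce]
        linarith
      linarith
    obtain ⟨q, hq, hKq, hqr⟩ := hlarge r hrr0 ψ hprim hsq
    refine ⟨q, hq, hKq, ?_, ?_⟩
    · have h1 : q ≤ Q := (Nat.le_of_dvd (Nat.pos_of_ne_zero (NeZero.ne r)) hqr).trans hrQ
      exact (Nat.pow_le_pow_left h1 100).trans hQn
    · intro p hp hpne hqp
      refine hone p hp hpne ?_
      intro _ hne' hsq' σ hσ hσ1 hz'
      have hr'Q : p.1 ≤ Q := by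
        obtain ⟨hr1, hr2, _⟩ := mem_PC.mp hp
        have h1 : (p.1 : ℝ) ≤ Real.log n ^ A := by
          have h2 : (p.1 : ℝ) ≤ ⌊Real.log n ^ A⌋₊ := by exact_mod_cast hr2
          exact h2.trans (Nat.floor_le (by
            have : 0 ≤ Real.log n := Real.log_natCast_nonneg n
            positivity))
        have h3 : (p.1 : ℝ) ≤ Q := h1.trans hQA
        exact_mod_cast h3
      refine hpage Q hQK₀ r p.1 ψ p.2 hrQ hr'Q hprim (mem_PC.mp hp).2.2 hne hne' hsq hsq' ?_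
        β σ hβ hβ1 hσ hσ1 hβ0 hz'
      intro h
      have h1 : r = p.1 := congrArg Sigma.fst h
      exact hqp (h1 ▸ hqr)
  · refine ⟨P0, hP0p, hP0, by exact_mod_cast hP, ?_⟩
    intro p hp hpne _
    refine hone p hp hpne ?_
    intro inst hne' hsq' σ hσ hσ1 hz'
    refine hex ⟨p.1, inst, p.2, σ, ?_, (mem_PC.mp hp).2.2, hne', hsq', hσ, hσ1, hz'⟩
    have h1 : (p.1 : ℝ) ≤ Real.log n ^ A := by
      have h2 : (p.1 : ℝ) ≤ ⌊Real.log n ^ A⌋₊ := by exact_mod_cast (mem_PC.mp hp).2.1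
      exact h2.trans (Nat.floor_le (by
        have : 0 ≤ Real.log n := Real.log_natCast_nonneg n
        positivity))
    have h3 : (p.1 : ℝ) ≤ Q := h1.trans hQA
    exact_mod_cast h3

end Pool.Agent.Lib.H59C
end

-- from Lib.H57C.V6
section

/-!
# Chunk V6: the exceptional prime is small
-/

open Finset

namespace Pool.Agent.Lib.H57C

open Pool.Agent.Lib.H59C

/-- Proof. `sw_exists A K0` gives `p1`. If `p1 ≤ (log n)^A` done (`A ≤ A + 1`). Otherwise no conductor `≤ ⌊(log n)^A⌋` is divisible by `p1`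
(conductors of `PC` are `≥ 1`), so `SWp A n p'` holds for every `p'`; take a prime `p' ∈ [K0, 2 K0 + 2]` (`Nat.exists_infinite_primes`
gives a prime `≥ K0`, a constant), `n` large. -/
theorem sw2 (A K0 : ℕ) : ∃ n0 : ℕ, ∀ n : ℕ, n0 ≤ n → ∃ p1 : ℕ, p1.Prime ∧ K0 ≤ p1 ∧
    (p1 : ℝ) ≤ Real.log n ^ (A + 1) ∧ SWp A n p1 := by
  obtain ⟨n0, hn0⟩ := sw_exists A K0
  obtain ⟨P0, hP0, hP0p⟩ := Nat.exists_infinite_primes K0
  refine ⟨max n0 ⌈Real.exp (P0 + 1)⌉₊, fun n hn => ?_⟩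
  have h1 : n0 ≤ n := le_trans (le_max_left _ _) hn
  have h2 : Real.exp (P0 + 1) ≤ n := by
    have h3 : ⌈Real.exp ((P0 : ℝ) + 1)⌉₊ ≤ n := le_trans (le_max_right _ _) hn
    exact (Nat.le_ceil _).trans (by exact_mod_cast h3)
  have hn1 : (0 : ℝ) < n := lt_of_lt_of_le (Real.exp_pos _) h2
  have hL : (P0 : ℝ) + 1 ≤ Real.log n := by
    rw [Real.le_log_iff_exp_le hn1]
    exact h2
  have hP : (0 : ℝ) ≤ P0 := Nat.cast_nonneg _
  have hL1 : 1 ≤ Real.log n := by linarith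
  obtain ⟨p1, hp1, hK, _, hS⟩ := hn0 n h1
  by_cases h : (p1 : ℝ) ≤ Real.log n ^ A
  · exact ⟨p1, hp1, hK, h.trans (pow_le_pow_right₀ hL1 (Nat.le_succ A)), hS⟩
  · refine ⟨P0, hP0p, hP0, ?_, ?_⟩
    · have h4 : Real.log n ^ 1 ≤ Real.log n ^ (A + 1) := pow_le_pow_right₀ hL1 (by omega)
      rw [pow_one] at h4
      linarith
    · intro p hp hp0 _ y hy1 hy2
      refine hS p hp hp0 ?_ y hy1 hy2
      intro hd
      have hp' := Pool.Agent.Lib.H68T.mem_PC.mp hp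
      have h5 : p1 ≤ p.1 := Nat.le_of_dvd (by omega) hd
      have h6 : (p1 : ℝ) ≤ Real.log n ^ A := by
        have h7 : p1 ≤ ⌊Real.log n ^ A⌋₊ := h5.trans hp'.2.1
        exact (Nat.cast_le.mpr h7).trans (Nat.floor_le (by positivity))
      exact h h6

end Pool.Agent.Lib.H57C
end

-- from Lib.H59C.CN2
section

/-!
# CN2: the sum over the largest prime
-/

open Finset

namespace Pool.Agent.Lib.H59C

theorem cn2_dist {n N y1 y2 : ℕ} (hW : Win n N y1 y2) :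
    (dhi N y1 y2 : ℝ) - dlo N y1 y2 = (y2 : ℝ) - y1 ∧ (dhi N y1 y2 : ℝ) ≤ 2 * n ∧
      (dlo N y1 y2 : ℝ) ≤ 2 * n := by
  have h1 : dhi N y1 y2 + y1 = dlo N y1 y2 + y2 ∧ dhi N y1 y2 ≤ 2 * n ∧ dlo N y1 y2 ≤ 2 * n := by
    unfold dhi dlo
    have a1 := hW.side
    have a2 := hW.lt
    have a3 := hW.N2
    have a4 := hW.le
    split_ifs with h <;> omega
  obtain ⟨h1, h2, h3⟩ := h1
  refine ⟨?_, by exact_mod_cast h2, by exact_mod_cast h3⟩
  have h4 : (dhi N y1 y2 : ℝ) + y1 = dlo N y1 y2 + y2 := by exact_mod_cast h1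
  linarith

/-- Proof. `δ = min (1/100) (ε/1000)`. The sum is at most `th ⌊(1 + 2δ)² dhi/k⌋ - th (⌈dlo/((1 + 2δ)² k)⌉ - 1)` (or `0`).
Let `n' = ⌈n/k⌉ ≥ n^(1/4)`; both arguments are `≤ 8 n'` (`dhi ≤ 2 n`). `th_pnt (ε/200)` for `n'`: the difference is at most
`(1 + 2δ)² dhi/k - dlo/((1 + 2δ)² k) + 2 + (ε/50) n/k ≤ (dhi - dlo)/k + 20 δ n/k + 2 + (ε/50) n/k`, and `dhi - dlo = y2 - y1`,
`n ≤ 16 (y2 - y1)`. -/
theorem pnt_inner (ε : ℝ) (hε : 0 < ε) : ∃ δ : ℝ, 0 < δ ∧ δ ≤ 1 / 100 ∧ ∃ n0 : ℕ, ∀ n : ℕ,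
    n0 ≤ n → ∀ N y1 y2 : ℕ, Win n N y1 y2 → ∀ k : ℕ, 0 < k →
    (k : ℝ) ≤ (n : ℝ) ^ (3 / 4 : ℝ) →
    ∑ q ∈ qr n N y1 y2 δ k, lg q ≤ (1 + ε) * ((y2 : ℝ) - y1) / k := by
  classical
  obtain ⟨m0, hm0⟩ := th_pnt (ε / 200) (by linarith)
  obtain ⟨δ, hδ⟩ : ∃ δ : ℝ, δ = min (1 / 100) (ε / 1000) := ⟨_, rfl⟩
  have hδ0 : 0 < δ := by rw [hδ]; exact lt_min (by norm_num) (by linarith)
  have hδ1 : δ ≤ 1 / 100 := by rw [hδ]; exact min_le_left _ _
  have hδ2 : δ ≤ ε / 1000 := by rw [hδ]; exact min_le_right _ _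
  -- large `n`
  obtain ⟨n1, hn1⟩ : ∃ n1 : ℕ, ∀ n : ℕ, n1 ≤ n →
      max (m0 : ℝ) (32 * (1 + ε / 100) / ε) ≤ (n : ℝ) ^ (1 / 4 : ℝ) := by
    have h1 : Filter.Tendsto (fun n : ℕ => (n : ℝ) ^ (1 / 4 : ℝ)) Filter.atTop Filter.atTop :=
      (tendsto_rpow_atTop (by norm_num : (0 : ℝ) < 1 / 4)).comp tendsto_natCast_atTop_atTop
    obtain ⟨n1, hn1⟩ := Filter.eventually_atTop.mp
      (h1.eventually_ge_atTop (max (m0 : ℝ) (32 * (1 + ε / 100) / ε)))
    exact ⟨n1, hn1⟩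
  refine ⟨δ, hδ0, hδ1, n1 + 1, fun n hn N y1 y2 hW k hk hkn => ?_⟩
  have hN : (1 : ℝ) ≤ n := by exact_mod_cast (by omega : 1 ≤ n)
  have hbig := hn1 n (by omega)
  have hb1 : (m0 : ℝ) ≤ (n : ℝ) ^ (1 / 4 : ℝ) := le_trans (le_max_left _ _) hbig
  have hb2 : 32 * (1 + ε / 100) / ε ≤ (n : ℝ) ^ (1 / 4 : ℝ) := le_trans (le_max_right _ _) hbig
  have hk0 : (0 : ℝ) < k := by exact_mod_cast hk
  have hnk : (n : ℝ) ^ (1 / 4 : ℝ) ≤ n / k := by
    rw [le_div_iff₀ hk0]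
    calc (n : ℝ) ^ (1 / 4 : ℝ) * k ≤ (n : ℝ) ^ (1 / 4 : ℝ) * (n : ℝ) ^ (3 / 4 : ℝ) :=
          mul_le_mul_of_nonneg_left hkn (by positivity)
      _ = n := by
          rw [← Real.rpow_add (by linarith)]
          norm_num
  obtain ⟨n', hn'⟩ : ∃ n' : ℕ, n' = ⌈(n : ℝ) / k⌉₊ := ⟨_, rfl⟩
  have hn'1 : (n : ℝ) / k ≤ n' := by rw [hn']; exact Nat.le_ceil _
  have hn'2 : (n' : ℝ) ≤ n / k + 1 := by
    rw [hn']
    exact (Nat.ceil_lt_add_one (by positivity)).le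
  have hm0n : m0 ≤ n' := by
    have : (m0 : ℝ) ≤ n' := by linarith
    exact_mod_cast this
  obtain ⟨hd1, hd2, hd3⟩ := cn2_dist hW
  obtain ⟨lo, hlo⟩ : ∃ lo : ℝ, lo = (dlo N y1 y2 : ℝ) := ⟨_, rfl⟩
  obtain ⟨hi, hhi⟩ : ∃ hi : ℝ, hi = (dhi N y1 y2 : ℝ) := ⟨_, rfl⟩
  rw [← hlo, ← hhi] at hd1
  rw [← hlo] at hd3
  rw [← hhi] at hd2
  have hlo0 : 0 ≤ lo := by rw [hlo]; exact Nat.cast_nonneg _
  have hhi0 : 0 ≤ hi := by rw [hhi]; exact Nat.cast_nonneg _
  obtain ⟨c, hc⟩ : ∃ c : ℝ, c = (1 + 2 * δ) ^ 2 := ⟨_, rfl⟩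
  have hc1 : 1 ≤ c := by rw [hc]; nlinarith
  have hc2 : c ≤ 1 + 5 * δ := by rw [hc]; nlinarith
  have hc0 : 0 < c := by linarith
  obtain ⟨a', ha'⟩ : ∃ a' : ℝ, a' = lo / (c * k) := ⟨_, rfl⟩
  obtain ⟨b', hb'⟩ : ∃ b' : ℝ, b' = c * hi / k := ⟨_, rfl⟩
  have ha0 : 0 ≤ a' := by rw [ha']; positivity
  have hb0 : 0 ≤ b' := by rw [hb']; positivity
  obtain ⟨u, hu⟩ : ∃ u : ℕ, u = ⌈a'⌉₊ - 1 := ⟨_, rfl⟩
  obtain ⟨v, hv⟩ : ∃ v : ℕ, v = ⌊b'⌋₊ := ⟨_, rfl⟩
  have hsub : qr n N y1 y2 δ k ⊆ Sq u v := by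
    intro q hq
    unfold qr at hq
    rw [mem_filter, mem_Icc] at hq
    obtain ⟨⟨hq1, hq2⟩, hqp, hq3, hq4⟩ := hq
    rw [← hc, ← hlo] at hq3
    rw [← hc, ← hhi] at hq4
    rw [mem_Sq]
    refine ⟨⟨?_, ?_⟩, hqp⟩
    · have h1 : a' ≤ q := by
        rw [ha', div_le_iff₀ (by positivity)]
        calc lo ≤ c * (k * q) := hq3
          _ = q * (c * k) := by ring
      have h2 : ⌈a'⌉₊ ≤ q := Nat.ceil_le.mpr h1
      omega
    · rw [hv]
      apply Nat.le_floor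
      rw [hb', le_div_iff₀ hk0]
      linarith
  have hlg0 : ∀ p, 0 ≤ lg p := by
    intro p
    unfold lg
    exact Real.log_natCast_nonneg p
  have hsum : ∑ q ∈ qr n N y1 y2 δ k, lg q ≤ XX u v := by
    unfold XX
    exact sum_le_sum_of_subset_of_nonneg hsub fun q _ _ => hlg0 q
  have hyy : (0 : ℝ) < (y2 : ℝ) - y1 := by
    have : (y1 : ℝ) < y2 := by exact_mod_cast hW.lt
    linarith
  rcases lt_or_ge v u with hvu | huv
  · have : XX u v = 0 := by
      unfold XX Sq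
      rw [Ioc_eq_empty (by omega)]
      simp
    rw [this] at hsum
    refine hsum.trans ?_
    positivity
  · rw [XX_eq huv] at hsum
    have hu8 : u ≤ 8 * n' := by
      have h1 : (u : ℝ) ≤ 8 * n' := by
        have h2 : (u : ℝ) ≤ v := by exact_mod_cast huv
        have h3 : (v : ℝ) ≤ b' := by rw [hv]; exact Nat.floor_le hb0
        have h4 : b' ≤ 8 * (n / k) := by
          rw [hb', ← mul_div_assoc]
          apply div_le_div_of_nonneg_right _ hk0.le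
          nlinarith
        linarith
      exact_mod_cast h1
    have hv8 : v ≤ 8 * n' := by
      have h1 : (v : ℝ) ≤ 8 * n' := by
        have h3 : (v : ℝ) ≤ b' := by rw [hv]; exact Nat.floor_le hb0
        have h4 : b' ≤ 8 * (n / k) := by
          rw [hb', ← mul_div_assoc]
          apply div_le_div_of_nonneg_right _ hk0.le
          nlinarith
        linarith
      exact_mod_cast h1
    have e1 := hm0 n' hm0n u hu8
    have e2 := hm0 n' hm0n v hv8
    rw [abs_le] at e1 e2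
    have e3 : (v : ℝ) ≤ b' := by rw [hv]; exact Nat.floor_le hb0
    have e4 : a' - 1 ≤ u := by
      have h1 : a' ≤ ⌈a'⌉₊ := Nat.le_ceil _
      have h2 : ((⌈a'⌉₊ : ℕ) : ℝ) ≤ u + 1 := by
        have : ⌈a'⌉₊ ≤ u + 1 := by omega
        exact_mod_cast this
      linarith
    have e5 : b' - a' ≤ (((y2 : ℝ) - y1) + 20 * δ * n) / k := by
      have h1 : b' - a' = (c * hi - lo / c) / k := by
        rw [ha', hb']
        field_simp
      rw [h1]
      apply div_le_div_of_nonneg_right _ hk0.le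
      have h2 : lo * (1 - 5 * δ) ≤ lo / c := by
        rw [le_div_iff₀ hc0]
        have h3 : (1 - 5 * δ) * c ≤ 1 := by nlinarith
        calc lo * (1 - 5 * δ) * c = lo * ((1 - 5 * δ) * c) := by ring
          _ ≤ lo * 1 := mul_le_mul_of_nonneg_left h3 hlo0
          _ = lo := mul_one _
      have h3 : c * hi ≤ (1 + 5 * δ) * hi := mul_le_mul_of_nonneg_right hc2 hhi0
      have h4 : δ * hi ≤ δ * (2 * n) := mul_le_mul_of_nonneg_left hd2 hδ0.le
      have h5 : δ * lo ≤ δ * (2 * n) := mul_le_mul_of_nonneg_left hd3 hδ0.le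
      linarith
    have h16 : (n : ℝ) ≤ 16 * ((y2 : ℝ) - y1) := by
      have h3 := hW.len
      have h4 := hW.lt
      have h6 : (n : ℝ) ≤ ((16 * (y2 - y1) : ℕ) : ℝ) := by exact_mod_cast h3
      rw [Nat.cast_mul, Nat.cast_sub h4.le] at h6
      exact_mod_cast h6
    have h16k : (n : ℝ) / k ≤ 16 * (((y2 : ℝ) - y1) / k) := by
      rw [← mul_div_assoc]
      exact div_le_div_of_nonneg_right h16 hk0.le
    have e6 : (((y2 : ℝ) - y1) + 20 * δ * n) / k = ((y2 : ℝ) - y1) / k + 20 * δ * (n / k) := by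
      ring
    have e7 : (1 + ε) * ((y2 : ℝ) - y1) / k = ((y2 : ℝ) - y1) / k + ε * (((y2 : ℝ) - y1) / k) := by
      ring
    rw [e7]
    obtain ⟨Y, hY⟩ : ∃ Y : ℝ, Y = ((y2 : ℝ) - y1) / k := ⟨_, rfl⟩
    rw [← hY] at h16k e6 ⊢
    rw [e6] at e5
    obtain ⟨Z, hZ⟩ : ∃ Z : ℝ, Z = (n : ℝ) / k := ⟨_, rfl⟩
    rw [← hZ] at h16k e5 hn'2 hnk
    have e8 : 20 * δ * Z ≤ 20 * (ε / 1000) * Z := by
      apply mul_le_mul_of_nonneg_right _ (by rw [hZ]; positivity)
      linarith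
    have e9 : 32 * (1 + ε / 100) ≤ ε * Z := by
      have h1 : 32 * (1 + ε / 100) / ε ≤ Z := hb2.trans hnk
      rw [div_le_iff₀ hε] at h1
      linarith
    have e10 : ε * Z ≤ 16 * (ε * Y) := by
      have := mul_le_mul_of_nonneg_left h16k hε.le
      linarith
    have e11 : ε * n' ≤ ε * (Z + 1) := mul_le_mul_of_nonneg_left hn'2 hε.le
    linarith

end Pool.Agent.Lib.H59C
end

-- from Lib.H59C.CCN
section

/-!
# CCN: the total weight of the boxes
-/

open Finset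

namespace Pool.Agent.Lib.H59C

theorem CCN_k {n : ℕ} (hn : 160000 ≤ n) {q1 q2 : ℕ} (h1 : (q1 : ℝ) < yy n)
    (h2 : q1 * q2 ^ 2 ≤ 3 * n) : ((q1 * q2 : ℕ) : ℝ) ≤ (n : ℝ) ^ (3 / 4 : ℝ) := by
  have hn' : (160000 : ℝ) ≤ n := by exact_mod_cast hn
  have hn0 : (0 : ℝ) < n := by linarith
  set t : ℝ := (n : ℝ) ^ (1 / 6 : ℝ) with ht
  have t0 : 0 < t := Real.rpow_pos_of_pos hn0 _
  have t6 : 6 ≤ t := by
    have h3 : ((6 : ℝ) ^ (6 : ℕ)) ^ (1 / 6 : ℝ) ≤ t :=
      Real.rpow_le_rpow (by positivity) (by norm_num; linarith) (by norm_num)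
    have h4 : ((6 : ℝ) ^ (6 : ℕ)) ^ (1 / 6 : ℝ) = 6 := by
      rw [← Real.rpow_natCast, ← Real.rpow_mul (by norm_num)]
      norm_num
    linarith
  have e2 : (n : ℝ) ^ (1 / 3 : ℝ) = t ^ 2 := by
    rw [ht, ← Real.rpow_natCast, ← Real.rpow_mul hn0.le]
    norm_num
  have e6 : (n : ℝ) = t ^ 6 := by
    rw [ht, ← Real.rpow_natCast, ← Real.rpow_mul hn0.le]
    norm_num
  have e9 : ((n : ℝ) ^ (3 / 4 : ℝ)) ^ 2 = t ^ 9 := by
    rw [ht, ← Real.rpow_natCast, ← Real.rpow_natCast, ← Real.rpow_mul hn0.le,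
      ← Real.rpow_mul hn0.le]
    norm_num
  have hy : yy n ≤ 2 * t ^ 2 := by
    unfold yy
    rw [Real.mul_rpow (by norm_num) hn0.le, e2]
    apply mul_le_mul_of_nonneg_right _ (by positivity)
    calc (2 : ℝ) ^ (1 / 3 : ℝ) ≤ 2 ^ (1 : ℝ) :=
          Real.rpow_le_rpow_of_exponent_le (by norm_num) (by norm_num)
      _ = 2 := Real.rpow_one 2
  have h2' : (q1 : ℝ) * (q2 : ℝ) ^ 2 ≤ 3 * n := by exact_mod_cast h2
  have hk : ((q1 * q2 : ℕ) : ℝ) ^ 2 ≤ ((n : ℝ) ^ (3 / 4 : ℝ)) ^ 2 := by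
    rw [e9]
    push_cast
    calc ((q1 : ℝ) * q2) ^ 2 = q1 * (q1 * (q2 : ℝ) ^ 2) := by ring
      _ ≤ (2 * t ^ 2) * (3 * n) :=
        mul_le_mul (h1.le.trans hy) h2' (by positivity) (by positivity)
      _ = 6 * t ^ 8 := by rw [e6]; ring
      _ ≤ t * t ^ 8 := mul_le_mul_of_nonneg_right t6 (by positivity)
      _ = t ^ 9 := by ring
  exact le_of_sq_le_sq hk (Real.rpow_nonneg hn0.le _)

/-- The total weight of the relevant boxes.

Proof. `boxes_le` with the `δ` of `pnt_inner ε`, and `pnt_inner` for `k = q1 q2` (`(q1 q2)² ≤ 3 n (2n)^(1/3)`, so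
`k ≤ n^(3/4)`); `log (n/(20 q1 q2)) > 0`. -/
theorem count_boxes (ε : ℝ) (hε : 0 < ε) : ∃ δ : ℝ, 0 < δ ∧ δ ≤ 1 / 100 ∧ ∃ n0 : ℕ, ∀ n : ℕ,
    n0 ≤ n → ∀ N y1 y2 : ℕ, Win n N y1 y2 →
    ∑ b ∈ Rel n N y1 y2 δ, 1 / Real.log (lv δ b.2) *
      XB (lv δ (b.1 + 1)) (lv δ b.2) (lv δ (b.2 + 1)) (al n δ b) ≤
    (1 + ε) * ((y2 : ℝ) - y1) * ∑ q1 ∈ PR (zz n) (yy n),
      ∑ q2 ∈ (PR (yy n) n).filter (fun q2 => q1 * q2 ^ 2 ≤ 3 * n),
        1 / ((q1 : ℝ) * q2 * Real.log (n / (20 * q1 * q2))) := by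
  obtain ⟨δ, hδ, hδ1, n0, h0⟩ := pnt_inner ε hε
  obtain ⟨n1, h1⟩ := boxes_le δ hδ hδ1
  refine ⟨δ, hδ, hδ1, max (max n0 n1) 160000, ?_⟩
  intro n hn N y1 y2 W
  have hn0 : n0 ≤ n := le_trans (le_trans (le_max_left _ _) (le_max_left _ _)) hn
  have hn1 : n1 ≤ n := le_trans (le_trans (le_max_right _ _) (le_max_left _ _)) hn
  have hn2 : 160000 ≤ n := le_trans (le_max_right _ _) hn
  have hn' : (160000 : ℝ) ≤ n := by exact_mod_cast hn2
  have hnp : (0 : ℝ) < n := by linarith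
  refine (h1 n hn1 N y1 y2 W).trans ?_
  rw [Finset.mul_sum]
  apply Finset.sum_le_sum
  intro q1 hq1
  rw [Finset.mul_sum]
  apply Finset.sum_le_sum
  intro q2 hq2
  obtain ⟨p1, a1, a2⟩ := mem_PR.1 hq1
  obtain ⟨hq2', b3⟩ := Finset.mem_filter.1 hq2
  obtain ⟨p2, b1, b2⟩ := mem_PR.1 hq2'
  have hk := CCN_k hn2 a2 b3
  have hk0 : 0 < q1 * q2 := Nat.mul_pos p1.pos p2.pos
  have c1 : (0 : ℝ) < q1 := by exact_mod_cast p1.pos
  have c2 : (0 : ℝ) < q2 := by exact_mod_cast p2.pos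
  have hin := h0 n hn0 N y1 y2 W (q1 * q2) hk0 hk
  have hlog : 0 ≤ Real.log (n / (20 * q1 * q2)) := by
    apply Real.log_nonneg
    rw [le_div_iff₀ (by positivity), one_mul]
    push_cast at hk
    have h4 : (20 : ℝ) ≤ (n : ℝ) ^ (1 / 4 : ℝ) := by
      have h3 : ((20 : ℝ) ^ (4 : ℕ)) ^ (1 / 4 : ℝ) ≤ (n : ℝ) ^ (1 / 4 : ℝ) :=
        Real.rpow_le_rpow (by positivity) (by norm_num; linarith) (by norm_num)
      have h4 : ((20 : ℝ) ^ (4 : ℕ)) ^ (1 / 4 : ℝ) = 20 := by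
        rw [← Real.rpow_natCast, ← Real.rpow_mul (by norm_num)]
        norm_num
      linarith
    have h5 : (n : ℝ) = (n : ℝ) ^ (1 / 4 : ℝ) * (n : ℝ) ^ (3 / 4 : ℝ) := by
      rw [← Real.rpow_add hnp]
      norm_num
    calc (20 : ℝ) * q1 * q2 = 20 * (q1 * q2) := by ring
      _ ≤ (n : ℝ) ^ (1 / 4 : ℝ) * (n : ℝ) ^ (3 / 4 : ℝ) :=
        mul_le_mul h4 hk (by positivity) (by linarith)
      _ = n := h5.symm
  calc 1 / Real.log (n / (20 * q1 * q2)) * ∑ q ∈ qr n N y1 y2 δ (q1 * q2), lg q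
      ≤ 1 / Real.log (n / (20 * q1 * q2)) * ((1 + ε) * ((y2 : ℝ) - y1) / (q1 * q2 : ℕ)) :=
        mul_le_mul_of_nonneg_left hin (div_nonneg zero_le_one hlog)
    _ = (1 + ε) * ((y2 : ℝ) - y1) * (1 / ((q1 : ℝ) * q2 * Real.log (n / (20 * q1 * q2)))) := by
      push_cast
      rw [one_div, one_div, mul_inv, mul_inv, div_eq_mul_inv, mul_inv]
      ring

end Pool.Agent.Lib.H59C
end

-- from Lib.H59C.CW
section

/-!
# CW: Chen's theorem in a window
-/

open Finset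

namespace Pool.Agent.Lib.H59C

theorem cw_log : 3 / 8 < 2 * Real.log 3 - Real.log 6 := by
  have h1 : 2 * Real.log 3 - Real.log 6 = Real.log (3 / 2) := by
    rw [show (6 : ℝ) = 2 * 3 by norm_num, Real.log_mul (by norm_num) (by norm_num),
      Real.log_div (by norm_num) (by norm_num)]
    ring
  rw [h1, Real.lt_log_iff_exp_lt (by norm_num)]
  have h2 : Real.exp (3 / 8) = Real.exp 1 ^ (3 / 8 : ℝ) := by
    rw [Real.exp_one_rpow]
  have h3 : Real.exp (3 / 8) ^ 8 = Real.exp 1 ^ 3 := by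
    rw [← Real.exp_nat_mul, ← Real.exp_nat_mul]
    congr 1
    norm_num
  by_contra hcon
  push Not at hcon
  have h4 : (3 / 2 : ℝ) ^ 8 ≤ Real.exp (3 / 8) ^ 8 := pow_le_pow_left₀ (by norm_num) hcon 8
  rw [h3] at h4
  have h5 := Real.exp_one_lt_d9
  have h6 : Real.exp 1 ^ 3 ≤ 2.7182818286 ^ 3 :=
    pow_le_pow_left₀ (Real.exp_pos 1).le h5.le 3
  norm_num at h4 h6
  linarith


end Pool.Agent.Lib.H59C
end
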