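import Pool.Agent.Lib.H1M.RV2.M017
import Pool.Agent.Lib.H1M.RV2.M023
import Pool.Agent.Lib.H1M.RV2.M033
import Pool.Agent.Lib.H1M.RV2.M037
import Pool.Agent.Lib.H1M.RV2.M039
import Pool.Agent.Lib.H1M.RV2.M044
import Pool.Agent.Lib.H1M.RV2.M045
import Pool.Agent.Lib.H1M.RV2.M046
import Pool.Agent.Lib.H1M.RV2.M048

/-! Merged copies (to shorten the build) of Lib.H18Q.E7, Lib.H18Q.PH, Lib.H18Q.CL1, Lib.H59P.Defs. -/

-- from Lib.H18Q.E7
section

/-!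
# Project H18Q, chunk E7: strong form of the Deuring-Heilbronn phenomenon
-/

open Finset

namespace Pool.Agent.Lib.H18Q

open ArithmeticFunction Pool.Agent.Lib.H68T

/-- **Repulsion of zeros.** If `L(s, ψ)` has a real zero `β` with `η log Q ≤ c1`, `η = 1 - β`, then
all other zeros `ρ` (`Lx r ψ β p ρ = 0`, `p ∈ PC Q`) with `|Im ρ| ≤ Q^8` have
`1 - Re ρ ≥ log (1/(η log Q))/(C log Q)`.

Proof. Let `Y = log (1/(η log Q)) ≥ log (1/c1)`. `η ≥ c/Q²` (`zero_elementary`), so `Y ≤ 3 log Q` for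
`Q` large. Suppose `1 - Re ρ < Y/(C log Q)` and put `κ = Y/C`: `κ ≥ 1` if `c1 ≤ exp (-C)`, and
`κ ≤ 3 log Q/C ≤ th0 log Q` if `C ≥ 3 · 10^9`; `β ≥ 7/8` for `Q` large. For `p = p0`
(`Lx r ψ β p0 = Lp p0 = gl2_Z`, since `(r, ψ) ≠ p0`): `Re ρ > 1 - 3/C ≥ 1 - δ` with the `δ` of
`zf3_low` (`C ≥ 3/δ`), so `|Im ρ| > 1` (`lab3_Z_zero`). Let `C3 = max (2^28) (C3 of E5_detect)`,
`K1 = ⌈C3 κ⌉ ≤ 2 C3 κ`, `v = Im ρ`. `E5_detect` and `E6_small`: `(1/4) 4096^(-K1) ≤ C' K1 e^(-Y)`, so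
`Y ≤ log (4 C' K1) + K1 log 4096 ≤ C4 K1 ≤ 2 C4 C3 κ = 2 C4 C3 Y/C` with `C4 = 4 C' + 10`
(`log t ≤ t`, `K1 ≥ 1`); a contradiction if `C > 2 C4 C3` (`Y > 0`). -/
theorem repulsion : ∃ C c1 K : ℝ, 1 ≤ C ∧ 0 < c1 ∧ c1 < 1 ∧ ∀ Q : ℕ, K ≤ Q →
    ∀ (r : ℕ) [NeZero r] (ψ : DirichletCharacter ℂ r), r ≤ Q → ψ.IsPrimitive → ψ ≠ 1 →
    ψ ^ 2 = 1 → ∀ β : ℝ, β < 1 → ψ.LFunction (β : ℂ) = 0 → (1 - β) * Real.log Q ≤ c1 →
    ∀ p ∈ PC Q, ∀ ρ : ℂ, Lx r ψ β p ρ = 0 → |ρ.im| ≤ (Q : ℝ) ^ 8 →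
    Real.log (1 / ((1 - β) * Real.log Q)) / (C * Real.log Q) ≤ 1 - ρ.re := by
  obtain ⟨C3', K5, hC3', hdet⟩ := E5_detect
  obtain ⟨C3, hC3⟩ : ∃ C3, C3 = max (2 ^ 28 : ℝ) C3' := ⟨_, rfl⟩
  have hC3a : (2 : ℝ) ^ 28 ≤ C3 := hC3 ▸ le_max_left _ _
  have hC3b : C3' ≤ C3 := hC3 ▸ le_max_right _ _
  obtain ⟨C', K6, hC', hsmall⟩ := E6_small C3 hC3a
  obtain ⟨δ, hδ, hzf⟩ := zf3_low
  obtain ⟨c, hc, hze⟩ := zero_elementary
  have hC30 : 0 < C3 := lt_of_lt_of_le (by positivity) hC3a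
  have hC31 : 1 ≤ C3 := le_trans (by norm_num) hC3a
  obtain ⟨C4, hC4⟩ : ∃ C4, C4 = 4 * C' + 10 := ⟨_, rfl⟩
  have hC40 : 0 < C4 := by rw [hC4]; positivity
  obtain ⟨C, hC⟩ : ∃ C, C = 2 * C4 * C3 + 1 + 3 * 10 ^ 9 + 3 / δ := ⟨_, rfl⟩
  have hd3 : 0 < 3 / δ := by positivity
  have h243 : 0 < 2 * C4 * C3 := by positivity
  have hCa : 2 * C4 * C3 < C := by rw [hC]; linarith
  have hCb : 3 * 10 ^ 9 ≤ C := by rw [hC]; linarith
  have hCc : 3 / δ ≤ C := by rw [hC]; linarith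
  have hC1 : 1 ≤ C := by linarith
  have hC0 : 0 < C := by linarith
  refine ⟨C, Real.exp (-C), K5 ⊔ K6 ⊔ (1 / c) ⊔ Real.exp 8, hC1, Real.exp_pos _, by
    rw [Real.exp_lt_one_iff]; linarith, ?_⟩
  intro Q hQ r hr0 ψ hrQ hψp hψ1 hψ2 β hβ1 hβ0 hηc p hp ρ hρ0 hρi
  have hQ5 : K5 ≤ Q := le_trans (le_trans (le_trans le_sup_left le_sup_left) le_sup_left) hQ
  have hQ6 : K6 ≤ Q := le_trans (le_trans (le_trans le_sup_right le_sup_left) le_sup_left) hQ
  have hQc : 1 / c ≤ Q := le_trans (le_trans le_sup_right le_sup_left) hQ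
  have hQ8 : Real.exp 8 ≤ Q := le_trans le_sup_right hQ
  have hQ0 : (0 : ℝ) < Q := lt_of_lt_of_le (Real.exp_pos _) hQ8
  obtain ⟨l, hl⟩ : ∃ l, l = Real.log Q := ⟨_, rfl⟩
  have hl8 : 8 ≤ l := by
    rw [hl, ← Real.log_exp 8]
    exact Real.log_le_log (Real.exp_pos _) hQ8
  have hl0 : 0 < l := by linarith
  have hQ1 : (1 : ℝ) ≤ Q := le_trans (Real.one_le_exp (by norm_num)) hQ8
  rw [← hl] at hηc ⊢
  obtain ⟨η, hη⟩ : ∃ η, η = 1 - β := ⟨_, rfl⟩
  rw [← hη] at hηc ⊢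
  have hη0 : 0 < η := by rw [hη]; linarith
  have hηl : 0 < η * l := by positivity
  have hr1 : (1 : ℝ) ≤ r := by exact_mod_cast Nat.one_le_iff_ne_zero.2 (NeZero.ne r)
  have hrQ' : (r : ℝ) ≤ Q := by exact_mod_cast hrQ
  have hηlow : c / (Q : ℝ) ^ 2 ≤ η := by
    have h1 := hze r ψ hψ1 hψ2 β hβ1 hβ0
    rw [← hη] at h1
    refine le_trans ?_ h1
    exact div_le_div_of_nonneg_left hc.le (by positivity) (pow_le_pow_left₀ (by linarith) hrQ' 2)
  obtain ⟨Y, hY⟩ : ∃ Y, Y = Real.log (1 / (η * l)) := ⟨_, rfl⟩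
  have hYe : Real.exp (-Y) = η * l := by
    rw [hY, one_div, Real.log_inv, neg_neg, Real.exp_log hηl]
  have hYC : C ≤ Y := by
    have h1 : Real.exp (-Y) ≤ Real.exp (-C) := by rw [hYe]; exact hηc
    have h2 := Real.exp_le_exp.1 h1
    linarith
  have hY3 : Y ≤ 3 * l := by
    have h1 : Real.exp (-(3 * l)) ≤ Real.exp (-Y) := by
      rw [hYe]
      have h2 : Real.exp (-(3 * l)) = 1 / (Q : ℝ) ^ 3 := by
        rw [Real.exp_neg, one_div, hl]
        congr 1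
        have : 3 * Real.log Q = Real.log Q * (3 : ℕ) := by push_cast; ring
        rw [this, Real.exp_mul, Real.exp_log hQ0, Real.rpow_natCast]
      rw [h2]
      have h3 : 1 ≤ c * Q := by
        rw [div_le_iff₀ hc] at hQc
        linarith
      have h4 : 1 / (Q : ℝ) ^ 3 ≤ c / (Q : ℝ) ^ 2 := by
        rw [div_le_div_iff₀ (by positivity) (by positivity)]
        have : c * (Q : ℝ) ^ 3 = (c * Q) * (Q : ℝ) ^ 2 := by ring
        rw [this]
        nlinarith [sq_nonneg (Q : ℝ)]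
      have h5 : η ≤ η * l := le_mul_of_one_le_right hη0.le (by linarith)
      linarith
    have h2 := Real.exp_le_exp.1 h1
    linarith
  rw [← hY]
  by_contra hcon
  push Not at hcon
  obtain ⟨κ, hκ⟩ : ∃ κ, κ = Y / C := ⟨_, rfl⟩
  have hκl : Y / (C * l) = κ / l := by
    rw [hκ]
    field_simp
  rw [hκl] at hcon
  have hκ1 : 1 ≤ κ := by
    rw [hκ, le_div_iff₀ hC0]
    linarith
  have hκ3 : κ ≤ 3 * l / C := by
    rw [hκ]
    exact div_le_div_of_nonneg_right hY3 hC0.le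
  have hκth : κ ≤ th0 * Real.log Q := by
    rw [← hl]
    refine hκ3.trans ?_
    unfold th0
    rw [div_le_iff₀ hC0]
    have : 3 * l = 1 / 10 ^ 9 * l * (3 * 10 ^ 9) := by ring
    rw [this]
    exact mul_le_mul_of_nonneg_left hCb (by positivity)
  have hβ7 : 7 / 8 ≤ β := by
    have h1 : η * l ≤ 1 := hηc.trans (Real.exp_le_one_iff.2 (by linarith))
    have h2 : η * 8 ≤ 1 := le_trans (mul_le_mul_of_nonneg_left hl8 hη0.le) h1
    rw [hη] at h2
    linarith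
  have hv9 : |ρ.im| ≤ (Q : ℝ) ^ 9 := hρi.trans (pow_le_pow_right₀ hQ1 (by norm_num))
  have hκl3 : κ / l ≤ 3 / C := by
    rw [div_le_div_iff₀ hl0 hC0]
    rw [le_div_iff₀ hC0] at hκ3
    linarith
  have hp0v : p = p0 → 1 / 2 ≤ |ρ.im| := by
    intro hp0
    have hne : p ≠ ⟨r, ψ⟩ := by
      intro h
      rw [hp0] at h
      have h1 : r = 1 := (congrArg Sigma.fst h).symm
      subst h1
      apply hψ1
      have h2 : (p0 : Σ r : ℕ, DirichletCharacter ℂ r) = ⟨1, 1⟩ := rfl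
      rw [h2] at h
      exact (eq_of_heq (Sigma.mk.inj h).2).symm
    rw [Lx_of_ne r ψ β p hne, hp0, Lp_p0] at hρ0
    have hz := lab3_Z_zero ρ hρ0
    by_contra hlt
    push Not at hlt
    have h1 := hzf ρ hz (by linarith)
    have h2 : 3 / C ≤ δ := by
      rw [div_le_iff₀ hC0]
      rw [div_le_iff₀ hδ] at hCc
      linarith
    linarith
  obtain ⟨K1, hK1⟩ : ∃ K1 : ℕ, K1 = ⌈C3 * κ⌉₊ := ⟨_, rfl⟩
  have hκ0 : 0 < κ := by linarith
  have hK1a : C3 * κ ≤ K1 := by rw [hK1]; exact Nat.le_ceil _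
  have hC3κ : 1 ≤ C3 * κ := by nlinarith
  have hK1b : (K1 : ℝ) ≤ 2 * C3 * κ := by
    have := Nat.ceil_lt_add_one (show 0 ≤ C3 * κ by positivity)
    rw [← hK1] at this
    linarith
  have hK1c : C3' * κ ≤ K1 := (mul_le_mul_of_nonneg_right hC3b hκ0.le).trans hK1a
  have hK11 : (1 : ℝ) ≤ K1 := hC3κ.trans hK1a
  obtain ⟨k, hk1, hk2, hk3⟩ := hdet Q hQ5 r ψ hrQ hψp hψ1 hψ2 β hβ7 hβ1 hβ0 p hp κ ρ.im hκ1 hκth hv9 hp0v K1 hK1c
    ⟨ρ, hρ0, by rw [← hl]; linarith, by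
      rw [sub_self, abs_zero, ← hl]
      positivity⟩
  have h4 := hsmall Q hQ6 r ψ hrQ hψ1 hψ2 β hβ7 hβ1 hβ0 p κ ρ.im hκ1 hκth K1 k hK1a hK1b
  rw [← hl, ← hη, ← hYe] at h4
  rw [← hl] at hk3
  have h5 : 1 / 4 * (1 / 4096 : ℝ) ^ K1 ≤ C' * K1 * Real.exp (-Y) := hk3.trans h4
  have h6 : Real.exp Y ≤ 4 * C' * K1 * 4096 ^ K1 := by
    have h7 : (1 / 4096 : ℝ) ^ K1 = 1 / 4096 ^ K1 := by rw [div_pow, one_pow]
    rw [h7, Real.exp_neg] at h5
    have h8 : (0 : ℝ) < 4096 ^ K1 := by positivity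
    have h9 : 0 < Real.exp Y := Real.exp_pos _
    have h10 : 1 / 4 * (1 / 4096 ^ K1) * (4 * 4096 ^ K1 * Real.exp Y) ≤ C' * K1 * (Real.exp Y)⁻¹ * (4 * 4096 ^ K1 * Real.exp Y) :=
      mul_le_mul_of_nonneg_right h5 (by positivity)
    have e1 : 1 / 4 * (1 / 4096 ^ K1) * (4 * 4096 ^ K1 * Real.exp Y) = Real.exp Y := by field_simp
    have e2 : C' * K1 * (Real.exp Y)⁻¹ * (4 * 4096 ^ K1 * Real.exp Y) = 4 * C' * K1 * 4096 ^ K1 := by field_simp
    rwa [e1, e2] at h10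
  have h7 : Y ≤ C4 * K1 := by
    have h8 : 4 * C' * K1 * 4096 ^ K1 ≤ Real.exp (C4 * K1) := by
      have h9 : 4 * C' * K1 ≤ Real.exp (4 * C' * K1) := by
        have := Real.add_one_le_exp (4 * C' * K1)
        linarith
      have h10 : (4096 : ℝ) ≤ Real.exp 10 := by
        have h11 : (2.7 : ℝ) ≤ Real.exp 1 := le_trans (by norm_num) (Real.exp_one_gt_d9).le
        have h12 : Real.exp 10 = Real.exp 1 ^ 10 := by
          rw [← Real.exp_nat_mul]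
          norm_num
        rw [h12]
        calc (4096 : ℝ) ≤ 2.7 ^ 10 := by norm_num
          _ ≤ _ := pow_le_pow_left₀ (by norm_num) h11 10
      have h11 : (4096 : ℝ) ^ K1 ≤ Real.exp (10 * K1) := by
        have h12 : Real.exp (10 * K1) = Real.exp 10 ^ K1 := by
          rw [← Real.exp_nat_mul]
          congr 1
          ring
        rw [h12]
        exact pow_le_pow_left₀ (by norm_num) h10 K1
      have h12 : Real.exp (C4 * K1) = Real.exp (4 * C' * K1) * Real.exp (10 * K1) := by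
        rw [← Real.exp_add, hC4]
        congr 1
        ring
      rw [h12]
      exact mul_le_mul h9 h11 (by positivity) (Real.exp_pos _).le
    exact Real.exp_le_exp.1 (h6.trans h8)
  have h8 : C4 * K1 ≤ C4 * (2 * C3 * κ) := mul_le_mul_of_nonneg_left hK1b hC40.le
  have h9 : C4 * (2 * C3 * κ) = 2 * C4 * C3 * κ := by ring
  have h10 : 2 * C4 * C3 * κ < C * κ := mul_lt_mul_of_pos_right hCa hκ0
  have h11 : C * κ = Y := by
    rw [hκ]
    field_simp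
  linarith

end Pool.Agent.Lib.H18Q
end

-- from Lib.H18Q.PH
section

/-!
# Project H18Q, chunk PH: the L1 norms at good and at exceptional levels
-/

open Finset

namespace Pool.Agent.Lib.H18Q

open Pool.Agent.Lib.H68T

theorem ph_w_cont : Continuous w := by
  unfold w
  exact (Real.smoothTransition.continuous.comp (by fun_prop)).mul
    (Real.smoothTransition.continuous.comp (by fun_prop))

theorem ph_w_zero {y : ℝ} (hy : y ∉ Set.Icc (-2 : ℝ) 4) : w y = 0 := by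
  unfold w
  rw [Set.mem_Icc, not_and_or, not_le, not_le] at hy
  rcases hy with h | h
  · rw [Real.smoothTransition.zero_of_nonpos (by linarith), zero_mul]
  · rw [Real.smoothTransition.zero_of_nonpos (x := 4 - y) (by linarith), mul_zero]

theorem ph_FF_cont (X : ℕ) (h : ℕ → ℂ) : Continuous (FF X h) := by
  unfold FF
  refine continuous_finsetSum _ fun m hm => ?_
  have hm0 : (m : ℂ) ≠ 0 := by
    have := (mem_Icc.1 hm).1
    exact_mod_cast (by omega : m ≠ 0)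
  exact continuous_const.mul (Continuous.const_cpow (by fun_prop) (Or.inl hm0))

theorem ph_Mb_cont (X : ℕ) (b : ℝ) : Continuous (Mb X b) := by
  have h1 : Mb X b = fun t : ℝ => ∫ u in Set.Icc (Real.log X - 2) (Real.log X + 4),
      (w (u - Real.log X) : ℂ) * Complex.exp (-((1 - b : ℝ) + t * Complex.I) * u) := by
    funext t
    unfold Mb
    symm
    apply MeasureTheory.setIntegral_eq_integral_of_forall_compl_eq_zero
    intro u hu
    rw [ph_w_zero, Complex.ofReal_zero, zero_mul]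
    intro h
    apply hu
    constructor <;> linarith [h.1, h.2]
  rw [h1]
  refine continuous_parametric_integral_of_continuous ?_ isCompact_Icc
  have hw := ph_w_cont
  refine Continuous.mul ?_ ?_
  · exact Complex.continuous_ofReal.comp (hw.comp (by fun_prop))
  · fun_prop

/-- comparison of the L1 norms -/
theorem ph_tri (A M F : ℝ → ℂ) (hA : Continuous A) (hM : Continuous M) (hF : Continuous F)
    (S E : ℝ) (hS : 0 ≤ S) (hE : ∀ t ∈ Set.Icc (-S) S, ‖F t - M t‖ ≤ E) :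
    ∫ t in (-S)..S, ‖A t - F t‖ ≤ (∫ t in (-S)..S, ‖A t - M t‖) + 2 * S * E := by
  have h1 : ∫ t in (-S)..S, ‖A t - F t‖ ≤ ∫ t in (-S)..S, (‖A t - M t‖ + E) := by
    apply intervalIntegral.integral_mono_on (by linarith)
    · exact ((hA.sub hF).norm).intervalIntegrable _ _
    · exact (((hA.sub hM).norm).add continuous_const).intervalIntegrable _ _
    · intro t ht
      have h2 := hE t ht
      calc ‖A t - F t‖ = ‖(A t - M t) - (F t - M t)‖ := by ring_nf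
        _ ≤ ‖A t - M t‖ + ‖F t - M t‖ := norm_sub_le _ _
        _ ≤ _ := by linarith
  refine h1.trans (le_of_eq ?_)
  have h2 : Continuous fun t => ‖A t - M t‖ := (hA.sub hM).norm
  rw [intervalIntegral.integral_add (h2.intervalIntegrable _ _)
    (continuous_const.intervalIntegrable _ _), intervalIntegral.integral_const, smul_eq_mul]
  ring

theorem ph_q6 {Q : ℕ} (hQ : (1 : ℝ) ≤ Q) : (Q : ℝ) ^ (-6 : ℝ) = 1 / (Q : ℝ) ^ 6 := by
  have e2 : (Q : ℝ) ^ (6 : ℝ) = (Q : ℝ) ^ 6 := by exact_mod_cast Real.rpow_natCast (Q : ℝ) 6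
  rw [Real.rpow_neg (by linarith), e2, one_div]

/-- the error of the main term -/
theorem ph_err {CF K : ℝ} {Q X : ℕ} (hCF : 0 < CF) (hK : 21 ≤ K) (hKC : 4 * CF ≤ K)
    (h : RegP K Q X) :
    2 * (Q : ℝ) ^ 7 * (CF * (1 + (Q : ℝ) ^ 7) / X) ≤ 1 / (Q : ℝ) ^ 6 := by
  have hK1 : 1 ≤ K := by linarith
  have hQK := h.Q_ge hK1
  have hQ0 : (0 : ℝ) < Q := by linarith
  have hX0 : (0 : ℝ) < X := by exact_mod_cast h.X_pos (by linarith)
  have hlQ : 0 ≤ Real.log Q := by linarith [h.logQ_ge hK1]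
  have hX : (Q : ℝ) ^ 21 ≤ X := by
    rw [← Real.log_le_log_iff (by positivity) hX0, Real.log_pow]
    have h1 := h.logQ_le hK1
    have h2 : 21 * Real.log Q ≤ K * Real.log Q := mul_le_mul_of_nonneg_right hK hlQ
    push_cast
    linarith
  have h7 : (1 : ℝ) ≤ (Q : ℝ) ^ 7 := one_le_pow₀ (by linarith)
  rw [← mul_div_assoc, div_le_div_iff₀ hX0 (by positivity)]
  calc 2 * (Q : ℝ) ^ 7 * (CF * (1 + (Q : ℝ) ^ 7)) * (Q : ℝ) ^ 6
      ≤ 2 * (Q : ℝ) ^ 7 * (CF * (2 * (Q : ℝ) ^ 7)) * (Q : ℝ) ^ 6 := by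
        apply mul_le_mul_of_nonneg_right _ (by positivity)
        apply mul_le_mul_of_nonneg_left _ (by positivity)
        apply mul_le_mul_of_nonneg_left _ hCF.le
        linarith
    _ = (4 * CF) * (Q : ℝ) ^ 20 := by ring
    _ ≤ Q * (Q : ℝ) ^ 20 := mul_le_mul_of_nonneg_right (hKC.trans hQK) (by positivity)
    _ = (Q : ℝ) ^ 21 := by ring
    _ ≤ X := hX
    _ = 1 * X := (one_mul _).symm

/-- the logarithmic derivatives -/
theorem ph_ld_p0 (s : ℂ) (hs : 1 < s.re) : logDeriv (Lp p0) s =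
    -LSeries (fun n => (ArithmeticFunction.vonMangoldt n : ℂ) * p0.2 (n : ZMod p0.1)) s +
      ((1 : ℝ) : ℂ) / (s - ((1 : ℝ) : ℂ)) := by
  have hfun : (fun n : ℕ => (ArithmeticFunction.vonMangoldt n : ℂ) * (p0.2 (n : ZMod p0.1) : ℂ)) =
      fun n : ℕ => (ArithmeticFunction.vonMangoldt n : ℂ) := by
    funext n
    have h1 : (p0.2 : DirichletCharacter ℂ p0.1) (n : ZMod p0.1) = 1 := by
      have h2 : (n : ZMod p0.1) = 1 := by
        have : Subsingleton (ZMod p0.1) := by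
          change Subsingleton (ZMod 1)
          infer_instance
        exact Subsingleton.elim _ _
      rw [h2, map_one]
    rw [h1, mul_one]
  rw [hfun, Lp_p0, lab1_Z s hs, Complex.ofReal_one]
  ring

theorem ph_ld_ne {Q : ℕ} {p : Σ r : ℕ, DirichletCharacter ℂ r} (hp : p ∈ PC Q) (h : p ≠ p0) (s : ℂ)
    (hs : 1 < s.re) (b : ℝ) : logDeriv (Lp p) s =
    -LSeries (fun n => (ArithmeticFunction.vonMangoldt n : ℂ) * p.2 (n : ZMod p.1)) s +
      ((0 : ℝ) : ℂ) / (s - (b : ℂ)) := by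
  obtain ⟨hne, hLp⟩ := Lp_mem hp h
  rw [hLp, lab1_char p.1 p.2 s hs, Complex.ofReal_zero, zero_div]
  ring

/-- splitting of the sum -/
theorem ph_split {α : Type*} (S : Finset α) (a : α) (ha : a ∈ S) (P : α → Prop) [DecidablePred P]
    (hP : ∀ x, P x ↔ x ≠ a) (f : α → ℝ) : ∑ x ∈ S, f x = f a + ∑ x ∈ S.filter P, f x := by
  classical
  rw [← Finset.add_sum_erase S f ha]
  congr 1
  refine Finset.sum_congr ?_ fun _ _ => rfl
  ext x
  rw [Finset.mem_erase, Finset.mem_filter, hP]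
  tauto

open scoped Classical in
/-- Good levels. Proof: `L1_family` with `g = Lp` (`Fam_Lp`), `ε p = 1`, `b p = 1` for `p0`
(`lab1_Z`, `Lp_p0`), `ε p = 0`, `b p = 1` else (`lab1_char`, `Lp_mem`); `zero_sum` with `z = c'` of
`zero_free_good`; `PF_main` with `b = 1` and `PF_F0` (`∫_{|t| ≤ Q^7} C (1+|t|)/X ≤ Q^(-6)` for
`X ≥ Q^30`). The total is at most `C (C exp (-K c'/16) + Q^(-6)) + 2 Q^(-6) ≤ e0` for `K` and `Q`
large (`Q ≥ exp(K²)` by `RegP`; use `RegP.mono` to apply `zero_sum` with the large `K`). -/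
theorem L1_good (c e0 : ℝ) (hc : 0 < c) (he : 0 < e0) : ∃ K : ℝ, 1 ≤ K ∧ ∀ Q X : ℕ,
    RegP K Q X → Good c Q →
    (∫ t in (-(Q : ℝ) ^ 7)..((Q : ℝ) ^ 7), ‖FL X p0 t - F0 X t‖) +
    ∑ p ∈ (PC Q).filter (fun p => p ≠ p0), ∫ t in (-(Q : ℝ) ^ 7)..((Q : ℝ) ^ 7),
      ‖FL X p t‖ ≤ e0 := by
  obtain ⟨C0, K1, h0, hfam⟩ := Fam_Lp
  obtain ⟨CL, KL, hCL, hKL, hL1⟩ := L1_family C0 h0
  obtain ⟨CZ, KZ, hCZ, hKZ, hZ⟩ := zero_sum C0 h0
  obtain ⟨c', K2, hc', hfree⟩ := zero_free_good c hc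
  obtain ⟨CF, KF, hCF, hF⟩ := PF_main
  refine ⟨max (max (max KL KZ) (max K1 K2)) (max (max KF 21) (max (4 * CF)
    (max (32 * CL * CZ / (c' * e0)) (2 * (CL + 2) / e0)))),
    le_trans hKL ((le_max_left _ _).trans ((le_max_left _ _).trans (le_max_left _ _))), ?_⟩
  intro Q X hreg hgood
  obtain ⟨K, hKd⟩ : ∃ K, K = max (max (max KL KZ) (max K1 K2)) (max (max KF 21) (max (4 * CF)
    (max (32 * CL * CZ / (c' * e0)) (2 * (CL + 2) / e0)))) := ⟨_, rfl⟩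
  rw [← hKd] at hreg
  have k1 : KL ≤ K := by rw [hKd]; exact (le_max_left _ _).trans ((le_max_left _ _).trans (le_max_left _ _))
  have k2 : KZ ≤ K := by rw [hKd]; exact (le_max_right _ _).trans ((le_max_left _ _).trans (le_max_left _ _))
  have k3 : K1 ≤ K := by rw [hKd]; exact (le_max_left _ _).trans ((le_max_right _ _).trans (le_max_left _ _))
  have k4 : K2 ≤ K := by rw [hKd]; exact (le_max_right _ _).trans ((le_max_right _ _).trans (le_max_left _ _))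
  have k5 : KF ≤ K := by rw [hKd]; exact (le_max_left _ _).trans ((le_max_left _ _).trans (le_max_right _ _))
  have k6 : 21 ≤ K := by rw [hKd]; exact (le_max_right _ _).trans ((le_max_left _ _).trans (le_max_right _ _))
  have k7 : 4 * CF ≤ K := by
    rw [hKd]; exact (le_max_left _ _).trans ((le_max_right _ _).trans (le_max_right _ _))
  have k8 : 32 * CL * CZ / (c' * e0) ≤ K := by
    rw [hKd]
    exact (le_max_left _ _).trans ((le_max_right _ _).trans ((le_max_right _ _).trans (le_max_right _ _)))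
  have k9 : 2 * (CL + 2) / e0 ≤ K := by
    rw [hKd]
    exact (le_max_right _ _).trans ((le_max_right _ _).trans ((le_max_right _ _).trans (le_max_right _ _)))
  clear hKd
  have hK1 : 1 ≤ K := by linarith
  have hQK := hreg.Q_ge hK1
  have hXK := hreg.X_ge (by linarith)
  have hQ1 : (1 : ℝ) ≤ Q := by linarith
  have hQ1' : 1 ≤ Q := by exact_mod_cast hQ1
  have hfamQ := hfam Q (k3.trans hQK)
  have hpow : (0 : ℝ) ≤ (Q : ℝ) ^ 7 := by positivity
  -- the family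
  have hmain := hL1 Q X (hreg.mono (by linarith) k1) Lp (fun p => if p = p0 then 1 else 0)
    (fun _ => 1) hfamQ (by
      intro p hp
      refine ⟨?_, le_refl _, ?_⟩
      · split_ifs <;> simp
      · intro s hs
        by_cases h : p = p0
        · rw [if_pos h, h]
          exact ph_ld_p0 s hs
        · rw [if_neg h]
          exact ph_ld_ne hp h s hs 1)
  have hzs := hZ K k2 Q X hreg Lp hfamQ c' (hfree Q (k4.trans hQK) hgood)
  rw [ph_split (PC Q) p0 (p0_mem hQ1') (fun p => p ≠ p0) (fun _ => Iff.rfl)] at hmain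
  have hsum : ∑ p ∈ (PC Q).filter (fun p => p ≠ p0), ∫ t in (-(Q : ℝ) ^ 7)..((Q : ℝ) ^ 7),
      ‖FL X p t - (((if p = p0 then 1 else 0 : ℝ)) : ℂ) * Mb X 1 t‖ =
      ∑ p ∈ (PC Q).filter (fun p => p ≠ p0), ∫ t in (-(Q : ℝ) ^ 7)..((Q : ℝ) ^ 7), ‖FL X p t‖ := by
    refine Finset.sum_congr rfl fun p hp => ?_
    rw [if_neg (mem_filter.1 hp).2]
    simp
  rw [hsum] at hmain
  have htri := ph_tri (FL X p0) (Mb X 1) (F0 X) (ph_FF_cont X _) (ph_Mb_cont X 1) (ph_FF_cont X _)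
    ((Q : ℝ) ^ 7) (CF * (1 + (Q : ℝ) ^ 7) / X) hpow (by
      intro t ht
      rw [PF_F0]
      refine (hF X (k5.trans hXK) 1 t (by norm_num) le_rfl).trans ?_
      apply div_le_div_of_nonneg_right _ (Nat.cast_nonneg _)
      apply mul_le_mul_of_nonneg_left _ hCF.le
      have := abs_le.2 ⟨ht.1, ht.2⟩
      linarith)
  have herr := ph_err hCF k6 k7 hreg
  have hp0t : ∫ t in (-(Q : ℝ) ^ 7)..((Q : ℝ) ^ 7),
      ‖FL X p0 t - (((if p0 = p0 then 1 else 0 : ℝ)) : ℂ) * Mb X 1 t‖ =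
      ∫ t in (-(Q : ℝ) ^ 7)..((Q : ℝ) ^ 7), ‖FL X p0 t - Mb X 1 t‖ := by
    rw [if_pos rfl]
    simp
  rw [hp0t] at hmain
  rw [ph_q6 hQ1] at hmain hzs
  have hq : 1 / (Q : ℝ) ^ 6 ≤ 1 / Q := by
    apply one_div_le_one_div_of_le (by linarith)
    calc (Q : ℝ) = (Q : ℝ) ^ 1 := (pow_one _).symm
      _ ≤ (Q : ℝ) ^ 6 := pow_le_pow_right₀ hQ1 (by norm_num)
  have hexp : Real.exp (-(K / 16 * c')) ≤ 16 / (K * c') := by
    have hx : 0 < K * c' / 16 := by positivity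
    have h1 := Real.add_one_le_exp (K * c' / 16)
    rw [show -(K / 16 * c') = -(K * c' / 16) by ring, Real.exp_neg]
    rw [show (16 : ℝ) / (K * c') = (K * c' / 16)⁻¹ by rw [inv_div]]
    exact inv_anti₀ hx (by linarith)
  have hA1 : CL * (CZ * Real.exp (-(K / 16 * c'))) ≤ e0 / 2 := by
    have h1 : CL * (CZ * Real.exp (-(K / 16 * c'))) ≤ CL * (CZ * (16 / (K * c'))) := by
      apply mul_le_mul_of_nonneg_left _ (by linarith)
      exact mul_le_mul_of_nonneg_left hexp (by linarith)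
    refine h1.trans ?_
    rw [div_le_iff₀ (by positivity)] at k8
    have h2 : CL * (CZ * (16 / (K * c'))) = CL * CZ * 16 / (K * c') := by ring
    rw [h2, div_le_iff₀ (by positivity)]
    linarith
  have hA2 : (CL + 2) * (1 / (Q : ℝ) ^ 6) ≤ e0 / 2 := by
    have h1 : (CL + 2) * (1 / (Q : ℝ) ^ 6) ≤ (CL + 2) * (1 / Q) :=
      mul_le_mul_of_nonneg_left hq (by linarith)
    refine h1.trans ?_
    rw [div_le_iff₀ he] at k9
    rw [mul_one_div, div_le_iff₀ (by linarith)]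
    have h2 : K * e0 ≤ Q * e0 := mul_le_mul_of_nonneg_right hQK he.le
    linarith
  have hA3 := mul_le_mul_of_nonneg_left hzs (by linarith : (0 : ℝ) ≤ CL)
  have hA4 : CL * (CZ * Real.exp (-(K / 16 * c')) + 1 / (Q : ℝ) ^ 6) =
      CL * (CZ * Real.exp (-(K / 16 * c'))) + CL * (1 / (Q : ℝ) ^ 6) := by ring
  rw [hA4] at hA3
  have hA5 : (CL + 2) * (1 / (Q : ℝ) ^ 6) = CL * (1 / (Q : ℝ) ^ 6) + 2 * (1 / (Q : ℝ) ^ 6) := by ring
  rw [hA5] at hA2
  linarith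

open scoped Classical in
/-- Exceptional levels. Proof: `L1_family` with `g = Lx r ψ β` (`Fam_Lx`; `β ≥ 7/8` since
`1 - β ≤ c1/log Q`), `ε = 1, b = 1` for `p0`, `ε = -1, b = β` for `(r, ψ)` (`Lx_mk`, `Lp_mk`,
`lab1_char`, and `logDeriv (dslope L β) = logDeriv L - 1/(s - β)`, `XZ4_dslope_logderiv`), `ε = 0`
else; `zero_sum` with `z = Y/C`, `Y = log (1/(η log Q))`, `η = 1 - β` (`repulsion`; `c1` the one of
`repulsion`): `exp (-K z/16) = (η log Q)^(K/(16 C)) ≤ c1^(K/(16 C) - 1) η log Q` and `c1 < 1`; so it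
is `≤ (e0/2)/C² · η log Q` for `K` large. `PF_main` for `b = 1` and `b = β`. The errors `Q^(-6)` are
`≤ e0/10 η log Q` since `η ≥ c/r² ≥ c/Q²` (`zero_elementary` in `H68X/XSIE`). If `η log Q` is `0`...
it is positive (`β < 1`, `Q ≥ 2`). -/
theorem L1_exceptional : ∃ c1 : ℝ, 0 < c1 ∧ c1 < 1 ∧ ∀ e0 : ℝ, 0 < e0 → ∃ K : ℝ, 1 ≤ K ∧
    ∀ Q X : ℕ, RegP K Q X → ∀ (r : ℕ) [NeZero r] (ψ : DirichletCharacter ℂ r), r ≤ Q →
    ψ.IsPrimitive → ψ ≠ 1 → ψ ^ 2 = 1 → ∀ β : ℝ, β < 1 → ψ.LFunction (β : ℂ) = 0 →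
    (1 - β) * Real.log Q ≤ c1 →
    (∫ t in (-(Q : ℝ) ^ 7)..((Q : ℝ) ^ 7), ‖FL X p0 t - F0 X t‖) +
    (∫ t in (-(Q : ℝ) ^ 7)..((Q : ℝ) ^ 7), ‖FL X ⟨r, ψ⟩ t + Fb X β t‖) +
    ∑ p ∈ (PC Q).filter (fun p => p ≠ p0 ∧ p ≠ ⟨r, ψ⟩),
      ∫ t in (-(Q : ℝ) ^ 7)..((Q : ℝ) ^ 7), ‖FL X p t‖ ≤ e0 * ((1 - β) * Real.log Q) := by
  obtain ⟨CR, c1, KR, hCR, hc1, hc11, hrep⟩ := repulsion
  obtain ⟨C0, K1, h0, hfam⟩ := Fam_Lx
  obtain ⟨CL, KL, hCL, hKL, hL1⟩ := L1_family C0 h0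
  obtain ⟨CZ, KZ, hCZ, hKZ, hZ⟩ := zero_sum C0 h0
  obtain ⟨CF, KF, hCF, hF⟩ := PF_main
  obtain ⟨ce, hce, hel⟩ := zero_elementary
  refine ⟨c1, hc1, hc11, fun e0 he => ?_⟩
  have hlam : 0 < Real.log (1 / c1) := Real.log_pos (by rw [lt_div_iff₀ hc1]; linarith)
  obtain ⟨lam, hlamd⟩ : ∃ lam, lam = Real.log (1 / c1) := ⟨_, rfl⟩
  rw [← hlamd] at hlam
  refine ⟨max (max (max KL KZ) (max K1 KR)) (max (max KF 21) (max (4 * CF)
    (max (16 * CR * (1 + 2 * CL * CZ / (e0 * lam))) (2 * (CL + 3) / (e0 * ce))))),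
    le_trans hKL ((le_max_left _ _).trans ((le_max_left _ _).trans (le_max_left _ _))), ?_⟩
  intro Q X hreg r _ ψ hr hprim hψ1 hψ2 β hβ hLβ hsmall
  obtain ⟨K, hKd⟩ : ∃ K, K = max (max (max KL KZ) (max K1 KR)) (max (max KF 21) (max (4 * CF)
    (max (16 * CR * (1 + 2 * CL * CZ / (e0 * lam))) (2 * (CL + 3) / (e0 * ce))))) := ⟨_, rfl⟩
  rw [← hKd] at hreg
  have k1 : KL ≤ K := by rw [hKd]; exact (le_max_left _ _).trans ((le_max_left _ _).trans (le_max_left _ _))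
  have k2 : KZ ≤ K := by rw [hKd]; exact (le_max_right _ _).trans ((le_max_left _ _).trans (le_max_left _ _))
  have k3 : K1 ≤ K := by rw [hKd]; exact (le_max_left _ _).trans ((le_max_right _ _).trans (le_max_left _ _))
  have k4 : KR ≤ K := by rw [hKd]; exact (le_max_right _ _).trans ((le_max_right _ _).trans (le_max_left _ _))
  have k5 : KF ≤ K := by rw [hKd]; exact (le_max_left _ _).trans ((le_max_left _ _).trans (le_max_right _ _))
  have k6 : 21 ≤ K := by rw [hKd]; exact (le_max_right _ _).trans ((le_max_left _ _).trans (le_max_right _ _))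
  have k7 : 4 * CF ≤ K := by
    rw [hKd]; exact (le_max_left _ _).trans ((le_max_right _ _).trans (le_max_right _ _))
  have k8 : 16 * CR * (1 + 2 * CL * CZ / (e0 * lam)) ≤ K := by
    rw [hKd]
    exact (le_max_left _ _).trans ((le_max_right _ _).trans ((le_max_right _ _).trans (le_max_right _ _)))
  have k9 : 2 * (CL + 3) / (e0 * ce) ≤ K := by
    rw [hKd]
    exact (le_max_right _ _).trans ((le_max_right _ _).trans ((le_max_right _ _).trans (le_max_right _ _)))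
  clear hKd
  have hK1 : 1 ≤ K := by linarith
  have hQK := hreg.Q_ge hK1
  have hXK := hreg.X_ge (by linarith)
  have hlQ := hreg.logQ_ge hK1
  have hQ1 : (1 : ℝ) ≤ Q := by linarith
  have hQ1' : 1 ≤ Q := by exact_mod_cast hQ1
  have hη : 0 < 1 - β := by linarith
  have hβ34 : 3 / 4 ≤ β := by
    by_contra hcon
    have h1 : (1 / 4 : ℝ) ≤ 1 - β := by linarith [not_le.1 hcon]
    have h2 : (1 / 4 : ℝ) * 21 ≤ (1 - β) * Real.log Q :=
      mul_le_mul h1 (by linarith) (by norm_num) hη.le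
    linarith
  have hfamQ := hfam Q (k3.trans hQK) r ψ hr hψ1 β hβ34 hβ hLβ
  have hpow : (0 : ℝ) ≤ (Q : ℝ) ^ 7 := by positivity
  have hmemψ : (⟨r, ψ⟩ : Σ r : ℕ, DirichletCharacter ℂ r) ∈ PC Q :=
    mem_PC.2 ⟨Nat.pos_of_ne_zero (NeZero.ne r), hr, hprim⟩
  have hneψ : (⟨r, ψ⟩ : Σ r : ℕ, DirichletCharacter ℂ r) ≠ p0 := by
    intro h
    unfold p0 at h
    obtain ⟨h1, h2⟩ := Sigma.mk.inj_iff.1 h
    subst h1
    exact hψ1 (eq_of_heq h2)
  -- the family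
  have hmain := hL1 Q X (hreg.mono (by linarith) k1) (Lx r ψ β)
    (fun p => if p = p0 then 1 else if p = ⟨r, ψ⟩ then -1 else 0)
    (fun p => if p = ⟨r, ψ⟩ then β else 1) hfamQ (by
      intro p hp
      refine ⟨?_, ?_, ?_⟩
      · split_ifs <;> simp
      · split_ifs
        · exact hβ.le
        · exact le_rfl
      · intro s hs
        by_cases h : p = p0
        · have h2 : p ≠ ⟨r, ψ⟩ := by rw [h]; exact fun h3 => hneψ h3.symm
          rw [if_pos h, if_neg h2, Lx_of_ne r ψ β p h2, h]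
          exact ph_ld_p0 s hs
        · by_cases h2 : p = ⟨r, ψ⟩
          · rw [if_neg h, if_pos h2, if_pos h2, h2, Lx_mk, logDeriv_apply]
            have hd := DirichletCharacter.differentiable_LFunction hψ1
            rw [Lp_mk r ψ hneψ]
            rw [XZ4_dslope_logderiv hd (β : ℂ) s hLβ (by
              rintro rfl
              rw [Complex.ofReal_re] at hs
              linarith) (DirichletCharacter.LFunction_ne_zero_of_one_le_re ψ (Or.inl hψ1) hs.le)]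
            rw [← logDeriv_apply, lab1_char r ψ s hs]
            push_cast
            ring
          · rw [if_neg h, if_neg h2, if_neg h2, Lx_of_ne r ψ β p h2]
            exact ph_ld_ne hp h s hs 1)
  have hx0 : 0 < (1 - β) * Real.log Q := mul_pos hη (by linarith)
  obtain ⟨x, hxd⟩ : ∃ x, x = (1 - β) * Real.log Q := ⟨_, rfl⟩
  rw [← hxd] at hx0 hsmall ⊢
  have hzs := hZ K k2 Q X hreg (Lx r ψ β) hfamQ (Real.log (1 / x) / CR) (by
    intro p hp ρ hρ him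
    have h1 := hrep Q (k4.trans hQK) r ψ hr hprim hψ1 hψ2 β hβ hLβ (by rw [← hxd]; exact hsmall)
      p hp ρ hρ him
    rw [div_div, hxd]
    exact h1)
  rw [ph_split (PC Q) p0 (p0_mem hQ1') (fun p => p ≠ p0) (fun _ => Iff.rfl),
    ph_split ((PC Q).filter (fun p => p ≠ p0)) ⟨r, ψ⟩ (mem_filter.2 ⟨hmemψ, hneψ⟩)
      (fun p => p ≠ ⟨r, ψ⟩) (fun _ => Iff.rfl)] at hmain
  have hfilt : ((PC Q).filter (fun p => p ≠ p0)).filter (fun p => p ≠ ⟨r, ψ⟩) =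
      (PC Q).filter (fun p => p ≠ p0 ∧ p ≠ ⟨r, ψ⟩) := by
    ext p
    simp only [mem_filter]
    tauto
  rw [hfilt] at hmain
  have hsum : ∑ p ∈ (PC Q).filter (fun p => p ≠ p0 ∧ p ≠ ⟨r, ψ⟩),
      ∫ t in (-(Q : ℝ) ^ 7)..((Q : ℝ) ^ 7),
      ‖FL X p t - (((if p = p0 then 1 else if p = ⟨r, ψ⟩ then -1 else 0 : ℝ)) : ℂ) *
        Mb X (if p = ⟨r, ψ⟩ then β else 1) t‖ =
      ∑ p ∈ (PC Q).filter (fun p => p ≠ p0 ∧ p ≠ ⟨r, ψ⟩),
        ∫ t in (-(Q : ℝ) ^ 7)..((Q : ℝ) ^ 7), ‖FL X p t‖ := by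
    refine Finset.sum_congr rfl fun p hp => ?_
    rw [if_neg (mem_filter.1 hp).2.1, if_neg (mem_filter.1 hp).2.2]
    simp
  rw [hsum] at hmain
  have htri := ph_tri (FL X p0) (Mb X 1) (F0 X) (ph_FF_cont X _) (ph_Mb_cont X 1) (ph_FF_cont X _)
    ((Q : ℝ) ^ 7) (CF * (1 + (Q : ℝ) ^ 7) / X) hpow (by
      intro t ht
      rw [PF_F0]
      refine (hF X (k5.trans hXK) 1 t (by norm_num) le_rfl).trans ?_
      apply div_le_div_of_nonneg_right _ (Nat.cast_nonneg _)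
      apply mul_le_mul_of_nonneg_left _ hCF.le
      have := abs_le.2 ⟨ht.1, ht.2⟩
      linarith)
  have htri2 := ph_tri (FL X ⟨r, ψ⟩) (fun t => -Mb X β t) (fun t => -Fb X β t) (ph_FF_cont X _)
    (ph_Mb_cont X β).neg (ph_FF_cont X _).neg
    ((Q : ℝ) ^ 7) (CF * (1 + (Q : ℝ) ^ 7) / X) hpow (by
      intro t ht
      rw [show -Fb X β t - -Mb X β t = -(Fb X β t - Mb X β t) by ring, norm_neg]
      refine (hF X (k5.trans hXK) β t (by linarith) hβ.le).trans ?_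
      apply div_le_div_of_nonneg_right _ (Nat.cast_nonneg _)
      apply mul_le_mul_of_nonneg_left _ hCF.le
      have := abs_le.2 ⟨ht.1, ht.2⟩
      linarith)
  simp only [sub_neg_eq_add] at htri2
  have herr := ph_err hCF k6 k7 hreg
  have hp0t : ∫ t in (-(Q : ℝ) ^ 7)..((Q : ℝ) ^ 7),
      ‖FL X p0 t - (((if p0 = p0 then 1 else if p0 = ⟨r, ψ⟩ then -1 else 0 : ℝ)) : ℂ) *
        Mb X (if p0 = ⟨r, ψ⟩ then β else 1) t‖ =
      ∫ t in (-(Q : ℝ) ^ 7)..((Q : ℝ) ^ 7), ‖FL X p0 t - Mb X 1 t‖ := by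
    rw [if_pos rfl, if_neg (fun h3 => hneψ h3.symm)]
    simp
  have hψt : ∫ t in (-(Q : ℝ) ^ 7)..((Q : ℝ) ^ 7),
      ‖FL X ⟨r, ψ⟩ t - (((if (⟨r, ψ⟩ : Σ r : ℕ, DirichletCharacter ℂ r) = p0 then 1 else
        if (⟨r, ψ⟩ : Σ r : ℕ, DirichletCharacter ℂ r) = ⟨r, ψ⟩ then -1 else 0 : ℝ)) : ℂ) *
        Mb X (if (⟨r, ψ⟩ : Σ r : ℕ, DirichletCharacter ℂ r) = ⟨r, ψ⟩ then β else 1) t‖ =
      ∫ t in (-(Q : ℝ) ^ 7)..((Q : ℝ) ^ 7), ‖FL X ⟨r, ψ⟩ t + Mb X β t‖ := by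
    rw [if_neg hneψ, if_pos rfl, if_pos rfl]
    simp
  rw [hp0t, hψt] at hmain
  rw [ph_q6 hQ1] at hmain hzs
  -- the numbers
  have hA1 : CL * (CZ * Real.exp (-(K / 16 * (Real.log (1 / x) / CR)))) ≤ e0 / 2 * x := by
    have hxc : lam ≤ Real.log (1 / x) := by
      rw [hlamd]
      exact Real.log_le_log (by positivity) (one_div_le_one_div_of_le hx0 hsmall)
    have hxlog : Real.log (1 / x) = -Real.log x := by rw [one_div, Real.log_inv]
    set Y := Real.log (1 / x) with hY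
    have hY0 : 0 < Y := by linarith
    have e1 : -(K / 16 * (Y / CR)) = Real.log x + -((K / (16 * CR) - 1) * Y) := by
      have : Real.log x = -Y := by linarith
      rw [this]
      field_simp
      ring
    rw [e1, Real.exp_add, Real.exp_log hx0]
    have ha : 2 * CL * CZ / (e0 * lam) ≤ K / (16 * CR) - 1 := by
      have : 1 + 2 * CL * CZ / (e0 * lam) ≤ K / (16 * CR) := by
        rw [le_div_iff₀ (by positivity)]
        linarith
      linarith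
    have hb : 2 * CL * CZ / e0 ≤ (K / (16 * CR) - 1) * Y := by
      have h1 : 2 * CL * CZ / e0 = 2 * CL * CZ / (e0 * lam) * lam := by
        field_simp
      rw [h1]
      exact mul_le_mul ha hxc hlam.le (le_trans (by positivity) ha)
    have hc : Real.exp (-((K / (16 * CR) - 1) * Y)) ≤ e0 / (2 * CL * CZ) := by
      have h1 : 0 < 2 * CL * CZ / e0 := by positivity
      have h2 := Real.add_one_le_exp ((K / (16 * CR) - 1) * Y)
      have h3 : e0 / (2 * CL * CZ) = (2 * CL * CZ / e0)⁻¹ := by rw [inv_div]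
      rw [Real.exp_neg, h3]
      exact inv_anti₀ h1 (by linarith)
    calc CL * (CZ * (x * Real.exp (-((K / (16 * CR) - 1) * Y)))) =
        (CL * CZ * x) * Real.exp (-((K / (16 * CR) - 1) * Y)) := by ring
      _ ≤ (CL * CZ * x) * (e0 / (2 * CL * CZ)) := mul_le_mul_of_nonneg_left hc (by positivity)
      _ = e0 / 2 * x := by field_simp
  have hA2 : (CL + 3) * (1 / (Q : ℝ) ^ 6) ≤ e0 / 2 * x := by
    have hr1 : (1 : ℝ) ≤ r := by exact_mod_cast Nat.pos_of_ne_zero (NeZero.ne r)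
    have hrQ : (r : ℝ) ≤ Q := by exact_mod_cast hr
    have h1 := hel r ψ hψ1 hψ2 β hβ hLβ
    have h2 : ce / (Q : ℝ) ^ 2 ≤ 1 - β := by
      refine le_trans ?_ h1
      apply div_le_div_of_nonneg_left hce.le (by positivity)
      exact pow_le_pow_left₀ (by linarith) hrQ 2
    have h3 : ce / (Q : ℝ) ^ 2 ≤ x := by
      rw [hxd]
      have h4 : 0 ≤ ce / (Q : ℝ) ^ 2 := by positivity
      calc ce / (Q : ℝ) ^ 2 = ce / (Q : ℝ) ^ 2 * 1 := (mul_one _).symm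
        _ ≤ (1 - β) * Real.log Q := mul_le_mul h2 (by linarith) zero_le_one hη.le
    refine le_trans ?_ (mul_le_mul_of_nonneg_left h3 (by positivity))
    rw [div_le_iff₀ (by positivity)] at k9
    have h5 : (CL + 3) * (1 / (Q : ℝ) ^ 6) = (CL + 3) / (Q : ℝ) ^ 4 / (Q : ℝ) ^ 2 := by
      field_simp
    have h6 : e0 / 2 * (ce / (Q : ℝ) ^ 2) = (e0 * ce / 2) / (Q : ℝ) ^ 2 := by ring
    rw [h5, h6]
    apply div_le_div_of_nonneg_right _ (by positivity)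
    rw [div_le_iff₀ (by positivity)]
    have h7 : (Q : ℝ) ≤ (Q : ℝ) ^ 4 := by
      calc (Q : ℝ) = (Q : ℝ) ^ 1 := (pow_one _).symm
        _ ≤ (Q : ℝ) ^ 4 := pow_le_pow_right₀ hQ1 (by norm_num)
    have h8 : K * (e0 * ce) ≤ (Q : ℝ) ^ 4 * (e0 * ce) :=
      mul_le_mul_of_nonneg_right (hQK.trans h7) (by positivity)
    linarith
  have hA3 := mul_le_mul_of_nonneg_left hzs (by linarith : (0 : ℝ) ≤ CL)
  have hA4 : CL * (CZ * Real.exp (-(K / 16 * (Real.log (1 / x) / CR))) + 1 / (Q : ℝ) ^ 6) =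
      CL * (CZ * Real.exp (-(K / 16 * (Real.log (1 / x) / CR)))) + CL * (1 / (Q : ℝ) ^ 6) := by ring
  rw [hA4] at hA3
  have hA5 : (CL + 3) * (1 / (Q : ℝ) ^ 6) = CL * (1 / (Q : ℝ) ^ 6) + 3 * (1 / (Q : ℝ) ^ 6) := by ring
  rw [hA5] at hA2
  linarith

end Pool.Agent.Lib.H18Q
end

-- from Lib.H18Q.CL1
section

/-!
# Project H18Q, chunk CL1: the projection at good and at exceptional levels
-/

open Finset

namespace Pool.Agent.Lib.H18Q

open Pool.Agent.Lib.H68T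

/-- `∑_n lp(n) tent(m - n) χ(n)`. -/
noncomputable def Bc (Q X : ℕ) (p : Σ r : ℕ, DirichletCharacter ℂ r) (m : ℤ) : ℂ :=
  ∑ n ∈ Icc 1 (60 * X), ((lp n * tent (X / Q ^ 2) (m - n) : ℝ) : ℂ) * p.2 (n : ZMod p.1)

theorem cl1_tent_lip {Y : ℕ} (z : ℤ) : |tent Y (z + 1) - tent Y z| ≤ 1 / (Y : ℝ) ^ 2 := by
  unfold tent
  rw [← sub_div, abs_div, abs_of_nonneg (by positivity : (0 : ℝ) ≤ (Y : ℝ) ^ 2)]
  apply div_le_div_of_nonneg_right _ (by positivity)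
  rw [max_comm 0 _, max_comm 0 ((Y : ℝ) - |(z : ℝ)|)]
  refine (abs_max_sub_max_le_abs _ _ _).trans ?_
  have h1 : ((Y : ℝ) - |((z + 1 : ℤ) : ℝ)|) - ((Y : ℝ) - |(z : ℝ)|) = |(z : ℝ)| - |((z + 1 : ℤ) : ℝ)| := by
    ring
  rw [h1]
  refine (abs_abs_sub_abs_le_abs_sub _ _).trans ?_
  push_cast
  rw [show (z : ℝ) - (z + 1) = -1 by ring, abs_neg, abs_one]

theorem cl1_tent_zero {Y : ℕ} {z : ℤ} (h : ¬ (-(Y : ℤ) ≤ z ∧ z < Y)) :
    tent Y (z + 1) - tent Y z = 0 := by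
  have h1 : ∀ z' : ℤ, (Y : ℤ) ≤ |z'| → tent Y z' = 0 := by
    intro z' hz'
    unfold tent
    have h2 : (Y : ℝ) ≤ |(z' : ℝ)| := by exact_mod_cast hz'
    rw [max_eq_left (by linarith), zero_div]
  rw [not_and_or, not_le, not_lt] at h
  rcases h with h | h
  · rw [h1 (z + 1) (by rw [abs_of_nonpos (by omega)]; omega),
      h1 z (by rw [abs_of_nonpos (by omega)]; omega), sub_zero]
  · rw [h1 (z + 1) (by rw [abs_of_nonneg (by omega)]; omega),
      h1 z (by rw [abs_of_nonneg (by omega)]; omega), sub_zero]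

/-- Slow variation. Proof: `Y = X / Q²`; `|tent Y (z + 1) - tent Y z| ≤ 1/Y²`, and it vanishes unless
`|z| ≤ Y + 1`; so the difference is at most `(2 Y + 5) log (60 X)/Y² ≤ 7 log (60 X)/Y ≤
14 Q² log (60 X)/X ≤ Q^3/(2 X)` (`X/Q² ≤ 2 Y`; `log (60 X) ≤ Q/28` for `K` large). -/
theorem Bc_lip : ∃ K : ℝ, 1 ≤ K ∧ ∀ Q X : ℕ, RegP K Q X → ∀ (p : Σ r : ℕ, DirichletCharacter ℂ r)
    (m : ℤ), (X : ℤ) ≤ m → m ≤ 4 * X → ‖Bc Q X p (m + 1) - Bc Q X p m‖ ≤ (Q : ℝ) ^ 3 / (2 * X) := by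
  obtain ⟨K1, hK1, h1⟩ := BPS_regimeP
  obtain ⟨K2, hK2, h2⟩ := regp_log_le 48 1 1 one_pos
  refine ⟨max K1 K2, hK1.trans (le_max_left _ _), fun Q X hreg p m hm hm4 => ?_⟩
  have hK0 : 0 ≤ max K1 K2 := by linarith [le_max_left K1 K2]
  obtain ⟨hQ, hX, hY, hYX, hXY, -⟩ := h1 Q X (hreg.mono hK0 (le_max_left _ _))
  have hlog := h2 Q X (hreg.mono hK0 (le_max_right _ _))
  rw [Real.rpow_one, Real.rpow_one] at hlog
  have hlX := hreg.logX_ge_one (by linarith [le_max_left K1 K2] : 0 < max K1 K2)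
  obtain ⟨Y, hYd⟩ : ∃ Y, Y = X / Q ^ 2 := ⟨_, rfl⟩
  have hX0 : (0 : ℝ) < X := by exact_mod_cast hX
  have hQ0 : (0 : ℝ) < Q := by exact_mod_cast hQ
  have hBc : ∀ m, Bc Q X p m = ∑ n ∈ Icc 1 (60 * X), ((lp n * tent Y (m - n) : ℝ) : ℂ) *
      p.2 (n : ZMod p.1) := by
    intro m
    unfold Bc
    rw [← hYd]
  rw [← hYd] at hY hYX hXY
  have hY0 : (0 : ℝ) < Y := by exact_mod_cast hY
  rw [hBc, hBc, ← Finset.sum_sub_distrib]
  set L := Real.log (60 * X) with hL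
  have hLb : L ≤ 6 * Real.log X := by
    rw [hL, Real.log_mul (by norm_num) hX0.ne']
    have h3 : Real.log 60 ≤ 5 := by
      rw [Real.log_le_iff_le_exp (by norm_num)]
      have h4 : (2.7 : ℝ) ≤ Real.exp 1 := by linarith [Real.exp_one_gt_d9]
      have h5 : Real.exp 5 = Real.exp 1 ^ 5 := by
        rw [← Real.exp_nat_mul]
        norm_num
      rw [h5]
      calc (60 : ℝ) ≤ 2.7 ^ 5 := by norm_num
        _ ≤ Real.exp 1 ^ 5 := pow_le_pow_left₀ (by norm_num) h4 5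
    linarith
  have hL0 : 0 ≤ L := by
    rw [hL]
    apply Real.log_nonneg
    have : (1 : ℝ) ≤ X := by exact_mod_cast hX
    linarith
  have hlp : ∀ n ∈ Icc 1 (60 * X), 0 ≤ lp n ∧ lp n ≤ L := by
    intro n hn
    rw [mem_Icc] at hn
    unfold Pool.Agent.Lib.H68T.lp
    have h3 : (1 : ℝ) ≤ ((n : ℤ) : ℝ) := by exact_mod_cast hn.1
    have h4 : ((n : ℤ) : ℝ) ≤ 60 * X := by exact_mod_cast hn.2
    split_ifs
    · exact ⟨Real.log_nonneg h3, Real.log_le_log (by linarith) h4⟩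
    · exact ⟨le_rfl, hL0⟩
  have hterm : ∀ n ∈ Icc 1 (60 * X), ‖((lp n * tent Y (m + 1 - n) : ℝ) : ℂ) * p.2 (n : ZMod p.1) -
      ((lp n * tent Y (m - n) : ℝ) : ℂ) * p.2 (n : ZMod p.1)‖ ≤
      if -(Y : ℤ) ≤ m - n ∧ m - n < Y then L * (1 / (Y : ℝ) ^ 2) else 0 := by
    intro n hn
    rw [← sub_mul, ← Complex.ofReal_sub, ← mul_sub, norm_mul, Complex.norm_real, Real.norm_eq_abs, abs_mul]
    have e1 : m + 1 - (n : ℤ) = (m - n) + 1 := by ring
    rw [e1]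
    have hchi : ‖p.2 (n : ZMod p.1)‖ ≤ 1 := DirichletCharacter.norm_le_one p.2 _
    split_ifs with h
    · calc |lp n| * |tent Y (m - n + 1) - tent Y (m - n)| * ‖p.2 (n : ZMod p.1)‖
          ≤ (L * (1 / (Y : ℝ) ^ 2)) * 1 := by
            apply mul_le_mul _ hchi (norm_nonneg _) (by positivity)
            apply mul_le_mul _ (cl1_tent_lip _) (abs_nonneg _) hL0
            rw [abs_of_nonneg (hlp n hn).1]
            exact (hlp n hn).2
        _ = _ := mul_one _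
    · rw [cl1_tent_zero h, abs_zero, mul_zero, zero_mul]
  refine (norm_sum_le _ _).trans ((Finset.sum_le_sum hterm).trans ?_)
  rw [← Finset.sum_filter, Finset.sum_const, nsmul_eq_mul]
  have hcard : ((Icc 1 (60 * X)).filter (fun n : ℕ => -(Y : ℤ) ≤ m - n ∧ m - n < Y)).card ≤ 2 * Y := by
    have hsub : (Icc 1 (60 * X)).filter (fun n : ℕ => -(Y : ℤ) ≤ m - n ∧ m - n < Y) ⊆
        Ioc (m.toNat - Y) (m.toNat + Y) := by
      intro n hn
      rw [mem_filter] at hn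
      rw [mem_Ioc]
      omega
    refine (Finset.card_le_card hsub).trans ?_
    rw [Nat.card_Ioc]
    omega
  have hcard' : (((Icc 1 (60 * X)).filter (fun n : ℕ => -(Y : ℤ) ≤ m - n ∧ m - n < Y)).card : ℝ) ≤
      2 * Y := by exact_mod_cast hcard
  refine (mul_le_mul_of_nonneg_right hcard' (by positivity)).trans ?_
  have e2 : 2 * (Y : ℝ) * (L * (1 / (Y : ℝ) ^ 2)) = 2 * L / Y := by
    field_simp
  rw [e2, div_le_div_iff₀ hY0 (by positivity)]
  have h8 : 8 * L ≤ Q := by linarith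
  calc 2 * L * (2 * (X : ℝ)) = 4 * L * X := by ring
    _ ≤ 4 * L * (2 * (Q : ℝ) ^ 2 * Y) := mul_le_mul_of_nonneg_left hXY (by linarith)
    _ = (8 * L) * ((Q : ℝ) ^ 2 * Y) := by ring
    _ ≤ Q * ((Q : ℝ) ^ 2 * Y) := mul_le_mul_of_nonneg_right h8 (by positivity)
    _ = (Q : ℝ) ^ 3 * Y := by ring

/-- `Lk` as a sum over the components: `DA_expand` (`Q + X/Q² ≤ X`, `X/Q² < X` for `K` large). -/
theorem Lk_SG : ∃ K : ℝ, 1 ≤ K ∧ ∀ Q X : ℕ, RegP K Q X → ∀ m : ℤ, (X : ℤ) ≤ m → m ≤ 4 * X →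
    (Lk Q (X / Q ^ 2) m : ℂ) = SG Q (fun p => Bc Q X p m) m := by
  obtain ⟨K1, hK1, h1⟩ := BPS_regimeP
  obtain ⟨K2, hK2, h2⟩ := regp_pow_le 2 1 1 one_pos
  refine ⟨max K1 K2, hK1.trans (le_max_left _ _), fun Q X hreg m hm hm4 => ?_⟩
  have hK0 : 0 ≤ max K1 K2 := by linarith [le_max_left K1 K2]
  obtain ⟨hQ, hX, hY, hYX, hXY, -⟩ := h1 Q X (hreg.mono hK0 (le_max_left _ _))
  have hlog := h2 Q X (hreg.mono hK0 (le_max_right _ _))
  rw [Real.rpow_one, Real.rpow_one] at hlog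
  have h3 : 2 * Q ≤ X := by exact_mod_cast hlog
  unfold SG Bc
  exact DA_expand Q X (X / Q ^ 2) m hm hm4 (by omega) (by omega)

theorem cl1_SG_sub (Q : ℕ) (b b' : (Σ r : ℕ, DirichletCharacter ℂ r) → ℂ) (m : ℤ) :
    SG Q (fun p => b p - b' p) m = SG Q b m - SG Q b' m := by
  unfold SG
  rw [← Finset.sum_sub_distrib]
  exact Finset.sum_congr rfl fun p _ => by ring

theorem cl1_int_nonneg (Q : ℕ) (F : ℝ → ℂ) : 0 ≤ ∫ t in (-(Q : ℝ) ^ 7)..((Q : ℝ) ^ 7), ‖F t‖ := by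
  apply intervalIntegral.integral_nonneg
  · have : (0 : ℝ) ≤ (Q : ℝ) ^ 7 := by positivity
    linarith
  · intro t _
    exact norm_nonneg _

theorem cl1_p0_one (m : ℤ) : (starRingEnd ℂ) (p0.2 (m : ZMod p0.1)) = 1 := by
  have h1 : (m : ZMod p0.1) = 1 := by
    have : Subsingleton (ZMod p0.1) := by
      change Subsingleton (ZMod 1)
      infer_instance
    exact Subsingleton.elim _ _
  rw [h1, map_one, map_one]

/-- the bound for `p0` -/
theorem cl1_B0 : ∃ K : ℝ, 1 ≤ K ∧ ∀ Q X : ℕ, RegP K Q X → ∀ m : ℤ, (X : ℤ) ≤ m → m ≤ 4 * X →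
    ‖Bc Q X p0 m - 1‖ ≤
      (∫ t in (-(Q : ℝ) ^ 7)..((Q : ℝ) ^ 7), ‖FL X p0 t - F0 X t‖) +
        (Q : ℝ) ^ (-(5 / 2) : ℝ) := by
  obtain ⟨K, hK, h⟩ := B0_leP
  refine ⟨K, hK, fun Q X hreg m hm hm4 => ?_⟩
  refine le_trans (le_of_eq ?_) (h Q X hreg m hm hm4)
  have h1 : Bc Q X p0 m - 1 = ((∑ n ∈ Icc 1 (60 * X), lp n * tent (X / Q ^ 2) (m - n) - 1 : ℝ) : ℂ) := by
    unfold Bc
    push_cast
    congr 1
    refine Finset.sum_congr rfl fun n _ => ?_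
    have h1 : (n : ZMod p0.1) = 1 := by
      have : Subsingleton (ZMod p0.1) := by
        change Subsingleton (ZMod 1)
        infer_instance
      exact Subsingleton.elim _ _
    rw [h1, map_one, mul_one]
  rw [h1, Complex.norm_real, Real.norm_eq_abs]

theorem cl1_Qpow {Q : ℕ} (hQ : 1 ≤ Q) : (Q : ℝ) ^ 2 * (Q : ℝ) ^ (-(5 / 2) : ℝ) = 1 / Real.sqrt Q ∧
    (Q : ℝ) ^ (-(3 / 2) : ℝ) ≤ 1 / Real.sqrt Q := by
  have hQ0 : (0 : ℝ) < Q := by exact_mod_cast hQ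
  have hQ1 : (1 : ℝ) ≤ Q := by exact_mod_cast hQ
  have h1 : 1 / Real.sqrt Q = (Q : ℝ) ^ (-(1 / 2) : ℝ) := by
    rw [Real.sqrt_eq_rpow, Real.rpow_neg hQ0.le, one_div]
  rw [h1]
  constructor
  · have h2 : (Q : ℝ) ^ 2 = (Q : ℝ) ^ (2 : ℝ) := by exact_mod_cast (Real.rpow_natCast (Q : ℝ) 2).symm
    rw [h2, ← Real.rpow_add hQ0]
    norm_num
  · exact Real.rpow_le_rpow_of_exponent_le hQ1 (by norm_num)

/-- **Good levels.** Proof. `μ m p = 1` for `p = p0`, `0` else (`Gam Q 1 m = G Q m`: `Gam_one`; the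
trivial character modulo `1` is `1`), `e m p = Bc Q X p m - μ m p`, `mb = μ`, `eb p0 = ∫ ‖FL - F0‖ +
Q^(-5/2)` (`B0_leP`), `eb p = ∫ ‖FL‖ + Q^(-5/2)` (`B_leP`); `∑ eb ≤ e0/2 + Q² Q^(-5/2) ≤ e0` by `L1_good`
with `e0/2`; `eb ≤ e0 ≤ 2`. `Bc_lip`, `Lk_SG` (linearity of `SG`). -/
theorem lev_good (c e0 : ℝ) (hc : 0 < c) (he : 0 < e0) (he1 : e0 ≤ 1) : ∃ K : ℝ, 1 ≤ K ∧
    ∀ Q X : ℕ, RegP K Q X → Good c Q → Lev Q X e0 (fun m => G Q m) := by
  classical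
  obtain ⟨K1, hK1, hL1⟩ := L1_good c (e0 / 2) hc (by positivity)
  obtain ⟨K2, hK2, hLip⟩ := Bc_lip
  obtain ⟨K3, hK3, hLk⟩ := Lk_SG
  obtain ⟨K4, hK4, hB0⟩ := cl1_B0
  obtain ⟨K5, hK5, hB⟩ := B_leP
  refine ⟨max (max (max K1 K2) (max K3 K4)) (max K5 (4 / e0 ^ 2)),
    hK1.trans ((le_max_left _ _).trans ((le_max_left _ _).trans (le_max_left _ _))), ?_⟩
  intro Q X hreg hgood
  obtain ⟨K, hKd⟩ : ∃ K, K = max (max (max K1 K2) (max K3 K4)) (max K5 (4 / e0 ^ 2)) := ⟨_, rfl⟩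
  rw [← hKd] at hreg
  have k1 : K1 ≤ K := by rw [hKd]; exact (le_max_left _ _).trans ((le_max_left _ _).trans (le_max_left _ _))
  have k2 : K2 ≤ K := by rw [hKd]; exact (le_max_right _ _).trans ((le_max_left _ _).trans (le_max_left _ _))
  have k3 : K3 ≤ K := by rw [hKd]; exact (le_max_left _ _).trans ((le_max_right _ _).trans (le_max_left _ _))
  have k4 : K4 ≤ K := by rw [hKd]; exact (le_max_right _ _).trans ((le_max_right _ _).trans (le_max_left _ _))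
  have k5 : K5 ≤ K := by rw [hKd]; exact (le_max_left _ _).trans (le_max_right _ _)
  have k6 : 4 / e0 ^ 2 ≤ K := by rw [hKd]; exact (le_max_right _ _).trans (le_max_right _ _)
  clear hKd
  have hKp : 1 ≤ K := hK1.trans k1
  have hK0 : 0 ≤ K := by linarith
  have hQ1 : 1 ≤ Q := hreg.Q_pos hKp
  have hQ1' : (1 : ℝ) ≤ Q := by exact_mod_cast hQ1
  have hQK := hreg.Q_ge hKp
  have hX0 : (0 : ℝ) < X := by exact_mod_cast hreg.X_pos (by linarith)
  have hL := hL1 Q X (hreg.mono hK0 k1) hgood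
  obtain ⟨q, hq⟩ : ∃ q, q = (Q : ℝ) ^ (-(5 / 2) : ℝ) := ⟨_, rfl⟩
  have hq0 : 0 ≤ q := by rw [hq]; positivity
  obtain ⟨eb, heb⟩ : ∃ eb : (Σ r : ℕ, DirichletCharacter ℂ r) → ℝ, eb = fun p =>
    (if p = p0 then ∫ t in (-(Q : ℝ) ^ 7)..((Q : ℝ) ^ 7), ‖FL X p0 t - F0 X t‖
      else ∫ t in (-(Q : ℝ) ^ 7)..((Q : ℝ) ^ 7), ‖FL X p t‖) + q := ⟨_, rfl⟩
  have heb0 : ∀ p, 0 ≤ eb p := by
    intro p
    rw [heb]
    simp only
    split_ifs
    · exact add_nonneg (cl1_int_nonneg Q _) hq0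
    · exact add_nonneg (cl1_int_nonneg Q _) hq0
  have hsum : ∑ p ∈ PC Q, eb p ≤ e0 := by
    have h1 : ∑ p ∈ PC Q, eb p =
        ∑ p ∈ PC Q, (if p = p0 then ∫ t in (-(Q : ℝ) ^ 7)..((Q : ℝ) ^ 7), ‖FL X p0 t - F0 X t‖
          else ∫ t in (-(Q : ℝ) ^ 7)..((Q : ℝ) ^ 7), ‖FL X p t‖) + (PC Q).card * q := by
      rw [heb, Finset.sum_add_distrib, Finset.sum_const, nsmul_eq_mul]
    rw [h1, ph_split (PC Q) p0 (p0_mem hQ1) (fun p => p ≠ p0) (fun _ => Iff.rfl), if_pos rfl]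
    have h2 : ∑ p ∈ (PC Q).filter (fun p => p ≠ p0),
        (if p = p0 then ∫ t in (-(Q : ℝ) ^ 7)..((Q : ℝ) ^ 7), ‖FL X p0 t - F0 X t‖
          else ∫ t in (-(Q : ℝ) ^ 7)..((Q : ℝ) ^ 7), ‖FL X p t‖) =
        ∑ p ∈ (PC Q).filter (fun p => p ≠ p0), ∫ t in (-(Q : ℝ) ^ 7)..((Q : ℝ) ^ 7), ‖FL X p t‖ :=
      Finset.sum_congr rfl fun p hp => by rw [if_neg (mem_filter.1 hp).2]
    rw [h2]
    have h3 : ((PC Q).card : ℝ) * q ≤ 1 / Real.sqrt Q := by
      rw [← (cl1_Qpow hQ1).1, ← hq]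
      apply mul_le_mul_of_nonneg_right _ hq0
      exact_mod_cast card_PC_le Q
    have h4 : 1 / Real.sqrt Q ≤ e0 / 2 := by
      have h5 : 2 / e0 ≤ Real.sqrt Q := by
        apply Real.le_sqrt_of_sq_le
        rw [div_pow]
        norm_num
        linarith
      rw [div_le_iff₀ (by positivity)] at h5 ⊢
      · linarith
    linarith
  refine ⟨fun _ p => if p = p0 then 1 else 0, fun m p => Bc Q X p m - (if p = p0 then 1 else 0),
    fun p => if p = p0 then 1 else 0, eb, ?_, ?_, hsum, ?_⟩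
  · intro p hp
    beta_reduce
    refine ⟨?_, ?_, heb0 p, ?_⟩
    · split_ifs <;> norm_num
    · split_ifs <;> norm_num
    · have h1 := Finset.single_le_sum (f := eb) (fun p _ => heb0 p) hp
      linarith
  · rw [Finset.sum_ite_eq' (PC Q) p0 (fun _ => (1 : ℝ)), if_pos (p0_mem hQ1)]
    norm_num
  · intro m hm hm4
    have hG : ((G Q m : ℝ) : ℂ) = SG Q (fun p => if p = p0 then 1 else 0) m := by
      unfold SG
      beta_reduce
      rw [Finset.sum_eq_single p0]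
      · rw [cl1_p0_one, if_pos rfl, mul_one, mul_one]
        have : Gam Q p0.1 m = Gam Q 1 m := rfl
        rw [this, Gam_one]
      · intro p _ hp
        rw [if_neg hp, mul_zero]
      · intro h
        exact absurd (p0_mem hQ1) h
    refine ⟨hG, ?_, ?_⟩
    · rw [Complex.ofReal_sub, hLk Q X (hreg.mono hK0 k3) m hm hm4, hG]
      exact (cl1_SG_sub Q _ _ m).symm
    · intro p hp
      have hpos : 0 ≤ (Q : ℝ) ^ 3 / X := by positivity
      beta_reduce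
      refine ⟨?_, ?_, ?_, ?_⟩
      · split_ifs <;> simp
      · rw [heb]
        simp only
        split_ifs with h
        · rw [h, hq]
          exact hB0 Q X (hreg.mono hK0 k4) m hm hm4
        · rw [sub_zero, hq]
          exact hB Q X (hreg.mono hK0 k5) p (mem_PC.1 hp).1 m hm hm4
      · simp only [sub_self, norm_zero]
        exact hpos
      · have h1 := hLip Q X (hreg.mono hK0 k2) p m hm hm4
        have h2 : (Bc Q X p (m + 1) - (if p = p0 then 1 else 0)) - (Bc Q X p m - (if p = p0 then 1 else 0)) =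
            Bc Q X p (m + 1) - Bc Q X p m := by ring
        rw [h2]
        refine h1.trans ?_
        apply div_le_div_of_nonneg_left (by positivity) hX0
        linarith

/-- `m^(β-1)` varies slowly -/
theorem cl1_rpow {x β : ℝ} (hx : 1 ≤ x) (hβ : 0 ≤ β) (hβ1 : β ≤ 1) :
    |(x + 1) ^ (β - 1) - x ^ (β - 1)| ≤ 1 / x ∧ x ^ (β - 1) ≤ 1 ∧ 0 ≤ x ^ (β - 1) := by
  have hx0 : 0 < x := by linarith
  have h1 : x ^ (β - 1) ≤ 1 := Real.rpow_le_one_of_one_le_of_nonpos hx (by linarith)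
  have h0 : 0 ≤ x ^ (β - 1) := Real.rpow_nonneg hx0.le _
  refine ⟨?_, h1, h0⟩
  have h2 : (x + 1) ^ (β - 1) ≤ x ^ (β - 1) :=
    Real.rpow_le_rpow_of_nonpos hx0 (by linarith) (by linarith)
  rw [abs_of_nonpos (by linarith)]
  have h3 : x / (x + 1) ≤ (x / (x + 1)) ^ (1 - β) := by
    have h4 : 0 < x / (x + 1) := by positivity
    have h5 : x / (x + 1) ≤ 1 := by
      rw [div_le_one (by linarith)]
      linarith
    calc x / (x + 1) = (x / (x + 1)) ^ (1 : ℝ) := (Real.rpow_one _).symm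
      _ ≤ (x / (x + 1)) ^ (1 - β) := Real.rpow_le_rpow_of_exponent_ge h4 h5 (by linarith)
  have h4 : (x + 1) ^ (β - 1) = x ^ (β - 1) * (x / (x + 1)) ^ (1 - β) := by
    rw [Real.div_rpow hx0.le (by linarith), mul_div_assoc', ← Real.rpow_add hx0,
      show β - 1 + (1 - β) = 0 by ring, Real.rpow_zero, show β - 1 = -(1 - β) by ring,
      Real.rpow_neg (by linarith), one_div]
  rw [h4]
  have h5 : -(x ^ (β - 1) * (x / (x + 1)) ^ (1 - β) - x ^ (β - 1)) =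
      x ^ (β - 1) * (1 - (x / (x + 1)) ^ (1 - β)) := by ring
  rw [h5]
  have h6 : 1 - (x / (x + 1)) ^ (1 - β) ≤ 1 / x := by
    have h7 : 1 - x / (x + 1) = 1 / (x + 1) := by field_simp; ring
    have h8 : 1 / (x + 1) ≤ 1 / x := one_div_le_one_div_of_le hx0 (by linarith)
    linarith
  have h9 : 0 ≤ 1 - (x / (x + 1)) ^ (1 - β) := by
    have : (x / (x + 1)) ^ (1 - β) ≤ 1 := by
      apply Real.rpow_le_one (by positivity) _ (by linarith)
      rw [div_le_one (by linarith)]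
      linarith
    linarith
  calc x ^ (β - 1) * (1 - (x / (x + 1)) ^ (1 - β)) ≤ 1 * (1 - (x / (x + 1)) ^ (1 - β)) :=
        mul_le_mul_of_nonneg_right h1 h9
    _ ≤ 1 / x := by linarith

/-- **Exceptional levels.** Proof. As `lev_good` with `μ m p0 = 1`, `μ m (r, ψ) = -m^(β-1)`
(for `m ≥ 1`; `(r, ψ) ≠ p0`), `0` else; `mb = 1, 1, 0`. `Mod Q r ε β m = G Q m - ε m^(β-1) Gam Q r m`,
`ε = (ψ m).re`, `conj ψ(m) = ψ(m) = ε` (real character, `XDA_real`). `e m (r, ψ) = Bc + m^(β-1)`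
(`B1_leP`), `|m^(β-1) - (m+1)^(β-1)| ≤ 1/m ≤ 1/X`. The total is at most `(e0/2) (1-β) log Q +
Q^(-1/2) + Q^(-3/2)` (`L1_exceptional` with `e0/2`), and `1 - β ≥ c/r² ≥ c Q^(-1/50)`
(`zero_elementary`, `r^100 ≤ Q`), so the last two terms are at most `(e0/2) (1-β) log Q`. `β ≥ 1/2`
from `(1-β) log Q ≤ c1 < 1`. -/
theorem lev_exc : ∃ c1 : ℝ, 0 < c1 ∧ c1 < 1 ∧ ∀ e0 : ℝ, 0 < e0 → e0 ≤ 1 → ∃ K : ℝ, 1 ≤ K ∧
    ∀ Q X : ℕ, RegP K Q X → ∀ (r : ℕ) [NeZero r] (ψ : DirichletCharacter ℂ r), r ^ 100 ≤ Q →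
    ψ.IsPrimitive → ψ ≠ 1 → ψ ^ 2 = 1 → ∀ β : ℝ, β < 1 → ψ.LFunction (β : ℂ) = 0 →
    (1 - β) * Real.log Q ≤ c1 →
    Lev Q X (e0 * ((1 - β) * Real.log Q))
      (fun m => Mod Q r (ψ (m : ZMod r)).re β m) := by
  classical
  obtain ⟨c1, hc1, hc11, hL1⟩ := L1_exceptional
  obtain ⟨K2, hK2, hLip⟩ := Bc_lip
  obtain ⟨K3, hK3, hLk⟩ := Lk_SG
  obtain ⟨K4, hK4, hB0⟩ := cl1_B0
  obtain ⟨K5, hK5, hB⟩ := B_leP
  obtain ⟨K6, hK6, hB1⟩ := B1_leP
  obtain ⟨ce, hce, hel⟩ := zero_elementary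
  refine ⟨c1, hc1, hc11, fun e0 he he1 => ?_⟩
  obtain ⟨K1, hK1, hL1⟩ := hL1 (e0 / 2) (by positivity)
  refine ⟨max (max (max K1 K2) (max K3 K4)) (max (max K5 K6) (max 3 ((4 / (e0 * ce)) ^ 4))),
    hK1.trans ((le_max_left _ _).trans ((le_max_left _ _).trans (le_max_left _ _))), ?_⟩
  intro Q X hreg r _ ψ hr100 hprim hψ1 hψ2 β hβ hLβ hsmall
  obtain ⟨K, hKd⟩ : ∃ K, K = max (max (max K1 K2) (max K3 K4)) (max (max K5 K6)
    (max 3 ((4 / (e0 * ce)) ^ 4))) := ⟨_, rfl⟩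
  rw [← hKd] at hreg
  have k1 : K1 ≤ K := by rw [hKd]; exact (le_max_left _ _).trans ((le_max_left _ _).trans (le_max_left _ _))
  have k2 : K2 ≤ K := by rw [hKd]; exact (le_max_right _ _).trans ((le_max_left _ _).trans (le_max_left _ _))
  have k3 : K3 ≤ K := by rw [hKd]; exact (le_max_left _ _).trans ((le_max_right _ _).trans (le_max_left _ _))
  have k4 : K4 ≤ K := by rw [hKd]; exact (le_max_right _ _).trans ((le_max_right _ _).trans (le_max_left _ _))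
  have k5 : K5 ≤ K := by rw [hKd]; exact (le_max_left _ _).trans ((le_max_left _ _).trans (le_max_right _ _))
  have k6 : K6 ≤ K := by rw [hKd]; exact (le_max_right _ _).trans ((le_max_left _ _).trans (le_max_right _ _))
  have k7 : 3 ≤ K := by rw [hKd]; exact (le_max_left _ _).trans ((le_max_right _ _).trans (le_max_right _ _))
  have k8 : (4 / (e0 * ce)) ^ 4 ≤ K := by
    rw [hKd]; exact (le_max_right _ _).trans ((le_max_right _ _).trans (le_max_right _ _))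
  clear hKd
  have hKp : 1 ≤ K := hK1.trans k1
  have hK0 : 0 ≤ K := by linarith
  have hQ1 : 1 ≤ Q := hreg.Q_pos hKp
  have hQ1' : (1 : ℝ) ≤ Q := by exact_mod_cast hQ1
  have hQK := hreg.Q_ge hKp
  have hlQ := hreg.logQ_ge hKp
  have hX1 : 1 ≤ X := hreg.X_pos (by linarith)
  have hX0 : (0 : ℝ) < X := by exact_mod_cast hX1
  have hr0 : 1 ≤ r := Nat.pos_of_ne_zero (NeZero.ne r)
  have hr : r ≤ Q := (Nat.le_self_pow (by norm_num) r).trans hr100
  have hη : 0 < 1 - β := by linarith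
  have hβ12 : 1 / 2 ≤ β := by
    by_contra hcon
    have h1 : (1 / 2 : ℝ) ≤ 1 - β := by linarith [not_le.1 hcon]
    have h2 : (1 / 2 : ℝ) * 3 ≤ (1 - β) * Real.log Q :=
      mul_le_mul h1 (by linarith) (by norm_num) hη.le
    linarith
  have hL := hL1 Q X (hreg.mono hK0 k1) r ψ hr hprim hψ1 hψ2 β hβ hLβ hsmall
  have hmemψ : (⟨r, ψ⟩ : Σ r : ℕ, DirichletCharacter ℂ r) ∈ PC Q :=
    mem_PC.2 ⟨hr0, hr, hprim⟩
  have hneψ : (⟨r, ψ⟩ : Σ r : ℕ, DirichletCharacter ℂ r) ≠ p0 := by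
    intro h
    unfold p0 at h
    obtain ⟨h1, h2⟩ := Sigma.mk.inj_iff.1 h
    subst h1
    exact hψ1 (eq_of_heq h2)
  obtain ⟨x, hxd⟩ : ∃ x, x = (1 - β) * Real.log Q := ⟨_, rfl⟩
  have hx0 : 0 < x := by rw [hxd]; exact mul_pos hη (by linarith)
  rw [← hxd] at hsmall hL ⊢
  obtain ⟨q, hq⟩ : ∃ q, q = (Q : ℝ) ^ (-(5 / 2) : ℝ) := ⟨_, rfl⟩
  have hq0 : 0 ≤ q := by rw [hq]; positivity
  obtain ⟨q', hq'⟩ : ∃ q', q' = (Q : ℝ) ^ (-(3 / 2) : ℝ) := ⟨_, rfl⟩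
  have hq'0 : 0 ≤ q' := by rw [hq']; positivity
  obtain ⟨I, hI⟩ : ∃ I : (Σ r : ℕ, DirichletCharacter ℂ r) → ℝ, I = fun p =>
    (if p = p0 then ∫ t in (-(Q : ℝ) ^ 7)..((Q : ℝ) ^ 7), ‖FL X p0 t - F0 X t‖
      else if p = ⟨r, ψ⟩ then ∫ t in (-(Q : ℝ) ^ 7)..((Q : ℝ) ^ 7), ‖FL X ⟨r, ψ⟩ t + Fb X β t‖
      else ∫ t in (-(Q : ℝ) ^ 7)..((Q : ℝ) ^ 7), ‖FL X p t‖) := ⟨_, rfl⟩
  have hI0 : ∀ p, 0 ≤ I p := by
    intro p
    rw [hI]
    simp only
    split_ifs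
    · exact cl1_int_nonneg Q _
    · exact cl1_int_nonneg Q _
    · exact cl1_int_nonneg Q _
  obtain ⟨eb, heb⟩ : ∃ eb : (Σ r : ℕ, DirichletCharacter ℂ r) → ℝ, eb = fun p =>
    I p + q + (if p = ⟨r, ψ⟩ then q' else 0) := ⟨_, rfl⟩
  have heb0 : ∀ p, 0 ≤ eb p := by
    intro p
    rw [heb]
    have := hI0 p
    simp only
    split_ifs <;> linarith
  have hIsum : ∑ p ∈ PC Q, I p ≤ e0 / 2 * x := by
    rw [ph_split (PC Q) p0 (p0_mem hQ1) (fun p => p ≠ p0) (fun _ => Iff.rfl),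
      ph_split ((PC Q).filter (fun p => p ≠ p0)) ⟨r, ψ⟩ (mem_filter.2 ⟨hmemψ, hneψ⟩)
        (fun p => p ≠ ⟨r, ψ⟩) (fun _ => Iff.rfl)]
    have hfilt : ((PC Q).filter (fun p => p ≠ p0)).filter (fun p => p ≠ ⟨r, ψ⟩) =
        (PC Q).filter (fun p => p ≠ p0 ∧ p ≠ ⟨r, ψ⟩) := by
      ext p
      simp only [mem_filter]
      tauto
    rw [hfilt]
    have e1 : I p0 = ∫ t in (-(Q : ℝ) ^ 7)..((Q : ℝ) ^ 7), ‖FL X p0 t - F0 X t‖ := by
      rw [hI]
      beta_reduce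
      rw [if_pos rfl]
    have e2 : I ⟨r, ψ⟩ = ∫ t in (-(Q : ℝ) ^ 7)..((Q : ℝ) ^ 7), ‖FL X ⟨r, ψ⟩ t + Fb X β t‖ := by
      rw [hI]
      beta_reduce
      rw [if_neg hneψ, if_pos rfl]
    have e3 : ∑ p ∈ (PC Q).filter (fun p => p ≠ p0 ∧ p ≠ ⟨r, ψ⟩), I p =
        ∑ p ∈ (PC Q).filter (fun p => p ≠ p0 ∧ p ≠ ⟨r, ψ⟩),
          ∫ t in (-(Q : ℝ) ^ 7)..((Q : ℝ) ^ 7), ‖FL X p t‖ := by
      refine Finset.sum_congr rfl fun p hp => ?_
      rw [hI]
      simp only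
      rw [if_neg (mem_filter.1 hp).2.1, if_neg (mem_filter.1 hp).2.2]
    rw [e1, e2, e3]
    linarith
  have hsum : ∑ p ∈ PC Q, eb p ≤ e0 * x := by
    have h1 : ∑ p ∈ PC Q, eb p = ∑ p ∈ PC Q, I p + (PC Q).card * q + q' := by
      rw [heb, Finset.sum_add_distrib, Finset.sum_add_distrib, Finset.sum_const, nsmul_eq_mul,
        Finset.sum_ite_eq' (PC Q) _ (fun _ => q'), if_pos hmemψ]
    have h3 : ((PC Q).card : ℝ) * q ≤ 1 / Real.sqrt Q := by
      rw [← (cl1_Qpow hQ1).1, ← hq]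
      apply mul_le_mul_of_nonneg_right _ hq0
      exact_mod_cast card_PC_le Q
    have h4 : q' ≤ 1 / Real.sqrt Q := by rw [hq']; exact (cl1_Qpow hQ1).2
    have h5 : 2 / Real.sqrt Q ≤ e0 / 2 * x := by
      have hr1 : (1 : ℝ) ≤ r := by exact_mod_cast hr0
      have h6 := hel r ψ hψ1 hψ2 β hβ hLβ
      have h7 : ce / (r : ℝ) ^ 2 ≤ x := by
        rw [hxd]
        have h8 : 0 ≤ ce / (r : ℝ) ^ 2 := by positivity
        calc ce / (r : ℝ) ^ 2 = ce / (r : ℝ) ^ 2 * 1 := (mul_one _).symm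
          _ ≤ (1 - β) * Real.log Q := mul_le_mul h6 (by linarith) zero_le_one hη.le
      refine le_trans ?_ (mul_le_mul_of_nonneg_left h7 (by positivity))
      have hs0 : 0 < Real.sqrt Q := Real.sqrt_pos.2 (by linarith)
      have h9 : 4 / (e0 * ce) * (r : ℝ) ^ 2 ≤ Real.sqrt Q := by
        apply Real.le_sqrt_of_sq_le
        have h10 : (r : ℝ) ^ 8 ≤ Q := by
          have : r ^ 8 ≤ Q := (Nat.pow_le_pow_right hr0 (by norm_num)).trans hr100
          exact_mod_cast this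
        have h11 : ((4 / (e0 * ce)) ^ 2 * (r : ℝ) ^ 4) ^ 2 ≤ (Q : ℝ) ^ 2 := by
          calc ((4 / (e0 * ce)) ^ 2 * (r : ℝ) ^ 4) ^ 2 = (4 / (e0 * ce)) ^ 4 * (r : ℝ) ^ 8 := by ring
            _ ≤ (Q : ℝ) * (Q : ℝ) := mul_le_mul (k8.trans hQK) h10 (by positivity) (by positivity)
            _ = _ := by ring
        have h12 := abs_le_of_sq_le_sq' h11 (by positivity)
        calc (4 / (e0 * ce) * (r : ℝ) ^ 2) ^ 2 = (4 / (e0 * ce)) ^ 2 * (r : ℝ) ^ 4 := by ring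
          _ ≤ (Q : ℝ) := h12.2
      have h13 : e0 / 2 * (ce / (r : ℝ) ^ 2) = 2 / (4 / (e0 * ce) * (r : ℝ) ^ 2) := by
        field_simp
        ring
      rw [h13]
      exact div_le_div_of_nonneg_left (by norm_num) (by positivity) h9
    have h6 : 2 / Real.sqrt Q = 1 / Real.sqrt Q + 1 / Real.sqrt Q := by ring
    rw [h1]
    linarith
  obtain ⟨μ, hμ⟩ : ∃ μ : ℤ → (Σ r : ℕ, DirichletCharacter ℂ r) → ℂ, μ = fun (m : ℤ) p =>
    if p = p0 then 1 else if p = ⟨r, ψ⟩ then -(((m : ℝ) ^ (β - 1) : ℝ) : ℂ) else 0 := ⟨_, rfl⟩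
  have hμ0 : ∀ m, μ m p0 = 1 := fun m => by rw [hμ]; beta_reduce; rw [if_pos rfl]
  have hμ1 : ∀ m, μ m ⟨r, ψ⟩ = -(((m : ℝ) ^ (β - 1) : ℝ) : ℂ) := fun m => by
    rw [hμ]; beta_reduce; rw [if_neg hneψ, if_pos rfl]
  have hμ2 : ∀ m p, p ≠ p0 → p ≠ ⟨r, ψ⟩ → μ m p = 0 := fun m p h h' => by
    rw [hμ]; beta_reduce; rw [if_neg h, if_neg h']
  refine ⟨μ, fun m p => Bc Q X p m - μ m p,
    fun p => if p = p0 then 1 else if p = ⟨r, ψ⟩ then 1 else 0, eb, ?_, ?_, hsum, ?_⟩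
  · intro p hp
    beta_reduce
    refine ⟨?_, ?_, heb0 p, ?_⟩
    · split_ifs <;> norm_num
    · split_ifs <;> norm_num
    · have h1 := Finset.single_le_sum (f := eb) (fun p _ => heb0 p) hp
      have h2 : e0 * x ≤ 1 * 1 := mul_le_mul he1 (by linarith) hx0.le zero_le_one
      linarith
  · rw [ph_split (PC Q) p0 (p0_mem hQ1) (fun p => p ≠ p0) (fun _ => Iff.rfl),
      ph_split ((PC Q).filter (fun p => p ≠ p0)) ⟨r, ψ⟩ (mem_filter.2 ⟨hmemψ, hneψ⟩)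
        (fun p => p ≠ ⟨r, ψ⟩) (fun _ => Iff.rfl), if_pos rfl, if_neg hneψ, if_pos rfl,
      Finset.sum_eq_zero]
    · norm_num
    · intro p hp
      rw [mem_filter, mem_filter] at hp
      rw [if_neg hp.1.2, if_neg hp.2]
  · intro m hm hm4
    have hm1 : (1 : ℝ) ≤ (m : ℝ) := by
      have : (1 : ℤ) ≤ m := by omega
      exact_mod_cast this
    have hmX : (X : ℝ) ≤ (m : ℝ) := by exact_mod_cast hm
    have hrp := cl1_rpow hm1 (by linarith : 0 ≤ β) hβ.le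
    have hreal := XDA_real ψ hψ2 (m : ZMod r)
    have hre : ((ψ (m : ZMod r)).re : ℂ) = ψ (m : ZMod r) := Complex.conj_eq_iff_re.1 hreal
    have hG : ((Mod Q r (ψ (m : ZMod r)).re β m : ℝ) : ℂ) = SG Q (μ m) m := by
      have hsplit : SG Q (μ m) m = (Gam Q p0.1 m : ℂ) * (starRingEnd ℂ) (p0.2 (m : ZMod p0.1)) * μ m p0 +
          (Gam Q r m : ℂ) * (starRingEnd ℂ) (ψ (m : ZMod r)) * μ m ⟨r, ψ⟩ := by
        unfold SG
        rw [← Finset.sum_subset (s₁ := {p0, ⟨r, ψ⟩})]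
        · rw [Finset.sum_pair (fun h => hneψ h.symm)]
        · intro p hp
          rw [Finset.mem_insert, Finset.mem_singleton] at hp
          rcases hp with hp | hp
          · rw [hp]; exact p0_mem hQ1
          · rw [hp]; exact hmemψ
        · intro p _ hp
          rw [Finset.mem_insert, Finset.mem_singleton, not_or] at hp
          rw [hμ2 m p hp.1 hp.2, mul_zero]
      rw [hsplit, hμ0, hμ1, cl1_p0_one, hreal, mul_one, mul_one]
      have : Gam Q p0.1 m = Gam Q 1 m := rfl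
      rw [this, Gam_one]
      unfold Pool.Agent.Lib.H68T.Mod
      push_cast
      rw [hre]
      ring
    refine ⟨hG, ?_, ?_⟩
    · rw [Complex.ofReal_sub, hLk Q X (hreg.mono hK0 k3) m hm hm4, hG]
      exact (cl1_SG_sub Q _ _ m).symm
    · intro p hp
      have hpos : 0 ≤ (Q : ℝ) ^ 3 / X := by positivity
      have hQ3 : (2 : ℝ) ≤ (Q : ℝ) ^ 3 := by
        have h1 : (3 : ℝ) ^ 3 ≤ (Q : ℝ) ^ 3 := pow_le_pow_left₀ (by norm_num) (by linarith) 3
        linarith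
      have hdμ : ‖μ (m + 1) p - μ m p‖ ≤ 1 / X := by
        by_cases h : p = p0
        · rw [h, hμ0, hμ0, sub_self, norm_zero]
          positivity
        · by_cases h' : p = ⟨r, ψ⟩
          · rw [h', hμ1, hμ1]
            have e1 : -((((m + 1 : ℤ) : ℝ) ^ (β - 1) : ℝ) : ℂ) - -(((m : ℝ) ^ (β - 1) : ℝ) : ℂ) =
                -((((m : ℝ) + 1) ^ (β - 1) - (m : ℝ) ^ (β - 1) : ℝ) : ℂ) := by
              push_cast
              ring
            rw [e1, norm_neg, Complex.norm_real, Real.norm_eq_abs]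
            exact hrp.1.trans (one_div_le_one_div_of_le hX0 hmX)
          · rw [hμ2 _ p h h', hμ2 _ p h h', sub_self, norm_zero]
            positivity
      beta_reduce
      refine ⟨?_, ?_, ?_, ?_⟩
      · by_cases h : p = p0
        · rw [h, hμ0, if_pos rfl, norm_one]
        · by_cases h' : p = ⟨r, ψ⟩
          · rw [h', hμ1, if_neg hneψ, if_pos rfl, norm_neg, Complex.norm_real, Real.norm_eq_abs,
              abs_of_nonneg hrp.2.2]
            exact hrp.2.1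
          · rw [hμ2 _ p h h', if_neg h, if_neg h', norm_zero]
      · rw [heb, hI]
        simp only
        by_cases h : p = p0
        · have h'' : p0 ≠ (⟨r, ψ⟩ : Σ r : ℕ, DirichletCharacter ℂ r) := fun h3 => hneψ h3.symm
          rw [h, hμ0, if_pos rfl, if_neg h'', add_zero, hq]
          exact hB0 Q X (hreg.mono hK0 k4) m hm hm4
        · by_cases h' : p = ⟨r, ψ⟩
          · rw [h', hμ1, if_neg hneψ, if_pos rfl, if_pos rfl, sub_neg_eq_add]
            have h1 := hB1 Q X (hreg.mono hK0 k6) ⟨r, ψ⟩ hr0 β hβ12 hβ.le m hm hm4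
            rw [← hq'] at h1
            refine le_trans h1 ?_
            linarith
          · rw [hμ2 _ p h h', if_neg h, if_neg h', if_neg h', sub_zero, add_zero, hq]
            exact hB Q X (hreg.mono hK0 k5) p (mem_PC.1 hp).1 m hm hm4
      · refine hdμ.trans ?_
        apply div_le_div_of_nonneg_right _ hX0.le
        linarith
      · have h1 := hLip Q X (hreg.mono hK0 k2) p m hm hm4
        have h2 : (Bc Q X p (m + 1) - μ (m + 1) p) - (Bc Q X p m - μ m p) =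
            (Bc Q X p (m + 1) - Bc Q X p m) - (μ (m + 1) p - μ m p) := by ring
        rw [h2]
        refine (norm_sub_le _ _).trans ((add_le_add h1 hdμ).trans ?_)
        have h3 : (Q : ℝ) ^ 3 / (2 * X) + 1 / X = ((Q : ℝ) ^ 3 / 2 + 1) / X := by
          field_simp
        rw [h3]
        apply div_le_div_of_nonneg_right _ hX0.le
        linarith

end Pool.Agent.Lib.H18Q
end

-- from Lib.H59P.Defs
section

/-!
# Project H59P: power savings for prime k-tuples (MP_f686a1_nt), definitions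

See `PROOF.md` in this folder. The arithmetic input is `LevE` (project H18Q made quantitative): on
`[X, 4X]` the projection `Lk` of `lp` at level `Q` is a sum of components with slowly varying
coefficients, `1` at the trivial character, `-th m` at one real character `px`, and small ones.
-/

open Finset

namespace Pool.Agent.Lib.H59P

open Pool.Agent.Lib.H68T Pool.Agent.Lib.H18Q

noncomputable section

/-- Characters with their modulus. -/
abbrev Ch := Σ r : ℕ, DirichletCharacter ℂ r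

open Classical in
/-- The coefficients of the model: `1` at the trivial character, `-th m` at `px`, `0` else.
(For `px = p0`: `1` at `p0`, `0` else.) -/
def MX (px : Ch) (th : ℤ → ℝ) (m : ℤ) (p : Ch) : ℂ :=
  if p = p0 then 1 else if p = px then -((th m : ℝ) : ℂ) else 0

/-- The projection `Lk` at level `Q` on `[X, 4X]` is the model with coefficients `M m p` up to
coefficients `e m p` of total size `E`; the latter vary slowly. -/
def LevE (Q X : ℕ) (E : ℝ) (M : ℤ → Ch → ℂ) : Prop :=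
  ∃ (e : ℤ → Ch → ℂ) (eb : Ch → ℝ), (∀ p ∈ PC Q, 0 ≤ eb p) ∧ ∑ p ∈ PC Q, eb p ≤ E ∧
    ∀ m : ℤ, (X : ℤ) ≤ m → m ≤ 4 * X →
      ((Lk Q (X / Q ^ 2) m : ℝ) : ℂ) = SG Q (fun p => M m p + e m p) m ∧
      ∀ p ∈ PC Q, ‖e m p‖ ≤ eb p ∧ ‖e (m + 1) p - e m p‖ ≤ (Q : ℝ) ^ 3 / X

/-- Everything the additive part needs about the level `Q` and the length `X`: the level structure
with the model `MX px th`, `px` a real character of small conductor, `0 ≤ th ≤ 1 - η` slowly varying,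
and the coefficients of the error at most `η E0` in total. -/
structure Mdl (Q X : ℕ) (η E0 : ℝ) (px : Ch) (th : ℤ → ℝ) : Prop where
  eta_pos : 0 < η
  eta_le : η ≤ 1
  mem : px ∈ PC Q
  real : px.2 ^ 2 = 1
  cond : px.1 ^ 100 ≤ Q
  triv : px = p0 → ∀ m, th m = 0
  nonneg : ∀ m, (X : ℤ) ≤ m → m ≤ 4 * X → 0 ≤ th m
  le : ∀ m, (X : ℤ) ≤ m → m ≤ 4 * X → th m ≤ 1 - η
  slow : ∀ m, (X : ℤ) ≤ m → m + 1 ≤ 4 * X → |th (m + 1) - th m| ≤ (Q : ℝ) ^ 3 / X
  lev : LevE Q X (η * E0) (MX px th)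

/-- The local factor of the expansion of the von Mangoldt function at the prime `l`: `-1` if `l` divides
`m`, else `1/(l-1)`; so `1 + gl l m = l/(l-1)` if `l` does not divide `m`, and `0` else. -/
def gl (l : ℕ) (m : ℤ) : ℝ := if (l : ℤ) ∣ m then -1 else 1 / ((l : ℝ) - 1)

/-- `∏_{l ∈ P} (1 + gl l m)` -/
def uu (P : Finset ℕ) (m : ℤ) : ℝ := ∏ l ∈ P, (1 + gl l m)

/-- The primes up to `z`. -/
def pr (z : ℕ) : Finset ℕ := (Icc 1 z).filter Nat.Prime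

/-- The local factor of the singular series at the prime `l`, minus `1`. -/
def tp {k : ℕ} (l : ℕ) (h : Fin k → ℕ) : ℝ :=
  (∑ n ∈ range l, ∏ i, (1 + gl l ((n : ℤ) + h i))) / l - 1


/-- `∏_i (1 + gl l (n + h_i)) - 1` -/
def Wl {k : ℕ} (l : ℕ) (h : Fin k → ℕ) (n : ℤ) : ℝ := ∏ i, (1 + gl l (n + h i)) - 1

/-- `∏_{l ∣ d} Wl l h n` (`d` squarefree) -/
def Wd {k : ℕ} (d : ℕ) (h : Fin k → ℕ) (n : ℤ) : ℝ := ∏ l ∈ d.primeFactors, Wl l h n

/-- `∏_{l ∣ d} tp l h` (`d` squarefree) -/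
def td {k : ℕ} (d : ℕ) (h : Fin k → ℕ) : ℝ := ∏ l ∈ d.primeFactors, tp l h

/-- The squarefree `d ≤ D` coprime to `R`. -/
def SF (D R : ℕ) : Finset ℕ :=
  open Classical in (Icc 1 D).filter (fun d => Squarefree d ∧ Nat.Coprime d R)






end

end Pool.Agent.Lib.H59P
end
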