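import Pool.Agent.Lib.H1M.RV2.M019
import Pool.Agent.Lib.H1M.RV2.M035
import Pool.Agent.Lib.H1M.RV2.M036
import Pool.Agent.Lib.H1M.RV2.M039
import Pool.Agent.Lib.H1M.RV2.M045
import Pool.Agent.Lib.H1M.RV2.M055

/-! Merged copies (to shorten the build) of Lib.H18Q.MB, Lib.H18Q.MC. -/

-- from Lib.H18Q.MB
section

/-!
# Project H18Q, chunk MB: the model along incompatible classes
-/

open Finset

namespace Pool.Agent.Lib.H18Q

open Pool.Agent.Lib.H68T Pool.Agent.Lib.H18E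


theorem mb_sum_zero (W : ℕ) (x : ℤ) (hW : 0 < W) (hx : ¬ IsCoprime x (W : ℤ)) :
    ∑ w ∈ W.divisors, GAM_F 1 x w = 0 := by
  have h1 : (ArithmeticFunction.zeta : ArithmeticFunction ℝ) * GAM_F 1 x = GAM_g 1 x := by
    unfold GAM_F
    rw [← mul_assoc, ArithmeticFunction.coe_zeta_mul_coe_moebius, one_mul]
  have h2 : ((ArithmeticFunction.zeta : ArithmeticFunction ℝ) * GAM_F 1 x) W = GAM_g 1 x W := by
    rw [h1]
  rw [ArithmeticFunction.coe_zeta_mul_apply, GAM_g_apply _ _ _ hW.ne',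
    if_neg (fun h => hx h.symm)] at h2
  exact h2

theorem mb_abs (x : ℤ) {w : ℕ} (hw : w ≠ 0) : |GAM_F 1 x w| ≤ 1 := by
  refine (GAM_F_abs 1 x w hw).trans ?_
  split_ifs with h
  · have h1 : 0 < w / Nat.gcd w x.natAbs :=
      Nat.div_pos (Nat.gcd_le_left _ (by omega)) (Nat.gcd_pos_of_pos_left _ (by omega))
    have h2 : (1 : ℝ) ≤ (Nat.totient (w / Nat.gcd w x.natAbs) : ℝ) := by
      exact_mod_cast Nat.totient_pos.mpr h1
    rw [div_le_one (by linarith)]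
    exact h2
  · norm_num

theorem mb_per (x : ℤ) {w W : ℕ} (hw : w ≠ 0) (hwW : w ∣ W) (c : ℕ) :
    GAM_F 1 (x + W * (c : ℕ)) w = GAM_F 1 x w := by
  refine XG1_eq _ _ (GAM_F_mult 1 _) (GAM_F_mult 1 x) hw fun p hp k hk => ?_
  have hpp := Nat.prime_of_mem_primeFactors hp
  have hpW : (p : ℤ) ∣ (W : ℤ) * (c : ℕ) :=
    Dvd.dvd.mul_right (Int.natCast_dvd_natCast.2 ((Nat.dvd_of_mem_primeFactors hp).trans hwW)) _
  rcases Nat.lt_or_ge 1 k with hk1 | hk1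
  · obtain ⟨j, hj⟩ := Nat.exists_eq_add_of_le (show 2 ≤ k by omega)
    rw [hj, add_comm 2 j, GAM_F_prime_pow _ _ _ _ hpp, GAM_F_prime_pow _ _ _ _ hpp]
  · have hk' : k = 1 := by omega
    rw [hk', pow_one, GAM_F_prime _ _ _ hpp, GAM_F_prime _ _ _ hpp]
    have h3 : (p : ℤ) ∣ x + W * (c : ℕ) ↔ (p : ℤ) ∣ x := (dvd_add_left hpW)
    simp only [h3]

/-- In a class modulo `W` not coprime to `W` the model `G` has only moduli `q > Q/W`:
`G Q (x + W c) = ∑_{q ≤ Q, (q,W) = 1} μ(q)/φ(q) c_q(x + W c) S(q)`, `S(q) = ∑_{w ∣ W, w q ≤ Q} μ(w)/φ(w)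
c_w(x)` (`w` squarefree; for squarefree `q0 ≤ Q` write `q0 = w q` with `w = gcd(q0, W)`... the part of
`q0` composed of primes of `W`; `c_w(x + Wc) = c_w(x)`); the full sum over squarefree `w ∣ W` is
`∏_{l ∣ W} (1 - c_l(x)/(l-1)) = 0` if some prime `l ∣ W` divides `x` (`c_l(x) = l - 1`), so `S(q) = 0` for
`q W ≤ Q`; and `|S(q)| ≤ ∑_{w ∣ W} 1 ≤ W` (`|c_w(x)| ≤ φ(w)`). Compare `ml_MM_eq` in `H18E/ML` (the coprime
case). -/
theorem MB_expand (Q W : ℕ) (x : ℤ) (hW : 0 < W) (hx : ¬ IsCoprime x (W : ℤ)) :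
    ∃ S : ℕ → ℝ, (∀ q, |S q| ≤ W) ∧ (∀ q, q * W ≤ Q → S q = 0) ∧ ∀ c : ℕ,
      G Q (x + W * (c : ℕ)) = ∑ q ∈ QW Q W, (ArithmeticFunction.moebius q : ℝ) /
        (Nat.totient q : ℝ) * cq q (x + W * (c : ℕ)) * S q := by
  refine ⟨fun q => ∑ w ∈ W.divisors.filter (fun w => w * q ≤ Q), GAM_F 1 x w, ?_, ?_, ?_⟩
  · intro q
    refine (abs_sum_le_sum_abs _ _).trans ?_
    calc ∑ w ∈ W.divisors.filter (fun w => w * q ≤ Q), |GAM_F 1 x w|
        ≤ ∑ _w ∈ W.divisors.filter (fun w => w * q ≤ Q), (1 : ℝ) :=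
          sum_le_sum fun w hw => mb_abs x (Nat.pos_of_mem_divisors (mem_filter.1 hw).1).ne'
      _ = ((W.divisors.filter (fun w => w * q ≤ Q)).card : ℝ) := by simp
      _ ≤ (W : ℝ) := by
          exact_mod_cast (card_filter_le _ _).trans (Nat.card_divisors_le_self W)
  · intro q hq
    simp only
    rw [filter_true_of_mem, mb_sum_zero W x hW hx]
    intro w hw
    have h1 : w ≤ W := Nat.divisor_le hw
    calc w * q ≤ W * q := Nat.mul_le_mul_right _ h1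
      _ = q * W := mul_comm _ _
      _ ≤ Q := hq
  · intro c
    have h1 : G Q (x + W * (c : ℕ)) = ∑ q ∈ Icc 1 Q, GAM_F 1 (x + W * (c : ℕ)) q := by
      unfold G
      exact Finset.sum_congr rfl fun q _ => (XG1_F1 _ q).symm
    rw [h1, XG1_split _ (GAM_F_mult 1 _) (fun n hn => XG1_F_nsq 1 _ hn) Q W hW]
    refine Finset.sum_congr rfl fun q _ => ?_
    rw [XG1_F1]
    congr 1
    refine Finset.sum_congr rfl fun w hw => ?_
    rw [mem_filter] at hw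
    exact mb_per x (Nat.pos_of_mem_divisors hw.1).ne' (Nat.mem_divisors.1 hw.1).1 c


theorem mb_rep (Q N r : ℕ) (z : ℤ) (β ε : ℝ) (hr : 0 < r) (hN : 1 ≤ N)
    (hz : 1 ≤ z ∨ z + r * N ≤ 0) (hβ1 : β ≤ 1) (hε : |ε| ≤ 1)
    (hε0 : ¬ IsCoprime z (r : ℤ) → ε = 0) :
    ∃ (U V : ℕ → ℕ → ℝ) (η : ℝ), |η| ≤ 1 ∧ (∀ q c, 0 ≤ U q c) ∧ (∀ q c, U q c ≤ r) ∧
      (∀ q c, 0 ≤ V q c) ∧ (∀ q c, V q c ≤ r) ∧
      (∀ q, Antitone (U q) ∨ Monotone (U q)) ∧ (∀ q, Antitone (V q) ∨ Monotone (V q)) ∧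
      (∀ c < N, MM Q r ε β (z + r * (c : ℕ)) = ml_S Q r z U c - η * ml_S Q r z V c) ∧
      (¬ IsCoprime z (r : ℤ) → ∀ q c, q * r ≤ Q → U q c - η * V q c = 0) := by
  have hr1 : (1 : ℝ) ≤ r := by exact_mod_cast hr
  have hφ : (1 : ℝ) ≤ Nat.totient r := by exact_mod_cast Nat.totient_pos.mpr hr
  have hD : (r : ℝ) / Nat.totient r ≤ r := div_le_self (by linarith) hφ
  by_cases hzc : IsCoprime z (r : ℤ)
  · refine ⟨fun q _ => TW Q r q, fun q c => ml_w N r z β c * TWr Q r r q, ε, hε,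
      fun q _ => TW_nonneg Q r q, fun q _ => (TW_le Q r q hr).trans hD,
      fun q c => mul_nonneg (ml_w_nonneg N r z β c) (TWr_nonneg Q r r q), ?_,
      fun q => Or.inl (fun _ _ _ => le_refl _), ?_, ?_, fun h => absurd hzc h⟩
    · intro q c
      have h1 := ml_w_le hN hr hz hβ1 c
      have h3 := TWr_nonneg Q r r q
      have h4 := TWr_le Q r r q hr dvd_rfl
      calc ml_w N r z β c * TWr Q r r q ≤ 1 * TWr Q r r q := mul_le_mul_of_nonneg_right h1 h3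
        _ ≤ r := by rw [one_mul]; exact h4.trans hD
    · intro q
      rcases ml_w_mono hN hr hz hβ1 with h | h
      · exact Or.inl (fun c c' hc => mul_le_mul_of_nonneg_right (h hc) (TWr_nonneg Q r r q))
      · exact Or.inr (fun c c' hc => mul_le_mul_of_nonneg_right (h hc) (TWr_nonneg Q r r q))
    · intro c hc
      exact ml_MM_eq Q N r r z c β ε hr dvd_rfl hzc hc
  · obtain ⟨S, hS1, hS2, hS3⟩ := MB_expand Q r z hr hzc
    refine ⟨fun q _ => max (S q) 0, fun q _ => max (-S q) 0, 1, by norm_num,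
      fun q _ => le_max_right _ _, ?_, fun q _ => le_max_right _ _, ?_,
      fun q => Or.inl (fun _ _ _ => le_refl _), fun q => Or.inl (fun _ _ _ => le_refl _), ?_, ?_⟩
    · intro q _
      exact max_le ((le_abs_self _).trans (hS1 q)) (by linarith)
    · intro q _
      exact max_le ((neg_le_abs _).trans (hS1 q)) (by linarith)
    · intro c _
      unfold MM ml_S
      rw [hε0 hzc, zero_mul, zero_mul, sub_zero, hS3 c, one_mul, ← sum_sub_distrib]
      refine sum_congr rfl fun q _ => ?_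
      have h1 : max (S q) 0 - max (-S q) 0 = S q := by
        rcases le_total 0 (S q) with h | h
        · rw [max_eq_left h, max_eq_right (by linarith)]; ring
        · rw [max_eq_right h, max_eq_left (by linarith)]; ring
      rw [← mul_sub, h1]
    · intro _ q _ hq
      simp only [hS2 q hq]
      simp

/-- **Incompatible classes.** If `x` or `y` is not coprime to `r` (and the corresponding sign is `0`),
the correlation of the models along `x + r c`, `y + r c` is small.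

Proof. By symmetry let `x` be not coprime to `r`, `ε = 0`, so `MM Q r 0 β = G Q`. `MB_expand` for `x`
with `W = r`. The other factor: if `y` is coprime to `r`, `ml_MM_eq` writes it as a sum over
`q ∈ QW Q r` with coefficients `A'(q, c) = TW Q r q - ε' w_c TWr Q r r q`, `0 ≤ w_c ≤ 1` monotone in
`c`; the two parts separately have the form required by `pair_gen` (`H18E/PG2`), with bound
`D = 2 r` (`0 ≤ TW, TWr ≤ (r/φ(r)) ∑_{w ∣ r} 1 ≤ r²`: take `D = r²`). If `y` is not coprime to `r`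
(`ε' = 0`): `MB_expand` again. Split `S = S⁺ - S⁻` (nonnegative, constant in `c`, so monotone).
`pair_gen` gives for each of the at most `4 · 2` products: main term `∑_q (μ/φ)² c_q(x-y) ∑_c A A'`,
supported on `q > Q/r ≥ √Q` (one factor is `S`), at most `N r · r² ∑_{q > Q/r, sqfree, (q,r)=1}
φ((q, x-y))/φ(q)² ≤ N r^3 C Q^(-1/4) Rk (x-y)` (`ss_tail` in `H18E/SS1`: `Q < q²`; `|c_q(D)| ≤
φ(q) φ(gcd)/φ(q)...`: for squarefree `q`, `|c_q(D)| = φ(gcd(q, D))`), error `2 r^4 Q^6`. -/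
theorem noncompat : ∃ C : ℝ, 1 ≤ C ∧ ∀ (Q N r : ℕ) (x y : ℤ) (β ε ε' : ℝ), 0 < r →
    r ^ 100 ≤ Q → 8 ≤ Q → ¬ (IsCoprime x (r : ℤ) ∧ IsCoprime y (r : ℤ)) →
    (¬ IsCoprime x (r : ℤ) → ε = 0) → (¬ IsCoprime y (r : ℤ) → ε' = 0) →
    (1 ≤ x ∨ x + r * N ≤ 0) → (1 ≤ y ∨ y + r * N ≤ 0) → x ≠ y → 1 / 2 ≤ β → β ≤ 1 →
    |ε| ≤ 1 → |ε'| ≤ 1 →
    |∑ c ∈ range N, MM Q r ε β (x + r * (c : ℕ)) * MM Q r ε' β (y + r * (c : ℕ))| ≤
      C * (r : ℝ) ^ 3 * N * (Q : ℝ) ^ (-(1 / 4) : ℝ) * Rk (x - y) + (Q : ℝ) ^ 9 := by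
  obtain ⟨C2, hC2, htail⟩ := ss_tail
  refine ⟨4 * C2, by linarith, ?_⟩
  intro Q N r x y β ε ε' hr hrQ hQ hnc hεx hεy hx hy hxy hβ hβ1 hε hε'
  have hQr : (8 : ℝ) ≤ Q := by exact_mod_cast hQ
  have hr1 : (1 : ℝ) ≤ r := by exact_mod_cast hr
  by_cases hN0 : N = 0
  · subst hN0
    simp only [range_zero, sum_empty, Nat.cast_zero, zero_mul, mul_zero, abs_zero, zero_add]
    positivity
  have hN : 1 ≤ N := by omega
  obtain ⟨U, V, η, hη, hU0, hUD, hV0, hVD, hUm, hVm, hMx, hZx⟩ :=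
    mb_rep Q N r x β ε hr hN hx hβ1 hε hεx
  obtain ⟨U', V', η', hη', hU0', hUD', hV0', hVD', hUm', hVm', hMy, hZy⟩ :=
    mb_rep Q N r y β ε' hr hN hy hβ1 hε' hεy
  set D : ℝ := (r : ℝ) with hD
  have hD0 : 0 ≤ D := by positivity
  set d : ℤ := x - y with hd
  have hd0 : d ≠ 0 := sub_ne_zero.mpr hxy
  set T : (ℕ → ℕ → ℝ) → (ℕ → ℕ → ℝ) → ℝ := fun A B => ∑ c ∈ range N,
    ml_S Q r x A c * ml_S Q r y B c with hT
  set Z : (ℕ → ℕ → ℝ) → (ℕ → ℕ → ℝ) → ℝ := fun A B =>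
    ∑ q ∈ QW Q r, ((ArithmeticFunction.moebius q : ℝ) / (Nat.totient q : ℝ)) ^ 2 *
        cq q d * ∑ c ∈ range N, A q c * B q c with hZ
  have h11 : |T U U' - Z U U'| ≤ 2 * D ^ 2 * (Q : ℝ) ^ 6 :=
    pair_gen Q N r hr x y U U' D hD0 hU0 hUD hU0' hUD' hUm hUm'
  have h12 : |T U V' - Z U V'| ≤ 2 * D ^ 2 * (Q : ℝ) ^ 6 :=
    pair_gen Q N r hr x y U V' D hD0 hU0 hUD hV0' hVD' hUm hVm'
  have h21 : |T V U' - Z V U'| ≤ 2 * D ^ 2 * (Q : ℝ) ^ 6 :=
    pair_gen Q N r hr x y V U' D hD0 hV0 hVD hU0' hUD' hVm hUm'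
  have h22 : |T V V' - Z V V'| ≤ 2 * D ^ 2 * (Q : ℝ) ^ 6 :=
    pair_gen Q N r hr x y V V' D hD0 hV0 hVD hV0' hVD' hVm hVm'
  have hexp : ∑ c ∈ range N, MM Q r ε β (x + r * (c : ℕ)) * MM Q r ε' β (y + r * (c : ℕ)) =
      T U U' - η' * T U V' - η * T V U' + η * η' * T V V' := by
    simp only [hT]
    rw [mul_sum, mul_sum, mul_sum, ← sum_sub_distrib, ← sum_sub_distrib, ← sum_add_distrib]
    apply sum_congr rfl
    intro c hc
    rw [hMx c (mem_range.mp hc), hMy c (mem_range.mp hc)]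
    ring
  have herr : |(T U U' - η' * T U V' - η * T V U' + η * η' * T V V') -
      (Z U U' - η' * Z U V' - η * Z V U' + η * η' * Z V V')| ≤ 8 * D ^ 2 * (Q : ℝ) ^ 6 := by
    have gen : ∀ (κ u v : ℝ), |κ| ≤ 1 → |u - v| ≤ 2 * D ^ 2 * (Q : ℝ) ^ 6 →
        |κ * (u - v)| ≤ 2 * D ^ 2 * (Q : ℝ) ^ 6 := by
      intro κ u v h1 h2
      rw [abs_mul]
      calc |κ| * |u - v| ≤ 1 * (2 * D ^ 2 * (Q : ℝ) ^ 6) :=
            mul_le_mul h1 h2 (abs_nonneg _) (by norm_num)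
        _ = _ := one_mul _
    have e1 := gen 1 _ _ (by norm_num) h11
    have e2 := gen η' _ _ hη' h12
    have e3 := gen η _ _ hη h21
    have e4 := gen (η * η') _ _ (by
      rw [abs_mul]
      exact mul_le_one₀ hη (abs_nonneg _) hη') h22
    have e5 : (T U U' - η' * T U V' - η * T V U' + η * η' * T V V') -
      (Z U U' - η' * Z U V' - η * Z V U' + η * η' * Z V V') =
      1 * (T U U' - Z U U') - η' * (T U V' - Z U V') - η * (T V U' - Z V U') +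
        η * η' * (T V V' - Z V V') := by ring
    rw [e5]
    rw [abs_le] at e1 e2 e3 e4 ⊢
    constructor <;> linarith [e1.1, e1.2, e2.1, e2.2, e3.1, e3.2, e4.1, e4.2]
  have herr2 : 8 * D ^ 2 * (Q : ℝ) ^ 6 ≤ (Q : ℝ) ^ 9 := by
    have h1 : D ^ 2 ≤ Q := by
      have := XCG_W_sq Q r hr hrQ
      rw [hD]
      exact_mod_cast this
    calc 8 * D ^ 2 * (Q : ℝ) ^ 6 ≤ Q * Q * (Q : ℝ) ^ 6 := by gcongr
      _ = (Q : ℝ) ^ 8 := by ring
      _ ≤ (Q : ℝ) ^ 9 := pow_le_pow_right₀ (by linarith) (by norm_num)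
  set I : ℕ → ℝ := fun q => ∑ c ∈ range N, (U q c - η * V q c) * (U' q c - η' * V' q c) with hI
  have hmain : Z U U' - η' * Z U V' - η * Z V U' + η * η' * Z V V' =
      ∑ q ∈ QW Q r, ((ArithmeticFunction.moebius q : ℝ) / (Nat.totient q : ℝ)) ^ 2 *
        cq q d * I q := by
    simp only [hZ, hI]
    rw [mul_sum, mul_sum, mul_sum, ← sum_sub_distrib, ← sum_sub_distrib, ← sum_add_distrib]
    apply sum_congr rfl
    intro q _
    have h1 : ∑ c ∈ range N, (U q c - η * V q c) * (U' q c - η' * V' q c) =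
        ∑ c ∈ range N, U q c * U' q c - η' * ∑ c ∈ range N, U q c * V' q c -
          η * ∑ c ∈ range N, V q c * U' q c + η * η' * ∑ c ∈ range N, V q c * V' q c := by
      rw [mul_sum, mul_sum, mul_sum, ← sum_sub_distrib, ← sum_sub_distrib, ← sum_add_distrib]
      apply sum_congr rfl
      intro c _
      ring
    rw [h1]
    ring
  have hIsmall : ∀ q : ℕ, q ^ 2 ≤ Q → I q = 0 := by
    intro q hq
    have hWq : q * r ≤ Q := by
      have h1 := XCG_W_sq Q r hr hrQ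
      have h2 : (q * r) ^ 2 ≤ Q ^ 2 := by
        calc (q * r) ^ 2 = r ^ 2 * q ^ 2 := by ring
          _ ≤ Q * Q := Nat.mul_le_mul h1 hq
          _ = Q ^ 2 := by ring
      exact (Nat.pow_le_pow_iff_left (by norm_num)).mp h2
    simp only [hI]
    apply sum_eq_zero
    intro c _
    by_cases hxc : IsCoprime x (r : ℤ)
    · rw [hZy (fun h => hnc ⟨hxc, h⟩) q c hWq, mul_zero]
    · rw [hZx hxc q c hWq, zero_mul]
  have hIbig : ∀ q : ℕ, |I q| ≤ N * (4 * D ^ 2) := by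
    intro q
    simp only [hI]
    refine (abs_sum_le_sum_abs _ _).trans ?_
    calc ∑ c ∈ range N, |(U q c - η * V q c) * (U' q c - η' * V' q c)|
        ≤ ∑ _c ∈ range N, 4 * D ^ 2 := by
          apply sum_le_sum
          intro c _
          rw [abs_mul]
          have key : ∀ η u v : ℝ, |η| ≤ 1 → 0 ≤ u → u ≤ D → 0 ≤ v → v ≤ D →
              |u - η * v| ≤ 2 * D := by
            intro η u v hη hu hu' hv hv'
            have h1 : |η * v| ≤ D := by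
              rw [abs_mul, abs_of_nonneg hv]
              calc |η| * v ≤ 1 * D := mul_le_mul hη hv' hv (by norm_num)
                _ = D := one_mul _
            have h2 := abs_le.mp h1
            rw [abs_le]
            constructor <;> linarith
          have h1 := key _ _ _ hη (hU0 q c) (hUD q c) (hV0 q c) (hVD q c)
          have h2 := key _ _ _ hη' (hU0' q c) (hUD' q c) (hV0' q c) (hVD' q c)
          calc |U q c - η * V q c| * |U' q c - η' * V' q c| ≤ (2 * D) * (2 * D) :=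
                mul_le_mul h1 h2 (abs_nonneg _) (by positivity)
            _ = 4 * D ^ 2 := by ring
      _ = N * (4 * D ^ 2) := by rw [sum_const, card_range, nsmul_eq_mul]
  set q4 := (Q : ℝ) ^ (-(1 / 4) : ℝ) with hq4
  have hq40 : 0 ≤ q4 := by positivity
  have hRk : 1 ≤ Rk d := one_le_Rk d
  have hbound : |∑ q ∈ QW Q r, ((ArithmeticFunction.moebius q : ℝ) / (Nat.totient q : ℝ)) ^ 2 *
        cq q d * I q| ≤ 4 * C2 * D ^ 3 * N * q4 * Rk d := by
    rw [← sum_filter_add_sum_filter_not (QW Q r) (fun q => q ^ 2 ≤ Q)]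
    have p1 : ∑ q ∈ (QW Q r).filter (fun q => q ^ 2 ≤ Q),
        ((ArithmeticFunction.moebius q : ℝ) / (Nat.totient q : ℝ)) ^ 2 * cq q d * I q = 0 := by
      apply sum_eq_zero
      intro q hq
      rw [hIsmall q (mem_filter.mp hq).2, mul_zero]
    rw [p1, zero_add]
    refine (abs_sum_le_sum_abs _ _).trans ?_
    calc ∑ q ∈ (QW Q r).filter (fun q => ¬ q ^ 2 ≤ Q),
          |((ArithmeticFunction.moebius q : ℝ) / (Nat.totient q : ℝ)) ^ 2 * cq q d * I q|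
        ≤ ∑ q ∈ (QW Q r).filter (fun q => ¬ q ^ 2 ≤ Q),
          (if Squarefree q then (Nat.totient (Nat.gcd q d.natAbs) : ℝ) /
            (Nat.totient q : ℝ) ^ 2 else 0) * (N * (4 * D ^ 2)) := by
          apply sum_le_sum
          intro q _
          rw [abs_mul, abs_mul]
          have h2 : |((ArithmeticFunction.moebius q : ℝ) / (Nat.totient q : ℝ)) ^ 2| =
              ((ArithmeticFunction.moebius q : ℝ) / (Nat.totient q : ℝ)) ^ 2 :=
            abs_of_nonneg (by positivity)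
          rw [h2]
          exact mul_le_mul (XCG_cq_le q d) (hIbig q) (abs_nonneg _) (by
            split_ifs <;> positivity)
      _ = (∑ q ∈ ((QW Q r).filter (fun q => ¬ q ^ 2 ≤ Q)).filter Squarefree,
            (Nat.totient (Nat.gcd q d.natAbs) : ℝ) / (Nat.totient q : ℝ) ^ 2) *
              (N * (4 * D ^ 2)) := by
          rw [← sum_mul, sum_filter (s := (QW Q r).filter (fun q => ¬ q ^ 2 ≤ Q))]
      _ ≤ (C2 * q4 * Rk d) * (N * (4 * D ^ 2)) := by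
          apply mul_le_mul_of_nonneg_right _ (by positivity)
          apply htail Q d hd0 (by omega)
          intro q hq
          rw [mem_filter, mem_filter] at hq
          exact ⟨hq.2, not_le.mp hq.1.2⟩
      _ = 4 * C2 * D ^ 2 * N * q4 * Rk d := by ring
      _ ≤ 4 * C2 * D ^ 3 * N * q4 * Rk d := by
          have h7 : D ^ 2 ≤ D ^ 3 := pow_le_pow_right₀ hr1 (by norm_num)
          gcongr
  rw [hexp]
  rw [← hmain] at hbound
  have h8 := abs_le.mp herr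
  have h9 := abs_le.mp hbound
  rw [abs_le]
  constructor <;> linarith [h8.1, h8.2, h9.1, h9.2]

end Pool.Agent.Lib.H18Q
end

-- from Lib.H18Q.MC
section

/-!
# Project H18Q, chunk MC: the main term at an exceptional level
-/

open Finset

namespace Pool.Agent.Lib.H18Q

open Pool.Agent.Lib.H68T Pool.Agent.Lib.H18E


theorem mc_split (H r : ℕ) (hr : 0 < r) (F : ℕ → ℝ) :
    ∑ c ∈ range H, F c =
      ∑ c0 ∈ range r, ∑ c ∈ range ((H + r - 1 - c0) / r), F (c0 + r * c) := by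
  rw [← Finset.sum_fiberwise_of_maps_to (s := range H) (t := range r) (g := fun c => c % r)
    (fun c _ => mem_range.2 (Nat.mod_lt _ hr))]
  refine sum_congr rfl fun c0 hc0 => ?_
  have hc0' := mem_range.1 hc0
  refine Finset.sum_nbij' (fun c => c / r) (fun c => c0 + r * c) ?_ ?_ ?_ ?_ ?_
  · intro c hc
    rw [mem_filter, mem_range] at hc
    rw [mem_range]
    have h1 := Nat.mod_add_div c r
    have h2 : c / r + 1 ≤ (H + r - 1 - c0) / r := by
      rw [Nat.le_div_iff_mul_le hr]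
      have h3 : (c / r + 1) * r = r * (c / r) + r := by ring
      rw [h3]
      omega
    omega
  · intro c hc
    rw [mem_range] at hc
    rw [mem_filter, mem_range]
    have h2 : c + 1 ≤ (H + r - 1 - c0) / r := hc
    rw [Nat.le_div_iff_mul_le hr] at h2
    have h3 : (c + 1) * r = r * c + r := by ring
    rw [h3] at h2
    refine ⟨by omega, ?_⟩
    rw [Nat.add_mul_mod_self_left, Nat.mod_eq_of_lt hc0']
  · intro c hc
    rw [mem_filter, mem_range] at hc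
    have h1 := Nat.mod_add_div c r
    omega
  · intro c _
    rw [Nat.add_mul_div_left _ _ hr, Nat.div_eq_of_lt hc0', zero_add]
  · intro c hc
    rw [mem_filter, mem_range] at hc
    have h1 := Nat.mod_add_div c r
    congr 1
    omega

theorem mc_shift (r j : ℕ) (hr : 0 < r) (f : ℕ → ℝ) :
    ∑ c0 ∈ range r, f ((j + c0) % r) = ∑ y ∈ range r, f y := by
  have hinj : Set.InjOn (fun c0 => (j + c0) % r) (range r : Set ℕ) := by
    intro a ha b hb hab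
    simp only [coe_range, Set.mem_Iio] at ha hb
    have h1 : (j + a) ≡ (j + b) [MOD r] := hab
    have h2 : a ≡ b [MOD r] := Nat.ModEq.add_left_cancel' j h1
    exact Nat.ModEq.eq_of_lt_of_lt h2 ha hb
  have himg : (range r).image (fun c0 => (j + c0) % r) = range r := by
    apply Finset.eq_of_subset_of_card_le
    · intro y hy
      obtain ⟨a, _, rfl⟩ := mem_image.1 hy
      exact mem_range.2 (Nat.mod_lt _ hr)
    · rw [card_image_of_injOn hinj]
  conv_rhs => rw [← himg]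
  rw [sum_image hinj]

theorem mc_geo {n x j c : ℕ} {σ : Bool} (hn : 64 ≤ n) (hx : x ∈ Icc 1 n)
    (hσ : σ = true ↔ 2 * x ≤ n) (hj : j ∈ xcJ σ n 1 (n / 32)) (hc : c < n / 32) :
    n ≤ 4 * (x + (j + c)) ∧ x + (j + c) ≤ 2 * n ∧
    (σ = true → n + 4 * x ≤ 4 * (j + c)) ∧ (σ = false → n + 4 * (j + c) ≤ 4 * x) ∧
    j + c ≤ n := by
  rw [mem_Icc] at hx
  unfold xcJ at hj
  cases σ with
  | true =>
    have h2 : 2 * x ≤ n := hσ.mp rfl
    simp only [if_true, mem_Ico, mul_one] at hj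
    refine ⟨?_, ?_, fun _ => ?_, fun h => by simp at h, ?_⟩ <;> omega
  | false =>
    have h2 : ¬ 2 * x ≤ n := fun h => by simpa using hσ.mpr h
    simp only [Bool.false_eq_true, if_false, mem_Ico] at hj
    refine ⟨?_, ?_, fun h => by simp at h, fun _ => ?_, ?_⟩ <;> omega

/-- The summand in terms of `y = j + c`. -/
noncomputable def mc_F (n Q r : ℕ) (ψ : DirichletCharacter ℂ r) (β : ℝ) (x y : ℕ) : ℝ :=
  MM Q r (ψ ((x : ZMod r) + y)).re β ((x : ℤ) + y) *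
    MM Q r (ψ (if 2 * x ≤ n then (y : ZMod r) - x else (x : ZMod r) - y)).re β ((y : ℤ) - x)

theorem mc_term {n Q r : ℕ} (ψ : DirichletCharacter ℂ r) (β : ℝ) {x j c : ℕ} {σ : Bool}
    (hn : 64 ≤ n) (hx : x ∈ Icc 1 n)
    (hσ : σ = true ↔ 2 * x ≤ n) (hj : j ∈ xcJ σ n 1 (n / 32)) (hc : c < n / 32) :
    Mod Q r (ψ ((xcs 1 0 x j + c : ℕ) : ZMod r)).re β
        ((xcs 1 0 x j + c : ℕ) : ℤ) *
      Mod Q r (ψ ((ix (n / 32) σ (xct σ (n / 32) 1 0 x j) c : ℕ) : ZMod r)).re β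
        ((ix (n / 32) σ (xct σ (n / 32) 1 0 x j) c : ℕ) : ℤ) = mc_F n Q r ψ β x (j + c) := by
  obtain ⟨g1, g2, g3, g4, g5⟩ := mc_geo hn hx hσ hj hc
  have hs : xcs 1 0 x j + c = x + (j + c) := by
    unfold xcs
    simp
    ring
  have hpos : (0 : ℤ) < ((x + (j + c) : ℕ) : ℤ) := by
    have : 0 < x + (j + c) := by omega
    exact_mod_cast this
  rw [hs, ← cp_MM_pos Q r _ β _ hpos]
  unfold mc_F
  have e1 : (((x + (j + c) : ℕ) : ZMod r)) = (x : ZMod r) + ((j + c : ℕ) : ZMod r) := by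
    push_cast; ring
  have e2 : (((x + (j + c) : ℕ) : ℤ)) = (x : ℤ) + ((j + c : ℕ) : ℤ) := by
    push_cast; ring
  rw [e1, e2]
  congr 1
  unfold xcJ at hj
  rw [mem_Icc] at hx
  cases σ with
  | true =>
    have h2 : 2 * x ≤ n := hσ.mp rfl
    have g := g3 rfl
    simp only [if_true, mem_Ico, mul_one] at hj
    have ht : xct true (n / 32) 1 0 x j = j - x := by
      unfold xct xcD
      simp only [if_true, Nat.cast_zero, zero_sub, Nat.cast_one, Int.ediv_one]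
      omega
    have hix : ix (n / 32) true (xct true (n / 32) 1 0 x j) c = j + c - x := by
      rw [ht]
      simp only [ix, cond_true]
      omega
    have h3 : x ≤ j + c := by omega
    rw [hix, if_pos h2]
    have hpos2 : (0 : ℤ) < ((j + c - x : ℕ) : ℤ) := by
      have : 0 < j + c - x := by omega
      exact_mod_cast this
    rw [← cp_MM_pos Q r _ β _ hpos2, Nat.cast_sub h3, Nat.cast_sub h3]
  | false =>
    have h2 : ¬ 2 * x ≤ n := fun h => by simpa using hσ.mpr h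
    have g := g4 rfl
    simp only [Bool.false_eq_true, if_false, mem_Ico] at hj
    have ht : xct false (n / 32) 1 0 x j = x - j - (n / 32 - 1) := by
      unfold xct xcD
      simp only [Bool.false_eq_true, if_false, Nat.cast_zero, sub_zero, Nat.cast_one, Int.ediv_one]
      omega
    have hix : ix (n / 32) false (xct false (n / 32) 1 0 x j) c = x - (j + c) := by
      rw [ht]
      simp only [ix, cond_false]
      omega
    have h3 : j + c ≤ x := by omega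
    rw [hix, if_neg h2]
    have hpos2 : (0 : ℤ) < ((x - (j + c) : ℕ) : ℤ) := by
      have : 0 < x - (j + c) := by omega
      exact_mod_cast this
    rw [← cp_MM_pos Q r _ β _ hpos2, Nat.cast_sub h3, Nat.cast_sub h3,
      ← cp_MM_neg Q r _ β ((x : ℤ) - ((j + c : ℕ) : ℤ)), neg_sub]

theorem mc_re_le (r : ℕ) (ψ : DirichletCharacter ℂ r) (a : ZMod r) : |(ψ a).re| ≤ 1 :=
  (Complex.abs_re_le_norm _).trans (DirichletCharacter.norm_le_one ψ a)

theorem mc_re_zero (r : ℕ) (ψ : DirichletCharacter ℂ r) (z : ℤ) (h : ¬ IsCoprime z (r : ℤ)) :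
    (ψ (z : ZMod r)).re = 0 := by
  have h1 : ¬ IsUnit (z : ZMod r) := by
    rw [ZMod.coe_int_isUnit_iff_isCoprime]
    exact fun h' => h h'.symm
  rw [ψ.map_nonunit h1, Complex.zero_re]

/-- One class. -/
theorem mc_class {C1 C2 : ℝ} (hC1 : 1 ≤ C1) (hC2 : 1 ≤ C2)
    (hlow : ∀ (Q H W r : ℕ) (x y : ℤ) (β ε ε' : ℝ), 0 < W →
    W ^ 100 ≤ Q → 8 ≤ Q → r ∣ W → IsCoprime x (W : ℤ) → IsCoprime y (W : ℤ) → 1 ≤ x →
    (1 ≤ y ∨ y + W * H ≤ 0) → x ≠ y → (2 ∣ W ∨ (2 : ℤ) ∣ x - y) → 1 / 2 ≤ β → β ≤ 1 →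
    |ε| ≤ 1 → |ε'| ≤ 1 →
    ((W : ℝ) / Nat.totient W) ^ 2 *
        ((∑ c ∈ range H, (1 - ε * |((x + W * (c : ℕ) : ℤ) : ℝ)| ^ (β - 1)) *
            (1 - ε' * |((y + W * (c : ℕ) : ℤ) : ℝ)| ^ (β - 1))) * (1 / 2 * Gp W (x - y)) -
          C1 * H * (Q : ℝ) ^ (-(1 / 4) : ℝ) * Rk (x - y)) - (Q : ℝ) ^ 9 ≤
      ∑ c ∈ range H, MM Q r ε β (x + W * (c : ℕ)) * MM Q r ε' β (y + W * (c : ℕ)))
    (hnon : ∀ (Q N r : ℕ) (x y : ℤ) (β ε ε' : ℝ), 0 < r →
    r ^ 100 ≤ Q → 8 ≤ Q → ¬ (IsCoprime x (r : ℤ) ∧ IsCoprime y (r : ℤ)) →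
    (¬ IsCoprime x (r : ℤ) → ε = 0) → (¬ IsCoprime y (r : ℤ) → ε' = 0) →
    (1 ≤ x ∨ x + r * N ≤ 0) → (1 ≤ y ∨ y + r * N ≤ 0) → x ≠ y → 1 / 2 ≤ β → β ≤ 1 →
    |ε| ≤ 1 → |ε'| ≤ 1 →
    |∑ c ∈ range N, MM Q r ε β (x + r * (c : ℕ)) * MM Q r ε' β (y + r * (c : ℕ))| ≤
      C2 * (r : ℝ) ^ 3 * N * (Q : ℝ) ^ (-(1 / 4) : ℝ) * Rk (x - y) + (Q : ℝ) ^ 9)
    {n Q r : ℕ} (ψ : DirichletCharacter ℂ r) {β : ℝ} {x : ℕ} {σ : Bool} {j : ℕ} {κ : ℕ → ℝ}
    (hr : 0 < r) (hrQ : r ^ 100 ≤ Q) (hQ : 8 ≤ Q) (hn : 64 ≤ n) (hrn : r ≤ n / 32)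
    (hβ : 1 / 2 ≤ β) (hβ1 : β ≤ 1) (hx : x ∈ Icc 1 n) (hσ : σ = true ↔ 2 * x ≤ n)
    (hj : j ∈ xcJ σ n 1 (n / 32)) (hκ : ∀ y0, 0 ≤ κ y0)
    (hκ1 : ∀ y0 ∈ compat r x, ∀ m m' : ℝ, n / 4 ≤ m → n / 4 ≤ m' → m ≤ 2 * n → m' ≤ 2 * n →
      κ y0 ≤ (1 - (ψ ((x : ZMod r) + y0)).re * m ^ (β - 1)) *
        (1 - (ψ (if 2 * x ≤ n then (y0 : ZMod r) - x else (x : ZMod r) - y0)).re *
          m' ^ (β - 1)))
    {c0 : ℕ} (hc0 : c0 < r) :
    (if (j + c0) % r ∈ compat r x then (n / 32 : ℕ) / (4 * r) * ((r : ℝ) / Nat.totient r) ^ 2 *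
        Gp r (2 * (x : ℤ)) * κ ((j + c0) % r) else 0) -
      (C1 + C2) * (r : ℝ) ^ 3 * (n / 32 : ℕ) * (Q : ℝ) ^ (-(1 / 4) : ℝ) * Rk (2 * (x : ℤ)) -
      (Q : ℝ) ^ 9 ≤
    ∑ c ∈ range ((n / 32 + r - 1 - c0) / r), mc_F n Q r ψ β x (j + (c0 + r * c)) := by
  set H := n / 32 with hH
  set N := (H + r - 1 - c0) / r with hN
  set y0 := (j + c0) % r with hy0
  have hy0r : y0 < r := Nat.mod_lt _ hr
  set X0 : ℤ := (x : ℤ) + (j + c0 : ℕ) with hX0
  set Y0 : ℤ := ((j + c0 : ℕ) : ℤ) - x with hY0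
  set ε : ℝ := (ψ ((x : ZMod r) + y0)).re with hε
  set ε' : ℝ := (ψ (if 2 * x ≤ n then (y0 : ZMod r) - x else (x : ZMod r) - y0)).re with hε'
  set q4 := (Q : ℝ) ^ (-(1 / 4) : ℝ) with hq4
  have hx' := mem_Icc.1 hx
  have hr1 : (1 : ℝ) ≤ r := by exact_mod_cast hr
  have hcast : ∀ c : ℕ, (((j + (c0 + r * c) : ℕ)) : ZMod r) = (y0 : ZMod r) := by
    intro c
    have h1 : j + (c0 + r * c) ≡ y0 [MOD r] := by
      rw [hy0]
      have h2 : j + (c0 + r * c) = (j + c0) + r * c := by ring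
      rw [h2]
      unfold Nat.ModEq
      rw [Nat.add_mul_mod_self_left, Nat.mod_mod]
    exact (ZMod.natCast_eq_natCast_iff _ _ _).2 h1
  -- terms
  have hF : ∀ c : ℕ, mc_F n Q r ψ β x (j + (c0 + r * c)) =
      MM Q r ε β (X0 + r * (c : ℕ)) * MM Q r ε' β (Y0 + r * (c : ℕ)) := by
    intro c
    unfold mc_F
    rw [hcast c, ← hε, ← hε']
    have e1 : (x : ℤ) + ((j + (c0 + r * c) : ℕ) : ℤ) = X0 + r * (c : ℕ) := by
      rw [hX0]; push_cast; ring
    have e2 : ((j + (c0 + r * c) : ℕ) : ℤ) - x = Y0 + r * (c : ℕ) := by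
      rw [hY0]; push_cast; ring
    rw [e1, e2]
  rw [sum_congr rfl fun c _ => hF c]
  -- the number of terms
  have hNlt : ∀ c, c < N → c0 + r * c < H := by
    intro c hc
    have h2 : c + 1 ≤ (H + r - 1 - c0) / r := hc
    rw [Nat.le_div_iff_mul_le hr] at h2
    have h3 : (c + 1) * r = r * c + r := by ring
    rw [h3] at h2
    omega
  have hNH : N ≤ H := by
    rw [hN]
    calc (H + r - 1 - c0) / r ≤ (r * H) / r := by
          apply Nat.div_le_div_right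
          have : H + r ≤ r * H + 1 := by nlinarith
          omega
      _ = H := Nat.mul_div_cancel_left _ hr
  have hNr : r * N ≤ H + r - 1 - c0 := Nat.mul_div_le _ _
  have hN1 : H < r * N + r := by
    have h1 : H + r - 1 - c0 < r * N + r := by
      have := Nat.lt_mul_div_succ (H + r - 1 - c0) hr
      rw [← hN] at this
      rw [mul_add, mul_one] at this
      exact this
    have h2 : H / r ≤ N := by
      rw [hN]
      apply Nat.div_le_div_right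
      omega
    have h3 := Nat.lt_mul_div_succ H hr
    rw [mul_add, mul_one] at h3
    have h4 : r * (H / r) ≤ r * N := Nat.mul_le_mul_left _ h2
    omega
  have hN0 : 1 ≤ N := by
    rw [hN, Nat.le_div_iff_mul_le hr]
    omega
  have hHN : (H : ℝ) ≤ 2 * r * N := by
    have h1 : H ≤ 2 * r * N := by
      have : r ≤ r * N := Nat.le_mul_of_pos_right _ hN0
      nlinarith
    exact_mod_cast h1
  -- geometry
  have hH0 : 0 < H := by omega
  have geo : ∀ c, c < N → n ≤ 4 * (x + (j + (c0 + r * c))) ∧ x + (j + (c0 + r * c)) ≤ 2 * n ∧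
      (σ = true → n + 4 * x ≤ 4 * (j + (c0 + r * c))) ∧
      (σ = false → n + 4 * (j + (c0 + r * c)) ≤ 4 * x) ∧ j + (c0 + r * c) ≤ n := fun c hc =>
    mc_geo hn hx hσ hj (hNlt c hc)
  have geo0 := geo 0 (by omega)
  rw [mul_zero, add_zero] at geo0
  have hXY : X0 - Y0 = 2 * (x : ℤ) := by rw [hX0, hY0]; ring
  have hXYne : X0 ≠ Y0 := by
    intro h
    rw [h] at hXY
    omega
  have hX1 : 1 ≤ X0 := by
    rw [hX0]
    have := geo0.1
    omega
  have hY1 : 1 ≤ Y0 ∨ Y0 + r * N ≤ 0 := by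
    cases σ with
    | true =>
      left
      have := geo0.2.2.1 rfl
      rw [hY0]
      omega
    | false =>
      right
      have h2 : ¬ 2 * x ≤ n := fun h => by simpa using hσ.mpr h
      unfold xcJ at hj
      simp only [Bool.false_eq_true, if_false, mem_Ico] at hj
      have h3 : j + c0 + r * N ≤ x := by omega
      rw [hY0]
      have h4 : ((j + c0 + r * N : ℕ) : ℤ) ≤ (x : ℤ) := by exact_mod_cast h3
      push_cast at h4 ⊢
      linarith
  have hdecomp : ((j + c0 : ℕ) : ℤ) = (y0 : ℤ) + r * (((j + c0) / r : ℕ) : ℤ) := by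
    have := Nat.mod_add_div (j + c0) r
    rw [← hy0] at this
    exact_mod_cast this.symm
  have hXc : IsCoprime X0 (r : ℤ) ↔ IsCoprime ((x : ℤ) + y0) (r : ℤ) := by
    rw [hX0, hdecomp, ← add_assoc]
    exact IsCoprime.add_mul_left_left_iff
  have hYc : IsCoprime Y0 (r : ℤ) ↔ IsCoprime ((x : ℤ) - y0) (r : ℤ) := by
    have h1 : Y0 = -((x : ℤ) - y0) + r * (((j + c0) / r : ℕ) : ℤ) := by
      rw [hY0, hdecomp]; ring
    rw [h1, IsCoprime.add_mul_left_left_iff, IsCoprime.neg_left_iff]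
  have hεle : |ε| ≤ 1 := mc_re_le r ψ _
  have hεle' : |ε'| ≤ 1 := mc_re_le r ψ _
  have hε0 : ¬ IsCoprime X0 (r : ℤ) → ε = 0 := by
    intro h
    rw [hXc] at h
    have h1 := mc_re_zero r ψ ((x : ℤ) + y0) h
    rw [hε, ← h1]
    push_cast
    rfl
  have hε0' : ¬ IsCoprime Y0 (r : ℤ) → ε' = 0 := by
    intro h
    rw [hYc] at h
    rw [hε']
    split_ifs with h2
    · have h3 : ¬ IsCoprime ((y0 : ℤ) - x) (r : ℤ) := by
        rw [← neg_sub (x : ℤ) (y0 : ℤ), IsCoprime.neg_left_iff]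
        exact h
      have h1 := mc_re_zero r ψ ((y0 : ℤ) - x) h3
      rw [← h1]
      push_cast
      rfl
    · have h1 := mc_re_zero r ψ ((x : ℤ) - y0) h
      rw [← h1]
      push_cast
      rfl
  have hRk : 1 ≤ Rk (2 * (x : ℤ)) := one_le_Rk _
  have hGp : 1 ≤ Gp r (2 * (x : ℤ)) := one_le_Gp _ _
  have hq40 : 0 ≤ q4 := by positivity
  have hNHR : (N : ℝ) ≤ H := by exact_mod_cast hNH
  have hφ : (1 : ℝ) ≤ Nat.totient r := by exact_mod_cast Nat.totient_pos.mpr hr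
  set D : ℝ := (r : ℝ) / Nat.totient r with hD
  have hD0 : 0 ≤ D := by positivity
  have hDr : D ≤ r := div_le_self (by linarith) hφ
  by_cases hcomp : IsCoprime X0 (r : ℤ) ∧ IsCoprime Y0 (r : ℤ)
  · have hmem : y0 ∈ compat r x := by
      unfold compat
      rw [mem_filter, mem_range]
      exact ⟨hy0r, hXc.1 hcomp.1, hYc.1 hcomp.2⟩
    rw [if_pos hmem]
    have h1 := hlow Q N r r X0 Y0 β ε ε' hr hrQ hQ dvd_rfl hcomp.1 hcomp.2 hX1 hY1 hXYne
      (Or.inr (by rw [hXY]; exact Dvd.intro _ rfl)) hβ hβ1 hεle hεle'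
    rw [hXY, ← hq4, ← hD] at h1
    set Sg : ℝ := ∑ c ∈ range N, (1 - ε * |((X0 + r * (c : ℕ) : ℤ) : ℝ)| ^ (β - 1)) *
      (1 - ε' * |((Y0 + r * (c : ℕ) : ℤ) : ℝ)| ^ (β - 1)) with hSg
    have hSgκ : N * κ y0 ≤ Sg := by
      have h2 : (N : ℝ) * κ y0 = ∑ _c ∈ range N, κ y0 := by
        rw [sum_const, card_range, nsmul_eq_mul]
      rw [h2, hSg]
      apply sum_le_sum
      intro c hc
      have g := geo c (mem_range.1 hc)
      have e1 : X0 + r * (c : ℕ) = ((x + (j + (c0 + r * c)) : ℕ) : ℤ) := by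
        rw [hX0]; push_cast; ring
      have e2 : Y0 + r * (c : ℕ) = ((j + (c0 + r * c) : ℕ) : ℤ) - x := by
        rw [hY0]; push_cast; ring
      have g1 : (n : ℝ) ≤ 4 * ((x + (j + (c0 + r * c)) : ℕ) : ℝ) := by exact_mod_cast g.1
      have g2 : ((x + (j + (c0 + r * c)) : ℕ) : ℝ) ≤ 2 * n := by exact_mod_cast g.2.1
      have hxn : (x : ℝ) ≤ n := by exact_mod_cast hx'.2
      have hx0 : (0 : ℝ) ≤ x := Nat.cast_nonneg _
      have hj0 : (0 : ℝ) ≤ ((j + (c0 + r * c) : ℕ) : ℝ) := Nat.cast_nonneg _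
      have g5 : ((j + (c0 + r * c) : ℕ) : ℝ) ≤ n := by exact_mod_cast g.2.2.2.2
      have habs : (n : ℝ) / 4 ≤ |((((j + (c0 + r * c) : ℕ) : ℤ) - x : ℤ) : ℝ)| := by
        have h5 : ((((j + (c0 + r * c) : ℕ) : ℤ) - x : ℤ) : ℝ) =
          ((j + (c0 + r * c) : ℕ) : ℝ) - x := by push_cast; ring
        rw [h5]
        cases σ with
        | true =>
          have h6 : (n : ℝ) + 4 * x ≤ 4 * ((j + (c0 + r * c) : ℕ) : ℝ) := by
            exact_mod_cast g.2.2.1 rfl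
          exact le_trans (by linarith) (le_abs_self _)
        | false =>
          have h6 : (n : ℝ) + 4 * ((j + (c0 + r * c) : ℕ) : ℝ) ≤ 4 * x := by
            exact_mod_cast g.2.2.2.1 rfl
          exact le_trans (by linarith) (neg_le_abs _)
      have habs2 : |((((j + (c0 + r * c) : ℕ) : ℤ) - x : ℤ) : ℝ)| ≤ 2 * n := by
        have h5 : ((((j + (c0 + r * c) : ℕ) : ℤ) - x : ℤ) : ℝ) =
          ((j + (c0 + r * c) : ℕ) : ℝ) - x := by push_cast; ring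
        rw [h5, abs_le]
        constructor <;> linarith
      have h3 := hκ1 y0 hmem |((X0 + r * (c : ℕ) : ℤ) : ℝ)| |((Y0 + r * (c : ℕ) : ℤ) : ℝ)|
        (by rw [e1, Int.cast_natCast, abs_of_nonneg (Nat.cast_nonneg _)]; linarith)
        (by rw [e2]; exact habs)
        (by rw [e1, Int.cast_natCast, abs_of_nonneg (Nat.cast_nonneg _)]; exact g2)
        (by rw [e2]; exact habs2)
      exact h3
    have hκ0 := hκ y0
    have hmain : (H : ℝ) / (4 * r) * D ^ 2 * Gp r (2 * (x : ℤ)) * κ y0 ≤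
        D ^ 2 * (Sg * (1 / 2 * Gp r (2 * (x : ℤ)))) := by
      have h4 : (H : ℝ) / (4 * r) ≤ N / 2 := by
        rw [div_le_div_iff₀ (by positivity) (by norm_num)]
        linarith
      calc (H : ℝ) / (4 * r) * D ^ 2 * Gp r (2 * (x : ℤ)) * κ y0
          ≤ N / 2 * D ^ 2 * Gp r (2 * (x : ℤ)) * κ y0 := by gcongr
        _ = D ^ 2 * ((N * κ y0) * (1 / 2 * Gp r (2 * (x : ℤ)))) := by ring
        _ ≤ _ := by gcongr
    have herr : D ^ 2 * (C1 * N * q4 * Rk (2 * (x : ℤ))) ≤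
        (C1 + C2) * (r : ℝ) ^ 3 * H * q4 * Rk (2 * (x : ℤ)) := by
      have h5 : D ^ 2 ≤ (r : ℝ) ^ 3 :=
        (pow_le_pow_left₀ hD0 hDr 2).trans (pow_le_pow_right₀ hr1 (by norm_num))
      calc D ^ 2 * (C1 * N * q4 * Rk (2 * (x : ℤ)))
          ≤ (r : ℝ) ^ 3 * ((C1 + C2) * H * q4 * Rk (2 * (x : ℤ))) := by
            gcongr
            linarith
        _ = _ := by ring
    have h6 : D ^ 2 * (Sg * (1 / 2 * Gp r (2 * (x : ℤ))) - C1 * N * q4 * Rk (2 * (x : ℤ))) =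
      D ^ 2 * (Sg * (1 / 2 * Gp r (2 * (x : ℤ)))) -
        D ^ 2 * (C1 * N * q4 * Rk (2 * (x : ℤ))) := by ring
    rw [h6] at h1
    linarith
  · have hmem : y0 ∉ compat r x := by
      intro h
      unfold compat at h
      rw [mem_filter] at h
      exact hcomp ⟨hXc.2 h.2.1, hYc.2 h.2.2⟩
    rw [if_neg hmem]
    have h1 := hnon Q N r X0 Y0 β ε ε' hr hrQ hQ hcomp hε0 hε0' (Or.inl hX1) hY1 hXYne hβ hβ1
      hεle hεle'
    rw [hXY, ← hq4] at h1
    have h2 := (abs_le.mp h1).1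
    have h3 : C2 * (r : ℝ) ^ 3 * N * q4 * Rk (2 * (x : ℤ)) ≤
        (C1 + C2) * (r : ℝ) ^ 3 * H * q4 * Rk (2 * (x : ℤ)) := by
      gcongr
      linarith
    linarith

/-- **Main term at an exceptional level.** `x ∈ [1, n]`, `σ`, `j` as in chunk VA, `H = n/32`,
`s = xcs 1 0 x j = x + j`, `t = xct σ H 1 0 x j`; the numbers are `m_c = s + c = x + (j + c)` and
`m'_c = ix H σ t c = |x - (j + c)|`.

Proof. Let `χ(m) = (ψ m).re`. Both factors are `MM Q r (χ m) β m` (`cp_MM_pos`; `m_c, m'_c > 0`), and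
`MM` is even in its last argument (`cp_MM_neg`): `m'_c = ± (j + c - x)` (`xc_geom`, `xc_diff` with
`r = 1`, `y0 = 0`), so the sum is `∑_c MM Q r ε β (x + j + c) MM Q r ε' β (j + c - x)` with
`ε = χ(x + j + c)`, `ε' = χ(m'_c)`. Split by the class `y0 ∈ range r` of `j + c` modulo `r`: `c = c0 + r c'`,
`c0 < r`, `c' < N`, where `H/r - 1 ≤ N ≤ H/r + 1`; `ε = χ(x + y0)`, `ε' = χ(y0 - x)` or `χ(x - y0)`
(`2 x ≤ n` or not) are constant, and the arguments are `X0 + r c'`, `Y0 + r c'` with `X0 = x + j + c0 ≥ 1`,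
`Y0 = j + c0 - x`, `Y0 ≥ 1` if `σ = true`; if `σ = false` then `Y0 + r c' ≤ -M` for `c' < N`, so
`Y0 + r N ≤ -M + r ≤ 0` (`M = 3n/8 ≥ r`); `X0 - Y0 = 2 x`. If `y0 ∈ compat r x`: `X0, Y0` are coprime
to `r`, and `model_low` (`H18E/ML`, `W = r`) gives at least `(r/φ(r))² (κ(y0) N (1/2 Gp r (2x)) -
C N Q^(-1/4) Rk (2x)) - Q^9`. Else `noncompat` (`χ = 0` at non-units). Sum over `y0`: with `N ≥ H/(2r)`
(`H ≥ 4 r`) and `r` classes, `(r/φ(r))² ≤ r²`. -/
theorem main_exc : ∃ C : ℝ, 1 ≤ C ∧ ∀ (n Q r : ℕ) [NeZero r] (ψ : DirichletCharacter ℂ r)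
    (β : ℝ) (x : ℕ) (σ : Bool) (j : ℕ) (κ : ℕ → ℝ), r ^ 100 ≤ Q → 8 ≤ Q → Q ^ 2 ≤ n →
    1 / 2 ≤ β → β ≤ 1 → x ∈ Icc 1 n → (σ = true ↔ 2 * x ≤ n) → j ∈ xcJ σ n 1 (n / 32) →
    (∀ y0, 0 ≤ κ y0) →
    (∀ y0 ∈ compat r x, ∀ m m' : ℝ, n / 4 ≤ m → n / 4 ≤ m' → m ≤ 2 * n → m' ≤ 2 * n →
      κ y0 ≤ (1 - (ψ ((x : ZMod r) + y0)).re * m ^ (β - 1)) *
        (1 - (ψ (if 2 * x ≤ n then (y0 : ZMod r) - x else (x : ZMod r) - y0)).re *
          m' ^ (β - 1))) →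
    (n / 32 : ℕ) / (4 * r) * ((r : ℝ) / Nat.totient r) ^ 2 * Gp r (2 * (x : ℤ)) *
        (∑ y0 ∈ compat r x, κ y0) -
      C * (r : ℝ) ^ 4 * n * (Q : ℝ) ^ (-(1 / 4) : ℝ) * Rk (2 * (x : ℤ)) - (Q : ℝ) ^ 10 ≤
    ∑ c ∈ range (n / 32), Mod Q r (ψ ((xcs 1 0 x j + c : ℕ) : ZMod r)).re β
        ((xcs 1 0 x j + c : ℕ) : ℤ) *
      Mod Q r (ψ ((ix (n / 32) σ (xct σ (n / 32) 1 0 x j) c : ℕ) : ZMod r)).re β
        ((ix (n / 32) σ (xct σ (n / 32) 1 0 x j) c : ℕ) : ℤ) := by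
  obtain ⟨C1, hC1, hlow⟩ := model_low
  obtain ⟨C2, hC2, hnon⟩ := noncompat
  refine ⟨C1 + C2, by linarith, ?_⟩
  intro n Q r _ ψ β x σ j κ hrQ hQ hQn hβ hβ1 hx hσ hj hκ hκ1
  have hr : 0 < r := Nat.pos_of_ne_zero (NeZero.ne r)
  have hn : 64 ≤ n := by nlinarith
  have hrn : r ≤ n / 32 := by
    rw [Nat.le_div_iff_mul_le (by norm_num)]
    rcases Nat.lt_or_ge 1 r with h | h
    · have h1 : r ^ 6 ≤ r ^ 100 := Nat.pow_le_pow_right hr (by norm_num)
      have h2 : 2 ^ 5 ≤ r ^ 5 := Nat.pow_le_pow_left h 5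
      have h3 : r * 32 ≤ r ^ 6 := by
        calc r * 32 ≤ r * r ^ 5 := Nat.mul_le_mul_left _ (by simpa using h2)
          _ = r ^ 6 := by ring
      nlinarith
    · have : r = 1 := by omega
      rw [this]
      omega
  have hr1 : (1 : ℝ) ≤ r := by exact_mod_cast hr
  rw [sum_congr rfl fun c hc => mc_term (Q := Q) ψ β hn hx hσ hj (mem_range.1 hc),
    mc_split (n / 32) r hr (fun c => mc_F n Q r ψ β x (j + c))]
  set A : ℝ := (n / 32 : ℕ) / (4 * r) * ((r : ℝ) / Nat.totient r) ^ 2 * Gp r (2 * (x : ℤ)) with hA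
  set E : ℝ := (C1 + C2) * (r : ℝ) ^ 3 * (n / 32 : ℕ) * (Q : ℝ) ^ (-(1 / 4) : ℝ) *
    Rk (2 * (x : ℤ)) with hE
  have hsum : ∑ c0 ∈ range r, ((if (j + c0) % r ∈ compat r x then A * κ ((j + c0) % r) else 0) -
      E - (Q : ℝ) ^ 9) ≤ ∑ c0 ∈ range r, ∑ c ∈ range ((n / 32 + r - 1 - c0) / r),
        mc_F n Q r ψ β x (j + (c0 + r * c)) :=
    sum_le_sum fun c0 hc0 => mc_class hC1 hC2 hlow hnon ψ hr hrQ hQ hn hrn hβ hβ1 hx hσ hj hκ hκ1
      (mem_range.1 hc0)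
  refine le_trans ?_ hsum
  rw [sum_sub_distrib, sum_sub_distrib,
    mc_shift r j hr (fun y => if y ∈ compat r x then A * κ y else 0), sum_const, sum_const,
    card_range, nsmul_eq_mul, nsmul_eq_mul]
  have hsub : compat r x ⊆ range r := by
    unfold compat
    exact filter_subset _ _
  have h1 : ∑ y ∈ range r, (if y ∈ compat r x then A * κ y else 0) =
      A * ∑ y0 ∈ compat r x, κ y0 := by
    rw [mul_sum, ← sum_subset hsub (f := fun y => if y ∈ compat r x then A * κ y else 0)]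
    · exact sum_congr rfl fun y hy => if_pos hy
    · intro y _ hy
      exact if_neg hy
  rw [h1]
  have hRk : 1 ≤ Rk (2 * (x : ℤ)) := one_le_Rk _
  have hq40 : 0 ≤ (Q : ℝ) ^ (-(1 / 4) : ℝ) := by positivity
  have hHn : ((n / 32 : ℕ) : ℝ) ≤ n := by exact_mod_cast Nat.div_le_self _ _
  have h2 : r * E ≤ (C1 + C2) * (r : ℝ) ^ 4 * n * (Q : ℝ) ^ (-(1 / 4) : ℝ) *
      Rk (2 * (x : ℤ)) := by
    rw [hE]
    calc (r : ℝ) * ((C1 + C2) * (r : ℝ) ^ 3 * (n / 32 : ℕ) * (Q : ℝ) ^ (-(1 / 4) : ℝ) *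
        Rk (2 * (x : ℤ))) = (C1 + C2) * (r : ℝ) ^ 4 * (n / 32 : ℕ) * (Q : ℝ) ^ (-(1 / 4) : ℝ) *
        Rk (2 * (x : ℤ)) := by ring
      _ ≤ _ := by gcongr
  have h3 : (r : ℝ) * (Q : ℝ) ^ 9 ≤ (Q : ℝ) ^ 10 := by
    have h4 : (r : ℝ) ≤ Q := by
      have : r ≤ Q := (Nat.le_self_pow (by norm_num) r).trans hrQ
      exact_mod_cast this
    calc (r : ℝ) * (Q : ℝ) ^ 9 ≤ Q * (Q : ℝ) ^ 9 := by gcongr
      _ = (Q : ℝ) ^ 10 := by ring
  linarith

end Pool.Agent.Lib.H18Q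
end
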