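import Pool.Agent.Lib.H1M.RV2.M038
import Pool.Agent.Lib.H1M.RV2.M056

/-! Merged copies (to shorten the build) of Lib.H44W.M6, Lib.H44W.M8, Lib.H37T.A5, Lib.H37T.A6. -/

-- from Lib.H44W.M6
section
/-!
CHUNK M6 (M, elementary). Choice of the parameters in near_diag (U6): the near-diagonal pieces have the inverse property.
Here the model M q is abstract: hcf is its inverse property with polynomial loss C3, hK the mass bound, hX the local bound with a fixed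
power saving n^(-e).
Proof. Put G1 = 99 + 8 C3, G2 = G1 (24 + 2 C3), C = a natural number >= (G2 + 3)/e, 4 (16 G1 + 8), 2 G1 E, 6 E, 3 C3; n0 so large that
(1 + log n)^6 >= 200 (hence D >= 200 and ka := 10 (1+log n)^4 <= D). Let be = 1/D, de = 1/(2D), Q = Icc 1 R, Q0 = R (R >= 1: for R = 0
the function is 0, but n^2/D > 0), y0 = de/(100 R ka) = 1/(200 D R ka) >= D^(-4) (200 D R ka <= 200 D^3 <= D^4),
ph1 = y0^(2 C3), y1 = y0^(24 + 2 C3)/(100 R ka) >= D^(-G1), ph2 = y1^(2 C3).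
hM1: y0^2 n^2 = n^2/D' with D' = y0^(-2) >= D, D' <= D^8, D'^E <= D^(8E).. <= n (8E <= C if C >= 8 E), so hcf gives
n/D'^C3 = ph1 n. hM2: the same with D' = y1^(-2) <= D^(2 G1), D'^E <= n.
100 R ka y1 = y0^(24 + 2 C3) <= min (y0^24) ph1 as y0 <= 1. htau: min (y1^24) ph2 >= y1^(24 + 2 C3) >= D^(-G2), and
18 R tau <= 18 D * 5 n^(-e) < D^(-G2) because 90 D^(G2+1) < D^(G2+3) <= n^e (D^C <= n, C e >= G2 + 3, Real.rpow).
hA1: A1 y1^12 >= n^(1/4) D^(-12 G1) >= 10^8 (D^(4 (12 G1 + 4)) <= n, D >= 100), the same for B1; hlX: l y1^16 >= n^(1/4) D^(-16 G1) >=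
D^7 >= 10^12 R (4 (16 G1 + 7) <= C, D >= 100). near_diag: |TF n (P - Mod) W f g| <= n^2/(2D), where P = sum ga q pd q, Mod = sum ga q M q.
Hence n^2/(2D) <= |TF n Mod W f g| <= sum_{q <= R} |TF n (M q) W f g| (TF_sum_sub with P or linearity), so some q has
n^2/(2 D R) <= |TF n (M q) W f g|; 2 D R <= D^3 =: D', hcf: n/D^(3 C3) <= |ghat|, and D^(3 C3) <= D^C.
(n^(1/4) : Real.rpow; (n^(1/4))^4 = n.)
-/
namespace Pool.Agent.H44W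
open Finset

theorem m6_TF (n : ℕ) (Q : Finset ℕ) (ga : ℕ → ℂ) (P : ℕ → ℤ → ℂ) (W f g : ℤ → ℂ) :
    TF n (fun m => ∑ q ∈ Q, ga q * P q m) W f g = ∑ q ∈ Q, ga q * TF n (P q) W f g := by
  have h := TF_sum_sub n Q ga P (fun _ _ => 0) W f g
  have h0 : TF n (fun _ => 0) W f g = 0 := by
    unfold TF
    refine Finset.sum_eq_zero fun x _ => Finset.sum_eq_zero fun y _ => ?_
    rw [mul_zero, zero_mul]
  rw [h0] at h
  simp only [sub_zero] at h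
  exact h

theorem m6_one {y D : ℝ} {k : ℕ} (h : 1 ≤ y * D ^ k) (j : ℕ) : 1 ≤ y ^ j * D ^ (k * j) := by
  rw [pow_mul, ← mul_pow]
  exact one_le_pow₀ h

theorem m6_gen (n C C3 E : ℕ) (D : ℝ) (hD1 : 1 ≤ D) (hDC : D ^ C ≤ n) (M : ℤ → ℂ)
    (hcf : ∀ D' : ℝ, D ≤ D' → D' ^ E ≤ n → ∀ W f g : ℤ → ℂ,
      (∀ x, ‖W x‖ ≤ 1) → (∀ x, ‖f x‖ ≤ 1) → (∀ x, ‖g x‖ ≤ 1) →
      (n:ℝ) ^ 2 / D' ≤ ‖TF n M W f g‖ →
      ∃ th : ℝ, (n:ℝ) / D' ^ C3 ≤ ‖∑ z ∈ Icc (1:ℤ) n, g z * ee (th * z)‖)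
    (y : ℝ) (k : ℕ) (hy : 0 < y) (hDy : D * y ^ 2 ≤ 1) (hyk : 1 ≤ y * D ^ k) (hk : 2 * k * E ≤ C)
    (W f g : ℤ → ℂ) (hW : ∀ x, ‖W x‖ ≤ 1) (hf : ∀ x, ‖f x‖ ≤ 1) (hg : ∀ x, ‖g x‖ ≤ 1)
    (hT : y ^ 2 * (n:ℝ) ^ 2 ≤ ‖TF n M W f g‖) :
    ∃ th : ℝ, y ^ (2 * C3) * n ≤ ‖∑ z ∈ Icc (1:ℤ) n, g z * ee (th * z)‖ := by
  have hy2 : 0 < y ^ 2 := by positivity
  have h1 : D ≤ (y ^ 2)⁻¹ := by
    rw [← one_div, le_div_iff₀ hy2]
    exact hDy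
  have h2 : (y ^ 2)⁻¹ ≤ D ^ (k * 2) := by
    rw [← one_div, div_le_iff₀ hy2, mul_comm]
    exact m6_one hyk 2
  have h3 : ((y ^ 2)⁻¹) ^ E ≤ n := by
    have h4 : ((y ^ 2)⁻¹) ^ E ≤ (D ^ (k * 2)) ^ E := pow_le_pow_left₀ (by positivity) h2 E
    rw [← pow_mul] at h4
    refine h4.trans (le_trans ?_ hDC)
    exact pow_le_pow_right₀ hD1 (by rw [mul_comm k 2]; exact hk)
  obtain ⟨th, hth⟩ := hcf ((y ^ 2)⁻¹) h1 h3 W f g hW hf hg (by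
    rw [div_inv_eq_mul, mul_comm]
    exact hT)
  refine ⟨th, le_trans (le_of_eq ?_) hth⟩
  rw [inv_pow, div_inv_eq_mul, ← pow_mul, mul_comm]

theorem closing (C3 E : ℕ) (e : ℝ) (he : 0 < e) : ∃ C n0 : ℕ, ∀ n : ℕ, n0 ≤ n → ∀ D : ℝ,
    (1 + Real.log n) ^ 10 ≤ D → D ^ C ≤ n → ∀ R : ℕ, (R:ℝ) ≤ D → ∀ A1 A2 B1 B2 l : ℕ,
    (n:ℝ) ^ (1 / 4 : ℝ) ≤ A1 → (n:ℝ) ^ (1 / 4 : ℝ) ≤ B1 → (n:ℝ) ^ (1 / 4 : ℝ) ≤ l →
    A2 ≤ 2 * A1 → B2 ≤ 2 * B1 → l * (A1 + B1) ≤ n →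
    ∀ ga : ℕ → ℂ, (∀ q, ‖ga q‖ ≤ 1) → ∀ M : ℕ → ℤ → ℂ,
    (∀ q ∈ Icc 1 R, ∀ D' : ℝ, D ≤ D' → D' ^ E ≤ n → ∀ W f g : ℤ → ℂ,
      (∀ x, ‖W x‖ ≤ 1) → (∀ x, ‖f x‖ ≤ 1) → (∀ x, ‖g x‖ ≤ 1) →
      (n:ℝ) ^ 2 / D' ≤ ‖TF n (M q) W f g‖ →
      ∃ th : ℝ, (n:ℝ) / D' ^ C3 ≤ ‖∑ z ∈ Icc (1:ℤ) n, g z * ee (th * z)‖) →
    (∑ m ∈ Icc (1:ℤ) (2 * n), ‖∑ q ∈ Icc 1 R, ga q *
      (pd q (Ico (A1:ℤ) A2) (Ico (B1:ℤ) B2) m - M q m)‖ ≤ 10 * (1 + Real.log n) ^ 4 * n) →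
    (∀ q ∈ Icc 1 R, ∀ u v : ℤ, 1 ≤ u → u ≤ v → v ≤ 2 * n + 1 → v - u ≤ 2 * l → ∀ th : ℝ,
      ‖∑ m ∈ Ico u v, (pd q (Ico (A1:ℤ) A2) (Ico (B1:ℤ) B2) m - M q m) * ee (th * m)‖ ≤
        l * (5 * (n:ℝ) ^ (-e))) →
    ∀ W f g : ℤ → ℂ, (∀ x, ‖W x‖ ≤ 1) → (∀ x, ‖f x‖ ≤ 1) → (∀ x, ‖g x‖ ≤ 1) →
    (n:ℝ) ^ 2 / D ≤ ‖TF n (fun m => ∑ q ∈ Icc 1 R, ga q *
      pd q (Ico (A1:ℤ) A2) (Ico (B1:ℤ) B2) m) W f g‖ →
    ∃ th : ℝ, (n:ℝ) / D ^ C ≤ ‖∑ z ∈ Icc (1:ℤ) n, g z * ee (th * z)‖ := by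
  obtain ⟨k, hkd⟩ : ∃ k : ℕ, k = 24 + 2 * C3 := ⟨_, rfl⟩
  obtain ⟨G1, hG1⟩ : ∃ G1 : ℕ, G1 = 4 * k + 3 := ⟨_, rfl⟩
  obtain ⟨C, hC1, hC2, hC3, hC4, hC5⟩ : ∃ C : ℕ, ((G1 * k + 3 : ℕ) : ℝ) ≤ C * e ∧ 4 * (16 * G1 + 7) ≤ C ∧
      2 * G1 * E ≤ C ∧ 2 * 4 * E ≤ C ∧ 3 * (E + C3) ≤ C := by
    refine ⟨⌈((G1 * k + 3 : ℕ) : ℝ) / e⌉₊ + 4 * (16 * G1 + 7) + 2 * G1 * E + 2 * 4 * E + 3 * (E + C3), ?_, by omega,
      by omega, by omega, by omega⟩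
    have h1 : ((G1 * k + 3 : ℕ) : ℝ) / e ≤ (⌈((G1 * k + 3 : ℕ) : ℝ) / e⌉₊ : ℝ) := Nat.le_ceil _
    rw [div_le_iff₀ he] at h1
    refine h1.trans (mul_le_mul_of_nonneg_right ?_ he.le)
    exact_mod_cast (by omega : ⌈((G1 * k + 3 : ℕ) : ℝ) / e⌉₊ ≤
      ⌈((G1 * k + 3 : ℕ) : ℝ) / e⌉₊ + 4 * (16 * G1 + 7) + 2 * G1 * E + 2 * 4 * E + 3 * (E + C3))
  refine ⟨C, 8, ?_⟩
  intro n hn D hD hDC R hRD A1 A2 B1 B2 l hA hB hl hA2 hB2 hlA ga hga M hcf hK hX W f g hW hf hg hT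
  have hn8 : (8 : ℝ) ≤ n := by exact_mod_cast hn
  have hn0 : (0 : ℝ) < n := by linarith
  have hlog : 2 ≤ Real.log n := by
    rw [Real.le_log_iff_exp_le hn0]
    have h1 : Real.exp 2 = Real.exp 1 * Real.exp 1 := by
      rw [← Real.exp_add]
      norm_num
    have h2 : Real.exp 1 < 2.7182818286 := Real.exp_one_lt_d9
    have h3 : 0 < Real.exp 1 := Real.exp_pos _
    rw [h1]
    nlinarith
  set G : ℝ := (1 + Real.log n) ^ 4 with hGd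
  have hGone : 1 ≤ G := one_le_pow₀ (by linarith)
  have hG200 : 200 * G ≤ D := by
    refine le_trans ?_ hD
    have h1 : (3 : ℝ) ^ 6 ≤ (1 + Real.log n) ^ 6 := pow_le_pow_left₀ (by norm_num) (by linarith) 6
    have h2 : (1 + Real.log n) ^ 10 = (1 + Real.log n) ^ 6 * G := by
      rw [hGd, ← pow_add]
    rw [h2]
    have h3 : (200 : ℝ) ≤ (1 + Real.log n) ^ 6 := by
      norm_num at h1
      linarith
    exact mul_le_mul_of_nonneg_right h3 (by linarith)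
  have hD200 : 200 ≤ D := by linarith
  have hD1 : 1 ≤ D := by linarith
  have hD0 : 0 < D := by linarith
  have hka : 1 ≤ 10 * G := by linarith
  have hkaD : 10 * G ≤ D := by linarith
  have hR1 : 1 ≤ R := by
    rcases Nat.eq_zero_or_pos R with h | h
    · exfalso
      rw [h, m6_TF, Finset.Icc_eq_empty (by norm_num), Finset.sum_empty, norm_zero] at hT
      have h1 : 0 < (n:ℝ) ^ 2 / D := by positivity
      linarith
    · exact h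
  have hR1' : (1 : ℝ) ≤ R := by exact_mod_cast hR1
  have hRk1 : 1 ≤ R * (10 * G) := by nlinarith
  have hRk : 100 * R * (10 * G) ≤ 100 * D ^ 2 := by
    have h1 : (R : ℝ) * (10 * G) ≤ D * D := mul_le_mul hRD hkaD (by linarith) hD0.le
    nlinarith
  have hRk0 : 0 < 100 * R * (10 * G) := by positivity
  have hRk3 : 100 * R * (10 * G) ≤ D ^ 3 := by
    have h1 : 100 * D ^ 2 ≤ D ^ 3 := by nlinarith [sq_nonneg D]
    linarith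
  -- the parameters
  obtain ⟨y0, hy0⟩ : ∃ y0 : ℝ, y0 = 1 / (2 * D) / (100 * R * (10 * G)) := ⟨_, rfl⟩
  have hy00 : 0 < y0 := by
    rw [hy0]
    positivity
  have hy0D : D * y0 ≤ 1 := by
    rw [hy0]
    have h1 : D * (1 / (2 * D) / (100 * R * (10 * G))) = 1 / 2 / (100 * R * (10 * G)) := by
      field_simp
    rw [h1, div_le_one hRk0]
    nlinarith
  have hy01 : y0 ≤ 1 := by nlinarith
  have hy04 : 1 ≤ y0 * D ^ 4 := by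
    rw [hy0, div_div, div_mul_eq_mul_div, one_mul, one_le_div (by positivity)]
    have h1 : 2 * D * (100 * R * (10 * G)) ≤ 2 * D * (100 * D ^ 2) := mul_le_mul_of_nonneg_left hRk (by positivity)
    have h2 : 2 * D * (100 * D ^ 2) = 200 * D ^ 3 := by ring
    have h3 : 200 * D ^ 3 ≤ D * D ^ 3 := mul_le_mul_of_nonneg_right hD200 (by positivity)
    calc 2 * D * (100 * R * (10 * G)) ≤ 200 * D ^ 3 := by rw [← h2]; exact h1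
      _ ≤ D * D ^ 3 := h3
      _ = D ^ 4 := by ring
  obtain ⟨y1, hy1⟩ : ∃ y1 : ℝ, y1 = y0 ^ k / (100 * R * (10 * G)) := ⟨_, rfl⟩
  have hy10 : 0 < y1 := by
    rw [hy1]
    positivity
  have hy1k : 100 * R * (10 * G) * y1 = y0 ^ k := by
    rw [hy1]
    field_simp
  have hy0k : y0 ^ k ≤ y0 := u6_small hy00.le hy01 (by omega)
  have hy1y0 : y1 ≤ y0 := by
    refine le_trans ?_ hy0k
    rw [← hy1k]
    have h1 : (1 : ℝ) ≤ 100 * R * (10 * G) := by nlinarith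
    exact le_mul_of_one_le_left hy10.le h1
  have hy11 : y1 ≤ 1 := hy1y0.trans hy01
  have hy1G : 1 ≤ y1 * D ^ G1 := by
    have h1 := m6_one hy04 k
    have h2 : y1 * D ^ G1 = (y0 ^ k * D ^ (4 * k)) * (D ^ 3 / (100 * R * (10 * G))) := by
      rw [hy1, hG1, pow_add]
      field_simp
    rw [h2]
    have h3 : 1 ≤ D ^ 3 / (100 * R * (10 * G)) := by
      rw [one_le_div hRk0]
      exact hRk3
    exact one_le_mul_of_one_le_of_one_le h1 h3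
  have hDy0 : D * y0 ^ 2 ≤ 1 := by
    have h1 : D * y0 ^ 2 = (D * y0) * y0 := by ring
    rw [h1]
    exact mul_le_one₀ hy0D hy00.le hy01
  have hDy1 : D * y1 ^ 2 ≤ 1 := by
    refine le_trans ?_ hDy0
    exact mul_le_mul_of_nonneg_left (pow_le_pow_left₀ hy10.le hy1y0 2) hD0.le
  -- the fourth root
  have hroot : ∀ K : ℕ, 4 * K ≤ C → D ^ K ≤ (n:ℝ) ^ (1 / 4 : ℝ) := by
    intro K hK4
    have h1 : ((n:ℝ) ^ (1 / 4 : ℝ)) ^ 4 = n := by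
      rw [← Real.rpow_natCast, ← Real.rpow_mul hn0.le]
      norm_num
    have h2 : (D ^ K) ^ 4 ≤ ((n:ℝ) ^ (1 / 4 : ℝ)) ^ 4 := by
      rw [h1, ← pow_mul]
      exact (pow_le_pow_right₀ hD1 (by omega)).trans hDC
    exact (pow_le_pow_iff_left₀ (by positivity) (by positivity) (by norm_num)).1 h2
  have hbig : ∀ A : ℕ, (n:ℝ) ^ (1 / 4 : ℝ) ≤ A → (10:ℝ) ^ 8 ≤ A * y1 ^ 12 := by
    intro A hA
    have h1 : D ^ (G1 * 12 + 4) ≤ A := (hroot _ (by omega)).trans hA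
    have h2 := m6_one hy1G 12
    have h3 : (200 : ℝ) ^ 4 ≤ D ^ 4 := pow_le_pow_left₀ (by norm_num) hD200 4
    calc (10:ℝ) ^ 8 ≤ D ^ 4 := by
          refine le_trans ?_ h3
          norm_num
      _ ≤ D ^ 4 * (y1 ^ 12 * D ^ (G1 * 12)) := le_mul_of_one_le_right (by positivity) h2
      _ = D ^ (G1 * 12 + 4) * y1 ^ 12 := by rw [pow_add]; ring
      _ ≤ A * y1 ^ 12 := mul_le_mul_of_nonneg_right h1 (by positivity)
  have hlX : (10:ℝ) ^ 12 * R ≤ l * y1 ^ 16 := by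
    have h1 : D ^ (G1 * 16 + 7) ≤ l := (hroot _ (by omega)).trans hl
    have h2 := m6_one hy1G 16
    have h3 : (200 : ℝ) ^ 6 ≤ D ^ 6 := pow_le_pow_left₀ (by norm_num) hD200 6
    have h4 : (10:ℝ) ^ 12 ≤ D ^ 6 := le_trans (by norm_num) h3
    calc (10:ℝ) ^ 12 * R ≤ D ^ 6 * D := mul_le_mul h4 hRD (by linarith) (by positivity)
      _ = D ^ 7 := by ring
      _ ≤ D ^ 7 * (y1 ^ 16 * D ^ (G1 * 16)) := le_mul_of_one_le_right (by positivity) h2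
      _ = D ^ (G1 * 16 + 7) * y1 ^ 16 := by rw [pow_add]; ring
      _ ≤ l * y1 ^ 16 := mul_le_mul_of_nonneg_right h1 (by positivity)
  have hl1 : 1 ≤ l := by
    rcases Nat.eq_zero_or_pos l with h | h
    · exfalso
      rw [h, Nat.cast_zero, zero_mul] at hlX
      have : (0 : ℝ) < 10 ^ 12 * R := by positivity
      linarith
    · exact h
  have hne : D ^ (G1 * k + 3) ≤ (n:ℝ) ^ e := by
    have h1 : (D ^ C) ^ e ≤ (n:ℝ) ^ e := Real.rpow_le_rpow (by positivity) hDC he.le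
    refine le_trans ?_ h1
    rw [← Real.rpow_natCast, ← Real.rpow_natCast, ← Real.rpow_mul hD0.le]
    exact Real.rpow_le_rpow_of_exponent_le hD1 hC1
  have hNe : 0 < (n:ℝ) ^ e := by positivity
  have htau : 18 * (R:ℝ) * (5 * (n:ℝ) ^ (-e)) < y1 ^ k := by
    rw [Real.rpow_neg hn0.le]
    have h1 := m6_one hy1G k
    have h2 : D ^ 3 ≤ y1 ^ k * (n:ℝ) ^ e := by
      calc D ^ 3 ≤ D ^ 3 * (y1 ^ k * D ^ (G1 * k)) := le_mul_of_one_le_right (by positivity) h1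
        _ = y1 ^ k * D ^ (G1 * k + 3) := by rw [pow_add]; ring
        _ ≤ y1 ^ k * (n:ℝ) ^ e := mul_le_mul_of_nonneg_left hne (by positivity)
    have h3 : 90 * (R:ℝ) < D ^ 3 := by
      have h4 : 90 * (R:ℝ) ≤ 90 * D := by linarith
      have h5 : 90 * D < D ^ 3 := by
        have h6 : (90:ℝ) < D ^ 2 := by nlinarith
        calc 90 * D < D ^ 2 * D := mul_lt_mul_of_pos_right h6 hD0
          _ = D ^ 3 := by ring
      linarith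
    have h4 : 18 * (R:ℝ) * (5 * ((n:ℝ) ^ e)⁻¹) = 90 * R / (n:ℝ) ^ e := by
      field_simp
      norm_num
    rw [h4, div_lt_iff₀ hNe]
    linarith
  have hmin1 : 100 * (R:ℝ) * (10 * G) * y1 ≤ min (y0 ^ 24) (y0 ^ (2 * C3)) := by
    rw [hy1k, hkd]
    exact le_min (pow_le_pow_of_le_one hy00.le hy01 (by omega)) (pow_le_pow_of_le_one hy00.le hy01 (by omega))
  have hmin2 : y1 ^ k ≤ min (y1 ^ 24) (y1 ^ (2 * C3)) := by
    rw [hkd]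
    exact le_min (pow_le_pow_of_le_one hy10.le hy11 (by omega)) (pow_le_pow_of_le_one hy10.le hy11 (by omega))
  have hnd := near_diag n l A1 B1 A2 B2 (by omega) hl1 (Icc 1 R) R hR1 (by rw [Nat.card_Icc]; omega)
    (fun q hq => Finset.mem_Icc.1 hq) ga hga M (10 * G) hka hA2 hB2 hlA hK (5 * (n:ℝ) ^ (-e)) (by positivity) hX
    (1 / (2 * D)) y0 (y0 ^ (2 * C3)) y1 (y1 ^ (2 * C3)) (by positivity)
    (by rw [div_le_one (by positivity)]; linarith) hy0 (by positivity) (pow_le_one₀ hy00.le hy01) hy10 hmin1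
    (by positivity)
    (fun q hq W f g hW hf hg h => m6_gen n C C3 E D hD1 hDC (M q) (hcf q hq) y0 4 hy00 hDy0 hy04 hC4 W f g hW hf hg h)
    (fun q hq W f g hW hf hg h => m6_gen n C C3 E D hD1 hDC (M q) (hcf q hq) y1 G1 hy10 hDy1 hy1G hC3 W f g hW hf hg h)
    (htau.trans_le hmin2) (hbig A1 hA) (hbig B1 hB) hlX W f g hW hf hg
  rw [TF_sum_sub] at hnd
  rw [m6_TF] at hT
  have e1 : ∑ q ∈ Icc 1 R, ga q * TF n (M q) W f g =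
      ∑ q ∈ Icc 1 R, ga q * TF n (pd q (Ico (A1:ℤ) A2) (Ico (B1:ℤ) B2)) W f g -
      ∑ q ∈ Icc 1 R, ga q * (TF n (pd q (Ico (A1:ℤ) A2) (Ico (B1:ℤ) B2)) W f g - TF n (M q) W f g) := by
    rw [← Finset.sum_sub_distrib]
    refine Finset.sum_congr rfl fun q _ => ?_
    ring
  have h1 : (n:ℝ) ^ 2 / (2 * D) ≤ ‖∑ q ∈ Icc 1 R, ga q * TF n (M q) W f g‖ := by
    rw [e1]
    have h2 := norm_sub_norm_le (∑ q ∈ Icc 1 R, ga q * TF n (pd q (Ico (A1:ℤ) A2) (Ico (B1:ℤ) B2)) W f g)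
      (∑ q ∈ Icc 1 R, ga q * (TF n (pd q (Ico (A1:ℤ) A2) (Ico (B1:ℤ) B2)) W f g - TF n (M q) W f g))
    have h3 : (n:ℝ) ^ 2 / (2 * D) = (n:ℝ) ^ 2 / D - 1 / (2 * D) * (n:ℝ) ^ 2 := by
      field_simp
      ring
    rw [h3]
    linarith
  have h2 : ∃ q ∈ Icc 1 R, (n:ℝ) ^ 2 / (2 * D * R) ≤ ‖TF n (M q) W f g‖ := by
    by_contra hcon
    push Not at hcon
    have h3 : ‖∑ q ∈ Icc 1 R, ga q * TF n (M q) W f g‖ ≤ ∑ q ∈ Icc 1 R, ‖TF n (M q) W f g‖ := by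
      refine (norm_sum_le _ _).trans (Finset.sum_le_sum fun q _ => ?_)
      rw [norm_mul]
      exact mul_le_of_le_one_left (norm_nonneg _) (hga q)
    have h4 : ∑ q ∈ Icc 1 R, ‖TF n (M q) W f g‖ < ∑ _q ∈ Icc 1 R, (n:ℝ) ^ 2 / (2 * D * R) :=
      Finset.sum_lt_sum_of_nonempty ⟨1, Finset.mem_Icc.2 ⟨le_rfl, hR1⟩⟩ hcon
    rw [Finset.sum_const, Nat.card_Icc, nsmul_eq_mul] at h4
    have h5 : ((R + 1 - 1 : ℕ) : ℝ) * ((n:ℝ) ^ 2 / (2 * D * R)) = (n:ℝ) ^ 2 / (2 * D) := by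
      rw [Nat.add_sub_cancel]
      field_simp
    rw [h5] at h4
    linarith
  obtain ⟨q, hq, hTq⟩ := h2
  have h3 : D ≤ 2 * D * R := by nlinarith
  have h4 : 2 * D * R ≤ D ^ 3 := by
    have h5 : 2 * D * R ≤ 2 * D * D := mul_le_mul_of_nonneg_left hRD (by positivity)
    have h6 : 2 * D * D ≤ D * D * D := mul_le_mul_of_nonneg_right (mul_le_mul_of_nonneg_right (by linarith) hD0.le) hD0.le
    calc 2 * D * R ≤ 2 * D * D := h5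
      _ ≤ D * D * D := h6
      _ = D ^ 3 := by ring
  have h5 : (2 * D * R) ^ E ≤ n := by
    have h6 : (2 * D * R) ^ E ≤ (D ^ 3) ^ E := pow_le_pow_left₀ (by positivity) h4 E
    rw [← pow_mul] at h6
    exact h6.trans ((pow_le_pow_right₀ hD1 (by omega)).trans hDC)
  obtain ⟨th, hth⟩ := hcf q hq (2 * D * R) h3 h5 W f g hW hf hg hTq
  refine ⟨th, le_trans ?_ hth⟩
  have h6 : (2 * D * R) ^ C3 ≤ D ^ C := by
    have h7 : (2 * D * R) ^ C3 ≤ (D ^ 3) ^ C3 := pow_le_pow_left₀ (by positivity) h4 C3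
    rw [← pow_mul] at h7
    exact h7.trans (pow_le_pow_right₀ hD1 (by omega))
  exact div_le_div_of_nonneg_left hn0.le (by positivity) h6

end Pool.Agent.H44W
end

-- from Lib.H44W.M8
section
/-!
CHUNK M8 (M, elementary: exponents). The output of module D.
Proof. h34 (H21T.D34): ka in (0, 1/2]. Put ep = min ka (1/8), et0 = ka/8, e = ep/2, E = 16, C3 = 2 (C2 + 1) (C2 from h2),
closing C3 E e (M6) gives C, n0; N0 from h34 for ep. C' = max C 17; n0' so large that everything below holds.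
Given the data, Q = floor((2n)^ep) >= 1, N = 2n. A1, B1 >= (2n)^(1/2 - 2 et0) >= max (n^(1/4)) 1 ((1/2 - ka/4 >= 3/8)).
If A1 B1 > 2n then pd q .. m = 0 for 2 <= m <= 2n, 1 <= q (q a b >= A1 B1 > m), so TF = 0 < n^2/D: contradiction (D > 0).
So A1 B1 <= 2n, A1 <= 2n/B1 <= (2n)^(1/2 + 2 et0), the same for B1. l := floor((2n)^(1/2 - 3 et0)): l (A1 + B1) <= 2 (2n)^(1 - et0) <= n
for (2n)^et0 >= 4; (2n)^(1/2 - ka) <= l and n^(1/4) <= l for n large (3 et0 = 3ka/8 < ka, 1/2 - 3/16 > 1/4; l >= (2n)^(1/2 - 3 et0) - 1).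
Apply closing with M := fun q => Mq Q A1 A2 B1 B2 q:
 hcf: D' >= D >= (1+log n)^10 >= 560 (1+log n)^4 (n large), hdiv for D' >= D, D'^16 <= n: q Q <= D' (2n)^(1/8) <= n^(1/16) (2n)^(1/8) <= n^(1/4),
 mq_cf (M7). mass: mass_le (M5) (R <= D <= n, Q <= (2n)^(1/8) <= n). hX: hX_of (M4) with h34 (N = 2n >= N0; ee of SZW and of H44W are the
 same function: rfl).
-/
namespace Pool.Agent.H44W
open Finset

theorem m8_gap (a b : ℝ) (hb : 0 < b) (hab : a < b) :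
    ∃ x0 : ℝ, ∀ x : ℝ, x0 ≤ x → x ^ a + 1 ≤ x ^ b := by
  have h1 := (tendsto_rpow_atTop hb).eventually_ge_atTop 2
  have h2 := (tendsto_rpow_atTop (sub_pos.2 hab)).eventually_ge_atTop 2
  have h3 := Filter.eventually_gt_atTop (0:ℝ)
  obtain ⟨x0, hx0⟩ := Filter.eventually_atTop.1 (h1.and (h2.and h3))
  refine ⟨x0, fun x hx => ?_⟩
  obtain ⟨h4, h5, h6⟩ := hx0 x hx
  have h7 : x ^ b = x ^ a * x ^ (b - a) := by
    rw [← Real.rpow_add h6]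
    congr 1
    ring
  have h8 : 0 ≤ x ^ a := Real.rpow_nonneg h6.le _
  have h9 : x ^ a * 2 ≤ x ^ b := by
    rw [h7]
    exact mul_le_mul_of_nonneg_left h5 h8
  linarith

theorem m8_large (ka : ℝ) (hka : 0 < ka) (hka1 : ka ≤ 1 / 2) (N0 n1 : ℕ) :
    ∃ n0 : ℕ, ∀ n : ℕ, n0 ≤ n → n1 ≤ n ∧ N0 ≤ 2 * n ∧ 4 ≤ n ∧
      560 * (1 + Real.log n) ^ 4 ≤ (1 + Real.log n) ^ 10 ∧
      4 ≤ ((2 * n : ℕ) : ℝ) ^ (ka / 8) ∧
      ((2 * n : ℕ) : ℝ) ^ (1 / 2 - ka) + 1 ≤ ((2 * n : ℕ) : ℝ) ^ (1 / 2 - 3 * (ka / 8)) ∧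
      ((2 * n : ℕ) : ℝ) ^ (1 / 4 : ℝ) + 1 ≤ ((2 * n : ℕ) : ℝ) ^ (1 / 2 - 3 * (ka / 8)) := by
  obtain ⟨x1, h1⟩ := m8_gap (1 / 2 - ka) (1 / 2 - 3 * (ka / 8)) (by linarith) (by linarith)
  obtain ⟨x2, h2⟩ := m8_gap (1 / 4) (1 / 2 - 3 * (ka / 8)) (by linarith) (by linarith)
  obtain ⟨x3, h3⟩ := Filter.eventually_atTop.1
    ((tendsto_rpow_atTop (by linarith : 0 < ka / 8)).eventually_ge_atTop 4)
  obtain ⟨x4, h4⟩ := Filter.eventually_atTop.1 (Real.tendsto_log_atTop.eventually_ge_atTop 2)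
  obtain ⟨m1, hm1⟩ := exists_nat_ge x1
  obtain ⟨m2, hm2⟩ := exists_nat_ge x2
  obtain ⟨m3, hm3⟩ := exists_nat_ge x3
  obtain ⟨m4, hm4⟩ := exists_nat_ge x4
  refine ⟨n1 + N0 + 4 + m1 + m2 + m3 + m4, fun n hn => ?_⟩
  have h5 : (m1 : ℝ) ≤ ((2 * n : ℕ) : ℝ) := by
    have : m1 ≤ 2 * n := by omega
    exact_mod_cast this
  have h6 : (m2 : ℝ) ≤ ((2 * n : ℕ) : ℝ) := by
    have : m2 ≤ 2 * n := by omega
    exact_mod_cast this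
  have h7 : (m3 : ℝ) ≤ ((2 * n : ℕ) : ℝ) := by
    have : m3 ≤ 2 * n := by omega
    exact_mod_cast this
  have h8 : (m4 : ℝ) ≤ (n : ℝ) := by
    have : m4 ≤ n := by omega
    exact_mod_cast this
  refine ⟨by omega, by omega, by omega, ?_, h3 _ (hm3.trans h7), h1 _ (hm1.trans h5),
    h2 _ (hm2.trans h6)⟩
  have h9 := h4 n (hm4.trans h8)
  have h10 : (3:ℝ) ^ 6 ≤ (1 + Real.log n) ^ 6 := pow_le_pow_left₀ (by norm_num) (by linarith) 6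
  have h11 : (560:ℝ) ≤ (1 + Real.log n) ^ 6 := le_trans (by norm_num) h10
  calc 560 * (1 + Real.log n) ^ 4 ≤ (1 + Real.log n) ^ 6 * (1 + Real.log n) ^ 4 :=
        mul_le_mul_of_nonneg_right h11 (by positivity)
    _ = (1 + Real.log n) ^ 10 := by ring

theorem m8_pd (n q A1 A2 B1 B2 : ℕ) (hq : 1 ≤ q) (h : 2 * n < A1 * B1) (m : ℤ)
    (hm : m ≤ 2 * n) : pd q (Ico (A1:ℤ) A2) (Ico (B1:ℤ) B2) m = 0 := by
  unfold pd
  rw [Nat.cast_eq_zero, card_eq_zero, filter_eq_empty_iff]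
  rintro ⟨a, b⟩ hp he
  rw [mem_product, mem_Ico, mem_Ico] at hp
  obtain ⟨⟨h1, _⟩, h2, _⟩ := hp
  simp only at h1 h2 he
  have h3 : (2 * n : ℤ) < A1 * B1 := by exact_mod_cast h
  have h4 : (A1:ℤ) * B1 ≤ a * b := mul_le_mul h1 h2 (by positivity) (le_trans (by positivity) h1)
  have h5 : (1:ℤ) ≤ q := by exact_mod_cast hq
  have h6 : 0 ≤ a * b := le_trans (by positivity) h4
  have h7 : 1 * (a * b) ≤ (q:ℤ) * (a * b) := mul_le_mul_of_nonneg_right h5 h6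
  have h8 : (q:ℤ) * (a * b) = m := by rw [← mul_assoc]; exact he
  rw [h8, one_mul] at h7
  linarith

theorem m8_upper (x a : ℝ) (A B : ℕ) (hx : 0 < x) (hA : x ^ (1 / 2 - 2 * a) ≤ A)
    (hAB : (A:ℝ) * B ≤ x) : (B:ℝ) ≤ x ^ (1 / 2 + 2 * a) := by
  have h1 : 0 < x ^ (1 / 2 - 2 * a) := Real.rpow_pos_of_pos hx _
  have h2 : x ^ (1 / 2 - 2 * a) * B ≤ x := by
    refine le_trans (mul_le_mul_of_nonneg_right hA (Nat.cast_nonneg B)) hAB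
  have h3 : x ^ (1 / 2 - 2 * a) * x ^ (1 / 2 + 2 * a) = x := by
    rw [← Real.rpow_add hx]
    have : (1 / 2 - 2 * a + (1 / 2 + 2 * a) : ℝ) = 1 := by ring
    rw [this, Real.rpow_one]
  have h4 : x ^ (1 / 2 - 2 * a) * B ≤ x ^ (1 / 2 - 2 * a) * x ^ (1 / 2 + 2 * a) := by
    rw [h3]
    exact h2
  exact le_of_mul_le_mul_left h4 h1

theorem d_out (C2 : ℕ) (h2 : ClassTwo C2)
    (h34 : ∃ κ : ℝ, 0 < κ ∧ κ ≤ 1 / 2 ∧ ∀ ε : ℝ, 0 < ε → ε ≤ κ → ∃ N0 : ℕ, ∀ N : ℕ, N0 ≤ N →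
      ∀ A1 A2 B1 B2 : ℕ, (N : ℝ) ^ (1 / 2 - κ) ≤ A1 → (N : ℝ) ^ (1 / 2 - κ) ≤ B1 → A1 ≤ A2 →
      A2 ≤ 2 * A1 → B1 ≤ B2 → B2 ≤ 2 * B1 → A1 * B1 ≤ N →
      ∀ (x H : ℕ) (α : ℝ), (N : ℝ) ^ (1 / 2 - κ) ≤ H →
      ‖∑ m ∈ Ico x (x + H), ((Pool.Agent.Lib.H21T.dbox A1 A2 B1 B2 m : ℂ) -
        (Pool.Agent.Lib.H21T.Mbox ⌊(N : ℝ) ^ ε⌋₊ A1 A2 B1 B2 m : ℂ)) *
          Pool.Agent.SZW.ee (α * m)‖ ≤ H * (N : ℝ) ^ (-(ε / 2))) :
    ∃ et0 : ℝ, 0 < et0 ∧ ∃ C n0 : ℕ, ∀ n : ℕ, n0 ≤ n → ∀ D : ℝ, (1 + Real.log n) ^ 10 ≤ D →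
      (∀ m : ℕ, 1 ≤ m → m ≤ 2 * n → (m.divisors.card : ℝ) ≤ D) → D ^ C ≤ n →
      ∀ R : ℕ, (R : ℝ) ≤ D → ∀ A1 A2 B1 B2 : ℕ,
      ((2 * n : ℕ) : ℝ) ^ (1 / 2 - 2 * et0) ≤ A1 → ((2 * n : ℕ) : ℝ) ^ (1 / 2 - 2 * et0) ≤ B1 →
      A2 ≤ 2 * A1 → B2 ≤ 2 * B1 → ∀ ga : ℕ → ℂ, (∀ q, ‖ga q‖ ≤ 1) → ∀ W f g : ℤ → ℂ,
      (∀ x, ‖W x‖ ≤ 1) → (∀ x, ‖f x‖ ≤ 1) → (∀ x, ‖g x‖ ≤ 1) →
      (n:ℝ) ^ 2 / D ≤ ‖TF n (fun m => ∑ q ∈ Icc 1 R, ga q *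
        pd q (Ico (A1:ℤ) A2) (Ico (B1:ℤ) B2) m) W f g‖ →
      ∃ th : ℝ, (n:ℝ) / D ^ C ≤ ‖∑ z ∈ Icc (1:ℤ) n, g z * ee (th * z)‖ := by
  obtain ⟨ka, hka, hka1, h34⟩ := h34
  have hep : 0 < min ka (1 / 8) := lt_min hka (by norm_num)
  have hepk : min ka (1 / 8) ≤ ka := min_le_left _ _
  have hep8 : min ka (1 / 8) ≤ 1 / 8 := min_le_right _ _
  obtain ⟨ep, hepd⟩ : ∃ ep : ℝ, ep = min ka (1 / 8) := ⟨_, rfl⟩
  rw [← hepd] at hep hepk hep8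
  obtain ⟨C, n1, hcl⟩ := closing (2 * (C2 + 1)) 16 (ep / 2) (by linarith)
  obtain ⟨N0, hN0⟩ := h34 ep hep hepk
  obtain ⟨n0, hn0⟩ := m8_large ka hka hka1 N0 n1
  refine ⟨ka / 8, by linarith, max C 1, n0, ?_⟩
  intro n hn D hD10 hdiv hDC R hR A1 A2 B1 B2 hA hB hA2 hB2 ga hga W f g hW hf hg hT
  obtain ⟨hn1, hnN, hn4, hlog, hE3, hE4, hE5⟩ := hn0 n hn
  have hL0 : 0 ≤ Real.log n := Real.log_natCast_nonneg n
  have hL1 : 1 ≤ 1 + Real.log n := by linarith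
  have hD1 : 1 ≤ D := le_trans (one_le_pow₀ hL1) hD10
  have hD0 : 0 < D := by linarith
  have hnR4 : (4:ℝ) ≤ n := by exact_mod_cast hn4
  have hnR1 : (1:ℝ) ≤ n := by linarith
  have hnR0 : (0:ℝ) < n := by linarith
  obtain ⟨x, hxd⟩ : ∃ x : ℝ, x = ((2 * n : ℕ) : ℝ) := ⟨_, rfl⟩
  have hx2 : x = 2 * n := by
    rw [hxd]
    push_cast
    rfl
  have hx1 : 1 ≤ x := by rw [hx2]; linarith
  have hx0 : 0 < x := by linarith
  rw [← hxd] at hE3 hE4 hE5 hA hB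
  have hDC' : D ^ C ≤ n := le_trans (pow_le_pow_right₀ hD1 (le_max_left _ _)) hDC
  have hDn : D ≤ n := by
    have := le_trans (pow_le_pow_right₀ hD1 (le_max_right C 1)) hDC
    rw [pow_one] at this
    exact this
  have hAx1 : 1 ≤ x ^ (1 / 2 - 2 * (ka / 8)) := Real.one_le_rpow hx1 (by linarith)
  have hA1 : 1 ≤ A1 := by
    have : (1:ℝ) ≤ A1 := hAx1.trans hA
    exact_mod_cast this
  have hB1 : 1 ≤ B1 := by
    have : (1:ℝ) ≤ B1 := hAx1.trans hB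
    exact_mod_cast this
  have hAB : A1 * B1 ≤ 2 * n := by
    by_contra hcon
    rw [not_le] at hcon
    have h0 : TF n (fun m => ∑ q ∈ Icc 1 R, ga q *
        pd q (Ico (A1:ℤ) A2) (Ico (B1:ℤ) B2) m) W f g = 0 := by
      unfold TF
      refine sum_eq_zero fun u hu => sum_eq_zero fun v hv => ?_
      rw [mem_Icc] at hu hv
      have h1 : ∑ q ∈ Icc 1 R, ga q *
          pd q (Ico (A1:ℤ) A2) (Ico (B1:ℤ) B2) (u + v) = 0 := by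
        refine sum_eq_zero fun q hq => ?_
        rw [mem_Icc] at hq
        rw [m8_pd n q A1 A2 B1 B2 hq.1 hcon (u + v) (by omega), mul_zero]
      simp only [h1, mul_zero, zero_mul]
    rw [h0, norm_zero] at hT
    have : 0 < (n:ℝ) ^ 2 / D := by positivity
    linarith
  have hABx : (A1:ℝ) * B1 ≤ x := by
    rw [hxd]
    exact_mod_cast hAB
  have hBu : (B1:ℝ) ≤ x ^ (1 / 2 + 2 * (ka / 8)) := m8_upper x (ka / 8) A1 B1 hx0 hA hABx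
  have hAu : (A1:ℝ) ≤ x ^ (1 / 2 + 2 * (ka / 8)) :=
    m8_upper x (ka / 8) B1 A1 hx0 hB (by rw [mul_comm]; exact hABx)
  obtain ⟨l, hld⟩ : ∃ l : ℕ, l = ⌊x ^ (1 / 2 - 3 * (ka / 8))⌋₊ := ⟨_, rfl⟩
  have hly : 0 ≤ x ^ (1 / 2 - 3 * (ka / 8)) := Real.rpow_nonneg hx0.le _
  have hlu : (l:ℝ) ≤ x ^ (1 / 2 - 3 * (ka / 8)) := by
    rw [hld]
    exact Nat.floor_le hly
  have hll : x ^ (1 / 2 - 3 * (ka / 8)) - 1 < l := by
    rw [hld]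
    have := Nat.lt_floor_add_one (x ^ (1 / 2 - 3 * (ka / 8)))
    linarith
  have hlk : x ^ (1 / 2 - ka) ≤ l := by linarith
  have hn4x : (n:ℝ) ^ (1 / 4 : ℝ) ≤ x ^ (1 / 4 : ℝ) := by
    apply Real.rpow_le_rpow hnR0.le _ (by norm_num)
    rw [hx2]
    linarith
  have hl4 : (n:ℝ) ^ (1 / 4 : ℝ) ≤ l := by linarith
  have hl1 : 1 ≤ l := by
    have h1 : (1:ℝ) ≤ (n:ℝ) ^ (1 / 4 : ℝ) := Real.one_le_rpow hnR1 (by norm_num)
    have : (1:ℝ) ≤ l := h1.trans hl4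
    exact_mod_cast this
  have h14 : x ^ (1 / 4 : ℝ) ≤ x ^ (1 / 2 - 2 * (ka / 8)) :=
    Real.rpow_le_rpow_of_exponent_le hx1 (by linarith)
  have hlAB : l * (A1 + B1) ≤ n := by
    have h1 : (l:ℝ) * (A1 + B1) ≤ x ^ (1 / 2 - 3 * (ka / 8)) *
        (x ^ (1 / 2 + 2 * (ka / 8)) + x ^ (1 / 2 + 2 * (ka / 8))) := by
      apply mul_le_mul hlu (by linarith) (by positivity) hly
    have h3 : x ^ (1 / 2 - 3 * (ka / 8)) * x ^ (1 / 2 + 2 * (ka / 8)) * x ^ (ka / 8) = x := by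
      rw [← Real.rpow_add hx0, ← Real.rpow_add hx0]
      have : (1 / 2 - 3 * (ka / 8) + (1 / 2 + 2 * (ka / 8)) + ka / 8 : ℝ) = 1 := by ring
      rw [this, Real.rpow_one]
    have h4 : 0 ≤ x ^ (1 / 2 - 3 * (ka / 8)) * x ^ (1 / 2 + 2 * (ka / 8)) := by positivity
    have h5 : x ^ (1 / 2 - 3 * (ka / 8)) * x ^ (1 / 2 + 2 * (ka / 8)) * 4 ≤ x := by
      calc _ ≤ x ^ (1 / 2 - 3 * (ka / 8)) * x ^ (1 / 2 + 2 * (ka / 8)) * x ^ (ka / 8) :=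
            mul_le_mul_of_nonneg_left hE3 h4
        _ = x := h3
    have h6 : (l:ℝ) * (A1 + B1) ≤ n := by
      have h7 : (l:ℝ) * (A1 + B1) ≤
          2 * (x ^ (1 / 2 - 3 * (ka / 8)) * x ^ (1 / 2 + 2 * (ka / 8))) := by
        refine h1.trans (le_of_eq ?_)
        ring
      rw [hx2] at h5 h7
      linarith
    exact_mod_cast h6
  obtain ⟨Q, hQd⟩ : ∃ Q : ℕ, Q = ⌊x ^ ep⌋₊ := ⟨_, rfl⟩
  have hQu : (Q:ℝ) ≤ x ^ (1 / 8 : ℝ) := by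
    rw [hQd]
    refine (Nat.floor_le (Real.rpow_nonneg hx0.le _)).trans ?_
    exact Real.rpow_le_rpow_of_exponent_le hx1 hep8
  have hQ1 : 1 ≤ Q := by
    rw [hQd]
    apply Nat.le_floor
    rw [Nat.cast_one]
    exact Real.one_le_rpow hx1 hep.le
  have hx8 : x ^ (1 / 8 : ℝ) * (n:ℝ) ^ (1 / 16 : ℝ) ≤ (n:ℝ) ^ (1 / 4 : ℝ) := by
    have h1 : x ≤ (n:ℝ) ^ (3 / 2 : ℝ) := by
      have h3 : (2:ℝ) ≤ (n:ℝ) ^ (1 / 2 : ℝ) := by
        have h4 : ((4:ℝ)) ^ (1 / 2 : ℝ) ≤ (n:ℝ) ^ (1 / 2 : ℝ) :=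
          Real.rpow_le_rpow (by norm_num) hnR4 (by norm_num)
        have h5 : ((4:ℝ)) ^ (1 / 2 : ℝ) = 2 := by
          rw [← Real.sqrt_eq_rpow]
          rw [show (4:ℝ) = 2 ^ 2 by norm_num]
          exact Real.sqrt_sq (by norm_num)
        rw [h5] at h4
        exact h4
      have h6 : (n:ℝ) ^ (3 / 2 : ℝ) = (n:ℝ) ^ (1 / 2 : ℝ) * n := by
        rw [show (3 / 2 : ℝ) = 1 / 2 + 1 by norm_num, Real.rpow_add hnR0, Real.rpow_one]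
      rw [h6, hx2]
      exact mul_le_mul_of_nonneg_right h3 hnR0.le
    have h2 : x ^ (1 / 8 : ℝ) ≤ (n:ℝ) ^ (3 / 16 : ℝ) := by
      calc x ^ (1 / 8 : ℝ) ≤ ((n:ℝ) ^ (3 / 2 : ℝ)) ^ (1 / 8 : ℝ) :=
            Real.rpow_le_rpow hx0.le h1 (by norm_num)
        _ = (n:ℝ) ^ (3 / 16 : ℝ) := by
            rw [← Real.rpow_mul hnR0.le]
            norm_num
    calc x ^ (1 / 8 : ℝ) * (n:ℝ) ^ (1 / 16 : ℝ) ≤ (n:ℝ) ^ (3 / 16 : ℝ) * (n:ℝ) ^ (1 / 16 : ℝ) :=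
          mul_le_mul_of_nonneg_right h2 (Real.rpow_nonneg hnR0.le _)
      _ = (n:ℝ) ^ (1 / 4 : ℝ) := by
          rw [← Real.rpow_add hnR0]
          norm_num
  have hn4n : (n:ℝ) ^ (1 / 4 : ℝ) ≤ n := by
    calc (n:ℝ) ^ (1 / 4 : ℝ) ≤ (n:ℝ) ^ (1 : ℝ) :=
          Real.rpow_le_rpow_of_exponent_le hnR1 (by norm_num)
      _ = n := Real.rpow_one _
  have hn16 : (1:ℝ) ≤ (n:ℝ) ^ (1 / 16 : ℝ) := Real.one_le_rpow hnR1 (by norm_num)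
  have hQn : Q ≤ n := by
    have h1 : x ^ (1 / 8 : ℝ) ≤ x ^ (1 / 8 : ℝ) * (n:ℝ) ^ (1 / 16 : ℝ) :=
      le_mul_of_one_le_right (Real.rpow_nonneg hx0.le _) hn16
    have : (Q:ℝ) ≤ n := by linarith
    exact_mod_cast this
  have hRn : R ≤ n := by
    have : (R:ℝ) ≤ n := hR.trans hDn
    exact_mod_cast this
  obtain ⟨th, hth⟩ := hcl n hn1 D hD10 hDC' R hR A1 A2 B1 B2 l (by linarith) (by linarith) hl4
    hA2 hB2 hlAB ga hga (fun q => Mq Q A1 A2 B1 B2 q) (fun q hq D' hDD' hD16 W' f' g' hW' hf' hg'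
      hT' => by
      rw [mem_Icc] at hq
      have hD'0 : 0 < D' := by linarith
      have hqQ : ((q * Q : ℕ):ℝ) ≤ (n:ℝ) ^ (1 / 4 : ℝ) := by
        have h1 : (q:ℝ) ≤ D' := by
          have : (q:ℝ) ≤ R := by exact_mod_cast hq.2
          linarith
        have h3 : D' ≤ (n:ℝ) ^ (1 / 16 : ℝ) := by
          have h4 : (D' ^ 16) ^ (1 / 16 : ℝ) ≤ (n:ℝ) ^ (1 / 16 : ℝ) :=
            Real.rpow_le_rpow (by positivity) hD16 (by norm_num)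
          have h5 : (D' ^ 16) ^ (1 / 16 : ℝ) = D' := by
            rw [← Real.rpow_natCast, ← Real.rpow_mul hD'0.le]
            norm_num
          rw [h5] at h4
          exact h4
        rw [Nat.cast_mul]
        calc (q:ℝ) * Q ≤ (n:ℝ) ^ (1 / 16 : ℝ) * x ^ (1 / 8 : ℝ) :=
              mul_le_mul (h1.trans h3) hQu (Nat.cast_nonneg _) (by linarith)
          _ = x ^ (1 / 8 : ℝ) * (n:ℝ) ^ (1 / 16 : ℝ) := mul_comm _ _
          _ ≤ _ := hx8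
      exact mq_cf C2 h2 n Q A1 A2 B1 B2 q (by omega) hQ1 hq.1 hqQ hA1 hB1 hA2 D'
        (by linarith) (fun m hm hm2 => (hdiv m hm hm2).trans hDD') W' f' g' hW' hf' hg' hT')
    (mass_le n Q R A1 A2 B1 B2 (by omega) hQ1 hQn hRn hA1 hB1 hA2 hB2 ga hga)
    (fun q hq u v hu huv hv hvu th => by
      rw [mem_Icc] at hq
      exact hX_of ka ep n Q A1 A2 B1 B2 l q (by omega) hep hl1 hA1 hB1 hq.1 hA2 hB2
        (fun hAA hBB hAB' y H α hH => by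
          have hAk : ((2 * n : ℕ):ℝ) ^ (1 / 2 - ka) ≤ A1 := by
            rw [← hxd]
            refine le_trans ?_ hA
            exact Real.rpow_le_rpow_of_exponent_le hx1 (by linarith)
          have hBk : ((2 * n : ℕ):ℝ) ^ (1 / 2 - ka) ≤ B1 := by
            rw [← hxd]
            refine le_trans ?_ hB
            exact Real.rpow_le_rpow_of_exponent_le hx1 (by linarith)
          have h7 := hN0 (2 * n) hnN A1 A2 B1 B2 hAk hBk hAA hA2 hBB hB2 hAB' y H α hH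
          rw [← hxd, ← hQd] at h7
          rw [← hxd]
          exact h7)
        (by rw [← hxd]; exact hlk) u v hu huv hv hvu th)
    W f g hW hf hg hT
  refine ⟨th, le_trans ?_ hth⟩
  exact div_le_div_of_nonneg_left hnR0.le (pow_pos hD0 _)
    (pow_le_pow_right₀ hD1 (le_max_left _ _))

end Pool.Agent.H44W
end

-- from Lib.H37T.A5
section
/-!
H37T: the inverse theorem for the von Mangoldt function from module B.
-/
namespace Pool.Agent.H37T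
open Finset Pool.Agent.H44W

theorem inv_of_classTwo (h2 : ∃ C : ℕ, ClassTwo C) : INV := by
  obtain ⟨C, hC⟩ := h2
  exact inv_of ⟨C, hC⟩ (d_out C hC Pool.Agent.Lib.H21T.D34)

end Pool.Agent.H37T
end

-- from Lib.H37T.A6
section
/-!
H37T: the inverse theorem for the von Mangoldt function (all modules).
-/
namespace Pool.Agent.H37T

/-- **The inverse theorem**: if `g` has no Fourier coefficient larger than `n ^ (1 - c1)`, then every form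
`∑ f(x) g(y) Λ(x+y) W(x-y)` with bounded `f`, `W` is at most `n ^ (2 - c2)`. -/
theorem inv : INV := inv_of_classTwo Pool.Agent.H3B.class_two

end Pool.Agent.H37T
end
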