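import Pool.Agent.Lib.H1M.RV2.M012
import Pool.Agent.Lib.H1M.RV2.M031
import Pool.Agent.Lib.H1M.RV2.M040
import Pool.Agent.Lib.H1M.RV2.M042
import Pool.Agent.Lib.H1M.RV2.M043
import Pool.Agent.Lib.H1M.RV2.M057

/-! Merged copies (to shorten the build) of Lib.H57C.M3, Lib.H57C.M4, Lib.H57C.RM, Lib.H57T.A1, Lib.H57T.S3a, Lib.H57C.S3a. -/

-- from Lib.H57C.M3
section

/-!
# Chunk M3: the main terms
-/

open Finset

namespace Pool.Agent.Lib.H57C

open Pool.Agent.Lib.H15P Pool.Agent.Lib.H92G Pool.Agent.Lib.H57M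

/-- The allowed classes modulo `q`. -/
noncomputable def m3_A {P H : Finset ℕ} (i : Option ℕ) (U : Fam P H) (q : ℕ) : Finset ℕ := by
  classical
  exact (range q).filter (fun c => (∀ h0, i = some h0 → ¬ q ∣ h0 + c) ∧
    ∀ h : {h // h ∈ H}, (∃ p ∈ U h, p.1 = q) → i ≠ some h.1 ∧ q ∣ c + h.1)

theorem m3_mem_A {P H : Finset ℕ} (i : Option ℕ) (U : Fam P H) (q c : ℕ) :
    c ∈ m3_A i U q ↔ c < q ∧ (∀ h0, i = some h0 → ¬ q ∣ h0 + c) ∧
      ∀ h : {h // h ∈ H}, (∃ p ∈ U h, p.1 = q) → i ≠ some h.1 ∧ q ∣ c + h.1 := by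
  unfold m3_A
  rw [mem_filter, mem_range]

theorem m3_Pf (P : Finset ℕ) (hP : ∀ p ∈ P, p.Prime) : (∏ p ∈ P, p).primeFactors = P :=
  Nat.primeFactors_prod hP

theorem m3_sqf (P : Finset ℕ) (hP : ∀ p ∈ P, p.Prime) : Squarefree (∏ p ∈ P, p) := by
  refine Finset.squarefree_prod_of_pairwise_isCoprime ?_ ?_
  · intro p hp q hq hpq
    exact Nat.coprime_iff_isRelPrime.1
      ((Nat.coprime_primes (hP p (Finset.mem_coe.1 hp)) (hP q (Finset.mem_coe.1 hq))).2 hpq)
  · intro p hp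
    exact (hP p hp).squarefree

theorem m3_cop (P : Finset ℕ) (hP : ∀ p ∈ P, p.Prime) (x : ℕ) :
    x.Coprime (∏ p ∈ P, p) ↔ ∀ p ∈ P, ¬ p ∣ x := by
  rw [Nat.coprime_prod_right_iff]
  constructor
  · intro h p hp hd
    have h1 := h p hp
    rw [Nat.coprime_comm, (hP p hp).coprime_iff_not_dvd] at h1
    exact h1 hd
  · intro h p hp
    rw [Nat.coprime_comm, (hP p hp).coprime_iff_not_dvd]
    exact h p hp

/-- The count. -/
theorem m3_count (P H : Finset ℕ) (i : Option ℕ) (hP : ∀ p ∈ P, p.Prime) (U : Fam P H) :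
    ((range (∏ p ∈ P, p)).filter (fun t => (∀ h0, i = some h0 → (h0 + 1 * t).Coprime (∏ p ∈ P, p)) ∧
      ∀ j, U j ⊆ cfg P H i t j)).card = ∏ q ∈ P, (m3_A i U q).card := by
  classical
  have h0 := crt_card (∏ p ∈ P, p) (m3_sqf P hP) (m3_A i U) (fun q _ => by
    intro c hc
    rw [m3_mem_A] at hc
    exact mem_range.2 hc.1)
  rw [m3_Pf P hP] at h0
  rw [← h0]
  congr 1
  ext t
  rw [mem_filter, mem_filter]
  refine and_congr_right (fun _ => ?_)
  constructor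
  · rintro ⟨h1, h2⟩ q hq
    rw [m3_mem_A]
    refine ⟨Nat.mod_lt _ (hP q hq).pos, ?_, ?_⟩
    · intro h0 hh hd
      have h3 := (m3_cop P hP _).1 (h1 h0 hh) q hq
      apply h3
      rw [one_mul]
      rw [Nat.dvd_iff_mod_eq_zero, Nat.add_mod, Nat.mod_mod, ← Nat.add_mod] at hd
      exact Nat.dvd_of_mod_eq_zero hd
    · rintro h ⟨p, hp, rfl⟩
      have h3 := h2 h hp
      unfold cfg at h3
      split_ifs at h3 with h4
      · exact absurd h3 (by simp)
      · refine ⟨h4, ?_⟩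
        unfold hit at h3
        have h5 := (mem_filter.1 h3).2
        rw [Nat.dvd_iff_mod_eq_zero, Nat.add_mod, Nat.mod_mod, ← Nat.add_mod]
        exact Nat.mod_eq_zero_of_dvd h5
  · intro h1
    constructor
    · intro h0 hh
      rw [m3_cop P hP]
      intro p hp hd
      have h2 := (m3_mem_A i U p _).1 (h1 p hp)
      apply h2.2.1 h0 hh
      rw [one_mul] at hd
      rw [Nat.dvd_iff_mod_eq_zero, Nat.add_mod, Nat.mod_mod, ← Nat.add_mod]
      exact Nat.mod_eq_zero_of_dvd hd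
    · intro j p hp
      have h2 := (m3_mem_A i U p.1 _).1 (h1 p.1 p.2)
      have h3 := h2.2.2 j ⟨p, hp, rfl⟩
      unfold cfg
      rw [if_neg h3.1]
      unfold hit
      rw [mem_filter]
      refine ⟨mem_univ _, ?_⟩
      have h4 := h3.2
      rw [Nat.dvd_iff_mod_eq_zero, Nat.add_mod, Nat.mod_mod, ← Nat.add_mod] at h4
      exact Nat.dvd_of_mod_eq_zero h4

/-- The normalisation. -/
noncomputable def m3_n (i : Option ℕ) (q : ℕ) : ℕ := if i = none then q else q - 1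

theorem m3_diff {q h h' c : ℕ} (hh : h < q) (hh' : h' < q) (h1 : q ∣ c + h) (h2 : q ∣ c + h') :
    h = h' := by
  have h3 : c + h ≡ c + h' [MOD q] := by
    rw [Nat.ModEq, Nat.mod_eq_zero_of_dvd h1, Nat.mod_eq_zero_of_dvd h2]
  have h4 : h ≡ h' [MOD q] := Nat.ModEq.add_left_cancel' c h3
  exact Nat.ModEq.eq_of_lt_of_lt h4 hh hh'

/-- No prime: all classes. -/
theorem m3_card0 {P H : Finset ℕ} (i : Option ℕ) (U : Fam P H) (q : ℕ) (hq : q.Prime)
    (hU : ∀ h : {h // h ∈ H}, ¬ ∃ p ∈ U h, p.1 = q) : (m3_A i U q).card = m3_n i q := by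
  classical
  unfold m3_n
  cases i with
  | none =>
    rw [if_pos rfl]
    have : m3_A none U q = range q := by
      ext c
      rw [m3_mem_A, mem_range]
      constructor
      · exact fun h => h.1
      · intro h
        refine ⟨h, ?_, ?_⟩
        · intro h0 hh
          exact absurd hh (by simp)
        · intro h' hh
          exact absurd hh (hU h')
    rw [this, card_range]
  | some h0 =>
    rw [if_neg (by simp)]
    have h1 : m3_A (some h0) U q = (range q).erase ((q - h0 % q) % q) := by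
      ext c
      rw [m3_mem_A, mem_erase, mem_range]
      have hm : h0 % q < q := Nat.mod_lt _ hq.pos
      have key : c < q → (q ∣ h0 + c ↔ c = (q - h0 % q) % q) := by
        intro hc
        have e1 : q ∣ h0 + (q - h0 % q) % q := by
          rw [Nat.dvd_iff_mod_eq_zero, Nat.add_mod, Nat.mod_mod, ← Nat.add_mod]
          have : h0 + (q - h0 % q) = q * (h0 / q) + q := by
            have := Nat.div_add_mod h0 q
            omega
          rw [this]
          simp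
        constructor
        · intro h
          exact m3_diff (c := h0) hc (Nat.mod_lt _ hq.pos) h e1
        · intro h
          rw [h]
          exact e1
      constructor
      · rintro ⟨h2, h3, -⟩
        refine ⟨?_, h2⟩
        intro h4
        exact h3 h0 rfl ((key h2).2 h4)
      · rintro ⟨h2, h3⟩
        refine ⟨h3, ?_, ?_⟩
        · intro h1 hh hd
          have : h0 = h1 := by simpa using hh
          subst this
          exact h2 ((key h3).1 hd)
        · intro h' hh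
          exact absurd hh (hU h')
    rw [h1, card_erase_of_mem (mem_range.2 (Nat.mod_lt _ hq.pos)), card_range]

/-- One form: one class. -/
theorem m3_card1 {P H : Finset ℕ} (i : Option ℕ) (U : Fam P H) (q : ℕ) (hq : q.Prime)
    (hH : ∀ h ∈ H, h < q) (iH : ∀ h, i = some h → h ∈ H) (h : {h // h ∈ H})
    (hU : ∃ p ∈ U h, p.1 = q) (hu : ∀ h' : {h // h ∈ H}, (∃ p ∈ U h', p.1 = q) → h' = h)
    (hi : i ≠ some h.1) : (m3_A i U q).card = 1 := by
  classical
  rw [card_eq_one]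
  refine ⟨(q - h.1) % q, ?_⟩
  ext c
  rw [m3_mem_A, mem_singleton]
  have hh := hH h.1 h.2
  have e1 : q ∣ (q - h.1) % q + h.1 := by
    rw [Nat.dvd_iff_mod_eq_zero, Nat.add_mod, Nat.mod_mod, ← Nat.add_mod]
    have : q - h.1 + h.1 = q := by omega
    rw [this, Nat.mod_self]
  constructor
  · rintro ⟨h1, -, h3⟩
    have h4 := (h3 h hU).2
    rw [add_comm] at h4 e1
    exact m3_diff h1 (Nat.mod_lt _ hq.pos) h4 e1
  · rintro rfl
    refine ⟨Nat.mod_lt _ hq.pos, ?_, ?_⟩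
    · intro h0 h5 h6
      rw [add_comm] at h6
      have h7 := m3_diff (hH h0 (iH h0 h5)) hh h6 e1
      apply hi
      rw [h5, h7]
    · intro h' h8
      have := hu h' h8
      subst this
      exact ⟨hi, e1⟩

/-- The local factor. -/
theorem m3_local {P H : Finset ℕ} (i : Option ℕ) (W : ℕ) (hP : ∀ p ∈ P, p.Prime ∧ W < p)
    (HW : ∀ h ∈ H, h ≤ W) (iH : ∀ h, i = some h → h ∈ H) (U : Fam P H) (hok : okA P H i U)
    (q : ℕ) (hq : q ∈ P) :
    ((m3_A i U q).card : ℝ) / (m3_n i q : ℝ) =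
      ∏ h : {h // h ∈ H}, (if (⟨q, hq⟩ : {p // p ∈ P}) ∈ U h then hdr i q else 1) := by
  classical
  have hqp := (hP q hq).1
  have hH : ∀ h ∈ H, h < q := fun h hh => lt_of_le_of_lt (HW h hh) (hP q hq).2
  have hn : (m3_n i q : ℝ) ≠ 0 := by
    unfold m3_n
    split_ifs
    · exact_mod_cast hqp.pos.ne'
    · have := hqp.one_lt
      have h2 : q - 1 ≠ 0 := by omega
      exact_mod_cast h2
  have hhd : hdr i q = 1 / (m3_n i q : ℝ) := by
    unfold hdr m3_n
    split_ifs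
    · rfl
    · rw [Nat.cast_sub hqp.one_lt.le, Nat.cast_one]
  have hex : ∀ h : {h // h ∈ H}, (∃ p ∈ U h, p.1 = q) ↔ (⟨q, hq⟩ : {p // p ∈ P}) ∈ U h := by
    intro h
    constructor
    · rintro ⟨p, hp, h2⟩
      have : p = ⟨q, hq⟩ := Subtype.ext h2
      rw [← this]
      exact hp
    · intro h2
      exact ⟨_, h2, rfl⟩
  by_cases hall : ∀ h : {h // h ∈ H}, ¬ ∃ p ∈ U h, p.1 = q
  · rw [m3_card0 i U q hqp hall, div_self hn]
    symm
    apply prod_eq_one
    intro h _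
    rw [if_neg]
    rw [← hex]
    exact hall h
  · push Not at hall
    obtain ⟨h, hh⟩ := hall
    have hu : ∀ h' : {h // h ∈ H}, (∃ p ∈ U h', p.1 = q) → h' = h := by
      intro h' hh'
      by_contra hne
      have hd := hok.2 h' h hne
      rw [hex] at hh hh'
      exact (Finset.disjoint_left.1 hd) hh' hh
    have hi : i ≠ some h.1 := by
      intro h5
      have := hok.1 h h5
      rw [hex, this] at hh
      exact absurd hh (by simp)
    rw [m3_card1 i U q hqp hH iH h hh hu hi, Nat.cast_one, ← hhd]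
    rw [prod_eq_single h]
    · rw [if_pos ((hex h).1 hh)]
    · intro h' _ hne
      rw [if_neg]
      intro h6
      exact hne (hu h' ((hex h').2 h6))
    · intro h7
      exact absurd (mem_univ _) h7

/-- The bad families. -/
theorem m3_zero {P H : Finset ℕ} (i : Option ℕ) (W : ℕ) (hP : ∀ p ∈ P, p.Prime ∧ W < p)
    (HW : ∀ h ∈ H, h ≤ W) (U : Fam P H) (hok : ¬ okA P H i U) :
    ∏ q ∈ P, (m3_A i U q).card = 0 := by
  classical
  unfold okA at hok
  rw [not_and_or] at hok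
  rcases hok with hok | hok
  · push Not at hok
    obtain ⟨h, h1, h2⟩ := hok
    obtain ⟨p, hp⟩ := h2
    refine prod_eq_zero p.2 ?_
    rw [card_eq_zero, eq_empty_iff_forall_notMem]
    intro c hc
    rw [m3_mem_A] at hc
    exact (hc.2.2 h ⟨p, hp, rfl⟩).1 h1
  · push Not at hok
    obtain ⟨h, h', hne, hd⟩ := hok
    rw [Finset.not_disjoint_iff] at hd
    obtain ⟨p, hp, hp'⟩ := hd
    refine prod_eq_zero p.2 ?_
    rw [card_eq_zero, eq_empty_iff_forall_notMem]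
    intro c hc
    rw [m3_mem_A] at hc
    have h1 := (hc.2.2 h ⟨p, hp, rfl⟩).2
    have h2 := (hc.2.2 h' ⟨p, hp', rfl⟩).2
    have h3 := hP p.1 p.2
    exact hne (Subtype.ext (m3_diff (lt_of_le_of_lt (HW h.1 h.2) h3.2)
      (lt_of_le_of_lt (HW h'.1 h'.2) h3.2) h1 h2))

/-- The density of a family. -/
theorem m3_dens {P H : Finset ℕ} (i : Option ℕ) (W : ℕ) (hP : ∀ p ∈ P, p.Prime ∧ W < p)
    (HW : ∀ h ∈ H, h ≤ W) (iH : ∀ h, i = some h → h ∈ H) (U : Fam P H) :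
    (((∏ q ∈ P, (m3_A i U q).card : ℕ)) : ℝ) / (∏ q ∈ P, (m3_n i q : ℝ)) =
      (open Classical in if okA P H i U ∧ okB P H (fun _ _ => True) 1 U then fpr (hdr i) U else 0) := by
  classical
  by_cases hok : okA P H i U
  · have hB : okB P H (fun _ _ => True) 1 U := by
      refine ⟨?_, ?_⟩
      · intro h p _ hd
        exact (hP p.1 p.2).1.one_lt.ne' (Nat.dvd_one.1 hd)
      · intro h p _ c _
        trivial
    rw [if_pos ⟨hok, hB⟩, Nat.cast_prod, ← prod_div_distrib]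
    have h1 : ∀ q : {p // p ∈ P}, ((m3_A i U q.1).card : ℝ) / (m3_n i q.1 : ℝ) =
        ∏ h : {h // h ∈ H}, (if q ∈ U h then hdr i q.1 else 1) :=
      fun q => m3_local i W hP HW iH U hok q.1 q.2
    rw [← prod_attach P (fun q => ((m3_A i U q).card : ℝ) / (m3_n i q : ℝ))]
    rw [show (P.attach : Finset {p // p ∈ P}) = univ from rfl, prod_congr rfl (fun q _ => h1 q),
      prod_comm]
    unfold fpr
    refine prod_congr rfl (fun h _ => ?_)
    rw [prod_ite_mem, univ_inter]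
  · rw [if_neg (fun h => hok h.1), m3_zero i W hP HW U hok]
    simp

/-- The reference mean value as a sum over families. -/
theorem ae_sum (P H : Finset ℕ) (i : Option ℕ) (W : ℕ) (hP : ∀ p ∈ P, p.Prime ∧ W < p)
    (HW : ∀ h ∈ H, h ≤ W) (iH : ∀ h, i = some h → h ∈ H)
    (F : Fam P H → ℝ) (c : Fam P H → ℝ)
    (hc : ∀ S, F S = ∑ U : Fam P H, if ∀ j, U j ⊆ S j then c U else 0) :
    AE P H i F = Am P H i (fun _ _ => True) (hdr i) 1 c := by
  classical
  have hPp : ∀ p ∈ P, p.Prime := fun p hp => (hP p hp).1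
  have hN : AE P H i F = (∑ t ∈ (range (∏ p ∈ P, p)).filter (fun t => ∀ h0, i = some h0 →
      (h0 + 1 * t).Coprime (∏ p ∈ P, p)), F (cfg P H i t)) / (∏ q ∈ P, (m3_n i q : ℝ)) := by
    cases i with
    | none =>
      unfold AE EP m3_n
      simp only [if_true, Nat.cast_prod]
      congr 1
      refine sum_congr ?_ ?_
      · ext t
        simp
      · intro t _
        congr 1
        funext h
        unfold cfg
        rw [if_neg (by simp), one_mul, add_comm]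
    | some h0 =>
      unfold AE EU m3_n
      simp only [reduceCtorEq, if_false]
      congr 1
      · refine sum_congr ?_ (fun _ _ => rfl)
        ext t
        simp
      · have h3 := Nat.totient_mul_prod_primeFactors (∏ p ∈ P, p)
        rw [m3_Pf P hPp] at h3
        have h4 : 0 < ∏ p ∈ P, p := Finset.prod_pos (fun p hp => (hPp p hp).pos)
        have h5 : (∏ p ∈ P, p).totient = ∏ p ∈ P, (p - 1) := by
          rw [mul_comm] at h3
          exact Nat.eq_of_mul_eq_mul_left h4 h3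
        rw [h5, Nat.cast_prod]
  rw [hN]
  unfold Am
  simp only [hc]
  rw [sum_comm, sum_div]
  refine sum_congr rfl (fun U _ => ?_)
  rw [← sum_filter, filter_filter, sum_const, m3_count P H i hPp U, nsmul_eq_mul]
  have h2 := m3_dens i W hP HW iH U
  rw [mul_comm, mul_div_assoc, h2]
  split_ifs
  · rfl
  · rw [mul_zero]

end Pool.Agent.Lib.H57C
end

-- from Lib.H57C.M4
section

/-!
# Chunk M4: perturbation of the main terms
-/

open Finset

namespace Pool.Agent.Lib.H57C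

open Pool.Agent.Lib.H15P Pool.Agent.Lib.H92G Pool.Agent.Lib.H57M

theorem m4_sub {α : Type} [Fintype α] [DecidableEq α] (x : α → ℝ) :
    ∑ T : Finset α, ∏ p ∈ T, x p = ∏ p, (1 + x p) := by
  rw [Finset.prod_one_add, Finset.powerset_univ]

theorem m4_subp {α : Type} [Fintype α] [DecidableEq α] (x : α → ℝ) (hx : ∀ p, 0 ≤ x p) (p0 : α) :
    ∑ T : Finset α, (if p0 ∈ T then ∏ p ∈ T, x p else 0) ≤ x p0 * ∏ p, (1 + x p) := by
  rw [← m4_sub, ← Finset.sum_filter, Finset.mul_sum]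
  calc ∑ T ∈ univ.filter (fun T : Finset α => p0 ∈ T), ∏ p ∈ T, x p
      = ∑ T ∈ univ.filter (fun T : Finset α => p0 ∉ T), x p0 * ∏ p ∈ T, x p := by
        refine Finset.sum_nbij' (fun T => T.erase p0) (fun T => insert p0 T) ?_ ?_ ?_ ?_ ?_
        · intro T _
          simp
        · intro T _
          simp
        · intro T hT
          exact Finset.insert_erase (by simpa using hT)
        · intro T hT
          exact Finset.erase_insert (by simpa using hT)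
        · intro T hT
          exact (Finset.mul_prod_erase T x (by simpa using hT)).symm
    _ ≤ ∑ T : Finset α, x p0 * ∏ p ∈ T, x p := by
        refine Finset.sum_le_sum_of_subset_of_nonneg (Finset.filter_subset _ _) ?_
        intro T _ _
        exact mul_nonneg (hx _) (Finset.prod_nonneg fun p _ => hx p)

theorem m4_fam {ι α : Type} [Fintype ι] [DecidableEq ι] [Fintype α] [DecidableEq α] (x : α → ℝ) :
    ∑ U : ι → Finset α, ∏ h, ∏ p ∈ U h, x p = ∏ _h : ι, ∏ p, (1 + x p) := by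
  simp_rw [← m4_sub x]
  rw [Finset.prod_univ_sum, Fintype.piFinset_univ]

theorem m4_famp {ι α : Type} [Fintype ι] [DecidableEq ι] [Fintype α] [DecidableEq α] (x : α → ℝ)
    (hx : ∀ p, 0 ≤ x p) (h0 : ι) (p0 : α) :
    ∑ U : ι → Finset α, (if p0 ∈ U h0 then ∏ h, ∏ p ∈ U h, x p else 0) ≤
      x p0 * ∏ _h : ι, ∏ p, (1 + x p) := by
  have h1 : ∀ U : ι → Finset α, (if p0 ∈ U h0 then ∏ h, ∏ p ∈ U h, x p else 0) =
      ∏ h, (if h = h0 then (if p0 ∈ U h then ∏ p ∈ U h, x p else 0) else ∏ p ∈ U h, x p) := by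
    intro U
    by_cases hp : p0 ∈ U h0
    · rw [if_pos hp]
      refine Finset.prod_congr rfl fun h _ => ?_
      split_ifs with h2 h3
      · rfl
      · subst h2; exact absurd hp h3
      · rfl
    · rw [if_neg hp]
      symm
      exact Finset.prod_eq_zero (Finset.mem_univ h0) (by simp [hp])
  simp_rw [h1]
  have h2 := (Finset.prod_univ_sum (fun _ : ι => (univ : Finset (Finset α)))
    (fun (h : ι) (T : Finset α) =>
      if h = h0 then (if p0 ∈ T then ∏ p ∈ T, x p else 0) else ∏ p ∈ T, x p)).symm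
  rw [Fintype.piFinset_univ] at h2
  rw [h2]
  have h3 : x p0 * ∏ _h : ι, ∏ p, (1 + x p) =
      ∏ h : ι, (if h = h0 then x p0 * ∏ p, (1 + x p) else ∏ p, (1 + x p)) := by
    rw [← Finset.mul_prod_erase univ _ (Finset.mem_univ h0),
      ← Finset.mul_prod_erase univ (fun h : ι =>
        if h = h0 then x p0 * ∏ p, (1 + x p) else ∏ p, (1 + x p)) (Finset.mem_univ h0), if_pos rfl,
      mul_assoc]
    congr 2
    refine Finset.prod_congr rfl fun h hh => ?_
    rw [if_neg (Finset.ne_of_mem_erase hh)]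
  rw [h3]
  refine Finset.prod_le_prod ?_ ?_
  · intro h _
    refine Finset.sum_nonneg fun T _ => ?_
    have := Finset.prod_nonneg (fun p (_ : p ∈ T) => hx p)
    split_ifs <;> first | exact this | exact le_rfl
  · intro h _
    by_cases hh : h = h0
    · simp only [hh, if_true]
      exact m4_subp x hx p0
    · simp only [if_neg hh]
      exact (m4_sub x).le

theorem m4_pow {P H : Finset ℕ} (e : ℝ) (f : ℕ → ℝ) (U : Fam P H) :
    e ^ (∑ h, (U h).card) * fpr f U = ∏ h, ∏ p ∈ U h, (e * f p.1) := by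
  unfold fpr
  simp_rw [Finset.prod_mul_distrib, Finset.prod_const]
  rw [Finset.prod_pow_eq_pow_sum]

theorem m4_all {P H : Finset ℕ} {K : ℕ} (hK : H.card = K) (g : ℕ → ℝ) :
    ∏ _h : {h // h ∈ H}, ∏ p : {p // p ∈ P}, g p.1 = ∏ p ∈ P, g p ^ K := by
  rw [Finset.prod_const, Finset.card_univ, Fintype.card_coe, hK, Finset.prod_pow,
    Finset.prod_coe_sort P g]

theorem m4_diff {α : Type} [DecidableEq α] (a a' m : α → ℝ) (δ : ℝ) (hδ : 0 ≤ δ)
    (ha : ∀ p, 0 ≤ a p) (ha' : ∀ p, 0 ≤ a' p) (ham : ∀ p, a p ≤ m p) (ham' : ∀ p, a' p ≤ m p)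
    (hd : ∀ p, |a p - a' p| ≤ δ * m p) (T : Finset α) :
    |∏ p ∈ T, a p - ∏ p ∈ T, a' p| ≤ T.card * δ * ∏ p ∈ T, m p := by
  induction T using Finset.induction_on with
  | empty => simp
  | insert p T hp ih =>
    rw [Finset.prod_insert hp, Finset.prod_insert hp, Finset.prod_insert hp,
      Finset.card_insert_of_notMem hp]
    have h1 : a p * ∏ p ∈ T, a p - a' p * ∏ p ∈ T, a' p =
        (a p - a' p) * ∏ p ∈ T, a p + a' p * (∏ p ∈ T, a p - ∏ p ∈ T, a' p) := by ring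
    have hA : ∏ p ∈ T, a p ≤ ∏ p ∈ T, m p := Finset.prod_le_prod (fun p _ => ha p) fun p _ => ham p
    have hA0 : 0 ≤ ∏ p ∈ T, a p := Finset.prod_nonneg fun p _ => ha p
    have hM0 : 0 ≤ ∏ p ∈ T, m p := hA0.trans hA
    have hm0 : 0 ≤ m p := (ha p).trans (ham p)
    calc |a p * ∏ p ∈ T, a p - a' p * ∏ p ∈ T, a' p|
        ≤ |(a p - a' p) * ∏ p ∈ T, a p| + |a' p * (∏ p ∈ T, a p - ∏ p ∈ T, a' p)| := by
          rw [h1]; exact abs_add_le _ _
      _ = |a p - a' p| * ∏ p ∈ T, a p + a' p * |∏ p ∈ T, a p - ∏ p ∈ T, a' p| := by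
          rw [abs_mul, abs_mul, abs_of_nonneg hA0, abs_of_nonneg (ha' p)]
      _ ≤ (δ * m p) * ∏ p ∈ T, m p + m p * (T.card * δ * ∏ p ∈ T, m p) := by
          refine add_le_add (mul_le_mul (hd p) hA hA0 (mul_nonneg hδ hm0))
            (mul_le_mul (ham' p) ih (abs_nonneg _) hm0)
      _ = ((T.card + 1 : ℕ) : ℝ) * δ * (m p * ∏ p ∈ T, m p) := by
          push_cast; ring

theorem m4_two (n : ℕ) : (n : ℝ) ≤ 2 ^ n := by
  exact_mod_cast (Nat.lt_two_pow_self (n := n)).le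

theorem m4_fpr {P H : Finset ℕ} (f : ℕ → ℝ) (U : Fam P H) :
    fpr f U = ∏ x ∈ (univ : Finset {h // h ∈ H}).sigma U, f x.2.1 := by
  unfold fpr
  rw [Finset.prod_sigma]

open Classical in
theorem am_bound (P H : Finset ℕ) (i : Option ℕ) (W K E b : ℕ) (Al : ℕ → ℕ → Prop) (hd : ℕ → ℝ)
    (c : Fam P H → ℝ) (CF Pi0 : ℝ) (hCF : 0 ≤ CF) (hE : 1 ≤ E) (hK : H.card = K) (hK1 : 1 ≤ K)
    (hP : ∀ p ∈ P, p.Prime ∧ W < p) (hW : 1 ≤ W)
    (hd0 : ∀ q : ℕ, q.Prime → 0 ≤ hd q) (hd2 : ∀ q : ℕ, q.Prime → hd q ≤ 2 / q)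
    (hdq : ∀ q : ℕ, q.Prime → W < q → |hd q - 1 / q| ≤ 2 / (q : ℝ) ^ 2)
    (hcb : ∀ U, |c U| ≤ CF * (E : ℝ) ^ (∑ h, (U h).card))
    (hPi : ∏ p ∈ P, (1 + 4 * (E : ℝ) / p) ^ K ≤ Pi0)
    (hb : (P.filter (fun p => ∃ h ∈ H, i ≠ some h ∧ ∃ c : ℕ, p ∣ c + h ∧ ¬ Al p c)).card ≤ b)
    (d : ℕ) (hd1 : 1 ≤ d) :
    |Am P H i Al hd d c| ≤ CF * Pi0 ∧
    |Am P H i Al hd d c - Am P H i (fun _ _ => True) (hdr i) 1 c| ≤
      CF * Pi0 * ((2 * K * E * (b + d.primeFactors.card) + 2) / W) := by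
  have hWr : (1 : ℝ) ≤ W := by exact_mod_cast hW
  have hEr : (1 : ℝ) ≤ E := by exact_mod_cast hE
  have hE0 : (0 : ℝ) ≤ E := by linarith
  -- the densities
  have hp0 : ∀ p : {p // p ∈ P}, (0 : ℝ) < (p.1 : ℝ) := fun p => by
    exact_mod_cast (hP p.1 p.2).1.pos
  have hp2 : ∀ p : {p // p ∈ P}, (2 : ℝ) ≤ (p.1 : ℝ) := fun p => by
    exact_mod_cast (hP p.1 p.2).1.two_le
  have hpW : ∀ p : {p // p ∈ P}, (W : ℝ) ≤ (p.1 : ℝ) := fun p => by
    exact_mod_cast (hP p.1 p.2).2.le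
  have hr0 : ∀ p : {p // p ∈ P}, 0 ≤ hdr i p.1 := fun p => by
    have := hp2 p
    unfold hdr
    split_ifs
    · positivity
    · exact one_div_nonneg.2 (by linarith)
  have hr2 : ∀ p : {p // p ∈ P}, hdr i p.1 ≤ 2 / (p.1 : ℝ) := fun p => by
    have := hp2 p
    unfold hdr
    split_ifs
    · gcongr
      norm_num
    · rw [div_le_div_iff₀ (by linarith) (by linarith)]
      linarith
  have hrd : ∀ p : {p // p ∈ P}, |hd p.1 - hdr i p.1| ≤ (2 / (W : ℝ)) * (2 / (p.1 : ℝ)) := fun p => by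
    have h2 := hp2 p
    have h3 := hpW p
    have h4 := hdq p.1 (hP p.1 p.2).1 (hP p.1 p.2).2
    have h5 : |1 / (p.1 : ℝ) - hdr i p.1| ≤ 2 / (p.1 : ℝ) ^ 2 := by
      unfold hdr
      split_ifs
      · rw [sub_self, abs_zero]; positivity
      · rw [abs_sub_comm, abs_of_nonneg (by
          rw [sub_nonneg]
          exact one_div_le_one_div_of_le (by linarith) (by linarith))]
        rw [div_sub_div _ _ (by linarith) (by linarith), div_le_div_iff₀ (by nlinarith) (by nlinarith)]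
        nlinarith
    calc |hd p.1 - hdr i p.1| ≤ |hd p.1 - 1 / (p.1 : ℝ)| + |1 / (p.1 : ℝ) - hdr i p.1| :=
          abs_sub_le _ _ _
      _ ≤ 2 / (p.1 : ℝ) ^ 2 + 2 / (p.1 : ℝ) ^ 2 := add_le_add h4 h5
      _ = (2 / (p.1 : ℝ)) * (2 / (p.1 : ℝ)) := by ring
      _ ≤ (2 / (W : ℝ)) * (2 / (p.1 : ℝ)) := by
          gcongr
  -- products of densities
  have hf1 : ∀ U : Fam P H, 0 ≤ fpr hd U ∧ fpr hd U ≤ fpr (fun p => 2 / (p : ℝ)) U := fun U => by
    unfold fpr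
    have h1 : ∀ h : {h // h ∈ H}, 0 ≤ ∏ p ∈ U h, hd p.1 := fun h =>
      Finset.prod_nonneg fun p _ => hd0 p.1 (hP p.1 p.2).1
    exact ⟨Finset.prod_nonneg fun h _ => h1 h, Finset.prod_le_prod (fun h _ => h1 h) fun h _ =>
      Finset.prod_le_prod (fun p _ => hd0 p.1 (hP p.1 p.2).1) fun p _ => hd2 p.1 (hP p.1 p.2).1⟩
  have hf2 : ∀ U : Fam P H, 0 ≤ fpr (hdr i) U ∧ fpr (hdr i) U ≤ fpr (fun p => 2 / (p : ℝ)) U :=
    fun U => by
    unfold fpr
    have h1 : ∀ h : {h // h ∈ H}, 0 ≤ ∏ p ∈ U h, hdr i p.1 := fun h =>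
      Finset.prod_nonneg fun p _ => hr0 p
    exact ⟨Finset.prod_nonneg fun h _ => h1 h, Finset.prod_le_prod (fun h _ => h1 h) fun h _ =>
      Finset.prod_le_prod (fun p _ => hr0 p) fun p _ => hr2 p⟩
  have hf0 : ∀ U : Fam P H, 0 ≤ fpr (fun p => 2 / (p : ℝ)) U := fun U => (hf1 U).1.trans (hf1 U).2
  have hf3 : ∀ U : Fam P H, |fpr hd U - fpr (hdr i) U| ≤
      (2 : ℝ) ^ (∑ h, (U h).card) * (2 / (W : ℝ)) * fpr (fun p => 2 / (p : ℝ)) U := fun U => by
    have h1 := m4_diff (fun x : (_ : {h // h ∈ H}) × {p // p ∈ P} => hd x.2.1)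
      (fun x => hdr i x.2.1) (fun x => 2 / (x.2.1 : ℝ)) (2 / (W : ℝ)) (by positivity)
      (fun x => hd0 _ (hP _ x.2.2).1) (fun x => hr0 x.2) (fun x => hd2 _ (hP _ x.2.2).1)
      (fun x => hr2 x.2) (fun x => hrd x.2) ((univ : Finset {h // h ∈ H}).sigma U)
    rw [m4_fpr, m4_fpr, m4_fpr]
    rw [Finset.card_sigma] at h1
    refine h1.trans ?_
    have h2 : 0 ≤ ∏ x ∈ (univ : Finset {h // h ∈ H}).sigma U, (2 / (x.2.1 : ℝ)) :=
      Finset.prod_nonneg fun x _ => by positivity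
    refine mul_le_mul_of_nonneg_right (mul_le_mul_of_nonneg_right (m4_two _) (by positivity)) h2
  -- the total sums
  have hS2 : ∑ U : Fam P H, (E : ℝ) ^ (∑ h, (U h).card) * fpr (fun p => 2 / (p : ℝ)) U ≤ Pi0 := by
    simp_rw [m4_pow]
    rw [m4_fam (fun p : {p // p ∈ P} => (E : ℝ) * (2 / (p.1 : ℝ))),
      m4_all hK (fun p => 1 + (E : ℝ) * (2 / (p : ℝ)))]
    refine le_trans (Finset.prod_le_prod (fun p _ => by positivity) fun p _ => ?_) hPi
    refine pow_le_pow_left₀ (by positivity) ?_ K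
    have : (E : ℝ) * (2 / (p : ℝ)) ≤ 4 * (E : ℝ) / p := by
      rw [← mul_div_assoc]
      gcongr ?_ / _
      linarith
    linarith
  have hS4 : ∑ U : Fam P H, ((2 * E : ℝ)) ^ (∑ h, (U h).card) * fpr (fun p => 2 / (p : ℝ)) U ≤
      Pi0 := by
    simp_rw [m4_pow]
    rw [m4_fam (fun p : {p // p ∈ P} => (2 * E : ℝ) * (2 / (p.1 : ℝ))),
      m4_all hK (fun p => 1 + (2 * E : ℝ) * (2 / (p : ℝ)))]
    refine le_trans (le_of_eq ?_) hPi
    refine Finset.prod_congr rfl fun p _ => ?_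
    ring
  have hPi0 : 0 ≤ Pi0 := le_trans (Finset.prod_nonneg fun p _ => by positivity) hPi
  refine ⟨?_, ?_⟩
  · unfold Am
    refine (Finset.abs_sum_le_sum_abs _ _).trans ?_
    refine le_trans (Finset.sum_le_sum fun U _ => ?_)
      (le_trans (Finset.mul_sum univ (fun U : Fam P H =>
        (E : ℝ) ^ (∑ h, (U h).card) * fpr (fun p => 2 / (p : ℝ)) U) CF).symm.le
        (mul_le_mul_of_nonneg_left hS2 hCF))
    have hnn : 0 ≤ CF * ((E : ℝ) ^ (∑ h, (U h).card) * fpr (fun p => 2 / (p : ℝ)) U) :=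
      mul_nonneg hCF (mul_nonneg (by positivity) (hf0 U))
    split_ifs
    · rw [abs_mul, abs_of_nonneg (hf1 U).1, ← mul_assoc]
      exact mul_le_mul (hcb U) (hf1 U).2 (hf1 U).1 (mul_nonneg hCF (by positivity))
    · rw [abs_zero]; exact hnn
  · -- the bad primes
    set Bd : Finset {p // p ∈ P} := univ.filter (fun p => p.1 ∈ d.primeFactors ∨
      p.1 ∈ P.filter (fun p => ∃ h ∈ H, i ≠ some h ∧ ∃ c : ℕ, p ∣ c + h ∧ ¬ Al p c)) with hBd
    have hBc : (Bd.card : ℝ) ≤ b + d.primeFactors.card := by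
      have h1 : Bd.card ≤ (d.primeFactors ∪
          P.filter (fun p => ∃ h ∈ H, i ≠ some h ∧ ∃ c : ℕ, p ∣ c + h ∧ ¬ Al p c)).card := by
        refine Finset.card_le_card_of_injOn (fun p => p.1) ?_ ?_
        · intro p hp
          have := (Finset.mem_filter.1 (Finset.mem_coe.1 hp)).2
          exact Finset.mem_coe.2 (Finset.mem_union.2 this)
        · intro p _ p' _ h
          exact Subtype.ext h
      have h2 := Finset.card_union_le d.primeFactors
        (P.filter (fun p => ∃ h ∈ H, i ≠ some h ∧ ∃ c : ℕ, p ∣ c + h ∧ ¬ Al p c))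
      have h3 : Bd.card ≤ b + d.primeFactors.card := by omega
      exact_mod_cast h3
    have hterm : ∀ U : Fam P H,
        |(if okA P H i U ∧ okB P H Al d U then c U * fpr hd U else 0) -
          (if okA P H i U ∧ okB P H (fun _ _ => True) 1 U then c U * fpr (hdr i) U else 0)| ≤
        CF * ((2 / (W : ℝ)) * ((2 * E : ℝ) ^ (∑ h, (U h).card) * fpr (fun p => 2 / (p : ℝ)) U)) +
        CF * ∑ p ∈ Bd, ∑ h : {h // h ∈ H}, (if p ∈ U h then
          (E : ℝ) ^ (∑ h, (U h).card) * fpr (fun p => 2 / (p : ℝ)) U else 0) := by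
      intro U
      have hB1 : okB P H (fun _ _ => True) 1 U :=
        ⟨fun h p _ hdv => (hP p.1 p.2).1.one_lt.ne' (Nat.dvd_one.1 hdv), fun _ _ _ _ _ => trivial⟩
      have hnn1 : 0 ≤ CF * ((2 / (W : ℝ)) * ((2 * E : ℝ) ^ (∑ h, (U h).card) *
          fpr (fun p => 2 / (p : ℝ)) U)) :=
        mul_nonneg hCF (mul_nonneg (by positivity) (mul_nonneg (by positivity) (hf0 U)))
      have hnn3 : 0 ≤ (E : ℝ) ^ (∑ h, (U h).card) * fpr (fun p => 2 / (p : ℝ)) U :=
        mul_nonneg (by positivity) (hf0 U)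
      have hnn4 : ∀ p ∈ Bd, 0 ≤ ∑ h : {h // h ∈ H}, (if p ∈ U h then
          (E : ℝ) ^ (∑ h, (U h).card) * fpr (fun p => 2 / (p : ℝ)) U else 0) := fun p _ =>
        Finset.sum_nonneg fun h _ => by split_ifs <;> first | exact hnn3 | exact le_rfl
      have hnn2 : 0 ≤ CF * ∑ p ∈ Bd, ∑ h : {h // h ∈ H}, (if p ∈ U h then
          (E : ℝ) ^ (∑ h, (U h).card) * fpr (fun p => 2 / (p : ℝ)) U else 0) :=
        mul_nonneg hCF (Finset.sum_nonneg hnn4)
      by_cases hA : okA P H i U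
      · by_cases hB : okB P H Al d U
        · rw [if_pos ⟨hA, hB⟩, if_pos ⟨hA, hB1⟩, ← mul_sub, abs_mul]
          refine le_trans ?_ (le_add_of_nonneg_right hnn2)
          calc |c U| * |fpr hd U - fpr (hdr i) U|
              ≤ (CF * (E : ℝ) ^ (∑ h, (U h).card)) *
                ((2 : ℝ) ^ (∑ h, (U h).card) * (2 / (W : ℝ)) * fpr (fun p => 2 / (p : ℝ)) U) :=
                mul_le_mul (hcb U) (hf3 U) (abs_nonneg _) (mul_nonneg hCF (by positivity))
            _ = _ := by rw [mul_pow]; ring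
        · rw [if_neg (fun h => hB h.2), if_pos ⟨hA, hB1⟩, zero_sub, abs_neg, abs_mul,
            abs_of_nonneg (hf2 U).1]
          refine le_trans ?_ (le_add_of_nonneg_left hnn1)
          -- find the bad prime
          have hex : ∃ p ∈ Bd, ∃ h : {h // h ∈ H}, p ∈ U h := by
            unfold okB at hB
            by_cases hB2 : ∀ h, ∀ p ∈ U h, ¬ p.1 ∣ d
            · have hB3 : ¬ ∀ h, ∀ p ∈ U h, ∀ c : ℕ, p.1 ∣ c + h.1 → Al p.1 c := fun h => hB ⟨hB2, h⟩
              push Not at hB3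
              obtain ⟨h, p, hp, c', hc', hc2⟩ := hB3
              refine ⟨p, ?_, h, hp⟩
              rw [hBd, Finset.mem_filter]
              refine ⟨Finset.mem_univ _, Or.inr (Finset.mem_filter.2 ⟨p.2, h.1, h.2, ?_, c', hc', hc2⟩)⟩
              intro hi
              have := hA.1 h hi
              rw [this] at hp
              exact absurd hp (Finset.notMem_empty _)
            · push Not at hB2
              obtain ⟨h, p, hp, hpd⟩ := hB2
              refine ⟨p, ?_, h, hp⟩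
              rw [hBd, Finset.mem_filter]
              exact ⟨Finset.mem_univ _, Or.inl (Nat.mem_primeFactors.2
                ⟨(hP p.1 p.2).1, hpd, by omega⟩)⟩
          obtain ⟨p, hp, h, hph⟩ := hex
          calc |c U| * fpr (hdr i) U
              ≤ (CF * (E : ℝ) ^ (∑ h, (U h).card)) * fpr (fun p => 2 / (p : ℝ)) U :=
                mul_le_mul (hcb U) (hf2 U).2 (hf2 U).1 (mul_nonneg hCF (by positivity))
            _ = CF * ((E : ℝ) ^ (∑ h, (U h).card) * fpr (fun p => 2 / (p : ℝ)) U) := by ring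
            _ ≤ _ := by
                refine mul_le_mul_of_nonneg_left ?_ hCF
                refine le_trans ?_ (Finset.single_le_sum hnn4 hp)
                refine le_trans (le_of_eq (if_pos hph).symm)
                  (Finset.single_le_sum (f := fun h : {h // h ∈ H} => if p ∈ U h then
                    (E : ℝ) ^ (∑ h, (U h).card) * fpr (fun p => 2 / (p : ℝ)) U else 0)
                    (fun h _ => ?_) (Finset.mem_univ h))
                split_ifs <;> first | exact hnn3 | exact le_rfl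
      · rw [if_neg (fun h => hA h.1), if_neg (fun h => hA h.1), sub_zero, abs_zero]
        exact add_nonneg hnn1 hnn2
    have hbad : ∑ U : Fam P H, ∑ p ∈ Bd, ∑ h : {h // h ∈ H}, (if p ∈ U h then
          (E : ℝ) ^ (∑ h, (U h).card) * fpr (fun p => 2 / (p : ℝ)) U else 0) ≤
        ((b + d.primeFactors.card : ℝ)) * (K * (((2 * E : ℝ) / W) * Pi0)) := by
      rw [Finset.sum_comm]
      have h1 : ∀ p ∈ Bd, ∑ U : Fam P H, ∑ h : {h // h ∈ H}, (if p ∈ U h then
          (E : ℝ) ^ (∑ h, (U h).card) * fpr (fun p => 2 / (p : ℝ)) U else 0) ≤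
          K * (((2 * E : ℝ) / W) * Pi0) := by
        intro p _
        rw [Finset.sum_comm]
        have h2 : ∀ h : {h // h ∈ H}, ∑ U : Fam P H, (if p ∈ U h then
            (E : ℝ) ^ (∑ h, (U h).card) * fpr (fun p => 2 / (p : ℝ)) U else 0) ≤
            ((2 * E : ℝ) / W) * Pi0 := by
          intro h
          simp_rw [m4_pow]
          refine (m4_famp (fun p : {p // p ∈ P} => (E : ℝ) * (2 / (p.1 : ℝ)))
            (fun p => by positivity) h p).trans ?_
          have h3 : ∏ _h : {h // h ∈ H}, ∏ p : {p // p ∈ P}, (1 + (E : ℝ) * (2 / (p.1 : ℝ))) ≤ Pi0 := by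
            refine le_trans (le_of_eq ?_) hS2
            simp_rw [m4_pow]
            rw [m4_fam (fun p : {p // p ∈ P} => (E : ℝ) * (2 / (p.1 : ℝ)))]
          refine mul_le_mul ?_ h3 (Finset.prod_nonneg fun h _ => Finset.prod_nonneg fun p _ => by
            positivity) (by positivity)
          have := hpW p
          rw [← mul_div_assoc, mul_comm (E : ℝ) 2]
          gcongr
        calc ∑ h : {h // h ∈ H}, ∑ U : Fam P H, (if p ∈ U h then
              (E : ℝ) ^ (∑ h, (U h).card) * fpr (fun p => 2 / (p : ℝ)) U else 0)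
            ≤ ∑ _h : {h // h ∈ H}, ((2 * E : ℝ) / W) * Pi0 := Finset.sum_le_sum fun h _ => h2 h
          _ = K * (((2 * E : ℝ) / W) * Pi0) := by
              rw [Finset.sum_const, Finset.card_univ, Fintype.card_coe, hK, nsmul_eq_mul]
      calc _ ≤ ∑ _p ∈ Bd, (K * (((2 * E : ℝ) / W) * Pi0)) := Finset.sum_le_sum h1
        _ = Bd.card * (K * (((2 * E : ℝ) / W) * Pi0)) := by rw [Finset.sum_const, nsmul_eq_mul]
        _ ≤ _ := mul_le_mul_of_nonneg_right hBc
            (mul_nonneg (by positivity) (mul_nonneg (by positivity) hPi0))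
    unfold Am
    rw [← Finset.sum_sub_distrib]
    refine (Finset.abs_sum_le_sum_abs _ _).trans ?_
    refine (Finset.sum_le_sum fun U _ => hterm U).trans ?_
    rw [Finset.sum_add_distrib, ← Finset.mul_sum, ← Finset.mul_sum, ← Finset.mul_sum]
    calc _ ≤ CF * ((2 / (W : ℝ)) * Pi0) +
          CF * (((b + d.primeFactors.card : ℝ)) * (K * (((2 * E : ℝ) / W) * Pi0))) := by
          refine add_le_add (mul_le_mul_of_nonneg_left
            (mul_le_mul_of_nonneg_left hS4 (by positivity)) hCF)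
            (mul_le_mul_of_nonneg_left hbad hCF)
      _ = CF * Pi0 * ((2 * K * E * (b + d.primeFactors.card) + 2) / W) := by
          field_simp
          ring

end Pool.Agent.Lib.H57C
end

-- from Lib.H57C.RM
section

/-!
# Chunk RM: classes and second moment
-/

open Finset

namespace Pool.Agent.Lib.H57C

open Pool.Agent.Lib.H57M

theorem rm_gcd {ι : Type*} [DecidableEq ι] (r : ℕ) (hr : 1 ≤ r) (X : Finset ι) (p : ι → ℕ)
    (hp : ∀ x ∈ X, (p x).Prime) :
    Nat.gcd r (∏ x ∈ X, p x) ≤ ∏ x ∈ X, (if p x ∣ r then p x else 1) := by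
  induction X using Finset.induction_on with
  | empty => simp
  | insert x X hx ih =>
    have hpx := hp x (mem_insert_self _ _)
    have ih' := ih (fun y hy => hp y (mem_insert_of_mem hy))
    rw [prod_insert hx, prod_insert hx]
    have h1 : Nat.gcd r (p x * ∏ x ∈ X, p x) ≤ Nat.gcd r (p x) * Nat.gcd r (∏ x ∈ X, p x) :=
      Nat.le_of_dvd (Nat.mul_pos (Nat.gcd_pos_of_pos_left _ hr) (Nat.gcd_pos_of_pos_left _ hr))
        (Nat.gcd_mul_right_dvd_mul_gcd r _ _)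
    have h2 : Nat.gcd r (p x) ≤ if p x ∣ r then p x else 1 := by
      split_ifs with h
      · exact Nat.gcd_le_right _ hpx.pos
      · have h3 : Nat.Coprime r (p x) := by
          rw [Nat.coprime_comm]
          exact (hpx.coprime_iff_not_dvd).2 h
        exact h3.le
    exact h1.trans (Nat.mul_le_mul h2 ih')

theorem rm_count {ι : Type*} [DecidableEq ι] (X : Finset ι) (p v : ι → ℕ)
    (hp : ∀ x ∈ X, (p x).Prime) (hinj : ∀ x ∈ X, ∀ y ∈ X, p x = p y → x = y)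
    (r c a b : ℕ) (hr : 1 ≤ r) (hab : a ≤ b) (S : Finset ℕ)
    (hS : ∀ t ∈ S, t ∈ Ioc a b ∧ t ≡ c [MOD r] ∧ ∀ x ∈ X, p x ∣ t + v x) : (S.card : ℝ) ≤
      ((b : ℝ) - a) / r * ∏ x ∈ X, ((if p x ∣ r then (p x : ℝ) else 1) / p x) + 1 := by
  have hba : (0 : ℝ) ≤ (b : ℝ) - a := by
    have : (a : ℝ) ≤ b := by exact_mod_cast hab
    linarith
  have hr' : (0 : ℝ) < r := by exact_mod_cast hr
  have hprod0 : 0 ≤ ∏ x ∈ X, ((if p x ∣ r then (p x : ℝ) else 1) / p x) :=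
    prod_nonneg fun x hx => by split_ifs <;> positivity
  rcases S.eq_empty_or_nonempty with he | ⟨t0, ht0⟩
  · rw [he, card_empty, Nat.cast_zero]
    positivity
  · obtain ⟨-, h0c, h0x⟩ := hS t0 ht0
    have hPpos : 0 < ∏ x ∈ X, p x := prod_pos fun x hx => (hp x hx).pos
    have hMpos : 0 < Nat.lcm r (∏ x ∈ X, p x) := Nat.lcm_pos hr hPpos
    have hsub : S ⊆ (Ioc a b).filter (fun t => t ≡ t0 [MOD Nat.lcm r (∏ x ∈ X, p x)]) := by
      intro t ht'
      have ht := hS t ht'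
      rw [mem_filter]
      refine ⟨ht.1, ?_⟩
      have h1 : t ≡ t0 [MOD r] := ht.2.1.trans h0c.symm
      have h2 : ∀ x ∈ X, t ≡ t0 [MOD p x] := by
        intro x hx
        have e1 : t + v x ≡ t0 + v x [MOD p x] := by
          rw [Nat.ModEq, Nat.mod_eq_zero_of_dvd (ht.2.2 x hx), Nat.mod_eq_zero_of_dvd (h0x x hx)]
        exact Nat.ModEq.add_right_cancel' _ e1
      rw [Nat.modEq_iff_dvd] at h1 ⊢
      have h3 : ((∏ x ∈ X, p x : ℕ) : ℤ) ∣ (t0 : ℤ) - t := by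
        rw [Nat.cast_prod]
        refine Finset.prod_dvd_of_coprime ?_ ?_
        · intro x hx y hy hne
          have h4 : p x ≠ p y := fun h => hne (hinj x hx y hy h)
          have h5 : Nat.Coprime (p x) (p y) := (Nat.coprime_primes (hp x hx) (hp y hy)).2 h4
          exact Nat.Coprime.isCoprime h5
        · intro x hx
          exact Nat.modEq_iff_dvd.1 (h2 x hx)
      rw [Int.natCast_dvd] at h1 h3 ⊢
      exact Nat.lcm_dvd h1 h3
    have h1 := (abs_le.1 (v5_count a b _ t0 hMpos hab)).2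
    have h2 : (S.card : ℝ) ≤
        (((Ioc a b).filter (fun t => t ≡ t0 [MOD Nat.lcm r (∏ x ∈ X, p x)])).card : ℝ) := by
      exact_mod_cast card_le_card hsub
    have hPr : (0 : ℝ) < ((∏ x ∈ X, p x : ℕ) : ℝ) := by exact_mod_cast hPpos
    have hMr : (0 : ℝ) < (Nat.lcm r (∏ x ∈ X, p x) : ℝ) := by exact_mod_cast hMpos
    have h3 : (Nat.gcd r (∏ x ∈ X, p x) : ℝ) * (Nat.lcm r (∏ x ∈ X, p x) : ℝ) =
        r * ((∏ x ∈ X, p x : ℕ) : ℝ) := by exact_mod_cast Nat.gcd_mul_lcm r (∏ x ∈ X, p x)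
    have h4 : (Nat.gcd r (∏ x ∈ X, p x) : ℝ) ≤ ∏ x ∈ X, (if p x ∣ r then (p x : ℝ) else 1) := by
      have := rm_gcd r hr X p hp
      have h5 : ((∏ x ∈ X, (if p x ∣ r then p x else 1) : ℕ) : ℝ) =
          ∏ x ∈ X, (if p x ∣ r then (p x : ℝ) else 1) := by
        rw [Nat.cast_prod]
        refine prod_congr rfl fun x _ => ?_
        split_ifs <;> simp
      rw [← h5]
      exact_mod_cast this
    have h5 : ((b : ℝ) - a) / (Nat.lcm r (∏ x ∈ X, p x) : ℝ) ≤
        ((b : ℝ) - a) / r * ∏ x ∈ X, ((if p x ∣ r then (p x : ℝ) else 1) / p x) := by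
      rw [prod_div_distrib]
      have e : (1 : ℝ) / (Nat.lcm r (∏ x ∈ X, p x) : ℝ) ≤
          1 / r * ((∏ x ∈ X, (if p x ∣ r then (p x : ℝ) else 1)) / ∏ x ∈ X, (p x : ℝ)) := by
        rw [Nat.cast_prod] at h3 hPr
        rw [← mul_div_assoc, div_mul_eq_mul_div, one_mul, div_div, div_le_div_iff₀ hMr (by positivity),
          one_mul, ← h3]
        exact mul_le_mul_of_nonneg_right h4 hMr.le
      calc ((b : ℝ) - a) / (Nat.lcm r (∏ x ∈ X, p x) : ℝ) =
            ((b : ℝ) - a) * (1 / (Nat.lcm r (∏ x ∈ X, p x) : ℝ)) := by ring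
        _ ≤ ((b : ℝ) - a) * (1 / r * ((∏ x ∈ X, (if p x ∣ r then (p x : ℝ) else 1)) /
              ∏ x ∈ X, (p x : ℝ))) := mul_le_mul_of_nonneg_left e hba
        _ = _ := by ring
    linarith

theorem rm_fam {P H : Finset ℕ} {W : ℕ} (hP : ∀ p ∈ P, p.Prime ∧ W < p) (HW : ∀ h ∈ H, h ≤ W)
    (i : Option ℕ) (U : Fam P H) (r c a b : ℕ) (hr : 1 ≤ r) (hab : a ≤ b) :
    (((Ioc a b).filter (fun t => t ≡ c [MOD r] ∧ ∀ j, U j ⊆ cfg P H i t j)).card : ℝ) ≤
      ((b : ℝ) - a) / r * fpr (fun p => (if p ∣ r then (p : ℝ) else 1) / p) U + 1 := by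
  classical
  have hba : (0 : ℝ) ≤ (b : ℝ) - a := by
    have : (a : ℝ) ≤ b := by exact_mod_cast hab
    linarith
  rw [m4_fpr]
  have hsub : ∀ t, (∀ j, U j ⊆ cfg P H i t j) → ∀ x ∈ (univ : Finset {h // h ∈ H}).sigma U,
      x.2.1 ∣ t + x.1.1 := by
    intro t ht x hx
    have h1 := ht x.1 (mem_sigma.1 hx).2
    unfold cfg at h1
    split_ifs at h1 with h2
    · exact absurd h1 (by simp)
    · exact (mem_filter.1 h1).2
  by_cases hinj : ∀ x ∈ (univ : Finset {h // h ∈ H}).sigma U, ∀ y ∈ (univ : Finset {h // h ∈ H}).sigma U,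
      x.2.1 = y.2.1 → x = y
  · refine rm_count ((univ : Finset {h // h ∈ H}).sigma U) (fun x => x.2.1) (fun x => x.1.1)
      (fun x _ => (hP _ x.2.2).1) hinj r c a b hr hab _ ?_
    intro t ht
    rw [mem_filter] at ht
    exact ⟨ht.1, ht.2.1, hsub t ht.2.2⟩
  · push Not at hinj
    obtain ⟨x, hx, y, hy, hxy, hne⟩ := hinj
    have he : (Ioc a b).filter (fun t => t ≡ c [MOD r] ∧ ∀ j, U j ⊆ cfg P H i t j) = ∅ := by
      rw [filter_eq_empty_iff]
      rintro t - ⟨-, ht⟩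
      have h1 := hsub t ht x hx
      have h2 := hsub t ht y hy
      rw [← hxy] at h2
      apply hne
      have hpx := (hP _ x.2.2)
      have h3 : x.1.1 ≡ y.1.1 [MOD x.2.1] := by
        have e1 : t + x.1.1 ≡ t + y.1.1 [MOD x.2.1] := by
          rw [Nat.ModEq, Nat.mod_eq_zero_of_dvd h1, Nat.mod_eq_zero_of_dvd h2]
        exact Nat.ModEq.add_left_cancel' _ e1
      have h4 : x.1.1 = y.1.1 := Nat.ModEq.eq_of_lt_of_lt h3
        (lt_of_le_of_lt (HW _ x.1.2) hpx.2) (lt_of_le_of_lt (HW _ y.1.2) hpx.2)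
      have h5 : x.1 = y.1 := Subtype.ext h4
      have h6 : x.2 = y.2 := Subtype.ext hxy
      cases x
      cases y
      simp only at h5 h6
      rw [h5, h6]
    rw [he, card_empty, Nat.cast_zero]
    have : 0 ≤ ∏ x ∈ (univ : Finset {h // h ∈ H}).sigma U,
        ((if x.2.1 ∣ r then (x.2.1 : ℝ) else 1) / x.2.1) :=
      prod_nonneg fun x hx => by split_ifs <;> positivity
    positivity

/-- one prime of `P` may divide `r` -/
theorem rm_one {P : Finset ℕ} (hP : ∀ p ∈ P, p.Prime) (K r : ℕ)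
    (h1 : ∀ p ∈ P, ∀ q ∈ P, p ∣ r → q ∣ r → p = q) :
    ∏ p ∈ P, (1 + 3 * ((if p ∣ r then (p : ℝ) else 1) / p)) ^ K ≤
      4 ^ K * ∏ p ∈ P, (1 + 3 / (p : ℝ)) ^ K := by
  classical
  rw [Finset.prod_pow, Finset.prod_pow, ← mul_pow]
  refine pow_le_pow_left₀ (prod_nonneg fun p _ => by split_ifs <;> positivity) ?_ K
  by_cases h : ∃ q ∈ P, q ∣ r
  · obtain ⟨q, hq, hqr⟩ := h
    rw [← mul_prod_erase P _ hq, ← mul_prod_erase P (fun p => (1 + 3 / (p : ℝ))) hq, if_pos hqr]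
    have hq0 : (q : ℝ) ≠ 0 := by exact_mod_cast (hP q hq).pos.ne'
    have e : ∏ p ∈ P.erase q, (1 + 3 * ((if p ∣ r then (p : ℝ) else 1) / p)) =
        ∏ p ∈ P.erase q, (1 + 3 / (p : ℝ)) := by
      refine prod_congr rfl fun p hp => ?_
      rw [mem_erase] at hp
      rw [if_neg (fun hpr => hp.1 (h1 p hp.2 q hq hpr hqr))]
      ring
    rw [e, div_self hq0]
    have h3 : 0 ≤ ∏ p ∈ P.erase q, (1 + 3 / (p : ℝ)) := prod_nonneg fun p _ => by positivity
    have h4 : (1 : ℝ) ≤ 1 + 3 / (q : ℝ) := by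
      have : 0 ≤ 3 / (q : ℝ) := by positivity
      linarith
    nlinarith
  · push Not at h
    have e : ∏ p ∈ P, (1 + 3 * ((if p ∣ r then (p : ℝ) else 1) / p)) = ∏ p ∈ P, (1 + 3 / (p : ℝ)) := by
      refine prod_congr rfl fun p hp => ?_
      rw [if_neg (h p hp)]
      ring
    rw [e]
    have h3 : 0 ≤ ∏ p ∈ P, (1 + 3 / (p : ℝ)) := prod_nonneg fun p _ => by positivity
    linarith

theorem rm_total {P H : Finset ℕ} {W K : ℕ} (hK : H.card = K) (hP : ∀ p ∈ P, p.Prime ∧ W < p)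
    (HW : ∀ h ∈ H, h ≤ W) (i : Option ℕ) (F c : Fam P H → ℝ)
    (hF : ∀ S, F S = ∑ U : Fam P H, if ∀ j, U j ⊆ S j then c U else 0) (CF D : ℝ) (hCF : 0 ≤ CF)
    (hD0 : 0 ≤ D) (hc : ∀ U : Fam P H, |c U| ≤ CF * (3 : ℝ) ^ (∑ h, (U h).card))
    (hD : ∀ U, c U ≠ 0 → ∏ h, ∏ p ∈ U h, (p.1 : ℝ) ≤ D) (r c0 a b : ℕ) (hr : 1 ≤ r) (hab : a ≤ b)
    (M0 : ℝ) (hM : ∏ p ∈ P, (1 + 3 / (p : ℝ)) ^ K ≤ M0)
    (h1 : ∀ p ∈ P, ∀ q ∈ P, p ∣ r → q ∣ r → p = q) :
    ∑ t ∈ (Ioc a b).filter (fun t => t ≡ c0 [MOD r]), F (cfg P H i t) ≤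
      CF * M0 * (4 ^ K * (((b : ℝ) - a) / r) + D) := by
  classical
  have hPp : ∀ p ∈ P, p.Prime := fun p hp => (hP p hp).1
  have hba : (0 : ℝ) ≤ (b : ℝ) - a := by
    have : (a : ℝ) ≤ b := by exact_mod_cast hab
    linarith
  have hr' : (0 : ℝ) < r := by exact_mod_cast hr
  have hM0 : 0 ≤ M0 := (prod_nonneg fun p _ => by positivity).trans hM
  have e1 : ∑ t ∈ (Ioc a b).filter (fun t => t ≡ c0 [MOD r]), F (cfg P H i t) =
      ∑ U : Fam P H, c U *
        (((Ioc a b).filter (fun t => t ≡ c0 [MOD r] ∧ ∀ j, U j ⊆ cfg P H i t j)).card : ℝ) := by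
    simp only [hF]
    rw [sum_comm]
    refine sum_congr rfl fun U _ => ?_
    rw [← sum_filter, filter_filter, sum_const, nsmul_eq_mul, mul_comm]
  rw [e1]
  have e2 : ∀ U : Fam P H, c U *
      (((Ioc a b).filter (fun t => t ≡ c0 [MOD r] ∧ ∀ j, U j ⊆ cfg P H i t j)).card : ℝ) ≤
      CF * (((b : ℝ) - a) / r) * (∏ h, ∏ p ∈ U h, (3 * ((if p.1 ∣ r then (p.1 : ℝ) else 1) / p.1))) +
        CF * D * (∏ h, ∏ p ∈ U h, (3 * (1 / (p.1 : ℝ)))) := by
    intro U
    have hf := rm_fam hP HW i U r c0 a b hr hab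
    have p1 : (3 : ℝ) ^ (∑ h, (U h).card) * fpr (fun p => (if p ∣ r then (p : ℝ) else 1) / p) U =
        ∏ h, ∏ p ∈ U h, (3 * ((if p.1 ∣ r then (p.1 : ℝ) else 1) / p.1)) := m4_pow 3 _ U
    have p2 : (3 : ℝ) ^ (∑ h, (U h).card) * fpr (fun p => 1 / (p : ℝ)) U =
        ∏ h, ∏ p ∈ U h, (3 * (1 / (p.1 : ℝ))) := m4_pow 3 _ U
    rw [← p1, ← p2]
    have n1 : 0 ≤ fpr (fun p => (if p ∣ r then (p : ℝ) else 1) / p) U := by
      unfold fpr
      exact prod_nonneg fun h _ => prod_nonneg fun p _ => by dsimp only; split_ifs <;> positivity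
    have n2 : 0 ≤ fpr (fun p => 1 / (p : ℝ)) U := by
      unfold fpr
      exact prod_nonneg fun h _ => prod_nonneg fun p _ => by positivity
    have n3 : (0 : ℝ) ≤ (3 : ℝ) ^ (∑ h, (U h).card) := by positivity
    by_cases hcU : c U = 0
    · rw [hcU, zero_mul]
      positivity
    · have hDU := hD U hcU
      have hpos : 0 < ∏ h, ∏ p ∈ U h, (p.1 : ℝ) := prod_pos fun h _ => prod_pos fun p _ => by
        exact_mod_cast (hPp p.1 p.2).pos
      have h2 : fpr (fun p => 1 / (p : ℝ)) U = 1 / ∏ h, ∏ p ∈ U h, (p.1 : ℝ) := by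
        unfold fpr
        simp only [one_div, prod_inv_distrib]
      have h3 : 1 ≤ D * fpr (fun p => 1 / (p : ℝ)) U := by
        rw [h2, mul_one_div, le_div_iff₀ hpos, one_mul]
        exact hDU
      calc c U * (((Ioc a b).filter (fun t => t ≡ c0 [MOD r] ∧ ∀ j, U j ⊆ cfg P H i t j)).card : ℝ)
          ≤ |c U| * (((Ioc a b).filter (fun t => t ≡ c0 [MOD r] ∧ ∀ j, U j ⊆ cfg P H i t j)).card : ℝ) :=
            mul_le_mul_of_nonneg_right (le_abs_self _) (Nat.cast_nonneg _)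
        _ ≤ (CF * (3 : ℝ) ^ (∑ h, (U h).card)) *
            (((b : ℝ) - a) / r * fpr (fun p => (if p ∣ r then (p : ℝ) else 1) / p) U +
              D * fpr (fun p => 1 / (p : ℝ)) U) :=
            mul_le_mul (hc U) (hf.trans (by linarith)) (Nat.cast_nonneg _) (by positivity)
        _ = _ := by ring
  refine (sum_le_sum fun U _ => e2 U).trans ?_
  rw [sum_add_distrib, ← mul_sum, ← mul_sum]
  have s1 : ∑ U : Fam P H, ∏ h, ∏ p ∈ U h, (3 * ((if p.1 ∣ r then (p.1 : ℝ) else 1) / p.1)) ≤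
      4 ^ K * M0 := by
    rw [m4_fam (fun p : {p // p ∈ P} => 3 * ((if p.1 ∣ r then (p.1 : ℝ) else 1) / p.1)),
      m4_all hK (fun p => 1 + 3 * ((if p ∣ r then (p : ℝ) else 1) / p))]
    exact (rm_one hPp K r h1).trans (mul_le_mul_of_nonneg_left hM (by positivity))
  have s2 : ∑ U : Fam P H, ∏ h, ∏ p ∈ U h, (3 * (1 / (p.1 : ℝ))) ≤ M0 := by
    rw [m4_fam (fun p : {p // p ∈ P} => 3 * (1 / (p.1 : ℝ))),
      m4_all hK (fun p => 1 + 3 * (1 / (p : ℝ)))]
    refine le_trans (le_of_eq ?_) hM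
    refine prod_congr rfl fun p _ => ?_
    ring
  have t1 : 0 ≤ CF * (((b : ℝ) - a) / r) := by positivity
  have t2 : 0 ≤ CF * D := by positivity
  calc CF * (((b : ℝ) - a) / r) * ∑ U : Fam P H, ∏ h, ∏ p ∈ U h,
        (3 * ((if p.1 ∣ r then (p.1 : ℝ) else 1) / p.1)) +
        CF * D * ∑ U : Fam P H, ∏ h, ∏ p ∈ U h, (3 * (1 / (p.1 : ℝ)))
      ≤ CF * (((b : ℝ) - a) / r) * (4 ^ K * M0) + CF * D * M0 :=
        add_le_add (mul_le_mul_of_nonneg_left s1 t1) (mul_le_mul_of_nonneg_left s2 t2)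
    _ = _ := by ring

theorem rm_mert {P : Finset ℕ} {W N : ℕ} (K : ℕ) (hP : ∀ p ∈ P, p.Prime ∧ W < p) (hW : 2 ≤ W)
    (hN : ∀ p ∈ P, p ≤ N) (h2N : 2 ≤ N) :
    ∏ p ∈ P, (1 + 3 / (p : ℝ)) ^ K ≤ (500 * (Real.log N / Real.log 2)) ^ (3 * K) := by
  have h1 : ∑ p ∈ P, 1 / (p : ℝ) ≤ Real.log (500 * (Real.log N / Real.log 2)) := by
    refine le_trans ?_ (H15P.mertens_sum_le 2 N le_rfl h2N)
    refine sum_le_sum_of_subset_of_nonneg ?_ (fun p _ _ => by positivity)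
    intro p hp
    rw [mem_filter, mem_Ioc]
    exact ⟨⟨lt_of_le_of_lt hW (hP p hp).2, hN p hp⟩, (hP p hp).1⟩
  have hpos : 0 < 500 * (Real.log N / Real.log 2) := by
    have h2 : 0 < Real.log 2 := Real.log_pos (by norm_num)
    have h3 : 0 < Real.log N := Real.log_pos (by exact_mod_cast (by omega : 1 < N))
    positivity
  have h2 : ∏ p ∈ P, (1 + 3 / (p : ℝ)) ^ K ≤ ∏ p ∈ P, Real.exp ((3 * K : ℕ) * (1 / (p : ℝ))) := by
    refine prod_le_prod (fun p _ => by positivity) fun p _ => ?_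
    have h3 : 1 + 3 / (p : ℝ) ≤ Real.exp (3 / (p : ℝ)) := by
      have := Real.add_one_le_exp (3 / (p : ℝ))
      linarith
    calc (1 + 3 / (p : ℝ)) ^ K ≤ Real.exp (3 / (p : ℝ)) ^ K :=
          pow_le_pow_left₀ (by positivity) h3 K
      _ = Real.exp ((3 * K : ℕ) * (1 / (p : ℝ))) := by
          rw [← Real.exp_nat_mul]
          congr 1
          push_cast
          ring
  refine h2.trans ?_
  rw [← Real.exp_sum, ← mul_sum]
  calc Real.exp (((3 * K : ℕ) : ℝ) * ∑ p ∈ P, 1 / (p : ℝ)) ≤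
        Real.exp (((3 * K : ℕ) : ℝ) * Real.log (500 * (Real.log N / Real.log 2))) :=
        Real.exp_le_exp.2 (mul_le_mul_of_nonneg_left h1 (Nat.cast_nonneg _))
    _ = (500 * (Real.log N / Real.log 2)) ^ (3 * K) := by
        rw [Real.exp_nat_mul, Real.exp_log hpos]

theorem rm_large (C : ℝ) (m : ℕ) : ∃ n0 : ℕ, ∀ N : ℕ, n0 ≤ N → 2 ≤ N ∧ C ≤ Real.log N ∧
    Real.log N ^ m ≤ (N : ℝ) ^ (3 / 100 : ℝ) := by
  have h1 : ∀ᶠ x : ℝ in Filter.atTop, C ≤ Real.log x :=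
    Real.tendsto_log_atTop.eventually_ge_atTop C
  have h2 : ∀ᶠ x : ℝ in Filter.atTop, Real.log x ^ m ≤ x ^ (3 / 100 : ℝ) := by
    have h3 := (isLittleO_log_rpow_rpow_atTop (m : ℝ) (by norm_num : (0 : ℝ) < 3 / 100)).bound
      (by norm_num : (0 : ℝ) < 1)
    filter_upwards [h3, Filter.eventually_ge_atTop 1] with x hx h1x
    rw [Real.rpow_natCast, one_mul, Real.norm_eq_abs, Real.norm_eq_abs,
      abs_of_nonneg (Real.rpow_nonneg (by linarith : (0 : ℝ) ≤ x) (3 / 100))] at hx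
    exact (le_abs_self _).trans hx
  have h3 := tendsto_natCast_atTop_atTop.eventually ((h1.and h2).and (Filter.eventually_ge_atTop (2 : ℝ)))
  obtain ⟨n0, hn0⟩ := Filter.eventually_atTop.1 h3
  refine ⟨n0, fun N hN => ?_⟩
  have h4 := hn0 N hN
  exact ⟨by exact_mod_cast h4.2, h4.1.1, h4.1.2⟩

/-- Upper bound for the weight in one residue class.

Proof. `FF (some h) t = ∑_U c U 1[U ⊆ cfg t]`, `|c U| ≤ L^cF 3^|U|`, `fp U ≤ N^(2θ)`. Only the families with pairwise disjoint sets count (as in `m1_zero`).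
For such `U` the number of the `t ∈ (Ya, Yb]` with `t ≡ c [MOD r]` and `p ∣ t + h'` for all `p ∈ U_h'` is at most `N/lcm(r, fp U) + 1`
(one class modulo the lcm, or none), and `gcd(r, fp U)` is at most the product of the `p` in the `U_h'` which divide `r` (at most one
prime of `P` divides `r`). With `1 ≤ N^(2θ)/fp U` the sums over the families are products (`rm_total`), and
`∏ (1 + 3/p)^K ≤ (500 L/log 2)^(3K)`. -/
theorem rcls (K cF A0 : ℕ) (hK : 1 ≤ K) : ∃ B0 : ℕ, ∀ B : ℕ, B0 ≤ B → ∀ θ : ℝ, 0 < θ →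
    θ ≤ 1 / 100 → ∃ n0 : ℕ, ∀ N : ℕ, n0 ≤ N → ∀ (w : Par K) (H : Finset ℕ) (p1 : ℕ),
    Pre0 B cF θ w H N p1 → ∀ h ∈ H, ∀ r c : ℕ,
    ((∃ q : ℕ, q.Prime ∧ (r = q ∨ r = q ^ 2)) ∨ ∀ p ∈ w.P, r.Coprime p) → 1 ≤ r →
    ∑ t ∈ (Ioc (Ya N) (Yb N)).filter (fun t => t ≡ c [MOD r]), FF w H (some h) t ≤
      Real.log N ^ B * (N / r) / Real.log N ^ A0 + (N : ℝ) ^ (1 / 20 : ℝ) := by
  refine ⟨cF + 3 * K + A0 + 10, fun B hB θ hθ0 hθ => ?_⟩
  obtain ⟨n0, hn0⟩ := rm_large (max 1 ((500 / Real.log 2) ^ (3 * K) * 4 ^ K)) (cF + 3 * K + 1)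
  refine ⟨n0, fun N hN w H p1 hpre h hh r c hr1 hr => ?_⟩
  obtain ⟨h2N, hL, hlog⟩ := hn0 N hN
  have hL1 : 1 ≤ Real.log N := (le_max_left _ _).trans hL
  have hLC := (le_max_right _ _).trans hL
  have hN1 : (1 : ℝ) ≤ N := by exact_mod_cast (by omega : 1 ≤ N)
  have hN0 : (0 : ℝ) < N := by linarith
  have hP : ∀ p ∈ w.P, p.Prime ∧ w.W < p := fun p hp => ⟨w.prime p hp, w.big p hp⟩
  have hW2 : 2 ≤ w.W := by
    have h1 := w.KW
    have h2 : 1 ≤ K ^ 2 := Nat.one_le_pow _ _ hK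
    omega
  have hPN : ∀ p ∈ w.P, p ≤ N := by
    intro p hp
    have h1 := hpre.PN p hp
    have h2 : (N : ℝ) ^ (1 / 100 : ℝ) ≤ (N : ℝ) ^ (1 : ℝ) :=
      Real.rpow_le_rpow_of_exponent_le hN1 (by norm_num)
    rw [Real.rpow_one] at h2
    exact_mod_cast h1.trans h2
  have hM := rm_mert K hP hW2 hPN h2N
  obtain ⟨cU, hF, hc, hD⟩ := hpre.exF
  have hone : ∀ p ∈ w.P, ∀ q ∈ w.P, p ∣ r → q ∣ r → p = q := by
    intro p hp q hq hpr hqr
    have hpp := (hP p hp).1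
    have hqp := (hP q hq).1
    rcases hr1 with ⟨q0, hq0, hr0⟩ | hr0
    · have key : ∀ x : ℕ, x.Prime → x ∣ r → x = q0 := by
        intro x hx hxr
        rcases hr0 with h1 | h1
        · rw [h1] at hxr
          exact (Nat.prime_dvd_prime_iff_eq hx hq0).1 hxr
        · rw [h1] at hxr
          exact (Nat.prime_dvd_prime_iff_eq hx hq0).1 (hx.dvd_of_dvd_pow hxr)
      rw [key p hpp hpr, key q hqp hqr]
    · exfalso
      have h1 := hr0 p hp
      have h2 := Nat.Coprime.eq_one_of_dvd h1.symm hpr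
      exact hpp.one_lt.ne' h2
  have hYab : Ya N ≤ Yb N := by
    unfold Ya Yb
    exact Nat.div_le_div_right (by omega)
  have hYb : (Yb N : ℝ) ≤ N := by
    have : Yb N ≤ N := by
      unfold Yb
      omega
    exact_mod_cast this
  have hYa : (0 : ℝ) ≤ (Ya N : ℝ) := Nat.cast_nonneg _
  have hr' : (0 : ℝ) < r := by exact_mod_cast hr
  have htot := rm_total hpre.cardH hP hpre.HW (some h) (FC w H) cU hF (Real.log N ^ cF)
    ((N : ℝ) ^ (2 * θ)) (by positivity) (by positivity) (fun U => by exact_mod_cast hc U) hD r c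
    (Ya N) (Yb N) hr hYab _ hM hone
  have hlog2 : 0 < Real.log 2 := Real.log_pos (by norm_num)
  have e1 : (500 * (Real.log N / Real.log 2)) ^ (3 * K) =
      (500 / Real.log 2) ^ (3 * K) * Real.log N ^ (3 * K) := by
    rw [← mul_pow]
    congr 1
    ring
  rw [e1] at htot
  have hC1 : (1 : ℝ) ≤ 4 ^ K := one_le_pow₀ (by norm_num)
  have hC2 : 0 ≤ (500 / Real.log 2) ^ (3 * K) := by positivity
  have hC3 : (500 / Real.log 2) ^ (3 * K) ≤ Real.log N := by
    refine le_trans ?_ hLC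
    exact le_mul_of_one_le_right hC2 hC1
  have b1 : Real.log N ^ cF * ((500 / Real.log 2) ^ (3 * K) * Real.log N ^ (3 * K)) *
      (4 ^ K * (((Yb N : ℝ) - Ya N) / r)) ≤ Real.log N ^ B * (N / r) / Real.log N ^ A0 := by
    have s1 : ((Yb N : ℝ) - Ya N) / r ≤ N / r := by
      gcongr
      linarith
    have s2 : Real.log N ^ (cF + 3 * K + 1 + A0) ≤ Real.log N ^ B :=
      pow_le_pow_right₀ hL1 (by omega)
    rw [le_div_iff₀ (by positivity)]
    calc Real.log N ^ cF * ((500 / Real.log 2) ^ (3 * K) * Real.log N ^ (3 * K)) *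
          (4 ^ K * (((Yb N : ℝ) - Ya N) / r)) * Real.log N ^ A0
        ≤ Real.log N ^ cF * ((500 / Real.log 2) ^ (3 * K) * Real.log N ^ (3 * K)) *
          (4 ^ K * (N / r)) * Real.log N ^ A0 := by gcongr
      _ = (Real.log N ^ cF * Real.log N ^ (3 * K) * Real.log N ^ A0 * (N / r)) *
          ((500 / Real.log 2) ^ (3 * K) * 4 ^ K) := by ring
      _ ≤ (Real.log N ^ cF * Real.log N ^ (3 * K) * Real.log N ^ A0 * (N / r)) * Real.log N :=
          mul_le_mul_of_nonneg_left hLC (by positivity)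
      _ = Real.log N ^ (cF + 3 * K + 1 + A0) * (N / r) := by ring
      _ ≤ Real.log N ^ B * (N / r) := mul_le_mul_of_nonneg_right s2 (by positivity)
  have b2 : Real.log N ^ cF * ((500 / Real.log 2) ^ (3 * K) * Real.log N ^ (3 * K)) *
      (N : ℝ) ^ (2 * θ) ≤ (N : ℝ) ^ (1 / 20 : ℝ) := by
    have s1 : (N : ℝ) ^ (2 * θ) ≤ (N : ℝ) ^ (1 / 50 : ℝ) :=
      Real.rpow_le_rpow_of_exponent_le hN1 (by linarith)
    calc Real.log N ^ cF * ((500 / Real.log 2) ^ (3 * K) * Real.log N ^ (3 * K)) * (N : ℝ) ^ (2 * θ)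
        ≤ Real.log N ^ cF * (Real.log N * Real.log N ^ (3 * K)) * (N : ℝ) ^ (1 / 50 : ℝ) := by gcongr
      _ = Real.log N ^ (cF + 3 * K + 1) * (N : ℝ) ^ (1 / 50 : ℝ) := by ring
      _ ≤ (N : ℝ) ^ (3 / 100 : ℝ) * (N : ℝ) ^ (1 / 50 : ℝ) :=
          mul_le_mul_of_nonneg_right hlog (by positivity)
      _ = (N : ℝ) ^ (1 / 20 : ℝ) := by
          rw [← Real.rpow_add hN0]
          norm_num
  calc ∑ t ∈ (Ioc (Ya N) (Yb N)).filter (fun t => t ≡ c [MOD r]), FF w H (some h) t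
      ≤ Real.log N ^ cF * ((500 / Real.log 2) ^ (3 * K) * Real.log N ^ (3 * K)) *
        (4 ^ K * (((Yb N : ℝ) - Ya N) / r) + (N : ℝ) ^ (2 * θ)) := htot
    _ = Real.log N ^ cF * ((500 / Real.log 2) ^ (3 * K) * Real.log N ^ (3 * K)) *
        (4 ^ K * (((Yb N : ℝ) - Ya N) / r)) +
        Real.log N ^ cF * ((500 / Real.log 2) ^ (3 * K) * Real.log N ^ (3 * K)) *
        (N : ℝ) ^ (2 * θ) := by ring
    _ ≤ _ := add_le_add b1 b2

theorem rm_forms {K : ℕ} (w : Par K) (H : Finset ℕ) (hK : 1 ≤ K) (hH : H.card = K)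
    (hW : ∀ h ∈ H, h ≤ w.W) : H15P.Forms w.P w.W K 1 (fun h : {h // h ∈ H} => h.1) where
  prime := w.prime
  big := w.big
  cop := fun p hp hd => (w.prime p hp).one_lt.ne' (Nat.dvd_one.1 hd)
  dist := by
    intro p hp j j' hne hmod
    apply hne
    apply Subtype.ext
    exact Nat.ModEq.eq_of_lt_of_lt hmod (lt_of_le_of_lt (hW _ j.2) (w.big p hp))
      (lt_of_le_of_lt (hW _ j'.2) (w.big p hp))
  one_le := hK
  card := by rw [Fintype.card_coe, hH]
  KW := w.KW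

/-- Proof. `Par.four_le` with `M = 1`, `b h = h`, `Y = N + 1`; `z ≥ 1`; `w.h ≤ L^3`, `w.lv ≤ N^θ`:
`∑ L^4 ≤ 2 ((n+1)^4 (1 + L^3))^K (N + 1) + 2 N^(4θ) ≤ L^B N` if `B ≥ 4 K + 10` and `N` is large. -/
theorem rmom (K m : ℕ) (hK : 1 ≤ K) : ∃ B0 : ℕ, ∀ B : ℕ, B0 ≤ B → ∀ θ : ℝ, 0 < θ →
    θ ≤ 1 / 100 → ∃ n0 : ℕ, ∀ N : ℕ, n0 ≤ N → ∀ (w : Par K) (H : Finset ℕ), w.n = m →
    w.h ≤ Real.log N ^ 3 → w.lv ≤ (N : ℝ) ^ θ → H.card = K → (∀ h ∈ H, h ≤ w.W) →
    200 * K ^ 2 ≤ w.W →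
    ∑ t ∈ Icc 1 N, FF w H none t ^ 2 ≤ Real.log N ^ B * N := by
  refine ⟨4 * K + 10, fun B hB θ hθ0 hθ => ?_⟩
  obtain ⟨n0, hn0⟩ := rm_large (max 2 (2 * ((m : ℝ) + 1) ^ 4)) 1
  refine ⟨n0, fun N hN w H hm hh hlv hH hW h200 => ?_⟩
  obtain ⟨h2N, hL, -⟩ := hn0 N hN
  have hL2 : 2 ≤ Real.log N := (le_max_left _ _).trans hL
  have hLC := (le_max_right _ _).trans hL
  have hL1 : 1 ≤ Real.log N := by linarith
  have hN1 : (1 : ℝ) ≤ N := by exact_mod_cast (by omega : 1 ≤ N)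
  have hN0 : (0 : ℝ) < N := by linarith
  have h4 := w.four_le (J := {h // h ∈ H}) (by rw [Fintype.card_coe, hH]) 1 (fun h => h.1)
    (rm_forms w H hK hH hW) h200 (N + 1)
  have hz := w.z_bounds
  have hzK : 1 ≤ w.z ^ K := one_le_pow₀ hz.1
  have s1 : ∑ t ∈ Icc 1 N, FF w H none t ^ 2 ≤
      ∑ t ∈ range (N + 1), w.L (fun j : {h // h ∈ H} => H15P.hit w.P (j.1 + 1 * t)) ^ 4 := by
    have hsub : Icc 1 N ⊆ range (N + 1) := by
      intro t ht
      rw [mem_Icc] at ht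
      rw [mem_range]
      omega
    refine le_trans (sum_le_sum fun t _ => ?_) (sum_le_sum_of_subset_of_nonneg hsub
      (f := fun t => w.L (fun j : {h // h ∈ H} => H15P.hit w.P (j.1 + 1 * t)) ^ 4)
      (fun t _ _ => by positivity))
    have e : cfg w.P H none t = fun j : {h // h ∈ H} => H15P.hit w.P (j.1 + 1 * t) := by
      funext j
      unfold cfg
      rw [if_neg (by simp), one_mul, add_comm]
    unfold FF
    rw [e, div_pow, ← pow_mul, show 2 * 2 = 4 from rfl]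
    exact div_le_self (by positivity) (one_le_pow₀ hzK)
  have s2 : (((w.n : ℝ) + 1) ^ 4 * (1 + w.h)) ^ K ≤ Real.log N ^ (4 * K) := by
    rw [pow_mul]
    have h1 : 0 ≤ w.h := w.h0
    refine pow_le_pow_left₀ (by positivity) ?_ K
    have h2 : 1 + w.h ≤ 2 * Real.log N ^ 3 := by
      have : 1 ≤ Real.log N ^ 3 := one_le_pow₀ hL1
      linarith
    calc ((w.n : ℝ) + 1) ^ 4 * (1 + w.h) ≤ ((w.n : ℝ) + 1) ^ 4 * (2 * Real.log N ^ 3) :=
          mul_le_mul_of_nonneg_left h2 (by positivity)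
      _ = (2 * ((w.n : ℝ) + 1) ^ 4) * Real.log N ^ 3 := by ring
      _ ≤ Real.log N * Real.log N ^ 3 := by
          rw [hm]
          exact mul_le_mul_of_nonneg_right hLC (by positivity)
      _ = Real.log N ^ 4 := by ring
  have s3 : w.lv ^ 4 ≤ N := by
    have h1 : (0 : ℝ) ≤ w.lv := by
      have := w.lv1
      linarith
    calc w.lv ^ 4 ≤ ((N : ℝ) ^ θ) ^ 4 := pow_le_pow_left₀ h1 hlv 4
      _ = (N : ℝ) ^ (θ * (4 : ℕ)) := by rw [Real.rpow_mul hN0.le, Real.rpow_natCast]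
      _ ≤ (N : ℝ) ^ (1 : ℝ) := Real.rpow_le_rpow_of_exponent_le hN1 (by push_cast; linarith)
      _ = N := Real.rpow_one _
  have s4 : Real.log N ^ (4 * K + 3) ≤ Real.log N ^ B := pow_le_pow_right₀ hL1 (by omega)
  have s5 : (8 : ℝ) ≤ Real.log N ^ 3 := by
    calc (8 : ℝ) = 2 ^ 3 := by norm_num
      _ ≤ Real.log N ^ 3 := pow_le_pow_left₀ (by norm_num) hL2 3
  have s6 : (1 : ℝ) ≤ Real.log N ^ (4 * K) := one_le_pow₀ hL1
  calc ∑ t ∈ Icc 1 N, FF w H none t ^ 2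
      ≤ 2 * (((w.n : ℝ) + 1) ^ 4 * (1 + w.h)) ^ K * ((N + 1 : ℕ) : ℝ) + 2 * w.lv ^ 4 := s1.trans h4
    _ ≤ 2 * Real.log N ^ (4 * K) * (2 * N) + 2 * N := by
        refine add_le_add ?_ (by linarith)
        have : ((N + 1 : ℕ) : ℝ) ≤ 2 * N := by
          push_cast
          linarith
        gcongr
    _ ≤ 8 * (Real.log N ^ (4 * K) * N) := by
        have h1 : (N : ℝ) ≤ Real.log N ^ (4 * K) * N := le_mul_of_one_le_left hN0.le s6
        linarith
    _ ≤ Real.log N ^ 3 * (Real.log N ^ (4 * K) * N) := mul_le_mul_of_nonneg_right s5 (by positivity)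
    _ = Real.log N ^ (4 * K + 3) * N := by ring
    _ ≤ Real.log N ^ B * N := mul_le_mul_of_nonneg_right s4 hN0.le

end Pool.Agent.Lib.H57C
end

-- from Lib.H57T.A1
section

/-!
# Chunk A1: the mean values of the weight
-/

open Finset

namespace Pool.Agent.Lib.H57T

open Pool.Agent.Lib.H57C


open Pool.Agent.Lib.H15P hiding cfg
open Pool.Agent.Lib.H92G Pool.Agent.Lib.H57M

theorem a1_forms {K : ℕ} (w : Par K) (H : Finset ℕ) (hH : H.card = K) (HD : ∀ p ∈ w.P, ∀ h ∈ H, ∀ h' ∈ H, h ≠ h' → ¬ h ≡ h' [MOD p]) :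
    Forms w.P w.W K 1 (fun h : {h // h ∈ H} => h.1) := by
  refine ⟨w.prime, w.big, ?_, ?_, w.Kpos, ?_, w.KW⟩
  · intro p hp h
    exact (w.prime p hp).one_lt.ne' (Nat.dvd_one.1 h)
  · intro p hp j j' hne hm
    exact HD p hp j.1 j.2 j'.1 j'.2 (fun h1 => hne (Subtype.ext h1)) hm
  · rw [Fintype.card_coe, hH]

/-- Proof. `Forms w.P w.W K 1 (fun h => h.1)` as in `Sc.forms` (`H57M/Sc.lean`). `EP_le` (`H15P`), `EX_LG_sq_le`, `B8_ZG`, `B8_exp`:
`EP (L^2) ≤ (11/10) z^K`; divide by `z^K ≥ 1`. -/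
theorem ae_none {K : ℕ} (w : Par K) (H : Finset ℕ) (hH : H.card = K) (HD : ∀ p ∈ w.P, ∀ h ∈ H, ∀ h' ∈ H, h ≠ h' → ¬ h ≡ h' [MOD p])
    (hKW : 400 * K ^ 2 ≤ w.W) :
    0 ≤ AE w.P H none (FC w H) ∧ AE w.P H none (FC w H) ≤ 11 / 10 := by
  classical
  have hJ : Fintype.card {h // h ∈ H} = K := by rw [Fintype.card_coe, hH]
  have hz := w.z_bounds.1
  have hzK : 0 < w.z ^ K := pow_pos (by linarith) K
  have h0 : ∀ S, 0 ≤ FC w H S := fun S => div_nonneg (sq_nonneg _) hzK.le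
  constructor
  · unfold AE EP
    exact div_nonneg (Finset.sum_nonneg fun t _ => h0 _) (Nat.cast_nonneg _)
  · have h1 := EP_le w.P w.W K 1 (fun h : {h // h ∈ H} => h.1) (a1_forms w H hH HD) (FC w H) h0
    have h2 : EX (qq w.P K) (FC w H) ≤ 1 := by
      have e : EX (qq w.P K) (FC w H) = EX (qq w.P K) (fun S : {h // h ∈ H} → Finset {p // p ∈ w.P} =>
          w.L S ^ 2) / w.z ^ K := by
        unfold EX FC
        rw [Finset.sum_div]
        exact Finset.sum_congr rfl fun S _ => by ring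
      rw [e, div_le_one hzK, ← B8_ZG (J := {h // h ∈ H}) w hJ]
      exact EX_LG_sq_le _ _ _ (w.goodJ _) w.m univ
    have h3 := B8_exp w (by omega)
    refine h1.trans ?_
    calc Real.exp (2 * (K : ℝ) ^ 2 / w.W) * EX (qq w.P K) (FC w H)
        ≤ Real.exp (2 * (K : ℝ) ^ 2 / w.W) * 1 :=
          mul_le_mul_of_nonneg_left h2 (Real.exp_pos _).le
      _ ≤ 11 / 10 := by rw [mul_one]; exact h3

/-- Proof. `B9_main` with `M = 1`, `b h = h`, `j0 = ⟨h, _⟩`; for `t` with `h + t` prime to `∏ P` the set `hit P (t + h)` is empty, so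
`cfg P H (some h) t = fun j => hit P (j + 1 * t)`; divide by `z^K > 0`. -/
theorem ae_some {K : ℕ} (w : Par K) (H : Finset ℕ) (hH : H.card = K) (HD : ∀ p ∈ w.P, ∀ h ∈ H, ∀ h' ∈ H, h ≠ h' → ¬ h ≡ h' [MOD p])
    (hKW : 400 * (K : ℝ) ^ 2 ≤ w.W) (h : ℕ) (hh : h ∈ H)
    (n2 : (((∏ p ∈ w.P, p : ℕ) : ℝ) / ((∏ p ∈ w.P, p).totient : ℝ)) *
      (8 * (K : ℝ) ^ 2 * w.CL * w.Dt ^ 2 / w.W) ≤ 1 / 100) :
    36 / 100 * (1 + w.n * w.c) ^ 2 ≤ AE w.P H (some h) (FC w H) := by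
  classical
  have hJ : Fintype.card {h // h ∈ H} = K := by rw [Fintype.card_coe, hH]
  have hz := w.z_bounds.1
  have hzK : 0 < w.z ^ K := pow_pos (by linarith) K
  have h1 := B9_main w hJ 1 (fun h : {h // h ∈ H} => h.1) (a1_forms w H hH HD) ⟨h, hh⟩ hKW n2
  have h2 : AE w.P H (some h) (FC w H) =
      EU w.P 1 h (fun t => w.L (fun j : {h // h ∈ H} => hit w.P (j.1 + 1 * t)) ^ 2) / w.z ^ K := by
    change EU w.P 1 h (fun t => FC w H (cfg w.P H (some h) t)) = _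
    unfold EU FC
    simp only [Finset.sum_div]
    apply Finset.sum_congr rfl
    intro t ht
    rw [Finset.mem_filter] at ht
    have e : cfg w.P H (some h) t = fun j : {h // h ∈ H} => hit w.P (j.1 + 1 * t) := by
      funext j
      unfold cfg
      by_cases hj : h = j.1
      · rw [if_pos (by rw [hj])]
        symm
        unfold hit
        rw [Finset.filter_eq_empty_iff]
        intro p _ hp
        rw [← hj] at hp
        have h3 : p.1 ∣ ∏ p ∈ w.P, p := Finset.dvd_prod_of_mem (fun p => p) p.2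
        have h4 := Nat.dvd_gcd hp h3
        rw [Nat.Coprime] at ht
        rw [ht.2] at h4
        exact (w.prime p.1 p.2).one_lt.ne' (Nat.dvd_one.1 h4)
      · rw [if_neg (by rw [Option.some_inj]; exact hj), one_mul, add_comm t]
    rw [e]
    ring
  rw [h2, le_div_iff₀ hzK]
  calc 36 / 100 * (1 + (w.n : ℝ) * w.c) ^ 2 * w.z ^ K
      = 36 / 100 * (w.z ^ K * (1 + w.n * w.c) ^ 2) := by ring
    _ ≤ _ := h1

end Pool.Agent.Lib.H57T
end

-- from Lib.H57T.S3a
section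

/-!
# Chunk S3a: covering by boxes, with weights
-/

open Finset

namespace Pool.Agent.Lib.H57T

open Pool.Agent.Lib.H57C


open Pool.Agent.Lib.H57M
open Pool.Agent.Lib.H59C (Sq Win Tri lv Rel BX wB al)

open Classical in
/-- Proof. The proof of `cover` (`H59C/CCV.lean`) with the weights `Φ ≥ 0`: every `p` in the filter has `N' - p = q1 q2 q3 = x.1 x.2` for some `x` in a
box of `Rel`, `p = N' - x.1 x.2`, and `1 ≤ wB x/log (lv ..)`. Different `p` give different `x` (in the same box or not). -/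
theorem cover' (δ : ℝ) (hδ : 0 < δ) (hδ1 : δ ≤ 1 / 100) : ∃ n0 : ℕ, ∀ n : ℕ, n0 ≤ n →
    ∀ y1 y2 : ℕ, Win n 2 (y1 + 2) (y2 + 2) → ∀ Φ : ℕ → ℝ, (∀ v, 0 ≤ Φ v) →
    ∑ v ∈ (Ioc y1 y2).filter (fun v => Tri n v), Φ v ≤
      ∑ b ∈ Rel n 2 (y1 + 2) (y2 + 2) δ, 1 / Real.log (lv δ b.2) *
        ∑ x ∈ (BX (lv δ (b.1 + 1)) (lv δ b.2) (lv δ (b.2 + 1))).filter
          (fun x => y1 < x.1 * x.2 ∧ x.1 * x.2 ≤ y2),
          wB (al n δ b) x * Φ (x.1 * x.2) := by
  obtain ⟨n1, hn1⟩ := Pool.Agent.Lib.H59C.cdl_zz 4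
  refine ⟨n1 + 1000, fun n hn y1 y2 hW Φ hΦ => ?_⟩
  have hN : (1000 : ℝ) ≤ n := by exact_mod_cast (by omega : 1000 ≤ n)
  have hz4 := hn1 n (by omega)
  have hyz : Pool.Agent.Lib.H59C.zz n ≤ Pool.Agent.Lib.H59C.yy n := by
    unfold Pool.Agent.Lib.H59C.zz Pool.Agent.Lib.H59C.yy
    calc (n : ℝ) ^ (1 / 8 : ℝ) ≤ (n : ℝ) ^ (1 / 3 : ℝ) :=
          Real.rpow_le_rpow_of_exponent_le (by linarith) (by norm_num)
      _ ≤ (2 * n : ℝ) ^ (1 / 3 : ℝ) :=
          Real.rpow_le_rpow (by linarith) (by linarith) (by norm_num)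
  obtain ⟨F, hF⟩ : ∃ F : ℕ × ℕ → Finset (ℕ × ℕ), F = fun b =>
    (BX (lv δ (b.1 + 1)) (lv δ b.2) (lv δ (b.2 + 1))).filter
          (fun x => y1 < x.1 * x.2 ∧ x.1 * x.2 ≤ y2) := ⟨_, rfl⟩
  obtain ⟨t, ht⟩ : ∃ t : (_ : ℕ × ℕ) × (ℕ × ℕ) → ℝ, t = fun y =>
    1 / Real.log (lv δ y.1.2) * wB (al n δ y.1) y.2 := ⟨_, rfl⟩
  have ht0 : ∀ y, 0 ≤ t y := by
    intro y
    rw [ht]
    apply mul_nonneg
    · exact div_nonneg zero_le_one (Real.log_natCast_nonneg _)
    · apply mul_nonneg (Pool.Agent.Lib.H59C.ccv_al_nonneg _ _ _ _)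
      unfold Pool.Agent.Lib.H59C.lg
      exact Real.log_natCast_nonneg _
  -- the data of a prime
  have hdata : ∀ p ∈ (Ioc y1 y2).filter (fun p => Tri n p),
      ∃ y : (_ : ℕ × ℕ) × (ℕ × ℕ), y ∈ (Rel n 2 (y1 + 2) (y2 + 2) δ).sigma F ∧ y.2.1 * y.2.2 = p ∧ 1 ≤ t y := by
    intro p hp
    rw [mem_filter, mem_Ioc] at hp
    obtain ⟨⟨hp1, hp2⟩, q1, q2, q3, hq1, hq2, hq3, hz1, hy1, hy2, h23, hdist⟩ := hp
    have hdle : p ≤ 2 * n := by
      have := hW.le
      omega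
    have hm2 : 2 ≤ q1 * q2 := by
      have := hq1.two_le
      have := hq2.two_le
      nlinarith
    have hmle : q1 * q2 ≤ 2 * n := by
      have h1 : q1 * q2 * 1 ≤ q1 * q2 * q3 := Nat.mul_le_mul_left _ hq3.one_lt.le
      rw [mul_one] at h1
      omega
    have hqle : q3 ≤ 2 * n := by
      have h1 : 1 * q3 ≤ q1 * q2 * q3 := Nat.mul_le_mul_right _ (by omega)
      omega
    obtain ⟨i, hi1, hi2⟩ := Pool.Agent.Lib.H59C.ccv_index δ hδ (q1 * q2) hm2
    obtain ⟨j, hj1, hj2⟩ := Pool.Agent.Lib.H59C.ccv_index δ hδ q3 hq3.two_le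
    have hal : al n δ (i, j) (q1 * q2) = 1 := by
      unfold al
      rw [if_pos]
      exact ⟨hi1, q1, q2, hq1, hq2, hz1, hy1, hy2, h23.trans hj2, rfl⟩
    have hyq3 : Pool.Agent.Lib.H59C.yy n ≤ q3 := by
      have : (q2 : ℝ) ≤ q3 := by exact_mod_cast h23
      linarith
    have hRel : (i, j) ∈ Rel n 2 (y1 + 2) (y2 + 2) δ := by
      unfold Pool.Agent.Lib.H59C.Rel
      rw [mem_filter, mem_product, mem_range, mem_range]
      exact ⟨⟨Pool.Agent.Lib.H59C.ccv_index_le δ hδ hδ1 n _ i (by omega) hmle hi1,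
        Pool.Agent.Lib.H59C.ccv_index_le δ hδ hδ1 n _ j (by omega) hqle hj1⟩,
        q1 * q2, q3, p + 2, hi1, hi2, hj1, hj2, hq3, hal, hyq3, by omega, by omega, by unfold Nat.dist; omega⟩
    have hlv2 : 2 ≤ lv δ j := by
      have h1 : (q3 : ℝ) ≤ (1 + δ) ^ (j + 1) := by
        have h2 : (q3 : ℝ) ≤ (lv δ (j + 1) : ℝ) := by exact_mod_cast hj2
        have h3 : (lv δ (j + 1) : ℝ) ≤ (1 + δ) ^ (j + 1) := by
          unfold lv
          exact Nat.floor_le (by positivity)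
        linarith
      have h2 : (3 : ℝ) ≤ (1 + δ) ^ j := by
        rw [pow_succ] at h1
        have h3 : (4 : ℝ) ≤ (1 + δ) ^ j * (1 + δ) := by linarith
        have h4 : (0 : ℝ) < (1 + δ) ^ j := by positivity
        nlinarith
      unfold lv
      apply Nat.le_floor
      push_cast
      linarith
    refine ⟨⟨(i, j), (q1 * q2, q3)⟩, ?_, hdist.symm, ?_⟩
    · rw [mem_sigma]
      refine ⟨hRel, ?_⟩
      rw [hF]
      show (q1 * q2, q3) ∈ (BX (lv δ (i + 1)) (lv δ j) (lv δ (j + 1))).filter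
          (fun x => y1 < x.1 * x.2 ∧ x.1 * x.2 ≤ y2)
      rw [mem_filter]
      constructor
      · unfold BX
        rw [mem_product, mem_Icc, Pool.Agent.Lib.H59C.mem_Sq]
        exact ⟨⟨by show 1 ≤ q1 * q2; omega, hi2⟩, ⟨hj1, hj2⟩, hq3⟩
      · show y1 < q1 * q2 * q3 ∧ q1 * q2 * q3 ≤ y2
        rw [← hdist]
        exact ⟨hp1, hp2⟩
    · rw [ht]
      show 1 ≤ 1 / Real.log (lv δ j) * (al n δ (i, j) (q1 * q2) * Pool.Agent.Lib.H59C.lg q3)
      rw [hal, one_mul, one_div, ← div_eq_inv_mul]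
      have h1 : (2 : ℝ) ≤ lv δ j := by exact_mod_cast hlv2
      have h2 : 0 < Real.log (lv δ j) := Real.log_pos (by linarith)
      rw [le_div_iff₀ h2, one_mul]
      unfold Pool.Agent.Lib.H59C.lg
      apply Real.log_le_log (by linarith)
      exact_mod_cast hj1.le
  choose! f hf1 hf2 hf3 using hdata
  have hinj : Set.InjOn f ((Ioc y1 y2).filter (fun p => Tri n p)) := by
    intro p hp p' hp' heq
    have h1 := hf2 p hp
    have h2 := hf2 p' hp'
    rw [← h1, ← h2, heq]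
  calc ∑ p ∈ (Ioc y1 y2).filter (fun p => Tri n p), Φ p
      ≤ ∑ p ∈ (Ioc y1 y2).filter (fun p => Tri n p),
          t (f p) * Φ ((f p).2.1 * (f p).2.2) := by
        refine sum_le_sum fun p hp => ?_
        rw [hf2 p hp]
        exact le_mul_of_one_le_left (hΦ p) (hf3 p hp)
    _ = ∑ y ∈ ((Ioc y1 y2).filter (fun p => Tri n p)).image f,
          t y * Φ (y.2.1 * y.2.2) := by
        rw [sum_image hinj]
    _ ≤ ∑ y ∈ (Rel n 2 (y1 + 2) (y2 + 2) δ).sigma F, t y * Φ (y.2.1 * y.2.2) := by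
        apply sum_le_sum_of_subset_of_nonneg
        · intro y hy
          rw [mem_image] at hy
          obtain ⟨p, hp, rfl⟩ := hy
          exact hf1 p hp
        · intro y _ _
          exact mul_nonneg (ht0 y) (hΦ _)
    _ = ∑ b ∈ Rel n 2 (y1 + 2) (y2 + 2) δ, ∑ x ∈ F b, t ⟨b, x⟩ * Φ (x.1 * x.2) := by
        rw [sum_sigma]
    _ = _ := by
        apply sum_congr rfl
        intro b _
        rw [mul_sum, ht, hF]
        refine sum_congr rfl fun x _ => ?_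
        exact mul_assoc _ _ _

end Pool.Agent.Lib.H57T
end

-- from Lib.H57C.S3a
section

/-!
# Chunk S3a: covering by boxes, with weights
-/

open Finset

namespace Pool.Agent.Lib.H57C

open Pool.Agent.Lib.H57M
open Pool.Agent.Lib.H59C (Sq Win Tri lv Rel BX wB al)

open Classical in
/-- Proof. The proof of `cover` (`H59C/CCV.lean`) with the weights `Φ ≥ 0`: every `p` in the filter has `N' - p = q1 q2 q3 = x.1 x.2` for some `x` in a
box of `Rel`, `p = N' - x.1 x.2`, and `1 ≤ wB x/log (lv ..)`. Different `p` give different `x` (in the same box or not). -/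
theorem cover' (δ : ℝ) (hδ : 0 < δ) (hδ1 : δ ≤ 1 / 100) : ∃ n0 : ℕ, ∀ n : ℕ, n0 ≤ n →
    ∀ N' y1 y2 : ℕ, Win n N' y1 y2 → y2 < N' → ∀ Φ : ℕ → ℝ, (∀ p, 0 ≤ Φ p) →
    ∑ p ∈ (Sq y1 y2).filter (fun p => Tri n (Nat.dist N' p)), Φ p ≤
      ∑ b ∈ Rel n N' y1 y2 δ, 1 / Real.log (lv δ b.2) *
        ∑ x ∈ (BX (lv δ (b.1 + 1)) (lv δ b.2) (lv δ (b.2 + 1))).filter
          (fun x => x.1 * x.2 < N' ∧ (N' - x.1 * x.2).Prime ∧
            (n : ℝ) ^ (1 / 6 : ℝ) ≤ (N' - x.1 * x.2 : ℕ)),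
          wB (al n δ b) x * Φ (N' - x.1 * x.2) := by
  obtain ⟨n1, hn1⟩ := Pool.Agent.Lib.H59C.cdl_zz 4
  refine ⟨n1 + 1000, fun n hn N y1 y2 hW hyN Φ hΦ => ?_⟩
  have hN : (1000 : ℝ) ≤ n := by exact_mod_cast (by omega : 1000 ≤ n)
  have hz4 := hn1 n (by omega)
  have hyz : Pool.Agent.Lib.H59C.zz n ≤ Pool.Agent.Lib.H59C.yy n := by
    unfold Pool.Agent.Lib.H59C.zz Pool.Agent.Lib.H59C.yy
    calc (n : ℝ) ^ (1 / 8 : ℝ) ≤ (n : ℝ) ^ (1 / 3 : ℝ) :=
          Real.rpow_le_rpow_of_exponent_le (by linarith) (by norm_num)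
      _ ≤ (2 * n : ℝ) ^ (1 / 3 : ℝ) :=
          Real.rpow_le_rpow (by linarith) (by linarith) (by norm_num)
  obtain ⟨F, hF⟩ : ∃ F : ℕ × ℕ → Finset (ℕ × ℕ), F = fun b =>
    (BX (lv δ (b.1 + 1)) (lv δ b.2) (lv δ (b.2 + 1))).filter
          (fun x => x.1 * x.2 < N ∧ (N - x.1 * x.2).Prime ∧
            (n : ℝ) ^ (1 / 6 : ℝ) ≤ (N - x.1 * x.2 : ℕ)) := ⟨_, rfl⟩
  obtain ⟨t, ht⟩ : ∃ t : (_ : ℕ × ℕ) × (ℕ × ℕ) → ℝ, t = fun y =>
    1 / Real.log (lv δ y.1.2) * wB (al n δ y.1) y.2 := ⟨_, rfl⟩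
  have ht0 : ∀ y, 0 ≤ t y := by
    intro y
    rw [ht]
    apply mul_nonneg
    · exact div_nonneg zero_le_one (Real.log_natCast_nonneg _)
    · apply mul_nonneg (Pool.Agent.Lib.H59C.ccv_al_nonneg _ _ _ _)
      unfold Pool.Agent.Lib.H59C.lg
      exact Real.log_natCast_nonneg _
  -- the data of a prime
  have hdata : ∀ p ∈ (Sq y1 y2).filter (fun p => Tri n (Nat.dist N p)),
      ∃ y : (_ : ℕ × ℕ) × (ℕ × ℕ), y ∈ (Rel n N y1 y2 δ).sigma F ∧ N - y.2.1 * y.2.2 = p ∧ 1 ≤ t y := by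
    intro p hp
    rw [mem_filter, Pool.Agent.Lib.H59C.mem_Sq] at hp
    obtain ⟨⟨⟨hp1, hp2⟩, hpp⟩, q1, q2, q3, hq1, hq2, hq3, hz1, hy1, hy2, h23, hdist⟩ := hp
    have hdle : Nat.dist N p ≤ 2 * n := by
      unfold Nat.dist
      have := hW.N2
      have := hW.le
      omega
    have hm2 : 2 ≤ q1 * q2 := by
      have := hq1.two_le
      have := hq2.two_le
      nlinarith
    have hmle : q1 * q2 ≤ 2 * n := by
      have h1 : q1 * q2 * 1 ≤ q1 * q2 * q3 := Nat.mul_le_mul_left _ hq3.one_lt.le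
      rw [mul_one] at h1
      omega
    have hqle : q3 ≤ 2 * n := by
      have h1 : 1 * q3 ≤ q1 * q2 * q3 := Nat.mul_le_mul_right _ (by omega)
      omega
    obtain ⟨i, hi1, hi2⟩ := Pool.Agent.Lib.H59C.ccv_index δ hδ (q1 * q2) hm2
    obtain ⟨j, hj1, hj2⟩ := Pool.Agent.Lib.H59C.ccv_index δ hδ q3 hq3.two_le
    have hal : al n δ (i, j) (q1 * q2) = 1 := by
      unfold al
      rw [if_pos]
      exact ⟨hi1, q1, q2, hq1, hq2, hz1, hy1, hy2, h23.trans hj2, rfl⟩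
    have hyq3 : Pool.Agent.Lib.H59C.yy n ≤ q3 := by
      have : (q2 : ℝ) ≤ q3 := by exact_mod_cast h23
      linarith
    have hRel : (i, j) ∈ Rel n N y1 y2 δ := by
      unfold Pool.Agent.Lib.H59C.Rel
      rw [mem_filter, mem_product, mem_range, mem_range]
      exact ⟨⟨Pool.Agent.Lib.H59C.ccv_index_le δ hδ hδ1 n _ i (by omega) hmle hi1,
        Pool.Agent.Lib.H59C.ccv_index_le δ hδ hδ1 n _ j (by omega) hqle hj1⟩,
        q1 * q2, q3, p, hi1, hi2, hj1, hj2, hq3, hal, hyq3, hp1, hp2, hdist⟩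
    have hpN : p < N := by omega
    have hlt : q1 * q2 * q3 < N ∧ N - q1 * q2 * q3 = p := by
      have hp0 := hpp.pos
      rw [← hdist]
      unfold Nat.dist
      omega
    have hplow : (n : ℝ) ^ (1 / 6 : ℝ) ≤ p := by
      have h1 : (n : ℝ) ≤ 16 * p := by
        have h2 := hW.lo
        have h3 : n ≤ 16 * p := by omega
        exact_mod_cast h3
      have h2 : (n : ℝ) ^ (1 / 6 : ℝ) ≤ (n : ℝ) ^ (1 / 2 : ℝ) :=
        Real.rpow_le_rpow_of_exponent_le (by linarith) (by norm_num)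
      have h3 : 16 ≤ (n : ℝ) ^ (1 / 2 : ℝ) := by
        rw [← Real.sqrt_eq_rpow]
        apply Real.le_sqrt_of_sq_le
        linarith
      have h4 : (n : ℝ) ^ (1 / 2 : ℝ) * (n : ℝ) ^ (1 / 2 : ℝ) = n := by
        rw [← Real.rpow_add (by linarith)]
        norm_num
      nlinarith
    have hlv2 : 2 ≤ lv δ j := by
      have h1 : (q3 : ℝ) ≤ (1 + δ) ^ (j + 1) := by
        have h2 : (q3 : ℝ) ≤ (lv δ (j + 1) : ℝ) := by exact_mod_cast hj2
        have h3 : (lv δ (j + 1) : ℝ) ≤ (1 + δ) ^ (j + 1) := by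
          unfold lv
          exact Nat.floor_le (by positivity)
        linarith
      have h2 : (3 : ℝ) ≤ (1 + δ) ^ j := by
        rw [pow_succ] at h1
        have h3 : (4 : ℝ) ≤ (1 + δ) ^ j * (1 + δ) := by linarith
        have h4 : (0 : ℝ) < (1 + δ) ^ j := by positivity
        nlinarith
      unfold lv
      apply Nat.le_floor
      push_cast
      linarith
    refine ⟨⟨(i, j), (q1 * q2, q3)⟩, ?_, hlt.2, ?_⟩
    · rw [mem_sigma]
      refine ⟨hRel, ?_⟩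
      rw [hF]
      show (q1 * q2, q3) ∈ (BX (lv δ (i + 1)) (lv δ j) (lv δ (j + 1))).filter
          (fun x => x.1 * x.2 < N ∧ (N - x.1 * x.2).Prime ∧
            (n : ℝ) ^ (1 / 6 : ℝ) ≤ (N - x.1 * x.2 : ℕ))
      rw [mem_filter]
      constructor
      · unfold BX
        rw [mem_product, mem_Icc, Pool.Agent.Lib.H59C.mem_Sq]
        exact ⟨⟨by show 1 ≤ q1 * q2; omega, hi2⟩, ⟨hj1, hj2⟩, hq3⟩
      · show q1 * q2 * q3 < N ∧ (N - q1 * q2 * q3).Prime ∧
            (n : ℝ) ^ (1 / 6 : ℝ) ≤ (N - q1 * q2 * q3 : ℕ)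
        rw [hlt.2]
        exact ⟨hlt.1, hpp, hplow⟩
    · rw [ht]
      show 1 ≤ 1 / Real.log (lv δ j) * (al n δ (i, j) (q1 * q2) * Pool.Agent.Lib.H59C.lg q3)
      rw [hal, one_mul, one_div, ← div_eq_inv_mul]
      have h1 : (2 : ℝ) ≤ lv δ j := by exact_mod_cast hlv2
      have h2 : 0 < Real.log (lv δ j) := Real.log_pos (by linarith)
      rw [le_div_iff₀ h2, one_mul]
      unfold Pool.Agent.Lib.H59C.lg
      apply Real.log_le_log (by linarith)
      exact_mod_cast hj1.le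
  choose! f hf1 hf2 hf3 using hdata
  have hinj : Set.InjOn f ((Sq y1 y2).filter (fun p => Tri n (Nat.dist N p))) := by
    intro p hp p' hp' heq
    have h1 := hf2 p hp
    have h2 := hf2 p' hp'
    rw [← h1, ← h2, heq]
  calc ∑ p ∈ (Sq y1 y2).filter (fun p => Tri n (Nat.dist N p)), Φ p
      ≤ ∑ p ∈ (Sq y1 y2).filter (fun p => Tri n (Nat.dist N p)),
          t (f p) * Φ (N - (f p).2.1 * (f p).2.2) := by
        refine sum_le_sum fun p hp => ?_
        rw [hf2 p hp]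
        exact le_mul_of_one_le_left (hΦ p) (hf3 p hp)
    _ = ∑ y ∈ ((Sq y1 y2).filter (fun p => Tri n (Nat.dist N p))).image f,
          t y * Φ (N - y.2.1 * y.2.2) := by
        rw [sum_image hinj]
    _ ≤ ∑ y ∈ (Rel n N y1 y2 δ).sigma F, t y * Φ (N - y.2.1 * y.2.2) := by
        apply sum_le_sum_of_subset_of_nonneg
        · intro y hy
          rw [mem_image] at hy
          obtain ⟨p, hp, rfl⟩ := hy
          exact hf1 p hp
        · intro y _ _
          exact mul_nonneg (ht0 y) (hΦ _)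
    _ = ∑ b ∈ Rel n N y1 y2 δ, ∑ x ∈ F b, t ⟨b, x⟩ * Φ (N - x.1 * x.2) := by
        rw [sum_sigma]
    _ = _ := by
        apply sum_congr rfl
        intro b _
        rw [mul_sum, ht, hF]
        refine sum_congr rfl fun x _ => ?_
        exact mul_assoc _ _ _

end Pool.Agent.Lib.H57C
end
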