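import Mathlib
import Pool.Agent.Lib.H1M.RV2.M004
import Pool.Agent.Lib.H1M.RV2.M014
import Pool.Agent.Lib.H1M.RV2.M019
import Pool.Agent.Lib.H1M.RV2.M058

/-! Merged copies (to shorten the build) of Lib.H59P.MDefs, Lib.H59P.SDefs, Lib.H24P.Defs, Lib.H24P.Defs2, Lib.H59P.ZDefs, Lib.H59P.FDefs, Lib.H59P.M3A, Lib.H59P.M3B, Lib.H59P.M3C, Lib.H59P.M3D, Lib.H59P.F1A, Lib.H59P.F1B, Lib.H59P.F2, Lib.H59P.M1A, Lib.H59P.M1, Lib.H59P.M2A, Lib.H59P.M2B, Lib.H59P.M2C, Lib.H59P.M2D. -/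

-- from Lib.H59P.MDefs
section

/-!
# Project H59P: definitions for the main terms
-/

open Finset

namespace Pool.Agent.Lib.H59P

open Pool.Agent.Lib.H68T Pool.Agent.Lib.H18Q

noncomputable section

/-- `conj χ_p(m)` -/
def cj (p : Ch) (m : ℤ) : ℂ := (starRingEnd ℂ) (p.2 (m : ZMod p.1))

/-- The periodic function of the main term: `∏_i conj χ_i(n+h_i) ∏_{l ∈ P} (1 + gl l (n+h_i))`. -/
def Ph {k : ℕ} (p : Fin k → Ch) (P : Finset ℕ) (h : Fin k → ℕ) (n : ℤ) : ℂ :=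
  ∏ i, (cj (p i) (n + h i) * ((uu P (n + h i) : ℝ) : ℂ))

/-- Its mean modulo `R` for the primes dividing `R`. -/
def MR {k : ℕ} (p : Fin k → Ch) (R : ℕ) (h : Fin k → ℕ) : ℂ :=
  (∑ n ∈ range R, Ph p R.primeFactors h n) / R




open Classical in
/-- The tuples of characters with `lcm(px.1, p_1.1, …, p_k.1) ≤ D`. -/
def TS (k Q D : ℕ) (px : Ch) : Finset (Fin k → Ch) :=
  (Fintype.piFinset fun _ : Fin k => PC Q).filter
    (fun p => px.1.lcm (univ.lcm fun i => (p i).1) ≤ D)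

/-- The modulus of a tuple of characters. -/
def Rp {k : ℕ} (px : Ch) (p : Fin k → Ch) : ℕ := px.1.lcm (univ.lcm fun i => (p i).1)

end

end Pool.Agent.Lib.H59P
end

-- from Lib.H59P.SDefs
section

/-!
# Project H59P, definitions for the second moments
-/

open Finset

namespace Pool.Agent.Lib.H59P

open Pool.Agent.Lib.H68T Pool.Agent.Lib.H18Q

noncomputable section

/-- The box `[0, X)^k`. -/
def bx (k X : ℕ) : Finset (Fin k → ℕ) := Fintype.piFinset fun _ : Fin k => range X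


/-- The base point of the cell of `m` for cells of length `H`. -/
def bs (H m : ℕ) : ℕ := m / H * H


/-- Coefficients: total size at most `3`, slowly varying, and the projection is their sum. -/
structure Cf (Q X : ℕ) (B : ℤ → Ch → ℂ) (mb : Ch → ℝ) : Prop where
  nonneg : ∀ p ∈ PC Q, 0 ≤ mb p
  sum : ∑ p ∈ PC Q, mb p ≤ 3
  le : ∀ m : ℤ, (X : ℤ) ≤ m → m ≤ 4 * X → ∀ p ∈ PC Q, ‖B m p‖ ≤ mb p
  slow : ∀ m : ℤ, (X : ℤ) ≤ m → m + 1 ≤ 4 * X → ∀ p ∈ PC Q, ‖B (m + 1) p - B m p‖ ≤ 2 * (Q : ℝ) ^ 3 / X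
  eq : ∀ m : ℤ, (X : ℤ) ≤ m → m ≤ 4 * X → ((Lk Q (X / Q ^ 2) m : ℝ) : ℂ) = SG Q (B m) m

end

end Pool.Agent.Lib.H59P
end

-- from Lib.H24P.Defs
section

/-!
# Project H24P (MP_0bf1d2_nt): power savings for Schinzel's problem with varying constant terms

Definitions. See `PROOF.md`. The notions of H59P (where the coordinates are `n + h_i`) for congruence
preserving maps `φ_i : ℤ → ℤ`.
-/

open Finset Polynomial

namespace Pool.Agent.Lib.H24P

open Pool.Agent.Lib.H68T Pool.Agent.Lib.H18Q Pool.Agent.Lib.H59P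

noncomputable section

/-! ## Local factors, mean values -/

/-- The maps `φ_i` preserve congruences. -/
def Cp {k : ℕ} (φ : Fin k → ℤ → ℤ) : Prop := ∀ (i : Fin k) (q n : ℤ), q ∣ φ i (n + q) - φ i n

/-- The local factor of the singular series at the prime `l`, minus `1`. -/
def tpf {k : ℕ} (l : ℕ) (φ : Fin k → ℤ → ℤ) : ℝ :=
  (∑ n ∈ range l, ∏ i, (1 + gl l (φ i n))) / l - 1

/-- The product of the local factors over the primes in `P`. -/
def SSf {k : ℕ} (P : Finset ℕ) (φ : Fin k → ℤ → ℤ) : ℝ := ∏ l ∈ P, (1 + tpf l φ)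

/-- `∏_{l ∣ d} tpf l φ` -/
def tdf {k : ℕ} (d : ℕ) (φ : Fin k → ℤ → ℤ) : ℝ := ∏ l ∈ d.primeFactors, tpf l φ

/-- `∏_i (1 + gl l (m_i)) - 1` -/
def Wf {k : ℕ} (l : ℕ) (m : Fin k → ℤ) : ℝ := ∏ i, (1 + gl l (m i)) - 1

/-- `∏_{l ∣ d} Wf l m` -/
def Wdf {k : ℕ} (d : ℕ) (m : Fin k → ℤ) : ℝ := ∏ l ∈ d.primeFactors, Wf l m

/-- `∏_i conj χ_i(m_i) ∏_{l ∈ P} (1 + gl l (m_i))` -/
def Phf {k : ℕ} (p : Fin k → Ch) (P : Finset ℕ) (m : Fin k → ℤ) : ℂ :=
  ∏ i, (cj (p i) (m i) * ((uu P (m i) : ℝ) : ℂ))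

/-- The values of the maps at `n`. -/
def at' {k : ℕ} (φ : Fin k → ℤ → ℤ) (n : ℤ) : Fin k → ℤ := fun i => φ i n

/-- The mean modulo `R` for the primes dividing `R`. -/
def MRf {k : ℕ} (p : Fin k → Ch) (R : ℕ) (φ : Fin k → ℤ → ℤ) : ℂ :=
  (∑ n ∈ range R, Phf p R.primeFactors (at' φ n)) / R

/-- The mean over a complete period `Q!` for all primes up to `Q`. -/
def MQf {k : ℕ} (Q : ℕ) (p : Fin k → Ch) (φ : Fin k → ℤ → ℤ) : ℂ :=
  (∑ n ∈ range Q.factorial, Phf p (pr Q) (at' φ n)) / (Q.factorial : ℂ)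

/-- `∏_i uu(m_i) (1 - th_i ψ(m_i))` -/
def fPf {k : ℕ} (Q : ℕ) (px : Ch) (th : Fin k → ℝ) (m : Fin k → ℤ) : ℝ :=
  ∏ i, (uu (pr Q) (m i) * (1 - th i * (cj px (m i)).re))

/-- The main term: the mean of `fPf` over a complete period. -/
def PMf {k : ℕ} (Q : ℕ) (px : Ch) (th : Fin k → ℝ) (φ : Fin k → ℤ → ℤ) : ℝ :=
  (∑ n ∈ range Q.factorial, fPf Q px th (at' φ n)) / (Q.factorial : ℝ)

open Classical in
/-- The tuples of characters with `lcm(m0, p_1.1, …, p_k.1) ≤ D`. -/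
def TSf (k Q D m0 : ℕ) : Finset (Fin k → Ch) :=
  (Fintype.piFinset fun _ : Fin k => PC Q).filter
    (fun p => m0.lcm (univ.lcm fun i => (p i).1) ≤ D)

/-- The modulus of a tuple of characters. -/
def Rf {k : ℕ} (m0 : ℕ) (p : Fin k → Ch) : ℕ := m0.lcm (univ.lcm fun i => (p i).1)

/-- No prime divides the product of the `φ_i(n)` for all `n`. -/
def NoFix {k : ℕ} (φ : Fin k → ℤ → ℤ) : Prop :=
  ∀ l : ℕ, l.Prime → ∃ n : ℤ, ∀ i, ¬ (l : ℤ) ∣ φ i n




/-- The linear coordinate: degree `1`, leading coefficient at most `A` in absolute value, primitive. -/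
structure Lin (A : ℕ) (B : ℤ[X]) : Prop where
  deg : B.natDegree = 1
  lc : B.leadingCoeff.natAbs ≤ A
  cop : IsCoprime (B.coeff 0) (B.coeff 1)

/-- The box `∏ [b_i, b_i + s_i)`. -/
def cub {k : ℕ} (b s : Fin k → ℕ) : Finset (Fin k → ℕ) :=
  Fintype.piFinset fun i => Ico (b i) (b i + s i)

/-- `∏ s_i` -/
def vol {k : ℕ} (s : Fin k → ℕ) : ℝ := ∏ i, (s i : ℝ)

/-- The component of the character `p` at level `Q`: `Gam Q r m conj χ(m) = ∑_{κ ∈ KS Q r} gk p κ m`. -/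
def Fc (Q : ℕ) (p : Ch) (m : ℤ) : ℂ := ∑ κ ∈ KS Q p.1, gk p κ m

/-- The regime: `Q` is a power of `X` between `X^(1/C)` and `X^(1/K)`. -/
def Rg (K C : ℝ) (Q X : ℕ) : Prop :=
  K * Real.log Q ≤ Real.log X ∧ Real.log X ≤ C * Real.log Q



/-- The values of the linear coordinate on `[X1, 2 X1)` are in `[Y, 3 Y)`. -/
structure GeoB (A X X1 Y : ℕ) (B : ℤ[X]) : Prop where
  lin : Lin A B
  lo : ∀ n : ℕ, n ∈ Ico X1 (2 * X1) → (Y : ℤ) ≤ B.eval (n : ℤ)
  hi : ∀ n : ℕ, n ∈ Ico X1 (2 * X1) → B.eval (n : ℤ) < 3 * Y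
  Ylo : X1 ≤ 2 * Y
  Yhi : Y ≤ A * X

end

end Pool.Agent.Lib.H24P
end

-- from Lib.H24P.Defs2
section

/-!
# Project H24P: definitions for the assembly
-/

open Finset Polynomial

namespace Pool.Agent.Lib.H24P

open Pool.Agent.Lib.H68T Pool.Agent.Lib.H18Q Pool.Agent.Lib.H59P

noncomputable section

/-- `⌊Q^x⌋` -/
def fl (Q : ℕ) (x : ℝ) : ℕ := ⌊(Q : ℝ) ^ x⌋₊




/-- The complete main term of a cell with coefficients `c`. -/
def MDf {k : ℕ} (Q m0 : ℕ) (c : Fin k → Ch → ℂ) (φ : Fin k → ℤ → ℤ) : ℂ :=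
  ∑ p ∈ TSf k Q (fl Q (1 / 16)) m0, (∏ i, c i (p i)) * MQf Q p φ


end

end Pool.Agent.Lib.H24P
end

-- from Lib.H59P.ZDefs
section

/-!
# Project H59P, definitions for the assembly
-/

open Finset

namespace Pool.Agent.Lib.H59P

open Pool.Agent.Lib.H68T Pool.Agent.Lib.H18Q

noncomputable section

/-- The main term of the cell with coefficients `c`: `∑_{p ∈ TS} ∏ c_i(p_i) (MR p R h) ∑_{d ∈ SF (D/R) R} td d h`,
`D = √Q`, `D1 = √D`. -/
def MC {k : ℕ} (Q : ℕ) (px : Ch) (c : Fin k → Ch → ℂ) (h : Fin k → ℕ) : ℂ :=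
  ∑ p ∈ TS k Q (Nat.sqrt (Nat.sqrt Q)) px, (∏ i, c i (p i)) *
    (MR p (Rp px p) h * ((∑ d ∈ SF (Nat.sqrt Q / Rp px p) (Rp px p), td d h : ℝ) : ℂ))

/-- The total main term: the sum over the `Q^8` cells of `n`. -/
def MT {k : ℕ} (Q X H : ℕ) (px : Ch) (B : ℤ → Ch → ℂ) (h : Fin k → ℕ) : ℂ :=
  ∑ j ∈ range (Q ^ 8), (H : ℂ) *
    MC Q px (fun i => B (((X + j * H + bs H (h i) : ℕ) : ℤ))) h



end

end Pool.Agent.Lib.H59P
end

-- from Lib.H59P.FDefs
section

/-!
# Project H59P, module F (frequencies): definitions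
-/

open Finset

namespace Pool.Agent.Lib.H59P

open Pool.Agent.Lib.H68T Pool.Agent.Lib.H18Q

noncomputable section

/-- The residues coprime to `q`. -/
def UR (q : ℕ) : Finset ℕ := (range q).filter (fun x => Nat.Coprime x q)

/-- The index set of the frequencies of a coordinate of conductor `r`: the pairs `(κ, x)`,
`κ ∈ KS Q r`, `x < r κ` coprime to `r κ`. -/
def FJ (Q r : ℕ) : Finset (ℕ × ℕ) :=
  open Classical in ((KS Q r) ×ˢ (range Q)).filter (fun j => j.2 ∈ UR (r * j.1))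

/-- The frequency `x/(r κ)` of the index `(κ, x)`. -/
def fr (r : ℕ) (j : ℕ × ℕ) : ℝ := (j.2 : ℝ) / ((r * j.1 : ℕ) : ℝ)

end

end Pool.Agent.Lib.H59P
end

-- from Lib.H59P.M3A
section

/-!
# Project H59P, chunks M3a, M3b: periodicity and bounds of the local functions
-/

open Finset

namespace Pool.Agent.Lib.H59P

open Pool.Agent.Lib.H68T Pool.Agent.Lib.H18Q

/-- `gl l` has period `l`. -/
theorem gl_per (l : ℕ) (m j : ℤ) : gl l (m + j * l) = gl l m := by
  unfold gl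
  have h : ((l : ℤ) ∣ m + j * l) ↔ (l : ℤ) ∣ m := by
    constructor
    · intro h
      have := (dvd_add_left (dvd_mul_left (l : ℤ) j)).1 h
      exact this
    · intro h
      exact dvd_add h (dvd_mul_left _ _)
  simp only [h]

/-- **M3a.** Bounds: for a prime `l`, `0 ≤ 1 + gl l m ≤ l/(l-1)`; `0 ≤ uu P m ≤ R/φ(R)` for
`P = R.primeFactors`; `‖Ph p P h n‖ ≤ ∏_i uu P (n+h_i)` for a set `P` of primes; `|Wl l h n| ≤ (l/(l-1))^k`,
`|tp l h| ≤ (l/(l-1))^k`, `0 ≤ 1 + tp l h ≤ (l/(l-1))^k`; `|Wd d h n| ≤ (d/φ(d))^k` and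
`|td d h| ≤ (d/φ(d))^k` for squarefree `d` (`∏_{l ∣ d} l/(l-1) = d/φ(d)`).

Proof. Directly; `(l/(l-1))^k ≥ 1`; `DirichletCharacter.norm_le_one`. -/
theorem M3a_gl (l : ℕ) (hl : l.Prime) (m : ℤ) : 0 ≤ 1 + gl l m ∧ 1 + gl l m ≤ (l : ℝ) / ((l : ℝ) - 1) := by
  have h2 : (2 : ℝ) ≤ l := by exact_mod_cast hl.two_le
  have h3 : (0 : ℝ) < (l : ℝ) - 1 := by linarith
  have h4 : (0 : ℝ) ≤ (l : ℝ) / ((l : ℝ) - 1) := by positivity
  unfold gl
  split_ifs with h
  · constructor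
    · norm_num
    · linarith
  · have h5 : (1 : ℝ) + 1 / ((l : ℝ) - 1) = (l : ℝ) / ((l : ℝ) - 1) := by
      field_simp
      ring
    rw [h5]
    exact ⟨h4, le_refl _⟩

theorem M3a_ratio (l : ℕ) (hl : l.Prime) : (1 : ℝ) ≤ (l : ℝ) / ((l : ℝ) - 1) := by
  have h2 : (2 : ℝ) ≤ l := by exact_mod_cast hl.two_le
  have h3 : (0 : ℝ) < (l : ℝ) - 1 := by linarith
  rw [le_div_iff₀ h3]
  linarith

theorem M3a_prod (R : ℕ) (hR : 0 < R) :
    ∏ l ∈ R.primeFactors, ((l : ℝ) / ((l : ℝ) - 1)) = (R : ℝ) / (Nat.totient R : ℝ) := by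
  have h1 : ((Nat.totient R : ℕ) : ℝ) = R * ∏ p ∈ R.primeFactors, (1 - (p : ℝ)⁻¹) := by
    have h := Nat.totient_eq_mul_prod_factors R
    have h' : (((Nat.totient R : ℕ) : ℚ) : ℝ) =
        ((R * ∏ p ∈ R.primeFactors, (1 - (p : ℚ)⁻¹) : ℚ) : ℝ) := by rw [h]
    push_cast at h'
    exact h'
  have h2' : (∏ l ∈ R.primeFactors, ((l : ℝ) / ((l : ℝ) - 1))) *
      ∏ p ∈ R.primeFactors, (1 - (p : ℝ)⁻¹) = 1 := by
    rw [← Finset.prod_mul_distrib]
    apply Finset.prod_eq_one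
    intro l hl
    have hl' := Nat.prime_of_mem_primeFactors hl
    have h2 : (2 : ℝ) ≤ l := by exact_mod_cast hl'.two_le
    have h3 : (l : ℝ) - 1 ≠ 0 := by linarith
    have h4 : (l : ℝ) ≠ 0 := by linarith
    field_simp
  have hφ : (0 : ℝ) < (Nat.totient R : ℝ) := by exact_mod_cast Nat.totient_pos.2 hR
  rw [eq_div_iff hφ.ne', h1]
  calc (∏ l ∈ R.primeFactors, ((l : ℝ) / ((l : ℝ) - 1))) *
      (R * ∏ p ∈ R.primeFactors, (1 - (p : ℝ)⁻¹))
      = R * ((∏ l ∈ R.primeFactors, ((l : ℝ) / ((l : ℝ) - 1))) *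
        ∏ p ∈ R.primeFactors, (1 - (p : ℝ)⁻¹)) := by ring
    _ = R := by rw [h2', mul_one]

theorem M3a_uu (R : ℕ) (hR : 0 < R) (m : ℤ) :
    0 ≤ uu R.primeFactors m ∧ uu R.primeFactors m ≤ (R : ℝ) / (Nat.totient R : ℝ) := by
  constructor
  · exact Finset.prod_nonneg fun l hl => (M3a_gl l (Nat.prime_of_mem_primeFactors hl) m).1
  · rw [← M3a_prod R hR]
    exact Finset.prod_le_prod (fun l hl => (M3a_gl l (Nat.prime_of_mem_primeFactors hl) m).1)
      (fun l hl => (M3a_gl l (Nat.prime_of_mem_primeFactors hl) m).2)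

theorem M3a_uu_nonneg (P : Finset ℕ) (hP : ∀ l ∈ P, l.Prime) (m : ℤ) : 0 ≤ uu P m :=
  Finset.prod_nonneg fun l hl => (M3a_gl l (hP l hl) m).1




end Pool.Agent.Lib.H59P
end

-- from Lib.H59P.M3B
section

/-!
# Project H59P, chunk M3b: elementary bound for n/φ(n)
-/

open Finset

namespace Pool.Agent.Lib.H59P

open Pool.Agent.Lib.H68T Pool.Agent.Lib.H18Q

theorem m3b_prod (S : Finset ℕ) : (∀ l ∈ S, 2 ≤ l) →
    ∏ l ∈ S, ((l : ℝ) / ((l : ℝ) - 1)) ≤ (S.card : ℝ) + 1 := by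
  induction S using Finset.induction_on_max with
  | empty => intro _; simp
  | insert a s ha ih =>
    intro h2
    have hns : a ∉ s := fun h => lt_irrefl _ (ha a h)
    have hsub : s ⊆ Finset.Ico 2 a := by
      intro x hx
      rw [Finset.mem_Ico]
      exact ⟨h2 x (Finset.mem_insert_of_mem hx), ha x hx⟩
    have hcard : s.card ≤ a - 2 := by
      have := Finset.card_le_card hsub
      rwa [Nat.card_Ico] at this
    have ha2 : 2 ≤ a := h2 a (Finset.mem_insert_self _ _)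
    have hca : s.card + 2 ≤ a := by omega
    have hca' : (s.card : ℝ) + 2 ≤ a := by exact_mod_cast hca
    have hs0 : (0 : ℝ) ≤ s.card := Nat.cast_nonneg _
    rw [Finset.prod_insert hns, Finset.card_insert_of_notMem hns]
    have ih' := ih (fun l hl => h2 l (Finset.mem_insert_of_mem hl))
    have h3 : (a : ℝ) / ((a : ℝ) - 1) ≤ ((s.card : ℝ) + 2) / ((s.card : ℝ) + 1) := by
      rw [div_le_div_iff₀ (by linarith) (by linarith)]
      nlinarith
    have h4 : (0 : ℝ) ≤ ∏ l ∈ s, ((l : ℝ) / ((l : ℝ) - 1)) := by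
      apply Finset.prod_nonneg
      intro l hl
      have : (2 : ℝ) ≤ l := by exact_mod_cast h2 l (Finset.mem_insert_of_mem hl)
      exact div_nonneg (by linarith) (by linarith)
    calc (a : ℝ) / ((a : ℝ) - 1) * ∏ l ∈ s, ((l : ℝ) / ((l : ℝ) - 1))
        ≤ ((s.card : ℝ) + 2) / ((s.card : ℝ) + 1) * ((s.card : ℝ) + 1) :=
          mul_le_mul h3 ih' h4 (by positivity)
      _ = ((s.card : ℝ) + 2) := by field_simp
      _ = ((s.card + 1 : ℕ) : ℝ) + 1 := by push_cast; ring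

/-- `n/φ(n) ≤ 2 (1 + log n)`.

Proof. `n/φ(n) = ∏_{l ∣ n} l/(l-1) ≤ ∏_{j=2}^{ω+1} j/(j-1) = ω + 1`, `ω = ω(n)` the number of prime factors
(the `j`-th smallest element of a set of integers `≥ 2` is `≥ j + 1`; induction on the cardinality of the
set, removing the maximum, which is at least the cardinality plus one), and `2^ω ≤ n`, so
`ω ≤ log n/log 2 ≤ 2 log n`. -/
theorem M3b (n : ℕ) (hn : 1 ≤ n) : (n : ℝ) / (Nat.totient n : ℝ) ≤ 2 * (1 + Real.log n) := by
  rw [← M3a_prod n hn]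
  have h1 := m3b_prod n.primeFactors (fun l hl => (Nat.prime_of_mem_primeFactors hl).two_le)
  have h2 : 2 ^ n.primeFactors.card ≤ n := by
    calc 2 ^ n.primeFactors.card = ∏ _l ∈ n.primeFactors, 2 := by rw [Finset.prod_const]
      _ ≤ ∏ l ∈ n.primeFactors, l :=
        Finset.prod_le_prod' (fun l hl => (Nat.prime_of_mem_primeFactors hl).two_le)
      _ ≤ n := Nat.le_of_dvd hn (Nat.prod_primeFactors_dvd n)
  have h3 : (n.primeFactors.card : ℝ) * Real.log 2 ≤ Real.log n := by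
    rw [← Real.log_pow]
    apply Real.log_le_log (by positivity)
    exact_mod_cast h2
  have h4 : (0.5 : ℝ) < Real.log 2 := by
    have := Real.log_two_gt_d9
    linarith
  have h5 : (0 : ℝ) ≤ n.primeFactors.card := Nat.cast_nonneg _
  nlinarith

end Pool.Agent.Lib.H59P
end

-- from Lib.H59P.M3C
section

/-!
# Project H59P, chunk M3c
-/

open Finset

namespace Pool.Agent.Lib.H59P

open Pool.Agent.Lib.H68T Pool.Agent.Lib.H18Q

theorem m3c_per (f : ℤ → ℂ) (P : ℕ) (hf : ∀ m, f (m + P) = f m) (j : ℕ) (m : ℤ) :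
    f (m + j * P) = f m := by
  induction j with
  | zero => simp
  | succ j ih =>
    have : m + ((j + 1 : ℕ) : ℤ) * P = (m + j * P) + P := by push_cast; ring
    rw [this, hf, ih]

/-- the sum over a period does not depend on the starting point -/
theorem m3c_start (f : ℤ → ℂ) (P : ℕ) (hf : ∀ m, f (m + P) = f m) (a : ℕ) :
    ∑ n ∈ range P, f ((a : ℤ) + n) = ∑ n ∈ range P, f n := by
  induction a with
  | zero => simp
  | succ a ih =>
    rw [← ih]
    have h1 : ∑ n ∈ range (P + 1), f ((a : ℤ) + n) =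
        ∑ n ∈ range P, f ((a : ℤ) + n) + f ((a : ℤ) + P) := by
      rw [Finset.sum_range_succ]
    have h2 : ∑ n ∈ range (P + 1), f ((a : ℤ) + n) =
        ∑ n ∈ range P, f (((a + 1 : ℕ) : ℤ) + n) + f (a : ℤ) := by
      rw [Finset.sum_range_succ']
      congr 1
      · apply Finset.sum_congr rfl
        intro n _
        congr 1
        push_cast
        ring
    have h3 := hf a
    rw [h3] at h1
    rw [h1] at h2
    exact (add_right_cancel h2).symm

/-- A periodic function over an interval.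

Proof. `H = j P + s`, `s < P`; `j` full periods (each with the same sum, `CB_shift`) and a rest with `s < P`
terms: the difference is at most `s Φ + (s/P) ‖∑‖ ≤ 2 P Φ`. -/
theorem M3c (f : ℤ → ℂ) (P : ℕ) (hP : 0 < P) (hf : ∀ m, f (m + P) = f m) (Φ : ℝ) (hΦ : ∀ m, ‖f m‖ ≤ Φ)
    (a H : ℕ) :
    ‖∑ n ∈ Ico a (a + H), f n - H * ((∑ n ∈ range P, f n) / P)‖ ≤ 2 * P * Φ := by
  have hP0 : (0 : ℝ) < P := by exact_mod_cast hP
  have hΦ0 : 0 ≤ Φ := le_trans (norm_nonneg _) (hΦ 0)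
  have hsum : ‖∑ n ∈ range P, f n‖ ≤ P * Φ := by
    calc ‖∑ n ∈ range P, f n‖ ≤ ∑ n ∈ range P, ‖f n‖ := norm_sum_le _ _
      _ ≤ ∑ _n ∈ range P, Φ := Finset.sum_le_sum fun n _ => hΦ n
      _ = P * Φ := by rw [Finset.sum_const, Finset.card_range, nsmul_eq_mul]
  have hIco : ∀ H : ℕ, ∑ n ∈ Ico a (a + H), f n = ∑ n ∈ range H, f ((a : ℤ) + n) := by
    intro H
    rw [Finset.sum_Ico_eq_sum_range]
    have : a + H - a = H := by omega
    rw [this]
    apply Finset.sum_congr rfl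
    intro n _
    push_cast
    rfl
  have hfull : ∀ j s : ℕ, ∑ n ∈ range (j * P + s), f ((a : ℤ) + n) =
      j * ∑ n ∈ range P, f n + ∑ n ∈ range s, f ((a : ℤ) + n) := by
    intro j
    induction j with
    | zero => intro s; simp
    | succ j ih =>
      intro s
      have e1 : (j + 1) * P + s = (j * P + s) + P := by ring
      rw [e1, Finset.sum_range_add, ih s]
      have e2 : ∑ x ∈ range P, f ((a : ℤ) + ((j * P + s + x : ℕ) : ℤ)) = ∑ n ∈ range P, f n := by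
        have := m3c_start f P hf (a + s)
        rw [← this]
        apply Finset.sum_congr rfl
        intro n _
        have e3 : (a : ℤ) + ((j * P + s + n : ℕ) : ℤ) = (((a + s : ℕ) : ℤ) + n) + j * P := by
          push_cast; ring
        rw [e3, m3c_per f P hf]
      rw [e2]
      push_cast
      ring
  have hH : H = (H / P) * P + H % P := by
    have := Nat.div_add_mod H P
    rw [mul_comm] at this
    exact this.symm
  set j := H / P with hj
  set s := H % P with hs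
  have hsP : s < P := Nat.mod_lt _ hP
  rw [hIco]
  have e1 : ∑ n ∈ range H, f ((a : ℤ) + n) =
      j * ∑ n ∈ range P, f n + ∑ n ∈ range s, f ((a : ℤ) + n) := by
    have := hfull j s
    rw [← hH] at this
    exact this
  rw [e1]
  have hPc : (P : ℂ) ≠ 0 := by exact_mod_cast hP.ne'
  have e2 : (j : ℂ) * ∑ n ∈ range P, f n + ∑ n ∈ range s, f ((a : ℤ) + n) -
      H * ((∑ n ∈ range P, f n) / P) =
      ∑ n ∈ range s, f ((a : ℤ) + n) - (s : ℂ) / P * ∑ n ∈ range P, f n := by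
    have : (H : ℂ) = j * P + s := by exact_mod_cast hH
    rw [this]
    field_simp
    ring
  rw [e2]
  have hrest : ‖∑ n ∈ range s, f ((a : ℤ) + n)‖ ≤ P * Φ := by
    calc ‖∑ n ∈ range s, f ((a : ℤ) + n)‖ ≤ ∑ n ∈ range s, ‖f ((a : ℤ) + n)‖ := norm_sum_le _ _
      _ ≤ ∑ _n ∈ range s, Φ := Finset.sum_le_sum fun n _ => hΦ _
      _ = s * Φ := by rw [Finset.sum_const, Finset.card_range, nsmul_eq_mul]
      _ ≤ P * Φ := by
        apply mul_le_mul_of_nonneg_right _ hΦ0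
        exact_mod_cast hsP.le
  have hfr : ‖(s : ℂ) / P‖ ≤ 1 := by
    rw [norm_div, Complex.norm_natCast, Complex.norm_natCast, div_le_one hP0]
    exact_mod_cast hsP.le
  calc ‖∑ n ∈ range s, f ((a : ℤ) + n) - (s : ℂ) / P * ∑ n ∈ range P, f n‖
      ≤ ‖∑ n ∈ range s, f ((a : ℤ) + n)‖ + ‖(s : ℂ) / P * ∑ n ∈ range P, f n‖ := norm_sub_le _ _
    _ ≤ P * Φ + 1 * (P * Φ) := by
      apply add_le_add hrest
      rw [norm_mul]
      exact mul_le_mul hfr hsum (norm_nonneg _) zero_le_one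
    _ = 2 * P * Φ := by ring

end Pool.Agent.Lib.H59P
end

-- from Lib.H59P.M3D
section

/-!
# Project H59P, chunk M3d
-/

open Finset

namespace Pool.Agent.Lib.H59P

open Pool.Agent.Lib.H68T Pool.Agent.Lib.H18Q

theorem m3d_mod (f : ℤ → ℂ) (P : ℕ) (hf : ∀ m, f (m + P) = f m) (n : ℕ) :
    f ((n % P : ℕ) : ℤ) = f n := by
  have h := m3c_per f P hf (n / P) ((n % P : ℕ) : ℤ)
  rw [← h]
  congr 1
  have := Nat.mod_add_div n P
  rw [mul_comm] at this
  exact_mod_cast this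

/-- Chinese remainder theorem for two periodic functions.

Proof. `c ↦ (c mod a, c mod b)` is a bijection from `range (a b)` to `range a × range b`
(`Nat.chineseRemainder`, compare `cc1_two` in `H18Q/CC1.lean`, same proof for complex values). -/
theorem M3d (f g : ℤ → ℂ) (a b : ℕ) (ha : 0 < a) (hb : 0 < b) (hab : Nat.Coprime a b)
    (hf : ∀ m, f (m + a) = f m) (hg : ∀ m, g (m + b) = g m) :
    ∑ n ∈ range (a * b), f n * g n = (∑ n ∈ range a, f n) * ∑ n ∈ range b, g n := by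
  rw [Finset.sum_mul_sum, ← Finset.sum_product']
  apply Finset.sum_bij (fun (n : ℕ) _ => (n % a, n % b))
  · intro n _
    rw [Finset.mem_product, Finset.mem_range, Finset.mem_range]
    exact ⟨Nat.mod_lt _ ha, Nat.mod_lt _ hb⟩
  · intro n hn m hm h
    rw [Finset.mem_range] at hn hm
    have h1 : n % a = m % a := congrArg Prod.fst h
    have h2 : n % b = m % b := congrArg Prod.snd h
    have h3 : n ≡ m [MOD (a * b)] :=
      (Nat.modEq_and_modEq_iff_modEq_mul hab).1 ⟨h1, h2⟩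
    exact Nat.ModEq.eq_of_lt_of_lt h3 hn hm
  · rintro ⟨x, y⟩ hxy
    rw [Finset.mem_product, Finset.mem_range, Finset.mem_range] at hxy
    refine ⟨(Nat.chineseRemainder hab x y : ℕ), ?_, ?_⟩
    · rw [Finset.mem_range]
      exact Nat.chineseRemainder_lt_mul hab x y ha.ne' hb.ne'
    · have h1 := (Nat.chineseRemainder hab x y).2.1
      have h2 := (Nat.chineseRemainder hab x y).2.2
      have h3 : (Nat.chineseRemainder hab x y : ℕ) % a = x := by
        have := h1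
        unfold Nat.ModEq at this
        rw [this, Nat.mod_eq_of_lt hxy.1]
      have h4 : (Nat.chineseRemainder hab x y : ℕ) % b = y := by
        have := h2
        unfold Nat.ModEq at this
        rw [this, Nat.mod_eq_of_lt hxy.2]
      exact Prod.ext h3 h4
  · intro n _
    show f n * g n = f ((n % a : ℕ) : ℤ) * g ((n % b : ℕ) : ℤ)
    rw [m3d_mod f a hf, m3d_mod g b hg]

end Pool.Agent.Lib.H59P
end

-- from Lib.H59P.F1A
section

/-!
# Project H59P, chunk F1a: Fourier expansion of a primitive character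
-/

open Finset

namespace Pool.Agent.Lib.H59P

open Pool.Agent.Lib.H68T Pool.Agent.Lib.H18Q

theorem f1a_e (r : ℕ) [NeZero r] (m : ℤ) (b : ℕ) : ZMod.stdAddChar ((m : ZMod r) * (b : ZMod r)) =
    e ((m : ℝ) * ((b : ℝ) / r)) := by
  have h := ZMod.stdAddChar_coe (N := r) (m * (b : ℤ))
  push_cast at h
  rw [h, e]
  congr 1
  push_cast
  ring

/-- **F1a.** Proof. `gaussSum_mulShift_of_isPrimitive` (as in `ls_gauss`, `H59C/LSB.lean`) and `lsb_gauss`:
`τ conj χ(m) = ∑_y χ(y) e(y m / r)`, `|τ|² = r`, `χ(y) = 0` if `(y,r) ≠ 1`: `d y = χ(y)/τ`. Sum over `ZMod r`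
to `range r`: `CA_range` (`H18Q/CA.lean`), `ZMod.stdAddChar` to `e`: `lsb_e`. -/
theorem F1a (r : ℕ) [NeZero r] (χ : DirichletCharacter ℂ r) (hχ : χ.IsPrimitive) : ∃ d : ℕ → ℂ,
    (∀ y, ‖d y‖ ^ 2 ≤ 1 / (r : ℝ)) ∧ ∀ m : ℤ, (starRingEnd ℂ) (χ (m : ZMod r)) =
      ∑ y ∈ UR r, d y * e ((m : ℝ) * ((y : ℝ) / r)) := by
  have hr0 : (0 : ℝ) < r := by exact_mod_cast NeZero.pos r
  obtain ⟨τ, hτ⟩ : ∃ τ : ℂ, τ = gaussSum χ (ZMod.stdAddChar (N := r)) := ⟨_, rfl⟩
  have hn : ‖τ‖ ^ 2 = r := by rw [hτ]; exact Pool.Agent.Lib.H59C.lsb_gauss r hχ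
  have hτ0 : τ ≠ 0 := by
    intro h
    rw [h, norm_zero] at hn
    norm_num at hn
    exact hr0.ne hn
  refine ⟨fun y => χ (y : ZMod r) / τ, ?_, ?_⟩
  · intro y
    rw [norm_div, div_pow, hn]
    have h1 : ‖χ (y : ZMod r)‖ ^ 2 ≤ 1 := pow_le_one₀ (norm_nonneg _) (DirichletCharacter.norm_le_one _ _)
    exact div_le_div_of_nonneg_right h1 hr0.le
  · intro m
    have h1 : (starRingEnd ℂ) (χ (m : ZMod r)) = χ⁻¹ (m : ZMod r) := MulChar.star_apply' χ (m : ZMod r)
    have h2 := gaussSum_mulShift_of_isPrimitive (ZMod.stdAddChar (N := r)) hχ (m : ZMod r)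
    rw [← hτ, gaussSum] at h2
    have h3 : ∑ b : ZMod r, χ b * (AddChar.mulShift (ZMod.stdAddChar (N := r)) (m : ZMod r)) b =
        ∑ y ∈ UR r, χ (y : ZMod r) * e ((m : ℝ) * ((y : ℝ) / r)) := by
      rw [← CA_range r fun b => χ b * (AddChar.mulShift (ZMod.stdAddChar (N := r)) (m : ZMod r)) b]
      unfold UR
      rw [sum_filter]
      refine sum_congr rfl fun y _ => ?_
      split_ifs with hy
      · rw [AddChar.mulShift_apply, f1a_e]
      · have h4 : ¬ IsUnit (y : ZMod r) := by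
          rw [ZMod.isUnit_iff_coprime]
          exact hy
        rw [MulChar.map_nonunit χ h4, zero_mul]
    rw [h1]
    have h5 : χ⁻¹ (m : ZMod r) = (∑ y ∈ UR r, χ (y : ZMod r) * e ((m : ℝ) * ((y : ℝ) / r))) / τ := by
      rw [← h3, h2, mul_div_cancel_right₀ _ hτ0]
    rw [h5, sum_div]
    refine sum_congr rfl fun y _ => ?_
    ring

end Pool.Agent.Lib.H59P
end

-- from Lib.H59P.F1B
section

/-!
# Project H59P, chunk F1b: the Chinese remainder theorem for frequencies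
-/

open Finset

namespace Pool.Agent.Lib.H59P

open Pool.Agent.Lib.H68T Pool.Agent.Lib.H18Q

/-- an inverse modulo `n`, also for `n = 1` -/
theorem f1b_inv (a n : ℕ) (h : Nat.Coprime a n) : ∃ a' : ℕ, a * a' ≡ 1 [MOD n] ∧ Nat.Coprime a' n := by
  rcases Nat.eq_zero_or_pos n with h0 | h0
  · subst h0
    rw [Nat.coprime_zero_right] at h
    exact ⟨1, by rw [h], by simp⟩
  · obtain ⟨x, -, hx⟩ := Nat.exists_mul_mod_eq_of_coprime 1 h h0.ne'
    have hx' : a * x ≡ 1 [MOD n] := hx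
    refine ⟨x, hx', ?_⟩
    have h1 := hx'.gcd_eq
    rw [Nat.gcd_one_left] at h1
    exact Nat.Coprime.coprime_mul_left (k := a) h1

theorem f1b_e_per (m : ℤ) (N : ℕ) (hN : 1 ≤ N) (x y : ℕ) (h : x ≡ y [MOD N]) :
    e ((m : ℝ) * ((x : ℝ) / (N : ℝ))) = e ((m : ℝ) * ((y : ℝ) / (N : ℝ))) := by
  have hN0 : (N : ℝ) ≠ 0 := by
    have : (1 : ℝ) ≤ N := by exact_mod_cast hN
    linarith
  obtain ⟨t, ht⟩ := (Nat.modEq_iff_dvd).1 h
  have h1 : (y : ℝ) = x + N * t := by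
    have h2 : (y : ℤ) = x + N * t := by linarith
    exact_mod_cast h2
  have h3 : (m : ℝ) * ((y : ℝ) / (N : ℝ)) = (m : ℝ) * ((x : ℝ) / (N : ℝ)) + ((m * t : ℤ) : ℝ) := by
    rw [h1]
    push_cast
    field_simp
  rw [h3, CQ1_e_add, CQ1_e_int, mul_one]

/-- **F1b.** Proof. The map `(y, z) ↦ (y κ + z r) mod r κ` is a bijection from `UR r × UR κ` onto `UR (r κ)`
(injective: modulo `r` it is `y κ`, modulo `κ` it is `z r`; coprime to `r κ`; the cardinalities `φ(r) φ(κ) = φ(r κ)`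
agree, or the inverse). `e(m (y κ + z r)/(r κ)) = e(m y/r) e(m z/κ)`, and multiples of `r κ` do not change
`e(m x/(r κ))`, `m` an integer. So `c x = d (y x)` where `y x` is the `y` of `x` (any choice, for example
`y x = the y ∈ UR r with y κ ≡ x mod r`). -/
theorem F1b (r κ : ℕ) (hr : 1 ≤ r) (hκ : 1 ≤ κ) (hc : Nat.Coprime κ r) (d : ℕ → ℂ) : ∃ c : ℕ → ℂ,
    (∀ x, ∃ y, c x = d y) ∧ ∀ m : ℤ,
      (∑ y ∈ UR r, d y * e ((m : ℝ) * ((y : ℝ) / r))) * (∑ z ∈ UR κ, e ((m : ℝ) * ((z : ℝ) / κ))) =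
      ∑ x ∈ UR (r * κ), c x * e ((m : ℝ) * fr r (κ, x)) := by
  obtain ⟨κ', hκ', hκc⟩ := f1b_inv κ r hc
  obtain ⟨r', hr', hrc⟩ := f1b_inv r κ hc.symm
  have hr0 : (r : ℝ) ≠ 0 := by
    have : (1 : ℝ) ≤ r := by exact_mod_cast hr
    linarith
  have hκ0 : (κ : ℝ) ≠ 0 := by
    have : (1 : ℝ) ≤ κ := by exact_mod_cast hκ
    linarith
  have hN : 1 ≤ r * κ := Nat.one_le_iff_ne_zero.2 (Nat.mul_ne_zero (by omega) (by omega))
  refine ⟨fun x => d (x * κ' % r), fun x => ⟨_, rfl⟩, fun m => ?_⟩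
  rw [sum_mul_sum, ← sum_product']
  -- congruences
  have c1 : ∀ y z : ℕ, (y * κ + z * r) % (r * κ) * κ' ≡ y [MOD r] := by
    intro y z
    have h1 : (y * κ + z * r) % (r * κ) ≡ y * κ + z * r [MOD r] :=
      (Nat.mod_modEq _ _).of_dvd (dvd_mul_right r κ)
    have h2 : y * κ + z * r ≡ y * κ [MOD r] := by
      have : y * κ + z * r ≡ y * κ + 0 [MOD r] :=
        Nat.ModEq.add_left _ ((Nat.modEq_zero_iff_dvd).2 (dvd_mul_left r z))
      simp only [add_zero, zero_add] at this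
      exact this
    have h3 : y * κ * κ' ≡ y * 1 [MOD r] := by
      rw [mul_assoc]
      exact Nat.ModEq.mul_left y hκ'
    rw [mul_one] at h3
    exact ((h1.trans h2).mul_right κ').trans h3
  have c2 : ∀ y z : ℕ, (y * κ + z * r) % (r * κ) * r' ≡ z [MOD κ] := by
    intro y z
    have h1 : (y * κ + z * r) % (r * κ) ≡ y * κ + z * r [MOD κ] :=
      (Nat.mod_modEq _ _).of_dvd (dvd_mul_left κ r)
    have h2 : y * κ + z * r ≡ z * r [MOD κ] := by
      have : y * κ + z * r ≡ 0 + z * r [MOD κ] :=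
        Nat.ModEq.add_right _ ((Nat.modEq_zero_iff_dvd).2 (dvd_mul_left κ y))
      simp only [add_zero, zero_add] at this
      exact this
    have h3 : z * r * r' ≡ z * 1 [MOD κ] := by
      rw [mul_assoc]
      exact Nat.ModEq.mul_left z hr'
    rw [mul_one] at h3
    exact ((h1.trans h2).mul_right r').trans h3
  have c3 : ∀ x : ℕ, (x * κ' % r * κ + x * r' % κ * r) % (r * κ) ≡ x [MOD r * κ] := by
    intro x
    refine (Nat.mod_modEq _ _).trans ?_
    rw [← Nat.modEq_and_modEq_iff_modEq_mul hc.symm]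
    constructor
    · have h1 : x * κ' % r * κ + x * r' % κ * r ≡ x * κ' * κ + 0 [MOD r] :=
        ((Nat.mod_modEq _ _).mul_right κ).add ((Nat.modEq_zero_iff_dvd).2 (dvd_mul_left r _))
      refine h1.trans ?_
      rw [add_zero, mul_assoc, mul_comm κ' κ]
      have h2 := Nat.ModEq.mul_left x hκ'
      rwa [mul_one] at h2
    · have h1 : x * κ' % r * κ + x * r' % κ * r ≡ 0 + x * r' * r [MOD κ] :=
        ((Nat.modEq_zero_iff_dvd).2 (dvd_mul_left κ _)).add ((Nat.mod_modEq _ _).mul_right r)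
      refine h1.trans ?_
      rw [zero_add, mul_assoc, mul_comm r' r]
      have h2 := Nat.ModEq.mul_left x hr'
      rwa [mul_one] at h2
  refine sum_nbij' (fun p => (p.1 * κ + p.2 * r) % (r * κ)) (fun x => (x * κ' % r, x * r' % κ)) ?_ ?_ ?_ ?_ ?_
  · rintro ⟨y, z⟩ hp
    rw [mem_product] at hp
    unfold UR at hp ⊢
    simp only [mem_filter, mem_range] at hp ⊢
    refine ⟨Nat.mod_lt _ hN, ?_⟩
    have h1 : Nat.Coprime (y * κ + z * r) r := by
      have h2 : y * κ + z * r ≡ y * κ + 0 [MOD r] :=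
        Nat.ModEq.add_left _ ((Nat.modEq_zero_iff_dvd).2 (dvd_mul_left r z))
      have h3 := h2.gcd_eq
      rw [add_zero] at h3
      have h4 : Nat.Coprime (y * κ) r := Nat.Coprime.mul_left hp.1.2 hc
      exact h3.trans h4
    have h5 : Nat.Coprime (y * κ + z * r) κ := by
      have h2 : y * κ + z * r ≡ 0 + z * r [MOD κ] :=
        Nat.ModEq.add_right _ ((Nat.modEq_zero_iff_dvd).2 (dvd_mul_left κ y))
      have h3 := h2.gcd_eq
      rw [zero_add] at h3
      have h4 : Nat.Coprime (z * r) κ := Nat.Coprime.mul_left hp.2.2 hc.symm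
      exact h3.trans h4
    have h6 : Nat.Coprime (y * κ + z * r) (r * κ) := Nat.Coprime.mul_right h1 h5
    exact (Nat.mod_modEq (y * κ + z * r) (r * κ)).gcd_eq.trans h6
  · intro x hx
    rw [mem_product]
    unfold UR at hx ⊢
    simp only [mem_filter, mem_range] at hx ⊢
    have h1 : Nat.Coprime x r := Nat.Coprime.coprime_mul_right_right hx.2
    have h2 : Nat.Coprime x κ := Nat.Coprime.coprime_mul_left_right hx.2
    have h3 : Nat.Coprime (x * κ') r := Nat.Coprime.mul_left h1 hκc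
    have h4 : Nat.Coprime (x * r') κ := Nat.Coprime.mul_left h2 hrc
    exact ⟨⟨Nat.mod_lt _ hr, (Nat.mod_modEq (x * κ') r).gcd_eq.trans h3⟩,
      ⟨Nat.mod_lt _ hκ, (Nat.mod_modEq (x * r') κ).gcd_eq.trans h4⟩⟩
  · rintro ⟨y, z⟩ hp
    rw [mem_product] at hp
    unfold UR at hp
    simp only [mem_filter, mem_range] at hp
    have h1 := c1 y z
    have h2 := c2 y z
    unfold Nat.ModEq at h1 h2
    rw [Nat.mod_eq_of_lt hp.1.1] at h1
    rw [Nat.mod_eq_of_lt hp.2.1] at h2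
    exact Prod.ext h1 h2
  · intro x hx
    unfold UR at hx
    simp only [mem_filter, mem_range] at hx
    have h1 := c3 x
    unfold Nat.ModEq at h1
    rw [Nat.mod_mod, Nat.mod_eq_of_lt hx.1] at h1
    exact h1
  · rintro ⟨y, z⟩ hp
    rw [mem_product] at hp
    unfold UR at hp
    simp only [mem_filter, mem_range] at hp
    have h1 := c1 y z
    unfold Nat.ModEq at h1
    rw [Nat.mod_eq_of_lt hp.1.1] at h1
    simp only
    rw [h1, mul_assoc, ← CQ1_e_add]
    congr 1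
    unfold fr
    have h2 := f1b_e_per m (r * κ) hN _ _ (Nat.mod_modEq (y * κ + z * r) (r * κ))
    simp only
    rw [h2]
    congr 1
    push_cast
    field_simp

end Pool.Agent.Lib.H59P
end

-- from Lib.H59P.F2
section

/-!
# Project H59P, chunk F2: spacing of the frequencies
-/

open Finset

namespace Pool.Agent.Lib.H59P

open Pool.Agent.Lib.H68T Pool.Agent.Lib.H18Q

theorem f2_geo (b H : ℕ) (α : ℝ) :
    ‖∑ h ∈ Ico b (b + H), e ((h : ℝ) * α)‖ ≤ H ∧ ‖∑ h ∈ Ico b (b + H), e ((h : ℝ) * α)‖ * (2 * nd α) ≤ 1 := by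
  have h0 : ∀ x : ℝ, ‖e x‖ = 1 := by
    intro x
    unfold e
    rw [show (2 * Real.pi * x * Complex.I : ℂ) = ((2 * Real.pi * x : ℝ) : ℂ) * Complex.I by push_cast; ring,
      Complex.norm_exp_ofReal_mul_I]
  constructor
  · refine (norm_sum_le _ _).trans ?_
    simp_rw [h0]
    rw [sum_const, Nat.card_Ico, nsmul_eq_mul, mul_one]
    simp
  · have h1 : (e α - 1) * ∑ h ∈ Ico b (b + H), e ((h : ℝ) * α) =
        e (((b + H : ℕ) : ℝ) * α) - e ((b : ℝ) * α) := by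
      rw [sum_Ico_eq_sum_range, Nat.add_sub_cancel_left, mul_sum]
      have h2 : ∀ i ∈ range H, (e α - 1) * e (((b + i : ℕ) : ℝ) * α) =
          (fun i : ℕ => e (((b + i : ℕ) : ℝ) * α)) (i + 1) - (fun i : ℕ => e (((b + i : ℕ) : ℝ) * α)) i := by
        intro i _
        have h3 : e (((b + (i + 1) : ℕ) : ℝ) * α) = e α * e (((b + i : ℕ) : ℝ) * α) := by
          rw [← PV_e_add]
          congr 1
          push_cast
          ring
        simp only [h3]
        ring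
      rw [sum_congr rfl h2]
      have h3 := sum_range_sub (fun i : ℕ => e (((b + i : ℕ) : ℝ) * α)) H
      rw [h3]
      simp
    have h4 := congrArg norm h1
    rw [norm_mul] at h4
    have h5 : ‖e (((b + H : ℕ) : ℝ) * α) - e ((b : ℝ) * α)‖ ≤ 2 := by
      refine (norm_sub_le _ _).trans ?_
      rw [h0, h0]
      norm_num
    have h6 := VB_four_nd_le α
    have h7 : 4 * nd α * ‖∑ h ∈ Ico b (b + H), e ((h : ℝ) * α)‖ ≤ 2 := by
      calc 4 * nd α * ‖∑ h ∈ Ico b (b + H), e ((h : ℝ) * α)‖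
          ≤ ‖e α - 1‖ * ‖∑ h ∈ Ico b (b + H), e ((h : ℝ) * α)‖ := by gcongr
        _ ≤ 2 := by rw [h4]; exact h5
    linarith

theorem f2_nd (Q q q' x x' : ℕ) (hq : 1 ≤ q) (hq' : 1 ≤ q') (hqQ : q ≤ Q) (hqQ' : q' ≤ Q)
    (hx : x < q) (hx' : x' < q') (hc : Nat.Coprime x q) (hc' : Nat.Coprime x' q')
    (hne : ¬ (q = q' ∧ x = x')) :
    1 / (Q : ℝ) ^ 2 ≤ nd ((x : ℝ) / q - (x' : ℝ) / q') := by
  set m : ℤ := round ((x : ℝ) / q - (x' : ℝ) / q') with hm
  have hqr : (0 : ℝ) < q := by exact_mod_cast hq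
  have hqr' : (0 : ℝ) < q' := by exact_mod_cast hq'
  have hQr : (0 : ℝ) < Q := by
    have : (q : ℝ) ≤ Q := by exact_mod_cast hqQ
    linarith
  set N : ℤ := (x : ℤ) * q' - x' * q - m * (q * q') with hN
  have h1 : nd ((x : ℝ) / q - (x' : ℝ) / q') = |(N : ℝ)| / (q * q') := by
    have h2 : (x : ℝ) / q - (x' : ℝ) / q' - m = (N : ℝ) / (q * q') := by
      rw [hN]
      push_cast
      field_simp
    have h3 : nd ((x : ℝ) / q - (x' : ℝ) / q') = |(x : ℝ) / q - (x' : ℝ) / q' - m| := rfl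
    rw [h3, h2, abs_div, abs_of_pos (mul_pos hqr hqr')]
  have hN0 : N ≠ 0 := by
    intro hN1
    rw [hN] at hN1
    have h2 : (x : ℤ) * q' = q * (x' + m * q') := by linarith
    have h3 : (q : ℤ) ∣ (x : ℤ) * q' := ⟨_, h2⟩
    have h4 : q ∣ q' := by
      have h5 : q ∣ x * q' := by exact_mod_cast h3
      exact (Nat.Coprime.dvd_of_dvd_mul_left hc.symm h5)
    have h6 : (x' : ℤ) * q = q' * (x - m * q) := by linarith
    have h7 : q' ∣ q := by
      have h8 : (q' : ℤ) ∣ (x' : ℤ) * q := ⟨_, h6⟩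
      have h9 : q' ∣ x' * q := by exact_mod_cast h8
      exact (Nat.Coprime.dvd_of_dvd_mul_left hc'.symm h9)
    have h10 : q = q' := Nat.dvd_antisymm h4 h7
    apply hne
    refine ⟨h10, ?_⟩
    subst h10
    have hq0 : (q : ℤ) ≠ 0 := by exact_mod_cast (by omega : q ≠ 0)
    have h11 : (x : ℤ) = x' + m * q := by
      apply mul_right_cancel₀ hq0
      linarith
    have h12 : (x : ℤ) < q := by exact_mod_cast hx
    have h13 : (x' : ℤ) < q := by exact_mod_cast hx'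
    have h14 : (0 : ℤ) ≤ x := by positivity
    have h15 : (0 : ℤ) ≤ x' := by positivity
    have h16 : m = 0 := by
      by_contra hm0
      rcases lt_or_gt_of_ne hm0 with h | h
      · have : m ≤ -1 := by omega
        nlinarith
      · have : 1 ≤ m := by omega
        nlinarith
    rw [h16] at h11
    have : (x : ℤ) = x' := by linarith
    exact_mod_cast this
  rw [h1]
  have h2 : (1 : ℝ) ≤ |(N : ℝ)| := by
    have := Int.one_le_abs hN0
    exact_mod_cast this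
  have h3 : (q : ℝ) * q' ≤ (Q : ℝ) ^ 2 := by
    have a1 : (q : ℝ) ≤ Q := by exact_mod_cast hqQ
    have a2 : (q' : ℝ) ≤ Q := by exact_mod_cast hqQ'
    nlinarith
  calc 1 / (Q : ℝ) ^ 2 ≤ 1 / (q * q') := by
        apply one_div_le_one_div_of_le (mul_pos hqr hqr') h3
    _ ≤ |(N : ℝ)| / (q * q') := by gcongr

theorem f2_mem {Q r : ℕ} {j : ℕ × ℕ} (hr : 1 ≤ r) (hj : j ∈ FJ Q r) :
    1 ≤ r * j.1 ∧ r * j.1 ≤ Q ∧ j.2 < r * j.1 ∧ Nat.Coprime j.2 (r * j.1) := by
  classical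
  unfold FJ at hj
  rw [mem_filter, mem_product, mem_range] at hj
  obtain ⟨⟨h1, -⟩, h2⟩ := hj
  obtain ⟨⟨hk1, hk2⟩, -, -⟩ := CA_mem_KS.1 h1
  unfold UR at h2
  rw [mem_filter, mem_range] at h2
  refine ⟨Nat.mul_pos hr hk1, ?_, h2.1, h2.2⟩
  calc r * j.1 ≤ r * (Q / r) := Nat.mul_le_mul_left _ hk2
    _ ≤ Q := Nat.mul_div_le _ _

theorem f2_card (Q r : ℕ) : (FJ Q r).card ≤ Q ^ 2 := by
  classical
  unfold FJ
  refine (card_filter_le _ _).trans ?_
  rw [card_product, card_range]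
  have h1 : (KS Q r).card ≤ Q := by
    have h2 : KS Q r ⊆ Icc 1 Q := by
      intro κ hκ
      obtain ⟨⟨hk1, hk2⟩, -, -⟩ := CA_mem_KS.1 hκ
      rw [mem_Icc]
      exact ⟨hk1, hk2.trans (Nat.div_le_self _ _)⟩
    refine (card_le_card h2).trans ?_
    simp
  calc (KS Q r).card * Q ≤ Q * Q := Nat.mul_le_mul_right _ h1
    _ = Q ^ 2 := by ring

/-- **F2.** Proof. The term `j' = j` is `H`. For `j' ≠ j` the difference of the two reduced fractions is not an
integer (equal reduced fractions in `[0, 1)` have equal denominators `r κ = r κ'` and numerators) and is a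
rational with denominator at most `Q²`, so `nd ≥ 1/Q²`, and `‖∑‖ ≤ 1/(2 nd) ≤ Q²/2` (`H68T/VB.lean`, line 84).
There are at most `Q²` indices `j'` (`FJ Q r ⊆ KS Q r ×ˢ range Q`). Total `H + Q^4/2 ≤ 2 H`. -/
theorem F2 (Q r H b : ℕ) (hr : 1 ≤ r) (hrQ : r ≤ Q) (hQ : Q ^ 4 ≤ H) : ∀ j ∈ FJ Q r,
    ∑ j' ∈ FJ Q r, ‖∑ h ∈ Ico b (b + H), e ((h : ℝ) * (fr r j - fr r j'))‖ ≤ 2 * H := by
  classical
  intro j hj
  have hQ1 : 1 ≤ Q := hr.trans hrQ
  have hQr : (0 : ℝ) < Q := by exact_mod_cast hQ1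
  obtain ⟨a1, a2, a3, a4⟩ := f2_mem hr hj
  rw [← add_sum_erase _ _ hj]
  have h1 : ∀ j' ∈ (FJ Q r).erase j,
      ‖∑ h ∈ Ico b (b + H), e ((h : ℝ) * (fr r j - fr r j'))‖ ≤ (Q : ℝ) ^ 2 / 2 := by
    intro j' hj'
    rw [mem_erase] at hj'
    obtain ⟨b1, b2, b3, b4⟩ := f2_mem hr hj'.2
    have h2 : 1 / (Q : ℝ) ^ 2 ≤ nd (fr r j - fr r j') := by
      refine f2_nd Q (r * j.1) (r * j'.1) j.2 j'.2 a1 b1 a2 b2 a3 b3 a4 b4 ?_
      rintro ⟨e1, e2⟩
      apply hj'.1
      have e3 : j.1 = j'.1 := Nat.eq_of_mul_eq_mul_left hr e1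
      exact (Prod.ext e3 e2).symm
    have h3 := (f2_geo b H (fr r j - fr r j')).2
    set S := ‖∑ h ∈ Ico b (b + H), e ((h : ℝ) * (fr r j - fr r j'))‖ with hS
    have h4 : S * (2 * (1 / (Q : ℝ) ^ 2)) ≤ 1 := by
      refine le_trans ?_ h3
      have : 0 ≤ S := norm_nonneg _
      gcongr
    have h5 : S * (2 * (1 / (Q : ℝ) ^ 2)) = S / ((Q : ℝ) ^ 2 / 2) := by
      field_simp
    rw [h5, div_le_one (by positivity)] at h4
    exact h4
  have h6 := (f2_geo b H (fr r j - fr r j)).1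
  have h7 : ∑ j' ∈ (FJ Q r).erase j, ‖∑ h ∈ Ico b (b + H), e ((h : ℝ) * (fr r j - fr r j'))‖ ≤
      (Q : ℝ) ^ 2 * ((Q : ℝ) ^ 2 / 2) := by
    refine (sum_le_sum h1).trans ?_
    rw [sum_const, nsmul_eq_mul]
    have h8 : (((FJ Q r).erase j).card : ℝ) ≤ (Q : ℝ) ^ 2 := by
      have : ((FJ Q r).erase j).card ≤ Q ^ 2 := (card_le_card (erase_subset _ _)).trans (f2_card Q r)
      exact_mod_cast this
    gcongr
  have h9 : (Q : ℝ) ^ 4 ≤ H := by exact_mod_cast hQ
  have h10 : (Q : ℝ) ^ 2 * ((Q : ℝ) ^ 2 / 2) ≤ H := by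
    have : (Q : ℝ) ^ 2 * ((Q : ℝ) ^ 2 / 2) = (Q : ℝ) ^ 4 / 2 := by ring
    rw [this]
    have : (0 : ℝ) ≤ (Q : ℝ) ^ 4 := by positivity
    linarith
  linarith

end Pool.Agent.Lib.H59P
end

-- from Lib.H59P.M1A
section

/-!
# Project H59P, chunk M1a
-/

open Finset

namespace Pool.Agent.Lib.H59P

open Pool.Agent.Lib.H68T Pool.Agent.Lib.H18Q

theorem m1a_sum {R : Type*} [CommRing R] (b : ℕ → R) (d : ℕ) (hd : Squarefree d) :
    ∑ q ∈ d.divisors, ∏ l ∈ q.primeFactors, b l = ∏ l ∈ d.primeFactors, (1 + b l) := by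
  have h := ArithmeticFunction.IsMultiplicative.prodPrimeFactors_one_add_of_squarefree
    (ArithmeticFunction.IsMultiplicative.prodPrimeFactors b) hd
  have h1 : ∏ p ∈ d.primeFactors, (1 + ArithmeticFunction.prodPrimeFactors b p) =
      ∏ l ∈ d.primeFactors, (1 + b l) := by
    refine Finset.prod_congr rfl fun l hl => ?_
    have hp := Nat.prime_of_mem_primeFactors hl
    rw [ArithmeticFunction.prodPrimeFactors_apply hp.ne_zero, hp.primeFactors,
      Finset.prod_singleton]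
  rw [← h1, h]
  refine Finset.sum_congr rfl fun q hq => ?_
  rw [ArithmeticFunction.prodPrimeFactors_apply (Nat.pos_of_mem_divisors hq).ne']

theorem m1a_filter {k : ℕ} (d e : ℕ) (hd : d ≠ 0) (he : e ∣ d) :
    (Fintype.piFinset fun _ : Fin k => d.divisors).filter (fun κ => univ.lcm κ = e) =
    (Fintype.piFinset fun _ : Fin k => e.divisors).filter (fun κ => univ.lcm κ = e) := by
  have he0 : e ≠ 0 := fun h => hd (by rw [h] at he; exact zero_dvd_iff.1 he)
  ext κ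
  simp only [Finset.mem_filter, Fintype.mem_piFinset, Nat.mem_divisors]
  constructor
  · rintro ⟨-, h⟩
    exact ⟨fun i => ⟨h ▸ Finset.dvd_lcm (Finset.mem_univ i), he0⟩, h⟩
  · rintro ⟨h1, h⟩
    exact ⟨fun i => ⟨(h1 i).1.trans he, hd⟩, h⟩

/-- The tuples `κ` of divisors of a squarefree `d` with least common multiple `d`.

Proof. Let `P = d.primeFactors`. `κ ↦ (l ↦ {i | l ∣ κ_i})` is a bijection from the tuples of divisors
of `d` with `lcm κ = d` to the functions `B` on `P` with values in the nonempty subsets of `Fin k` (inverse: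
`κ_i = ∏_{l ∈ P, i ∈ B_l} l`), and `∏_i ∏_{l ∣ κ_i} a l i = ∏_{l ∈ P} ∏_{i ∈ B_l} a l i`. Sum:
`∏_{l ∈ P} ∑_{B ≠ ∅} ∏_{i ∈ B} a l i = ∏_{l ∈ P} (∏_i (1 + a l i) - 1)` (`Finset.prod_one_add`,
`Finset.prod_univ_sum` / `Finset.prod_sum`).
Or by strong induction on `d`: summing both sides over the divisors of `d` gives
`∏_i ∑_{q ∣ d} ∏_{l ∣ q} a l i = ∏_i ∏_{l ∣ d} (1 + a l i)` on both sides
(`Finset.sum_fiberwise_of_maps_to` for `κ ↦ lcm κ`). -/
theorem M1a {k : ℕ} (a : ℕ → Fin k → ℂ) (d : ℕ) (hd : Squarefree d) :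
    ∑ κ ∈ (Fintype.piFinset fun _ : Fin k => d.divisors).filter (fun κ => univ.lcm κ = d),
      ∏ i, ∏ l ∈ (κ i).primeFactors, a l i =
    ∏ l ∈ d.primeFactors, (∏ i, (1 + a l i) - 1) := by
  induction d using Nat.strong_induction_on with
  | _ d ih =>
    have hd0 : d ≠ 0 := hd.ne_zero
    have hA : ∑ e ∈ d.divisors,
        (∑ κ ∈ (Fintype.piFinset fun _ : Fin k => e.divisors).filter (fun κ => univ.lcm κ = e),
          ∏ i, ∏ l ∈ (κ i).primeFactors, a l i) =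
        ∏ i, ∏ l ∈ d.primeFactors, (1 + a l i) := by
      have h1 : ∑ κ ∈ (Fintype.piFinset fun _ : Fin k => d.divisors),
          ∏ i, ∏ l ∈ (κ i).primeFactors, a l i = ∏ i, ∏ l ∈ d.primeFactors, (1 + a l i) := by
        rw [← Finset.prod_univ_sum (fun _ : Fin k => d.divisors)
          (fun i q => ∏ l ∈ q.primeFactors, a l i)]
        exact Finset.prod_congr rfl fun i _ => m1a_sum (fun l => a l i) d hd
      rw [← h1, ← Finset.sum_fiberwise_of_maps_to (s := Fintype.piFinset fun _ : Fin k => d.divisors)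
        (t := d.divisors) (g := fun κ => univ.lcm κ)]
      · refine Finset.sum_congr rfl fun e he => ?_
        rw [m1a_filter d e hd0 (Nat.dvd_of_mem_divisors he)]
      · intro κ hκ
        rw [Fintype.mem_piFinset] at hκ
        rw [Nat.mem_divisors]
        exact ⟨Finset.lcm_dvd fun i _ => Nat.dvd_of_mem_divisors (hκ i), hd0⟩
    have hB : ∑ e ∈ d.divisors, ∏ l ∈ e.primeFactors, (∏ i, (1 + a l i) - 1) =
        ∏ i, ∏ l ∈ d.primeFactors, (1 + a l i) := by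
      rw [m1a_sum (fun l => ∏ i, (1 + a l i) - 1) d hd, Finset.prod_comm]
      refine Finset.prod_congr rfl fun l _ => ?_
      ring
    have hC := hA.trans hB.symm
    rw [← Nat.insert_self_properDivisors hd0, Finset.sum_insert Nat.self_notMem_properDivisors,
      Finset.sum_insert Nat.self_notMem_properDivisors] at hC
    have hD : ∑ e ∈ d.properDivisors,
        (∑ κ ∈ (Fintype.piFinset fun _ : Fin k => e.divisors).filter (fun κ => univ.lcm κ = e),
          ∏ i, ∏ l ∈ (κ i).primeFactors, a l i) =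
        ∑ e ∈ d.properDivisors, ∏ l ∈ e.primeFactors, (∏ i, (1 + a l i) - 1) := by
      refine Finset.sum_congr rfl fun e he => ?_
      rw [Nat.mem_properDivisors] at he
      exact ih e he.2 (hd.squarefree_of_dvd he.1)
    rw [hD] at hC
    exact add_right_cancel hC

end Pool.Agent.Lib.H59P
end

-- from Lib.H59P.M1
section

/-!
# Project H59P, chunk M1
-/

open Finset

namespace Pool.Agent.Lib.H59P

open Pool.Agent.Lib.H68T Pool.Agent.Lib.H18Q

theorem m1_lcm (m n : ℕ) (hm : Squarefree m) (hn : Squarefree n) : Squarefree (lcm m n) := by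
  have hm0 := hm.ne_zero
  have hn0 := hn.ne_zero
  have hne : lcm m n ≠ 0 := by
    rw [Ne, _root_.lcm_eq_zero_iff]
    tauto
  rw [Nat.squarefree_iff_factorization_le_one hne]
  intro p
  change (Nat.lcm m n).factorization p ≤ 1
  rw [Nat.factorization_lcm hm0 hn0, Finsupp.sup_apply]
  exact sup_le (hm.natFactorization_le_one p) (hn.natFactorization_le_one p)

/-- **M1.** Proof. Group the left side by `d = lcm κ` (`Finset.sum_fiberwise_of_maps_to`): `κ_i` are squarefree,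
coprime to `R` and nonzero, so `d` is squarefree and coprime to `R`, i.e. `d ∈ SF E R`; for given `d` the
`κ` are exactly the tuples of divisors of `d` with lcm `d` (divisors of `d ≤ E` are in `SF E R`).
`M1a`. -/
theorem M1 {k : ℕ} (a : ℕ → Fin k → ℂ) (E R : ℕ) :
    ∑ κ ∈ (Fintype.piFinset fun _ : Fin k => SF E R).filter (fun κ => univ.lcm κ ≤ E),
      ∏ i, ∏ l ∈ (κ i).primeFactors, a l i =
    ∑ d ∈ SF E R, ∏ l ∈ d.primeFactors, (∏ i, (1 + a l i) - 1) := by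
  have hSF : ∀ q, q ∈ SF E R ↔ (1 ≤ q ∧ q ≤ E) ∧ Squarefree q ∧ Nat.Coprime q R := by
    intro q
    rw [SF, Finset.mem_filter, Finset.mem_Icc]
  rw [← Finset.sum_fiberwise_of_maps_to
    (s := (Fintype.piFinset fun _ : Fin k => SF E R).filter (fun κ => univ.lcm κ ≤ E))
    (t := SF E R) (g := fun κ => univ.lcm κ)]
  · refine Finset.sum_congr rfl fun d hd => ?_
    have hd' := (hSF d).1 hd
    rw [← M1a a d hd'.2.1]
    refine Finset.sum_congr ?_ fun _ _ => rfl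
    ext κ
    simp only [Finset.mem_filter, Fintype.mem_piFinset, Nat.mem_divisors]
    constructor
    · rintro ⟨⟨h1, h2⟩, h3⟩
      refine ⟨fun i => ⟨?_, hd'.2.1.ne_zero⟩, h3⟩
      rw [← h3]
      exact Finset.dvd_lcm (Finset.mem_univ i)
    · rintro ⟨h1, h3⟩
      refine ⟨⟨fun i => ?_, ?_⟩, h3⟩
      · rw [hSF]
        have hdv := (h1 i).1
        exact ⟨⟨Nat.pos_of_dvd_of_pos hdv hd'.1.1, (Nat.le_of_dvd hd'.1.1 hdv).trans hd'.1.2⟩,
          hd'.2.1.squarefree_of_dvd hdv, hd'.2.2.coprime_dvd_left hdv⟩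
      · rw [h3]
        exact hd'.1.2
  · intro κ hκ
    rw [Finset.mem_filter, Fintype.mem_piFinset] at hκ
    obtain ⟨h1, h2⟩ := hκ
    rw [hSF]
    have hne : univ.lcm κ ≠ 0 := by
      rw [Ne, Finset.lcm_eq_zero_iff]
      rintro ⟨i, -, hi⟩
      have := ((hSF (κ i)).1 (h1 i)).1.1
      omega
    have hsq : ∀ s : Finset (Fin k), Squarefree (s.lcm κ) := by
      intro s
      induction s using Finset.induction_on with
      | empty => rw [Finset.lcm_empty]; exact squarefree_one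
      | insert i s his ih =>
        rw [Finset.lcm_insert]
        exact m1_lcm _ _ ((hSF _).1 (h1 i)).2.1 ih
    have hco : ∀ s : Finset (Fin k), Nat.Coprime (s.lcm κ) R := by
      intro s
      induction s using Finset.induction_on with
      | empty => rw [Finset.lcm_empty]; exact Nat.coprime_one_left R
      | insert i s his ih =>
        rw [Finset.lcm_insert]
        refine Nat.Coprime.coprime_dvd_left (lcm_dvd (Dvd.intro _ rfl) (Dvd.intro_left _ rfl))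
          (Nat.Coprime.mul_left ((hSF _).1 (h1 i)).2.2 ih)
    exact ⟨⟨Nat.pos_of_ne_zero hne, h2⟩, hsq _, hco _⟩

end Pool.Agent.Lib.H59P
end

-- from Lib.H59P.M2A
section

/-!
# Project H59P, chunk M2a
-/

open Finset

namespace Pool.Agent.Lib.H59P

open Pool.Agent.Lib.H68T Pool.Agent.Lib.H18Q

/-- `μ(κ) c_κ(m)/φ(κ) = ∏_{l ∣ κ} gl l m` for squarefree `κ`.

Proof. Induction over the prime factors (`CA_cq_mul`, `CA_cq_prime`, multiplicativity of `μ` and `φ`);
for a prime `l`: `-c_l(m)/(l-1)`, `c_l(m) = l - 1` if `l ∣ m`, else `-1`. -/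
theorem M2a (κ : ℕ) (hκ : Squarefree κ) (m : ℤ) :
    (ArithmeticFunction.moebius κ : ℝ) / (Nat.totient κ : ℝ) * cq κ m =
      ∏ l ∈ κ.primeFactors, gl l m := by
  induction κ using Nat.recOnPosPrimePosCoprime with
  | prime_pow p n hp hn =>
    have hn1 : n = 1 := ((Nat.squarefree_pow_iff hp.ne_one hn.ne').1 hκ).2
    subst hn1
    rw [pow_one, CA_cq_prime p hp, hp.primeFactors, Finset.prod_singleton,
      ArithmeticFunction.moebius_apply_prime hp, Nat.totient_prime hp, Nat.cast_pred hp.pos]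
    have h1 : (p : ℝ) - 1 ≠ 0 := by
      have : (1 : ℝ) < p := by exact_mod_cast hp.one_lt
      linarith
    unfold gl
    split_ifs with h
    · push_cast
      field_simp
      ring
    · push_cast
      field_simp
      ring
  | zero => exact absurd rfl hκ.ne_zero
  | one =>
    have h1 : cq 1 m = 1 := by
      rw [cq, Nat.divisors_one, Finset.sum_filter, Finset.sum_singleton,
        if_pos (by rw [Nat.cast_one]; exact one_dvd m)]
      simp
    rw [h1]
    simp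
  | coprime a b ha hb hab iha ihb =>
    have hsa : Squarefree a := hκ.squarefree_of_dvd (Dvd.intro _ rfl)
    have hsb : Squarefree b := hκ.squarefree_of_dvd (Dvd.intro_left _ rfl)
    rw [Nat.Coprime.primeFactors_mul hab, Finset.prod_union hab.disjoint_primeFactors,
      ← iha hsa, ← ihb hsb, CA_cq_mul a b m hab,
      ArithmeticFunction.isMultiplicative_moebius.map_mul_of_coprime hab,
      Nat.totient_mul hab]
    push_cast
    rw [mul_div_mul_comm]
    ring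

end Pool.Agent.Lib.H59P
end

-- from Lib.H59P.M2B
section

/-!
# Project H59P, chunk M2b
-/

open Finset

namespace Pool.Agent.Lib.H59P

open Pool.Agent.Lib.H68T Pool.Agent.Lib.H18Q

theorem m2b_prod (r : ℕ) (hr : 0 < r) (m : ℤ) (h : IsCoprime (r : ℤ) m) :
    ∏ l ∈ r.primeFactors, (1 + gl l m) = (r : ℝ) / (Nat.totient r : ℝ) := by
  have h0 : ∀ l ∈ r.primeFactors, (l : ℝ) - 1 ≠ 0 := by
    intro l hl
    have : (1 : ℝ) < l := by exact_mod_cast (Nat.prime_of_mem_primeFactors hl).one_lt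
    linarith
  have h1 : ∏ l ∈ r.primeFactors, (1 + gl l m) =
      (∏ l ∈ r.primeFactors, (l : ℝ)) / ∏ l ∈ r.primeFactors, ((l : ℝ) - 1) := by
    rw [← Finset.prod_div_distrib]
    refine Finset.prod_congr rfl fun l hl => ?_
    have hp := Nat.prime_of_mem_primeFactors hl
    have hnd : ¬ (l : ℤ) ∣ m := by
      intro hdm
      have hdr : (l : ℤ) ∣ (r : ℤ) := by exact_mod_cast Nat.dvd_of_mem_primeFactors hl
      exact (Nat.prime_iff_prime_int.mp hp).not_unit (h.isUnit_of_dvd' hdr hdm)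
    have := h0 l hl
    rw [gl, if_neg hnd]
    field_simp
    ring
  have h2 := Nat.totient_mul_prod_primeFactors r
  have h3 : (Nat.totient r : ℝ) * ∏ l ∈ r.primeFactors, (l : ℝ) =
      (r : ℝ) * ∏ l ∈ r.primeFactors, ((l : ℝ) - 1) := by
    have h4 := congrArg (fun x : ℕ => (x : ℝ)) h2
    simp only [Nat.cast_mul, Nat.cast_prod] at h4
    rw [h4]
    congr 1
    refine Finset.prod_congr rfl fun l hl => ?_
    rw [Nat.cast_pred (Nat.prime_of_mem_primeFactors hl).pos]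
  have h5 : (∏ l ∈ r.primeFactors, ((l : ℝ) - 1)) ≠ 0 := Finset.prod_ne_zero_iff.2 h0
  have h6 : (Nat.totient r : ℝ) ≠ 0 := by
    exact_mod_cast (Nat.totient_pos.2 hr).ne'
  rw [h1, div_eq_div_iff h5 h6, mul_comm, h3]

/-- For `p.1 ∣ R`, `r = p.1`:
`(r/φ(r)) conj χ(m) ∏_{l ∣ R, l ∤ r} (1 + gl l m) = conj χ(m) ∏_{l ∣ R} (1 + gl l m)`.

Proof. If `m` is not coprime to `r` both sides are `0` (`CA_chi_zero`). Else for `l ∣ r` `l` does not divide
`m` and `1 + gl l m = l/(l-1)`, and `∏_{l ∣ r} l/(l-1) = r/φ(r)` (`Nat.totient_eq_mul_prod_factors`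
or `Nat.totient_mul_prod_primeFactors`). `r` divides `R`, so the prime factors of `r` are among those of
`R` (`R > 0`). -/
theorem M2b (R : ℕ) (hR : 0 < R) (p : Ch) (hd : p.1 ∣ R) (m : ℤ) :
    (((p.1 : ℝ) / (Nat.totient p.1 : ℝ) : ℝ) : ℂ) * cj p m *
      ((∏ l ∈ R.primeFactors.filter (fun l => ¬ l ∣ p.1), (1 + gl l m) : ℝ) : ℂ) =
    cj p m * ((uu R.primeFactors m : ℝ) : ℂ) := by
  by_cases h : IsCoprime (p.1 : ℤ) m
  · have hr : 0 < p.1 := Nat.pos_of_dvd_of_pos hd hR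
    have hset : R.primeFactors.filter (fun l => l ∣ p.1) = p.1.primeFactors := by
      ext l
      rw [Finset.mem_filter, Nat.mem_primeFactors, Nat.mem_primeFactors]
      constructor
      · rintro ⟨⟨h1, -, -⟩, h2⟩
        exact ⟨h1, h2, hr.ne'⟩
      · rintro ⟨h1, h2, -⟩
        exact ⟨⟨h1, h2.trans hd, hR.ne'⟩, h2⟩
    have h1 : uu R.primeFactors m = (p.1 : ℝ) / (Nat.totient p.1 : ℝ) *
        ∏ l ∈ R.primeFactors.filter (fun l => ¬ l ∣ p.1), (1 + gl l m) := by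
      rw [uu, ← Finset.prod_filter_mul_prod_filter_not R.primeFactors (fun l => l ∣ p.1), hset,
        m2b_prod p.1 hr m h]
    rw [h1, Complex.ofReal_mul]
    ring
  · have h0 : cj p m = 0 := by
      rw [cj, CA_chi_zero p.1 p.2 m h, map_zero]
    rw [h0]
    ring

end Pool.Agent.Lib.H59P
end

-- from Lib.H59P.M2C
section

/-!
# Project H59P, chunk M2c: sum over the squarefree divisors of R coprime to r
-/

open Finset

namespace Pool.Agent.Lib.H59P

open Pool.Agent.Lib.H68T Pool.Agent.Lib.H18Q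

/-- The squarefree divisors of `R` coprime to `r`. -/
noncomputable def SD (R r : ℕ) : Finset ℕ :=
  open Classical in R.divisors.filter (fun s => Squarefree s ∧ Nat.Coprime s r)

/-- Proof. `s ↦ s.primeFactors` is a bijection from `SD R r` to the subsets of
`R.primeFactors.filter (¬ l ∣ r)` (inverse `S ↦ ∏ l ∈ S, l`); `Finset.prod_one_add` (or
`Finset.prod_add`). -/
theorem M2c (a : ℕ → ℂ) (R r : ℕ) (hR : 0 < R) :
    ∑ s ∈ SD R r, ∏ l ∈ s.primeFactors, a l =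
      ∏ l ∈ R.primeFactors.filter (fun l => ¬ l ∣ r), (1 + a l) := by
  rw [Finset.prod_one_add]
  have hSD : ∀ q, q ∈ SD R r ↔ (q ∣ R ∧ R ≠ 0) ∧ Squarefree q ∧ Nat.Coprime q r := by
    intro q
    rw [SD, Finset.mem_filter, Nat.mem_divisors]
  have hpr : ∀ S ∈ (R.primeFactors.filter (fun l => ¬ l ∣ r)).powerset, ∀ l ∈ S, l.Prime ∧ l ∣ R ∧
      ¬ l ∣ r := by
    intro S hS l hl
    have h1 := Finset.mem_powerset.1 hS hl
    rw [Finset.mem_filter, Nat.mem_primeFactors] at h1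
    exact ⟨h1.1.1, h1.1.2.1, h1.2⟩
  refine Finset.sum_nbij' (fun s => s.primeFactors) (fun S => ∏ l ∈ S, l) ?_ ?_ ?_ ?_ ?_
  · intro s hs
    rw [hSD] at hs
    rw [Finset.mem_powerset]
    intro l hl
    rw [Finset.mem_filter, Nat.mem_primeFactors]
    have hl' := Nat.mem_primeFactors.1 hl
    refine ⟨⟨hl'.1, hl'.2.1.trans hs.1.1, hs.1.2⟩, fun h => ?_⟩
    exact Nat.Prime.not_coprime_iff_dvd.2 ⟨l, hl'.1, hl'.2.1, h⟩ hs.2.2
  · intro S hS
    have hS' := hpr S hS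
    rw [hSD]
    refine ⟨⟨?_, hR.ne'⟩, ?_, ?_⟩
    · exact Finset.prod_primes_dvd R (fun l hl => (hS' l hl).1.prime) (fun l hl => (hS' l hl).2.1)
    · refine Finset.squarefree_prod_of_pairwise_isCoprime
        (fun x hx y hy hxy => ?_) (fun l hl => (hS' l hl).1.prime.squarefree)
      exact Nat.coprime_iff_isRelPrime.1 ((Nat.coprime_primes (hS' x hx).1 (hS' y hy).1).2 hxy)
    · refine Nat.Coprime.prod_left fun l hl => ?_
      exact (Nat.Prime.coprime_iff_not_dvd (hS' l hl).1).2 (hS' l hl).2.2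
  · intro s hs
    rw [hSD] at hs
    exact Nat.prod_primeFactors_of_squarefree hs.2.1
  · intro S hS
    exact Nat.primeFactors_prod fun l hl => (hpr S hS l hl).1
  · intro s _
    rfl

end Pool.Agent.Lib.H59P
end

-- from Lib.H59P.M2D
section

/-!
# Project H59P, chunk M2d: splitting the tuples into the part dividing R and the part coprime to R
-/

open Finset

namespace Pool.Agent.Lib.H59P

open Pool.Agent.Lib.H68T Pool.Agent.Lib.H18Q

theorem m2d_mem_KS {Q r k : ℕ} : k ∈ KS Q r ↔ (1 ≤ k ∧ k ≤ Q / r) ∧ Squarefree k ∧ Nat.Coprime k r := by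
  unfold KS
  rw [mem_filter, mem_Icc]

theorem m2d_mem_SF {D R d : ℕ} : d ∈ SF D R ↔ (1 ≤ d ∧ d ≤ D) ∧ Squarefree d ∧ Nat.Coprime d R := by
  unfold SF
  rw [mem_filter, mem_Icc]

theorem m2d_mem_SD {R r s : ℕ} : s ∈ SD R r ↔ (s ∣ R ∧ R ≠ 0) ∧ Squarefree s ∧ Nat.Coprime s r := by
  unfold SD
  rw [mem_filter, Nat.mem_divisors]

theorem m2d_lcm_dvd_prod {k : ℕ} (d : Fin k → ℕ) : univ.lcm d ∣ ∏ i, d i :=
  Finset.lcm_dvd (fun i _ => Finset.dvd_prod_of_mem d (mem_univ i))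

theorem m2d_lcm_pos {k : ℕ} (d : Fin k → ℕ) (h : ∀ i, 0 < d i) : 0 < univ.lcm d :=
  Nat.pos_of_dvd_of_pos (m2d_lcm_dvd_prod d) (Finset.prod_pos (fun i _ => h i))

theorem m2d_lcm_coprime {k : ℕ} (R : ℕ) (d : Fin k → ℕ) (h : ∀ i, Nat.Coprime (d i) R) :
    Nat.Coprime R (univ.lcm d) := by
  refine Nat.Coprime.coprime_dvd_right (m2d_lcm_dvd_prod d) ?_
  exact Nat.Coprime.prod_right (fun i _ => (h i).symm)

theorem m2d_dvd_lcm {k : ℕ} (d : Fin k → ℕ) (i : Fin k) : d i ∣ univ.lcm d :=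
  Finset.dvd_lcm (mem_univ i)

/-- **M2d.** For a common multiple `R > 0` of the `r_i ≥ 1`, `D ≤ Q`.

Proof. If `D < R` both sides are `0`: `lcm(R, …) ≥ R > D`, and on the right `D / R = 0`, `SF 0 R = ∅`, and a
tuple in `piFinset` of the empty set does not exist for `k ≥ 1` (for `k = 0` the least common multiple of
the empty tuple is `1 > 0 = D / R`). Else: bijection `κ ↦ (s, d)`, `s_i = gcd(κ_i, R)`, `d_i = κ_i / s_i`, onto
the product of the two sets (`Finset.sum_nbij'`, after writing the right side as a sum over a product: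
`Finset.prod_univ_sum`, `Finset.sum_mul_sum`, `Finset.sum_product'`). `κ_i` is squarefree, so `s_i` is a
squarefree divisor of `R` coprime to `r_i`, `d_i` is squarefree and coprime to `R` and `s_i`; and
`lcm(R, κ_1, …, κ_k) = R lcm(d_1, …, d_k)` (`κ_i ∣ R lcm(d)` since `s_i ∣ R`, and `R`, `lcm(d)` are coprime and
both divide the left side), so the condition is `lcm(d) ≤ D / R`; in particular `d_i ≤ D/R`. Conversely for
`s_i ∈ SD R r_i`, `d_i ∈ SF (D/R) R` with `lcm(d) ≤ D/R` the number `κ_i = s_i d_i` is squarefree, coprime to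
`r_i` (`d_i` is coprime to `R`, hence to `r_i`) and at most `Q / r_i`: `r_i s_i ∣ R` (coprime divisors), so
`r_i κ_i ≤ R d_i ≤ D ≤ Q`; and `gcd(s_i d_i, R) = s_i`. The prime factors of `κ_i` are the disjoint union of
those of `s_i` and `d_i` (`Nat.Coprime.primeFactors_mul`, `Finset.prod_union`). -/
theorem M2d {k : ℕ} (a : ℕ → Fin k → ℂ) (Q D R : ℕ) (hDQ : D ≤ Q) (hR : 0 < R) (r : Fin k → ℕ)
    (hr : ∀ i, 1 ≤ r i) (hd : ∀ i, r i ∣ R) :
    ∑ κ ∈ (Fintype.piFinset fun i => KS Q (r i)).filter (fun κ => R.lcm (univ.lcm κ) ≤ D),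
      ∏ i, ∏ l ∈ (κ i).primeFactors, a l i =
    (∏ i, ∑ s ∈ SD R (r i), ∏ l ∈ s.primeFactors, a l i) *
      ∑ κ ∈ (Fintype.piFinset fun _ : Fin k => SF (D / R) R).filter (fun κ => univ.lcm κ ≤ D / R),
        ∏ i, ∏ l ∈ (κ i).primeFactors, a l i := by
  classical
  rw [Finset.prod_univ_sum, Finset.sum_mul_sum, ← Finset.sum_product']
  refine Finset.sum_bij'
    (i := fun (κ : Fin k → ℕ) _ => ((fun i => Nat.gcd (κ i) R, fun i => κ i / Nat.gcd (κ i) R) :
      (Fin k → ℕ) × (Fin k → ℕ)))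
    (j := fun (x : (Fin k → ℕ) × (Fin k → ℕ)) _ => (fun i => x.1 i * x.2 i : Fin k → ℕ))
    ?_ ?_ ?_ ?_ ?_
  · intro κ hκ
    rw [mem_filter, Fintype.mem_piFinset] at hκ
    obtain ⟨hκ1, hκ2⟩ := hκ
    have hκ3 : ∀ i, (1 ≤ κ i ∧ κ i ≤ Q / r i) ∧ Squarefree (κ i) ∧ Nat.Coprime (κ i) (r i) :=
      fun i => m2d_mem_KS.mp (hκ1 i)
    have hmul : ∀ i, Nat.gcd (κ i) R * (κ i / Nat.gcd (κ i) R) = κ i :=
      fun i => Nat.mul_div_cancel' (Nat.gcd_dvd_left _ _)
    have hgpos : ∀ i, 0 < Nat.gcd (κ i) R := fun i => Nat.gcd_pos_of_pos_right _ hR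
    have hdsq : ∀ i, Squarefree (κ i / Nat.gcd (κ i) R) := fun i =>
      Squarefree.squarefree_of_dvd (Nat.div_dvd_of_dvd (Nat.gcd_dvd_left _ _)) (hκ3 i).2.1
    have hdpos : ∀ i, 0 < κ i / Nat.gcd (κ i) R := fun i => Nat.pos_of_ne_zero (hdsq i).ne_zero
    have hcop : ∀ i, Nat.Coprime (Nat.gcd (κ i) R) (κ i / Nat.gcd (κ i) R) := fun i => by
      refine Nat.coprime_of_squarefree_mul ?_
      rw [hmul i]
      exact (hκ3 i).2.1
    have hdR : ∀ i, Nat.Coprime (κ i / Nat.gcd (κ i) R) R := fun i => by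
      have h1 : Nat.gcd (κ i / Nat.gcd (κ i) R) R ∣ Nat.gcd (κ i) R :=
        Nat.dvd_gcd ((Nat.gcd_dvd_left _ _).trans (Nat.div_dvd_of_dvd (Nat.gcd_dvd_left _ _)))
          (Nat.gcd_dvd_right _ _)
      have h2 := Nat.Coprime.coprime_dvd_left h1 (hcop i)
      have h3 : Nat.gcd (κ i / Nat.gcd (κ i) R) R ∣ κ i / Nat.gcd (κ i) R := Nat.gcd_dvd_left _ _
      exact Nat.Coprime.eq_one_of_dvd h2 h3
    have hle : univ.lcm (fun i => κ i / Nat.gcd (κ i) R) ≤ D / R := by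
      rw [Nat.le_div_iff_mul_le hR]
      have h1 : R * univ.lcm (fun i => κ i / Nat.gcd (κ i) R) ∣ R.lcm (univ.lcm κ) := by
        refine Nat.Coprime.mul_dvd_of_dvd_of_dvd (m2d_lcm_coprime R _ hdR) (Nat.dvd_lcm_left _ _) ?_
        refine Dvd.dvd.trans ?_ (Nat.dvd_lcm_right R (univ.lcm κ))
        refine Finset.lcm_dvd (fun i _ => ?_)
        exact (Nat.div_dvd_of_dvd (Nat.gcd_dvd_left _ _)).trans (m2d_dvd_lcm κ i)
      have h2 : 0 < R.lcm (univ.lcm κ) :=
        Nat.lcm_pos hR (m2d_lcm_pos κ (fun i => (hκ3 i).1.1))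
      calc univ.lcm (fun i => κ i / Nat.gcd (κ i) R) * R
          = R * univ.lcm (fun i => κ i / Nat.gcd (κ i) R) := mul_comm _ _
        _ ≤ R.lcm (univ.lcm κ) := Nat.le_of_dvd h2 h1
        _ ≤ D := hκ2
    rw [mem_product, mem_filter, Fintype.mem_piFinset, Fintype.mem_piFinset]
    refine ⟨fun i => m2d_mem_SD.mpr ⟨⟨Nat.gcd_dvd_right _ _, hR.ne'⟩, ?_, ?_⟩,
      fun i => m2d_mem_SF.mpr ⟨⟨hdpos i, ?_⟩, hdsq i, hdR i⟩, hle⟩
    · exact Squarefree.squarefree_of_dvd (Nat.gcd_dvd_left _ _) (hκ3 i).2.1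
    · exact Nat.Coprime.coprime_dvd_left (Nat.gcd_dvd_left _ _) (hκ3 i).2.2
    · exact (Nat.le_of_dvd (m2d_lcm_pos _ hdpos)
        (m2d_dvd_lcm (fun i => κ i / Nat.gcd (κ i) R) i)).trans hle
  · rintro ⟨s, d⟩ hx
    rw [mem_product, mem_filter, Fintype.mem_piFinset, Fintype.mem_piFinset] at hx
    obtain ⟨hs, hd1, hd2⟩ := hx
    dsimp only at hs hd1 hd2
    have hs3 := fun i => m2d_mem_SD.mp (hs i)
    have hd3 := fun i => m2d_mem_SF.mp (hd1 i)
    have hspos : ∀ i, 0 < s i := fun i => Nat.pos_of_dvd_of_pos (hs3 i).1.1 hR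
    have hsd : ∀ i, Nat.Coprime (s i) (d i) := fun i =>
      (Nat.Coprime.coprime_dvd_right (hs3 i).1.1 (hd3 i).2.2).symm
    have hRD : R * (D / R) ≤ D := Nat.mul_div_le D R
    rw [mem_filter, Fintype.mem_piFinset]
    refine ⟨fun i => m2d_mem_KS.mpr ⟨⟨Nat.mul_pos (hspos i) (hd3 i).1.1, ?_⟩, ?_, ?_⟩, ?_⟩
    · rw [Nat.le_div_iff_mul_le (hr i)]
      have h1 : r i * s i ∣ R :=
        Nat.Coprime.mul_dvd_of_dvd_of_dvd (hs3 i).2.2.symm (hd i) (hs3 i).1.1
      have h2 : r i * s i ≤ R := Nat.le_of_dvd hR h1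
      calc s i * d i * r i = (r i * s i) * d i := by ring
        _ ≤ R * (D / R) := Nat.mul_le_mul h2 (hd3 i).1.2
        _ ≤ D := hRD
        _ ≤ Q := hDQ
    · exact (Nat.squarefree_mul (hsd i)).mpr ⟨(hs3 i).2.1, (hd3 i).2.1⟩
    · exact Nat.Coprime.mul_left (hs3 i).2.2 (Nat.Coprime.coprime_dvd_right (hd i) (hd3 i).2.2)
    · have h1 : R.lcm (univ.lcm (fun i => s i * d i)) ∣ R * univ.lcm d := by
        refine Nat.lcm_dvd (Dvd.intro _ rfl) (Finset.lcm_dvd (fun i _ => ?_))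
        exact Nat.mul_dvd_mul (hs3 i).1.1 (m2d_dvd_lcm d i)
      have h2 : 0 < R * univ.lcm d := Nat.mul_pos hR (m2d_lcm_pos d (fun i => (hd3 i).1.1))
      calc R.lcm (univ.lcm (fun i => s i * d i)) ≤ R * univ.lcm d := Nat.le_of_dvd h2 h1
        _ ≤ R * (D / R) := Nat.mul_le_mul le_rfl hd2
        _ ≤ D := hRD
  · intro κ _
    funext i
    exact Nat.mul_div_cancel' (Nat.gcd_dvd_left _ _)
  · rintro ⟨s, d⟩ hx
    rw [mem_product, mem_filter, Fintype.mem_piFinset, Fintype.mem_piFinset] at hx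
    obtain ⟨hs, hd1, hd2⟩ := hx
    dsimp only at hs hd1 hd2
    have hs3 := fun i => m2d_mem_SD.mp (hs i)
    have hd3 := fun i => m2d_mem_SF.mp (hd1 i)
    have hg : ∀ i, Nat.gcd (s i * d i) R = s i := fun i => by
      rw [Nat.Coprime.gcd_mul_right_cancel (s i) (hd3 i).2.2]
      exact Nat.gcd_eq_left (hs3 i).1.1
    have hspos : ∀ i, 0 < s i := fun i => Nat.pos_of_dvd_of_pos (hs3 i).1.1 hR
    refine Prod.ext ?_ ?_
    · funext i
      exact hg i
    · funext i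
      show s i * d i / Nat.gcd (s i * d i) R = d i
      rw [hg i]
      exact Nat.mul_div_cancel_left _ (hspos i)
  · intro κ hκ
    rw [mem_filter, Fintype.mem_piFinset] at hκ
    have hκ3 : ∀ i, (1 ≤ κ i ∧ κ i ≤ Q / r i) ∧ Squarefree (κ i) ∧ Nat.Coprime (κ i) (r i) :=
      fun i => m2d_mem_KS.mp (hκ.1 i)
    rw [← Finset.prod_mul_distrib]
    refine Finset.prod_congr rfl (fun i _ => ?_)
    have hmul : Nat.gcd (κ i) R * (κ i / Nat.gcd (κ i) R) = κ i :=
      Nat.mul_div_cancel' (Nat.gcd_dvd_left _ _)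
    have hcop : Nat.Coprime (Nat.gcd (κ i) R) (κ i / Nat.gcd (κ i) R) := by
      refine Nat.coprime_of_squarefree_mul ?_
      rw [hmul]
      exact (hκ3 i).2.1
    have h1 : (κ i).primeFactors = (Nat.gcd (κ i) R).primeFactors ∪ (κ i / Nat.gcd (κ i) R).primeFactors := by
      have h2 := Nat.Coprime.primeFactors_mul hcop
      rw [hmul] at h2
      exact h2
    show ∏ l ∈ (κ i).primeFactors, a l i = (∏ l ∈ (Nat.gcd (κ i) R).primeFactors, a l i) *
      ∏ l ∈ (κ i / Nat.gcd (κ i) R).primeFactors, a l i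
    rw [h1, Finset.prod_union hcop.disjoint_primeFactors]

end Pool.Agent.Lib.H59P
end
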