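import Pool.Agent.Lib.H1M.RV2.M002
import Pool.Agent.Lib.H1M.RV2.M017
import Pool.Agent.Lib.H1M.RV2.M019
import Pool.Agent.Lib.H1M.RV2.M039
import Pool.Agent.Lib.H1M.RV2.M058
import Pool.Agent.Lib.H1M.RV2.M067

/-! Merged copies (to shorten the build) of Lib.H24P.G2, Lib.H24P.ZDefs, Lib.H59P.C1A, Lib.H59P.C1, Lib.H59P.C2, Lib.H59P.CF0, Lib.H59P.M5A, Lib.H59P.M5B, Lib.H59P.X1A, Lib.H59P.X1, Lib.H59T.FDefs, Lib.H59T.C3, Lib.H59T.LKDefs. -/

-- from Lib.H24P.G2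
section

/-!
# Project H24P, chunk G2 (M): geometry
-/

open Finset Polynomial

namespace Pool.Agent.Lib.H24P

open Pool.Agent.Lib.H68T Pool.Agent.Lib.H18Q Pool.Agent.Lib.H59P


theorem g2_asy (K D : ℝ) (hK : 1 ≤ K) (hD : 0 < D) : ∃ Q0 : ℕ, ∀ Q : ℕ, Q0 ≤ Q →
    3 ≤ Q ∧ 1 ≤ Real.log Q ∧ K ≤ Real.log (Real.log Q) ∧ K * Real.log (D * Real.log Q) ≤ Real.log Q := by
  refine ⟨⌈Real.exp (Real.exp K + 4 * K ^ 2 * D)⌉₊ + 3, fun Q hQ => ?_⟩
  have h3 : 3 ≤ Q := by omega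
  have hQ1 : Real.exp (Real.exp K + 4 * K ^ 2 * D) ≤ Q := by
    refine (Nat.le_ceil _).trans ?_
    exact_mod_cast (by omega : ⌈Real.exp (Real.exp K + 4 * K ^ 2 * D)⌉₊ ≤ Q)
  have hQ0 : (0 : ℝ) < Q := (Real.exp_pos _).trans_le hQ1
  have hl : Real.exp K + 4 * K ^ 2 * D ≤ Real.log Q := (Real.le_log_iff_exp_le hQ0).mpr hQ1
  have hp : 0 < 4 * K ^ 2 * D := by positivity
  have hek : 1 ≤ Real.exp K := Real.one_le_exp (by linarith)
  have hl1 : 1 ≤ Real.log Q := by linarith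
  have hl2 : Real.exp K ≤ Real.log Q := by linarith
  have hl3 : 4 * K ^ 2 * D ≤ Real.log Q := by linarith
  have hl0 : 0 < Real.log Q := by linarith
  refine ⟨h3, hl1, (Real.le_log_iff_exp_le hl0).mpr hl2, ?_⟩
  generalize Real.log Q = t at *
  have hDt : 0 < D * t := mul_pos hD hl0
  have hs : 0 < Real.sqrt (D * t) := Real.sqrt_pos.mpr hDt
  have h4 : Real.log (D * t) ≤ 2 * Real.sqrt (D * t) := by
    have h5 : Real.log (D * t) = 2 * Real.log (Real.sqrt (D * t)) := by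
      rw [Real.log_sqrt hDt.le]
      ring
    rw [h5]
    have h6 := Real.log_le_sub_one_of_pos hs
    linarith
  have h7 : 2 * K * Real.sqrt (D * t) ≤ t := by
    have h8 : (2 * K * Real.sqrt (D * t)) ^ 2 ≤ t ^ 2 := by
      rw [mul_pow, Real.sq_sqrt hDt.le]
      nlinarith [mul_le_mul_of_nonneg_right hl3 hl0.le]
    exact abs_le_of_sq_le_sq' h8 hl0.le |>.2
  have h9 := mul_le_mul_of_nonneg_left h4 (by linarith : 0 ≤ K)
  linarith





/-- The regime for the linear coordinate, at level `Q^100`. Proof. `X1/2 ≤ Y ≤ A X`, `X ≤ X1 Q`. -/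
theorem G2_regB (A : ℕ) (K C : ℝ) (hK : 1 ≤ K) : ∃ Q0 : ℕ, ∀ (Q X X1 Y : ℕ) (B : ℤ[X]), Q0 ≤ Q →
    Rg (100 * K + 2) C Q X → 0 < X1 → X1 ≤ X → X ≤ X1 * Q → GeoB A X X1 Y B →
    RegP K (Q ^ 100) Y ∧ Real.log Y ≤ 2 * Real.log X := by
  set D : ℝ := 2 * max C 1 with hD
  have hD0 : 0 < D := mul_pos two_pos (lt_of_lt_of_le one_pos (le_max_right _ _))
  obtain ⟨Q0, hQ0⟩ := g2_asy K D hK hD0
  refine ⟨Q0 + A, ?_⟩
  intro Q X X1 Y B hQ hR hX1 hXX hXQ hG
  obtain ⟨hQ3, hlQ1, hllQ, hasy⟩ := hQ0 Q (by omega)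
  obtain ⟨hR1, hR2⟩ := hR
  have hX1r : (1 : ℝ) ≤ X1 := by exact_mod_cast hX1
  have hXr : (1 : ℝ) ≤ X := by exact_mod_cast (le_trans hX1 hXX)
  have hQr : (0 : ℝ) < Q := by
    have : 0 < Q := by omega
    exact_mod_cast this
  have hlX1 : Real.log X - Real.log Q ≤ Real.log X1 := by
    have h1 : (X : ℝ) ≤ X1 * Q := by exact_mod_cast hXQ
    have h2 := Real.log_le_log (by linarith) h1
    rw [Real.log_mul (by linarith) hQr.ne'] at h2
    linarith
  have hY0 : 0 < Y := by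
    have := hG.Ylo
    omega
  have hYr : (1 : ℝ) ≤ Y := by exact_mod_cast hY0
  have hA0 : 0 < A := by
    have h1 := hG.Yhi
    rcases Nat.eq_zero_or_pos A with h | h
    · rw [h, zero_mul] at h1
      omega
    · exact h
  have hAr : (1 : ℝ) ≤ A := by exact_mod_cast hA0
  have hl2 : Real.log 2 ≤ Real.log Q := by
    refine Real.log_le_log two_pos ?_
    have : 2 ≤ Q := by omega
    exact_mod_cast this
  have hlA : Real.log A ≤ Real.log Q := by
    refine Real.log_le_log (by linarith) ?_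
    have : A ≤ Q := by omega
    exact_mod_cast this
  have hlY : Real.log X1 ≤ Real.log 2 + Real.log Y := by
    rw [← Real.log_mul (by norm_num) (by linarith)]
    exact Real.log_le_log (by linarith) (by exact_mod_cast hG.Ylo)
  have hKQ : Real.log Q ≤ K * Real.log Q := by nlinarith
  have hlow : K * (100 * Real.log Q) ≤ Real.log Y := by
    have h1 : (100 * K + 2) * Real.log Q = K * (100 * Real.log Q) + 2 * Real.log Q := by ring
    linarith
  have hQX : Real.log Q ≤ Real.log X := by nlinarith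
  have hup : Real.log Y ≤ 2 * Real.log X := by
    have h1 : Real.log Y ≤ Real.log A + Real.log X := by
      rw [← Real.log_mul (by linarith) (by linarith)]
      exact Real.log_le_log (by linarith) (by exact_mod_cast hG.Yhi)
    linarith
  have hlY1 : Real.log Q ≤ Real.log Y := by
    have h1 : K * (100 * Real.log Q) = 100 * (K * Real.log Q) := by ring
    linarith
  have hlQ100 : Real.log ((Q ^ 100 : ℕ) : ℝ) = 100 * Real.log Q := by
    rw [Nat.cast_pow, Real.log_pow]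
    norm_num
  refine ⟨⟨?_, ?_, ?_⟩, hup⟩
  · exact hllQ.trans (Real.log_le_log (by linarith) hlY1)
  · rw [hlQ100]
    have h5 : Real.log X ≤ max C 1 * Real.log Q :=
      hR2.trans (mul_le_mul_of_nonneg_right (le_max_left _ _) (by linarith))
    have h6 : K * Real.log (Real.log Y) ≤ K * Real.log (D * Real.log Q) := by
      refine mul_le_mul_of_nonneg_left (Real.log_le_log (by linarith) ?_) (by linarith)
      rw [hD]
      linarith
    linarith
  · rw [hlQ100]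
    exact hlow

end Pool.Agent.Lib.H24P
end

-- from Lib.H24P.ZDefs
section

/-!
# Project H24P: definitions for module Z
-/

open Finset Polynomial

namespace Pool.Agent.Lib.H24P

open Pool.Agent.Lib.H68T Pool.Agent.Lib.H18Q Pool.Agent.Lib.H59P

noncomputable section

/-- The truncated main term of a cell with coefficients `c`. -/
def MCf {k : ℕ} (Q m0 : ℕ) (c : Fin k → Ch → ℂ) (φ : Fin k → ℤ → ℤ) : ℂ :=
  ∑ p ∈ TSf k Q (fl Q (1 / 16)) m0, (∏ i, c i (p i)) * (MRf p (Rf m0 p) φ *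
    ((∑ d ∈ SF (fl Q (1 / 2) / Rf m0 p) (Rf m0 p), tdf d φ : ℝ) : ℂ))




end

end Pool.Agent.Lib.H24P
end

-- from Lib.H59P.C1A
section

/-!
# Project H59P, chunk C1a
-/

open Finset

namespace Pool.Agent.Lib.H59P

open Pool.Agent.Lib.H68T Pool.Agent.Lib.H18Q

/-- Sum over a product of coordinates in `J` and outside of `J`. -/
theorem c1a_split {k : ℕ} {ι : Type*} [DecidableEq ι] (S : Finset ι) (J : Finset (Fin k))
    (A : Fin k → ι → ℂ) (c : (Fin k → ι) → ℂ) (v0 : ι)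
    (hc : ∀ p : Fin k → ι, c p = c (fun i => if i ∈ J then p i else v0)) :
    ∑ p ∈ (Fintype.piFinset fun _ : Fin k => S), (∏ i ∈ univ \ J, A i (p i)) * c p =
      (∏ i ∈ univ \ J, ∑ p ∈ S, A i p) *
        ∑ a ∈ (Fintype.piFinset fun _ : {i : Fin k // i ∈ J} => S),
          c (fun i => if h : i ∈ J then a ⟨i, h⟩ else v0) := by
  classical
  have h1 : ∑ p ∈ (Fintype.piFinset fun _ : Fin k => S), (∏ i ∈ univ \ J, A i (p i)) * c p =
      ∑ x ∈ (Fintype.piFinset fun _ : {i : Fin k // i ∈ J} => S) ×ˢ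
        (Fintype.piFinset fun _ : {i : Fin k // i ∉ J} => S),
        (∏ i : {i : Fin k // i ∉ J}, A i (x.2 i)) * c (fun i => if h : i ∈ J then x.1 ⟨i, h⟩ else v0) := by
    refine Finset.sum_nbij' (fun p => (fun i : {i : Fin k // i ∈ J} => p i, fun i : {i : Fin k // i ∉ J} => p i))
      (fun x i => if h : i ∈ J then x.1 ⟨i, h⟩ else x.2 ⟨i, h⟩) ?_ ?_ ?_ ?_ ?_
    · intro p hp
      rw [Fintype.mem_piFinset] at hp
      simp only [Finset.mem_product, Fintype.mem_piFinset]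
      exact ⟨fun i => hp i, fun i => hp i⟩
    · intro x hx
      simp only [Finset.mem_product, Fintype.mem_piFinset] at hx
      rw [Fintype.mem_piFinset]
      intro i
      by_cases h : i ∈ J
      · simp only [h, dif_pos]; exact hx.1 _
      · simp only [h, dif_neg, not_false_eq_true]; exact hx.2 _
    · intro p hp
      funext i
      by_cases h : i ∈ J
      · simp only [h, dif_pos]
      · simp only [h, dif_neg, not_false_eq_true]
    · intro x hx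
      refine Prod.ext ?_ ?_
      · funext i
        simp only [i.2, dif_pos]
      · funext i
        simp only [i.2, dif_neg, not_false_eq_true]
    · intro p hp
      have e1 : (∏ i ∈ univ \ J, A i (p i)) = ∏ i : {i : Fin k // i ∉ J}, A i (p i) := by
        rw [← Finset.prod_subtype (univ \ J) (p := fun i => i ∉ J) (f := fun i => A i (p i))]
        intro i
        simp
      have e2 : (fun i => if i ∈ J then p i else v0) = fun i => if h : i ∈ J then p ((⟨i, h⟩ : {i : Fin k // i ∈ J}) : Fin k) else v0 := by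
        funext i
        by_cases h : i ∈ J
        · simp [h]
        · simp [h]
      rw [e1, hc p, e2]
  rw [h1, Finset.sum_product]
  have e3 : (∏ i ∈ univ \ J, ∑ p ∈ S, A i p) = ∏ i : {i : Fin k // i ∉ J}, ∑ p ∈ S, A i p := by
    rw [← Finset.prod_subtype (univ \ J) (p := fun i => i ∉ J) (f := fun i => ∑ p ∈ S, A i p)]
    intro i
    simp
  rw [e3, Finset.prod_univ_sum, Finset.mul_sum]
  refine Finset.sum_congr rfl fun a _ => ?_
  rw [Finset.sum_mul]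

/-- **C1a.** `φ` is a condition on tuples which, for tuples with the coordinates outside of `J` in `V`,
depends on the coordinates in `J` only; `A i` vanishes outside of `V`.

Proof. If `J` is everything the right side bounds the left side by the triangle inequality. If `V ∩ S = ∅` and
`J` is not everything, both `∏_{i ∉ J} A i (p i)` and one factor `∑_p A i p` vanish. Else fix `v0 ∈ V ∩ S` and
let `φ'(p) = φ(p with the coordinates outside J replaced by v0)`. Since `A i (p i) = 0` unless `p i ∈ V`,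
the sum is `∑_{p} [φ'(p)] ∏_{i∉J} A i (p i) ∏_{i∈J} B i (p i)`, `φ'` depends on the coordinates in `J` only, so it is
`(∏_{i ∉ J} ∑_p A i p) · ∑_{p on J} [φ'] ∏_{i∈J} B i (p i)` (`Equiv.piEquivPiSubtypeProd` /
`Fintype.piFinset` and `Finset.prod_univ_sum`; or induction over the elements outside of `J`:
summing over one coordinate `i0 ∉ J` at a time). The last sum is at most `∏_{i∈J} ∑_p ‖B i p‖`. -/
theorem C1a {k : ℕ} {ι : Type*} [DecidableEq ι] (S V : Finset ι) (φ : (Fin k → ι) → Prop)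
    [DecidablePred φ] (A B : Fin k → ι → ℂ) (J : Finset (Fin k))
    (hA : ∀ i, ∀ p ∈ S, p ∉ V → A i p = 0)
    (dep : ∀ p p' : Fin k → ι, (∀ i ∈ J, p i = p' i) → (∀ i, i ∉ J → p i ∈ V) →
      (∀ i, i ∉ J → p' i ∈ V) → (φ p ↔ φ p')) :
    ‖∑ p ∈ (Fintype.piFinset fun _ : Fin k => S).filter φ,
      (∏ i ∈ univ \ J, A i (p i)) * ∏ i ∈ J, B i (p i)‖ ≤
      (∏ i ∈ univ \ J, ‖∑ p ∈ S, A i p‖) * ∏ i ∈ J, ∑ p ∈ S, ‖B i p‖ := by
  classical
  by_cases hJ : ∃ i, i ∉ J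
  swap
  · push Not at hJ
    have hJu : J = univ := Finset.eq_univ_iff_forall.mpr hJ
    subst hJu
    simp only [Finset.sdiff_self, Finset.prod_empty, one_mul]
    refine (norm_sum_le _ _).trans ?_
    rw [Finset.prod_univ_sum]
    refine (Finset.sum_le_sum_of_subset_of_nonneg (Finset.filter_subset _ _)
      fun p _ _ => norm_nonneg _).trans ?_
    exact Finset.sum_le_sum fun p _ => le_of_eq (norm_prod _ _)
  · obtain ⟨i0, hi0⟩ := hJ
    have hR : 0 ≤ (∏ i ∈ univ \ J, ‖∑ p ∈ S, A i p‖) * ∏ i ∈ J, ∑ p ∈ S, ‖B i p‖ :=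
      mul_nonneg (Finset.prod_nonneg fun _ _ => norm_nonneg _)
        (Finset.prod_nonneg fun _ _ => Finset.sum_nonneg fun _ _ => norm_nonneg _)
    by_cases hVS : ∃ v0, v0 ∈ V ∧ v0 ∈ S
    swap
    · push Not at hVS
      rw [Finset.sum_eq_zero]
      · rw [norm_zero]; exact hR
      · intro p hp
        have hp1 := Fintype.mem_piFinset.mp (Finset.mem_filter.mp hp).1
        rw [Finset.prod_eq_zero (i := i0) (by simp [hi0]) (hA i0 (p i0) (hp1 i0) fun h => hVS _ h (hp1 i0)), zero_mul]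
    · obtain ⟨v0, hv0, hv0S⟩ := hVS
      set c : (Fin k → ι) → ℂ := fun p =>
        if φ (fun i => if i ∈ J then p i else v0) then ∏ i ∈ J, B i (p i) else 0 with hc
      have h1 : ∑ p ∈ (Fintype.piFinset fun _ : Fin k => S).filter φ,
          (∏ i ∈ univ \ J, A i (p i)) * ∏ i ∈ J, B i (p i) =
          ∑ p ∈ (Fintype.piFinset fun _ : Fin k => S), (∏ i ∈ univ \ J, A i (p i)) * c p := by
        rw [Finset.sum_filter]
        refine Finset.sum_congr rfl fun p hp => ?_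
        have hp1 := Fintype.mem_piFinset.mp hp
        by_cases hpV : ∀ i, i ∉ J → p i ∈ V
        · have hd : φ p ↔ φ (fun i => if i ∈ J then p i else v0) := by
            refine dep _ _ (fun i hi => by simp [hi]) hpV fun i hi => ?_
            simp [hi, hv0]
          simp only [hc]
          by_cases hφ : φ p
          · rw [if_pos hφ, if_pos (hd.mp hφ)]
          · rw [if_neg hφ, if_neg (fun h => hφ (hd.mpr h)), mul_zero]
        · push Not at hpV
          obtain ⟨i1, hi1, hi1V⟩ := hpV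
          have h0 : ∏ i ∈ univ \ J, A i (p i) = 0 :=
            Finset.prod_eq_zero (i := i1) (by simp [hi1]) (hA i1 (p i1) (hp1 i1) hi1V)
          rw [h0, zero_mul, zero_mul, ite_self]
      have hcc : ∀ p : Fin k → ι, c p = c (fun i => if i ∈ J then p i else v0) := by
        intro p
        simp only [hc]
        have e1 : (fun i => if i ∈ J then (if i ∈ J then p i else v0) else v0) = fun i => if i ∈ J then p i else v0 := by
          funext i
          by_cases h : i ∈ J <;> simp [h]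
        rw [e1]
        have e2 : ∏ i ∈ J, B i (if i ∈ J then p i else v0) = ∏ i ∈ J, B i (p i) :=
          Finset.prod_congr rfl fun i hi => by rw [if_pos hi]
        rw [e2]
      rw [h1, c1a_split S J A c v0 hcc, norm_mul, norm_prod]
      refine mul_le_mul_of_nonneg_left ?_ (Finset.prod_nonneg fun _ _ => norm_nonneg _)
      refine (norm_sum_le _ _).trans ?_
      have e3 : ∏ i ∈ J, ∑ p ∈ S, ‖B i p‖ = ∏ i : {i : Fin k // i ∈ J}, ∑ p ∈ S, ‖B i p‖ := by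
        rw [← Finset.prod_subtype J (p := fun i => i ∈ J) (f := fun i => ∑ p ∈ S, ‖B i p‖)]
        intro i
        simp
      rw [e3, Finset.prod_univ_sum]
      refine Finset.sum_le_sum fun a _ => ?_
      have e4 : ∏ i : {i : Fin k // i ∈ J}, ‖B i (a i)‖ =
          ‖∏ i ∈ J, B i ((fun i => if h : i ∈ J then a ⟨i, h⟩ else v0) i)‖ := by
        rw [norm_prod, ← Finset.prod_attach J]
        rw [Finset.univ_eq_attach]
        refine Finset.prod_congr rfl fun i _ => ?_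
        simp only [i.2, dif_pos]
      rw [e4]
      simp only [hc]
      split_ifs
      · exact le_rfl
      · rw [norm_zero]; exact norm_nonneg _

end Pool.Agent.Lib.H59P
end

-- from Lib.H59P.C1
section

/-!
# Project H59P, chunk C1
-/

open Finset

namespace Pool.Agent.Lib.H59P

open Pool.Agent.Lib.H68T Pool.Agent.Lib.H18Q

/-- **C1.** Proof. `∏ (A + B) = ∑_J ∏_{i∉J} A ∏_{i∈J} B` (`Finset.prod_add` with the roles of the two subsets).
For `J = ∅`: tuples not satisfying `φ` have a coordinate outside of `V` (`hV`), so the product of the `A`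
vanishes, and the sum over all tuples is `∏_i ∑_p A i p`. For `J ≠ ∅` use `C1a`; the sum of the bounds over
all `J ≠ ∅` is `∏_i (‖∑ A‖ + ∑ ‖B‖) - ∏_i ‖∑ A‖`. -/
theorem C1 {k : ℕ} {ι : Type*} [DecidableEq ι] (S V : Finset ι) (φ : (Fin k → ι) → Prop)
    [DecidablePred φ] (A B : Fin k → ι → ℂ)
    (hA : ∀ i, ∀ p ∈ S, p ∉ V → A i p = 0)
    (dep : ∀ (J : Finset (Fin k)) (p p' : Fin k → ι), (∀ i ∈ J, p i = p' i) →
      (∀ i, i ∉ J → p i ∈ V) → (∀ i, i ∉ J → p' i ∈ V) → (φ p ↔ φ p'))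
    (hV : ∀ p : Fin k → ι, (∀ i, p i ∈ V) → φ p) :
    ‖∑ p ∈ (Fintype.piFinset fun _ : Fin k => S).filter φ, ∏ i, (A i (p i) + B i (p i)) -
      ∏ i, ∑ p ∈ S, A i p‖ ≤
      ∏ i, (‖∑ p ∈ S, A i p‖ + ∑ p ∈ S, ‖B i p‖) - ∏ i, ‖∑ p ∈ S, A i p‖ := by
  classical
  set F : Finset (Fin k) → ℂ := fun J => ∑ p ∈ (Fintype.piFinset fun _ : Fin k => S).filter φ,
      (∏ i ∈ univ \ J, A i (p i)) * ∏ i ∈ J, B i (p i) with hF
  set G : Finset (Fin k) → ℝ := fun J =>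
      (∏ i ∈ univ \ J, ‖∑ p ∈ S, A i p‖) * ∏ i ∈ J, ∑ p ∈ S, ‖B i p‖ with hG
  have h1 : ∑ p ∈ (Fintype.piFinset fun _ : Fin k => S).filter φ, ∏ i, (A i (p i) + B i (p i)) =
      ∑ J ∈ (univ : Finset (Fin k)).powerset, F J := by
    simp only [hF]
    rw [Finset.sum_comm]
    refine Finset.sum_congr rfl fun p _ => ?_
    have : ∀ i, A i (p i) + B i (p i) = B i (p i) + A i (p i) := fun i => add_comm _ _
    simp only [this]
    rw [Finset.prod_add]
    refine Finset.sum_congr rfl fun J _ => mul_comm _ _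
  have h2 : ∏ i, (‖∑ p ∈ S, A i p‖ + ∑ p ∈ S, ‖B i p‖) = ∑ J ∈ (univ : Finset (Fin k)).powerset, G J := by
    simp only [hG]
    have : ∀ i, ‖∑ p ∈ S, A i p‖ + ∑ p ∈ S, ‖B i p‖ = ∑ p ∈ S, ‖B i p‖ + ‖∑ p ∈ S, A i p‖ := fun i => add_comm _ _
    simp only [this]
    rw [Finset.prod_add]
    refine Finset.sum_congr rfl fun J _ => mul_comm _ _
  have h3 : F ∅ = ∏ i, ∑ p ∈ S, A i p := by
    simp only [hF, Finset.sdiff_empty, Finset.prod_empty, mul_one]
    rw [Finset.prod_univ_sum, Finset.sum_filter]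
    refine Finset.sum_congr rfl fun p hp => ?_
    by_cases hφ : φ p
    · rw [if_pos hφ]
    · rw [if_neg hφ]
      have : ∃ i, p i ∉ V := by
        by_contra h
        push Not at h
        exact hφ (hV p h)
      obtain ⟨i, hi⟩ := this
      exact (Finset.prod_eq_zero (Finset.mem_univ i) (hA i (p i) (Fintype.mem_piFinset.mp hp i) hi)).symm
  have h4 : G ∅ = ∏ i, ‖∑ p ∈ S, A i p‖ := by
    simp only [hG, Finset.sdiff_empty, Finset.prod_empty, mul_one]
  have hmem : (∅ : Finset (Fin k)) ∈ (univ : Finset (Fin k)).powerset := Finset.empty_mem_powerset _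
  rw [h1, h2, ← h3, ← h4, ← Finset.add_sum_erase _ F hmem, ← Finset.add_sum_erase _ G hmem, add_sub_cancel_left,
    add_sub_cancel_left]
  refine (norm_sum_le _ _).trans (Finset.sum_le_sum fun J _ => ?_)
  exact C1a S V φ A B J hA (dep J)

end Pool.Agent.Lib.H59P
end

-- from Lib.H59P.C2
section

/-!
# Project H59P, chunk C2: the numerical inequality
-/

open Finset

namespace Pool.Agent.Lib.H59P

open Pool.Agent.Lib.H68T Pool.Agent.Lib.H18Q

/-- **C2.** Proof. `a_i + b_i ≤ a_i (1 + E0)` (`b_i ≤ η E0 ≤ a_i E0`), so the left side is at most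
`((1+E0)^k - 1) ∏ a_i`, and `(1+E0)^k ≤ e^(k E0) ≤ e^(1/4) ≤ 3/2`. -/
theorem C2 {k : ℕ} (a b : Fin k → ℝ) (η E0 : ℝ) (hη : 0 < η) (hE0 : 0 ≤ E0) (hE : 4 * k * E0 ≤ 1)
    (ha : ∀ i, η ≤ a i) (hb0 : ∀ i, 0 ≤ b i) (hb : ∀ i, b i ≤ η * E0) :
    ∏ i, (a i + b i) - ∏ i, a i ≤ 1 / 2 * ∏ i, a i := by
  have ha0 : ∀ i, 0 ≤ a i := fun i => hη.le.trans (ha i)
  have hP : 0 ≤ ∏ i, a i := Finset.prod_nonneg fun i _ => ha0 i
  have h1 : ∏ i, (a i + b i) ≤ ∏ i, (a i * (1 + E0)) := by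
    refine Finset.prod_le_prod (fun i _ => add_nonneg (ha0 i) (hb0 i)) fun i _ => ?_
    have := mul_le_mul_of_nonneg_right (ha i) hE0
    have := hb i
    linarith
  have h2 : ∏ i : Fin k, (a i * (1 + E0)) = (∏ i, a i) * (1 + E0) ^ k := by
    rw [Finset.prod_mul_distrib, Finset.prod_const, Finset.card_univ, Fintype.card_fin]
  have h3 : (1 + E0) ^ k ≤ 3 / 2 := by
    have e1 : (1 + E0) ^ k ≤ Real.exp E0 ^ k :=
      pow_le_pow_left₀ (by linarith) (by linarith [Real.add_one_le_exp E0]) k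
    have e2 : Real.exp E0 ^ k = Real.exp (k * E0) := by rw [← Real.exp_nat_mul]
    have e3 : Real.exp (k * E0) ≤ Real.exp (1 / 4) := Real.exp_le_exp.mpr (by linarith)
    have e4 : Real.exp (1 / 4) ≤ 3 / 2 := by
      have h := Real.exp_one_lt_d9
      have h5 : Real.exp (1 / 4) ^ 4 = Real.exp 1 := by
        rw [← Real.exp_nat_mul]; norm_num
      by_contra hcon
      push Not at hcon
      have h6 : (3 / 2 : ℝ) ^ 4 < Real.exp (1 / 4) ^ 4 := pow_lt_pow_left₀ hcon (by norm_num) (by norm_num)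
      rw [h5] at h6
      norm_num at h6
      linarith
    linarith [e1.trans (e2.le.trans (e3.trans e4))]
  rw [h2] at h1
  have h4 := mul_le_mul_of_nonneg_left h3 hP
  linarith

end Pool.Agent.Lib.H59P
end

-- from Lib.H59P.CF0
section

/-!
# Project H59P, chunk CF0: coefficients from the model
-/

open Finset

namespace Pool.Agent.Lib.H59P

open Pool.Agent.Lib.H68T Pool.Agent.Lib.H18Q

/-- **CF0.** From `Mdl` with `E0 ≤ 1`: the coefficients `B m p = MX px th m p + e m p` satisfy `Cf` with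
`mb p = [p = p0] + [p = px, px ≠ p0] + eb p`.

Proof. `MX` is `1` at `p0`, `-th m` at `px` (`0 ≤ th m ≤ 1 - η ≤ 1`), `0` else, and varies by at most `Q^3/X`
(`Mdl.slow`); `∑ eb ≤ η E0 ≤ 1` (`Finset.sum_ite_eq`). The remaining conclusions are `LevE`. -/
theorem CF0 (Q X : ℕ) (η E0 : ℝ) (px : Ch) (th : ℤ → ℝ) (hQ : 1 ≤ Q) (hM : Mdl Q X η E0 px th)
    (hE : E0 ≤ 1) :
    ∃ (e : ℤ → Ch → ℂ) (eb mb : Ch → ℝ), (∀ p ∈ PC Q, 0 ≤ eb p) ∧ ∑ p ∈ PC Q, eb p ≤ η * E0 ∧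
      (∀ m : ℤ, (X : ℤ) ≤ m → m ≤ 4 * X → ∀ p ∈ PC Q, ‖e m p‖ ≤ eb p) ∧
      Cf Q X (fun m p => MX px th m p + e m p) mb := by
  classical
  have hQ0 : (0 : ℝ) ≤ (Q : ℝ) ^ 3 := by positivity
  obtain ⟨e, eb, heb0, hebs, hlev⟩ := hM.lev
  have hE1 : ∑ p ∈ PC Q, eb p ≤ 1 := by
    refine hebs.trans ?_
    have h1 := hM.eta_pos
    have h2 := hM.eta_le
    nlinarith
  let ma : Ch → ℝ := fun p => (if p = p0 then 1 else if p = px then 1 else 0)
  have hma0 : ∀ p, 0 ≤ ma p := by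
    intro p
    change 0 ≤ (if p = p0 then (1 : ℝ) else if p = px then 1 else 0)
    split_ifs <;> norm_num
  have hMXn : ∀ m : ℤ, (X : ℤ) ≤ m → m ≤ 4 * X → ∀ p, ‖MX px th m p‖ ≤ ma p := by
    intro m h1 h2 p
    change ‖MX px th m p‖ ≤ (if p = p0 then (1 : ℝ) else if p = px then 1 else 0)
    unfold MX
    split_ifs with h3 h4
    · simp
    · rw [norm_neg, Complex.norm_real, Real.norm_eq_abs, abs_of_nonneg (hM.nonneg m h1 h2)]
      linarith [hM.le m h1 h2, hM.eta_pos]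
    · simp
  have hXm : ∀ m : ℤ, (X : ℤ) ≤ m → m + 1 ≤ 4 * X → ∀ p,
      ‖MX px th (m + 1) p - MX px th m p‖ ≤ (Q : ℝ) ^ 3 / X := by
    intro m h1 h2 p
    have h0 : (0 : ℝ) ≤ (Q : ℝ) ^ 3 / X := div_nonneg hQ0 (Nat.cast_nonneg X)
    unfold MX
    split_ifs with h3 h4
    · simpa using h0
    · have h5 := hM.slow m h1 h2
      rw [neg_sub_neg, ← Complex.ofReal_sub, Complex.norm_real, Real.norm_eq_abs, abs_sub_comm]
      exact h5
    · simpa using h0
  refine ⟨e, eb, fun p => ma p + eb p, heb0, hebs, fun m h1 h2 p hp => ((hlev m h1 h2).2 p hp).1, ?_⟩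
  refine ⟨fun p hp => add_nonneg (hma0 p) (heb0 p hp), ?_, ?_, ?_, ?_⟩
  · rw [Finset.sum_add_distrib]
    have h1 : ∑ p ∈ PC Q, ma p ≤ 2 := by
      have h2 : ∀ p, ma p ≤ (if p = p0 then (1 : ℝ) else 0) + (if p = px then (1 : ℝ) else 0) := by
        intro p
        change (if p = p0 then (1 : ℝ) else if p = px then 1 else 0) ≤ _
        split_ifs <;> norm_num
      refine (Finset.sum_le_sum fun p _ => h2 p).trans ?_
      rw [Finset.sum_add_distrib, Finset.sum_ite_eq', Finset.sum_ite_eq']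
      split_ifs <;> norm_num
    linarith
  · intro m h1 h2 p hp
    exact (norm_add_le _ _).trans (add_le_add (hMXn m h1 h2 p) ((hlev m h1 h2).2 p hp).1)
  · intro m h1 h2 p hp
    have h3 := hXm m h1 h2 p
    have h4 := ((hlev m h1 (by omega)).2 p hp).2
    have h5 : MX px th (m + 1) p + e (m + 1) p - (MX px th m p + e m p) =
        (MX px th (m + 1) p - MX px th m p) + (e (m + 1) p - e m p) := by ring
    rw [h5]
    refine (norm_add_le _ _).trans ?_
    have h6 : 2 * (Q : ℝ) ^ 3 / X = (Q : ℝ) ^ 3 / X + (Q : ℝ) ^ 3 / X := by ring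
    rw [h6]
    exact add_le_add h3 h4
  · intro m h1 h2
    exact (hlev m h1 h2).1

end Pool.Agent.Lib.H59P
end

-- from Lib.H59P.M5A
section

/-!
# Project H59P, chunk M5
-/

open Finset

namespace Pool.Agent.Lib.H59P

open Pool.Agent.Lib.H68T Pool.Agent.Lib.H18Q

/-- full periods -/
theorem m5a_full (f : ℤ → ℂ) (N : ℕ) (hf : ∀ m, f (m + N) = f m) (j : ℕ) :
    ∑ n ∈ range (N * j), f n = j * ∑ n ∈ range N, f n := by
  have hper : ∀ (j : ℕ) (n : ℕ), f ((N * j + n : ℕ) : ℤ) = f n := by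
    intro j n
    induction j with
    | zero => simp
    | succ j ih =>
      have e : ((N * (j + 1) + n : ℕ) : ℤ) = ((N * j + n : ℕ) : ℤ) + N := by push_cast; ring
      rw [e, hf, ih]
  induction j with
  | zero => simp
  | succ j ih =>
    rw [mul_add, mul_one, sum_range_add, ih]
    have : ∑ x ∈ range N, f ((N * j + x : ℕ) : ℤ) = ∑ n ∈ range N, f n :=
      sum_congr rfl fun n _ => hper j n
    rw [this]
    push_cast
    ring








end Pool.Agent.Lib.H59P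
end

-- from Lib.H59P.M5B
section

/-!
# Project H59P, chunk M5_loc
-/

open Finset

namespace Pool.Agent.Lib.H59P

open Pool.Agent.Lib.H68T Pool.Agent.Lib.H18Q

theorem m5b_cj (m : ℤ) : cj p0 m = 1 := by
  unfold cj p0
  have h1 : ((m : ℤ) : ZMod 1) = 1 := Subsingleton.elim _ _
  rw [h1, map_one, map_one]



end Pool.Agent.Lib.H59P
end

-- from Lib.H59P.X1A
section

/-!
# Project H59P, chunk X1a
-/

open Finset

namespace Pool.Agent.Lib.H59P

open Pool.Agent.Lib.H68T Pool.Agent.Lib.H18Q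

theorem x1a_parseval (r : ℕ) [NeZero r] (f : ZMod r → ℂ) :
    ∑ m : ZMod r, ‖∑ b, (ZMod.stdAddChar (b * m) : ℂ) * f b‖ ^ 2 = (r : ℝ) * ∑ b, ‖f b‖ ^ 2 := by
  classical
  refine Pool.Agent.Lib.H59C.lsb_parseval (fun (m b : ZMod r) => (ZMod.stdAddChar (b * m) : ℂ)) (r : ℝ) ?_ f
  intro b b'
  have h2 := AddChar.sum_mulShift (b' - b) (ZMod.isPrimitive_stdAddChar r)
  rw [ZMod.card] at h2
  have h3 : ∀ x : ZMod r, (starRingEnd ℂ) (ZMod.stdAddChar (b * x) : ℂ) *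
      ZMod.stdAddChar (b' * x) = ZMod.stdAddChar (x * (b' - b)) := by
    intro x
    rw [← AddChar.map_neg_eq_conj, ← AddChar.map_add_eq_mul]
    congr 1
    ring
  rw [sum_congr rfl fun x _ => h3 x, h2]
  by_cases hb : b = b'
  · rw [if_pos hb, if_pos (by rw [hb, sub_self])]
    norm_cast
  · rw [if_neg hb, if_neg (by rw [sub_eq_zero]; exact fun h => hb h.symm)]
    norm_cast

theorem x1a_gauss (r : ℕ) [NeZero r] (χ : DirichletCharacter ℂ r) (hχ : χ.IsPrimitive) (m : ZMod r) :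
    ‖∑ b, (ZMod.stdAddChar (b * m) : ℂ) * χ b‖ ^ 2 ≤ r := by
  have h4 : ‖∑ b, (ZMod.stdAddChar (b * m) : ℂ) * χ b‖ ^ 2 =
      ‖χ⁻¹ m‖ ^ 2 * ‖gaussSum χ (ZMod.stdAddChar (N := r))‖ ^ 2 := by
    rw [← mul_pow, ← norm_mul, ← gaussSum_mulShift_of_isPrimitive _ hχ, gaussSum]
    congr 2
    refine sum_congr rfl fun b _ => ?_
    rw [AddChar.mulShift_apply, mul_comm, mul_comm b]
  rw [h4, Pool.Agent.Lib.H59C.lsb_gauss r hχ]
  have h5 : ‖χ⁻¹ m‖ ≤ 1 := χ⁻¹.norm_le_one m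
  have h6 : ‖χ⁻¹ m‖ ^ 2 ≤ 1 := pow_le_one₀ (norm_nonneg _) h5
  have h7 : (0 : ℝ) ≤ r := Nat.cast_nonneg r
  nlinarith

/-- **X1a.** For a primitive character modulo `r`: `∑_{t mod r} |∑_{s mod r} χ(s) conj χ(s+t)|² ≤ r^3`.

Proof. By Parseval the autocorrelation `c(t) = ∑_s χ(s) conj χ(s+t)` has Fourier transform
`|χ^(ξ)|²`, and `|χ^(ξ)|² = |χ(ξ)|² |τ|² ≤ r` (`lsb_gauss`, `gaussSum_mulShift_of_isPrimitive`; primitivity), so
`∑_t |c(t)|² = (1/r) ∑_ξ |χ^(ξ)|^4 ≤ (1/r) r · r² = r²`... (so even `≤ r^2 · 1`; any bound `≤ r^3 / r` is fine: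
the statement is with `r ^ 2`). Or `c(t)` is a Ramanujan sum. -/
theorem X1a (r : ℕ) [NeZero r] (χ : DirichletCharacter ℂ r) (hχ : χ.IsPrimitive) :
    ∑ t : ZMod r, ‖∑ s : ZMod r, χ s * (starRingEnd ℂ) (χ (s + t))‖ ^ 2 ≤ (r : ℝ) ^ 2 := by
  classical
  have hr : (0 : ℝ) < r := by exact_mod_cast NeZero.pos r
  have h1 := x1a_parseval r (fun t => ∑ s : ZMod r, χ s * (starRingEnd ℂ) (χ (s + t)))
  have h2 : ∀ m : ZMod r, ‖∑ b : ZMod r, (ZMod.stdAddChar (b * m) : ℂ) *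
      ∑ s : ZMod r, χ s * (starRingEnd ℂ) (χ (s + b))‖ ^ 2 ≤ (r : ℝ) ^ 2 := by
    intro m
    have e1 : ∑ b : ZMod r, (ZMod.stdAddChar (b * m) : ℂ) *
        ∑ s : ZMod r, χ s * (starRingEnd ℂ) (χ (s + b)) =
        (∑ s : ZMod r, (ZMod.stdAddChar (s * (-m)) : ℂ) * χ s) *
          (starRingEnd ℂ) (∑ u : ZMod r, (ZMod.stdAddChar (u * (-m)) : ℂ) * χ u) := by
      rw [map_sum, sum_mul_sum]
      simp_rw [mul_sum]
      rw [sum_comm]
      refine sum_congr rfl fun s _ => ?_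
      rw [← Equiv.sum_comp (Equiv.addLeft s)
        (fun u => (ZMod.stdAddChar (s * -m) : ℂ) * χ s *
          (starRingEnd ℂ) ((ZMod.stdAddChar (u * -m) : ℂ) * χ u))]
      refine sum_congr rfl fun b _ => ?_
      rw [Equiv.coe_addLeft, map_mul (starRingEnd ℂ)]
      dsimp only
      rw [← AddChar.map_neg_eq_conj]
      have e2 : (ZMod.stdAddChar (b * m) : ℂ) =
          ZMod.stdAddChar (s * -m) * ZMod.stdAddChar (-((s + b) * -m)) := by
        rw [← AddChar.map_add_eq_mul]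
        congr 1
        ring
      rw [e2]
      ring
    rw [e1, norm_mul, RCLike.norm_conj, ← sq, ← pow_mul]
    have e3 := x1a_gauss r χ hχ (-m)
    calc ‖∑ s : ZMod r, (ZMod.stdAddChar (s * (-m)) : ℂ) * χ s‖ ^ (2 * 2)
        = (‖∑ s : ZMod r, (ZMod.stdAddChar (s * (-m)) : ℂ) * χ s‖ ^ 2) ^ 2 := by rw [pow_mul]
      _ ≤ (r : ℝ) ^ 2 := pow_le_pow_left₀ (sq_nonneg _) e3 2
  have h3 : (r : ℝ) * ∑ t : ZMod r, ‖∑ s : ZMod r, χ s * (starRingEnd ℂ) (χ (s + t))‖ ^ 2 ≤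
      (r : ℝ) * (r : ℝ) ^ 2 := by
    rw [← h1]
    refine (sum_le_sum fun m _ => h2 m).trans ?_
    rw [sum_const, card_univ, ZMod.card, nsmul_eq_mul]
  exact le_of_mul_le_mul_left h3 hr

end Pool.Agent.Lib.H59P
end

-- from Lib.H59P.X1
section

/-!
# Project H59P, chunk pB, X1
-/

open Finset

namespace Pool.Agent.Lib.H59P

open Pool.Agent.Lib.H68T Pool.Agent.Lib.H18Q

/-- The tuple of characters: `⟨r, ψ⟩` on `B`, trivial else. -/
noncomputable def pB {k : ℕ} (px : Ch) (B : Finset (Fin k)) (i : Fin k) : Ch := if i ∈ B then px else p0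

theorem x1_tot (r : ℕ) (hr : 0 < r) :
    ∏ l ∈ r.primeFactors, ((l : ℝ) / ((l : ℝ) - 1)) = (r : ℝ) / (Nat.totient r : ℝ) := by
  have h1 : (Nat.totient r : ℝ) = (r : ℝ) * ∏ p ∈ r.primeFactors, (1 - (p : ℝ)⁻¹) := by
    have h := Nat.totient_eq_mul_prod_factors r
    have h2 : (((Nat.totient r : ℚ)) : ℝ) = (((r : ℚ) * ∏ p ∈ r.primeFactors, (1 - (p : ℚ)⁻¹) : ℚ) : ℝ) := by
      rw [h]
    push_cast at h2
    exact h2
  have h3 : ∀ p ∈ r.primeFactors, ((p : ℝ) / ((p : ℝ) - 1)) * (1 - (p : ℝ)⁻¹) = 1 := by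
    intro p hp
    have hp2 := (Nat.prime_of_mem_primeFactors hp).two_le
    have hp3 : (2 : ℝ) ≤ p := by exact_mod_cast hp2
    have : (p : ℝ) - 1 ≠ 0 := by linarith
    have : (p : ℝ) ≠ 0 := by linarith
    field_simp
  have h4 : (∏ l ∈ r.primeFactors, ((l : ℝ) / ((l : ℝ) - 1))) * ∏ p ∈ r.primeFactors, (1 - (p : ℝ)⁻¹) = 1 := by
    rw [← prod_mul_distrib]
    exact prod_eq_one h3
  have hr0 : (0 : ℝ) < r := by exact_mod_cast hr
  have ht0 : (0 : ℝ) < Nat.totient r := by exact_mod_cast Nat.totient_pos.2 hr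
  rw [eq_div_iff ht0.ne', h1, mul_comm (r : ℝ), ← mul_assoc, h4, one_mul]

theorem x1_uu_unit (r : ℕ) (hr : 0 < r) (m : ℤ) (hm : IsUnit (m : ZMod r)) :
    uu r.primeFactors m = (r : ℝ) / (Nat.totient r : ℝ) := by
  rw [← x1_tot r hr]
  unfold uu
  refine prod_congr rfl fun l hl => ?_
  have hlp := Nat.prime_of_mem_primeFactors hl
  have hld := Nat.dvd_of_mem_primeFactors hl
  have hnd : ¬ (l : ℤ) ∣ m := by
    intro h
    rw [ZMod.coe_int_isUnit_iff_isCoprime] at hm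
    have h1 : IsCoprime (l : ℤ) m := hm.of_isCoprime_of_dvd_left (by exact_mod_cast hld)
    have h2 : IsUnit (l : ℤ) := h1.isUnit_of_dvd' dvd_rfl h
    rw [Int.isUnit_iff] at h2
    have := hlp.two_le
    omega
  unfold gl
  rw [if_neg hnd]
  have hp3 : (2 : ℝ) ≤ l := by exact_mod_cast hlp.two_le
  have : (l : ℝ) - 1 ≠ 0 := by linarith
  field_simp
  ring


theorem x1_sum_mul (r q : ℕ) (g : ℕ → ℂ) (hg : ∀ s, g (s + r) = g s) :
    ∑ s ∈ range (r * q), g s = q * ∑ s ∈ range r, g s := by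
  induction q with
  | zero => simp
  | succ q ih =>
    rw [Nat.mul_succ, sum_range_add, ih]
    have h1 : ∀ q s : ℕ, g (r * q + s) = g s := by
      intro q s
      induction q with
      | zero => simp
      | succ q ih =>
        rw [Nat.mul_succ, show r * q + r + s = (r * q + s) + r by ring, hg, ih]
    simp_rw [h1]
    push_cast
    ring

theorem x1_sum_zmod (r : ℕ) [NeZero r] {M : Type*} [AddCommMonoid M] (g : ZMod r → M) :
    ∑ s ∈ range r, g (s : ZMod r) = ∑ t : ZMod r, g t := by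
  refine sum_nbij' (fun s => (s : ZMod r)) (fun t => t.val) ?_ ?_ ?_ ?_ ?_
  · intro s _
    exact mem_univ _
  · intro t _
    exact mem_range.2 (ZMod.val_lt t)
  · intro s hs
    exact ZMod.val_cast_of_lt (mem_range.1 hs)
  · intro t _
    exact ZMod.natCast_zmod_val t
  · intro s _
    rfl

theorem x1_cj_norm (p : Ch) (m : ℤ) : ‖cj p m‖ ≤ 1 := by
  unfold cj
  rw [RCLike.norm_conj]
  exact DirichletCharacter.norm_le_one _ _

theorem x1_sum_c (r : ℕ) [NeZero r] (χ : DirichletCharacter ℂ r) (hχ : χ.IsPrimitive) :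
    ∑ t : ZMod r, ‖∑ s : ZMod r, χ s * (starRingEnd ℂ) (χ (s + t))‖ ≤ (r : ℝ) * Real.sqrt r := by
  have h1 := X1a r χ hχ
  have h2 := sq_sum_le_card_mul_sum_sq (s := (univ : Finset (ZMod r)))
    (f := fun t => ‖∑ s : ZMod r, χ s * (starRingEnd ℂ) (χ (s + t))‖)
  rw [card_univ, ZMod.card] at h2
  have hr0 : (0 : ℝ) ≤ r := Nat.cast_nonneg r
  refine (pow_le_pow_iff_left₀ (sum_nonneg fun _ _ => norm_nonneg _) (by positivity) two_ne_zero).1 ?_
  calc _ ≤ (r : ℝ) * ∑ t : ZMod r, ‖∑ s : ZMod r, χ s * (starRingEnd ℂ) (χ (s + t))‖ ^ 2 := h2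
    _ ≤ (r : ℝ) * (r : ℝ) ^ 2 := mul_le_mul_of_nonneg_left h1 hr0
    _ = ((r : ℝ) * Real.sqrt r) ^ 2 := by
      rw [mul_pow, Real.sq_sqrt hr0]
      ring

/-- the factor of the `i`-th coordinate -/
noncomputable def x1F {k : ℕ} (px : Ch) (B : Finset (Fin k)) (r : ℕ) (i : Fin k) (m : ℤ) : ℂ :=
  cj (pB px B i) m * ((uu r.primeFactors m : ℝ) : ℂ)

theorem x1_MR {k : ℕ} (px : Ch) (B : Finset (Fin k)) (r : ℕ) (h : Fin k → ℕ) :
    MR (pB px B) r h = (∑ n ∈ range r, ∏ i, x1F px B r i ((n : ℤ) + h i)) / r := rfl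

theorem x1_sq {k : ℕ} (px : Ch) (B : Finset (Fin k)) (r : ℕ) (h : Fin k → ℕ) :
    ((‖MR (pB px B) r h‖ ^ 2 : ℝ) : ℂ) = (1 / (r : ℂ) ^ 2) * ∑ n ∈ range r, ∑ n' ∈ range r,
      ∏ i, ((starRingEnd ℂ) (x1F px B r i ((n : ℤ) + h i)) * x1F px B r i ((n' : ℤ) + h i)) := by
  rw [Complex.ofReal_pow, ← Complex.conj_mul', x1_MR, map_div₀, map_sum, Complex.conj_natCast,
    div_mul_div_comm, sum_mul_sum, ← sq, one_div, div_eq_inv_mul]
  congr 1
  refine sum_congr rfl fun n _ => sum_congr rfl fun n' _ => ?_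
  rw [map_prod, prod_mul_distrib]

theorem x1_F_le {k : ℕ} (px : Ch) (B : Finset (Fin k)) (r : ℕ) (hr : 0 < r) (i : Fin k) (m : ℤ) :
    ‖x1F px B r i m‖ ≤ (r : ℝ) / (Nat.totient r : ℝ) := by
  unfold x1F
  rw [norm_mul, Complex.norm_real, Real.norm_eq_abs, abs_of_nonneg (M3a_uu r hr m).1]
  calc _ ≤ 1 * ((r : ℝ) / (Nat.totient r : ℝ)) :=
        mul_le_mul (x1_cj_norm _ _) (M3a_uu r hr m).2 (M3a_uu r hr m).1 zero_le_one
    _ = _ := one_mul _

theorem x1_F_B {k : ℕ} (r : ℕ) (hr : 0 < r) (χ : DirichletCharacter ℂ r) (B : Finset (Fin k)) (i : Fin k)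
    (hi : i ∈ B) (m : ℤ) :
    x1F ⟨r, χ⟩ B r i m = (((r : ℝ) / (Nat.totient r : ℝ) : ℝ) : ℂ) * (starRingEnd ℂ) (χ (m : ZMod r)) := by
  unfold x1F pB
  rw [if_pos hi]
  unfold cj
  by_cases hm : IsUnit (m : ZMod r)
  · rw [x1_uu_unit r hr m hm, mul_comm]
  · show (starRingEnd ℂ) (χ (m : ZMod r)) * _ = _
    rw [MulChar.map_nonunit χ hm]
    simp

/-- the correlation of one coordinate -/
noncomputable def x1T {k : ℕ} (px : Ch) (B : Finset (Fin k)) (r L : ℕ) (i : Fin k) (n n' : ℕ) : ℂ :=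
  ∑ s ∈ range L, (starRingEnd ℂ) (x1F px B r i ((n : ℤ) + s)) * x1F px B r i ((n' : ℤ) + s)

theorem x1_T_le {k : ℕ} (px : Ch) (B : Finset (Fin k)) (r : ℕ) (hr : 0 < r) (L : ℕ) (i : Fin k) (n n' : ℕ) :
    ‖x1T px B r L i n n'‖ ≤ (L : ℝ) * ((r : ℝ) / (Nat.totient r : ℝ)) ^ 2 := by
  unfold x1T
  refine (norm_sum_le _ _).trans ?_
  calc _ ≤ ∑ _s ∈ range L, ((r : ℝ) / (Nat.totient r : ℝ)) ^ 2 := by
        refine sum_le_sum fun s _ => ?_
        rw [norm_mul, RCLike.norm_conj, sq]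
        exact mul_le_mul (x1_F_le px B r hr i _) (x1_F_le px B r hr i _) (norm_nonneg _) (by positivity)
    _ = _ := by rw [sum_const, card_range, nsmul_eq_mul]

theorem x1_T_B {k : ℕ} (r : ℕ) [NeZero r] (hr : 0 < r) (χ : DirichletCharacter ℂ r) (B : Finset (Fin k)) (q : ℕ)
    (i : Fin k) (hi : i ∈ B) (n n' : ℕ) :
    ‖x1T ⟨r, χ⟩ B r (r * q) i n n'‖ = (q : ℝ) * ((r : ℝ) / (Nat.totient r : ℝ)) ^ 2 *
      ‖∑ s : ZMod r, χ s * (starRingEnd ℂ) (χ (s + ((n' : ZMod r) - (n : ZMod r))))‖ := by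
  have h1 : x1T ⟨r, χ⟩ B r (r * q) i n n' = ((((r : ℝ) / (Nat.totient r : ℝ)) ^ 2 : ℝ) : ℂ) *
      ∑ s ∈ range (r * q), χ ((n : ZMod r) + s) * (starRingEnd ℂ) (χ ((n' : ZMod r) + s)) := by
    unfold x1T
    rw [mul_sum]
    refine sum_congr rfl fun s _ => ?_
    rw [x1_F_B r hr χ B i hi, x1_F_B r hr χ B i hi]
    push_cast
    simp only [map_mul, map_div₀, Complex.conj_natCast, Complex.conj_conj]
    ring
  have h2 : ∑ s ∈ range (r * q), χ ((n : ZMod r) + s) * (starRingEnd ℂ) (χ ((n' : ZMod r) + s)) =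
      q * ∑ s : ZMod r, χ s * (starRingEnd ℂ) (χ (s + ((n' : ZMod r) - (n : ZMod r)))) := by
    rw [x1_sum_mul r q (fun s => χ ((n : ZMod r) + s) * (starRingEnd ℂ) (χ ((n' : ZMod r) + s)))]
    · congr 1
      rw [x1_sum_zmod r fun s : ZMod r => χ ((n : ZMod r) + s) * (starRingEnd ℂ) (χ ((n' : ZMod r) + s))]
      refine Fintype.sum_equiv (Equiv.addLeft (n : ZMod r)) _ _ fun s => ?_
      simp only [Equiv.coe_addLeft]
      congr 3
      ring
    · intro s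
      push_cast
      rw [ZMod.natCast_self, add_zero]
  rw [h1, h2, norm_mul, norm_mul, Complex.norm_real, Real.norm_eq_abs, abs_of_nonneg (sq_nonneg _),
    Complex.norm_natCast]
  ring

theorem x1_double (r : ℕ) [NeZero r] (f : ZMod r → ℝ) :
    ∑ n ∈ range r, ∑ n' ∈ range r, f ((n' : ZMod r) - (n : ZMod r)) = (r : ℝ) * ∑ t : ZMod r, f t := by
  have h1 : ∀ n : ℕ, ∑ n' ∈ range r, f ((n' : ZMod r) - (n : ZMod r)) = ∑ t : ZMod r, f t := by
    intro n
    rw [x1_sum_zmod r fun t : ZMod r => f (t - (n : ZMod r))]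
    exact Fintype.sum_equiv (Equiv.subRight (n : ZMod r)) _ _ fun t => rfl
  simp_rw [h1]
  rw [sum_const, card_range, nsmul_eq_mul]

theorem x1_main {k : ℕ} (X r : ℕ) (hr : 0 < r) (hrX : r ≤ X) (χ : DirichletCharacter ℂ r)
    (hprim : χ.IsPrimitive) (B : Finset (Fin k)) (hB : B.Nonempty) :
    ∑ h ∈ bx k X, ‖MR (pB ⟨r, χ⟩ B) r h‖ ^ 2 ≤
      (2 * (X : ℝ)) ^ k * ((r : ℝ) / (Nat.totient r : ℝ)) ^ (2 * k) * (r : ℝ) ^ (-(1 / 2) : ℝ) := by
  have : NeZero r := ⟨hr.ne'⟩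
  obtain ⟨i0, hi0⟩ := hB
  set Φ : ℝ := (r : ℝ) / (Nat.totient r : ℝ) with hΦ
  have hr0 : (0 : ℝ) < r := by exact_mod_cast hr
  have hΦ0 : 0 ≤ Φ := by positivity
  set q := (X + r - 1) / r with hq
  have hq1 : X ≤ r * q := by
    have h1 := Nat.div_add_mod (X + r - 1) r
    have h2 := Nat.mod_lt (X + r - 1) hr
    rw [← hq] at h1
    omega
  have hq2 : r * q ≤ 2 * X := by
    have h1 := Nat.mul_div_le (X + r - 1) r
    rw [← hq] at h1
    omega
  set L := r * q with hL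
  have hsub : bx k X ⊆ bx k L := by
    intro h hh
    unfold bx at hh ⊢
    rw [Fintype.mem_piFinset] at hh ⊢
    intro i
    have := mem_range.1 (hh i)
    exact mem_range.2 (by omega)
  have h1 : ∑ h ∈ bx k X, ‖MR (pB ⟨r, χ⟩ B) r h‖ ^ 2 ≤ ∑ h ∈ bx k L, ‖MR (pB ⟨r, χ⟩ B) r h‖ ^ 2 :=
    sum_le_sum_of_subset_of_nonneg hsub fun h _ _ => sq_nonneg _
  have h2 : ((∑ h ∈ bx k L, ‖MR (pB ⟨r, χ⟩ B) r h‖ ^ 2 : ℝ) : ℂ) =
      (1 / (r : ℂ) ^ 2) * ∑ n ∈ range r, ∑ n' ∈ range r, ∏ i, x1T ⟨r, χ⟩ B r L i n n' := by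
    rw [Complex.ofReal_sum]
    simp_rw [x1_sq]
    rw [← mul_sum, sum_comm]
    congr 1
    refine sum_congr rfl fun n _ => ?_
    rw [sum_comm]
    refine sum_congr rfl fun n' _ => ?_
    unfold bx x1T
    rw [prod_univ_sum]
  have h3 : ∀ n n' : ℕ, ‖∏ i, x1T ⟨r, χ⟩ B r L i n n'‖ ≤ ((L : ℝ) * Φ ^ 2) ^ (k - 1) * ((q : ℝ) * Φ ^ 2 *
      ‖∑ s : ZMod r, χ s * (starRingEnd ℂ) (χ (s + ((n' : ZMod r) - (n : ZMod r))))‖) := by
    intro n n'
    rw [norm_prod, ← mul_prod_erase univ _ (mem_univ i0), mul_comm]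
    apply mul_le_mul _ (x1_T_B r hr χ B q i0 hi0 n n').le (norm_nonneg _) (by positivity)
    refine (prod_le_prod (fun i _ => norm_nonneg _) fun i _ => x1_T_le ⟨r, χ⟩ B r hr L i n n').trans ?_
    rw [prod_const, card_erase_of_mem (mem_univ i0), card_univ, Fintype.card_fin]
  have h4 : ∑ h ∈ bx k L, ‖MR (pB ⟨r, χ⟩ B) r h‖ ^ 2 ≤ (1 / (r : ℝ) ^ 2) *
      (((L : ℝ) * Φ ^ 2) ^ (k - 1) * ((q : ℝ) * Φ ^ 2) * ((r : ℝ) * ((r : ℝ) * Real.sqrt r))) := by
    have h5 : ∑ h ∈ bx k L, ‖MR (pB ⟨r, χ⟩ B) r h‖ ^ 2 =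
        ‖((∑ h ∈ bx k L, ‖MR (pB ⟨r, χ⟩ B) r h‖ ^ 2 : ℝ) : ℂ)‖ := by
      rw [Complex.norm_real, Real.norm_eq_abs, abs_of_nonneg (sum_nonneg fun _ _ => sq_nonneg _)]
    rw [h5, h2, norm_mul, norm_div, norm_one, norm_pow, Complex.norm_natCast]
    refine mul_le_mul_of_nonneg_left ?_ (by positivity)
    refine (norm_sum_le _ _).trans ?_
    calc _ ≤ ∑ n ∈ range r, ∑ n' ∈ range r, ((L : ℝ) * Φ ^ 2) ^ (k - 1) * ((q : ℝ) * Φ ^ 2 *
          ‖∑ s : ZMod r, χ s * (starRingEnd ℂ) (χ (s + ((n' : ZMod r) - (n : ZMod r))))‖) :=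
          sum_le_sum fun n _ => (norm_sum_le _ _).trans (sum_le_sum fun n' _ => h3 n n')
      _ = ((L : ℝ) * Φ ^ 2) ^ (k - 1) * ((q : ℝ) * Φ ^ 2) *
          ∑ n ∈ range r, ∑ n' ∈ range r,
            ‖∑ s : ZMod r, χ s * (starRingEnd ℂ) (χ (s + ((n' : ZMod r) - (n : ZMod r))))‖ := by
          rw [mul_sum]
          refine sum_congr rfl fun n _ => ?_
          rw [mul_sum]
          refine sum_congr rfl fun n' _ => ?_
          ring
      _ = ((L : ℝ) * Φ ^ 2) ^ (k - 1) * ((q : ℝ) * Φ ^ 2) * ((r : ℝ) *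
            ∑ t : ZMod r, ‖∑ s : ZMod r, χ s * (starRingEnd ℂ) (χ (s + t))‖) := by
          rw [x1_double r fun t => ‖∑ s : ZMod r, χ s * (starRingEnd ℂ) (χ (s + t))‖]
      _ ≤ _ := by
          refine mul_le_mul_of_nonneg_left ?_ (by positivity)
          exact mul_le_mul_of_nonneg_left (x1_sum_c r χ hprim) hr0.le
  have hk : 1 ≤ k := Nat.one_le_of_lt i0.2
  obtain ⟨k', rfl⟩ : ∃ k', k = k' + 1 := ⟨k - 1, by omega⟩
  rw [Nat.add_sub_cancel] at h4
  have hs : (r : ℝ) ^ (-(1 / 2) : ℝ) = (Real.sqrt r)⁻¹ := by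
    rw [Real.rpow_neg hr0.le, Real.sqrt_eq_rpow]
  have hs0 : 0 < Real.sqrt r := Real.sqrt_pos.2 hr0
  have hss : Real.sqrt r * Real.sqrt r = r := Real.mul_self_sqrt hr0.le
  have hLq : (L : ℝ) = r * q := by rw [hL]; push_cast; ring
  have hL2 : (L : ℝ) ≤ 2 * X := by exact_mod_cast hq2
  refine (h1.trans h4).trans ?_
  have h6 : (1 / (r : ℝ) ^ 2) * (((L : ℝ) * Φ ^ 2) ^ k' * ((q : ℝ) * Φ ^ 2) * ((r : ℝ) * ((r : ℝ) * Real.sqrt r)))
      = (L : ℝ) ^ (k' + 1) * Φ ^ (2 * (k' + 1)) * (Real.sqrt r)⁻¹ := by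
    have e1 : (Real.sqrt r)⁻¹ = Real.sqrt r / r := by
      rw [eq_div_iff hr0.ne', inv_mul_eq_div, div_eq_iff hs0.ne', hss]
    rw [e1, mul_pow, pow_succ (L : ℝ) k', ← pow_mul]
    have e2 : Φ ^ (2 * (k' + 1)) = Φ ^ (2 * k') * Φ ^ 2 := by ring
    rw [e2, hLq]
    field_simp
  rw [h6, hs]
  gcongr

/-- **X1.** Proof. The range of each `h_i` is covered by `⌈X/r⌉ ≤ 2X/r` complete periods, and the summand is
nonnegative and periodic modulo `r` in each `h_i`: the sum is at most `(2X/r)^k` times the sum over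
`[0, r)^k`. There, squaring out, it is `(1/r²) ∑_{n,n'} ∏_i (∑_{s mod r} …)`: for `i ∉ B` the factor is
`∑_s uu(n+s) uu(n'+s) ≤ r (r/φ)²`, for `i ∈ B` (`uu = r/φ(r)` where `ψ ≠ 0`) it is `(r/φ)² ∑_s χ(n+s) conj χ(n'+s)`, of
absolute value `(r/φ)² |c(n'-n)| ≤ r (r/φ)²`. Choose one `i0 ∈ B` and bound the others: at most
`r^(k-1) (r/φ)^(2k) (1/r²) ∑_{n,n'} |c(n'-n)| = r^(k-1) (r/φ)^(2k) (1/r) ∑_t |c(t)| ≤ r^(k-1) (r/φ)^(2k) (1/r) (r · r²)^(1/2)`
by Cauchy-Schwarz and `X1a`, i.e. `r^k (r/φ)^(2k) r^(-1/2)`. -/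
theorem X1 {k : ℕ} (X r : ℕ) (hr : 0 < r) (hrX : r ≤ X) (px : Ch) (hpx : px.1 = r)
    (hprim : px.2.IsPrimitive) (B : Finset (Fin k)) (hB : B.Nonempty) :
    ∑ h ∈ bx k X, ‖MR (pB px B) r h‖ ^ 2 ≤
      (2 * (X : ℝ)) ^ k * ((r : ℝ) / (Nat.totient r : ℝ)) ^ (2 * k) * (r : ℝ) ^ (-(1 / 2) : ℝ) := by
  obtain ⟨r', χ⟩ := px
  simp only at hpx
  subst hpx
  exact x1_main X r' hr hrX χ hprim B hB

end Pool.Agent.Lib.H59P
end

-- from Lib.H59T.FDefs
section

/-!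
# Project H59T, second part: mean squares of components over pairs (definitions)

`(y, y')` is random, one sums over `z`. The mean square is a sum over pairs `(κ, κ')` of complete sums in the four
variables `y, y', z, z'`, which factor over the primes.
-/

open Finset

namespace Pool.Agent.Lib.H59T

open Pool.Agent.Lib.H68T Pool.Agent.Lib.H18Q Pool.Agent.Lib.H59P

noncomputable section

/-- The sum over a complete period in four variables. -/
def S4 (N : ℕ) (F : ℤ → ℤ → ℤ → ℤ → ℂ) : ℂ :=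
  ∑ y ∈ range N, ∑ y' ∈ range N, ∑ z ∈ range N, ∑ z' ∈ range N, F y y' z z'

/-- Periodic in each of the four variables. -/
structure Per4 (N : ℕ) (F : ℤ → ℤ → ℤ → ℤ → ℂ) : Prop where
  h1 : ∀ y y' z z' : ℤ, F (y + N) y' z z' = F y y' z z'
  h2 : ∀ y y' z z' : ℤ, F y (y' + N) z z' = F y y' z z'
  h3 : ∀ y y' z z' : ℤ, F y y' (z + N) z' = F y y' z z'
  h4 : ∀ y y' z z' : ℤ, F y y' z (z' + N) = F y y' z z'

/-- Integer functions of `(y, y', z)`. -/
abbrev Fm (k : ℕ) := Fin k → ℤ → ℤ → ℤ → ℤ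

/-- Congruence preserving in each variable. -/
def CpF {k : ℕ} (ψ : Fm k) : Prop := ∀ (i : Fin k) (q y y' z : ℤ),
  q ∣ ψ i (y + q) y' z - ψ i y y' z ∧ q ∣ ψ i y (y' + q) z - ψ i y y' z ∧
    q ∣ ψ i y y' (z + q) - ψ i y y' z

/-- The four forms `y + z, y - z, y' + z, y' - z`. -/
def ff : Fm 4 := ![fun y _ z => y + z, fun y _ z => y - z, fun _ y' z => y' + z, fun _ y' z => y' - z]


/-- The doubled product `∏ g_i(ψ_i(y,y',z)) conj g'_i(ψ_i(y,y',z'))`. -/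
def Db {k : ℕ} (ψ : Fm k) (g g' : Fin k → ℤ → ℂ) (y y' z z' : ℤ) : ℂ :=
  ∏ i, (g i (ψ i y y' z) * (starRingEnd ℂ) (g' i (ψ i y y' z')))

/-- `F l` is the primitive character modulo the exact power of `l` in `p.1`, for the primes `l ∣ p.1`, and `p` is
their product. -/
def LCh (p : Ch) (F : ℕ → Ch) : Prop :=
  (∀ l ∈ p.1.primeFactors, (F l).1 = l ^ p.1.factorization l ∧ (F l).2.IsPrimitive) ∧
    ∀ n : ℤ, p.2 (n : ZMod p.1) = ∏ l ∈ p.1.primeFactors, (F l).2 (n : ZMod (F l).1)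

/-- The local components of a character. -/
def lch (p : Ch) : ℕ → Ch := open Classical in if h : ∃ F : ℕ → Ch, LCh p F then h.choose else fun _ => p0

/-- The local factor at the prime `l` of the component `gk p κ`. -/
def lf (p : Ch) (κ l : ℕ) (m : ℤ) : ℂ :=
  if l ∣ p.1 then (((l : ℝ) / ((l : ℝ) - 1) : ℝ) : ℂ) * cj (lch p l) m
  else if l ∣ κ then ((gl l m : ℝ) : ℂ) else 1

/-- The least common multiple of the conductors. -/
def Rm {k : ℕ} (p : Fin k → Ch) : ℕ := univ.lcm fun i => (p i).1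

/-- Positive conductors, primitive characters. -/
def Pm {k : ℕ} (p : Fin k → Ch) : Prop := ∀ i, 0 < (p i).1 ∧ (p i).2.IsPrimitive

/-- Squarefree, coprime to the conductors. -/
def Kp {k : ℕ} (p : Fin k → Ch) (κ : Fin k → ℕ) : Prop :=
  ∀ i, Squarefree (κ i) ∧ Nat.Coprime (κ i) (p i).1

/-- The local bounds: gain `(l^b)^(-c)` at the primes `l` dividing the conductors (`l^b` exactly divides their least
common multiple) and `l^(-2)` at the other primes which divide some modulus, up to constants `2^A`. -/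
def LocB {k : ℕ} (ψ : Fm k) (A : ℕ) (c : ℝ) : Prop :=
  ∀ p : Fin k → Ch, Pm p → ∀ κ κ' : Fin k → ℕ, Kp p κ → Kp p κ' → ∀ l : ℕ, l.Prime →
    (l ∣ Rm p → ‖S4 (l ^ (Rm p).factorization l)
        (Db ψ (fun i => lf (p i) (κ i) l) (fun i => lf (p i) (κ' i) l))‖ ≤
      ((l ^ (Rm p).factorization l : ℕ) : ℝ) ^ 4 *
        (2 ^ A * ((l ^ (Rm p).factorization l : ℕ) : ℝ) ^ (-c))) ∧
    (¬ l ∣ Rm p → (∃ i, l ∣ κ i ∨ l ∣ κ' i) →
      ‖S4 l (Db ψ (fun i => lf (p i) (κ i) l) (fun i => lf (p i) (κ' i) l))‖ ≤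
        (l : ℝ) ^ 4 * (2 ^ A / (l : ℝ) ^ 2))

open Classical in
/-- The product of the primes dividing some `κ_i` or `κ'_i` but not `R`. -/
def dof {k : ℕ} (R : ℕ) (κ κ' : Fin k → ℕ) : ℕ :=
  ∏ l ∈ (univ.biUnion fun i => (κ i).primeFactors ∪ (κ' i).primeFactors).filter (fun l => ¬ l ∣ R), l

/-- The number of divisors. -/
def tau (n : ℕ) : ℝ := (n.divisors.card : ℝ)

/-- `gl l` as a function on `ZMod l`. -/
def glz (l : ℕ) (t : ZMod l) : ℝ := if t = 0 then -1 else 1 / ((l : ℝ) - 1)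

end

end Pool.Agent.Lib.H59T
end

-- from Lib.H59T.C3
section

/-!
# Project H59T, chunk C3 (S): complete sums over `ZMod N`
-/

open Finset

namespace Pool.Agent.Lib.H59T

open Pool.Agent.Lib.H68T Pool.Agent.Lib.H18Q Pool.Agent.Lib.H59P

theorem C3_nest (N : ℕ) [NeZero N] (G : ZMod N → ZMod N → ZMod N → ZMod N → ℂ) :
    S4 N (fun y y' z z' => G y y' z z') = ∑ y, ∑ y', ∑ z, ∑ z', G y y' z z' := by
  unfold S4
  simp only [Int.cast_natCast]
  rw [← CA_range N (fun y => ∑ y', ∑ z, ∑ z', G y y' z z')]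
  refine Finset.sum_congr rfl fun y _ => ?_
  rw [← CA_range N (fun y' => ∑ z, ∑ z', G y y' z z')]
  refine Finset.sum_congr rfl fun y' _ => ?_
  rw [← CA_range N (fun z => ∑ z', G y y' z z')]
  refine Finset.sum_congr rfl fun z _ => ?_
  rw [← CA_range N (fun z' => G y y' z z')]

theorem C3_fin (N : ℕ) [NeZero N] (G : ZMod N → ZMod N → ZMod N → ZMod N → ℂ) :
    S4 N (fun y y' z z' => G y y' z z') = ∑ x : Fin 4 → ZMod N, G (x 0) (x 1) (x 2) (x 3) := by
  rw [C3_nest]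
  let e : (Fin 4 → ZMod N) ≃ ZMod N × ZMod N × ZMod N × ZMod N :=
    { toFun := fun x => (x 0, x 1, x 2, x 3)
      invFun := fun t => ![t.1, t.2.1, t.2.2.1, t.2.2.2]
      left_inv := fun x => by funext i; fin_cases i <;> rfl
      right_inv := fun t => rfl }
  have h1 : ∑ x : Fin 4 → ZMod N, G (x 0) (x 1) (x 2) (x 3) =
      ∑ t : ZMod N × ZMod N × ZMod N × ZMod N, G t.1 t.2.1 t.2.2.1 t.2.2.2 :=
    Fintype.sum_equiv e _ _ fun x => rfl
  rw [h1, Fintype.sum_prod_type]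
  refine Finset.sum_congr rfl fun y _ => ?_
  rw [Fintype.sum_prod_type]
  refine Finset.sum_congr rfl fun y' _ => ?_
  rw [Fintype.sum_prod_type]

theorem C3_fun (N : ℕ) [NeZero N] (f : ℤ → ℂ) (hf : ∀ m, f (m + N) = f m) :
    ∃ G : ZMod N → ℂ, ∀ m : ℤ, f m = G (m : ZMod N) := by
  refine ⟨fun t => f (t.val : ℤ), fun m => ?_⟩
  have h1 : ∀ (k : ℕ) (m : ℤ), f (m + (k : ℤ) * N) = f m := by
    intro k
    induction k with
    | zero => intro m; simp
    | succ k ih =>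
      intro m
      have : m + ((k + 1 : ℕ) : ℤ) * N = (m + (k : ℤ) * N) + N := by push_cast; ring
      rw [this, hf, ih]
  have h2 : ∀ (k m : ℤ), f (m + k * N) = f m := by
    intro k m
    obtain ⟨n, rfl | rfl⟩ := k.eq_nat_or_neg
    · exact h1 n m
    · have := h1 n (m + (-(n : ℤ)) * N)
      rw [← this]
      congr 1
      ring
  show f m = f (((m : ZMod N).val : ℕ) : ℤ)
  rw [ZMod.val_intCast]
  have h3 : m = m % (N : ℤ) + (m / (N : ℤ)) * N := by
    have := Int.emod_add_mul_ediv m N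
    linarith
  conv_lhs => rw [h3]
  exact h2 _ _

theorem C3_gl (l : ℕ) (m : ℤ) : gl l m = glz l (m : ZMod l) := by
  unfold gl glz
  simp only [ZMod.intCast_zmod_eq_zero_iff_dvd]

theorem C3_triv (N : ℕ) (F : ℤ → ℤ → ℤ → ℤ → ℂ) (B : ℝ) (hB : ∀ y y' z z', ‖F y y' z z'‖ ≤ B) :
    ‖S4 N F‖ ≤ (N : ℝ) ^ 4 * B := by
  have key : ∀ (g : ℕ → ℂ) (C : ℝ), (∀ j, ‖g j‖ ≤ C) → ‖∑ j ∈ range N, g j‖ ≤ N * C := by
    intro g C hg
    calc ‖∑ j ∈ range N, g j‖ ≤ ∑ j ∈ range N, ‖g j‖ := norm_sum_le _ _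
      _ ≤ ∑ _j ∈ range N, C := Finset.sum_le_sum fun j _ => hg j
      _ = N * C := by rw [Finset.sum_const, card_range, nsmul_eq_mul]
  unfold S4
  calc _ ≤ (N : ℝ) * (N * (N * (N * B))) :=
        key _ _ fun y => key _ _ fun y' => key _ _ fun z => key _ _ fun z' => hB _ _ _ _
    _ = (N : ℝ) ^ 4 * B := by ring

end Pool.Agent.Lib.H59T
end

-- from Lib.H59T.LKDefs
section

/-!
# Project H59T, module LK: the difference of the projections at two levels is negligible (definitions)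
-/

open Finset

namespace Pool.Agent.Lib.H59T

open Pool.Agent.Lib.H68T Pool.Agent.Lib.H18Q Pool.Agent.Lib.H59P

noncomputable section

/-- The forms `2z + e_0`, `2z + y + e_1`, `2z + y' + e_2`, `2z + y + y' + e_3`. -/
def uf (e : Fin 4 → ℤ) : Fm 4 := ![fun _ _ z => 2 * z + e 0, fun y _ z => 2 * z + y + e 1,
  fun _ y' z => 2 * z + y' + e 2, fun y y' z => 2 * z + y + y' + e 3]

/-- The eighth power of the `U³` norm of `f`, times `N⁴`. -/
def UU {N : ℕ} [NeZero N] (f : ZMod N → ℂ) : ℝ :=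
  ∑ A : ZMod N, ∑ B : ZMod N, ‖∑ s : ZMod N, f s * star (f (s + A)) * star (f (s + B)) * f (s + A + B)‖ ^ 2

/-- The part of the components of `p` with moduli between `Q'` and `Q`. -/
def Vl (Q Q' : ℕ) (p : Ch) (m : ℤ) : ℂ := ∑ κ ∈ (KS Q p.1).filter (fun κ => Q' < p.1 * κ), gk p κ m

/-- `F(m+h+k) conj F(m+h'+k) conj F(m+h+k') F(m+h'+k')` -/
def P4 (F : ℤ → ℂ) (h h' k k' m : ℤ) : ℂ :=
  F (m + h + k) * (starRingEnd ℂ) (F (m + h' + k)) * (starRingEnd ℂ) (F (m + h + k')) * F (m + h' + k')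

end

end Pool.Agent.Lib.H59T
end
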