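import Pool.Agent.Lib.H1M.RV2.M007
import Pool.Agent.Lib.H1M.RV2.M014
import Pool.Agent.Lib.H1M.RV2.M067
import Pool.Agent.Lib.H1M.RV2.M073

/-! Merged copies (to shorten the build) of Lib.H59P.Z2A, Lib.H59P.Z2, Lib.H24P.E1, Lib.H24P.W1, Lib.H24P.T1, Lib.H24P.T5, Lib.H24Q.A1. -/

-- from Lib.H59P.Z2A
section

/-!
# Project H59P, chunk Z2a
-/

open Finset

namespace Pool.Agent.Lib.H59P

open Pool.Agent.Lib.H68T Pool.Agent.Lib.H18Q

/-- Triangle inequality in `ℓ²`: a combination of functions with mean square at most `W²` and coefficients of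
total size at most `c`. Proof. Minkowski, or Cauchy-Schwarz: `‖∑_p γ_p f_p(h)‖² ≤ (∑ |γ_p|) ∑_p |γ_p| ‖f_p(h)‖²`. -/
theorem Z2a {α β : Type*} (S : Finset α) (P : Finset β) (γ : β → ℂ) (f : β → α → ℂ) (c W : ℝ)
    (hW : 0 ≤ W) (hγ : ∑ p ∈ P, ‖γ p‖ ≤ c) (hf : ∀ p ∈ P, ∑ h ∈ S, ‖f p h‖ ^ 2 ≤ W) :
    ∑ h ∈ S, ‖∑ p ∈ P, γ p * f p h‖ ^ 2 ≤ c ^ 2 * W := by
  have h0 : 0 ≤ ∑ p ∈ P, ‖γ p‖ := Finset.sum_nonneg fun p _ => norm_nonneg _
  have hc : 0 ≤ c := h0.trans hγ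
  have h1 : ∀ h ∈ S, ‖∑ p ∈ P, γ p * f p h‖ ^ 2 ≤ c * ∑ p ∈ P, ‖γ p‖ * ‖f p h‖ ^ 2 := by
    intro h _
    have e1 : ‖∑ p ∈ P, γ p * f p h‖ ≤ ∑ p ∈ P, ‖γ p‖ * ‖f p h‖ := by
      refine (norm_sum_le _ _).trans (le_of_eq ?_)
      exact Finset.sum_congr rfl fun p _ => norm_mul _ _
    have e2 : (∑ p ∈ P, ‖γ p‖ * ‖f p h‖) ^ 2 ≤
        (∑ p ∈ P, ‖γ p‖) * ∑ p ∈ P, ‖γ p‖ * ‖f p h‖ ^ 2 := by
      have h2 := Finset.sum_mul_sq_le_sq_mul_sq P (fun p => Real.sqrt ‖γ p‖)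
        (fun p => Real.sqrt ‖γ p‖ * ‖f p h‖)
      have h3 : ∀ p ∈ P, Real.sqrt ‖γ p‖ * (Real.sqrt ‖γ p‖ * ‖f p h‖) = ‖γ p‖ * ‖f p h‖ := by
        intro p _
        rw [← mul_assoc, Real.mul_self_sqrt (norm_nonneg _)]
      have h4 : ∀ p ∈ P, Real.sqrt ‖γ p‖ ^ 2 = ‖γ p‖ := fun p _ => Real.sq_sqrt (norm_nonneg _)
      have h5 : ∀ p ∈ P, (Real.sqrt ‖γ p‖ * ‖f p h‖) ^ 2 = ‖γ p‖ * ‖f p h‖ ^ 2 := by
        intro p hp
        rw [mul_pow, h4 p hp]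
      rw [Finset.sum_congr rfl h3, Finset.sum_congr rfl h4, Finset.sum_congr rfl h5] at h2
      exact h2
    have e3 : 0 ≤ ∑ p ∈ P, ‖γ p‖ * ‖f p h‖ ^ 2 :=
      Finset.sum_nonneg fun p _ => mul_nonneg (norm_nonneg _) (sq_nonneg _)
    calc ‖∑ p ∈ P, γ p * f p h‖ ^ 2 ≤ (∑ p ∈ P, ‖γ p‖ * ‖f p h‖) ^ 2 :=
          pow_le_pow_left₀ (norm_nonneg _) e1 2
      _ ≤ (∑ p ∈ P, ‖γ p‖) * ∑ p ∈ P, ‖γ p‖ * ‖f p h‖ ^ 2 := e2
      _ ≤ c * ∑ p ∈ P, ‖γ p‖ * ‖f p h‖ ^ 2 := mul_le_mul_of_nonneg_right hγ e3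
  refine (Finset.sum_le_sum h1).trans ?_
  rw [← Finset.mul_sum, Finset.sum_comm]
  have h6 : ∑ p ∈ P, ∑ h ∈ S, ‖γ p‖ * ‖f p h‖ ^ 2 ≤ ∑ p ∈ P, ‖γ p‖ * W := by
    refine Finset.sum_le_sum fun p hp => ?_
    rw [← Finset.mul_sum]
    exact mul_le_mul_of_nonneg_left (hf p hp) (norm_nonneg _)
  rw [← Finset.sum_mul] at h6
  calc c * ∑ p ∈ P, ∑ h ∈ S, ‖γ p‖ * ‖f p h‖ ^ 2 ≤ c * ((∑ p ∈ P, ‖γ p‖) * W) :=
        mul_le_mul_of_nonneg_left h6 hc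
    _ ≤ c * (c * W) := mul_le_mul_of_nonneg_left (mul_le_mul_of_nonneg_right hγ hW) hc
    _ = c ^ 2 * W := by ring

end Pool.Agent.Lib.H59P
end

-- from Lib.H59P.Z2
section

/-!
# Project H59P, chunk Z2
-/

open Finset

namespace Pool.Agent.Lib.H59P

open Pool.Agent.Lib.H68T Pool.Agent.Lib.H18Q


/-- sums over a long interval split into cells -/
theorem z2_cells {M : Type*} [AddCommMonoid M] (A H N : ℕ) (f : ℕ → M) :
    ∑ n ∈ Ico A (A + N * H), f n = ∑ j ∈ range N, ∑ n ∈ Ico (A + j * H) (A + j * H + H), f n := by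
  induction N with
  | zero => simp
  | succ N ih =>
    rw [Finset.sum_range_succ, ← ih]
    have h1 : A + (N + 1) * H = A + N * H + H := by ring
    rw [h1]
    exact (Finset.sum_Ico_consecutive f (by omega) (by omega)).symm

theorem z2_bs {H : ℕ} (hH : 0 < H) (c m : ℕ) (h1 : c * H ≤ m) (h2 : m < c * H + H) : bs H m = c * H := by
  unfold bs
  have h3 : m / H = c := by
    rw [Nat.div_eq_iff hH]
    constructor
    · exact h1
    · omega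
  rw [h3]

theorem z2_cs (N : ℕ) (z : ℕ → ℂ) : ‖∑ j ∈ range N, z j‖ ^ 2 ≤ N * ∑ j ∈ range N, ‖z j‖ ^ 2 := by
  have h1 : ‖∑ j ∈ range N, z j‖ ≤ ∑ j ∈ range N, ‖z j‖ := norm_sum_le _ _
  have h2 := sq_sum_le_card_mul_sum_sq (s := range N) (f := fun j => ‖z j‖)
  rw [card_range] at h2
  exact (pow_le_pow_left₀ (norm_nonneg _) h1 2).trans h2


end Pool.Agent.Lib.H59P
end

-- from Lib.H24P.E1
section

/-!
# Project H24P, chunk E1 (M): cells
-/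

open Finset Polynomial

namespace Pool.Agent.Lib.H24P

open Pool.Agent.Lib.H68T Pool.Agent.Lib.H18Q Pool.Agent.Lib.H59P



/-- The base points. Proof. `bs s x = x / s * s`; `z2_bs`. `Hc = Hf N'`. -/
theorem E1_bs {s m t x : ℕ} (hs : 0 < s) (hm : s ∣ m) (hx : x ∈ Ico (m + t * s) (m + t * s + s)) :
    bs s x = m + t * s := by
  obtain ⟨c, rfl⟩ := hm
  have h1 := mem_Ico.mp hx
  have h2 : s * c + t * s = (c + t) * s := by ring
  rw [h2] at h1 ⊢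
  exact z2_bs hs (c + t) x h1.1 h1.2

/-- The base point for long cells is constant on short cells. Proof. `X1 = Hc N = Hf N' N`; both `n` and the left
end of the short cell are in the same interval `[c Hc, (c+1) Hc)`. -/
theorem E1_fine {X1 Hc Hf N' j n : ℕ} (hf : 0 < Hf) (hN : 0 < N') (hc : Hc = Hf * N') (hX : Hc ∣ X1)
    (hn : n ∈ Ico (X1 + j * Hf) (X1 + j * Hf + Hf)) : bs Hc n = bs Hc (X1 + j * Hf) := by
  have h1 := mem_Ico.mp hn
  obtain ⟨c, rfl⟩ := hX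
  have h2 : Hc * c + j * Hf = (N' * c + j) * Hf := by rw [hc]; ring
  rw [h2] at h1 ⊢
  have h3 : n / Hf = N' * c + j := by
    rw [Nat.div_eq_iff hf]
    constructor
    · exact h1.1
    · omega
  unfold bs
  have h4 : n / Hc = (N' * c + j) * Hf / Hc := by
    rw [hc, ← Nat.div_div_eq_div_mul, ← Nat.div_div_eq_div_mul, h3, Nat.mul_div_cancel _ hf]
  rw [h4]

end Pool.Agent.Lib.H24P
end

-- from Lib.H24P.W1
section

/-!
# Project H24P, chunk W1 (M): Fourier uniform weights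
-/

open Finset Polynomial

namespace Pool.Agent.Lib.H24P

open Pool.Agent.Lib.H68T Pool.Agent.Lib.H18Q Pool.Agent.Lib.H59P

theorem w1_mul (f : ℤ → ℂ) (q : ℕ) (hf : ∀ m, f (m + q) = f m) (m k : ℤ) :
    f (m + k * q) = f m := by
  induction k using Int.induction_on with
  | zero => simp
  | succ i ih =>
    rw [show m + ((i : ℤ) + 1) * q = m + i * q + q by ring, hf, ih]
  | pred i ih =>
    have := hf (m + (-(i : ℤ) - 1) * q)
    rw [← this, show m + (-(i : ℤ) - 1) * q + q = m + -(i : ℤ) * q by ring, ih]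

/-- A weight without correlation with additive characters against a periodic function. Proof. With
`S_c = ∑_n f(n) e(n c/N)`: `∑_{n ≡ m} f(n) = (1/N) ∑_{c<N} e(-c m/N) S_c`, so the sum is
`∑_{m<N} ψ(m) (1/N) ∑_c e(-c m/N) S_c`, at most `N Φ δ`. -/
theorem W1_per (f : ℕ → ℂ) (I : Finset ℕ) (δ : ℝ)
    (hf : ∀ θ : ℝ, ‖∑ n ∈ I, f n * e ((n : ℝ) * θ)‖ ≤ δ) (N : ℕ) (hN : 0 < N) (ψ : ℤ → ℂ)
    (hψ : ∀ n, ψ (n + N) = ψ n) (Φ : ℝ) (hΦ : ∀ n, ‖ψ n‖ ≤ Φ) :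
    ‖∑ n ∈ I, f n * ψ n‖ ≤ N * Φ * δ := by
  have hδ : 0 ≤ δ := (norm_nonneg _).trans (hf 0)
  have hΦ0 : 0 ≤ Φ := (norm_nonneg _).trans (hΦ 0)
  have hNr : (0 : ℝ) < N := by exact_mod_cast hN
  have hNc : (N : ℂ) ≠ 0 := by exact_mod_cast hN.ne'
  have h1 : ∀ n : ℕ, ψ (n : ℤ) = ∑ m ∈ range N, if (N : ℤ) ∣ (n : ℤ) - m then ψ (m : ℤ) else 0 := by
    intro n
    have h2 : ψ (n : ℤ) = ψ ((n % N : ℕ) : ℤ) := by
      have h3 : (n : ℤ) = ((n % N : ℕ) : ℤ) + ((n / N : ℕ) : ℤ) * N := by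
        have h4 := Nat.mod_add_div' n N
        exact_mod_cast h4.symm
      rw [h3]
      exact w1_mul ψ N hψ _ _
    rw [sum_eq_single (n % N)]
    · rw [if_pos, h2]
      have h4 : ((n : ℤ) - ((n % N : ℕ) : ℤ)) = N * ((n / N : ℕ) : ℤ) := by
        have h5 := Nat.mod_add_div n N
        have h6 : ((n % N : ℕ) : ℤ) + N * ((n / N : ℕ) : ℤ) = n := by exact_mod_cast h5
        linarith
      rw [h4]
      exact dvd_mul_right _ _
    · intro m hm hne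
      rw [if_neg]
      intro hd
      apply hne
      have h4 := mem_range.mp hm
      have h5 : m % N = n % N := by
        have h6 : (m : ℤ) ≡ n [ZMOD N] := Int.modEq_iff_dvd.mpr hd
        have h7 : m ≡ n [MOD N] := (Int.natCast_modEq_iff).mp h6
        exact h7
      rw [← h5, Nat.mod_eq_of_lt h4]
    · intro h
      exact absurd (mem_range.mpr (Nat.mod_lt n hN)) h
  have h2 : ∀ n : ℕ, ψ (n : ℤ) = (N : ℂ)⁻¹ * ∑ c ∈ range N,
      (∑ m ∈ range N, ψ (m : ℤ) * e (-(c * ((m : ℝ) / N)))) * e ((n : ℝ) * (c / N)) := by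
    intro n
    have h3 : ∑ c ∈ range N, (∑ m ∈ range N, ψ (m : ℤ) * e (-(c * ((m : ℝ) / N)))) * e ((n : ℝ) * (c / N))
        = ∑ m ∈ range N, ψ (m : ℤ) * ∑ c ∈ range N, e (c * ((((n : ℤ) - m : ℤ) : ℝ) / N)) := by
      simp_rw [sum_mul, mul_sum]
      rw [sum_comm]
      refine sum_congr rfl fun m _ => sum_congr rfl fun c _ => ?_
      rw [mul_assoc, ← CQ1_e_add]
      congr 2
      push_cast
      field_simp
      ring
    rw [h3, h1 n, mul_sum]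
    refine sum_congr rfl fun m _ => ?_
    rw [CQ1_geom N hN]
    split_ifs
    · field_simp
    · simp
  have h3 : ∑ n ∈ I, f n * ψ n = (N : ℂ)⁻¹ * ∑ c ∈ range N,
      (∑ m ∈ range N, ψ (m : ℤ) * e (-(c * ((m : ℝ) / N)))) * ∑ n ∈ I, f n * e ((n : ℝ) * (c / N)) := by
    have h4 : ∀ n ∈ I, f n * ψ n = ∑ c ∈ range N, (N : ℂ)⁻¹ *
        ((∑ m ∈ range N, ψ (m : ℤ) * e (-(c * ((m : ℝ) / N)))) * (f n * e ((n : ℝ) * (c / N)))) := by
      intro n _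
      rw [h2 n, ← mul_sum, mul_left_comm, mul_sum]
      congr 1
      refine sum_congr rfl fun c _ => ?_
      ring
    rw [sum_congr rfl h4, sum_comm, mul_sum]
    refine sum_congr rfl fun c _ => ?_
    rw [← mul_sum, ← mul_sum]
  rw [h3, norm_mul, norm_inv]
  have h5 : ‖∑ c ∈ range N, (∑ m ∈ range N, ψ (m : ℤ) * e (-(c * ((m : ℝ) / N)))) *
      ∑ n ∈ I, f n * e ((n : ℝ) * (c / N))‖ ≤ N * (N * Φ * δ) := by
    refine (norm_sum_le _ _).trans ?_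
    have h6 : ∀ c ∈ range N, ‖(∑ m ∈ range N, ψ (m : ℤ) * e (-(c * ((m : ℝ) / N)))) *
        ∑ n ∈ I, f n * e ((n : ℝ) * (c / N))‖ ≤ N * Φ * δ := by
      intro c _
      rw [norm_mul]
      refine mul_le_mul ?_ (hf _) (norm_nonneg _) (by positivity)
      refine (norm_sum_le _ _).trans ?_
      have h7 : ∀ m ∈ range N, ‖ψ (m : ℤ) * e (-(c * ((m : ℝ) / N)))‖ ≤ Φ := by
        intro m _
        have h8 : ‖e (-(c * ((m : ℝ) / N)))‖ = 1 := by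
          unfold e
          have h9 : (2 * Real.pi * ((-(c * ((m : ℝ) / N)) : ℝ) : ℂ) * Complex.I : ℂ)
              = ((2 * Real.pi * (-(c * ((m : ℝ) / N))) : ℝ) : ℂ) * Complex.I := by push_cast; ring
          rw [h9, Complex.norm_exp_ofReal_mul_I]
        rw [norm_mul, h8, mul_one]
        exact hΦ _
      refine (sum_le_sum h7).trans ?_
      rw [sum_const, card_range, nsmul_eq_mul]
    refine (sum_le_sum h6).trans ?_
    rw [sum_const, card_range, nsmul_eq_mul]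
  have h10 : ‖(N : ℂ)‖ = N := by simp
  rw [h10]
  calc (N : ℝ)⁻¹ * _ ≤ (N : ℝ)⁻¹ * (N * (N * Φ * δ)) :=
        mul_le_mul_of_nonneg_left h5 (by positivity)
    _ = N * Φ * δ := by field_simp



end Pool.Agent.Lib.H24P
end

-- from Lib.H24P.T1
section

/-!
# Project H24P, chunk T1 (M): size of the local factors
-/

open Finset Polynomial

namespace Pool.Agent.Lib.H24P

open Pool.Agent.Lib.H68T Pool.Agent.Lib.H18Q Pool.Agent.Lib.H59P

/-- The local factor as a count. Proof. `1 + gl l m = l/(l-1)` if `l ∤ m`, else `0`. -/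
theorem T1_count {k : ℕ} (l : ℕ) (hl : l.Prime) (φ : Fin k → ℤ → ℤ) :
    1 + tpf l φ = (((range l).filter (fun n : ℕ => ∀ i, ¬ (l : ℤ) ∣ φ i n)).card : ℝ) / l *
      ((l : ℝ) / ((l : ℝ) - 1)) ^ k := by
  classical
  have hl1 : (1 : ℝ) < l := by exact_mod_cast hl.one_lt
  have hl2 : (l : ℝ) - 1 ≠ 0 := by linarith
  have hg : ∀ m : ℤ, 1 + gl l m = if (l : ℤ) ∣ m then 0 else (l : ℝ) / ((l : ℝ) - 1) := by
    intro m
    unfold gl
    split_ifs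
    · ring
    · field_simp
      ring
  have h1 : ∀ n ∈ range l, ∏ i, (1 + gl l (φ i (n : ℤ))) =
      if (∀ i, ¬ (l : ℤ) ∣ φ i (n : ℤ)) then ((l : ℝ) / ((l : ℝ) - 1)) ^ k else 0 := by
    intro n _
    split_ifs with h
    · have h2 : ∀ i ∈ (univ : Finset (Fin k)), (1 + gl l (φ i (n : ℤ))) = (l : ℝ) / ((l : ℝ) - 1) := by
        intro i _
        rw [hg, if_neg (h i)]
      rw [Finset.prod_congr rfl h2, Finset.prod_const, card_univ, Fintype.card_fin]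
    · push Not at h
      obtain ⟨i, hi⟩ := h
      refine Finset.prod_eq_zero (mem_univ i) ?_
      rw [hg, if_pos hi]
  unfold tpf
  rw [add_sub_cancel, Finset.sum_congr rfl h1, ← Finset.sum_filter, Finset.sum_const, nsmul_eq_mul]
  ring


theorem t1_pow (n : ℕ) (x : ℝ) (hx : 0 ≤ x) (hx1 : x ≤ 1) : (1 + x) ^ n ≤ 1 + (2 ^ n - 1) * x := by
  induction n with
  | zero => simp
  | succ n ih =>
    have h1 : (1 : ℝ) ≤ 2 ^ n := one_le_pow₀ (by norm_num)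
    calc (1 + x) ^ (n + 1) = (1 + x) ^ n * (1 + x) := pow_succ _ _
      _ ≤ (1 + (2 ^ n - 1) * x) * (1 + x) := mul_le_mul_of_nonneg_right ih (by linarith)
      _ ≤ 1 + (2 ^ (n + 1) - 1) * x := by
        have h2 : x * x ≤ 1 * x := mul_le_mul_of_nonneg_right hx1 hx
        have h3 : (2 ^ n - 1) * (x * x) ≤ (2 ^ n - 1) * (1 * x) :=
          mul_le_mul_of_nonneg_left h2 (by linarith)
        rw [pow_succ]
        linarith



end Pool.Agent.Lib.H24P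
end

-- from Lib.H24P.T5
section

/-!
# Project H24P, chunk T5 (M): truncation of the singular series, assembly
-/

open Finset Polynomial

namespace Pool.Agent.Lib.H24P

open Pool.Agent.Lib.H68T Pool.Agent.Lib.H18Q Pool.Agent.Lib.H59P

theorem t5_ratio {l : ℕ} (hl : l.Prime) : 1 ≤ (l : ℝ) / ((l : ℝ) - 1) ∧
    (l : ℝ) / ((l : ℝ) - 1) = (1 - 1 / (l : ℝ))⁻¹ := by
  have h2 : (2 : ℝ) ≤ l := by exact_mod_cast hl.two_le
  have h1 : (0 : ℝ) < (l : ℝ) - 1 := by linarith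
  have h0 : (l : ℝ) ≠ 0 := by linarith
  refine ⟨?_, ?_⟩
  · rw [le_div_iff₀ h1]
    linarith
  · rw [one_sub_div h0, inv_div]

/-- Upper bound for products of local factors. Proof. `P0_tp`: `0 ≤ 1 + tpf ≤ (l/(l-1))^(k+1)`, all primes are `≤ Q`:
`Helper57.prod_one_sub_inv_inv_le`. -/
theorem T5_up {k : ℕ} (φ : Fin k → ℤ → ℤ) (Q : ℕ) (hQ : 2 ≤ Q) (P : Finset ℕ) (hP : P ⊆ pr Q) :
    0 ≤ SSf P φ ∧ SSf P φ ≤ (500 * Real.log Q) ^ k := by
  have hpr : ∀ l ∈ P, l.Prime := fun l hl => (Finset.mem_filter.1 (hP hl)).2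
  unfold SSf
  refine ⟨Finset.prod_nonneg fun l hl => (P0_tp l (hpr l hl) φ).1, ?_⟩
  have h1 : ∏ l ∈ P, (1 + tpf l φ) ≤ ∏ l ∈ P, ((l : ℝ) / ((l : ℝ) - 1)) ^ k :=
    Finset.prod_le_prod (fun l hl => (P0_tp l (hpr l hl) φ).1)
      (fun l hl => (P0_tp l (hpr l hl) φ).2)
  have h2 : ∏ l ∈ P, ((l : ℝ) / ((l : ℝ) - 1)) ^ k ≤ ∏ l ∈ pr Q, ((l : ℝ) / ((l : ℝ) - 1)) ^ k := by
    rw [← Finset.prod_sdiff hP]
    refine le_mul_of_one_le_left (Finset.prod_nonneg fun l hl => ?_) ?_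
    · exact pow_nonneg (zero_le_one.trans (t5_ratio (hpr l hl)).1) _
    · have h5 : ∏ _l ∈ pr Q \ P, (1 : ℝ) ≤ ∏ l ∈ pr Q \ P, ((l : ℝ) / ((l : ℝ) - 1)) ^ k :=
        Finset.prod_le_prod (fun _ _ => zero_le_one) fun l hl =>
          one_le_pow₀ (t5_ratio (Finset.mem_filter.1 (Finset.mem_sdiff.1 hl).1).2).1
      rwa [Finset.prod_const_one] at h5
  have h3 : ∏ l ∈ pr Q, ((l : ℝ) / ((l : ℝ) - 1)) ^ k =
      (∏ l ∈ pr Q, (1 - 1 / (l : ℝ))⁻¹) ^ k := by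
    rw [Finset.prod_pow]
    congr 1
    exact Finset.prod_congr rfl fun l hl => (t5_ratio (Finset.mem_filter.1 hl).2).2
  have h4 : pr Q = Sieve.primesUpTo Q := by
    ext l
    rw [Sieve.mem_primesUpTo]
    unfold pr
    rw [Finset.mem_filter, Finset.mem_Icc]
    constructor
    · rintro ⟨⟨_, h⟩, h'⟩
      exact ⟨h', h⟩
    · rintro ⟨h', h⟩
      exact ⟨⟨h'.one_le, h⟩, h'⟩
  rw [h3] at h2
  refine h1.trans (h2.trans ?_)
  rw [h4]
  refine pow_le_pow_left₀ (Finset.prod_nonneg fun l hl => ?_) (Helper57.prod_one_sub_inv_inv_le Q hQ) k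
  have hl' := (Sieve.mem_primesUpTo.1 hl).1
  rw [← (t5_ratio hl').2]
  exact zero_le_one.trans (t5_ratio hl').1

theorem t5_SF {Q E R : ℕ} (hE : E ≤ Q) :
    SF E R = dv ((pr Q).filter (fun l => ¬ l ∣ R)) Q E := by
  unfold SF dv
  refine Finset.filter_congr fun d hd => ?_
  rw [Finset.mem_Icc] at hd
  refine and_congr_right fun hsq => ?_
  constructor
  · intro h l hl
    have hlp := Nat.prime_of_mem_primeFactors hl
    have hld := Nat.dvd_of_mem_primeFactors hl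
    have hlQ : l ≤ Q := (Nat.le_of_dvd (by omega) hld).trans (hd.2.trans hE)
    refine ⟨Finset.mem_filter.2 ⟨Finset.mem_filter.2 ⟨Finset.mem_Icc.2 ⟨hlp.one_le, hlQ⟩, hlp⟩, ?_⟩, hlQ⟩
    intro hlR
    exact hlp.one_lt.ne' (Nat.dvd_one.1 (h ▸ Nat.dvd_gcd hld hlR))
  · intro h
    by_contra hnc
    obtain ⟨l, hlp, h1, h2⟩ := Nat.Prime.not_coprime_iff_dvd.1 hnc
    exact (Finset.mem_filter.1 (h l (Nat.mem_primeFactors.2 ⟨hlp, h1, by omega⟩)).1).2 h2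

/-- Minkowski with one distinguished term. -/
theorem t5_mink {α : Type*} (S : Finset α) (P : Finset ℕ) (γ : ℕ → ℝ) (hγ : ∀ q ∈ P, 0 ≤ γ q)
    (g : α → ℝ) (f : ℕ → α → ℝ) (D : α → ℝ) (c W : ℝ) (hW : 0 ≤ W)
    (hc : 1 + ∑ q ∈ P, γ q ≤ c) (hg : ∑ h ∈ S, g h ^ 2 ≤ W)
    (hf : ∀ q ∈ P, ∑ h ∈ S, f q h ^ 2 ≤ W)
    (hD : ∀ h ∈ S, |D h| ≤ |g h| + ∑ q ∈ P, γ q * |f q h|) :
    ∑ h ∈ S, D h ^ 2 ≤ c ^ 2 * W := by
  classical
  let γ' : Option ℕ → ℂ := fun o => match o with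
    | none => 1
    | some q => (γ q : ℂ)
  let f' : Option ℕ → α → ℂ := fun o h => match o with
    | none => ((|g h| : ℝ) : ℂ)
    | some q => ((|f q h| : ℝ) : ℂ)
  have h1 := Z2a S (Finset.insertNone P) γ' f' c W hW ?_ ?_
  · refine le_trans (Finset.sum_le_sum fun h hh => ?_) h1
    have h2 : ∑ o ∈ Finset.insertNone P, γ' o * f' o h =
        ((|g h| + ∑ q ∈ P, γ q * |f q h| : ℝ) : ℂ) := by
      rw [Finset.sum_insertNone]
      simp only [γ', f']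
      push_cast
      rw [one_mul]
    rw [h2, Complex.norm_real, ← sq_abs (D h)]
    refine pow_le_pow_left₀ (abs_nonneg _) ?_ 2
    rw [Real.norm_eq_abs]
    exact (hD h hh).trans (le_abs_self _)
  · rw [Finset.sum_insertNone]
    simp only [γ', norm_one, Complex.norm_real, Real.norm_eq_abs]
    refine le_trans (le_of_eq ?_) hc
    congr 1
    exact Finset.sum_congr rfl fun q hq => abs_of_nonneg (hγ q hq)
  · intro o ho
    rw [Finset.mem_insertNone] at ho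
    rcases o with _ | q
    · simp only [f', Complex.norm_real, Real.norm_eq_abs, abs_abs, sq_abs]
      exact hg
    · simp only [f', Complex.norm_real, Real.norm_eq_abs, abs_abs, sq_abs]
      exact hf q (ho q rfl)

theorem t5_harm (Q : ℕ) (P : Finset ℕ) (hP : P ⊆ pr Q) : ∑ q ∈ P, 1 / (q : ℝ) ≤ 1 + Real.log Q := by
  have h1 : ∑ q ∈ P, 1 / (q : ℝ) ≤ ∑ q ∈ Icc 1 Q, 1 / (q : ℝ) := by
    refine Finset.sum_le_sum_of_subset_of_nonneg ?_ (fun q _ _ => by positivity)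
    exact hP.trans (Finset.filter_subset _ _)
  have h2 : ∑ q ∈ Icc 1 Q, 1 / (q : ℝ) = ((harmonic Q : ℚ) : ℝ) := by
    rw [harmonic_eq_sum_Icc]
    push_cast
    exact Finset.sum_congr rfl fun q _ => one_div _
  rw [h2] at h1
  exact h1.trans (harmonic_le_one_add_log Q)

/-- The members of `mv`. -/
theorem t5_mv {Q E R a j : ℕ} (hE : E ≤ Q) (ha : a ∣ R) (hj : j ≤ Q) :
    ∀ d ∈ mv ((pr Q).filter (fun l => ¬ l ∣ R)) j E, Squarefree d ∧ E < d ∧ d ≤ Q ^ 2 ∧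
      ∀ l ∈ d.primeFactors, l ≤ Q ∧ ¬ l ∣ a := by
  intro d hd
  unfold mv at hd
  rw [Finset.mem_filter, Finset.mem_Ioc] at hd
  obtain ⟨⟨h1, h2⟩, h3, h4, -⟩ := hd
  refine ⟨h3, h1, ?_, fun l hl => ⟨(h4 l hl).2.trans hj, fun h => ?_⟩⟩
  · calc d ≤ E * j := h2
      _ ≤ Q * Q := Nat.mul_le_mul hE hj
      _ = Q ^ 2 := (pow_two Q).symm
  · exact (Finset.mem_filter.1 (h4 l hl).1).2 (h.trans ha)

/-- The difference of the truncated and the complete singular series, pointwise. -/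
theorem t5_point {k : ℕ} (φ : Fin k → ℤ → ℤ) (C1 : ℝ) (hC1 : ∀ l : ℕ, l.Prime → |tpf l φ| ≤ C1 / l)
    {Q E R : ℕ} (hQ : 2 ≤ Q) (hE1 : 1 ≤ E) (hE : E ≤ Q) (hR : 1 ≤ R) :
    |∑ d ∈ SF E R, tdf d φ - SSf ((pr Q).filter (fun l => ¬ l ∣ R)) φ| ≤
      |∑ m ∈ mv ((pr Q).filter (fun l => ¬ l ∣ R)) Q E, tdf m φ| +
      ∑ q ∈ (pr Q).filter (fun l => ¬ l ∣ R), (C1 / q * (500 * Real.log Q) ^ k) *
        |∑ m ∈ mv ((pr Q).filter (fun l => ¬ l ∣ R)) (q - 1) E, tdf m φ| := by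
  classical
  set P' := (pr Q).filter (fun l => ¬ l ∣ R) with hP'
  have hpr : ∀ l ∈ P', l.Prime := fun l hl => (Finset.mem_filter.1 (Finset.mem_filter.1 hl).1).2
  have hsub : P' ⊆ pr Q := Finset.filter_subset _ _
  have hPQ : P'.filter (fun l => l ≤ Q) = P' := by
    refine Finset.filter_true_of_mem fun l hl => ?_
    exact (Finset.mem_Icc.1 (Finset.mem_filter.1 (hsub hl)).1).2
  have h4 := T4_main (fun l => tpf l φ) P' hpr E hE1 Q
  rw [hPQ] at h4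
  have htt : ∀ d, tt (fun l => tpf l φ) d = tdf d φ := fun d => rfl
  simp only [htt] at h4
  rw [t5_SF hE, ← hP', abs_sub_comm]
  have h5 : SSf P' φ - ∑ d ∈ dv P' Q E, tdf d φ =
      ∑ m ∈ mv P' Q E, tdf m φ +
      ∑ q ∈ P', tpf q φ * (∑ m ∈ mv P' (q - 1) E, tdf m φ) *
        ∏ l ∈ P'.filter (fun l => q < l ∧ l ≤ Q), (1 + tpf l φ) := h4
  rw [h5]
  refine (abs_add_le _ _).trans (add_le_add le_rfl ?_)
  refine (Finset.abs_sum_le_sum_abs _ _).trans (Finset.sum_le_sum fun q hq => ?_)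
  rw [abs_mul, abs_mul]
  have h6 := T5_up φ Q hQ (P'.filter (fun l => q < l ∧ l ≤ Q)) ((Finset.filter_subset _ _).trans hsub)
  have h7 : |∏ l ∈ P'.filter (fun l => q < l ∧ l ≤ Q), (1 + tpf l φ)| ≤ (500 * Real.log Q) ^ k := by
    have h8 : |SSf (P'.filter (fun l => q < l ∧ l ≤ Q)) φ| ≤ (500 * Real.log Q) ^ k := by
      rw [abs_of_nonneg h6.1]
      exact h6.2
    exact h8
  have h9 := hC1 q (hpr q hq)
  calc |tpf q φ| * |∑ m ∈ mv P' (q - 1) E, tdf m φ| *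
        |∏ l ∈ P'.filter (fun l => q < l ∧ l ≤ Q), (1 + tpf l φ)|
      ≤ (C1 / q) * |∑ m ∈ mv P' (q - 1) E, tdf m φ| * (500 * Real.log Q) ^ k := by
        refine mul_le_mul (mul_le_mul_of_nonneg_right h9 (abs_nonneg _)) h7 (abs_nonneg _) ?_
        exact mul_nonneg ((abs_nonneg _).trans h9) (abs_nonneg _)
    _ = (C1 / q * (500 * Real.log Q) ^ k) * |∑ m ∈ mv P' (q - 1) E, tdf m φ| := by ring


end Pool.Agent.Lib.H24P
end

-- from Lib.H24Q.A1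
section

/-!
# Project H24Q, chunk A1 (M): mean values of the bounded part (ports of H59P/M3E, M3F, M4)
-/

open Finset

namespace Pool.Agent.Lib.H24Q

open Pool.Agent.Lib.H68T Pool.Agent.Lib.H18Q Pool.Agent.Lib.H59P Pool.Agent.Lib.H24P

theorem a1_per {m : ℕ} (φ : Fin m → ℤ → ℤ) (hφ : Cp φ) (l P : ℕ) (hlP : l ∣ P) (n : ℤ) :
    Wf l (at' φ (n + P)) = Wf l (at' φ n) := by
  unfold Wf
  congr 1
  refine Finset.prod_congr rfl fun i _ => ?_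
  congr 1
  exact P2_gl φ hφ l P hlP i n

theorem a1_per_prod {m : ℕ} (φ : Fin m → ℤ → ℤ) (hφ : Cp φ) (S : Finset ℕ) (P : ℕ) (hP : ∀ l ∈ S, l ∣ P) (n : ℤ) :
    ∏ l ∈ S, Wf l (at' φ (n + P)) = ∏ l ∈ S, Wf l (at' φ n) :=
  Finset.prod_congr rfl fun l hl => a1_per φ hφ l P (hP l hl) n

theorem a1_prime {m : ℕ} (l : ℕ) (hl : l.Prime) (φ : Fin m → ℤ → ℤ) :
    ∑ n ∈ range l, Wf l (at' φ (n : ℤ)) = l * tpf l φ := by
  have hl0 : (l : ℝ) ≠ 0 := by exact_mod_cast hl.pos.ne'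
  unfold tpf Wf at'
  rw [Finset.sum_sub_distrib, Finset.sum_const, Finset.card_range, nsmul_eq_mul, mul_one]
  field_simp

theorem a1_set {m : ℕ} (φ : Fin m → ℤ → ℤ) (hφ : Cp φ) (S : Finset ℕ) : (∀ l ∈ S, l.Prime) →
    ∑ n ∈ range (∏ l ∈ S, l), ∏ l ∈ S, Wf l (at' φ (n : ℤ)) = ((∏ l ∈ S, l : ℕ) : ℝ) * ∏ l ∈ S, tpf l φ := by
  induction S using Finset.induction_on with
  | empty => intro _; simp
  | insert a s ha ih =>
    intro hS
    have hap : a.Prime := hS a (Finset.mem_insert_self _ _)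
    have hs : ∀ l ∈ s, l.Prime := fun l hl => hS l (Finset.mem_insert_of_mem hl)
    have hcop : Nat.Coprime a (∏ l ∈ s, l) := by
      apply Nat.Coprime.prod_right
      intro l hl
      rw [Nat.coprime_primes hap (hs l hl)]
      rintro rfl
      exact ha hl
    have hpos : 0 < ∏ l ∈ s, l := Finset.prod_pos fun l hl => (hs l hl).pos
    have key := M3d (fun n => ((Wf a (at' φ n) : ℝ) : ℂ)) (fun n => ((∏ l ∈ s, Wf l (at' φ n) : ℝ) : ℂ)) a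
      (∏ l ∈ s, l) hap.pos hpos hcop
      (fun m => by
        show ((Wf a (at' φ (m + a)) : ℝ) : ℂ) = ((Wf a (at' φ m) : ℝ) : ℂ)
        rw [a1_per φ hφ a a dvd_rfl m])
      (fun m => by
        show ((∏ l ∈ s, Wf l (at' φ (m + ((∏ l ∈ s, l : ℕ) : ℤ))) : ℝ) : ℂ) = ((∏ l ∈ s, Wf l (at' φ m) : ℝ) : ℂ)
        rw [a1_per_prod φ hφ s _ (fun l hl => Finset.dvd_prod_of_mem _ hl) m])
    have key' : ∑ n ∈ range (a * ∏ l ∈ s, l), Wf a (at' φ (n : ℤ)) * ∏ l ∈ s, Wf l (at' φ (n : ℤ)) =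
        (∑ n ∈ range a, Wf a (at' φ (n : ℤ))) * ∑ n ∈ range (∏ l ∈ s, l), ∏ l ∈ s, Wf l (at' φ (n : ℤ)) := by
      have : ((∑ n ∈ range (a * ∏ l ∈ s, l), Wf a (at' φ (n : ℤ)) * ∏ l ∈ s, Wf l (at' φ (n : ℤ)) : ℝ) : ℂ) =
          (((∑ n ∈ range a, Wf a (at' φ (n : ℤ))) * ∑ n ∈ range (∏ l ∈ s, l), ∏ l ∈ s, Wf l (at' φ (n : ℤ)) : ℝ) : ℂ) := by
        rw [Complex.ofReal_sum, Complex.ofReal_mul, Complex.ofReal_sum, Complex.ofReal_sum]
        rw [← key]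
        apply Finset.sum_congr rfl
        intro n _
        rw [Complex.ofReal_mul]
      exact_mod_cast this
    rw [Finset.prod_insert ha, Finset.prod_insert ha]
    have e1 : ∑ n ∈ range (a * ∏ l ∈ s, l), ∏ l ∈ insert a s, Wf l (at' φ (n : ℤ)) =
        ∑ n ∈ range (a * ∏ l ∈ s, l), Wf a (at' φ (n : ℤ)) * ∏ l ∈ s, Wf l (at' φ (n : ℤ)) := by
      apply Finset.sum_congr rfl
      intro n _
      rw [Finset.prod_insert ha]
    rw [e1, key', ih hs, a1_prime a hap φ, Nat.cast_mul]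
    ring

/-- Proof. As `M3e` (`H59P/M3E.lean`) with `n + h i` replaced by `φ i n`: induction over the prime factors with `M3d`,
`P2_Wd` for the periods. -/
theorem A1_mean {m : ℕ} (φ : Fin m → ℤ → ℤ) (hφ : Cp φ) (d : ℕ) (hd : Squarefree d) :
    ∑ n ∈ range d, Wdf d (at' φ (n : ℤ)) = d * tdf d φ := by
  have h1 := a1_set φ hφ d.primeFactors (fun l hl => Nat.prime_of_mem_primeFactors hl)
  rw [Nat.prod_primeFactors_of_squarefree hd] at h1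
  exact h1

/-- Proof. As `M3f` (`H59P/M3F.lean`): period `R d` (`P2_Ph`, `P2_Wd`), bounds `P0_PhR`, `P0_W`, mean
`MRf p R φ * tdf d φ` (`M3d`, `A1_mean`), `M3c`. -/
theorem A1_one {m : ℕ} (φ : Fin m → ℤ → ℤ) (hφ : Cp φ) (p : Fin m → Ch) (R d : ℕ) (hR : 0 < R)
    (hd : ∀ i, (p i).1 ∣ R) (hsq : Squarefree d) (hc : Nat.Coprime d R) (a H : ℕ) :
    ‖∑ n ∈ Ico a (a + H), Phf p R.primeFactors (at' φ (n : ℤ)) * ((Wdf d (at' φ (n : ℤ)) : ℝ) : ℂ) -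
      H * (MRf p R φ * ((tdf d φ : ℝ) : ℂ))‖ ≤
      2 * (R * d) * (((R : ℝ) / (Nat.totient R : ℝ)) * ((d : ℝ) / (Nat.totient d : ℝ))) ^ m := by
  have hd0 : 0 < d := Nat.pos_of_ne_zero hsq.ne_zero
  obtain ⟨f, hf⟩ : ∃ f : ℤ → ℂ, f = fun n => Phf p R.primeFactors (at' φ n) := ⟨_, rfl⟩
  obtain ⟨g, hg⟩ : ∃ g : ℤ → ℂ, g = fun n => ((Wdf d (at' φ n) : ℝ) : ℂ) := ⟨_, rfl⟩
  have hfper : ∀ x, f (x + R) = f x := fun x => by
    rw [hf]
    exact P2_Ph φ hφ p R R dvd_rfl hd x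
  have hgper : ∀ x, g (x + d) = g x := by
    intro x
    rw [hg]
    show ((Wdf d (at' φ (x + d)) : ℝ) : ℂ) = ((Wdf d (at' φ x) : ℝ) : ℂ)
    rw [P2_Wd φ hφ d d dvd_rfl x]
  have hfgper : ∀ x : ℤ, f (x + ((R * d : ℕ) : ℤ)) * g (x + ((R * d : ℕ) : ℤ)) = f x * g x := by
    intro x
    have e1 : f (x + ((R * d : ℕ) : ℤ)) = f x := by
      have := m3c_per f R hfper d x
      rw [← this]
      congr 1
      push_cast
      ring
    have e2 : g (x + ((R * d : ℕ) : ℤ)) = g x := by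
      have := m3c_per g d hgper R x
      rw [← this]
      congr 1
    rw [e1, e2]
  have hbd : ∀ x : ℤ, ‖f x * g x‖ ≤
      (((R : ℝ) / (Nat.totient R : ℝ)) * ((d : ℝ) / (Nat.totient d : ℝ))) ^ m := by
    intro x
    rw [norm_mul, mul_pow]
    apply mul_le_mul
    · rw [hf]
      exact P0_PhR p R hR _
    · rw [hg]
      show ‖((Wdf d (at' φ x) : ℝ) : ℂ)‖ ≤ _
      rw [Complex.norm_real, Real.norm_eq_abs]
      exact P0_W d hsq _
    · exact norm_nonneg _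
    · positivity
  have key := M3c (fun x => f x * g x) (R * d) (Nat.mul_pos hR hd0) hfgper _ hbd a H
  have hprod : ∑ n ∈ range (R * d), f n * g n = (∑ n ∈ range R, f n) * ∑ n ∈ range d, g n :=
    M3d f g R d hR hd0 hc.symm hfper hgper
  have hgsum : ∑ n ∈ range d, g n = d * ((tdf d φ : ℝ) : ℂ) := by
    have := A1_mean φ hφ d hsq
    have h2 : ((∑ n ∈ range d, Wdf d (at' φ (n : ℤ)) : ℝ) : ℂ) = ((d * tdf d φ : ℝ) : ℂ) := by rw [this]
    rw [Complex.ofReal_sum] at h2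
    rw [hg]
    rw [show ∑ n ∈ range d, (fun n : ℤ => ((Wdf d (at' φ n) : ℝ) : ℂ)) n = ∑ n ∈ range d, ((Wdf d (at' φ (n : ℤ)) : ℝ) : ℂ) from rfl, h2]
    push_cast
    rfl
  have hRc : (R : ℂ) ≠ 0 := by exact_mod_cast hR.ne'
  have hdc : (d : ℂ) ≠ 0 := by exact_mod_cast hd0.ne'
  have hmean : (∑ n ∈ range (R * d), f n * g n) / ((R * d : ℕ) : ℂ) =
      MRf p R φ * ((tdf d φ : ℝ) : ℂ) := by
    rw [hprod, hgsum]
    have e3 : ∑ n ∈ range R, f n = ∑ n ∈ range R, Phf p R.primeFactors (at' φ (n : ℤ)) := by rw [hf]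
    rw [e3]
    unfold MRf
    push_cast
    field_simp
  have key2 : ‖∑ n ∈ Ico a (a + H), f n * g n - H * (MRf p R φ * ((tdf d φ : ℝ) : ℂ))‖ ≤
      2 * ((R * d : ℕ) : ℝ) * (((R : ℝ) / (Nat.totient R : ℝ)) * ((d : ℝ) / (Nat.totient d : ℝ))) ^ m := by
    rw [← hmean]
    exact key
  rw [Nat.cast_mul, hf, hg] at key2
  exact key2

/-- Proof. As `M4` (`H59P/M4.lean`): `P1_M2` for each `n`, `A1_one` for each `d ∈ SF (D/R) R`, `M3b`. -/
theorem A1_M4 {m : ℕ} (φ : Fin m → ℤ → ℤ) (hφ : Cp φ) (Q D R : ℕ) (hDQ : D ≤ Q) (hR : 0 < R)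
    (p : Fin m → Ch) (hp : ∀ i, p i ∈ PC Q) (hd : ∀ i, (p i).1 ∣ R) (a H : ℕ) :
    ‖∑ n ∈ Ico a (a + H),
      ∑ κ ∈ (Fintype.piFinset fun i => KS Q (p i).1).filter (fun κ => R.lcm (univ.lcm κ) ≤ D),
        ∏ i, gk (p i) (κ i) (φ i (n : ℤ)) -
      H * (MRf p R φ * ((∑ d ∈ SF (D / R) R, tdf d φ : ℝ) : ℂ))‖ ≤
      2 * (D : ℝ) ^ 2 * (2 * (1 + Real.log Q)) ^ (2 * m) := by
  have e1 : ∑ n ∈ Ico a (a + H),
      ∑ κ ∈ (Fintype.piFinset fun i => KS Q (p i).1).filter (fun κ => R.lcm (univ.lcm κ) ≤ D),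
        ∏ i, gk (p i) (κ i) (φ i (n : ℤ)) =
      ∑ d ∈ SF (D / R) R, ∑ n ∈ Ico a (a + H), Phf p R.primeFactors (at' φ (n : ℤ)) * ((Wdf d (at' φ (n : ℤ)) : ℝ) : ℂ) := by
    symm
    rw [sum_comm]
    refine sum_congr rfl fun n _ => ?_
    have h := P1_M2 Q D R hDQ hR p hp hd (at' φ (n : ℤ))
    rw [mul_sum] at h
    exact h.symm
  have e2 : (H : ℂ) * (MRf p R φ * ((∑ d ∈ SF (D / R) R, tdf d φ : ℝ) : ℂ)) =
      ∑ d ∈ SF (D / R) R, (H : ℂ) * (MRf p R φ * ((tdf d φ : ℝ) : ℂ)) := by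
    push_cast
    rw [mul_sum, mul_sum]
  rw [e1, e2, ← sum_sub_distrib]
  have key : ∀ d ∈ SF (D / R) R, ‖∑ n ∈ Ico a (a + H), Phf p R.primeFactors (at' φ (n : ℤ)) * ((Wdf d (at' φ (n : ℤ)) : ℝ) : ℂ) -
      (H : ℂ) * (MRf p R φ * ((tdf d φ : ℝ) : ℂ))‖ ≤
      2 * (D : ℝ) * (2 * (1 + Real.log Q)) ^ (2 * m) := by
    intro d hdm
    have hdm' : (1 ≤ d ∧ d ≤ D / R) ∧ Squarefree d ∧ Nat.Coprime d R := by
      simpa [SF] using hdm
    obtain ⟨⟨h1, h2⟩, h3, h4⟩ := hdm'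
    have h5 := A1_one φ hφ p R d hR hd h3 h4 a H
    have h6 : R * d ≤ D := by
      have := (Nat.le_div_iff_mul_le hR).1 h2
      rwa [mul_comm] at this
    have hRD : R ≤ D := le_trans (Nat.le_mul_of_pos_right R h1) h6
    have hdD : d ≤ D := le_trans (Nat.le_mul_of_pos_left d hR) h6
    have hlog : ∀ m : ℕ, 1 ≤ m → m ≤ D → (m : ℝ) / (Nat.totient m : ℝ) ≤ 2 * (1 + Real.log Q) := by
      intro m hm hmD
      refine (M3b m hm).trans ?_
      have hm0 : (0 : ℝ) < m := by exact_mod_cast hm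
      have : Real.log m ≤ Real.log Q :=
        Real.log_le_log hm0 (by exact_mod_cast hmD.trans hDQ)
      linarith
    have b1 := hlog R hR hRD
    have b2 := hlog d h1 hdD
    have b0 : (0 : ℝ) ≤ (R : ℝ) / (Nat.totient R : ℝ) := by positivity
    have b0' : (0 : ℝ) ≤ (d : ℝ) / (Nat.totient d : ℝ) := by positivity
    refine h5.trans ?_
    have b3 : (((R : ℝ) / (Nat.totient R : ℝ)) * ((d : ℝ) / (Nat.totient d : ℝ))) ^ m ≤
        (2 * (1 + Real.log Q)) ^ (2 * m) := by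
      rw [pow_mul]
      apply pow_le_pow_left₀ (mul_nonneg b0 b0')
      rw [sq]
      exact mul_le_mul b1 b2 b0' (b0.trans b1)
    have b4 : (R : ℝ) * d ≤ D := by exact_mod_cast h6
    have b5 : (0 : ℝ) ≤ (((R : ℝ) / (Nat.totient R : ℝ)) * ((d : ℝ) / (Nat.totient d : ℝ))) ^ m := by
      positivity
    calc 2 * ((R : ℝ) * d) * (((R : ℝ) / (Nat.totient R : ℝ)) * ((d : ℝ) / (Nat.totient d : ℝ))) ^ m
        ≤ 2 * (D : ℝ) * (((R : ℝ) / (Nat.totient R : ℝ)) * ((d : ℝ) / (Nat.totient d : ℝ))) ^ m := by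
          gcongr
      _ ≤ 2 * (D : ℝ) * (2 * (1 + Real.log Q)) ^ (2 * m) := by gcongr
  have hcard : ((SF (D / R) R).card : ℝ) ≤ D := by
    have h1 : (SF (D / R) R).card ≤ (Icc 1 (D / R)).card := by
      unfold SF
      exact card_filter_le _ _
    rw [Nat.card_Icc] at h1
    have h2 : D / R ≤ D := Nat.div_le_self _ _
    exact_mod_cast (by omega : (SF (D / R) R).card ≤ D)
  calc ‖∑ d ∈ SF (D / R) R, (∑ n ∈ Ico a (a + H), Phf p R.primeFactors (at' φ (n : ℤ)) * ((Wdf d (at' φ (n : ℤ)) : ℝ) : ℂ) -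
      (H : ℂ) * (MRf p R φ * ((tdf d φ : ℝ) : ℂ)))‖
      ≤ ∑ d ∈ SF (D / R) R, ‖∑ n ∈ Ico a (a + H), Phf p R.primeFactors (at' φ (n : ℤ)) * ((Wdf d (at' φ (n : ℤ)) : ℝ) : ℂ) -
      (H : ℂ) * (MRf p R φ * ((tdf d φ : ℝ) : ℂ))‖ := norm_sum_le _ _
    _ ≤ ∑ d ∈ SF (D / R) R, 2 * (D : ℝ) * (2 * (1 + Real.log Q)) ^ (2 * m) := sum_le_sum key
    _ = ((SF (D / R) R).card : ℝ) * (2 * (D : ℝ) * (2 * (1 + Real.log Q)) ^ (2 * m)) := by
        rw [sum_const, nsmul_eq_mul]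
    _ ≤ (D : ℝ) * (2 * (D : ℝ) * (2 * (1 + Real.log Q)) ^ (2 * m)) := by
        apply mul_le_mul_of_nonneg_right hcard
        have : (0 : ℝ) ≤ (2 * (1 + Real.log Q)) ^ (2 * m) := by
          rw [pow_mul]; positivity
        positivity
    _ = 2 * (D : ℝ) ^ 2 * (2 * (1 + Real.log Q)) ^ (2 * m) := by ring

end Pool.Agent.Lib.H24Q
end
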