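import Pool.Agent.Lib.H1M.RV2.M014
import Pool.Agent.Lib.H1M.RV2.M018
import Pool.Agent.Lib.H1M.RV2.M036
import Pool.Agent.Lib.H1M.RV2.M039
import Pool.Agent.Lib.H1M.RV2.M066
import Pool.Agent.Lib.H1M.RV2.M067
import Pool.Agent.Lib.H1M.RV2.M073
import Pool.Agent.Lib.H1M.RV2.M074

/-! Merged copies (to shorten the build) of Lib.H59P.S1B, Lib.H24P.B5, Lib.H24P.Z1L, Lib.H24P.Z1S, Lib.H59P.V1A, Lib.H59P.V1B, Lib.H24P.V1A, Lib.H24P.V2, Lib.H24P.P3, Lib.H59P.C3A, Lib.H24P.P5, Lib.H59P.C3, Lib.H24P.X1A, Lib.H24Q.Defs, Lib.H24Q.Defs2. -/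

-- from Lib.H59P.S1B
section

/-!
# Project H59P, chunk S1b
-/

open Finset

namespace Pool.Agent.Lib.H59P

open Pool.Agent.Lib.H68T Pool.Agent.Lib.H18Q

/-- The size of `SG` with coefficients of total size at most `b`. Proof. `qp_SG_le` in `H18Q/QP.lean`. -/
theorem S1b (Q : ℕ) (hQ : 1 ≤ Q) (B : Ch → ℂ) (mb : Ch → ℝ) (hB : ∀ p ∈ PC Q, ‖B p‖ ≤ mb p) (m : ℤ) :
    ‖SG Q B m‖ ≤ 100 * (1 + Real.log Q) ^ 3 * dQ Q m * ∑ p ∈ PC Q, mb p :=
  qp_SG_le hQ B mb hB m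

end Pool.Agent.Lib.H59P
end

-- from Lib.H24P.B5
section

/-!
# Project H24P, chunk B5 (M): mean squares of the linear coordinate
-/

open Finset Polynomial

namespace Pool.Agent.Lib.H24P

open Pool.Agent.Lib.H68T Pool.Agent.Lib.H18Q Pool.Agent.Lib.H59P

theorem b5_per (Q : ℕ) (x t : ℤ) : dQ Q (x + (Q.factorial : ℤ) * t) = dQ Q x := by
  unfold dQ
  congr 2
  refine Finset.filter_congr fun d hd => ?_
  rw [Finset.mem_Icc] at hd
  have h1 : (d : ℤ) ∣ (Q.factorial : ℤ) * t :=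
    Dvd.dvd.mul_right (Int.natCast_dvd_natCast.2 (Nat.dvd_factorial (by omega) hd.2)) t
  constructor
  · intro h
    exact (Int.dvd_add_left h1).1 h
  · intro h
    exact (Int.dvd_add_left h1).2 h

theorem b5_core (Q W H : ℕ) (hW : 0 < W) (x : ℤ) (hx : IsCoprime x (W : ℤ)) :
    ∑ c ∈ range H, dQ Q (x + W * (c : ℤ)) ^ 2 ≤ H * (1 + Real.log Q) ^ 3 + (Q : ℝ) ^ 2 := by
  have hW' : (1 : ℤ) ≤ W := by exact_mod_cast hW
  have hF : (1 : ℤ) ≤ (Q.factorial : ℤ) := by exact_mod_cast Nat.succ_le_of_lt (Nat.factorial_pos Q)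
  have h0 : 0 ≤ x + (Q.factorial : ℤ) * (W * |x|) := by
    have h1 : |x| ≤ (Q.factorial : ℤ) * (W * |x|) := by
      have h2 := abs_nonneg x
      calc |x| = 1 * (1 * |x|) := by ring
        _ ≤ (Q.factorial : ℤ) * (W * |x|) := by gcongr
    have h3 := neg_abs_le x
    linarith
  obtain ⟨b, hb⟩ := Int.eq_ofNat_of_zero_le h0
  have hbW : Nat.Coprime b W := by
    rw [← Nat.isCoprime_iff_coprime]
    have h4 : (b : ℤ) = x + (W : ℤ) * ((Q.factorial : ℤ) * |x|) := by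
      rw [← hb]
      ring
    rw [h4]
    exact (IsCoprime.add_mul_left_left_iff).2 hx
  have h5 := dQ_moment Q H W b 0 hW hbW
  refine le_trans (le_of_eq ?_) h5
  refine Finset.sum_congr rfl fun c _ => ?_
  have h6 : (b : ℤ) + W * ((0 + c : ℕ) : ℤ) = (x + W * (c : ℤ)) + (Q.factorial : ℤ) * (W * |x|) := by
    rw [← hb, Nat.zero_add]
    ring
  rw [h6, b5_per]

/-- Proof. `B(n) = b + a n`, `gcd(a, b) = 1`. `dQ Q m` depends only on `m` modulo `Q!` and `dQ Q (-m) = dQ Q m`. If `a < 0`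
reflect the interval (`n ↦ 2 a0 + H - 1 - n`). So the sum is `∑_{c < H} dQ(x + W c)^2` with `W = |a| ≥ 1` and an
integer `x` coprime to `W`, which may be replaced by `x + W Q! t ≥ 0`; then `x = b' + W s` with naturals, `b' = x % W`:
`dQ_moment` (`H68T/CG2.lean`). -/
theorem B5_dQ (Q A : ℕ) (B : ℤ[X]) (hB : Lin A B) (a H : ℕ) :
    ∑ n ∈ Ico a (a + H), dQ Q (B.eval (n : ℤ)) ^ 2 ≤ H * (1 + Real.log Q) ^ 3 + (Q : ℝ) ^ 2 := by
  have hev : ∀ n : ℤ, B.eval n = B.coeff 0 + B.coeff 1 * n := by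
    intro n
    rw [Polynomial.eval_eq_sum_range, hB.deg]
    simp [Finset.sum_range_succ]
  have hc1 : B.coeff 1 ≠ 0 := by
    have h1 : B.leadingCoeff ≠ 0 := by
      rw [Polynomial.leadingCoeff_ne_zero]
      intro h
      have h2 := hB.deg
      rw [h] at h2
      simp at h2
    rwa [Polynomial.leadingCoeff, hB.deg] at h1
  rcases lt_or_gt_of_ne hc1 with hneg | hpos
  · -- negative
    obtain ⟨W, hW⟩ : ∃ W : ℕ, (W : ℤ) = -B.coeff 1 := ⟨(-B.coeff 1).toNat, by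
      rw [Int.toNat_of_nonneg (by linarith)]⟩
    have hW0 : 0 < W := by
      have : (0 : ℤ) < W := by rw [hW]; linarith
      exact_mod_cast this
    have hx : IsCoprime (B.coeff 0 + (W : ℤ) * (-((a : ℤ) + H - 1))) (W : ℤ) := by
      rw [IsCoprime.add_mul_left_left_iff, hW]
      exact (IsCoprime.neg_right_iff _ _).2 hB.cop
    have h1 := b5_core Q W H hW0 _ hx
    refine le_trans (le_of_eq ?_) h1
    rw [Finset.sum_Ico_eq_sum_range, Nat.add_sub_cancel_left]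
    rw [← Finset.sum_range_reflect]
    refine Finset.sum_congr rfl fun c hc => ?_
    rw [Finset.mem_range] at hc
    have h2 : ((a + (H - 1 - c) : ℕ) : ℤ) = a + H - 1 - c := by
      have : 1 + c ≤ H := by omega
      rw [Nat.sub_sub]
      push_cast [this]
      ring
    have h4 : B.eval ((a + (H - 1 - c) : ℕ) : ℤ) =
        B.coeff 0 + (W : ℤ) * (-((a : ℤ) + H - 1)) + W * (c : ℤ) := by
      rw [hev, h2, hW]
      ring
    rw [h4]
  · obtain ⟨W, hW⟩ : ∃ W : ℕ, (W : ℤ) = B.coeff 1 := ⟨(B.coeff 1).toNat, by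
      rw [Int.toNat_of_nonneg (by linarith)]⟩
    have hW0 : 0 < W := by
      have : (0 : ℤ) < W := by rw [hW]; linarith
      exact_mod_cast this
    have hx : IsCoprime (B.coeff 0 + (W : ℤ) * a) (W : ℤ) := by
      rw [IsCoprime.add_mul_left_left_iff, hW]
      exact hB.cop
    have h1 := b5_core Q W H hW0 _ hx
    refine le_trans (le_of_eq ?_) h1
    rw [Finset.sum_Ico_eq_sum_range, Nat.add_sub_cancel_left]
    refine Finset.sum_congr rfl fun c hc => ?_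
    have h4 : B.eval ((a + c : ℕ) : ℤ) = B.coeff 0 + (W : ℤ) * a + W * (c : ℤ) := by
      rw [hev, hW]
      push_cast
      ring
    rw [h4]

/-- Proof. `Fc Q p m = Gam Q p.1 m conj χ(m)` (`gam_expand`) `= SG Q b m` with `b = 1` at `p` and `0` else, so
`‖Fc‖ ≤ 100 (1 + log Q)^3 dQ Q m` (`S1b` with `mb = b`). -/
theorem B5_Fc (Q : ℕ) (hQ : 1 ≤ Q) (p : Ch) (hp : p ∈ PC Q) (m : ℤ) :
    ‖Fc Q p m‖ ≤ 100 * (1 + Real.log Q) ^ 3 * dQ Q m := by
  classical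
  have h1 := S1b Q hQ (fun q => if q = p then 1 else 0) (fun q => if q = p then 1 else 0)
    (fun q _ => by split_ifs <;> simp) m
  have h2 : SG Q (fun q => if q = p then 1 else 0) m = Fc Q p m := by
    unfold SG Fc
    rw [← gam_expand Q p hp m, Finset.sum_eq_single_of_mem p hp]
    · beta_reduce
      rw [if_pos rfl, mul_one]
    · intro q _ hq
      beta_reduce
      rw [if_neg hq, mul_zero]
  have h3 : ∑ q ∈ PC Q, (if q = p then (1 : ℝ) else 0) = 1 := by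
    rw [Finset.sum_ite_eq' (PC Q) p (fun _ => (1 : ℝ)), if_pos hp]
  rw [h2, h3, mul_one] at h1
  exact h1

/-- Proof. `B5_Fc`, `B5_dQ`. -/
theorem B5_sq (Q A : ℕ) (hQ : 1 ≤ Q) (p : Ch) (hp : p ∈ PC Q) (B : ℤ[X]) (hB : Lin A B) (a H : ℕ)
    (hH : Q ^ 2 ≤ H) :
    ∑ n ∈ Ico a (a + H), ‖Fc Q p (B.eval (n : ℤ))‖ ^ 2 ≤ 20000 * (1 + Real.log Q) ^ 9 * H := by
  have hL : 0 ≤ Real.log Q := Real.log_nonneg (by exact_mod_cast hQ)
  have hH' : (Q : ℝ) ^ 2 ≤ H := by exact_mod_cast hH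
  have h1 : ∑ n ∈ Ico a (a + H), ‖Fc Q p (B.eval (n : ℤ))‖ ^ 2 ≤
      ∑ n ∈ Ico a (a + H), (100 * (1 + Real.log Q) ^ 3) ^ 2 * dQ Q (B.eval (n : ℤ)) ^ 2 := by
    refine Finset.sum_le_sum fun n _ => ?_
    rw [← mul_pow]
    exact pow_le_pow_left₀ (norm_nonneg _) (B5_Fc Q hQ p hp _) 2
  rw [← Finset.mul_sum] at h1
  have h2 := B5_dQ Q A B hB a H
  have h3 : (H : ℝ) * (1 + Real.log Q) ^ 3 + (Q : ℝ) ^ 2 ≤ 2 * ((1 + Real.log Q) ^ 3 * H) := by
    have h4 : (1 : ℝ) ≤ (1 + Real.log Q) ^ 3 := one_le_pow₀ (by linarith)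
    have h5 : (H : ℝ) ≤ (1 + Real.log Q) ^ 3 * H := le_mul_of_one_le_left (Nat.cast_nonneg H) h4
    nlinarith
  calc ∑ n ∈ Ico a (a + H), ‖Fc Q p (B.eval (n : ℤ))‖ ^ 2
      ≤ (100 * (1 + Real.log Q) ^ 3) ^ 2 * ∑ n ∈ Ico a (a + H), dQ Q (B.eval (n : ℤ)) ^ 2 := h1
    _ ≤ (100 * (1 + Real.log Q) ^ 3) ^ 2 * (2 * ((1 + Real.log Q) ^ 3 * H)) :=
        mul_le_mul_of_nonneg_left (h2.trans h3) (by positivity)
    _ = 20000 * (1 + Real.log Q) ^ 9 * H := by ring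

end Pool.Agent.Lib.H24P
end

-- from Lib.H24P.Z1L
section

/-!
# Project H24P, chunk Z1L (M): tuples of characters with large modulus
-/

open Finset Polynomial

namespace Pool.Agent.Lib.H24P

open Pool.Agent.Lib.H68T Pool.Agent.Lib.H18Q Pool.Agent.Lib.H59P

theorem z1l_sq (x y : ℂ) : ‖x + y‖ ^ 2 ≤ 2 * ‖x‖ ^ 2 + 2 * ‖y‖ ^ 2 := by
  have h1 : ‖x + y‖ ≤ ‖x‖ + ‖y‖ := norm_add_le x y
  have h2 : 0 ≤ ‖x + y‖ := norm_nonneg _
  nlinarith [sq_nonneg (‖x‖ - ‖y‖)]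





end Pool.Agent.Lib.H24P
end

-- from Lib.H24P.Z1S
section

/-!
# Project H24P, chunk Z1S (M/L): tuples of characters with small modulus
-/

open Finset Polynomial

namespace Pool.Agent.Lib.H24P

open Pool.Agent.Lib.H68T Pool.Agent.Lib.H18Q Pool.Agent.Lib.H59P

theorem z1s_mem_SF {D R d : ℕ} : d ∈ SF D R ↔ (1 ≤ d ∧ d ≤ D) ∧ Squarefree d ∧ Nat.Coprime d R := by
  unfold SF
  rw [mem_filter, mem_Icc]

theorem z1s_PC {Q : ℕ} (hQ : 1 ≤ Q) {p : Ch} (hp : p ∈ PC Q) : p ∈ PC (Q ^ 100) := by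
  rw [mem_PC] at hp ⊢
  refine ⟨hp.1, hp.2.1.trans ?_, hp.2.2⟩
  calc Q = Q ^ 1 := (pow_one Q).symm
    _ ≤ Q ^ 100 := Nat.pow_le_pow_right hQ (by norm_num)






end Pool.Agent.Lib.H24P
end

-- from Lib.H59P.V1A
section

/-!
# Project H59P, chunk V1a
-/

open Finset

namespace Pool.Agent.Lib.H59P

open Pool.Agent.Lib.H68T Pool.Agent.Lib.H18Q

/-- Slow variation over a distance less than `2 H`. Proof. Induction on the distance (`Cf.slow`),
both points in `[X, 4X]`. -/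
theorem V1a (Q X : ℕ) (B : ℤ → Ch → ℂ) (mb : Ch → ℝ) (hB : Cf Q X B mb) (m m' : ℤ)
    (hm : (X : ℤ) ≤ m) (hmm : m ≤ m') (hm' : m' ≤ 4 * X) (p : Ch) (hp : p ∈ PC Q) :
    ‖B m' p - B m p‖ ≤ (m' - m) * (2 * (Q : ℝ) ^ 3 / X) := by
  have hQ0 : (0 : ℝ) ≤ 2 * (Q : ℝ) ^ 3 / X := by positivity
  obtain ⟨d, rfl⟩ : ∃ d : ℕ, m' = m + d := ⟨(m' - m).toNat, by
    rw [Int.toNat_of_nonneg (by omega)]
    ring⟩
  clear hmm
  induction d with
  | zero => simp
  | succ d ih =>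
    have h1 := ih (by push_cast at hm'; omega)
    have h2 := hB.slow (m + d) (by omega) (by push_cast at hm'; omega) p hp
    have h3 : m + ((d + 1 : ℕ) : ℤ) = m + d + 1 := by push_cast; ring
    rw [h3]
    have h4 : B (m + d + 1) p - B m p = (B (m + d + 1) p - B (m + d) p) + (B (m + d) p - B m p) := by
      ring
    rw [h4]
    refine (norm_add_le _ _).trans ?_
    push_cast at h1 ⊢
    have h5 : ((m : ℝ) + d - m) = d := by ring
    have h6 : ((m : ℝ) + d + 1 - m) = d + 1 := by ring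
    rw [h5] at h1
    rw [h6]
    linarith

end Pool.Agent.Lib.H59P
end

-- from Lib.H59P.V1B
section

/-!
# Project H59P, chunk V1b
-/

open Finset

namespace Pool.Agent.Lib.H59P

open Pool.Agent.Lib.H68T Pool.Agent.Lib.H18Q

/-- difference of two products -/
theorem v1b_prod {ι : Type*} (s : Finset ι) (x y : ι → ℂ) (M : ι → ℝ) (δ : ℝ) (hδ : 0 ≤ δ)
    (hM : ∀ i, 0 ≤ M i) (hx : ∀ i ∈ s, ‖x i‖ ≤ M i) (hy : ∀ i ∈ s, ‖y i‖ ≤ M i)
    (hd : ∀ i ∈ s, ‖x i - y i‖ ≤ δ * M i) :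
    ‖∏ i ∈ s, x i - ∏ i ∈ s, y i‖ ≤ s.card * δ * ∏ i ∈ s, M i := by
  classical
  induction s using Finset.induction_on with
  | empty => simp
  | insert a s ha ih =>
    have ih' := ih (fun i hi => hx i (Finset.mem_insert_of_mem hi))
      (fun i hi => hy i (Finset.mem_insert_of_mem hi)) (fun i hi => hd i (Finset.mem_insert_of_mem hi))
    rw [Finset.prod_insert ha, Finset.prod_insert ha, Finset.prod_insert ha,
      Finset.card_insert_of_notMem ha]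
    have e1 : x a * ∏ i ∈ s, x i - y a * ∏ i ∈ s, y i =
        (x a - y a) * ∏ i ∈ s, x i + y a * (∏ i ∈ s, x i - ∏ i ∈ s, y i) := by ring
    rw [e1]
    have hP : ‖∏ i ∈ s, x i‖ ≤ ∏ i ∈ s, M i := by
      rw [norm_prod]
      exact Finset.prod_le_prod (fun i _ => norm_nonneg _)
        (fun i hi => hx i (Finset.mem_insert_of_mem hi))
    have hP0 : 0 ≤ ∏ i ∈ s, M i := Finset.prod_nonneg fun i _ => hM i
    have h1 := hd a (Finset.mem_insert_self a s)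
    have h2 := hy a (Finset.mem_insert_self a s)
    calc ‖(x a - y a) * ∏ i ∈ s, x i + y a * (∏ i ∈ s, x i - ∏ i ∈ s, y i)‖
        ≤ ‖x a - y a‖ * ‖∏ i ∈ s, x i‖ + ‖y a‖ * ‖∏ i ∈ s, x i - ∏ i ∈ s, y i‖ := by
          refine (norm_add_le _ _).trans ?_
          rw [norm_mul, norm_mul]
      _ ≤ (δ * M a) * ∏ i ∈ s, M i + M a * (s.card * δ * ∏ i ∈ s, M i) := by
          have hMa := hM a
          apply add_le_add
          · exact mul_le_mul h1 hP (norm_nonneg _) (by positivity)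
          · exact mul_le_mul h2 ih' (norm_nonneg _) hMa
      _ = ((s.card + 1 : ℕ) : ℝ) * δ * (M a * ∏ i ∈ s, M i) := by
          push_cast
          ring



end Pool.Agent.Lib.H59P
end

-- from Lib.H24P.V1A
section

/-!
# Project H24P, chunk V1A (M): freezing the coefficients of the random coordinates
-/

open Finset Polynomial

namespace Pool.Agent.Lib.H24P

open Pool.Agent.Lib.H68T Pool.Agent.Lib.H18Q Pool.Agent.Lib.H59P

theorem v1a_bs (H q m A : ℕ) (hH : 0 < H) (hA : A = H * q) (hm : m ∈ Ico A (2 * A)) :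
    bs H m ∈ Ico A (2 * A) ∧ bs H m ≤ m ∧ m < bs H m + H := by
  rw [Finset.mem_Ico] at hm ⊢
  have h1 : A ≤ bs H m := by
    unfold bs
    have h1 : q ≤ m / H := by
      rw [Nat.le_div_iff_mul_le hH]
      calc q * H = A := by rw [hA]; ring
        _ ≤ m := hm.1
    calc A = q * H := by rw [hA]; ring
      _ ≤ m / H * H := Nat.mul_le_mul_right _ h1
  have h2 : bs H m ≤ m := Nat.div_mul_le_self m H
  have h3 : m < bs H m + H := by
    unfold bs
    have h1 := Nat.div_add_mod' m H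
    have h2 := Nat.mod_lt m hH
    omega
  exact ⟨⟨h1, by omega⟩, h2, h3⟩

/-- slow variation, in both directions -/
theorem v1a_slow (Q Y : ℕ) (B : ℤ → Ch → ℂ) (mb : Ch → ℝ) (hB : Cf Q Y B mb) (m m' : ℤ)
    (hm : (Y : ℤ) ≤ m) (hm2 : m ≤ 4 * Y) (hm' : (Y : ℤ) ≤ m') (hm2' : m' ≤ 4 * Y) (p : Ch)
    (hp : p ∈ PC Q) : ‖B m' p - B m p‖ ≤ |(m' : ℝ) - m| * (2 * (Q : ℝ) ^ 3 / Y) := by
  rcases le_total m m' with h | h
  · have h1 := V1a Q Y B mb hB m m' hm h hm2' p hp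
    rw [abs_of_nonneg (sub_nonneg.2 (by exact_mod_cast h))]
    exact h1
  · have h1 := V1a Q Y B mb hB m' m hm' h hm2 p hp
    rw [norm_sub_rev, abs_sub_comm, abs_of_nonneg (sub_nonneg.2 (by exact_mod_cast h))]
    exact h1


end Pool.Agent.Lib.H24P
end

-- from Lib.H24P.V2
section

/-!
# Project H24P, chunk V2 (S/M): freezing the coefficients of the linear coordinate
-/

open Finset Polynomial

namespace Pool.Agent.Lib.H24P

open Pool.Agent.Lib.H68T Pool.Agent.Lib.H18Q Pool.Agent.Lib.H59P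

/-- The frozen linear coordinate: cells of length `X1/Q^800`. -/
noncomputable def gB (Q X1 : ℕ) (B : ℤ[X]) (C0 : ℤ → Ch → ℂ) (n : ℕ) : ℂ :=
  SG (Q ^ 100) (C0 (B.eval ((bs (X1 / Q ^ 800) n : ℕ) : ℤ))) (B.eval (n : ℤ))

theorem v2_slow (Q X : ℕ) (B : ℤ → Ch → ℂ) (mb : Ch → ℝ) (hB : Cf Q X B mb) (m m' : ℤ)
    (hm : (X : ℤ) ≤ m) (hm4 : m ≤ 4 * X) (hm' : (X : ℤ) ≤ m') (hm4' : m' ≤ 4 * X) (p : Ch)
    (hp : p ∈ PC Q) : ‖B m p - B m' p‖ ≤ |((m - m' : ℤ) : ℝ)| * (2 * (Q : ℝ) ^ 3 / X) := by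
  rcases le_total m m' with h | h
  · have h1 := V1a Q X B mb hB m m' hm h hm4' p hp
    have h2 : |((m - m' : ℤ) : ℝ)| = (m' : ℝ) - m := by
      rw [abs_of_nonpos]
      · push_cast
        ring
      · have : m - m' ≤ 0 := by linarith
        exact_mod_cast this
    rw [h2, ← norm_neg, neg_sub]
    exact h1
  · have h1 := V1a Q X B mb hB m' m hm' h hm4 p hp
    have h2 : |((m - m' : ℤ) : ℝ)| = (m : ℝ) - m' := by
      rw [abs_of_nonneg]
      · push_cast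
        ring
      · have : 0 ≤ m - m' := by linarith
        exact_mod_cast this
    rw [h2]
    exact h1

theorem v2_SG (Q : ℕ) (hQ : 1 ≤ Q) (b b' : Ch → ℂ) (D : ℝ) (hD : ∀ p ∈ PC Q, ‖b p - b' p‖ ≤ D)
    (hD0 : 0 ≤ D) (m : ℤ) :
    ‖SG Q b m - SG Q b' m‖ ≤ 100 * (1 + Real.log Q) ^ 3 * Q * ((Q : ℝ) ^ 2 * D) := by
  have h1 : SG Q b m - SG Q b' m = SG Q (fun p => b p - b' p) m := by
    unfold SG
    rw [← sum_sub_distrib]
    refine sum_congr rfl fun p _ => ?_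
    ring
  rw [h1]
  have h2 := S1b Q hQ (fun p => b p - b' p) (fun _ => D) hD m
  refine h2.trans ?_
  have h3 : dQ Q m ≤ Q := by
    unfold dQ
    have h4 : ((Icc 1 Q).filter (fun d : ℕ => (d : ℤ) ∣ m)).card ≤ Q := by
      refine (card_filter_le _ _).trans ?_
      simp
    exact_mod_cast h4
  have h4 : ∑ p ∈ PC Q, D ≤ (Q : ℝ) ^ 2 * D := by
    rw [sum_const, nsmul_eq_mul]
    refine mul_le_mul_of_nonneg_right ?_ hD0
    exact_mod_cast card_PC_le Q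
  have hl : 0 ≤ Real.log Q := Real.log_natCast_nonneg Q
  have h5 : 0 ≤ dQ Q m := by
    unfold dQ
    positivity
  have h6 : 0 ≤ ∑ p ∈ PC Q, D := sum_nonneg fun _ _ => hD0
  gcongr

/-- Proof. `Lk = SG (C0 (B n)) (B n)` (`Cf.eq`); by `S1b` of `H59P` for the difference of the coefficients the left side is
at most `100 (1+log Q^100)³ dQ (Q^100) (B n) ∑_p ‖…‖`; `dQ ≤ Q^100`, at most `Q^200` characters (`card_PC_le`), each
difference at most `|B(n) - B(bs n)| 2 Q^300/Y` (`V1a` of `H59P` in the right order; both arguments are in `[Y, 3Y)` as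
`bs n ∈ [X1, 2 X1)`: `Q^800 ∣ X1`), `|B(n) - B(bs n)| ≤ A X1/Q^800` and `X1 ≤ 2 Y`. Total
`400 A (1+log Q^100)³ Q^600/Q^800 ≤ Q^(-10)`. -/
theorem V2_pt (A : ℕ) : ∃ Q0 : ℕ, ∀ (Q X X1 Y : ℕ) (B : ℤ[X]) (C0 : ℤ → Ch → ℂ) (mb : Ch → ℝ),
    Q0 ≤ Q → Q ^ 800 ∣ X1 → GeoB A X X1 Y B → Cf (Q ^ 100) Y C0 mb → ∀ n ∈ Ico X1 (2 * X1),
    ‖((Lk (Q ^ 100) (Y / (Q ^ 100) ^ 2) (B.eval (n : ℤ)) : ℝ) : ℂ) - gB Q X1 B C0 n‖ ≤
      (Q : ℝ) ^ (-(10) : ℝ) := by
  refine ⟨400000000 * A + 1, ?_⟩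
  intro Q X X1 Y B C0 mb hQ hdvd hG hC n hn
  obtain ⟨hn1, hn2⟩ := mem_Ico.mp hn
  have hX1 : 0 < X1 := by omega
  have hQ1 : 1 ≤ Q := by omega
  obtain ⟨s0, hs0⟩ := hdvd
  have hQp : 0 < Q ^ 800 := pow_pos hQ1 _
  have hs : X1 / Q ^ 800 = s0 := by rw [hs0, Nat.mul_div_cancel_left _ hQp]
  have hs0p : 0 < s0 := by
    rcases Nat.eq_zero_or_pos s0 with h | h
    · rw [h, mul_zero] at hs0
      omega
    · exact h
  set b : ℕ := bs (X1 / Q ^ 800) n with hb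
  have hbn : b ≤ n := by
    rw [hb, hs]
    exact Nat.div_mul_le_self n s0
  have hnb : n - b < s0 := by
    rw [hb, hs]
    unfold bs
    have := Nat.mod_lt n hs0p
    have h2 := Nat.div_add_mod' n s0
    omega
  have hX1b : X1 ≤ b := by
    rw [hb, hs]
    unfold bs
    have h1 : Q ^ 800 ≤ n / s0 := by
      rw [Nat.le_div_iff_mul_le hs0p, ← hs0]
      exact hn1
    calc X1 = Q ^ 800 * s0 := hs0
      _ ≤ n / s0 * s0 := Nat.mul_le_mul_right _ h1
  have hbI : b ∈ Ico X1 (2 * X1) := mem_Ico.mpr ⟨hX1b, by omega⟩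
  have hYn := hG.lo n hn
  have hYn' := hG.hi n hn
  have hYb := hG.lo b hbI
  have hYb' := hG.hi b hbI
  have hY0 : 0 < Y := by
    have := hG.Ylo
    omega
  have hlin : B.eval (n : ℤ) - B.eval (b : ℤ) = B.coeff 1 * ((n : ℤ) - b) := by
    rw [eval_eq_sum_range, eval_eq_sum_range, hG.lin.deg, sum_range_succ, sum_range_one,
      sum_range_succ, sum_range_one]
    ring
  have hA : |B.coeff 1| ≤ A := by
    have h1 := hG.lin.lc
    unfold leadingCoeff at h1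
    rw [hG.lin.deg] at h1
    have h2 : ((B.coeff 1).natAbs : ℤ) ≤ A := by exact_mod_cast h1
    rwa [Int.natCast_natAbs] at h2
  have hdiff : |((B.eval (n : ℤ) - B.eval (b : ℤ) : ℤ) : ℝ)| ≤ A * s0 := by
    have h1 : |B.eval (n : ℤ) - B.eval (b : ℤ)| ≤ (A : ℤ) * s0 := by
      rw [hlin, abs_mul]
      refine mul_le_mul hA ?_ (abs_nonneg _) (by positivity)
      rw [abs_of_nonneg (by omega)]
      omega
    have h2 : ((|B.eval (n : ℤ) - B.eval (b : ℤ)| : ℤ) : ℝ) ≤ ((A : ℤ) * s0 : ℤ) := by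
      exact_mod_cast h1
    push_cast at h2 ⊢
    exact h2
  have hQ100 : 1 ≤ Q ^ 100 := Nat.one_le_pow _ _ hQ1
  have hYr : (0 : ℝ) < Y := by exact_mod_cast hY0
  have hQr : (1 : ℝ) ≤ Q := by exact_mod_cast hQ1
  have e1 : ((Lk (Q ^ 100) (Y / (Q ^ 100) ^ 2) (B.eval (n : ℤ)) : ℝ) : ℂ)
      = SG (Q ^ 100) (C0 (B.eval (n : ℤ))) (B.eval (n : ℤ)) := hC.eq _ hYn (by linarith)
  rw [e1]
  unfold gB
  have hD0 : (0 : ℝ) ≤ A * s0 * (2 * ((Q ^ 100 : ℕ) : ℝ) ^ 3 / Y) := by positivity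
  have h3 := v2_SG (Q ^ 100) hQ100 (C0 (B.eval (n : ℤ))) (C0 (B.eval (b : ℤ)))
    (A * s0 * (2 * ((Q ^ 100 : ℕ) : ℝ) ^ 3 / Y)) (fun p hp => by
      refine (v2_slow (Q ^ 100) Y C0 mb hC (B.eval (n : ℤ)) (B.eval (b : ℤ)) hYn (by linarith)
        hYb (by linarith) p hp).trans ?_
      exact mul_le_mul_of_nonneg_right hdiff (by positivity)) hD0 (B.eval (n : ℤ))
  refine h3.trans ?_
  have hlog : Real.log ((Q ^ 100 : ℕ) : ℝ) = 100 * Real.log Q := by
    rw [Nat.cast_pow, Real.log_pow]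
    norm_num
  rw [hlog]
  have hl0 : 0 ≤ Real.log Q := Real.log_natCast_nonneg Q
  have hl1 : 1 + 100 * Real.log Q ≤ 100 * Q := by
    have := Real.log_le_sub_one_of_pos (by linarith : (0 : ℝ) < Q)
    linarith
  have hl3 : (1 + 100 * Real.log Q) ^ 3 ≤ (100 * Q) ^ 3 :=
    pow_le_pow_left₀ (by linarith) hl1 3
  have hsY : (s0 : ℝ) * (Q : ℝ) ^ 800 ≤ 2 * Y := by
    have h1 : X1 ≤ 2 * Y := hG.Ylo
    have h2 : ((s0 * Q ^ 800 : ℕ) : ℝ) ≤ ((2 * Y : ℕ) : ℝ) := by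
      have : s0 * Q ^ 800 ≤ 2 * Y := by
        rw [mul_comm, ← hs0]
        exact h1
      exact_mod_cast this
    push_cast at h2
    exact h2
  have hAQ : 400000000 * (A : ℝ) ≤ Q := by
    have : 400000000 * A ≤ Q := by omega
    exact_mod_cast this
  have hrp : (Q : ℝ) ^ (-(10) : ℝ) = ((Q : ℝ) ^ 10)⁻¹ := by
    rw [Real.rpow_neg (by linarith), Real.rpow_ofNat]
  rw [hrp, ← one_div, le_div_iff₀ (by positivity)]
  have h7 : 100 * (1 + 100 * Real.log Q) ^ 3 * ((Q ^ 100 : ℕ) : ℝ) *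
      (((Q ^ 100 : ℕ) : ℝ) ^ 2 * (A * s0 * (2 * ((Q ^ 100 : ℕ) : ℝ) ^ 3 / Y))) * (Q : ℝ) ^ 10
      = 200 * (1 + 100 * Real.log Q) ^ 3 * A * ((Q : ℝ) ^ 610 * s0 / Y) := by
    push_cast
    ring
  rw [h7]
  have h8 : (Q : ℝ) ^ 610 * s0 / Y ≤ 2 / (Q : ℝ) ^ 190 := by
    rw [div_le_div_iff₀ hYr (by positivity)]
    have h11 : (Q : ℝ) ^ 610 * s0 * (Q : ℝ) ^ 190 = s0 * (Q : ℝ) ^ 800 := by ring
    rw [h11]
    exact hsY
  have h9 : 200 * (1 + 100 * Real.log Q) ^ 3 * A * ((Q : ℝ) ^ 610 * s0 / Y)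
      ≤ 200 * (100 * Q) ^ 3 * A * (2 / (Q : ℝ) ^ 190) := by
    gcongr
  refine h9.trans ?_
  have h10 : 200 * (100 * (Q : ℝ)) ^ 3 * A * (2 / (Q : ℝ) ^ 190)
      = 400000000 * (A : ℝ) * (Q : ℝ) ^ 3 / (Q : ℝ) ^ 190 := by ring
  rw [h10, div_le_one (by positivity)]
  calc 400000000 * (A : ℝ) * (Q : ℝ) ^ 3 ≤ Q * (Q : ℝ) ^ 3 :=
        mul_le_mul_of_nonneg_right hAQ (by positivity)
    _ = (Q : ℝ) ^ 4 := by ring
    _ ≤ (Q : ℝ) ^ 190 := pow_le_pow_right₀ hQr (by norm_num)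


end Pool.Agent.Lib.H24P
end

-- from Lib.H24P.P3
section

/-!
# Project H24P, chunk P3 (M): mean values over complete periods (port of H59P/M5A, M5B, M5)
-/

open Finset

namespace Pool.Agent.Lib.H24P

open Pool.Agent.Lib.H68T Pool.Agent.Lib.H18Q Pool.Agent.Lib.H59P

/-- the local factors at one prime -/
noncomputable def p3_g {k : ℕ} (φ : Fin k → ℤ → ℤ) (l : ℕ) (n : ℤ) : ℂ :=
  ∏ i, (((1 + gl l (φ i n) : ℝ)) : ℂ)

theorem p3_g_per {k : ℕ} (φ : Fin k → ℤ → ℤ) (hφ : Cp φ) (l N : ℕ) (h : l ∣ N) (n : ℤ) :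
    p3_g φ l (n + N) = p3_g φ l n := by
  unfold p3_g
  refine prod_congr rfl fun i _ => ?_
  rw [P2_gl φ hφ l N h]

theorem p3_g_sum {k : ℕ} (φ : Fin k → ℤ → ℤ) (l : ℕ) (hl : 0 < l) :
    ∑ n ∈ range l, p3_g φ l n = l * (((1 + tpf l φ : ℝ)) : ℂ) := by
  have hl0 : (l : ℂ) ≠ 0 := by exact_mod_cast hl.ne'
  unfold tpf p3_g
  push_cast
  field_simp
  ring

theorem p3_ph {k : ℕ} (p : Fin k → Ch) (A S : Finset ℕ) (hd : Disjoint A S) (φ : Fin k → ℤ → ℤ)
    (n : ℤ) :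
    Phf p (A ∪ S) (at' φ n) = Phf p A (at' φ n) * ∏ l ∈ S, p3_g φ l n := by
  unfold Phf p3_g uu at'
  rw [prod_comm (s := S), ← prod_mul_distrib]
  refine prod_congr rfl fun i _ => ?_
  rw [prod_union hd]
  push_cast
  ring

theorem p3_main {k : ℕ} (φ : Fin k → ℤ → ℤ) (hφ : Cp φ) (R : ℕ) (hR : 0 < R) (p : Fin k → Ch)
    (hd : ∀ i, (p i).1 ∣ R) (S : Finset ℕ) (hS : ∀ l ∈ S, l.Prime ∧ ¬ l ∣ R) :
    ∑ n ∈ range (R * ∏ l ∈ S, l), Phf p R.primeFactors (at' φ n) * ∏ l ∈ S, p3_g φ l n =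
      (∑ n ∈ range R, Phf p R.primeFactors (at' φ n)) * ∏ l ∈ S, (l * (((1 + tpf l φ : ℝ)) : ℂ)) := by
  induction S using Finset.induction_on with
  | empty => simp
  | insert l S hl ih =>
    have ih := ih fun q hq => hS q (mem_insert_of_mem hq)
    obtain ⟨hlp, hlR⟩ := hS l (mem_insert_self _ _)
    have hSpos : 0 < ∏ q ∈ S, q := prod_pos fun q hq => (hS q (mem_insert_of_mem hq)).1.pos
    have hco : Nat.Coprime (R * ∏ q ∈ S, q) l := by
      rw [Nat.coprime_comm, Nat.Prime.coprime_iff_not_dvd hlp]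
      intro hdvd
      rcases (Nat.Prime.dvd_mul hlp).1 hdvd with h1 | h1
      · exact hlR h1
      · obtain ⟨q, hq, hlq⟩ := (Prime.dvd_finsetProd_iff hlp.prime _).1 h1
        have := (Nat.prime_dvd_prime_iff_eq hlp (hS q (mem_insert_of_mem hq)).1).1 hlq
        exact hl (this ▸ hq)
    have e1 : R * ∏ q ∈ insert l S, q = (R * ∏ q ∈ S, q) * l := by
      rw [prod_insert hl]; ring
    have h3 := M3d (fun n => Phf p R.primeFactors (at' φ n) * ∏ q ∈ S, p3_g φ q n) (p3_g φ l)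
      (R * ∏ q ∈ S, q) l (Nat.mul_pos hR hSpos) hlp.pos hco (by
        intro m
        have a1 : Phf p R.primeFactors (at' φ (m + (R * ∏ q ∈ S, q : ℕ))) =
            Phf p R.primeFactors (at' φ m) :=
          P2_Ph φ hφ p R _ (Dvd.intro _ rfl) hd m
        have a2 : ∀ q ∈ S, p3_g φ q (m + (R * ∏ q ∈ S, q : ℕ)) = p3_g φ q m := by
          intro q hq
          exact p3_g_per φ hφ q _ ((Finset.dvd_prod_of_mem (fun q => q) hq).trans (dvd_mul_left _ _)) m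
        rw [a1, prod_congr rfl a2]) (p3_g_per φ hφ l l dvd_rfl)
    rw [e1, prod_insert hl]
    have e2 : ∑ n ∈ range (R * (∏ q ∈ S, q) * l),
        Phf p R.primeFactors (at' φ n) * ∏ q ∈ insert l S, p3_g φ q n =
        ∑ n ∈ range (R * (∏ q ∈ S, q) * l),
          (Phf p R.primeFactors (at' φ n) * ∏ q ∈ S, p3_g φ q n) * p3_g φ l n := by
      refine sum_congr rfl fun n _ => ?_
      rw [prod_insert hl]
      ring
    rw [e2, h3, ih, p3_g_sum φ l hlp.pos]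
    ring

/-- **M5.** The mean modulo `R` times the local factors at the other primes is the mean over `Q!`.

Proof. As `M5` in `H59P/M5A.lean` with `n + h_i` replaced by `φ i n`:
`Phf p (pr Q) (at' φ n) = Phf p R.primeFactors (at' φ n) * ∏_{l ∈ pr Q, l ∤ R} ∏_i (1 + gl l (φ i n))` (the prime
factors of `R` are at most `Q`, since `R ∣ Q!`). By `M3d` and induction over the primes `l` the sum over a
period `N = R ∏_{l ≤ Q, l ∤ R} l` is `R MRf p R φ ∏ l (1 + tpf l φ)`; `N` divides `Q!`, so the mean over `Q!` is the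
mean over `N` (full periods). -/
theorem P3_M5 {k : ℕ} (φ : Fin k → ℤ → ℤ) (hφ : Cp φ) (Q R : ℕ) (hR : 0 < R) (hRQ : R ∣ Q.factorial)
    (p : Fin k → Ch) (hd : ∀ i, (p i).1 ∣ R) :
    MRf p R φ * ((SSf ((pr Q).filter (fun l => ¬ l ∣ R)) φ : ℝ) : ℂ) = MQf Q p φ := by
  obtain ⟨S, hSdef⟩ : ∃ S, S = (pr Q).filter (fun l => ¬ l ∣ R) := ⟨_, rfl⟩
  rw [← hSdef]
  have hS : ∀ l ∈ S, (l ≤ Q ∧ l.Prime) ∧ ¬ l ∣ R := by
    intro l hl
    rw [hSdef, mem_filter, pr, mem_filter, mem_Icc] at hl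
    exact ⟨⟨hl.1.1.2, hl.1.2⟩, hl.2⟩
  have hSpos : 0 < ∏ q ∈ S, q := prod_pos fun q hq => (hS q hq).1.2.pos
  have hdisj : Disjoint R.primeFactors S := by
    rw [disjoint_left]
    intro l h1 h2
    exact (hS l h2).2 (Nat.dvd_of_mem_primeFactors h1)
  have hunion : R.primeFactors ∪ S = pr Q := by
    ext l
    rw [mem_union, hSdef, mem_filter, Nat.mem_primeFactors]
    constructor
    · rintro (⟨h1, h2, -⟩ | h1)
      · rw [pr, mem_filter, mem_Icc]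
        exact ⟨⟨h1.one_le, (Nat.Prime.dvd_factorial h1).1 (h2.trans hRQ)⟩, h1⟩
      · exact h1.1
    · intro h1
      by_cases h2 : l ∣ R
      · left
        rw [pr, mem_filter] at h1
        exact ⟨h1.2, h2, hR.ne'⟩
      · exact Or.inr ⟨h1, h2⟩
  have hper : ∀ m : ℤ, Phf p (pr Q) (at' φ (m + (R * ∏ q ∈ S, q : ℕ))) = Phf p (pr Q) (at' φ m) := by
    intro m
    rw [← hunion, p3_ph p _ _ hdisj, p3_ph p _ _ hdisj,
      P2_Ph φ hφ p R _ (Dvd.intro _ rfl) hd m]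
    congr 1
    refine prod_congr rfl fun q hq => ?_
    exact p3_g_per φ hφ q _ ((Finset.dvd_prod_of_mem (fun q => q) hq).trans (dvd_mul_left _ _)) m
  have hcop : Nat.Coprime R (∏ q ∈ S, q) := by
    apply Nat.Coprime.prod_right
    intro q hq
    rw [Nat.coprime_comm, Nat.Prime.coprime_iff_not_dvd (hS q hq).1.2]
    exact (hS q hq).2
  have hdvdN : R * ∏ q ∈ S, q ∣ Q.factorial := by
    apply hcop.mul_dvd_of_dvd_of_dvd hRQ
    apply Finset.prod_primes_dvd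
    · intro q hq
      exact (hS q hq).1.2.prime
    · intro q hq
      exact (Nat.Prime.dvd_factorial (hS q hq).1.2).2 (hS q hq).1.1
  obtain ⟨j, hj⟩ := hdvdN
  have hfac : 0 < Q.factorial := Nat.factorial_pos Q
  have hj0 : 0 < j := by
    rcases Nat.eq_zero_or_pos j with rfl | h1
    · rw [mul_zero] at hj
      omega
    · exact h1
  have hsum : ∑ n ∈ range (R * ∏ l ∈ S, l), Phf p (pr Q) (at' φ n) =
      (∑ n ∈ range R, Phf p R.primeFactors (at' φ n)) *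
        ∏ l ∈ S, (l * (((1 + tpf l φ : ℝ)) : ℂ)) := by
    rw [← p3_main φ hφ R hR p hd S fun l hl => ⟨(hS l hl).1.2, (hS l hl).2⟩]
    refine sum_congr rfl fun n _ => ?_
    rw [← hunion, p3_ph p _ _ hdisj]
  have hfull := m5a_full (fun n => Phf p (pr Q) (at' φ n)) _ hper j
  unfold MQf MRf SSf
  rw [hj, hfull, hsum, prod_mul_distrib]
  have r0 : (R : ℂ) ≠ 0 := by exact_mod_cast hR.ne'
  have j0 : (j : ℂ) ≠ 0 := by exact_mod_cast hj0.ne'
  have s0 : (∏ l ∈ S, (l : ℂ)) ≠ 0 := by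
    rw [← Nat.cast_prod]
    exact_mod_cast hSpos.ne'
  push_cast
  field_simp

theorem p3_ph0 {k : ℕ} (m : Fin k → ℤ) : Phf (fun _ => p0) ∅ m = 1 := by
  unfold Phf uu
  refine prod_eq_one fun i _ => ?_
  rw [m5b_cj]
  simp

/-- Proof. As `M5_SS`: `P3_M5` with `R = 1` and the trivial characters (`cj p0 m = 1`), or directly. -/
theorem P3_SS {k : ℕ} (φ : Fin k → ℤ → ℤ) (hφ : Cp φ) (Q : ℕ) :
    (∑ n ∈ range Q.factorial, ∏ i, uu (pr Q) (φ i n)) / (Q.factorial : ℝ) = SSf (pr Q) φ := by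
  have h1 := P3_M5 φ hφ Q 1 one_pos (one_dvd _) (fun _ : Fin k => p0) (fun _ => one_dvd _)
  have h2 : (pr Q).filter (fun l => ¬ l ∣ 1) = pr Q := by
    refine Finset.filter_true_of_mem fun l hl h => ?_
    rw [pr, mem_filter] at hl
    exact hl.2.one_lt.ne' (Nat.dvd_one.1 h)
  have h3 : MRf (fun _ : Fin k => p0) 1 φ = 1 := by
    unfold MRf
    rw [Nat.primeFactors_one, Finset.sum_range_one, p3_ph0]
    simp
  rw [h2, h3, one_mul] at h1
  have h4 : MQf Q (fun _ : Fin k => p0) φ =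
      (((∑ n ∈ range Q.factorial, ∏ i, uu (pr Q) (φ i n)) / (Q.factorial : ℝ) : ℝ) : ℂ) := by
    unfold MQf Phf at'
    push_cast
    congr 1
    refine Finset.sum_congr rfl fun n _ => Finset.prod_congr rfl fun i _ => ?_
    rw [m5b_cj, one_mul]
  rw [h4] at h1
  exact (Complex.ofReal_injective h1).symm

/-- Proof. As `M5_loc` in `H59P/M5B.lean`. -/
theorem P3_loc {k : ℕ} (φ : Fin k → ℤ → ℤ) (hφ : Cp φ) (R : ℕ) (hR : 0 < R) :
    MRf (fun _ => p0) R φ = ((SSf R.primeFactors φ : ℝ) : ℂ) := by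
  have hp1 : ∀ l ∈ R.primeFactors, l.Prime ∧ ¬ l ∣ 1 := by
    intro l hl
    have h1 := Nat.prime_of_mem_primeFactors hl
    exact ⟨h1, fun h2 => h1.one_lt.ne' (Nat.dvd_one.1 h2)⟩
  have hpos : 0 < ∏ l ∈ R.primeFactors, l := prod_pos fun q hq => (hp1 q hq).1.pos
  have hPh : ∀ n : ℤ, Phf (fun _ : Fin k => p0) R.primeFactors (at' φ n) =
      ∏ l ∈ R.primeFactors, p3_g φ l n := by
    intro n
    have h1 := p3_ph (fun _ : Fin k => p0) ∅ R.primeFactors (disjoint_empty_left _) φ n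
    rw [empty_union, p3_ph0, one_mul] at h1
    exact h1
  have hmain := p3_main φ hφ 1 one_pos (fun _ : Fin k => p0) (fun _ => one_dvd _) R.primeFactors hp1
  rw [one_mul, Nat.primeFactors_one] at hmain
  have hone : ∑ n ∈ range 1, Phf (fun _ : Fin k => p0) ∅ (at' φ n) = 1 := by
    rw [sum_range_one]
    exact p3_ph0 _
  rw [hone, one_mul] at hmain
  have hmain2 : ∑ n ∈ range (∏ l ∈ R.primeFactors, l),
      Phf (fun _ : Fin k => p0) R.primeFactors (at' φ n) =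
      ∏ l ∈ R.primeFactors, (l * (((1 + tpf l φ : ℝ)) : ℂ)) := by
    rw [← hmain]
    refine sum_congr rfl fun n _ => ?_
    rw [hPh, p3_ph0, one_mul]
  have hper : ∀ m : ℤ, Phf (fun _ : Fin k => p0) R.primeFactors
      (at' φ (m + (∏ l ∈ R.primeFactors, l : ℕ))) =
      Phf (fun _ : Fin k => p0) R.primeFactors (at' φ m) := by
    intro m
    rw [hPh, hPh]
    refine prod_congr rfl fun q hq => ?_
    exact p3_g_per φ hφ q _ (Finset.dvd_prod_of_mem (fun q => q) hq) m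
  obtain ⟨j, hj⟩ := Nat.prod_primeFactors_dvd R
  have hj0 : 0 < j := by
    rcases Nat.eq_zero_or_pos j with rfl | h1
    · rw [mul_zero] at hj
      omega
    · exact h1
  have hsum : ∑ n ∈ range R, Phf (fun _ : Fin k => p0) R.primeFactors (at' φ n) =
      j * ∏ l ∈ R.primeFactors, (l * (((1 + tpf l φ : ℝ)) : ℂ)) := by
    have h1 := m5a_full (fun n => Phf (fun _ : Fin k => p0) R.primeFactors (at' φ n)) _ hper j
    rw [← hj, hmain2] at h1
    exact h1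
  have hRc : (R : ℂ) = (∏ l ∈ R.primeFactors, (l : ℂ)) * j := by
    have h1 : ((R : ℕ) : ℂ) = (((∏ l ∈ R.primeFactors, l) * j : ℕ) : ℂ) := by rw [← hj]
    rw [h1]
    push_cast
    rfl
  have hR0 : (R : ℂ) ≠ 0 := by exact_mod_cast hR.ne'
  unfold MRf SSf
  rw [hsum, prod_mul_distrib, div_eq_iff hR0, hRc]
  push_cast
  ring

end Pool.Agent.Lib.H24P
end

-- from Lib.H59P.C3A
section

/-!
# Project H59P, chunk C3a
-/

open Finset

namespace Pool.Agent.Lib.H59P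

open Pool.Agent.Lib.H68T Pool.Agent.Lib.H18Q

/-- A real character has real values `-1, 0, 1`. Proof. `ψ ^ 2 = 1`; compare `XDA_real` in `H68X`. -/
theorem C3a (px : Ch) (hreal : px.2 ^ 2 = 1) (m : ℤ) :
    cj px m = ((cj px m).re : ℂ) ∧ |(cj px m).re| ≤ 1 := by
  unfold cj
  by_cases ha : IsUnit (m : ZMod px.1)
  · have h1 : (px.2 (m : ZMod px.1)) ^ 2 = 1 := by
      rw [← MulChar.pow_apply' px.2 (by norm_num : (2:ℕ) ≠ 0) _, hreal, MulChar.one_apply ha]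
    have h2 : (px.2 (m : ZMod px.1) - 1) * (px.2 (m : ZMod px.1) + 1) = 0 := by
      have : (px.2 (m : ZMod px.1) - 1) * (px.2 (m : ZMod px.1) + 1) = (px.2 (m : ZMod px.1)) ^ 2 - 1 := by ring
      rw [this, h1, sub_self]
    rcases mul_eq_zero.mp h2 with h3 | h3
    · have : px.2 (m : ZMod px.1) = 1 := by linear_combination h3
      rw [this, map_one]
      simp
    · have : px.2 (m : ZMod px.1) = -1 := by linear_combination h3
      rw [this, map_neg, map_one]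
      simp
  · rw [MulChar.map_nonunit px.2 ha, map_zero]
    simp

end Pool.Agent.Lib.H59P
end

-- from Lib.H24P.P5
section

/-!
# Project H24P, chunk P5 (M): lower bounds for the main term (port of H59P/X2A, X2)
-/

open Finset

namespace Pool.Agent.Lib.H24P

open Pool.Agent.Lib.H68T Pool.Agent.Lib.H18Q Pool.Agent.Lib.H59P

/-- The expansion of the main term (port of `X2a`). -/
theorem p5_X2a {k : ℕ} (φ : Fin k → ℤ → ℤ) (hφ : Cp φ) (Q : ℕ) (px : Ch) (hpx : px ∈ PC Q)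
    (hreal : px.2 ^ 2 = 1) (th : Fin k → ℝ) :
    ((PMf Q px th φ : ℝ) : ℂ) = ∑ B ∈ (univ : Finset (Fin k)).powerset,
      ((∏ i ∈ B, -(th i) : ℝ) : ℂ) * (MRf (pB px B) px.1 φ *
        ((SSf ((pr Q).filter (fun l => ¬ l ∣ px.1)) φ : ℝ) : ℂ)) := by
  classical
  obtain ⟨hr1, hrQ, hprim⟩ := mem_PC.1 hpx
  have h1 : ∀ B : Finset (Fin k), MRf (pB px B) px.1 φ *
        ((SSf ((pr Q).filter (fun l => ¬ l ∣ px.1)) φ : ℝ) : ℂ) = MQf Q (pB px B) φ := by
    intro B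
    refine P3_M5 φ hφ Q px.1 (by omega) (Nat.dvd_factorial (by omega) hrQ) (pB px B) ?_
    intro i
    unfold pB
    split_ifs
    · exact dvd_rfl
    · exact one_dvd _
  rw [sum_congr rfl fun B _ => by rw [h1 B]]
  have h2 : ∀ n : ℤ, ((fPf Q px th (at' φ n) : ℝ) : ℂ) = ∑ B ∈ (univ : Finset (Fin k)).powerset,
      ((∏ i ∈ B, -(th i) : ℝ) : ℂ) * Phf (pB px B) (pr Q) (at' φ n) := by
    intro n
    unfold fPf at'
    rw [Complex.ofReal_prod]
    have e1 : ∀ i : Fin k, ((uu (pr Q) (φ i n) * (1 - th i * (cj px (φ i n)).re) : ℝ) : ℂ) =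
        ((uu (pr Q) (φ i n) : ℝ) : ℂ) * ((((-(th i) : ℝ)) : ℂ) * cj px (φ i n) + 1) := by
      intro i
      push_cast
      rw [← (C3a px hreal (φ i n)).1]
      ring
    rw [prod_congr rfl fun i _ => e1 i, prod_mul_distrib, Finset.prod_add, mul_sum]
    refine sum_congr rfl fun B hB => ?_
    unfold Phf
    rw [prod_mul_distrib, prod_mul_distrib, prod_const_one, mul_one, Complex.ofReal_prod]
    have e2 : ∏ i, cj (pB px B i) (φ i n) = ∏ i ∈ B, cj px (φ i n) := by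
      rw [← prod_subset (subset_univ B)]
      · refine prod_congr rfl fun i hi => ?_
        unfold pB
        rw [if_pos hi]
      · intro i _ hi
        unfold pB
        rw [if_neg hi, m5b_cj]
    rw [e2]
    ring
  unfold PMf MQf
  rw [Complex.ofReal_div, Complex.ofReal_sum, sum_congr rfl fun (n : ℕ) _ => h2 (n : ℤ), sum_comm,
    sum_div]
  refine sum_congr rfl fun B _ => ?_
  rw [← mul_sum, mul_div_assoc]
  norm_cast

theorem p5_mem_pr {Q l : ℕ} : l ∈ pr Q ↔ l.Prime ∧ l ≤ Q := by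
  unfold pr
  rw [Finset.mem_filter, Finset.mem_Icc]
  constructor
  · rintro ⟨⟨_, h2⟩, h3⟩
    exact ⟨h3, h2⟩
  · rintro ⟨h1, h2⟩
    exact ⟨⟨h1.one_lt.le, h2⟩, h1⟩

theorem p5_SS_nonneg {k : ℕ} (P : Finset ℕ) (hP : ∀ l ∈ P, l.Prime) (φ : Fin k → ℤ → ℤ) :
    0 ≤ SSf P φ :=
  Finset.prod_nonneg fun l hl => (P0_tp l (hP l hl) φ).1

/-- Proof. As `X2a`, `X2` in `H59P`: with `n + h_i` replaced by `φ i n`; `pB` is in `H59P/X1.lean`; `M5` is `P3_M5`
(`R = px.1`, `px.1 ∣ Q!` as `1 ≤ px.1 ≤ Q`), `M5_loc` is `P3_loc`. -/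
theorem P5_X2 {k : ℕ} (φ : Fin k → ℤ → ℤ) (hφ : Cp φ) (Q : ℕ) (px : Ch) (hpx : px ∈ PC Q)
    (hreal : px.2 ^ 2 = 1) (th : Fin k → ℝ) (hth0 : ∀ i, 0 ≤ th i) (hth : ∀ i, th i ≤ 1)
    (hm : ∀ B : Finset (Fin k), B.Nonempty →
      2 ^ (k + 1) * ‖MRf (pB px B) px.1 φ‖ ≤ SSf px.1.primeFactors φ) :
    1 / 2 * SSf (pr Q) φ ≤ PMf Q px th φ := by
  classical
  have hpc := mem_PC.mp hpx
  have hr : 0 < px.1 := hpc.1
  set S : ℝ := SSf px.1.primeFactors φ with hS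
  set S' : ℝ := SSf ((pr Q).filter (fun l => ¬ l ∣ px.1)) φ with hS'
  have hS0 : 0 ≤ S := p5_SS_nonneg _ (fun l hl => Nat.prime_of_mem_primeFactors hl) φ
  have hS'0 : 0 ≤ S' := p5_SS_nonneg _ (fun l hl => (p5_mem_pr.mp (Finset.mem_filter.mp hl).1).1) φ
  have hsplit : SSf (pr Q) φ = S * S' := by
    have h1 : (pr Q).filter (fun l => l ∣ px.1) = px.1.primeFactors := by
      ext l
      rw [Finset.mem_filter, p5_mem_pr, Nat.mem_primeFactors]
      constructor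
      · rintro ⟨⟨h1, _⟩, h3⟩
        exact ⟨h1, h3, hr.ne'⟩
      · rintro ⟨h1, h3, _⟩
        exact ⟨⟨h1, (Nat.le_of_dvd hr h3).trans hpc.2.1⟩, h3⟩
    rw [hS, hS', ← h1]
    unfold SSf
    exact (Finset.prod_filter_mul_prod_filter_not (pr Q) (fun l => l ∣ px.1)
      (fun l => 1 + tpf l φ)).symm
  have hempty : MRf (pB px (∅ : Finset (Fin k))) px.1 φ = ((S : ℝ) : ℂ) := by
    have h1 : (pB px (∅ : Finset (Fin k))) = fun _ => p0 := by
      funext i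
      simp [pB]
    rw [h1]
    exact P3_loc φ hφ px.1 hr
  have hX := p5_X2a φ hφ Q px hpx hreal th
  -- take real parts
  set E : Finset (Fin k) → ℂ := fun B => ((∏ i ∈ B, -(th i) : ℝ) : ℂ) * MRf (pB px B) px.1 φ with hE
  have hX' : ((PMf Q px th φ : ℝ) : ℂ) = (∑ B ∈ (univ : Finset (Fin k)).powerset, E B) * (S' : ℂ) := by
    rw [hX, Finset.sum_mul]
    refine Finset.sum_congr rfl fun B _ => ?_
    simp only [hE]
    ring
  have hne : (∅ : Finset (Fin k)) ∈ (univ : Finset (Fin k)).powerset := by simp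
  rw [← Finset.add_sum_erase _ E hne] at hX'
  have hE0 : E ∅ = ((S : ℝ) : ℂ) := by
    simp only [hE, Finset.prod_empty, hempty]
    simp
  rw [hE0] at hX'
  have hre : PMf Q px th φ = (S + (∑ B ∈ (univ : Finset (Fin k)).powerset.erase ∅, E B).re) * S' := by
    have h1 := congrArg Complex.re hX'
    rw [Complex.ofReal_re, Complex.re_mul_ofReal, Complex.add_re, Complex.ofReal_re] at h1
    exact h1
  have hbound : ‖∑ B ∈ (univ : Finset (Fin k)).powerset.erase ∅, E B‖ ≤ S / 2 := by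
    refine (norm_sum_le _ _).trans ?_
    have h1 : ∀ B ∈ (univ : Finset (Fin k)).powerset.erase ∅, ‖E B‖ ≤ S / 2 ^ (k + 1) := by
      intro B hB
      have hBn : B.Nonempty := Finset.nonempty_iff_ne_empty.mpr (Finset.mem_erase.mp hB).1
      simp only [hE]
      rw [norm_mul, Complex.norm_real]
      have h2 : ‖(∏ i ∈ B, -(th i) : ℝ)‖ ≤ 1 := by
        rw [norm_prod]
        refine Finset.prod_le_one (fun i _ => norm_nonneg _) fun i _ => ?_
        rw [norm_neg, Real.norm_eq_abs, abs_of_nonneg (hth0 i)]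
        exact hth i
      have h3 := hm B hBn
      have h4 : ‖MRf (pB px B) px.1 φ‖ ≤ S / 2 ^ (k + 1) := by
        rw [le_div_iff₀ (by positivity), mul_comm]
        exact h3
      calc ‖(∏ i ∈ B, -(th i) : ℝ)‖ * ‖MRf (pB px B) px.1 φ‖ ≤ 1 * ‖MRf (pB px B) px.1 φ‖ :=
            mul_le_mul_of_nonneg_right h2 (norm_nonneg _)
        _ ≤ S / 2 ^ (k + 1) := by rw [one_mul]; exact h4
    refine (Finset.sum_le_sum h1).trans ?_
    rw [Finset.sum_const, nsmul_eq_mul]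
    have h5 : (((univ : Finset (Fin k)).powerset.erase ∅).card : ℝ) ≤ 2 ^ k := by
      have h6 : ((univ : Finset (Fin k)).powerset.erase ∅).card ≤
          (univ : Finset (Fin k)).powerset.card := Finset.card_erase_le
      rw [Finset.card_powerset, Finset.card_univ, Fintype.card_fin] at h6
      exact_mod_cast h6
    have h7 : 0 ≤ S / 2 ^ (k + 1) := by positivity
    calc (((univ : Finset (Fin k)).powerset.erase ∅).card : ℝ) * (S / 2 ^ (k + 1))
        ≤ 2 ^ k * (S / 2 ^ (k + 1)) := mul_le_mul_of_nonneg_right h5 h7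
      _ = S / 2 := by rw [pow_succ]; field_simp
  have hre2 : -(S / 2) ≤ (∑ B ∈ (univ : Finset (Fin k)).powerset.erase ∅, E B).re := by
    have h1 := Complex.abs_re_le_norm (∑ B ∈ (univ : Finset (Fin k)).powerset.erase ∅, E B)
    have h2 := (abs_le.mp (h1.trans hbound)).1
    exact h2
  rw [hre, hsplit]
  have h3 : S / 2 * S' ≤
      (S + (∑ B ∈ (univ : Finset (Fin k)).powerset.erase ∅, E B).re) * S' :=
    mul_le_mul_of_nonneg_right (by linarith) hS'0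
  linarith

/-- Proof. `1 - th_i ψ ≥ 1 - th_i ≥ η` (`|ψ| ≤ 1`: `C3a`), `uu ≥ 0` (`M3a_uu_nonneg`), so
`fPf ≥ η^k ∏ uu` pointwise; `P3_SS`. -/
theorem P5_eta {k : ℕ} (φ : Fin k → ℤ → ℤ) (hφ : Cp φ) (Q : ℕ) (px : Ch) (hreal : px.2 ^ 2 = 1)
    (η : ℝ) (hη : 0 ≤ η) (th : Fin k → ℝ) (hth0 : ∀ i, 0 ≤ th i) (hth : ∀ i, th i ≤ 1 - η) :
    η ^ k * SSf (pr Q) φ ≤ PMf Q px th φ := by
  have hQ0 : (0 : ℝ) < (Q.factorial : ℝ) := by exact_mod_cast Nat.factorial_pos Q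
  rw [← P3_SS φ hφ Q]
  unfold PMf
  rw [mul_div_assoc']
  refine div_le_div_of_nonneg_right ?_ hQ0.le
  rw [Finset.mul_sum]
  refine Finset.sum_le_sum fun n _ => ?_
  unfold fPf at'
  have h1 : η ^ k = ∏ _i : Fin k, η := by
    rw [Finset.prod_const, Finset.card_univ, Fintype.card_fin]
  rw [h1, ← Finset.prod_mul_distrib]
  refine Finset.prod_le_prod (fun i _ => ?_) (fun i _ => ?_)
  · exact mul_nonneg hη (M3a_uu_nonneg _ (fun l hl => (p5_mem_pr.1 hl).1) _)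
  · rw [mul_comm]
    refine mul_le_mul_of_nonneg_left ?_ (M3a_uu_nonneg _ (fun l hl => (p5_mem_pr.1 hl).1) _)
    have h2 := (abs_le.mp (C3a px hreal (φ i n)).2).2
    have h3 := mul_le_mul_of_nonneg_left h2 (hth0 i)
    have h4 := hth i
    linarith

end Pool.Agent.Lib.H24P
end

-- from Lib.H59P.C3
section

/-!
# Project H59P, chunk C3
-/

open Finset

namespace Pool.Agent.Lib.H59P

open Pool.Agent.Lib.H68T Pool.Agent.Lib.H18Q

theorem c3_cj_p0 (m : ℤ) : cj p0 m = 1 := by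
  unfold cj p0
  have h : IsUnit ((m : ℤ) : ZMod 1) := isUnit_of_subsingleton _
  rw [MulChar.one_apply h, map_one]

theorem c3_cj_norm (p : Ch) (m : ℤ) : ‖cj p m‖ ≤ 1 := by
  unfold cj
  rw [RCLike.norm_conj]
  exact DirichletCharacter.norm_le_one _ _


theorem c3_sumA (Q : ℕ) (hQ : 1 ≤ Q) (px : Ch) (hpx : px ∈ PC Q) (t : ℝ) (htriv : px = p0 → t = 0)
    (hreal : px.2 ^ 2 = 1) (m : ℤ) :
    ∑ p ∈ PC Q, MX px (fun _ => t) 0 p * cj p m = ((1 - t * (cj px m).re : ℝ) : ℂ) := by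
  classical
  by_cases hp : px = p0
  · have ht := htriv hp
    rw [Finset.sum_eq_single p0]
    · simp [MX, c3_cj_p0, ht]
    · intro p _ hne
      have h0 : MX px (fun _ => t) 0 p = 0 := by
        simp only [MX]
        rw [if_neg hne, if_neg (by rw [hp]; exact hne)]
      rw [h0, zero_mul]
    · intro h
      exact absurd (p0_mem hQ) h
  · have hsub : ({p0, px} : Finset Ch) ⊆ PC Q := by
      intro p h
      rw [Finset.mem_insert, Finset.mem_singleton] at h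
      rcases h with h | h
      · rw [h]; exact p0_mem hQ
      · rw [h]; exact hpx
    rw [← Finset.sum_subset hsub]
    · rw [Finset.sum_pair (Ne.symm hp)]
      have e1 : MX px (fun _ => t) 0 p0 = 1 := by simp [MX]
      have e2 : MX px (fun _ => t) 0 px = -((t : ℝ) : ℂ) := by simp [MX, hp]
      rw [e1, e2, c3_cj_p0]
      have e3 := (C3a px hreal m).1
      rw [e3]
      push_cast
      simp
      ring
    · intro p _ hne
      rw [Finset.mem_insert, Finset.mem_singleton, not_or] at hne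
      have h0 : MX px (fun _ => t) 0 p = 0 := by
        simp only [MX]
        rw [if_neg hne.1, if_neg hne.2]
      rw [h0, zero_mul]


theorem c3_pr (Q : ℕ) : ∀ l ∈ pr Q, l.Prime := fun l hl => (Finset.mem_filter.mp hl).2


end Pool.Agent.Lib.H59P
end

-- from Lib.H24P.X1A
section

/-!
# Project H24P, chunk X1A (M): a twisted mean value with a random coordinate twisted
-/

open Finset Polynomial

namespace Pool.Agent.Lib.H24P

open Pool.Agent.Lib.H68T Pool.Agent.Lib.H18Q Pool.Agent.Lib.H59P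

/-- The set of the `κ` for the level `r`: `κ i = 1` at twisted coordinates, a divisor of the radical of `r` at the others.
(Chunks X1A, X1B.) -/
noncomputable def KT {k : ℕ} (px : Ch) (Bs : Finset (Fin k)) : Finset (Fin k → ℕ) :=
  open Classical in Fintype.piFinset fun i =>
    if i ∈ Bs then {1} else (∏ l ∈ px.1.primeFactors, l).divisors

theorem x1a_SD1 (r : ℕ) (hr : 1 ≤ r) : SD r r = {1} := by
  classical
  ext s
  rw [SD, Finset.mem_filter, Finset.mem_singleton, Nat.mem_divisors]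
  constructor
  · rintro ⟨⟨h1, _⟩, _, h3⟩
    exact Nat.Coprime.eq_one_of_dvd h3 h1
  · rintro rfl
    exact ⟨⟨one_dvd _, by omega⟩, squarefree_one, Nat.coprime_one_left r⟩

theorem x1a_rad (r : ℕ) : Squarefree (∏ l ∈ r.primeFactors, l) := by
  rw [← Nat.radical_eq_prod_primeFactors]
  exact UniqueFactorizationMonoid.squarefree_radical

theorem x1a_SD2 (r : ℕ) (hr : 1 ≤ r) : SD r 1 = (∏ l ∈ r.primeFactors, l).divisors := by
  classical
  ext s
  rw [SD, Finset.mem_filter, Nat.mem_divisors, Nat.mem_divisors]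
  constructor
  · rintro ⟨⟨h1, _⟩, h2, _⟩
    refine ⟨?_, (x1a_rad r).ne_zero⟩
    rw [← Nat.prod_primeFactors_of_squarefree h2]
    exact Finset.prod_dvd_prod_of_subset _ _ _ (Nat.primeFactors_mono h1 (by omega))
  · rintro ⟨h1, _⟩
    exact ⟨⟨h1.trans (Nat.prod_primeFactors_dvd r), by omega⟩, (x1a_rad r).squarefree_of_dvd h1,
      Nat.coprime_one_right s⟩

/-- Proof. `r = px.1`. For `i ∈ Bs`: `cj px m uu r.primeFactors m = gk px 1 m` (both are
`(r/φ(r)) cj px m`: if `cj px m ≠ 0` then `m` is coprime to `r`: `x1_uu_unit`; `gk` with `κ = 1`: `M2a` of `H59P` or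
`B1_SD` with `N = r`, `SD r r = {1}`). For `i ∉ Bs`: `uu r.primeFactors m = ∑_{κ ∣ rad r} gk p0 κ m` (`B1_SD` with `p = p0`,
`N = r` or directly `Finset.prod_one_add`-type expansion, `M2a`). `Finset.prod_univ_sum`. -/
theorem X1A_expand {k : ℕ} (Q : ℕ) (px : Ch) (hpx : px ∈ PC Q) (Bs : Finset (Fin k)) (m : Fin k → ℤ) :
    ∏ i, (cj (pB px Bs i) (m i) * ((uu px.1.primeFactors (m i) : ℝ) : ℂ)) =
      ∑ κ ∈ KT px Bs, ∏ i, gk (pB px Bs i) (κ i) (m i) := by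
  classical
  obtain ⟨hr1, -, -⟩ := mem_PC.1 hpx
  unfold KT
  refine Eq.trans ?_ (Finset.prod_univ_sum (fun i : Fin k => if i ∈ Bs then ({1} : Finset ℕ) else
    (∏ l ∈ px.1.primeFactors, l).divisors) (fun i κ => gk (pB px Bs i) κ (m i)))
  refine Finset.prod_congr rfl fun i _ => ?_
  by_cases hi : i ∈ Bs
  · have hp : pB px Bs i = px := by
      unfold pB
      rw [if_pos hi]
    rw [if_pos hi, hp, ← B1_SD px.1 hr1 px dvd_rfl (m i), x1a_SD1 px.1 hr1]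
  · have hp : pB px Bs i = p0 := by
      unfold pB
      rw [if_neg hi]
    rw [if_neg hi, hp, ← B1_SD px.1 hr1 p0 (one_dvd _) (m i)]
    have h0 : (p0 : Ch).1 = 1 := rfl
    rw [h0, x1a_SD2 px.1 hr1]

/-- `KT` at the level `r`. Proof. `KS r r = {1}`, `KS r 1` = the squarefree numbers up to `r`; divisors of the radical of
`r` are squarefree and at most `r`. -/
theorem X1A_sub {k : ℕ} (Q : ℕ) (px : Ch) (hpx : px ∈ PC Q) (Bs : Finset (Fin k)) :
    KT px Bs ⊆ Fintype.piFinset (fun i => KS px.1 (pB px Bs i).1) ∧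
      ∀ i, pB px Bs i ∈ PC px.1 := by
  classical
  obtain ⟨hr1, -, hprim⟩ := mem_PC.1 hpx
  refine ⟨?_, ?_⟩
  · unfold KT
    refine Fintype.piFinset_subset _ _ fun i => ?_
    by_cases hi : i ∈ Bs
    · have hp : pB px Bs i = px := by
        unfold pB
        rw [if_pos hi]
      rw [if_pos hi, hp, Finset.singleton_subset_iff, KS, Finset.mem_filter, Finset.mem_Icc]
      refine ⟨⟨le_rfl, ?_⟩, squarefree_one, Nat.coprime_one_left _⟩
      rw [Nat.div_self hr1]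
    · have hp : pB px Bs i = p0 := by
        unfold pB
        rw [if_neg hi]
      have h0 : (p0 : Ch).1 = 1 := rfl
      rw [if_neg hi, hp, h0]
      intro s hs
      rw [Nat.mem_divisors] at hs
      have h1 := hs.1.trans (Nat.prod_primeFactors_dvd px.1)
      rw [KS, Finset.mem_filter, Finset.mem_Icc, Nat.div_one]
      refine ⟨⟨?_, Nat.le_of_dvd hr1 h1⟩, (x1a_rad px.1).squarefree_of_dvd hs.1, Nat.coprime_one_right s⟩
      exact Nat.pos_of_dvd_of_pos h1 hr1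
  · intro i
    by_cases hi : i ∈ Bs
    · have hp : pB px Bs i = px := by
        unfold pB
        rw [if_pos hi]
      rw [hp]
      exact mem_PC.2 ⟨hr1, le_rfl, hprim⟩
    · have hp : pB px Bs i = p0 := by
        unfold pB
        rw [if_neg hi]
      rw [hp]
      exact p0_mem hr1


end Pool.Agent.Lib.H24P
end

-- from Lib.H24Q.Defs
section

/-!
# Project H24Q (MP_443e5f_co, candidate T, main terms): definitions

A family of systems of congruence preserving maps `φ ω : Fin m → ℤ → ℤ`, `ω ∈ S` (finite set of parameters). The only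
analytic input is the property `FG` (mean squares of the parts with large moduli).
-/

open Finset

namespace Pool.Agent.Lib.H24Q

open Pool.Agent.Lib.H68T Pool.Agent.Lib.H18Q Pool.Agent.Lib.H59P Pool.Agent.Lib.H24P

noncomputable section

/-- **The property FG** (proved in module H59T for the two families used). -/
def FG (C c : ℝ) (Q H0 : ℕ) {m : ℕ} {Ω : Type} (S : Finset Ω) (φ : Ω → Fin m → ℤ → ℤ) : Prop :=
  ∀ p : Fin m → Ch, (∀ i, p i ∈ PC Q) →
  ∀ T : Finset (Fin m → ℕ), T ⊆ Fintype.piFinset (fun i => KS Q (p i).1) →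
  ∀ D : ℕ, 1 ≤ D → (∀ κ ∈ T, D < univ.lcm (fun i => (p i).1 * κ i)) →
  ∀ a H : ℕ, H0 ≤ H →
  ∑ ω ∈ S, ‖∑ n ∈ Ico a (a + H), ∑ κ ∈ T, ∏ i, gk (p i) (κ i) (φ ω i (n : ℤ))‖ ^ 2 ≤
    C * (1 + Real.log Q) ^ C * S.card * (H : ℝ) ^ 2 * (D : ℝ) ^ (-c)

/-- The local factors are close to `1`, the maps preserve congruences. -/
structure FB (C : ℝ) {m : ℕ} {Ω : Type} (S : Finset Ω) (φ : Ω → Fin m → ℤ → ℤ) : Prop where
  cp : ∀ ω ∈ S, Cp (φ ω)
  tp : ∀ ω ∈ S, ∀ l : ℕ, l.Prime → |tpf l (φ ω)| ≤ C / l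

/-- All the hypotheses on the family at the level `Q`. -/
structure Fam (C c : ℝ) (Q H0 : ℕ) {m : ℕ} {Ω : Type} (S : Finset Ω) (φ : Ω → Fin m → ℤ → ℤ) :
    Prop where
  fg1 : FG C c Q H0 S φ
  fg2 : FG C c (Q ^ 2) H0 S φ
  fb : FB C S φ

end

end Pool.Agent.Lib.H24Q
end

-- from Lib.H24Q.Defs2
section

/-!
# Project H24Q: families of linear forms
-/

open Finset

namespace Pool.Agent.Lib.H24Q

open Pool.Agent.Lib.H68T Pool.Agent.Lib.H18Q Pool.Agent.Lib.H59P Pool.Agent.Lib.H24P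

noncomputable section

/-- `m` linear forms `u_i ω(g_i) + v_i n + t_i` in `n`, depending on the parameters `ω : Fin g → ℕ`. -/
structure LF (m g : ℕ) where
  gi : Fin m → Fin g
  u : Fin m → ℤ
  v : Fin m → ℤ
  t : Fin m → ℤ

/-- The forms. -/
def LF.map {m g : ℕ} (F : LF m g) (ω : Fin g → ℕ) : Fin m → ℤ → ℤ :=
  fun i n => F.u i * (ω (F.gi i) : ℤ) + F.v i * n + F.t i

/-- `x + n`, `x - n`, `x' + n`, `x' - n` -/
def L4 : LF 4 2 := ⟨![0, 0, 1, 1], ![1, 1, 1, 1], ![1, -1, 1, -1], ![0, 0, 0, 0]⟩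

/-- `x + n`, `x - n` -/
def L2 : LF 2 1 := ⟨![0, 0], ![1, 1], ![1, -1], ![0, 0]⟩

/-- The hypothesis on the family: `Fam` for all boxes with large sides. -/
def HF (C c : ℝ) (B : ℕ) {m g : ℕ} (F : LF m g) : Prop :=
  ∀ Q : ℕ, 2 ≤ Q → ∀ b s : Fin g → ℕ, (∀ j, Q ^ B ≤ s j) → Fam C c Q (Q ^ B) (cub b s) F.map

/-- The base point of the cell of `ω`. -/
def bw {g : ℕ} (Q : ℕ) (X : Fin g → ℕ) (ω : Fin g → ℕ) : Fin g → ℕ :=
  fun j => bs (X j / Q ^ 40) (ω j)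

/-- The point where the coefficients of the `i`-th form are frozen. -/
def fp {m g : ℕ} (F : LF m g) (Q Z : ℕ) (X : Fin g → ℕ) (ω : Fin g → ℕ) (n : ℕ) (i : Fin m) : ℤ :=
  F.map (bw Q X ω) i ((bs (Z / Q ^ 40) n : ℕ) : ℤ)

/-- The geometry: `ω ∈ ∏ [2 X_j, 3 X_j)`, `n ∈ [Z, 2Z)`, the values of the `i`-th form in `[Y_i, 4 Y_i)`. -/
structure Gm {m g : ℕ} (F : LF m g) (Q N Z : ℕ) (X : Fin g → ℕ) (Y : Fin m → ℕ) : Prop where
  dvdZ : Q ^ 40 ∣ Z
  dvdX : ∀ j, Q ^ 40 ∣ X j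
  Zlo : N ≤ Z ^ 2
  Zhi : Z ≤ N
  Xlo : ∀ j, N ≤ X j ^ 2
  Xhi : ∀ j, X j ≤ N
  Ylo : ∀ i, N ≤ Y i ^ 2
  Yhi : ∀ i, Y i ≤ N ^ 2
  u2 : ∀ i, |F.u i| ≤ 2
  v2 : ∀ i, |F.v i| ≤ 2
  uX : ∀ i, |F.u i| * X (F.gi i) ≤ 4 * Y i
  vZ : ∀ i, |F.v i| * Z ≤ 4 * Y i
  lo : ∀ i, ∀ ω ∈ cub (fun j => 2 * X j) X, ∀ n ∈ Ico Z (2 * Z), (Y i : ℤ) ≤ F.map ω i (n : ℤ)
  hi : ∀ i, ∀ ω ∈ cub (fun j => 2 * X j) X, ∀ n ∈ Ico Z (2 * Z), F.map ω i (n : ℤ) < 4 * Y i

/-- The sum of the products of the projections. -/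
def MF {m g : ℕ} (F : LF m g) (Q Z : ℕ) (Y : Fin m → ℕ) (ω : Fin g → ℕ) : ℝ :=
  ∑ n ∈ Ico Z (2 * Z), ∏ i, Lk Q (Y i / Q ^ 2) (F.map ω i (n : ℤ))

/-- The main term with coefficients `Cc i` frozen on cells, modulus `r`. -/
def MZ {m g : ℕ} (F : LF m g) (Q Z r : ℕ) (X : Fin g → ℕ) (Cc : Fin m → ℤ → Ch → ℂ)
    (ω : Fin g → ℕ) : ℂ :=
  ∑ n ∈ Ico Z (2 * Z), MDf Q r (fun i => Cc i (fp F Q Z X ω n i)) (F.map ω)

end

end Pool.Agent.Lib.H24Q
end
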