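import Pool.Agent.Lib.H1M.RV2.M026
import Pool.Agent.Lib.H1M.RV2.M067
import Pool.Agent.Lib.H1M.RV2.M074

/-! Merged copies (to shorten the build) of Lib.H59T.C1, Lib.H59T.C2, Lib.H59T.U1, Lib.H59T.E1, Lib.H59T.E2, Lib.H59T.E3, Lib.H59T.E4, Lib.H59T.E5. -/

-- from Lib.H59T.C1
section

/-!
# Project H59T, chunk C1 (S/M): Chinese remainder theorem in four variables
-/

open Finset

namespace Pool.Agent.Lib.H59T

/-- Proof. `M3d` (`H59P/M3D.lean`, one variable) from the inside outwards: for fixed `y, y', z` the sum over `z'` is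
`(∑_{z' < a} F) (∑_{z' < b} G)`, again a product of two functions, periodic in the other variables modulo `a` and `b`; etc. -/
theorem C1_two (a b : ℕ) (ha : 0 < a) (hb : 0 < b) (hab : Nat.Coprime a b)
    (F G : ℤ → ℤ → ℤ → ℤ → ℂ) (hF : Per4 a F) (hG : Per4 b G) :
    S4 (a * b) (fun y y' z z' => F y y' z z' * G y y' z z') = S4 a F * S4 b G := by
  have h4 : ∀ y y' z : ℤ, ∑ z' ∈ range (a * b), F y y' z z' * G y y' z z' =
      (∑ z' ∈ range a, F y y' z z') * ∑ z' ∈ range b, G y y' z z' := fun y y' z =>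
    H59P.M3d (F y y' z) (G y y' z) a b ha hb hab (hF.h4 y y' z) (hG.h4 y y' z)
  have h3 : ∀ y y' : ℤ, ∑ z ∈ range (a * b), ∑ z' ∈ range (a * b), F y y' z z' * G y y' z z' =
      (∑ z ∈ range a, ∑ z' ∈ range a, F y y' z z') * ∑ z ∈ range b, ∑ z' ∈ range b, G y y' z z' := by
    intro y y'
    rw [← H59P.M3d (fun z => ∑ z' ∈ range a, F y y' z z') (fun z => ∑ z' ∈ range b, G y y' z z') a b ha hb hab
      (fun m => Finset.sum_congr rfl fun z' _ => hF.h3 y y' m z')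
      (fun m => Finset.sum_congr rfl fun z' _ => hG.h3 y y' m z')]
    exact Finset.sum_congr rfl fun z _ => h4 y y' z
  have h2 : ∀ y : ℤ, ∑ y' ∈ range (a * b), ∑ z ∈ range (a * b), ∑ z' ∈ range (a * b),
      F y y' z z' * G y y' z z' =
      (∑ y' ∈ range a, ∑ z ∈ range a, ∑ z' ∈ range a, F y y' z z') *
        ∑ y' ∈ range b, ∑ z ∈ range b, ∑ z' ∈ range b, G y y' z z' := by
    intro y
    rw [← H59P.M3d (fun y' => ∑ z ∈ range a, ∑ z' ∈ range a, F y y' z z')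
      (fun y' => ∑ z ∈ range b, ∑ z' ∈ range b, G y y' z z') a b ha hb hab
      (fun m => Finset.sum_congr rfl fun z _ => Finset.sum_congr rfl fun z' _ => hF.h2 y m z z')
      (fun m => Finset.sum_congr rfl fun z _ => Finset.sum_congr rfl fun z' _ => hG.h2 y m z z')]
    exact Finset.sum_congr rfl fun y' _ => h3 y y'
  unfold S4
  rw [← H59P.M3d (fun y => ∑ y' ∈ range a, ∑ z ∈ range a, ∑ z' ∈ range a, F y y' z z')
    (fun y => ∑ y' ∈ range b, ∑ z ∈ range b, ∑ z' ∈ range b, G y y' z z') a b ha hb hab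
    (fun m => Finset.sum_congr rfl fun y' _ => Finset.sum_congr rfl fun z _ =>
      Finset.sum_congr rfl fun z' _ => hF.h1 m y' z z')
    (fun m => Finset.sum_congr rfl fun y' _ => Finset.sum_congr rfl fun z _ =>
      Finset.sum_congr rfl fun z' _ => hG.h1 m y' z z')]
  exact Finset.sum_congr rfl fun y _ => h2 y

/-- periodic modulo a multiple -/
theorem c1_mul (N k : ℕ) (F : ℤ → ℤ → ℤ → ℤ → ℂ) (hF : Per4 N F) : Per4 (N * k) F where
  h1 y y' z z' := by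
    have h := H59P.m3c_per (fun t => F t y' z z') N (fun m => hF.h1 m y' z z') k y
    rw [← h]
    congr 1
    push_cast
    ring
  h2 y y' z z' := by
    have h := H59P.m3c_per (fun t => F y t z z') N (fun m => hF.h2 y m z z') k y'
    rw [← h]
    congr 1
    push_cast
    ring
  h3 y y' z z' := by
    have h := H59P.m3c_per (fun t => F y y' t z') N (fun m => hF.h3 y y' m z') k z
    rw [← h]
    congr 1
    push_cast
    ring
  h4 y y' z z' := by
    have h := H59P.m3c_per (fun t => F y y' z t) N (fun m => hF.h4 y y' z m) k z'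
    rw [← h]
    congr 1
    push_cast
    ring

/-- product of periodic functions -/
theorem c1_mulf (N : ℕ) (F G : ℤ → ℤ → ℤ → ℤ → ℂ) (hF : Per4 N F) (hG : Per4 N G) :
    Per4 N (fun y y' z z' => F y y' z z' * G y y' z z') where
  h1 y y' z z' := by
    rw [hF.h1, hG.h1]
  h2 y y' z z' := by
    rw [hF.h2, hG.h2]
  h3 y y' z z' := by
    rw [hF.h3, hG.h3]
  h4 y y' z z' := by
    rw [hF.h4, hG.h4]

/-- Proof. Induction over `P` (`Finset.induction_on`) with `C1_two`; the product of the others is periodic modulo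
the product of the `q l` (a period of each factor divides it), and coprime to `q l` (`Nat.Coprime.prod_right`). -/
theorem C1_prod (P : Finset ℕ) (q : ℕ → ℕ) (hq : ∀ l ∈ P, 0 < q l)
    (hc : ∀ l ∈ P, ∀ l' ∈ P, l ≠ l' → Nat.Coprime (q l) (q l')) (F : ℕ → ℤ → ℤ → ℤ → ℤ → ℂ)
    (hF : ∀ l ∈ P, Per4 (q l) (F l)) :
    Per4 (∏ l ∈ P, q l) (fun y y' z z' => ∏ l ∈ P, F l y y' z z') ∧
    S4 (∏ l ∈ P, q l) (fun y y' z z' => ∏ l ∈ P, F l y y' z z') = ∏ l ∈ P, S4 (q l) (F l) := by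
  classical
  induction P using Finset.induction_on with
  | empty =>
    refine ⟨⟨?_, ?_, ?_, ?_⟩, ?_⟩
    · intro y y' z z'
      simp
    · intro y y' z z'
      simp
    · intro y y' z z'
      simp
    · intro y y' z z'
      simp
    · simp [S4]
  | insert l P hl ih =>
    obtain ⟨i1, i2⟩ := ih (fun m hm => hq m (mem_insert_of_mem hm))
      (fun m hm m' hm' => hc m (mem_insert_of_mem hm) m' (mem_insert_of_mem hm'))
      (fun m hm => hF m (mem_insert_of_mem hm))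
    have hl1 : Per4 (q l) (F l) := hF l (mem_insert_self _ _)
    have e1 : (fun y y' z z' => ∏ m ∈ insert l P, F m y y' z z') =
        fun y y' z z' => F l y y' z z' * ∏ m ∈ P, F m y y' z z' := by
      funext y y' z z'
      rw [Finset.prod_insert hl]
    rw [e1, Finset.prod_insert hl, Finset.prod_insert hl]
    refine ⟨?_, ?_⟩
    · refine c1_mulf _ _ _ (c1_mul _ _ _ hl1) ?_
      rw [mul_comm]
      exact c1_mul _ _ _ i1
    · rw [← i2]
      refine C1_two (q l) (∏ m ∈ P, q m) (hq l (mem_insert_self _ _))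
        (Finset.prod_pos fun m hm => hq m (mem_insert_of_mem hm)) ?_ (F l) _ hl1 i1
      refine Nat.Coprime.prod_right fun m hm => ?_
      refine hc l (mem_insert_self _ _) m (mem_insert_of_mem hm) ?_
      intro h
      rw [h] at hl
      exact hl hm

end Pool.Agent.Lib.H59T
end

-- from Lib.H59T.C2
section

/-!
# Project H59T, chunk C2 (M): boxes and complete periods
-/

open Finset

namespace Pool.Agent.Lib.H59T

/-- one variable, with an approximant -/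
theorem c2_step (N L : ℕ) (hN : 0 < N) (hL : 0 < L) (f g : ℤ → ℂ) (hf : ∀ m, f (m + N) = f m) (M : ℝ)
    (hM : ∀ m, ‖f m‖ ≤ M) (c e : ℝ) (hc : 0 ≤ c) (hg : ∀ m, ‖g m - (c : ℂ) * f m‖ ≤ e) (a s : ℕ)
    (hs : N * L ≤ s) :
    ‖∑ n ∈ Ico a (a + s), g n - ((c * (s / N) : ℝ) : ℂ) * ∑ n ∈ range N, f n‖ ≤ (e + c * (2 * M / L)) * s := by
  have hM0 : 0 ≤ M := (norm_nonneg _).trans (hM 0)
  have hN0 : (0 : ℝ) < N := by exact_mod_cast hN
  have hL0 : (0 : ℝ) < L := by exact_mod_cast hL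
  have hs0 : (N : ℝ) * L ≤ s := by exact_mod_cast hs
  have h1 : ‖∑ n ∈ Ico a (a + s), (g n - (c : ℂ) * f n)‖ ≤ s * e := by
    calc ‖∑ n ∈ Ico a (a + s), (g n - (c : ℂ) * f n)‖ ≤ ∑ n ∈ Ico a (a + s), ‖g n - (c : ℂ) * f n‖ :=
          norm_sum_le _ _
      _ ≤ ∑ _n ∈ Ico a (a + s), e := Finset.sum_le_sum fun n _ => hg n
      _ = s * e := by
        rw [Finset.sum_const, Nat.card_Ico, nsmul_eq_mul]
        congr 2
        omega
  have h2 := H59P.M3c f N hN hf M hM a s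
  have h3 : ∑ n ∈ Ico a (a + s), g n - ((c * (s / N) : ℝ) : ℂ) * ∑ n ∈ range N, f n =
      ∑ n ∈ Ico a (a + s), (g n - (c : ℂ) * f n) +
        (c : ℂ) * (∑ n ∈ Ico a (a + s), f n - s * ((∑ n ∈ range N, f n) / N)) := by
    rw [Finset.sum_sub_distrib, ← Finset.mul_sum]
    push_cast
    ring
  rw [h3]
  refine (norm_add_le _ _).trans ?_
  rw [norm_mul, Complex.norm_real, Real.norm_of_nonneg hc]
  have h4 : 2 * (N : ℝ) * M ≤ 2 * M / L * s := by
    rw [div_mul_eq_mul_div, le_div_iff₀ hL0]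
    nlinarith [mul_le_mul_of_nonneg_left hs0 hM0]
  have h5 := mul_le_mul_of_nonneg_left (h2.trans h4) hc
  calc _ ≤ s * e + c * (2 * M / L * s) := add_le_add h1 h5
    _ = (e + c * (2 * M / L)) * s := by ring

theorem c2_bd (N : ℕ) (f : ℤ → ℂ) (M : ℝ) (hM : ∀ m, ‖f m‖ ≤ M) : ‖∑ n ∈ range N, f n‖ ≤ N * M := by
  calc ‖∑ n ∈ range N, f n‖ ≤ ∑ n ∈ range N, ‖f n‖ := norm_sum_le _ _
    _ ≤ ∑ _n ∈ range N, M := Finset.sum_le_sum fun n _ => hM n
    _ = N * M := by rw [Finset.sum_const, Finset.card_range, nsmul_eq_mul]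

/-- Proof. One variable (`M3c` in `H59P/M3C.lean`): for `f` periodic modulo `N`, bounded by `B`,
`‖∑_{n ∈ Ico a (a+s)} f n - (s/N) ∑_{n < N} f n‖ ≤ 2 N B ≤ (2B/L) s` if `N L ≤ s`. Four times, from the inside outwards: replace
the sum over `z'` by `H/N` times the complete sum (error `(2B/L) H`, summed over the other variables), then the sum over `z` of
`(H/N) ∑_{z' < N} F` (periodic, bounded by `H B`), etc. Total `(8B/L) s s' H H'`. -/
theorem C2_box (N L : ℕ) (hN : 0 < N) (hL : 0 < L) (F : ℤ → ℤ → ℤ → ℤ → ℂ) (hF : Per4 N F) (B : ℝ)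
    (hB : ∀ y y' z z', ‖F y y' z z'‖ ≤ B) (a a' b b' s s' H H' : ℕ) (hs : N * L ≤ s) (hs' : N * L ≤ s')
    (hH : N * L ≤ H) (hH' : N * L ≤ H') :
    ‖∑ y ∈ Ico a (a + s), ∑ y' ∈ Ico a' (a' + s'), ∑ z ∈ Ico b (b + H), ∑ z' ∈ Ico b' (b' + H'),
        F y y' z z' - (((s : ℝ) * s' * H * H' / (N : ℝ) ^ 4 : ℝ) : ℂ) * S4 N F‖ ≤
      8 * B / L * ((s : ℝ) * s' * H * H') := by
  have hN0 : (0 : ℝ) < N := by exact_mod_cast hN
  have hL0 : (0 : ℝ) < L := by exact_mod_cast hL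
  have s1 := fun y y' z : ℤ => c2_step N L hN hL (fun z' => F y y' z z') (fun z' => F y y' z z') (hF.h4 y y' z)
    B (hB y y' z) 1 0 zero_le_one (fun m => by simp) b' H' hH'
  have s2 := fun y y' : ℤ => c2_step N L hN hL (fun z => ∑ z' ∈ range N, F y y' z z')
    (fun z => ∑ z' ∈ Ico b' (b' + H'), F y y' z z')
    (fun m => Finset.sum_congr rfl fun z' _ => hF.h3 y y' m z') (N * B)
    (fun m => c2_bd N (fun z' => F y y' m z') B (hB y y' m)) _ _ (by positivity)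
    (fun m => s1 y y' m) b H hH
  have s3 := fun y : ℤ => c2_step N L hN hL (fun y' => ∑ z ∈ range N, ∑ z' ∈ range N, F y y' z z')
    (fun y' => ∑ z ∈ Ico b (b + H), ∑ z' ∈ Ico b' (b' + H'), F y y' z z')
    (fun m => Finset.sum_congr rfl fun z _ => Finset.sum_congr rfl fun z' _ => hF.h2 y m z z') (N * (N * B))
    (fun m => c2_bd N (fun z => ∑ z' ∈ range N, F y m z z') (N * B)
      (fun z => c2_bd N (fun z' => F y m z z') B (hB y m z))) _ _ (by positivity)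
    (fun m => s2 y m) a' s' hs'
  have s4 := c2_step N L hN hL (fun y => ∑ y' ∈ range N, ∑ z ∈ range N, ∑ z' ∈ range N, F y y' z z')
    (fun y => ∑ y' ∈ Ico a' (a' + s'), ∑ z ∈ Ico b (b + H), ∑ z' ∈ Ico b' (b' + H'), F y y' z z')
    (fun m => Finset.sum_congr rfl fun y' _ => Finset.sum_congr rfl fun z _ =>
      Finset.sum_congr rfl fun z' _ => hF.h1 m y' z z') (N * (N * (N * B)))
    (fun m => c2_bd N (fun y' => ∑ z ∈ range N, ∑ z' ∈ range N, F m y' z z') (N * (N * B))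
      (fun y' => c2_bd N (fun z => ∑ z' ∈ range N, F m y' z z') (N * B)
        (fun z => c2_bd N (fun z' => F m y' z z') B (hB m y' z)))) _ _ (by positivity)
    (fun m => s3 m) a s hs
  have e1 : (1 * (H' / N : ℝ) * (H / N) * (s' / N) * (s / N) : ℝ) = (s : ℝ) * s' * H * H' / (N : ℝ) ^ 4 := by
    field_simp
  rw [e1] at s4
  refine s4.trans (le_of_eq ?_)
  field_simp
  ring

end Pool.Agent.Lib.H59T
end

-- from Lib.H59T.U1
section

/-!
# Project H59T, chunk U1 (M): the four-point sums of a primitive character of prime power modulus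
-/

open Finset

namespace Pool.Agent.Lib.H59T

/-- the change of variables -/
def u1_equiv (R : Type*) [CommRing R] : R × R × R × R ≃ R × R × R × R where
  toFun x := (x.1, x.1 + x.2.2.2, x.2.1 - x.1, x.2.1 - x.1 + x.2.2.1)
  invFun x := (x.1, x.1 + x.2.2.1, x.2.2.2 - x.2.2.1, x.2.1 - x.1)
  left_inv x := by
    obtain ⟨z, s, A, B⟩ := x
    simp only [Prod.mk.injEq, true_and]
    refine ⟨by ring, by ring, by ring⟩
  right_inv x := by
    obtain ⟨z, s, A, B⟩ := x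
    simp only [Prod.mk.injEq, true_and]
    refine ⟨by ring, by ring, by ring⟩

/-- averaging over the shift: `‖U4‖` is at most the number of bad `s` -/
theorem u1_norm (l a m n : ℕ) (hl : l.Prime) (ha : a = m + n) (hn : 1 ≤ n) (hmn : n ≤ m) [NeZero (l ^ a)]
    (χ : DirichletCharacter ℂ (l ^ a)) (hχ : χ.IsPrimitive) (A B : ZMod (l ^ a)) :
    ‖U4 χ A B‖ ≤ (((univ : Finset (ZMod (l ^ a))).filter
      (fun s => l ^ n ∣ (2 * (2 * s + A + B) * A * B).val)).card : ℝ) := by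
  set T : ZMod (l ^ a) → ℂ := fun s => χ s * star (χ (s + A)) * star (χ (s + B)) * χ (s + A + B) with hT
  have hχ1 : ∀ s, ‖χ s‖ ≤ 1 := fun s => DirichletCharacter.norm_le_one χ s
  have hTn : ∀ s, ‖T s‖ ≤ 1 := by
    intro s
    simp only [hT, norm_mul, norm_star]
    exact mul_le_one₀ (mul_le_one₀ (mul_le_one₀ (hχ1 _) (norm_nonneg _) (hχ1 _)) (norm_nonneg _) (hχ1 _))
      (norm_nonneg _) (hχ1 _)
  have hq0 : (0 : ℝ) < ((l ^ a : ℕ) : ℝ) := by exact_mod_cast Nat.pos_of_ne_zero (NeZero.ne (l ^ a))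
  have h1 : ∀ v : ZMod (l ^ a), ∑ s, T (s + 2 * (l : ZMod (l ^ a)) ^ m * v) = U4 χ A B := by
    intro v
    rw [← Equiv.sum_comp (Equiv.addRight (-(2 * (l : ZMod (l ^ a)) ^ m * v)))]
    unfold U4
    refine Finset.sum_congr rfl fun s _ => ?_
    simp only [Equiv.coe_addRight, neg_add_cancel_right, hT]
  have h2 : ((l ^ a : ℕ) : ℂ) * U4 χ A B = ∑ s, ∑ v : ZMod (l ^ a), T (s + 2 * (l : ZMod (l ^ a)) ^ m * v) := by
    rw [Finset.sum_comm, Finset.sum_congr rfl fun v _ => h1 v, Finset.sum_const, Finset.card_univ, ZMod.card,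
      nsmul_eq_mul]
  have h3 : ∀ s : ZMod (l ^ a), ¬ l ^ n ∣ (2 * (2 * s + A + B) * A * B).val →
      ∑ v : ZMod (l ^ a), T (s + 2 * (l : ZMod (l ^ a)) ^ m * v) = 0 := by
    intro s hs
    have e0 : 2 * (2 * s + A + B) * A * B = 2 * (s + (s + B) + 0 + A) * (s - (s + B)) * (0 - A) := by ring
    rw [e0] at hs
    have h4 := G3 l a m n hl ha hn hmn χ hχ s (s + B) 0 A hs
    rw [← h4]
    refine Finset.sum_congr rfl fun v _ => ?_
    simp only [hT]
    have a1 : s + 0 + 2 * (l : ZMod (l ^ a)) ^ m * v = s + 2 * (l : ZMod (l ^ a)) ^ m * v := by ring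
    have a2 : s + B + 0 + 2 * (l : ZMod (l ^ a)) ^ m * v = s + 2 * (l : ZMod (l ^ a)) ^ m * v + B := by ring
    have a3 : s + A + 2 * (l : ZMod (l ^ a)) ^ m * v = s + 2 * (l : ZMod (l ^ a)) ^ m * v + A := by ring
    have a4 : s + B + A + 2 * (l : ZMod (l ^ a)) ^ m * v = s + 2 * (l : ZMod (l ^ a)) ^ m * v + A + B := by ring
    rw [a1, a2, a3, a4]
    ring
  have h5 : ((l ^ a : ℕ) : ℝ) * ‖U4 χ A B‖ ≤ ∑ s : ZMod (l ^ a),
      (if l ^ n ∣ (2 * (2 * s + A + B) * A * B).val then ((l ^ a : ℕ) : ℝ) else 0) := by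
    have e1 : ((l ^ a : ℕ) : ℝ) * ‖U4 χ A B‖ = ‖((l ^ a : ℕ) : ℂ) * U4 χ A B‖ := by
      rw [norm_mul, Complex.norm_natCast]
    rw [e1, h2]
    refine (norm_sum_le _ _).trans (Finset.sum_le_sum fun s _ => ?_)
    split_ifs with hp
    · refine (norm_sum_le _ _).trans ?_
      calc ∑ v : ZMod (l ^ a), ‖T (s + 2 * (l : ZMod (l ^ a)) ^ m * v)‖ ≤ ∑ _v : ZMod (l ^ a), (1 : ℝ) :=
            Finset.sum_le_sum fun v _ => hTn _
        _ = ((l ^ a : ℕ) : ℝ) := by rw [Finset.sum_const, Finset.card_univ, ZMod.card, nsmul_eq_mul, mul_one]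
    · rw [h3 s hp, norm_zero]
  rw [← Finset.sum_filter, Finset.sum_const, nsmul_eq_mul, mul_comm] at h5
  exact le_of_mul_le_mul_right h5 hq0

/-- Proof. `N = l^a`, `n = a/2`, `m = a - n` (`2 m ≥ a`). In `U4 χ A B` replace `s` by `s + l^m v` and sum over `v`: if one of the four
arguments `s, s+A, s+B, s+A+B` is not a unit the term is `0` for all `v`; otherwise the factor is
`χ(1 + l^m (K v))`, `K = s⁻¹ - (s+A)⁻¹ - (s+B)⁻¹ + (s+A+B)⁻¹ = u A B (2s + A + B)` with `u` a unit (`G2_add`, `star χ = χ⁻¹` on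
units; see `g3_unit`, `g3_star` in `G3.lean`), and the sum over `v` is `0` unless `l^n ∣ (A B (2s+A+B)).val` (`G2_mean`; a unit
does not change divisibility). So `‖U4 χ A B‖` is at most the number of `s` with this property, and at most `N`; hence
`∑ ‖U4‖² ≤ N · #{(s,A,B) : l^n ∣ A B (2s+A+B)}`. Each such triple gives `N` quadruples `(z1, z2, y1, y2)` with
`s = z1 + y1`, `B = z2 - z1`, `A = y2 - y1` (`z1` free), for which `l^n` divides `2 (z1+z2+y1+y2)(z1-z2)(y1-y2)`: `G4` gives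
`#triples ≤ 6 N³ l^(-n/3)`, and `n ≥ a/3`. -/
theorem U1_pow (l a : ℕ) (hl : l.Prime) (ha : 2 ≤ a) [NeZero (l ^ a)] (χ : DirichletCharacter ℂ (l ^ a))
    (hχ : χ.IsPrimitive) :
    ∑ A : ZMod (l ^ a), ∑ B : ZMod (l ^ a), ‖U4 χ A B‖ ^ 2 ≤
      6 * ((l ^ a : ℕ) : ℝ) ^ 4 * (l : ℝ) ^ (-(a / 9 : ℝ)) := by
  classical
  obtain ⟨n, hn⟩ : ∃ n : ℕ, n = a / 2 := ⟨_, rfl⟩
  have hχ1 : ∀ s, ‖χ s‖ ≤ 1 := fun s => DirichletCharacter.norm_le_one χ s
  have hN : ∀ A B, ‖U4 χ A B‖ ≤ ((l ^ a : ℕ) : ℝ) := by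
    intro A B
    unfold U4
    refine (norm_sum_le _ _).trans ?_
    calc _ ≤ ∑ _v : ZMod (l ^ a), (1 : ℝ) := Finset.sum_le_sum fun s _ => by
            simp only [norm_mul, norm_star]
            exact mul_le_one₀ (mul_le_one₀ (mul_le_one₀ (hχ1 _) (norm_nonneg _) (hχ1 _)) (norm_nonneg _) (hχ1 _))
              (norm_nonneg _) (hχ1 _)
      _ = ((l ^ a : ℕ) : ℝ) := by rw [Finset.sum_const, Finset.card_univ, ZMod.card, nsmul_eq_mul, mul_one]
  have h1 : ∀ A B : ZMod (l ^ a), ‖U4 χ A B‖ ^ 2 ≤ ∑ _z : ZMod (l ^ a), ∑ s : ZMod (l ^ a),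
      (if l ^ n ∣ (2 * (2 * s + A + B) * A * B).val then (1 : ℝ) else 0) := by
    intro A B
    have h2 := u1_norm l a (a - n) n hl (by omega) (by omega) (by omega) χ hχ A B
    rw [Finset.sum_const, Finset.card_univ, ZMod.card, nsmul_eq_mul, ← Finset.sum_filter, Finset.sum_const,
      nsmul_eq_mul, mul_one, sq]
    exact mul_le_mul (hN A B) h2 (norm_nonneg _) (by positivity)
  have h3 : ∑ A : ZMod (l ^ a), ∑ B : ZMod (l ^ a), ‖U4 χ A B‖ ^ 2 ≤
      (((univ : Finset (ZMod (l ^ a) × ZMod (l ^ a) × ZMod (l ^ a) × ZMod (l ^ a))).filter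
      (fun x => l ^ n ∣ (2 * (x.1 + x.2.1 + x.2.2.1 + x.2.2.2) * (x.1 - x.2.1) *
        (x.2.2.1 - x.2.2.2)).val)).card : ℝ) := by
    have e1 : (((univ : Finset (ZMod (l ^ a) × ZMod (l ^ a) × ZMod (l ^ a) × ZMod (l ^ a))).filter
      (fun x => l ^ n ∣ (2 * (x.1 + x.2.1 + x.2.2.1 + x.2.2.2) * (x.1 - x.2.1) *
        (x.2.2.1 - x.2.2.2)).val)).card : ℝ) =
        ∑ x : ZMod (l ^ a) × ZMod (l ^ a) × ZMod (l ^ a) × ZMod (l ^ a),
          (if l ^ n ∣ (2 * (x.1 + x.2.1 + x.2.2.1 + x.2.2.2) * (x.1 - x.2.1) *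
        (x.2.2.1 - x.2.2.2)).val then (1 : ℝ) else 0) := by
      rw [← Finset.sum_filter, Finset.sum_const, nsmul_eq_mul, mul_one]
    rw [e1, ← Equiv.sum_comp (u1_equiv (ZMod (l ^ a)))]
    have e2 : ∑ x : ZMod (l ^ a) × ZMod (l ^ a) × ZMod (l ^ a) × ZMod (l ^ a),
        (if l ^ n ∣ (2 * ((u1_equiv (ZMod (l ^ a)) x).1 + (u1_equiv (ZMod (l ^ a)) x).2.1 +
          (u1_equiv (ZMod (l ^ a)) x).2.2.1 + (u1_equiv (ZMod (l ^ a)) x).2.2.2) *
          ((u1_equiv (ZMod (l ^ a)) x).1 - (u1_equiv (ZMod (l ^ a)) x).2.1) *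
          ((u1_equiv (ZMod (l ^ a)) x).2.2.1 - (u1_equiv (ZMod (l ^ a)) x).2.2.2)).val then (1 : ℝ) else 0) =
        ∑ A : ZMod (l ^ a), ∑ B : ZMod (l ^ a), ∑ _z : ZMod (l ^ a), ∑ s : ZMod (l ^ a),
          (if l ^ n ∣ (2 * (2 * s + A + B) * A * B).val then (1 : ℝ) else 0) := by
      rw [Fintype.sum_prod_type]
      have e3 : ∀ z : ZMod (l ^ a), ∑ y : ZMod (l ^ a) × ZMod (l ^ a) × ZMod (l ^ a),
        (if l ^ n ∣ (2 * ((u1_equiv (ZMod (l ^ a)) (z, y)).1 + (u1_equiv (ZMod (l ^ a)) (z, y)).2.1 +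
          (u1_equiv (ZMod (l ^ a)) (z, y)).2.2.1 + (u1_equiv (ZMod (l ^ a)) (z, y)).2.2.2) *
          ((u1_equiv (ZMod (l ^ a)) (z, y)).1 - (u1_equiv (ZMod (l ^ a)) (z, y)).2.1) *
          ((u1_equiv (ZMod (l ^ a)) (z, y)).2.2.1 - (u1_equiv (ZMod (l ^ a)) (z, y)).2.2.2)).val
            then (1 : ℝ) else 0) =
          ∑ A : ZMod (l ^ a), ∑ B : ZMod (l ^ a), ∑ s : ZMod (l ^ a),
          (if l ^ n ∣ (2 * (2 * s + A + B) * A * B).val then (1 : ℝ) else 0) := by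
        intro z
        rw [Fintype.sum_prod_type, Finset.sum_comm' (t' := (univ : Finset (ZMod (l ^ a) × ZMod (l ^ a))))
          (s' := fun _ => (univ : Finset (ZMod (l ^ a)))) (by simp), Fintype.sum_prod_type]
        refine Finset.sum_congr rfl fun A _ => Finset.sum_congr rfl fun B _ =>
          Finset.sum_congr rfl fun s _ => ?_
        have e4 : 2 * ((u1_equiv (ZMod (l ^ a)) (z, s, A, B)).1 + (u1_equiv (ZMod (l ^ a)) (z, s, A, B)).2.1 +
          (u1_equiv (ZMod (l ^ a)) (z, s, A, B)).2.2.1 + (u1_equiv (ZMod (l ^ a)) (z, s, A, B)).2.2.2) *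
          ((u1_equiv (ZMod (l ^ a)) (z, s, A, B)).1 - (u1_equiv (ZMod (l ^ a)) (z, s, A, B)).2.1) *
          ((u1_equiv (ZMod (l ^ a)) (z, s, A, B)).2.2.1 - (u1_equiv (ZMod (l ^ a)) (z, s, A, B)).2.2.2) =
            2 * (2 * s + A + B) * A * B := by
          simp only [u1_equiv, Equiv.coe_fn_mk]
          ring
        rw [e4]
      rw [Finset.sum_congr rfl fun z _ => e3 z, Finset.sum_comm]
      exact Finset.sum_congr rfl fun A _ => Finset.sum_comm
    rw [e2]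
    exact Finset.sum_le_sum fun A _ => Finset.sum_le_sum fun B _ => h1 A B
  refine h3.trans ((G4 l a n hl (by omega)).trans ?_)
  refine mul_le_mul_of_nonneg_left ?_ (by positivity)
  refine Real.rpow_le_rpow_of_exponent_le (by exact_mod_cast hl.one_lt.le) ?_
  have h2 : (a : ℝ) ≤ 3 * n := by exact_mod_cast (by omega : a ≤ 3 * n)
  linarith

theorem u1_prime (q l : ℕ) (hql : q = l) (hl : l.Prime) [NeZero q] (χ : DirichletCharacter ℂ q)
    (hχ : χ.IsPrimitive) : ∑ A : ZMod q, ∑ B : ZMod q, ‖U4 χ A B‖ ^ 2 ≤ 13 * (l : ℝ) ^ 3 := by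
  subst hql
  have := Fact.mk hl
  have h1 : χ ≠ 1 := by
    intro h
    rw [h, DirichletCharacter.isPrimitive_def, DirichletCharacter.conductor_one] at hχ
    exact hl.one_lt.ne hχ
  have h2 : q ≠ 2 := by
    intro h
    subst h
    refine h1 (MulChar.ext fun u => ?_)
    have hu : u = 1 := by
      apply Units.ext
      have h3 : (u : ZMod 2) ≠ 0 := u.ne_zero
      exact g5_two _ h3
    rw [hu]
    simp
  have h3 := K4 q h2 χ h1
  exact h3

/-- Proof. `a ≥ 2`: `U1_pow`. `a = 1`: `l ≠ 2`, `χ ≠ 1` as in `G5` (`G5.lean`), `K4`: `13 l³ ≤ 13 l⁴ l^(-1/9)`. `UU χ` and the sum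
of the `‖U4 χ A B‖²` are the same by definition. -/
theorem U1_all (l a : ℕ) (hl : l.Prime) (ha : 1 ≤ a) [NeZero (l ^ a)] (χ : DirichletCharacter ℂ (l ^ a))
    (hχ : χ.IsPrimitive) : UU (fun s => χ s) ≤ 13 * ((l ^ a : ℕ) : ℝ) ^ 4 * (l : ℝ) ^ (-(a / 9 : ℝ)) := by
  have e0 : UU (fun s => χ s) = ∑ A : ZMod (l ^ a), ∑ B : ZMod (l ^ a), ‖U4 χ A B‖ ^ 2 := rfl
  rw [e0]
  have hl1 : (1 : ℝ) ≤ l := by exact_mod_cast hl.one_lt.le
  have hl0 : (0 : ℝ) < l := by linarith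
  rcases Nat.lt_or_ge a 2 with h | h
  · have ha1 : a = 1 := by omega
    subst ha1
    refine (u1_prime (l ^ 1) l (pow_one l) hl χ hχ).trans ?_
    have e1 : ((l ^ 1 : ℕ) : ℝ) ^ 4 * (l : ℝ) ^ (-(((1 : ℕ) : ℝ) / 9 : ℝ)) = (l : ℝ) ^ (4 - 1 / 9 : ℝ) := by
      rw [pow_one, ← Real.rpow_natCast, ← Real.rpow_add hl0]
      congr 1
      push_cast
      ring
    rw [mul_assoc, e1]
    have e2 : (l : ℝ) ^ (3 : ℝ) ≤ (l : ℝ) ^ (4 - 1 / 9 : ℝ) :=
      Real.rpow_le_rpow_of_exponent_le hl1 (by norm_num)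
    have e3 : (l : ℝ) ^ (3 : ℝ) = (l : ℝ) ^ 3 := by
      rw [← Real.rpow_natCast]
      norm_num
    rw [e3] at e2
    linarith
  · refine (U1_pow l a hl h χ hχ).trans ?_
    have h4 : 0 ≤ ((l ^ a : ℕ) : ℝ) ^ 4 * (l : ℝ) ^ (-(a / 9 : ℝ)) := by positivity
    nlinarith

end Pool.Agent.Lib.H59T
end

-- from Lib.H59T.E1
section

/-!
# Project H59T, chunk E1 (S/M): Lemma G for functions bounded by 2
-/

open Finset

namespace Pool.Agent.Lib.H59T

/-- Proof. `G5` with `W t = star (g (-t))/2`, `W' t = g' (-t)/2`: the conjugate of the inner sum is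
`4 ∑_y χ(z+y) star χ(z'+y) W(z-y) W'(z'-y)`, and the norm of the conjugate is the same. -/
theorem E1_plus (l a : ℕ) (hl : l.Prime) (ha : 1 ≤ a) [NeZero (l ^ a)] (χ : DirichletCharacter ℂ (l ^ a))
    (hχ : χ.IsPrimitive) (g g' : ZMod (l ^ a) → ℂ) (hg : ∀ t, ‖g t‖ ≤ 2) (hg' : ∀ t, ‖g' t‖ ≤ 2) :
    ∑ z : ZMod (l ^ a), ∑ z' : ZMod (l ^ a), ‖∑ y : ZMod (l ^ a),
      star (χ (y + z)) * χ (y + z') * (g (y - z) * star (g' (y - z')))‖ ^ 2 ≤
      96 * ((l ^ a : ℕ) : ℝ) ^ 4 * (l : ℝ) ^ (-(a / 9 : ℝ)) := by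
  have hn2 : ‖(2 : ℂ)‖ = 2 := by simp
  have h := G5 l a hl ha χ hχ (fun t => star (g (-t)) / 2) (fun t => g' (-t) / 2)
    (fun t => by
      rw [norm_div, norm_star, hn2]
      have := hg (-t)
      linarith)
    (fun t => by
      rw [norm_div, hn2]
      have := hg' (-t)
      linarith)
  unfold GS at h
  have e1 : ∀ z z' : ZMod (l ^ a), ‖∑ y : ZMod (l ^ a),
      star (χ (y + z)) * χ (y + z') * (g (y - z) * star (g' (y - z')))‖ ^ 2 =
      16 * ‖∑ y : ZMod (l ^ a), χ (z + y) * star (χ (z' + y)) * (star (g (-(z - y))) / 2) *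
        (g' (-(z' - y)) / 2)‖ ^ 2 := by
    intro z z'
    have e2 : star (∑ y : ZMod (l ^ a), star (χ (y + z)) * χ (y + z') * (g (y - z) * star (g' (y - z')))) =
        4 * ∑ y : ZMod (l ^ a), χ (z + y) * star (χ (z' + y)) * (star (g (-(z - y))) / 2) *
        (g' (-(z' - y)) / 2) := by
      rw [star_sum, Finset.mul_sum]
      refine Finset.sum_congr rfl fun y _ => ?_
      rw [star_mul', star_mul', star_mul', star_star, star_star, neg_sub, neg_sub, add_comm z y, add_comm z' y]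
      ring
    have e3 := congrArg norm e2
    rw [norm_star, norm_mul] at e3
    have hn4 : ‖(4 : ℂ)‖ = 4 := by simp
    rw [e3, hn4]
    ring
  calc _ = 16 * ∑ z : ZMod (l ^ a), ∑ z' : ZMod (l ^ a), ‖∑ y : ZMod (l ^ a), χ (z + y) * star (χ (z' + y)) *
        (star (g (-(z - y))) / 2) * (g' (-(z' - y)) / 2)‖ ^ 2 := by
        rw [Finset.mul_sum]
        refine Finset.sum_congr rfl fun z _ => ?_
        rw [Finset.mul_sum]
        exact Finset.sum_congr rfl fun z' _ => e1 z z'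
    _ ≤ 16 * (6 * ((l ^ a : ℕ) : ℝ) ^ 4 * (l : ℝ) ^ (-(a / 9 : ℝ))) := mul_le_mul_of_nonneg_left h (by norm_num)
    _ = 96 * ((l ^ a : ℕ) : ℝ) ^ 4 * (l : ℝ) ^ (-(a / 9 : ℝ)) := by ring

/-- Proof. `E1_plus` after the substitution `z → -z`, `z' → -z'` (`Equiv.neg`). -/
theorem E1_minus (l a : ℕ) (hl : l.Prime) (ha : 1 ≤ a) [NeZero (l ^ a)] (χ : DirichletCharacter ℂ (l ^ a))
    (hχ : χ.IsPrimitive) (g g' : ZMod (l ^ a) → ℂ) (hg : ∀ t, ‖g t‖ ≤ 2) (hg' : ∀ t, ‖g' t‖ ≤ 2) :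
    ∑ z : ZMod (l ^ a), ∑ z' : ZMod (l ^ a), ‖∑ y : ZMod (l ^ a),
      star (χ (y - z)) * χ (y - z') * (g (y + z) * star (g' (y + z')))‖ ^ 2 ≤
      96 * ((l ^ a : ℕ) : ℝ) ^ 4 * (l : ℝ) ^ (-(a / 9 : ℝ)) := by
  refine le_trans (le_of_eq ?_) (E1_plus l a hl ha χ hχ g g' hg hg')
  rw [← Equiv.sum_comp (Equiv.neg (ZMod (l ^ a)))]
  refine Finset.sum_congr rfl fun z _ => ?_
  rw [← Equiv.sum_comp (Equiv.neg (ZMod (l ^ a)))]
  refine Finset.sum_congr rfl fun z' _ => ?_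
  simp only [Equiv.neg_apply, sub_neg_eq_add, ← sub_eq_add_neg]

/-- Cauchy-Schwarz: with a bounded function of `(z, z')`. Proof. `∑ ‖A‖ ‖B‖ ≤ C ∑ ‖A‖ ≤ C (q² ∑ ‖A‖²)^(1/2)`, `q = l^a`;
`l^(-a/18) = q^(-1/18)`. -/
theorem E1_cs (l a : ℕ) (hl : l.Prime) [NeZero (l ^ a)] (A B : ZMod (l ^ a) → ZMod (l ^ a) → ℂ) (M C : ℝ)
    (hC : 0 ≤ C) (hM : 0 ≤ M)
    (hA : ∑ z, ∑ z', ‖A z z'‖ ^ 2 ≤ M ^ 2 * (96 * ((l ^ a : ℕ) : ℝ) ^ 4 * (l : ℝ) ^ (-(a / 9 : ℝ))))
    (hB : ∀ z z', ‖B z z'‖ ≤ C) :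
    ‖∑ z, ∑ z', A z z' * B z z'‖ ≤
      10 * C * M * ((l ^ a : ℕ) : ℝ) ^ 3 * ((l ^ a : ℕ) : ℝ) ^ (-(1 / 18 : ℝ)) := by
  have hl0 : (0 : ℝ) < l := by exact_mod_cast hl.pos
  set q : ℝ := ((l ^ a : ℕ) : ℝ) with hq
  have hq0 : 0 < q := by
    rw [hq]
    exact_mod_cast pow_pos hl.pos a
  have hqe : q ^ (-(1 / 18 : ℝ)) = (l : ℝ) ^ (-(a / 18 : ℝ)) := by
    rw [hq]
    push_cast
    rw [← Real.rpow_natCast, ← Real.rpow_mul hl0.le]
    congr 1
    ring
  have hsq : ((l : ℝ) ^ (-(a / 18 : ℝ))) ^ 2 = (l : ℝ) ^ (-(a / 9 : ℝ)) := by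
    rw [← Real.rpow_natCast, ← Real.rpow_mul hl0.le]
    congr 1
    push_cast
    ring
  have h1 : ‖∑ z, ∑ z', A z z' * B z z'‖ ≤ C * ∑ p : ZMod (l ^ a) × ZMod (l ^ a), ‖A p.1 p.2‖ := by
    rw [Fintype.sum_prod_type, Finset.mul_sum]
    refine (norm_sum_le _ _).trans (Finset.sum_le_sum fun z _ => ?_)
    rw [Finset.mul_sum]
    refine (norm_sum_le _ _).trans (Finset.sum_le_sum fun z' _ => ?_)
    rw [norm_mul, mul_comm]
    exact mul_le_mul_of_nonneg_right (hB z z') (norm_nonneg _)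
  have h2 : (∑ p : ZMod (l ^ a) × ZMod (l ^ a), ‖A p.1 p.2‖) ^ 2 ≤
      q ^ 2 * ∑ p : ZMod (l ^ a) × ZMod (l ^ a), ‖A p.1 p.2‖ ^ 2 := by
    have h3 := sq_sum_le_card_mul_sum_sq (s := (univ : Finset (ZMod (l ^ a) × ZMod (l ^ a))))
      (f := fun p => ‖A p.1 p.2‖)
    refine h3.trans (le_of_eq ?_)
    rw [Finset.card_univ, Fintype.card_prod, ZMod.card, hq]
    push_cast
    ring
  have h3 : (∑ p : ZMod (l ^ a) × ZMod (l ^ a), ‖A p.1 p.2‖) ^ 2 ≤
      (10 * M * q ^ 3 * (l : ℝ) ^ (-(a / 18 : ℝ))) ^ 2 := by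
    rw [Fintype.sum_prod_type (f := fun p : ZMod (l ^ a) × ZMod (l ^ a) => ‖A p.1 p.2‖ ^ 2)] at h2
    refine h2.trans ((mul_le_mul_of_nonneg_left hA (by positivity)).trans ?_)
    have e1 : (10 * M * q ^ 3 * (l : ℝ) ^ (-(a / 18 : ℝ))) ^ 2 =
        100 * (M ^ 2 * q ^ 6 * (l : ℝ) ^ (-(a / 9 : ℝ))) := by
      rw [← hsq]
      ring
    have e2 : q ^ 2 * (M ^ 2 * (96 * q ^ 4 * (l : ℝ) ^ (-(a / 9 : ℝ)))) =
        96 * (M ^ 2 * q ^ 6 * (l : ℝ) ^ (-(a / 9 : ℝ))) := by ring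
    rw [e1, e2]
    exact mul_le_mul_of_nonneg_right (by norm_num) (by positivity)
  have h4 : ∑ p : ZMod (l ^ a) × ZMod (l ^ a), ‖A p.1 p.2‖ ≤
      10 * M * q ^ 3 * (l : ℝ) ^ (-(a / 18 : ℝ)) := by
    exact (pow_le_pow_iff_left₀ (Finset.sum_nonneg fun _ _ => norm_nonneg _) (by positivity) two_ne_zero).1 h3
  refine h1.trans ((mul_le_mul_of_nonneg_left h4 hC).trans (le_of_eq ?_))
  rw [hqe]
  ring

end Pool.Agent.Lib.H59T
end

-- from Lib.H59T.E2
section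

/-!
# Project H59T, chunk E2 (M): the four forms at a prime dividing the conductors
-/

open Finset

namespace Pool.Agent.Lib.H59T

/-- the sum over `y` of two forms, conductor in `y + z` -/
theorem e2_plus (l a : ℕ) (hl : l.Prime) (ha : 1 ≤ a) [NeZero (l ^ a)] (χ : DirichletCharacter ℂ (l ^ a))
    (hχ : χ.IsPrimitive) (c : ℝ) (hc : |c| ≤ 2) (G0 G0' G1 G1' : ZMod (l ^ a) → ℂ)
    (h0 : ∀ t, G0 t = c * (starRingEnd ℂ) (χ t)) (h0' : ∀ t, G0' t = c * (starRingEnd ℂ) (χ t))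
    (h1 : ∀ t, ‖G1 t‖ ≤ 2) (h1' : ∀ t, ‖G1' t‖ ≤ 2) :
    ∑ z : ZMod (l ^ a), ∑ z' : ZMod (l ^ a), ‖∑ y : ZMod (l ^ a),
      (G0 (y + z) * (starRingEnd ℂ) (G0' (y + z'))) * (G1 (y - z) * (starRingEnd ℂ) (G1' (y - z')))‖ ^ 2 ≤
      4 ^ 2 * (96 * ((l ^ a : ℕ) : ℝ) ^ 4 * (l : ℝ) ^ (-(a / 9 : ℝ))) := by
  have h := E1_plus l a hl ha χ hχ G1 G1' h1 h1'
  have e1 : ∀ z z' : ZMod (l ^ a), ‖∑ y : ZMod (l ^ a),
      (G0 (y + z) * (starRingEnd ℂ) (G0' (y + z'))) * (G1 (y - z) * (starRingEnd ℂ) (G1' (y - z')))‖ ^ 2 =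
      (|c| ^ 2) ^ 2 * ‖∑ y : ZMod (l ^ a), star (χ (y + z)) * χ (y + z') * (G1 (y - z) * star (G1' (y - z')))‖ ^ 2 := by
    intro z z'
    have e2 : ∑ y : ZMod (l ^ a),
      (G0 (y + z) * (starRingEnd ℂ) (G0' (y + z'))) * (G1 (y - z) * (starRingEnd ℂ) (G1' (y - z'))) =
        ((c : ℂ) ^ 2) * ∑ y : ZMod (l ^ a), star (χ (y + z)) * χ (y + z') * (G1 (y - z) * star (G1' (y - z'))) := by
      rw [Finset.mul_sum]
      refine Finset.sum_congr rfl fun y _ => ?_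
      rw [h0, h0', map_mul, Complex.conj_conj, Complex.conj_ofReal]
      simp only [← starRingEnd_apply]
      ring
    rw [e2, norm_mul, norm_pow, Complex.norm_real, Real.norm_eq_abs, mul_pow]
  have hc4 : (|c| ^ 2) ^ 2 ≤ 4 ^ 2 := by
    have hc2 : |c| ^ 2 ≤ 4 := by
      nlinarith [abs_nonneg c]
    exact pow_le_pow_left₀ (by positivity) hc2 2
  calc _ = (|c| ^ 2) ^ 2 * ∑ z : ZMod (l ^ a), ∑ z' : ZMod (l ^ a), ‖∑ y : ZMod (l ^ a),
        star (χ (y + z)) * χ (y + z') * (G1 (y - z) * star (G1' (y - z')))‖ ^ 2 := by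
        rw [Finset.mul_sum]
        refine Finset.sum_congr rfl fun z _ => ?_
        rw [Finset.mul_sum]
        exact Finset.sum_congr rfl fun z' _ => e1 z z'
    _ ≤ 4 ^ 2 * (96 * ((l ^ a : ℕ) : ℝ) ^ 4 * (l : ℝ) ^ (-(a / 9 : ℝ))) :=
      mul_le_mul hc4 h (Finset.sum_nonneg fun _ _ => Finset.sum_nonneg fun _ _ => by positivity) (by norm_num)

/-- the sum over `y` of two forms, conductor in `y - z` -/
theorem e2_minus (l a : ℕ) (hl : l.Prime) (ha : 1 ≤ a) [NeZero (l ^ a)] (χ : DirichletCharacter ℂ (l ^ a))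
    (hχ : χ.IsPrimitive) (c : ℝ) (hc : |c| ≤ 2) (G0 G0' G1 G1' : ZMod (l ^ a) → ℂ)
    (h0 : ∀ t, G1 t = c * (starRingEnd ℂ) (χ t)) (h0' : ∀ t, G1' t = c * (starRingEnd ℂ) (χ t))
    (h1 : ∀ t, ‖G0 t‖ ≤ 2) (h1' : ∀ t, ‖G0' t‖ ≤ 2) :
    ∑ z : ZMod (l ^ a), ∑ z' : ZMod (l ^ a), ‖∑ y : ZMod (l ^ a),
      (G0 (y + z) * (starRingEnd ℂ) (G0' (y + z'))) * (G1 (y - z) * (starRingEnd ℂ) (G1' (y - z')))‖ ^ 2 ≤
      4 ^ 2 * (96 * ((l ^ a : ℕ) : ℝ) ^ 4 * (l : ℝ) ^ (-(a / 9 : ℝ))) := by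
  have h := E1_minus l a hl ha χ hχ G0 G0' h1 h1'
  have e1 : ∀ z z' : ZMod (l ^ a), ‖∑ y : ZMod (l ^ a),
      (G0 (y + z) * (starRingEnd ℂ) (G0' (y + z'))) * (G1 (y - z) * (starRingEnd ℂ) (G1' (y - z')))‖ ^ 2 =
      (|c| ^ 2) ^ 2 * ‖∑ y : ZMod (l ^ a), star (χ (y - z)) * χ (y - z') * (G0 (y + z) * star (G0' (y + z')))‖ ^ 2 := by
    intro z z'
    have e2 : ∑ y : ZMod (l ^ a),
      (G0 (y + z) * (starRingEnd ℂ) (G0' (y + z'))) * (G1 (y - z) * (starRingEnd ℂ) (G1' (y - z'))) =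
        ((c : ℂ) ^ 2) * ∑ y : ZMod (l ^ a), star (χ (y - z)) * χ (y - z') * (G0 (y + z) * star (G0' (y + z'))) := by
      rw [Finset.mul_sum]
      refine Finset.sum_congr rfl fun y _ => ?_
      rw [h0, h0', map_mul, Complex.conj_conj, Complex.conj_ofReal]
      simp only [← starRingEnd_apply]
      ring
    rw [e2, norm_mul, norm_pow, Complex.norm_real, Real.norm_eq_abs, mul_pow]
  have hc4 : (|c| ^ 2) ^ 2 ≤ 4 ^ 2 := by
    have hc2 : |c| ^ 2 ≤ 4 := by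
      nlinarith [abs_nonneg c]
    exact pow_le_pow_left₀ (by positivity) hc2 2
  calc _ = (|c| ^ 2) ^ 2 * ∑ z : ZMod (l ^ a), ∑ z' : ZMod (l ^ a), ‖∑ y : ZMod (l ^ a),
        star (χ (y - z)) * χ (y - z') * (G0 (y + z) * star (G0' (y + z')))‖ ^ 2 := by
        rw [Finset.mul_sum]
        refine Finset.sum_congr rfl fun z _ => ?_
        rw [Finset.mul_sum]
        exact Finset.sum_congr rfl fun z' _ => e1 z z'
    _ ≤ 4 ^ 2 * (96 * ((l ^ a : ℕ) : ℝ) ^ 4 * (l : ℝ) ^ (-(a / 9 : ℝ))) :=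
      mul_le_mul hc4 h (Finset.sum_nonneg fun _ _ => Finset.sum_nonneg fun _ _ => by positivity) (by norm_num)

/-- the trivial bound for the sum over `y` -/
theorem e2_triv (q : ℕ) [NeZero q] (G0 G0' G1 G1' : ZMod q → ℂ) (b0 : ∀ t, ‖G0 t‖ ≤ 2) (b0' : ∀ t, ‖G0' t‖ ≤ 2)
    (b1 : ∀ t, ‖G1 t‖ ≤ 2) (b1' : ∀ t, ‖G1' t‖ ≤ 2) (z z' : ZMod q) :
    ‖∑ y : ZMod q, (G0 (y + z) * (starRingEnd ℂ) (G0' (y + z'))) *
      (G1 (y - z) * (starRingEnd ℂ) (G1' (y - z')))‖ ≤ 16 * (q : ℝ) := by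
  calc _ ≤ ∑ y : ZMod q, ‖(G0 (y + z) * (starRingEnd ℂ) (G0' (y + z'))) *
      (G1 (y - z) * (starRingEnd ℂ) (G1' (y - z')))‖ := norm_sum_le _ _
    _ ≤ ∑ _y : ZMod q, (16 : ℝ) := by
      refine Finset.sum_le_sum fun y _ => ?_
      rw [norm_mul, norm_mul, norm_mul, RCLike.norm_conj, RCLike.norm_conj]
      calc _ ≤ ((2 : ℝ) * 2) * (2 * 2) :=
            mul_le_mul (mul_le_mul (b0 _) (b0' _) (norm_nonneg _) (by norm_num))
              (mul_le_mul (b1 _) (b1' _) (norm_nonneg _) (by norm_num)) (by positivity) (by norm_num)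
        _ = 16 := by norm_num
    _ = 16 * (q : ℝ) := by rw [Finset.sum_const, Finset.card_univ, ZMod.card, nsmul_eq_mul, mul_comm]

/-- Proof. `C3_fun`, `C3_nest`: the sum is over `z, z'` of (sum over `y`) (sum over `y'`). If `i0` is `0` or `1` the sum over `y` is
`A = c² ∑_y star χ(y+z) χ(y+z') g_1(y-z) star g'_1(y-z')` (resp. `E1_minus`), and the sum over `y'` is at most
`16 q`, `q = l^a`; `E1_cs` with `M = 4`, `C = 16 q`: at most `640 q⁴ q^(-1/18)`. If `i0` is `2` or `3` exchange the roles of `y` and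
`y'`. -/
theorem E2_four (l a : ℕ) (hl : l.Prime) (ha : 1 ≤ a) (χ : DirichletCharacter ℂ (l ^ a))
    (hχ : χ.IsPrimitive) (c : ℝ) (hc : |c| ≤ 2) (g g' : Fin 4 → ℤ → ℂ)
    (hp : ∀ i m, g i (m + (l ^ a : ℕ)) = g i m) (hp' : ∀ i m, g' i (m + (l ^ a : ℕ)) = g' i m)
    (hb : ∀ i m, ‖g i m‖ ≤ 2) (hb' : ∀ i m, ‖g' i m‖ ≤ 2) (i0 : Fin 4)
    (h : ∀ m : ℤ, g i0 m = c * (starRingEnd ℂ) (χ (m : ZMod (l ^ a))))
    (h' : ∀ m : ℤ, g' i0 m = c * (starRingEnd ℂ) (χ (m : ZMod (l ^ a)))) :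
    ‖S4 (l ^ a) (Db ff g g')‖ ≤ ((l ^ a : ℕ) : ℝ) ^ 4 * (2 ^ 10 * ((l ^ a : ℕ) : ℝ) ^ (-(1 / 18 : ℝ))) := by
  haveI : NeZero (l ^ a) := ⟨pow_ne_zero _ hl.ne_zero⟩
  choose G hG using fun i => C3_fun (l ^ a) (g i) (hp i)
  choose G' hG' using fun i => C3_fun (l ^ a) (g' i) (hp' i)
  have hs : ∀ t : ZMod (l ^ a), ∃ m : ℤ, (m : ZMod (l ^ a)) = t := fun t => ZMod.intCast_surjective t
  have bG : ∀ i t, ‖G i t‖ ≤ 2 := by
    intro i t
    obtain ⟨m, rfl⟩ := hs t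
    rw [← hG]
    exact hb i m
  have bG' : ∀ i t, ‖G' i t‖ ≤ 2 := by
    intro i t
    obtain ⟨m, rfl⟩ := hs t
    rw [← hG']
    exact hb' i m
  have hG0 : ∀ t, G i0 t = c * (starRingEnd ℂ) (χ t) := by
    intro t
    obtain ⟨m, rfl⟩ := hs t
    rw [← hG]
    exact h m
  have hG0' : ∀ t, G' i0 t = c * (starRingEnd ℂ) (χ t) := by
    intro t
    obtain ⟨m, rfl⟩ := hs t
    rw [← hG']
    exact h' m
  have e1 : Db ff g g' = fun y y' z z' : ℤ =>
      (fun y y' z z' : ZMod (l ^ a) =>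
        ((G 0 (y + z) * (starRingEnd ℂ) (G' 0 (y + z'))) * (G 1 (y - z) * (starRingEnd ℂ) (G' 1 (y - z')))) *
        ((G 2 (y' + z) * (starRingEnd ℂ) (G' 2 (y' + z'))) * (G 3 (y' - z) * (starRingEnd ℂ) (G' 3 (y' - z')))))
        y y' z z' := by
    funext y y' z z'
    unfold Db
    rw [Fin.prod_univ_four]
    simp only [ff, hG, hG', Matrix.cons_val_zero, Matrix.cons_val_one, Matrix.cons_val]
    push_cast
    ring
  have e2 : S4 (l ^ a) (Db ff g g') = ∑ z : ZMod (l ^ a), ∑ z' : ZMod (l ^ a),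
      (∑ y : ZMod (l ^ a), (G 0 (y + z) * (starRingEnd ℂ) (G' 0 (y + z'))) *
        (G 1 (y - z) * (starRingEnd ℂ) (G' 1 (y - z')))) *
      ∑ y' : ZMod (l ^ a), (G 2 (y' + z) * (starRingEnd ℂ) (G' 2 (y' + z'))) *
        (G 3 (y' - z) * (starRingEnd ℂ) (G' 3 (y' - z'))) := by
    rw [e1, C3_nest (l ^ a) (fun y y' z z' : ZMod (l ^ a) =>
        ((G 0 (y + z) * (starRingEnd ℂ) (G' 0 (y + z'))) * (G 1 (y - z) * (starRingEnd ℂ) (G' 1 (y - z')))) *
        ((G 2 (y' + z) * (starRingEnd ℂ) (G' 2 (y' + z'))) * (G 3 (y' - z) * (starRingEnd ℂ) (G' 3 (y' - z')))))]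
    have e3 : ∀ y : ZMod (l ^ a), ∑ y' : ZMod (l ^ a), ∑ z : ZMod (l ^ a), ∑ z' : ZMod (l ^ a),
        ((G 0 (y + z) * (starRingEnd ℂ) (G' 0 (y + z'))) * (G 1 (y - z) * (starRingEnd ℂ) (G' 1 (y - z')))) *
        ((G 2 (y' + z) * (starRingEnd ℂ) (G' 2 (y' + z'))) * (G 3 (y' - z) * (starRingEnd ℂ) (G' 3 (y' - z')))) =
        ∑ z : ZMod (l ^ a), ∑ z' : ZMod (l ^ a), ∑ y' : ZMod (l ^ a),
        ((G 0 (y + z) * (starRingEnd ℂ) (G' 0 (y + z'))) * (G 1 (y - z) * (starRingEnd ℂ) (G' 1 (y - z')))) *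
        ((G 2 (y' + z) * (starRingEnd ℂ) (G' 2 (y' + z'))) * (G 3 (y' - z) * (starRingEnd ℂ) (G' 3 (y' - z')))) := by
      intro y
      rw [Finset.sum_comm]
      exact Finset.sum_congr rfl fun z _ => Finset.sum_comm
    rw [Finset.sum_congr rfl fun y _ => e3 y, Finset.sum_comm]
    refine Finset.sum_congr rfl fun z _ => ?_
    rw [Finset.sum_comm]
    refine Finset.sum_congr rfl fun z' _ => ?_
    rw [Finset.sum_mul_sum]
  have hq0 : (0 : ℝ) < ((l ^ a : ℕ) : ℝ) := by exact_mod_cast pow_pos hl.pos a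
  have hfin : ∀ A B : ZMod (l ^ a) → ZMod (l ^ a) → ℂ,
      ∑ z, ∑ z', ‖A z z'‖ ^ 2 ≤ 4 ^ 2 * (96 * ((l ^ a : ℕ) : ℝ) ^ 4 * (l : ℝ) ^ (-(a / 9 : ℝ))) →
      (∀ z z', ‖B z z'‖ ≤ 16 * ((l ^ a : ℕ) : ℝ)) →
      ‖∑ z, ∑ z', A z z' * B z z'‖ ≤
        ((l ^ a : ℕ) : ℝ) ^ 4 * (2 ^ 10 * ((l ^ a : ℕ) : ℝ) ^ (-(1 / 18 : ℝ))) := by
    intro A B hA hB
    refine (E1_cs l a hl A B 4 (16 * ((l ^ a : ℕ) : ℝ)) (by positivity) (by norm_num) hA hB).trans ?_
    have e4 : 10 * (16 * ((l ^ a : ℕ) : ℝ)) * 4 * ((l ^ a : ℕ) : ℝ) ^ 3 * ((l ^ a : ℕ) : ℝ) ^ (-(1 / 18 : ℝ)) =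
        640 * (((l ^ a : ℕ) : ℝ) ^ 4 * ((l ^ a : ℕ) : ℝ) ^ (-(1 / 18 : ℝ))) := by ring
    have e5 : ((l ^ a : ℕ) : ℝ) ^ 4 * (2 ^ 10 * ((l ^ a : ℕ) : ℝ) ^ (-(1 / 18 : ℝ))) =
        1024 * (((l ^ a : ℕ) : ℝ) ^ 4 * ((l ^ a : ℕ) : ℝ) ^ (-(1 / 18 : ℝ))) := by ring
    rw [e4, e5]
    exact mul_le_mul_of_nonneg_right (by norm_num) (by positivity)
  have hsw : ∀ A B : ZMod (l ^ a) → ZMod (l ^ a) → ℂ, ∑ z, ∑ z', A z z' * B z z' = ∑ z, ∑ z', B z z' * A z z' :=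
    fun A B => Finset.sum_congr rfl fun z _ => Finset.sum_congr rfl fun z' _ => mul_comm _ _
  rw [e2]
  fin_cases i0
  · exact hfin _ _ (e2_plus l a hl ha χ hχ c hc _ _ _ _ hG0 hG0' (bG 1) (bG' 1))
      (fun z z' => e2_triv (l ^ a) _ _ _ _ (bG 2) (bG' 2) (bG 3) (bG' 3) z z')
  · exact hfin _ _ (e2_minus l a hl ha χ hχ c hc _ _ _ _ hG0 hG0' (bG 0) (bG' 0))
      (fun z z' => e2_triv (l ^ a) _ _ _ _ (bG 2) (bG' 2) (bG 3) (bG' 3) z z')
  · rw [hsw]
    exact hfin _ _ (e2_plus l a hl ha χ hχ c hc _ _ _ _ hG0 hG0' (bG 3) (bG' 3))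
      (fun z z' => e2_triv (l ^ a) _ _ _ _ (bG 0) (bG' 0) (bG 1) (bG' 1) z z')
  · rw [hsw]
    exact hfin _ _ (e2_minus l a hl ha χ hχ c hc _ _ _ _ hG0 hG0' (bG 2) (bG' 2))
      (fun z z' => e2_triv (l ^ a) _ _ _ _ (bG 0) (bG' 0) (bG 1) (bG' 1) z z')

end Pool.Agent.Lib.H59T
end

-- from Lib.H59T.E3
section

/-!
# Project H59T, chunk E3 (M): two independent linear forms modulo a prime
-/

open Finset

namespace Pool.Agent.Lib.H59T

theorem e3_prod (i j : Fin 4) (hij : i ≠ j) (A B L : ℂ) :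
    ∏ k : Fin 4, (if k = i then A else if k = j then B else L) = L ^ 2 * (A * B) := by
  revert hij
  fin_cases i <;> fin_cases j <;> intro hij <;> first | exact absurd rfl hij | (rw [Fin.prod_univ_four]; simp; try ring)

theorem e3_ij (l : ℕ) [Fact l.Prime] (i j : Fin 4) (hij : i ≠ j) (f g : ZMod l → ℂ) :
    ∑ x : Fin 4 → ZMod l, f (x i) * g (x j) = (l : ℂ) ^ 2 * ((∑ t, f t) * ∑ t, g t) := by
  have h1 : ∀ x : Fin 4 → ZMod l, f (x i) * g (x j) = ∏ k : Fin 4, (if k = i then f (x k) else if k = j then g (x k) else 1) := by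
    intro x
    have h2 : ∏ k : Fin 4, (if k = i then f (x k) else if k = j then g (x k) else 1) =
        ∏ k : Fin 4, (if k = i then f (x i) else if k = j then g (x j) else 1) := by
      refine Finset.prod_congr rfl fun k _ => ?_
      split_ifs with h3 h4
      · rw [h3]
      · rw [h4]
      · rfl
    rw [h2, e3_prod i j hij, one_pow, one_mul]
  rw [Finset.sum_congr rfl fun x _ => h1 x]
  have h3 := Finset.prod_univ_sum (fun _ : Fin 4 => (univ : Finset (ZMod l)))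
    (fun k t => if k = i then f t else if k = j then g t else (1 : ℂ))
  rw [Fintype.piFinset_univ] at h3
  rw [← h3]
  have h4 : ∀ k : Fin 4, ∑ t : ZMod l, (if k = i then f t else if k = j then g t else (1 : ℂ)) =
      if k = i then ∑ t, f t else if k = j then ∑ t, g t else (l : ℂ) := by
    intro k
    split_ifs with h5 h6
    · rfl
    · rfl
    · simp [ZMod.card]
  rw [Finset.prod_congr rfl fun k _ => h4 k, e3_prod i j hij]

/-- Proof. Replace the coordinates `i, j` of `x` by `∑ u_k x_k + c` and `∑ v_k x_k + d`: this map of `Fin 4 → ZMod l` to itself is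
injective (the minor is not `0`), so bijective (`Finite.injective_iff_bijective`), and the sum becomes
`∑_x f (x i) g (x j) = l² (∑ f) (∑ g)` (`Finset.prod_univ_sum`/`Fintype.piFinset_univ`, `i ≠ j` because the minor is not `0`). -/
theorem E3_two (l : ℕ) [Fact l.Prime] (u v : Fin 4 → ZMod l) (c d : ZMod l) (i j : Fin 4)
    (hij : u i * v j - u j * v i ≠ 0) (f g : ZMod l → ℂ) :
    ∑ x : Fin 4 → ZMod l, f (∑ k, u k * x k + c) * g (∑ k, v k * x k + d) =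
      (l : ℂ) ^ 2 * ((∑ t, f t) * ∑ t, g t) := by
  have hne : i ≠ j := by
    rintro rfl
    exact hij (by ring)
  let Φ : (Fin 4 → ZMod l) → (Fin 4 → ZMod l) := fun x =>
    Function.update (Function.update x i (∑ k, u k * x k + c)) j (∑ k, v k * x k + d)
  have hΦi : ∀ x, Φ x i = ∑ k, u k * x k + c := by
    intro x
    simp [Φ, Function.update_of_ne hne]
  have hΦj : ∀ x, Φ x j = ∑ k, v k * x k + d := by
    intro x
    simp [Φ]
  have hΦk : ∀ x k, k ≠ i → k ≠ j → Φ x k = x k := by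
    intro x k h1 h2
    simp [Φ, Function.update_of_ne h1, Function.update_of_ne h2]
  have hinj : Function.Injective Φ := by
    intro x y hxy
    have h1 : ∀ k, k ≠ i → k ≠ j → x k - y k = 0 := by
      intro k h1 h2
      rw [← hΦk x k h1 h2, ← hΦk y k h1 h2, hxy, sub_self]
    have hsum : ∀ w : Fin 4 → ZMod l, ∑ k, w k * (x k - y k) = w i * (x i - y i) + w j * (x j - y j) := by
      intro w
      have : ∑ k, w k * (x k - y k) = ∑ k ∈ ({i, j} : Finset (Fin 4)), w k * (x k - y k) := by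
        refine (Finset.sum_subset (Finset.subset_univ _) fun k _ hk => ?_).symm
        rw [Finset.mem_insert, Finset.mem_singleton] at hk
        push Not at hk
        rw [h1 k hk.1 hk.2, mul_zero]
      rw [this, Finset.sum_pair hne]
    have h2 : ∑ k, u k * (x k - y k) = 0 := by
      have h3 := hΦi x
      rw [hxy, hΦi y] at h3
      simp only [mul_sub, Finset.sum_sub_distrib]
      linear_combination -h3
    have h2' : ∑ k, v k * (x k - y k) = 0 := by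
      have h3 := hΦj x
      rw [hxy, hΦj y] at h3
      simp only [mul_sub, Finset.sum_sub_distrib]
      linear_combination -h3
    rw [hsum u] at h2
    rw [hsum v] at h2'
    have h5 : (u i * v j - u j * v i) * (x i - y i) = 0 := by
      linear_combination v j * h2 - u j * h2'
    have h6 : (u i * v j - u j * v i) * (x j - y j) = 0 := by
      linear_combination -v i * h2 + u i * h2'
    have h5' := (mul_eq_zero.1 h5).resolve_left hij
    have h6' := (mul_eq_zero.1 h6).resolve_left hij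
    funext k
    by_cases hki : k = i
    · rw [hki]; exact sub_eq_zero.1 h5'
    · by_cases hkj : k = j
      · rw [hkj]; exact sub_eq_zero.1 h6'
      · exact sub_eq_zero.1 (h1 k hki hkj)
  have hbij : Function.Bijective Φ := Finite.injective_iff_bijective.1 hinj
  rw [← e3_ij l i j hne f g, ← hbij.sum_comp (fun x => f (x i) * g (x j))]
  refine Finset.sum_congr rfl fun x _ => ?_
  rw [hΦi, hΦj]

/-- Proof. `E3_two` with the form `v = e_j`, `j ≠ i`, and `g = 1`. -/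
theorem E3_one (l : ℕ) [Fact l.Prime] (u : Fin 4 → ZMod l) (c : ZMod l) (i : Fin 4) (hi : u i ≠ 0)
    (f : ZMod l → ℂ) : ∑ x : Fin 4 → ZMod l, f (∑ k, u k * x k + c) = (l : ℂ) ^ 3 * ∑ t, f t := by
  obtain ⟨j, hj⟩ : ∃ j : Fin 4, j ≠ i := exists_ne i
  have h := E3_two l u (Pi.single j 1) c 0 i j (by
    rw [Pi.single_eq_same, Pi.single_eq_of_ne hj.symm]
    simpa using hi) f (fun _ => 1)
  simp only [mul_one] at h
  rw [h]
  simp [ZMod.card]
  ring

/-- The number of the common zeros. Proof. `E3_two` with the indicator function of `0`. -/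
theorem E3_zero (l : ℕ) [Fact l.Prime] (u v : Fin 4 → ZMod l) (c d : ZMod l) (i j : Fin 4)
    (hij : u i * v j - u j * v i ≠ 0) :
    ((univ : Finset (Fin 4 → ZMod l)).filter
      (fun x => ∑ k, u k * x k + c = 0 ∧ ∑ k, v k * x k + d = 0)).card = l ^ 2 := by
  have h := E3_two l u v c d i j hij (fun t => if t = 0 then 1 else 0) (fun t => if t = 0 then 1 else 0)
  have h1 : ∑ t : ZMod l, (if t = 0 then (1 : ℂ) else 0) = 1 := by simp
  rw [h1, mul_one, mul_one] at h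
  have h2 : (((univ : Finset (Fin 4 → ZMod l)).filter
      (fun x => ∑ k, u k * x k + c = 0 ∧ ∑ k, v k * x k + d = 0)).card : ℂ) = (l : ℂ) ^ 2 := by
    rw [← h, Finset.card_filter, Nat.cast_sum]
    refine Finset.sum_congr rfl fun x _ => ?_
    by_cases ha : ∑ k, u k * x k + c = 0 <;> by_cases hb : ∑ k, v k * x k + d = 0 <;> simp [ha, hb]
  exact_mod_cast h2

/-- Proof. `(l - 1) (1/(l-1)) - 1 = 0`. -/
theorem E3_glz (l : ℕ) [Fact l.Prime] : ∑ t : ZMod l, glz l t = 0 := by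
  have hl : (l : ℝ) - 1 ≠ 0 := by
    have : 2 ≤ l := (Fact.out : l.Prime).two_le
    have h : (2 : ℝ) ≤ l := by exact_mod_cast this
    linarith
  have h1 : ∀ t : ZMod l, glz l t = 1 / ((l : ℝ) - 1) + if t = 0 then (-1 - 1 / ((l : ℝ) - 1)) else 0 := by
    intro t
    rw [glz]
    split_ifs <;> ring
  rw [Finset.sum_congr rfl fun t _ => h1 t, Finset.sum_add_distrib]
  simp [ZMod.card]
  field_simp
  ring

end Pool.Agent.Lib.H59T
end

-- from Lib.H59T.E4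
section

/-!
# Project H59T, chunk E4 (M): products of the factors `gl` at pairwise independent forms
-/

open Finset

namespace Pool.Agent.Lib.H59T

theorem e4_abs (l : ℕ) [Fact l.Prime] (t : ZMod l) : |glz l t| ≤ 1 := by
  have : 2 ≤ l := (Fact.out : l.Prime).two_le
  have h : (2 : ℝ) ≤ l := by exact_mod_cast this
  rw [glz]
  split_ifs
  · simp
  · rw [abs_of_nonneg (by apply div_nonneg <;> linarith), div_le_one (by linarith)]
    linarith

theorem e4_ne (l : ℕ) [Fact l.Prime] (t : ZMod l) (ht : t ≠ 0) : |glz l t| = 1 / ((l : ℝ) - 1) := by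
  have : 2 ≤ l := (Fact.out : l.Prime).two_le
  have h : (2 : ℝ) ≤ l := by exact_mod_cast this
  rw [glz, if_neg ht, abs_of_nonneg (by apply div_nonneg <;> linarith)]

theorem e4_three (l : ℕ) [Fact l.Prime] (a b c : ZMod l) :
    |glz l a| * |glz l b| * |glz l c| ≤ (if a = 0 ∧ b = 0 then 1 else 0) + (if a = 0 ∧ c = 0 then 1 else 0) +
      (if b = 0 ∧ c = 0 then 1 else 0) + (1 / ((l : ℝ) - 1)) ^ 2 := by
  have : 2 ≤ l := (Fact.out : l.Prime).two_le
  have h : (2 : ℝ) ≤ l := by exact_mod_cast this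
  have hq0 : 0 ≤ 1 / ((l : ℝ) - 1) := by apply div_nonneg <;> linarith
  have hA := e4_abs l a
  have hB := e4_abs l b
  have hC := e4_abs l c
  have hA0 := abs_nonneg (glz l a)
  have hB0 := abs_nonneg (glz l b)
  have hC0 := abs_nonneg (glz l c)
  have hall : |glz l a| * |glz l b| * |glz l c| ≤ 1 := by
    have := mul_le_one₀ (mul_le_one₀ hA hB0 hB) hC0 hC
    exact this
  have hq2 : 0 ≤ (1 / ((l : ℝ) - 1)) ^ 2 := sq_nonneg _
  by_cases ha : a = 0
  · by_cases hb : b = 0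
    · simp only [ha, hb, true_and]
      rw [ha, hb] at hall
      split_ifs <;> linarith
    · by_cases hc : c = 0
      · simp only [ha, hc, hb, and_true, and_false, if_true, if_false]
        rw [ha, hc] at hall
        linarith
      · simp only [hb, hc, and_false, false_and, if_false]
        rw [e4_ne l b hb, e4_ne l c hc, sq, zero_add, zero_add, zero_add, mul_assoc]
        exact mul_le_of_le_one_left (mul_nonneg hq0 hq0) hA
  · by_cases hb : b = 0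
    · by_cases hc : c = 0
      · simp only [ha, hc, hb, and_true, false_and, if_true, if_false]
        rw [hb, hc] at hall
        linarith
      · simp only [ha, hc, and_false, false_and, if_false]
        rw [e4_ne l a ha, e4_ne l c hc, sq, zero_add, zero_add, zero_add, mul_right_comm]
        exact mul_le_of_le_one_right (mul_nonneg hq0 hq0) hB
    · simp only [ha, hb, false_and, if_false]
      rw [e4_ne l a ha, e4_ne l b hb, sq, zero_add, zero_add, zero_add]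
      exact mul_le_of_le_one_right (mul_nonneg hq0 hq0) hC

theorem e4_count (l : ℕ) [Fact l.Prime] (u v : Fin 4 → ZMod l) (c d : ZMod l)
    (huv : ∃ a b, u a * v b - u b * v a ≠ 0) :
    ∑ x : Fin 4 → ZMod l, (if ∑ k, u k * x k + c = 0 ∧ ∑ k, v k * x k + d = 0 then (1 : ℝ) else 0) = (l : ℝ) ^ 2 := by
  obtain ⟨a, b, h⟩ := huv
  have h1 := E3_zero l u v c d a b h
  rw [← Finset.sum_filter, Finset.sum_const, nsmul_eq_mul, mul_one, h1]
  push_cast
  rfl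

/-- Proof. `S` has one element: `0` (`E3_one`, `E3_glz`); two elements: `0` (`E3_two`). At least three: choose three different
`i1, i2, i3 ∈ S`; `|glz| ≤ 1`, so the product is at most `|glz glz glz|` at these three. The number of `x` for which at
least two of the three forms vanish is at most `3 l²` (`E3_zero`); for the others at least two factors are `1/(l-1)`, and
`l⁴/(l-1)² ≤ 4 l²`. Total `7 l²`. -/
theorem E4_gl (l : ℕ) [Fact l.Prime] (m : ℕ) (u : Fin m → Fin 4 → ZMod l) (c : Fin m → ZMod l)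
    (hu : ∀ i j, i ≠ j → ∃ a b, u i a * u j b - u i b * u j a ≠ 0) (hu1 : ∀ i, ∃ a, u i a ≠ 0)
    (S : Finset (Fin m)) (hS : S.Nonempty) :
    ‖∑ x : Fin 4 → ZMod l, ∏ i ∈ S, ((glz l (∑ k, u i k * x k + c i) : ℝ) : ℂ)‖ ≤ 7 * (l : ℝ) ^ 2 := by
  have hl2 : 2 ≤ l := (Fact.out : l.Prime).two_le
  have hl : (2 : ℝ) ≤ l := by exact_mod_cast hl2
  have hz : (∑ t : ZMod l, ((glz l t : ℝ) : ℂ)) = 0 := by
    rw [← Complex.ofReal_sum, E3_glz, Complex.ofReal_zero]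
  have hc0 : 1 ≤ S.card := hS.card_pos
  rcases (by omega : S.card = 1 ∨ S.card = 2 ∨ 3 ≤ S.card) with h1 | h2 | h3
  · obtain ⟨i, rfl⟩ := Finset.card_eq_one.1 h1
    obtain ⟨a, ha⟩ := hu1 i
    have h := E3_one l (u i) (c i) a ha (fun t => ((glz l t : ℝ) : ℂ))
    simp only [Finset.prod_singleton]
    rw [h, hz, mul_zero, norm_zero]
    positivity
  · obtain ⟨i, j, hij, rfl⟩ := Finset.card_eq_two.1 h2
    obtain ⟨a, b, hab⟩ := hu i j hij
    have h := E3_two l (u i) (u j) (c i) (c j) a b hab (fun t => ((glz l t : ℝ) : ℂ)) (fun t => ((glz l t : ℝ) : ℂ))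
    simp only [Finset.prod_pair hij]
    rw [h, hz, mul_zero, mul_zero, norm_zero]
    positivity
  · obtain ⟨T, hTS, hT3⟩ := Finset.exists_subset_card_eq h3
    obtain ⟨i, j, k, hij, hik, hjk, rfl⟩ := Finset.card_eq_three.1 hT3
    have hx : ∀ x : Fin 4 → ZMod l, ‖∏ i ∈ S, ((glz l (∑ k, u i k * x k + c i) : ℝ) : ℂ)‖ ≤
        |glz l (∑ m, u i m * x m + c i)| * |glz l (∑ m, u j m * x m + c j)| * |glz l (∑ m, u k m * x m + c k)| := by
      intro x
      rw [norm_prod]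
      simp only [Complex.norm_real, Real.norm_eq_abs]
      rw [← Finset.prod_sdiff hTS]
      have h4 : ∏ i ∈ S \ {i, j, k}, |glz l (∑ k, u i k * x k + c i)| ≤ 1 :=
        Finset.prod_le_one (fun _ _ => abs_nonneg _) (fun _ _ => e4_abs l _)
      have h5 : ∏ i ∈ ({i, j, k} : Finset (Fin m)), |glz l (∑ k, u i k * x k + c i)| =
          |glz l (∑ m, u i m * x m + c i)| * |glz l (∑ m, u j m * x m + c j)| * |glz l (∑ m, u k m * x m + c k)| := by
        rw [Finset.prod_insert (by simp [hij, hik]), Finset.prod_pair hjk, mul_assoc]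
      rw [h5]
      exact mul_le_of_le_one_left (by positivity) h4
    calc ‖∑ x : Fin 4 → ZMod l, ∏ i ∈ S, ((glz l (∑ k, u i k * x k + c i) : ℝ) : ℂ)‖ ≤
        ∑ x : Fin 4 → ZMod l, ‖∏ i ∈ S, ((glz l (∑ k, u i k * x k + c i) : ℝ) : ℂ)‖ := norm_sum_le _ _
      _ ≤ ∑ x : Fin 4 → ZMod l, ((if (∑ m, u i m * x m + c i = 0 ∧ ∑ m, u j m * x m + c j = 0) then (1 : ℝ) else 0) +
          (if (∑ m, u i m * x m + c i = 0 ∧ ∑ m, u k m * x m + c k = 0) then 1 else 0) +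
          (if (∑ m, u j m * x m + c j = 0 ∧ ∑ m, u k m * x m + c k = 0) then 1 else 0) + (1 / ((l : ℝ) - 1)) ^ 2) :=
        Finset.sum_le_sum fun x _ => (hx x).trans (e4_three l _ _ _)
      _ = 3 * (l : ℝ) ^ 2 + (l : ℝ) ^ 4 * (1 / ((l : ℝ) - 1)) ^ 2 := by
        rw [Finset.sum_add_distrib, Finset.sum_add_distrib, Finset.sum_add_distrib, e4_count l _ _ _ _ (hu i j hij),
          e4_count l _ _ _ _ (hu i k hik), e4_count l _ _ _ _ (hu j k hjk), Finset.sum_const, Finset.card_univ,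
          Fintype.card_fun, ZMod.card, Fintype.card_fin, nsmul_eq_mul]
        push_cast
        ring
      _ ≤ 7 * (l : ℝ) ^ 2 := by
        have h6 : (l : ℝ) * (1 / ((l : ℝ) - 1)) ≤ 2 := by
          rw [mul_one_div, div_le_iff₀ (by linarith)]
          linarith
        have h7 : 0 ≤ (l : ℝ) * (1 / ((l : ℝ) - 1)) := by
          apply mul_nonneg (by linarith)
          apply div_nonneg <;> linarith
        have h8 : ((l : ℝ) * (1 / ((l : ℝ) - 1))) ^ 2 ≤ 4 := by nlinarith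
        have h9 : (l : ℝ) ^ 4 * (1 / ((l : ℝ) - 1)) ^ 2 = (l : ℝ) ^ 2 * ((l : ℝ) * (1 / ((l : ℝ) - 1))) ^ 2 := by ring
        rw [h9]
        have h10 : (0 : ℝ) ≤ (l : ℝ) ^ 2 := by positivity
        nlinarith

end Pool.Agent.Lib.H59T
end

-- from Lib.H59T.E5
section

/-!
# Project H59T, chunk E5 (M): the four forms at a prime not dividing the conductors
-/

open Finset

namespace Pool.Agent.Lib.H59T

open Pool.Agent.Lib.H68T Pool.Agent.Lib.H18Q Pool.Agent.Lib.H59P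

/-- The rows of the eight forms. -/
def e5_U : Fin 8 → Fin 4 → ℤ := ![![1, 0, 1, 0], ![1, 0, -1, 0], ![0, 1, 1, 0], ![0, 1, -1, 0],
  ![1, 0, 0, 1], ![1, 0, 0, -1], ![0, 1, 0, 1], ![0, 1, 0, -1]]

theorem e5_minor : ∀ i j : Fin 8, i ≠ j →
    ∃ a b, (e5_U i a * e5_U j b - e5_U i b * e5_U j a) ∣ 4 := by
  decide +kernel

theorem e5_row : ∀ i : Fin 8, ∃ a, e5_U i a ∣ 4 := by
  decide +kernel

theorem e5_cast (l : ℕ) (hl : l.Prime) (h2 : l ≠ 2) (v : ℤ) (hv : v ∣ 4) : (v : ZMod l) ≠ 0 := by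
  intro h
  rw [ZMod.intCast_zmod_eq_zero_iff_dvd] at h
  have h4 : (l : ℤ) ∣ ((4 : ℕ) : ℤ) := h.trans (by exact_mod_cast hv)
  have h5 : l ∣ 2 ^ 2 := by exact_mod_cast h4
  exact h2 ((Nat.prime_dvd_prime_iff_eq hl Nat.prime_two).1 (hl.dvd_of_dvd_pow h5))

theorem e5_g (p : Prop) [Decidable p] (x : ℝ) :
    (starRingEnd ℂ) (if p then (x : ℂ) else 1) = if p then (x : ℂ) else 1 := by
  split_ifs
  · exact Complex.conj_ofReal _
  · exact map_one _

theorem e5_two (p : Prop) [Decidable p] (m : ℤ) :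
    ‖(if p then ((gl 2 m : ℝ) : ℂ) else 1)‖ ≤ 1 := by
  split_ifs
  · rw [Complex.norm_real]
    unfold gl
    split_ifs <;> norm_num
  · simp

/-- Proof. `l = 2`: `|g| ≤ 1`, the sum is at most `16 = 4 l²` (`C3_triv`). `l` odd: `C3_fin`, `C3_gl`; `E4_gl` for the eight forms
`y+z, y-z, y'+z, y'-z, y+z', y-z', y'+z', y'-z'` (rows `u` of integers in `{0, 1, -1}` cast to `ZMod l`; each of the `28` pairs has
a minor `±1` or `±2`: `decide` over the integers, then `2 ≠ 0` in `ZMod l`), `S` = the set of the forms with `g = gl`;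
`gl` is real. -/
theorem E5_four (l : ℕ) (hl : l.Prime) (s s' : Fin 4 → Prop) [DecidablePred s] [DecidablePred s']
    (hs : ∃ i, s i ∨ s' i) :
    ‖S4 l (Db ff (fun i m => if s i then ((gl l m : ℝ) : ℂ) else 1)
      (fun i m => if s' i then ((gl l m : ℝ) : ℂ) else 1))‖ ≤ 7 * (l : ℝ) ^ 2 := by
  classical
  by_cases h2 : l = 2
  · subst h2
    refine le_trans (C3_triv 2 _ 1 ?_) (by norm_num)
    intro y y' z z'
    unfold Db
    rw [norm_prod]
    refine Finset.prod_le_one (fun i _ => norm_nonneg _) fun i _ => ?_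
    rw [norm_mul, RCLike.norm_conj]
    exact mul_le_one₀ (e5_two _ _) (norm_nonneg _) (e5_two _ _)
  have : Fact l.Prime := ⟨hl⟩
  obtain ⟨t, ht⟩ : ∃ t : Fin 8 → Prop, t = ![s 0, s 1, s 2, s 3, s' 0, s' 1, s' 2, s' 3] := ⟨_, rfl⟩
  have hS : (univ.filter fun j : Fin 8 => t j).Nonempty := by
    obtain ⟨i, hi⟩ := hs
    rw [ht]
    rcases hi with hi | hi
    · fin_cases i
      · exact ⟨0, by simpa using hi⟩
      · exact ⟨1, by simpa using hi⟩
      · exact ⟨2, by simpa using hi⟩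
      · exact ⟨3, by simpa using hi⟩
    · fin_cases i
      · exact ⟨4, by simpa using hi⟩
      · exact ⟨5, by simpa using hi⟩
      · exact ⟨6, by simpa using hi⟩
      · exact ⟨7, by simpa using hi⟩
  have h4 := E4_gl l 8 (fun i k => ((e5_U i k : ℤ) : ZMod l)) (fun _ => 0)
    (fun i j hij => by
      obtain ⟨a, b, hab⟩ := e5_minor i j hij
      refine ⟨a, b, ?_⟩
      have h := e5_cast l hl h2 _ hab
      push_cast at h
      exact h)
    (fun i => by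
      obtain ⟨a, ha⟩ := e5_row i
      exact ⟨a, e5_cast l hl h2 _ ha⟩) (univ.filter fun j : Fin 8 => t j) hS
  have h5 := C3_fin l (fun a b c d => ∏ i ∈ univ.filter (fun j : Fin 8 => t j),
    ((glz l (∑ k, ((e5_U i k : ℤ) : ZMod l) * ![a, b, c, d] k + 0) : ℝ) : ℂ))
  have h6 : S4 l (Db ff (fun i m => if s i then ((gl l m : ℝ) : ℂ) else 1)
      (fun i m => if s' i then ((gl l m : ℝ) : ℂ) else 1)) =
      S4 l (fun y y' z z' => ∏ i ∈ univ.filter (fun j : Fin 8 => t j),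
        ((glz l (∑ k, ((e5_U i k : ℤ) : ZMod l) *
          ![(y : ZMod l), (y' : ZMod l), (z : ZMod l), (z' : ZMod l)] k + 0) : ℝ) : ℂ)) := by
    congr 1
    funext y y' z z'
    rw [Finset.prod_filter, Fin.prod_univ_eight]
    unfold Db ff
    rw [Fin.prod_univ_four]
    simp only [e5_g, C3_gl, ht, e5_U, Fin.sum_univ_four]
    simp [-mul_ite, -ite_mul]
    ring_nf
  rw [h6, h5]
  have h7 : ∀ x : Fin 4 → ZMod l, ![x 0, x 1, x 2, x 3] = x := by
    intro x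
    funext k
    fin_cases k <;> rfl
  simp only [h7]
  exact h4

end Pool.Agent.Lib.H59T
end
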