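import Pool.Agent.Lib.H1M.RV2.M074

/-! Merged copies (to shorten the build) of Lib.H59T.L1, Lib.H59T.L2, Lib.H59T.L3, Lib.H59T.L4, Lib.H59T.U3. -/

-- from Lib.H59T.L1
section

/-!
# Project H59T, chunk L1 (M): splitting off a coprime factor of the modulus of a primitive character
-/

open Finset

namespace Pool.Agent.Lib.H59T

theorem l1_prim (N q m : ℕ) (hN : N = q * m) (hq : 0 < q) (hm : 0 < m)
    (χ : DirichletCharacter ℂ N) (hχ : χ.IsPrimitive)
    (χ1 : DirichletCharacter ℂ q) (χ2 : DirichletCharacter ℂ m)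
    (h : ∀ n : ℤ, χ (n : ZMod N) = χ1 (n : ZMod q) * χ2 (n : ZMod m)) : χ1.IsPrimitive := by
  subst hN
  by_contra hne
  have hc : χ1.conductor ∣ q := χ1.conductor_dvd_level
  have hlt : χ1.conductor < q := lt_of_le_of_ne (Nat.le_of_dvd hq hc) hne
  set c := χ1.conductor with hcdef
  set ψ : DirichletCharacter ℂ (c * m) :=
    DirichletCharacter.changeLevel (dvd_mul_right c m) χ1.primitiveCharacter *
      DirichletCharacter.changeLevel (dvd_mul_left m c) χ2 with hψ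
  have hdvd : c * m ∣ q * m := mul_dvd_mul_right hc m
  have key : χ = DirichletCharacter.changeLevel hdvd ψ := by
    apply MulChar.ext
    intro u
    obtain ⟨n, hn⟩ := ZMod.intCast_surjective (u : ZMod (q * m))
    have hu : IsUnit ((n : ℤ) : ZMod (q * m)) := by rw [hn]; exact u.isUnit
    have hcop : IsCoprime (n : ℤ) ((q * m : ℕ) : ℤ) :=
      ((ZMod.coe_int_isUnit_iff_isCoprime n (q * m)).1 hu).symm
    have hcopq : IsCoprime (n : ℤ) ((q : ℕ) : ℤ) := by
      push_cast at hcop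
      exact hcop.of_mul_right_left
    have hcopc : IsCoprime (n : ℤ) ((c * m : ℕ) : ℤ) :=
      hcop.of_isCoprime_of_dvd_right (by exact_mod_cast hdvd)
    rw [← hn, h n, DirichletCharacter.changeLevel_eq_cast_of_dvd' ψ hdvd hcop, hψ, MulChar.mul_apply,
      DirichletCharacter.changeLevel_eq_cast_of_dvd' _ (dvd_mul_right c m) hcopc,
      DirichletCharacter.changeLevel_eq_cast_of_dvd' _ (dvd_mul_left m c) hcopc,
      DirichletCharacter.primitiveCharacter_apply_of_isCoprime χ1 hcopq]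
  have hmem : c * m ∈ χ.conductorSet := ⟨hdvd, ψ, key⟩
  have hle : χ.conductor ≤ c * m := Nat.sInf_le hmem
  have he : χ.conductor = q * m := hχ
  rw [he] at hle
  exact absurd (Nat.mul_lt_mul_of_pos_right hlt hm) (not_lt.2 hle)

/-- Proof. `e = ZMod.chineseRemainder hqm : ZMod (q * m) ≃+* ZMod q × ZMod m` sends the integer `n` to `(n, n)` (`map_intCast`).
Put `χ1 x = χ (e.symm (x, 1))`, `χ2 y = χ (e.symm (1, y))` (`MulChar`: multiplicative, `0` at nonunits because `(x, 1)` is a unit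
iff `x` is). Then `χ n = χ1 n χ2 n` since `(n, n) = (n, 1) (1, n)`. If `χ1` were not primitive, `χ1` would factor through a
proper divisor `c` of `q` (`χ1.factorsThrough_conductor`): `χ1 = changeLevel ξ`, so `χ` agrees with
`changeLevel (changeLevel ξ * changeLevel χ2)`, the inner character of modulus `c m` (equality on units, `MulChar.ext`,
both sides evaluated at integers prime to `q m`: `DirichletCharacter.changeLevel_eq_cast_of_dvd`); so
`χ.FactorsThrough (c * m)`, and the conductor of `χ` is at most `c m < q m` (it is `sInf` of the conductor set,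
`Nat.sInf_le`), a contradiction. The same for `χ2`. -/
theorem L1_split (q m : ℕ) (hq : 0 < q) (hm : 0 < m) (hqm : Nat.Coprime q m)
    (χ : DirichletCharacter ℂ (q * m)) (hχ : χ.IsPrimitive) :
    ∃ (χ1 : DirichletCharacter ℂ q) (χ2 : DirichletCharacter ℂ m), χ1.IsPrimitive ∧ χ2.IsPrimitive ∧
      ∀ n : ℤ, χ (n : ZMod (q * m)) = χ1 (n : ZMod q) * χ2 (n : ZMod m) := by
  classical
  set e := ZMod.chineseRemainder hqm with he
  have hsymm : ∀ n : ℤ, e.symm ((n : ZMod q), (n : ZMod m)) = (n : ZMod (q * m)) := by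
    intro n
    rw [RingEquiv.symm_apply_eq, map_intCast]
    rfl
  let χ1 : DirichletCharacter ℂ q :=
    { toFun := fun x => χ (e.symm (x, 1))
      map_one' := by
        have h1 : e.symm ((1 : ZMod q), (1 : ZMod m)) = 1 := map_one e.symm
        change χ (e.symm ((1 : ZMod q), (1 : ZMod m))) = 1
        rw [h1, map_one]
      map_mul' := by
        intro x y
        change χ (e.symm ((x * y : ZMod q), (1 : ZMod m))) = χ (e.symm (x, 1)) * χ (e.symm (y, 1))
        rw [← map_mul, ← map_mul, Prod.mk_mul_mk, mul_one]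
      map_nonunit' := by
        intro x hx
        change χ (e.symm (x, 1)) = 0
        apply χ.map_nonunit
        intro hu
        apply hx
        have h2 : IsUnit (e (e.symm (x, 1))) := hu.map e
        rw [RingEquiv.apply_symm_apply, Prod.isUnit_iff] at h2
        exact h2.1 }
  let χ2 : DirichletCharacter ℂ m :=
    { toFun := fun y => χ (e.symm (1, y))
      map_one' := by
        have h1 : e.symm ((1 : ZMod q), (1 : ZMod m)) = 1 := map_one e.symm
        change χ (e.symm ((1 : ZMod q), (1 : ZMod m))) = 1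
        rw [h1, map_one]
      map_mul' := by
        intro x y
        change χ (e.symm ((1 : ZMod q), (x * y : ZMod m))) = χ (e.symm (1, x)) * χ (e.symm (1, y))
        rw [← map_mul, ← map_mul, Prod.mk_mul_mk, mul_one]
      map_nonunit' := by
        intro x hx
        change χ (e.symm (1, x)) = 0
        apply χ.map_nonunit
        intro hu
        apply hx
        have h2 : IsUnit (e (e.symm (1, x))) := hu.map e
        rw [RingEquiv.apply_symm_apply, Prod.isUnit_iff] at h2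
        exact h2.2 }
  have h : ∀ n : ℤ, χ (n : ZMod (q * m)) = χ1 (n : ZMod q) * χ2 (n : ZMod m) := by
    intro n
    change χ (n : ZMod (q * m)) = χ (e.symm ((n : ZMod q), 1)) * χ (e.symm (1, (n : ZMod m)))
    rw [← map_mul, ← map_mul, Prod.mk_mul_mk, mul_one, one_mul, hsymm]
  refine ⟨χ1, χ2, ?_, ?_, h⟩
  · exact l1_prim (q * m) q m rfl hq hm χ hχ χ1 χ2 h
  · exact l1_prim (q * m) m q (mul_comm q m) hm hq χ hχ χ2 χ1 (fun n => by rw [h n, mul_comm])

end Pool.Agent.Lib.H59T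
end

-- from Lib.H59T.L2
section

/-!
# Project H59T, chunk L2 (M): a primitive character is the product of primitive characters of prime power moduli
-/

open Finset

namespace Pool.Agent.Lib.H59T

open Pool.Agent.Lib.H68T Pool.Agent.Lib.H18Q Pool.Agent.Lib.H59P

theorem l2_aux (r : ℕ) : 0 < r → ∀ χ : DirichletCharacter ℂ r, χ.IsPrimitive → ∃ F : ℕ → Ch, LCh ⟨r, χ⟩ F := by
  induction r using Nat.recOnPosPrimePosCoprime with
  | zero => intro h; exact absurd h (lt_irrefl 0)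
  | one =>
    intro _ χ _
    refine ⟨fun _ => ⟨1, χ⟩, fun l hl => ?_, fun n => ?_⟩
    · simp at hl
    · change χ (n : ZMod 1) = ∏ l ∈ (1 : ℕ).primeFactors, χ (n : ZMod 1)
      rw [Nat.primeFactors_one, prod_empty, Subsingleton.elim (n : ZMod 1) 1, map_one]
  | prime_pow p n hp hn =>
    intro _ χ hχ
    have h1 : (p ^ n).primeFactors = {p} := Nat.primeFactors_prime_pow hn.ne' hp
    refine ⟨fun _ => ⟨p ^ n, χ⟩, fun l hl => ?_, fun m => ?_⟩
    · change l ∈ (p ^ n).primeFactors at hl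
      rw [h1, mem_singleton] at hl
      refine ⟨?_, hχ⟩
      change p ^ n = l ^ (p ^ n).factorization l
      rw [hl, hp.factorization_pow, Finsupp.single_eq_same]
    · change χ (m : ZMod (p ^ n)) = ∏ l ∈ (p ^ n).primeFactors, χ (m : ZMod (p ^ n))
      rw [h1, prod_singleton]
  | coprime a b ha hb hab iha ihb =>
    intro _ χ hχ
    obtain ⟨χ1, χ2, h1, h2, h3⟩ := L1_split a b (by omega) (by omega) hab χ hχ
    obtain ⟨F1, hF1, hF1'⟩ := iha (by omega) χ1 h1
    obtain ⟨F2, hF2, hF2'⟩ := ihb (by omega) χ2 h2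
    have hdisj : Disjoint a.primeFactors b.primeFactors := hab.disjoint_primeFactors
    have hb2 : ∀ l ∈ b.primeFactors, ¬ l ∈ a.primeFactors := fun l hl hl' => disjoint_left.1 hdisj hl' hl
    refine ⟨fun l => if l ∈ a.primeFactors then F1 l else F2 l, fun l hl => ?_, fun n => ?_⟩
    · change l ∈ (a * b).primeFactors at hl
      change (if l ∈ a.primeFactors then F1 l else F2 l).1 = l ^ (a * b).factorization l ∧
        (if l ∈ a.primeFactors then F1 l else F2 l).2.IsPrimitive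
      rw [hab.primeFactors_mul, mem_union] at hl
      by_cases h4 : l ∈ a.primeFactors
      · rw [if_pos h4, Nat.factorization_eq_of_coprime_left hab (List.mem_toFinset.1 h4)]
        exact hF1 l h4
      · have h5 : l ∈ b.primeFactors := hl.resolve_left h4
        rw [if_neg h4, Nat.factorization_eq_of_coprime_right hab (List.mem_toFinset.1 h5)]
        exact hF2 l h5
    · change χ (n : ZMod (a * b)) = ∏ l ∈ (a * b).primeFactors,
        (if l ∈ a.primeFactors then F1 l else F2 l).2 (n : ZMod (if l ∈ a.primeFactors then F1 l else F2 l).1)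
      rw [h3 n, hab.primeFactors_mul, prod_union hdisj]
      have h6 := hF1' n
      have h7 := hF2' n
      change χ1 (n : ZMod a) = ∏ l ∈ a.primeFactors, (F1 l).2 (n : ZMod (F1 l).1) at h6
      change χ2 (n : ZMod b) = ∏ l ∈ b.primeFactors, (F2 l).2 (n : ZMod (F2 l).1) at h7
      rw [h6, h7]
      refine congrArg₂ _ (prod_congr rfl fun l hl => ?_) (prod_congr rfl fun l hl => ?_)
      · rw [if_pos hl]
      · rw [if_neg (hb2 l hl)]

/-- Proof. Strong induction on `p.1` (destruct `p = ⟨r, χ⟩`). `r = 1`: `ZMod 1` is a subsingleton, `χ n = χ 1 = 1`, empty product.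
`r > 1`: `l = r.minFac`, `r = l^a m` with `a = r.factorization l` (`Nat.ordProj_mul_ordCompl_eq_self`, `m = ordCompl[l] r`, positive,
coprime to `l`); `subst`/generalize so that `L1_split` applies (`q = l^a`); the induction hypothesis for `⟨m, χ2⟩` gives `F'`,
`F = Function.update F' l ⟨l^a, χ1⟩`. The prime factors of `r` are `l` and those of `m`, and the exponents in `r` and
`m` agree at the primes other than `l` (`Nat.factorization_ordCompl`). -/
theorem L2_family (p : Ch) (h0 : 0 < p.1) (hp : p.2.IsPrimitive) : ∃ F : ℕ → Ch, LCh p F := by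
  obtain ⟨r, χ⟩ := p
  exact l2_aux r h0 χ hp

/-- Proof. `Exists.choose_spec`. -/
theorem L2_spec (p : Ch) (h0 : 0 < p.1) (hp : p.2.IsPrimitive) : LCh p (lch p) := by
  have h : ∃ F : ℕ → Ch, LCh p F := L2_family p h0 hp
  unfold lch
  rw [dif_pos h]
  exact h.choose_spec

end Pool.Agent.Lib.H59T
end

-- from Lib.H59T.L3
section

/-!
# Project H59T, chunk L3 (M): the components as products of local factors
-/

open Finset

namespace Pool.Agent.Lib.H59T

open Pool.Agent.Lib.H68T Pool.Agent.Lib.H18Q Pool.Agent.Lib.H59P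

/-- Proof. `r/φ(r) = ∏_{l ∣ r} l/(l-1)` (`GAM_ratio` in `H68T/GAM1`), `conj χ(m) = ∏ conj χ_l(m)` (`L2_spec`, `map_prod`),
`μ(κ) c_κ(m)/φ(κ) = GAM_F 1 m κ` (`CA_F_one` in `H18Q/CA`), multiplicative (`GAM_F_mult`, `prod_primeFactors` for squarefree
`κ`), with the value `gl l m` at the primes (`GAM_F_prime` for `r = 1`). For `l ∈ P` dividing neither `p.1` nor `κ` the
local factor is `1` (`Finset.prod_subset`); no prime divides both. -/
theorem L3_gk (p : Ch) (h0 : 0 < p.1) (hp : p.2.IsPrimitive) (κ : ℕ) (hκ : Squarefree κ)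
    (hc : Nat.Coprime κ p.1) (P : Finset ℕ) (hP : ∀ l ∈ P, l.Prime) (h1 : p.1.primeFactors ⊆ P)
    (h2 : κ.primeFactors ⊆ P) (m : ℤ) : gk p κ m = ∏ l ∈ P, lf p κ l m := by
  have f1 : P.filter (fun l => l ∣ p.1) = p.1.primeFactors := by
    ext l
    rw [mem_filter, Nat.mem_primeFactors]
    constructor
    · rintro ⟨h, h'⟩
      exact ⟨hP l h, h', h0.ne'⟩
    · rintro ⟨h, h', h''⟩
      exact ⟨h1 (Nat.mem_primeFactors.2 ⟨h, h', h''⟩), h'⟩
  have f2 : P.filter (fun l => l ∣ κ) = κ.primeFactors := by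
    ext l
    rw [mem_filter, Nat.mem_primeFactors]
    constructor
    · rintro ⟨h, h'⟩
      exact ⟨hP l h, h', hκ.ne_zero⟩
    · rintro ⟨h, h', h''⟩
      exact ⟨h2 (Nat.mem_primeFactors.2 ⟨h, h', h''⟩), h'⟩
  have e1 : ∀ l ∈ P, lf p κ l m =
      (if l ∣ p.1 then (((l : ℝ) / ((l : ℝ) - 1) : ℝ) : ℂ) * cj (lch p l) m else 1) *
        (if l ∣ κ then ((gl l m : ℝ) : ℂ) else 1) := by
    intro l hl
    unfold lf
    by_cases a : l ∣ p.1
    · have b : ¬ l ∣ κ := fun h => (hP l hl).one_lt.ne' (Nat.dvd_one.1 (hc ▸ Nat.dvd_gcd h a))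
      rw [if_pos a, if_pos a, if_neg b, mul_one]
    · rw [if_neg a, if_neg a, one_mul]
  have L := L2_spec p h0 hp
  rw [Finset.prod_congr rfl e1, Finset.prod_mul_distrib, ← Finset.prod_filter, ← Finset.prod_filter,
    f1, f2, Finset.prod_mul_distrib]
  unfold gk
  rw [GAM_ratio p.1 h0.ne', ← CA_F_one, ← (GAM_F_mult 1 m).prod_primeFactors hκ, L.2 m, map_prod,
    Complex.ofReal_prod, Complex.ofReal_prod]
  have e2 : ∀ l ∈ κ.primeFactors, ((GAM_F 1 m l : ℝ) : ℂ) = ((gl l m : ℝ) : ℂ) := by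
    intro l hl
    have hl' := (Nat.mem_primeFactors.1 hl).1
    have h2 : ¬ l ∣ 1 := fun h => hl'.one_lt.ne' (Nat.dvd_one.1 h)
    rw [GAM_F_prime 1 m l hl', if_neg h2]
    rfl
  rw [Finset.prod_congr rfl e2]
  rfl

/-- The doubled product. Proof. `L3_gk`, exchange of products (`Finset.prod_comm`), `map_prod`. -/
theorem L3_Db {k : ℕ} (ψ : Fm k) (p : Fin k → Ch) (hp : Pm p) (κ κ' : Fin k → ℕ) (hκ : Kp p κ)
    (hκ' : Kp p κ') (P : Finset ℕ) (hP : ∀ l ∈ P, l.Prime) (h1 : ∀ i, (p i).1.primeFactors ⊆ P)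
    (h2 : ∀ i, (κ i).primeFactors ⊆ P) (h3 : ∀ i, (κ' i).primeFactors ⊆ P) (y y' z z' : ℤ) :
    Db ψ (fun i => gk (p i) (κ i)) (fun i => gk (p i) (κ' i)) y y' z z' =
      ∏ l ∈ P, Db ψ (fun i => lf (p i) (κ i) l) (fun i => lf (p i) (κ' i) l) y y' z z' := by
  unfold Db
  rw [Finset.prod_comm]
  refine Finset.prod_congr rfl fun i _ => ?_
  change gk (p i) (κ i) (ψ i y y' z) * (starRingEnd ℂ) (gk (p i) (κ' i) (ψ i y y' z')) =
    ∏ x ∈ P, lf (p i) (κ i) x (ψ i y y' z) * (starRingEnd ℂ) (lf (p i) (κ' i) x (ψ i y y' z'))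
  rw [L3_gk (p i) (hp i).1 (hp i).2 (κ i) (hκ i).1 (hκ i).2 P hP (h1 i) (h2 i),
    L3_gk (p i) (hp i).1 (hp i).2 (κ' i) (hκ' i).1 (hκ' i).2 P hP (h1 i) (h3 i), map_prod,
    ← Finset.prod_mul_distrib]

end Pool.Agent.Lib.H59T
end

-- from Lib.H59T.L4
section

/-!
# Project H59T, chunk L4 (S/M): size and periods of the local factors
-/

open Finset

namespace Pool.Agent.Lib.H59T

open Pool.Agent.Lib.H68T Pool.Agent.Lib.H18Q Pool.Agent.Lib.H59P

theorem L4_norm (p : Ch) (κ l : ℕ) (hl : l.Prime) (m : ℤ) : ‖lf p κ l m‖ ≤ 2 := by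
  have h2 : (2 : ℝ) ≤ l := by exact_mod_cast hl.two_le
  have h1 : (0 : ℝ) < (l : ℝ) - 1 := by linarith
  unfold lf
  split_ifs with ha hb
  · rw [norm_mul, Complex.norm_real, Real.norm_eq_abs, abs_of_nonneg (by positivity)]
    have h3 : ‖cj (lch p l) m‖ ≤ 1 := by
      unfold cj
      rw [RCLike.norm_conj]
      exact DirichletCharacter.norm_le_one _ _
    have h4 : (l : ℝ) / ((l : ℝ) - 1) ≤ 2 := by
      rw [div_le_iff₀ h1]
      linarith
    calc (l : ℝ) / ((l : ℝ) - 1) * ‖cj (lch p l) m‖ ≤ 2 * 1 := by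
          apply mul_le_mul h4 h3 (norm_nonneg _) (by norm_num)
      _ = 2 := by norm_num
  · rw [Complex.norm_real, Real.norm_eq_abs]
    unfold gl
    split_ifs
    · norm_num
    · rw [abs_of_nonneg (by positivity), div_le_iff₀ h1]
      linarith
  · norm_num

theorem L4_per (p : Ch) (h0 : 0 < p.1) (hp : p.2.IsPrimitive) (κ l b : ℕ) (hl : l.Prime) (hb : 1 ≤ b)
    (hb' : p.1.factorization l ≤ b) (m t : ℤ) : lf p κ l (m + (l : ℤ) ^ b * t) = lf p κ l m := by
  unfold lf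
  split_ifs with ha hc
  · have hs := (L2_spec p h0 hp).1 l (Nat.mem_primeFactors.2 ⟨hl, ha, h0.ne'⟩)
    have h1 : ((m + (l : ℤ) ^ b * t : ℤ) : ZMod (lch p l).1) = (m : ZMod (lch p l).1) := by
      have h2 : ((l ^ b : ℕ) : ZMod (lch p l).1) = 0 := by
        rw [ZMod.natCast_eq_zero_iff, hs.1]
        exact pow_dvd_pow _ hb'
      push_cast at h2 ⊢
      rw [h2]
      ring
    unfold cj
    rw [h1]
  · have h1 : ((l : ℤ) ∣ m + (l : ℤ) ^ b * t) ↔ (l : ℤ) ∣ m := by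
      apply Int.dvd_add_left
      exact Dvd.dvd.mul_right (dvd_pow_self _ (by omega)) _
    unfold gl
    simp only [h1]
  · rfl

theorem L4_char (p : Ch) (h0 : 0 < p.1) (hp : p.2.IsPrimitive) (l : ℕ) (hl : l.Prime) (hd : l ∣ p.1) :
    ∃ χ : DirichletCharacter ℂ (l ^ p.1.factorization l), χ.IsPrimitive ∧ ∀ (κ : ℕ) (m : ℤ),
      lf p κ l m = (((l : ℝ) / ((l : ℝ) - 1) : ℝ) : ℂ) *
        (starRingEnd ℂ) (χ (m : ZMod (l ^ p.1.factorization l))) := by
  have hs := (L2_spec p h0 hp).1 l (Nat.mem_primeFactors.2 ⟨hl, hd, h0.ne'⟩)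
  have hlf : ∀ (κ : ℕ) (m : ℤ), lf p κ l m = (((l : ℝ) / ((l : ℝ) - 1) : ℝ) : ℂ) * cj (lch p l) m := by
    intro κ m
    unfold lf
    rw [if_pos hd]
  generalize lch p l = q at hs hlf
  generalize l ^ p.1.factorization l = N at hs
  obtain ⟨r, χ⟩ := q
  obtain ⟨h1, h2⟩ := hs
  dsimp only at h1 h2
  subst h1
  exact ⟨χ, h2, fun κ m => hlf κ m⟩

theorem L4_Per4 {k : ℕ} (ψ : Fm k) (hψ : CpF ψ) (p : Fin k → Ch) (hp : Pm p) (κ κ' : Fin k → ℕ) (l b : ℕ)
    (hl : l.Prime) (hb : 1 ≤ b) (hb' : ∀ i, (p i).1.factorization l ≤ b) :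
    Per4 (l ^ b) (Db ψ (fun i => lf (p i) (κ i) l) (fun i => lf (p i) (κ' i) l)) := by
  have key : ∀ (i : Fin k) (K : ℕ) (u v : ℤ), (((l ^ b : ℕ) : ℤ) ∣ u - v) → lf (p i) K l u = lf (p i) K l v := by
    intro i K u v h
    obtain ⟨t, ht⟩ := h
    have h1 : u = v + (l : ℤ) ^ b * t := by
      push_cast at ht
      linarith
    rw [h1]
    exact L4_per (p i) (hp i).1 (hp i).2 K l b hl hb (hb' i) v t
  constructor
  · intro y y' z z'
    unfold Db
    refine Finset.prod_congr rfl fun i _ => ?_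
    beta_reduce
    rw [key i _ _ _ (hψ i _ y y' z).1, key i _ _ _ (hψ i _ y y' z').1]
  · intro y y' z z'
    unfold Db
    refine Finset.prod_congr rfl fun i _ => ?_
    beta_reduce
    rw [key i _ _ _ (hψ i _ y y' z).2.1, key i _ _ _ (hψ i _ y y' z').2.1]
  · intro y y' z z'
    unfold Db
    refine Finset.prod_congr rfl fun i _ => ?_
    beta_reduce
    rw [key i _ _ _ (hψ i _ y y' z).2.2]
  · intro y y' z z'
    unfold Db
    refine Finset.prod_congr rfl fun i _ => ?_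
    beta_reduce
    rw [key i _ _ _ (hψ i _ y y' z').2.2]

end Pool.Agent.Lib.H59T
end

-- from Lib.H59T.U3
section

/-!
# Project H59T, chunk U3 (M): Gowers-Cauchy-Schwarz on `ZMod N`
-/

open Finset

namespace Pool.Agent.Lib.H59T

/-- the square of a sum, by differences -/
theorem u3_sq (N : ℕ) [NeZero N] (g : ZMod N → ℂ) :
    (((‖∑ z : ZMod N, g z‖ ^ 2 : ℝ)) : ℂ) = ∑ h : ZMod N, ∑ z : ZMod N, g z * star (g (z + h)) := by
  have e2 : (((‖∑ z : ZMod N, g z‖ ^ 2 : ℝ)) : ℂ) = (∑ z : ZMod N, g z) * star (∑ z : ZMod N, g z) := by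
    rw [Complex.star_def, Complex.mul_conj, Complex.normSq_eq_norm_sq]
  rw [e2, star_sum, Finset.sum_mul_sum, Finset.sum_comm]
  have e3 : ∀ z : ZMod N, ∑ h : ZMod N, g z * star (g (z + h)) = ∑ w : ZMod N, g z * star (g w) := by
    intro z
    rw [← Equiv.sum_comp (Equiv.addLeft z) (fun w => g z * star (g w))]
    rfl
  rw [Finset.sum_comm, Finset.sum_comm (f := fun h z => g z * star (g (z + h)))]
  exact (Finset.sum_congr rfl fun z _ => e3 z).symm

/-- Cauchy-Schwarz over pairs -/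
theorem u3_cs (N : ℕ) [NeZero N] (b : ZMod N → ZMod N → ℝ) :
    (∑ h : ZMod N, ∑ k : ZMod N, b h k) ^ 2 ≤ (N : ℝ) ^ 2 * ∑ h : ZMod N, ∑ k : ZMod N, b h k ^ 2 := by
  have h3 := sq_sum_le_card_mul_sum_sq (s := (univ : Finset (ZMod N × ZMod N)))
    (f := fun p => b p.1 p.2)
  rw [Finset.card_univ, Fintype.card_prod, ZMod.card, Fintype.sum_prod_type, Fintype.sum_prod_type] at h3
  refine h3.trans (le_of_eq ?_)
  push_cast
  ring

/-- Proof. Put `Δ_h f(z) = f(z) star f(z+h)`. Expanding the squares, the left side `X` is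
`∑_{h,z,y,y'} Δ_h f0(z) Δ_h f1(z+y) Δ_h f2(z+y') Δ_h f3(z+y+y')`, so
`X ≤ ∑_{h,z,y'} ‖∑_y Δ_h f1(z+y) Δ_h f3(z+y+y')‖ = N ∑_{h,y'} ‖∑_u Δ_h f1(u) Δ_h f3(u+y')‖ ≤ N (N² S)^(1/2)` with
`S = ∑_{h,y'} ‖∑_u Δ_h f1(u) Δ_h f3(u+y')‖² = ∑_{h,k} ∑_u Δ_k Δ_h f1(u) ∑_{y'} Δ_k Δ_h f3(u+y')
≤ N ∑_{h,k} ‖∑_s Δ_k Δ_h f3(s)‖ ≤ N · N (UU f3)^(1/2)`. So `X ≤ N² (N² (UU f3)^(1/2))^(1/2)`. -/
theorem U3_top (N : ℕ) [NeZero N] (f0 f1 f2 f3 : ZMod N → ℂ) (h0 : ∀ t, ‖f0 t‖ ≤ 1)
    (h1 : ∀ t, ‖f1 t‖ ≤ 1) (h2 : ∀ t, ‖f2 t‖ ≤ 1) (h3 : ∀ t, ‖f3 t‖ ≤ 1) :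
    ∑ y : ZMod N, ∑ y' : ZMod N, ‖∑ z : ZMod N, f0 z * f1 (z + y) * f2 (z + y') * f3 (z + y + y')‖ ^ 2 ≤
      (N : ℝ) ^ 3 * (UU f3) ^ (1 / 4 : ℝ) := by
  have hN0 : (0 : ℝ) < N := by exact_mod_cast Nat.pos_of_ne_zero (NeZero.ne N)
  set D : (ZMod N → ℂ) → ZMod N → ZMod N → ℂ := fun f h z => f z * star (f (z + h)) with hD
  have hDn : ∀ f : ZMod N → ℂ, (∀ t, ‖f t‖ ≤ 1) → ∀ h z, ‖D f h z‖ ≤ 1 := by
    intro f hf h z
    simp only [hD, norm_mul, norm_star]
    exact mul_le_one₀ (hf _) (norm_nonneg _) (hf _)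
  set X : ℝ := ∑ y : ZMod N, ∑ y' : ZMod N,
    ‖∑ z : ZMod N, f0 z * f1 (z + y) * f2 (z + y') * f3 (z + y + y')‖ ^ 2 with hX
  have hX0 : 0 ≤ X := Finset.sum_nonneg fun _ _ => Finset.sum_nonneg fun _ _ => by positivity
  set C : ZMod N → ZMod N → ℂ := fun h y' => ∑ u : ZMod N, D f1 h u * D f3 h (u + y') with hC
  have s1 : (X : ℂ) = ∑ h : ZMod N, ∑ z : ZMod N, ∑ y' : ZMod N, D f0 h z * D f2 h (z + y') * C h y' := by
    have e1 : ∀ h z y' : ZMod N, C h y' = ∑ y : ZMod N, D f1 h (z + y) * D f3 h (z + y + y') := by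
      intro h z y'
      simp only [hC]
      rw [← Equiv.sum_comp (Equiv.addLeft z)]
      rfl
    have e2 : (X : ℂ) = ∑ y : ZMod N, ∑ y' : ZMod N, ∑ h : ZMod N, ∑ z : ZMod N,
        D f0 h z * D f2 h (z + y') * (D f1 h (z + y) * D f3 h (z + y + y')) := by
      rw [hX, Complex.ofReal_sum]
      refine Finset.sum_congr rfl fun y _ => ?_
      rw [Complex.ofReal_sum]
      refine Finset.sum_congr rfl fun y' _ => ?_
      rw [u3_sq]
      refine Finset.sum_congr rfl fun h _ => Finset.sum_congr rfl fun z _ => ?_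
      simp only [hD, star_mul']
      have a1 : z + h + y = z + y + h := by ring
      have a2 : z + h + y' = z + y' + h := by ring
      have a3 : z + y + h + y' = z + y + y' + h := by ring
      rw [a1, a2, a3]
      ring
    rw [e2]
    have e3 : ∀ y : ZMod N, ∑ y' : ZMod N, ∑ h : ZMod N, ∑ z : ZMod N,
        D f0 h z * D f2 h (z + y') * (D f1 h (z + y) * D f3 h (z + y + y')) =
        ∑ h : ZMod N, ∑ z : ZMod N, ∑ y' : ZMod N,
        D f0 h z * D f2 h (z + y') * (D f1 h (z + y) * D f3 h (z + y + y')) := by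
      intro y
      rw [Finset.sum_comm]
      exact Finset.sum_congr rfl fun h _ => Finset.sum_comm
    rw [Finset.sum_congr rfl fun y _ => e3 y, Finset.sum_comm]
    refine Finset.sum_congr rfl fun h _ => ?_
    rw [Finset.sum_comm]
    refine Finset.sum_congr rfl fun z _ => ?_
    rw [Finset.sum_comm]
    refine Finset.sum_congr rfl fun y' _ => ?_
    rw [e1 h z y', Finset.mul_sum]
  have s2 : X ≤ N * ∑ h : ZMod N, ∑ y' : ZMod N, ‖C h y'‖ := by
    have e1 : X = ‖(X : ℂ)‖ := by rw [Complex.norm_real, Real.norm_of_nonneg hX0]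
    rw [e1, s1, Finset.mul_sum]
    refine (norm_sum_le _ _).trans (Finset.sum_le_sum fun h _ => ?_)
    refine (norm_sum_le _ _).trans ?_
    calc _ ≤ ∑ _z : ZMod N, ∑ y' : ZMod N, ‖C h y'‖ := by
          refine Finset.sum_le_sum fun z _ => (norm_sum_le _ _).trans (Finset.sum_le_sum fun y' _ => ?_)
          rw [norm_mul, norm_mul]
          have e4 : ‖D f0 h z‖ * ‖D f2 h (z + y')‖ ≤ 1 :=
            mul_le_one₀ (hDn f0 h0 h z) (norm_nonneg _) (hDn f2 h2 h _)
          calc _ ≤ 1 * ‖C h y'‖ := mul_le_mul_of_nonneg_right e4 (norm_nonneg _)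
            _ = ‖C h y'‖ := one_mul _
      _ = N * ∑ y' : ZMod N, ‖C h y'‖ := by rw [Finset.sum_const, Finset.card_univ, ZMod.card, nsmul_eq_mul]
  set S : ℝ := ∑ h : ZMod N, ∑ y' : ZMod N, ‖C h y'‖ ^ 2 with hS
  have hS0 : 0 ≤ S := Finset.sum_nonneg fun _ _ => Finset.sum_nonneg fun _ _ => by positivity
  set E : ZMod N → ZMod N → ℂ := fun h k =>
    ∑ s : ZMod N, f3 s * star (f3 (s + h)) * star (f3 (s + k)) * f3 (s + h + k) with hE
  have s3 : (S : ℂ) = ∑ h : ZMod N, ∑ k : ZMod N, (∑ u : ZMod N, D f1 h u * star (D f1 h (u + k))) * E h k := by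
    rw [hS, Complex.ofReal_sum]
    refine Finset.sum_congr rfl fun h _ => ?_
    rw [Complex.ofReal_sum]
    have e1 : ∀ y' : ZMod N, ((‖C h y'‖ ^ 2 : ℝ) : ℂ) = ∑ k : ZMod N, ∑ u : ZMod N,
        (D f1 h u * star (D f1 h (u + k))) * (D f3 h (u + y') * star (D f3 h (u + y' + k))) := by
      intro y'
      simp only [hC]
      rw [u3_sq]
      refine Finset.sum_congr rfl fun k _ => Finset.sum_congr rfl fun u _ => ?_
      have a1 : u + k + y' = u + y' + k := by ring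
      rw [star_mul', a1]
      ring
    rw [Finset.sum_congr rfl fun y' _ => e1 y', Finset.sum_comm]
    refine Finset.sum_congr rfl fun k _ => ?_
    rw [Finset.sum_comm, Finset.sum_mul]
    refine Finset.sum_congr rfl fun u _ => ?_
    rw [← Finset.mul_sum]
    congr 1
    simp only [hE]
    rw [← Equiv.sum_comp (Equiv.addLeft u) (fun s => f3 s * star (f3 (s + h)) * star (f3 (s + k)) * f3 (s + h + k))]
    refine Finset.sum_congr rfl fun y' _ => ?_
    simp only [hD, Equiv.coe_addLeft, star_mul', star_star]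
    have a1 : u + y' + k + h = u + y' + h + k := by ring
    rw [a1]
    ring
  have s4 : S ≤ N * ∑ h : ZMod N, ∑ k : ZMod N, ‖E h k‖ := by
    have e1 : S = ‖(S : ℂ)‖ := by rw [Complex.norm_real, Real.norm_of_nonneg hS0]
    rw [e1, s3, Finset.mul_sum]
    refine (norm_sum_le _ _).trans (Finset.sum_le_sum fun h _ => ?_)
    rw [Finset.mul_sum]
    refine (norm_sum_le _ _).trans (Finset.sum_le_sum fun k _ => ?_)
    rw [norm_mul]
    refine mul_le_mul_of_nonneg_right ?_ (norm_nonneg _)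
    calc _ ≤ ∑ u : ZMod N, ‖D f1 h u * star (D f1 h (u + k))‖ := norm_sum_le _ _
      _ ≤ ∑ _u : ZMod N, (1 : ℝ) := by
        refine Finset.sum_le_sum fun u _ => ?_
        rw [norm_mul, norm_star]
        exact mul_le_one₀ (hDn f1 h1 h _) (norm_nonneg _) (hDn f1 h1 h _)
      _ = N := by rw [Finset.sum_const, Finset.card_univ, ZMod.card, nsmul_eq_mul, mul_one]
  have hUU : ∑ h : ZMod N, ∑ k : ZMod N, ‖E h k‖ ^ 2 = UU f3 := rfl
  have hUU0 : 0 ≤ UU f3 := Finset.sum_nonneg fun _ _ => Finset.sum_nonneg fun _ _ => by positivity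
  have c1 := u3_cs N (fun h y' => ‖C h y'‖)
  have c2 := u3_cs N (fun h k => ‖E h k‖)
  rw [hUU] at c2
  set P : ℝ := ∑ h : ZMod N, ∑ y' : ZMod N, ‖C h y'‖ with hP
  set R : ℝ := ∑ h : ZMod N, ∑ k : ZMod N, ‖E h k‖ with hR
  have hP0 : 0 ≤ P := Finset.sum_nonneg fun _ _ => Finset.sum_nonneg fun _ _ => norm_nonneg _
  have hR0 : 0 ≤ R := Finset.sum_nonneg fun _ _ => Finset.sum_nonneg fun _ _ => norm_nonneg _
  have c3 : P ^ 2 ≤ (N : ℝ) ^ 2 * S := c1
  have d1 : S ^ 2 ≤ (N : ℝ) ^ 4 * UU f3 := by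
    calc S ^ 2 ≤ (N * R) ^ 2 := pow_le_pow_left₀ hS0 s4 2
      _ = (N : ℝ) ^ 2 * R ^ 2 := by ring
      _ ≤ (N : ℝ) ^ 2 * ((N : ℝ) ^ 2 * UU f3) := mul_le_mul_of_nonneg_left c2 (by positivity)
      _ = (N : ℝ) ^ 4 * UU f3 := by ring
  have d2 : X ^ 2 ≤ (N : ℝ) ^ 4 * S := by
    calc X ^ 2 ≤ (N * P) ^ 2 := pow_le_pow_left₀ hX0 s2 2
      _ = (N : ℝ) ^ 2 * P ^ 2 := by ring
      _ ≤ (N : ℝ) ^ 2 * ((N : ℝ) ^ 2 * S) := mul_le_mul_of_nonneg_left c3 (by positivity)
      _ = (N : ℝ) ^ 4 * S := by ring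
  have d3 : X ^ 4 ≤ (N : ℝ) ^ 12 * UU f3 := by
    calc X ^ 4 = (X ^ 2) ^ 2 := by ring
      _ ≤ ((N : ℝ) ^ 4 * S) ^ 2 := pow_le_pow_left₀ (by positivity) d2 2
      _ = (N : ℝ) ^ 8 * S ^ 2 := by ring
      _ ≤ (N : ℝ) ^ 8 * ((N : ℝ) ^ 4 * UU f3) := mul_le_mul_of_nonneg_left d1 (by positivity)
      _ = (N : ℝ) ^ 12 * UU f3 := by ring
  have d4 : X ^ 4 ≤ ((N : ℝ) ^ 3 * (UU f3) ^ (1 / 4 : ℝ)) ^ 4 := by
    refine d3.trans (le_of_eq ?_)
    have e5 : ((UU f3) ^ (1 / 4 : ℝ)) ^ 4 = UU f3 := by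
      rw [← Real.rpow_natCast, ← Real.rpow_mul hUU0]
      norm_num
    rw [mul_pow, e5]
    ring
  exact (pow_le_pow_iff_left₀ hX0 (by positivity) (by norm_num)).1 d4

end Pool.Agent.Lib.H59T
end
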