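import Pool.Agent.Lib.H1M.RV2.D_H96G_E2
import Pool.Agent.Lib.H1M.RV2.M068
import Pool.Agent.Lib.H1M.RV2.M074

/-! Merged copies (to shorten the build) of Lib.H59T.UA, Lib.H59T.UMG, Lib.H59T.UME, Lib.H59T.UM, Lib.H96G.Final. -/

-- from Lib.H59T.UA
section

/-!
# Project H59T, chunk UA (M): three Cauchy-Schwarz steps with short shifts, on `ZMod M`
-/

open Finset

namespace Pool.Agent.Lib.H59T

/-- Cauchy-Schwarz with bounded coefficients -/
theorem ua_cs {ι : Type} (s : Finset ι) (u v : ι → ℂ) (hu : ∀ i ∈ s, ‖u i‖ ≤ 1) :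
    ‖∑ i ∈ s, u i * v i‖ ^ 2 ≤ s.card * ∑ i ∈ s, ‖v i‖ ^ 2 := by
  have h1 : ‖∑ i ∈ s, u i * v i‖ ≤ ∑ i ∈ s, ‖v i‖ := by
    refine (norm_sum_le _ _).trans (Finset.sum_le_sum fun i hi => ?_)
    rw [norm_mul]
    exact mul_le_of_le_one_left (norm_nonneg _) (hu i hi)
  have h2 : (∑ i ∈ s, ‖v i‖) ^ 2 ≤ s.card * ∑ i ∈ s, ‖v i‖ ^ 2 := sq_sum_le_card_mul_sum_sq
  exact (pow_le_pow_left₀ (norm_nonneg _) h1 2).trans h2

/-- average over shifts -/
theorem ua_shift (M H : ℕ) [NeZero M] (φ : ZMod M → ℂ) (c : ℕ → ZMod M) :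
    (H : ℂ) * ∑ y, φ y = ∑ y, ∑ h ∈ range H, φ (y + c h) := by
  rw [Finset.sum_comm]
  have h1 : ∀ h ∈ range H, ∑ y, φ (y + c h) = ∑ y, φ y := fun h _ =>
    Equiv.sum_comp (Equiv.addRight (c h)) φ
  rw [Finset.sum_congr rfl h1, Finset.sum_const, Finset.card_range, nsmul_eq_mul]

/-- the square of a sum as a double sum -/
theorem ua_sq (H : ℕ) (a : ℕ → ℂ) : ((‖∑ h ∈ range H, a h‖ ^ 2 : ℝ) : ℂ) =
    ∑ h ∈ range H, ∑ h' ∈ range H, a h * star (a h') := by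
  have h1 : ((‖∑ h ∈ range H, a h‖ ^ 2 : ℝ) : ℂ) = (∑ h ∈ range H, a h) * star (∑ h ∈ range H, a h) := by
    have h2 : star (∑ h ∈ range H, a h) = (starRingEnd ℂ) (∑ h ∈ range H, a h) := rfl
    rw [h2, Complex.mul_conj, Complex.normSq_eq_norm_sq]
  rw [h1, star_sum, Finset.sum_mul_sum]

/-- step 1 -/
theorem ua_one (M H : ℕ) [NeZero M] (f g F W : ZMod M → ℂ) (hf : ∀ x, ‖f x‖ ≤ 1) :
    (H : ℝ) ^ 2 * ‖∑ x : ZMod M, ∑ y : ZMod M, f x * g y * F (x + y) * W (x - y)‖ ^ 2 ≤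
      (M : ℝ) ^ 2 * ∑ x : ZMod M, ∑ y : ZMod M,
        ‖∑ h ∈ range H, g (y + h) * F (x + y + h) * W (x - y - h)‖ ^ 2 := by
  have h1 : (H : ℂ) * ∑ x : ZMod M, ∑ y : ZMod M, f x * g y * F (x + y) * W (x - y) =
      ∑ q : ZMod M × ZMod M, f q.1 *
        ∑ h ∈ range H, g (q.2 + h) * F (q.1 + q.2 + h) * W (q.1 - q.2 - h) := by
    rw [Fintype.sum_prod_type, Finset.mul_sum]
    refine Finset.sum_congr rfl fun x _ => ?_
    rw [ua_shift M H (fun y => f x * g y * F (x + y) * W (x - y)) (fun h => (h : ZMod M))]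
    refine Finset.sum_congr rfl fun y _ => ?_
    rw [Finset.mul_sum]
    refine Finset.sum_congr rfl fun h _ => ?_
    have e1 : x + (y + (h : ZMod M)) = x + y + h := by ring
    have e2 : x - (y + (h : ZMod M)) = x - y - h := by ring
    simp only [e1, e2]
    ring
  have h2 := ua_cs (univ : Finset (ZMod M × ZMod M)) (fun q => f q.1)
    (fun q => ∑ h ∈ range H, g (q.2 + h) * F (q.1 + q.2 + h) * W (q.1 - q.2 - h)) (fun q _ => hf _)
  rw [← h1, norm_mul, mul_pow, Complex.norm_natCast] at h2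
  rw [Finset.card_univ, Fintype.card_prod, ZMod.card, Fintype.sum_prod_type] at h2
  push_cast at h2
  rw [pow_two (M : ℝ)]
  exact h2

/-- step 2 -/
theorem ua_two (M H : ℕ) [NeZero M] (hH : 0 < H) (g F W : ZMod M → ℂ) (hg : ∀ x, ‖g x‖ ≤ 1) :
    (∑ x : ZMod M, ∑ y : ZMod M,
        ‖∑ h ∈ range H, g (y + h) * F (x + y + h) * W (x - y - h)‖ ^ 2) ^ 2 ≤
      (M : ℝ) ^ 2 * ∑ h ∈ range H, ∑ h' ∈ range H, ∑ x : ZMod M, ∑ y : ZMod M,
        ‖∑ k ∈ range H, (F (x + y + h + k) * star (F (x + y + h' + k))) *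
          (W (x - y - h + k) * star (W (x - y - h' + k)))‖ ^ 2 := by
  obtain ⟨T1, hT1⟩ : ∃ T1 : ℝ, T1 = ∑ x : ZMod M, ∑ y : ZMod M,
        ‖∑ h ∈ range H, g (y + h) * F (x + y + h) * W (x - y - h)‖ ^ 2 := ⟨_, rfl⟩
  rw [← hT1]
  have h1 : (H : ℂ) * (T1 : ℂ) =
      ∑ q ∈ (range H ×ˢ range H) ×ˢ (univ : Finset (ZMod M × ZMod M)),
        (g (q.2.2 + q.1.1) * star (g (q.2.2 + q.1.2))) *
        ∑ k ∈ range H, (F (q.2.1 + q.2.2 + q.1.1 + k) * star (F (q.2.1 + q.2.2 + q.1.2 + k))) *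
          (W (q.2.1 - q.2.2 - q.1.1 + k) * star (W (q.2.1 - q.2.2 - q.1.2 + k))) := by
    rw [Finset.sum_product, Finset.sum_product, hT1]
    push_cast
    have e0 : ∀ x y : ZMod M, ((‖∑ h ∈ range H, g (y + h) * F (x + y + h) * W (x - y - h)‖ : ℂ)) ^ 2 =
        ∑ h ∈ range H, ∑ h' ∈ range H, (g (y + h) * F (x + y + h) * W (x - y - h)) *
          star (g (y + h') * F (x + y + h') * W (x - y - h')) := by
      intro x y
      have := ua_sq H (fun h : ℕ => g (y + h) * F (x + y + h) * W (x - y - h))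
      push_cast at this
      exact this
    simp only [e0]
    have e1 : ∀ x : ZMod M, ∑ y : ZMod M, ∑ h ∈ range H, ∑ h' ∈ range H,
        (g (y + h) * F (x + y + h) * W (x - y - h)) *
          star (g (y + h') * F (x + y + h') * W (x - y - h')) =
        ∑ h ∈ range H, ∑ h' ∈ range H, ∑ y : ZMod M,
        (g (y + h) * F (x + y + h) * W (x - y - h)) *
          star (g (y + h') * F (x + y + h') * W (x - y - h')) := by
      intro x
      rw [Finset.sum_comm]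
      refine Finset.sum_congr rfl fun h _ => ?_
      rw [Finset.sum_comm]
    simp only [e1]
    rw [Finset.sum_comm, Finset.mul_sum]
    refine Finset.sum_congr rfl fun h _ => ?_
    rw [Finset.sum_comm, Finset.mul_sum]
    refine Finset.sum_congr rfl fun h' _ => ?_
    rw [Fintype.sum_prod_type, Finset.sum_comm, Finset.mul_sum, Finset.sum_comm (s := (univ : Finset (ZMod M)))]
    refine Finset.sum_congr rfl fun y _ => ?_
    rw [ua_shift M H (fun x => (g (y + h) * F (x + y + h) * W (x - y - h)) *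
          star (g (y + h') * F (x + y + h') * W (x - y - h'))) (fun k => (k : ZMod M))]
    refine Finset.sum_congr rfl fun x _ => ?_
    rw [Finset.mul_sum]
    refine Finset.sum_congr rfl fun k _ => ?_
    have e2 : x + (k : ZMod M) + y + h = x + y + h + k := by ring
    have e3 : x + (k : ZMod M) + y + h' = x + y + h' + k := by ring
    have e4 : x + (k : ZMod M) - y - h = x - y - h + k := by ring
    have e5 : x + (k : ZMod M) - y - h' = x - y - h' + k := by ring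
    simp only [e2, e3, e4, e5, star_mul']
    ring
  have h2 := ua_cs ((range H ×ˢ range H) ×ˢ (univ : Finset (ZMod M × ZMod M)))
    (fun q => g (q.2.2 + q.1.1) * star (g (q.2.2 + q.1.2)))
    (fun q => ∑ k ∈ range H, (F (q.2.1 + q.2.2 + q.1.1 + k) * star (F (q.2.1 + q.2.2 + q.1.2 + k))) *
          (W (q.2.1 - q.2.2 - q.1.1 + k) * star (W (q.2.1 - q.2.2 - q.1.2 + k)))) (fun q _ => by
      rw [norm_mul, norm_star]
      exact mul_le_one₀ (hg _) (norm_nonneg _) (hg _))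
  rw [← h1, norm_mul, mul_pow, Complex.norm_natCast, Complex.norm_real, Real.norm_eq_abs, sq_abs] at h2
  rw [Finset.card_product, Finset.card_product, Finset.card_range, Finset.card_univ,
    Fintype.card_prod, ZMod.card, Finset.sum_product, Finset.sum_product] at h2
  simp only [Fintype.sum_prod_type] at h2
  push_cast at h2
  have hH0 : (0 : ℝ) < (H : ℝ) ^ 2 := by positivity
  refine le_of_mul_le_mul_left ?_ hH0
  calc (H : ℝ) ^ 2 * T1 ^ 2 ≤ _ := h2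
    _ = _ := by ring

/-- step 3 -/
theorem ua_three (M H : ℕ) [NeZero M] (hH : 0 < H) (F W : ZMod M → ℂ) (hW : ∀ x, ‖W x‖ ≤ 1) :
    (∑ h ∈ range H, ∑ h' ∈ range H, ∑ x : ZMod M, ∑ y : ZMod M,
        ‖∑ k ∈ range H, (F (x + y + h + k) * star (F (x + y + h' + k))) *
          (W (x - y - h + k) * star (W (x - y - h' + k)))‖ ^ 2) ^ 2 ≤
      (H : ℝ) ^ 2 * (M : ℝ) ^ 3 * ∑ m : ZMod M, ∑ h ∈ range H, ∑ h' ∈ range H, ∑ k ∈ range H,
        ∑ k' ∈ range H, ‖∑ t ∈ range H, F (m + 2 * (t : ZMod M) + h + k) *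
          star (F (m + 2 * (t : ZMod M) + h' + k)) * star (F (m + 2 * (t : ZMod M) + h + k')) *
          F (m + 2 * (t : ZMod M) + h' + k')‖ ^ 2 := by
  obtain ⟨T2, hT2⟩ : ∃ T2 : ℝ, T2 = ∑ h ∈ range H, ∑ h' ∈ range H, ∑ x : ZMod M, ∑ y : ZMod M,
        ‖∑ k ∈ range H, (F (x + y + h + k) * star (F (x + y + h' + k))) *
          (W (x - y - h + k) * star (W (x - y - h' + k)))‖ ^ 2 := ⟨_, rfl⟩
  rw [← hT2]
  have h1 : (H : ℂ) * (T2 : ℂ) =
      ∑ q ∈ ((range H ×ˢ range H) ×ˢ (range H ×ˢ range H)) ×ˢ (univ : Finset (ZMod M × ZMod M)),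
        ((W (q.2.1 - q.2.2 - q.1.1.1 + q.1.2.1) * star (W (q.2.1 - q.2.2 - q.1.1.2 + q.1.2.1))) *
          star (W (q.2.1 - q.2.2 - q.1.1.1 + q.1.2.2) * star (W (q.2.1 - q.2.2 - q.1.1.2 + q.1.2.2)))) *
        ∑ t ∈ range H, F (q.2.1 + q.2.2 + 2 * (t : ZMod M) + q.1.1.1 + q.1.2.1) *
          star (F (q.2.1 + q.2.2 + 2 * (t : ZMod M) + q.1.1.2 + q.1.2.1)) *
          star (F (q.2.1 + q.2.2 + 2 * (t : ZMod M) + q.1.1.1 + q.1.2.2)) *
          F (q.2.1 + q.2.2 + 2 * (t : ZMod M) + q.1.1.2 + q.1.2.2) := by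
    rw [Finset.sum_product, Finset.sum_product, Finset.sum_product, hT2]
    simp only [Finset.sum_product]
    push_cast
    rw [Finset.mul_sum]
    refine Finset.sum_congr rfl fun h _ => ?_
    rw [Finset.mul_sum]
    refine Finset.sum_congr rfl fun h' _ => ?_
    have e0 : ∀ x y : ZMod M, ((‖∑ k ∈ range H, (F (x + y + h + k) * star (F (x + y + h' + k))) *
          (W (x - y - h + k) * star (W (x - y - h' + k)))‖ : ℂ)) ^ 2 =
        ∑ k ∈ range H, ∑ k' ∈ range H, ((F (x + y + h + k) * star (F (x + y + h' + k))) *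
          (W (x - y - h + k) * star (W (x - y - h' + k)))) *
          star ((F (x + y + h + k') * star (F (x + y + h' + k'))) *
          (W (x - y - h + k') * star (W (x - y - h' + k')))) := by
      intro x y
      have := ua_sq H (fun k : ℕ => (F (x + y + h + k) * star (F (x + y + h' + k))) *
          (W (x - y - h + k) * star (W (x - y - h' + k))))
      push_cast at this
      exact this
    simp only [e0]
    have e1 : ∀ x : ZMod M, ∑ y : ZMod M, ∑ k ∈ range H, ∑ k' ∈ range H,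
        ((F (x + y + h + k) * star (F (x + y + h' + k))) *
          (W (x - y - h + k) * star (W (x - y - h' + k)))) *
          star ((F (x + y + h + k') * star (F (x + y + h' + k'))) *
          (W (x - y - h + k') * star (W (x - y - h' + k')))) =
        ∑ k ∈ range H, ∑ k' ∈ range H, ∑ y : ZMod M,
        ((F (x + y + h + k) * star (F (x + y + h' + k))) *
          (W (x - y - h + k) * star (W (x - y - h' + k)))) *
          star ((F (x + y + h + k') * star (F (x + y + h' + k'))) *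
          (W (x - y - h + k') * star (W (x - y - h' + k')))) := by
      intro x
      rw [Finset.sum_comm]
      refine Finset.sum_congr rfl fun h _ => ?_
      rw [Finset.sum_comm]
    simp only [e1]
    rw [Finset.sum_comm, Finset.mul_sum]
    refine Finset.sum_congr rfl fun k _ => ?_
    rw [Finset.sum_comm, Finset.mul_sum]
    refine Finset.sum_congr rfl fun k' _ => ?_
    rw [Fintype.sum_prod_type]
    -- shift along the diagonal
    obtain ⟨φ, hφ⟩ : ∃ φ : ZMod M × ZMod M → ℂ, φ = fun q => ((F (q.1 + q.2 + h + k) * star (F (q.1 + q.2 + h' + k))) *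
          (W (q.1 - q.2 - h + k) * star (W (q.1 - q.2 - h' + k)))) *
          star ((F (q.1 + q.2 + h + k') * star (F (q.1 + q.2 + h' + k'))) *
          (W (q.1 - q.2 - h + k') * star (W (q.1 - q.2 - h' + k')))) := ⟨_, rfl⟩
    have e2 : ∑ x : ZMod M, ∑ y : ZMod M, ((F (x + y + h + k) * star (F (x + y + h' + k))) *
          (W (x - y - h + k) * star (W (x - y - h' + k)))) *
          star ((F (x + y + h + k') * star (F (x + y + h' + k'))) *
          (W (x - y - h + k') * star (W (x - y - h' + k')))) = ∑ q, φ q := by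
      rw [Fintype.sum_prod_type, hφ]
    rw [e2]
    have e3 : ∀ t ∈ range H, ∑ q : ZMod M × ZMod M, φ (q + ((t : ZMod M), (t : ZMod M))) = ∑ q, φ q :=
      fun t _ => Equiv.sum_comp (Equiv.addRight ((t : ZMod M), (t : ZMod M))) φ
    have e4 : (H : ℂ) * ∑ q, φ q = ∑ q : ZMod M × ZMod M, ∑ t ∈ range H,
        φ (q + ((t : ZMod M), (t : ZMod M))) := by
      rw [Finset.sum_comm, Finset.sum_congr rfl e3, Finset.sum_const, Finset.card_range, nsmul_eq_mul]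
    rw [e4, Fintype.sum_prod_type]
    refine Finset.sum_congr rfl fun x _ => ?_
    refine Finset.sum_congr rfl fun y _ => ?_
    rw [Finset.mul_sum]
    refine Finset.sum_congr rfl fun t _ => ?_
    rw [hφ]
    simp only [Prod.mk_add_mk]
    have a1 : ∀ u v : ZMod M, x + (t : ZMod M) + (y + t) + u + v = x + y + 2 * t + u + v := by
      intro u v; ring
    have a2 : ∀ u v : ZMod M, x + (t : ZMod M) - (y + t) - u + v = x - y - u + v := by
      intro u v; ring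
    simp only [a1, a2, star_mul', star_star]
    ring
  have h2 := ua_cs (((range H ×ˢ range H) ×ˢ (range H ×ˢ range H)) ×ˢ (univ : Finset (ZMod M × ZMod M)))
    (fun q => (W (q.2.1 - q.2.2 - q.1.1.1 + q.1.2.1) * star (W (q.2.1 - q.2.2 - q.1.1.2 + q.1.2.1))) *
          star (W (q.2.1 - q.2.2 - q.1.1.1 + q.1.2.2) * star (W (q.2.1 - q.2.2 - q.1.1.2 + q.1.2.2))))
    (fun q => ∑ t ∈ range H, F (q.2.1 + q.2.2 + 2 * (t : ZMod M) + q.1.1.1 + q.1.2.1) *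
          star (F (q.2.1 + q.2.2 + 2 * (t : ZMod M) + q.1.1.2 + q.1.2.1)) *
          star (F (q.2.1 + q.2.2 + 2 * (t : ZMod M) + q.1.1.1 + q.1.2.2)) *
          F (q.2.1 + q.2.2 + 2 * (t : ZMod M) + q.1.1.2 + q.1.2.2)) (fun q _ => by
      rw [norm_mul, norm_star, norm_mul, norm_mul, norm_star, norm_star]
      have a := hW (q.2.1 - q.2.2 - q.1.1.1 + q.1.2.1)
      have b := hW (q.2.1 - q.2.2 - q.1.1.2 + q.1.2.1)
      have c := hW (q.2.1 - q.2.2 - q.1.1.1 + q.1.2.2)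
      have d := hW (q.2.1 - q.2.2 - q.1.1.2 + q.1.2.2)
      exact mul_le_one₀ (mul_le_one₀ a (norm_nonneg _) b) (by positivity)
        (mul_le_one₀ c (norm_nonneg _) d))
  rw [← h1, norm_mul, mul_pow, Complex.norm_natCast, Complex.norm_real, Real.norm_eq_abs, sq_abs] at h2
  rw [Finset.card_product, Finset.card_product, Finset.card_product, Finset.card_range, Finset.card_univ,
    Fintype.card_prod, ZMod.card] at h2
  -- the sum over x, y is M times the sum over m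
  have h3 : ∑ q ∈ ((range H ×ˢ range H) ×ˢ (range H ×ˢ range H)) ×ˢ (univ : Finset (ZMod M × ZMod M)),
      ‖∑ t ∈ range H, F (q.2.1 + q.2.2 + 2 * (t : ZMod M) + q.1.1.1 + q.1.2.1) *
          star (F (q.2.1 + q.2.2 + 2 * (t : ZMod M) + q.1.1.2 + q.1.2.1)) *
          star (F (q.2.1 + q.2.2 + 2 * (t : ZMod M) + q.1.1.1 + q.1.2.2)) *
          F (q.2.1 + q.2.2 + 2 * (t : ZMod M) + q.1.1.2 + q.1.2.2)‖ ^ 2 =
      (M : ℝ) * ∑ m : ZMod M, ∑ h ∈ range H, ∑ h' ∈ range H, ∑ k ∈ range H,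
        ∑ k' ∈ range H, ‖∑ t ∈ range H, F (m + 2 * (t : ZMod M) + h + k) *
          star (F (m + 2 * (t : ZMod M) + h' + k)) * star (F (m + 2 * (t : ZMod M) + h + k')) *
          F (m + 2 * (t : ZMod M) + h' + k')‖ ^ 2 := by
    rw [Finset.sum_product_right, Fintype.sum_prod_type]
    have e5 : ∀ x : ZMod M, ∑ y : ZMod M, ∑ q ∈ (range H ×ˢ range H) ×ˢ (range H ×ˢ range H),
      ‖∑ t ∈ range H, F (x + y + 2 * (t : ZMod M) + q.1.1 + q.2.1) *
          star (F (x + y + 2 * (t : ZMod M) + q.1.2 + q.2.1)) *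
          star (F (x + y + 2 * (t : ZMod M) + q.1.1 + q.2.2)) *
          F (x + y + 2 * (t : ZMod M) + q.1.2 + q.2.2)‖ ^ 2 =
        ∑ m : ZMod M, ∑ q ∈ (range H ×ˢ range H) ×ˢ (range H ×ˢ range H),
      ‖∑ t ∈ range H, F (m + 2 * (t : ZMod M) + q.1.1 + q.2.1) *
          star (F (m + 2 * (t : ZMod M) + q.1.2 + q.2.1)) *
          star (F (m + 2 * (t : ZMod M) + q.1.1 + q.2.2)) *
          F (m + 2 * (t : ZMod M) + q.1.2 + q.2.2)‖ ^ 2 := fun x =>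
      Equiv.sum_comp (Equiv.addLeft x) (fun m : ZMod M => ∑ q ∈ (range H ×ˢ range H) ×ˢ (range H ×ˢ range H),
      ‖∑ t ∈ range H, F (m + 2 * (t : ZMod M) + q.1.1 + q.2.1) *
          star (F (m + 2 * (t : ZMod M) + q.1.2 + q.2.1)) *
          star (F (m + 2 * (t : ZMod M) + q.1.1 + q.2.2)) *
          F (m + 2 * (t : ZMod M) + q.1.2 + q.2.2)‖ ^ 2)
    rw [Finset.sum_congr rfl (fun x _ => e5 x), Finset.sum_const, Finset.card_univ, ZMod.card,
      nsmul_eq_mul]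
    congr 1
    refine Finset.sum_congr rfl fun m _ => ?_
    rw [Finset.sum_product, Finset.sum_product]
    refine Finset.sum_congr rfl fun h _ => ?_
    refine Finset.sum_congr rfl fun h' _ => ?_
    rw [Finset.sum_product]
  rw [h3] at h2
  push_cast at h2
  have hH0 : (0 : ℝ) < (H : ℝ) ^ 2 := by positivity
  refine le_of_mul_le_mul_left ?_ hH0
  refine h2.trans (le_of_eq ?_)
  ring

/-- Proof. `T = ∑_{x,y} f(x) g(y) F(x+y) W(x-y)`. All shifts are exact on `ZMod M`.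
(1) Replace `y` by `y + h` and average over `h < H`: `T = H⁻¹ ∑_{x,y} f(x) ∑_h g(y+h) F(x+y+h) W(x-y-h)`, so
`|T|² ≤ M² H⁻² T1`, `T1 = ∑_{h,h'} ∑_{x,y} G(y) F(x+y+h) star F(x+y+h') W1(x-y)`, `G(y) = g(y+h) star g(y+h')`,
`W1(d) = W(d-h) star W(d-h')`.
(2) Replace `x` by `x + k` and average over `k < H`: `|T1|² ≤ (H² M²) H⁻² T2`,
`T2 = ∑_{h,h',k,k'} ∑_{x,y} P(x+y) W2(x-y)`, `P(m) = F(m+h+k) star F(m+h'+k) star F(m+h+k') F(m+h'+k')`,
`W2(d) = W1(d+k) star W1(d+k')`.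
(3) Replace `(x, y)` by `(x + t, y + t)`: `T2 = H⁻¹ ∑_{h,h',k,k'} ∑_{x,y} W2(x-y) ∑_t P(x+y+2t)`, so
`|T2|² ≤ (H⁴ M²) H⁻² ∑_{h,h',k,k'} ∑_{x,y} |∑_t P(x+y+2t)|²`, and the sum over `x, y` is `M` times the sum over `m = x + y`.
Altogether `|T|^8 ≤ (M² H⁻²)⁴ (M²)² (H² M²) M Σ = M^15 H^(-6) Σ`. -/
theorem UA_main (M H : ℕ) [NeZero M] (hH : 0 < H) (f g F W : ZMod M → ℂ) (hf : ∀ x, ‖f x‖ ≤ 1)
    (hg : ∀ x, ‖g x‖ ≤ 1) (hW : ∀ x, ‖W x‖ ≤ 1) :
    ‖∑ x : ZMod M, ∑ y : ZMod M, f x * g y * F (x + y) * W (x - y)‖ ^ 8 ≤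
      (M : ℝ) ^ 15 / (H : ℝ) ^ 6 * ∑ m : ZMod M, ∑ h ∈ range H, ∑ h' ∈ range H, ∑ k ∈ range H,
        ∑ k' ∈ range H, ‖∑ t ∈ range H, F (m + 2 * (t : ZMod M) + h + k) *
          star (F (m + 2 * (t : ZMod M) + h' + k)) * star (F (m + 2 * (t : ZMod M) + h + k')) *
          F (m + 2 * (t : ZMod M) + h' + k')‖ ^ 2 := by
  have h1 := ua_one M H f g F W hf
  have h2 := ua_two M H hH g F W hg
  have h3 := ua_three M H hH F W hW
  obtain ⟨T, hT⟩ : ∃ T, T = ‖∑ x : ZMod M, ∑ y : ZMod M, f x * g y * F (x + y) * W (x - y)‖ := ⟨_, rfl⟩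
  obtain ⟨T1, hT1⟩ : ∃ T1 : ℝ, T1 = ∑ x : ZMod M, ∑ y : ZMod M,
        ‖∑ h ∈ range H, g (y + h) * F (x + y + h) * W (x - y - h)‖ ^ 2 := ⟨_, rfl⟩
  obtain ⟨T2, hT2⟩ : ∃ T2 : ℝ, T2 = ∑ h ∈ range H, ∑ h' ∈ range H, ∑ x : ZMod M, ∑ y : ZMod M,
        ‖∑ k ∈ range H, (F (x + y + h + k) * star (F (x + y + h' + k))) *
          (W (x - y - h + k) * star (W (x - y - h' + k)))‖ ^ 2 := ⟨_, rfl⟩
  obtain ⟨S, hS⟩ : ∃ S : ℝ, S = ∑ m : ZMod M, ∑ h ∈ range H, ∑ h' ∈ range H, ∑ k ∈ range H,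
        ∑ k' ∈ range H, ‖∑ t ∈ range H, F (m + 2 * (t : ZMod M) + h + k) *
          star (F (m + 2 * (t : ZMod M) + h' + k)) * star (F (m + 2 * (t : ZMod M) + h + k')) *
          F (m + 2 * (t : ZMod M) + h' + k')‖ ^ 2 := ⟨_, rfl⟩
  rw [← hT, ← hT1] at h1
  rw [← hT1, ← hT2] at h2
  rw [← hT2, ← hS] at h3
  rw [← hT, ← hS]
  have hT1' : 0 ≤ T1 := by
    rw [hT1]
    exact Finset.sum_nonneg fun _ _ => Finset.sum_nonneg fun _ _ => sq_nonneg _
  have hT2' : 0 ≤ T2 := by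
    rw [hT2]
    exact Finset.sum_nonneg fun _ _ => Finset.sum_nonneg fun _ _ => Finset.sum_nonneg fun _ _ =>
      Finset.sum_nonneg fun _ _ => sq_nonneg _
  have hH0 : (0 : ℝ) < H := by exact_mod_cast hH
  have hM0 : (0 : ℝ) ≤ M := Nat.cast_nonneg _
  have a1 : ((H : ℝ) ^ 2 * T ^ 2) ^ 4 ≤ ((M : ℝ) ^ 2 * T1) ^ 4 :=
    pow_le_pow_left₀ (by positivity) h1 4
  have a2 : (T1 ^ 2) ^ 2 ≤ ((M : ℝ) ^ 2 * T2) ^ 2 := pow_le_pow_left₀ (by positivity) h2 2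
  have a3 : (H : ℝ) ^ 8 * T ^ 8 ≤ (M : ℝ) ^ 15 * (H : ℝ) ^ 2 * S := by
    calc (H : ℝ) ^ 8 * T ^ 8 = ((H : ℝ) ^ 2 * T ^ 2) ^ 4 := by ring
      _ ≤ ((M : ℝ) ^ 2 * T1) ^ 4 := a1
      _ = (M : ℝ) ^ 8 * (T1 ^ 2) ^ 2 := by ring
      _ ≤ (M : ℝ) ^ 8 * ((M : ℝ) ^ 2 * T2) ^ 2 := mul_le_mul_of_nonneg_left a2 (by positivity)
      _ = (M : ℝ) ^ 12 * T2 ^ 2 := by ring
      _ ≤ (M : ℝ) ^ 12 * ((H : ℝ) ^ 2 * (M : ℝ) ^ 3 * S) := mul_le_mul_of_nonneg_left h3 (by positivity)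
      _ = _ := by ring
  rw [div_mul_eq_mul_div, le_div_iff₀ (by positivity)]
  have hH2 : (0 : ℝ) < (H : ℝ) ^ 2 := by positivity
  refine le_of_mul_le_mul_left ?_ hH2
  calc (H : ℝ) ^ 2 * (T ^ 8 * (H : ℝ) ^ 6) = (H : ℝ) ^ 8 * T ^ 8 := by ring
    _ ≤ _ := a3
    _ = _ := by ring

end Pool.Agent.Lib.H59T
end

-- from Lib.H59T.UMG
section

/-!
# Project H59T, chunk UMG (M): the total mass of the coefficients, good levels
-/

open Finset

namespace Pool.Agent.Lib.H59T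

open Pool.Agent.Lib.H68T Pool.Agent.Lib.H18Q Pool.Agent.Lib.H59P

open scoped Classical in
/-- Good levels. Proof. As `mdl_good` (`H59P/A3.lean`) with `kp = K`: `mb p = eb p` for `p ≠ p0` and `1 + eb p0` for `p0`, where `eb` is as
there: `L1_good_q`, `cl1_B0`, `B_leP`. -/
theorem UM_good (c : ℝ) (hc : 0 < c) : ∃ K C : ℝ, 1 ≤ K ∧ 1 ≤ C ∧ ∀ Q X : ℕ, RegP K Q X → Good c Q →
    ∃ mb : Ch → ℝ, (∀ p ∈ PC Q, 0 ≤ mb p) ∧ ∑ p ∈ PC Q, mb p ≤ C ∧
      ∀ m : ℤ, (X : ℤ) ≤ m → m ≤ 4 * X → ∀ p ∈ PC Q, ‖Bc Q X p m‖ ≤ mb p := by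
  classical
  obtain ⟨K1, C, hK1, hC, hL1⟩ := L1_good_q c hc
  obtain ⟨K2, hK2, hLip⟩ := Bc_lip
  obtain ⟨K3, hK3, hLk⟩ := Lk_SG
  obtain ⟨K4, hK4, hB0⟩ := cl1_B0
  obtain ⟨K5, hK5, hB⟩ := B_leP
  refine ⟨max (max (max K1 K2) (max K3 K4)) (max K5 16), C + 2,
    hK1.trans ((le_max_left _ _).trans ((le_max_left _ _).trans (le_max_left _ _))), by linarith, ?_⟩
  intro Q X hreg hgood
  obtain ⟨kp, hkpd⟩ : ∃ kp, kp = max (max (max K1 K2) (max K3 K4)) (max K5 16) := ⟨_, rfl⟩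
  have hkQ : kp * Real.log Q ≤ Real.log X := by rw [hkpd]; exact hreg.2.2
  have hkp : max (max (max K1 K2) (max K3 K4)) (max K5 16) ≤ kp := by rw [hkpd]
  obtain ⟨K, hKd⟩ : ∃ K, K = max (max (max K1 K2) (max K3 K4)) (max K5 16) := ⟨_, rfl⟩
  rw [← hKd] at hreg hkp
  have k1 : K1 ≤ K := by rw [hKd]; exact (le_max_left _ _).trans ((le_max_left _ _).trans (le_max_left _ _))
  have k2 : K2 ≤ K := by rw [hKd]; exact (le_max_right _ _).trans ((le_max_left _ _).trans (le_max_left _ _))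
  have k3 : K3 ≤ K := by rw [hKd]; exact (le_max_left _ _).trans ((le_max_right _ _).trans (le_max_left _ _))
  have k4 : K4 ≤ K := by rw [hKd]; exact (le_max_right _ _).trans ((le_max_right _ _).trans (le_max_left _ _))
  have k5 : K5 ≤ K := by rw [hKd]; exact (le_max_left _ _).trans (le_max_right _ _)
  have k6 : 16 ≤ K := by rw [hKd]; exact (le_max_right _ _).trans (le_max_right _ _)
  clear hKd
  have hKp : 1 ≤ K := hK1.trans k1
  have hK0 : 0 ≤ K := by linarith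
  have hQ1 : 1 ≤ Q := hreg.Q_pos hKp
  have hQ1' : (1 : ℝ) ≤ Q := by exact_mod_cast hQ1
  have hQK := hreg.Q_ge hKp
  have hX0 : (0 : ℝ) < X := by exact_mod_cast hreg.X_pos (by linarith)
  have hL := hL1 kp (by linarith) Q X (hreg.mono hK0 k1) hkQ hgood
  obtain ⟨q, hq⟩ : ∃ q, q = (Q : ℝ) ^ (-(5 / 2) : ℝ) := ⟨_, rfl⟩
  have hq0 : 0 ≤ q := by rw [hq]; positivity
  obtain ⟨eb, heb⟩ : ∃ eb : (Σ r : ℕ, DirichletCharacter ℂ r) → ℝ, eb = fun p =>
    (if p = p0 then ∫ t in (-(Q : ℝ) ^ 7)..((Q : ℝ) ^ 7), ‖FL X p0 t - F0 X t‖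
      else ∫ t in (-(Q : ℝ) ^ 7)..((Q : ℝ) ^ 7), ‖FL X p t‖) + q := ⟨_, rfl⟩
  have heb0 : ∀ p, 0 ≤ eb p := by
    intro p
    rw [heb]
    simp only
    split_ifs
    · exact add_nonneg (cl1_int_nonneg Q _) hq0
    · exact add_nonneg (cl1_int_nonneg Q _) hq0
  have hsum : ∑ p ∈ PC Q, eb p ≤ C * Real.exp (-(kp / C)) + (Q : ℝ) ^ (-(1 / 4) : ℝ) := by
    have h1 : ∑ p ∈ PC Q, eb p =
        (∑ p ∈ PC Q, (if p = p0 then ∫ t in (-(Q : ℝ) ^ 7)..((Q : ℝ) ^ 7), ‖FL X p0 t - F0 X t‖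
          else ∫ t in (-(Q : ℝ) ^ 7)..((Q : ℝ) ^ 7), ‖FL X p t‖)) + (PC Q).card * q := by
      rw [heb, Finset.sum_add_distrib, Finset.sum_const, nsmul_eq_mul]
    rw [h1, ph_split (PC Q) p0 (p0_mem hQ1) (fun p => p ≠ p0) (fun _ => Iff.rfl), if_pos rfl]
    have h2 : ∑ p ∈ (PC Q).filter (fun p => p ≠ p0),
        (if p = p0 then ∫ t in (-(Q : ℝ) ^ 7)..((Q : ℝ) ^ 7), ‖FL X p0 t - F0 X t‖
          else ∫ t in (-(Q : ℝ) ^ 7)..((Q : ℝ) ^ 7), ‖FL X p t‖) =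
        ∑ p ∈ (PC Q).filter (fun p => p ≠ p0), ∫ t in (-(Q : ℝ) ^ 7)..((Q : ℝ) ^ 7), ‖FL X p t‖ :=
      Finset.sum_congr rfl fun p hp => by rw [if_neg (mem_filter.1 hp).2]
    rw [h2]
    have h3 : ((PC Q).card : ℝ) * q ≤ 1 / Real.sqrt Q := by
      rw [← (cl1_Qpow hQ1).1, ← hq]
      apply mul_le_mul_of_nonneg_right _ hq0
      exact_mod_cast card_PC_le Q
    have h4 := a3_q4 (Q := Q) (by linarith)
    have h5 := a3_inv (Q := Q) (by linarith)
    have h6 : 2 / Real.sqrt Q = 1 / Real.sqrt Q + 1 / Real.sqrt Q := by ring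
    linarith
  have hE1 : C * Real.exp (-(kp / C)) + (Q : ℝ) ^ (-(1 / 4) : ℝ) ≤ C + 1 := by
    have h1 : Real.exp (-(kp / C)) ≤ 1 := by
      rw [Real.exp_le_one_iff]
      have : 0 ≤ kp / C := div_nonneg (by linarith) (by linarith)
      linarith
    have h2 : (Q : ℝ) ^ (-(1 / 4) : ℝ) ≤ 1 :=
      Real.rpow_le_one_of_one_le_of_nonpos hQ1' (by norm_num)
    have h3 : C * Real.exp (-(kp / C)) ≤ C * 1 := mul_le_mul_of_nonneg_left h1 (by linarith)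
    linarith
  refine ⟨fun p => eb p + (if p = p0 then 1 else 0), fun p _ => ?_, ?_, fun m hm hm4 p hp => ?_⟩
  · have := heb0 p
    beta_reduce
    split_ifs <;> linarith
  · rw [Finset.sum_add_distrib, Finset.sum_ite_eq' (PC Q) p0 (fun _ => (1 : ℝ)), if_pos (p0_mem hQ1)]
    linarith
  · beta_reduce
    by_cases h : p = p0
    · rw [if_pos h, h]
      have h1 := hB0 Q X (hreg.mono hK0 k4) m hm hm4
      have h2 : ‖Bc Q X p0 m‖ ≤ ‖Bc Q X p0 m - 1‖ + 1 := by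
        have h3 := norm_add_le (Bc Q X p0 m - 1) 1
        rw [sub_add_cancel, norm_one] at h3
        exact h3
      rw [← hq] at h1
      have h3 : eb p0 = (∫ t in (-(Q : ℝ) ^ 7)..((Q : ℝ) ^ 7), ‖FL X p0 t - F0 X t‖) + q := by
        rw [heb]
        beta_reduce
        rw [if_pos rfl]
      rw [h3]
      linarith
    · rw [if_neg h, add_zero]
      have h1 := hB Q X (hreg.mono hK0 k5) p (mem_PC.1 hp).1 m hm hm4
      rw [← hq] at h1
      have h3 : eb p = (∫ t in (-(Q : ℝ) ^ 7)..((Q : ℝ) ^ 7), ‖FL X p t‖) + q := by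
        rw [heb]
        beta_reduce
        rw [if_neg h]
      rw [h3]
      exact h1

end Pool.Agent.Lib.H59T
end

-- from Lib.H59T.UME
section

/-!
# Project H59T, chunk UME (M): the total mass of the coefficients, exceptional levels
-/

open Finset

namespace Pool.Agent.Lib.H59T

open Pool.Agent.Lib.H68T Pool.Agent.Lib.H18Q Pool.Agent.Lib.H59P

open scoped Classical in
/-- Levels with an exceptional zero (`r ≤ Q` only). Proof. As `mdl_exc` (`H59P/A4.lean`) with `kp = K`, without the lower bound for `η`: `mb p = I p + q`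
(`+ 1` for `p = p0`, `+ 1 + q'` for `p = ⟨r, ψ⟩`; `0 ≤ m^(β-1) ≤ 1`), `L1_exceptional_q` (`(1-β) log Q ≤ c1 < 1`), `cl1_B0`, `B_leP`,
`B1_leP`. -/
theorem UM_exc : ∃ c1 K C : ℝ, 0 < c1 ∧ c1 < 1 ∧ 1 ≤ K ∧ 1 ≤ C ∧ ∀ Q X : ℕ, RegP K Q X →
    ∀ (r : ℕ) [NeZero r] (ψ : DirichletCharacter ℂ r), r ≤ Q → ψ.IsPrimitive → ψ ≠ 1 → ψ ^ 2 = 1 →
    ∀ β : ℝ, β < 1 → ψ.LFunction (β : ℂ) = 0 → (1 - β) * Real.log Q ≤ c1 →
    ∃ mb : Ch → ℝ, (∀ p ∈ PC Q, 0 ≤ mb p) ∧ ∑ p ∈ PC Q, mb p ≤ C ∧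
      ∀ m : ℤ, (X : ℤ) ≤ m → m ≤ 4 * X → ∀ p ∈ PC Q, ‖Bc Q X p m‖ ≤ mb p := by
  classical
  obtain ⟨c1, K1, C1, hc1, hc11, hK1, hC1, hL1⟩ := L1_exceptional_q
  obtain ⟨K2, hK2, hLip⟩ := Bc_lip
  obtain ⟨K3, hK3, hLk⟩ := Lk_SG
  obtain ⟨K4, hK4, hB0⟩ := cl1_B0
  obtain ⟨K5, hK5, hB⟩ := B_leP
  obtain ⟨K6, hK6, hB1⟩ := B1_leP
  refine ⟨c1, max (max (max K1 K2) (max K3 K4)) (max (max K5 K6) 256),
    C1 + 6, hc1, hc11,
    hK1.trans ((le_max_left _ _).trans ((le_max_left _ _).trans (le_max_left _ _))),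
    by linarith, ?_⟩
  intro Q X hreg r _ ψ hr hprim hψ1 hψ2 β hβ hLβ hsmall
  obtain ⟨kp, hkpd⟩ : ∃ kp, kp = max (max (max K1 K2) (max K3 K4)) (max (max K5 K6) 256) := ⟨_, rfl⟩
  have hkQ : kp * Real.log Q ≤ Real.log X := by rw [hkpd]; exact hreg.2.2
  have hkp : max (max (max K1 K2) (max K3 K4)) (max (max K5 K6) 256) ≤ kp := by rw [hkpd]
  obtain ⟨K, hKd⟩ : ∃ K, K = max (max (max K1 K2) (max K3 K4)) (max (max K5 K6) 256) := ⟨_, rfl⟩
  rw [← hKd] at hreg hkp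
  have k1 : K1 ≤ K := by rw [hKd]; exact (le_max_left _ _).trans ((le_max_left _ _).trans (le_max_left _ _))
  have k2 : K2 ≤ K := by rw [hKd]; exact (le_max_right _ _).trans ((le_max_left _ _).trans (le_max_left _ _))
  have k3 : K3 ≤ K := by rw [hKd]; exact (le_max_left _ _).trans ((le_max_right _ _).trans (le_max_left _ _))
  have k4 : K4 ≤ K := by rw [hKd]; exact (le_max_right _ _).trans ((le_max_right _ _).trans (le_max_left _ _))
  have k5 : K5 ≤ K := by rw [hKd]; exact (le_max_left _ _).trans ((le_max_left _ _).trans (le_max_right _ _))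
  have k6 : K6 ≤ K := by rw [hKd]; exact (le_max_right _ _).trans ((le_max_left _ _).trans (le_max_right _ _))
  have k7 : 256 ≤ K := by rw [hKd]; exact (le_max_right _ _).trans (le_max_right _ _)
  clear hKd
  have hKp : 1 ≤ K := hK1.trans k1
  have hK0 : 0 ≤ K := by linarith
  have hQ1 : 1 ≤ Q := hreg.Q_pos hKp
  have hQ1' : (1 : ℝ) ≤ Q := by exact_mod_cast hQ1
  have hQK := hreg.Q_ge hKp
  have hlQ := hreg.logQ_ge hKp
  have hX1 : 1 ≤ X := hreg.X_pos (by linarith)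
  have hX0 : (0 : ℝ) < X := by exact_mod_cast hX1
  have hr0 : 1 ≤ r := Nat.pos_of_ne_zero (NeZero.ne r)
  have hη : 0 < 1 - β := by linarith
  have hβ12 : 1 / 2 ≤ β := by
    by_contra hcon
    have h1 : (1 / 2 : ℝ) ≤ 1 - β := by linarith [not_le.1 hcon]
    have h2 : (1 / 2 : ℝ) * 3 ≤ (1 - β) * Real.log Q :=
      mul_le_mul h1 (by linarith) (by norm_num) hη.le
    linarith
  have hL := hL1 kp (by linarith) Q X (hreg.mono hK0 k1) hkQ r ψ hr hprim hψ1 hψ2 β hβ hLβ hsmall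
  have hmemψ : (⟨r, ψ⟩ : Σ r : ℕ, DirichletCharacter ℂ r) ∈ PC Q :=
    mem_PC.2 ⟨hr0, hr, hprim⟩
  have hneψ : (⟨r, ψ⟩ : Σ r : ℕ, DirichletCharacter ℂ r) ≠ p0 := by
    intro h
    unfold p0 at h
    obtain ⟨h1, h2⟩ := Sigma.mk.inj_iff.1 h
    subst h1
    exact hψ1 (eq_of_heq h2)
  obtain ⟨x, hxd⟩ : ∃ x, x = (1 - β) * Real.log Q := ⟨_, rfl⟩
  have hx0 : 0 < x := by rw [hxd]; exact mul_pos hη (by linarith)
  rw [← hxd] at hsmall hL
  obtain ⟨q, hq⟩ : ∃ q, q = (Q : ℝ) ^ (-(5 / 2) : ℝ) := ⟨_, rfl⟩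
  have hq0 : 0 ≤ q := by rw [hq]; positivity
  obtain ⟨q', hq'⟩ : ∃ q', q' = (Q : ℝ) ^ (-(3 / 2) : ℝ) := ⟨_, rfl⟩
  have hq'0 : 0 ≤ q' := by rw [hq']; positivity
  obtain ⟨I, hI⟩ : ∃ I : (Σ r : ℕ, DirichletCharacter ℂ r) → ℝ, I = fun p =>
    (if p = p0 then ∫ t in (-(Q : ℝ) ^ 7)..((Q : ℝ) ^ 7), ‖FL X p0 t - F0 X t‖
      else if p = ⟨r, ψ⟩ then ∫ t in (-(Q : ℝ) ^ 7)..((Q : ℝ) ^ 7), ‖FL X ⟨r, ψ⟩ t + Fb X β t‖
      else ∫ t in (-(Q : ℝ) ^ 7)..((Q : ℝ) ^ 7), ‖FL X p t‖) := ⟨_, rfl⟩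
  have hI0 : ∀ p, 0 ≤ I p := by
    intro p
    rw [hI]
    simp only
    split_ifs
    · exact cl1_int_nonneg Q _
    · exact cl1_int_nonneg Q _
    · exact cl1_int_nonneg Q _
  obtain ⟨eb, heb⟩ : ∃ eb : (Σ r : ℕ, DirichletCharacter ℂ r) → ℝ, eb = fun p =>
    I p + q + (if p = ⟨r, ψ⟩ then q' else 0) := ⟨_, rfl⟩
  have heb0 : ∀ p, 0 ≤ eb p := by
    intro p
    rw [heb]
    have := hI0 p
    simp only
    split_ifs <;> linarith
  have hIsum : ∑ p ∈ PC Q, I p ≤ (C1 * Real.exp (-(kp / C1)) + 1 / Q) * x := by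
    rw [ph_split (PC Q) p0 (p0_mem hQ1) (fun p => p ≠ p0) (fun _ => Iff.rfl),
      ph_split ((PC Q).filter (fun p => p ≠ p0)) ⟨r, ψ⟩ (mem_filter.2 ⟨hmemψ, hneψ⟩)
        (fun p => p ≠ ⟨r, ψ⟩) (fun _ => Iff.rfl)]
    have hfilt : ((PC Q).filter (fun p => p ≠ p0)).filter (fun p => p ≠ ⟨r, ψ⟩) =
        (PC Q).filter (fun p => p ≠ p0 ∧ p ≠ ⟨r, ψ⟩) := by
      ext p
      simp only [mem_filter]
      tauto
    rw [hfilt]
    have e1 : I p0 = ∫ t in (-(Q : ℝ) ^ 7)..((Q : ℝ) ^ 7), ‖FL X p0 t - F0 X t‖ := by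
      rw [hI]
      beta_reduce
      rw [if_pos rfl]
    have e2 : I ⟨r, ψ⟩ = ∫ t in (-(Q : ℝ) ^ 7)..((Q : ℝ) ^ 7), ‖FL X ⟨r, ψ⟩ t + Fb X β t‖ := by
      rw [hI]
      beta_reduce
      rw [if_neg hneψ, if_pos rfl]
    have e3 : ∑ p ∈ (PC Q).filter (fun p => p ≠ p0 ∧ p ≠ ⟨r, ψ⟩), I p =
        ∑ p ∈ (PC Q).filter (fun p => p ≠ p0 ∧ p ≠ ⟨r, ψ⟩),
          ∫ t in (-(Q : ℝ) ^ 7)..((Q : ℝ) ^ 7), ‖FL X p t‖ := by
      refine Finset.sum_congr rfl fun p hp => ?_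
      rw [hI]
      simp only
      rw [if_neg (mem_filter.1 hp).2.1, if_neg (mem_filter.1 hp).2.2]
    rw [e1, e2, e3]
    linarith
  have hXr : (1 : ℝ) ≤ X := by exact_mod_cast hX1
  have hx1 : x ≤ 1 := by linarith
  have hqle : q ≤ 1 := by
    rw [hq]
    exact Real.rpow_le_one_of_one_le_of_nonpos hQ1' (by norm_num)
  have hq'le : q' ≤ 1 := by
    rw [hq']
    exact Real.rpow_le_one_of_one_le_of_nonpos hQ1' (by norm_num)
  have hIle : ∑ p ∈ PC Q, I p ≤ C1 + 1 := by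
    have h1 : Real.exp (-(kp / C1)) ≤ 1 := by
      rw [Real.exp_le_one_iff]
      have : 0 ≤ kp / C1 := div_nonneg (by linarith) (by linarith)
      linarith
    have h2 : 1 / (Q : ℝ) ≤ 1 := by
      rw [div_le_one (by linarith)]
      exact hQ1'
    have h3 : C1 * Real.exp (-(kp / C1)) ≤ C1 * 1 := mul_le_mul_of_nonneg_left h1 (by linarith)
    have h4 : 0 ≤ C1 * Real.exp (-(kp / C1)) + 1 / Q := by positivity
    have h5 : (C1 * Real.exp (-(kp / C1)) + 1 / Q) * x ≤ (C1 * Real.exp (-(kp / C1)) + 1 / Q) * 1 :=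
      mul_le_mul_of_nonneg_left hx1 h4
    linarith
  refine ⟨fun p => eb p + (if p = p0 then 1 else 0) + (if p = ⟨r, ψ⟩ then 1 else 0), fun p _ => ?_, ?_,
    fun m hm hm4 p hp => ?_⟩
  · have := heb0 p
    beta_reduce
    split_ifs <;> linarith
  · rw [Finset.sum_add_distrib, Finset.sum_add_distrib, Finset.sum_ite_eq' (PC Q) p0 (fun _ => (1 : ℝ)),
      if_pos (p0_mem hQ1), Finset.sum_ite_eq' (PC Q) _ (fun _ => (1 : ℝ)), if_pos hmemψ]
    have h1 : ∑ p ∈ PC Q, eb p = ∑ p ∈ PC Q, I p + (PC Q).card * q + q' := by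
      rw [heb, Finset.sum_add_distrib, Finset.sum_add_distrib, Finset.sum_const, nsmul_eq_mul,
        Finset.sum_ite_eq' (PC Q) _ (fun _ => q'), if_pos hmemψ]
    have h3 : ((PC Q).card : ℝ) * q ≤ 1 / Real.sqrt Q := by
      rw [← (cl1_Qpow hQ1).1, ← hq]
      apply mul_le_mul_of_nonneg_right _ hq0
      exact_mod_cast card_PC_le Q
    have h4 : 1 / Real.sqrt Q ≤ 1 := by
      rw [div_le_one (Real.sqrt_pos.2 (by linarith))]
      exact Real.one_le_sqrt.2 hQ1'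
    rw [h1]
    linarith
  · have hm1 : (1 : ℝ) ≤ (m : ℝ) := by
      have : (1 : ℤ) ≤ m := by omega
      exact_mod_cast this
    beta_reduce
    by_cases h : p = p0
    · have h'' : p0 ≠ (⟨r, ψ⟩ : Σ r : ℕ, DirichletCharacter ℂ r) := fun h3 => hneψ h3.symm
      rw [h, if_pos rfl, if_neg h'', add_zero]
      have h1 := hB0 Q X (hreg.mono hK0 k4) m hm hm4
      rw [← hq] at h1
      have h2 : ‖Bc Q X p0 m‖ ≤ ‖Bc Q X p0 m - 1‖ + 1 := by
        have h3 := norm_add_le (Bc Q X p0 m - 1) 1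
        rw [sub_add_cancel, norm_one] at h3
        exact h3
      have h3 : eb p0 = (∫ t in (-(Q : ℝ) ^ 7)..((Q : ℝ) ^ 7), ‖FL X p0 t - F0 X t‖) + q := by
        rw [heb, hI]
        beta_reduce
        rw [if_pos rfl, if_neg h'', add_zero]
      rw [h3]
      linarith
    · by_cases h' : p = ⟨r, ψ⟩
      · rw [if_neg h, if_pos h', h', add_zero]
        have h1 := hB1 Q X (hreg.mono hK0 k6) ⟨r, ψ⟩ hr0 β hβ12 hβ.le m hm hm4
        rw [← hq'] at h1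
        have h2 : ‖(((m : ℝ) ^ (β - 1) : ℝ) : ℂ)‖ ≤ 1 := by
          rw [Complex.norm_real, Real.norm_eq_abs, abs_of_nonneg (Real.rpow_nonneg (by linarith) _)]
          exact Real.rpow_le_one_of_one_le_of_nonpos hm1 (by linarith)
        have h3 : eb ⟨r, ψ⟩ = (∫ t in (-(Q : ℝ) ^ 7)..((Q : ℝ) ^ 7), ‖FL X ⟨r, ψ⟩ t + Fb X β t‖) + q + q' := by
          rw [heb, hI]
          beta_reduce
          rw [if_neg hneψ, if_pos rfl, if_pos rfl]
        rw [h3]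
        have h4 := norm_sub_le (Bc Q X ⟨r, ψ⟩ m + (((m : ℝ) ^ (β - 1) : ℝ) : ℂ)) (((m : ℝ) ^ (β - 1) : ℝ) : ℂ)
        rw [add_sub_cancel_right] at h4
        have h5 : ‖Bc Q X ⟨r, ψ⟩ m + (((m : ℝ) ^ (β - 1) : ℝ) : ℂ)‖ ≤
            (∫ t in (-(Q : ℝ) ^ 7)..((Q : ℝ) ^ 7), ‖FL X ⟨r, ψ⟩ t + Fb X β t‖) + q' := h1
        linarith
      · rw [if_neg h, if_neg h', add_zero, add_zero]
        have h1 := hB Q X (hreg.mono hK0 k5) p (mem_PC.1 hp).1 m hm hm4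
        rw [← hq] at h1
        have h3 : eb p = (∫ t in (-(Q : ℝ) ^ 7)..((Q : ℝ) ^ 7), ‖FL X p t‖) + q := by
          rw [heb, hI]
          beta_reduce
          rw [if_neg h, if_neg h', if_neg h', add_zero]
        rw [h3]
        exact h1

end Pool.Agent.Lib.H59T
end

-- from Lib.H59T.UM
section

/-!
# Project H59T, chunk UM (S/M): the total mass of the coefficients
-/

open Finset

namespace Pool.Agent.Lib.H59T

open Pool.Agent.Lib.H68T Pool.Agent.Lib.H18Q Pool.Agent.Lib.H59P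

/-- **The total mass.** Proof. `UM_exc` gives `c1`. If `Good c1 Q`: `UM_good` with `c = c1`. Otherwise (definition of `Good`) there is an
exceptional zero `σ ≤ 1`, `1 - c1/log Q ≤ σ`; `σ < 1` by `DirichletCharacter.LFunction_apply_one_ne_zero` (`ψ ≠ 1`). -/
theorem UM_mass : ∃ K C : ℝ, 1 ≤ K ∧ 1 ≤ C ∧ ∀ Q X : ℕ, RegP K Q X →
    ∃ mb : Ch → ℝ, (∀ p ∈ PC Q, 0 ≤ mb p) ∧ ∑ p ∈ PC Q, mb p ≤ C ∧
      ∀ m : ℤ, (X : ℤ) ≤ m → m ≤ 4 * X → ∀ p ∈ PC Q, ‖Bc Q X p m‖ ≤ mb p := by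
  obtain ⟨c1, K1, C1, hc1, hc11, hK1, hC1, h1⟩ := UM_exc
  obtain ⟨K2, C2, hK2, hC2, h2⟩ := UM_good c1 hc1
  refine ⟨max (max K1 K2) 1, max C1 C2, le_max_right _ _, hC1.trans (le_max_left _ _),
    fun Q X hreg => ?_⟩
  have hK0 : 0 ≤ max (max K1 K2) 1 := zero_le_one.trans (le_max_right _ _)
  have hQ := hreg.logQ_ge (le_max_right _ _)
  by_cases hg : Good c1 Q
  · obtain ⟨mb, a1, a2, a3⟩ := h2 Q X (hreg.mono hK0 ((le_max_right _ _).trans (le_max_left _ _))) hg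
    exact ⟨mb, a1, a2.trans (le_max_right _ _), a3⟩
  · unfold Good at hg
    push Not at hg
    obtain ⟨r, _, ψ, hr, hp, hne, hsq, σ, hσ, hσ1, hL⟩ := hg
    have hlt : σ < 1 := by
      refine lt_of_le_of_ne hσ1 fun h => ?_
      rw [h, Complex.ofReal_one] at hL
      exact DirichletCharacter.LFunction_apply_one_ne_zero hne hL
    have hlQ : 0 < Real.log Q := by
      have : (0 : ℝ) < max (max K1 K2) 1 := lt_of_lt_of_le one_pos (le_max_right _ _)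
      linarith
    have hsm : (1 - σ) * Real.log Q ≤ c1 := by
      have h3 : 1 - σ ≤ c1 / Real.log Q := by linarith
      calc (1 - σ) * Real.log Q ≤ c1 / Real.log Q * Real.log Q :=
            mul_le_mul_of_nonneg_right h3 hlQ.le
        _ = c1 := div_mul_cancel₀ _ hlQ.ne'
    obtain ⟨mb, a1, a2, a3⟩ := h1 Q X (hreg.mono hK0 ((le_max_left _ _).trans (le_max_left _ _)))
      r ψ hr hp hne hsq σ hlt hL hsm
    exact ⟨mb, a1, a2.trans (le_max_left _ _), a3⟩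

end Pool.Agent.Lib.H59T
end

-- from Lib.H96G.Final
section

/-!
# Project H96G: conclusion of module G
-/

open Finset

namespace Pool.Agent.Lib.H96G

open Pool.Agent.Goldbach

/-- The input at all large sizes implies the theorem on both families of Goldbach graphs. -/
theorem final (c0 : ℝ) (hc0 : 0 < c0) (n1 : ℕ)
    (h : ∀ n : ℕ, n1 ≤ n → ∃ (M : ℕ) (L : ℕ → ℤ → ℝ) (c B b : ℝ), c0 ≤ b ∧ GIn n M L c B b) :
    ∃ δ0 : ℝ, 0 < δ0 ∧ ∃ N : ℕ, ∀ n ≥ N, ∃ δ : ℝ, δ0 ≤ δ ∧ δ ≤ 1 / 2 ∧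
      Fin5 n δ (goldbachGraph n) ∧ Fin5 n δ (nearGoldbachGraph n) := by
  obtain ⟨n2, hn2⟩ := nm_ev c0 hc0
  refine ⟨100 * c0 / 11, by positivity, max n1 (max n2 1), fun n hn => ?_⟩
  have h1 : n1 ≤ n := le_trans (le_max_left _ _) hn
  have h2 : n2 ≤ n := le_trans (le_trans (le_max_left _ _) (le_max_right _ _)) hn
  have h3 : 1 ≤ n := le_trans (le_trans (le_max_right _ _) (le_max_right _ _)) hn
  obtain ⟨M, L, c, B, b, hb, hG⟩ := h n h1
  have hN := hn2 n h2 b hb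
  have hB1 := hG.hb
  have hB2 := hG.hB
  have hc1 := hG.hc
  refine ⟨B / 11, by linarith, by linarith, ?_, ?_⟩
  · exact E2 (lo := 0) h3 (by norm_num) hN hG.hb (by linarith) (E1 (by norm_num) hN hG)
      (fun a ha => ha) (fun a _ => by simp)
      (fun x hx => by
        rw [Finset.mem_Icc] at hx
        exact ⟨even_two_mul x, by omega⟩)
      (fun m h1 h2 h3 => ⟨h1, h2, h3⟩) (fun m hm => Or.inr ⟨hm.1, hm.2.1⟩)
  · exact E2 (lo := 1) h3 le_rfl hN hG.hb (by linarith) (E1 le_rfl hN hG)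
      (fun a ha => ⟨ha.1, ha.2.2⟩) (fun a ha => by have := ha.2.1; omega)
      (fun x hx => by
        rw [Finset.mem_Icc] at hx
        exact ⟨even_two_mul x, by omega, by omega⟩)
      (fun m h1 h2 h3 => Or.inr ⟨h1, h2, h3⟩) (fun m hm => by
        rcases hm with hm | hm
        · exact Or.inl hm
        · exact Or.inr ⟨hm.1, hm.2.1⟩)

end Pool.Agent.Lib.H96G
end
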