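import Pool.Agent.Lib.H1M.RV2.D_H18R_Defs
import Pool.Agent.Lib.H1M.RV2.D_H96G_E2
import Pool.Agent.Lib.H1M.RV2.M001
import Pool.Agent.Lib.H1M.RV2.M065
import Pool.Agent.Lib.H1M.RV2.M071
import Pool.Agent.Lib.H1M.RV2.M076
import Pool.Agent.Lib.H1M.RV2.M077

/-! Merged copies (to shorten the build) of Lib.H57T.FIN, Lib.H57T.Main, Lib.H18P.P1, Lib.H18R.GL. -/

-- from Lib.H57T.FIN
section

/-!
# Chunk FIN: Chen's theorem with Maynard-Tao tuples
-/

open Finset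

namespace Pool.Agent.Lib.H57T

open Pool.Agent.Lib.H57C


open Pool.Agent.Lib.H57M
open Pool.Agent.Lib.H59C (AA zz)
/-- Lower bound for the weighted sum.

Proof. `κ = (AA/8)(2 log 3 - log 6 - 3/8) > 0` (`cw_log` in `H59C/CW.lean`, `AA_pos`); `S1_low (κ/8)`, `S2_up (κ/8)`, `S3_up (κ/8)` give `θ0`; `θ = min` of these and `1/100`. `C` from
`E1_up`; `K0 ≥ 8 C/κ`, so `E1s ≤ (κ/8) Xh Vz + N/L^9`. `E2_up`, `E3_up`. So for every `h ∈ H`:
`S1 - S2/2 - S3/2 - E1 - E2 - E3 ≥ (κ/2) Xh Vz - 3 N/L^9 ≥ (κ/4) Xh Vz + N/L^4` for large `N` (`main_low`: `Xh Vz ≥ N/L^3`). And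
`Xh ≥ (N/20) (36/100) (1 + n c)^2 (log W/4) Va` (`aes`, `vb_ge`), so the sum over the `K` elements of `H` is `≥ K (1 + n c)^2 log W (κ/4) (9/2000)/1 N Va Vz + N/L^4 ≥
(κ/4) (9/2000) G L N Va Vz + N/L^4` (`gain`). The negative part is at most `(g - 1) 2 L ((N/8) Va Vz (AA/3 + 1) + N/L^10)` (`Ns_up`). So `G = C' g` with a large
constant `C'` (only depending on `AA`, `κ`) gives `Tt ≥ N/L^4 - 2 g N/L^9 ≥ N/L^5`. -/
theorem T_ge : ∃ θ G1 : ℝ, 0 < θ ∧ θ ≤ 1 / 100 ∧ 0 < G1 ∧ ∃ K0 : ℕ,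
    ∀ g : ℕ, 1 ≤ g → ∀ (K B cF : ℕ), 1 ≤ K → 3 ≤ B → ∃ n0 : ℕ, ∀ N : ℕ, n0 ≤ N →
    ∀ (w : Par K) (H : Finset ℕ) (a p1 : ℕ), K0 ≤ p1 → Reg B cF θ (g * G1) w H N a p1 →
    N / Real.log N ^ 5 ≤ Tt w H N a p1 g := by
  classical
  have hAA := H59C.AA_pos
  obtain ⟨κ, hκ⟩ : ∃ κ : ℝ, κ = AA / 8 * (2 * Real.log 3 - Real.log 6 - 3 / 8) := ⟨_, rfl⟩
  have hκ0 : 0 < κ := by
    rw [hκ]
    have := H59C.cw_log
    exact mul_pos (by linarith) (by linarith)
  obtain ⟨t1, ht1, h1⟩ := S1_low (κ / 8) (by linarith)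
  obtain ⟨t2, ht2, h2⟩ := S2_up (κ / 8) (by linarith)
  obtain ⟨t3, ht3, h3⟩ := S3_up (κ / 8) (by linarith)
  obtain ⟨C, hC, h4⟩ := E1_up
  obtain ⟨θ, hθ⟩ : ∃ θ : ℝ, θ = min (min t1 t2) (min t3 (1 / 100)) := ⟨_, rfl⟩
  have hθ0 : 0 < θ := by
    rw [hθ]
    exact lt_min (lt_min ht1 ht2) (lt_min ht3 (by norm_num))
  have hθ1 : θ ≤ t1 := by rw [hθ]; exact (min_le_left _ _).trans (min_le_left _ _)
  have hθ2 : θ ≤ t2 := by rw [hθ]; exact (min_le_left _ _).trans (min_le_right _ _)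
  have hθ3 : θ ≤ t3 := by rw [hθ]; exact (min_le_right _ _).trans (min_le_left _ _)
  have hθ4 : θ ≤ 1 / 100 := by rw [hθ]; exact (min_le_right _ _).trans (min_le_right _ _)
  obtain ⟨G1, hG1⟩ : ∃ G1 : ℝ, G1 = (AA / 3 + 1) * (2000 / (9 * κ)) := ⟨_, rfl⟩
  have hG10 : 0 < G1 := by
    rw [hG1]
    positivity
  refine ⟨θ, G1, hθ0, hθ4, hG10, ⌈8 * C / κ⌉₊ + 1, fun g hg K B cF hK hB => ?_⟩
  have hg1 : (1 : ℝ) ≤ g := by exact_mod_cast hg
  obtain ⟨G, hGG⟩ : ∃ G : ℝ, G = g * G1 := ⟨_, rfl⟩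
  have hG : G = g * (AA / 3 + 1) * (2000 / (9 * κ)) := by
    rw [hGG, hG1]
    ring
  have hG0 : 0 < G := by
    rw [hGG]
    positivity
  rw [← hGG]
  obtain ⟨n1, h1⟩ := h1 θ hθ0 hθ1 K B cF G hK hB
  obtain ⟨n2, h2⟩ := h2 θ hθ0 hθ2 K B cF G hK hB
  obtain ⟨n3, h3⟩ := h3 θ hθ0 hθ3 K B cF G hK hB
  obtain ⟨n4, h4⟩ := h4 θ hθ0 hθ4 K B cF G hK hB
  obtain ⟨n5, h5⟩ := E2_up K B cF θ G hK hB
  obtain ⟨n6, h6⟩ := E3_up K B cF θ G hK hB
  obtain ⟨n7, h7⟩ := Ns_up K B cF θ G hK hB hθ0 hθ4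
  obtain ⟨n8, h8⟩ := main_low K B cF hK θ G
  obtain ⟨cv, hcv, n9, h9⟩ := vz_low
  obtain ⟨n10, h10⟩ := va_low K B
  obtain ⟨n11, h11⟩ := H59C.cdl_log (16 / (3 * κ) + 4 * g + 2)
  refine ⟨n1 + n2 + n3 + n4 + n5 + n6 + n7 + n8 + n9 + n10 + n11 + 3,
    fun N hN w H a p1 hp1 hR => ?_⟩
  obtain ⟨L, hL⟩ : ∃ L : ℝ, L = Real.log N := ⟨_, rfl⟩
  have hLb := h11 N (by omega)
  rw [← hL] at hLb
  have hk3 : 0 < 16 / (3 * κ) := by positivity
  have hL2 : 2 ≤ L := by linarith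
  have hL1 : 1 ≤ L := by linarith
  have hL0 : 0 < L := by linarith
  have hLk : 16 ≤ 3 * κ * L := by
    have h : 16 / (3 * κ) ≤ L := by linarith
    rw [div_le_iff₀ (by linarith)] at h
    linarith
  have hLg : 4 * (g : ℝ) ≤ L := by linarith
  have hN0 : (0 : ℝ) < N := by exact_mod_cast (by omega : 0 < N)
  have hp1' : C / p1 ≤ κ / 8 := by
    have a1 : 8 * C / κ ≤ p1 := by
      refine (Nat.le_ceil _).trans ?_
      exact_mod_cast (by omega : ⌈8 * C / κ⌉₊ ≤ p1)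
    have a2 : (0 : ℝ) < p1 := by exact_mod_cast hR.p1p.pos
    rw [div_le_iff₀ a2]
    rw [div_le_iff₀ hκ0] at a1
    linarith
  have hW2 : 2 ≤ w.W := by
    have := w.KW
    have h1 := w.Kpos
    nlinarith
  obtain ⟨hz1, hz2⟩ := h9 N (by omega) a w.W H hW2
  obtain ⟨Z, hZ⟩ : ∃ Z : ℝ, Z = Vz N w.W H a := ⟨_, rfl⟩
  obtain ⟨V, hV⟩ : ∃ V : ℝ, V = Va a w.W p1 H := ⟨_, rfl⟩
  have hZ0 : 0 ≤ Z := by
    rw [hZ]
    refine le_trans ?_ hz1
    rw [← hL]
    positivity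
  have hV0 : 0 ≤ V := by
    rw [hV]
    refine le_trans ?_ (h10 N (by omega) a w.W p1 H hR.Wdef hR.cardH hR.nf).1
    rw [← hL]
    positivity
  obtain ⟨q, hq⟩ : ∃ q : ℝ, q = (1 + w.n * w.c) ^ 2 := ⟨_, rfl⟩
  have hq0 : 0 ≤ q := by rw [hq]; positivity
  have hlogW : 0 ≤ Real.log w.W := Real.log_nonneg (by exact_mod_cast (by omega : 1 ≤ w.W))
  -- one `h`
  have hone : ∀ h ∈ H, N / L ^ 4 + κ / 4 * (9 / 2000 * (q * Real.log w.W) * (N * V * Z)) ≤
      S1s w H N a p1 h - 1 / 2 * S2s w H N a p1 h - 1 / 2 * S3s w H N a p1 h -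
      E1s w H N a p1 h - E2s w H N a p1 h - E3s w H N a p1 h := by
    intro h hh
    have b1 := h1 N (by omega) w H a p1 hR h hh
    have b2 := h2 N (by omega) w H a p1 hR h hh
    have b3 := h3 N (by omega) w H a p1 hR h hh
    have b4 := h4 N (by omega) w H a p1 hR h hh
    have b5 := h5 N (by omega) w H a p1 hR h hh
    have b6 := h6 N (by omega) w H a p1 hR h hh
    obtain ⟨b8, b9, b10, b11⟩ := h8 N (by omega) w H a p1 hR h hh
    rw [← hL] at b4 b5 b6 b8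
    rw [← hZ] at b1 b2 b3 b4 b8
    obtain ⟨X, hX⟩ : ∃ X : ℝ, X = Xh w H N a p1 h * Z := ⟨_, rfl⟩
    rw [← hX] at b1 b2 b3 b4 b8
    have hX0 : 0 ≤ X := by rw [hX]; exact mul_nonneg b9 hZ0
    have c1 : C / p1 * X ≤ κ / 8 * X := mul_le_mul_of_nonneg_right hp1' hX0
    have c2 : X * (AA * Real.log 3 / 4 - κ / 8) - 1 / 2 * (X * (AA / 4 * Real.log 6 + κ / 8)) -
        1 / 2 * (X * (AA / 4 * (3 / 8) + κ / 8)) = X * (κ - 2 * (κ / 8)) := by
      rw [hκ]
      ring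
    have c3 : 5 / 8 * κ * X - 3 * (N / L ^ 9) ≤
        S1s w H N a p1 h - 1 / 2 * S2s w H N a p1 h - 1 / 2 * S3s w H N a p1 h -
      E1s w H N a p1 h - E2s w H N a p1 h - E3s w H N a p1 h := by
      have e1 : X * (κ - 2 * (κ / 8)) = 5 / 8 * κ * X + κ / 8 * X := by ring
      linarith
    have c4 : 9 / 2000 * (q * Real.log w.W) * (N * V * Z) ≤ X := by
      rw [hX]
      have d1 : 9 / 2000 * (q * Real.log w.W) * (N * V) ≤ Xh w H N a p1 h := by
        unfold Xh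
        have d2 : 36 / 100 * q ≤ AE w.P H (some h) (FC w H) := by
          rw [hq]
          exact hR.aes h hh
        have d3 : Real.log w.W / 4 * V ≤ Vb a w.W p1 H := by
          rw [hV]
          rw [hV] at hV0
          exact (vb_ge a w.W p1 H hW2 hR.p1p hV0).1
        have d4 : 36 / 100 * q * (Real.log w.W / 4 * V) ≤
            AE w.P H (some h) (FC w H) * Vb a w.W p1 H :=
          mul_le_mul d2 d3 (by positivity) (le_trans (by positivity) d2)
        have d5 : (N : ℝ) / 20 * (36 / 100 * q * (Real.log w.W / 4 * V)) ≤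
            H59C.XX (Ya N + h) (Yb N + h) * (AE w.P H (some h) (FC w H) * Vb a w.W p1 H) :=
          mul_le_mul b10 d4 (by positivity) (le_trans (by positivity) b10)
        refine le_trans (le_of_eq ?_) d5
        ring
      calc 9 / 2000 * (q * Real.log w.W) * (N * V * Z) =
          (9 / 2000 * (q * Real.log w.W) * (N * V)) * Z := by ring
        _ ≤ Xh w H N a p1 h * Z := mul_le_mul_of_nonneg_right d1 hZ0
    have c5 : κ / 4 * (9 / 2000 * (q * Real.log w.W) * (N * V * Z)) ≤ κ / 4 * X :=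
      mul_le_mul_of_nonneg_left c4 (by linarith)
    have c6 : N / L ^ 4 + 3 * (N / L ^ 9) ≤ 3 / 8 * κ * X := by
      have d1 : 3 / 8 * κ * (N / L ^ 3) ≤ 3 / 8 * κ * X :=
        mul_le_mul_of_nonneg_left b8 (by positivity)
      have d2 : 2 * (N / L ^ 4) ≤ 3 / 8 * κ * (N / L ^ 3) := by
        have e1 : 3 / 8 * κ * (N / L ^ 3) = (3 / 8 * κ * L) * (N / L ^ 4) := by
          field_simp
        rw [e1]
        refine mul_le_mul_of_nonneg_right ?_ (by positivity)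
        linarith
      have d3 : 3 * (N / L ^ 9) ≤ N / L ^ 4 := by
        have e1 : 3 * (N / L ^ 9) = (3 / L ^ 5) * (N / L ^ 4) := by
          field_simp
        rw [e1]
        refine mul_le_of_le_one_left (by positivity) ?_
        rw [div_le_one (by positivity)]
        have e2 : (2 : ℝ) ^ 5 ≤ L ^ 5 := pow_le_pow_left₀ (by norm_num) hL2 5
        linarith
      linarith
    have c7 : 5 / 8 * κ * X = κ / 4 * X + 3 / 8 * κ * X := by ring
    linarith
  have hsum := Finset.sum_le_sum hone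
  rw [Finset.sum_const, hR.cardH, nsmul_eq_mul] at hsum
  have hNs := h7 N (by omega) w H a p1 hR
  rw [← hL, ← hZ, ← hV] at hNs
  obtain ⟨U, hU⟩ : ∃ U : ℝ, U = N / 8 * (V * Z * (AA / 3 + 1)) + N / L ^ 10 := ⟨_, rfl⟩
  rw [← hU] at hNs
  have hU0 : 0 ≤ U := by rw [hU]; positivity
  have hlog2 : Real.log (2 * N) ≤ 2 * L := by
    rw [Real.log_mul (by norm_num) hN0.ne', ← hL]
    have := Real.log_two_lt_d9
    linarith
  have hlog20 : 0 ≤ Real.log (2 * N) := by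
    rw [Real.log_mul (by norm_num) hN0.ne', ← hL]
    have := Real.log_two_gt_d9
    linarith
  have hneg : ((g : ℝ) - 1) * Real.log (2 * N) * Ns w H N a p1 ≤ ((g : ℝ) - 1) * (2 * L) * U := by
    have hg0 : 0 ≤ (g : ℝ) - 1 := by linarith
    calc ((g : ℝ) - 1) * Real.log (2 * N) * Ns w H N a p1 ≤ ((g : ℝ) - 1) * Real.log (2 * N) * U :=
          mul_le_mul_of_nonneg_left hNs (mul_nonneg hg0 hlog20)
      _ ≤ ((g : ℝ) - 1) * (2 * L) * U :=
          mul_le_mul_of_nonneg_right (mul_le_mul_of_nonneg_left hlog2 hg0) hU0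
  have hgain := hR.gain
  rw [← hL, ← hq] at hgain
  rw [← hL]
  refine fin_alg κ AA L N V Z (K * (9 / 2000 * (q * Real.log w.W) * (N * V * Z))) K G g U
    (Tt w H N a p1 g) hκ0 hL1 hLk hLg hL2 hN0 hV0 hZ0 hg1 hAA (by exact_mod_cast hK) hG ?_ ?_
    (le_of_eq hU)
  · unfold Tt
    have e1 : (K : ℝ) * (N / L ^ 4 + κ / 4 * (9 / 2000 * (q * Real.log w.W) * (N * V * Z))) =
        K * (N / L ^ 4) + κ / 4 * (K * (9 / 2000 * (q * Real.log w.W) * (N * V * Z))) := by ring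
    linarith
  · have e1 : (K : ℝ) * (9 / 2000 * (q * Real.log w.W) * (N * V * Z)) =
        9 / 2000 * (K * q * Real.log w.W) * (N * V * Z) := by ring
    rw [e1]
    refine mul_le_mul_of_nonneg_right ?_ (by positivity)
    linarith

/-- Proof. `T_ge`, `reg_exists`, `T_le`: `N/L^5 ≤ K log (2N) ∑_{Gd} FF`, Cauchy-Schwarz and `mom`: `(∑_{Gd} FF)^2 ≤ #Gd L^B N`; so
`#Gd ≥ N/(L^(10) K^2 (2L)^2 L^B) ≥ N/L^(B + 13)`. -/
theorem gd_card : ∃ C : ℝ, 0 < C ∧ ∀ g : ℕ, 1 ≤ g → ∃ K B n0 : ℕ, 1 ≤ K ∧ (K : ℝ) ≤ Real.exp (C * g) ∧ ∀ N : ℕ, n0 ≤ N → ∀ H : Finset ℕ, H.card = K → ∀ a : ℕ,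
    (∀ h ∈ H, 100 * h ≤ N) → 100 * a ≤ N → a ∉ H → (∀ h ∈ H, 2 ∣ a + h) →
    (∀ q : ℕ, q.Prime → (Rb a H q).card < q) → N / Real.log N ^ B ≤ ((Gd H N a g).card : ℝ) := by
  classical
  obtain ⟨θ, G1, hθ0, hθ1, hG10, K0, hT'⟩ := T_ge
  obtain ⟨C1, hC1, hreg0⟩ := reg_exists θ hθ0 hθ1
  refine ⟨9 * (C1 * (G1 + 1)), by positivity, fun g hg => ?_⟩
  have hT := hT' g hg
  have hg1 : (1 : ℝ) ≤ g := by exact_mod_cast hg
  obtain ⟨G, hGG⟩ : ∃ G : ℝ, G = g * G1 := ⟨_, rfl⟩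
  have hG0 : 0 < G := by
    rw [hGG]
    positivity
  rw [← hGG] at hT
  obtain ⟨m, hm, hmC, cF, B, hB, hreg⟩ := hreg0 G hG0
  obtain ⟨K, hKdef⟩ : ∃ K : ℕ, K = 4000 ^ m := ⟨_, rfl⟩
  have hK1 : 1 ≤ K := by rw [hKdef]; exact Nat.one_le_pow _ _ (by norm_num)
  rw [← hKdef] at hreg
  have hKexp : (K : ℝ) ≤ Real.exp (9 * (C1 * (G1 + 1)) * g) := by
    have a1 : (m : ℝ) ≤ C1 * (G1 + 1) * g := by
      refine hmC.trans ?_
      rw [hGG]
      have a2 : (g : ℝ) * G1 + 1 ≤ (G1 + 1) * g := by nlinarith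
      calc C1 * ((g : ℝ) * G1 + 1) ≤ C1 * ((G1 + 1) * g) := mul_le_mul_of_nonneg_left a2 hC1.le
        _ = C1 * (G1 + 1) * g := by ring
    have a3 : (4000 : ℝ) ≤ Real.exp 9 := by
      have a4 : (2.7 : ℝ) ≤ Real.exp 1 := by linarith [Real.exp_one_gt_d9]
      have a5 : Real.exp 9 = Real.exp 1 ^ 9 := by
        rw [← Real.exp_nat_mul]
        norm_num
      rw [a5]
      calc (4000 : ℝ) ≤ 2.7 ^ 9 := by norm_num
        _ ≤ Real.exp 1 ^ 9 := pow_le_pow_left₀ (by norm_num) a4 9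
    rw [hKdef]
    push_cast
    calc (4000 : ℝ) ^ m ≤ Real.exp 9 ^ m := pow_le_pow_left₀ (by norm_num) a3 m
      _ = Real.exp (m * 9) := by rw [← Real.exp_nat_mul]
      _ ≤ Real.exp (9 * (C1 * (G1 + 1)) * g) := Real.exp_le_exp.2 (by linarith)
  obtain ⟨n1, h1⟩ := hT K B cF hK1 hB
  obtain ⟨n2, h2⟩ := T_le K B cF θ G hK1 hB g hg
  obtain ⟨n3, h3⟩ := H59C.cdl_log (4 * (K : ℝ) ^ 2 + 2)
  obtain ⟨n4, h4⟩ := hreg K0
  refine ⟨K, B + 13, n1 + n2 + n3 + n4 + 3, hK1, hKexp, fun N hN H hH a hHN haN haH he hnf => ?_⟩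
  obtain ⟨w, p1, hp1, hR⟩ := h4 N (by omega) H hH a hHN haN haH he hnf
  have g1 := h1 N (by omega) w H a p1 hp1 hR
  have g2 := h2 N (by omega) w H a p1 hR
  have g3 := h3 N (by omega)
  obtain ⟨L, hL⟩ : ∃ L : ℝ, L = Real.log N := ⟨_, rfl⟩
  rw [← hL] at g1 g3 ⊢
  have hK1' : (1 : ℝ) ≤ K := by exact_mod_cast hK1
  have hL2 : 2 ≤ L := by nlinarith
  have hL0 : 0 < L := by linarith
  have hN0 : (0 : ℝ) < N := by exact_mod_cast (by omega : 0 < N)
  have hlog2 : Real.log (2 * N) ≤ 2 * L := by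
    rw [Real.log_mul (by norm_num) hN0.ne', ← hL]
    have := Real.log_two_lt_d9
    linarith
  obtain ⟨S, hS⟩ : ∃ S : ℝ, S = ∑ t ∈ Gd H N a g, FF w H none t := ⟨_, rfl⟩
  rw [← hS] at g2
  have hS0 : 0 ≤ S := by
    rw [hS]
    exact Finset.sum_nonneg fun t _ => E2_FF w H none t
  have g4 : N / L ^ 5 ≤ K * (2 * L) * S := by
    refine g1.trans (g2.trans ?_)
    exact mul_le_mul_of_nonneg_right (mul_le_mul_of_nonneg_left hlog2 (by linarith)) hS0
  have g5 : S ^ 2 ≤ ((Gd H N a g).card : ℝ) * (L ^ B * N) := by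
    have c1 := Finset.sum_mul_sq_le_sq_mul_sq (Gd H N a g) (fun _ => (1 : ℝ)) (fun t => FF w H none t)
    simp only [one_mul, one_pow, Finset.sum_const, nsmul_eq_mul, mul_one] at c1
    rw [← hS] at c1
    refine c1.trans (mul_le_mul_of_nonneg_left ?_ (Nat.cast_nonneg _))
    have c2 := hR.mom
    rw [← hL] at c2
    refine le_trans ?_ c2
    refine Finset.sum_le_sum_of_subset_of_nonneg ?_ fun t _ _ => sq_nonneg _
    intro t ht
    unfold Gd at ht
    rw [Finset.mem_filter, Finset.mem_Ioc] at ht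
    rw [Finset.mem_Icc]
    have h1 := ht.1.2
    unfold Yb at h1
    omega
  -- `N ≤ #Gd L^(B+13)`
  obtain ⟨c, hc⟩ : ∃ c : ℝ, c = ((Gd H N a g).card : ℝ) := ⟨_, rfl⟩
  rw [← hc] at g5 ⊢
  have hc0 : 0 ≤ c := by rw [hc]; exact Nat.cast_nonneg _
  have g6 : (N : ℝ) ≤ K * (2 * L ^ 6) * S := by
    rw [div_le_iff₀ (by positivity)] at g4
    calc (N : ℝ) ≤ K * (2 * L) * S * L ^ 5 := g4
      _ = K * (2 * L ^ 6) * S := by ring
  have g7 : (N : ℝ) ^ 2 ≤ (4 * K ^ 2 * L ^ 12) * (c * (L ^ B * N)) := by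
    calc (N : ℝ) ^ 2 ≤ (K * (2 * L ^ 6) * S) ^ 2 := pow_le_pow_left₀ hN0.le g6 2
      _ = (4 * K ^ 2 * L ^ 12) * S ^ 2 := by ring
      _ ≤ (4 * K ^ 2 * L ^ 12) * (c * (L ^ B * N)) := mul_le_mul_of_nonneg_left g5 (by positivity)
  have g8 : (N : ℝ) ≤ (4 * K ^ 2 * L ^ 12) * (c * L ^ B) := by
    have e1 : (4 * (K : ℝ) ^ 2 * L ^ 12) * (c * (L ^ B * N)) = ((4 * K ^ 2 * L ^ 12) * (c * L ^ B)) * N := by
      ring
    rw [e1, sq] at g7
    exact le_of_mul_le_mul_right g7 hN0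
  rw [div_le_iff₀ (by positivity)]
  calc (N : ℝ) ≤ (4 * K ^ 2 * L ^ 12) * (c * L ^ B) := g8
    _ ≤ (L * L ^ 12) * (c * L ^ B) := by
        refine mul_le_mul_of_nonneg_right ?_ (by positivity)
        refine mul_le_mul_of_nonneg_right ?_ (by positivity)
        linarith
    _ = c * L ^ (B + 13) := by ring

end Pool.Agent.Lib.H57T
end

-- from Lib.H57T.Main
section

/-!
# Project H57T: the final form of the theorem
-/

open Finset

namespace Pool.Agent.Lib.H57T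

open Pool.Agent.Lib.H57C

/-- If some residue class modulo `q` contains no element of `A` then the bad classes of `H ∪ {a} ⊆ A` are not all
classes. -/
theorem main_Rb (A H : Finset ℕ) (a : ℕ) (hs : H ⊆ A) (ha : a ∈ A) (q : ℕ) (hq : q.Prime)
    (hn : ∃ r : ZMod q, ∀ b ∈ A, (b : ZMod q) ≠ r) : (Rb a H q).card < q := by
  obtain ⟨r, hr⟩ := hn
  haveI : NeZero q := ⟨hq.ne_zero⟩
  set c : ℕ := (-r).val with hc
  have hcq : c < q := ZMod.val_lt _
  have hcr : (c : ZMod q) = -r := ZMod.natCast_zmod_val _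
  have key : ∀ b ∈ A, ¬ q ∣ c + b := by
    intro b hb hd
    have h1 : ((c + b : ℕ) : ZMod q) = 0 := (ZMod.natCast_eq_zero_iff _ _).2 hd
    rw [Nat.cast_add, hcr] at h1
    apply hr b hb
    linear_combination h1
  have hcn : c ∉ Rb a H q := by
    intro hmem
    unfold Rb at hmem
    rw [mem_filter] at hmem
    rcases hmem.2 with ⟨h, hh, hd⟩ | hd
    · exact key h (hs hh) hd
    · exact key a ha hd
  have hsub : Rb a H q ⊆ (range q).erase c := by
    intro y hy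
    rw [mem_erase]
    exact ⟨fun h => hcn (h ▸ hy), rb_sub hy⟩
  calc (Rb a H q).card ≤ ((range q).erase c).card := card_le_card hsub
    _ = q - 1 := by rw [card_erase_of_mem (mem_range.mpr hcq), card_range]
    _ < q := Nat.sub_lt hq.pos one_pos

theorem main_even (A : Finset ℕ) (a h : ℕ) (ha : a ∈ A) (hh : h ∈ A)
    (hn : ∃ r : ZMod 2, ∀ b ∈ A, (b : ZMod 2) ≠ r) : 2 ∣ a + h := by
  obtain ⟨r, hr⟩ := hn
  have h1 := hr a ha
  have h2 := hr h hh
  have h3 : ∀ x y r : ZMod 2, x ≠ r → y ≠ r → x + y = 0 := by decide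
  have h4 := h3 _ _ _ h1 h2
  rw [← Nat.cast_add] at h4
  exact (ZMod.natCast_eq_zero_iff _ _).1 h4

theorem main_log (B : ℕ) : ∃ x1 : ℝ, ∀ x : ℝ, x1 ≤ x → 1 ≤ x ∧ 1 ≤ Real.log x ∧
    2 ≤ Real.log x ∧ x / 2 ≤ (⌊x⌋₊ : ℝ) ∧ x ^ (1 / 11 : ℝ) ≤ (⌊x⌋₊ : ℝ) ^ (1 / 10 : ℝ) := by
  have h1 : ∀ᶠ x : ℝ in Filter.atTop, 2 ≤ Real.log x := Real.tendsto_log_atTop.eventually_ge_atTop 2
  have h2 : ∀ᶠ x : ℝ in Filter.atTop, (2 : ℝ) ≤ x ^ (1 / 110 : ℝ) :=
    (tendsto_rpow_atTop (by norm_num : (0 : ℝ) < 1 / 110)).eventually_ge_atTop 2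
  have h3 := (h1.and h2).and (Filter.eventually_ge_atTop (2 : ℝ))
  obtain ⟨x1, hx1⟩ := Filter.eventually_atTop.1 h3
  refine ⟨x1, fun x hx => ?_⟩
  obtain ⟨⟨a1, a2⟩, a3⟩ := hx1 x hx
  have h4 : x < (⌊x⌋₊ : ℝ) + 1 := Nat.lt_floor_add_one x
  have h5 : x / 2 ≤ (⌊x⌋₊ : ℝ) := by linarith
  refine ⟨by linarith, by linarith, a1, h5, ?_⟩
  have h6 : (x / 2) ^ (1 / 10 : ℝ) ≤ (⌊x⌋₊ : ℝ) ^ (1 / 10 : ℝ) :=
    Real.rpow_le_rpow (by linarith) h5 (by norm_num)
  refine le_trans ?_ h6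
  have h7 : (2 : ℝ) ^ (1 / 10 : ℝ) ≤ 2 := by
    calc (2 : ℝ) ^ (1 / 10 : ℝ) ≤ (2 : ℝ) ^ (1 : ℝ) :=
          Real.rpow_le_rpow_of_exponent_le (by norm_num) (by norm_num)
      _ = 2 := Real.rpow_one _
  have h8 : x ^ (1 / 10 : ℝ) = x ^ (1 / 11 : ℝ) * x ^ (1 / 110 : ℝ) := by
    rw [← Real.rpow_add (by linarith)]
    norm_num
  rw [Real.div_rpow (by linarith) (by norm_num), h8, le_div_iff₀ (by positivity)]
  exact mul_le_mul_of_nonneg_left (h7.trans a2) (by positivity)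

open Classical in
/-- **Chen-Maynard-Tao, uniformly in the shifts.** -/
theorem main : ∃ c : ℝ, 0 < c ∧ ∃ k0 : ℕ, ∀ k : ℕ, k0 ≤ k → ∃ (B : ℕ) (x0 : ℝ), ∀ x : ℝ, x0 ≤ x →
    ∀ A : Finset ℕ, k ≤ A.card →
    (∀ p : ℕ, p.Prime → ∃ r : ZMod p, ∀ b ∈ A, (b : ZMod p) ≠ r) →
    (∀ b ∈ A, (b : ℝ) ≤ x / 100) → ∀ a ∈ A,
      x / Real.log x ^ B ≤ ((((Icc 1 ⌊x⌋₊).filter (fun n =>
        ((∀ q : ℕ, q.Prime → q ∣ n + a → x ^ (1 / 11 : ℝ) ≤ q) ∧
          ((n + a).Prime ∨ ∃ r s : ℕ, r.Prime ∧ s.Prime ∧ n + a = r * s)) ∧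
        c * Real.log k ≤ (((A.erase a).filter (fun b => (n + b).Prime)).card : ℝ))).card : ℕ) : ℝ) := by
  classical
  obtain ⟨C, hC, hmain⟩ := gd_card
  refine ⟨1 / (2 * C), by positivity, ⌈Real.exp (2 * C + 2)⌉₊ + 2, fun k hk => ?_⟩
  have hk2 : (2 : ℝ) ≤ k := by exact_mod_cast (by omega : 2 ≤ k)
  have hke : Real.exp (2 * C + 2) ≤ k := by
    refine (Nat.le_ceil _).trans ?_
    exact_mod_cast (by omega : ⌈Real.exp (2 * C + 2)⌉₊ ≤ k)
  have hlk : 2 * C + 2 ≤ Real.log k := (Real.le_log_iff_exp_le (by linarith)).2 hke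
  have hlk1 : Real.log k - 1 ≤ Real.log ((k : ℝ) - 1) := by
    have h1 : (k : ℝ) / 2 ≤ (k : ℝ) - 1 := by linarith
    have h2 := Real.log_le_log (by linarith) h1
    rw [Real.log_div (by linarith) (by norm_num)] at h2
    linarith [Real.log_two_lt_d9]
  obtain ⟨g, hg⟩ : ∃ g : ℕ, g = ⌊Real.log ((k : ℝ) - 1) / C⌋₊ := ⟨_, rfl⟩
  have hq0 : 0 ≤ Real.log ((k : ℝ) - 1) / C := div_nonneg (by linarith) hC.le
  have hgle : (g : ℝ) ≤ Real.log ((k : ℝ) - 1) / C := by rw [hg]; exact Nat.floor_le hq0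
  have hggt : Real.log ((k : ℝ) - 1) / C < g + 1 := by rw [hg]; exact Nat.lt_floor_add_one _
  have hg1 : 1 ≤ g := by
    rw [hg]
    apply Nat.le_floor
    rw [Nat.cast_one, le_div_iff₀ hC]
    linarith
  have hgc : 1 / (2 * C) * Real.log k ≤ g := by
    have h1 : 1 / (2 * C) * Real.log k + 1 ≤ Real.log ((k : ℝ) - 1) / C := by
      rw [le_div_iff₀ hC]
      have h2 : (1 / (2 * C) * Real.log k + 1) * C = Real.log k / 2 + C := by
        field_simp
      rw [h2]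
      linarith
    linarith
  obtain ⟨K, B, n0, hK1, hKe, hgd⟩ := hmain g hg1
  have hKk : K ≤ k - 1 := by
    have h1 : Real.exp (C * g) ≤ (k : ℝ) - 1 := by
      rw [← Real.le_log_iff_exp_le (by linarith)]
      rw [le_div_iff₀ hC] at hgle
      linarith
    have h2 : (K : ℝ) ≤ ((k - 1 : ℕ) : ℝ) := by
      rw [Nat.cast_sub (by omega : 1 ≤ k), Nat.cast_one]
      linarith
    exact_mod_cast h2
  obtain ⟨x1, hx1⟩ := main_log B
  refine ⟨B + 1, max x1 (2 * n0 + 100), fun x hx A hA hadm hAx a ha => ?_⟩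
  obtain ⟨y1, y2, y3, y4, y5⟩ := hx1 x ((le_max_left _ _).trans hx)
  have hxn : (2 * n0 + 100 : ℝ) ≤ x := (le_max_right _ _).trans hx
  obtain ⟨N, hN⟩ : ∃ N : ℕ, N = ⌊x⌋₊ := ⟨_, rfl⟩
  rw [← hN] at y4 y5 ⊢
  have hNn0 : n0 ≤ N := by
    have h1 : (n0 : ℝ) ≤ N := by linarith
    exact_mod_cast h1
  have hN50 : 50 ≤ N := by
    have h1 : (50 : ℝ) ≤ N := by linarith [Nat.cast_nonneg (α := ℝ) n0]
    exact_mod_cast h1
  have hNx : (N : ℝ) ≤ x := by rw [hN]; exact Nat.floor_le (by linarith)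
  have hA100 : ∀ b ∈ A, 100 * b ≤ N := by
    intro b hb
    rw [hN]
    apply Nat.le_floor
    push_cast
    have := hAx b hb
    linarith
  have hcard : K ≤ (A.erase a).card := by
    rw [card_erase_of_mem ha]
    omega
  obtain ⟨H, hHs, hHc⟩ := exists_subset_card_eq hcard
  have hHA : H ⊆ A := hHs.trans (erase_subset _ _)
  have haH : a ∉ H := fun h => (mem_erase.1 (hHs h)).1 rfl
  have h1 := hgd N hNn0 H hHc a (fun h hh => hA100 h (hHA hh)) (hA100 a ha) haH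
    (fun h hh => main_even A a h ha (hHA hh) (hadm 2 Nat.prime_two))
    (fun q hq => main_Rb A H a hHA ha q hq (hadm q hq))
  have hsub : Gd H N a g ⊆ (Icc 1 N).filter (fun n =>
        ((∀ q : ℕ, q.Prime → q ∣ n + a → x ^ (1 / 11 : ℝ) ≤ q) ∧
          ((n + a).Prime ∨ ∃ r s : ℕ, r.Prime ∧ s.Prime ∧ n + a = r * s)) ∧
        1 / (2 * C) * Real.log k ≤ (((A.erase a).filter (fun b => (n + b).Prime)).card : ℝ)) := by
    intro t ht
    unfold Gd at ht
    rw [mem_filter, mem_Ioc] at ht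
    obtain ⟨⟨ht1, ht2⟩, ht3, ht4, ht5⟩ := ht
    rw [mem_filter, mem_Icc]
    refine ⟨⟨by omega, ?_⟩, ⟨fun q hq hd => y5.trans (ht4 q hq hd), ht5⟩, ?_⟩
    · unfold Yb at ht2
      omega
    · have h2 : g ≤ ((A.erase a).filter (fun b => (t + b).Prime)).card :=
        ht3.trans (card_le_card (filter_subset_filter _ hHs))
      have h3 : (g : ℝ) ≤ (((A.erase a).filter (fun b => (t + b).Prime)).card : ℝ) := by
        exact_mod_cast h2
      linarith
  have h2 : x / Real.log x ^ (B + 1) ≤ N / Real.log N ^ B := by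
    have hN1 : (1 : ℝ) < N := by
      have : (50 : ℝ) ≤ N := by exact_mod_cast hN50
      linarith
    have hlN : 0 < Real.log N := Real.log_pos hN1
    have hlNx : Real.log N ≤ Real.log x := Real.log_le_log (by linarith) hNx
    have h3 : Real.log N ^ B ≤ Real.log x ^ B := pow_le_pow_left₀ hlN.le hlNx B
    have h4 : 0 < Real.log N ^ B := by positivity
    calc x / Real.log x ^ (B + 1) = (x / Real.log x) / Real.log x ^ B := by
          rw [pow_succ, div_div, mul_comm]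
      _ ≤ N / Real.log x ^ B := by
          refine div_le_div_of_nonneg_right ?_ (by positivity)
          refine le_trans ?_ y4
          exact div_le_div_of_nonneg_left (by linarith) (by norm_num) y3
      _ ≤ N / Real.log N ^ B := div_le_div_of_nonneg_left (by linarith) h4 h3
  refine h2.trans (h1.trans ?_)
  exact_mod_cast card_le_card hsub

end Pool.Agent.Lib.H57T
end

-- from Lib.H18P.P1
section

/-!
# Project H18P (MP_443e5f_co): the jump between scales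

For all large `n` and `m0 ≤ m ≤ n / 1000` a positive proportion of the `X ≤ m` have at least
`n / (log n) ^ B` neighbours in `[1, n]` (halved Goldbach graph: `X ~ Y` iff `X + Y` and `|X - Y|` are odd primes).
This is a consequence of the uniform Maynard-Tao theorem `H57T.main`: every `k`-tuple of multiples of
`2 k!` contains two elements whose difference `2 X` is of this kind.
-/

open Finset Pool.Agent.Lib.GoldbachGraph

namespace Pool.Agent.Lib.H18P

/-- A greedy choice of `k` numbers without differences in `D`. -/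
theorem greedy (D : Finset ℕ) (J : ℕ) : ∀ k : ℕ, k * (2 * D.card + 1) ≤ J + 1 →
    ∃ S : Finset ℕ, S ⊆ range (J + 1) ∧ S.card = k ∧ ∀ i ∈ S, ∀ j ∈ S, i < j → j - i ∉ D := by
  classical
  intro k
  induction k with
  | zero => exact fun _ => ⟨∅, by simp, by simp, by simp⟩
  | succ k ih =>
    intro h
    obtain ⟨S, hS1, hS2, hS3⟩ := ih (by nlinarith)
    set F : Finset ℕ := S ∪ (S.biUnion fun i => D.image fun d => i + d) ∪ (S.biUnion fun i => D.image fun d => i - d)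
      with hF
    have hFc : F.card ≤ k * (2 * D.card + 1) := by
      have h1 : (S.biUnion fun i => D.image fun d => i + d).card ≤ k * D.card := by
        rw [← hS2]
        exact card_biUnion_le_card_mul _ _ _ fun i _ => card_image_le
      have h2 : (S.biUnion fun i => D.image fun d => i - d).card ≤ k * D.card := by
        rw [← hS2]
        exact card_biUnion_le_card_mul _ _ _ fun i _ => card_image_le
      have h3 := card_union_le (S ∪ (S.biUnion fun i => D.image fun d => i + d)) (S.biUnion fun i => D.image fun d => i - d)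
      have h4 := card_union_le S (S.biUnion fun i => D.image fun d => i + d)
      rw [hF]
      nlinarith
    have hlt : F.card < (range (J + 1)).card := by
      rw [card_range]
      nlinarith
    obtain ⟨j, hj1, hj2⟩ := exists_mem_notMem_of_card_lt_card hlt
    simp only [hF, mem_union, mem_biUnion, mem_image, not_or, not_exists, not_and] at hj2
    obtain ⟨⟨hj3, hj4⟩, hj5⟩ := hj2
    refine ⟨insert j S, ?_, ?_, ?_⟩
    · intro i hi
      rw [mem_insert] at hi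
      rcases hi with rfl | hi
      · exact hj1
      · exact hS1 hi
    · rw [card_insert_of_notMem hj3, hS2]
    · intro a ha b hb hab
      rw [mem_insert] at ha hb
      rcases ha with rfl | ha
      · rcases hb with rfl | hb
        · exact absurd hab (lt_irrefl _)
        · intro hd
          exact hj5 b hb _ hd (by omega)
      · rcases hb with rfl | hb
        · intro hd
          exact hj4 a ha _ hd (by omega)
        · exact hS3 a ha b hb hab

/-- A `k`-tuple of multiples of `2 k!` is admissible. -/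
theorem adm (k : ℕ) (A : Finset ℕ) (hk : A.card = k) (hA : ∀ b ∈ A, 2 * k.factorial ∣ b) (p : ℕ) (hp : p.Prime) :
    ∃ r : ZMod p, ∀ b ∈ A, (b : ZMod p) ≠ r := by
  classical
  haveI : Fact p.Prime := ⟨hp⟩
  by_cases h : p ≤ k
  · refine ⟨1, fun b hb h1 => ?_⟩
    have h2 : p ∣ b := ((hp.dvd_factorial.2 h).trans (dvd_mul_left _ _)).trans (hA b hb)
    rw [(ZMod.natCast_eq_zero_iff _ _).2 h2] at h1
    exact zero_ne_one h1
  · by_contra hc
    push Not at hc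
    have h1 : (univ : Finset (ZMod p)) ⊆ A.image (fun b : ℕ => (b : ZMod p)) := by
      intro r _
      obtain ⟨b, hb, hr⟩ := hc r
      exact mem_image.2 ⟨b, hb, hr⟩
    have h2 := card_le_card h1
    rw [card_univ, ZMod.card] at h2
    have h3 : (A.image (fun b : ℕ => (b : ZMod p))).card ≤ A.card := card_image_le
    omega

/-- Prime pairs give neighbours. -/
theorem pair_deg (n m b b' N : ℕ) (hb : b ≤ 2 * m) (hb' : b' ≤ 2 * m) (hbb : b < b') (he : Even (b' - b))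
    (hN : 2 * N ≤ n) (hm : 6 * m ≤ n) :
    ((Icc 1 N).filter (fun t => (t + b).Prime ∧ (t + b').Prime)).card ≤ hdeg n ((b' - b) / 2) + 2 := by
  classical
  obtain ⟨X, hX⟩ := he
  have hX' : (b' - b) / 2 = X := by omega
  rw [hX']
  have h1 : ((Icc 1 N).filter (fun t => (t + b).Prime ∧ (t + b').Prime)).card ≤
      (((Icc 3 N).filter (fun t => (t + b).Prime ∧ (t + b').Prime)) ∪ {1, 2}).card := by
    apply card_le_card
    intro t ht
    rw [mem_filter, mem_Icc] at ht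
    rw [mem_union, mem_filter, mem_Icc, mem_insert, mem_singleton]
    by_cases h : t ≤ 2
    · right
      omega
    · left
      exact ⟨⟨by omega, ht.1.2⟩, ht.2⟩
  refine h1.trans ((card_union_le _ _).trans (Nat.add_le_add ?_ Finset.card_le_two))
  unfold hdeg
  refine card_le_card_of_injOn (fun t => X + (t + b)) ?_ ?_
  · intro t ht
    rw [mem_coe, mem_filter, mem_Icc] at ht
    obtain ⟨⟨ht1, ht2⟩, ht3, ht4⟩ := ht
    have hXm : X + X ≤ 2 * m := by omega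
    have hmem : X + (t + b) ∈ Icc 1 n := by
      rw [mem_Icc]
      constructor <;> omega
    show X + (t + b) ∈ ((Icc 1 n).filter _ : Finset ℕ)
    rw [mem_filter]
    refine ⟨hmem, ?_, ?_, ?_, ?_⟩
    · have : X + (X + (t + b)) = t + b' := by omega
      rw [this]
      exact ht4
    · have : X + (X + (t + b)) = t + b' := by omega
      rw [this]
      exact ht4.odd_of_ne_two (by omega)
    · have : Nat.dist X (X + (t + b)) = t + b := by unfold Nat.dist; omega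
      rw [this]
      exact ht3
    · have : Nat.dist X (X + (t + b)) = t + b := by unfold Nat.dist; omega
      rw [this]
      exact ht3.odd_of_ne_two (by omega)
  · intro t _ t' _ h
    simp only at h
    omega

/-- One of the differences of a tuple is good. -/
theorem tuple (k N : ℕ) (A : Finset ℕ) (hAk : A.card ≤ k) (T : Finset ℕ)
    (hT : ∀ t ∈ T, t ∈ Icc 1 N ∧ 2 ≤ (A.filter (fun b => (t + b).Prime)).card) :
    ∃ b b', (T.card = 0 ∨ (b ∈ A ∧ b' ∈ A ∧ b < b')) ∧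
      T.card ≤ k ^ 2 * ((Icc 1 N).filter (fun t => (t + b).Prime ∧ (t + b').Prime)).card := by
  classical
  set PP := (A ×ˢ A).filter (fun q => q.1 < q.2) with hPP
  have h1 : T ⊆ PP.biUnion (fun q => (Icc 1 N).filter (fun t => (t + q.1).Prime ∧ (t + q.2).Prime)) := by
    intro t ht
    obtain ⟨h2, h3⟩ := hT t ht
    obtain ⟨x, hx, y, hy, hxy⟩ := one_lt_card.1 (show 1 < _ by omega : 1 < (A.filter (fun b => (t + b).Prime)).card)
    rw [mem_filter] at hx hy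
    rw [mem_biUnion]
    rcases lt_or_gt_of_ne hxy with h | h
    · exact ⟨(x, y), by rw [hPP, mem_filter, mem_product]; exact ⟨⟨hx.1, hy.1⟩, h⟩,
        by rw [mem_filter]; exact ⟨h2, hx.2, hy.2⟩⟩
    · exact ⟨(y, x), by rw [hPP, mem_filter, mem_product]; exact ⟨⟨hy.1, hx.1⟩, h⟩,
        by rw [mem_filter]; exact ⟨h2, hy.2, hx.2⟩⟩
  rcases PP.eq_empty_or_nonempty with he | hne
  · rw [he, biUnion_empty, subset_empty] at h1
    exact ⟨0, 0, Or.inl (by rw [h1, card_empty]), by rw [h1]; simp⟩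
  · obtain ⟨q, hq, hmax⟩ := exists_max_image PP
      (fun q => ((Icc 1 N).filter (fun t => (t + q.1).Prime ∧ (t + q.2).Prime)).card) hne
    have hq' := hq
    rw [hPP, mem_filter, mem_product] at hq'
    refine ⟨q.1, q.2, Or.inr ⟨hq'.1.1, hq'.1.2, hq'.2⟩, ?_⟩
    have h2 := (card_le_card h1).trans (card_biUnion_le_card_mul _ _ _ hmax)
    refine h2.trans (Nat.mul_le_mul_right _ ?_)
    calc PP.card ≤ (A ×ˢ A).card := card_filter_le _ _
      _ = A.card * A.card := card_product _ _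
      _ ≤ k * k := Nat.mul_le_mul hAk hAk
      _ = k ^ 2 := by ring

/-- **The jump.** -/
theorem jump : ∃ c : ℝ, 0 < c ∧ ∃ B m0 n0 : ℕ, ∀ n : ℕ, n0 ≤ n → ∀ m : ℕ, m0 ≤ m → 1000 * m ≤ n →
    c * m ≤ (((Icc 1 m).filter (fun X => (n : ℝ) / (Real.log n) ^ B ≤ hdeg n X)).card : ℝ) := by
  classical
  obtain ⟨c1, hc1, k0, hmain⟩ := Pool.Agent.Lib.H57T.main
  set k : ℕ := max (max k0 2) ⌈Real.exp (2 / c1)⌉₊ with hk
  have hk0 : k0 ≤ k := (le_max_left _ _).trans (le_max_left _ _)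
  have hk2 : 2 ≤ k := (le_max_right _ _).trans (le_max_left _ _)
  have hke : Real.exp (2 / c1) ≤ k := (Nat.le_ceil _).trans (by exact_mod_cast le_max_right _ _)
  have hlk : 2 ≤ c1 * Real.log k := by
    have h1 : 2 / c1 ≤ Real.log k := by
      rw [Real.le_log_iff_exp_le (by exact_mod_cast (by omega : 0 < k))]
      exact hke
    rw [div_le_iff₀ hc1] at h1
    linarith
  obtain ⟨B1, x0, hB1⟩ := hmain k hk0
  set W := k.factorial with hW
  have hWpos : 0 < W := Nat.factorial_pos k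
  have hkR : (2 : ℝ) ≤ k := by exact_mod_cast hk2
  have hWR : (1 : ℝ) ≤ W := by exact_mod_cast hWpos
  -- large n
  have hev : ∀ᶠ y : ℝ in Filter.atTop, max x0 3 ≤ y / 2 ∧ 4 * (k : ℝ) ^ 2 ≤ Real.log y ∧
      8 * (Real.log y) ^ (B1 + 1) ≤ y := by
    have h3 : Filter.Tendsto (fun y : ℝ => 8 * (Real.log y) ^ (B1 + 1) / y) Filter.atTop (nhds 0) := by
      have h4 : Filter.Tendsto (fun y : ℝ => (Real.log y) ^ (B1 + 1) / y) Filter.atTop (nhds 0) := by
        have h5 := (Real.isLittleO_pow_log_id_atTop (n := B1 + 1)).tendsto_div_nhds_zero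
        simpa using h5
      have h6 := h4.const_mul 8
      rw [mul_zero] at h6
      refine h6.congr fun y => ?_
      ring
    have h4 : ∀ᶠ y : ℝ in Filter.atTop, 8 * (Real.log y) ^ (B1 + 1) / y < 1 := h3.eventually (gt_mem_nhds one_pos)
    filter_upwards [Filter.eventually_ge_atTop (2 * max x0 3), Real.tendsto_log_atTop.eventually_ge_atTop (4 * (k : ℝ) ^ 2),
      h4, Filter.eventually_gt_atTop 0] with y h5 h6 h7 h8
    rw [div_lt_one h8] at h7
    exact ⟨by linarith, h6, h7.le⟩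
  obtain ⟨n0, hn0⟩ := Filter.eventually_atTop.1 (tendsto_natCast_atTop_atTop.eventually hev)
  refine ⟨1 / (8 * k * W), by positivity, B1 + 1, 4 * k * W, n0, fun n hn m hm hmn => ?_⟩
  obtain ⟨hx, hlog, hpow⟩ := hn0 n hn
  set J := m / W with hJ
  set D := (Icc 1 J).filter (fun d => (n : ℝ) / (Real.log n) ^ (B1 + 1) ≤ hdeg n (W * d)) with hD
  have hJW : J * W ≤ m := Nat.div_mul_le_self m W
  -- the main step: there is no tuple without good differences
  have hkey : J + 1 < k * (2 * D.card + 1) := by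
    by_contra hcon
    push Not at hcon
    obtain ⟨S, hS1, hS2, hS3⟩ := greedy D J k hcon
    set A := S.image (fun j => 2 * W * j) with hA
    have hinj : Function.Injective (fun j : ℕ => 2 * W * j) := fun a b h => by
      have h' : 2 * W * a = 2 * W * b := h
      exact Nat.eq_of_mul_eq_mul_left (by positivity) h'
    have hAc : A.card = k := by rw [hA, card_image_of_injective _ hinj, hS2]
    have hAm : ∀ b ∈ A, b ≤ 2 * m := by
      intro b hb
      rw [hA, mem_image] at hb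
      obtain ⟨j, hj, rfl⟩ := hb
      have h1 := mem_range.1 (hS1 hj)
      have h2 : W * j ≤ m := by
        calc W * j ≤ W * J := Nat.mul_le_mul_left _ (by omega)
          _ = J * W := by ring
          _ ≤ m := hJW
      calc 2 * W * j = 2 * (W * j) := by ring
        _ ≤ 2 * m := by omega
    have hne : A.Nonempty := by
      rw [← card_pos, hAc]; omega
    obtain ⟨a, ha⟩ := hne
    have hxn : x0 ≤ (n : ℝ) / 2 := (le_max_left _ _).trans hx
    have hx3 : (3 : ℝ) ≤ (n : ℝ) / 2 := (le_max_right _ _).trans hx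
    have hmnR : (1000 : ℝ) * m ≤ n := by exact_mod_cast hmn
    have hres := hB1 ((n : ℝ) / 2) hxn A hAc.ge (fun p hp => adm k A hAc (fun b hb => by
      rw [hA, mem_image] at hb
      obtain ⟨j, hj, rfl⟩ := hb
      exact dvd_mul_right _ _) p hp) (fun b hb => by
      have h1 : (b : ℝ) ≤ 2 * m := by exact_mod_cast hAm b hb
      linarith) a ha
    set N := ⌊(n : ℝ) / 2⌋₊ with hN
    have h2N : 2 * N ≤ n := by
      have h1 : (N : ℝ) ≤ (n : ℝ) / 2 := Nat.floor_le (by positivity)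
      have h2 : ((2 * N : ℕ) : ℝ) ≤ n := by push_cast; linarith
      exact_mod_cast h2
    set T := (Icc 1 N).filter (fun t =>
        ((∀ q : ℕ, q.Prime → q ∣ t + a → ((n : ℝ) / 2) ^ (1 / 11 : ℝ) ≤ q) ∧
          ((t + a).Prime ∨ ∃ r s : ℕ, r.Prime ∧ s.Prime ∧ t + a = r * s)) ∧
        c1 * Real.log k ≤ (((A.erase a).filter (fun b => (t + b).Prime)).card : ℝ)) with hT
    have hT2 : ∀ t ∈ T, t ∈ Icc 1 N ∧ 2 ≤ (A.filter (fun b => (t + b).Prime)).card := by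
      intro t ht
      rw [hT, mem_filter] at ht
      refine ⟨ht.1, ?_⟩
      have h1 : (2 : ℝ) ≤ (((A.erase a).filter (fun b => (t + b).Prime)).card : ℝ) := hlk.trans ht.2.2
      have h2 : 2 ≤ ((A.erase a).filter (fun b => (t + b).Prime)).card := by exact_mod_cast h1
      exact h2.trans (card_le_card (filter_subset_filter _ (erase_subset _ _)))
    obtain ⟨b, b', hbb, hcard⟩ := tuple k N A hAc.le T hT2
    -- sizes
    have hlogn : 0 < Real.log n := by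
      have : (0 : ℝ) < 4 * (k : ℝ) ^ 2 := by positivity
      linarith
    have hln2 : Real.log ((n : ℝ) / 2) ≤ Real.log n := Real.log_le_log (by linarith) (by linarith)
    have hln0 : 0 < Real.log ((n : ℝ) / 2) := Real.log_pos (by linarith)
    have hTcard : (n : ℝ) / 2 / (Real.log n) ^ B1 ≤ T.card := by
      refine le_trans ?_ hres
      apply div_le_div_of_nonneg_left (by linarith) (by positivity)
      exact pow_le_pow_left₀ hln0.le hln2 _
    have hTpos : T.card ≠ 0 := by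
      intro h0
      rw [h0] at hTcard
      have : 0 < (n : ℝ) / 2 / (Real.log n) ^ B1 := by
        have : (0 : ℝ) < (n : ℝ) / 2 := by linarith
        positivity
      simp at hTcard
      linarith
    obtain ⟨hbA, hbA', hlt⟩ := hbb.resolve_left hTpos
    rw [hA, mem_image] at hbA hbA'
    obtain ⟨i, hi, hib⟩ := hbA
    obtain ⟨j, hj, hjb⟩ := hbA'
    have hij : i < j := by
      rw [← hib, ← hjb] at hlt
      exact lt_of_mul_lt_mul_left hlt (Nat.zero_le _)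
    have hdiff : b' - b = 2 * (W * (j - i)) := by
      rw [← hib, ← hjb, ← Nat.mul_sub]
      ring
    have hX : (b' - b) / 2 = W * (j - i) := by rw [hdiff]; exact Nat.mul_div_cancel_left _ two_pos
    have hbm : b ≤ 2 * m := hAm b (by rw [hA, mem_image]; exact ⟨i, hi, hib⟩)
    have hbm' : b' ≤ 2 * m := hAm b' (by rw [hA, mem_image]; exact ⟨j, hj, hjb⟩)
    have hpd := pair_deg n m b b' N hbm hbm' hlt (by rw [hdiff]; exact even_two_mul _) h2N (by omega)
    rw [hX] at hpd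
    have hfin : (T.card : ℝ) ≤ (k : ℝ) ^ 2 * (hdeg n (W * (j - i)) + 2) := by
      have h1 : T.card ≤ k ^ 2 * (hdeg n (W * (j - i)) + 2) := hcard.trans (Nat.mul_le_mul_left _ hpd)
      exact_mod_cast h1
    have hgood : (n : ℝ) / (Real.log n) ^ (B1 + 1) ≤ hdeg n (W * (j - i)) := by
      have h1 : (n : ℝ) / 2 / (Real.log n) ^ B1 ≤ (k : ℝ) ^ 2 * (hdeg n (W * (j - i)) + 2) := hTcard.trans hfin
      set L := Real.log n with hL
      set z := (n : ℝ) / L ^ (B1 + 1) with hz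
      have h2 : (n : ℝ) / 2 / L ^ B1 = z * L / 2 := by
        rw [hz, pow_succ]
        field_simp
      have h3 : 8 ≤ z := by
        rw [hz, le_div_iff₀ (by positivity)]
        exact hpow
      rw [h2] at h1
      have h4 : z * (4 * (k : ℝ) ^ 2) ≤ z * L := mul_le_mul_of_nonneg_left hlog (by linarith)
      have h5 : (k : ℝ) ^ 2 * (2 * z) ≤ (k : ℝ) ^ 2 * (hdeg n (W * (j - i)) + 2) := by nlinarith
      have h6 : 2 * z ≤ hdeg n (W * (j - i)) + 2 := le_of_mul_le_mul_left h5 (by positivity)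
      linarith
    apply hS3 i hi j hj hij
    rw [hD, mem_filter, mem_Icc]
    have hjJ := mem_range.1 (hS1 hj)
    exact ⟨⟨by omega, by omega⟩, hgood⟩
  -- counting
  have hDle : D.card ≤ ((Icc 1 m).filter (fun X => (n : ℝ) / (Real.log n) ^ (B1 + 1) ≤ hdeg n X)).card := by
    refine card_le_card_of_injOn (fun d => W * d) ?_ ?_
    · intro d hd
      rw [mem_coe, hD, mem_filter, mem_Icc] at hd
      rw [mem_coe, mem_filter, mem_Icc]
      refine ⟨⟨Nat.mul_pos hWpos hd.1.1, ?_⟩, hd.2⟩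
      calc W * d ≤ W * J := Nat.mul_le_mul_left _ hd.1.2
        _ = J * W := by ring
        _ ≤ m := hJW
    · intro a _ b _ h
      exact Nat.eq_of_mul_eq_mul_left hWpos h
  have hmJ : m < (J + 1) * W := by
    rw [hJ]
    exact Nat.lt_mul_of_div_lt (Nat.lt_succ_self _) hWpos
  have h1 : ((J : ℝ) + 1) ≤ k * (2 * D.card + 1) := by exact_mod_cast hkey.le
  have h2 : (m : ℝ) ≤ (J + 1) * W := by exact_mod_cast hmJ.le
  have h3 : (4 : ℝ) * k * W ≤ m := by exact_mod_cast hm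
  have h4 : (D.card : ℝ) ≤ (((Icc 1 m).filter (fun X => (n : ℝ) / (Real.log n) ^ (B1 + 1) ≤ hdeg n X)).card : ℝ) := by
    exact_mod_cast hDle
  refine le_trans ?_ h4
  have h5 : (m : ℝ) ≤ k * (2 * D.card + 1) * W := h2.trans (mul_le_mul_of_nonneg_right h1 (by linarith))
  rw [one_div, inv_mul_le_iff₀ (by positivity)]
  nlinarith

end Pool.Agent.Lib.H18P
end

-- from Lib.H18R.GL
section

/-!
# Project H18R (MP_443e5f_co): two vertices which are rich at two scales are at distance at most 13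

Let `m ≤ m'` be scales, `u` a vertex with at least `m ^ (1 - b)` neighbours in `G m`, `v` a vertex with at least
`m' ^ (1 - b)` neighbours in `G m'`. If `1000 m ≤ m'`, the Maynard-Tao theorem (`H18P.jump`) gives a vertex `X` which is
generic at the scale `m` and has at least `m' / (log m') ^ B` neighbours at the scale `m'`. By project T (`Fin5`) `u` is
at distance at most `1 + 5` from `X` in `G m`, and `X` and `v` are at distance at most `7` in `G m'`.
-/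

open Finset

namespace Pool.Agent.Lib.H18R

open Pool.Agent.Goldbach Pool.Agent.Lib.H96G
open Pool.Agent.Lib.GoldbachGraph (hadj hdeg)
open Pool.Agent.Lib.H96G.Tr (finite_of_le deg_le le_deg)

/-- Larger graphs have smaller distances. -/
theorem gl_lift {V V' S S' : Set ℕ} (hV : V ⊆ V') (hS : S ⊆ S') (a b : V) :
    (halfGraph V' S').edist ⟨a, hV a.2⟩ ⟨b, hV b.2⟩ ≤ (halfGraph V S).edist a b := by
  let f : halfGraph V S →g halfGraph V' S' :=
    { toFun := fun a => ⟨a, hV a.2⟩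
      map_rel' := by
        rintro a b ⟨h1, h2, h3⟩
        refine ⟨fun h => h1 (Subtype.ext ?_), hS h2, hS h3⟩
        exact congrArg (fun x : V' => (x : ℕ)) h }
  refine le_iInf fun w => ?_
  have h := SimpleGraph.edist_le (w.map f)
  rw [SimpleGraph.Walk.length_map] at h
  exact h

/-- The family of graphs. -/
structure Fam (V S : ℕ → Set ℕ) : Prop where
  hV : ∀ n, ∀ a ∈ V n, Even a ∧ a ≤ 2 * n
  hV2 : ∀ n, ∀ x ∈ Finset.Icc 1 n, 2 * x ∈ V n
  hS : ∀ n m, m.Prime → Odd m → m < 2 * n → m ∈ S n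
  hS' : ∀ n, ∀ m ∈ S n, m = 1 ∨ (m.Prime ∧ Odd m)
  mV : ∀ m n, m ≤ n → V m ⊆ V n
  mS : ∀ m n, m ≤ n → S m ⊆ S n

theorem fam_gold : Fam goldbachVertices (fun n => {p | p.Prime ∧ Odd p ∧ p < 2 * n}) where
  hV := fun n a ha => ha
  hV2 := fun n x hx => by
    rw [Finset.mem_Icc] at hx
    exact ⟨even_two_mul x, by omega⟩
  hS := fun n m h1 h2 h3 => ⟨h1, h2, h3⟩
  hS' := fun n m hm => Or.inr ⟨hm.1, hm.2.1⟩
  mV := fun m n h a ha => ⟨ha.1, ha.2.trans (by omega)⟩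
  mS := fun m n h a ha => ⟨ha.1, ha.2.1, lt_of_lt_of_le ha.2.2 (by omega)⟩

theorem fam_near : Fam evenVertices (fun n => {1} ∪ {p | p.Prime ∧ Odd p ∧ p < 2 * n}) where
  hV := fun n a ha => ⟨ha.1, ha.2.2⟩
  hV2 := fun n x hx => by
    rw [Finset.mem_Icc] at hx
    exact ⟨even_two_mul x, by omega, by omega⟩
  hS := fun n m h1 h2 h3 => Or.inr ⟨h1, h2, h3⟩
  hS' := fun n m hm => by
    rcases hm with hm | hm
    · exact Or.inl hm
    · exact Or.inr ⟨hm.1, hm.2.1⟩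
  mV := fun m n h a ha => ⟨ha.1, ha.2.1, ha.2.2.trans (by omega)⟩
  mS := fun m n h a ha => by
    rcases ha with ha | ha
    · exact Or.inl ha
    · exact Or.inr ⟨ha.1, ha.2.1, lt_of_lt_of_le ha.2.2 (by omega)⟩

/-- The conclusion of project T at the scale `m`, with a fixed exponent `d`. -/
def PT (V : Set ℕ) (G : SimpleGraph V) (d : ℝ) (m : ℕ) : Prop :=
  (∃ Γ : Set V, (Γᶜ.ncard : ℝ) ≤ (m : ℝ) ^ (1 - d) ∧ ∀ a ∈ Γ, ∀ b ∈ Γ, G.edist a b ≤ 5) ∧
  ∀ a b : V, (m : ℝ) ^ (1 - 2 * d) ≤ ((G.neighborSet a).ncard : ℝ) →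
    (m : ℝ) ^ (1 - 2 * d) ≤ ((G.neighborSet b).ncard : ℝ) → G.edist a b ≤ 7

theorem gl_PT {V : Set ℕ} {G : SimpleGraph V} {d δ : ℝ} {m : ℕ} (hm : 1 ≤ m) (hd : d ≤ δ)
    (h : Fin5 m δ G) : PT V G d m := by
  obtain ⟨⟨Γ, h1, -, h3⟩, h4⟩ := h
  have hm1 : (1 : ℝ) ≤ m := by exact_mod_cast hm
  refine ⟨⟨Γ, h1.trans (Real.rpow_le_rpow_of_exponent_le hm1 (by linarith)), fun a ha b hb => (h3 a ha b hb).1⟩,
    fun a b ha hb => (h4 a b ?_ ?_).1⟩
  · exact (Real.rpow_le_rpow_of_exponent_le hm1 (by linarith)).trans ha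
  · exact (Real.rpow_le_rpow_of_exponent_le hm1 (by linarith)).trans hb

/-- A large set meets the generic set. -/
theorem gl_meet {V : Set ℕ} (hV : V.Finite) {Γ A : Set V} {t : ℝ} (h1 : (Γᶜ.ncard : ℝ) ≤ t)
    (h2 : t < (A.ncard : ℝ)) : ∃ x ∈ A, x ∈ Γ := by
  by_contra h
  push Not at h
  have : Finite V := hV
  have h3 : A ⊆ Γᶜ := fun x hx => h x hx
  have h4 : A.ncard ≤ Γᶜ.ncard := Set.ncard_le_ncard h3 (Set.toFinite _)
  have h5 : (A.ncard : ℝ) ≤ Γᶜ.ncard := by exact_mod_cast h4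
  linarith

/-- A set of numbers `x` gives a set of vertices `2 x` of the same size. -/
theorem gl_image {V : Set ℕ} (hV : V.Finite) (J : Finset ℕ) (hJ : ∀ x ∈ J, 2 * x ∈ V) :
    (J.card : ℝ) ≤ (({a : V | ∃ x ∈ J, (a : ℕ) = 2 * x}).ncard : ℝ) := by
  have : Finite V := hV
  have h : J.card ≤ ({a : V | ∃ x ∈ J, (a : ℕ) = 2 * x}).ncard := by
    rw [← Set.ncard_coe_finset]
    have h1 : ((J : Set ℕ)) ⊆ (fun a : V => (a : ℕ) / 2) '' {a : V | ∃ x ∈ J, (a : ℕ) = 2 * x} := by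
      intro x hx
      rw [Finset.mem_coe] at hx
      refine ⟨⟨2 * x, hJ x hx⟩, ⟨x, hx, rfl⟩, ?_⟩
      simp
    exact (Set.ncard_le_ncard h1 ((Set.toFinite _).image _)).trans (Set.ncard_image_le (Set.toFinite _))
  exact_mod_cast h

/-- A vertex with many neighbours is at distance at most `1 + 5` from every generic vertex. -/
theorem gl_six {V : Set ℕ} (hV : V.Finite) {G : SimpleGraph V} {Γ : Set V} {t : ℝ}
    (h1 : (Γᶜ.ncard : ℝ) ≤ t) (h5 : ∀ a ∈ Γ, ∀ b ∈ Γ, G.edist a b ≤ 5) {u : V}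
    (hu : t < ((G.neighborSet u).ncard : ℝ)) {x : V} (hx : x ∈ Γ) : G.edist u x ≤ 6 := by
  obtain ⟨y, hy, hyΓ⟩ := gl_meet hV h1 hu
  have hadj : G.Adj u y := hy
  have e1 : G.edist u y ≤ 1 := by
    refine (SimpleGraph.edist_le (.cons hadj .nil)).trans ?_
    norm_num
  calc G.edist u x ≤ G.edist u y + G.edist y x := SimpleGraph.edist_triangle
    _ ≤ 1 + 5 := add_le_add e1 (h5 y hyΓ x hx)
    _ = 6 := by norm_num

/-- Thresholds. -/
theorem gl_thr (b d c : ℝ) (hbd : b < d) (hd : 0 < d) (hc : 0 < c) (B : ℕ) : ∃ n0 : ℕ, 1 ≤ n0 ∧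
    ∀ m : ℕ, n0 ≤ m → (m : ℝ) ^ (1 - d) < (m : ℝ) ^ (1 - b) ∧ (m : ℝ) ^ (1 - d) < c * m ∧
      (m : ℝ) ^ (1 - 2 * d) ≤ m / (Real.log m) ^ B ∧ (m : ℝ) ^ (1 - 2 * d) ≤ (m : ℝ) ^ (1 - b) := by
  have h1 := (tendsto_rpow_atTop (show 0 < d - b by linarith)).eventually_gt_atTop 1
  have h2 : ∀ᶠ y : ℝ in Filter.atTop, y ^ (-d) < c :=
    (tendsto_rpow_neg_atTop hd).eventually (gt_mem_nhds hc)
  have h3 : ∀ᶠ y : ℝ in Filter.atTop, (Real.log y) ^ B ≤ y ^ (2 * d) := by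
    have k := (isLittleO_log_rpow_rpow_atTop (B : ℝ) (show 0 < 2 * d by linarith)).def one_pos
    filter_upwards [k, Filter.eventually_ge_atTop (1 : ℝ)] with y k hy
    have hL : 0 ≤ Real.log y := Real.log_nonneg hy
    rw [Real.rpow_natCast, Real.norm_of_nonneg (by positivity), Real.norm_of_nonneg (by positivity), one_mul] at k
    exact k
  obtain ⟨n0, hn0⟩ := Filter.eventually_atTop.1
    (tendsto_natCast_atTop_atTop.eventually (h1.and (h2.and h3)))
  refine ⟨max n0 2, by omega, fun m hm => ?_⟩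
  obtain ⟨e1, e2, e3⟩ := hn0 m (by omega)
  have hm2 : (2 : ℝ) ≤ m := by exact_mod_cast (by omega : 2 ≤ m)
  have hm0 : (0 : ℝ) < m := by linarith
  have hlog : 0 < Real.log m := Real.log_pos (by linarith)
  refine ⟨?_, ?_, ?_, ?_⟩
  · have k1 : (m : ℝ) ^ (1 - b) = (m : ℝ) ^ (1 - d) * (m : ℝ) ^ (d - b) := by
      rw [← Real.rpow_add hm0]
      congr 1
      ring
    rw [k1]
    have k2 : 0 < (m : ℝ) ^ (1 - d) := Real.rpow_pos_of_pos hm0 _
    nlinarith
  · have k1 : (m : ℝ) ^ (1 - d) = m * (m : ℝ) ^ (-d) := by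
      rw [sub_eq_add_neg, Real.rpow_add hm0, Real.rpow_one]
    rw [k1, mul_comm c]
    exact mul_lt_mul_of_pos_left e2 hm0
  · rw [le_div_iff₀ (by positivity)]
    have k1 : (m : ℝ) = (m : ℝ) ^ (1 - 2 * d) * (m : ℝ) ^ (2 * d) := by
      rw [← Real.rpow_add hm0]
      have : 1 - 2 * d + 2 * d = 1 := by ring
      rw [this, Real.rpow_one]
    calc (m : ℝ) ^ (1 - 2 * d) * Real.log m ^ B ≤ (m : ℝ) ^ (1 - 2 * d) * (m : ℝ) ^ (2 * d) :=
          mul_le_mul_of_nonneg_left e3 (Real.rpow_nonneg hm0.le _)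
      _ = m := k1.symm
  · exact Real.rpow_le_rpow_of_exponent_le (by linarith) (by linarith)

/-- **Two scales.** -/
theorem gl_pair {V S : ℕ → Set ℕ} (hF : Fam V S) (b d : ℝ) (hbd : b < d) (hd : 0 < d) (N : ℕ)
    (hT : ∀ n ≥ N, PT (V n) (halfGraph (V n) (S n)) d n) : ∃ n0 : ℕ, 1 ≤ n0 ∧ ∀ m m' : ℕ, n0 ≤ m → ∀ hmm : m ≤ m',
    ∀ (u : V m) (v : V m'), (m : ℝ) ^ (1 - b) ≤ (((halfGraph (V m) (S m)).neighborSet u).ncard : ℝ) →
      (m' : ℝ) ^ (1 - b) ≤ (((halfGraph (V m') (S m')).neighborSet v).ncard : ℝ) →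
      (halfGraph (V m') (S m')).edist ⟨u, hF.mV m m' hmm u.2⟩ v ≤ 13 := by
  classical
  obtain ⟨c, hc, B, m0, n1, hjump⟩ := Pool.Agent.Lib.H18P.jump
  obtain ⟨n2, hn2, hthr⟩ := gl_thr b d (min c (1 / 2000)) hbd hd (lt_min hc (by norm_num)) B
  refine ⟨max (max N n2) (max (max n1 m0) 1), by omega, fun m m' hm hmm u v hu hv => ?_⟩
  have hVm := finite_of_le (hF.hV m)
  have hVm' := finite_of_le (hF.hV m')
  obtain ⟨⟨Γ, hΓ1, hΓ2⟩, -⟩ := hT m (by omega)
  obtain ⟨⟨Γ', hΓ1', hΓ2'⟩, hR⟩ := hT m' (by omega)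
  obtain ⟨t1, t2, t3, t4⟩ := hthr m (by omega)
  obtain ⟨t1', t2', t3', t4'⟩ := hthr m' (by omega)
  have hm1 : (1 : ℝ) ≤ m := by exact_mod_cast (by omega : 1 ≤ m)
  have hlift : ∀ x : V m, (halfGraph (V m) (S m)).edist u x ≤ 6 →
      (halfGraph (V m') (S m')).edist ⟨u, hF.mV m m' hmm u.2⟩ ⟨x, hF.mV m m' hmm x.2⟩ ≤ 6 := fun x hx =>
    (gl_lift (hF.mV m m' hmm) (hF.mS m m' hmm) u x).trans hx
  by_cases h1000 : 1000 * m ≤ m'
  · set J := (Icc 1 m).filter (fun X => (m' : ℝ) / (Real.log m') ^ B ≤ hdeg m' X) with hJ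
    have hJc : c * m ≤ (J.card : ℝ) := hjump m' (by omega) m (by omega) h1000
    have hJV : ∀ x ∈ J, 2 * x ∈ V m := fun x hx => hF.hV2 m x (mem_filter.1 hx).1
    have h1 := gl_image hVm J hJV
    have h2 : min c (1 / 2000) * m ≤ c * m := mul_le_mul_of_nonneg_right (min_le_left _ _) (by linarith)
    obtain ⟨X, ⟨x, hxJ, hXx⟩, hXΓ⟩ := gl_meet hVm hΓ1 (A := {a : V m | ∃ x ∈ J, (a : ℕ) = 2 * x}) (by linarith)
    have e1 := hlift X (gl_six hVm hΓ1 hΓ2 (by linarith) hXΓ)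
    rw [hJ, mem_filter, mem_Icc] at hxJ
    have hx' : x ∈ Icc 1 m' := mem_Icc.2 ⟨hxJ.1.1, hxJ.1.2.trans hmm⟩
    have e2 : (halfGraph (V m') (S m')).edist ⟨X, hF.mV m m' hmm X.2⟩ v ≤ 7 := by
      refine hR _ _ ?_ (t4'.trans hv)
      have h3 := le_deg (hF.hV m') (hF.hV2 m') (hF.hS m') x hx' (hF.hV2 m' x hx')
      have h4 : (⟨X, hF.mV m m' hmm X.2⟩ : V m') = ⟨2 * x, hF.hV2 m' x hx'⟩ := Subtype.ext hXx
      rw [h4]
      have h5 : (hdeg m' x : ℝ) ≤ (((halfGraph (V m') (S m')).neighborSet ⟨2 * x, hF.hV2 m' x hx'⟩).ncard : ℝ) := by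
        exact_mod_cast h3
      exact (t3'.trans hxJ.2).trans h5
    calc (halfGraph (V m') (S m')).edist ⟨u, hF.mV m m' hmm u.2⟩ v
        ≤ (halfGraph (V m') (S m')).edist ⟨u, hF.mV m m' hmm u.2⟩ ⟨X, hF.mV m m' hmm X.2⟩ +
          (halfGraph (V m') (S m')).edist ⟨X, hF.mV m m' hmm X.2⟩ v := SimpleGraph.edist_triangle
      _ ≤ 6 + 7 := add_le_add e1 e2
      _ = 13 := by norm_num
  · push Not at h1000
    -- a common generic vertex
    obtain ⟨X, hX1, hX2⟩ : ∃ X : V m, X ∈ Γ ∧ (⟨X, hF.mV m m' hmm X.2⟩ : V m') ∈ Γ' := by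
      by_contra hcon
      push Not at hcon
      have h1 : (Γ.ncard : ℝ) ≤ (Γ'ᶜ.ncard : ℝ) := by
        have : Finite (V m') := hVm'
        have h2 : Γ.ncard ≤ Γ'ᶜ.ncard := by
          apply Set.ncard_le_ncard_of_injOn (fun X : V m => (⟨X, hF.mV m m' hmm X.2⟩ : V m'))
          · intro X hX
            exact hcon X hX
          · intro X _ Y _ hXY
            exact Subtype.ext (congrArg (fun x : V m' => (x : ℕ)) hXY)
        exact_mod_cast h2
      have h2 : ((Icc 1 m).card : ℝ) ≤ (Γ.ncard : ℝ) + Γᶜ.ncard := by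
        have h3 := gl_image hVm (Icc 1 m) (hF.hV2 m)
        have : Finite (V m) := hVm
        have h4 : ({a : V m | ∃ x ∈ Icc 1 m, (a : ℕ) = 2 * x}).ncard ≤ (Set.univ : Set (V m)).ncard :=
          Set.ncard_le_ncard (Set.subset_univ _) (Set.toFinite _)
        have h5 : (Set.univ : Set (V m)).ncard = Γ.ncard + Γᶜ.ncard := by
          rw [Set.ncard_add_ncard_compl, Set.ncard_univ]
        have h6 : ({a : V m | ∃ x ∈ Icc 1 m, (a : ℕ) = 2 * x}).ncard ≤ Γ.ncard + Γᶜ.ncard := by omega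
        have h7 : (({a : V m | ∃ x ∈ Icc 1 m, (a : ℕ) = 2 * x}).ncard : ℝ) ≤ Γ.ncard + Γᶜ.ncard := by
          exact_mod_cast h6
        linarith
      rw [Nat.card_Icc, Nat.add_sub_cancel] at h2
      have h3 : min c (1 / 2000) * (m : ℝ) ≤ 1 / 2000 * m := mul_le_mul_of_nonneg_right (min_le_right _ _) (by linarith)
      have h4 : min c (1 / 2000) * (m' : ℝ) ≤ 1 / 2000 * m' :=
        mul_le_mul_of_nonneg_right (min_le_right _ _) (Nat.cast_nonneg _)
      have h5 : (m' : ℝ) ≤ 1000 * m := by exact_mod_cast h1000.le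
      linarith
    have e1 := hlift X (gl_six hVm hΓ1 hΓ2 (by linarith) hX1)
    have e2 := gl_six hVm' hΓ1' hΓ2' (by linarith) hX2 (u := v)
    rw [SimpleGraph.edist_comm] at e2
    calc (halfGraph (V m') (S m')).edist ⟨u, hF.mV m m' hmm u.2⟩ v
        ≤ (halfGraph (V m') (S m')).edist ⟨u, hF.mV m m' hmm u.2⟩ ⟨X, hF.mV m m' hmm X.2⟩ +
          (halfGraph (V m') (S m')).edist ⟨X, hF.mV m m' hmm X.2⟩ v := SimpleGraph.edist_triangle
      _ ≤ 6 + 6 := add_le_add e1 e2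
      _ ≤ 13 := by norm_num

end Pool.Agent.Lib.H18R
end
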