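import Pool.Agent.Lib.H1M.RV2.M067
import Pool.Agent.Lib.H1M.RV2.M073
import Pool.Agent.Lib.H1M.RV2.M074
import Pool.Agent.Lib.H1M.RV2.M078
import Pool.Agent.Lib.H1M.RV2.M079

/-! Merged copies (to shorten the build) of Lib.H24P.P4, Lib.H24P.Z3, Lib.H24P.Z2B, Lib.H24Q.D2, Lib.H24Q.R0, Lib.H24Q.R1, Lib.H24Q.D0. -/

-- from Lib.H24P.P4
section

/-!
# Project H24P, chunk P4 (M): domination by the model (port of H59P/C3)
-/

open Finset

namespace Pool.Agent.Lib.H24P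

open Pool.Agent.Lib.H68T Pool.Agent.Lib.H18Q Pool.Agent.Lib.H59P

theorem p4_lcm {k : ℕ} (px : Ch) (m0 : ℕ) (hm0 : px.1 ∣ m0) (J : Finset (Fin k)) (p p' : Fin k → Ch)
    (h1 : ∀ i ∈ J, p i = p' i) (h2 : ∀ i, i ∉ J → p i = p0 ∨ p i = px) :
    m0.lcm (univ.lcm fun i => (p i).1) ∣ m0.lcm (univ.lcm fun i => (p' i).1) := by
  refine Nat.lcm_dvd (Nat.dvd_lcm_left _ _) (Finset.lcm_dvd fun i _ => ?_)
  by_cases hi : i ∈ J
  · rw [h1 i hi]
    exact (Finset.dvd_lcm (f := fun i => (p' i).1) (Finset.mem_univ i)).trans (Nat.dvd_lcm_right _ _)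
  · rcases h2 i hi with h | h
    · rw [h]
      exact one_dvd _
    · rw [h]
      exact hm0.trans (Nat.dvd_lcm_left _ _)

/-- the pointwise bound -/
theorem p4_pt {k : ℕ} (Q D1 m0 : ℕ) (hQ : 1 ≤ Q) (η E0 : ℝ) (px : Ch) (hpx : px ∈ PC Q)
    (hreal : px.2 ^ 2 = 1) (hm0 : px.1 ∣ m0) (hmpos : 0 < m0)
    (hcond : m0 ≤ D1) (hη : 0 < η) (hE0 : 0 ≤ E0) (hE : 4 * k * E0 ≤ 1) (th : Fin k → ℝ)
    (hth0 : ∀ i, 0 ≤ th i) (hth : ∀ i, th i ≤ 1 - η) (htriv : px = p0 → ∀ i, th i = 0)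
    (e : Fin k → Ch → ℂ) (he : ∀ i, ∑ p ∈ PC Q, ‖e i p‖ ≤ η * E0) (m : Fin k → ℤ) :
    ‖∑ p ∈ TSf k Q D1 m0, ∏ i, ((MX px (fun _ => th i) 0 (p i) + e i (p i)) * cj (p i) (m i)) -
      ((∏ i, (1 - th i * (cj px (m i)).re) : ℝ) : ℂ)‖ ≤ 1 / 2 * ∏ i, (1 - th i * (cj px (m i)).re) := by
  classical
  have ha : ∀ i, η ≤ 1 - th i * (cj px (m i)).re := by
    intro i
    have h1 := (abs_le.mp (C3a px hreal (m i)).2).2
    have h2 := mul_le_mul_of_nonneg_left h1 (hth0 i)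
    have h3 := hth i
    linarith
  have ha0 : ∀ i, 0 ≤ 1 - th i * (cj px (m i)).re := fun i => hη.le.trans (ha i)
  have hsum : ∀ i, ∑ p ∈ PC Q, MX px (fun _ => th i) 0 p * cj p (m i) =
      ((1 - th i * (cj px (m i)).re : ℝ) : ℂ) := fun i =>
    c3_sumA Q hQ px hpx (th i) (fun h => htriv h i) hreal (m i)
  have hC1 := C1 (PC Q) ({p0, px} : Finset Ch) (fun p : Fin k → Ch => m0.lcm (univ.lcm fun i => (p i).1) ≤ D1)
    (fun i p => MX px (fun _ => th i) 0 p * cj p (m i)) (fun i p => e i p * cj p (m i)) ?_ ?_ ?_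
  rotate_left
  · intro i p _ hne
    rw [Finset.mem_insert, Finset.mem_singleton, not_or] at hne
    have h0 : MX px (fun _ => th i) 0 p = 0 := by
      simp only [MX]
      rw [if_neg hne.1, if_neg hne.2]
    show MX px (fun _ => th i) 0 p * cj p (m i) = 0
    rw [h0, zero_mul]
  · intro J p p' h1 h2 h3
    have k1 := p4_lcm px m0 hm0 J p p' h1 (fun i hi => by simpa using h2 i hi)
    have k2 := p4_lcm px m0 hm0 J p' p (fun i hi => (h1 i hi).symm) (fun i hi => by simpa using h3 i hi)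
    show m0.lcm (univ.lcm fun i => (p i).1) ≤ D1 ↔ m0.lcm (univ.lcm fun i => (p' i).1) ≤ D1
    rw [Nat.dvd_antisymm k1 k2]
  · intro p hp
    have k1 := p4_lcm px m0 hm0 ∅ p (fun _ => p0) (fun i hi => by simp at hi) (fun i _ => by simpa using hp i)
    have k2 : m0.lcm (univ.lcm fun i : Fin k => ((fun _ => p0 : Fin k → Ch) i).1) ∣ m0 := by
      refine Nat.lcm_dvd dvd_rfl (Finset.lcm_dvd fun i _ => ?_)
      exact one_dvd _
    exact (Nat.le_of_dvd hmpos (k1.trans k2)).trans hcond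
  have e1 : ∀ p : Fin k → Ch, ∏ i, ((MX px (fun _ => th i) 0 (p i) + e i (p i)) * cj (p i) (m i)) =
      ∏ i, (MX px (fun _ => th i) 0 (p i) * cj (p i) (m i) + e i (p i) * cj (p i) (m i)) := fun p =>
    Finset.prod_congr rfl fun i _ => by ring
  have e2 : ∏ i, ∑ p ∈ PC Q, MX px (fun _ => th i) 0 p * cj p (m i) =
      ((∏ i, (1 - th i * (cj px (m i)).re) : ℝ) : ℂ) := by
    rw [Complex.ofReal_prod]
    exact Finset.prod_congr rfl fun i _ => hsum i
  have e3 : ∀ i, ‖∑ p ∈ PC Q, MX px (fun _ => th i) 0 p * cj p (m i)‖ = 1 - th i * (cj px (m i)).re := by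
    intro i
    rw [hsum i, Complex.norm_real, Real.norm_eq_abs, abs_of_nonneg (ha0 i)]
  have hC2 := C2 (fun i => 1 - th i * (cj px (m i)).re) (fun i => ∑ p ∈ PC Q, ‖e i p * cj p (m i)‖) η E0 hη hE0 hE ha
    (fun i => Finset.sum_nonneg fun _ _ => norm_nonneg _) (fun i => ?_)
  swap
  · refine (Finset.sum_le_sum fun p _ => ?_).trans (he i)
    rw [norm_mul]
    exact mul_le_of_le_one_right (norm_nonneg _) (c3_cj_norm p (m i))
  simp only [e3] at hC1
  rw [e2] at hC1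
  unfold TSf
  simp only [e1]
  exact hC1.trans hC2

/-- Proof. As `C3` (`H59P/C3.lean`), with `n + h_i` replaced by `φ i n` and `TS k Q D1 px` by `TSf k Q D1 m0`
(`px.1 ∣ m0 ≤ D1`): in `c3_pt` the condition `φ p` is now `m0.lcm (univ.lcm fun i => (p i).1) ≤ D1`; coordinates
in `{p0, px}` have a modulus dividing `m0`, which does not change this least common multiple; if all coordinates
are in `{p0, px}` it is `m0 ≤ D1`. -/
theorem P4_C3 {k : ℕ} (φ : Fin k → ℤ → ℤ) (Q D1 m0 : ℕ) (hQ : 1 ≤ Q) (η E0 : ℝ) (px : Ch)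
    (hpx : px ∈ PC Q) (hreal : px.2 ^ 2 = 1) (hm0 : px.1 ∣ m0) (hm : 0 < m0) (hcond : m0 ≤ D1)
    (hη : 0 < η) (hE0 : 0 ≤ E0) (hE : 4 * k * E0 ≤ 1) (th : Fin k → ℝ)
    (hth0 : ∀ i, 0 ≤ th i) (hth : ∀ i, th i ≤ 1 - η) (htriv : px = p0 → ∀ i, th i = 0)
    (e : Fin k → Ch → ℂ) (he : ∀ i, ∑ p ∈ PC Q, ‖e i p‖ ≤ η * E0) :
    ‖∑ p ∈ TSf k Q D1 m0, (∏ i, (MX px (fun _ => th i) 0 (p i) + e i (p i))) * MQf Q p φ -
      ((PMf Q px th φ : ℝ) : ℂ)‖ ≤ 1 / 2 * PMf Q px th φ := by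
  have hQ0 : (0 : ℝ) < (Q.factorial : ℝ) := by exact_mod_cast Nat.factorial_pos Q
  have hU : ∀ n : ℤ, 0 ≤ ∏ i : Fin k, uu (pr Q) (φ i n) := fun n =>
    Finset.prod_nonneg fun i _ => M3a_uu_nonneg _ (c3_pr Q) _
  have h1 : ∑ p ∈ TSf k Q D1 m0, (∏ i, (MX px (fun _ => th i) 0 (p i) + e i (p i))) * MQf Q p φ =
      (∑ n ∈ range Q.factorial, ((∏ i : Fin k, uu (pr Q) (φ i (n : ℤ)) : ℝ) : ℂ) *
        ∑ p ∈ TSf k Q D1 m0, ∏ i, ((MX px (fun _ => th i) 0 (p i) + e i (p i)) *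
          cj (p i) (φ i (n : ℤ)))) /
        ((Q.factorial : ℝ) : ℂ) := by
    unfold MQf
    rw [Finset.sum_div]
    simp only [Finset.mul_sum, Finset.sum_div, mul_div_assoc']
    rw [Finset.sum_comm]
    refine Finset.sum_congr rfl fun n _ => ?_
    refine Finset.sum_congr rfl fun p _ => ?_
    unfold Phf at'
    rw [Finset.prod_mul_distrib, Finset.prod_mul_distrib, Complex.ofReal_prod]
    push_cast
    ring
  have h2 : PMf Q px th φ = (∑ n ∈ range Q.factorial, (∏ i : Fin k, uu (pr Q) (φ i (n : ℤ))) *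
        ∏ i, (1 - th i * (cj px (φ i (n : ℤ))).re)) / (Q.factorial : ℝ) := by
    unfold PMf fPf at'
    congr 1
    refine Finset.sum_congr rfl fun n _ => ?_
    rw [Finset.prod_mul_distrib]
  rw [h1, h2]
  rw [Complex.ofReal_div, ← sub_div, norm_div, Complex.norm_real, Real.norm_eq_abs, abs_of_pos hQ0, mul_div_assoc']
  refine div_le_div_of_nonneg_right ?_ hQ0.le
  rw [Complex.ofReal_sum, ← Finset.sum_sub_distrib, Finset.mul_sum]
  refine (norm_sum_le _ _).trans (Finset.sum_le_sum fun n _ => ?_)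
  rw [Complex.ofReal_mul, ← mul_sub, norm_mul, Complex.norm_real, Real.norm_eq_abs, abs_of_nonneg (hU n)]
  have hpt := p4_pt Q D1 m0 hQ η E0 px hpx hreal hm0 hm hcond hη hE0 hE th hth0 hth htriv e he
    (fun i => φ i (n : ℤ))
  have := mul_le_mul_of_nonneg_left hpt (hU n)
  refine this.trans (le_of_eq ?_)
  ring

end Pool.Agent.Lib.H24P
end

-- from Lib.H24P.Z3
section

/-!
# Project H24P, chunk Z3 (S/M): lower bound for the main term (compare H59P/Z3)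
-/

open Finset Polynomial

namespace Pool.Agent.Lib.H24P

open Pool.Agent.Lib.H68T Pool.Agent.Lib.H18Q Pool.Agent.Lib.H59P

/-- One cell. Proof. `P4_C3` with `D1 = fl Q (1/16)`, `k + 1` coordinates: `‖MDf - PMf‖ ≤ PMf/2`, so
`Re MDf ≥ PMf/2 ≥ m/2`. -/
theorem Z3_cell {k : ℕ} (Q m0 : ℕ) (hQ : 1 ≤ Q) (η E0 : ℝ) (px : Ch) (hpx : px ∈ PC Q)
    (hreal : px.2 ^ 2 = 1) (hm0 : px.1 ∣ m0) (hm : 0 < m0) (hcond : m0 ≤ fl Q (1 / 16)) (hη : 0 < η)
    (hE0 : 0 ≤ E0) (hE : 4 * k * E0 ≤ 1) (φ : Fin k → ℤ → ℤ) (th : Fin k → ℝ) (hth0 : ∀ i, 0 ≤ th i)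
    (hth : ∀ i, th i ≤ 1 - η) (htriv : px = p0 → ∀ i, th i = 0) (e c : Fin k → Ch → ℂ)
    (he : ∀ i, ∑ p ∈ PC Q, ‖e i p‖ ≤ η * E0)
    (hc : ∀ i p, c i p = MX px (fun _ => th i) 0 p + e i p) (m : ℝ)
    (hm' : ∀ th' : Fin k → ℝ, (∀ i, 0 ≤ th' i) → (∀ i, th' i ≤ 1 - η) →
      (px = p0 → ∀ i, th' i = 0) → m ≤ PMf Q px th' φ) :
    m / 2 ≤ (MDf Q m0 c φ).re := by
  have z := P4_C3 φ Q (fl Q (1 / 16)) m0 hQ η E0 px hpx hreal hm0 hm hcond hη hE0 hE th hth0 hth htriv e he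
  have hS : MDf Q m0 c φ = ∑ p ∈ TSf k Q (fl Q (1 / 16)) m0,
      (∏ i, (MX px (fun _ => th i) 0 (p i) + e i (p i))) * MQf Q p φ := by
    unfold MDf
    refine Finset.sum_congr rfl fun p _ => ?_
    congr 1
    exact Finset.prod_congr rfl fun i _ => hc i (p i)
  rw [← hS] at z
  have h1 := hm' th hth0 hth htriv
  have h2 : -(1 / 2 * PMf Q px th φ) ≤ (MDf Q m0 c φ - ((PMf Q px th φ : ℝ) : ℂ)).re :=
    (abs_le.1 ((Complex.abs_re_le_norm _).trans z)).1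
  rw [Complex.sub_re, Complex.ofReal_re] at h2
  linarith


end Pool.Agent.Lib.H24P
end

-- from Lib.H24P.Z2B
section

/-!
# Project H24P, chunk Z2B (M): the truncated and the complete main term (compare H59P/Z3A)
-/

open Finset Polynomial

namespace Pool.Agent.Lib.H24P

open Pool.Agent.Lib.H68T Pool.Agent.Lib.H18Q Pool.Agent.Lib.H59P

theorem z2b_R {k : ℕ} (Q D m0 : ℕ) (hm0 : 1 ≤ m0) (p : Fin (k + 1) → Ch)
    (hp : p ∈ TSf (k + 1) Q D m0) : 0 < Rf m0 p ∧ Rf m0 p ≤ D ∧ (∀ i, (p i).1 ∣ Rf m0 p) ∧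
      m0 ∣ Rf m0 p := by
  classical
  unfold TSf at hp
  rw [Finset.mem_filter, Fintype.mem_piFinset] at hp
  obtain ⟨hp1, hp2⟩ := hp
  refine ⟨?_, hp2, ?_, ?_⟩
  · have h1 : (univ.lcm fun i => (p i).1) ≠ 0 := by
      intro h0
      rw [Finset.lcm_eq_zero_iff] at h0
      obtain ⟨i, _, h2⟩ := h0
      have h3 : 0 < (p i).1 := (mem_PC.mp (hp1 i)).1
      exact h3.ne' h2
    unfold Rf
    exact Nat.lcm_pos hm0 (Nat.pos_of_ne_zero h1)
  · intro i
    unfold Rf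
    exact (Finset.dvd_lcm (f := fun i => (p i).1) (Finset.mem_univ i)).trans (Nat.dvd_lcm_right _ _)
  · unfold Rf
    exact Nat.dvd_lcm_left _ _

/-- the size of the mean modulo `R` -/
theorem z2b_MR {k : ℕ} (Q : ℕ) (p : Fin (k + 1) → Ch) (R : ℕ) (hR : 0 < R) (hRQ : R ≤ Q)
    (φ : Fin (k + 1) → ℤ → ℤ) : ‖MRf p R φ‖ ≤ (2 * (1 + Real.log Q)) ^ (k + 1) := by
  refine (P0_MR p R hR φ).trans ?_
  refine pow_le_pow_left₀ (by positivity) ((M3b R hR).trans ?_) _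
  have h1 : Real.log R ≤ Real.log Q :=
    Real.log_le_log (by exact_mod_cast hR) (by exact_mod_cast hRQ)
  linarith

theorem z2b_gam {k : ℕ} (Q D m0 : ℕ) (c' : Fin (k + 1) → Ch → ℂ)
    (hc' : ∀ i, ∑ p ∈ PC Q, ‖c' i p‖ ≤ 3) :
    ∑ p ∈ TSf (k + 1) Q D m0, ‖∏ i, c' i (p i)‖ ≤ 3 ^ (k + 1) := by
  classical
  calc ∑ p ∈ TSf (k + 1) Q D m0, ‖∏ i, c' i (p i)‖
      = ∑ p ∈ TSf (k + 1) Q D m0, ∏ i, ‖c' i (p i)‖ :=
        Finset.sum_congr rfl fun p _ => norm_prod _ _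
    _ ≤ ∑ p ∈ Fintype.piFinset fun _ : Fin (k + 1) => PC Q, ∏ i, ‖c' i (p i)‖ := by
        refine Finset.sum_le_sum_of_subset_of_nonneg ?_ ?_
        · intro p hp
          unfold TSf at hp
          exact (Finset.mem_filter.mp hp).1
        · intro p _ _
          exact Finset.prod_nonneg fun i _ => norm_nonneg _
    _ = ∏ i, ∑ q ∈ PC Q, ‖c' i q‖ := by
        rw [Finset.prod_univ_sum]
    _ ≤ ∏ _i : Fin (k + 1), (3 : ℝ) :=
        Finset.prod_le_prod (fun i _ => Finset.sum_nonneg fun _ _ => norm_nonneg _) fun i _ => hc' i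
    _ = 3 ^ (k + 1) := by
        rw [Finset.prod_const, Finset.card_univ, Fintype.card_fin]


end Pool.Agent.Lib.H24P
end

-- from Lib.H24Q.D2
section

/-!
# Project H24Q, chunk D2 (M): cells (compare H24P/E1)
-/

open Finset

namespace Pool.Agent.Lib.H24Q

open Pool.Agent.Lib.H68T Pool.Agent.Lib.H18Q Pool.Agent.Lib.H59P Pool.Agent.Lib.H24P

theorem d2_fib {k : ℕ} (b M s : Fin k → ℕ) (q : ℕ) (hs : ∀ i, M i = s i * q) (hpos : ∀ i, 0 < s i)
    (t : Fin k → ℕ) (ht : ∀ i, t i < q) :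
    (cub b M).filter (fun h => (fun i => (h i - b i) / s i) = t) = cub (fun i => b i + t i * s i) s := by
  classical
  ext h
  unfold cub
  rw [mem_filter, Fintype.mem_piFinset, Fintype.mem_piFinset]
  constructor
  · rintro ⟨h1, h2⟩ i
    have h3 : (h i - b i) / s i = t i := congrFun h2 i
    have h0 := mem_Ico.mp (h1 i)
    rw [mem_Ico]
    change b i + t i * s i ≤ h i ∧ h i < b i + t i * s i + s i
    have h4 := Nat.div_mul_le_self (h i - b i) (s i)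
    have h5 := Nat.lt_div_mul_add (hpos i) (a := h i - b i)
    rw [h3] at h4 h5
    constructor
    · omega
    · omega
  · intro h1
    have h3 : ∀ i, b i + t i * s i ≤ h i ∧ h i < b i + t i * s i + s i := fun i => mem_Ico.mp (h1 i)
    refine ⟨fun i => ?_, ?_⟩
    · rw [mem_Ico]
      have h4 : (t i + 1) * s i ≤ q * s i := Nat.mul_le_mul_right (s i) (ht i)
      have h5 : q * s i = M i := by rw [hs i]; ring
      have h6 : (t i + 1) * s i = t i * s i + s i := by ring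
      have h7 := h3 i
      constructor
      · omega
      · omega
    · funext i
      have h4 := h3 i
      rw [Nat.div_eq_iff (hpos i)]
      constructor
      · omega
      · have h5 := hpos i
        omega

/-- Proof. As `E1_cells` in `H24P/E1.lean`, the box `cub b M` (with `M i = s i q`) being the disjoint union of the `q^k` boxes
`cub (b + t s) s`. -/
theorem D2_cells {k : ℕ} (b M s : Fin k → ℕ) (q : ℕ) (hs : ∀ i, M i = s i * q) (X1 H N : ℕ)
    (hX : X1 = H * N) (W : ℝ) (hW : 0 ≤ W) (F : (Fin k → ℕ) → ℕ → ℂ)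
    (hF : ∀ t : Fin k → ℕ, (∀ i, t i < q) → ∀ j < N,
      ∑ h ∈ cub (fun i => b i + t i * s i) s,
        ‖∑ n ∈ Ico (X1 + j * H) (X1 + j * H + H), F h n‖ ^ 2 ≤ vol s * H ^ 2 * W) :
    ∑ h ∈ cub b M, ‖∑ n ∈ Ico X1 (2 * X1), F h n‖ ^ 2 ≤ vol M * X1 ^ 2 * W := by
  classical
  have hvM : 0 ≤ vol M := Finset.prod_nonneg (fun i _ => Nat.cast_nonneg _)
  by_cases hz : ∃ i, s i = 0
  · obtain ⟨i, hi⟩ := hz
    have h0 : cub b M = ∅ := by
      rw [Finset.eq_empty_iff_forall_notMem]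
      intro h hh
      unfold cub at hh
      rw [Fintype.mem_piFinset] at hh
      have h1 := mem_Ico.mp (hh i)
      have h2 : M i = 0 := by rw [hs i, hi, zero_mul]
      omega
    rw [h0, Finset.sum_empty]
    positivity
  · push Not at hz
    have hpos : ∀ i, 0 < s i := fun i => Nat.pos_of_ne_zero (hz i)
    have hcube : ∀ t ∈ Fintype.piFinset (fun _ : Fin k => range q),
        ∑ h ∈ cub (fun i => b i + t i * s i) s, ‖∑ n ∈ Ico X1 (2 * X1), F h n‖ ^ 2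
          ≤ (N : ℝ) * (N * (vol s * H ^ 2 * W)) := by
      intro t ht
      rw [Fintype.mem_piFinset] at ht
      have ht' : ∀ i, t i < q := fun i => mem_range.mp (ht i)
      have h2 : 2 * X1 = X1 + N * H := by
        have : N * H = X1 := by rw [hX]; ring
        omega
      calc ∑ h ∈ cub (fun i => b i + t i * s i) s, ‖∑ n ∈ Ico X1 (2 * X1), F h n‖ ^ 2
          ≤ ∑ h ∈ cub (fun i => b i + t i * s i) s, (N : ℝ) * ∑ j ∈ range N,
              ‖∑ n ∈ Ico (X1 + j * H) (X1 + j * H + H), F h n‖ ^ 2 := by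
            refine Finset.sum_le_sum (fun h _ => ?_)
            rw [h2, z2_cells]
            exact z2_cs _ _
        _ = (N : ℝ) * ∑ j ∈ range N, ∑ h ∈ cub (fun i => b i + t i * s i) s,
              ‖∑ n ∈ Ico (X1 + j * H) (X1 + j * H + H), F h n‖ ^ 2 := by
            rw [← Finset.mul_sum, Finset.sum_comm]
        _ ≤ (N : ℝ) * ∑ j ∈ range N, vol s * H ^ 2 * W := by
            refine mul_le_mul_of_nonneg_left ?_ (by positivity)
            exact Finset.sum_le_sum (fun j hj => hF t ht' j (mem_range.mp hj))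
        _ = (N : ℝ) * (N * (vol s * H ^ 2 * W)) := by
            rw [Finset.sum_const, card_range, nsmul_eq_mul]
    have hmaps : ∀ h ∈ cub b M,
        (fun i => (h i - b i) / s i) ∈ Fintype.piFinset (fun _ : Fin k => range q) := by
      intro h hh
      unfold cub at hh
      rw [Fintype.mem_piFinset] at hh ⊢
      intro i
      have h1 := mem_Ico.mp (hh i)
      rw [mem_range, Nat.div_lt_iff_lt_mul (hpos i)]
      have h5 : q * s i = M i := by rw [hs i]; ring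
      omega
    rw [← Finset.sum_fiberwise_of_maps_to hmaps]
    have hfib : ∀ t ∈ Fintype.piFinset (fun _ : Fin k => range q),
        ∑ h ∈ (cub b M).filter (fun h => (fun i => (h i - b i) / s i) = t),
          ‖∑ n ∈ Ico X1 (2 * X1), F h n‖ ^ 2 ≤ (N : ℝ) * (N * (vol s * H ^ 2 * W)) := by
      intro t ht
      have ht' : ∀ i, t i < q := fun i => mem_range.mp ((Fintype.mem_piFinset.mp ht) i)
      rw [d2_fib b M s q hs hpos t ht']
      exact hcube t ht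
    refine (Finset.sum_le_sum hfib).trans (le_of_eq ?_)
    rw [Finset.sum_const, Fintype.card_piFinset, nsmul_eq_mul]
    simp only [card_range, Finset.prod_const, card_univ, Fintype.card_fin]
    have hv : vol M = vol s * (q : ℝ) ^ k := by
      unfold vol
      have h1 : ∀ i, (M i : ℝ) = (s i : ℝ) * (q : ℝ) := fun i => by rw [hs i]; push_cast; ring
      simp only [h1]
      rw [Finset.prod_mul_distrib, Finset.prod_const, card_univ, Fintype.card_fin]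
    rw [hv, hX]
    push_cast
    ring

end Pool.Agent.Lib.H24Q
end

-- from Lib.H24Q.R0
section

/-!
# Project H24Q: definitions for the system with a deterministic linear coordinate (modules R, M)
-/

open Finset Polynomial

namespace Pool.Agent.Lib.H24Q

open Pool.Agent.Lib.H68T Pool.Agent.Lib.H18Q Pool.Agent.Lib.H59P Pool.Agent.Lib.H24P

noncomputable section

/-- **The property FW**: `FG` with an arbitrary weight (proved in module H59T for `L2`). -/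
def FW (C c : ℝ) (Q H0 : ℕ) {m : ℕ} {Ω : Type} (S : Finset Ω) (φ : Ω → Fin m → ℤ → ℤ) : Prop :=
  ∀ p : Fin m → Ch, (∀ i, p i ∈ PC Q) →
  ∀ T : Finset (Fin m → ℕ), T ⊆ Fintype.piFinset (fun i => KS Q (p i).1) →
  ∀ D : ℕ, 1 ≤ D → (∀ κ ∈ T, D < univ.lcm (fun i => (p i).1 * κ i)) →
  ∀ (w : ℕ → ℂ) (a H : ℕ), H0 ≤ H →
  ∑ ω ∈ S, ‖∑ n ∈ Ico a (a + H), w n * ∑ κ ∈ T, ∏ i, gk (p i) (κ i) (φ ω i (n : ℤ))‖ ^ 2 ≤
    C * (1 + Real.log Q) ^ C * S.card * (H * ∑ n ∈ Ico a (a + H), ‖w n‖ ^ 2) * (D : ℝ) ^ (-c)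

/-- The system: the deterministic linear coordinate `B` and the random coordinates `φ`. -/
def sy {k : ℕ} (B : ℤ[X]) (φ : Fin k → ℤ → ℤ) : Fin (k + 1) → ℤ → ℤ :=
  Fin.cons (fun n => B.eval n) φ

/-- All the hypotheses on a family together with the linear coordinate `B`, at the level `Q`. -/
structure FamW (C c : ℝ) (Q H0 : ℕ) (B : ℤ[X]) {k : ℕ} {Ω : Type} (S : Finset Ω)
    (φ : Ω → Fin k → ℤ → ℤ) : Prop where
  fw1 : FW C c Q H0 S φ
  fw2 : FW C c (Q ^ 2) H0 S φ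
  cp : ∀ ω ∈ S, Cp (φ ω)
  tp : ∀ ω ∈ S, ∀ l : ℕ, l.Prime → |tpf l (sy B (φ ω))| ≤ C / l

/-- The hypothesis on the family `F` with the linear coordinate `B`, for all boxes with large sides. -/
def HW (C c : ℝ) (b0 : ℕ) (B : ℤ[X]) {m g : ℕ} (F : LF m g) : Prop :=
  ∀ Q : ℕ, 2 ≤ Q → ∀ b s : Fin g → ℕ, (∀ j, Q ^ b0 ≤ s j) →
    FamW C c Q (Q ^ b0) B (cub b s) F.map

/-- The linear coordinate `2 n - 3`. -/
def B23 : ℤ[X] := C 2 * X - C 3

end

end Pool.Agent.Lib.H24Q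
end

-- from Lib.H24Q.R1
section

/-!
# Project H24Q, chunk R1 (S/M): the linear coordinate, mean values (port of `H24P/B1`, `H24P/B2`)
-/

open Finset Polynomial

namespace Pool.Agent.Lib.H24Q

open Pool.Agent.Lib.H68T Pool.Agent.Lib.H18Q Pool.Agent.Lib.H59P Pool.Agent.Lib.H24P

/-- Proof. `Fin.cases`, `Polynomial.sub_dvd_eval_sub` (compare `P2_sys`). -/
theorem R1_cp {k : ℕ} (B : ℤ[X]) (φ : Fin k → ℤ → ℤ) (hφ : Cp φ) : Cp (sy B φ) := by
  intro i q n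
  refine Fin.cases ?_ (fun j => ?_) i
  · have h1 := Polynomial.sub_dvd_eval_sub (n + q) n B
    have h2 : n + q - n = q := by ring
    rw [h2] at h1
    exact h1
  · exact hφ j q n

/-- Proof. Copy the proof of `B1_mean` (`H24P/B1.lean`) with `ran P h` replaced by `φ` and `sys B P h` by `sy B φ` (`hφ`
instead of `P2_ran`). -/
theorem R1_mean {k : ℕ} (B : ℤ[X]) (hB : B.natDegree = 1) (φ : Fin k → ℤ → ℤ) (hφ : Cp φ) (d : ℕ)
    (hd : Squarefree d) (hc : Nat.Coprime d B.leadingCoeff.natAbs) :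
    ∑ n ∈ range d, uu d.primeFactors (B.eval (n : ℤ)) * Wdf d (at' φ n) = d * tdf d (sy B φ) := by
  classical
  have hBe : ∀ x : ℤ, B.eval x = B.coeff 0 + B.leadingCoeff * x := by
    intro x
    rw [eval_eq_sum_range, hB, Finset.sum_range_succ, Finset.sum_range_one, leadingCoeff, hB]
    ring
  have hperF : ∀ (l : ℕ) (n : ℤ), (1 + gl l (B.eval (n + l))) * Wf l (at' φ (n + l)) =
      (1 + gl l (B.eval n)) * Wf l (at' φ n) := by
    intro l n
    have h1 : gl l (B.eval (n + l)) = gl l (B.eval n) :=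
      P2_gl (sy B φ) (R1_cp B φ hφ) l l dvd_rfl 0 n
    have h2 : ∀ i, gl l (φ i (n + l)) = gl l (φ i n) := fun i =>
      P2_gl φ hφ l l dvd_rfl i n
    rw [h1]
    unfold Wf at'
    simp only [h2]
  have h1 := b1_set (fun l n => (1 + gl l (B.eval n)) * Wf l (at' φ n)) hperF d.primeFactors
    (fun l hl => Nat.prime_of_mem_primeFactors hl)
  rw [Nat.prod_primeFactors_of_squarefree hd] at h1
  have h2 : ∑ n ∈ range d, uu d.primeFactors (B.eval (n : ℤ)) * Wdf d (at' φ n) =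
      ∑ n ∈ range d, ∏ l ∈ d.primeFactors, (1 + gl l (B.eval (n : ℤ))) * Wf l (at' φ n) := by
    refine Finset.sum_congr rfl fun n _ => ?_
    unfold uu Wdf
    rw [← Finset.prod_mul_distrib]
  rw [h2]
  refine h1.trans ?_
  have h3 : ∀ l ∈ d.primeFactors, ∑ n ∈ range l, (1 + gl l (B.eval (n : ℤ))) * Wf l (at' φ n) =
      l * tpf l (sy B φ) := by
    intro l hl
    have hlp := Nat.prime_of_mem_primeFactors hl
    have hl0 : (l : ℝ) ≠ 0 := by exact_mod_cast hlp.pos.ne'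
    have hna : ¬ (l : ℤ) ∣ B.leadingCoeff := by
      intro hdv
      have h4 : l ∣ B.leadingCoeff.natAbs := Int.natCast_dvd.1 hdv
      have h5 := Nat.dvd_gcd (Nat.dvd_of_mem_primeFactors hl) h4
      rw [hc] at h5
      exact hlp.one_lt.ne' (Nat.dvd_one.1 h5)
    have h6 := b1_lin l hlp B.leadingCoeff (B.coeff 0) hna
    simp only [← hBe] at h6
    have h7 : ∀ n ∈ range l, (1 + gl l (B.eval (n : ℤ))) * Wf l (at' φ n) =
        ∏ i, (1 + gl l (sy B φ i (n : ℤ))) - (1 + gl l (B.eval (n : ℤ))) := by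
      intro n _
      rw [Fin.prod_univ_succ]
      unfold Wf at' sy
      simp only [Fin.cons_zero, Fin.cons_succ]
      ring
    rw [Finset.sum_congr rfl h7, Finset.sum_sub_distrib, h6]
    unfold tpf
    field_simp
  rw [Finset.prod_congr rfl h3, Finset.prod_mul_distrib]
  unfold tdf
  congr 1
  have h8 := Nat.prod_primeFactors_of_squarefree hd
  rw [← Nat.cast_prod, h8]

/-- Proof. Copy the proof of `B2_fac` (`H24P/B2.lean`), with the same replacements, `R1_cp`, `R1_mean`. -/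
theorem R1_fac {k : ℕ} (B : ℤ[X]) (hB : B.natDegree = 1) (φ : Fin k → ℤ → ℤ) (hφ : Cp φ)
    (p : Fin (k + 1) → Ch) (R d : ℕ) (hR : 0 < R) (ha : B.leadingCoeff.natAbs ∣ R)
    (hp : ∀ i, (p i).1 ∣ R) (hd : Squarefree d) (hc : Nat.Coprime d R) :
    (∑ n ∈ range (R * d), cj (p 0) (B.eval (n : ℤ)) * ((uu (R * d).primeFactors (B.eval (n : ℤ)) : ℝ) : ℂ) *
      (Phf (fun i : Fin k => p i.succ) R.primeFactors (at' φ n) *
        ((Wdf d (at' φ n) : ℝ) : ℂ))) / ((R * d : ℕ) : ℂ) =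
    MRf p R (sy B φ) * ((tdf d (sy B φ) : ℝ) : ℂ) := by
  classical
  have hd0 : 0 < d := Nat.pos_of_ne_zero hd.ne_zero
  have hRd : (R * d).primeFactors = R.primeFactors ∪ d.primeFactors := Nat.primeFactors_mul hR.ne' hd0.ne'
  have hdis : Disjoint R.primeFactors d.primeFactors := hc.symm.disjoint_primeFactors
  have huu : ∀ m : ℤ, uu (R * d).primeFactors m = uu R.primeFactors m * uu d.primeFactors m := by
    intro m
    unfold uu
    rw [hRd, Finset.prod_union hdis]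
  have hPh : ∀ n : ℤ, cj (p 0) (B.eval n) * ((uu R.primeFactors (B.eval n) : ℝ) : ℂ) *
      Phf (fun i : Fin k => p i.succ) R.primeFactors (at' φ n) =
      Phf p R.primeFactors (at' (sy B φ) n) := by
    intro n
    unfold Phf
    rw [Fin.prod_univ_succ]
    unfold at' sy
    simp only [Fin.cons_zero, Fin.cons_succ]
  have e1 : ∀ n ∈ range (R * d), cj (p 0) (B.eval (n : ℤ)) * ((uu (R * d).primeFactors (B.eval (n : ℤ)) : ℝ) : ℂ) *
      (Phf (fun i : Fin k => p i.succ) R.primeFactors (at' φ n) *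
        ((Wdf d (at' φ n) : ℝ) : ℂ)) =
      Phf p R.primeFactors (at' (sy B φ) n) *
        ((uu d.primeFactors (B.eval (n : ℤ)) * Wdf d (at' φ n) : ℝ) : ℂ) := by
    intro n _
    rw [huu, ← hPh]
    push_cast
    ring
  have hper1 : ∀ m : ℤ, Phf p R.primeFactors (at' (sy B φ) (m + R)) =
      Phf p R.primeFactors (at' (sy B φ) m) := fun m =>
    P2_Ph (sy B φ) (R1_cp B φ hφ) p R R dvd_rfl hp m
  have hper2 : ∀ m : ℤ, ((uu d.primeFactors (B.eval (m + d)) * Wdf d (at' φ (m + d)) : ℝ) : ℂ) =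
      ((uu d.primeFactors (B.eval m) * Wdf d (at' φ m) : ℝ) : ℂ) := by
    intro m
    congr 1
    rw [P2_Wd φ hφ d d dvd_rfl m]
    congr 1
    unfold uu
    refine Finset.prod_congr rfl fun l hl => ?_
    have h1 : gl l (B.eval (m + d)) = gl l (B.eval m) :=
      P2_gl (sy B φ) (R1_cp B φ hφ) l d (Nat.dvd_of_mem_primeFactors hl) 0 m
    rw [h1]
  have key := M3d (fun n => Phf p R.primeFactors (at' (sy B φ) n))
    (fun n => ((uu d.primeFactors (B.eval n) * Wdf d (at' φ n) : ℝ) : ℂ)) R d hR hd0 hc.symm hper1 hper2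
  have h2 := R1_mean B hB φ hφ d hd (hc.coprime_dvd_right ha)
  have h3 : ∑ n ∈ range d, ((uu d.primeFactors (B.eval (n : ℤ)) * Wdf d (at' φ n) : ℝ) : ℂ) =
      (d : ℂ) * ((tdf d (sy B φ) : ℝ) : ℂ) := by
    rw [← Complex.ofReal_sum, h2]
    push_cast
    rfl
  rw [Finset.sum_congr rfl e1]
  refine (congrArg (fun z => z / ((R * d : ℕ) : ℂ)) key).trans ?_
  rw [h3]
  unfold MRf
  have hR' : (R : ℂ) ≠ 0 := by exact_mod_cast hR.ne'
  have hd' : (d : ℂ) ≠ 0 := by exact_mod_cast hd0.ne'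
  push_cast
  field_simp

end Pool.Agent.Lib.H24Q
end

-- from Lib.H24Q.D0
section

/-!
# Project H24Q, chunk D0 (M): the families `L4`, `L2`, and `L2` with the linear coordinate `2n - 3`
-/

open Finset Polynomial

namespace Pool.Agent.Lib.H24Q

open Pool.Agent.Lib.H68T Pool.Agent.Lib.H18Q Pool.Agent.Lib.H59P Pool.Agent.Lib.H24P

theorem d0_eq (l a b : ℕ) (ha : a < l) (hb : b < l) (h : (l : ℤ) ∣ (a : ℤ) - b) : a = b := by
  have h1 : (a : ℤ) ≡ b [ZMOD l] := (Int.modEq_iff_dvd.2 (by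
    obtain ⟨c, hc⟩ := h
    exact ⟨-c, by linarith⟩))
  have h2 : a ≡ b [MOD l] := (Int.natCast_modEq_iff).1 h1
  exact Nat.ModEq.eq_of_lt_of_lt h2 ha hb

theorem d0_one (f : ℤ → ℤ) (l : ℕ) (hl : l.Prime) (v w : ℤ) (hf : ∀ n, f n = v * n + w)
    (hv : v = 1 ∨ v = -1) : ((range l).filter (fun n : ℕ => (l : ℤ) ∣ f n)).card ≤ 1 := by
  rw [Finset.card_le_one]
  intro a ha b hb
  obtain ⟨ha1, ha2⟩ := mem_filter.1 ha
  obtain ⟨hb1, hb2⟩ := mem_filter.1 hb
  rw [hf] at ha2 hb2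
  refine d0_eq l a b (mem_range.1 ha1) (mem_range.1 hb1) ?_
  have h3 := dvd_sub ha2 hb2
  rcases hv with rfl | rfl
  · have h4 : (1 * (a : ℤ) + w) - (1 * (b : ℤ) + w) = (a : ℤ) - b := by ring
    rwa [h4] at h3
  · have h4 : (-1 * (a : ℤ) + w) - (-1 * (b : ℤ) + w) = -((a : ℤ) - b) := by ring
    rw [h4] at h3
    exact (dvd_neg).1 h3

theorem d0_L2 (ω : Fin 1 → ℕ) (i : Fin 2) (l : ℕ) (hl : l.Prime) :
    ((range l).filter (fun n : ℕ => (l : ℤ) ∣ L2.map ω i n)).card ≤ 1 := by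
  refine d0_one (L2.map ω i) l hl (L2.v i) (L2.u i * (ω (L2.gi i) : ℤ) + L2.t i) ?_ ?_
  · intro n
    unfold LF.map
    ring
  · fin_cases i
    · exact Or.inl rfl
    · exact Or.inr rfl

theorem d0_lin : ∀ n : ℤ, B23.eval n = 2 * n - 3 := by
  intro n
  unfold B23
  rw [eval_sub, eval_mul, eval_C, eval_X, eval_C]

theorem d0_deg : B23.natDegree = 1 := by
  unfold B23
  rw [natDegree_sub_C]
  exact natDegree_C_mul_X 2 (by norm_num)

theorem d0_lc : B23.leadingCoeff = 2 := by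
  unfold leadingCoeff
  rw [d0_deg]
  unfold B23
  rw [coeff_sub, coeff_C_mul, coeff_X_one, coeff_C, if_neg (by norm_num)]
  norm_num

theorem d0_c (C C' : ℝ) (Q : ℕ) (hC : C ≤ C') (h0 : 0 ≤ C) (hQ : 1 ≤ Q) :
    C * (1 + Real.log Q) ^ C ≤ C' * (1 + Real.log Q) ^ C' := by
  have h1 : 0 ≤ Real.log Q := Real.log_nonneg (by exact_mod_cast hQ)
  have h2 : (1 + Real.log Q) ^ C ≤ (1 + Real.log Q) ^ C' :=
    Real.rpow_le_rpow_of_exponent_le (by linarith) hC
  exact mul_le_mul hC h2 (by positivity) (h0.trans hC)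

theorem d0_fgm {C C' c : ℝ} {Q H0 H1 m : ℕ} {Ω : Type} {S : Finset Ω} {φ : Ω → Fin m → ℤ → ℤ}
    (h : FG C c Q H0 S φ) (hC : C ≤ C') (h0 : 0 ≤ C) (hH : H0 ≤ H1) (hQ : 1 ≤ Q) :
    FG C' c Q H1 S φ := by
  intro p hp T hT D hD hTD a H hH1
  refine (h p hp T hT D hD hTD a H (hH.trans hH1)).trans ?_
  refine mul_le_mul_of_nonneg_right ?_ (Real.rpow_nonneg (Nat.cast_nonneg _) _)
  refine mul_le_mul_of_nonneg_right ?_ (by positivity)
  refine mul_le_mul_of_nonneg_right ?_ (Nat.cast_nonneg _)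
  exact d0_c C C' Q hC h0 hQ

theorem d0_fwm {C C' c : ℝ} {Q H0 H1 m : ℕ} {Ω : Type} {S : Finset Ω} {φ : Ω → Fin m → ℤ → ℤ}
    (h : FW C c Q H0 S φ) (hC : C ≤ C') (h0 : 0 ≤ C) (hH : H0 ≤ H1) (hQ : 1 ≤ Q) :
    FW C' c Q H1 S φ := by
  intro p hp T hT D hD hTD w a H hH1
  refine (h p hp T hT D hD hTD w a H (hH.trans hH1)).trans ?_
  refine mul_le_mul_of_nonneg_right ?_ (Real.rpow_nonneg (Nat.cast_nonneg _) _)
  refine mul_le_mul_of_nonneg_right ?_
    (mul_nonneg (Nat.cast_nonneg _) (Finset.sum_nonneg fun n _ => by positivity))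
  refine mul_le_mul_of_nonneg_right ?_ (Nat.cast_nonneg _)
  exact d0_c C C' Q hC h0 hQ

/-- At most one zero modulo each prime. Proof. `T1_count`: the count is between `l - m` and `l`. Upper bound:
`1 + tpf ≤ (l/(l-1))^m ≤ 1 + 4^m/l` (`l/(l-1) = 1 + 1/(l-1) ≤ 1 + 2/l`, `t1_pow` of `H24P/T1.lean`). Lower bound:
`1 + tpf ≥ (l - m)/l = 1 - m/l` if `l > m` (and `≥ 0 ≥ 1 - m/l` if `l ≤ m`). So `C = 4^m + m` for instance. -/
theorem D0_tp (m : ℕ) : ∃ C : ℝ, 1 ≤ C ∧ ∀ φ : Fin m → ℤ → ℤ,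
    (∀ i, ∀ l : ℕ, l.Prime → ((range l).filter (fun n : ℕ => (l : ℤ) ∣ φ i n)).card ≤ 1) →
    ∀ l : ℕ, l.Prime → |tpf l φ| ≤ C / l := by
  classical
  refine ⟨2 * 2 ^ m + m, ?_, ?_⟩
  · have h1 : (1 : ℝ) ≤ 2 ^ m := one_le_pow₀ (by norm_num)
    have h2 : (0 : ℝ) ≤ m := Nat.cast_nonneg _
    linarith
  intro φ hφ l hl
  have h2k : (1 : ℝ) ≤ 2 ^ m := one_le_pow₀ (by norm_num)
  have hm0 : (0 : ℝ) ≤ m := Nat.cast_nonneg _
  have hl2 : (2 : ℝ) ≤ l := by exact_mod_cast hl.two_le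
  have hl0 : (0 : ℝ) < l := by linarith
  have hl1 : (0 : ℝ) < l - 1 := by linarith
  obtain ⟨e1, e2⟩ := P0_tp l hl φ
  rw [abs_le]
  constructor
  · set good := (range l).filter (fun n : ℕ => ∀ i, ¬ (l : ℤ) ∣ φ i n) with hgood
    set bad := univ.biUnion (fun i : Fin m => (range l).filter
      (fun n : ℕ => (l : ℤ) ∣ φ i n)) with hbad
    have hb : bad.card ≤ m := by
      refine card_biUnion_le.trans ?_
      calc ∑ i : Fin m, ((range l).filter (fun n : ℕ => (l : ℤ) ∣ φ i n)).card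
          ≤ ∑ _i : Fin m, 1 := Finset.sum_le_sum fun i _ => hφ i l hl
        _ = m := by
            rw [Finset.sum_const, card_univ, Fintype.card_fin, smul_eq_mul, mul_one]
    have hcov : l ≤ good.card + bad.card := by
      have h1 : range l ⊆ good ∪ bad := by
        intro n hn
        by_cases h2 : ∀ i, ¬ (l : ℤ) ∣ φ i n
        · exact mem_union_left _ (mem_filter.2 ⟨hn, h2⟩)
        · push Not at h2
          obtain ⟨i, hi⟩ := h2
          exact mem_union_right _ (mem_biUnion.2 ⟨i, mem_univ i, mem_filter.2 ⟨hn, hi⟩⟩)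
      have h2 := (card_le_card h1).trans (card_union_le _ _)
      rwa [card_range] at h2
    have h3 : (l : ℝ) ≤ good.card + m := by
      have h4 : l ≤ good.card + m := by omega
      exact_mod_cast h4
    have h5 := T1_count l hl φ
    rw [← hgood] at h5
    have h6 : (1 : ℝ) ≤ ((l : ℝ) / (l - 1)) ^ m := one_le_pow₀ (M3a_ratio l hl)
    have h7 : (0 : ℝ) ≤ (good.card : ℝ) / l := by positivity
    have h8 : (good.card : ℝ) / l * 1 ≤ (good.card : ℝ) / l * ((l : ℝ) / (l - 1)) ^ m :=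
      mul_le_mul_of_nonneg_left h6 h7
    have h9 : 1 - m / (l : ℝ) ≤ (good.card : ℝ) / l := by
      rw [le_div_iff₀ hl0]
      have h10 : (1 - m / (l : ℝ)) * l = l - m := by field_simp
      rw [h10]
      linarith
    have h11 : (0 : ℝ) ≤ 2 * 2 ^ m / (l : ℝ) := by positivity
    rw [add_div]
    linarith
  · have h1 : (l : ℝ) / (l - 1) = 1 + 1 / ((l : ℝ) - 1) := by
      field_simp
      ring
    have h2 : 1 / ((l : ℝ) - 1) ≤ 1 := by
      rw [div_le_one hl1]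
      linarith
    have h3 := t1_pow m (1 / ((l : ℝ) - 1)) (by positivity) h2
    rw [← h1] at h3
    have h4 : 1 / ((l : ℝ) - 1) ≤ 2 / l := by
      rw [div_le_div_iff₀ hl1 hl0]
      linarith
    have h5 : ((2 : ℝ) ^ m - 1) * (1 / ((l : ℝ) - 1)) ≤ 2 ^ m * (2 / l) := by
      refine mul_le_mul (by linarith) h4 (by positivity) (by linarith)
    have h6 : (2 : ℝ) ^ m * (2 / l) ≤ (2 * 2 ^ m + m) / l := by
      rw [← mul_div_assoc]
      refine div_le_div_of_nonneg_right ?_ hl0.le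
      linarith
    linarith

/-- Proof. Definitions. -/
theorem D0_cp {m g : ℕ} (F : LF m g) (ω : Fin g → ℕ) : Cp (F.map ω) := by
  intro i q n
  exact ⟨F.v i, by unfold LF.map; ring⟩

/-- Proof. `D0_tp`, `D0_cp`; `l` divides at most one of the numbers `x + n`, `n < l` (`x - n` likewise). -/
theorem D0_fb4 : ∃ C : ℝ, 1 ≤ C ∧ ∀ S : Finset (Fin 2 → ℕ), FB C S L4.map := by
  obtain ⟨C, hC, h⟩ := D0_tp 4
  refine ⟨C, hC, fun S => ⟨fun ω _ => D0_cp L4 ω, fun ω _ l hl => h _ (fun i l hl => ?_) l hl⟩⟩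
  refine d0_one (L4.map ω i) l hl (L4.v i) (L4.u i * (ω (L4.gi i) : ℤ) + L4.t i) ?_ ?_
  · intro n
    unfold LF.map
    ring
  · fin_cases i
    · exact Or.inl rfl
    · exact Or.inr rfl
    · exact Or.inl rfl
    · exact Or.inr rfl

/-- Proof. As `D0_fb4`. -/
theorem D0_fb2 : ∃ C : ℝ, 1 ≤ C ∧ ∀ S : Finset (Fin 1 → ℕ), FB C S L2.map := by
  obtain ⟨C, hC, h⟩ := D0_tp 2
  refine ⟨C, hC, fun S => ⟨fun ω _ => D0_cp L2 ω, fun ω _ l hl => h _ (fun i l hl => ?_) l hl⟩⟩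
  exact d0_L2 ω i l hl

/-- Proof. As `D0_fb4`, with three coordinates (`Fin.cons`, `Fin.cases`): `2 n - 3` is odd, and for an odd prime `l`
at most one `n < l` satisfies `l ∣ 2 n - 3`. -/
theorem D0_fw2 : ∃ C : ℝ, 1 ≤ C ∧ ∀ (ω : Fin 1 → ℕ) (l : ℕ), l.Prime →
    |tpf l (sy B23 (L2.map ω))| ≤ C / l := by
  obtain ⟨C, hC, h⟩ := D0_tp 3
  refine ⟨C, hC, fun ω l hl => h _ (fun i l hl => ?_) l hl⟩
  refine Fin.cases ?_ (fun i => ?_) i
  · show ((range l).filter (fun n : ℕ => (l : ℤ) ∣ B23.eval (n : ℤ))).card ≤ 1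
    rw [Finset.card_le_one]
    intro a ha b hb
    obtain ⟨ha1, ha2⟩ := mem_filter.1 ha
    obtain ⟨hb1, hb2⟩ := mem_filter.1 hb
    rw [d0_lin] at ha2 hb2
    have h2 : (l : ℤ) ∣ 2 * ((a : ℤ) - b) := by
      have h3 := dvd_sub ha2 hb2
      have h4 : (2 * (a : ℤ) - 3) - (2 * (b : ℤ) - 3) = 2 * ((a : ℤ) - b) := by ring
      rwa [h4] at h3
    have hlp : Prime (l : ℤ) := Nat.prime_iff_prime_int.1 hl
    have hl2 : ¬ (l : ℤ) ∣ 2 := by
      intro h3
      have h4 : (l : ℤ) ∣ 2 * (a : ℤ) := Dvd.dvd.mul_right h3 _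
      have h5 : (l : ℤ) ∣ 3 := by
        have h6 := dvd_sub h4 ha2
        have h7 : 2 * (a : ℤ) - (2 * (a : ℤ) - 3) = 3 := by ring
        rwa [h7] at h6
      have h8 : (l : ℤ) ∣ 1 := by
        have h9 := dvd_sub h5 h3
        norm_num at h9
        exact h9
      exact hlp.not_dvd_one h8
    have h5 := (hlp.dvd_or_dvd h2).resolve_left hl2
    exact d0_eq l a b (mem_range.1 ha1) (mem_range.1 hb1) h5
  · exact d0_L2 ω i l hl

/-- Proof. `B23 = 2 X - 3`. -/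
theorem D0_lin : Lin 2 B23 ∧ B23.leadingCoeff = 2 ∧ ∀ n : ℤ, B23.eval n = 2 * n - 3 := by
  refine ⟨⟨?_, ?_, ?_⟩, ?_, d0_lin⟩
  · exact d0_deg
  · rw [d0_lc]
    norm_num
  · have h0 : B23.coeff 0 = -3 := by
      unfold B23
      rw [coeff_sub, coeff_C_mul, coeff_X_zero, coeff_C_zero]
      norm_num
    have h1 : B23.coeff 1 = 2 := by
      have h2 := d0_lc
      unfold leadingCoeff at h2
      rwa [d0_deg] at h2
    rw [h0, h1]
    exact ⟨-1, -1, by norm_num⟩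
  · exact d0_lc

/-- Proof. `B' = 2 B`: the property at the level `Q` with `Q^B ≤ Q^(2B)`, and at the level `Q²` with
`(Q²)^B = Q^(2B)`. `C' = max C C0`; `C (1 + log Q)^C` is monotone in `C` (`1 ≤ 1 + log Q`). -/
theorem D0_HF {m g : ℕ} (F : LF m g) (C c C0 : ℝ) (B : ℕ) (hC : 1 ≤ C) (hC0 : 1 ≤ C0)
    (hfb : ∀ S : Finset (Fin g → ℕ), FB C0 S F.map)
    (h : ∀ Q : ℕ, 2 ≤ Q → ∀ b s : Fin g → ℕ, (∀ j, Q ^ B ≤ s j) → FG C c Q (Q ^ B) (cub b s) F.map) :
    HF (max C C0) c (2 * B) F := by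
  intro Q hQ b s hs
  have hQ1 : 1 ≤ Q := by omega
  have hB : Q ^ B ≤ Q ^ (2 * B) := Nat.pow_le_pow_right (by omega) (by omega)
  have e2 : (Q ^ 2) ^ B = Q ^ (2 * B) := (pow_mul Q 2 B).symm
  have hQ2 : 2 ≤ Q ^ 2 := by nlinarith
  refine ⟨?_, ?_, ?_⟩
  · exact d0_fgm (h Q hQ b s (fun j => hB.trans (hs j))) (le_max_left _ _) (by linarith) hB hQ1
  · exact d0_fgm (h (Q ^ 2) hQ2 b s (fun j => by rw [e2]; exact hs j)) (le_max_left _ _)
      (by linarith) e2.le (by omega)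
  · have h1 := hfb (cub b s)
    refine ⟨h1.cp, fun ω hω l hl => (h1.tp ω hω l hl).trans ?_⟩
    exact div_le_div_of_nonneg_right (le_max_right _ _) (Nat.cast_nonneg _)

/-- Proof. As `D0_HF`. -/
theorem D0_HW {m g : ℕ} (F : LF m g) (P : ℤ[X]) (C c C0 : ℝ) (B : ℕ) (hC : 1 ≤ C) (hC0 : 1 ≤ C0)
    (htp : ∀ (ω : Fin g → ℕ) (l : ℕ), l.Prime → |tpf l (sy P (F.map ω))| ≤ C0 / l)
    (h : ∀ Q : ℕ, 2 ≤ Q → ∀ b s : Fin g → ℕ, (∀ j, Q ^ B ≤ s j) → FW C c Q (Q ^ B) (cub b s) F.map) :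
    HW (max C C0) c (2 * B) P F := by
  intro Q hQ b s hs
  have hQ1 : 1 ≤ Q := by omega
  have hB : Q ^ B ≤ Q ^ (2 * B) := Nat.pow_le_pow_right (by omega) (by omega)
  have e2 : (Q ^ 2) ^ B = Q ^ (2 * B) := (pow_mul Q 2 B).symm
  have hQ2 : 2 ≤ Q ^ 2 := by nlinarith
  refine ⟨?_, ?_, fun ω _ => D0_cp F ω, ?_⟩
  · exact d0_fwm (h Q hQ b s (fun j => hB.trans (hs j))) (le_max_left _ _) (by linarith) hB hQ1
  · exact d0_fwm (h (Q ^ 2) hQ2 b s (fun j => by rw [e2]; exact hs j)) (le_max_left _ _)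
      (by linarith) e2.le (by omega)
  · intro ω hω l hl
    exact (htp ω l hl).trans (div_le_div_of_nonneg_right (le_max_right _ _) (Nat.cast_nonneg _))

end Pool.Agent.Lib.H24Q
end
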