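import Pool.Agent.Lib.H1M.RV2.M073
import Pool.Agent.Lib.H1M.RV2.M078
import Pool.Agent.Lib.H1M.RV2.M079

/-! Merged copies (to shorten the build) of Lib.H24Q.A2, Lib.H24Q.B1. -/

-- from Lib.H24Q.A2
section

/-!
# Project H24Q, chunk A2 (M): truncation of the singular series from FG (compare H24P/T2, T3, T5)
-/

open Finset

namespace Pool.Agent.Lib.H24Q

open Pool.Agent.Lib.H68T Pool.Agent.Lib.H18Q Pool.Agent.Lib.H59P Pool.Agent.Lib.H24P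

/-- Proof. `P1_Wd` for each `d ∈ Δ` (compare `T2_iden` in `H24P/T2.lean`), so the inner sum is `∑_{d ∈ Δ} Wdf d (at' φ n)`;
`d ∣ N`, so the sum over `n < N` is `(N/d)` periods (`P2_Wd`), each with sum `d tdf d φ` (`A1_mean`). -/
theorem A2_iden {m : ℕ} (φ : Fin m → ℤ → ℤ) (hφ : Cp φ) (Z N : ℕ) (Δ : Finset ℕ)
    (hΔ : ∀ d ∈ Δ, Squarefree d ∧ d ≤ Z ∧ d ∣ N) :
    ∑ n ∈ Ico 0 (0 + N), ∑ κ ∈ (Fintype.piFinset fun _ : Fin m => KS Z 1).filter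
        (fun κ => univ.lcm κ ∈ Δ), ∏ i, gk p0 (κ i) (φ i (n : ℤ)) =
      (N : ℂ) * ((∑ d ∈ Δ, tdf d φ : ℝ) : ℂ) := by
  have h1 : ∀ n ∈ Ico 0 (0 + N), ∑ κ ∈ (Fintype.piFinset fun _ : Fin m => KS Z 1).filter
        (fun κ => univ.lcm κ ∈ Δ), ∏ i, gk p0 (κ i) (φ i ((n : ℕ) : ℤ)) =
      ∑ d ∈ Δ, ((Wdf d (at' φ ((n : ℕ) : ℤ)) : ℝ) : ℂ) := by
    intro n _
    have h2 := t2_comp Z Δ (fun d hd => ⟨(hΔ d hd).1, (hΔ d hd).2.1⟩) (at' φ ((n : ℕ) : ℤ))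
    rw [Complex.ofReal_sum] at h2
    exact h2
  rw [Finset.sum_congr rfl h1, Finset.sum_comm, Complex.ofReal_sum, Finset.mul_sum]
  refine Finset.sum_congr rfl fun d hd => ?_
  obtain ⟨hsq, -, j, hj⟩ := hΔ d hd
  have hper : ∀ n : ℤ, (fun n : ℤ => ((Wdf d (at' φ n) : ℝ) : ℂ)) (n + d) = (fun n : ℤ => ((Wdf d (at' φ n) : ℝ) : ℂ)) n := by
    intro n
    show ((Wdf d (at' φ (n + d)) : ℝ) : ℂ) = ((Wdf d (at' φ n) : ℝ) : ℂ)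
    rw [P2_Wd φ hφ d d dvd_rfl n]
  have h3 := t2_per (fun n : ℤ => ((Wdf d (at' φ n) : ℝ) : ℂ)) d hper j
  rw [← hj] at h3
  have h4 : ∑ n ∈ range d, ((Wdf d (at' φ (n : ℤ)) : ℝ) : ℂ) = d * ((tdf d φ : ℝ) : ℂ) := by
    rw [← Complex.ofReal_sum, A1_mean φ hφ d hsq]
    push_cast
    rfl
  refine h3.trans ?_
  have h5 : ∑ n ∈ range d, (fun n : ℤ => ((Wdf d (at' φ n) : ℝ) : ℂ)) n = d * ((tdf d φ : ℝ) : ℂ) := h4
  rw [h5, hj]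
  push_cast
  ring

/-- Proof. `N = (Q^2)! (H0 + 1)`, `Z = Q^2`: `A2_iden`, and `FG` at the level `Q^2` with `p = p0`, `D = E`, `a = 0`,
`H = N ≥ H0` (`univ.lcm (fun i => 1 * κ i) ∈ Δ`, so it is `> E`); divide by `N²`. `1 + log Q² ≤ 2 (1 + log Q)`,
`(2 x)^C = 2^C x^C`. -/
theorem A2_ms {C c : ℝ} (hC : 1 ≤ C) {Q H0 : ℕ} (hQ : 1 ≤ Q) {m : ℕ} {Ω : Type} {S : Finset Ω}
    {φ : Ω → Fin m → ℤ → ℤ} (hF : Fam C c Q H0 S φ) (Δ : Finset ℕ) (E : ℕ) (hE : 1 ≤ E)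
    (hΔ : ∀ d ∈ Δ, Squarefree d ∧ E < d ∧ d ≤ Q ^ 2) :
    ∑ ω ∈ S, (∑ d ∈ Δ, tdf d (φ ω)) ^ 2 ≤
      C * 2 ^ C * (1 + Real.log Q) ^ C * S.card * (E : ℝ) ^ (-c) := by
  classical
  have hQr : (1 : ℝ) ≤ Q := by exact_mod_cast hQ
  have hlQ : 0 ≤ Real.log Q := Real.log_nonneg hQr
  have hQ2 : 1 ≤ Q ^ 2 := Nat.one_le_pow _ _ (by omega)
  obtain ⟨N, hN⟩ : ∃ N : ℕ, N = (Q ^ 2).factorial * (H0 + 1) := ⟨_, rfl⟩
  have hN0 : 0 < N := by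
    rw [hN]
    exact Nat.mul_pos (Nat.factorial_pos _) (Nat.succ_pos _)
  have hNH : H0 ≤ N := by
    rw [hN]
    exact (Nat.le_succ H0).trans (Nat.le_mul_of_pos_left _ (Nat.factorial_pos _))
  have hNr : (0 : ℝ) < N := by exact_mod_cast hN0
  have hΔ' : ∀ d ∈ Δ, Squarefree d ∧ d ≤ Q ^ 2 ∧ d ∣ N := by
    intro d hd
    obtain ⟨h1, h2, h3⟩ := hΔ d hd
    refine ⟨h1, h3, ?_⟩
    rw [hN]
    exact (Nat.dvd_factorial (by omega) h3).mul_right _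
  obtain ⟨T, hT⟩ : ∃ T : Finset (Fin m → ℕ), T = (Fintype.piFinset fun _ : Fin m => KS (Q ^ 2) 1).filter
    (fun κ => univ.lcm κ ∈ Δ) := ⟨_, rfl⟩
  have hFg := hF.fg2 (fun _ => p0) (fun _ => p0_mem hQ2) T (by rw [hT]; exact filter_subset _ _) E hE
    (by
      intro κ hκ
      rw [hT] at hκ
      have h1 := (mem_filter.mp hκ).2
      have h2 : (fun i => (p0).1 * κ i) = κ := by
        funext i
        exact one_mul _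
      rw [h2]
      exact (hΔ _ h1).2.1)
    0 N hNH
  have hL : ∀ ω ∈ S, ‖∑ n ∈ Ico 0 (0 + N), ∑ κ ∈ T, ∏ i, gk p0 (κ i) (φ ω i (n : ℤ))‖ ^ 2 =
      (N : ℝ) ^ 2 * (∑ d ∈ Δ, tdf d (φ ω)) ^ 2 := by
    intro ω hω
    rw [hT, A2_iden (φ ω) (hF.fb.cp ω hω) (Q ^ 2) N Δ hΔ', norm_mul, Complex.norm_natCast, Complex.norm_real,
      mul_pow, Real.norm_eq_abs, sq_abs]
  have hlog2 : Real.log ((Q ^ 2 : ℕ) : ℝ) = 2 * Real.log Q := by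
    rw [Nat.cast_pow, Real.log_pow]
    norm_num
  have hE0 : (0 : ℝ) ≤ (E : ℝ) ^ (-c) := Real.rpow_nonneg (Nat.cast_nonneg E) _
  have hpw : (1 + Real.log ((Q ^ 2 : ℕ) : ℝ)) ^ C ≤ 2 ^ C * (1 + Real.log Q) ^ C := by
    rw [hlog2, ← Real.mul_rpow (by norm_num) (by linarith)]
    exact Real.rpow_le_rpow (by linarith) (by linarith) (by linarith)
  have hb1 : (N : ℝ) ^ 2 * ∑ ω ∈ S, (∑ d ∈ Δ, tdf d (φ ω)) ^ 2 ≤
      (N : ℝ) ^ 2 * (C * 2 ^ C * (1 + Real.log Q) ^ C * S.card * (E : ℝ) ^ (-c)) := by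
    rw [mul_sum, ← sum_congr rfl hL]
    refine hFg.trans ?_
    have hS0 : (0 : ℝ) ≤ S.card := Nat.cast_nonneg _
    calc C * (1 + Real.log ((Q ^ 2 : ℕ) : ℝ)) ^ C * S.card * (N : ℝ) ^ 2 * (E : ℝ) ^ (-c)
        ≤ C * (2 ^ C * (1 + Real.log Q) ^ C) * S.card * (N : ℝ) ^ 2 * (E : ℝ) ^ (-c) := by
          gcongr
      _ = _ := by ring
  exact le_of_mul_le_mul_left hb1 (by positivity)

/-- **A2.** Proof. As `T5_main` (`H24P/T5.lean`): `t5_point`, `t5_mink`, `t5_harm`, `t5_mv` (with `a = 1`), `A2_ms`, `G1_size`,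
`G1_rlog`. (`c > 0`, `C ≥ 1` given.) -/
theorem A2_TM (m : ℕ) (C c : ℝ) (hC : 1 ≤ C) (hc : 0 < c) : ∃ c' : ℝ, 0 < c' ∧ ∃ Q0 : ℕ, ∀ Q : ℕ,
    Q0 ≤ Q → ∀ (H0 : ℕ) (Ω : Type) (S : Finset Ω) (φ : Ω → Fin m → ℤ → ℤ), Fam C c Q H0 S φ →
    ∀ R : ℕ, 1 ≤ R → R ≤ fl Q (1 / 16) →
    ∑ ω ∈ S, (∑ d ∈ SF (fl Q (1 / 2) / R) R, tdf d (φ ω) -
      SSf ((pr Q).filter (fun l => ¬ l ∣ R)) (φ ω)) ^ 2 ≤ S.card * (Q : ℝ) ^ (-c') := by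
  obtain ⟨Q1, hQ1, hlog⟩ := G1_rlog ((1 + C * 500 ^ m) ^ 2 * (C * 2 ^ C)) (2 * (m + 1) + C) (c / 8)
    (by linarith)
  obtain ⟨Q2, hQ2, hsize⟩ := G1_size 1
  refine ⟨c / 8, by linarith, max 3 (max Q1 Q2), fun Q hQ H0 Ω S φ hF R hR1 hR => ?_⟩
  have hQ3 : 3 ≤ Q := (le_max_left _ _).trans hQ
  have hQQ1 : Q1 ≤ Q := (le_max_left _ _).trans ((le_max_right _ _).trans hQ)
  have hQQ2 : Q2 ≤ Q := (le_max_right _ _).trans ((le_max_right _ _).trans hQ)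
  have hQr : (1 : ℝ) ≤ Q := by exact_mod_cast (show 1 ≤ Q by omega)
  have hQ0 : (0 : ℝ) < Q := by linarith
  have hL : 0 ≤ Real.log Q := Real.log_nonneg hQr
  obtain ⟨-, -, -, hEE, hEbig⟩ := hsize Q hQQ2 1 1 le_rfl le_rfl (by rw [one_pow]; omega)
  have hEb := hEbig R hR1 hR
  have hone : (1 : ℝ) ≤ (Q : ℝ) ^ (1 / 4 : ℝ) := Real.one_le_rpow hQr (by norm_num)
  have hE1 : 1 ≤ fl Q (1 / 2) / R := by exact_mod_cast hone.trans hEb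
  have hEQ : fl Q (1 / 2) / R ≤ Q := by
    refine (Nat.div_le_self _ _).trans ?_
    exact G1_le (by omega) (by norm_num) (by norm_num)
  set E := fl Q (1 / 2) / R with hE
  set P' := (pr Q).filter (fun l => ¬ l ∣ R) with hP'
  have hsub : P' ⊆ pr Q := Finset.filter_subset _ _
  have hS0 : (0 : ℝ) ≤ S.card := Nat.cast_nonneg _
  have hE0 : (0 : ℝ) < E := by exact_mod_cast hE1
  have hmvs : ∀ j, j ≤ Q → ∑ ω ∈ S, (∑ d ∈ mv P' j E, tdf d (φ ω)) ^ 2 ≤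
      C * 2 ^ C * (1 + Real.log Q) ^ C * S.card * (E : ℝ) ^ (-c) := fun j hj =>
    A2_ms hC (by omega) hF (mv P' j E) E hE1 fun d hd =>
      ⟨(t5_mv hEQ (one_dvd R) hj d hd).1, (t5_mv hEQ (one_dvd R) hj d hd).2.1, (t5_mv hEQ (one_dvd R) hj d hd).2.2.1⟩
  have hW : 0 ≤ C * 2 ^ C * (1 + Real.log Q) ^ C * S.card * (E : ℝ) ^ (-c) := by
    have : 0 ≤ (1 + Real.log Q) ^ C := Real.rpow_nonneg (by linarith) _
    have : 0 ≤ (E : ℝ) ^ (-c) := Real.rpow_nonneg hE0.le _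
    positivity
  have hkey := t5_mink S P' (fun q => C / q * (500 * Real.log Q) ^ m)
    (fun q _ => by positivity)
    (fun ω => ∑ n ∈ mv P' Q E, tdf n (φ ω))
    (fun q ω => ∑ n ∈ mv P' (q - 1) E, tdf n (φ ω))
    (fun ω => ∑ d ∈ SF E R, tdf d (φ ω) - SSf P' (φ ω))
    ((1 + C * 500 ^ m) * (1 + Real.log Q) ^ (m + 1)) _ hW ?_ (hmvs Q le_rfl)
    (fun q hq => hmvs (q - 1) ?_) (fun ω hω => t5_point (φ ω) C (fun l hl => hF.fb.tp ω hω l hl)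
      (by omega) hE1 hEQ hR1)
  · refine hkey.trans ?_
    have e1 : (E : ℝ) ^ (-c) ≤ (Q : ℝ) ^ (-(c / 4)) := by
      calc (E : ℝ) ^ (-c) ≤ ((Q : ℝ) ^ (1 / 4 : ℝ)) ^ (-c) :=
            Real.rpow_le_rpow_of_nonpos (by linarith) hEb (by linarith)
        _ = (Q : ℝ) ^ (-(c / 4)) := by
            rw [← Real.rpow_mul hQ0.le]
            congr 1
            ring
    have e2 := hlog Q hQQ1
    have e3 : ((1 + C * 500 ^ m) * (1 + Real.log Q) ^ (m + 1)) ^ 2 *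
        (C * 2 ^ C * (1 + Real.log Q) ^ C) =
        (1 + C * 500 ^ m) ^ 2 * (C * 2 ^ C) * (1 + Real.log Q) ^ (2 * ((m : ℝ) + 1) + C) := by
      have hp : 0 < 1 + Real.log Q := by linarith
      have e4 : (1 + Real.log Q) ^ (2 * ((m : ℝ) + 1) + C) =
          ((1 + Real.log Q) ^ (m + 1)) ^ 2 * (1 + Real.log Q) ^ C := by
        rw [Real.rpow_add hp]
        congr 1
        rw [← pow_mul, ← Real.rpow_natCast]
        congr 1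
        push_cast
        ring
      rw [e4]
      ring
    calc ((1 + C * 500 ^ m) * (1 + Real.log Q) ^ (m + 1)) ^ 2 *
          (C * 2 ^ C * (1 + Real.log Q) ^ C * S.card * (E : ℝ) ^ (-c))
        = (((1 + C * 500 ^ m) * (1 + Real.log Q) ^ (m + 1)) ^ 2 *
          (C * 2 ^ C * (1 + Real.log Q) ^ C)) * S.card * (E : ℝ) ^ (-c) := by ring
      _ ≤ (Q : ℝ) ^ (c / 8) * S.card * (Q : ℝ) ^ (-(c / 4)) := by
          rw [e3]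
          refine mul_le_mul (mul_le_mul_of_nonneg_right e2 hS0) e1 (Real.rpow_nonneg hE0.le _) ?_
          exact mul_nonneg (Real.rpow_nonneg hQ0.le _) hS0
      _ = S.card * ((Q : ℝ) ^ (c / 8) * (Q : ℝ) ^ (-(c / 4))) := by ring
      _ = S.card * (Q : ℝ) ^ (-(c / 8)) := by
          rw [← Real.rpow_add hQ0]
          congr 2
          ring
  · have f1 := t5_harm Q P' hsub
    have f2 : ∑ q ∈ P', C / (q : ℝ) * (500 * Real.log Q) ^ m =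
        (C * (500 * Real.log Q) ^ m) * ∑ q ∈ P', 1 / (q : ℝ) := by
      rw [Finset.mul_sum]
      refine Finset.sum_congr rfl fun q _ => ?_
      ring
    rw [f2]
    have f3 : (500 * Real.log Q) ^ m ≤ 500 ^ m * (1 + Real.log Q) ^ m := by
      rw [mul_pow]
      refine mul_le_mul_of_nonneg_left ?_ (by positivity)
      exact pow_le_pow_left₀ hL (by linarith) _
    have f4 : (1 : ℝ) ≤ (1 + Real.log Q) ^ (m + 1) := one_le_pow₀ (by linarith)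
    have f6 : C * (500 * Real.log Q) ^ m * ∑ q ∈ P', 1 / (q : ℝ) ≤
        C * (500 ^ m * (1 + Real.log Q) ^ m) * (1 + Real.log Q) := by
      refine mul_le_mul (mul_le_mul_of_nonneg_left f3 (by linarith)) f1 ?_ ?_
      · exact Finset.sum_nonneg fun q _ => by positivity
      · have : 0 ≤ 1 + Real.log Q := by linarith
        positivity
    calc 1 + C * (500 * Real.log Q) ^ m * ∑ q ∈ P', 1 / (q : ℝ)
        ≤ (1 + Real.log Q) ^ (m + 1) +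
          C * (500 ^ m * (1 + Real.log Q) ^ m) * (1 + Real.log Q) := add_le_add f4 f6
      _ = (1 + C * 500 ^ m) * (1 + Real.log Q) ^ (m + 1) := by ring
  · have h7 := (Finset.mem_Icc.1 (Finset.mem_filter.1 (hsub hq)).1).2
    omega

end Pool.Agent.Lib.H24Q
end

-- from Lib.H24Q.B1
section

/-!
# Project H24Q, chunk B1 (M): tuples of characters (compare H24P/Z1S, Z1L, H59P/Z1D, Z1E)
-/

open Finset

namespace Pool.Agent.Lib.H24Q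

open Pool.Agent.Lib.H68T Pool.Agent.Lib.H18Q Pool.Agent.Lib.H59P Pool.Agent.Lib.H24P

theorem b1_sq (x y : ℂ) : ‖x + y‖ ^ 2 ≤ 2 * ‖x‖ ^ 2 + 2 * ‖y‖ ^ 2 := by
  have h1 : ‖x + y‖ ≤ ‖x‖ + ‖y‖ := norm_add_le x y
  have h2 : 0 ≤ ‖x + y‖ := norm_nonneg _
  nlinarith [sq_nonneg (‖x‖ - ‖y‖)]

theorem b1_prod {m : ℕ} (Q : ℕ) (p : Fin m → Ch) (v : Fin m → ℤ) :
    ∏ i, Fc Q (p i) (v i) =
      ∑ κ ∈ Fintype.piFinset (fun i => KS Q (p i).1), ∏ i, gk (p i) (κ i) (v i) := by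
  unfold Fc
  rw [Finset.prod_univ_sum]

theorem b1_lcm {m : ℕ} {Q : ℕ} {p : Fin m → Ch} (hp : ∀ i, p i ∈ PC Q) {κ : Fin m → ℕ}
    (hκ : κ ∈ Fintype.piFinset (fun i => KS Q (p i).1)) :
    0 < univ.lcm (fun i => (p i).1 * κ i) := by
  rw [Fintype.mem_piFinset] at hκ
  refine Nat.pos_of_ne_zero ?_
  rw [Finset.lcm_ne_zero_iff]
  intro i _
  have e1 := (mem_PC.1 (hp i)).1
  have e2 := (CA_mem_KS.1 (hκ i)).1.1
  have := Nat.mul_pos e1 e2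
  omega

/-- The numerical estimate of the part with large moduli. -/
theorem b1_num {C δ x : ℝ} (hC : 0 ≤ C) {Q D H : ℕ} {s : ℝ} (hs : 0 ≤ s) (hQ : 1 ≤ Q)
    (hl : 4 * C * (1 + Real.log Q) ^ C ≤ (Q : ℝ) ^ δ) (hD : (D : ℝ) ^ (-x) ≤ (Q : ℝ) ^ (-(2 * δ))) :
    C * (1 + Real.log Q) ^ C * s * (H : ℝ) ^ 2 * (D : ℝ) ^ (-x) ≤
      1 / 4 * (s * (H : ℝ) ^ 2 * (Q : ℝ) ^ (-δ)) := by
  have hQ1 : (1 : ℝ) ≤ Q := by exact_mod_cast hQ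
  have hQ0 : (0 : ℝ) < Q := by linarith
  have hlQ : 0 ≤ Real.log Q := Real.log_nonneg hQ1
  calc C * (1 + Real.log Q) ^ C * s * (H : ℝ) ^ 2 * (D : ℝ) ^ (-x)
      ≤ C * (1 + Real.log Q) ^ C * s * (H : ℝ) ^ 2 * (Q : ℝ) ^ (-(2 * δ)) :=
        mul_le_mul_of_nonneg_left hD (by positivity)
    _ = 1 / 4 * (s * (H : ℝ) ^ 2 * ((4 * C * (1 + Real.log Q) ^ C) * (Q : ℝ) ^ (-(2 * δ)))) := by ring
    _ ≤ 1 / 4 * (s * (H : ℝ) ^ 2 * ((Q : ℝ) ^ δ * (Q : ℝ) ^ (-(2 * δ)))) := by gcongr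
    _ = 1 / 4 * (s * (H : ℝ) ^ 2 * (Q : ℝ) ^ (-δ)) := by
        rw [← Real.rpow_add hQ0]
        congr 3
        ring

/-- Small modulus. Proof. `R = Rf m0 p ≤ D1 = fl Q (1/16)`, `D = fl Q (1/2)`, `D² ≤ Q`. `∏ Fc = ∑_κ ∏ gk`
(`Finset.prod_univ_sum`). The `κ` with `lcm(R, κ) ≤ D`: `A1_M4`, for each `ω`: error `≤ 2 D² (2(1+log Q))^(2m) ≤ Q^2`, and
`Q^4 ≤ H`. For the others `D/R < lcm κ ≤ lcm(r_i κ_i)`: `FG` at the level `Q` with `D/R ≥ Q^(1/4)`. -/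
theorem B1_small (m : ℕ) (C c : ℝ) (hC : 1 ≤ C) (hc : 0 < c) : ∃ c' : ℝ, 0 < c' ∧ ∃ Q0 : ℕ, ∀ Q : ℕ,
    Q0 ≤ Q → ∀ (H0 : ℕ) (Ω : Type) (S : Finset Ω) (φ : Ω → Fin m → ℤ → ℤ), Fam C c Q H0 S φ →
    ∀ m0 : ℕ, 1 ≤ m0 → ∀ p ∈ TSf m Q (fl Q (1 / 16)) m0, ∀ a H : ℕ, H0 ≤ H → Q ^ 4 ≤ H →
    ∑ ω ∈ S, ‖∑ n ∈ Ico a (a + H), ∏ i, Fc Q (p i) (φ ω i (n : ℤ)) -
      H * (MRf p (Rf m0 p) (φ ω) *
        ((∑ d ∈ SF (fl Q (1 / 2) / Rf m0 p) (Rf m0 p), tdf d (φ ω) : ℝ) : ℂ))‖ ^ 2 ≤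
      S.card * (H : ℝ) ^ 2 * (Q : ℝ) ^ (-c') := by
  classical
  obtain ⟨Q1, -, hlog2⟩ := G1_rlog (2 ^ (2 * m)) ((2 * m : ℕ) : ℝ) 1 one_pos
  obtain ⟨Q2, -, hsize⟩ := G1_size 1
  obtain ⟨δ, hδ⟩ : ∃ δ : ℝ, δ = min (c / 8) 1 := ⟨_, rfl⟩
  have hδ0 : 0 < δ := by
    rw [hδ]
    exact lt_min (by positivity) one_pos
  have hδ1 : δ ≤ 1 := by
    rw [hδ]
    exact min_le_right _ _
  have hδc : δ ≤ c / 8 := by
    rw [hδ]
    exact min_le_left _ _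
  obtain ⟨Q3, -, hlog⟩ := G1_rlog (4 * C) C δ hδ0
  refine ⟨δ, hδ0, max 4 (max Q1 (max Q2 Q3)), ?_⟩
  intro Q hQ H0 Ω S φ hF m0 hm0 p hp a H hH0 hH
  have hQ4 : 4 ≤ Q := (le_max_left _ _).trans hQ
  have hQ1' : Q1 ≤ Q := ((le_max_left _ _).trans (le_max_right _ _)).trans hQ
  have hQ2' : Q2 ≤ Q :=
    ((le_max_left _ _).trans ((le_max_right _ _).trans (le_max_right _ _))).trans hQ
  have hQ3' : Q3 ≤ Q :=
    ((le_max_right _ _).trans ((le_max_right _ _).trans (le_max_right _ _))).trans hQ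
  have hQr : (4 : ℝ) ≤ Q := by exact_mod_cast hQ4
  have hQ0 : (0 : ℝ) < Q := by linarith
  have hQr1 : (1 : ℝ) ≤ Q := by linarith
  have hlQ : 0 ≤ Real.log Q := Real.log_nonneg hQr1
  have hp' : (∀ i, p i ∈ PC Q) ∧ Rf m0 p ≤ fl Q (1 / 16) := by
    unfold TSf at hp
    rw [mem_filter, Fintype.mem_piFinset] at hp
    exact hp
  obtain ⟨hpPC, hRle⟩ := hp'
  obtain ⟨R, hRdef⟩ : ∃ R, R = Rf m0 p := ⟨_, rfl⟩
  rw [← hRdef] at hRle ⊢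
  have hpR : ∀ i, (p i).1 ∣ R := by
    intro i
    rw [hRdef]
    exact (Finset.dvd_lcm (f := fun i => (p i).1) (mem_univ i)).trans (Nat.dvd_lcm_right _ _)
  have hR1 : 1 ≤ R := by
    rw [hRdef]
    refine Nat.pos_of_ne_zero (Nat.lcm_ne_zero (by omega) ?_)
    rw [Finset.lcm_ne_zero_iff]
    intro i _
    have := (mem_PC.1 (hpPC i)).1
    omega
  obtain ⟨-, -, -, hDD, hDR⟩ := hsize Q hQ2' 1 1 (le_refl _) (le_refl _) (by rw [one_pow]; omega)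
  have hDR' := hDR R hR1 hRle
  obtain ⟨D, hD⟩ : ∃ D, D = fl Q (1 / 2) := ⟨_, rfl⟩
  rw [← hD] at hDD hDR' ⊢
  have hDQ1 : D ≤ Q := by
    rcases Nat.eq_zero_or_pos D with h0 | h0
    · omega
    · exact (Nat.le_mul_of_pos_left D h0).trans hDD
  obtain ⟨K, hK⟩ : ∃ K : Finset (Fin m → ℕ), K = Fintype.piFinset fun i => KS Q (p i).1 := ⟨_, rfl⟩
  obtain ⟨T, hT⟩ : ∃ T : Finset (Fin m → ℕ), T = K.filter (fun κ => ¬ R.lcm (univ.lcm κ) ≤ D) :=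
    ⟨_, rfl⟩
  have hF' := hF.fg1 p hpPC T (by
      rw [hT, ← hK]
      exact Finset.filter_subset _ _) (D / R) (by
      have h1 : (0 : ℝ) < (Q : ℝ) ^ (1 / 4 : ℝ) := Real.rpow_pos_of_pos hQ0 _
      have h2 : (0 : ℝ) < ((D / R : ℕ) : ℝ) := lt_of_lt_of_le h1 hDR'
      exact_mod_cast h2) (by
      intro κ hκ
      rw [hT, mem_filter] at hκ
      have h1 : D < R.lcm (univ.lcm κ) := not_le.1 hκ.2
      have h2 : univ.lcm κ ∣ univ.lcm (fun i => (p i).1 * κ i) :=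
        Finset.lcm_dvd fun i _ => (dvd_mul_left (κ i) _).trans
          (Finset.dvd_lcm (f := fun i => (p i).1 * κ i) (mem_univ i))
      have h3 : 0 < univ.lcm (fun i => (p i).1 * κ i) := b1_lcm hpPC (by rw [← hK]; exact hκ.1)
      have h4 := Nat.le_of_dvd h3 h2
      have h5 : R.lcm (univ.lcm κ) ≤ R * univ.lcm κ :=
        Nat.le_of_dvd (Nat.mul_pos (by omega) (Nat.pos_of_dvd_of_pos h2 h3)) (Nat.lcm_dvd_mul _ _)
      refine lt_of_lt_of_le ?_ h4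
      rw [Nat.div_lt_iff_lt_mul (by omega), mul_comm]
      omega) a H hH0
  have hDneg : ((D / R : ℕ) : ℝ) ^ (-c) ≤ (Q : ℝ) ^ (-(2 * δ)) := by
    calc ((D / R : ℕ) : ℝ) ^ (-c) ≤ ((Q : ℝ) ^ (1 / 4 : ℝ)) ^ (-c) :=
          Real.rpow_le_rpow_of_nonpos (Real.rpow_pos_of_pos hQ0 _) hDR' (by linarith)
      _ = (Q : ℝ) ^ (-(c / 4)) := by
          rw [← Real.rpow_mul hQ0.le]
          congr 1
          ring
      _ ≤ (Q : ℝ) ^ (-(2 * δ)) := Real.rpow_le_rpow_of_exponent_le hQr1 (by linarith)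
  have hlarge := hF'.trans (b1_num (by linarith) (Nat.cast_nonneg _) (by omega) (hlog Q hQ3') hDneg)
  -- the main part
  have hsmall : ∀ ω ∈ S, ‖∑ n ∈ Ico a (a + H), ∑ κ ∈ K.filter (fun κ => R.lcm (univ.lcm κ) ≤ D),
          ∏ i, gk (p i) (κ i) (φ ω i (n : ℤ)) -
      H * (MRf p R (φ ω) * ((∑ d ∈ SF (D / R) R, tdf d (φ ω) : ℝ) : ℂ))‖ ^ 2 ≤
      1 / 4 * ((H : ℝ) ^ 2 * (Q : ℝ) ^ (-δ)) := by
    intro ω hω
    have h1 := A1_M4 (φ ω) (hF.fb.cp ω hω) Q D R hDQ1 (by omega) p hpPC hpR a H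
    rw [← hK] at h1
    refine (pow_le_pow_left₀ (norm_nonneg _) h1 2).trans ?_
    have h2 : (Q : ℝ) ^ (-(1 : ℝ)) ≤ (Q : ℝ) ^ (-δ) :=
      Real.rpow_le_rpow_of_exponent_le hQr1 (by linarith)
    have h3 : (Q : ℝ) ^ (-(1 : ℝ)) = (Q : ℝ)⁻¹ := Real.rpow_neg_one _
    have hHr : (Q : ℝ) ^ 4 ≤ H := by exact_mod_cast hH
    have hDr : (D : ℝ) ^ 2 ≤ Q := by
      rw [sq]
      exact_mod_cast hDD
    have hbd : (2 * (1 + Real.log Q)) ^ (2 * m) ≤ (Q : ℝ) := by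
      have h1 := hlog2 Q hQ1'
      rw [Real.rpow_natCast, Real.rpow_one, ← mul_pow] at h1
      exact h1
    calc (2 * (D : ℝ) ^ 2 * (2 * (1 + Real.log Q)) ^ (2 * m)) ^ 2 ≤ (2 * Q * Q) ^ 2 := by
          gcongr
      _ = 1 / 4 * (16 * (Q : ℝ) ^ 4) := by ring
      _ ≤ 1 / 4 * ((Q : ℝ) ^ 2 * (Q : ℝ) ^ 4) := by
          have : (16 : ℝ) ≤ Q ^ 2 := by nlinarith
          gcongr
      _ ≤ 1 / 4 * (((Q : ℝ) ^ 4) ^ 2 * (Q : ℝ)⁻¹) := by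
          rw [← pow_mul, ← pow_add]
          have : (Q : ℝ) ^ (4 * 2) * (Q : ℝ)⁻¹ = (Q : ℝ) ^ 7 := by
            field_simp
          rw [this]
          have : (Q : ℝ) ^ (2 + 4) ≤ (Q : ℝ) ^ 7 := pow_le_pow_right₀ hQr1 (by norm_num)
          exact mul_le_mul_of_nonneg_left this (by norm_num)
      _ ≤ 1 / 4 * ((H : ℝ) ^ 2 * (Q : ℝ) ^ (-δ)) := by
          rw [← h3]
          have h5 : 0 ≤ (Q : ℝ) ^ (-(1 : ℝ)) := Real.rpow_nonneg hQ0.le _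
          have h4 : ((Q : ℝ) ^ 4) ^ 2 ≤ (H : ℝ) ^ 2 := pow_le_pow_left₀ (by positivity) hHr 2
          have := mul_le_mul h4 h2 h5 (by positivity)
          linarith
  have hsplit : ∀ ω ∈ S, ‖∑ n ∈ Ico a (a + H), ∏ i, Fc Q (p i) (φ ω i (n : ℤ)) -
      H * (MRf p R (φ ω) * ((∑ d ∈ SF (D / R) R, tdf d (φ ω) : ℝ) : ℂ))‖ ^ 2 ≤
      2 * (1 / 4 * ((H : ℝ) ^ 2 * (Q : ℝ) ^ (-δ))) + 2 * ‖∑ n ∈ Ico a (a + H),
        ∑ κ ∈ T, ∏ i, gk (p i) (κ i) (φ ω i (n : ℤ))‖ ^ 2 := by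
    intro ω hω
    have e1 : ∑ n ∈ Ico a (a + H), ∏ i, Fc Q (p i) (φ ω i (n : ℤ)) -
      H * (MRf p R (φ ω) * ((∑ d ∈ SF (D / R) R, tdf d (φ ω) : ℝ) : ℂ)) =
      (∑ n ∈ Ico a (a + H), ∑ κ ∈ K.filter (fun κ => R.lcm (univ.lcm κ) ≤ D),
          ∏ i, gk (p i) (κ i) (φ ω i (n : ℤ)) -
      H * (MRf p R (φ ω) * ((∑ d ∈ SF (D / R) R, tdf d (φ ω) : ℝ) : ℂ))) +
      ∑ n ∈ Ico a (a + H), ∑ κ ∈ T, ∏ i, gk (p i) (κ i) (φ ω i (n : ℤ)) := by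
      have e2 : ∑ n ∈ Ico a (a + H), ∏ i, Fc Q (p i) (φ ω i (n : ℤ)) =
          ∑ n ∈ Ico a (a + H), ∑ κ ∈ K.filter (fun κ => R.lcm (univ.lcm κ) ≤ D),
            ∏ i, gk (p i) (κ i) (φ ω i (n : ℤ)) +
          ∑ n ∈ Ico a (a + H), ∑ κ ∈ T, ∏ i, gk (p i) (κ i) (φ ω i (n : ℤ)) := by
        rw [← Finset.sum_add_distrib]
        refine Finset.sum_congr rfl fun n _ => ?_
        rw [b1_prod, ← hK, hT, Finset.sum_filter_add_sum_filter_not]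
      rw [e2]
      ring
    rw [e1]
    refine (b1_sq _ _).trans ?_
    have := hsmall ω hω
    linarith
  refine (Finset.sum_le_sum hsplit).trans ?_
  rw [Finset.sum_add_distrib, Finset.sum_const, nsmul_eq_mul, ← Finset.mul_sum]
  have e3 : (S.card : ℝ) * (2 * (1 / 4 * ((H : ℝ) ^ 2 * (Q : ℝ) ^ (-δ)))) =
      1 / 2 * (S.card * (H : ℝ) ^ 2 * (Q : ℝ) ^ (-δ)) := by ring
  rw [e3]
  linarith

/-- Large modulus. Proof. `p ∉ TSf`: `fl Q (1/16) < lcm(r, lcm r_i) ≤ r lcm r_i`, so `lcm(r_i κ_i) ≥ lcm r_i > fl Q (1/32)`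
for `Q` large (`r ≤ Q^(1/100)`; `G1_size`): `FG` with `T` = everything. -/
theorem B1_large (m : ℕ) (C c : ℝ) (hC : 1 ≤ C) (hc : 0 < c) : ∃ c' : ℝ, 0 < c' ∧ ∃ Q0 : ℕ, ∀ Q : ℕ,
    Q0 ≤ Q → ∀ (H0 : ℕ) (Ω : Type) (S : Finset Ω) (φ : Ω → Fin m → ℤ → ℤ), Fam C c Q H0 S φ →
    ∀ r : ℕ, 1 ≤ r → r ^ 100 ≤ Q → ∀ p : Fin m → Ch, (∀ i, p i ∈ PC Q) →
    p ∉ TSf m Q (fl Q (1 / 16)) r → ∀ a H : ℕ, H0 ≤ H →
    ∑ ω ∈ S, ‖∑ n ∈ Ico a (a + H), ∏ i, Fc Q (p i) (φ ω i (n : ℤ))‖ ^ 2 ≤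
      S.card * (H : ℝ) ^ 2 * (Q : ℝ) ^ (-c') := by
  classical
  obtain ⟨Q2, -, hsize⟩ := G1_size 1
  obtain ⟨Q3, -, hlog⟩ := G1_rlog (4 * (C * 2 ^ c)) C (c / 64) (by positivity)
  refine ⟨c / 64, by positivity, max 1 (max Q2 Q3), ?_⟩
  intro Q hQ H0 Ω S φ hF r hr hrQ p hp hpT a H hH0
  have hQ1 : 1 ≤ Q := (le_max_left _ _).trans hQ
  have hQ2' : Q2 ≤ Q := ((le_max_left _ _).trans (le_max_right _ _)).trans hQ
  have hQ3' : Q3 ≤ Q := ((le_max_right _ _).trans (le_max_right _ _)).trans hQ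
  have hQr1 : (1 : ℝ) ≤ Q := by exact_mod_cast hQ1
  have hQ0 : (0 : ℝ) < Q := by linarith
  have hlQ : 0 ≤ Real.log Q := Real.log_nonneg hQr1
  obtain ⟨-, -, hs3, -, -⟩ := hsize Q hQ2' r 1 (le_refl _) (le_refl _) hrQ
  obtain ⟨h51, -, -⟩ := G1_one (Q := Q) (x := 1 / 32) hQ1 (by norm_num)
  obtain ⟨h71, -, -⟩ := G1_one (Q := Q) (x := 1 / 128) hQ1 (by norm_num)
  have hnot : ¬ r.lcm (univ.lcm fun i => (p i).1) ≤ fl Q (1 / 16) := by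
    intro hle
    apply hpT
    unfold TSf
    rw [mem_filter, Fintype.mem_piFinset]
    exact ⟨hp, hle⟩
  have hlt : fl Q (1 / 32) < univ.lcm (fun i => (p i).1) := by
    by_contra hcon
    rw [not_lt] at hcon
    apply hnot
    have hl1 : 0 < univ.lcm (fun i => (p i).1) := by
      refine Nat.pos_of_ne_zero ?_
      rw [Finset.lcm_ne_zero_iff]
      intro i _
      have := (mem_PC.1 (hp i)).1
      omega
    have h1 : r.lcm (univ.lcm fun i => (p i).1) ≤ r * univ.lcm (fun i => (p i).1) :=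
      Nat.le_of_dvd (Nat.mul_pos hr hl1) (Nat.lcm_dvd_mul _ _)
    have h2 : r * univ.lcm (fun i => (p i).1) ≤ r * fl Q (1 / 32) := Nat.mul_le_mul_left _ hcon
    have h3 : r * fl Q (1 / 32) ≤ 1 * r * fl Q (1 / 32) * (1 * fl Q (1 / 128)) := by
      rw [one_mul, one_mul]
      exact Nat.le_mul_of_pos_right _ h71
    omega
  have hF' := hF.fg1 p hp (Fintype.piFinset (fun i => KS Q (p i).1)) (Finset.Subset.refl _)
    (fl Q (1 / 32)) h51 (by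
      intro κ hκ
      refine lt_of_lt_of_le hlt ?_
      exact Nat.le_of_dvd (b1_lcm hp hκ) (Finset.lcm_dvd fun i _ => (dvd_mul_right _ (κ i)).trans
          (Finset.dvd_lcm (f := fun i => (p i).1 * κ i) (mem_univ i)))) a H hH0
  have e1 : ∑ ω ∈ S, ‖∑ n ∈ Ico a (a + H), ∏ i, Fc Q (p i) (φ ω i (n : ℤ))‖ ^ 2 =
      ∑ ω ∈ S, ‖∑ n ∈ Ico a (a + H), ∑ κ ∈ Fintype.piFinset (fun i => KS Q (p i).1),
        ∏ i, gk (p i) (κ i) (φ ω i (n : ℤ))‖ ^ 2 := by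
    refine Finset.sum_congr rfl fun ω _ => ?_
    congr 2
    exact Finset.sum_congr rfl fun n _ => b1_prod Q p _
  rw [e1]
  refine hF'.trans ?_
  have hlogv := hlog Q hQ3'
  have hneg := G1_neg (Q := Q) (x := 1 / 32) (c := c) hQ1 (by norm_num) hc.le
  have hL0 : 0 < 1 + Real.log Q := by linarith
  have h0 : 0 ≤ (S.card : ℝ) * (H : ℝ) ^ 2 := by positivity
  calc C * (1 + Real.log Q) ^ C * S.card * (H : ℝ) ^ 2 * (fl Q (1 / 32) : ℝ) ^ (-c)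
      ≤ C * (1 + Real.log Q) ^ C * S.card * (H : ℝ) ^ 2 * (2 ^ c * (Q : ℝ) ^ (-(c * (1 / 32)))) :=
        mul_le_mul_of_nonneg_left hneg (by positivity)
    _ = 1 / 4 * (S.card * (H : ℝ) ^ 2 * ((4 * (C * 2 ^ c) * (1 + Real.log Q) ^ C) *
          (Q : ℝ) ^ (-(c * (1 / 32))))) := by ring
    _ ≤ 1 / 4 * (S.card * (H : ℝ) ^ 2 * ((Q : ℝ) ^ (c / 64) * (Q : ℝ) ^ (-(c * (1 / 32))))) := by
        gcongr
    _ = 1 / 4 * (S.card * (H : ℝ) ^ 2 * (Q : ℝ) ^ (-(c / 64))) := by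
        rw [← Real.rpow_add hQ0]
        congr 3
        ring
    _ ≤ S.card * (H : ℝ) ^ 2 * (Q : ℝ) ^ (-(c / 64)) := by
        have : 0 ≤ (S.card : ℝ) * (H : ℝ) ^ 2 * (Q : ℝ) ^ (-(c / 64)) := by positivity
        linarith

end Pool.Agent.Lib.H24Q
end
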