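import Pool.Agent.Lib.H1M.RV2.M018
import Pool.Agent.Lib.H1M.RV2.M080
import Pool.Agent.Lib.H1M.RV2.M081

/-! Merged copies (to shorten the build) of Lib.H59T.F1, Lib.H59T.F2A, Lib.H59T.F2, Lib.H59T.F3. -/

-- from Lib.H59T.F1
section

/-!
# Project H59T, chunk F1 (M): the complete sums
-/

open Finset

namespace Pool.Agent.Lib.H59T

open Pool.Agent.Lib.H68T Pool.Agent.Lib.H18Q Pool.Agent.Lib.H59P

/-- Proof. A product of different primes not dividing `R`. -/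
theorem F1_dof {k : ℕ} (R : ℕ) (κ κ' : Fin k → ℕ) : 0 < dof R κ κ' ∧ Squarefree (dof R κ κ') ∧
    Nat.Coprime (dof R κ κ') R ∧ (∀ l : ℕ, l.Prime → (l ∣ dof R κ κ' ↔ ¬ l ∣ R ∧
      ∃ i, (l ∣ κ i ∧ κ i ≠ 0) ∨ (l ∣ κ' i ∧ κ' i ≠ 0))) := by
  classical
  obtain ⟨T, hT⟩ : ∃ T : Finset ℕ, T = (univ.biUnion fun i : Fin k =>
      (κ i).primeFactors ∪ (κ' i).primeFactors).filter (fun l => ¬ l ∣ R) := ⟨_, rfl⟩
  have hmem : ∀ l, l ∈ T ↔ (l.Prime ∧ ¬ l ∣ R ∧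
      ∃ i, (l ∣ κ i ∧ κ i ≠ 0) ∨ (l ∣ κ' i ∧ κ' i ≠ 0)) := by
    intro l
    rw [hT, mem_filter, mem_biUnion]
    constructor
    · rintro ⟨⟨i, -, hi⟩, hR⟩
      rw [mem_union, Nat.mem_primeFactors, Nat.mem_primeFactors] at hi
      rcases hi with ⟨h1, h2, h3⟩ | ⟨h1, h2, h3⟩
      · exact ⟨h1, hR, i, Or.inl ⟨h2, h3⟩⟩
      · exact ⟨h1, hR, i, Or.inr ⟨h2, h3⟩⟩
    · rintro ⟨h1, hR, i, ⟨h2, h3⟩ | ⟨h2, h3⟩⟩
      · exact ⟨⟨i, mem_univ _, mem_union_left _ (Nat.mem_primeFactors.2 ⟨h1, h2, h3⟩)⟩, hR⟩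
      · exact ⟨⟨i, mem_univ _, mem_union_right _ (Nat.mem_primeFactors.2 ⟨h1, h2, h3⟩)⟩, hR⟩
  have hd : dof R κ κ' = ∏ l ∈ T, l := by
    rw [hT]
    unfold dof
    refine Finset.prod_congr ?_ fun _ _ => rfl
    ext l
    simp only [mem_filter, mem_biUnion]
  have hpr : ∀ l ∈ T, l.Prime := fun l hl => ((hmem l).1 hl).1
  rw [hd]
  refine ⟨Finset.prod_pos fun l hl => (hpr l hl).pos, ?_, ?_, ?_⟩
  · have key : ∀ S : Finset ℕ, (∀ l ∈ S, l.Prime) → Squarefree (∏ l ∈ S, l) := by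
      intro S
      induction S using Finset.induction_on with
      | empty =>
        intro _
        rw [prod_empty]
        exact squarefree_one
      | insert l S hl ih =>
        intro h
        rw [prod_insert hl, Nat.squarefree_mul_iff]
        refine ⟨?_, (h l (mem_insert_self _ _)).squarefree, ih fun l' hl' => h l' (mem_insert_of_mem hl')⟩
        refine Nat.Coprime.prod_right fun l' hl' => ?_
        refine (Nat.coprime_primes (h l (mem_insert_self _ _)) (h l' (mem_insert_of_mem hl'))).2 ?_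
        rintro rfl
        exact hl hl'
    exact key T hpr
  · refine Nat.Coprime.prod_left fun l hl => ?_
    exact (Nat.Prime.coprime_iff_not_dvd (hpr l hl)).2 ((hmem l).1 hl).2.1
  · intro l hl
    rw [Prime.dvd_finsetProd_iff hl.prime]
    constructor
    · rintro ⟨l', hl', hdv⟩
      have h1 : l = l' := (Nat.prime_dvd_prime_iff_eq hl (hpr l' hl')).1 hdv
      subst h1
      exact ((hmem l).1 hl').2
    · intro h
      exact ⟨l, (hmem l).2 ⟨hl, h⟩, dvd_rfl⟩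

/-- Proof. `2^(ω(n)) ≤ τ(n)` (`Nat.Coprime.card_divisors_mul`/`Nat.card_divisors`). -/
theorem F1_tau (n A : ℕ) (hn : 0 < n) : (2 : ℝ) ^ (A * n.primeFactors.card) ≤ tau n ^ A := by
  have h1 : 2 ^ n.primeFactors.card ≤ n.divisors.card := by
    rw [Nat.card_divisors hn.ne', ← Finset.prod_const]
    refine Finset.prod_le_prod' fun l hl => ?_
    have h2 : n.factorization l ≠ 0 := by
      rw [← Finsupp.mem_support_iff, Nat.support_factorization]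
      exact hl
    omega
  have h2 : (2 : ℝ) ^ n.primeFactors.card ≤ tau n := by
    unfold tau
    exact_mod_cast h1
  rw [mul_comm, pow_mul]
  exact pow_le_pow_left₀ (by positivity) h2 A

/-- **The complete sums.** Proof. `R = Rm p > 0`, `d = dof R κ κ'`, `P` = the primes dividing `R d`, `q l = l^(R.factorization l)` if
`l ∣ R` and `q l = l` otherwise: `R d = ∏_{l ∈ P} q l` (`Nat.factorization_prod_pow_eq_self`, `d` squarefree and coprime to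
`R`). All prime factors of the `(p i).1`, `κ i`, `κ' i` are in `P` (`F1_dof`). `L3_Db`, `L4_Per4`, `C1_prod`; `LocB` for each
`l`; the product of the bounds is
`(R d)⁴ (2^A)^(ω(R)) (2^A)^(ω(d)) ∏_{l ∣ R} (l^b)^(-c) ∏_{l ∣ d} l^(-2)`, and `F1_tau`. -/
theorem F1_glob {k : ℕ} (ψ : Fm k) (hψ : CpF ψ) (A : ℕ) (c : ℝ) (hL : LocB ψ A c) (p : Fin k → Ch)
    (hp : Pm p) (κ κ' : Fin k → ℕ) (hκ : Kp p κ) (hκ' : Kp p κ') :
    Per4 (Rm p * dof (Rm p) κ κ') (Db ψ (fun i => gk (p i) (κ i)) (fun i => gk (p i) (κ' i))) ∧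
    ‖S4 (Rm p * dof (Rm p) κ κ') (Db ψ (fun i => gk (p i) (κ i)) (fun i => gk (p i) (κ' i)))‖ ≤
      ((Rm p * dof (Rm p) κ κ' : ℕ) : ℝ) ^ 4 * (tau (Rm p) ^ A * (Rm p : ℝ) ^ (-c) *
        (tau (dof (Rm p) κ κ') ^ A / (dof (Rm p) κ κ' : ℝ) ^ 2)) := by
  classical
  obtain ⟨R, hR⟩ : ∃ R, R = Rm p := ⟨_, rfl⟩
  obtain ⟨d, hd⟩ : ∃ d, d = dof (Rm p) κ κ' := ⟨_, rfl⟩
  rw [← hd, ← hR]
  obtain ⟨hd0, hdsq, hdR, hddv⟩ := F1_dof (Rm p) κ κ'
  rw [← hd] at hd0 hdsq hdR hddv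
  rw [← hR] at hdR hddv
  have hR0 : R ≠ 0 := by
    rw [hR]
    unfold Rm
    intro h
    rw [Finset.lcm_eq_zero_iff] at h
    obtain ⟨i, _, hi⟩ := h
    exact absurd hi (hp i).1.ne'
  have hpR : ∀ i, (p i).1 ∣ R := fun i => by
    rw [hR]
    exact Finset.dvd_lcm (mem_univ i)
  have hN0 : R * d ≠ 0 := mul_ne_zero hR0 hd0.ne'
  obtain ⟨P, hP⟩ : ∃ P, P = (R * d).primeFactors := ⟨_, rfl⟩
  have hPp : ∀ l ∈ P, l.Prime := fun l hl => by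
    rw [hP] at hl
    exact Nat.prime_of_mem_primeFactors hl
  have hPU : P = R.primeFactors ∪ d.primeFactors := by
    rw [hP, Nat.primeFactors_mul hR0 hd0.ne']
  have hdisj : Disjoint R.primeFactors d.primeFactors := hdR.symm.disjoint_primeFactors
  have hsub : ∀ (κ₀ : ℕ) (h : ∀ l : ℕ, l.Prime → l ∣ κ₀ → κ₀ ≠ 0 → ¬ l ∣ R → l ∣ d), κ₀.primeFactors ⊆ P := by
    intro κ₀ h l hl
    rw [Nat.mem_primeFactors] at hl
    rw [hP, Nat.mem_primeFactors]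
    refine ⟨hl.1, ?_, hN0⟩
    by_cases h1 : l ∣ R
    · exact h1.mul_right d
    · exact (h l hl.1 hl.2.1 hl.2.2 h1).mul_left R
  have h1 : ∀ i, (p i).1.primeFactors ⊆ P := fun i => hsub _ fun l _ h2 _ h3 =>
    absurd (h2.trans (hpR i)) h3
  have h2 : ∀ i, (κ i).primeFactors ⊆ P := fun i => hsub _ fun l h3 h4 h5 h6 =>
    (hddv l h3).2 ⟨h6, i, Or.inl ⟨h4, h5⟩⟩
  have h3 : ∀ i, (κ' i).primeFactors ⊆ P := fun i => hsub _ fun l h3 h4 h5 h6 =>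
    (hddv l h3).2 ⟨h6, i, Or.inr ⟨h4, h5⟩⟩
  obtain ⟨G, hG⟩ : ∃ G : ℕ → ℤ → ℤ → ℤ → ℤ → ℂ, G = fun l => Db ψ (fun i => lf (p i) (κ i) l)
      (fun i => lf (p i) (κ' i) l) := ⟨_, rfl⟩
  have hDb : Db ψ (fun i => gk (p i) (κ i)) (fun i => gk (p i) (κ' i)) =
      fun y y' z z' => ∏ l ∈ P, G l y y' z z' := by
    funext y y' z z'
    rw [hG]
    exact L3_Db ψ p hp κ κ' hκ hκ' P hPp h1 h2 h3 y y' z z'
  obtain ⟨q, hq⟩ : ∃ q : ℕ → ℕ, q = fun l => l ^ (R * d).factorization l := ⟨_, rfl⟩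
  have hfac : ∀ l, (R * d).factorization l = R.factorization l + d.factorization l := by
    intro l
    rw [Nat.factorization_mul hR0 hd0.ne']
    rfl
  have hqR : ∀ l ∈ R.primeFactors, q l = l ^ R.factorization l := by
    intro l hl
    have h4 : d.factorization l = 0 := by
      apply Nat.factorization_eq_zero_of_not_dvd
      intro h5
      exact Finset.disjoint_left.1 hdisj hl
        (Nat.mem_primeFactors.2 ⟨Nat.prime_of_mem_primeFactors hl, h5, hd0.ne'⟩)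
    rw [hq]
    show l ^ (R * d).factorization l = _
    rw [hfac, h4, add_zero]
  have hqd : ∀ l ∈ d.primeFactors, q l = l := by
    intro l hl
    have h4 : R.factorization l = 0 := by
      apply Nat.factorization_eq_zero_of_not_dvd
      intro h5
      exact Finset.disjoint_right.1 hdisj hl
        (Nat.mem_primeFactors.2 ⟨Nat.prime_of_mem_primeFactors hl, h5, hR0⟩)
    have h5 : d.factorization l = 1 := by
      have h6 := (Nat.squarefree_iff_factorization_le_one hd0.ne').1 hdsq l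
      have h7 : d.factorization l ≠ 0 := by
        rw [← Finsupp.mem_support_iff, Nat.support_factorization]
        exact hl
      omega
    rw [hq]
    show l ^ (R * d).factorization l = _
    rw [hfac, h4, h5, zero_add, pow_one]
  have hprodq : ∏ l ∈ P, q l = R * d := by
    rw [hq, hP]
    exact (Nat.prod_primeFactors_pow_factorization hN0).symm
  have hq0 : ∀ l ∈ P, 0 < q l := fun l hl => by
    rw [hq]
    exact pow_pos (hPp l hl).pos _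
  have hqc : ∀ l ∈ P, ∀ l' ∈ P, l ≠ l' → Nat.Coprime (q l) (q l') := by
    intro l hl l' hl' hne
    rw [hq]
    exact Nat.Coprime.pow _ _ ((Nat.coprime_primes (hPp l hl) (hPp l' hl')).2 hne)
  have hfacle : ∀ i l, (p i).1.factorization l ≤ R.factorization l := fun i l =>
    (Nat.factorization_le_iff_dvd (hp i).1.ne' hR0).2 (hpR i) l
  have hper : ∀ l ∈ P, Per4 (q l) (G l) := by
    intro l hl
    rw [hG]
    rw [hPU, mem_union] at hl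
    rcases hl with hl | hl
    · rw [hqR l hl]
      refine L4_Per4 ψ hψ p hp κ κ' l _ (Nat.prime_of_mem_primeFactors hl) ?_ fun i => hfacle i l
      rw [Nat.one_le_iff_ne_zero, ← Finsupp.mem_support_iff, Nat.support_factorization]
      exact hl
    · rw [hqd l hl]
      have h4 := L4_Per4 ψ hψ p hp κ κ' l 1 (Nat.prime_of_mem_primeFactors hl) le_rfl fun i => by
        have h5 : (p i).1.factorization l = 0 := by
          have h6 : R.factorization l = 0 := by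
            apply Nat.factorization_eq_zero_of_not_dvd
            intro h5
            exact Finset.disjoint_right.1 hdisj hl
              (Nat.mem_primeFactors.2 ⟨Nat.prime_of_mem_primeFactors hl, h5, hR0⟩)
          have := hfacle i l
          omega
        omega
      rw [pow_one] at h4
      exact h4
  obtain ⟨hc1, hc2⟩ := C1_prod P q hq0 hqc G hper
  rw [hprodq] at hc1 hc2
  rw [hDb]
  refine ⟨hc1, ?_⟩
  rw [hc2, norm_prod, hPU, prod_union hdisj]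
  have hbR : ∏ l ∈ R.primeFactors, ‖S4 (q l) (G l)‖ ≤ (R : ℝ) ^ 4 * (tau R ^ A * (R : ℝ) ^ (-c)) := by
    have h4 : ∏ l ∈ R.primeFactors, ‖S4 (q l) (G l)‖ ≤ ∏ l ∈ R.primeFactors,
        (((q l : ℕ) : ℝ) ^ 4 * (2 ^ A * ((q l : ℕ) : ℝ) ^ (-c))) := by
      refine Finset.prod_le_prod (fun l _ => norm_nonneg _) fun l hl => ?_
      have h5 := (hL p hp κ κ' hκ hκ' l (Nat.prime_of_mem_primeFactors hl)).1
        (by rw [← hR]; exact Nat.dvd_of_mem_primeFactors hl)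
      rw [← hR, ← hqR l hl] at h5
      rw [hG]
      exact h5
    have h6 : ∏ l ∈ R.primeFactors, ((q l : ℕ) : ℝ) = R := by
      rw [← Nat.cast_prod, Finset.prod_congr rfl hqR]
      rw [← Nat.prod_primeFactors_pow_factorization hR0]
    have h7 : ∏ l ∈ R.primeFactors, ((q l : ℕ) : ℝ) ^ (-c) = (R : ℝ) ^ (-c) := by
      rw [Real.finsetProd_rpow _ _ (fun l _ => Nat.cast_nonneg _), h6]
    rw [Finset.prod_mul_distrib, Finset.prod_mul_distrib, Finset.prod_pow, h6, h7,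
      Finset.prod_const, ← pow_mul] at h4
    refine h4.trans ?_
    have h8 := F1_tau R A (Nat.pos_of_ne_zero hR0)
    have h9 : (0 : ℝ) ≤ (R : ℝ) ^ (-c) := by positivity
    exact mul_le_mul_of_nonneg_left (mul_le_mul_of_nonneg_right h8 h9) (by positivity)
  have hbd : ∏ l ∈ d.primeFactors, ‖S4 (q l) (G l)‖ ≤ (d : ℝ) ^ 4 * (tau d ^ A / (d : ℝ) ^ 2) := by
    have h4 : ∏ l ∈ d.primeFactors, ‖S4 (q l) (G l)‖ ≤ ∏ l ∈ d.primeFactors,
        ((l : ℝ) ^ 4 * (2 ^ A / (l : ℝ) ^ 2)) := by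
      refine Finset.prod_le_prod (fun l _ => norm_nonneg _) fun l hl => ?_
      have hlp := Nat.prime_of_mem_primeFactors hl
      have hld := (hddv l hlp).1 (Nat.dvd_of_mem_primeFactors hl)
      have h5 := (hL p hp κ κ' hκ hκ' l hlp).2
        (by rw [← hR]; exact hld.1) (by
          obtain ⟨i, hi | hi⟩ := hld.2
          · exact ⟨i, Or.inl hi.1⟩
          · exact ⟨i, Or.inr hi.1⟩)
      rw [hqd l hl, hG]
      exact h5
    have h6 : ∏ l ∈ d.primeFactors, (l : ℝ) = d := by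
      rw [← Nat.cast_prod, Nat.prod_primeFactors_of_squarefree hdsq]
    rw [Finset.prod_mul_distrib, Finset.prod_div_distrib, Finset.prod_pow (f := fun l : ℕ => (l : ℝ)) (n := 4),
      Finset.prod_pow (f := fun l : ℕ => (l : ℝ)) (n := 2), h6,
      Finset.prod_const, ← pow_mul] at h4
    refine h4.trans ?_
    have h8 := F1_tau d A hd0
    have h9 : (0 : ℝ) ≤ (d : ℝ) ^ 2 := by positivity
    exact mul_le_mul_of_nonneg_left (div_le_div_of_nonneg_right h8 h9) (by positivity)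
  calc (∏ l ∈ R.primeFactors, ‖S4 (q l) (G l)‖) * ∏ l ∈ d.primeFactors, ‖S4 (q l) (G l)‖
      ≤ ((R : ℝ) ^ 4 * (tau R ^ A * (R : ℝ) ^ (-c))) * ((d : ℝ) ^ 4 * (tau d ^ A / (d : ℝ) ^ 2)) := by
        refine mul_le_mul hbR hbd (Finset.prod_nonneg fun l _ => norm_nonneg _) ?_
        unfold tau
        positivity
    _ = _ := by
        push_cast
        ring

end Pool.Agent.Lib.H59T
end

-- from Lib.H59T.F2A
section

/-!
# Project H59T, chunk F2A (S/M): divisibility and size of the moduli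
-/

open Finset

namespace Pool.Agent.Lib.H59T

open Pool.Agent.Lib.H68T Pool.Agent.Lib.H18Q Pool.Agent.Lib.H59P

theorem f2a_sq {n m : ℕ} (hn : Squarefree n) (h : ∀ l : ℕ, l.Prime → l ∣ n → l ∣ m) : n ∣ m := by
  rw [← Nat.prod_primeFactors_of_squarefree hn]
  refine Finset.prod_primes_dvd m (fun l hl => (Nat.prime_of_mem_primeFactors hl).prime) fun l hl => ?_
  exact h l (Nat.prime_of_mem_primeFactors hl) (Nat.dvd_of_mem_primeFactors hl)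

theorem F2_dvd {k : ℕ} (p : Fin k → Ch) (hp : Pm p) (κ κ' : Fin k → ℕ) (hκ : Kp p κ) (hκ' : Kp p κ') :
    (∀ i, κ i ∣ Rm p * dof (Rm p) κ κ' ∧ κ' i ∣ Rm p * dof (Rm p) κ κ') ∧
      (univ.lcm fun i => (p i).1 * κ i) ∣ Rm p * dof (Rm p) κ κ' := by
  obtain ⟨h1, h2, h3, h4⟩ := F1_dof (Rm p) κ κ'
  have key : ∀ i, κ i ∣ Rm p * dof (Rm p) κ κ' ∧ κ' i ∣ Rm p * dof (Rm p) κ κ' := by
    intro i
    constructor
    · refine f2a_sq (hκ i).1 fun l hl hd => ?_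
      by_cases hR : l ∣ Rm p
      · exact hR.mul_right _
      · exact Dvd.dvd.mul_left ((h4 l hl).2 ⟨hR, i, Or.inl ⟨hd, (hκ i).1.ne_zero⟩⟩) _
    · refine f2a_sq (hκ' i).1 fun l hl hd => ?_
      by_cases hR : l ∣ Rm p
      · exact hR.mul_right _
      · exact Dvd.dvd.mul_left ((h4 l hl).2 ⟨hR, i, Or.inr ⟨hd, (hκ' i).1.ne_zero⟩⟩) _
  refine ⟨key, Finset.lcm_dvd fun i _ => ?_⟩
  refine Nat.Coprime.mul_dvd_of_dvd_of_dvd (hκ i).2.symm ?_ (key i).1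
  exact Dvd.dvd.mul_right (Finset.dvd_lcm (f := fun i => (p i).1) (Finset.mem_univ i)) _

theorem F2_size {k : ℕ} (Q : ℕ) (p : Fin k → Ch) (hp : ∀ i, p i ∈ PC Q) (κ κ' : Fin k → ℕ)
    (hκ : ∀ i, κ i ∈ KS Q (p i).1) (hκ' : ∀ i, κ' i ∈ KS Q (p i).1) :
    0 < Rm p * dof (Rm p) κ κ' ∧ Rm p * dof (Rm p) κ κ' ≤ Q ^ (2 * k) := by
  obtain ⟨h1, h2, h3, h4⟩ := F1_dof (Rm p) κ κ'
  have hp1 : ∀ i, 1 ≤ (p i).1 := fun i => (mem_PC.1 (hp i)).1
  have hK : ∀ (K : Fin k → ℕ), (∀ i, K i ∈ KS Q (p i).1) → ∀ i, 1 ≤ K i ∧ (p i).1 * K i ≤ Q := by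
    intro K hK i
    have h := hK i
    unfold KS at h
    rw [Finset.mem_filter, Finset.mem_Icc] at h
    refine ⟨h.1.1, ?_⟩
    rw [mul_comm]
    exact (Nat.le_div_iff_mul_le (hp1 i)).1 h.1.2
  have hR1 : Rm p ∣ ∏ i, (p i).1 := Finset.lcm_dvd fun i _ => Finset.dvd_prod_of_mem _ (Finset.mem_univ i)
  have hR0 : 0 < Rm p := by
    apply Nat.pos_of_ne_zero
    intro h0
    rw [h0] at hR1
    have h5 : ∏ i, (p i).1 = 0 := Nat.eq_zero_of_zero_dvd hR1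
    rw [Finset.prod_eq_zero_iff] at h5
    obtain ⟨i, _, hi⟩ := h5
    have := hp1 i
    omega
  have hd1 : dof (Rm p) κ κ' ∣ ∏ i, (κ i * κ' i) := by
    refine f2a_sq h2 fun l hl hd => ?_
    obtain ⟨_, i, hi | hi⟩ := (h4 l hl).1 hd
    · exact (hi.1.mul_right _).trans (Finset.dvd_prod_of_mem (fun i => κ i * κ' i) (Finset.mem_univ i))
    · exact (hi.1.mul_left _).trans (Finset.dvd_prod_of_mem (fun i => κ i * κ' i) (Finset.mem_univ i))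
  refine ⟨Nat.mul_pos hR0 h1, ?_⟩
  have h6 : Rm p * dof (Rm p) κ κ' ∣ (∏ i, (p i).1) * ∏ i, (κ i * κ' i) := mul_dvd_mul hR1 hd1
  have h7 : 0 < (∏ i, (p i).1) * ∏ i, (κ i * κ' i) := by
    refine Nat.mul_pos (Finset.prod_pos fun i _ => hp1 i) (Finset.prod_pos fun i _ => ?_)
    exact Nat.mul_pos (hK κ hκ i).1 (hK κ' hκ' i).1
  refine (Nat.le_of_dvd h7 h6).trans ?_
  rw [← Finset.prod_mul_distrib]
  have h8 : ∀ i ∈ (univ : Finset (Fin k)), (p i).1 * (κ i * κ' i) ≤ Q ^ 2 := by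
    intro i _
    have h9 := (hK κ hκ i).2
    have h10 := (hK κ' hκ' i).2
    have h11 : κ' i ≤ Q := le_trans (Nat.le_mul_of_pos_left _ (hp1 i)) h10
    calc (p i).1 * (κ i * κ' i) = ((p i).1 * κ i) * κ' i := by ring
      _ ≤ Q * Q := Nat.mul_le_mul h9 h11
      _ = Q ^ 2 := by ring
  calc ∏ i, ((p i).1 * (κ i * κ' i)) ≤ ∏ _i : Fin k, Q ^ 2 := Finset.prod_le_prod' h8
    _ = Q ^ (2 * k) := by rw [Finset.prod_const, Finset.card_univ, Fintype.card_fin, ← pow_mul]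

end Pool.Agent.Lib.H59T
end

-- from Lib.H59T.F2
section

/-!
# Project H59T, chunk F2 (M): the sum over the pairs of moduli
-/

open Finset

namespace Pool.Agent.Lib.H59T

open Pool.Agent.Lib.H68T Pool.Agent.Lib.H18Q Pool.Agent.Lib.H59P

theorem f2_est {R d D c η : ℝ} (hR : 1 ≤ R) (hd : 1 ≤ d) (hD : 1 ≤ D) (hDR : D ≤ R * d) (hc0 : 0 < c)
    (hc1 : c ≤ 1) (hη : η ≤ c / 4) :
    (R * d) ^ η * R ^ (-c) * (1 / d ^ 2) ≤ D ^ (-(c / 2)) * (1 / d ^ (5 / 4 : ℝ)) := by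
  have hR0 : 0 < R := by linarith
  have hd0 : 0 < d := by linarith
  have hD0 : 0 < D := by linarith
  have r0 : 0 ≤ Real.log R := Real.log_nonneg hR
  have s0 : 0 ≤ Real.log d := Real.log_nonneg hd
  have t1 : Real.log D ≤ Real.log R + Real.log d := by
    rw [← Real.log_mul hR0.ne' hd0.ne']
    exact Real.log_le_log hD0 hDR
  have e1 : (R * d) ^ η * R ^ (-c) * (1 / d ^ 2) =
      Real.exp ((Real.log R + Real.log d) * η + Real.log R * (-c) - 2 * Real.log d) := by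
    rw [Real.exp_sub, Real.exp_add, Real.rpow_def_of_pos (mul_pos hR0 hd0), Real.rpow_def_of_pos hR0,
      Real.log_mul hR0.ne' hd0.ne', show (2 : ℝ) * Real.log d = ((2 : ℕ) : ℝ) * Real.log d by norm_num,
      Real.exp_nat_mul, Real.exp_log hd0]
    ring
  have e2 : D ^ (-(c / 2)) * (1 / d ^ (5 / 4 : ℝ)) =
      Real.exp (Real.log D * (-(c / 2)) - Real.log d * (5 / 4)) := by
    rw [Real.exp_sub, Real.rpow_def_of_pos hD0, Real.rpow_def_of_pos hd0]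
    ring
  rw [e1, e2]
  refine Real.exp_le_exp.2 ?_
  have h1 : (Real.log R + Real.log d) * η ≤ (Real.log R + Real.log d) * (c / 4) :=
    mul_le_mul_of_nonneg_left hη (by linarith)
  have h2 : Real.log D * (c / 2) ≤ (Real.log R + Real.log d) * (c / 2) :=
    mul_le_mul_of_nonneg_right t1 (by linarith)
  have h3 : Real.log d * c ≤ Real.log d * 1 := mul_le_mul_of_nonneg_left hc1 s0
  have h4 : 0 ≤ Real.log R * c := mul_nonneg r0 hc0.le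
  nlinarith

/-- Proof. Let `ε` be so small that `(2 k + A) ε ≤ c/2` and `≤ 1/4`. Group the pairs `(κ, κ')` according to `d = dof R κ κ'`: all
`κ i, κ' i` divide `R d`, so there are at most `τ(R d)^(2k)` pairs (`piFinset` of divisors), and `D < R d`. By the
divisor bound `s1_div` (`H33N/S1.lean`) `τ(R d)^(2k) τ(R)^A τ(d)^A ≤ C (R d)^((2k+A)ε)` (`τ(R) τ(d) = τ(R d)`, coprime). So the sum is at
most `C R^(-c/2) ∑_{d > D/R} d^(-3/2) ≤ C R^(-c/2) · 3 min(1, (R/D)^(1/2)) ≤ 3 C D^(-c/2)` (`c ≤ 1`). -/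
theorem F2_sum (k A : ℕ) (c : ℝ) (hc0 : 0 < c) (hc1 : c ≤ 1) : ∃ C : ℝ, 0 < C ∧ ∀ Q D : ℕ, 1 ≤ D →
    ∀ p : Fin k → Ch, (∀ i, p i ∈ PC Q) → ∀ T : Finset (Fin k → ℕ),
    T ⊆ Fintype.piFinset (fun i => KS Q (p i).1) → (∀ κ ∈ T, D < univ.lcm (fun i => (p i).1 * κ i)) →
    ∑ κ ∈ T, ∑ κ' ∈ T, tau (Rm p) ^ A * (Rm p : ℝ) ^ (-c) *
      (tau (dof (Rm p) κ κ') ^ A / (dof (Rm p) κ κ' : ℝ) ^ 2) ≤ C * (D : ℝ) ^ (-(c / 2)) := by
  classical
  obtain ⟨ε, hε0, hε⟩ : ∃ ε : ℝ, 0 < ε ∧ ε * ((2 * k + A : ℕ) : ℝ) ≤ c / 4 := by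
    refine ⟨c / (4 * (((2 * k + A : ℕ) : ℝ) + 1)), by positivity, ?_⟩
    rw [div_mul_eq_mul_div, div_le_div_iff₀ (by positivity) (by norm_num)]
    have : (0 : ℝ) ≤ ((2 * k + A : ℕ) : ℝ) := Nat.cast_nonneg _
    nlinarith
  obtain ⟨C0, hC1, hC⟩ := Pool.Agent.Lib.H33N.s1_div hε0
  have hsum : Summable (fun n : ℕ => 1 / (n : ℝ) ^ (5 / 4 : ℝ)) :=
    Real.summable_one_div_nat_rpow.2 (by norm_num)
  have hC0 : 0 < C0 := by linarith
  have htn : 0 ≤ ∑' n : ℕ, 1 / (n : ℝ) ^ (5 / 4 : ℝ) := tsum_nonneg fun n => by positivity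
  refine ⟨C0 ^ (2 * k + A) * (∑' n : ℕ, 1 / (n : ℝ) ^ (5 / 4 : ℝ) + 1), by positivity, ?_⟩
  intro Q D hD p hp T hT hTD
  have hPm : Pm p := fun i => ⟨(mem_PC.1 (hp i)).1, (mem_PC.1 (hp i)).2.2⟩
  have hKS : ∀ κ ∈ T, ∀ i, κ i ∈ KS Q (p i).1 := fun κ hκ i => Fintype.mem_piFinset.1 (hT hκ) i
  have hKp : ∀ κ ∈ T, Kp p κ := fun κ hκ i => (CA_mem_KS.1 (hKS κ hκ i)).2
  rw [← Finset.sum_product' (s := T) (t := T) (f := fun κ κ' => tau (Rm p) ^ A * (Rm p : ℝ) ^ (-c) *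
      (tau (dof (Rm p) κ κ') ^ A / (dof (Rm p) κ κ' : ℝ) ^ 2))]
  have hcomp := Finset.sum_comp (s := T ×ˢ T) (fun d : ℕ => tau (Rm p) ^ A * (Rm p : ℝ) ^ (-c) *
      (tau d ^ A / (d : ℝ) ^ 2)) (fun x : (Fin k → ℕ) × (Fin k → ℕ) => dof (Rm p) x.1 x.2)
  have hlhs : ∑ x ∈ T ×ˢ T, (fun κ κ' : Fin k → ℕ => tau (Rm p) ^ A * (Rm p : ℝ) ^ (-c) *
      (tau (dof (Rm p) κ κ') ^ A / (dof (Rm p) κ κ' : ℝ) ^ 2)) x.1 x.2 =
      ∑ x ∈ T ×ˢ T, (fun d : ℕ => tau (Rm p) ^ A * (Rm p : ℝ) ^ (-c) *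
      (tau d ^ A / (d : ℝ) ^ 2)) (dof (Rm p) x.1 x.2) := rfl
  rw [hlhs, hcomp]
  have hterm : ∀ d ∈ (T ×ˢ T).image (fun x : (Fin k → ℕ) × (Fin k → ℕ) => dof (Rm p) x.1 x.2),
      ((T ×ˢ T).filter (fun x : (Fin k → ℕ) × (Fin k → ℕ) => dof (Rm p) x.1 x.2 = d)).card •
        (tau (Rm p) ^ A * (Rm p : ℝ) ^ (-c) * (tau d ^ A / (d : ℝ) ^ 2)) ≤
      C0 ^ (2 * k + A) * (D : ℝ) ^ (-(c / 2)) * (1 / (d : ℝ) ^ (5 / 4 : ℝ)) := by
    intro d hd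
    obtain ⟨x, hx, hxd⟩ := Finset.mem_image.1 hd
    have hx1 := (Finset.mem_product.1 hx).1
    have hx2 := (Finset.mem_product.1 hx).2
    have hpos : 0 < Rm p * d := by
      rw [← hxd]
      exact (F2_size Q p hp x.1 x.2 (hKS _ hx1) (hKS _ hx2)).1
    have hR0 : 0 < Rm p := Nat.pos_of_ne_zero fun h => by rw [h, zero_mul] at hpos; exact hpos.ne rfl
    have hd0 : 0 < d := Nat.pos_of_ne_zero fun h => by rw [h, mul_zero] at hpos; exact hpos.ne rfl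
    have hcop : Nat.Coprime d (Rm p) := by
      rw [← hxd]
      exact (F1_dof (Rm p) x.1 x.2).2.2.1
    have hDlt : D < Rm p * d := by
      refine lt_of_lt_of_le (hTD x.1 hx1) (Nat.le_of_dvd hpos ?_)
      rw [← hxd]
      exact (F2_dvd p hPm x.1 x.2 (hKp _ hx1) (hKp _ hx2)).2
    have hcard : ((T ×ˢ T).filter (fun x : (Fin k → ℕ) × (Fin k → ℕ) => dof (Rm p) x.1 x.2 = d)).card ≤
        (Rm p * d).divisors.card ^ (2 * k) := by
      have hsub : (T ×ˢ T).filter (fun x : (Fin k → ℕ) × (Fin k → ℕ) => dof (Rm p) x.1 x.2 = d) ⊆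
          (Fintype.piFinset fun _ : Fin k => (Rm p * d).divisors) ×ˢ
            (Fintype.piFinset fun _ : Fin k => (Rm p * d).divisors) := by
        intro y hy
        rw [Finset.mem_filter, Finset.mem_product] at hy
        obtain ⟨⟨hy1, hy2⟩, hyd⟩ := hy
        have h := (F2_dvd p hPm y.1 y.2 (hKp _ hy1) (hKp _ hy2)).1
        rw [hyd] at h
        rw [Finset.mem_product, Fintype.mem_piFinset, Fintype.mem_piFinset]
        exact ⟨fun i => Nat.mem_divisors.2 ⟨(h i).1, hpos.ne'⟩,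
          fun i => Nat.mem_divisors.2 ⟨(h i).2, hpos.ne'⟩⟩
      refine (Finset.card_le_card hsub).trans ?_
      rw [Finset.card_product, Fintype.card_piFinset_const, ← pow_add]
      refine le_of_eq ?_
      congr 1
      omega
    have htau : tau (Rm p) ^ A * tau d ^ A = ((Rm p * d).divisors.card : ℝ) ^ A := by
      unfold tau
      rw [← mul_pow, Nat.Coprime.card_divisors_mul hcop.symm]
      push_cast
      rfl
    have hdiv : ((Rm p * d).divisors.card : ℝ) ≤ C0 * (((Rm p : ℝ) * (d : ℝ)) ^ ε) := by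
      have h := hC (Rm p * d) hpos
      push_cast at h
      exact h
    have hR1 : (1 : ℝ) ≤ (Rm p : ℝ) := by exact_mod_cast hR0
    have hd1 : (1 : ℝ) ≤ (d : ℝ) := by exact_mod_cast hd0
    have hD1 : (1 : ℝ) ≤ (D : ℝ) := by exact_mod_cast hD
    have hDR : (D : ℝ) ≤ (Rm p : ℝ) * (d : ℝ) := by exact_mod_cast hDlt.le
    have hRd0 : (0 : ℝ) < (Rm p : ℝ) * (d : ℝ) := by positivity
    have hest := f2_est (η := ε * ((2 * k + A : ℕ) : ℝ)) hR1 hd1 hD1 hDR hc0 hc1 hε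
    have hfac : (0 : ℝ) ≤ (Rm p : ℝ) ^ (-c) * (1 / (d : ℝ) ^ 2) := by positivity
    rw [nsmul_eq_mul]
    calc _ ≤ ((Rm p * d).divisors.card : ℝ) ^ (2 * k) *
          (tau (Rm p) ^ A * (Rm p : ℝ) ^ (-c) * (tau d ^ A / (d : ℝ) ^ 2)) := by
          refine mul_le_mul_of_nonneg_right (by exact_mod_cast hcard) ?_
          unfold tau
          positivity
      _ = ((Rm p * d).divisors.card : ℝ) ^ (2 * k + A) * ((Rm p : ℝ) ^ (-c) * (1 / (d : ℝ) ^ 2)) := by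
          rw [pow_add, ← htau]
          ring
      _ ≤ (C0 * (((Rm p : ℝ) * (d : ℝ)) ^ ε)) ^ (2 * k + A) * ((Rm p : ℝ) ^ (-c) * (1 / (d : ℝ) ^ 2)) :=
          mul_le_mul_of_nonneg_right (pow_le_pow_left₀ (Nat.cast_nonneg _) hdiv _) hfac
      _ = C0 ^ (2 * k + A) * (((Rm p : ℝ) * (d : ℝ)) ^ (ε * ((2 * k + A : ℕ) : ℝ)) *
            (Rm p : ℝ) ^ (-c) * (1 / (d : ℝ) ^ 2)) := by
          rw [mul_pow, ← Real.rpow_natCast ((((Rm p : ℝ) * (d : ℝ)) ^ ε)) (2 * k + A),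
            ← Real.rpow_mul hRd0.le]
          ring
      _ ≤ C0 ^ (2 * k + A) * ((D : ℝ) ^ (-(c / 2)) * (1 / (d : ℝ) ^ (5 / 4 : ℝ))) :=
          mul_le_mul_of_nonneg_left hest (by positivity)
      _ = _ := by ring
  refine (Finset.sum_le_sum hterm).trans ?_
  rw [← Finset.mul_sum]
  have h5 : ∑ d ∈ (T ×ˢ T).image (fun x : (Fin k → ℕ) × (Fin k → ℕ) => dof (Rm p) x.1 x.2),
      1 / (d : ℝ) ^ (5 / 4 : ℝ) ≤ ∑' n : ℕ, 1 / (n : ℝ) ^ (5 / 4 : ℝ) :=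
    hsum.sum_le_tsum _ fun n _ => by positivity
  have h6 : (0 : ℝ) ≤ C0 ^ (2 * k + A) * (D : ℝ) ^ (-(c / 2)) := by positivity
  calc _ ≤ C0 ^ (2 * k + A) * (D : ℝ) ^ (-(c / 2)) * (∑' n : ℕ, 1 / (n : ℝ) ^ (5 / 4 : ℝ) + 1) :=
        mul_le_mul_of_nonneg_left (by linarith) h6
    _ = _ := by ring

end Pool.Agent.Lib.H59T
end

-- from Lib.H59T.F3
section

/-!
# Project H59T, chunk F3 (M): the mean square of the part with large moduli
-/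

open Finset

namespace Pool.Agent.Lib.H59T

open Pool.Agent.Lib.H68T Pool.Agent.Lib.H18Q Pool.Agent.Lib.H59P

/-- The components are bounded by `Q`. -/
theorem f3_gk (Q : ℕ) (p : Ch) (hp : p ∈ PC Q) (κ : ℕ) (hκ : κ ∈ KS Q p.1) (m : ℤ) :
    ‖gk p κ m‖ ≤ (Q : ℝ) := by
  rw [CA_norm, CA_F_abs m κ (CA_mem_KS.1 hκ).2.1]
  obtain ⟨h1, h2, -⟩ := mem_PC.1 hp
  have hne : NeZero p.1 := ⟨by omega⟩
  have h3 : (1 : ℝ) ≤ (Nat.totient p.1 : ℝ) := by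
    exact_mod_cast Nat.totient_pos.2 (by omega)
  have h4 : (p.1 : ℝ) / (Nat.totient p.1 : ℝ) ≤ (Q : ℝ) :=
    (div_le_self (Nat.cast_nonneg _) h3).trans (by exact_mod_cast h2)
  have h5 : ‖p.2 (m : ZMod p.1)‖ ≤ 1 := DirichletCharacter.norm_le_one p.2 _
  have h6 : ∏ l ∈ κ.primeFactors, (if (l : ℤ) ∣ m then (1 : ℝ) else 1 / ((l : ℝ) - 1)) ≤ 1 := by
    refine Finset.prod_le_one (fun l hl => ?_) (fun l hl => ?_)
    · have h7 : (2 : ℝ) ≤ l := by exact_mod_cast (Nat.prime_of_mem_primeFactors hl).two_le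
      split_ifs
      · exact zero_le_one
      · exact div_nonneg zero_le_one (by linarith)
    · have h7 : (2 : ℝ) ≤ l := by exact_mod_cast (Nat.prime_of_mem_primeFactors hl).two_le
      split_ifs
      · exact le_rfl
      · rw [div_le_one (by linarith)]
        linarith
  have h8 : 0 ≤ ∏ l ∈ κ.primeFactors, (if (l : ℤ) ∣ m then (1 : ℝ) else 1 / ((l : ℝ) - 1)) := by
    refine Finset.prod_nonneg (fun l hl => ?_)
    have h7 : (2 : ℝ) ≤ l := by exact_mod_cast (Nat.prime_of_mem_primeFactors hl).two_le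
    split_ifs
    · exact zero_le_one
    · exact div_nonneg zero_le_one (by linarith)
  have h9 : (0 : ℝ) ≤ (Q : ℝ) := Nat.cast_nonneg _
  have h10 : (p.1 : ℝ) / (Nat.totient p.1 : ℝ) * ‖p.2 (m : ZMod p.1)‖ ≤ (Q : ℝ) * 1 :=
    mul_le_mul h4 h5 (norm_nonneg _) h9
  calc _ ≤ ((Q : ℝ) * 1) * 1 := mul_le_mul h10 h6 h8 (by rw [mul_one]; exact h9)
    _ = (Q : ℝ) := by ring

/-- Proof. `|gk p κ m| ≤ p.1 ≤ Q` (`CA_norm`, `CA_F_abs` in `H18Q/CA`, `r/φ(r) ≤ r`). -/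
theorem F3_sup {k : ℕ} (ψ : Fm k) (Q : ℕ) (p : Fin k → Ch) (hp : ∀ i, p i ∈ PC Q) (κ κ' : Fin k → ℕ)
    (hκ : ∀ i, κ i ∈ KS Q (p i).1) (hκ' : ∀ i, κ' i ∈ KS Q (p i).1) (y y' z z' : ℤ) :
    ‖Db ψ (fun i => gk (p i) (κ i)) (fun i => gk (p i) (κ' i)) y y' z z'‖ ≤ (Q : ℝ) ^ (2 * k) := by
  unfold Db
  rw [norm_prod]
  calc ∏ i : Fin k, ‖gk (p i) (κ i) (ψ i y y' z) * (starRingEnd ℂ) (gk (p i) (κ' i) (ψ i y y' z'))‖
      ≤ ∏ _i : Fin k, ((Q : ℝ) * Q) := by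
        refine Finset.prod_le_prod (fun i _ => norm_nonneg _) (fun i _ => ?_)
        rw [norm_mul, RCLike.norm_conj]
        exact mul_le_mul (f3_gk Q (p i) (hp i) _ (hκ i) _) (f3_gk Q (p i) (hp i) _ (hκ' i) _) (norm_nonneg _)
          (Nat.cast_nonneg _)
    _ = (Q : ℝ) ^ (2 * k) := by
        rw [Finset.prod_const, Finset.card_univ, Fintype.card_fin, ← pow_two, ← pow_mul]

/-- The square as a double sum. Proof. `‖x‖² = x conj x`, `Finset.sum_mul_sum`, exchange of sums. -/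
theorem F3_expand {k : ℕ} (ψ : Fm k) (p : Fin k → Ch) (T : Finset (Fin k → ℕ)) (a a' b s s' H : ℕ) :
    (((∑ y ∈ Ico a (a + s), ∑ y' ∈ Ico a' (a' + s'), ‖∑ z ∈ Ico b (b + H), ∑ κ ∈ T,
        ∏ i, gk (p i) (κ i) (ψ i y y' z)‖ ^ 2 : ℝ)) : ℂ) =
      ∑ κ ∈ T, ∑ κ' ∈ T, ∑ y ∈ Ico a (a + s), ∑ y' ∈ Ico a' (a' + s'), ∑ z ∈ Ico b (b + H),
        ∑ z' ∈ Ico b (b + H), Db ψ (fun i => gk (p i) (κ i)) (fun i => gk (p i) (κ' i)) y y' z z' := by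
  have hsq : ∀ y y' : ℕ, (((‖∑ z ∈ Ico b (b + H), ∑ κ ∈ T, ∏ i, gk (p i) (κ i) (ψ i y y' z)‖ ^ 2 : ℝ)) : ℂ) =
      ∑ κ ∈ T, ∑ κ' ∈ T, ∑ z ∈ Ico b (b + H), ∑ z' ∈ Ico b (b + H),
        Db ψ (fun i => gk (p i) (κ i)) (fun i => gk (p i) (κ' i)) y y' z z' := by
    intro y y'
    rw [← Complex.normSq_eq_norm_sq, ← Complex.mul_conj, Finset.sum_comm, map_sum, Finset.sum_mul_sum]
    refine Finset.sum_congr rfl fun κ _ => Finset.sum_congr rfl fun κ' _ => ?_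
    rw [map_sum, Finset.sum_mul_sum]
    refine Finset.sum_congr rfl fun z _ => Finset.sum_congr rfl fun z' _ => ?_
    unfold Db
    rw [map_prod, ← Finset.prod_mul_distrib]
  rw [Complex.ofReal_sum]
  have h1 : ∀ y ∈ Ico a (a + s), (((∑ y' ∈ Ico a' (a' + s'), ‖∑ z ∈ Ico b (b + H), ∑ κ ∈ T,
        ∏ i, gk (p i) (κ i) (ψ i y y' z)‖ ^ 2 : ℝ)) : ℂ) =
      ∑ κ ∈ T, ∑ κ' ∈ T, ∑ y' ∈ Ico a' (a' + s'), ∑ z ∈ Ico b (b + H), ∑ z' ∈ Ico b (b + H),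
        Db ψ (fun i => gk (p i) (κ i)) (fun i => gk (p i) (κ' i)) y y' z z' := by
    intro y _
    rw [Complex.ofReal_sum, Finset.sum_congr rfl (fun y' _ => hsq y y'), Finset.sum_comm]
    refine Finset.sum_congr rfl fun κ _ => ?_
    rw [Finset.sum_comm]
  rw [Finset.sum_congr rfl h1, Finset.sum_comm]
  refine Finset.sum_congr rfl fun κ _ => ?_
  rw [Finset.sum_comm]

/-- **FG for forms with local bounds.** Proof. `F3_expand`; for each pair `C2_box` with `N = R d ≤ Q^(2k)` (`F2_size`), `L = Q^(8k)`,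
`B = Q^(2k)` (`F3_sup`), `F1_glob`: the sum over the box is at most
`(τ(R)^A R^(-c) τ(d)^A/d² + 8 Q^(2k)/Q^(8k)) s s' H²`. At most `Q^(2k)` pairs; `F2_sum`. The rest is `8 Q^(-4k) ≤ 8 D^(-c/2)`:
`T` not empty, `D < lcm ≤ ∏ (p i).1 κ i ≤ Q^k`. -/
theorem F3_gen (k A : ℕ) (c : ℝ) (hc0 : 0 < c) (hc1 : c ≤ 1) : ∃ C : ℝ, 0 < C ∧
    ∀ ψ : Fm k, CpF ψ → LocB ψ A c → ∀ Q D : ℕ, 1 ≤ D → ∀ p : Fin k → Ch, (∀ i, p i ∈ PC Q) →
    ∀ T : Finset (Fin k → ℕ), T ⊆ Fintype.piFinset (fun i => KS Q (p i).1) →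
    (∀ κ ∈ T, D < univ.lcm (fun i => (p i).1 * κ i)) → ∀ a a' b s s' H : ℕ,
    Q ^ (10 * k) ≤ s → Q ^ (10 * k) ≤ s' → Q ^ (10 * k) ≤ H →
    ∑ y ∈ Ico a (a + s), ∑ y' ∈ Ico a' (a' + s'), ‖∑ z ∈ Ico b (b + H), ∑ κ ∈ T,
      ∏ i, gk (p i) (κ i) (ψ i y y' z)‖ ^ 2 ≤ C * ((s : ℝ) * s' * H ^ 2) * (D : ℝ) ^ (-(c / 2)) := by
  classical
  obtain ⟨C, hC, hsum⟩ := F2_sum k A c hc0 hc1
  refine ⟨C + 8, by linarith, fun ψ hψ hL Q D hD p hp T hT hTD a a' b s s' H hs hs' hH => ?_⟩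
  have hDr : (1 : ℝ) ≤ (D : ℝ) := by exact_mod_cast hD
  have hDp : (0 : ℝ) < (D : ℝ) ^ (-(c / 2)) := Real.rpow_pos_of_pos (by linarith) _
  have hV : (0 : ℝ) ≤ (s : ℝ) * s' * H ^ 2 := by positivity
  rcases T.eq_empty_or_nonempty with hT0 | ⟨κ₀, hκ₀⟩
  · subst hT0
    have h0 : ∑ y ∈ Ico a (a + s), ∑ y' ∈ Ico a' (a' + s'), ‖∑ z ∈ Ico b (b + H), ∑ κ ∈ (∅ : Finset (Fin k → ℕ)),
      ∏ i, gk (p i) (κ i) (ψ i y y' z)‖ ^ 2 = 0 := by simp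
    rw [h0]
    exact mul_nonneg (mul_nonneg (by linarith) hV) hDp.le
  have hKS : ∀ κ ∈ T, ∀ i, κ i ∈ KS Q (p i).1 := fun κ hκ i => (Fintype.mem_piFinset.1 (hT hκ)) i
  have hPm : Pm p := fun i => ⟨by have := (mem_PC.1 (hp i)).1; omega, (mem_PC.1 (hp i)).2.2⟩
  have hKp : ∀ κ ∈ T, Kp p κ := fun κ hκ i => (CA_mem_KS.1 (hKS κ hκ i)).2
  -- D is at most Q^k
  have hle1 : ∀ κ ∈ T, ∀ i, (p i).1 * κ i ≤ Q := by
    intro κ hκ i
    have h1 := (CA_mem_KS.1 (hKS κ hκ i)).1.2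
    calc (p i).1 * κ i ≤ (p i).1 * (Q / (p i).1) := Nat.mul_le_mul_left _ h1
      _ ≤ Q := Nat.mul_div_le Q _
  have hpos : ∀ κ ∈ T, ∀ i, 0 < (p i).1 * κ i := by
    intro κ hκ i
    exact Nat.mul_pos (hPm i).1 (CA_mem_KS.1 (hKS κ hκ i)).1.1
  have hDQ : D ≤ Q ^ k := by
    have h1 : (univ.lcm fun i => (p i).1 * κ₀ i) ≤ ∏ i, (p i).1 * κ₀ i := by
      refine Nat.le_of_dvd (Finset.prod_pos fun i _ => hpos κ₀ hκ₀ i) ?_
      exact Finset.lcm_dvd fun i hi => Finset.dvd_prod_of_mem (fun i => (p i).1 * κ₀ i) hi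
    have h2 : ∏ i, (p i).1 * κ₀ i ≤ ∏ _i : Fin k, Q := Finset.prod_le_prod' fun i _ => hle1 κ₀ hκ₀ i
    rw [Finset.prod_const, Finset.card_univ, Fintype.card_fin] at h2
    exact (hTD κ₀ hκ₀).le.trans (h1.trans h2)
  have hQk : 1 ≤ Q ^ k := hD.trans hDQ
  have hL0 : 0 < Q ^ (8 * k) := by
    rw [mul_comm, pow_mul]
    exact pow_pos hQk 8
  have hQkr : (1 : ℝ) ≤ (Q : ℝ) ^ k := by exact_mod_cast hQk
  have hcard : T.card ≤ Q ^ k := by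
    calc T.card ≤ (Fintype.piFinset (fun i => KS Q (p i).1)).card := Finset.card_le_card hT
      _ = ∏ i, (KS Q (p i).1).card := Fintype.card_piFinset _
      _ ≤ ∏ _i : Fin k, Q := by
          refine Finset.prod_le_prod' fun i _ => ?_
          unfold KS
          refine (Finset.card_filter_le _ _).trans ?_
          rw [Nat.card_Icc, Nat.add_sub_cancel]
          exact Nat.div_le_self _ _
      _ = Q ^ k := by rw [Finset.prod_const, Finset.card_univ, Fintype.card_fin]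
  -- one pair
  have hpair : ∀ κ ∈ T, ∀ κ' ∈ T,
      ‖∑ y ∈ Ico a (a + s), ∑ y' ∈ Ico a' (a' + s'), ∑ z ∈ Ico b (b + H), ∑ z' ∈ Ico b (b + H),
        Db ψ (fun i => gk (p i) (κ i)) (fun i => gk (p i) (κ' i)) y y' z z'‖ ≤
      ((s : ℝ) * s' * H ^ 2) * (tau (Rm p) ^ A * (Rm p : ℝ) ^ (-c) *
        (tau (dof (Rm p) κ κ') ^ A / (dof (Rm p) κ κ' : ℝ) ^ 2)) +
        ((s : ℝ) * s' * H ^ 2) * (8 * ((Q : ℝ) ^ k)⁻¹ ^ 6) := by
    intro κ hκ κ' hκ'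
    obtain ⟨hper, hb4⟩ := F1_glob ψ hψ A c hL p hPm κ κ' (hKp κ hκ) (hKp κ' hκ')
    obtain ⟨hN, hNQ⟩ := F2_size Q p hp κ κ' (hKS κ hκ) (hKS κ' hκ')
    set N := Rm p * dof (Rm p) κ κ' with hNdef
    have hNL : N * Q ^ (8 * k) ≤ Q ^ (10 * k) := by
      calc N * Q ^ (8 * k) ≤ Q ^ (2 * k) * Q ^ (8 * k) := Nat.mul_le_mul_right _ hNQ
        _ = Q ^ (10 * k) := by rw [← pow_add]; congr 1; ring
    have h1 := C2_box N (Q ^ (8 * k)) hN hL0 _ hper ((Q : ℝ) ^ (2 * k))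
      (fun y y' z z' => F3_sup ψ Q p hp κ κ' (hKS κ hκ) (hKS κ' hκ') y y' z z') a a' b b s s' H H
      (hNL.trans hs) (hNL.trans hs') (hNL.trans hH) (hNL.trans hH)
    set BX := ∑ y ∈ Ico a (a + s), ∑ y' ∈ Ico a' (a' + s'), ∑ z ∈ Ico b (b + H), ∑ z' ∈ Ico b (b + H),
        Db ψ (fun i => gk (p i) (κ i)) (fun i => gk (p i) (κ' i)) y y' z z' with hBX
    set S0 := S4 N (Db ψ (fun i => gk (p i) (κ i)) (fun i => gk (p i) (κ' i))) with hS0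
    have hN4 : (0 : ℝ) < (N : ℝ) ^ 4 := pow_pos (by exact_mod_cast hN) 4
    have hw0 : (0 : ℝ) ≤ (s : ℝ) * s' * H * H / (N : ℝ) ^ 4 := by positivity
    have h2 : ‖(((s : ℝ) * s' * H * H / (N : ℝ) ^ 4 : ℝ) : ℂ) * S0‖ ≤
        ((s : ℝ) * s' * H ^ 2) * (tau (Rm p) ^ A * (Rm p : ℝ) ^ (-c) *
          (tau (dof (Rm p) κ κ') ^ A / (dof (Rm p) κ κ' : ℝ) ^ 2)) := by
      rw [norm_mul, Complex.norm_real, Real.norm_eq_abs, abs_of_nonneg hw0]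
      calc (s : ℝ) * s' * H * H / (N : ℝ) ^ 4 * ‖S0‖ ≤ (s : ℝ) * s' * H * H / (N : ℝ) ^ 4 *
            ((N : ℝ) ^ 4 * (tau (Rm p) ^ A * (Rm p : ℝ) ^ (-c) *
          (tau (dof (Rm p) κ κ') ^ A / (dof (Rm p) κ κ' : ℝ) ^ 2))) := mul_le_mul_of_nonneg_left hb4 hw0
        _ = _ := by
            field_simp
    have h3 : 8 * (Q : ℝ) ^ (2 * k) / ((Q ^ (8 * k) : ℕ) : ℝ) * ((s : ℝ) * s' * H * H) =
        ((s : ℝ) * s' * H ^ 2) * (8 * ((Q : ℝ) ^ k)⁻¹ ^ 6) := by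
      have h4 : (Q : ℝ) ^ k ≠ 0 := by linarith
      have h5 : (Q : ℝ) ^ (2 * k) = ((Q : ℝ) ^ k) ^ 2 := by rw [← pow_mul, mul_comm]
      have h6 : ((Q ^ (8 * k) : ℕ) : ℝ) = ((Q : ℝ) ^ k) ^ 8 := by
        rw [Nat.cast_pow, ← pow_mul, mul_comm k 8]
      rw [h5, h6]
      field_simp
    rw [h3] at h1
    have h4 : BX = (BX - (((s : ℝ) * s' * H * H / (N : ℝ) ^ 4 : ℝ) : ℂ) * S0) +
        (((s : ℝ) * s' * H * H / (N : ℝ) ^ 4 : ℝ) : ℂ) * S0 := by ring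
    rw [h4]
    refine (norm_add_le _ _).trans ?_
    rw [add_comm]
    exact add_le_add h2 h1
  -- the sum
  have hreal : ∑ y ∈ Ico a (a + s), ∑ y' ∈ Ico a' (a' + s'), ‖∑ z ∈ Ico b (b + H), ∑ κ ∈ T,
      ∏ i, gk (p i) (κ i) (ψ i y y' z)‖ ^ 2 ≤ ∑ κ ∈ T, ∑ κ' ∈ T,
      ‖∑ y ∈ Ico a (a + s), ∑ y' ∈ Ico a' (a' + s'), ∑ z ∈ Ico b (b + H), ∑ z' ∈ Ico b (b + H),
        Db ψ (fun i => gk (p i) (κ i)) (fun i => gk (p i) (κ' i)) y y' z z'‖ := by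
    have h1 := F3_expand ψ p T a a' b s s' H
    have h2 : 0 ≤ ∑ y ∈ Ico a (a + s), ∑ y' ∈ Ico a' (a' + s'), ‖∑ z ∈ Ico b (b + H), ∑ κ ∈ T,
      ∏ i, gk (p i) (κ i) (ψ i y y' z)‖ ^ 2 :=
      Finset.sum_nonneg fun _ _ => Finset.sum_nonneg fun _ _ => sq_nonneg _
    have h3 := congrArg norm h1
    rw [Complex.norm_real, Real.norm_eq_abs, abs_of_nonneg h2] at h3
    rw [h3]
    refine (norm_sum_le _ _).trans (Finset.sum_le_sum fun κ _ => norm_sum_le _ _)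
  refine hreal.trans ?_
  refine (Finset.sum_le_sum fun κ hκ => Finset.sum_le_sum fun κ' hκ' => hpair κ hκ κ' hκ').trans ?_
  have hsplit : ∑ κ ∈ T, ∑ κ' ∈ T, (((s : ℝ) * s' * H ^ 2) * (tau (Rm p) ^ A * (Rm p : ℝ) ^ (-c) *
        (tau (dof (Rm p) κ κ') ^ A / (dof (Rm p) κ κ' : ℝ) ^ 2)) +
        ((s : ℝ) * s' * H ^ 2) * (8 * ((Q : ℝ) ^ k)⁻¹ ^ 6)) =
      ((s : ℝ) * s' * H ^ 2) * (∑ κ ∈ T, ∑ κ' ∈ T, tau (Rm p) ^ A * (Rm p : ℝ) ^ (-c) *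
        (tau (dof (Rm p) κ κ') ^ A / (dof (Rm p) κ κ' : ℝ) ^ 2)) +
      ((s : ℝ) * s' * H ^ 2) * ((T.card : ℝ) * T.card * (8 * ((Q : ℝ) ^ k)⁻¹ ^ 6)) := by
    rw [Finset.mul_sum]
    simp only [Finset.sum_add_distrib, Finset.mul_sum, Finset.sum_const, nsmul_eq_mul]
    ring
  rw [hsplit]
  have hmain := hsum Q D hD p hp T hT hTD
  have herr : (T.card : ℝ) * T.card * (8 * ((Q : ℝ) ^ k)⁻¹ ^ 6) ≤ 8 * (D : ℝ) ^ (-(c / 2)) := by
    have h1 : (T.card : ℝ) ≤ (Q : ℝ) ^ k := by exact_mod_cast hcard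
    have h2 : (0 : ℝ) < (Q : ℝ) ^ k := by linarith
    have h3 : (T.card : ℝ) * T.card ≤ (Q : ℝ) ^ k * (Q : ℝ) ^ k :=
      mul_le_mul h1 h1 (Nat.cast_nonneg _) h2.le
    have h4 : ((Q : ℝ) ^ k)⁻¹ ≤ (D : ℝ) ^ (-(c / 2)) := by
      have h5 : (D : ℝ) ≤ (Q : ℝ) ^ k := by exact_mod_cast hDQ
      rw [Real.rpow_neg (by linarith)]
      refine inv_anti₀ (Real.rpow_pos_of_pos (by linarith) _) ?_
      calc (D : ℝ) ^ (c / 2) ≤ (D : ℝ) ^ (1 : ℝ) := Real.rpow_le_rpow_of_exponent_le hDr (by linarith)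
        _ = (D : ℝ) := Real.rpow_one _
        _ ≤ (Q : ℝ) ^ k := h5
    have h5 : ((Q : ℝ) ^ k)⁻¹ ≤ 1 := inv_le_one_of_one_le₀ hQkr
    have h6 : 0 ≤ ((Q : ℝ) ^ k)⁻¹ := inv_nonneg.2 h2.le
    calc (T.card : ℝ) * T.card * (8 * ((Q : ℝ) ^ k)⁻¹ ^ 6)
        ≤ ((Q : ℝ) ^ k * (Q : ℝ) ^ k) * (8 * ((Q : ℝ) ^ k)⁻¹ ^ 6) :=
          mul_le_mul_of_nonneg_right h3 (by positivity)
      _ = 8 * ((Q : ℝ) ^ k)⁻¹ ^ 4 := by
          field_simp
      _ ≤ 8 * ((Q : ℝ) ^ k)⁻¹ := by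
          have : ((Q : ℝ) ^ k)⁻¹ ^ 4 ≤ ((Q : ℝ) ^ k)⁻¹ ^ 1 := pow_le_pow_of_le_one h6 h5 (by norm_num)
          rw [pow_one] at this
          linarith
      _ ≤ 8 * (D : ℝ) ^ (-(c / 2)) := by linarith
  calc _ ≤ ((s : ℝ) * s' * H ^ 2) * (C * (D : ℝ) ^ (-(c / 2))) +
        ((s : ℝ) * s' * H ^ 2) * (8 * (D : ℝ) ^ (-(c / 2))) :=
        add_le_add (mul_le_mul_of_nonneg_left hmain hV) (mul_le_mul_of_nonneg_left herr hV)
    _ = (C + 8) * ((s : ℝ) * s' * H ^ 2) * (D : ℝ) ^ (-(c / 2)) := by ring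

end Pool.Agent.Lib.H59T
end
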