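import Pool.Agent.Lib.H1M.RV2.M079
import Pool.Agent.Lib.H1M.RV2.M085

/-! Merged copies (to shorten the build) of Lib.H24Q.R5. -/

-- from Lib.H24Q.R5
section

/-!
# Project H24Q, chunk R5 (M): large moduli (port of `H24P/Z1L`)
-/

open Finset Polynomial

namespace Pool.Agent.Lib.H24Q

open Pool.Agent.Lib.H68T Pool.Agent.Lib.H18Q Pool.Agent.Lib.H59P Pool.Agent.Lib.H24P

/-- Proof. As `z1l_small` (`H24P/Z1L.lean`): the product `∏ gk (p i) (κ i) (φ i n)` has period `lcm(r_i κ_i) ≤ D7` in `n` by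
`Cp φ` (`gk_period`). -/
theorem R5_per {k : ℕ} (Q D7 : ℕ) (hQ : 1 ≤ Q) (φ : Fin k → ℤ → ℤ) (hφ : Cp φ) (p0' : Ch)
    (hp0 : p0' ∈ PC (Q ^ 100)) (B : ℤ[X]) (hB : B.natDegree = 1)
    (hlarge : B.leadingCoeff.natAbs * D7 < p0'.1) (p : Fin k → Ch) (hp : ∀ i, p i ∈ PC Q)
    (a H : ℕ) :
    ‖∑ n ∈ Ico a (a + H), Fc (Q ^ 100) p0' (B.eval (n : ℤ)) *
      ∑ κ ∈ (Fintype.piFinset (fun i : Fin k => KS Q (p i).1)).filter
        (fun κ => ¬ D7 < univ.lcm (fun i => (p i).1 * κ i)),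
        ∏ i, gk (p i) (κ i) (φ i (n : ℤ))‖ ≤
      2 * (Q : ℝ) ^ 300 * (D7 : ℝ) ^ (2 * k + 1) := by
  classical
  set S : Finset (Fin k → ℕ) := (Fintype.piFinset (fun i : Fin k => KS Q (p i).1)).filter
        (fun κ => ¬ D7 < univ.lcm (fun i => (p i).1 * κ i)) with hS
  have hr1 : ∀ i, 1 ≤ (p i).1 := fun i => (mem_PC.1 (hp i)).1
  have hfacts : ∀ κ ∈ S, (∀ i, κ i ∈ KS Q (p i).1) ∧ (∀ i, 1 ≤ κ i) ∧
      0 < univ.lcm (fun i => (p i).1 * κ i) ∧ univ.lcm (fun i => (p i).1 * κ i) ≤ D7 ∧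
      ∀ i, (p i).1 * κ i ≤ D7 := by
    intro κ hκ
    rw [hS, mem_filter, Fintype.mem_piFinset] at hκ
    have h1 : ∀ i, 1 ≤ κ i := fun i => (CA_mem_KS.1 (hκ.1 i)).1.1
    have h2 : 0 < univ.lcm (fun i => (p i).1 * κ i) := by
      refine Nat.pos_of_ne_zero ?_
      rw [Finset.lcm_ne_zero_iff]
      intro i _
      have := Nat.mul_pos (hr1 i) (h1 i)
      omega
    refine ⟨hκ.1, h1, h2, not_lt.1 hκ.2, fun i => ?_⟩
    exact (Nat.le_of_dvd h2 (Finset.dvd_lcm (f := fun i => (p i).1 * κ i) (mem_univ i))).trans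
      (not_lt.1 hκ.2)
  have e1 : ∑ n ∈ Ico a (a + H), Fc (Q ^ 100) p0' (B.eval (n : ℤ)) *
      ∑ κ ∈ S, ∏ i, gk (p i) (κ i) (φ i (n : ℤ)) =
      ∑ κ ∈ S, ∑ n ∈ Ico a (a + H), Fc (Q ^ 100) p0' (B.eval (n : ℤ)) *
        ∏ i, gk (p i) (κ i) (φ i (n : ℤ)) := by
    rw [Finset.sum_comm]
    refine Finset.sum_congr rfl fun n _ => ?_
    rw [Finset.mul_sum]
  rw [e1]
  have hone : ∀ κ ∈ S, ‖∑ n ∈ Ico a (a + H), Fc (Q ^ 100) p0' (B.eval (n : ℤ)) *
        ∏ i, gk (p i) (κ i) (φ i (n : ℤ))‖ ≤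
      2 * (Q : ℝ) ^ 300 * D7 * (D7 : ℝ) ^ k := by
    intro κ hκ
    obtain ⟨hK, h1, hN0, hND, hle⟩ := hfacts κ hκ
    have hB4 := B4_large (Q ^ 100) (univ.lcm (fun i => (p i).1 * κ i)) p0' hp0 B hB hN0
      (lt_of_le_of_lt (Nat.mul_le_mul_left _ hND) hlarge)
      (fun n => ∏ i, gk (p i) (κ i) (φ i n))
      (fun n => by
        refine Finset.prod_congr rfl fun i _ => ?_
        have h3 : (((p i).1 * κ i : ℕ) : ℤ) ∣
            φ i (n + (univ.lcm (fun i => (p i).1 * κ i) : ℕ)) - φ i n :=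
          (Int.natCast_dvd_natCast.2
            (Finset.dvd_lcm (f := fun i => (p i).1 * κ i) (mem_univ i))).trans (hφ i _ n)
        obtain ⟨c, hc⟩ := h3
        have h4 : φ i (n + (univ.lcm (fun i => (p i).1 * κ i) : ℕ)) =
            φ i n + (((p i).1 * κ i : ℕ) : ℤ) * c := by linarith
        rw [h4, gk_period])
      ((D7 : ℝ) ^ k) (fun n => by
        rw [norm_prod]
        calc ∏ i, ‖gk (p i) (κ i) (φ i n)‖ ≤ ∏ _i : Fin k, (D7 : ℝ) := by
              refine Finset.prod_le_prod (fun i _ => norm_nonneg _) fun i _ => ?_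
              have hrD : (p i).1 ≤ D7 := (Nat.le_mul_of_pos_right _ (h1 i)).trans (hle i)
              have hpD : p i ∈ PC D7 := mem_PC.2 ⟨hr1 i, hrD, (mem_PC.1 (hp i)).2.2⟩
              have hκD : κ i ∈ KS D7 (p i).1 := by
                rw [CA_mem_KS]
                refine ⟨⟨h1 i, ?_⟩, (CA_mem_KS.1 (hK i)).2⟩
                rw [Nat.le_div_iff_mul_le (hr1 i), mul_comm]
                exact hle i
              exact gk_bound D7 (p i) hpD (κ i) hκD _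
          _ = (D7 : ℝ) ^ k := by rw [Finset.prod_const, Finset.card_univ, Fintype.card_fin]) a H
    refine hB4.trans ?_
    have hND' : ((univ.lcm (fun i => (p i).1 * κ i) : ℕ) : ℝ) ≤ D7 := by exact_mod_cast hND
    calc 2 * (((Q ^ 100 : ℕ) : ℝ)) ^ 3 * ((univ.lcm (fun i => (p i).1 * κ i) : ℕ) : ℝ) * (D7 : ℝ) ^ k
        = 2 * (Q : ℝ) ^ 300 * ((univ.lcm (fun i => (p i).1 * κ i) : ℕ) : ℝ) * (D7 : ℝ) ^ k := by
          rw [Nat.cast_pow, ← pow_mul]
      _ ≤ 2 * (Q : ℝ) ^ 300 * D7 * (D7 : ℝ) ^ k := by gcongr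
  have hcard : (S.card : ℝ) ≤ (D7 : ℝ) ^ k := by
    have h1 : S ⊆ Fintype.piFinset fun _ : Fin k => Icc 1 D7 := by
      intro κ hκ
      obtain ⟨-, h1, -, -, hle⟩ := hfacts κ hκ
      rw [Fintype.mem_piFinset]
      intro i
      rw [Finset.mem_Icc]
      exact ⟨h1 i, (Nat.le_mul_of_pos_left _ (hr1 i)).trans (hle i)⟩
    have h2 := Finset.card_le_card h1
    rw [Fintype.card_piFinset, Finset.prod_const, Finset.card_univ, Fintype.card_fin, Nat.card_Icc,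
      Nat.add_sub_cancel] at h2
    exact_mod_cast h2
  calc _ ≤ ∑ _κ ∈ S, 2 * (Q : ℝ) ^ 300 * D7 * (D7 : ℝ) ^ k := norm_sum_le_of_le _ hone
    _ = S.card * (2 * (Q : ℝ) ^ 300 * D7 * (D7 : ℝ) ^ k) := by rw [Finset.sum_const, nsmul_eq_mul]
    _ ≤ (D7 : ℝ) ^ k * (2 * (Q : ℝ) ^ 300 * D7 * (D7 : ℝ) ^ k) :=
        mul_le_mul_of_nonneg_right hcard (by positivity)
    _ = 2 * (Q : ℝ) ^ 300 * (D7 : ℝ) ^ (2 * k + 1) := by ring

/-- **R5.** Proof. As `Z1_large` (`H24P/Z1L.lean`): `R5_per`, and `FW` instead of `Fgen`. -/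
theorem R5_large (k A : ℕ) (hA : 1 ≤ A) (C c : ℝ) (hC : 1 ≤ C) (hc : 0 < c) : ∃ c' : ℝ, 0 < c' ∧
    ∃ Q0 : ℕ, ∀ Q : ℕ, Q0 ≤ Q → ∀ B : ℤ[X], Lin A B → ∀ (H0 : ℕ) (Ω : Type) (S : Finset Ω)
    (φ : Ω → Fin k → ℤ → ℤ), FamW C c Q H0 B S φ → ∀ r : ℕ, 1 ≤ r → r ^ 100 ≤ Q →
    ∀ p : Fin (k + 1) → Ch, p 0 ∈ PC (Q ^ 100) → (∀ i : Fin k, p i.succ ∈ PC Q) →
    p ∉ TSf (k + 1) Q (fl Q (1 / 16)) (B.leadingCoeff.natAbs * r) →
    ∀ a H : ℕ, H0 ≤ H → Q ^ 600 ≤ H →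
    ∑ ω ∈ S, ‖∑ n ∈ Ico a (a + H), Fc (Q ^ 100) (p 0) (B.eval (n : ℤ)) *
        ∏ i : Fin k, Fc Q (p i.succ) (φ ω i (n : ℤ))‖ ^ 2 ≤
      S.card * (H : ℝ) ^ 2 * (Q : ℝ) ^ (-c') := by
  classical
  obtain ⟨cc, hcc0, hcc1, hccc⟩ : ∃ cc : ℝ, 0 < cc ∧ cc ≤ 1 ∧ cc ≤ c :=
    ⟨min c 1, lt_min hc one_pos, min_le_right _ _, min_le_left _ _⟩
  have hC : 0 < C := by linarith
  obtain ⟨Q2, hQ21, hsize⟩ := G1_size A
  set x7 : ℝ := 1 / (256 * ((k : ℝ) + 1)) with hx7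
  have hk0 : (0 : ℝ) ≤ k := Nat.cast_nonneg k
  have hx70 : 0 < x7 := by positivity
  have hx71 : x7 ≤ 1 / 256 := by
    rw [hx7]
    apply one_div_le_one_div_of_le (by norm_num)
    linarith
  set δ : ℝ := cc * x7 with hδ
  have hδ0 : 0 < δ := by positivity
  have hδ1 : δ ≤ 1 / 256 := by
    calc δ ≤ 1 * x7 := mul_le_mul_of_nonneg_right hcc1 hx70.le
      _ ≤ 1 / 256 := by rw [one_mul]; exact hx71
  obtain ⟨Q3, hQ31, hlog⟩ := G1_rlog (8 * (C * 20000 * 100 ^ 9)) (C + 9) (δ / 2) (by positivity)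
  refine ⟨δ / 2, by positivity, max 2 (max Q2 Q3), ?_⟩
  intro Q hQ B hB H0 Ω S φ hFam r hr hrQ p hp0 hp hpT a H hHH hH
  have hQ2 : 2 ≤ Q := (le_max_left _ _).trans hQ
  have hQ2' : Q2 ≤ Q := ((le_max_left _ _).trans (le_max_right _ _)).trans hQ
  have hQ3' : Q3 ≤ Q := ((le_max_right _ _).trans (le_max_right _ _)).trans hQ
  have hQr : (2 : ℝ) ≤ Q := by exact_mod_cast hQ2
  have hQ0 : (0 : ℝ) < Q := by linarith
  have hQr1 : (1 : ℝ) ≤ Q := by linarith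
  have hlQ : 0 ≤ Real.log Q := Real.log_nonneg hQr1
  have hv : (0 : ℝ) ≤ (S.card : ℝ) := Nat.cast_nonneg _
  have hQH : Q ≤ H := (Nat.le_self_pow (by norm_num) Q).trans hH
  have hH1 : (1 : ℝ) ≤ H := by
    have : 1 ≤ H := by omega
    exact_mod_cast this
  have ha1 : 1 ≤ B.leadingCoeff.natAbs := b4_lc B hB.deg
  -- the weight
  set w : ℕ → ℂ := fun n => Fc (Q ^ 100) (p 0) (B.eval (n : ℤ)) with hw
  have hB5 := B5_sq (Q ^ 100) A (Nat.one_le_pow _ _ (by omega)) (p 0) hp0 B hB a H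
    (by
      rw [← pow_mul]
      exact (Nat.pow_le_pow_right (by omega) (by norm_num)).trans hH)
  have hlog100 : (1 + Real.log ((Q ^ 100 : ℕ) : ℝ)) ^ 9 ≤ 100 ^ 9 * (1 + Real.log Q) ^ 9 := by
    rw [← mul_pow]
    apply pow_le_pow_left₀
    · have : 0 ≤ Real.log ((Q ^ 100 : ℕ) : ℝ) := Real.log_natCast_nonneg _
      linarith
    · push_cast
      rw [Real.log_pow]
      push_cast
      linarith
  have hw2 : ∑ n ∈ Ico a (a + H), ‖w n‖ ^ 2 ≤ 20000 * (100 ^ 9 * (1 + Real.log Q) ^ 9) * H := by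
    refine hB5.trans ?_
    apply mul_le_mul_of_nonneg_right _ (by linarith)
    exact mul_le_mul_of_nonneg_left hlog100 (by norm_num)
  have hlogv := hlog Q hQ3'
  have hL0 : 0 < 1 + Real.log Q := by linarith
  -- the general bound from `Fgen`
  have hgen : ∀ (T : Finset (Fin k → ℕ)), T ⊆ Fintype.piFinset (fun i : Fin k => KS Q (p i.succ).1) →
      ∀ D : ℕ, 1 ≤ D → (∀ κ ∈ T, D < univ.lcm (fun i : Fin k => (p i.succ).1 * κ i)) →
      (D : ℝ) ^ (-cc) ≤ 2 * (Q : ℝ) ^ (-δ) →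
      ∑ ω ∈ S, ‖∑ n ∈ Ico a (a + H), w n *
        ∑ κ ∈ T, ∏ i, gk (p i.succ) (κ i) (φ ω i (n : ℤ))‖ ^ 2 ≤
      1 / 4 * (S.card * H ^ 2 * (Q : ℝ) ^ (-(δ / 2))) := by
    intro T hT D hD hTD hDn
    refine (hFam.fw1 (fun i => p i.succ) hp T hT D hD hTD w a H hHH).trans ?_
    have hD1 : (1 : ℝ) ≤ D := by exact_mod_cast hD
    have hDn : (D : ℝ) ^ (-c) ≤ 2 * (Q : ℝ) ^ (-δ) :=
      (Real.rpow_le_rpow_of_exponent_le hD1 (by linarith)).trans hDn
    have hCp : 0 ≤ C * (1 + Real.log Q) ^ C * S.card := by positivity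
    calc C * (1 + Real.log Q) ^ C * S.card * (H * ∑ n ∈ Ico a (a + H), ‖w n‖ ^ 2) *
          (D : ℝ) ^ (-c)
        ≤ C * (1 + Real.log Q) ^ C * S.card *
          (H * (20000 * (100 ^ 9 * (1 + Real.log Q) ^ 9) * H)) * (2 * (Q : ℝ) ^ (-δ)) := by
          apply mul_le_mul _ hDn (by positivity) (by positivity)
          apply mul_le_mul_of_nonneg_left _ hCp
          exact mul_le_mul_of_nonneg_left hw2 (by linarith)
      _ = 1 / 4 * (S.card * H ^ 2 * ((8 * (C * 20000 * 100 ^ 9) * (1 + Real.log Q) ^ (C + 9)) *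
          (Q : ℝ) ^ (-δ))) := by
          rw [Real.rpow_add hL0]
          have : (1 + Real.log Q) ^ (9 : ℝ) = (1 + Real.log Q) ^ 9 := by
            exact_mod_cast Real.rpow_natCast (1 + Real.log Q) 9
          rw [this]
          ring
      _ ≤ 1 / 4 * (S.card * H ^ 2 * ((Q : ℝ) ^ (δ / 2) * (Q : ℝ) ^ (-δ))) := by
          gcongr
      _ = 1 / 4 * (S.card * H ^ 2 * (Q : ℝ) ^ (-(δ / 2))) := by
          rw [← Real.rpow_add hQ0]
          congr 3
          ring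
  obtain ⟨h51, h52, h53⟩ := G1_one (Q := Q) (x := 1 / 32) (by omega) (by norm_num)
  obtain ⟨h71, h72, h73⟩ := G1_one (Q := Q) (x := x7) (by omega) hx70.le
  have h2cc : (2 : ℝ) ^ cc ≤ 2 := by
    calc (2 : ℝ) ^ cc ≤ 2 ^ (1 : ℝ) := Real.rpow_le_rpow_of_exponent_le (by norm_num) hcc1
      _ = 2 := Real.rpow_one 2
  have hneg : ∀ x : ℝ, x7 ≤ x → (fl Q x : ℝ) ^ (-cc) ≤ 2 * (Q : ℝ) ^ (-δ) := by
    intro x hx
    refine (G1_neg (by omega) (hx70.le.trans hx) hcc0.le).trans ?_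
    apply mul_le_mul h2cc _ (by positivity) (by norm_num)
    apply Real.rpow_le_rpow_of_exponent_le hQr1
    have := mul_le_mul_of_nonneg_left hx hcc0.le
    rw [hδ]
    linarith
  have hprod : ∀ (ω : Ω) (n : ℕ), ∏ i : Fin k, Fc Q (p i.succ) (φ ω i (n : ℤ)) =
      ∑ κ ∈ Fintype.piFinset (fun i : Fin k => KS Q (p i.succ).1),
        ∏ i, gk (p i.succ) (κ i) (φ ω i (n : ℤ)) := fun ω n => by
    unfold Fc
    rw [Finset.prod_univ_sum]
  have hfin0 : 0 ≤ S.card * H ^ 2 * (Q : ℝ) ^ (-(δ / 2)) := by positivity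
  by_cases hcase : fl Q (1 / 32) < univ.lcm (fun i : Fin k => (p i.succ).1)
  · -- case (i)
    have h1 := hgen (Fintype.piFinset (fun i : Fin k => KS Q (p i.succ).1)) (Finset.Subset.refl _)
      (fl Q (1 / 32)) h51 (by
        intro κ hκ
        refine lt_of_lt_of_le hcase ?_
        rw [Fintype.mem_piFinset] at hκ
        refine Nat.le_of_dvd ?_ (Finset.lcm_dvd fun i _ => (dvd_mul_right _ (κ i)).trans
          (Finset.dvd_lcm (f := fun i : Fin k => (p i.succ).1 * κ i) (mem_univ i)))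
        refine Nat.pos_of_ne_zero ?_
        rw [Finset.lcm_ne_zero_iff]
        intro i _
        have := Nat.mul_pos (mem_PC.1 (hp i)).1 (CA_mem_KS.1 (hκ i)).1.1
        omega) (hneg (1 / 32) (by linarith))
    calc ∑ ω ∈ S, ‖∑ n ∈ Ico a (a + H), Fc (Q ^ 100) (p 0) (B.eval (n : ℤ)) *
        ∏ i : Fin k, Fc Q (p i.succ) (φ ω i (n : ℤ))‖ ^ 2
        = ∑ ω ∈ S, ‖∑ n ∈ Ico a (a + H), w n *
          ∑ κ ∈ Fintype.piFinset (fun i : Fin k => KS Q (p i.succ).1),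
            ∏ i, gk (p i.succ) (κ i) (φ ω i (n : ℤ))‖ ^ 2 := by
          refine Finset.sum_congr rfl fun ω _ => ?_
          congr 2
          refine Finset.sum_congr rfl fun n _ => ?_
          rw [hprod ω n]
      _ ≤ _ := h1
      _ ≤ _ := by linarith
  · -- case (ii)
    have hcase' : univ.lcm (fun i : Fin k => (p i.succ).1) ≤ fl Q (1 / 32) := not_lt.1 hcase
    obtain ⟨hs1, hs2, hs3, -, -⟩ := hsize Q hQ2' r B.leadingCoeff.natAbs ha1 hB.lc hrQ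
    have hfl7 : fl Q x7 ≤ fl Q (1 / 128) := by
      unfold fl
      apply Nat.floor_le_floor
      exact Real.rpow_le_rpow_of_exponent_le hQr1 (by linarith)
    have hfl1Q : fl Q (1 / 16) ≤ Q := G1_le (by omega) (by norm_num) (by norm_num)
    have hpos : 0 < B.leadingCoeff.natAbs * r * fl Q (1 / 32) :=
      Nat.mul_pos (Nat.mul_pos ha1 hr) h51
    have hp0large : B.leadingCoeff.natAbs * fl Q x7 < (p 0).1 := by
      refine lt_of_le_of_lt (Nat.mul_le_mul_left _ hfl7) ?_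
      by_cases hp0Q : p 0 ∈ PC Q
      · have hpall : ∀ i, p i ∈ PC Q := fun i => Fin.cases hp0Q hp i
        have hnot : ¬ (B.leadingCoeff.natAbs * r).lcm (univ.lcm fun i => (p i).1) ≤ fl Q (1 / 16) := by
          intro hle
          apply hpT
          unfold TSf
          rw [mem_filter, Fintype.mem_piFinset]
          exact ⟨hpall, hle⟩
        rw [not_le] at hnot
        have hdv : univ.lcm (fun i : Fin (k + 1) => (p i).1) ∣
            (p 0).1 * univ.lcm (fun i : Fin k => (p i.succ).1) := by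
          refine Finset.lcm_dvd fun i _ => ?_
          refine Fin.cases (dvd_mul_right _ _) (fun j => ?_) i
          exact (Finset.dvd_lcm (f := fun i : Fin k => (p i.succ).1) (mem_univ j)).trans
            (dvd_mul_left _ _)
        have hl1 : 0 < univ.lcm (fun i : Fin k => (p i.succ).1) := by
          refine Nat.pos_of_ne_zero ?_
          rw [Finset.lcm_ne_zero_iff]
          intro i _
          have := (mem_PC.1 (hp i)).1
          omega
        have hp01 : 0 < (p 0).1 := (mem_PC.1 hp0).1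
        have hle : (B.leadingCoeff.natAbs * r).lcm (univ.lcm fun i => (p i).1) ≤
            B.leadingCoeff.natAbs * r * ((p 0).1 * fl Q (1 / 32)) := by
          calc (B.leadingCoeff.natAbs * r).lcm (univ.lcm fun i => (p i).1)
              ≤ (B.leadingCoeff.natAbs * r) * ((p 0).1 * univ.lcm (fun i : Fin k => (p i.succ).1)) :=
                Nat.le_of_dvd (Nat.mul_pos (Nat.mul_pos ha1 hr) (Nat.mul_pos hp01 hl1))
                  ((Nat.lcm_dvd_mul _ _).trans (Nat.mul_dvd_mul_left _ hdv))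
            _ ≤ _ := Nat.mul_le_mul_left _ (Nat.mul_le_mul_left _ hcase')
        have h1 : B.leadingCoeff.natAbs * r * fl Q (1 / 32) *
            (B.leadingCoeff.natAbs * fl Q (1 / 128)) <
            B.leadingCoeff.natAbs * r * fl Q (1 / 32) * (p 0).1 := by
          calc _ < fl Q (1 / 16) := hs3
            _ < _ := hnot
            _ ≤ _ := hle
            _ = _ := by ring
        exact lt_of_mul_lt_mul_left h1 (Nat.zero_le _)
      · have h1 : Q < (p 0).1 := by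
          by_contra hle
          rw [not_lt] at hle
          obtain ⟨g1, -, g3⟩ := mem_PC.1 hp0
          exact hp0Q (mem_PC.2 ⟨g1, hle, g3⟩)
        have h2 : B.leadingCoeff.natAbs * fl Q (1 / 128) ≤
            B.leadingCoeff.natAbs * r * fl Q (1 / 32) * (B.leadingCoeff.natAbs * fl Q (1 / 128)) :=
          Nat.le_mul_of_pos_left _ hpos
        omega
    set K : Finset (Fin k → ℕ) := Fintype.piFinset (fun i : Fin k => KS Q (p i.succ).1) with hK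
    have hT := hgen (K.filter (fun κ => fl Q x7 < univ.lcm (fun i : Fin k => (p i.succ).1 * κ i)))
      (Finset.filter_subset _ _) (fl Q x7) h71 (fun κ hκ => (mem_filter.1 hκ).2) (hneg x7 (le_refl _))
    have hsm : ∀ ω ∈ S, ‖∑ n ∈ Ico a (a + H), w n *
        ∑ κ ∈ K.filter (fun κ => ¬ fl Q x7 < univ.lcm (fun i : Fin k => (p i.succ).1 * κ i)),
          ∏ i, gk (p i.succ) (κ i) (φ ω i (n : ℤ))‖ ≤ (Q : ℝ) ^ 302 := by
      intro ω hω
      refine (R5_per Q (fl Q x7) (by omega) (φ ω) (hFam.cp ω hω) (p 0) hp0 B hB.deg hp0large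
        (fun i => p i.succ) hp a H).trans ?_
      have h1 : ((fl Q x7 : ℕ) : ℝ) ^ (2 * k + 1) ≤ Q := by
        calc ((fl Q x7 : ℕ) : ℝ) ^ (2 * k + 1) ≤ ((Q : ℝ) ^ x7) ^ (2 * k + 1) :=
              pow_le_pow_left₀ (Nat.cast_nonneg _) h72 _
          _ = (Q : ℝ) ^ (x7 * ((2 * k + 1 : ℕ) : ℝ)) := by
              rw [Real.rpow_mul hQ0.le, Real.rpow_natCast]
          _ ≤ (Q : ℝ) ^ (1 : ℝ) := by
              apply Real.rpow_le_rpow_of_exponent_le hQr1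
              rw [hx7]
              push_cast
              rw [one_div_mul_eq_div, div_le_one (by positivity)]
              linarith
          _ = Q := Real.rpow_one _
      calc 2 * (Q : ℝ) ^ 300 * ((fl Q x7 : ℕ) : ℝ) ^ (2 * k + 1) ≤ Q * (Q : ℝ) ^ 300 * Q := by gcongr
        _ = (Q : ℝ) ^ 302 := by ring
    have hsm2 : ∀ ω ∈ S, ‖∑ n ∈ Ico a (a + H), w n *
        ∑ κ ∈ K.filter (fun κ => ¬ fl Q x7 < univ.lcm (fun i : Fin k => (p i.succ).1 * κ i)),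
          ∏ i, gk (p i.succ) (κ i) (φ ω i (n : ℤ))‖ ^ 2 ≤
        1 / 4 * (H ^ 2 * (Q : ℝ) ^ (-(δ / 2))) := by
      intro ω hω
      refine (pow_le_pow_left₀ (norm_nonneg _) (hsm ω hω) 2).trans ?_
      have h2 : (Q : ℝ) ^ (-(1 : ℝ)) ≤ (Q : ℝ) ^ (-(δ / 2)) :=
        Real.rpow_le_rpow_of_exponent_le hQr1 (by linarith)
      have h3 : (Q : ℝ) ^ (-(1 : ℝ)) = (Q : ℝ)⁻¹ := Real.rpow_neg_one _
      have hHr : (Q : ℝ) ^ 600 ≤ H := by exact_mod_cast hH
      calc ((Q : ℝ) ^ 302) ^ 2 = 1 / 4 * (4 * (Q : ℝ) ^ 604) := by ring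
        _ ≤ 1 / 4 * ((Q : ℝ) ^ 2 * (Q : ℝ) ^ 604) := by
            have : (4 : ℝ) ≤ Q ^ 2 := by nlinarith
            gcongr
        _ ≤ 1 / 4 * (((Q : ℝ) ^ 600) ^ 2 * (Q : ℝ)⁻¹) := by
            rw [← pow_mul, ← pow_add]
            have : (Q : ℝ) ^ (600 * 2) * (Q : ℝ)⁻¹ = (Q : ℝ) ^ 1199 := by
              field_simp
            rw [this]
            have : (Q : ℝ) ^ (2 + 604) ≤ (Q : ℝ) ^ 1199 := pow_le_pow_right₀ hQr1 (by norm_num)
            exact mul_le_mul_of_nonneg_left this (by norm_num)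
        _ ≤ 1 / 4 * (H ^ 2 * (Q : ℝ) ^ (-(δ / 2))) := by
            rw [← h3]
            have h5 : 0 ≤ (Q : ℝ) ^ (-(1 : ℝ)) := Real.rpow_nonneg hQ0.le _
            have h4 : ((Q : ℝ) ^ 600) ^ 2 ≤ (H : ℝ) ^ 2 := pow_le_pow_left₀ (by positivity) hHr 2
            have gen : ∀ x y u v : ℝ, x ≤ y → u ≤ v → 0 ≤ u → 0 ≤ y → 1 / 4 * (x * u) ≤ 1 / 4 * (y * v) :=
              fun x y u v h1 h2 h3 h4 => by
                have := mul_le_mul h1 h2 h3 h4
                linarith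
            exact gen _ _ _ _ h4 h2 h5 (sq_nonneg _)
    have hsplit : ∀ ω ∈ S, ‖∑ n ∈ Ico a (a + H), Fc (Q ^ 100) (p 0) (B.eval (n : ℤ)) *
        ∏ i : Fin k, Fc Q (p i.succ) (φ ω i (n : ℤ))‖ ^ 2 ≤
      2 * (1 / 4 * (H ^ 2 * (Q : ℝ) ^ (-(δ / 2)))) + 2 * ‖∑ n ∈ Ico a (a + H), w n *
        ∑ κ ∈ K.filter (fun κ => fl Q x7 < univ.lcm (fun i : Fin k => (p i.succ).1 * κ i)),
          ∏ i, gk (p i.succ) (κ i) (φ ω i (n : ℤ))‖ ^ 2 := by
      intro ω hω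
      have e1 : ∑ n ∈ Ico a (a + H), Fc (Q ^ 100) (p 0) (B.eval (n : ℤ)) *
          ∏ i : Fin k, Fc Q (p i.succ) (φ ω i (n : ℤ)) =
          ∑ n ∈ Ico a (a + H), w n *
          ∑ κ ∈ K.filter (fun κ => ¬ fl Q x7 < univ.lcm (fun i : Fin k => (p i.succ).1 * κ i)),
            ∏ i, gk (p i.succ) (κ i) (φ ω i (n : ℤ)) +
          ∑ n ∈ Ico a (a + H), w n *
          ∑ κ ∈ K.filter (fun κ => fl Q x7 < univ.lcm (fun i : Fin k => (p i.succ).1 * κ i)),
            ∏ i, gk (p i.succ) (κ i) (φ ω i (n : ℤ)) := by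
        rw [← Finset.sum_add_distrib]
        refine Finset.sum_congr rfl fun n _ => ?_
        rw [hprod ω n, ← mul_add]
        congr 1
        exact ((add_comm _ _).trans (Finset.sum_filter_add_sum_filter_not K _ _)).symm
      rw [e1]
      refine (z1l_sq _ _).trans ?_
      have := hsm2 ω hω
      linarith
    refine (Finset.sum_le_sum hsplit).trans ?_
    rw [Finset.sum_add_distrib, Finset.sum_const, nsmul_eq_mul, ← Finset.mul_sum]
    have e3 : (S.card : ℝ) * (2 * (1 / 4 * ((H : ℝ) ^ 2 * (Q : ℝ) ^ (-(δ / 2))))) =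
        1 / 2 * (S.card * H ^ 2 * (Q : ℝ) ^ (-(δ / 2))) := by ring
    rw [e3]
    linarith

end Pool.Agent.Lib.H24Q
end
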