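import Pool.Agent.Lib.H1M.RV2.M034
import Pool.Agent.Lib.H1M.RV2.M055
import Pool.Agent.Lib.H1M.RV2.M073
import Pool.Agent.Lib.H1M.RV2.M074
import Pool.Agent.Lib.H1M.RV2.M078
import Pool.Agent.Lib.H1M.RV2.M079
import Pool.Agent.Lib.H1M.RV2.M085
import Pool.Agent.Lib.H1M.RV2.M086
import Pool.Agent.Lib.H1M.RV2.M087

/-! Merged copies (to shorten the build) of Lib.H24P.W2, Lib.H24P.W3, Lib.H24Q.B2, Lib.H24Q.D3. -/

-- from Lib.H24P.W2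
section

/-!
# Project H24P, chunk W2 (M): the linear coordinate minus its projection
-/

open Finset Polynomial

namespace Pool.Agent.Lib.H24P

open Pool.Agent.Lib.H68T Pool.Agent.Lib.H18Q Pool.Agent.Lib.H59P

/-- The primes minus the projection at level `Q^100` at the linear coordinate. -/
noncomputable def fB (Q Y : ℕ) (B : ℤ[X]) (n : ℕ) : ℝ :=
  lp (B.eval (n : ℤ)) - Lk (Q ^ 100) (Y / (Q ^ 100) ^ 2) (B.eval (n : ℤ))

/-- A sum along a progression in `[Y, 3Y)`, with a linear phase. -/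
theorem w2_ap (g : ℤ → ℂ) (Y : ℕ) (δ : ℝ)
    (hg : ∀ θ : ℝ, ∀ u v : ℤ, (Y : ℤ) ≤ u → v ≤ 4 * Y → ‖∑ m ∈ Ico u v, g m * e (m * θ)‖ ≤ δ)
    (W : ℕ) (hW : 0 < W) (x : ℤ) (H : ℕ)
    (hx : ∀ c : ℕ, c < H → (Y : ℤ) ≤ x + W * c ∧ x + W * c < 3 * Y) (θ : ℝ) :
    ‖∑ c ∈ range H, g (x + W * c) * e (c * θ)‖ ≤ δ := by
  have hδ : 0 ≤ δ := (norm_nonneg _).trans (hg 0 Y Y le_rfl (by omega))
  rcases Nat.eq_zero_or_pos H with h0 | h0
  · rw [h0, Finset.sum_range_zero, norm_zero]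
    exact hδ
  have hxY : (Y : ℤ) ≤ x := by
    have := (hx 0 h0).1
    simpa using this
  set u : ℤ → ℂ := fun m => if m < 3 * Y then g m else 0 with hu
  have h1 := BA1_prog u W H hW x θ
  have h2 : ∑ c ∈ range H, u (x + W * c) * e (c * θ) = ∑ c ∈ range H, g (x + W * c) * e (c * θ) := by
    refine Finset.sum_congr rfl fun c hc => ?_
    have h3 := (hx c (mem_range.mp hc)).2
    rw [hu]
    beta_reduce
    rw [if_pos h3]
  rw [h2] at h1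
  have h4 : ∀ j ∈ range W, ‖e (-(x : ℝ) * ((j + θ) / W)) *
      ∑ m ∈ Ico x (x + W * H), u m * e (m * ((j + θ) / W))‖ ≤ δ := by
    intro j _
    rw [norm_mul, BA1_norm_e, one_mul]
    have h5 : ∑ m ∈ Ico x (x + W * H), u m * e (m * ((j + θ) / W)) =
        ∑ m ∈ Ico x (min (x + W * H) (3 * Y)), g m * e (m * ((j + θ) / W)) := by
      have h6 : (Ico x (min (x + (W : ℤ) * (H : ℤ)) (3 * (Y : ℤ))) : Finset ℤ) =
          (Ico x (x + (W : ℤ) * (H : ℤ)) : Finset ℤ).filter (fun m : ℤ => m < 3 * (Y : ℤ)) := by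
        ext m
        rw [mem_filter, mem_Ico, mem_Ico, lt_min_iff]
        tauto
      rw [h6, Finset.sum_filter]
      refine Finset.sum_congr rfl fun m _ => ?_
      rw [hu]
      beta_reduce
      split_ifs
      · rfl
      · rw [zero_mul]
    rw [h5]
    refine hg _ _ _ hxY ?_
    have := min_le_right (x + W * H) (3 * (Y : ℤ))
    omega
  have h7 : (W : ℝ) * ‖∑ c ∈ range H, g (x + W * c) * e (c * θ)‖ ≤ W * δ := by
    calc (W : ℝ) * ‖∑ c ∈ range H, g (x + W * c) * e (c * θ)‖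
        = ‖(W : ℂ) * ∑ c ∈ range H, g (x + W * c) * e (c * θ)‖ := by
          rw [norm_mul, Complex.norm_natCast]
      _ = ‖∑ j ∈ range W, e (-(x : ℝ) * ((j + θ) / W)) *
            ∑ m ∈ Ico x (x + W * H), u m * e (m * ((j + θ) / W))‖ := by rw [h1]
      _ ≤ ∑ j ∈ range W, δ := (norm_sum_le _ _).trans (Finset.sum_le_sum h4)
      _ = W * δ := by rw [Finset.sum_const, card_range, nsmul_eq_mul]
  have hW' : (0 : ℝ) < W := by exact_mod_cast hW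
  exact le_of_mul_le_mul_left h7 hW'

theorem w2_lin {A : ℕ} {B : ℤ[X]} (hB : Lin A B) :
    (∀ n : ℤ, B.eval n = B.coeff 0 + B.coeff 1 * n) ∧ B.coeff 1 ≠ 0 := by
  constructor
  · intro n
    rw [Polynomial.eval_eq_sum_range, hB.deg]
    simp [Finset.sum_range_succ]
  · have h1 : B.leadingCoeff ≠ 0 := by
      rw [Polynomial.leadingCoeff_ne_zero]
      intro h
      have h2 := hB.deg
      rw [h] at h2
      simp at h2
    rwa [Polynomial.leadingCoeff, hB.deg] at h1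

/-- The Fourier transform along a linear polynomial. -/
theorem w2_four (g : ℤ → ℂ) (Y : ℕ) (δ : ℝ)
    (hg : ∀ θ : ℝ, ∀ u v : ℤ, (Y : ℤ) ≤ u → v ≤ 4 * Y → ‖∑ m ∈ Ico u v, g m * e (m * θ)‖ ≤ δ)
    {A : ℕ} {B : ℤ[X]} (hB : Lin A B) (a H : ℕ)
    (hx : ∀ n ∈ Ico a (a + H), (Y : ℤ) ≤ B.eval (n : ℤ) ∧ B.eval (n : ℤ) < 3 * Y) (θ : ℝ) :
    ‖∑ n ∈ Ico a (a + H), g (B.eval (n : ℤ)) * e ((n : ℝ) * θ)‖ ≤ δ := by
  obtain ⟨hev, hc1⟩ := w2_lin hB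
  have hfac : ∀ (s : Finset ℕ) (f : ℕ → ℂ) (t : ℝ), ‖∑ c ∈ s, f c * e t‖ = ‖∑ c ∈ s, f c‖ := by
    intro s f t
    rw [← Finset.sum_mul, norm_mul, BA1_norm_e, mul_one]
  rcases lt_or_gt_of_ne hc1 with hneg | hpos
  · obtain ⟨W, hW⟩ : ∃ W : ℕ, (W : ℤ) = -B.coeff 1 := ⟨(-B.coeff 1).toNat, by
      rw [Int.toNat_of_nonneg (by linarith)]⟩
    have hW0 : 0 < W := by
      have : (0 : ℤ) < W := by rw [hW]; linarith
      exact_mod_cast this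
    have hval : ∀ c : ℕ, c < H → B.eval ((a + (H - 1 - c) : ℕ) : ℤ) =
        B.coeff 0 + (W : ℤ) * (-((a : ℤ) + H - 1)) + W * (c : ℤ) := by
      intro c hc
      have h2 : ((a + (H - 1 - c) : ℕ) : ℤ) = a + H - 1 - c := by
        have : 1 + c ≤ H := by omega
        rw [Nat.sub_sub]
        push_cast [this]
        ring
      rw [hev, h2, hW]
      ring
    have h1 := w2_ap g Y δ hg W hW0 (B.coeff 0 + (W : ℤ) * (-((a : ℤ) + H - 1))) H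
      (fun c hc => by
        rw [← hval c hc]
        exact hx _ (by rw [mem_Ico]; omega)) (-θ)
    rw [Finset.sum_Ico_eq_sum_range, Nat.add_sub_cancel_left, ← Finset.sum_range_reflect]
    rw [← hfac _ _ (((a : ℝ) + H - 1) * θ)] at h1
    refine le_trans (le_of_eq ?_) h1
    congr 1
    refine Finset.sum_congr rfl fun c hc => ?_
    rw [mem_range] at hc
    rw [hval c hc, mul_assoc (g _), ← BA1_e_add]
    congr 2
    have h3 : ((a + (H - 1 - c) : ℕ) : ℝ) = a + H - 1 - c := by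
      have : 1 + c ≤ H := by omega
      rw [Nat.sub_sub]
      push_cast [this]
      ring
    rw [h3]
    ring
  · obtain ⟨W, hW⟩ : ∃ W : ℕ, (W : ℤ) = B.coeff 1 := ⟨(B.coeff 1).toNat, by
      rw [Int.toNat_of_nonneg (by linarith)]⟩
    have hW0 : 0 < W := by
      have : (0 : ℤ) < W := by rw [hW]; linarith
      exact_mod_cast this
    have hval : ∀ c : ℕ, B.eval ((a + c : ℕ) : ℤ) = B.coeff 0 + (W : ℤ) * a + W * (c : ℤ) := by
      intro c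
      rw [hev, hW]
      push_cast
      ring
    have h1 := w2_ap g Y δ hg W hW0 (B.coeff 0 + (W : ℤ) * a) H
      (fun c hc => by
        rw [← hval c]
        exact hx _ (by rw [mem_Ico]; omega)) θ
    rw [Finset.sum_Ico_eq_sum_range, Nat.add_sub_cancel_left]
    rw [← hfac _ _ ((a : ℝ) * θ)] at h1
    refine le_trans (le_of_eq ?_) h1
    congr 1
    refine Finset.sum_congr rfl fun c hc => ?_
    rw [hval c, mul_assoc (g _), ← BA1_e_add]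
    congr 2
    push_cast
    ring

/-- Fourier transform on intervals. Proof. `B(n) = b + a n`, `a ≠ 0`; if `a < 0` reflect. The `B(n)`, `n ∈ Ico a0 (a0+H)`, are
the `m ≡ b` modulo `|a|` in an interval contained in `[Y, 3Y)` (`GeoB`), so the sum is
`(1/|a|) ∑_{j < |a|} ∑_m (lp m - Lk m) e((m - b) (θ + j)/a)`, each inner sum is at most `Y (Q^100)^(-1/4)`
(`fourier_smallP` with `X = Y`, `Q = Q^100`; empty intervals are trivial). `(Q^100)^(-1/4) = Q^(-25)`. -/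
theorem W2_fourier : ∃ K : ℝ, 1 ≤ K ∧ ∀ (A Q X X1 Y : ℕ) (B : ℤ[X]), 1 ≤ Q → RegP K (Q ^ 100) Y →
    GeoB A X X1 Y B → ∀ a H : ℕ, X1 ≤ a → a + H ≤ 2 * X1 → ∀ θ : ℝ,
    ‖∑ n ∈ Ico a (a + H), ((fB Q Y B n : ℝ) : ℂ) * e ((n : ℝ) * θ)‖ ≤ Y * (Q : ℝ) ^ (-(25) : ℝ) := by
  obtain ⟨K, hK⟩ := fourier_smallP
  refine ⟨max K 1, le_max_right _ _, ?_⟩
  intro A Q X X1 Y B hQ hR hG a H ha haH θ
  have hR' : RegP K (Q ^ 100) Y := hR.mono (le_trans zero_le_one (le_max_right _ _)) (le_max_left _ _)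
  have hQ0 : (0 : ℝ) ≤ Q := Nat.cast_nonneg Q
  have hpow : (((Q ^ 100 : ℕ) : ℝ)) ^ (-(1 / 4) : ℝ) = (Q : ℝ) ^ (-(25) : ℝ) := by
    rw [Nat.cast_pow, ← Real.rpow_natCast, ← Real.rpow_mul hQ0]
    norm_num
  have h1 := w2_four (fun m => ((lp m - Lk (Q ^ 100) (Y / (Q ^ 100) ^ 2) m : ℝ) : ℂ)) Y
    (Y * (Q : ℝ) ^ (-(25) : ℝ)) (fun θ u v hu hv => by
      rw [← hpow]
      exact hK (Q ^ 100) Y hR' θ u v hu hv) hG.lin a H
    (fun n hn => by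
      rw [mem_Ico] at hn
      have hn' : n ∈ Ico X1 (2 * X1) := by rw [mem_Ico]; omega
      exact ⟨hG.lo n hn', hG.hi n hn'⟩) θ
  exact h1

/-- Mean squares. Proof. `|lp m| ≤ log(3 Y)` for `m < 3 Y`, `3 Y ≤ 3 A X`; `Lk = SG (C0 m) m` (`Cf.eq`), at most
`300 (1+log Q^100)³ dQ (Q^100) m` (`S1b` of `H59P`, `Cf.le`, `Cf.sum`); `B5_dQ` at level `Q^100`,
`(Q^100)² ≤ H` (`X1 ≤ H Q^800`, `X ≤ X1 Q`, `K` large: `Q^1001 ≤ X` etc.); logarithms: `log Q ≤ log X`. -/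
theorem W2_ms (A : ℕ) : ∃ K : ℝ, 1 ≤ K ∧ ∀ C : ℝ, ∃ Q0 : ℕ, ∀ (Q X X1 Y : ℕ) (B : ℤ[X])
    (C0 : ℤ → Ch → ℂ) (mb : Ch → ℝ), Q0 ≤ Q → Rg K C Q X → 0 < X1 → X1 ≤ X → X ≤ X1 * Q →
    GeoB A X X1 Y B → Cf (Q ^ 100) Y C0 mb → ∀ a H : ℕ, X1 ≤ a → a + H ≤ 2 * X1 → X1 ≤ H * Q ^ 800 →
    ∑ n ∈ Ico a (a + H), ‖((fB Q Y B n : ℝ) : ℂ)‖ ^ 2 ≤ H * (Real.log X) ^ 20 ∧
    ∀ n ∈ Ico X1 (2 * X1), |lp (B.eval (n : ℤ))| ≤ (Real.log X) ^ 2 := by
  refine ⟨1001, by norm_num, fun C => ⟨3 * A + 3, ?_⟩⟩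
  intro Q X X1 Y B C0 mb hQ hRg hX1 hX1X hXQ hG hC a H ha haH hH
  have hQ3 : 3 ≤ Q := by omega
  have hQA : 3 * A ≤ Q := by omega
  have hlogQ : 1 ≤ Real.log Q := G1_log1 hQ3
  have hlogX : 1001 * Real.log Q ≤ Real.log X := hRg.1
  set l := Real.log X with hl
  have hl1 : 1001 ≤ l := by linarith
  have hXpos : 0 < X := lt_of_lt_of_le hX1 hX1X
  have hQr : (0 : ℝ) < Q := by exact_mod_cast (show 0 < Q by omega)
  have hXr : (0 : ℝ) < X := by exact_mod_cast hXpos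
  have hQX : Q ^ 1001 ≤ X := by
    have h1 : Real.log ((Q : ℝ) ^ 1001) ≤ Real.log X := by
      rw [Real.log_pow]
      push_cast
      exact hlogX
    have h2 : (Q : ℝ) ^ 1001 ≤ X := (Real.log_le_log_iff (by positivity) hXr).1 h1
    exact_mod_cast h2
  have hH200 : (Q ^ 100) ^ 2 ≤ H := by
    have h1 : Q ^ 1001 ≤ H * Q ^ 801 := by
      calc Q ^ 1001 ≤ X := hQX
        _ ≤ X1 * Q := hXQ
        _ ≤ H * Q ^ 800 * Q := Nat.mul_le_mul_right Q hH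
        _ = H * Q ^ 801 := by ring
    have h2 : Q ^ 200 * Q ^ 801 ≤ H * Q ^ 801 := by
      rw [← pow_add]
      exact h1
    have h3 : Q ^ 200 ≤ H := Nat.le_of_mul_le_mul_right h2 (Nat.pow_pos (by omega))
    rw [← pow_mul]
    exact h3
  have hAX : Real.log (3 * (A : ℝ) * X) ≤ 2 * l := by
    rcases Nat.eq_zero_or_pos A with hA | hA
    · rw [hA]
      simp only [Nat.cast_zero, mul_zero, zero_mul, Real.log_zero]
      linarith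
    have hA' : (0 : ℝ) < A := by exact_mod_cast hA
    rw [Real.log_mul (by positivity) hXr.ne']
    have h1 : Real.log (3 * (A : ℝ)) ≤ Real.log Q := by
      refine Real.log_le_log (by positivity) ?_
      exact_mod_cast hQA
    linarith
  have hlp : ∀ n ∈ Ico X1 (2 * X1), |lp (B.eval (n : ℤ))| ≤ 2 * l := by
    intro n hn
    have h1 := hG.lo n hn
    have h2 := hG.hi n hn
    unfold Pool.Agent.Lib.H68T.lp
    split_ifs with hp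
    · have h3 : 2 ≤ (B.eval (n : ℤ)).toNat := hp.two_le
      have h4 : (2 : ℤ) ≤ B.eval (n : ℤ) := by omega
      have h5 : (2 : ℝ) ≤ ((B.eval (n : ℤ) : ℤ) : ℝ) := by exact_mod_cast h4
      rw [abs_of_nonneg (Real.log_nonneg (by linarith))]
      refine le_trans (Real.log_le_log (by linarith) ?_) hAX
      have h6 : B.eval (n : ℤ) ≤ ((3 * A * X : ℕ) : ℤ) := by
        have h7 : 3 * Y ≤ 3 * A * X := by
          have := hG.Yhi
          calc 3 * Y ≤ 3 * (A * X) := Nat.mul_le_mul_left 3 this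
            _ = 3 * A * X := by ring
        have h8 : ((3 * Y : ℕ) : ℤ) ≤ ((3 * A * X : ℕ) : ℤ) := by exact_mod_cast h7
        push_cast at h8 ⊢
        linarith
      calc ((B.eval (n : ℤ) : ℤ) : ℝ) ≤ (((3 * A * X : ℕ) : ℤ) : ℝ) := by exact_mod_cast h6
        _ = 3 * (A : ℝ) * X := by push_cast; ring
    · rw [abs_zero]
      linarith
  refine ⟨?_, fun n hn => (hlp n hn).trans ?_⟩
  · -- the mean square
    set l1 := 1 + Real.log ((Q ^ 100 : ℕ) : ℝ) with hl1d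
    have hl1' : l1 = 1 + 100 * Real.log Q := by
      rw [hl1d, Nat.cast_pow, Real.log_pow]
      push_cast
      ring
    have hl1one : 1 ≤ l1 := by rw [hl1']; linarith
    have hl1l : l1 ≤ l := by rw [hl1']; linarith
    have hQ100 : 1 ≤ Q ^ 100 := Nat.one_le_pow _ _ (by omega)
    have hLk : ∀ n ∈ Ico X1 (2 * X1), |Lk (Q ^ 100) (Y / (Q ^ 100) ^ 2) (B.eval (n : ℤ))| ≤
        300 * l1 ^ 3 * dQ (Q ^ 100) (B.eval (n : ℤ)) := by
      intro n hn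
      have h1 := hG.lo n hn
      have h2 := hG.hi n hn
      have h3 : B.eval (n : ℤ) ≤ 4 * Y := by
        have : (0 : ℤ) ≤ Y := Int.natCast_nonneg Y
        linarith
      have h4 := hC.eq _ h1 h3
      have h5 := S1b (Q ^ 100) hQ100 (C0 (B.eval (n : ℤ))) mb (fun p hp => hC.le _ h1 h3 p hp)
        (B.eval (n : ℤ))
      rw [← h4, Complex.norm_real, Real.norm_eq_abs] at h5
      refine h5.trans ?_
      have hd : 0 ≤ dQ (Q ^ 100) (B.eval (n : ℤ)) := Nat.cast_nonneg _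
      calc 100 * (1 + Real.log ((Q ^ 100 : ℕ) : ℝ)) ^ 3 * dQ (Q ^ 100) (B.eval (n : ℤ)) *
            ∑ p ∈ PC (Q ^ 100), mb p
          ≤ 100 * l1 ^ 3 * dQ (Q ^ 100) (B.eval (n : ℤ)) * 3 :=
            mul_le_mul_of_nonneg_left hC.sum (by positivity)
        _ = 300 * l1 ^ 3 * dQ (Q ^ 100) (B.eval (n : ℤ)) := by ring
    have hpt : ∀ n ∈ Ico a (a + H), ‖((fB Q Y B n : ℝ) : ℂ)‖ ^ 2 ≤
        8 * l ^ 2 + 2 * (300 * l1 ^ 3) ^ 2 * dQ (Q ^ 100) (B.eval (n : ℤ)) ^ 2 := by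
      intro n hn
      have hn' : n ∈ Ico X1 (2 * X1) := by
        rw [mem_Ico] at hn ⊢
        omega
      have h1 := hlp n hn'
      have h2 := hLk n hn'
      rw [Complex.norm_real, Real.norm_eq_abs, sq_abs]
      unfold fB
      have h3 : (lp (B.eval (n : ℤ))) ^ 2 ≤ (2 * l) ^ 2 := by
        rw [← sq_abs]
        exact pow_le_pow_left₀ (abs_nonneg _) h1 2
      have h4 : (Lk (Q ^ 100) (Y / (Q ^ 100) ^ 2) (B.eval (n : ℤ))) ^ 2 ≤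
          (300 * l1 ^ 3 * dQ (Q ^ 100) (B.eval (n : ℤ))) ^ 2 := by
        rw [← sq_abs]
        exact pow_le_pow_left₀ (abs_nonneg _) h2 2
      nlinarith [sq_nonneg (lp (B.eval (n : ℤ)) + Lk (Q ^ 100) (Y / (Q ^ 100) ^ 2) (B.eval (n : ℤ)))]
    have hms := B5_dQ (Q ^ 100) A B hG.lin a H
    have hms2 : ∑ n ∈ Ico a (a + H), dQ (Q ^ 100) (B.eval (n : ℤ)) ^ 2 ≤ 2 * H * l1 ^ 3 := by
      refine hms.trans ?_
      have h1 : (((Q ^ 100 : ℕ) : ℝ)) ^ 2 ≤ H := by exact_mod_cast hH200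
      have h2 : (1 : ℝ) ≤ l1 ^ 3 := one_le_pow₀ hl1one
      have h3 : (H : ℝ) ≤ H * l1 ^ 3 := le_mul_of_one_le_right (Nat.cast_nonneg H) h2
      linarith
    calc ∑ n ∈ Ico a (a + H), ‖((fB Q Y B n : ℝ) : ℂ)‖ ^ 2
        ≤ ∑ n ∈ Ico a (a + H), (8 * l ^ 2 + 2 * (300 * l1 ^ 3) ^ 2 *
            dQ (Q ^ 100) (B.eval (n : ℤ)) ^ 2) := Finset.sum_le_sum hpt
      _ = H * (8 * l ^ 2) + 2 * (300 * l1 ^ 3) ^ 2 *
            ∑ n ∈ Ico a (a + H), dQ (Q ^ 100) (B.eval (n : ℤ)) ^ 2 := by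
          rw [Finset.sum_add_distrib, Finset.sum_const, Nat.card_Ico, Nat.add_sub_cancel_left,
            nsmul_eq_mul, ← Finset.mul_sum]
      _ ≤ H * (8 * l ^ 2) + 2 * (300 * l1 ^ 3) ^ 2 * (2 * H * l1 ^ 3) := by
          have : 0 ≤ 2 * (300 * l1 ^ 3) ^ 2 := by positivity
          have := mul_le_mul_of_nonneg_left hms2 this
          linarith
      _ = H * (8 * l ^ 2 + 360000 * l1 ^ 9) := by ring
      _ ≤ H * l ^ 20 := by
          refine mul_le_mul_of_nonneg_left ?_ (Nat.cast_nonneg H)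
          have hl0 : 0 ≤ l := by linarith
          have h1 : l1 ^ 9 ≤ l ^ 9 := pow_le_pow_left₀ (by linarith) hl1l 9
          have h2 : l ^ 2 ≤ l ^ 9 := pow_le_pow_right₀ (by linarith) (by norm_num)
          have h3 : (1001 : ℝ) ^ 11 ≤ l ^ 11 := pow_le_pow_left₀ (by norm_num) hl1 11
          have h4 : (0 : ℝ) ≤ l ^ 9 := by positivity
          have h5 : (360008 : ℝ) ≤ l ^ 11 := le_trans (by norm_num) h3
          calc 8 * l ^ 2 + 360000 * l1 ^ 9 ≤ 360008 * l ^ 9 := by linarith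
            _ ≤ l ^ 11 * l ^ 9 := mul_le_mul_of_nonneg_right h5 h4
            _ = l ^ 20 := by ring
  · nlinarith

end Pool.Agent.Lib.H24P
end

-- from Lib.H24P.W3
section

/-!
# Project H24P, chunk W3 (M): from primes to the projection in the linear coordinate
-/

open Finset Polynomial

namespace Pool.Agent.Lib.H24P

open Pool.Agent.Lib.H68T Pool.Agent.Lib.H18Q Pool.Agent.Lib.H59P

/-- Expansion. Proof. Definitions of `SG`, `Fc`, `gam_expand` (`H18Q/CA.lean`), `Finset.prod_univ_sum`. -/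
theorem W3_SG {k : ℕ} (Q : ℕ) (c : Fin k → Ch → ℂ) (m : Fin k → ℤ) :
    ∏ i, SG Q (c i) (m i) =
      ∑ p ∈ Fintype.piFinset fun _ : Fin k => PC Q, (∏ i, c i (p i)) * ∏ i, Fc Q (p i) (m i) := by
  classical
  have h1 : ∀ i, SG Q (c i) (m i) = ∑ p ∈ PC Q, c i p * Fc Q p (m i) := by
    intro i
    unfold SG Fc
    refine Finset.sum_congr rfl fun p hp => ?_
    rw [gam_expand Q p hp, mul_comm]
  calc ∏ i, SG Q (c i) (m i) = ∏ i, ∑ p ∈ PC Q, c i p * Fc Q p (m i) :=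
        Finset.prod_congr rfl fun i _ => h1 i
    _ = ∑ p ∈ Fintype.piFinset fun _ : Fin k => PC Q, ∏ i, c i (p i) * Fc Q (p i) (m i) :=
        Finset.prod_univ_sum _ _
    _ = _ := Finset.sum_congr rfl fun p _ => Finset.prod_mul_distrib




end Pool.Agent.Lib.H24P
end

-- from Lib.H24Q.B2
section

/-!
# Project H24Q, chunk B2 (M): one cell (compare H24P/Z2A, Z2B)
-/

open Finset

namespace Pool.Agent.Lib.H24Q

open Pool.Agent.Lib.H68T Pool.Agent.Lib.H18Q Pool.Agent.Lib.H59P Pool.Agent.Lib.H24P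

theorem b2_gam {m : ℕ} (Q : ℕ) (T : Finset (Fin m → Ch))
    (hT : T ⊆ Fintype.piFinset fun _ : Fin m => PC Q) (cf : Fin m → Ch → ℂ)
    (hcf : ∀ i, ∑ p ∈ PC Q, ‖cf i p‖ ≤ 3) : ∑ p ∈ T, ‖∏ i, cf i (p i)‖ ≤ 3 ^ m := by
  classical
  calc ∑ p ∈ T, ‖∏ i, cf i (p i)‖ = ∑ p ∈ T, ∏ i, ‖cf i (p i)‖ :=
        Finset.sum_congr rfl fun p _ => norm_prod _ _
    _ ≤ ∑ p ∈ Fintype.piFinset fun _ : Fin m => PC Q, ∏ i, ‖cf i (p i)‖ :=
        Finset.sum_le_sum_of_subset_of_nonneg hT fun p _ _ => Finset.prod_nonneg fun i _ => norm_nonneg _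
    _ = ∏ i, ∑ q ∈ PC Q, ‖cf i q‖ := (Finset.prod_univ_sum (fun _ : Fin m => PC Q)
        (fun i q => ‖cf i q‖)).symm
    _ ≤ ∏ _i : Fin m, (3 : ℝ) :=
        Finset.prod_le_prod (fun i _ => Finset.sum_nonneg fun _ _ => norm_nonneg _) fun i _ => hcf i
    _ = 3 ^ m := by
        rw [Finset.prod_const, Finset.card_univ, Fintype.card_fin]

theorem b2_TS {m : ℕ} (Q D m0 : ℕ) : TSf m Q D m0 ⊆ Fintype.piFinset fun _ : Fin m => PC Q := by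
  intro p hp
  unfold TSf at hp
  exact (Finset.mem_filter.1 hp).1

theorem b2_R {m : ℕ} (Q D m0 : ℕ) (hm0 : 1 ≤ m0) (p : Fin m → Ch) (hp : p ∈ TSf m Q D m0) :
    0 < Rf m0 p ∧ Rf m0 p ≤ D ∧ (∀ i, (p i).1 ∣ Rf m0 p) := by
  classical
  unfold TSf at hp
  rw [Finset.mem_filter, Fintype.mem_piFinset] at hp
  obtain ⟨hp1, hp2⟩ := hp
  refine ⟨?_, hp2, ?_⟩
  · have h1 : (univ.lcm fun i => (p i).1) ≠ 0 := by
      intro h0
      rw [Finset.lcm_eq_zero_iff] at h0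
      obtain ⟨i, _, h2⟩ := h0
      have h3 : 0 < (p i).1 := (mem_PC.mp (hp1 i)).1
      exact h3.ne' h2
    unfold Rf
    exact Nat.lcm_pos hm0 (Nat.pos_of_ne_zero h1)
  · intro i
    unfold Rf
    exact (Finset.dvd_lcm (f := fun i => (p i).1) (Finset.mem_univ i)).trans (Nat.dvd_lcm_right _ _)

/-- Proof. `W3_SG`; `Z2a` of `H59P` with `γ_p = ∏ c_i(p_i)` (total size `≤ 3^m`), `f_p` the difference in `B1_small` for
`p ∈ TSf m Q _ r`, the sum in `B1_large` else. Compare `Z2A_cell` in `H24P/Z2A.lean`. -/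
theorem B2_trunc (m : ℕ) (C c : ℝ) (hC : 1 ≤ C) (hc : 0 < c) : ∃ c' : ℝ, 0 < c' ∧ ∃ Q0 : ℕ, ∀ Q : ℕ,
    Q0 ≤ Q → ∀ (H0 : ℕ) (Ω : Type) (S : Finset Ω) (φ : Ω → Fin m → ℤ → ℤ), Fam C c Q H0 S φ →
    ∀ r : ℕ, 1 ≤ r → r ^ 100 ≤ Q → ∀ cf : Fin m → Ch → ℂ, (∀ i, ∑ p ∈ PC Q, ‖cf i p‖ ≤ 3) →
    ∀ a H : ℕ, H0 ≤ H → Q ^ 4 ≤ H →
    ∑ ω ∈ S, ‖∑ n ∈ Ico a (a + H), ∏ i, SG Q (cf i) (φ ω i (n : ℤ)) - H * MCf Q r cf (φ ω)‖ ^ 2 ≤
      S.card * (H : ℝ) ^ 2 * (Q : ℝ) ^ (-c') := by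
  classical
  obtain ⟨c1, hc1, Q1, h1⟩ := B1_small m C c hC hc
  obtain ⟨c2, hc2, Q2, h2⟩ := B1_large m C c hC hc
  have hcm : 0 < min c1 c2 := lt_min hc1 hc2
  obtain ⟨Q3, hQ31, h3⟩ := G1_rlog (9 ^ m) 0 (min c1 c2 / 2) (by linarith)
  refine ⟨min c1 c2 / 2, by linarith, max 1 (max Q1 (max Q2 Q3)), ?_⟩
  intro Q hQ H0 Ω S φ hF r hr1 hr cf hcf a H hH0 hH
  have hQ1 : 1 ≤ Q := (le_max_left _ _).trans hQ
  have hQQ1 : Q1 ≤ Q := (le_max_left _ _).trans ((le_max_right _ _).trans hQ)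
  have hQQ2 : Q2 ≤ Q := (le_max_left _ _).trans ((le_max_right _ _).trans ((le_max_right _ _).trans hQ))
  have hQQ3 : Q3 ≤ Q := (le_max_right _ _).trans ((le_max_right _ _).trans ((le_max_right _ _).trans hQ))
  have hQ1r : (1 : ℝ) ≤ Q := by exact_mod_cast hQ1
  have hQ0r : (0 : ℝ) < Q := by linarith
  have hV : 0 ≤ (S.card : ℝ) * (H : ℝ) ^ 2 := mul_nonneg (Nat.cast_nonneg _) (sq_nonneg _)
  have h9 : (9 : ℝ) ^ m ≤ (Q : ℝ) ^ (min c1 c2 / 2) := by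
    have := h3 Q hQQ3
    rwa [Real.rpow_zero, mul_one] at this
  set W : ℝ := (S.card : ℝ) * (H : ℝ) ^ 2 * (Q : ℝ) ^ (-(min c1 c2)) with hW
  have hW0 : 0 ≤ W := mul_nonneg hV (Real.rpow_nonneg hQ0r.le _)
  have hWle : ∀ c : ℝ, min c1 c2 ≤ c → (S.card : ℝ) * (H : ℝ) ^ 2 * (Q : ℝ) ^ (-c) ≤ W := by
    intro c hc
    exact mul_le_mul_of_nonneg_left (Real.rpow_le_rpow_of_exponent_le hQ1r (by linarith)) hV
  set F : (Fin m → Ch) → Ω → ℂ := fun p ω => ∑ n ∈ Ico a (a + H), ∏ i, Fc Q (p i) (φ ω i (n : ℤ)) with hFd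
  set G : (Fin m → Ch) → Ω → ℂ := fun p ω => H * (MRf p (Rf r p) (φ ω) *
    ((∑ d ∈ SF (fl Q (1 / 2) / Rf r p) (Rf r p), tdf d (φ ω) : ℝ) : ℂ)) with hGd
  set f : (Fin m → Ch) → Ω → ℂ := fun p ω =>
    if p ∈ TSf m Q (fl Q (1 / 16)) r then F p ω - G p ω else F p ω with hfdef
  have hf1 : ∀ p ∈ TSf m Q (fl Q (1 / 16)) r, ∀ ω, f p ω = F p ω - G p ω := by
    intro p hp ω
    rw [hfdef]
    exact if_pos hp
  have hf2 : ∀ p, p ∉ TSf m Q (fl Q (1 / 16)) r → ∀ ω, f p ω = F p ω := by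
    intro p hp ω
    rw [hfdef]
    exact if_neg hp
  have hdec : ∀ ω ∈ S, ‖∑ n ∈ Ico a (a + H), ∏ i, SG Q (cf i) (φ ω i (n : ℤ)) - H * MCf Q r cf (φ ω)‖ ^ 2 =
      ‖∑ p ∈ Fintype.piFinset fun _ : Fin m => PC Q, (∏ i, cf i (p i)) * f p ω‖ ^ 2 := by
    intro ω _
    have e1 : ∑ n ∈ Ico a (a + H), ∏ i, SG Q (cf i) (φ ω i (n : ℤ)) =
        ∑ p ∈ Fintype.piFinset fun _ : Fin m => PC Q, (∏ i, cf i (p i)) * F p ω := by
      have e2 : ∀ n ∈ Ico a (a + H), ∏ i, SG Q (cf i) (φ ω i (n : ℤ)) =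
          ∑ p ∈ Fintype.piFinset fun _ : Fin m => PC Q, (∏ i, cf i (p i)) *
            ∏ i, Fc Q (p i) (φ ω i (n : ℤ)) := fun n _ => W3_SG Q cf (fun i => φ ω i (n : ℤ))
      rw [Finset.sum_congr rfl e2, Finset.sum_comm]
      refine Finset.sum_congr rfl fun p _ => ?_
      rw [hFd, Finset.mul_sum]
    have e3 : (H : ℂ) * MCf Q r cf (φ ω) = ∑ p ∈ Fintype.piFinset fun _ : Fin m => PC Q,
        (if p ∈ TSf m Q (fl Q (1 / 16)) r then (∏ i, cf i (p i)) * G p ω else 0) := by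
      rw [← Finset.sum_filter, Finset.filter_mem_eq_inter, Finset.inter_eq_right.mpr (b2_TS Q _ r)]
      unfold MCf
      rw [Finset.mul_sum, hGd]
      refine Finset.sum_congr rfl fun p _ => ?_
      ring
    rw [e1, e3, ← Finset.sum_sub_distrib]
    apply congrArg (fun z : ℂ => ‖z‖ ^ 2)
    refine Finset.sum_congr rfl fun p _ => ?_
    by_cases hp : p ∈ TSf m Q (fl Q (1 / 16)) r
    · rw [if_pos hp, hf1 p hp]
      ring
    · rw [if_neg hp, hf2 p hp, sub_zero]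
  rw [Finset.sum_congr rfl hdec]
  have hmain := Z2a S (Fintype.piFinset fun _ : Fin m => PC Q) (fun p => ∏ i, cf i (p i)) f (3 ^ m) W hW0
    (b2_gam Q _ (Finset.Subset.refl _) cf hcf) ?_
  · refine hmain.trans ?_
    have e1 : ((3 : ℝ) ^ m) ^ 2 = 9 ^ m := by
      rw [← pow_mul, mul_comm, pow_mul]
      norm_num
    have e2 : (Q : ℝ) ^ (-(min c1 c2 / 2)) = (Q : ℝ) ^ (min c1 c2 / 2) * (Q : ℝ) ^ (-(min c1 c2)) := by
      rw [← Real.rpow_add hQ0r]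
      congr 1
      ring
    rw [e1, e2]
    have e3 := mul_le_mul_of_nonneg_right h9 hW0
    refine e3.trans (le_of_eq ?_)
    rw [hW]
    ring
  · intro p hp
    have hps : ∀ i, p i ∈ PC Q := Fintype.mem_piFinset.1 hp
    by_cases hpT : p ∈ TSf m Q (fl Q (1 / 16)) r
    · have e1 := h1 Q hQQ1 H0 Ω S φ hF r hr1 p hpT a H hH0 hH
      have e2 : ∑ ω ∈ S, ‖f p ω‖ ^ 2 = ∑ ω ∈ S, ‖∑ n ∈ Ico a (a + H), ∏ i, Fc Q (p i) (φ ω i (n : ℤ)) -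
          H * (MRf p (Rf r p) (φ ω) *
            ((∑ d ∈ SF (fl Q (1 / 2) / Rf r p) (Rf r p), tdf d (φ ω) : ℝ) : ℂ))‖ ^ 2 :=
        Finset.sum_congr rfl fun ω _ => by rw [hf1 p hpT ω]
      rw [e2]
      exact e1.trans (hWle c1 (min_le_left _ _))
    · have e1 := h2 Q hQQ2 H0 Ω S φ hF r hr1 hr p hps hpT a H hH0
      have e2 : ∑ ω ∈ S, ‖f p ω‖ ^ 2 = ∑ ω ∈ S, ‖∑ n ∈ Ico a (a + H), ∏ i, Fc Q (p i) (φ ω i (n : ℤ))‖ ^ 2 :=
        Finset.sum_congr rfl fun ω _ => by rw [hf2 p hpT ω]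
      rw [e2]
      exact e1.trans (hWle c2 (min_le_right _ _))

/-- Proof. As `Z2B_main` in `H24P/Z2B.lean`, with `A2_TM` instead of `TMf`. -/
theorem B2_compl (m : ℕ) (C c : ℝ) (hC : 1 ≤ C) (hc : 0 < c) : ∃ c' : ℝ, 0 < c' ∧ ∃ Q0 : ℕ, ∀ Q : ℕ,
    Q0 ≤ Q → ∀ (H0 : ℕ) (Ω : Type) (S : Finset Ω) (φ : Ω → Fin m → ℤ → ℤ), Fam C c Q H0 S φ →
    ∀ r : ℕ, 1 ≤ r → r ^ 100 ≤ Q → ∀ cf : Fin m → Ch → ℂ, (∀ i, ∑ p ∈ PC Q, ‖cf i p‖ ≤ 3) →
    ∑ ω ∈ S, ‖MCf Q r cf (φ ω) - MDf Q r cf (φ ω)‖ ^ 2 ≤ S.card * (Q : ℝ) ^ (-c') := by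
  classical
  obtain ⟨c1, hc1, Q1, h1⟩ := A2_TM m C c hC hc
  obtain ⟨Q3, hQ31, h3⟩ := G1_rlog (36 ^ m) ((2 * m : ℕ) : ℝ) (c1 / 2) (by linarith)
  refine ⟨c1 / 2, by linarith, max 1 (max Q1 Q3), ?_⟩
  intro Q hQ H0 Ω S φ hF r hr1 hr cf hcf
  have hQ1 : 1 ≤ Q := (le_max_left _ _).trans hQ
  have hQQ1 : Q1 ≤ Q := (le_max_left _ _).trans ((le_max_right _ _).trans hQ)
  have hQQ3 : Q3 ≤ Q := (le_max_right _ _).trans ((le_max_right _ _).trans hQ)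
  have hQ0r : (0 : ℝ) < Q := by exact_mod_cast hQ1
  have hlog0 : 0 ≤ Real.log Q := Real.log_natCast_nonneg Q
  have hV : (0 : ℝ) ≤ (S.card : ℝ) := Nat.cast_nonneg _
  set D1 : ℕ := fl Q (1 / 16) with hD1
  have hD1Q : D1 ≤ Q := G1_le hQ1 (by norm_num) (by norm_num)
  set L1 : ℝ := (2 * (1 + Real.log Q)) ^ m with hL1
  have hL10 : 0 ≤ L1 := by positivity
  set W : ℝ := L1 ^ 2 * ((S.card : ℝ) * (Q : ℝ) ^ (-c1)) with hW
  have hQc0 : 0 ≤ (Q : ℝ) ^ (-c1) := Real.rpow_nonneg hQ0r.le _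
  have hW0 : 0 ≤ W := mul_nonneg (sq_nonneg _) (mul_nonneg hV hQc0)
  set f : (Fin m → Ch) → Ω → ℂ := fun p ω =>
    MRf p (Rf r p) (φ ω) *
      (((∑ d ∈ SF (fl Q (1 / 2) / Rf r p) (Rf r p), tdf d (φ ω) -
        SSf ((pr Q).filter (fun l => ¬ l ∣ Rf r p)) (φ ω) : ℝ) : ℂ)) with hfdef
  have hdec : ∀ ω ∈ S, ‖MCf Q r cf (φ ω) - MDf Q r cf (φ ω)‖ ^ 2 =
      ‖∑ p ∈ TSf m Q D1 r, (∏ i, cf i (p i)) * f p ω‖ ^ 2 := by
    intro ω hω
    apply congrArg (fun z : ℂ => ‖z‖ ^ 2)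
    unfold MCf MDf
    rw [← Finset.sum_sub_distrib]
    refine Finset.sum_congr rfl fun p hp => ?_
    obtain ⟨hR0, hRD, hd⟩ := b2_R Q D1 r hr1 p hp
    have hfac : Rf r p ∣ Q.factorial := Nat.dvd_factorial hR0 (hRD.trans hD1Q)
    have e1 := P3_M5 (φ ω) (hF.fb.cp ω hω) Q (Rf r p) hR0 hfac p hd
    rw [← e1, hfdef]
    beta_reduce
    rw [Complex.ofReal_sub]
    ring
  rw [Finset.sum_congr rfl hdec]
  have hmain := Z2a S (TSf m Q D1 r) (fun p => ∏ i, cf i (p i)) f (3 ^ m) W hW0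
    (b2_gam Q _ (b2_TS Q D1 r) cf hcf) ?_
  · refine hmain.trans ?_
    have e1 : ((3 : ℝ) ^ m) ^ 2 * L1 ^ 2 = 36 ^ m * (1 + Real.log Q) ^ ((2 * m : ℕ) : ℝ) := by
      rw [hL1, Real.rpow_natCast, ← mul_pow, ← mul_pow, ← pow_mul, mul_comm m 2, pow_mul,
        pow_mul, ← mul_pow]
      congr 1
      ring
    have e2 : (Q : ℝ) ^ (-(c1 / 2)) = (Q : ℝ) ^ (c1 / 2) * (Q : ℝ) ^ (-c1) := by
      rw [← Real.rpow_add hQ0r]
      congr 1
      ring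
    have e3 := h3 Q hQQ3
    have e4 : ((3 : ℝ) ^ m) ^ 2 * W = (((3 : ℝ) ^ m) ^ 2 * L1 ^ 2) * ((S.card : ℝ) * (Q : ℝ) ^ (-c1)) := by
      rw [hW]
      ring
    rw [e4, e1, e2]
    have e5 := mul_le_mul_of_nonneg_right e3 (mul_nonneg hV hQc0)
    refine e5.trans (le_of_eq ?_)
    ring
  · intro p hp
    obtain ⟨hR0, hRD, hd⟩ := b2_R Q D1 r hr1 p hp
    have hRQ : Rf r p ≤ Q := hRD.trans hD1Q
    have e1 := h1 Q hQQ1 H0 Ω S φ hF (Rf r p) hR0 hRD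
    rw [hW]
    refine le_trans ?_ (mul_le_mul_of_nonneg_left e1 (sq_nonneg L1))
    rw [Finset.mul_sum]
    refine Finset.sum_le_sum fun ω _ => ?_
    rw [hfdef]
    beta_reduce
    rw [norm_mul, Complex.norm_real, mul_pow, Real.norm_eq_abs, sq_abs]
    refine mul_le_mul_of_nonneg_right ?_ (sq_nonneg _)
    refine pow_le_pow_left₀ (norm_nonneg _) ?_ 2
    refine (P0_MR p (Rf r p) hR0 (φ ω)).trans ?_
    refine pow_le_pow_left₀ (by positivity) ((M3b _ hR0).trans ?_) _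
    have h5 : Real.log (Rf r p) ≤ Real.log Q :=
      Real.log_le_log (by exact_mod_cast hR0) (by exact_mod_cast hRQ)
    linarith

/-- **B2.** Proof. `B2_trunc`, `B2_compl`, `‖x + y‖² ≤ 2‖x‖² + 2‖y‖²`. -/
theorem B2_cell (m : ℕ) (C c : ℝ) (hC : 1 ≤ C) (hc : 0 < c) : ∃ c' : ℝ, 0 < c' ∧ ∃ Q0 : ℕ, ∀ Q : ℕ,
    Q0 ≤ Q → ∀ (H0 : ℕ) (Ω : Type) (S : Finset Ω) (φ : Ω → Fin m → ℤ → ℤ), Fam C c Q H0 S φ →
    ∀ r : ℕ, 1 ≤ r → r ^ 100 ≤ Q → ∀ cf : Fin m → Ch → ℂ, (∀ i, ∑ p ∈ PC Q, ‖cf i p‖ ≤ 3) →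
    ∀ a H : ℕ, H0 ≤ H → Q ^ 4 ≤ H →
    ∑ ω ∈ S, ‖∑ n ∈ Ico a (a + H), ∏ i, SG Q (cf i) (φ ω i (n : ℤ)) - H * MDf Q r cf (φ ω)‖ ^ 2 ≤
      S.card * (H : ℝ) ^ 2 * (Q : ℝ) ^ (-c') := by
  classical
  obtain ⟨c1, hc1, Q1, h1⟩ := B2_trunc m C c hC hc
  obtain ⟨c2, hc2, Q2, h2⟩ := B2_compl m C c hC hc
  have hcm : 0 < min c1 c2 := lt_min hc1 hc2
  obtain ⟨Q3, hQ31, h3⟩ := G1_rlog 4 0 (min c1 c2 / 2) (by linarith)
  refine ⟨min c1 c2 / 2, by linarith, max 1 (max Q1 (max Q2 Q3)), ?_⟩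
  intro Q hQ H0 Ω S φ hF r hr1 hr cf hcf a H hH0 hH
  have hQ1 : 1 ≤ Q := (le_max_left _ _).trans hQ
  have hQQ1 : Q1 ≤ Q := (le_max_left _ _).trans ((le_max_right _ _).trans hQ)
  have hQQ2 : Q2 ≤ Q := (le_max_left _ _).trans ((le_max_right _ _).trans ((le_max_right _ _).trans hQ))
  have hQQ3 : Q3 ≤ Q := (le_max_right _ _).trans ((le_max_right _ _).trans ((le_max_right _ _).trans hQ))
  have hQ1r : (1 : ℝ) ≤ Q := by exact_mod_cast hQ1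
  have hQ0r : (0 : ℝ) < Q := by linarith
  have hV : 0 ≤ (S.card : ℝ) * (H : ℝ) ^ 2 := mul_nonneg (Nat.cast_nonneg _) (sq_nonneg _)
  have h4 : (4 : ℝ) ≤ (Q : ℝ) ^ (min c1 c2 / 2) := by
    have := h3 Q hQQ3
    rwa [Real.rpow_zero, mul_one] at this
  have hWle : ∀ c : ℝ, min c1 c2 ≤ c → (S.card : ℝ) * (H : ℝ) ^ 2 * (Q : ℝ) ^ (-c) ≤
      (S.card : ℝ) * (H : ℝ) ^ 2 * (Q : ℝ) ^ (-(min c1 c2)) := by
    intro c hc
    exact mul_le_mul_of_nonneg_left (Real.rpow_le_rpow_of_exponent_le hQ1r (by linarith)) hV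
  have e1 := (h1 Q hQQ1 H0 Ω S φ hF r hr1 hr cf hcf a H hH0 hH).trans (hWle c1 (min_le_left _ _))
  have e2 := mul_le_mul_of_nonneg_left (h2 Q hQQ2 H0 Ω S φ hF r hr1 hr cf hcf) (sq_nonneg (H : ℝ))
  have e2' : (H : ℝ) ^ 2 * ∑ ω ∈ S, ‖MCf Q r cf (φ ω) - MDf Q r cf (φ ω)‖ ^ 2 ≤
      (S.card : ℝ) * (H : ℝ) ^ 2 * (Q : ℝ) ^ (-(min c1 c2)) := by
    refine e2.trans (le_trans (le_of_eq ?_) (hWle c2 (min_le_right _ _)))
    ring
  have hpt : ∀ ω ∈ S, ‖∑ n ∈ Ico a (a + H), ∏ i, SG Q (cf i) (φ ω i (n : ℤ)) - H * MDf Q r cf (φ ω)‖ ^ 2 ≤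
      2 * ‖∑ n ∈ Ico a (a + H), ∏ i, SG Q (cf i) (φ ω i (n : ℤ)) - H * MCf Q r cf (φ ω)‖ ^ 2 +
      2 * ((H : ℝ) ^ 2 * ‖MCf Q r cf (φ ω) - MDf Q r cf (φ ω)‖ ^ 2) := by
    intro ω _
    have e3 : ∑ n ∈ Ico a (a + H), ∏ i, SG Q (cf i) (φ ω i (n : ℤ)) - H * MDf Q r cf (φ ω) =
        (∑ n ∈ Ico a (a + H), ∏ i, SG Q (cf i) (φ ω i (n : ℤ)) - H * MCf Q r cf (φ ω)) +
        H * (MCf Q r cf (φ ω) - MDf Q r cf (φ ω)) := by ring
    rw [e3]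
    generalize (∑ n ∈ Ico a (a + H), ∏ i, SG Q (cf i) (φ ω i (n : ℤ)) - H * MCf Q r cf (φ ω)) = x
    generalize MCf Q r cf (φ ω) - MDf Q r cf (φ ω) = y
    have e4 : ‖x + (H : ℂ) * y‖ ≤ ‖x‖ + H * ‖y‖ := by
      refine (norm_add_le _ _).trans ?_
      rw [norm_mul, Complex.norm_natCast]
    have e5 := pow_le_pow_left₀ (norm_nonneg _) e4 2
    nlinarith [sq_nonneg (‖x‖ - H * ‖y‖)]
  refine (Finset.sum_le_sum hpt).trans ?_
  rw [Finset.sum_add_distrib, ← Finset.mul_sum, ← Finset.mul_sum, ← Finset.mul_sum]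
  have e6 : (Q : ℝ) ^ (-(min c1 c2 / 2)) = (Q : ℝ) ^ (min c1 c2 / 2) * (Q : ℝ) ^ (-(min c1 c2)) := by
    rw [← Real.rpow_add hQ0r]
    congr 1
    ring
  have hW0 : 0 ≤ (S.card : ℝ) * (H : ℝ) ^ 2 * (Q : ℝ) ^ (-(min c1 c2)) :=
    mul_nonneg hV (Real.rpow_nonneg hQ0r.le _)
  have e7 := mul_le_mul_of_nonneg_right h4 hW0
  rw [e6]
  calc _ ≤ 4 * ((S.card : ℝ) * (H : ℝ) ^ 2 * (Q : ℝ) ^ (-(min c1 c2))) := by linarith
    _ ≤ (Q : ℝ) ^ (min c1 c2 / 2) * ((S.card : ℝ) * (H : ℝ) ^ 2 * (Q : ℝ) ^ (-(min c1 c2))) := e7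
    _ = _ := by ring

end Pool.Agent.Lib.H24Q
end

-- from Lib.H24Q.D3
section

/-!
# Project H24Q, chunk D3 (M): the sums MF and their main terms (compare H24P/Z2, Z3, Z4)
-/

open Finset

namespace Pool.Agent.Lib.H24Q

open Pool.Agent.Lib.H68T Pool.Agent.Lib.H18Q Pool.Agent.Lib.H59P Pool.Agent.Lib.H24P

theorem d3_card {g : ℕ} (b s : Fin g → ℕ) : ((cub b s).card : ℝ) = vol s := by
  unfold cub vol
  rw [Fintype.card_piFinset]
  push_cast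
  refine Finset.prod_congr rfl fun i _ => ?_
  rw [Nat.card_Ico, Nat.add_sub_cancel_left]

theorem d3_N (Q N B : ℕ) (hQ : 2 ≤ Q) (hK : 2 * ((B : ℝ) + 50) * Real.log Q ≤ Real.log N) :
    1 ≤ N ∧ ∀ x : ℕ, N ≤ x ^ 2 → Q ^ (B + 50) ≤ x := by
  have hQr : (0 : ℝ) < Q := by exact_mod_cast (show 0 < Q by omega)
  have hlQ : 0 < Real.log Q := Real.log_pos (by exact_mod_cast (show 1 < Q by omega))
  have hB0 : (0 : ℝ) ≤ B := Nat.cast_nonneg _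
  have hN : 1 ≤ N := by
    rcases Nat.eq_zero_or_pos N with h | h
    · rw [h, Nat.cast_zero, Real.log_zero] at hK
      have : 0 < 2 * ((B : ℝ) + 50) * Real.log Q := by positivity
      linarith
    · exact h
  refine ⟨hN, fun x hx => ?_⟩
  have hNr : (0 : ℝ) < N := by exact_mod_cast hN
  have h1 : Real.log ((Q : ℝ) ^ (2 * (B + 50))) ≤ Real.log N := by
    rw [Real.log_pow]
    refine le_trans (le_of_eq ?_) hK
    push_cast
    ring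
  have h2 : (Q : ℝ) ^ (2 * (B + 50)) ≤ N := (Real.log_le_log_iff (by positivity) hNr).1 h1
  have h3 : Q ^ (2 * (B + 50)) ≤ N := by exact_mod_cast h2
  have h4 : (Q ^ (B + 50)) ^ 2 ≤ x ^ 2 := by
    rw [← pow_mul, mul_comm]
    exact h3.trans hx
  exact (Nat.pow_le_pow_iff_left (by norm_num)).1 h4

/-- The mean square. Proof. `D1_pt`: up to `Z Q^(-10)` for each `ω` (square at most `Z² Q^(-20)`) `MF ω` is
`∑_n ∏ SG Q (Cc i (fp …)) (F.map ω i n)`. `D2_cells` with `b = 2X`, `M = X`, `s j = X j/Q^40`, `q = N = Q^40`, `H = Z/Q^40`,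
`F h n = ∏ SG … - MDf …`: on a cell the frozen points are constant (`E1_bs` of `H24P`: base points `2 X j + t j s j` and
`Z + j H`), the coefficients there have total size `≤ 3` (`Cf.le`, `Cf.sum`, `D1_base`, `Gm.lo`, `Gm.hi`): `B2_cell` with
`S = cub (2X + t s) s`, `Fam` from `HF` (`Q^B ≤ s j`: `X j ≥ N^(1/2)`, `N ≥ Q^K`, `K ≥ 2 (B + 50)`; the same for `H`),
`card (cub _ s) = vol s`. -/
theorem D3_ms (m g B : ℕ) (hm : m ≤ 4) (F : LF m g) (C c : ℝ) (hC : 1 ≤ C) (hc : 0 < c)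
    (hF : HF C c B F) : ∃ c' K : ℝ, 0 < c' ∧ 1 ≤ K ∧ ∃ Q0 : ℕ, ∀ (Q N Z : ℕ) (X : Fin g → ℕ)
    (Y : Fin m → ℕ), Q0 ≤ Q → K * Real.log Q ≤ Real.log N → Gm F Q N Z X Y →
    ∀ (Cc : Fin m → ℤ → Ch → ℂ) (mb : Fin m → Ch → ℝ), (∀ i, Cf Q (Y i) (Cc i) (mb i)) →
    ∀ r : ℕ, 1 ≤ r → r ^ 100 ≤ Q →
    ∑ ω ∈ cub (fun j => 2 * X j) X, ‖((MF F Q Z Y ω : ℝ) : ℂ) - MZ F Q Z r X Cc ω‖ ^ 2 ≤
      vol X * (Z : ℝ) ^ 2 * (Q : ℝ) ^ (-c') := by
  classical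
  obtain ⟨c1, hc1, Q1, hcell⟩ := B2_cell m C c hC hc
  obtain ⟨Q2, hpt⟩ := D1_pt m hm
  have hcm : 0 < min c1 20 := lt_min hc1 (by norm_num)
  obtain ⟨Q3, hQ3, hlog⟩ := G1_rlog 4 0 (min c1 20 / 2) (by positivity)
  refine ⟨min c1 20 / 2, 2 * (B + 50), by positivity, ?_, max (max Q1 Q2) (max Q3 2), ?_⟩
  · have hB0 : (0 : ℝ) ≤ B := Nat.cast_nonneg _
    linarith
  intro Q N Z X Y hQ hK hG Cc mb hCf r hr hr100
  have q1 : Q1 ≤ Q := (le_max_left _ _).trans ((le_max_left _ _).trans hQ)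
  have q2 : Q2 ≤ Q := (le_max_right _ _).trans ((le_max_left _ _).trans hQ)
  have q3 : Q3 ≤ Q := (le_max_left _ _).trans ((le_max_right _ _).trans hQ)
  have q4 : 2 ≤ Q := (le_max_right _ _).trans ((le_max_right _ _).trans hQ)
  have hQ1 : 1 ≤ Q := by omega
  have hQr : (1 : ℝ) ≤ Q := by exact_mod_cast hQ1
  have hQr0 : (0 : ℝ) < Q := by linarith
  have hq40 : 0 < Q ^ 40 := Nat.pow_pos (by omega)
  obtain ⟨hN, hsq⟩ := d3_N Q N B q4 hK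
  have hZ : Q ^ (B + 50) ≤ Z := hsq Z hG.Zlo
  have hX : ∀ j, Q ^ (B + 50) ≤ X j := fun j => hsq (X j) (hG.Xlo j)
  have hdv : ∀ x : ℕ, Q ^ 40 ∣ x → Q ^ (B + 50) ≤ x → Q ^ (B + 10) ≤ x / Q ^ 40 := by
    intro x _ hx
    rw [Nat.le_div_iff_mul_le hq40, ← pow_add]
    exact hx
  set H : ℕ := Z / Q ^ 40 with hH
  set s : Fin g → ℕ := fun j => X j / Q ^ 40 with hs
  have hHlo : Q ^ (B + 10) ≤ H := hdv Z hG.dvdZ hZ
  have hslo : ∀ j, Q ^ (B + 10) ≤ s j := fun j => hdv (X j) (hG.dvdX j) (hX j)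
  have hHpos : 0 < H := lt_of_lt_of_le (Nat.pow_pos (by omega)) hHlo
  have hspos : ∀ j, 0 < s j := fun j => lt_of_lt_of_le (Nat.pow_pos (by omega)) (hslo j)
  have hZH : Z = H * Q ^ 40 := (Nat.div_mul_cancel hG.dvdZ).symm
  have hXs : ∀ j, X j = s j * Q ^ 40 := fun j => (Nat.div_mul_cancel (hG.dvdX j)).symm
  have hv0 : 0 ≤ vol X := Finset.prod_nonneg fun i _ => Nat.cast_nonneg _
  -- the two parts
  set F2 : (Fin g → ℕ) → ℕ → ℂ := fun ω n =>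
    ∏ i, SG Q (Cc i (fp F Q Z X ω n i)) (F.map ω i (n : ℤ)) -
      MDf Q r (fun i => Cc i (fp F Q Z X ω n i)) (F.map ω) with hF2
  set F1 : (Fin g → ℕ) → ℕ → ℂ := fun ω n =>
    ((∏ i, Lk Q (Y i / Q ^ 2) (F.map ω i (n : ℤ)) : ℝ) : ℂ) -
      ∏ i, SG Q (Cc i (fp F Q Z X ω n i)) (F.map ω i (n : ℤ)) with hF1
  have hdiff : ∀ ω, ((MF F Q Z Y ω : ℝ) : ℂ) - MZ F Q Z r X Cc ω =
      ∑ n ∈ Ico Z (2 * Z), F1 ω n + ∑ n ∈ Ico Z (2 * Z), F2 ω n := by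
    intro ω
    unfold MF MZ
    rw [Complex.ofReal_sum, ← Finset.sum_sub_distrib, ← Finset.sum_add_distrib]
    refine Finset.sum_congr rfl fun n _ => ?_
    rw [hF1, hF2]
    ring
  have hZc : ((Ico Z (2 * Z)).card : ℝ) = Z := by
    rw [Nat.card_Ico]
    congr 1
    omega
  have hone : ∀ ω ∈ cub (fun j => 2 * X j) X, ‖∑ n ∈ Ico Z (2 * Z), F1 ω n‖ ^ 2 ≤
      (Z : ℝ) ^ 2 * (Q : ℝ) ^ (-(20) : ℝ) := by
    intro ω hω
    have h1 : ‖∑ n ∈ Ico Z (2 * Z), F1 ω n‖ ≤ Z * (Q : ℝ) ^ (-(10) : ℝ) := by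
      refine (norm_sum_le _ _).trans ?_
      refine (Finset.sum_le_sum fun n hn => hpt g F Q N Z X Y q2 hN hG Cc mb hCf ω hω n hn).trans ?_
      rw [Finset.sum_const, nsmul_eq_mul, hZc]
    refine (pow_le_pow_left₀ (norm_nonneg _) h1 2).trans (le_of_eq ?_)
    rw [mul_pow]
    congr 1
    rw [← Real.rpow_natCast, ← Real.rpow_mul hQr0.le]
    norm_num
  have hcard : ((cub (fun j => 2 * X j) X).card : ℝ) = vol X := d3_card _ _
  have hsum1 : ∑ ω ∈ cub (fun j => 2 * X j) X, ‖∑ n ∈ Ico Z (2 * Z), F1 ω n‖ ^ 2 ≤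
      vol X * (Z : ℝ) ^ 2 * (Q : ℝ) ^ (-(20) : ℝ) := by
    refine (Finset.sum_le_sum hone).trans (le_of_eq ?_)
    rw [Finset.sum_const, nsmul_eq_mul, hcard]
    ring
  have hsum2 : ∑ ω ∈ cub (fun j => 2 * X j) X, ‖∑ n ∈ Ico Z (2 * Z), F2 ω n‖ ^ 2 ≤
      vol X * (Z : ℝ) ^ 2 * (Q : ℝ) ^ (-c1) := by
    refine D2_cells (fun j => 2 * X j) X s (Q ^ 40) hXs Z H (Q ^ 40) hZH ((Q : ℝ) ^ (-c1))
      (Real.rpow_nonneg (Nat.cast_nonneg _) _) F2 ?_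
    intro t ht j hj
    set w0 : Fin g → ℕ := fun i => 2 * X i + t i * s i with hw0
    have hw0m : w0 ∈ cub (fun j => 2 * X j) X := by
      refine Fintype.mem_piFinset.2 fun i => mem_Ico.2 ⟨Nat.le_add_right _ _, ?_⟩
      have h1 : t i * s i < X i := by
        calc t i * s i < Q ^ 40 * s i := Nat.mul_lt_mul_of_pos_right (ht i) (hspos i)
          _ = X i := by rw [mul_comm]; exact (hXs i).symm
      show 2 * X i + t i * s i < 2 * X i + X i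
      omega
    have hn0 : Z + j * H ∈ Ico Z (2 * Z) := by
      have h1 : j * H < Z := by
        calc j * H < Q ^ 40 * H := Nat.mul_lt_mul_of_pos_right hj hHpos
          _ = Z := by rw [mul_comm]; exact hZH.symm
      rw [mem_Ico]
      omega
    have hbw : ∀ ω ∈ cub w0 s, bw Q X ω = w0 := by
      intro ω hω
      funext i
      have h1 := Fintype.mem_piFinset.1 hω i
      exact E1_bs (hspos i) (Dvd.dvd.mul_left ⟨Q ^ 40, hXs i⟩ 2) h1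
    have hbn : ∀ n ∈ Ico (Z + j * H) (Z + j * H + H), bs (Z / Q ^ 40) n = Z + j * H := by
      intro n hn
      exact E1_bs hHpos ⟨Q ^ 40, hZH⟩ hn
    have hfp : ∀ ω ∈ cub w0 s, ∀ n ∈ Ico (Z + j * H) (Z + j * H + H), ∀ i,
        fp F Q Z X ω n i = F.map w0 i ((Z + j * H : ℕ) : ℤ) := by
      intro ω hω n hn i
      unfold fp
      rw [hbw ω hω, hbn n hn]
    have hval : ∀ i, (Y i : ℤ) ≤ F.map w0 i ((Z + j * H : ℕ) : ℤ) ∧
        F.map w0 i ((Z + j * H : ℕ) : ℤ) ≤ 4 * Y i :=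
      fun i => ⟨hG.lo i _ hw0m _ hn0, (hG.hi i _ hw0m _ hn0).le⟩
    set cf : Fin m → Ch → ℂ := fun i => Cc i (F.map w0 i ((Z + j * H : ℕ) : ℤ)) with hcf
    have hcf3 : ∀ i, ∑ p ∈ PC Q, ‖cf i p‖ ≤ 3 := by
      intro i
      refine (Finset.sum_le_sum fun p hp => (hCf i).le _ (hval i).1 (hval i).2 p hp).trans (hCf i).sum
    have hB0 : Q ^ B ≤ H := (Nat.pow_le_pow_right hQ1 (by omega)).trans hHlo
    have hB4 : Q ^ 4 ≤ H := (Nat.pow_le_pow_right hQ1 (by omega)).trans hHlo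
    have hFam := hF Q q4 w0 s (fun j => (Nat.pow_le_pow_right hQ1 (by omega)).trans (hslo j))
    have key := hcell Q q1 (Q ^ B) (Fin g → ℕ) (cub w0 s) F.map hFam r hr hr100 cf hcf3 (Z + j * H) H
      hB0 hB4
    rw [d3_card] at key
    refine le_trans (le_of_eq ?_) key
    refine Finset.sum_congr rfl fun ω hω => ?_
    congr 2
    have h1 : ∀ n ∈ Ico (Z + j * H) (Z + j * H + H), F2 ω n =
        ∏ i, SG Q (cf i) (F.map ω i (n : ℤ)) - MDf Q r cf (F.map ω) := by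
      intro n hn
      have h2 : (fun i => Cc i (fp F Q Z X ω n i)) = cf := by
        funext i
        rw [hcf]
        beta_reduce
        rw [hfp ω hω n hn i]
      have h3 : F2 ω n = ∏ i, SG Q ((fun i => Cc i (fp F Q Z X ω n i)) i) (F.map ω i (n : ℤ)) -
          MDf Q r (fun i => Cc i (fp F Q Z X ω n i)) (F.map ω) := rfl
      rw [h3, h2]
    rw [Finset.sum_congr rfl h1, Finset.sum_sub_distrib, Finset.sum_const, Nat.card_Ico, nsmul_eq_mul,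
      Nat.add_sub_cancel_left]
  have hV0 : 0 ≤ vol X * (Z : ℝ) ^ 2 := by positivity
  have hle : ∀ c' : ℝ, min c1 20 ≤ c' → vol X * (Z : ℝ) ^ 2 * (Q : ℝ) ^ (-c') ≤
      vol X * (Z : ℝ) ^ 2 * (Q : ℝ) ^ (-(min c1 20)) := by
    intro c' hc'
    exact mul_le_mul_of_nonneg_left (Real.rpow_le_rpow_of_exponent_le hQr (by linarith)) hV0
  have f1 := hsum1.trans (hle _ (min_le_right _ _))
  have f2 := hsum2.trans (hle _ (min_le_left _ _))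
  have hpt2 : ∀ ω ∈ cub (fun j => 2 * X j) X, ‖((MF F Q Z Y ω : ℝ) : ℂ) - MZ F Q Z r X Cc ω‖ ^ 2 ≤
      2 * ‖∑ n ∈ Ico Z (2 * Z), F1 ω n‖ ^ 2 + 2 * ‖∑ n ∈ Ico Z (2 * Z), F2 ω n‖ ^ 2 := by
    intro ω _
    rw [hdiff ω]
    have h1 := norm_add_le (∑ n ∈ Ico Z (2 * Z), F1 ω n) (∑ n ∈ Ico Z (2 * Z), F2 ω n)
    refine (pow_le_pow_left₀ (norm_nonneg _) h1 2).trans ?_
    nlinarith [sq_nonneg (‖∑ n ∈ Ico Z (2 * Z), F1 ω n‖ - ‖∑ n ∈ Ico Z (2 * Z), F2 ω n‖)]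
  refine (Finset.sum_le_sum hpt2).trans ?_
  rw [Finset.sum_add_distrib, ← Finset.mul_sum, ← Finset.mul_sum]
  have hfin : 4 * (vol X * (Z : ℝ) ^ 2 * (Q : ℝ) ^ (-(min c1 20))) ≤
      vol X * (Z : ℝ) ^ 2 * (Q : ℝ) ^ (-(min c1 20 / 2)) := by
    have h3 : (Q : ℝ) ^ (-(min c1 20 / 2)) = (Q : ℝ) ^ (min c1 20 / 2) * (Q : ℝ) ^ (-(min c1 20)) := by
      rw [← Real.rpow_add hQr0]
      congr 1
      ring
    have h4 := hlog Q q3
    rw [Real.rpow_zero, mul_one] at h4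
    have h5 : 0 ≤ vol X * (Z : ℝ) ^ 2 * (Q : ℝ) ^ (-(min c1 20)) :=
      mul_nonneg hV0 (Real.rpow_nonneg hQr0.le _)
    rw [h3]
    nlinarith [mul_le_mul_of_nonneg_right h4 h5]
  linarith

/-- **D3.** Proof. Compare `Z4_main`, `Z3_main` in `H24P`. `CF0` of `H59P` for all `i` (`E0 ≤ 1`), `D3_ms` with `r = px.1`;
`z4_cheb`: `Bad` = the `ω` with `‖MF - MZ‖ > Z Q^(-c'/4)`, at most `vol X Q^(-c'/2)` of them. For the others, for each `n`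
`Z3_cell` of `H24P` (`m0 = px.1 ≤ fl Q (1/16)` by `G1_size` with `a = 1`; `th i` = `th` at the frozen point `fp`, which is in
`[Y_i, 4Y_i)`; `MX px th x p = MX px (fun _ => th x) 0 p` by unfolding), so `Re MZ ≥ Z m0/2`. -/
theorem D3_main (m g B : ℕ) (hm : m ≤ 4) (F : LF m g) (C c : ℝ) (hC : 1 ≤ C) (hc : 0 < c)
    (hF : HF C c B F) : ∃ c' K : ℝ, 0 < c' ∧ 1 ≤ K ∧ ∃ Q0 : ℕ, ∀ (Q N Z : ℕ) (X : Fin g → ℕ)
    (Y : Fin m → ℕ) (η E0 : ℝ) (px : Ch) (th : ℤ → ℝ), Q0 ≤ Q → K * Real.log Q ≤ Real.log N →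
    Gm F Q N Z X Y → px ∈ PC Q → px.1 ^ 100 ≤ Q → (∀ i, Mdl Q (Y i) η E0 px th) → 0 < η →
    px.2 ^ 2 = 1 → 0 ≤ E0 → 4 * m * E0 ≤ 1 → E0 ≤ 1 →
    ∃ Bad : Finset (Fin g → ℕ), Bad ⊆ cub (fun j => 2 * X j) X ∧
      (Bad.card : ℝ) ≤ vol X * (Q : ℝ) ^ (-c') ∧
      ∀ ω ∈ cub (fun j => 2 * X j) X, ω ∉ Bad → ∀ m0 : ℝ, (∀ th' : Fin m → ℝ, (∀ i, 0 ≤ th' i) →
        (∀ i, th' i ≤ 1 - η) → (px = p0 → ∀ i, th' i = 0) → m0 ≤ PMf Q px th' (F.map ω)) →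
        Z * (m0 / 2 - (Q : ℝ) ^ (-c')) ≤ MF F Q Z Y ω := by
  obtain ⟨c1, K, hc1, hK, Q0, hms⟩ := D3_ms m g B hm F C c hC hc hF
  obtain ⟨Q1, hQ1, hsize⟩ := G1_size 1
  refine ⟨c1 / 4, K, by positivity, hK, max Q0 Q1, ?_⟩
  intro Q N Z X Y η E0 px th hQ hKN hG hpx hpx100 hM hη hreal hE0 hmE hE1
  have q0 : Q0 ≤ Q := (le_max_left _ _).trans hQ
  have q1 : Q1 ≤ Q := (le_max_right _ _).trans hQ
  have q2 : 1 ≤ Q := hQ1.trans q1
  have hQr : (1 : ℝ) ≤ Q := by exact_mod_cast q2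
  have hQr0 : (0 : ℝ) < Q := by linarith
  choose e eb mb b1 b2 b3 b4 using fun i => CF0 Q (Y i) η E0 px th q2 (hM i) hE1
  have hms' := hms Q N Z X Y q0 hKN hG (fun i m p => MX px th m p + e i m p) mb b4 px.1
    (mem_PC.1 hpx).1 hpx100
  have hv0 : 0 ≤ vol X := prod_nonneg fun i _ => Nat.cast_nonneg _
  rcases Nat.eq_zero_or_pos Z with hZ0 | hZpos
  · refine ⟨∅, empty_subset _, ?_, ?_⟩
    · rw [card_empty, Nat.cast_zero]
      exact mul_nonneg hv0 (Real.rpow_nonneg hQr0.le _)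
    · intro ω _ _ m0 _
      unfold MF
      rw [hZ0]
      simp
  have hZr : (0 : ℝ) < Z := by exact_mod_cast hZpos
  have hTpos : 0 < (Z : ℝ) * (Q : ℝ) ^ (-(c1 / 4)) := by positivity
  have hch := z4_cheb (cub (fun j => 2 * X j) X) (fun ω => ‖((MF F Q Z Y ω : ℝ) : ℂ) -
    MZ F Q Z px.1 X (fun i m p => MX px th m p + e i m p) ω‖) _ _ hTpos hms' (fun _ => norm_nonneg _)
  refine ⟨_, filter_subset _ _, hch.trans ?_, ?_⟩
  · have h1 : ((Z : ℝ) * (Q : ℝ) ^ (-(c1 / 4))) ^ 2 = (Z : ℝ) ^ 2 * (Q : ℝ) ^ (-(c1 / 2)) := by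
      rw [mul_pow, ← Real.rpow_natCast ((Q : ℝ) ^ (-(c1 / 4))), ← Real.rpow_mul hQr0.le]
      congr 2
      push_cast
      ring
    have h2 : (Q : ℝ) ^ (-c1) = (Q : ℝ) ^ (-(c1 / 2)) * (Q : ℝ) ^ (-(c1 / 2)) := by
      rw [← Real.rpow_add hQr0]
      congr 1
      ring
    have h3 : (0 : ℝ) < (Q : ℝ) ^ (-(c1 / 2)) := Real.rpow_pos_of_pos hQr0 _
    have h4 : vol X * (Z : ℝ) ^ 2 * (Q : ℝ) ^ (-c1) / ((Z : ℝ) * (Q : ℝ) ^ (-(c1 / 4))) ^ 2 =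
        vol X * (Q : ℝ) ^ (-(c1 / 2)) := by
      rw [h1, h2]
      field_simp
    rw [h4]
    exact mul_le_mul_of_nonneg_left (Real.rpow_le_rpow_of_exponent_le hQr (by linarith)) hv0
  · intro ω hω hbad m0 hm0
    rw [mem_filter, not_and, not_lt] at hbad
    have h1 := hbad hω
    have hcond := (hsize Q q1 px.1 1 le_rfl le_rfl hpx100).1
    rw [one_mul] at hcond
    have hN : 1 ≤ N := by
      rcases Nat.eq_zero_or_pos N with h | h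
      · have h2 := hG.Zhi
        omega
      · exact h
    have hcell : ∀ n ∈ Ico Z (2 * Z), m0 / 2 ≤
        (MDf Q px.1 (fun i => (fun (i : Fin m) (x : ℤ) (p : Ch) => MX px th x p + e i x p) i
          (fp F Q Z X ω n i)) (F.map ω)).re := by
      intro n hn
      obtain ⟨d1, d2, -⟩ := D1_base hG q2 hN ω hω n hn
      have hval : ∀ i, (Y i : ℤ) ≤ fp F Q Z X ω n i ∧ fp F Q Z X ω n i ≤ 4 * Y i :=
        fun i => ⟨hG.lo i _ d1 _ d2, (hG.hi i _ d1 _ d2).le⟩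
      refine Z3_cell Q px.1 q2 η E0 px hpx hreal dvd_rfl (mem_PC.1 hpx).1 hcond hη hE0 hmE (F.map ω)
        (fun i => th (fp F Q Z X ω n i)) ?_ ?_ ?_ (fun i => e i (fp F Q Z X ω n i)) _ ?_ ?_ m0 hm0
      · intro i
        exact (hM i).nonneg _ (hval i).1 (hval i).2
      · intro i
        exact (hM i).le _ (hval i).1 (hval i).2
      · intro h0 i
        exact (hM i).triv h0 _
      · intro i
        exact (Finset.sum_le_sum fun p hp => b3 i _ (hval i).1 (hval i).2 p hp).trans (b2 i)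
      · intro i p
        rfl
    have hZ3 : Z * (m0 / 2) ≤ (MZ F Q Z px.1 X (fun i m p => MX px th m p + e i m p) ω).re := by
      unfold MZ
      rw [Complex.re_sum]
      have h2 := Finset.sum_le_sum hcell
      rw [Finset.sum_const, Nat.card_Ico, nsmul_eq_mul] at h2
      have h3 : 2 * Z - Z = Z := by omega
      rw [h3] at h2
      exact h2
    have h5 : (MZ F Q Z px.1 X (fun i m p => MX px th m p + e i m p) ω).re - MF F Q Z Y ω ≤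
        Z * (Q : ℝ) ^ (-(c1 / 4)) := by
      refine le_trans ?_ h1
      have h6 := Complex.abs_re_le_norm (((MF F Q Z Y ω : ℝ) : ℂ) -
        MZ F Q Z px.1 X (fun i m p => MX px th m p + e i m p) ω)
      refine le_trans ?_ h6
      rw [Complex.sub_re, Complex.ofReal_re]
      have h7 := neg_abs_le (MF F Q Z Y ω -
        (MZ F Q Z px.1 X (fun i m p => MX px th m p + e i m p) ω).re)
      linarith
    have h8 : (Z : ℝ) * (m0 / 2 - (Q : ℝ) ^ (-(c1 / 4))) =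
        Z * (m0 / 2) - Z * (Q : ℝ) ^ (-(c1 / 4)) := by ring
    rw [h8]
    linarith

end Pool.Agent.Lib.H24Q
end
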