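import Pool.Agent.Lib.H1M.RV2.M007
import Pool.Agent.Lib.H1M.RV2.M026
import Pool.Agent.Lib.H1M.RV2.M034
import Pool.Agent.Lib.H1M.RV2.M079
import Pool.Agent.Lib.H1M.RV2.M082
import Pool.Agent.Lib.H1M.RV2.M085
import Pool.Agent.Lib.H1M.RV2.M088
import Pool.Agent.Lib.H1M.RV2.M089

/-! Merged copies (to shorten the build) of Lib.H59T.F4, Lib.H59T.F5, Lib.H59T.UF, Lib.H59T.UBA, Lib.H59T.UB, Lib.H59T.F6, Lib.H59T.UL, Lib.H59T.UV, Lib.H9S.BDL, Lib.H9S.O3. -/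

-- from Lib.H59T.F4
section

/-!
# Project H59T, chunk F4 (S/M): the four forms
-/

open Finset

namespace Pool.Agent.Lib.H59T

open Pool.Agent.Lib.H68T Pool.Agent.Lib.H18Q Pool.Agent.Lib.H59P

/-- **The four forms.** Proof. `F3_gen` with `E7_four`, `E7_cp`, `Fin.prod_univ_four`. -/
theorem F4_four : ∃ C : ℝ, 0 < C ∧ ∀ Q D : ℕ, 1 ≤ D → ∀ p : Fin 4 → Ch, (∀ i, p i ∈ PC Q) →
    ∀ T : Finset (Fin 4 → ℕ), T ⊆ Fintype.piFinset (fun i => KS Q (p i).1) →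
    (∀ κ ∈ T, D < univ.lcm (fun i => (p i).1 * κ i)) → ∀ a a' b s s' H : ℕ,
    Q ^ 40 ≤ s → Q ^ 40 ≤ s' → Q ^ 40 ≤ H →
    ∑ y ∈ Ico a (a + s), ∑ y' ∈ Ico a' (a' + s'), ‖∑ z ∈ Ico b (b + H), ∑ κ ∈ T,
      ∏ i, gk (p i) (κ i) ((![(y : ℤ) + z, y - z, y' + z, y' - z] : Fin 4 → ℤ) i)‖ ^ 2 ≤
      C * ((s : ℝ) * s' * H ^ 2) * (D : ℝ) ^ (-(1 / 36 : ℝ)) := by
  obtain ⟨C, hC, h0⟩ := F3_gen 4 10 (1 / 18) (by norm_num) (by norm_num)
  have h := h0 ff E7_cp E7_four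
  refine ⟨C, hC, fun Q D hD p hp T hT hTD a a' b s s' H hs hs' hH => ?_⟩
  have h1 := h Q D hD p hp T hT hTD a a' b s s' H hs hs' hH
  have e1 : -(1 / 18 / 2 : ℝ) = -(1 / 36 : ℝ) := by norm_num
  rw [e1] at h1
  refine le_trans (le_of_eq ?_) h1
  refine sum_congr rfl fun y _ => sum_congr rfl fun y' _ => ?_
  have h2 : ∀ (z : ℕ) (κ : Fin 4 → ℕ),
      ∏ i, gk (p i) (κ i) ((![(y : ℤ) + z, y - z, y' + z, y' - z] : Fin 4 → ℤ) i) =
        ∏ i, gk (p i) (κ i) (ff i y y' z) := by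
    intro z κ
    rw [Fin.prod_univ_four, Fin.prod_univ_four]
    rfl
  simp only [h2]

end Pool.Agent.Lib.H59T
end

-- from Lib.H59T.F5
section

/-!
# Project H59T, chunk F5 (M): the weighted version for two forms
-/

open Finset

namespace Pool.Agent.Lib.H59T

open Pool.Agent.Lib.H68T Pool.Agent.Lib.H18Q Pool.Agent.Lib.H59P

/-- The conjugate character. -/
noncomputable def cjp (p : Ch) : Ch := ⟨p.1, p.2⁻¹⟩

theorem f5_inv_prim {r : ℕ} (χ : DirichletCharacter ℂ r) (h : χ.IsPrimitive) :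
    (χ⁻¹).IsPrimitive := by
  have key : ∀ ψ : DirichletCharacter ℂ r, ψ.conductorSet ⊆ (ψ⁻¹).conductorSet := by
    rintro ψ d ⟨hd, ξ, hξ⟩
    exact ⟨hd, ξ⁻¹, by rw [map_inv, ← hξ]⟩
  have e : (χ⁻¹).conductorSet = χ.conductorSet := by
    apply Set.Subset.antisymm
    · have := key χ⁻¹
      rwa [inv_inv] at this
    · exact key χ
  unfold DirichletCharacter.IsPrimitive DirichletCharacter.conductor at *
  rw [e]
  exact h

/-- Proof. The inverse of a primitive character is primitive, `conj χ = χ⁻¹` (`MulChar.star_apply'`-type lemma or values of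
absolute value `1` on units), the other factors of `gk` are real. -/
theorem F5_conj (Q : ℕ) (p : Ch) (hp : p ∈ PC Q) (κ : ℕ) (m : ℤ) :
    cjp p ∈ PC Q ∧ (starRingEnd ℂ) (gk p κ m) = gk (cjp p) κ m := by
  obtain ⟨h1, h2, h3⟩ := mem_PC.1 hp
  refine ⟨mem_PC.2 ⟨h1, h2, f5_inv_prim p.2 h3⟩, ?_⟩
  have hne : NeZero p.1 := ⟨by omega⟩
  have hs : ∀ (χ : DirichletCharacter ℂ p.1) (a : ZMod p.1), (starRingEnd ℂ) (χ a) = χ⁻¹ a :=
    fun χ a => χ.star_apply' a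
  unfold gk cjp
  dsimp only
  rw [map_mul, map_mul, Complex.conj_ofReal, Complex.conj_ofReal, Complex.conj_conj, hs, inv_inv]

theorem f5_neg (p : Ch) (κ : ℕ) (m : ℤ) :
    gk p κ (-m) = (starRingEnd ℂ) (p.2 (((-1 : ℤ)) : ZMod p.1)) * gk p κ m := by
  have h : ((-m : ℤ) : ZMod p.1) = ((-1 : ℤ) : ZMod p.1) * (m : ZMod p.1) := by
    push_cast
    ring
  have hc : cq κ (-m) = cq κ m := by
    unfold cq
    simp only [dvd_neg]
  unfold gk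
  rw [h, map_mul, map_mul, hc]
  ring

theorem f5_eps (p : Ch) :
    (starRingEnd ℂ) (p.2 (((-1 : ℤ)) : ZMod p.1)) *
      (starRingEnd ℂ) ((starRingEnd ℂ) (p.2 (((-1 : ℤ)) : ZMod p.1))) = 1 := by
  have h1 : p.2 (((-1 : ℤ)) : ZMod p.1) * p.2 (((-1 : ℤ)) : ZMod p.1) = 1 := by
    rw [← map_mul]
    have : (((-1 : ℤ)) : ZMod p.1) * (((-1 : ℤ)) : ZMod p.1) = 1 := by
      push_cast
      ring
    rw [this, map_one]
  have h2 : ‖p.2 (((-1 : ℤ)) : ZMod p.1)‖ = 1 := by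
    have h3 : ‖p.2 (((-1 : ℤ)) : ZMod p.1)‖ * ‖p.2 (((-1 : ℤ)) : ZMod p.1)‖ = 1 := by
      rw [← norm_mul, h1, norm_one]
    nlinarith [norm_nonneg (p.2 (((-1 : ℤ)) : ZMod p.1))]
  rw [Complex.conj_conj, mul_comm, Complex.mul_conj', h2]
  norm_num

/-- The embedding of pairs of index vectors. -/
def f5_emb (q : (Fin 2 → ℕ) × (Fin 2 → ℕ)) : Fin 4 → ℕ := ![q.1 0, q.1 1, q.2 0, q.2 1]

theorem f5_emb_inj : Function.Injective f5_emb := by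
  rintro ⟨a, b⟩ ⟨c, d⟩ h
  have h0 := congrFun h 0
  have h1 := congrFun h 1
  have h2 := congrFun h 2
  have h3 := congrFun h 3
  simp [f5_emb] at h0 h1 h2 h3
  ext i
  · fin_cases i <;> simp [h0, h1]
  · fin_cases i <;> simp [h2, h3]

theorem f5_kernel (Q : ℕ) (p : Fin 2 → Ch) (hp : ∀ i, p i ∈ PC Q) (T : Finset (Fin 2 → ℕ)) (I : Finset ℕ)
    (y1 y2 : ℕ) :
    ∑ x ∈ I, (∑ κ ∈ T, ∏ i, gk (p i) (κ i) ((![(x : ℤ) + y1, x - y1] : Fin 2 → ℤ) i)) *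
      (starRingEnd ℂ) (∑ κ ∈ T, ∏ i, gk (p i) (κ i) ((![(x : ℤ) + y2, x - y2] : Fin 2 → ℤ) i)) =
    ∑ z ∈ I, ∑ κ ∈ (T ×ˢ T).image f5_emb,
      ∏ i, gk ((![p 0, p 1, cjp (p 0), cjp (p 1)] : Fin 4 → Ch) i) (κ i)
        ((![(y1 : ℤ) + z, y1 - z, y2 + z, y2 - z] : Fin 4 → ℤ) i) := by
  refine sum_congr rfl fun x _ => ?_
  rw [sum_image (fun a _ b _ h => f5_emb_inj h), sum_product, map_sum, sum_mul_sum]
  refine sum_congr rfl fun κ _ => sum_congr rfl fun κ' _ => ?_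
  rw [Fin.prod_univ_two, Fin.prod_univ_two, Fin.prod_univ_four, map_mul,
    (F5_conj Q (p 0) (hp 0) (κ' 0) _).2, (F5_conj Q (p 1) (hp 1) (κ' 1) _).2]
  have e1 : ((![(x : ℤ) + y1, x - y1] : Fin 2 → ℤ) 0) = (y1 : ℤ) + x := by
    change (x : ℤ) + y1 = _
    ring
  have e2 : ((![(x : ℤ) + y1, x - y1] : Fin 2 → ℤ) 1) = -((y1 : ℤ) - x) := by
    change (x : ℤ) - y1 = _
    ring
  have e3 : ((![(x : ℤ) + y2, x - y2] : Fin 2 → ℤ) 0) = (y2 : ℤ) + x := by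
    change (x : ℤ) + y2 = _
    ring
  have e4 : ((![(x : ℤ) + y2, x - y2] : Fin 2 → ℤ) 1) = -((y2 : ℤ) - x) := by
    change (x : ℤ) - y2 = _
    ring
  rw [e1, e2, e3, e4, ← (F5_conj Q (p 1) (hp 1) (κ' 1) (-((y2 : ℤ) - x))).2, f5_neg, f5_neg, map_mul,
    (F5_conj Q (p 1) (hp 1) (κ' 1) ((y2 : ℤ) - x)).2]
  have h := f5_eps (p 1)
  change gk (p 0) (κ 0) ((y1 : ℤ) + x) *
      ((starRingEnd ℂ) ((p 1).2 (((-1 : ℤ)) : ZMod (p 1).1)) * gk (p 1) (κ 1) ((y1 : ℤ) - x)) *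
      (gk (cjp (p 0)) (κ' 0) ((y2 : ℤ) + x) *
        ((starRingEnd ℂ) ((starRingEnd ℂ) ((p 1).2 (((-1 : ℤ)) : ZMod (p 1).1))) *
          gk (cjp (p 1)) (κ' 1) ((y2 : ℤ) - x))) =
    gk (p 0) (κ 0) ((y1 : ℤ) + x) * gk (p 1) (κ 1) ((y1 : ℤ) - x) *
      gk (cjp (p 0)) (κ' 0) ((y2 : ℤ) + x) * gk (cjp (p 1)) (κ' 1) ((y2 : ℤ) - x)
  linear_combination (gk (p 0) (κ 0) ((y1 : ℤ) + x) * gk (p 1) (κ 1) ((y1 : ℤ) - x) *
      gk (cjp (p 0)) (κ' 0) ((y2 : ℤ) + x) * gk (cjp (p 1)) (κ' 1) ((y2 : ℤ) - x)) * h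

theorem f5_cs (I J : Finset ℕ) (w : ℕ → ℂ) (F : ℕ → ℕ → ℂ) :
    ∑ x ∈ I, ‖∑ y ∈ J, w y * F x y‖ ^ 2 ≤ (∑ y ∈ J, ‖w y‖ ^ 2) *
      Real.sqrt (∑ y1 ∈ J, ∑ y2 ∈ J, ‖∑ x ∈ I, F x y1 * (starRingEnd ℂ) (F x y2)‖ ^ 2) := by
  set A : ℝ := ∑ x ∈ I, ‖∑ y ∈ J, w y * F x y‖ ^ 2 with hA
  have hA0 : 0 ≤ A := sum_nonneg fun _ _ => sq_nonneg _
  set K : ℕ → ℕ → ℂ := fun y1 y2 => ∑ x ∈ I, F x y1 * (starRingEnd ℂ) (F x y2) with hK
  have e1 : (A : ℂ) = ∑ y1 ∈ J, ∑ y2 ∈ J, w y1 * (starRingEnd ℂ) (w y2) * K y1 y2 := by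
    rw [hA]
    push_cast
    have h1 : ∀ x ∈ I, ((‖∑ y ∈ J, w y * F x y‖ : ℝ) : ℂ) ^ 2 =
        ∑ y1 ∈ J, ∑ y2 ∈ J, w y1 * (starRingEnd ℂ) (w y2) * (F x y1 * (starRingEnd ℂ) (F x y2)) := by
      intro x _
      rw [← Complex.mul_conj', map_sum, sum_mul_sum]
      refine sum_congr rfl fun y1 _ => sum_congr rfl fun y2 _ => ?_
      rw [map_mul]
      ring
    rw [sum_congr rfl h1, sum_comm]
    refine sum_congr rfl fun y1 _ => ?_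
    rw [sum_comm]
    refine sum_congr rfl fun y2 _ => ?_
    rw [hK, mul_sum]
  have e2 : A ≤ ∑ q ∈ J ×ˢ J, (‖w q.1‖ * ‖w q.2‖) * ‖K q.1 q.2‖ := by
    have h2 : A = ‖(A : ℂ)‖ := by
      rw [Complex.norm_real, Real.norm_of_nonneg hA0]
    rw [h2, e1, sum_product]
    refine (norm_sum_le _ _).trans (sum_le_sum fun y1 _ => (norm_sum_le _ _).trans
      (sum_le_sum fun y2 _ => le_of_eq ?_))
    rw [norm_mul, norm_mul, RCLike.norm_conj]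
  have e3 : (∑ q ∈ J ×ˢ J, (‖w q.1‖ * ‖w q.2‖) * ‖K q.1 q.2‖) ^ 2 ≤
      (∑ q ∈ J ×ˢ J, (‖w q.1‖ * ‖w q.2‖) ^ 2) * ∑ q ∈ J ×ˢ J, ‖K q.1 q.2‖ ^ 2 :=
    sum_mul_sq_le_sq_mul_sq _ _ _
  have e4 : ∑ q ∈ J ×ˢ J, (‖w q.1‖ * ‖w q.2‖) ^ 2 = (∑ y ∈ J, ‖w y‖ ^ 2) ^ 2 := by
    rw [sum_product, sq, sum_mul_sum]
    refine sum_congr rfl fun y1 _ => sum_congr rfl fun y2 _ => ?_
    ring
  have e5 : ∑ q ∈ J ×ˢ J, ‖K q.1 q.2‖ ^ 2 = ∑ y1 ∈ J, ∑ y2 ∈ J, ‖K y1 y2‖ ^ 2 := by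
    rw [sum_product]
  rw [e4, e5] at e3
  have hW : 0 ≤ ∑ y ∈ J, ‖w y‖ ^ 2 := sum_nonneg fun _ _ => sq_nonneg _
  have hS : 0 ≤ ∑ y1 ∈ J, ∑ y2 ∈ J, ‖K y1 y2‖ ^ 2 :=
    sum_nonneg fun _ _ => sum_nonneg fun _ _ => sq_nonneg _
  refine e2.trans (abs_le_of_sq_le_sq' ?_ (mul_nonneg hW (Real.sqrt_nonneg _))).2
  rw [mul_pow, Real.sq_sqrt hS]
  exact e3

theorem f5_lcm (Q D : ℕ) (p : Fin 2 → Ch) (hp : ∀ i, p i ∈ PC Q) (κ κ' : Fin 2 → ℕ)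
    (hκ : κ ∈ Fintype.piFinset (fun i => KS Q (p i).1)) (hκ' : κ' ∈ Fintype.piFinset (fun i => KS Q (p i).1))
    (h : D < univ.lcm (fun i => (p i).1 * κ i)) :
    D < univ.lcm (fun i => ((![p 0, p 1, cjp (p 0), cjp (p 1)] : Fin 4 → Ch) i).1 * f5_emb (κ, κ') i) := by
  have hpos : ∀ (μ : Fin 2 → ℕ), μ ∈ Fintype.piFinset (fun i => KS Q (p i).1) → ∀ i, 1 ≤ μ i := by
    intro μ hμ i
    have h1 := Fintype.mem_piFinset.1 hμ i
    unfold KS at h1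
    classical
    rw [mem_filter, mem_Icc] at h1
    exact h1.1.1
  have hp1 : ∀ i, 1 ≤ (p i).1 := fun i => (mem_PC.1 (hp i)).1
  refine lt_of_lt_of_le h (Nat.le_of_dvd ?_ ?_)
  · apply Nat.pos_of_ne_zero
    intro h0
    rw [Finset.lcm_eq_zero_iff] at h0
    obtain ⟨i, _, hi⟩ := h0
    fin_cases i
    · simp [f5_emb] at hi
      rcases hi with hi | hi
      · have := hp1 0; omega
      · have := hpos κ hκ 0; omega
    · simp [f5_emb] at hi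
      rcases hi with hi | hi
      · have := hp1 1; omega
      · have := hpos κ hκ 1; omega
    · simp [f5_emb, cjp] at hi
      rcases hi with hi | hi
      · have := hp1 0; omega
      · have := hpos κ' hκ' 0; omega
    · simp [f5_emb, cjp] at hi
      rcases hi with hi | hi
      · have := hp1 1; omega
      · have := hpos κ' hκ' 1; omega
  · apply Finset.lcm_dvd
    intro i _
    fin_cases i
    · exact Finset.dvd_lcm (f := fun i => ((![p 0, p 1, cjp (p 0), cjp (p 1)] : Fin 4 → Ch) i).1 *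
        f5_emb (κ, κ') i) (mem_univ (0 : Fin 4))
    · exact Finset.dvd_lcm (f := fun i => ((![p 0, p 1, cjp (p 0), cjp (p 1)] : Fin 4 → Ch) i).1 *
        f5_emb (κ, κ') i) (mem_univ (1 : Fin 4))

/-- **Weights.** Here `x` is random and `y` is the summation variable with arbitrary weights. Proof. `F(x,y) = ∑_{κ ∈ T} gk gk`. The
left side is `∑_{y1,y2} w(y1) conj w(y2) K(y1,y2)`, `K(y1,y2) = ∑_x F(x,y1) conj F(x,y2)`, at most
`(∑ |w|²) (∑_{y1,y2} |K|²)^(1/2)` (Cauchy-Schwarz). The forms are `y + x`, `x - y`; `gk p κ (x - y)` differs from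
`gk p κ (y - x)` by the sign `χ(-1)` of the character, which is `±1` and constant. So `K` is, up to a sign, the inner sum in `F4_four` (with
`y = y1`, `y' = y2`, `z = x`) for `![p1, p2, cjp p1, cjp p2]` and `T × T` (image under `(κ, κ') ↦ ![κ 0, κ 1, κ' 0, κ' 1]`),
`F5_conj`; `lcm` over four is at least the `lcm` over the first two. `(C D^(-1/36))^(1/2)`. -/
theorem F5_weights : ∃ C : ℝ, 0 < C ∧ ∀ Q D : ℕ, 1 ≤ D → ∀ p : Fin 2 → Ch, (∀ i, p i ∈ PC Q) →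
    ∀ T : Finset (Fin 2 → ℕ), T ⊆ Fintype.piFinset (fun i => KS Q (p i).1) →
    (∀ κ ∈ T, D < univ.lcm (fun i => (p i).1 * κ i)) → ∀ (w : ℕ → ℂ) (a b s H : ℕ),
    Q ^ 40 ≤ s → Q ^ 40 ≤ H →
    ∑ x ∈ Ico a (a + s), ‖∑ y ∈ Ico b (b + H), w y * ∑ κ ∈ T,
      ∏ i, gk (p i) (κ i) ((![(x : ℤ) + y, x - y] : Fin 2 → ℤ) i)‖ ^ 2 ≤
      C * ((s : ℝ) * H * ∑ y ∈ Ico b (b + H), ‖w y‖ ^ 2) * (D : ℝ) ^ (-(1 / 72 : ℝ)) := by
  obtain ⟨C, hC, hF⟩ := F4_four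
  refine ⟨Real.sqrt C, Real.sqrt_pos.2 hC, ?_⟩
  intro Q D hD p hp T hT hlcm w a b s H hs hH
  have hp' : ∀ i, (![p 0, p 1, cjp (p 0), cjp (p 1)] : Fin 4 → Ch) i ∈ PC Q := by
    intro i
    fin_cases i
    · exact hp 0
    · exact hp 1
    · exact (F5_conj Q (p 0) (hp 0) 0 0).1
    · exact (F5_conj Q (p 1) (hp 1) 0 0).1
  have hT' : (T ×ˢ T).image f5_emb ⊆ Fintype.piFinset
      (fun i => KS Q ((![p 0, p 1, cjp (p 0), cjp (p 1)] : Fin 4 → Ch) i).1) := by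
    intro κ hκ
    obtain ⟨⟨κ1, κ2⟩, hq, rfl⟩ := mem_image.1 hκ
    rw [mem_product] at hq
    have h1 := Fintype.mem_piFinset.1 (hT hq.1)
    have h2 := Fintype.mem_piFinset.1 (hT hq.2)
    rw [Fintype.mem_piFinset]
    intro i
    fin_cases i
    · exact h1 0
    · exact h1 1
    · exact h2 0
    · exact h2 1
  have hl' : ∀ κ ∈ (T ×ˢ T).image f5_emb, D < univ.lcm
      (fun i => ((![p 0, p 1, cjp (p 0), cjp (p 1)] : Fin 4 → Ch) i).1 * κ i) := by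
    intro κ hκ
    obtain ⟨⟨κ1, κ2⟩, hq, rfl⟩ := mem_image.1 hκ
    rw [mem_product] at hq
    exact f5_lcm Q D p hp κ1 κ2 (hT hq.1) (hT hq.2) (hlcm κ1 hq.1)
  have h4 := hF Q D hD _ hp' _ hT' hl' b b a H H s hH hH hs
  have hcs := f5_cs (Ico a (a + s)) (Ico b (b + H)) w
    (fun x y => ∑ κ ∈ T, ∏ i, gk (p i) (κ i) ((![(x : ℤ) + y, x - y] : Fin 2 → ℤ) i))
  have hker : ∑ y1 ∈ Ico b (b + H), ∑ y2 ∈ Ico b (b + H), ‖∑ x ∈ Ico a (a + s),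
      (∑ κ ∈ T, ∏ i, gk (p i) (κ i) ((![(x : ℤ) + y1, x - y1] : Fin 2 → ℤ) i)) *
      (starRingEnd ℂ) (∑ κ ∈ T, ∏ i, gk (p i) (κ i) ((![(x : ℤ) + y2, x - y2] : Fin 2 → ℤ) i))‖ ^ 2 ≤
      C * ((H : ℝ) * H * (s : ℝ) ^ 2) * (D : ℝ) ^ (-(1 / 36 : ℝ)) := by
    refine le_trans (le_of_eq ?_) h4
    refine sum_congr rfl fun y1 _ => sum_congr rfl fun y2 _ => ?_
    rw [f5_kernel Q p hp T (Ico a (a + s)) y1 y2]
  have hD0 : (0 : ℝ) ≤ (D : ℝ) := Nat.cast_nonneg D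
  have hr : Real.sqrt (C * ((H : ℝ) * H * (s : ℝ) ^ 2) * (D : ℝ) ^ (-(1 / 36 : ℝ))) =
      Real.sqrt C * ((s : ℝ) * H) * (D : ℝ) ^ (-(1 / 72 : ℝ)) := by
    have e1 : C * ((H : ℝ) * H * (s : ℝ) ^ 2) * (D : ℝ) ^ (-(1 / 36 : ℝ)) =
        (Real.sqrt C * ((s : ℝ) * H) * (D : ℝ) ^ (-(1 / 72 : ℝ))) ^ 2 := by
      have e2 : ((D : ℝ) ^ (-(1 / 72 : ℝ))) ^ 2 = (D : ℝ) ^ (-(1 / 36 : ℝ)) := by
        rw [← Real.rpow_natCast, ← Real.rpow_mul hD0]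
        norm_num
      rw [mul_pow, mul_pow, Real.sq_sqrt hC.le, e2]
      ring
    rw [e1, Real.sqrt_sq (by positivity)]
  refine hcs.trans ?_
  refine (mul_le_mul_of_nonneg_left (Real.sqrt_le_sqrt hker)
    (sum_nonneg fun _ _ => sq_nonneg _)).trans (le_of_eq ?_)
  rw [hr]
  ring

end Pool.Agent.Lib.H59T
end

-- from Lib.H59T.UF
section

/-!
# Project H59T, chunk UF (M): small cubes
-/

open Finset

namespace Pool.Agent.Lib.H59T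

open Pool.Agent.Lib.H68T Pool.Agent.Lib.H18Q Pool.Agent.Lib.H59P

/-- Proof. `‖gk p κ m‖ ≤ p.1 ≤ Q` (see `F3_sup`), at most `Q` values of `κ`. -/
theorem UF_sup (Q Q' : ℕ) (p : Ch) (hp : p ∈ PC Q) (m : ℤ) : ‖Vl Q Q' p m‖ ≤ (Q : ℝ) ^ 2 := by
  unfold Vl
  refine (norm_sum_le _ _).trans ?_
  have h1 : ∀ κ ∈ (KS Q p.1).filter (fun κ => Q' < p.1 * κ), ‖gk p κ m‖ ≤ (Q : ℝ) := fun κ hκ =>
    f3_gk Q p hp κ (mem_filter.1 hκ).1 m
  refine (Finset.sum_le_sum h1).trans ?_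
  rw [sum_const, nsmul_eq_mul, pow_two]
  refine mul_le_mul_of_nonneg_right ?_ (Nat.cast_nonneg _)
  have h2 : ((KS Q p.1).filter (fun κ => Q' < p.1 * κ)).card ≤ Q := by
    have h3 : (KS Q p.1).filter (fun κ => Q' < p.1 * κ) ⊆ Icc 1 Q := by
      intro κ hκ
      have h4 := CA_mem_KS.1 (mem_filter.1 hκ).1
      exact mem_Icc.2 ⟨h4.1.1, h4.1.2.trans (Nat.div_le_self _ _)⟩
    have h5 := card_le_card h3
    rwa [Nat.card_Icc, Nat.add_sub_cancel] at h5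
  exact_mod_cast h2

/-- the four characters -/
noncomputable def uf_p (p : Ch) : Fin 4 → Ch := ![p, cjp p, cjp p, p]


theorem uf_conj (Q Q' : ℕ) (p : Ch) (hp : p ∈ PC Q) (m : ℤ) :
    (starRingEnd ℂ) (Vl Q Q' p m) = Vl Q Q' (cjp p) m := by
  unfold Vl
  rw [map_sum]
  have h1 : (cjp p).1 = p.1 := rfl
  refine Finset.sum_congr rfl fun κ _ => (F5_conj Q p hp κ m).2

/-- the set of moduli -/
noncomputable def uf_T (Q Q' : ℕ) (p : Ch) : Finset (Fin 4 → ℕ) :=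
  Fintype.piFinset fun i : Fin 4 => (KS Q (uf_p p i).1).filter (fun κ => Q' < (uf_p p i).1 * κ)

theorem uf_expand (Q Q' : ℕ) (p : Ch) (hp : p ∈ PC Q) (h h' k k' t m : ℤ) :
    P4 (Vl Q Q' p) h h' k k' (m + 2 * t) = ∑ κ ∈ uf_T Q Q' p,
      ∏ i, gk (uf_p p i) (κ i) (uf ![m + h + k, m + k, m + h, m] i h' k' t) := by
  unfold uf_T
  rw [← Finset.prod_univ_sum (fun i : Fin 4 => (KS Q (uf_p p i).1).filter (fun κ => Q' < (uf_p p i).1 * κ))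
    (fun i κ => gk (uf_p p i) κ (uf ![m + h + k, m + k, m + h, m] i h' k' t))]
  rw [Fin.prod_univ_four]
  unfold P4
  rw [uf_conj Q Q' p hp, uf_conj Q Q' p hp]
  have e0 : uf ![m + h + k, m + k, m + h, m] 0 h' k' t = m + 2 * t + h + k := by
    show 2 * t + (m + h + k) = _
    ring
  have e1 : uf ![m + h + k, m + k, m + h, m] 1 h' k' t = m + 2 * t + h' + k := by
    show 2 * t + h' + (m + k) = _
    ring
  have e2 : uf ![m + h + k, m + k, m + h, m] 2 h' k' t = m + 2 * t + h + k' := by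
    show 2 * t + k' + (m + h) = _
    ring
  have e3 : uf ![m + h + k, m + k, m + h, m] 3 h' k' t = m + 2 * t + h' + k' := by
    show 2 * t + h' + k' + m = _
    ring
  rw [e0, e1, e2, e3]
  rfl

theorem uf_lcm (Q Q' : ℕ) (p : Ch) (hp : p ∈ PC Q) (κ : Fin 4 → ℕ) (hκ : κ ∈ uf_T Q Q' p) :
    Q' < univ.lcm (fun i => (uf_p p i).1 * κ i) := by
  have h1 : ∀ i, κ i ∈ KS Q (uf_p p i).1 ∧ Q' < (uf_p p i).1 * κ i := fun i =>
    mem_filter.1 (Fintype.mem_piFinset.1 hκ i)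
  refine (h1 0).2.trans_le (Nat.le_of_dvd ?_ (Finset.dvd_lcm (mem_univ 0)))
  refine Nat.pos_of_ne_zero ?_
  rw [Ne, Finset.lcm_eq_zero_iff]
  rintro ⟨i, -, hi⟩
  have h2 := (h1 i).2
  omega

/-- Proof. For fixed `h, k` put `y = h'`, `y' = k'`, `z = t`: `P4 V h h' k k' (m + 2t)` is the product of `V`, `conj V`, `conj V`, `V` at the
forms `uf e` with `e = ![m+h+k, m+k, m+h, m]`. Expand `V = Vl Q Q' p` (and its conjugate, `F5_conj`): it is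
`∑_{κ ∈ T} ∏_i gk (p_i) (κ i) (uf e i …)` with `p_i = ![p, cjp p, cjp p, p]`, `T` = the product (`Fintype.piFinset`) of the sets
`(KS Q p.1).filter (Q' < p.1 κ)` (`Finset.prod_univ_sum`), and `Q' < p.1 κ_0 ≤ lcm`. `F3_gen` with `k = 4`, `A = 12`, `c = 1/72`,
`D = Q'`, `a = a' = b = 0`, `s = s' = H` (`Q^40 ≤ H`): at most `C H⁴ Q'^(-1/144)` for each of the `H²` pairs `(h, k)`. -/
theorem UF_cube : ∃ C : ℝ, 0 < C ∧ ∀ Q Q' H : ℕ, 1 ≤ Q' → Q ^ 40 ≤ H → ∀ p ∈ PC Q, ∀ m : ℤ,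
    ∑ h ∈ range H, ∑ h' ∈ range H, ∑ k ∈ range H, ∑ k' ∈ range H,
      ‖∑ t ∈ range H, P4 (Vl Q Q' p) h h' k k' (m + 2 * t)‖ ^ 2 ≤
      C * (H : ℝ) ^ 6 * (Q' : ℝ) ^ (-(1 / 144 : ℝ)) := by
  obtain ⟨C, hC, hF⟩ := F3_gen 4 12 (1 / 72) (by norm_num) (by norm_num)
  refine ⟨C, hC, fun Q Q' H hQ' hH p hp m => ?_⟩
  have hpp : ∀ i, uf_p p i ∈ PC Q := by
    intro i
    have h1 := (F5_conj Q p hp 1 0).1
    fin_cases i
    · exact hp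
    · exact h1
    · exact h1
    · exact hp
  have key : ∀ h k : ℕ, ∑ h' ∈ range H, ∑ k' ∈ range H,
      ‖∑ t ∈ range H, P4 (Vl Q Q' p) h h' k k' (m + 2 * t)‖ ^ 2 ≤
      C * ((H : ℝ) * H * (H : ℝ) ^ 2) * (Q' : ℝ) ^ (-(1 / 144 : ℝ)) := by
    intro h k
    have h1 := hF (uf ![m + h + k, m + k, m + h, m]) (UE_cp _) (UE_loc _) Q Q' hQ' (uf_p p) hpp
      (uf_T Q Q' p) (fun κ hκ => Fintype.mem_piFinset.2 fun i =>
        (mem_filter.1 (Fintype.mem_piFinset.1 hκ i)).1) (fun κ hκ => uf_lcm Q Q' p hp κ hκ)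
      0 0 0 H H H (by simpa using hH) (by simpa using hH) (by simpa using hH)
    have e1 : (-((1 : ℝ) / 72 / 2)) = -(1 / 144) := by norm_num
    rw [e1] at h1
    simp only [zero_add, ← Finset.range_eq_Ico] at h1
    refine le_trans (le_of_eq ?_) h1
    refine Finset.sum_congr rfl fun h' _ => Finset.sum_congr rfl fun k' _ => ?_
    congr 2
    refine Finset.sum_congr rfl fun t _ => ?_
    exact uf_expand Q Q' p hp h h' k k' t m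
  have e2 : ∀ h ∈ range H, ∑ h' ∈ range H, ∑ k ∈ range H, ∑ k' ∈ range H,
      ‖∑ t ∈ range H, P4 (Vl Q Q' p) h h' k k' (m + 2 * t)‖ ^ 2 ≤
      H * (C * ((H : ℝ) * H * (H : ℝ) ^ 2) * (Q' : ℝ) ^ (-(1 / 144 : ℝ))) := by
    intro h _
    rw [Finset.sum_comm]
    refine (Finset.sum_le_sum fun k _ => key h k).trans ?_
    rw [Finset.sum_const, Finset.card_range, nsmul_eq_mul]
  refine (Finset.sum_le_sum e2).trans (le_of_eq ?_)
  rw [Finset.sum_const, Finset.card_range, nsmul_eq_mul]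
  ring

end Pool.Agent.Lib.H59T
end

-- from Lib.H59T.UBA
section

/-!
# Project H59T, chunk UBA (M): small cubes for a kernel with slowly varying coefficient
-/

open Finset

namespace Pool.Agent.Lib.H59T

open Pool.Agent.Lib.H68T Pool.Agent.Lib.H18Q Pool.Agent.Lib.H59P

theorem uba_lip (β : ℤ → ℂ) (u v : ℤ) (δ : ℝ) (hδ : ∀ m, u ≤ m → m + 1 ≤ v → ‖β (m + 1) - β m‖ ≤ δ)
    (m : ℤ) (hm : u ≤ m) (j : ℕ) : m + j ≤ v → ‖β (m + j) - β m‖ ≤ j * δ := by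
  induction j with
  | zero =>
    intro _
    simp
  | succ j ih =>
    intro hj
    push_cast at hj
    have h1 := ih (by omega)
    have h2 := hδ (m + j) (by omega) (by omega)
    have h3 : β (m + ((j + 1 : ℕ) : ℤ)) - β m = (β (m + j + 1) - β (m + j)) + (β (m + j) - β m) := by
      push_cast
      rw [← add_assoc]
      ring
    rw [h3]
    refine (norm_add_le _ _).trans ?_
    push_cast
    linarith

theorem uba_prod {B e : ℝ} (hB : 0 ≤ B) {a b c d a' b' c' d' : ℂ} (hb : ‖b‖ ≤ B) (hc : ‖c‖ ≤ B) (hd : ‖d‖ ≤ B)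
    (ha' : ‖a'‖ ≤ B) (hb' : ‖b'‖ ≤ B) (hc' : ‖c'‖ ≤ B) (h1 : ‖a - a'‖ ≤ e) (h2 : ‖b - b'‖ ≤ e)
    (h3 : ‖c - c'‖ ≤ e) (h4 : ‖d - d'‖ ≤ e) : ‖a * b * c * d - a' * b' * c' * d'‖ ≤ 4 * e * B ^ 3 := by
  have he : 0 ≤ e := (norm_nonneg _).trans h1
  have h0 : a * b * c * d - a' * b' * c' * d' = (a - a') * b * c * d + a' * (b - b') * c * d +
      a' * b' * (c - c') * d + a' * b' * c' * (d - d') := by ring
  have e1 : ‖(a - a') * b * c * d‖ ≤ e * B * B * B := by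
    rw [norm_mul, norm_mul, norm_mul]
    gcongr
  have e2 : ‖a' * (b - b') * c * d‖ ≤ B * e * B * B := by
    rw [norm_mul, norm_mul, norm_mul]
    gcongr
  have e3 : ‖a' * b' * (c - c') * d‖ ≤ B * B * e * B := by
    rw [norm_mul, norm_mul, norm_mul]
    gcongr
  have e4 : ‖a' * b' * c' * (d - d')‖ ≤ B * B * B * e := by
    rw [norm_mul, norm_mul, norm_mul]
    gcongr
  rw [h0]
  have n1 := norm_add_le ((a - a') * b * c * d + a' * (b - b') * c * d + a' * b' * (c - c') * d) (a' * b' * c' * (d - d'))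
  have n2 := norm_add_le ((a - a') * b * c * d + a' * (b - b') * c * d) (a' * b' * (c - c') * d)
  have n3 := norm_add_le ((a - a') * b * c * d) (a' * (b - b') * c * d)
  have h5 : 4 * e * B ^ 3 = e * B * B * B + B * e * B * B + B * B * e * B + B * B * B * e := by ring
  rw [h5]
  linarith

theorem uba_G (b : ℂ) (hb : ‖b‖ ≤ 1) (V : ℤ → ℂ) (H : ℕ) (h h' k k' m : ℤ) :
    ‖∑ t ∈ range H, P4 (fun x => b * V x) h h' k k' (m + 2 * t)‖ ≤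
      ‖∑ t ∈ range H, P4 V h h' k k' (m + 2 * t)‖ := by
  have h1 : ∀ x, P4 (fun x => b * V x) h h' k k' x =
      (b * (starRingEnd ℂ) b * (starRingEnd ℂ) b * b) * P4 V h h' k k' x := by
    intro x
    unfold P4
    simp only [map_mul]
    ring
  rw [Finset.sum_congr rfl fun t _ => h1 _, ← Finset.mul_sum, norm_mul]
  refine mul_le_of_le_one_left (norm_nonneg _) ?_
  rw [norm_mul, norm_mul, norm_mul, Complex.norm_conj]
  calc ‖b‖ * ‖b‖ * ‖b‖ * ‖b‖ ≤ 1 * 1 * 1 * 1 := by gcongr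
    _ = 1 := by norm_num

theorem uba_const (H : ℕ) (a : ℝ) : ∑ _h ∈ range H, ∑ _h' ∈ range H, ∑ _k ∈ range H, ∑ _k' ∈ range H, a =
    (H : ℝ) ^ 4 * a := by
  simp only [Finset.sum_const, Finset.card_range, nsmul_eq_mul]
  ring

/-- all points in the interval -/
theorem uba_in {B δ : ℝ} (hB : 0 ≤ B) (hδ0 : 0 ≤ δ) (V : ℤ → ℂ) (hV : ∀ m, ‖V m‖ ≤ B) (β : ℤ → ℂ) (u v : ℤ)
    (hβ : ∀ m, u ≤ m → m ≤ v → ‖β m‖ ≤ 1)
    (hδ : ∀ m, u ≤ m → m + 1 ≤ v → ‖β (m + 1) - β m‖ ≤ δ) (H : ℕ) (m : ℤ) (h1 : u ≤ m) (h2 : m + 4 * H ≤ v)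
    (h h' k k' : ℕ) (hh : h < H) (hh' : h' < H) (hk : k < H) (hk' : k' < H) :
    ‖∑ t ∈ range H, P4 (fun m => if u ≤ m ∧ m ≤ v then β m * V m else 0) h h' k k' (m + 2 * t)‖ ^ 2 ≤
      2 * ‖∑ t ∈ range H, P4 V h h' k k' (m + 2 * t)‖ ^ 2 + 512 * (H : ℝ) ^ 4 * δ ^ 2 * B ^ 8 := by
  obtain ⟨F, hF⟩ : ∃ F : ℤ → ℂ, F = fun m => if u ≤ m ∧ m ≤ v then β m * V m else 0 := ⟨_, rfl⟩
  rw [← hF]
  have hFx : ∀ j : ℕ, j ≤ 4 * H → F (m + j) = β (m + j) * V (m + j) ∧ ‖F (m + j)‖ ≤ B ∧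
      ‖β m * V (m + j)‖ ≤ B ∧ ‖F (m + j) - β m * V (m + j)‖ ≤ 4 * H * δ * B := by
    intro j hj
    have e0 : F (m + j) = β (m + j) * V (m + j) := by
      rw [hF]
      exact if_pos ⟨by omega, by omega⟩
    refine ⟨e0, ?_, ?_, ?_⟩
    · rw [e0, norm_mul]
      calc ‖β (m + j)‖ * ‖V (m + j)‖ ≤ 1 * B :=
            mul_le_mul (hβ _ (by omega) (by omega)) (hV _) (norm_nonneg _) zero_le_one
        _ = B := one_mul _
    · rw [norm_mul]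
      calc ‖β m‖ * ‖V (m + j)‖ ≤ 1 * B :=
            mul_le_mul (hβ _ (by omega) (by omega)) (hV _) (norm_nonneg _) zero_le_one
        _ = B := one_mul _
    · rw [e0, ← sub_mul, norm_mul]
      have e1 := uba_lip β u v δ hδ m h1 j (by omega)
      have e2 : (j : ℝ) * δ ≤ 4 * H * δ := by
        refine mul_le_mul_of_nonneg_right ?_ hδ0
        exact_mod_cast hj
      exact mul_le_mul (e1.trans e2) (hV _) (norm_nonneg _) (by positivity)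
  have hpt : ∀ t ∈ range H, ‖P4 F h h' k k' (m + 2 * t) - P4 (fun x => β m * V x) h h' k k' (m + 2 * t)‖ ≤
      4 * (4 * H * δ * B) * B ^ 3 := by
    intro t ht
    rw [mem_range] at ht
    have a1 : (m + 2 * (t : ℤ) + h + k : ℤ) = m + ((2 * t + h + k : ℕ) : ℤ) := by push_cast; ring
    have a2 : (m + 2 * (t : ℤ) + h' + k : ℤ) = m + ((2 * t + h' + k : ℕ) : ℤ) := by push_cast; ring
    have a3 : (m + 2 * (t : ℤ) + h + k' : ℤ) = m + ((2 * t + h + k' : ℕ) : ℤ) := by push_cast; ring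
    have a4 : (m + 2 * (t : ℤ) + h' + k' : ℤ) = m + ((2 * t + h' + k' : ℕ) : ℤ) := by push_cast; ring
    obtain ⟨-, b1, c1, d1⟩ := hFx (2 * t + h + k) (by omega)
    obtain ⟨-, b2, c2, d2⟩ := hFx (2 * t + h' + k) (by omega)
    obtain ⟨-, b3, c3, d3⟩ := hFx (2 * t + h + k') (by omega)
    obtain ⟨-, b4, c4, d4⟩ := hFx (2 * t + h' + k') (by omega)
    unfold P4
    rw [a1, a2, a3, a4]
    refine uba_prod hB ?_ ?_ b4 c1 ?_ ?_ d1 ?_ ?_ d4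
    · rw [Complex.norm_conj]; exact b2
    · rw [Complex.norm_conj]; exact b3
    · rw [Complex.norm_conj]; exact c2
    · rw [Complex.norm_conj]; exact c3
    · rw [← map_sub, Complex.norm_conj]; exact d2
    · rw [← map_sub, Complex.norm_conj]; exact d3
  have hdiff : ‖∑ t ∈ range H, P4 F h h' k k' (m + 2 * t) - ∑ t ∈ range H, P4 (fun x => β m * V x) h h' k k' (m + 2 * t)‖ ≤
      16 * (H : ℝ) ^ 2 * δ * B ^ 4 := by
    rw [← Finset.sum_sub_distrib]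
    refine (norm_sum_le _ _).trans ((Finset.sum_le_sum hpt).trans (le_of_eq ?_))
    rw [Finset.sum_const, Finset.card_range, nsmul_eq_mul]
    ring
  have hG := uba_G (β m) (hβ m h1 (by omega)) V H h h' k k' m
  generalize ∑ t ∈ range H, P4 F h h' k k' (m + 2 * t) = X at hdiff ⊢
  generalize ∑ t ∈ range H, P4 (fun x => β m * V x) h h' k k' (m + 2 * t) = Y at hdiff hG
  generalize ‖∑ t ∈ range H, P4 V h h' k k' (m + 2 * t)‖ = Z at hG ⊢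
  have e1 : ‖X‖ ≤ ‖X - Y‖ + ‖Y‖ := by
    have := norm_add_le (X - Y) Y
    rwa [sub_add_cancel] at this
  have e2 : ‖X‖ ≤ 16 * (H : ℝ) ^ 2 * δ * B ^ 4 + Z := by linarith
  have e3 := pow_le_pow_left₀ (norm_nonneg _) e2 2
  refine e3.trans ?_
  nlinarith [sq_nonneg (16 * (H : ℝ) ^ 2 * δ * B ^ 4 - Z)]

theorem uba_triv {B : ℝ} (F : ℤ → ℂ) (hF : ∀ m, ‖F m‖ ≤ B) (H : ℕ) (m h h' k k' : ℤ) :
    ‖∑ t ∈ range H, P4 F h h' k k' (m + 2 * t)‖ ^ 2 ≤ (H : ℝ) ^ 2 * B ^ 8 := by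
  have hB : 0 ≤ B := (norm_nonneg _).trans (hF 0)
  have h1 : ∀ x, ‖P4 F h h' k k' x‖ ≤ B ^ 4 := by
    intro x
    unfold P4
    rw [norm_mul, norm_mul, norm_mul, Complex.norm_conj, Complex.norm_conj]
    calc _ ≤ B * B * B * B := by
          gcongr
          · exact hF _
          · exact hF _
          · exact hF _
          · exact hF _
      _ = B ^ 4 := by ring
  have h2 : ‖∑ t ∈ range H, P4 F h h' k k' (m + 2 * t)‖ ≤ H * B ^ 4 := by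
    refine (norm_sum_le _ _).trans ((Finset.sum_le_sum fun t _ => h1 _).trans (le_of_eq ?_))
    rw [Finset.sum_const, Finset.card_range, nsmul_eq_mul]
  refine (pow_le_pow_left₀ (norm_nonneg _) h2 2).trans (le_of_eq ?_)
  ring

theorem uba_ind (S A : Finset ℤ) (a : ℝ) (ha : 0 ≤ a) : ∑ m ∈ S, (if m ∈ A then a else 0) ≤ A.card * a := by
  classical
  rw [← Finset.sum_filter, Finset.sum_const, nsmul_eq_mul]
  refine mul_le_mul_of_nonneg_right ?_ ha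
  have h1 : S.filter (fun m => m ∈ A) ⊆ A := fun m hm => (Finset.mem_filter.1 hm).2
  exact_mod_cast Finset.card_le_card h1

/-- The sum over the small cubes for a kernel with slowly varying coefficient and sharp cutoffs. Proof. `H = Q^40`. If the interval
`[m, m + 4H]` lies in `[u, v]`: the coefficients at the points `m + j`, `0 ≤ j ≤ 4H`, differ from `β(m)` by at most `4 H δ`, so the inner
sum is `|β(m)|⁴`-type constant times the sum for `V = Vl Q Q' p` up to `H · 4 (4 H δ) B⁴`, `B = Q²` (`UF_sup`), and by `UF_cube` and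
`‖x+y‖² ≤ 2‖x‖² + 2‖y‖²` the contribution of `m` is at most `2 C H⁶ Q'^(-1/144) + 2 H⁴ (16 H² δ Q^8)²`. If `[m, m+4H]` does not
meet `[u, v]` it is `0`. At most `8 H + 2` other `m`, each at most `H⁶ B^8 = H⁶ Q^16`. -/
theorem UB_cubes : ∃ C : ℝ, 0 < C ∧ ∀ Q Q' : ℕ, 1 ≤ Q' → 1 ≤ Q → ∀ p ∈ PC Q, ∀ (β : ℤ → ℂ) (u v : ℤ)
    (δ : ℝ), u ≤ v → 0 ≤ δ → (∀ m, u ≤ m → m ≤ v → ‖β m‖ ≤ 1) →
    (∀ m, u ≤ m → m + 1 ≤ v → ‖β (m + 1) - β m‖ ≤ δ) → ∀ S : Finset ℤ,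
    ∑ m ∈ S, ∑ h ∈ range (Q ^ 40), ∑ h' ∈ range (Q ^ 40), ∑ k ∈ range (Q ^ 40), ∑ k' ∈ range (Q ^ 40),
      ‖∑ t ∈ range (Q ^ 40), P4 (fun m => if u ≤ m ∧ m ≤ v then β m * Vl Q Q' p m else 0) h h' k k'
        (m + 2 * t)‖ ^ 2 ≤
      (Q : ℝ) ^ 240 * (((v : ℝ) - u + 1) * (C * (Q' : ℝ) ^ (-(1 / 144 : ℝ)) + 512 * δ ^ 2 * (Q : ℝ) ^ 96) +
        10 * (Q : ℝ) ^ 56) := by
  classical
  obtain ⟨C, hC, hcube⟩ := UF_cube
  refine ⟨2 * C, by positivity, ?_⟩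
  intro Q Q' hQ' hQ p hp β u v δ huv hδ0 hβ hδ S
  obtain ⟨H, hH⟩ : ∃ H : ℕ, H = Q ^ 40 := ⟨_, rfl⟩
  have hHR : (H : ℝ) = (Q : ℝ) ^ 40 := by rw [hH]; push_cast; rfl
  rw [← hH]
  have hQ0 : (0 : ℝ) < Q := by exact_mod_cast hQ
  have hV : ∀ m, ‖Vl Q Q' p m‖ ≤ (Q : ℝ) ^ 2 := UF_sup Q Q' p hp
  have hB : (0 : ℝ) ≤ (Q : ℝ) ^ 2 := by positivity
  obtain ⟨F, hF⟩ : ∃ F : ℤ → ℂ, F = fun m => if u ≤ m ∧ m ≤ v then β m * Vl Q Q' p m else 0 := ⟨_, rfl⟩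
  have hFB : ∀ m, ‖F m‖ ≤ (Q : ℝ) ^ 2 := by
    intro m
    rw [hF]
    simp only
    split_ifs with hm
    · rw [norm_mul]
      calc ‖β m‖ * ‖Vl Q Q' p m‖ ≤ 1 * (Q : ℝ) ^ 2 :=
            mul_le_mul (hβ m hm.1 hm.2) (hV m) (norm_nonneg _) zero_le_one
        _ = _ := one_mul _
    · rw [norm_zero]
      exact hB
  obtain ⟨q, hq⟩ : ∃ q : ℝ, q = (Q' : ℝ) ^ (-(1 / 144 : ℝ)) := ⟨_, rfl⟩
  have hq0 : 0 ≤ q := by rw [hq]; exact Real.rpow_nonneg (Nat.cast_nonneg _) _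
  obtain ⟨aa, haa⟩ : ∃ aa : ℝ, aa = (H : ℝ) ^ 6 * (2 * C * q + 512 * δ ^ 2 * (Q : ℝ) ^ 96) := ⟨_, rfl⟩
  obtain ⟨bb, hbb⟩ : ∃ bb : ℝ, bb = (H : ℝ) ^ 6 * (Q : ℝ) ^ 16 := ⟨_, rfl⟩
  have haa0 : 0 ≤ aa := by rw [haa]; positivity
  have hbb0 : 0 ≤ bb := by rw [hbb]; positivity
  have hE : ∀ m : ℤ, ∑ h ∈ range H, ∑ h' ∈ range H, ∑ k ∈ range H, ∑ k' ∈ range H,
      ‖∑ t ∈ range H, P4 F h h' k k' (m + 2 * t)‖ ^ 2 ≤
      (if m ∈ Icc u v then aa else 0) + (if m ∈ Ico (u - 4 * H) u ∪ Ioc (v - 4 * H) v then bb else 0) := by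
    intro m
    have hy0 : 0 ≤ (if m ∈ Icc u v then aa else 0) := by split_ifs; exacts [haa0, le_rfl]
    have hz0 : 0 ≤ (if m ∈ Ico (u - 4 * H) u ∪ Ioc (v - 4 * H) v then bb else 0) := by
      split_ifs
      exacts [hbb0, le_rfl]
    by_cases hA : u ≤ m ∧ m + 4 * H ≤ v
    · have h1 : m ∈ Icc u v := Finset.mem_Icc.2 ⟨hA.1, by omega⟩
      rw [if_pos h1]
      refine le_trans ?_ (le_add_of_nonneg_right hz0)
      have h2 : ∑ h ∈ range H, ∑ h' ∈ range H, ∑ k ∈ range H, ∑ k' ∈ range H,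
          ‖∑ t ∈ range H, P4 F h h' k k' (m + 2 * t)‖ ^ 2 ≤
          ∑ h ∈ range H, ∑ h' ∈ range H, ∑ k ∈ range H, ∑ k' ∈ range H,
          (2 * ‖∑ t ∈ range H, P4 (Vl Q Q' p) h h' k k' (m + 2 * t)‖ ^ 2 +
            512 * (H : ℝ) ^ 4 * δ ^ 2 * ((Q : ℝ) ^ 2) ^ 8) := by
        refine Finset.sum_le_sum fun h hh => Finset.sum_le_sum fun h' hh' => Finset.sum_le_sum fun k hk =>
          Finset.sum_le_sum fun k' hk' => ?_
        rw [hF]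
        exact uba_in hB hδ0 (Vl Q Q' p) hV β u v hβ hδ H m hA.1 hA.2 h h' k k' (mem_range.1 hh)
          (mem_range.1 hh') (mem_range.1 hk) (mem_range.1 hk')
      refine h2.trans ?_
      have h4 : (H : ℝ) ^ 4 * (512 * (H : ℝ) ^ 4 * δ ^ 2 * ((Q : ℝ) ^ 2) ^ 8) =
          (H : ℝ) ^ 6 * (512 * δ ^ 2 * (Q : ℝ) ^ 96) := by
        rw [hHR]
        ring
      have h3 := hcube Q Q' H hQ' (le_of_eq hH.symm) p hp m
      rw [← hq] at h3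
      generalize 512 * (H : ℝ) ^ 4 * δ ^ 2 * ((Q : ℝ) ^ 2) ^ 8 = cst at h4 ⊢
      simp only [Finset.sum_add_distrib, ← Finset.mul_sum]
      rw [uba_const, h4, haa]
      linarith
    · by_cases hC' : m ∈ Ico (u - 4 * H) u ∪ Ioc (v - 4 * H) v
      · rw [if_pos hC']
        refine le_trans ?_ (le_add_of_nonneg_left hy0)
        have h2 : ∑ h ∈ range H, ∑ h' ∈ range H, ∑ k ∈ range H, ∑ k' ∈ range H,
            ‖∑ t ∈ range H, P4 F h h' k k' (m + 2 * t)‖ ^ 2 ≤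
            ∑ _h ∈ range H, ∑ _h' ∈ range H, ∑ _k ∈ range H, ∑ _k' ∈ range H,
            ((H : ℝ) ^ 2 * ((Q : ℝ) ^ 2) ^ 8) :=
          Finset.sum_le_sum fun h _ => Finset.sum_le_sum fun h' _ => Finset.sum_le_sum fun k _ =>
            Finset.sum_le_sum fun k' _ => uba_triv F hFB H m h h' k k'
        refine h2.trans (le_of_eq ?_)
        rw [uba_const, hbb]
        ring
      · refine le_trans (le_of_eq ?_) (add_nonneg hy0 hz0)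
        have hout : ∀ j : ℕ, j < 4 * H → F (m + j) = 0 := by
          intro j hj
          rw [hF]
          refine if_neg fun hcon => ?_
          rw [Finset.mem_union, Finset.mem_Ico, Finset.mem_Ioc] at hC'
          omega
        refine Finset.sum_eq_zero fun h hh => Finset.sum_eq_zero fun h' _ => Finset.sum_eq_zero fun k hk =>
          Finset.sum_eq_zero fun k' _ => ?_
        rw [mem_range] at hh hk
        have h3 : ∑ t ∈ range H, P4 F h h' k k' (m + 2 * t) = 0 := by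
          refine Finset.sum_eq_zero fun t ht => ?_
          rw [mem_range] at ht
          have a1 : (m + 2 * (t : ℤ) + h + k : ℤ) = m + ((2 * t + h + k : ℕ) : ℤ) := by push_cast; ring
          unfold P4
          rw [a1, hout _ (by omega), zero_mul, zero_mul, zero_mul]
        rw [h3, norm_zero]
        norm_num
  rw [← hF]
  refine (Finset.sum_le_sum fun m _ => hE m).trans ?_
  rw [Finset.sum_add_distrib]
  have h1 := uba_ind S (Icc u v) aa haa0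
  have h2 := uba_ind S (Ico (u - 4 * H) u ∪ Ioc (v - 4 * H) v) bb hbb0
  have h3 : ((Icc u v).card : ℝ) = (v : ℝ) - u + 1 := by
    rw [Int.card_Icc]
    have h4 : (((v + 1 - u).toNat : ℕ) : ℤ) = v + 1 - u := Int.toNat_of_nonneg (by omega)
    have h5 : (((v + 1 - u).toNat : ℕ) : ℝ) = (((v + 1 - u).toNat : ℤ) : ℝ) := by push_cast; rfl
    rw [h5, h4]
    push_cast
    ring
  have h4 : ((Ico (u - 4 * H) u ∪ Ioc (v - 4 * H) v).card : ℝ) ≤ 8 * H := by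
    have h5 := Finset.card_union_le (Ico (u - 4 * (H : ℤ)) u) (Ioc (v - 4 * (H : ℤ)) v)
    rw [Int.card_Ico, Int.card_Ioc] at h5
    have h6 : (Ico (u - 4 * (H : ℤ)) u ∪ Ioc (v - 4 * (H : ℤ)) v).card ≤ 8 * H := by omega
    exact_mod_cast h6
  rw [h3] at h1
  have h5 := h2.trans (mul_le_mul_of_nonneg_right h4 hbb0)
  have h6 : 8 * (H : ℝ) * bb = (Q : ℝ) ^ 240 * (8 * (Q : ℝ) ^ 56) := by
    rw [hbb, hHR]
    ring
  have h7 : ((v : ℝ) - u + 1) * aa = (Q : ℝ) ^ 240 * (((v : ℝ) - u + 1) * (2 * C * q + 512 * δ ^ 2 * (Q : ℝ) ^ 96)) := by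
    rw [haa, hHR]
    ring
  rw [← hq]
  rw [h6] at h5
  rw [h7] at h1
  have h8 : (Q : ℝ) ^ 240 * (8 * (Q : ℝ) ^ 56) ≤ (Q : ℝ) ^ 240 * (10 * (Q : ℝ) ^ 56) := by
    refine mul_le_mul_of_nonneg_left ?_ (by positivity)
    have : (0 : ℝ) ≤ (Q : ℝ) ^ 56 := by positivity
    linarith
  rw [mul_add]
  linarith

end Pool.Agent.Lib.H59T
end

-- from Lib.H59T.UB
section

/-!
# Project H59T, chunk UB (M): one character
-/

open Finset

namespace Pool.Agent.Lib.H59T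

open Pool.Agent.Lib.H68T Pool.Agent.Lib.H18Q Pool.Agent.Lib.H59P

/-- the representative of an integer in the middle range -/
theorem ub_rep (n : ℕ) (x : ℤ) (hx : -(2 * n : ℤ) ≤ x ∧ x ≤ 2 * n) :
    ((x : ZMod (4 * n + 1))).valMinAbs = x := by
  rw [ZMod.valMinAbs_spec]
  refine ⟨rfl, ?_, ?_⟩
  · push_cast
    omega
  · push_cast
    omega

theorem ub_mem (n : ℕ) (x : ZMod (4 * n + 1)) : -(2 * n : ℤ) ≤ x.valMinAbs ∧ x.valMinAbs ≤ 2 * n := by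
  have h := ZMod.valMinAbs_mem_Ioc x
  rw [Set.mem_Ioc] at h
  push_cast at h
  omega

/-- sums over `ZMod (4n+1)` -/
theorem ub_sum {A : Type*} [AddCommMonoid A] (n : ℕ) (G : ZMod (4 * n + 1) → A) :
    ∑ x : ZMod (4 * n + 1), G x = ∑ x ∈ Icc (-(2 * n : ℤ)) (2 * n), G (x : ZMod (4 * n + 1)) := by
  refine Finset.sum_bij' (fun x _ => x.valMinAbs) (fun (x : ℤ) _ => (x : ZMod (4 * n + 1))) (fun x _ => ?_)
    (fun _ _ => mem_univ _) (fun x _ => ZMod.coe_valMinAbs x) (fun x hx => ?_) (fun x _ => ?_)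
  · exact mem_Icc.2 (ub_mem n x)
  · exact ub_rep n x (mem_Icc.1 hx)
  · rw [ZMod.coe_valMinAbs]

/-- the kernel with the cutoff, near the range of the representatives -/
theorem ub_F (n H : ℕ) (hH : 4 * H ≤ 2 * n) (u v : ℤ) (hu : 1 ≤ u) (hv : v ≤ 2 * n) (g : ℤ → ℂ) (m : ℤ)
    (hm : -(2 * n : ℤ) ≤ m ∧ m ≤ 2 * n) (j : ℕ) (hj : j ≤ 4 * H) :
    (fun x : ZMod (4 * n + 1) => if u ≤ x.valMinAbs ∧ x.valMinAbs ≤ v then g x.valMinAbs else 0)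
      ((m + j : ℤ) : ZMod (4 * n + 1)) = if u ≤ m + j ∧ m + j ≤ v then g (m + j) else 0 := by
  by_cases h : m + j ≤ 2 * n
  · have h1 := ub_rep n (m + j) ⟨by omega, h⟩
    simp only [h1]
  · have h1 : ((m + j : ℤ) : ZMod (4 * n + 1)) = ((m + j - (4 * n + 1 : ℕ) : ℤ) : ZMod (4 * n + 1)) := by
      have h2 : (((4 * n + 1 : ℕ) : ℤ) : ZMod (4 * n + 1)) = 0 := by
        rw [Int.cast_natCast]
        exact ZMod.natCast_self _
      rw [Int.cast_sub (m + (j : ℤ)), h2, sub_zero]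
    have h3 := ub_rep n (m + j - (4 * n + 1 : ℕ)) ⟨by push_cast; omega, by push_cast; omega⟩
    simp only [h1, h3]
    rw [if_neg, if_neg]
    · omega
    · push_cast
      omega

/-- the left side as a sum over `ZMod (4n+1)` -/
theorem ub_lhs (n : ℕ) (u v : ℤ) (f g W B : ℤ → ℂ) :
    ∑ x ∈ Icc (-(n : ℤ)) n, ∑ y ∈ Icc (-(n : ℤ)) n, f x * g y *
      (if u ≤ x + y ∧ x + y ≤ min v (2 * n) then B (x + y) else 0) * W (x - y) =
    ∑ x : ZMod (4 * n + 1), ∑ y : ZMod (4 * n + 1),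
      (if x.valMinAbs ∈ Icc (-(n : ℤ)) n then f x.valMinAbs else 0) *
      (if y.valMinAbs ∈ Icc (-(n : ℤ)) n then g y.valMinAbs else 0) *
      (fun x : ZMod (4 * n + 1) => if u ≤ x.valMinAbs ∧ x.valMinAbs ≤ min v (2 * n) then B x.valMinAbs else 0)
        (x + y) * W ((x - y).valMinAbs) := by
  have hsub : Icc (-(n : ℤ)) n ⊆ Icc (-(2 * n : ℤ)) (2 * n) := by
    intro x hx
    rw [mem_Icc] at hx ⊢
    omega
  rw [ub_sum]
  have h0 : ∀ x ∈ Icc (-(2 * n : ℤ)) (2 * n), x ∉ Icc (-(n : ℤ)) n → ∑ y : ZMod (4 * n + 1),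
      (if (x : ZMod (4 * n + 1)).valMinAbs ∈ Icc (-(n : ℤ)) n then f (x : ZMod (4 * n + 1)).valMinAbs else 0) *
      (if y.valMinAbs ∈ Icc (-(n : ℤ)) n then g y.valMinAbs else 0) *
      (fun x : ZMod (4 * n + 1) => if u ≤ x.valMinAbs ∧ x.valMinAbs ≤ min v (2 * n) then B x.valMinAbs else 0)
        (x + y) * W (((x : ZMod (4 * n + 1)) - y).valMinAbs) = 0 := by
    intro x hx hx'
    refine Finset.sum_eq_zero fun y _ => ?_
    rw [ub_rep n x (mem_Icc.1 hx), if_neg hx', zero_mul, zero_mul, zero_mul]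
  rw [← Finset.sum_subset hsub h0]
  refine Finset.sum_congr rfl fun x hx => ?_
  rw [ub_sum]
  have h1 : ∀ y ∈ Icc (-(2 * n : ℤ)) (2 * n), y ∉ Icc (-(n : ℤ)) n →
      (if (x : ZMod (4 * n + 1)).valMinAbs ∈ Icc (-(n : ℤ)) n then f (x : ZMod (4 * n + 1)).valMinAbs else 0) *
      (if (y : ZMod (4 * n + 1)).valMinAbs ∈ Icc (-(n : ℤ)) n then g (y : ZMod (4 * n + 1)).valMinAbs else 0) *
      (fun x : ZMod (4 * n + 1) => if u ≤ x.valMinAbs ∧ x.valMinAbs ≤ min v (2 * n) then B x.valMinAbs else 0)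
        (x + y) * W (((x : ZMod (4 * n + 1)) - y).valMinAbs) = 0 := by
    intro y hy hy'
    rw [ub_rep n y (mem_Icc.1 hy), if_neg hy', mul_zero, zero_mul, zero_mul]
  rw [← Finset.sum_subset hsub h1]
  refine Finset.sum_congr rfl fun y hy => ?_
  have hx1 := mem_Icc.1 hx
  have hy1 := mem_Icc.1 hy
  rw [ub_rep n x ⟨by omega, by omega⟩, ub_rep n y ⟨by omega, by omega⟩, if_pos hx, if_pos hy,
    ← Int.cast_add, ← Int.cast_sub, ub_rep n (x - y) ⟨by omega, by omega⟩]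
  simp only [ub_rep n (x + y) ⟨by omega, by omega⟩]

/-- the right side of `UA_main` -/
theorem ub_rhs (n H : ℕ) (hH : 4 * H ≤ 2 * n) (u v : ℤ) (hu : 1 ≤ u) (hv : v ≤ 2 * n) (g : ℤ → ℂ)
    (F : ZMod (4 * n + 1) → ℂ)
    (hF : F = fun x : ZMod (4 * n + 1) => if u ≤ x.valMinAbs ∧ x.valMinAbs ≤ v then g x.valMinAbs else 0) :
    ∑ m : ZMod (4 * n + 1), ∑ h ∈ range H, ∑ h' ∈ range H, ∑ k ∈ range H,
        ∑ k' ∈ range H, ‖∑ t ∈ range H, F (m + 2 * (t : ZMod (4 * n + 1)) + h + k) *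
          star (F (m + 2 * (t : ZMod (4 * n + 1)) + h' + k)) * star (F (m + 2 * (t : ZMod (4 * n + 1)) + h + k')) *
          F (m + 2 * (t : ZMod (4 * n + 1)) + h' + k')‖ ^ 2 =
    ∑ m ∈ Icc (-(2 * n : ℤ)) (2 * n), ∑ h ∈ range H, ∑ h' ∈ range H, ∑ k ∈ range H, ∑ k' ∈ range H,
      ‖∑ t ∈ range H, P4 (fun m => if u ≤ m ∧ m ≤ v then g m else 0) h h' k k' (m + 2 * t)‖ ^ 2 := by
  rw [ub_sum]
  refine Finset.sum_congr rfl fun m hm => Finset.sum_congr rfl fun h hh => Finset.sum_congr rfl fun h' hh' =>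
    Finset.sum_congr rfl fun k hk => Finset.sum_congr rfl fun k' hk' => ?_
  rw [mem_range] at hh hh' hk hk'
  have key : ∀ t ∈ range H, ∀ a b : ℕ, a < H → b < H →
      F ((m : ZMod (4 * n + 1)) + 2 * (t : ZMod (4 * n + 1)) + a + b) =
        (fun m => if u ≤ m ∧ m ≤ v then g m else 0) (m + 2 * t + a + b) := by
    intro t ht a b ha hb
    rw [mem_range] at ht
    have e1 : (m : ZMod (4 * n + 1)) + 2 * (t : ZMod (4 * n + 1)) + a + b =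
        ((m + ((2 * t + a + b : ℕ) : ℤ) : ℤ) : ZMod (4 * n + 1)) := by
      push_cast
      ring
    have e2 := ub_F n H hH u v hu hv g m (mem_Icc.1 hm) (2 * t + a + b) (by omega)
    rw [e1, hF, e2]
    have e3 : m + ((2 * t + a + b : ℕ) : ℤ) = m + 2 * t + a + b := by
      push_cast
      ring
    rw [e3]
  congr 2
  refine Finset.sum_congr rfl fun t ht => ?_
  unfold P4
  rw [key t ht h k hh hk, key t ht h' k hh' hk, key t ht h k' hh hk', key t ht h' k' hh' hk']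
  rfl

/-- **One character.** Proof. `M = 4 n + 1`; represent the elements of `ZMod M` by the integers in `[-2n, 2n]` (`ZMod.valMinAbs`).
`f, g` cut off to `[-n, n]`, `F` to `[X, min(4X, 2n)]`: the sum is that of `UA_main` (`|x|, |y| ≤ n` imply `|x ± y| ≤ 2n`, so no wrap
around). In `UA_main` the arguments are `m + j`, `0 ≤ j ≤ 4H`, `m ∈ [-2n, 2n]`; if `m + j > 2n` it is represented by a negative
integer, where `F = 0`, in agreement with the cutoff at `2n` (`4H ≤ 2n`). So `UB_cubes` with `u = X`, `v = min(4X, 2n)`,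
`δ = Q^6/X`, `S = [-2n, 2n]` (if `v < u` everything is `0`): `|T|^8 ≤ (5n)^15 (4n (C Q'^(-1/144) + 512 Q^108/X²) + 10 Q^56)`;
`X ≥ Q^100` and `Q' ≤ Q`: at most `C' n^16 Q'^(-1/144)`. -/
theorem UB_one : ∃ C : ℝ, 0 < C ∧ ∀ Q Q' X n : ℕ, 1 ≤ Q' → Q' ≤ Q → Q ^ 100 ≤ X → X ≤ n →
    ∀ p ∈ PC Q, ∀ β : ℤ → ℂ, (∀ m : ℤ, (X : ℤ) ≤ m → m ≤ 4 * X → ‖β m‖ ≤ 1) →
    (∀ m : ℤ, (X : ℤ) ≤ m → m + 1 ≤ 4 * X → ‖β (m + 1) - β m‖ ≤ (Q : ℝ) ^ 6 / X) →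
    ∀ f g W : ℤ → ℂ, (∀ x, ‖f x‖ ≤ 1) → (∀ x, ‖g x‖ ≤ 1) → (∀ x, ‖W x‖ ≤ 1) →
    ‖∑ x ∈ Icc (-(n : ℤ)) n, ∑ y ∈ Icc (-(n : ℤ)) n, f x * g y *
      (if (X : ℤ) ≤ x + y ∧ x + y ≤ 4 * X then β (x + y) * Vl Q Q' p (x + y) else 0) * W (x - y)‖ ≤
      C * (n : ℝ) ^ 2 * (Q' : ℝ) ^ (-(1 / 1152 : ℝ)) := by
  obtain ⟨C, hC, hU⟩ := UB_cubes
  refine ⟨5 ^ 15 * (2 * C + 1034) + 9, by positivity, ?_⟩
  intro Q Q' X n hQ' hQQ hX hn p hp β hβ hβ' f g W hf hg hW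
  have hQ1 : 1 ≤ Q := hQ'.trans hQQ
  have hX1 : 1 ≤ X := (Nat.one_le_pow _ _ hQ1).trans hX
  have hn1 : 1 ≤ n := hX1.trans hn
  have hnR : (1 : ℝ) ≤ n := by exact_mod_cast hn1
  have hQR : (1 : ℝ) ≤ Q := by exact_mod_cast hQ1
  have hQ'R : (1 : ℝ) ≤ Q' := by exact_mod_cast hQ'
  have hQQR : (Q' : ℝ) ≤ Q := by exact_mod_cast hQQ
  have hXR : (Q : ℝ) ^ 100 ≤ X := by exact_mod_cast hX
  have hXnR : (X : ℝ) ≤ n := by exact_mod_cast hn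
  have hXR1 : (1 : ℝ) ≤ X := by exact_mod_cast hX1
  by_cases hQ2 : Q = 1
  · -- the trivial case
    have hQ'1 : Q' = 1 := by omega
    have e1 : (Q' : ℝ) ^ (-(1 / 1152 : ℝ)) = 1 := by
      rw [hQ'1, Nat.cast_one, Real.one_rpow]
    rw [e1, mul_one]
    have h1 : ‖∑ x ∈ Icc (-(n : ℤ)) n, ∑ y ∈ Icc (-(n : ℤ)) n, f x * g y *
      (if (X : ℤ) ≤ x + y ∧ x + y ≤ 4 * X then β (x + y) * Vl Q Q' p (x + y) else 0) * W (x - y)‖ ≤
        ∑ x ∈ Icc (-(n : ℤ)) n, ∑ y ∈ Icc (-(n : ℤ)) n, (1 : ℝ) := by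
      refine (norm_sum_le _ _).trans (Finset.sum_le_sum fun x _ => ?_)
      refine (norm_sum_le _ _).trans (Finset.sum_le_sum fun y _ => ?_)
      have h2 : ‖(if (X : ℤ) ≤ x + y ∧ x + y ≤ 4 * X then β (x + y) * Vl Q Q' p (x + y) else 0)‖ ≤ 1 := by
        split_ifs with h3
        · rw [norm_mul]
          have h4 := UF_sup Q Q' p hp (x + y)
          rw [hQ2, Nat.cast_one, one_pow] at h4
          rw [hQ2]
          exact mul_le_one₀ (hβ _ h3.1 h3.2) (norm_nonneg _) h4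
        · simp
      rw [norm_mul, norm_mul, norm_mul]
      exact mul_le_one₀ (mul_le_one₀ (mul_le_one₀ (hf _) (norm_nonneg _) (hg _)) (norm_nonneg _) h2)
        (norm_nonneg _) (hW _)
    refine h1.trans ?_
    rw [Finset.sum_const, Finset.sum_const, Int.card_Icc, smul_smul, nsmul_eq_mul, mul_one]
    have h5 : ((n : ℤ) + 1 - -(n : ℤ)).toNat = 2 * n + 1 := by omega
    rw [h5]
    push_cast
    have h6 : 0 ≤ 5 ^ 15 * (2 * C + 1034) * (n : ℝ) ^ 2 := by positivity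
    nlinarith
  -- the main case
  have hQ22 : 2 ≤ Q := by omega
  set H : ℕ := Q ^ 40 with hH
  have hHpos : 0 < H := by
    rw [hH]
    positivity
  have hHn : 4 * H ≤ 2 * n := by
    have h1 : Q ^ 42 ≤ Q ^ 100 := Nat.pow_le_pow_right hQ1 (by norm_num)
    have h2 : 4 * H ≤ Q ^ 42 := by
      rw [hH, pow_add Q 2 40]
      exact Nat.mul_le_mul_right _ (by nlinarith)
    omega
  set v : ℤ := min (4 * (X : ℤ)) (2 * n) with hv
  have hv1 : v ≤ 2 * n := min_le_right _ _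
  have hv2 : v ≤ 4 * X := min_le_left _ _
  have huv : (X : ℤ) ≤ v := by
    rw [hv]
    refine le_min (by omega) (by omega)
  set B : ℤ → ℂ := fun m => β m * Vl Q Q' p m with hB
  set F : ZMod (4 * n + 1) → ℂ := fun x : ZMod (4 * n + 1) =>
    if (X : ℤ) ≤ x.valMinAbs ∧ x.valMinAbs ≤ v then B x.valMinAbs else 0 with hF
  have hne : NeZero (4 * n + 1) := ⟨by omega⟩
  set T : ℂ := ∑ x ∈ Icc (-(n : ℤ)) n, ∑ y ∈ Icc (-(n : ℤ)) n, f x * g y *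
      (if (X : ℤ) ≤ x + y ∧ x + y ≤ 4 * X then β (x + y) * Vl Q Q' p (x + y) else 0) * W (x - y) with hT
  have hT1 : T = ∑ x : ZMod (4 * n + 1), ∑ y : ZMod (4 * n + 1),
      (if x.valMinAbs ∈ Icc (-(n : ℤ)) n then f x.valMinAbs else 0) *
      (if y.valMinAbs ∈ Icc (-(n : ℤ)) n then g y.valMinAbs else 0) * F (x + y) * W ((x - y).valMinAbs) := by
    rw [hF, ← ub_lhs n X (4 * X) f g W B, hT]
    refine Finset.sum_congr rfl fun x hx => Finset.sum_congr rfl fun y hy => ?_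
    have hx1 := mem_Icc.1 hx
    have hy1 := mem_Icc.1 hy
    have h1 : ((X : ℤ) ≤ x + y ∧ x + y ≤ 4 * X) ↔ ((X : ℤ) ≤ x + y ∧ x + y ≤ min (4 * (X : ℤ)) (2 * n)) := by
      rw [le_min_iff]
      constructor
      · rintro ⟨h1, h2⟩
        exact ⟨h1, h2, by omega⟩
      · rintro ⟨h1, h2, h3⟩
        exact ⟨h1, h2⟩
    simp only [h1, hB]
  have hmain := UA_main (4 * n + 1) H hHpos
    (fun x => if x.valMinAbs ∈ Icc (-(n : ℤ)) n then f x.valMinAbs else 0)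
    (fun y => if y.valMinAbs ∈ Icc (-(n : ℤ)) n then g y.valMinAbs else 0) F (fun d => W d.valMinAbs)
    (fun x => by
      split_ifs
      · exact hf _
      · simp)
    (fun x => by
      split_ifs
      · exact hg _
      · simp) (fun x => hW _)
  rw [← hT1, ub_rhs n H hHn X v (by exact_mod_cast hX1) hv1 B F hF] at hmain
  have hcub := hU Q Q' hQ' hQ1 p hp β X v ((Q : ℝ) ^ 6 / X) huv (by positivity)
    (fun m h1 h2 => hβ m h1 (h2.trans hv2)) (fun m h1 h2 => hβ' m h1 (h2.trans hv2))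
    (Icc (-(2 * n : ℤ)) (2 * n))
  rw [← hH] at hcub
  have hQ0 : (0 : ℝ) < Q := by linarith
  have hH6 : ((H : ℕ) : ℝ) ^ 6 = (Q : ℝ) ^ 240 := by
    rw [hH]
    push_cast
    rw [← pow_mul]
  set y : ℝ := (Q' : ℝ) ^ (-(1 / 144 : ℝ)) with hy
  have hy0 : 0 < y := Real.rpow_pos_of_pos (by linarith) _
  have hQy : 1 / (Q : ℝ) ≤ y := by
    have h1 : 1 / (Q : ℝ) ≤ 1 / (Q' : ℝ) := one_div_le_one_div_of_le (by linarith) hQQR
    refine h1.trans ?_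
    rw [hy, one_div, ← Real.rpow_neg_one]
    exact Real.rpow_le_rpow_of_exponent_le hQ'R (by norm_num)
  have hvR : (v : ℝ) - X + 1 ≤ 2 * n := by
    have h1 : (v : ℝ) ≤ 2 * n := by exact_mod_cast hv1
    linarith
  have hb1 : 512 * ((Q : ℝ) ^ 6 / X) ^ 2 * (Q : ℝ) ^ 96 ≤ 512 * y := by
    have h1 : ((Q : ℝ) ^ 6 / X) ^ 2 * (Q : ℝ) ^ 96 ≤ 1 / Q := by
      have h2 : ((Q : ℝ) ^ 6 / X) ^ 2 * (Q : ℝ) ^ 96 = (Q : ℝ) ^ 108 / (X : ℝ) ^ 2 := by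
        rw [div_pow]
        ring
      rw [h2, div_le_div_iff₀ (by positivity) hQ0]
      calc (Q : ℝ) ^ 108 * Q = (Q : ℝ) ^ 109 := by ring
        _ ≤ (Q : ℝ) ^ 200 := pow_le_pow_right₀ hQR (by norm_num)
        _ = ((Q : ℝ) ^ 100) ^ 2 := by ring
        _ ≤ (X : ℝ) ^ 2 := pow_le_pow_left₀ (by positivity) hXR 2
        _ = 1 * (X : ℝ) ^ 2 := by ring
    linarith [h1.trans hQy]
  have hb2 : 10 * (Q : ℝ) ^ 56 ≤ 10 * (n * y) := by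
    have h1 : (Q : ℝ) ^ 56 ≤ n * (1 / Q) := by
      rw [mul_one_div, le_div_iff₀ hQ0]
      calc (Q : ℝ) ^ 56 * Q = (Q : ℝ) ^ 57 := by ring
        _ ≤ (Q : ℝ) ^ 100 := pow_le_pow_right₀ hQR (by norm_num)
        _ ≤ n := hXR.trans hXnR
    have h2 : n * (1 / (Q : ℝ)) ≤ n * y := mul_le_mul_of_nonneg_left hQy (by linarith)
    linarith
  have hS : ‖T‖ ^ 8 ≤ 5 ^ 15 * (2 * C + 1034) * (n : ℝ) ^ 16 * y := by
    refine hmain.trans ?_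
    have h1 : ((4 * n + 1 : ℕ) : ℝ) ^ 15 ≤ 5 ^ 15 * (n : ℝ) ^ 15 := by
      rw [← mul_pow]
      refine pow_le_pow_left₀ (by positivity) ?_ 15
      push_cast
      linarith
    have h2 : (((v : ℝ) - X + 1) * (C * y + 512 * ((Q : ℝ) ^ 6 / X) ^ 2 * (Q : ℝ) ^ 96) + 10 * (Q : ℝ) ^ 56) ≤
        (2 * C + 1034) * (n * y) := by
      have h3 : C * y + 512 * ((Q : ℝ) ^ 6 / X) ^ 2 * (Q : ℝ) ^ 96 ≤ C * y + 512 * y := by linarith
      have h4 : 0 ≤ C * y + 512 * ((Q : ℝ) ^ 6 / X) ^ 2 * (Q : ℝ) ^ 96 := by positivity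
      calc _ ≤ 2 * n * (C * y + 512 * y) + 10 * (n * y) := by
            refine add_le_add ?_ hb2
            exact (mul_le_mul_of_nonneg_right hvR h4).trans (mul_le_mul_of_nonneg_left h3 (by linarith))
        _ = (2 * C + 1034) * (n * y) := by ring
    have h5 : ((4 * n + 1 : ℕ) : ℝ) ^ 15 / ((H : ℕ) : ℝ) ^ 6 * ((Q : ℝ) ^ 240 *
        (((v : ℝ) - X + 1) * (C * y + 512 * ((Q : ℝ) ^ 6 / X) ^ 2 * (Q : ℝ) ^ 96) + 10 * (Q : ℝ) ^ 56)) =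
        ((4 * n + 1 : ℕ) : ℝ) ^ 15 *
        (((v : ℝ) - X + 1) * (C * y + 512 * ((Q : ℝ) ^ 6 / X) ^ 2 * (Q : ℝ) ^ 96) + 10 * (Q : ℝ) ^ 56) := by
      rw [hH6]
      have h6 : (Q : ℝ) ^ 240 ≠ 0 := by positivity
      field_simp
    calc _ ≤ ((4 * n + 1 : ℕ) : ℝ) ^ 15 / ((H : ℕ) : ℝ) ^ 6 * ((Q : ℝ) ^ 240 *
        (((v : ℝ) - X + 1) * (C * y + 512 * ((Q : ℝ) ^ 6 / X) ^ 2 * (Q : ℝ) ^ 96) + 10 * (Q : ℝ) ^ 56)) :=
          mul_le_mul_of_nonneg_left hcub (by positivity)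
      _ = _ := h5
      _ ≤ (5 ^ 15 * (n : ℝ) ^ 15) * ((2 * C + 1034) * (n * y)) :=
        (mul_le_mul_of_nonneg_left h2 (by positivity)).trans (mul_le_mul_of_nonneg_right h1 (by positivity))
      _ = 5 ^ 15 * (2 * C + 1034) * (n : ℝ) ^ 16 * y := by ring
  have hy8 : ((Q' : ℝ) ^ (-(1 / 1152 : ℝ))) ^ 8 = y := by
    rw [hy, ← Real.rpow_natCast, ← Real.rpow_mul (by linarith)]
    norm_num
  refine (pow_le_pow_iff_left₀ (norm_nonneg _) (by positivity) (by norm_num : (8 : ℕ) ≠ 0)).1 (hS.trans ?_)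
  rw [mul_pow, mul_pow, hy8]
  have h7 : 5 ^ 15 * (2 * C + 1034) ≤ (5 ^ 15 * (2 * C + 1034) + 9) ^ 8 := by
    have h8 : 0 ≤ 5 ^ 15 * (2 * C + 1034) := by positivity
    calc 5 ^ 15 * (2 * C + 1034) ≤ 5 ^ 15 * (2 * C + 1034) + 9 := by linarith
      _ ≤ (5 ^ 15 * (2 * C + 1034) + 9) ^ 8 := le_self_pow₀ (by linarith) (by norm_num)
  have h9 : ((n : ℝ) ^ 2) ^ 8 = (n : ℝ) ^ 16 := by ring
  rw [h9]
  exact mul_le_mul_of_nonneg_right (mul_le_mul_of_nonneg_right h7 (by positivity)) hy0.le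

end Pool.Agent.Lib.H59T
end

-- from Lib.H59T.F6
section

/-!
# Project H59T, chunk F6 (S): the interface with H24Q
-/

open Finset

namespace Pool.Agent.Lib.H59T

open Pool.Agent.Lib.H68T Pool.Agent.Lib.H18Q Pool.Agent.Lib.H59P Pool.Agent.Lib.H24P
  Pool.Agent.Lib.H24Q

theorem f6_two (b s : Fin 2 → ℕ) (F : (Fin 2 → ℕ) → ℝ) :
    ∑ ω ∈ cub b s, F ω = ∑ x ∈ Ico (b 0) (b 0 + s 0), ∑ x' ∈ Ico (b 1) (b 1 + s 1), F ![x, x'] := by
  rw [← sum_product']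
  refine sum_bij' (fun ω _ => (ω 0, ω 1)) (fun q _ => ![q.1, q.2]) ?_ ?_ ?_ ?_ ?_
  · intro ω hω
    unfold cub at hω
    rw [Fintype.mem_piFinset] at hω
    rw [mem_product]
    exact ⟨hω 0, hω 1⟩
  · intro q hq
    rw [mem_product] at hq
    unfold cub
    rw [Fintype.mem_piFinset]
    intro i
    fin_cases i
    · exact hq.1
    · exact hq.2
  · intro ω _
    funext i
    fin_cases i <;> rfl
  · intro q _
    rfl
  · intro ω _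
    congr 1
    funext i
    fin_cases i <;> rfl

theorem f6_one (b s : Fin 1 → ℕ) (F : (Fin 1 → ℕ) → ℝ) :
    ∑ ω ∈ cub b s, F ω = ∑ x ∈ Ico (b 0) (b 0 + s 0), F ![x] := by
  refine sum_bij' (fun ω _ => ω 0) (fun q _ => ![q]) ?_ ?_ ?_ ?_ ?_
  · intro ω hω
    unfold cub at hω
    rw [Fintype.mem_piFinset] at hω
    exact hω 0
  · intro q hq
    unfold cub
    rw [Fintype.mem_piFinset]
    intro i
    fin_cases i
    exact hq
  · intro ω _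
    funext i
    fin_cases i
    rfl
  · intro q _
    rfl
  · intro ω _
    congr 1
    funext i
    fin_cases i
    rfl

theorem f6_card2 (b s : Fin 2 → ℕ) : ((cub b s).card : ℝ) = (s 0 : ℝ) * s 1 := by
  unfold cub
  rw [Fintype.card_piFinset, Fin.prod_univ_two, Nat.card_Ico, Nat.card_Ico, Nat.add_sub_cancel_left,
    Nat.add_sub_cancel_left]
  push_cast
  rfl

theorem f6_card1 (b s : Fin 1 → ℕ) : ((cub b s).card : ℝ) = (s 0 : ℝ) := by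
  unfold cub
  rw [Fintype.card_piFinset, Fin.prod_univ_one, Nat.card_Ico, Nat.add_sub_cancel_left]

theorem f6_log (C0 : ℝ) (Q : ℕ) (hQ : 2 ≤ Q) (X : ℝ) (hX : 0 ≤ X) :
    C0 * X ≤ max 1 C0 * (1 + Real.log Q) ^ (max 1 C0) * X := by
  have h1 : (0 : ℝ) ≤ Real.log Q := Real.log_natCast_nonneg Q
  have h2 : (1 : ℝ) ≤ (1 + Real.log Q) ^ (max 1 C0) :=
    Real.one_le_rpow (by linarith) (le_trans zero_le_one (le_max_left _ _))
  have h3 : (0 : ℝ) ≤ max 1 C0 := le_trans zero_le_one (le_max_left _ _)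
  refine mul_le_mul_of_nonneg_right ?_ hX
  calc C0 ≤ max 1 C0 * 1 := by rw [mul_one]; exact le_max_right _ _
    _ ≤ _ := mul_le_mul_of_nonneg_left h2 h3

/-- Proof. `F4_four`; `cub b s` for `Fin 2 → ℕ` is in bijection with `Ico (b 0) (b 0 + s 0) ×ˢ Ico (b 1) (b 1 + s 1)`, its number of elements is
`s 0 s 1`; `L4.map ω i n` is `![x + n, x - n, x' + n, x' - n] i` with `x = ω 0`, `x' = ω 1`. `1 ≤ (1 + log Q)^C`. -/
theorem F6_FG : ∃ C : ℝ, 1 ≤ C ∧ ∀ Q : ℕ, 2 ≤ Q → ∀ b s : Fin 2 → ℕ, (∀ j, Q ^ 40 ≤ s j) →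
    FG C (1 / 36) Q (Q ^ 40) (cub b s) L4.map := by
  obtain ⟨C0, hC0, h⟩ := F4_four
  refine ⟨max 1 C0, le_max_left _ _, ?_⟩
  intro Q hQ b s hs p hp T hT D hD hTD a H hH
  have h1 := h Q D hD p hp T hT hTD (b 0) (b 1) a (s 0) (s 1) H (hs 0) (hs 1) hH
  rw [f6_two, f6_card2]
  have e1 : ∑ x ∈ Ico (b 0) (b 0 + s 0), ∑ x' ∈ Ico (b 1) (b 1 + s 1),
      ‖∑ n ∈ Ico a (a + H), ∑ κ ∈ T, ∏ i, gk (p i) (κ i) (L4.map ![x, x'] i (n : ℤ))‖ ^ 2 =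
      ∑ y ∈ Ico (b 0) (b 0 + s 0), ∑ y' ∈ Ico (b 1) (b 1 + s 1), ‖∑ z ∈ Ico a (a + H), ∑ κ ∈ T,
      ∏ i, gk (p i) (κ i) ((![(y : ℤ) + z, y - z, y' + z, y' - z] : Fin 4 → ℤ) i)‖ ^ 2 := by
    refine sum_congr rfl fun x _ => sum_congr rfl fun x' _ => ?_
    have e2 : ∀ (n : ℕ) (i : Fin 4), L4.map ![x, x'] i (n : ℤ) =
        (![(x : ℤ) + n, x - n, x' + n, x' - n] : Fin 4 → ℤ) i := by
      intro n i
      fin_cases i <;> simp [LF.map, L4] <;> ring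
    simp only [e2]
  rw [e1]
  refine h1.trans ?_
  have h2 := f6_log C0 Q hQ (((s 0 : ℝ) * s 1 * H ^ 2) * (D : ℝ) ^ (-(1 / 36 : ℝ))) (by positivity)
  calc _ = C0 * (((s 0 : ℝ) * s 1 * H ^ 2) * (D : ℝ) ^ (-(1 / 36 : ℝ))) := by ring
    _ ≤ _ := h2
    _ = _ := by ring

/-- Proof. As `F6_FG`, with `F5_weights`. -/
theorem F6_FW : ∃ C : ℝ, 1 ≤ C ∧ ∀ Q : ℕ, 2 ≤ Q → ∀ b s : Fin 1 → ℕ, (∀ j, Q ^ 40 ≤ s j) →
    FW C (1 / 72) Q (Q ^ 40) (cub b s) L2.map := by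
  obtain ⟨C0, hC0, h⟩ := F5_weights
  refine ⟨max 1 C0, le_max_left _ _, ?_⟩
  intro Q hQ b s hs p hp T hT D hD hTD w a H hH
  have h1 := h Q D hD p hp T hT hTD w (b 0) a (s 0) H (hs 0) hH
  rw [f6_one, f6_card1]
  have e1 : ∑ x ∈ Ico (b 0) (b 0 + s 0),
      ‖∑ n ∈ Ico a (a + H), w n * ∑ κ ∈ T, ∏ i, gk (p i) (κ i) (L2.map ![x] i (n : ℤ))‖ ^ 2 =
      ∑ x ∈ Ico (b 0) (b 0 + s 0), ‖∑ y ∈ Ico a (a + H), w y * ∑ κ ∈ T,
      ∏ i, gk (p i) (κ i) ((![(x : ℤ) + y, x - y] : Fin 2 → ℤ) i)‖ ^ 2 := by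
    refine sum_congr rfl fun x _ => ?_
    have e2 : ∀ (n : ℕ) (i : Fin 2), L2.map ![x] i (n : ℤ) =
        (![(x : ℤ) + n, x - n] : Fin 2 → ℤ) i := by
      intro n i
      fin_cases i <;> simp [LF.map, L2] <;> ring
    simp only [e2]
  rw [e1]
  refine h1.trans ?_
  have h2 := f6_log C0 Q hQ (((s 0 : ℝ) * (H * ∑ y ∈ Ico a (a + H), ‖w y‖ ^ 2)) * (D : ℝ) ^ (-(1 / 72 : ℝ)))
    (mul_nonneg (mul_nonneg (Nat.cast_nonneg _) (mul_nonneg (Nat.cast_nonneg _) (sum_nonneg fun _ _ => sq_nonneg _)))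
      (Real.rpow_nonneg (Nat.cast_nonneg _) _))
  calc _ = C0 * (((s 0 : ℝ) * (H * ∑ y ∈ Ico a (a + H), ‖w y‖ ^ 2)) * (D : ℝ) ^ (-(1 / 72 : ℝ))) := by ring
    _ ≤ _ := h2
    _ = _ := by ring

end Pool.Agent.Lib.H59T
end

-- from Lib.H59T.UL
section

/-!
# Project H59T, chunk UL (M): the difference of the projections at two levels
-/

open Finset

namespace Pool.Agent.Lib.H59T

open Pool.Agent.Lib.H68T Pool.Agent.Lib.H18Q Pool.Agent.Lib.H59P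

/-- Proof. `DA_expand` (`H68T/DA.lean`) for `Q` and for `Q'`, both with `Y = X/Q²` (see `Lk_SG` in `H18Q/CL1.lean` for the regime); the
coefficients are `Bc Q X p m` in both cases. `PC Q' ⊆ PC Q`. `gam_expand` (`H18Q/CA.lean`): `Gam Q p.1 m conj χ(m) = ∑_{KS Q p.1} gk`, and for
`Q'` the sum over `KS Q' p.1 = {κ ∈ KS Q p.1 : p.1 κ ≤ Q'}` (`κ ≤ Q'/r` iff `r κ ≤ Q'`), empty if `p.1 > Q'`. -/
theorem UL_expand : ∃ K : ℝ, 1 ≤ K ∧ ∀ Q Q' X : ℕ, RegP K Q X → 1 ≤ Q' → Q' ≤ Q → ∀ m : ℤ,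
    (X : ℤ) ≤ m → m ≤ 4 * X →
    ((Lk Q (X / Q ^ 2) m - Lk Q' (X / Q ^ 2) m : ℝ) : ℂ) = ∑ p ∈ PC Q, Bc Q X p m * Vl Q Q' p m := by
  obtain ⟨K1, hK1, h1⟩ := BPS_regimeP
  obtain ⟨K2, hK2, h2⟩ := regp_pow_le 2 1 1 one_pos
  refine ⟨max K1 K2, hK1.trans (le_max_left _ _), fun Q Q' X hreg hQ'1 hQ'Q m hm hm4 => ?_⟩
  have hK0 : 0 ≤ max K1 K2 := by linarith [le_max_left K1 K2]
  obtain ⟨hQ, hX, hY, hYX, hXY, -⟩ := h1 Q X (hreg.mono hK0 (le_max_left _ _))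
  have hlog := h2 Q X (hreg.mono hK0 (le_max_right _ _))
  rw [Real.rpow_one, Real.rpow_one] at hlog
  have h3 : 2 * Q ≤ X := by exact_mod_cast hlog
  have hA : (Lk Q (X / Q ^ 2) m : ℂ) = ∑ p ∈ PC Q, (∑ k ∈ KS Q p.1, gk p k m) * Bc Q X p m := by
    rw [DA_expand Q X (X / Q ^ 2) m hm hm4 (by omega) (by omega)]
    refine Finset.sum_congr rfl fun p hp => ?_
    rw [gam_expand Q p hp m]
    rfl
  have hB : (Lk Q' (X / Q ^ 2) m : ℂ) = ∑ p ∈ PC Q, (∑ k ∈ KS Q' p.1, gk p k m) * Bc Q X p m := by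
    rw [DA_expand Q' X (X / Q ^ 2) m hm hm4 (by omega) (by omega)]
    have hsub : PC Q' ⊆ PC Q := by
      intro p hp
      obtain ⟨a, b, c⟩ := mem_PC.1 hp
      exact mem_PC.2 ⟨a, b.trans hQ'Q, c⟩
    rw [← Finset.sum_subset hsub (f := fun p => (∑ k ∈ KS Q' p.1, gk p k m) * Bc Q X p m)]
    · refine Finset.sum_congr rfl fun p hp => ?_
      rw [gam_expand Q' p hp m]
      rfl
    · intro p hp hp'
      have h4 : KS Q' p.1 = ∅ := by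
        rw [Finset.eq_empty_iff_forall_notMem]
        intro k hk
        have h5 := (CA_mem_KS.1 hk).1
        obtain ⟨a, b, c⟩ := mem_PC.1 hp
        have h6 : ¬ p.1 ≤ Q' := fun h => hp' (mem_PC.2 ⟨a, h, c⟩)
        have h7 : Q' / p.1 = 0 := Nat.div_eq_of_lt (by omega)
        omega
      rw [h4, Finset.sum_empty, zero_mul]
  push_cast
  rw [hA, hB, ← Finset.sum_sub_distrib]
  refine Finset.sum_congr rfl fun p hp => ?_
  obtain ⟨a, b, c⟩ := mem_PC.1 hp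
  have h8 : ∑ k ∈ KS Q p.1, gk p k m = Vl Q Q' p m + ∑ k ∈ KS Q' p.1, gk p k m := by
    rw [← Finset.sum_filter_add_sum_filter_not (KS Q p.1) (fun κ => Q' < p.1 * κ)]
    unfold Vl
    congr 1
    refine Finset.sum_congr ?_ fun _ _ => rfl
    ext k
    rw [Finset.mem_filter, CA_mem_KS, CA_mem_KS]
    constructor
    · rintro ⟨⟨h9, h10⟩, h11⟩
      refine ⟨⟨h9.1, ?_⟩, h10⟩
      rw [Nat.le_div_iff_mul_le (by omega)]
      rw [mul_comm]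
      omega
    · rintro ⟨⟨h9, h9'⟩, h10⟩
      have h11 : k * p.1 ≤ Q' := (Nat.le_div_iff_mul_le (by omega)).1 h9'
      refine ⟨⟨⟨h9, ?_⟩, h10⟩, ?_⟩
      · rw [Nat.le_div_iff_mul_le (by omega)]
        omega
      · rw [mul_comm p.1 k]
        omega
  rw [h8]
  ring

/-- **Module LK.** Proof. `UL_expand`; `UM_mass`: `‖Bc Q X p m‖ ≤ mb p`, put `w_p = mb p + Q^(-3)`, `β_p(m) = Bc Q X p m/w_p`: at most `1`,
and `Bc_lip` (`H18Q/CL1.lean`) gives `‖β_p(m+1) - β_p(m)‖ ≤ Q³/(2X) · Q³`. `UB_one` for each `p`, times `w_p`;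
`∑_p w_p ≤ C + Q² Q^(-3)` (`card_PC_le`). `Q^100 ≤ X` from `RegP K` with `K ≥ 100`. -/
theorem LK_diff : ∃ K C : ℝ, 1 ≤ K ∧ 0 < C ∧ ∀ Q Q' X n : ℕ, RegP K Q X → 1 ≤ Q' → Q' ≤ Q → X ≤ n →
    ∀ f g W : ℤ → ℂ, (∀ x, ‖f x‖ ≤ 1) → (∀ x, ‖g x‖ ≤ 1) → (∀ x, ‖W x‖ ≤ 1) →
    ‖∑ x ∈ Icc (-(n : ℤ)) n, ∑ y ∈ Icc (-(n : ℤ)) n, f x * g y *
      (if (X : ℤ) ≤ x + y ∧ x + y ≤ 4 * X then
        ((Lk Q (X / Q ^ 2) (x + y) - Lk Q' (X / Q ^ 2) (x + y) : ℝ) : ℂ) else 0) * W (x - y)‖ ≤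
      C * (n : ℝ) ^ 2 * (Q' : ℝ) ^ (-(1 / 1152 : ℝ)) := by
  obtain ⟨K1, hK1, h1⟩ := UL_expand
  obtain ⟨K2, C2, hK2, hC2, h2⟩ := UM_mass
  obtain ⟨K3, hK3, h3⟩ := Bc_lip
  obtain ⟨K4, hK4, h4⟩ := regp_pow_le 1 100 1 one_pos
  obtain ⟨C5, hC5, h5⟩ := UB_one
  refine ⟨max (max K1 K2) (max K3 K4), C5 * (C2 + 1), hK1.trans ((le_max_left _ _).trans (le_max_left _ _)), by positivity, ?_⟩
  intro Q Q' X n hreg hQ'1 hQ'Q hXn f g W hf hg hW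
  have hK0 : 0 ≤ max (max K1 K2) (max K3 K4) := by
    have := (le_max_left K1 K2).trans (le_max_left (max K1 K2) (max K3 K4))
    linarith
  have r1 := hreg.mono hK0 ((le_max_left K1 K2).trans (le_max_left _ _))
  have r2 := hreg.mono hK0 ((le_max_right K1 K2).trans (le_max_left _ _))
  have r3 := hreg.mono hK0 ((le_max_left K3 K4).trans (le_max_right _ _))
  have r4 := hreg.mono hK0 ((le_max_right K3 K4).trans (le_max_right _ _))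
  have hQ1 : 1 ≤ Q := hQ'1.trans hQ'Q
  have hQR : (1 : ℝ) ≤ Q := by exact_mod_cast hQ1
  have hQ0 : (0 : ℝ) < Q := by linarith
  have hX0 : 0 < X := r1.X_pos (by linarith)
  have hX0' : (0 : ℝ) < X := by exact_mod_cast hX0
  have hQ100 : Q ^ 100 ≤ X := by
    have h6 := h4 Q X r4
    rw [one_mul, Real.rpow_one] at h6
    have h7 : (Q : ℝ) ^ (100 : ℝ) = (Q : ℝ) ^ (100 : ℕ) := by
      rw [← Real.rpow_natCast]
      norm_num
    rw [h7] at h6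
    exact_mod_cast h6
  obtain ⟨mb, hmb0, hmbs, hmb⟩ := h2 Q X r2
  have hwp : ∀ p ∈ PC Q, 0 < mb p + ((Q : ℝ) ^ 3)⁻¹ := fun p hp => by
    have := hmb0 p hp
    positivity
  have hsum : ∑ p ∈ PC Q, (mb p + ((Q : ℝ) ^ 3)⁻¹) ≤ C2 + 1 := by
    rw [Finset.sum_add_distrib, Finset.sum_const, nsmul_eq_mul]
    have h8 : ((PC Q).card : ℝ) * ((Q : ℝ) ^ 3)⁻¹ ≤ 1 := by
      rw [← div_eq_mul_inv, div_le_one (by positivity)]
      have h9 : ((PC Q).card : ℝ) ≤ (Q : ℝ) ^ 2 := by exact_mod_cast card_PC_le Q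
      refine h9.trans ?_
      exact pow_le_pow_right₀ hQR (by norm_num)
    linarith
  have hexp : ∀ x y : ℤ, f x * g y * (if (X : ℤ) ≤ x + y ∧ x + y ≤ 4 * X then
        ((Lk Q (X / Q ^ 2) (x + y) - Lk Q' (X / Q ^ 2) (x + y) : ℝ) : ℂ) else 0) * W (x - y) =
      ∑ p ∈ PC Q, ((mb p + ((Q : ℝ) ^ 3)⁻¹ : ℝ) : ℂ) * (f x * g y * (if (X : ℤ) ≤ x + y ∧ x + y ≤ 4 * X then
        (Bc Q X p (x + y) / ((mb p + ((Q : ℝ) ^ 3)⁻¹ : ℝ) : ℂ)) * Vl Q Q' p (x + y) else 0) * W (x - y)) := by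
    intro x y
    by_cases hxy : (X : ℤ) ≤ x + y ∧ x + y ≤ 4 * X
    · rw [if_pos hxy, h1 Q Q' X r1 hQ'1 hQ'Q (x + y) hxy.1 hxy.2, Finset.mul_sum, Finset.sum_mul]
      refine Finset.sum_congr rfl fun p hp => ?_
      rw [if_pos hxy]
      have h10 : ((mb p + ((Q : ℝ) ^ 3)⁻¹ : ℝ) : ℂ) ≠ 0 := by exact_mod_cast (hwp p hp).ne'
      generalize ((mb p + ((Q : ℝ) ^ 3)⁻¹ : ℝ) : ℂ) = c at h10 ⊢
      have h11 : Bc Q X p (x + y) = c * (Bc Q X p (x + y) / c) := by rw [mul_div_cancel₀ _ h10]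
      rw [h11]
      rw [mul_div_cancel_left₀ _ h10]
      ring
    · rw [if_neg hxy, mul_zero, zero_mul]
      symm
      refine Finset.sum_eq_zero fun p hp => ?_
      rw [if_neg hxy, mul_zero, zero_mul, mul_zero]
  have heq : (∑ x ∈ Icc (-(n : ℤ)) n, ∑ y ∈ Icc (-(n : ℤ)) n, f x * g y *
      (if (X : ℤ) ≤ x + y ∧ x + y ≤ 4 * X then
        ((Lk Q (X / Q ^ 2) (x + y) - Lk Q' (X / Q ^ 2) (x + y) : ℝ) : ℂ) else 0) * W (x - y)) =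
      ∑ p ∈ PC Q, ((mb p + ((Q : ℝ) ^ 3)⁻¹ : ℝ) : ℂ) * ∑ x ∈ Icc (-(n : ℤ)) n, ∑ y ∈ Icc (-(n : ℤ)) n,
        f x * g y * (if (X : ℤ) ≤ x + y ∧ x + y ≤ 4 * X then
        (Bc Q X p (x + y) / ((mb p + ((Q : ℝ) ^ 3)⁻¹ : ℝ) : ℂ)) * Vl Q Q' p (x + y) else 0) * W (x - y) := by
    rw [Finset.sum_congr rfl fun x _ => Finset.sum_congr rfl fun y _ => hexp x y]
    rw [Finset.sum_congr rfl fun x _ => Finset.sum_comm, Finset.sum_comm]
    refine Finset.sum_congr rfl fun p _ => ?_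
    rw [Finset.mul_sum]
    refine Finset.sum_congr rfl fun x _ => ?_
    rw [Finset.mul_sum]
  rw [heq]
  have hQ'0 : (0 : ℝ) ≤ (n : ℝ) ^ 2 * (Q' : ℝ) ^ (-(1 / 1152 : ℝ)) :=
    mul_nonneg (by positivity) (Real.rpow_nonneg (Nat.cast_nonneg _) _)
  have hone : ∀ p ∈ PC Q, ‖((mb p + ((Q : ℝ) ^ 3)⁻¹ : ℝ) : ℂ) * ∑ x ∈ Icc (-(n : ℤ)) n, ∑ y ∈ Icc (-(n : ℤ)) n,
        f x * g y * (if (X : ℤ) ≤ x + y ∧ x + y ≤ 4 * X then
        (Bc Q X p (x + y) / ((mb p + ((Q : ℝ) ^ 3)⁻¹ : ℝ) : ℂ)) * Vl Q Q' p (x + y) else 0) * W (x - y)‖ ≤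
      (mb p + ((Q : ℝ) ^ 3)⁻¹) * (C5 * (n : ℝ) ^ 2 * (Q' : ℝ) ^ (-(1 / 1152 : ℝ))) := by
    intro p hp
    have hw := hwp p hp
    rw [norm_mul, Complex.norm_real, Real.norm_eq_abs, abs_of_pos hw]
    refine mul_le_mul_of_nonneg_left ?_ hw.le
    refine h5 Q Q' X n hQ'1 hQ'Q hQ100 hXn p hp (fun m => Bc Q X p m / ((mb p + ((Q : ℝ) ^ 3)⁻¹ : ℝ) : ℂ)) ?_ ?_
      f g W hf hg hW
    · intro m hm hm4
      rw [norm_div, Complex.norm_real, Real.norm_eq_abs, abs_of_pos hw, div_le_one hw]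
      have h11 := hmb m hm hm4 p hp
      have h12 : 0 ≤ ((Q : ℝ) ^ 3)⁻¹ := by positivity
      linarith
    · intro m hm hm4
      rw [← sub_div, norm_div, Complex.norm_real, Real.norm_eq_abs, abs_of_pos hw]
      have h13 := h3 Q X r3 p m hm (by omega)
      have h14 : ((Q : ℝ) ^ 3)⁻¹ ≤ mb p + ((Q : ℝ) ^ 3)⁻¹ := by linarith [hmb0 p hp]
      have h15 : 0 < ((Q : ℝ) ^ 3)⁻¹ := by positivity
      calc ‖Bc Q X p (m + 1) - Bc Q X p m‖ / (mb p + ((Q : ℝ) ^ 3)⁻¹)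
          ≤ ((Q : ℝ) ^ 3 / (2 * X)) / ((Q : ℝ) ^ 3)⁻¹ :=
            div_le_div₀ (by positivity) h13 h15 h14
        _ = (Q : ℝ) ^ 6 / X * (1 / 2) := by
            field_simp
        _ ≤ (Q : ℝ) ^ 6 / X := by
            have h16 : 0 ≤ (Q : ℝ) ^ 6 / X := by positivity
            linarith
  refine (norm_sum_le _ _).trans ((Finset.sum_le_sum hone).trans ?_)
  rw [← Finset.sum_mul]
  calc (∑ p ∈ PC Q, (mb p + ((Q : ℝ) ^ 3)⁻¹)) * (C5 * (n : ℝ) ^ 2 * (Q' : ℝ) ^ (-(1 / 1152 : ℝ)))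
      ≤ (C2 + 1) * (C5 * (n : ℝ) ^ 2 * (Q' : ℝ) ^ (-(1 / 1152 : ℝ))) := by
        refine mul_le_mul_of_nonneg_right hsum ?_
        have := mul_nonneg hC5.le hQ'0
        linarith
    _ = C5 * (C2 + 1) * (n : ℝ) ^ 2 * (Q' : ℝ) ^ (-(1 / 1152 : ℝ)) := by ring

end Pool.Agent.Lib.H59T
end

-- from Lib.H59T.UV
section

/-!
# Project H59T, chunk UV (S): the form of `LK_diff` used in module STAR (H9S)
-/

open Finset

namespace Pool.Agent.Lib.H59T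

open Pool.Agent.Lib.H68T Pool.Agent.Lib.H18Q Pool.Agent.Lib.H59P

/-- Proof. `LK_diff` with `n = 3 X`, `f` cut off to `[2X, 3X)` and `g` to `(-X, X)`: then `x + y ∈ [X, 4X]` for the terms which are not `0`
(`Finset.sum_subset`, `Finset.sum_filter`-type manipulations); the constant is `9 C`. -/
theorem LK_box : ∃ K C : ℝ, 1 ≤ K ∧ 0 < C ∧ ∀ Q Q' X : ℕ, RegP K Q X → 1 ≤ Q' → Q' ≤ Q →
    ∀ f g W : ℤ → ℂ, (∀ x, ‖f x‖ ≤ 1) → (∀ x, ‖g x‖ ≤ 1) → (∀ x, ‖W x‖ ≤ 1) →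
    ‖∑ x ∈ Ico (2 * (X : ℤ)) (3 * X), ∑ y ∈ Ioo (-(X : ℤ)) X, f x * g y *
      ((Lk Q (X / Q ^ 2) (x + y) - Lk Q' (X / Q ^ 2) (x + y) : ℝ) : ℂ) * W (x - y)‖ ≤
      C * (X : ℝ) ^ 2 * (Q' : ℝ) ^ (-(1 / 1152 : ℝ)) := by
  classical
  obtain ⟨K, C, hK, hC, h⟩ := LK_diff
  refine ⟨K, 9 * C, hK, by positivity, ?_⟩
  intro Q Q' X hR hQ' hQQ f g W hf hg hW
  obtain ⟨f', hf'⟩ : ∃ f' : ℤ → ℂ, ∀ x, f' x = if x ∈ Ico (2 * (X : ℤ)) (3 * X) then f x else 0 := ⟨_, fun _ => rfl⟩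
  obtain ⟨g', hg'⟩ : ∃ g' : ℤ → ℂ, ∀ y, g' y = if y ∈ Ioo (-(X : ℤ)) X then g y else 0 := ⟨_, fun _ => rfl⟩
  have hf1 : ∀ x, ‖f' x‖ ≤ 1 := by
    intro x
    rw [hf' x]
    split_ifs
    · exact hf x
    · rw [norm_zero]
      exact zero_le_one
  have hg1 : ∀ y, ‖g' y‖ ≤ 1 := by
    intro y
    rw [hg' y]
    split_ifs
    · exact hg y
    · rw [norm_zero]
      exact zero_le_one
  have h1 := h Q Q' X (3 * X) hR hQ' hQQ (by omega) f' g' W hf1 hg1 hW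
  have h2 : ∑ x ∈ Icc (-((3 * X : ℕ) : ℤ)) ((3 * X : ℕ) : ℤ), ∑ y ∈ Icc (-((3 * X : ℕ) : ℤ)) ((3 * X : ℕ) : ℤ), f' x * g' y *
      (if (X : ℤ) ≤ x + y ∧ x + y ≤ 4 * X then
        ((Lk Q (X / Q ^ 2) (x + y) - Lk Q' (X / Q ^ 2) (x + y) : ℝ) : ℂ) else 0) * W (x - y) =
      ∑ x ∈ Ico (2 * (X : ℤ)) (3 * X), ∑ y ∈ Ioo (-(X : ℤ)) X, f x * g y *
      ((Lk Q (X / Q ^ 2) (x + y) - Lk Q' (X / Q ^ 2) (x + y) : ℝ) : ℂ) * W (x - y) := by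
    have hs1 : Ico (2 * (X : ℤ)) (3 * X) ⊆ Icc (-((3 * X : ℕ) : ℤ)) ((3 * X : ℕ) : ℤ) := by
      intro x hx
      rw [mem_Ico] at hx
      rw [mem_Icc]
      push_cast
      omega
    have hs2 : Ioo (-(X : ℤ)) X ⊆ Icc (-((3 * X : ℕ) : ℤ)) ((3 * X : ℕ) : ℤ) := by
      intro x hx
      rw [mem_Ioo] at hx
      rw [mem_Icc]
      push_cast
      omega
    rw [← Finset.sum_subset hs1 (fun x _ hx => Finset.sum_eq_zero fun y _ => by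
      rw [hf' x, if_neg hx, zero_mul, zero_mul, zero_mul])]
    refine Finset.sum_congr rfl fun x hx => ?_
    rw [← Finset.sum_subset hs2 (fun y _ hy => by
      rw [hg' y, if_neg hy, mul_zero, zero_mul, zero_mul])]
    refine Finset.sum_congr rfl fun y hy => ?_
    rw [hf' x, if_pos hx, hg' y, if_pos hy]
    rw [mem_Ico] at hx
    rw [mem_Ioo] at hy
    rw [if_pos (by constructor <;> omega)]
  rw [h2] at h1
  refine h1.trans (le_of_eq ?_)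
  push_cast
  ring

end Pool.Agent.Lib.H59T
end

-- from Lib.H9S.BDL
section
/-!
H9S: pointwise bound for the projections.
-/
namespace Pool.Agent.H9S
open Finset
open Pool.Agent.Lib.H68T Pool.Agent.Lib.H18Q Pool.Agent.Lib.H59P

theorem BDL_dQ (Q : ℕ) (m : ℤ) (hm : 1 ≤ m) : dQ Q m ≤ (m.toNat.divisors.card : ℝ) := by
  unfold dQ
  have h : (Icc 1 Q).filter (fun d : ℕ => (d : ℤ) ∣ m) ⊆ m.toNat.divisors := by
    intro d hd
    rw [mem_filter, mem_Icc] at hd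
    rw [Nat.mem_divisors]
    refine ⟨?_, by omega⟩
    have h1 : ((m.toNat : ℕ) : ℤ) = m := Int.toNat_of_nonneg (by omega)
    rw [← h1] at hd
    exact_mod_cast hd.2
  exact_mod_cast Finset.card_le_card h

/-- `|Lk Q (X/Q²)| ≤ n^ε` on `[X, 4X]`. -/
theorem BDL_bd : ∃ K : ℝ, 1 ≤ K ∧ ∀ ε : ℝ, 0 < ε → ∃ n0 : ℕ, ∀ n : ℕ, n0 ≤ n → ∀ Q X : ℕ, RegP K Q X →
    1 ≤ Q → Q ≤ n → 1 ≤ X → X ≤ n → ∀ m : ℤ, (X : ℤ) ≤ m → m ≤ 4 * X → |Lk Q (X / Q ^ 2) m| ≤ (n:ℝ) ^ ε := by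
  obtain ⟨K1, C1, hK1, hC1, hmass⟩ := Pool.Agent.Lib.H59T.UM_mass
  obtain ⟨K2, hK2, hSG⟩ := Lk_SG
  refine ⟨max K1 K2, hK1.trans (le_max_left _ _), fun ε hε => ?_⟩
  obtain ⟨C, hC, hdiv⟩ := Pool.Agent.Lib.H21AP.divisor_bound (ε := ε / 2) (by positivity)
  obtain ⟨c3, hc3⟩ : ∃ c3 : ℝ, c3 = 100 * (1 + 12 / ε) ^ 3 * (C * 4 ^ (ε / 2)) * C1 := ⟨_, rfl⟩
  have ht1 : ∀ᶠ n : ℕ in Filter.atTop, c3 ≤ (n:ℝ) ^ (ε / 4) :=
    ((tendsto_rpow_atTop (by positivity : 0 < ε / 4)).comp tendsto_natCast_atTop_atTop).eventually_ge_atTop _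
  obtain ⟨n1, hn1⟩ := Filter.eventually_atTop.1 ht1
  refine ⟨max n1 1, fun n hn Q X hreg hQ hQn hX hXn m hm1 hm2 => ?_⟩
  have hn1' := hn1 n (by omega)
  have hnp : (0:ℝ) < n := by
    have : 0 < n := by omega
    exact_mod_cast this
  have hn1r : (1:ℝ) ≤ n := by
    have : 1 ≤ n := by omega
    exact_mod_cast this
  have hK0 : 0 ≤ max K1 K2 := zero_le_one.trans (hK1.trans (le_max_left _ _))
  obtain ⟨mb, hmb0, hmbs, hmb⟩ := hmass Q X (hreg.mono hK0 (le_max_left _ _))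
  have h1 := hSG Q X (hreg.mono hK0 (le_max_right _ _)) m hm1 hm2
  have h2 := S1b Q hQ (fun p => Bc Q X p m) mb (hmb m hm1 hm2) m
  have hm1' : (1:ℤ) ≤ m := by omega
  have h3 : |Lk Q (X / Q ^ 2) m| ≤ 100 * (1 + Real.log Q) ^ 3 * dQ Q m * C1 := by
    rw [← Real.norm_eq_abs, ← Complex.norm_real, h1]
    refine h2.trans ?_
    refine mul_le_mul_of_nonneg_left hmbs ?_
    have : 0 ≤ dQ Q m := by unfold dQ; positivity
    have : 0 ≤ Real.log Q := Real.log_natCast_nonneg Q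
    positivity
  refine h3.trans ?_
  have hlogQ0 : 0 ≤ Real.log Q := Real.log_natCast_nonneg Q
  have hdq0 : 0 ≤ dQ Q m := by unfold dQ; positivity
  -- divisors
  have h4 : dQ Q m ≤ (C * 4 ^ (ε / 2)) * (n:ℝ) ^ (ε / 2) := by
    refine (BDL_dQ Q m hm1').trans ?_
    refine (hdiv m.toNat (by omega)).trans ?_
    rw [mul_assoc, ← Real.mul_rpow (by norm_num) hnp.le]
    refine mul_le_mul_of_nonneg_left ?_ hC.le
    refine Real.rpow_le_rpow (Nat.cast_nonneg _) ?_ (by positivity)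
    have h5 : m.toNat ≤ 4 * n := by omega
    exact_mod_cast h5
  -- logarithm
  have h5 : (1 + Real.log Q) ^ 3 ≤ (1 + 12 / ε) ^ 3 * (n:ℝ) ^ (ε / 4) := by
    have h6 : Real.log Q ≤ Real.log n := Real.log_le_log (by exact_mod_cast hQ) (by exact_mod_cast hQn)
    have h7 : Real.log n ≤ (n:ℝ) ^ (ε / 12) / (ε / 12) := Real.log_le_rpow_div hnp.le (by positivity)
    have h8 : (n:ℝ) ^ (ε / 12) / (ε / 12) = 12 / ε * (n:ℝ) ^ (ε / 12) := by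
      field_simp
    have h9 : (1:ℝ) ≤ (n:ℝ) ^ (ε / 12) := Real.one_le_rpow hn1r (by positivity)
    have h10 : 1 + Real.log Q ≤ (1 + 12 / ε) * (n:ℝ) ^ (ε / 12) := by
      rw [h8] at h7
      have : 0 < 12 / ε := by positivity
      nlinarith
    have h11 : ((n:ℝ) ^ (ε / 12)) ^ 3 = (n:ℝ) ^ (ε / 4) := by
      rw [← Real.rpow_natCast, ← Real.rpow_mul hnp.le]
      congr 1
      push_cast
      ring
    calc (1 + Real.log Q) ^ 3 ≤ ((1 + 12 / ε) * (n:ℝ) ^ (ε / 12)) ^ 3 := pow_le_pow_left₀ (by linarith) h10 3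
      _ = (1 + 12 / ε) ^ 3 * (n:ℝ) ^ (ε / 4) := by rw [mul_pow, h11]
  have hC1' : 0 ≤ C1 := by linarith
  have hP0 : 0 ≤ (n:ℝ) ^ (ε / 2) := Real.rpow_nonneg hnp.le _
  have hP1 : 0 ≤ (n:ℝ) ^ (ε / 4) := Real.rpow_nonneg hnp.le _
  calc 100 * (1 + Real.log Q) ^ 3 * dQ Q m * C1
      ≤ 100 * ((1 + 12 / ε) ^ 3 * (n:ℝ) ^ (ε / 4)) * ((C * 4 ^ (ε / 2)) * (n:ℝ) ^ (ε / 2)) * C1 := by
        refine mul_le_mul_of_nonneg_right ?_ hC1'
        refine mul_le_mul (mul_le_mul_of_nonneg_left h5 (by norm_num)) h4 hdq0 (by positivity)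
    _ = c3 * ((n:ℝ) ^ (ε / 4) * (n:ℝ) ^ (ε / 2)) := by rw [hc3]; ring
    _ ≤ (n:ℝ) ^ (ε / 4) * ((n:ℝ) ^ (ε / 4) * (n:ℝ) ^ (ε / 2)) :=
        mul_le_mul_of_nonneg_right hn1' (mul_nonneg hP1 hP0)
    _ = (n:ℝ) ^ ε := by
        rw [← Real.rpow_add hnp, ← Real.rpow_add hnp]
        congr 1
        ring

end Pool.Agent.H9S
end

-- from Lib.H9S.O3
section
/-!
H9S, final theorem of module STAR: the operator bound for `lp(x+y) lp(x-y) - Lk(x+y) Lk(x-y)`.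
-/
namespace Pool.Agent.H9S
open Finset
open Pool.Agent.H44W (ee)
open Pool.Agent.Lib.H68T (Lk)
open Pool.Agent.Lib.H18Q (RegP fourier_smallP)
open Pool.Agent.Lib.H96G (kp km)

/-- The operator bound and the bound for the projections, with the absolute constant `K0` in the regime. -/
def OPS (K0 : ℝ) : Prop :=
  ∀ Cr : ℝ, 1 ≤ Cr → ∃ c : ℝ, 0 < c ∧ ∃ n0 : ℕ, ∀ n Q : ℕ, n0 ≤ n →
    K0 * Real.log Q ≤ Real.log n → Real.log n ≤ Cr * Real.log Q → ∀ X Z : ℕ, RegP K0 Q X →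
    1 ≤ Z → 2 * Z ≤ X → X ≤ n → ∀ f g : ℕ → ℝ, (∀ x, |f x| ≤ 1) → (∀ y, |g y| ≤ 1) →
    |∑ x ∈ Ico (2 * X) (3 * X), ∑ y ∈ Ico Z (2 * Z), f x * g y * (kp x y - km (Lk Q (X / Q ^ 2)) x y)| ≤
      (n:ℝ) ^ (2 - c)

/-- **STAR.** -/
theorem OP_main (hI : INV) : ∃ K0 : ℝ, 1 ≤ K0 ∧ ∀ K : ℝ, K0 ≤ K → OPS K := by
  obtain ⟨K1, hK1, hbd⟩ := BDL_bd
  obtain ⟨K2, C2, hK2, hC2, hLK⟩ := Pool.Agent.Lib.H59T.LK_box
  obtain ⟨K3, hfs⟩ := fourier_smallP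
  have hO2 := O2_two (O1_op (E1_inv (K3_inv (T2_box (P2_inv hI)))))
  refine ⟨max (max K1 K2) (max K3 4), hK1.trans ((le_max_left _ _).trans (le_max_left _ _)), fun K hK Cr hCr => ?_⟩
  have hKK1 : K1 ≤ K := ((le_max_left _ _).trans (le_max_left _ _)).trans hK
  have hKK2 : K2 ≤ K := ((le_max_right _ _).trans (le_max_left _ _)).trans hK
  have hKK3 : K3 ≤ K := ((le_max_left _ _).trans (le_max_right _ _)).trans hK
  have hKK4 : (4:ℝ) ≤ K := ((le_max_right _ _).trans (le_max_right _ _)).trans hK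
  have hK0 : 0 ≤ K := by linarith
  obtain ⟨c, hc, n1, h1⟩ := hO2 Cr C2 hCr hC2
  obtain ⟨n2, h2⟩ := hbd c hc
  refine ⟨c, hc, max (max n1 n2) 1, fun n Q hn hKQ hlog X Z hreg hZ hZX hXn f g hf hg => ?_⟩
  have hn1 : n1 ≤ n := by omega
  have hn2 : n2 ≤ n := by omega
  have hnp : (0:ℝ) < n := by
    have : 0 < n := by omega
    exact_mod_cast this
  have hX1 : 1 ≤ X := by omega
  have hQ4 : (4:ℝ) ≤ Q := (hreg.mono hK0 hKK4).Q_ge (by norm_num)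
  have hQ2 : 2 ≤ Q := by
    have : (2:ℝ) ≤ Q := by linarith
    exact_mod_cast this
  have hQn : Q ≤ n := by
    have hlQ : 0 ≤ Real.log Q := Real.log_natCast_nonneg Q
    have h3 : Real.log Q ≤ Real.log n := by nlinarith
    have h4 : (Q:ℝ) ≤ n := (Real.log_le_log_iff (by linarith) hnp).1 h3
    exact_mod_cast h4
  refine h1 n hn1 Q X Z hQ2 hlog hZ hZX hXn ?_ ?_ ?_ f g hf hg
  · intro Q' hQ1 hQQ W f g hW hf hg
    have h3 := hLK Q Q' X (hreg.mono hK0 hKK2) hQ1 hQQ f g W hf hg hW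
    refine le_trans (le_of_eq ?_) h3
    rw [BF, Sx, Sy]
    simp only [Lc, Complex.ofReal_sub]
  · intro th u v hu hv
    have h3 := hfs Q X (hreg.mono hK0 hKK3) th u v hu hv
    refine le_trans (le_of_eq ?_) h3
    congr 1
    refine Finset.sum_congr rfl fun m _ => ?_
    rw [Ec, lc, Lc, Complex.ofReal_sub, mul_comm th (m:ℝ)]
    rfl
  · exact h2 n hn2 Q X (hreg.mono hK0 hKK1) (by omega) hQn hX1 hXn

end Pool.Agent.H9S
end
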