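import Pool.Agent.Lib.H1M.RV2.D_H18R_Defs
import Pool.Agent.Lib.H1M.RV2.M049
import Pool.Agent.Lib.H1M.RV2.M083
import Pool.Agent.Lib.H1M.RV2.M090

/-! Merged copies (to shorten the build) of Lib.H18R.FX, Lib.H18R.OF, Lib.H18R.Fin. -/

-- from Lib.H18R.FX
section

/-!
# Project H18R (MP_443e5f_co): the fixed exceptional set

Copies of proofs of `H18P` and `H18Q` (`OM`, `P3`, `GB`, `GC1`, `GD`), in order to have fewer imports.
-/

open Finset Pool.Agent.Lib.H68T Pool.Agent.Lib.H18E Pool.Agent.Lib.GoldbachGraph Pool.Agent.Lib.H18P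

namespace Pool.Agent.Lib.H18R

/-- The conclusion of `H18Q.main_pow`. -/
def MainPow (δ0 c0 : ℝ) : Prop :=
  ∀ a b : ℝ, 0 < a → a < b → b < δ0 → ∃ n0 : ℕ, ∀ n : ℕ, n0 ≤ n → ∃ B : Finset ℕ, B ⊆ Icc 1 n ∧
    (B.card : ℝ) ≤ (n : ℝ) ^ (1 - a) / 2 ∧ ∃ r1 : ℕ, (r1 = 0 ∨ 7 ≤ r1) ∧
    ∀ x ∈ Icc 1 n, x ∉ B → B.card < ohdeg n x ∧ (n : ℝ) ^ (1 - b) ≤ ohdeg n x ∧
      (¬ r1 ∣ x → c0 * SE x * n / (Real.log n) ^ 2 ≤ ohdeg n x)

/-- the powers of two -/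
theorem clog_bounds (x : ℕ) (hx : 3 ≤ x) : x ≤ 2 ^ Nat.clog 2 x ∧ 2 ^ Nat.clog 2 x < 2 * x ∧
    (Nat.clog 2 x : ℝ) + 1 ≤ 4 * Real.log x := by
  have h1 : x ≤ 2 ^ Nat.clog 2 x := Nat.le_pow_clog (by norm_num) x
  have h2 : 2 ^ Nat.clog 2 x < 2 * x := by
    have h3 := Nat.pow_pred_clog_lt_self (b := 2) (by norm_num) (x := x) (by omega)
    have h4 : 0 < Nat.clog 2 x := Nat.clog_pos (by norm_num) (by omega)
    obtain ⟨k, hk⟩ : ∃ k, Nat.clog 2 x = k + 1 := ⟨Nat.clog 2 x - 1, by omega⟩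
    rw [hk] at h3 ⊢
    simp only [Nat.pred_succ] at h3
    rw [pow_succ]
    omega
  refine ⟨h1, h2, ?_⟩
  have hxR : (3 : ℝ) ≤ x := by exact_mod_cast hx
  have h5 : ((2 : ℝ) ^ Nat.clog 2 x) < 2 * x := by exact_mod_cast h2
  have h6 : (Nat.clog 2 x : ℝ) * Real.log 2 ≤ Real.log 2 + Real.log x := by
    rw [← Real.log_pow, ← Real.log_mul (by norm_num) (by linarith)]
    exact Real.log_le_log (by positivity) h5.le
  have h7 := Real.log_two_gt_d9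
  have h8 : 1 ≤ Real.log x := by
    rw [Real.le_log_iff_exp_le (by linarith)]
    have := Real.exp_one_lt_d9
    linarith
  nlinarith

theorem reps_le (x : ℕ) :
    reps (2 * x) ≤ 2 * ((Icc 1 (x - 1)).filter (fun Y => hadj x Y)).card + 3 := by
  classical
  set D := (Icc 1 (x - 1)).filter (fun Y => hadj x Y) with hD
  have hsub : (range (2 * x + 1)).filter (fun p => p.Prime ∧ (2 * x - p).Prime) ⊆
      (D.image (fun Y => x - Y) ∪ D.image (fun Y => x + Y)) ∪ {x, 2, 2 * x - 2} := by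
    intro p hp
    rw [mem_filter, mem_range] at hp
    obtain ⟨hp1, hp2, hp3⟩ := hp
    have hp2' := hp2.two_le
    have hp3' := hp3.two_le
    rw [mem_union, mem_union, mem_image, mem_image, mem_insert, mem_insert, mem_singleton]
    by_cases h1 : p = x
    · right; left; exact h1
    by_cases h2 : p = 2
    · right; right; left; exact h2
    by_cases h3 : 2 * x - p = 2
    · right; right; right; omega
    have ho : Odd p := hp2.odd_of_ne_two h2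
    have ho' : Odd (2 * x - p) := hp3.odd_of_ne_two h3
    left
    rcases lt_or_gt_of_ne h1 with h | h
    · left
      refine ⟨x - p, ?_, by omega⟩
      rw [hD, mem_filter, mem_Icc]
      have e1 : x + (x - p) = 2 * x - p := by omega
      have e2 : Nat.dist x (x - p) = p := by unfold Nat.dist; omega
      refine ⟨⟨by omega, by omega⟩, ?_, ?_, ?_, ?_⟩
      · rw [e1]; exact hp3
      · rw [e1]; exact ho'
      · rw [e2]; exact hp2
      · rw [e2]; exact ho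
    · right
      refine ⟨p - x, ?_, by omega⟩
      rw [hD, mem_filter, mem_Icc]
      have e1 : x + (p - x) = p := by omega
      have e2 : Nat.dist x (p - x) = 2 * x - p := by unfold Nat.dist; omega
      refine ⟨⟨by omega, by omega⟩, ?_, ?_, ?_, ?_⟩
      · rw [e1]; exact hp2
      · rw [e1]; exact ho
      · rw [e2]; exact hp3
      · rw [e2]; exact ho'
  have h1 := card_le_card hsub
  have h2 := card_union_le (D.image (fun Y => x - Y) ∪ D.image (fun Y => x + Y)) {x, 2, 2 * x - 2}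
  have h3 := card_union_le (D.image (fun Y => x - Y)) (D.image (fun Y => x + Y))
  have h4 : (D.image (fun Y => x - Y)).card ≤ D.card := card_image_le
  have h5 : (D.image (fun Y => x + Y)).card ≤ D.card := card_image_le
  have h6 : ({x, 2, 2 * x - 2} : Finset ℕ).card ≤ 3 := card_le_three
  unfold reps
  omega

theorem le_reps (x : ℕ) : ((Icc 1 (x - 1)).filter (fun Y => hadj x Y)).card ≤ reps (2 * x) := by
  classical
  unfold reps
  refine card_le_card_of_injOn (fun Y => x - Y) ?_ ?_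
  · intro Y hY
    rw [mem_coe, mem_filter, mem_Icc] at hY
    obtain ⟨⟨h1, h2⟩, h3, h4, h5, h6⟩ := hY
    have e1 : Nat.dist x Y = x - Y := by unfold Nat.dist; omega
    rw [e1] at h5
    have e2 : 2 * x - (x - Y) = x + Y := by omega
    have e3 : x - Y ∈ (range (2 * x + 1)).filter (fun p => p.Prime ∧ (2 * x - p).Prime) := by
      rw [mem_filter, mem_range, e2]
      exact ⟨by omega, h5, h3⟩
    exact e3
  · intro Y hY Y' hY' h
    rw [mem_coe, mem_filter, mem_Icc] at hY hY'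
    simp only at h
    omega

/-- Thresholds. `m ^ (1 - b) = m ^ (1 - c) · m ^ (c - b)`, and `m ^ (c - b) ≥ 8`,
`m ^ (1 - c) ≥ 8` for large `m`. -/
theorem thr_pow (b c : ℝ) (hb0 : 0 < b) (hbc : b < c) (hc : c < 1) : ∃ n0 : ℕ, 1 ≤ n0 ∧ ∀ m : ℕ, n0 ≤ m →
    4 + (m : ℝ) ^ (1 - c) / 2 < (m : ℝ) ^ (1 - b) ∧
    3 + (m : ℝ) ^ (1 - c) < ((2 * m : ℕ) : ℝ) ^ (1 - b) ∧
    ((2 * m : ℕ) : ℝ) ^ (1 - c) ≤ (m : ℝ) ^ (1 - b) := by
  have h1 := (tendsto_rpow_atTop (show 0 < c - b by linarith)).eventually_ge_atTop 8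
  have h2 := (tendsto_rpow_atTop (show 0 < 1 - c by linarith)).eventually_ge_atTop 8
  obtain ⟨n0, hn0⟩ := Filter.eventually_atTop.1
    (tendsto_natCast_atTop_atTop.eventually (h1.and h2))
  refine ⟨max n0 1, le_max_right _ _, fun m hm => ?_⟩
  obtain ⟨e1, e2⟩ := hn0 m (by omega)
  have hm1 : (1 : ℝ) ≤ m := by exact_mod_cast (by omega : 1 ≤ m)
  have hm0 : (0 : ℝ) < m := by linarith
  have k1 : (m : ℝ) ^ (1 - b) = (m : ℝ) ^ (1 - c) * (m : ℝ) ^ (c - b) := by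
    rw [← Real.rpow_add hm0]
    congr 1
    ring
  have k2 : 8 * (m : ℝ) ^ (1 - c) ≤ (m : ℝ) ^ (1 - b) := by
    rw [k1]
    nlinarith
  have h2m : ((2 * m : ℕ) : ℝ) = 2 * m := by push_cast; ring
  rw [h2m]
  have k3 : (m : ℝ) ^ (1 - b) ≤ (2 * m) ^ (1 - b) :=
    Real.rpow_le_rpow hm0.le (by linarith) (by linarith)
  refine ⟨by linarith, by linarith, ?_⟩
  rw [Real.mul_rpow (by norm_num) hm0.le]
  have k4 : (2 : ℝ) ^ (1 - c) ≤ 2 := by
    calc (2 : ℝ) ^ (1 - c) ≤ 2 ^ (1 : ℝ) :=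
          Real.rpow_le_rpow_of_exponent_le (by norm_num) (by linarith)
      _ = 2 := Real.rpow_one _
  have k5 : (2 : ℝ) ^ (1 - c) * (m : ℝ) ^ (1 - c) ≤ 2 * (m : ℝ) ^ (1 - c) :=
    mul_le_mul_of_nonneg_right k4 (by linarith)
  linarith

/-- **A fixed thin set of halved vertices**, outside of which the degrees at the own scale are large. -/
theorem fixed_pow (δ0 c0 : ℝ) (hM : MainPow δ0 c0) (hδ : δ0 < 1 / 2) (a b : ℝ) (ha : 0 < a) (hab : a < b)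
    (hb : b < δ0) (N : ℕ) : ∃ (F : Set ℕ) (n0 : ℕ),
    (∀ x : ℕ, n0 ≤ x → ((F ∩ Set.Icc 0 x).ncard : ℝ) ≤ (x : ℝ) ^ (1 - a)) ∧
    ∀ x : ℕ, x ∉ F → N ≤ x ∧ (x : ℝ) ^ (1 - b) ≤
      (((Icc 1 (x - 1)).filter (fun Y => hadj x Y)).card : ℝ) := by
  classical
  set a' := a + (b - a) / 3 with ha'
  set b' := a + 2 * (b - a) / 3 with hb'
  have h1 : a < a' := by rw [ha']; linarith
  have h2 : a' < b' := by rw [ha', hb']; linarith
  have h3 : b' < b := by rw [hb']; linarith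
  obtain ⟨n1, hn1⟩ := hM a' b' (by linarith) h2 (by linarith)
  choose! B hB1 hB2 r1 hr1 hB3 using hn1
  have hev : ∀ᶠ y : ℝ in Filter.atTop, 8 * Real.log y ≤ y ^ (a' - a) / 2 ∧ 3 ≤ y := by
    have k1 := (isLittleO_log_rpow_atTop (show 0 < a' - a by linarith)).def
      (show (0 : ℝ) < 1 / 16 by norm_num)
    filter_upwards [k1, Filter.eventually_ge_atTop (3 : ℝ)] with y k1 k2
    have hL : 0 ≤ Real.log y := Real.log_nonneg (by linarith)
    rw [Real.norm_of_nonneg hL, Real.norm_of_nonneg (by positivity)] at k1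
    exact ⟨by linarith, k2⟩
  obtain ⟨n2, hn2⟩ := Filter.eventually_atTop.1 (tendsto_natCast_atTop_atTop.eventually hev)
  set N1 := max (max n1 n2) (max N 3) with hN1
  -- the second threshold
  have hev2 : ∀ᶠ y : ℝ in Filter.atTop, (2 * N1 : ℝ) ≤ y ^ (1 - a) :=
    (tendsto_rpow_atTop (show 0 < 1 - a by linarith)).eventually_ge_atTop _
  obtain ⟨n3, hn3⟩ := Filter.eventually_atTop.1 (tendsto_natCast_atTop_atTop.eventually hev2)
  refine ⟨{x | x < N1 ∨ x ∈ B (2 ^ Nat.clog 2 x)}, max N1 n3, fun x hx => ?_, fun x hx => ?_⟩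
  · -- counting
    have hxN : N1 ≤ x := by omega
    have hx3 : 3 ≤ x := by omega
    obtain ⟨k1, k2, k3⟩ := clog_bounds x hx3
    obtain ⟨e1, e2⟩ := hn2 x (by omega)
    have e5 := hn3 x (by omega)
    have hxR : (0 : ℝ) < x := by exact_mod_cast (by omega : 0 < x)
    set L := Real.log x with hL
    set J := Nat.clog 2 x with hJ
    set I := (range (J + 1)).filter (fun j => N1 ≤ 2 ^ j) with hI
    have hsub : {x | x < N1 ∨ x ∈ B (2 ^ Nat.clog 2 x)} ∩ Set.Icc 0 x ⊆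
        ((range N1 ∪ I.biUnion (fun j => B (2 ^ j)) : Finset ℕ) : Set ℕ) := by
      rintro y ⟨hy, hyx⟩
      rw [mem_coe, mem_union, mem_range, mem_biUnion]
      by_cases hyN : y < N1
      · exact Or.inl hyN
      · right
        have hy2 : y ∈ B (2 ^ Nat.clog 2 y) := hy.resolve_left hyN
        refine ⟨Nat.clog 2 y, ?_, hy2⟩
        rw [hI, mem_filter, mem_range]
        refine ⟨Nat.lt_succ_of_le (Nat.clog_mono_right 2 hyx.2), ?_⟩
        exact (not_lt.1 hyN).trans (Nat.le_pow_clog (by norm_num) y)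
    have hc1 : ({x | x < N1 ∨ x ∈ B (2 ^ Nat.clog 2 x)} ∩ Set.Icc 0 x).ncard ≤
        N1 + ∑ j ∈ I, (B (2 ^ j)).card := by
      refine (Set.ncard_le_ncard hsub (finite_toSet _)).trans ?_
      rw [Set.ncard_coe_finset]
      refine (card_union_le _ _).trans ?_
      rw [card_range]
      exact Nat.add_le_add_left card_biUnion_le _
    have hBj : ∀ j ∈ I, ((B (2 ^ j)).card : ℝ) ≤ (x : ℝ) ^ (1 - a') := by
      intro j hj
      rw [hI, mem_filter, mem_range] at hj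
      have hj1 : n1 ≤ 2 ^ j := by omega
      have hjJ : 2 ^ j ≤ 2 ^ J := Nat.pow_le_pow_right (by norm_num) (by omega)
      have h4 := hB2 (2 ^ j) hj1
      have h6 : ((2 ^ j : ℕ) : ℝ) ≤ 2 * x := by
        have : 2 ^ j ≤ 2 * x := hjJ.trans k2.le
        exact_mod_cast this
      have h7 : ((2 ^ j : ℕ) : ℝ) ^ (1 - a') ≤ (2 * x) ^ (1 - a') :=
        Real.rpow_le_rpow (Nat.cast_nonneg _) h6 (by linarith)
      have h8 : (2 * (x : ℝ)) ^ (1 - a') ≤ 2 * (x : ℝ) ^ (1 - a') := by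
        rw [Real.mul_rpow (by norm_num) hxR.le]
        apply mul_le_mul_of_nonneg_right _ (Real.rpow_nonneg hxR.le _)
        calc (2 : ℝ) ^ (1 - a') ≤ 2 ^ (1 : ℝ) :=
              Real.rpow_le_rpow_of_exponent_le (by norm_num) (by linarith)
          _ = 2 := Real.rpow_one _
      linarith
    have hIc : (I.card : ℝ) ≤ 4 * L := by
      refine le_trans ?_ k3
      have : I.card ≤ J + 1 := (card_filter_le _ _).trans (by rw [card_range])
      exact_mod_cast this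
    have hsum : (∑ j ∈ I, ((B (2 ^ j)).card : ℝ)) ≤ 4 * L * (x : ℝ) ^ (1 - a') := by
      refine (sum_le_sum hBj).trans ?_
      rw [sum_const, nsmul_eq_mul]
      exact mul_le_mul_of_nonneg_right hIc (by positivity)
    have hc2 : (({x | x < N1 ∨ x ∈ B (2 ^ Nat.clog 2 x)} ∩ Set.Icc 0 x).ncard : ℝ) ≤
        N1 + ∑ j ∈ I, ((B (2 ^ j)).card : ℝ) := by exact_mod_cast hc1
    -- the second part
    have hp2 : 4 * L * (x : ℝ) ^ (1 - a') ≤ (x : ℝ) ^ (1 - a) / 2 := by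
      have h4 : (x : ℝ) ^ (1 - a) = (x : ℝ) ^ (1 - a') * (x : ℝ) ^ (a' - a) := by
        rw [← Real.rpow_add hxR]
        congr 1
        ring
      have h5 : 0 ≤ (x : ℝ) ^ (1 - a') := Real.rpow_nonneg hxR.le _
      have h6 : (0 : ℝ) ≤ (x : ℝ) ^ (a' - a) := Real.rpow_nonneg hxR.le _
      rw [h4]
      have h7 : 4 * L ≤ (x : ℝ) ^ (a' - a) / 2 := by linarith
      calc 4 * L * (x : ℝ) ^ (1 - a') ≤ ((x : ℝ) ^ (a' - a) / 2) * (x : ℝ) ^ (1 - a') :=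
            mul_le_mul_of_nonneg_right h7 h5
        _ = (x : ℝ) ^ (1 - a') * (x : ℝ) ^ (a' - a) / 2 := by ring
    linarith
  · -- degrees
    simp only [Set.mem_ofPred_eq, not_or, not_lt] at hx
    obtain ⟨hxN, hxB⟩ := hx
    have hx3 : 3 ≤ x := by omega
    obtain ⟨k1, k2, k3⟩ := clog_bounds x hx3
    have hxR : (0 : ℝ) < x := by exact_mod_cast (by omega : 0 < x)
    set n := 2 ^ Nat.clog 2 x with hn
    refine ⟨by omega, ?_⟩
    have h4 := (hB3 n (by omega) x (mem_Icc.2 ⟨by omega, k1⟩) hxB).2.1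
    have h5 : ohdeg n x ≤ ((Icc 1 (x - 1)).filter (fun Y => hadj x Y)).card := by
      unfold ohdeg
      apply card_le_card
      intro Y hY
      rw [mem_filter, mem_Icc] at hY ⊢
      have := hY.2.2 k2
      exact ⟨⟨hY.1.1, by omega⟩, hY.2.1⟩
    have h6 : (ohdeg n x : ℝ) ≤ (((Icc 1 (x - 1)).filter (fun Y => hadj x Y)).card : ℝ) := by
      exact_mod_cast h5
    refine le_trans ?_ (h4.trans h6)
    have h7 : (x : ℝ) ≤ n := by exact_mod_cast k1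
    have h8 : (1 : ℝ) ≤ x := by
      have : 1 ≤ x := by omega
      exact_mod_cast this
    calc (x : ℝ) ^ (1 - b) ≤ (x : ℝ) ^ (1 - b') := Real.rpow_le_rpow_of_exponent_le h8 (by linarith)
      _ ≤ (n : ℝ) ^ (1 - b') := Real.rpow_le_rpow hxR.le h7 (by linarith)

/-- The fixed exceptional set. -/
theorem fixed_set_pow (δ0 c0 : ℝ) (hM : MainPow δ0 c0) (hδ : δ0 < 1 / 2) (a b : ℝ) (ha : 0 < a)
    (hab : a < b) (hb : b < δ0) (N : ℕ) :
    ∃ (E : Set ℕ) (x0 : ℕ),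
      (∀ x : ℕ, x0 ≤ x → ((E ∩ Set.Icc 0 x).ncard : ℝ) ≤ (x : ℝ) ^ (1 - a)) ∧
      ∀ u : ℕ, Even u → u ∉ E → N ≤ u ∧ (u : ℝ) ^ (1 - b) ≤ reps u := by
  classical
  obtain ⟨n1, hn11, hn1⟩ := thr_pow ((a + b) / 2) b (by linarith) (by linarith) (by linarith)
  obtain ⟨F, x0, hF1, hF2⟩ := fixed_pow δ0 c0 hM hδ a ((a + b) / 2) ha (by linarith) (by linarith) (max N n1)
  refine ⟨{u | Even u ∧ u / 2 ∈ F}, x0, fun x hx => ?_, fun u hu huE => ?_⟩
  · refine le_trans ?_ (hF1 x hx)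
    have : ({u | Even u ∧ u / 2 ∈ F} ∩ Set.Icc 0 x).ncard ≤ (F ∩ Set.Icc 0 x).ncard := by
      apply Set.ncard_le_ncard_of_injOn (fun u => u / 2)
      · rintro u ⟨⟨-, h2⟩, h3, h4⟩
        exact ⟨h2, Nat.zero_le _, (Nat.div_le_self _ _).trans h4⟩
      · rintro u ⟨⟨⟨k, hk⟩, -⟩, -⟩ v ⟨⟨⟨l, hl⟩, -⟩, -⟩ huv
        simp only at huv
        omega
    exact_mod_cast this
  · obtain ⟨k, hk⟩ := hu
    have hux : u = 2 * k := by omega
    subst hux
    have hkF : k ∉ F := fun h => huE ⟨even_two_mul k, by rwa [Nat.mul_div_cancel_left _ two_pos]⟩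
    obtain ⟨h1, h2⟩ := hF2 k hkF
    obtain ⟨-, -, t3⟩ := hn1 k (by omega)
    refine ⟨by omega, ?_⟩
    have h3 : (((Icc 1 (k - 1)).filter (fun Y => hadj k Y)).card : ℝ) ≤ reps (2 * k) := by
      exact_mod_cast le_reps k
    linarith

end Pool.Agent.Lib.H18R
end

-- from Lib.H18R.OF
section

/-!
# Project H18R (MP_443e5f_co): all vertices outside of a fixed thin set

`F = {x | x < N1, or x is not generic for some power of two in [x, x ^ (1 + 2 δ)]}`. Two elements `x ≤ y ≤ x ^ (1 + δ)` of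
the complement are generic for the same power of two, so at distance at most `5`. If `y > x ^ (1 + δ)` the Maynard-Tao
theorem (`H18P.jump`) gives a vertex `X`, generic at the scale of `x`, with many neighbours in `[1, y]`, one of which
is generic at the scale of `y`: distance at most `5 + 1 + 5`.
-/

open Finset

namespace Pool.Agent.Lib.H18R

open Pool.Agent.Lib.H96G
open Pool.Agent.Lib.GoldbachGraph (hadj hdeg hadj_comm)

theorem of_mono {m n : ℕ} (h : m ≤ n) (x y : ℕ) : (HL 1 n).edist x y ≤ (HL 1 m).edist x y := by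
  apply SimpleGraph.edist_anti
  intro u v huv
  obtain ⟨h1, h2, h3⟩ := huv
  rw [mem_Icc] at h2 h3
  exact ⟨h1, mem_Icc.2 ⟨h2.1, h2.2.trans h⟩, mem_Icc.2 ⟨h3.1, h3.2.trans h⟩⟩

/-- Generic sets for all large sizes. -/
theorem of_own (c0 : ℝ) (hc0 : 0 < c0) (n1 : ℕ)
    (h : ∀ n : ℕ, n1 ≤ n → ∃ (M : ℕ) (L : ℕ → ℤ → ℝ) (c B b : ℝ), c0 ≤ b ∧ GIn n M L c B b) :
    ∃ D : ℝ, 0 < D ∧ D ≤ 1 / 2 ∧ ∃ N : ℕ, ∀ n : ℕ, N ≤ n → ∃ Γ : Finset ℕ, Γ ⊆ Icc 1 n ∧ Own n D Γ := by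
  obtain ⟨n2, hn2⟩ := nm_ev c0 hc0
  refine ⟨10 * c0, by positivity, ?_, max n1 (max n2 1), fun n hn => ?_⟩
  · obtain ⟨M, L, c, B, b, hb, hG⟩ := h n1 le_rfl
    have := hG.hb
    have := hG.hB
    have := hG.hc
    linarith
  · have h1 : n1 ≤ n := le_trans (le_max_left _ _) hn
    have h2 : n2 ≤ n := le_trans (le_trans (le_max_left _ _) (le_max_right _ _)) hn
    have h3 : 1 ≤ n := le_trans (le_trans (le_max_right _ _) (le_max_right _ _)) hn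
    obtain ⟨M, L, c, B, b, hb, hG⟩ := h n h1
    obtain ⟨Γ, h4, h5, h6⟩ := og (hn2 n h2 b hb) hG
    have hB1 := hG.hb
    have hn1 : (1 : ℝ) ≤ n := by exact_mod_cast h3
    exact ⟨Γ, h4, h5.trans (Real.rpow_le_rpow_of_exponent_le hn1 (by linarith)), h6⟩

/-- Thresholds. -/
theorem of_thr (δ D c : ℝ) (hδ : 0 < δ) (hD : 0 < D) (hc : 0 < c) (B : ℕ) : ∃ n0 : ℕ, 2 ≤ n0 ∧
    ∀ m : ℕ, n0 ≤ m → 2000 ≤ (m : ℝ) ^ δ ∧ ∀ m' : ℕ, m ≤ m' →
      (m' : ℝ) ^ (1 - D) < c * m' ∧ ((2 * m' : ℕ) : ℝ) ^ (1 - D) < m' / (Real.log m') ^ B := by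
  have h1 := (tendsto_rpow_atTop hδ).eventually_ge_atTop 2000
  have h2 : ∀ᶠ y : ℝ in Filter.atTop, y ^ (-D) < c :=
    (tendsto_rpow_neg_atTop hD).eventually (gt_mem_nhds hc)
  have h3 : ∀ᶠ y : ℝ in Filter.atTop, 4 * (Real.log y) ^ B ≤ y ^ D := by
    have k := (isLittleO_log_rpow_rpow_atTop (B : ℝ) hD).def (show (0 : ℝ) < 1 / 4 by norm_num)
    filter_upwards [k, Filter.eventually_ge_atTop (1 : ℝ)] with y k hy
    have hL : 0 ≤ Real.log y := Real.log_nonneg hy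
    rw [Real.rpow_natCast, Real.norm_of_nonneg (by positivity), Real.norm_of_nonneg (by positivity)] at k
    linarith
  obtain ⟨n0, hn0⟩ := Filter.eventually_atTop.1
    (tendsto_natCast_atTop_atTop.eventually (h1.and (h2.and h3)))
  refine ⟨max n0 2, le_max_right _ _, fun m hm => ⟨(hn0 m (by omega)).1, fun m' hm' => ?_⟩⟩
  obtain ⟨-, e2, e3⟩ := hn0 m' (by omega)
  have hm2 : (2 : ℝ) ≤ m' := by exact_mod_cast (by omega : 2 ≤ m')
  have hm0 : (0 : ℝ) < m' := by linarith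
  have hlog : 0 < Real.log m' := Real.log_pos (by linarith)
  have k1 : (m' : ℝ) ^ (1 - D) = m' * (m' : ℝ) ^ (-D) := by
    rw [sub_eq_add_neg, Real.rpow_add hm0, Real.rpow_one]
  refine ⟨?_, ?_⟩
  · rw [k1, mul_comm c]
    exact mul_lt_mul_of_pos_left e2 hm0
  · rw [lt_div_iff₀ (by positivity)]
    have k2 : ((2 * m' : ℕ) : ℝ) ^ (1 - D) ≤ 2 * (m' : ℝ) ^ (1 - D) := by
      push_cast
      rw [Real.mul_rpow (by norm_num) hm0.le]
      apply mul_le_mul_of_nonneg_right _ (Real.rpow_nonneg hm0.le _)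
      calc (2 : ℝ) ^ (1 - D) ≤ 2 ^ (1 : ℝ) :=
            Real.rpow_le_rpow_of_exponent_le (by norm_num) (by linarith)
        _ = 2 := Real.rpow_one _
    have k3 : 0 < (m' : ℝ) ^ (-D) := Real.rpow_pos_of_pos hm0 _
    have k4 : (m' : ℝ) ^ (-D) * (m' : ℝ) ^ D = 1 := by
      rw [← Real.rpow_add hm0]
      have : -D + D = 0 := by ring
      rw [this, Real.rpow_zero]
    have k5 : (m' : ℝ) ^ (-D) * (4 * Real.log m' ^ B) ≤ 1 := by
      rw [← k4]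
      exact mul_le_mul_of_nonneg_left e3 k3.le
    have k6 : 0 ≤ Real.log m' ^ B := by positivity
    calc ((2 * m' : ℕ) : ℝ) ^ (1 - D) * Real.log m' ^ B ≤ (2 * (m' : ℝ) ^ (1 - D)) * Real.log m' ^ B :=
          mul_le_mul_of_nonneg_right k2 k6
      _ = m' * ((m' : ℝ) ^ (-D) * (4 * Real.log m' ^ B)) / 2 := by rw [k1]; ring
      _ ≤ m' * 1 / 2 := by
          have := mul_le_mul_of_nonneg_left k5 hm0.le
          linarith
      _ < m' := by linarith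

/-- Counting. -/
theorem of_count (D : ℝ) (hD : 0 < D) (hD2 : D ≤ 1 / 2) (N1 : ℕ) (Γ : ℕ → Finset ℕ)
    (hΓ : ∀ n, N1 ≤ n → ((Icc 1 n \ Γ n).card : ℝ) ≤ (n : ℝ) ^ (1 - D)) (hN1 : 3 ≤ N1) (a : ℝ) (ha : a < D / 4) :
    ∃ x0 : ℕ, ∀ x : ℕ, x0 ≤ x → (({x : ℕ | x < N1 ∨ ∃ k : ℕ, x ≤ 2 ^ k ∧ ((2 ^ k : ℕ) : ℝ) ≤ (x : ℝ) ^ (1 + 2 * (D / 4)) ∧
      x ∉ Γ (2 ^ k)} ∩ Set.Icc 0 x).ncard : ℝ) ≤ (x : ℝ) ^ (1 - a) := by
  classical
  set δ := D / 4 with hδ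
  have hδ0 : 0 < δ := by positivity
  have hev : ∀ᶠ y : ℝ in Filter.atTop, 16 * Real.log y ≤ y ^ (δ) ∧ 2 * (N1 : ℝ) ≤ y ^ (1 - a) := by
    have k1 := (isLittleO_log_rpow_atTop hδ0).def (show (0 : ℝ) < 1 / 16 by norm_num)
    filter_upwards [k1, (tendsto_rpow_atTop (show 0 < 1 - a by linarith)).eventually_ge_atTop (2 * (N1 : ℝ)),
      Filter.eventually_ge_atTop (3 : ℝ)] with y k1 k2 k3
    have hL : 0 ≤ Real.log y := Real.log_nonneg (by linarith)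
    rw [Real.norm_of_nonneg hL, Real.norm_of_nonneg (by positivity)] at k1
    exact ⟨by linarith, k2⟩
  obtain ⟨n2, hn2⟩ := Filter.eventually_atTop.1 (tendsto_natCast_atTop_atTop.eventually hev)
  refine ⟨max n2 N1, fun x hx => ?_⟩
  obtain ⟨e1, e2⟩ := hn2 x (by omega)
  have hx3 : 3 ≤ x := by omega
  obtain ⟨k1, k2, k3⟩ := clog_bounds x hx3
  have hx1 : (1 : ℝ) ≤ x := by exact_mod_cast (by omega : 1 ≤ x)
  have hxR : (0 : ℝ) < x := by linarith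
  set J := Nat.clog 2 x with hJ
  set I := (range (2 * J + 1)).filter (fun k => N1 ≤ 2 ^ k ∧ ((2 ^ k : ℕ) : ℝ) ≤ (x : ℝ) ^ (1 + 2 * δ)) with hI
  have hsub : {x : ℕ | x < N1 ∨ ∃ k : ℕ, x ≤ 2 ^ k ∧ ((2 ^ k : ℕ) : ℝ) ≤ (x : ℝ) ^ (1 + 2 * δ) ∧
      x ∉ Γ (2 ^ k)} ∩ Set.Icc 0 x ⊆
      ((range N1 ∪ I.biUnion (fun k => Icc 1 (2 ^ k) \ Γ (2 ^ k)) : Finset ℕ) : Set ℕ) := by
    rintro y ⟨hy, -, hyx⟩
    rw [mem_coe, mem_union, mem_range, mem_biUnion]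
    by_cases hyN : y < N1
    · exact Or.inl hyN
    · right
      obtain ⟨k, h1, h2, h3⟩ := hy.resolve_left hyN
      have hy1 : (1 : ℝ) ≤ y := by exact_mod_cast (by omega : 1 ≤ y)
      have h4 : ((2 ^ k : ℕ) : ℝ) ≤ (x : ℝ) ^ (1 + 2 * δ) :=
        h2.trans (Real.rpow_le_rpow (by linarith) (by exact_mod_cast hyx) (by linarith))
      refine ⟨k, ?_, mem_sdiff.2 ⟨mem_Icc.2 ⟨by omega, h1⟩, h3⟩⟩
      rw [hI, mem_filter, mem_range]
      refine ⟨?_, by omega, h4⟩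
      -- k ≤ 2 J
      have h5 : (x : ℝ) ^ (1 + 2 * δ) ≤ (x : ℝ) ^ (2 : ℝ) :=
        Real.rpow_le_rpow_of_exponent_le hx1 (by rw [hδ]; linarith)
      rw [Real.rpow_two] at h5
      have h6 : 2 ^ k ≤ x ^ 2 := by exact_mod_cast h4.trans h5
      have h7 : x ^ 2 ≤ 2 ^ (2 * J) := by
        calc x ^ 2 ≤ (2 ^ J) ^ 2 := Nat.pow_le_pow_left k1 2
          _ = 2 ^ (2 * J) := by rw [← pow_mul, mul_comm]
      have h8 := (Nat.pow_le_pow_iff_right (by norm_num : 1 < 2)).1 (h6.trans h7)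
      omega
  have hc1 : (({x : ℕ | x < N1 ∨ ∃ k : ℕ, x ≤ 2 ^ k ∧ ((2 ^ k : ℕ) : ℝ) ≤ (x : ℝ) ^ (1 + 2 * δ) ∧
      x ∉ Γ (2 ^ k)} ∩ Set.Icc 0 x).ncard) ≤ N1 + ∑ k ∈ I, (Icc 1 (2 ^ k) \ Γ (2 ^ k)).card := by
    refine (Set.ncard_le_ncard hsub (finite_toSet _)).trans ?_
    rw [Set.ncard_coe_finset]
    refine (card_union_le _ _).trans ?_
    rw [card_range]
    exact Nat.add_le_add_left card_biUnion_le _
  have hexp : (1 + 2 * δ) * (1 - D) ≤ 1 - δ - a := by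
    have : D = 4 * δ := by rw [hδ]; ring
    rw [this]
    nlinarith [sq_nonneg δ]
  have hBk : ∀ k ∈ I, ((Icc 1 (2 ^ k) \ Γ (2 ^ k)).card : ℝ) ≤ (x : ℝ) ^ (1 - δ - a) := by
    intro k hk
    rw [hI, mem_filter] at hk
    refine (hΓ (2 ^ k) hk.2.1).trans ?_
    calc ((2 ^ k : ℕ) : ℝ) ^ (1 - D) ≤ ((x : ℝ) ^ (1 + 2 * δ)) ^ (1 - D) :=
          Real.rpow_le_rpow (Nat.cast_nonneg _) hk.2.2 (by linarith)
      _ = (x : ℝ) ^ ((1 + 2 * δ) * (1 - D)) := by rw [← Real.rpow_mul hxR.le]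
      _ ≤ (x : ℝ) ^ (1 - δ - a) := Real.rpow_le_rpow_of_exponent_le hx1 hexp
  have hIc : (I.card : ℝ) ≤ 8 * Real.log x := by
    have h1 : I.card ≤ 2 * J + 1 := (card_filter_le _ _).trans (by rw [card_range])
    have h2 : (I.card : ℝ) ≤ 2 * J + 1 := by exact_mod_cast h1
    linarith
  have hsum : (∑ k ∈ I, ((Icc 1 (2 ^ k) \ Γ (2 ^ k)).card : ℝ)) ≤ 8 * Real.log x * (x : ℝ) ^ (1 - δ - a) := by
    refine (sum_le_sum hBk).trans ?_
    rw [sum_const, nsmul_eq_mul]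
    exact mul_le_mul_of_nonneg_right hIc (by positivity)
  have hc2 : ((({x : ℕ | x < N1 ∨ ∃ k : ℕ, x ≤ 2 ^ k ∧ ((2 ^ k : ℕ) : ℝ) ≤ (x : ℝ) ^ (1 + 2 * δ) ∧
      x ∉ Γ (2 ^ k)} ∩ Set.Icc 0 x).ncard : ℕ) : ℝ) ≤ N1 + ∑ k ∈ I, ((Icc 1 (2 ^ k) \ Γ (2 ^ k)).card : ℝ) := by
    exact_mod_cast hc1
  have hp2 : 8 * Real.log x * (x : ℝ) ^ (1 - δ - a) ≤ (x : ℝ) ^ (1 - a) / 2 := by
    have h4 : (x : ℝ) ^ (1 - a) = (x : ℝ) ^ (1 - δ - a) * (x : ℝ) ^ δ := by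
      rw [← Real.rpow_add hxR]
      congr 1
      ring
    have h5 : 0 ≤ (x : ℝ) ^ (1 - δ - a) := Real.rpow_nonneg hxR.le _
    rw [h4]
    calc 8 * Real.log x * (x : ℝ) ^ (1 - δ - a) ≤ ((x : ℝ) ^ δ / 2) * (x : ℝ) ^ (1 - δ - a) :=
          mul_le_mul_of_nonneg_right (by linarith) h5
      _ = (x : ℝ) ^ (1 - δ - a) * (x : ℝ) ^ δ / 2 := by ring
  linarith

/-- **The halved graph.** -/
theorem of_main (hO : ∃ D : ℝ, 0 < D ∧ D ≤ 1 / 2 ∧ ∃ N : ℕ, ∀ n : ℕ, N ≤ n → ∃ Γ : Finset ℕ, Γ ⊆ Icc 1 n ∧ Own n D Γ) :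
    ∃ δ : ℝ, 0 < δ ∧ δ ≤ 1 / 8 ∧ ∀ a : ℝ, a < δ → ∀ N : ℕ, ∃ (F : Set ℕ) (x0 : ℕ),
      (∀ x : ℕ, x0 ≤ x → ((F ∩ Set.Icc 0 x).ncard : ℝ) ≤ (x : ℝ) ^ (1 - a)) ∧ (∀ x : ℕ, x ∉ F → N ≤ x) ∧
      ∀ x y : ℕ, x ∉ F → y ∉ F → x ≤ y → (HL 1 y).edist x y ≤ 11 ∧ ((y : ℝ) ≤ (x : ℝ) ^ (1 + δ) →
        (HL 1 y).edist x y ≤ 5 ∧ (x % 2 = y % 2 → (HL 1 y).edist x y ≤ 4) ∧ (OT x y → (HL 1 y).edist x y ≤ 3)) := by
  classical
  obtain ⟨D, hD, hD2, N0, hO⟩ := hO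
  choose! Γ hΓ1 hΓ2 using hO
  obtain ⟨c, hc, B, m0, n1, hjump⟩ := Pool.Agent.Lib.H18P.jump
  obtain ⟨n2, hn2, hthr⟩ := of_thr (D / 4) D c (by positivity) hD hc B
  refine ⟨D / 4, by positivity, by linarith, fun a ha N => ?_⟩
  set N1 := max (max (max N0 N) (max m0 n1)) (max n2 3) with hN1
  obtain ⟨x0, hx0⟩ := of_count D hD hD2 N1 Γ (fun n hn => (hΓ2 n (by omega)).1) (by omega) a ha
  refine ⟨_, x0, hx0, fun x hx => ?_, fun x y hx hy hxy => ?_⟩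
  · simp only [Set.mem_ofPred_eq, not_or, not_lt] at hx
    have := hx.1
    omega
  · simp only [Set.mem_ofPred_eq, not_or, not_lt, not_exists, not_and, not_not] at hx hy
    obtain ⟨hxN, hxk⟩ := hx
    obtain ⟨hyN, hyk⟩ := hy
    obtain ⟨t1, t2⟩ := hthr x (by omega)
    obtain ⟨t1', -⟩ := hthr y (by omega)
    have hx1 : (1 : ℝ) ≤ x := by exact_mod_cast (by omega : 1 ≤ x)
    have hy1 : (1 : ℝ) ≤ y := by exact_mod_cast (by omega : 1 ≤ y)
    have hx0' : (0 : ℝ) < x := by linarith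
    have hy0' : (0 : ℝ) < y := by linarith
    obtain ⟨cx1, cx2, -⟩ := clog_bounds x (by omega)
    obtain ⟨cy1, cy2, -⟩ := clog_bounds y (by omega)
    have hsplit : ∀ z : ℝ, 0 < z → z ^ (1 + 2 * (D / 4)) = z * z ^ (D / 4) * z ^ (D / 4) := by
      intro z hz
      rw [mul_assoc, ← Real.rpow_add hz]
      nth_rewrite 2 [← Real.rpow_one z]
      rw [← Real.rpow_add hz]
      congr 1
      ring
    have hsplit1 : ∀ z : ℝ, 0 < z → z ^ (1 + D / 4) = z * z ^ (D / 4) := by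
      intro z hz
      rw [Real.rpow_add hz, Real.rpow_one]
    have hbig : ∀ z : ℝ, 1 ≤ z → 2000 ≤ z ^ (D / 4) → 2 * z ≤ z * z ^ (D / 4) * z ^ (D / 4) := by
      intro z hz1 hz
      have k1 : z * 2000 ≤ z * z ^ (D / 4) := mul_le_mul_of_nonneg_left hz (by linarith)
      have k2 : z * z ^ (D / 4) * 1 ≤ z * z ^ (D / 4) * z ^ (D / 4) :=
        mul_le_mul_of_nonneg_left (by linarith) (by linarith)
      linarith
    -- own scales
    have hyΓ : y ∈ Γ (2 ^ Nat.clog 2 y) := by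
      refine hyk _ cy1 ?_
      have h1 : ((2 ^ Nat.clog 2 y : ℕ) : ℝ) ≤ 2 * y := by exact_mod_cast cy2.le
      rw [hsplit y hy0']
      exact h1.trans (hbig y hy1 t1')
    have hxΓ : x ∈ Γ (2 ^ Nat.clog 2 x) := by
      refine hxk _ cx1 ?_
      have h1 : ((2 ^ Nat.clog 2 x : ℕ) : ℝ) ≤ 2 * x := by exact_mod_cast cx2.le
      rw [hsplit x hx0']
      exact h1.trans (hbig x hx1 t1)
    have hnear : (y : ℝ) ≤ (x : ℝ) ^ (1 + D / 4) →
        (HL 1 y).edist x y ≤ 5 ∧ (x % 2 = y % 2 → (HL 1 y).edist x y ≤ 4) ∧ (OT x y → (HL 1 y).edist x y ≤ 3) := by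
      intro hyx
      have hxΓ' : x ∈ Γ (2 ^ Nat.clog 2 y) := by
        refine hxk _ (hxy.trans cy1) ?_
        have h1 : ((2 ^ Nat.clog 2 y : ℕ) : ℝ) ≤ 2 * y := by exact_mod_cast cy2.le
        rw [hsplit x hx0']
        rw [hsplit1 x hx0'] at hyx
        have h2 : 0 ≤ (x : ℝ) * (x : ℝ) ^ (D / 4) := by positivity
        nlinarith
      exact (hΓ2 _ (by omega)).2 x hxΓ' y hyΓ y hxy le_rfl cy1
    refine ⟨?_, hnear⟩
    by_cases hcase : (y : ℝ) ≤ (x : ℝ) ^ (1 + D / 4)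
    · exact (hnear hcase).1.trans (by norm_num)
    · push Not at hcase
      rw [hsplit1 x hx0'] at hcase
      have h2000 : 2000 * x ≤ y := by
        have h1 : (2000 : ℝ) * x ≤ y := by nlinarith
        exact_mod_cast h1
      set m := 2 ^ Nat.clog 2 x with hm
      set m' := 2 ^ Nat.clog 2 y with hm'
      have hmy : 1000 * m ≤ y := by omega
      obtain ⟨tm1, -⟩ := t2 m cx1
      obtain ⟨-, ty⟩ := t2 y hxy
      have hJ := hjump y (by omega) m (by omega) hmy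
      -- the link
      obtain ⟨X, hX1, hX2⟩ : ∃ X ∈ (Icc 1 m).filter (fun X => (y : ℝ) / (Real.log y) ^ B ≤ hdeg y X), X ∈ Γ m := by
        by_contra hcon
        push Not at hcon
        have h1 : (Icc 1 m).filter (fun X => (y : ℝ) / (Real.log y) ^ B ≤ hdeg y X) ⊆ Icc 1 m \ Γ m := fun X hX =>
          mem_sdiff.2 ⟨(mem_filter.1 hX).1, hcon X hX⟩
        have h2 : (((Icc 1 m).filter (fun X => (y : ℝ) / (Real.log y) ^ B ≤ hdeg y X)).card : ℝ) ≤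
            ((Icc 1 m \ Γ m).card : ℝ) := by exact_mod_cast card_le_card h1
        have h3 := (hΓ2 m (by omega)).1
        linarith
      rw [mem_filter, mem_Icc] at hX1
      obtain ⟨Y, hY1, hY2⟩ : ∃ Y ∈ (Icc 1 y).filter (fun Y => hadj X Y), Y ∈ Γ m' := by
        by_contra hcon
        push Not at hcon
        have h1 : (Icc 1 y).filter (fun Y => hadj X Y) ⊆ Icc 1 m' \ Γ m' := fun Y hY => by
          have h4 := mem_Icc.1 (mem_filter.1 hY).1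
          exact mem_sdiff.2 ⟨mem_Icc.2 ⟨h4.1, h4.2.trans cy1⟩, hcon Y hY⟩
        have h2 : (hdeg y X : ℝ) ≤ ((Icc 1 m' \ Γ m').card : ℝ) := by
          have : hdeg y X ≤ (Icc 1 m' \ Γ m').card := card_le_card h1
          exact_mod_cast this
        have h3 := (hΓ2 m' (by omega)).1
        have h4 : ((m' : ℕ) : ℝ) ^ (1 - D) ≤ ((2 * y : ℕ) : ℝ) ^ (1 - D) :=
          Real.rpow_le_rpow (Nat.cast_nonneg _) (by exact_mod_cast cy2.le) (by linarith)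
        have h5 := hX1.2
        linarith
      rw [mem_filter, mem_Icc] at hY1
      have e1 : (HL 1 y).edist x X ≤ 5 := (of_mono (by omega : m ≤ y) x X).trans
        ((hΓ2 m (by omega)).2 x hxΓ X hX2 m cx1 hX1.1.2 le_rfl).1
      have e2 : (HL 1 y).edist X Y ≤ 1 := by
        have hadj1 : (HL 1 y).Adj X Y := ⟨hY1.2, mem_Icc.2 ⟨hX1.1.1, by omega⟩, mem_Icc.2 hY1.1⟩
        refine (SimpleGraph.edist_le (.cons hadj1 .nil)).trans ?_
        norm_num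
      have e3 : (HL 1 y).edist Y y ≤ 5 := ((hΓ2 m' (by omega)).2 Y hY2 y hyΓ y hY1.1.2 le_rfl cy1).1
      calc (HL 1 y).edist x y ≤ (HL 1 y).edist x Y + (HL 1 y).edist Y y := SimpleGraph.edist_triangle
        _ ≤ ((HL 1 y).edist x X + (HL 1 y).edist X Y) + (HL 1 y).edist Y y :=
            add_le_add_left SimpleGraph.edist_triangle _
        _ ≤ (5 + 1) + 5 := add_le_add (add_le_add e1 e2) e3
        _ = 11 := by norm_num

end Pool.Agent.Lib.H18R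
end

-- from Lib.H18R.Fin
section

/-!
# Project H18R (MP_443e5f_co): vertices which are rich at some scale are pairwise at distance at most 13
-/

open Finset

namespace Pool.Agent.Lib.H18R

open Pool.Agent.Goldbach Pool.Agent.Lib.H96G
open Pool.Agent.Lib.GoldbachGraph (hadj hdeg)
open Pool.Agent.Lib.H96G.Tr (finite_of_le deg_le le_deg)

theorem fn_thr (b b' : ℝ) (hbb : b < b') (hb' : b' < 1) : ∃ n0 : ℕ, 1 ≤ n0 ∧ ∀ m : ℕ, n0 ≤ m →
    3 + 2 * (m : ℝ) ^ (1 - b') ≤ ((2 * m : ℕ) : ℝ) ^ (1 - b) ∧ (m : ℝ) ^ (1 - b') ≤ (m : ℝ) ^ (1 - b) := by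
  have h1 := (tendsto_rpow_atTop (show 0 < b' - b by linarith)).eventually_ge_atTop 8
  obtain ⟨n0, hn0⟩ := Filter.eventually_atTop.1 (tendsto_natCast_atTop_atTop.eventually h1)
  refine ⟨max n0 1, le_max_right _ _, fun m hm => ?_⟩
  have e1 := hn0 m (by omega)
  have hm1 : (1 : ℝ) ≤ m := by exact_mod_cast (by omega : 1 ≤ m)
  have hm0 : (0 : ℝ) < m := by linarith
  have k1 : (m : ℝ) ^ (1 - b) = (m : ℝ) ^ (1 - b') * (m : ℝ) ^ (b' - b) := by
    rw [← Real.rpow_add hm0]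
    congr 1
    ring
  have k3 : (1 : ℝ) ≤ (m : ℝ) ^ (1 - b') := Real.one_le_rpow hm1 (by linarith)
  have k2 : 8 * (m : ℝ) ^ (1 - b') ≤ (m : ℝ) ^ (1 - b) := by
    rw [k1]
    nlinarith
  have h2m : ((2 * m : ℕ) : ℝ) = 2 * m := by push_cast; ring
  rw [h2m]
  have k4 : (m : ℝ) ^ (1 - b) ≤ (2 * m) ^ (1 - b) :=
    Real.rpow_le_rpow hm0.le (by linarith) (by linarith)
  exact ⟨by linarith, by linarith⟩

/-- Rich vertices have large degree at some scale. -/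
theorem fn_scale {V S : ℕ → Set ℕ} (hF : Fam V S) (b b' : ℝ) (hbb : b < b') (hb' : b' < 1) :
    ∃ n0 : ℕ, ∀ M N n : ℕ, n0 ≤ N → 2 * M ≤ N → N ≤ n → ∀ u : V n,
      Rich V (fun n => halfGraph (V n) (S n)) b N n u → ∃ m : ℕ, M ≤ m ∧ m ≤ n ∧ ∃ h : (u : ℕ) ∈ V m,
        (m : ℝ) ^ (1 - b') ≤ (((halfGraph (V m) (S m)).neighborSet ⟨u, h⟩).ncard : ℝ) := by
  obtain ⟨n1, hn1, hthr⟩ := fn_thr b b' hbb hb'
  refine ⟨2 * n1, fun M N n hN hM hNn u hu => ?_⟩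
  obtain ⟨u, hun⟩ := u
  rcases hu with ⟨m, hm0, hmn, hm, hd⟩ | ⟨hu0, hr⟩
  · exact ⟨m, by omega, hmn, hm, (hthr m (by omega)).2.trans hd⟩
  · obtain ⟨⟨x, hx'⟩, hbn⟩ := hF.hV n u hun
    have hux : u = 2 * x := by omega
    subst hux
    have hu0' : N ≤ 2 * x := hu0
    have hx1 : x ∈ Icc 1 x := mem_Icc.2 ⟨by omega, le_rfl⟩
    replace hr : ((2 * x : ℕ) : ℝ) ^ (1 - b) ≤ reps (2 * x) := hr
    refine ⟨x, by omega, by omega, hF.hV2 x x hx1, ?_⟩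
    have h1 : (reps (2 * x) : ℝ) ≤ 2 * (((Icc 1 (x - 1)).filter (fun Y => hadj x Y)).card : ℝ) + 3 := by
      exact_mod_cast reps_le x
    have h2 : (((Icc 1 (x - 1)).filter (fun Y => hadj x Y)).card : ℝ) ≤ hdeg x x := by
      have : ((Icc 1 (x - 1)).filter (fun Y => hadj x Y)).card ≤ hdeg x x := by
        unfold hdeg
        apply card_le_card
        apply filter_subset_filter
        exact Icc_subset_Icc_right (Nat.sub_le _ _)
      exact_mod_cast this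
    have h3 : (hdeg x x : ℝ) ≤ (((halfGraph (V x) (S x)).neighborSet ⟨2 * x, hF.hV2 x x hx1⟩).ncard : ℝ) := by
      exact_mod_cast le_deg (hF.hV x) (hF.hV2 x) (hF.hS x) x hx1 (hF.hV2 x x hx1)
    have h4 := (hthr x (by omega)).1
    show (x : ℝ) ^ (1 - b') ≤ (((halfGraph (V x) (S x)).neighborSet ⟨2 * x, hF.hV2 x x hx1⟩).ncard : ℝ)
    linarith

/-- The vertex `0` has many neighbours at every scale. -/
theorem fn_zero {V S : ℕ → Set ℕ} (hF : Fam V S) (e : ℝ) (he : e < 1) : ∃ n0 : ℕ, ∀ m : ℕ, n0 ≤ m →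
    ∀ h : (0 : ℕ) ∈ V m, (m : ℝ) ^ e ≤ (((halfGraph (V m) (S m)).neighborSet ⟨0, h⟩).ncard : ℝ) := by
  have h3 : ∀ᶠ y : ℝ in Filter.atTop, y ^ e * Real.log y * 4 ≤ y ∧ 4 * Real.log (y + 1) ≤ y ∧ 8 * Real.log y ≤ y := by
    have k := (isLittleO_log_rpow_atTop (show 0 < 1 - e by linarith)).def (show (0 : ℝ) < 1 / 4 by norm_num)
    have k2 := (isLittleO_log_rpow_atTop (show (0 : ℝ) < 1 by norm_num)).def (show (0 : ℝ) < 1 / 16 by norm_num)
    filter_upwards [k, k2, Filter.eventually_ge_atTop (16 : ℝ)] with y k k2 hy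
    have hy0 : 0 < y := by linarith
    have hL : 0 ≤ Real.log y := Real.log_nonneg (by linarith)
    rw [Real.norm_of_nonneg hL, Real.norm_of_nonneg (by positivity)] at k k2
    rw [Real.rpow_one] at k2
    refine ⟨?_, ?_, by linarith⟩
    · have k1 : y = y ^ e * y ^ (1 - e) := by
        rw [← Real.rpow_add hy0]
        have : e + (1 - e) = 1 := by ring
        rw [this, Real.rpow_one]
      calc y ^ e * Real.log y * 4 = y ^ e * (Real.log y * 4) := by ring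
        _ ≤ y ^ e * y ^ (1 - e) := mul_le_mul_of_nonneg_left (by linarith) (Real.rpow_nonneg hy0.le _)
        _ = y := k1.symm
    · have h1 : Real.log (y + 1) ≤ Real.log (2 * y) := Real.log_le_log (by linarith) (by linarith)
      rw [Real.log_mul (by norm_num) hy0.ne'] at h1
      have h2 := Real.log_two_lt_d9
      linarith
  obtain ⟨n0, hn0⟩ := Filter.eventually_atTop.1 (tendsto_natCast_atTop_atTop.eventually h3)
  refine ⟨max n0 16, fun m hm h => ?_⟩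
  obtain ⟨e1, e2, e3⟩ := hn0 m (by omega)
  have hm2 : (16 : ℝ) ≤ m := by exact_mod_cast (by omega : 16 ≤ m)
  have hlog : 0 < Real.log m := Real.log_pos (by linarith)
  set J := (Icc 1 m).filter (fun p => p.Prime ∧ Odd p) with hJ
  have hJV : ∀ x ∈ J, 2 * x ∈ V m := fun x hx => hF.hV2 m x (mem_filter.1 hx).1
  have h1 := gl_image (finite_of_le (hF.hV m)) J hJV
  have h2 : (({a : V m | ∃ x ∈ J, (a : ℕ) = 2 * x}).ncard : ℝ) ≤
      (((halfGraph (V m) (S m)).neighborSet ⟨0, h⟩).ncard : ℝ) := by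
    have : Finite (V m) := finite_of_le (hF.hV m)
    have h4 : ({a : V m | ∃ x ∈ J, (a : ℕ) = 2 * x}).ncard ≤ ((halfGraph (V m) (S m)).neighborSet ⟨0, h⟩).ncard := by
      apply Set.ncard_le_ncard _ (Set.toFinite _)
      rintro ⟨a, ha⟩ ⟨x, hx, hax⟩
      simp only at hax
      subst hax
      rw [hJ, mem_filter, mem_Icc] at hx
      rw [SimpleGraph.mem_neighborSet, halfGraph_adj_iff (x := 0) (y := x) rfl rfl]
      have hxS : x ∈ S m := hF.hS m x hx.2.1 hx.2.2 (by omega)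
      refine ⟨by omega, by simpa using hxS, by simpa using hxS⟩
    exact_mod_cast h4
  have h5 : (Nat.primeCounting m : ℝ) ≤ J.card + 1 := by
    have h6 : Nat.primeCounting m ≤ J.card + 1 := by
      rw [Nat.primeCounting, Nat.primeCounting', Nat.count_eq_card_filter_range]
      have h7 : (Finset.range (m + 1)).filter Nat.Prime ⊆ insert 2 J := by
        intro p hp
        rw [mem_filter, mem_range] at hp
        rw [mem_insert, hJ, mem_filter, mem_Icc]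
        by_cases h8 : p = 2
        · exact Or.inl h8
        · have := hp.2.pos
          exact Or.inr ⟨⟨by omega, by omega⟩, hp.2, hp.2.odd_of_ne_two h8⟩
      exact (card_le_card h7).trans (card_insert_le _ _)
    exact_mod_cast h6
  have h6 := Chebyshev.pi_ge m
  rw [div_le_iff₀ hlog] at h6
  have h7 := Real.log_two_gt_d9
  have h8 : (m : ℝ) ^ e ≤ J.card := by
    have h9 : ((m : ℝ) ^ e + 1) * Real.log m ≤ (J.card + 1) * Real.log m := by
      have h10 : (Nat.primeCounting m : ℝ) * Real.log m ≤ (J.card + 1) * Real.log m :=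
        mul_le_mul_of_nonneg_right h5 hlog.le
      nlinarith
    have h10 := le_of_mul_le_mul_right h9 hlog
    linarith
  linarith

/-- **The main part, for a family.** -/
theorem fn_family {V S : ℕ → Set ℕ} (hF : Fam V S) (b d : ℝ) (hb : 0 < b) (hbd : b < d) (hd : d ≤ 1 / 2) (N : ℕ)
    (hT : ∀ n ≥ N, PT (V n) (halfGraph (V n) (S n)) d n) : ∃ n0 : ℕ, 1 ≤ n0 ∧ ∀ N : ℕ, n0 ≤ N → ∀ n : ℕ, N ≤ n →
    (∀ u v : V n, Rich V (fun n => halfGraph (V n) (S n)) b N n u →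
      Rich V (fun n => halfGraph (V n) (S n)) b N n v → (halfGraph (V n) (S n)).edist u v ≤ 13) ∧
    ((∀ m, 0 ∈ V m) → ∀ u v : V n, (u : ℕ) = 0 → Rich V (fun n => halfGraph (V n) (S n)) b N n v →
      (halfGraph (V n) (S n)).edist u v ≤ 7) := by
  obtain ⟨n1, hn1, h1⟩ := gl_pair hF ((b + d) / 2) d (by linarith) (by linarith) N hT
  obtain ⟨n2, h2⟩ := fn_scale hF b ((b + d) / 2) (by linarith) (by linarith)
  obtain ⟨n3, h3⟩ := fn_zero hF (1 - 2 * d) (by linarith)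
  refine ⟨max (max n2 1) (2 * max n1 (max n3 (max N 1))), by omega, fun N' hN' n hn => ⟨?_, ?_⟩⟩
  · intro u v hu hv
    obtain ⟨m, hm1, hm2, hm, hdm⟩ := h2 n1 N' n (by omega) (by omega) hn u hu
    obtain ⟨m', hm1', hm2', hm', hdm'⟩ := h2 n1 N' n (by omega) (by omega) hn v hv
    rcases le_total m m' with h | h
    · have h4 := h1 m m' hm1 h ⟨u, hm⟩ ⟨v, hm'⟩ hdm hdm'
      exact (gl_lift (hF.mV m' n hm2') (hF.mS m' n hm2') ⟨u, hF.mV m m' h hm⟩ ⟨v, hm'⟩).trans h4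
    · have h4 := h1 m' m hm1' h ⟨v, hm'⟩ ⟨u, hm⟩ hdm' hdm
      rw [SimpleGraph.edist_comm]
      exact (gl_lift (hF.mV m n hm2) (hF.mS m n hm2) ⟨v, hF.mV m' m h hm'⟩ ⟨u, hm⟩).trans h4
  · rintro h0 ⟨u, hu⟩ v hu0 hv
    simp only at hu0
    subst hu0
    obtain ⟨m', hm1', hm2', hm', hdm'⟩ := h2 (max n1 (max n3 (max N 1))) N' n (by omega) (by omega) hn v hv
    have h4 := (hT m' (by omega)).2 ⟨0, h0 m'⟩ ⟨v, hm'⟩ (h3 m' (by omega) (h0 m')) ?_
    · exact (gl_lift (hF.mV m' n hm2') (hF.mS m' n hm2') ⟨0, h0 m'⟩ ⟨v, hm'⟩).trans h4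
    · refine le_trans ?_ hdm'
      have hm1 : (1 : ℝ) ≤ m' := by exact_mod_cast (by omega : 1 ≤ m')
      exact Real.rpow_le_rpow_of_exponent_le hm1 (by linarith)

/-- Vertices outside of the fixed thin set, in one graph. -/
theorem fn_off {V S : ℕ → Set ℕ} (hF : Fam V S) {F : Set ℕ} {δ : ℝ} (hδ : 0 < δ) {E : Set ℕ} {N : ℕ} (hN1 : 1 ≤ N)
    (hN2 : ∀ x : ℕ, N ≤ x → 2 * 2 ≤ (x : ℝ) ^ (δ / 2)) (hNF : ∀ x : ℕ, x ∉ F → N ≤ x)
    (hE : ∀ u : ℕ, Even u → u ∉ E → u / 2 ∉ F)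
    (h : ∀ x y : ℕ, x ∉ F → y ∉ F → x ≤ y → (HL 1 y).edist x y ≤ 11 ∧ ((y : ℝ) ≤ (x : ℝ) ^ (1 + δ) →
        (HL 1 y).edist x y ≤ 5 ∧ (x % 2 = y % 2 → (HL 1 y).edist x y ≤ 4) ∧ (OT x y → (HL 1 y).edist x y ≤ 3)))
    (hδ1 : δ ≤ 1) (n : ℕ) : Off E (δ / 2) (halfGraph (V n) (S n)) := by
  -- ordered version
  have key : ∀ x y : ℕ, ∀ hx : 2 * x ∈ V n, ∀ hy : 2 * y ∈ V n, x ∉ F → y ∉ F → x ≤ y →
      (halfGraph (V n) (S n)).edist ⟨2 * x, hx⟩ ⟨2 * y, hy⟩ ≤ 11 ∧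
      (((2 * y : ℕ) : ℝ) ≤ ((2 * x : ℕ) : ℝ) ^ (1 + δ / 2) → (halfGraph (V n) (S n)).edist ⟨2 * x, hx⟩ ⟨2 * y, hy⟩ ≤ 5 ∧
        ((2 * x) % 4 = (2 * y) % 4 → (halfGraph (V n) (S n)).edist ⟨2 * x, hx⟩ ⟨2 * y, hy⟩ ≤ 4) ∧
        ((2 * x) % 4 ≠ (2 * y) % 4 → (3 ∣ 2 * x ↔ ¬ 3 ∣ 2 * y) →
          (halfGraph (V n) (S n)).edist ⟨2 * x, hx⟩ ⟨2 * y, hy⟩ ≤ 3)) := by
    intro x y hx hy hxF hyF hxy
    have hyn : y ≤ n := by
      have := (hF.hV n _ hy).2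
      omega
    have hx1 := hNF x hxF
    have hxI : x ∈ Finset.Icc 1 n := Finset.mem_Icc.2 ⟨by omega, by omega⟩
    have hyI : y ∈ Finset.Icc 1 n := Finset.mem_Icc.2 ⟨by omega, by omega⟩
    obtain ⟨h1, h2⟩ := h x y hxF hyF hxy
    have tr : ∀ k : ℕ, (HL 1 y).edist x y ≤ (k : ℕ∞) → (halfGraph (V n) (S n)).edist ⟨2 * x, hx⟩ ⟨2 * y, hy⟩ ≤ (k : ℕ∞) :=
      fun k hk => E2_edist (lo := 1) (hF.hV2 n) (hF.hS n) hxI hyI ((of_mono hyn x y).trans hk)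
    refine ⟨tr 11 h1, fun h3 => ?_⟩
    have h4 : (y : ℝ) ≤ (x : ℝ) ^ (1 + δ) := by
      have hx0 : (0 : ℝ) < x := by exact_mod_cast (by omega : 0 < x)
      push_cast at h3
      rw [Real.mul_rpow (by norm_num) hx0.le] at h3
      have h5 : (2 : ℝ) ^ (1 + δ / 2) ≤ 2 * 2 := by
        calc (2 : ℝ) ^ (1 + δ / 2) ≤ 2 ^ (2 : ℝ) := Real.rpow_le_rpow_of_exponent_le (by norm_num) (by linarith)
          _ = 2 * 2 := by rw [Real.rpow_two]; norm_num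
      have h6 := hN2 x hx1
      have h7 : (x : ℝ) ^ (1 + δ) = (x : ℝ) ^ (δ / 2) * (x : ℝ) ^ (1 + δ / 2) := by
        rw [← Real.rpow_add hx0]
        congr 1
        ring
      have h8 : 0 ≤ (x : ℝ) ^ (1 + δ / 2) := Real.rpow_nonneg hx0.le _
      have h9 : (2 : ℝ) ^ (1 + δ / 2) * (x : ℝ) ^ (1 + δ / 2) ≤ (x : ℝ) ^ (δ / 2) * (x : ℝ) ^ (1 + δ / 2) :=
        mul_le_mul_of_nonneg_right (h5.trans h6) h8
      have h10 : (0 : ℝ) ≤ y := Nat.cast_nonneg _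
      rw [h7]
      linarith
    obtain ⟨h5, h6, h7⟩ := h2 h4
    refine ⟨tr 5 h5, fun h8 => tr 4 (h6 (by omega)), fun h8 h9 => tr 3 (h7 ?_)⟩
    unfold OT
    omega
  rintro ⟨u, hu⟩ ⟨v, hv⟩ huE hvE
  obtain ⟨⟨x, hx'⟩, -⟩ := hF.hV n u hu
  obtain ⟨⟨y, hy'⟩, -⟩ := hF.hV n v hv
  have hux : u = 2 * x := by omega
  have hvy : v = 2 * y := by omega
  subst hux hvy
  have hxF : x ∉ F := by
    have := hE (2 * x) (even_two_mul x) huE
    rwa [Nat.mul_div_cancel_left _ (by norm_num : 0 < 2)] at this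
  have hyF : y ∉ F := by
    have := hE (2 * y) (even_two_mul y) hvE
    rwa [Nat.mul_div_cancel_left _ (by norm_num : 0 < 2)] at this
  simp only
  rcases le_total x y with hxy | hxy
  · obtain ⟨h1, h2⟩ := key x y hu hv hxF hyF hxy
    exact ⟨h1, fun _ h4 => h2 h4⟩
  · obtain ⟨h1, h2⟩ := key y x hv hu hyF hxF hxy
    rw [SimpleGraph.edist_comm] at h1
    refine ⟨h1, fun h4 _ => ?_⟩
    obtain ⟨h5, h6, h7⟩ := h2 h4
    rw [SimpleGraph.edist_comm] at h5 h6 h7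
    exact ⟨h5, fun h8 => h6 h8.symm, fun h8 h9 => h7 (fun h10 => h8 h10.symm) (by tauto)⟩

/-- **The theorem**, from project T and the degrees of the vertices. -/
theorem rich13 (hT : ∃ δ0 : ℝ, 0 < δ0 ∧ ∃ N : ℕ, ∀ n ≥ N, ∃ δ : ℝ, δ0 ≤ δ ∧ δ ≤ 1 / 2 ∧
      Fin5 n δ (goldbachGraph n) ∧ Fin5 n δ (nearGoldbachGraph n))
    (hO : ∃ D : ℝ, 0 < D ∧ D ≤ 1 / 2 ∧ ∃ N : ℕ, ∀ n : ℕ, N ≤ n → ∃ Γ : Finset ℕ, Γ ⊆ Icc 1 n ∧ Own n D Γ) :
    ∃ δ0 : ℝ, 0 < δ0 ∧ ∀ a b : ℝ, 0 < a → a < b → b < δ0 →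
    ∃ (E : Set ℕ) (n0 x0 : ℕ),
      (∀ x : ℕ, x0 ≤ x → ((E ∩ Set.Icc 0 x).ncard : ℝ) ≤ (x : ℝ) ^ (1 - a)) ∧
      (∀ u : ℕ, Even u → u ∉ E → n0 ≤ u ∧ (u : ℝ) ^ (1 - b) ≤ reps u) ∧
      (∀ n : ℕ, Off E δ0 (goldbachGraph n) ∧ Off E δ0 (nearGoldbachGraph n)) ∧
      (∀ n : ℕ, n0 ≤ n →
        (∀ u v : goldbachVertices n, Rich goldbachVertices goldbachGraph b n0 n u →
          Rich goldbachVertices goldbachGraph b n0 n v → (goldbachGraph n).edist u v ≤ 13) ∧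
        (∀ u v : goldbachVertices n, (u : ℕ) = 0 → Rich goldbachVertices goldbachGraph b n0 n v →
          (goldbachGraph n).edist u v ≤ 7) ∧
        (∀ u v : evenVertices n, Rich evenVertices nearGoldbachGraph b n0 n u →
          Rich evenVertices nearGoldbachGraph b n0 n v → (nearGoldbachGraph n).edist u v ≤ 13)) ∧
      (QuantGoldbach b → ∃ C N U : ℕ, ∀ n : ℕ, N ≤ n →
        (∀ u v : goldbachVertices n, (goldbachGraph n).edist u v ≤ C ∧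
          (U ≤ (u : ℕ) → U ≤ (v : ℕ) → (goldbachGraph n).edist u v ≤ 13)) ∧
        (∀ u v : evenVertices n, (nearGoldbachGraph n).edist u v ≤ C ∧
          (U ≤ (u : ℕ) → U ≤ (v : ℕ) → (nearGoldbachGraph n).edist u v ≤ 13))) := by
  classical
  obtain ⟨dT, hdT, NT, hT⟩ := hT
  obtain ⟨dM, c0, hdM, hdM2, hc0, hM⟩ := Pool.Agent.Lib.H18Q.main_pow
  obtain ⟨dO, hdO, hdO2, hO⟩ := of_main hO
  refine ⟨min (min dT dM) (dO / 2), lt_min (lt_min hdT hdM) (by linarith), fun a b ha hab hb => ?_⟩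
  have hbT : b < dT := hb.trans_le ((min_le_left _ _).trans (min_le_left _ _))
  have hbM : b < dM := hb.trans_le ((min_le_left _ _).trans (min_le_right _ _))
  have hbO : b < dO / 2 := hb.trans_le (min_le_right _ _)
  have hdT2 : dT ≤ 1 / 2 := by
    obtain ⟨δ, h1, h2, -⟩ := hT NT le_rfl
    exact h1.trans h2
  obtain ⟨n1, hn1, h1⟩ := fn_family fam_gold b dT (ha.trans hab) hbT hdT2 (max NT 1) (fun n hn => by
    obtain ⟨δ, k1, -, k3, -⟩ := hT n ((le_max_left _ _).trans hn)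
    exact gl_PT ((le_max_right _ _).trans hn) k1 k3)
  obtain ⟨n2, hn2, h2⟩ := fn_family fam_near b dT (ha.trans hab) hbT hdT2 (max NT 1) (fun n hn => by
    obtain ⟨δ, k1, -, -, k3⟩ := hT n ((le_max_left _ _).trans hn)
    exact gl_PT ((le_max_right _ _).trans hn) k1 k3)
  set n0 := max n1 n2 with hn0
  obtain ⟨E1, x1, hE11, hE12⟩ := fixed_set_pow dM c0 hM hdM2 ((a + b) / 2) b (by linarith) (by linarith) hbM n0
  obtain ⟨n3, hn3⟩ := Filter.eventually_atTop.1 (tendsto_natCast_atTop_atTop.eventually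
    ((tendsto_rpow_atTop (show 0 < dO / 2 by linarith)).eventually_ge_atTop ((2 : ℝ) * 2)))
  obtain ⟨n4, hn4⟩ := Filter.eventually_atTop.1 (tendsto_natCast_atTop_atTop.eventually
    ((tendsto_rpow_atTop (show 0 < (b - a) / 2 by linarith)).eventually_ge_atTop (2 : ℝ)))
  obtain ⟨F, x2, hF1, hF2, hF3⟩ := hO ((a + b) / 2) (by linarith) (max n3 1)
  set E : Set ℕ := E1 ∪ {u | Even u ∧ u / 2 ∈ F} with hE
  have hE2 : ∀ u : ℕ, Even u → u ∉ E → n0 ≤ u ∧ (u : ℝ) ^ (1 - b) ≤ reps u := fun u hu huE =>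
    hE12 u hu (fun h => huE (Or.inl h))
  have hE3 : ∀ u : ℕ, Even u → u ∉ E → u / 2 ∉ F := fun u hu huE h => huE (Or.inr ⟨hu, h⟩)
  set x0 := max (max x1 x2) (max n4 1) with hx0
  have hE1 : ∀ x : ℕ, x0 ≤ x → ((E ∩ Set.Icc 0 x).ncard : ℝ) ≤ (x : ℝ) ^ (1 - a) := by
    intro x hx
    have h3 := hE11 x (by omega)
    have h4 := hF1 x (by omega)
    have hx1 : (1 : ℝ) ≤ x := by exact_mod_cast (by omega : 1 ≤ x)
    have hxR : (0 : ℝ) < x := by linarith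
    have h5 : ({u | Even u ∧ u / 2 ∈ F} ∩ Set.Icc 0 x).ncard ≤ (F ∩ Set.Icc 0 x).ncard := by
      apply Set.ncard_le_ncard_of_injOn (fun u => u / 2)
      · rintro u ⟨⟨-, h2⟩, h3, h4⟩
        exact ⟨h2, Nat.zero_le _, (Nat.div_le_self _ _).trans h4⟩
      · rintro u ⟨⟨⟨k, hk⟩, -⟩, -⟩ v ⟨⟨⟨l, hl⟩, -⟩, -⟩ huv
        simp only at huv
        omega
    have h6 : (E ∩ Set.Icc 0 x).ncard ≤ (E1 ∩ Set.Icc 0 x).ncard + (F ∩ Set.Icc 0 x).ncard := by
      rw [hE, Set.union_inter_distrib_right]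
      exact (Set.ncard_union_le _ _).trans (Nat.add_le_add_left h5 _)
    have h7 : ((E ∩ Set.Icc 0 x).ncard : ℝ) ≤ (E1 ∩ Set.Icc 0 x).ncard + (F ∩ Set.Icc 0 x).ncard := by
      exact_mod_cast h6
    have h8 : (x : ℝ) ^ (1 - a) = (x : ℝ) ^ (1 - (a + b) / 2) * (x : ℝ) ^ ((b - a) / 2) := by
      rw [← Real.rpow_add hxR]
      congr 1
      ring
    have h9 := hn4 x (by omega)
    have h10 : (x : ℝ) ^ (1 - (a + b) / 2) * 2 ≤ (x : ℝ) ^ (1 - (a + b) / 2) * (x : ℝ) ^ ((b - a) / 2) :=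
      mul_le_mul_of_nonneg_left h9 (Real.rpow_nonneg hxR.le _)
    rw [h8]
    linarith
  have hoff : ∀ {V S : ℕ → Set ℕ}, Fam V S → ∀ n, Off E (min (min dT dM) (dO / 2)) (halfGraph (V n) (S n)) := by
    intro V S hVS n u v hu hv
    obtain ⟨k1, k2⟩ := fn_off hVS hdO (le_max_right n3 1) (fun x hx => hn3 x (by omega)) hF2 hE3 hF3 (by linarith) n u v hu hv
    refine ⟨k1, fun k3 k4 => k2 (k3.trans ?_) (k4.trans ?_)⟩
    · have hv1 : (1 : ℝ) ≤ ((v : ℕ) : ℝ) := by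
        have h3 := hF2 _ (hE3 _ (hVS.hV n v v.2).1 hv)
        exact_mod_cast (by omega : 1 ≤ (v : ℕ))
      exact Real.rpow_le_rpow_of_exponent_le hv1 (by linarith [min_le_right (min dT dM) (dO / 2)])
    · have hu1 : (1 : ℝ) ≤ ((u : ℕ) : ℝ) := by
        have h3 := hF2 _ (hE3 _ (hVS.hV n u u.2).1 hu)
        exact_mod_cast (by omega : 1 ≤ (u : ℕ))
      exact Real.rpow_le_rpow_of_exponent_le hu1 (by linarith [min_le_right (min dT dM) (dO / 2)])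
  have hg := fun n hn => h1 n0 (le_max_left _ _) n hn
  have hv := fun n hn => h2 n0 (le_max_right _ _) n hn
  have hz : ∀ m, (0 : ℕ) ∈ goldbachVertices m := fun m => ⟨Even.zero, Nat.zero_le _⟩
  refine ⟨E, n0, x0, hE1, hE2, fun n => ⟨hoff fam_gold n, hoff fam_near n⟩, fun n hn => ⟨fun u v hu hv' => (hg n hn).1 u v hu hv',
    fun u v hu hv' => (hg n hn).2 hz u v hu hv', fun u v hu hv' => (hv n hn).1 u v hu hv'⟩, ?_⟩
  rintro ⟨hG, U0, hU0⟩
  set U := max U0 n0 + 8 with hU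
  refine ⟨2 * (3 * U + 40), 2 * U + 20, U, fun n hn => ⟨?_, ?_⟩⟩
  · have hbig : ∀ u v : goldbachVertices n, U ≤ (u : ℕ) → U ≤ (v : ℕ) → (goldbachGraph n).edist u v ≤ 13 := by
      intro u v hu hv'
      exact (hg n (by omega)).1 u v (Or.inr ⟨by omega, hU0 u (by omega) u.2.1⟩) (Or.inr ⟨by omega, hU0 v (by omega) v.2.1⟩)
    have hV : ∀ a ∈ goldbachVertices n, Even a ∧ a ≤ 2 * n := fun a ha => ha
    have hV2 : ∀ x ∈ Finset.Icc 1 n, 2 * x ∈ goldbachVertices n := fun x hx => by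
      rw [Finset.mem_Icc] at hx
      exact ⟨even_two_mul x, by omega⟩
    have hS : ∀ m, m.Prime → Odd m → m < 2 * n → m ∈ {p | p.Prime ∧ Odd p ∧ p < 2 * n} :=
      fun m h1 h2 h3 => ⟨h1, h2, h3⟩
    have hmem : ∀ k, 2 * k ≤ 2 * n → 2 * k ∈ goldbachVertices n := fun k hk => ⟨even_two_mul k, hk⟩
    have hs : 2 * U ∈ goldbachVertices n := hmem U (by omega)
    obtain ⟨e0, e246⟩ := small_gold (V := goldbachVertices n) (S := {p | p.Prime ∧ Odd p ∧ p < 2 * n})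
      (hS 3 (by norm_num) (by decide) (by omega)) (hS 5 (by norm_num) (by decide) (by omega))
      (hS 7 (by norm_num) (by decide) (by omega)) (hS 11 (by norm_num) (by decide) (by omega))
      (hmem 0 (by omega)) (hmem 1 (by omega)) (hmem 2 (by omega)) (hmem 3 (by omega)) (hmem 4 (by omega))
      (hmem 5 (by omega)) (hmem 7 (by omega))
    have hC := q1_aux hG hV hV2 hS U (2 * U) hs (by omega) le_rfl e246
      (fun hu => ⟨6, hmem 3 (by omega), by omega, e0⟩) (fun u hu hUu => hbig ⟨u, hu⟩ ⟨2 * U, hs⟩ hUu (by simp only; omega))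
    exact fun u v => ⟨hC u v, hbig u v⟩
  · have hbig : ∀ u v : evenVertices n, U ≤ (u : ℕ) → U ≤ (v : ℕ) → (nearGoldbachGraph n).edist u v ≤ 13 := by
      intro u v hu hv'
      exact (hv n (by omega)).1 u v (Or.inr ⟨by omega, hU0 u (by omega) u.2.1⟩) (Or.inr ⟨by omega, hU0 v (by omega) v.2.1⟩)
    have hV : ∀ a ∈ evenVertices n, Even a ∧ a ≤ 2 * n := fun a ha => ⟨ha.1, ha.2.2⟩
    have hV2 : ∀ x ∈ Finset.Icc 1 n, 2 * x ∈ evenVertices n := fun x hx => by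
      rw [Finset.mem_Icc] at hx
      exact ⟨even_two_mul x, by omega, by omega⟩
    have hS : ∀ m, m.Prime → Odd m → m < 2 * n → m ∈ ({1} ∪ {p | p.Prime ∧ Odd p ∧ p < 2 * n} : Set ℕ) :=
      fun m h1 h2 h3 => Or.inr ⟨h1, h2, h3⟩
    have hmem : ∀ k, 1 ≤ k → 2 * k ≤ 2 * n → 2 * k ∈ evenVertices n :=
      fun k hk1 hk => ⟨even_two_mul k, by omega, hk⟩
    have hs : 2 * U ∈ evenVertices n := hmem U (by omega) (by omega)
    have e246 := small_near (V := evenVertices n) (S := ({1} ∪ {p | p.Prime ∧ Odd p ∧ p < 2 * n} : Set ℕ))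
      (Or.inl rfl)
      (hS 3 (by norm_num) (by decide) (by omega)) (hS 5 (by norm_num) (by decide) (by omega))
      (hmem 1 (by omega) (by omega)) (hmem 2 (by omega) (by omega)) (hmem 3 (by omega) (by omega))
    have hC := q1_aux hG hV hV2 hS U (2 * U) hs (by omega) le_rfl e246
      (fun hu => absurd hu.2.1 (by norm_num)) (fun u hu hUu => hbig ⟨u, hu⟩ ⟨2 * U, hs⟩ hUu (by simp only; omega))
    exact fun u v => ⟨hC u v, hbig u v⟩

end Pool.Agent.Lib.H18R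
end
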