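import Pool.Agent.Lib.H1M.RV2.M073
import Pool.Agent.Lib.H1M.RV2.M078
import Pool.Agent.Lib.H1M.RV2.M085
import Pool.Agent.Lib.H1M.RV2.M086
import Pool.Agent.Lib.H1M.RV2.M091
import Pool.Agent.Lib.H1M.RV2.M092
import Pool.Agent.Lib.H1M.RV2.M094

/-! Merged copies (to shorten the build) of Lib.H24Q.R2, Lib.H24Q.R3, Lib.H24Q.R6A, Lib.H24Q.R6B, Lib.H24Q.R7. -/

-- from Lib.H24Q.R2
section

/-!
# Project H24Q, chunk R2 (M): the sums over moduli of the singular series in mean square (port of `H24P/T2`, `H24P/T3`)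
-/

open Finset Polynomial

namespace Pool.Agent.Lib.H24Q

open Pool.Agent.Lib.H68T Pool.Agent.Lib.H18Q Pool.Agent.Lib.H59P Pool.Agent.Lib.H24P

/-- Proof. As `T2_mean` (`H24P/T2.lean`), with `ran P h` replaced by `φ` and `sys B P h` by `sy B φ`; `R1_mean`. -/
theorem R2_mean {k : ℕ} (B : ℤ[X]) (hB : B.natDegree = 1) (φ : Fin k → ℤ → ℤ) (hφ : Cp φ)
    (S D : Finset ℕ) (hS : ∀ l ∈ S, l.Prime ∧ ¬ l ∣ B.leadingCoeff.natAbs) (hD : D ⊆ S) :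
    ∑ n ∈ range (∏ l ∈ S, l), uu S (B.eval (n : ℤ)) * Wdf (∏ l ∈ D, l) (at' φ n) =
      ((∏ l ∈ S, l : ℕ) : ℝ) * tdf (∏ l ∈ D, l) (sy B φ) := by
  classical
  have hDp : (∏ l ∈ D, l).primeFactors = D := Nat.primeFactors_prod fun l hl => (hS l (hD hl)).1
  have hper : ∀ l : ℕ, ∀ n : ℤ, gl l (B.eval (n + l)) = gl l (B.eval n) := by
    intro l n
    rw [t2_eval B hB, t2_eval B hB]
    have h1 : B.coeff 0 + B.leadingCoeff * (n + l) =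
        (B.coeff 0 + B.leadingCoeff * n) + B.leadingCoeff * l := by ring
    rw [h1, gl_per]
  have hperW : ∀ l : ℕ, ∀ n : ℤ, Wf l (at' φ (n + l)) = Wf l (at' φ n) := by
    intro l n
    unfold Wf
    congr 1
    refine Finset.prod_congr rfl fun i _ => ?_
    congr 1
    exact P2_gl φ hφ l l dvd_rfl i n
  -- one prime
  have hone : ∀ l ∈ S, ∑ n ∈ range l, (1 + gl l (B.eval (n : ℤ))) * Wf l (at' φ n) =
      l * tpf l (sy B φ) := by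
    intro l hl
    obtain ⟨hlp, hlB⟩ := hS l hl
    have h1 := R1_mean B hB φ hφ l hlp.prime.squarefree ((Nat.Prime.coprime_iff_not_dvd hlp).2 hlB)
    have h2 : l.primeFactors = {l} := hlp.primeFactors
    unfold Wdf tdf uu at h1
    rw [h2] at h1
    simp only [Finset.prod_singleton] at h1
    exact h1
  set F : ℕ → ℤ → ℝ := fun l n =>
    (1 + gl l (B.eval n)) * (if l ∈ D then Wf l (at' φ n) else 1) with hF
  have h1 := b1_set F (fun l n => by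
    rw [hF]
    simp only
    rw [hper, hperW]) S (fun l hl => (hS l hl).1)
  have h2 : ∀ n ∈ range (∏ l ∈ S, l), uu S (B.eval (n : ℤ)) * Wdf (∏ l ∈ D, l) (at' φ n) =
      ∏ l ∈ S, F l n := by
    intro n _
    unfold uu Wdf
    rw [hDp, hF]
    simp only
    rw [Finset.prod_mul_distrib]
    congr 1
    rw [Finset.prod_ite_mem, Finset.inter_eq_right.2 hD]
  rw [Finset.sum_congr rfl h2, h1]
  have h3 : ∀ l ∈ S, ∑ n ∈ range l, F l n = (l : ℝ) * (if l ∈ D then tpf l (sy B φ) else 1) := by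
    intro l hl
    rw [hF]
    simp only
    split_ifs
    · exact hone l hl
    · simp only [mul_one]
      exact t2_one B hB l (hS l hl).1 (hS l hl).2
  rw [Finset.prod_congr rfl h3, Finset.prod_mul_distrib, Nat.cast_prod]
  congr 1
  unfold tdf
  rw [hDp, Finset.prod_ite_mem, Finset.inter_eq_right.2 hD]

/-- Proof. As `T2_iden` (`H24P/T2.lean`). -/
theorem R2_iden {k : ℕ} (B : ℤ[X]) (hB : B.natDegree = 1) (φ : Fin k → ℤ → ℤ) (hφ : Cp φ)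
    (S : Finset ℕ) (hS : ∀ l ∈ S, l.Prime ∧ ¬ l ∣ B.leadingCoeff.natAbs) (Z j : ℕ) (hj : 1 ≤ j)
    (Δ : Finset ℕ) (hΔ : ∀ d ∈ Δ, Squarefree d ∧ d ≤ Z ∧ d.primeFactors ⊆ S) :
    ∑ n ∈ Ico 0 (0 + (∏ l ∈ S, l) * j), ((uu S (B.eval (n : ℤ)) : ℝ) : ℂ) *
        ∑ κ ∈ (Fintype.piFinset fun _ : Fin k => KS Z 1).filter (fun κ => univ.lcm κ ∈ Δ),
          ∏ i, gk p0 (κ i) (φ i (n : ℤ)) =
      (((∏ l ∈ S, l) * j : ℕ) : ℂ) * ((∑ d ∈ Δ, tdf d (sy B φ) : ℝ) : ℂ) := by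
  classical
  set N : ℕ := ∏ l ∈ S, l with hN
  have hdvd : ∀ l ∈ S, l ∣ N := fun l hl => Finset.dvd_prod_of_mem (fun l => l) hl
  have hprod : ∀ d ∈ Δ, ∏ l ∈ d.primeFactors, l = d := fun d hd =>
    Nat.prod_primeFactors_of_squarefree (hΔ d hd).1
  have hdN : ∀ d ∈ Δ, d ∣ N := by
    intro d hd
    rw [← hprod d hd, hN]
    exact Finset.prod_dvd_prod_of_subset _ _ _ (hΔ d hd).2.2
  set f : ℤ → ℂ := fun n => ((uu S (B.eval n) * ∑ d ∈ Δ, Wdf d (at' φ n) : ℝ) : ℂ) with hf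
  have hper : ∀ n : ℤ, f (n + N) = f n := by
    intro n
    rw [hf]
    simp only
    congr 2
    · unfold uu
      refine Finset.prod_congr rfl fun l hl => ?_
      congr 1
      rw [t2_eval B hB, t2_eval B hB]
      obtain ⟨c, hc⟩ := hdvd l hl
      have h1 : B.coeff 0 + B.leadingCoeff * (n + (N : ℤ)) =
          (B.coeff 0 + B.leadingCoeff * n) + (B.leadingCoeff * c) * l := by
        rw [hc]
        push_cast
        ring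
      rw [h1, gl_per]
    · refine Finset.sum_congr rfl fun d hd => ?_
      exact P2_Wd φ hφ d N (hdN d hd) n
  have h1 : ∀ n ∈ Ico 0 (0 + N * j), ((uu S (B.eval (n : ℤ)) : ℝ) : ℂ) *
        ∑ κ ∈ (Fintype.piFinset fun _ : Fin k => KS Z 1).filter (fun κ => univ.lcm κ ∈ Δ),
          ∏ i, gk p0 (κ i) (φ i (n : ℤ)) = f ((n : ℕ) : ℤ) := by
    intro n _
    have h2 := t2_comp Z Δ (fun d hd => ⟨(hΔ d hd).1, (hΔ d hd).2.1⟩) (at' φ (n : ℤ))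
    have h3 : ∑ κ ∈ (Fintype.piFinset fun _ : Fin k => KS Z 1).filter (fun κ => univ.lcm κ ∈ Δ),
          ∏ i, gk p0 (κ i) (φ i (n : ℤ)) =
        ((∑ d ∈ Δ, Wdf d (at' φ (n : ℤ)) : ℝ) : ℂ) := h2
    rw [h3, hf]
    simp only
    rw [Complex.ofReal_mul]
  rw [Finset.sum_congr rfl h1, t2_per f N hper j]
  have h4 : ∑ n ∈ range N, f n = ((N * ∑ d ∈ Δ, tdf d (sy B φ) : ℝ) : ℂ) := by
    rw [hf]
    simp only
    rw [← Complex.ofReal_sum]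
    congr 1
    simp only [Finset.mul_sum]
    rw [Finset.sum_comm]
    refine Finset.sum_congr rfl fun d hd => ?_
    have h5 := R2_mean B hB φ hφ S d.primeFactors hS (hΔ d hd).2.2
    rw [hprod d hd] at h5
    exact h5
  rw [h4]
  push_cast
  ring

/-- Proof. As `T3_main` (`H24P/T3.lean`): `S` = the primes `l ≤ Q` not dividing `lc B`, `Z = Q²`, `R2_iden` with
`j = H0 + 1`, `N = (∏ S) (H0 + 1) ≥ H0`; `FW` at the level `Q²` (`fw2`) with `p = p0`, `D = E`, `a = 0`, `H = N`, the weight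
`w n = uu S (B n)`, whose mean square is at most `500 log Q` (`t3_sq`); divide by `N²`. `1 + log Q² ≤ 2 (1 + log Q)`. -/
theorem R2_ms {C c : ℝ} (hC : 1 ≤ C) {A Q H0 : ℕ} (hQ : 2 ≤ Q) {B : ℤ[X]} (hB : Lin A B) {k : ℕ}
    {Ω : Type} {S : Finset Ω} {φ : Ω → Fin k → ℤ → ℤ} (hF : FamW C c Q H0 B S φ) (Δ : Finset ℕ)
    (E : ℕ) (hE : 1 ≤ E) (hΔ : ∀ d ∈ Δ, Squarefree d ∧ E < d ∧ d ≤ Q ^ 2 ∧
      ∀ l ∈ d.primeFactors, l ≤ Q ∧ ¬ l ∣ B.leadingCoeff.natAbs) :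
    ∑ ω ∈ S, (∑ d ∈ Δ, tdf d (sy B (φ ω))) ^ 2 ≤
      500 * C * 2 ^ C * (1 + Real.log Q) ^ (C + 1) * S.card * (E : ℝ) ^ (-c) := by
  classical
  have hQr : (2 : ℝ) ≤ Q := by exact_mod_cast hQ
  have hlQ : 0 ≤ Real.log Q := Real.log_natCast_nonneg Q
  have hvs : (0 : ℝ) ≤ S.card := Nat.cast_nonneg _
  obtain ⟨S', hSdef⟩ : ∃ S' : Finset ℕ, S' = (pr Q).filter (fun l => ¬ l ∣ B.leadingCoeff.natAbs) :=
    ⟨_, rfl⟩
  have hS : ∀ l ∈ S', l.Prime ∧ l ≤ Q ∧ ¬ l ∣ B.leadingCoeff.natAbs := by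
    intro l hl
    rw [hSdef, mem_filter] at hl
    unfold pr at hl
    rw [mem_filter, mem_Icc] at hl
    exact ⟨hl.1.2, hl.1.1.2, hl.2⟩
  have hΔ' : ∀ d ∈ Δ, Squarefree d ∧ d ≤ Q ^ 2 ∧ d.primeFactors ⊆ S' := by
    intro d hd
    obtain ⟨h1, h2, h3, h4⟩ := hΔ d hd
    refine ⟨h1, h3, fun l hl => ?_⟩
    rw [hSdef, mem_filter]
    unfold pr
    rw [mem_filter, mem_Icc]
    have h5 := (Nat.mem_primeFactors.mp hl).1
    exact ⟨⟨⟨h5.one_lt.le, (h4 l hl).1⟩, h5⟩, (h4 l hl).2⟩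
  have hpS : 0 < ∏ l ∈ S', l := prod_pos fun l hl => (hS l hl).1.pos
  have hQ2 : 1 ≤ Q ^ 2 := Nat.one_le_pow _ _ (by omega)
  obtain ⟨N, hN⟩ : ∃ N : ℕ, N = (∏ l ∈ S', l) * (H0 + 1) := ⟨_, rfl⟩
  have hN0 : 0 < N := by
    rw [hN]
    exact Nat.mul_pos hpS (Nat.succ_pos _)
  have hNH : H0 ≤ N := by
    rw [hN]
    exact (Nat.le_succ H0).trans (Nat.le_mul_of_pos_left _ hpS)
  have hNr : (0 : ℝ) < N := by exact_mod_cast hN0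
  obtain ⟨T, hT⟩ : ∃ T : Finset (Fin k → ℕ), T = (Fintype.piFinset fun _ : Fin k => KS (Q ^ 2) 1).filter
    (fun κ => univ.lcm κ ∈ Δ) := ⟨_, rfl⟩
  have hFg := hF.fw2 (fun _ => p0) (fun _ => p0_mem hQ2) T (by rw [hT]; exact filter_subset _ _) E hE
    (by
      intro κ hκ
      rw [hT] at hκ
      have h1 := (mem_filter.mp hκ).2
      have h2 : (fun i => (p0).1 * κ i) = κ := by
        funext i
        exact one_mul _
      rw [h2]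
      exact (hΔ _ h1).2.1)
    (fun n => ((uu S' (B.eval (n : ℤ)) : ℝ) : ℂ)) 0 N hNH
  have hsq := t3_sq B hB.deg Q hQ (H0 + 1) S' hS
  rw [← hN] at hsq
  have hL : ∀ ω ∈ S, ‖∑ n ∈ Ico 0 (0 + N), ((uu S' (B.eval (n : ℤ)) : ℝ) : ℂ) *
      ∑ κ ∈ T, ∏ i, gk p0 (κ i) (φ ω i (n : ℤ))‖ ^ 2 =
      (N : ℝ) ^ 2 * (∑ d ∈ Δ, tdf d (sy B (φ ω))) ^ 2 := by
    intro ω hω
    have h1 := R2_iden B hB.deg (φ ω) (hF.cp ω hω) S' (fun l hl => ⟨(hS l hl).1, (hS l hl).2.2⟩)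
      (Q ^ 2) (H0 + 1) (by omega) Δ hΔ'
    rw [← hN, ← hT] at h1
    rw [h1, norm_mul, Complex.norm_natCast, Complex.norm_real, mul_pow, Real.norm_eq_abs, sq_abs]
  have hFg' : (N : ℝ) ^ 2 * ∑ ω ∈ S, (∑ d ∈ Δ, tdf d (sy B (φ ω))) ^ 2 ≤
      C * (1 + Real.log ((Q ^ 2 : ℕ) : ℝ)) ^ C * S.card *
        (N * ∑ n ∈ Ico 0 (0 + N), ‖((uu S' (B.eval (n : ℤ)) : ℝ) : ℂ)‖ ^ 2) * (E : ℝ) ^ (-c) := by
    rw [mul_sum, ← sum_congr rfl hL]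
    exact hFg
  have hlog2 : Real.log ((Q ^ 2 : ℕ) : ℝ) = 2 * Real.log Q := by
    rw [Nat.cast_pow, Real.log_pow]
    norm_num
  have hE0 : (0 : ℝ) ≤ (E : ℝ) ^ (-c) := Real.rpow_nonneg (Nat.cast_nonneg E) _
  have hpw : (1 + Real.log ((Q ^ 2 : ℕ) : ℝ)) ^ C ≤ 2 ^ C * (1 + Real.log Q) ^ C := by
    rw [hlog2, ← Real.mul_rpow (by norm_num) (by linarith)]
    exact Real.rpow_le_rpow (by linarith) (by linarith) (by linarith)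
  have hb1 : (N : ℝ) ^ 2 * ∑ ω ∈ S, (∑ d ∈ Δ, tdf d (sy B (φ ω))) ^ 2 ≤
      (N : ℝ) ^ 2 * (C * (2 ^ C * (1 + Real.log Q) ^ C) * S.card * (500 * (1 + Real.log Q)) *
        (E : ℝ) ^ (-c)) := by
    refine hFg'.trans ?_
    have h1 : (N : ℝ) * ∑ n ∈ Ico 0 (0 + N), ‖((uu S' (B.eval (n : ℤ)) : ℝ) : ℂ)‖ ^ 2 ≤
        N * (N * (500 * (1 + Real.log Q))) := by
      refine mul_le_mul_of_nonneg_left (hsq.trans ?_) hNr.le
      refine mul_le_mul_of_nonneg_left ?_ hNr.le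
      linarith
    calc C * (1 + Real.log ((Q ^ 2 : ℕ) : ℝ)) ^ C * S.card *
          (N * ∑ n ∈ Ico 0 (0 + N), ‖((uu S' (B.eval (n : ℤ)) : ℝ) : ℂ)‖ ^ 2) * (E : ℝ) ^ (-c)
        ≤ C * (2 ^ C * (1 + Real.log Q) ^ C) * S.card * (N * (N * (500 * (1 + Real.log Q)))) *
          (E : ℝ) ^ (-c) := by
          gcongr
      _ = _ := by ring
  have hb2 := le_of_mul_le_mul_left hb1 (by positivity)
  refine hb2.trans (le_of_eq ?_)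
  have h3 : (1 + Real.log Q) ^ C * (1 + Real.log Q) = (1 + Real.log Q) ^ (C + 1) := by
    rw [← Real.rpow_add_one (by linarith)]
  rw [← h3]
  ring

end Pool.Agent.Lib.H24Q
end

-- from Lib.H24Q.R3
section

/-!
# Project H24Q, chunk R3 (M): truncation of the singular series (port of `H24P/T5`)
-/

open Finset Polynomial

namespace Pool.Agent.Lib.H24Q

open Pool.Agent.Lib.H68T Pool.Agent.Lib.H18Q Pool.Agent.Lib.H59P Pool.Agent.Lib.H24P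

/-- **R3.** Proof. As `T5_main` (`H24P/T5.lean`): `t5_point` (with `C1 = C`, from `FamW.tp`), `t5_mink`, `t5_harm`, `t5_mv`
(with `a = |lc B| ∣ R`), `R2_ms`, `G1_size`, `G1_rlog`. (`A2_TM` in `H24Q/A2.lean` is the same without the linear
coordinate.) -/
theorem R3_TM (k A : ℕ) (C c : ℝ) (hC : 1 ≤ C) (hc : 0 < c) : ∃ c' : ℝ, 0 < c' ∧ ∃ Q0 : ℕ, ∀ Q : ℕ,
    Q0 ≤ Q → ∀ B : ℤ[X], Lin A B → ∀ (H0 : ℕ) (Ω : Type) (S : Finset Ω) (φ : Ω → Fin k → ℤ → ℤ),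
    FamW C c Q H0 B S φ → ∀ R : ℕ, 1 ≤ R → R ≤ fl Q (1 / 16) → B.leadingCoeff.natAbs ∣ R →
    ∑ ω ∈ S, (∑ d ∈ SF (fl Q (1 / 2) / R) R, tdf d (sy B (φ ω)) -
      SSf ((pr Q).filter (fun l => ¬ l ∣ R)) (sy B (φ ω))) ^ 2 ≤ S.card * (Q : ℝ) ^ (-c') := by
  obtain ⟨Q1, hQ1, hlog⟩ := G1_rlog ((1 + C * 500 ^ (k + 1)) ^ 2 * (500 * C * 2 ^ C))
    (2 * ((k : ℝ) + 2) + (C + 1)) (c / 8) (by linarith)
  obtain ⟨Q2, hQ2, hsize⟩ := G1_size 1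
  refine ⟨c / 8, by linarith, max 3 (max Q1 Q2), fun Q hQ B hB H0 Ω S φ hF R hR1 hR hBR => ?_⟩
  have hQ3 : 3 ≤ Q := (le_max_left _ _).trans hQ
  have hQQ1 : Q1 ≤ Q := (le_max_left _ _).trans ((le_max_right _ _).trans hQ)
  have hQQ2 : Q2 ≤ Q := (le_max_right _ _).trans ((le_max_right _ _).trans hQ)
  have hQr : (1 : ℝ) ≤ Q := by exact_mod_cast (show 1 ≤ Q by omega)
  have hQ0 : (0 : ℝ) < Q := by linarith
  have hL : 0 ≤ Real.log Q := Real.log_nonneg hQr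
  obtain ⟨-, -, -, hEE, hEbig⟩ := hsize Q hQQ2 1 1 le_rfl le_rfl (by rw [one_pow]; omega)
  have hEb := hEbig R hR1 hR
  have hone : (1 : ℝ) ≤ (Q : ℝ) ^ (1 / 4 : ℝ) := Real.one_le_rpow hQr (by norm_num)
  have hE1 : 1 ≤ fl Q (1 / 2) / R := by exact_mod_cast hone.trans hEb
  have hEQ : fl Q (1 / 2) / R ≤ Q := by
    refine (Nat.div_le_self _ _).trans ?_
    exact G1_le (by omega) (by norm_num) (by norm_num)
  set E := fl Q (1 / 2) / R with hE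
  set P' := (pr Q).filter (fun l => ¬ l ∣ R) with hP'
  have hsub : P' ⊆ pr Q := Finset.filter_subset _ _
  have hS0 : (0 : ℝ) ≤ S.card := Nat.cast_nonneg _
  have hE0 : (0 : ℝ) < E := by exact_mod_cast hE1
  have hmvs : ∀ j, j ≤ Q → ∑ ω ∈ S, (∑ d ∈ mv P' j E, tdf d (sy B (φ ω))) ^ 2 ≤
      500 * C * 2 ^ C * (1 + Real.log Q) ^ (C + 1) * S.card * (E : ℝ) ^ (-c) := fun j hj =>
    R2_ms hC (by omega) hB hF (mv P' j E) E hE1 (t5_mv hEQ hBR hj)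
  have hW : 0 ≤ 500 * C * 2 ^ C * (1 + Real.log Q) ^ (C + 1) * S.card * (E : ℝ) ^ (-c) := by
    have : 0 ≤ (1 + Real.log Q) ^ (C + 1) := Real.rpow_nonneg (by linarith) _
    have : 0 ≤ (E : ℝ) ^ (-c) := Real.rpow_nonneg hE0.le _
    positivity
  have hkey := t5_mink S P' (fun q => C / q * (500 * Real.log Q) ^ (k + 1))
    (fun q _ => by positivity)
    (fun ω => ∑ n ∈ mv P' Q E, tdf n (sy B (φ ω)))
    (fun q ω => ∑ n ∈ mv P' (q - 1) E, tdf n (sy B (φ ω)))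
    (fun ω => ∑ d ∈ SF E R, tdf d (sy B (φ ω)) - SSf P' (sy B (φ ω)))
    ((1 + C * 500 ^ (k + 1)) * (1 + Real.log Q) ^ (k + 2)) _ hW ?_ (hmvs Q le_rfl)
    (fun q hq => hmvs (q - 1) ?_) (fun ω hω => t5_point (sy B (φ ω)) C (fun l hl => hF.tp ω hω l hl)
      (by omega) hE1 hEQ hR1)
  · refine hkey.trans ?_
    have e1 : (E : ℝ) ^ (-c) ≤ (Q : ℝ) ^ (-(c / 4)) := by
      calc (E : ℝ) ^ (-c) ≤ ((Q : ℝ) ^ (1 / 4 : ℝ)) ^ (-c) :=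
            Real.rpow_le_rpow_of_nonpos (by linarith) hEb (by linarith)
        _ = (Q : ℝ) ^ (-(c / 4)) := by
            rw [← Real.rpow_mul hQ0.le]
            congr 1
            ring
    have e2 := hlog Q hQQ1
    have e3 : ((1 + C * 500 ^ (k + 1)) * (1 + Real.log Q) ^ (k + 2)) ^ 2 *
        (500 * C * 2 ^ C * (1 + Real.log Q) ^ (C + 1)) =
        (1 + C * 500 ^ (k + 1)) ^ 2 * (500 * C * 2 ^ C) *
          (1 + Real.log Q) ^ (2 * ((k : ℝ) + 2) + (C + 1)) := by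
      have hp : 0 < 1 + Real.log Q := by linarith
      have e4 : (1 + Real.log Q) ^ (2 * ((k : ℝ) + 2) + (C + 1)) =
          ((1 + Real.log Q) ^ (k + 2)) ^ 2 * (1 + Real.log Q) ^ (C + 1) := by
        rw [Real.rpow_add hp (2 * ((k : ℝ) + 2))]
        congr 1
        rw [← pow_mul, ← Real.rpow_natCast]
        congr 1
        push_cast
        ring
      rw [e4]
      ring
    calc ((1 + C * 500 ^ (k + 1)) * (1 + Real.log Q) ^ (k + 2)) ^ 2 *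
          (500 * C * 2 ^ C * (1 + Real.log Q) ^ (C + 1) * S.card * (E : ℝ) ^ (-c))
        = (((1 + C * 500 ^ (k + 1)) * (1 + Real.log Q) ^ (k + 2)) ^ 2 *
          (500 * C * 2 ^ C * (1 + Real.log Q) ^ (C + 1))) * S.card * (E : ℝ) ^ (-c) := by ring
      _ ≤ (Q : ℝ) ^ (c / 8) * S.card * (Q : ℝ) ^ (-(c / 4)) := by
          rw [e3]
          refine mul_le_mul (mul_le_mul_of_nonneg_right e2 hS0) e1 (Real.rpow_nonneg hE0.le _) ?_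
          exact mul_nonneg (Real.rpow_nonneg hQ0.le _) hS0
      _ = S.card * ((Q : ℝ) ^ (c / 8) * (Q : ℝ) ^ (-(c / 4))) := by ring
      _ = S.card * (Q : ℝ) ^ (-(c / 8)) := by
          rw [← Real.rpow_add hQ0]
          congr 2
          ring
  · have f1 := t5_harm Q P' hsub
    have f2 : ∑ q ∈ P', C / (q : ℝ) * (500 * Real.log Q) ^ (k + 1) =
        (C * (500 * Real.log Q) ^ (k + 1)) * ∑ q ∈ P', 1 / (q : ℝ) := by
      rw [Finset.mul_sum]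
      refine Finset.sum_congr rfl fun q _ => ?_
      ring
    rw [f2]
    have f3 : (500 * Real.log Q) ^ (k + 1) ≤ 500 ^ (k + 1) * (1 + Real.log Q) ^ (k + 1) := by
      rw [mul_pow]
      refine mul_le_mul_of_nonneg_left ?_ (by positivity)
      exact pow_le_pow_left₀ hL (by linarith) _
    have f4 : (1 : ℝ) ≤ (1 + Real.log Q) ^ (k + 2) := one_le_pow₀ (by linarith)
    have f6 : C * (500 * Real.log Q) ^ (k + 1) * ∑ q ∈ P', 1 / (q : ℝ) ≤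
        C * (500 ^ (k + 1) * (1 + Real.log Q) ^ (k + 1)) * (1 + Real.log Q) := by
      refine mul_le_mul (mul_le_mul_of_nonneg_left f3 (by linarith)) f1 ?_ ?_
      · exact Finset.sum_nonneg fun q _ => by positivity
      · have : 0 ≤ 1 + Real.log Q := by linarith
        positivity
    calc 1 + C * (500 * Real.log Q) ^ (k + 1) * ∑ q ∈ P', 1 / (q : ℝ)
        ≤ (1 + Real.log Q) ^ (k + 2) +
          C * (500 ^ (k + 1) * (1 + Real.log Q) ^ (k + 1)) * (1 + Real.log Q) := add_le_add f4 f6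
      _ = (1 + C * 500 ^ (k + 1)) * (1 + Real.log Q) ^ (k + 2) := by ring
  · have h7 := (Finset.mem_Icc.1 (Finset.mem_filter.1 (hsub hq)).1).2
    omega

end Pool.Agent.Lib.H24Q
end

-- from Lib.H24Q.R6A
section

/-!
# Project H24Q, chunk R6A (M): one cell, truncated main term (port of `H24P/Z2A`)
-/

open Finset Polynomial

namespace Pool.Agent.Lib.H24Q

open Pool.Agent.Lib.H68T Pool.Agent.Lib.H18Q Pool.Agent.Lib.H59P Pool.Agent.Lib.H24P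

/-- the function of a tuple of characters -/
noncomputable def r6a_f {k : ℕ} (Q : ℕ) (B : ℤ[X]) (a H : ℕ) (p : Fin (k + 1) → Ch) (φ : Fin k → ℤ → ℤ) : ℂ :=
  ∑ n ∈ Ico a (a + H), Fc (Q ^ 100) (p 0) (B.eval (n : ℤ)) *
    ∏ i : Fin k, Fc Q (p i.succ) (φ i (n : ℤ))

/-- the main term of a tuple of characters -/
noncomputable def r6a_g {k : ℕ} (Q m0 : ℕ) (B : ℤ[X]) (H : ℕ) (p : Fin (k + 1) → Ch) (φ : Fin k → ℤ → ℤ) : ℂ :=
  H * (MRf p (Rf m0 p) (sy B φ) *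
    ((∑ d ∈ SF (fl Q (1 / 2) / Rf m0 p) (Rf m0 p), tdf d (sy B φ) : ℝ) : ℂ))

theorem r6a_dec {k : ℕ} (Q m0 : ℕ) (hQ : 1 ≤ Q) (B : ℤ[X]) (φ : Fin k → ℤ → ℤ) (a H : ℕ)
    (c0 : Ch → ℂ) (c' : Fin k → Ch → ℂ) (f : (Fin (k + 1) → Ch) → ℂ)
    (hf1 : ∀ p ∈ TSf (k + 1) Q (fl Q (1 / 16)) m0, f p = r6a_f Q B a H p φ - r6a_g Q m0 B H p φ)
    (hf2 : ∀ p, p ∉ TSf (k + 1) Q (fl Q (1 / 16)) m0 → f p = r6a_f Q B a H p φ) :
    ∑ n ∈ Ico a (a + H), SG (Q ^ 100) c0 (B.eval (n : ℤ)) *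
        ∏ i, SG Q (c' i) (φ i (n : ℤ)) -
      H * MCf Q m0 (Fin.cons c0 c' : Fin (k + 1) → Ch → ℂ) (sy B φ) =
      ∑ p ∈ z2a_I k Q, (∏ i, (Fin.cons c0 c' : Fin (k + 1) → Ch → ℂ) i (p i)) * f p := by
  classical
  have h1 : ∑ n ∈ Ico a (a + H), SG (Q ^ 100) c0 (B.eval (n : ℤ)) *
        ∏ i, SG Q (c' i) (φ i (n : ℤ)) =
      ∑ p ∈ z2a_I k Q, (∏ i, (Fin.cons c0 c' : Fin (k + 1) → Ch → ℂ) i (p i)) *
        r6a_f Q B a H p φ := by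
    have e1 : ∀ n ∈ Ico a (a + H), SG (Q ^ 100) c0 (B.eval (n : ℤ)) *
        ∏ i, SG Q (c' i) (φ i (n : ℤ)) =
        ∑ p ∈ z2a_I k Q, (∏ i, (Fin.cons c0 c' : Fin (k + 1) → Ch → ℂ) i (p i)) *
          (Fc (Q ^ 100) (p 0) (B.eval (n : ℤ)) *
            ∏ i : Fin k, Fc Q (p i.succ) (φ i (n : ℤ))) :=
      fun n _ => Z2A_expand Q c0 c' _ (fun i => φ i (n : ℤ))
    rw [Finset.sum_congr rfl e1, Finset.sum_comm]
    refine Finset.sum_congr rfl fun p _ => ?_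
    unfold r6a_f
    rw [Finset.mul_sum]
  have h2 : (H : ℂ) * MCf Q m0 (Fin.cons c0 c' : Fin (k + 1) → Ch → ℂ) (sy B φ) =
      ∑ p ∈ z2a_I k Q, (if p ∈ TSf (k + 1) Q (fl Q (1 / 16)) m0 then
        (∏ i, (Fin.cons c0 c' : Fin (k + 1) → Ch → ℂ) i (p i)) * r6a_g Q m0 B H p φ else 0) := by
    rw [← Finset.sum_filter, Finset.filter_mem_eq_inter, Finset.inter_eq_right.mpr (z2a_sub hQ)]
    unfold MCf r6a_g
    rw [Finset.mul_sum]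
    refine Finset.sum_congr rfl fun p _ => ?_
    ring
  rw [h1, h2, ← Finset.sum_sub_distrib]
  refine Finset.sum_congr rfl fun p _ => ?_
  by_cases hp : p ∈ TSf (k + 1) Q (fl Q (1 / 16)) m0
  · rw [if_pos hp, hf1 p hp]
    ring
  · rw [if_neg hp, hf2 p hp, sub_zero]

/-- **R6A.** Proof. As `Z2A_cell` (`H24P/Z2A.lean`): `Z2A_expand` (general), `Z2a` of `H59P`, `R4_small`, `R5_large`; `z2a_dec`
with `ran P h` replaced by `φ`. -/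
theorem R6A_cell (k A : ℕ) (hA : 1 ≤ A) (C c : ℝ) (hC : 1 ≤ C) (hc : 0 < c) : ∃ c' : ℝ, 0 < c' ∧
    ∃ Q0 : ℕ, ∀ Q : ℕ, Q0 ≤ Q → ∀ B : ℤ[X], Lin A B → ∀ (H0 : ℕ) (Ω : Type) (S : Finset Ω)
    (φ : Ω → Fin k → ℤ → ℤ), FamW C c Q H0 B S φ → ∀ r : ℕ, 1 ≤ r → r ^ 100 ≤ Q →
    ∀ c0 : Ch → ℂ, ∑ p ∈ PC (Q ^ 100), ‖c0 p‖ ≤ 3 → ∀ cf : Fin k → Ch → ℂ,
    (∀ i, ∑ p ∈ PC Q, ‖cf i p‖ ≤ 3) → ∀ a H : ℕ, H0 ≤ H → Q ^ 600 ≤ H →
    ∑ ω ∈ S, ‖∑ n ∈ Ico a (a + H), SG (Q ^ 100) c0 (B.eval (n : ℤ)) *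
        ∏ i, SG Q (cf i) (φ ω i (n : ℤ)) -
      H * MCf Q (B.leadingCoeff.natAbs * r) (Fin.cons c0 cf : Fin (k + 1) → Ch → ℂ)
        (sy B (φ ω))‖ ^ 2 ≤
      S.card * (H : ℝ) ^ 2 * (Q : ℝ) ^ (-c') := by
  classical
  obtain ⟨c1, hc1, Q1, h1⟩ := R4_small k A hA C c hC hc
  obtain ⟨c2, hc2, Q2, h2⟩ := R5_large k A hA C c hC hc
  have hcm : 0 < min c1 c2 := lt_min hc1 hc2
  obtain ⟨Q3, hQ31, h3⟩ := G1_rlog (9 ^ (k + 1)) 0 (min c1 c2 / 2) (by linarith)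
  refine ⟨min c1 c2 / 2, by linarith, max 1 (max Q1 (max Q2 Q3)), ?_⟩
  intro Q hQ B hB H0 Ω S φ hF r hr1 hr c0 hc0 c' hc' a H hH0 hH
  have hQ1 : 1 ≤ Q := (le_max_left _ _).trans hQ
  have hQQ1 : Q1 ≤ Q := (le_max_left _ _).trans ((le_max_right _ _).trans hQ)
  have hQQ2 : Q2 ≤ Q := (le_max_left _ _).trans ((le_max_right _ _).trans ((le_max_right _ _).trans hQ))
  have hQQ3 : Q3 ≤ Q := (le_max_right _ _).trans ((le_max_right _ _).trans ((le_max_right _ _).trans hQ))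
  have hQ1r : (1 : ℝ) ≤ Q := by exact_mod_cast hQ1
  have hQ0r : (0 : ℝ) < Q := by linarith
  have hV : 0 ≤ (S.card : ℝ) * (H : ℝ) ^ 2 := mul_nonneg (Nat.cast_nonneg _) (sq_nonneg _)
  have h9 : (9 : ℝ) ^ (k + 1) ≤ (Q : ℝ) ^ (min c1 c2 / 2) := by
    have := h3 Q hQQ3
    rwa [Real.rpow_zero, mul_one] at this
  set m0 : ℕ := B.leadingCoeff.natAbs * r with hm0
  have hlc : 1 ≤ B.leadingCoeff.natAbs := by
    have hB0 : B ≠ 0 := by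
      intro h0
      have := hB.deg
      rw [h0, natDegree_zero] at this
      omega
    have : B.leadingCoeff ≠ 0 := leadingCoeff_ne_zero.2 hB0
    omega
  have hm01 : 1 ≤ m0 := Nat.mul_pos hlc hr1
  have hdvd : B.leadingCoeff.natAbs ∣ m0 := Dvd.intro _ rfl
  set W : ℝ := S.card * (H : ℝ) ^ 2 * (Q : ℝ) ^ (-(min c1 c2)) with hW
  have hW0 : 0 ≤ W := mul_nonneg hV (Real.rpow_nonneg hQ0r.le _)
  have hWle : ∀ c : ℝ, min c1 c2 ≤ c → S.card * (H : ℝ) ^ 2 * (Q : ℝ) ^ (-c) ≤ W := by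
    intro c hc
    exact mul_le_mul_of_nonneg_left (Real.rpow_le_rpow_of_exponent_le hQ1r (by linarith)) hV
  set f : (Fin (k + 1) → Ch) → Ω → ℂ := fun p h =>
    if p ∈ TSf (k + 1) Q (fl Q (1 / 16)) m0 then r6a_f Q B a H p (φ h) - r6a_g Q m0 B H p (φ h)
    else r6a_f Q B a H p (φ h) with hfdef
  have hf1 : ∀ p ∈ TSf (k + 1) Q (fl Q (1 / 16)) m0, ∀ h, f p h =
      r6a_f Q B a H p (φ h) - r6a_g Q m0 B H p (φ h) := by
    intro p hp h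
    rw [hfdef]
    exact if_pos hp
  have hf2 : ∀ p, p ∉ TSf (k + 1) Q (fl Q (1 / 16)) m0 → ∀ h, f p h = r6a_f Q B a H p (φ h) := by
    intro p hp h
    rw [hfdef]
    exact if_neg hp
  have hdec : ∀ h ∈ S, ‖∑ n ∈ Ico a (a + H), SG (Q ^ 100) c0 (B.eval (n : ℤ)) *
        ∏ i, SG Q (c' i) (φ h i (n : ℤ)) -
      H * MCf Q m0 (Fin.cons c0 c' : Fin (k + 1) → Ch → ℂ) (sy B (φ h))‖ ^ 2 =
      ‖∑ p ∈ z2a_I k Q, (∏ i, (Fin.cons c0 c' : Fin (k + 1) → Ch → ℂ) i (p i)) * f p h‖ ^ 2 := by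
    intro h _
    rw [r6a_dec Q m0 hQ1 B (φ h) a H c0 c' (fun p => f p h) (fun p hp => hf1 p hp h)
      (fun p hp => hf2 p hp h)]
  rw [Finset.sum_congr rfl hdec]
  have hmain := Z2a S (z2a_I k Q)
    (fun p => ∏ i, (Fin.cons c0 c' : Fin (k + 1) → Ch → ℂ) i (p i)) f (3 ^ (k + 1)) W hW0
    (z2a_gam Q c0 hc0 c' hc') ?_
  · refine hmain.trans ?_
    have e1 : ((3 : ℝ) ^ (k + 1)) ^ 2 = 9 ^ (k + 1) := by
      rw [← pow_mul, mul_comm, pow_mul]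
      norm_num
    have e2 : (Q : ℝ) ^ (-(min c1 c2 / 2)) = (Q : ℝ) ^ (min c1 c2 / 2) * (Q : ℝ) ^ (-(min c1 c2)) := by
      rw [← Real.rpow_add hQ0r]
      congr 1
      ring
    rw [e1, e2]
    have e3 := mul_le_mul_of_nonneg_right h9 hW0
    refine e3.trans (le_of_eq ?_)
    rw [hW]
    ring
  · intro p hp
    obtain ⟨hp0, hps⟩ := z2a_mem.1 hp
    by_cases hpT : p ∈ TSf (k + 1) Q (fl Q (1 / 16)) m0
    · have e1 := h1 Q hQQ1 B hB H0 Ω S φ hF m0 hm01 hdvd p hpT a H hH0 hH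
      have e2 : ∑ h ∈ S, ‖f p h‖ ^ 2 = ∑ h ∈ S,
          ‖∑ n ∈ Ico a (a + H), Fc (Q ^ 100) (p 0) (B.eval (n : ℤ)) *
              ∏ i : Fin k, Fc Q (p i.succ) (φ h i (n : ℤ)) -
            H * (MRf p (Rf m0 p) (sy B (φ h)) *
              ((∑ d ∈ SF (fl Q (1 / 2) / Rf m0 p) (Rf m0 p), tdf d (sy B (φ h)) : ℝ) : ℂ))‖ ^ 2 :=
        Finset.sum_congr rfl fun h _ => by rw [hf1 p hpT h]; rfl
      rw [e2]
      exact e1.trans (hWle c1 (min_le_left _ _))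
    · have e1 := h2 Q hQQ2 B hB H0 Ω S φ hF r hr1 hr p hp0 hps hpT a H hH0 hH
      have e2 : ∑ h ∈ S, ‖f p h‖ ^ 2 = ∑ h ∈ S,
          ‖∑ n ∈ Ico a (a + H), Fc (Q ^ 100) (p 0) (B.eval (n : ℤ)) *
              ∏ i : Fin k, Fc Q (p i.succ) (φ h i (n : ℤ))‖ ^ 2 :=
        Finset.sum_congr rfl fun h _ => by rw [hf2 p hpT h]; rfl
      rw [e2]
      exact e1.trans (hWle c2 (min_le_right _ _))

end Pool.Agent.Lib.H24Q
end

-- from Lib.H24Q.R6B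
section

/-!
# Project H24Q, chunk R6B (M): one cell, complete main term (port of `H24P/Z2B`)
-/

open Finset Polynomial

namespace Pool.Agent.Lib.H24Q

open Pool.Agent.Lib.H68T Pool.Agent.Lib.H18Q Pool.Agent.Lib.H59P Pool.Agent.Lib.H24P

/-- Proof. As `Z2B_main` (`H24P/Z2B.lean`), with `R3_TM` instead of `TMf`, `R1_cp` instead of `P2_sys`. -/
theorem R6B_compl (k A : ℕ) (hA : 1 ≤ A) (C c : ℝ) (hC : 1 ≤ C) (hc : 0 < c) : ∃ c' : ℝ, 0 < c' ∧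
    ∃ Q0 : ℕ, ∀ Q : ℕ, Q0 ≤ Q → ∀ B : ℤ[X], Lin A B → ∀ (H0 : ℕ) (Ω : Type) (S : Finset Ω)
    (φ : Ω → Fin k → ℤ → ℤ), FamW C c Q H0 B S φ → ∀ r : ℕ, 1 ≤ r → r ^ 100 ≤ Q →
    ∀ cf : Fin (k + 1) → Ch → ℂ, (∀ i, ∑ p ∈ PC Q, ‖cf i p‖ ≤ 3) →
    ∑ ω ∈ S, ‖MCf Q (B.leadingCoeff.natAbs * r) cf (sy B (φ ω)) -
      MDf Q (B.leadingCoeff.natAbs * r) cf (sy B (φ ω))‖ ^ 2 ≤ S.card * (Q : ℝ) ^ (-c') := by
  classical
  obtain ⟨c1, hc1, Q1, h1⟩ := R3_TM k A C c hC hc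
  obtain ⟨Q3, hQ31, h3⟩ := G1_rlog (36 ^ (k + 1)) ((2 * (k + 1) : ℕ) : ℝ) (c1 / 2) (by linarith)
  refine ⟨c1 / 2, by linarith, max 1 (max Q1 Q3), ?_⟩
  intro Q hQ B hB H0 Ω S φ hF r hr1 hr cf hcf
  have hQ1 : 1 ≤ Q := (le_max_left _ _).trans hQ
  have hQQ1 : Q1 ≤ Q := (le_max_left _ _).trans ((le_max_right _ _).trans hQ)
  have hQQ3 : Q3 ≤ Q := (le_max_right _ _).trans ((le_max_right _ _).trans hQ)
  have hQ0r : (0 : ℝ) < Q := by exact_mod_cast hQ1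
  have hlog0 : 0 ≤ Real.log Q := Real.log_natCast_nonneg Q
  have hV : (0 : ℝ) ≤ S.card := Nat.cast_nonneg _
  have hlc : 1 ≤ B.leadingCoeff.natAbs := by
    have hB0 : B ≠ 0 := by
      intro h0
      have := hB.deg
      rw [h0, natDegree_zero] at this
      omega
    have : B.leadingCoeff ≠ 0 := leadingCoeff_ne_zero.2 hB0
    omega
  set m0 : ℕ := B.leadingCoeff.natAbs * r with hm0
  have hm01 : 1 ≤ m0 := Nat.mul_pos hlc hr1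
  have hdvd : B.leadingCoeff.natAbs ∣ m0 := Dvd.intro _ rfl
  set D1 : ℕ := fl Q (1 / 16) with hD1
  have hD1Q : D1 ≤ Q := G1_le hQ1 (by norm_num) (by norm_num)
  set L1 : ℝ := (2 * (1 + Real.log Q)) ^ (k + 1) with hL1
  have hL10 : 0 ≤ L1 := by positivity
  set W : ℝ := L1 ^ 2 * (S.card * (Q : ℝ) ^ (-c1)) with hW
  have hQc0 : 0 ≤ (Q : ℝ) ^ (-c1) := Real.rpow_nonneg hQ0r.le _
  have hW0 : 0 ≤ W := mul_nonneg (sq_nonneg _) (mul_nonneg hV hQc0)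
  set f : (Fin (k + 1) → Ch) → Ω → ℂ := fun p ω =>
    MRf p (Rf m0 p) (sy B (φ ω)) *
      (((∑ d ∈ SF (fl Q (1 / 2) / Rf m0 p) (Rf m0 p), tdf d (sy B (φ ω)) -
        SSf ((pr Q).filter (fun l => ¬ l ∣ Rf m0 p)) (sy B (φ ω)) : ℝ) : ℂ)) with hfdef
  have hdec : ∀ ω ∈ S, ‖MCf Q m0 cf (sy B (φ ω)) - MDf Q m0 cf (sy B (φ ω))‖ ^ 2 =
      ‖∑ p ∈ TSf (k + 1) Q D1 m0, (∏ i, cf i (p i)) * f p ω‖ ^ 2 := by
    intro ω hω
    congr 2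
    unfold MCf MDf
    rw [← Finset.sum_sub_distrib]
    refine Finset.sum_congr rfl fun p hp => ?_
    obtain ⟨hR0, hRD, hd, hmR⟩ := z2b_R Q D1 m0 hm01 p hp
    have hfac : Rf m0 p ∣ Q.factorial := Nat.dvd_factorial hR0 (hRD.trans hD1Q)
    have e1 := P3_M5 (sy B (φ ω)) (R1_cp B (φ ω) (hF.cp ω hω)) Q (Rf m0 p) hR0 hfac p hd
    rw [← e1, hfdef]
    beta_reduce
    rw [Complex.ofReal_sub]
    ring
  rw [Finset.sum_congr rfl hdec]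
  have hmain := Z2a S (TSf (k + 1) Q D1 m0) (fun p => ∏ i, cf i (p i)) f (3 ^ (k + 1)) W hW0
    (z2b_gam Q D1 m0 cf hcf) ?_
  · refine hmain.trans ?_
    have e1 : ((3 : ℝ) ^ (k + 1)) ^ 2 * L1 ^ 2 =
        36 ^ (k + 1) * (1 + Real.log Q) ^ ((2 * (k + 1) : ℕ) : ℝ) := by
      rw [hL1, Real.rpow_natCast, ← mul_pow, ← mul_pow, ← pow_mul, mul_comm (k + 1) 2, pow_mul,
        pow_mul, ← mul_pow]
      congr 1
      ring
    have e2 : (Q : ℝ) ^ (-(c1 / 2)) = (Q : ℝ) ^ (c1 / 2) * (Q : ℝ) ^ (-c1) := by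
      rw [← Real.rpow_add hQ0r]
      congr 1
      ring
    have e3 := h3 Q hQQ3
    have e4 : ((3 : ℝ) ^ (k + 1)) ^ 2 * W =
        (((3 : ℝ) ^ (k + 1)) ^ 2 * L1 ^ 2) * (S.card * (Q : ℝ) ^ (-c1)) := by
      rw [hW]
      ring
    rw [e4, e1, e2]
    have e5 := mul_le_mul_of_nonneg_right e3 (mul_nonneg hV hQc0)
    refine e5.trans (le_of_eq ?_)
    ring
  · intro p hp
    obtain ⟨hR0, hRD, hd, hmR⟩ := z2b_R Q D1 m0 hm01 p hp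
    have hRQ : Rf m0 p ≤ Q := hRD.trans hD1Q
    have e1 := h1 Q hQQ1 B hB H0 Ω S φ hF (Rf m0 p) hR0 hRD (hdvd.trans hmR)
    rw [hW]
    refine le_trans ?_ (mul_le_mul_of_nonneg_left e1 (sq_nonneg L1))
    rw [Finset.mul_sum]
    refine Finset.sum_le_sum fun h _ => ?_
    rw [hfdef]
    beta_reduce
    rw [norm_mul, Complex.norm_real, mul_pow, Real.norm_eq_abs, sq_abs]
    refine mul_le_mul_of_nonneg_right ?_ (sq_nonneg _)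
    exact pow_le_pow_left₀ (norm_nonneg _) (z2b_MR Q p (Rf m0 p) hR0 hRQ _) 2

/-- **R6.** Proof. `R6A_cell`, `R6B_compl` times `H²` (`∑_{PC Q} ‖c0‖ ≤ ∑_{PC (Q^100)} ‖c0‖ ≤ 3`: `z2f_PC`-type,
`PC Q ⊆ PC (Q^100)`), `‖x + y‖² ≤ 2‖x‖² + 2‖y‖²`. -/
theorem R6_cell (k A : ℕ) (hA : 1 ≤ A) (C c : ℝ) (hC : 1 ≤ C) (hc : 0 < c) : ∃ c' : ℝ, 0 < c' ∧
    ∃ Q0 : ℕ, ∀ Q : ℕ, Q0 ≤ Q → ∀ B : ℤ[X], Lin A B → ∀ (H0 : ℕ) (Ω : Type) (S : Finset Ω)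
    (φ : Ω → Fin k → ℤ → ℤ), FamW C c Q H0 B S φ → ∀ r : ℕ, 1 ≤ r → r ^ 100 ≤ Q →
    ∀ c0 : Ch → ℂ, ∑ p ∈ PC (Q ^ 100), ‖c0 p‖ ≤ 3 → ∀ cf : Fin k → Ch → ℂ,
    (∀ i, ∑ p ∈ PC Q, ‖cf i p‖ ≤ 3) → ∀ a H : ℕ, H0 ≤ H → Q ^ 600 ≤ H →
    ∑ ω ∈ S, ‖∑ n ∈ Ico a (a + H), SG (Q ^ 100) c0 (B.eval (n : ℤ)) *
        ∏ i, SG Q (cf i) (φ ω i (n : ℤ)) -
      H * MDf Q (B.leadingCoeff.natAbs * r) (Fin.cons c0 cf : Fin (k + 1) → Ch → ℂ)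
        (sy B (φ ω))‖ ^ 2 ≤
      S.card * (H : ℝ) ^ 2 * (Q : ℝ) ^ (-c') := by
  classical
  obtain ⟨c1, hc1, Q1, h1⟩ := R6A_cell k A hA C c hC hc
  obtain ⟨c2, hc2, Q2, h2⟩ := R6B_compl k A hA C c hC hc
  have hm : 0 < min c1 c2 := lt_min hc1 hc2
  obtain ⟨Q3, hQ31, h3⟩ := G1_rlog 4 0 (min c1 c2 / 2) (by linarith)
  refine ⟨min c1 c2 / 2, by linarith, max (max 1 Q3) (max Q1 Q2), ?_⟩
  intro Q hQ B hB H0 Ω S φ hF r hr1 hr c0 hc0 cf hcf a H hH0 hH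
  have hQ1 : 1 ≤ Q := (le_max_left _ _).trans ((le_max_left _ _).trans hQ)
  have hQQ3 : Q3 ≤ Q := (le_max_right _ _).trans ((le_max_left _ _).trans hQ)
  have hQQ1 : Q1 ≤ Q := (le_max_left _ _).trans ((le_max_right _ _).trans hQ)
  have hQQ2 : Q2 ≤ Q := (le_max_right _ _).trans ((le_max_right _ _).trans hQ)
  have hQ0r : (0 : ℝ) < Q := by exact_mod_cast hQ1
  have hQ1r : (1 : ℝ) ≤ Q := by exact_mod_cast hQ1
  have e1 := h1 Q hQQ1 B hB H0 Ω S φ hF r hr1 hr c0 hc0 cf hcf a H hH0 hH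
  have hc0' : ∑ p ∈ PC Q, ‖c0 p‖ ≤ 3 := by
    refine le_trans (Finset.sum_le_sum_of_subset_of_nonneg ?_ fun p _ _ => norm_nonneg _) hc0
    intro p hp
    rw [mem_PC] at hp ⊢
    exact ⟨hp.1, hp.2.1.trans (Nat.le_self_pow (by norm_num) _), hp.2.2⟩
  have e2 := h2 Q hQQ2 B hB H0 Ω S φ hF r hr1 hr (Fin.cons c0 cf : Fin (k + 1) → Ch → ℂ)
    (fun i => by
      refine Fin.cases ?_ (fun j => ?_) i
      · simp only [Fin.cons_zero]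
        exact hc0'
      · simp only [Fin.cons_succ]
        exact hcf j)
  set X : Ω → ℂ := fun ω => ∑ n ∈ Ico a (a + H), SG (Q ^ 100) c0 (B.eval (n : ℤ)) *
        ∏ i, SG Q (cf i) (φ ω i (n : ℤ)) with hX
  set Y : Ω → ℂ := fun ω => MCf Q (B.leadingCoeff.natAbs * r)
    (Fin.cons c0 cf : Fin (k + 1) → Ch → ℂ) (sy B (φ ω)) with hY
  set Z : Ω → ℂ := fun ω => MDf Q (B.leadingCoeff.natAbs * r)
    (Fin.cons c0 cf : Fin (k + 1) → Ch → ℂ) (sy B (φ ω)) with hZ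
  have hpt : ∀ ω ∈ S, ‖X ω - H * Z ω‖ ^ 2 ≤ 2 * ‖X ω - H * Y ω‖ ^ 2 + 2 * ((H : ℝ) ^ 2 * ‖Y ω - Z ω‖ ^ 2) := by
    intro ω _
    have g1 : X ω - H * Z ω = (X ω - H * Y ω) + H * (Y ω - Z ω) := by ring
    have g2 : ‖X ω - H * Z ω‖ ≤ ‖X ω - H * Y ω‖ + H * ‖Y ω - Z ω‖ := by
      rw [g1]
      refine (norm_add_le _ _).trans (le_of_eq ?_)
      rw [norm_mul, Complex.norm_natCast]
    calc ‖X ω - H * Z ω‖ ^ 2 ≤ (‖X ω - H * Y ω‖ + H * ‖Y ω - Z ω‖) ^ 2 :=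
          pow_le_pow_left₀ (norm_nonneg _) g2 2
      _ ≤ 2 * ‖X ω - H * Y ω‖ ^ 2 + 2 * ((H : ℝ) ^ 2 * ‖Y ω - Z ω‖ ^ 2) := by
          nlinarith [sq_nonneg (‖X ω - H * Y ω‖ - H * ‖Y ω - Z ω‖)]
  have hH2 : (0 : ℝ) ≤ (H : ℝ) ^ 2 := sq_nonneg _
  have hV : (0 : ℝ) ≤ S.card := Nat.cast_nonneg _
  have e3 : (Q : ℝ) ^ (-c1) ≤ (Q : ℝ) ^ (-(min c1 c2)) :=
    Real.rpow_le_rpow_of_exponent_le hQ1r (neg_le_neg (min_le_left _ _))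
  have e4 : (Q : ℝ) ^ (-c2) ≤ (Q : ℝ) ^ (-(min c1 c2)) :=
    Real.rpow_le_rpow_of_exponent_le hQ1r (neg_le_neg (min_le_right _ _))
  have e5 : 4 ≤ (Q : ℝ) ^ (min c1 c2 / 2) := by
    have := h3 Q hQQ3
    rwa [Real.rpow_zero, mul_one] at this
  have e6 : (Q : ℝ) ^ (-(min c1 c2 / 2)) = (Q : ℝ) ^ (min c1 c2 / 2) * (Q : ℝ) ^ (-(min c1 c2)) := by
    rw [← Real.rpow_add hQ0r]
    congr 1
    ring
  have hq0 : 0 ≤ (Q : ℝ) ^ (-(min c1 c2)) := Real.rpow_nonneg hQ0r.le _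
  calc ∑ ω ∈ S, ‖X ω - H * Z ω‖ ^ 2
      ≤ ∑ ω ∈ S, (2 * ‖X ω - H * Y ω‖ ^ 2 + 2 * ((H : ℝ) ^ 2 * ‖Y ω - Z ω‖ ^ 2)) :=
        Finset.sum_le_sum hpt
    _ = 2 * ∑ ω ∈ S, ‖X ω - H * Y ω‖ ^ 2 + 2 * ((H : ℝ) ^ 2 * ∑ ω ∈ S, ‖Y ω - Z ω‖ ^ 2) := by
        rw [Finset.sum_add_distrib, ← Finset.mul_sum, ← Finset.mul_sum, ← Finset.mul_sum]
    _ ≤ 2 * (S.card * (H : ℝ) ^ 2 * (Q : ℝ) ^ (-c1)) + 2 * ((H : ℝ) ^ 2 * (S.card * (Q : ℝ) ^ (-c2))) := by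
        have := mul_le_mul_of_nonneg_left e2 hH2
        linarith
    _ ≤ 2 * (S.card * (H : ℝ) ^ 2 * (Q : ℝ) ^ (-(min c1 c2))) +
          2 * ((H : ℝ) ^ 2 * (S.card * (Q : ℝ) ^ (-(min c1 c2)))) := by
        have g1 := mul_le_mul_of_nonneg_left e3 (mul_nonneg hV hH2)
        have g2 := mul_le_mul_of_nonneg_left (mul_le_mul_of_nonneg_left e4 hV) hH2
        linarith
    _ = 4 * (S.card * (H : ℝ) ^ 2 * (Q : ℝ) ^ (-(min c1 c2))) := by ring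
    _ ≤ (Q : ℝ) ^ (min c1 c2 / 2) * (S.card * (H : ℝ) ^ 2 * (Q : ℝ) ^ (-(min c1 c2))) :=
        mul_le_mul_of_nonneg_right e5 (mul_nonneg (mul_nonneg hV hH2) hq0)
    _ = S.card * (H : ℝ) ^ 2 * (Q : ℝ) ^ (-(min c1 c2 / 2)) := by rw [e6]; ring

end Pool.Agent.Lib.H24Q
end

-- from Lib.H24Q.R7
section

/-!
# Project H24Q, chunk R7 (M): Fourier uniform weights (port of `H24P/W1`, `W3_cell`)
-/

open Finset Polynomial

namespace Pool.Agent.Lib.H24Q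

open Pool.Agent.Lib.H68T Pool.Agent.Lib.H18Q Pool.Agent.Lib.H59P Pool.Agent.Lib.H24P

/-- Proof. As `W1_small` (`H24P/W1.lean`); the product has period `lcm(r_i κ_i)` in `n` by `Cp φ`. -/
theorem R7_small {k : ℕ} (φ : Fin k → ℤ → ℤ) (hφ : Cp φ) (Q D : ℕ) (hD : 1 ≤ D) (p : Fin k → Ch)
    (hp : ∀ i, p i ∈ PC Q) (T : Finset (Fin k → ℕ)) (hT : T ⊆ Fintype.piFinset (fun i => KS Q (p i).1))
    (hTD : ∀ κ ∈ T, univ.lcm (fun i => (p i).1 * κ i) ≤ D) (f : ℕ → ℂ) (I : Finset ℕ) (δ : ℝ)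
    (hf : ∀ θ : ℝ, ‖∑ n ∈ I, f n * e ((n : ℝ) * θ)‖ ≤ δ) :
    ‖∑ n ∈ I, f n * ∑ κ ∈ T, ∏ i, gk (p i) (κ i) (φ i (n : ℤ))‖ ≤ (D : ℝ) ^ (2 * k + 1) * δ := by
  have hδ : 0 ≤ δ := (norm_nonneg _).trans (hf 0)
  have hDr : (1 : ℝ) ≤ D := by exact_mod_cast hD
  have h1 : ∑ n ∈ I, f n * ∑ κ ∈ T, ∏ i, gk (p i) (κ i) (φ i (n : ℤ))
      = ∑ κ ∈ T, ∑ n ∈ I, f n * ∏ i, gk (p i) (κ i) (φ i (n : ℤ)) := by
    simp_rw [mul_sum]
    exact sum_comm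
  rw [h1]
  refine (norm_sum_le _ _).trans ?_
  have hKS : ∀ κ ∈ T, ∀ i, κ i ∈ KS Q (p i).1 := fun κ hκ i => Fintype.mem_piFinset.mp (hT hκ) i
  have hle : ∀ κ ∈ T, ∀ i, (p i).1 * κ i ≤ D := by
    intro κ hκ i
    have hpos : 0 < univ.lcm (fun i => (p i).1 * κ i) := by
      rw [Nat.pos_iff_ne_zero, Ne, Finset.lcm_eq_zero_iff]
      rintro ⟨j, -, hj⟩
      have h2 := (mem_PC.1 (hp j)).1
      have h3 := (CA_mem_KS.1 (hKS κ hκ j)).1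
      have h4 : 1 ≤ κ j := h3.1
      have h5 : 0 < (p j).1 * κ j := Nat.mul_pos h2 h4
      omega
    exact (Nat.le_of_dvd hpos (dvd_lcm (mem_univ i))).trans (hTD κ hκ)
  have h2 : ∀ κ ∈ T, ‖∑ n ∈ I, f n * ∏ i, gk (p i) (κ i) (φ i (n : ℤ))‖
      ≤ (D : ℝ) ^ (k + 1) * δ := by
    intro κ hκ
    set N : ℕ := univ.lcm (fun i => (p i).1 * κ i) with hN
    have hND : N ≤ D := hTD κ hκ
    have hN0 : 0 < N := by
      rw [Nat.pos_iff_ne_zero, hN, Ne, Finset.lcm_eq_zero_iff]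
      rintro ⟨j, -, hj⟩
      have h2 := (mem_PC.1 (hp j)).1
      have h3 := (CA_mem_KS.1 (hKS κ hκ j)).1
      have h4 : 1 ≤ κ j := h3.1
      have h5 : 0 < (p j).1 * κ j := Nat.mul_pos h2 h4
      omega
    have h3 := W1_per f I δ hf N hN0 (fun n => ∏ i, gk (p i) (κ i) (φ i n)) (by
      intro n
      refine prod_congr rfl fun i _ => ?_
      have h4 : (((p i).1 * κ i : ℕ) : ℤ) ∣ φ i (n + N) - φ i n := by
        refine dvd_trans ?_ (hφ i N n)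
        have h6 : (p i).1 * κ i ∣ N := dvd_lcm (mem_univ i)
        exact_mod_cast h6
      obtain ⟨j, hj⟩ := h4
      have h7 : φ i (n + N) = φ i n + (((p i).1 * κ i : ℕ) : ℤ) * j := by
        linarith
      rw [h7]
      exact gk_period _ _ _ _) ((D : ℝ) ^ k) (by
      intro n
      rw [norm_prod]
      calc ∏ i, ‖gk (p i) (κ i) (φ i n)‖ ≤ ∏ _i : Fin k, (D : ℝ) := by
            refine prod_le_prod (fun i _ => norm_nonneg _) fun i _ => ?_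
            obtain ⟨hr1, hrQ, hprim⟩ := mem_PC.1 (hp i)
            obtain ⟨hI, hsq, hcop⟩ := CA_mem_KS.1 (hKS κ hκ i)
            have hk1 : 1 ≤ κ i := hI.1
            have hiD := hle κ hκ i
            refine gk_bound D (p i) (mem_PC.2 ⟨hr1, ?_, hprim⟩) (κ i) (CA_mem_KS.2 ⟨?_, hsq, hcop⟩) _
            · exact (Nat.le_mul_of_pos_right _ hk1).trans hiD
            · refine ⟨hk1, ?_⟩
              rw [Nat.le_div_iff_mul_le hr1, mul_comm]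
              exact hiD
        _ = (D : ℝ) ^ k := by rw [prod_const, card_univ, Fintype.card_fin])
    refine h3.trans ?_
    have hNr : (N : ℝ) ≤ D := by exact_mod_cast hND
    calc (N : ℝ) * (D : ℝ) ^ k * δ ≤ D * (D : ℝ) ^ k * δ := by gcongr
      _ = (D : ℝ) ^ (k + 1) * δ := by ring
  refine (sum_le_sum h2).trans ?_
  rw [sum_const, nsmul_eq_mul]
  have hcard : (T.card : ℝ) ≤ (D : ℝ) ^ k := by
    have h3 : T ⊆ Fintype.piFinset (fun _ : Fin k => Icc 1 D) := by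
      intro κ hκ
      refine Fintype.mem_piFinset.mpr fun i => ?_
      obtain ⟨hI, -, -⟩ := CA_mem_KS.1 (hKS κ hκ i)
      have hr1 := (mem_PC.1 (hp i)).1
      refine mem_Icc.mpr ⟨hI.1, ?_⟩
      exact (Nat.le_mul_of_pos_left _ hr1).trans (hle κ hκ i)
    have h4 := card_le_card h3
    rw [Fintype.card_piFinset] at h4
    simp only [Nat.card_Icc, add_tsub_cancel_right, prod_const, card_univ, Fintype.card_fin] at h4
    exact_mod_cast h4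
  calc (T.card : ℝ) * ((D : ℝ) ^ (k + 1) * δ) ≤ (D : ℝ) ^ k * ((D : ℝ) ^ (k + 1) * δ) :=
        mul_le_mul_of_nonneg_right hcard (by positivity)
    _ = (D : ℝ) ^ (2 * k + 1) * δ := by ring

/-- Proof. As `W1_cell` (`H24P/W1.lean`), `FW` instead of `Fgen`. -/
theorem R7_w1 (k : ℕ) (C c : ℝ) (hC : 1 ≤ C) (hc : 0 < c) : ∃ C' c' : ℝ, 1 ≤ C' ∧ 0 < c' ∧ c' ≤ 1 ∧
    ∀ Q : ℕ, 1 ≤ Q → ∀ (H0 : ℕ) (Ω : Type) (S : Finset Ω) (φ : Ω → Fin k → ℤ → ℤ),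
    FW C c Q H0 S φ → (∀ ω ∈ S, Cp (φ ω)) → ∀ p : Fin k → Ch, (∀ i, p i ∈ PC Q) →
    ∀ a H : ℕ, H0 ≤ H → Q ≤ H → ∀ (f : ℕ → ℂ) (Ws : ℝ), 0 ≤ Ws →
    ∑ n ∈ Ico a (a + H), ‖f n‖ ^ 2 ≤ H * Ws →
    (∀ θ : ℝ, ‖∑ n ∈ Ico a (a + H), f n * e ((n : ℝ) * θ)‖ ≤ H / (Q : ℝ) ^ 2) →
    ∑ ω ∈ S, ‖∑ n ∈ Ico a (a + H), f n * ∏ i, Fc Q (p i) (φ ω i (n : ℤ))‖ ^ 2 ≤
      S.card * (H : ℝ) ^ 2 * (C' * (1 + Real.log Q) ^ C' * (Ws + 1) * (Q : ℝ) ^ (-c')) := by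
  classical
  obtain ⟨cc, hcc0, hcc1, hccc⟩ : ∃ cc : ℝ, 0 < cc ∧ cc ≤ 1 ∧ cc ≤ c :=
    ⟨min c 1, lt_min hc one_pos, min_le_right _ _, min_le_left _ _⟩
  set x : ℝ := 1 / (2 * k + 2) with hx
  have hx0 : 0 < x := by positivity
  have hx1 : x ≤ 1 := by
    rw [hx, div_le_one (by positivity)]
    have : (0 : ℝ) ≤ k := by positivity
    linarith
  refine ⟨4 * C + 2, cc * x, by linarith, mul_pos hcc0 hx0, ?_, ?_⟩
  · calc cc * x ≤ 1 * 1 := mul_le_mul hcc1 hx1 hx0.le zero_le_one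
      _ = 1 := one_mul 1
  intro Q hQ H0 Ω S φ hFW hCp p hp a H hH0 hQH f Ws hWs hf2 hfe
  set D : ℕ := fl Q x with hD
  obtain ⟨hD1, hD2, -⟩ := G1_one hQ hx0.le
  rw [← hD] at hD1 hD2
  have hQr : (1 : ℝ) ≤ Q := by exact_mod_cast hQ
  have hQp : (0 : ℝ) < Q := by linarith
  have hHr : (0 : ℝ) ≤ H := by positivity
  have hvol : (0 : ℝ) ≤ S.card := Nat.cast_nonneg _
  have hl : 0 ≤ Real.log Q := Real.log_natCast_nonneg Q
  set T0 := Fintype.piFinset (fun i => KS Q (p i).1) with hT0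
  set T1 := T0.filter (fun κ => univ.lcm (fun i => (p i).1 * κ i) ≤ D) with hT1
  set T2 := T0.filter (fun κ => ¬ univ.lcm (fun i => (p i).1 * κ i) ≤ D) with hT2
  have hsplit : ∀ ω : Ω, ∑ n ∈ Ico a (a + H), f n * ∏ i, Fc Q (p i) (φ ω i (n : ℤ))
      = ∑ n ∈ Ico a (a + H), f n * ∑ κ ∈ T1, ∏ i, gk (p i) (κ i) (φ ω i (n : ℤ))
        + ∑ n ∈ Ico a (a + H), f n * ∑ κ ∈ T2, ∏ i, gk (p i) (κ i) (φ ω i (n : ℤ)) := by
    intro ω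
    rw [← sum_add_distrib]
    refine sum_congr rfl fun n _ => ?_
    rw [← mul_add, hT1, hT2, sum_filter_add_sum_filter_not]
    congr 1
    unfold Fc
    rw [hT0, prod_univ_sum]
  have hA1 : ∀ ω ∈ S,
      ‖∑ n ∈ Ico a (a + H), f n * ∑ κ ∈ T1, ∏ i, gk (p i) (κ i) (φ ω i (n : ℤ))‖ ≤ H / Q := by
    intro ω hω
    have h1 := R7_small (φ ω) (hCp ω hω) Q D hD1 p hp T1 (filter_subset _ _)
      (fun κ hκ => (mem_filter.mp hκ).2) f (Ico a (a + H)) (H / (Q : ℝ) ^ 2) hfe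
    refine h1.trans ?_
    have h2 : (D : ℝ) ^ (2 * k + 1) ≤ Q := by
      calc (D : ℝ) ^ (2 * k + 1) ≤ ((Q : ℝ) ^ x) ^ (2 * k + 1) :=
            pow_le_pow_left₀ (by positivity) hD2 _
        _ = (Q : ℝ) ^ (x * ((2 * k + 1 : ℕ) : ℝ)) := by
            rw [← Real.rpow_natCast, ← Real.rpow_mul hQp.le]
        _ ≤ (Q : ℝ) ^ (1 : ℝ) := by
            refine Real.rpow_le_rpow_of_exponent_le hQr ?_
            rw [hx, div_mul_eq_mul_div, one_mul, div_le_one (by positivity)]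
            push_cast
            linarith
        _ = Q := Real.rpow_one _
    calc (D : ℝ) ^ (2 * k + 1) * (H / (Q : ℝ) ^ 2) ≤ Q * (H / (Q : ℝ) ^ 2) :=
          mul_le_mul_of_nonneg_right h2 (by positivity)
      _ = H / Q := by field_simp
  have hA2 : ∑ ω ∈ S,
      ‖∑ n ∈ Ico a (a + H), f n * ∑ κ ∈ T1, ∏ i, gk (p i) (κ i) (φ ω i (n : ℤ))‖ ^ 2
      ≤ (S.card : ℝ) * H ^ 2 * (Q : ℝ) ^ (-(cc * x)) := by
    have h1 : ∀ ω ∈ S,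
        ‖∑ n ∈ Ico a (a + H), f n * ∑ κ ∈ T1, ∏ i, gk (p i) (κ i) (φ ω i (n : ℤ))‖ ^ 2
        ≤ (H / Q) ^ 2 := fun ω hω => pow_le_pow_left₀ (norm_nonneg _) (hA1 ω hω) 2
    refine (sum_le_sum h1).trans ?_
    rw [sum_const, nsmul_eq_mul, div_pow, mul_assoc]
    refine mul_le_mul_of_nonneg_left ?_ hvol
    rw [div_eq_mul_inv]
    refine mul_le_mul_of_nonneg_left ?_ (by positivity)
    have h2 : ((Q : ℝ) ^ 2)⁻¹ = (Q : ℝ) ^ (-(2 : ℝ)) := by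
      rw [Real.rpow_neg hQp.le, Real.rpow_ofNat]
    rw [h2]
    refine Real.rpow_le_rpow_of_exponent_le hQr ?_
    have h3 : cc * x ≤ 1 * 1 := mul_le_mul hcc1 hx1 hx0.le zero_le_one
    linarith
  have hB := hFW p hp T2 (filter_subset _ _) D hD1
    (fun κ hκ => not_le.mp (mem_filter.mp hκ).2) f a H hH0
  have hDr : (1 : ℝ) ≤ D := by exact_mod_cast hD1
  have hDc : (D : ℝ) ^ (-c) ≤ (D : ℝ) ^ (-cc) :=
    Real.rpow_le_rpow_of_exponent_le hDr (by linarith)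
  have hneg : (D : ℝ) ^ (-cc) ≤ 2 * (Q : ℝ) ^ (-(cc * x)) := by
    refine (G1_neg hQ hx0.le hcc0.le).trans ?_
    refine mul_le_mul_of_nonneg_right ?_ (by positivity)
    calc (2 : ℝ) ^ cc ≤ 2 ^ (1 : ℝ) := Real.rpow_le_rpow_of_exponent_le (by norm_num) hcc1
      _ = 2 := Real.rpow_one 2
  set E : ℝ := (Q : ℝ) ^ (-(cc * x)) with hE
  have hE0 : 0 < E := by positivity
  set Lg : ℝ := (1 + Real.log Q) ^ (4 * C + 2) with hLg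
  have hLg1 : 1 ≤ Lg := Real.one_le_rpow (by linarith) (by linarith)
  have hLg2 : (1 + Real.log Q) ^ C ≤ Lg :=
    Real.rpow_le_rpow_of_exponent_le (by linarith) (by linarith)
  have hLc0 : 0 ≤ (1 + Real.log Q) ^ C := by positivity
  have hB2 : ∑ ω ∈ S,
      ‖∑ n ∈ Ico a (a + H), f n * ∑ κ ∈ T2, ∏ i, gk (p i) (κ i) (φ ω i (n : ℤ))‖ ^ 2
      ≤ (S.card : ℝ) * H ^ 2 * (2 * C * Lg * Ws * E) := by
    refine hB.trans ?_
    calc C * (1 + Real.log Q) ^ C * (S.card : ℝ) * (H * ∑ n ∈ Ico a (a + H), ‖f n‖ ^ 2) * (D : ℝ) ^ (-c)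
        ≤ C * Lg * (S.card : ℝ) * (H * (H * Ws)) * (2 * E) := by
          have h0 : 0 ≤ ∑ n ∈ Ico a (a + H), ‖f n‖ ^ 2 := sum_nonneg fun _ _ => by positivity
          have h1 : 0 ≤ (D : ℝ) ^ (-c) := by positivity
          have h2 : (D : ℝ) ^ (-c) ≤ 2 * E := hDc.trans hneg
          gcongr
      _ = (S.card : ℝ) * H ^ 2 * (2 * C * Lg * Ws * E) := by ring
  have h4 : ∀ ω ∈ S, ‖∑ n ∈ Ico a (a + H), f n *
        ∏ i, Fc Q (p i) (φ ω i (n : ℤ))‖ ^ 2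
      ≤ 2 * ‖∑ n ∈ Ico a (a + H), f n * ∑ κ ∈ T1, ∏ i, gk (p i) (κ i) (φ ω i (n : ℤ))‖ ^ 2
        + 2 * ‖∑ n ∈ Ico a (a + H), f n * ∑ κ ∈ T2, ∏ i, gk (p i) (κ i) (φ ω i (n : ℤ))‖ ^ 2 := by
    intro ω _
    rw [hsplit ω]
    generalize (∑ n ∈ Ico a (a + H), f n * ∑ κ ∈ T1, ∏ i, gk (p i) (κ i) (φ ω i (n : ℤ))) = z1
    generalize (∑ n ∈ Ico a (a + H), f n * ∑ κ ∈ T2, ∏ i, gk (p i) (κ i) (φ ω i (n : ℤ))) = z2
    have h5 := norm_add_le z1 z2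
    have h6 : ‖z1 + z2‖ ^ 2 ≤ (‖z1‖ + ‖z2‖) ^ 2 := pow_le_pow_left₀ (norm_nonneg _) h5 2
    nlinarith [sq_nonneg (‖z1‖ - ‖z2‖)]
  refine (sum_le_sum h4).trans ?_
  rw [sum_add_distrib, ← mul_sum, ← mul_sum]
  have h7 : 2 * ((S.card : ℝ) * (H : ℝ) ^ 2 * E) + 2 * ((S.card : ℝ) * H ^ 2 * (2 * C * Lg * Ws * E))
      ≤ (S.card : ℝ) * H ^ 2 * ((4 * C + 2) * Lg * (Ws + 1) * E) := by
    have h8 : 2 * ((S.card : ℝ) * (H : ℝ) ^ 2 * E) + 2 * ((S.card : ℝ) * H ^ 2 * (2 * C * Lg * Ws * E))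
        = (S.card : ℝ) * H ^ 2 * ((2 + 4 * C * Lg * Ws) * E) := by ring
    rw [h8]
    refine mul_le_mul_of_nonneg_left ?_ (by positivity)
    refine mul_le_mul_of_nonneg_right ?_ hE0.le
    nlinarith [mul_nonneg (by linarith : 0 ≤ Lg) hWs, mul_nonneg (by linarith : 0 ≤ C) (by linarith : 0 ≤ Lg)]
  linarith

theorem r7_Rg {K K' C : ℝ} {Q X : ℕ} (h : Rg K C Q X) (hK : K' ≤ K) : Rg K' C Q X :=
  ⟨(mul_le_mul_of_nonneg_right hK (Real.log_natCast_nonneg Q)).trans h.1, h.2⟩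

/-- **R7.** Proof. As `W3_cell` (`H24P/W3.lean`), with `R7_w1` instead of `W1_cell`. -/
theorem R7_cell (k A : ℕ) (hA : 1 ≤ A) (C c : ℝ) (hC : 1 ≤ C) (hc : 0 < c) : ∃ c' K : ℝ, 0 < c' ∧
    1 ≤ K ∧ ∀ Cr : ℝ, ∃ Q0 : ℕ,
    ∀ (Q X X1 Y : ℕ) (B : ℤ[X]) (C0 : ℤ → Ch → ℂ) (mb : Ch → ℝ), Q0 ≤ Q → Rg K Cr Q X → 0 < X1 →
    X1 ≤ X → X ≤ X1 * Q → GeoB A X X1 Y B → Cf (Q ^ 100) Y C0 mb →
    ∀ (H0 : ℕ) (Ω : Type) (S : Finset Ω) (φ : Ω → Fin k → ℤ → ℤ), FamW C c Q H0 B S φ →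
    ∀ cf : Fin k → Ch → ℂ, (∀ i, ∑ p ∈ PC Q, ‖cf i p‖ ≤ 3) →
    ∀ a H : ℕ, H0 ≤ H → X1 ≤ a → a + H ≤ 2 * X1 → X1 ≤ H * Q ^ 8 →
    ∑ ω ∈ S, ‖∑ n ∈ Ico a (a + H), ((fB Q Y B n : ℝ) : ℂ) *
      ∏ i, SG Q (cf i) (φ ω i (n : ℤ))‖ ^ 2 ≤ S.card * (H : ℝ) ^ 2 * (Q : ℝ) ^ (-c') := by
  classical
  obtain ⟨C1, c1, hC1, hc1, hc1', hW1⟩ := R7_w1 k C c hC hc
  obtain ⟨K2, hK2, hW2⟩ := W2_fourier
  obtain ⟨K3, hK3, hW3⟩ := W2_ms A
  refine ⟨c1 / 2, max (100 * K2 + 2) (max K3 10), by linarith,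
    (by norm_num : (1 : ℝ) ≤ 10).trans ((le_max_right _ _).trans (le_max_right _ _)), fun Cr => ?_⟩
  obtain ⟨Qa, hQa⟩ := hW3 Cr
  obtain ⟨Qb, hQb⟩ := G2_regB A K2 Cr hK2
  obtain ⟨Qc, hQc1, hQc⟩ := G1_log Cr 20 1 (c1 / 8) (by linarith)
  obtain ⟨Qd, hQd1, hQd⟩ := G1_rlog (2 * 9 ^ k * C1) C1 (c1 / 8) (by linarith)
  refine ⟨max (max Qa Qb) (max (max Qc Qd) (max A 1)), ?_⟩
  intro Q X X1 Y B C0 mb hQ hRg hX1 hX1X hXX1 hB hCf H0 Ω S φ hFam c' hc' a H hH0 haX haH hH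
  have hQa' : Qa ≤ Q := (le_max_left _ _).trans ((le_max_left _ _).trans hQ)
  have hQb' : Qb ≤ Q := (le_max_right _ _).trans ((le_max_left _ _).trans hQ)
  have hQc' : Qc ≤ Q := (le_max_left _ _).trans ((le_max_left _ _).trans ((le_max_right _ _).trans hQ))
  have hQd' : Qd ≤ Q := (le_max_right _ _).trans ((le_max_left _ _).trans ((le_max_right _ _).trans hQ))
  have hQA : A ≤ Q := (le_max_left _ _).trans ((le_max_right _ _).trans ((le_max_right _ _).trans hQ))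
  have hQ1 : 1 ≤ Q := (le_max_right _ _).trans ((le_max_right _ _).trans ((le_max_right _ _).trans hQ))
  have hQr : (1 : ℝ) ≤ Q := by exact_mod_cast hQ1
  have hQ0 : (0 : ℝ) < Q := by linarith
  have hRa : Rg (100 * K2 + 2) Cr Q X := r7_Rg hRg (le_max_left _ _)
  have hRb : Rg K3 Cr Q X := r7_Rg hRg ((le_max_left _ _).trans (le_max_right _ _))
  have hRc : Rg 10 Cr Q X := r7_Rg hRg ((le_max_right _ _).trans (le_max_right _ _))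
  have hHpos : 0 < H := by
    rcases Nat.eq_zero_or_pos H with h0 | h0
    · rw [h0, zero_mul] at hH
      omega
    · exact h0
  have hHr : (0 : ℝ) < H := by exact_mod_cast hHpos
  have hXH : X ≤ H * Q ^ 9 := by
    calc X ≤ X1 * Q := hXX1
      _ ≤ (H * Q ^ 8) * Q := Nat.mul_le_mul_right Q hH
      _ = H * Q ^ 9 := by ring
  have hXpos : 0 < X := lt_of_lt_of_le hX1 hX1X
  have hQH : Q ≤ H := by
    have h1 : Real.log X ≤ Real.log H + 9 * Real.log Q := by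
      calc Real.log X ≤ Real.log ((H : ℝ) * (Q : ℝ) ^ 9) :=
            Real.log_le_log (by exact_mod_cast hXpos) (by exact_mod_cast hXH)
        _ = Real.log H + 9 * Real.log Q := by
            rw [Real.log_mul hHr.ne' (by positivity), Real.log_pow]
            norm_num
    have h2 := hRc.1
    have h3 : Real.log Q ≤ Real.log H := by linarith
    have h4 := (Real.log_le_log_iff hQ0 hHr).1 h3
    exact_mod_cast h4
  -- the Fourier bound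
  have hreg := hQb Q X X1 Y B hQb' hRa hX1 hX1X hXX1 hB
  have hYH : (Y : ℝ) ≤ A * (H * (Q : ℝ) ^ 9) := by
    have h1 : Y ≤ A * (H * Q ^ 9) := hB.Yhi.trans (Nat.mul_le_mul_left A hXH)
    exact_mod_cast h1
  have hfour : ∀ θ : ℝ, ‖∑ n ∈ Ico a (a + H), ((fB Q Y B n : ℝ) : ℂ) * e ((n : ℝ) * θ)‖ ≤
      H / (Q : ℝ) ^ 2 := by
    intro θ
    refine (hW2 A Q X X1 Y B hQ1 hreg.1 hB a H haX haH θ).trans ?_
    have h1 : (Q : ℝ) ^ (-(25) : ℝ) = ((Q : ℝ) ^ 25)⁻¹ := by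
      have h25 : (25 : ℝ) = ((25 : ℕ) : ℝ) := by norm_num
      rw [Real.rpow_neg hQ0.le, h25, Real.rpow_natCast]
    rw [h1, ← div_eq_mul_inv, div_le_div_iff₀ (by positivity) (by positivity)]
    have h2 : (A : ℝ) ≤ (Q : ℝ) ^ 14 := by
      have h3 : (A : ℝ) ≤ Q := by exact_mod_cast hQA
      have h4 : (Q : ℝ) ^ 1 ≤ (Q : ℝ) ^ 14 := pow_le_pow_right₀ hQr (by norm_num)
      rw [pow_one] at h4
      linarith
    calc (Y : ℝ) * (Q : ℝ) ^ 2 ≤ (A * (H * (Q : ℝ) ^ 9)) * (Q : ℝ) ^ 2 :=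
          mul_le_mul_of_nonneg_right hYH (by positivity)
      _ = A * (H * (Q : ℝ) ^ 11) := by ring
      _ ≤ (Q : ℝ) ^ 14 * (H * (Q : ℝ) ^ 11) := mul_le_mul_of_nonneg_right h2 (by positivity)
      _ = H * (Q : ℝ) ^ 25 := by ring
  -- the mean square
  have hms := (hQa Q X X1 Y B C0 mb hQa' hRb hX1 hX1X hXX1 hB hCf a H haX haH
    (hH.trans (Nat.mul_le_mul_left H (Nat.pow_le_pow_right hQ1 (by norm_num))))).1
  set Ws : ℝ := (Real.log X) ^ 20 with hWs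
  have hWs0 : 0 ≤ Ws := pow_nonneg (Real.log_natCast_nonneg X) _
  set W : ℝ := (S.card : ℝ) * (H : ℝ) ^ 2 * (C1 * (1 + Real.log Q) ^ C1 * (Ws + 1) * (Q : ℝ) ^ (-c1)) with hW
  have hvol : (0 : ℝ) ≤ (S.card : ℝ) := Nat.cast_nonneg _
  have hlogQ : 0 ≤ Real.log Q := Real.log_natCast_nonneg Q
  have hW0 : 0 ≤ W := by
    have h1 : 0 ≤ (1 + Real.log Q) ^ C1 := Real.rpow_nonneg (by linarith) _
    have h2 : 0 ≤ (Q : ℝ) ^ (-c1) := Real.rpow_nonneg hQ0.le _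
    have h3 : 0 ≤ C1 := by linarith
    positivity
  -- expansion
  have hexp : ∀ ω : Ω, ∑ n ∈ Ico a (a + H), ((fB Q Y B n : ℝ) : ℂ) *
      ∏ i, SG Q (c' i) (φ ω i (n : ℤ)) =
      ∑ p ∈ Fintype.piFinset fun _ : Fin k => PC Q, (∏ i, c' i (p i)) *
        ∑ n ∈ Ico a (a + H), ((fB Q Y B n : ℝ) : ℂ) *
          ∏ i, Fc Q (p i) (φ ω i (n : ℤ)) := by
    intro ω
    have h1 : ∀ n ∈ Ico a (a + H), ((fB Q Y B n : ℝ) : ℂ) *
        ∏ i, SG Q (c' i) (φ ω i (n : ℤ)) =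
        ∑ p ∈ Fintype.piFinset fun _ : Fin k => PC Q, (∏ i, c' i (p i)) *
          (((fB Q Y B n : ℝ) : ℂ) * ∏ i, Fc Q (p i) (φ ω i (n : ℤ))) := by
      intro n _
      rw [W3_SG, Finset.mul_sum]
      refine Finset.sum_congr rfl fun p _ => ?_
      ring
    rw [Finset.sum_congr rfl h1, Finset.sum_comm]
    refine Finset.sum_congr rfl fun p _ => ?_
    rw [Finset.mul_sum]
  have hγ : ∑ p ∈ Fintype.piFinset fun _ : Fin k => PC Q, ‖∏ i, c' i (p i)‖ ≤ (3 : ℝ) ^ k := by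
    have h1 : ∑ p ∈ Fintype.piFinset fun _ : Fin k => PC Q, ‖∏ i, c' i (p i)‖ =
        ∏ i, ∑ p ∈ PC Q, ‖c' i p‖ := by
      rw [Finset.prod_univ_sum]
      exact Finset.sum_congr rfl fun p _ => norm_prod _ _
    rw [h1]
    have h2 : ∏ i : Fin k, ∑ p ∈ PC Q, ‖c' i p‖ ≤ ∏ _i : Fin k, (3 : ℝ) :=
      Finset.prod_le_prod (fun i _ => Finset.sum_nonneg fun p _ => norm_nonneg _) (fun i _ => hc' i)
    rwa [prod_const, card_univ, Fintype.card_fin] at h2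
  have hmain := Z2a S (Fintype.piFinset fun _ : Fin k => PC Q) (fun p => ∏ i, c' i (p i))
    (fun p ω => ∑ n ∈ Ico a (a + H), ((fB Q Y B n : ℝ) : ℂ) *
      ∏ i, Fc Q (p i) (φ ω i (n : ℤ))) ((3 : ℝ) ^ k) W hW0 hγ (fun p hp =>
      hW1 Q hQ1 H0 Ω S φ hFam.fw1 hFam.cp p (fun i => Fintype.mem_piFinset.1 hp i) a H hH0 hQH
        (fun n => ((fB Q Y B n : ℝ) : ℂ)) Ws hWs0 hms hfour)
  refine (le_of_eq (Finset.sum_congr rfl fun ω _ => by rw [hexp ω])).trans (hmain.trans ?_)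
  -- numerics
  have e1 : Ws + 1 ≤ 2 * (Q : ℝ) ^ (c1 / 8) := by
    have h1 := hQc Q X hQc' hRg.2
    rw [one_mul] at h1
    have h2 : 1 ≤ (Q : ℝ) ^ (c1 / 8) := Real.one_le_rpow hQr (by linarith)
    linarith
  have e2 := hQd Q hQd'
  have h9 : ((3 : ℝ) ^ k) ^ 2 = 9 ^ k := by
    rw [← pow_mul, mul_comm k 2, pow_mul]
    norm_num
  have hL0 : 0 ≤ (1 + Real.log Q) ^ C1 := Real.rpow_nonneg (by linarith) _
  have hn1 : 0 ≤ (Q : ℝ) ^ (-c1) := Real.rpow_nonneg hQ0.le _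
  have hC10 : 0 ≤ C1 := by linarith
  calc ((3 : ℝ) ^ k) ^ 2 * W = (S.card : ℝ) * (H : ℝ) ^ 2 *
        ((9 ^ k * C1 * (1 + Real.log Q) ^ C1) * (Ws + 1) * (Q : ℝ) ^ (-c1)) := by
        rw [h9, hW]
        ring
    _ ≤ (S.card : ℝ) * (H : ℝ) ^ 2 * ((9 ^ k * C1 * (1 + Real.log Q) ^ C1) * (2 * (Q : ℝ) ^ (c1 / 8)) *
        (Q : ℝ) ^ (-c1)) := by
        refine mul_le_mul_of_nonneg_left ?_ (by positivity)
        refine mul_le_mul_of_nonneg_right ?_ hn1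
        exact mul_le_mul_of_nonneg_left e1 (by positivity)
    _ = (S.card : ℝ) * (H : ℝ) ^ 2 * ((2 * 9 ^ k * C1 * (1 + Real.log Q) ^ C1) * (Q : ℝ) ^ (c1 / 8) *
        (Q : ℝ) ^ (-c1)) := by ring
    _ ≤ (S.card : ℝ) * (H : ℝ) ^ 2 * ((Q : ℝ) ^ (c1 / 8) * (Q : ℝ) ^ (c1 / 8) * (Q : ℝ) ^ (-c1)) := by
        refine mul_le_mul_of_nonneg_left ?_ (by positivity)
        refine mul_le_mul_of_nonneg_right ?_ hn1
        exact mul_le_mul_of_nonneg_right e2 (Real.rpow_nonneg hQ0.le _)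
    _ = (S.card : ℝ) * (H : ℝ) ^ 2 * (Q : ℝ) ^ (c1 / 8 + c1 / 8 + -c1) := by
        rw [Real.rpow_add hQ0, Real.rpow_add hQ0]
    _ ≤ (S.card : ℝ) * (H : ℝ) ^ 2 * (Q : ℝ) ^ (-(c1 / 2)) := by
        refine mul_le_mul_of_nonneg_left ?_ (by positivity)
        exact Real.rpow_le_rpow_of_exponent_le hQr (by linarith)

end Pool.Agent.Lib.H24Q
end
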