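import Pool.Agent.Lib.H1M.RV2.M013
import Pool.Agent.Lib.H1M.RV2.M062
import Pool.Agent.Lib.H1M.RV2.M074
import Pool.Agent.Lib.H1M.RV2.M078
import Pool.Agent.Lib.H1M.RV2.M084
import Pool.Agent.Lib.H1M.RV2.M085
import Pool.Agent.Lib.H1M.RV2.M093
import Pool.Agent.Lib.H1M.RV2.M095
import Pool.Agent.Lib.H1M.RV2.M097
import Pool.Agent.Lib.H1M.RV2.M098

/-! Merged copies (to shorten the build) of Lib.H24Q.M2, Lib.H24Q.M4, Lib.H24Q.M3, Lib.H24Q.R9, Lib.H24Q.M6, Lib.H24Q.M5, Lib.H24Q.M7, Lib.H24Q.M8, Lib.H24Q.M9, Lib.H37T.G0. -/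

-- from Lib.H24Q.M2
section

/-!
# Project H24Q, chunk M2 (S/M): freezing in mean square
-/

open Finset Polynomial

namespace Pool.Agent.Lib.H24Q

open Pool.Agent.Lib.H68T Pool.Agent.Lib.H18Q Pool.Agent.Lib.H59P Pool.Agent.Lib.H24P

theorem m2_lp0 (m : ℤ) : 0 ≤ lp m := by
  unfold H68T.lp
  split_ifs with h
  · have h1 : 0 < m.toNat := h.pos
    have h2 : 0 < m := by omega
    exact Real.log_nonneg (by exact_mod_cast (by omega : 1 ≤ m))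
  · exact le_rfl

theorem m2_lp_le (m : ℤ) (N : ℕ) (hN : 1 ≤ N) (h : m ≤ N) : lp m ≤ Real.log N := by
  unfold H68T.lp
  split_ifs with hp
  · have h1 : 0 < m.toNat := hp.pos
    have h2 : 0 < m := by omega
    exact Real.log_le_log (by exact_mod_cast h2) (by exact_mod_cast h)
  · exact Real.log_nonneg (by exact_mod_cast hN)

theorem m2_card (X : ℕ) : ((bx X).card : ℝ) = X := by
  unfold bx cub
  rw [Fintype.card_piFinset, Fin.prod_univ_one, Nat.card_Ico, Nat.add_sub_cancel_left]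

theorem m2_sum (Q Z : ℕ) (X : ℕ) (f : (Fin 1 → ℕ) → ℂ) (U V : ℝ) (hU : 0 ≤ U)
    (hf : ∀ ω ∈ bx X, ‖f ω‖ ≤ Z * U) (hUV : U ^ 2 ≤ V) :
    ∑ ω ∈ bx X, ‖f ω‖ ^ 2 ≤ X * (Z : ℝ) ^ 2 * V := by
  have h1 : ∀ ω ∈ bx X, ‖f ω‖ ^ 2 ≤ (Z : ℝ) ^ 2 * V := by
    intro ω hω
    have h2 : ‖f ω‖ ^ 2 ≤ (Z * U) ^ 2 := pow_le_pow_left₀ (norm_nonneg _) (hf ω hω) 2
    refine h2.trans ?_
    rw [mul_pow]
    exact mul_le_mul_of_nonneg_left hUV (by positivity)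
  refine (Finset.sum_le_sum h1).trans (le_of_eq ?_)
  rw [Finset.sum_const, nsmul_eq_mul, m2_card]
  ring

/-- Proof. `|lp (2n-3)| ≤ log (2n-3) ≤ 2 log N` (`2n - 3 ≤ 4Z ≤ N²`), `M1_pt`: the difference is at most
`Z · 2 log N · Q^(-1/2)` for each of the `X` values of `ω` (`card (bx X) = X`); `G1_log`: `4 (log N)² ≤ Q^(1/2)`. -/
theorem M2_lp (Cr : ℝ) : ∃ Q0 : ℕ, ∀ (Q N Z X : ℕ), Q0 ≤ Q → Real.log N ≤ Cr * Real.log Q →
    G3 Q N Z X → ∀ (Cc : ℤ → Ch → ℂ) (mb : Ch → ℝ), Cf Q X Cc mb →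
    ∑ ω ∈ bx X, ‖T3w Q Z X (fun n => ((lp (B23.eval (n : ℤ)) : ℝ) : ℂ)) ω -
      T3z Q Z X Cc (fun n => ((lp (B23.eval (n : ℤ)) : ℝ) : ℂ)) ω‖ ^ 2 ≤
      X * (Z : ℝ) ^ 2 * (Q : ℝ) ^ (-(1 / 2) : ℝ) := by
  classical
  obtain ⟨Q1, hM⟩ := M1_pt
  obtain ⟨Q2, hQ2, hlog⟩ := G1_log Cr 2 4 (1 / 2) (by norm_num)
  refine ⟨max Q1 Q2, ?_⟩
  intro Q N Z X hQ hN hG Cc mb hCc
  have hQ1' : Q1 ≤ Q := (le_max_left _ _).trans hQ
  have hQ2' : Q2 ≤ Q := (le_max_right _ _).trans hQ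
  have hQ1 : 1 ≤ Q := hQ2.trans hQ2'
  have hQr0 : (0 : ℝ) < Q := by exact_mod_cast hQ1
  have hL := hlog Q N hQ2' hN
  have hlN : 0 ≤ Real.log N := Real.log_natCast_nonneg N
  have hq0 : 0 ≤ (Q : ℝ) ^ (-(1 / 2) : ℝ) := Real.rpow_nonneg hQr0.le _
  refine m2_sum Q Z X _ (2 * Real.log N * (Q : ℝ) ^ (-(1 / 2) : ℝ)) _ (by positivity) ?_ ?_
  · intro ω hω
    have h1 : T3w Q Z X (fun n => ((lp (B23.eval (n : ℤ)) : ℝ) : ℂ)) ω -
        T3z Q Z X Cc (fun n => ((lp (B23.eval (n : ℤ)) : ℝ) : ℂ)) ω =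
        ∑ n ∈ Ico Z (2 * Z), ((lp (B23.eval (n : ℤ)) : ℝ) : ℂ) *
          (∏ i, ((Lk Q (X / Q ^ 2) (L2.map ω i (n : ℤ)) : ℝ) : ℂ) -
          ∏ i, SG Q (Cc (fp8 Q Z X ω n i)) (L2.map ω i (n : ℤ))) := by
      unfold T3w T3z
      rw [← Finset.sum_sub_distrib]
      exact Finset.sum_congr rfl fun n _ => by ring
    rw [h1]
    have h2 : ∀ n ∈ Ico Z (2 * Z), ‖((lp (B23.eval (n : ℤ)) : ℝ) : ℂ) *
          (∏ i, ((Lk Q (X / Q ^ 2) (L2.map ω i (n : ℤ)) : ℝ) : ℂ) -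
          ∏ i, SG Q (Cc (fp8 Q Z X ω n i)) (L2.map ω i (n : ℤ)))‖ ≤
        2 * Real.log N * (Q : ℝ) ^ (-(1 / 2) : ℝ) := by
      intro n hn
      rw [norm_mul, Complex.norm_real, Real.norm_of_nonneg (m2_lp0 _)]
      have h3 : lp (B23.eval (n : ℤ)) ≤ 2 * Real.log N := by
        have h4 : B23.eval (n : ℤ) ≤ ((N ^ 2 : ℕ) : ℤ) := by
          rw [d0_lin]
          have h5 := (mem_Ico.1 hn).2
          have h6 := hG.ZX
          have h7 := hG.Xhi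
          have h8 := hG.nine
          have h9 : 2 * N ≤ N ^ 2 := by nlinarith
          have h10 : (2 * n : ℕ) ≤ N ^ 2 := by omega
          have h11 : (((2 * n : ℕ)) : ℤ) ≤ ((N ^ 2 : ℕ) : ℤ) := by exact_mod_cast h10
          rw [Nat.cast_mul] at h11
          have h12 : ((2 : ℕ) : ℤ) = 2 := rfl
          rw [h12] at h11
          linarith
        have h5 := m2_lp_le _ (N ^ 2) (Nat.one_le_pow _ _ (by have := hG.nine; omega)) h4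
        rw [Nat.cast_pow, Real.log_pow] at h5
        push_cast at h5
        exact h5
      have h4 := (hM Q N Z X hQ1' hG Cc mb hCc ω hω n hn).1
      exact mul_le_mul h3 h4 (norm_nonneg _) (by positivity)
    refine (norm_sum_le _ _).trans ((Finset.sum_le_sum h2).trans (le_of_eq ?_))
    rw [Finset.sum_const, Nat.card_Ico, nsmul_eq_mul]
    congr 2
    omega
  · have h1 : (Q : ℝ) ^ (1 / 2 : ℝ) * ((Q : ℝ) ^ (-(1 / 2) : ℝ) * (Q : ℝ) ^ (-(1 / 2) : ℝ)) =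
        (Q : ℝ) ^ (-(1 / 2) : ℝ) := by
      rw [← Real.rpow_add hQr0, ← Real.rpow_add hQr0]
      norm_num
    calc (2 * Real.log N * (Q : ℝ) ^ (-(1 / 2) : ℝ)) ^ 2
        = (4 * Real.log N ^ 2) * ((Q : ℝ) ^ (-(1 / 2) : ℝ) * (Q : ℝ) ^ (-(1 / 2) : ℝ)) := by ring
      _ ≤ (Q : ℝ) ^ (1 / 2 : ℝ) * ((Q : ℝ) ^ (-(1 / 2) : ℝ) * (Q : ℝ) ^ (-(1 / 2) : ℝ)) :=
          mul_le_mul_of_nonneg_right hL (mul_nonneg hq0 hq0)
      _ = (Q : ℝ) ^ (-(1 / 2) : ℝ) := h1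

/-- Proof. `V2_pt` (`A = 2`, `X = X1 = Z`, `Y = 2Z - 3`, `M1_GeoB`): the weights differ by at most `Q^(-10)`; `M1_pt` (second
part): the difference is at most `Z Q^(-7)` for each `ω`. -/
theorem M2_gB : ∃ Q0 : ℕ, ∀ (Q N Z X : ℕ), Q0 ≤ Q → G3 Q N Z X →
    ∀ (C0 : ℤ → Ch → ℂ) (m0 : Ch → ℝ), Cf (Q ^ 100) (2 * Z - 3) C0 m0 →
    ∀ (Cc : ℤ → Ch → ℂ) (mb : Ch → ℝ), Cf Q X Cc mb →
    ∑ ω ∈ bx X, ‖T3z Q Z X Cc
        (fun n => ((Lk (Q ^ 100) ((2 * Z - 3) / (Q ^ 100) ^ 2) (B23.eval (n : ℤ)) : ℝ) : ℂ)) ω -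
      T3z Q Z X Cc (gB Q Z B23 C0) ω‖ ^ 2 ≤ X * (Z : ℝ) ^ 2 * (Q : ℝ) ^ (-(10) : ℝ) := by
  classical
  obtain ⟨Q1, hM⟩ := M1_pt
  obtain ⟨Q2, hV⟩ := V2_pt 2
  refine ⟨max (max Q1 Q2) 1, ?_⟩
  intro Q N Z X hQ hG C0 m0 hC0 Cc mb hCc
  have hQ1' : Q1 ≤ Q := (le_max_left _ _).trans ((le_max_left _ _).trans hQ)
  have hQ2' : Q2 ≤ Q := (le_max_right _ _).trans ((le_max_left _ _).trans hQ)
  have hQ1 : 1 ≤ Q := (le_max_right _ _).trans hQ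
  have hQr0 : (0 : ℝ) < Q := by exact_mod_cast hQ1
  have hQr1 : (1 : ℝ) ≤ Q := by exact_mod_cast hQ1
  have hq0 : 0 ≤ (Q : ℝ) ^ (-(10) : ℝ) := Real.rpow_nonneg hQr0.le _
  obtain ⟨hB, -, -, -, -⟩ := M1_GeoB hG
  refine m2_sum Q Z X _ ((Q : ℝ) ^ (-(10) : ℝ) * (Q : ℝ) ^ 3) _ (by positivity) ?_ ?_
  · intro ω hω
    have h1 : T3z Q Z X Cc
        (fun n => ((Lk (Q ^ 100) ((2 * Z - 3) / (Q ^ 100) ^ 2) (B23.eval (n : ℤ)) : ℝ) : ℂ)) ω -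
        T3z Q Z X Cc (gB Q Z B23 C0) ω =
        ∑ n ∈ Ico Z (2 * Z),
          (((Lk (Q ^ 100) ((2 * Z - 3) / (Q ^ 100) ^ 2) (B23.eval (n : ℤ)) : ℝ) : ℂ) -
            gB Q Z B23 C0 n) * ∏ i, SG Q (Cc (fp8 Q Z X ω n i)) (L2.map ω i (n : ℤ)) := by
      unfold T3z
      rw [← Finset.sum_sub_distrib]
      exact Finset.sum_congr rfl fun n _ => by ring
    rw [h1]
    have h2 : ∀ n ∈ Ico Z (2 * Z),
        ‖(((Lk (Q ^ 100) ((2 * Z - 3) / (Q ^ 100) ^ 2) (B23.eval (n : ℤ)) : ℝ) : ℂ) -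
            gB Q Z B23 C0 n) * ∏ i, SG Q (Cc (fp8 Q Z X ω n i)) (L2.map ω i (n : ℤ))‖ ≤
        (Q : ℝ) ^ (-(10) : ℝ) * (Q : ℝ) ^ 3 := by
      intro n hn
      rw [norm_mul]
      have h3 := hV Q Z Z (2 * Z - 3) B23 C0 m0 hQ2' hG.dvdZ hB hC0 n hn
      have h4 := (hM Q N Z X hQ1' hG Cc mb hCc ω hω n hn).2
      exact mul_le_mul h3 h4 (norm_nonneg _) hq0
    refine (norm_sum_le _ _).trans ((Finset.sum_le_sum h2).trans (le_of_eq ?_))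
    rw [Finset.sum_const, Nat.card_Ico, nsmul_eq_mul]
    congr 2
    omega
  · have h1 : (Q : ℝ) ^ (-(10) : ℝ) * (Q : ℝ) ^ 3 = (Q : ℝ) ^ (-(7) : ℝ) := by
      rw [← Real.rpow_natCast (Q : ℝ) 3, ← Real.rpow_add hQr0]
      norm_num
    rw [h1, ← Real.rpow_natCast, ← Real.rpow_mul hQr0.le]
    exact Real.rpow_le_rpow_of_exponent_le hQr1 (by norm_num)

end Pool.Agent.Lib.H24Q
end

-- from Lib.H24Q.M4
section

/-!
# Project H24Q, chunk M4 (M): the main term in mean square (port of `H24P/Z2`)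
-/

open Finset Polynomial

namespace Pool.Agent.Lib.H24Q

open Pool.Agent.Lib.H68T Pool.Agent.Lib.H18Q Pool.Agent.Lib.H59P Pool.Agent.Lib.H24P

theorem m4_card {k : ℕ} (b s : Fin k → ℕ) : ((cub b s).card : ℝ) = vol s := by
  unfold cub vol
  rw [Fintype.card_piFinset]
  push_cast
  refine Finset.prod_congr rfl fun i _ => ?_
  rw [Nat.card_Ico, Nat.add_sub_cancel_left]

theorem m4_pow {b0 Q N Z : ℕ} (hQ : 1 ≤ Q) (hN : 0 < N)
    (hK : (2 * ((b0 : ℝ) + 1500)) * Real.log Q ≤ Real.log N) (hZ : N ≤ Z ^ 2) :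
    Q ^ (b0 + 1500) ≤ Z := by
  have hNr : (0 : ℝ) < N := by exact_mod_cast hN
  have hQr : (0 : ℝ) < Q := by exact_mod_cast hQ
  have h1 : Real.log ((Q : ℝ) ^ (2 * (b0 + 1500))) ≤ Real.log N := by
    rw [Real.log_pow]
    push_cast
    exact hK
  have h2 : (Q : ℝ) ^ (2 * (b0 + 1500)) ≤ N := (Real.log_le_log_iff (by positivity) hNr).1 h1
  have h3 : Q ^ (2 * (b0 + 1500)) ≤ N := by exact_mod_cast h2
  have h4 : (Q ^ (b0 + 1500)) ^ 2 ≤ Z ^ 2 := by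
    rw [← pow_mul, mul_comm (b0 + 1500) 2]
    exact h3.trans hZ
  exact (Nat.pow_le_pow_iff_left (by norm_num)).1 h4

/-- **M4.** Proof. Compare `Z2_main` (`H24P/Z2.lean`). `D2_cells` (`k = 1`) with `b = 2X`, `M = X`, `s = X/Q^8`, `q = Q^8`,
`X1 = Z`, `H = Z/Q^800`, `N = Q^800`, `F ω n = gB n ∏ SG … - MDf …`. On a cell the base points are constant: `2X + t s` for
`ω 0` (`E1_bs`), `Z + jH` for the fine cells of `n` (`E1_bs`), `bs (Z/Q^8) (Z + jH)` for the coarse cells (`E1_fine`), so the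
sum is `∑_n SG (Q^100) c0 (B23 n) ∏ SG Q (cf i) … - H MDf Q (2 r) (Fin.cons c0 cf) (sy B23 (L2.map ω))` with
`c0 = C0 (B23 (Z + jH))`, `cf i = Cc (…)`, of total sizes `≤ 3` (`Cf.le`, `Cf.sum`; `M1_geo`, `M1_GeoB`):
`R6_cell` (`k = A = 2`), `FamW` from `hW` (`Q^b0 ≤ X/Q^8`, `Q^b0 ≤ Z/Q^800`, `Q^600 ≤ Z/Q^800`: `Z ≥ N^(1/2)`, `N ≥ Q^K`,
`K ≥ 2 (b0 + 1500)`). -/
theorem M4_main (b0 : ℕ) (C c : ℝ) (hC : 1 ≤ C) (hc : 0 < c) (hW : HW C c b0 B23 L2) :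
    ∃ c' K : ℝ, 0 < c' ∧ 1 ≤ K ∧ ∃ Q0 : ℕ, ∀ (Q N Z X : ℕ), Q0 ≤ Q →
    K * Real.log Q ≤ Real.log N → G3 Q N Z X →
    ∀ (C0 : ℤ → Ch → ℂ) (m0 : Ch → ℝ), Cf (Q ^ 100) (2 * Z - 3) C0 m0 →
    ∀ (Cc : ℤ → Ch → ℂ) (mb : Ch → ℝ), Cf Q X Cc mb → ∀ r : ℕ, 1 ≤ r → r ^ 100 ≤ Q →
    ∑ ω ∈ bx X, ‖T3z Q Z X Cc (gB Q Z B23 C0) ω - M3z Q Z X r C0 Cc ω‖ ^ 2 ≤
      X * (Z : ℝ) ^ 2 * (Q : ℝ) ^ (-c') := by
  classical
  obtain ⟨c1, hc1, Q1, hcell⟩ := R6_cell 2 2 (by norm_num) C c hC hc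
  have hb0 : (0 : ℝ) ≤ b0 := Nat.cast_nonneg _
  refine ⟨c1, 2 * ((b0 : ℝ) + 1500), hc1, by linarith, max Q1 2, ?_⟩
  intro Q N Z X hQ hK hG C0 m0 hC0 Cc mb hCc r hr hr100
  have hQ1' : Q1 ≤ Q := (le_max_left _ _).trans hQ
  have hQ2 : 2 ≤ Q := (le_max_right _ _).trans hQ
  have hQ1 : 1 ≤ Q := by omega
  have hQ8 : 0 < Q ^ 8 := Nat.pow_pos hQ1
  have hQ800 : 0 < Q ^ 800 := Nat.pow_pos hQ1
  have hN0 : 0 < N := by
    have := hG.nine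
    omega
  have hZbig := m4_pow hQ1 hN0 hK hG.Zlo
  have hZpos : 0 < Z := (Nat.pow_pos hQ1).trans_le hZbig
  have hXZ : Z ≤ X := by
    have := hG.ZX
    omega
  obtain ⟨hB, -, -, -, -⟩ := M1_GeoB hG
  set H : ℕ := Z / Q ^ 800 with hH
  set s : Fin 1 → ℕ := fun _ => X / Q ^ 8 with hs
  have hXH : Z = H * Q ^ 800 := (Nat.div_mul_cancel hG.dvdZ).symm
  have hHbig : Q ^ (b0 + 700) ≤ H := by
    rw [hH, Nat.le_div_iff_mul_le hQ800]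
    calc Q ^ (b0 + 700) * Q ^ 800 = Q ^ (b0 + 1500) := by rw [← pow_add]
      _ ≤ Z := hZbig
  have hH600 : Q ^ 600 ≤ H := (Nat.pow_le_pow_right hQ1 (by omega)).trans hHbig
  have hHb0 : Q ^ b0 ≤ H := (Nat.pow_le_pow_right hQ1 (by omega)).trans hHbig
  have hHpos : 0 < H := (Nat.pow_pos hQ1).trans_le hH600
  have hdX : Q ^ 8 ∣ X := (pow_dvd_pow Q (by norm_num)).trans hG.dvdX
  have hsM : ∀ i, (fun _ : Fin 1 => X) i = s i * Q ^ 8 := fun i => (Nat.div_mul_cancel hdX).symm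
  have hsX : X = X / Q ^ 8 * Q ^ 8 := (Nat.div_mul_cancel hdX).symm
  have hsb0 : ∀ i, Q ^ b0 ≤ s i := by
    intro i
    refine (Nat.le_div_iff_mul_le hQ8).2 ?_
    calc Q ^ b0 * Q ^ 8 = Q ^ (b0 + 8) := by rw [← pow_add]
      _ ≤ Q ^ (b0 + 1500) := Nat.pow_le_pow_right hQ1 (by omega)
      _ ≤ Z := hZbig
      _ ≤ X := hXZ
  have hspos : ∀ i, 0 < s i := fun i => lt_of_lt_of_le (Nat.pow_pos hQ1) (hsb0 i)
  -- the difference
  set F : (Fin 1 → ℕ) → ℕ → ℂ := fun ω n => gB Q Z B23 C0 n *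
    ∏ i, SG Q (Cc (fp8 Q Z X ω n i)) (L2.map ω i (n : ℤ)) -
    MDf Q (B23.leadingCoeff.natAbs * r)
      (Fin.cons (C0 (B23.eval ((bs (Z / Q ^ 800) n : ℕ) : ℤ)))
      (fun i : Fin 2 => Cc (fp8 Q Z X ω n i)) : Fin 3 → Ch → ℂ) (sy B23 (L2.map ω)) with hF
  have hdiff : ∀ ω : Fin 1 → ℕ, T3z Q Z X Cc (gB Q Z B23 C0) ω - M3z Q Z X r C0 Cc ω =
      ∑ n ∈ Ico Z (2 * Z), F ω n := by
    intro ω
    unfold T3z M3z
    rw [← Finset.sum_sub_distrib]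
  rw [Finset.sum_congr rfl fun ω _ => by rw [hdiff ω]]
  have hE := D2_cells (fun _ : Fin 1 => 2 * X) (fun _ : Fin 1 => X) s (Q ^ 8) hsM Z H (Q ^ 800) hXH
    ((Q : ℝ) ^ (-c1)) (Real.rpow_nonneg (Nat.cast_nonneg _) _) F ?_
  · have hv : vol (fun _ : Fin 1 => X) = X := by
      unfold vol
      rw [Fin.prod_univ_one]
    rw [hv] at hE
    exact hE
  intro t ht j hj
  have hjH' : j * H + H ≤ Z := by
    have h1 : (j + 1) * H ≤ Q ^ 800 * H := Nat.mul_le_mul_right H hj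
    have h2 : (j + 1) * H = j * H + H := by ring
    have h3 : Q ^ 800 * H = Z := by rw [mul_comm]; exact hXH.symm
    omega
  have haI : Z + j * H ∈ Ico Z (2 * Z) := by
    rw [mem_Ico]
    omega
  -- the base points
  have hbsn : ∀ n ∈ Ico (Z + j * H) (Z + j * H + H), bs (Z / Q ^ 800) n = Z + j * H := fun n hn =>
    E1_bs hHpos ⟨Q ^ 800, hXH⟩ hn
  have hdX8 : Q ^ 8 ∣ Z := (pow_dvd_pow Q (by norm_num)).trans hG.dvdZ
  have hHc : Z / Q ^ 8 = H * Q ^ 792 := by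
    refine Nat.div_eq_of_eq_mul_left hQ8 ?_
    rw [mul_assoc, ← pow_add]
    exact hXH
  have hHcX : Z / Q ^ 8 ∣ Z := Nat.div_dvd_of_dvd hdX8
  have hbsc : ∀ n ∈ Ico (Z + j * H) (Z + j * H + H),
      bs (Z / Q ^ 8) n = bs (Z / Q ^ 8) (Z + j * H) := fun n hn =>
    E1_fine hHpos (Nat.pow_pos hQ1) hHc hHcX hn
  have hsd : X / Q ^ 8 ∣ 2 * X := Dvd.dvd.mul_left ⟨Q ^ 8, hsX⟩ 2
  have hbsx : ∀ ω ∈ cub (fun i => (fun _ : Fin 1 => 2 * X) i + t i * s i) s, ∀ i,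
      bs (X / Q ^ 8) (ω i) = 2 * X + t i * s i := by
    intro ω hω i
    unfold cub at hω
    exact E1_bs (hspos i) hsd ((Fintype.mem_piFinset.1 hω) i)
  -- the base point of the box
  set ω0 : Fin 1 → ℕ := fun i => 2 * X + t i * s i with hω0
  have hω0b : ω0 ∈ cub (fun i => (fun _ : Fin 1 => 2 * X) i + t i * s i) s := by
    unfold cub
    rw [Fintype.mem_piFinset]
    intro i
    rw [mem_Ico]
    have := hspos i
    exact ⟨le_refl _, Nat.lt_add_of_pos_right this⟩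
  have hω0x : ω0 ∈ bx X := by
    unfold bx cub
    rw [Fintype.mem_piFinset]
    intro i
    have h1 : (t i + 1) * s i ≤ Q ^ 8 * s i := Nat.mul_le_mul_right _ (ht i)
    have h2 : Q ^ 8 * s i = X := by
      rw [mul_comm]
      exact hsX.symm
    have h3 : (t i + 1) * s i = t i * s i + s i := by ring
    have h4 := hspos i
    rw [mem_Ico]
    show 2 * X ≤ 2 * X + t i * s i ∧ 2 * X + t i * s i < 2 * X + X
    omega
  have hbw : ∀ ω ∈ cub (fun i => (fun _ : Fin 1 => 2 * X) i + t i * s i) s, bw8 Q X ω = ω0 := by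
    intro ω hω
    funext i
    exact hbsx ω hω i
  have hfp : ∀ ω ∈ cub (fun i => (fun _ : Fin 1 => 2 * X) i + t i * s i) s,
      ∀ n ∈ Ico (Z + j * H) (Z + j * H + H), ∀ i,
      fp8 Q Z X ω n i = fp8 Q Z X ω0 (Z + j * H) i := by
    intro ω hω n hn i
    unfold fp8
    rw [hbw ω hω, hbw ω0 hω0b, hbsc n hn]
  set c0 : Ch → ℂ := C0 (B23.eval ((Z + j * H : ℕ) : ℤ)) with hc0
  set c' : Fin 2 → Ch → ℂ := fun i => Cc (fp8 Q Z X ω0 (Z + j * H) i) with hc'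
  -- sizes
  have hsz0 : ∑ p ∈ PC (Q ^ 100), ‖c0 p‖ ≤ 3 := by
    refine (Finset.sum_le_sum fun p hp => ?_).trans hC0.sum
    have h1 := hB.lo _ haI
    have h2 := hB.hi _ haI
    have h3 : (0 : ℤ) ≤ ((2 * Z - 3 : ℕ) : ℤ) := Nat.cast_nonneg _
    exact hC0.le _ h1 (by linarith) p hp
  have hsz : ∀ i, ∑ p ∈ PC Q, ‖c' i p‖ ≤ 3 := by
    intro i
    obtain ⟨-, ⟨h1, h2⟩, -⟩ := M1_geo hQ1 hG ω0 hω0x (Z + j * H) haI i
    refine (Finset.sum_le_sum fun p hp => ?_).trans hCc.sum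
    exact hCc.le _ h1 h2.le p hp
  have hA1 := hcell Q hQ1' B23 hB.lin (Q ^ b0) (Fin 1 → ℕ)
    (cub (fun i => (fun _ : Fin 1 => 2 * X) i + t i * s i) s) L2.map
    (hW Q hQ2 _ s hsb0) r hr hr100 c0 hsz0 c' hsz (Z + j * H) H hHb0 hH600
  rw [m4_card] at hA1
  refine le_trans (le_of_eq ?_) hA1
  refine Finset.sum_congr rfl fun ω hω => ?_
  congr 2
  have h2 : ∑ n ∈ Ico (Z + j * H) (Z + j * H + H), F ω n =
      ∑ n ∈ Ico (Z + j * H) (Z + j * H + H), (SG (Q ^ 100) c0 (B23.eval (n : ℤ)) *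
      ∏ i, SG Q (c' i) (L2.map ω i (n : ℤ)) -
      MDf Q (B23.leadingCoeff.natAbs * r) (Fin.cons c0 c' : Fin 3 → Ch → ℂ)
        (sy B23 (L2.map ω))) := by
    refine Finset.sum_congr rfl fun n hn => ?_
    rw [hF]
    simp only
    have h3 : (fun i : Fin 2 => Cc (fp8 Q Z X ω n i)) = c' := by
      funext i
      rw [hc', hfp ω hω n hn i]
    have h4 : (∏ i, SG Q (Cc (fp8 Q Z X ω n i)) (L2.map ω i (n : ℤ))) =
        ∏ i, SG Q (c' i) (L2.map ω i (n : ℤ)) := by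
      refine Finset.prod_congr rfl fun i _ => ?_
      rw [← h3]
    rw [h3, h4]
    unfold gB
    rw [hbsn n hn]
  rw [h2, Finset.sum_sub_distrib, Finset.sum_const, Nat.card_Ico, nsmul_eq_mul,
    Nat.add_sub_cancel_left]

end Pool.Agent.Lib.H24Q
end

-- from Lib.H24Q.M3
section

/-!
# Project H24Q, chunk M3 (M): from the primes to the projection of level `Q^100` in the linear coordinate
-/

open Finset Polynomial

namespace Pool.Agent.Lib.H24Q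

open Pool.Agent.Lib.H68T Pool.Agent.Lib.H18Q Pool.Agent.Lib.H59P Pool.Agent.Lib.H24P

theorem m3_card {g : ℕ} (b s : Fin g → ℕ) : ((cub b s).card : ℝ) = vol s := by
  unfold cub vol
  rw [Fintype.card_piFinset]
  push_cast
  refine Finset.prod_congr rfl fun i _ => ?_
  rw [Nat.card_Ico, Nat.add_sub_cancel_left]

theorem m3_N (Q N B : ℕ) (hQ : 2 ≤ Q) (hK : 2 * ((B : ℝ) + 50) * Real.log Q ≤ Real.log N) :
    1 ≤ N ∧ ∀ x : ℕ, N ≤ x ^ 2 → Q ^ (B + 50) ≤ x := by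
  have hQr : (0 : ℝ) < Q := by exact_mod_cast (show 0 < Q by omega)
  have hlQ : 0 < Real.log Q := Real.log_pos (by exact_mod_cast (show 1 < Q by omega))
  have hB0 : (0 : ℝ) ≤ B := Nat.cast_nonneg _
  have hN : 1 ≤ N := by
    rcases Nat.eq_zero_or_pos N with h | h
    · rw [h, Nat.cast_zero, Real.log_zero] at hK
      have : 0 < 2 * ((B : ℝ) + 50) * Real.log Q := by positivity
      linarith
    · exact h
  refine ⟨hN, fun x hx => ?_⟩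
  have hNr : (0 : ℝ) < N := by exact_mod_cast hN
  have h1 : Real.log ((Q : ℝ) ^ (2 * (B + 50))) ≤ Real.log N := by
    rw [Real.log_pow]
    refine le_trans (le_of_eq ?_) hK
    push_cast
    ring
  have h2 : (Q : ℝ) ^ (2 * (B + 50)) ≤ N := (Real.log_le_log_iff (by positivity) hNr).1 h1
  have h3 : Q ^ (2 * (B + 50)) ≤ N := by exact_mod_cast h2
  have h4 : (Q ^ (B + 50)) ^ 2 ≤ x ^ 2 := by
    rw [← pow_mul, mul_comm]
    exact h3.trans hx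
  exact (Nat.pow_le_pow_iff_left (by norm_num)).1 h4

/-- **M3.** Proof. `T3z` is linear in the weight, so the difference is `T3z` with the weight `fB Q (2Z-3) B23`.
`D2_cells` (`k = 1`) with `b = 2X`, `M = X`, `s = X/Q^8`, `q = Q^8`, `X1 = Z`, `H = Z/Q^8`, `N = Q^8`. On a cell `cub (2X + t s) s`,
`n ∈ Ico (Z + jH) (Z + jH + H)` the base points are `2X + t s` and `Z + jH` (`E1_bs` of `H24P`; `s ∣ 2X`, `H ∣ Z`), so the
coefficients are constant there, of total size `≤ 3` (`Cf.le`, `Cf.sum`, `M1_geo`): `R7_cell` with `X = X1 = Z`,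
`Y = 2Z - 3`, `B = B23` (`M1_GeoB`), `A = 2`, `k = 2`, `H0 = Q^b0`, `FamW` from `hW` (`Q^b0 ≤ s = X/Q^8`: `X ≥ Z ≥ N^(1/2)`,
`N ≥ Q^K`, `K ≥ 2 (b0 + 9)`; `Q^b0 ≤ H` likewise), `card (cub _ s) = vol s`. `Rg`: `log N/2 ≤ log Z ≤ log N`. The condition
`X1 ≤ H Q^8` holds as `H Q^8 = Z`. -/
theorem M3_fB (b0 : ℕ) (C c : ℝ) (hC : 1 ≤ C) (hc : 0 < c) (hW : HW C c b0 B23 L2) :
    ∃ c' K : ℝ, 0 < c' ∧ 1 ≤ K ∧ ∀ Cr : ℝ, ∃ Q0 : ℕ, ∀ (Q N Z X : ℕ), Q0 ≤ Q →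
    K * Real.log Q ≤ Real.log N → Real.log N ≤ Cr * Real.log Q → G3 Q N Z X →
    ∀ (C0 : ℤ → Ch → ℂ) (m0 : Ch → ℝ), Cf (Q ^ 100) (2 * Z - 3) C0 m0 →
    ∀ (Cc : ℤ → Ch → ℂ) (mb : Ch → ℝ), Cf Q X Cc mb →
    ∑ ω ∈ bx X, ‖T3z Q Z X Cc (fun n => ((lp (B23.eval (n : ℤ)) : ℝ) : ℂ)) ω -
      T3z Q Z X Cc
        (fun n => ((Lk (Q ^ 100) ((2 * Z - 3) / (Q ^ 100) ^ 2) (B23.eval (n : ℤ)) : ℝ) : ℂ)) ω‖ ^ 2 ≤
      X * (Z : ℝ) ^ 2 * (Q : ℝ) ^ (-c') := by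
  classical
  obtain ⟨c1, K, hc1, hK, hcell⟩ := R7_cell 2 2 (by norm_num) C c hC hc
  refine ⟨c1, max (2 * K) (2 * ((b0 : ℝ) + 50)), hc1, ?_, fun Cr => ?_⟩
  · exact le_trans (by linarith) (le_max_left _ _)
  obtain ⟨Q1, hQ1⟩ := hcell Cr
  refine ⟨max 2 Q1, fun Q N Z X hQ hKN hNC hG C0 m0 hC0 Cc mb hCc => ?_⟩
  have q2 : 2 ≤ Q := (le_max_left _ _).trans hQ
  have q1 : Q1 ≤ Q := (le_max_right _ _).trans hQ
  have q0 : 1 ≤ Q := by omega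
  have hlQ : 0 ≤ Real.log Q := Real.log_natCast_nonneg Q
  have hK1 : 2 * K * Real.log Q ≤ Real.log N :=
    (mul_le_mul_of_nonneg_right (le_max_left _ _) hlQ).trans hKN
  have hK2 : 2 * ((b0 : ℝ) + 50) * Real.log Q ≤ Real.log N :=
    (mul_le_mul_of_nonneg_right (le_max_right _ _) hlQ).trans hKN
  obtain ⟨hN1, hsq⟩ := m3_N Q N b0 q2 hK2
  obtain ⟨hGB, -, -, hNX, -⟩ := M1_GeoB hG
  have hZlo : Q ^ (b0 + 50) ≤ Z := hsq Z hG.Zlo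
  have hXlo : Q ^ (b0 + 50) ≤ X := hsq X hNX
  have hZpos : 0 < Z := lt_of_lt_of_le (Nat.pow_pos (by omega)) hZlo
  have hZr : (0 : ℝ) < Z := by exact_mod_cast hZpos
  have hNr : (0 : ℝ) < N := by exact_mod_cast hN1
  have hq8 : 0 < Q ^ 8 := Nat.pow_pos (by omega)
  have hdZ : Q ^ 8 ∣ Z := (pow_dvd_pow Q (by norm_num)).trans hG.dvdZ
  have hdX : Q ^ 8 ∣ X := (pow_dvd_pow Q (by norm_num)).trans hG.dvdX
  have hRg : Rg K Cr Q Z := by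
    constructor
    · have h1 : Real.log N ≤ 2 * Real.log Z := by
        have h2 : Real.log N ≤ Real.log ((Z : ℝ) ^ 2) :=
          Real.log_le_log hNr (by exact_mod_cast hG.Zlo)
        rwa [Real.log_pow] at h2
      linarith
    · refine le_trans (Real.log_le_log hZr ?_) hNC
      have h1 : Z ≤ N := by
        have h2 := hG.ZX
        have h3 := hG.Xhi
        omega
      exact_mod_cast h1
  set H : ℕ := Z / Q ^ 8 with hH
  set s : Fin 1 → ℕ := fun _ => X / Q ^ 8 with hs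
  have hZH : Z = H * Q ^ 8 := (Nat.div_mul_cancel hdZ).symm
  have hXs : ∀ i : Fin 1, (fun _ : Fin 1 => X) i = s i * Q ^ 8 := fun i => (Nat.div_mul_cancel hdX).symm
  have hdv : ∀ x : ℕ, Q ^ (b0 + 50) ≤ x → Q ^ b0 ≤ x / Q ^ 8 := by
    intro x hx
    rw [Nat.le_div_iff_mul_le hq8, ← pow_add]
    exact (Nat.pow_le_pow_right q0 (by omega)).trans hx
  have hHlo : Q ^ b0 ≤ H := hdv Z hZlo
  have hslo : ∀ i, Q ^ b0 ≤ s i := fun i => hdv X hXlo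
  have hHpos : 0 < H := lt_of_lt_of_le (Nat.pow_pos (by omega)) hHlo
  have hspos : ∀ i, 0 < s i := fun i => lt_of_lt_of_le (Nat.pow_pos (by omega)) (hslo i)
  set F : (Fin 1 → ℕ) → ℕ → ℂ := fun ω n => ((fB Q (2 * Z - 3) B23 n : ℝ) : ℂ) *
    ∏ i, SG Q (Cc (fp8 Q Z X ω n i)) (L2.map ω i (n : ℤ)) with hF
  have hdiff : ∀ ω : Fin 1 → ℕ,
      T3z Q Z X Cc (fun n => ((lp (B23.eval (n : ℤ)) : ℝ) : ℂ)) ω -
      T3z Q Z X Cc
        (fun n => ((Lk (Q ^ 100) ((2 * Z - 3) / (Q ^ 100) ^ 2) (B23.eval (n : ℤ)) : ℝ) : ℂ)) ω =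
      ∑ n ∈ Ico Z (2 * Z), F ω n := by
    intro ω
    unfold T3z
    rw [← Finset.sum_sub_distrib]
    refine Finset.sum_congr rfl fun n _ => ?_
    rw [hF]
    beta_reduce
    rw [← sub_mul]
    congr 1
    unfold fB
    push_cast
    ring
  rw [Finset.sum_congr rfl fun h _ => by rw [hdiff h]]
  have hvX : vol (fun _ : Fin 1 => X) = X := by
    unfold vol
    rw [Fin.prod_univ_one]
  have hE := D2_cells (fun _ : Fin 1 => 2 * X) (fun _ => X) s (Q ^ 8) hXs Z H (Q ^ 8) hZH ((Q : ℝ) ^ (-c1))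
    (Real.rpow_nonneg (Nat.cast_nonneg _) _) F ?_
  · rw [hvX] at hE
    exact hE
  intro t ht j hj
  set w0 : Fin 1 → ℕ := fun i => 2 * X + t i * s i with hw0
  have hXs0 : ∀ i, s i * Q ^ 8 = X := fun i => (hXs i).symm
  have hw0m : w0 ∈ bx X := by
    refine Fintype.mem_piFinset.2 fun i => mem_Ico.2 ⟨Nat.le_add_right _ _, ?_⟩
    have h1 : t i * s i < X := by
      calc t i * s i < Q ^ 8 * s i := Nat.mul_lt_mul_of_pos_right (ht i) (hspos i)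
        _ = X := by rw [mul_comm]; exact hXs0 i
    show 2 * X + t i * s i < 2 * X + X
    omega
  have hjH : (j + 1) * H ≤ Z := by
    calc (j + 1) * H ≤ Q ^ 8 * H := Nat.mul_le_mul_right H hj
      _ = Z := by rw [mul_comm]; exact hZH.symm
  have hjH' : j * H + H ≤ Z := by
    have : (j + 1) * H = j * H + H := by ring
    omega
  have hn0 : Z + j * H ∈ Ico Z (2 * Z) := by
    rw [mem_Ico]
    omega
  have hbw : ∀ ω ∈ cub w0 s, bw8 Q X ω = w0 := by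
    intro ω hω
    funext i
    have h1 := Fintype.mem_piFinset.1 hω i
    exact E1_bs (hspos i) (Dvd.dvd.mul_left ⟨Q ^ 8, hXs i⟩ 2) h1
  have hbn : ∀ n ∈ Ico (Z + j * H) (Z + j * H + H), bs (Z / Q ^ 8) n = Z + j * H := by
    intro n hn
    exact E1_bs hHpos ⟨Q ^ 8, hZH⟩ hn
  have hfp : ∀ ω ∈ cub w0 s, ∀ n ∈ Ico (Z + j * H) (Z + j * H + H), ∀ i,
      fp8 Q Z X ω n i = L2.map w0 i ((Z + j * H : ℕ) : ℤ) := by
    intro ω hω n hn i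
    unfold fp8
    rw [hbw ω hω, hbn n hn]
  have hval : ∀ i, (X : ℤ) ≤ L2.map w0 i ((Z + j * H : ℕ) : ℤ) ∧
      L2.map w0 i ((Z + j * H : ℕ) : ℤ) ≤ 4 * X := by
    intro i
    have h1 := (M1_geo q0 hG w0 hw0m (Z + j * H) hn0 i).1
    exact ⟨h1.1, h1.2.le⟩
  set cf : Fin 2 → Ch → ℂ := fun i => Cc (L2.map w0 i ((Z + j * H : ℕ) : ℤ)) with hcf
  have hcf3 : ∀ i, ∑ p ∈ PC Q, ‖cf i p‖ ≤ 3 := by
    intro i
    exact (Finset.sum_le_sum fun p hp => hCc.le _ (hval i).1 (hval i).2 p hp).trans hCc.sum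
  have hFam := hW Q q2 w0 s hslo
  have key := hQ1 Q Z Z (2 * Z - 3) B23 C0 m0 q1 hRg hZpos le_rfl (Nat.le_mul_of_pos_right Z (by omega)) hGB hC0
    (Q ^ b0) (Fin 1 → ℕ) (cub w0 s) L2.map hFam cf hcf3 (Z + j * H) H hHlo (Nat.le_add_right _ _) (by omega) hZH.le
  rw [m3_card] at key
  refine le_trans (le_of_eq ?_) key
  refine Finset.sum_congr rfl fun ω hω => ?_
  congr 2
  refine Finset.sum_congr rfl fun n hn => ?_
  rw [hF]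
  beta_reduce
  congr 1
  refine Finset.prod_congr rfl fun i _ => ?_
  rw [hcf]
  beta_reduce
  rw [hfp ω hω n hn i]

end Pool.Agent.Lib.H24Q
end

-- from Lib.H24Q.R9
section

/-!
# Project H24Q, chunk R9 (M): lower bounds for the main term of the system with the linear coordinate
-/

open Finset Polynomial

namespace Pool.Agent.Lib.H24Q

open Pool.Agent.Lib.H68T Pool.Agent.Lib.H18Q Pool.Agent.Lib.H59P Pool.Agent.Lib.H24P

/-- **R9.** Proof. As `C1_exc` (`H24Q/C1.lean`) for the maps `sy B (φ ω)` (`k + 1` coordinates; `R1_cp`; the bounds of `tpf` are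
`FamW.tp`), with `R8_tw` (some `i.succ ∈ Bs`) and `R8_lin` (`Bs = {0}`) instead of `C1_MR`. `c2 = min c c'`, `c'` from
`R8_lin`. -/
theorem R9_exc (k A : ℕ) (hA : 1 ≤ A) (C c : ℝ) (hC : 1 ≤ C) (hc : 0 < c) : ∃ c2 : ℝ, 0 < c2 ∧
    ∀ c6 ε : ℝ, 0 < c6 → 0 < ε → ∃ Q0 : ℕ, ∀ Q : ℕ, Q0 ≤ Q → ∀ B : ℤ[X], Lin A B →
    ∀ (H0 : ℕ) (Ω : Type) (S : Finset Ω) (φ : Ω → Fin k → ℤ → ℤ), FamW C c Q H0 B S φ →
    ∀ (r : ℕ) [NeZero r] (ψ : DirichletCharacter ℂ r) (β η : ℝ), r ^ 100 ≤ Q →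
    ψ.IsPrimitive → ψ ≠ 1 → ψ ^ 2 = 1 → β < 1 → ψ.LFunction (β : ℂ) = 0 → 1 - β ≤ 2 * η → η ≤ 1 →
    (((r : ℝ) ≤ (Q : ℝ) ^ c6 → ∀ ω ∈ S, NoFix (sy B (φ ω)) → ∀ th' : Fin (k + 1) → ℝ,
        (∀ i, 0 ≤ th' i) → (∀ i, th' i ≤ 1 - η) →
        (Q : ℝ) ^ (-((k + 1) * c6 + ε)) ≤ PMf Q ⟨r, ψ⟩ th' (sy B (φ ω))) ∧
      ((Q : ℝ) ^ c6 < r → ∃ Bad : Finset Ω, Bad ⊆ S ∧
        (Bad.card : ℝ) ≤ S.card * (Q : ℝ) ^ (-(c2 * c6 / 2)) ∧
        ∀ ω ∈ S, ω ∉ Bad → NoFix (sy B (φ ω)) → ∀ th' : Fin (k + 1) → ℝ, (∀ i, 0 ≤ th' i) →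
          (∀ i, th' i ≤ 1 - η) → (Q : ℝ) ^ (-ε) ≤ PMf Q ⟨r, ψ⟩ th' (sy B (φ ω)))) := by
  classical
  obtain ⟨C2, c2', hC2, hc2', hlin⟩ := R8_lin k A hA C c hC hc
  obtain ⟨C', c', hC', hc', hlow⟩ := C1_low (k + 1) C hC
  obtain ⟨m, hm⟩ : ∃ m : ℕ, m = k + 1 := ⟨_, rfl⟩
  have hmR : (m : ℝ) = (k : ℝ) + 1 := by rw [hm]; push_cast; rfl
  obtain ⟨c2, hc2⟩ : ∃ c2 : ℝ, c2 = min c c2' := ⟨_, rfl⟩
  have hc20 : 0 < c2 := by rw [hc2]; exact lt_min hc hc2'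
  have hc2a : c2 ≤ c := by rw [hc2]; exact min_le_left _ _
  have hc2b : c2 ≤ c2' := by rw [hc2]; exact min_le_right _ _
  refine ⟨c2, hc20, fun c6 ε hc6 hε => ?_⟩
  rw [← hmR]
  have h2c : 0 < (2 : ℝ) ^ c := Real.rpow_pos_of_pos (by norm_num) _
  obtain ⟨c0, hc0, hzero⟩ := zero_lower
  have hKpos : 0 < (c0 / 2) ^ m * c' := by positivity
  obtain ⟨Q1, hQ12, hs1⟩ := c1_small ((c0 / 2) ^ m * c') (2 * m + C') ε hε hKpos
  obtain ⟨Q2, hQ22, hs2⟩ := c1_small (1 / 2 * c') C' ε hε (by positivity)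
  obtain ⟨Q3, hQ31, hs3⟩ := G1_rlog (2 ^ m * (4 * C * 2 ^ c + C2) * (2 ^ (m + 1) / c') ^ 2)
    ((C + 2 + C2) + 2 * C') (c2 * c6 / 2)
    (by positivity)
  refine ⟨max Q1 (max Q2 Q3), ?_⟩
  intro Q hQ B hB H0 Ω S φ hF r _ ψ β η hr100 hprim hψ1 hψ2 hβ hL hη hη1
  have hQQ1 : Q1 ≤ Q := (le_max_left _ _).trans hQ
  have hQQ2 : Q2 ≤ Q := (le_max_left _ _).trans ((le_max_right _ _).trans hQ)
  have hQQ3 : Q3 ≤ Q := (le_max_right _ _).trans ((le_max_right _ _).trans hQ)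
  have hQ2 : 2 ≤ Q := hQ12.trans hQQ1
  have hQR : (2 : ℝ) ≤ Q := by exact_mod_cast hQ2
  have hQ0 : (0 : ℝ) < Q := by linarith
  have hlog : 0 ≤ Real.log Q := Real.log_natCast_nonneg Q
  have hr0 : 0 < r := Nat.pos_of_ne_zero (NeZero.ne r)
  have hrQ : r ≤ Q := (Nat.le_self_pow (by norm_num) r).trans hr100
  have hr2 : 2 ≤ r := by
    by_contra h
    have : r = 1 := by omega
    subst this
    exact hψ1 (DirichletCharacter.level_one ψ)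
  have hrR : (2 : ℝ) ≤ r := by exact_mod_cast hr2
  have hrR0 : (0 : ℝ) < r := by linarith
  have hη0 : 0 < η := by linarith
  have hpx : (⟨r, ψ⟩ : Ch) ∈ PC Q := mem_PC.2 ⟨hr0, hrQ, hprim⟩
  have hLpos : 0 < 1 + Real.log Q := by linarith
  constructor
  · intro hrc ω hω hN th' h0 h1
    have hcp := R1_cp B (φ ω) (hF.cp ω hω)
    have h2 := P5_eta (sy B (φ ω)) hcp Q ⟨r, ψ⟩ hψ2 η hη0.le th' h0 h1
    refine le_trans ?_ h2
    have h3 := hlow (sy B (φ ω)) hcp (hF.tp ω hω) hN Q hQ2 (pr Q) (Finset.Subset.refl _)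
    have h4 : c0 / (r * (1 + Real.log r) ^ 2) ≤ 1 - β := hzero r ψ hψ1 hψ2 β hβ hL
    have hlogr : Real.log r ≤ Real.log Q := Real.log_le_log hrR0 (by exact_mod_cast hrQ)
    have hlogr0 : 0 ≤ Real.log r := Real.log_natCast_nonneg r
    have h5 : (c0 / 2) * ((Q : ℝ) ^ (-c6) * (1 + Real.log Q) ^ (-(2 : ℝ))) ≤ η := by
      have h6 : (r : ℝ) * (1 + Real.log r) ^ 2 ≤ (Q : ℝ) ^ c6 * (1 + Real.log Q) ^ 2 := by
        refine mul_le_mul hrc ?_ (by positivity) (by positivity)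
        exact pow_le_pow_left₀ (by linarith) (by linarith) 2
      have h7 : c0 / ((Q : ℝ) ^ c6 * (1 + Real.log Q) ^ 2) ≤ c0 / (r * (1 + Real.log r) ^ 2) :=
        div_le_div_of_nonneg_left hc0.le (by positivity) h6
      have h8 : (c0 / 2) * ((Q : ℝ) ^ (-c6) * (1 + Real.log Q) ^ (-(2 : ℝ))) =
          c0 / ((Q : ℝ) ^ c6 * (1 + Real.log Q) ^ 2) / 2 := by
        rw [Real.rpow_neg hQ0.le, Real.rpow_neg hLpos.le, Real.rpow_two]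
        have : (Q : ℝ) ^ c6 ≠ 0 := (Real.rpow_pos_of_pos hQ0 _).ne'
        field_simp
      rw [h8]
      linarith
    have h9 : ((c0 / 2) * ((Q : ℝ) ^ (-c6) * (1 + Real.log Q) ^ (-(2 : ℝ)))) ^ m *
        (c' * (1 + Real.log Q) ^ (-C')) ≤ η ^ m * SSf (pr Q) (sy B (φ ω)) := by
      refine mul_le_mul (pow_le_pow_left₀ (by positivity) h5 m) h3 (by positivity) (by positivity)
    have hpow : η ^ m = η ^ (k + 1) := by rw [hm]
    rw [hpow] at h9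
    refine le_trans ?_ h9
    have h10 := hs1 Q hQQ1
    have h11 : (Q : ℝ) ^ (-(m * c6 + ε)) = (Q : ℝ) ^ (-(m * c6 : ℝ)) * (Q : ℝ) ^ (-ε) := by
      rw [← Real.rpow_add hQ0]
      congr 1
      ring
    rw [h11]
    have h12 : ((c0 / 2) * ((Q : ℝ) ^ (-c6) * (1 + Real.log Q) ^ (-(2 : ℝ)))) ^ m *
        (c' * (1 + Real.log Q) ^ (-C')) = (Q : ℝ) ^ (-(m * c6 : ℝ)) *
          ((c0 / 2) ^ m * c' * (1 + Real.log Q) ^ (-(2 * m + C' : ℝ))) := by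
      have e1 : ((Q : ℝ) ^ (-c6)) ^ m = (Q : ℝ) ^ (-(m * c6 : ℝ)) := by
        rw [← Real.rpow_natCast, ← Real.rpow_mul hQ0.le]
        congr 1
        ring
      have e2 : ((1 + Real.log Q) ^ (-(2 : ℝ))) ^ m = (1 + Real.log Q) ^ (-(2 * m : ℝ)) := by
        rw [← Real.rpow_natCast, ← Real.rpow_mul hLpos.le]
        congr 1
        ring
      have e3 : (1 + Real.log Q) ^ (-(2 * m + C' : ℝ)) =
          (1 + Real.log Q) ^ (-(2 * m : ℝ)) * (1 + Real.log Q) ^ (-C') := by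
        rw [← Real.rpow_add hLpos]
        congr 1
        ring
      rw [mul_pow, mul_pow, e1, e2, e3]
      ring
    rw [h12]
    exact mul_le_mul_of_nonneg_left h10 (by positivity)
  · intro hrc
    set t : ℝ := c' * (1 + Real.log Q) ^ (-C') with ht
    have ht0 : 0 < t := by positivity
    set Bad : Finset Ω := S.filter (fun ω => ∃ Bs : Finset (Fin (k + 1)), Bs.Nonempty ∧
      t < 2 ^ (m + 1) * ‖MRf (pB ⟨r, ψ⟩ Bs) r (sy B (φ ω))‖) with hBad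
    refine ⟨Bad, Finset.filter_subset _ _, ?_, ?_⟩
    · -- the number of the exceptions
      have hrR1 : (1 : ℝ) ≤ r := by linarith
      have hL1 : 1 ≤ 1 + Real.log Q := by linarith
      have hms : ∀ Bs : Finset (Fin (k + 1)), Bs.Nonempty → ∑ ω ∈ S, ‖MRf (pB ⟨r, ψ⟩ Bs) r (sy B (φ ω))‖ ^ 2 ≤
          (4 * C * 2 ^ c + C2) * (1 + Real.log Q) ^ (C + 2 + C2) * S.card * (r : ℝ) ^ (-c2) := by
        intro Bs hBs
        have g1 : 0 ≤ (1 + Real.log Q) ^ (C + 2 + C2) * S.card * (r : ℝ) ^ (-c2) := by positivity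
        by_cases hex : ∃ i : Fin k, i.succ ∈ Bs
        · refine (R8_tw hC hc hB hF.fw1 hF.cp ⟨r, ψ⟩ hpx hr2 Bs hex).trans ?_
          have g2 : (1 + Real.log Q) ^ (C + 2) ≤ (1 + Real.log Q) ^ (C + 2 + C2) :=
            Real.rpow_le_rpow_of_exponent_le hL1 (by linarith)
          have g3 : (r : ℝ) ^ (-c) ≤ (r : ℝ) ^ (-c2) := Real.rpow_le_rpow_of_exponent_le hrR1 (by linarith)
          calc 4 * C * 2 ^ c * (1 + Real.log Q) ^ (C + 2) * S.card * (r : ℝ) ^ (-c)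
              ≤ 4 * C * 2 ^ c * (1 + Real.log Q) ^ (C + 2 + C2) * S.card * (r : ℝ) ^ (-c2) := by gcongr
            _ = 4 * C * 2 ^ c * ((1 + Real.log Q) ^ (C + 2 + C2) * S.card * (r : ℝ) ^ (-c2)) := by ring
            _ ≤ (4 * C * 2 ^ c + C2) * ((1 + Real.log Q) ^ (C + 2 + C2) * S.card * (r : ℝ) ^ (-c2)) :=
                mul_le_mul_of_nonneg_right (by linarith) g1
            _ = _ := by ring
        · have hBs0 : Bs = {0} := by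
            ext i
            rw [Finset.mem_singleton]
            constructor
            · intro hi
              refine Fin.cases (fun _ => rfl) (fun j hj => absurd ⟨j, hj⟩ hex) i hi
            · rintro rfl
              obtain ⟨i, hi⟩ := hBs
              have h5 : i = 0 := Fin.cases (motive := fun i => i ∈ Bs → i = 0) (fun _ => rfl)
                (fun j hj => absurd ⟨j, hj⟩ hex) i hi
              rwa [h5] at hi
          rw [hBs0]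
          refine (hlin Q H0 B (by omega) hB Ω S φ hF.fw1 hF.cp ⟨r, ψ⟩ hpx hr2).trans ?_
          have g2 : (1 + Real.log Q) ^ C2 ≤ (1 + Real.log Q) ^ (C + 2 + C2) :=
            Real.rpow_le_rpow_of_exponent_le hL1 (by linarith)
          have g3 : (r : ℝ) ^ (-c2') ≤ (r : ℝ) ^ (-c2) := Real.rpow_le_rpow_of_exponent_le hrR1 (by linarith)
          have g4 : 0 ≤ 4 * C * 2 ^ c := by positivity
          calc C2 * (1 + Real.log Q) ^ C2 * S.card * (r : ℝ) ^ (-c2')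
              ≤ C2 * (1 + Real.log Q) ^ (C + 2 + C2) * S.card * (r : ℝ) ^ (-c2) := by gcongr
            _ = C2 * ((1 + Real.log Q) ^ (C + 2 + C2) * S.card * (r : ℝ) ^ (-c2)) := by ring
            _ ≤ (4 * C * 2 ^ c + C2) * ((1 + Real.log Q) ^ (C + 2 + C2) * S.card * (r : ℝ) ^ (-c2)) :=
                mul_le_mul_of_nonneg_right (by linarith) g1
            _ = _ := by ring
      set X : ℝ := (4 * C * 2 ^ c + C2) * (1 + Real.log Q) ^ (C + 2 + C2) * S.card * (r : ℝ) ^ (-c2) with hX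
      have hX0 : 0 ≤ X := by positivity
      have hpt : ∀ ω ∈ Bad, (t / 2 ^ (m + 1)) ^ 2 ≤ ∑ Bs ∈ (univ : Finset (Finset (Fin (k + 1)))).filter
          (fun Bs => Bs.Nonempty), ‖MRf (pB ⟨r, ψ⟩ Bs) r (sy B (φ ω))‖ ^ 2 := by
        intro ω hω
        rw [hBad, Finset.mem_filter] at hω
        obtain ⟨-, Bs, hBs, hlt⟩ := hω
        have h1 : t / 2 ^ (m + 1) ≤ ‖MRf (pB ⟨r, ψ⟩ Bs) r (sy B (φ ω))‖ := by
          rw [div_le_iff₀ (by positivity)]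
          linarith
        refine (pow_le_pow_left₀ (by positivity) h1 2).trans ?_
        exact Finset.single_le_sum (f := fun Bs => ‖MRf (pB ⟨r, ψ⟩ Bs) r (sy B (φ ω))‖ ^ 2)
          (fun _ _ => sq_nonneg _) (Finset.mem_filter.2 ⟨Finset.mem_univ Bs, hBs⟩)
      have h1 : (Bad.card : ℝ) * (t / 2 ^ (m + 1)) ^ 2 ≤ 2 ^ m * X := by
        calc (Bad.card : ℝ) * (t / 2 ^ (m + 1)) ^ 2 = ∑ _ω ∈ Bad, (t / 2 ^ (m + 1)) ^ 2 := by
              rw [Finset.sum_const, nsmul_eq_mul]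
          _ ≤ ∑ ω ∈ Bad, ∑ Bs ∈ (univ : Finset (Finset (Fin (k + 1)))).filter
              (fun Bs => Bs.Nonempty), ‖MRf (pB ⟨r, ψ⟩ Bs) r (sy B (φ ω))‖ ^ 2 := Finset.sum_le_sum hpt
          _ ≤ ∑ ω ∈ S, ∑ Bs ∈ (univ : Finset (Finset (Fin (k + 1)))).filter
              (fun Bs => Bs.Nonempty), ‖MRf (pB ⟨r, ψ⟩ Bs) r (sy B (φ ω))‖ ^ 2 :=
              Finset.sum_le_sum_of_subset_of_nonneg (Finset.filter_subset _ _)
                fun _ _ _ => Finset.sum_nonneg fun _ _ => sq_nonneg _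
          _ = ∑ Bs ∈ (univ : Finset (Finset (Fin (k + 1)))).filter
              (fun Bs => Bs.Nonempty), ∑ ω ∈ S, ‖MRf (pB ⟨r, ψ⟩ Bs) r (sy B (φ ω))‖ ^ 2 := Finset.sum_comm
          _ ≤ ∑ Bs ∈ (univ : Finset (Finset (Fin (k + 1)))).filter (fun Bs => Bs.Nonempty), X :=
              Finset.sum_le_sum fun Bs hBs => hms Bs (Finset.mem_filter.1 hBs).2
          _ ≤ 2 ^ m * X := by
              rw [Finset.sum_const, nsmul_eq_mul]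
              refine mul_le_mul_of_nonneg_right ?_ hX0
              have h2 := Finset.card_filter_le (univ : Finset (Finset (Fin (k + 1)))) (fun Bs => Bs.Nonempty)
              rw [Finset.card_univ, Fintype.card_finset, Fintype.card_fin] at h2
              have h2m : (2 : ℝ) ^ m = ((2 ^ (k + 1) : ℕ) : ℝ) := by
                rw [hm]
                push_cast
                rfl
              rw [h2m]
              exact_mod_cast h2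
      have h2 : (Bad.card : ℝ) ≤ 2 ^ m * X * (2 ^ (m + 1) / t) ^ 2 := by
        have e : (t / 2 ^ (m + 1)) ^ 2 * (2 ^ (m + 1) / t) ^ 2 = 1 := by
          rw [← mul_pow]
          have : t / 2 ^ (m + 1) * (2 ^ (m + 1) / t) = 1 := by
            field_simp
          rw [this, one_pow]
        calc (Bad.card : ℝ) = (Bad.card : ℝ) * (t / 2 ^ (m + 1)) ^ 2 * (2 ^ (m + 1) / t) ^ 2 := by
              rw [mul_assoc, e, mul_one]
          _ ≤ _ := mul_le_mul_of_nonneg_right h1 (sq_nonneg _)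
      refine h2.trans ?_
      have h3 : (r : ℝ) ^ (-c2) ≤ (Q : ℝ) ^ (-(c2 * c6)) := by
        have e : (Q : ℝ) ^ (-(c2 * c6)) = ((Q : ℝ) ^ c6) ^ (-c2) := by
          rw [← Real.rpow_mul hQ0.le]
          congr 1
          ring
        rw [e]
        exact Real.rpow_le_rpow_of_nonpos (Real.rpow_pos_of_pos hQ0 _) hrc.le (by linarith)
      have h4 : 2 ^ m * X * (2 ^ (m + 1) / t) ^ 2 = (2 ^ m * (4 * C * 2 ^ c + C2) * (2 ^ (m + 1) / c') ^ 2 *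
          (1 + Real.log Q) ^ ((C + 2 + C2) + 2 * C')) * (S.card * (r : ℝ) ^ (-c2)) := by
        have e1 : (1 + Real.log Q) ^ ((C + 2 + C2) + 2 * C') = (1 + Real.log Q) ^ (C + 2 + C2) * ((1 + Real.log Q) ^ C') ^ 2 := by
          rw [Real.rpow_add hLpos, ← Real.rpow_natCast ((1 + Real.log Q) ^ C') 2, ← Real.rpow_mul hLpos.le]
          congr 2
          push_cast
          ring
        have hne : (1 + Real.log Q) ^ C' ≠ 0 := (Real.rpow_pos_of_pos hLpos _).ne'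
        rw [e1, hX, ht, Real.rpow_neg hLpos.le]
        field_simp
      rw [h4]
      have h5 := hs3 Q hQQ3
      calc (2 ^ m * (4 * C * 2 ^ c + C2) * (2 ^ (m + 1) / c') ^ 2 * (1 + Real.log Q) ^ ((C + 2 + C2) + 2 * C')) *
            (S.card * (r : ℝ) ^ (-c2))
          ≤ (Q : ℝ) ^ (c2 * c6 / 2) * (S.card * (Q : ℝ) ^ (-(c2 * c6))) := by
            refine mul_le_mul h5 (mul_le_mul_of_nonneg_left h3 (Nat.cast_nonneg _)) (by positivity)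
              (by positivity)
        _ = S.card * ((Q : ℝ) ^ (c2 * c6 / 2) * (Q : ℝ) ^ (-(c2 * c6))) := by ring
        _ = S.card * (Q : ℝ) ^ (-(c2 * c6 / 2)) := by
            rw [← Real.rpow_add hQ0]
            congr 2
            ring
    · intro ω hω hωB hN th' h0 h1
      have hcp := R1_cp B (φ ω) (hF.cp ω hω)
      have hsub : r.primeFactors ⊆ pr Q := by
        intro l hl
        rw [p5_mem_pr]
        exact ⟨Nat.prime_of_mem_primeFactors hl, (Nat.le_of_mem_primeFactors hl).trans hrQ⟩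
      have h2 := hlow (sy B (φ ω)) hcp (hF.tp ω hω) hN Q hQ2 r.primeFactors hsub
      have h3 := P5_X2 (sy B (φ ω)) hcp Q ⟨r, ψ⟩ hpx hψ2 th' h0 (fun i => (h1 i).trans (by linarith)) (by
        intro Bs hBs
        by_contra hcon
        apply hωB
        rw [hBad, Finset.mem_filter]
        refine ⟨hω, Bs, hBs, ?_⟩
        push Not at hcon
        have hp1 : (2 : ℝ) ^ (m + 1) = 2 ^ (k + 1 + 1) := by rw [hm]
        rw [hp1]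
        exact lt_of_le_of_lt h2 hcon)
      refine le_trans ?_ h3
      have h4 := hlow (sy B (φ ω)) hcp (hF.tp ω hω) hN Q hQ2 (pr Q) (Finset.Subset.refl _)
      have h5 := hs2 Q hQQ2
      linarith


end Pool.Agent.Lib.H24Q
end

-- from Lib.H24Q.M6
section

/-!
# Project H24Q, chunk M6 (S/M): no fixed divisor for the three-fold count, lower bounds for the main term
-/

open Finset Polynomial

namespace Pool.Agent.Lib.H24Q

open Pool.Agent.Lib.H68T Pool.Agent.Lib.H18Q Pool.Agent.Lib.H59P Pool.Agent.Lib.H24P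

theorem m6_e0 (ω : Fin 1 → ℕ) (n : ℤ) : sy B23 (L2.map ω) 0 n = 2 * n - 3 := d0_lin n

theorem m6_e1 (ω : Fin 1 → ℕ) (n : ℤ) : sy B23 (L2.map ω) 1 n = ω 0 + n := by
  have h : sy B23 (L2.map ω) 1 n = 1 * (ω 0 : ℤ) + 1 * n + 0 := rfl
  rw [h]
  ring

theorem m6_e2 (ω : Fin 1 → ℕ) (n : ℤ) : sy B23 (L2.map ω) 2 n = ω 0 - n := by
  have h : sy B23 (L2.map ω) 2 n = 1 * (ω 0 : ℤ) + (-1) * n + 0 := rfl
  rw [h]
  ring

theorem m6_all (ω : Fin 1 → ℕ) (l : ℕ) (n : ℤ) (h0 : ¬ (l : ℤ) ∣ 2 * n - 3) (h1 : ¬ (l : ℤ) ∣ ω 0 + n)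
    (h2 : ¬ (l : ℤ) ∣ ω 0 - n) : ∀ i, ¬ (l : ℤ) ∣ sy B23 (L2.map ω) i n := by
  intro i
  fin_cases i
  · exact fun h => h0 (m6_e0 ω n ▸ h)
  · exact fun h => h1 (m6_e1 ω n ▸ h)
  · exact fun h => h2 (m6_e2 ω n ▸ h)

theorem m6_diff (ω : Fin 1 → ℕ) (i : Fin 3) (a b : ℤ) :
    sy B23 (L2.map ω) i a - sy B23 (L2.map ω) i b = 2 * (a - b) ∨
    sy B23 (L2.map ω) i a - sy B23 (L2.map ω) i b = a - b ∨
    sy B23 (L2.map ω) i a - sy B23 (L2.map ω) i b = -(a - b) := by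
  fin_cases i
  · refine Or.inl ?_
    have h1 := m6_e0 ω a
    have h2 := m6_e0 ω b
    show sy B23 (L2.map ω) 0 a - sy B23 (L2.map ω) 0 b = _
    rw [h1, h2]
    ring
  · refine Or.inr (Or.inl ?_)
    have h1 := m6_e1 ω a
    have h2 := m6_e1 ω b
    show sy B23 (L2.map ω) 1 a - sy B23 (L2.map ω) 1 b = _
    rw [h1, h2]
    ring
  · refine Or.inr (Or.inr ?_)
    have h1 := m6_e2 ω a
    have h2 := m6_e2 ω b
    show sy B23 (L2.map ω) 2 a - sy B23 (L2.map ω) 2 b = _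
    rw [h1, h2]
    ring

theorem m6_card (X : ℕ) : ((bx X).card : ℝ) = X := by
  unfold bx cub
  rw [Fintype.card_piFinset]
  simp only [Nat.card_Ico]
  rw [Fin.prod_univ_one]
  congr 1
  omega

/-- Proof. Let `l` be a prime; choose `n` modulo `l`. `l = 2`: `n = x + 1` (`2n - 3` is odd). `l = 3`: `n = 1`
(`x ± 1`, `-1`, as `3 ∣ x`). `l ≥ 5`: the at most three classes `x`, `-x`, `3/2` do not cover all. -/
theorem M6_fix (ω : Fin 1 → ℕ) (h3 : 3 ∣ ω 0) : NoFix (sy B23 (L2.map ω)) := by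
  intro l hl
  have hl2 := hl.two_le
  rcases Nat.lt_or_ge l 5 with h5 | h5
  · interval_cases l
    · refine ⟨ω 0 + 1, m6_all ω _ _ ?_ ?_ ?_⟩
      · omega
      · omega
      · omega
    · obtain ⟨c, hc⟩ := h3
      refine ⟨1, m6_all ω _ _ ?_ ?_ ?_⟩
      · omega
      · rw [hc]
        push_cast
        omega
      · rw [hc]
        push_cast
        omega
    · exact absurd hl (by norm_num)
  · by_contra hno
    push Not at hno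
    choose f hf using fun n : Fin 4 => hno ((n : ℕ) : ℤ)
    obtain ⟨a, b, hab, hfab⟩ := Fintype.exists_ne_map_eq_of_card_lt f (by simp)
    have h1 := hf a
    have h2 := hf b
    rw [← hfab] at h2
    have h4 := dvd_sub h1 h2
    have hlp : Prime (l : ℤ) := Nat.prime_iff_prime_int.1 hl
    have ha := a.2
    have hb := b.2
    have hab' : (a : ℕ) ≠ b := fun h => hab (Fin.ext h)
    have h5' : (5 : ℤ) ≤ l := by exact_mod_cast h5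
    have h6 : ¬ (l : ℤ) ∣ ((a : ℕ) : ℤ) - ((b : ℕ) : ℤ) := by
      intro h
      have h7 := Int.eq_zero_of_abs_lt_dvd h (by
        rw [abs_lt]
        omega)
      omega
    have h8 : ¬ (l : ℤ) ∣ 2 := by
      intro h
      have h9 := Int.le_of_dvd (by norm_num) h
      omega
    rcases m6_diff ω (f a) ((a : ℕ) : ℤ) ((b : ℕ) : ℤ) with h7 | h7 | h7
    · rw [h7] at h4
      rcases hlp.dvd_or_dvd h4 with h9 | h9
      · exact h8 h9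
      · exact h6 h9
    · rw [h7] at h4
      exact h6 h4
    · rw [h7] at h4
      exact h6 ((dvd_neg).1 h4)

/-- First case. Proof. `C1_good` with `m = 3` (good levels; `Cp` by `R1_cp`, the bounds of `tpf` from `FamW.tp`, `FamW` from `hW`
for `S = bx X`, `Q^b0 ≤ X`), `R9_exc` first part (exceptional levels; `k = A = 2`); `Q^(-ε) ≥ Q^(-(3 c6 + ε))`. `M6_fix`. -/
theorem M6_A (b0 : ℕ) (C c : ℝ) (hC : 1 ≤ C) (hc : 0 < c) (hW : HW C c b0 B23 L2) (c6 ε : ℝ)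
    (hc6 : 0 < c6) (hε : 0 < ε) : ∃ Q0 : ℕ, ∀ (Q X : ℕ), Q0 ≤ Q → Q ^ b0 ≤ X →
    (∀ ω ∈ bx X, 3 ∣ ω 0 → ∀ th' : Fin 3 → ℝ, (∀ i, 0 ≤ th' i) → (∀ i, th' i ≤ 1 - 1) →
      (Q : ℝ) ^ (-(3 * c6 + ε)) ≤ PMf Q p0 th' (sy B23 (L2.map ω))) ∧
    ∀ (r : ℕ) [NeZero r] (ψ : DirichletCharacter ℂ r) (β η : ℝ), r ^ 100 ≤ Q →
    ψ.IsPrimitive → ψ ≠ 1 → ψ ^ 2 = 1 → β < 1 → ψ.LFunction (β : ℂ) = 0 → 1 - β ≤ 2 * η → η ≤ 1 →
    (r : ℝ) ≤ (Q : ℝ) ^ c6 → ∀ ω ∈ bx X, 3 ∣ ω 0 → ∀ th' : Fin 3 → ℝ, (∀ i, 0 ≤ th' i) →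
      (∀ i, th' i ≤ 1 - η) → (Q : ℝ) ^ (-(3 * c6 + ε)) ≤ PMf Q ⟨r, ψ⟩ th' (sy B23 (L2.map ω)) := by
  obtain ⟨Q1, h1⟩ := C1_good 3 C (3 * c6 + ε) hC (by positivity)
  obtain ⟨c2, hc2, h2⟩ := R9_exc 2 2 (by norm_num) C c hC hc
  obtain ⟨Q2, h2'⟩ := h2 c6 ε hc6 hε
  refine ⟨max 2 (max Q1 Q2), fun Q X hQ hQX => ?_⟩
  have hQ2 : 2 ≤ Q := (le_max_left _ _).trans hQ
  have hQ1' : Q1 ≤ Q := (le_max_left _ _).trans ((le_max_right _ _).trans hQ)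
  have hQ2' : Q2 ≤ Q := (le_max_right _ _).trans ((le_max_right _ _).trans hQ)
  have hfam : FamW C c Q (Q ^ b0) B23 (bx X) L2.map := hW Q hQ2 (fun _ => 2 * X) (fun _ => X) (fun _ => hQX)
  refine ⟨fun ω hω h3 th' ht0 ht1 => ?_, ?_⟩
  · exact h1 Q hQ1' (sy B23 (L2.map ω)) (R1_cp _ _ (hfam.cp ω hω)) (hfam.tp ω hω) (M6_fix ω h3) th' ht0 ht1
  · intro r _ ψ β η hr hψ1 hψ2 hψ3 hβ hL h1β hη hrc ω hω h3 th' ht0 ht1
    have h4 := (h2' Q hQ2' B23 D0_lin.1 (Q ^ b0) (Fin 1 → ℕ) (bx X) L2.map hfam r ψ β η hr hψ1 hψ2 hψ3 hβ hL h1β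
      hη).1 hrc ω hω (M6_fix ω h3) th' ht0 ht1
    have e : -((((2 : ℕ) : ℝ) + 1) * c6 + ε) = -(3 * c6 + ε) := by
      norm_num
    rw [e] at h4
    exact h4

/-- Second case. Proof. `R9_exc`, second part, for `S = bx X` (`card = X`), `M6_fix`. -/
theorem M6_B (b0 : ℕ) (C c : ℝ) (hC : 1 ≤ C) (hc : 0 < c) (hW : HW C c b0 B23 L2) :
    ∃ c2 : ℝ, 0 < c2 ∧ ∀ c6 ε : ℝ, 0 < c6 → 0 < ε → ∃ Q0 : ℕ, ∀ (Q X : ℕ), Q0 ≤ Q → Q ^ b0 ≤ X →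
    ∀ (r : ℕ) [NeZero r] (ψ : DirichletCharacter ℂ r) (β η : ℝ), r ^ 100 ≤ Q →
    ψ.IsPrimitive → ψ ≠ 1 → ψ ^ 2 = 1 → β < 1 → ψ.LFunction (β : ℂ) = 0 → 1 - β ≤ 2 * η → η ≤ 1 →
    (Q : ℝ) ^ c6 < r → ∃ Bad : Finset (Fin 1 → ℕ), Bad ⊆ bx X ∧
      (Bad.card : ℝ) ≤ X * (Q : ℝ) ^ (-(c2 * c6 / 2)) ∧
      ∀ ω ∈ bx X, ω ∉ Bad → 3 ∣ ω 0 → ∀ th' : Fin 3 → ℝ, (∀ i, 0 ≤ th' i) →
        (∀ i, th' i ≤ 1 - η) → (Q : ℝ) ^ (-ε) ≤ PMf Q ⟨r, ψ⟩ th' (sy B23 (L2.map ω)) := by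
  obtain ⟨c2, hc2, h2⟩ := R9_exc 2 2 (by norm_num) C c hC hc
  refine ⟨c2, hc2, fun c6 ε hc6 hε => ?_⟩
  obtain ⟨Q2, h2'⟩ := h2 c6 ε hc6 hε
  refine ⟨max 2 Q2, fun Q X hQ hQX => ?_⟩
  have hQ2 : 2 ≤ Q := (le_max_left _ _).trans hQ
  have hQ2' : Q2 ≤ Q := (le_max_right _ _).trans hQ
  have hfam : FamW C c Q (Q ^ b0) B23 (bx X) L2.map := hW Q hQ2 (fun _ => 2 * X) (fun _ => X) (fun _ => hQX)
  intro r _ ψ β η hr hψ1 hψ2 hψ3 hβ hL h1β hη hrc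
  obtain ⟨Bad, hB1, hB2, hB3⟩ := (h2' Q hQ2' B23 D0_lin.1 (Q ^ b0) (Fin 1 → ℕ) (bx X) L2.map hfam r ψ β η hr hψ1
    hψ2 hψ3 hβ hL h1β hη).2 hrc
  rw [m6_card] at hB2
  exact ⟨Bad, hB1, hB2, fun ω hω hωB h3 th' ht0 ht1 => hB3 ω hω hωB (M6_fix ω h3) th' ht0 ht1⟩

end Pool.Agent.Lib.H24Q
end

-- from Lib.H24Q.M5
section

/-!
# Project H24Q, chunk M5 (M): the lower bound for the three-fold count
-/

open Finset Polynomial

namespace Pool.Agent.Lib.H24Q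

open Pool.Agent.Lib.H68T Pool.Agent.Lib.H18Q Pool.Agent.Lib.H59P Pool.Agent.Lib.H24P

theorem m5_four (a b c d : ℂ) : ‖a + b + c + d‖ ^ 2 ≤ 4 * (‖a‖ ^ 2 + ‖b‖ ^ 2 + ‖c‖ ^ 2 + ‖d‖ ^ 2) := by
  have h1 : ‖a + b + c + d‖ ≤ ‖a‖ + ‖b‖ + ‖c‖ + ‖d‖ :=
    (norm_add_le _ _).trans (by linarith [(norm_add_le (a + b) c), norm_add_le a b])
  refine (pow_le_pow_left₀ (norm_nonneg _) h1 2).trans ?_
  nlinarith [sq_nonneg (‖a‖ - ‖b‖), sq_nonneg (‖a‖ - ‖c‖), sq_nonneg (‖a‖ - ‖d‖), sq_nonneg (‖b‖ - ‖c‖),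
    sq_nonneg (‖b‖ - ‖d‖), sq_nonneg (‖c‖ - ‖d‖)]

theorem m5_PC {Q : ℕ} (hQ : 1 ≤ Q) {p : Ch} (hp : p ∈ PC Q) : p ∈ PC (Q ^ 100) := by
  obtain ⟨h1, h2, h3⟩ := mem_PC.1 hp
  exact mem_PC.2 ⟨h1, h2.trans (Nat.le_self_pow (by norm_num) Q), h3⟩

/-- Proof. Definitions: `KL`, `L2.map ω 0 n = ω 0 + n`, `L2.map ω 1 n = ω 0 - n` (`Fin.prod_univ_two`),
`B23.eval n = 2 n - 3` (`D0_lin`). -/
theorem M5_T3w (Q Z X : ℕ) (ω : Fin 1 → ℕ) :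
    T3w Q Z X (fun n => ((lp (B23.eval (n : ℤ)) : ℝ) : ℂ)) ω =
      ((∑ y ∈ Ico Z (2 * Z), KL Q X (ω 0) y * lp (2 * (y : ℤ) - 3) : ℝ) : ℂ) := by
  unfold T3w
  rw [Complex.ofReal_sum]
  refine Finset.sum_congr rfl fun n _ => ?_
  rw [Fin.prod_univ_two]
  have e0 : L2.map ω 0 (n : ℤ) = (ω 0 : ℤ) + n := by
    have h : L2.map ω 0 (n : ℤ) = 1 * (ω 0 : ℤ) + 1 * n + 0 := rfl
    rw [h]
    ring
  have e1 : L2.map ω 1 (n : ℤ) = (ω 0 : ℤ) - n := by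
    have h : L2.map ω 1 (n : ℤ) = 1 * (ω 0 : ℤ) + (-1) * n + 0 := rfl
    rw [h]
    ring
  rw [e0, e1]
  beta_reduce
  rw [D0_lin.2.2]
  unfold KL
  push_cast
  ring

/-- **M5.** Proof. Compare `Z4_main`, `Z3_main` in `H24P`. `CF0` of `H59P` at the level `Q^100`, scale `2Z - 3`, and at the level
`Q`, scale `X` (`E0 ≤ 1`). `M2_lp`, `M3_fB`, `M2_gB`, `M4_main` with `r = px.1`, `(∑ of 4)² ≤ 4 ∑ squares`: the mean square of
`T3w (lp) - M3z` is at most `X Z² Q^(-c)`; `z4_cheb` (`H59P`): `Bad` = the `ω` with difference `> Z Q^(-c/4)`. For the others, for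
each `n`, `Z3_cell` of `H24P` (`k = 3` coordinates, `m0 = 2 px.1 ≤ fl Q (1/16)` by `G1_size` with `A = a = 2`; `th i` = `th` at the
frozen points `B23 (bs …) ∈ [Y, 3Y)` (`M1_GeoB`) resp. `fp8 ∈ [X, 4X)` (`M1_geo`); the errors `e` at level `Q^100` summed over
`PC Q ⊆ PC (Q^100)`; `MX px th x p = MX px (fun _ => th x) 0 p` by unfolding), so `Re M3z ≥ Z m0/2`. `M5_T3w`. -/
theorem M5_main (b0 : ℕ) (C c : ℝ) (hC : 1 ≤ C) (hc : 0 < c) (hW : HW C c b0 B23 L2) :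
    ∃ c' K : ℝ, 0 < c' ∧ 1 ≤ K ∧ ∀ Cr : ℝ, ∃ Q0 : ℕ, ∀ (Q N Z X : ℕ) (η E0 : ℝ) (px : Ch)
    (th : ℤ → ℝ), Q0 ≤ Q → K * Real.log Q ≤ Real.log N → Real.log N ≤ Cr * Real.log Q →
    G3 Q N Z X → px ∈ PC Q → px.1 ^ 100 ≤ Q → Mdl (Q ^ 100) (2 * Z - 3) η E0 px th →
    Mdl Q X η E0 px th → 0 ≤ E0 → 12 * E0 ≤ 1 →
    ∃ Bad : Finset (Fin 1 → ℕ), Bad ⊆ bx X ∧ (Bad.card : ℝ) ≤ X * (Q : ℝ) ^ (-c') ∧
      ∀ ω ∈ bx X, ω ∉ Bad → ∀ m0 : ℝ, (∀ th' : Fin 3 → ℝ, (∀ i, 0 ≤ th' i) →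
        (∀ i, th' i ≤ 1 - η) → (px = p0 → ∀ i, th' i = 0) →
        m0 ≤ PMf Q px th' (sy B23 (L2.map ω))) →
        Z * (m0 / 2 - (Q : ℝ) ^ (-c')) ≤
          ∑ y ∈ Ico Z (2 * Z), KL Q X (ω 0) y * lp (2 * (y : ℤ) - 3) := by
  classical
  obtain ⟨c3, K3, hc3, hK3, h3⟩ := M3_fB b0 C c hC hc hW
  obtain ⟨c4, K4, hc4, hK4, Q4, h4⟩ := M4_main b0 C c hC hc hW
  obtain ⟨Q5, h5⟩ := M2_gB
  obtain ⟨Q6, hQ6, hsize⟩ := G1_size 2
  obtain ⟨cm, hcm⟩ : ∃ cm : ℝ, cm = min (min c3 c4) (1 / 2) := ⟨_, rfl⟩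
  have hcm0 : 0 < cm := by
    rw [hcm]
    exact lt_min (lt_min hc3 hc4) (by norm_num)
  have hcm3 : cm ≤ c3 := by
    rw [hcm]
    exact (min_le_left _ _).trans (min_le_left _ _)
  have hcm4 : cm ≤ c4 := by
    rw [hcm]
    exact (min_le_left _ _).trans (min_le_right _ _)
  have hcm5 : cm ≤ 1 / 2 := by
    rw [hcm]
    exact min_le_right _ _
  obtain ⟨Q7, hQ7, hlog⟩ := G1_rlog 16 0 (cm / 2) (by positivity)
  obtain ⟨c1, hc1⟩ : ∃ c1 : ℝ, c1 = cm / 2 := ⟨_, rfl⟩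
  have hc10 : 0 < c1 := by
    rw [hc1]
    positivity
  refine ⟨c1 / 4, max K3 K4, by positivity, hK3.trans (le_max_left _ _), fun Cr => ?_⟩
  obtain ⟨Q3, h3'⟩ := h3 Cr
  obtain ⟨Q2, h2⟩ := M2_lp Cr
  refine ⟨max (max (max Q2 Q3) (max Q4 Q5)) (max (max Q6 Q7) 2), ?_⟩
  intro Q N Z X η E0 px th hQ hKN hNC hG hpx hpx100 hM0 hM hE0 hE12
  have q2 : Q2 ≤ Q := (le_max_left _ _).trans ((le_max_left _ _).trans ((le_max_left _ _).trans hQ))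
  have q3 : Q3 ≤ Q := (le_max_right _ _).trans ((le_max_left _ _).trans ((le_max_left _ _).trans hQ))
  have q4 : Q4 ≤ Q := (le_max_left _ _).trans ((le_max_right _ _).trans ((le_max_left _ _).trans hQ))
  have q5 : Q5 ≤ Q := (le_max_right _ _).trans ((le_max_right _ _).trans ((le_max_left _ _).trans hQ))
  have q6 : Q6 ≤ Q := (le_max_left _ _).trans ((le_max_left _ _).trans ((le_max_right _ _).trans hQ))
  have q7 : Q7 ≤ Q := (le_max_right _ _).trans ((le_max_left _ _).trans ((le_max_right _ _).trans hQ))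
  have q8 : 2 ≤ Q := (le_max_right _ _).trans ((le_max_right _ _).trans hQ)
  have q0 : 1 ≤ Q := by omega
  have hQr : (1 : ℝ) ≤ Q := by exact_mod_cast q0
  have hQr0 : (0 : ℝ) < Q := by linarith
  have hlQ : 0 ≤ Real.log Q := Real.log_natCast_nonneg Q
  have hKN3 : K3 * Real.log Q ≤ Real.log N :=
    (mul_le_mul_of_nonneg_right (le_max_left _ _) hlQ).trans hKN
  have hKN4 : K4 * Real.log Q ≤ Real.log N :=
    (mul_le_mul_of_nonneg_right (le_max_right _ _) hlQ).trans hKN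
  have hE1 : E0 ≤ 1 := by linarith
  obtain ⟨hGB, -, -, -, -⟩ := M1_GeoB hG
  have hZ3 : 3 ≤ Z := by
    have h6 := hG.nine
    have h7 := hG.Zlo
    by_contra hlt
    push Not at hlt
    have h8 : Z ^ 2 ≤ 2 ^ 2 := Nat.pow_le_pow_left (by omega) 2
    omega
  have hZpos : 0 < Z := by omega
  have hZr : (0 : ℝ) < Z := by exact_mod_cast hZpos
  have hXr : (0 : ℝ) ≤ X := Nat.cast_nonneg _
  obtain ⟨e0, eb0, mb0, a1, a2, a3, a4⟩ := CF0 (Q ^ 100) (2 * Z - 3) η E0 px th (Nat.one_le_pow _ _ (by omega)) hM0 hE1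
  obtain ⟨e1, eb1, mb1, b1, b2, b3, b4⟩ := CF0 Q X η E0 px th q0 hM hE1
  obtain ⟨C0, hC0⟩ : ∃ C0 : ℤ → Ch → ℂ, C0 = fun m p => MX px th m p + e0 m p := ⟨_, rfl⟩
  obtain ⟨Cc, hCc⟩ : ∃ Cc : ℤ → Ch → ℂ, Cc = fun m p => MX px th m p + e1 m p := ⟨_, rfl⟩
  rw [← hC0] at a4
  rw [← hCc] at b4
  have g1 := h2 Q N Z X q2 hNC hG Cc mb1 b4
  have g2 := h3' Q N Z X q3 hKN3 hNC hG C0 mb0 a4 Cc mb1 b4
  have g3 := h5 Q N Z X q5 hG C0 mb0 a4 Cc mb1 b4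
  have g4 := h4 Q N Z X q4 hKN4 hG C0 mb0 a4 Cc mb1 b4 px.1 (mem_PC.1 hpx).1 hpx100
  have hV0 : 0 ≤ (X : ℝ) * (Z : ℝ) ^ 2 := by positivity
  have hle : ∀ x : ℝ, cm ≤ x → (X : ℝ) * (Z : ℝ) ^ 2 * (Q : ℝ) ^ (-x) ≤ X * (Z : ℝ) ^ 2 * (Q : ℝ) ^ (-cm) := by
    intro x hx
    exact mul_le_mul_of_nonneg_left (Real.rpow_le_rpow_of_exponent_le hQr (by linarith)) hV0
  have g1' := g1.trans (hle _ hcm5)
  have g2' := g2.trans (hle _ hcm3)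
  have g3' := g3.trans (hle 10 (by linarith))
  have g4' := g4.trans (hle _ hcm4)
  obtain ⟨T, hT⟩ : ∃ T : (Fin 1 → ℕ) → ℂ, T = T3w Q Z X (fun n => ((lp (B23.eval (n : ℤ)) : ℝ) : ℂ)) := ⟨_, rfl⟩
  rw [← hT] at g1'
  have hms : ∑ ω ∈ bx X, ‖T ω - M3z Q Z X px.1 C0 Cc ω‖ ^ 2 ≤ X * (Z : ℝ) ^ 2 * (Q : ℝ) ^ (-c1) := by
    have k1 : ∀ ω ∈ bx X, ‖T ω - M3z Q Z X px.1 C0 Cc ω‖ ^ 2 ≤
        4 * (‖T ω - T3z Q Z X Cc (fun n => ((lp (B23.eval (n : ℤ)) : ℝ) : ℂ)) ω‖ ^ 2 +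
          ‖T3z Q Z X Cc (fun n => ((lp (B23.eval (n : ℤ)) : ℝ) : ℂ)) ω -
            T3z Q Z X Cc (fun n => ((Lk (Q ^ 100) ((2 * Z - 3) / (Q ^ 100) ^ 2) (B23.eval (n : ℤ)) : ℝ) : ℂ)) ω‖ ^ 2 +
          ‖T3z Q Z X Cc (fun n => ((Lk (Q ^ 100) ((2 * Z - 3) / (Q ^ 100) ^ 2) (B23.eval (n : ℤ)) : ℝ) : ℂ)) ω -
            T3z Q Z X Cc (gB Q Z B23 C0) ω‖ ^ 2 +
          ‖T3z Q Z X Cc (gB Q Z B23 C0) ω - M3z Q Z X px.1 C0 Cc ω‖ ^ 2) := by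
      intro ω _
      refine le_trans (le_of_eq ?_) (m5_four _ _ _ _)
      congr 2
      ring
    refine (Finset.sum_le_sum k1).trans ?_
    rw [← Finset.mul_sum, Finset.sum_add_distrib, Finset.sum_add_distrib, Finset.sum_add_distrib]
    have k2 : (Q : ℝ) ^ (-c1) = (Q : ℝ) ^ (cm / 2) * (Q : ℝ) ^ (-cm) := by
      rw [← Real.rpow_add hQr0, hc1]
      congr 1
      ring
    have k3 := hlog Q q7
    rw [Real.rpow_zero, mul_one] at k3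
    have k4 : 0 ≤ (X : ℝ) * (Z : ℝ) ^ 2 * (Q : ℝ) ^ (-cm) := mul_nonneg hV0 (Real.rpow_nonneg hQr0.le _)
    have k5 := mul_le_mul_of_nonneg_right k3 k4
    rw [k2]
    linarith
  have hTpos : 0 < (Z : ℝ) * (Q : ℝ) ^ (-(c1 / 4)) := by positivity
  have hch := z4_cheb (bx X) (fun ω => ‖T ω - M3z Q Z X px.1 C0 Cc ω‖) _ _ hTpos hms (fun _ => norm_nonneg _)
  refine ⟨_, filter_subset _ _, hch.trans ?_, ?_⟩
  · have k1 : ((Z : ℝ) * (Q : ℝ) ^ (-(c1 / 4))) ^ 2 = (Z : ℝ) ^ 2 * (Q : ℝ) ^ (-(c1 / 2)) := by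
      rw [mul_pow, ← Real.rpow_natCast ((Q : ℝ) ^ (-(c1 / 4))), ← Real.rpow_mul hQr0.le]
      congr 2
      push_cast
      ring
    have k2 : (Q : ℝ) ^ (-c1) = (Q : ℝ) ^ (-(c1 / 2)) * (Q : ℝ) ^ (-(c1 / 2)) := by
      rw [← Real.rpow_add hQr0]
      congr 1
      ring
    have k3 : (0 : ℝ) < (Q : ℝ) ^ (-(c1 / 2)) := Real.rpow_pos_of_pos hQr0 _
    have k4 : (X : ℝ) * (Z : ℝ) ^ 2 * (Q : ℝ) ^ (-c1) / ((Z : ℝ) * (Q : ℝ) ^ (-(c1 / 4))) ^ 2 =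
        X * (Q : ℝ) ^ (-(c1 / 2)) := by
      rw [k1, k2]
      field_simp
    rw [k4]
    exact mul_le_mul_of_nonneg_left (Real.rpow_le_rpow_of_exponent_le hQr (by linarith)) hXr
  · intro ω hω hbad m0 hm0
    rw [mem_filter, not_and, not_lt] at hbad
    have k1 := hbad hω
    have hlc : B23.leadingCoeff.natAbs = 2 := by rw [D0_lin.2.1]; rfl
    have hcond := (hsize Q q6 px.1 2 (by norm_num) le_rfl hpx100).1
    have hq800 : Q ^ 800 ∣ Z := hG.dvdZ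
    have hH800 : 0 < Z / Q ^ 800 := Nat.div_pos (Nat.le_of_dvd hZpos hq800) (Nat.pow_pos (by omega))
    have hcell : ∀ n ∈ Ico Z (2 * Z), m0 / 2 ≤
        (MDf Q (B23.leadingCoeff.natAbs * px.1) (Fin.cons (C0 (B23.eval ((bs (Z / Q ^ 800) n : ℕ) : ℤ)))
          (fun i : Fin 2 => Cc (fp8 Q Z X ω n i)) : Fin 3 → Ch → ℂ) (sy B23 (L2.map ω))).re := by
      intro n hn
      have d1 := (v1a_bs (Z / Q ^ 800) (Q ^ 800) n Z hH800 (Nat.div_mul_cancel hq800).symm hn).1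
      have d2 : ((2 * Z - 3 : ℕ) : ℤ) ≤ B23.eval ((bs (Z / Q ^ 800) n : ℕ) : ℤ) ∧
          B23.eval ((bs (Z / Q ^ 800) n : ℕ) : ℤ) ≤ 4 * ((2 * Z - 3 : ℕ) : ℤ) := by
        have d3 := hGB.lo _ d1
        have d4 := hGB.hi _ d1
        refine ⟨d3, ?_⟩
        have d5 : (0 : ℤ) ≤ ((2 * Z - 3 : ℕ) : ℤ) := Int.natCast_nonneg _
        linarith
      have hval : ∀ i, (X : ℤ) ≤ fp8 Q Z X ω n i ∧ fp8 Q Z X ω n i ≤ 4 * X := by
        intro i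
        have d3 := (M1_geo q0 hG ω hω n hn i).2.1
        exact ⟨d3.1, d3.2.le⟩
      refine Z3_cell Q (B23.leadingCoeff.natAbs * px.1) q0 η E0 px hpx hM.real (dvd_mul_left _ _) ?_ ?_ hM.eta_pos hE0
        ?_ (sy B23 (L2.map ω))
        (Fin.cons (th (B23.eval ((bs (Z / Q ^ 800) n : ℕ) : ℤ))) (fun i : Fin 2 => th (fp8 Q Z X ω n i)) : Fin 3 → ℝ)
        ?_ ?_ ?_
        (Fin.cons (e0 (B23.eval ((bs (Z / Q ^ 800) n : ℕ) : ℤ))) (fun i : Fin 2 => e1 (fp8 Q Z X ω n i)) :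
          Fin 3 → Ch → ℂ) _ ?_ ?_ m0 hm0
      · rw [hlc]
        have := (mem_PC.1 hpx).1
        omega
      · rw [hlc]
        exact hcond
      · push_cast
        linarith
      · intro i
        refine Fin.cases ?_ (fun i => ?_) i
        · exact hM0.nonneg _ d2.1 d2.2
        · exact hM.nonneg _ (hval i).1 (hval i).2
      · intro i
        refine Fin.cases ?_ (fun i => ?_) i
        · exact hM0.le _ d2.1 d2.2
        · exact hM.le _ (hval i).1 (hval i).2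
      · intro h0 i
        refine Fin.cases ?_ (fun i => ?_) i
        · exact hM.triv h0 _
        · exact hM.triv h0 _
      · intro i
        refine Fin.cases ?_ (fun i => ?_) i
        · refine le_trans (Finset.sum_le_sum fun p hp => a3 _ d2.1 d2.2 p (m5_PC q0 hp)) (le_trans ?_ a2)
          exact Finset.sum_le_sum_of_subset_of_nonneg (fun p hp => m5_PC q0 hp) fun p hp _ => a1 p hp
        · exact (Finset.sum_le_sum fun p hp => b3 _ (hval i).1 (hval i).2 p hp).trans b2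
      · intro i p
        refine Fin.cases ?_ (fun i => ?_) i
        · show C0 _ p = _
          rw [hC0]
          rfl
        · show Cc _ p = _
          rw [hCc]
          rfl
    have hZ4 : Z * (m0 / 2) ≤ (M3z Q Z X px.1 C0 Cc ω).re := by
      unfold M3z
      rw [Complex.re_sum]
      have k2 := Finset.sum_le_sum hcell
      rw [Finset.sum_const, Nat.card_Ico, nsmul_eq_mul] at k2
      have k3 : 2 * Z - Z = Z := by omega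
      rw [k3] at k2
      exact k2
    have k5 : (M3z Q Z X px.1 C0 Cc ω).re - (T ω).re ≤ Z * (Q : ℝ) ^ (-(c1 / 4)) := by
      refine le_trans ?_ k1
      have k6 := Complex.abs_re_le_norm (T ω - M3z Q Z X px.1 C0 Cc ω)
      refine le_trans ?_ k6
      rw [Complex.sub_re]
      have k7 := neg_abs_le ((T ω).re - (M3z Q Z X px.1 C0 Cc ω).re)
      linarith
    have k8 : (T ω).re = ∑ y ∈ Ico Z (2 * Z), KL Q X (ω 0) y * lp (2 * (y : ℤ) - 3) := by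
      rw [hT, M5_T3w, Complex.ofReal_re]
    rw [k8] at k5
    have k9 : (Z : ℝ) * (m0 / 2 - (Q : ℝ) ^ (-(c1 / 4))) = Z * (m0 / 2) - Z * (Q : ℝ) ^ (-(c1 / 4)) := by ring
    rw [k9]
    linarith

end Pool.Agent.Lib.H24Q
end

-- from Lib.H24Q.M7
section

/-!
# Project H24Q, chunk M7 (M): the three-fold lower bounds
-/

open Finset Polynomial

namespace Pool.Agent.Lib.H24Q

open Pool.Agent.Lib.H68T Pool.Agent.Lib.H18Q Pool.Agent.Lib.H59P Pool.Agent.Lib.H24P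

/-- the numerical inequality -/
theorem m7_fin (Q : ℕ) (a ε c1 : ℝ) (hQ : 1 ≤ Q) (h4 : 4 * (1 + Real.log Q) ^ (0 : ℝ) ≤ (Q : ℝ) ^ ε)
    (h : a + ε < c1) : (Q : ℝ) ^ (-(a + ε)) ≤ (Q : ℝ) ^ (-a) / 2 - (Q : ℝ) ^ (-c1) := by
  have hQr1 : (1 : ℝ) ≤ Q := by exact_mod_cast hQ
  have hQr0 : (0 : ℝ) < Q := by linarith
  rw [Real.rpow_zero, mul_one] at h4
  have h1 : (Q : ℝ) ^ (-c1) ≤ (Q : ℝ) ^ (-(a + ε)) :=
    Real.rpow_le_rpow_of_exponent_le hQr1 (by linarith)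
  have h2 : (Q : ℝ) ^ (-a) = (Q : ℝ) ^ ε * (Q : ℝ) ^ (-(a + ε)) := by
    rw [← Real.rpow_add hQr0]
    congr 1
    ring
  have h3 : 0 ≤ (Q : ℝ) ^ (-(a + ε)) := Real.rpow_nonneg hQr0.le _
  have h5 := mul_le_mul_of_nonneg_right h4 h3
  rw [h2]
  linarith

/-- `N ≥ Q^(2 b0 + 1)` gives `9 ≤ N` and `Q^b0 ≤ Z` -/
theorem m7_geo {K : ℝ} {b0 Q N : ℕ} (hQ : 9 ≤ Q)
    (hK : max K (2 * (b0 : ℝ) + 1) * Real.log Q ≤ Real.log N) :
    K * Real.log Q ≤ Real.log N ∧ 9 ≤ N ∧ ∀ Z : ℕ, N ≤ Z ^ 2 → Q ^ b0 ≤ Z := by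
  have hlQ : 0 ≤ Real.log Q := Real.log_natCast_nonneg Q
  have h1 : K * Real.log Q ≤ Real.log N :=
    (mul_le_mul_of_nonneg_right (le_max_left _ _) hlQ).trans hK
  have h2 : (2 * (b0 : ℝ) + 1) * Real.log Q ≤ Real.log N :=
    (mul_le_mul_of_nonneg_right (le_max_right _ _) hlQ).trans hK
  have hQr : (9 : ℝ) ≤ Q := by exact_mod_cast hQ
  have hlQ1 : 0 < Real.log Q := Real.log_pos (by linarith)
  have hb : (0 : ℝ) ≤ b0 := Nat.cast_nonneg _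
  have hN0 : 0 < N := by
    rcases Nat.eq_zero_or_pos N with h | h
    · rw [h, Nat.cast_zero, Real.log_zero] at h2
      nlinarith
    · exact h
  have hNr : (0 : ℝ) < N := by exact_mod_cast hN0
  have h3 : Real.log ((Q : ℝ) ^ (2 * b0 + 1)) ≤ Real.log N := by
    rw [Real.log_pow]
    push_cast
    exact h2
  have h4 : (Q : ℝ) ^ (2 * b0 + 1) ≤ N := (Real.log_le_log_iff (by positivity) hNr).1 h3
  have h5 : Q ^ (2 * b0 + 1) ≤ N := by exact_mod_cast h4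
  refine ⟨h1, ?_, ?_⟩
  · calc 9 ≤ Q := hQ
      _ ≤ Q ^ (2 * b0 + 1) := Nat.le_self_pow (by omega) Q
      _ ≤ N := h5
  · intro Z hZ
    have h6 : (Q ^ b0) ^ 2 ≤ Z ^ 2 := by
      rw [← pow_mul, mul_comm b0 2]
      exact ((Nat.pow_le_pow_right (by omega) (by omega)).trans h5).trans hZ
    exact (Nat.pow_le_pow_iff_left (by norm_num)).1 h6

/-- from a bad set of `ω` to a bad set of `x` -/
theorem m7_bad {Q X Z : ℕ} {c b : ℝ} (Bad : Finset (Fin 1 → ℕ)) (hB : Bad ⊆ bx X)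
    (hc : (Bad.card : ℝ) ≤ X * (Q : ℝ) ^ (-c))
    (h : ∀ ω ∈ bx X, ω ∉ Bad → 3 ∣ ω 0 →
      Z * (Q : ℝ) ^ (-b) ≤ ∑ y ∈ Ico Z (2 * Z), KL Q X (ω 0) y * lp (2 * (y : ℤ) - 3)) :
    ∃ Bad : Finset ℕ, Bad ⊆ Ico (2 * X) (3 * X) ∧ (Bad.card : ℝ) ≤ X * (Q : ℝ) ^ (-c) ∧
      ∀ x ∈ Ico (2 * X) (3 * X), x ∉ Bad → 3 ∣ x →
        Z * (Q : ℝ) ^ (-b) ≤ ∑ y ∈ Ico Z (2 * Z), KL Q X x y * lp (2 * (y : ℤ) - 3) := by
  classical
  refine ⟨Bad.image (fun ω => ω 0), ?_, ?_, ?_⟩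
  · intro x hx
    obtain ⟨ω, hω, rfl⟩ := mem_image.1 hx
    have h1 := hB hω
    unfold bx cub at h1
    have h2 : 2 * X ≤ ω 0 ∧ ω 0 < 2 * X + X := mem_Ico.1 ((Fintype.mem_piFinset.1 h1) 0)
    rw [mem_Ico]
    show 2 * X ≤ ω 0 ∧ ω 0 < 3 * X
    omega
  · have h1 : ((Bad.image (fun ω => ω 0)).card : ℝ) ≤ (Bad.card : ℝ) := by
      exact_mod_cast card_image_le
    exact h1.trans hc
  · intro x hx hxB h3
    refine h (fun _ => x) ?_ ?_ h3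
    · unfold bx cub
      rw [Fintype.mem_piFinset]
      intro _
      have h2 := mem_Ico.1 hx
      rw [mem_Ico]
      show 2 * X ≤ x ∧ x < 2 * X + X
      omega
    · intro h4
      exact hxB (mem_image.2 ⟨fun _ => x, h4, rfl⟩)

/-- **M7A.** Proof. Compare `D4_A`. `M5_main` (`c1 = c'`, `K` enlarged such that `Q^b0 ≤ X`) with `E0 = 1/16`; the scales `X` and
`2Z - 3` are between `N^(1/2)` and `N²` (`M1_GeoB`), so `LvA` gives `Mdl` at the levels `Q`, `Q^100`; `M6_A`: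
`m0 = Q^(-(3 c6 + ε))`, so the sum is `≥ Z (Q^(-(3 c6 + ε))/2 - Q^(-c1)) ≥ Z Q^(-(3 c6 + 2 ε))` for `Q` large. The bad set of
`x` is the image of `Bad` under `ω ↦ ω 0` (a bijection from `bx X` to `Ico (2X) (3X)`). `G3`: `9 ≤ N` as `N ≥ Q^K`.
(`η ≤ 1` from `Mdl`.) -/
theorem M7_A (b0 : ℕ) (C c : ℝ) (hC : 1 ≤ C) (hc : 0 < c) (hW : HW C c b0 B23 L2) : Thm3A := by
  classical
  obtain ⟨c1, K, hc1, hK1, hM⟩ := M5_main b0 C c hC hc hW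
  refine ⟨c1, max K (2 * (b0 : ℝ) + 1), hc1, hK1.trans (le_max_left _ _), ?_⟩
  intro c6 ε hc6 hε hlt Cr
  obtain ⟨Q1, hM1⟩ := hM Cr
  obtain ⟨Q2, hA⟩ := M6_A b0 C c hC hc hW c6 ε hc6 hε
  obtain ⟨Q3, hQ3, h4⟩ := G1_rlog 4 0 ε hε
  refine ⟨max (max Q1 Q2) (max Q3 9), ?_⟩
  intro Q N hQ hKQ hCr hLv Z X hdZ hdX hZlo hZX hXhi
  have hQ1' : Q1 ≤ Q := (le_max_left _ _).trans ((le_max_left _ _).trans hQ)
  have hQ2' : Q2 ≤ Q := (le_max_right _ _).trans ((le_max_left _ _).trans hQ)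
  have hQ3' : Q3 ≤ Q := (le_max_left _ _).trans ((le_max_right _ _).trans hQ)
  have hQ9 : 9 ≤ Q := (le_max_right _ _).trans ((le_max_right _ _).trans hQ)
  obtain ⟨hKN, hN9, hZb⟩ := m7_geo hQ9 hKQ
  have hG : G3 Q N Z X := ⟨hdZ, hdX, hN9, hZlo, hZX, hXhi⟩
  obtain ⟨-, g1, g2, g3, g4⟩ := M1_GeoB hG
  have hXb : Q ^ b0 ≤ X := (hZb Z hZlo).trans (by omega)
  obtain ⟨hA1, hA2⟩ := hA Q X hQ2' hXb
  have hfin := m7_fin Q (3 * c6 + ε) ε c1 (by omega) (h4 Q hQ3') (by linarith)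
  have hZ0 : (0 : ℝ) ≤ Z := Nat.cast_nonneg _
  have hexp : 3 * c6 + ε + ε = 3 * c6 + 2 * ε := by ring
  rw [hexp] at hfin
  rcases hLv with hgood | hexc
  · obtain ⟨hm1, -⟩ := hgood X g3 g4
    obtain ⟨-, hm2⟩ := hgood (2 * Z - 3) g1 g2
    obtain ⟨Bad, hB1, hB2, hB3⟩ := hM1 Q N Z X 1 (1 / 16) p0 (fun _ => 0) hQ1' hKN hCr hG hm1.mem
      hm1.cond hm2 hm1 (by norm_num) (by norm_num)
    refine m7_bad Bad hB1 hB2 ?_
    intro ω hω hωB h3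
    refine le_trans ?_ (hB3 ω hω hωB ((Q : ℝ) ^ (-(3 * c6 + ε))) ?_)
    · exact mul_le_mul_of_nonneg_left hfin hZ0
    · intro th' h0 h1 _
      exact hA1 ω hω h3 th' h0 h1
  · obtain ⟨r, hr, ψ, β, η, hR, hr100, hprim, hne1, hsq, hβ, hLf, hη, hY⟩ := hexc
    obtain ⟨hm1, -⟩ := hY X g3 g4
    obtain ⟨-, hm2⟩ := hY (2 * Z - 3) g1 g2
    obtain ⟨Bad, hB1, hB2, hB3⟩ := hM1 Q N Z X η (1 / 16) ⟨r, ψ⟩ _ hQ1' hKN hCr hG hm1.mem
      hm1.cond hm2 hm1 (by norm_num) (by norm_num)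
    refine m7_bad Bad hB1 hB2 ?_
    intro ω hω hωB h3
    refine le_trans ?_ (hB3 ω hω hωB ((Q : ℝ) ^ (-(3 * c6 + ε))) ?_)
    · exact mul_le_mul_of_nonneg_left hfin hZ0
    · intro th' h0 h1 _
      exact hA2 r ψ β η hr100 hprim hne1 hsq hβ hLf hη hm1.eta_le hR ω hω h3 th' h0 h1

/-- **M7B.** Proof. Compare `D4_B`. `M5_main` and `M6_B` (constant `c = c2`): the union of the two bad sets has at most
`X (Q^(-c1) + Q^(-c2 c6/2)) ≤ X Q^(-min(c1, c2 c6/2)/2)` elements, `m0 = Q^(-ε)`. -/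
theorem M7_B (b0 : ℕ) (C c : ℝ) (hC : 1 ≤ C) (hc : 0 < c) (hW : HW C c b0 B23 L2) : Thm3B := by
  classical
  obtain ⟨c1, K, hc1, hK1, hM⟩ := M5_main b0 C c hC hc hW
  obtain ⟨c2, hc2, hB⟩ := M6_B b0 C c hC hc hW
  refine ⟨c1, c2, max K (2 * (b0 : ℝ) + 1), hc1, hc2, hK1.trans (le_max_left _ _), ?_⟩
  intro c6 ε hc6 hε hlt Cr
  obtain ⟨Q1, hM1⟩ := hM Cr
  obtain ⟨Q2, hB⟩ := hB c6 ε hc6 hε
  obtain ⟨Q3, hQ3, h4⟩ := G1_rlog 4 0 ε hε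
  have hmin : 0 < min c1 (c2 * c6 / 2) := lt_min hc1 (by positivity)
  obtain ⟨Q4, hQ4, h5⟩ := G1_rlog 2 0 (min c1 (c2 * c6 / 2) / 2) (by positivity)
  refine ⟨max (max Q1 Q2) (max (max Q3 Q4) 9), ?_⟩
  intro Q N hQ hKQ hCr hLv Z X hdZ hdX hZlo hZX hXhi
  have hQ1' : Q1 ≤ Q := (le_max_left _ _).trans ((le_max_left _ _).trans hQ)
  have hQ2' : Q2 ≤ Q := (le_max_right _ _).trans ((le_max_left _ _).trans hQ)
  have hQ3' : Q3 ≤ Q :=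
    (le_max_left _ _).trans ((le_max_left _ _).trans ((le_max_right _ _).trans hQ))
  have hQ4' : Q4 ≤ Q :=
    (le_max_right _ _).trans ((le_max_left _ _).trans ((le_max_right _ _).trans hQ))
  have hQ9 : 9 ≤ Q := (le_max_right _ _).trans ((le_max_right _ _).trans hQ)
  have hQr1 : (1 : ℝ) ≤ Q := by exact_mod_cast (by omega : 1 ≤ Q)
  have hQr0 : (0 : ℝ) < Q := by linarith
  obtain ⟨hKN, hN9, hZb⟩ := m7_geo hQ9 hKQ
  have hG : G3 Q N Z X := ⟨hdZ, hdX, hN9, hZlo, hZX, hXhi⟩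
  obtain ⟨-, g1, g2, g3, g4⟩ := M1_GeoB hG
  have hXb : Q ^ b0 ≤ X := (hZb Z hZlo).trans (by omega)
  have hfin := m7_fin Q ε ε c1 (by omega) (h4 Q hQ3') (by linarith)
  have hZ0 : (0 : ℝ) ≤ Z := Nat.cast_nonneg _
  have hX0 : (0 : ℝ) ≤ X := Nat.cast_nonneg _
  have hexp : ε + ε = 2 * ε := by ring
  rw [hexp] at hfin
  obtain ⟨r, hr, ψ, β, η, hR, hr100, hprim, hne1, hsq, hβ, hLf, hη, hY⟩ := hLv
  obtain ⟨hm1, -⟩ := hY X g3 g4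
  obtain ⟨-, hm2⟩ := hY (2 * Z - 3) g1 g2
  obtain ⟨Bad, hB1, hB2, hB3⟩ := hM1 Q N Z X η (1 / 16) ⟨r, ψ⟩ _ hQ1' hKN hCr hG hm1.mem
    hm1.cond hm2 hm1 (by norm_num) (by norm_num)
  obtain ⟨Bad', hD1, hD2, hD3⟩ := hB Q X hQ2' hXb r ψ β η hr100 hprim hne1 hsq hβ hLf hη
    hm1.eta_le hR
  refine m7_bad (Bad ∪ Bad') (union_subset hB1 hD1) ?_ ?_
  · have h6 : ((Bad ∪ Bad').card : ℝ) ≤ (Bad.card : ℝ) + Bad'.card := by
      exact_mod_cast card_union_le _ _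
    have h7 : (Q : ℝ) ^ (-c1) ≤ (Q : ℝ) ^ (-(min c1 (c2 * c6 / 2))) :=
      Real.rpow_le_rpow_of_exponent_le hQr1 (by linarith [min_le_left c1 (c2 * c6 / 2)])
    have h8 : (Q : ℝ) ^ (-(c2 * c6 / 2)) ≤ (Q : ℝ) ^ (-(min c1 (c2 * c6 / 2))) :=
      Real.rpow_le_rpow_of_exponent_le hQr1 (by linarith [min_le_right c1 (c2 * c6 / 2)])
    have h9 := h5 Q hQ4'
    rw [Real.rpow_zero, mul_one] at h9
    have h10 : (Q : ℝ) ^ (-(min c1 (c2 * c6 / 2) / 2)) =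
        (Q : ℝ) ^ (min c1 (c2 * c6 / 2) / 2) * (Q : ℝ) ^ (-(min c1 (c2 * c6 / 2))) := by
      rw [← Real.rpow_add hQr0]
      congr 1
      ring
    have h11 : 0 ≤ (Q : ℝ) ^ (-(min c1 (c2 * c6 / 2))) := Real.rpow_nonneg hQr0.le _
    have h12 : 2 * (Q : ℝ) ^ (-(min c1 (c2 * c6 / 2))) ≤
        (Q : ℝ) ^ (-(min c1 (c2 * c6 / 2) / 2)) := by
      rw [h10]
      exact mul_le_mul_of_nonneg_right h9 h11
    calc ((Bad ∪ Bad').card : ℝ) ≤ X * (Q : ℝ) ^ (-c1) + X * (Q : ℝ) ^ (-(c2 * c6 / 2)) := by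
          linarith
      _ ≤ X * (Q : ℝ) ^ (-(min c1 (c2 * c6 / 2))) + X * (Q : ℝ) ^ (-(min c1 (c2 * c6 / 2))) :=
          add_le_add (mul_le_mul_of_nonneg_left h7 hX0) (mul_le_mul_of_nonneg_left h8 hX0)
      _ = X * (2 * (Q : ℝ) ^ (-(min c1 (c2 * c6 / 2)))) := by ring
      _ ≤ X * (Q : ℝ) ^ (-(min c1 (c2 * c6 / 2) / 2)) := mul_le_mul_of_nonneg_left h12 hX0
  · intro ω hω hωB h3
    rw [mem_union, not_or] at hωB
    refine le_trans ?_ (hB3 ω hω hωB.1 ((Q : ℝ) ^ (-ε)) ?_)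
    · exact mul_le_mul_of_nonneg_left hfin hZ0
    · intro th' h0 h1 _
      exact hD3 ω hω hωB.2 h3 th' h0 h1

end Pool.Agent.Lib.H24Q
end

-- from Lib.H24Q.M8
section

/-!
# Project H24Q, chunk M8: module F from the two properties proved in `H59T`
-/

open Finset Polynomial

namespace Pool.Agent.Lib.H24Q

open Pool.Agent.Lib.H68T Pool.Agent.Lib.H18Q Pool.Agent.Lib.H59P Pool.Agent.Lib.H24P

theorem M8_FG {C c : ℝ} {Q H0 m : ℕ} {Ω : Type} {S : Finset Ω} {φ : Ω → Fin m → ℤ → ℤ}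
    (h : FW C c Q H0 S φ) : FG C c Q H0 S φ := by
  intro p hp T hT D hD hT' a H hH
  have h1 := h p hp T hT D hD hT' (fun _ => 1) a H hH
  simp only [one_mul, norm_one, one_pow, sum_const, Nat.card_Ico, add_tsub_cancel_left,
    nsmul_eq_mul, mul_one] at h1
  rw [sq (H : ℝ)]
  exact h1

/-- **Module F.** -/
theorem module_F (C4 c4 C2 c2 : ℝ) (B : ℕ) (hC4 : 1 ≤ C4) (hc4 : 0 < c4) (hC2 : 1 ≤ C2)
    (hc2 : 0 < c2)
    (hFG : ∀ Q : ℕ, 2 ≤ Q → ∀ b s : Fin 2 → ℕ, (∀ j, Q ^ B ≤ s j) →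
      FG C4 c4 Q (Q ^ B) (cub b s) L4.map)
    (hFW : ∀ Q : ℕ, 2 ≤ Q → ∀ b s : Fin 1 → ℕ, (∀ j, Q ^ B ≤ s j) →
      FW C2 c2 Q (Q ^ B) (cub b s) L2.map)
    (K0 : ℝ) (hK0 : 1 ≤ K0) : ∃ Cr : ℝ, 1 ≤ Cr ∧ ∀ ρ cb : ℝ, 0 < ρ → 0 < cb →
    ∃ c0 : ℝ, 0 < c0 ∧ ∃ N0 : ℕ, ∀ N : ℕ, N0 ≤ N → ∃ Q : ℕ, K0 * Real.log Q ≤ Real.log N ∧
      Real.log N ≤ Cr * Real.log Q ∧
      (∀ Y : ℕ, N ≤ Y ^ 2 → Y ≤ N ^ 2 → RegP K0 Q Y ∧ RegP K0 (Q ^ 100) Y) ∧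
      (∀ Y : ℕ, N ≤ Y ^ 2 → Y ≤ N ^ 2 → ∃ (η : ℝ) (px : Ch) (th : ℤ → ℝ), Mdl Q Y η (1 / 16) px th) ∧
      ∃ c : ℝ, c0 ≤ c ∧ c ≤ cb ∧ MT Q N c (ρ * c) := by
  obtain ⟨Ca, hCa, hfb4⟩ := D0_fb4
  obtain ⟨Cb, hCb, hfb2⟩ := D0_fb2
  obtain ⟨Cc, hCc, hfw2⟩ := D0_fw2
  have h4 := D0_HF L4 C4 c4 Ca B hC4 hCa hfb4 hFG
  have h2 := D0_HF L2 C2 c2 Cb B hC2 hCb hfb2 (fun Q hQ b s hs => M8_FG (hFW Q hQ b s hs))
  have h3 := D0_HW L2 B23 C2 c2 Cc B hC2 hCc hfw2 hFW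
  exact main_terms (max C4 Ca) c4 (max C2 Cb) c2 (2 * B) (le_max_of_le_left hC4) hc4
    (le_max_of_le_left hC2) hc2 h4 h2
    (M7_A (2 * B) (max C2 Cc) c2 (le_max_of_le_left hC2) hc2 h3)
    (M7_B (2 * B) (max C2 Cc) c2 (le_max_of_le_left hC2) hc2 h3) K0 hK0

end Pool.Agent.Lib.H24Q
end

-- from Lib.H24Q.M9
section

/-!
# Project H24Q, chunk M9: module F without hypotheses
-/

open Finset Polynomial

namespace Pool.Agent.Lib.H24Q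

open Pool.Agent.Lib.H68T Pool.Agent.Lib.H18Q Pool.Agent.Lib.H59P Pool.Agent.Lib.H24P

/-- **Module F**, the main terms of candidate T of MP_443e5f. -/
theorem F_all (K0 : ℝ) (hK0 : 1 ≤ K0) : ∃ Cr : ℝ, 1 ≤ Cr ∧ ∀ ρ cb : ℝ, 0 < ρ → 0 < cb →
    ∃ c0 : ℝ, 0 < c0 ∧ ∃ N0 : ℕ, ∀ N : ℕ, N0 ≤ N → ∃ Q : ℕ, K0 * Real.log Q ≤ Real.log N ∧
      Real.log N ≤ Cr * Real.log Q ∧
      (∀ Y : ℕ, N ≤ Y ^ 2 → Y ≤ N ^ 2 → RegP K0 Q Y ∧ RegP K0 (Q ^ 100) Y) ∧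
      (∀ Y : ℕ, N ≤ Y ^ 2 → Y ≤ N ^ 2 → ∃ (η : ℝ) (px : Ch) (th : ℤ → ℝ), Mdl Q Y η (1 / 16) px th) ∧
      ∃ c : ℝ, c0 ≤ c ∧ c ≤ cb ∧ MT Q N c (ρ * c) := by
  obtain ⟨Ca, hCa, hFG⟩ := H59T.F6_FG
  obtain ⟨Cb, hCb, hFW⟩ := H59T.F6_FW
  exact module_F Ca (1 / 36) Cb (1 / 72) 40 hCa (by norm_num) hCb (by norm_num) hFG hFW K0 hK0

end Pool.Agent.Lib.H24Q
end

-- from Lib.H37T.G0
section
/-!
H37T: the input of module G (`H96G.GIn`) at all large sizes, from the main terms (module F), the operator bound (module STAR)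
and the inverse theorem.
-/
namespace Pool.Agent.H37T
open Finset
open Pool.Agent.Lib.H68T (Lk lp)
open Pool.Agent.Lib.H18Q (RegP)
open Pool.Agent.Lib.H96G (GIn Sc ST kp km)
open Pool.Agent.Lib.H24Q (KL MT)

theorem invS : Pool.Agent.H9S.INV := inv

theorem gin : ∃ c0 : ℝ, 0 < c0 ∧ ∃ n1 : ℕ, ∀ n : ℕ, n1 ≤ n →
    ∃ (M : ℕ) (L : ℕ → ℤ → ℝ) (c B b : ℝ), c0 ≤ b ∧ GIn n M L c B b := by
  obtain ⟨K1, hK1, hOP⟩ := Pool.Agent.H9S.OP_main invS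
  obtain ⟨K2, hK2, hbd⟩ := Pool.Agent.H9S.BDL_bd
  obtain ⟨K0, hK0⟩ : ∃ K0 : ℝ, K0 = max (max K1 K2) 1600 := ⟨_, rfl⟩
  have hK01 : K1 ≤ K0 := by rw [hK0]; exact (le_max_left _ _).trans (le_max_left _ _)
  have hK02 : K2 ≤ K0 := by rw [hK0]; exact (le_max_right _ _).trans (le_max_left _ _)
  have hK03 : 1600 ≤ K0 := by rw [hK0]; exact le_max_right _ _
  have hK0p : 0 ≤ K0 := by linarith
  obtain ⟨Cr, hCr, hF⟩ := Pool.Agent.Lib.H24Q.F_all K0 (by linarith)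
  obtain ⟨cop, hcop, nop, hop⟩ := hOP K0 hK01 Cr hCr
  obtain ⟨cF0, hcF0, nF, hF2⟩ := hF (1 / 10000) (min cop 1) (by norm_num) (lt_min hcop one_pos)
  have hc0 : 0 < cF0 / (10000 * Cr) := by positivity
  obtain ⟨nb, hnb⟩ := hbd (cF0 / (10000 * Cr)) hc0
  refine ⟨cF0 / (10000 * Cr), hc0, max (max nop nF) (max nb 2), fun n hn => ?_⟩
  have hn1 : nop ≤ n := by omega
  have hn2 : nF ≤ n := by omega
  have hn3 : nb ≤ n := by omega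
  have hn4 : 2 ≤ n := by omega
  have hnR : (2:ℝ) ≤ n := by exact_mod_cast hn4
  have hn0 : (0:ℝ) < n := by linarith
  have hn1' : (1:ℝ) ≤ n := by linarith
  have hlogn : 0 < Real.log n := Real.log_pos (by linarith)
  obtain ⟨Q, hQ1, hQ2, hreg, -, cF, hcF1, hcF2, hMT⟩ := hF2 n hn2
  have hcFp : 0 < cF := lt_of_lt_of_le hcF0 hcF1
  have hlogQ : 0 < Real.log Q := by
    by_contra hcon
    have : Cr * Real.log Q ≤ 0 := mul_nonpos_of_nonneg_of_nonpos (by linarith) (not_lt.1 hcon)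
    linarith
  have hQpos : 1 ≤ Q := by
    by_contra hcon
    have hQ0 : Q = 0 := by omega
    rw [hQ0, Nat.cast_zero, Real.log_zero] at hlogQ
    exact lt_irrefl _ hlogQ
  have hQR : (1:ℝ) ≤ Q := by exact_mod_cast hQpos
  have hQ0 : (0:ℝ) < Q := by linarith
  obtain ⟨lam, hlam⟩ : ∃ lam : ℝ, lam = Real.log Q / Real.log n := ⟨_, rfl⟩
  have hlamp : 0 < lam := by rw [hlam]; positivity
  have hlam1 : lam ≤ 1 := by
    rw [hlam, div_le_one hlogn]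
    nlinarith
  have hlamC : 1 / Cr ≤ lam := by
    rw [hlam, div_le_div_iff₀ (by linarith) hlogn]
    linarith
  have hnQ : (n:ℝ) ^ lam = Q := by
    rw [Real.rpow_def_of_pos hn0, hlam, mul_div_cancel₀ _ hlogn.ne', Real.exp_log hQ0]
  have hQn : ∀ x : ℝ, (Q:ℝ) ^ (-x) = (n:ℝ) ^ (-(x * lam)) := by
    intro x
    rw [← hnQ, ← Real.rpow_mul hn0.le]
    congr 1
    ring
  obtain ⟨c, hc⟩ : ∃ c : ℝ, c = cF * lam := ⟨_, rfl⟩
  have hcp : 0 < c := by rw [hc]; positivity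
  have hccF : c ≤ cF := by rw [hc]; exact mul_le_of_le_one_right hcFp.le hlam1
  have hc1 : c ≤ 1 := hccF.trans (hcF2.trans (min_le_right _ _))
  have hcop' : c ≤ cop := hccF.trans (hcF2.trans (min_le_left _ _))
  have hcC : cF0 / Cr ≤ c := by
    rw [hc]
    calc cF0 / Cr = cF0 * (1 / Cr) := by ring
      _ ≤ cF * lam := mul_le_mul hcF1 hlamC (by positivity) hcFp.le
  have hb0 : cF0 / (10000 * Cr) ≤ c / 10000 := by
    calc cF0 / (10000 * Cr) = cF0 / Cr / 10000 := by rw [div_div, mul_comm]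
      _ ≤ c / 10000 := by linarith
  have hQc : (Q:ℝ) ^ (-cF) = (n:ℝ) ^ (-c) := by rw [hQn, hc]
  have hQb : (Q:ℝ) ^ (-(1 / 10000 * cF)) = (n:ℝ) ^ (-(c / 10000)) := by
    rw [hQn, hc]
    congr 1
    ring
  have hQX : Q ≤ n := by
    have h1 : Real.log Q ≤ Real.log n := by
      have : lam * Real.log n = Real.log Q := by rw [hlam, div_mul_cancel₀ _ hlogn.ne']
      nlinarith
    have h2 : (Q:ℝ) ≤ n := (Real.log_le_log_iff hQ0 hn0).1 h1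
    exact_mod_cast h2
  -- scales
  have hsc : ∀ X Z : ℕ, Sc n (Q ^ 800) (c / 100) X Z → n ≤ Z ^ 2 ∧ n ≤ X ^ 2 ∧ X ≤ n ^ 2 ∧ 1 ≤ Z ∧ 1 ≤ X := by
    intro X Z h
    have h1 : (n:ℝ) ^ (1 / 2 : ℝ) ≤ Z :=
      (Real.rpow_le_rpow_of_exponent_le hn1' (by linarith)).trans h.lo
    have h2 : (n:ℝ) ≤ (Z:ℝ) ^ 2 := by
      calc (n:ℝ) = ((n:ℝ) ^ (1 / 2 : ℝ)) ^ 2 := by
            rw [← Real.rpow_natCast, ← Real.rpow_mul hn0.le]
            norm_num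
        _ ≤ (Z:ℝ) ^ 2 := pow_le_pow_left₀ (Real.rpow_nonneg hn0.le _) h1 2
    have h3 : n ≤ Z ^ 2 := by exact_mod_cast h2
    have h4 : 1 ≤ Z := by
      rcases Nat.eq_zero_or_pos Z with h5 | h5
      · rw [h5] at h3
        omega
      · exact h5
    have h5 := h.le
    have h6 := h.hi
    refine ⟨h3, ?_, ?_, h4, by omega⟩
    · have : Z ^ 2 ≤ X ^ 2 := Nat.pow_le_pow_left (by omega) 2
      omega
    · have : X ≤ X ^ 2 := Nat.le_self_pow (by norm_num) X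
      have h7 : n ≤ n ^ 2 := Nat.le_self_pow (by norm_num) n
      omega
  have hregX : ∀ X Z : ℕ, Sc n (Q ^ 800) (c / 100) X Z → RegP K0 Q X := by
    intro X Z h
    obtain ⟨h1, h2, h3, h4, h5⟩ := hsc X Z h
    exact (hreg X h2 h3).1
  have h40 : Q ^ 40 ∣ Q ^ 800 := pow_dvd_pow Q (by norm_num)
  refine ⟨Q ^ 800, fun X => Lk Q (X / Q ^ 2), c, c / 100, c / 10000, hb0, ?_⟩
  refine ⟨by positivity, by linarith, by linarith, hc1, Nat.one_le_pow _ _ hQpos, ?_, ?_, ?_, ?_, ?_⟩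
  · -- Mn
    push_cast
    have h1 : (Q:ℝ) ^ 800 = (n:ℝ) ^ (lam * 800) := by
      rw [Real.rpow_mul hn0.le, hnQ]
      norm_cast
    rw [h1]
    refine Real.rpow_le_rpow_of_exponent_le hn1' ?_
    have h2 : lam * 1600 ≤ 1 := by
      rw [hlam, div_mul_eq_mul_div, div_le_one hlogn]
      nlinarith
    linarith
  · -- bd
    intro X Z h m hm1 hm2
    obtain ⟨h1, h2, h3, h4, h5⟩ := hsc X Z h
    have h6 := hnb n hn3 Q X ((hregX X Z h).mono hK0p hK02) hQpos hQX h5 h.hi m hm1 hm2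
    exact h6.trans (Real.rpow_le_rpow_of_exponent_le hn1' hb0)
  · -- op
    intro X Z h f g hf hg
    obtain ⟨h1, h2, h3, h4, h5⟩ := hsc X Z h
    have h6 := hop n Q hn1 hQ1 hQ2 X Z (hregX X Z h) h4 h.le h.hi f g hf hg
    exact h6.trans (Real.rpow_le_rpow_of_exponent_le hn1' (by linarith))
  · -- m4
    intro X X' Z h h'
    obtain ⟨h1, h2, h3, h4, h5⟩ := hsc X Z h
    obtain ⟨Bad, hB1, hB2, hB3⟩ := hMT.m4 Z X X' (h40.trans h.dZ) (h40.trans h.dX) (h40.trans h'.dX) h1 h.le h'.le h.hi h'.hi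
    refine le_trans (Nat.cast_le.2 (Finset.card_le_card (t := Bad) ?_)) (hB2.trans ?_)
    · intro p hp
      simp only [Finset.mem_filter, Finset.mem_product] at hp
      obtain ⟨⟨hp1, hp2⟩, hp3, hp4⟩ := hp
      by_contra hcon
      have h7 := hB3 p.1 hp1 p.2 hp2 hcon hp3.1 hp3.2
      rw [hQb] at h7
      exact absurd hp4 (not_lt.2 h7)
    rw [hQc]
    have hX : (X:ℝ) ≤ n := by exact_mod_cast h.hi
    have hX' : (X':ℝ) ≤ n := by exact_mod_cast h'.hi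
    have h8 : 0 ≤ (n:ℝ) ^ (-c) := Real.rpow_nonneg hn0.le _
    calc (X:ℝ) * X' * (n:ℝ) ^ (-c) ≤ (n:ℝ) * n * (n:ℝ) ^ (-c) := by gcongr
      _ = (n:ℝ) ^ (2 - c) := by
          rw [show (2:ℝ) - c = 2 + (-c) by ring, Real.rpow_add hn0, Real.rpow_two]
          ring
  · -- m3
    intro X Z h
    obtain ⟨h1, h2, h3, h4, h5⟩ := hsc X Z h
    obtain ⟨Bad, hB1, hB2, hB3⟩ := hMT.m3 Z X h.dZ (h40.trans h.dX) h1 h.le h.hi
    refine le_trans (Nat.cast_le.2 (Finset.card_le_card (t := Bad) ?_)) (hB2.trans ?_)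
    · intro x hx
      simp only [Finset.mem_filter] at hx
      obtain ⟨hx1, hx2, hx3⟩ := hx
      by_contra hcon
      have h7 := hB3 x hx1 hcon hx2
      rw [hQb] at h7
      exact absurd hx3 (not_lt.2 h7)
    rw [hQc]
    have hX : (X:ℝ) ≤ n := by exact_mod_cast h.hi
    have h8 : 0 ≤ (n:ℝ) ^ (-c) := Real.rpow_nonneg hn0.le _
    calc (X:ℝ) * (n:ℝ) ^ (-c) ≤ (n:ℝ) * (n:ℝ) ^ (-c) := by gcongr
      _ = (n:ℝ) ^ (1 - c) := by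
          rw [show (1:ℝ) - c = 1 + (-c) by ring, Real.rpow_add hn0, Real.rpow_one]

end Pool.Agent.H37T
end
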